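import Pool.Agent.TG.Ker
import Pool.Agent.TR.Basic1
set_option autoImplicit false

/-!
# General averages avk: adjointness, set inequalities, derivatives, second order errors
-/

open MeasureTheory Metric Set TrI Filter
open scoped InnerProductSpace ContDiff Topology

namespace TG

noncomputable section

variable {d : ℕ}

lemma BaseKer.even {J : ℕ} {M c : ℝ} {b : Sp d → ℝ} (h : BaseKer J M c b) (x : Sp d) :
    b (-x) = b x :=
  le_antisymm (h.mono x (-x) (by rw [norm_neg])) (h.mono (-x) x (by rw [norm_neg]))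

lemma IsProf.even {J : ℕ} {M : ℝ} {β : Sp d → ℝ} (h : IsProf J M β) (x : Sp d) :
    β (-x) = β x :=
  le_antisymm (h.mono x (-x) (by rw [norm_neg])) (h.mono (-x) x (by rw [norm_neg]))

namespace AK

variable {ψ : Sp d → ℝ} (h : AK ψ)

variable {F : Type*} [NormedAddCommGroup F] [NormedSpace ℝ F]

/-! ## adjointness -/

include h in
lemma integrand_integrable' {g : Sp d → F} (hg : LB g) (s : ℝ) (x : Sp d) :
    Integrable fun y => ψ y • g (x + s • y) :=
  (hg.comp_smul x s).integrable_smul h.cont (R := 1) h.supp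

include h in
/-- joint integrability for locally bounded functions, weight with compact support at x -/
lemma prod_integrable_left {w : Sp d → ℝ} {g : Sp d → F} (hw : LB w) (hc : HasCompactSupport w)
    (hg : LB g) (s : ℝ) :
    Integrable (Function.uncurry fun (x y : Sp d) => w x • ψ y • g (x + s • y))
      (volume.prod volume) := by
  obtain ⟨R, hR⟩ := hc.isCompact.isBounded.subset_closedBall (0 : Sp d)
  have hR' : ∀ z, w z ≠ 0 → ‖z‖ ≤ R := fun z hz => by
    simpa using hR (subset_tsupport _ hz)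
  obtain ⟨M, hM⟩ := hg.bd (R + |s|)
  have hwi : Integrable w := hw.integrable hc
  have hi0 : Integrable (fun p : Sp d × Sp d => ‖w p.1‖ * ψ p.2 * |M|)
      (volume.prod volume) := (hwi.norm.mul_prod h.integrable).mul_const _
  refine hi0.mono' ?_ ?_
  · refine StronglyMeasurable.aestronglyMeasurable ?_
    refine StronglyMeasurable.smul (f := fun p : Sp d × Sp d => w p.1) ?_ ?_
    · exact hw.meas.comp_measurable measurable_fst
    refine StronglyMeasurable.smul (f := fun p : Sp d × Sp d => ψ p.2) ?_ ?_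
    · exact (h.cont.comp continuous_snd).stronglyMeasurable
    · exact hg.meas.comp_measurable
        (show Measurable fun p : Sp d × Sp d => p.1 + s • p.2 by fun_prop)
  · refine Filter.Eventually.of_forall fun p => ?_
    obtain ⟨x, y⟩ := p
    simp only [Function.uncurry_apply_pair]
    rw [norm_smul, norm_smul, Real.norm_eq_abs (ψ y), abs_of_nonneg (h.nonneg y)]
    by_cases hy : 1 ≤ ‖y‖
    · simp [h.supp y hy]
    by_cases hx : w x = 0
    · simp [hx]
    push Not at hy
    have hb : ‖s • y‖ ≤ |s| := by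
      rw [norm_smul, Real.norm_eq_abs]
      nlinarith [abs_nonneg s, norm_nonneg y]
    have h1 : ‖g (x + s • y)‖ ≤ |M| := by
      refine (hM _ ?_).trans (le_abs_self M)
      exact (norm_add_le _ _).trans (add_le_add (hR' x hx) hb)
    calc ‖w x‖ * (ψ y * ‖g (x + s • y)‖) ≤ ‖w x‖ * (ψ y * |M|) :=
          mul_le_mul_of_nonneg_left (mul_le_mul_of_nonneg_left h1 (h.nonneg y))
            (norm_nonneg _)
      _ = ‖w x‖ * ψ y * |M| := by ring

include h in
lemma prod_integrable_right {w : Sp d → ℝ} {g : Sp d → F} (hw : LB w) (hc : HasCompactSupport w)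
    (hg : LB g) (s : ℝ) :
    Integrable (Function.uncurry fun (x y : Sp d) => (ψ y • w (x + s • y)) • g x)
      (volume.prod volume) := by
  obtain ⟨R, hR⟩ := hc.isCompact.isBounded.subset_closedBall (0 : Sp d)
  have hR' : ∀ z, w z ≠ 0 → ‖z‖ ≤ R := fun z hz => by
    simpa using hR (subset_tsupport _ hz)
  obtain ⟨M, hM⟩ := hg.bd (R + |s|)
  obtain ⟨N, hN⟩ := hw.bd R
  have hb : ∀ (y : Sp d), ‖y‖ < 1 → ‖s • y‖ ≤ |s| := by
    intro y hy
    rw [norm_smul, Real.norm_eq_abs]
    nlinarith [abs_nonneg s, norm_nonneg y]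
  have hi1 : Integrable ((closedBall (0 : Sp d) (R + |s|)).indicator fun _ => |N| * |M|) := by
    refine (integrable_indicator_iff measurableSet_closedBall).mpr ?_
    exact integrableOn_const (hs := (isCompact_closedBall _ _).measure_lt_top.ne)
  have hi0 : Integrable (fun p : Sp d × Sp d =>
      (closedBall (0 : Sp d) (R + |s|)).indicator (fun _ => |N| * |M|) p.1 * ψ p.2)
      (volume.prod volume) := hi1.mul_prod h.integrable
  refine hi0.mono' ?_ ?_
  · refine StronglyMeasurable.aestronglyMeasurable ?_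
    refine StronglyMeasurable.smul (f := fun p : Sp d × Sp d => ψ p.2 • w (p.1 + s • p.2))
      ?_ ?_
    · refine StronglyMeasurable.smul (f := fun p : Sp d × Sp d => ψ p.2) ?_ ?_
      · exact (h.cont.comp continuous_snd).stronglyMeasurable
      · exact hw.meas.comp_measurable
          (show Measurable fun p : Sp d × Sp d => p.1 + s • p.2 by fun_prop)
    · exact hg.meas.comp_measurable measurable_fst
  · refine Filter.Eventually.of_forall fun p => ?_
    obtain ⟨x, y⟩ := p
    simp only [Function.uncurry_apply_pair]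
    rw [norm_smul, norm_smul, Real.norm_eq_abs (ψ y), abs_of_nonneg (h.nonneg y)]
    by_cases hy : 1 ≤ ‖y‖
    · simp [h.supp y hy]
    by_cases hx : w (x + s • y) = 0
    · rw [hx]
      simp only [norm_zero, mul_zero, zero_mul]
      exact mul_nonneg (Set.indicator_nonneg (fun _ _ => by positivity) _) (h.nonneg y)
    push Not at hy
    have hx1 : ‖x‖ ≤ R + |s| := by
      have h3 : ‖x‖ ≤ ‖x + s • y‖ + ‖s • y‖ := by
        have := norm_sub_le (x + s • y) (s • y)
        rwa [add_sub_cancel_right] at this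
      exact h3.trans (add_le_add (hR' _ hx) (hb y hy))
    rw [Set.indicator_of_mem (by rw [mem_closedBall, dist_zero_right]; exact hx1)]
    have h1 : ‖g x‖ ≤ |M| := (hM _ hx1).trans (le_abs_self M)
    have h2 : ‖w (x + s • y)‖ ≤ |N| := (hN _ (hR' _ hx)).trans (le_abs_self N)
    have h3 : ‖w (x + s • y)‖ * ‖g x‖ ≤ |N| * |M| :=
      mul_le_mul h2 h1 (norm_nonneg _) (abs_nonneg _)
    calc ψ y * ‖w (x + s • y)‖ * ‖g x‖ = ψ y * (‖w (x + s • y)‖ * ‖g x‖) := by ring
      _ ≤ ψ y * (|N| * |M|) := mul_le_mul_of_nonneg_left h3 (h.nonneg y)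
      _ = _ := by ring

include h in
/-- averages with an even kernel are self adjoint -/
lemma avk_adj (he : ∀ x, ψ (-x) = ψ x) {w : Sp d → ℝ} {g : Sp d → F} (hw : LB w)
    (hc : HasCompactSupport w) (hg : LB g) (s : ℝ) :
    ∫ x, w x • avk ψ s g x = ∫ x, avk ψ s w x • g x := by
  by_cases hF : CompleteSpace F
  swap
  · simp only [integral, hF, dite_false]
  have hI1 := h.prod_integrable_left hw hc hg s
  have hI2 := h.prod_integrable_right hw hc hg s
  have e1 : ∀ x, w x • avk ψ s g x = ∫ y, w x • ψ y • g (x + s • y) := by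
    intro x
    unfold avk
    rw [integral_smul]
  have e2 : ∀ x, avk ψ s w x • g x = ∫ y, (ψ y • w (x + s • y)) • g x := by
    intro x
    unfold avk
    rw [integral_smul_const]
  simp only [e1, e2]
  rw [integral_integral_swap hI1, integral_integral_swap hI2]
  have e3 : ∀ y : Sp d, ∫ x, w x • ψ y • g (x + s • y) =
      ∫ x, (ψ (-y) • w (x + s • (-y))) • g x := by
    intro y
    rw [← integral_add_right_eq_self (μ := volume) (fun x => w x • ψ y • g (x + s • y))
      (-(s • y))]
    congr 1
    ext x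
    rw [he, smul_neg, neg_add_cancel_right, smul_assoc, smul_comm]
  simp only [e3]
  exact integral_neg_eq_self (fun y : Sp d => ∫ x, (ψ y • w (x + s • y)) • g x) volume

include h in
/-- scalar version, the weight on the right and the function with compact support -/
lemma avk_adj' (he : ∀ x, ψ (-x) = ψ x) {w g : Sp d → ℝ} (hw : LB w)
    (hg : LB g) (hc : HasCompactSupport g) (s : ℝ) :
    ∫ x, w x * avk ψ s g x = ∫ x, avk ψ s w x * g x := by
  have := h.avk_adj he hg hc hw s
  simp only [smul_eq_mul] at this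
  calc ∫ x, w x * avk ψ s g x = ∫ x, avk ψ s g x * w x := by
        congr 1; ext x; ring
    _ = ∫ x, g x * avk ψ s w x := this.symm
    _ = _ := by congr 1; ext x; ring

/-! ## support of averages -/

/-- where an average is nonzero; ρ is the radius of the support of the kernel -/
lemma exists_of_avk_ne {ρ : ℝ} (hρ : ∀ x, ρ ≤ ‖x‖ → ψ x = 0) {g : Sp d → F} {s : ℝ}
    (hs : 0 < s) {x : Sp d} (hx : avk ψ s g x ≠ 0) : ∃ z, g z ≠ 0 ∧ ‖z - x‖ < ρ * s := by
  by_contra hcon
  push Not at hcon
  apply hx
  unfold avk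
  refine integral_eq_zero_of_ae (Eventually.of_forall fun y => ?_)
  change ψ y • g (x + s • y) = 0
  by_cases hy : ρ ≤ ‖y‖
  · rw [hρ y hy, zero_smul]
  · push Not at hy
    by_cases hg : g (x + s • y) = 0
    · rw [hg, smul_zero]
    · have h1 := hcon _ hg
      rw [add_sub_cancel_left, norm_smul, Real.norm_of_nonneg hs.le] at h1
      nlinarith

/-! ## set inequalities -/

lemma indicator_one_LB {E : Set (Sp d)} (hE : MeasurableSet E) :
    LB (E.indicator fun _ => (1 : ℝ)) :=
  (LB.of_cont continuous_const).indicator hE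

lemma indicator_one_cs {E : Set (Sp d)} (hb : Bornology.IsBounded E) :
    HasCompactSupport (E.indicator fun _ => (1 : ℝ)) := by
  obtain ⟨R, hR⟩ := hb.subset_closedBall (0 : Sp d)
  refine HasCompactSupport.intro (isCompact_closedBall (0 : Sp d) R) fun x hx => ?_
  exact Set.indicator_of_notMem (fun h => hx (hR h)) _

include h in
lemma avk_indicator_nonneg (E : Set (Sp d)) (s : ℝ) (x : Sp d) :
    0 ≤ avk ψ s (E.indicator fun _ => (1 : ℝ)) x :=
  h.avk_nonneg (fun _ => Set.indicator_nonneg (fun _ _ => zero_le_one) _) s x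

include h in
lemma avk_const [CompleteSpace F] (c : F) (s : ℝ) (x : Sp d) : avk ψ s (fun _ => c) x = c := by
  unfold avk
  rw [integral_smul_const, h.int, one_smul]

include h in
lemma avk_mono' {g g' : Sp d → ℝ} (hg : LB g) (hg' : LB g') (hgg : ∀ z, g z ≤ g' z)
    (s : ℝ) (x : Sp d) : avk ψ s g x ≤ avk ψ s g' x := by
  unfold avk
  refine integral_mono (h.integrand_integrable' hg s x) (h.integrand_integrable' hg' s x) ?_
  intro y
  exact smul_le_smul_of_nonneg_left (hgg _) (h.nonneg y)

include h in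
lemma avk_le_of_le {g : Sp d → ℝ} (hg : LB g) {N : ℝ} (hN : ∀ z, g z ≤ N) (s : ℝ) (x : Sp d) :
    avk ψ s g x ≤ N :=
  (h.avk_mono' hg (LB.of_cont continuous_const) hN s x).trans_eq (h.avk_const N s x)

include h in
lemma avk_indicator_le_one {E : Set (Sp d)} (hE : MeasurableSet E) (s : ℝ) (x : Sp d) :
    avk ψ s (E.indicator fun _ => (1 : ℝ)) x ≤ 1 :=
  h.avk_le_of_le (indicator_one_LB hE)
    (fun _ => Set.indicator_le' (fun _ _ => le_rfl) (fun _ _ => zero_le_one) _) s x

include h in
/-- the average of an indicator is one deep inside -/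
lemma avk_indicator_eq_one {ρ : ℝ} (hρ : ∀ x, ρ ≤ ‖x‖ → ψ x = 0) {E : Set (Sp d)} {s : ℝ}
    (hs : 0 < s) {x : Sp d} (hx : ∀ z, ‖z - x‖ < ρ * s → z ∈ E) :
    avk ψ s (E.indicator fun _ => (1 : ℝ)) x = 1 := by
  have h1 : avk ψ s (E.indicator fun _ => (1 : ℝ)) x = avk ψ s (fun _ => (1 : ℝ)) x := by
    unfold avk
    congr 1
    ext y
    by_cases hy : ρ ≤ ‖y‖
    · rw [hρ y hy, zero_smul, zero_smul]
    · push Not at hy
      rw [Set.indicator_of_mem]
      apply hx
      rw [add_sub_cancel_left, norm_smul, Real.norm_of_nonneg hs.le]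
      nlinarith
  rw [h1, h.avk_const]

include h in
lemma avk_LB {g : Sp d → F} (hg : LB g) (s : ℝ) : LB (avk ψ s g) := by
  refine ⟨?_, ?_⟩
  · refine StronglyMeasurable.integral_prod_right
      (f := fun (x y : Sp d) => ψ y • g (x + s • y)) ?_
    refine StronglyMeasurable.smul (f := fun p : Sp d × Sp d => ψ p.2) ?_ ?_
    · exact (h.cont.comp continuous_snd).stronglyMeasurable
    · exact hg.meas.comp_measurable
        (show Measurable fun p : Sp d × Sp d => p.1 + s • p.2 by fun_prop)
  · intro R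
    obtain ⟨M, hM⟩ := hg.bd (R + |s|)
    refine ⟨|M|, fun x hx => ?_⟩
    refine (h.norm_avk_le g s x).trans ?_
    have h1 : avk ψ s (fun z => ‖g z‖) x ≤ avk ψ s (fun _ => |M|) x := by
      unfold avk
      refine integral_mono (h.integrand_integrable' hg.norm s x)
        (h.integrand_integrable' (LB.of_cont continuous_const) s x) fun y => ?_
      change ψ y • ‖g (x + s • y)‖ ≤ ψ y • |M|
      by_cases hy : 1 ≤ ‖y‖
      · rw [h.supp y hy, zero_smul, zero_smul]
      · push Not at hy
        refine smul_le_smul_of_nonneg_left ((hM _ ?_).trans (le_abs_self M)) (h.nonneg y)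
        refine (norm_add_le _ _).trans (add_le_add hx ?_)
        rw [norm_smul, Real.norm_eq_abs]
        nlinarith [abs_nonneg s, norm_nonneg y]
    rwa [h.avk_const] at h1

include h in
/-- the integral over E is at most the integral of the average over E', if E' contains the
(ρ s)-neighbourhood of E -/
lemma setInt_le_avk (he : ∀ x, ψ (-x) = ψ x) {ρ : ℝ} (hρ : ∀ x, ρ ≤ ‖x‖ → ψ x = 0)
    {g : Sp d → ℝ} (hg : LB g) (hc : HasCompactSupport g) (h0 : ∀ z, 0 ≤ g z)
    {s : ℝ} (hs : 0 < s) {E E' : Set (Sp d)} (hE : MeasurableSet E) (hE' : MeasurableSet E')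
    (hEE : ∀ x ∈ E, ∀ z, ‖z - x‖ < ρ * s → z ∈ E') :
    ∫ x in E, g x ≤ ∫ x in E', avk ψ s g x := by
  rw [← integral_indicator hE, ← integral_indicator hE']
  have e1 : ∀ x, E'.indicator (fun x => avk ψ s g x) x =
      (E'.indicator fun _ => (1 : ℝ)) x * avk ψ s g x := by
    intro x
    by_cases hx : x ∈ E' <;> simp [hx]
  simp only [e1]
  rw [h.avk_adj' he (indicator_one_LB hE') hg hc s]
  have hgi : Integrable g := hg.integrable hc
  refine integral_mono (hgi.indicator hE) ?_ ?_
  · have hm : AEStronglyMeasurable (avk ψ s (E'.indicator fun _ => (1 : ℝ))) volume :=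
      (h.avk_LB (indicator_one_LB hE') s).meas.aestronglyMeasurable
    refine hgi.bdd_mul (c := 1) hm (Eventually.of_forall fun x => ?_)
    rw [Real.norm_of_nonneg (h.avk_indicator_nonneg E' s x)]
    exact h.avk_indicator_le_one hE' s x
  · intro x
    change E.indicator g x ≤ avk ψ s (E'.indicator fun _ => (1 : ℝ)) x * g x
    by_cases hx : x ∈ E
    · rw [Set.indicator_of_mem hx, h.avk_indicator_eq_one hρ hs (hEE x hx), one_mul]
    · rw [Set.indicator_of_notMem hx]
      exact mul_nonneg (h.avk_indicator_nonneg E' s x) (h0 x)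

include h in
/-- the integral of the average over E' is at most the integral over E, if E contains the
(ρ s)-neighbourhood of E' -/
lemma setInt_avk_le (he : ∀ x, ψ (-x) = ψ x) {ρ : ℝ} (hρ : ∀ x, ρ ≤ ‖x‖ → ψ x = 0)
    {g : Sp d → ℝ} (hg : LB g) (hc : HasCompactSupport g) (h0 : ∀ z, 0 ≤ g z)
    {s : ℝ} (hs : 0 < s) {E E' : Set (Sp d)} (hE : MeasurableSet E) (hE' : MeasurableSet E')
    (hEE : ∀ x ∈ E', ∀ z, ‖z - x‖ < ρ * s → z ∈ E) :
    ∫ x in E', avk ψ s g x ≤ ∫ x in E, g x := by
  rw [← integral_indicator hE, ← integral_indicator hE']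
  have e1 : ∀ x, E'.indicator (fun x => avk ψ s g x) x =
      (E'.indicator fun _ => (1 : ℝ)) x * avk ψ s g x := by
    intro x
    by_cases hx : x ∈ E' <;> simp [hx]
  simp only [e1]
  rw [h.avk_adj' he (indicator_one_LB hE') hg hc s]
  have hgi : Integrable g := hg.integrable hc
  refine integral_mono_of_nonneg ?_ (hgi.indicator hE) ?_
  · exact Eventually.of_forall fun x => mul_nonneg (h.avk_indicator_nonneg E' s x) (h0 x)
  · refine Eventually.of_forall fun x => ?_
    change avk ψ s (E'.indicator fun _ => (1 : ℝ)) x * g x ≤ E.indicator g x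
    by_cases hx : x ∈ E
    · rw [Set.indicator_of_mem hx]
      have h1 := h.avk_indicator_le_one hE' s x
      have h2 := h0 x
      nlinarith
    · rw [Set.indicator_of_notMem hx]
      have h1 : avk ψ s (E'.indicator fun _ => (1 : ℝ)) x = 0 := by
        by_contra hne
        obtain ⟨z, hz, hzx⟩ := exists_of_avk_ne (ψ := ψ) hρ hs hne
        apply hx
        refine hEE z ?_ x ?_
        · by_contra hz'
          exact hz (Set.indicator_of_notMem hz' _)
        · rwa [← norm_neg, neg_sub]
      rw [h1, zero_mul]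

/-! ## derivatives -/

include h in
lemma hasFDerivAt_avk {g : Sp d → F} (hg : ContDiff ℝ 1 g) (s : ℝ) (x : Sp d) :
    HasFDerivAt (avk ψ s g) (avk ψ s (fderiv ℝ g) x) x := by
  have hcf : Continuous (fderiv ℝ g) := hg.continuous_fderiv one_ne_zero
  obtain ⟨M, hM⟩ := (isCompact_closedBall (0 : Sp d) (‖x‖ + 1 + |s|)).exists_bound_of_continuousOn
    hcf.continuousOn
  refine hasFDerivAt_integral_of_dominated_of_fderiv_le (s := ball x 1)
    (F := fun z y => ψ y • g (z + s • y)) (F' := fun z y => ψ y • fderiv ℝ g (z + s • y))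
    (bound := fun y => ψ y * |M|) (ball_mem_nhds x one_pos) ?_
    (h.integrand_integrable hg.continuous s x) ?_ ?_ ?_ ?_
  · exact Eventually.of_forall fun z =>
      (h.integrand_integrable hg.continuous s z).aestronglyMeasurable
  · exact (h.cont.smul (hcf.comp (by fun_prop))).aestronglyMeasurable
  · refine Eventually.of_forall fun y z hz => ?_
    rw [norm_smul, Real.norm_of_nonneg (h.nonneg y)]
    by_cases hy : 1 ≤ ‖y‖
    · rw [h.supp y hy, zero_mul, zero_mul]
    · push Not at hy
      refine mul_le_mul_of_nonneg_left ((hM _ ?_).trans (le_abs_self M)) (h.nonneg y)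
      rw [mem_closedBall, dist_zero_right]
      rw [mem_ball, dist_eq_norm] at hz
      have h1 : ‖z‖ ≤ ‖x‖ + ‖z - x‖ := by
        have := norm_add_le x (z - x)
        rwa [add_sub_cancel] at this
      have h2 : ‖s • y‖ ≤ |s| := by
        rw [norm_smul, Real.norm_eq_abs]
        nlinarith [abs_nonneg s, norm_nonneg y]
      have h3 := norm_add_le z (s • y)
      linarith
  · exact h.integrable.mul_const _
  · refine Eventually.of_forall fun y z _ => ?_
    have h1 : HasFDerivAt g (fderiv ℝ g (z + s • y)) (z + s • y) :=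
      (hg.differentiable one_ne_zero _).hasFDerivAt
    have h2 : HasFDerivAt (fun z => g (z + s • y)) (fderiv ℝ g (z + s • y)) z :=
      (hasFDerivAt_comp_add_right (s • y)).mpr h1
    exact h2.const_smul (ψ y)

include h in
lemma fderiv_avk {g : Sp d → F} (hg : ContDiff ℝ 1 g) (s : ℝ) :
    fderiv ℝ (avk ψ s g) = avk ψ s (fderiv ℝ g) :=
  funext fun x => (h.hasFDerivAt_avk hg s x).fderiv

include h in
/-- continuous linear maps commute with averages -/
lemma avk_clm [CompleteSpace F] {G : Type*} [NormedAddCommGroup G] [NormedSpace ℝ G]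
    [CompleteSpace G] (L : F →L[ℝ] G) {g : Sp d → F} (hg : Continuous g) (s : ℝ) (x : Sp d) :
    avk ψ s (fun z => L (g z)) x = L (avk ψ s g x) := by
  unfold avk
  rw [← L.integral_comp_comm (h.integrand_integrable hg s x)]
  simp only [map_smul]

include h in
lemma iteratedFDeriv_avk_nat [CompleteSpace F] (n : ℕ) {g : Sp d → F} (hg : ContDiff ℝ n g)
    (s : ℝ) : ContDiff ℝ n (avk ψ s g) ∧
      ∀ j ≤ n, iteratedFDeriv ℝ j (avk ψ s g) = avk ψ s (iteratedFDeriv ℝ j g) := by
  have key : ∀ j ≤ n, iteratedFDeriv ℝ j (avk ψ s g) = avk ψ s (iteratedFDeriv ℝ j g) := by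
    intro j
    induction j with
    | zero =>
      intro _
      funext x
      rw [iteratedFDeriv_zero_eq_comp, iteratedFDeriv_zero_eq_comp]
      have := h.avk_clm
        (continuousMultilinearCurryFin0 ℝ (Sp d) F).symm.toContinuousLinearEquiv.toContinuousLinearMap
        hg.continuous s x
      exact this.symm
    | succ j ih =>
      intro hj
      have h1 := ih (by omega)
      have hcj : ContDiff ℝ 1 (iteratedFDeriv ℝ j g) :=
        hg.iteratedFDeriv_right (by exact_mod_cast (by omega : 1 + j ≤ n))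
      funext x
      rw [iteratedFDeriv_succ_eq_comp_left, iteratedFDeriv_succ_eq_comp_left, h1,
        Function.comp_apply, h.fderiv_avk hcj]
      have := h.avk_clm
        (continuousMultilinearCurryLeftEquiv ℝ (fun _ : Fin (j + 1) => Sp d)
          F).symm.toContinuousLinearEquiv.toContinuousLinearMap
        (hcj.continuous_fderiv one_ne_zero) s x
      exact this.symm
  refine ⟨?_, key⟩
  refine contDiff_nat_iff_continuous_differentiable.mpr ⟨fun j hj => ?_, fun j hj => ?_⟩
  · rw [key j hj]
    exact h.avk_cont (hg.continuous_iteratedFDeriv (by exact_mod_cast hj)) s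
  · rw [key j hj.le]
    have hcj : ContDiff ℝ 1 (iteratedFDeriv ℝ j g) :=
      hg.iteratedFDeriv_right (by exact_mod_cast (by omega : 1 + j ≤ n))
    exact fun x => (h.hasFDerivAt_avk hcj s x).differentiableAt

include h in
/-- averages of C^n functions are C^n -/
lemma avk_contDiff [CompleteSpace F] {n : ℕ} {g : Sp d → F} (hg : ContDiff ℝ n g) (s : ℝ) :
    ContDiff ℝ n (avk ψ s g) := (h.iteratedFDeriv_avk_nat n hg s).1

include h in
/-- derivatives of averages are averages of derivatives -/
lemma iteratedFDeriv_avk [CompleteSpace F] {n : ℕ} {g : Sp d → F} (hg : ContDiff ℝ n g)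
    (s : ℝ) {j : ℕ} (hj : j ≤ n) (x : Sp d) :
    iteratedFDeriv ℝ j (avk ψ s g) x = avk ψ s (iteratedFDeriv ℝ j g) x := by
  rw [(h.iteratedFDeriv_avk_nat n hg s).2 j hj]

include h in
/-- averages do not increase bounds of derivatives -/
lemma norm_iteratedFDeriv_avk_le [CompleteSpace F] {n : ℕ} {g : Sp d → F} (hg : ContDiff ℝ n g)
    (s : ℝ) {j : ℕ} (hj : j ≤ n) {N : ℝ} (hN : ∀ x, ‖iteratedFDeriv ℝ j g x‖ ≤ N) (x : Sp d) :
    ‖iteratedFDeriv ℝ j (avk ψ s g) x‖ ≤ N := by
  rw [h.iteratedFDeriv_avk hg s hj]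
  refine (h.norm_avk_le _ s x).trans ?_
  refine h.avk_le_of_le ?_ hN s x
  exact (LB.of_cont (hg.continuous_iteratedFDeriv (by exact_mod_cast hj))).norm

/-! ## second order error -/

/-- a C² function with bounded second derivative has Lipschitz derivative -/
lemma _root_.TG.fderiv_lip {g : Sp d → F} (hg : ContDiff ℝ 2 g) {N : ℝ}
    (hN : ∀ y, ‖iteratedFDeriv ℝ 2 g y‖ ≤ N) (x y : Sp d) :
    ‖fderiv ℝ g y - fderiv ℝ g x‖ ≤ N * ‖y - x‖ := by
  have h1 : ContDiff ℝ 1 (fderiv ℝ g) := hg.fderiv_right (by norm_num)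
  refine Convex.norm_image_sub_le_of_norm_fderiv_le (𝕜 := ℝ) (s := univ) (f := fderiv ℝ g)
    (fun z _ => h1.differentiable one_ne_zero z) (fun z _ => ?_) convex_univ (mem_univ x)
    (mem_univ y)
  have h2 := hN z
  rwa [← norm_iteratedFDeriv_fderiv, norm_iteratedFDeriv_one] at h2

/-- linear terms average to zero -/
lemma avk_linear (he : ∀ x, ψ (-x) = ψ x) (L : Sp d →L[ℝ] F) (s : ℝ) :
    ∫ y, ψ y • L (s • y) = 0 := by
  have h1 : ∫ y, ψ y • L (s • y) = -∫ y, ψ y • L (s • y) := by
    rw [← integral_neg]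
    rw [← integral_neg_eq_self (fun y : Sp d => ψ y • L (s • y)) volume]
    congr 1
    ext y
    rw [he, smul_neg, map_neg, smul_neg]
  have h2 : (2 : ℝ) • ∫ y, ψ y • L (s • y) = 0 := by
    rw [two_smul]
    nth_rewrite 1 [h1]
    exact neg_add_cancel _
  exact (smul_eq_zero.mp h2).resolve_left (by norm_num)

include h in
/-- second order error of averages with even kernels -/
lemma avk_sub_self_le [CompleteSpace F] (he : ∀ x, ψ (-x) = ψ x) {g : Sp d → F}
    (hg : ContDiff ℝ 2 g) {N : ℝ} (hN0 : 0 ≤ N) (hN : ∀ y, ‖iteratedFDeriv ℝ 2 g y‖ ≤ N) (s : ℝ)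
    (x : Sp d) : ‖avk ψ s g x - g x‖ ≤ N * s ^ 2 := by
  have hi1 := h.integrand_integrable hg.continuous s x
  have hi2 : Integrable fun y : Sp d => ψ y • g x := h.integrable.smul_const _
  have hi3 : Integrable fun y : Sp d => ψ y • (fderiv ℝ g x) (s • y) := by
    apply Continuous.integrable_of_hasCompactSupport
    · exact h.cont.smul ((fderiv ℝ g x).continuous.comp (by fun_prop))
    · exact h.cs.smul_right
  have e1 : avk ψ s g x - g x =
      ∫ y, ψ y • (g (x + s • y) - g x - (fderiv ℝ g x) (s • y)) := by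
    have h1 : ∫ y, ψ y • (g (x + s • y) - g x - (fderiv ℝ g x) (s • y)) =
        (∫ y, ψ y • g (x + s • y)) - (∫ y, ψ y • g x) -
          ∫ y, ψ y • (fderiv ℝ g x) (s • y) := by
      have h5 : Integrable fun y : Sp d => ψ y • g (x + s • y) - ψ y • g x := hi1.sub hi2
      rw [← integral_sub hi1 hi2, ← integral_sub h5 hi3]
      congr 1
      ext y
      simp only [smul_sub]
    rw [h1, avk_linear he, sub_zero, integral_smul_const, h.int, one_smul]
    rfl
  rw [e1]
  have h2 : ∀ y, ‖ψ y • (g (x + s • y) - g x - (fderiv ℝ g x) (s • y))‖ ≤ ψ y * (N * s ^ 2) := by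
    intro y
    rw [norm_smul, Real.norm_of_nonneg (h.nonneg y)]
    by_cases hy : 1 ≤ ‖y‖
    · rw [h.supp y hy, zero_mul, zero_mul]
    · push Not at hy
      refine mul_le_mul_of_nonneg_left ?_ (h.nonneg y)
      have hsy : ‖s • y‖ ≤ |s| := by
        rw [norm_smul, Real.norm_eq_abs]
        nlinarith [abs_nonneg s, norm_nonneg y]
      have h3 := Convex.norm_image_sub_le_of_norm_fderiv_le' (𝕜 := ℝ)
        (s := closedBall x |s|) (f := g) (φ := fderiv ℝ g x) (x := x) (y := x + s • y)
        (C := N * |s|)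
        (fun z _ => (hg.differentiable (by norm_num)) z) (fun z hz => ?_)
        (convex_closedBall _ _) (mem_closedBall_self (abs_nonneg s)) ?_
      · rw [add_sub_cancel_left] at h3
        refine h3.trans ?_
        calc N * |s| * ‖s • y‖ ≤ N * |s| * |s| :=
              mul_le_mul_of_nonneg_left hsy (mul_nonneg hN0 (abs_nonneg s))
          _ = N * s ^ 2 := by rw [mul_assoc, abs_mul_abs_self]; ring
      · rw [mem_closedBall, dist_eq_norm] at hz
        exact (fderiv_lip hg hN x z).trans (mul_le_mul_of_nonneg_left hz hN0)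
      · rw [mem_closedBall, dist_eq_norm, add_sub_cancel_left]
        exact hsy
  refine (norm_integral_le_integral_norm _).trans ?_
  have h4 : ∫ y, ψ y * (N * s ^ 2) = N * s ^ 2 := by
    rw [integral_mul_const, h.int, one_mul]
  rw [← h4]
  exact integral_mono_of_nonneg (Eventually.of_forall fun y => norm_nonneg _)
    (h.integrable.mul_const _) (Eventually.of_forall h2)

end AK

end

end TG
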