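import Pool.Agent.TG.Stmts2
import Pool.Agent.TG.Par
set_option autoImplicit false

/-!
# Module NN: the compact Newton potential
-/

open MeasureTheory Metric Set TrI Filter
open scoped InnerProductSpace ContDiff Topology

namespace TG

noncomputable section

namespace NN

variable {d : ℕ}

/-! ## the potential as an integral over a compact set -/

/-- the region of integration -/
def SS (d : ℕ) (R : ℝ) : Set (ℝ × Sp d) := Icc 0 R ×ˢ closedBall (0 : Sp d) 1

lemma SS_compact (R : ℝ) : IsCompact (SS d R) := isCompact_Icc.prod (isCompact_closedBall 0 1)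

lemma SS_meas (R : ℝ) : MeasurableSet (SS d R) := (SS_compact R).isClosed.measurableSet

/-- the weight -/
def wt (β : Sp d → ℝ) (p : ℝ × Sp d) : ℝ := p.1 * β p.2

lemma wt_cont {β : Sp d → ℝ} (hβ : Continuous β) : Continuous (wt β) :=
  continuous_fst.mul (hβ.comp continuous_snd)

lemma cont_arg {F : Type*} [TopologicalSpace F] {φ : Sp d → F} (hφ : Continuous φ) (x : Sp d) :
    Continuous (fun p : ℝ × Sp d => φ (x + p.1 • p.2)) := hφ.comp (by fun_prop)

lemma int_SS {F : Type*} [NormedAddCommGroup F] [NormedSpace ℝ F] {β : Sp d → ℝ}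
    (hβ : Continuous β) {φ : Sp d → F} (hφ : Continuous φ) (R : ℝ) (x : Sp d) :
    IntegrableOn (fun p : ℝ × Sp d => wt β p • φ (x + p.1 • p.2)) (SS d R) :=
  ((wt_cont hβ).smul (cont_arg hφ x)).continuousOn.integrableOn_compact (SS_compact R)

lemma NNp_eq {b : Sp d → ℝ} (hβ : Continuous (Bp b)) (hs : ∀ x, 1 ≤ ‖x‖ → Bp b x = 0) {R : ℝ}
    (hR : 0 ≤ R) {φ : Sp d → ℝ} (hφ : Continuous φ) (x : Sp d) :
    NNp b R φ x = ∫ p in SS d R, wt (Bp b) p * φ (x + p.1 • p.2) := by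
  have h1 := int_SS hβ hφ R x
  simp only [smul_eq_mul] at h1
  unfold SS at h1 ⊢
  rw [Measure.volume_eq_prod] at h1 ⊢
  rw [setIntegral_prod _ h1, integral_Icc_eq_integral_Ioc,
    ← intervalIntegral.integral_of_le hR]
  unfold NNp
  refine intervalIntegral.integral_congr (fun s _ => ?_)
  simp only [wt, avk, smul_eq_mul]
  rw [setIntegral_eq_integral_of_forall_compl_eq_zero]
  · rw [← integral_const_mul]
    refine integral_congr_ae (Eventually.of_forall fun y => ?_)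
    simp only []
    ring
  · intro y hy
    rw [mem_closedBall, dist_zero_right, not_le] at hy
    rw [hs y hy.le]
    ring

lemma it_cont {ζ : Sp d → ℝ} (hζ : ContDiff ℝ ∞ ζ) (j : ℕ) : Continuous (iteratedFDeriv ℝ j ζ) :=
  hζ.continuous_iteratedFDeriv (by exact_mod_cast le_top)

lemma iter_shift {ζ : Sp d → ℝ} (hζ : ContDiff ℝ ∞ ζ) (w : ℝ) (z : Sp d) (j : ℕ) (y : Sp d) :
    iteratedFDeriv ℝ j (fun x => w * ζ (x + z)) y = w • iteratedFDeriv ℝ j ζ (y + z) := by
  have h1 : ContDiff ℝ j (fun x => ζ (x + z)) :=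
    (hζ.of_le (by exact_mod_cast le_top)).comp (by fun_prop)
  have h2 : (fun x => w * ζ (x + z)) = w • (fun x => ζ (x + z)) := by
    ext x; simp
  rw [h2, iteratedFDeriv_const_smul_apply h1.contDiffAt, iteratedFDeriv_comp_add_right]

lemma NNp_smooth {b : Sp d → ℝ} (hβ : Continuous (Bp b)) (hs : ∀ x, 1 ≤ ‖x‖ → Bp b x = 0) {R : ℝ}
    (hR : 0 ≤ R) {ζ : Sp d → ℝ} (hζ : ContDiff ℝ ∞ ζ) :
    ContDiff ℝ ∞ (NNp b R ζ) ∧ ∀ (j : ℕ) (y : Sp d), iteratedFDeriv ℝ j (NNp b R ζ) y =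
      ∫ p in SS d R, wt (Bp b) p • iteratedFDeriv ℝ j ζ (y + p.1 • p.2) := by
  have hcj : ∀ j : ℕ, Continuous (iteratedFDeriv ℝ j ζ) := fun j =>
    hζ.continuous_iteratedFDeriv (by exact_mod_cast le_top)
  have e : NNp b R ζ = fun x => ∫ p in SS d R, wt (Bp b) p * ζ (x + p.1 • p.2) :=
    funext fun x => NNp_eq hβ hs hR hζ.continuous x
  have key := Par.par (X := Sp d) (ν := volume.restrict (SS d R))
    (f := fun (p : ℝ × Sp d) x => wt (Bp b) p * ζ (x + p.1 • p.2)) ?_ ?_ ?_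
  · rw [e]
    refine ⟨key.1, fun j y => ?_⟩
    rw [key.2 j y]
    refine integral_congr_ae (Eventually.of_forall fun p => ?_)
    exact iter_shift hζ _ _ j y
  · exact Eventually.of_forall fun p => contDiff_const.mul (hζ.comp (by fun_prop))
  · intro j y
    have h1 : Continuous fun p : ℝ × Sp d => iteratedFDeriv ℝ j
        (fun x => wt (Bp b) p * ζ (x + p.1 • p.2)) y := by
      simp only [iter_shift hζ]
      exact (wt_cont hβ).smul (cont_arg (hcj j) y)
    exact h1.aestronglyMeasurable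
  · intro j y0
    obtain ⟨M, hM⟩ := (isCompact_closedBall y0 (1 + R)).exists_bound_of_continuousOn
      (hcj j).continuousOn
    refine ⟨fun p => |wt (Bp b) p| * M, ?_, ?_⟩
    · exact ((wt_cont hβ).abs.mul continuous_const).continuousOn.integrableOn_compact
        (SS_compact R)
    · refine (ae_restrict_iff' (SS_meas R)).2 (Eventually.of_forall fun p hp y hy => ?_)
      rw [iter_shift hζ, norm_smul, Real.norm_eq_abs]
      refine mul_le_mul_of_nonneg_left (hM _ ?_) (abs_nonneg _)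
      obtain ⟨h1, h2⟩ := hp
      rw [mem_closedBall, dist_zero_right] at h2
      rw [mem_ball, dist_eq_norm] at hy
      rw [mem_closedBall, dist_eq_norm]
      have h3 : y + p.1 • p.2 - y0 = (y - y0) + p.1 • p.2 := by abel
      rw [h3]
      refine (norm_add_le _ _).trans ?_
      have h4 : ‖p.1 • p.2‖ ≤ R := by
        rw [norm_smul, Real.norm_of_nonneg h1.1]
        calc p.1 * ‖p.2‖ ≤ R * 1 := mul_le_mul h1.2 h2 (norm_nonneg _) hR
          _ = R := mul_one R
      linarith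

/-! ## the fundamental theorem of calculus in the scale -/

lemma kernel_cs {ψ : Sp d → ℝ} (hs : ∀ x, 1 ≤ ‖x‖ → ψ x = 0) : HasCompactSupport ψ := by
  refine HasCompactSupport.intro (isCompact_closedBall (0 : Sp d) 1) fun x hx => ?_
  apply hs
  rw [mem_closedBall, dist_zero_right, not_le] at hx
  exact hx.le

lemma avk_deriv {b : Sp d → ℝ} (hb : Continuous b) (hs : ∀ x, 1 ≤ ‖x‖ → b x = 0)
    {ζ : Sp d → ℝ} (hζ : ContDiff ℝ ∞ ζ) (y : Sp d) (s : ℝ) :
    HasDerivAt (fun s => avk b s ζ y) (∫ z, b z * fderiv ℝ ζ (y + s • z) z) s := by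
  have hcf : Continuous (fderiv ℝ ζ) := hζ.continuous_fderiv (by simp)
  obtain ⟨M, hM⟩ := (isCompact_closedBall y (|s| + 1)).exists_bound_of_continuousOn
    hcf.continuousOn
  have hbc := kernel_cs hs
  unfold avk
  simp only [smul_eq_mul]
  refine (hasDerivAt_integral_of_dominated_loc_of_deriv_le (s := ball s 1)
    (F := fun s z => b z * ζ (y + s • z)) (F' := fun s z => b z * fderiv ℝ ζ (y + s • z) z)
    (bound := fun z => |b z| * M) (ball_mem_nhds s one_pos) ?_ ?_ ?_ ?_ ?_ ?_).2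
  · exact Eventually.of_forall fun t =>
      (hb.mul (hζ.continuous.comp (by fun_prop))).aestronglyMeasurable
  · exact (hb.mul (hζ.continuous.comp (by fun_prop))).integrable_of_hasCompactSupport
      hbc.mul_right
  · have h1 : Continuous fun z : Sp d => fderiv ℝ ζ (y + s • z) z :=
      (hcf.comp (by fun_prop : Continuous fun z : Sp d => y + s • z)).clm_apply continuous_id
    exact (hb.mul h1).aestronglyMeasurable
  · refine Eventually.of_forall fun z t ht => ?_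
    rw [norm_mul, Real.norm_eq_abs (b z)]
    by_cases hz : 1 ≤ ‖z‖
    · rw [hs z hz, abs_zero, zero_mul, zero_mul]
    · push Not at hz
      refine mul_le_mul_of_nonneg_left ?_ (abs_nonneg _)
      rw [mem_ball, Real.dist_eq] at ht
      have ht' : |t| ≤ |s| + 1 := by
        have := abs_add_le (t - s) s
        rw [sub_add_cancel] at this
        linarith
      have hmem : y + t • z ∈ closedBall y (|s| + 1) := by
        rw [mem_closedBall, dist_eq_norm, add_sub_cancel_left, norm_smul, Real.norm_eq_abs]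
        nlinarith [abs_nonneg t, norm_nonneg z]
      have h2 := hM _ hmem
      have hM0 : 0 ≤ M := (norm_nonneg _).trans h2
      calc ‖fderiv ℝ ζ (y + t • z) z‖ ≤ ‖fderiv ℝ ζ (y + t • z)‖ * ‖z‖ :=
            ContinuousLinearMap.le_opNorm _ _
        _ ≤ M * 1 := mul_le_mul h2 hz.le (norm_nonneg _) hM0
        _ = M := mul_one M
  · exact (hb.abs.mul continuous_const).integrable_of_hasCompactSupport
      ((hbc.comp_left abs_zero).mul_right)
  · refine Eventually.of_forall fun z t _ => ?_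
    have h1 : HasFDerivAt ζ (fderiv ℝ ζ (y + t • z)) (y + t • z) :=
      (hζ.differentiable (by simp) _).hasFDerivAt
    have h2 : HasDerivAt (fun t : ℝ => y + t • z) z t := by
      have := ((hasDerivAt_id t).smul_const z).const_add y
      simpa using this
    exact (h1.comp_hasDerivAt t h2).const_mul (b z)

lemma coord_sum (z : Sp d) : z = ∑ i : Fin d, z i • (EuclideanSpace.single i (1 : ℝ) : Sp d) := by
  ext j
  simp [Pi.single_apply]

lemma iter2 {ζ : Sp d → ℝ} (hζ : ContDiff ℝ ∞ ζ) (x v w : Sp d) :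
    fderiv ℝ (fun y => fderiv ℝ ζ y w) x v = fderiv ℝ (fderiv ℝ ζ) x v w := by
  have h1 : DifferentiableAt ℝ (fderiv ℝ ζ) x :=
    (hζ.fderiv_right (m := 1) (by norm_cast)).differentiable (by simp) x
  rw [fderiv_clm_apply h1 (differentiableAt_const _)]
  simp

lemma lap_eq {ζ : Sp d → ℝ} (hζ : ContDiff ℝ ∞ ζ) (x : Sp d) :
    lap ζ x = ∑ i : Fin d, fderiv ℝ (fun y => fderiv ℝ ζ y (EuclideanSpace.single i (1 : ℝ))) x
      (EuclideanSpace.single i (1 : ℝ)) := by
  unfold lap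
  refine Finset.sum_congr rfl fun i _ => ?_
  rw [iteratedFDeriv_two_apply, iter2 hζ]

lemma smooth_fd {ζ : Sp d → ℝ} (hζ : ContDiff ℝ ∞ ζ) (v : Sp d) :
    ContDiff ℝ ∞ (fun y => fderiv ℝ ζ y v) :=
  (hζ.fderiv_right (m := ∞) (by norm_cast)).clm_apply contDiff_const

lemma ibp_scale {b : Sp d → ℝ} (hβ : ContDiff ℝ 1 (Bp b)) (hs1 : ∀ x, 1 ≤ ‖x‖ → Bp b x = 0)
    (hg : ∀ x, HasGradientAt (Bp b) (-(b x) • x) x)
    {ζ : Sp d → ℝ} (hζ : ContDiff ℝ ∞ ζ) (y : Sp d) (s : ℝ) :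
    ∫ z, b z * fderiv ℝ ζ (y + s • z) z = s * avk (Bp b) s (lap ζ) y := by
  have hβc := kernel_cs hs1
  set e : Fin d → Sp d := fun i => EuclideanSpace.single i (1 : ℝ) with he
  have hfd : ∀ (z v : Sp d), fderiv ℝ (Bp b) z v = -(b z * ⟪z, v⟫_ℝ) := by
    intro z v
    have h1 := (hg z).hasFDerivAt.fderiv
    rw [h1]
    simp only [InnerProductSpace.toDual_apply_apply]
    rw [inner_smul_left]
    simp
  have hψ : ∀ i, ContDiff ℝ ∞ (fun z => fderiv ℝ ζ (y + s • z) (e i)) := fun i =>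
    (smooth_fd hζ (e i)).comp (by fun_prop : ContDiff ℝ ∞ fun z : Sp d => y + s • z)
  have hfψ : ∀ i z, fderiv ℝ (fun z => fderiv ℝ ζ (y + s • z) (e i)) z (e i) =
      s * fderiv ℝ (fun w => fderiv ℝ ζ w (e i)) (y + s • z) (e i) := by
    intro i z
    have h1 : HasFDerivAt (fun w => fderiv ℝ ζ w (e i))
        (fderiv ℝ (fun w => fderiv ℝ ζ w (e i)) (y + s • z)) (y + s • z) :=
      ((smooth_fd hζ (e i)).differentiable (by simp) _).hasFDerivAt
    have h2 : HasFDerivAt (fun z : Sp d => y + s • z) (s • ContinuousLinearMap.id ℝ (Sp d)) z := by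
      exact ((hasFDerivAt_id z).const_smul s).const_add y
    have h3 := (h1.comp z h2).fderiv
    have h4 : fderiv ℝ (fun z => fderiv ℝ ζ (y + s • z) (e i)) z =
        (fderiv ℝ (fun w => fderiv ℝ ζ w (e i)) (y + s • z)).comp
          (s • ContinuousLinearMap.id ℝ (Sp d)) := h3
    rw [h4]
    simp
  have hint1 : ∀ i, Integrable (fun z => Bp b z * fderiv ℝ (fun z => fderiv ℝ ζ (y + s • z) (e i)) z (e i)) :=
    fun i => (hβ.continuous.mul (smooth_fd (hψ i) (e i)).continuous).integrable_of_hasCompactSupport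
      hβc.mul_right
  have hint2 : ∀ i, Integrable (fun z => fderiv ℝ (Bp b) z (e i) * fderiv ℝ ζ (y + s • z) (e i)) := by
    intro i
    refine Continuous.integrable_of_hasCompactSupport ?_ (HasCompactSupport.mul_right
      (hβc.fderiv_apply ℝ (e i)))
    exact ((hβ.continuous_fderiv (by simp)).clm_apply continuous_const).mul (hψ i).continuous
  have hibp : ∀ i, ∫ z, Bp b z * fderiv ℝ (fun z => fderiv ℝ ζ (y + s • z) (e i)) z (e i) =
      - ∫ z, fderiv ℝ (Bp b) z (e i) * fderiv ℝ ζ (y + s • z) (e i) := by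
    intro i
    refine integral_mul_fderiv_eq_neg_fderiv_mul_of_integrable (hint2 i) (hint1 i) ?_ ?_ ?_
    · exact (hβ.continuous.mul (hψ i).continuous).integrable_of_hasCompactSupport hβc.mul_right
    · exact fun x _ => hβ.differentiable (by simp) x
    · exact fun x _ => (hψ i).differentiable (by simp) x
  have hL : ∀ z, b z * fderiv ℝ ζ (y + s • z) z =
      ∑ i, -(fderiv ℝ (Bp b) z (e i) * fderiv ℝ ζ (y + s • z) (e i)) := by
    intro z
    have h0 := congrArg (fderiv ℝ ζ (y + s • z)) (coord_sum z)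
    rw [map_sum] at h0
    rw [h0, Finset.mul_sum]
    refine Finset.sum_congr rfl fun i _ => ?_
    rw [hfd, map_smul, smul_eq_mul]
    have : ⟪z, e i⟫_ℝ = z i := by
      simp [he, EuclideanSpace.inner_single_right]
    rw [this]
    ring
  have hR : ∀ z, s * (Bp b z * lap ζ (y + s • z)) =
      ∑ i, Bp b z * fderiv ℝ (fun z => fderiv ℝ ζ (y + s • z) (e i)) z (e i) := by
    intro z
    rw [lap_eq hζ, Finset.mul_sum, Finset.mul_sum]
    refine Finset.sum_congr rfl fun i _ => ?_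
    rw [hfψ]
    ring
  unfold avk
  simp only [smul_eq_mul]
  rw [← integral_const_mul]
  simp only [hL, hR]
  have hint2' : ∀ i, Integrable (fun z => -(fderiv ℝ (Bp b) z (e i) *
      fderiv ℝ ζ (y + s • z) (e i))) := fun i => (hint2 i).neg
  rw [integral_finsetSum _ (fun i _ => hint2' i), integral_finsetSum _ (fun i _ => hint1 i)]
  refine Finset.sum_congr rfl fun i _ => ?_
  rw [integral_neg, hibp]

lemma lap_cont {ζ : Sp d → ℝ} (hζ : ContDiff ℝ ∞ ζ) : ContDiff ℝ ∞ (lap ζ) := by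
  have : lap ζ = fun x => ∑ i : Fin d, fderiv ℝ (fun y => fderiv ℝ ζ y (EuclideanSpace.single i (1 : ℝ))) x
      (EuclideanSpace.single i (1 : ℝ)) := funext (lap_eq hζ)
  rw [this]
  exact ContDiff.sum fun i _ => smooth_fd (smooth_fd hζ _) _

lemma ftc {b : Sp d → ℝ} (hb : Continuous b) (hs : ∀ x, 1 ≤ ‖x‖ → b x = 0) (hint : ∫ x, b x = 1)
    (hβ : ContDiff ℝ 1 (Bp b)) (hs1 : ∀ x, 1 ≤ ‖x‖ → Bp b x = 0)
    (hg : ∀ x, HasGradientAt (Bp b) (-(b x) • x) x)
    {ζ : Sp d → ℝ} (hζ : ContDiff ℝ ∞ ζ) (R : ℝ) (y : Sp d) :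
    NNp b R (lap ζ) y = avk b R ζ y - ζ y := by
  have h1 : ∀ s, HasDerivAt (fun s => avk b s ζ y) (s * avk (Bp b) s (lap ζ) y) s := by
    intro s
    rw [← ibp_scale hβ hs1 hg hζ y s]
    exact avk_deriv hb hs hζ y s
  have h2 : Continuous fun s => avk (Bp b) s (lap ζ) y := by
    rw [continuous_iff_continuousAt]
    intro s
    exact (avk_deriv hβ.continuous hs1 (lap_cont hζ) y s).continuousAt
  have h3 : avk b 0 ζ y = ζ y := by
    unfold avk
    simp only [zero_smul, add_zero]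
    rw [integral_smul_const, hint, one_smul]
  unfold NNp
  rw [intervalIntegral.integral_eq_sub_of_hasDerivAt (fun s _ => h1 s)
    ((continuous_id.mul h2).intervalIntegrable _ _)]
  rw [h3]

/-! ## kernels -/

lemma Bp_half {M c0 : ℝ} {b : Sp d → ℝ} (hb : BaseKer 2 M c0 b) (x : Sp d) (hx : 1 / 2 ≤ ‖x‖) :
    Bp b x = 0 := by
  by_cases h1 : 1 ≤ ‖x‖
  · exact (hb.kit 0).supp1 x h1
  · push Not at h1
    unfold Bp
    have h2 : ∀ r ∈ uIcc ‖x‖ 1, r * rad b r = 0 := by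
      intro r hr
      rw [uIcc_of_le h1.le] at hr
      have h3 : b '' sphere 0 r ⊆ {0} := by
        rintro _ ⟨y, hy, rfl⟩
        rw [mem_sphere, dist_zero_right] at hy
        exact hb.supp y (by rw [hy]; linarith [hr.1])
      have h4 : rad b r = 0 := by
        unfold rad
        rcases Set.subset_singleton_iff_eq.1 h3 with h5 | h5
        · rw [h5, Real.sSup_empty]
        · rw [h5, csSup_singleton]
      rw [h4, mul_zero]
    rw [intervalIntegral.integral_congr (g := fun _ => (0 : ℝ)) h2]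
    simp

lemma NNp_supp {M c0 : ℝ} {b : Sp d → ℝ} (hb : BaseKer 2 M c0 b) {R : ℝ} (hR : 0 ≤ R)
    {ζ : Sp d → ℝ} (x : Sp d) (ρ : ℝ) (hζ : ∀ y, ρ ≤ ‖y - x‖ → ζ y = 0) (y : Sp d)
    (hy : ρ + R / 2 ≤ ‖y - x‖) : NNp b R ζ y = 0 := by
  unfold NNp
  have h2 : ∀ s ∈ uIcc 0 R, s * avk (Bp b) s ζ y = 0 := by
    intro s hs
    rw [uIcc_of_le hR] at hs
    have h3 : avk (Bp b) s ζ y = 0 := by
      unfold avk
      refine integral_eq_zero_of_ae (Eventually.of_forall fun z => ?_)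
      simp only [smul_eq_mul, Pi.zero_apply]
      by_cases hz : 1 / 2 ≤ ‖z‖
      · rw [Bp_half hb z hz, zero_mul]
      · push Not at hz
        rw [hζ, mul_zero]
        have h4 : ‖y - x‖ ≤ ‖y + s • z - x‖ + ‖s • z‖ := by
          have := norm_sub_le (y + s • z - x) (s • z)
          rwa [show y + s • z - x - s • z = y - x by abel] at this
        have h5 : ‖s • z‖ ≤ R * (1 / 2) := by
          rw [norm_smul, Real.norm_of_nonneg hs.1]
          exact mul_le_mul hs.2 hz.le (norm_nonneg _) hR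
        linarith
    rw [h3, mul_zero]
  rw [intervalIntegral.integral_congr (g := fun _ => (0 : ℝ)) h2]
  simp

lemma NNp_cs {M c0 : ℝ} {b : Sp d → ℝ} (hb : BaseKer 2 M c0 b) {R : ℝ} (hR : 0 ≤ R)
    {ζ : Sp d → ℝ} (hc : HasCompactSupport ζ) : HasCompactSupport (NNp b R ζ) := by
  obtain ⟨r, hr⟩ := hc.isCompact.isBounded.subset_closedBall 0
  refine HasCompactSupport.intro (isCompact_closedBall (0 : Sp d) (r + 1 + R / 2)) fun y hy => ?_
  refine NNp_supp hb hR 0 (r + 1) ?_ y ?_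
  · intro z hz
    by_contra hne
    have h1 := hr (subset_tsupport _ (Function.mem_support.2 hne))
    rw [mem_closedBall, dist_zero_right] at h1
    rw [sub_zero] at hz
    linarith
  · rw [mem_closedBall, dist_zero_right, not_le] at hy
    rw [sub_zero]
    exact hy.le

lemma Bp_int_le {M c0 : ℝ} {b : Sp d → ℝ} (hb : BaseKer 2 M c0 b) : ∫ x, Bp b x ≤ 1 := by
  have hk := hb.kit 0
  have h1 : Continuous (Bp b) := hk.smooth1.continuous
  have h2 : Continuous b := hb.smooth.continuous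
  have h3 : ∀ x, 1 ≤ ‖x‖ → b x = 0 := fun x hx => hb.supp x (by linarith)
  rw [← hb.int]
  exact integral_mono (h1.integrable_of_hasCompactSupport (kernel_cs hk.supp1))
    (h2.integrable_of_hasCompactSupport (kernel_cs h3)) hk.le1

lemma wt_int_le {M c0 : ℝ} {b : Sp d → ℝ} (hb : BaseKer 2 M c0 b) {R : ℝ} (hR : 0 ≤ R) :
    ∫ p in SS d R, wt (Bp b) p ≤ R ^ 2 := by
  have hk := hb.kit 0
  have h1 := NNp_eq (b := b) hk.smooth1.continuous hk.supp1 hR (φ := fun _ => (1 : ℝ))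
    continuous_const 0
  simp only [mul_one] at h1
  rw [← h1]
  unfold NNp
  have h2 : ∀ s, avk (Bp b) s (fun _ => (1 : ℝ)) 0 = ∫ x, Bp b x := by
    intro s
    unfold avk
    simp
  simp only [h2]
  rw [intervalIntegral.integral_mul_const, integral_id]
  have h3 : 0 ≤ ∫ x, Bp b x := integral_nonneg hk.nonneg1
  have h4 := Bp_int_le hb
  nlinarith [sq_nonneg R]

lemma NNp_norm {M c0 : ℝ} {b : Sp d → ℝ} (hb : BaseKer 2 M c0 b) {R : ℝ} (hR : 0 ≤ R)
    {ζ : Sp d → ℝ} (hζ : ContDiff ℝ ∞ ζ) (j : ℕ) (N : ℝ) (hN : ∀ y, ‖iteratedFDeriv ℝ j ζ y‖ ≤ N)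
    (y : Sp d) : ‖iteratedFDeriv ℝ j (NNp b R ζ) y‖ ≤ R ^ 2 * N := by
  have hk := hb.kit 0
  have hβ : Continuous (Bp b) := hk.smooth1.continuous
  rw [(NNp_smooth hβ hk.supp1 hR hζ).2]
  have hN0 : 0 ≤ N := (norm_nonneg _).trans (hN 0)
  have h1 : ‖∫ p in SS d R, wt (Bp b) p • iteratedFDeriv ℝ j ζ (y + p.1 • p.2)‖ ≤
      ∫ p in SS d R, wt (Bp b) p * N := by
    refine norm_integral_le_of_norm_le ?_ ?_
    · exact ((wt_cont hβ).mul continuous_const).continuousOn.integrableOn_compact (SS_compact R)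
    · refine (ae_restrict_iff' (SS_meas R)).2 (Eventually.of_forall fun p hp => ?_)
      have hw : 0 ≤ wt (Bp b) p := mul_nonneg hp.1.1 (hk.nonneg1 _)
      rw [norm_smul, Real.norm_of_nonneg hw]
      exact mul_le_mul_of_nonneg_left (hN _) hw
  refine h1.trans ?_
  rw [integral_mul_const]
  exact mul_le_mul_of_nonneg_right (wt_int_le hb hR) hN0

lemma NNp_apply {b : Sp d → ℝ} (hβ : Continuous (Bp b)) (hs : ∀ x, 1 ≤ ‖x‖ → Bp b x = 0) {R : ℝ}
    (hR : 0 ≤ R) {ζ : Sp d → ℝ} (hζ : ContDiff ℝ ∞ ζ) (j : ℕ) (y : Sp d) (h : Fin j → Sp d) :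
    iteratedFDeriv ℝ j (NNp b R ζ) y h = NNp b R (fun z => iteratedFDeriv ℝ j ζ z h) y := by
  have hcj : Continuous (iteratedFDeriv ℝ j ζ) :=
    hζ.continuous_iteratedFDeriv (by exact_mod_cast le_top)
  have hcj' : Continuous (fun z => iteratedFDeriv ℝ j ζ z h) :=
    (ContinuousMultilinearMap.apply ℝ (fun _ : Fin j => Sp d) ℝ h).continuous.comp hcj
  rw [(NNp_smooth hβ hs hR hζ).2, NNp_eq hβ hs hR hcj']
  have h1 := (ContinuousMultilinearMap.apply ℝ (fun _ : Fin j => Sp d) ℝ h).integral_comp_comm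
    (int_SS hβ hcj R y)
  simp only [ContinuousMultilinearMap.apply_apply] at h1
  rw [← h1]
  rfl

lemma NNp_sum {b : Sp d → ℝ} (hβ : Continuous (Bp b)) (hs : ∀ x, 1 ≤ ‖x‖ → Bp b x = 0) {R : ℝ}
    (hR : 0 ≤ R) {ι : Type*} (I : Finset ι) {g : ι → Sp d → ℝ} (hg : ∀ i, Continuous (g i))
    (y : Sp d) : NNp b R (fun z => ∑ i ∈ I, g i z) y = ∑ i ∈ I, NNp b R (g i) y := by
  rw [NNp_eq hβ hs hR (continuous_finsetSum _ fun i _ => hg i)]
  simp only [NNp_eq hβ hs hR (hg _), Finset.mul_sum]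
  rw [integral_finsetSum _ (fun i _ => ?_)]
  have := int_SS hβ (hg i) R y
  simp only [smul_eq_mul] at this
  exact this

lemma NNp_lap {b : Sp d → ℝ} (hβ : Continuous (Bp b)) (hs : ∀ x, 1 ≤ ‖x‖ → Bp b x = 0) {R : ℝ}
    (hR : 0 ≤ R) {ζ : Sp d → ℝ} (hζ : ContDiff ℝ ∞ ζ) (y : Sp d) :
    lap (NNp b R ζ) y = NNp b R (lap ζ) y := by
  have hc : ∀ i : Fin d, Continuous (fun z => iteratedFDeriv ℝ 2 ζ z
      (fun _ => (EuclideanSpace.single i (1 : ℝ) : Sp d))) := by
    intro i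
    exact (ContinuousMultilinearMap.apply ℝ (fun _ : Fin 2 => Sp d) ℝ
      (fun _ => (EuclideanSpace.single i (1 : ℝ) : Sp d))).continuous.comp (it_cont hζ 2)
  have h1 : lap ζ = fun z => ∑ i : Fin d, iteratedFDeriv ℝ 2 ζ z
      (fun _ => (EuclideanSpace.single i (1 : ℝ) : Sp d)) := rfl
  rw [h1, NNp_sum hβ hs hR _ hc]
  unfold lap
  refine Finset.sum_congr rfl fun i _ => ?_
  rw [NNp_apply hβ hs hR hζ]

/-! ## plane integrals -/

/-- ridge functions -/
lemma lap_ridge (ν : Sp d) (hν : ‖ν‖ = 1) {Φ Φ1 Φ2 : ℝ → ℝ} (h0 : ∀ c, HasDerivAt Φ (Φ1 c) c)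
    (h1 : ∀ c, HasDerivAt Φ1 (Φ2 c) c) (x : Sp d) :
    lap (fun y => Φ ⟪ν, y⟫_ℝ) x = Φ2 ⟪ν, x⟫_ℝ := by
  have hd : ∀ {Ψ : ℝ → ℝ} {Ψ1 : ℝ → ℝ}, (∀ c, HasDerivAt Ψ (Ψ1 c) c) → ∀ y : Sp d,
      HasFDerivAt (fun y => Ψ ⟪ν, y⟫_ℝ) (Ψ1 ⟪ν, y⟫_ℝ • innerSL ℝ ν) y := by
    intro Ψ Ψ1 h y
    have e : HasFDerivAt (fun y : Sp d => ⟪ν, y⟫_ℝ) (innerSL ℝ ν) y :=
      (innerSL ℝ ν).hasFDerivAt
    exact (h _).comp_hasFDerivAt y e
  have hf : fderiv ℝ (fun y => Φ ⟪ν, y⟫_ℝ) = fun y => Φ1 ⟪ν, y⟫_ℝ • innerSL ℝ ν :=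
    funext fun y => (hd h0 y).fderiv
  have hf2 : fderiv ℝ (fderiv ℝ (fun y => Φ ⟪ν, y⟫_ℝ)) x =
      (Φ2 ⟪ν, x⟫_ℝ • innerSL ℝ ν).smulRight (innerSL ℝ ν) := by
    rw [hf]
    exact ((hd h1 x).smul_const (innerSL ℝ ν)).fderiv
  unfold lap
  simp only [iteratedFDeriv_two_apply, hf2]
  simp only [ContinuousLinearMap.smulRight_apply, _root_.smul_apply, smul_eq_mul,
    innerSL_apply_apply]
  have h2 : ∀ i : Fin d, ⟪ν, (EuclideanSpace.single i (1 : ℝ) : Sp d)⟫_ℝ = ν i := by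
    intro i
    simp [EuclideanSpace.inner_single_right]
  simp only [h2]
  have h3 : ∑ i : Fin d, ν i * ν i = 1 := by
    have := EuclideanSpace.real_norm_sq_eq ν
    rw [hν] at this
    simp only [one_pow] at this
    rw [this]
    exact Finset.sum_congr rfl fun i _ => (sq _).symm
  calc ∑ i : Fin d, Φ2 ⟪ν, x⟫_ℝ * ν i * ν i = Φ2 ⟪ν, x⟫_ℝ * ∑ i : Fin d, ν i * ν i := by
        rw [Finset.mul_sum]
        exact Finset.sum_congr rfl fun i _ => by ring
    _ = _ := by rw [h3, mul_one]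

lemma pl_int {ν : Sp d} {c : ℝ} {g : Sp d → ℝ} (hg : Continuous g) (hc : HasCompactSupport g) :
    Integrable (fun y : (Submodule.span ℝ {ν})ᗮ => g (c • ν + (y : Sp d))) := by
  refine Continuous.integrable_of_hasCompactSupport (hg.comp (by fun_prop)) ?_
  obtain ⟨r, hr⟩ := hc.isCompact.isBounded.subset_closedBall 0
  refine HasCompactSupport.intro (isCompact_closedBall (0 : (Submodule.span ℝ {ν})ᗮ) (r + ‖c • ν‖))
    fun y hy => ?_
  by_contra hne
  have h1 := hr (subset_tsupport _ (Function.mem_support.2 hne))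
  rw [mem_closedBall, dist_zero_right] at h1
  rw [mem_closedBall, dist_zero_right, not_le] at hy
  have h2 := norm_sub_le (c • ν + (y : Sp d)) (c • ν)
  rw [add_sub_cancel_left] at h2
  have h3 : ‖(y : Sp d)‖ = ‖y‖ := rfl
  linarith

lemma pl_add {ν : Sp d} {c : ℝ} {g h : Sp d → ℝ} (hg : Continuous g) (hgc : HasCompactSupport g)
    (hh : Continuous h) (hhc : HasCompactSupport h) :
    plInt ν c (fun y => g y + h y) = plInt ν c g + plInt ν c h :=
  integral_add (pl_int hg hgc) (pl_int hh hhc)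

lemma pl_mul {ν : Sp d} {c : ℝ} (a : ℝ) (g : Sp d → ℝ) :
    plInt ν c (fun y => a * g y) = a * plInt ν c g := integral_const_mul _ _

lemma pl_sum {ν : Sp d} {c : ℝ} {ι : Type*} (I : Finset ι) {g : ι → Sp d → ℝ}
    (hg : ∀ i, Continuous (g i)) (hgc : ∀ i, HasCompactSupport (g i)) :
    plInt ν c (fun y => ∑ i ∈ I, g i y) = ∑ i ∈ I, plInt ν c (g i) :=
  integral_finsetSum _ (fun i _ => pl_int (hg i) (hgc i))

/-- translation -/
lemma pl_shift {ν : Sp d} (hν : ‖ν‖ = 1) (c : ℝ) (g : Sp d → ℝ) (z : Sp d) :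
    ∫ y : (Submodule.span ℝ {ν})ᗮ, g (c • ν + (y : Sp d) + z) = plInt ν (c + ⟪ν, z⟫_ℝ) g := by
  have h1 : z - ⟪ν, z⟫_ℝ • ν ∈ (Submodule.span ℝ {ν})ᗮ := by
    rw [Submodule.mem_orthogonal_singleton_iff_inner_right, inner_sub_right, inner_smul_right,
      real_inner_self_eq_norm_sq, hν]
    ring
  unfold plInt
  rw [← integral_add_right_eq_self (μ := volume)
    (fun y : (Submodule.span ℝ {ν})ᗮ => g ((c + ⟪ν, z⟫_ℝ) • ν + (y : Sp d)))
    (⟨z - ⟪ν, z⟫_ℝ • ν, h1⟩ : (Submodule.span ℝ {ν})ᗮ)]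
  refine integral_congr_ae (Eventually.of_forall fun y => ?_)
  simp only [Submodule.coe_add]
  congr 1
  rw [add_smul]
  abel

lemma pl_NNp {b : Sp d → ℝ} (hβ : Continuous (Bp b)) (hs : ∀ x, 1 ≤ ‖x‖ → Bp b x = 0) {R : ℝ}
    (hR : 0 ≤ R) {ν : Sp d} (hν : ‖ν‖ = 1) (c : ℝ) {g : Sp d → ℝ} (hg : Continuous g)
    (hgc : HasCompactSupport g) : plInt ν c (NNp b R g) =
      ∫ p in SS d R, wt (Bp b) p * plInt ν (c + ⟪ν, p.1 • p.2⟫_ℝ) g := by
  have h1 : plInt ν c (NNp b R g) = ∫ y : (Submodule.span ℝ {ν})ᗮ, ∫ p in SS d R,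
      wt (Bp b) p * g (c • ν + (y : Sp d) + p.1 • p.2) := by
    unfold plInt
    refine integral_congr_ae (Eventually.of_forall fun y => ?_)
    exact NNp_eq hβ hs hR hg _
  rw [h1, integral_integral_swap]
  · refine integral_congr_ae (Eventually.of_forall fun p => ?_)
    simp only []
    rw [integral_const_mul, pl_shift hν]
  · obtain ⟨r, hr⟩ := hgc.isCompact.isBounded.subset_closedBall 0
    have hcont : Continuous (Function.uncurry fun (y : (Submodule.span ℝ {ν})ᗮ) (p : ℝ × Sp d) =>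
        wt (Bp b) p * g (c • ν + (y : Sp d) + p.1 • p.2)) := by
      refine ((wt_cont hβ).comp continuous_snd).mul (hg.comp ?_)
      fun_prop
    have hK : IsCompact (closedBall (0 : (Submodule.span ℝ {ν})ᗮ) (r + ‖c • ν‖ + R) ×ˢ SS d R) :=
      (isCompact_closedBall _ _).prod (SS_compact R)
    have h2 := hcont.continuousOn.integrableOn_compact
      (μ := (volume : Measure (Submodule.span ℝ {ν})ᗮ).prod (volume : Measure (ℝ × Sp d))) hK
    have h3 : (volume : Measure (Submodule.span ℝ {ν})ᗮ).prod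
        ((volume : Measure (ℝ × Sp d)).restrict (SS d R)) =
        ((volume : Measure (Submodule.span ℝ {ν})ᗮ).prod (volume : Measure (ℝ × Sp d))).restrict
          (univ ×ˢ SS d R) := by
      rw [← Measure.prod_restrict, Measure.restrict_univ]
    rw [h3]
    refine IntegrableOn.of_forall_sdiff_eq_zero h2 (MeasurableSet.univ.prod (SS_meas R)) ?_
    rintro ⟨y, p⟩ ⟨⟨_, hp⟩, hn⟩
    have hp' : p ∈ SS d R := hp
    have hy : y ∉ closedBall (0 : (Submodule.span ℝ {ν})ᗮ) (r + ‖c • ν‖ + R) := fun h =>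
      hn ⟨h, hp⟩
    simp only [Function.uncurry_apply_pair]
    have : g (c • ν + (y : Sp d) + p.1 • p.2) = 0 := by
      by_contra hne
      have h4 := hr (subset_tsupport _ (Function.mem_support.2 hne))
      rw [mem_closedBall, dist_zero_right] at h4
      rw [mem_closedBall, dist_zero_right, not_le] at hy
      obtain ⟨h5, h6⟩ := hp'
      rw [mem_closedBall, dist_zero_right] at h6
      have h7 : ‖p.1 • p.2‖ ≤ R := by
        rw [norm_smul, Real.norm_of_nonneg h5.1]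
        calc p.1 * ‖p.2‖ ≤ R * 1 := mul_le_mul h5.2 h6 (norm_nonneg _) hR
          _ = R := mul_one R
      have h8 : ‖(y : Sp d)‖ ≤ ‖c • ν + (y : Sp d) + p.1 • p.2‖ + ‖c • ν + p.1 • p.2‖ := by
        have := norm_sub_le (c • ν + (y : Sp d) + p.1 • p.2) (c • ν + p.1 • p.2)
        rwa [show c • ν + (y : Sp d) + p.1 • p.2 - (c • ν + p.1 • p.2) = (y : Sp d) by abel] at this
      have h9 := norm_add_le (c • ν) (p.1 • p.2)
      have h10 : ‖(y : Sp d)‖ = ‖y‖ := rfl
      linarith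
    rw [this, mul_zero]

/-- derivatives in arbitrary directions -/
lemma pl_fd (hPF : StmtPF) (hd : 1 ≤ d) {ν : Sp d} (hν : ‖ν‖ = 1) {g : Sp d → ℝ}
    (hg : ContDiff ℝ ∞ g) (hgc : HasCompactSupport g) (w : Sp d) (c : ℝ) :
    plInt ν c (fun y => fderiv ℝ g y w) = ⟪ν, w⟫_ℝ * plInt ν c (fun y => fderiv ℝ g y ν) := by
  have hg1 : ContDiff ℝ 1 g := hg.of_le (by exact_mod_cast le_top)
  obtain ⟨-, -, -, -, h5, -⟩ := (hPF d hd).2 ν hν
  have h6 := h5 g hg1 hgc c (w - ⟪ν, w⟫_ℝ • ν) (by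
    rw [inner_sub_right, inner_smul_right, real_inner_self_eq_norm_sq, hν]
    ring)
  have h7 : (fun y => fderiv ℝ g y w) = fun y => fderiv ℝ g y (w - ⟪ν, w⟫_ℝ • ν) +
      ⟪ν, w⟫_ℝ * fderiv ℝ g y ν := by
    ext y
    rw [map_sub, map_smul, smul_eq_mul]
    ring
  have h8 : Continuous (fun y => ⟪ν, w⟫_ℝ * fderiv ℝ g y ν) :=
    continuous_const.mul (smooth_fd hg _).continuous
  have h9 : HasCompactSupport (fun y => ⟪ν, w⟫_ℝ * fderiv ℝ g y ν) :=
    HasCompactSupport.mul_left (hgc.fderiv_apply ℝ ν)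
  have h10 := pl_add (ν := ν) (c := c) (smooth_fd hg (w - ⟪ν, w⟫_ℝ • ν)).continuous
    (hgc.fderiv_apply ℝ (w - ⟪ν, w⟫_ℝ • ν)) h8 h9
  rw [h7, h10, h6, zero_add, pl_mul]

/-- normal derivative -/
def dn (ν : Sp d) (g : Sp d → ℝ) (y : Sp d) : ℝ := fderiv ℝ g y ν

lemma dn_smooth {ν : Sp d} {g : Sp d → ℝ} (hg : ContDiff ℝ ∞ g) : ContDiff ℝ ∞ (dn ν g) :=
  smooth_fd hg ν

lemma dn_cs {ν : Sp d} {g : Sp d → ℝ} (hg : HasCompactSupport g) : HasCompactSupport (dn ν g) :=
  hg.fderiv_apply ℝ ν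

lemma pl_pd2 (hPF : StmtPF) (hd : 1 ≤ d) {ν : Sp d} (hν : ‖ν‖ = 1) {g : Sp d → ℝ}
    (hg : ContDiff ℝ ∞ g) (hgc : HasCompactSupport g) (i j : Fin d) (c : ℝ) :
    plInt ν c (pd2 i j g) = ν i * ν j * plInt ν c (dn ν (dn ν g)) := by
  have hin : ∀ i : Fin d, ⟪ν, bv i⟫_ℝ = ν i := by
    intro i
    simp [bv, EuclideanSpace.inner_single_right]
  have h1 : pd2 i j g = fun y => fderiv ℝ (fun z => fderiv ℝ g z (bv j)) y (bv i) := by
    ext y
    unfold pd2
    rw [iteratedFDeriv_two_apply, iter2 hg]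
    simp
  rw [h1, pl_fd hPF hd hν (smooth_fd hg _) (hgc.fderiv_apply ℝ _), hin]
  obtain ⟨-, -, h3, -, -, -⟩ := (hPF d hd).2 ν hν
  have ha : HasDerivAt (fun c => plInt ν c (fun y => fderiv ℝ g y (bv j)))
      (plInt ν c (fun y => fderiv ℝ (fun z => fderiv ℝ g z (bv j)) y ν)) c :=
    h3 _ ((smooth_fd hg _).of_le (by exact_mod_cast le_top)) (hgc.fderiv_apply ℝ _) c
  have hb : HasDerivAt (fun c => plInt ν c (fun y => fderiv ℝ g y (bv j)))
      (ν j * plInt ν c (dn ν (dn ν g))) c := by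
    have e : (fun c => plInt ν c (fun y => fderiv ℝ g y (bv j))) =
        fun c => ν j * plInt ν c (dn ν g) := by
      ext c
      rw [pl_fd hPF hd hν hg hgc, hin]
      rfl
    rw [e]
    exact (h3 _ ((dn_smooth hg).of_le (by exact_mod_cast le_top)) (dn_cs hgc) c).const_mul _
  rw [ha.unique hb]
  ring

lemma dd2_smooth {F : Fin d → Fin d → Sp d → ℝ} (hF : ∀ i j, ContDiff ℝ ∞ (F i j)) :
    ContDiff ℝ ∞ (dd2 F) := by
  have h1 : dd2 F = fun x => ∑ i, ∑ j, fderiv ℝ (fun z => fderiv ℝ (F i j) z (bv j)) x (bv i) := by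
    ext x
    unfold dd2 pd2
    refine Finset.sum_congr rfl fun i _ => Finset.sum_congr rfl fun j _ => ?_
    rw [iteratedFDeriv_two_apply, iter2 (hF i j)]
    simp
  rw [h1]
  exact ContDiff.sum fun i _ => ContDiff.sum fun j _ => smooth_fd (smooth_fd (hF i j) _) _

lemma pd2_cont {g : Sp d → ℝ} (hg : ContDiff ℝ ∞ g) (i j : Fin d) : Continuous (pd2 i j g) := by
  have h1 : pd2 i j g = fun y => fderiv ℝ (fun z => fderiv ℝ g z (bv j)) y (bv i) := by
    ext y
    unfold pd2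
    rw [iteratedFDeriv_two_apply, iter2 hg]
    simp
  rw [h1]
  exact (smooth_fd (smooth_fd hg _) _).continuous

lemma pd2_cs {g : Sp d → ℝ} (hg : ContDiff ℝ ∞ g) (hgc : HasCompactSupport g) (i j : Fin d) :
    HasCompactSupport (pd2 i j g) := by
  have h1 : pd2 i j g = fun y => fderiv ℝ (fun z => fderiv ℝ g z (bv j)) y (bv i) := by
    ext y
    unfold pd2
    rw [iteratedFDeriv_two_apply, iter2 hg]
    simp
  rw [h1]
  exact (hgc.fderiv_apply ℝ _).fderiv_apply ℝ _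

lemma cs_sum {ι : Type*} (I : Finset ι) {g : ι → Sp d → ℝ} (hg : ∀ i, HasCompactSupport (g i)) :
    HasCompactSupport (fun y => ∑ i ∈ I, g i y) := by
  classical
  induction I using Finset.induction_on with
  | empty =>
    simp only [Finset.sum_empty]
    exact (HasCompactSupport.zero : HasCompactSupport (0 : Sp d → ℝ))
  | insert i I hi ih =>
    have h1 : (fun y => ∑ k ∈ insert i I, g k y) = g i + fun y => ∑ k ∈ I, g k y := by
      ext y
      rw [Finset.sum_insert hi]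
      rfl
    rw [h1]
    exact (hg i).add ih

lemma pl_main (hPF : StmtPF) (hd : 1 ≤ d) {M c0 : ℝ} {b : Sp d → ℝ} (hb : BaseKer 2 M c0 b)
    {R : ℝ} (hR : 0 ≤ R) {F : Fin d → Fin d → Sp d → ℝ} (hF : ∀ i j, ContDiff ℝ ∞ (F i j))
    (hFc : ∀ i j, HasCompactSupport (F i j)) (ν : Sp d) (c : ℝ) (hν : ‖ν‖ = 1) :
    plInt ν c (nt b R F) =
        plInt ν c (fun y => ∑ i, ∑ j, ν i * ν j * F i j y) -
          ∫ x, b x * plInt ν (c + R * ⟪ν, x⟫_ℝ) (fun y => ∑ i, ∑ j, ν i * ν j * F i j y) := by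
  have hk := hb.kit 0
  have hβ : Continuous (Bp b) := hk.smooth1.continuous
  set G : Sp d → ℝ := fun y => ∑ i, ∑ j, ν i * ν j * F i j y with hG
  have hGs : ContDiff ℝ ∞ G :=
    ContDiff.sum fun i _ => ContDiff.sum fun j _ => contDiff_const.mul (hF i j)
  have hGc : HasCompactSupport G :=
    cs_sum _ fun i => cs_sum _ fun j => HasCompactSupport.mul_left (hFc i j)
  obtain ⟨-, -, h3, h4, -, -⟩ := (hPF d hd).2 ν hν
  -- the profile
  set Φ : ℝ → ℝ := fun c => plInt ν c G with hΦ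
  set Φ1 : ℝ → ℝ := fun c => plInt ν c (dn ν G) with hΦ1
  set Φ2 : ℝ → ℝ := fun c => plInt ν c (dn ν (dn ν G)) with hΦ2
  have hd0 : ∀ c, HasDerivAt Φ (Φ1 c) c := fun c =>
    h3 G (hGs.of_le (by exact_mod_cast le_top)) hGc c
  have hd1 : ∀ c, HasDerivAt Φ1 (Φ2 c) c := fun c =>
    h3 _ ((dn_smooth hGs).of_le (by exact_mod_cast le_top)) (dn_cs hGc) c
  have hΦs : ContDiff ℝ ∞ Φ := contDiff_infty.2 fun n =>
    h4 n G (hGs.of_le (by exact_mod_cast le_top)) hGc
  -- the plane integral of the double divergence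
  have hGG : dn ν (dn ν G) = fun y => ∑ i, ∑ j, ν i * ν j * dn ν (dn ν (F i j)) y := by
    have key : ∀ {H : Fin d → Fin d → Sp d → ℝ}, (∀ i j, ContDiff ℝ ∞ (H i j)) →
        dn ν (fun y => ∑ i, ∑ j, ν i * ν j * H i j y) =
          fun y => ∑ i, ∑ j, ν i * ν j * dn ν (H i j) y := by
      intro H hH
      ext y
      unfold dn
      have h5 : HasFDerivAt (fun y => ∑ i, ∑ j, ν i * ν j * H i j y)
          (∑ i, ∑ j, (ν i * ν j) • fderiv ℝ (H i j) y) y := by
        refine HasFDerivAt.fun_sum fun i _ => HasFDerivAt.fun_sum fun j _ => ?_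
        exact ((hH i j).differentiable (by simp) y).hasFDerivAt.const_mul _
      rw [h5.fderiv]
      simp
    rw [hG, key hF, key fun i j => dn_smooth (hF i j)]
  have hpl : ∀ c, plInt ν c (dd2 F) = Φ2 c := by
    intro c
    have h5 : dd2 F = fun x => ∑ i, ∑ j, pd2 i j (F i j) x := rfl
    rw [h5, pl_sum _ (fun i => continuous_finsetSum _ fun j _ => pd2_cont (hF i j) i j)
      (fun i => cs_sum _ fun j => pd2_cs (hF i j) (hFc i j) i j)]
    simp only [hΦ2]
    have hHc : ∀ i j, Continuous (fun y => ν i * ν j * dn ν (dn ν (F i j)) y) := fun i j =>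
      continuous_const.mul (dn_smooth (dn_smooth (hF i j))).continuous
    have hHs : ∀ i j, HasCompactSupport (fun y => ν i * ν j * dn ν (dn ν (F i j)) y) := fun i j =>
      HasCompactSupport.mul_left (dn_cs (dn_cs (hFc i j)))
    rw [hGG, pl_sum _ (fun i => continuous_finsetSum _ fun j _ => hHc i j)
      (fun i => cs_sum _ fun j => hHs i j)]
    refine Finset.sum_congr rfl fun i _ => ?_
    rw [pl_sum _ (fun j => pd2_cont (hF i j) i j) (fun j => pd2_cs (hF i j) (hFc i j) i j),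
      pl_sum _ (fun j => hHc i j) (fun j => hHs i j)]
    refine Finset.sum_congr rfl fun j _ => ?_
    rw [pl_pd2 hPF hd hν (hF i j) (hFc i j), pl_mul]
  -- the ridge function
  set Z : Sp d → ℝ := fun y => Φ ⟪ν, y⟫_ℝ with hZ
  have hZs : ContDiff ℝ ∞ Z := hΦs.comp (contDiff_const.inner ℝ contDiff_id)
  have hlapZ : lap Z = fun y => Φ2 ⟪ν, y⟫_ℝ := funext (lap_ridge ν hν hd0 hd1)
  have hftc := ftc (b := b) hb.smooth.continuous (fun x hx => hb.supp x (by linarith)) hb.int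
    (hk.smooth1.of_le (by norm_num)) hk.supp1 hk.grad1 hZs R (c • ν)
  have hdc : Continuous (dd2 F) := (dd2_smooth hF).continuous
  have hdcs : HasCompactSupport (dd2 F) :=
    cs_sum _ fun i => cs_sum _ fun j => pd2_cs (hF i j) (hFc i j) i j
  have hνν : ⟪ν, c • ν⟫_ℝ = c := by
    rw [inner_smul_right, real_inner_self_eq_norm_sq, hν]
    ring
  have h6 : plInt ν c (NNp b R (dd2 F)) = NNp b R (lap Z) (c • ν) := by
    rw [pl_NNp hβ hk.supp1 hR hν c hdc hdcs, NNp_eq hβ hk.supp1 hR (lap_cont hZs).continuous]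
    refine integral_congr_ae (Eventually.of_forall fun p => ?_)
    simp only [hlapZ]
    rw [hpl, inner_add_right, hνν]
  have h7 : plInt ν c (nt b R F) = - plInt ν c (NNp b R (dd2 F)) := integral_neg _
  rw [h7, h6, hftc]
  have h8 : Z (c • ν) = plInt ν c G := by
    simp only [hZ, hνν, hΦ]
  have h9 : avk b R Z (c • ν) = ∫ x, b x * plInt ν (c + R * ⟪ν, x⟫_ℝ) G := by
    unfold avk
    refine integral_congr_ae (Eventually.of_forall fun x => ?_)
    simp only [smul_eq_mul, hZ, hΦ]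
    rw [inner_add_right, hνν, inner_smul_right]
  rw [h8, h9]
  ring

end NN

open NN

/-- MODULE NN -/
theorem stmtNN (hPF : StmtPF) : StmtNN := by
  intro d hd M c0 b hb R hR
  have hk := hb.kit 0
  have hβ : Continuous (Bp b) := hk.smooth1.continuous
  have hftc := fun {ζ : Sp d → ℝ} (hζ : ContDiff ℝ ∞ ζ) (y : Sp d) =>
    ftc (b := b) hb.smooth.continuous (fun x hx => hb.supp x (by linarith)) hb.int
    (hk.smooth1.of_le (by norm_num)) hk.supp1 hk.grad1 hζ R y
  refine ⟨fun ζ hζ hc => ⟨(NNp_smooth hβ hk.supp1 hR.le hζ).1, NNp_cs hb hR.le hc, fun y => ?_,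
    fun j y h => NNp_apply hβ hk.supp1 hR.le hζ j y h,
    fun j N hN y => NNp_norm hb hR.le hζ j N hN y,
    fun x ρ hρ y hy => NNp_supp hb hR.le x ρ hρ y hy⟩, fun φ hφ hc y => ?_, fun F hF hFc => ?_⟩
  · rw [NNp_lap hβ hk.supp1 hR.le hζ, hftc hζ]
  · have h1 : dd2 (fun (i j : Fin d) (z : Sp d) => if i = j then φ z else 0) = lap φ := by
      ext x
      unfold dd2 lap
      refine Finset.sum_congr rfl fun i _ => ?_
      rw [Finset.sum_eq_single i]
      · simp only [if_true]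
        unfold pd2
        congr 1
        ext k
        fin_cases k <;> rfl
      · intro j _ hj
        have hij : ¬ i = j := fun h => hj h.symm
        simp only [hij, if_false]
        unfold pd2
        simp
      · intro h
        exact absurd (Finset.mem_univ i) h
    unfold nt
    rw [h1, hftc hφ]
    ring
  · refine ⟨?_, ?_, fun ν c hν => pl_main hPF (by omega) hb hR.le hF hFc ν c hν⟩
    · exact (NNp_smooth hβ hk.supp1 hR.le (dd2_smooth hF)).1.neg
    · have h1 : HasCompactSupport (dd2 F) :=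
        cs_sum _ fun i => cs_sum _ fun j => pd2_cs (hF i j) (hFc i j) i j
      exact (NNp_cs hb hR.le h1).neg

end

end TG
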