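import Pool.Agent.TG.Stmts12
import Pool.Agent.TG.NN
import Pool.Agent.TG.Adj

/-!
# Trace inequality, section 12: smoothing of the matrix field

A matrix field of class J + 6 with bounded derivatives, supported in the ball of radius d, can be
replaced by a smooth one, with the same bounds, up to an arbitrarily small error in the two test
functions (the algebraic one and the one of the Newton field).  No double quotes.
-/

open MeasureTheory Metric Set TrI
open scoped InnerProductSpace ContDiff Convolution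

namespace TG

noncomputable section

variable {d : ℕ}

namespace AB

/-- averages with a smooth even kernel of compact support are smooth -/
lemma avk_smooth {ψ : Sp d → ℝ} (hψ : ContDiff ℝ ∞ ψ) (he : ∀ x, ψ (-x) = ψ x)
    (hs : ∀ x, 1 ≤ ‖x‖ → ψ x = 0) {g : Sp d → ℝ} (hg : Continuous g) {s : ℝ} (hs0 : 0 < s) :
    ContDiff ℝ ∞ (avk ψ s g) := by
  set K : Sp d → ℝ := fun t => ψ (s⁻¹ • t) with hK
  have hKc : HasCompactSupport K := by
    refine HasCompactSupport.intro (isCompact_closedBall (0 : Sp d) s) fun x hx => ?_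
    rw [mem_closedBall, dist_zero_right, not_le] at hx
    apply hs
    rw [norm_smul, Real.norm_eq_abs, abs_of_pos (inv_pos.2 hs0), ← div_eq_inv_mul, le_div_iff₀ hs0]
    linarith
  have hKs : ContDiff ℝ ∞ K := hψ.comp (contDiff_const_smul _)
  have h1 : ContDiff ℝ ∞ (K ⋆[ContinuousLinearMap.lsmul ℝ ℝ, volume] g) :=
    hKc.contDiff_convolution_left _ hKs hg.locallyIntegrable
  have h2 : avk ψ s g = fun x => |(s ^ Module.finrank ℝ (Sp d))⁻¹| •
      (K ⋆[ContinuousLinearMap.lsmul ℝ ℝ, volume] g) x := by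
    funext x
    unfold avk convolution
    rw [← Measure.integral_comp_smul volume (fun t => (ContinuousLinearMap.lsmul ℝ ℝ (K t))
      (g (x - t))) s]
    rw [← integral_neg_eq_self]
    congr 1
    ext y
    simp only [hK, ContinuousLinearMap.lsmul_apply, smul_eq_mul, he, smul_neg, smul_smul,
      inv_mul_cancel₀ hs0.ne', one_smul, ← sub_eq_add_neg]
  rw [h2]
  exact h1.const_smul _

lemma bk_ak : AK (bk d) where
  cont := bk_cont
  nonneg := bk_nonneg
  supp := fun _ h => bk_zero h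
  int := bk_int

/-- averages of a Lipschitz function are close to the function -/
lemma avk_lip {ψ : Sp d → ℝ} (h : AK ψ) {F : Type*} [NormedAddCommGroup F] [NormedSpace ℝ F]
    [CompleteSpace F] {g : Sp d → F} (hg : Continuous g) {L : ℝ} (hL : 0 ≤ L)
    (hgL : ∀ x y, ‖g y - g x‖ ≤ L * ‖y - x‖) {s : ℝ} (hs : 0 ≤ s) (x : Sp d) :
    ‖avk ψ s g x - g x‖ ≤ L * s := by
  have h1 := h.integrand_integrable hg s x
  have h2 : Integrable fun y : Sp d => ψ y • g x := h.integrable.smul_const _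
  have h3 : avk ψ s g x - g x = ∫ y, ψ y • (g (x + s • y) - g x) := by
    have h4 : g x = ∫ y, ψ y • g x := by rw [integral_smul_const, h.int, one_smul]
    unfold avk
    conv_lhs => rw [h4]
    rw [← integral_sub h1 h2]
    congr 1
    ext y
    rw [smul_sub]
  rw [h3]
  calc ‖∫ y, ψ y • (g (x + s • y) - g x)‖ ≤ ∫ y, ‖ψ y • (g (x + s • y) - g x)‖ :=
        norm_integral_le_integral_norm _
    _ ≤ ∫ y, ψ y * (L * s) := by
        refine integral_mono ?_ (h.integrable.mul_const _) fun y => ?_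
        · refine Integrable.norm ?_
          refine (h1.sub h2).congr (ae_of_all _ fun y => ?_)
          simp only [Pi.sub_apply, smul_sub]
        · simp only [norm_smul, Real.norm_eq_abs, abs_of_nonneg (h.nonneg y)]
          by_cases hy : 1 ≤ ‖y‖
          · rw [h.supp y hy]
            simp
          · push Not at hy
            refine mul_le_mul_of_nonneg_left ?_ (h.nonneg y)
            refine (hgL _ _).trans ?_
            refine mul_le_mul_of_nonneg_left ?_ hL
            rw [add_sub_cancel_left, norm_smul, Real.norm_eq_abs, abs_of_nonneg hs]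
            nlinarith [norm_nonneg y]
    _ = L * s := by rw [integral_mul_const, h.int, one_mul]

lemma lip_of_iter {n : ℕ} {g : Sp d → ℝ} (hg : ContDiff ℝ (n + 1 : ℕ) g) {N : ℝ}
    (hN : ∀ x, ‖iteratedFDeriv ℝ (n + 1) g x‖ ≤ N) (x y : Sp d) :
    ‖iteratedFDeriv ℝ n g y - iteratedFDeriv ℝ n g x‖ ≤ N * ‖y - x‖ := by
  refine Convex.norm_image_sub_le_of_norm_fderiv_le (𝕜 := ℝ) (s := univ)
    (f := iteratedFDeriv ℝ n g) (fun z _ => ?_) (fun z _ => ?_) convex_univ (mem_univ x)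
    (mem_univ y)
  · exact (hg.differentiable_iteratedFDeriv (by norm_cast; omega)) z
  · rw [norm_fderiv_iteratedFDeriv]
    exact hN z

open NN in
lemma NNp_cont {Mb cb : ℝ} {b : Sp d → ℝ} (hb : BaseKer 2 Mb cb b) {R : ℝ} (hR : 0 ≤ R)
    {φ : Sp d → ℝ} (hφ : Continuous φ) : Continuous (NNp b R φ) := by
  have hk := hb.kit 0
  have hβ : Continuous (Bp b) := hk.smooth1.continuous
  have h1 : NNp b R φ = fun x => ∫ p in SS d R, NN.wt (Bp b) p * φ (x + p.1 • p.2) :=
    funext fun x => NNp_eq hβ hk.supp1 hR hφ x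
  rw [h1]
  refine continuous_parametric_integral_of_continuous ?_ (SS_compact R)
  refine ((NN.wt_cont hβ).comp continuous_snd).mul (hφ.comp ?_)
  fun_prop

open NN in
lemma NNp_sub_le {Mb cb : ℝ} {b : Sp d → ℝ} (hb : BaseKer 2 Mb cb b) {R : ℝ} (hR : 0 ≤ R)
    {φ φ' : Sp d → ℝ} (hφ : Continuous φ) (hφ' : Continuous φ') {L : ℝ}
    (hL : ∀ x, |φ x - φ' x| ≤ L) (x : Sp d) : |NNp b R φ x - NNp b R φ' x| ≤ R ^ 2 * L := by
  have hk := hb.kit 0
  have hβ : Continuous (Bp b) := hk.smooth1.continuous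
  have hL0 : 0 ≤ L := (abs_nonneg _).trans (hL 0)
  have hw0 : ∀ p ∈ SS d R, 0 ≤ NN.wt (Bp b) p := fun p hp =>
    mul_nonneg hp.1.1 (hk.nonneg1 p.2)
  have hwi : IntegrableOn (NN.wt (Bp b)) (SS d R) :=
    (NN.wt_cont hβ).continuousOn.integrableOn_compact (SS_compact R)
  have h1 := int_SS hβ hφ R x
  have h2 := int_SS hβ hφ' R x
  simp only [smul_eq_mul] at h1 h2
  rw [NNp_eq hβ hk.supp1 hR hφ, NNp_eq hβ hk.supp1 hR hφ', ← integral_sub h1 h2]
  calc |∫ p in SS d R, (NN.wt (Bp b) p * φ (x + p.1 • p.2) - NN.wt (Bp b) p * φ' (x + p.1 • p.2))|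
      ≤ ∫ p in SS d R, |NN.wt (Bp b) p * φ (x + p.1 • p.2) - NN.wt (Bp b) p * φ' (x + p.1 • p.2)| :=
        abs_integral_le_integral_abs
    _ ≤ ∫ p in SS d R, NN.wt (Bp b) p * L := by
        refine setIntegral_mono_on (h1.sub h2).abs (hwi.mul_const _) (SS_meas R) fun p hp => ?_
        rw [← mul_sub, abs_mul, abs_of_nonneg (hw0 p hp)]
        exact mul_le_mul_of_nonneg_left (hL _) (hw0 p hp)
    _ = (∫ p in SS d R, NN.wt (Bp b) p) * L := integral_mul_const _ _
    _ ≤ R ^ 2 * L := mul_le_mul_of_nonneg_right (wt_int_le hb hR) hL0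

lemma bv_norm (i : Fin d) : ‖(bv i : Sp d)‖ = 1 := by
  unfold bv
  simp

lemma pd2_cont' {g : Sp d → ℝ} (hg : ContDiff ℝ 2 g) (i j : Fin d) : Continuous (pd2 i j g) := by
  have h1 : Continuous (iteratedFDeriv ℝ 2 g) := hg.continuous_iteratedFDeriv (by norm_cast)
  exact (ContinuousMultilinearMap.apply ℝ (fun _ : Fin 2 => Sp d) ℝ ![bv i, bv j]).continuous.comp h1

lemma pd2_zero {g : Sp d → ℝ} {ρ : ℝ} (h0 : ∀ y, ρ ≤ ‖y‖ → g y = 0) (i j : Fin d) (y : Sp d)
    (hy : ρ < ‖y‖) : pd2 i j g y = 0 := by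
  have h1 : g =ᶠ[nhds y] fun _ => 0 := by
    filter_upwards [(isOpen_lt continuous_const continuous_norm).mem_nhds hy] with z hz
    exact h0 z (le_of_lt hz)
  unfold pd2
  rw [(h1.iteratedFDeriv (𝕜 := ℝ) 2).eq_of_nhds]
  simp

/-- the two test functions together -/
def tf (b : Sp d → ℝ) (R : ℝ) (n : Sp d) (F : Fin d → Fin d → Sp d → ℝ) (y : Sp d) : ℝ :=
  (∑ i, ∑ j, n i * n j * F i j y) - nt b R F y

lemma dd2_cont {F : Fin d → Fin d → Sp d → ℝ} (hF : ∀ i j, ContDiff ℝ 2 (F i j)) :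
    Continuous (dd2 F) :=
  continuous_finsetSum _ fun i _ => continuous_finsetSum _ fun j _ => pd2_cont' (hF i j) i j

lemma tf_cont {Mb cb : ℝ} {b : Sp d → ℝ} (hb : BaseKer 2 Mb cb b) {R : ℝ} (hR : 0 ≤ R) (n : Sp d)
    {F : Fin d → Fin d → Sp d → ℝ} (hF : ∀ i j, ContDiff ℝ 2 (F i j)) :
    Continuous (tf b R n F) := by
  refine Continuous.sub ?_ ?_
  · exact continuous_finsetSum _ fun i _ => continuous_finsetSum _ fun j _ =>
      continuous_const.mul (hF i j).continuous
  · exact (NNp_cont hb hR (dd2_cont hF)).neg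

lemma tf_supp {Mb cb : ℝ} {b : Sp d → ℝ} (hb : BaseKer 2 Mb cb b) {R : ℝ} (hR : 0 ≤ R) (n : Sp d)
    {F : Fin d → Fin d → Sp d → ℝ} {ρ : ℝ} (h0 : ∀ i j y, ρ ≤ ‖y‖ → F i j y = 0) (y : Sp d)
    (hy : ρ + 1 + R / 2 ≤ ‖y‖) : tf b R n F y = 0 := by
  unfold tf nt
  rw [NN.NNp_supp hb hR 0 (ρ + 1) ?_ y (by rwa [sub_zero])]
  · rw [neg_zero, sub_zero]
    refine Finset.sum_eq_zero fun i _ => Finset.sum_eq_zero fun j _ => ?_
    rw [h0 i j y (by linarith), mul_zero]
  · intro z hz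
    rw [sub_zero] at hz
    unfold dd2
    exact Finset.sum_eq_zero fun i _ => Finset.sum_eq_zero fun j _ =>
      pd2_zero (h0 i j) i j z (by linarith)

lemma tf_int {Mb cb : ℝ} {b : Sp d → ℝ} (hb : BaseKer 2 Mb cb b) {R : ℝ} (hR : 0 ≤ R) (n : Sp d)
    {F : Fin d → Fin d → Sp d → ℝ} (hF : ∀ i j, ContDiff ℝ 2 (F i j)) {ρ : ℝ}
    (h0 : ∀ i j y, ρ ≤ ‖y‖ → F i j y = 0) {m : Sp d → ℝ} (hm : Continuous m) :
    Integrable fun y => m y * tf b R n F y := by
  refine (hm.mul (tf_cont hb hR n hF)).integrable_of_hasCompactSupport ?_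
  refine HasCompactSupport.intro (isCompact_closedBall (0 : Sp d) (ρ + 1 + R / 2)) fun x hx => ?_
  rw [mem_closedBall, dist_zero_right, not_le] at hx
  change m x * tf b R n F x = 0
  rw [tf_supp hb hR n h0 x hx.le, mul_zero]

lemma moll (d J : ℕ) (hd : 2 ≤ d) (Mb cb : ℝ) (b : Sp d → ℝ) (hb : BaseKer 2 Mb cb b)
    (m : Sp d → ℝ) (hm : Continuous m) (Y : Fin d → Fin d → Sp d → ℝ) (N : ℝ)
    (hY : ∀ i j, TFn (J + 6) N (Y i j)) (hs : ∀ i j y, (d:ℝ) ≤ ‖y‖ → Y i j y = 0)
    (R : ℝ) (hR : 0 < R) (n : Sp d) (η : ℝ) (hη : 0 < η) :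
    ∃ Y' : Fin d → Fin d → Sp d → ℝ, (∀ i j, ContDiff ℝ ∞ (Y' i j)) ∧
      (∀ i j, TFn (J + 6) N (Y' i j)) ∧ (∀ i j y, (d:ℝ) + 1 ≤ ‖y‖ → Y' i j y = 0) ∧
      |(∫ y, m y * ((∑ i, ∑ j, n i * n j * Y i j y) - nt b R Y y))
        - ∫ y, m y * ((∑ i, ∑ j, n i * n j * Y' i j y) - nt b R Y' y)| ≤ η := by
  have hN : 0 ≤ N :=
    (norm_nonneg _).trans ((hY ⟨0, by omega⟩ ⟨0, by omega⟩).bd 0 (by omega) 0)
  set A0 : ℝ := ∑ i, ∑ j, |n i * n j| with hA0
  have hA0p : 0 ≤ A0 := Finset.sum_nonneg fun i _ => Finset.sum_nonneg fun j _ => abs_nonneg _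
  set A : ℝ := A0 + R ^ 2 * (d * d) with hA
  have hAp : 0 ≤ A := by positivity
  set B : Set (Sp d) := closedBall 0 ((d : ℝ) + 1 + 1 + R / 2) with hB
  set I : ℝ := ∫ y in B, |m y| with hI
  have hIp : 0 ≤ I := integral_nonneg fun _ => abs_nonneg _
  set δ : ℝ := min 1 (η / (A * N * I + 1)) with hδ
  have hANI : 0 ≤ A * N * I := by positivity
  have hδ0 : 0 < δ := lt_min one_pos (div_pos hη (by positivity))
  have hδ1 : δ ≤ 1 := min_le_left _ _
  have hδη : A * N * δ * I ≤ η := by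
    have h1 : δ * (A * N * I + 1) ≤ η := by
      have h2 : δ ≤ η / (A * N * I + 1) := min_le_right _ _
      rwa [le_div_iff₀ (by positivity)] at h2
    nlinarith
  have hk : AK (bk d) := bk_ak
  have hY2 : ∀ i j, ContDiff ℝ 2 (Y i j) := fun i j => (hY i j).smooth.of_le (by norm_cast; omega)
  have hY3 : ∀ i j, ContDiff ℝ 3 (Y i j) := fun i j => (hY i j).smooth.of_le (by norm_cast; omega)
  have hY1 : ∀ i j, ContDiff ℝ 1 (Y i j) := fun i j => (hY i j).smooth.of_le (by norm_cast; omega)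
  set Y' : Fin d → Fin d → Sp d → ℝ := fun i j => avk (bk d) δ (Y i j) with hY'
  have hY's : ∀ i j, ContDiff ℝ ∞ (Y' i j) := fun i j =>
    avk_smooth bk_contDiff bk_neg (fun _ h => bk_zero h) (hY2 i j).continuous hδ0
  have hY'2 : ∀ i j, ContDiff ℝ 2 (Y' i j) := fun i j => (hY's i j).of_le (WithTop.coe_le_coe.2 le_top)
  have hY't : ∀ i j, TFn (J + 6) N (Y' i j) := fun i j =>
    ⟨hk.avk_contDiff (hY i j).smooth δ, fun l hl x =>
      hk.norm_iteratedFDeriv_avk_le (hY i j).smooth δ hl ((hY i j).bd l hl) x⟩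
  have hY'0 : ∀ i j y, (d:ℝ) + 1 ≤ ‖y‖ → Y' i j y = 0 := by
    intro i j y hy
    by_contra hne
    obtain ⟨z, hz, hzy⟩ := AK.exists_of_avk_ne (ρ := 1) hk.supp hδ0 hne
    apply hz
    apply hs
    have h1 := norm_sub_norm_le y z
    rw [norm_sub_rev] at h1
    linarith
  refine ⟨Y', hY's, hY't, hY'0, ?_⟩
  have hs' : ∀ i j y, (d:ℝ) + 1 ≤ ‖y‖ → Y i j y = 0 := fun i j y hy => hs i j y (by linarith)
  -- pointwise bounds
  have hp0 : ∀ i j y, |Y i j y - Y' i j y| ≤ N * δ := by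
    intro i j y
    have h1 := avk_lip hk (hY2 i j).continuous hN (fun x y => ?_) hδ0.le y (g := Y i j)
    · rw [abs_sub_comm]
      exact h1
    · have h2 := lip_of_iter (n := 0) (g := Y i j) (N := N) (by simpa using hY1 i j)
        (fun x => (hY i j).bd 1 (by omega) x) x y
      have h3 : iteratedFDeriv ℝ 0 (Y i j) y - iteratedFDeriv ℝ 0 (Y i j) x =
        ContinuousMultilinearMap.uncurry0 ℝ (Sp d) (Y i j y - Y i j x) := by
        ext w
        simp
      rw [h3] at h2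
      simpa using h2
  have hp2 : ∀ i j y, |pd2 i j (Y i j) y - pd2 i j (Y' i j) y| ≤ N * δ := by
    intro i j y
    have hc : Continuous (iteratedFDeriv ℝ 2 (Y i j)) :=
      (hY2 i j).continuous_iteratedFDeriv (by norm_cast)
    have h1 := avk_lip hk hc hN (fun x y => lip_of_iter (n := 2) (g := Y i j) (N := N)
      (by exact_mod_cast hY3 i j) (fun x => (hY i j).bd 3 (by omega) x) x y) hδ0.le y
    rw [← hk.iteratedFDeriv_avk (hY i j).smooth δ (by omega)] at h1
    unfold pd2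
    have h2 : iteratedFDeriv ℝ 2 (Y i j) y ![bv i, bv j] - iteratedFDeriv ℝ 2 (Y' i j) y ![bv i, bv j]
      = (iteratedFDeriv ℝ 2 (Y i j) y - iteratedFDeriv ℝ 2 (Y' i j) y) ![bv i, bv j] := rfl
    rw [h2, ← Real.norm_eq_abs]
    refine (ContinuousMultilinearMap.le_opNorm _ _).trans ?_
    rw [Fin.prod_univ_two]
    simp only [Matrix.cons_val_zero, Matrix.cons_val_one, bv_norm, mul_one]
    rw [norm_sub_rev]
    exact h1
  have hdd : ∀ y, |dd2 Y y - dd2 Y' y| ≤ (d * d) * (N * δ) := by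
    intro y
    unfold dd2
    simp only [← Finset.sum_sub_distrib]
    refine (Finset.abs_sum_le_sum_abs _ _).trans ?_
    calc ∑ i : Fin d, |∑ j, (pd2 i j (Y i j) y - pd2 i j (Y' i j) y)|
        ≤ ∑ i : Fin d, ∑ j : Fin d, N * δ := by
          refine Finset.sum_le_sum fun i _ => (Finset.abs_sum_le_sum_abs _ _).trans ?_
          exact Finset.sum_le_sum fun j _ => hp2 i j y
      _ = (d * d) * (N * δ) := by
          simp only [Finset.sum_const, Finset.card_univ, Fintype.card_fin, nsmul_eq_mul]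
          ring
  have htf : ∀ y, |tf b R n Y y - tf b R n Y' y| ≤ A * N * δ := by
    intro y
    have h1 : tf b R n Y y - tf b R n Y' y = (∑ i, ∑ j, n i * n j * (Y i j y - Y' i j y))
        + (NNp b R (dd2 Y) y - NNp b R (dd2 Y') y) := by
      unfold tf nt
      simp only [mul_sub, Finset.sum_sub_distrib]
      ring
    have h2 := NNp_sub_le hb hR.le (dd2_cont hY2) (dd2_cont hY'2) hdd y
    have h3 : |∑ i, ∑ j, n i * n j * (Y i j y - Y' i j y)| ≤ A0 * (N * δ) := by
      refine (Finset.abs_sum_le_sum_abs _ _).trans ?_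
      rw [hA0, Finset.sum_mul]
      refine Finset.sum_le_sum fun i _ => (Finset.abs_sum_le_sum_abs _ _).trans ?_
      rw [Finset.sum_mul]
      refine Finset.sum_le_sum fun j _ => ?_
      rw [abs_mul]
      exact mul_le_mul_of_nonneg_left (hp0 i j y) (abs_nonneg _)
    rw [h1]
    refine (abs_add_le _ _).trans ((add_le_add h3 h2).trans (le_of_eq ?_))
    rw [hA]
    ring
  have hi1 := tf_int hb hR.le n hY2 hs' hm
  have hi2 := tf_int hb hR.le n hY'2 hY'0 hm
  have hgoal : |(∫ y, m y * tf b R n Y y) - ∫ y, m y * tf b R n Y' y| ≤ η := by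
    rw [← integral_sub hi1 hi2]
    have h4 : ∫ y, (m y * tf b R n Y y - m y * tf b R n Y' y) =
        ∫ y in B, (m y * tf b R n Y y - m y * tf b R n Y' y) := by
      symm
      refine setIntegral_eq_integral_of_forall_compl_eq_zero fun y hy => ?_
      rw [hB, mem_closedBall, dist_zero_right, not_le] at hy
      rw [tf_supp hb hR.le n hs' y hy.le, tf_supp hb hR.le n hY'0 y hy.le]
      ring
    rw [h4]
    calc |∫ y in B, (m y * tf b R n Y y - m y * tf b R n Y' y)|
        ≤ ∫ y in B, |m y * tf b R n Y y - m y * tf b R n Y' y| := abs_integral_le_integral_abs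
      _ ≤ ∫ y in B, |m y| * (A * N * δ) := by
          refine integral_mono (hi1.sub hi2).abs.integrableOn
            ((hm.abs.mul continuous_const).continuousOn.integrableOn_compact
              (isCompact_closedBall _ _)) fun y => ?_
          rw [← mul_sub, abs_mul]
          exact mul_le_mul_of_nonneg_left (htf y) (abs_nonneg _)
      _ = A * N * δ * I := by
          rw [integral_mul_const, hI]
          ring
      _ ≤ η := hδη
  exact hgoal

end AB

end

end TG
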