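import Pool.Agent.TG.ABr
import Pool.Agent.TG.ABm

/-!
# MODULE AB: comparison of the sheet field and the Newton field (helper72, with helper70)
-/

open MeasureTheory Metric Set TrI
open scoped InnerProductSpace ContDiff

namespace TG

/-- MODULE AB -/
theorem stmtAB (hPF : StmtPF) : StmtAB := by
  intro d J hd Mb cb K γ R0 b hb hK hγ0 hγ hR0
  obtain ⟨C, hC, hmain⟩ := AB.smooth_case hPF d J hd Mb cb K γ R0 b hb hK hγ0 hγ hR0
  refine ⟨C, hC, fun I R hIR => ⟨5 * C, by positivity, ?_⟩⟩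
  intro m a D x n s ab ep hm ha hD _ hMG hS Y N hY hsY
  refine le_of_forall_pos_le_add fun η hη => ?_
  have hp : (1 : ℝ) ≤ 2 ^ I := one_le_pow₀ (by norm_num)
  have hR : 0 < R := by linarith
  obtain ⟨Y', h1, h2, h3, h4⟩ := AB.moll d J hd Mb cb b (hb.mono_order (by omega)) m hm Y N hY
    hsY R hR (n 0) η hη
  have h5 := hmain I R hIR m a D x n s ab ep hm ha hD hMG hS Y' N h1 h2 h3
  have h6 := abs_sub_abs_le_abs_sub
    (∫ y, m y * ((∑ i, ∑ j, n 0 i * n 0 j * Y i j y) - nt b R Y y))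
    (∫ y, m y * ((∑ i, ∑ j, n 0 i * n 0 j * Y' i j y) - nt b R Y' y))
  linarith

end TG
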