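import Pool.Agent.TG.Stmts2

/-! MODULE PF: plane integrals (utilities), helper27 -/

open MeasureTheory Metric Set TrI
open scoped InnerProductSpace ContDiff

namespace TG

noncomputable section

namespace PF

variable {d : ℕ}

/-- the orthogonal complement of the line spanned by ν -/
abbrev Pl (ν : Sp d) : Submodule ℝ (Sp d) := (Submodule.span ℝ {ν})ᗮ

lemma inner_pl (ν : Sp d) (y : Pl ν) : ⟪ν, (y : Sp d)⟫_ℝ = 0 :=
  Submodule.mem_orthogonal_singleton_iff_inner_right.1 y.2

lemma tang_pl {ν : Sp d} (hν : ‖ν‖ = 1) (c : ℝ) (y : Pl ν) : tang ν (c • ν + (y : Sp d)) = y := by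
  unfold tang
  rw [inner_add_right, inner_smul_right, real_inner_self_eq_norm_sq, hν, inner_pl]
  simp

/-- Fubini: the map (c, y) ↦ c ν + y preserves volume -/
lemma mp {ν : Sp d} (hν : ‖ν‖ = 1) :
    MeasurePreserving (fun p : ℝ × Pl ν => p.1 • ν + (p.2 : Sp d)) (volume.prod volume) volume := by
  have h1 := ((LinearIsometryEquiv.toSpanUnitSingleton (𝕜 := ℝ) ν hν).measurePreserving).prod
    (MeasurePreserving.id (volume : Measure (Pl ν)))
  have h2 := WithLp.volume_preserving_toLp (Submodule.span ℝ {ν}) (Pl ν)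
  have h3 := (Submodule.span ℝ {ν}).orthogonalDecomposition.symm.measurePreserving
  have h := h3.comp (h2.comp h1)
  have e : (fun p : ℝ × Pl ν => p.1 • ν + (p.2 : Sp d)) =
      (Submodule.span ℝ {ν}).orthogonalDecomposition.symm ∘
        (WithLp.toLp 2 ∘ Prod.map (LinearIsometryEquiv.toSpanUnitSingleton ν hν) id) := by
    funext p
    simp
  rw [e]
  exact h

lemma emb {ν : Sp d} (hν : ‖ν‖ = 1) :
    MeasurableEmbedding (fun p : ℝ × Pl ν => p.1 • ν + (p.2 : Sp d)) := by
  refine Continuous.measurableEmbedding (by fun_prop) ?_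
  rintro ⟨c, y⟩ ⟨c', y'⟩ h
  have h0 : c • ν + (y : Sp d) = c' • ν + (y' : Sp d) := h
  have h1 := congrArg (tang ν) h0
  rw [tang_pl hν, tang_pl hν] at h1
  have h2 := congrArg (fun v => ⟪ν, v⟫_ℝ) h0
  simp only [inner_add_right, inner_smul_right, real_inner_self_eq_norm_sq, hν, inner_pl] at h2
  have h3 : c = c' := by simpa using h2
  rw [h3, Subtype.ext h1]

lemma fubini {ν : Sp d} (hν : ‖ν‖ = 1) (F : Sp d → ℝ) (hF : Integrable F) :
    ∫ y, F y = ∫ c : ℝ, plInt ν c F := by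
  have h1 : Integrable (fun p : ℝ × Pl ν => F (p.1 • ν + (p.2 : Sp d))) (volume.prod volume) :=
    ((mp hν).integrable_comp_emb (emb hν)).2 hF
  rw [← (mp hν).integral_comp (emb hν), integral_prod _ h1]
  rfl

/-! ### volume of balls in the plane -/

lemma vol (n : ℕ) (ν : Sp (n + 1)) (hν : ‖ν‖ = 1) (ρ : ℝ) :
    volume (closedBall (0 : Pl ν) ρ) = volume (closedBall (0 : Sp n) ρ) := by
  have h0 : ν ≠ 0 := by intro h; simp [h] at hν
  have : Fact (Module.finrank ℝ (Sp (n + 1)) = n + 1) := ⟨by simp⟩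
  have e := (OrthonormalBasis.fromOrthogonalSpanSingleton (𝕜 := ℝ) n h0).repr
  have h1 := e.measurePreserving.measure_preimage
    (measurableSet_closedBall (x := (0 : Sp n)) (ε := ρ)).nullMeasurableSet
  rw [← h1]
  congr 1
  ext y
  simp

lemma supp_sub {ν : Sp d} (hν : ‖ν‖ = 1) {F : Sp d → ℝ} {ρ : ℝ}
    (hF : ∀ y, F y ≠ 0 → ‖tang ν y‖ ≤ ρ) (c : ℝ) (y : Pl ν) (hy : F (c • ν + (y : Sp d)) ≠ 0) :
    y ∈ closedBall (0 : Pl ν) ρ := by
  have h := hF _ hy
  rw [tang_pl hν] at h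
  simpa using h

lemma int_of {ν : Sp d} (hν : ‖ν‖ = 1) {F : Sp d → ℝ} {ρ : ℝ}
    (hF : ∀ y, F y ≠ 0 → ‖tang ν y‖ ≤ ρ) (c : ℝ) :
    HasCompactSupport (fun y : Pl ν => F (c • ν + (y : Sp d))) := by
  refine HasCompactSupport.intro (isCompact_closedBall (0 : Pl ν) ρ) ?_
  intro y hy
  by_contra h
  exact hy (supp_sub hν hF c y h)

lemma bound (n : ℕ) (ρ : ℝ) : ∃ C : ℝ, 0 < C ∧ ∀ (ν : Sp (n + 1)), ‖ν‖ = 1 →
    ∀ (F : Sp (n + 1) → ℝ) (N : ℝ), Continuous F →
      (∀ y, |F y| ≤ N) → (∀ y, F y ≠ 0 → ‖tang ν y‖ ≤ ρ) → ∀ c, |plInt ν c F| ≤ C * N := by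
  refine ⟨(volume (closedBall (0 : Sp n) ρ)).toReal + 1, by positivity, ?_⟩
  intro ν hν F N hF hN hs c
  have hN0 : 0 ≤ N := le_trans (abs_nonneg _) (hN 0)
  have hi : plInt ν c F = ∫ y in closedBall (0 : Pl ν) ρ, F (c • ν + (y : Sp (n + 1))) := by
    unfold plInt
    rw [setIntegral_eq_integral_of_forall_compl_eq_zero]
    intro y hy
    by_contra h
    exact hy (supp_sub hν hs c y h)
  rw [hi]
  have h1 := norm_setIntegral_le_of_norm_le_const (μ := (volume : Measure (Pl ν)))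
    (s := closedBall (0 : Pl ν) ρ) (f := fun y : Pl ν => F (c • ν + (y : Sp (n + 1)))) (C := N)
    measure_closedBall_lt_top (fun y _ => by rw [Real.norm_eq_abs]; exact hN _)
  rw [Real.norm_eq_abs] at h1
  have h2 : volume.real (closedBall (0 : Pl ν) ρ) = (volume (closedBall (0 : Sp n) ρ)).toReal := by
    rw [Measure.real, vol n ν hν ρ]
  rw [h2] at h1
  nlinarith

/-! ### regularity in c -/

lemma cs_fd {X : Type*} [NormedAddCommGroup X] [NormedSpace ℝ X] {F : X → ℝ}
    (h : HasCompactSupport F) (w : X) : HasCompactSupport (fun y => fderiv ℝ F y w) := by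
  refine (h.fderiv ℝ).mono ?_
  intro y hy h0
  apply hy
  show fderiv ℝ F y w = 0
  rw [h0]
  rfl

/-- compactly supported functions vanish outside a cylinder and outside a strip -/
lemma cs_bd {F : Sp d → ℝ} (h : HasCompactSupport F) : ∃ ρ : ℝ, ∀ y, F y ≠ 0 → ‖y‖ ≤ ρ := by
  obtain ⟨ρ, hρ⟩ := h.isCompact.isBounded.subset_closedBall (0 : Sp d)
  refine ⟨ρ, fun y hy => ?_⟩
  have := hρ (subset_tsupport F hy)
  simpa using this

lemma norm_tang_le {ν : Sp d} (hν : ‖ν‖ = 1) (y : Sp d) : ‖tang ν y‖ ≤ ‖y‖ := by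
  have h : ‖tang ν y‖ ^ 2 = ‖y‖ ^ 2 - ⟪ν, y⟫_ℝ ^ 2 := by
    unfold tang
    rw [norm_sub_sq_real, norm_smul, hν, inner_smul_right, real_inner_comm]
    simp
    ring
  nlinarith [norm_nonneg (tang ν y), norm_nonneg y, sq_nonneg ⟪ν, y⟫_ℝ]

lemma cs_tang {ν : Sp d} (hν : ‖ν‖ = 1) {F : Sp d → ℝ} (h : HasCompactSupport F) :
    ∃ ρ : ℝ, ∀ y, F y ≠ 0 → ‖tang ν y‖ ≤ ρ := by
  obtain ⟨ρ, hρ⟩ := cs_bd h
  exact ⟨ρ, fun y hy => (norm_tang_le hν y).trans (hρ y hy)⟩

lemma bdd {F : Sp d → ℝ} (hF : Continuous F) (h : HasCompactSupport F) :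
    ∃ N : ℝ, ∀ y, |F y| ≤ N := by
  obtain ⟨N, hN⟩ := h.exists_bound_of_continuous hF
  exact ⟨N, fun y => by simpa using hN y⟩

lemma integrable_pl {ν : Sp d} (hν : ‖ν‖ = 1) {F : Sp d → ℝ} (hc : Continuous F) {ρ : ℝ}
    (hF : ∀ y, F y ≠ 0 → ‖tang ν y‖ ≤ ρ) (c : ℝ) :
    Integrable (fun y : Pl ν => F (c • ν + (y : Sp d))) :=
  (show Continuous (fun y : Pl ν => F (c • ν + (y : Sp d))) by fun_prop).integrable_of_hasCompactSupport
    (int_of hν hF c)

lemma cont {ν : Sp d} (hν : ‖ν‖ = 1) (F : Sp d → ℝ) (hF : Continuous F)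
    (h : HasCompactSupport F) : Continuous (fun c => plInt ν c F) := by
  obtain ⟨ρ, hρ⟩ := cs_tang hν h
  obtain ⟨N, hN⟩ := bdd hF h
  unfold plInt
  refine continuous_of_dominated (bound := (closedBall (0 : Pl ν) ρ).indicator (fun _ => N)) ?_ ?_ ?_ ?_
  · intro c
    exact (show Continuous (fun y : Pl ν => F (c • ν + (y : Sp d))) by fun_prop).aestronglyMeasurable
  · intro c
    refine Filter.Eventually.of_forall fun y => ?_
    by_cases hy : y ∈ closedBall (0 : Pl ν) ρ
    · rw [indicator_of_mem hy, Real.norm_eq_abs]; exact hN _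
    · rw [indicator_of_notMem hy]
      have : F (c • ν + (y : Sp d)) = 0 := by
        by_contra h'
        exact hy (supp_sub hν hρ c y h')
      rw [this, norm_zero]
  · exact (integrable_indicator_iff measurableSet_closedBall).2
      (integrableOn_const (measure_closedBall_lt_top.ne))
  · exact Filter.Eventually.of_forall fun y => by fun_prop

lemma deriv_pl {ν : Sp d} (hν : ‖ν‖ = 1) (F : Sp d → ℝ) (hF : ContDiff ℝ 1 F)
    (h : HasCompactSupport F) (c : ℝ) :
    HasDerivAt (fun c => plInt ν c F) (plInt ν c (fun y => fderiv ℝ F y ν)) c := by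
  have hF' : Continuous (fun y => fderiv ℝ F y ν) :=
    (hF.continuous_fderiv one_ne_zero).clm_apply continuous_const
  have h' : HasCompactSupport (fun y => fderiv ℝ F y ν) := cs_fd h ν
  obtain ⟨ρ, hρ⟩ := cs_tang hν h
  obtain ⟨ρ', hρ'⟩ := cs_tang hν h'
  obtain ⟨N, hN⟩ := bdd hF' h'
  unfold plInt
  refine (hasDerivAt_integral_of_dominated_loc_of_deriv_le (s := univ)
    (F := fun (c : ℝ) (y : Pl ν) => F (c • ν + (y : Sp d)))
    (F' := fun (c : ℝ) (y : Pl ν) => fderiv ℝ F (c • ν + (y : Sp d)) ν)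
    (bound := (closedBall (0 : Pl ν) ρ').indicator (fun _ => N)) Filter.univ_mem ?_ ?_ ?_ ?_ ?_ ?_).2
  · refine Filter.Eventually.of_forall fun c => ?_
    exact (show Continuous (fun y : Pl ν => F (c • ν + (y : Sp d))) from
      hF.continuous.comp (by fun_prop)).aestronglyMeasurable
  · exact integrable_pl hν hF.continuous hρ c
  · exact (show Continuous (fun y : Pl ν => fderiv ℝ F (c • ν + (y : Sp d)) ν) from
      hF'.comp (by fun_prop)).aestronglyMeasurable
  · refine Filter.Eventually.of_forall fun y c _ => ?_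
    by_cases hy : y ∈ closedBall (0 : Pl ν) ρ'
    · rw [indicator_of_mem hy, Real.norm_eq_abs]; exact hN _
    · rw [indicator_of_notMem hy]
      have : fderiv ℝ F (c • ν + (y : Sp d)) ν = 0 := by
        by_contra h''
        exact hy (supp_sub hν hρ' c y h'')
      rw [this, norm_zero]
  · exact (integrable_indicator_iff measurableSet_closedBall).2
      (integrableOn_const (measure_closedBall_lt_top.ne))
  · refine Filter.Eventually.of_forall fun y c _ => ?_
    have h1 : HasDerivAt (fun c : ℝ => c • ν + (y : Sp d)) ν c := by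
      simpa using ((hasDerivAt_id c).smul_const ν).add_const (y : Sp d)
    have h2 := (hF.differentiable one_ne_zero (c • ν + (y : Sp d))).hasFDerivAt
    exact h2.comp_hasDerivAt c h1

lemma contDiff_pl {ν : Sp d} (hν : ‖ν‖ = 1) : ∀ (J : ℕ) (F : Sp d → ℝ), ContDiff ℝ J F →
    HasCompactSupport F → ContDiff ℝ J (fun c => plInt ν c F) := by
  intro J
  induction J with
  | zero =>
    intro F hF h
    rw [Nat.cast_zero, contDiff_zero] at hF ⊢
    exact cont hν F hF h
  | succ J ih =>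
    intro F hF h
    have hF1 : ContDiff ℝ 1 F := hF.of_le (by
      rw [Nat.cast_succ]
      exact le_add_self)
    have hd : deriv (fun c => plInt ν c F) = fun c => plInt ν c (fun y => fderiv ℝ F y ν) := by
      ext c
      exact (deriv_pl hν F hF1 h c).deriv
    rw [Nat.cast_succ, contDiff_succ_iff_deriv]
    refine ⟨fun c => (deriv_pl hν F hF1 h c).differentiableAt, by simp, ?_⟩
    rw [hd]
    refine ih _ ?_ ?_
    · have := hF.fderiv_right (m := (J : WithTop ℕ∞)) (by rw [Nat.cast_succ])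
      exact this.clm_apply contDiff_const
    · exact cs_fd h ν

/-! ### tangential derivatives -/

lemma zero_of {ν : Sp d} (F : Sp d → ℝ) (hF : ContDiff ℝ 1 F) (c : ℝ)
    (h : HasCompactSupport (fun y : Pl ν => F (c • ν + (y : Sp d)))) (w : Sp d)
    (hw : ⟪ν, w⟫_ℝ = 0) : plInt ν c (fun y => fderiv ℝ F y w) = 0 := by
  set W : Pl ν := ⟨w, Submodule.mem_orthogonal_singleton_iff_inner_right.2 hw⟩ with hW
  set G : Pl ν → ℝ := fun y => F (c • ν + (y : Sp d)) with hG
  have hGc : ContDiff ℝ 1 G := hF.comp (contDiff_const.add (Pl ν).subtypeL.contDiff)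
  have hd : ∀ y : Pl ν, fderiv ℝ G y W = fderiv ℝ F (c • ν + (y : Sp d)) w := by
    intro y
    have h1 : HasFDerivAt (fun y : Pl ν => c • ν + (y : Sp d)) (Pl ν).subtypeL y :=
      (Pl ν).subtypeL.hasFDerivAt.const_add _
    have h2 := (hF.differentiable one_ne_zero (c • ν + (y : Sp d))).hasFDerivAt
    have h3 := (h2.comp y h1).fderiv
    change fderiv ℝ (F ∘ fun y : Pl ν => c • ν + (y : Sp d)) y W = _
    rw [h3]
    rfl
  have hcont : Continuous (fun y => fderiv ℝ G y W) :=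
    (hGc.continuous_fderiv one_ne_zero).clm_apply continuous_const
  have hcs : HasCompactSupport (fun y => fderiv ℝ G y W) := cs_fd h W
  have h1 := integral_mul_fderiv_eq_neg_fderiv_mul_of_integrable (μ := (volume : Measure (Pl ν)))
    (f := fun _ : Pl ν => (1 : ℝ)) (g := G) (v := W) (by simp)
    (by simpa using hcont.integrable_of_hasCompactSupport hcs)
    (by simpa using hGc.continuous.integrable_of_hasCompactSupport h)
    (fun _ _ => differentiableAt_const _) (fun y _ => hGc.differentiable one_ne_zero y)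
  simp only [one_mul, fderiv_fun_const, Pi.zero_apply, zero_apply, zero_mul,
    integral_zero, neg_zero] at h1
  unfold plInt
  rw [← h1]
  exact integral_congr_ae (Filter.Eventually.of_forall fun y => (hd y).symm)

end PF

theorem stmtPF : StmtPF := by
  intro d hd
  obtain ⟨n, rfl⟩ : ∃ n, d = n + 1 := ⟨d - 1, by omega⟩
  refine ⟨PF.bound n, fun ν hν => ⟨PF.fubini hν, PF.cont hν, PF.deriv_pl hν, PF.contDiff_pl hν,
    ?_, ?_⟩⟩
  · intro F hF h c w hw
    obtain ⟨ρ, hρ⟩ := PF.cs_tang hν h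
    exact PF.zero_of F hF c (PF.int_of hν hρ c) w hw
  · rintro F hF - ⟨ρ, hρ⟩ c w hw
    exact PF.zero_of F hF c (PF.int_of hν hρ c) w hw

end

end TG
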