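import Pool.Agent.TG.Mass
import Pool.Agent.TR.RKG
set_option autoImplicit false
set_option linter.unusedSectionVars false

/-!
# MODULE MA: mass against test functions (4.6)
-/

open MeasureTheory Metric Set TrI Filter
open scoped InnerProductSpace ContDiff Topology

namespace TG

noncomputable section

namespace MA

variable {d : ℕ} {E : Type} [NormedAddCommGroup E] [InnerProductSpace ℝ E] [FiniteDimensional ℝ E]

variable {b : Sp d → ℝ}

/-- first part of (4.6) -/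
lemma part1 (hb : AK b) (hev : ∀ x, b (-x) = b x) (hρ : ∀ x, 1 / 2 ≤ ‖x‖ → b x = 0)
    {ε : ℝ} (hε : 0 < ε) (hε1 : ε ≤ 1) {f : Sp d → E} (hf : Continuous f)
    (hc : HasCompactSupport f) {n : ℕ} {e : E} (he : ‖e‖ = 1) {x : Sp d} {R : ℝ}
    {S : Set (Sp d)} (hS : MeasurableSet S) {ζ : Sp d → ℝ} (hζ : ContDiff ℝ 2 ζ)
    (hζ1 : ∀ y, |ζ y| ≤ 1) (hζ2 : ∀ y, ‖iteratedFDeriv ℝ 2 ζ y‖ ≤ 1)
    (hζ0 : ∀ y, R - 2 ≤ ‖y - x‖ → ζ y = 0) (hζS : ∀ y z, ζ y ≠ 0 → ‖z - y‖ ≤ 1 → z ∈ S) :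
    |∫ y, ⟪f y, e⟫_ℝ * ζ y| ≤ 8 * ((∫ y in S, ‖fl b ε ((1 / 2) ^ n) f (n - 1) y‖) +
      DD b ε R ((1 / 2) ^ n) f n x e) := by
  set s0 : ℝ := (1 / 2) ^ n with hs0d
  have hs0 : 0 < s0 := by positivity
  set N : ℕ := n - 1 with hNd
  have hNn : N ≤ n := Nat.sub_le n 1
  have hlN : lev s0 N ≤ 1 := by
    have := lev_le_lev hs0 hNn
    rwa [hs0d, lev_unit] at this
  set U : Set (Sp d) := {y | ζ y ≠ 0} with hUd
  have hUx : ∀ y ∈ U, ‖y - x‖ < R - 2 := by
    intro y hy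
    by_contra h
    push Not at h
    exact hy (hζ0 y h)
  set A : ℝ := ∫ y in S, ‖fl b ε s0 f N y‖ with hA
  have hA0 : 0 ≤ A := integral_nonneg fun _ => norm_nonneg _
  have hNi : Integrable (fun y => ‖fl b ε s0 f N y‖) :=
    (fl_cont hb ε s0 hf N).norm.integrable_of_hasCompactSupport (fl_cs hb ε s0 hc N).norm
  set D : ℕ → ℝ := fun j => ∫ y in ball x R, dfn (fl b ε s0 f j) e y with hD
  have hD0 : ∀ j, 0 ≤ D j := fun j => integral_nonneg fun _ => dfn_nonneg he _ _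
  rw [telescope hb hev ε s0 hf hc e hζ.continuous N]
  -- the main term
  have hmain : |∫ y, ⟪fl b ε s0 f N y, e⟫_ℝ * ζ y| ≤ A := by
    rw [← Real.norm_eq_abs, hA, ← integral_indicator hS]
    refine (norm_integral_le_integral_norm _).trans ?_
    refine integral_mono_of_nonneg (Eventually.of_forall fun y => norm_nonneg _)
      (hNi.indicator hS) (Eventually.of_forall fun y => ?_)
    change ‖⟪fl b ε s0 f N y, e⟫_ℝ * ζ y‖ ≤ S.indicator (fun y => ‖fl b ε s0 f N y‖) y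
    rw [norm_mul, Real.norm_eq_abs, Real.norm_eq_abs]
    by_cases hy : ζ y = 0
    · rw [hy, abs_zero, mul_zero]
      exact Set.indicator_nonneg (fun _ _ => norm_nonneg _) y
    · rw [Set.indicator_of_mem (hζS y y hy (by simp))]
      calc |⟪fl b ε s0 f N y, e⟫_ℝ| * |ζ y| ≤ ‖fl b ε s0 f N y‖ * 1 :=
            mul_le_mul (abs_inner_le he _) (hζ1 y) (abs_nonneg _) (norm_nonneg _)
        _ = _ := mul_one _
  -- the errors
  have herr : ∀ l ∈ Finset.range N, |∫ y, ⟪fl b ε s0 f l y, e⟫_ℝ *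
        (ζ y - avk b (ε * lev s0 (l + 1)) ζ y)| ≤
      4 * lev s0 l ^ 2 * (A + ∑ j ∈ Finset.Ico l N, D j) := by
    intro l hl
    rw [Finset.mem_range] at hl
    have hl0 := lev_pos hs0 l
    have h1 := err_le hb hev hρ (fl_cont hb ε s0 hf l) (fl_cs hb ε s0 hc l) he
      (s := ε * lev s0 (l + 1)) (t := lev s0 l) (mul_pos hε (lev_pos hs0 _))
      (by rw [lev_succ]; nlinarith) hζ hζ2 (U := U) (fun y hy => hy)
    have h2 := transfer hb hev hρ hε hε1 hs0 hf hc he hUx hlN (N - l) l (lev s0 l) (by omega) hl0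
      (by linarith)
    have h3 : ∫ y in thickening (lev s0 l + (lev s0 N - lev s0 l)) U, ‖fl b ε s0 f N y‖ ≤ A := by
      refine setIntegral_mono_set hNi.integrableOn (Eventually.of_forall fun _ => norm_nonneg _)
        (Eventually.of_forall ?_)
      intro z hz
      change z ∈ thickening _ U at hz
      change z ∈ S
      rw [mem_thickening_iff] at hz
      obtain ⟨y, hy, hzy⟩ := hz
      refine hζS y z hy ?_
      rw [← dist_eq_norm]
      linarith
    refine h1.trans (mul_le_mul_of_nonneg_left ?_ (by positivity))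
    linarith
  have hsum := sum_aux N (fun l => lev s0 l ^ 2) D (fun l => by positivity)
    (fun l => by rw [lev_succ]; ring) hD0 hA0 (by
      have := lev_pos hs0 N
      nlinarith)
  have hDD : ∑ j ∈ Finset.range N, lev s0 j ^ 2 * D j ≤ DD b ε R s0 f n x e := by
    refine le_trans (le_of_eq ?_) (DD_ge b ε R f x he (by omega : N ≤ n + 1))
    refine Finset.sum_congr rfl fun j hj => ?_
    rw [Finset.mem_range] at hj
    rw [hs0d, lev_sq n j (by omega)]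
  have habs : |∑ l ∈ Finset.range N, ∫ y, ⟪fl b ε s0 f l y, e⟫_ℝ *
        (ζ y - avk b (ε * lev s0 (l + 1)) ζ y)| ≤
      ∑ l ∈ Finset.range N, 4 * lev s0 l ^ 2 * (A + ∑ j ∈ Finset.Ico l N, D j) :=
    (Finset.abs_sum_le_sum_abs _ _).trans (Finset.sum_le_sum herr)
  refine (abs_add_le _ _).trans ?_
  linarith

/-! ## second part -/

/-- the iterated averages of the test function -/
def dn (b : Sp d → ℝ) (ε s0 : ℝ) : ℕ → (Sp d → ℝ) → Sp d → ℝ
  | 0, φ => φ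
  | N + 1, φ => dn b ε s0 N (avk b (ε * lev s0 (N + 1)) φ)

lemma dn_cs (hb : AK b) (ε s0 : ℝ) (N : ℕ) {φ : Sp d → ℝ} (hφ : HasCompactSupport φ) :
    HasCompactSupport (dn b ε s0 N φ) := by
  induction N generalizing φ with
  | zero => exact hφ
  | succ N ih => exact ih (hb.avk_cs hφ _)

lemma dn_contDiff (hb : AK b) (ε s0 : ℝ) (N : ℕ) {φ : Sp d → ℝ} (hφ : ContDiff ℝ 2 φ) :
    ContDiff ℝ 2 (dn b ε s0 N φ) := by
  induction N generalizing φ with
  | zero => exact hφ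
  | succ N ih => exact ih (hb.avk_contDiff (n := 2) hφ _)

lemma dn_deriv (hb : AK b) (ε s0 : ℝ) (N : ℕ) {φ : Sp d → ℝ} (hφ : ContDiff ℝ 2 φ) {K : ℝ}
    (hK : ∀ y, ‖iteratedFDeriv ℝ 2 φ y‖ ≤ K) (y : Sp d) :
    ‖iteratedFDeriv ℝ 2 (dn b ε s0 N φ) y‖ ≤ K := by
  induction N generalizing φ with
  | zero => exact hK y
  | succ N ih =>
    exact ih (hb.avk_contDiff (n := 2) hφ _)
      (hb.norm_iteratedFDeriv_avk_le (n := 2) hφ _ le_rfl hK)

lemma dn_nonneg (hb : AK b) (ε s0 : ℝ) (N : ℕ) {φ : Sp d → ℝ} (hφ : ∀ y, 0 ≤ φ y) (y : Sp d) :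
    0 ≤ dn b ε s0 N φ y := by
  induction N generalizing φ with
  | zero => exact hφ y
  | succ N ih => exact ih (hb.avk_nonneg hφ _)

lemma dn_le (hb : AK b) (ε s0 : ℝ) (N : ℕ) {φ : Sp d → ℝ} (hc : Continuous φ)
    (hφ : ∀ y, φ y ≤ 1) (y : Sp d) : dn b ε s0 N φ y ≤ 1 := by
  induction N generalizing φ with
  | zero => exact hφ y
  | succ N ih => exact ih (hb.avk_cont hc _) (hb.avk_le_of_le (LB.of_cont hc) hφ _)

lemma dn_supp (hρ : ∀ x, 1 / 2 ≤ ‖x‖ → b x = 0) {ε s0 : ℝ} (hε : 0 < ε) (hε1 : ε ≤ 1)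
    (hs0 : 0 < s0) (N : ℕ) {φ : Sp d → ℝ} {y : Sp d} (hy : dn b ε s0 N φ y ≠ 0) :
    ∃ z, φ z ≠ 0 ∧ ‖z - y‖ ≤ lev s0 N := by
  induction N generalizing φ with
  | zero => exact ⟨y, hy, by rw [sub_self, norm_zero]; exact (lev_pos hs0 0).le⟩
  | succ N ih =>
    obtain ⟨z, hz, hzy⟩ := ih hy
    obtain ⟨w, hw, hwz⟩ := AK.exists_of_avk_ne (ψ := b) hρ (mul_pos hε (lev_pos hs0 (N + 1))) hz
    refine ⟨w, hw, ?_⟩
    have h1 : ‖w - y‖ ≤ ‖w - z‖ + ‖z - y‖ := by
      rw [← sub_add_sub_cancel w z y]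
      exact norm_add_le _ _
    have h2 := lev_succ s0 N
    have h3 := lev_pos hs0 N
    rw [h2] at hwz ⊢
    nlinarith

lemma dn_adj (hb : AK b) (hev : ∀ x, b (-x) = b x) (ε s0 : ℝ) {f : Sp d → E}
    (hf : Continuous f) (hc : HasCompactSupport f) (e : E) (N : ℕ) {φ : Sp d → ℝ}
    (hφ : Continuous φ) :
    ∫ y, φ y * ⟪fl b ε s0 f N y, e⟫_ℝ = ∫ y, dn b ε s0 N φ y * ⟪f y, e⟫_ℝ := by
  induction N generalizing φ with
  | zero => rfl
  | succ N ih =>
    have hgc : Continuous fun y => ⟪fl b ε s0 f N y, e⟫_ℝ :=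
      (fl_cont hb ε s0 hf N).inner continuous_const
    have hgs : HasCompactSupport fun y => ⟪fl b ε s0 f N y, e⟫_ℝ :=
      inner_cs (fl_cs hb ε s0 hc N) e
    have h1 := hb.avk_adj' hev (LB.of_cont hφ) (LB.of_cont hgc) hgs (ε * lev s0 (N + 1))
    have h2 : ∀ y, avk b (ε * lev s0 (N + 1)) (fun y => ⟪fl b ε s0 f N y, e⟫_ℝ) y =
        ⟪fl b ε s0 f (N + 1) y, e⟫_ℝ := fun y =>
      hb.avk_inner (fl_cont hb ε s0 hf N) e _ y
    simp only [h2] at h1
    rw [h1]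
    exact ih (hb.avk_cont hφ _)

/-- smooth cut-off of a set -/
lemma exists_cut (d : ℕ) : ∃ K : ℝ, 0 ≤ K ∧ ∀ S : Set (Sp d), S.Nonempty →
    ∃ φ : Sp d → ℝ, ContDiff ℝ 2 φ ∧ (∀ y, ‖iteratedFDeriv ℝ 2 φ y‖ ≤ K) ∧ (∀ y, 0 ≤ φ y) ∧
      (∀ y, φ y ≤ 1) ∧ (∀ y ∈ S, φ y = 1) ∧ ∀ y, φ y ≠ 0 → ∃ z ∈ S, ‖z - y‖ < 1 := by
  have hak : AK (bk d) := ⟨bk_cont, bk_nonneg, fun _ h => bk_zero h, bk_int⟩
  have hsm : ContDiff ℝ 2 (bk d) := by exact_mod_cast contDiff_infty.mp bk_contDiff 2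
  have hci : Continuous (iteratedFDeriv ℝ 2 (bk d)) :=
    hsm.continuous_iteratedFDeriv le_rfl
  have hsi : HasCompactSupport (iteratedFDeriv ℝ 2 (bk d)) :=
    hak.cs.iteratedFDeriv (𝕜 := ℝ) 2
  have hni : Integrable fun y => ‖iteratedFDeriv ℝ 2 (bk d) y‖ :=
    hci.norm.integrable_of_hasCompactSupport hsi.norm
  refine ⟨16 * ∫ y, ‖iteratedFDeriv ℝ 2 (bk d) y‖,
    mul_nonneg (by norm_num) (integral_nonneg fun _ => norm_nonneg _), ?_⟩
  intro S hS
  set g : Sp d → ℝ := fun z => max 0 (min 1 (2 - 4 * infDist z S)) with hg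
  have hgc : Continuous g := by
    have := continuous_infDist_pt (α := Sp d) S
    exact continuous_const.max (continuous_const.min (continuous_const.sub
      (continuous_const.mul this)))
  have hg0 : ∀ z, 0 ≤ g z := fun z => le_max_left _ _
  have hg1 : ∀ z, g z ≤ 1 := fun z => max_le zero_le_one (min_le_left _ _)
  have h4 : (0 : ℝ) < 1 / 4 := by norm_num
  refine ⟨avk (bk d) (1 / 4) g, ?_, ?_, ?_, ?_, ?_, ?_⟩
  · exact_mod_cast contDiff_infty.mp
      (TrI.avk_contDiff bk_contDiff (fun _ h => bk_zero h) hgc h4) 2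
  · intro y
    rw [stmtKD d ℝ (bk d) bk_contDiff (fun _ h => bk_zero h) g hgc (1 / 4) h4 2 y, norm_smul]
    have e1 : ‖(-1 / (1 / 4 : ℝ)) ^ 2‖ = 16 := by norm_num
    rw [e1]
    refine mul_le_mul_of_nonneg_left ?_ (by norm_num)
    refine norm_integral_le_of_norm_le hni (Eventually.of_forall fun z => ?_)
    rw [ContinuousMultilinearMap.norm_smulRight, Real.norm_of_nonneg (hg0 _)]
    exact mul_le_of_le_one_right (norm_nonneg _) (hg1 _)
  · exact hak.avk_nonneg hg0 _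
  · exact hak.avk_le_of_le (LB.of_cont hgc) hg1 _
  · intro y hy
    have h1 : avk (bk d) (1 / 4) g y = avk (bk d) (1 / 4) (fun _ => (1 : ℝ)) y := by
      refine hak.avk_congr _ _ fun z hz => ?_
      have h2 : infDist z S ≤ 1 / 4 := by
        refine (infDist_le_dist_of_mem hy).trans ?_
        rw [dist_eq_norm]
        rwa [abs_of_pos h4] at hz
      have h3 : min 1 (2 - 4 * infDist z S) = 1 := min_eq_left (by linarith)
      simp only [hg, h3]
      exact max_eq_right zero_le_one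
    rw [h1, hak.avk_const]
  · intro y hy
    obtain ⟨z, hz, hzy⟩ := AK.exists_of_avk_ne (ψ := bk d) (ρ := 1) (fun _ h => bk_zero h) h4 hy
    have h2 : infDist z S < 1 / 2 := by
      by_contra h
      push Not at h
      apply hz
      have h3 : min 1 (2 - 4 * infDist z S) ≤ 0 := (min_le_right _ _).trans (by linarith)
      exact max_eq_left h3
    obtain ⟨w, hw, hzw⟩ := (infDist_lt_iff hS).mp h2
    refine ⟨w, hw, ?_⟩
    have h5 : ‖w - y‖ ≤ ‖w - z‖ + ‖z - y‖ := by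
      rw [← sub_add_sub_cancel w z y]
      exact norm_add_le _ _
    rw [dist_comm, dist_eq_norm] at hzw
    linarith

/-- second part of (4.6) -/
lemma part2 (hb : AK b) (hev : ∀ x, b (-x) = b x) (hρ : ∀ x, 1 / 2 ≤ ‖x‖ → b x = 0)
    {ε : ℝ} (hε : 0 < ε) (hε1 : ε ≤ 1) {K CZ : ℝ} (hK0 : 0 ≤ K) (hCZ : 0 < CZ)
    (hK : ∀ S : Set (Sp d), S.Nonempty →
      ∃ φ : Sp d → ℝ, ContDiff ℝ 2 φ ∧ (∀ y, ‖iteratedFDeriv ℝ 2 φ y‖ ≤ K) ∧ (∀ y, 0 ≤ φ y) ∧
      (∀ y, φ y ≤ 1) ∧ (∀ y ∈ S, φ y = 1) ∧ ∀ y, φ y ≠ 0 → ∃ z ∈ S, ‖z - y‖ < 1)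
    {f : Sp d → E} (hf : Continuous f)
    (hc : HasCompactSupport f) {n : ℕ} {e : E} (he : ‖e‖ = 1) {x : Sp d} {R : ℝ}
    (hZ : ∀ (H : Sp d → ℝ), ContDiff ℝ 2 H → (∀ y, 0 ≤ H y) → (∀ y, H y ≤ 1) →
      (∀ y, ‖iteratedFDeriv ℝ 2 H y‖ ≤ 1) → (∀ y, R - 2 ≤ ‖y - x‖ → H y = 0) →
      -CZ * DD b ε R ((1 / 2) ^ n) f n x e ≤ ∫ y, ⟪f y, e⟫_ℝ * H y)
    {S : Set (Sp d)} (hS : MeasurableSet S) {H : Sp d → ℝ} {h0 : ℝ} (hh0 : 0 < h0) (hh1 : h0 ≤ 1)
    (hH : ContDiff ℝ 2 H) (hH0 : ∀ y, 0 ≤ H y) (hH1 : ∀ y, H y ≤ 1)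
    (hH2 : ∀ y, ‖iteratedFDeriv ℝ 2 H y‖ ≤ 1) (hHs : ∀ y, R - 2 ≤ ‖y - x‖ → H y = 0)
    (hHS : ∀ y z, y ∈ S → ‖z - y‖ ≤ 2 → h0 ≤ H z) :
    (∫ y in S, ‖fl b ε ((1 / 2) ^ n) f (n - 1) y‖) ≤
      1 / h0 * (∫ y, ⟪f y, e⟫_ℝ * H y) +
        ((1 + K) * CZ + 4) / h0 * DD b ε R ((1 / 2) ^ n) f n x e := by
  set s0 : ℝ := (1 / 2) ^ n with hs0d
  have hs0 : 0 < s0 := by positivity
  set N : ℕ := n - 1 with hNd
  have hNn : N ≤ n := Nat.sub_le n 1
  have hlN : lev s0 N ≤ 1 := by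
    have := lev_le_lev hs0 hNn
    rwa [hs0d, lev_unit] at this
  set m : Sp d → ℝ := fun y => ⟪f y, e⟫_ℝ with hm
  have hmc : Continuous m := hf.inner continuous_const
  have hms : HasCompactSupport m := inner_cs hc e
  have hDD0 : 0 ≤ DD b ε R s0 f n x e := by
    have := DD_ge b ε R (n := n) f x he (Nat.zero_le (n + 1))
    rwa [Finset.range_zero, Finset.sum_empty] at this
  -- the empty case
  rcases S.eq_empty_or_nonempty with hSe | hSn
  · rw [hSe, Measure.restrict_empty, integral_zero_measure]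
    have h1 := hZ H hH hH0 hH1 hH2 hHs
    have h2 : 0 < 1 / h0 := by positivity
    have h3 : 1 / h0 * (-CZ * DD b ε R s0 f n x e) ≤ 1 / h0 * ∫ y, m y * H y :=
      mul_le_mul_of_nonneg_left h1 h2.le
    have h4 : 0 ≤ (K * CZ + 4) / h0 * DD b ε R s0 f n x e :=
      mul_nonneg (div_nonneg (by positivity) hh0.le) hDD0
    have h5 : ((1 + K) * CZ + 4) / h0 * DD b ε R s0 f n x e =
        1 / h0 * (CZ * DD b ε R s0 f n x e) + (K * CZ + 4) / h0 * DD b ε R s0 f n x e := by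
      field_simp
      ring
    rw [h5]
    linarith
  obtain ⟨φ, hφ, hφ2, hφ0, hφ1, hφS, hφs⟩ := hK S hSn
  have hSx : ∀ y ∈ S, ∀ z, ‖z - y‖ ≤ 2 → ‖z - x‖ < R - 2 := by
    intro y hy z hz
    by_contra h
    push Not at h
    have h1 := hHS y z hy hz
    rw [hHs z h] at h1
    linarith
  have hφR : ∀ y, φ y ≠ 0 → y ∈ ball x R := by
    intro y hy
    obtain ⟨z, hz, hzy⟩ := hφs y hy
    have h1 := hSx z hz y (by rw [← norm_neg, neg_sub]; linarith)
    rw [mem_ball, dist_eq_norm]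
    linarith
  -- integrability
  have hNc := fl_cont hb ε s0 hf N
  have hNs := fl_cs hb ε s0 hc N
  have hNi : Integrable (fun y => ‖fl b ε s0 f N y‖) :=
    hNc.norm.integrable_of_hasCompactSupport hNs.norm
  have hdi : Integrable (dfn (fl b ε s0 f N) e) :=
    (dfn_cont hNc e).integrable_of_hasCompactSupport (dfn_cs hNs e)
  have hφn : Integrable (fun y => φ y * ‖fl b ε s0 f N y‖) :=
    (hφ.continuous.mul hNc.norm).integrable_of_hasCompactSupport hNs.norm.mul_left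
  have hφm : Integrable (fun y => φ y * ⟪fl b ε s0 f N y, e⟫_ℝ) :=
    (hφ.continuous.mul (hNc.inner continuous_const)).integrable_of_hasCompactSupport
      (inner_cs hNs e).mul_left
  have hφd : Integrable (fun y => φ y * dfn (fl b ε s0 f N) e y) :=
    (hφ.continuous.mul (dfn_cont hNc e)).integrable_of_hasCompactSupport
      (dfn_cs hNs e).mul_left
  -- step 1
  have s1 : (∫ y in S, ‖fl b ε s0 f N y‖) ≤ ∫ y, φ y * ‖fl b ε s0 f N y‖ := by
    rw [← integral_indicator hS]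
    refine integral_mono (hNi.indicator hS) hφn fun y => ?_
    change S.indicator (fun y => ‖fl b ε s0 f N y‖) y ≤ φ y * ‖fl b ε s0 f N y‖
    by_cases hy : y ∈ S
    · rw [Set.indicator_of_mem hy, hφS y hy, one_mul]
    · rw [Set.indicator_of_notMem hy]
      exact mul_nonneg (hφ0 y) (norm_nonneg _)
  have s2 : ∫ y, φ y * ‖fl b ε s0 f N y‖ =
      (∫ y, φ y * ⟪fl b ε s0 f N y, e⟫_ℝ) + ∫ y, φ y * dfn (fl b ε s0 f N) e y := by
    rw [← integral_add hφm hφd]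
    congr 1
    ext y
    unfold dfn
    ring
  have s3 : ∫ y, φ y * dfn (fl b ε s0 f N) e y ≤
      ∫ y in ball x R, dfn (fl b ε s0 f N) e y := by
    rw [← integral_indicator measurableSet_ball]
    refine integral_mono hφd (hdi.indicator measurableSet_ball) fun y => ?_
    change φ y * dfn (fl b ε s0 f N) e y ≤ (ball x R).indicator (dfn (fl b ε s0 f N) e) y
    by_cases hy : φ y = 0
    · rw [hy, zero_mul]
      exact Set.indicator_nonneg (fun _ _ => dfn_nonneg he _ _) y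
    · rw [Set.indicator_of_mem (hφR y hy)]
      exact mul_le_of_le_one_left (dfn_nonneg he _ _) (hφ1 y)
  have s4 : ∫ y in ball x R, dfn (fl b ε s0 f N) e y ≤ 4 * DD b ε R s0 f n x e := by
    have h1 := DD_ge b ε R f x he (by omega : N + 1 ≤ n + 1)
    rw [Finset.sum_range_succ] at h1
    have h2 : 0 ≤ ∑ l ∈ Finset.range N, (1 / 4 : ℝ) ^ (n - l) *
        (∫ y in ball x R, dfn (fl b ε s0 f l) e y) :=
      Finset.sum_nonneg fun l _ =>
        mul_nonneg (by positivity) (integral_nonneg fun _ => dfn_nonneg he _ _)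
    have h3 : 0 ≤ ∫ y in ball x R, dfn (fl b ε s0 f N) e y :=
      integral_nonneg fun _ => dfn_nonneg he _ _
    have h4 : (1 / 4 : ℝ) ≤ (1 / 4) ^ (n - N) := by
      have h5 : n - N ≤ 1 := by omega
      calc (1 / 4 : ℝ) = (1 / 4) ^ 1 := (pow_one _).symm
        _ ≤ (1 / 4) ^ (n - N) := pow_le_pow_of_le_one (by norm_num) (by norm_num) h5
    nlinarith
  -- step 2: the iterated average
  set ψ : Sp d → ℝ := dn b ε s0 N φ with hψ
  have s5 : ∫ y, φ y * ⟪fl b ε s0 f N y, e⟫_ℝ = ∫ y, m y * ψ y := by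
    rw [dn_adj hb hev ε s0 hf hc e N hφ.continuous]
    congr 1
    ext y
    rw [mul_comm]
  have hψc : ContDiff ℝ 2 ψ := dn_contDiff hb ε s0 N hφ
  have hψ2 : ∀ y, ‖iteratedFDeriv ℝ 2 ψ y‖ ≤ K := dn_deriv hb ε s0 N hφ hφ2
  have hψ0 : ∀ y, 0 ≤ ψ y := dn_nonneg hb ε s0 N hφ0
  have hψ1 : ∀ y, ψ y ≤ 1 := dn_le hb ε s0 N hφ.continuous hφ1
  have hψH : ∀ y, ψ y ≤ H y / h0 := by
    intro y
    by_cases hy : ψ y = 0
    · rw [hy]
      exact div_nonneg (hH0 y) hh0.le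
    · obtain ⟨z, hz, hzy⟩ := dn_supp hρ hε hε1 hs0 N hy
      obtain ⟨w, hw, hwz⟩ := hφs z hz
      have h1 : ‖w - y‖ ≤ ‖w - z‖ + ‖z - y‖ := by
        rw [← sub_add_sub_cancel w z y]
        exact norm_add_le _ _
      have h2 := hHS w y hw (by rw [← norm_neg, neg_sub]; linarith)
      refine (hψ1 y).trans ?_
      rwa [le_div_iff₀ hh0, one_mul]
  -- step 3: Lemma Z
  set κ : ℝ := h0 / (1 + K) with hκ
  have hκ0 : 0 < κ := by positivity
  have h1K : 0 < 1 + K := by linarith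
  have hZ' := hZ (fun y => κ * (H y / h0 - ψ y)) ?_ ?_ ?_ ?_ ?_
  · have e1 : ∫ y, m y * (κ * (H y / h0 - ψ y)) =
        κ * (1 / h0 * (∫ y, m y * H y) - ∫ y, m y * ψ y) := by
      have i1 : Integrable fun y => 1 / h0 * (m y * H y) :=
        ((hmc.mul hH.continuous).integrable_of_hasCompactSupport hms.mul_right).const_mul _
      have i2 : Integrable fun y => m y * ψ y :=
        (hmc.mul hψc.continuous).integrable_of_hasCompactSupport hms.mul_right
      rw [← integral_const_mul, ← integral_sub i1 i2, ← integral_const_mul]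
      congr 1
      ext y
      ring
    rw [e1] at hZ'
    have h2 : ∫ y, m y * ψ y ≤ 1 / h0 * (∫ y, m y * H y) +
        (1 + K) * CZ / h0 * DD b ε R s0 f n x e := by
      have h3 : -(1 / κ * (CZ * DD b ε R s0 f n x e)) ≤
          1 / h0 * (∫ y, m y * H y) - ∫ y, m y * ψ y := by
        have h4 := mul_le_mul_of_nonneg_left hZ' (by positivity : (0 : ℝ) ≤ 1 / κ)
        rw [← mul_assoc (1 / κ) κ, one_div_mul_cancel hκ0.ne', one_mul] at h4
        linarith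
      have h5 : 1 / κ * (CZ * DD b ε R s0 f n x e) =
          (1 + K) * CZ / h0 * DD b ε R s0 f n x e := by
        rw [hκ, one_div_div]
        ring
      rw [h5] at h3
      linarith
    have h6 : 4 * DD b ε R s0 f n x e ≤ 4 / h0 * DD b ε R s0 f n x e := by
      refine mul_le_mul_of_nonneg_right ?_ hDD0
      rw [le_div_iff₀ hh0]
      linarith
    have h7 : ((1 + K) * CZ + 4) / h0 * DD b ε R s0 f n x e =
        (1 + K) * CZ / h0 * DD b ε R s0 f n x e + 4 / h0 * DD b ε R s0 f n x e := by ring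
    rw [h7]
    linarith
  · exact contDiff_const.mul ((hH.div_const h0).sub hψc)
  · intro y
    exact mul_nonneg hκ0.le (sub_nonneg.mpr (hψH y))
  · intro y
    have h2 : H y / h0 - ψ y ≤ 1 / h0 := by
      have := div_le_div_of_nonneg_right (hH1 y) hh0.le
      have := hψ0 y
      linarith
    calc κ * (H y / h0 - ψ y) ≤ κ * (1 / h0) := mul_le_mul_of_nonneg_left h2 hκ0.le
      _ = 1 / (1 + K) := by rw [hκ]; field_simp
      _ ≤ 1 := by rw [div_le_one h1K]; linarith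
  · intro y
    have e1 : (fun y => κ * (H y / h0 - ψ y)) = (κ / h0) • H + (-κ) • ψ := by
      ext y
      simp only [Pi.add_apply, Pi.smul_apply, smul_eq_mul]
      ring
    have c1 : ContDiff ℝ 2 ((κ / h0) • H) := contDiff_const.smul hH
    have c2 : ContDiff ℝ 2 ((-κ) • ψ) := contDiff_const.smul hψc
    rw [e1, iteratedFDeriv_add_apply c1.contDiffAt c2.contDiffAt,
      iteratedFDeriv_const_smul_apply hH.contDiffAt, iteratedFDeriv_const_smul_apply hψc.contDiffAt]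
    refine (norm_add_le _ _).trans ?_
    rw [norm_smul, norm_smul, norm_neg, Real.norm_of_nonneg hκ0.le,
      Real.norm_of_nonneg (by positivity : 0 ≤ κ / h0)]
    have h2 : κ / h0 * ‖iteratedFDeriv ℝ 2 H y‖ ≤ κ / h0 * 1 :=
      mul_le_mul_of_nonneg_left (hH2 y) (by positivity)
    have h3 : κ * ‖iteratedFDeriv ℝ 2 ψ y‖ ≤ κ * K := mul_le_mul_of_nonneg_left (hψ2 y) hκ0.le
    have h4 : κ / h0 * 1 + κ * K ≤ 1 := by
      have h5 : κ / h0 = 1 / (1 + K) := by rw [hκ]; field_simp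
      have h6 : κ ≤ 1 / (1 + K) := by
        rw [hκ]
        exact div_le_div_of_nonneg_right hh1 h1K.le
      have h7 : 1 / (1 + K) * (1 + K) = 1 := by field_simp
      rw [h5]
      nlinarith
    linarith
  · intro y hy
    have h1 : ψ y = 0 := by
      have h2 := hψH y
      rw [hHs y hy, zero_div] at h2
      exact le_antisymm h2 (hψ0 y)
    simp only [hHs y hy, h1]
    ring

end MA

/-- MODULE MA -/
theorem stmtMA (h : StmtZ) : StmtMA := by
  intro d hd M c ε hε hε1 b hb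
  obtain ⟨CZ, hCZ, hZ⟩ := h d hd M c ε hε hε1 b hb
  obtain ⟨K, hK0, hK⟩ := MA.exists_cut d
  have hC1 : 0 < (1 + K) * CZ + 4 := by positivity
  refine ⟨(1 + K) * CZ + 4 + 8, by positivity, ?_⟩
  intro E _ _ _ f hf hc R hR n e he x S hS
  have hDD0 : 0 ≤ DD b ε R ((1 / 2) ^ n) f n x e := by
    have := MA.DD_ge b ε R (n := n) f x he (Nat.zero_le (n + 1))
    rwa [Finset.range_zero, Finset.sum_empty] at this
  refine ⟨?_, ?_⟩
  · intro ζ hζ hζ1 hζ2 hζ0 hζS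
    refine (MA.part1 (n := n) hb.ak hb.even hb.supp hε hε1 hf hc he hS hζ hζ1 hζ2 hζ0 hζS).trans ?_
    refine mul_le_mul_of_nonneg_right (by linarith) (add_nonneg ?_ hDD0)
    exact integral_nonneg fun _ => norm_nonneg _
  · intro H h0 hh0 hh1 hH hH0 hH1 hH2 hHs hHS
    refine (MA.part2 hb.ak hb.even hb.supp hε hε1 hK0 hCZ hK hf hc he
      (fun H' a1 a2 a3 a4 a5 => hZ E f hf hc R (by linarith) n e he x H' a1 a2 a3 a4 a5)
      hS hh0 hh1 hH hH0 hH1 hH2 hHs hHS).trans ?_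
    have h1 : ((1 + K) * CZ + 4) / h0 ≤ ((1 + K) * CZ + 4 + 8) / h0 :=
      div_le_div_of_nonneg_right (by linarith) hh0.le
    have h2 := mul_le_mul_of_nonneg_right h1 hDD0
    linarith

end

end TG
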