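import Pool.Agent.TG.Stmts1
import Pool.Agent.TR.Basic1

/-!
# Module TQ: averaged Taylor polynomials (by helper56)
-/

open MeasureTheory Metric Set TrI
open scoped InnerProductSpace ContDiff

namespace TG

section Poly

variable {d : ℕ} {V : Type*} [NormedAddCommGroup V] [NormedSpace ℝ V]

/-- polynomial maps of degree less than k -/
def PolL (k : ℕ) (g : Sp d → V) : Prop :=
  ContDiff ℝ ∞ g ∧ ∀ x, iteratedFDeriv ℝ k g x = 0

lemma PolL.succ {k : ℕ} {g : Sp d → V} (h : PolL k g) : PolL (k + 1) g := by
  refine ⟨h.1, fun x => ?_⟩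
  have h1 : iteratedFDeriv ℝ k g = fun _ => 0 := funext h.2
  have h2 : fderiv ℝ (iteratedFDeriv ℝ k g) x = 0 := by
    rw [h1]
    exact fderiv_const_apply _
  rw [← norm_eq_zero, ← norm_fderiv_iteratedFDeriv, h2]
  exact norm_zero (E := Sp d →L[ℝ] ContinuousMultilinearMap ℝ (fun _ : Fin k => Sp d) V)

lemma PolL.mono {k l : ℕ} (hkl : k ≤ l) {g : Sp d → V} (h : PolL k g) : PolL l g := by
  induction l, hkl using Nat.le_induction with
  | base => exact h
  | succ l _ ih => exact ih.succ

lemma PolL.sum {ι : Type*} (S : Finset ι) {k : ℕ} {g : ι → Sp d → V}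
    (h : ∀ i ∈ S, PolL k (g i)) : PolL k (fun x => ∑ i ∈ S, g i x) := by
  refine ⟨ContDiff.sum fun i hi => (h i hi).1, fun x => ?_⟩
  rw [iteratedFDeriv_fun_sum_apply (fun i hi =>
    ((h i hi).1.contDiffAt).of_le (by exact_mod_cast le_top))]
  exact Finset.sum_eq_zero fun i hi => (h i hi).2 x

lemma PolL.const (c : V) : PolL 1 (fun _ : Sp d => c) :=
  ⟨contDiff_const, fun x => by rw [iteratedFDeriv_const_of_ne one_ne_zero]; rfl⟩

/-- the coordinates are polynomials of degree one -/
lemma PolL.coord (j : Fin d) : PolL 2 (fun x : Sp d => x j) := by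
  have h1 : (fun x : Sp d => x j) = fun x => (EuclideanSpace.proj j : Sp d →L[ℝ] ℝ) x := rfl
  rw [h1]
  refine ⟨ContinuousLinearMap.contDiff _, fun x => ?_⟩
  rw [← norm_eq_zero, ← norm_iteratedFDeriv_fderiv]
  have h2 : fderiv ℝ (fun x => (EuclideanSpace.proj j : Sp d →L[ℝ] ℝ) x) =
      fun _ => (EuclideanSpace.proj j : Sp d →L[ℝ] ℝ) := by
    funext y
    exact ContinuousLinearMap.fderiv _
  rw [h2, iteratedFDeriv_const_of_ne one_ne_zero]
  simp

lemma PolL.coord_smul {k : ℕ} {g : Sp d → V} (h : PolL k g) (j : Fin d) :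
    PolL (k + 1) (fun x => x j • g x) := by
  have hc := PolL.coord (d := d) j
  refine ⟨hc.1.smul h.1, fun x => ?_⟩
  rw [← norm_eq_zero]
  refine le_antisymm ?_ (norm_nonneg _)
  refine (norm_iteratedFDeriv_smul_le hc.1 h.1 x (n := k + 1) (by exact_mod_cast le_top)).trans
    (le_of_eq ?_)
  refine Finset.sum_eq_zero fun i hi => ?_
  rcases Nat.lt_or_ge i 2 with h2 | h2
  · have : iteratedFDeriv ℝ (k + 1 - i) g x = 0 := (h.mono (by omega)).2 x
    rw [this, norm_zero, mul_zero]
  · have : iteratedFDeriv ℝ i (fun x : Sp d => x j) x = 0 := (hc.mono h2).2 x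
    rw [this, norm_zero, mul_zero, zero_mul]

lemma PolL.monomial {ι : Type*} (S : Finset ι) (f : ι → Fin d) (c : V) :
    PolL (S.card + 1) (fun x : Sp d => (∏ i ∈ S, x (f i)) • c) := by
  classical
  induction S using Finset.induction_on with
  | empty => simpa using PolL.const (d := d) c
  | insert a S ha ih =>
    have h1 := ih.coord_smul (f a)
    rw [Finset.card_insert_of_notMem ha]
    have h2 : (fun x : Sp d => (∏ i ∈ insert a S, x (f i)) • c) =
        fun x => x (f a) • ((∏ i ∈ S, x (f i)) • c) := by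
      funext x
      rw [Finset.prod_insert ha, mul_smul]
    rw [h2]
    exact h1

end Poly

section Taylor

variable {E V : Type*} [NormedAddCommGroup E] [NormedSpace ℝ E] [NormedAddCommGroup V]
  [NormedSpace ℝ V]

/-- derivatives along a line -/
lemma iteratedDeriv_line {u : E → V} (hu : ContDiff ℝ ∞ u) (y v : E) (k : ℕ) :
    ∀ t, iteratedDeriv k (fun t : ℝ => u (y + t • v)) t =
      iteratedFDeriv ℝ k u (y + t • v) (fun _ => v) := by
  induction k with
  | zero => intro t; simp
  | succ k ih =>
    intro t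
    have h1 : iteratedDeriv k (fun t : ℝ => u (y + t • v)) =
        fun t => iteratedFDeriv ℝ k u (y + t • v) (fun _ => v) := funext ih
    rw [iteratedDeriv_succ, h1]
    have h2 : Differentiable ℝ (iteratedFDeriv ℝ k u) :=
      hu.differentiable_iteratedFDeriv (by exact_mod_cast ENat.natCast_lt_top k)
    have h3 : HasDerivAt (fun t : ℝ => y + t • v) v t := by
      simpa using ((hasDerivAt_id t).smul_const v).const_add y
    have h4 := (h2 (y + t • v)).hasFDerivAt.comp_hasDerivAt t h3
    have h5 := ((ContinuousMultilinearMap.apply ℝ (fun _ : Fin k => E) V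
      (fun _ => v)).hasFDerivAt).comp_hasDerivAt t h4
    have h6 : deriv (fun t : ℝ => iteratedFDeriv ℝ k u (y + t • v) (fun _ => v)) t =
        (fderiv ℝ (iteratedFDeriv ℝ k u) (y + t • v) v) (fun _ => v) := h5.deriv
    rw [h6, iteratedFDeriv_succ_apply_left]
    rfl

/-- a function whose derivative of order n+1 vanishes is its Taylor polynomial -/
lemma eq_taylor {u : E → V} (hu : ContDiff ℝ ∞ u) {n : ℕ}
    (h : ∀ x, iteratedFDeriv ℝ (n + 1) u x = 0) (x y : E) :
    ∑ k ∈ Finset.range (n + 1), ((Nat.factorial k : ℝ)⁻¹ •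
      iteratedFDeriv ℝ k u y (fun _ => x - y)) = u x := by
  set g : ℝ → V := fun t => u (y + t • (x - y)) with hg
  have hgc : ContDiff ℝ ∞ g := hu.comp (contDiff_const.add (contDiff_id.smul contDiff_const))
  have hD := iteratedDeriv_line hu y (x - y)
  have hW : ∀ (k : ℕ), ∀ t ∈ Icc (0 : ℝ) 1, iteratedDerivWithin k g (Icc 0 1) t =
      iteratedFDeriv ℝ k u (y + t • (x - y)) (fun _ => x - y) := by
    intro k t ht
    rw [iteratedDerivWithin_eq_iteratedDeriv (uniqueDiffOn_Icc zero_lt_one)
      (hgc.contDiffAt.of_le (by exact_mod_cast le_top)) ht, hD]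
  have h1 := taylor_mean_remainder_bound (f := g) (a := 0) (b := 1) (C := 0) (x := 1) (n := n)
    zero_le_one ((hgc.of_le (by exact_mod_cast le_top)).contDiffOn) (by simp) (by
      intro t ht
      rw [hW _ t ht, h]
      simp)
  have h2 : g 1 = taylorWithinEval g n (Icc 0 1) 0 1 := by
    rw [← sub_eq_zero, ← norm_eq_zero]
    refine le_antisymm (h1.trans (by simp)) (norm_nonneg _)
  have h3 : g 1 = u x := by
    rw [hg]
    simp
  rw [← h3, h2, taylor_within_apply]
  refine Finset.sum_congr rfl fun k _ => ?_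
  rw [hW k 0 (by simp)]
  simp

end Taylor

theorem stmtTQ : StmtTQ := by
  intro d V _ _ _ n u hd hu c r hr
  classical
  have : CompleteSpace V := FiniteDimensional.complete ℝ V
  -- the coefficients
  set e : Fin d → Sp d := fun j => EuclideanSpace.single j (1 : ℝ) with he
  set hh : (k : ℕ) → (Fin k → Fin d) → Finset (Fin k) → Sp d → V := fun k f S z =>
    bk d z • (((Nat.factorial k : ℝ)⁻¹ * ∏ i ∈ Finset.univ \ S, (-(c + r • z) (f i))) •
      iteratedFDeriv ℝ k u (c + r • z) (fun i => e (f i))) with hhh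
  have key : ∀ x z : Sp d, bk d z • ∑ k ∈ Finset.range (n + 1),
      ((Nat.factorial k : ℝ)⁻¹ • iteratedFDeriv ℝ k u (c + r • z) (fun _ => x - (c + r • z))) =
      ∑ k ∈ Finset.range (n + 1), ∑ f : Fin k → Fin d, ∑ S ∈ Finset.univ.powerset,
        (∏ i ∈ S, x (f i)) • hh k f S z := by
    intro x z
    rw [Finset.smul_sum]
    refine Finset.sum_congr rfl fun k _ => ?_
    have h1 : (fun _ : Fin k => x - (c + r • z)) =
        fun _ => ∑ j : Fin d, (x - (c + r • z)) j • e j := by
      funext i
      ext l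
      rw [WithLp.ofLp_sum, Finset.sum_apply]
      simp [he]
    rw [h1, ContinuousMultilinearMap.map_sum, Finset.smul_sum, Finset.smul_sum]
    refine Finset.sum_congr rfl fun f _ => ?_
    have h2 := (iteratedFDeriv ℝ k u (c + r • z)).map_smul_univ
      (fun i => (x - (c + r • z)) (f i)) (fun i => e (f i))
    rw [h2]
    have h3 : ∏ i : Fin k, (x - (c + r • z)) (f i) =
        ∑ S ∈ Finset.univ.powerset, (∏ i ∈ S, x (f i)) *
          ∏ i ∈ Finset.univ \ S, (-(c + r • z) (f i)) := by
      rw [← Finset.prod_add]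
      refine Finset.prod_congr rfl fun i _ => ?_
      simp [sub_eq_add_neg]
    rw [h3, Finset.sum_smul, Finset.smul_sum, Finset.smul_sum]
    refine Finset.sum_congr rfl fun S _ => ?_
    simp only [hhh, smul_smul]
    congr 1
    ring
  have hint : ∀ k f S, Integrable (hh k f S) := by
    intro k f S
    have hc1 : Continuous fun z : Sp d => c + r • z := by fun_prop
    have hc2 : Continuous fun z : Sp d => iteratedFDeriv ℝ k u (c + r • z) (fun i => e (f i)) :=
      (ContinuousMultilinearMap.apply ℝ (fun _ : Fin k => Sp d) V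
        (fun i => e (f i))).continuous.comp
        ((hu.continuous_iteratedFDeriv (by exact_mod_cast le_top)).comp hc1)
    have hc3 : Continuous fun z : Sp d =>
        (Nat.factorial k : ℝ)⁻¹ * ∏ i ∈ Finset.univ \ S, (-(c + r • z) (f i)) := by
      refine continuous_const.mul (continuous_finsetProd _ fun i _ => ?_)
      fun_prop
    refine Continuous.integrable_of_hasCompactSupport (bk_cont.smul (hc3.smul hc2)) ?_
    exact (bmp d).hasCompactSupport_normed.smul_right
  have hs : ∀ (x : Sp d) (k : ℕ) (f : Fin k → Fin d) (S : Finset (Fin k)),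
      Integrable (fun z => (∏ i ∈ S, x (f i)) • hh k f S z) := fun x k f S => (hint k f S).smul _
  have hATP : ATP n c r u = fun x => ∑ k ∈ Finset.range (n + 1), ∑ f : Fin k → Fin d,
      ∑ S ∈ Finset.univ.powerset, (∏ i ∈ S, x (f i)) • ∫ z, hh k f S z := by
    funext x
    unfold ATP
    rw [integral_congr_ae (Filter.Eventually.of_forall (key x))]
    rw [integral_finsetSum _ (fun k _ => integrable_finsetSum _ fun f _ =>
      integrable_finsetSum _ fun S _ => hs x k f S)]
    refine Finset.sum_congr rfl fun k _ => ?_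
    rw [integral_finsetSum _ (fun f _ => integrable_finsetSum _ fun S _ => hs x k f S)]
    refine Finset.sum_congr rfl fun f _ => ?_
    rw [integral_finsetSum _ (fun S _ => hs x k f S)]
    refine Finset.sum_congr rfl fun S _ => ?_
    rw [integral_smul]
  have hPol : PolL (n + 1) (ATP n c r u) := by
    rw [hATP]
    refine PolL.sum _ fun k hk => PolL.sum _ fun f _ => PolL.sum _ fun S _ => ?_
    refine (PolL.monomial S f _).mono ?_
    have h1 : S.card ≤ k := by simpa using Finset.card_le_univ S
    have h2 := Finset.mem_range.mp hk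
    omega
  refine ⟨hPol.1, hPol.2, fun h => ?_⟩
  funext x
  unfold ATP
  have h1 : ∀ z : Sp d, bk d z • ∑ k ∈ Finset.range (n + 1),
      ((Nat.factorial k : ℝ)⁻¹ • iteratedFDeriv ℝ k u (c + r • z) (fun _ => x - (c + r • z))) =
      bk d z • u x := fun z => by rw [eq_taylor hu h x (c + r • z)]
  rw [integral_congr_ae (Filter.Eventually.of_forall h1), integral_smul_const, bk_int, one_smul]

end TG
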