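import Pool.Agent.TG.Stmts2
import Pool.Agent.TG.MA
import Pool.Agent.TG.TQ
import Pool.Agent.TR.A0

/-!
# Module SM, tools: functions with bounded derivatives, cut-offs
-/

open MeasureTheory Metric Set TrI Filter
open scoped InnerProductSpace ContDiff Topology

set_option linter.unusedSectionVars false

namespace TG

noncomputable section

namespace SMm

section BF

variable {G G' F F' : Type*} [NormedAddCommGroup G] [NormedSpace ℝ G]
  [NormedAddCommGroup G'] [NormedSpace ℝ G'] [NormedAddCommGroup F] [NormedSpace ℝ F]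
  [NormedAddCommGroup F'] [NormedSpace ℝ F']

/-- functions with all derivatives up to order J bounded by N -/
structure BF (J : ℕ) (N : ℝ) (g : G → F) : Prop where
  smooth : ContDiff ℝ J g
  bd : ∀ j ≤ J, ∀ x, ‖iteratedFDeriv ℝ j g x‖ ≤ N

lemma BF.nonneg {J : ℕ} {N : ℝ} {g : G → F} (h : BF J N g) : 0 ≤ N :=
  (norm_nonneg _).trans (h.bd 0 (Nat.zero_le J) 0)

lemma BF.norm_le {J : ℕ} {N : ℝ} {g : G → F} (h : BF J N g) (x : G) : ‖g x‖ ≤ N := by
  have := h.bd 0 (Nat.zero_le J) x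
  rwa [norm_iteratedFDeriv_zero] at this

lemma BF.mono {J : ℕ} {N N' : ℝ} {g : G → F} (h : BF J N g) (hN : N ≤ N') : BF J N' g :=
  ⟨h.smooth, fun j hj x => (h.bd j hj x).trans hN⟩

lemma BF.le {J J' : ℕ} {N : ℝ} {g : G → F} (h : BF J N g) (hJ : J' ≤ J) : BF J' N g :=
  ⟨h.smooth.of_le (by exact_mod_cast hJ), fun j hj x => h.bd j (hj.trans hJ) x⟩

lemma BF.mul {J : ℕ} {N N' : ℝ} {φ ψ : G → ℝ} (h : BF J N φ) (h' : BF J N' ψ) :
    BF J (2 ^ J * (N * N')) (fun x => φ x * ψ x) where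
  smooth := h.smooth.mul h'.smooth
  bd := by
    intro j hj x
    have h0 := h.nonneg
    have h0' := h'.nonneg
    refine (norm_iteratedFDeriv_mul_le h.smooth h'.smooth x (n := j) (by exact_mod_cast hj)).trans ?_
    have h1 : ∑ i ∈ Finset.range (j + 1), (j.choose i : ℝ) * ‖iteratedFDeriv ℝ i φ x‖ *
        ‖iteratedFDeriv ℝ (j - i) ψ x‖ ≤ ∑ i ∈ Finset.range (j + 1), (j.choose i : ℝ) * N * N' := by
      refine Finset.sum_le_sum fun i hi => ?_
      have hi' : i ≤ j := Nat.lt_succ_iff.mp (Finset.mem_range.mp hi)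
      have := h.bd i (hi'.trans hj) x
      have := h'.bd (j - i) ((Nat.sub_le _ _).trans hj) x
      gcongr
    refine h1.trans ?_
    rw [← Finset.sum_mul, ← Finset.sum_mul]
    have h2 : ∑ i ∈ Finset.range (j + 1), (j.choose i : ℝ) = 2 ^ j := by
      exact_mod_cast Nat.sum_range_choose j
    rw [h2, mul_assoc]
    exact mul_le_mul_of_nonneg_right (pow_le_pow_right₀ (by norm_num) hj) (mul_nonneg h0 h0')

lemma BF.add {J : ℕ} {N N' : ℝ} {φ ψ : G → F} (h : BF J N φ) (h' : BF J N' ψ) :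
    BF J (N + N') (fun x => φ x + ψ x) where
  smooth := h.smooth.add h'.smooth
  bd := by
    intro j hj x
    have e : iteratedFDeriv ℝ j (fun x => φ x + ψ x) x =
        iteratedFDeriv ℝ j φ x + iteratedFDeriv ℝ j ψ x := by
      have h1 : ContDiffAt ℝ j φ x := (h.smooth.of_le (by exact_mod_cast hj)).contDiffAt
      have h2 : ContDiffAt ℝ j ψ x := (h'.smooth.of_le (by exact_mod_cast hj)).contDiffAt
      exact iteratedFDeriv_add_apply h1 h2
    rw [e]
    exact (norm_add_le _ _).trans (add_le_add (h.bd j hj x) (h'.bd j hj x))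

lemma BF.const_mul {J : ℕ} {N : ℝ} {φ : G → ℝ} (h : BF J N φ) (a : ℝ) :
    BF J (|a| * N) (fun x => a * φ x) where
  smooth := contDiff_const.mul h.smooth
  bd := by
    intro j hj x
    have e : iteratedFDeriv ℝ j (fun x => a * φ x) x = a • iteratedFDeriv ℝ j φ x := by
      have h1 : ContDiffAt ℝ j φ x := (h.smooth.of_le (by exact_mod_cast hj)).contDiffAt
      exact iteratedFDeriv_const_smul_apply' (a := a) h1
    rw [e, norm_smul, Real.norm_eq_abs]
    exact mul_le_mul_of_nonneg_left (h.bd j hj x) (abs_nonneg a)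

lemma BF.comp_aff {J : ℕ} {N : ℝ} {g : G → F} (h : BF J N g) (A : G' →L[ℝ] G) (hA : ‖A‖ ≤ 1)
    (c : G) : BF J N (fun x => g (A x + c)) where
  smooth := h.smooth.comp (A.contDiff.add contDiff_const)
  bd := by
    intro j hj x
    have hs : ContDiff ℝ J (fun z => g (z + c)) := h.smooth.comp (contDiff_id.add contDiff_const)
    have e := A.iteratedFDeriv_comp_right hs x (i := j) (by exact_mod_cast hj)
    have e2 : ((fun z => g (z + c)) ∘ A) = fun x => g (A x + c) := rfl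
    rw [e2] at e
    rw [e]
    refine (ContinuousMultilinearMap.norm_compContinuousLinearMap_le _ _).trans ?_
    rw [Finset.prod_const, iteratedFDeriv_comp_add_right]
    calc ‖iteratedFDeriv ℝ j g (A x + c)‖ * ‖A‖ ^ _ ≤ N * 1 :=
          mul_le_mul (h.bd j hj _) (pow_le_one₀ (norm_nonneg _) hA) (by positivity) h.nonneg
      _ = N := mul_one N

lemma BF.smul_const {J : ℕ} {N : ℝ} {φ : G → ℝ} (h : BF J N φ) (w : F) (hw : ‖w‖ ≤ 1) :
    BF J N (fun x => φ x • w) where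
  smooth := h.smooth.smul contDiff_const
  bd := by
    intro j hj x
    have h1 : ContDiffAt ℝ j φ x := (h.smooth.of_le (by exact_mod_cast hj)).contDiffAt
    have e := ContinuousLinearMap.iteratedFDeriv_comp_left
      (ContinuousLinearMap.smulRight (1 : ℝ →L[ℝ] ℝ) w) h1 (i := j) le_rfl
    have e2 : (fun x => φ x • w) = (ContinuousLinearMap.smulRight (1 : ℝ →L[ℝ] ℝ) w) ∘ φ := by
      funext y; simp
    rw [e2, e]
    refine (ContinuousLinearMap.norm_compContinuousMultilinearMap_le _ _).trans ?_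
    rw [ContinuousLinearMap.norm_smulRight_apply]
    have h2 : ‖(1 : ℝ →L[ℝ] ℝ)‖ ≤ 1 := ContinuousLinearMap.norm_id_le
    calc ‖(1 : ℝ →L[ℝ] ℝ)‖ * ‖w‖ * ‖iteratedFDeriv ℝ j φ x‖ ≤ 1 * 1 * N := by
          have := h.bd j hj x
          gcongr
      _ = N := by ring

lemma BF.fderiv_apply {J : ℕ} {N : ℝ} {φ : G → ℝ} (h : BF (J + 1) N φ) (w : G) (hw : ‖w‖ ≤ 1) :
    BF J N (fun x => fderiv ℝ φ x w) where
  smooth := (h.smooth.fderiv_right (m := J) (by norm_cast)).clm_apply contDiff_const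
  bd := by
    intro j hj x
    have hs : ContDiff ℝ J (fderiv ℝ φ) := h.smooth.fderiv_right (m := J) (by norm_cast)
    have h1 := norm_iteratedFDeriv_clm_apply_const (f := fderiv ℝ φ) (c := w) (x := x)
      (n := j) ((hs.of_le (by exact_mod_cast hj)).contDiffAt) le_rfl
    refine h1.trans ?_
    rw [norm_iteratedFDeriv_fderiv]
    calc ‖w‖ * ‖iteratedFDeriv ℝ (j + 1) φ x‖ ≤ 1 * N :=
          mul_le_mul hw (h.bd (j + 1) (by omega) x) (norm_nonneg _) (by norm_num)
      _ = N := one_mul N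

lemma BF.of_compact {J : ℕ} {g : G → F} (hg : ContDiff ℝ J g) (hc : HasCompactSupport g) :
    ∃ N : ℝ, 0 < N ∧ BF J N g := by
  have h1 : ∀ j : ℕ, ∃ N : ℝ, j ≤ J → ∀ x, ‖iteratedFDeriv ℝ j g x‖ ≤ N := by
    intro j
    by_cases hj : j ≤ J
    · have h2 : Continuous (iteratedFDeriv ℝ j g) :=
        hg.continuous_iteratedFDeriv (by exact_mod_cast hj)
      obtain ⟨N, hN⟩ := (hc.iteratedFDeriv (𝕜 := ℝ) j).exists_bound_of_continuous h2
      exact ⟨N, fun _ => hN⟩
    · exact ⟨0, fun h => absurd h hj⟩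
  choose N hN using h1
  refine ⟨1 + ∑ j ∈ Finset.range (J + 1), |N j|, by positivity, hg, fun j hj x => ?_⟩
  have h3 : |N j| ≤ ∑ j ∈ Finset.range (J + 1), |N j| :=
    Finset.single_le_sum (f := fun j => |N j|) (fun i _ => abs_nonneg _)
      (Finset.mem_range.2 (by omega))
  linarith [hN j hj x, le_abs_self (N j)]

lemma BF.const {J : ℕ} (c : ℝ) : BF J |c| (fun _ : G => c) where
  smooth := contDiff_const
  bd := by
    intro j _ x
    rcases Nat.eq_zero_or_pos j with rfl | hj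
    · rw [norm_iteratedFDeriv_zero, Real.norm_eq_abs]
    · rw [iteratedFDeriv_const_of_ne (by omega)]
      simp

end BF

/-! ## The cut-off -/

section cut

variable {G : Type*} [NormedAddCommGroup G] [InnerProductSpace ℝ G]

/-- the cut-off on an inner product space -/
def sT (R : ℝ) (x : G) : ℝ := Real.smoothTransition (R + 1 - ‖x‖)

lemma sT_nonneg (R : ℝ) (x : G) : 0 ≤ sT R x := Real.smoothTransition.nonneg _

lemma sT_le_one (R : ℝ) (x : G) : sT R x ≤ 1 := Real.smoothTransition.le_one _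

lemma sT_one {R : ℝ} {x : G} (h : ‖x‖ ≤ R) : sT R x = 1 :=
  Real.smoothTransition.one_of_one_le (by linarith)

lemma sT_zero {R : ℝ} {x : G} (h : R + 1 ≤ ‖x‖) : sT R x = 0 :=
  Real.smoothTransition.zero_of_nonpos (by linarith)

lemma sT_ne {R : ℝ} {x : G} (h : sT R x ≠ 0) : ‖x‖ ≤ R + 1 := by
  by_contra h1
  exact h (sT_zero (by linarith))

lemma sT_smooth {R : ℝ} (hR : 0 < R) : ContDiff ℝ ∞ (sT R : G → ℝ) := by
  rw [contDiff_iff_contDiffAt]
  intro x
  by_cases hx : x = 0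
  · subst hx
    have h1 : (sT R : G → ℝ) =ᶠ[𝓝 0] fun _ => 1 := by
      filter_upwards [ball_mem_nhds (0 : G) hR] with y hy
      exact sT_one (by simpa using (mem_ball_zero_iff.1 hy).le)
    exact (contDiffAt_const (c := (1 : ℝ))).congr_of_eventuallyEq h1
  · have h1 : ContDiffAt ℝ ∞ (fun y : G => R + 1 - ‖y‖) x :=
      contDiffAt_const.sub (contDiffAt_norm ℝ hx)
    exact (Real.smoothTransition.contDiff (n := ⊤)).contDiffAt.comp x h1

lemma sT_cs [ProperSpace G] (R : ℝ) : HasCompactSupport (sT R : G → ℝ) := by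
  refine HasCompactSupport.intro (isCompact_closedBall (0 : G) (R + 1)) fun x hx => ?_
  refine sT_zero ?_
  simp only [mem_closedBall, dist_zero_right, not_le] at hx
  exact hx.le

lemma sT_BF [ProperSpace G] (J : ℕ) {R : ℝ} (hR : 0 < R) :
    ∃ N : ℝ, 0 < N ∧ BF J N (sT R : G → ℝ) :=
  BF.of_compact ((sT_smooth hR).of_le (by exact_mod_cast le_top)) (sT_cs R)

end cut

lemma st_lip : ∃ N : ℝ, 0 < N ∧ ∀ a b : ℝ, a ≤ 2 → b ≤ 2 →
    |Real.smoothTransition a - Real.smoothTransition b| ≤ N * |a - b| := by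
  obtain ⟨N, hN, h⟩ := sT_BF (G := ℝ) 1 (R := 1) one_pos
  refine ⟨N, hN, fun a b ha hb => ?_⟩
  have h1 : ∀ x : ℝ, x ≤ 2 → Real.smoothTransition x = sT (G := ℝ) 1 (2 - x) := by
    intro x hx
    unfold sT
    rw [Real.norm_of_nonneg (by linarith)]
    congr 1; ring
  have h2 : ∀ x ∈ (univ : Set ℝ), ‖fderiv ℝ (sT (G := ℝ) 1) x‖ ≤ N := by
    intro x _
    have := h.bd 1 le_rfl x
    rwa [norm_iteratedFDeriv_one] at this
  have h3 := Convex.norm_image_sub_le_of_norm_fderiv_le (𝕜 := ℝ) (f := sT (G := ℝ) 1)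
    (s := univ) (x := 2 - b) (y := 2 - a) (C := N)
    (fun x _ => (h.smooth.differentiable (by norm_num)).differentiableAt) h2 convex_univ
    (mem_univ _) (mem_univ _)
  rw [h1 a ha, h1 b hb]
  rw [Real.norm_eq_abs, Real.norm_eq_abs] at h3
  refine h3.trans (le_of_eq ?_)
  rw [show (2 : ℝ) - a - (2 - b) = -(a - b) by ring, abs_neg]

/-! ## Tangential part -/

variable {d : ℕ}

/-- the tangential part as a continuous linear map -/
def tg (ν : Sp d) : Sp d →L[ℝ] Sp d :=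
  ContinuousLinearMap.id ℝ (Sp d) - (innerSL ℝ ν).smulRight ν

lemma tg_apply (ν w : Sp d) : tg ν w = tang ν w := by
  simp [tg, tang]

lemma tang_sq {ν : Sp d} (hν : ‖ν‖ = 1) (w : Sp d) : ‖tang ν w‖ ^ 2 = ‖w‖ ^ 2 - ⟪ν, w⟫_ℝ ^ 2 := by
  unfold tang
  rw [@norm_sub_sq_real, inner_smul_right, norm_smul, hν, mul_one, real_inner_comm w ν,
    Real.norm_eq_abs, sq_abs]
  ring

lemma tang_le {ν : Sp d} (hν : ‖ν‖ = 1) (w : Sp d) : ‖tang ν w‖ ≤ ‖w‖ := by
  have h := tang_sq hν w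
  by_contra h1
  have h2 := sq_nonneg ⟪ν, w⟫_ℝ
  have h3 := norm_nonneg w
  nlinarith

lemma tg_norm {ν : Sp d} (hν : ‖ν‖ = 1) : ‖tg ν‖ ≤ 1 :=
  ContinuousLinearMap.opNorm_le_bound _ zero_le_one fun w => by
    rw [tg_apply, one_mul]; exact tang_le hν w

lemma tang_sub (ν v w : Sp d) : tang ν (v - w) = tang ν v - tang ν w := by
  rw [← tg_apply, ← tg_apply, ← tg_apply, map_sub]

lemma tang_tang {ν : Sp d} (hν : ‖ν‖ = 1) (w : Sp d) : tang ν (tang ν w) = tang ν w := by
  unfold tang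
  rw [inner_sub_right, inner_smul_right, real_inner_self_eq_norm_sq, hν]
  simp

lemma norm_le_ht {ν : Sp d} (hν : ‖ν‖ = 1) (c : ℝ) (y : Sp d) :
    ‖y‖ ≤ ‖tang ν y‖ + |ht ν c y| + |c| := by
  have h : y = tang ν y + (ht ν c y + c) • ν := by
    unfold tang ht
    simp
  calc ‖y‖ = ‖tang ν y + (ht ν c y + c) • ν‖ := by rw [← h]
    _ ≤ ‖tang ν y‖ + |ht ν c y + c| := by
        refine (norm_add_le _ _).trans ?_
        rw [norm_smul, hν, mul_one, Real.norm_eq_abs]
    _ ≤ _ := by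
        have := abs_add_le (ht ν c y) c
        linarith

lemma innerSL_norm {ν : Sp d} (hν : ‖ν‖ = 1) : ‖innerSL ℝ ν‖ ≤ 1 := by
  rw [innerSL_apply_norm, hν]

/-- functions of the height -/
lemma BF.comp_ht {J : ℕ} {N : ℝ} {g : ℝ → ℝ} (h : BF J N g) {ν : Sp d} (hν : ‖ν‖ = 1) (c : ℝ) :
    BF J N (fun y => g (ht ν c y)) := by
  have h1 := h.comp_aff (innerSL ℝ ν) (innerSL_norm hν) (-c)
  exact h1

lemma cu1_eq (ρ z : ℝ) : cu1 ρ z = sT ρ z := rfl

lemma zR_eq (ρ : ℝ) (y : Sp d) : zR ρ y = sT ρ y := rfl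

end SMm

end

end TG
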