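import Pool.Agent.TG.Stmts12
import Pool.Agent.TG.NN
import Pool.Agent.TG.PF
import Pool.Agent.TG.SMa

/-!
# Module AB, part 1: bounds for the truncated Newton potential (helper72)

The derivatives are moved to the kernel.
-/

open MeasureTheory Metric Set TrI Filter
open scoped InnerProductSpace ContDiff Topology

namespace TG

noncomputable section

namespace AB

variable {d : ℕ}

lemma ts_out {ψ : Sp d → ℝ} (hs : tsupport ψ ⊆ closedBall 0 1) {z : Sp d} (hz : 1 < ‖z‖) :
    ψ z = 0 := by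
  by_contra h
  have h1 := hs (subset_tsupport ψ (Function.mem_support.2 h))
  rw [mem_closedBall, dist_zero_right] at h1
  linarith

lemma ts_cs {ψ : Sp d → ℝ} (hs : tsupport ψ ⊆ closedBall 0 1) : HasCompactSupport ψ :=
  (isCompact_closedBall (0 : Sp d) 1).of_isClosed_subset (isClosed_tsupport ψ) hs

lemma ts_of {ψ : Sp d → ℝ} (hs : ∀ x, 1 ≤ ‖x‖ → ψ x = 0) : tsupport ψ ⊆ closedBall 0 1 := by
  refine closure_minimal (fun z hz => ?_) isClosed_closedBall
  rw [mem_closedBall, dist_zero_right]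
  by_contra h
  push Not at h
  exact hz (hs z h.le)

/-- one integration by parts -/
lemma ibp {ψ G : Sp d → ℝ} (hψ : ContDiff ℝ 1 ψ) (hc : HasCompactSupport ψ)
    (hG : ContDiff ℝ 1 G) {s : ℝ} (hs : 0 < s) (x v : Sp d) :
    avk ψ s (fun z => fderiv ℝ G z v) x = -(1 / s) * avk (fun z => fderiv ℝ ψ z v) s G x := by
  have hcG : Continuous (fderiv ℝ G) := hG.continuous_fderiv one_ne_zero
  have hcψ : Continuous (fderiv ℝ ψ) := hψ.continuous_fderiv one_ne_zero
  set H : Sp d → ℝ := fun z => G (x + s • z) with hH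
  have hHc : ContDiff ℝ 1 H := hG.comp (by fun_prop : ContDiff ℝ 1 fun z : Sp d => x + s • z)
  have hfH : ∀ z, fderiv ℝ H z v = s * fderiv ℝ G (x + s • z) v := by
    intro z
    have h1 : HasFDerivAt G (fderiv ℝ G (x + s • z)) (x + s • z) :=
      (hG.differentiable one_ne_zero _).hasFDerivAt
    have h2 : HasFDerivAt (fun z : Sp d => x + s • z) (s • ContinuousLinearMap.id ℝ (Sp d)) z :=
      ((hasFDerivAt_id z).const_smul s).const_add x
    have h3 : fderiv ℝ H z = (fderiv ℝ G (x + s • z)).comp (s • ContinuousLinearMap.id ℝ (Sp d)) :=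
      (h1.comp z h2).fderiv
    rw [h3]
    simp
  have h1 : ∫ z, ψ z * fderiv ℝ H z v = - ∫ z, fderiv ℝ ψ z v * H z := by
    refine integral_mul_fderiv_eq_neg_fderiv_mul_of_integrable ?_ ?_ ?_ ?_ ?_
    · exact Continuous.integrable_of_hasCompactSupport
        ((hcψ.clm_apply continuous_const).mul hHc.continuous)
        (HasCompactSupport.mul_right (hc.fderiv_apply ℝ v))
    · exact Continuous.integrable_of_hasCompactSupport
        (hψ.continuous.mul ((hHc.continuous_fderiv one_ne_zero).clm_apply continuous_const))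
        hc.mul_right
    · exact Continuous.integrable_of_hasCompactSupport (hψ.continuous.mul hHc.continuous)
        hc.mul_right
    · exact fun z _ => hψ.differentiable one_ne_zero z
    · exact fun z _ => hHc.differentiable one_ne_zero z
  have h2 : ∫ z, ψ z * fderiv ℝ H z v = s * avk ψ s (fun z => fderiv ℝ G z v) x := by
    unfold avk
    rw [← integral_const_mul]
    refine integral_congr_ae (Eventually.of_forall fun z => ?_)
    simp only [hfH, smul_eq_mul]
    ring
  have h3 : ∫ z, fderiv ℝ ψ z v * H z = avk (fun z => fderiv ℝ ψ z v) s G x := rfl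
  rw [h2, h3] at h1
  field_simp
  linarith

/-- derivatives of directional derivatives -/
lemma iter_fd {k : ℕ} {g : Sp d → ℝ} (hg : ContDiff ℝ (k + 1 : ℕ) g) (v : Sp d) (x : Sp d)
    (h : Fin k → Sp d) :
    iteratedFDeriv ℝ k (fun z => fderiv ℝ g z v) x h =
      iteratedFDeriv ℝ (k + 1) g x (Fin.snoc h v) := by
  have h1 : ContDiff ℝ k (fderiv ℝ g) := hg.fderiv_right (by norm_cast)
  rw [iteratedFDeriv_succ_apply_right, iteratedFDeriv_clm_apply_const_apply h1 le_rfl]
  simp

lemma iter_fd_left {k : ℕ} {g : Sp d → ℝ} (hg : ContDiff ℝ (k + 1 : ℕ) g) (x : Sp d)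
    (h : Fin (k + 1) → Sp d) :
    iteratedFDeriv ℝ (k + 1) g x h =
      fderiv ℝ (fun z => iteratedFDeriv ℝ k g z (Fin.tail h)) x (h 0) := by
  have h1 : DifferentiableAt ℝ (iteratedFDeriv ℝ k g) x :=
    (hg.iteratedFDeriv_right (m := 1) (i := k) (by exact_mod_cast (by omega : 1 + k ≤ k + 1))).differentiable
      one_ne_zero x
  rw [iteratedFDeriv_succ_apply_left]
  have h2 : HasFDerivAt (fun z => iteratedFDeriv ℝ k g z (Fin.tail h))
      ((ContinuousMultilinearMap.apply ℝ (fun _ : Fin k => Sp d) ℝ (Fin.tail h)).comp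
        (fderiv ℝ (iteratedFDeriv ℝ k g) x)) x :=
    (ContinuousMultilinearMap.apply ℝ (fun _ : Fin k => Sp d) ℝ
      (Fin.tail h)).hasFDerivAt.comp x h1.hasFDerivAt
  rw [h2.fderiv]
  rfl

/-- derivatives of g are moved to the kernel -/
lemma key (k : ℕ) : ∀ (ψ : Sp d → ℝ), ContDiff ℝ k ψ → tsupport ψ ⊆ closedBall 0 1 →
    ∀ B : ℝ, (∀ z, ‖iteratedFDeriv ℝ k ψ z‖ ≤ B) → ∀ g : Sp d → ℝ, ContDiff ℝ ∞ g →
    ∀ s : ℝ, 0 < s → ∀ (x : Sp d) (h : Fin k → Sp d),
      |avk ψ s (fun z => iteratedFDeriv ℝ k g z h) x| ≤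
        (1 / s) ^ k * B * (∏ i, ‖h i‖) * ∫ z in closedBall (0 : Sp d) 1, |g (x + s • z)| := by
  induction k with
  | zero =>
    intro ψ hψ hs B hB g hg s hs0 x h
    have hgc : Continuous (fun z : Sp d => |g (x + s • z)|) :=
      (hg.continuous.comp (by fun_prop : Continuous fun z : Sp d => x + s • z)).abs
    simp only [pow_zero, one_mul, Finset.univ_eq_empty, Finset.prod_empty, mul_one,
      iteratedFDeriv_zero_apply]
    unfold avk
    have h1 : ∫ z, ψ z • g (x + s • z) = ∫ z in closedBall (0 : Sp d) 1, ψ z • g (x + s • z) := by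
      rw [setIntegral_eq_integral_of_forall_compl_eq_zero]
      intro z hz
      rw [mem_closedBall, dist_zero_right, not_le] at hz
      rw [ts_out hs hz, zero_smul]
    rw [h1, ← Real.norm_eq_abs, ← integral_const_mul]
    refine norm_integral_le_of_norm_le ?_ (Eventually.of_forall fun z => ?_)
    · exact (continuous_const.mul hgc).continuousOn.integrableOn_compact
        (isCompact_closedBall _ _)
    · rw [norm_smul, Real.norm_eq_abs, Real.norm_eq_abs]
      have h2 := hB z
      rw [norm_iteratedFDeriv_zero, Real.norm_eq_abs] at h2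
      exact mul_le_mul_of_nonneg_right h2 (abs_nonneg _)
  | succ k ih =>
    intro ψ hψ hs B hB g hg s hs0 x h
    have hψ1 : ContDiff ℝ 1 ψ := hψ.of_le (by exact_mod_cast (by omega : 1 ≤ k + 1))
    have hB0 : 0 ≤ B := (norm_nonneg _).trans (hB 0)
    set G : Sp d → ℝ := fun z => iteratedFDeriv ℝ k g z (Fin.tail h) with hG
    have hGs : ContDiff ℝ 1 G := by
      have h1 : ContDiff ℝ 1 (iteratedFDeriv ℝ k g) :=
        hg.iteratedFDeriv_right (m := 1) (i := k) (by exact_mod_cast le_top)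
      exact (ContinuousMultilinearMap.apply ℝ (fun _ : Fin k => Sp d) ℝ
        (Fin.tail h)).contDiff.comp h1
    have h1 : (fun z => iteratedFDeriv ℝ (k + 1) g z h) = fun z => fderiv ℝ G z (h 0) :=
      funext fun z => iter_fd_left (hg.of_le (by exact_mod_cast le_top)) z h
    rw [h1, ibp hψ1 (ts_cs hs) hGs hs0, abs_mul, abs_neg, abs_of_pos (by positivity : 0 < 1 / s)]
    have hψ' : ContDiff ℝ k (fun z => fderiv ℝ ψ z (h 0)) :=
      (hψ.fderiv_right (m := k) (by norm_cast)).clm_apply contDiff_const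
    have hs' : tsupport (fun z => fderiv ℝ ψ z (h 0)) ⊆ closedBall 0 1 :=
      (tsupport_fderiv_apply_subset ℝ (h 0)).trans hs
    have hB' : ∀ z, ‖iteratedFDeriv ℝ k (fun z => fderiv ℝ ψ z (h 0)) z‖ ≤ B * ‖h 0‖ := by
      intro z
      refine ContinuousMultilinearMap.opNorm_le_bound (by positivity) fun w => ?_
      rw [iter_fd hψ]
      refine (ContinuousMultilinearMap.le_opNorm _ _).trans ?_
      rw [Fin.prod_univ_castSucc]
      simp only [Fin.snoc_castSucc, Fin.snoc_last]
      calc ‖iteratedFDeriv ℝ (k + 1) ψ z‖ * ((∏ i, ‖w i‖) * ‖h 0‖) ≤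
          B * ((∏ i, ‖w i‖) * ‖h 0‖) := mul_le_mul_of_nonneg_right (hB z) (by positivity)
        _ = B * ‖h 0‖ * ∏ i, ‖w i‖ := by ring
    have h2 := ih _ hψ' hs' _ hB' g hg s hs0 x (Fin.tail h)
    have h3 : ∏ i, ‖h i‖ = ‖h 0‖ * ∏ i, ‖Fin.tail h i‖ := by
      rw [Fin.prod_univ_succ]
      rfl
    calc 1 / s * |avk (fun z => fderiv ℝ ψ z (h 0)) s G x| ≤
        1 / s * ((1 / s) ^ k * (B * ‖h 0‖) * (∏ i, ‖Fin.tail h i‖) *
          ∫ z in closedBall (0 : Sp d) 1, |g (x + s • z)|) :=
          mul_le_mul_of_nonneg_left h2 (by positivity)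
      _ = _ := by rw [h3]; ring

/-- the integral over the support of the kernel -/
lemma int_le {g : Sp d → ℝ} (hg : Continuous g) {N ρ : ℝ} (hN : ∀ y, |g y| ≤ N)
    (hsupp : ∀ y, ρ ≤ ‖y‖ → g y = 0) {s : ℝ} (hs : 0 < s) (x : Sp d) :
    ∫ z in closedBall (0 : Sp d) 1, |g (x + s • z)| ≤
      (1 / s) ^ d * (volume.real (closedBall (0 : Sp d) ρ) * N) := by
  have hc : HasCompactSupport g := by
    refine HasCompactSupport.intro (isCompact_closedBall (0 : Sp d) ρ) fun y hy => ?_
    rw [mem_closedBall, dist_zero_right, not_le] at hy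
    exact hsupp y hy.le
  have hi : Integrable (fun z : Sp d => |g z|) :=
    hg.abs.integrable_of_hasCompactSupport (hc.comp_left abs_zero)
  have h1 : Integrable (fun z : Sp d => |g (x + s • z)|) := by
    have h2 : Integrable (fun z : Sp d => |g (x + z)|) := hi.comp_add_left x
    exact h2.comp_smul hs.ne'
  have h2 : ∫ z, |g (x + s • z)| = (1 / s) ^ d * ∫ z, |g z| := by
    rw [Measure.integral_comp_smul_of_nonneg volume (fun z : Sp d => |g (x + z)|) s (hR := hs.le),
      finrank_euclideanSpace_fin, integral_add_left_eq_self (fun z : Sp d => |g z|) x, smul_eq_mul]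
    rw [one_div, inv_pow]
  have h3 : ∫ z, |g z| ≤ volume.real (closedBall (0 : Sp d) ρ) * N := by
    have h4 : ∫ z, |g z| = ∫ z in closedBall (0 : Sp d) ρ, |g z| := by
      rw [setIntegral_eq_integral_of_forall_compl_eq_zero]
      intro z hz
      rw [mem_closedBall, dist_zero_right, not_le] at hz
      rw [hsupp z hz.le, abs_zero]
    rw [h4]
    calc ∫ z in closedBall (0 : Sp d) ρ, |g z| ≤ ∫ z in closedBall (0 : Sp d) ρ, N := by
          refine setIntegral_mono hi.integrableOn ?_ hN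
          exact integrableOn_const (isCompact_closedBall _ _).measure_lt_top.ne
      _ = _ := by
          rw [setIntegral_const, smul_eq_mul]
  calc ∫ z in closedBall (0 : Sp d) 1, |g (x + s • z)| ≤ ∫ z, |g (x + s • z)| :=
        setIntegral_le_integral h1 (Eventually.of_forall fun z => abs_nonneg _)
    _ ≤ _ := by
        rw [h2]
        exact mul_le_mul_of_nonneg_left h3 (by positivity)

/-- bound of averages of derivatives -/
lemma key' {k : ℕ} {ψ : Sp d → ℝ} (hψ : ContDiff ℝ k ψ) (hs : tsupport ψ ⊆ closedBall 0 1)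
    {B : ℝ} (hB : ∀ z, ‖iteratedFDeriv ℝ k ψ z‖ ≤ B) {g : Sp d → ℝ} (hg : ContDiff ℝ ∞ g)
    {N ρ : ℝ} (hN : ∀ y, |g y| ≤ N) (hsupp : ∀ y, ρ ≤ ‖y‖ → g y = 0)
    {s : ℝ} (hs0 : 0 < s) (x : Sp d) (h : Fin k → Sp d) :
      |avk ψ s (fun z => iteratedFDeriv ℝ k g z h) x| ≤
        (1 / s) ^ (k + d) * (B * (volume.real (closedBall (0 : Sp d) ρ) * N)) * ∏ i, ‖h i‖ := by
  have hB0 : 0 ≤ B := (norm_nonneg _).trans (hB 0)
  refine (key k ψ hψ hs B hB g hg s hs0 x h).trans ?_
  have h1 := int_le hg.continuous hN hsupp hs0 x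
  calc (1 / s) ^ k * B * (∏ i, ‖h i‖) * ∫ z in closedBall (0 : Sp d) 1, |g (x + s • z)| ≤
      (1 / s) ^ k * B * (∏ i, ‖h i‖) *
        ((1 / s) ^ d * (volume.real (closedBall (0 : Sp d) ρ) * N)) :=
        mul_le_mul_of_nonneg_left h1 (by positivity)
    _ = _ := by rw [pow_add]; ring

end AB

end

end TG
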