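import Pool.Agent.TG.Stmts1

/-!
# Trace inequality, general operators: scaling (module SC)
-/

open MeasureTheory Metric Set TrI
open scoped InnerProductSpace ContDiff

namespace TG

noncomputable section

namespace SC

variable {d : ℕ} {F : Type*} [NormedAddCommGroup F] [NormedSpace ℝ F]

/-! ## derivatives of f(x + t y) -/

lemma itF_aff (k : ℕ) (g : Sp d → F) (x : Sp d) {t : ℝ} (ht : t ≠ 0) (y : Sp d)
    (m : Fin k → Sp d) :
    iteratedFDeriv ℝ k (fun y => g (x + t • y)) y m =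
      t ^ k • iteratedFDeriv ℝ k g (x + t • y) m := by
  set e : Sp d ≃L[ℝ] Sp d := ContinuousLinearEquiv.smulLeft (Units.mk0 t ht) with he
  have hey : ∀ z, e z = t • z := fun z => rfl
  have h1 : (fun y => g (x + t • y)) = (fun y => g (x + y)) ∘ e := by
    funext z
    simp [hey]
  have h2 := e.iteratedFDerivWithin_comp_right (fun y => g (x + y)) (s := univ)
    uniqueDiffOn_univ (x := y) (mem_univ _) k
  rw [preimage_univ, iteratedFDerivWithin_univ, iteratedFDerivWithin_univ] at h2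
  rw [h1, h2, iteratedFDeriv_comp_add_left]
  simp only [ContinuousMultilinearMap.compContinuousLinearMap_apply, ContinuousLinearEquiv.coe_coe,
    hey]
  rw [ContinuousMultilinearMap.map_smul_univ (iteratedFDeriv ℝ k g (x + t • y)) (fun _ => t) m]
  simp

lemma itF_const (k : ℕ) (g : Sp d → ℝ) {a : ℝ} (ha : a ≠ 0) (y : Sp d) (m : Fin k → Sp d) :
    iteratedFDeriv ℝ k (fun y => a * g y) y m = a * iteratedFDeriv ℝ k g y m := by
  set e : ℝ ≃L[ℝ] ℝ := ContinuousLinearEquiv.smulLeft (Units.mk0 a ha) with he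
  have h1 : (fun y => a * g y) = e ∘ g := by
    funext z
    rfl
  rw [h1, e.iteratedFDeriv_comp_left]
  rfl

lemma lap_aff (g : Sp d → ℝ) (x : Sp d) {t : ℝ} (ht : t ≠ 0) (y : Sp d) :
    lap (fun y => g (x + t • y)) y = t ^ 2 * lap g (x + t • y) := by
  unfold lap
  rw [Finset.mul_sum]
  refine Finset.sum_congr rfl fun j _ => ?_
  rw [itF_aff 2 g x ht, smul_eq_mul]

lemma d2_aff (n : Sp d) (g : Sp d → ℝ) (x : Sp d) {t : ℝ} (ht : t ≠ 0) (y : Sp d) :
    d2 n (fun y => g (x + t • y)) y = t ^ 2 * d2 n g (x + t • y) := by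
  unfold d2
  rw [itF_aff 2 g x ht, smul_eq_mul]

lemma lap_const (g : Sp d → ℝ) {a : ℝ} (ha : a ≠ 0) (y : Sp d) :
    lap (fun y => a * g y) y = a * lap g y := by
  unfold lap
  rw [Finset.mul_sum]
  refine Finset.sum_congr rfl fun j _ => ?_
  rw [itF_const 2 g ha]

lemma d2_const (n : Sp d) (g : Sp d → ℝ) {a : ℝ} (ha : a ≠ 0) (y : Sp d) :
    d2 n (fun y => a * g y) y = a * d2 n g y := by
  unfold d2
  rw [itF_const 2 g ha]

lemma fderiv_aff (g : Sp d → F) (x : Sp d) (t : ℝ) (y : Sp d) :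
    fderiv ℝ (fun y => g (x + t • y)) y = t • fderiv ℝ g (x + t • y) := by
  have h1 := fderiv_comp_smul (𝕜 := ℝ) (f := fun y => g (x + y)) (x := y) t
  rw [fderiv_comp_add_left] at h1
  exact h1

lemma gradient_aff (g : Sp d → ℝ) (x : Sp d) (t : ℝ) (y : Sp d) :
    gradient (fun y => g (x + t • y)) y = t • gradient g (x + t • y) := by
  unfold gradient
  rw [fderiv_aff, map_smulₛₗ]
  rfl

lemma tang_smul (n w : Sp d) (t : ℝ) : tang n (t • w) = t • tang n w := by
  unfold tang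
  rw [inner_smul_right, smul_sub, smul_smul]

/-! ## the measure -/

lemma rsm_apply (x : Sp d) {t : ℝ} (ht : 0 < t) (μ : Measure (Sp d)) {S : Set (Sp d)}
    (hS : MeasurableSet S) :
    rsm x t μ S = ENNReal.ofReal (t / t ^ d) * μ ((fun y => x + t • y) '' S) := by
  unfold rsm
  rw [Measure.smul_apply, Measure.map_apply (by fun_prop) hS, smul_eq_mul]
  congr 2
  ext z
  simp only [mem_preimage, mem_image]
  constructor
  · intro h
    refine ⟨_, h, ?_⟩
    rw [smul_smul, mul_one_div_cancel ht.ne', one_smul]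
    abel
  · rintro ⟨y, hy, rfl⟩
    rw [add_sub_cancel_left, smul_smul, one_div_mul_cancel ht.ne', one_smul]
    exact hy

lemma image_ball (x y : Sp d) {t r : ℝ} (ht : 0 < t) :
    (fun y => x + t • y) '' ball y r = ball (x + t • y) (t * r) := by
  ext z
  simp only [mem_image, mem_ball, dist_eq_norm]
  constructor
  · rintro ⟨w, hw, rfl⟩
    have : x + t • w - (x + t • y) = t • (w - y) := by rw [smul_sub]; abel
    rw [this, norm_smul, Real.norm_of_nonneg ht.le]
    exact mul_lt_mul_of_pos_left hw ht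
  · intro h
    refine ⟨(1 / t) • (z - x), ?_, ?_⟩
    · have : (1 / t) • (z - x) - y = (1 / t) • (z - (x + t • y)) := by
        rw [sub_add_eq_sub_sub, smul_sub (1 / t) (z - x), smul_smul, one_div_mul_cancel ht.ne',
          one_smul]
      rw [this, norm_smul, Real.norm_of_nonneg (by positivity), div_mul_eq_mul_div, one_mul,
        div_lt_iff₀ ht, mul_comm r t]
      exact h
    · beta_reduce
      rw [smul_smul, mul_one_div_cancel ht.ne', one_smul]
      abel

lemma gro_rsm (hd : 1 ≤ d) {C' : ℝ} {μ : Measure (Sp d)} (h : Gro C' μ) (x : Sp d) {t : ℝ}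
    (ht : 0 < t) : Gro C' (rsm x t μ) where
  fin := by
    have := h.fin
    constructor
    rw [rsm_apply x ht μ MeasurableSet.univ]
    exact ENNReal.mul_lt_top ENNReal.ofReal_lt_top (measure_lt_top μ _)
  ne := by
    intro h0
    apply h.ne
    have h1 := rsm_apply x ht μ MeasurableSet.univ
    rw [h0] at h1
    have h2 : (fun y => x + t • y) '' (univ : Set (Sp d)) = univ := by
      rw [image_univ, range_eq_univ]
      intro z
      refine ⟨(1 / t) • (z - x), ?_⟩
      beta_reduce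
      rw [smul_smul, mul_one_div_cancel ht.ne', one_smul]
      abel
    rw [h2, Measure.coe_zero, Pi.zero_apply, eq_comm, mul_eq_zero] at h1
    rcases h1 with h1 | h1
    · rw [ENNReal.ofReal_eq_zero] at h1
      have : 0 < t / t ^ d := by positivity
      linarith
    · exact Measure.measure_univ_eq_zero.mp h1
  gro y r hr := by
    rw [rsm_apply x ht μ measurableSet_ball, image_ball x y ht]
    refine (mul_le_mul_right (h.gro (x + t • y) (t * r) (by positivity)) _).trans ?_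
    rw [← ENNReal.ofReal_mul (by positivity)]
    refine ENNReal.ofReal_le_ofReal (le_of_eq ?_)
    obtain ⟨k, rfl⟩ : ∃ k, d = k + 1 := ⟨d - 1, by omega⟩
    simp only [Nat.add_sub_cancel, mul_pow, pow_succ]
    field_simp

/-- integrals against the rescaled measure -/
lemma integral_rsm (x : Sp d) {t : ℝ} (ht : 0 < t) (μ : Measure (Sp d)) (g : Sp d → ℝ) :
    ∫ η, g η ∂(rsm x t μ) = t / t ^ d * ∫ η, g ((1 / t) • (η - x)) ∂μ := by
  unfold rsm
  rw [integral_smul_measure, ENNReal.toReal_ofReal (by positivity), smul_eq_mul]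
  congr 1
  have he : MeasurableEmbedding (fun y : Sp d => (1 / t) • (y - x)) := by
    have h1 : MeasurableEmbedding (fun y : Sp d => (1 / t) • y) :=
      (Homeomorph.smulOfNeZero (1 / t) (by positivity)).measurableEmbedding
    exact h1.comp (Homeomorph.subRight x).measurableEmbedding
  rw [he.integral_map]

lemma kk_scale {t : ℝ} (ht : 0 < t) (r : ℝ) (w : Sp d) :
    kk r ((1 / t) • w) = t ^ d / t * kk (t * r) w := by
  unfold kk
  have h1 : r ^ 2 + ‖(1 / t) • w‖ ^ 2 = (1 / t) ^ 2 * ((t * r) ^ 2 + ‖w‖ ^ 2) := by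
    rw [norm_smul, Real.norm_of_nonneg (by positivity)]
    field_simp
  rw [h1, Real.sqrt_mul (by positivity), Real.sqrt_sq (by positivity), mul_pow, one_div, inv_pow]
  by_cases h : Real.sqrt ((t * r) ^ 2 + ‖w‖ ^ 2) ^ d = 0
  · rw [h]; simp
  · field_simp

lemma arg_scale {t : ℝ} (ht : 0 < t) (x y η : Sp d) :
    y - (1 / t) • (η - x) = (1 / t) • ((x + t • y) - η) := by
  rw [smul_sub, smul_sub, smul_add, smul_smul, one_div_mul_cancel ht.ne', one_smul]
  abel

lemma th_rsm (x : Sp d) {t : ℝ} (ht : 0 < t) (μ : Measure (Sp d)) (r : ℝ) (y : Sp d) :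
    th (rsm x t μ) r y = th μ (t * r) (x + t • y) := by
  unfold th
  rw [integral_rsm x ht]
  have : ∀ η, kk r (y - (1 / t) • (η - x)) = t ^ d / t * kk (t * r) (x + t • y - η) := by
    intro η
    rw [arg_scale ht, kk_scale ht]
  simp_rw [this]
  rw [integral_const_mul, ← mul_assoc]
  have : t / t ^ d * (t ^ d / t) = 1 := by field_simp
  rw [this, one_mul]

lemma vv_rsm (x : Sp d) {t : ℝ} (ht : 0 < t) (μ : Measure (Sp d)) (r : ℝ) (y : Sp d) :
    vv (rsm x t μ) r y = vv μ (t * r) (x + t • y) := by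
  unfold vv
  rw [th_rsm x ht]

lemma vv_rsm' (x : Sp d) {t : ℝ} (ht : 0 < t) (μ : Measure (Sp d)) (r : ℝ) :
    vv (rsm x t μ) r = fun y => vv μ (t * r) (x + t • y) :=
  funext fun y => vv_rsm x ht μ r y

lemma dtv_rsm (x : Sp d) {t : ℝ} (ht : 0 < t) (μ : Measure (Sp d)) (r : ℝ) (y : Sp d) :
    dtv (rsm x t μ) r y = t * dtv μ (t * r) (x + t • y) := by
  unfold dtv
  simp_rw [vv_rsm x ht]
  have := deriv_comp_mul_left t (fun s => vv μ s (x + t • y)) r
  rw [this, smul_eq_mul]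

lemma lap_vv_rsm (x : Sp d) {t : ℝ} (ht : 0 < t) (μ : Measure (Sp d)) (r : ℝ) (y : Sp d) :
    lap (vv (rsm x t μ) r) y = t ^ 2 * lap (vv μ (t * r)) (x + t • y) := by
  rw [vv_rsm' x ht, lap_aff _ x ht.ne']

lemma grad_vv_rsm (x : Sp d) {t : ℝ} (ht : 0 < t) (μ : Measure (Sp d)) (r : ℝ) (y : Sp d) :
    gradient (vv (rsm x t μ) r) y = t • gradient (vv μ (t * r)) (x + t • y) := by
  rw [vv_rsm' x ht, gradient_aff]

lemma pt_scale (x y z : Sp d) (t ε r : ℝ) :
    x + t • (y + (ε * r) • z) = x + t • y + (ε * (t * r)) • z := by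
  rw [smul_add, smul_smul, add_assoc]
  congr 3
  ring

lemma wv_rsm (β : Sp d → ℝ) (ε : ℝ) (x : Sp d) {t : ℝ} (ht : 0 < t) (μ : Measure (Sp d)) (r : ℝ)
    (y : Sp d) : wv β ε (rsm x t μ) r y = wv β ε μ (t * r) (x + t • y) := by
  unfold wv
  refine integral_congr_ae (Filter.Eventually.of_forall fun z => ?_)
  beta_reduce
  rw [vv_rsm x ht, pt_scale]

lemma wt_rsm (β : Sp d → ℝ) (ε : ℝ) (x : Sp d) {t : ℝ} (ht : 0 < t) (μ : Measure (Sp d)) (r : ℝ)
    (y : Sp d) : wt β ε (rsm x t μ) r y = wt β ε μ (t * r) (x + t • y) := by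
  unfold wt
  refine integral_congr_ae (Filter.Eventually.of_forall fun z => ?_)
  beta_reduce
  rw [vv_rsm x ht, dtv_rsm x ht, lap_vv_rsm x ht, pt_scale]
  ring

lemma tau_scale {t : ℝ} (ht : 0 < t) (r s : ℝ) : tau (t * r) (t * s) = t * tau r s := by
  unfold tau
  rw [mul_max_of_nonneg _ _ ht.le, mul_min_of_nonneg _ _ ht.le]
  congr 1
  · ring
  · congr 1 <;> ring

/-- scaling of the time averages -/
lemma int_tau_scale {t : ℝ} (ht : 0 < t) (r : ℝ) (f : ℝ → ℝ) :
    ∫ s in (r / 2)..(2 * r), tau r s * f (t * s) =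
      (1 / t ^ 2) * ∫ s in (t * r / 2)..(2 * (t * r)), tau (t * r) s * f s := by
  have h1 : ∀ s, tau r s * f (t * s) = (1 / t) * (fun s => tau (t * r) s * f s) (t * s) := by
    intro s
    beta_reduce
    rw [tau_scale ht]
    field_simp
  simp_rw [h1]
  rw [intervalIntegral.integral_const_mul,
    intervalIntegral.integral_comp_mul_left (fun s => tau (t * r) s * f s) ht.ne', smul_eq_mul,
    ← mul_assoc]
  congr 1
  · field_simp
  · congr 1 <;> ring

lemma WW_rsm (β : Sp d → ℝ) (ε : ℝ) (x : Sp d) {t : ℝ} (ht : 0 < t) (μ : Measure (Sp d)) (r : ℝ)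
    (y : Sp d) : WW β ε (rsm x t μ) r y = 1 / t ^ 2 * WW β ε μ (t * r) (x + t • y) := by
  unfold WW
  simp_rw [wt_rsm β ε x ht]
  exact int_tau_scale ht r (fun s => wt β ε μ s (x + t • y))

lemma GG_rsm (β : Sp d → ℝ) (ε : ℝ) (x : Sp d) {t : ℝ} (ht : 0 < t) (μ : Measure (Sp d)) (r : ℝ)
    (y : Sp d) : GG β ε (rsm x t μ) r y = GG β ε μ (t * r) (x + t • y) := by
  unfold GG
  rw [wv_rsm β ε x ht, wv_rsm β ε x ht, wv_rsm β ε x ht]
  have h1 : t * (r / 2) = t * r / 2 := by ring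
  have h2 : t * (2 * r) = 2 * (t * r) := by ring
  rw [h1, h2]

lemma X1_rsm (β : Sp d → ℝ) (ε : ℝ) (x : Sp d) {t : ℝ} (ht : 0 < t) (μ : Measure (Sp d))
    (n : Sp d) (r : ℝ) (y : Sp d) :
    X1 β ε (rsm x t μ) n r y = t ^ 2 * X1 β ε μ n (t * r) (x + t • y) := by
  unfold X1
  rw [← integral_const_mul]
  refine integral_congr_ae (Filter.Eventually.of_forall fun z => ?_)
  beta_reduce
  rw [vv_rsm x ht, grad_vv_rsm x ht, pt_scale, tang_smul, norm_smul, mul_pow, Real.norm_eq_abs,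
    sq_abs]
  ring

lemma X3_rsm (β : Sp d → ℝ) (ε : ℝ) (x : Sp d) {t : ℝ} (ht : 0 < t) (μ : Measure (Sp d))
    (n : Sp d) (r : ℝ) (y : Sp d) :
    X3 β ε (rsm x t μ) n r y = t ^ 2 * X3 β ε μ n (t * r) (x + t • y) := by
  unfold X3
  rw [← integral_const_mul]
  refine integral_congr_ae (Filter.Eventually.of_forall fun z => ?_)
  beta_reduce
  rw [vv_rsm x ht, grad_vv_rsm x ht, dtv_rsm x ht, pt_scale, real_inner_smul_left]
  ring

lemma X2_rsm (x : Sp d) {t : ℝ} (ht : 0 < t) (μ : Measure (Sp d))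
    (n : Sp d) (r : ℝ) (y : Sp d) :
    X2 (rsm x t μ) n r y = t ^ 2 * X2 μ n (t * r) (x + t • y) := by
  unfold X2
  rw [integral_rsm x ht, vv_rsm x ht]
  have h1 : ∀ η : Sp d, ⟪(1 / t) • (η - x) - y, n⟫_ℝ ^ 2 /
      (r ^ 2 + ‖y - (1 / t) • (η - x)‖ ^ 2) ^ 2 * kk r (y - (1 / t) • (η - x)) =
      (t ^ d / t * t ^ 2) * (⟪η - (x + t • y), n⟫_ℝ ^ 2 /
      ((t * r) ^ 2 + ‖x + t • y - η‖ ^ 2) ^ 2 * kk (t * r) (x + t • y - η)) := by
    intro η
    have e1 : (1 / t) • (η - x) - y = (1 / t) • (η - (x + t • y)) := by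
      rw [← neg_sub, arg_scale ht, ← smul_neg, neg_sub]
    have e2 : r ^ 2 + ‖(1 / t) • (x + t • y - η)‖ ^ 2 =
        (1 / t) ^ 2 * ((t * r) ^ 2 + ‖x + t • y - η‖ ^ 2) := by
      rw [norm_smul, Real.norm_of_nonneg (by positivity)]
      field_simp
    rw [arg_scale ht, kk_scale ht, e1, e2, real_inner_smul_left]
    by_cases h : (t * r) ^ 2 + ‖x + t • y - η‖ ^ 2 = 0
    · rw [h]; simp
    · field_simp
  simp_rw [h1]
  rw [integral_const_mul]
  have : t / t ^ d * (t ^ d / t * t ^ 2) = t ^ 2 := by field_simp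
  rw [← mul_assoc, this]
  ring

lemma tav_scale {t : ℝ} (ht : 0 < t) (x : Sp d) (F G : ℝ → Sp d → ℝ) (r : ℝ) (y : Sp d)
    (h : ∀ s, F s y = t ^ 2 * G (t * s) (x + t • y)) :
    tav F r y = tav G (t * r) (x + t • y) := by
  unfold tav
  have h1 : ∀ s, tau r s * F s y = t ^ 2 * (tau r s * (fun s => G s (x + t • y)) (t * s)) := by
    intro s
    rw [h]
    ring
  simp_rw [h1]
  rw [intervalIntegral.integral_const_mul, int_tau_scale ht r (fun s => G s (x + t • y)),
    ← mul_assoc]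
  have : t ^ 2 * (1 / t ^ 2) = 1 := by field_simp
  rw [this, one_mul]

lemma XX_rsm (β : Sp d → ℝ) (ε : ℝ) (x : Sp d) {t : ℝ} (ht : 0 < t) (μ : Measure (Sp d))
    (n : Sp d) (r : ℝ) (y : Sp d) :
    XX β ε (rsm x t μ) n r y = XX β ε μ n (t * r) (x + t • y) := by
  unfold XX
  rw [tav_scale ht x _ _ r y (fun s => X1_rsm β ε x ht μ n s y),
    tav_scale ht x _ _ r y (fun s => X2_rsm x ht μ n s y),
    tav_scale ht x _ _ r y (fun s => X3_rsm β ε x ht μ n s y)]

lemma X13_rsm (β : Sp d → ℝ) (ε : ℝ) (x : Sp d) {t : ℝ} (ht : 0 < t) (μ : Measure (Sp d))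
    (n : Sp d) (r : ℝ) (y : Sp d) :
    X13 β ε (rsm x t μ) n r y = X13 β ε μ n (t * r) (x + t • y) := by
  unfold X13
  rw [tav_scale ht x _ _ r y (fun s => X1_rsm β ε x ht μ n s y),
    tav_scale ht x _ _ r y (fun s => X3_rsm β ε x ht μ n s y)]

lemma gn_rsm (β : Sp d → ℝ) (ε : ℝ) (x : Sp d) {t : ℝ} (ht : 0 < t) (μ : Measure (Sp d))
    (n : Sp d) (r : ℝ) (y : Sp d) :
    gn β ε (rsm x t μ) n r y = gn β ε μ n (t * r) (x + t • y) := by
  unfold gn
  have h1 : WW β ε (rsm x t μ) r = fun y => 1 / t ^ 2 * WW β ε μ (t * r) (x + t • y) :=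
    funext fun y => WW_rsm β ε x ht μ r y
  rw [GG_rsm β ε x ht, h1, lap_const (fun y => WW β ε μ (t * r) (x + t • y)) (by positivity),
    d2_const n (fun y => WW β ε μ (t * r) (x + t • y)) (by positivity), lap_aff _ x ht.ne',
    d2_aff n _ x ht.ne']
  have : 1 / t ^ 2 * t ^ 2 = 1 := by field_simp
  rw [← mul_assoc, ← mul_assoc, this, one_mul, one_mul]

/-! ## fields -/

lemma lev_div (s0 t : ℝ) (i : ℕ) : lev (s0 / t) i = lev s0 i / t := by
  unfold lev
  ring

lemma fl_rs (b : Sp d → ℝ) (ε s0 : ℝ) (x : Sp d) {t : ℝ} (ht : 0 < t) (f : Sp d → F) (i : ℕ) :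
    ∀ y, fl b ε (s0 / t) (rs x t f) i y = t • fl b ε s0 f i (x + t • y) := by
  induction i with
  | zero => intro y; rfl
  | succ i ih =>
    intro y
    show avk b (ε * lev (s0 / t) (i + 1)) (fl b ε (s0 / t) (rs x t f) i) y =
      t • avk b (ε * lev s0 (i + 1)) (fl b ε s0 f i) (x + t • y)
    unfold avk
    rw [← integral_smul]
    refine integral_congr_ae (Filter.Eventually.of_forall fun z => ?_)
    beta_reduce
    rw [ih, smul_comm, lev_div]
    congr 3
    rw [smul_add, smul_smul, add_assoc]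
    congr 3
    field_simp

/-- integrals over balls -/
lemma ball_scale (x : Sp d) {t : ℝ} (ht : 0 < t) (g : Sp d → ℝ) (y : Sp d) (r : ℝ) :
    ∫ z in ball y (r / t), g (x + t • z) = 1 / t ^ d * ∫ z in ball (x + t • y) r, g z := by
  have h1 : ∀ z, (ball y (r / t)).indicator (fun z => g (x + t • z)) z =
      (fun w => (ball (x + t • y) r).indicator g (x + w)) (t • z) := by
    intro z
    beta_reduce
    have h2 : z ∈ ball y (r / t) ↔ x + t • z ∈ ball (x + t • y) r := by
      rw [mem_ball, mem_ball, dist_eq_norm, dist_eq_norm]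
      have : x + t • z - (x + t • y) = t • (z - y) := by rw [smul_sub]; abel
      rw [this, norm_smul, Real.norm_of_nonneg ht.le, lt_div_iff₀ ht, mul_comm]
    by_cases h : z ∈ ball y (r / t)
    · rw [indicator_of_mem h, indicator_of_mem (h2.mp h)]
    · rw [indicator_of_notMem h, indicator_of_notMem (fun h' => h (h2.mpr h'))]
  rw [← integral_indicator measurableSet_ball, ← integral_indicator measurableSet_ball]
  simp_rw [h1]
  rw [Measure.integral_comp_smul_of_nonneg volume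
    (fun w => (ball (x + t • y) r).indicator g (x + w)) t (hR := ht.le),
    integral_add_left_eq_self (fun w => (ball (x + t • y) r).indicator g w) x]
  simp

end SC

theorem stmtSC : StmtSC := by
  intro d hd C' hC' x t ht
  refine ⟨fun μ hμ => ⟨SC.gro_rsm (by omega) hμ x ht, fun r y _ => SC.th_rsm x ht μ r y,
    fun r y _ => SC.vv_rsm x ht μ r y, fun S hS => SC.rsm_apply x ht μ hS, ?_⟩, ?_, ?_⟩
  · intro J M β _ _ ε _ _ r y _
    refine ⟨SC.GG_rsm β ε x ht μ r y, ?_, fun n => SC.XX_rsm β ε x ht μ n r y,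
      fun n => SC.X13_rsm β ε x ht μ n r y, fun n => SC.gn_rsm β ε x ht μ n r y⟩
    rw [SC.WW_rsm β ε x ht μ r y]
    field_simp
  · intro E _ _ _ M c b _ ε _ _ f _ _ s0 _
    have hfl := fun i y => SC.fl_rs b ε s0 x ht f i y
    have ht' : (t : ℝ) ≠ 0 := ht.ne'
    refine ⟨hfl, ?_, ?_⟩
    · intro R i y e
      unfold DD
      have h1 : ∀ l, ∫ z in ball y (R * lev (s0 / t) i), (‖fl b ε (s0 / t) (rs x t f) l z‖
          - ⟪fl b ε (s0 / t) (rs x t f) l z, e⟫_ℝ) = t / t ^ d *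
          ∫ z in ball (x + t • y) (R * lev s0 i), (‖fl b ε s0 f l z‖ - ⟪fl b ε s0 f l z, e⟫_ℝ) := by
        intro l
        simp_rw [hfl, norm_smul, real_inner_smul_left, Real.norm_of_nonneg ht.le, ← mul_sub]
        rw [integral_const_mul, SC.lev_div, ← mul_div_assoc,
          SC.ball_scale x ht (fun z => ‖fl b ε s0 f l z‖ - ⟪fl b ε s0 f l z, e⟫_ℝ)]
        ring
      have h2 : ∫ z in ball y (R * lev (s0 / t) i), ‖rs x t f z‖ = t / t ^ d *
          ∫ z in ball (x + t • y) (R * lev s0 i), ‖f z‖ := by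
        unfold rs
        simp_rw [norm_smul, Real.norm_of_nonneg ht.le]
        rw [integral_const_mul, SC.lev_div, ← mul_div_assoc, SC.ball_scale x ht (fun z => ‖f z‖)]
        ring
      simp_rw [h1]
      rw [h2, SC.lev_div]
      have h3 : ∀ l, (1 / 4 : ℝ) ^ (i - l) * (t / t ^ d *
          ∫ z in ball (x + t • y) (R * lev s0 i), (‖fl b ε s0 f l z‖ - ⟪fl b ε s0 f l z, e⟫_ℝ)) =
          t / t ^ d * ((1 / 4 : ℝ) ^ (i - l) *
          ∫ z in ball (x + t • y) (R * lev s0 i), (‖fl b ε s0 f l z‖ - ⟪fl b ε s0 f l z, e⟫_ℝ)) := by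
        intro l
        ring
      simp_rw [h3]
      rw [← Finset.mul_sum, mul_left_comm _ (t / t ^ d), ← mul_add, ← mul_assoc, div_pow]
      congr 1
      field_simp
    · intro R i y
      unfold ma
      simp_rw [hfl, norm_smul, Real.norm_of_nonneg ht.le]
      rw [integral_const_mul, SC.lev_div, ← mul_div_assoc,
        SC.ball_scale x ht (fun z => ‖fl b ε s0 f (i - 1) z‖), div_pow]
      field_simp
  · intro V E _ _ _ _ _ _ L u hu
    refine ⟨⟨?_, ?_⟩, ?_⟩
    · exact hu.smooth.comp (by fun_prop)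
    · have h1 := hu.supp.comp_homeomorph
        ((Homeomorph.smulOfNeZero t ht.ne').trans (Homeomorph.addLeft x))
      exact h1
    · funext y
      unfold fo rs
      rw [SC.fderiv_aff, map_smul]

end

end TG
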