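import Pool.Agent.TG.Stmts2
import Pool.Agent.TG.SC

/-!
# Trace inequality, general operators: scaling of ATP and bb (module SD)
-/

open MeasureTheory Metric Set TrI
open scoped InnerProductSpace ContDiff

namespace TG

noncomputable section

namespace SD

variable {d : ℕ}

/-- change of variables on the whole space -/
lemma int_scale (x : Sp d) {t : ℝ} (ht : 0 < t) (g : Sp d → ℝ) :
    ∫ z, g (x + t • z) = 1 / t ^ d * ∫ z, g z := by
  have h1 := Measure.integral_comp_smul_of_nonneg volume (fun w : Sp d => g (x + w)) t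
    (hR := ht.le)
  rw [integral_add_left_eq_self (fun w => g w) x] at h1
  rw [h1]
  simp

end SD

theorem stmtSD : StmtSD := by
  refine ⟨?_, ?_⟩
  · intro d V _ _ _ u _ x t ht m c r y
    unfold ATP
    refine integral_congr_ae (Filter.Eventually.of_forall fun z => ?_)
    beta_reduce
    congr 1
    refine Finset.sum_congr rfl fun k _ => ?_
    congr 1
    rw [SC.itF_aff k u x ht.ne']
    have e1 : x + t • (c + r • z) = x + t • c + (t * r) • z := by
      rw [smul_add, smul_smul, add_assoc]
    have e2 : x + t • y - (x + t • c + (t * r) • z) = t • (y - (c + r • z)) := by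
      rw [← e1, add_sub_add_left_eq_sub, ← smul_sub]
    rw [e2, ← e1]
    have h3 := ContinuousMultilinearMap.map_smul_univ
      (iteratedFDeriv ℝ k u (x + t • (c + r • z))) (fun _ => t) (fun _ => y - (c + r • z))
    rw [h3]
    simp
  · intro d E _ _ _ f hd _ _ x t ht ρ s0 i y e ν c hs0
    unfold bb
    have hl : 0 < lev s0 i := by unfold lev; positivity
    rw [SC.lev_div]
    have h1 : ∀ z, ⟪rs x t f z, e⟫_ℝ *
        (zR ρ ((1 / (lev s0 i / t)) • (z - y)) * (TG.ht ν c z / (lev s0 i / t)) ^ 2) =
        t * (fun w => ⟪f w, e⟫_ℝ * (zR ρ ((1 / lev s0 i) • (w - (x + t • y))) *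
          (TG.ht ν (t * c + ⟪ν, x⟫_ℝ) w / lev s0 i) ^ 2)) (x + t • z) := by
      intro z
      beta_reduce
      have e1 : (1 / (lev s0 i / t)) • (z - y) = (1 / lev s0 i) • (x + t • z - (x + t • y)) := by
        rw [add_sub_add_left_eq_sub, ← smul_sub, smul_smul]
        congr 1
        field_simp
      have e2 : TG.ht ν c z / (lev s0 i / t) =
          TG.ht ν (t * c + ⟪ν, x⟫_ℝ) (x + t • z) / lev s0 i := by
        unfold TG.ht
        rw [inner_add_right, real_inner_smul_right]
        field_simp
        ring
      rw [e1, e2]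
      unfold rs
      rw [real_inner_smul_left]
      ring
    simp_rw [h1]
    rw [integral_const_mul, SD.int_scale x ht (fun w => ⟪f w, e⟫_ℝ *
      (zR ρ ((1 / lev s0 i) • (w - (x + t • y))) *
          (TG.ht ν (t * c + ⟪ν, x⟫_ℝ) w / lev s0 i) ^ 2)), div_pow]
    field_simp

end

end TG
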