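import Pool.Agent.TG.Stmts2

/-!
# Trace inequality, general operators: utilities on test functions (helper7)

Facts on the cut-offs zR, on the structure TFn, on heights over planes, and the estimates
Z, DI, MA, PE for test functions with arbitrary C^2 norm.  Namespace TG.TU.
-/

open MeasureTheory Metric Set TrI
open scoped InnerProductSpace ContDiff

namespace TG

namespace TU

noncomputable section

variable {d : ℕ}

/-! ## the cut-off zR -/

lemma zR_nonneg (R : ℝ) (x : Sp d) : 0 ≤ zR R x := Real.smoothTransition.nonneg _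

lemma zR_le_one (R : ℝ) (x : Sp d) : zR R x ≤ 1 := Real.smoothTransition.le_one _

lemma zR_one {R : ℝ} {x : Sp d} (h : ‖x‖ ≤ R) : zR R x = 1 :=
  Real.smoothTransition.one_of_one_le (by linarith)

lemma zR_zero {R : ℝ} {x : Sp d} (h : R + 1 ≤ ‖x‖) : zR R x = 0 :=
  Real.smoothTransition.zero_of_nonpos (by linarith)

lemma zR_smooth {R : ℝ} (hR : 0 < R) : ContDiff ℝ ∞ (zR R : Sp d → ℝ) := by
  rw [contDiff_iff_contDiffAt]
  intro x
  by_cases hx : x = 0
  · subst hx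
    have h1 : (zR R : Sp d → ℝ) =ᶠ[nhds 0] fun _ => 1 := by
      filter_upwards [ball_mem_nhds (0 : Sp d) hR] with y hy
      exact zR_one (by
        rw [mem_ball, dist_zero_right] at hy
        exact hy.le)
    exact contDiffAt_const.congr_of_eventuallyEq h1
  · unfold zR
    exact Real.smoothTransition.contDiffAt.comp x
      (contDiffAt_const.sub (contDiffAt_norm ℝ hx))

lemma zR_cs (R : ℝ) : HasCompactSupport (zR R : Sp d → ℝ) := by
  refine HasCompactSupport.intro (isCompact_closedBall (0 : Sp d) (R + 1)) fun y hy => ?_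
  rw [mem_closedBall, dist_zero_right, not_le] at hy
  exact zR_zero hy.le

/-! ## the structure TFn -/

section T

variable {F : Type*} [NormedAddCommGroup F] [NormedSpace ℝ F]

lemma TFn_nonneg {J : ℕ} {N : ℝ} {ζ : Sp d → F} (h : TFn J N ζ) : 0 ≤ N :=
  (norm_nonneg _).trans (h.bd 0 (Nat.zero_le _) 0)

lemma TFn_norm {J : ℕ} {N : ℝ} {ζ : Sp d → F} (h : TFn J N ζ) (y : Sp d) : ‖ζ y‖ ≤ N := by
  have := h.bd 0 (Nat.zero_le _) y
  rwa [norm_iteratedFDeriv_zero] at this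

lemma TFn_mono {J J' : ℕ} {N N' : ℝ} {ζ : Sp d → F} (h : TFn J N ζ) (hJ : J' ≤ J)
    (hN : N ≤ N') : TFn J' N' ζ where
  smooth := h.smooth.of_le (by exact_mod_cast hJ)
  bd := fun j hj x => (h.bd j (hj.trans hJ) x).trans hN

lemma TFn_of_cs {J : ℕ} {ζ : Sp d → F} (hs : ContDiff ℝ J ζ) (hc : HasCompactSupport ζ) :
    ∃ N : ℝ, 0 < N ∧ TFn J N ζ := by
  have h1 : ∀ j ≤ J, ∃ N : ℝ, ∀ x, ‖iteratedFDeriv ℝ j ζ x‖ ≤ N := by
    intro j hj
    have hcont : Continuous (iteratedFDeriv ℝ j ζ) :=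
      hs.continuous_iteratedFDeriv (by exact_mod_cast hj)
    exact hcont.bounded_above_of_compact_support (hc.iteratedFDeriv j)
  choose N hN using h1
  refine ⟨1 + ∑ j ∈ (Finset.range (J + 1)).attach,
    |N j.1 (Nat.lt_succ_iff.1 (Finset.mem_range.1 j.2))|, ?_, hs, ?_⟩
  · have : 0 ≤ ∑ j ∈ (Finset.range (J + 1)).attach,
      |N j.1 (Nat.lt_succ_iff.1 (Finset.mem_range.1 j.2))| :=
      Finset.sum_nonneg fun _ _ => abs_nonneg _
    linarith
  · intro j hj x
    have h2 := Finset.single_le_sum (s := (Finset.range (J + 1)).attach)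
      (f := fun j => |N j.1 (Nat.lt_succ_iff.1 (Finset.mem_range.1 j.2))|)
      (fun _ _ => abs_nonneg _) (Finset.mem_attach _ ⟨j, Finset.mem_range.2 (by omega)⟩)
    have h3 := (hN j hj x).trans (le_abs_self _)
    simp only at h2
    linarith

lemma itF_aff_norm (k : ℕ) (g : Sp d → F) (x : Sp d) (t : ℝ) (ht : t ≠ 0) (y : Sp d) :
    ‖iteratedFDeriv ℝ k (fun y => g (x + t • y)) y‖ = |t| ^ k *
      ‖iteratedFDeriv ℝ k g (x + t • y)‖ := by
  set e : Sp d ≃L[ℝ] Sp d := ContinuousLinearEquiv.smulLeft (Units.mk0 t ht) with he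
  have hey : ∀ z, e z = t • z := fun z => rfl
  have h1 : (fun y => g (x + t • y)) = (fun y => g (x + y)) ∘ e := by
    funext z
    simp [hey]
  have h2 := e.iteratedFDerivWithin_comp_right (fun y => g (x + y)) (s := univ)
    uniqueDiffOn_univ (x := y) (mem_univ _) k
  rw [preimage_univ, iteratedFDerivWithin_univ, iteratedFDerivWithin_univ] at h2
  have h3 : iteratedFDeriv ℝ k (fun y => g (x + t • y)) y =
      (t ^ k) • iteratedFDeriv ℝ k g (x + t • y) := by
    rw [h1, h2, iteratedFDeriv_comp_add_left]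
    ext m
    simp only [ContinuousMultilinearMap.compContinuousLinearMap_apply,
      ContinuousLinearEquiv.coe_coe, hey, _root_.smul_apply]
    rw [ContinuousMultilinearMap.map_smul_univ (iteratedFDeriv ℝ k g (x + t • y)) (fun _ => t) m]
    simp
  rw [h3, norm_smul, norm_pow, Real.norm_eq_abs]

/-- composition with y ↦ x + t y -/
lemma TFn_aff {J : ℕ} {N : ℝ} {ζ : Sp d → F} (h : TFn J N ζ) (x : Sp d) {t : ℝ} (ht : t ≠ 0) :
    TFn J (max 1 |t| ^ J * N) (fun y => ζ (x + t • y)) where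
  smooth := by
    have h1 : ContDiff ℝ J fun y : Sp d => x + t • y := by fun_prop
    exact h.smooth.comp h1
  bd := by
    intro j hj y
    rw [itF_aff_norm j ζ x t ht y]
    have h1 : |t| ^ j ≤ max 1 |t| ^ J :=
      (pow_le_pow_left₀ (abs_nonneg t) (le_max_right _ _) j).trans
        (pow_le_pow_right₀ (le_max_left _ _) hj)
    exact mul_le_mul h1 (h.bd j hj _) (norm_nonneg _) (by positivity)

lemma TFn_smul {J : ℕ} {N : ℝ} {ζ : Sp d → F} (h : TFn J N ζ) (c : ℝ) :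
    TFn J (|c| * N) (fun y => c • ζ y) where
  smooth := contDiff_const.smul h.smooth
  bd := by
    intro j hj y
    have h1 : iteratedFDeriv ℝ j (fun y => c • ζ y) y = c • iteratedFDeriv ℝ j ζ y :=
      iteratedFDeriv_const_smul_apply' (h.smooth.of_le (by exact_mod_cast hj)).contDiffAt
    rw [h1, norm_smul, Real.norm_eq_abs]
    exact mul_le_mul_of_nonneg_left (h.bd j hj y) (abs_nonneg _)

lemma TFn_add {J : ℕ} {N M : ℝ} {ζ ξ : Sp d → F} (h : TFn J N ζ) (k : TFn J M ξ) :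
    TFn J (N + M) (fun y => ζ y + ξ y) where
  smooth := h.smooth.add k.smooth
  bd := by
    intro j hj y
    have h1 : iteratedFDeriv ℝ j (fun y => ζ y + ξ y) y =
        iteratedFDeriv ℝ j ζ y + iteratedFDeriv ℝ j ξ y :=
      fun_iteratedFDeriv_add_apply (h.smooth.of_le (by exact_mod_cast hj)).contDiffAt
        (k.smooth.of_le (by exact_mod_cast hj)).contDiffAt
    rw [h1]
    exact (norm_add_le _ _).trans (add_le_add (h.bd j hj y) (k.bd j hj y))

lemma TFn_sub {J : ℕ} {N M : ℝ} {ζ ξ : Sp d → F} (h : TFn J N ζ) (k : TFn J M ξ) :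
    TFn J (N + M) (fun y => ζ y - ξ y) := by
  have h1 := TFn_add h (TFn_smul k (-1))
  simp only [abs_neg, abs_one, one_mul, neg_smul, one_smul, ← sub_eq_add_neg] at h1
  exact h1

end T

lemma TFn_const_mul {J : ℕ} {N : ℝ} {ζ : Sp d → ℝ} (h : TFn J N ζ) (c : ℝ) :
    TFn J (|c| * N) (fun y => c * ζ y) := TFn_smul h c

/-- Leibniz bound at a point -/
lemma mul_core {J : ℕ} {N M : ℝ} {φ g : Sp d → ℝ} (hφ : ContDiff ℝ J φ) (hg : ContDiff ℝ J g)
    {y : Sp d} (hN : ∀ j ≤ J, ‖iteratedFDeriv ℝ j φ y‖ ≤ N)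
    (hM : ∀ j ≤ J, ‖iteratedFDeriv ℝ j g y‖ ≤ M) {j : ℕ} (hj : j ≤ J) :
    ‖iteratedFDeriv ℝ j (fun y => φ y * g y) y‖ ≤ 2 ^ j * (N * M) := by
  have hN0 : 0 ≤ N := (norm_nonneg _).trans (hN 0 (Nat.zero_le _))
  have hM0 : 0 ≤ M := (norm_nonneg _).trans (hM 0 (Nat.zero_le _))
  have h1 := norm_iteratedFDeriv_mul_le (hφ.of_le (m := j) (by exact_mod_cast hj))
    (hg.of_le (m := j) (by exact_mod_cast hj)) y (n := j) le_rfl
  refine h1.trans ?_
  have h2 : ∀ i ∈ Finset.range (j + 1), (j.choose i : ℝ) * ‖iteratedFDeriv ℝ i φ y‖ *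
      ‖iteratedFDeriv ℝ (j - i) g y‖ ≤ (j.choose i : ℝ) * (N * M) := by
    intro i hi
    have hi' := Finset.mem_range.1 hi
    rw [mul_assoc]
    refine mul_le_mul_of_nonneg_left ?_ (by positivity)
    exact mul_le_mul (hN i (by omega)) (hM (j - i) (by omega)) (norm_nonneg _) hN0
  refine (Finset.sum_le_sum h2).trans ?_
  rw [← Finset.sum_mul]
  have h3 : (∑ i ∈ Finset.range (j + 1), (j.choose i : ℝ)) = 2 ^ j := by
    exact_mod_cast Nat.sum_range_choose j
  rw [h3]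

/-- product with a function with bounds near the support -/
lemma TFn_mul_ball {J : ℕ} {N M ρ : ℝ} {φ g : Sp d → ℝ} {x₀ : Sp d} (h : TFn J N φ)
    (hs : ∀ y, ρ < ‖y - x₀‖ → φ y = 0) (hg : ContDiff ℝ J g)
    (hM : ∀ j ≤ J, ∀ y, ‖y - x₀‖ ≤ ρ → ‖iteratedFDeriv ℝ j g y‖ ≤ M) (hM0 : 0 ≤ M) :
    TFn J (2 ^ J * (N * M)) (fun y => φ y * g y) where
  smooth := h.smooth.mul hg
  bd := by
    intro j hj y
    have hN := TFn_nonneg h
    by_cases hy : ‖y - x₀‖ ≤ ρ
    · refine (mul_core h.smooth hg (fun i hi => h.bd i hi y) (fun i hi => hM i hi y hy) hj).trans ?_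
      exact mul_le_mul_of_nonneg_right (pow_le_pow_right₀ (by norm_num) hj) (by positivity)
    · push Not at hy
      have h1 : (fun y => φ y * g y) =ᶠ[nhds y] fun _ => (0 : ℝ) := by
        have : {z : Sp d | ρ < ‖z - x₀‖} ∈ nhds y := by
          refine IsOpen.mem_nhds ?_ hy
          exact isOpen_lt continuous_const (by fun_prop)
        filter_upwards [this] with z hz
        rw [hs z hz, zero_mul]
      rw [(h1.iteratedFDeriv ℝ j).eq_of_nhds]
      have : iteratedFDeriv ℝ j (fun _ : Sp d => (0 : ℝ)) y = 0 := by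
        rw [show (fun _ : Sp d => (0 : ℝ)) = 0 from rfl]
        simp
      rw [this, norm_zero]
      positivity

lemma TFn_mul {J : ℕ} {N M : ℝ} {φ g : Sp d → ℝ} (h : TFn J N φ) (k : TFn J M g) :
    TFn J (2 ^ J * (N * M)) (fun y => φ y * g y) where
  smooth := h.smooth.mul k.smooth
  bd := by
    intro j hj y
    have hN := TFn_nonneg h
    have hM := TFn_nonneg k
    refine (mul_core h.smooth k.smooth (fun i hi => h.bd i hi y)
      (fun i hi => k.bd i hi y) hj).trans ?_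
    exact mul_le_mul_of_nonneg_right (pow_le_pow_right₀ (by norm_num) hj) (by positivity)

/-! ## heights -/

lemma ht_smooth (ν : Sp d) (c : ℝ) {n : WithTop ℕ∞} : ContDiff ℝ n (ht ν c) := by
  unfold ht
  exact (contDiff_const.inner ℝ contDiff_id).sub contDiff_const

lemma ht_le {ν : Sp d} (hν : ‖ν‖ = 1) (c : ℝ) (y : Sp d) : |ht ν c y| ≤ ‖y‖ + |c| := by
  unfold ht
  refine (abs_sub _ _).trans (add_le_add ?_ le_rfl)
  have := abs_real_inner_le_norm ν y
  rwa [hν, one_mul] at this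

lemma ht_bd {ν : Sp d} (hν : ‖ν‖ = 1) (c : ℝ) (y : Sp d) :
    ∀ j : ℕ, ‖iteratedFDeriv ℝ j (ht ν c) y‖ ≤ max 1 |ht ν c y|
  | 0 => by
    rw [norm_iteratedFDeriv_zero, Real.norm_eq_abs]
    exact le_max_right _ _
  | 1 => by
    have h1 : fderiv ℝ (ht ν c) y = innerSL ℝ ν := by
      have h2 : HasFDerivAt (ht ν c) (innerSL ℝ ν) y := by
        unfold ht
        exact ((innerSL ℝ ν).hasFDerivAt (x := y)).sub_const c
      exact h2.fderiv
    rw [norm_iteratedFDeriv_one, h1, innerSL_apply_norm, hν]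
    exact le_max_left _ _
  | j + 2 => by
    have h1 : fderiv ℝ (ht ν c) = fun _ => innerSL ℝ ν := by
      funext z
      have h2 : HasFDerivAt (ht ν c) (innerSL ℝ ν) z := by
        unfold ht
        exact ((innerSL ℝ ν).hasFDerivAt (x := z)).sub_const c
      exact h2.fderiv
    rw [← norm_iteratedFDeriv_fderiv, h1, iteratedFDeriv_const_of_ne (Nat.succ_ne_zero j)]
    simp

lemma ht_sq_bd {ν : Sp d} (hν : ‖ν‖ = 1) (c : ℝ) (y : Sp d) (j : ℕ) :
    ‖iteratedFDeriv ℝ j (fun y => ht ν c y ^ 2) y‖ ≤ 2 ^ j * max 1 |ht ν c y| ^ 2 := by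
  have h1 := mul_core (J := j) (ht_smooth ν c) (ht_smooth ν c) (fun i _ => ht_bd hν c y i)
    (fun i _ => ht_bd hν c y i) le_rfl
  simp only [← sq] at h1
  exact h1

/-- a cut-off times the squared height -/
lemma TFn_ht_sq {J : ℕ} {N ρ : ℝ} {φ : Sp d → ℝ} (h : TFn J N φ)
    (hs : ∀ y, ρ < ‖y‖ → φ y = 0) {ν : Sp d} (hν : ‖ν‖ = 1) {c c' : ℝ} (hc : |c| ≤ c') :
    TFn J (4 ^ J * N * max 1 (ρ + c') ^ 2) (fun y => φ y * ht ν c y ^ 2) := by
  have h1 := TFn_mul_ball (x₀ := 0) (ρ := ρ) (g := fun y => ht ν c y ^ 2)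
    (M := 2 ^ J * max 1 (ρ + c') ^ 2) h (by simpa using hs) ((ht_smooth ν c).pow 2)
    (fun j hj y hy => by
      refine (ht_sq_bd hν c y j).trans ?_
      rw [sub_zero] at hy
      have h2 := ht_le hν c y
      refine mul_le_mul (pow_le_pow_right₀ (by norm_num) hj) ?_ (by positivity) (by positivity)
      refine pow_le_pow_left₀ (by positivity) (max_le_max le_rfl ?_) 2
      linarith) (by positivity)
  refine TFn_mono h1 le_rfl (le_of_eq ?_)
  have : (4 : ℝ) ^ J = 2 ^ J * 2 ^ J := by rw [← mul_pow]; norm_num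
  rw [this]
  ring

/-! ## the estimates with arbitrary norms -/

section Est

variable {E : Type} [NormedAddCommGroup E] [InnerProductSpace ℝ E] [FiniteDimensional ℝ E]

omit [FiniteDimensional ℝ E] in
lemma DD_nonneg (b : Sp d → ℝ) (ε R : ℝ) {s0 : ℝ} (hs : 0 < s0) (f : Sp d → E) (i : ℕ)
    (x : Sp d) {e : E} (he : ‖e‖ = 1) : 0 ≤ DD b ε R s0 f i x e := by
  unfold DD
  have h1 : 0 < lev s0 i := by
    unfold lev
    positivity
  refine mul_nonneg (by positivity) (add_nonneg (Finset.sum_nonneg fun l _ => ?_) ?_)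
  · refine mul_nonneg (by positivity) (integral_nonneg fun y => ?_)
    have h2 := (abs_le.1 (abs_real_inner_le_norm (fl b ε s0 f l y) e)).2
    rw [he, mul_one] at h2
    simp only [Pi.zero_apply]
    linarith
  · exact mul_nonneg (by positivity) (integral_nonneg fun y => norm_nonneg _)

omit [FiniteDimensional ℝ E] in
lemma ma_nonneg (b : Sp d → ℝ) (ε R : ℝ) {s0 : ℝ} (hs : 0 < s0) (f : Sp d → E) (i : ℕ)
    (x : Sp d) : 0 ≤ ma b ε R s0 f i x := by
  unfold ma
  have h1 : 0 < lev s0 i := by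
    unfold lev
    positivity
  exact mul_nonneg (by positivity) (integral_nonneg fun y => norm_nonneg _)

/-- Lemma Z for arbitrary C^2 norm -/
theorem Z' (hZ : StmtZ) (hd : 1 ≤ d) {M c ε : ℝ} (h0 : 0 < ε) (h1 : ε ≤ 1) {b : Sp d → ℝ}
    (hb : BaseKer 2 M c b) : ∃ C : ℝ, 0 < C ∧
    ∀ (E : Type) [NormedAddCommGroup E] [InnerProductSpace ℝ E] [FiniteDimensional ℝ E],
    ∀ f : Sp d → E, Continuous f → HasCompactSupport f → ∀ (R : ℝ), 3 ≤ R → ∀ (n : ℕ) (e : E),
    ‖e‖ = 1 → ∀ (x : Sp d) (H : Sp d → ℝ) (N : ℝ), TFn 2 N H → (∀ y, 0 ≤ H y) →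
      (∀ y, R - 2 ≤ ‖y - x‖ → H y = 0) →
      -(C * N * DD b ε R ((1 / 2) ^ n) f n x e) ≤ ∫ y, ⟪f y, e⟫_ℝ * H y := by
  obtain ⟨C, hC, hz⟩ := hZ d hd M c ε h0 h1 b hb
  refine ⟨C, hC, ?_⟩
  intro E _ _ _ f hf hfc R hR n e he x H N hH hH0 hHs
  rcases (TFn_nonneg hH).eq_or_lt with hN | hN
  · have h2 : ∀ y, H y = 0 := fun y => by
      have := TFn_norm hH y
      rw [← hN] at this
      simpa using this
    simp [h2, ← hN]
  · have h2 := TFn_const_mul hH (1 / N)
    have h3 : |1 / N| * N = 1 := by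
      rw [abs_of_pos (by positivity)]
      field_simp
    rw [h3] at h2
    have h4 := hz E f hf hfc R hR n e he x (fun y => 1 / N * H y) h2.smooth
      (fun y => mul_nonneg (by positivity) (hH0 y))
      (fun y => (le_abs_self _).trans (TFn_norm h2 y)) (fun y => h2.bd 2 le_rfl y)
      (fun y hy => by rw [hHs y hy, mul_zero])
    have h5 : ∫ y, ⟪f y, e⟫_ℝ * (1 / N * H y) = 1 / N * ∫ y, ⟪f y, e⟫_ℝ * H y := by
      rw [← integral_const_mul]
      congr 1
      ext y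
      ring
    rw [h5] at h4
    have h6 := mul_le_mul_of_nonneg_left h4 hN.le
    have h7 : N * (1 / N * ∫ y, ⟪f y, e⟫_ℝ * H y) = ∫ y, ⟪f y, e⟫_ℝ * H y := by
      field_simp
    rw [h7] at h6
    linarith

/-- change of direction for arbitrary C^2 norm -/
theorem DI' (hD : StmtDI) (hd : 1 ≤ d) {M c ε : ℝ} (h0 : 0 < ε) (h1 : ε ≤ 1) {b : Sp d → ℝ}
    (hb : BaseKer 2 M c b) : ∃ C : ℝ, 0 < C ∧
    ∀ (E : Type) [NormedAddCommGroup E] [InnerProductSpace ℝ E] [FiniteDimensional ℝ E],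
    ∀ f : Sp d → E, Continuous f → HasCompactSupport f → ∀ (R : ℝ), 3 ≤ R → ∀ (n : ℕ) (e e' : E),
    ‖e‖ = 1 → ‖e'‖ = 1 → ∀ (x x' : Sp d) (Y : Sp d → ℝ) (N : ℝ), TFn 2 N Y →
      (∀ y, R - 1 ≤ ‖y - x‖ → Y y = 0) → (∀ y, R - 1 ≤ ‖y - x'‖ → Y y = 0) →
      |∫ y, ⟪f y, e - e'⟫_ℝ * Y y| ≤
        C * N * (DD b ε R ((1 / 2) ^ n) f n x e + DD b ε R ((1 / 2) ^ n) f n x' e') := by
  obtain ⟨C, hC, hz⟩ := hD d hd M c ε h0 h1 b hb
  refine ⟨C, hC, ?_⟩
  intro E _ _ _ f hf hfc R hR n e e' he he' x x' H N hH hHs hHs'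
  rcases (TFn_nonneg hH).eq_or_lt with hN | hN
  · have h2 : ∀ y, H y = 0 := fun y => by
      have := TFn_norm hH y
      rw [← hN] at this
      simpa using this
    simp [h2, ← hN]
  · have h2 := TFn_const_mul hH (1 / N)
    have h3 : |1 / N| * N = 1 := by
      rw [abs_of_pos (by positivity)]
      field_simp
    rw [h3] at h2
    have h4 := hz E f hf hfc R hR n e e' he he' x x' (fun y => 1 / N * H y) h2.smooth
      (fun y => TFn_norm h2 y) (fun y => h2.bd 2 le_rfl y)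
      (fun y hy => by rw [hHs y hy, mul_zero]) (fun y hy => by rw [hHs' y hy, mul_zero])
    have h5 : ∫ y, ⟪f y, e - e'⟫_ℝ * (1 / N * H y) = 1 / N * ∫ y, ⟪f y, e - e'⟫_ℝ * H y := by
      rw [← integral_const_mul]
      congr 1
      ext y
      ring
    rw [h5, abs_mul, abs_of_pos (by positivity : (0 : ℝ) < 1 / N)] at h4
    have h6 := mul_le_mul_of_nonneg_left h4 hN.le
    have h7 : N * (1 / N * |∫ y, ⟪f y, e - e'⟫_ℝ * H y|) = |∫ y, ⟪f y, e - e'⟫_ℝ * H y| := by
      field_simp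
    rw [h7] at h6
    linarith

/-- mass bounds for arbitrary C^2 norms -/
theorem MA' (hMA : StmtMA) (hd : 1 ≤ d) {M c ε : ℝ} (h0 : 0 < ε) (h1 : ε ≤ 1) {b : Sp d → ℝ}
    (hb : BaseKer 2 M c b) : ∃ C : ℝ, 0 < C ∧
    ∀ (E : Type) [NormedAddCommGroup E] [InnerProductSpace ℝ E] [FiniteDimensional ℝ E],
    ∀ f : Sp d → E, Continuous f → HasCompactSupport f → ∀ (R : ℝ), 5 ≤ R → ∀ (n : ℕ) (e : E),
    ‖e‖ = 1 → ∀ (x : Sp d) (S : Set (Sp d)), MeasurableSet S →
      (∀ (ζ : Sp d → ℝ) (N : ℝ), TFn 2 N ζ → (∀ y, R - 2 ≤ ‖y - x‖ → ζ y = 0) →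
        (∀ y z, ζ y ≠ 0 → ‖z - y‖ ≤ 1 → z ∈ S) →
        |∫ y, ⟪f y, e⟫_ℝ * ζ y| ≤ C * N * ((∫ y in S, ‖fl b ε ((1 / 2) ^ n) f (n - 1) y‖) +
            DD b ε R ((1 / 2) ^ n) f n x e)) ∧
      (∀ (H : Sp d → ℝ) (N h0 : ℝ), 0 < h0 → TFn 2 N H → (∀ y, 0 ≤ H y) →
        (∀ y, R - 2 ≤ ‖y - x‖ → H y = 0) → (∀ y z, y ∈ S → ‖z - y‖ ≤ 2 → h0 ≤ H z) →
        h0 * (∫ y in S, ‖fl b ε ((1 / 2) ^ n) f (n - 1) y‖) ≤
          (∫ y, ⟪f y, e⟫_ℝ * H y) + C * N * DD b ε R ((1 / 2) ^ n) f n x e) := by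
  obtain ⟨C, hC, hz⟩ := hMA d hd M c ε h0 h1 b hb
  refine ⟨C, hC, ?_⟩
  intro E _ _ _ f hf hfc R hR n e he x S hS
  obtain ⟨z1, z2⟩ := hz E f hf hfc R hR n e he x S hS
  refine ⟨?_, ?_⟩
  · intro H N hH hHs hHS
    rcases (TFn_nonneg hH).eq_or_lt with hN | hN
    · have h2 : ∀ y, H y = 0 := fun y => by
        have := TFn_norm hH y
        rw [← hN] at this
        simpa using this
      simp [h2, ← hN]
    · have h2 := TFn_const_mul hH (1 / N)
      have h3 : |1 / N| * N = 1 := by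
        rw [abs_of_pos (by positivity)]
        field_simp
      rw [h3] at h2
      have h4 := z1 (fun y => 1 / N * H y) h2.smooth
        (fun y => TFn_norm h2 y) (fun y => h2.bd 2 le_rfl y)
        (fun y hy => by rw [hHs y hy, mul_zero])
        (fun y z hy hz => hHS y z (fun h => hy (by simp only [h, mul_zero])) hz)
      have h5 : ∫ y, ⟪f y, e⟫_ℝ * (1 / N * H y) = 1 / N * ∫ y, ⟪f y, e⟫_ℝ * H y := by
        rw [← integral_const_mul]
        congr 1
        ext y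
        ring
      rw [h5, abs_mul, abs_of_pos (by positivity : (0 : ℝ) < 1 / N)] at h4
      have h6 := mul_le_mul_of_nonneg_left h4 hN.le
      have h7 : N * (1 / N * |∫ y, ⟪f y, e⟫_ℝ * H y|) = |∫ y, ⟪f y, e⟫_ℝ * H y| := by
        field_simp
      rw [h7] at h6
      linarith
  · intro H N h0 hh0 hH hH0 hHs hHS
    have hDD := DD_nonneg b ε R (by positivity : (0 : ℝ) < (1 / 2) ^ n) f n x he
    rcases (TFn_nonneg hH).eq_or_lt with hN | hN
    · have h2 : ∀ y, H y = 0 := fun y => by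
        have := TFn_norm hH y
        rw [← hN] at this
        simpa using this
      have h3 : S = ∅ := by
        rw [Set.eq_empty_iff_forall_notMem]
        intro y hy
        have := hHS y y hy (by simp)
        rw [h2] at this
        linarith
      simp [h2, ← hN, h3]
    · have h2 := TFn_const_mul hH (1 / N)
      have h3 : |1 / N| * N = 1 := by
        rw [abs_of_pos (by positivity)]
        field_simp
      rw [h3] at h2
      have h5 : ∫ y, ⟪f y, e⟫_ℝ * (1 / N * H y) = 1 / N * ∫ y, ⟪f y, e⟫_ℝ * H y := by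
        rw [← integral_const_mul]
        congr 1
        ext y
        ring
      rcases S.eq_empty_or_nonempty with hSe | ⟨y0, hy0⟩
      · have h4 := z2 (fun y => 1 / N * H y) 1 one_pos le_rfl h2.smooth
          (fun y => mul_nonneg (by positivity) (hH0 y))
          (fun y => (le_abs_self _).trans (TFn_norm h2 y)) (fun y => h2.bd 2 le_rfl y)
          (fun y hy => by rw [hHs y hy, mul_zero])
          (fun y z hy => by rw [hSe] at hy; exact absurd hy (Set.notMem_empty y))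
        rw [h5] at h4
        have h6 := mul_le_mul_of_nonneg_left h4 hN.le
        have h7 : N * (1 / 1 * (1 / N * ∫ y, ⟪f y, e⟫_ℝ * H y) +
            C / 1 * DD b ε R ((1 / 2) ^ n) f n x e) =
            (∫ y, ⟪f y, e⟫_ℝ * H y) + C * N * DD b ε R ((1 / 2) ^ n) f n x e := by
          field_simp
        rw [h7] at h6
        refine le_trans (le_of_eq ?_) h6
        rw [hSe]
        simp
      · have hh1 : h0 ≤ N := (hHS y0 y0 hy0 (by simp)).trans
          ((le_abs_self _).trans (TFn_norm hH y0))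
        have h4 := z2 (fun y => 1 / N * H y) (h0 / N) (by positivity)
          ((div_le_one hN).2 hh1) h2.smooth
          (fun y => mul_nonneg (by positivity) (hH0 y))
          (fun y => (le_abs_self _).trans (TFn_norm h2 y)) (fun y => h2.bd 2 le_rfl y)
          (fun y hy => by rw [hHs y hy, mul_zero])
          (fun y z hy hz => by
            have := hHS y z hy hz
            rw [div_eq_inv_mul, one_div]
            exact mul_le_mul_of_nonneg_left this (by positivity))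
        rw [h5] at h4
        have h6 := mul_le_mul_of_nonneg_left h4 hh0.le
        have h7 : h0 * (1 / (h0 / N) * (1 / N * ∫ y, ⟪f y, e⟫_ℝ * H y) +
            C / (h0 / N) * DD b ε R ((1 / 2) ^ n) f n x e) =
            (∫ y, ⟪f y, e⟫_ℝ * H y) + C * N * DD b ε R ((1 / 2) ^ n) f n x e := by
          field_simp
        rwa [h7] at h6

/-- the perpendicular part for arbitrary C^2 norm -/
theorem PE' (hP : StmtPE) (hd : 1 ≤ d) {M c ε : ℝ} (h0 : 0 < ε) (h1 : ε ≤ 1) {b : Sp d → ℝ}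
    (hb : BaseKer 2 M c b) : ∃ C : ℝ, 0 < C ∧
    ∀ (E : Type) [NormedAddCommGroup E] [InnerProductSpace ℝ E] [FiniteDimensional ℝ E],
    ∀ f : Sp d → E, Continuous f → HasCompactSupport f → ∀ (R : ℝ), 3 ≤ R → ∀ (n : ℕ) (e : E),
    ‖e‖ = 1 → ∀ (x : Sp d) (Y : Sp d → E) (N : ℝ) (S : Set (Sp d)), MeasurableSet S → TFn 2 N Y →
      (∀ y, R - 2 ≤ ‖y - x‖ → Y y = 0) → (∀ y z, Y y ≠ 0 → ‖z - y‖ ≤ 1 → z ∈ S) →
      |∫ y, ⟪f y - ⟪f y, e⟫_ℝ • e, Y y⟫_ℝ| ≤
        C * N * (Real.sqrt ((∫ y in S, ‖fl b ε ((1 / 2) ^ n) f (n - 1) y‖) *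
            DD b ε R ((1 / 2) ^ n) f n x e) + DD b ε R ((1 / 2) ^ n) f n x e) := by
  obtain ⟨C, hC, hz⟩ := hP d hd M c ε h0 h1 b hb
  refine ⟨C, hC, ?_⟩
  intro E _ _ _ f hf hfc R hR n e he x H N S hS hH hHs hHS
  rcases (TFn_nonneg hH).eq_or_lt with hN | hN
  · have h2 : ∀ y, H y = 0 := fun y => by
      have := TFn_norm hH y
      rw [← hN] at this
      simpa using this
    simp [h2, ← hN]
  · have h2 := TFn_smul hH (1 / N)
    have h3 : |1 / N| * N = 1 := by
      rw [abs_of_pos (by positivity)]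
      field_simp
    rw [h3] at h2
    have h4 := hz E f hf hfc R hR n e he x (fun y => (1 / N) • H y) S hS h2.smooth
      (fun y => TFn_norm h2 y) (fun y => h2.bd 2 le_rfl y)
      (fun y hy => by rw [hHs y hy, smul_zero])
      (fun y z hy hz => hHS y z (fun h => hy (by simp only [h, smul_zero])) hz)
    have h5 : ∫ y, ⟪f y - ⟪f y, e⟫_ℝ • e, (1 / N) • H y⟫_ℝ =
        1 / N * ∫ y, ⟪f y - ⟪f y, e⟫_ℝ • e, H y⟫_ℝ := by
      rw [← integral_const_mul]
      congr 1
      ext y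
      rw [inner_smul_right]
    rw [h5, abs_mul, abs_of_pos (by positivity : (0 : ℝ) < 1 / N)] at h4
    have h6 := mul_le_mul_of_nonneg_left h4 hN.le
    have h7 : N * (1 / N * |∫ y, ⟪f y - ⟪f y, e⟫_ℝ • e, H y⟫_ℝ|) =
        |∫ y, ⟪f y - ⟪f y, e⟫_ℝ • e, H y⟫_ℝ| := by
      field_simp
    rw [h7] at h6
    linarith

omit [FiniteDimensional ℝ E] in
/-- change of frame in integrals against test functions -/
lemma frame_int (f : Sp d → E) (e : E) (x : Sp d) {t : ℝ} (ht : 0 < t) (ζ : Sp d → ℝ) :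
    ∫ y, ⟪rs x t f y, e⟫_ℝ * ζ (x + t • y) = t / t ^ d * ∫ y, ⟪f y, e⟫_ℝ * ζ y := by
  have h1 : (fun y => ⟪rs x t f y, e⟫_ℝ * ζ (x + t • y)) =
      fun y => t * ((fun z => (fun w => ⟪f w, e⟫_ℝ * ζ w) (x + z)) (t • y)) := by
    funext y
    simp only [rs, inner_smul_left, conj_trivial]
    ring
  rw [h1, integral_const_mul, Measure.integral_comp_smul_of_nonneg volume
    (fun z => (fun w => ⟪f w, e⟫_ℝ * ζ w) (x + z)) t (hR := ht.le),
    integral_add_left_eq_self (fun w => ⟪f w, e⟫_ℝ * ζ w) x, finrank_euclideanSpace_fin,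
    smul_eq_mul, ← mul_assoc]
  congr 1

end Est

end

end TU

end TG
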