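import Pool.Agent.TG.Stmts3
import Pool.Agent.TG.TFU
import Pool.Agent.TG.SD

/-!
# MODULE GS: two sheets which overlap are close (helper79)
-/

open MeasureTheory Metric Set TrI
open scoped InnerProductSpace ContDiff

namespace TG

namespace GSAux

noncomputable section

variable {d : ℕ}

lemma finrank_perp {n : Sp d} (hn : ‖n‖ = 1) :
    Module.finrank ℝ (Submodule.span ℝ {n})ᗮ = d - 1 := by
  have h0 : n ≠ 0 := by
    rintro rfl
    simp at hn
  have h1 := Submodule.finrank_add_finrank_orthogonal (Submodule.span ℝ {n})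
  rw [finrank_span_singleton h0, finrank_euclideanSpace_fin] at h1
  omega

/-- scaling of the plane integral -/
lemma plInt_scale {n : Sp d} (hn : ‖n‖ = 1) (x : Sp d) {t : ℝ} (ht : 0 < t) (s : ℝ)
    (F : Sp d → ℝ) :
    plInt n s (fun y => F (x + t • y)) = 1 / t ^ (d - 1) * plInt n (⟪n, x⟫_ℝ + t * s) F := by
  have hnn : ⟪n, n⟫_ℝ = 1 := by rw [real_inner_self_eq_norm_sq, hn, one_pow]
  have hx : x - ⟪n, x⟫_ℝ • n ∈ (Submodule.span ℝ {n})ᗮ := by
    rw [Submodule.mem_orthogonal_singleton_iff_inner_right, inner_sub_right, inner_smul_right,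
      hnn, mul_one, sub_self]
  set xT : (Submodule.span ℝ {n})ᗮ := ⟨x - ⟪n, x⟫_ℝ • n, hx⟩ with hxT
  set c := ⟪n, x⟫_ℝ + t * s with hc
  have h1 : ∀ y : (Submodule.span ℝ {n})ᗮ, F (x + t • (s • n + (y : Sp d))) =
      (fun w : (Submodule.span ℝ {n})ᗮ => F (c • n + ((xT + w : (Submodule.span ℝ {n})ᗮ) : Sp d)))
        (t • y) := by
    intro y
    simp only
    congr 1
    rw [Submodule.coe_add, Submodule.coe_smul, hxT, hc]
    module
  unfold plInt
  simp_rw [h1]
  rw [Measure.integral_comp_smul_of_nonneg volume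
    (fun w : (Submodule.span ℝ {n})ᗮ => F (c • n + ((xT + w : (Submodule.span ℝ {n})ᗮ) : Sp d))) t
    (hR := ht.le)]
  rw [integral_add_left_eq_self
    (fun w : (Submodule.span ℝ {n})ᗮ => F (c • n + (w : Sp d))) xT, finrank_perp hn]
  simp

/-- test functions satisfy the tangential bounds -/
lemma TB_of_TFn {J : ℕ} {N : ℝ} {ζ : Sp d → ℝ} (h : TFn (J + 2) N ζ) {n : Sp d}
    (hn : ‖n‖ = 1) (s : ℝ) : TB J n s N ζ := by
  have hN := TU.TFn_nonneg h
  have key : ∀ (j : ℕ) (A : ContinuousMultilinearMap ℝ (fun _ : Fin j => Sp d) ℝ)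
      (v : Fin j → Sp d), (∀ i, ‖v i‖ ≤ 1) → ‖A‖ ≤ N → |A v| ≤ N := by
    intro j A v hv hA
    have h1 := A.le_opNorm v
    rw [Real.norm_eq_abs] at h1
    have h2 : ∏ i, ‖v i‖ ≤ 1 := Finset.prod_le_one (fun i _ => norm_nonneg _) (fun i _ => hv i)
    have h3 : 0 ≤ ∏ i, ‖v i‖ := Finset.prod_nonneg fun i _ => norm_nonneg _
    nlinarith [norm_nonneg A]
  intro j hj v _ hv y _
  refine ⟨key j _ v hv (h.bd j (by omega) y), key j _ v hv ?_⟩
  set Lv : (Sp d →L[ℝ] ℝ) →L[ℝ] ℝ := ContinuousLinearMap.apply ℝ ℝ n with hL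
  have h4 : (fun x => fderiv ℝ ζ x n) = Lv ∘ (fderiv ℝ ζ) := rfl
  have h5 : ContDiff ℝ j (fderiv ℝ ζ) :=
    h.smooth.fderiv_right (by exact_mod_cast (by omega : j + 1 ≤ J + 2))
  have h6 : ‖Lv‖ ≤ 1 := by
    refine ContinuousLinearMap.opNorm_le_bound _ zero_le_one fun A => ?_
    have := A.le_opNorm n
    rw [hn, mul_one] at this
    rw [one_mul]
    exact this
  rw [h4]
  have h7 := Lv.norm_iteratedFDeriv_comp_left (f := fderiv ℝ ζ) (x := y)
    h5.contDiffAt le_rfl
  refine h7.trans ?_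
  rw [norm_iteratedFDeriv_fderiv]
  have h8 := h.bd (j + 1) (by omega) y
  calc ‖Lv‖ * ‖iteratedFDeriv ℝ (j + 1) ζ y‖ ≤ 1 * N :=
        mul_le_mul h6 h8 (norm_nonneg _) zero_le_one
    _ = N := one_mul N

/-- near positivity for arbitrary C^2 norm -/
lemma ZP' {R D : ℝ} {m : Sp d → ℝ} (h : ZP R D m) {H : Sp d → ℝ} {N : ℝ} (hH : TFn 2 N H)
    (h0 : ∀ y, 0 ≤ H y) (hs : ∀ y, R ≤ ‖y‖ → H y = 0) : -(N * D) ≤ ∫ y, m y * H y := by
  rcases (TU.TFn_nonneg hH).eq_or_lt with hN | hN
  · have h2 : ∀ y, H y = 0 := fun y => by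
      have := TU.TFn_norm hH y
      rw [← hN] at this
      simpa using this
    simp [h2, ← hN]
  · have h2 := TU.TFn_const_mul hH (1 / N)
    have h3 : |1 / N| * N = 1 := by
      rw [abs_of_pos (by positivity)]
      field_simp
    rw [h3] at h2
    have h4 := h (fun y => 1 / N * H y) h2.smooth
      (fun y => mul_nonneg (by positivity) (h0 y))
      (fun y => (le_abs_self _).trans (TU.TFn_norm h2 y)) (fun y => h2.bd 2 le_rfl y)
      (fun y hy => by rw [hs y hy, mul_zero])
    have h5 : ∫ y, m y * (1 / N * H y) = 1 / N * ∫ y, m y * H y := by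
      rw [← integral_const_mul]
      congr 1
      ext y
      ring
    rw [h5] at h4
    have h6 := mul_le_mul_of_nonneg_left h4 hN.le
    have h7 : N * (1 / N * ∫ y, m y * H y) = ∫ y, m y * H y := by
      field_simp
    rw [h7] at h6
    linarith

/-- the off-sheet mass for the radii R - 1 and R -/
lemma blc_mono (R : ℝ) (hR : 8 ≤ R) : ∃ K : ℝ, 0 < K ∧ ∀ (m : Sp d → ℝ) (n : Sp d) (s D : ℝ),
    Continuous m → ‖n‖ = 1 → |s| ≤ 3 / 2 * R → ZP (R + 1) D m →
      blc n s m (R - 1) ≤ blc n s m R + K * D := by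
  have hφs : ContDiff ℝ ∞ (fun y : Sp d => zR R y - zR (R - 1) y) :=
    (TU.zR_smooth (by linarith)).sub (TU.zR_smooth (by linarith))
  have hφc : HasCompactSupport (fun y : Sp d => zR R y - zR (R - 1) y) :=
    (TU.zR_cs R).sub (TU.zR_cs (R - 1))
  obtain ⟨N, hN, hφ⟩ := TU.TFn_of_cs (J := 2) (contDiff_infty.1 hφs 2) hφc
  refine ⟨4 ^ 2 * N * max 1 (R + 1 + 3 / 2 * R) ^ 2, by positivity, ?_⟩
  intro m n s D hm hn hs hZ
  have h1 : ∀ y : Sp d, R + 1 < ‖y‖ → zR R y - zR (R - 1) y = 0 := fun y hy => by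
    rw [TU.zR_zero hy.le, TU.zR_zero (by linarith), sub_zero]
  have h2 := TU.TFn_ht_sq hφ h1 hn hs
  have h3 := ZP' hZ h2 (fun y => by
    refine mul_nonneg ?_ (sq_nonneg _)
    have : zR (R - 1) y ≤ zR R y := Real.smoothTransition.monotone (by linarith)
    linarith) (fun y hy => by
      rw [TU.zR_zero hy, TU.zR_zero (by linarith), sub_zero, zero_mul])
  have hi : ∀ r : ℝ, 0 < r → Integrable (fun y => m y * (zR r y * hgt n s y ^ 2)) := by
    intro r hr
    have hc : Continuous (fun y => m y * (zR r y * hgt n s y ^ 2)) := by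
      have := (TU.zR_smooth (d := d) hr).continuous
      unfold hgt
      fun_prop
    refine hc.integrable_of_hasCompactSupport ?_
    exact ((TU.zR_cs r).mul_right).mul_left
  have h4 : ∫ y, m y * ((zR R y - zR (R - 1) y) * ht n s y ^ 2) =
      blc n s m R - blc n s m (R - 1) := by
    unfold blc
    rw [← integral_sub (hi R (by linarith)) (hi (R - 1) (by linarith))]
    congr 1
    ext y
    simp only [ht, hgt]
    ring
  rw [h4] at h3
  linarith

/-- the sheet estimate for test functions supported in the ball of radius R - 2 -/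
lemma est1 {J : ℕ} {R ab ep D K : ℝ} (hR : 8 ≤ R) (_hD : 0 ≤ D) (hK : 0 < K) {m : Sp d → ℝ}
    {n : Sp d} {s : ℝ} (hS : Sheet J R ab ep D m n s)
    (hb : blc n s m (R - 1) ≤ blc n s m R + K * D) {ζ : Sp d → ℝ} {N Er : ℝ}
    (hζ : TFn (J + 2) N ζ) (hs : ∀ y, R - 2 ≤ ‖y‖ → ζ y = 0)
    (hE : ep + max 0 (blc n s m R) + D ≤ Er) :
    |(∫ y, m y * ζ y) - ab * plInt n s ζ| ≤ N * ((K + 2) * Er) := by
  have hN := TU.TFn_nonneg hζ
  have h1 := hS.est ζ (R - 2) N N (by exact_mod_cast hζ.smooth) (by linarith) (by linarith) hs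
    (TB_of_TFn hζ hS.n1 s) (fun y => hζ.bd 2 (by omega) y)
  refine h1.trans ?_
  have h2 : R - 2 + 1 = R - 1 := by ring
  rw [h2]
  have h3 : blc n s m R ≤ max 0 (blc n s m R) := le_max_right _ _
  have h4 : 0 ≤ max 0 (blc n s m R) := le_max_left _ _
  have h5 := hS.ep0
  have h6 : ep * N + N * blc n s m (R - 1) + (N + N) * D =
      N * (ep + blc n s m (R - 1) + 2 * D) := by ring
  rw [h6]
  refine mul_le_mul_of_nonneg_left ?_ hN
  have h7 : (K + 2) * (ep + max 0 (blc n s m R) + D) ≤ (K + 2) * Er :=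
    mul_le_mul_of_nonneg_left hE (by linarith)
  have h8 : 0 ≤ K * ep := mul_nonneg hK.le h5
  have h9 : 0 ≤ K * max 0 (blc n s m R) := mul_nonneg hK.le h4
  nlinarith

end

end GSAux

open GSAux in
theorem stmtGS (h : StmtGE) (_h1 : StmtPF) : StmtGS := by
  intro d J hd R i hR
  obtain ⟨c0, C, hc0, hC, hGE⟩ := h d hd (J + 2) R (by linarith)
  obtain ⟨K, hK, hblc⟩ := blc_mono (d := d) R hR
  set T : ℝ := 2 ^ i with hT
  have hT1 : 1 ≤ T := one_le_pow₀ (by norm_num)
  have hT0 : 0 < T := by linarith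
  set C1 : ℝ := (K + 2) + 1 + T ^ (d - 1) * (T ^ (J + 2) * (K + 2)) with hC1
  have hC1p : 0 < C1 := by positivity
  refine ⟨c0 / C1, C * C1, by positivity, by positivity, ?_⟩
  intro m m' n n' s s' ab ab' ep ep' D Er x p hm hm' hD hS hS' hZ hZ' hcl hp hhp hpx hEr hEc
  have hm'' : Continuous (fun y => T * m' (x + T • y)) := by fun_prop
  have e1 : 0 ≤ ep := hS.ep0
  have e2 : 0 ≤ ep' := hS'.ep0
  have e3 : 0 ≤ max 0 (blc n s m R) := le_max_left _ _
  have e4 : 0 ≤ max 0 (blc n' s' (fun y => T * m' (x + T • y)) R) := le_max_left _ _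
  have hEr0 : 0 ≤ Er := by linarith
  have hb1 := hblc m n s D hm hS.n1 hS.loc hZ
  have hb2 := hblc _ n' s' D hm'' hS'.n1 hS'.loc hZ'
  have key : ∀ (F : Sp d → ℝ) (N : ℝ), TFn (J + 2) N F → (∀ y, 1 ≤ ‖y - p‖ → F y = 0) →
      |ab * plInt n s F - ab' * plInt n' (⟪n', x⟫_ℝ + T * s') F| ≤ C1 * Er * N := by
    intro F N hF hFs
    have hN := TU.TFn_nonneg hF
    have hFc : HasCompactSupport F := by
      refine HasCompactSupport.intro (isCompact_closedBall p 1) fun y hy => ?_
      rw [mem_closedBall, dist_eq_norm, not_le] at hy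
      exact hFs y hy.le
    have hFcont : Continuous F := hF.smooth.continuous
    -- (A)
    have hA := est1 hR hD hK hS hb1 hF (fun y hy => hFs y (by
      have := norm_sub_norm_le y p
      linarith)) (Er := Er) (by linarith)
    -- (B)
    have hζ := TU.TFn_aff hF x hT0.ne'
    have hmax : max 1 |T| = T := by rw [abs_of_pos hT0, max_eq_right hT1]
    rw [hmax] at hζ
    have hB := est1 hR hD hK hS' hb2 hζ (fun y hy => hFs _ (by
      have h1 : ‖T • y‖ = T * ‖y‖ := by rw [norm_smul, Real.norm_eq_abs, abs_of_pos hT0]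
      have h2 : T • y = (x + T • y - p) + (p - x) := by abel
      have h3 := norm_add_le (x + T • y - p) (p - x)
      rw [← h2, h1] at h3
      have h4 : T * (R - 2) ≤ T * ‖y‖ := mul_le_mul_of_nonneg_left hy hT0.le
      nlinarith)) (Er := Er) (by linarith)
    have hI : ∫ y, T * m' (x + T • y) * F (x + T • y) = T * (1 / T ^ d * ∫ y, m' y * F y) := by
      have h1 := SD.int_scale x hT0 (fun z => m' z * F z)
      rw [← h1, ← integral_const_mul]
      congr 1
      ext y
      ring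
    rw [hI, plInt_scale hS'.n1 x hT0 s' F] at hB
    have hTd : T * (1 / T ^ d) = 1 / T ^ (d - 1) := by
      obtain ⟨k, rfl⟩ : ∃ k, d = k + 1 := ⟨d - 1, by omega⟩
      simp only [Nat.add_sub_cancel]
      field_simp
      ring
    have hB' : |(∫ y, m' y * F y) - ab' * plInt n' (⟪n', x⟫_ℝ + T * s') F| ≤
        T ^ (d - 1) * (T ^ (J + 2) * N * ((K + 2) * Er)) := by
      have h1 : T * (1 / T ^ d * ∫ y, m' y * F y) -
          ab' * (1 / T ^ (d - 1) * plInt n' (⟪n', x⟫_ℝ + T * s') F) =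
          1 / T ^ (d - 1) * ((∫ y, m' y * F y) - ab' * plInt n' (⟪n', x⟫_ℝ + T * s') F) := by
        rw [← mul_assoc, hTd]
        ring
      rw [h1, abs_mul, abs_of_pos (by positivity : 0 < 1 / T ^ (d - 1))] at hB
      have h2 := mul_le_mul_of_nonneg_left hB (by positivity : 0 ≤ T ^ (d - 1))
      have h3 : T ^ (d - 1) * (1 / T ^ (d - 1) *
          |(∫ y, m' y * F y) - ab' * plInt n' (⟪n', x⟫_ℝ + T * s') F|) =
          |(∫ y, m' y * F y) - ab' * plInt n' (⟪n', x⟫_ℝ + T * s') F| := by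
        field_simp
      rwa [h3] at h2
    -- (C)
    have hCl : |(∫ y, m y * F y) - ∫ y, m' y * F y| ≤ N * D := by
      have hi : Integrable (fun y => m y * F y) :=
        (hm.mul hFcont).integrable_of_hasCompactSupport hFc.mul_left
      have hi' : Integrable (fun y => m' y * F y) :=
        (hm'.mul hFcont).integrable_of_hasCompactSupport hFc.mul_left
      rw [← integral_sub hi hi']
      have h0 : ∀ y, m y * F y - m' y * F y = (m y - m' y) * F y := fun y => by ring
      simp_rw [h0]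
      rcases hN.eq_or_lt with hN0 | hN0
      · have h2 : ∀ y, F y = 0 := fun y => by
          have := TU.TFn_norm hF y
          rw [← hN0] at this
          simpa using this
        simp [h2, ← hN0]
      · have h2 := TU.TFn_const_mul (TU.TFn_mono hF (by omega : 2 ≤ J + 2) le_rfl) (1 / N)
        have h3 : |1 / N| * N = 1 := by
          rw [abs_of_pos (by positivity)]
          field_simp
        rw [h3] at h2
        have h4 := hcl (fun y => 1 / N * F y) h2.smooth (fun y => TU.TFn_norm h2 y)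
          (fun y => h2.bd 2 le_rfl y) (fun y hy => by
            rw [hFs y (by
              have := norm_sub_norm_le y p
              linarith), mul_zero])
        have h5 : ∫ y, (m y - m' y) * (1 / N * F y) = 1 / N * ∫ y, (m y - m' y) * F y := by
          rw [← integral_const_mul]
          congr 1
          ext y
          ring
        rw [h5, abs_mul, abs_of_pos (by positivity : 0 < 1 / N)] at h4
        have h6 := mul_le_mul_of_nonneg_left h4 hN0.le
        have h7 : N * (1 / N * |∫ y, (m y - m' y) * F y|) = |∫ y, (m y - m' y) * F y| := by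
          field_simp
        rwa [h7] at h6
    have hDE : N * D ≤ N * Er := mul_le_mul_of_nonneg_left (by linarith) hN
    have h9 : ab * plInt n s F - ab' * plInt n' (⟪n', x⟫_ℝ + T * s') F =
        -((∫ y, m y * F y) - ab * plInt n s F) + ((∫ y, m y * F y) - ∫ y, m' y * F y) +
        ((∫ y, m' y * F y) - ab' * plInt n' (⟪n', x⟫_ℝ + T * s') F) := by ring
    rw [h9]
    refine (abs_add_three _ _ _).trans ?_
    rw [abs_neg, hC1]
    nlinarith
  have hfin := hGE n n' s (⟪n', x⟫_ℝ + T * s') ab ab' (C1 * Er) p hS.n1 hS'.n1 (by linarith)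
    hhp hS.ab0 hS'.ab0.le (by positivity) (by
      have := mul_le_mul_of_nonneg_left hEc hC1p.le
      have h2 : C1 * (c0 / C1 * ab) = c0 * ab := by field_simp
      rwa [h2] at this) key
  obtain ⟨h1, σ, hσ, h2⟩ := hfin
  refine ⟨by linarith, σ, hσ, by linarith⟩

end TG
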