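import Pool.Agent.TG.ABs
import Pool.Agent.TG.GS

/-!
# Module AB, part 3: planes, levels, far part (helper72)
-/

open MeasureTheory Metric Set TrI Filter
open scoped InnerProductSpace ContDiff Topology Interval

namespace TG

noncomputable section

namespace AB

variable {d : ℕ}

/-! ## plane integrals -/

lemma cs_of {g : Sp d → ℝ} {ρ : ℝ} (h : ∀ y, ρ ≤ ‖y‖ → g y = 0) : HasCompactSupport g := by
  refine HasCompactSupport.intro (isCompact_closedBall (0 : Sp d) ρ) fun y hy => ?_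
  rw [mem_closedBall, dist_zero_right, not_le] at hy
  exact h y hy.le

lemma pl_inner {n : Sp d} (hn : ‖n‖ = 1) (t : ℝ) (y : (Submodule.span ℝ {n})ᗮ) :
    ⟪n, t • n + (y : Sp d)⟫_ℝ = t := by
  have h1 : ⟪n, (y : Sp d)⟫_ℝ = 0 := Submodule.mem_orthogonal_singleton_iff_inner_right.1 y.2
  rw [inner_add_right, inner_smul_right, real_inner_self_eq_norm_sq, hn, h1]
  ring

lemma pl_zero_out {n : Sp d} (hn : ‖n‖ = 1) {Q : Sp d → ℝ} {ρ : ℝ}
    (hQ : ∀ y, ρ ≤ ‖y‖ → Q y = 0) {t : ℝ} (ht : ρ ≤ |t|) : plInt n t Q = 0 := by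
  unfold plInt
  refine integral_eq_zero_of_ae (Eventually.of_forall fun y => ?_)
  simp only [Pi.zero_apply]
  refine hQ _ (ht.trans ?_)
  have h1 := abs_real_inner_le_norm n (t • n + (y : Sp d))
  rwa [pl_inner hn, hn, one_mul] at h1

lemma plane_bound (hPF : StmtPF) (hd : 1 ≤ d) {b : Sp d → ℝ} {Mb cb : ℝ}
    (hb : BaseKer 2 Mb cb b) (ρ : ℝ) (hρ : 0 < ρ) : ∃ C : ℝ, 0 < C ∧
    ∀ (n : Sp d), ‖n‖ = 1 → ∀ (Q : Sp d → ℝ) (q : ℝ), Continuous Q → (∀ y, |Q y| ≤ q) →
      (∀ y, ρ ≤ ‖y‖ → Q y = 0) → ∀ (c r : ℝ), 0 < r →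
      |∫ x, b x * plInt n (c + r * ⟪n, x⟫_ℝ) Q| ≤ C * q / r := by
  obtain ⟨C1, hC1, h1⟩ := (hPF d hd).1 ρ
  obtain ⟨C2, hC2, h2⟩ := (hPF d hd).1 1
  have hb1 : ∀ x, 1 ≤ ‖x‖ → b x = 0 := fun x hx => hb.supp x (by linarith)
  have hbc : HasCompactSupport b := cs_of hb1
  obtain ⟨Bb, hBb0, hBb⟩ := SMm.BF.of_compact (J := 0) (hb.smooth.of_le (by norm_num)) hbc
  refine ⟨2 * ρ * (C1 * (C2 * Bb)), by positivity, fun n hn Q q hQ hq hs c r hr => ?_⟩
  have hq0 : 0 ≤ q := (abs_nonneg _).trans (hq 0)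
  have hQc : HasCompactSupport Q := cs_of hs
  obtain ⟨f1, f2, -, -, -, -⟩ := (hPF d hd).2 n hn
  have hP1 : ∀ t, |plInt n t Q| ≤ C1 * q := by
    intro t
    refine h1 n hn Q q hQ hq (fun y hy => ?_) t
    refine (SMm.tang_le hn y).trans ?_
    by_contra hlt
    push Not at hlt
    exact hy (hs y hlt.le)
  have hP2 : ∀ t, |plInt n t b| ≤ C2 * Bb := by
    intro t
    refine h2 n hn b Bb hb.smooth.continuous (fun y => ?_) (fun y hy => ?_) t
    · have := hBb.norm_le y
      rwa [Real.norm_eq_abs] at this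
    · refine (SMm.tang_le hn y).trans ?_
      by_contra hlt
      push Not at hlt
      exact hy (hb1 y hlt.le)
  set F : Sp d → ℝ := fun x => b x * plInt n (c + r * ⟪n, x⟫_ℝ) Q with hF
  have hFc : Continuous F :=
    hb.smooth.continuous.mul ((f2 Q hQ hQc).comp (by fun_prop : Continuous fun x : Sp d =>
      c + r * ⟪n, x⟫_ℝ))
  have hFi : Integrable F := hFc.integrable_of_hasCompactSupport hbc.mul_right
  rw [f1 F hFi]
  have h3 : ∀ t, plInt n t F = plInt n t b * plInt n (c + r * t) Q := by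
    intro t
    unfold plInt
    rw [← integral_mul_const]
    refine integral_congr_ae (Eventually.of_forall fun y => ?_)
    simp only [hF]
    rw [pl_inner hn]
    rfl
  have h4 : ∀ t, ‖plInt n t F‖ ≤
      (Icc ((-ρ - c) / r) ((ρ - c) / r)).indicator (fun _ => C1 * q * (C2 * Bb)) t := by
    intro t
    rw [h3, norm_mul, Real.norm_eq_abs, Real.norm_eq_abs]
    by_cases ht : t ∈ Icc ((-ρ - c) / r) ((ρ - c) / r)
    · rw [indicator_of_mem ht, mul_comm]
      exact mul_le_mul (hP1 _) (hP2 _) (abs_nonneg _) (by positivity)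
    · rw [indicator_of_notMem ht, pl_zero_out hn hs, abs_zero, mul_zero]
      by_contra hlt
      push Not at hlt
      apply ht
      rw [abs_lt] at hlt
      constructor
      · rw [div_le_iff₀ hr]
        linarith [hlt.1]
      · rw [le_div_iff₀ hr]
        linarith [hlt.2]
  rw [← Real.norm_eq_abs]
  refine (norm_integral_le_of_norm_le ?_ (Eventually.of_forall h4)).trans ?_
  · rw [integrable_indicator_iff measurableSet_Icc]
    exact integrableOn_const (by rw [Real.volume_Icc]; exact ENNReal.ofReal_ne_top)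
  · rw [integral_indicator measurableSet_Icc, setIntegral_const, smul_eq_mul]
    have h5 : volume.real (Icc ((-ρ - c) / r) ((ρ - c) / r)) = 2 * ρ / r := by
      rw [Real.volume_real_Icc_of_le]
      · field_simp
        ring
      · exact div_le_div_of_nonneg_right (by linarith) hr.le
    rw [h5]
    apply le_of_eq
    ring

/-! ## the growth hypothesis -/

lemma MG_use {K γ R a D : ℝ} {m : Sp d → ℝ} (h : MG K γ R a D m) {ρ A : ℝ} (h1 : 1 ≤ ρ)
    (h2 : ρ ≤ R) {H : Sp d → ℝ} (hH : ContDiff ℝ 2 H) (hA : 0 ≤ A) (hb0 : ∀ y, |H y| ≤ A)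
    (hb2 : ∀ y, ‖iteratedFDeriv ℝ 2 H y‖ ≤ A) (hs : ∀ y, ρ ≤ ‖y‖ → H y = 0) :
    |∫ y, m y * H y| ≤ A * (K * ρ ^ ((d : ℝ) - 1 + γ) * a + D) := by
  rcases hA.eq_or_lt with hA | hA
  · have h3 : ∀ y, H y = 0 := fun y => by
      have := hb0 y
      rw [← hA] at this
      exact abs_eq_zero.1 (le_antisymm this (abs_nonneg _))
    simp [h3, ← hA]
  · have h3 := h ρ h1 h2 (fun y => A⁻¹ * H y) (contDiff_const.mul hH) (fun y => ?_) (fun y => ?_)
      (fun y hy => by rw [hs y hy, mul_zero])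
    · have h4 : ∫ y, m y * (A⁻¹ * H y) = A⁻¹ * ∫ y, m y * H y := by
        rw [← integral_const_mul]
        refine integral_congr_ae (Eventually.of_forall fun y => ?_)
        simp only
        ring
      rw [h4, abs_mul, abs_of_pos (inv_pos.2 hA), inv_mul_le_iff₀ hA] at h3
      exact h3
    · rw [abs_mul, abs_of_pos (inv_pos.2 hA), inv_mul_le_iff₀ hA, mul_one]
      exact hb0 y
    · have h5 : iteratedFDeriv ℝ 2 (fun y => A⁻¹ * H y) y = A⁻¹ • iteratedFDeriv ℝ 2 H y :=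
        iteratedFDeriv_const_smul_apply' (a := A⁻¹) hH.contDiffAt
      rw [h5, norm_smul, Real.norm_eq_abs, abs_of_pos (inv_pos.2 hA), inv_mul_le_iff₀ hA, mul_one]
      exact hb2 y

/-! ## one level -/

lemma level {J : ℕ} {R0 ab ep D : ℝ} {m : Sp d → ℝ} {n : Sp d} {s t : ℝ} {x : Sp d}
    (hd : 1 ≤ d) (ht : 1 ≤ t)
    (hx : ‖x‖ ≤ d * t) (hS : Sheet J R0 ab ep D (fun y => t * m (x + t • y)) n s)
    (hR0 : 6 * d + 20 ≤ R0) {G : Sp d → ℝ} (hG : ContDiff ℝ ∞ G) {A P : ℝ} (hA0 : 0 ≤ A)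
    (hA : ∀ k ≤ J + 2, ∀ y, ‖iteratedFDeriv ℝ k G y‖ ≤ A * (1 / t) ^ (k + d))
    (hsupp : ∀ y, (d : ℝ) + 1 + t ≤ ‖y‖ → G y = 0) (hP : ∀ c, |plInt n c G| ≤ P) :
    |∫ y, m y * G y| ≤
      A / t * (ep + blc n s (fun y => t * m (x + t • y)) (4 * d + 8) + 2 * D) + ab * P := by
  have ht0 : 0 < t := by linarith
  set g : Sp d → ℝ := fun y => G (x + t • y) with hg
  have hgs : ContDiff ℝ ∞ g := hG.comp (by fun_prop)
  have hgb : ∀ k ≤ J + 2, ∀ y, ‖iteratedFDeriv ℝ k g y‖ ≤ A * (1 / t) ^ d := by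
    intro k hk y
    have e1 : g = (fun z => G (x + z)) ∘ (t • ContinuousLinearMap.id ℝ (Sp d)) := by
      ext y
      simp [hg]
    have hs : ContDiff ℝ k (fun z => G (x + z)) :=
      (hG.of_le (by exact_mod_cast le_top)).comp (by fun_prop)
    rw [e1, ContinuousLinearMap.iteratedFDeriv_comp_right _ hs y le_rfl]
    refine (ContinuousMultilinearMap.norm_compContinuousLinearMap_le _ _).trans ?_
    rw [Finset.prod_const, iteratedFDeriv_comp_add_left, Finset.card_univ, Fintype.card_fin]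
    have h1 : ‖t • ContinuousLinearMap.id ℝ (Sp d)‖ ≤ t := by
      rw [norm_smul, Real.norm_of_nonneg ht0.le]
      calc t * ‖ContinuousLinearMap.id ℝ (Sp d)‖ ≤ t * 1 :=
            mul_le_mul_of_nonneg_left ContinuousLinearMap.norm_id_le ht0.le
        _ = t := mul_one t
    calc ‖iteratedFDeriv ℝ k G (x + (t • ContinuousLinearMap.id ℝ (Sp d)) y)‖ *
          ‖t • ContinuousLinearMap.id ℝ (Sp d)‖ ^ k ≤ (A * (1 / t) ^ (k + d)) * t ^ k :=
          mul_le_mul (hA k hk _) (pow_le_pow_left₀ (norm_nonneg _) h1 k) (by positivity)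
            (by positivity)
      _ = A * (1 / t) ^ d := by
          rw [pow_add, one_div, inv_pow, inv_pow]
          field_simp
  have hTFn : TFn (J + 2) (A * (1 / t) ^ d) g :=
    ⟨contDiff_infty.1 hgs (J + 2), hgb⟩
  have hgsupp : ∀ y, (4 * d + 7 : ℝ) ≤ ‖y‖ → g y = 0 := by
    intro y hy
    refine hsupp _ ?_
    have h1 : ‖t • y‖ ≤ ‖x + t • y‖ + ‖x‖ := by
      have := norm_sub_le (x + t • y) x
      rwa [add_sub_cancel_left] at this
    rw [norm_smul, Real.norm_of_nonneg ht0.le] at h1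
    have h2 : (4 * d + 7) * t ≤ t * ‖y‖ := by
      rw [mul_comm]
      exact mul_le_mul_of_nonneg_left hy ht0.le
    have hd0 : (1 : ℝ) ≤ d := by exact_mod_cast hd
    nlinarith
  have hTB := GSAux.TB_of_TFn hTFn hS.n1 s
  have hest := hS.est g (4 * d + 7) (A * (1 / t) ^ d) (A * (1 / t) ^ d)
    (contDiff_infty.1 hgs (J + 2)) (by positivity) (by
      have hd0 : (1 : ℝ) ≤ d := by exact_mod_cast hd
      linarith) hgsupp hTB
    (fun y => hgb 2 (by omega) y)
  have hpl : plInt n s g = 1 / t ^ (d - 1) * plInt n (⟪n, x⟫_ℝ + t * s) G :=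
    GSAux.plInt_scale hS.n1 x ht0 s G
  have hint : ∫ y, m y * G y = t ^ (d - 1) * ∫ y, t * m (x + t • y) * g y := by
    have h1 := Measure.integral_comp_smul_of_nonneg (volume : Measure (Sp d))
      (fun y => m (x + y) * G (x + y)) t (hR := ht0.le)
    rw [finrank_euclideanSpace_fin, integral_add_left_eq_self (fun y => m y * G y) x,
      smul_eq_mul] at h1
    have h2 : ∫ y, t * m (x + t • y) * g y = t * ∫ y, m (x + t • y) * G (x + t • y) := by
      rw [← integral_const_mul]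
      refine integral_congr_ae (Eventually.of_forall fun y => ?_)
      simp only [hg]
      ring
    rw [h2, h1]
    have h3 : t ^ d = t ^ (d - 1) * t := by
      rw [← pow_succ]
      congr 1
      omega
    rw [h3]
    field_simp
  rw [hpl, show (4 * (d : ℝ) + 7 + 1) = 4 * d + 8 by ring] at hest
  rw [hint, abs_mul, abs_of_nonneg (by positivity : 0 ≤ t ^ (d - 1))]
  set S := ∫ y, t * m (x + t • y) * g y with hSdef
  set pl := plInt n (⟪n, x⟫_ℝ + t * s) G with hpldef
  set bl := blc n s (fun y => t * m (x + t • y)) (4 * d + 8) with hbldef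
  have h5 : |S| ≤ A * (1 / t) ^ d * (ep + bl + 2 * D) + ab * (1 / t ^ (d - 1) * |pl|) := by
    have h6 : |S| ≤ |S - ab * (1 / t ^ (d - 1) * pl)| + |ab * (1 / t ^ (d - 1) * pl)| := by
      have := abs_add_le (S - ab * (1 / t ^ (d - 1) * pl)) (ab * (1 / t ^ (d - 1) * pl))
      rwa [sub_add_cancel] at this
    have h7 : |ab * (1 / t ^ (d - 1) * pl)| = ab * (1 / t ^ (d - 1) * |pl|) := by
      rw [abs_mul, abs_mul, abs_of_pos hS.ab0, abs_of_pos (by positivity : 0 < 1 / t ^ (d - 1))]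
    rw [h7] at h6
    refine h6.trans (add_le_add_left (hest.trans (le_of_eq ?_)) _)
    ring
  have h8 : t ^ (d - 1) * (A * (1 / t) ^ d) = A / t := by
    have h3 : (1 / t) ^ d = 1 / t ^ (d - 1) * (1 / t) := by
      rw [one_div, inv_pow, one_div, ← mul_inv, ← pow_succ]
      congr 2
      omega
    rw [h3]
    field_simp
  calc t ^ (d - 1) * |S| ≤
      t ^ (d - 1) * (A * (1 / t) ^ d * (ep + bl + 2 * D) + ab * (1 / t ^ (d - 1) * |pl|)) :=
        mul_le_mul_of_nonneg_left h5 (by positivity)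
    _ = (t ^ (d - 1) * (A * (1 / t) ^ d)) * (ep + bl + 2 * D) + ab * |pl| := by
        field_simp
    _ ≤ A / t * (ep + bl + 2 * D) + ab * P := by
        rw [h8]
        exact add_le_add_right (mul_le_mul_of_nonneg_left (hP _) hS.ab0.le) _

end AB

end

end TG
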