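import Pool.Agent.TG.Defs

/-!
# Profiles, kits and base kernels of higher order are also of lower order   (helper46)
-/

open MeasureTheory Metric Set TrI
open scoped InnerProductSpace ContDiff

namespace TG

noncomputable section

variable {d : ℕ}

theorem IsProf.mono_order {J J' : ℕ} {M : ℝ} {β : Sp d → ℝ} (h : IsProf J M β) (hJ : J' ≤ J) :
    IsProf J' M β where
  smooth := h.smooth.of_le (by exact_mod_cast hJ)
  nonneg := h.nonneg
  mono := h.mono
  supp := h.supp
  int := h.int
  der := fun j hj => h.der j (hj.trans hJ)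

theorem Kit.mono_order {J J' : ℕ} {M : ℝ} {β : Sp d → ℝ} (h : Kit J M β) (hJ : J' ≤ J) :
    Kit J' M β where
  prof := h.prof.mono_order hJ
  smooth1 := h.smooth1.of_le (by exact_mod_cast hJ)
  smooth2 := h.smooth2.of_le (by exact_mod_cast hJ)
  supp1 := h.supp1
  supp2 := h.supp2
  grad1 := h.grad1
  grad2 := h.grad2
  nonneg1 := h.nonneg1
  nonneg2 := h.nonneg2
  le1 := h.le1
  le2 := h.le2
  mono1 := h.mono1
  mono2 := h.mono2
  der1 := fun j hj => h.der1 j (hj.trans hJ)
  der2 := fun j hj => h.der2 j (hj.trans hJ)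

theorem BaseKer.mono_order {J J' : ℕ} {M c : ℝ} {b : Sp d → ℝ} (h : BaseKer J M c b)
    (hJ : J' ≤ J) : BaseKer J' M c b where
  c_pos := h.c_pos
  smooth := h.smooth.of_le (by exact_mod_cast hJ)
  nonneg := h.nonneg
  mono := h.mono
  supp := h.supp
  int := h.int
  kit := fun n => (h.kit n).mono_order hJ
  low := h.low

end

end TG
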