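import Pool.Agent.TG.ABp
import Pool.Agent.TG.KitMono
import Pool.Agent.TG.Adj

/-!
# Module AB, part 4: the far part (helper72)
-/

open MeasureTheory Metric Set TrI Filter
open scoped InnerProductSpace ContDiff Topology Interval

namespace TG

noncomputable section

namespace AB

variable {d : ℕ}

/-! ## numbers -/

lemma num1 (hd : 1 ≤ d) {γ : ℝ} (hγ0 : 0 < γ) (hγ1 : γ < 1) {r : ℝ} (hr : 1 ≤ r) {ρ c : ℝ}
    (hρ0 : 1 ≤ ρ) (hc : 1 ≤ c) (hρ : ρ ≤ c * r) {K a D : ℝ} (hK : 0 ≤ K) (ha : 0 ≤ a)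
    (hD : 0 ≤ D) :
    (1 / r) ^ d * (K * ρ ^ ((d : ℝ) - 1 + γ) * a + D) ≤
      c ^ d * r ^ (-(1 - γ)) * (K * a + D) := by
  have hd0 : (1 : ℝ) ≤ d := by exact_mod_cast hd
  have hr0 : 0 < r := by linarith
  have hc0 : 0 < c := by linarith
  have e0 : 0 ≤ (d : ℝ) - 1 + γ := by linarith
  have h1 : (1 / r) ^ d = r ^ (-(d : ℝ)) := by
    rw [one_div, inv_pow, Real.rpow_neg hr0.le, Real.rpow_natCast]
  have h2 : ρ ^ ((d : ℝ) - 1 + γ) ≤ c ^ d * r ^ ((d : ℝ) - 1 + γ) := by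
    calc ρ ^ ((d : ℝ) - 1 + γ) ≤ (c * r) ^ ((d : ℝ) - 1 + γ) :=
          Real.rpow_le_rpow (by linarith) hρ e0
      _ = c ^ ((d : ℝ) - 1 + γ) * r ^ ((d : ℝ) - 1 + γ) := Real.mul_rpow hc0.le hr0.le
      _ ≤ c ^ (d : ℝ) * r ^ ((d : ℝ) - 1 + γ) := by
          refine mul_le_mul_of_nonneg_right ?_ (by positivity)
          exact Real.rpow_le_rpow_of_exponent_le hc (by linarith)
      _ = _ := by rw [Real.rpow_natCast]
  have h3 : r ^ (-(d : ℝ)) * r ^ ((d : ℝ) - 1 + γ) = r ^ (-(1 - γ)) := by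
    rw [← Real.rpow_add hr0]
    congr 1
    ring
  have h4 : r ^ (-(d : ℝ)) ≤ r ^ (-(1 - γ)) :=
    Real.rpow_le_rpow_of_exponent_le hr (by linarith)
  have h5 : 1 ≤ c ^ d := one_le_pow₀ hc
  have h6 : 0 ≤ r ^ (-(1 - γ)) := by positivity
  rw [h1]
  have h7 : r ^ (-(d : ℝ)) * (K * ρ ^ ((d : ℝ) - 1 + γ) * a) ≤
      c ^ d * r ^ (-(1 - γ)) * (K * a) := by
    calc r ^ (-(d : ℝ)) * (K * ρ ^ ((d : ℝ) - 1 + γ) * a) ≤
        r ^ (-(d : ℝ)) * (K * (c ^ d * r ^ ((d : ℝ) - 1 + γ)) * a) := by gcongr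
      _ = c ^ d * (r ^ (-(d : ℝ)) * r ^ ((d : ℝ) - 1 + γ)) * (K * a) := by ring
      _ = _ := by rw [h3]
  have h8 : r ^ (-(d : ℝ)) * D ≤ c ^ d * r ^ (-(1 - γ)) * D := by
    calc r ^ (-(d : ℝ)) * D ≤ r ^ (-(1 - γ)) * D := mul_le_mul_of_nonneg_right h4 hD
      _ = 1 * r ^ (-(1 - γ)) * D := by ring
      _ ≤ _ := by gcongr
  calc r ^ (-(d : ℝ)) * (K * ρ ^ ((d : ℝ) - 1 + γ) * a + D) =
      r ^ (-(d : ℝ)) * (K * ρ ^ ((d : ℝ) - 1 + γ) * a) + r ^ (-(d : ℝ)) * D := by ring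
    _ ≤ c ^ d * r ^ (-(1 - γ)) * (K * a) + c ^ d * r ^ (-(1 - γ)) * D := add_le_add h7 h8
    _ = _ := by ring

lemma geo (n : ℕ) : ∑ j ∈ Finset.range n, (3 / 4 : ℝ) ^ j = 4 - 4 * (3 / 4) ^ n := by
  induction n with
  | zero => simp
  | succ n ih =>
    rw [Finset.sum_range_succ, ih, pow_succ]
    ring

lemma num2 {γ : ℝ} (hγ : γ ≤ 1 / 8) (i j : ℕ) :
    ((2 : ℝ) ^ (i + j)) ^ (-(1 - γ)) ≤ (2 : ℝ) ^ (-(i : ℝ) * (1 - γ)) * (3 / 4) ^ j := by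
  have h1 : ((2 : ℝ) ^ (i + j)) ^ (-(1 - γ)) =
      (2 : ℝ) ^ (-(i : ℝ) * (1 - γ)) * ((2 : ℝ) ^ (-(1 - γ))) ^ j := by
    rw [← Real.rpow_natCast, ← Real.rpow_natCast, ← Real.rpow_mul (by norm_num),
      ← Real.rpow_mul (by norm_num), ← Real.rpow_add (by norm_num)]
    congr 1
    push_cast
    ring
  rw [h1]
  refine mul_le_mul_of_nonneg_left ?_ (by positivity)
  refine pow_le_pow_left₀ (by positivity) ?_ j
  have h2 : (2 : ℝ) ^ (-(1 - γ)) ≤ (2 : ℝ) ^ (-(1 / 2) : ℝ) :=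
    Real.rpow_le_rpow_of_exponent_le (by norm_num) (by linarith)
  refine h2.trans ?_
  rw [Real.rpow_neg (by norm_num), ← Real.sqrt_eq_rpow, inv_le_comm₀ (by positivity) (by norm_num)]
  refine Real.le_sqrt_of_sq_le ?_
  norm_num

lemma num3 {γ : ℝ} (i : ℕ) : ((2 : ℝ) ^ i) ^ (-(1 - γ)) = (2 : ℝ) ^ (-(i : ℝ) * (1 - γ)) := by
  rw [← Real.rpow_natCast, ← Real.rpow_mul (by norm_num)]
  congr 1
  ring

/-! ## far shells -/

lemma far_shell (hd : 1 ≤ d) {M c0 : ℝ} {b : Sp d → ℝ} (hb : BaseKer 2 M c0 b) {B : ℝ}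
    (hβ : SMm.BF 4 B (Bp b)) {F : Fin d → Fin d → Sp d → ℝ} (hF : ∀ i j, ContDiff ℝ ∞ (F i j))
    {N : ℝ} (hN0 : 0 ≤ N) (hN : ∀ i j y, |F i j y| ≤ N)
    (hsupp : ∀ i j y, (d : ℝ) + 1 ≤ ‖y‖ → F i j y = 0) {r s : ℝ}
    (hr : 1 ≤ r) (hrs : r ≤ s) (hs : s ≤ 2 * r) {K γ R a D : ℝ} {m : Sp d → ℝ}
    (hMG : MG K γ (2 * R + d) a D m) (hsR : s ≤ R) (hK : 0 ≤ K) (ha : 0 ≤ a) (hD : 0 ≤ D)
    (hγ0 : 0 < γ) (hγ1 : γ < 1) :
    |∫ y, m y * sh b r s F y| ≤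
      d ^ 2 * (B * (volume.real (closedBall (0 : Sp d) (d + 1)) * N)) *
        ((d + 3) ^ d * r ^ (-(1 - γ)) * (K * a + D)) := by
  have hr0 : 0 < r := by linarith
  have hB0 : 0 ≤ B := hβ.nonneg
  have hd0 : (1 : ℝ) ≤ d := by exact_mod_cast hd
  set A : ℝ := d ^ 2 * (B * (volume.real (closedBall (0 : Sp d) (d + 1)) * N)) with hA
  have hA0 : 0 ≤ A := by positivity
  have hk : ∀ k ≤ 2, ∀ y, ‖iteratedFDeriv ℝ k (sh b r s F) y‖ ≤ A * (1 / r) ^ d := by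
    intro k hk y
    refine (sh_bd hb (k := k) (hβ.smooth.of_le (by exact_mod_cast (by omega : k + 2 ≤ 4)))
      (hβ.bd (k + 2) (by omega)) hF hN0 hN hsupp hr0 hrs hs y).trans ?_
    rw [mul_comm]
    refine mul_le_mul_of_nonneg_left ?_ hA0
    refine pow_le_pow_of_le_one (by positivity) ?_ (by omega)
    rw [div_le_one hr0]
    exact hr
  have h1 := MG_use hMG (ρ := d + 1 + s) (A := A * (1 / r) ^ d) (by linarith) (by linarith)
    (H := sh b r s F) (contDiff_infty.1 (sh_smooth hb hr0.le (by linarith) hF) 2)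
    (by positivity) (fun y => by
      have := hk 0 (by omega) y
      rwa [norm_iteratedFDeriv_zero, Real.norm_eq_abs] at this) (hk 2 le_rfl)
    (fun y hy => sh_supp hb hr0.le hrs hsupp (by linarith))
  refine h1.trans ?_
  rw [mul_assoc]
  refine mul_le_mul_of_nonneg_left ?_ hA0
  refine num1 hd hγ0 hγ1 hr (by linarith) (by linarith) ?_ hK ha hD
  nlinarith

lemma sh_cs {M c0 : ℝ} {b : Sp d → ℝ} (hb : BaseKer 2 M c0 b) {r s : ℝ} (hr : 0 ≤ r)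
    (hrs : r ≤ s) {F : Fin d → Fin d → Sp d → ℝ} {ρ : ℝ}
    (hsupp : ∀ i j y, ρ ≤ ‖y‖ → F i j y = 0) : HasCompactSupport (sh b r s F) :=
  cs_of (ρ := ρ + s / 2 + 1) fun y hy => sh_supp hb hr hrs hsupp (by linarith)

lemma far_sum (hd : 1 ≤ d) {M c0 : ℝ} {b : Sp d → ℝ} (hb : BaseKer 2 M c0 b) {B : ℝ}
    (hβ : SMm.BF 4 B (Bp b)) {F : Fin d → Fin d → Sp d → ℝ} (hF : ∀ i j, ContDiff ℝ ∞ (F i j))
    {N : ℝ} (hN0 : 0 ≤ N) (hN : ∀ i j y, |F i j y| ≤ N)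
    (hsupp : ∀ i j y, (d : ℝ) + 1 ≤ ‖y‖ → F i j y = 0)
    {K γ Rm a D : ℝ} {m : Sp d → ℝ} (hm : Continuous m)
    (hMG : MG K γ (2 * Rm + d) a D m) (hK : 0 ≤ K) (ha : 0 ≤ a) (hD : 0 ≤ D)
    (hγ0 : 0 < γ) (hγ : γ ≤ 1 / 8) (I n : ℕ) : ∀ R : ℝ, R ≤ Rm → 2 ^ I ≤ R → R ≤ 2 ^ (I + n) →
    |∫ y, m y * sh b (2 ^ I) R F y| ≤
      d ^ 2 * (B * (volume.real (closedBall (0 : Sp d) (d + 1)) * N)) *
        ((d + 3) ^ d * (K * a + D)) * (2 : ℝ) ^ (-(I : ℝ) * (1 - γ)) *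
        ∑ j ∈ Finset.range n, (3 / 4 : ℝ) ^ j := by
  have hB0 : 0 ≤ B := hβ.nonneg
  set A : ℝ := d ^ 2 * (B * (volume.real (closedBall (0 : Sp d) (d + 1)) * N)) with hA
  have hA0 : 0 ≤ A := by positivity
  induction n with
  | zero =>
    intro R _ h1 h2
    have h3 : R = 2 ^ I := le_antisymm h2 h1
    have h4 : ∀ y, sh b (2 ^ I) R F y = 0 := fun y => by
      unfold sh
      rw [h3, sub_self]
    simp [h4]
  | succ n ih =>
    intro R hR1 hR2 hR3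
    rw [Finset.sum_range_succ, mul_add]
    rcases le_or_gt R (2 ^ (I + n)) with hle | hlt
    · refine (ih R hR1 hR2 hle).trans (le_add_of_nonneg_right (by positivity))
    · have hp : (1 : ℝ) ≤ 2 ^ (I + n) := one_le_pow₀ (by norm_num)
      have hp' : (1 : ℝ) ≤ 2 ^ I := one_le_pow₀ (by norm_num)
      have hpp : (2 : ℝ) ^ I ≤ 2 ^ (I + n) := pow_le_pow_right₀ (by norm_num) (by omega)
      have h1 := ih (2 ^ (I + n)) (hlt.le.trans hR1) hpp le_rfl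
      have h2 := far_shell hd hb hβ hF hN0 hN hsupp hp hlt.le (by
        rw [show I + (n + 1) = (I + n) + 1 by ring, pow_succ] at hR3
        linarith) hMG hR1 hK ha hD hγ0 (by linarith)
      have h3 : ∫ y, m y * sh b (2 ^ I) R F y =
          (∫ y, m y * sh b (2 ^ I) (2 ^ (I + n)) F y) + ∫ y, m y * sh b (2 ^ (I + n)) R F y := by
        rw [← integral_add]
        · refine integral_congr_ae (Eventually.of_forall fun y => ?_)
          simp only [sh]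
          ring
        · exact (hm.mul (sh_smooth hb (by positivity) (by positivity) hF).continuous).integrable_of_hasCompactSupport
            (sh_cs hb (by positivity) hpp hsupp).mul_left
        · exact (hm.mul (sh_smooth hb (by positivity) (by linarith) hF).continuous).integrable_of_hasCompactSupport
            (sh_cs hb (by positivity) hlt.le hsupp).mul_left
      rw [h3]
      refine (abs_add_le _ _).trans (add_le_add h1 (h2.trans ?_))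
      have h4 := num2 hγ I n
      have h5 : 0 ≤ A * ((d + 3) ^ d * (K * a + D)) := by positivity
      calc A * ((d + 3) ^ d * ((2 : ℝ) ^ (I + n)) ^ (-(1 - γ)) * (K * a + D)) =
          A * ((d + 3) ^ d * (K * a + D)) * ((2 : ℝ) ^ (I + n)) ^ (-(1 - γ)) := by ring
        _ ≤ A * ((d + 3) ^ d * (K * a + D)) * ((2 : ℝ) ^ (-(I : ℝ) * (1 - γ)) * (3 / 4) ^ n) :=
            mul_le_mul_of_nonneg_left h4 h5
        _ = _ := by ring

lemma far_all (hd : 1 ≤ d) {M c0 : ℝ} {b : Sp d → ℝ} (hb : BaseKer 2 M c0 b) {B : ℝ}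
    (hβ : SMm.BF 4 B (Bp b)) {F : Fin d → Fin d → Sp d → ℝ} (hF : ∀ i j, ContDiff ℝ ∞ (F i j))
    {N : ℝ} (hN0 : 0 ≤ N) (hN : ∀ i j y, |F i j y| ≤ N)
    (hsupp : ∀ i j y, (d : ℝ) + 1 ≤ ‖y‖ → F i j y = 0)
    {K γ R a D : ℝ} {m : Sp d → ℝ} (hm : Continuous m)
    (hMG : MG K γ (2 * R + d) a D m) (hK : 0 ≤ K) (ha : 0 ≤ a) (hD : 0 ≤ D)
    (hγ0 : 0 < γ) (hγ : γ ≤ 1 / 8) (I : ℕ) (hI : 2 ^ I ≤ R) :
    |∫ y, m y * sh b (2 ^ I) R F y| ≤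
      d ^ 2 * (B * (volume.real (closedBall (0 : Sp d) (d + 1)) * N)) *
        ((d + 3) ^ d * (K * a + D)) * (2 : ℝ) ^ (-(I : ℝ) * (1 - γ)) * 4 := by
  have hB0 : 0 ≤ B := hβ.nonneg
  obtain ⟨n, hn⟩ := pow_unbounded_of_one_lt R (by norm_num : (1 : ℝ) < 2)
  have h1 := far_sum hd hb hβ hF hN0 hN hsupp hm hMG hK ha hD hγ0 hγ I n R le_rfl hI
    (hn.le.trans (pow_le_pow_right₀ (by norm_num) (by omega)))
  refine h1.trans (mul_le_mul_of_nonneg_left ?_ (by positivity))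
  rw [geo]
  have : (0 : ℝ) ≤ (3 / 4) ^ n := by positivity
  linarith

/-! ## the average -/

lemma avk_bd {M c0 : ℝ} {b : Sp d → ℝ} (hb : BaseKer 2 M c0 b) {k : ℕ} (hk : k ≤ 2) {B : ℝ}
    (hB : SMm.BF 2 B b) {φ : Sp d → ℝ} (hφ : ContDiff ℝ ∞ φ) {N ρ : ℝ} (hN : ∀ y, |φ y| ≤ N)
    (hsupp : ∀ y, ρ ≤ ‖y‖ → φ y = 0) {R : ℝ} (hR : 0 < R) (x : Sp d) :
    ‖iteratedFDeriv ℝ k (avk b R φ) x‖ ≤
      (1 / R) ^ (k + d) * (B * (volume.real (closedBall (0 : Sp d) ρ) * N)) := by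
  have hN0 : 0 ≤ N := (abs_nonneg _).trans (hN 0)
  have hB0 : 0 ≤ B := hB.nonneg
  have hb1 : ∀ x, 1 ≤ ‖x‖ → b x = 0 := fun x hx => hb.supp x (by linarith)
  refine ContinuousMultilinearMap.opNorm_le_bound (by positivity) fun h => ?_
  have hφk : ContDiff ℝ k φ := hφ.of_le (by exact_mod_cast le_top)
  rw [hb.ak.iteratedFDeriv_avk hφk R le_rfl x, Real.norm_eq_abs]
  have h1 := hb.ak.avk_clm (ContinuousMultilinearMap.apply ℝ (fun _ : Fin k => Sp d) ℝ h)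
    (g := iteratedFDeriv ℝ k φ) (hφ.continuous_iteratedFDeriv (by exact_mod_cast le_top)) R x
  have h2 : avk b R (iteratedFDeriv ℝ k φ) x h =
      avk b R (fun z => iteratedFDeriv ℝ k φ z h) x := h1.symm
  rw [h2]
  exact key' (hB.smooth.of_le (by exact_mod_cast hk)) (ts_of hb1) (hB.bd k hk) hφ hN hsupp hR x h

lemma avk_supp {M c0 : ℝ} {b : Sp d → ℝ} (hb : BaseKer 2 M c0 b) {φ : Sp d → ℝ} {ρ : ℝ}
    (hsupp : ∀ y, ρ ≤ ‖y‖ → φ y = 0) {R : ℝ} (hR : 0 < R) {y : Sp d} (hy : ρ + R ≤ ‖y‖) :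
    avk b R φ y = 0 := by
  unfold avk
  refine integral_eq_zero_of_ae (Eventually.of_forall fun z => ?_)
  simp only [smul_eq_mul, Pi.zero_apply]
  by_cases hz : 1 / 2 ≤ ‖z‖
  · rw [hb.supp z hz, zero_mul]
  · push Not at hz
    rw [hsupp, mul_zero]
    have h1 : ‖y‖ ≤ ‖y + R • z‖ + ‖R • z‖ := by
      have := norm_sub_le (y + R • z) (R • z)
      rwa [add_sub_cancel_right] at this
    have h2 : ‖R • z‖ ≤ R := by
      rw [norm_smul, Real.norm_of_nonneg hR.le]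
      nlinarith [norm_nonneg z]
    linarith

lemma far_avk (hd : 1 ≤ d) {M c0 : ℝ} {b : Sp d → ℝ} (hb : BaseKer 2 M c0 b) {B : ℝ}
    (hB : SMm.BF 2 B b) {φ : Sp d → ℝ} (hφ : ContDiff ℝ ∞ φ) {N : ℝ} (hN : ∀ y, |φ y| ≤ N)
    (hsupp : ∀ y, (d : ℝ) + 1 ≤ ‖y‖ → φ y = 0)
    {K γ R a D : ℝ} {m : Sp d → ℝ}
    (hMG : MG K γ (2 * R + d) a D m) (hK : 0 ≤ K) (ha : 0 ≤ a) (hD : 0 ≤ D)
    (hγ0 : 0 < γ) (hγ : γ ≤ 1 / 8) (I : ℕ) (hI : 2 ^ I ≤ R) :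
    |∫ y, m y * avk b R φ y| ≤
      B * (volume.real (closedBall (0 : Sp d) (d + 1)) * N) *
        ((d + 2) ^ d * (K * a + D)) * (2 : ℝ) ^ (-(I : ℝ) * (1 - γ)) := by
  have hp' : (1 : ℝ) ≤ 2 ^ I := one_le_pow₀ (by norm_num)
  have hR : 1 ≤ R := hp'.trans hI
  have hR0 : 0 < R := by linarith
  have hN0 : 0 ≤ N := (abs_nonneg _).trans (hN 0)
  have hB0 : 0 ≤ B := hB.nonneg
  have hd0 : (1 : ℝ) ≤ d := by exact_mod_cast hd
  set A : ℝ := B * (volume.real (closedBall (0 : Sp d) (d + 1)) * N) with hA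
  have hA0 : 0 ≤ A := by positivity
  have hk : ∀ k ≤ 2, ∀ y, ‖iteratedFDeriv ℝ k (avk b R φ) y‖ ≤ A * (1 / R) ^ d := by
    intro k hk y
    refine (avk_bd hb hk hB hφ hN hsupp hR0 y).trans ?_
    rw [mul_comm]
    refine mul_le_mul_of_nonneg_left ?_ hA0
    refine pow_le_pow_of_le_one (by positivity) ?_ (by omega)
    rw [div_le_one hR0]
    exact hR
  have h1 := MG_use hMG (ρ := d + 1 + R) (A := A * (1 / R) ^ d) (by linarith) (by linarith)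
    (H := avk b R φ) (hb.ak.avk_contDiff (n := 2) (contDiff_infty.1 hφ 2) R)
    (by positivity) (fun y => by
      have := hk 0 (by omega) y
      rwa [norm_iteratedFDeriv_zero, Real.norm_eq_abs] at this) (hk 2 le_rfl)
    (fun y hy => avk_supp hb hsupp hR0 hy)
  refine h1.trans ?_
  have h2 := num1 hd hγ0 (by linarith) hR (ρ := d + 1 + R) (c := d + 2) (by linarith)
    (by linarith) (by nlinarith) hK ha hD
  have h3 : R ^ (-(1 - γ)) ≤ (2 : ℝ) ^ (-(I : ℝ) * (1 - γ)) := by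
    rw [← num3]
    exact Real.rpow_le_rpow_of_nonpos (by positivity) hI (by linarith)
  calc A * (1 / R) ^ d * (K * (d + 1 + R) ^ ((d : ℝ) - 1 + γ) * a + D) =
      A * ((1 / R) ^ d * (K * (d + 1 + R) ^ ((d : ℝ) - 1 + γ) * a + D)) := by ring
    _ ≤ A * ((d + 2) ^ d * R ^ (-(1 - γ)) * (K * a + D)) := mul_le_mul_of_nonneg_left h2 hA0
    _ = A * ((d + 2) ^ d * (K * a + D)) * R ^ (-(1 - γ)) := by ring
    _ ≤ _ := mul_le_mul_of_nonneg_left h3 (by positivity)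

end AB

end

end TG
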