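import Pool.Agent.TG.ABq

/-!
# Module AB, part 5: assembly for smooth matrix fields (helper72)
-/

open MeasureTheory Metric Set TrI Filter
open scoped InnerProductSpace ContDiff Topology Interval

namespace TG

noncomputable section

namespace AB

variable {d : ℕ}

/-! ## the matrix field F = φ I - Y -/

/-- the quadratic form of a matrix field in direction n, as in the statement -/
def qs (n : Sp d) (Y : Fin d → Fin d → Sp d → ℝ) (y : Sp d) : ℝ := ∑ i, ∑ j, n i * n j * Y i j y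

/-- F = φ I - Y -/
def FF (n : Sp d) (Y : Fin d → Fin d → Sp d → ℝ) (i j : Fin d) (y : Sp d) : ℝ :=
  (if i = j then qs n Y y else 0) - Y i j y

lemma coord_le {n : Sp d} (hn : ‖n‖ = 1) (i : Fin d) : |n i| ≤ 1 := by
  have h1 := PiLp.norm_apply_le n i
  rwa [hn, Real.norm_eq_abs] at h1

lemma sum_sq {n : Sp d} (hn : ‖n‖ = 1) : ∑ i : Fin d, n i * n i = 1 := by
  have := EuclideanSpace.real_norm_sq_eq n
  rw [hn] at this
  simp only [one_pow] at this
  rw [this]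
  exact Finset.sum_congr rfl fun i _ => (sq _).symm

lemma qs_smooth (n : Sp d) {Y : Fin d → Fin d → Sp d → ℝ} (hY : ∀ i j, ContDiff ℝ ∞ (Y i j)) :
    ContDiff ℝ ∞ (qs n Y) :=
  ContDiff.sum fun i _ => ContDiff.sum fun j _ => contDiff_const.mul (hY i j)

lemma FF_smooth (n : Sp d) {Y : Fin d → Fin d → Sp d → ℝ} (hY : ∀ i j, ContDiff ℝ ∞ (Y i j))
    (i j : Fin d) : ContDiff ℝ ∞ (FF n Y i j) := by
  refine ContDiff.sub ?_ (hY i j)
  by_cases hij : i = j
  · simp only [hij, if_true]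
    exact qs_smooth n hY
  · simp only [hij, if_false]
    exact contDiff_const

lemma qs_iter {n : Sp d} (hn : ‖n‖ = 1) {Y : Fin d → Fin d → Sp d → ℝ}
    (hY : ∀ i j, ContDiff ℝ ∞ (Y i j)) {k : ℕ} {N : ℝ}
    (hN : ∀ i j y, ‖iteratedFDeriv ℝ k (Y i j) y‖ ≤ N) (y : Sp d) :
    ‖iteratedFDeriv ℝ k (qs n Y) y‖ ≤ d ^ 2 * N := by
  have h0 : ∀ i j, ContDiffAt ℝ k (fun y => n i * n j * Y i j y) y := fun i j =>
    ((contDiff_const.mul (hY i j)).of_le (by exact_mod_cast le_top)).contDiffAt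
  have h1 : iteratedFDeriv ℝ k (qs n Y) y =
      ∑ i, ∑ j, (n i * n j) • iteratedFDeriv ℝ k (Y i j) y := by
    unfold qs
    rw [iteratedFDeriv_fun_sum_apply (fun i _ => ContDiffAt.sum fun j _ => h0 i j)]
    refine Finset.sum_congr rfl fun i _ => ?_
    rw [iteratedFDeriv_fun_sum_apply (fun j _ => h0 i j)]
    refine Finset.sum_congr rfl fun j _ => ?_
    exact iteratedFDeriv_const_smul_apply' (a := n i * n j)
      ((hY i j).of_le (by exact_mod_cast le_top)).contDiffAt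
  rw [h1]
  calc ‖∑ i, ∑ j, (n i * n j) • iteratedFDeriv ℝ k (Y i j) y‖ ≤
      ∑ _i : Fin d, ∑ _j : Fin d, N := by
        refine (norm_sum_le _ _).trans (Finset.sum_le_sum fun i _ => ?_)
        refine (norm_sum_le _ _).trans (Finset.sum_le_sum fun j _ => ?_)
        rw [norm_smul, Real.norm_eq_abs, abs_mul]
        have h2 := hN i j y
        have h3 : |n i| * |n j| ≤ 1 := mul_le_one₀ (coord_le hn i) (abs_nonneg _) (coord_le hn j)
        calc |n i| * |n j| * ‖iteratedFDeriv ℝ k (Y i j) y‖ ≤ 1 * N :=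
              mul_le_mul h3 h2 (norm_nonneg _) zero_le_one
          _ = N := one_mul N
    _ = _ := by
        simp only [Finset.sum_const, Finset.card_univ, Fintype.card_fin, nsmul_eq_mul]
        ring

lemma FF_iter (hd : 1 ≤ d) {n : Sp d} (hn : ‖n‖ = 1) {Y : Fin d → Fin d → Sp d → ℝ}
    (hY : ∀ i j, ContDiff ℝ ∞ (Y i j)) {k : ℕ} {N : ℝ}
    (hN : ∀ i j y, ‖iteratedFDeriv ℝ k (Y i j) y‖ ≤ N) (i j : Fin d) (y : Sp d) :
    ‖iteratedFDeriv ℝ k (FF n Y i j) y‖ ≤ 2 * d ^ 2 * N := by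
  have hN0 : 0 ≤ N := (norm_nonneg _).trans (hN i j y)
  have hd0 : (1 : ℝ) ≤ d := by exact_mod_cast hd
  have hd1 : (1 : ℝ) ≤ (d : ℝ) ^ 2 := one_le_pow₀ hd0
  have h1 : FF n Y i j = (fun y => if i = j then qs n Y y else 0) - Y i j := rfl
  have h2 : ContDiff ℝ ∞ (fun y => if i = j then qs n Y y else 0) := by
    by_cases hij : i = j
    · simp only [hij, if_true]
      exact qs_smooth n hY
    · simp only [hij, if_false]
      exact contDiff_const
  rw [h1, iteratedFDeriv_sub_apply (h2.of_le (by exact_mod_cast le_top)).contDiffAt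
    ((hY i j).of_le (by exact_mod_cast le_top)).contDiffAt]
  refine (norm_sub_le _ _).trans ?_
  have h3 : ‖iteratedFDeriv ℝ k (fun y => if i = j then qs n Y y else 0) y‖ ≤ d ^ 2 * N := by
    by_cases hij : i = j
    · simp only [hij, if_true]
      exact qs_iter hn hY hN y
    · simp only [hij, if_false]
      have : iteratedFDeriv ℝ k (fun _ : Sp d => (0 : ℝ)) y = 0 := by
        have h := iteratedFDeriv_zero_fun (𝕜 := ℝ) (E := Sp d) (F := ℝ) (n := k)
        exact congrFun h y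
      rw [this, norm_zero]
      positivity
  have h4 := hN i j y
  nlinarith

lemma FF_supp {n : Sp d} {Y : Fin d → Fin d → Sp d → ℝ} {ρ : ℝ}
    (hs : ∀ i j y, ρ ≤ ‖y‖ → Y i j y = 0) (i j : Fin d) (y : Sp d) (hy : ρ ≤ ‖y‖) :
    FF n Y i j y = 0 := by
  unfold FF qs
  simp [hs _ _ y hy]

lemma qs_supp {n : Sp d} {Y : Fin d → Fin d → Sp d → ℝ} {ρ : ℝ}
    (hs : ∀ i j y, ρ ≤ ‖y‖ → Y i j y = 0) (y : Sp d) (hy : ρ ≤ ‖y‖) : qs n Y y = 0 := by
  unfold qs
  simp [hs _ _ y hy]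

/-- the quadratic form of F in direction ν is small if ν is close to n -/
lemma qs_FF {n ν : Sp d} (hν : ‖ν‖ = 1) (Y : Fin d → Fin d → Sp d → ℝ) (y : Sp d) :
    qs ν (FF n Y) y = qs n Y y - qs ν Y y := by
  have h1 : qs ν (FF n Y) y = ∑ i, ∑ j, (ν i * ν j * (if i = j then qs n Y y else 0) -
      ν i * ν j * Y i j y) := by
    unfold qs FF
    refine Finset.sum_congr rfl fun i _ => Finset.sum_congr rfl fun j _ => ?_
    unfold qs
    ring
  rw [h1]
  simp only [Finset.sum_sub_distrib]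
  have h2 : ∑ i, ∑ j, ν i * ν j * (if i = j then qs n Y y else 0) = qs n Y y := by
    have h3 : ∀ i : Fin d, ∑ j, ν i * ν j * (if i = j then qs n Y y else 0) =
        ν i * ν i * qs n Y y := by
      intro i
      rw [Finset.sum_eq_single i]
      · simp
      · intro j _ hj
        rw [if_neg (Ne.symm hj), mul_zero]
      · intro h
        exact absurd (Finset.mem_univ i) h
    simp only [h3]
    rw [← Finset.sum_mul, sum_sq hν, one_mul]
  rw [h2]
  rfl

lemma qs_FF_bd {n ν : Sp d} (hn : ‖n‖ = 1) (hν : ‖ν‖ = 1) {Y : Fin d → Fin d → Sp d → ℝ} {N : ℝ}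
    (hN : ∀ i j y, |Y i j y| ≤ N) (y : Sp d) :
    |qs ν (FF n Y) y| ≤ 2 * d ^ 2 * N * ‖ν - n‖ := by
  rw [qs_FF hν]
  have h1 : qs n Y y - qs ν Y y = ∑ i, ∑ j, (n i * n j - ν i * ν j) * Y i j y := by
    unfold qs
    rw [← Finset.sum_sub_distrib]
    refine Finset.sum_congr rfl fun i _ => ?_
    rw [← Finset.sum_sub_distrib]
    refine Finset.sum_congr rfl fun j _ => ?_
    ring
  have h2 : ∀ i : Fin d, |n i - ν i| ≤ ‖ν - n‖ := by
    intro i
    have h3 := PiLp.norm_apply_le (ν - n) i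
    rw [Real.norm_eq_abs] at h3
    rw [abs_sub_comm]
    exact h3
  rw [h1]
  calc |∑ i, ∑ j, (n i * n j - ν i * ν j) * Y i j y| ≤
      ∑ _i : Fin d, ∑ _j : Fin d, 2 * ‖ν - n‖ * N := by
        refine (Finset.abs_sum_le_sum_abs _ _).trans (Finset.sum_le_sum fun i _ => ?_)
        refine (Finset.abs_sum_le_sum_abs _ _).trans (Finset.sum_le_sum fun j _ => ?_)
        rw [abs_mul]
        have h3 : |n i * n j - ν i * ν j| ≤ 2 * ‖ν - n‖ := by
          have h4 : n i * n j - ν i * ν j = n i * (n j - ν j) + (n i - ν i) * ν j := by ring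
          rw [h4]
          refine (abs_add_le _ _).trans ?_
          rw [abs_mul, abs_mul]
          have h5 : |n i| * |n j - ν j| ≤ 1 * ‖ν - n‖ :=
            mul_le_mul (coord_le hn i) (h2 j) (abs_nonneg _) zero_le_one
          have h6 : |n i - ν i| * |ν j| ≤ ‖ν - n‖ * 1 :=
            mul_le_mul (h2 i) (coord_le hν j) (abs_nonneg _) (norm_nonneg _)
          linarith
        exact mul_le_mul h3 (hN i j y) (abs_nonneg _) (by positivity)
    _ = _ := by
        simp only [Finset.sum_const, Finset.card_univ, Fintype.card_fin, nsmul_eq_mul]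
        ring

lemma qs_FF_self {n : Sp d} (hn : ‖n‖ = 1) (Y : Fin d → Fin d → Sp d → ℝ) :
    qs n (FF n Y) = fun _ => 0 := by
  ext y
  rw [qs_FF hn, sub_self]

/-! ## the decomposition -/

lemma dd2_sub {A B : Fin d → Fin d → Sp d → ℝ} (hA : ∀ i j, ContDiff ℝ ∞ (A i j))
    (hB : ∀ i j, ContDiff ℝ ∞ (B i j)) :
    dd2 (fun i j y => A i j y - B i j y) = fun y => dd2 A y - dd2 B y := by
  ext y
  unfold dd2 pd2
  rw [← Finset.sum_sub_distrib]
  refine Finset.sum_congr rfl fun i _ => ?_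
  rw [← Finset.sum_sub_distrib]
  refine Finset.sum_congr rfl fun j _ => ?_
  change iteratedFDeriv ℝ 2 (A i j - B i j) y _ = _
  rw [iteratedFDeriv_sub_apply (contDiff_infty.1 (hA i j) 2).contDiffAt
    (contDiff_infty.1 (hB i j) 2).contDiffAt]
  rfl

lemma decomp (hPF : StmtPF) (hd : 2 ≤ d) {M c0 : ℝ} {b : Sp d → ℝ} (hb : BaseKer 2 M c0 b)
    (n : Sp d) {Y : Fin d → Fin d → Sp d → ℝ} (hY : ∀ i j, ContDiff ℝ ∞ (Y i j))
    {ρ : ℝ} (hs : ∀ i j y, ρ ≤ ‖y‖ → Y i j y = 0) {R : ℝ} (hR : 0 < R) (y : Sp d) :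
    qs n Y y - nt b R Y y = nt b R (FF n Y) y + avk b R (qs n Y) y := by
  have hk := hb.kit 0
  have hq : ContDiff ℝ ∞ (qs n Y) := qs_smooth n hY
  obtain ⟨-, h2, -⟩ := stmtNN hPF d hd M c0 b hb R hR
  have h3 := h2 (qs n Y) hq (cs_of (qs_supp hs)) y
  set Q : Fin d → Fin d → Sp d → ℝ := fun i j z => if i = j then qs n Y z else 0 with hQ
  have hQs : ∀ i j, ContDiff ℝ ∞ (Q i j) := by
    intro i j
    by_cases hij : i = j
    · simp only [hQ, hij, if_true]
      exact hq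
    · simp only [hQ, hij, if_false]
      exact contDiff_const
  have h4 : nt b R (FF n Y) y = nt b R Q y - nt b R Y y := by
    have h5 : FF n Y = fun i j y => Q i j y - Y i j y := rfl
    unfold nt
    rw [h5, dd2_sub hQs hY]
    have hβ : Continuous (Bp b) := hk.smooth1.continuous
    have c1 : Continuous (dd2 Q) := (NN.dd2_smooth hQs).continuous
    have c2 : Continuous (dd2 Y) := (NN.dd2_smooth hY).continuous
    have h6 : NNp b R (fun y => dd2 Q y - dd2 Y y) y = NNp b R (dd2 Q) y - NNp b R (dd2 Y) y := by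
      rw [NN.NNp_eq (φ := fun y => dd2 Q y - dd2 Y y) hβ hk.supp1 hR.le (c1.sub c2), NN.NNp_eq hβ hk.supp1 hR.le c1,
        NN.NNp_eq hβ hk.supp1 hR.le c2, ← integral_sub]
      · refine integral_congr_ae (Eventually.of_forall fun p => ?_)
        simp only
        ring
      · exact NN.int_SS hβ c1 R y
      · exact NN.int_SS hβ c2 R y
    rw [h6]
    ring
  rw [h4, h3]
  ring

/-- the levels -/
def Lvl (b : Sp d → ℝ) (F : Fin d → Fin d → Sp d → ℝ) : ℕ → Sp d → ℝ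
  | 0 => nt b 1 F
  | l + 1 => sh b (2 ^ l) (2 ^ (l + 1)) F

lemma Lvl_sum (b : Sp d → ℝ) (F : Fin d → Fin d → Sp d → ℝ) (I : ℕ) (y : Sp d) :
    ∑ l ∈ Finset.range (I + 1), Lvl b F l y = nt b (2 ^ I) F y := by
  induction I with
  | zero => simp [Lvl]
  | succ I ih =>
    rw [Finset.sum_range_succ, ih]
    simp only [Lvl, sh]
    ring

lemma Lvl_smooth {M c0 : ℝ} {b : Sp d → ℝ} (hb : BaseKer 2 M c0 b)
    {F : Fin d → Fin d → Sp d → ℝ} (hF : ∀ i j, ContDiff ℝ ∞ (F i j)) (l : ℕ) :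
    ContDiff ℝ ∞ (Lvl b F l) := by
  cases l with
  | zero => exact nt_smooth hb zero_le_one hF
  | succ l => exact sh_smooth hb (by positivity) (by positivity) hF

lemma Lvl_supp (hd : 1 ≤ d) {M c0 : ℝ} {b : Sp d → ℝ} (hb : BaseKer 2 M c0 b)
    {F : Fin d → Fin d → Sp d → ℝ} (hsupp : ∀ i j y, (d : ℝ) + 1 ≤ ‖y‖ → F i j y = 0) (l : ℕ)
    (y : Sp d) (hy : (d : ℝ) + 1 + 2 ^ l ≤ ‖y‖) : Lvl b F l y = 0 := by
  cases l with
  | zero =>
    refine nt_supp hb zero_le_one hsupp ?_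
    simp only [pow_zero] at hy
    linarith
  | succ l =>
    have hp : (0 : ℝ) < 2 ^ (l + 1) := by positivity
    refine sh_supp hb (by positivity) (pow_le_pow_right₀ (by norm_num) (by omega)) hsupp ?_
    linarith

/-- bounds of the levels -/
lemma Lvl_bd (hd : 1 ≤ d) {M c0 : ℝ} {b : Sp d → ℝ} (hb : BaseKer 2 M c0 b) {J : ℕ} {B : ℝ}
    (hβ : SMm.BF (J + 4) B (Bp b)) {F : Fin d → Fin d → Sp d → ℝ}
    (hF : ∀ i j, ContDiff ℝ ∞ (F i j)) {N : ℝ} (hN0 : 0 ≤ N)
    (hN : ∀ k ≤ J + 4, ∀ i j y, ‖iteratedFDeriv ℝ k (F i j) y‖ ≤ N)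
    (hsupp : ∀ i j y, (d : ℝ) + 1 ≤ ‖y‖ → F i j y = 0) (l : ℕ) :
    ∀ k ≤ J + 2, ∀ y, ‖iteratedFDeriv ℝ k (Lvl b F l) y‖ ≤
      ((2 ^ (J + 2 + d) * (B * volume.real (closedBall (0 : Sp d) (d + 1))) + 1) * d ^ 2 * N) *
        (1 / 2 ^ l) ^ (k + d) := by
  intro k hk y
  have hB0 : 0 ≤ B := hβ.nonneg
  set v : ℝ := volume.real (closedBall (0 : Sp d) (d + 1)) with hv
  have hv0 : 0 ≤ v := measureReal_nonneg
  cases l with
  | zero =>
    have h1 := nt_bd hb zero_le_one hF (k := k) (N := N) (fun i j x => hN (k + 2) (by omega) i j x) y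
    have h2 : Lvl b F 0 = nt b 1 F := rfl
    rw [h2]
    refine h1.trans ?_
    simp only [pow_zero, div_one, one_pow, mul_one, one_mul]
    have h3 : 0 ≤ 2 ^ (J + 2 + d) * (B * v) * (d ^ 2 * N) := by positivity
    nlinarith
  | succ l =>
    have hN' : ∀ i j y, |F i j y| ≤ N := by
      intro i j y
      have := hN 0 (by omega) i j y
      rwa [norm_iteratedFDeriv_zero, Real.norm_eq_abs] at this
    have h1 := sh_bd hb (k := k) (hβ.smooth.of_le (by exact_mod_cast (by omega : k + 2 ≤ J + 4)))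
      (hβ.bd (k + 2) (by omega)) hF hN0 hN' hsupp (r := 2 ^ l) (s := 2 ^ (l + 1)) (by positivity)
      (pow_le_pow_right₀ (by norm_num) (by omega)) (by rw [pow_succ]; linarith) y
    have h2 : Lvl b F (l + 1) = sh b (2 ^ l) (2 ^ (l + 1)) F := rfl
    rw [h2]
    refine h1.trans ?_
    have h3 : (1 / (2 : ℝ) ^ l) ^ (k + d) = 2 ^ (k + d) * (1 / 2 ^ (l + 1)) ^ (k + d) := by
      rw [← mul_pow]
      congr 1
      rw [pow_succ]
      field_simp
    have h4 : (2 : ℝ) ^ (k + d) ≤ 2 ^ (J + 2 + d) := pow_le_pow_right₀ (by norm_num) (by omega)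
    rw [h3]
    calc 2 ^ (k + d) * (1 / 2 ^ (l + 1)) ^ (k + d) * (d ^ 2 * (B * (v * N))) ≤
        2 ^ (J + 2 + d) * (1 / 2 ^ (l + 1)) ^ (k + d) * (d ^ 2 * (B * (v * N))) := by gcongr
      _ = ((2 ^ (J + 2 + d) * (B * v)) * d ^ 2 * N) * (1 / 2 ^ (l + 1)) ^ (k + d) := by ring
      _ ≤ _ := by
          refine mul_le_mul_of_nonneg_right ?_ (by positivity)
          refine mul_le_mul_of_nonneg_right ?_ hN0
          refine mul_le_mul_of_nonneg_right ?_ (by positivity)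
          linarith

/-- plane integrals of the levels -/
lemma Lvl_plane (hPF : StmtPF) (hd : 2 ≤ d) {M c0 : ℝ} {b : Sp d → ℝ} (hb : BaseKer 2 M c0 b) :
    ∃ C : ℝ, 0 < C ∧ ∀ (Y : Fin d → Fin d → Sp d → ℝ) (N : ℝ), (∀ i j, ContDiff ℝ ∞ (Y i j)) →
      (∀ i j y, |Y i j y| ≤ N) → (∀ i j y, (d : ℝ) + 1 ≤ ‖y‖ → Y i j y = 0) →
      ∀ n ν : Sp d, ‖n‖ = 1 → ‖ν‖ = 1 → ∀ (l : ℕ), (l = 0 → ν = n) → ∀ c : ℝ,
      |plInt ν c (Lvl b (FF n Y) l)| ≤ C * N * ‖ν - n‖ * (1 / 2) ^ l := by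
  obtain ⟨C, hC, hpb⟩ := plane_bound hPF (by omega) hb ((d : ℝ) + 1) (by positivity)
  refine ⟨6 * d ^ 2 * C + 1, by positivity, fun Y N hY hN hs n ν hn hν l hl c => ?_⟩
  have hd' : 0 < d := by omega
  have hN0 : 0 ≤ N := (abs_nonneg _).trans (hN ⟨0, hd'⟩ ⟨0, hd'⟩ 0)
  have hFs := FF_smooth n hY
  have hFc : ∀ i j, HasCompactSupport (FF n Y i j) := fun i j =>
    cs_of (fun y hy => FF_supp hs i j y hy)
  have hpl : ∀ R : ℝ, 0 < R → plInt ν c (nt b R (FF n Y)) = plInt ν c (qs ν (FF n Y)) -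
      ∫ x, b x * plInt ν (c + R * ⟪ν, x⟫_ℝ) (qs ν (FF n Y)) := by
    intro R hR
    obtain ⟨-, -, h3⟩ := stmtNN hPF d hd M c0 b hb R hR
    exact (h3 (FF n Y) hFs hFc).2.2 ν c hν
  have hbd : ∀ R : ℝ, 0 < R → |∫ x, b x * plInt ν (c + R * ⟪ν, x⟫_ℝ) (qs ν (FF n Y))| ≤
      C * (2 * d ^ 2 * N * ‖ν - n‖) / R := by
    intro R hR
    refine hpb ν hν _ _ (qs_smooth ν hFs).continuous (qs_FF_bd hn hν hN) (fun y hy => ?_) c R hR
    exact qs_supp (fun i j y hy => FF_supp hs i j y hy) y hy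
  cases l with
  | zero =>
    have h1 : ν = n := hl rfl
    have h2 : Lvl b (FF n Y) 0 = nt b 1 (FF n Y) := rfl
    rw [h2, hpl 1 one_pos, h1, qs_FF_self hn]
    simp [plInt]
  | succ l =>
    have h2 : plInt ν c (Lvl b (FF n Y) (l + 1)) =
        plInt ν c (nt b (2 ^ (l + 1)) (FF n Y)) - plInt ν c (nt b (2 ^ l) (FF n Y)) := by
      have h3 : ∀ R : ℝ, 0 < R → Integrable (fun y : (Submodule.span ℝ {ν})ᗮ =>
          nt b R (FF n Y) (c • ν + (y : Sp d))) := fun R hR =>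
        NN.pl_int (nt_smooth hb hR.le hFs).continuous
          (cs_of (ρ := d + 1 + R / 2 + 1) fun y hy => nt_supp hb hR.le
            (fun i j y hy => FF_supp hs i j y hy) (by linarith))
      have h4 : Lvl b (FF n Y) (l + 1) = fun y =>
        nt b (2 ^ (l + 1)) (FF n Y) y - nt b (2 ^ l) (FF n Y) y := rfl
      rw [h4]
      exact integral_sub (h3 _ (by positivity)) (h3 _ (by positivity))
    rw [h2, hpl _ (by positivity), hpl _ (by positivity)]
    have h5 := hbd (2 ^ (l + 1)) (by positivity)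
    have h6 := hbd (2 ^ l) (by positivity)
    have h7 : (1 / 2 : ℝ) ^ (l + 1) = 1 / 2 ^ (l + 1) := by rw [div_pow, one_pow]
    have h8 : (1 : ℝ) / 2 ^ l = 2 * (1 / 2 ^ (l + 1)) := by
      rw [pow_succ]
      field_simp
    set q := C * (2 * d ^ 2 * N * ‖ν - n‖) with hq
    have hq0 : 0 ≤ q := by positivity
    set w : ℝ := 1 / 2 ^ (l + 1) with hw
    have hw0 : 0 ≤ w := by positivity
    have h5' : q / 2 ^ (l + 1) = q * w := by rw [hw]; ring
    have h6' : q / 2 ^ l = q * (2 * w) := by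
      rw [hw, ← h8]
      ring
    rw [h5'] at h5
    rw [h6'] at h6
    rw [h7]
    set P := plInt ν c (qs ν (FF n Y))
    set I1 := ∫ x, b x * plInt ν (c + 2 ^ (l + 1) * ⟪ν, x⟫_ℝ) (qs ν (FF n Y))
    set I2 := ∫ x, b x * plInt ν (c + 2 ^ l * ⟪ν, x⟫_ℝ) (qs ν (FF n Y))
    have h9 : |P - I1 - (P - I2)| ≤ |I1| + |I2| := by
      have : P - I1 - (P - I2) = -I1 + I2 := by ring
      rw [this]
      refine (abs_add_le _ _).trans ?_
      rw [abs_neg]
    refine h9.trans ((add_le_add h5 h6).trans ?_)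
    have h10 : q * w + q * (2 * w) = 6 * d ^ 2 * C * N * ‖ν - n‖ * w := by
      rw [hq]
      ring
    rw [h10]
    have h11 : 0 ≤ N * ‖ν - n‖ * w := by positivity
    nlinarith

/-! ## assembly -/

lemma half_sum (n : ℕ) : ∑ j ∈ Finset.range n, (1 / 2 : ℝ) ^ j ≤ 2 := by
  have h1 : ∑ j ∈ Finset.range n, (1 / 2 : ℝ) ^ j = 2 - 2 * (1 / 2) ^ n := by
    induction n with
    | zero => simp
    | succ n ih =>
      rw [Finset.sum_range_succ, ih, pow_succ]
      ring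
  rw [h1]
  have : (0 : ℝ) ≤ (1 / 2) ^ n := by positivity
  linarith

/-- the estimate for smooth matrix fields -/
theorem smooth_case (hPF : StmtPF) (d J : ℕ) (hd : 2 ≤ d) (Mb cb K γ R0 : ℝ) (b : Sp d → ℝ)
    (hb : BaseKer (J + 10) Mb cb b) (hK : 0 < K) (hγ0 : 0 < γ) (hγ : γ ≤ 1 / (8 * d))
    (hR0 : 6 * d + 20 ≤ R0) : ∃ C : ℝ, 0 < C ∧
    ∀ (I : ℕ) (R : ℝ), 2 ^ I ≤ R →
    ∀ (m : Sp d → ℝ) (a D : ℝ) (x : ℕ → Sp d) (n : ℕ → Sp d) (s ab ep : ℕ → ℝ),
      Continuous m → 0 ≤ a → 0 ≤ D → MG K γ (2 * R + d) a D m →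
      (∀ l ≤ I, ‖x l‖ ≤ d * 2 ^ l ∧
        Sheet J R0 (ab l) (ep l) D (fun y => 2 ^ l * m (x l + (2 : ℝ) ^ l • y)) (n l) (s l)) →
    ∀ (Y : Fin d → Fin d → Sp d → ℝ) (N : ℝ), (∀ i j, ContDiff ℝ ∞ (Y i j)) →
      (∀ i j, TFn (J + 6) N (Y i j)) →
      (∀ i j y, (d : ℝ) + 1 ≤ ‖y‖ → Y i j y = 0) →
      |∫ y, m y * ((∑ i, ∑ j, n 0 i * n 0 j * Y i j y) - nt b R Y y)| ≤
        C * N * ∑ l ∈ Finset.range (I + 1), (1 / 2 : ℝ) ^ l *
            (ab l * ‖n l - n 0‖ + ep l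
              + blc (n l) (s l) (fun y => 2 ^ l * m (x l + (2 : ℝ) ^ l • y)) (4 * d + 8))
          + C * N * K * (2 : ℝ) ^ (-(I : ℝ) * (1 - γ)) * a + 5 * C * N * D := by
  have hb2 : BaseKer 2 Mb cb b := hb.mono_order (by omega)
  have hd1 : 1 ≤ d := by omega
  have hdr : (2 : ℝ) ≤ d := by exact_mod_cast hd
  have hγ8 : γ ≤ 1 / 8 := by
    refine hγ.trans (one_div_le_one_div_of_le (by norm_num) ?_)
    linarith
  have hb1 : ∀ x, 1 ≤ ‖x‖ → b x = 0 := fun x hx => hb.supp x (by linarith)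
  obtain ⟨B, hB0, hβ⟩ := SMm.BF.of_compact (J := J + 10) (hb.kit 0).smooth1
    (NN.kernel_cs (hb.kit 0).supp1)
  obtain ⟨B', hB0', hbb⟩ := SMm.BF.of_compact (J := J + 10) hb.smooth (NN.kernel_cs hb1)
  obtain ⟨CP, hCP, hpl⟩ := Lvl_plane hPF hd hb2
  set v : ℝ := volume.real (closedBall (0 : Sp d) (d + 1)) with hv
  have hv0 : 0 ≤ v := measureReal_nonneg
  -- constants
  set A1 : ℝ := (2 ^ (J + 2 + d) * (B * v) + 1) * d ^ 2 * (2 * d ^ 2) with hA1
  set A2 : ℝ := d ^ 2 * (B * (v * (2 * d ^ 2))) * (d + 3) ^ d * 4 with hA2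
  set A3 : ℝ := B' * (v * d ^ 2) * (d + 2) ^ d with hA3
  have hA10 : 0 ≤ A1 := by positivity
  have hA20 : 0 ≤ A2 := by positivity
  have hA30 : 0 ≤ A3 := by positivity
  refine ⟨A1 + CP + A2 + A3, by positivity, ?_⟩
  intro I R hIR m a D x n s ab ep hm ha hD hMG hS Y N hY hTY hsY
  have hN0 : 0 ≤ N := (norm_nonneg _).trans ((hTY ⟨0, by omega⟩ ⟨0, by omega⟩).bd 0 (by omega) 0)
  have hn0 : ‖n 0‖ = 1 := (hS 0 (by omega)).2.n1
  have hp : (1 : ℝ) ≤ 2 ^ I := one_le_pow₀ (by norm_num)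
  have hR : 0 < R := by linarith
  have hYb : ∀ i j y, |Y i j y| ≤ N := by
    intro i j y
    have := (hTY i j).bd 0 (by omega) y
    rwa [norm_iteratedFDeriv_zero, Real.norm_eq_abs] at this
  set F := FF (n 0) Y with hF
  have hFs : ∀ i j, ContDiff ℝ ∞ (F i j) := FF_smooth (n 0) hY
  have hFb : ∀ k ≤ J + 4, ∀ i j y, ‖iteratedFDeriv ℝ k (F i j) y‖ ≤ 2 * d ^ 2 * N := by
    intro k hk i j y
    exact FF_iter hd1 hn0 hY (fun i j y => (hTY i j).bd k (by omega) y) i j y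
  have hFb0 : ∀ i j y, |F i j y| ≤ 2 * d ^ 2 * N := by
    intro i j y
    have := hFb 0 (by omega) i j y
    rwa [norm_iteratedFDeriv_zero, Real.norm_eq_abs] at this
  have hFsupp : ∀ i j y, (d : ℝ) + 1 ≤ ‖y‖ → F i j y = 0 := fun i j y hy => FF_supp hsY i j y hy
  have hqb : ∀ y, |qs (n 0) Y y| ≤ d ^ 2 * N := by
    intro y
    have := qs_iter hn0 hY (k := 0) (fun i j y => (hTY i j).bd 0 (by omega) y) y
    rwa [norm_iteratedFDeriv_zero, Real.norm_eq_abs] at this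
  -- the three parts
  have hdec : ∀ y, m y * ((∑ i, ∑ j, n 0 i * n 0 j * Y i j y) - nt b R Y y) =
      (∑ l ∈ Finset.range (I + 1), m y * Lvl b F l y) + m y * sh b (2 ^ I) R F y +
        m y * avk b R (qs (n 0) Y) y := by
    intro y
    have h1 := decomp hPF hd hb2 (n 0) hY hsY hR y
    have h2 := Lvl_sum b F I y
    have h3 : (∑ i, ∑ j, n 0 i * n 0 j * Y i j y) = qs (n 0) Y y := rfl
    rw [h3, h1, ← Finset.mul_sum, h2]
    unfold sh
    ring
  have i1 : ∀ l, Integrable (fun y => m y * Lvl b F l y) := fun l =>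
    (hm.mul (Lvl_smooth hb2 hFs l).continuous).integrable_of_hasCompactSupport
      (cs_of (fun y hy => Lvl_supp hd1 hb2 hFsupp l y hy)).mul_left
  have i2 : Integrable (fun y => m y * sh b (2 ^ I) R F y) :=
    (hm.mul (sh_smooth hb2 (by positivity) hR.le hFs).continuous).integrable_of_hasCompactSupport
      (sh_cs hb2 (by positivity) hIR hFsupp).mul_left
  have i3 : Integrable (fun y => m y * avk b R (qs (n 0) Y) y) :=
    (hm.mul (hb2.ak.avk_cont (qs_smooth (n 0) hY).continuous R)).integrable_of_hasCompactSupport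
      (cs_of (fun y hy => avk_supp hb2 (qs_supp hsY) hR hy)).mul_left
  have hsplit : ∫ y, m y * ((∑ i, ∑ j, n 0 i * n 0 j * Y i j y) - nt b R Y y) =
      (∑ l ∈ Finset.range (I + 1), ∫ y, m y * Lvl b F l y) + (∫ y, m y * sh b (2 ^ I) R F y) +
        ∫ y, m y * avk b R (qs (n 0) Y) y := by
    have iS : Integrable (fun y => ∑ l ∈ Finset.range (I + 1), m y * Lvl b F l y) :=
      integrable_finsetSum _ fun l _ => i1 l
    have iA : Integrable (fun y => (∑ l ∈ Finset.range (I + 1), m y * Lvl b F l y) +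
        m y * sh b (2 ^ I) R F y) := iS.add i2
    simp only [hdec]
    rw [integral_add iA i3, integral_add iS i2, integral_finsetSum _ fun l _ => i1 l]
  -- levels
  set C : ℝ := A1 + CP + A2 + A3 with hC
  have hC0 : 0 ≤ C := by positivity
  have hlev : ∀ l ∈ Finset.range (I + 1), |∫ y, m y * Lvl b F l y| ≤
      C * N * ((1 / 2 : ℝ) ^ l * (ab l * ‖n l - n 0‖ + ep l
        + blc (n l) (s l) (fun y => 2 ^ l * m (x l + (2 : ℝ) ^ l • y)) (4 * d + 8))) +
      2 * C * N * D * (1 / 2) ^ l := by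
    intro l hl
    have hlI : l ≤ I := by
      rw [Finset.mem_range] at hl
      omega
    obtain ⟨hx, hSl⟩ := hS l hlI
    have ht : (1 : ℝ) ≤ 2 ^ l := one_le_pow₀ (by norm_num)
    have h1 := level hd1 ht hx hSl hR0 (Lvl_smooth hb2 hFs l) (A := C * N)
      (P := CP * N * ‖n l - n 0‖ * (1 / 2) ^ l) (by positivity) (fun k hk y => ?_)
      (fun y hy => Lvl_supp hd1 hb2 hFsupp l y hy)
      (fun c => hpl Y N hY hYb hsY (n 0) (n l) hn0 hSl.n1 l (fun h => by rw [h]) c)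
    · have h2 : C * N / 2 ^ l = C * N * (1 / 2) ^ l := by
        rw [div_pow, one_pow]
        ring
      rw [h2] at h1
      refine h1.trans ?_
      have h3 : ab l * (CP * N * ‖n l - n 0‖ * (1 / 2) ^ l) ≤
          C * N * ((1 / 2) ^ l * (ab l * ‖n l - n 0‖)) := by
        have h4 : 0 ≤ N * ((1 / 2) ^ l * (ab l * ‖n l - n 0‖)) := by
          have := hSl.ab0
          positivity
        calc ab l * (CP * N * ‖n l - n 0‖ * (1 / 2) ^ l) =
            CP * (N * ((1 / 2) ^ l * (ab l * ‖n l - n 0‖))) := by ring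
          _ ≤ C * (N * ((1 / 2) ^ l * (ab l * ‖n l - n 0‖))) :=
              mul_le_mul_of_nonneg_right (by rw [hC]; linarith) h4
          _ = _ := by ring
      have h5 : ∀ bl : ℝ, C * N * (1 / 2) ^ l * (ep l + bl + 2 * D) +
          C * N * ((1 / 2) ^ l * (ab l * ‖n l - n 0‖)) =
          C * N * ((1 / 2 : ℝ) ^ l * (ab l * ‖n l - n 0‖ + ep l + bl)) +
            2 * C * N * D * (1 / 2) ^ l := by
        intro bl
        ring
      rw [← h5]
      exact add_le_add_right h3 _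
    · refine (Lvl_bd hd1 hb2 (J := J) (hβ.le (by omega)) hFs (N := 2 * d ^ 2 * N) (by positivity)
        hFb hFsupp l k hk y).trans ?_
      refine mul_le_mul_of_nonneg_right ?_ (by positivity)
      calc (2 ^ (J + 2 + d) * (B * v) + 1) * d ^ 2 * (2 * d ^ 2 * N) = A1 * N := by
            rw [hA1]
            ring
        _ ≤ C * N := mul_le_mul_of_nonneg_right (by rw [hC]; linarith) hN0
  have hfar := far_all hd1 hb2 (hβ.le (by omega : 4 ≤ J + 10)) hFs (N := 2 * d ^ 2 * N)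
    (by positivity) hFb0 hFsupp hm hMG hK.le ha hD hγ0 hγ8 I hIR
  have havk := far_avk hd1 hb2 (hbb.le (by omega : 2 ≤ J + 10)) (qs_smooth (n 0) hY) hqb
    (qs_supp hsY) hMG hK.le ha hD hγ0 hγ8 I hIR
  set w : ℝ := (2 : ℝ) ^ (-(I : ℝ) * (1 - γ)) with hw
  have hw0 : 0 ≤ w := by positivity
  have hw1 : w ≤ 1 := by
    refine Real.rpow_le_one_of_one_le_of_nonpos (by norm_num) ?_
    have : (0 : ℝ) ≤ I := Nat.cast_nonneg I
    nlinarith
  have hfar' : |∫ y, m y * sh b (2 ^ I) R F y| ≤ A2 * N * K * w * a + A2 * N * D := by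
    refine hfar.trans ?_
    have h1 : d ^ 2 * (B * (v * (2 * d ^ 2 * N))) * ((d + 3) ^ d * (K * a + D)) * w * 4 =
        A2 * N * K * w * a + A2 * N * D * w := by
      rw [hA2]
      ring
    rw [h1]
    have h2 : A2 * N * D * w ≤ A2 * N * D * 1 := mul_le_mul_of_nonneg_left hw1 (by positivity)
    linarith
  have havk' : |∫ y, m y * avk b R (qs (n 0) Y) y| ≤ A3 * N * K * w * a + A3 * N * D := by
    refine havk.trans ?_
    have h1 : B' * (v * (d ^ 2 * N)) * ((d + 2) ^ d * (K * a + D)) * w =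
        A3 * N * K * w * a + A3 * N * D * w := by
      rw [hA3]
      ring
    rw [h1]
    have h2 : A3 * N * D * w ≤ A3 * N * D * 1 := mul_le_mul_of_nonneg_left hw1 (by positivity)
    linarith
  have hsum : |∑ l ∈ Finset.range (I + 1), ∫ y, m y * Lvl b F l y| ≤
      C * N * (∑ l ∈ Finset.range (I + 1), (1 / 2 : ℝ) ^ l * (ab l * ‖n l - n 0‖ + ep l
        + blc (n l) (s l) (fun y => 2 ^ l * m (x l + (2 : ℝ) ^ l • y)) (4 * d + 8))) +
      4 * C * N * D := by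
    refine (Finset.abs_sum_le_sum_abs _ _).trans ((Finset.sum_le_sum hlev).trans ?_)
    rw [Finset.sum_add_distrib, ← Finset.mul_sum, ← Finset.mul_sum]
    refine add_le_add_right ?_ _
    have h1 := half_sum (I + 1)
    calc 2 * C * N * D * ∑ i ∈ Finset.range (I + 1), (1 / 2 : ℝ) ^ i ≤ 2 * C * N * D * 2 :=
          mul_le_mul_of_nonneg_left h1 (by positivity)
      _ = _ := by ring
  rw [hsplit]
  refine (abs_add_le _ _).trans ?_
  refine (add_le_add ((abs_add_le _ _).trans (add_le_add hsum hfar')) havk').trans ?_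
  have h1 : A2 * N * K * w * a + A3 * N * K * w * a ≤ C * N * K * w * a := by
    have h2 : 0 ≤ N * K * w * a := by positivity
    calc A2 * N * K * w * a + A3 * N * K * w * a = (A2 + A3) * (N * K * w * a) := by ring
      _ ≤ C * (N * K * w * a) := mul_le_mul_of_nonneg_right (by rw [hC]; linarith) h2
      _ = _ := by ring
  have h2 : A2 * N * D + A3 * N * D ≤ C * N * D := by
    have h3 : 0 ≤ N * D := by positivity
    calc A2 * N * D + A3 * N * D = (A2 + A3) * (N * D) := by ring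
      _ ≤ C * (N * D) := mul_le_mul_of_nonneg_right (by rw [hC]; linarith) h3
      _ = _ := by ring
  linarith

end AB

end

end TG
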