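import Pool.Agent.TG.ABk

/-!
# Module AB, part 2: shells of the truncated Newton potential (helper72)
-/

open MeasureTheory Metric Set TrI Filter
open scoped InnerProductSpace ContDiff Topology Interval

namespace TG

noncomputable section

namespace AB

variable {d : ℕ}

/-! ## double divergence -/

lemma iter_pd2 {k : ℕ} {g : Sp d → ℝ} (hg : ContDiff ℝ ∞ g) (i j : Fin d) (x : Sp d)
    (h : Fin k → Sp d) :
    iteratedFDeriv ℝ k (pd2 i j g) x h =
      iteratedFDeriv ℝ (k + 2) g x (Fin.snoc (Fin.snoc h (bv i)) (bv j)) := by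
  have h1 : pd2 i j g = fun y => fderiv ℝ (fun z => fderiv ℝ g z (bv j)) y (bv i) := by
    ext y
    unfold pd2
    rw [iteratedFDeriv_two_apply, NN.iter2 hg]
    simp
  rw [h1, iter_fd (g := fun z => fderiv ℝ g z (bv j))
    ((NN.smooth_fd hg (bv j)).of_le (by exact_mod_cast le_top)),
    iter_fd (k := k + 1) (hg.of_le (by exact_mod_cast le_top))]

lemma pd2_smooth {g : Sp d → ℝ} (hg : ContDiff ℝ ∞ g) (i j : Fin d) :
    ContDiff ℝ ∞ (pd2 i j g) := by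
  have h1 : pd2 i j g = fun y => fderiv ℝ (fun z => fderiv ℝ g z (bv j)) y (bv i) := by
    ext y
    unfold pd2
    rw [iteratedFDeriv_two_apply, NN.iter2 hg]
    simp
  rw [h1]
  exact NN.smooth_fd (NN.smooth_fd hg _) _

lemma iter_dd2 {k : ℕ} {F : Fin d → Fin d → Sp d → ℝ} (hF : ∀ i j, ContDiff ℝ ∞ (F i j))
    (x : Sp d) (h : Fin k → Sp d) :
    iteratedFDeriv ℝ k (dd2 F) x h = ∑ i, ∑ j,
      iteratedFDeriv ℝ (k + 2) (F i j) x (Fin.snoc (Fin.snoc h (bv i)) (bv j)) := by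
  have h0 : ∀ i j, ContDiffAt ℝ k (pd2 i j (F i j)) x := fun i j =>
    ((pd2_smooth (hF i j) i j).of_le (by exact_mod_cast le_top)).contDiffAt
  have h1 : iteratedFDeriv ℝ k (dd2 F) x = ∑ i, ∑ j, iteratedFDeriv ℝ k (pd2 i j (F i j)) x := by
    unfold dd2
    rw [iteratedFDeriv_fun_sum_apply (fun i _ => ContDiffAt.sum fun j _ => h0 i j)]
    refine Finset.sum_congr rfl fun i _ => ?_
    rw [iteratedFDeriv_fun_sum_apply (fun j _ => h0 i j)]
  rw [h1]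
  simp only [ContinuousMultilinearMap.sum_apply]
  refine Finset.sum_congr rfl fun i _ => Finset.sum_congr rfl fun j _ => iter_pd2 (hF i j) i j x h

lemma bv_norm1 (i : Fin d) : ‖(bv i : Sp d)‖ = 1 := by
  simp [bv]

lemma prod_snoc {k : ℕ} (h : Fin k → Sp d) (i j : Fin d) :
    ∏ l, ‖(Fin.snoc (Fin.snoc h (bv i) : Fin (k + 1) → Sp d) (bv j) : Fin (k + 2) → Sp d) l‖ =
      ∏ l, ‖h l‖ := by
  rw [Fin.prod_univ_castSucc]
  simp only [Fin.snoc_castSucc, Fin.snoc_last]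
  rw [Fin.prod_univ_castSucc]
  simp only [Fin.snoc_castSucc, Fin.snoc_last, bv_norm1, mul_one]

/-- bound of the derivatives of the double divergence -/
lemma dd2_bd {k : ℕ} {F : Fin d → Fin d → Sp d → ℝ} (hF : ∀ i j, ContDiff ℝ ∞ (F i j)) {N : ℝ}
    (hN : ∀ i j x, ‖iteratedFDeriv ℝ (k + 2) (F i j) x‖ ≤ N) (x : Sp d) :
    ‖iteratedFDeriv ℝ k (dd2 F) x‖ ≤ d ^ 2 * N := by
  by_cases hd : d = 0
  · subst hd
    have h1 : iteratedFDeriv ℝ k (dd2 F) x = 0 := by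
      ext h
      rw [iter_dd2 hF]
      simp
    rw [h1]
    simp
  · have hd' : 0 < d := Nat.pos_of_ne_zero hd
    have hN0 : 0 ≤ N := (norm_nonneg _).trans (hN ⟨0, hd'⟩ ⟨0, hd'⟩ x)
    refine ContinuousMultilinearMap.opNorm_le_bound (by positivity) fun h => ?_
    rw [iter_dd2 hF]
    calc ‖∑ i, ∑ j, iteratedFDeriv ℝ (k + 2) (F i j) x (Fin.snoc (Fin.snoc h (bv i)) (bv j))‖ ≤
        ∑ _i : Fin d, ∑ _j : Fin d, N * ∏ l, ‖h l‖ := by
          refine (norm_sum_le _ _).trans (Finset.sum_le_sum fun i _ => ?_)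
          refine (norm_sum_le _ _).trans (Finset.sum_le_sum fun j _ => ?_)
          refine (ContinuousMultilinearMap.le_opNorm _ _).trans ?_
          rw [prod_snoc]
          exact mul_le_mul_of_nonneg_right (hN i j x) (by positivity)
      _ = _ := by
          simp only [Finset.sum_const, Finset.card_univ, Fintype.card_fin, nsmul_eq_mul]
          ring

/-! ## averages of the double divergence -/

lemma avk_fsum {ψ : Sp d → ℝ} (hψ : Continuous ψ) (hc : HasCompactSupport ψ) {ι : Type*}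
    (I : Finset ι) {g : ι → Sp d → ℝ} (hg : ∀ i, Continuous (g i)) (s : ℝ) (x : Sp d) :
    avk ψ s (fun z => ∑ i ∈ I, g i z) x = ∑ i ∈ I, avk ψ s (g i) x := by
  unfold avk
  simp only [smul_eq_mul, Finset.mul_sum]
  refine integral_finsetSum _ fun i _ => ?_
  exact Continuous.integrable_of_hasCompactSupport
    (hψ.mul ((hg i).comp (by fun_prop : Continuous fun z : Sp d => x + s • z))) hc.mul_right

lemma app_cont {k : ℕ} {g : Sp d → ℝ} (hg : ContDiff ℝ ∞ g) (h : Fin k → Sp d) :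
    Continuous (fun z => iteratedFDeriv ℝ k g z h) :=
  (ContinuousMultilinearMap.apply ℝ (fun _ : Fin k => Sp d) ℝ h).continuous.comp
    (hg.continuous_iteratedFDeriv (by exact_mod_cast le_top))

lemma app_smooth {k : ℕ} {g : Sp d → ℝ} (hg : ContDiff ℝ ∞ g) (h : Fin k → Sp d) :
    ContDiff ℝ ∞ (fun z => iteratedFDeriv ℝ k g z h) :=
  (ContinuousMultilinearMap.apply ℝ (fun _ : Fin k => Sp d) ℝ h).contDiff.comp
    (hg.iteratedFDeriv_right (m := ∞) (i := k) (by exact_mod_cast le_top))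

/-- the pointwise bound of one scale -/
lemma scale_bd {k : ℕ} {ψ : Sp d → ℝ} (hψ : ContDiff ℝ (k + 2 : ℕ) ψ)
    (hs : tsupport ψ ⊆ closedBall 0 1) {B : ℝ} (hB : ∀ z, ‖iteratedFDeriv ℝ (k + 2) ψ z‖ ≤ B)
    {F : Fin d → Fin d → Sp d → ℝ} (hF : ∀ i j, ContDiff ℝ ∞ (F i j)) {N ρ : ℝ}
    (hN : ∀ i j y, |F i j y| ≤ N) (hsupp : ∀ i j y, ρ ≤ ‖y‖ → F i j y = 0) {s : ℝ} (hs0 : 0 < s)
    (x : Sp d) (h : Fin k → Sp d) :
    |avk ψ s (fun z => iteratedFDeriv ℝ k (dd2 F) z h) x| ≤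
      (1 / s) ^ (k + 2 + d) * (d ^ 2 * (B * (volume.real (closedBall (0 : Sp d) ρ) * N))) *
        ∏ i, ‖h i‖ := by
  have h1 : (fun z => iteratedFDeriv ℝ k (dd2 F) z h) = fun z => ∑ i, ∑ j,
      iteratedFDeriv ℝ (k + 2) (F i j) z (Fin.snoc (Fin.snoc h (bv i)) (bv j)) :=
    funext fun z => iter_dd2 hF z h
  have hc := ts_cs hs
  rw [h1, avk_fsum hψ.continuous hc _ (fun i => continuous_finsetSum _ fun j _ =>
    app_cont (hF i j) _)]
  calc |∑ i, avk ψ s (fun z => ∑ j,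
        iteratedFDeriv ℝ (k + 2) (F i j) z (Fin.snoc (Fin.snoc h (bv i)) (bv j))) x| ≤
      ∑ _i : Fin d, ∑ _j : Fin d,
        (1 / s) ^ (k + 2 + d) * (B * (volume.real (closedBall (0 : Sp d) ρ) * N)) *
          ∏ l, ‖h l‖ := by
        refine (Finset.abs_sum_le_sum_abs _ _).trans (Finset.sum_le_sum fun i _ => ?_)
        rw [avk_fsum hψ.continuous hc _ (fun j => app_cont (hF i j) _)]
        refine (Finset.abs_sum_le_sum_abs _ _).trans (Finset.sum_le_sum fun j _ => ?_)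
        have h2 := key' hψ hs hB (hF i j) (hN i j) (hsupp i j) hs0 x
          (Fin.snoc (Fin.snoc h (bv i)) (bv j))
        rwa [prod_snoc] at h2
    _ = _ := by
        simp only [Finset.sum_const, Finset.card_univ, Fintype.card_fin, nsmul_eq_mul]
        ring

/-! ## shells -/

/-- part of the Newton test function which belongs to the scales between r and s -/
def sh (b : Sp d → ℝ) (r s : ℝ) (F : Fin d → Fin d → Sp d → ℝ) (x : Sp d) : ℝ :=
  nt b s F x - nt b r F x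

lemma nt_smooth {M c0 : ℝ} {b : Sp d → ℝ} (hb : BaseKer 2 M c0 b) {R : ℝ} (hR : 0 ≤ R)
    {F : Fin d → Fin d → Sp d → ℝ} (hF : ∀ i j, ContDiff ℝ ∞ (F i j)) :
    ContDiff ℝ ∞ (nt b R F) :=
  (NN.NNp_smooth (hb.kit 0).smooth1.continuous (hb.kit 0).supp1 hR (NN.dd2_smooth hF)).1.neg

lemma nt_iter {M c0 : ℝ} {b : Sp d → ℝ} (hb : BaseKer 2 M c0 b) {R : ℝ} (hR : 0 ≤ R)
    {F : Fin d → Fin d → Sp d → ℝ} (hF : ∀ i j, ContDiff ℝ ∞ (F i j)) (k : ℕ) (x : Sp d)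
    (h : Fin k → Sp d) :
    iteratedFDeriv ℝ k (nt b R F) x h =
      -NNp b R (fun z => iteratedFDeriv ℝ k (dd2 F) z h) x := by
  have h1 : nt b R F = -(NNp b R (dd2 F)) := rfl
  rw [h1, iteratedFDeriv_neg_apply]
  simp only [ContinuousMultilinearMap.neg_apply]
  rw [NN.NNp_apply (b := b) (hb.kit 0).smooth1.continuous (hb.kit 0).supp1 hR (NN.dd2_smooth hF)]

lemma sh_smooth {M c0 : ℝ} {b : Sp d → ℝ} (hb : BaseKer 2 M c0 b) {r s : ℝ} (hr : 0 ≤ r)
    (hs : 0 ≤ s) {F : Fin d → Fin d → Sp d → ℝ} (hF : ∀ i j, ContDiff ℝ ∞ (F i j)) :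
    ContDiff ℝ ∞ (sh b r s F) := (nt_smooth hb hs hF).sub (nt_smooth hb hr hF)

lemma avk_scale_cont {M c0 : ℝ} {b : Sp d → ℝ} (hb : BaseKer 2 M c0 b) {g : Sp d → ℝ}
    (hg : ContDiff ℝ ∞ g) (x : Sp d) : Continuous fun s => avk (Bp b) s g x := by
  rw [continuous_iff_continuousAt]
  intro s
  exact (NN.avk_deriv (hb.kit 0).smooth1.continuous (hb.kit 0).supp1 hg x s).continuousAt

lemma NNp_diff {M c0 : ℝ} {b : Sp d → ℝ} (hb : BaseKer 2 M c0 b) {g : Sp d → ℝ}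
    (hg : ContDiff ℝ ∞ g) (r s : ℝ) (x : Sp d) :
    NNp b s g x - NNp b r g x = ∫ t in r..s, t * avk (Bp b) t g x := by
  have h1 : Continuous fun t => t * avk (Bp b) t g x :=
    continuous_id.mul (avk_scale_cont hb hg x)
  unfold NNp
  rw [intervalIntegral.integral_interval_sub_left (h1.intervalIntegrable _ _)
    (h1.intervalIntegrable _ _)]

/-- bounds of the shells -/
lemma sh_bd {M c0 : ℝ} {b : Sp d → ℝ} (hb : BaseKer 2 M c0 b) {k : ℕ}
    (hβ : ContDiff ℝ (k + 2 : ℕ) (Bp b)) {B : ℝ}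
    (hB : ∀ z, ‖iteratedFDeriv ℝ (k + 2) (Bp b) z‖ ≤ B)
    {F : Fin d → Fin d → Sp d → ℝ} (hF : ∀ i j, ContDiff ℝ ∞ (F i j)) {N ρ : ℝ} (hN0 : 0 ≤ N)
    (hN : ∀ i j y, |F i j y| ≤ N) (hsupp : ∀ i j y, ρ ≤ ‖y‖ → F i j y = 0) {r s : ℝ}
    (hr : 0 < r) (hrs : r ≤ s) (hs : s ≤ 2 * r) (x : Sp d) :
    ‖iteratedFDeriv ℝ k (sh b r s F) x‖ ≤
      (1 / r) ^ (k + d) * (d ^ 2 * (B * (volume.real (closedBall (0 : Sp d) ρ) * N))) := by
  have hB0 : 0 ≤ B := (norm_nonneg _).trans (hB 0)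
  set A : ℝ := d ^ 2 * (B * (volume.real (closedBall (0 : Sp d) ρ) * N)) with hA
  have hA0 : 0 ≤ A := by positivity
  refine ContinuousMultilinearMap.opNorm_le_bound (by positivity) fun h => ?_
  have h1 : iteratedFDeriv ℝ k (sh b r s F) x h =
      -∫ t in r..s, t * avk (Bp b) t (fun z => iteratedFDeriv ℝ k (dd2 F) z h) x := by
    have h2 : sh b r s F = nt b s F - nt b r F := rfl
    rw [h2, iteratedFDeriv_sub_apply
      ((nt_smooth hb (hr.le.trans hrs) hF).of_le (by exact_mod_cast le_top)).contDiffAt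
      ((nt_smooth hb hr.le hF).of_le (by exact_mod_cast le_top)).contDiffAt,
      ContinuousMultilinearMap.sub_apply, nt_iter hb (hr.le.trans hrs) hF, nt_iter hb hr.le hF,
      ← NNp_diff hb (app_smooth (NN.dd2_smooth hF) h)]
    ring
  rw [h1, norm_neg]
  have h3 : ∀ t ∈ Ι r s, ‖t * avk (Bp b) t (fun z => iteratedFDeriv ℝ k (dd2 F) z h) x‖ ≤
      (1 / r) ^ (k + 1 + d) * A * ∏ i, ‖h i‖ := by
    intro t ht
    rw [uIoc_of_le hrs] at ht
    have ht0 : 0 < t := hr.trans ht.1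
    rw [norm_mul, Real.norm_eq_abs, Real.norm_eq_abs, abs_of_pos ht0]
    have h4 := scale_bd hβ (ts_of (hb.kit 0).supp1) hB hF hN hsupp ht0 x h
    have h5 : (1 / t) ^ (k + 1 + d) ≤ (1 / r) ^ (k + 1 + d) := by
      refine pow_le_pow_left₀ (by positivity) ?_ _
      exact one_div_le_one_div_of_le hr ht.1.le
    calc t * |avk (Bp b) t (fun z => iteratedFDeriv ℝ k (dd2 F) z h) x| ≤
        t * ((1 / t) ^ (k + 2 + d) * A * ∏ i, ‖h i‖) := mul_le_mul_of_nonneg_left h4 ht0.le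
      _ = (1 / t) ^ (k + 1 + d) * (A * ∏ i, ‖h i‖) := by
          rw [show k + 2 + d = (k + 1 + d) + 1 by ring, pow_succ]
          field_simp
      _ ≤ (1 / r) ^ (k + 1 + d) * (A * ∏ i, ‖h i‖) :=
          mul_le_mul_of_nonneg_right h5 (by positivity)
      _ = _ := by ring
  refine (intervalIntegral.norm_integral_le_of_norm_le_const h3).trans ?_
  rw [abs_of_nonneg (by linarith)]
  calc (1 / r) ^ (k + 1 + d) * A * (∏ i, ‖h i‖) * (s - r) ≤
      (1 / r) ^ (k + 1 + d) * A * (∏ i, ‖h i‖) * r :=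
        mul_le_mul_of_nonneg_left (by linarith) (by positivity)
    _ = _ := by
        rw [show k + 1 + d = (k + d) + 1 by ring, pow_succ]
        field_simp

/-- bound of the innermost part -/
lemma nt_bd {M c0 : ℝ} {b : Sp d → ℝ} (hb : BaseKer 2 M c0 b) {R : ℝ} (hR : 0 ≤ R) {k : ℕ}
    {F : Fin d → Fin d → Sp d → ℝ} (hF : ∀ i j, ContDiff ℝ ∞ (F i j)) {N : ℝ}
    (hN : ∀ i j x, ‖iteratedFDeriv ℝ (k + 2) (F i j) x‖ ≤ N) (x : Sp d) :
    ‖iteratedFDeriv ℝ k (nt b R F) x‖ ≤ R ^ 2 * (d ^ 2 * N) := by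
  have h1 : nt b R F = -(NNp b R (dd2 F)) := rfl
  rw [h1, iteratedFDeriv_neg_apply, norm_neg]
  exact NN.NNp_norm hb hR (NN.dd2_smooth hF) k _ (dd2_bd hF hN) x

/-- support of the Newton test function -/
lemma nt_supp {M c0 : ℝ} {b : Sp d → ℝ} (hb : BaseKer 2 M c0 b) {R : ℝ} (hR : 0 ≤ R)
    {F : Fin d → Fin d → Sp d → ℝ} {ρ : ℝ} (hsupp : ∀ i j y, ρ ≤ ‖y‖ → F i j y = 0) {y : Sp d}
    (hy : ρ + R / 2 < ‖y‖) : nt b R F y = 0 := by
  set δ : ℝ := ‖y‖ - (ρ + R / 2) with hδ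
  have hδ0 : 0 < δ := by rw [hδ]; linarith
  have h1 : ∀ y : Sp d, ρ + δ ≤ ‖y - 0‖ → dd2 F y = 0 := by
    intro y hy
    rw [sub_zero] at hy
    unfold dd2 pd2
    refine Finset.sum_eq_zero fun i _ => Finset.sum_eq_zero fun j _ => ?_
    have h2 : F i j =ᶠ[𝓝 y] fun _ => 0 := by
      filter_upwards [ball_mem_nhds y hδ0] with z hz
      refine hsupp i j z ?_
      rw [mem_ball, dist_eq_norm] at hz
      have h3 := norm_sub_norm_le y z
      have h4 : ‖y - z‖ = ‖z - y‖ := norm_sub_rev _ _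
      linarith
    have h3 := h2.iteratedFDeriv ℝ 2
    rw [h3.eq_of_nhds]
    simp
  unfold nt
  rw [NN.NNp_supp hb hR 0 (ρ + δ) h1 y (by rw [sub_zero, hδ]; linarith), neg_zero]

lemma sh_supp {M c0 : ℝ} {b : Sp d → ℝ} (hb : BaseKer 2 M c0 b) {r s : ℝ} (hr : 0 ≤ r)
    (hrs : r ≤ s) {F : Fin d → Fin d → Sp d → ℝ} {ρ : ℝ}
    (hsupp : ∀ i j y, ρ ≤ ‖y‖ → F i j y = 0) {y : Sp d}
    (hy : ρ + s / 2 < ‖y‖) : sh b r s F y = 0 := by
  unfold sh
  rw [nt_supp hb (hr.trans hrs) hsupp hy, nt_supp hb hr hsupp (by linarith), sub_zero]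

end AB

end

end TG
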