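import Pool.Agent.TG.AL0
import Pool.Agent.TR.NS

/-!
# Module AL2: from symbols to operators

Differential operators with constant coefficients, given by real polynomials.
-/

open MeasureTheory Metric Set TrI MvPolynomial
open scoped InnerProductSpace ContDiff

namespace TG

noncomputable section

namespace AL2

variable {d : ℕ}

/-- the basis vectors -/
def ee (i : Fin d) : Sp d := EuclideanSpace.single i (1 : ℝ)

/-- a tuple with content a -/
def tp (a : Fin d →₀ ℕ) : Fin a.degree → Fin d := (exists_tuple a a.degree rfl).choose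

theorem tp_cnt (a : Fin d →₀ ℕ) : cnt (tp a) = a := (exists_tuple a a.degree rfl).choose_spec

/-- partial derivatives -/
def Dm (a : Fin d →₀ ℕ) (ζ : Sp d → ℝ) (x : Sp d) : ℝ :=
  iteratedFDeriv ℝ a.degree ζ x (fun k => ee (tp a k))

theorem Dm_eq {ζ : Sp d → ℝ} (hζ : ContDiff ℝ ∞ ζ) (x : Sp d) :
    ∀ (m : ℕ) (t : Fin m → Fin d),
      iteratedFDeriv ℝ m ζ x (fun k => ee (t k)) = Dm (cnt t) ζ x := by
  intro m t
  have key : ∀ (n : ℕ) (s : Fin n → Fin d), n = m → cnt s = cnt t →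
      iteratedFDeriv ℝ n ζ x (fun k => ee (s k)) = iteratedFDeriv ℝ m ζ x (fun k => ee (t k)) := by
    intro n s hn hs
    subst hn
    obtain ⟨π, hπ⟩ := exists_perm_of_cnt _ _ hs
    have h2 : (fun r => ee (t r)) = (fun r => ee (s r)) ∘ π := by
      funext r
      exact congrArg ee (congrFun hπ r).symm
    rw [h2]
    exact (iter_perm hζ n x π _).symm
  exact (key _ (tp (cnt t)) (cnt_degree t) (tp_cnt _)).symm

theorem Dm_smooth {ζ : Sp d → ℝ} (hζ : ContDiff ℝ ∞ ζ) (a : Fin d →₀ ℕ) :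
    ContDiff ℝ ∞ (Dm a ζ) := smooth_iter_apply hζ _ _

theorem Dm_zero {ζ : Sp d → ℝ} (hζ : ContDiff ℝ ∞ ζ) (x : Sp d) : Dm 0 ζ x = ζ x := by
  have h := Dm_eq hζ x 0 (fun i => i.elim0)
  have h1 : cnt (fun i : Fin 0 => (i.elim0 : Fin d)) = 0 := by
    rw [cnt]; simp
  rw [h1] at h
  rw [← h]
  simp

theorem Dm_succ {ζ : Sp d → ℝ} (hζ : ContDiff ℝ ∞ ζ) (a : Fin d →₀ ℕ) (i : Fin d) (x : Sp d) :
    Dm (Finsupp.single i 1 + a) ζ x = fderiv ℝ (Dm a ζ) x (ee i) := by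
  have h1 : cnt (Fin.cons i (tp a) : Fin (a.degree + 1) → Fin d) = Finsupp.single i 1 + a := by
    rw [cnt, Fin.sum_univ_succ]
    simp only [Fin.cons_zero, Fin.cons_succ]
    congr 1
    exact tp_cnt a
  rw [← h1, ← Dm_eq hζ, iter_succ hζ]
  rfl

/-- the functional of a jet -/
def pDl (ζ : Sp d → ℝ) (x : Sp d) : MvPolynomial (Fin d) ℝ →ₗ[ℝ] ℝ :=
  (MvPolynomial.basisMonomials (Fin d) ℝ).constr ℝ (fun a => Dm a ζ x)

/-- the differential operator with symbol P -/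
def pD (P : MvPolynomial (Fin d) ℝ) (ζ : Sp d → ℝ) (x : Sp d) : ℝ := pDl ζ x P

theorem pD_monomial (a : Fin d →₀ ℕ) (c : ℝ) (ζ : Sp d → ℝ) (x : Sp d) :
    pD (monomial a c) ζ x = c * Dm a ζ x := by
  have h1 : (monomial a c : MvPolynomial (Fin d) ℝ) =
      c • (MvPolynomial.basisMonomials (Fin d) ℝ a) := by
    rw [MvPolynomial.coe_basisMonomials, MvPolynomial.smul_monomial, smul_eq_mul, mul_one]
  rw [pD, h1, map_smul, pDl]
  simp only [Module.Basis.constr_basis, smul_eq_mul]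

theorem pD_add (P Q : MvPolynomial (Fin d) ℝ) (ζ : Sp d → ℝ) (x : Sp d) :
    pD (P + Q) ζ x = pD P ζ x + pD Q ζ x := map_add _ _ _

theorem pD_sub (P Q : MvPolynomial (Fin d) ℝ) (ζ : Sp d → ℝ) (x : Sp d) :
    pD (P - Q) ζ x = pD P ζ x - pD Q ζ x := map_sub _ _ _

theorem pD_zero (ζ : Sp d → ℝ) (x : Sp d) :
    pD (0 : MvPolynomial (Fin d) ℝ) ζ x = 0 := map_zero _

theorem pD_sum {ι : Type*} (s : Finset ι) (P : ι → MvPolynomial (Fin d) ℝ) (ζ : Sp d → ℝ)
    (x : Sp d) : pD (∑ i ∈ s, P i) ζ x = ∑ i ∈ s, pD (P i) ζ x := map_sum _ _ _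

theorem pD_C_mul (c : ℝ) (P : MvPolynomial (Fin d) ℝ) (ζ : Sp d → ℝ) (x : Sp d) :
    pD (C c * P) ζ x = c * pD P ζ x := by
  rw [← MvPolynomial.smul_eq_C_mul, pD, map_smul, smul_eq_mul]; rfl

theorem pD_smooth {ζ : Sp d → ℝ} (hζ : ContDiff ℝ ∞ ζ) (P : MvPolynomial (Fin d) ℝ) :
    ContDiff ℝ ∞ (pD P ζ) := by
  induction P using MvPolynomial.induction_on' with
  | monomial a c =>
    have h : pD (monomial a c) ζ = fun x => c * Dm a ζ x := by
      funext x; exact pD_monomial a c ζ x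
    rw [h]
    exact contDiff_const.mul (Dm_smooth hζ a)
  | add p q hp hq =>
    have h : pD (p + q) ζ = fun x => pD p ζ x + pD q ζ x := by
      funext x; exact pD_add p q ζ x
    rw [h]
    exact hp.add hq

theorem pD_diff {ζ : Sp d → ℝ} (hζ : ContDiff ℝ ∞ ζ) (P : MvPolynomial (Fin d) ℝ) (x : Sp d) :
    DifferentiableAt ℝ (pD P ζ) x :=
  ((pD_smooth hζ P).differentiable (by simp)) x

theorem pD_X_mul {ζ : Sp d → ℝ} (hζ : ContDiff ℝ ∞ ζ) (i : Fin d) (P : MvPolynomial (Fin d) ℝ)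
    (x : Sp d) : pD (X i * P) ζ x = fderiv ℝ (pD P ζ) x (ee i) := by
  induction P using MvPolynomial.induction_on' with
  | monomial a c =>
    have h : pD (monomial a c) ζ = fun x => c * Dm a ζ x := by
      funext x; exact pD_monomial a c ζ x
    rw [h, fderiv_const_mul ((Dm_smooth hζ a).differentiable (by simp) x)]
    rw [MvPolynomial.X, monomial_mul, one_mul, pD_monomial, Dm_succ hζ]
    rfl
  | add p q hp hq =>
    have h : pD (p + q) ζ = fun x => pD p ζ x + pD q ζ x := by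
      funext x; exact pD_add p q ζ x
    rw [h, fderiv_fun_add (pD_diff hζ p x) (pD_diff hζ q x), mul_add, pD_add, hp, hq]
    rfl

theorem pD_one {ζ : Sp d → ℝ} (hζ : ContDiff ℝ ∞ ζ) : pD 1 ζ = ζ := by
  funext x
  have h : (1 : MvPolynomial (Fin d) ℝ) = monomial 0 1 := rfl
  rw [h, pD_monomial, Dm_zero hζ, one_mul]

theorem pD_C {ζ : Sp d → ℝ} (hζ : ContDiff ℝ ∞ ζ) (c : ℝ) (x : Sp d) :
    pD (C c) ζ x = c * ζ x := by
  have h := pD_C_mul c 1 ζ x
  rwa [mul_one, pD_one hζ] at h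

theorem pD_X {ζ : Sp d → ℝ} (hζ : ContDiff ℝ ∞ ζ) (i : Fin d) (x : Sp d) :
    pD (X i) ζ x = fderiv ℝ ζ x (ee i) := by
  have h := pD_X_mul hζ i 1 x
  rwa [mul_one, pD_one hζ] at h

theorem pD_mul (P : MvPolynomial (Fin d) ℝ) : ∀ (Q : MvPolynomial (Fin d) ℝ) (ζ : Sp d → ℝ),
    ContDiff ℝ ∞ ζ → pD (P * Q) ζ = pD P (pD Q ζ) := by
  induction P using MvPolynomial.induction_on with
  | C c =>
    intro Q ζ hζ
    funext x
    rw [pD_C_mul, pD_C (pD_smooth hζ Q)]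
  | add p q hp hq =>
    intro Q ζ hζ
    funext x
    rw [add_mul, pD_add, pD_add, hp Q ζ hζ, hq Q ζ hζ]
  | mul_X p i hp =>
    intro Q ζ hζ
    rw [mul_assoc, hp (X i * Q) ζ hζ, hp (X i) (pD Q ζ) (pD_smooth hζ Q)]
    congr 1
    funext x
    rw [pD_X_mul hζ, pD_X (pD_smooth hζ Q)]

/-- first order operators -/
theorem pD_lin {ζ : Sp d → ℝ} (hζ : ContDiff ℝ ∞ ζ) (w : Sp d) (x : Sp d) :
    pD (∑ i, C (w i) * X i) ζ x = fderiv ℝ ζ x w := by
  rw [pD_sum]
  have h : w = ∑ i, w i • ee i := by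
    have := ((EuclideanSpace.basisFun (Fin d) ℝ).sum_repr w).symm
    simpa [ee] using this
  conv_rhs => rw [h]
  rw [map_sum]
  refine Finset.sum_congr rfl fun i _ => ?_
  rw [pD_C_mul, pD_X hζ, map_smul, smul_eq_mul]

/-- second order operators -/
theorem pD_sq {ζ : Sp d → ℝ} (hζ : ContDiff ℝ ∞ ζ) (w : Sp d) (x : Sp d) :
    pD ((∑ i, C (w i) * X i) ^ 2) ζ x = iteratedFDeriv ℝ 2 ζ x (fun _ => w) := by
  rw [pow_two, pD_mul _ _ _ hζ, pD_lin (pD_smooth hζ _), iter_succ hζ]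
  congr 2
  funext y
  rw [pD_lin hζ, iteratedFDeriv_one_apply]
  rfl

theorem pD_X_sq {ζ : Sp d → ℝ} (hζ : ContDiff ℝ ∞ ζ) (i : Fin d) (x : Sp d) :
    pD (X i ^ 2) ζ x = iteratedFDeriv ℝ 2 ζ x (fun _ => ee i) := by
  rw [← pD_sq hζ]
  congr 2
  rw [Finset.sum_eq_single i]
  · simp [ee]
  · intro j _ hj
    simp [ee, hj]
  · intro h; exact absurd (Finset.mem_univ i) h

theorem pD_sNu {ζ : Sp d → ℝ} (hζ : ContDiff ℝ ∞ ζ) (v : Sp d) : pD (sNu v) ζ = opNu v ζ := by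
  funext x
  rw [sNu, pD_sub, pD_sq hζ, pD_sum, opNu, lap, d2]
  congr 1
  refine Finset.sum_congr rfl fun i _ => ?_
  rw [pD_X_sq hζ]
  rfl

theorem pD_sQ {ζ : Sp d → ℝ} (hζ : ContDiff ℝ ∞ ζ) (S : Sp d →L[ℝ] Sp d) :
    pD (sQ S) ζ = qD S ζ := by
  funext x
  rw [sQ, pD_sum, qD]
  refine Finset.sum_congr rfl fun i _ => ?_
  rw [pD_sq hζ]

theorem foldNu (l : List (Sp d)) {g : Sp d → ℝ} (hg : ContDiff ℝ ∞ g) :
    l.foldr (fun v g => opNu v g) g = pD ((l.map sNu).prod) g := by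
  induction l with
  | nil => simp [pD_one hg]
  | cons v l ih =>
    rw [List.foldr_cons, ih, List.map_cons, List.prod_cons, pD_mul _ _ _ hg,
      pD_sNu (pD_smooth hg _)]

theorem foldQ (l : List (Sp d →L[ℝ] Sp d)) {g : Sp d → ℝ} (hg : ContDiff ℝ ∞ g) :
    l.foldr (fun s g => qD s g) g = pD ((l.map sQ).prod) g := by
  induction l with
  | nil => simp [pD_one hg]
  | cons v l ih =>
    rw [List.foldr_cons, ih, List.map_cons, List.prod_cons, pD_mul _ _ _ hg,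
      pD_sQ (pD_smooth hg _)]

theorem allOp_eq {r q : ℕ} (ν : Fin r → Sp d) (S : Fin q → (Sp d →L[ℝ] Sp d)) {ζ : Sp d → ℝ}
    (hζ : ContDiff ℝ ∞ ζ) :
    allOp ν S ζ = pD ((∏ i, sNu (ν i)) * ∏ k, sQ (S k)) ζ := by
  rw [allOp, foldQ _ hζ, foldNu _ (pD_smooth hζ _), pD_mul _ _ _ hζ, List.map_ofFn, List.map_ofFn,
    List.prod_ofFn, List.prod_ofFn]
  rfl

theorem iter_eq {r q : ℕ} (ν : Fin r → Sp d) (S : Fin q → (Sp d →L[ℝ] Sp d)) (n : ℕ) :
    ∀ {ζ : Sp d → ℝ}, ContDiff ℝ ∞ ζ →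
    (allOp ν S)^[n] ζ = pD (((∏ i, sNu (ν i)) * ∏ k, sQ (S k)) ^ n) ζ := by
  induction n with
  | zero => intro ζ hζ; simp [pD_one hζ]
  | succ n ih =>
    intro ζ hζ
    rw [Function.iterate_succ_apply, allOp_eq ν S hζ, ih (pD_smooth hζ _), pow_succ,
      ← pD_mul _ _ _ hζ]

/-- locality -/
theorem pD_off {ζ : Sp d → ℝ} (P : MvPolynomial (Fin d) ℝ) {x : Sp d} (hx : x ∉ tsupport ζ) :
    pD P ζ x = 0 := by
  have h1 : pDl ζ x = 0 := by
    refine (MvPolynomial.basisMonomials (Fin d) ℝ).ext fun a => ?_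
    rw [pDl, Module.Basis.constr_basis]
    have h2 : iteratedFDeriv ℝ a.degree ζ x = 0 := by
      by_contra hne
      exact hx (support_iteratedFDeriv_subset a.degree hne)
    simp [Dm, h2]
  rw [pD, h1]
  rfl

theorem pD_cs {ζ : Sp d → ℝ} (hc : HasCompactSupport ζ) (P : MvPolynomial (Fin d) ℝ) :
    HasCompactSupport (pD P ζ) :=
  HasCompactSupport.intro hc.isCompact fun _ hx => pD_off P hx

/-- tuple of length m with content a, if there is one -/
def tm (m : ℕ) (a : Fin d →₀ ℕ) (k : Fin m) : Sp d :=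
  open Classical in
  if h : ∃ t : Fin m → Fin d, cnt t = a then ee (h.choose k) else 0

theorem tm_eq {ζ : Sp d → ℝ} (hζ : ContDiff ℝ ∞ ζ) (x : Sp d) (m : ℕ) (a : Fin d →₀ ℕ)
    (ha : a.degree = m) : iteratedFDeriv ℝ m ζ x (tm m a) = Dm a ζ x := by
  have h : ∃ t : Fin m → Fin d, cnt t = a := exists_tuple a m ha
  have h1 : tm m a = fun k => ee (h.choose k) := by
    funext k
    rw [tm, dif_pos h]
  rw [h1, Dm_eq hζ]
  congr 1
  exact h.choose_spec

variable {V E : Type} [NormedAddCommGroup V] [InnerProductSpace ℝ V]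
  [FiniteDimensional ℝ V] [NormedAddCommGroup E] [InnerProductSpace ℝ E]
  [FiniteDimensional ℝ E]

/-- evaluation of a polynomial at a multilinear map -/
def ev (m : ℕ) (P : MvPolynomial (Fin d) ℝ) :
    (ContinuousMultilinearMap ℝ (fun _ : Fin m => Sp d) ℝ) →L[ℝ] ℝ :=
  ∑ a ∈ P.support, coeff a P • ContinuousMultilinearMap.apply ℝ (fun _ : Fin m => Sp d) ℝ (tm m a)

theorem ev_eq {ζ : Sp d → ℝ} (hζ : ContDiff ℝ ∞ ζ) (x : Sp d) (m : ℕ)
    (P : MvPolynomial (Fin d) ℝ) (hP : P.IsHomogeneous m) :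
    ev m P (iteratedFDeriv ℝ m ζ x) = pD P ζ x := by
  conv_rhs => rw [P.as_sum]
  rw [pD_sum, ev, ContinuousLinearMap.sum_apply]
  refine Finset.sum_congr rfl fun a ha => ?_
  rw [pD_monomial, ContinuousLinearMap.smul_apply, ContinuousMultilinearMap.apply_apply,
    smul_eq_mul]
  congr 1
  refine tm_eq hζ x m a ?_
  have h1 := hP (mem_support_iff.1 ha)
  rw [Finsupp.degree_eq_weight_one]
  exact h1

/-- integration by parts -/
theorem ibp {u ζ : Sp d → ℝ} (hu : ContDiff ℝ ∞ u) (hζ : ContDiff ℝ ∞ ζ)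
    (hc : HasCompactSupport ζ) (v : Sp d) :
    ∫ x, ζ x * fderiv ℝ u x v = - ∫ x, fderiv ℝ ζ x v * u x := by
  have hu' : Continuous (fun x => fderiv ℝ u x v) :=
    (hu.continuous_fderiv (by simp)).clm_apply continuous_const
  have hz' : Continuous (fun x => fderiv ℝ ζ x v) :=
    (hζ.continuous_fderiv (by simp)).clm_apply continuous_const
  have hzc : HasCompactSupport (fun x => fderiv ℝ ζ x v) := hc.fderiv_apply ℝ v
  refine integral_mul_fderiv_eq_neg_fderiv_mul_of_integrable ?_ ?_ ?_ ?_ ?_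
  · exact (hz'.mul hu.continuous).integrable_of_hasCompactSupport hzc.mul_right
  · exact (hζ.continuous.mul hu').integrable_of_hasCompactSupport hc.mul_right
  · exact (hζ.continuous.mul hu.continuous).integrable_of_hasCompactSupport hc.mul_right
  · exact fun x _ => (hζ.differentiable (by simp)) x
  · exact fun x _ => (hu.differentiable (by simp)) x

/-- coordinates of L (Du) -/
theorem fo_coord (L : (Sp d →L[ℝ] V) →L[ℝ] E) {u : Sp d → V} (hu : ContDiff ℝ ∞ u) (x : Sp d)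
    (k : Fin (Module.finrank ℝ E)) :
    ⟪stdOrthonormalBasis ℝ E k, fo L u x⟫_ℝ =
      ∑ j, ∑ i, ⟪stdOrthonormalBasis ℝ E k,
        L (rk1 (EuclideanSpace.single i (1 : ℝ)) (stdOrthonormalBasis ℝ V j))⟫_ℝ *
        fderiv ℝ (fun y => ⟪stdOrthonormalBasis ℝ V j, u y⟫_ℝ) x (ee i) := by
  have hd : ∀ j i, fderiv ℝ (fun y => ⟪stdOrthonormalBasis ℝ V j, u y⟫_ℝ) x (ee i) =
      ⟪stdOrthonormalBasis ℝ V j, fderiv ℝ u x (ee i)⟫_ℝ := by
    intro j i
    rw [fderiv_inner_apply ℝ (differentiableAt_const _) ((hu.differentiable (by simp)) x)]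
    simp
  simp_rw [hd]
  have h1 : fderiv ℝ u x = ∑ i, rk1 (EuclideanSpace.single i (1 : ℝ)) (fderiv ℝ u x (ee i)) :=
    clm_expand _
  rw [fo]
  conv_lhs => rw [h1]
  rw [map_sum, inner_sum, Finset.sum_comm]
  refine Finset.sum_congr rfl fun i _ => ?_
  have h2 : rk1 (EuclideanSpace.single i (1 : ℝ)) (fderiv ℝ u x (ee i)) =
      ∑ j, ⟪stdOrthonormalBasis ℝ V j, fderiv ℝ u x (ee i)⟫_ℝ •
        rk1 (EuclideanSpace.single i (1 : ℝ)) (stdOrthonormalBasis ℝ V j) := by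
    conv_lhs => rw [← (stdOrthonormalBasis ℝ V).sum_repr' (fderiv ℝ u x (ee i))]
    ext y
    simp only [rk1, ContinuousLinearMap.smulRight_apply, ContinuousLinearMap.sum_apply,
      ContinuousLinearMap.smul_apply]
    rw [Finset.smul_sum]
    refine Finset.sum_congr rfl fun j _ => ?_
    rw [smul_smul, smul_smul, mul_comm]
  rw [h2, map_sum, inner_sum]
  refine Finset.sum_congr rfl fun j _ => ?_
  rw [map_smul, inner_smul_right, mul_comm]

end AL2

open AL2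

theorem stmtAL2 : StmtAL2 := by
  intro d V E _ _ _ _ _ _ L e0 r q Mx m ν S Y hY hann he0
  refine ⟨∑ k, (ev m (Y k)).smulRight (stdOrthonormalBasis ℝ E k), ?_, ?_⟩
  · intro ζ hζ x
    rw [iter_eq ν S Mx hζ, ← he0, pD_sum, ContinuousLinearMap.sum_apply, inner_sum]
    refine Finset.sum_congr rfl fun k _ => ?_
    rw [ContinuousLinearMap.smulRight_apply, ev_eq hζ x m _ (hY k), inner_smul_right, mul_comm
      (Y k), pD_C_mul, real_inner_comm, mul_comm]
  · intro u ζ hu hζ hc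
    have h0 : ∀ x, ⟪fo L u x, (∑ k, (ev m (Y k)).smulRight (stdOrthonormalBasis ℝ E k))
        (iteratedFDeriv ℝ m ζ x)⟫_ℝ = ∑ j, ∑ k, ∑ i, ⟪stdOrthonormalBasis ℝ E k,
        L (rk1 (EuclideanSpace.single i (1 : ℝ)) (stdOrthonormalBasis ℝ V j))⟫_ℝ *
        (pD (Y k) ζ x * fderiv ℝ (fun y => ⟪stdOrthonormalBasis ℝ V j, u y⟫_ℝ) x (ee i)) := by
      intro x
      rw [ContinuousLinearMap.sum_apply, inner_sum, Finset.sum_comm]
      refine Finset.sum_congr rfl fun k _ => ?_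
      rw [ContinuousLinearMap.smulRight_apply, ev_eq hζ x m _ (hY k), inner_smul_right,
        real_inner_comm, fo_coord L hu, Finset.mul_sum]
      refine Finset.sum_congr rfl fun j _ => ?_
      rw [Finset.mul_sum]
      refine Finset.sum_congr rfl fun i _ => ?_
      ring
    have hus : ∀ j, ContDiff ℝ ∞ (fun y => ⟪stdOrthonormalBasis ℝ V j, u y⟫_ℝ) := fun j =>
      contDiff_const.inner ℝ hu
    have hi1 : ∀ j k i, Integrable (fun x => pD (Y k) ζ x *
        fderiv ℝ (fun y => ⟪stdOrthonormalBasis ℝ V j, u y⟫_ℝ) x (ee i)) := by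
      intro j k i
      refine ((pD_smooth hζ (Y k)).continuous.mul ?_).integrable_of_hasCompactSupport
        (pD_cs hc (Y k)).mul_right
      exact ((hus j).continuous_fderiv (by simp)).clm_apply continuous_const
    have hi2 : ∀ j k i, Integrable (fun x => fderiv ℝ (pD (Y k) ζ) x (ee i) *
        ⟪stdOrthonormalBasis ℝ V j, u x⟫_ℝ) := by
      intro j k i
      refine (Continuous.mul ?_ (hus j).continuous).integrable_of_hasCompactSupport
        ((pD_cs hc (Y k)).fderiv_apply ℝ (ee i)).mul_right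
      exact ((pD_smooth hζ (Y k)).continuous_fderiv (by simp)).clm_apply continuous_const
    simp_rw [h0]
    rw [integral_finset_sum _ fun j _ => integrable_finset_sum _ fun k _ =>
      integrable_finset_sum _ fun i _ => (hi1 j k i).const_mul _]
    refine Finset.sum_eq_zero fun j _ => ?_
    rw [integral_finset_sum _ fun k _ =>
      integrable_finset_sum _ fun i _ => (hi1 j k i).const_mul _]
    have h1 : ∀ k, ∫ x, ∑ i, ⟪stdOrthonormalBasis ℝ E k,
        L (rk1 (EuclideanSpace.single i (1 : ℝ)) (stdOrthonormalBasis ℝ V j))⟫_ℝ *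
        (pD (Y k) ζ x * fderiv ℝ (fun y => ⟪stdOrthonormalBasis ℝ V j, u y⟫_ℝ) x (ee i)) =
        - ∫ x, ∑ i, ⟪stdOrthonormalBasis ℝ E k,
        L (rk1 (EuclideanSpace.single i (1 : ℝ)) (stdOrthonormalBasis ℝ V j))⟫_ℝ *
        (fderiv ℝ (pD (Y k) ζ) x (ee i) * ⟪stdOrthonormalBasis ℝ V j, u x⟫_ℝ) := by
      intro k
      rw [integral_finset_sum _ fun i _ => (hi1 j k i).const_mul _,
        integral_finset_sum _ fun i _ => (hi2 j k i).const_mul _, ← Finset.sum_neg_distrib]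
      refine Finset.sum_congr rfl fun i _ => ?_
      rw [integral_const_mul, integral_const_mul,
        ibp (hus j) (pD_smooth hζ (Y k)) (pD_cs hc (Y k)) (ee i), mul_neg]
    simp_rw [h1]
    rw [Finset.sum_neg_distrib, ← integral_finset_sum _ fun k _ =>
      integrable_finset_sum _ fun i _ => (hi2 j k i).const_mul _, neg_eq_zero]
    refine integral_eq_zero_of_ae (Filter.Eventually.of_forall fun x => ?_)
    have h2 := congrArg (fun P => pD P ζ x) (hann j)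
    simp only [pD_zero, pD_sum] at h2
    have h3 : ∑ k, ∑ i, ⟪stdOrthonormalBasis ℝ E k,
        L (rk1 (EuclideanSpace.single i (1 : ℝ)) (stdOrthonormalBasis ℝ V j))⟫_ℝ *
        (fderiv ℝ (pD (Y k) ζ) x (ee i) * ⟪stdOrthonormalBasis ℝ V j, u x⟫_ℝ) =
        (∑ k, pD (Y k * ∑ i, C (⟪stdOrthonormalBasis ℝ E k,
      L (rk1 (EuclideanSpace.single i (1 : ℝ)) (stdOrthonormalBasis ℝ V j))⟫_ℝ) * X i) ζ x) *
        ⟪stdOrthonormalBasis ℝ V j, u x⟫_ℝ := by
      rw [Finset.sum_mul]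
      refine Finset.sum_congr rfl fun k _ => ?_
      rw [Finset.mul_sum, pD_sum, Finset.sum_mul]
      refine Finset.sum_congr rfl fun i _ => ?_
      rw [show Y k * (C (⟪stdOrthonormalBasis ℝ E k,
        L (rk1 (EuclideanSpace.single i (1 : ℝ)) (stdOrthonormalBasis ℝ V j))⟫_ℝ) * X i) =
        C (⟪stdOrthonormalBasis ℝ E k,
        L (rk1 (EuclideanSpace.single i (1 : ℝ)) (stdOrthonormalBasis ℝ V j))⟫_ℝ) *
        (X i * Y k) by ring, pD_C_mul, pD_X_mul hζ]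
      ring
    refine h3.trans ?_
    rw [h2, zero_mul]
    rfl

end

end TG
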