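import Pool.Agent.TG.AL4
import Pool.Agent.TG.AL2

/-!
# Module AL: assembly
-/

open MeasureTheory Metric Set TrI MvPolynomial
open scoped InnerProductSpace ContDiff

namespace TG

noncomputable section

theorem al_main (hAL2 : StmtAL2) : StmtAL := by
  classical
  intro d V E _ _ _ _ _ _ L hd hL e0 he0
  set bE := stdOrthonormalBasis ℝ E with hbE
  set bV := stdOrthonormalBasis ℝ V with hbV
  set c0 : Fin (Module.finrank ℝ E) → ℝ := fun k => ⟪bE k, e0⟫_ℝ with hc0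
  set A : Fin d → Matrix (Fin (Module.finrank ℝ E)) (Fin (Module.finrank ℝ V)) ℝ :=
    fun i => Matrix.of fun k j => ⟪bE k, L (rk1 (EuclideanSpace.single i (1 : ℝ)) (bV j))⟫_ℝ with hA
  have hAm : ∀ i, (A i).map (fun r : ℝ => (r : ℂ)) = nsA L i := by
    intro i
    ext k j
    simp [hA, nsA, hbE, hbV]
  have hinj : ∀ x : Fin d → ℂ, x ≠ 0 → ∀ v : Fin (Module.finrank ℝ V) → ℂ,
      Matrix.mulVec (∑ i, x i • (A i).map (fun r : ℝ => (r : ℂ))) v = 0 → v = 0 := by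
    intro x hx v hv
    simp_rw [hAm] at hv
    exact nsA_inj L hL x hx v hv
  have hc0ne : (fun k => ((c0 k : ℝ) : ℂ)) ≠ 0 := by
    intro h
    apply he0
    rw [← bE.sum_repr' e0]
    refine Finset.sum_eq_zero fun k _ => ?_
    have h1 : ((c0 k : ℝ) : ℂ) = 0 := congrFun h k
    have h2 : c0 k = 0 := by exact_mod_cast h1
    rw [show ⟪bE k, e0⟫_ℝ = 0 from h2, zero_smul]
  set 𝓛 : Set (Submodule ℂ (Fin d → ℂ)) := {l | ∃ (x : Fin d → ℂ)
    (v : Fin (Module.finrank ℝ V) → ℂ), x ≠ 0 ∧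
      Matrix.mulVec (∑ i, x i • (A i).map (fun r : ℝ => (r : ℂ))) v = (fun k => ((c0 k : ℝ) : ℂ)) ∧
      l = Submodule.span ℂ {x}} with h𝓛
  have hfin : 𝓛.Finite := al_lines (fun i => (A i).map (fun r : ℝ => (r : ℂ))) hinj _ hc0ne
  obtain ⟨r, q, ν, S, hq, hν1, hν2, hS, hvan⟩ := al_choice 𝓛 hfin (by
    rintro l ⟨x, v, hx, _, rfl⟩
    exact ⟨x, hx, rfl⟩)
  set P : MvPolynomial (Fin d) ℝ := (∏ i, sNu (ν i)) * ∏ k, sQ (S k) with hP
  have hPh : P.IsHomogeneous (2 * r + 2 * q) := by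
    refine IsHomogeneous.mul ?_ ?_
    · have := IsHomogeneous.prod Finset.univ (fun i => sNu (ν i)) (fun _ => 2)
        (fun i _ => sNu_hom (ν i))
      simpa [mul_comm] using this
    · have := IsHomogeneous.prod Finset.univ (fun k => sQ (S k)) (fun _ => 2)
        (fun k _ => sQ_hom (S k))
      simpa [mul_comm] using this
  obtain ⟨M, hM, Y, hYh, hY1, hY2⟩ := al_real A hinj c0 P (2 * r + 2 * q) hPh (by omega)
    (fun x v hx hv => hvan _ ⟨x, v, hx, hv, rfl⟩ x (Submodule.mem_span_singleton_self x))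
  obtain ⟨TY, hT1, hT2⟩ := hAL2 d V E L e0 r q M ((2 * r + 2 * q) * M) ν S Y hYh
    (fun j => hY1 j) hY2
  exact ⟨r, q, M, (2 * r + 2 * q) * M, ν, S, TY, hq, hM, hν1, hν2, hS, hT1, hT2⟩

theorem stmtAL : StmtAL := al_main stmtAL2

end

end TG
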