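import Pool.Agent.TG.Stmts1

/-!
# Module AL: symbols
-/

open MeasureTheory Metric Set TrI MvPolynomial
open scoped InnerProductSpace ContDiff

namespace TG

noncomputable section

/-- symbol of opNu -/
def sNu {d : ℕ} (v : Sp d) : MvPolynomial (Fin d) ℝ :=
  ∑ i, X i ^ 2 - (∑ i, C (v i) * X i) ^ 2

/-- symbol of qD -/
def sQ {d : ℕ} (S : Sp d →L[ℝ] Sp d) : MvPolynomial (Fin d) ℝ :=
  ∑ k, (∑ i, C ((S (EuclideanSpace.single k (1 : ℝ))) i) * X i) ^ 2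

/-- module AL2: from symbols to operators -/
def StmtAL2 : Prop :=
  ∀ (d : ℕ) (V E : Type) [NormedAddCommGroup V] [InnerProductSpace ℝ V] [FiniteDimensional ℝ V]
    [NormedAddCommGroup E] [InnerProductSpace ℝ E] [FiniteDimensional ℝ E]
    (L : (Sp d →L[ℝ] V) →L[ℝ] E) (e0 : E) (r q Mx m : ℕ) (ν : Fin r → Sp d)
    (S : Fin q → (Sp d →L[ℝ] Sp d))
    (Y : Fin (Module.finrank ℝ E) → MvPolynomial (Fin d) ℝ),
    (∀ k, (Y k).IsHomogeneous m) →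
    (∀ j : Fin (Module.finrank ℝ V), ∑ k, Y k * ∑ i, C (⟪stdOrthonormalBasis ℝ E k,
      L (rk1 (EuclideanSpace.single i (1 : ℝ)) (stdOrthonormalBasis ℝ V j))⟫_ℝ) * X i = 0) →
    ∑ k, Y k * C (⟪stdOrthonormalBasis ℝ E k, e0⟫_ℝ) =
      ((∏ i, sNu (ν i)) * ∏ k, sQ (S k)) ^ Mx →
    ∃ TY : (ContinuousMultilinearMap ℝ (fun _ : Fin m => Sp d) ℝ) →L[ℝ] E,
      (∀ ζ : Sp d → ℝ, ContDiff ℝ ∞ ζ → ∀ x,
        ⟪e0, TY (iteratedFDeriv ℝ m ζ x)⟫_ℝ = (allOp ν S)^[Mx] ζ x) ∧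
      (∀ (u : Sp d → V) (ζ : Sp d → ℝ), ContDiff ℝ ∞ u → ContDiff ℝ ∞ ζ → HasCompactSupport ζ →
        ∫ x, ⟪fo L u x, TY (iteratedFDeriv ℝ m ζ x)⟫_ℝ = 0)

end

end TG
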