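import Pool.Agent.TR.NS

/-!
# Trace inequality, general operators, module AL, part 1: algebra over the complex numbers

(9.1)-(9.2) of PAPER.md: for an injective pencil A(x) and a vector e0 ≠ 0 the points x ≠ 0 with
e0 in the range of A(x) lie on finitely many lines; Nullstellensatz for the minors of [A(x) | e0].
-/

set_option autoImplicit false

namespace TG

noncomputable section

open MvPolynomial Matrix

section finpts

variable {T : Type} [Fintype T] [DecidableEq T]

/-- a set of points on which a power of each coordinate is a polynomial of lower degree is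
finite -/
theorem al_finite (W : Set (T → ℂ)) (e : T → ℕ) (g : T → MvPolynomial T ℂ)
    (hg : ∀ t, (g t).totalDegree < e t) (h : ∀ w ∈ W, ∀ t, w t ^ e t = eval w (g t)) :
    W.Finite := by
  classical
  set ρ : MvPolynomial T ℂ →ₐ[ℂ] (W → ℂ) := aeval (fun t (w : W) => w.1 t) with hρ
  have hρe : ∀ p (w : W), ρ p w = eval w.1 p := by
    intro p w
    induction p using MvPolynomial.induction_on with
    | C a => simp [hρ]
    | add p q hp hq => rw [map_add, Pi.add_apply, hp, hq, map_add]
    | mul_X p i hp => rw [map_mul, Pi.mul_apply, hp, map_mul]; simp [hρ]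
  set N := ∑ t, e t with hN
  set K : Submodule ℂ (W → ℂ) := Submodule.map ρ.toLinearMap (restrictTotalDegree T ℂ N) with hK
  have key : ∀ n, ∀ p : MvPolynomial T ℂ, p.totalDegree ≤ n → ρ p ∈ K := by
    intro n
    induction n using Nat.strong_induction_on with
    | _ n ih =>
      intro p hp
      rcases le_or_gt n N with hn | hn
      · exact ⟨p, (mem_restrictTotalDegree _ _ _).2 (hp.trans hn), rfl⟩
      · rw [p.as_sum, map_sum]
        refine K.sum_mem fun α hα => ?_
        have hαd : α.degree ≤ n := by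
          have := le_totalDegree hα
          exact this.trans hp
        rcases hαd.lt_or_eq with hlt | heq
        · exact ih _ hlt _ (by
            rw [totalDegree_monomial _ (mem_support_iff.1 hα)]
            exact le_rfl)
        · have hex : ∃ t, e t ≤ α t := by
            by_contra hcon
            push Not at hcon
            have h1 : α.degree ≤ ∑ t, e t := by
              rw [Finsupp.degree_eq_sum]
              exact Finset.sum_le_sum fun i _ => (hcon i).le
            omega
          obtain ⟨t, ht⟩ := hex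
          have h5 : (monomial α (coeff α p) : MvPolynomial T ℂ) =
              monomial (α - Finsupp.single t (e t)) (coeff α p) * X t ^ (e t) := by
            rw [X_pow_eq_monomial, monomial_mul, mul_one,
              tsub_add_cancel_of_le (Finsupp.single_le_iff.2 ht)]
          have h6 : ρ (monomial α (coeff α p)) =
              ρ (monomial (α - Finsupp.single t (e t)) (coeff α p) * g t) := by
            funext w
            rw [h5, hρe, hρe, map_mul, map_mul, map_pow, eval_X, h w.1 w.2 t]
          rw [h6]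
          have hlt := hg t
          have h7 : (α - Finsupp.single t (e t)).degree + e t = n := by
            have h8 : α = (α - Finsupp.single t (e t)) + Finsupp.single t (e t) :=
              (tsub_add_cancel_of_le (Finsupp.single_le_iff.2 ht)).symm
            have h9 := congrArg Finsupp.degree h8
            rw [map_add, Finsupp.degree_single, heq] at h9
            exact h9.symm
          refine ih (n - 1) (by omega) _ ?_
          refine (totalDegree_mul _ _).trans ?_
          rw [totalDegree_monomial _ (mem_support_iff.1 hα)]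
          have h10 : ((α - Finsupp.single t (e t)).sum fun _ e => e) =
              (α - Finsupp.single t (e t)).degree := rfl
          rw [h10]
          omega
  have hrange : Subalgebra.toSubmodule ρ.range ≤ K := by
    rintro _ ⟨p, rfl⟩
    exact key _ p le_rfl
  have hfinK : Module.Finite ℂ K := by
    rw [hK]
    exact Module.Finite.map _ _
  have hfin : Module.Finite ℂ ρ.range := by
    have : Module.Finite ℂ (Subalgebra.toSubmodule ρ.range) :=
      Submodule.finiteDimensional_of_le hrange
    exact this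
  have hint : ∀ t, ∃ q : Polynomial ℂ, q ≠ 0 ∧ ∀ w : W, q.eval (w.1 t) = 0 := by
    intro t
    have h1 : IsIntegral ℂ (⟨ρ (X t), ⟨X t, rfl⟩⟩ : ρ.range) := IsIntegral.of_finite ℂ _
    obtain ⟨q, hq, hq2⟩ := h1
    refine ⟨q, hq.ne_zero, fun w => ?_⟩
    have h2 : Polynomial.aeval (ρ (X t)) q = 0 := by
      have h3 := congrArg (fun z : ρ.range => (z : W → ℂ)) hq2
      have h4 : ((Polynomial.aeval (⟨ρ (X t), ⟨X t, rfl⟩⟩ : ρ.range) q : ρ.range) : W → ℂ) =
          Polynomial.aeval (ρ (X t)) q := by
        exact (Polynomial.aeval_algHom_apply ρ.range.val _ _).symm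
      rw [← h4]
      exact h3
    have h5 := congrFun h2 w
    have h6 := Polynomial.aeval_algHom_apply (Pi.evalAlgHom ℂ (fun _ : W => ℂ) w) (ρ (X t)) q
    rw [Pi.evalAlgHom_apply, Pi.evalAlgHom_apply, h5, hρe, eval_X] at h6
    rw [← Polynomial.coe_aeval_eq_eval]
    exact h6
  choose q hq0 hq using hint
  refine Set.Finite.subset (Set.Finite.pi' fun t => (q t).roots.toFinset.finite_toSet) ?_
  intro w hw t
  simp only [Finset.mem_coe, Multiset.mem_toFinset]
  rw [Polynomial.mem_roots (hq0 t)]
  exact hq t ⟨w, hw⟩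

end finpts

theorem al_aeval {T : Type} (x : T → ℂ) (p : MvPolynomial T ℂ) : aeval x p = eval x p := by
  rw [aeval_eq_eval]

theorem al_hc_mul {T : Type} {R : Type} [CommRing R] {i : ℕ} {b : MvPolynomial T R}
    (hb : b.IsHomogeneous i) (a : MvPolynomial T R) (n : ℕ) :
    homogeneousComponent (n + i) (a * b) = homogeneousComponent n a * b := by
  conv_lhs => rw [← sum_homogeneousComponent a, Finset.sum_mul, map_sum]
  have h1 : ∀ j, homogeneousComponent (n + i) (homogeneousComponent j a * b) =
      if n = j then homogeneousComponent j a * b else 0 := by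
    intro j
    rw [homogeneousComponent_of_mem ((homogeneousComponent_isHomogeneous j a).mul hb)]
    congr 1
    simp
  simp_rw [h1]
  rw [Finset.sum_ite_eq]
  split_ifs with h2
  · rfl
  · rw [homogeneousComponent_eq_zero n a (by
      rw [Finset.mem_range] at h2; omega), zero_mul]

/-- evaluation of components of products with a homogeneous polynomial vanishing at the point -/
theorem al_hc_zero {T : Type} {i : ℕ} {b : MvPolynomial T ℂ}
    (hb : b.IsHomogeneous i) (a : MvPolynomial T ℂ) (n : ℕ) (w : T → ℂ) (hw : eval w b = 0) :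
    eval w (homogeneousComponent n (a * b)) = 0 := by
  rcases le_or_gt i n with h | h
  · obtain ⟨k, rfl⟩ := Nat.exists_eq_add_of_le' h
    rw [al_hc_mul hb, map_mul, hw, mul_zero]
  · conv_lhs => rw [← sum_homogeneousComponent a, Finset.sum_mul, map_sum]
    rw [map_sum]
    refine Finset.sum_eq_zero fun j _ => ?_
    rw [homogeneousComponent_of_mem ((homogeneousComponent_isHomogeneous j a).mul hb),
      if_neg (by omega), map_zero]

section lines

variable {σ κ ν : Type} [Fintype σ] [Fintype κ] [Fintype ν] [DecidableEq ν] [DecidableEq κ]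
  [DecidableEq σ]

/-- 2 × 2 minors -/
def alMin (z : (σ × ν) × (σ × ν)) : MvPolynomial (σ × ν) ℂ :=
  X (z.1.1, z.1.2) * X (z.2.1, z.2.2) - X (z.1.1, z.2.2) * X (z.2.1, z.1.2)

/-- the linear forms -/
def alLin (A : σ → Matrix κ ν ℂ) (k : κ) : MvPolynomial (σ × ν) ℂ :=
  ∑ t : σ × ν, C (A t.1 k t.2) * X t

omit [Fintype σ] [Fintype ν] [DecidableEq ν] [DecidableEq σ] in
theorem alMin_hom (z : (σ × ν) × (σ × ν)) : (alMin z).IsHomogeneous 2 :=
  ((isHomogeneous_X _ _).mul (isHomogeneous_X _ _)).sub
    ((isHomogeneous_X _ _).mul (isHomogeneous_X _ _))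

omit [Fintype κ] [DecidableEq ν] [DecidableEq κ] [DecidableEq σ] in
theorem alLin_hom (A : σ → Matrix κ ν ℂ) (k : κ) : (alLin A k).IsHomogeneous 1 :=
  IsHomogeneous.sum _ _ _ fun t _ => isHomogeneous_C_mul_X _ _

omit [Fintype κ] [DecidableEq ν] [DecidableEq κ] [DecidableEq σ] in
theorem alLin_eval (A : σ → Matrix κ ν ℂ) (k : κ) (x : σ → ℂ) (v : ν → ℂ) (w : σ × ν → ℂ)
    (hw : ∀ t, w t = x t.1 * v t.2) :
    eval w (alLin A k) = ((∑ i, x i • A i) *ᵥ v) k := by
  rw [alLin, map_sum, Fintype.sum_prod_type]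
  simp only [Matrix.mulVec, dotProduct, Matrix.sum_apply, Matrix.smul_apply, smul_eq_mul,
    Finset.sum_mul]
  rw [Finset.sum_comm]
  refine Finset.sum_congr rfl fun j _ => Finset.sum_congr rfl fun i _ => ?_
  simp [hw]
  ring

/-- (9.2), points -/
theorem al_points (A : σ → Matrix κ ν ℂ)
    (hA : ∀ x : σ → ℂ, x ≠ 0 → ∀ v : ν → ℂ, (∑ i, x i • A i) *ᵥ v = 0 → v = 0) (e0 : κ → ℂ) :
    {w : σ × ν → ℂ | ∃ (x : σ → ℂ) (v : ν → ℂ), (∑ i, x i • A i) *ᵥ v = e0 ∧
      ∀ t, w t = x t.1 * v t.2}.Finite := by
  classical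
  set I : Ideal (MvPolynomial (σ × ν) ℂ) :=
    Ideal.span (Set.range (Sum.elim alMin (alLin A))) with hI
  have hzero : ∀ w ∈ zeroLocus ℂ I, w = 0 := by
    intro w hw
    by_contra hne
    obtain ⟨⟨i0, j0⟩, hij⟩ : ∃ t, w t ≠ 0 := by
      by_contra hcon
      push Not at hcon
      exact hne (funext hcon)
    have hgen : ∀ m, eval w (Sum.elim alMin (alLin A) m) = 0 := by
      intro m
      have := hw _ (Ideal.subset_span ⟨m, rfl⟩)
      rwa [al_aeval] at this
    set x : σ → ℂ := fun i => w (i, j0) with hx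
    set v : ν → ℂ := fun j => w (i0, j) / w (i0, j0) with hv
    have hxv : ∀ t : σ × ν, w t = x t.1 * v t.2 := by
      rintro ⟨i, j⟩
      have h1 := hgen (Sum.inl ((i, j), (i0, j0)))
      simp only [Sum.elim_inl, alMin, map_sub, map_mul, eval_X] at h1
      simp only [hx, hv]
      field_simp
      linear_combination h1
    have hx0 : x ≠ 0 := fun h => hij (by have := congrFun h i0; simpa [hx] using this)
    have hAv : (∑ i, x i • A i) *ᵥ v = 0 := by
      funext k
      have h1 := hgen (Sum.inr k)
      rw [Sum.elim_inr, alLin_eval A k x v w hxv] at h1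
      exact h1
    have hv0 := hA x hx0 v hAv
    have h2 := congrFun hv0 j0
    simp only [hv, Pi.zero_apply, div_self hij] at h2
    exact one_ne_zero h2
  have hX : ∀ t : σ × ν, (X t : MvPolynomial (σ × ν) ℂ) ∈ I.radical := by
    intro t
    rw [← vanishingIdeal_zeroLocus_eq_radical (K := ℂ)]
    intro x hx
    rw [hzero x hx]
    simp
  choose e he using fun t => hX t
  have he1 : ∀ t, X t ^ (e t + 1) ∈ I := fun t => by
    rw [pow_succ]
    exact I.mul_mem_right _ (he t)
  have hc : ∀ t, ∃ c : ((σ × ν) × (σ × ν)) ⊕ κ → MvPolynomial (σ × ν) ℂ,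
      ∑ m, c m * Sum.elim alMin (alLin A) m = X t ^ (e t + 1) := fun t =>
    Ideal.mem_span_range_iff_exists_fun.1 (he1 t)
  choose c hc using hc
  refine al_finite _ (fun t => e t + 1)
    (fun t => ∑ k, C (e0 k) * homogeneousComponent (e t) (c t (Sum.inr k))) ?_ ?_
  · intro t
    refine Nat.lt_succ_of_le ?_
    refine totalDegree_finsetSum_le fun k _ => ?_
    refine (totalDegree_mul _ _).trans ?_
    rw [totalDegree_C, zero_add]
    exact (homogeneousComponent_isHomogeneous _ _).totalDegree_le
  · rintro w ⟨x, v, hxv, hw⟩ t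
    have h1 : eval w (homogeneousComponent (e t + 1)
        (∑ m, c t m * Sum.elim alMin (alLin A) m)) =
        eval w (homogeneousComponent (e t + 1) (X t ^ (e t + 1))) := by rw [hc t]
    rw [homogeneousComponent_of_mem (isHomogeneous_X_pow t (e t + 1)), if_pos rfl, map_pow,
      eval_X] at h1
    rw [← h1, map_sum, map_sum, Fintype.sum_sum_type]
    have h2 : ∀ z, eval w (homogeneousComponent (e t + 1)
        (c t (Sum.inl z) * Sum.elim alMin (alLin A) (Sum.inl z))) = 0 := by
      intro z
      refine al_hc_zero (alMin_hom z) _ _ _ ?_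
      simp only [alMin, map_sub, map_mul, eval_X, hw]
      ring
    rw [Finset.sum_eq_zero fun z _ => h2 z, zero_add, map_sum]
    refine Finset.sum_congr rfl fun k _ => ?_
    rw [Sum.elim_inr, al_hc_mul (alLin_hom A k), map_mul, map_mul, alLin_eval A k x v w hw, hxv,
      eval_C]
    ring

/-- (9.2), lines -/
theorem al_lines (A : σ → Matrix κ ν ℂ)
    (hA : ∀ x : σ → ℂ, x ≠ 0 → ∀ v : ν → ℂ, (∑ i, x i • A i) *ᵥ v = 0 → v = 0) (e0 : κ → ℂ)
    (he0 : e0 ≠ 0) :
    {l : Submodule ℂ (σ → ℂ) | ∃ (x : σ → ℂ) (v : ν → ℂ), x ≠ 0 ∧ (∑ i, x i • A i) *ᵥ v = e0 ∧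
      l = Submodule.span ℂ {x}}.Finite := by
  classical
  refine ((al_points A hA e0).image fun w : σ × ν → ℂ =>
    Submodule.span ℂ (Set.range fun j => fun i => w (i, j))).subset ?_
  rintro l ⟨x, v, hx, hxv, rfl⟩
  refine ⟨fun t => x t.1 * v t.2, ⟨x, v, hxv, fun _ => rfl⟩, ?_⟩
  have hv : v ≠ 0 := by
    rintro rfl
    rw [Matrix.mulVec_zero] at hxv
    exact he0 hxv.symm
  obtain ⟨j0, hj0⟩ : ∃ j, v j ≠ 0 := by
    by_contra hcon
    push Not at hcon
    exact hv (funext hcon)
  apply le_antisymm
  · rw [Submodule.span_le]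
    rintro _ ⟨j, rfl⟩
    show (fun i => x i * v j) ∈ Submodule.span ℂ {x}
    have : (fun i => x i * v j) = v j • x := by
      funext i; simp [mul_comm]
    rw [this]
    exact Submodule.smul_mem _ _ (Submodule.subset_span rfl)
  · rw [Submodule.span_le]
    intro y hy
    rw [Set.mem_singleton_iff.1 hy]
    have : x = (v j0)⁻¹ • (fun i => x i * v j0) := by
      funext i
      simp only [Pi.smul_apply, smul_eq_mul]
      field_simp
    have h2 := Submodule.smul_mem (Submodule.span ℂ (Set.range fun j => fun i => x i * v j))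
      (v j0)⁻¹ (Submodule.subset_span ⟨j0, rfl⟩)
    rw [← this] at h2
    exact h2

/-- (9.1): Nullstellensatz for the minors of [A(x) | e0] -/
theorem al_null (A : σ → Matrix κ ν ℂ)
    (hA : ∀ x : σ → ℂ, x ≠ 0 → ∀ v : ν → ℂ, (∑ i, x i • A i) *ᵥ v = 0 → v = 0) (e0 : κ → ℂ)
    (P : MvPolynomial σ ℂ) (hP0 : eval 0 P = 0)
    (hP : ∀ x v, x ≠ 0 → (∑ i, x i • A i) *ᵥ v = e0 → eval x P = 0) :
    ∃ M : ℕ, 1 ≤ M ∧ ∃ Y : κ → MvPolynomial σ ℂ,
      (∀ j, ∑ k, Y k * ∑ i, C (A i k j) * X i = 0) ∧ ∑ k, Y k * C (e0 k) = P ^ M := by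
  classical
  set Q : Matrix κ (ν ⊕ Unit) (MvPolynomial σ ℂ) := Matrix.of fun k j =>
    Sum.elim (fun j => ∑ i, C (A i k j) * X i) (fun _ => C (e0 k)) j with hQ
  -- the ideal
  let I : Ideal (MvPolynomial σ ℂ) :=
    { carrier := {p | ∃ Y : κ → MvPolynomial σ ℂ,
        (∀ j, ∑ k, Y k * Q k (Sum.inl j) = 0) ∧ ∑ k, Y k * Q k (Sum.inr ()) = p}
      add_mem' := by
        rintro p q ⟨Y, h1, h2⟩ ⟨Z, h3, h4⟩
        refine ⟨fun k => Y k + Z k, fun j => ?_, ?_⟩
        · simp_rw [add_mul, Finset.sum_add_distrib]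
          rw [h1, h3, add_zero]
        · simp_rw [add_mul, Finset.sum_add_distrib]
          rw [h2, h4]
      zero_mem' := ⟨0, fun j => by simp, by simp⟩
      smul_mem' := by
        rintro c p ⟨Y, h1, h2⟩
        refine ⟨fun k => c * Y k, fun j => ?_, ?_⟩
        · simp_rw [mul_assoc]
          rw [← Finset.mul_sum, h1, mul_zero]
        · simp_rw [mul_assoc]
          rw [← Finset.mul_sum, h2, smul_eq_mul] }
  have hdet : ∀ B : Matrix (ν ⊕ Unit) κ ℂ, (TrI.bp B Q).det ∈ I := by
    intro B
    set M := TrI.bp B Q with hM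
    have h1 : ∀ c, ∑ k, (∑ l, M.adjugate (Sum.inr ()) l * C (B l k)) * Q k c =
        (M.adjugate * M) (Sum.inr ()) c := by
      intro c
      rw [Matrix.mul_apply]
      simp_rw [Finset.sum_mul]
      rw [Finset.sum_comm]
      refine Finset.sum_congr rfl fun l _ => ?_
      rw [hM, TrI.bp, Matrix.of_apply, Finset.mul_sum]
      refine Finset.sum_congr rfl fun k _ => ?_
      ring
    refine ⟨fun k => ∑ l, M.adjugate (Sum.inr ()) l * C (B l k), fun j => ?_, ?_⟩
    · rw [h1, Matrix.adjugate_mul]
      simp [Matrix.smul_apply]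
    · rw [h1, Matrix.adjugate_mul]
      simp [Matrix.smul_apply]
  have hev : ∀ x : σ → ℂ, ∀ B : Matrix (ν ⊕ Unit) κ ℂ, eval x (TrI.bp B Q).det =
      (B * Q.map (eval x)).det := by
    intro x B
    have h2 := (eval x).map_det (TrI.bp B Q)
    have h3 : (eval x).mapMatrix (TrI.bp B Q) = B * Q.map (eval x) := by
      ext a b
      simp [Matrix.mul_apply, TrI.bp]
    rw [h3] at h2
    exact h2
  have hQv : ∀ (x : σ → ℂ) (v : ν ⊕ Unit → ℂ), (Q.map (eval x)) *ᵥ v =
      (∑ i, x i • A i) *ᵥ (fun j => v (Sum.inl j)) + v (Sum.inr ()) • e0 := by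
    intro x v
    funext k
    simp only [Matrix.mulVec, dotProduct, Matrix.map_apply, hQ, Matrix.of_apply,
      Fintype.sum_sum_type, Sum.elim_inl, Sum.elim_inr, Pi.add_apply, Pi.smul_apply, smul_eq_mul,
      map_sum, map_mul, eval_C, eval_X, Matrix.sum_apply, Matrix.smul_apply, Finset.univ_unique,
      Finset.sum_singleton]
    congr 1
    · refine Finset.sum_congr rfl fun j _ => ?_
      congr 1
      refine Finset.sum_congr rfl fun i _ => ?_
      ring
    · exact mul_comm _ _
  have hPI : P ∈ I.radical := by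
    rw [← vanishingIdeal_zeroLocus_eq_radical (K := ℂ)]
    intro x hx
    rw [al_aeval]
    by_cases hx0 : x = 0
    · rw [hx0]; exact hP0
    by_contra hPx
    have hinj : Function.Injective (Q.map (eval x)).mulVecLin := by
      rw [← LinearMap.ker_eq_bot, LinearMap.ker_eq_bot']
      intro v hv
      rw [Matrix.mulVecLin_apply, hQv] at hv
      have hvr : v (Sum.inr ()) = 0 := by
        by_contra hne
        refine hPx (hP x (fun j => -(v (Sum.inr ()))⁻¹ * v (Sum.inl j)) hx0 ?_)
        have h1 : (fun j => -(v (Sum.inr ()))⁻¹ * v (Sum.inl j)) =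
            (-(v (Sum.inr ()))⁻¹) • (fun j => v (Sum.inl j)) := rfl
        rw [h1, Matrix.mulVec_smul, eq_neg_of_add_eq_zero_left hv, smul_neg, neg_smul, neg_neg,
          smul_smul, inv_mul_cancel₀ hne, one_smul]
      rw [hvr, zero_smul, add_zero] at hv
      have hvl := hA x hx0 _ hv
      funext j
      rcases j with j | j
      · exact congrFun hvl j
      · exact hvr
    obtain ⟨g, hg⟩ := LinearMap.exists_leftInverse_of_injective _
      (LinearMap.ker_eq_bot.2 hinj)
    set B : Matrix (ν ⊕ Unit) κ ℂ := LinearMap.toMatrix' g with hB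
    have hBA : B * (Q.map (eval x)) = 1 := by
      have h1 := congrArg LinearMap.toMatrix' hg
      rw [LinearMap.toMatrix'_comp, LinearMap.toMatrix'_id] at h1
      rw [← Matrix.toLin'_apply', LinearMap.toMatrix'_toLin'] at h1
      exact h1
    have hx1 : eval x ((TrI.bp B Q).det) = 0 := by
      have := hx _ (hdet B)
      rwa [al_aeval] at this
    rw [hev, hBA, Matrix.det_one] at hx1
    exact one_ne_zero hx1
  obtain ⟨M, hM⟩ := hPI
  obtain ⟨Y, h1, h2⟩ := I.mul_mem_right P hM
  refine ⟨M + 1, by omega, Y, fun j => ?_, ?_⟩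
  · exact h1 j
  · rw [pow_succ]
    exact h2

end lines

end

end TG
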