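import Pool.Agent.TG.AL1

/-!
# Module AL: real homogeneous multipliers
-/

open MvPolynomial Matrix

namespace TG

noncomputable section

section re

variable {σ : Type}

/-- real part of the homogeneous component of degree m -/
def rp (m : ℕ) (p : MvPolynomial σ ℂ) : MvPolynomial σ ℝ :=
  ∑ α ∈ p.support.filter (fun α => α.degree = m), monomial α (coeff α p).re

theorem rp_coeff (m : ℕ) (p : MvPolynomial σ ℂ) (β : σ →₀ ℕ) :
    coeff β (rp m p) = if β.degree = m then (coeff β p).re else 0 := by
  classical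
  rw [rp, coeff_sum]
  simp only [coeff_monomial]
  by_cases hβ : β.degree = m
  · rw [if_pos hβ]
    by_cases hs : β ∈ p.support
    · rw [Finset.sum_eq_single β]
      · rw [if_pos rfl]
      · intro α _ hα
        rw [if_neg hα]
      · intro h
        exact absurd (Finset.mem_filter.2 ⟨hs, hβ⟩) h
    · rw [Finset.sum_eq_zero]
      · rw [notMem_support_iff.1 hs]; rfl
      · intro α hα
        rw [if_neg]
        rintro rfl
        exact hs (Finset.mem_filter.1 hα).1
  · rw [if_neg hβ, Finset.sum_eq_zero]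
    intro α hα
    rw [if_neg]
    rintro rfl
    exact hβ (Finset.mem_filter.1 hα).2

theorem rp_hom (m : ℕ) (p : MvPolynomial σ ℂ) : (rp m p).IsHomogeneous m := by
  intro β hβ
  rw [rp_coeff] at hβ
  by_contra hcon
  refine hβ (if_neg ?_)
  rw [Finsupp.degree_eq_weight_one]
  exact hcon

end re

section main

variable {σ κ ν : Type} [Fintype σ] [Fintype κ] [Fintype ν] [DecidableEq ν] [DecidableEq κ]
  [DecidableEq σ]

/-- (9.1), real version -/
theorem al_real (A : σ → Matrix κ ν ℝ)
    (hA : ∀ x : σ → ℂ, x ≠ 0 → ∀ v : ν → ℂ,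
      (∑ i, x i • (A i).map (fun r : ℝ => (r : ℂ))) *ᵥ v = 0 → v = 0) (e0 : κ → ℝ)
    (P : MvPolynomial σ ℝ) (D : ℕ) (hPh : P.IsHomogeneous D) (hD : 1 ≤ D)
    (hP : ∀ (x : σ → ℂ) (v : ν → ℂ), x ≠ 0 →
      (∑ i, x i • (A i).map (fun r : ℝ => (r : ℂ))) *ᵥ v = (fun k => (e0 k : ℂ)) →
      eval₂ Complex.ofRealHom x P = 0) :
    ∃ M : ℕ, 1 ≤ M ∧ ∃ Y : κ → MvPolynomial σ ℝ,
      (∀ k, (Y k).IsHomogeneous (D * M)) ∧
      (∀ j, ∑ k, Y k * ∑ i, C (A i k j) * X i = 0) ∧ ∑ k, Y k * C (e0 k) = P ^ M := by
  classical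
  have h0 : eval (0 : σ → ℂ) (map Complex.ofRealHom P) = 0 := by
    rw [eval_map]
    rw [eval₂_eq]
    refine Finset.sum_eq_zero fun α hα => ?_
    have hdeg := hPh (mem_support_iff.1 hα)
    have hne : α ≠ 0 := by
      rintro rfl
      simp at hdeg
      omega
    obtain ⟨i, hi⟩ : ∃ i, α i ≠ 0 := by
      by_contra hcon
      push Not at hcon
      exact hne (Finsupp.ext hcon)
    rw [Finset.prod_eq_zero (Finsupp.mem_support_iff.2 hi) (by simp [hi]), mul_zero]
  obtain ⟨M, hM, Y, hY1, hY2⟩ := al_null (fun i => (A i).map (fun r : ℝ => (r : ℂ))) hA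
    (fun k => (e0 k : ℂ)) (map Complex.ofRealHom P) h0 (fun x v hx hv => by
      rw [eval_map]; exact hP x v hx hv)
  refine ⟨M, hM, fun k => rp (D * M) (Y k), fun k => rp_hom _ _, ?_, ?_⟩
  · intro j
    ext β
    have h1 := congrArg (coeff β) (hY1 j)
    simp only [Finset.mul_sum, coeff_sum, coeff_zero, Matrix.map_apply] at h1 ⊢
    have h2 : ∀ k i, coeff β (Y k * (C ((A i k j : ℝ) : ℂ) * X i)) =
        (A i k j : ℂ) * (if i ∈ β.support then coeff (β - Finsupp.single i 1) (Y k) else 0) := by
      intro k i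
      rw [show Y k * (C ((A i k j : ℝ) : ℂ) * X i) = C ((A i k j : ℝ) : ℂ) * (Y k * X i) by ring,
        coeff_C_mul, coeff_mul_X']
    have h3 : ∀ k i, coeff β (rp (D * M) (Y k) * (C (A i k j) * X i)) =
        A i k j * (if i ∈ β.support then coeff (β - Finsupp.single i 1) (rp (D * M) (Y k))
          else 0) := by
      intro k i
      rw [show rp (D * M) (Y k) * (C (A i k j) * X i) = C (A i k j) * (rp (D * M) (Y k) * X i) by
        ring, coeff_C_mul, coeff_mul_X']
    simp_rw [h2] at h1
    simp_rw [h3]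
    by_cases hβ : β.degree = D * M + 1
    · have h4 := congrArg Complex.re h1
      simp only [Complex.re_sum, Complex.zero_re] at h4
      refine Eq.trans ?_ h4
      refine Finset.sum_congr rfl fun k _ => Finset.sum_congr rfl fun i _ => ?_
      rw [Complex.re_ofReal_mul]
      congr 1
      by_cases hi : i ∈ β.support
      · rw [if_pos hi, if_pos hi, rp_coeff, if_pos]
        have h5 : (β - Finsupp.single i 1) + Finsupp.single i 1 = β := by
          refine tsub_add_cancel_of_le (Finsupp.single_le_iff.2 ?_)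
          exact Nat.one_le_iff_ne_zero.2 (Finsupp.mem_support_iff.1 hi)
        have h6 := congrArg Finsupp.degree h5
        rw [map_add, Finsupp.degree_single, hβ] at h6
        omega
      · rw [if_neg hi, if_neg hi]; rfl
    · refine Finset.sum_eq_zero fun k _ => Finset.sum_eq_zero fun i _ => ?_
      by_cases hi : i ∈ β.support
      · rw [if_pos hi, rp_coeff, if_neg, mul_zero]
        intro h7
        have h5 : (β - Finsupp.single i 1) + Finsupp.single i 1 = β := by
          refine tsub_add_cancel_of_le (Finsupp.single_le_iff.2 ?_)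
          exact Nat.one_le_iff_ne_zero.2 (Finsupp.mem_support_iff.1 hi)
        have h6 := congrArg Finsupp.degree h5
        rw [map_add, Finsupp.degree_single, h7] at h6
        exact hβ h6.symm
      · rw [if_neg hi, mul_zero]
  · ext β
    have h1 := congrArg (coeff β) hY2
    rw [← map_pow, coeff_map] at h1
    simp_rw [mul_comm _ (C _)] at h1 ⊢
    simp only [coeff_sum, coeff_C_mul] at h1 ⊢
    simp_rw [rp_coeff]
    by_cases hβ : β.degree = D * M
    · simp_rw [if_pos hβ]
      have h4 := congrArg Complex.re h1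
      simp only [Complex.re_sum, Complex.ofRealHom_eq_coe, Complex.ofReal_re] at h4
      rw [← h4]
      refine Finset.sum_congr rfl fun k _ => ?_
      rw [Complex.re_ofReal_mul]
    · simp_rw [if_neg hβ]
      simp only [mul_zero, Finset.sum_const_zero]
      symm
      by_contra hne
      have h5 := (hPh.pow M) hne
      refine hβ ?_
      rw [Finsupp.degree_eq_weight_one]
      exact h5

end main

end

end TG
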