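import Pool.Agent.TG.AL0
import Pool.Agent.TG.AL3

/-!
# Module AL: (9.3) and the choice of the second order operators
-/

open MeasureTheory Metric Set TrI MvPolynomial
open scoped InnerProductSpace ContDiff

namespace TG

noncomputable section

variable {d : ℕ}

theorem sNu_hom (v : Sp d) : (sNu v).IsHomogeneous 2 := by
  refine IsHomogeneous.sub ?_ ?_
  · refine IsHomogeneous.sum _ _ _ fun i _ => ?_
    exact isHomogeneous_X_pow i 2
  · have h : (∑ i, C (v i) * X i : MvPolynomial (Fin d) ℝ).IsHomogeneous 1 :=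
      IsHomogeneous.sum _ _ _ fun i _ => isHomogeneous_C_mul_X _ _
    exact h.pow 2

theorem sQ_hom (S : Sp d →L[ℝ] Sp d) : (sQ S).IsHomogeneous 2 := by
  refine IsHomogeneous.sum _ _ _ fun k _ => ?_
  have h : (∑ i, C ((S (EuclideanSpace.single k (1 : ℝ))) i) * X i :
      MvPolynomial (Fin d) ℝ).IsHomogeneous 1 :=
    IsHomogeneous.sum _ _ _ fun i _ => isHomogeneous_C_mul_X _ _
  exact h.pow 2

theorem sNu_eval (v : Sp d) (hv : ‖v‖ = 1) (c : ℂ) :
    eval₂ Complex.ofRealHom (fun i => c * ((v i : ℝ) : ℂ)) (sNu v) = 0 := by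
  have h1 : ∑ i, (v i) ^ 2 = 1 := by
    have := EuclideanSpace.real_norm_sq_eq v
    rw [hv] at this
    rw [← this]; norm_num
  have h2 : ∑ i, ((v i : ℝ) : ℂ) ^ 2 = 1 := by exact_mod_cast congrArg (fun r : ℝ => (r : ℂ)) h1
  rw [sNu, eval₂_sub, eval₂_pow]
  simp only [eval₂_sum, eval₂_pow, eval₂_mul, eval₂_C, eval₂_X, Complex.ofRealHom_eq_coe]
  have h3 : ∑ i, (c * ((v i : ℝ) : ℂ)) ^ 2 = c ^ 2 := by
    simp_rw [mul_pow]
    rw [← Finset.mul_sum, h2, mul_one]
  have h4 : ∑ i, ((v i : ℝ) : ℂ) * (c * ((v i : ℝ) : ℂ)) = c := by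
    have : ∀ i, ((v i : ℝ) : ℂ) * (c * ((v i : ℝ) : ℂ)) = c * ((v i : ℝ) : ℂ) ^ 2 := by
      intro i; ring
    simp_rw [this]
    rw [← Finset.mul_sum, h2, mul_one]
  rw [h3, h4, sub_self]

/-- extension to a basis -/
theorem al_basis (a b : Sp d) (hab : LinearIndependent ℝ ![a, b]) :
    ∃ (ι : Type) (B : Module.Basis (Fin 2 ⊕ ι) ℝ (Sp d)), B (Sum.inl 0) = a ∧ B (Sum.inl 1) = b := by
  refine ⟨_, Module.Basis.sumExtend hab, ?_, ?_⟩
  · rw [Module.Basis.sumExtend]
    simp
    rfl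
  · rw [Module.Basis.sumExtend]
    simp
    rfl

/-- for independent a, b there is a bijective S whose form vanishes at a + ib -/
theorem al_form (a b : Sp d) (hab : LinearIndependent ℝ ![a, b]) :
    ∃ S : Sp d →L[ℝ] Sp d, Function.Bijective S ∧ ∀ c : ℂ,
      eval₂ Complex.ofRealHom (fun i => c * (((a i : ℝ) : ℂ) + ((b i : ℝ) : ℂ) * Complex.I))
        (sQ S) = 0 := by
  classical
  obtain ⟨ι, B, hBa, hBb⟩ := al_basis a b hab
  set O : Module.Basis (Fin d) ℝ (Sp d) := (EuclideanSpace.basisFun (Fin d) ℝ).toBasis with hO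
  set e := B.indexEquiv O with he
  set T : Sp d ≃ₗ[ℝ] Sp d := B.equiv O e with hT
  have hTa : T a = EuclideanSpace.single (e (Sum.inl 0)) 1 := by
    rw [← hBa, hT, Module.Basis.equiv_apply, hO]
    simp
  have hTb : T b = EuclideanSpace.single (e (Sum.inl 1)) 1 := by
    rw [← hBb, hT, Module.Basis.equiv_apply, hO]
    simp
  set Tc : Sp d →L[ℝ] Sp d := LinearMap.toContinuousLinearMap (T : Sp d →ₗ[ℝ] Sp d) with hTc
  have hTcT : ∀ x, Tc x = T x := fun x => rfl
  set S : Sp d →L[ℝ] Sp d := ContinuousLinearMap.adjoint Tc with hS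
  have hin : ∀ x y, ⟪S x, y⟫_ℝ = ⟪x, T y⟫_ℝ := by
    intro x y
    rw [hS, ContinuousLinearMap.adjoint_inner_left]
    rfl
  have hinj : Function.Injective S := by
    rw [injective_iff_map_eq_zero]
    intro x hx
    obtain ⟨y, hy⟩ := T.surjective x
    have h1 := hin x y
    rw [hx, hy, inner_zero_left, real_inner_self_eq_norm_sq] at h1
    exact norm_eq_zero.1 (pow_eq_zero_iff (two_ne_zero) |>.1 h1.symm)
  refine ⟨S, ⟨hinj, ?_⟩, ?_⟩
  · exact (LinearMap.injective_iff_surjective (f := (S : Sp d →ₗ[ℝ] Sp d))).1 hinj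
  intro c
  have hk : ∀ (k : Fin d) (x : Sp d), ∑ i, (S (EuclideanSpace.single k (1 : ℝ))) i * x i =
      (T x) k := by
    intro k x
    have h1 := hin (EuclideanSpace.single k (1 : ℝ)) x
    rw [EuclideanSpace.inner_single_left] at h1
    simp only [map_one, one_mul] at h1
    rw [← h1, PiLp.inner_apply]
    refine Finset.sum_congr rfl fun i _ => ?_
    simp [mul_comm]
  have hlin : ∀ k : Fin d, ∑ i, (((S (EuclideanSpace.single k (1 : ℝ))) i : ℝ) : ℂ) *
      (c * (((a i : ℝ) : ℂ) + ((b i : ℝ) : ℂ) * Complex.I)) =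
      c * ((((T a) k : ℝ) : ℂ) + (((T b) k : ℝ) : ℂ) * Complex.I) := by
    intro k
    rw [← hk k a, ← hk k b]
    push_cast
    rw [Finset.sum_mul, ← Finset.sum_add_distrib, Finset.mul_sum]
    refine Finset.sum_congr rfl fun i _ => ?_
    ring
  have hne : e (Sum.inl 0) ≠ e (Sum.inl 1) := by
    intro h
    have := e.injective h
    simp at this
  rw [sQ]
  simp only [eval₂_sum, eval₂_pow, eval₂_mul, eval₂_C, eval₂_X, Complex.ofRealHom_eq_coe]
  simp_rw [hlin, hTa, hTb]
  rw [Finset.sum_eq_add_of_mem (e (Sum.inl 0)) (e (Sum.inl 1)) (Finset.mem_univ _)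
    (Finset.mem_univ _) hne]
  · simp [hne, hne.symm, mul_pow]
  · intro k _ hk2
    simp [hk2.1, hk2.2]

/-- (9.3) -/
theorem al_choice (𝓛 : Set (Submodule ℂ (Fin d → ℂ))) (hfin : 𝓛.Finite)
    (hl : ∀ l ∈ 𝓛, ∃ x : Fin d → ℂ, x ≠ 0 ∧ l = Submodule.span ℂ {x}) :
    ∃ (r q : ℕ) (ν : Fin r → Sp d) (S : Fin q → (Sp d →L[ℝ] Sp d)), 1 ≤ q ∧
      (∀ i, ‖ν i‖ = 1) ∧ (∀ i j, i ≠ j → ν i ≠ ν j ∧ ν i ≠ - ν j) ∧
      (∀ k, Function.Bijective (S k)) ∧
      ∀ l ∈ 𝓛, ∀ x ∈ l,
        eval₂ Complex.ofRealHom x ((∏ i, sNu (ν i)) * ∏ k, sQ (S k)) = 0 := by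
  classical
  -- real lines
  set Re : Set (Submodule ℂ (Fin d → ℂ)) :=
    {l ∈ 𝓛 | ∃ v : Sp d, ‖v‖ = 1 ∧ l = Submodule.span ℂ {fun i => ((v i : ℝ) : ℂ)}} with hRe
  set Im : Set (Submodule ℂ (Fin d → ℂ)) :=
    {l ∈ 𝓛 | ∃ S : Sp d →L[ℝ] Sp d, Function.Bijective S ∧
      ∀ x ∈ l, eval₂ Complex.ofRealHom x (sQ S) = 0} with hIm
  have hReF : Re.Finite := hfin.subset fun l h => h.1
  have hImF : Im.Finite := hfin.subset fun l h => h.1
  have hcov : ∀ l ∈ 𝓛, l ∈ Re ∨ l ∈ Im := by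
    intro l hlm
    obtain ⟨x, hx, rfl⟩ := hl l hlm
    set a : Sp d := WithLp.toLp 2 fun i => (x i).re with ha
    set b : Sp d := WithLp.toLp 2 fun i => (x i).im with hb
    have hxab : ∀ i, x i = ((a i : ℝ) : ℂ) + ((b i : ℝ) : ℂ) * Complex.I := fun i =>
      (Complex.re_add_im (x i)).symm
    by_cases hab : LinearIndependent ℝ ![a, b]
    · right
      obtain ⟨S, hS1, hS2⟩ := al_form a b hab
      refine ⟨hlm, S, hS1, ?_⟩
      intro y hy
      obtain ⟨c, rfl⟩ := Submodule.mem_span_singleton.1 hy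
      have h1 : c • x = fun i => c * (((a i : ℝ) : ℂ) + ((b i : ℝ) : ℂ) * Complex.I) := by
        funext i
        rw [Pi.smul_apply, smul_eq_mul, hxab i]
      rw [h1]
      exact hS2 c
    · left
      rw [LinearIndependent.pair_iff] at hab
      push Not at hab
      obtain ⟨s, t, hst, hne⟩ := hab
      -- (t + i s) x = t a - s b is real
      set w : Sp d := t • a - s • b with hw
      set z : ℂ := ⟨t, s⟩ with hz
      have hz0 : z ≠ 0 := by
        intro h
        have h1 := congrArg Complex.re h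
        have h2 := congrArg Complex.im h
        simp [hz] at h1 h2
        exact hne h2 h1
      have hzx : z • x = fun i => ((w i : ℝ) : ℂ) := by
        funext i
        have h1 : s * a i + t * b i = 0 := by
          have := congrArg (fun v : Sp d => v i) hst
          simpa using this
        rw [Pi.smul_apply, smul_eq_mul, hxab i]
        apply Complex.ext
        · simp [hz, hw]
        · simp only [hz, Complex.mul_im, Complex.add_im, Complex.add_re, Complex.ofReal_im,
            Complex.ofReal_re, Complex.mul_re, Complex.I_re, Complex.I_im]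
          linarith
      have hw0 : w ≠ 0 := by
        intro h
        rw [h] at hzx
        have h1 : z • x = 0 := by
          rw [hzx]; funext i; simp
        rcases smul_eq_zero.1 h1 with h2 | h2
        · exact hz0 h2
        · exact hx h2
      have hwn : ‖w‖ ≠ 0 := norm_ne_zero_iff.2 hw0
      refine ⟨hlm, (‖w‖)⁻¹ • w, ?_, ?_⟩
      · rw [norm_smul, norm_inv, norm_norm, inv_mul_cancel₀ hwn]
      · have h1 : (fun i => ((((‖w‖)⁻¹ • w) i : ℝ) : ℂ)) = (((‖w‖)⁻¹ : ℝ) : ℂ) • z • x := by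
          rw [hzx]
          funext i
          simp
        rw [h1, smul_smul]
        refine (Submodule.span_singleton_smul_eq ?_ x).symm
        refine IsUnit.mk0 _ (mul_ne_zero ?_ hz0)
        exact_mod_cast inv_ne_zero hwn
  -- enumerate
  let eR := hReF.toFinset.equivFin
  let eI := hImF.toFinset.equivFin
  set r := hReF.toFinset.card
  set q := hImF.toFinset.card
  have hR : ∀ i : Fin r, ∃ v : Sp d, ‖v‖ = 1 ∧
      (eR.symm i : Submodule ℂ (Fin d → ℂ)) = Submodule.span ℂ {fun i => ((v i : ℝ) : ℂ)} := by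
    intro i
    exact ((Set.Finite.mem_toFinset hReF).1 (eR.symm i).2).2
  have hI : ∀ k : Fin q, ∃ S : Sp d →L[ℝ] Sp d, Function.Bijective S ∧
      ∀ x ∈ (eI.symm k : Submodule ℂ (Fin d → ℂ)), eval₂ Complex.ofRealHom x (sQ S) = 0 := by
    intro k
    exact ((Set.Finite.mem_toFinset hImF).1 (eI.symm k).2).2
  choose ν hν1 hν2 using hR
  choose S hS1 hS2 using hI
  refine ⟨r, q + 1, ν, Fin.cons (ContinuousLinearMap.id ℝ (Sp d)) S, by omega, hν1, ?_, ?_, ?_⟩
  · intro i j hij
    have hne : (eR.symm i : Submodule ℂ (Fin d → ℂ)) ≠ eR.symm j := by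
      intro h
      exact hij (eR.symm.injective (Subtype.ext h))
    constructor
    · intro h
      apply hne
      rw [hν2 i, hν2 j, h]
    · intro h
      apply hne
      rw [hν2 i, hν2 j, h]
      have h1 : (fun k => (((-ν j) k : ℝ) : ℂ)) = -(fun k => (((ν j) k : ℝ) : ℂ)) := by
        funext k; simp
      rw [h1, ← Set.neg_singleton, Submodule.span_neg]
  · intro k
    refine Fin.cases ?_ (fun k => ?_) k
    · exact Function.bijective_id
    · exact hS1 k
  · intro l hlm x hx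
    rw [eval₂_mul]
    rcases hcov l hlm with h | h
    · set i := eR ⟨l, (Set.Finite.mem_toFinset hReF).2 h⟩ with hi
      have hli : (eR.symm i : Submodule ℂ (Fin d → ℂ)) = l := by
        rw [hi, Equiv.symm_apply_apply]
      have h1 : eval₂ Complex.ofRealHom x (∏ i, sNu (ν i)) = 0 := by
        rw [← coe_eval₂Hom, map_prod]
        refine Finset.prod_eq_zero (Finset.mem_univ i) ?_
        rw [coe_eval₂Hom]
        rw [← hli, hν2 i] at hx
        obtain ⟨c, rfl⟩ := Submodule.mem_span_singleton.1 hx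
        exact sNu_eval (ν i) (hν1 i) c
      rw [h1, zero_mul]
    · set k := eI ⟨l, (Set.Finite.mem_toFinset hImF).2 h⟩ with hk
      have hlk : (eI.symm k : Submodule ℂ (Fin d → ℂ)) = l := by
        rw [hk, Equiv.symm_apply_apply]
      have h1 : eval₂ Complex.ofRealHom x (∏ k, sQ ((Fin.cons (ContinuousLinearMap.id ℝ (Sp d)) S :
          Fin (q + 1) → (Sp d →L[ℝ] Sp d)) k)) = 0 := by
        rw [← coe_eval₂Hom, map_prod]
        refine Finset.prod_eq_zero (Finset.mem_univ k.succ) ?_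
        rw [coe_eval₂Hom, Fin.cons_succ]
        rw [← hlk] at hx
        exact hS2 k x hx
      rw [h1, mul_zero]

end

end TG
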