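import Pool.Agent.TG.Stmts1
import Pool.Agent.TR.Basic1

/-!
# Averages with general kernels

avk ψ s g for a continuous, even, nonnegative kernel ψ of integral one, supported in the unit ball
(structure GK).  The base kernel b and all KN b n are of this kind; identities between the averages
with these kernels.
-/

open MeasureTheory Metric Set TrI
open scoped InnerProductSpace ContDiff Pointwise

set_option linter.unusedSectionVars false

namespace TG

noncomputable section

variable {d : ℕ}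

/-- averaging kernels -/
structure GK (ψ : Sp d → ℝ) : Prop where
  cont : Continuous ψ
  nonneg : ∀ y, 0 ≤ ψ y
  supp : ∀ y, 1 ≤ ‖y‖ → ψ y = 0
  even : ∀ y, ψ (-y) = ψ y
  int : ∫ y, ψ y = 1

section Gen

variable {F : Type*} [NormedAddCommGroup F] [NormedSpace ℝ F] {g h : Sp d → F}
  {ψ χ : Sp d → ℝ}

lemma GK.hcs (hψ : GK ψ) : HasCompactSupport ψ := by
  refine HasCompactSupport.of_support_subset_isCompact (isCompact_closedBall (0 : Sp d) 1) ?_
  intro x hx
  by_contra hx'
  apply hx
  rw [mem_closedBall, dist_zero_right, not_le] at hx'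
  exact hψ.supp x hx'.le

lemma GK.integrable (hψ : GK ψ) : Integrable ψ :=
  hψ.cont.integrable_of_hasCompactSupport hψ.hcs

lemma GK.avk_integrable' (hψ : GK ψ) (hg : LB g) (s : ℝ) (x : Sp d) :
    Integrable (fun y => ψ y • g (x + s • y)) :=
  (hg.comp_smul x s).integrable_smul hψ.cont (R := 1) fun y hy => hψ.supp y hy

lemma avkA_def (ψ : Sp d → ℝ) (s : ℝ) (g : Sp d → F) (x : Sp d) :
    avk ψ s g x = ∫ y, ψ y • g (x + s • y) := rfl

lemma GK.avk_zero_scale [CompleteSpace F] (hψ : GK ψ) (g : Sp d → F) (x : Sp d) :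
    avk ψ 0 g x = g x := by
  rw [avkA_def]
  simp only [zero_smul, add_zero]
  rw [integral_smul_const, hψ.int, one_smul]

/-- bound of an average by a bound of g near x -/
lemma GK.norm_avk_le_of_bound (hψ : GK ψ) {g : Sp d → F} {s : ℝ} {x : Sp d} {M : ℝ}
    (hM : ∀ z, ‖z - x‖ ≤ |s| → ‖g z‖ ≤ M) : ‖avk ψ s g x‖ ≤ M := by
  have hM0 : 0 ≤ M := (norm_nonneg _).trans (hM x (by simp))
  have h1 : ‖avk ψ s g x‖ ≤ ∫ y, ψ y * M := by
    refine norm_integral_le_of_norm_le (hψ.integrable.mul_const M) ?_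
    refine Filter.Eventually.of_forall fun y => ?_
    rw [norm_smul, Real.norm_eq_abs, abs_of_nonneg (hψ.nonneg y)]
    by_cases hy : 1 ≤ ‖y‖
    · rw [hψ.supp y hy]; simp
    · refine mul_le_mul_of_nonneg_left (hM _ ?_) (hψ.nonneg y)
      rw [add_sub_cancel_left, norm_smul, Real.norm_eq_abs]
      push Not at hy
      nlinarith [abs_nonneg s, norm_nonneg y]
  rwa [integral_mul_const, hψ.int, one_mul] at h1

lemma GK.LBavk (hψ : GK ψ) (hg : LB g) (s : ℝ) : LB (avk ψ s g) where
  meas := by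
    have h2 : StronglyMeasurable (Function.uncurry fun (x y : Sp d) => ψ y • g (x + s • y)) := by
      refine StronglyMeasurable.smul (f := fun p : Sp d × Sp d => ψ p.2) ?_ ?_
      · exact (hψ.cont.comp continuous_snd).stronglyMeasurable
      · exact hg.meas.comp_measurable
          (show Measurable fun p : Sp d × Sp d => p.1 + s • p.2 by fun_prop)
    exact h2.integral_prod_right
  bd := by
    intro R
    obtain ⟨M, hM⟩ := hg.bd (R + |s|)
    refine ⟨M, fun x hx => hψ.norm_avk_le_of_bound fun z hz => hM z ?_⟩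
    have : ‖z‖ ≤ ‖x‖ + ‖z - x‖ := by
      have := norm_add_le x (z - x)
      rwa [add_sub_cancel] at this
    linarith

lemma GK.avk_cs (hψ : GK ψ) (hg : HasCompactSupport g) (s : ℝ) :
    HasCompactSupport (avk ψ s g) := by
  obtain ⟨R, hR⟩ := hg.isCompact.isBounded.subset_closedBall (0 : Sp d)
  refine HasCompactSupport.of_support_subset_isCompact (isCompact_closedBall (0 : Sp d) (R + |s|)) ?_
  intro x hx
  by_contra hx'
  apply hx
  have h1 : ‖avk ψ s g x‖ ≤ 0 := by
    refine hψ.norm_avk_le_of_bound fun z hz => ?_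
    have : g z = 0 := by
      by_contra hz'
      have h2 : z ∈ closedBall (0 : Sp d) R := hR (subset_tsupport _ hz')
      rw [mem_closedBall, dist_zero_right] at h2 hx'
      have : ‖x‖ ≤ ‖z‖ + ‖z - x‖ := by
        have := norm_sub_le z (z - x)
        rwa [sub_sub_cancel] at this
      linarith
    simp [this]
  simpa using h1

lemma GK.avk_eq_setIntegral (hψ : GK ψ) (s : ℝ) (g : Sp d → F) (x : Sp d) :
    avk ψ s g x = ∫ y in closedBall (0 : Sp d) 1, ψ y • g (x + s • y) := by
  rw [avkA_def, setIntegral_eq_integral_of_forall_compl_eq_zero]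
  intro y hy
  rw [hψ.supp, zero_smul]
  simp only [mem_closedBall, dist_zero_right, not_le] at hy
  exact hy.le

lemma GK.avk_cont (hψ : GK ψ) (hg : Continuous g) (s : ℝ) : Continuous (avk ψ s g) := by
  have h2 : Continuous (Function.uncurry fun (x y : Sp d) => ψ y • g (x + s • y)) := by
    refine Continuous.smul (hψ.cont.comp continuous_snd) (hg.comp ?_)
    fun_prop
  have h3 := continuous_parametric_integral_of_continuous (μ := volume) h2
    (isCompact_closedBall (0 : Sp d) 1)
  refine h3.congr fun x => ?_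
  exact (hψ.avk_eq_setIntegral s g x).symm

lemma GK.avk_add (hψ : GK ψ) (hg : LB g) (hh : LB h) (s : ℝ) (x : Sp d) :
    avk ψ s (fun z => g z + h z) x = avk ψ s g x + avk ψ s h x := by
  simp only [avkA_def, smul_add]
  exact integral_add (hψ.avk_integrable' hg s x) (hψ.avk_integrable' hh s x)

lemma GK.avk_sub (hψ : GK ψ) (hg : LB g) (hh : LB h) (s : ℝ) (x : Sp d) :
    avk ψ s (fun z => g z - h z) x = avk ψ s g x - avk ψ s h x := by
  simp only [avkA_def, smul_sub]
  exact integral_sub (hψ.avk_integrable' hg s x) (hψ.avk_integrable' hh s x)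

lemma avk_smul (ψ : Sp d → ℝ) (c : ℝ) (g : Sp d → F) (s : ℝ) (x : Sp d) :
    avk ψ s (fun z => c • g z) x = c • avk ψ s g x := by
  simp only [avkA_def]
  rw [← integral_smul]
  congr 1
  ext y
  rw [smul_comm]

lemma avk_mul (ψ : Sp d → ℝ) (c : ℝ) (g : Sp d → ℝ) (s : ℝ) (x : Sp d) :
    avk ψ s (fun z => c * g z) x = c * avk ψ s g x := avk_smul ψ c g s x

lemma GK.avk_sum (hψ : GK ψ) {ι : Type*} (S : Finset ι) {G : ι → Sp d → F}
    (hG : ∀ i ∈ S, LB (G i)) (s : ℝ) (x : Sp d) :
    avk ψ s (fun z => ∑ i ∈ S, G i z) x = ∑ i ∈ S, avk ψ s (G i) x := by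
  simp only [avkA_def, Finset.smul_sum]
  exact integral_finsetSum S fun i hi => hψ.avk_integrable' (hG i hi) s x

lemma GK.avk_const [CompleteSpace F] (hψ : GK ψ) (c : F) (s : ℝ) (x : Sp d) :
    avk ψ s (fun _ => c) x = c := by
  rw [avkA_def, integral_smul_const, hψ.int, one_smul]

lemma GK.avk_nonneg (hψ : GK ψ) {g : Sp d → ℝ} (hg : ∀ z, 0 ≤ g z) (s : ℝ) (x : Sp d) :
    0 ≤ avk ψ s g x :=
  integral_nonneg fun y => mul_nonneg (hψ.nonneg y) (hg _)

lemma GK.avk_mono (hψ : GK ψ) {g h : Sp d → ℝ} (hg : LB g) (hh : LB h)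
    (hgh : ∀ z, g z ≤ h z) (s : ℝ) (x : Sp d) : avk ψ s g x ≤ avk ψ s h x :=
  integral_mono (hψ.avk_integrable' hg s x) (hψ.avk_integrable' hh s x)
    fun y => mul_le_mul_of_nonneg_left (hgh _) (hψ.nonneg y)

lemma GK.avk_le_of_le (hψ : GK ψ) {g : Sp d → ℝ} (hg : LB g) {M : ℝ} (hM : ∀ z, g z ≤ M)
    (s : ℝ) (x : Sp d) : avk ψ s g x ≤ M :=
  (hψ.avk_mono hg (LB.of_cont continuous_const) hM s x).trans (hψ.avk_const M s x).le

lemma GK.norm_avk_le (hψ : GK ψ) (g : Sp d → F) (s : ℝ) (x : Sp d) :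
    ‖avk ψ s g x‖ ≤ avk ψ s (fun z => ‖g z‖) x := by
  refine (norm_integral_le_integral_norm _).trans (le_of_eq ?_)
  rw [avkA_def]
  congr 1
  ext y
  rw [norm_smul, Real.norm_eq_abs, abs_of_nonneg (hψ.nonneg y), smul_eq_mul]

lemma GK.avk_inner (hψ : GK ψ) {E : Type*} [NormedAddCommGroup E] [InnerProductSpace ℝ E]
    [CompleteSpace E] {g : Sp d → E} (hg : LB g) (e : E) (s : ℝ) (x : Sp d) :
    avk ψ s (fun z => ⟪g z, e⟫_ℝ) x = ⟪avk ψ s g x, e⟫_ℝ := by
  simp only [avkA_def]
  rw [real_inner_comm, ← integral_inner (hψ.avk_integrable' hg s x) e]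
  congr 1
  ext y
  rw [inner_smul_right, real_inner_comm, smul_eq_mul]

lemma GK.prod_integrable (hψ : GK ψ) (hχ : GK χ) (hg : LB g) (s t : ℝ) (x : Sp d) :
    Integrable (Function.uncurry fun (y z : Sp d) => ψ y • χ z • g (x + s • y + t • z))
      (volume.prod volume) := by
  obtain ⟨M, hM⟩ := hg.bd (‖x‖ + |s| + |t|)
  have hi : Integrable (fun p : Sp d × Sp d => ψ p.1 * χ p.2 * |M|)
      (volume.prod volume) := (hψ.integrable.mul_prod hχ.integrable).mul_const _
  refine hi.mono' ?_ ?_
  · refine StronglyMeasurable.aestronglyMeasurable ?_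
    refine StronglyMeasurable.smul (f := fun p : Sp d × Sp d => ψ p.1) ?_ ?_
    · exact (hψ.cont.comp continuous_fst).stronglyMeasurable
    · refine StronglyMeasurable.smul (f := fun p : Sp d × Sp d => χ p.2) ?_ ?_
      · exact (hχ.cont.comp continuous_snd).stronglyMeasurable
      · exact hg.meas.comp_measurable
          (show Measurable fun p : Sp d × Sp d => x + s • p.1 + t • p.2 by fun_prop)
  · refine Filter.Eventually.of_forall fun p => ?_
    obtain ⟨y, z⟩ := p
    simp only [Function.uncurry_apply_pair]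
    rw [norm_smul, norm_smul, Real.norm_eq_abs, Real.norm_eq_abs, abs_of_nonneg (hψ.nonneg y),
      abs_of_nonneg (hχ.nonneg z), ← mul_assoc]
    by_cases hy : 1 ≤ ‖y‖
    · simp [hψ.supp y hy]
    by_cases hz : 1 ≤ ‖z‖
    · simp [hχ.supp z hz]
    push Not at hy hz
    refine mul_le_mul_of_nonneg_left ((hM _ ?_).trans (le_abs_self M))
      (mul_nonneg (hψ.nonneg y) (hχ.nonneg z))
    refine (norm_add_le _ _).trans ?_
    have h1 : ‖x + s • y‖ ≤ ‖x‖ + |s| * ‖y‖ := (norm_add_le _ _).trans (by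
      rw [norm_smul, Real.norm_eq_abs])
    have h2 : ‖t • z‖ = |t| * ‖z‖ := by rw [norm_smul, Real.norm_eq_abs]
    nlinarith [abs_nonneg s, abs_nonneg t, norm_nonneg y, norm_nonneg z]

/-- averages commute -/
lemma GK.avk_comm (hψ : GK ψ) (hχ : GK χ) (hg : LB g) (s t : ℝ) :
    avk ψ s (avk χ t g) = avk χ t (avk ψ s g) := by
  ext x
  simp only [avkA_def, ← integral_smul]
  rw [integral_integral_swap (hψ.prod_integrable hχ hg s t x)]
  congr 1
  ext z
  congr 1
  ext y
  rw [smul_comm, add_right_comm]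

lemma GK.shear_integrable (hψ : GK ψ) (hg : Integrable g) (hg' : LB g) (s : ℝ) :
    Integrable (Function.uncurry fun (x y : Sp d) => ψ y • g (x + s • y))
      (volume.prod volume) := by
  have hm : StronglyMeasurable (Function.uncurry fun (x y : Sp d) =>
      ψ y • g (x + s • y)) := by
    refine StronglyMeasurable.smul (f := fun p : Sp d × Sp d => ψ p.2) ?_ ?_
    · exact (hψ.cont.comp continuous_snd).stronglyMeasurable
    · exact hg'.meas.comp_measurable
        (show Measurable fun p : Sp d × Sp d => p.1 + s • p.2 by fun_prop)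
  rw [integrable_prod_iff' hm.aestronglyMeasurable]
  constructor
  · refine Filter.Eventually.of_forall fun y => ?_
    simp only [Function.uncurry_apply_pair]
    exact (hg.comp_add_right (s • y)).smul (ψ y)
  · simp only [Function.uncurry_apply_pair, norm_smul]
    have h3 : (fun y : Sp d => ∫ x, ‖ψ y‖ * ‖g (x + s • y)‖) =
        fun y => ‖ψ y‖ * ∫ x, ‖g x‖ := by
      ext y
      rw [integral_const_mul]
      congr 1
      exact integral_add_right_eq_self (μ := volume) (fun x => ‖g x‖) (s • y)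
    rw [h3]
    exact hψ.integrable.norm.mul_const _

/-- averages preserve integrals -/
lemma GK.avk_int [CompleteSpace F] (hψ : GK ψ) (hg : Integrable g) (hg' : LB g) (s : ℝ) :
    ∫ x, avk ψ s g x = ∫ x, g x := by
  simp only [avkA_def]
  rw [integral_integral_swap (hψ.shear_integrable hg hg' s)]
  simp only [integral_smul]
  have h3 : (fun y : Sp d => ψ y • ∫ x, g (x + s • y)) = fun y => ψ y • ∫ x, g x := by
    ext y
    congr 1
    exact integral_add_right_eq_self (μ := volume) g (s • y)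
  rw [h3, integral_smul_const, hψ.int, one_smul]

lemma GK.avk_integrable (hψ : GK ψ) (hg : Integrable g) (hg' : LB g) (s : ℝ) :
    Integrable (avk ψ s g) :=
  (hψ.shear_integrable hg hg' s).integral_prod_left

/-- averages are self adjoint -/
lemma GK.avk_adj_inner (hψ : GK ψ) {E : Type*} [NormedAddCommGroup E] [InnerProductSpace ℝ E]
    [CompleteSpace E] {g h : Sp d → E} (hg : LB g) (hh : LB h) (hi : HasCompactSupport h)
    (s : ℝ) : ∫ x, ⟪avk ψ s g x, h x⟫_ℝ = ∫ x, ⟪g x, avk ψ s h x⟫_ℝ := by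
  obtain ⟨R, hR⟩ := hi.isCompact.isBounded.subset_closedBall (0 : Sp d)
  have hR' : ∀ z, h z ≠ 0 → ‖z‖ ≤ R := fun z hz => by
    simpa using hR (subset_tsupport _ hz)
  obtain ⟨M, hM⟩ := hg.bd (R + |s|)
  have hhi : Integrable h := hh.integrable hi
  have hinner : Continuous (fun p : E × E => ⟪p.1, p.2⟫_ℝ) := by fun_prop
  have hb : ∀ (z y : Sp d), ‖y‖ < 1 → ‖s • y‖ ≤ |s| := by
    intro z y hy
    rw [norm_smul, Real.norm_eq_abs]
    nlinarith [abs_nonneg s, norm_nonneg y]
  -- first product integrability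
  have hI1 : Integrable (Function.uncurry fun (x y : Sp d) => ψ y * ⟪g (x + s • y), h x⟫_ℝ)
      (volume.prod volume) := by
    have hi0 : Integrable (fun p : Sp d × Sp d => ‖h p.1‖ * ψ p.2 * |M|)
        (volume.prod volume) := (hhi.norm.mul_prod hψ.integrable).mul_const _
    refine hi0.mono' ?_ ?_
    · refine StronglyMeasurable.aestronglyMeasurable ?_
      refine StronglyMeasurable.mul (f := fun p : Sp d × Sp d => ψ p.2) ?_ ?_
      · exact (hψ.cont.comp continuous_snd).stronglyMeasurable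
      · refine hinner.comp_stronglyMeasurable (StronglyMeasurable.prodMk ?_ ?_)
        · exact hg.meas.comp_measurable
            (show Measurable fun p : Sp d × Sp d => p.1 + s • p.2 by fun_prop)
        · exact hh.meas.comp_measurable measurable_fst
    · refine Filter.Eventually.of_forall fun p => ?_
      obtain ⟨x, y⟩ := p
      simp only [Function.uncurry_apply_pair]
      rw [norm_mul, Real.norm_eq_abs, abs_of_nonneg (hψ.nonneg y)]
      by_cases hy : 1 ≤ ‖y‖
      · simp [hψ.supp y hy]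
      by_cases hx : h x = 0
      · simp [hx]
      push Not at hy
      have h1 : ‖g (x + s • y)‖ ≤ |M| := by
        refine (hM _ ?_).trans (le_abs_self M)
        exact (norm_add_le _ _).trans (add_le_add (hR' x hx) (hb x y hy))
      have h2 : ‖⟪g (x + s • y), h x⟫_ℝ‖ ≤ |M| * ‖h x‖ :=
        (norm_inner_le_norm _ _).trans (mul_le_mul_of_nonneg_right h1 (norm_nonneg _))
      calc ψ y * ‖⟪g (x + s • y), h x⟫_ℝ‖ ≤ ψ y * (|M| * ‖h x‖) :=
            mul_le_mul_of_nonneg_left h2 (hψ.nonneg y)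
        _ = ‖h x‖ * ψ y * |M| := by ring
  -- second product integrability
  have hI2 : Integrable (Function.uncurry fun (x y : Sp d) => ψ y * ⟪g x, h (x + s • y)⟫_ℝ)
      (volume.prod volume) := by
    have hi0 : Integrable (fun p : Sp d × Sp d => (ψ p.2 • ‖h (p.1 + s • p.2)‖) * |M|)
        (volume.prod volume) := (hψ.shear_integrable hhi.norm hh.norm s).mul_const _
    refine hi0.mono' ?_ ?_
    · refine StronglyMeasurable.aestronglyMeasurable ?_
      refine StronglyMeasurable.mul (f := fun p : Sp d × Sp d => ψ p.2) ?_ ?_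
      · exact (hψ.cont.comp continuous_snd).stronglyMeasurable
      · refine hinner.comp_stronglyMeasurable (StronglyMeasurable.prodMk ?_ ?_)
        · exact hg.meas.comp_measurable measurable_fst
        · exact hh.meas.comp_measurable
            (show Measurable fun p : Sp d × Sp d => p.1 + s • p.2 by fun_prop)
    · refine Filter.Eventually.of_forall fun p => ?_
      obtain ⟨x, y⟩ := p
      simp only [Function.uncurry_apply_pair]
      rw [norm_mul, Real.norm_eq_abs, abs_of_nonneg (hψ.nonneg y)]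
      by_cases hy : 1 ≤ ‖y‖
      · simp [hψ.supp y hy]
      by_cases hx : h (x + s • y) = 0
      · simp [hx]
      push Not at hy
      have h1 : ‖g x‖ ≤ |M| := by
        refine (hM _ ?_).trans (le_abs_self M)
        have h3 : ‖x‖ ≤ ‖x + s • y‖ + ‖s • y‖ := by
          have := norm_sub_le (x + s • y) (s • y)
          rwa [add_sub_cancel_right] at this
        exact h3.trans (add_le_add (hR' _ hx) (hb x y hy))
      have h2 : ‖⟪g x, h (x + s • y)⟫_ℝ‖ ≤ |M| * ‖h (x + s • y)‖ :=
        (norm_inner_le_norm _ _).trans (mul_le_mul_of_nonneg_right h1 (norm_nonneg _))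
      calc ψ y * ‖⟪g x, h (x + s • y)⟫_ℝ‖ ≤ ψ y * (|M| * ‖h (x + s • y)‖) :=
            mul_le_mul_of_nonneg_left h2 (hψ.nonneg y)
        _ = ψ y • ‖h (x + s • y)‖ * |M| := by rw [smul_eq_mul]; ring
  have e1 : ∀ x, ⟪avk ψ s g x, h x⟫_ℝ = ∫ y, ψ y * ⟪g (x + s • y), h x⟫_ℝ := by
    intro x
    rw [← hψ.avk_inner hg (h x) s x, avkA_def]
    simp only [smul_eq_mul]
  have e2 : ∀ x, ⟪g x, avk ψ s h x⟫_ℝ = ∫ y, ψ y * ⟪g x, h (x + s • y)⟫_ℝ := by
    intro x
    rw [real_inner_comm, ← hψ.avk_inner hh (g x) s x, avkA_def]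
    simp only [smul_eq_mul]
    congr 1
    ext y
    rw [real_inner_comm]
  simp only [e1, e2]
  rw [integral_integral_swap hI1, integral_integral_swap hI2]
  have e3 : ∀ y : Sp d, ∫ x, ψ y * ⟪g (x + s • y), h x⟫_ℝ =
      ∫ x, ψ (-y) * ⟪g x, h (x + s • (-y))⟫_ℝ := by
    intro y
    rw [integral_const_mul, integral_const_mul, hψ.even]
    congr 1
    rw [← integral_add_right_eq_self (μ := volume) (fun x => ⟪g (x + s • y), h x⟫_ℝ) (-(s • y))]
    congr 1
    ext x
    rw [smul_neg, neg_add_cancel_right]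
  simp only [e3]
  exact integral_neg_eq_self (fun y : Sp d => ∫ x, ψ y * ⟪g x, h (x + s • y)⟫_ℝ) volume

lemma GK.avk_adj (hψ : GK ψ) {g h : Sp d → ℝ} (hg : LB g) (hh : LB h)
    (hi : HasCompactSupport h) (s : ℝ) :
    ∫ x, avk ψ s g x * h x = ∫ x, g x * avk ψ s h x := by
  have := hψ.avk_adj_inner hg hh hi s
  simp only [RCLike.inner_apply, conj_trivial] at this
  simpa only [mul_comm] using this

end Gen

/-! ## the kernels of the chain -/

lemma IsProf.gk {J : ℕ} {M : ℝ} {β : Sp d → ℝ} (h : IsProf J M β) : GK β where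
  cont := h.smooth.continuous
  nonneg := h.nonneg
  supp := h.supp
  even := fun y => le_antisymm (h.mono y (-y) (by simp)) (h.mono (-y) y (by simp))
  int := h.int

lemma BaseKer.gk {J : ℕ} {M c : ℝ} {b : Sp d → ℝ} (h : BaseKer J M c b) : GK b :=
  (h.kit 0).prof.gk

lemma BaseKer.gkN {J : ℕ} {M c : ℝ} {b : Sp d → ℝ} (h : BaseKer J M c b) (n : ℕ) :
    GK (KN b n) := (h.kit n).prof.gk

section Chain

variable {F : Type*} [NormedAddCommGroup F] [NormedSpace ℝ F] [CompleteSpace F] {g : Sp d → F}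
  {J : ℕ} {M c : ℝ} {b : Sp d → ℝ}

/-- the average with the kernel KN b (n+1) -/
lemma BaseKer.avk_KN_succ (hb : BaseKer J M c b) (n : ℕ) (hg : LB g) (s : ℝ) :
    avk (KN b (n + 1)) s g = avk b s (avk (KN b n) (s / 2) g) := by
  have hK := hb.gkN n
  have hB := hb.gk
  ext x
  have e1 : avk (KN b (n + 1)) s g x =
      ∫ z, ∫ y, (b y * (2 ^ d * KN b n ((2 : ℝ) • (z - y)))) • g (x + s • z) := by
    rw [avkA_def]
    congr 1
    ext z
    rw [integral_smul_const]
    rfl
  have hi : Integrable (Function.uncurry fun (z y : Sp d) =>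
      (b y * (2 ^ d * KN b n ((2 : ℝ) • (z - y)))) • g (x + s • z)) (volume.prod volume) := by
    obtain ⟨M', hM'⟩ := hg.bd (‖x‖ + |s|)
    have hk : Continuous fun p : Sp d × Sp d =>
        b p.2 * (2 ^ d * KN b n ((2 : ℝ) • (p.1 - p.2))) := by
      refine (hB.cont.comp continuous_snd).mul (continuous_const.mul (hK.cont.comp ?_))
      fun_prop
    have hz : ∀ p : Sp d × Sp d, b p.2 * (2 ^ d * KN b n ((2 : ℝ) • (p.1 - p.2))) ≠ 0 →
        ‖p.1‖ ≤ 1 ∧ ‖p.2‖ ≤ 1 := by
      intro p hp
      have h1 : ‖p.2‖ < 1 / 2 := by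
        by_contra h
        push Not at h
        exact hp (by rw [hb.supp _ h, zero_mul])
      have h2 : ‖(2 : ℝ) • (p.1 - p.2)‖ < 1 := by
        by_contra h
        push Not at h
        exact hp (by rw [hK.supp _ h, mul_zero, mul_zero])
      rw [norm_smul, Real.norm_eq_abs, abs_of_pos (by norm_num : (0 : ℝ) < 2)] at h2
      have h3 : ‖p.1‖ ≤ ‖p.1 - p.2‖ + ‖p.2‖ := by
        have := norm_add_le (p.1 - p.2) p.2
        rwa [sub_add_cancel] at this
      constructor <;> linarith
    have hcs : HasCompactSupport fun p : Sp d × Sp d =>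
        b p.2 * (2 ^ d * KN b n ((2 : ℝ) • (p.1 - p.2))) := by
      refine HasCompactSupport.of_support_subset_isCompact
        ((isCompact_closedBall (0 : Sp d) 1).prod (isCompact_closedBall (0 : Sp d) 1)) ?_
      intro p hp
      have := hz p hp
      exact ⟨by simpa using this.1, by simpa using this.2⟩
    have hki := (hk.integrable_of_hasCompactSupport (μ := volume.prod volume) hcs).mul_const |M'|
    refine hki.mono' ?_ ?_
    · refine StronglyMeasurable.aestronglyMeasurable ?_
      refine StronglyMeasurable.smul (f := fun p : Sp d × Sp d =>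
        b p.2 * (2 ^ d * KN b n ((2 : ℝ) • (p.1 - p.2)))) ?_ ?_
      · exact hk.stronglyMeasurable
      · exact hg.meas.comp_measurable
          (show Measurable fun p : Sp d × Sp d => x + s • p.1 by fun_prop)
    · refine Filter.Eventually.of_forall fun p => ?_
      obtain ⟨z, y⟩ := p
      simp only [Function.uncurry_apply_pair]
      have h0 : 0 ≤ b y * (2 ^ d * KN b n ((2 : ℝ) • (z - y))) :=
        mul_nonneg (hB.nonneg _) (mul_nonneg (by positivity) (hK.nonneg _))
      rw [norm_smul, Real.norm_eq_abs, abs_of_nonneg h0]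
      by_cases h00 : b y * (2 ^ d * KN b n ((2 : ℝ) • (z - y))) = 0
      · rw [h00, zero_mul, zero_mul]
      refine mul_le_mul_of_nonneg_left ((hM' _ ?_).trans (le_abs_self M')) h0
      refine (norm_add_le _ _).trans ?_
      have h1 := (hz (z, y) h00).1
      simp only at h1
      rw [norm_smul, Real.norm_eq_abs]
      nlinarith [abs_nonneg s, norm_nonneg z]
  rw [e1, integral_integral_swap hi, avkA_def]
  congr 1
  ext y
  have e2 : (fun z : Sp d => (b y * (2 ^ d * KN b n ((2 : ℝ) • (z - y)))) • g (x + s • z)) =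
      fun z => b y • ((2 ^ d : ℝ) • (KN b n ((2 : ℝ) • (z - y)) • g (x + s • z))) := by
    ext z
    rw [smul_smul, smul_smul, mul_assoc]
  rw [e2, integral_smul, integral_smul]
  congr 1
  have e3 : ∫ z : Sp d, KN b n ((2 : ℝ) • (z - y)) • g (x + s • z) =
      ∫ z : Sp d, KN b n ((2 : ℝ) • z) • g (x + s • y + (s / 2) • ((2 : ℝ) • z)) := by
    rw [← integral_add_right_eq_self (μ := volume)
      (fun z : Sp d => KN b n ((2 : ℝ) • (z - y)) • g (x + s • z)) y]
    congr 1
    ext z
    rw [add_sub_cancel_right, smul_smul, div_mul_cancel₀ s (two_ne_zero), smul_add,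
      add_comm (s • z) (s • y), add_assoc]
  rw [e3, Measure.integral_comp_smul (μ := (volume : Measure (Sp d)))
    (fun w : Sp d => KN b n w • g (x + s • y + (s / 2) • w)) (2 : ℝ), finrank_euclideanSpace_fin,
    smul_smul, avkA_def]
  rw [abs_of_nonneg (by positivity), mul_inv_cancel₀ (by positivity), one_smul]

lemma BaseKer.avk_KN_comm (hb : BaseKer J M c b) (n : ℕ) (hg : LB g) (s t : ℝ) :
    avk (KN b n) s (avk b t g) = avk b t (avk (KN b n) s g) :=
  (hb.gkN n).avk_comm hb.gk hg s t

/-- KN b (n+1) is a small perturbation of KN b n -/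
lemma BaseKer.avk_KN_succ' (hb : BaseKer J M c b) (n : ℕ) (hg : LB g) (s : ℝ) :
    avk (KN b (n + 1)) s g = avk (KN b n) s (avk b (s / 2 ^ (n + 1)) g) := by
  induction n generalizing s g with
  | zero =>
    rw [hb.avk_KN_succ 0 hg s]
    simp only [KN]
    norm_num
  | succ n ih =>
    rw [hb.avk_KN_succ (n + 1) hg s, ih hg (s / 2),
      hb.avk_KN_succ n (hb.gk.LBavk hg _) s]
    have : s / 2 / 2 ^ (n + 1) = s / 2 ^ (n + 1 + 1) := by
      rw [div_div, ← pow_succ']
    rw [this]

lemma LB_fl (hb : BaseKer J M c b) (ε s0 : ℝ) (hg : LB g) (i : ℕ) : LB (fl b ε s0 g i) := by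
  induction i with
  | zero => exact hg
  | succ i ih => exact hb.gk.LBavk ih _

lemma flA_cont (hb : BaseKer J M c b) (ε s0 : ℝ) (hg : Continuous g) (i : ℕ) :
    Continuous (fl b ε s0 g i) := by
  induction i with
  | zero => exact hg
  | succ i ih => exact hb.gk.avk_cont ih _

lemma flA_cs (hb : BaseKer J M c b) (ε s0 : ℝ) (hg : HasCompactSupport g) (i : ℕ) :
    HasCompactSupport (fl b ε s0 g i) := by
  induction i with
  | zero => exact hg
  | succ i ih => exact hb.gk.avk_cs ih _

lemma levA_succ (s0 : ℝ) (i : ℕ) : lev s0 (i + 1) = 2 * lev s0 i := by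
  unfold lev; ring

lemma levA_pos {s0 : ℝ} (h : 0 < s0) (i : ℕ) : 0 < lev s0 i := by
  unfold lev; positivity

/-- the chain in terms of the kernels KN b n -/
lemma flA_eq (hb : BaseKer J M c b) (ε s0 : ℝ) (hg : LB g) (i : ℕ) :
    fl b ε s0 g (i + 1) = avk (KN b i) (ε * lev s0 (i + 1)) g := by
  induction i with
  | zero => rfl
  | succ i ih =>
    have : fl b ε s0 g (i + 1 + 1) = avk b (ε * lev s0 (i + 1 + 1)) (fl b ε s0 g (i + 1)) := rfl
    rw [this, ih, hb.avk_KN_succ i hg]
    congr 2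
    rw [levA_succ s0 (i + 1)]; ring

end Chain

end

end TG
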