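import Pool.Agent.TG.Stmts1
import Pool.Agent.TR.Basic1

/-!
# Basic facts on averages with a general even kernel, and on the fields fl

Kb ψ: ψ continuous, even, nonnegative, supported in the unit ball, integral one.
Instances: the base kernel b and all kernels KN b n of a BaseKer.
-/

open MeasureTheory Metric Set TrI
open scoped InnerProductSpace ContDiff Pointwise

set_option linter.unusedSectionVars false

namespace TG

noncomputable section

variable {d : ℕ}

/-- even nonnegative continuous kernels with integral one, supported in the unit ball -/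
structure Kb (ψ : Sp d → ℝ) : Prop where
  cont : Continuous ψ
  nonneg : ∀ y, 0 ≤ ψ y
  zero : ∀ {y}, 1 ≤ ‖y‖ → ψ y = 0
  int : ∫ y, ψ y = 1
  neg : ∀ y, ψ (-y) = ψ y

lemma BaseKer.kb {J : ℕ} {M c : ℝ} {b : Sp d → ℝ} (h : BaseKer J M c b) : Kb b where
  cont := h.smooth.continuous
  nonneg := h.nonneg
  zero := fun {y} hy => h.supp y (by linarith)
  int := h.int
  neg := fun y => le_antisymm (h.mono _ _ (by rw [norm_neg])) (h.mono _ _ (by rw [norm_neg]))

lemma IsProf.kb {J : ℕ} {M : ℝ} {b : Sp d → ℝ} (h : IsProf J M b) : Kb b where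
  cont := h.smooth.continuous
  nonneg := h.nonneg
  zero := fun {y} hy => h.supp y hy
  int := h.int
  neg := fun y => le_antisymm (h.mono _ _ (by rw [norm_neg])) (h.mono _ _ (by rw [norm_neg]))

lemma BaseKer.kbN {J : ℕ} {M c : ℝ} {b : Sp d → ℝ} (h : BaseKer J M c b) (n : ℕ) :
    Kb (KN b n) := (h.kit n).prof.kb

section Av

variable {F : Type*} [NormedAddCommGroup F] [NormedSpace ℝ F] {g h : Sp d → F}
  {ψ φ : Sp d → ℝ}

lemma avkB_def (s : ℝ) (g : Sp d → F) (x : Sp d) : avk ψ s g x = ∫ y, ψ y • g (x + s • y) := rfl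

variable (hψ : Kb ψ)
include hψ

lemma Kb.integrable : Integrable ψ := by
  refine hψ.cont.integrable_of_hasCompactSupport ?_
  refine HasCompactSupport.of_support_subset_isCompact (isCompact_closedBall (0 : Sp d) 1) ?_
  intro x hx
  by_contra hx'
  apply hx
  refine hψ.zero ?_
  simp only [mem_closedBall, dist_zero_right, not_le] at hx'
  exact hx'.le

lemma Kb.integrable_pt (hg : LB g) (s : ℝ) (x : Sp d) :
    Integrable (fun y => ψ y • g (x + s • y)) :=
  (hg.comp_smul x s).integrable_smul hψ.cont (R := 1) fun _ hy => hψ.zero hy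

/-! ## one average -/

lemma Kb.avk_zero_scale [CompleteSpace F] (g : Sp d → F) (x : Sp d) : avk ψ 0 g x = g x := by
  rw [avkB_def]
  simp only [zero_smul, add_zero]
  rw [integral_smul_const, hψ.int, one_smul]

/-- bound of an average by a bound of g near x -/
lemma Kb.norm_avk_le_of_bound {g : Sp d → F} {s : ℝ} {x : Sp d} {M : ℝ}
    (hM : ∀ z, ‖z - x‖ ≤ |s| → ‖g z‖ ≤ M) : ‖avk ψ s g x‖ ≤ M := by
  have hM0 : 0 ≤ M := (norm_nonneg _).trans (hM x (by simp))
  have h1 : ‖avk ψ s g x‖ ≤ ∫ y, ψ y * M := by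
    refine norm_integral_le_of_norm_le (hψ.integrable.mul_const M) ?_
    refine Filter.Eventually.of_forall fun y => ?_
    rw [norm_smul, Real.norm_eq_abs, abs_of_nonneg (hψ.nonneg y)]
    by_cases hy : 1 ≤ ‖y‖
    · rw [hψ.zero hy]; simp
    · refine mul_le_mul_of_nonneg_left (hM _ ?_) (hψ.nonneg y)
      rw [add_sub_cancel_left, norm_smul, Real.norm_eq_abs]
      push Not at hy
      nlinarith [abs_nonneg s, norm_nonneg y]
  rwa [integral_mul_const, hψ.int, one_mul] at h1

lemma Kb.LB_avk (hg : LB g) (s : ℝ) : LB (avk ψ s g) where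
  meas := by
    have h2 : StronglyMeasurable (Function.uncurry fun (x y : Sp d) => ψ y • g (x + s • y)) := by
      refine StronglyMeasurable.smul (f := fun p : Sp d × Sp d => ψ p.2) ?_ ?_
      · exact (hψ.cont.comp continuous_snd).stronglyMeasurable
      · exact hg.meas.comp_measurable
          (show Measurable fun p : Sp d × Sp d => p.1 + s • p.2 by fun_prop)
    exact h2.integral_prod_right
  bd := by
    intro R
    obtain ⟨M, hM⟩ := hg.bd (R + |s|)
    refine ⟨M, fun x hx => hψ.norm_avk_le_of_bound fun z hz => hM z ?_⟩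
    have : ‖z‖ ≤ ‖x‖ + ‖z - x‖ := by
      have := norm_add_le x (z - x)
      rwa [add_sub_cancel] at this
    linarith

lemma Kb.avk_cs (hg : HasCompactSupport g) (s : ℝ) : HasCompactSupport (avk ψ s g) := by
  obtain ⟨R, hR⟩ := hg.isCompact.isBounded.subset_closedBall (0 : Sp d)
  refine HasCompactSupport.of_support_subset_isCompact (isCompact_closedBall (0 : Sp d) (R + |s|)) ?_
  intro x hx
  by_contra hx'
  apply hx
  have h1 : ‖avk ψ s g x‖ ≤ 0 := by
    refine hψ.norm_avk_le_of_bound fun z hz => ?_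
    have : g z = 0 := by
      by_contra hz'
      have h2 : z ∈ closedBall (0 : Sp d) R := hR (subset_tsupport _ hz')
      rw [mem_closedBall, dist_zero_right] at h2 hx'
      have : ‖x‖ ≤ ‖z‖ + ‖z - x‖ := by
        have := norm_sub_le z (z - x)
        rwa [sub_sub_cancel] at this
      linarith
    simp [this]
  simpa using h1

lemma Kb.avk_eq_setIntegral (s : ℝ) (g : Sp d → F) (x : Sp d) :
    avk ψ s g x = ∫ y in closedBall (0 : Sp d) 1, ψ y • g (x + s • y) := by
  rw [avkB_def, setIntegral_eq_integral_of_forall_compl_eq_zero]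
  intro y hy
  rw [hψ.zero, zero_smul]
  simp only [mem_closedBall, dist_zero_right, not_le] at hy
  exact hy.le

lemma Kb.avk_cont (hg : Continuous g) (s : ℝ) : Continuous (avk ψ s g) := by
  have h2 : Continuous (Function.uncurry fun (x y : Sp d) => ψ y • g (x + s • y)) := by
    refine Continuous.smul (hψ.cont.comp continuous_snd) (hg.comp ?_)
    fun_prop
  have h3 := continuous_parametric_integral_of_continuous (μ := volume) h2
    (isCompact_closedBall (0 : Sp d) 1)
  refine h3.congr fun x => ?_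
  exact (hψ.avk_eq_setIntegral s g x).symm

lemma Kb.avk_add (hg : LB g) (hh : LB h) (s : ℝ) (x : Sp d) :
    avk ψ s (fun z => g z + h z) x = avk ψ s g x + avk ψ s h x := by
  simp only [avkB_def, smul_add]
  exact integral_add (hψ.integrable_pt hg s x) (hψ.integrable_pt hh s x)

lemma Kb.avk_sub (hg : LB g) (hh : LB h) (s : ℝ) (x : Sp d) :
    avk ψ s (fun z => g z - h z) x = avk ψ s g x - avk ψ s h x := by
  simp only [avkB_def, smul_sub]
  exact integral_sub (hψ.integrable_pt hg s x) (hψ.integrable_pt hh s x)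

lemma Kb.avk_smul (c : ℝ) (s : ℝ) (x : Sp d) : avk ψ s (fun z => c • g z) x = c • avk ψ s g x := by
  simp only [avkB_def]
  rw [← integral_smul]
  congr 1
  ext y
  rw [smul_comm]

lemma Kb.avk_mul (c : ℝ) (g : Sp d → ℝ) (s : ℝ) (x : Sp d) :
    avk ψ s (fun z => c * g z) x = c * avk ψ s g x := hψ.avk_smul c s x

lemma Kb.avk_sum {ι : Type*} (S : Finset ι) {G : ι → Sp d → F} (hG : ∀ i ∈ S, LB (G i)) (s : ℝ)
    (x : Sp d) : avk ψ s (fun z => ∑ i ∈ S, G i z) x = ∑ i ∈ S, avk ψ s (G i) x := by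
  simp only [avkB_def, Finset.smul_sum]
  exact integral_finsetSum S fun i hi => hψ.integrable_pt (hG i hi) s x

lemma Kb.avk_const [CompleteSpace F] (c : F) (s : ℝ) (x : Sp d) : avk ψ s (fun _ => c) x = c := by
  rw [avkB_def, integral_smul_const, hψ.int, one_smul]

lemma Kb.avk_nonneg {g : Sp d → ℝ} (hg : ∀ z, 0 ≤ g z) (s : ℝ) (x : Sp d) : 0 ≤ avk ψ s g x :=
  integral_nonneg fun y => mul_nonneg (hψ.nonneg y) (hg _)

lemma Kb.avk_mono {g h : Sp d → ℝ} (hg : LB g) (hh : LB h) (hgh : ∀ z, g z ≤ h z) (s : ℝ)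
    (x : Sp d) : avk ψ s g x ≤ avk ψ s h x :=
  integral_mono (hψ.integrable_pt hg s x) (hψ.integrable_pt hh s x)
    fun y => mul_le_mul_of_nonneg_left (hgh _) (hψ.nonneg y)

lemma Kb.avk_le_of_le {g : Sp d → ℝ} (hg : LB g) {M : ℝ} (hM : ∀ z, g z ≤ M) (s : ℝ) (x : Sp d) :
    avk ψ s g x ≤ M :=
  (hψ.avk_mono hg (LB.of_cont continuous_const) hM s x).trans (hψ.avk_const M s x).le

lemma Kb.norm_avk_le (g : Sp d → F) (s : ℝ) (x : Sp d) : ‖avk ψ s g x‖ ≤ avk ψ s (fun z => ‖g z‖) x := by
  refine (norm_integral_le_integral_norm _).trans (le_of_eq ?_)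
  rw [avkB_def]
  congr 1
  ext y
  rw [norm_smul, Real.norm_eq_abs, abs_of_nonneg (hψ.nonneg y), smul_eq_mul]

lemma Kb.avk_inner {E : Type*} [NormedAddCommGroup E] [InnerProductSpace ℝ E] [CompleteSpace E]
    {g : Sp d → E} (hg : LB g) (e : E) (s : ℝ) (x : Sp d) :
    avk ψ s (fun z => ⟪g z, e⟫_ℝ) x = ⟪avk ψ s g x, e⟫_ℝ := by
  simp only [avkB_def]
  rw [real_inner_comm, ← integral_inner (hψ.integrable_pt hg s x) e]
  congr 1
  ext y
  rw [inner_smul_right, real_inner_comm, smul_eq_mul]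



/-! ## two averages -/

omit hψ in
lemma Kb.prod_integrable (hψ : Kb ψ) (hφ : Kb φ) (hg : LB g) (s t : ℝ) (x : Sp d) :
    Integrable (Function.uncurry fun (y z : Sp d) => ψ y • φ z • g (x + s • y + t • z))
      (volume.prod volume) := by
  obtain ⟨M, hM⟩ := hg.bd (‖x‖ + |s| + |t|)
  have hi : Integrable (fun p : Sp d × Sp d => ψ p.1 * φ p.2 * |M|)
      (volume.prod volume) := (hψ.integrable.mul_prod hφ.integrable).mul_const _
  refine hi.mono' ?_ ?_
  · refine StronglyMeasurable.aestronglyMeasurable ?_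
    refine StronglyMeasurable.smul (f := fun p : Sp d × Sp d => ψ p.1) ?_ ?_
    · exact (hψ.cont.comp continuous_fst).stronglyMeasurable
    · refine StronglyMeasurable.smul (f := fun p : Sp d × Sp d => φ p.2) ?_ ?_
      · exact (hφ.cont.comp continuous_snd).stronglyMeasurable
      · exact hg.meas.comp_measurable
          (show Measurable fun p : Sp d × Sp d => x + s • p.1 + t • p.2 by fun_prop)
  · refine Filter.Eventually.of_forall fun p => ?_
    obtain ⟨y, z⟩ := p
    simp only [Function.uncurry_apply_pair]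
    rw [norm_smul, norm_smul, Real.norm_eq_abs, Real.norm_eq_abs, abs_of_nonneg (hψ.nonneg y),
      abs_of_nonneg (hφ.nonneg z), ← mul_assoc]
    by_cases hy : 1 ≤ ‖y‖
    · simp [hψ.zero hy]
    by_cases hz : 1 ≤ ‖z‖
    · simp [hφ.zero hz]
    push Not at hy hz
    refine mul_le_mul_of_nonneg_left ((hM _ ?_).trans (le_abs_self M))
      (mul_nonneg (hψ.nonneg y) (hφ.nonneg z))
    refine (norm_add_le _ _).trans ?_
    have h1 : ‖x + s • y‖ ≤ ‖x‖ + |s| * ‖y‖ := (norm_add_le _ _).trans (by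
      rw [norm_smul, Real.norm_eq_abs])
    have h2 : ‖t • z‖ = |t| * ‖z‖ := by rw [norm_smul, Real.norm_eq_abs]
    nlinarith [abs_nonneg s, abs_nonneg t, norm_nonneg y, norm_nonneg z]

omit hψ in
/-- averages with possibly different kernels commute -/
lemma Kb.avk_comm (hψ : Kb ψ) (hφ : Kb φ) (hg : LB g) (s t : ℝ) :
    avk ψ s (avk φ t g) = avk φ t (avk ψ s g) := by
  ext x
  simp only [avkB_def, ← integral_smul]
  rw [integral_integral_swap (hψ.prod_integrable hφ hg s t x)]
  congr 1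
  ext z
  congr 1
  ext y
  rw [smul_comm, add_right_comm]


lemma Kb.shear_integrable (hg : Integrable g) (hg' : LB g) (s : ℝ) :
    Integrable (Function.uncurry fun (x y : Sp d) => ψ y • g (x + s • y))
      (volume.prod volume) := by
  have hm : StronglyMeasurable (Function.uncurry fun (x y : Sp d) =>
      ψ y • g (x + s • y)) := by
    refine StronglyMeasurable.smul (f := fun p : Sp d × Sp d => ψ p.2) ?_ ?_
    · exact (hψ.cont.comp continuous_snd).stronglyMeasurable
    · exact hg'.meas.comp_measurable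
        (show Measurable fun p : Sp d × Sp d => p.1 + s • p.2 by fun_prop)
  rw [integrable_prod_iff' hm.aestronglyMeasurable]
  constructor
  · refine Filter.Eventually.of_forall fun y => ?_
    simp only [Function.uncurry_apply_pair]
    exact (hg.comp_add_right (s • y)).smul (ψ y)
  · simp only [Function.uncurry_apply_pair, norm_smul]
    have h3 : (fun y : Sp d => ∫ x, ‖ψ y‖ * ‖g (x + s • y)‖) =
        fun y => ‖ψ y‖ * ∫ x, ‖g x‖ := by
      ext y
      rw [integral_const_mul]
      congr 1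
      exact integral_add_right_eq_self (μ := volume) (fun x => ‖g x‖) (s • y)
    rw [h3]
    exact hψ.integrable.norm.mul_const _

/-- averages preserve integrals -/
lemma Kb.avk_int [CompleteSpace F] (hg : Integrable g) (hg' : LB g) (s : ℝ) :
    ∫ x, avk ψ s g x = ∫ x, g x := by
  simp only [avkB_def]
  rw [integral_integral_swap (hψ.shear_integrable hg hg' s)]
  simp only [integral_smul]
  have h3 : (fun y : Sp d => ψ y • ∫ x, g (x + s • y)) = fun y => ψ y • ∫ x, g x := by
    ext y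
    congr 1
    exact integral_add_right_eq_self (μ := volume) g (s • y)
  rw [h3, integral_smul_const, hψ.int, one_smul]

lemma Kb.avk_integrable (hg : Integrable g) (hg' : LB g) (s : ℝ) : Integrable (avk ψ s g) :=
  (hψ.shear_integrable hg hg' s).integral_prod_left

/-- averages are self adjoint -/
lemma Kb.avk_adj_inner {E : Type*} [NormedAddCommGroup E] [InnerProductSpace ℝ E] [CompleteSpace E]
    {g h : Sp d → E} (hg : LB g) (hh : LB h) (hi : HasCompactSupport h) (s : ℝ) :
    ∫ x, ⟪avk ψ s g x, h x⟫_ℝ = ∫ x, ⟪g x, avk ψ s h x⟫_ℝ := by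
  obtain ⟨R, hR⟩ := hi.isCompact.isBounded.subset_closedBall (0 : Sp d)
  have hR' : ∀ z, h z ≠ 0 → ‖z‖ ≤ R := fun z hz => by
    simpa using hR (subset_tsupport _ hz)
  obtain ⟨M, hM⟩ := hg.bd (R + |s|)
  have hhi : Integrable h := hh.integrable hi
  have hinner : Continuous (fun p : E × E => ⟪p.1, p.2⟫_ℝ) := by fun_prop
  have hb : ∀ (z y : Sp d), ‖y‖ < 1 → ‖s • y‖ ≤ |s| := by
    intro z y hy
    rw [norm_smul, Real.norm_eq_abs]
    nlinarith [abs_nonneg s, norm_nonneg y]
  -- first product integrability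
  have hI1 : Integrable (Function.uncurry fun (x y : Sp d) => ψ y * ⟪g (x + s • y), h x⟫_ℝ)
      (volume.prod volume) := by
    have hi0 : Integrable (fun p : Sp d × Sp d => ‖h p.1‖ * ψ p.2 * |M|)
        (volume.prod volume) := (hhi.norm.mul_prod hψ.integrable).mul_const _
    refine hi0.mono' ?_ ?_
    · refine StronglyMeasurable.aestronglyMeasurable ?_
      refine StronglyMeasurable.mul (f := fun p : Sp d × Sp d => ψ p.2) ?_ ?_
      · exact (hψ.cont.comp continuous_snd).stronglyMeasurable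
      · refine hinner.comp_stronglyMeasurable (StronglyMeasurable.prodMk ?_ ?_)
        · exact hg.meas.comp_measurable
            (show Measurable fun p : Sp d × Sp d => p.1 + s • p.2 by fun_prop)
        · exact hh.meas.comp_measurable measurable_fst
    · refine Filter.Eventually.of_forall fun p => ?_
      obtain ⟨x, y⟩ := p
      simp only [Function.uncurry_apply_pair]
      rw [norm_mul, Real.norm_eq_abs, abs_of_nonneg (hψ.nonneg y)]
      by_cases hy : 1 ≤ ‖y‖
      · simp [hψ.zero hy]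
      by_cases hx : h x = 0
      · simp [hx]
      push Not at hy
      have h1 : ‖g (x + s • y)‖ ≤ |M| := by
        refine (hM _ ?_).trans (le_abs_self M)
        exact (norm_add_le _ _).trans (add_le_add (hR' x hx) (hb x y hy))
      have h2 : ‖⟪g (x + s • y), h x⟫_ℝ‖ ≤ |M| * ‖h x‖ :=
        (norm_inner_le_norm _ _).trans (mul_le_mul_of_nonneg_right h1 (norm_nonneg _))
      calc ψ y * ‖⟪g (x + s • y), h x⟫_ℝ‖ ≤ ψ y * (|M| * ‖h x‖) :=
            mul_le_mul_of_nonneg_left h2 (hψ.nonneg y)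
        _ = ‖h x‖ * ψ y * |M| := by ring
  -- second product integrability
  have hI2 : Integrable (Function.uncurry fun (x y : Sp d) => ψ y * ⟪g x, h (x + s • y)⟫_ℝ)
      (volume.prod volume) := by
    have hi0 : Integrable (fun p : Sp d × Sp d => (ψ p.2 • ‖h (p.1 + s • p.2)‖) * |M|)
        (volume.prod volume) := (hψ.shear_integrable hhi.norm hh.norm s).mul_const _
    refine hi0.mono' ?_ ?_
    · refine StronglyMeasurable.aestronglyMeasurable ?_
      refine StronglyMeasurable.mul (f := fun p : Sp d × Sp d => ψ p.2) ?_ ?_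
      · exact (hψ.cont.comp continuous_snd).stronglyMeasurable
      · refine hinner.comp_stronglyMeasurable (StronglyMeasurable.prodMk ?_ ?_)
        · exact hg.meas.comp_measurable measurable_fst
        · exact hh.meas.comp_measurable
            (show Measurable fun p : Sp d × Sp d => p.1 + s • p.2 by fun_prop)
    · refine Filter.Eventually.of_forall fun p => ?_
      obtain ⟨x, y⟩ := p
      simp only [Function.uncurry_apply_pair]
      rw [norm_mul, Real.norm_eq_abs, abs_of_nonneg (hψ.nonneg y)]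
      by_cases hy : 1 ≤ ‖y‖
      · simp [hψ.zero hy]
      by_cases hx : h (x + s • y) = 0
      · simp [hx]
      push Not at hy
      have h1 : ‖g x‖ ≤ |M| := by
        refine (hM _ ?_).trans (le_abs_self M)
        have h3 : ‖x‖ ≤ ‖x + s • y‖ + ‖s • y‖ := by
          have := norm_sub_le (x + s • y) (s • y)
          rwa [add_sub_cancel_right] at this
        exact h3.trans (add_le_add (hR' _ hx) (hb x y hy))
      have h2 : ‖⟪g x, h (x + s • y)⟫_ℝ‖ ≤ |M| * ‖h (x + s • y)‖ :=
        (norm_inner_le_norm _ _).trans (mul_le_mul_of_nonneg_right h1 (norm_nonneg _))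
      calc ψ y * ‖⟪g x, h (x + s • y)⟫_ℝ‖ ≤ ψ y * (|M| * ‖h (x + s • y)‖) :=
            mul_le_mul_of_nonneg_left h2 (hψ.nonneg y)
        _ = ψ y • ‖h (x + s • y)‖ * |M| := by rw [smul_eq_mul]; ring
  have e1 : ∀ x, ⟪avk ψ s g x, h x⟫_ℝ = ∫ y, ψ y * ⟪g (x + s • y), h x⟫_ℝ := by
    intro x
    rw [← hψ.avk_inner hg (h x) s x, avkB_def]
    simp only [smul_eq_mul]
  have e2 : ∀ x, ⟪g x, avk ψ s h x⟫_ℝ = ∫ y, ψ y * ⟪g x, h (x + s • y)⟫_ℝ := by
    intro x
    rw [real_inner_comm, ← hψ.avk_inner hh (g x) s x, avkB_def]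
    simp only [smul_eq_mul]
    congr 1
    ext y
    rw [real_inner_comm]
  simp only [e1, e2]
  rw [integral_integral_swap hI1, integral_integral_swap hI2]
  have e3 : ∀ y : Sp d, ∫ x, ψ y * ⟪g (x + s • y), h x⟫_ℝ =
      ∫ x, ψ (-y) * ⟪g x, h (x + s • (-y))⟫_ℝ := by
    intro y
    rw [integral_const_mul, integral_const_mul, hψ.neg]
    congr 1
    rw [← integral_add_right_eq_self (μ := volume) (fun x => ⟪g (x + s • y), h x⟫_ℝ) (-(s • y))]
    congr 1
    ext x
    rw [smul_neg, neg_add_cancel_right]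
  simp only [e3]
  exact integral_neg_eq_self (fun y : Sp d => ∫ x, ψ y * ⟪g x, h (x + s • y)⟫_ℝ) volume

lemma Kb.avk_adj {g h : Sp d → ℝ} (hg : LB g) (hh : LB h) (hi : HasCompactSupport h) (s : ℝ) :
    ∫ x, avk ψ s g x * h x = ∫ x, g x * avk ψ s h x := by
  have := hψ.avk_adj_inner hg hh hi s
  simp only [RCLike.inner_apply, conj_trivial] at this
  simpa only [mul_comm] using this

lemma Kb.shear_integrableOn (hg : LB g) (s : ℝ) (q : Sp d) (r : ℝ) :
    Integrable (Function.uncurry fun (x y : Sp d) => ψ y • g (x + s • y))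
      ((volume.restrict (ball q r)).prod volume) := by
  obtain ⟨M, hM⟩ := hg.bd (‖q‖ + r + |s|)
  have : IsFiniteMeasure (volume.restrict (ball q r)) := ⟨by
    rw [Measure.restrict_apply_univ]; exact measure_ball_lt_top⟩
  have hi : Integrable (fun p : Sp d × Sp d => (1 : ℝ) * ψ p.2 * |M|)
      ((volume.restrict (ball q r)).prod volume) :=
    ((integrable_const (1 : ℝ)).mul_prod hψ.integrable).mul_const _
  refine hi.mono' ?_ ?_
  · refine StronglyMeasurable.aestronglyMeasurable ?_
    refine StronglyMeasurable.smul (f := fun p : Sp d × Sp d => ψ p.2) ?_ ?_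
    · exact (hψ.cont.comp continuous_snd).stronglyMeasurable
    · exact hg.meas.comp_measurable
        (show Measurable fun p : Sp d × Sp d => p.1 + s • p.2 by fun_prop)
  · have h1 : ∀ᵐ p ∂((volume.restrict (ball q r)).prod (volume : Measure (Sp d))),
        p.1 ∈ ball q r := by
      have := (Measure.quasiMeasurePreserving_fst (μ := volume.restrict (ball q r))
        (ν := (volume : Measure (Sp d)))).ae (ae_restrict_mem measurableSet_ball)
      exact this
    filter_upwards [h1] with p hp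
    obtain ⟨x, y⟩ := p
    simp only [Function.uncurry_apply_pair]
    rw [norm_smul, Real.norm_eq_abs, abs_of_nonneg (hψ.nonneg y), one_mul]
    by_cases hy : 1 ≤ ‖y‖
    · simp [hψ.zero hy]
    push Not at hy
    refine mul_le_mul_of_nonneg_left ((hM _ ?_).trans (le_abs_self M)) (hψ.nonneg y)
    refine (norm_add_le _ _).trans ?_
    have h3 : ‖s • y‖ ≤ |s| := by
      rw [norm_smul, Real.norm_eq_abs]
      nlinarith [abs_nonneg s, norm_nonneg y]
    have h4 : ‖x‖ ≤ ‖q‖ + r := by
      have h5 : ‖x - q‖ < r := by simpa [dist_eq_norm] using hp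
      have := norm_add_le q (x - q)
      rw [add_sub_cancel] at this
      linarith
    linarith

lemma Kb.int_ball_avk_ge {g : Sp d → ℝ} (hg : LB g) (h0 : ∀ z, 0 ≤ g z) {s : ℝ} (hs : 0 ≤ s)
    (q : Sp d) (r : ℝ) : ∫ z in ball q r, g z ≤ ∫ z in ball q (r + s), avk ψ s g z := by
  simp only [avkB_def]
  have hI := hψ.shear_integrableOn hg s q (r + s)
  rw [integral_integral_swap hI]
  have h1 : ∀ y : Sp d, ψ y * ∫ z in ball q r, g z ≤
      ∫ x in ball q (r + s), ψ y • g (x + s • y) := by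
    intro y
    rw [integral_smul, setIntegral_ball_add, smul_eq_mul]
    by_cases hy : 1 ≤ ‖y‖
    · simp [hψ.zero hy]
    push Not at hy
    refine mul_le_mul_of_nonneg_left ?_ (hψ.nonneg y)
    refine setIntegral_mono_set (hg.integrableOn isBounded_ball)
      (Filter.Eventually.of_forall fun z => h0 z) (Filter.Eventually.of_forall ?_)
    intro z hz
    change z ∈ ball q r at hz
    change z ∈ ball (q + s • y) (r + s)
    rw [mem_ball, dist_eq_norm] at hz ⊢
    have h3 : ‖s • y‖ ≤ s := by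
      rw [norm_smul, Real.norm_eq_abs, abs_of_nonneg hs]
      nlinarith [norm_nonneg y]
    have h4 : ‖z - (q + s • y)‖ ≤ ‖z - q‖ + ‖s • y‖ := by
      rw [← sub_sub]; exact norm_sub_le _ _
    linarith
  calc ∫ z in ball q r, g z = ∫ y, ψ y * ∫ z in ball q r, g z := by
        rw [integral_mul_const, hψ.int, one_mul]
    _ ≤ _ := integral_mono (hψ.integrable.mul_const _) hI.integral_prod_right h1

lemma Kb.int_ball_avk_le {g : Sp d → ℝ} (hg : LB g) (h0 : ∀ z, 0 ≤ g z) {s : ℝ} (hs : 0 ≤ s)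
    (q : Sp d) (r : ℝ) : ∫ z in ball q r, avk ψ s g z ≤ ∫ z in ball q (r + s), g z := by
  simp only [avkB_def]
  have hI := hψ.shear_integrableOn hg s q r
  rw [integral_integral_swap hI]
  have h1 : ∀ y : Sp d, ∫ x in ball q r, ψ y • g (x + s • y) ≤
      ψ y * ∫ z in ball q (r + s), g z := by
    intro y
    rw [integral_smul, setIntegral_ball_add, smul_eq_mul]
    by_cases hy : 1 ≤ ‖y‖
    · simp [hψ.zero hy]
    push Not at hy
    refine mul_le_mul_of_nonneg_left ?_ (hψ.nonneg y)
    refine setIntegral_mono_set (hg.integrableOn isBounded_ball)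
      (Filter.Eventually.of_forall fun z => h0 z) (Filter.Eventually.of_forall ?_)
    intro z hz
    change z ∈ ball (q + s • y) r at hz
    change z ∈ ball q (r + s)
    rw [mem_ball, dist_eq_norm] at hz ⊢
    have h3 : ‖s • y‖ ≤ s := by
      rw [norm_smul, Real.norm_eq_abs, abs_of_nonneg hs]
      nlinarith [norm_nonneg y]
    have h4 : ‖z - q‖ ≤ ‖z - (q + s • y)‖ + ‖s • y‖ := by
      have := norm_add_le (z - (q + s • y)) (s • y)
      rwa [show z - (q + s • y) + s • y = z - q by abel] at this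
    linarith
  calc _ ≤ ∫ y, ψ y * ∫ z in ball q (r + s), g z :=
        integral_mono hI.integral_prod_right (hψ.integrable.mul_const _) h1
    _ = _ := by rw [integral_mul_const, hψ.int, one_mul]



/-! ## Taylor expansion of order two -/

omit hψ in
lemma taylor2 {Y : Sp d → F} (hY : ContDiff ℝ 2 Y) {N : ℝ}
    (hN : ∀ y, ‖iteratedFDeriv ℝ 2 Y y‖ ≤ N) (x h : Sp d) :
    ‖Y (x + h) - Y x - fderiv ℝ Y x h‖ ≤ N * ‖h‖ ^ 2 := by
  have hN0 : 0 ≤ N := (norm_nonneg _).trans (hN x)
  have hd : Differentiable ℝ Y := hY.differentiable (by norm_num)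
  have hd1 : ContDiff ℝ 1 (fderiv ℝ Y) := hY.fderiv_right (by norm_num)
  have h1 : ∀ y, ‖fderiv ℝ (fderiv ℝ Y) y‖ ≤ N := by
    intro y
    rw [← norm_iteratedFDeriv_one, norm_iteratedFDeriv_fderiv]
    exact hN y
  have h2 : ∀ y, ‖fderiv ℝ Y y - fderiv ℝ Y x‖ ≤ N * ‖y - x‖ := by
    intro y
    refine Convex.norm_image_sub_le_of_norm_fderiv_le (𝕜 := ℝ) (s := Set.univ)
      (fun z _ => (hd1.differentiable (by norm_num)) z) (fun z _ => h1 z) convex_univ
      (mem_univ _) (mem_univ _)
  have h3 : ∀ z ∈ closedBall x ‖h‖,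
      HasFDerivWithinAt (fun z => Y z - fderiv ℝ Y x z) (fderiv ℝ Y z - fderiv ℝ Y x)
        (closedBall x ‖h‖) z := by
    intro z _
    exact ((hd z).hasFDerivAt.sub (fderiv ℝ Y x).hasFDerivAt).hasFDerivWithinAt
  have h4 : ∀ z ∈ closedBall x ‖h‖, ‖fderiv ℝ Y z - fderiv ℝ Y x‖ ≤ N * ‖h‖ := by
    intro z hz
    rw [mem_closedBall, dist_eq_norm] at hz
    exact (h2 z).trans (mul_le_mul_of_nonneg_left hz hN0)
  have h5 := Convex.norm_image_sub_le_of_norm_hasFDerivWithin_le h3 h4
    (convex_closedBall x ‖h‖) (mem_closedBall_self (norm_nonneg _))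
    (show x + h ∈ closedBall x ‖h‖ by simp [mem_closedBall, dist_eq_norm])
  have h6 : Y (x + h) - fderiv ℝ Y x (x + h) - (Y x - fderiv ℝ Y x x) =
      Y (x + h) - Y x - fderiv ℝ Y x h := by
    rw [map_add]; abel
  rw [h6, add_sub_cancel_left] at h5
  calc _ ≤ N * ‖h‖ * ‖h‖ := h5
    _ = N * ‖h‖ ^ 2 := by ring

/-- an odd integrand integrates to zero -/
lemma Kb.int_linear [CompleteSpace F] (A : Sp d →L[ℝ] F) (s : ℝ) :
    ∫ y, ψ y • A (s • y) = 0 := by
  have h1 : ∫ y, ψ y • A (s • y) = ∫ y, ψ (-y) • A (s • (-y)) :=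
    (integral_neg_eq_self (fun y : Sp d => ψ y • A (s • y)) volume).symm
  have h2 : ∫ y, ψ (-y) • A (s • (-y)) = - ∫ y, ψ y • A (s • y) := by
    rw [← integral_neg]
    congr 1
    ext y
    rw [hψ.neg, smul_neg, map_neg, smul_neg]
  rw [h2] at h1
  have h3 : (2 : ℝ) • ∫ y, ψ y • A (s • y) = 0 := by
    rw [two_smul]
    nth_rewrite 1 [h1]
    simp
  exact (smul_eq_zero.mp h3).resolve_left (by norm_num)

/-- error of an average, second order -/
lemma Kb.avk_sub_self [CompleteSpace F] {Y : Sp d → F} (hY : ContDiff ℝ 2 Y) {N : ℝ}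
    (hN : ∀ y, ‖iteratedFDeriv ℝ 2 Y y‖ ≤ N) (s : ℝ) (x : Sp d) :
    ‖avk ψ s Y x - Y x‖ ≤ N * s ^ 2 := by
  have hN0 : 0 ≤ N := (norm_nonneg _).trans (hN x)
  have hYL : LB Y := LB.of_cont hY.continuous
  have i1 := hψ.integrable_pt hYL s x
  have i2 : Integrable (fun y => ψ y • Y x) := hψ.integrable.smul_const _
  have i3 : Integrable (fun y => ψ y • fderiv ℝ Y x (s • y)) := by
    have := hψ.integrable_pt (g := fun z => fderiv ℝ Y x z)
      (LB.of_cont (fderiv ℝ Y x).continuous) s 0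
    simpa using this
  have e1 : avk ψ s Y x - Y x = ∫ y, ψ y • (Y (x + s • y) - Y x - fderiv ℝ Y x (s • y)) := by
    simp only [smul_sub]
    rw [integral_sub (by exact i1.sub i2) i3, integral_sub i1 i2, hψ.int_linear,
      integral_smul_const, hψ.int, one_smul, sub_zero, avkB_def]
  rw [e1]
  have e2 : N * s ^ 2 = ∫ y, ψ y * (N * s ^ 2) := by
    rw [integral_mul_const, hψ.int, one_mul]
  rw [e2]
  refine norm_integral_le_of_norm_le (hψ.integrable.mul_const _) ?_
  refine Filter.Eventually.of_forall fun y => ?_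
  rw [norm_smul, Real.norm_eq_abs, abs_of_nonneg (hψ.nonneg y)]
  by_cases hy : 1 ≤ ‖y‖
  · simp [hψ.zero hy]
  push Not at hy
  refine mul_le_mul_of_nonneg_left ((taylor2 hY hN x (s • y)).trans ?_) (hψ.nonneg y)
  refine mul_le_mul_of_nonneg_left ?_ hN0
  rw [norm_smul, Real.norm_eq_abs, mul_pow, sq_abs]
  have : ‖y‖ ^ 2 ≤ 1 := by nlinarith [norm_nonneg y]
  nlinarith [sq_nonneg s]

/-- an average vanishes where the function vanishes nearby -/
lemma Kb.avk_eq_zero {s : ℝ} {x : Sp d} (hz : ∀ z, ‖z - x‖ < |s| → g z = 0) (hx : g x = 0) :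
    avk ψ s g x = 0 := by
  have h1 : (fun y => ψ y • g (x + s • y)) = fun _ => 0 := by
    ext y
    by_cases hy : 1 ≤ ‖y‖
    · rw [hψ.zero hy, zero_smul]
    push Not at hy
    by_cases hs : s = 0
    · rw [hs, zero_smul, add_zero, hx, smul_zero]
    rw [hz, smul_zero]
    rw [add_sub_cancel_left, norm_smul, Real.norm_eq_abs]
    have : 0 < |s| := abs_pos.mpr hs
    nlinarith
  rw [avkB_def, h1, integral_zero]

end Av

/-! ## the fields -/

section Fl

variable {F : Type*} [NormedAddCommGroup F] [NormedSpace ℝ F] {f : Sp d → F}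
  {b : Sp d → ℝ} (hb : Kb b)
include hb

omit hb in
lemma fl_zero (ε s0 : ℝ) (f : Sp d → F) : fl b ε s0 f 0 = f := rfl

omit hb in
lemma fl_succ (ε s0 : ℝ) (f : Sp d → F) (i : ℕ) :
    fl b ε s0 f (i + 1) = avk b (ε * lev s0 (i + 1)) (fl b ε s0 f i) := rfl

lemma flB_cont (hf : Continuous f) (ε s0 : ℝ) (i : ℕ) : Continuous (fl b ε s0 f i) := by
  induction i with
  | zero => exact hf
  | succ i ih => exact hb.avk_cont ih _

lemma flB_cs (hf : HasCompactSupport f) (ε s0 : ℝ) (i : ℕ) :
    HasCompactSupport (fl b ε s0 f i) := by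
  induction i with
  | zero => exact hf
  | succ i ih => exact hb.avk_cs ih _

lemma fl_LB (hf : Continuous f) (ε s0 : ℝ) (i : ℕ) : LB (fl b ε s0 f i) :=
  LB.of_cont (flB_cont hb hf ε s0 i)

lemma fl_integrable (hf : Continuous f) (hf' : HasCompactSupport f) (ε s0 : ℝ) (i : ℕ) :
    Integrable (fl b ε s0 f i) :=
  (flB_cont hb hf ε s0 i).integrable_of_hasCompactSupport (flB_cs hb hf' ε s0 i)

lemma norm_fl_succ_le (ε s0 : ℝ) (i : ℕ) (x : Sp d) :
    ‖fl b ε s0 f (i + 1) x‖ ≤ avk b (ε * lev s0 (i + 1)) (fun z => ‖fl b ε s0 f i z‖) x :=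
  hb.norm_avk_le _ _ _

end Fl

/-- a scale of the unit cell -/
lemma lev_unit (n i : ℕ) (h : i ≤ n) : lev ((1 / 2 : ℝ) ^ n) i = (1 / 2) ^ (n - i) := by
  unfold lev
  obtain ⟨k, rfl⟩ := Nat.exists_eq_add_of_le h
  rw [Nat.add_sub_cancel_left, pow_add, mul_comm ((1 / 2 : ℝ) ^ i), mul_assoc, ← mul_pow]
  norm_num

lemma lev_unit_self (n : ℕ) : lev ((1 / 2 : ℝ) ^ n) n = 1 := by
  rw [lev_unit n n le_rfl, Nat.sub_self, pow_zero]

section Def3

variable {E : Type} [NormedAddCommGroup E] [InnerProductSpace ℝ E]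

/-- DD at unit scale -/
lemma DD_unit (b : Sp d → ℝ) (ε R : ℝ) (f : Sp d → E) (n : ℕ) (x : Sp d) (e : E) :
    DD b ε R ((1 / 2) ^ n) f n x e =
      ∑ l ∈ Finset.range (n + 1), (1 / 4 : ℝ) ^ (n - l) *
        (∫ y in ball x R, (‖fl b ε ((1 / 2) ^ n) f l y‖ - ⟪fl b ε ((1 / 2) ^ n) f l y, e⟫_ℝ))
      + (1 / 4 : ℝ) ^ n * ∫ y in ball x R, ‖f y‖ := by
  unfold DD
  rw [lev_unit_self, one_pow, div_one, one_mul, mul_one]

/-- the deficit is nonnegative -/
lemma defi_nonneg {e : E} (he : ‖e‖ = 1) (v : E) : 0 ≤ ‖v‖ - ⟪v, e⟫_ℝ := by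
  have := real_inner_le_norm v e
  rw [he, mul_one] at this
  linarith

end Def3

end

end TG
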