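import Pool.Agent.TG.Stmts12
import Pool.Agent.TG.NN
import Pool.Agent.TG.PF
import Pool.Agent.TG.Adj
import Pool.Agent.TG.SMa

/-!
# Module B1 (12.1): the Newton field against the structure theorem
-/

open MeasureTheory Metric Set TrI Filter
open scoped InnerProductSpace ContDiff Topology

set_option autoImplicit false

namespace TG

noncomputable section

namespace B1m

open SMm

variable {d : ℕ}

/-! ## scaling of the hypotheses -/

lemma itF_const_mul {n : ℕ} {H : Sp d → ℝ} (hH : ContDiff ℝ n H) (a : ℝ) (y : Sp d) :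
    ‖iteratedFDeriv ℝ n (fun x => a * H x) y‖ = |a| * ‖iteratedFDeriv ℝ n H y‖ := by
  have e : iteratedFDeriv ℝ n (fun x => a * H x) y = a • iteratedFDeriv ℝ n H y :=
    iteratedFDeriv_const_smul_apply' (a := a) hH.contDiffAt
  rw [e, norm_smul, Real.norm_eq_abs]

lemma ZP_scale {R D M : ℝ} {m : Sp d → ℝ} (hZ : ZP R D m) {H : Sp d → ℝ} (hH : ContDiff ℝ 2 H)
    (h0 : ∀ y, 0 ≤ H y) (h1 : ∀ y, H y ≤ M) (h2 : ∀ y, ‖iteratedFDeriv ℝ 2 H y‖ ≤ M)
    (hs : ∀ y, R ≤ ‖y‖ → H y = 0) : -(M * D) ≤ ∫ y, m y * H y := by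
  have hM0 : 0 ≤ M := (h0 0).trans (h1 0)
  rcases hM0.eq_or_lt with hM | hM
  · have hz : ∀ y, H y = 0 := fun y => le_antisymm (by rw [hM]; exact h1 y) (h0 y)
    simp [hz, ← hM]
  · have h := hZ (fun y => M⁻¹ * H y) (contDiff_const.mul hH)
      (fun y => mul_nonneg (inv_nonneg.2 hM.le) (h0 y))
      (fun y => by
        calc M⁻¹ * H y ≤ M⁻¹ * M := mul_le_mul_of_nonneg_left (h1 y) (inv_nonneg.2 hM.le)
          _ = 1 := inv_mul_cancel₀ hM.ne')
      (fun y => by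
        rw [itF_const_mul (n := 2) hH, abs_of_nonneg (inv_nonneg.2 hM.le)]
        calc M⁻¹ * ‖iteratedFDeriv ℝ 2 H y‖ ≤ M⁻¹ * M :=
              mul_le_mul_of_nonneg_left (h2 y) (inv_nonneg.2 hM.le)
          _ = 1 := inv_mul_cancel₀ hM.ne')
      (fun y hy => by rw [hs y hy, mul_zero])
    have e : (fun y => m y * (M⁻¹ * H y)) = fun y => M⁻¹ * (m y * H y) := by
      funext y; ring
    rw [e, integral_const_mul] at h
    have h3 := mul_le_mul_of_nonneg_left h hM.le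
    rw [← mul_assoc, mul_inv_cancel₀ hM.ne', one_mul] at h3
    linarith

lemma MG_scale {K γ R a D M ρ : ℝ} {m : Sp d → ℝ} (h : MG K γ R a D m) (h1 : 1 ≤ ρ) (hR : ρ ≤ R)
    {ζ : Sp d → ℝ} (hζ : ContDiff ℝ 2 ζ) (hb : ∀ y, |ζ y| ≤ M)
    (hb2 : ∀ y, ‖iteratedFDeriv ℝ 2 ζ y‖ ≤ M) (hs : ∀ y, ρ ≤ ‖y‖ → ζ y = 0) :
    |∫ y, m y * ζ y| ≤ M * (K * ρ ^ ((d : ℝ) - 1 + γ) * a + D) := by
  have hM0 : 0 ≤ M := (abs_nonneg _).trans (hb 0)
  rcases hM0.eq_or_lt with hM | hM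
  · have hz : ∀ y, ζ y = 0 := fun y => abs_nonpos_iff.1 (by rw [hM]; exact hb y)
    simp [hz, ← hM]
  · have h := h ρ h1 hR (fun y => M⁻¹ * ζ y) (contDiff_const.mul hζ)
      (fun y => by
        rw [abs_mul, abs_of_nonneg (inv_nonneg.2 hM.le)]
        calc M⁻¹ * |ζ y| ≤ M⁻¹ * M := mul_le_mul_of_nonneg_left (hb y) (inv_nonneg.2 hM.le)
          _ = 1 := inv_mul_cancel₀ hM.ne')
      (fun y => by
        rw [itF_const_mul (n := 2) hζ, abs_of_nonneg (inv_nonneg.2 hM.le)]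
        calc M⁻¹ * ‖iteratedFDeriv ℝ 2 ζ y‖ ≤ M⁻¹ * M :=
              mul_le_mul_of_nonneg_left (hb2 y) (inv_nonneg.2 hM.le)
          _ = 1 := inv_mul_cancel₀ hM.ne')
      (fun y hy => by rw [hs y hy, mul_zero])
    have e : (fun y => m y * (M⁻¹ * ζ y)) = fun y => M⁻¹ * (m y * ζ y) := by
      funext y; ring
    rw [e, integral_const_mul, abs_mul, abs_of_nonneg (inv_nonneg.2 hM.le)] at h
    have h3 := mul_le_mul_of_nonneg_left h hM.le
    rwa [← mul_assoc, mul_inv_cancel₀ hM.ne', one_mul] at h3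

/-! ## supports -/

lemma cs_of {F : Type*} [NormedAddCommGroup F] {g : Sp d → F} {ρ : ℝ}
    (hs : ∀ y, ρ < ‖y‖ → g y = 0) : HasCompactSupport g := by
  refine HasCompactSupport.intro (isCompact_closedBall (0 : Sp d) ρ) fun y hy => hs y ?_
  rw [mem_closedBall, dist_zero_right, not_le] at hy
  exact hy

lemma ev_zero {F : Type*} [NormedAddCommGroup F] {g : Sp d → F} {ρ : ℝ}
    (hs : ∀ y, ρ < ‖y‖ → g y = 0) {y : Sp d} (hy : ρ < ‖y‖) : g =ᶠ[𝓝 y] fun _ => 0 := by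
  filter_upwards [(isOpen_lt continuous_const continuous_norm).mem_nhds hy] with z hz
  exact hs z hz

lemma it_vs {F : Type*} [NormedAddCommGroup F] [NormedSpace ℝ F] {g : Sp d → F} {ρ : ℝ}
    (hs : ∀ y, ρ < ‖y‖ → g y = 0) (j : ℕ) (y : Sp d) (hy : ρ < ‖y‖) :
    iteratedFDeriv ℝ j g y = 0 := by
  have h := ((ev_zero hs hy).iteratedFDeriv ℝ j).self_of_nhds
  rw [h]
  exact congrFun (iteratedFDeriv_zero_fun (𝕜 := ℝ) (E := Sp d) (F := F) (n := j)) y

lemma fd_vs {g : Sp d → ℝ} {ρ : ℝ} (hs : ∀ y, ρ < ‖y‖ → g y = 0) (w : Sp d) (y : Sp d)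
    (hy : ρ < ‖y‖) : fderiv ℝ g y w = 0 := by
  rw [(ev_zero hs hy).fderiv_eq]
  simp

/-! ## decay of averages -/

lemma avk_decay {J : ℕ} {Mb cb : ℝ} {b : Sp d → ℝ} (hb : BaseKer J Mb cb b) {F : Type*}
    [NormedAddCommGroup F] [NormedSpace ℝ F] {ρ M R : ℝ} (hR : 0 < R) {g : Sp d → F}
    (hg : Continuous g) (hM : ∀ y, ‖g y‖ ≤ M) (hs : ∀ y, ρ < ‖y‖ → g y = 0) (y : Sp d) :
    ‖avk b R g y‖ ≤ b 0 * volume.real (closedBall (0 : Sp d) ρ) * (R ^ d)⁻¹ * M := by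
  have hb0 : 0 ≤ b 0 := hb.nonneg 0
  have hgc : HasCompactSupport g := cs_of hs
  have h1 : ‖avk b R g y‖ ≤ ∫ x, b 0 * ‖g (y + R • x)‖ := by
    refine norm_integral_le_of_norm_le ?_ (Eventually.of_forall fun x => ?_)
    · refine Integrable.const_mul ?_ _
      have h2 : Integrable (fun z => ‖g (y + z)‖) :=
        ((hg.integrable_of_hasCompactSupport hgc).norm).comp_add_left y
      exact h2.comp_smul hR.ne'
    · rw [norm_smul, Real.norm_of_nonneg (hb.nonneg x)]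
      exact mul_le_mul_of_nonneg_right (hb.mono 0 x (by simp)) (norm_nonneg _)
  refine h1.trans ?_
  rw [integral_const_mul]
  have h2 : ∫ x, ‖g (y + R • x)‖ = |(R ^ d)⁻¹| * ∫ x, ‖g x‖ := by
    have h3 := Measure.integral_comp_smul (volume : Measure (Sp d)) (fun z => ‖g (y + z)‖) R
    rw [integral_add_left_eq_self (fun z => ‖g z‖) y] at h3
    rw [h3]
    simp
  rw [h2, abs_of_nonneg (by positivity)]
  have h4 : ∫ x, ‖g x‖ ≤ M * volume.real (closedBall (0 : Sp d) ρ) := by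
    rw [← setIntegral_eq_integral_of_forall_compl_eq_zero (s := closedBall (0 : Sp d) ρ)]
    · have h5 := norm_setIntegral_le_of_norm_le_const (μ := volume) (f := fun x => ‖g x‖)
        (s := closedBall (0 : Sp d) ρ) (C := M) measure_closedBall_lt_top
        (fun x _ => by rw [norm_norm]; exact hM x)
      exact (le_abs_self _).trans h5
    · intro x hx
      rw [mem_closedBall, dist_zero_right, not_le] at hx
      rw [hs x hx, norm_zero]
  calc b 0 * ((R ^ d)⁻¹ * ∫ x, ‖g x‖) ≤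
        b 0 * ((R ^ d)⁻¹ * (M * volume.real (closedBall (0 : Sp d) ρ))) := by gcongr
    _ = b 0 * volume.real (closedBall (0 : Sp d) ρ) * (R ^ d)⁻¹ * M := by ring

/-! ## admissible functions -/

/-- smooth functions in the ball of radius ρ with derivatives up to order two bounded by M -/
structure Ad (ρ M : ℝ) (g : Sp d → ℝ) : Prop where
  sm : ContDiff ℝ ∞ g
  bf : BF 2 M g
  vs : ∀ y, ρ < ‖y‖ → g y = 0

lemma Ad.cs {ρ M : ℝ} {g : Sp d → ℝ} (h : Ad ρ M g) : HasCompactSupport g := cs_of h.vs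

lemma Ad.mono {ρ M ρ' M' : ℝ} {g : Sp d → ℝ} (h : Ad ρ M g) (hρ : ρ ≤ ρ') (hM : M ≤ M') :
    Ad ρ' M' g := ⟨h.sm, h.bf.mono hM, fun y hy => h.vs y (by linarith)⟩

lemma Ad.add {ρ M M' : ℝ} {g g' : Sp d → ℝ} (h : Ad ρ M g) (h' : Ad ρ M' g') :
    Ad ρ (M + M') (fun y => g y + g' y) :=
  ⟨h.sm.add h'.sm, h.bf.add h'.bf, fun y hy => by rw [h.vs y hy, h'.vs y hy, add_zero]⟩

lemma Ad.cmul {ρ M : ℝ} {g : Sp d → ℝ} (h : Ad ρ M g) (a : ℝ) :
    Ad ρ (|a| * M) (fun y => a * g y) :=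
  ⟨contDiff_const.mul h.sm, h.bf.const_mul a, fun y hy => by rw [h.vs y hy, mul_zero]⟩

lemma Ad.avk {J : ℕ} {Mb cb : ℝ} {b : Sp d → ℝ} (hb : BaseKer J Mb cb b) {ρ M R : ℝ}
    (hR : 0 ≤ R) {g : Sp d → ℝ} (h : Ad ρ M g) : Ad (ρ + R) M (avk b R g) where
  sm := contDiff_infty.2 fun n => hb.ak.avk_contDiff (h.sm.of_le (by exact_mod_cast le_top)) R
  bf := ⟨hb.ak.avk_contDiff h.bf.smooth R, fun j hj y =>
    hb.ak.norm_iteratedFDeriv_avk_le h.bf.smooth R hj (h.bf.bd j hj) y⟩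
  vs := by
    intro y hy
    unfold TrI.avk
    refine integral_eq_zero_of_ae (Eventually.of_forall fun x => ?_)
    simp only [smul_eq_mul, Pi.zero_apply]
    by_cases hx : 1 ≤ ‖x‖
    · rw [hb.ak.supp x hx, zero_mul]
    · push Not at hx
      rw [h.vs, mul_zero]
      have h4 : ‖y‖ ≤ ‖y + R • x‖ + ‖R • x‖ := by
        have := norm_sub_le (y + R • x) (R • x)
        rwa [add_sub_cancel_right] at this
      have h5 : ‖R • x‖ ≤ R := by
        rw [norm_smul, Real.norm_of_nonneg hR]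
        nlinarith
      linarith

lemma BF_sum {ι : Type*} {J : ℕ} {N : ι → ℝ} {g : ι → Sp d → ℝ} (I : Finset ι)
    (h : ∀ i, BF J (N i) (g i)) : BF J (∑ i ∈ I, N i) (fun x => ∑ i ∈ I, g i x) := by
  classical
  induction I using Finset.induction_on with
  | empty =>
    simp only [Finset.sum_empty]
    have := BF.const (G := Sp d) (J := J) 0
    simpa using this
  | insert i I hi ih =>
    have h1 := (h i).add ih
    rw [Finset.sum_insert hi]
    refine ⟨?_, ?_⟩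
    · have := h1.smooth
      simpa only [Finset.sum_insert hi] using this
    · have := h1.bd
      simpa only [Finset.sum_insert hi] using this

/-! ## plane integrals -/

lemma pl_BF (hPF : StmtPF) (hd : 1 ≤ d) (ρ : ℝ) : ∃ C : ℝ, 0 < C ∧ ∀ ν : Sp d, ‖ν‖ = 1 →
    ∀ (g : Sp d → ℝ) (M : ℝ), Ad ρ M g → BF 2 (C * M) (fun c => plInt ν c g) := by
  obtain ⟨C, hC, hb⟩ := (hPF d hd).1 ρ
  refine ⟨C, hC, fun ν hν g M hg => ?_⟩
  obtain ⟨-, -, h3, h4, -, -⟩ := (hPF d hd).2 ν hν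
  have hcs : HasCompactSupport g := hg.cs
  have hsm1 : ContDiff ℝ ∞ (NN.dn ν g) := NN.dn_smooth hg.sm
  have hsm2 : ContDiff ℝ ∞ (NN.dn ν (NN.dn ν g)) := NN.dn_smooth hsm1
  have hB1 : BF 1 M (NN.dn ν g) := BF.fderiv_apply hg.bf ν hν.le
  have hB2 : BF 0 M (NN.dn ν (NN.dn ν g)) := BF.fderiv_apply hB1 ν hν.le
  have hs1 : ∀ y, ρ < ‖y‖ → NN.dn ν g y = 0 := fd_vs hg.vs ν
  have hs2 : ∀ y, ρ < ‖y‖ → NN.dn ν (NN.dn ν g) y = 0 := fd_vs hs1 ν
  have ht : ∀ {f : Sp d → ℝ}, (∀ y, ρ < ‖y‖ → f y = 0) → ∀ y, f y ≠ 0 → ‖tang ν y‖ ≤ ρ := by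
    intro f hf y hy
    refine (PF.norm_tang_le hν y).trans ?_
    by_contra hcon
    push Not at hcon
    exact hy (hf y hcon)
  have b0 : ∀ c, |plInt ν c g| ≤ C * M :=
    hb ν hν g M hg.sm.continuous (fun y => hg.bf.norm_le y) (ht hg.vs)
  have b1 : ∀ c, |plInt ν c (NN.dn ν g)| ≤ C * M :=
    hb ν hν _ M hsm1.continuous (fun y => hB1.norm_le y) (ht hs1)
  have b2 : ∀ c, |plInt ν c (NN.dn ν (NN.dn ν g))| ≤ C * M :=
    hb ν hν _ M hsm2.continuous (fun y => hB2.norm_le y) (ht hs2)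
  have d0 : deriv (fun c => plInt ν c g) = fun c => plInt ν c (NN.dn ν g) :=
    funext fun c => (h3 g (hg.sm.of_le (by exact_mod_cast le_top)) hcs c).deriv
  have d1 : deriv (fun c => plInt ν c (NN.dn ν g)) = fun c => plInt ν c (NN.dn ν (NN.dn ν g)) :=
    funext fun c => (h3 _ (hsm1.of_le (by exact_mod_cast le_top)) (cs_of hs1) c).deriv
  refine ⟨h4 2 g (contDiff_infty.1 hg.sm 2) hcs, fun j hj c => ?_⟩
  rw [norm_iteratedFDeriv_eq_norm_iteratedDeriv, Real.norm_eq_abs]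
  interval_cases j
  · rw [iteratedDeriv_zero]; exact b0 c
  · rw [iteratedDeriv_one, d0]; exact b1 c
  · rw [iteratedDeriv_succ, iteratedDeriv_one, d0, d1]; exact b2 c

lemma pl_zero {ν : Sp d} (hν : ‖ν‖ = 1) {g : Sp d → ℝ} {ρ : ℝ} (hs : ∀ y, ρ < ‖y‖ → g y = 0)
    {c : ℝ} (hc : ρ < |c|) : plInt ν c g = 0 := by
  unfold plInt
  refine integral_eq_zero_of_ae (Eventually.of_forall fun y => ?_)
  refine hs _ (hc.trans_le ?_)
  have h1 : ⟪ν, c • ν + (y : Sp d)⟫_ℝ = c := by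
    rw [inner_add_right, inner_smul_right, real_inner_self_eq_norm_sq, hν, PF.inner_pl]
    ring
  have h2 := abs_real_inner_le_norm ν (c • ν + (y : Sp d))
  rw [h1, hν, one_mul] at h2
  exact h2

/-- averages and plane integrals -/
lemma pl_avk (hNN : StmtNN) (hd : 2 ≤ d) {Mb cb : ℝ} {b : Sp d → ℝ}
    (hb : BaseKer 2 Mb cb b) {R : ℝ} (hR : 0 < R) {g : Sp d → ℝ} (hg : ContDiff ℝ ∞ g)
    (hgc : HasCompactSupport g) {ν : Sp d} (hν : ‖ν‖ = 1) (c : ℝ) :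
    ∫ x, b x * plInt ν (c + R * ⟪ν, x⟫_ℝ) g = plInt ν c (avk b R g) := by
  obtain ⟨-, h2, h3⟩ := hNN d hd Mb cb b hb R hR
  have hn := h2 g hg hgc
  have h4 := (h3 (fun i j z => if i = j then g z else 0)
    (fun i j => by
      by_cases hij : i = j
      · simpa [hij] using hg
      · simpa [hij] using contDiff_const)
    (fun i j => by
      by_cases hij : i = j
      · simpa [hij] using hgc
      · simp only [hij, if_false]; exact HasCompactSupport.zero)).2.2 ν c hν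
  have h5 : (fun y => ∑ i, ∑ j, ν i * ν j * (if i = j then g y else 0)) = g := by
    funext y
    have h6 : ∀ i : Fin d, ∑ j, ν i * ν j * (if i = j then g y else 0) = ν i ^ 2 * g y := by
      intro i
      rw [Finset.sum_eq_single i]
      · rw [if_pos rfl]; ring
      · intro j _ hj
        have : ¬ i = j := fun h => hj h.symm
        simp [this]
      · intro h; exact absurd (Finset.mem_univ i) h
    simp only [h6]
    rw [← Finset.sum_mul]
    have h7 : ∑ i, ν i ^ 2 = 1 := by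
      have := EuclideanSpace.real_norm_sq_eq ν
      rw [hν] at this
      rw [← this]; norm_num
    rw [h7, one_mul]
  have h8 : nt b R (fun i j z => if i = j then g z else 0) = fun y => g y + (-1) * avk b R g y := by
    funext y
    rw [hn y]; ring
  have hac : Continuous (avk b R g) := hb.ak.avk_cont hg.continuous R
  have hacs : HasCompactSupport (avk b R g) := hb.ak.avk_cs hgc R
  have h9 : Continuous (fun y => (-1 : ℝ) * avk b R g y) := continuous_const.mul hac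
  have h10 : HasCompactSupport (fun y => (-1 : ℝ) * avk b R g y) := HasCompactSupport.mul_left hacs
  rw [h5, h8, NN.pl_add hg.continuous hgc h9 h10, NN.pl_mul] at h4
  linarith

/-! ## the pieces -/

/-- one piece of the structure theorem -/
structure Pc (R1 Rs : ℝ) (ν : Sp d) (κ : Sp d → ℝ) : Prop where
  n1 : ‖ν‖ = 1
  k0 : ∀ y, 0 ≤ κ y
  kb : TFn 2 1 κ
  ks : ∀ y, κ y ≠ 0 → ‖tang ν y‖ ≤ R1 - Rs - 3

/-- the density of a piece -/
def Hp (ν : Sp d) (κ g : Sp d → ℝ) (y : Sp d) : ℝ := κ y * plInt ν ⟪ν, y⟫_ℝ g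

/-- the integral against a piece -/
def Lm (m : Sp d → ℝ) (ν : Sp d) (κ g : Sp d → ℝ) : ℝ := ∫ y, m y * Hp ν κ g y

lemma Hp_main (hPF : StmtPF) (hd : 1 ≤ d) (ρ : ℝ) : ∃ C : ℝ, 0 < C ∧
    ∀ (R1 Rs : ℝ) (ν : Sp d) (κ : Sp d → ℝ), ρ ≤ Rs + 2 → Pc R1 Rs ν κ →
    ∀ (g : Sp d → ℝ) (M : ℝ), Ad ρ M g →
      BF 2 (C * M) (Hp ν κ g) ∧ ∀ y, R1 ≤ ‖y‖ → Hp ν κ g y = 0 := by
  obtain ⟨C, hC, h⟩ := pl_BF hPF hd ρ
  refine ⟨4 * C, by positivity, fun R1 Rs ν κ hρ hP g M hg => ⟨?_, fun y hy => ?_⟩⟩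
  · have h1 := h ν hP.n1 g M hg
    have hA : ‖innerSL ℝ ν‖ ≤ 1 := by rw [innerSL_apply_norm, hP.n1]
    have h2 : BF 2 (C * M) (fun y : Sp d => plInt ν ⟪ν, y⟫_ℝ g) := by
      have h3 := h1.comp_aff (innerSL ℝ ν) hA 0
      simpa using h3
    have h4 : BF 2 1 κ := ⟨hP.kb.smooth, hP.kb.bd⟩
    refine (h4.mul h2).mono (le_of_eq ?_)
    ring
  · unfold Hp
    by_contra hne
    have h1 : κ y ≠ 0 := left_ne_zero_of_mul hne
    have h2 : plInt ν ⟪ν, y⟫_ℝ g ≠ 0 := right_ne_zero_of_mul hne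
    have h3 := hP.ks y h1
    have h4 : |⟪ν, y⟫_ℝ| ≤ ρ := by
      by_contra hcon
      push Not at hcon
      exact h2 (pl_zero hP.n1 hg.vs hcon)
    have h5 : ‖y‖ ≤ ‖tang ν y‖ + |⟪ν, y⟫_ℝ| := by
      have h6 : y = tang ν y + ⟪ν, y⟫_ℝ • ν := by unfold tang; abel
      calc ‖y‖ = ‖tang ν y + ⟪ν, y⟫_ℝ • ν‖ := by rw [← h6]
        _ ≤ ‖tang ν y‖ + ‖⟪ν, y⟫_ℝ • ν‖ := norm_add_le _ _
        _ = ‖tang ν y‖ + |⟪ν, y⟫_ℝ| := by rw [norm_smul, hP.n1, mul_one, Real.norm_eq_abs]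
    linarith

lemma Hp_int (hPF : StmtPF) (hd : 1 ≤ d) {ρ R1 Rs : ℝ} {ν : Sp d} {κ : Sp d → ℝ}
    (hρ : ρ ≤ Rs + 2) (hP : Pc R1 Rs ν κ) {m : Sp d → ℝ} (hm : Continuous m) {g : Sp d → ℝ}
    {M : ℝ} (hg : Ad ρ M g) : Integrable (fun y => m y * Hp ν κ g y) := by
  obtain ⟨C, -, h⟩ := Hp_main (d := d) hPF hd ρ
  obtain ⟨h1, h2⟩ := h R1 Rs ν κ hρ hP g M hg
  refine (hm.mul h1.smooth.continuous).integrable_of_hasCompactSupport ?_
  refine HasCompactSupport.intro (isCompact_closedBall (0 : Sp d) R1) fun y hy => ?_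
  rw [mem_closedBall, dist_zero_right, not_le] at hy
  rw [Pi.mul_apply, h2 y hy.le, mul_zero]

lemma Hp_add {ρ : ℝ} {ν : Sp d} {κ : Sp d → ℝ} {g g' : Sp d → ℝ} {M M' : ℝ} (hg : Ad ρ M g)
    (hg' : Ad ρ M' g') (y : Sp d) :
    Hp ν κ (fun y => g y + g' y) y = Hp ν κ g y + Hp ν κ g' y := by
  unfold Hp
  rw [NN.pl_add hg.sm.continuous hg.cs hg'.sm.continuous hg'.cs, mul_add]

lemma Hp_cmul {ν : Sp d} {κ : Sp d → ℝ} {g : Sp d → ℝ} (a : ℝ) (y : Sp d) :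
    Hp ν κ (fun y => a * g y) y = a * Hp ν κ g y := by
  unfold Hp
  rw [NN.pl_mul]
  ring

lemma Lm_cmul {m : Sp d → ℝ} {ν : Sp d} {κ : Sp d → ℝ} {g : Sp d → ℝ} (a : ℝ) :
    Lm m ν κ (fun y => a * g y) = a * Lm m ν κ g := by
  unfold Lm
  rw [← integral_const_mul]
  refine integral_congr_ae (Eventually.of_forall fun y => ?_)
  simp only [Hp_cmul]
  ring

lemma Lm_add (hPF : StmtPF) (hd : 1 ≤ d) {ρ R1 Rs : ℝ} {ν : Sp d} {κ : Sp d → ℝ}
    (hρ : ρ ≤ Rs + 2) (hP : Pc R1 Rs ν κ) {m : Sp d → ℝ} (hm : Continuous m) {g g' : Sp d → ℝ}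
    {M M' : ℝ} (hg : Ad ρ M g) (hg' : Ad ρ M' g') :
    Lm m ν κ (fun y => g y + g' y) = Lm m ν κ g + Lm m ν κ g' := by
  unfold Lm
  rw [← integral_add (Hp_int hPF hd hρ hP hm hg) (Hp_int hPF hd hρ hP hm hg')]
  refine integral_congr_ae (Eventually.of_forall fun y => ?_)
  simp only [Hp_add hg hg']
  ring

/-! ## bounds -/

/-- sum of the bounds of the derivatives up to order n -/
def SB (B : ℕ → ℝ) (n : ℕ) : ℝ := ∑ k ∈ Finset.range (n + 1), |B k|

lemma SB_nonneg (B : ℕ → ℝ) (n : ℕ) : 0 ≤ SB B n := Finset.sum_nonneg fun _ _ => abs_nonneg _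

lemma le_SB (B : ℕ → ℝ) {n k : ℕ} (h : k ≤ n) : |B k| ≤ SB B n :=
  Finset.single_le_sum (f := fun k => |B k|) (fun _ _ => abs_nonneg _)
    (Finset.mem_range.2 (by omega))

lemma BF_of {N : ℝ} (hN : 0 ≤ N) {B : ℕ → ℝ} {g : Sp d → ℝ} (hg : ContDiff ℝ ∞ g)
    (hb : ∀ k y, ‖iteratedFDeriv ℝ k g y‖ ≤ N * B k) (n : ℕ) : BF n (N * SB B n) g :=
  ⟨contDiff_infty.1 hg n, fun j hj y => (hb j y).trans
    (mul_le_mul_of_nonneg_left ((le_abs_self _).trans (le_SB B hj)) hN)⟩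

lemma comp_le {n : Sp d} (hn : ‖n‖ = 1) (i : Fin d) : |n i| ≤ 1 := by
  have := PiLp.norm_apply_le n i
  rwa [hn, Real.norm_eq_abs] at this

lemma sum2_const (N : ℝ) : ∑ _i : Fin d, ∑ _j : Fin d, N = d * (d * N) := by
  simp

lemma qf_Ad {ρ N : ℝ} {F : Fin d → Fin d → Sp d → ℝ} (hF : ∀ i j, ContDiff ℝ ∞ (F i j))
    (hb : ∀ i j, BF 2 N (F i j)) (hs : ∀ i j y, ρ ≤ ‖y‖ → F i j y = 0) {n : Sp d}
    (hn : ‖n‖ = 1) : Ad ρ (d * (d * N)) (qf F n) where
  sm := ContDiff.sum fun i _ => ContDiff.sum fun j _ => contDiff_const.mul (hF i j)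
  bf := by
    have h1 := BF_sum (J := 2) Finset.univ fun i : Fin d =>
      BF_sum Finset.univ fun j : Fin d => (hb i j).const_mul (n i * n j)
    refine h1.mono ?_
    rw [← sum2_const]
    refine Finset.sum_le_sum fun i _ => Finset.sum_le_sum fun j _ => ?_
    have h2 : |n i * n j| ≤ 1 := by
      rw [abs_mul]
      have := comp_le hn i
      have := comp_le hn j
      have := abs_nonneg (n i)
      have := abs_nonneg (n j)
      nlinarith
    have := (hb i j).nonneg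
    nlinarith
  vs := by
    intro y hy
    unfold qf
    refine Finset.sum_eq_zero fun i _ => Finset.sum_eq_zero fun j _ => ?_
    rw [hs i j y hy.le, mul_zero]

lemma dd2_BF {J : ℕ} {N : ℝ} {F : Fin d → Fin d → Sp d → ℝ}
    (hF : ∀ i j, ContDiff ℝ ∞ (F i j)) (hb : ∀ i j, BF (J + 2) N (F i j)) :
    BF J (d * (d * N)) (dd2 F) := by
  have hbv : ∀ i : Fin d, ‖(bv i : Sp d)‖ ≤ 1 := by
    intro i
    unfold bv
    rw [EuclideanSpace.norm_single]
    simp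
  have h1 : ∀ i j : Fin d, BF J N (pd2 i j (F i j)) := by
    intro i j
    have h2 : pd2 i j (F i j) =
        fun y => fderiv ℝ (fun z => fderiv ℝ (F i j) z (bv j)) y (bv i) := by
      ext y
      unfold pd2
      rw [iteratedFDeriv_two_apply, NN.iter2 (hF i j)]
      simp
    rw [h2]
    have h3 : BF (J + 1) N (fun z => fderiv ℝ (F i j) z (bv j)) :=
      BF.fderiv_apply (hb i j) (bv j) (hbv j)
    exact BF.fderiv_apply h3 (bv i) (hbv i)
  have h4 := BF_sum (J := J) Finset.univ fun i : Fin d =>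
    BF_sum Finset.univ fun j : Fin d => h1 i j
  rw [sum2_const] at h4
  exact h4

lemma nt_BF (hNN : StmtNN) (hd : 2 ≤ d) {Mb cb : ℝ} {b : Sp d → ℝ} (hb : BaseKer 2 Mb cb b)
    {R : ℝ} (hR : 0 < R) {J : ℕ} {N ρ : ℝ} {F : Fin d → Fin d → Sp d → ℝ}
    (hF : ∀ i j, ContDiff ℝ ∞ (F i j)) (hN : ∀ i j, BF (J + 2) N (F i j))
    (hs : ∀ i j y, ρ ≤ ‖y‖ → F i j y = 0) :
    BF J (R ^ 2 * (d * (d * N))) (nt b R F) ∧ ∀ y, ρ + 1 + R / 2 ≤ ‖y‖ → nt b R F y = 0 := by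
  obtain ⟨h1, -, h3⟩ := hNN d hd Mb cb b hb R hR
  have hcs : ∀ i j, HasCompactSupport (F i j) := fun i j =>
    cs_of (ρ := ρ) fun y hy => hs i j y hy.le
  have hsm : ContDiff ℝ ∞ (dd2 F) := NN.dd2_smooth hF
  have hdc : HasCompactSupport (dd2 F) :=
    NN.cs_sum _ fun i => NN.cs_sum _ fun j => NN.pd2_cs (hF i j) (hcs i j) i j
  obtain ⟨h11, -, -, -, h15, h16⟩ := h1 (dd2 F) hsm hdc
  have hB := dd2_BF hF hN
  have he : nt b R F = -(NNp b R (dd2 F)) := rfl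
  constructor
  · refine ⟨contDiff_infty.1 (h3 F hF hcs).1 J, fun j hj y => ?_⟩
    rw [he, iteratedFDeriv_neg_apply, norm_neg]
    exact h15 j _ (hB.bd j hj) y
  · intro y hy
    rw [he, Pi.neg_apply, h16 0 (ρ + 1) ?_ y (by rwa [sub_zero]), neg_zero]
    intro z hz
    rw [sub_zero] at hz
    unfold dd2
    refine Finset.sum_eq_zero fun i _ => Finset.sum_eq_zero fun j _ => ?_
    unfold pd2
    rw [it_vs (ρ := ρ) (fun y hy => hs i j y hy.le) 2 z (by linarith)]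
    simp

/-- plane integrals of the Newton field -/
lemma Hp_nt (hNN : StmtNN) (hd : 2 ≤ d) {Mb cb : ℝ} {b : Sp d → ℝ} (hb : BaseKer 2 Mb cb b)
    {R : ℝ} (hR : 0 < R) {F : Fin d → Fin d → Sp d → ℝ} (hF : ∀ i j, ContDiff ℝ ∞ (F i j))
    (hcs : ∀ i j, HasCompactSupport (F i j)) {ν : Sp d} (hν : ‖ν‖ = 1) (κ : Sp d → ℝ)
    (hq : ContDiff ℝ ∞ (qf F ν)) (hqc : HasCompactSupport (qf F ν)) (y : Sp d) :
    Hp ν κ (nt b R F) y = Hp ν κ (qf F ν) y - Hp ν κ (avk b R (qf F ν)) y := by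
  obtain ⟨-, -, h3⟩ := hNN d hd Mb cb b hb R hR
  have h4 := (h3 F hF hcs).2.2 ν ⟪ν, y⟫_ℝ hν
  have h5 := pl_avk hNN hd hb hR hq hqc hν ⟪ν, y⟫_ℝ
  unfold Hp
  rw [h4, ← h5, ← mul_sub]
  rfl

/-- the decay of the averages at scale R -/
lemma avk_small {J : ℕ} {Mb cb : ℝ} {b : Sp d → ℝ} (hb : BaseKer J Mb cb b)
    {ρ M R K γ a D : ℝ} (hρ : 1 ≤ ρ) (hR : 0 < R) {m : Sp d → ℝ}
    (hG : MG K γ (R + ρ + 4) a D m) {g : Sp d → ℝ} (hg : Ad (ρ + 1) M g) :
    |∫ y, m y * avk b R g y| ≤ b 0 * volume.real (closedBall (0 : Sp d) (ρ + 1)) * (R ^ d)⁻¹ * M *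
      (K * (R + ρ + 4) ^ ((d : ℝ) - 1 + γ) * a + D) := by
  have hA := hg.avk hb hR.le
  refine MG_scale hG (by linarith) le_rfl (hA.bf.smooth) (fun y => ?_) (fun y => ?_)
    (fun y hy => hA.vs y (by linarith))
  · have := avk_decay hb hR hg.sm.continuous (fun y => hg.bf.norm_le y) hg.vs y
    rwa [Real.norm_eq_abs] at this
  · rw [hb.ak.iteratedFDeriv_avk hg.bf.smooth R le_rfl]
    exact avk_decay hb hR (hg.bf.smooth.continuous_iteratedFDeriv (by norm_num))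
      (fun y => hg.bf.bd 2 le_rfl y) (fun y hy => it_vs hg.vs 2 y hy) y

/-- smallness for large R -/
lemma small_R {γ c ρ δ : ℝ} (hd : 2 ≤ d) (hγ0 : 0 < γ) (hγ : γ ≤ 1 / (8 * d)) (hc : 0 ≤ c) (hρ : 1 ≤ ρ)
    (hδ : 0 < δ) : ∃ R0 : ℝ, 1 ≤ R0 ∧ ∀ R : ℝ, R0 ≤ R →
      c * ((R ^ d)⁻¹ * (R + ρ + 4) ^ ((d : ℝ) - 1 + γ)) ≤ δ := by
  set X : ℝ := c * 2 ^ d / δ with hX
  have hX0 : 0 ≤ X := by positivity
  refine ⟨max (ρ + 4) (X ^ 2), le_max_of_le_left (by linarith), fun R hR => ?_⟩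
  have h1 : ρ + 4 ≤ R := (le_max_left _ _).trans hR
  have h2 : X ^ 2 ≤ R := (le_max_right _ _).trans hR
  have hR1 : 1 ≤ R := by linarith
  have hR0 : 0 < R := by linarith
  have hγ2 : γ ≤ 1 / 16 := by
    refine hγ.trans ?_
    have : (2 : ℝ) ≤ d := by exact_mod_cast hd
    rw [div_le_div_iff₀ (by positivity) (by norm_num)]
    linarith
  have hdR : (2 : ℝ) ≤ d := by exact_mod_cast hd
  have h3 : (R + ρ + 4) ^ ((d : ℝ) - 1 + γ) ≤ (2 * R) ^ ((d : ℝ) - 1 + γ) :=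
    Real.rpow_le_rpow (by linarith) (by linarith) (by linarith)
  have h4 : (2 * R) ^ ((d : ℝ) - 1 + γ) ≤ (2 * R) ^ ((d : ℝ) + -(1 / 2)) :=
    Real.rpow_le_rpow_of_exponent_le (by linarith) (by linarith)
  have h5 : (2 * R) ^ ((d : ℝ) + -(1 / 2)) = (2 * R) ^ d * (2 * R) ^ (-(1 / 2) : ℝ) := by
    rw [Real.rpow_add (by linarith), Real.rpow_natCast]
  have h6 : (2 * R) ^ (-(1 / 2) : ℝ) ≤ (Real.sqrt R)⁻¹ := by
    rw [Real.rpow_neg (by linarith), ← Real.sqrt_eq_rpow]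
    exact inv_anti₀ (Real.sqrt_pos.2 hR0) (Real.sqrt_le_sqrt (by linarith))
  have h7 : X ≤ Real.sqrt R := Real.le_sqrt_of_sq_le h2
  have hs : 0 < Real.sqrt R := Real.sqrt_pos.2 hR0
  have h8 : (R ^ d)⁻¹ * (R + ρ + 4) ^ ((d : ℝ) - 1 + γ) ≤ 2 ^ d * (Real.sqrt R)⁻¹ := by
    calc (R ^ d)⁻¹ * (R + ρ + 4) ^ ((d : ℝ) - 1 + γ) ≤
          (R ^ d)⁻¹ * ((2 * R) ^ d * (2 * R) ^ (-(1 / 2) : ℝ)) := by
            refine mul_le_mul_of_nonneg_left ?_ (by positivity)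
            rw [← h5]; exact h3.trans h4
      _ ≤ (R ^ d)⁻¹ * ((2 * R) ^ d * (Real.sqrt R)⁻¹) := by gcongr
      _ = 2 ^ d * (Real.sqrt R)⁻¹ := by
        rw [mul_pow]
        have : (R ^ d) ≠ 0 := by positivity
        field_simp
  calc c * ((R ^ d)⁻¹ * (R + ρ + 4) ^ ((d : ℝ) - 1 + γ)) ≤ c * (2 ^ d * (Real.sqrt R)⁻¹) :=
        mul_le_mul_of_nonneg_left h8 hc
    _ = X * δ * (Real.sqrt R)⁻¹ := by
        rw [hX]; field_simp
    _ ≤ Real.sqrt R * δ * (Real.sqrt R)⁻¹ := by gcongr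
    _ = δ := by field_simp

/-- the pieces are almost positive -/
lemma Lm_pos {C4 ρ R1 Rs M D : ℝ} {m : Sp d → ℝ} {ν : Sp d} {κ g : Sp d → ℝ}
    (hH : BF 2 (C4 * M) (Hp ν κ g) ∧ ∀ y, R1 ≤ ‖y‖ → Hp ν κ g y = 0)
    (hP : Pc R1 Rs ν κ) (hZ : ZP R1 D m) (hg : ∀ y, 0 ≤ g y) (_hA : Ad ρ M g) :
    -(C4 * M * D) ≤ Lm m ν κ g := by
  refine ZP_scale hZ hH.1.smooth (fun y => ?_) (fun y => ?_) (fun y => hH.1.bd 2 le_rfl y) hH.2
  · exact mul_nonneg (hP.k0 y) (integral_nonneg fun z => hg _)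
  · exact (le_abs_self _).trans (hH.1.norm_le y)

/-- comparison of two densities -/
lemma Lm_cmp (hPF : StmtPF) (hd : 1 ≤ d) {C4 ρ R1 Rs D : ℝ}
    (hH : ∀ (R1 Rs : ℝ) (ν : Sp d) (κ : Sp d → ℝ), ρ ≤ Rs + 2 → Pc R1 Rs ν κ →
      ∀ (g : Sp d → ℝ) (M : ℝ), Ad ρ M g →
        BF 2 (C4 * M) (Hp ν κ g) ∧ ∀ y, R1 ≤ ‖y‖ → Hp ν κ g y = 0)
    {m : Sp d → ℝ} (hm : Continuous m) {ν : Sp d} {κ : Sp d → ℝ} (hρ : ρ ≤ Rs + 2)
    (hP : Pc R1 Rs ν κ) (hZ : ZP R1 D m) {g G : Sp d → ℝ} {M M' : ℝ} (hg : Ad ρ M g)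
    (hG : Ad ρ M' G) (h : ∀ y, |g y| ≤ G y) :
    |Lm m ν κ g| ≤ Lm m ν κ G + C4 * (M' + M) * D := by
  have h1 : Ad ρ (M' + M) (fun y => G y + g y) := hG.add hg
  have h2 : Ad ρ (M' + M) (fun y => G y + (-1) * g y) := by
    have := hG.add (hg.cmul (-1))
    simpa using this
  have h3 := Lm_pos (hH R1 Rs ν κ hρ hP _ _ h1) hP hZ
    (fun y => by linarith [neg_abs_le (g y), h y]) h1
  have h4 := Lm_pos (hH R1 Rs ν κ hρ hP _ _ h2) hP hZ
    (fun y => by linarith [le_abs_self (g y), h y]) h2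
  have h5 := Lm_add hPF hd hρ hP hm hG hg
  have h6 := Lm_add hPF hd hρ hP hm hG (hg.cmul (-1))
  rw [Lm_cmul] at h6
  rw [h5] at h3
  rw [h6] at h4
  rw [abs_le]
  constructor <;> linarith

end B1m

open B1m SMm in
/-- MODULE B1 -/
theorem stmtB1 (hNN : StmtNN) (hPF : StmtPF) : StmtB1 := by
  intro d hd Mb cb K γ ρ δ B b hb hK hγ0 hγ hρ hδ
  have hd1 : 1 ≤ d := by omega
  have hρ0 : 0 < ρ := by linarith
  set φ0 : Sp d → ℝ := sT ρ with hφ0
  have hn2 : ∀ J : ℕ, ∃ N : ℝ, 0 < N ∧ BF J N φ0 := fun J => sT_BF J hρ0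
  choose n2 hn2p hn2b using hn2
  set m0 : ℝ := d * (d * |B 0|) with hm0
  have hm00 : 0 ≤ m0 := by positivity
  have hS2 : 0 ≤ SB B 2 := SB_nonneg B 2
  set q2 : ℝ := d * (d * SB B 2) with hq2
  have hq20 : 0 ≤ q2 := by positivity
  set c3 : ℝ := b 0 * volume.real (closedBall (0 : Sp d) (ρ + 1)) with hc3
  have hc30 : 0 ≤ c3 := mul_nonneg (hb.nonneg 0) measureReal_nonneg
  have hn22 : 0 < n2 2 := hn2p 2
  obtain ⟨R0, hR01, hR0⟩ := small_R (γ := γ) (c := c3 * (m0 * n2 2 + SB B 2) * K) (ρ := ρ)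
    (δ := δ / 4) hd hγ0 hγ (by positivity) hρ (by positivity)
  refine ⟨R0, hR01, fun R hR => ?_⟩
  have hR1 : 1 ≤ R := hR01.trans hR
  have hRp : 0 < R := by linarith
  have hsm := hR0 R hR
  set Rd : ℝ := (R ^ d)⁻¹ with hRd
  have hRd0 : 0 < Rd := by positivity
  set Rg : ℝ := (R + ρ + 4) ^ ((d : ℝ) - 1 + γ) with hRg
  have hRg0 : 0 ≤ Rg := Real.rpow_nonneg (by linarith) _
  set n1 : ℕ → ℝ := fun J => R ^ 2 * (d * (d * SB B (J + 2))) with hn1
  have hn10 : ∀ J, 0 ≤ n1 J := fun J => by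
    have := SB_nonneg B (J + 2)
    simp only [hn1]; positivity
  set E : ℕ → ℝ := fun J => δ / (4 * (1 + n1 J + SB B J + m0 * n2 J)) with hE
  have hden : ∀ J, 0 < 1 + n1 J + SB B J + m0 * n2 J := fun J => by
    have h1 := hn10 J
    have h2 := SB_nonneg B J
    have h3 := mul_nonneg hm00 (hn2p J).le
    linarith
  have hEp : ∀ J, 0 < E J := fun J => by
    have := hden J
    simp only [hE]; positivity
  have hEx : ∀ J (x : ℝ), x ≤ 1 + n1 J + SB B J + m0 * n2 J → E J * x ≤ δ / 4 := by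
    intro J x hx
    have h1 := hden J
    simp only [hE]
    rw [div_mul_eq_mul_div, div_le_div_iff₀ (by positivity) (by norm_num)]
    nlinarith
  have hE1 : ∀ J, E J * n1 J ≤ δ / 4 := fun J => hEx J _ (by
    have h2 := SB_nonneg B J
    have h3 := mul_nonneg hm00 (hn2p J).le
    linarith)
  have hE2 : ∀ J, E J * SB B J ≤ δ / 4 := fun J => hEx J _ (by
    have h1 := hn10 J
    have h3 := mul_nonneg hm00 (hn2p J).le
    linarith)
  have hE3 : ∀ J, E J * (m0 * n2 J) ≤ δ / 4 := fun J => hEx J _ (by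
    have h1 := hn10 J
    have h2 := SB_nonneg B J
    linarith)
  obtain ⟨C4, hC4, hH⟩ := Hp_main (d := d) hPF hd1 (R + ρ + 5)
  refine ⟨E, hEp, fun R1 rm => ⟨rm * C4 * (m0 * n2 2 + q2) + m0 * c3 * Rd * n2 2 +
    rm * C4 * (SB B 2 + q2) + c3 * Rd * SB B 2 + 1, by positivity, ?_⟩⟩
  intro m a D J r ν κ hm ha hD hZ hS hG
  have hP : ∀ i, Pc R1 (R + ρ + 3) (ν i) (κ i) :=
    fun i => ⟨hS.n1 i, hS.k0 i, hS.kb i, hS.ks i⟩
  have hest : ∀ (ζ : Sp d → ℝ) (N : ℝ), TFn J N ζ → (∀ y, R + ρ + 3 ≤ ‖y‖ → ζ y = 0) →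
      |(∫ y, m y * ζ y) - ∑ i, Lm m (ν i) (κ i) ζ| ≤ E J * a * N := fun ζ N h1 h2 =>
    hS.est ζ N h1 h2
  have hrm : (r : ℝ) ≤ rm := by exact_mod_cast hS.rle
  have hρR : R + ρ + 5 ≤ (R + ρ + 3) + 2 := by linarith
  -- the average of the cut-off
  have hφA : Ad (ρ + 1) (n2 2) φ0 := ⟨sT_smooth hρ0, hn2b 2, fun y hy => sT_zero hy.le⟩
  have hΦA : Ad (ρ + 1 + R) (n2 2) (avk b R φ0) := hφA.avk hb hRp.le
  have hΦest : ∑ i, Lm m (ν i) (κ i) (avk b R φ0) ≤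
      |∫ y, m y * avk b R φ0 y| + E J * a * n2 J := by
    have h1 := hest (avk b R φ0) (n2 J) ⟨hb.ak.avk_contDiff (hn2b J).smooth R, fun j hj y =>
      hb.ak.norm_iteratedFDeriv_avk_le (hn2b J).smooth R hj ((hn2b J).bd j hj) y⟩
      (fun y hy => hΦA.vs y (by linarith))
    have h2 := neg_abs_le ((∫ y, m y * avk b R φ0 y) - ∑ i, Lm m (ν i) (κ i) (avk b R φ0))
    linarith [le_abs_self (∫ y, m y * avk b R φ0 y)]
  have hΦs := avk_small hb hρ hRp hG hφA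
  rw [← hc3, ← hRd, ← hRg] at hΦs
  -- G2
  have hG2 : ∀ (F : Fin d → Fin d → Sp d → ℝ) (N : ℝ), 0 ≤ N →
      (∀ i j, ContDiff ℝ ∞ (F i j)) → (∀ i j k y, ‖iteratedFDeriv ℝ k (F i j) y‖ ≤ N * B k) →
      (∀ i j y, ρ ≤ ‖y‖ → F i j y = 0) →
      |∑ i, Lm m (ν i) (κ i) (avk b R (qf F (ν i)))| ≤
        N * m0 * (c3 * Rd * n2 2 * (K * Rg * a + D) + E J * a * n2 J) +
          N * (rm * C4 * (m0 * n2 2 + q2)) * D := by
    intro F N hN hF hFb hFs
    have hq : ∀ i, Ad ρ (N * q2) (qf F (ν i)) := fun i =>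
      (qf_Ad hF (fun i j => BF_of hN (hF i j) (hFb i j) 2) hFs (hS.n1 i)).mono le_rfl
        (le_of_eq (by rw [hq2]; ring))
    have hqa : ∀ i y, |qf F (ν i) y| ≤ N * m0 * φ0 y := by
      intro i y
      by_cases hy : ρ ≤ ‖y‖
      · have : qf F (ν i) y = 0 := by
          unfold qf
          exact Finset.sum_eq_zero fun k _ => Finset.sum_eq_zero fun l _ => by
            rw [hFs k l y hy, mul_zero]
        rw [this, abs_zero]
        exact mul_nonneg (mul_nonneg hN hm00) (sT_nonneg _ _)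
      · push Not at hy
        rw [hφ0, sT_one hy.le, mul_one]
        have h1 : |qf F (ν i) y| ≤ ∑ k : Fin d, ∑ l : Fin d, N * |B 0| := by
          unfold qf
          refine (Finset.abs_sum_le_sum_abs _ _).trans (Finset.sum_le_sum fun k _ => ?_)
          refine (Finset.abs_sum_le_sum_abs _ _).trans (Finset.sum_le_sum fun l _ => ?_)
          rw [abs_mul, abs_mul]
          have a1 := comp_le (hS.n1 i) k
          have a2 := comp_le (hS.n1 i) l
          have a3 := hFb k l 0 y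
          rw [norm_iteratedFDeriv_zero, Real.norm_eq_abs] at a3
          have a4 : N * B 0 ≤ N * |B 0| := mul_le_mul_of_nonneg_left (le_abs_self _) hN
          have a5 : |ν i k| * |ν i l| ≤ 1 := by
            nlinarith [abs_nonneg (ν i k), abs_nonneg (ν i l)]
          calc |ν i k| * |ν i l| * |F k l y| ≤ 1 * (N * |B 0|) :=
                mul_le_mul a5 (a3.trans a4) (abs_nonneg _) zero_le_one
            _ = N * |B 0| := one_mul _
        rw [sum2_const] at h1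
        refine h1.trans (le_of_eq ?_)
        rw [hm0]; ring
    have hqc : ∀ i, Continuous (qf F (ν i)) := fun i => (hq i).sm.continuous
    have hA : ∀ i, Ad (R + ρ + 5) (N * q2) (avk b R (qf F (ν i))) := fun i =>
      ((hq i).avk hb hRp.le).mono (by linarith) le_rfl
    have hΦ' : Ad (R + ρ + 5) (N * m0 * n2 2) (fun y => N * m0 * avk b R φ0 y) := by
      have h1 := (hΦA.mono (ρ' := R + ρ + 5) (by linarith) le_rfl).cmul (N * m0)
      rwa [abs_of_nonneg (mul_nonneg hN hm00)] at h1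
    have hab : ∀ i y, |avk b R (qf F (ν i)) y| ≤ N * m0 * avk b R φ0 y := by
      intro i y
      have h1 : ∀ s : ℝ, avk b R (fun z => s * φ0 z) y = s * avk b R φ0 y := by
        intro s
        unfold avk
        rw [← integral_const_mul]
        refine integral_congr_ae (Eventually.of_forall fun z => ?_)
        simp only [smul_eq_mul]
        ring
      have hφc : Continuous φ0 := hφA.sm.continuous
      rw [abs_le]
      constructor
      · have h2 := hb.ak.avk_mono (g := fun z => -(N * m0) * φ0 z) (g' := qf F (ν i))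
          (continuous_const.mul hφc) (hqc i)
          (fun z => by linarith [neg_abs_le (qf F (ν i) z), hqa i z]) R y
        rw [h1] at h2
        linarith
      · have h2 := hb.ak.avk_mono (g := qf F (ν i)) (g' := fun z => (N * m0) * φ0 z)
          (hqc i) (continuous_const.mul hφc)
          (fun z => by linarith [le_abs_self (qf F (ν i) z), hqa i z]) R y
        rwa [h1] at h2
    have h3 : ∀ i, |Lm m (ν i) (κ i) (avk b R (qf F (ν i)))| ≤
        N * m0 * Lm m (ν i) (κ i) (avk b R φ0) + C4 * (N * m0 * n2 2 + N * q2) * D := by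
      intro i
      have h4 := Lm_cmp hPF hd1 hH hm hρR (hP i) hZ (hA i) hΦ' (hab i)
      rwa [Lm_cmul] at h4
    have h5 : |∑ i, Lm m (ν i) (κ i) (avk b R (qf F (ν i)))| ≤
        N * m0 * (∑ i, Lm m (ν i) (κ i) (avk b R φ0)) +
          r * (C4 * (N * m0 * n2 2 + N * q2) * D) := by
      refine (Finset.abs_sum_le_sum_abs _ _).trans ?_
      refine (Finset.sum_le_sum fun i _ => h3 i).trans (le_of_eq ?_)
      rw [Finset.sum_add_distrib, ← Finset.mul_sum]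
      simp
    refine h5.trans ?_
    have h6 : N * m0 * (∑ i, Lm m (ν i) (κ i) (avk b R φ0)) ≤
        N * m0 * (c3 * Rd * n2 2 * (K * Rg * a + D) + E J * a * n2 J) :=
      mul_le_mul_of_nonneg_left (by linarith) (mul_nonneg hN hm00)
    have h7 : (r : ℝ) * (C4 * (N * m0 * n2 2 + N * q2) * D) ≤
        N * (rm * C4 * (m0 * n2 2 + q2)) * D := by
      have h8 : 0 ≤ C4 * (N * m0 * n2 2 + N * q2) * D := by positivity
      calc (r : ℝ) * (C4 * (N * m0 * n2 2 + N * q2) * D) ≤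
            rm * (C4 * (N * m0 * n2 2 + N * q2) * D) := mul_le_mul_of_nonneg_right hrm h8
        _ = N * (rm * C4 * (m0 * n2 2 + q2)) * D := by ring
    linarith
  -- numbers
  have hsm1 : c3 * Rd * (m0 * n2 2) * (K * Rg) ≤ δ / 4 := by
    refine le_trans ?_ hsm
    have : c3 * (m0 * n2 2 + SB B 2) * K * (Rd * Rg) =
      c3 * Rd * (m0 * n2 2) * (K * Rg) + c3 * SB B 2 * K * (Rd * Rg) := by ring
    rw [this]
    have : 0 ≤ c3 * SB B 2 * K * (Rd * Rg) := by positivity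
    linarith
  have hsm2 : c3 * Rd * SB B 2 * (K * Rg) ≤ δ / 4 := by
    refine le_trans ?_ hsm
    have : c3 * (m0 * n2 2 + SB B 2) * K * (Rd * Rg) =
      c3 * Rd * (m0 * n2 2) * (K * Rg) + c3 * Rd * SB B 2 * (K * Rg) := by ring
    rw [this]
    have : 0 ≤ c3 * Rd * (m0 * n2 2) * (K * Rg) := by positivity
    linarith
  have hG2' : ∀ (F : Fin d → Fin d → Sp d → ℝ) (N : ℝ), 0 ≤ N →
      (∀ i j, ContDiff ℝ ∞ (F i j)) → (∀ i j k y, ‖iteratedFDeriv ℝ k (F i j) y‖ ≤ N * B k) →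
      (∀ i j y, ρ ≤ ‖y‖ → F i j y = 0) →
      |∑ i, Lm m (ν i) (κ i) (avk b R (qf F (ν i)))| ≤ δ / 2 * a * N +
        N * (m0 * c3 * Rd * n2 2 + rm * C4 * (m0 * n2 2 + q2)) * D := by
    intro F N hN hF hFb hFs
    refine (hG2 F N hN hF hFb hFs).trans ?_
    have haN : 0 ≤ N * a := mul_nonneg hN ha
    have h1 := mul_le_mul_of_nonneg_left hsm1 haN
    have h2 := mul_le_mul_of_nonneg_left (hE3 J) haN
    have h3 : N * m0 * (c3 * Rd * n2 2 * (K * Rg * a + D) + E J * a * n2 J) +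
          N * (rm * C4 * (m0 * n2 2 + q2)) * D =
        N * a * (c3 * Rd * (m0 * n2 2) * (K * Rg)) + N * a * (E J * (m0 * n2 J)) +
        N * (m0 * c3 * Rd * n2 2 + rm * C4 * (m0 * n2 2 + q2)) * D := by ring
    rw [h3]
    linarith
  -- G1
  have hG1 : ∀ (F : Fin d → Fin d → Sp d → ℝ) (N : ℝ), 0 ≤ N →
      (∀ i j, ContDiff ℝ ∞ (F i j)) → (∀ i j k y, ‖iteratedFDeriv ℝ k (F i j) y‖ ≤ N * B k) →
      (∀ i j y, ρ ≤ ‖y‖ → F i j y = 0) →
      |(∫ y, m y * nt b R F y) - (∑ i, Lm m (ν i) (κ i) (qf F (ν i)) -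
        ∑ i, Lm m (ν i) (κ i) (avk b R (qf F (ν i))))| ≤ δ / 4 * a * N := by
    intro F N hN hF hFb hFs
    obtain ⟨h1, h2⟩ := nt_BF (J := J) hNN hd hb hRp hF
      (fun i j => BF_of hN (hF i j) (hFb i j) (J + 2)) hFs
    have h3 := hest (nt b R F) _ ⟨h1.smooth, h1.bd⟩ (fun y hy => h2 y (by linarith))
    have hq : ∀ i, Ad ρ (N * q2) (qf F (ν i)) := fun i =>
      (qf_Ad hF (fun i j => BF_of hN (hF i j) (hFb i j) 2) hFs (hS.n1 i)).mono le_rfl
        (le_of_eq (by rw [hq2]; ring))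
    have hcs : ∀ i j, HasCompactSupport (F i j) := fun i j =>
      cs_of (ρ := ρ) fun y hy => hFs i j y hy.le
    have h4 : ∀ i, Lm m (ν i) (κ i) (nt b R F) = Lm m (ν i) (κ i) (qf F (ν i)) -
        Lm m (ν i) (κ i) (avk b R (qf F (ν i))) := by
      intro i
      unfold Lm
      rw [← integral_sub (Hp_int hPF hd1 hρR (hP i) hm
        ((hq i).mono (ρ' := R + ρ + 5) (by linarith) le_rfl))
        (Hp_int hPF hd1 hρR (hP i) hm (((hq i).avk hb hRp.le).mono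
          (ρ' := R + ρ + 5) (by linarith) le_rfl))]
      refine integral_congr_ae (Eventually.of_forall fun y => ?_)
      simp only
      rw [Hp_nt hNN hd hb hRp hF hcs (hS.n1 i) (κ i) (hq i).sm (hq i).cs]
      ring
    have h5 : ∑ i, Lm m (ν i) (κ i) (nt b R F) = ∑ i, Lm m (ν i) (κ i) (qf F (ν i)) -
        ∑ i, Lm m (ν i) (κ i) (avk b R (qf F (ν i))) := by
      rw [← Finset.sum_sub_distrib]
      exact Finset.sum_congr rfl fun i _ => h4 i
    rw [h5] at h3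
    refine h3.trans ?_
    have haN : 0 ≤ N * a := mul_nonneg hN ha
    have h6 := mul_le_mul_of_nonneg_left (hE1 J) haN
    have h7 : E J * a * (R ^ 2 * (d * (d * (N * SB B (J + 2))))) = N * a * (E J * n1 J) := by
      simp only [hn1]; ring
    rw [h7]
    linarith
  have hND : ∀ N : ℝ, 0 ≤ N → 0 ≤ N * D := fun N hN => mul_nonneg hN hD
  refine ⟨?_, ?_, ?_⟩
  · intro F N hN hF hFb hFs hpos
    have h1 := hG1 F N hN hF hFb hFs
    have h2 := hG2' F N hN hF hFb hFs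
    have hq : ∀ i, Ad (R + ρ + 5) (N * q2) (qf F (ν i)) := fun i =>
      (qf_Ad hF (fun i j => BF_of hN (hF i j) (hFb i j) 2) hFs (hS.n1 i)).mono (by linarith)
        (le_of_eq (by rw [hq2]; ring))
    have h3 : pieces m ν κ (qf F) = ∑ i, Lm m (ν i) (κ i) (qf F (ν i)) := rfl
    have h4 : ∀ i, -(C4 * (N * q2) * D) ≤ Lm m (ν i) (κ i) (qf F (ν i)) := fun i =>
      Lm_pos (hH R1 _ (ν i) (κ i) hρR (hP i) _ _ (hq i)) (hP i) hZ (hpos (ν i) (hS.n1 i)) (hq i)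
    have h5 : -((r : ℝ) * (C4 * (N * q2) * D)) ≤ ∑ i, Lm m (ν i) (κ i) (qf F (ν i)) := by
      have := Finset.sum_le_sum fun (i : Fin r) (_ : i ∈ Finset.univ) => h4 i
      simpa using this
    have h6 : (r : ℝ) * (C4 * (N * q2) * D) ≤ rm * (C4 * (N * q2) * D) :=
      mul_le_mul_of_nonneg_right hrm (by positivity)
    rw [h3]
    have e1 := abs_le.1 h1
    have e2 := abs_le.1 h2
    have p1 : 0 ≤ δ * a * N := by positivity
    have p2 : 0 ≤ rm * C4 * (SB B 2 + q2) * (N * D) := by positivity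
    have p3 : 0 ≤ c3 * Rd * SB B 2 * (N * D) := by positivity
    have p4 : 0 ≤ N * D := hND N hN
    have p5 : 0 ≤ rm * C4 * (m0 * n2 2) * (N * D) := by positivity
    have p6 : 0 ≤ m0 * c3 * Rd * n2 2 * (N * D) := by positivity
    have p7 : 0 ≤ rm * C4 * SB B 2 * (N * D) := by positivity
    have p8 : 0 ≤ rm * C4 * q2 * (N * D) := by positivity
    constructor
    · linarith
    · linarith
  · intro Y φ N hN hY hYb hYs hφ hφb hφs hYφ
    have h1 := hG1 Y N hN hY hYb hYs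
    have h2 := hG2' Y N hN hY hYb hYs
    have hq : ∀ i, Ad (R + ρ + 5) (N * q2) (qf Y (ν i)) := fun i =>
      (qf_Ad hY (fun i j => BF_of hN (hY i j) (hYb i j) 2) hYs (hS.n1 i)).mono (by linarith)
        (le_of_eq (by rw [hq2]; ring))
    have hφB : ∀ n, BF n (SB B n) φ := fun n => by
      have := BF_of (N := 1) zero_le_one hφ (fun k y => by rw [one_mul]; exact hφb k y) n
      rwa [one_mul] at this
    have hφA' : Ad (R + ρ + 5) (N * SB B 2) (fun y => N * φ y) := by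
      have h3 : Ad (R + ρ + 5) (SB B 2) φ := ⟨hφ, hφB 2, fun y hy => hφs y (by linarith)⟩
      have h4 := h3.cmul N
      rwa [abs_of_nonneg hN] at h4
    have h3 : ∀ i, |Lm m (ν i) (κ i) (qf Y (ν i))| ≤
        N * Lm m (ν i) (κ i) φ + C4 * (N * SB B 2 + N * q2) * D := by
      intro i
      have h4 := Lm_cmp hPF hd1 hH hm hρR (hP i) hZ (hq i) hφA' (hYφ (ν i) (hS.n1 i))
      rwa [Lm_cmul] at h4
    have h5 : |∑ i, Lm m (ν i) (κ i) (qf Y (ν i))| ≤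
        N * (∑ i, Lm m (ν i) (κ i) φ) + r * (C4 * (N * SB B 2 + N * q2) * D) := by
      refine (Finset.abs_sum_le_sum_abs _ _).trans ?_
      refine (Finset.sum_le_sum fun i _ => h3 i).trans (le_of_eq ?_)
      rw [Finset.sum_add_distrib, ← Finset.mul_sum]
      simp
    have h6 := hest φ (SB B J) ⟨(hφB J).smooth, (hφB J).bd⟩ (fun y hy => hφs y (by linarith))
    have h7 : (r : ℝ) * (C4 * (N * SB B 2 + N * q2) * D) ≤
        rm * (C4 * (N * SB B 2 + N * q2) * D) :=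
      mul_le_mul_of_nonneg_right hrm (by positivity)
    have h8 : N * (∑ i, Lm m (ν i) (κ i) φ) ≤ N * ((∫ y, m y * φ y) + E J * a * SB B J) :=
      mul_le_mul_of_nonneg_left (by linarith [(abs_le.1 h6).1]) hN
    have haN : 0 ≤ N * a := mul_nonneg hN ha
    have h9 := mul_le_mul_of_nonneg_left (hE2 J) haN
    have e1 := abs_le.1 h1
    have e2 := abs_le.1 h2
    have e5 := abs_le.1 h5
    have p3 : 0 ≤ c3 * Rd * SB B 2 * (N * D) := by positivity
    have p4 : 0 ≤ N * D := hND N hN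
    rw [abs_le]
    constructor
    · linarith
    · linarith
  · intro φ N hN hφ hφb hφs
    have hA : Ad (ρ + 1) (N * SB B 2) φ :=
      ⟨hφ, BF_of hN hφ hφb 2, fun y hy => hφs y (by linarith)⟩
    have h1 := avk_small hb hρ hRp hG hA
    rw [← hc3, ← hRd, ← hRg] at h1
    refine h1.trans ?_
    have haN : 0 ≤ N * a := mul_nonneg hN ha
    have h2 := mul_le_mul_of_nonneg_left hsm2 haN
    have h3 : c3 * Rd * (N * SB B 2) * (K * Rg * a + D) =
        N * a * (c3 * Rd * SB B 2 * (K * Rg)) + c3 * Rd * SB B 2 * (N * D) := by ring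
    rw [h3]
    have p1 : 0 ≤ rm * C4 * (m0 * n2 2 + q2) * (N * D) := by positivity
    have p2 : 0 ≤ rm * C4 * (SB B 2 + q2) * (N * D) := by positivity
    have p4 : 0 ≤ N * D := hND N hN
    have p6 : 0 ≤ m0 * c3 * Rd * n2 2 * (N * D) := by positivity
    have p7 : 0 ≤ δ * a * N := by positivity
    linarith

end

end TG
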