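import Pool.Agent.TG.Stmts1

/-!
# Reduction to cells (module PT), part a: averages with general kernels
-/

open MeasureTheory Metric Set TrI Filter
open scoped InnerProductSpace ContDiff Convolution

set_option linter.unusedSectionVars false

namespace TG

noncomputable section

namespace PTm

variable {d : ℕ}

/-- kernels: continuous, supported in the unit ball -/
structure Ker (ψ : Sp d → ℝ) : Prop where
  cont : Continuous ψ
  supp : ∀ y, 1 ≤ ‖y‖ → ψ y = 0

lemma Ker.cs {ψ : Sp d → ℝ} (h : Ker ψ) : HasCompactSupport ψ :=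
  HasCompactSupport.intro (isCompact_closedBall (0 : Sp d) 1) fun x hx => h.supp x (by
    rw [mem_closedBall, dist_zero_right, not_le] at hx
    exact hx.le)

section Avk

variable {F : Type*} [NormedAddCommGroup F] [NormedSpace ℝ F]

lemma Ker.int {ψ : Sp d → ℝ} (h : Ker ψ) {g : Sp d → F} (hg : Continuous g) (s : ℝ) (x : Sp d) :
    Integrable (fun y => ψ y • g (x + s • y)) := by
  refine Continuous.integrable_of_hasCompactSupport
    (h.cont.smul (hg.comp (by fun_prop))) ?_
  exact HasCompactSupport.smul_right h.cs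

lemma avk_cont {ψ : Sp d → ℝ} (h : Ker ψ) {g : Sp d → F} (hg : Continuous g) (s : ℝ) :
    Continuous (avk ψ s g) := by
  have h1 : avk ψ s g = fun z => ∫ y in closedBall (0 : Sp d) 1, ψ y • g (z + s • y) := by
    ext z
    unfold avk
    symm
    refine setIntegral_eq_integral_of_forall_compl_eq_zero fun y hy => ?_
    rw [mem_closedBall, dist_zero_right, not_le] at hy
    rw [h.supp y hy.le, zero_smul]
  rw [h1]
  refine continuous_parametric_integral_of_continuous ?_ (isCompact_closedBall _ _)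
  have h2 : Continuous fun p : Sp d × Sp d => ψ p.2 • g (p.1 + s • p.2) :=
    (h.cont.comp continuous_snd).smul (hg.comp (by fun_prop))
  exact h2

/-- avk ψ s g x only depends on g near x -/
lemma avk_congr {ψ : Sp d → ℝ} (h : Ker ψ) {s : ℝ} (hs : 0 ≤ s) {g g' : Sp d → F} {x : Sp d}
    (hg : ∀ z, ‖z - x‖ ≤ s → g z = g' z) : avk ψ s g x = avk ψ s g' x := by
  unfold avk
  congr 1
  ext y
  by_cases hy : 1 ≤ ‖y‖
  · rw [h.supp y hy, zero_smul, zero_smul]
  · rw [hg]
    rw [add_sub_cancel_left, norm_smul, Real.norm_of_nonneg hs]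
    push Not at hy
    nlinarith [norm_nonneg y]

lemma avk_zero_of {ψ : Sp d → ℝ} (h : Ker ψ) {s : ℝ} (hs : 0 ≤ s) {g : Sp d → F} {x : Sp d}
    (hg : ∀ z, ‖z - x‖ ≤ s → g z = 0) : avk ψ s g x = 0 := by
  rw [avk_congr h hs (g' := fun _ => 0) hg]
  unfold avk
  simp

lemma avk_sum {ι : Type*} {ψ : Sp d → ℝ} (h : Ker ψ) (s : ℝ) (S : Finset ι) {g : ι → Sp d → F}
    (hg : ∀ i ∈ S, Continuous (g i)) (x : Sp d) :
    avk ψ s (fun z => ∑ i ∈ S, g i z) x = ∑ i ∈ S, avk ψ s (g i) x := by
  unfold avk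
  rw [← integral_finsetSum _ fun i hi => h.int (hg i hi) s x]
  congr 1
  ext y
  rw [Finset.smul_sum]

lemma norm_avk_le {ψ : Sp d → ℝ} (h : Ker ψ) (h0 : ∀ y, 0 ≤ ψ y) (h1 : ∫ y, ψ y = 1)
    {g : Sp d → F} {H : ℝ} (hH : ∀ z, ‖g z‖ ≤ H) (s : ℝ) (x : Sp d) : ‖avk ψ s g x‖ ≤ H := by
  have hψ : Integrable ψ := h.cont.integrable_of_hasCompactSupport h.cs
  have h2 : ‖avk ψ s g x‖ ≤ ∫ y, ψ y * H := by
    refine norm_integral_le_of_norm_le (hψ.mul_const H) ?_
    refine Eventually.of_forall fun y => ?_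
    rw [norm_smul, Real.norm_of_nonneg (h0 y)]
    exact mul_le_mul_of_nonneg_left (hH _) (h0 y)
  rwa [integral_mul_const, h1, one_mul] at h2

lemma avk_inner {E : Type*} [NormedAddCommGroup E] [InnerProductSpace ℝ E] [CompleteSpace E]
    {ψ : Sp d → ℝ} (h : Ker ψ) {g : Sp d → E} (hg : Continuous g) (s : ℝ) (x : Sp d) (e : E) :
    ⟪avk ψ s g x, e⟫_ℝ = avk ψ s (fun z => ⟪g z, e⟫_ℝ) x := by
  unfold avk
  rw [real_inner_comm, ← integral_inner (h.int hg s x) e]
  congr 1
  ext y
  rw [real_inner_smul_right, smul_eq_mul, real_inner_comm]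

lemma cs_bd {G : Type*} [NormedAddCommGroup G] {g : Sp d → G} (hg : HasCompactSupport g) :
    ∃ ρ : ℝ, 0 ≤ ρ ∧ ∀ y, ρ < ‖y‖ → g y = 0 := by
  obtain ⟨ρ, hρ⟩ := hg.isCompact.isBounded.subset_closedBall 0
  refine ⟨max ρ 0, le_max_right _ _, fun y hy => ?_⟩
  by_contra h
  have h1 := hρ (subset_tsupport g h)
  rw [mem_closedBall, dist_zero_right] at h1
  exact absurd ((le_max_left _ _).trans_lt hy) (not_lt.mpr h1)

/-- self-adjointness for even kernels -/
lemma avk_adj {ψ : Sp d → ℝ} (h : Ker ψ) (he : ∀ y, ψ (-y) = ψ y) {φ k : Sp d → ℝ}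
    (hφ : Continuous φ) (hφ' : HasCompactSupport φ) (hk : Continuous k) (s : ℝ) :
    ∫ x, avk ψ s φ x * k x = ∫ x, φ x * avk ψ s k x := by
  obtain ⟨ρ, hρ0, hρ⟩ := cs_bd hφ'
  have hI1 : Integrable (Function.uncurry fun (x y : Sp d) => ψ y * φ (x + s • y) * k x)
      ((volume : Measure (Sp d)).prod volume) := by
    refine Continuous.integrable_of_hasCompactSupport ?_ ?_
    · have := h.cont
      unfold Function.uncurry
      fun_prop
    · refine HasCompactSupport.intro
        ((isCompact_closedBall (0 : Sp d) (ρ + |s|)).prod (isCompact_closedBall (0 : Sp d) 1)) ?_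
      rintro ⟨x, y⟩ hx
      simp only [Function.uncurry]
      rw [mem_prod, not_and_or] at hx
      by_cases hy : 1 ≤ ‖y‖
      · rw [h.supp y hy, zero_mul, zero_mul]
      push Not at hy
      rcases hx with hx | hx
      · rw [mem_closedBall, dist_zero_right, not_le] at hx
        rw [hρ, mul_zero, zero_mul]
        have h1 : ‖x‖ ≤ ‖x + s • y‖ + ‖s • y‖ := by
          have := norm_sub_le (x + s • y) (s • y)
          rwa [add_sub_cancel_right] at this
        have h2 : ‖s • y‖ ≤ |s| := by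
          rw [norm_smul, Real.norm_eq_abs]
          exact mul_le_of_le_one_right (abs_nonneg s) hy.le
        simp only at hx
        linarith
      · rw [mem_closedBall, dist_zero_right, not_le] at hx
        simp only at hx
        linarith
  have hI2 : Integrable (Function.uncurry fun (x y : Sp d) => ψ y * φ x * k (x + s • y))
      ((volume : Measure (Sp d)).prod volume) := by
    refine Continuous.integrable_of_hasCompactSupport ?_ ?_
    · have := h.cont
      unfold Function.uncurry
      fun_prop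
    · refine HasCompactSupport.intro
        ((isCompact_closedBall (0 : Sp d) ρ).prod (isCompact_closedBall (0 : Sp d) 1)) ?_
      rintro ⟨x, y⟩ hx
      simp only [Function.uncurry]
      rw [mem_prod, not_and_or] at hx
      rcases hx with hx | hx
      · rw [mem_closedBall, dist_zero_right, not_le] at hx
        rw [hρ x hx, mul_zero, zero_mul]
      · rw [mem_closedBall, dist_zero_right, not_le] at hx
        rw [h.supp y hx.le, zero_mul, zero_mul]
  have e1 : ∀ x, avk ψ s φ x * k x = ∫ y, ψ y * φ (x + s • y) * k x := by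
    intro x
    unfold avk
    rw [← integral_mul_const]
    rfl
  have e2 : ∀ x, φ x * avk ψ s k x = ∫ y, ψ y * φ x * k (x + s • y) := by
    intro x
    unfold avk
    rw [← integral_const_mul]
    congr 1
    ext y
    rw [smul_eq_mul]
    ring
  simp only [e1, e2]
  rw [integral_integral_swap hI1, integral_integral_swap hI2]
  have e3 : ∀ y : Sp d, ∫ x, ψ y * φ (x + s • y) * k x =
      ∫ x, ψ (-y) * φ x * k (x + s • (-y)) := by
    intro y
    rw [← integral_add_right_eq_self (μ := volume) (fun x => ψ y * φ (x + s • y) * k x)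
      (-(s • y))]
    congr 1
    ext x
    rw [he, smul_neg, neg_add_cancel_right]
  simp only [e3]
  exact integral_neg_eq_self (fun y : Sp d => ∫ x, ψ y * φ x * k (x + s • y)) volume

end Avk

/-! ## the kernels KN -/

lemma kit_ker {J : ℕ} {M : ℝ} {β : Sp d → ℝ} (h : Kit J M β) : Ker β :=
  ⟨h.prof.smooth.continuous, h.prof.supp⟩

lemma kit_even {J : ℕ} {M : ℝ} {β : Sp d → ℝ} (h : Kit J M β) (y : Sp d) : β (-y) = β y :=
  le_antisymm (h.prof.mono y (-y) (by rw [norm_neg])) (h.prof.mono (-y) y (by rw [norm_neg]))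

lemma base_ker {J : ℕ} {M c : ℝ} {b : Sp d → ℝ} (h : BaseKer J M c b) : Ker b :=
  ⟨h.smooth.continuous, fun y hy => h.supp y (by linarith)⟩

lemma kit_mono {J J' : ℕ} (hJ : J' ≤ J) {M : ℝ} {β : Sp d → ℝ} (h : Kit J M β) : Kit J' M β where
  prof := ⟨h.prof.smooth.of_le (by exact_mod_cast hJ), h.prof.nonneg, h.prof.mono, h.prof.supp,
    h.prof.int, fun j hj => h.prof.der j (hj.trans hJ)⟩
  smooth1 := h.smooth1.of_le (by exact_mod_cast hJ)
  smooth2 := h.smooth2.of_le (by exact_mod_cast hJ)
  supp1 := h.supp1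
  supp2 := h.supp2
  grad1 := h.grad1
  grad2 := h.grad2
  nonneg1 := h.nonneg1
  nonneg2 := h.nonneg2
  le1 := h.le1
  le2 := h.le2
  mono1 := h.mono1
  mono2 := h.mono2
  der1 := fun j hj => h.der1 j (hj.trans hJ)
  der2 := fun j hj => h.der2 j (hj.trans hJ)

lemma base_mono {J J' : ℕ} (hJ : J' ≤ J) {M c : ℝ} {b : Sp d → ℝ} (h : BaseKer J M c b) :
    BaseKer J' M c b where
  c_pos := h.c_pos
  smooth := h.smooth.of_le (by exact_mod_cast hJ)
  nonneg := h.nonneg
  mono := h.mono
  supp := h.supp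
  int := h.int
  kit := fun n => kit_mono hJ (h.kit n)
  low := h.low

lemma lev_pos {s0 : ℝ} (h : 0 < s0) (i : ℕ) : 0 < lev s0 i := by
  unfold lev; positivity

lemma lev_succ (s0 : ℝ) (i : ℕ) : lev s0 (i + 1) = 2 * lev s0 i := by
  unfold lev; ring

section Fl

variable {F : Type*} [NormedAddCommGroup F] [NormedSpace ℝ F]

lemma fl_zero (b : Sp d → ℝ) (ε s0 : ℝ) (f : Sp d → F) : fl b ε s0 f 0 = f := rfl

lemma fl_succ (b : Sp d → ℝ) (ε s0 : ℝ) (f : Sp d → F) (i : ℕ) :
    fl b ε s0 f (i + 1) = avk b (ε * lev s0 (i + 1)) (fl b ε s0 f i) := rfl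

lemma fl_cont {b : Sp d → ℝ} (hb : Ker b) (ε s0 : ℝ) {f : Sp d → F} (hf : Continuous f) (i : ℕ) :
    Continuous (fl b ε s0 f i) := by
  induction i with
  | zero => exact hf
  | succ i ih => exact avk_cont hb ih _

lemma fl_supp {b : Sp d → ℝ} (hb : Ker b) {ε s0 : ℝ} (hε : 0 ≤ ε) (hs : 0 < s0) {f : Sp d → F}
    {ρ : ℝ} (hρ : ∀ y, ρ < ‖y‖ → f y = 0) (i : ℕ) :
    ∀ y, ρ + ε * (2 * lev s0 i) < ‖y‖ → fl b ε s0 f i y = 0 := by
  induction i with
  | zero =>
    intro y hy
    refine hρ y (lt_of_le_of_lt ?_ hy)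
    have := lev_pos hs 0
    have : 0 ≤ ε * (2 * lev s0 0) := by positivity
    linarith
  | succ i ih =>
    intro y hy
    rw [fl_succ]
    have h0 := lev_pos hs i
    refine avk_zero_of hb (by rw [lev_succ]; positivity) fun z hz => ih z ?_
    rw [lev_succ] at hy hz
    have h1 : ‖y‖ ≤ ‖z‖ + ‖z - y‖ := by
      have := norm_sub_le z (z - y)
      rwa [sub_sub_cancel] at this
    nlinarith

/-- kernel identity -/
lemma avk_KN [CompleteSpace F] {b : Sp d → ℝ} (hb : Ker b) {n : ℕ} (hn : Ker (KN b n))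
    {f : Sp d → F} (hf : Continuous f) (s : ℝ) (x : Sp d) :
    avk (KN b (n + 1)) s f x = avk b s (avk (KN b n) (s / 2) f) x := by
  unfold avk
  have e1 : ∀ z : Sp d, KN b (n + 1) z • f (x + s • z) =
      ∫ y, (b y * (2 ^ d * KN b n ((2 : ℝ) • (z - y)))) • f (x + s • z) := by
    intro z
    rw [integral_smul_const]
    rfl
  have hI : Integrable (Function.uncurry fun (z y : Sp d) =>
      (b y * (2 ^ d * KN b n ((2 : ℝ) • (z - y)))) • f (x + s • z))
      ((volume : Measure (Sp d)).prod volume) := by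
    refine Continuous.integrable_of_hasCompactSupport ?_ ?_
    · have := hb.cont
      have := hn.cont
      unfold Function.uncurry
      fun_prop
    · refine HasCompactSupport.intro
        ((isCompact_closedBall (0 : Sp d) 2).prod (isCompact_closedBall (0 : Sp d) 1)) ?_
      rintro ⟨z, y⟩ hx
      simp only [Function.uncurry]
      rw [mem_prod, not_and_or] at hx
      by_cases hy : 1 ≤ ‖y‖
      · rw [hb.supp y hy, zero_mul, zero_smul]
      push Not at hy
      rcases hx with hx | hx
      · rw [mem_closedBall, dist_zero_right, not_le] at hx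
        rw [hn.supp, mul_zero, mul_zero, zero_smul]
        rw [norm_smul, Real.norm_of_nonneg (by norm_num : (0 : ℝ) ≤ 2)]
        have h1 : ‖z‖ ≤ ‖z - y‖ + ‖y‖ := by
          have := norm_add_le (z - y) y
          rwa [sub_add_cancel] at this
        simp only at hx
        linarith
      · rw [mem_closedBall, dist_zero_right, not_le] at hx
        simp only at hx
        linarith
  simp only [e1]
  rw [integral_integral_swap hI]
  congr 1
  ext y
  have e2 : ∀ z : Sp d, (b y * (2 ^ d * KN b n ((2 : ℝ) • (z - y)))) • f (x + s • z) =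
      b y • ((2 : ℝ) ^ d • (KN b n ((2 : ℝ) • (z - y)) • f (x + s • z))) := by
    intro z
    rw [smul_smul, smul_smul]
    congr 1
    ring
  simp only [e2]
  rw [integral_smul, integral_smul]
  congr 1
  rw [← integral_add_right_eq_self (μ := volume)
    (fun z => KN b n ((2 : ℝ) • (z - y)) • f (x + s • z)) y]
  have e3 : ∀ z : Sp d, KN b n ((2 : ℝ) • (z + y - y)) • f (x + s • (z + y)) =
      (fun w => KN b n w • f (x + s • y + (s / 2) • w)) ((2 : ℝ) • z) := by
    intro z
    simp only [add_sub_cancel_right, smul_smul]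
    congr 2
    rw [smul_add, div_mul_cancel₀ _ (by norm_num : (2 : ℝ) ≠ 0), add_assoc, add_comm (s • z)]
  simp only [e3]
  have e4 := Measure.integral_comp_smul (volume : Measure (Sp d))
    (fun w => KN b n w • f (x + s • y + (s / 2) • w)) (2 : ℝ)
  beta_reduce at e4
  rw [e4, smul_smul, finrank_euclideanSpace_fin, abs_of_pos (by positivity),
    mul_inv_cancel₀ (by positivity), one_smul]

lemma fl_eq [CompleteSpace F] {b : Sp d → ℝ} (hb : Ker b) (hn : ∀ n, Ker (KN b n))
    {f : Sp d → F} (hf : Continuous f) (ε s0 : ℝ) (n : ℕ) :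
    fl b ε s0 f (n + 1) = avk (KN b n) (ε * lev s0 (n + 1)) f := by
  induction n with
  | zero => rfl
  | succ n ih =>
    rw [fl_succ, ih]
    ext x
    rw [avk_KN hb (hn n) hf]
    congr 2
    rw [lev_succ s0 (n + 1)]
    ring

end Fl

end PTm

end

end TG
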