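import Pool.Agent.TG.TPd

/-!
# Module TP: averaged Taylor polynomials, Lemma 7.1
-/

set_option linter.unusedSectionVars false

open MeasureTheory Metric Set TrI
open scoped InnerProductSpace ContDiff Nat

namespace TG
namespace TP

section Taylor

variable {d : ℕ} {V : Type} [NormedAddCommGroup V] [InnerProductSpace ℝ V]
  [FiniteDimensional ℝ V]

lemma bk_cs {F : Type} [NormedAddCommGroup F] [NormedSpace ℝ F] (W : Sp d → F) :
    HasCompactSupport (fun z => bk d z • W z) := by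
  refine HasCompactSupport.intro (isCompact_closedBall (0 : Sp d) 1) fun z hz => ?_
  rw [mem_closedBall, dist_zero_right, not_le] at hz
  rw [bk_zero hz.le, zero_smul]

lemma taylor_id {u : Sp d → V} (hu : ContDiff ℝ ∞ u) (n : ℕ) (c : Sp d) (r : ℝ) (x : Sp d)
    (v : V) : ⟪u x - ATP n c r u x, v⟫_ℝ =
      ∫ z in closedBall (0 : Sp d) 1, ∫ s in Icc (0 : ℝ) 1,
        bk d z * ((n ! : ℝ)⁻¹ * (1 - s) ^ n) *
          ⟪v, iteratedFDeriv ℝ (n + 1) u ((1 - s) • (c + r • z) + s • x)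
            (fun _ => x - (c + r • z))⟫_ℝ := by
  have hDc : ∀ k : ℕ, Continuous (iteratedFDeriv ℝ k u) := fun k =>
    hu.continuous_iteratedFDeriv (by exact_mod_cast le_top)
  have hbc : Continuous (bk d) := bk_cont
  -- Taylor
  set W : Sp d → V := fun z => ∫ s in (0 : ℝ)..1, (1 - s) ^ n •
    iteratedFDeriv ℝ (n + 1) u ((c + r • z) + s • (x - (c + r • z))) (fun _ => x - (c + r • z))
    with hW
  have hT : ∀ z : Sp d, u x = ∑ k ∈ Finset.range (n + 1), ((k ! : ℝ)⁻¹ •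
      iteratedFDeriv ℝ k u (c + r • z) (fun _ => x - (c + r • z))) + (n ! : ℝ)⁻¹ • W z := by
    intro z
    have h := map_add_eq_sum_add_integral_iteratedFDeriv (f := u) (x := c + r • z)
      (y := x - (c + r • z)) (n := n) fun t _ =>
      (hu.contDiffAt).of_le (by exact_mod_cast le_top)
    rw [add_sub_cancel] at h
    exact h
  have hWc : Continuous W := by
    have := hDc (n + 1)
    refine intervalIntegral.continuous_parametric_intervalIntegral_of_continuous' ?_ 0 1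
    unfold Function.uncurry
    fun_prop
  have hPc : Continuous fun z : Sp d => ∑ k ∈ Finset.range (n + 1), ((k ! : ℝ)⁻¹ •
      iteratedFDeriv ℝ k u (c + r • z) (fun _ => x - (c + r • z))) := by
    have := hDc
    fun_prop
  have e1 : u x - ATP n c r u x = ∫ z, bk d z • ((n ! : ℝ)⁻¹ • W z) := by
    have h1 : u x = ∫ z, bk d z • u x := by
      rw [integral_smul_const, bk_int, one_smul]
    have h2 : ATP n c r u x = ∫ z, bk d z • ∑ k ∈ Finset.range (n + 1), ((k ! : ℝ)⁻¹ •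
      iteratedFDeriv ℝ k u (c + r • z) (fun _ => x - (c + r • z))) := rfl
    rw [h1, h2, ← integral_sub]
    · refine integral_congr_ae (Filter.Eventually.of_forall fun z => ?_)
      show bk d z • u x - bk d z • _ = bk d z • ((n ! : ℝ)⁻¹ • W z)
      rw [← smul_sub]
      congr 1
      nth_rewrite 1 [hT z]
      rw [add_sub_cancel_left]
    · exact Continuous.integrable_of_hasCompactSupport (by fun_prop) (bk_cs _)
    · exact Continuous.integrable_of_hasCompactSupport (by fun_prop) (bk_cs _)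
  rw [e1, real_inner_comm]
  have e2 : ⟪v, ∫ z, bk d z • ((n ! : ℝ)⁻¹ • W z)⟫_ℝ =
      ∫ z, ⟪v, bk d z • ((n ! : ℝ)⁻¹ • W z)⟫_ℝ := by
    have h0 : Integrable (fun z => bk d z • ((n ! : ℝ)⁻¹ • W z)) :=
      Continuous.integrable_of_hasCompactSupport (by fun_prop) (bk_cs _)
    exact ((innerSL ℝ v).integral_comp_comm h0).symm
  rw [e2]
  rw [← setIntegral_eq_integral_of_forall_compl_eq_zero (s := closedBall (0 : Sp d) 1)
    (μ := (volume : Measure (Sp d)))]
  · refine integral_congr_ae (Filter.Eventually.of_forall fun z => ?_)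
    show ⟪v, bk d z • ((n ! : ℝ)⁻¹ • W z)⟫_ℝ = _
    rw [inner_smul_right, inner_smul_right]
    have h0 : Continuous fun s : ℝ => (1 - s) ^ n • iteratedFDeriv ℝ (n + 1) u
        ((c + r • z) + s • (x - (c + r • z))) (fun _ => x - (c + r • z)) := by
      have := hDc (n + 1)
      fun_prop
    have h1 : ⟪v, W z⟫_ℝ = ∫ s in Icc (0 : ℝ) 1, ⟪v, (1 - s) ^ n • iteratedFDeriv ℝ (n + 1) u
        ((c + r • z) + s • (x - (c + r • z))) (fun _ => x - (c + r • z))⟫_ℝ := by
      rw [hW]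
      simp only
      rw [intervalIntegral.integral_of_le zero_le_one, ← integral_Icc_eq_integral_Ioc]
      have h2 : Integrable (fun s : ℝ => (1 - s) ^ n • iteratedFDeriv ℝ (n + 1) u
        ((c + r • z) + s • (x - (c + r • z))) (fun _ => x - (c + r • z)))
        (volume.restrict (Icc (0 : ℝ) 1)) := h0.continuousOn.integrableOn_compact isCompact_Icc
      exact ((innerSL ℝ v).integral_comp_comm h2).symm
    rw [h1, ← integral_const_mul, ← integral_const_mul]
    refine integral_congr_ae (Filter.Eventually.of_forall fun s => ?_)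
    show bk d z * ((n ! : ℝ)⁻¹ * ⟪v, (1 - s) ^ n • iteratedFDeriv ℝ (n + 1) u
        ((c + r • z) + s • (x - (c + r • z))) (fun _ => x - (c + r • z))⟫_ℝ) = _
    have h3 : (c + r • z) + s • (x - (c + r • z)) = (1 - s) • (c + r • z) + s • x := by
      rw [smul_sub, sub_smul, one_smul]
      abel
    rw [h3, inner_smul_right]
    ring
  · intro z hz
    rw [mem_closedBall, dist_zero_right, not_le] at hz
    rw [bk_zero hz.le, zero_smul, inner_zero_right]

end Taylor

section Basis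

variable {d : ℕ} {V E : Type} [NormedAddCommGroup V] [InnerProductSpace ℝ V]
  [FiniteDimensional ℝ V] [NormedAddCommGroup E] [InnerProductSpace ℝ E] [FiniteDimensional ℝ E]

/-- basis vector -/
noncomputable def ei (i : Fin d) : Sp d := EuclideanSpace.single i (1 : ℝ)

/-- product of coordinates -/
noncomputable def Mc {n : ℕ} (al : Fin n → Fin d) :
    ContinuousMultilinearMap ℝ (fun _ : Fin n => Sp d) ℝ :=
  (ContinuousMultilinearMap.mkPiAlgebra ℝ (Fin n) ℝ).compContinuousLinearMap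
    (fun i => EuclideanSpace.proj (al i))

lemma Mc_apply {n : ℕ} (al : Fin n → Fin d) (x : Fin n → Sp d) :
    Mc al x = ∏ i, x i (al i) := by
  unfold Mc
  simp

lemma expand {n : ℕ} (A : ContinuousMultilinearMap ℝ (fun _ : Fin n => Sp d) E) :
    A = ∑ al : Fin n → Fin d, (Mc al).smulRight (A (fun i => ei (al i))) := by
  ext x
  have h1 : x = fun i => ∑ j, x i j • (ei j : Sp d) := by
    funext i
    conv_lhs => rw [← (EuclideanSpace.basisFun (Fin d) ℝ).sum_repr (x i)]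
    refine Finset.sum_congr rfl fun j _ => ?_
    simp [ei]
  conv_lhs => rw [h1]
  have h2 := A.map_sum (fun (i : Fin n) (j : Fin d) => x i j • (ei j : Sp d))
  rw [h2, sum_apply]
  refine Finset.sum_congr rfl fun al _ => ?_
  have h3 := A.map_smul_univ (fun i => x i (al i)) (fun i => (ei (al i) : Sp d))
  rw [h3, ContinuousMultilinearMap.smulRight_apply, Mc_apply]

/-- Riesz representation -/
noncomputable def Rz (E : Type) [NormedAddCommGroup E] [InnerProductSpace ℝ E]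
    [FiniteDimensional ℝ E] : (E →L[ℝ] ℝ) →L[ℝ] E :=
  ∑ i, (ContinuousLinearMap.apply ℝ ℝ (stdOrthonormalBasis ℝ E i)).smulRight
    (stdOrthonormalBasis ℝ E i)

lemma inner_Rz (v : E) (S : E →L[ℝ] ℝ) : ⟪v, Rz E S⟫_ℝ = S v := by
  unfold Rz
  rw [sum_apply, inner_sum]
  conv_rhs => rw [← (stdOrthonormalBasis ℝ E).sum_repr v, map_sum]
  refine Finset.sum_congr rfl fun i _ => ?_
  rw [ContinuousLinearMap.smulRight_apply, inner_smul_right, map_smul, smul_eq_mul,
    OrthonormalBasis.repr_apply_apply, real_inner_comm, mul_comm]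
  rfl

/-- the real inner product as a bilinear map -/
noncomputable def ip (V : Type) [NormedAddCommGroup V] [InnerProductSpace ℝ V] :
    V →L[ℝ] V →L[ℝ] ℝ := (innerₗ V).mkContinuous₂ 1 (fun x y => by
      rw [one_mul]; exact norm_inner_le_norm x y)

lemma ip_apply (v w : V) : ip V v w = ⟪v, w⟫_ℝ := rfl

/-- pairing of a vector with a linear map -/
noncomputable def BL (V E : Type) [NormedAddCommGroup V] [InnerProductSpace ℝ V]
    [NormedAddCommGroup E] [InnerProductSpace ℝ E] :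
    V →L[ℝ] (E →L[ℝ] V) →L[ℝ] (E →L[ℝ] ℝ) :=
  (ContinuousLinearMap.compL ℝ E V ℝ).comp (ip V)

lemma BL_apply (v : V) (P : E →L[ℝ] V) (e : E) : BL V E v P e = ⟪v, P e⟫_ℝ := rfl

/-- evaluation on the diagonal -/
noncomputable def Dg {m : ℕ} (S : E →L[ℝ] (ContinuousMultilinearMap ℝ (fun _ : Fin m => Sp d) V))
    (w : Sp d) : E →L[ℝ] V :=
  (ContinuousMultilinearMap.apply ℝ (fun _ : Fin m => Sp d) V (fun _ => w)).comp S

lemma Dg_apply {m : ℕ} (S : E →L[ℝ] (ContinuousMultilinearMap ℝ (fun _ : Fin m => Sp d) V))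
    (w : Sp d) (e : E) : Dg S w e = S e (fun _ => w) := rfl

lemma Dg_contDiff {m : ℕ}
    (S : E →L[ℝ] (ContinuousMultilinearMap ℝ (fun _ : Fin m => Sp d) V)) :
    ContDiff ℝ ∞ (Dg S) := by
  rw [contDiff_clm_apply_iff]
  intro e
  have h : (fun w => Dg S w e) = fun w => (S e) (fun _ => w) := rfl
  rw [h]
  exact (S e).contDiff.comp (contDiff_pi.mpr fun _ => contDiff_id)

/-- the component of T -/
noncomputable def Sc {n : ℕ} (T : (ContinuousMultilinearMap ℝ (fun _ : Fin n => Sp d) E) →L[ℝ]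
      (ContinuousMultilinearMap ℝ (fun _ : Fin (n + 1) => Sp d) V)) (al : Fin n → Fin d) :
    E →L[ℝ] (ContinuousMultilinearMap ℝ (fun _ : Fin (n + 1) => Sp d) V) :=
  T.comp (ContinuousMultilinearMap.smulRightL ℝ (fun _ : Fin n => Sp d) E (Mc al))

lemma Sc_apply {n : ℕ} (T : (ContinuousMultilinearMap ℝ (fun _ : Fin n => Sp d) E) →L[ℝ]
      (ContinuousMultilinearMap ℝ (fun _ : Fin (n + 1) => Sp d) V)) (al : Fin n → Fin d) (e : E) :
    Sc T al e = T ((Mc al).smulRight e) := rfl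

lemma sum_Sc {n : ℕ} (T : (ContinuousMultilinearMap ℝ (fun _ : Fin n => Sp d) E) →L[ℝ]
      (ContinuousMultilinearMap ℝ (fun _ : Fin (n + 1) => Sp d) V))
    (A : ContinuousMultilinearMap ℝ (fun _ : Fin n => Sp d) E) :
    T A = ∑ al : Fin n → Fin d, Sc T al (A (fun i => ei (al i))) := by
  conv_lhs => rw [expand A, map_sum]
  rfl

end Basis

section Main

variable {d : ℕ} {V E : Type} [NormedAddCommGroup V] [InnerProductSpace ℝ V]
  [FiniteDimensional ℝ V] [NormedAddCommGroup E] [InnerProductSpace ℝ E] [FiniteDimensional ℝ E]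

lemma th1_bd (n : ℕ) {c : Sp d} {r r0 R : ℝ} (hr0 : 0 < r0) (hr : r0 ≤ r)
    {x : Sp d} (hx : ‖x‖ ≤ R) {s : ℝ} (hs : s ∈ Icc (0 : ℝ) (1 / 2)) {p : Sp d}
    (hp : ‖p‖ ≤ 2 * R) :
    |(th1 n c r (x, s)).1| ≤ (2 / r0) ^ d + 2 ^ d ∧ |(th1 n c r (x, s)).2.1| ≤ 2 + 2 / r0 ∧
    |(th1 n c r (x, s)).2.2.2.1| ≤ 2 ∧ |(th1 n c r (x, s)).2.2.2.2.2.1| ≤ 2 ∧
    ‖(th1 n c r (x, s)).2.2.2.1 • p + (th1 n c r (x, s)).2.2.2.2.1‖ ≤ 8 * R := by
  have hR : 0 ≤ R := (norm_nonneg _).trans hx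
  have hrp : 0 < r := lt_of_lt_of_le hr0 hr
  have hm := m1_inv s
  have hmp := m1_pos s
  have hmi : 0 < (m1 s)⁻¹ := inv_pos.mpr hmp
  have h1 : (m1 s * r)⁻¹ ≤ 2 / r0 := by
    rw [mul_inv, div_eq_mul_inv]
    have : r⁻¹ ≤ r0⁻¹ := inv_anti₀ hr0 hr
    gcongr
  have h1p : 0 < (m1 s * r)⁻¹ := by positivity
  have hs1 : 0 ≤ 1 - s := by linarith [hs.2]
  have hs2 : 1 - s ≤ 1 := by linarith [hs.1]
  refine ⟨?_, ?_, ?_, ?_, ?_⟩
  · simp only [th1]
    rw [abs_of_nonneg (by positivity)]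
    have e1 : (n ! : ℝ)⁻¹ ≤ 1 := inv_le_one_of_one_le₀ (by exact_mod_cast Nat.one_le_iff_ne_zero.mpr (Nat.factorial_ne_zero n))
    have e2 : (1 - s) ^ n ≤ 1 := pow_le_one₀ hs1 hs2
    have e3 : ((m1 s * r)⁻¹) ^ d ≤ (2 / r0) ^ d := by gcongr
    calc (n ! : ℝ)⁻¹ * (1 - s) ^ n * ((m1 s * r)⁻¹) ^ d ≤ 1 * 1 * (2 / r0) ^ d := by gcongr
      _ ≤ _ := by
          have : (0 : ℝ) < 2 ^ d := by positivity
          linarith
  · simp only [th1]
    rw [abs_of_pos h1p]
    linarith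
  · simp only [th1]
    rw [abs_neg, abs_of_pos hmi]
    exact hm
  · simp only [th1]
    rw [abs_zero]; norm_num
  · simp only [th1]
    calc ‖-(m1 s)⁻¹ • p + (m1 s)⁻¹ • x‖ ≤ ‖-(m1 s)⁻¹ • p‖ + ‖(m1 s)⁻¹ • x‖ := norm_add_le _ _
      _ = (m1 s)⁻¹ * ‖p‖ + (m1 s)⁻¹ * ‖x‖ := by
          rw [norm_smul, norm_smul, norm_neg, Real.norm_of_nonneg hmi.le]
      _ ≤ 2 * (2 * R) + 2 * R := by gcongr
      _ ≤ 8 * R := by linarith

lemma th2_bd (n : ℕ) {c : Sp d} {r r0 R : ℝ} (hr0 : 0 < r0) (hr : r0 ≤ r) (hrR : r ≤ R)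
    (hc : ‖c‖ ≤ R)
    {z : Sp d} (hz : ‖z‖ ≤ 1) {s : ℝ} (hs : s ∈ Icc (1 / 2 : ℝ) 1) {p : Sp d}
    (hp : ‖p‖ ≤ 2 * R) :
    |(th2 n c r (z, s)).1| ≤ (2 / r0) ^ d + 2 ^ d ∧ |(th2 n c r (z, s)).2.1| ≤ 2 + 2 / r0 ∧
    |(th2 n c r (z, s)).2.2.2.1| ≤ 2 ∧ |(th2 n c r (z, s)).2.2.2.2.2.1| ≤ 2 ∧
    ‖(th2 n c r (z, s)).2.2.2.1 • p + (th2 n c r (z, s)).2.2.2.2.1‖ ≤ 8 * R := by
  have hR : 0 ≤ R := (norm_nonneg _).trans hc
  have hrp : 0 < r := lt_of_lt_of_le hr0 hr
  have hm := m2_inv s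
  have hmp := m2_pos s
  have hmi : 0 < (m2 s)⁻¹ := inv_pos.mpr hmp
  have hs1 : 0 ≤ 1 - s := by linarith [hs.2]
  have hs2 : 1 - s ≤ 1 := by linarith [hs.1]
  refine ⟨?_, ?_, ?_, ?_, ?_⟩
  · simp only [th2]
    rw [abs_of_nonneg (by positivity)]
    have e1 : (n ! : ℝ)⁻¹ ≤ 1 := inv_le_one_of_one_le₀ (by exact_mod_cast Nat.one_le_iff_ne_zero.mpr (Nat.factorial_ne_zero n))
    have e2 : (1 - s) ^ n ≤ 1 := pow_le_one₀ hs1 hs2
    have e3 : ((m2 s)⁻¹) ^ d ≤ 2 ^ d := by gcongr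
    calc (n ! : ℝ)⁻¹ * (1 - s) ^ n * ((m2 s)⁻¹) ^ d ≤ 1 * 1 * 2 ^ d := by gcongr
      _ ≤ _ := by
          have : (0 : ℝ) < (2 / r0) ^ d := by positivity
          linarith
  · simp only [th2]
    rw [abs_zero]; positivity
  · simp only [th2]
    rw [abs_of_pos hmi]
    exact hm
  · simp only [th2]
    rw [abs_of_pos hmi]
    exact hm
  · simp only [th2]
    have h3 : ‖c + r • z‖ ≤ 2 * R := by
      calc ‖c + r • z‖ ≤ ‖c‖ + ‖r • z‖ := norm_add_le _ _
        _ = ‖c‖ + r * ‖z‖ := by rw [norm_smul, Real.norm_of_nonneg hrp.le]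
        _ ≤ R + R * 1 := by gcongr
        _ = 2 * R := by ring
    calc ‖(m2 s)⁻¹ • p + -((m2 s)⁻¹ • (c + r • z))‖ ≤ ‖(m2 s)⁻¹ • p‖ +
          ‖-((m2 s)⁻¹ • (c + r • z))‖ := norm_add_le _ _
      _ = (m2 s)⁻¹ * ‖p‖ + (m2 s)⁻¹ * ‖c + r • z‖ := by
          rw [norm_neg, norm_smul, norm_smul, Real.norm_of_nonneg hmi.le]
      _ ≤ 2 * (2 * R) + 2 * (2 * R) := by gcongr
      _ ≤ 8 * R := by linarith

/-- the result for one component -/
lemma one_comp (n : ℕ) (S : E →L[ℝ] (ContinuousMultilinearMap ℝ (fun _ : Fin (n + 1) => Sp d) V))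
    (al : Fin n → Fin d) (J : ℕ) (r0 R : ℝ) (hr0 : 0 < r0) (_hR : r0 ≤ R) : ∃ C : ℝ, 0 < C ∧
      ∀ (c : Sp d) (r : ℝ), ‖c‖ ≤ R → r0 ≤ r → r ≤ R →
      ∀ (g : Sp d → V) (N : ℝ), TFn (J + n + 1) N g → (∀ y, R ≤ ‖y‖ → g y = 0) →
      ∃ Psi : Sp d → (E →L[ℝ] ℝ), ContDiff ℝ J Psi ∧
        (∀ j ≤ J, ∀ p, ‖iteratedFDeriv ℝ j Psi p‖ ≤ C * N) ∧ tsupport Psi ⊆ SS g c r ∧
        ∀ f : Sp d → E, ContDiff ℝ ∞ f →
          ∫ x in closedBall (0 : Sp d) R, ∫ z in closedBall (0 : Sp d) 1, ∫ s in Icc (0 : ℝ) 1,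
            Gt n c r (ContinuousLinearMap.id ℝ (E →L[ℝ] ℝ)) (BL V E) (Dg S) g
              (fun p => iteratedFDeriv ℝ n f p (fun i => ei (al i))) x z s =
          ∫ p, Psi p (f p) := by
  obtain ⟨C, hC, hb⟩ := HH_bd (BL V E) (Dg_contDiff S) (J + n) (2 + 2 / r0) (8 * R)
    ((2 / r0) ^ d + 2 ^ d) (by have : 0 < 2 / r0 := by positivity
                               linarith) (by positivity)
  set v1 : ℝ := (volume : Measure (Sp d × ℝ)).real (closedBall (0 : Sp d) R ×ˢ Icc (0 : ℝ) (1 / 2))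
    with hv1
  set v2 : ℝ := (volume : Measure (Sp d × ℝ)).real (closedBall (0 : Sp d) 1 ×ˢ Icc (1 / 2 : ℝ) 1)
    with hv2
  have hv1p : 0 ≤ v1 := measureReal_nonneg
  have hv2p : 0 ≤ v2 := measureReal_nonneg
  refine ⟨C * v1 + C * v2 + 1, by positivity, ?_⟩
  intro c r hc hr hrR g N hg hgR
  have hR0 : 0 ≤ R := (norm_nonneg _).trans hc
  have hrp : 0 < r := lt_of_lt_of_le hr0 hr
  have hN : 0 ≤ N := (norm_nonneg _).trans (hg.bd 0 (Nat.zero_le _) 0)
  have hg' : TFn (J + n) N g := ⟨hg.smooth.of_le (by norm_cast; omega), fun j hj => hg.bd j (by omega)⟩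
  have hgc : Continuous g := hg.smooth.continuous
  have hgs : HasCompactSupport g := by
    refine HasCompactSupport.intro (isCompact_closedBall (0 : Sp d) R) fun y hy => ?_
    rw [mem_closedBall, dist_zero_right, not_le] at hy
    exact hgR y hy.le
  have hSc : Continuous (Dg S) := (Dg_contDiff S).continuous
  have hSScl : IsClosed (SS g c r) := (SS_compact hgs c r).isClosed
  have hball := SS_ball hgR hc hrR
  -- the two kernels
  obtain ⟨a1, a2⟩ := Lm_props (BL V E) (Dg_contDiff S) hg'.smooth (th1_cont n c hrp)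
    (isCompact_closedBall (0 : Sp d) R) (isCompact_Icc (a := (0 : ℝ)) (b := 1 / 2)) hSScl
    (fun x _ s hs p hp => supp1 hrp hs hp) (C := C * N) (by
      intro p hp x hx s hs j hj
      have hx' : ‖x‖ ≤ R := by simpa using hx
      have hp' : ‖p‖ ≤ 2 * R := by simpa using hball hp
      obtain ⟨q1, q2, q3, q4, q5⟩ := th1_bd n (c := c) hr0 hr hx' hs hp'
      exact hb g N hg' _ p q1 q2 q3 q4 q5 j hj) (by positivity)
  obtain ⟨b1, b2⟩ := Lm_props (BL V E) (Dg_contDiff S) hg'.smooth (th2_cont n c r)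
    (isCompact_closedBall (0 : Sp d) 1) (isCompact_Icc (a := (1 / 2 : ℝ)) (b := 1)) hSScl
    (fun x _ s hs p hp => supp2 hrp hs hp) (C := C * N) (by
      intro p hp z hz s hs j hj
      have hz' : ‖z‖ ≤ 1 := by simpa using hz
      have hp' : ‖p‖ ≤ 2 * R := by simpa using hball hp
      obtain ⟨q1, q2, q3, q4, q5⟩ := th2_bd n (c := c) hr0 hr hrR hc hz' hs hp'
      exact hb g N hg' _ p q1 q2 q3 q4 q5 j hj) (by positivity)
  set L1 := Lm (BL V E) (Dg S) g (th1 n c r) (closedBall (0 : Sp d) R) (Icc (0 : ℝ) (1 / 2)) with hL1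
  set L2 := Lm (BL V E) (Dg S) g (th2 n c r) (closedBall (0 : Sp d) 1) (Icc (1 / 2 : ℝ) 1) with hL2
  have z1 : ∀ p, p ∉ SS g c r → L1 p = 0 := fun p hp =>
    Lm_zero (BL V E) (fun x _ s hs p hp => supp1 hrp hs hp) hp
  have z2 : ∀ p, p ∉ SS g c r → L2 p = 0 := fun p hp =>
    Lm_zero (BL V E) (fun x _ s hs p hp => supp2 hrp hs hp) hp
  have hts : tsupport (fun p => L1 p + L2 p) ⊆ SS g c r := by
    refine closure_minimal (fun p hp => ?_) hSScl
    by_contra h
    rw [Function.mem_support] at hp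
    exact hp (by rw [z1 p h, z2 p h, add_zero])
  have hcs : HasCompactSupport (fun p => L1 p + L2 p) :=
    (SS_compact hgs c r).of_isClosed_subset (isClosed_tsupport _) hts
  have hbd : ∀ j ≤ J + n, ∀ p, ‖iteratedFDeriv ℝ j (fun p => L1 p + L2 p) p‖ ≤
      (C * v1 + C * v2 + 1) * N := by
    intro j hj p
    have e1 : iteratedFDeriv ℝ j (fun p => L1 p + L2 p) p =
        iteratedFDeriv ℝ j L1 p + iteratedFDeriv ℝ j L2 p :=
      iteratedFDeriv_add_apply ((a1.of_le (by exact_mod_cast hj)).contDiffAt)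
        ((b1.of_le (by exact_mod_cast hj)).contDiffAt)
    rw [e1]
    calc _ ≤ ‖iteratedFDeriv ℝ j L1 p‖ + ‖iteratedFDeriv ℝ j L2 p‖ := norm_add_le _ _
      _ ≤ C * N * v1 + C * N * v2 := add_le_add (a2 j hj p) (b2 j hj p)
      _ ≤ _ := by nlinarith
  obtain ⟨Psi, hP1, hP2, hP3, hP4⟩ := ibp (ContinuousLinearMap.id ℝ (E →L[ℝ] ℝ)) n
    (fun i => ei (al i)) (fun i => by simp [ei]) J (fun p => L1 p + L2 p) _ (a1.add b1) hcs hbd
  refine ⟨Psi, hP1, hP2, hP3.trans hts, ?_⟩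
  intro f hf
  have hhc : Continuous (fun p => iteratedFDeriv ℝ n f p (fun i => (ei (al i) : Sp d))) := by
    have : Continuous (iteratedFDeriv ℝ n f) :=
      hf.continuous_iteratedFDeriv (by exact_mod_cast le_top)
    fun_prop
  rw [triple n hrp hc hrR (ContinuousLinearMap.id ℝ (E →L[ℝ] ℝ)) (BL V E) hSc hgc hgR hhc]
  have h4 := hP4 f hf
  simp only [ContinuousLinearMap.id_apply] at h4 ⊢
  rw [← h4, ← integral_add]
  · rfl
  · have h5 : Continuous fun p => L1 p (iteratedFDeriv ℝ n f p (fun i => (ei (al i) : Sp d))) :=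
      a1.continuous.clm_apply hhc
    refine h5.integrable_of_hasCompactSupport (HasCompactSupport.intro (SS_compact hgs c r) ?_)
    intro p hp
    rw [z1 p hp, zero_apply]
  · have h5 : Continuous fun p => L2 p (iteratedFDeriv ℝ n f p (fun i => (ei (al i) : Sp d))) :=
      b1.continuous.clm_apply hhc
    refine h5.integrable_of_hasCompactSupport (HasCompactSupport.intro (SS_compact hgs c r) ?_)
    intro p hp
    rw [z2 p hp, zero_apply]

lemma triple_sum {ι : Type} [Fintype ι] (G : ι → Sp d × Sp d × ℝ → ℝ) (hG : ∀ i, Continuous (G i))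
    (R : ℝ) :
    ∫ x in closedBall (0 : Sp d) R, ∫ z in closedBall (0 : Sp d) 1, ∫ s in Icc (0 : ℝ) 1,
      ∑ i, G i (x, z, s) =
    ∑ i, ∫ x in closedBall (0 : Sp d) R, ∫ z in closedBall (0 : Sp d) 1, ∫ s in Icc (0 : ℝ) 1,
      G i (x, z, s) := by
  have hGz : ∀ i x, Continuous fun q : Sp d × ℝ => G i (x, q.1, q.2) := fun i x =>
    (hG i).comp (f := fun q : Sp d × ℝ => (x, q.1, q.2)) (by fun_prop)
  have hGs : ∀ i x z, Continuous fun s : ℝ => G i (x, z, s) := fun i x z =>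
    (hGz i x).comp (f := fun s : ℝ => (z, s)) (by fun_prop)
  have hI : ∀ i, Continuous fun q : Sp d × Sp d => ∫ s in Icc (0 : ℝ) 1, G i (q.1, q.2, s) := by
    intro i
    refine continuous_parametric_integral_of_continuous (X := Sp d × Sp d)
      (f := fun q s => G i (q.1, q.2, s)) ?_ isCompact_Icc
    exact (hG i).comp (f := fun q : (Sp d × Sp d) × ℝ => (q.1.1, q.1.2, q.2)) (by fun_prop)
  have hIz : ∀ i x, Continuous fun z : Sp d => ∫ s in Icc (0 : ℝ) 1, G i (x, z, s) := fun i x =>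
    (hI i).comp (f := fun z : Sp d => (x, z)) (by fun_prop)
  have hJ : ∀ i, Continuous fun x : Sp d =>
      ∫ z in closedBall (0 : Sp d) 1, ∫ s in Icc (0 : ℝ) 1, G i (x, z, s) := by
    intro i
    exact continuous_parametric_integral_of_continuous (X := Sp d)
      (f := fun x z => ∫ s in Icc (0 : ℝ) 1, G i (x, z, s)) (hI i) (isCompact_closedBall _ _)
  rw [← integral_finsetSum]
  · refine integral_congr_ae (Filter.Eventually.of_forall fun x => ?_)
    show ∫ z in closedBall (0 : Sp d) 1, ∫ s in Icc (0 : ℝ) 1, ∑ i, G i (x, z, s) =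
      ∑ i, ∫ z in closedBall (0 : Sp d) 1, ∫ s in Icc (0 : ℝ) 1, G i (x, z, s)
    rw [← integral_finsetSum]
    · refine integral_congr_ae (Filter.Eventually.of_forall fun z => ?_)
      show ∫ s in Icc (0 : ℝ) 1, ∑ i, G i (x, z, s) = ∑ i, ∫ s in Icc (0 : ℝ) 1, G i (x, z, s)
      rw [← integral_finsetSum]
      intro i _
      exact (hGs i x z).continuousOn.integrableOn_compact isCompact_Icc
    · intro i _
      exact (hIz i x).continuousOn.integrableOn_compact (isCompact_closedBall _ _)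
  · intro i _
    exact (hJ i).continuousOn.integrableOn_compact (isCompact_closedBall _ _)

end Main

end TP

open TP in
theorem stmtTP : StmtTP := by
  intro d V E _ _ _ _ _ _ L n T _hd _hn hNS J r0 R hr0 hR
  have h1 := fun al : Fin n → Fin d => one_comp n (Sc T al) al J r0 R hr0 hR
  choose C hC hmain using h1
  refine ⟨‖Rz E‖ * (∑ al, C al) + 1, ?_, ?_⟩
  · have : 0 ≤ ∑ al, C al := Finset.sum_nonneg fun al _ => (hC al).le
    positivity
  intro c r hc hr hrR g N hg hgR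
  have hR0 : 0 ≤ R := (norm_nonneg _).trans hc
  have hN : 0 ≤ N := (norm_nonneg _).trans (hg.bd 0 (Nat.zero_le _) 0)
  have hgc : Continuous g := hg.smooth.continuous
  have hgs : HasCompactSupport g := by
    refine HasCompactSupport.intro (isCompact_closedBall (0 : Sp d) R) fun y hy => ?_
    rw [mem_closedBall, dist_zero_right, not_le] at hy
    exact hgR y hy.le
  choose Psi hP1 hP2 hP3 hP4 using fun al => hmain al c r hc hr hrR g N hg hgR
  have hsum : ContDiff ℝ J (fun p => ∑ al, Psi al p) := ContDiff.sum fun al _ => hP1 al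
  have hsb : ∀ j ≤ J, ∀ p, ‖iteratedFDeriv ℝ j (fun p => ∑ al, Psi al p) p‖ ≤
      (∑ al, C al) * N := by
    intro j hj p
    have e1 := iteratedFDeriv_sum (𝕜 := ℝ) (u := (Finset.univ : Finset (Fin n → Fin d)))
      (f := Psi) (i := j) (fun al _ => (hP1 al).of_le (by exact_mod_cast hj))
    rw [e1, Finset.sum_apply, Finset.sum_mul]
    exact (norm_sum_le _ _).trans (Finset.sum_le_sum fun al _ => hP2 al j hj p)
  refine ⟨fun p => Rz E (∑ al, Psi al p), ⟨(Rz E).contDiff.comp hsum, ?_⟩, ?_, ?_⟩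
  · intro j hj p
    have e2 := (Rz E).norm_iteratedFDeriv_comp_left (hsum.contDiffAt (x := p)) (n := j)
      (by exact_mod_cast hj)
    calc ‖iteratedFDeriv ℝ j (fun p => Rz E (∑ al, Psi al p)) p‖ ≤ _ := e2
      _ ≤ ‖Rz E‖ * ((∑ al, C al) * N) := by
          gcongr
          exact hsb j hj p
      _ ≤ _ := by nlinarith
  · intro y hy
    apply SS_hull g c r
    by_contra h
    apply hy
    have : ∀ al, Psi al y = 0 := fun al => by
      by_contra h2
      exact h (hP3 al (subset_closure h2))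
    simp only [this, Finset.sum_const_zero, map_zero]
  · intro u hu
    have hf : ContDiff ℝ ∞ (fo L u) := by
      have : ContDiff ℝ ∞ (fderiv ℝ u) := hu.fderiv_right (m := ∞) le_rfl
      exact L.contDiff.comp this
    -- the components
    set Gc : (Fin n → Fin d) → Sp d × Sp d × ℝ → ℝ := fun al q =>
      Gt n c r (ContinuousLinearMap.id ℝ (E →L[ℝ] ℝ)) (BL V E) (Dg (Sc T al)) g
        (fun p => iteratedFDeriv ℝ n (fo L u) p (fun i => ei (al i))) q.1 q.2.1 q.2.2 with hGc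
    have hGcc : ∀ al, Continuous (Gc al) := by
      intro al
      have hDf : Continuous (iteratedFDeriv ℝ n (fo L u)) :=
        hf.continuous_iteratedFDeriv (by exact_mod_cast le_top)
      exact Gt_cont n c r _ (BL V E) (Dg_contDiff _).continuous hgc (by fun_prop)
    have e1 : ∫ x, ⟪u x - ATP n c r u x, g x⟫_ℝ =
        ∫ x in closedBall (0 : Sp d) R, ⟪u x - ATP n c r u x, g x⟫_ℝ := by
      refine (setIntegral_eq_integral_of_forall_compl_eq_zero fun x hx => ?_).symm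
      rw [mem_closedBall, dist_zero_right, not_le] at hx
      rw [hgR x hx.le, inner_zero_right]
    have e2 : ∫ x in closedBall (0 : Sp d) R, ⟪u x - ATP n c r u x, g x⟫_ℝ =
        ∫ x in closedBall (0 : Sp d) R, ∫ z in closedBall (0 : Sp d) 1, ∫ s in Icc (0 : ℝ) 1,
          ∑ al, Gc al (x, z, s) := by
      refine integral_congr_ae (Filter.Eventually.of_forall fun x => ?_)
      show ⟪u x - ATP n c r u x, g x⟫_ℝ = _
      rw [taylor_id hu n c r x (g x)]
      refine integral_congr_ae (Filter.Eventually.of_forall fun z => ?_)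
      refine integral_congr_ae (Filter.Eventually.of_forall fun s => ?_)
      show bk d z * ((n ! : ℝ)⁻¹ * (1 - s) ^ n) *
          ⟪g x, iteratedFDeriv ℝ (n + 1) u ((1 - s) • (c + r • z) + s • x)
            (fun _ => x - (c + r • z))⟫_ℝ = ∑ al, bk d z * ((n ! : ℝ)⁻¹ * (1 - s) ^ n) *
          ⟪g x, Sc T al (iteratedFDeriv ℝ n (fo L u) ((1 - s) • (c + r • z) + s • x)
            (fun i => ei (al i))) (fun _ => x - (c + r • z))⟫_ℝ
      rw [← Finset.mul_sum, hNS u hu, sum_Sc T, sum_apply, inner_sum]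
    rw [e1, e2, triple_sum Gc hGcc R]
    have e3 : ∀ p, ⟪fo L u p, Rz E (∑ al, Psi al p)⟫_ℝ = ∑ al, Psi al p (fo L u p) := by
      intro p
      rw [inner_Rz, sum_apply]
    simp_rw [e3]
    rw [integral_finsetSum]
    · exact Finset.sum_congr rfl fun al _ => hP4 al (fo L u) hf
    · intro al _
      have h5 : Continuous fun p => Psi al p (fo L u p) :=
        (hP1 al).continuous.clm_apply hf.continuous
      refine h5.integrable_of_hasCompactSupport (HasCompactSupport.intro (SS_compact hgs c r) ?_)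
      intro p hp
      have : Psi al p = 0 := by
        by_contra h2
        exact hp (hP3 al (subset_closure h2))
      rw [this, zero_apply]

end TG
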