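import Pool.Agent.TG.Stmts2
import Pool.Agent.TG.TP

/-!
# Tools for the modules SHA and HU (MP_287c87_an; helper22)

Test functions of the height over a plane, estimates of the pairing of the field with tests
supported on one side of a plane, tests vanishing quadratically on a plane.
-/

set_option linter.unusedSectionVars false

open MeasureTheory Metric Set TrI
open scoped InnerProductSpace ContDiff

namespace TG
namespace SH

variable {d : ℕ}

section Basic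

variable {F : Type*} [NormedAddCommGroup F] [NormedSpace ℝ F]

theorem lev_unit (n : ℕ) : lev ((1 / 2 : ℝ) ^ n) n = 1 := by
  unfold lev
  rw [← mul_pow]
  norm_num

theorem ma_unit {E : Type} [NormedAddCommGroup E] [InnerProductSpace ℝ E] (b : Sp d → ℝ)
    (ε R0 : ℝ) (f : Sp d → E) (n : ℕ) :
    ma b ε R0 ((1 / 2) ^ n) f n 0 =
      ∫ y in ball (0 : Sp d) R0, ‖fl b ε ((1 / 2) ^ n) f (n - 1) y‖ := by
  unfold ma
  rw [lev_unit]
  simp

theorem bb_unit {E : Type} [NormedAddCommGroup E] [InnerProductSpace ℝ E]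
    (R0 : ℝ) (f : Sp d → E) (n : ℕ) (e : E) (ν : Sp d) (c : ℝ) :
    bb R0 ((1 / 2) ^ n) f n 0 e ν c =
      ∫ y, ⟪f y, e⟫_ℝ * (zR R0 y * ht ν c y ^ 2) := by
  unfold bb
  rw [lev_unit]
  simp

theorem tfn_nonneg {J : ℕ} {N : ℝ} {g : Sp d → F} (h : TFn J N g) : 0 ≤ N :=
  (norm_nonneg _).trans (h.bd 0 (Nat.zero_le _) 0)

theorem tfn_le {J J' : ℕ} {N N' : ℝ} {g : Sp d → F} (h : TFn J N g) (hJ : J' ≤ J)
    (hN : N ≤ N') : TFn J' N' g :=
  ⟨h.smooth.of_le (by exact_mod_cast hJ), fun j hj x => (h.bd j (hj.trans hJ) x).trans hN⟩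

theorem tfn_norm_le {J : ℕ} {N : ℝ} {g : Sp d → F} (h : TFn J N g) (x : Sp d) : ‖g x‖ ≤ N := by
  have := h.bd 0 (Nat.zero_le _) x
  rwa [norm_iteratedFDeriv_zero] at this

theorem tfn_clm {F' : Type*} [NormedAddCommGroup F'] [NormedSpace ℝ F'] (A : F →L[ℝ] F')
    {J : ℕ} {N : ℝ} {g : Sp d → F} (h : TFn J N g) : TFn J (‖A‖ * N) (fun x => A (g x)) := by
  refine ⟨A.contDiff.comp h.smooth, fun j hj x => ?_⟩
  refine (A.norm_iteratedFDeriv_comp_left (h.smooth.contDiffAt (x := x)) (n := j)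
    (by exact_mod_cast hj)).trans ?_
  gcongr
  exact h.bd j hj x

theorem tfn_add {J : ℕ} {N N' : ℝ} {g g' : Sp d → F} (h : TFn J N g) (h' : TFn J N' g') :
    TFn J (N + N') (fun x => g x + g' x) := by
  refine ⟨h.smooth.add h'.smooth, fun j hj x => ?_⟩
  have e1 : iteratedFDeriv ℝ j (fun x => g x + g' x) x =
      iteratedFDeriv ℝ j g x + iteratedFDeriv ℝ j g' x :=
    iteratedFDeriv_add_apply ((h.smooth.of_le (by exact_mod_cast hj)).contDiffAt)
      ((h'.smooth.of_le (by exact_mod_cast hj)).contDiffAt)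
  rw [e1]
  exact (norm_add_le _ _).trans (add_le_add (h.bd j hj x) (h'.bd j hj x))

theorem tfn_fderiv {J : ℕ} {N : ℝ} {g : Sp d → F} (h : TFn (J + 1) N g) :
    TFn J N (fderiv ℝ g) := by
  refine ⟨h.smooth.fderiv_right (by norm_cast), fun j hj x => ?_⟩
  rw [norm_iteratedFDeriv_fderiv]
  exact h.bd (j + 1) (by omega) x

/-- a function with compact support has bounded derivatives -/
theorem tfn_of_cs {J : ℕ} {g : Sp d → F} (h : ContDiff ℝ J g) (hc : HasCompactSupport g) :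
    ∃ N : ℝ, 0 < N ∧ TFn J N g := by
  have h1 : ∀ j : ℕ, ∃ N : ℝ, j ≤ J → ∀ x, ‖iteratedFDeriv ℝ j g x‖ ≤ N := by
    intro j
    by_cases hj : j ≤ J
    · obtain ⟨N, hN⟩ := (hc.iteratedFDeriv (𝕜 := ℝ) j).exists_bound_of_continuous
        (h.continuous_iteratedFDeriv (by exact_mod_cast hj))
      exact ⟨N, fun _ => hN⟩
    · exact ⟨0, fun h => absurd h hj⟩
  choose N hN using h1
  refine ⟨∑ j ∈ Finset.range (J + 1), |N j| + 1, by positivity, h, fun j hj x => ?_⟩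
  have h2 := Finset.single_le_sum (f := fun j => |N j|) (fun i _ => abs_nonneg (N i))
    (Finset.mem_range.2 (Nat.lt_succ_of_le hj))
  have h3 := hN j hj x
  have h4 := le_abs_self (N j)

  linarith

end Basic

section Height

theorem ht_contDiff {k : WithTop ℕ∞} (ν : Sp d) (c : ℝ) : ContDiff ℝ k (ht ν c) := by
  unfold ht
  exact (innerSL ℝ ν).contDiff.sub contDiff_const

theorem ht_continuous (ν : Sp d) (c : ℝ) : Continuous (ht ν c) :=
  (ht_contDiff (k := 0) ν c).continuous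

theorem abs_ht_le {ν : Sp d} (hν : ‖ν‖ = 1) (c : ℝ) (y : Sp d) : |ht ν c y| ≤ ‖y‖ + |c| := by
  unfold ht
  have h1 := abs_real_inner_le_norm ν y
  rw [hν, one_mul] at h1
  calc |⟪ν, y⟫_ℝ - c| ≤ |⟪ν, y⟫_ℝ| + |c| := abs_sub _ _
    _ ≤ _ := by linarith

/-- derivatives of a function of the height -/
theorem comp_ht {k : ℕ} {a : ℝ → ℝ} (ha : ContDiff ℝ k a) {ν : Sp d} (hν : ‖ν‖ = 1) (c : ℝ)
    (p : Sp d) {j : ℕ} (hj : j ≤ k) :
    ‖iteratedFDeriv ℝ j (fun y => a (ht ν c y)) p‖ ≤ |iteratedDeriv j a (ht ν c p)| := by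
  have ha2 : ContDiff ℝ k (fun t => a (t + (-c))) := ha.comp (contDiff_id.add contDiff_const)
  have h := (innerSL ℝ ν).iteratedFDeriv_comp_right ha2 p (i := j) (by exact_mod_cast hj)
  have h1 : (fun t => a (t + (-c))) ∘ (innerSL ℝ ν) = fun y => a (ht ν c y) := by
    funext y
    simp [ht, sub_eq_add_neg]
  rw [h1] at h
  rw [h, iteratedFDeriv_comp_add_right]
  refine (ContinuousMultilinearMap.norm_compContinuousLinearMap_le _ _).trans ?_
  rw [Finset.prod_const, Finset.card_univ, Fintype.card_fin, innerSL_apply_norm, hν, one_pow,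
    mul_one, norm_iteratedFDeriv_eq_norm_iteratedDeriv, Real.norm_eq_abs]
  have h2 : (innerSL ℝ ν) p + -c = ht ν c p := by simp [ht, sub_eq_add_neg]
  rw [h2]

theorem comp_ht_contDiff {k : WithTop ℕ∞} {a : ℝ → ℝ} (ha : ContDiff ℝ k a) (ν : Sp d) (c : ℝ) :
    ContDiff ℝ k (fun y => a (ht ν c y)) := ha.comp (ht_contDiff ν c)

/-- product of a function of the height and a test -/
theorem tfn_htmul {F : Type} [NormedAddCommGroup F] [NormedSpace ℝ F] {J : ℕ} {a : ℝ → ℝ}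
    (ha : ContDiff ℝ J a) {A : ℝ} (hA : ∀ j ≤ J, ∀ t, |iteratedDeriv j a t| ≤ A)
    {ν : Sp d} (hν : ‖ν‖ = 1) (c : ℝ) {N : ℝ} {g : Sp d → F} (hg : TFn J N g) :
    TFn J (2 ^ J * A * N) (fun y => a (ht ν c y) • g y) := by
  refine ⟨(comp_ht_contDiff ha ν c).smul hg.smooth, fun j hj x => ?_⟩
  have h := TP.leib (ContinuousLinearMap.lsmul ℝ ℝ : ℝ →L[ℝ] F →L[ℝ] F)
    (comp_ht_contDiff ha ν c) hg.smooth x (N1 := A) (N2 := N)
    (fun j hj => (comp_ht ha hν c x hj).trans (hA j hj _)) (fun j hj => hg.bd j hj x) j hj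
  have hA0 : 0 ≤ A := (abs_nonneg _).trans (hA 0 (Nat.zero_le _) 0)
  have hN0 := tfn_nonneg hg
  refine h.trans ?_
  have h2 : ‖(ContinuousLinearMap.lsmul ℝ ℝ : ℝ →L[ℝ] F →L[ℝ] F)‖ ≤ 1 :=
    ContinuousLinearMap.opNorm_lsmul_le
  calc 2 ^ J * ‖(ContinuousLinearMap.lsmul ℝ ℝ : ℝ →L[ℝ] F →L[ℝ] F)‖ * A * N
      ≤ 2 ^ J * 1 * A * N := by gcongr
    _ = _ := by ring

end Height

section Cut

theorem zR_contDiff {k : ℕ} {R : ℝ} (hR : 0 < R) : ContDiff ℝ k (zR R : Sp d → ℝ) := by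
  rw [contDiff_iff_contDiffAt]
  intro x
  by_cases hx : x = 0
  · subst hx
    have h : (fun _ : Sp d => (1 : ℝ)) =ᶠ[nhds (0 : Sp d)] zR R := by
      filter_upwards [Metric.ball_mem_nhds (0 : Sp d) hR] with y hy
      rw [mem_ball_zero_iff] at hy
      exact (Real.smoothTransition.one_of_one_le (by linarith)).symm
    exact contDiffAt_const.congr_of_eventuallyEq h.symm
  · unfold zR
    exact Real.smoothTransition.contDiff.contDiffAt.comp x
      (contDiffAt_const.sub (contDiffAt_norm ℝ hx))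

theorem zR_nonneg (R : ℝ) (x : Sp d) : 0 ≤ zR R x := Real.smoothTransition.nonneg _

theorem zR_le_one (R : ℝ) (x : Sp d) : zR R x ≤ 1 := Real.smoothTransition.le_one _

theorem zR_one {R : ℝ} {x : Sp d} (h : ‖x‖ ≤ R) : zR R x = 1 :=
  Real.smoothTransition.one_of_one_le (by linarith)

theorem zR_zero {R : ℝ} {x : Sp d} (h : R + 1 ≤ ‖x‖) : zR R x = 0 :=
  Real.smoothTransition.zero_of_nonpos (by linarith)

theorem zR_cs (R : ℝ) : HasCompactSupport (zR R : Sp d → ℝ) := by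
  refine HasCompactSupport.intro (isCompact_closedBall (0 : Sp d) (R + 1)) fun y hy => ?_
  rw [mem_closedBall_zero_iff, not_le] at hy
  exact zR_zero hy.le

/-- the quadratic weight of a plane -/
theorem zq_tfn {R : ℝ} (hR : 0 < R) (J : ℕ) : ∃ K : ℝ, 1 ≤ K ∧ ∀ (ν : Sp d) (c : ℝ), ‖ν‖ = 1 →
    |c| ≤ 3 * R → TFn J K (fun y => zR R y * ht ν c y ^ 2) := by
  obtain ⟨N, hN0, hN⟩ := tfn_of_cs (d := d) (zR_contDiff (k := J) hR) (zR_cs R)
  refine ⟨2 ^ J * N * ((4 * R + 2) ^ 2 + 2 * (4 * R + 2) + 2) + 1, by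
    have : 0 ≤ 2 ^ J * N * ((4 * R + 2) ^ 2 + 2 * (4 * R + 2) + 2) := by positivity
    linarith, fun ν c hν hc => ⟨(zR_contDiff hR).mul ((ht_contDiff ν c).pow 2), ?_⟩⟩
  intro j hj p
  by_cases hp : ‖p‖ ≤ R + 2
  · have hz : |ht ν c p| ≤ 4 * R + 2 := (abs_ht_le hν c p).trans (by linarith)
    have h1 : ∀ j ≤ J, ‖iteratedFDeriv ℝ j (fun y => ht ν c y ^ 2) p‖ ≤
        (4 * R + 2) ^ 2 + 2 * (4 * R + 2) + 2 := by
      intro j _
      have h := comp_ht (k := j) (a := fun t => t ^ 2) (contDiff_id.pow 2) hν c p le_rfl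
      refine h.trans ?_
      have h0 : (0 : ℝ) ≤ 4 * R + 2 := by linarith
      rw [iteratedDeriv_eq_iterate]
      match j with
      | 0 =>
        simp only [Function.iterate_zero, id_eq]
        rw [abs_pow]
        have : |ht ν c p| ^ 2 ≤ (4 * R + 2) ^ 2 := by gcongr
        linarith
      | 1 =>
        simp only [Function.iterate_one]
        have e : deriv (fun t : ℝ => t ^ 2) (ht ν c p) = 2 * ht ν c p := by simp
        rw [e, abs_mul, abs_two]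
        nlinarith [sq_nonneg (4 * R + 2)]
      | j + 2 =>
        have e : (deriv^[j + 2] (fun t : ℝ => t ^ 2)) = deriv^[j] (fun _ => (2 : ℝ)) := by
          rw [Function.iterate_add_apply]
          congr 1
          simp only [Function.iterate_succ, Function.iterate_zero, Function.comp_apply, id_eq]
          have e1 : deriv (fun t : ℝ => t ^ 2) = fun t => 2 * t := by
            funext t
            simp
          rw [e1]
          funext t
          simp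
        rw [e]
        have e3 : |(deriv^[j] (fun _ : ℝ => (2 : ℝ))) (ht ν c p)| ≤ 2 := by
          cases j with
          | zero => simp
          | succ j =>
            rw [Function.iterate_succ_apply]
            have e4 : deriv (fun _ : ℝ => (2 : ℝ)) = fun _ => 0 := by
              funext t; simp
            rw [e4]
            have e5 : ∀ k : ℕ, (deriv^[k] (fun _ : ℝ => (0 : ℝ))) = fun _ => 0 := by
              intro k
              induction k with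
              | zero => rfl
              | succ k ih =>
                rw [Function.iterate_succ_apply']
                rw [ih]
                funext t; simp
            rw [e5]
            simp
        nlinarith [sq_nonneg (4 * R + 2)]
    have h := TP.leib (ContinuousLinearMap.mul ℝ ℝ) (hN.smooth)
      ((ht_contDiff (k := J) ν c).pow 2) p (fun j hj => hN.bd j hj p) h1 j hj
    have h2 : ‖(ContinuousLinearMap.mul ℝ ℝ : ℝ →L[ℝ] ℝ →L[ℝ] ℝ)‖ ≤ 1 :=
      ContinuousLinearMap.opNorm_mul_le ℝ ℝ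
    have h3 : (fun y => zR R y * ht ν c y ^ 2) =
        fun q => (ContinuousLinearMap.mul ℝ ℝ (zR R q)) (ht ν c q ^ 2) := rfl
    rw [h3]
    refine h.trans ?_
    calc 2 ^ J * ‖(ContinuousLinearMap.mul ℝ ℝ : ℝ →L[ℝ] ℝ →L[ℝ] ℝ)‖ * N *
          ((4 * R + 2) ^ 2 + 2 * (4 * R + 2) + 2)
        ≤ 2 ^ J * 1 * N * ((4 * R + 2) ^ 2 + 2 * (4 * R + 2) + 2) := by gcongr
      _ ≤ _ := by linarith
  · push Not at hp
    have h : (fun y => zR R y * ht ν c y ^ 2) =ᶠ[nhds p] fun _ => (0 : ℝ) := by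
      filter_upwards [(isOpen_lt continuous_const continuous_norm).mem_nhds
        (show R + 1 < ‖p‖ by linarith)] with y hy
      rw [zR_zero (le_of_lt hy), zero_mul]
    rw [(h.iteratedFDeriv ℝ j).eq_of_nhds, iteratedFDeriv_fun_zero]
    simp only [Pi.zero_apply, norm_zero]
    positivity

end Cut

section Est

variable {E : Type} [NormedAddCommGroup E] [InnerProductSpace ℝ E] [FiniteDimensional ℝ E]

theorem DD_nonneg (b : Sp d → ℝ) (ε R : ℝ) (f : Sp d → E) (n : ℕ) {e : E} (he : ‖e‖ = 1) :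
    0 ≤ DD b ε R ((1 / 2) ^ n) f n 0 e := by
  unfold DD
  rw [lev_unit]
  have h1 : ∀ l, 0 ≤ ∫ y in ball (0 : Sp d) (R * 1),
      (‖fl b ε ((1 / 2) ^ n) f l y‖ - ⟪fl b ε ((1 / 2) ^ n) f l y, e⟫_ℝ) := by
    intro l
    refine integral_nonneg fun y => ?_
    have := real_inner_le_norm (fl b ε ((1 / 2) ^ n) f l y) e
    rw [he, mul_one] at this
    simpa using this
  have h2 : 0 ≤ ∫ y in ball (0 : Sp d) (R * 1), ‖f y‖ := integral_nonneg fun _ => norm_nonneg _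
  have h3 : 0 ≤ ∑ l ∈ Finset.range (n + 1), (1 / 4 : ℝ) ^ (n - l) *
      ∫ y in ball (0 : Sp d) (R * 1),
        (‖fl b ε ((1 / 2) ^ n) f l y‖ - ⟪fl b ε ((1 / 2) ^ n) f l y, e⟫_ℝ) :=
    Finset.sum_nonneg fun l _ => mul_nonneg (by positivity) (h1 l)
  positivity

theorem bD_ge (b : Sp d → ℝ) (ε R0 R : ℝ) (f : Sp d → E) (n : ℕ) (e : E) (ν : Sp d) (c : ℝ) :
    DD b ε R ((1 / 2) ^ n) f n 0 e ≤ bD b ε R0 R ((1 / 2) ^ n) f n 0 e ν c := by
  unfold bD
  have := le_max_left 0 (bb R0 ((1 / 2) ^ n) f n 0 e ν c)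
  linarith

theorem bb_le (b : Sp d → ℝ) (ε R0 R : ℝ) (f : Sp d → E) (n : ℕ) {e : E} (he : ‖e‖ = 1)
    (ν : Sp d) (c : ℝ) :
    bb R0 ((1 / 2) ^ n) f n 0 e ν c ≤ bD b ε R0 R ((1 / 2) ^ n) f n 0 e ν c := by
  unfold bD
  have := le_max_right 0 (bb R0 ((1 / 2) ^ n) f n 0 e ν c)
  have := DD_nonneg b ε R f n he
  linarith

theorem int_mul {f : Sp d → E} (hf : Continuous f) (hc : HasCompactSupport f) (e : E)
    {g : Sp d → ℝ} (hg : Continuous g) : Integrable (fun y => ⟪f y, e⟫_ℝ * g y) := by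
  have h1 : Continuous fun y => ⟪f y, e⟫_ℝ * g y :=
    (hf.inner continuous_const).mul hg
  refine h1.integrable_of_hasCompactSupport (hc.mono' fun y hy => ?_)
  rw [Function.mem_support] at hy
  refine subset_closure ?_
  rw [Function.mem_support]
  intro h0
  exact hy (by rw [h0, inner_zero_left, zero_mul])

theorem tfn_zero_of {F : Type*} [NormedAddCommGroup F] [NormedSpace ℝ F] {J : ℕ} {g : Sp d → F}
    (h : TFn J 0 g) (x : Sp d) : g x = 0 := by
  have := tfn_norm_le h x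
  exact norm_le_zero_iff.1 this

theorem tfn_smul {F : Type*} [NormedAddCommGroup F] [NormedSpace ℝ F] {J : ℕ} {N : ℝ}
    {g : Sp d → F} (h : TFn J N g) (a : ℝ) : TFn J (|a| * N) (fun x => a • g x) := by
  refine ⟨h.smooth.const_smul a, fun j hj x => ?_⟩
  have e1 : iteratedFDeriv ℝ j (fun x => a • g x) x = a • iteratedFDeriv ℝ j g x :=
    iteratedFDeriv_const_smul_apply ((h.smooth.of_le (by exact_mod_cast hj)).contDiffAt)
  rw [e1, norm_smul, Real.norm_eq_abs]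
  exact mul_le_mul_of_nonneg_left (h.bd j hj x) (abs_nonneg a)

/-- one sided bound -/
theorem quad_one (hZ : StmtZ) (hd : 1 ≤ d) {M c0 ε : ℝ} (hε : 0 < ε) (hε1 : ε ≤ 1)
    {b : Sp d → ℝ} (hb : BaseKer 2 M c0 b) {R0 : ℝ} (hR0 : 1 ≤ R0) : ∃ C : ℝ, 0 < C ∧
    ∀ (E : Type) [NormedAddCommGroup E] [InnerProductSpace ℝ E] [FiniteDimensional ℝ E],
    ∀ (R : ℝ), R0 + 10 ≤ R → ∀ f : Sp d → E, Continuous f → HasCompactSupport f →
    ∀ (n : ℕ) (e : E), ‖e‖ = 1 → ∀ (ν : Sp d) (c : ℝ), ‖ν‖ = 1 → |c| ≤ 3 * R0 →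
    ∀ (w : Sp d → ℝ) (N : ℝ), TFn 2 N w → (∀ y, |w y| ≤ N * ht ν c y ^ 2) →
      (∀ y, R0 ≤ ‖y‖ → w y = 0) →
      -(C * N * bD b ε R0 R ((1 / 2) ^ n) f n 0 e ν c) ≤ ∫ y, ⟪f y, e⟫_ℝ * w y := by
  obtain ⟨C, hC, hZ1⟩ := hZ d hd M c0 ε hε hε1 b hb
  obtain ⟨K, hK, hKt⟩ := zq_tfn (d := d) (by linarith : 0 < R0) 2
  refine ⟨1 + C * (1 + K), by positivity, ?_⟩
  intro E _ _ _ R hR f hf hc n e he ν c hν hcR w N hw hwq hw0
  have hN0 := tfn_nonneg hw
  have hDD := DD_nonneg b ε R f n he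
  have hbb := bb_le b ε R0 R f n he ν c
  have hbD := bD_ge b ε R0 R f n e ν c
  rcases hN0.eq_or_lt with h0 | hN
  · subst h0
    have : ∀ y, ⟪f y, e⟫_ℝ * w y = 0 := fun y => by rw [tfn_zero_of hw y, mul_zero]
    simp only [this, integral_zero]
    simp
  set q : Sp d → ℝ := fun y => zR R0 y * ht ν c y ^ 2 with hq
  have hqt : TFn 2 K q := hKt ν c hν hcR
  set D : ℝ := N * (1 + K) with hD
  have hD0 : 0 < D := by positivity
  set H : Sp d → ℝ := fun y => D⁻¹ • (w y + N • q y) with hH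
  have hHt : TFn 2 1 H := by
    have h1 := tfn_smul (tfn_add hw (tfn_smul hqt N)) D⁻¹
    refine tfn_le h1 le_rfl ?_
    rw [abs_of_pos (inv_pos.2 hD0), abs_of_pos hN, hD]
    rw [← mul_one_add, inv_mul_cancel₀ hD0.ne']
  have hH0 : ∀ y, 0 ≤ H y := by
    intro y
    refine smul_nonneg (inv_pos.2 hD0).le ?_
    by_cases hy : R0 ≤ ‖y‖
    · rw [hw0 y hy, zero_add]
      exact smul_nonneg hN0 (mul_nonneg (zR_nonneg _ _) (sq_nonneg _))
    · push Not at hy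
      have h2 : q y = ht ν c y ^ 2 := by simp only [hq]; rw [zR_one hy.le, one_mul]
      rw [h2, smul_eq_mul]
      have := (abs_le.1 (hwq y)).1
      linarith
  have hHs : ∀ y, R - 2 ≤ ‖y - 0‖ → H y = 0 := by
    intro y hy
    rw [sub_zero] at hy
    simp only [hH, hq]
    rw [hw0 y (by linarith), zR_zero (by linarith)]
    simp
  have h := hZ1 E f hf hc R (by linarith) n e he 0 H hHt.smooth hH0
    (fun y => (le_abs_self _).trans (by
      have := tfn_norm_le hHt y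
      rwa [Real.norm_eq_abs] at this)) (fun y => hHt.bd 2 le_rfl y) hHs
  have e1 : ∫ y, ⟪f y, e⟫_ℝ * H y =
      D⁻¹ * ((∫ y, ⟪f y, e⟫_ℝ * w y) + N * bb R0 ((1 / 2) ^ n) f n 0 e ν c) := by
    rw [bb_unit, ← integral_const_mul, ← integral_add (int_mul hf hc e hw.smooth.continuous)
      ((int_mul hf hc e hqt.smooth.continuous).const_mul N), ← integral_const_mul]
    refine integral_congr_ae (Filter.Eventually.of_forall fun y => ?_)
    simp only [hH, hq, smul_eq_mul]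
    ring
  rw [e1] at h
  have h2 : -C * DD b ε R ((1 / 2) ^ n) f n 0 e * D ≤
      (∫ y, ⟪f y, e⟫_ℝ * w y) + N * bb R0 ((1 / 2) ^ n) f n 0 e ν c := by
    rw [inv_mul_eq_div, le_div_iff₀ hD0] at h
    exact h
  have h3 : N * bb R0 ((1 / 2) ^ n) f n 0 e ν c ≤ N * bD b ε R0 R ((1 / 2) ^ n) f n 0 e ν c := by
    gcongr
  have h4 : C * DD b ε R ((1 / 2) ^ n) f n 0 e * D ≤
      C * bD b ε R0 R ((1 / 2) ^ n) f n 0 e ν c * D := by gcongr
  have h5 : (1 + C * (1 + K)) * N * bD b ε R0 R ((1 / 2) ^ n) f n 0 e ν c =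
      N * bD b ε R0 R ((1 / 2) ^ n) f n 0 e ν c +
        C * bD b ε R0 R ((1 / 2) ^ n) f n 0 e ν c * D := by rw [hD]; ring
  rw [h5]
  linarith

/-- tests which vanish quadratically on the plane -/
theorem quad (hZ : StmtZ) (hd : 1 ≤ d) {M c0 ε : ℝ} (hε : 0 < ε) (hε1 : ε ≤ 1)
    {b : Sp d → ℝ} (hb : BaseKer 2 M c0 b) {R0 : ℝ} (hR0 : 1 ≤ R0) : ∃ C : ℝ, 0 < C ∧
    ∀ (E : Type) [NormedAddCommGroup E] [InnerProductSpace ℝ E] [FiniteDimensional ℝ E],
    ∀ (R : ℝ), R0 + 10 ≤ R → ∀ f : Sp d → E, Continuous f → HasCompactSupport f →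
    ∀ (n : ℕ) (e : E), ‖e‖ = 1 → ∀ (ν : Sp d) (c : ℝ), ‖ν‖ = 1 → |c| ≤ 3 * R0 →
    ∀ (w : Sp d → ℝ) (N : ℝ), TFn 2 N w → (∀ y, |w y| ≤ N * ht ν c y ^ 2) →
      (∀ y, R0 ≤ ‖y‖ → w y = 0) →
      |∫ y, ⟪f y, e⟫_ℝ * w y| ≤ C * N * bD b ε R0 R ((1 / 2) ^ n) f n 0 e ν c := by
  obtain ⟨C, hC, h1⟩ := quad_one hZ hd hε hε1 hb hR0
  refine ⟨C, hC, ?_⟩
  intro E _ _ _ R hR f hf hc n e he ν c hν hcR w N hw hwq hw0
  have h2 := h1 E R hR f hf hc n e he ν c hν hcR w N hw hwq hw0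
  have hw' : TFn 2 N (fun y => -w y) := by
    have := tfn_smul hw (-1)
    simpa using this
  have h3 := h1 E R hR f hf hc n e he ν c hν hcR (fun y => -w y) N hw'
    (fun y => by rw [abs_neg]; exact hwq y) (fun y hy => by rw [hw0 y hy, neg_zero])
  have e3 : ∫ y, ⟪f y, e⟫_ℝ * -w y = -∫ y, ⟪f y, e⟫_ℝ * w y := by
    rw [← integral_neg]
    refine integral_congr_ae (Filter.Eventually.of_forall fun y => ?_)
    simp
  rw [e3] at h3
  rw [abs_le]
  constructor <;> linarith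

/-- the perpendicular part -/
theorem perp (hPE : StmtPE) (hd : 1 ≤ d) {M c0 ε : ℝ} (hε : 0 < ε) (hε1 : ε ≤ 1)
    {b : Sp d → ℝ} (hb : BaseKer 2 M c0 b) : ∃ C : ℝ, 0 < C ∧
    ∀ (E : Type) [NormedAddCommGroup E] [InnerProductSpace ℝ E] [FiniteDimensional ℝ E],
    ∀ (R : ℝ), 3 ≤ R → ∀ f : Sp d → E, Continuous f → HasCompactSupport f →
    ∀ (n : ℕ) (e : E), ‖e‖ = 1 → ∀ (Y : Sp d → E) (N : ℝ) (S : Set (Sp d)), MeasurableSet S →
      TFn 2 N Y → (∀ y, R - 2 ≤ ‖y‖ → Y y = 0) → (∀ y z, Y y ≠ 0 → ‖z - y‖ ≤ 1 → z ∈ S) →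
      |∫ y, ⟪f y - ⟪f y, e⟫_ℝ • e, Y y⟫_ℝ| ≤
        C * N * (Real.sqrt ((∫ y in S, ‖fl b ε ((1 / 2) ^ n) f (n - 1) y‖) *
            DD b ε R ((1 / 2) ^ n) f n 0 e) + DD b ε R ((1 / 2) ^ n) f n 0 e) := by
  obtain ⟨C, hC, h1⟩ := hPE d hd M c0 ε hε hε1 b hb
  refine ⟨C, hC, ?_⟩
  intro E _ _ _ R hR f hf hc n e he Y N S hS hY hY0 hYS
  have hN0 := tfn_nonneg hY
  rcases hN0.eq_or_lt with h0 | hN
  · subst h0
    have : ∀ y, ⟪f y - ⟪f y, e⟫_ℝ • e, Y y⟫_ℝ = 0 := fun y => by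
      rw [tfn_zero_of hY y, inner_zero_right]
    simp only [this, integral_zero]
    simp
  have hYt : TFn 2 1 (fun y => N⁻¹ • Y y) := by
    have := tfn_smul hY N⁻¹
    rwa [abs_of_pos (inv_pos.2 hN), inv_mul_cancel₀ hN.ne'] at this
  have h2 := h1 E f hf hc R hR n e he 0 (fun y => N⁻¹ • Y y) S hS hYt.smooth
    (fun y => tfn_norm_le hYt y) (fun y => hYt.bd 2 le_rfl y)
    (fun y hy => by rw [sub_zero] at hy; rw [hY0 y hy, smul_zero])
    (fun y z hy hz => hYS y z (fun h => hy (by rw [h, smul_zero])) hz)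
  have e1 : ∫ y, ⟪f y - ⟪f y, e⟫_ℝ • e, N⁻¹ • Y y⟫_ℝ =
      N⁻¹ * ∫ y, ⟪f y - ⟪f y, e⟫_ℝ • e, Y y⟫_ℝ := by
    rw [← integral_const_mul]
    refine integral_congr_ae (Filter.Eventually.of_forall fun y => ?_)
    simp only [inner_smul_right]
  rw [e1, abs_mul, abs_of_pos (inv_pos.2 hN), inv_mul_eq_div, div_le_iff₀ hN] at h2
  linarith

/-- the mass far from the plane -/
theorem farmass (hMA : StmtMA) (hd : 1 ≤ d) {M c0 ε : ℝ} (hε : 0 < ε) (hε1 : ε ≤ 1)
    {b : Sp d → ℝ} (hb : BaseKer 2 M c0 b) {R0 : ℝ} (hR0 : 1 ≤ R0) : ∃ C : ℝ, 0 < C ∧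
    ∀ (E : Type) [NormedAddCommGroup E] [InnerProductSpace ℝ E] [FiniteDimensional ℝ E],
    ∀ (R : ℝ), R0 + 10 ≤ R → ∀ f : Sp d → E, Continuous f → HasCompactSupport f →
    ∀ (n : ℕ) (e : E), ‖e‖ = 1 → ∀ (ν : Sp d) (c : ℝ), ‖ν‖ = 1 → |c| ≤ 3 * R0 →
      (∫ y in {y | 3 ≤ |ht ν c y| ∧ ‖y‖ ≤ R0 - 2}, ‖fl b ε ((1 / 2) ^ n) f (n - 1) y‖) ≤
        C * bD b ε R0 R ((1 / 2) ^ n) f n 0 e ν c := by
  obtain ⟨C, hC, h1⟩ := hMA d hd M c0 ε hε hε1 b hb
  obtain ⟨K, hK, hKt⟩ := zq_tfn (d := d) (by linarith : 0 < R0) 2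
  refine ⟨1 + C * K, by positivity, ?_⟩
  intro E _ _ _ R hR f hf hc n e he ν c hν hcR
  have hK0 : 0 < K := by linarith
  have hDD := DD_nonneg b ε R f n he
  have hbb := bb_le b ε R0 R f n he ν c
  have hbD := bD_ge b ε R0 R f n e ν c
  set q : Sp d → ℝ := fun y => zR R0 y * ht ν c y ^ 2 with hq
  have hqt : TFn 2 K q := hKt ν c hν hcR
  have hHt : TFn 2 1 (fun y => K⁻¹ • q y) := by
    have := tfn_smul hqt K⁻¹
    rwa [abs_of_pos (inv_pos.2 hK0), inv_mul_cancel₀ hK0.ne'] at this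
  have hS : MeasurableSet {y : Sp d | 3 ≤ |ht ν c y| ∧ ‖y‖ ≤ R0 - 2} :=
    ((isClosed_le continuous_const (ht_continuous ν c).abs).inter
      (isClosed_le continuous_norm continuous_const)).measurableSet
  have h2 := (h1 E f hf hc R (by linarith) n e he 0 _ hS).2 (fun y => K⁻¹ • q y) K⁻¹
    (inv_pos.2 hK0) (inv_le_one_of_one_le₀ hK) hHt.smooth
    (fun y => smul_nonneg (inv_pos.2 hK0).le (mul_nonneg (zR_nonneg _ _) (sq_nonneg _)))
    (fun y => (le_abs_self _).trans (by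
      have := tfn_norm_le hHt y
      rwa [Real.norm_eq_abs] at this)) (fun y => hHt.bd 2 le_rfl y)
    (fun y hy => by
      rw [sub_zero] at hy
      simp only [hq]
      rw [zR_zero (by linarith), zero_mul, smul_zero])
    (fun y z hy hz => by
      obtain ⟨hy1, hy2⟩ := hy
      have hz1 : ‖z‖ ≤ R0 := by
        calc ‖z‖ = ‖(z - y) + y‖ := by rw [sub_add_cancel]
          _ ≤ ‖z - y‖ + ‖y‖ := norm_add_le _ _
          _ ≤ R0 := by linarith
      have hz2 : 1 ≤ |ht ν c z| := by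
        have h3 : ht ν c z = ht ν c y + ⟪ν, z - y⟫_ℝ := by
          unfold ht
          rw [inner_sub_right]
          ring
        have h4 : |⟪ν, z - y⟫_ℝ| ≤ 2 := by
          have := abs_real_inner_le_norm ν (z - y)
          rw [hν, one_mul] at this
          linarith
        have h5 : |ht ν c y| ≤ |ht ν c z| + |⟪ν, z - y⟫_ℝ| := by
          have : ht ν c y = ht ν c z - ⟪ν, z - y⟫_ℝ := by rw [h3]; ring
          rw [this]
          exact abs_sub _ _
        linarith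
      simp only [hq]
      rw [zR_one hz1, one_mul, smul_eq_mul]
      have h6 : 1 ≤ ht ν c z ^ 2 := by
        rw [← sq_abs]
        nlinarith
      have := inv_pos.2 hK0
      nlinarith)
  have e1 : ∫ y, ⟪f y, e⟫_ℝ * (K⁻¹ • q y) = K⁻¹ * bb R0 ((1 / 2) ^ n) f n 0 e ν c := by
    rw [bb_unit, ← integral_const_mul]
    refine integral_congr_ae (Filter.Eventually.of_forall fun y => ?_)
    simp only [hq, smul_eq_mul]
    ring
  rw [e1] at h2
  have e2 : 1 / K⁻¹ * (K⁻¹ * bb R0 ((1 / 2) ^ n) f n 0 e ν c) = bb R0 ((1 / 2) ^ n) f n 0 e ν c := by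
    field_simp
  have e3 : C / K⁻¹ * DD b ε R ((1 / 2) ^ n) f n 0 e = C * K * DD b ε R ((1 / 2) ^ n) f n 0 e := by
    field_simp
  rw [e2, e3] at h2
  have h6 : C * K * DD b ε R ((1 / 2) ^ n) f n 0 e ≤
      C * K * bD b ε R0 R ((1 / 2) ^ n) f n 0 e ν c := by gcongr
  linarith

/-- splitting of the pairing -/
theorem split {f : Sp d → E} (hf : Continuous f) (hc : HasCompactSupport f) (e : E)
    {Y : Sp d → E} (hY : Continuous Y) :
    ∫ y, ⟪f y, Y y⟫_ℝ = (∫ y, ⟪f y, e⟫_ℝ * ⟪e, Y y⟫_ℝ) +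
      ∫ y, ⟪f y - ⟪f y, e⟫_ℝ • e, Y y⟫_ℝ := by
  have h2 : Integrable fun y => ⟪f y - ⟪f y, e⟫_ℝ • e, Y y⟫_ℝ := by
    have h3 : Continuous fun y => ⟪f y - ⟪f y, e⟫_ℝ • e, Y y⟫_ℝ := by fun_prop
    refine h3.integrable_of_hasCompactSupport (hc.mono' fun y hy => ?_)
    rw [Function.mem_support] at hy
    refine subset_closure ?_
    rw [Function.mem_support]
    intro h0
    exact hy (by rw [h0, inner_zero_left, zero_smul, sub_zero, inner_zero_left])
  rw [← integral_add (int_mul hf hc e (continuous_const.inner hY)) h2]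
  refine integral_congr_ae (Filter.Eventually.of_forall fun y => ?_)
  simp only [inner_sub_left, inner_smul_left]
  simp

/-- tests supported off the plane -/
theorem off_plane (hZ : StmtZ) (hMA : StmtMA) (hPE : StmtPE) (hd : 1 ≤ d) {M c0 ε : ℝ}
    (hε : 0 < ε) (hε1 : ε ≤ 1) {b : Sp d → ℝ} (hb : BaseKer 2 M c0 b) {R0 : ℝ} (hR0 : 10 ≤ R0) :
    ∃ C : ℝ, 0 < C ∧
    ∀ (E : Type) [NormedAddCommGroup E] [InnerProductSpace ℝ E] [FiniteDimensional ℝ E],
    ∀ (R : ℝ), R0 + 10 ≤ R → ∀ f : Sp d → E, Continuous f → HasCompactSupport f →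
    ∀ (n : ℕ) (e : E), ‖e‖ = 1 → ∀ (ν : Sp d) (c : ℝ), ‖ν‖ = 1 → |c| ≤ 3 * R0 →
    ∀ (Y : Sp d → E) (N : ℝ), TFn 2 N Y → (∀ y, Y y ≠ 0 → 4 ≤ |ht ν c y| ∧ ‖y‖ ≤ R0 - 3) →
      |∫ y, ⟪f y, Y y⟫_ℝ| ≤ C * N * bD b ε R0 R ((1 / 2) ^ n) f n 0 e ν c := by
  obtain ⟨C1, hC1, h1⟩ := quad hZ hd hε hε1 hb (by linarith : 1 ≤ R0)
  obtain ⟨C2, hC2, h2⟩ := perp hPE hd hε hε1 hb
  obtain ⟨C3, hC3, h3⟩ := farmass hMA hd hε hε1 hb (by linarith : 1 ≤ R0)
  refine ⟨C1 + C2 * (C3 + 2), by positivity, ?_⟩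
  intro E _ _ _ R hR f hf hc n e he ν c hν hcR Y N hY hYs
  have hN0 := tfn_nonneg hY
  have hDD := DD_nonneg b ε R f n he
  have hbD := bD_ge b ε R0 R f n e ν c
  have hB0 : 0 ≤ bD b ε R0 R ((1 / 2) ^ n) f n 0 e ν c := hDD.trans hbD
  rw [split hf hc e hY.smooth.continuous]
  have hw : TFn 2 N (fun y => ⟪e, Y y⟫_ℝ) := by
    have := tfn_clm (innerSL ℝ e) hY
    rwa [innerSL_apply_norm, he, one_mul] at this
  have q1 := h1 E R hR f hf hc n e he ν c hν hcR _ N hw (fun y => by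
    by_cases hy : Y y = 0
    · rw [hy, inner_zero_right, abs_zero]
      positivity
    · have h4 := (hYs y hy).1
      have h5 := tfn_norm_le hw y
      rw [Real.norm_eq_abs] at h5
      have h6 : 1 ≤ ht ν c y ^ 2 := by
        rw [← sq_abs]
        nlinarith
      nlinarith) (fun y hy => by
    by_cases h7 : Y y = 0
    · rw [h7, inner_zero_right]
    · exact absurd (hYs y h7).2 (by linarith))
  have hS : MeasurableSet {y : Sp d | 3 ≤ |ht ν c y| ∧ ‖y‖ ≤ R0 - 2} :=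
    ((isClosed_le continuous_const (ht_continuous ν c).abs).inter
      (isClosed_le continuous_norm continuous_const)).measurableSet
  have q2 := h2 E R (by linarith) f hf hc n e he Y N _ hS hY (fun y hy => by
    by_contra h7
    exact absurd (hYs y h7).2 (by linarith)) (fun y z hy hz => by
    obtain ⟨h4, h5⟩ := hYs y hy
    refine ⟨?_, ?_⟩
    · have h6 : ht ν c y = ht ν c z - ⟪ν, z - y⟫_ℝ := by
        unfold ht
        rw [inner_sub_right]
        ring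
      have h7 : |⟪ν, z - y⟫_ℝ| ≤ 1 := by
        have := abs_real_inner_le_norm ν (z - y)
        rw [hν, one_mul] at this
        linarith
      have h8 : |ht ν c y| ≤ |ht ν c z| + |⟪ν, z - y⟫_ℝ| := by
        rw [h6]
        exact abs_sub _ _
      linarith
    · calc ‖z‖ = ‖(z - y) + y‖ := by rw [sub_add_cancel]
        _ ≤ ‖z - y‖ + ‖y‖ := norm_add_le _ _
        _ ≤ R0 - 2 := by linarith)
  have q3 := h3 E R hR f hf hc n e he ν c hν hcR
  set B := bD b ε R0 R ((1 / 2) ^ n) f n 0 e ν c with hB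
  set Dd := DD b ε R ((1 / 2) ^ n) f n 0 e with hDd
  set m := ∫ y in {y : Sp d | 3 ≤ |ht ν c y| ∧ ‖y‖ ≤ R0 - 2},
    ‖fl b ε ((1 / 2) ^ n) f (n - 1) y‖ with hm
  have hm0 : 0 ≤ m := integral_nonneg fun _ => norm_nonneg _
  have h9 : Real.sqrt (m * Dd) ≤ (C3 + 1) * B := by
    refine (Real.sqrt_le_sqrt (mul_le_mul q3 hbD hDD (by positivity))).trans ?_
    rw [Real.sqrt_le_left (by positivity)]
    have : 0 ≤ B ^ 2 := sq_nonneg B
    nlinarith [mul_nonneg hC3.le this, mul_nonneg (sq_nonneg C3) this]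
  have h10 : C2 * N * (Real.sqrt (m * Dd) + Dd) ≤ C2 * N * ((C3 + 1) * B + B) := by gcongr
  calc _ ≤ C1 * N * B + C2 * N * (Real.sqrt (m * Dd) + Dd) := (abs_add_le _ _).trans (add_le_add q1 q2)
    _ ≤ C1 * N * B + C2 * N * ((C3 + 1) * B + B) := by linarith
    _ = _ := by ring

end Est

end SH
end TG
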