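import Pool.Agent.TG.SMa
import Pool.Agent.TG.SHT
import Pool.Agent.TG.PTa

/-!
# Module B2: the plane functional is controlled by the pieces (MP_287c87_an)
-/

open MeasureTheory Metric Set TrI Filter
open scoped InnerProductSpace ContDiff Topology

namespace TG

noncomputable section

namespace B2m

open SMm

variable {d : ℕ}

lemma itF_zero {g : Sp d → ℝ} {ρ : ℝ} (h : ∀ y, ρ ≤ ‖y‖ → g y = 0) (j : ℕ) {y : Sp d}
    (hy : ρ < ‖y‖) : iteratedFDeriv ℝ j g y = 0 := by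
  have h1 : g =ᶠ[𝓝 y] fun _ => (0 : ℝ) := by
    filter_upwards [(isOpen_lt continuous_const continuous_norm).mem_nhds hy] with z hz
    exact h z (le_of_lt hz)
  rw [(h1.iteratedFDeriv ℝ j).eq_of_nhds, iteratedFDeriv_fun_zero]
  rfl

lemma bf_cut {J : ℕ} {ρ N B : ℝ} {z h : Sp d → ℝ} (hz : BF J N z) (hzs : ∀ y, ρ ≤ ‖y‖ → z y = 0)
    (hh : ContDiff ℝ J h) (hB : 0 ≤ B)
    (hb : ∀ j ≤ J, ∀ y, ‖y‖ ≤ ρ → ‖iteratedFDeriv ℝ j h y‖ ≤ B) :
    BF J (2 ^ J * (N * B)) (fun y => z y * h y) where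
  smooth := hz.smooth.mul hh
  bd := by
    intro j hj x
    have h0 := hz.nonneg
    rcases le_or_gt ‖x‖ ρ with hx | hx
    · refine (norm_iteratedFDeriv_mul_le hz.smooth hh x (n := j) (by exact_mod_cast hj)).trans ?_
      have h1 : ∑ i ∈ Finset.range (j + 1), (j.choose i : ℝ) * ‖iteratedFDeriv ℝ i z x‖ *
          ‖iteratedFDeriv ℝ (j - i) h x‖ ≤
          ∑ i ∈ Finset.range (j + 1), (j.choose i : ℝ) * N * B := by
        refine Finset.sum_le_sum fun i hi => ?_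
        have hi' : i ≤ j := Nat.lt_succ_iff.mp (Finset.mem_range.mp hi)
        have := hz.bd i (hi'.trans hj) x
        have := hb (j - i) ((Nat.sub_le _ _).trans hj) x hx
        gcongr
      refine h1.trans ?_
      rw [← Finset.sum_mul, ← Finset.sum_mul]
      have h2 : ∑ i ∈ Finset.range (j + 1), (j.choose i : ℝ) = 2 ^ j := by
        exact_mod_cast Nat.sum_range_choose j
      rw [h2, mul_assoc]
      exact mul_le_mul_of_nonneg_right (pow_le_pow_right₀ (by norm_num) hj) (mul_nonneg h0 hB)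
    · rw [itF_zero (ρ := ρ) (fun y hy => by rw [hzs y hy, zero_mul]) j hx, norm_zero]
      positivity

lemma vv_ball (hTH : StmtTH) (hd : 2 ≤ d) {C' : ℝ} (hC' : 0 < C') {μ : Measure (Sp d)}
    (hμ : Gro C' μ) {ρ : ℝ} (hρ : 0 ≤ ρ) {y : Sp d} (hy : ‖y‖ ≤ ρ) :
    vv μ 1 y ≤ (1 + ρ) ^ d * vv μ 1 0 := by
  obtain ⟨C, hC, h1⟩ := hTH d 0 hd C' hC'
  have h2 := (h1 μ hμ).2.2.2.1 1 0 y one_pos
  have h5 : 0 ≤ th μ 1 0 := ((h1 μ hμ).1 1 0 one_pos).1.le
  have h3 : ‖(0 : Sp d) - y‖ / 1 ≤ ρ := by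
    rw [zero_sub, norm_neg, div_one]
    exact hy
  have h4 : (1 + ‖(0 : Sp d) - y‖ / 1) ^ d ≤ (1 + ρ) ^ d :=
    pow_le_pow_left₀ (by positivity) (by linarith) d
  have h6 : th μ 1 y ≤ ((1 + ρ) ^ d) ^ 2 * th μ 1 0 := by
    refine h2.trans (mul_le_mul_of_nonneg_right (h4.trans ?_) h5)
    have : (1 : ℝ) ≤ (1 + ρ) ^ d := one_le_pow₀ (by linarith)
    nlinarith
  unfold vv
  calc Real.sqrt (th μ 1 y) ≤ Real.sqrt (((1 + ρ) ^ d) ^ 2 * th μ 1 0) := Real.sqrt_le_sqrt h6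
    _ = _ := by rw [Real.sqrt_mul (by positivity), Real.sqrt_sq (by positivity)]

lemma fd_zero {g : Sp d → ℝ} {ρ : ℝ} (h : ∀ y, ρ < ‖y‖ → g y = 0) (w : Sp d) :
    ∀ y, ρ < ‖y‖ → fderiv ℝ g y w = 0 := by
  intro y hy
  have h1 : g =ᶠ[𝓝 y] fun _ => (0 : ℝ) := by
    filter_upwards [(isOpen_lt continuous_const continuous_norm).mem_nhds hy] with z hz
    exact h z hz
  rw [h1.fderiv_eq]
  simp

/-- plane integrals as functions of the position of the plane -/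
lemma pl_bf (hPF : StmtPF) (hd : 1 ≤ d) (ρ : ℝ) : ∃ C : ℝ, 0 < C ∧ ∀ (ν : Sp d), ‖ν‖ = 1 →
    ∀ (F : Sp d → ℝ) (N : ℝ), BF 2 N F → (∀ y, ρ ≤ ‖y‖ → F y = 0) →
      BF 2 (C * N) (fun c => plInt ν c F) := by
  obtain ⟨hP1, hP2⟩ := hPF d hd
  obtain ⟨C, hC, hP⟩ := hP1 ρ
  refine ⟨C, hC, fun ν hν F N hF hs => ?_⟩
  obtain ⟨-, -, hder, hcd, -, -⟩ := hP2 ν hν
  have hcs : HasCompactSupport F :=
    HasCompactSupport.intro (isCompact_closedBall (0 : Sp d) ρ) fun y hy => by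
      rw [mem_closedBall_zero_iff, not_le] at hy
      exact hs y hy.le
  have hF1 : BF 1 N (fun y => fderiv ℝ F y ν) := hF.fderiv_apply ν hν.le
  have hF2 : BF 0 N (fun y => fderiv ℝ (fun z => fderiv ℝ F z ν) y ν) := hF1.fderiv_apply ν hν.le
  have hcs1 : HasCompactSupport (fun y => fderiv ℝ F y ν) := hcs.fderiv_apply (𝕜 := ℝ) ν
  have hz0 : ∀ y, ρ < ‖y‖ → F y = 0 := fun y hy => hs y hy.le
  have hz1 := fd_zero hz0 ν
  have hz2 := fd_zero hz1 ν
  have key : ∀ G : Sp d → ℝ, Continuous G → (∀ y, ρ < ‖y‖ → G y = 0) → (∀ y, |G y| ≤ N) →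
      ∀ c, |plInt ν c G| ≤ C * N := by
    intro G hG hG0 hGN c
    refine hP ν hν G N hG hGN (fun y hy => ?_) c
    by_contra h
    push Not at h
    exact hy (hG0 y (h.trans_le (tang_le hν y)))
  have hd1 : deriv (fun c => plInt ν c F) = fun c => plInt ν c (fun y => fderiv ℝ F y ν) := by
    funext c
    exact (hder F (hF.smooth.of_le (by norm_num)) hcs c).deriv
  have hd2 : deriv (fun c => plInt ν c (fun y => fderiv ℝ F y ν)) =
      fun c => plInt ν c (fun y => fderiv ℝ (fun z => fderiv ℝ F z ν) y ν) := by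
    funext c
    exact (hder _ (hF1.smooth.of_le (by norm_num)) hcs1 c).deriv
  refine ⟨hcd 2 F hF.smooth hcs, fun j hj c => ?_⟩
  rw [norm_iteratedFDeriv_eq_norm_iteratedDeriv]
  interval_cases j
  · rw [iteratedDeriv_zero]
    exact key F hF.smooth.continuous hz0 (fun y => hF.norm_le y) c
  · rw [iteratedDeriv_one, hd1]
    exact key _ hF1.smooth.continuous hz1 (fun y => hF1.norm_le y) c
  · rw [iteratedDeriv_succ, iteratedDeriv_one, hd1, hd2]
    exact key _ hF2.smooth.continuous hz2 (fun y => hF2.norm_le y) c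

lemma pl_zero {ν : Sp d} (hν : ‖ν‖ = 1) {ρ : ℝ} {F : Sp d → ℝ} (hs : ∀ y, ρ ≤ ‖y‖ → F y = 0)
    {c : ℝ} (hc : ρ ≤ |c|) : plInt ν c F = 0 := by
  unfold plInt
  have h : (fun y : (Submodule.span ℝ {ν})ᗮ => F (c • ν + (y : Sp d))) = fun _ => 0 := by
    funext y
    apply hs
    refine hc.trans ?_
    have h1 : ⟪ν, c • ν + (y : Sp d)⟫_ℝ = c := by
      rw [inner_add_right, inner_smul_right, real_inner_self_eq_norm_sq, hν,
        Submodule.mem_orthogonal_singleton_iff_inner_right.1 y.2]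
      ring
    have h2 := abs_real_inner_le_norm ν (c • ν + (y : Sp d))
    rwa [h1, hν, one_mul] at h2
  rw [h]
  simp

lemma zp_use {R D : ℝ} {m : Sp d → ℝ} (h : ZP R D m) {K : ℝ} (hK : 0 < K) {G : Sp d → ℝ}
    (hG : BF 2 K G) (h0 : ∀ y, 0 ≤ G y) (hs : ∀ y, R ≤ ‖y‖ → G y = 0) :
    -(K * D) ≤ ∫ y, m y * G y := by
  have hK1 : |K⁻¹| * K = 1 := by
    rw [abs_of_pos (inv_pos.2 hK), inv_mul_cancel₀ hK.ne']
  have hG1 := hG.const_mul K⁻¹
  rw [hK1] at hG1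
  have h1 := h (fun y => K⁻¹ * G y) hG1.smooth (fun y => mul_nonneg (inv_pos.2 hK).le (h0 y))
    (fun y => (le_abs_self _).trans (hG1.norm_le y)) (fun y => hG1.bd 2 le_rfl y)
    (fun y hy => by rw [hs y hy, mul_zero])
  have e : ∫ y, m y * (K⁻¹ * G y) = K⁻¹ * ∫ y, m y * G y := by
    rw [← integral_const_mul]
    congr 1
    funext y
    ring
  rw [e] at h1
  have h2 := mul_le_mul_of_nonneg_left h1 hK.le
  rw [← mul_assoc, mul_inv_cancel₀ hK.ne', one_mul] at h2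
  linarith

/-- the building blocks -/
lemma piece_zero {ν : Sp d} (hν : ‖ν‖ = 1) {R1 Rs : ℝ} {κ : Sp d → ℝ}
    (hk : ∀ y, κ y ≠ 0 → ‖tang ν y‖ ≤ R1 - Rs - 3) {g : ℝ → ℝ} (hg : ∀ c, Rs ≤ |c| → g c = 0) :
    ∀ y, R1 ≤ ‖y‖ → κ y * g ⟪ν, y⟫_ℝ = 0 := by
  intro y hy
  by_contra h
  have h1 : κ y ≠ 0 := fun h0 => h (by rw [h0, zero_mul])
  have h2 : g ⟪ν, y⟫_ℝ ≠ 0 := fun h0 => h (by rw [h0, mul_zero])
  have h3 := hk y h1
  have h4 : |⟪ν, y⟫_ℝ| < Rs := by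
    by_contra h5
    push Not at h5
    exact h2 (hg _ h5)
  have h5 := norm_le_ht hν 0 y
  rw [ht, sub_zero, abs_zero] at h5
  linarith

lemma piece_bf {ν : Sp d} (hν : ‖ν‖ = 1) {κ : Sp d → ℝ} (hκ : TFn 2 1 κ) {g : ℝ → ℝ} {K : ℝ}
    (hg : BF 2 K g) : BF 2 (4 * K) (fun y => κ y * g ⟪ν, y⟫_ℝ) := by
  have h1 : BF 2 1 κ := ⟨hκ.smooth, hκ.bd⟩
  have h2 := h1.mul (hg.comp_ht hν 0)
  have e : (fun y : Sp d => κ y * g (ht ν 0 y)) = fun y => κ y * g ⟪ν, y⟫_ℝ := by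
    funext y
    rw [ht, sub_zero]
  rw [e] at h2
  convert h2 using 1
  ring

lemma piece_integrable {ν : Sp d} (hν : ‖ν‖ = 1) {R1 Rs : ℝ} {κ m : Sp d → ℝ} (hm : Continuous m)
    (hκ : Continuous κ) (hk : ∀ y, κ y ≠ 0 → ‖tang ν y‖ ≤ R1 - Rs - 3) {g : ℝ → ℝ}
    (hgc : Continuous g) (hg : ∀ c, Rs ≤ |c| → g c = 0) :
    Integrable (fun y => m y * (κ y * g ⟪ν, y⟫_ℝ)) := by
  refine Continuous.integrable_of_hasCompactSupport ?_ ?_
  · exact hm.mul (hκ.mul (hgc.comp (continuous_const.inner continuous_id)))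
  · refine HasCompactSupport.intro (isCompact_closedBall (0 : Sp d) R1) fun y hy => ?_
    rw [mem_closedBall_zero_iff, not_le] at hy
    rw [piece_zero hν hk hg y hy.le, mul_zero]

lemma piece_lin {ν : Sp d} (hν : ‖ν‖ = 1) {R1 Rs : ℝ} {κ m : Sp d → ℝ} (hm : Continuous m)
    (hκ : Continuous κ) (hk : ∀ y, κ y ≠ 0 → ‖tang ν y‖ ≤ R1 - Rs - 3) {g1 g2 g3 : ℝ → ℝ}
    (hc1 : Continuous g1) (hc2 : Continuous g2) (hc3 : Continuous g3)
    (hg1 : ∀ c, Rs ≤ |c| → g1 c = 0) (hg2 : ∀ c, Rs ≤ |c| → g2 c = 0)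
    (hg3 : ∀ c, Rs ≤ |c| → g3 c = 0) (a1 a2 a3 : ℝ) :
    ∫ y, m y * (κ y * (a1 * g1 ⟪ν, y⟫_ℝ + (a2 * g2 ⟪ν, y⟫_ℝ + a3 * g3 ⟪ν, y⟫_ℝ))) =
      a1 * (∫ y, m y * (κ y * g1 ⟪ν, y⟫_ℝ)) + a2 * (∫ y, m y * (κ y * g2 ⟪ν, y⟫_ℝ)) +
        a3 * (∫ y, m y * (κ y * g3 ⟪ν, y⟫_ℝ)) := by
  have i1 := (piece_integrable hν hm hκ hk hc1 hg1).const_mul a1
  have i2 := (piece_integrable hν hm hκ hk hc2 hg2).const_mul a2
  have i3 := (piece_integrable hν hm hκ hk hc3 hg3).const_mul a3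
  have i12 : Integrable (fun y => a1 * (m y * (κ y * g1 ⟪ν, y⟫_ℝ)) +
      a2 * (m y * (κ y * g2 ⟪ν, y⟫_ℝ))) := i1.add i2
  rw [← integral_const_mul, ← integral_const_mul, ← integral_const_mul,
    ← integral_add i1 i2, ← integral_add i12 i3]
  congr 1
  funext y
  ring

lemma gain_nonneg {J : ℕ} {M : ℝ} {β : Sp d → ℝ} (hβ : Kit J M β) (ε : ℝ) (μ : Measure (Sp d))
    (n y : Sp d) : 0 ≤ XX β ε μ n 1 y := by
  have h0 : ∀ t r : ℝ, 0 ≤ tau t r := fun t r => le_max_left _ _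
  have h1 : ∀ t y, 0 ≤ X1 β ε μ n t y := fun t y =>
    integral_nonneg fun z => mul_nonneg (hβ.prof.nonneg z)
      (div_nonneg (sq_nonneg _) (Real.sqrt_nonneg _))
  have h3 : ∀ t y, 0 ≤ X3 β ε μ n t y := fun t y =>
    integral_nonneg fun z => mul_nonneg (hβ.prof.nonneg z)
      (div_nonneg (sq_nonneg _) (Real.sqrt_nonneg _))
  have h2 : ∀ t y, 0 ≤ t → 0 ≤ X2 μ n t y := fun t y ht =>
    div_nonneg (integral_nonneg fun η => mul_nonneg (by positivity) (by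
      unfold kk
      positivity)) (Real.sqrt_nonneg _)
  have h4 : ∀ F : ℝ → Sp d → ℝ, (∀ t y, 0 ≤ t → 0 ≤ F t y) → 0 ≤ tav F 1 y := by
    intro F hF
    unfold tav
    refine intervalIntegral.integral_nonneg (by norm_num) fun r hr => ?_
    exact mul_nonneg (h0 _ _) (hF r y (by linarith [hr.1]))
  exact add_nonneg (add_nonneg (h4 _ fun t y _ => h1 t y) (h4 _ fun t y ht => h2 t y ht))
    (h4 _ fun t y _ => h3 t y)

lemma exists_unit (hd : 1 ≤ d) : ∃ n : Sp d, ‖n‖ = 1 :=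
  ⟨EuclideanSpace.single ⟨0, hd⟩ 1, by simp⟩

end B2m

open SMm B2m

theorem stmtB2 (hUU : StmtUU) (hUB : StmtUB) (hTH : StmtTH) (hPF : StmtPF) : StmtB2 := by
  intro d J0 hd hJ0 M C' ε p0 A c R0 hC' hε hε4 hF hR0
  have hd1 : 1 ≤ d := by omega
  have hA := hF.A_ge
  have hR20 : (20 : ℝ) ≤ R0 := by
    have : (0 : ℝ) ≤ d := Nat.cast_nonneg d
    linarith
  obtain ⟨CU, hCU, hUU'⟩ := hUU d J0 hd hJ0 M C' ε p0 A c R0 hC' hε hε4 hF hR0
  obtain ⟨C2, hC2, hUB'⟩ := hUB d 2 hd M C' ε p0 A hC' hε (by linarith) hF.p0_pos hF.p0_le hA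
  obtain ⟨Cp, hCp, hpl⟩ := pl_bf hPF hd1 (2 * R0)
  obtain ⟨Nz, hNz, hz⟩ := sT_BF (G := Sp d) 2 (R := 2 * R0 - 1) (by linarith)
  obtain ⟨Nb, hNb, hb⟩ := sT_BF (G := ℝ) 2 (R := R0 + 1) (by linarith)
  choose KQ hKQ1 hKQ using fun J : ℕ => SH.zq_tfn (d := d) (R := R0) (by linarith) J
  have hKQ0 : ∀ J, 0 < KQ J := fun J => lt_of_lt_of_le one_pos (hKQ1 J)
  set V1 : ℝ := (1 + 2 * R0) ^ d with hV1
  have hV1p : 0 < V1 := by positivity
  set K1 : ℝ := 4 * (Nz * (C2 * V1)) with hK1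
  have hK1p : 0 < K1 := by positivity
  set K2 : ℝ := 2 * CU * (Cp * K1) + CU * Nb + Cp * KQ 2 with hK2
  have hK2p : 0 < K2 := by
    have := hKQ0 2
    positivity
  refine ⟨2 * CU, by positivity, fun δ Rs hδ hRs => ⟨fun J => δ / KQ J,
    fun J => div_pos hδ (hKQ0 J), fun R1 rm => ?_⟩⟩
  refine ⟨rm * (4 * K2) + 2 * CU * (rm * (4 * (Cp * K1))) + 1, by positivity, ?_⟩
  intro β hβ μ hμ m a D J r ν κ hm ha hD hZP hStr
  obtain ⟨-, -, -, -, -, -, -, -, -, hHn, -, -⟩ := hUB' β (PTm.kit_mono (by omega) hβ) μ hμ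
  have hv0 : 0 < vv μ 1 0 := by
    obtain ⟨C, hC, h1⟩ := hTH d 0 hd C' hC'
    exact Real.sqrt_pos.mpr ((h1 μ hμ).1 1 0 one_pos).1
  set v := vv μ 1 0 with hv
  -- the gain density
  set F : Sp d → Sp d → ℝ := fun n x => zR (2 * R0 - 1) x * Hn β ε p0 A μ n 1 x with hFd
  have hF0 : ∀ n : Sp d, ‖n‖ = 1 → ∀ y, 0 ≤ F n y := by
    intro n hn y
    have h1 := hF.gain β hβ μ hμ n hn y
    have h2 : 0 ≤ XX β ε μ n 1 y := gain_nonneg hβ ε μ n y
    exact mul_nonneg (sT_nonneg _ _) ((mul_nonneg hF.c_pos.le h2).trans h1)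
  have hFs : ∀ n y, 2 * R0 ≤ ‖y‖ → F n y = 0 := by
    intro n y hy
    have : zR (2 * R0 - 1) y = 0 := sT_zero (by linarith)
    simp only [hFd, this, zero_mul]
  have hFb : ∀ n : Sp d, ‖n‖ = 1 → BF 2 (K1 * v) (F n) := by
    intro n hn
    have h1 := bf_cut (ρ := 2 * R0) hz (fun y hy => sT_zero (by linarith))
      ((hHn n hn).1.of_le (by norm_cast)) (B := C2 * (V1 * v)) (by positivity)
      (fun j hj y hy => ((hHn n hn).2 j hj y).trans
        (mul_le_mul_of_nonneg_left (vv_ball hTH hd hC' hμ (by linarith) hy) hC2.le))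
    refine h1.mono (le_of_eq ?_)
    rw [hK1]
    ring
  set ψ : Sp d → ℝ → ℝ := fun n s => plInt n s (F n) with hψ
  have hψ0 : ∀ n : Sp d, ‖n‖ = 1 → ∀ s, 0 ≤ ψ n s := fun n hn s =>
    integral_nonneg fun y => hF0 n hn _
  have hψb : ∀ n : Sp d, ‖n‖ = 1 → BF 2 (Cp * (K1 * v)) (ψ n) := fun n hn =>
    hpl n hn (F n) _ (hFb n hn) (hFs n)
  have hψs : ∀ n : Sp d, ‖n‖ = 1 → ∀ s, Rs ≤ |s| → ψ n s = 0 := fun n hn s hs =>
    pl_zero hn (hFs n) (hRs.trans hs)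
  -- the pieces
  have hpc : pieces m ν κ F = ∑ i, ∫ y, m y * (κ i y * ψ (ν i) ⟪ν i, y⟫_ℝ) := rfl
  have hrm : (r : ℝ) ≤ rm := by exact_mod_cast hStr.rle
  have hκc : ∀ i, Continuous (κ i) := fun i => (hStr.kb i).smooth.continuous
  have hplow : -(rm * (4 * (Cp * K1)) * (v * D)) ≤ pieces m ν κ F := by
    rw [hpc]
    have h1 : ∀ i : Fin r, -(4 * (Cp * (K1 * v)) * D) ≤
        ∫ y, m y * (κ i y * ψ (ν i) ⟪ν i, y⟫_ℝ) := fun i =>
      zp_use hZP (by positivity) (piece_bf (hStr.n1 i) (hStr.kb i) (hψb _ (hStr.n1 i)))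
        (fun y => mul_nonneg (hStr.k0 i y) (hψ0 _ (hStr.n1 i) _))
        (piece_zero (hStr.n1 i) (hStr.ks i) (hψs _ (hStr.n1 i)))
    have h2 := Finset.sum_le_sum fun (i : Fin r) (_ : i ∈ Finset.univ) => h1 i
    rw [Finset.sum_const, Finset.card_univ, Fintype.card_fin, nsmul_eq_mul] at h2
    refine le_trans ?_ h2
    have h3 : 0 ≤ 4 * (Cp * (K1 * v)) * D := by positivity
    have h4 := mul_le_mul_of_nonneg_right hrm h3
    nlinarith
  -- the sum of the integrals of the bumps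
  set bmp : ℝ → ℝ := fun s => sT (R0 + 1) s with hbmp
  set S : ℝ := ∑ i, |∫ y, m y * (κ i y * bmp ⟪ν i, y⟫_ℝ)| with hS
  have hS0 : 0 ≤ S := Finset.sum_nonneg fun i _ => abs_nonneg _
  have hbs : ∀ s, Rs ≤ |s| → bmp s = 0 := fun s hs => sT_zero (by
    rw [Real.norm_eq_abs]
    linarith)
  -- main estimate with a small t
  have main : ∀ t : ℝ, 0 < t → t ≤ v → v * bq R0 m ≤
      2 * CU * pieces m ν κ F + δ * a * v +
        (rm * (4 * K2) + 2 * CU * (rm * (4 * (Cp * K1))) + 1) * v * D + CU * t * S := by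
    intro t ht0 htv
    -- almost minimal plane
    set Ψ : Set ℝ := {x | ∃ (n : Sp d) (s : ℝ), ‖n‖ = 1 ∧ |s| ≤ R0 + 1 ∧ x = ψ n s} with hΨ
    obtain ⟨n0, hn0⟩ := exists_unit hd1
    have hne : Ψ.Nonempty := ⟨ψ n0 0, n0, 0, hn0, by rw [abs_zero]; linarith, rfl⟩
    have hbd : BddBelow Ψ := ⟨0, by
      rintro x ⟨n, s, hn, -, rfl⟩
      exact hψ0 n hn s⟩
    obtain ⟨x, ⟨n', s', hn', hs', rfl⟩, hx⟩ := exists_lt_of_csInf_lt hne
      (show sInf Ψ < sInf Ψ + t by linarith)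
    have hmin : ∀ (n : Sp d) (s : ℝ), ‖n‖ = 1 → |s| ≤ R0 + 1 → ψ n' s' ≤ ψ n s + t := by
      intro n s hn hs
      have := csInf_le hbd (show ψ n s ∈ Ψ from ⟨n, s, hn, hs, rfl⟩)
      linarith
    set ζ : Sp d → ℝ := fun y => zR R0 y * ht n' s' y ^ 2 with hζ
    have hζT : ∀ J, TFn J (KQ J) ζ := fun J => hKQ J n' s' hn' (by linarith)
    have hζs : ∀ y, R0 + 1 ≤ ‖y‖ → ζ y = 0 := by
      intro y hy
      have : zR R0 y = 0 := sT_zero hy
      simp only [hζ, this, zero_mul]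
    have hζb : ∀ n : Sp d, ‖n‖ = 1 → BF 2 (Cp * KQ 2) (fun s => plInt n s ζ) := fun n hn =>
      hpl n hn ζ _ ⟨(hζT 2).smooth, (hζT 2).bd⟩ (fun y hy => hζs y (by linarith))
    have hζz : ∀ n : Sp d, ‖n‖ = 1 → ∀ s, R0 + 1 ≤ |s| → plInt n s ζ = 0 := fun n hn s hs =>
      pl_zero hn hζs hs
    -- comparison on planes
    have hcmp : ∀ (n : Sp d) (s : ℝ), ‖n‖ = 1 →
        0 ≤ 2 * CU * ψ n s + (CU * t * bmp s + (-v) * plInt n s ζ) := by
      intro n s hn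
      rcases le_total |s| (R0 + 1) with hs | hs
      · have h1 := hUU' β hβ μ hμ n n' s s' hn hn' hs hs'
        have h2 := hmin n s hn hs
        have h3 : bmp s = 1 := sT_one (by rw [Real.norm_eq_abs]; exact hs)
        have h4 : v * plInt n s ζ ≤ CU * (ψ n s + ψ n' s') := h1
        have h5 := mul_le_mul_of_nonneg_left h2 hCU.le
        rw [h3]
        nlinarith
      · rw [hζz n hn s hs, mul_zero, add_zero]
        have h1 := hψ0 n hn s
        have h2 : 0 ≤ bmp s := sT_nonneg _ _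
        positivity
    -- Lemma Z for the pieces
    have hpi : ∀ i : Fin r, v * (∫ y, m y * (κ i y * plInt (ν i) ⟪ν i, y⟫_ℝ ζ)) ≤
        2 * CU * (∫ y, m y * (κ i y * ψ (ν i) ⟪ν i, y⟫_ℝ)) +
          CU * t * |∫ y, m y * (κ i y * bmp ⟪ν i, y⟫_ℝ)| + 4 * K2 * (v * D) := by
      intro i
      have hni := hStr.n1 i
      have hgb : BF 2 (K2 * v) (fun s => 2 * CU * ψ (ν i) s +
          (CU * t * bmp s + (-v) * plInt (ν i) s ζ)) := by
        refine (((hψb _ hni).const_mul (2 * CU)).add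
          ((hb.const_mul (CU * t)).add ((hζb _ hni).const_mul (-v)))).mono ?_
        rw [abs_of_pos (by positivity : 0 < 2 * CU), abs_of_pos (by positivity : 0 < CU * t),
          abs_neg, abs_of_pos hv0, hK2]
        have h1 : CU * t * Nb ≤ CU * v * Nb := by gcongr
        nlinarith
      have h1 := zp_use hZP (K := 4 * (K2 * v)) (by positivity)
        (piece_bf hni (hStr.kb i) hgb)
        (fun y => mul_nonneg (hStr.k0 i y) (hcmp _ _ hni))
        (piece_zero hni (hStr.ks i) (g := fun s => 2 * CU * ψ (ν i) s +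
          (CU * t * bmp s + (-v) * plInt (ν i) s ζ)) (fun s hs => by
            rw [hψs _ hni s hs, hbs s hs, hζz _ hni s (by linarith)]
            ring))
      rw [piece_lin hni hm (hκc i) (hStr.ks i) (hψb _ hni).smooth.continuous
        hb.smooth.continuous (hζb _ hni).smooth.continuous (hψs _ hni) hbs
        (fun s hs => hζz _ hni s (by linarith))] at h1
      have h2 : CU * t * (∫ y, m y * (κ i y * bmp ⟪ν i, y⟫_ℝ)) ≤
          CU * t * |∫ y, m y * (κ i y * bmp ⟪ν i, y⟫_ℝ)| :=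
        mul_le_mul_of_nonneg_left (le_abs_self _) (by positivity)
      have h3 : 4 * (K2 * v) * D = 4 * K2 * (v * D) := by ring
      rw [h3] at h1
      linarith
    have hsum : v * (∑ i, ∫ y, m y * (κ i y * plInt (ν i) ⟪ν i, y⟫_ℝ ζ)) ≤
        2 * CU * pieces m ν κ F + CU * t * S + rm * (4 * K2) * (v * D) := by
      rw [hpc, hS, Finset.mul_sum, Finset.mul_sum, Finset.mul_sum]
      refine (Finset.sum_le_sum fun i _ => hpi i).trans ?_
      rw [Finset.sum_add_distrib, Finset.sum_add_distrib, Finset.sum_const, Finset.card_univ,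
        Fintype.card_fin, nsmul_eq_mul]
      have h3 : 0 ≤ 4 * K2 * (v * D) := by positivity
      have h4 := mul_le_mul_of_nonneg_right hrm h3
      linarith
    -- the structure theorem
    have hest := hStr.est ζ (KQ J) (hζT J) (fun y hy => hζs y (by linarith))
    have hE : δ / KQ J * a * KQ J = δ * a := by
      field_simp [(hKQ0 J).ne']
    rw [hE] at hest
    have hblc : v * blc n' s' m R0 ≤ 2 * CU * pieces m ν κ F + CU * t * S +
        rm * (4 * K2) * (v * D) + δ * a * v := by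
      have h1 : blc n' s' m R0 ≤
          (∑ i, ∫ y, m y * (κ i y * plInt (ν i) ⟪ν i, y⟫_ℝ ζ)) + δ * a := by
        have := (abs_le.1 hest).2
        have e : blc n' s' m R0 = ∫ y, m y * ζ y := rfl
        rw [e]
        linarith
      have h2 := mul_le_mul_of_nonneg_left h1 hv0.le
      nlinarith
    -- conclusion
    have hbq : bq R0 m ≤ max 0 (blc n' s' m R0) := by
      unfold bq
      refine max_le (le_max_left _ _) ?_
      by_cases hB : BddBelow {v : ℝ | ∃ (n : Sp d) (s : ℝ), ‖n‖ = 1 ∧ |s| ≤ R0 + 1 ∧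
          v = blc n s m R0}
      · exact (csInf_le hB ⟨n', s', hn', hs', rfl⟩).trans (le_max_right _ _)
      · rw [Real.sInf_of_not_bddBelow hB]
        exact le_max_left _ _
    have hvD : 0 ≤ v * D := by positivity
    have h5 : v * bq R0 m ≤ v * max 0 (blc n' s' m R0) := mul_le_mul_of_nonneg_left hbq hv0.le
    refine h5.trans ?_
    rw [mul_max_of_nonneg _ _ hv0.le, mul_zero]
    have h6 : 0 ≤ CU * t * S := by positivity
    have h7 : 0 ≤ δ * a * v := by positivity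
    have h8 : (rm * (4 * K2) + 2 * CU * (rm * (4 * (Cp * K1))) + 1) * v * D =
        rm * (4 * K2) * (v * D) + 2 * CU * (rm * (4 * (Cp * K1)) * (v * D)) + v * D := by ring
    have h9 : 0 ≤ rm * (4 * K2) * (v * D) := by positivity
    have h10 : 0 ≤ 2 * CU * (rm * (4 * (Cp * K1)) * (v * D)) := by positivity
    have h11 := mul_le_mul_of_nonneg_left hplow (by positivity : 0 ≤ 2 * CU)
    rw [h8]
    refine max_le ?_ ?_
    · rw [mul_neg] at h11
      linarith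
    · linarith
  -- the limit t to 0
  refine le_of_forall_pos_le_add fun e he => ?_
  have ht : 0 < min v (e / (CU * S + 1)) := lt_min hv0 (by positivity)
  have h1 := main _ ht (min_le_left _ _)
  refine h1.trans ?_
  have h2 : CU * min v (e / (CU * S + 1)) * S ≤ e := by
    have h3 : min v (e / (CU * S + 1)) ≤ e / (CU * S + 1) := min_le_right _ _
    have h4 : 0 < CU * S + 1 := by positivity
    calc CU * min v (e / (CU * S + 1)) * S ≤ CU * (e / (CU * S + 1)) * S := by gcongr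
      _ = e * (CU * S / (CU * S + 1)) := by ring
      _ ≤ e * 1 := by
          apply mul_le_mul_of_nonneg_left _ he.le
          rw [div_le_one h4]
          linarith
      _ = e := mul_one e
  have h5 : 2 * CU * pieces m ν κ (fun n x => zR (2 * R0 - 1) x * Hn β ε p0 A μ n 1 x) =
      2 * CU * pieces m ν κ F := rfl
  rw [h5]
  linarith

end

end TG
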