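import Pool.Agent.TG.UUb

/-!
# MODULE UU (10.2): two planes with small gains are close to each other
-/

open MeasureTheory Metric Set TrI Filter
open scoped InnerProductSpace ContDiff Topology

set_option linter.unusedSectionVars false

namespace TG

noncomputable section

namespace UUm

variable {d : ℕ}

lemma cont_tang (n : Sp d) : Continuous (fun v : Sp d => tang n v) := by
  unfold tang; fun_prop

/-- lower bound of X1 -/
lemma X1_low {μ : Measure (Sp d)} (hP : GPx.Pot μ) {J : ℕ} {M : ℝ} {β : Sp d → ℝ} (hβ : Kit J M β)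
    {ε : ℝ} {n : Sp d} {r : ℝ} (hr : 0 < r) {y : Sp d} {κ : ℝ}
    (hκ : ∀ z : Sp d, ‖z‖ ≤ 1 → κ ≤ ‖tang n (gradient (vv μ r) (y + (ε * r) • z))‖ ^ 2
      / vv μ r (y + (ε * r) • z)) : κ ≤ X1 β ε μ n r y := by
  have hc1 : Continuous (fun z : Sp d => ‖tang n (gradient (vv μ r) (y + (ε * r) • z))‖ ^ 2
      / vv μ r (y + (ε * r) • z)) := by
    refine Continuous.div ?_ (hP.cont_v hr ε y) (fun z => (hP.vpos hr _).ne')
    exact ((cont_tang n).comp (hP.cont_grad hr ε y)).norm.pow 2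
  have hbc : Continuous β := hβ.prof.smooth.continuous
  have hcs : HasCompactSupport β := by
    refine HasCompactSupport.intro (isCompact_closedBall (0 : Sp d) 1) fun z hz => ?_
    refine hβ.prof.supp z ?_
    simp only [mem_closedBall, dist_zero_right, not_le] at hz
    exact hz.le
  have i1 : Integrable (fun z => β z * (‖tang n (gradient (vv μ r) (y + (ε * r) • z))‖ ^ 2
      / vv μ r (y + (ε * r) • z))) :=
    (hbc.mul hc1).integrable_of_hasCompactSupport hcs.mul_right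
  have i2 : Integrable β := hbc.integrable_of_hasCompactSupport hcs
  have h1 : κ = ∫ z, β z * κ := by
    rw [integral_mul_const, hβ.prof.int, one_mul]
  rw [h1]
  unfold X1
  refine integral_mono (i2.mul_const κ) i1 fun z => ?_
  by_cases hz : ‖z‖ ≤ 1
  · exact mul_le_mul_of_nonneg_left (hκ z hz) (hβ.prof.nonneg z)
  · have : β z = 0 := hβ.prof.supp z (by linarith)
    simp only [this, zero_mul, le_refl]

section main

variable (h : StmtTH) (hd : 2 ≤ d) {C' : ℝ} (hC' : 0 < C') {μ : Measure (Sp d)} (hμ : Gro C' μ)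

include h hd hC' hμ

lemma tavX1_low {J : ℕ} {M : ℝ} {β : Sp d → ℝ} (hβ : Kit J M β) {ε : ℝ} (hε : 0 < ε) (hε1 : ε ≤ 1)
    {n : Sp d} (hn : ‖n‖ = 1) {y : Sp d} {κ : ℝ}
    (hκ : ∀ r : ℝ, 1 / 2 ≤ r → r ≤ 2 → κ ≤ X1 β ε μ n r y) :
    T0 * κ ≤ tav (X1 β ε μ n) 1 y := by
  have hs := (X1_bd (ι := Unit) h hd hC' (μ := fun _ => μ) (fun _ => hμ) 0 hε hε1
    (β := fun _ => β) (fun _ => hβ) (n := fun _ => n) (fun _ => hn)).smooth ()
  have hc : ContinuousOn (fun r : ℝ => X1 β ε μ n r y) (Icc (1 / 2) 2) := by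
    have h1 : ContinuousOn (fun p : ℝ × Sp d => X1 β ε μ n p.1 p.2) (SL d) := hs.continuousOn
    exact h1.comp (f := fun r : ℝ => ((r, y) : ℝ × Sp d)) (by fun_prop)
      (fun r hr => mem_SL_of hr.1 hr.2 y)
  have hI : IntegrableOn (fun r => tau 1 r * X1 β ε μ n r y) (Ioc (1 / 2) 2) :=
    ((MO.tau_cont.continuousOn.mul hc).integrableOn_Icc).mono_set Ioc_subset_Icc_self
  unfold tav T0
  rw [mul_one, intervalIntegral.integral_of_le (by norm_num),
    intervalIntegral.integral_of_le (by norm_num), ← integral_mul_const]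
  refine setIntegral_mono_on ?_ hI measurableSet_Ioc fun r hr => ?_
  · have hc : Continuous fun r : ℝ => tau 1 r * κ := MO.tau_cont.mul continuous_const
    exact (hc.integrableOn_Icc (a := 1 / 2) (b := 2)).mono_set Ioc_subset_Icc_self
  · exact mul_le_mul_of_nonneg_left (hκ r hr.1.le hr.2) (MO.tau_nonneg r)

end main

/-! ## the cut-off -/

lemma zR_nonneg (R : ℝ) (x : Sp d) : 0 ≤ zR R x := Real.smoothTransition.nonneg _

lemma zR_le_one (R : ℝ) (x : Sp d) : zR R x ≤ 1 := Real.smoothTransition.le_one _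

lemma zR_one {R : ℝ} {x : Sp d} (h : ‖x‖ ≤ R) : zR R x = 1 :=
  Real.smoothTransition.one_of_one_le (by linarith)

lemma zR_zero {R : ℝ} {x : Sp d} (h : R + 1 ≤ ‖x‖) : zR R x = 0 :=
  Real.smoothTransition.zero_of_nonpos (by linarith)

lemma zR_cont (R : ℝ) : Continuous (zR R : Sp d → ℝ) := by
  unfold zR
  exact Real.smoothTransition.continuous.comp (by fun_prop)

lemma zR_cs (R : ℝ) : HasCompactSupport (zR R : Sp d → ℝ) := by
  refine HasCompactSupport.intro (isCompact_closedBall (0 : Sp d) (R + 1)) fun x hx => ?_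
  refine zR_zero ?_
  simp only [mem_closedBall, dist_zero_right, not_le] at hx
  exact hx.le

/-! ## geometry -/

/-- combination of the heights -/
def mm (n n' : Sp d) (s s' g σ : ℝ) (η : Sp d) : ℝ := g * MO.ht n s η - σ * MO.ht n' s' η

lemma mm_cont (n n' : Sp d) (s s' g σ : ℝ) : Continuous (mm n n' s s' g σ) := by
  unfold mm
  exact (continuous_const.mul (MO.ht_cont n s)).sub (continuous_const.mul (MO.ht_cont n' s'))

lemma mm_diff (n n' : Sp d) (s s' g σ : ℝ) (y η : Sp d) :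
    ⟪y - η, g • n - σ • n'⟫_ℝ = mm n n' s s' g σ y - mm n n' s s' g σ η := by
  unfold mm MO.ht
  rw [inner_sub_right, inner_smul_right, inner_smul_right, inner_sub_left, inner_sub_left]
  ring

lemma mm_sq (n n' : Sp d) (s s' : ℝ) {g σ : ℝ} (hg0 : 0 ≤ g) (hg1 : g ≤ 1) (hσ : σ ^ 2 = 1)
    (η : Sp d) : mm n n' s s' g σ η ^ 2 ≤ 2 * MO.ht n s η ^ 2 + 2 * MO.ht n' s' η ^ 2 := by
  unfold mm
  have h1 : g ^ 2 ≤ 1 := by nlinarith
  have h2 : (g * MO.ht n s η - σ * MO.ht n' s' η) ^ 2 ≤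
      2 * (g * MO.ht n s η) ^ 2 + 2 * (σ * MO.ht n' s' η) ^ 2 := by
    nlinarith [sq_nonneg (g * MO.ht n s η + σ * MO.ht n' s' η)]
  rw [mul_pow, mul_pow, hσ, one_mul] at h2
  nlinarith [sq_nonneg (MO.ht n s η)]

/-! ## the core argument -/

/-- constant of comparison of v -/
def Cv (d : ℕ) (C R0 : ℝ) : ℝ := Real.sqrt C * (1 + 4 * R0) ^ d

section core

variable (h : StmtTH) {k : ℕ} (hd : 2 ≤ k + 1) {C' : ℝ} (hC' : 0 < C')
  {μ : Measure (Sp (k + 1))} (hμ : Gro C' μ)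

lemma v_cmp {C : ℝ} (hC : 0 < C) (hT : MO.THd 0 C μ) {R0 : ℝ} (hR0 : 0 < R0) {r : ℝ}
    (h1 : 1 / 2 ≤ r) (h2 : r ≤ 2) {y : Sp (k + 1)} (hy : ‖y‖ ≤ 2 * R0) :
    vv μ r y ≤ Cv (k + 1) C R0 * vv μ 1 0 ∧ vv μ 1 0 ≤ Cv (k + 1) C R0 * vv μ r y := by
  have hr0 : 0 < r := by linarith
  have hs := Real.sqrt_nonneg C
  have e1 := MO.v_time hT hC (r := r) (s := 1) one_pos (by linarith) (by linarith) (0 : Sp (k + 1))
  have e2 := MO.v_time hT hC (r := 1) (s := r) hr0 (by linarith) (by linarith) (0 : Sp (k + 1))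
  have e3 := MO.v_harnack hT h1 y 0
  have e4 := MO.v_harnack hT h1 0 y
  rw [sub_zero] at e3
  rw [zero_sub, norm_neg] at e4
  have e5 : (1 + 2 * ‖y‖) ^ (k + 1) ≤ (1 + 4 * R0) ^ (k + 1) :=
    pow_le_pow_left₀ (by positivity) (by linarith) _
  have hv := (hT.vpos hr0 y).le
  have hv0 := (hT.vpos hr0 (0 : Sp (k + 1))).le
  unfold Cv
  constructor
  · calc vv μ r y ≤ (1 + 2 * ‖y‖) ^ (k + 1) * vv μ r 0 := e3
      _ ≤ (1 + 4 * R0) ^ (k + 1) * (Real.sqrt C * vv μ 1 0) := mul_le_mul e5 e1 hv0 (by positivity)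
      _ = _ := by ring
  · calc vv μ 1 0 ≤ Real.sqrt C * vv μ r 0 := e2
      _ ≤ Real.sqrt C * ((1 + 2 * ‖y‖) ^ (k + 1) * vv μ r y) := mul_le_mul_of_nonneg_left e4 hs
      _ ≤ Real.sqrt C * ((1 + 4 * R0) ^ (k + 1) * vv μ r y) :=
          mul_le_mul_of_nonneg_left (mul_le_mul_of_nonneg_right e5 hv) hs
      _ = _ := by ring

/-- the constant of L_E -/
def Ca (k : ℕ) (C R0 c : ℝ) : ℝ :=
  (1 + 4 * R0) ^ (k + 1 + 4) * (4 ^ (k + 1 + 5) * Real.sqrt C * Cv (k + 1) C R0 / (c * T0)) / vb k 1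

include h hd hC' hμ

/-- the gain on the plane bounds the second moment in the whole ball -/
lemma L_E {C : ℝ} (hC : 0 < C) (hT : MO.THd 0 C μ) {R0 c : ℝ} (hR0 : 32 ≤ R0) (hc : 0 < c)
    {J : ℕ} {M : ℝ} {β : Sp (k + 1) → ℝ} (hβ : Kit J M β) {ε : ℝ} {n : Sp (k + 1)} (hn : ‖n‖ = 1)
    {s : ℝ} (hs : |s| ≤ R0 + 1) {H : Sp (k + 1) → ℝ} (hHc : Continuous H) (hH0 : ∀ y, 0 ≤ H y)
    (hHX : ∀ y, c * XX β ε μ n 1 y ≤ H y) {y : Sp (k + 1)} (hy : ‖y‖ ≤ 2 * R0) :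
    EE μ (fun η => MO.ht n s η ^ 2) y ≤
      Ca k C R0 c * vv μ 1 0 * plInt n s (fun x => zR (2 * R0 - 1) x * H x) := by
  have hT0 := T0_pos
  have hv0 := hT.vpos one_pos (0 : Sp (k + 1))
  have hCv : 0 < Cv (k + 1) C R0 := by
    unfold Cv; have := Real.sqrt_pos.2 hC; positivity
  have hsC := Real.sqrt_pos.2 hC
  have hvb := vb_pos k one_pos
  set Kh : ℝ := (1 + 4 * R0) ^ (k + 1 + 4) *
    (4 ^ (k + 1 + 5) * Real.sqrt C * Cv (k + 1) C R0 / (c * T0)) with hKh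
  have hKh0 : 0 < Kh := by positivity
  have hx0 : ⟪n, s • n⟫_ℝ = s := by
    rw [inner_smul_right, real_inner_self_eq_norm_sq, hn]; ring
  have hlow := pl_lower k hn (s := s) (F := fun x => zR (2 * R0 - 1) x * H x)
    ((zR_cont _).mul hHc) ((zR_cs _).mul_right) (fun x => mul_nonneg (zR_nonneg _ _) (hH0 x))
    (x := s • n) hx0 (r := 1) (κ := EE μ (fun η => MO.ht n s η ^ 2) y / (Kh * vv μ 1 0))
    (fun z hz hzx => by
      have hzn : ‖z‖ ≤ R0 + 2 := by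
        have h1 : ‖s • n‖ = |s| := by rw [norm_smul, hn, mul_one, Real.norm_eq_abs]
        have h2 := norm_add_le (z - s • n) (s • n)
        rw [sub_add_cancel, h1] at h2
        linarith
      rw [zR_one (by linarith), one_mul, div_le_iff₀ (by positivity)]
      have h1 := EE_harnack (μ := μ) (F := fun η => MO.ht n s η ^ 2) (fun η => sq_nonneg _)
        (y := z) (y' := y) (int_h2 h hd hC' hμ hn s z) (int_h2 h hd hC' hμ hn s y)
      have h2 : (1 + ‖z - y‖) ^ (k + 1 + 4) ≤ (1 + 4 * R0) ^ (k + 1 + 4) := by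
        refine pow_le_pow_left₀ (by positivity) ?_ _
        have := norm_sub_le z y
        linarith
      have h3 := EE_le_XX h hd hC' hμ hC hT hβ ε hn (s := s) (y := z)
        (by rw [real_inner_comm]; exact hz)
      have h4 := EE_nonneg μ (F := fun η => MO.ht n s η ^ 2) (fun η => sq_nonneg _) z
      have h5 := (v_cmp (μ := μ) hC hT (R0 := R0) (by linarith) (r := 1) (by norm_num) (by norm_num)
        (y := z) (by linarith)).1
      have hXX : XX β ε μ n 1 z ≤ H z / c := by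
        rw [le_div_iff₀ hc]; linarith [hHX z]
      have h6 : T0 * EE μ (fun η => MO.ht n s η ^ 2) z ≤
          4 ^ (k + 1 + 5) * Real.sqrt C * (Cv (k + 1) C R0 * vv μ 1 0) * (H z / c) := by
        refine h3.trans ?_
        have hXX0 : 0 ≤ H z / c := div_nonneg (hH0 z) hc.le
        have hvz := (hT.vpos one_pos z).le
        calc 4 ^ (k + 1 + 5) * Real.sqrt C * vv μ 1 z * XX β ε μ n 1 z ≤
            4 ^ (k + 1 + 5) * Real.sqrt C * vv μ 1 z * (H z / c) :=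
              mul_le_mul_of_nonneg_left hXX (by positivity)
          _ ≤ 4 ^ (k + 1 + 5) * Real.sqrt C * (Cv (k + 1) C R0 * vv μ 1 0) * (H z / c) := by gcongr
      have h7 : EE μ (fun η => MO.ht n s η ^ 2) z ≤
          (4 ^ (k + 1 + 5) * Real.sqrt C * Cv (k + 1) C R0 / (c * T0)) * (vv μ 1 0 * H z) := by
        have e : (4 ^ (k + 1 + 5) * Real.sqrt C * Cv (k + 1) C R0 / (c * T0)) * (vv μ 1 0 * H z) =
            (4 ^ (k + 1 + 5) * Real.sqrt C * (Cv (k + 1) C R0 * vv μ 1 0) * (H z / c)) / T0 := by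
          field_simp
        rw [e, le_div_iff₀ hT0]
        linarith
      calc EE μ (fun η => MO.ht n s η ^ 2) y ≤
            (1 + ‖z - y‖) ^ (k + 1 + 4) * EE μ (fun η => MO.ht n s η ^ 2) z := h1
        _ ≤ (1 + 4 * R0) ^ (k + 1 + 4) *
            ((4 ^ (k + 1 + 5) * Real.sqrt C * Cv (k + 1) C R0 / (c * T0)) * (vv μ 1 0 * H z)) :=
            mul_le_mul h2 h7 h4 (by positivity)
        _ = H z * (Kh * vv μ 1 0) := by rw [hKh]; ring)
  have e : Ca k C R0 c = Kh / vb k 1 := rfl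
  rw [e]
  rw [div_mul_eq_mul_div, div_le_iff₀ (by positivity)] at hlow
  have e2 : Kh / vb k 1 * vv μ 1 0 * plInt n s (fun x => zR (2 * R0 - 1) x * H x) =
      (plInt n s (fun x => zR (2 * R0 - 1) x * H x) * (Kh * vv μ 1 0)) / vb k 1 := by
    field_simp
  rw [e2, le_div_iff₀ hvb]
  exact hlow

omit h hd hC' hμ in
/-- alternative at a point of the plane: large gain or near mass -/
lemma L_far {C : ℝ} (hC : 0 < C) (hT : MO.THd 0 C μ) {R0 c CB LH A : ℝ} (hR0 : 32 ≤ R0)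
    (hc : 0 < c) (hCB : 0 < CB) (hLH : 0 < LH)
    {n : Sp (k + 1)} (hn : ‖n‖ = 1) {s : ℝ} {H : Sp (k + 1) → ℝ} (hHc : Continuous H)
    (hH0 : ∀ y, 0 ≤ H y)
    (hLip : ∀ x y : Sp (k + 1), ‖x‖ ≤ 2 * R0 → ‖y‖ ≤ 2 * R0 → |H y - H x| ≤ LH * vv μ 1 0 * ‖y - x‖)
    {x : Sp (k + 1)} (hx : ⟪n, x⟫_ℝ = s) (hxR : ‖x‖ ≤ 2 * R0 - 3)
    (hdich : c * vv μ 1 x ≤ H x ∨ vv μ 1 x ^ 2 ≤ CB * (μ (ball x A)).toReal) :
    c / (2 * Cv (k + 1) C R0) * vb k (min 1 (c / (2 * Cv (k + 1) C R0 * LH))) * vv μ 1 0 ≤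
      plInt n s (fun x => zR (2 * R0 - 1) x * H x) ∨
    1 / (CB * Cv (k + 1) C R0 ^ 2) * vv μ 1 0 ^ 2 ≤ (μ (ball x A)).toReal := by
  have hv0 := hT.vpos one_pos (0 : Sp (k + 1))
  have hCv : 0 < Cv (k + 1) C R0 := by
    unfold Cv; have := Real.sqrt_pos.2 hC; positivity
  have hcmp := (v_cmp (μ := μ) hC hT (R0 := R0) (by linarith) (r := 1) (by norm_num) (by norm_num)
        (y := x) (by linarith)).2
  rcases hdich with hd1 | hd1
  · left
    set r1 : ℝ := min 1 (c / (2 * Cv (k + 1) C R0 * LH)) with hr1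
    have hlow := pl_lower k hn (s := s) (F := fun x => zR (2 * R0 - 1) x * H x)
      ((zR_cont _).mul hHc) ((zR_cs _).mul_right) (fun x => mul_nonneg (zR_nonneg _ _) (hH0 x))
      (x := x) hx (r := r1) (κ := c / (2 * Cv (k + 1) C R0) * vv μ 1 0)
      (fun z hz hzx => by
        have h1 : ‖z - x‖ ≤ 1 := hzx.trans (min_le_left _ _)
        have h2 : ‖z‖ ≤ 2 * R0 - 2 := by
          have := norm_add_le (z - x) x
          rw [sub_add_cancel] at this
          linarith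
        rw [zR_one (by linarith), one_mul]
        have h3 := hLip x z (by linarith) (by linarith)
        have h4 : LH * vv μ 1 0 * ‖z - x‖ ≤ c / (2 * Cv (k + 1) C R0) * vv μ 1 0 := by
          have h5 : ‖z - x‖ ≤ c / (2 * Cv (k + 1) C R0 * LH) := hzx.trans (min_le_right _ _)
          calc LH * vv μ 1 0 * ‖z - x‖ ≤ LH * vv μ 1 0 * (c / (2 * Cv (k + 1) C R0 * LH)) :=
                mul_le_mul_of_nonneg_left h5 (by positivity)
            _ = _ := by field_simp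
        have h6 : c / Cv (k + 1) C R0 * vv μ 1 0 ≤ H x := by
          refine le_trans ?_ hd1
          rw [div_mul_eq_mul_div, div_le_iff₀ hCv]
          nlinarith
        have h7 : c / Cv (k + 1) C R0 * vv μ 1 0 =
            c / (2 * Cv (k + 1) C R0) * vv μ 1 0 + c / (2 * Cv (k + 1) C R0) * vv μ 1 0 := by
          field_simp; ring
        have h8 := (abs_le.1 h3).1
        linarith)
    calc _ = c / (2 * Cv (k + 1) C R0) * vv μ 1 0 * vb k r1 := by ring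
      _ ≤ _ := hlow
  · right
    have h1 : vv μ 1 0 ^ 2 ≤ (Cv (k + 1) C R0 * vv μ 1 x) ^ 2 := pow_le_pow_left₀ hv0.le hcmp 2
    rw [div_mul_eq_mul_div, one_mul, div_le_iff₀ (by positivity)]
    calc vv μ 1 0 ^ 2 ≤ Cv (k + 1) C R0 ^ 2 * vv μ 1 x ^ 2 := by rw [← mul_pow]; exact h1
      _ ≤ Cv (k + 1) C R0 ^ 2 * (CB * (μ (ball x A)).toReal) :=
          mul_le_mul_of_nonneg_left hd1 (by positivity)
      _ = _ := by ring

lemma mm_int {n n' : Sp (k + 1)} (hn : ‖n‖ = 1) (hn' : ‖n'‖ = 1) (s s' : ℝ) {g σ : ℝ} (hg0 : 0 ≤ g)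
    (hg1 : g ≤ 1) (hσ : σ ^ 2 = 1) (y : Sp (k + 1)) :
    Integrable (fun η => mm n n' s s' g σ η ^ 2 * MO.K 1 (y - η)) μ := by
  have i1 := int_h2 h hd hC' hμ hn s y
  have i2 := int_h2 h hd hC' hμ hn' s' y
  have hKc : Continuous (fun η : Sp (k + 1) => MO.K 1 (y - η)) :=
    MO.K1_cont.comp (continuous_const.sub continuous_id)
  refine Integrable.mono' ((i1.const_mul 2).add (i2.const_mul 2))
    (((mm_cont n n' s s' g σ).pow 2).mul hKc).aestronglyMeasurable (Eventually.of_forall fun η => ?_)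
  have hK := (MO.K_pos one_pos (y - η)).le
  rw [Real.norm_of_nonneg (mul_nonneg (sq_nonneg _) hK)]
  have h1 := mul_le_mul_of_nonneg_right (mm_sq n n' s s' hg0 hg1 hσ η) hK
  simp only [Pi.add_apply]
  linarith

lemma mm_EE {n n' : Sp (k + 1)} (hn : ‖n‖ = 1) (hn' : ‖n'‖ = 1) (s s' : ℝ) {g σ : ℝ} (hg0 : 0 ≤ g)
    (hg1 : g ≤ 1) (hσ : σ ^ 2 = 1) (y : Sp (k + 1)) :
    EE μ (fun η => mm n n' s s' g σ η ^ 2) y ≤
      2 * EE μ (fun η => MO.ht n s η ^ 2) y + 2 * EE μ (fun η => MO.ht n' s' η ^ 2) y := by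
  have i1 := int_h2 h hd hC' hμ hn s y
  have i2 := int_h2 h hd hC' hμ hn' s' y
  have im := mm_int h hd hC' hμ hn hn' s s' hg0 hg1 hσ y
  unfold EE
  rw [← integral_const_mul, ← integral_const_mul, ← integral_add (i1.const_mul 2) (i2.const_mul 2)]
  refine integral_mono im ((i1.const_mul 2).add (i2.const_mul 2)) fun η => ?_
  have hK := (MO.K_pos one_pos (y - η)).le
  have h1 := mul_le_mul_of_nonneg_right (mm_sq n n' s s' hg0 hg1 hσ η) hK
  simp only []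
  linarith

/-- near part of the second moment -/
lemma EE_near {n n' : Sp (k + 1)} (hn : ‖n‖ = 1) (hn' : ‖n'‖ = 1) (s s' : ℝ) {g σ : ℝ} (hg0 : 0 ≤ g)
    (hg1 : g ≤ 1) (hσ : σ ^ 2 = 1) {x : Sp (k + 1)} {A q : ℝ} (hA : 0 < A) (hq : 0 ≤ q)
    (hlow : ∀ η, ‖η - x‖ < A → q ≤ |mm n n' s s' g σ η|) :
    q ^ 2 / (1 + A) ^ (k + 1 + 4) * (μ (ball x A)).toReal ≤
      EE μ (fun η => mm n n' s s' g σ η ^ 2) x := by
  have := hμ.fin
  have im := mm_int h hd hC' hμ hn hn' s s' hg0 hg1 hσ x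
  have e1 : (∫ η in ball x A, mm n n' s s' g σ η ^ 2 * MO.K 1 (x - η) ∂μ) ≤
      EE μ (fun η => mm n n' s s' g σ η ^ 2) x := by
    unfold EE
    exact setIntegral_le_integral im
      (Eventually.of_forall fun η => mul_nonneg (sq_nonneg _) (MO.K_pos one_pos _).le)
  refine le_trans ?_ e1
  have e2 : (∫ _η in ball x A, q ^ 2 / (1 + A) ^ (k + 1 + 4) ∂μ) =
      q ^ 2 / (1 + A) ^ (k + 1 + 4) * (μ (ball x A)).toReal := by
    rw [setIntegral_const, smul_eq_mul, Measure.real, mul_comm]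
  rw [← e2]
  refine setIntegral_mono_on (integrable_const _).integrableOn im.integrableOn
    measurableSet_ball fun η hη => ?_
  have hη' : ‖η - x‖ < A := by rw [← dist_eq_norm]; exact hη
  have h1 := hlow η hη'
  have h2 : q ^ 2 ≤ mm n n' s s' g σ η ^ 2 := by
    rw [← sq_abs (mm n n' s s' g σ η)]
    exact pow_le_pow_left₀ hq h1 2
  have h3 : 1 / (1 + A) ^ (k + 1 + 4) ≤ MO.K 1 (x - η) := by
    rw [MO.K_eq]
    have hR := MO.R_pos one_pos (x - η)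
    have hR2 : MO.R 1 (x - η) ≤ 1 + A := by
      unfold MO.R
      rw [Real.sqrt_le_left (by linarith)]
      have : ‖x - η‖ < A := by rw [norm_sub_rev]; exact hη'
      nlinarith [norm_nonneg (x - η)]
    gcongr
  calc q ^ 2 / (1 + A) ^ (k + 1 + 4) = q ^ 2 * (1 / (1 + A) ^ (k + 1 + 4)) := by ring
    _ ≤ mm n n' s s' g σ η ^ 2 * MO.K 1 (x - η) :=
        mul_le_mul h2 h3 (by positivity) (sq_nonneg _)

/-- the case of a large tilt: the tangential gradient is large near x -/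
lemma L_near {C : ℝ} (hC : 0 < C) (hT : MO.THd 0 C μ) {R0 c A cm : ℝ} (hR0 : 32 ≤ R0) (hc : 0 < c)
    (hA : 1 ≤ A) (hcm : 0 < cm)
    {J : ℕ} {M : ℝ} {β : Sp (k + 1) → ℝ} (hβ : Kit J M β) {ε : ℝ} (hε : 0 < ε) (hε1 : ε ≤ 1 / 4)
    {n n' : Sp (k + 1)} (hn : ‖n‖ = 1) (hn' : ‖n'‖ = 1) {s s' : ℝ} {g σ : ℝ} (hg0 : 0 ≤ g)
    (hg1 : g ≤ 1) (hσ : σ ^ 2 = 1) (hgn : ⟪n, g • n - σ • n'⟫_ℝ = 0)
    {H : Sp (k + 1) → ℝ} (hHc : Continuous H) (hH0 : ∀ y, 0 ≤ H y)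
    (hHX : ∀ y, c * XX β ε μ n 1 y ≤ H y) {x : Sp (k + 1)} (hx : ⟪n, x⟫_ℝ = s) (hxR : ‖x‖ ≤ R0 + 3)
    (hw0 : 0 < ‖g • n - σ • n'‖)
    (hfar : ∀ y, ‖y - x‖ ≤ 1 → ‖g • n - σ • n'‖ ≤ |mm n n' s s' g σ y|)
    (hnear : cm * vv μ 1 0 ^ 2 ≤ (μ (ball x A)).toReal) {c1 : ℝ}
    (hc1 : c1 = cm / (A + 3) ^ (k + 1 + 2))
    (hE : ∀ y : Sp (k + 1), ‖y‖ ≤ 2 * R0 → EE μ (fun η => mm n n' s s' g σ η ^ 2) y ≤
      c1 ^ 2 / (16 * Cv (k + 1) C R0 ^ 2 * 4 ^ (k + 1 + 5)) *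
        (‖g • n - σ • n'‖ ^ 2 * vv μ 1 0 ^ 2)) :
    c * (T0 * (c1 ^ 2 / (16 * Cv (k + 1) C R0 ^ 3))) * vb k (1 / 2) * vv μ 1 0 ≤
      plInt n s (fun x => zR (2 * R0 - 1) x * H x) := by
  have hP : GPx.Pot μ := ⟨hμ.fin, hT.pos, hT.smooth, hT.har⟩
  have hT0 := T0_pos
  have hv0 := hT.vpos one_pos (0 : Sp (k + 1))
  have hCv : 0 < Cv (k + 1) C R0 := by
    unfold Cv; have := Real.sqrt_pos.2 hC; positivity
  have hc1p : 0 < c1 := by rw [hc1]; positivity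
  have hlow := pl_lower k hn (s := s) (F := fun x => zR (2 * R0 - 1) x * H x)
    ((zR_cont _).mul hHc) ((zR_cs _).mul_right) (fun x => mul_nonneg (zR_nonneg _ _) (hH0 x))
    (x := x) hx (r := 1 / 2)
    (κ := c * (T0 * (vv μ 1 0 * (c1 ^ 2 / (16 * Cv (k + 1) C R0 ^ 3)))))
    (fun y hy hyx => by
      have hyR : ‖y‖ ≤ R0 + 7 / 2 := by
        have := norm_add_le (y - x) x
        rw [sub_add_cancel] at this
        linarith
      rw [zR_one (by linarith), one_mul]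
      have h1 := tavX1_low h hd hC' hμ hβ hε (by linarith) hn (y := y)
        (κ := vv μ 1 0 * (c1 ^ 2 / (16 * Cv (k + 1) C R0 ^ 3))) (fun r hr1 hr2 => by
          refine X1_low hP hβ (by linarith) fun z hz => ?_
          have hz1 : ‖(ε * r) • z‖ ≤ 1 / 2 := by
            rw [norm_smul, Real.norm_of_nonneg (by positivity)]
            have : ε * r ≤ 1 / 2 := by nlinarith
            have h0 : 0 ≤ ε * r := by positivity
            nlinarith [norm_nonneg z]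
          have hyx2 : ‖y + (ε * r) • z - x‖ ≤ 1 := by
            have e : y + (ε * r) • z - x = (y - x) + (ε * r) • z := by abel
            rw [e]
            refine (norm_add_le _ _).trans ?_
            linarith
          have hyR2 : ‖y + (ε * r) • z‖ ≤ 2 * R0 := by
            have := norm_add_le y ((ε * r) • z)
            linarith
          have hvc := (v_cmp (μ := μ) hC hT (R0 := R0) (by linarith) hr1 hr2 hyR2).1
          exact tang_low (by omega) hP hr1 hr2 (x := x) (w := g • n - σ • n') hgn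
            (a := ‖g • n - σ • n'‖) (L := mm n n' s s' g σ (y + (ε * r) • z)) le_rfl
            (mm_cont n n' s s' g σ)
            (mm_int h hd hC' hμ hn hn' s s' hg0 hg1 hσ _)
            (fun η => mm_diff n n' s s' g σ _ η) hw0 (hfar _ hyx2) hyx2 hA hv0 hCv hcm hvc hnear hc1
            (hE _ hyR2))
      have h3 : 0 ≤ tav (X2 μ n) 1 y := tav_nonneg (fun t y ht => X2_nonneg μ n ht y) y
      have h4 : 0 ≤ tav (X3 β ε μ n) 1 y := tav_nonneg (fun t y _ => X3_nonneg hβ ε μ n t y) y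
      have h5 : T0 * (vv μ 1 0 * (c1 ^ 2 / (16 * Cv (k + 1) C R0 ^ 3))) ≤ XX β ε μ n 1 y := by
        unfold XX; linarith
      exact (mul_le_mul_of_nonneg_left h5 hc.le).trans (hHX y))
  refine le_trans (le_of_eq ?_) hlow
  ring

omit h hd hC' hμ in
lemma pl_nonneg {n : Sp (k + 1)} {s : ℝ} {F : Sp (k + 1) → ℝ} (hF : ∀ y, 0 ≤ F y) :
    0 ≤ plInt n s F := by
  unfold plInt
  exact integral_nonneg fun y => hF _

omit h hd hC' hμ in
lemma pl_congr {n : Sp (k + 1)} (hn : ‖n‖ = 1) {s : ℝ} {F G : Sp (k + 1) → ℝ}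
    (hF : ∀ y, ⟪n, y⟫_ℝ = s → F y = G y) : plInt n s F = plInt n s G := by
  unfold plInt
  congr 1
  funext y
  refine hF _ ?_
  rw [inner_add_right, inner_smul_right, real_inner_self_eq_norm_sq, hn, PF.inner_pl]
  simp

/-- the constant -/
def CP (k : ℕ) (C R0 c CB LH A : ℝ) : ℝ :=
  (1 + 4 * (R0 + 1) ^ 2) /
      (c / (2 * Cv (k + 1) C R0) * vb k (min 1 (c / (2 * Cv (k + 1) C R0 * LH)))) +
    16 * Ca k C R0 c * (1 + A) ^ (k + 1 + 4) / (1 / (CB * Cv (k + 1) C R0 ^ 2)) +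
    (1 + 4 * A ^ 2) / (((1 / (CB * Cv (k + 1) C R0 ^ 2)) / (A + 3) ^ (k + 1 + 2)) ^ 2 /
      (16 * Cv (k + 1) C R0 ^ 2 * 4 ^ (k + 1 + 5)) / (2 * Ca k C R0 c)) +
    (1 + 4 * (R0 + 1) ^ 2) /
      (c * (T0 * (((1 / (CB * Cv (k + 1) C R0 ^ 2)) / (A + 3) ^ (k + 1 + 2)) ^ 2 /
        (16 * Cv (k + 1) C R0 ^ 3))) * vb k (1 / 2))

lemma L_core {C : ℝ} (hC : 0 < C) (hT : MO.THd 0 C μ) {R0 c A CB LH : ℝ} (hR0 : 32 ≤ R0)
    (hc : 0 < c) (hA : 1 ≤ A) (hCB : 0 < CB) (hLH : 0 < LH)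
    {J : ℕ} {M : ℝ} {β : Sp (k + 1) → ℝ} (hβ : Kit J M β) {ε : ℝ} (hε : 0 < ε) (hε1 : ε ≤ 1 / 4)
    {n n' : Sp (k + 1)} (hn : ‖n‖ = 1) (hn' : ‖n'‖ = 1) {s s' : ℝ} (hs : |s| ≤ R0 + 1)
    (hs' : |s'| ≤ R0 + 1) {g σ : ℝ} (hg0 : 0 ≤ g)
    (hg1 : g ≤ 1) (hσ : σ ^ 2 = 1) (hg : g = σ * ⟪n, n'⟫_ℝ)
    {H H' : Sp (k + 1) → ℝ} (hHc : Continuous H) (hH0 : ∀ y, 0 ≤ H y)
    (hHX : ∀ y, c * XX β ε μ n 1 y ≤ H y) (hHc' : Continuous H') (hH0' : ∀ y, 0 ≤ H' y)
    (hHX' : ∀ y, c * XX β ε μ n' 1 y ≤ H' y)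
    (hLip : ∀ x y : Sp (k + 1), ‖x‖ ≤ 2 * R0 → ‖y‖ ≤ 2 * R0 → |H y - H x| ≤ LH * vv μ 1 0 * ‖y - x‖)
    (hdich : ∀ x, c * vv μ 1 x ≤ H x ∨ vv μ 1 x ^ 2 ≤ CB * (μ (ball x A)).toReal) :
    vv μ 1 0 * (‖g • n - σ • n'‖ ^ 2 + mm n n' s s' g σ (s • n) ^ 2) ≤
      CP k C R0 c CB LH A * (plInt n s (fun x => zR (2 * R0 - 1) x * H x) +
        plInt n' s' (fun x => zR (2 * R0 - 1) x * H' x)) := by
  have hT0 := T0_pos
  have hv0 := hT.vpos one_pos (0 : Sp (k + 1))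
  have hCv : 0 < Cv (k + 1) C R0 := by
    unfold Cv; have := Real.sqrt_pos.2 hC; positivity
  have hsC := Real.sqrt_pos.2 hC
  set v0 := vv μ 1 0 with hv0e
  set V := Cv (k + 1) C R0 with hV
  set w : Sp (k + 1) := g • n - σ • n' with hw
  set l0 := mm n n' s s' g σ (s • n) with hl0
  set P1 := plInt n s (fun x => zR (2 * R0 - 1) x * H x) with hP1
  set P2 := plInt n' s' (fun x => zR (2 * R0 - 1) x * H' x) with hP2
  have hP1n : 0 ≤ P1 := pl_nonneg fun x => mul_nonneg (zR_nonneg _ _) (hH0 x)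
  have hP2n : 0 ≤ P2 := pl_nonneg fun x => mul_nonneg (zR_nonneg _ _) (hH0' x)
  set cb : ℝ := c / (2 * V) * vb k (min 1 (c / (2 * V * LH))) with hcb
  have hr1 : 0 < min 1 (c / (2 * V * LH)) := lt_min one_pos (by positivity)
  have hcb0 : 0 < cb := mul_pos (by positivity) (vb_pos k hr1)
  set cm : ℝ := 1 / (CB * V ^ 2) with hcm
  have hcm0 : 0 < cm := by positivity
  set a0 : ℝ := Ca k C R0 c with ha0
  have hCa : 0 < a0 := by
    rw [ha0]; unfold Ca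
    have := vb_pos k one_pos
    rw [← hV]
    positivity
  set c1 : ℝ := cm / (A + 3) ^ (k + 1 + 2) with hc1
  have hc10 : 0 < c1 := by positivity
  set kE : ℝ := c1 ^ 2 / (16 * V ^ 2 * 4 ^ (k + 1 + 5)) with hkE
  have hkE0 : 0 < kE := by positivity
  set k2 : ℝ := kE / (2 * a0) with hk2
  have hk20 : 0 < k2 := by positivity
  set c3 : ℝ := c * (T0 * (c1 ^ 2 / (16 * V ^ 3))) * vb k (1 / 2) with hc3
  have hc30 : 0 < c3 := mul_pos (by positivity) (vb_pos k (by norm_num))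
  set CD : ℝ := 1 + 4 * (R0 + 1) ^ 2 with hCD
  have hCD0 : 0 < CD := by positivity
  have hCP : CP k C R0 c CB LH A = CD / cb + 16 * a0 * (1 + A) ^ (k + 1 + 4) / cm +
      (1 + 4 * A ^ 2) / k2 + CD / c3 := rfl
  have t1 : 0 < CD / cb := by positivity
  have t2 : 0 < 16 * a0 * (1 + A) ^ (k + 1 + 4) / cm := by positivity
  have t3 : 0 < (1 + 4 * A ^ 2) / k2 := by positivity
  have t4 : 0 < CD / c3 := by positivity
  have hPP : 0 ≤ P1 + P2 := by linarith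
  rw [hCP]
  -- it suffices to bound by one of the four constants
  have fin1 : ∀ K : ℝ, K ≤ CD / cb + 16 * a0 * (1 + A) ^ (k + 1 + 4) / cm + (1 + 4 * A ^ 2) / k2 + CD / c3 →
      v0 * (‖w‖ ^ 2 + l0 ^ 2) ≤ K * (P1 + P2) → v0 * (‖w‖ ^ 2 + l0 ^ 2) ≤
      (CD / cb + 16 * a0 * (1 + A) ^ (k + 1 + 4) / cm + (1 + 4 * A ^ 2) / k2 + CD / c3) * (P1 + P2) :=
    fun K hK h1 => h1.trans (mul_le_mul_of_nonneg_right hK hPP)
  -- geometry
  have hnn' : ⟪n', n'⟫_ℝ = 1 := by rw [real_inner_self_eq_norm_sq, hn']; norm_num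
  have hnn : ⟪n, n⟫_ℝ = 1 := by rw [real_inner_self_eq_norm_sq, hn]; norm_num
  have hgn : ⟪n, w⟫_ℝ = 0 := by
    rw [hw, inner_sub_right, inner_smul_right, inner_smul_right, hnn, hg]; ring
  have hwsq : ‖w‖ ^ 2 = 1 - g ^ 2 := by
    have e1 : ‖w‖ ^ 2 = ⟪w, w⟫_ℝ := (real_inner_self_eq_norm_sq w).symm
    have e2 : ⟪w, w⟫_ℝ = g * ⟪n, w⟫_ℝ - σ * ⟪n', w⟫_ℝ := by
      have e3 : ⟪g • n - σ • n', w⟫_ℝ = g * ⟪n, w⟫_ℝ - σ * ⟪n', w⟫_ℝ := by
        rw [inner_sub_left, inner_smul_left, inner_smul_left]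
        simp
      exact e3
    have e3 : ⟪n', w⟫_ℝ = g * ⟪n, n'⟫_ℝ - σ := by
      rw [hw, inner_sub_right, inner_smul_right, inner_smul_right, hnn', real_inner_comm n n']; ring
    rw [e1, e2, hgn, e3]
    have e4 : σ * ⟪n, n'⟫_ℝ = g := hg.symm
    linear_combination (-g) * e4 + hσ
  have hw1 : ‖w‖ ^ 2 ≤ 1 := by rw [hwsq]; nlinarith
  have hsn : ⟪n, s • n⟫_ℝ = s := by rw [inner_smul_right, hnn]; ring
  have hxn : ‖s • n‖ ≤ R0 + 1 := by rw [norm_smul, hn, mul_one, Real.norm_eq_abs]; exact hs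
  have hl0b : l0 ^ 2 ≤ 4 * (R0 + 1) ^ 2 := by
    have e1 : MO.ht n s (s • n) = 0 := by
      unfold MO.ht; rw [real_inner_comm, hsn]; ring
    have e2 : |MO.ht n' s' (s • n)| ≤ 2 * (R0 + 1) := by
      unfold MO.ht
      refine (abs_sub _ _).trans ?_
      have := abs_real_inner_le_norm (s • n) n'
      rw [hn', mul_one] at this
      linarith
    have e3 : l0 ^ 2 = MO.ht n' s' (s • n) ^ 2 := by
      rw [hl0]; unfold mm; rw [e1]
      have : (g * 0 - σ * MO.ht n' s' (s • n)) ^ 2 = σ ^ 2 * MO.ht n' s' (s • n) ^ 2 := by ring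
      rw [this, hσ, one_mul]
    rw [e3, ← sq_abs]
    calc |MO.ht n' s' (s • n)| ^ 2 ≤ (2 * (R0 + 1)) ^ 2 := pow_le_pow_left₀ (abs_nonneg _) e2 2
      _ = _ := by ring
  have hDel : ‖w‖ ^ 2 + l0 ^ 2 ≤ CD := by rw [hCD]; linarith
  have hEm : ∀ y : Sp (k + 1), ‖y‖ ≤ 2 * R0 →
      EE μ (fun η => mm n n' s s' g σ η ^ 2) y ≤ 2 * a0 * v0 * (P1 + P2) := by
    intro y hy
    have e1 := L_E h hd hC' hμ hC hT hR0 hc hβ hn hs hHc hH0 hHX hy
    have e2 := L_E h hd hC' hμ hC hT hR0 hc hβ hn' hs' hHc' hH0' hHX' hy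
    have e3 := mm_EE h hd hC' hμ hn hn' s s' hg0 hg1 hσ y
    rw [← ha0, ← hv0e, ← hP1] at e1
    rw [← ha0, ← hv0e, ← hP2] at e2
    linarith
  have hmd : ∀ y η, ⟪y - η, w⟫_ℝ = mm n n' s s' g σ y - mm n n' s s' g σ η :=
    fun y η => mm_diff n n' s s' g σ y η
  -- case of a large gain somewhere
  have big : ∀ K0 : ℝ, 0 < K0 → K0 * v0 ≤ P1 → v0 * (‖w‖ ^ 2 + l0 ^ 2) ≤ CD / K0 * (P1 + P2) := by
    intro K0 hK0 h1
    rw [div_mul_eq_mul_div, le_div_iff₀ hK0]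
    calc v0 * (‖w‖ ^ 2 + l0 ^ 2) * K0 ≤ v0 * CD * K0 := by gcongr
      _ = CD * (K0 * v0) := by ring
      _ ≤ CD * (P1 + P2) := mul_le_mul_of_nonneg_left (by linarith) hCD0.le
  rcases le_or_gt (2 * A * ‖w‖) |l0| with hcase | hcase
  · -- offset dominates
    rcases L_far hC hT hR0 hc hCB hLH hn hHc hH0 hLip hsn (by linarith) (hdich (s • n)) with h1 | h1
    · exact fin1 (CD / cb) (by linarith) (big cb hcb0 h1)
    · refine fin1 (16 * a0 * (1 + A) ^ (k + 1 + 4) / cm) (by linarith) ?_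
      have h2 := EE_near h hd hC' hμ hn hn' s s' hg0 hg1 hσ (x := s • n) (A := A) (q := |l0| / 2)
        (by linarith) (by positivity) (fun η hη => by
          have e1 := hmd (s • n) η
          have e2 : |⟪s • n - η, w⟫_ℝ| ≤ A * ‖w‖ := by
            refine (abs_real_inner_le_norm _ _).trans ?_
            rw [norm_sub_rev]
            exact mul_le_mul_of_nonneg_right hη.le (norm_nonneg _)
          have e3 : |l0| - |⟪s • n - η, w⟫_ℝ| ≤ |mm n n' s s' g σ η| := by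
            have e4 : mm n n' s s' g σ η = l0 - ⟪s • n - η, w⟫_ℝ := by rw [e1]; ring
            rw [e4]
            exact abs_sub_abs_le_abs_sub _ _
          linarith)
      have h3 := hEm (s • n) (by linarith)
      have h4 : (|l0| / 2) ^ 2 / (1 + A) ^ (k + 1 + 4) * (cm * v0 ^ 2) ≤ 2 * a0 * v0 * (P1 + P2) := by
        refine le_trans ?_ (h2.trans h3)
        exact mul_le_mul_of_nonneg_left h1 (by positivity)
      have h5 : (|l0| / 2) ^ 2 = l0 ^ 2 / 4 := by rw [div_pow, sq_abs]; norm_num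
      rw [h5] at h4
      have h6 : ‖w‖ ^ 2 ≤ l0 ^ 2 := by
        have e1 : ‖w‖ ≤ |l0| := by
          have := norm_nonneg w
          nlinarith
        rw [← sq_abs l0]
        exact pow_le_pow_left₀ (norm_nonneg _) e1 2
      rw [div_mul_eq_mul_div, le_div_iff₀ hcm0]
      have hA4 : 0 < (1 + A) ^ (k + 1 + 4) := by positivity
      have h7 : l0 ^ 2 * (cm * v0) ≤ 8 * a0 * (1 + A) ^ (k + 1 + 4) * (P1 + P2) := by
        have e1 : l0 ^ 2 / 4 / (1 + A) ^ (k + 1 + 4) * (cm * v0 ^ 2) =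
            v0 * (l0 ^ 2 * (cm * v0) / (4 * (1 + A) ^ (k + 1 + 4))) := by field_simp
        rw [e1, show 2 * a0 * v0 * (P1 + P2) = v0 * (2 * a0 * (P1 + P2)) by ring] at h4
        have e2 := le_of_mul_le_mul_left h4 hv0
        rw [div_le_iff₀ (by positivity)] at e2
        linarith
      calc v0 * (‖w‖ ^ 2 + l0 ^ 2) * cm ≤ v0 * (l0 ^ 2 + l0 ^ 2) * cm := by gcongr
        _ = 2 * (l0 ^ 2 * (cm * v0)) := by ring
        _ ≤ 16 * a0 * (1 + A) ^ (k + 1 + 4) * (P1 + P2) := by linarith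
  · -- tilt dominates
    have hw0 : 0 < ‖w‖ := by
      by_contra h1
      have h2 : ‖w‖ = 0 := le_antisymm (not_lt.1 h1) (norm_nonneg _)
      rw [h2, mul_zero] at hcase
      exact absurd hcase (not_lt.2 (abs_nonneg _))
    have hDel2 : ‖w‖ ^ 2 + l0 ^ 2 ≤ (1 + 4 * A ^ 2) * ‖w‖ ^ 2 := by
      have e1 : l0 ^ 2 ≤ (2 * A * ‖w‖) ^ 2 := by
        rw [← sq_abs l0]
        exact pow_le_pow_left₀ (abs_nonneg _) hcase.le 2
      nlinarith
    obtain ⟨τ, hτ, hτl⟩ : ∃ τ : ℝ, |τ| = 2 ∧ |l0 + τ * ‖w‖| = |l0| + 2 * ‖w‖ := by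
      rcases le_total 0 l0 with h1 | h1
      · refine ⟨2, by norm_num, ?_⟩
        rw [abs_of_nonneg h1, abs_of_nonneg (by positivity)]
      · refine ⟨-2, by norm_num, ?_⟩
        rw [abs_of_nonpos h1, abs_of_nonpos (by nlinarith)]
        ring
    set x : Sp (k + 1) := s • n + (τ / ‖w‖) • w with hx
    have hxS : ⟪n, x⟫_ℝ = s := by
      rw [hx, inner_add_right, hsn, inner_smul_right, hgn]; ring
    have hxR : ‖x‖ ≤ R0 + 3 := by
      refine (norm_add_le _ _).trans ?_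
      have : ‖(τ / ‖w‖) • w‖ = 2 := by
        rw [norm_smul, Real.norm_eq_abs, abs_div, abs_norm, hτ]; field_simp
      linarith
    have hmx : mm n n' s s' g σ x = l0 + τ * ‖w‖ := by
      have e1 := hmd x (s • n)
      have e2 : x - s • n = (τ / ‖w‖) • w := by rw [hx]; abel
      rw [e2, inner_smul_left, real_inner_self_eq_norm_sq] at e1
      simp only [conj_trivial] at e1
      have e3 : τ / ‖w‖ * ‖w‖ ^ 2 = τ * ‖w‖ := by field_simp
      rw [e3] at e1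
      linarith
    have hfar : ∀ y, ‖y - x‖ ≤ 1 → ‖w‖ ≤ |mm n n' s s' g σ y| := by
      intro y hy
      have e1 := hmd y x
      have e2 : |⟪y - x, w⟫_ℝ| ≤ ‖w‖ := by
        refine (abs_real_inner_le_norm _ _).trans ?_
        have := norm_nonneg w
        nlinarith
      have e3 : |mm n n' s s' g σ x| - |⟪y - x, w⟫_ℝ| ≤ |mm n n' s s' g σ y| := by
        have e4 : mm n n' s s' g σ y = mm n n' s s' g σ x - (-⟪y - x, w⟫_ℝ) := by rw [e1]; ring
        rw [e4, ← abs_neg ⟪y - x, w⟫_ℝ]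
        exact abs_sub_abs_le_abs_sub _ _
      rw [hmx, hτl] at e3
      have := abs_nonneg l0
      linarith
    rcases L_far hC hT hR0 hc hCB hLH hn hHc hH0 hLip hxS (by linarith) (hdich x) with h1 | h1
    · exact fin1 (CD / cb) (by linarith) (big cb hcb0 h1)
    · rcases le_or_gt (k2 * (‖w‖ ^ 2 * v0)) (P1 + P2) with h2 | h2
      · refine fin1 ((1 + 4 * A ^ 2) / k2) (by linarith) ?_
        rw [div_mul_eq_mul_div, le_div_iff₀ hk20]
        calc v0 * (‖w‖ ^ 2 + l0 ^ 2) * k2 ≤ v0 * ((1 + 4 * A ^ 2) * ‖w‖ ^ 2) * k2 := by gcongr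
          _ = (1 + 4 * A ^ 2) * (k2 * (‖w‖ ^ 2 * v0)) := by ring
          _ ≤ _ := mul_le_mul_of_nonneg_left h2 (by positivity)
      · refine fin1 (CD / c3) (by linarith) (big c3 hc30 ?_)
        refine L_near h hd hC' hμ hC hT hR0 hc hA hcm0 hβ hε hε1 hn hn' hg0 hg1 hσ hgn hHc hH0 hHX hxS
          hxR hw0 hfar h1 hc1 fun y hy => ?_
        refine (hEm y hy).trans ?_
        have e1 : 2 * a0 * v0 * (P1 + P2) ≤ 2 * a0 * v0 * (k2 * (‖w‖ ^ 2 * v0)) :=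
          mul_le_mul_of_nonneg_left h2.le (by positivity)
        refine e1.trans (le_of_eq ?_)
        rw [← hw, ← hv0e]
        simp only [hk2, hkE]
        rw [← hV]
        field_simp

end core

end UUm

end

end TG
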