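import Pool.Agent.TG.Stmts13
import Pool.Agent.TG.B2
import Pool.Agent.TG.UUc

/-!
# Module B4: the functional Y is controlled by the pieces (MP_287c87_an)
-/

open MeasureTheory Metric Set TrI Filter
open scoped InnerProductSpace ContDiff Topology

namespace TG

noncomputable section

namespace B4m

open SMm B2m

variable {d : ℕ}

lemma kk_nonneg1 (x : Sp d) : 0 ≤ kk 1 x := by
  unfold kk
  positivity

lemma Mo_eq_EE {μ : Measure (Sp d)} (n : Sp d) (s : ℝ) (hv : 0 < vv μ 1 0) :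
    Mo μ n s 2 1 0 * vv μ 1 0 = UUm.EE μ (fun η => MO.ht n s η ^ 2) 0 := by
  have e : Mo μ n s 2 1 0 = (∫ η, MO.ht n s η ^ 2 * MO.K 1 (0 - η) ∂μ) / vv μ 1 0 := by
    unfold Mo MO.K MO.ht
    congr 1
    congr 1
    funext η
    ring
  rw [e]
  unfold UUm.EE
  field_simp

lemma K_le (η : Sp d) : (1 + ‖η‖ ^ 2) * MO.K 1 (0 - η) ≤ kk 1 (0 - η) := by
  have h0 : 0 ≤ kk 1 (0 - η) := kk_nonneg1 _
  unfold MO.K
  have e : ‖(0 : Sp d) - η‖ = ‖η‖ := by rw [zero_sub, norm_neg]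
  rw [e, one_pow, mul_div_assoc', div_le_iff₀ (by positivity)]
  have ha : 0 ≤ ‖η‖ ^ 2 := sq_nonneg _
  have h1 : 0 ≤ (1 + ‖η‖ ^ 2) * kk 1 (0 - η) := by positivity
  nlinarith

lemma ht_cmp {n ν : Sp d} (hn : ‖n‖ = 1) (hν : ‖ν‖ = 1) (s c : ℝ) (η : Sp d) :
    MO.ht n s η ^ 2 ≤ 3 * MO.ht ν c η ^ 2 +
      3 * (((c * ⟪ν, n⟫_ℝ - s) ^ 2 + ‖tang ν n‖ ^ 2) * (1 + ‖η‖ ^ 2)) := by
  have e : MO.ht n s η = ⟪ν, n⟫_ℝ * MO.ht ν c η + (c * ⟪ν, n⟫_ℝ - s) + ⟪η, tang ν n⟫_ℝ := by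
    unfold MO.ht tang
    rw [inner_sub_right, inner_smul_right]
    ring
  have h1 : ⟪ν, n⟫_ℝ ^ 2 ≤ 1 := by
    have := abs_real_inner_le_norm ν n
    rw [hn, hν, one_mul] at this
    rw [← sq_abs]
    have h0 := abs_nonneg ⟪ν, n⟫_ℝ
    nlinarith
  have h2 : ⟪η, tang ν n⟫_ℝ ^ 2 ≤ ‖η‖ ^ 2 * ‖tang ν n‖ ^ 2 := by
    have := abs_real_inner_le_norm η (tang ν n)
    rw [← sq_abs, ← mul_pow]
    exact pow_le_pow_left₀ (abs_nonneg _) this 2
  rw [e]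
  generalize ⟪ν, n⟫_ℝ = p at *
  generalize ⟪η, tang ν n⟫_ℝ = z at *
  generalize MO.ht ν c η = x at *
  generalize c * p - s = b at *
  generalize ‖tang ν n‖ = w at *
  generalize ‖η‖ = t at *
  have h3 : (p * x + b + z) ^ 2 ≤ 3 * ((p * x) ^ 2 + b ^ 2 + z ^ 2) := by
    nlinarith [sq_nonneg (p * x - b), sq_nonneg (p * x - z), sq_nonneg (b - z)]
  have h4 : (p * x) ^ 2 ≤ x ^ 2 := by
    rw [mul_pow]
    nlinarith [sq_nonneg x]
  have h5 : 0 ≤ b ^ 2 * t ^ 2 := by positivity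
  have h6 : 0 ≤ w ^ 2 := by positivity
  nlinarith

lemma ht_crude {n : Sp d} (hn : ‖n‖ = 1) {s R2 : ℝ} (hs : |s| ≤ R2) (η : Sp d) :
    MO.ht n s η ^ 2 ≤ 2 * (1 + R2 ^ 2) * (1 + ‖η‖ ^ 2) := by
  have h1 : ⟪η, n⟫_ℝ ^ 2 ≤ ‖η‖ ^ 2 := by
    have := abs_real_inner_le_norm η n
    rw [hn, mul_one] at this
    rw [← sq_abs]
    exact pow_le_pow_left₀ (abs_nonneg _) this 2
  have h2 : s ^ 2 ≤ R2 ^ 2 := by
    rw [← sq_abs]
    exact pow_le_pow_left₀ (abs_nonneg _) hs 2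
  unfold MO.ht
  have h3 : 0 ≤ R2 ^ 2 * ‖η‖ ^ 2 := by positivity
  nlinarith [sq_nonneg (⟪η, n⟫_ℝ + s)]

section main

variable (h : StmtTH) (hd : 2 ≤ d) {C' : ℝ} (hC' : 0 < C') {μ : Measure (Sp d)} (hμ : Gro C' μ)

include h hd hC' hμ

/-- the moment of a plane through the one of another plane -/
lemma EE_cmp {n ν : Sp d} (hn : ‖n‖ = 1) (hν : ‖ν‖ = 1) (s c : ℝ) :
    UUm.EE μ (fun η => MO.ht n s η ^ 2) 0 ≤ 3 * UUm.EE μ (fun η => MO.ht ν c η ^ 2) 0 +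
      3 * ((c * ⟪ν, n⟫_ℝ - s) ^ 2 + ‖tang ν n‖ ^ 2) * th μ 1 0 := by
  unfold UUm.EE th
  rw [← integral_const_mul, ← integral_const_mul,
    ← integral_add ((UUm.int_h2 h hd hC' hμ hν c 0).const_mul 3)
      ((MO.kk_int h hd hC' hμ one_pos 0).const_mul _)]
  refine integral_mono (UUm.int_h2 h hd hC' hμ hn s 0)
    (((UUm.int_h2 h hd hC' hμ hν c 0).const_mul 3).add
      ((MO.kk_int h hd hC' hμ one_pos 0).const_mul _)) fun η => ?_
  have h1 := ht_cmp hn hν s c η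
  have h2 := K_le (d := d) η
  have h3 := (MO.K_pos (d := d) one_pos (0 - η)).le
  have h4 := mul_le_mul_of_nonneg_right h1 h3
  have h5 : 0 ≤ (c * ⟪ν, n⟫_ℝ - s) ^ 2 + ‖tang ν n‖ ^ 2 := by positivity
  have h6 := mul_le_mul_of_nonneg_left h2 h5
  simp only
  nlinarith

lemma EE_crude {n : Sp d} (hn : ‖n‖ = 1) {s R2 : ℝ} (hs : |s| ≤ R2) :
    UUm.EE μ (fun η => MO.ht n s η ^ 2) 0 ≤ 2 * (1 + R2 ^ 2) * th μ 1 0 := by
  unfold UUm.EE th
  rw [← integral_const_mul]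
  refine integral_mono (UUm.int_h2 h hd hC' hμ hn s 0)
    ((MO.kk_int h hd hC' hμ one_pos 0).const_mul _) fun η => ?_
  have h1 := ht_crude hn hs η
  have h2 := K_le (d := d) η
  have h3 := (MO.K_pos (d := d) one_pos (0 - η)).le
  have h4 := mul_le_mul_of_nonneg_right h1 h3
  have h5 : (0 : ℝ) ≤ 2 * (1 + R2 ^ 2) := by positivity
  have h6 := mul_le_mul_of_nonneg_left h2 h5
  simp only
  nlinarith

end main

/-! ## planes -/

lemma pl_mono {n : Sp d} (hn : ‖n‖ = 1) {s : ℝ} {F G : Sp d → ℝ} (hF : Continuous F)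
    (hFs : HasCompactSupport F) (hG : Continuous G) (hGs : HasCompactSupport G)
    (hFG : ∀ y, ⟪n, y⟫_ℝ = s → F y ≤ G y) : plInt n s F ≤ plInt n s G := by
  obtain ⟨ρ, hρ⟩ := PF.cs_tang hn hFs
  obtain ⟨ρ', hρ'⟩ := PF.cs_tang hn hGs
  unfold plInt
  refine integral_mono (PF.integrable_pl hn hF hρ s) (PF.integrable_pl hn hG hρ' s) fun y => ?_
  refine hFG _ ?_
  rw [inner_add_right, inner_smul_right, real_inner_self_eq_norm_sq, hn, PF.inner_pl]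
  simp

lemma pl_lin {n : Sp d} (hn : ‖n‖ = 1) {s : ℝ} {F G : Sp d → ℝ} (hF : Continuous F)
    (hFs : HasCompactSupport F) (hG : Continuous G) (hGs : HasCompactSupport G) (a b : ℝ) :
    plInt n s (fun y => a * F y + b * G y) = a * plInt n s F + b * plInt n s G := by
  obtain ⟨ρ, hρ⟩ := PF.cs_tang hn hFs
  obtain ⟨ρ', hρ'⟩ := PF.cs_tang hn hGs
  unfold plInt
  rw [← integral_const_mul, ← integral_const_mul,
    ← integral_add ((PF.integrable_pl hn hF hρ s).const_mul a)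
      ((PF.integrable_pl hn hG hρ' s).const_mul b)]

lemma pl_smul {n : Sp d} {s : ℝ} {F : Sp d → ℝ} (a : ℝ) :
    plInt n s (fun y => a * F y) = a * plInt n s F := by
  unfold plInt
  rw [← integral_const_mul]

lemma hgt_cont (n : Sp d) (s : ℝ) : Continuous (hgt n s) := by
  unfold hgt
  fun_prop

/-- lower bound of the quadratic weight on another plane -/
lemma low {k : ℕ} {n ν : Sp (k + 1)} (hν : ‖ν‖ = 1) (s : ℝ) {c Ct R0 : ℝ}
    (hc : |c| ≤ Ct + 1) (hR : Ct + 4 ≤ R0) :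
    ((c * ⟪ν, n⟫_ℝ - s) ^ 2 + ‖tang ν n‖ ^ 2) * UUm.vb k 1 ≤
      plInt ν c (fun y => zR R0 y * hgt n s y ^ 2) := by
  set w := tang ν n with hw
  set b := c * ⟪ν, n⟫_ℝ - s with hb
  have hνw : ⟪ν, w⟫_ℝ = 0 := by
    rw [hw]
    unfold tang
    rw [inner_sub_right, inner_smul_right, real_inner_self_eq_norm_sq, hν]
    simp
  obtain ⟨σ, hσ, hσb⟩ : ∃ σ : ℝ, |σ| = 1 ∧ σ * b = |b| := by
    rcases le_total 0 b with h | h
    · exact ⟨1, abs_one, by rw [one_mul, abs_of_nonneg h]⟩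
    · exact ⟨-1, by rw [abs_neg, abs_one], by rw [abs_of_nonpos h]; ring⟩
  have hσ2 : σ * σ = 1 := by
    have := congrArg (fun x => x * x) hσ
    simpa [abs_mul_abs_self] using this
  set x0 : Sp (k + 1) := c • ν + (σ * 2 * ‖w‖⁻¹) • w with hx0
  have h1 : ⟪ν, x0⟫_ℝ = c := by
    rw [hx0, inner_add_right, inner_smul_right, inner_smul_right, hνw, real_inner_self_eq_norm_sq,
      hν]
    ring
  have hinv : ‖w‖⁻¹ * ‖w‖ ≤ 1 := by
    rcases eq_or_ne ‖w‖ 0 with h | h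
    · rw [h]; simp
    · rw [inv_mul_cancel₀ h]
  have hinv2 : ‖w‖⁻¹ * ‖w‖ ^ 2 = ‖w‖ := by
    rcases eq_or_ne ‖w‖ 0 with h | h
    · rw [h]; simp
    · rw [pow_two, ← mul_assoc, inv_mul_cancel₀ h, one_mul]
  have hx0n : ‖x0‖ ≤ |c| + 2 := by
    rw [hx0]
    refine (norm_add_le _ _).trans ?_
    rw [norm_smul, norm_smul, hν, Real.norm_eq_abs, Real.norm_eq_abs, abs_mul, abs_mul, hσ,
      abs_two, abs_of_nonneg (inv_nonneg.2 (norm_nonneg w))]
    nlinarith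
  have h2 : ⟪w, x0⟫_ℝ = σ * 2 * ‖w‖ := by
    rw [hx0, inner_add_right, inner_smul_right, inner_smul_right, real_inner_comm, hνw,
      real_inner_self_eq_norm_sq, mul_zero, zero_add, mul_assoc, hinv2]
  refine UUm.pl_lower k hν ((UUm.zR_cont _).mul ((hgt_cont n s).pow 2))
    ((UUm.zR_cs _).mul_right) (fun y => mul_nonneg (UUm.zR_nonneg _ _) (sq_nonneg _)) h1
    fun y hy hyx => ?_
  have hyn : ‖y‖ ≤ R0 := by
    have h3 := norm_add_le (y - x0) x0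
    rw [sub_add_cancel] at h3
    linarith
  change b ^ 2 + ‖w‖ ^ 2 ≤ zR R0 y * hgt n s y ^ 2
  rw [UUm.zR_one hyn, one_mul]
  have h4 : hgt n s y = b + σ * 2 * ‖w‖ + ⟪w, y - x0⟫_ℝ := by
    have e : ⟪n, y⟫_ℝ = c * ⟪ν, n⟫_ℝ + ⟪w, y⟫_ℝ := by
      rw [hw]
      unfold tang
      rw [inner_sub_left, inner_smul_left, hy]
      simp only [conj_trivial]
      ring
    unfold hgt
    rw [e, inner_sub_right, h2, hb]
    ring
  have h5 : |⟪w, y - x0⟫_ℝ| ≤ ‖w‖ := by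
    refine (abs_real_inner_le_norm _ _).trans ?_
    nlinarith [norm_nonneg w]
  have h6 : |b| + ‖w‖ ≤ σ * hgt n s y := by
    rw [h4]
    have h7 : |σ * ⟪w, y - x0⟫_ℝ| ≤ ‖w‖ := by
      rw [abs_mul, hσ, one_mul]
      exact h5
    have h8 := (abs_le.1 h7).1
    have h9 : σ * (b + σ * 2 * ‖w‖ + ⟪w, y - x0⟫_ℝ) =
        σ * b + (σ * σ) * 2 * ‖w‖ + σ * ⟪w, y - x0⟫_ℝ := by ring
    rw [h9, hσb, hσ2]
    linarith
  have h7 : (|b| + ‖w‖) ^ 2 ≤ (σ * hgt n s y) ^ 2 :=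
    pow_le_pow_left₀ (by positivity) h6 2
  have h8 : (σ * hgt n s y) ^ 2 = hgt n s y ^ 2 := by
    rw [mul_pow, pow_two σ, hσ2, one_mul]
  rw [h8] at h7
  refine le_trans ?_ h7
  have h9 : |b| ^ 2 = b ^ 2 := sq_abs b
  have := abs_nonneg b
  have := norm_nonneg w
  nlinarith

/-- bounds of the quadratic weight for far planes -/
lemma zq_bf {R : ℝ} (hR : 1 ≤ R) (J : ℕ) (R2 : ℝ) : ∃ K : ℝ, 1 ≤ K ∧
    ∀ (n : Sp d) (s : ℝ), ‖n‖ = 1 → |s| ≤ R2 → BF J K (fun y => zR R y * hgt n s y ^ 2) := by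
  obtain ⟨K, hK1, hK⟩ := SH.zq_tfn (d := d) (R := R) (by linarith) J
  obtain ⟨N, hN, hz⟩ := sT_BF (G := Sp d) J (R := R) (by linarith)
  refine ⟨(1 + |R2|) * K + (|R2| * K + (|R2| ^ 2 + |R2|) * N) + 1, ?_, fun n s hn hs => ?_⟩
  · have : 0 ≤ (1 + |R2|) * K + (|R2| * K + (|R2| ^ 2 + |R2|) * N) := by
      have := hz.nonneg
      have : 0 ≤ K := by linarith
      positivity
    linarith
  have h0 := hK n 0 hn (by rw [abs_zero]; linarith)
  have h1 := hK n 1 hn (by rw [abs_one]; linarith)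
  have b0 : BF J K (fun y => zR R y * ht n 0 y ^ 2) := ⟨h0.smooth, h0.bd⟩
  have b1 : BF J K (fun y => zR R y * ht n 1 y ^ 2) := ⟨h1.smooth, h1.bd⟩
  have b2 : BF J N (fun y : Sp d => zR R y) := hz
  have e : (fun y => zR R y * hgt n s y ^ 2) = fun y => (1 - s) * (zR R y * ht n 0 y ^ 2) +
      (s * (zR R y * ht n 1 y ^ 2) + (s ^ 2 - s) * zR R y) := by
    funext y
    unfold hgt ht
    ring
  rw [e]
  refine ((b0.const_mul (1 - s)).add ((b1.const_mul s).add (b2.const_mul (s ^ 2 - s)))).mono ?_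
  have hs2 : |s| ≤ |R2| := hs.trans (le_abs_self _)
  have hs0 := abs_nonneg s
  have e1 : |1 - s| ≤ 1 + |R2| := by
    have := abs_sub (1 : ℝ) s
    rw [abs_one] at this
    linarith
  have e2 : |s ^ 2 - s| ≤ |R2| ^ 2 + |R2| := by
    have h3 := abs_sub (s ^ 2) s
    rw [abs_pow] at h3
    have h4 : |s| ^ 2 ≤ |R2| ^ 2 := pow_le_pow_left₀ hs0 hs2 2
    linarith
  have hN0 := hz.nonneg
  have hK0 : 0 ≤ K := by linarith
  have e3 : |1 - s| * K ≤ (1 + |R2|) * K := mul_le_mul_of_nonneg_right e1 hK0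
  have e4 : |s| * K ≤ |R2| * K := mul_le_mul_of_nonneg_right hs2 hK0
  have e5 : |s ^ 2 - s| * N ≤ (|R2| ^ 2 + |R2|) * N := mul_le_mul_of_nonneg_right e2 hN0
  linarith

lemma zR_mono {r R : ℝ} (h : r ≤ R) (x : Sp d) : zR r x ≤ zR R x := by
  unfold zR
  exact Real.smoothTransition.monotone (by linarith)

/-- the comparison on all planes -/
lemma cmp (hTH : StmtTH) {k : ℕ} (hd : 2 ≤ k + 1) {C' : ℝ} (hC' : 0 < C') {C : ℝ} (hC : 0 < C)
    {c0 Ct R0 Cz : ℝ} (hc0 : 0 < c0) (hCt : 0 ≤ Ct) (hR : Ct + 4 ≤ R0)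
    (hCz : ∀ (ν : Sp (k + 1)) (c : ℝ), ‖ν‖ = 1 → plInt ν c (zR Ct : Sp (k + 1) → ℝ) ≤ Cz)
    {μ : Measure (Sp (k + 1))} (hμ : Gro C' μ) (hT : MO.THd 0 C μ)
    {J : ℕ} {M : ℝ} {β : Sp (k + 1) → ℝ} (hβ : Kit J M β) {ε : ℝ} {ν : Sp (k + 1)}
    (hν : ‖ν‖ = 1) {H : Sp (k + 1) → ℝ} (hHc : Continuous H) (hH0 : ∀ y, 0 ≤ H y)
    (hHX : ∀ y, c0 * XX β ε μ ν 1 y ≤ H y) {n : Sp (k + 1)} (hn : ‖n‖ = 1) (s c : ℝ)
    (hc : |c| ≤ Ct + 1) :
    Mo μ n s 2 1 0 * plInt ν c (zR Ct : Sp (k + 1) → ℝ) ≤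
      3 * ((Ct + 2) ^ (k + 1 + 4) * (4 ^ (k + 1 + 5) * Real.sqrt C * (Ct + 2) ^ (k + 1)) /
        (c0 * UUm.T0)) * plInt ν c (fun y => zR (2 * R0 - 1) y * H y) +
      3 * Cz / UUm.vb k 1 * (vv μ 1 0 * plInt ν c (fun y => zR R0 y * hgt n s y ^ 2)) := by
  have hT0 := UUm.T0_pos
  have hv0 : 0 < vv μ 1 0 := hT.vpos one_pos (0 : Sp (k + 1))
  have hsC := Real.sqrt_pos.2 hC
  have hvb := UUm.vb_pos k one_pos
  set v := vv μ 1 0 with hv
  set KH : ℝ := (Ct + 2) ^ (k + 1 + 4) * (4 ^ (k + 1 + 5) * Real.sqrt C * (Ct + 2) ^ (k + 1)) /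
        (c0 * UUm.T0) with hKH
  have hKH0 : 0 < KH := by positivity
  set κw := (c * ⟪ν, n⟫_ℝ - s) ^ 2 + ‖tang ν n‖ ^ 2 with hκw
  have hκ0 : 0 ≤ κw := by positivity
  have hth : th μ 1 0 = v * v := by
    rw [hv]
    unfold vv
    rw [Real.mul_self_sqrt]
    exact integral_nonneg fun η => kk_nonneg1 _
  have hMo := Mo_eq_EE n s hv0
  have hE := EE_cmp hTH hd hC' hμ hn hν s c
  rw [← hMo, hth] at hE
  -- the bound by the density
  have hH : ∀ y : Sp (k + 1), ⟪ν, y⟫_ℝ = c → ‖y‖ ≤ Ct + 1 →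
      UUm.EE μ (fun η => MO.ht ν c η ^ 2) 0 ≤ KH * (v * H y) := by
    intro z hz hzn
    have h1 := UUm.EE_harnack (μ := μ) (F := fun η => MO.ht ν c η ^ 2) (fun η => sq_nonneg _)
      (y := z) (y' := 0) (UUm.int_h2 hTH hd hC' hμ hν c z) (UUm.int_h2 hTH hd hC' hμ hν c 0)
    have h2 : (1 + ‖z - 0‖) ^ (k + 1 + 4) ≤ (Ct + 2) ^ (k + 1 + 4) := by
      refine pow_le_pow_left₀ (by positivity) ?_ _
      rw [sub_zero]
      linarith
    have h3 := UUm.EE_le_XX hTH hd hC' hμ hC hT hβ ε hν (s := c) (y := z)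
      (by rw [real_inner_comm]; exact hz)
    have h4 := UUm.EE_nonneg μ (F := fun η => MO.ht ν c η ^ 2) (fun η => sq_nonneg _) z
    have h5 : vv μ 1 z ≤ (Ct + 2) ^ (k + 1) * v := by
      have := vv_ball hTH hd hC' hμ (ρ := Ct + 1) (by linarith) hzn
      rwa [show 1 + (Ct + 1) = Ct + 2 by ring] at this
    have hXX : XX β ε μ ν 1 z ≤ H z / c0 := by
      rw [le_div_iff₀ hc0]; linarith [hHX z]
    have h6 : UUm.T0 * UUm.EE μ (fun η => MO.ht ν c η ^ 2) z ≤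
        4 ^ (k + 1 + 5) * Real.sqrt C * ((Ct + 2) ^ (k + 1) * v) * (H z / c0) := by
      refine h3.trans ?_
      have hXX0 : 0 ≤ H z / c0 := div_nonneg (hH0 z) hc0.le
      have hvz := (hT.vpos one_pos z).le
      calc 4 ^ (k + 1 + 5) * Real.sqrt C * vv μ 1 z * XX β ε μ ν 1 z ≤
          4 ^ (k + 1 + 5) * Real.sqrt C * vv μ 1 z * (H z / c0) :=
            mul_le_mul_of_nonneg_left hXX (by positivity)
        _ ≤ 4 ^ (k + 1 + 5) * Real.sqrt C * ((Ct + 2) ^ (k + 1) * v) * (H z / c0) := by gcongr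
    have h7 : UUm.EE μ (fun η => MO.ht ν c η ^ 2) z ≤
        (4 ^ (k + 1 + 5) * Real.sqrt C * (Ct + 2) ^ (k + 1) / (c0 * UUm.T0)) * (v * H z) := by
      have e : (4 ^ (k + 1 + 5) * Real.sqrt C * (Ct + 2) ^ (k + 1) / (c0 * UUm.T0)) * (v * H z) =
          (4 ^ (k + 1 + 5) * Real.sqrt C * ((Ct + 2) ^ (k + 1) * v) * (H z / c0)) / UUm.T0 := by
        field_simp
      rw [e, le_div_iff₀ hT0]
      linarith
    calc UUm.EE μ (fun η => MO.ht ν c η ^ 2) 0 ≤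
          (1 + ‖z - 0‖) ^ (k + 1 + 4) * UUm.EE μ (fun η => MO.ht ν c η ^ 2) z := h1
      _ ≤ (Ct + 2) ^ (k + 1 + 4) *
          ((4 ^ (k + 1 + 5) * Real.sqrt C * (Ct + 2) ^ (k + 1) / (c0 * UUm.T0)) * (v * H z)) :=
          mul_le_mul h2 h7 h4 (by positivity)
      _ = KH * (v * H z) := by rw [hKH]; ring
  -- the density and the weight
  have hlow := low (k := k) (n := n) hν s hc hR
  -- pointwise bound
  have hpt : ∀ y : Sp (k + 1), ⟪ν, y⟫_ℝ = c →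
      Mo μ n s 2 1 0 * zR Ct y ≤
        (3 * KH) * (zR (2 * R0 - 1) y * H y) + (3 * κw * v) * zR Ct y := by
    intro y hy
    by_cases hyn : ‖y‖ ≤ Ct + 1
    · have h1 := hH y hy hyn
      have h2 : Mo μ n s 2 1 0 * v ≤ (3 * KH * H y + 3 * κw * v) * v := by
        calc Mo μ n s 2 1 0 * v ≤ 3 * UUm.EE μ (fun η => MO.ht ν c η ^ 2) 0 + 3 * κw * (v * v) := hE
          _ ≤ 3 * (KH * (v * H y)) + 3 * κw * (v * v) := by linarith
          _ = _ := by ring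
      have h3 : Mo μ n s 2 1 0 ≤ 3 * KH * H y + 3 * κw * v := le_of_mul_le_mul_right h2 hv0
      have h4 := mul_le_mul_of_nonneg_right h3 (UUm.zR_nonneg Ct y)
      have h5 : zR Ct y * H y ≤ zR (2 * R0 - 1) y * H y :=
        mul_le_mul_of_nonneg_right (zR_mono (by linarith) y) (hH0 y)
      have h6 := mul_le_mul_of_nonneg_left h5 (by positivity : 0 ≤ 3 * KH)
      linarith
    · push Not at hyn
      rw [UUm.zR_zero hyn.le, mul_zero, mul_zero, add_zero]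
      have := UUm.zR_nonneg (2 * R0 - 1) y
      have := hH0 y
      positivity
  have hFc : Continuous (fun y : Sp (k + 1) => zR (2 * R0 - 1) y * H y) :=
    (UUm.zR_cont _).mul hHc
  have hFs : HasCompactSupport (fun y : Sp (k + 1) => zR (2 * R0 - 1) y * H y) :=
    (UUm.zR_cs _).mul_right
  have hint := pl_mono (n := ν) (s := c) hν (F := fun y => Mo μ n s 2 1 0 * zR Ct y)
    (G := fun y => (3 * KH) * (zR (2 * R0 - 1) y * H y) + (3 * κw * v) * zR Ct y)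
    (continuous_const.mul (UUm.zR_cont _)) ((UUm.zR_cs _).mul_left)
    ((continuous_const.mul hFc).add (continuous_const.mul (UUm.zR_cont _)))
    ((hFs.mul_left).add ((UUm.zR_cs _).mul_left)) hpt
  rw [pl_smul, pl_lin hν hFc hFs (UUm.zR_cont _) (UUm.zR_cs _)] at hint
  refine hint.trans ?_
  have h1 : 3 * κw * v * plInt ν c (zR Ct : Sp (k + 1) → ℝ) ≤
      3 * Cz / UUm.vb k 1 * (v * plInt ν c (fun y => zR R0 y * hgt n s y ^ 2)) := by
    have hCz0 : 0 ≤ plInt ν c (zR Ct : Sp (k + 1) → ℝ) := by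
      unfold plInt
      exact integral_nonneg fun y => UUm.zR_nonneg _ _
    have h2 := hCz ν c hν
    calc 3 * κw * v * plInt ν c (zR Ct : Sp (k + 1) → ℝ) ≤ 3 * κw * v * Cz := by gcongr
      _ = 3 * Cz / UUm.vb k 1 * (v * (κw * UUm.vb k 1)) := by
          field_simp
      _ ≤ _ := by
          have h3 : 0 ≤ Cz := hCz0.trans h2
          gcongr
  linarith

end B4m

open SMm B2m B4m

theorem stmtB4 (hUB : StmtUB) (hTH : StmtTH) (hPF : StmtPF) : StmtB4 := by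
  intro d J0 hd hJ0 M C' ε p0 A c R0 Ct R2 hC' hε hε4 hF hR0 hCt hCtR hR2
  obtain ⟨k, rfl⟩ : ∃ k, d = k + 1 := ⟨d - 1, by omega⟩
  have hd1 : 1 ≤ k + 1 := by omega
  have hA := hF.A_ge
  have hR20 : (20 : ℝ) ≤ R0 := by
    have : (0 : ℝ) ≤ ((k + 1 : ℕ) : ℝ) := Nat.cast_nonneg _
    linarith
  obtain ⟨CT, hCT, hTd⟩ := MO.getTH hTH (k + 1) 0 hd C' hC'
  obtain ⟨C2, hC2, hUB'⟩ := hUB (k + 1) 2 hd M C' ε p0 A hC' hε (by linarith) hF.p0_pos hF.p0_le hA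
  obtain ⟨Cp, hCp, hpl⟩ := pl_bf hPF hd1 (2 * R0)
  obtain ⟨Nz, hNz, hz⟩ := sT_BF (G := Sp (k + 1)) 2 (R := 2 * R0 - 1) (by linarith)
  choose NT hNT hzT using fun J : ℕ => sT_BF (G := Sp (k + 1)) J (R := Ct) (by linarith)
  choose KQ hKQ1 hKQ using fun J : ℕ => zq_bf (d := k + 1) (R := R0) (by linarith) J R2
  have hKQ0 : ∀ J, 0 < KQ J := fun J => lt_of_lt_of_le one_pos (hKQ1 J)
  set V1 : ℝ := (1 + 2 * R0) ^ (k + 1) with hV1
  have hV1p : 0 < V1 := by positivity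
  set K1 : ℝ := 4 * (Nz * (C2 * V1)) with hK1
  have hK1p : 0 < K1 := by positivity
  have hzTs : ∀ y : Sp (k + 1), Ct + 1 ≤ ‖y‖ → zR Ct y = 0 := fun y hy => UUm.zR_zero hy
  have hzTb : ∀ n : Sp (k + 1), ‖n‖ = 1 → BF 2 (Cp * NT 2) (fun s => plInt n s (zR Ct)) :=
    fun n hn => hpl n hn (zR Ct) _ (hzT 2) (fun y hy => hzTs y (by linarith))
  have hCz : ∀ (ν : Sp (k + 1)) (c : ℝ), ‖ν‖ = 1 → plInt ν c (zR Ct : Sp (k + 1) → ℝ) ≤
      Cp * NT 2 := fun ν c hν => (le_abs_self _).trans ((hzTb ν hν).norm_le c)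
  set CX : ℝ := 3 * ((Ct + 2) ^ (k + 1 + 4) * (4 ^ (k + 1 + 5) * Real.sqrt CT *
    (Ct + 2) ^ (k + 1)) / (c * UUm.T0)) with hCX
  set CY : ℝ := 3 * (Cp * NT 2) / UUm.vb k 1 with hCY
  have hcp := hF.c_pos
  have hT0 := UUm.T0_pos
  have hvb := UUm.vb_pos k one_pos
  have hsCT := Real.sqrt_pos.2 hCT
  have hNT2 := hNT 2
  have hCXp : 0 < CX := by positivity
  have hCYp : 0 < CY := by positivity
  set CB : ℝ := CX + CY with hCB
  have hCBp : 0 < CB := by positivity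
  set KM : ℝ := 2 * (1 + R2 ^ 2) with hKM
  have hKMp : 0 < KM := by positivity
  refine ⟨CB, hCBp, fun δ Rs hδ hRs => ⟨fun J => δ / (CB * KQ J + KM * NT J), fun J => ?_,
    fun R1 rm => ?_⟩⟩
  · have := hKQ0 J
    have := hNT J
    positivity
  set K2 : ℝ := CB * (Cp * K1) + (CB * (Cp * KQ 2) + KM * (Cp * NT 2)) with hK2
  have hK2p : 0 < K2 := by
    have := hKQ0 2
    positivity
  refine ⟨rm * (4 * K2) + 1, by positivity, ?_⟩
  intro β hβ μ hμ m a D J r ν κ hm ha hD hZP hStr n s hn hs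
  obtain ⟨-, -, -, -, -, -, -, -, -, hHn, -, -⟩ := hUB' β (PTm.kit_mono (by omega) hβ) μ hμ
  have hT := hTd μ hμ
  have hv0 : 0 < vv μ 1 0 := hT.vpos one_pos 0
  set v := vv μ 1 0 with hv
  have hth : th μ 1 0 = v * v := by
    rw [hv]
    unfold vv
    rw [Real.mul_self_sqrt]
    exact integral_nonneg fun η => kk_nonneg1 _
  -- the moment
  have hMo := Mo_eq_EE n s hv0
  set Mn := Mo μ n s 2 1 0 with hMn
  have hMn0 : 0 ≤ Mn := by
    have h1 := UUm.EE_nonneg μ (F := fun η => MO.ht n s η ^ 2) (fun η => sq_nonneg _) 0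
    rw [← hMo] at h1
    exact nonneg_of_mul_nonneg_left h1 hv0
  have hMn1 : Mn ≤ KM * v := by
    have h1 := EE_crude hTH hd hC' hμ hn hs
    rw [← hMo, hth] at h1
    refine le_of_mul_le_mul_right ?_ hv0
    calc Mn * v ≤ 2 * (1 + R2 ^ 2) * (v * v) := h1
      _ = _ := by rw [hKM]; ring
  -- the gain density
  set F : Sp (k + 1) → Sp (k + 1) → ℝ := fun n x => zR (2 * R0 - 1) x * Hn β ε p0 A μ n 1 x with hFd
  have hH0 : ∀ n : Sp (k + 1), ‖n‖ = 1 → ∀ y, 0 ≤ Hn β ε p0 A μ n 1 y := by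
    intro n hn y
    have h1 := hF.gain β hβ μ hμ n hn y
    have h2 : 0 ≤ XX β ε μ n 1 y := gain_nonneg hβ ε μ n y
    exact (mul_nonneg hF.c_pos.le h2).trans h1
  have hF0 : ∀ n : Sp (k + 1), ‖n‖ = 1 → ∀ y, 0 ≤ F n y := fun n hn y =>
    mul_nonneg (sT_nonneg _ _) (hH0 n hn y)
  have hFs : ∀ n y, 2 * R0 ≤ ‖y‖ → F n y = 0 := by
    intro n y hy
    have : zR (2 * R0 - 1) y = 0 := sT_zero (by linarith)
    simp only [hFd, this, zero_mul]
  have hFb : ∀ n : Sp (k + 1), ‖n‖ = 1 → BF 2 (K1 * v) (F n) := by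
    intro n hn
    have h1 := bf_cut (ρ := 2 * R0) hz (fun y hy => sT_zero (by linarith))
      ((hHn n hn).1.of_le (by norm_cast)) (B := C2 * (V1 * v)) (by positivity)
      (fun j hj y hy => ((hHn n hn).2 j hj y).trans
        (mul_le_mul_of_nonneg_left (vv_ball hTH hd hC' hμ (by linarith) hy) hC2.le))
    refine h1.mono (le_of_eq ?_)
    rw [hK1]
    ring
  set ψ : Sp (k + 1) → ℝ → ℝ := fun n s => plInt n s (F n) with hψ
  have hψ0 : ∀ n : Sp (k + 1), ‖n‖ = 1 → ∀ s, 0 ≤ ψ n s := fun n hn s =>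
    integral_nonneg fun y => hF0 n hn _
  have hψb : ∀ n : Sp (k + 1), ‖n‖ = 1 → BF 2 (Cp * (K1 * v)) (ψ n) := fun n hn =>
    hpl n hn (F n) _ (hFb n hn) (hFs n)
  have hψs : ∀ n : Sp (k + 1), ‖n‖ = 1 → ∀ s, Rs ≤ |s| → ψ n s = 0 := fun n hn s hs =>
    pl_zero hn (hFs n) (hRs.trans hs)
  -- the weight
  set ζ : Sp (k + 1) → ℝ := fun y => zR R0 y * hgt n s y ^ 2 with hζ
  have hζT : ∀ J, BF J (KQ J) ζ := fun J => hKQ J n s hn hs
  have hζ0 : ∀ y, 0 ≤ ζ y := fun y => mul_nonneg (sT_nonneg _ _) (sq_nonneg _)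
  have hζs : ∀ y, R0 + 1 ≤ ‖y‖ → ζ y = 0 := by
    intro y hy
    have : zR R0 y = 0 := sT_zero hy
    simp only [hζ, this, zero_mul]
  have hζb : ∀ n : Sp (k + 1), ‖n‖ = 1 → BF 2 (Cp * KQ 2) (fun s => plInt n s ζ) := fun n hn =>
    hpl n hn ζ _ (hζT 2) (fun y hy => hζs y (by linarith))
  have hζz : ∀ n : Sp (k + 1), ‖n‖ = 1 → ∀ s, Rs ≤ |s| → plInt n s ζ = 0 := fun n hn s hs =>
    pl_zero hn hζs (by linarith)
  have hTz : ∀ n : Sp (k + 1), ‖n‖ = 1 → ∀ s, Ct + 1 ≤ |s| → plInt n s (zR Ct) = 0 :=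
    fun n hn s hs => pl_zero hn hzTs hs
  -- comparison on planes
  have hcmp : ∀ (n' : Sp (k + 1)) (c' : ℝ), ‖n'‖ = 1 →
      0 ≤ CB * ψ n' c' + (CB * v * plInt n' c' ζ + (-Mn) * plInt n' c' (zR Ct)) := by
    intro n' c' hn'
    have hz0 : 0 ≤ plInt n' c' ζ := integral_nonneg fun y => hζ0 _
    have hp0 := hψ0 n' hn' c'
    rcases le_total |c'| (Ct + 1) with hc | hc
    · have h1 := cmp hTH hd hC' hCT hcp (by linarith) (by linarith : Ct + 4 ≤ R0) hCz hμ hT hβ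
        (ε := ε) hn' (H := Hn β ε p0 A μ n' 1) (hHn n' hn').1.continuous (hH0 n' hn')
        (fun y => hF.gain β hβ μ hμ n' hn' y) hn s c' hc
      have h2 : CX * ψ n' c' ≤ CB * ψ n' c' := mul_le_mul_of_nonneg_right (by linarith) hp0
      have h3 : CY * (v * plInt n' c' ζ) ≤ CB * (v * plInt n' c' ζ) :=
        mul_le_mul_of_nonneg_right (by linarith) (mul_nonneg hv0.le hz0)
      have h4 : Mn * plInt n' c' (zR Ct) ≤ CX * ψ n' c' + CY * (v * plInt n' c' ζ) := h1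
      linarith
    · rw [hTz n' hn' c' hc, mul_zero, add_zero]
      positivity
  -- the pieces
  have hpc : pieces m ν κ F = ∑ i, ∫ y, m y * (κ i y * ψ (ν i) ⟪ν i, y⟫_ℝ) := rfl
  have hrm : (r : ℝ) ≤ rm := by exact_mod_cast hStr.rle
  have hκc : ∀ i, Continuous (κ i) := fun i => (hStr.kb i).smooth.continuous
  have hpi : ∀ i : Fin r, Mn * (∫ y, m y * (κ i y * plInt (ν i) ⟪ν i, y⟫_ℝ (zR Ct))) ≤
      CB * (∫ y, m y * (κ i y * ψ (ν i) ⟪ν i, y⟫_ℝ)) +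
        CB * v * (∫ y, m y * (κ i y * plInt (ν i) ⟪ν i, y⟫_ℝ ζ)) + 4 * K2 * (v * D) := by
    intro i
    have hni := hStr.n1 i
    have hgb : BF 2 (K2 * v) (fun s => CB * ψ (ν i) s +
        (CB * v * plInt (ν i) s ζ + (-Mn) * plInt (ν i) s (zR Ct))) := by
      refine (((hψb _ hni).const_mul CB).add
        (((hζb _ hni).const_mul (CB * v)).add ((hzTb _ hni).const_mul (-Mn)))).mono ?_
      rw [abs_of_pos hCBp, abs_of_pos (by positivity : 0 < CB * v), abs_neg, abs_of_nonneg hMn0,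
        hK2]
      have h1 : Mn * (Cp * NT 2) ≤ KM * v * (Cp * NT 2) :=
        mul_le_mul_of_nonneg_right hMn1 (by positivity)
      nlinarith
    have h1 := zp_use hZP (K := 4 * (K2 * v)) (by positivity)
      (piece_bf hni (hStr.kb i) hgb)
      (fun y => mul_nonneg (hStr.k0 i y) (hcmp _ _ hni))
      (piece_zero hni (hStr.ks i) (g := fun s => CB * ψ (ν i) s +
        (CB * v * plInt (ν i) s ζ + (-Mn) * plInt (ν i) s (zR Ct))) (fun s hs => by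
          rw [hψs _ hni s hs, hζz _ hni s hs, hTz _ hni s (by linarith)]
          ring))
    rw [piece_lin hni hm (hκc i) (hStr.ks i) (hψb _ hni).smooth.continuous
      (hζb _ hni).smooth.continuous (hzTb _ hni).smooth.continuous (hψs _ hni) (hζz _ hni)
      (fun s hs => hTz _ hni s (by linarith))] at h1
    have h3 : 4 * (K2 * v) * D = 4 * K2 * (v * D) := by ring
    rw [h3] at h1
    linarith
  have hsum : Mn * (∑ i, ∫ y, m y * (κ i y * plInt (ν i) ⟪ν i, y⟫_ℝ (zR Ct))) ≤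
      CB * pieces m ν κ F + CB * v * (∑ i, ∫ y, m y * (κ i y * plInt (ν i) ⟪ν i, y⟫_ℝ ζ)) +
        rm * (4 * K2) * (v * D) := by
    rw [hpc, Finset.mul_sum, Finset.mul_sum, Finset.mul_sum]
    refine (Finset.sum_le_sum fun i _ => hpi i).trans ?_
    rw [Finset.sum_add_distrib, Finset.sum_add_distrib, Finset.sum_const, Finset.card_univ,
      Fintype.card_fin, nsmul_eq_mul]
    have h3 : 0 ≤ 4 * K2 * (v * D) := by positivity
    have h4 := mul_le_mul_of_nonneg_right hrm h3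
    linarith
  -- the structure theorem
  have hKJ := hKQ0 J
  have hNJ := hNT J
  set tol : ℝ := δ / (CB * KQ J + KM * NT J) with htol
  have htol0 : 0 < tol := by positivity
  have hestζ := hStr.est ζ (KQ J) ⟨(hζT J).smooth, (hζT J).bd⟩ (fun y hy => hζs y (by linarith))
  have hestT := hStr.est (zR Ct) (NT J) ⟨(hzT J).smooth, (hzT J).bd⟩
    (fun y hy => hzTs y (by linarith))
  have e1 := (abs_le.1 hestT).2
  have e2 := (abs_le.1 hestζ).1
  have e3 : Mn * (∫ y, m y * zR Ct y) ≤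
      Mn * (∑ i, ∫ y, m y * (κ i y * plInt (ν i) ⟪ν i, y⟫_ℝ (zR Ct))) +
        KM * v * (tol * a * NT J) := by
    have h1 : (∫ y, m y * zR Ct y) ≤
        (∑ i, ∫ y, m y * (κ i y * plInt (ν i) ⟪ν i, y⟫_ℝ (zR Ct))) + tol * a * NT J := by
      linarith
    have h2 := mul_le_mul_of_nonneg_left h1 hMn0
    have h3 : Mn * (tol * a * NT J) ≤ KM * v * (tol * a * NT J) :=
      mul_le_mul_of_nonneg_right hMn1 (by positivity)
    linarith
  have e4 : CB * v * (∑ i, ∫ y, m y * (κ i y * plInt (ν i) ⟪ν i, y⟫_ℝ ζ)) ≤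
      CB * v * (∫ y, m y * ζ y) + CB * v * (tol * a * KQ J) := by
    have h1 : (∑ i, ∫ y, m y * (κ i y * plInt (ν i) ⟪ν i, y⟫_ℝ ζ)) ≤
        (∫ y, m y * ζ y) + tol * a * KQ J := by
      linarith
    have h2 := mul_le_mul_of_nonneg_left h1 (by positivity : 0 ≤ CB * v)
    linarith
  have e5 : KM * v * (tol * a * NT J) + CB * v * (tol * a * KQ J) = δ * a * v := by
    have : tol * (CB * KQ J + KM * NT J) = δ := by
      rw [htol]
      field_simp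
    rw [← this]
    ring
  have hvD : 0 ≤ v * D := by positivity
  have e6 : (rm * (4 * K2) + 1) * v * D = rm * (4 * K2) * (v * D) + v * D := by ring
  have e7 : pieces m ν κ (fun n x => zR (2 * R0 - 1) x * Hn β ε p0 A μ n 1 x) =
      pieces m ν κ F := rfl
  rw [e6, e7, mul_comm]
  linarith

end

end TG
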