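import Pool.Agent.TG.Stmts1

/-!
# The base kernel and the radial potentials (module BK, MP_287c87_an)
-/

open MeasureTheory Metric Set TrI
open scoped InnerProductSpace ContDiff

namespace TG

noncomputable section

namespace BKaux

variable {d : ℕ} {β γ : Sp d → ℝ}

/-! ## Radial potentials -/

/-- continuous nonnegative radially nonincreasing functions supported in the unit ball -/
structure RP (β : Sp d → ℝ) : Prop where
  cont : Continuous β
  nonneg : ∀ x, 0 ≤ β x
  mono : ∀ x y, ‖x‖ ≤ ‖y‖ → β y ≤ β x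
  supp : ∀ x, 1 ≤ ‖x‖ → β x = 0

lemma RP.eq (h : RP β) {x y : Sp d} (hxy : ‖x‖ = ‖y‖) : β x = β y :=
  le_antisymm (h.mono _ _ hxy.ge) (h.mono _ _ hxy.le)

lemma exists_unit (hd : 1 ≤ d) : ∃ e : Sp d, ‖e‖ = 1 :=
  ⟨EuclideanSpace.single ⟨0, hd⟩ 1, by simp⟩

section

variable {e : Sp d} (he : ‖e‖ = 1)
include he

lemma norm_smul_e {r : ℝ} (hr : 0 ≤ r) : ‖r • e‖ = r := by
  rw [norm_smul, he, mul_one, Real.norm_of_nonneg hr]

lemma rad_eq (h : RP β) {r : ℝ} (hr : 0 ≤ r) : rad β r = β (r • e) := by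
  unfold rad
  have : β '' sphere 0 r = {β (r • e)} := by
    ext t
    rw [mem_image, mem_singleton_iff]
    constructor
    · rintro ⟨x, hx, rfl⟩
      rw [mem_sphere_zero_iff_norm] at hx
      exact h.eq (by rw [hx, norm_smul_e he hr])
    · rintro rfl
      exact ⟨r • e, by rw [mem_sphere_zero_iff_norm, norm_smul_e he hr], rfl⟩
  rw [this, csSup_singleton]

lemma Bp_eq (h : RP β) (x : Sp d) : Bp β x = ∫ r in (‖x‖)..1, r * β (r • e) := by
  unfold Bp
  refine intervalIntegral.integral_congr fun r hr => ?_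
  have h0 : 0 ≤ r := (le_min (norm_nonneg x) zero_le_one).trans hr.1
  simp only [rad_eq he h h0]

omit he in
lemma gc (h : RP β) : Continuous fun r : ℝ => r * β (r • e) := by
  have := h.cont
  fun_prop

lemma Bp_eq_sq (h : RP β) (x : Sp d) :
    Bp β x = 1 / 2 * ∫ v in (‖x‖ ^ 2)..1, β (Real.sqrt v • e) := by
  have hc : Continuous fun v : ℝ => β (Real.sqrt v • e) := by
    have := h.cont
    fun_prop
  have h1 := intervalIntegral.integral_comp_mul_deriv (a := ‖x‖) (b := 1)
    (f := fun r : ℝ => r ^ 2) (f' := fun r : ℝ => 2 * r) (g := fun v : ℝ => β (Real.sqrt v • e))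
    (fun r _ => by simpa using hasDerivAt_pow 2 r) (by fun_prop) hc
  rw [one_pow] at h1
  rw [← h1, Bp_eq he h, ← intervalIntegral.integral_const_mul]
  refine intervalIntegral.integral_congr fun r hr => ?_
  have h0 : 0 ≤ r := (le_min (norm_nonneg x) zero_le_one).trans hr.1
  simp only [Function.comp_apply, Real.sqrt_sq h0]
  ring

lemma hasFD (h : RP β) (x : Sp d) :
    HasFDerivAt (Bp β) (β x • (-(innerSL ℝ x))) x := by
  have hc : Continuous fun v : ℝ => β (Real.sqrt v • e) := by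
    have := h.cont
    fun_prop
  have h1 : Bp β = fun x => 1 / 2 * ∫ v in (‖x‖ ^ 2)..1, β (Real.sqrt v • e) := by
    funext x
    exact Bp_eq_sq he h x
  have h2 : HasDerivAt (fun u : ℝ => 1 / 2 * ∫ v in u..1, β (Real.sqrt v • e))
      (1 / 2 * -β (Real.sqrt (‖x‖ ^ 2) • e)) (‖x‖ ^ 2) := by
    refine HasDerivAt.const_mul _ ?_
    have h3 := (hc.integral_hasStrictDerivAt 1 (‖x‖ ^ 2)).hasDerivAt.neg
    refine h3.congr_of_eventuallyEq (Filter.Eventually.of_forall fun u => ?_)
    exact intervalIntegral.integral_symm 1 u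
  have h4 := (h2.comp_hasFDerivAt x (hasStrictFDerivAt_norm_sq x).hasFDerivAt)
  rw [h1]
  refine HasFDerivAt.congr_fderiv h4 ?_
  rw [Real.sqrt_sq (norm_nonneg x), h.eq (norm_smul_e he (norm_nonneg x))]
  ext y
  simp
  ring

end

lemma hasFD' (hd : 1 ≤ d) (h : RP β) (x : Sp d) :
    HasFDerivAt (Bp β) (β x • (-(innerSL ℝ x))) x := by
  obtain ⟨e, he⟩ := exists_unit hd
  exact hasFD he h x

lemma hasG (hd : 1 ≤ d) (h : RP β) (x : Sp d) : HasGradientAt (Bp β) (-(β x) • x) x := by
  rw [hasGradientAt_iff_hasFDerivAt]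
  refine (hasFD' hd h x).congr_fderiv ?_
  ext y
  simp

lemma Bp_supp (hd : 1 ≤ d) (h : RP β) (x : Sp d) (hx : 1 ≤ ‖x‖) : Bp β x = 0 := by
  obtain ⟨e, he⟩ := exists_unit hd
  rw [Bp_eq he h, intervalIntegral.integral_symm, neg_eq_zero]
  rw [← intervalIntegral.integral_zero (a := 1) (b := ‖x‖) (μ := volume) (E := ℝ)]
  refine intervalIntegral.integral_congr fun r hr => ?_
  rw [uIcc_of_le hx] at hr
  beta_reduce
  rw [h.supp, mul_zero]
  rw [norm_smul_e he (zero_le_one.trans hr.1)]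
  exact hr.1

lemma RP.Bp (hd : 1 ≤ d) (h : RP β) : RP (Bp β) := by
  obtain ⟨e, he⟩ := exists_unit hd
  have hi : ∀ a b : ℝ, IntervalIntegrable (fun r : ℝ => r * β (r • e)) volume a b :=
    fun a b => (gc h).intervalIntegrable a b
  refine ⟨?_, ?_, ?_, Bp_supp hd h⟩
  · exact continuous_iff_continuousAt.2 fun x => (hasFD he h x).continuousAt
  · intro x
    rcases le_total 1 ‖x‖ with hx | hx
    · rw [Bp_supp hd h x hx]
    · rw [Bp_eq he h]
      refine intervalIntegral.integral_nonneg hx fun r hr => ?_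
      exact mul_nonneg ((norm_nonneg x).trans hr.1) (h.nonneg _)
  · intro x y hxy
    rw [Bp_eq he h, Bp_eq he h, ← intervalIntegral.integral_add_adjacent_intervals
      (hi ‖x‖ ‖y‖) (hi ‖y‖ 1)]
    have : 0 ≤ ∫ r in (‖x‖)..(‖y‖), r * β (r • e) :=
      intervalIntegral.integral_nonneg hxy fun r hr =>
        mul_nonneg ((norm_nonneg x).trans hr.1) (h.nonneg _)
    linarith

lemma Bp_le (hd : 1 ≤ d) (h : RP β) (x : Sp d) : Bp β x ≤ β x := by
  obtain ⟨e, he⟩ := exists_unit hd
  rcases le_total 1 ‖x‖ with hx | hx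
  · rw [Bp_supp hd h x hx]
    exact h.nonneg x
  · rw [Bp_eq he h]
    have h1 : ∫ r in (‖x‖)..1, r * β (r • e) ≤ ∫ r in (‖x‖)..1, r * β x := by
      refine intervalIntegral.integral_mono_on hx ((gc h).intervalIntegrable _ _)
        (by apply Continuous.intervalIntegrable; fun_prop) fun r hr => ?_
      have hr0 : 0 ≤ r := (norm_nonneg x).trans hr.1
      refine mul_le_mul_of_nonneg_left (h.mono _ _ ?_) hr0
      rw [norm_smul_e he hr0]
      exact hr.1
    refine h1.trans ?_
    rw [intervalIntegral.integral_mul_const, integral_id]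
    have := h.nonneg x
    nlinarith [sq_nonneg ‖x‖]

lemma Bp_contDiff (hd : 1 ≤ d) (h : RP β) {J : ℕ} (hJ : ContDiff ℝ J β) : ContDiff ℝ J (Bp β) := by
  have h1 : ContDiff ℝ (J + 1 : ℕ) (Bp β) := by
    push_cast
    rw [contDiff_succ_iff_fderiv]
    refine ⟨fun x => (hasFD' hd h x).differentiableAt, by simp, ?_⟩
    have : fderiv ℝ (Bp β) = fun x => β x • (-(innerSL ℝ x)) := by
      funext x
      exact (hasFD' hd h x).fderiv
    rw [this]
    exact hJ.smul (innerSL ℝ (E := Sp d)).contDiff.neg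
  exact h1.of_le (by exact_mod_cast Nat.le_succ J)

/-- derivatives of the radial potential -/
lemma der_Bp (hd : 1 ≤ d) (J : ℕ) : ∃ C : ℝ, 1 ≤ C ∧ ∀ γ : Sp d → ℝ, RP γ → ContDiff ℝ J γ →
    ∀ (x : Sp d) (D : ℝ), (∀ j ≤ J, ‖iteratedFDeriv ℝ j γ x‖ ^ 2 ≤ D) →
    ∀ j ≤ J, ‖iteratedFDeriv ℝ j (Bp γ) x‖ ^ 2 ≤ C * D := by
  have hg : ContDiff ℝ ∞ (fun x : Sp d => -(innerSL ℝ x)) := (innerSL ℝ (E := Sp d)).contDiff.neg
  obtain ⟨A, hA0, hA⟩ : ∃ A : ℝ, 0 ≤ A ∧ ∀ k ≤ J, ∀ x ∈ closedBall (0 : Sp d) 1,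
      ‖iteratedFDeriv ℝ k (fun x : Sp d => -(innerSL ℝ x)) x‖ ≤ A := by
    have h1 : ∀ k, ∃ A : ℝ, ∀ x ∈ closedBall (0 : Sp d) 1,
        ‖iteratedFDeriv ℝ k (fun x : Sp d => -(innerSL ℝ x)) x‖ ≤ A := fun k =>
      (isCompact_closedBall (0 : Sp d) 1).exists_bound_of_continuousOn
        (hg.continuous_iteratedFDeriv (by exact_mod_cast le_top)).continuousOn
    choose A hA using h1
    refine ⟨∑ k ∈ Finset.range (J + 1), |A k|, Finset.sum_nonneg fun _ _ => abs_nonneg _,
      fun k hk x hx => (hA k x hx).trans ((le_abs_self _).trans ?_)⟩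
    exact Finset.single_le_sum (f := fun k => |A k|) (fun _ _ => abs_nonneg _)
      (Finset.mem_range.2 (by omega))
  refine ⟨((J + 1) * 2 ^ J * A) ^ 2 + 1, by nlinarith [sq_nonneg ((J + 1) * 2 ^ J * A)],
    fun γ hγ hJ x D hD j hj => ?_⟩
  have hD0 : 0 ≤ D := (sq_nonneg _).trans (hD 0 (Nat.zero_le _))
  have hC : D ≤ (((J + 1) * 2 ^ J * A) ^ 2 + 1) * D := by
    nlinarith [mul_nonneg (sq_nonneg ((J + 1) * 2 ^ J * A)) hD0]
  rcases Nat.eq_zero_or_pos j with rfl | hj0
  · refine le_trans ?_ hC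
    refine le_trans ?_ (hD 0 (Nat.zero_le _))
    rw [norm_iteratedFDeriv_zero, norm_iteratedFDeriv_zero, Real.norm_of_nonneg (hγ.nonneg x),
      Real.norm_of_nonneg ((hγ.Bp hd).nonneg x)]
    exact pow_le_pow_left₀ ((hγ.Bp hd).nonneg x) (Bp_le hd hγ x) 2
  · obtain ⟨i, rfl⟩ : ∃ i, j = i + 1 := ⟨j - 1, by omega⟩
    rcases le_or_gt ‖x‖ 1 with hx | hx
    · have e1 : fderiv ℝ (Bp γ) = fun x => γ x • (-(innerSL ℝ x)) := by
        funext x
        exact (hasFD' hd hγ x).fderiv
      rw [← norm_iteratedFDeriv_fderiv, e1]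
      have h2 := norm_iteratedFDeriv_smul_le (N := J) hJ (hg.of_le (by exact_mod_cast le_top)) x
        (n := i) (by exact_mod_cast (by omega : i ≤ J))
      have h3 : ∀ k ∈ Finset.range (i + 1), ((i.choose k : ℕ) : ℝ) * ‖iteratedFDeriv ℝ k γ x‖ *
          ‖iteratedFDeriv ℝ (i - k) (fun x : Sp d => -(innerSL ℝ x)) x‖ ≤
          2 ^ J * Real.sqrt D * A := by
        intro k hk
        have hk := Finset.mem_range.1 hk
        have c1 : ((i.choose k : ℕ) : ℝ) ≤ 2 ^ J := by
          have : i.choose k ≤ 2 ^ J := (Nat.choose_le_two_pow i k).trans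
            (Nat.pow_le_pow_right (by norm_num) (by omega))
          exact_mod_cast this
        have c2 : ‖iteratedFDeriv ℝ k γ x‖ ≤ Real.sqrt D :=
          Real.le_sqrt_of_sq_le (hD k (by omega))
        have c3 := hA (i - k) (by omega) x (by simpa using hx)
        gcongr
      have h4 := h2.trans (Finset.sum_le_sum h3)
      rw [Finset.sum_const, Finset.card_range, nsmul_eq_mul] at h4
      have h5 : ((i + 1 : ℕ) : ℝ) * (2 ^ J * Real.sqrt D * A) ≤
          (J + 1) * 2 ^ J * A * Real.sqrt D := by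
        have : ((i + 1 : ℕ) : ℝ) ≤ J + 1 := by exact_mod_cast (by omega : i + 1 ≤ J + 1)
        calc _ ≤ ((J : ℝ) + 1) * (2 ^ J * Real.sqrt D * A) := by gcongr
          _ = _ := by ring
      have h6 := pow_le_pow_left₀ (norm_nonneg _) (h4.trans h5) 2
      rw [mul_pow _ (Real.sqrt D), Real.sq_sqrt hD0] at h6
      linarith
    · have h1 : Bp γ =ᶠ[nhds x] fun _ => 0 := by
        filter_upwards [(isOpen_lt continuous_const continuous_norm).mem_nhds hx] with y hy
        exact Bp_supp hd hγ y (le_of_lt hy)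
      rw [(h1.iteratedFDeriv ℝ (i + 1)).eq_of_nhds]
      rw [iteratedFDeriv_fun_zero]
      simp only [Pi.zero_apply, norm_zero]
      rw [zero_pow two_ne_zero]
      positivity

/-- from profiles to kits -/
lemma kit_of_prof (hd : 1 ≤ d) (J : ℕ) (M : ℝ) (hM : 0 ≤ M) : ∃ M' : ℝ, ∀ β : Sp d → ℝ,
    Continuous β → (∀ n : Sp d, ∀ x, 0 ≤ disc n β x) → IsProf J M β → Kit J M' β := by
  obtain ⟨C, hC1, hC⟩ := der_Bp hd J
  refine ⟨C * (C * M), fun β hβ hdisc hP => ?_⟩
  have hR : RP β := ⟨hβ, hP.nonneg, hP.mono, hP.supp⟩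
  have hR1 := hR.Bp hd
  have hR2 := hR1.Bp hd
  have s1 := Bp_contDiff hd hR hP.smooth
  have s2 := Bp_contDiff hd hR1 s1
  have hCM : M ≤ C * M := by nlinarith
  have hCM2 : C * M ≤ C * (C * M) := by nlinarith
  have d1 : ∀ n : Sp d, ‖n‖ = 1 → ∀ x, ∀ j ≤ J,
      ‖iteratedFDeriv ℝ j (Bp β) x‖ ^ 2 ≤ C * (M * disc n β x) := fun n hn x =>
    hC β hR hP.smooth x (M * disc n β x) fun j hj => hP.der j hj n hn x
  have d2 : ∀ n : Sp d, ‖n‖ = 1 → ∀ x, ∀ j ≤ J,
      ‖iteratedFDeriv ℝ j (Bp (Bp β)) x‖ ^ 2 ≤ C * (C * (M * disc n β x)) := fun n hn x =>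
    hC (Bp β) hR1 s1 x _ (d1 n hn x)
  refine
    { prof := ⟨hP.smooth, hP.nonneg, hP.mono, hP.supp, hP.int, fun j hj n hn x => ?_⟩
      smooth1 := s1
      smooth2 := s2
      supp1 := hR1.supp
      supp2 := hR2.supp
      grad1 := hasG hd hR
      grad2 := hasG hd hR1
      nonneg1 := hR1.nonneg
      nonneg2 := hR2.nonneg
      le1 := Bp_le hd hR
      le2 := Bp_le hd hR1
      mono1 := hR1.mono
      mono2 := hR2.mono
      der1 := fun j hj n hn x => ?_
      der2 := fun j hj n hn x => ?_ }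
  · exact (hP.der j hj n hn x).trans (mul_le_mul_of_nonneg_right (hCM.trans hCM2) (hdisc n x))
  · refine (d1 n hn x j hj).trans ?_
    rw [← mul_assoc]
    exact mul_le_mul_of_nonneg_right hCM2 (hdisc n x)
  · refine (d2 n hn x j hj).trans (le_of_eq ?_)
    ring

/-! ## The base function -/

/-- positive part of 1 - 4|x|² -/
def q (x : Sp d) : ℝ := max 0 (1 - 4 * ‖x‖ ^ 2)

lemma q_nonneg (x : Sp d) : 0 ≤ q x := le_max_left _ _

lemma q_le (x : Sp d) : q x ≤ 1 := by
  unfold q
  refine max_le zero_le_one ?_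
  nlinarith [sq_nonneg ‖x‖]

lemma q_cont : Continuous (q : Sp d → ℝ) := by
  unfold q
  fun_prop

lemma q_mono {x y : Sp d} (h : ‖x‖ ≤ ‖y‖) : q y ≤ q x := by
  unfold q
  have := pow_le_pow_left₀ (norm_nonneg x) h 2
  exact max_le_max le_rfl (by linarith)

lemma q_supp {x : Sp d} (h : 1 / 2 ≤ ‖x‖) : q x = 0 := by
  unfold q
  have := pow_le_pow_left₀ (by norm_num) h 2
  exact max_eq_left (by linarith)

lemma norm_le_of_q {x : Sp d} (h : 0 < q x) : ‖x‖ ≤ 1 / 2 := by
  by_contra hc
  rw [q_supp (not_le.1 hc).le] at h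
  exact lt_irrefl _ h

lemma pos_deriv (m : ℕ) (t : ℝ) :
    HasDerivAt (fun t : ℝ => (max 0 t) ^ (m + 2)) ((m + 2 : ℕ) * (max 0 t) ^ (m + 1)) t := by
  rcases lt_trichotomy t 0 with ht | ht | ht
  · have h1 : (fun t : ℝ => (max 0 t) ^ (m + 2)) =ᶠ[nhds t] fun _ => 0 := by
      filter_upwards [gt_mem_nhds ht] with s hs
      rw [max_eq_left hs.le]
      simp
    rw [max_eq_left ht.le, zero_pow (by omega), mul_zero]
    exact (hasDerivAt_const t (0 : ℝ)).congr_of_eventuallyEq h1
  · subst ht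
    rw [max_self, zero_pow (by omega : m + 1 ≠ 0), mul_zero, hasDerivAt_iff_isLittleO]
    simp only [max_self, sub_zero, smul_zero]
    have h0 : (0 : ℝ) ^ (m + 2) = 0 := zero_pow (by omega)
    rw [h0]
    simp only [sub_zero]
    have h1 : (fun t : ℝ => t ^ 2) =o[nhds 0] fun t => t := by
      simpa using (Asymptotics.isLittleO_pow_id (𝕜 := ℝ) one_lt_two)
    refine Asymptotics.IsBigO.trans_isLittleO ?_ h1
    refine Asymptotics.IsBigO.of_bound 1 ?_
    filter_upwards [gt_mem_nhds (zero_lt_one (α := ℝ))] with s hs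
    rw [one_mul, norm_pow, norm_pow]
    have h2 : ‖max 0 s‖ ≤ ‖s‖ := by
      rw [Real.norm_of_nonneg (le_max_left _ _), Real.norm_eq_abs]
      exact max_le (abs_nonneg _) (le_abs_self _)
    have h3 : ‖max 0 s‖ ≤ 1 := by
      rw [Real.norm_of_nonneg (le_max_left _ _)]
      exact max_le zero_le_one hs.le
    calc ‖max 0 s‖ ^ (m + 2) ≤ ‖max 0 s‖ ^ 2 := pow_le_pow_of_le_one (norm_nonneg _) h3 (by omega)
      _ ≤ ‖s‖ ^ 2 := pow_le_pow_left₀ (norm_nonneg _) h2 2
  · have h1 : (fun t : ℝ => (max 0 t) ^ (m + 2)) =ᶠ[nhds t] fun t => t ^ (m + 2) := by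
      filter_upwards [lt_mem_nhds ht] with s hs
      rw [max_eq_right hs.le]
    rw [max_eq_right ht.le]
    have h2 := hasDerivAt_pow (m + 2) t
    exact h2.congr_of_eventuallyEq h1

/-- the factor in the derivative of the powers of q -/
def Gm (m : ℕ) (x : Sp d) : Sp d →L[ℝ] ℝ := (-(8 : ℝ) * (m + 2 : ℕ)) • innerSL ℝ x

lemma Gm_contDiff (m : ℕ) : ContDiff ℝ ∞ (Gm m : Sp d → _) := by
  unfold Gm
  exact (innerSL ℝ (E := Sp d)).contDiff.const_smul (-(8 : ℝ) * (m + 2 : ℕ))

lemma q_fderiv (m : ℕ) (x : Sp d) :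
    HasFDerivAt (fun x : Sp d => q x ^ (m + 2)) (q x ^ (m + 1) • Gm m x) x := by
  have h1 : HasFDerivAt (fun x : Sp d => 1 - 4 * ‖x‖ ^ 2) (-((4 : ℝ) • (2 • innerSL ℝ x))) x :=
    ((hasStrictFDerivAt_norm_sq x).hasFDerivAt.const_mul 4).const_sub 1
  have h2 := (pos_deriv m (1 - 4 * ‖x‖ ^ 2)).comp_hasFDerivAt x h1
  refine HasFDerivAt.congr_fderiv h2 ?_
  unfold Gm q
  ext y
  simp
  ring

/-- derivatives of the powers of q -/
lemma q_der (j : ℕ) : ∀ i ≤ j, ∀ k, i < k → ContDiff ℝ i (fun x : Sp d => q x ^ k) ∧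
    ∃ C : ℝ, 0 ≤ C ∧ ∀ x : Sp d, ‖iteratedFDeriv ℝ i (fun x : Sp d => q x ^ k) x‖ ≤
      C * q x ^ (k - i) := by
  induction j with
  | zero =>
    intro i hi k _
    obtain rfl : i = 0 := by omega
    refine ⟨?_, 1, zero_le_one, fun x => ?_⟩
    · rw [Nat.cast_zero, contDiff_zero]
      exact q_cont.pow k
    · rw [norm_iteratedFDeriv_zero, norm_pow, Real.norm_of_nonneg (q_nonneg x), one_mul, Nat.sub_zero]
  | succ j ih =>
    intro i hi k hik
    rcases Nat.lt_or_ge i (j + 1) with h | h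
    · exact ih i (by omega) k hik
    obtain rfl : i = j + 1 := by omega
    obtain ⟨m, rfl⟩ : ∃ m, k = m + 2 := ⟨k - 2, by omega⟩
    have e1 : fderiv ℝ (fun x : Sp d => q x ^ (m + 2)) = fun x => q x ^ (m + 1) • Gm m x := by
      funext x
      exact (q_fderiv m x).fderiv
    have hq := ih j le_rfl (m + 1) (by omega)
    refine ⟨?_, ?_⟩
    · push_cast
      rw [contDiff_succ_iff_fderiv]
      refine ⟨fun x => (q_fderiv m x).differentiableAt, by simp, ?_⟩
      rw [e1]
      exact hq.1.smul ((Gm_contDiff m).of_le (by exact_mod_cast le_top))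
    · obtain ⟨A, hA0, hA⟩ : ∃ A : ℝ, 0 ≤ A ∧ ∀ l ≤ j, ∀ x ∈ closedBall (0 : Sp d) 1,
          ‖iteratedFDeriv ℝ l (Gm m : Sp d → _) x‖ ≤ A := by
        have h1 : ∀ l, ∃ A : ℝ, ∀ x ∈ closedBall (0 : Sp d) 1,
            ‖iteratedFDeriv ℝ l (Gm m : Sp d → _) x‖ ≤ A := fun l =>
          (isCompact_closedBall (0 : Sp d) 1).exists_bound_of_continuousOn
            ((Gm_contDiff m).continuous_iteratedFDeriv (by exact_mod_cast le_top)).continuousOn
        choose A hA using h1
        refine ⟨∑ l ∈ Finset.range (j + 1), |A l|, Finset.sum_nonneg fun _ _ => abs_nonneg _,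
          fun l hl x hx => (hA l x hx).trans ((le_abs_self _).trans ?_)⟩
        exact Finset.single_le_sum (f := fun l => |A l|) (fun _ _ => abs_nonneg _)
          (Finset.mem_range.2 (by omega))
      have hC : ∀ l, ∃ C : ℝ, 0 ≤ C ∧ (l ≤ j → ∀ x : Sp d,
          ‖iteratedFDeriv ℝ l (fun x : Sp d => q x ^ (m + 1)) x‖ ≤ C * q x ^ (m + 1 - l)) := by
        intro l
        by_cases hl : l ≤ j
        · obtain ⟨C, hC0, hC⟩ := (ih l hl (m + 1) (by omega)).2
          exact ⟨C, hC0, fun _ => hC⟩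
        · exact ⟨0, le_rfl, fun h => absurd h hl⟩
      choose C hC0 hC using hC
      refine ⟨∑ l ∈ Finset.range (j + 1), (j.choose l : ℝ) * C l * A,
        Finset.sum_nonneg fun l _ => by have := hC0 l; positivity, fun x => ?_⟩
      rw [← norm_iteratedFDeriv_fderiv, e1]
      have h2 := norm_iteratedFDeriv_smul_le (N := j) hq.1
        ((Gm_contDiff m).of_le (by exact_mod_cast le_top)) x (n := j) le_rfl
      refine h2.trans ?_
      rw [Finset.sum_mul]
      refine Finset.sum_le_sum fun l hl => ?_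
      have hl := Finset.mem_range.1 hl
      have hb := hC l (by omega) x
      have hq0 := q_nonneg x
      have e2 : m + 2 - (j + 1) = m + 1 - j := by omega
      rw [e2]
      rcases hq0.eq_or_lt with hz | hz
      · rw [← hz, zero_pow (by omega : m + 1 - l ≠ 0), mul_zero] at hb
        have hb' : ‖iteratedFDeriv ℝ l (fun x : Sp d => q x ^ (m + 1)) x‖ = 0 :=
          le_antisymm hb (norm_nonneg _)
        rw [hb', mul_zero, zero_mul]
        have := hC0 l
        positivity
      · have hx : ‖x‖ ≤ 1 / 2 := norm_le_of_q hz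
        have hA' := hA (j - l) (by omega) x (by
          rw [mem_closedBall_zero_iff]
          linarith)
        have hp : q x ^ (m + 1 - l) ≤ q x ^ (m + 1 - j) :=
          pow_le_pow_of_le_one hq0 (q_le x) (by omega)
        have hCl := hC0 l
        calc (j.choose l : ℝ) * ‖iteratedFDeriv ℝ l (fun x : Sp d => q x ^ (m + 1)) x‖ *
              ‖iteratedFDeriv ℝ (j - l) (Gm m : Sp d → _) x‖
            ≤ (j.choose l : ℝ) * (C l * q x ^ (m + 1 - j)) * A := by
              gcongr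
              exact hb.trans (mul_le_mul_of_nonneg_left hp hCl)
          _ = (j.choose l : ℝ) * C l * A * q x ^ (m + 1 - j) := by ring

/-! ## Disc averages -/

lemma disc_eq (n : Sp d) (β : Sp d → ℝ) (x : Sp d) :
    disc n β x = ∫ y in closedBall (0 : (Submodule.span ℝ {n})ᗮ) 1, β (x - (y : Sp d)) := rfl

lemma disc_nonneg {β : Sp d → ℝ} (h : ∀ x, 0 ≤ β x) (n x : Sp d) : 0 ≤ disc n β x :=
  setIntegral_nonneg measurableSet_closedBall fun _ _ => h _

/-- volumes of small balls orthogonal to n -/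
lemma vol_perp (d : ℕ) : ∃ κ : ℝ, 0 < κ ∧ ∀ n : Sp d, ‖n‖ = 1 →
    ∀ r : ℝ, 0 ≤ r → r ≤ 1 →
      κ * r ^ d ≤ volume.real (closedBall (0 : (Submodule.span ℝ {n})ᗮ) r) := by
  refine ⟨volume.real (closedBall (0 : Sp (d - 1)) 1), ?_, fun n hn r h0 h1 => ?_⟩
  · exact ENNReal.toReal_pos (measure_closedBall_pos _ _ one_pos).ne'
      (measure_closedBall_lt_top).ne
  · have hn0 : n ≠ 0 := by
      rintro rfl
      simp at hn
    have hfr : Module.finrank ℝ (Submodule.span ℝ {n})ᗮ = d - 1 := by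
      have h2 := (Submodule.span ℝ {n}).finrank_add_finrank_orthogonal
      rw [finrank_span_singleton hn0, finrank_euclideanSpace_fin] at h2
      omega
    have key : ∀ m, Module.finrank ℝ (Submodule.span ℝ {n})ᗮ = m →
        volume.real (closedBall (0 : (Submodule.span ℝ {n})ᗮ) 1) =
          volume.real (closedBall (0 : Sp m) 1) := by
      rintro m rfl
      have h3 := (stdOrthonormalBasis ℝ (Submodule.span ℝ {n})ᗮ).measurePreserving_repr
      have h4 := h3.measure_preimage (s := closedBall 0 1) measurableSet_closedBall.nullMeasurableSet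
      have h5 : ((stdOrthonormalBasis ℝ (Submodule.span ℝ {n})ᗮ).repr : _ → _) ⁻¹'
          closedBall 0 1 = closedBall 0 1 := by
        ext y
        simp
      rw [h5] at h4
      simp only [measureReal_def, h4]
    rw [Measure.addHaar_real_closedBall' _ _ h0, hfr, key _ hfr, mul_comm]
    exact mul_le_mul_of_nonneg_right (pow_le_pow_of_le_one h0 h1 (Nat.sub_le _ _))
      measureReal_nonneg

lemma disc_q (d N : ℕ) (hN : 0 < N) : ∃ c : ℝ, 0 < c ∧ ∀ n : Sp d, ‖n‖ = 1 → ∀ x : Sp d,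
    c * q x ^ (N + d) ≤ disc n (fun x => q x ^ N) x := by
  obtain ⟨κ, hκ0, hκ⟩ := vol_perp d
  refine ⟨κ * (1 / 16) ^ d * (1 / 2) ^ N, by positivity, fun n hn x => ?_⟩
  have hdn := disc_nonneg (β := fun x : Sp d => q x ^ N) (fun x => pow_nonneg (q_nonneg x) N) n x
  rcases (q_nonneg x).eq_or_lt with hz | hz
  · rw [← hz, zero_pow (by omega), mul_zero]
    exact hdn
  · have hx := norm_le_of_q hz
    have hq : q x = 1 - 4 * ‖x‖ ^ 2 := by
      unfold q at hz ⊢
      rcases max_cases 0 (1 - 4 * ‖x‖ ^ 2) with h | h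
      · rw [h.1] at hz
        exact absurd hz (lt_irrefl _)
      · exact h.1
    have hq1 := q_le x
    have hcont : Continuous fun y : (Submodule.span ℝ {n})ᗮ => q (x - (y : Sp d)) ^ N :=
      (q_cont.comp (continuous_const.sub continuous_subtype_val)).pow N
    have hint : ∀ r : ℝ, IntegrableOn (fun y : (Submodule.span ℝ {n})ᗮ => q (x - (y : Sp d)) ^ N)
        (closedBall 0 r) := fun r =>
      hcont.continuousOn.integrableOn_compact (isCompact_closedBall _ _)
    have h1 : ∫ y in closedBall (0 : (Submodule.span ℝ {n})ᗮ) (q x / 16),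
        q (x - (y : Sp d)) ^ N ≤ disc n (fun x => q x ^ N) x := by
      rw [disc_eq]
      refine setIntegral_mono_set (hint 1) (Filter.Eventually.of_forall fun y =>
        pow_nonneg (q_nonneg _) N) (LE.le.eventuallyLE ?_)
      exact closedBall_subset_closedBall (by linarith)
    have h2 : (q x / 2) ^ N * volume.real (closedBall (0 : (Submodule.span ℝ {n})ᗮ) (q x / 16)) ≤
        ∫ y in closedBall (0 : (Submodule.span ℝ {n})ᗮ) (q x / 16), q (x - (y : Sp d)) ^ N := by
      refine setIntegral_ge_of_const_le_real measurableSet_closedBall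
        measure_closedBall_lt_top.ne (fun y hy => ?_) (hint _)
      refine pow_le_pow_left₀ (by positivity) ?_ N
      have hy' : ‖(y : Sp d)‖ ≤ q x / 16 := by
        rw [mem_closedBall_zero_iff] at hy
        exact hy
      have h3 : ‖x - (y : Sp d)‖ ≤ ‖x‖ + q x / 16 := (norm_sub_le _ _).trans (by linarith)
      have h4 := pow_le_pow_left₀ (norm_nonneg _) h3 2
      have h5 : q x / 2 ≤ 1 - 4 * ‖x - (y : Sp d)‖ ^ 2 := by
        have : ‖x‖ * q x ≤ 1 / 2 * q x := mul_le_mul_of_nonneg_right hx hz.le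
        nlinarith
      exact h5.trans (le_max_right _ _)
    have h3 := hκ n hn (q x / 16) (by positivity) (by linarith)
    refine le_trans ?_ (h2.trans h1)
    have h4 : κ * (1 / 16) ^ d * (1 / 2) ^ N * q x ^ (N + d) =
        (q x / 2) ^ N * (κ * (q x / 16) ^ d) := by
      rw [pow_add, div_pow, div_pow, div_pow, div_pow, one_pow, one_pow]
      ring
    rw [h4]
    exact mul_le_mul_of_nonneg_left h3 (by positivity)

/-! ## Convolutions -/

lemma RP.cs (h : RP γ) (x : Sp d) : HasCompactSupport fun y => γ (x - y) := by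
  refine HasCompactSupport.of_support_subset_isCompact (isCompact_closedBall x 1) fun y hy => ?_
  rw [mem_closedBall, dist_eq_norm, norm_sub_rev]
  by_contra hc
  exact hy (h.supp _ (not_le.1 hc).le)

lemma RP.cs0 (h : RP γ) : HasCompactSupport γ := by
  refine HasCompactSupport.of_support_subset_isCompact (isCompact_closedBall 0 1) fun y hy => ?_
  rw [mem_closedBall_zero_iff]
  by_contra hc
  exact hy (h.supp _ (not_le.1 hc).le)

lemma RP.integrable (h : RP γ) : Integrable γ := h.cont.integrable_of_hasCompactSupport h.cs0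

lemma RP.int_mul (h : RP γ) {F : Sp d → ℝ} (hF : Continuous F) (x : Sp d) :
    Integrable fun y => F y * γ (x - y) :=
  (hF.mul (h.cont.comp (continuous_const.sub continuous_id))).integrable_of_hasCompactSupport
    (h.cs x).mul_left

/-- convolutions of radially nonincreasing functions are radially nonincreasing -/
lemma conv_mono (hf : RP β) (hg : RP γ) {x x' : Sp d} (hx : ‖x‖ ≤ ‖x'‖) :
    ∫ y, β y * γ (x' - y) ≤ ∫ y, β y * γ (x - y) := by
  by_cases hxx : x = x'
  · rw [hxx]
  obtain ⟨u, hu⟩ : ∃ u, u = x' - x := ⟨_, rfl⟩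
  have hu0 : u ≠ 0 := by
    rw [hu, sub_ne_zero]
    exact fun h => hxx h.symm
  have hun : ‖u‖ ≠ 0 := norm_ne_zero_iff.2 hu0
  have hx' : x' = x + u := by rw [hu]; abel
  set R : Sp d ≃ₗᵢ[ℝ] Sp d := (ℝ ∙ u)ᗮ.reflection with hR
  have hRu : R u = -u := Submodule.reflection_orthogonalComplement_singleton_eq_neg u
  have hRz : ∀ z, R z = z - (2 * (⟪u, z⟫_ℝ / ‖u‖ ^ 2)) • u := by
    intro z
    rw [hR, Submodule.reflection_orthogonal_apply, Submodule.reflection_singleton_apply]
    simp only [RCLike.ofReal_real_eq_id, id_eq, neg_sub]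
    rw [← Nat.cast_smul_eq_nsmul ℝ, smul_smul]
    norm_num
  set σ : Sp d → Sp d := fun y => R (y - x) + x' with hσ
  have hσc : Continuous σ := (R.continuous.comp (continuous_id.sub continuous_const)).add
    continuous_const
  have hmp : MeasurePreserving σ volume volume :=
    (measurePreserving_add_right volume x').comp
      (R.measurePreserving.comp (measurePreserving_sub_right volume x))
  have hσe : MeasurableEmbedding σ :=
    (measurableEmbedding_addRight x').comp
      (R.toHomeomorph.measurableEmbedding.comp (MeasurableEquiv.subRight x).measurableEmbedding)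
  have s1 : ∀ y, ‖x' - σ y‖ = ‖x - y‖ := by
    intro y
    have : x' - σ y = -R (y - x) := by simp only [hσ]; abel
    rw [this, norm_neg, R.norm_map, norm_sub_rev]
  have s2 : ∀ y, ‖x - σ y‖ = ‖x' - y‖ := by
    intro y
    have : x - σ y = -R (y - x') := by
      have e : y - x = (y - x') + u := by rw [hu]; abel
      have e' : σ y = R (y - x') + R u + x' := by
        rw [← map_add, ← e]
      rw [e', hRu, hx']
      abel
    rw [this, norm_neg, R.norm_map, norm_sub_rev]
  -- the sign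
  have key : ∀ y, 0 ≤ (β y - β (σ y)) * (γ (x - y) - γ (x' - y)) := by
    intro y
    set t : ℝ := 1 - 2 * (⟪u, y - x⟫_ℝ / ‖u‖ ^ 2) with ht
    have e1 : σ y = y + t • u := by
      simp only [hσ]
      rw [hRz, hx', ht, sub_smul, one_smul]
      abel
    have hu2 : 0 < ‖u‖ ^ 2 := by positivity
    have ht2 : t * ‖u‖ ^ 2 = ‖u‖ ^ 2 - 2 * ⟪u, y - x⟫_ℝ := by
      rw [ht]
      field_simp
    have e2 : ‖σ y‖ ^ 2 - ‖y‖ ^ 2 = t * (‖x'‖ ^ 2 - ‖x‖ ^ 2) := by
      rw [e1, hx', norm_add_sq_real, norm_add_sq_real, norm_smul, inner_smul_right, mul_pow,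
        Real.norm_eq_abs, sq_abs]
      rw [inner_sub_right, real_inner_comm y u, real_inner_comm x u] at ht2
      linear_combination t * ht2
    have e3 : ‖x' - y‖ ^ 2 - ‖x - y‖ ^ 2 = t * ‖u‖ ^ 2 := by
      have e4 : x' - y = (x - y) + u := by rw [hx']; abel
      rw [e4, norm_add_sq_real, ht2]
      have e5 : ⟪x - y, u⟫_ℝ = -⟪u, y - x⟫_ℝ := by
        rw [real_inner_comm, ← inner_neg_right, neg_sub]
      rw [e5]
      ring
    have hxx2 : 0 ≤ ‖x'‖ ^ 2 - ‖x‖ ^ 2 := sub_nonneg.2 (pow_le_pow_left₀ (norm_nonneg x) hx 2)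
    rcases le_total 0 t with h | h
    · have c1 : ‖y‖ ≤ ‖σ y‖ := by
        refine le_of_sq_le_sq ?_ (norm_nonneg _)
        nlinarith [mul_nonneg h hxx2]
      have c2 : ‖x - y‖ ≤ ‖x' - y‖ := by
        refine le_of_sq_le_sq ?_ (norm_nonneg _)
        nlinarith [mul_nonneg h hu2.le]
      exact mul_nonneg (sub_nonneg.2 (hf.mono _ _ c1)) (sub_nonneg.2 (hg.mono _ _ c2))
    · have c1 : ‖σ y‖ ≤ ‖y‖ := by
        refine le_of_sq_le_sq ?_ (norm_nonneg _)
        nlinarith [mul_nonneg (neg_nonneg.2 h) hxx2]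
      have c2 : ‖x' - y‖ ≤ ‖x - y‖ := by
        refine le_of_sq_le_sq ?_ (norm_nonneg _)
        nlinarith [mul_nonneg (neg_nonneg.2 h) hu2.le]
      exact mul_nonneg_of_nonpos_of_nonpos (sub_nonpos.2 (hf.mono _ _ c1))
        (sub_nonpos.2 (hg.mono _ _ c2))
  have i1 : ∫ y, β y * γ (x - y) = ∫ y, β (σ y) * γ (x' - y) := by
    rw [← hmp.integral_comp hσe (fun y => β y * γ (x - y))]
    refine integral_congr_ae (Filter.Eventually.of_forall fun y => ?_)
    simp only
    rw [hg.eq (s2 y)]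
  have i2 : ∫ y, β y * γ (x' - y) = ∫ y, β (σ y) * γ (x - y) := by
    rw [← hmp.integral_comp hσe (fun y => β y * γ (x' - y))]
    refine integral_congr_ae (Filter.Eventually.of_forall fun y => ?_)
    simp only
    rw [hg.eq (s1 y)]
  have hβσ : Continuous fun y => β (σ y) := hf.cont.comp hσc
  have i3 : ∫ y, (β y - β (σ y)) * (γ (x - y) - γ (x' - y)) =
      (∫ y, β y * γ (x - y)) - (∫ y, β y * γ (x' - y)) -
        ((∫ y, β (σ y) * γ (x - y)) - ∫ y, β (σ y) * γ (x' - y)) := by
    have a3 : ∫ y, ((β y * γ (x - y) - β y * γ (x' - y)) -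
        (β (σ y) * γ (x - y) - β (σ y) * γ (x' - y))) =
        (∫ y, (β y * γ (x - y) - β y * γ (x' - y))) -
          ∫ y, (β (σ y) * γ (x - y) - β (σ y) * γ (x' - y)) :=
      integral_sub ((hg.int_mul hf.cont x).sub (hg.int_mul hf.cont x'))
        ((hg.int_mul hβσ x).sub (hg.int_mul hβσ x'))
    rw [← integral_sub (hg.int_mul hf.cont x) (hg.int_mul hf.cont x'),
      ← integral_sub (hg.int_mul hβσ x) (hg.int_mul hβσ x'), ← a3]
    refine integral_congr_ae (Filter.Eventually.of_forall fun y => ?_)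
    simp only
    ring
  have i4 : 0 ≤ ∫ y, (β y - β (σ y)) * (γ (x - y) - γ (x' - y)) := integral_nonneg key
  rw [i3, ← i1, ← i2] at i4
  linarith

section Cv

variable {W : Type*} [NormedAddCommGroup W] [NormedSpace ℝ W]

/-- average of F with weight ν -/
def cv (ν : Sp d → ℝ) (F : Sp d → W) (x : Sp d) : W := ∫ y, ν y • F (x - y)

variable {ν : Sp d → ℝ} (hν : RP ν)
include hν

lemma cv_int {F : Sp d → W} (hF : Continuous F) (x : Sp d) : Integrable fun y => ν y • F (x - y) :=
  (hν.cont.smul (hF.comp (continuous_const.sub continuous_id))).integrable_of_hasCompactSupport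
    hν.cs0.smul_right

lemma cv_fderiv {F : Sp d → W} (hF : ContDiff ℝ 1 F) (hc : HasCompactSupport F) (x : Sp d) :
    HasFDerivAt (cv ν F) (cv ν (fderiv ℝ F) x) x := by
  have hF' : Continuous (fderiv ℝ F) := hF.continuous_fderiv one_ne_zero
  obtain ⟨C, hC⟩ := hF'.bounded_above_of_compact_support (hc.fderiv ℝ)
  unfold cv
  refine hasFDerivAt_integral_of_dominated_of_fderiv_le (F := fun x y => ν y • F (x - y))
    (F' := fun x y => ν y • fderiv ℝ F (x - y)) (s := univ) (bound := fun y => ν y * C)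
    Filter.univ_mem ?_ (cv_int hν hF.continuous x) (cv_int hν hF' x).aestronglyMeasurable ?_ ?_ ?_
  · exact Filter.Eventually.of_forall fun x => (cv_int hν hF.continuous x).aestronglyMeasurable
  · refine Filter.Eventually.of_forall fun y x _ => ?_
    rw [norm_smul, Real.norm_of_nonneg (hν.nonneg y)]
    exact mul_le_mul_of_nonneg_left (hC _) (hν.nonneg y)
  · exact hν.integrable.mul_const C
  · refine Filter.Eventually.of_forall fun y x _ => ?_
    refine HasFDerivAt.const_smul ?_ (ν y)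
    have h1 := (hF.differentiable one_ne_zero (x - y)).hasFDerivAt
    have h2 : HasFDerivAt (fun x : Sp d => x - y) (ContinuousLinearMap.id ℝ (Sp d)) x :=
      (hasFDerivAt_id x).sub_const y
    have h3 := h1.comp x h2
    rwa [ContinuousLinearMap.comp_id] at h3

lemma cv_iter {F : Sp d → ℝ} {J : ℕ} (hF : ContDiff ℝ J F) (hc : HasCompactSupport F) :
    ∀ j ≤ J, iteratedFDeriv ℝ j (cv ν F) = cv ν (iteratedFDeriv ℝ j F) := by
  intro j
  induction j with
  | zero =>
    intro _
    funext x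
    rw [iteratedFDeriv_zero_eq_comp, iteratedFDeriv_zero_eq_comp]
    simp only [Function.comp_apply, cv]
    have h1 := ContinuousLinearMap.integral_comp_comm
      (continuousMultilinearCurryFin0 ℝ (Sp d) ℝ).symm.toContinuousLinearEquiv.toContinuousLinearMap
      (cv_int hν hF.continuous x)
    refine h1.symm.trans ?_
    refine integral_congr_ae (Filter.Eventually.of_forall fun y => ?_)
    exact map_smul _ _ _
  | succ j ih =>
    intro hj
    have hc1 : ContDiff ℝ 1 (iteratedFDeriv ℝ j F) :=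
      hF.iteratedFDeriv_right (by exact_mod_cast (by omega : 1 + j ≤ J))
    have hcs : HasCompactSupport (iteratedFDeriv ℝ j F) := hc.iteratedFDeriv j
    funext x
    rw [iteratedFDeriv_succ_eq_comp_left, iteratedFDeriv_succ_eq_comp_left]
    simp only [Function.comp_apply]
    rw [ih (by omega), (cv_fderiv hν hc1 hcs x).fderiv]
    have h1 := ContinuousLinearMap.integral_comp_comm
      (continuousMultilinearCurryLeftEquiv ℝ (fun _ : Fin (j + 1) => Sp d)
        ℝ).symm.toContinuousLinearEquiv.toContinuousLinearMap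
      (cv_int hν (hc1.continuous_fderiv one_ne_zero) x)
    refine h1.symm.trans ?_
    refine integral_congr_ae (Filter.Eventually.of_forall fun y => ?_)
    exact map_smul _ _ _

lemma jensen (h1 : ∫ y, ν y = 1) {G : Sp d → W} (hG : Continuous G) (x : Sp d) :
    ‖cv ν G x‖ ^ 2 ≤ ∫ y, ν y * ‖G (x - y)‖ ^ 2 := by
  obtain ⟨m, hm⟩ : ∃ m, m = ∫ y, ν y * ‖G (x - y)‖ := ⟨_, rfl⟩
  have i1 : Integrable fun y => ν y * ‖G (x - y)‖ := cv_int hν hG.norm x
  have i2 : Integrable fun y => ν y * ‖G (x - y)‖ ^ 2 := cv_int hν (hG.norm.pow 2) x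
  have h2 : ‖cv ν G x‖ ≤ m := by
    rw [hm]
    refine (norm_integral_le_integral_norm _).trans (le_of_eq ?_)
    refine integral_congr_ae (Filter.Eventually.of_forall fun y => ?_)
    simp only
    rw [norm_smul, Real.norm_of_nonneg (hν.nonneg y)]
  have h3 : ‖cv ν G x‖ ^ 2 ≤ m ^ 2 := pow_le_pow_left₀ (norm_nonneg _) h2 2
  have h4 : 0 ≤ ∫ y, ν y * (‖G (x - y)‖ - m) ^ 2 :=
    integral_nonneg fun y => mul_nonneg (hν.nonneg y) (sq_nonneg _)
  have h5 : ∫ y, ν y * (‖G (x - y)‖ - m) ^ 2 =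
      (∫ y, ν y * ‖G (x - y)‖ ^ 2) - 2 * m * (∫ y, ν y * ‖G (x - y)‖) + m ^ 2 * ∫ y, ν y := by
    have a1 : ∫ y, ((ν y * ‖G (x - y)‖ ^ 2 - 2 * m * (ν y * ‖G (x - y)‖)) + m ^ 2 * ν y) =
        (∫ y, (ν y * ‖G (x - y)‖ ^ 2 - 2 * m * (ν y * ‖G (x - y)‖))) + ∫ y, m ^ 2 * ν y :=
      integral_add (i2.sub (i1.const_mul _)) (hν.integrable.const_mul _)
    rw [← integral_const_mul, ← integral_const_mul, ← integral_sub i2 (i1.const_mul _), ← a1]
    refine integral_congr_ae (Filter.Eventually.of_forall fun y => ?_)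
    simp only
    ring
  rw [h5, h1, ← hm] at h4
  nlinarith

lemma disc_cv {F : Sp d → ℝ} (hF : Continuous F) (hc : HasCompactSupport F) (n x : Sp d) :
    Integrable (fun y => ν y * disc n F (x - y)) ∧
      disc n (cv ν F) x = ∫ y, ν y * disc n F (x - y) := by
  obtain ⟨C, hC⟩ := hF.bounded_above_of_compact_support hc
  set μ1 : Measure (Submodule.span ℝ {n})ᗮ := volume.restrict (closedBall 0 1) with hμ1
  have hfin : IsFiniteMeasure μ1 := ⟨by
    rw [hμ1, Measure.restrict_apply_univ]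
    exact measure_closedBall_lt_top⟩
  have h1 : Integrable (fun p : (Submodule.span ℝ {n})ᗮ × Sp d =>
      ν p.2 * F (x - (p.1 : Sp d) - p.2)) (μ1.prod volume) := by
    have h2 : Integrable (fun p : (Submodule.span ℝ {n})ᗮ × Sp d => ν p.2 * C)
        (μ1.prod volume) := (hν.integrable.mul_const C).comp_snd μ1
    refine h2.mono' ?_ (Filter.Eventually.of_forall fun p => ?_)
    · apply Continuous.aestronglyMeasurable
      have := hν.cont
      fun_prop
    · rw [norm_mul, Real.norm_of_nonneg (hν.nonneg _)]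
      exact mul_le_mul_of_nonneg_left (hC _) (hν.nonneg _)
  have h3 : ∀ y : Sp d, ∫ p, ν y * F (x - (p : Sp d) - y) ∂μ1 = ν y * disc n F (x - y) := by
    intro y
    rw [integral_const_mul, disc_eq]
    congr 1
    refine integral_congr_ae (Filter.Eventually.of_forall fun p => ?_)
    simp only
    congr 1
    abel
  constructor
  · have h4 := h1.integral_prod_right
    refine h4.congr (Filter.Eventually.of_forall fun y => ?_)
    exact h3 y
  · rw [disc_eq]
    have h5 := integral_integral_swap (f := fun (p : (Submodule.span ℝ {n})ᗮ) (y : Sp d) =>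
      ν y * F (x - (p : Sp d) - y)) h1
    refine Eq.trans ?_ (h5.trans (integral_congr_ae (Filter.Eventually.of_forall h3)))
    refine integral_congr_ae (Filter.Eventually.of_forall fun p => ?_)
    rfl

end Cv

/-! ## Assembly -/

/-- the kernel K at scale 1/2 -/
def nu (K : Sp d → ℝ) (y : Sp d) : ℝ := 2 ^ d * K ((2 : ℝ) • y)

lemma nu_RP {K : Sp d → ℝ} (h : RP K) : RP (nu K) where
  cont := by
    have := h.cont
    unfold nu
    fun_prop
  nonneg x := mul_nonneg (by positivity) (h.nonneg _)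
  mono x y hxy := by
    refine mul_le_mul_of_nonneg_left (h.mono _ _ ?_) (by positivity)
    rw [norm_smul, norm_smul]
    exact mul_le_mul_of_nonneg_left hxy (norm_nonneg _)
  supp x hx := by
    unfold nu
    rw [h.supp, mul_zero]
    rw [norm_smul, Real.norm_of_nonneg (by norm_num)]
    linarith

lemma nu_supp {K : Sp d → ℝ} (h : RP K) {x : Sp d} (hx : 1 / 2 ≤ ‖x‖) : nu K x = 0 := by
  unfold nu
  rw [h.supp, mul_zero]
  rw [norm_smul, Real.norm_of_nonneg (by norm_num)]
  linarith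

lemma nu_int {K : Sp d → ℝ} (h : ∫ x, K x = 1) : ∫ y, nu K y = 1 := by
  unfold nu
  rw [integral_const_mul, Measure.integral_comp_smul, h, finrank_euclideanSpace_fin, smul_eq_mul,
    mul_one, abs_of_pos (by positivity)]
  field_simp

/-- the properties of the base function used for convolutions -/
structure Base (J : ℕ) (M L : ℝ) (b : Sp d → ℝ) : Prop where
  rp : RP b
  supp2 : ∀ x, 1 / 2 ≤ ‖x‖ → b x = 0
  int : ∫ x, b x = 1
  smooth : ContDiff ℝ J b
  der : ∀ j ≤ J, ∀ n : Sp d, ‖n‖ = 1 → ∀ x, ‖iteratedFDeriv ℝ j b x‖ ^ 2 ≤ M * disc n b x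
  lip : ∀ x y, |b x - b y| ≤ L * ‖x - y‖

/-- one step of the recursion -/
def nx (b K : Sp d → ℝ) (x : Sp d) : ℝ := ∫ y, b y * (2 ^ d * K ((2 : ℝ) • (x - y)))

lemma KN_succ (b : Sp d → ℝ) (n : ℕ) : KN b (n + 1) = nx b (KN b n) := rfl

lemma nx_eq (b K : Sp d → ℝ) (x : Sp d) : nx b K x = ∫ y, b y * nu K (x - y) := rfl

lemma nx_cv (b K : Sp d → ℝ) : nx b K = cv (nu K) b := by
  funext x
  rw [nx_eq, cv, ← integral_sub_left_eq_self _ volume x]
  refine integral_congr_ae (Filter.Eventually.of_forall fun y => ?_)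
  simp only [sub_sub_cancel, smul_eq_mul]
  ring

lemma step {J : ℕ} {M L : ℝ} {b K : Sp d → ℝ} (hb : Base J M L b) (hK : RP K)
    (hK1 : ∫ x, K x = 1) : RP (nx b K) ∧ IsProf J M (nx b K) ∧
      ∀ x y, |nx b K x - nx b K y| ≤ L * ‖x - y‖ := by
  have hν := nu_RP hK
  have hν1 := nu_int hK1
  have hlip : ∀ x y, |nx b K x - nx b K y| ≤ L * ‖x - y‖ := by
    intro x y
    rw [nx_cv]
    unfold cv
    rw [← integral_sub (cv_int hν hb.rp.cont x) (cv_int hν hb.rp.cont y)]
    have h1 : ∀ z, ‖nu K z • b (x - z) - nu K z • b (y - z)‖ ≤ nu K z * (L * ‖x - y‖) := by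
      intro z
      rw [← smul_sub, norm_smul, Real.norm_of_nonneg (hν.nonneg z)]
      refine mul_le_mul_of_nonneg_left ?_ (hν.nonneg z)
      have := hb.lip (x - z) (y - z)
      rwa [sub_sub_sub_cancel_right] at this
    have h2 := norm_integral_le_of_norm_le (hν.integrable.mul_const (L * ‖x - y‖))
      (Filter.Eventually.of_forall h1)
    rw [integral_mul_const, hν1, one_mul, Real.norm_eq_abs] at h2
    exact h2
  have hcont : Continuous (nx b K) := by
    have hL : ∀ x y, dist (nx b K x) (nx b K y) ≤ |L| * dist x y := fun x y => by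
      rw [Real.dist_eq, dist_eq_norm]
      exact (hlip x y).trans (mul_le_mul_of_nonneg_right (le_abs_self L) (norm_nonneg _))
    exact (LipschitzWith.of_dist_le_mul (K := ⟨|L|, abs_nonneg L⟩) hL).continuous
  have hconv : nx b K = convolution b (nu K) (ContinuousLinearMap.mul ℝ ℝ) volume := by
    funext x
    rw [nx_eq, convolution_def]
    rfl
  have hsm : ContDiff ℝ J (nx b K) := by
    rw [hconv]
    exact hb.rp.cs0.contDiff_convolution_left _ hb.smooth hν.cont.locallyIntegrable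
  have hint : ∫ x, nx b K x = 1 := by
    rw [hconv, integral_convolution _ hb.rp.integrable hν.integrable, hb.int, hν1]
    simp
  have hRP : RP (nx b K) := by
    refine ⟨hcont, fun x => integral_nonneg fun y => mul_nonneg (hb.rp.nonneg y)
      (hν.nonneg (x - y)), fun x y hxy => conv_mono hb.rp hν hxy, fun x hx => ?_⟩
    rw [nx_eq, ← integral_zero (Sp d) ℝ]
    refine integral_congr_ae (Filter.Eventually.of_forall fun y => ?_)
    simp only
    rcases le_total (1 / 2) ‖y‖ with hy | hy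
    · rw [hb.supp2 y hy, zero_mul]
    · rw [nu_supp hK, mul_zero]
      have := norm_sub_norm_le x y
      linarith
  refine ⟨hRP, ⟨hsm, hRP.nonneg, hRP.mono, hRP.supp, hint, fun j hj n hn x => ?_⟩, hlip⟩
  have hcj : Continuous (iteratedFDeriv ℝ j b) :=
    hb.smooth.continuous_iteratedFDeriv (by exact_mod_cast hj)
  have h1 := jensen hν hν1 hcj x
  obtain ⟨h2, h3⟩ := disc_cv hν hb.rp.cont hb.rp.cs0 n x
  rw [nx_cv, cv_iter hν hb.smooth hb.rp.cs0 j hj, h3, ← integral_const_mul]
  refine h1.trans (integral_mono (cv_int hν (hcj.norm.pow 2) x) (h2.const_mul M) fun y => ?_)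
  simp only
  have h4 := mul_le_mul_of_nonneg_left (hb.der j hj n hn (x - y)) (hν.nonneg y)
  linarith

lemma exists_base (hd : 1 ≤ d) (J : ℕ) : ∃ (M L : ℝ) (b : Sp d → ℝ), 0 ≤ M ∧ 0 ≤ L ∧
    Base J M L b := by
  obtain ⟨N, hN⟩ : ∃ N, N = 2 * J + d + 2 := ⟨_, rfl⟩
  have hN2 : 1 < N := by omega
  have hq : RP (fun x : Sp d => q x ^ N) := ⟨q_cont.pow N, fun x => pow_nonneg (q_nonneg x) N,
    fun x y h => pow_le_pow_left₀ (q_nonneg y) (q_mono h) N, fun x hx => by
      rw [q_supp (by linarith), zero_pow (by omega)]⟩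
  have hI : 0 < ∫ x : Sp d, q x ^ N :=
    hq.cont.integral_pos_of_hasCompactSupport_nonneg_nonzero hq.cs0 hq.nonneg (x := 0) (by
      simp [q])
  obtain ⟨A, hA⟩ : ∃ A, A = (∫ x : Sp d, q x ^ N)⁻¹ := ⟨_, rfl⟩
  have hA0 : 0 < A := by rw [hA]; exact inv_pos.2 hI
  obtain ⟨c, hc0, hc⟩ := disc_q d N (by omega)
  have hder : ∀ j, ∃ C : ℝ, 0 ≤ C ∧ (j ≤ J → ∀ x : Sp d,
      ‖iteratedFDeriv ℝ j (fun x : Sp d => q x ^ N) x‖ ≤ C * q x ^ (N - j)) := by
    intro j
    by_cases hj : j ≤ J
    · obtain ⟨C, hC0, hC⟩ := (q_der (d := d) j j le_rfl N (by omega)).2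
      exact ⟨C, hC0, fun _ => hC⟩
    · exact ⟨0, le_rfl, fun h => absurd h hj⟩
  choose C hC0 hC using hder
  obtain ⟨C1, hC10, hC1⟩ := (q_der (d := d) 1 1 le_rfl N hN2).2
  have hsm : ContDiff ℝ J (fun x : Sp d => q x ^ N) := (q_der (d := d) J J le_rfl N (by omega)).1
  refine ⟨∑ j ∈ Finset.range (J + 1), A * C j ^ 2 / c, A * C1, fun x => A * q x ^ N, ?_, by
    positivity, ?_⟩
  · exact Finset.sum_nonneg fun j _ => by positivity
  have hdisc : ∀ n x : Sp d, disc n (fun x => A * q x ^ N) x = A * disc n (fun x => q x ^ N) x := by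
    intro n x
    rw [disc_eq, disc_eq, integral_const_mul]
  refine
    { rp := ⟨hq.cont.const_smul A, fun x => mul_nonneg hA0.le (hq.nonneg x), fun x y h =>
        mul_le_mul_of_nonneg_left (hq.mono x y h) hA0.le, fun x hx => by
        have : q x ^ N = 0 := hq.supp x hx
        rw [this, mul_zero]⟩
      supp2 := fun x hx => by rw [q_supp hx, zero_pow (by omega), mul_zero]
      int := by rw [integral_const_mul, hA, inv_mul_cancel₀ hI.ne']
      smooth := contDiff_const.mul hsm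
      der := fun j hj n hn x => ?_
      lip := fun x y => ?_ }
  · have e1 : iteratedFDeriv ℝ j (fun x : Sp d => A * q x ^ N) x =
        A • iteratedFDeriv ℝ j (fun x : Sp d => q x ^ N) x := by
      have e0 : (fun x : Sp d => A * q x ^ N) = A • fun x : Sp d => q x ^ N := rfl
      rw [e0]
      exact iteratedFDeriv_const_smul_apply (hsm.of_le (by exact_mod_cast hj)).contDiffAt
    have hCj := hC0 j
    have hqx := q_nonneg x
    have h1 : ‖iteratedFDeriv ℝ j (fun x : Sp d => A * q x ^ N) x‖ ^ 2 ≤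
        A ^ 2 * (C j ^ 2 * q x ^ (N + d)) := by
      rw [e1, norm_smul, Real.norm_of_nonneg hA0.le, mul_pow]
      refine mul_le_mul_of_nonneg_left ?_ (by positivity)
      refine (pow_le_pow_left₀ (norm_nonneg _) (hC j hj x) 2).trans ?_
      rw [mul_pow, ← pow_mul]
      refine mul_le_mul_of_nonneg_left ?_ (by positivity)
      exact pow_le_pow_of_le_one hqx (q_le x) (by omega)
    have h2 := hc n hn x
    rw [hdisc]
    have hd0 := disc_nonneg (β := fun x : Sp d => q x ^ N) hq.nonneg n x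
    have h3 : A * C j ^ 2 / c ≤ ∑ j ∈ Finset.range (J + 1), A * C j ^ 2 / c :=
      Finset.single_le_sum (f := fun j => A * C j ^ 2 / c) (fun i _ => by positivity)
        (Finset.mem_range.2 (by omega))
    calc _ ≤ A ^ 2 * (C j ^ 2 * q x ^ (N + d)) := h1
      _ = A * C j ^ 2 / c * (A * (c * q x ^ (N + d))) := by field_simp
      _ ≤ A * C j ^ 2 / c * (A * disc n (fun x => q x ^ N) x) := by gcongr
      _ ≤ _ := mul_le_mul_of_nonneg_right h3 (by positivity)
  · have h1 : ∀ x : Sp d, ‖fderiv ℝ (fun x : Sp d => q x ^ N) x‖ ≤ C1 := by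
      intro x
      have h2 := hC1 x
      rw [← norm_iteratedFDeriv_fderiv, norm_iteratedFDeriv_zero] at h2
      refine h2.trans ?_
      have := pow_le_one₀ (n := N - 1) (q_nonneg x) (q_le x)
      nlinarith
    have h2 := (convex_univ (𝕜 := ℝ) (E := Sp d)).norm_image_sub_le_of_norm_fderiv_le
      (f := fun x : Sp d => q x ^ N) (fun x _ => by
        obtain ⟨m, hm⟩ : ∃ m, N = m + 2 := ⟨N - 2, by omega⟩
        rw [hm]
        exact (q_fderiv m x).differentiableAt) (fun x _ => h1 x) (mem_univ y) (mem_univ x)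
    rw [← mul_sub, abs_mul, abs_of_pos hA0, mul_assoc]
    exact mul_le_mul_of_nonneg_left h2 hA0.le

end BKaux

open BKaux in
/-- MODULE BK -/
theorem stmtBK : StmtBK := by
  intro d J hd
  obtain ⟨M, L, b, hM, hL, hb⟩ := exists_base hd J
  obtain ⟨M', hM'⟩ := kit_of_prof hd J M hM
  have hprof0 : IsProf J M b :=
    ⟨hb.smooth, hb.rp.nonneg, hb.rp.mono, hb.rp.supp, hb.int, hb.der⟩
  have key : ∀ n, RP (KN b n) ∧ IsProf J M (KN b n) ∧
      ∀ x y, |KN b n x - KN b n y| ≤ L * ‖x - y‖ := by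
    intro n
    induction n with
    | zero => exact ⟨hb.rp, hprof0, hb.lip⟩
    | succ n ih =>
      rw [KN_succ]
      exact step hb ih.1 ih.2.1.int
  obtain ⟨v, hv⟩ : ∃ v, v = volume.real (closedBall (0 : Sp d) 1) := ⟨_, rfl⟩
  have hv0 : 0 < v := by
    rw [hv]
    exact ENNReal.toReal_pos (measure_closedBall_pos _ _ one_pos).ne' measure_closedBall_lt_top.ne
  have hlow : ∀ n, 1 / v ≤ KN b n 0 := by
    intro n
    obtain ⟨hR, hP, _⟩ := key n
    have h1 : ∫ x, KN b n x = ∫ x in closedBall (0 : Sp d) 1, KN b n x := by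
      refine (setIntegral_eq_integral_of_forall_compl_eq_zero fun x hx => ?_).symm
      refine hR.supp x ?_
      rw [mem_closedBall_zero_iff, not_le] at hx
      exact hx.le
    have h2 : ∫ x in closedBall (0 : Sp d) 1, KN b n x ≤ KN b n 0 * v := by
      have h3 := setIntegral_mono_on (μ := volume) (s := closedBall (0 : Sp d) 1)
        (f := KN b n) (g := fun _ => KN b n 0) hR.integrable.integrableOn
        (integrableOn_const measure_closedBall_lt_top.ne) measurableSet_closedBall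
        (fun x _ => hR.mono 0 x (by simp))
      rw [setIntegral_const, smul_eq_mul, ← hv, mul_comm] at h3
      exact h3
    rw [← h1, hP.int] at h2
    rwa [div_le_iff₀ hv0]
  refine ⟨M', min (1 / (2 * v)) (1 / (2 * v) / (L + 1)), b, ?_⟩
  have hc1 : 0 < 1 / (2 * v) := by positivity
  have hc2 : 0 < 1 / (2 * v) / (L + 1) := by positivity
  refine
    { c_pos := lt_min hc1 hc2
      smooth := hb.smooth
      nonneg := hb.rp.nonneg
      mono := hb.rp.mono
      supp := hb.supp2
      int := hb.int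
      kit := fun n => hM' _ (key n).1.cont (fun n' x => disc_nonneg (key n).1.nonneg n' x)
        (key n).2.1
      low := fun n x hx => ?_ }
  have h1 := (key n).2.2 0 x
  rw [zero_sub, norm_neg] at h1
  have h2 := (abs_le.1 h1).2
  have h3 : L * ‖x‖ ≤ 1 / (2 * v) := by
    have h4 : ‖x‖ ≤ 1 / (2 * v) / (L + 1) := hx.trans (min_le_right _ _)
    rw [le_div_iff₀ (by positivity)] at h4
    nlinarith [norm_nonneg x]
  have h5 := hlow n
  have h6 : 1 / v = 1 / (2 * v) + 1 / (2 * v) := by field_simp; norm_num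
  refine (min_le_left _ _).trans ?_
  linarith

end

end TG
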