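import Pool.Agent.TG.PI

/-!
# Families of smooth functions with derivatives bounded by a weight

BdN N U w F : all derivatives of order at most N of the functions F i are bounded on the open set U
by a constant (uniform in i) times the weight w i.  General tools.
-/

open MeasureTheory Metric Set Filter Topology
open scoped ContDiff

set_option linter.unusedSectionVars false

namespace TG

section BdN

variable {ι P E F G : Type*} [NormedAddCommGroup P] [NormedSpace ℝ P]
  [NormedAddCommGroup E] [NormedSpace ℝ E] [NormedAddCommGroup F] [NormedSpace ℝ F]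
  [NormedAddCommGroup G] [NormedSpace ℝ G]

/-- families of smooth functions on U with derivatives of order ≤ N bounded by the weight w -/
structure BdN (N : ℕ) (U : Set P) (w : ι → P → ℝ) (f : ι → P → E) : Prop where
  smooth : ∀ i, ContDiffOn ℝ ∞ (f i) U
  bd : ∃ C : ℝ, 0 ≤ C ∧ ∀ i, ∀ p ∈ U, ∀ j ≤ N, ‖iteratedFDeriv ℝ j (f i) p‖ ≤ C * w i p

variable {N : ℕ} {U : Set P} {w w' w1 w2 : ι → P → ℝ}

theorem BdN.of_le {N' : ℕ} {f : ι → P → E} (h : BdN N U w f) (hN : N' ≤ N) : BdN N' U w f := by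
  obtain ⟨C, hC, h1⟩ := h.bd
  exact ⟨h.smooth, C, hC, fun i p hp j hj => h1 i p hp j (hj.trans hN)⟩

theorem BdN.mono {f : ι → P → E} (h : BdN N U w f) {B : ℝ} (hB : 0 ≤ B)
    (hw : ∀ i, ∀ p ∈ U, w i p ≤ B * w' i p) : BdN N U w' f := by
  obtain ⟨C, hC, h1⟩ := h.bd
  refine ⟨h.smooth, C * B, mul_nonneg hC hB, fun i p hp j hj => ?_⟩
  calc _ ≤ C * w i p := h1 i p hp j hj
    _ ≤ C * (B * w' i p) := mul_le_mul_of_nonneg_left (hw i p hp) hC
    _ = _ := by ring

theorem BdN.comp_index {κ : Type*} {f : ι → P → E} (h : BdN N U w f) (φ : κ → ι) :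
    BdN N U (fun k => w (φ k)) (fun k => f (φ k)) := by
  obtain ⟨C, hC, h1⟩ := h.bd
  exact ⟨fun i => h.smooth _, C, hC, fun i p hp j hj => h1 _ p hp j hj⟩

theorem BdN.subset {V : Set P} {f : ι → P → E} (h : BdN N U w f) (hV : V ⊆ U) : BdN N V w f := by
  obtain ⟨C, hC, h1⟩ := h.bd
  exact ⟨fun i => (h.smooth i).mono hV, C, hC, fun i p hp j hj => h1 _ p (hV hp) j hj⟩

theorem BdN.zeroth {f : ι → P → E} (h : BdN N U w f) :
    ∃ C : ℝ, 0 ≤ C ∧ ∀ i, ∀ p ∈ U, ‖f i p‖ ≤ C * w i p := by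
  obtain ⟨C, hC, h1⟩ := h.bd
  exact ⟨C, hC, fun i p hp => by simpa using h1 i p hp 0 (Nat.zero_le _)⟩

theorem BdN.congr (hU : IsOpen U) {f g : ι → P → E} (h : BdN N U w f)
    (hfg : ∀ i, ∀ p ∈ U, g i p = f i p) : BdN N U w g := by
  obtain ⟨C, hC, h1⟩ := h.bd
  refine ⟨fun i => (h.smooth i).congr (hfg i), C, hC, fun i p hp j hj => ?_⟩
  have h2 : g i =ᶠ[𝓝 p] f i := by
    filter_upwards [hU.mem_nhds hp] with q hq using hfg i q hq
  rw [(h2.iteratedFDeriv ℝ j).self_of_nhds]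
  exact h1 i p hp j hj

theorem BdN.const (c : ι → E) {B : ℝ} (hB : 0 ≤ B) (hc : ∀ i, ∀ p ∈ U, ‖c i‖ ≤ B * w i p) :
    BdN N U w (fun i _ => c i) := by
  refine ⟨fun i => contDiffOn_const, B, hB, fun i p hp j hj => ?_⟩
  have h0 := hc i p hp
  have hn : 0 ≤ B * w i p := (norm_nonneg _).trans h0
  rcases Nat.eq_zero_or_pos j with rfl | hj0
  · simpa using h0
  · obtain ⟨j', rfl⟩ := Nat.exists_eq_succ_of_ne_zero hj0.ne'
    rw [iteratedFDeriv_succ_const]
    simpa using hn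

theorem BdN.add (hU : IsOpen U) {f g : ι → P → E} (hf : BdN N U w f) (hg : BdN N U w g) :
    BdN N U w (fun i p => f i p + g i p) := by
  obtain ⟨C, hC, h1⟩ := hf.bd
  obtain ⟨C', hC', h1'⟩ := hg.bd
  refine ⟨fun i => (hf.smooth i).add (hg.smooth i), C + C', add_nonneg hC hC',
    fun i p hp j hj => ?_⟩
  have h2 : iteratedFDeriv ℝ j (fun p => f i p + g i p) p =
      iteratedFDeriv ℝ j (f i) p + iteratedFDeriv ℝ j (g i) p := by
    have ha : ContDiffAt ℝ j (f i) p :=
      ((hf.smooth i).contDiffAt (hU.mem_nhds hp)).of_le (by exact_mod_cast le_top)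
    have hb : ContDiffAt ℝ j (g i) p :=
      ((hg.smooth i).contDiffAt (hU.mem_nhds hp)).of_le (by exact_mod_cast le_top)
    exact iteratedFDeriv_add_apply ha hb
  rw [h2]
  refine (norm_add_le _ _).trans ?_
  have := h1 i p hp j hj
  have := h1' i p hp j hj
  linarith [add_mul C C' (w i p)]

/-- composition with a bounded family of linear maps -/
theorem BdN.clm (hU : IsOpen U) {f : ι → P → E} (hf : BdN N U w f) (L : ι → E →L[ℝ] F) {B : ℝ}
    (hL : ∀ i, ‖L i‖ ≤ B) : BdN N U w (fun i p => L i (f i p)) := by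
  obtain ⟨C, hC, h1⟩ := hf.bd
  refine ⟨fun i => (L i).contDiff.comp_contDiffOn (hf.smooth i), max B 0 * C,
    mul_nonneg (le_max_right _ _) hC, fun i p hp j hj => ?_⟩
  have ha : ContDiffAt ℝ j (f i) p :=
    ((hf.smooth i).contDiffAt (hU.mem_nhds hp)).of_le (by exact_mod_cast le_top)
  have h2 := (L i).norm_iteratedFDeriv_comp_left ha le_rfl
  have h3 := h1 i p hp j hj
  calc _ ≤ ‖L i‖ * ‖iteratedFDeriv ℝ j (f i) p‖ := h2
    _ ≤ max B 0 * (C * w i p) := mul_le_mul ((hL i).trans (le_max_left _ _)) h3 (norm_nonneg _)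
        (le_max_right _ _)
    _ = _ := by ring

theorem BdN.neg (hU : IsOpen U) {f : ι → P → E} (hf : BdN N U w f) :
    BdN N U w (fun i p => - f i p) := by
  have := hf.clm hU (fun _ => -(ContinuousLinearMap.id ℝ E)) (B := ‖-(ContinuousLinearMap.id ℝ E)‖)
    (fun _ => le_rfl)
  simpa using this

theorem BdN.sub (hU : IsOpen U) {f g : ι → P → E} (hf : BdN N U w f) (hg : BdN N U w g) :
    BdN N U w (fun i p => f i p - g i p) := by
  have := hf.add hU (hg.neg hU)
  simpa [sub_eq_add_neg] using this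

theorem BdN.const_smul (hU : IsOpen U) {f : ι → P → E} (hf : BdN N U w f) (c : ι → ℝ) {B : ℝ}
    (hc : ∀ i, |c i| ≤ B) : BdN N U w (fun i p => c i • f i p) := by
  have := hf.clm hU (fun i => c i • (ContinuousLinearMap.id ℝ E)) (B := B) (fun i => by
    have h0 : ‖c i • (ContinuousLinearMap.id ℝ E)‖ ≤ ‖c i‖ * ‖ContinuousLinearMap.id ℝ E‖ :=
      ContinuousLinearMap.opNorm_smul_le (c i) (ContinuousLinearMap.id ℝ E)
    refine h0.trans ?_
    have h1 : ‖ContinuousLinearMap.id ℝ E‖ ≤ 1 := ContinuousLinearMap.norm_id_le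
    have h2 : ‖c i‖ ≤ B := hc i
    nlinarith [norm_nonneg (c i), norm_nonneg (ContinuousLinearMap.id ℝ E)])
  simpa using this

theorem BdN.const_mul (hU : IsOpen U) {f : ι → P → ℝ} (hf : BdN N U w f) (c : ι → ℝ) {B : ℝ}
    (hc : ∀ i, |c i| ≤ B) : BdN N U w (fun i p => c i * f i p) := hf.const_smul hU c hc

theorem BdN.sum (hU : IsOpen U) {κ : Type*} (s : Finset κ) {f : κ → ι → P → E}
    (hw : ∀ i, ∀ p ∈ U, 0 ≤ w i p)
    (hf : ∀ k ∈ s, BdN N U w (f k)) : BdN N U w (fun i p => ∑ k ∈ s, f k i p) := by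
  classical
  induction s using Finset.induction with
  | empty =>
    simp only [Finset.sum_empty]
    exact BdN.const (fun _ => (0 : E)) zero_le_one (fun i p hp => by simpa using hw i p hp)
  | insert k s hk ih =>
    simp only [Finset.sum_insert hk]
    exact (hf k (Finset.mem_insert_self _ _)).add hU
      (ih (fun k' hk' => hf k' (Finset.mem_insert_of_mem hk')))

/-- bilinear expressions -/
theorem BdN.bilin (hU : IsOpen U) {f : ι → P → E} {g : ι → P → F} (hf : BdN N U w1 f)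
    (hg : BdN N U w2 g) (T : ι → E →L[ℝ] F →L[ℝ] G) {B : ℝ} (hT : ∀ i, ‖T i‖ ≤ B) :
    BdN N U (fun i p => w1 i p * w2 i p) (fun i p => T i (f i p) (g i p)) := by
  obtain ⟨C, hC, h1⟩ := hf.bd
  obtain ⟨C', hC', h1'⟩ := hg.bd
  refine ⟨fun i => (((T i).contDiff.comp_contDiffOn (hf.smooth i))).clm_apply (hg.smooth i),
    max B 0 * (2 ^ N * (C * C')), by positivity, fun i p hp j hj => ?_⟩
  have h2 := (T i).norm_iteratedFDerivWithin_le_of_bilinear (N := ∞) (hf.smooth i) (hg.smooth i)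
    hU.uniqueDiffOn hp (n := j) (by exact_mod_cast le_top)
  rw [iteratedFDerivWithin_of_isOpen j hU hp] at h2
  refine h2.trans ?_
  have h3 : ∑ k ∈ Finset.range (j + 1), (j.choose k : ℝ) *
      ‖iteratedFDerivWithin ℝ k (f i) U p‖ * ‖iteratedFDerivWithin ℝ (j - k) (g i) U p‖ ≤
      ∑ k ∈ Finset.range (j + 1), (j.choose k : ℝ) * ((C * w1 i p) * (C' * w2 i p)) := by
    refine Finset.sum_le_sum fun k hk => ?_
    rw [iteratedFDerivWithin_of_isOpen k hU hp, iteratedFDerivWithin_of_isOpen (j - k) hU hp,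
      mul_assoc]
    have hk' : k ≤ j := Nat.lt_succ_iff.mp (Finset.mem_range.mp hk)
    have ha := h1 i p hp k (hk'.trans hj)
    have hb := h1' i p hp (j - k) ((Nat.sub_le _ _).trans hj)
    exact mul_le_mul_of_nonneg_left (mul_le_mul ha hb (norm_nonneg _)
      ((norm_nonneg _).trans ha)) (by positivity)
  have h4 : ∑ k ∈ Finset.range (j + 1), (j.choose k : ℝ) * ((C * w1 i p) * (C' * w2 i p)) =
      2 ^ j * ((C * w1 i p) * (C' * w2 i p)) := by
    rw [← Finset.sum_mul]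
    congr 1
    exact_mod_cast Nat.sum_range_choose j
  have hnn : 0 ≤ (C * w1 i p) * (C' * w2 i p) :=
    mul_nonneg ((norm_nonneg _).trans (h1 i p hp 0 (Nat.zero_le _)))
      ((norm_nonneg _).trans (h1' i p hp 0 (Nat.zero_le _)))
  have h5 : (2 : ℝ) ^ j ≤ 2 ^ N := pow_le_pow_right₀ (by norm_num) hj
  calc _ ≤ ‖T i‖ * (2 ^ j * ((C * w1 i p) * (C' * w2 i p))) :=
        mul_le_mul_of_nonneg_left (h3.trans h4.le) (norm_nonneg (T i))
    _ ≤ max B 0 * (2 ^ N * ((C * w1 i p) * (C' * w2 i p))) := by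
        refine mul_le_mul ((hT i).trans (le_max_left _ _)) ?_ (by positivity)
          (le_max_right _ _)
        exact mul_le_mul_of_nonneg_right h5 hnn
    _ = _ := by ring

theorem BdN.mul (hU : IsOpen U) {f g : ι → P → ℝ} (hf : BdN N U w1 f) (hg : BdN N U w2 g) :
    BdN N U (fun i p => w1 i p * w2 i p) (fun i p => f i p * g i p) :=
  hf.bilin hU hg (fun _ => ContinuousLinearMap.mul ℝ ℝ) (B := ‖ContinuousLinearMap.mul ℝ ℝ‖)
    (fun _ => le_rfl)

theorem BdN.smul (hU : IsOpen U) {f : ι → P → ℝ} {g : ι → P → E} (hf : BdN N U w1 f)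
    (hg : BdN N U w2 g) :
    BdN N U (fun i p => w1 i p * w2 i p) (fun i p => f i p • g i p) :=
  hf.bilin hU hg (fun _ => ContinuousLinearMap.lsmul ℝ ℝ)
    (B := ‖(ContinuousLinearMap.lsmul ℝ ℝ : ℝ →L[ℝ] E →L[ℝ] E)‖) (fun _ => le_rfl)

theorem BdN.pow (hU : IsOpen U) {f : ι → P → ℝ} (hf : BdN N U w f) (m : ℕ) :
    BdN N U (fun i p => w i p ^ m) (fun i p => f i p ^ m) := by
  induction m with
  | zero =>
    simp only [pow_zero]
    exact BdN.const (fun _ => (1 : ℝ)) zero_le_one (fun i p hp => by simp)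
  | succ m ih =>
    simp only [pow_succ]
    exact ih.mul hU hf

theorem BdN.D (hU : IsOpen U) {f : ι → P → E} (hf : BdN (N + 1) U w f) :
    BdN N U w (fun i => fderiv ℝ (f i)) := by
  obtain ⟨C, hC, h1⟩ := hf.bd
  refine ⟨fun i => (hf.smooth i).fderiv_of_isOpen hU (by norm_num), C, hC,
    fun i p hp j hj => ?_⟩
  rw [norm_iteratedFDeriv_fderiv]
  exact h1 i p hp (j + 1) (by omega)

theorem BdN.of_fderiv {f : ι → P → E} (hs : ∀ i, ContDiffOn ℝ ∞ (f i) U)
    (hf : BdN N U w (fun i => fderiv ℝ (f i))) {B : ℝ} (hB : 0 ≤ B)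
    (hw : ∀ i, ∀ p ∈ U, 0 ≤ w i p)
    (h0 : ∀ i, ∀ p ∈ U, ‖f i p‖ ≤ B * w i p) : BdN (N + 1) U w f := by
  obtain ⟨C, hC, h1⟩ := hf.bd
  refine ⟨hs, max B C, le_max_of_le_left hB, fun i p hp j hj => ?_⟩
  rcases Nat.eq_zero_or_pos j with rfl | hj0
  · rw [norm_iteratedFDeriv_zero]
    exact (h0 i p hp).trans (mul_le_mul_of_nonneg_right (le_max_left _ _) (hw i p hp))
  · obtain ⟨j', rfl⟩ := Nat.exists_eq_succ_of_ne_zero hj0.ne'
    have := h1 i p hp j' (by omega)
    rw [norm_iteratedFDeriv_fderiv] at this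
    exact this.trans (mul_le_mul_of_nonneg_right (le_max_right _ _) (hw i p hp))

/-- families of linear maps -/
theorem BdN.lin (hU : IsOpen U) (L : ι → P →L[ℝ] E) {B : ℝ} (hB : 0 ≤ B)
    (hw : ∀ i, ∀ p ∈ U, 0 ≤ w i p)
    (h0 : ∀ i, ∀ p ∈ U, ‖L i p‖ ≤ B * w i p) (h1 : ∀ i, ∀ p ∈ U, ‖L i‖ ≤ B * w i p) :
    BdN N U w (fun i p => L i p) := by
  have h2 : BdN N U w (fun i => fderiv ℝ (fun p => L i p)) := by
    refine (BdN.const (fun i => L i) hB h1).congr hU (fun i p hp => ?_)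
    exact (L i).fderiv
  exact (BdN.of_fderiv (fun i => (L i).contDiff.contDiffOn) h2 hB hw h0).of_le (Nat.le_succ N)

/-- functions solving D g = g L -/
theorem BdN.ode (hU : IsOpen U) {g : ι → P → ℝ} {L : ι → P → (P →L[ℝ] ℝ)}
    (hs : ∀ i, ContDiffOn ℝ ∞ (g i) U) (hD : ∀ i, ∀ p ∈ U, fderiv ℝ (g i) p = g i p • L i p)
    (hL : BdN N U (fun _ _ => 1) L) : BdN N U (fun i p => |g i p|) g := by
  induction N with
  | zero =>
    refine ⟨hs, 1, zero_le_one, fun i p hp j hj => ?_⟩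
    obtain rfl : j = 0 := by omega
    simp
  | succ N ih =>
    have h1 := ih (hL.of_le (Nat.le_succ N))
    have h2 := h1.smul hU (hL.of_le (Nat.le_succ N))
    have h3 : BdN N U (fun i p => |g i p|) (fun i => fderiv ℝ (g i)) := by
      refine (h2.mono (B := 1) zero_le_one (fun i p hp => by simp)).congr hU hD
    exact BdN.of_fderiv hs h3 zero_le_one (fun i p _ => abs_nonneg _)
      (fun i p _ => by simp)

/-- the inverse of a positive function bounding its derivatives -/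
theorem BdN.inv (hU : IsOpen U) {f : ι → P → ℝ} (hpos : ∀ i, ∀ p ∈ U, 0 < f i p)
    (hf : BdN N U f f) : BdN N U (fun i p => (f i p)⁻¹) (fun i p => (f i p)⁻¹) := by
  have hs : ∀ i, ContDiffOn ℝ ∞ (fun p => (f i p)⁻¹) U := fun i =>
    (hf.smooth i).inv (fun p hp => (hpos i p hp).ne')
  have hnn : ∀ i, ∀ p ∈ U, 0 ≤ (f i p)⁻¹ := fun i p hp => (inv_pos.mpr (hpos i p hp)).le
  have h0 : ∀ i, ∀ p ∈ U, ‖(f i p)⁻¹‖ ≤ 1 * (f i p)⁻¹ := fun i p hp => by
    rw [one_mul, Real.norm_of_nonneg (hnn i p hp)]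
  induction N with
  | zero =>
    refine ⟨hs, 1, zero_le_one, fun i p hp j hj => ?_⟩
    obtain rfl : j = 0 := by omega
    rw [norm_iteratedFDeriv_zero]
    exact h0 i p hp
  | succ N ih =>
    have h1 := ih (hf.of_le (Nat.le_succ N))
    have h2 := ((h1.mul hU h1).smul hU (hf.D hU)).neg hU
    have h3 : BdN N U (fun i p => (f i p)⁻¹) (fun i => fderiv ℝ (fun p => (f i p)⁻¹)) := by
      refine (h2.mono (B := 1) (w' := fun i p => (f i p)⁻¹) zero_le_one (fun i p hp => ?_)).congr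
        hU (fun i p hp => ?_)
      · have := hpos i p hp
        apply le_of_eq
        field_simp
      · have hd : DifferentiableAt ℝ (f i) p :=
          ((hf.smooth i).contDiffAt (hU.mem_nhds hp)).differentiableAt (by norm_num)
        have h4 : HasFDerivAt (fun p => (f i p)⁻¹) (-(f i p ^ 2)⁻¹ • fderiv ℝ (f i) p) p :=
          (hasDerivAt_inv (hpos i p hp).ne').comp_hasFDerivAt p hd.hasFDerivAt
        rw [h4.fderiv, neg_smul]
        congr 2
        have := hpos i p hp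
        field_simp
    exact BdN.of_fderiv hs h3 zero_le_one hnn h0

/-- quotients: f bounded by w, g positive with derivatives bounded by g -/
theorem BdN.div (hU : IsOpen U) {f g : ι → P → ℝ} (hf : BdN N U w f)
    (hpos : ∀ i, ∀ p ∈ U, 0 < g i p) (hg : BdN N U g g) :
    BdN N U (fun i p => w i p / g i p) (fun i p => f i p / g i p) := by
  have := hf.mul hU (hg.inv hU hpos)
  simpa [div_eq_mul_inv] using this

/-- real powers of a positive function bounding its derivatives -/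
theorem BdN.rpow (hU : IsOpen U) {f : ι → P → ℝ} (hpos : ∀ i, ∀ p ∈ U, 0 < f i p)
    (hf : BdN (N + 1) U f f) (a : ℝ) :
    BdN N U (fun i p => f i p ^ a) (fun i p => f i p ^ a) := by
  have hs : ∀ i, ContDiffOn ℝ ∞ (fun p => f i p ^ a) U := fun i =>
    (hf.smooth i).rpow_const_of_ne (fun p hp => (hpos i p hp).ne')
  have hL : BdN N U (fun _ _ => 1) (fun i p => a • ((f i p)⁻¹ • fderiv ℝ (f i) p)) := by
    have h1 := ((hf.of_le (Nat.le_succ N)).inv hU hpos).smul hU (hf.D hU)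
    have h2 := h1.const_smul hU (fun _ => a) (B := |a|) (fun _ => le_rfl)
    refine h2.mono (B := 1) zero_le_one (fun i p hp => ?_)
    have := hpos i p hp
    apply le_of_eq
    field_simp
  have h3 := BdN.ode hU hs (fun i p hp => ?_) hL
  · refine h3.mono (B := 1) zero_le_one (fun i p hp => ?_)
    rw [one_mul, abs_of_pos (Real.rpow_pos_of_pos (hpos i p hp) a)]
  · have hd : DifferentiableAt ℝ (f i) p :=
      ((hf.smooth i).contDiffAt (hU.mem_nhds hp)).differentiableAt (by norm_num)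
    have h4 := (hd.hasFDerivAt.rpow_const (p := a) (Or.inl (hpos i p hp).ne')).fderiv
    rw [h4, smul_smul, smul_smul]
    congr 1
    rw [Real.rpow_sub_one (hpos i p hp).ne']
    have := hpos i p hp
    field_simp

end BdN

end TG
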