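import Pool.Agent.TG.Defs

/-!
# Trace inequality, general operators: module statements, first batch

Every statement StmtXX is proved as theorem stmtXX : StmtXX in Pool/Agent/TG/XX.lean (namespace TG),
possibly with other Stmt's as hypotheses.  Section numbers refer to PAPER.md.  No double quotes.
Unit scale: s0 = (1/2)^n, so lev s0 n = 1.
-/

open MeasureTheory Metric Set TrI
open scoped InnerProductSpace ContDiff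

namespace TG

noncomputable section

/-! ## Section 1 -/

/-- MODULE TH: the potential -/
def StmtTH : Prop :=
  ∀ (d J : ℕ), 2 ≤ d → ∀ C' : ℝ, 0 < C' → ∃ C : ℝ, 0 < C ∧
    ∀ μ : Measure (Sp d), Gro C' μ →
      (∀ (t : ℝ) (x : Sp d), 0 < t → 0 < th μ t x ∧ th μ t x ≤ C) ∧
      ContDiffOn ℝ ∞ (fun p : ℝ × Sp d => vv μ p.1 p.2) {p | 0 < p.1} ∧
      (∀ (t : ℝ) (x : Sp d) (j : ℕ), 0 < t → j ≤ J →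
        ‖iteratedFDeriv ℝ j (fun p : ℝ × Sp d => vv μ p.1 p.2) (t, x)‖ ≤
          C * vv μ t x / t ^ j) ∧
      (∀ (t : ℝ) (x x' : Sp d), 0 < t → th μ t x' ≤ (1 + ‖x - x'‖ / t) ^ d * th μ t x) ∧
      (∀ (s t : ℝ) (x : Sp d), 0 < t → t / 8 ≤ s → s ≤ 8 * t → th μ s x ≤ C * th μ t x)

/-! ## Section 2 -/

/-- MODULE BK: existence of the base kernel -/
def StmtBK : Prop :=
  ∀ (d J : ℕ), 1 ≤ d → ∃ (M c : ℝ) (b : Sp d → ℝ), BaseKer J M c b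

/-- MODULE GN: identity (**) and inequality (G) at unit scale -/
def StmtGN : Prop :=
  ∀ (d J : ℕ), 2 ≤ d → 2 ≤ J → ∀ M : ℝ, ∃ ε0 : ℝ, 0 < ε0 ∧ ∀ ε : ℝ, 0 < ε → ε ≤ ε0 →
    ∃ c : ℝ, 0 < c ∧ ∀ β : Sp d → ℝ, Kit J M β → ∀ (C' : ℝ) (μ : Measure (Sp d)), 0 < C' →
      Gro C' μ →
      ∀ n : Sp d, ‖n‖ = 1 → ∀ y : Sp d, c * XX β ε μ n 1 y ≤ gn β ε μ n 1 y

/-- the integrand of g_n: minus (D_t² + c² Lap_T) v along the rays through y -/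
def gr {d : ℕ} (β : Sp d → ℝ) (ε : ℝ) (μ : Measure (Sp d)) (n : Sp d) (t : ℝ) (y : Sp d) : ℝ :=
  -∫ z, β z * (iteratedFDeriv ℝ 2 (fun p : ℝ × Sp d => vv μ p.1 p.2) (t, y + (ε * t) • z)
      (fun _ => ((1 : ℝ), (ε * ⟪z, n⟫_ℝ) • n))
    + (1 + (ε * ⟪z, n⟫_ℝ) ^ 2) *
      (lap (vv μ t) (y + (ε * t) • z) - d2 n (vv μ t) (y + (ε * t) • z)))

/-- MODULE GI: the identity (**), integrated in time -/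
def StmtGI : Prop :=
  ∀ (d J : ℕ), 2 ≤ d → 2 ≤ J → ∀ (M ε : ℝ), 0 < ε → ε ≤ 1 → ∀ β : Sp d → ℝ, Kit J M β →
    ∀ (C' : ℝ) (μ : Measure (Sp d)), 0 < C' → Gro C' μ → ∀ n : Sp d, ‖n‖ = 1 → ∀ y : Sp d,
      gn β ε μ n 1 y = ∫ r in (1 / 2 : ℝ)..2, tau 1 r * gr β ε μ n r y

/-- MODULE GP: the inequality (G) at a fixed time -/
def StmtGP : Prop :=
  ∀ (d J : ℕ), 2 ≤ d → 2 ≤ J → ∀ M : ℝ, ∃ ε0 : ℝ, 0 < ε0 ∧ ∀ ε : ℝ, 0 < ε → ε ≤ ε0 →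
    ∃ c : ℝ, 0 < c ∧ ∀ β : Sp d → ℝ, Kit J M β → ∀ (C' : ℝ) (μ : Measure (Sp d)), 0 < C' →
      Gro C' μ → ∀ n : Sp d, ‖n‖ = 1 → ∀ (t : ℝ) (y : Sp d), 1 / 2 ≤ t → t ≤ 2 →
        c * (X1 β ε μ n t y + X2 μ n t y + X3 β ε μ n t y) ≤ gr β ε μ n t y

/-- disc average of radius ρ in the plane through y orthogonal to n -/
def discR {d : ℕ} (n : Sp d) (ρ : ℝ) (F : Sp d → ℝ) (y : Sp d) : ℝ :=
  ∫ y' in closedBall (0 : (Submodule.span ℝ {n})ᗮ) ρ, F (y + (y' : Sp d))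

/-- moments of the height over the plane {⟨n,x⟩ = c}, see (10.4) -/
def Mo {d : ℕ} (μ : Measure (Sp d)) (n : Sp d) (c : ℝ) (j : ℕ) (t : ℝ) (y : Sp d) : ℝ :=
  (∫ η, (⟪η, n⟫_ℝ - c) ^ j / (t ^ 2 + ‖y - η‖ ^ 2) ^ 2 * kk t (y - η) ∂μ) / vv μ t y

/-- X1 + X3, averaged in time -/
def X13 {d : ℕ} (β : Sp d → ℝ) (ε : ℝ) (μ : Measure (Sp d)) (n : Sp d) (t : ℝ) (y : Sp d) : ℝ :=
  tav (X1 β ε μ n) t y + tav (X3 β ε μ n) t y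

/-- MODULE WA: smoothness and simple bounds of W, G and the gain functionals, unit scale -/
def StmtWA : Prop :=
  ∀ (d J : ℕ), 2 ≤ d → ∀ (M C' ε : ℝ), 0 < C' → 0 < ε → ε ≤ 1 → ∃ C : ℝ, 0 < C ∧
    ∀ β : Sp d → ℝ, Kit (J + 4) M β → ∀ μ : Measure (Sp d), Gro C' μ →
      ContDiff ℝ ∞ (WW β ε μ 1) ∧ ContDiff ℝ ∞ (GG β ε μ 1) ∧
      (∀ j ≤ J, ∀ y, ‖iteratedFDeriv ℝ j (WW β ε μ 1) y‖ ≤ C * vv μ 1 y) ∧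
      (∀ j ≤ J, ∀ y, ‖iteratedFDeriv ℝ j (GG β ε μ 1) y‖ ≤ C * vv μ 1 y) ∧
      ∀ n : Sp d, ‖n‖ = 1 →
        ContDiff ℝ J (XX β ε μ n 1) ∧ (∀ y, 0 ≤ XX β ε μ n 1 y) ∧
        (∀ j ≤ J, ∀ y, ‖iteratedFDeriv ℝ j (XX β ε μ n 1) y‖ ≤ C * vv μ 1 y) ∧
        ContDiff ℝ J (X13 β ε μ n 1) ∧ (∀ y, 0 ≤ X13 β ε μ n 1 y) ∧
        (∀ j ≤ J, ∀ y, ‖iteratedFDeriv ℝ j (X13 β ε μ n 1) y‖ ≤ C * vv μ 1 y)

/-- MODULE WB: the sharp derivative bounds (2.2), unit scale -/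
def StmtWB : Prop :=
  ∀ (d J : ℕ), 2 ≤ d → ∀ (M C' ε : ℝ), 0 < C' → 0 < ε → ε ≤ 1 → ∃ C : ℝ, 0 < C ∧
    ∀ β : Sp d → ℝ, Kit (J + 4) M β → ∀ μ : Measure (Sp d), Gro C' μ →
      ∀ n : Sp d, ‖n‖ = 1 →
        (∀ j ≤ J, ∀ y, ‖iteratedFDeriv ℝ j (fun x => tang n (gradient (WW β ε μ 1) x)) y‖ ^ 2 ≤
          C * vv μ 1 y * discR n (2 * ε) (X13 β ε μ n 1) y) ∧
        (∀ j ≤ J, ∀ (h : Fin j → Sp d), (∀ i, ⟪n, h i⟫_ℝ = 0) → (∀ i, ‖h i‖ ≤ 1) → ∀ y,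
          (iteratedFDeriv ℝ j (fun x => ⟪gradient (WW β ε μ 1) x, n⟫_ℝ) y h) ^ 2 ≤
          C * vv μ 1 y * tav (X2 μ n) 1 y) ∧
        (∀ j ≤ J, ∀ (h : Fin j → Sp d), (∀ i, ⟪n, h i⟫_ℝ = 0) → (∀ i, ‖h i‖ ≤ 1) → ∀ y,
          (iteratedFDeriv ℝ j (X13 β ε μ n 1) y h) ^ 2 ≤
            C * vv μ 1 y * discR n (2 * ε) (X13 β ε μ n 1) y ∧
          (iteratedFDeriv ℝ j (fun x => fderiv ℝ (X13 β ε μ n 1) x n) y h) ^ 2 ≤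
            C * vv μ 1 y * discR n (2 * ε) (X13 β ε μ n 1) y) ∧
        (∀ y, -C * Real.sqrt (vv μ 1 y * discR n (2 * ε) (X13 β ε μ n 1) y) ≤
          d2 n (X13 β ε μ n 1) y)

/-- MODULE MO: the bilinear form of X2, unit scale -/
def StmtMO : Prop :=
  ∀ (d J : ℕ), 2 ≤ d → ∀ (C' : ℝ), 0 < C' → ∃ C : ℝ, 0 < C ∧
    ∀ μ : Measure (Sp d), Gro C' μ → ∀ n : Sp d, ‖n‖ = 1 → ∀ c : ℝ,
      (∀ y, tav (X2 μ n) 1 y = tav (Mo μ n c 2) 1 y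
        - 2 * (⟪y, n⟫_ℝ - c) * tav (Mo μ n c 1) 1 y
        + (⟪y, n⟫_ℝ - c) ^ 2 * tav (Mo μ n c 0) 1 y) ∧
      (∀ i, ContDiff ℝ ∞ (fun y => tav (Mo μ n c i) 1 y)) ∧
      (∀ j ≤ J, ∀ y, ‖iteratedFDeriv ℝ j (fun y => tav (Mo μ n c 2) 1 y) y‖ ≤
        C * tav (Mo μ n c 2) 1 y) ∧
      (∀ j ≤ J, ∀ y, ‖iteratedFDeriv ℝ j (fun y => tav (Mo μ n c 0) 1 y) y‖ ≤
        C * tav (Mo μ n c 0) 1 y) ∧
      (∀ j ≤ J, ∀ y, ‖iteratedFDeriv ℝ j (fun y => tav (Mo μ n c 1) 1 y) y‖ ^ 2 ≤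
        C * tav (Mo μ n c 0) 1 y * tav (Mo μ n c 2) 1 y) ∧
      (∀ y, tav (Mo μ n c 0) 1 y ≤ C * vv μ 1 y) ∧
      (∀ y y', tav (Mo μ n c 2) 1 y' ≤ C * (1 + ‖y - y'‖) ^ (2 * d + 4) * tav (Mo μ n c 2) 1 y) ∧
      (∀ y y', tav (Mo μ n c 0) 1 y' ≤ C * (1 + ‖y - y'‖) ^ (2 * d + 4) * tav (Mo μ n c 0) 1 y)

/-- MODULE SC: scaling -/
def StmtSC : Prop :=
  ∀ (d : ℕ), 2 ≤ d → ∀ (C' : ℝ), 0 < C' → ∀ (x : Sp d) (t : ℝ), 0 < t →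
    (∀ μ : Measure (Sp d), Gro C' μ →
      Gro C' (rsm x t μ) ∧
      (∀ r y, 0 < r → th (rsm x t μ) r y = th μ (t * r) (x + t • y)) ∧
      (∀ r y, 0 < r → vv (rsm x t μ) r y = vv μ (t * r) (x + t • y)) ∧
      (∀ (S : Set (Sp d)), MeasurableSet S →
        rsm x t μ S = ENNReal.ofReal (t / t ^ d) * μ ((fun y => x + t • y) '' S)) ∧
      ∀ (J : ℕ) (M : ℝ) (β : Sp d → ℝ), Kit J M β → 2 ≤ J → ∀ ε : ℝ, 0 < ε → ε ≤ 1 →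
        ∀ (r : ℝ) (y : Sp d), 0 < r →
          GG β ε (rsm x t μ) r y = GG β ε μ (t * r) (x + t • y) ∧
          t ^ 2 * WW β ε (rsm x t μ) r y = WW β ε μ (t * r) (x + t • y) ∧
          (∀ n : Sp d, XX β ε (rsm x t μ) n r y = XX β ε μ n (t * r) (x + t • y)) ∧
          (∀ n : Sp d, X13 β ε (rsm x t μ) n r y = X13 β ε μ n (t * r) (x + t • y)) ∧
          (∀ n : Sp d, gn β ε (rsm x t μ) n r y = gn β ε μ n (t * r) (x + t • y))) ∧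
    (∀ (E : Type) [NormedAddCommGroup E] [InnerProductSpace ℝ E] [FiniteDimensional ℝ E]
      (M c : ℝ) (b : Sp d → ℝ), BaseKer 2 M c b → ∀ ε : ℝ, 0 < ε → ε ≤ 1 →
      ∀ f : Sp d → E, Continuous f → HasCompactSupport f → ∀ s0 : ℝ, 0 < s0 →
        (∀ i y, fl b ε (s0 / t) (rs x t f) i y = t • fl b ε s0 f i (x + t • y)) ∧
        (∀ R i y e, DD b ε R (s0 / t) (rs x t f) i y e = DD b ε R s0 f i (x + t • y) e) ∧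
        (∀ R i y, ma b ε R (s0 / t) (rs x t f) i y = ma b ε R s0 f i (x + t • y))) ∧
    (∀ (V E : Type) [NormedAddCommGroup V] [InnerProductSpace ℝ V] [FiniteDimensional ℝ V]
      [NormedAddCommGroup E] [InnerProductSpace ℝ E] [FiniteDimensional ℝ E]
      (L : (Sp d →L[ℝ] V) →L[ℝ] E) (u : Sp d → V), TF u →
      TF (fun y => u (x + t • y)) ∧ fo L (fun y => u (x + t • y)) = rs x t (fo L u))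

/-! ## Sections 3 and 5 -/

/-- the function g_k of (3.1) -/
def gk {d : ℕ} (b : Sp d → ℝ) (ε : ℝ) (μ : Measure (Sp d)) (s0 : ℝ) (i : ℕ) (y : Sp d) : ℝ :=
  avk b (ε * lev s0 i) (fun x => vv μ (lev s0 i) x
    - 1 / 3 * avk b (ε * lev s0 (i + 1)) (vv μ (lev s0 (i + 1))) x) y
  - 2 / 3 * vv μ (lev s0 (i - 1)) y

/-- MODULE PO: potential inequality (3.1) -/
def StmtPO : Prop :=
  ∀ (d : ℕ), 2 ≤ d → ∀ (M c C' ε : ℝ), 0 < C' → 0 < ε → ε ≤ 1 / 4 →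
    ∀ (b : Sp d → ℝ), BaseKer 4 M c b → ∃ C : ℝ, 0 < C ∧
    ∀ (μ : Measure (Sp d)), Gro C' μ → ∀ s0 : ℝ, 0 < s0 →
      (∀ i y, 1 ≤ i → |gk b ε μ s0 i y| ≤ C * vv μ (lev s0 i) y) ∧
      (∀ i y, 2 ≤ i → |avk (KN b (i - 2)) (ε * lev s0 (i - 1)) (gk b ε μ s0 i) y
        - GG (KN b (i - 2)) ε μ (lev s0 i) y| ≤ C * (1 / 4) ^ i * vv μ (lev s0 i) y) ∧
      ∀ (E : Type) [NormedAddCommGroup E] [InnerProductSpace ℝ E] [FiniteDimensional ℝ E]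
        (f : Sp d → E), Continuous f → HasCompactSupport f → ∀ I : ℕ,
        ∑ i ∈ Finset.Ico 2 I, ∫ y, ‖fl b ε s0 f (i - 1) y‖ * gk b ε μ s0 i y ≤
          C * ∫ y, ‖f y‖

/-- MODULE PT: potential inequality (3.1) and reduction to cells (5.1) -/
def StmtPT : Prop :=
  ∀ (d : ℕ), 2 ≤ d → ∀ (M c C' ε R : ℝ), 0 < C' → 0 < ε → ε ≤ 1 / 4 → (d : ℝ) + 4 ≤ R →
    ∀ (b : Sp d → ℝ), BaseKer 4 M c b → ∃ C : ℝ, 0 < C ∧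
    ∀ (E : Type) [NormedAddCommGroup E] [InnerProductSpace ℝ E] [FiniteDimensional ℝ E]
      (μ : Measure (Sp d)), Gro C' μ →
    ∀ f : Sp d → E, Continuous f → HasCompactSupport f → ∀ s0 : ℝ, 0 < s0 →
    ∀ e : ℕ → (Fin d → ℤ) → E, (∀ i p, ‖e i p‖ = 1) → ∀ I : ℕ,
      ∑ i ∈ Finset.Ico 2 I, ∑' p : Fin d → ℤ,
        ∫ y, chiQ (cen s0 i p) (lev s0 i) y * ⟪f y, e i p⟫_ℝ *
          GG (KN b (i - 2)) ε μ (lev s0 i) y ≤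
      C * ((∫ y, ‖f y‖) + ∑ i ∈ Finset.Ico 2 I, ∑' p : Fin d → ℤ,
        lev s0 i ^ (d - 1) * DD b ε R s0 f i (cen s0 i p) (e i p))

/-! ## Section 4 -/

/-- MODULE PK: packing (4.1) -/
def StmtPK : Prop :=
  ∀ (d : ℕ), 1 ≤ d → ∀ (M c ε R : ℝ), 0 < ε → ε ≤ 1 → 1 ≤ R →
    ∀ (b : Sp d → ℝ), BaseKer 2 M c b → ∃ C : ℝ, 0 < C ∧
    ∀ (E : Type) [NormedAddCommGroup E] [InnerProductSpace ℝ E] [FiniteDimensional ℝ E]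
      [Nontrivial E],
    ∀ f : Sp d → E, Continuous f → HasCompactSupport f → ∀ s0 : ℝ, 0 < s0 →
    ∃ e : ℕ → (Fin d → ℤ) → E, (∀ i p, ‖e i p‖ = 1) ∧ ∀ I : ℕ,
      ∑ i ∈ Finset.range I, ∑' p : Fin d → ℤ,
        lev s0 i ^ (d - 1) * DD b ε R s0 f i (cen s0 i p) (e i p) ≤ C * ∫ y, ‖f y‖

/-- MODULE ZZ: Lemma Z (4.4) -/
def StmtZ : Prop :=
  ∀ (d : ℕ), 1 ≤ d → ∀ (M c ε : ℝ), 0 < ε → ε ≤ 1 →
    ∀ (b : Sp d → ℝ), BaseKer 2 M c b → ∃ C : ℝ, 0 < C ∧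
    ∀ (E : Type) [NormedAddCommGroup E] [InnerProductSpace ℝ E] [FiniteDimensional ℝ E],
    ∀ f : Sp d → E, Continuous f → HasCompactSupport f → ∀ (R : ℝ), 3 ≤ R → ∀ (n : ℕ) (e : E),
    ‖e‖ = 1 → ∀ (x : Sp d) (H : Sp d → ℝ), ContDiff ℝ 2 H → (∀ y, 0 ≤ H y) → (∀ y, H y ≤ 1) →
      (∀ y, ‖iteratedFDeriv ℝ 2 H y‖ ≤ 1) → (∀ y, R - 2 ≤ ‖y - x‖ → H y = 0) →
      -C * DD b ε R ((1 / 2) ^ n) f n x e ≤ ∫ y, ⟪f y, e⟫_ℝ * H y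

/-- MODULE DI: change of direction (4.3) -/
def StmtDI : Prop :=
  ∀ (d : ℕ), 1 ≤ d → ∀ (M c ε : ℝ), 0 < ε → ε ≤ 1 →
    ∀ (b : Sp d → ℝ), BaseKer 2 M c b → ∃ C : ℝ, 0 < C ∧
    ∀ (E : Type) [NormedAddCommGroup E] [InnerProductSpace ℝ E] [FiniteDimensional ℝ E],
    ∀ f : Sp d → E, Continuous f → HasCompactSupport f → ∀ (R : ℝ), 3 ≤ R → ∀ (n : ℕ) (e e' : E),
    ‖e‖ = 1 → ‖e'‖ = 1 → ∀ (x x' : Sp d) (Y : Sp d → ℝ), ContDiff ℝ 2 Y → (∀ y, |Y y| ≤ 1) →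
      (∀ y, ‖iteratedFDeriv ℝ 2 Y y‖ ≤ 1) → (∀ y, R - 1 ≤ ‖y - x‖ → Y y = 0) →
      (∀ y, R - 1 ≤ ‖y - x'‖ → Y y = 0) →
      |∫ y, ⟪f y, e - e'⟫_ℝ * Y y| ≤
        C * (DD b ε R ((1 / 2) ^ n) f n x e + DD b ε R ((1 / 2) ^ n) f n x' e')

/-- MODULE PE: perpendicular part (4.5) -/
def StmtPE : Prop :=
  ∀ (d : ℕ), 1 ≤ d → ∀ (M c ε : ℝ), 0 < ε → ε ≤ 1 →
    ∀ (b : Sp d → ℝ), BaseKer 2 M c b → ∃ C : ℝ, 0 < C ∧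
    ∀ (E : Type) [NormedAddCommGroup E] [InnerProductSpace ℝ E] [FiniteDimensional ℝ E],
    ∀ f : Sp d → E, Continuous f → HasCompactSupport f → ∀ (R : ℝ), 3 ≤ R → ∀ (n : ℕ) (e : E),
    ‖e‖ = 1 → ∀ (x : Sp d) (Y : Sp d → E) (S : Set (Sp d)), MeasurableSet S → ContDiff ℝ 2 Y →
      (∀ y, ‖Y y‖ ≤ 1) → (∀ y, ‖iteratedFDeriv ℝ 2 Y y‖ ≤ 1) →
      (∀ y, R - 2 ≤ ‖y - x‖ → Y y = 0) → (∀ y z, Y y ≠ 0 → ‖z - y‖ ≤ 1 → z ∈ S) →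
      |∫ y, ⟪f y - ⟪f y, e⟫_ℝ • e, Y y⟫_ℝ| ≤
        C * (Real.sqrt ((∫ y in S, ‖fl b ε ((1 / 2) ^ n) f (n - 1) y‖) *
            DD b ε R ((1 / 2) ^ n) f n x e) + DD b ε R ((1 / 2) ^ n) f n x e)

/-- MODULE MA: mass against test functions (4.6) -/
def StmtMA : Prop :=
  ∀ (d : ℕ), 1 ≤ d → ∀ (M c ε : ℝ), 0 < ε → ε ≤ 1 →
    ∀ (b : Sp d → ℝ), BaseKer 2 M c b → ∃ C : ℝ, 0 < C ∧
    ∀ (E : Type) [NormedAddCommGroup E] [InnerProductSpace ℝ E] [FiniteDimensional ℝ E],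
    ∀ f : Sp d → E, Continuous f → HasCompactSupport f → ∀ (R : ℝ), 5 ≤ R → ∀ (n : ℕ) (e : E),
    ‖e‖ = 1 → ∀ (x : Sp d) (S : Set (Sp d)), MeasurableSet S →
      (∀ (ζ : Sp d → ℝ), ContDiff ℝ 2 ζ → (∀ y, |ζ y| ≤ 1) →
        (∀ y, ‖iteratedFDeriv ℝ 2 ζ y‖ ≤ 1) → (∀ y, R - 2 ≤ ‖y - x‖ → ζ y = 0) →
        (∀ y z, ζ y ≠ 0 → ‖z - y‖ ≤ 1 → z ∈ S) →
        |∫ y, ⟪f y, e⟫_ℝ * ζ y| ≤ C * ((∫ y in S, ‖fl b ε ((1 / 2) ^ n) f (n - 1) y‖) +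
            DD b ε R ((1 / 2) ^ n) f n x e)) ∧
      (∀ (H : Sp d → ℝ) (h0 : ℝ), 0 < h0 → h0 ≤ 1 → ContDiff ℝ 2 H → (∀ y, 0 ≤ H y) →
        (∀ y, H y ≤ 1) → (∀ y, ‖iteratedFDeriv ℝ 2 H y‖ ≤ 1) →
        (∀ y, R - 2 ≤ ‖y - x‖ → H y = 0) → (∀ y z, y ∈ S → ‖z - y‖ ≤ 2 → h0 ≤ H z) →
        (∫ y in S, ‖fl b ε ((1 / 2) ^ n) f (n - 1) y‖) ≤
          1 / h0 * (∫ y, ⟪f y, e⟫_ℝ * H y) + C / h0 * DD b ε R ((1 / 2) ^ n) f n x e)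

/-! ## Section 7 -/

section Op

/-- MODULE TP: averaged Taylor polynomials, Lemma 7.1 -/
def StmtTP : Prop :=
  ∀ (d : ℕ) (V E : Type) [NormedAddCommGroup V] [InnerProductSpace ℝ V] [FiniteDimensional ℝ V]
    [NormedAddCommGroup E] [InnerProductSpace ℝ E] [FiniteDimensional ℝ E]
    (L : (Sp d →L[ℝ] V) →L[ℝ] E) (n : ℕ)
    (T : (ContinuousMultilinearMap ℝ (fun _ : Fin n => Sp d) E) →L[ℝ]
      (ContinuousMultilinearMap ℝ (fun _ : Fin (n + 1) => Sp d) V)), 1 ≤ d → 1 ≤ n →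
    NSProp L n T → ∀ (J : ℕ) (r0 R : ℝ), 0 < r0 → r0 ≤ R → ∃ C : ℝ, 0 < C ∧
      ∀ (c : Sp d) (r : ℝ), ‖c‖ ≤ R → r0 ≤ r → r ≤ R →
      ∀ (g : Sp d → V) (N : ℝ), TFn (J + n + 1) N g → (∀ y, R ≤ ‖y‖ → g y = 0) →
      ∃ Φ : Sp d → E, TFn J (C * N) Φ ∧
        (∀ y, Φ y ≠ 0 → y ∈ convexHull ℝ (tsupport g ∪ closedBall c r)) ∧
        ∀ u : Sp d → V, ContDiff ℝ ∞ u →
          ∫ x, ⟪u x - ATP n c r u x, g x⟫_ℝ = ∫ x, ⟪fo L u x, Φ x⟫_ℝ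

/-- MODULE TQ: the averaged Taylor polynomial is a polynomial of degree at most n, reproduces such
polynomials and converges to u(x) for small balls around x -/
def StmtTQ : Prop :=
  ∀ (d : ℕ) (V : Type) [NormedAddCommGroup V] [InnerProductSpace ℝ V] [FiniteDimensional ℝ V]
    (n : ℕ) (u : Sp d → V), 1 ≤ d → ContDiff ℝ ∞ u → ∀ (c : Sp d) (r : ℝ), 0 < r →
      ContDiff ℝ ∞ (ATP n c r u) ∧ (∀ x, iteratedFDeriv ℝ (n + 1) (ATP n c r u) x = 0) ∧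
      ((∀ x, iteratedFDeriv ℝ (n + 1) u x = 0) → ATP n c r u = u)

end Op

/-! ## Section 9, algebra -/

/-- the operator |∇|² - ∂_ν² -/
def opNu {d : ℕ} (ν : Sp d) (ζ : Sp d → ℝ) : Sp d → ℝ := fun x => lap ζ x - d2 ν ζ x

/-- composition of all second order operators of the list -/
def allOp {d r q : ℕ} (ν : Fin r → Sp d) (S : Fin q → (Sp d →L[ℝ] Sp d)) (ζ : Sp d → ℝ) :
    Sp d → ℝ :=
  (List.ofFn ν).foldr (fun v g => opNu v g) ((List.ofFn S).foldr (fun s g => qD s g) ζ)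

/-- MODULE AL: (9.1) - (9.3) -/
def StmtAL : Prop :=
  ∀ (d : ℕ) (V E : Type) [NormedAddCommGroup V] [InnerProductSpace ℝ V] [FiniteDimensional ℝ V]
    [NormedAddCommGroup E] [InnerProductSpace ℝ E] [FiniteDimensional ℝ E]
    (L : (Sp d →L[ℝ] V) →L[ℝ] E), 2 ≤ d → CEll L → ∀ e0 : E, e0 ≠ 0 →
    ∃ (r q Mx m : ℕ) (ν : Fin r → Sp d) (S : Fin q → (Sp d →L[ℝ] Sp d))
      (TY : (ContinuousMultilinearMap ℝ (fun _ : Fin m => Sp d) ℝ) →L[ℝ] E),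
      1 ≤ q ∧ 1 ≤ Mx ∧ (∀ i, ‖ν i‖ = 1) ∧ (∀ i j, i ≠ j → ν i ≠ ν j ∧ ν i ≠ - ν j) ∧
      (∀ k, Function.Bijective (S k)) ∧
      (∀ ζ : Sp d → ℝ, ContDiff ℝ ∞ ζ → ∀ x,
        ⟪e0, TY (iteratedFDeriv ℝ m ζ x)⟫_ℝ = (allOp ν S)^[Mx] ζ x) ∧
      (∀ (u : Sp d → V) (ζ : Sp d → ℝ), ContDiff ℝ ∞ u → ContDiff ℝ ∞ ζ → HasCompactSupport ζ →
        ∫ x, ⟪fo L u x, TY (iteratedFDeriv ℝ m ζ x)⟫_ℝ = 0)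

/-! ## Section 9, analysis -/

/-- MODULE ST: structure theorem (B2'), unit scale -/
def StmtST : Prop :=
  ∀ (d : ℕ) (V E : Type) [NormedAddCommGroup V] [InnerProductSpace ℝ V] [FiniteDimensional ℝ V]
    [NormedAddCommGroup E] [InnerProductSpace ℝ E] [FiniteDimensional ℝ E]
    (L : (Sp d →L[ℝ] V) →L[ℝ] E), 2 ≤ d → CEll L →
    ∀ (M c ε : ℝ), 0 < ε → ε ≤ 1 → ∀ (b : Sp d → ℝ), BaseKer 2 M c b →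
    ∀ (γ K Rs ε' : ℝ), 0 < γ → γ ≤ 1 / (8 * d) → 0 < K → 1 ≤ Rs → 0 < ε' →
    ∃ (J : ℕ) (R1 δ : ℝ), Rs + 3 ≤ R1 ∧ 0 < δ ∧
      ∀ (n : ℕ) (u : Sp d → V), TF u → ∀ (e : E), ‖e‖ = 1 → ∀ a : ℝ, 0 ≤ a →
        (∀ ρ : ℝ, 1 ≤ ρ → ρ ≤ R1 →
          (∫ y in ball (0 : Sp d) ρ, ‖fl b ε ((1 / 2) ^ n) (fo L u) (n - 1) y‖) ≤
            K * ρ ^ ((d : ℝ) - 1 + γ) * a) →
        DD b ε R1 ((1 / 2) ^ n) (fo L u) n 0 e ≤ δ * a →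
        ∃ (r : ℕ) (ν : Fin r → Sp d) (κ : Fin r → Sp d → ℝ),
          (∀ i, ‖ν i‖ = 1) ∧ (∀ i y, 0 ≤ κ i y) ∧ (∀ i, TFn 2 1 (κ i)) ∧
          (∀ i y, κ i y ≠ 0 → ‖tang (ν i) y‖ ≤ R1 - Rs - 3) ∧
          (∀ i y, κ i y = κ i (tang (ν i) y)) ∧
          ∀ (ζ : Sp d → ℝ) (N : ℝ), TFn J N ζ → (∀ y, Rs ≤ ‖y‖ → ζ y = 0) →
            |(∫ y, ⟪fo L u y, e⟫_ℝ * ζ y)
              - ∑ i, ∫ y, ⟪fo L u y, e⟫_ℝ * (κ i y * plInt (ν i) ⟪ν i, y⟫_ℝ ζ)| ≤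
              ε' * a * N

end

end TG
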