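import Pool.Agent.TG.Bd
import Pool.Agent.TG.Stmts1

/-!
# Averages of families with bounded derivatives, half space ℝ × Sp d
-/

open MeasureTheory Metric Set Filter Topology TrI
open scoped InnerProductSpace ContDiff

set_option linter.unusedSectionVars false

namespace TG

noncomputable section

variable {ι E : Type*} [NormedAddCommGroup E] [NormedSpace ℝ E] [CompleteSpace E] {d : ℕ}

/-- the slab a < t < b -/
def slab (d : ℕ) (a b : ℝ) : Set (ℝ × Sp d) := {p | a < p.1 ∧ p.1 < b}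

theorem isOpen_slab (a b : ℝ) : IsOpen (slab d a b) := by
  have h1 : IsOpen {p : ℝ × Sp d | a < p.1} := isOpen_lt continuous_const continuous_fst
  have h2 : IsOpen {p : ℝ × Sp d | p.1 < b} := isOpen_lt continuous_fst continuous_const
  exact h1.inter h2

/-- the map (t,x) ↦ (t, x + ε t z) -/
def shear (ε : ℝ) (z : Sp d) : (ℝ × Sp d) →L[ℝ] (ℝ × Sp d) :=
  (ContinuousLinearMap.fst ℝ ℝ (Sp d)).prod
    (ContinuousLinearMap.snd ℝ ℝ (Sp d) +
      (ContinuousLinearMap.fst ℝ ℝ (Sp d)).smulRight (ε • z))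

theorem shear_apply (ε : ℝ) (z : Sp d) (p : ℝ × Sp d) :
    shear ε z p = (p.1, p.2 + (ε * p.1) • z) := by
  simp [shear, smul_smul, mul_comm]

theorem shear_norm (ε : ℝ) {z : Sp d} (hz : ‖z‖ ≤ 1) : ‖shear ε z‖ ≤ 1 + |ε| := by
  refine ContinuousLinearMap.opNorm_le_bound _ (by positivity) fun p => ?_
  rw [shear_apply, Prod.norm_def]
  have h1 : ‖p.1‖ ≤ ‖p‖ := norm_fst_le p
  have h2 : ‖p.2‖ ≤ ‖p‖ := norm_snd_le p
  have h3 : |ε| * ‖p.1‖ * ‖z‖ ≤ |ε| * ‖p‖ * 1 := by gcongr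
  refine max_le ?_ ?_
  · simp only
    nlinarith [abs_nonneg ε, norm_nonneg p]
  · simp only
    calc ‖p.2 + (ε * p.1) • z‖ ≤ ‖p.2‖ + ‖(ε * p.1) • z‖ := norm_add_le _ _
      _ = ‖p.2‖ + |ε| * ‖p.1‖ * ‖z‖ := by rw [norm_smul, norm_mul, Real.norm_eq_abs]
      _ ≤ _ := by linarith

/-- iterated derivatives of a composition with a linear map, open set -/
theorem iter_comp_clm {P Q : Type*} [NormedAddCommGroup P] [NormedSpace ℝ P]
    [NormedAddCommGroup Q] [NormedSpace ℝ Q] {U : Set Q} (hU : IsOpen U) {f : Q → E}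
    (hf : ContDiffOn ℝ ∞ f U) (L : P →L[ℝ] Q) (j : ℕ) {p : P} (hp : L p ∈ U) :
    ‖iteratedFDeriv ℝ j (fun q => f (L q)) p‖ ≤ ‖iteratedFDeriv ℝ j f (L p)‖ * ‖L‖ ^ j := by
  have hV : IsOpen (L ⁻¹' U) := hU.preimage L.continuous
  have h5 := L.iteratedFDerivWithin_comp_right hf
      hU.uniqueDiffOn hV.uniqueDiffOn hp (i := j) (by exact_mod_cast le_top)
  rw [iteratedFDerivWithin_of_isOpen j hU hp, iteratedFDerivWithin_of_isOpen j hV hp] at h5
  have h6 : iteratedFDeriv ℝ j (fun q => f (L q)) p =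
      (iteratedFDeriv ℝ j f (L p)).compContinuousLinearMap fun _ => L := h5
  rw [h6]
  refine (ContinuousMultilinearMap.norm_compContinuousLinearMap_le _ _).trans ?_
  simp

/-- averages along rays -/
theorem BdN.avg {N : ℕ} {a b : ℝ} {w : ι → ℝ × Sp d → ℝ} {f : ι → ℝ × Sp d → E}
    (hf : BdN N (slab d a b) w f) (ε : ℝ) {K : ι → Sp d → ℝ} (hK : ∀ i, Integrable (K i))
    (hK0 : ∀ i z, 1 < ‖z‖ → K i z = 0) {B : ℝ} (hKB : ∀ i, ∫ z, |K i z| ≤ B)
    {H : ℝ} (hH0 : 0 ≤ H)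
    (hH : ∀ i, ∀ p ∈ slab d a b, ∀ z, ‖z‖ ≤ 1 → w i (p.1, p.2 + (ε * p.1) • z) ≤ H * w i p) :
    BdN N (slab d a b) w (fun i p => ∫ z, K i z • f i (p.1, p.2 + (ε * p.1) • z)) := by
  obtain ⟨C, hC, h1⟩ := hf.bd
  have hG : ∀ i, ContDiffOn ℝ ∞ (fun q : (ℝ × Sp d) × Sp d => f i (q.1.1, q.1.2 + (ε * q.1.1) • q.2))
      (slab d a b ×ˢ univ) := by
    intro i
    refine (hf.smooth i).comp (f := fun q : (ℝ × Sp d) × Sp d =>
      (q.1.1, q.1.2 + (ε * q.1.1) • q.2)) (ContDiff.contDiffOn (by fun_prop)) ?_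
    rintro ⟨p, z⟩ ⟨hp, _⟩
    exact hp
  have hP := fun i => pintC (ν := volume) (U := slab d a b) (W := slab d a b ×ˢ univ)
    (k := closedBall (0 : Sp d) 1) (isOpen_slab a b) ((isOpen_slab a b).prod isOpen_univ)
    (isCompact_closedBall _ _) (fun p hp z _ => ⟨hp, mem_univ _⟩) (hK i)
    (fun z hz => hK0 i z (by simpa using hz)) (hG i)
  refine ⟨fun i => (hP i).1, max B 0 * (C * H * (1 + |ε|) ^ N), by positivity,
    fun i p hp j hj => ?_⟩
  have hw0 : 0 ≤ C * w i p := (norm_nonneg _).trans (h1 i p hp 0 (Nat.zero_le _))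
  have h2 := (hP i).2.2.2 j p hp (C * H * (1 + |ε|) ^ N * w i p) ?_
  · refine h2.trans ?_
    calc _ ≤ max B 0 * (C * H * (1 + |ε|) ^ N * w i p) := by
          refine mul_le_mul_of_nonneg_right ((hKB i).trans (le_max_left _ _)) ?_
          have : C * H * (1 + |ε|) ^ N * w i p = H * (1 + |ε|) ^ N * (C * w i p) := by ring
          rw [this]
          positivity
      _ = _ := by ring
  · intro z hz
    have hz1 : ‖z‖ ≤ 1 := by simpa using hz
    have hp' : shear ε z p ∈ slab d a b := by rw [shear_apply]; exact hp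
    have h3 := iter_comp_clm (isOpen_slab a b) (hf.smooth i) (shear ε z) j hp'
    have h4 : (fun q => f i (shear ε z q)) = fun q : ℝ × Sp d => f i (q.1, q.2 + (ε * q.1) • z) := by
      funext q
      rw [shear_apply]
    rw [h4] at h3
    refine h3.trans ?_
    have h5 := h1 i _ hp' j hj
    have h6 : w i (shear ε z p) ≤ H * w i p := by rw [shear_apply]; exact hH i p hp z hz1
    have h7 : ‖shear ε z‖ ^ j ≤ (1 + |ε|) ^ N :=
      (pow_le_pow_left₀ (norm_nonneg _) (shear_norm ε hz1) j).trans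
        (pow_le_pow_right₀ (by linarith [abs_nonneg ε]) hj)
    calc _ ≤ (C * (H * w i p)) * (1 + |ε|) ^ N := by
          refine mul_le_mul (h5.trans (mul_le_mul_of_nonneg_left h6 hC)) h7 (by positivity) ?_
          have : C * (H * w i p) = H * (C * w i p) := by ring
          rw [this]
          positivity
      _ = _ := by ring

/-- derivatives of the restriction to a fixed time -/
theorem slice_norm {a b : ℝ} {f : ℝ × Sp d → E} (hf : ContDiffOn ℝ ∞ f (slab d a b)) {t : ℝ}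
    (ht : a < t ∧ t < b) (y : Sp d) (j : ℕ) :
    ‖iteratedFDeriv ℝ j (fun y => f (t, y)) y‖ ≤ ‖iteratedFDeriv ℝ j f (t, y)‖ := by
  have h2 : (fun y => f (t, y)) = fun y => (fun q => f (q + (t, (0 : Sp d))))
      (ContinuousLinearMap.inr ℝ ℝ (Sp d) y) := by
    funext y
    simp
  have hV : IsOpen ((fun q : ℝ × Sp d => q + (t, (0 : Sp d))) ⁻¹' slab d a b) :=
    (isOpen_slab a b).preimage (by fun_prop)
  have hs : ContDiffOn ℝ ∞ (fun q => f (q + (t, (0 : Sp d))))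
      ((fun q : ℝ × Sp d => q + (t, (0 : Sp d))) ⁻¹' slab d a b) :=
    hf.comp (f := fun q : ℝ × Sp d => q + (t, (0 : Sp d)))
      (ContDiff.contDiffOn (by fun_prop)) (fun q hq => hq)
  rw [h2]
  refine (iter_comp_clm hV hs (ContinuousLinearMap.inr ℝ ℝ (Sp d)) j ?_).trans ?_
  · simpa [slab] using ht
  · rw [iteratedFDeriv_comp_add_right]
    have h3 : ‖ContinuousLinearMap.inr ℝ ℝ (Sp d)‖ ^ j ≤ 1 :=
      pow_le_one₀ (norm_nonneg _) (ContinuousLinearMap.norm_inr_le_one ℝ ℝ (Sp d))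
    simp only [ContinuousLinearMap.inr_apply, Prod.mk_add_mk, zero_add, add_zero]
    nlinarith [norm_nonneg (iteratedFDeriv ℝ j f (t, y))]

/-- restriction to a fixed time -/
theorem BdN.slice {N : ℕ} {a b : ℝ} {w : ι → ℝ × Sp d → ℝ} {f : ι → ℝ × Sp d → E}
    (hf : BdN N (slab d a b) w f) {t : ℝ} (ha : a < t) (hb : t < b) :
    BdN N univ (fun i y => w i (t, y)) (fun i y => f i (t, y)) := by
  obtain ⟨C, hC, h1⟩ := hf.bd
  refine ⟨fun i => ?_, C, hC, fun i y _ j hj => (slice_norm (hf.smooth i) ⟨ha, hb⟩ y j).trans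
    (h1 i _ ⟨ha, hb⟩ j hj)⟩
  exact (hf.smooth i).comp (f := fun y : Sp d => (t, y)) (ContDiff.contDiffOn (by fun_prop))
    (fun y _ => ⟨ha, hb⟩)

/-- integration in time over [α, γ] -/
theorem BdN.time {N : ℕ} {a b : ℝ} {w : ι → ℝ × Sp d → ℝ} {f : ι → ℝ × Sp d → E}
    (hf : BdN N (slab d a b) w f) {α γ : ℝ} (hα : a < α) (hγ : γ < b) (hαγ : α ≤ γ)
    {τ : ℝ → ℝ} (hτ : Continuous τ) {w' : ι → Sp d → ℝ}
    {H : ℝ} (hH0 : 0 ≤ H)
    (hH : ∀ i, ∀ t y, α ≤ t → t ≤ γ → w i (t, y) ≤ H * w' i y) :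
    BdN N univ w' (fun i y => ∫ r in α..γ, τ r • f i (r, y)) := by
  obtain ⟨C, hC, h1⟩ := hf.bd
  set K : ℝ → ℝ := (Icc α γ).indicator τ with hKdef
  have hK : Integrable K := by
    rw [hKdef, integrable_indicator_iff measurableSet_Icc]
    exact hτ.continuousOn.integrableOn_Icc
  have hG : ∀ i, ContDiffOn ℝ ∞ (fun q : Sp d × ℝ => f i (q.2, q.1))
      {q | a < q.2 ∧ q.2 < b} := by
    intro i
    exact (hf.smooth i).comp (f := fun q : Sp d × ℝ => (q.2, q.1))
      (ContDiff.contDiffOn (by fun_prop)) (fun q hq => hq)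
  have hW : IsOpen {q : Sp d × ℝ | a < q.2 ∧ q.2 < b} :=
    (isOpen_lt continuous_const continuous_snd).inter (isOpen_lt continuous_snd continuous_const)
  have hP := fun i => pintC (ν := volume) (U := (univ : Set (Sp d)))
    (W := {q : Sp d × ℝ | a < q.2 ∧ q.2 < b})
    (k := Icc α γ) isOpen_univ hW isCompact_Icc
    (fun p _ z hz => ⟨hα.trans_le hz.1, lt_of_le_of_lt hz.2 hγ⟩) hK
    (fun z hz => by simp [hKdef, hz]) (hG i)
  have heq : ∀ i, (fun y => ∫ r in α..γ, τ r • f i (r, y)) =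
      fun y => ∫ r, K r • f i (r, y) := by
    intro i
    funext y
    rw [intervalIntegral.integral_of_le hαγ, ← integral_Icc_eq_integral_Ioc,
      ← integral_indicator measurableSet_Icc]
    refine integral_congr_ae (Eventually.of_forall fun r => ?_)
    by_cases hr : r ∈ Icc α γ
    · simp [hKdef, hr]
    · simp [hKdef, hr]
  refine ⟨fun i => ?_, (∫ r, |K r|) * (C * H), by positivity, fun i y _ j hj => ?_⟩
  · simp only [heq]
    exact (hP i).1
  · simp only [heq]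
    refine ((hP i).2.2.2 j y (mem_univ _) (C * (H * w' i y)) ?_).trans (le_of_eq (by ring))
    intro r hr
    have hr' : a < r ∧ r < b := ⟨hα.trans_le hr.1, lt_of_le_of_lt hr.2 hγ⟩
    refine (slice_norm (hf.smooth i) hr' y j).trans ((h1 i _ hr' j hj).trans ?_)
    exact mul_le_mul_of_nonneg_left (hH i r y hr.1 hr.2) hC

end

end TG
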