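import Pool.Agent.TG.Conc

/-!
# Trace inequality, general operators: module CF, from the main estimate to the theorem
-/

open MeasureTheory Metric Set TrI
open scoped InnerProductSpace ContDiff ENNReal

namespace TG

noncomputable section

namespace CF

variable {d : ℕ}

/-- the cell of level i containing x -/
def cl (s0 : ℝ) (i : ℕ) (x : Sp d) : Fin d → ℤ := fun j => ⌊x j / lev s0 i⌋

lemma lev_pos {s0 : ℝ} (h : 0 < s0) (i : ℕ) : 0 < lev s0 i := by
  unfold lev
  positivity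

lemma xC_apply (s0 : ℝ) (i : ℕ) (p : Fin d → ℤ) (j : Fin d) :
    xC s0 (i, p) j = lev s0 i * (p j : ℝ) := by
  simp [xC, cen, lat]

lemma near {s0 : ℝ} (h : 0 < s0) (i : ℕ) (x : Sp d) :
    ‖xC s0 (i, cl s0 i x) - x‖ ≤ Real.sqrt d * lev s0 i := by
  have h1 := lev_pos h i
  have h2 : ∀ j : Fin d, |xC s0 (i, cl s0 i x) j - x j| ≤ lev s0 i := by
    intro j
    rw [xC_apply]
    have h3 : ((cl s0 i x j : ℤ) : ℝ) ≤ x j / lev s0 i := Int.floor_le _
    have h4 : x j / lev s0 i < ((cl s0 i x j : ℤ) : ℝ) + 1 := Int.lt_floor_add_one _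
    rw [le_div_iff₀ h1] at h3
    rw [div_lt_iff₀ h1] at h4
    rw [abs_le]
    constructor <;> nlinarith
  rw [EuclideanSpace.norm_eq]
  rw [← Real.sqrt_sq h1.le, ← Real.sqrt_mul (by positivity)]
  refine Real.sqrt_le_sqrt ?_
  calc ∑ j : Fin d, ‖(xC s0 (i, cl s0 i x) - x) j‖ ^ 2 ≤ ∑ _j : Fin d, lev s0 i ^ 2 := by
        refine Finset.sum_le_sum fun j _ => ?_
        have := h2 j
        rw [PiLp.sub_apply, Real.norm_eq_abs]
        exact pow_le_pow_left₀ (abs_nonneg _) this 2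
    _ = d * lev s0 i ^ 2 := by simp

lemma cl_meas (s0 : ℝ) (i : ℕ) : Measurable (cl s0 i : Sp d → Fin d → ℤ) := by
  unfold cl
  refine measurable_pi_lambda _ fun j => ?_
  refine Int.measurable_floor.comp ?_
  have : Measurable fun x : Sp d => x j := by fun_prop
  exact this.div_const _

lemma DDn {E : Type} [NormedAddCommGroup E] [InnerProductSpace ℝ E] (b : Sp d → ℝ) (ε R : ℝ)
    {s0 : ℝ} (hs : 0 < s0) (f : Sp d → E) (i : ℕ)
    (x : Sp d) {e : E} (he : ‖e‖ = 1) : 0 ≤ DD b ε R s0 f i x e := by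
  unfold DD
  have h1 : 0 < lev s0 i := lev_pos hs i
  refine mul_nonneg (by positivity) (add_nonneg (Finset.sum_nonneg fun l _ => ?_) ?_)
  · refine mul_nonneg (by positivity) (integral_nonneg fun y => ?_)
    have h2 := (abs_le.1 (abs_real_inner_le_norm (fl b ε s0 f l y) e)).2
    rw [he, mul_one] at h2
    simp only [Pi.zero_apply]
    linarith
  · exact mul_nonneg (by positivity) (integral_nonneg fun y => norm_nonneg _)

lemma oC_sq {μ : Measure (Sp d)} {ρ s0 : ℝ} (hs : 0 < s0) (Q : Cell d) (hd : 1 ≤ d) :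
    cw s0 Q * oC μ ρ s0 Q ^ 2 = (μ (ball (xC s0 Q) (ρ * lev s0 Q.1))).toReal := by
  have h1 := lev_pos hs Q.1
  have h2 : 0 ≤ nw s0 Q := by
    unfold nw
    positivity
  rw [oC, Real.sq_sqrt (mul_nonneg h2 ENNReal.toReal_nonneg), ← mul_assoc]
  have h3 : cw s0 Q * nw s0 Q = 1 := by
    unfold cw nw
    obtain ⟨k, rfl⟩ : ∃ k, d = k + 1 := ⟨d - 1, by omega⟩
    rw [Nat.add_sub_cancel, mul_div_assoc', ← pow_succ]
    exact div_self (by positivity)
  rw [h3, one_mul]

lemma oC_le {μ : Measure (Sp d)} {C' ρ s0 : ℝ} (hC' : 0 < C') (hμ : Gro C' μ) (hs : 0 < s0)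
    (hρ : 0 < ρ) (Q : Cell d) (hd : 1 ≤ d) :
    oC μ ρ s0 Q ≤ Real.sqrt (C' * ρ ^ (d - 1)) := by
  have h1 := lev_pos hs Q.1
  unfold oC
  refine Real.sqrt_le_sqrt ?_
  have h2 : (μ (ball (xC s0 Q) (ρ * lev s0 Q.1))).toReal ≤ C' * (ρ * lev s0 Q.1) ^ (d - 1) := by
    refine ENNReal.toReal_le_of_le_ofReal (by positivity) (hμ.gro _ _ (by positivity))
  have h3 : 0 ≤ nw s0 Q := by
    unfold nw
    positivity
  refine (mul_le_mul_of_nonneg_left h2 h3).trans (le_of_eq ?_)
  unfold nw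
  obtain ⟨k, rfl⟩ : ∃ k, d = k + 1 := ⟨d - 1, by omega⟩
  rw [Nat.add_sub_cancel, mul_pow]
  field_simp
  ring

/-- integration of a function of the cell -/
lemma int_cell (μ : Measure (Sp d)) (s0 : ℝ) (i : ℕ) (g : (Fin d → ℤ) → ℝ≥0∞) :
    ∫⁻ x, g (cl s0 i x) ∂μ = ∑' p, g p * μ (cl s0 i ⁻¹' {p}) := by
  have h1 : ∫⁻ x, g (cl s0 i x) ∂μ = ∫⁻ p, g p ∂(μ.map (cl s0 i)) :=
    (lintegral_map (measurable_of_countable g) (cl_meas s0 i)).symm
  rw [h1, lintegral_countable']
  refine tsum_congr fun p => ?_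
  rw [Measure.map_apply (cl_meas s0 i) (measurableSet_singleton p)]

lemma cube_le {μ : Measure (Sp d)} [IsFiniteMeasure μ] {ρ s0 : ℝ} (hs : 0 < s0)
    (hρ : (d : ℝ) + 1 ≤ ρ) (hd : 1 ≤ d) (i : ℕ) (p : Fin d → ℤ) :
    μ (cl s0 i ⁻¹' {p}) ≤ ENNReal.ofReal (cw s0 (i, p) * oC μ ρ s0 (i, p) ^ 2) := by
  rw [oC_sq hs (i, p) hd, ENNReal.ofReal_toReal (measure_ne_top _ _)]
  refine measure_mono fun x hx => ?_
  have hx' : cl s0 i x = p := hx
  have h1 := near hs i x
  rw [hx'] at h1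
  have h2 := lev_pos hs i
  rw [mem_ball, dist_comm, dist_eq_norm]
  refine h1.trans_lt ?_
  refine mul_lt_mul_of_pos_right (lt_of_lt_of_le ?_ hρ) h2
  have h3 : Real.sqrt d ≤ d := by
    have h4 : (1 : ℝ) ≤ d := by exact_mod_cast hd
    rw [Real.sqrt_le_left (by positivity)]
    nlinarith
  linarith

end CF

open CF in
theorem stmtCF : StmtCF := by
  intro hCO hMain d V E _ _ _ _ _ _ L hd hL C' hC'
  have hd1 : 1 ≤ d := by omega
  rcases subsingleton_or_nontrivial E with hE | hE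
  · -- V is trivial
    refine ⟨1, one_pos, fun μ _ u _ => ?_⟩
    have hV : ∀ v : V, v = 0 := by
      intro v
      have hξ : (EuclideanSpace.single (⟨0, by omega⟩ : Fin d) (1 : ℝ)) ≠ 0 := by
        intro h
        have := congrArg norm h
        simp at this
      exact (hL _ 0 (Or.inl hξ) v 0 (Subsingleton.elim _ _) (Subsingleton.elim _ _)).1
    have : ∫⁻ x, ‖u x‖ₑ ∂μ = 0 := by
      simp [hV (u _)]
    rw [this]
    exact bot_le
  obtain ⟨M, c0, ε, R0, R, ρ, Cm, b, hb, hε, hε1, hR0, hR, hρ, hCm, hm⟩ :=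
    hMain d V E L hd hL C' hC'
  obtain ⟨C1, hC1, hco⟩ := hCO d V E L hd hL M c0 ε hε hε1 b hb R0 hR0
  have hρ0 : 0 < ρ := by
    have : (0 : ℝ) ≤ d := by positivity
    linarith
  set K : ℝ := Real.sqrt (C' * ρ ^ (d - 1)) with hK
  have hK0 : 0 < K := Real.sqrt_pos.2 (by positivity)
  refine ⟨C1 * (K * Cm), by positivity, fun μ hμ u hu => ?_⟩
  have := hμ.fin
  obtain ⟨Cu, hCu, hcu⟩ := hco R hR u hu
  set I : ℝ≥0∞ := ∫⁻ x, ‖fo L u x‖ₑ with hI
  -- integrability of fo L u
  have hfo : Integrable (fo L u) := by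
    refine Continuous.integrable_of_hasCompactSupport ?_ ?_
    · unfold fo
      exact L.continuous.comp (hu.smooth.continuous_fderiv (by simp))
    · unfold fo
      exact (hu.supp.fderiv (𝕜 := ℝ)).comp_left (g := fun T => L T) (map_zero L)
  have hI2 : ENNReal.ofReal (Cm * ∫ y, ‖fo L u y‖) = ENNReal.ofReal Cm * I := by
    rw [ENNReal.ofReal_mul hCm.le, hI, ofReal_integral_norm_eq_lintegral_enorm hfo]
  -- the estimate for fixed s0
  have key : ∀ s0 : ℝ, 0 < s0 → s0 ≤ 1 →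
      ∫⁻ x, ‖u x‖ₑ ∂μ ≤ ENNReal.ofReal (C1 * (K * Cm)) * I + ENNReal.ofReal (Cu * s0) * μ univ := by
    intro s0 hs0 hs1
    obtain ⟨e, ν, c, he, hν, hloc, hsum⟩ := hm u hu μ hμ s0 hs0 hs1
    rw [hI2] at hsum
    set F : Cell d → ℝ := fun Q =>
      bD b ε R0 R s0 (fo L u) Q.1 (xC s0 Q) (e Q) (ν Q) (c Q) with hF
    have hF0 : ∀ Q, 0 ≤ F Q := fun Q =>
      add_nonneg (le_max_left _ _) (DDn b ε R hs0 _ _ _ (he Q))
    set g : ℕ → (Fin d → ℤ) → ℝ≥0∞ := fun i p => if 2 ≤ i then ENNReal.ofReal (F (i, p)) else 0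
      with hg
    have hpt : ∀ x, ‖u x‖ₑ ≤
        ENNReal.ofReal C1 * ∑' i, g i (cl s0 i x) + ENNReal.ofReal (Cu * s0) := by
      intro x
      by_cases hS : ∑' i, g i (cl s0 i x) = (⊤ : ℝ≥0∞)
      · rw [hS, ENNReal.mul_top (ENNReal.ofReal_pos.2 hC1).ne', top_add]
        exact le_top
      · have h1 := hcu s0 hs0 hs1 x (fun i => xC s0 (i, cl s0 i x)) (fun i => e (i, cl s0 i x))
          (fun i => ν (i, cl s0 i x)) (fun i => c (i, cl s0 i x))
          (∑' i, g i (cl s0 i x)).toReal (fun i => near hs0 i x) (fun i => he _) (fun i => hν _)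
          (fun i => hloc _) ?_
        · rw [← ofReal_norm]
          refine (ENNReal.ofReal_le_ofReal h1).trans ?_
          refine ENNReal.ofReal_add_le.trans ?_
          rw [ENNReal.ofReal_mul hC1.le, ENNReal.ofReal_toReal hS]
        · intro I
          rw [← ENNReal.ofReal_le_iff_le_toReal hS,
            ENNReal.ofReal_sum_of_nonneg (fun i _ => hF0 (i, cl s0 i x))]
          refine le_trans (le_of_eq ?_) (ENNReal.sum_le_tsum (Finset.Ico 2 I))
          refine Finset.sum_congr rfl fun i hi => ?_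
          rw [hg]
          simp only
          rw [if_pos (Finset.mem_Ico.1 hi).1]
    have hgm : ∀ i, Measurable fun x : Sp d => g i (cl s0 i x) := fun i =>
      (measurable_of_countable (g i)).comp (cl_meas s0 i)
    have hint : ∫⁻ x, ∑' i, g i (cl s0 i x) ∂μ ≤ ENNReal.ofReal K * (ENNReal.ofReal Cm * I) := by
      rw [lintegral_tsum fun i => (hgm i).aemeasurable]
      calc ∑' i, ∫⁻ x, g i (cl s0 i x) ∂μ
          = ∑' i, ∑' p, g i p * μ (cl s0 i ⁻¹' {p}) := by
            refine tsum_congr fun i => ?_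
            rw [int_cell]
        _ ≤ ∑' i, ∑' p, ENNReal.ofReal K * ({Q : Cell d | 2 ≤ Q.1}.indicator
              (fun Q => ENNReal.ofReal (cw s0 Q * F Q * oC μ ρ s0 Q)) (i, p)) := by
            refine ENNReal.tsum_le_tsum fun i => ENNReal.tsum_le_tsum fun p => ?_
            by_cases hi : 2 ≤ i
            · rw [Set.indicator_of_mem (show ((i, p) : Cell d) ∈ {Q : Cell d | 2 ≤ Q.1} from hi),
                hg]
              simp only
              rw [if_pos hi]
              refine (mul_le_mul_right (cube_le hs0 hρ hd1 i p) _).trans ?_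
              rw [← ENNReal.ofReal_mul (hF0 _), ← ENNReal.ofReal_mul hK0.le]
              refine ENNReal.ofReal_le_ofReal ?_
              have h1 : oC μ ρ s0 (i, p) ≤ K := oC_le hC' hμ hs0 hρ0 (i, p) hd1
              have h2 : 0 ≤ oC μ ρ s0 (i, p) := Real.sqrt_nonneg _
              have h3 : 0 ≤ cw s0 ((i, p) : Cell d) := by
                unfold cw
                exact pow_nonneg (lev_pos hs0 _).le _
              have h4 : 0 ≤ F (i, p) * cw s0 (i, p) * oC μ ρ s0 (i, p) :=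
                mul_nonneg (mul_nonneg (hF0 _) h3) h2
              calc F (i, p) * (cw s0 (i, p) * oC μ ρ s0 (i, p) ^ 2)
                  = (F (i, p) * cw s0 (i, p) * oC μ ρ s0 (i, p)) * oC μ ρ s0 (i, p) := by ring
                _ ≤ (F (i, p) * cw s0 (i, p) * oC μ ρ s0 (i, p)) * K :=
                    mul_le_mul_of_nonneg_left h1 h4
                _ = K * (cw s0 (i, p) * F (i, p) * oC μ ρ s0 (i, p)) := by ring
            · rw [hg]
              simp only
              rw [if_neg hi, zero_mul]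
              exact bot_le
        _ = ENNReal.ofReal K * cs {Q : Cell d | 2 ≤ Q.1}
              (fun Q => cw s0 Q * F Q * oC μ ρ s0 Q) := by
            rw [cs, ENNReal.tsum_prod', ← ENNReal.tsum_mul_left]
            refine tsum_congr fun i => ?_
            rw [ENNReal.tsum_mul_left]
        _ ≤ ENNReal.ofReal K * (ENNReal.ofReal Cm * I) := mul_le_mul_right hsum _
    calc ∫⁻ x, ‖u x‖ₑ ∂μ
        ≤ ∫⁻ x, (ENNReal.ofReal C1 * ∑' i, g i (cl s0 i x) + ENNReal.ofReal (Cu * s0)) ∂μ :=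
          lintegral_mono hpt
      _ = ENNReal.ofReal C1 * ∫⁻ x, ∑' i, g i (cl s0 i x) ∂μ
            + ENNReal.ofReal (Cu * s0) * μ univ := by
          rw [lintegral_add_right _ measurable_const, lintegral_const,
            lintegral_const_mul _ (Measurable.ennreal_tsum hgm)]
      _ ≤ ENNReal.ofReal C1 * (ENNReal.ofReal K * (ENNReal.ofReal Cm * I))
            + ENNReal.ofReal (Cu * s0) * μ univ := by
          gcongr
      _ = ENNReal.ofReal (C1 * (K * Cm)) * I + ENNReal.ofReal (Cu * s0) * μ univ := by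
          rw [ENNReal.ofReal_mul hC1.le, ENNReal.ofReal_mul hK0.le]
          ring
  -- let s0 tend to 0
  refine ENNReal.le_of_forall_pos_le_add fun δ hδ _ => ?_
  set m : ℝ := (μ univ).toReal with hm'
  have hm0 : 0 ≤ m := ENNReal.toReal_nonneg
  have hδ' : (0 : ℝ) < δ := by exact_mod_cast hδ
  set s0 : ℝ := min 1 (δ / (Cu * m + 1)) with hs0
  have hp : 0 < Cu * m + 1 := by positivity
  have hs0p : 0 < s0 := lt_min one_pos (by positivity)
  refine (key s0 hs0p (min_le_left _ _)).trans ?_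
  gcongr
  have h1 : μ univ = ENNReal.ofReal m := (ENNReal.ofReal_toReal (measure_ne_top _ _)).symm
  rw [h1, ← ENNReal.ofReal_mul (by positivity)]
  refine (ENNReal.ofReal_le_ofReal (?_ : Cu * s0 * m ≤ (δ : ℝ))).trans ?_
  · have h2 : s0 ≤ δ / (Cu * m + 1) := min_le_right _ _
    calc Cu * s0 * m = s0 * (Cu * m) := by ring
      _ ≤ s0 * (Cu * m + 1) := by
          refine mul_le_mul_of_nonneg_left ?_ hs0p.le
          linarith
      _ ≤ (δ / (Cu * m + 1)) * (Cu * m + 1) := mul_le_mul_of_nonneg_right h2 hp.le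
      _ = δ := by field_simp
  · rw [ENNReal.ofReal_coe_nnreal]

end

end TG
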