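import Pool.Agent.TG.Conc
import Pool.Agent.TG.AvBasic

/-!
# Module CG: existence of minimising directions and planes (by helper85)
-/

open MeasureTheory Metric Set TrI
open scoped InnerProductSpace ContDiff ENNReal

namespace TG

noncomputable section

variable {d : ℕ}

section A

variable {E : Type} [NormedAddCommGroup E] [InnerProductSpace ℝ E] [FiniteDimensional ℝ E]
  {b : Sp d → ℝ} {M c0 : ℝ}

/-- the defect is an affine function of the direction -/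
lemma cg_affine (hb : BaseKer 2 M c0 b) (ε R s0 : ℝ) {f : Sp d → E} (hf : Continuous f)
    (hfc : HasCompactSupport f) (i : ℕ) (x : Sp d) :
    ∃ (A : ℝ) (w : E), ∀ e : E, DD b ε R s0 f i x e = A - ⟪w, e⟫_ℝ := by
  set B := ball x (R * lev s0 i) with hB
  have hi : ∀ l, Integrable (fl b ε s0 f l) := fun l =>
    (flA_cont hb ε s0 hf l).integrable_of_hasCompactSupport (flA_cs hb ε s0 hfc l)
  have h1 : ∀ (l : ℕ) (e : E), ∫ y in B, (‖fl b ε s0 f l y‖ - ⟪fl b ε s0 f l y, e⟫_ℝ) =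
      (∫ y in B, ‖fl b ε s0 f l y‖) - ⟪∫ y in B, fl b ε s0 f l y, e⟫_ℝ := by
    intro l e
    rw [integral_sub (hi l).norm.integrableOn ((hi l).inner_const e).integrableOn]
    congr 1
    have h2 := integral_inner (𝕜 := ℝ) ((hi l).integrableOn (s := B)) e
    rw [real_inner_comm, ← h2]
    exact integral_congr_ae (Filter.Eventually.of_forall fun y => real_inner_comm _ _)
  refine ⟨lev s0 i / lev s0 i ^ d * (∑ l ∈ Finset.range (i + 1), (1 / 4 : ℝ) ^ (i - l) *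
      (∫ y in B, ‖fl b ε s0 f l y‖) + (1 / 4 : ℝ) ^ i * ∫ y in B, ‖f y‖),
    (lev s0 i / lev s0 i ^ d) • ∑ l ∈ Finset.range (i + 1), (1 / 4 : ℝ) ^ (i - l) •
      ∫ y in B, fl b ε s0 f l y, fun e => ?_⟩
  unfold DD
  simp only [← hB, h1]
  rw [real_inner_smul_left, sum_inner, ← mul_sub]
  congr 1
  have h3 : ∑ l ∈ Finset.range (i + 1), (1 / 4 : ℝ) ^ (i - l) *
      ((∫ y in B, ‖fl b ε s0 f l y‖) - ⟪∫ y in B, fl b ε s0 f l y, e⟫_ℝ) =
      ∑ l ∈ Finset.range (i + 1), (1 / 4 : ℝ) ^ (i - l) * (∫ y in B, ‖fl b ε s0 f l y‖) -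
      ∑ l ∈ Finset.range (i + 1), ⟪(1 / 4 : ℝ) ^ (i - l) • ∫ y in B, fl b ε s0 f l y, e⟫_ℝ := by
    rw [← Finset.sum_sub_distrib]
    refine Finset.sum_congr rfl fun l _ => ?_
    rw [real_inner_smul_left]
    ring
  rw [h3]
  ring

omit [FiniteDimensional ℝ E] in
/-- the plane functional is continuous -/
lemma cg_cont (R0 s0 : ℝ) {f : Sp d → E} (hf : Continuous f) (hfc : HasCompactSupport f)
    (i : ℕ) (x : Sp d) (e : E) :
    Continuous (fun p : Sp d × ℝ => bb R0 s0 f i x e p.1 p.2) := by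
  unfold bb
  refine continuous_const.mul ?_
  have h1 : ∀ p : Sp d × ℝ, (∫ y, ⟪f y, e⟫_ℝ *
      (zR R0 ((1 / lev s0 i) • (y - x)) * (ht p.1 p.2 y / lev s0 i) ^ 2)) =
      ∫ y in tsupport f, ⟪f y, e⟫_ℝ *
      (zR R0 ((1 / lev s0 i) • (y - x)) * (ht p.1 p.2 y / lev s0 i) ^ 2) := by
    intro p
    refine (setIntegral_eq_integral_of_forall_compl_eq_zero fun y hy => ?_).symm
    rw [image_eq_zero_of_notMem_tsupport hy, inner_zero_left, zero_mul]
  simp only [h1]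
  refine continuous_parametric_integral_of_continuous ?_ hfc
  have hz : Continuous (zR (d := d) R0) := by
    unfold zR
    exact Real.smoothTransition.continuous.comp (continuous_const.sub continuous_norm)
  have c0 : Continuous (fun q : (Sp d × ℝ) × Sp d => ⟪f q.2, e⟫_ℝ) :=
    (hf.comp continuous_snd).inner continuous_const
  have c1 : Continuous (fun q : (Sp d × ℝ) × Sp d => (1 / lev s0 i) • (q.2 - x)) := by fun_prop
  have c2 : Continuous (fun q : (Sp d × ℝ) × Sp d => zR R0 ((1 / lev s0 i) • (q.2 - x))) :=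
    hz.comp c1
  have c3 : Continuous (fun q : (Sp d × ℝ) × Sp d => ht q.1.1 q.1.2 q.2 / lev s0 i) := by
    unfold ht
    fun_prop
  have h2 : Continuous (fun q : (Sp d × ℝ) × Sp d => ⟪f q.2, e⟫_ℝ *
      (zR R0 ((1 / lev s0 i) • (q.2 - x)) * (ht q.1.1 q.1.2 q.2 / lev s0 i) ^ 2)) :=
    c0.mul (c2.mul (c3.pow 2))
  exact h2

end A

/-- the admissible planes form a compact set -/
lemma cg_compact (x : Sp d) (r : ℝ) :
    IsCompact {p : Sp d × ℝ | ‖p.1‖ = 1 ∧ |ht p.1 p.2 x| ≤ r} := by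
  have hclosed : IsClosed {p : Sp d × ℝ | ‖p.1‖ = 1 ∧ |ht p.1 p.2 x| ≤ r} := by
    have c1 : Continuous (fun p : Sp d × ℝ => ‖p.1‖) := by fun_prop
    have c2 : Continuous (fun p : Sp d × ℝ => |ht p.1 p.2 x|) := by
      unfold ht
      fun_prop
    exact (isClosed_eq c1 continuous_const).inter (isClosed_le c2 continuous_const)
  refine IsCompact.of_isClosed_subset
    ((isCompact_sphere (0 : Sp d) 1).prod (isCompact_Icc (a := -(‖x‖ + r)) (b := ‖x‖ + r)))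
    hclosed ?_
  rintro ⟨ν, c⟩ ⟨h1, h2⟩
  simp only at h1 h2
  have h3 := abs_real_inner_le_norm ν x
  rw [h1, one_mul] at h3
  unfold ht at h2
  have h4 := abs_le.mp h2
  have h5 := abs_le.mp h3
  refine ⟨by simpa using h1, ?_, ?_⟩ <;> simp only <;> linarith [h4.1, h4.2, h5.1, h5.2]

theorem stmtCG : StmtCG := by
  intro d hd M c0 ε _ _ b hb E _ _ _ _ f hf hfc R s0 _ hs0
  refine ⟨?_, ?_⟩
  · have key : ∀ Q : Cell d, ∃ e : E, ‖e‖ = 1 ∧ ∀ e' : E, ‖e'‖ = 1 →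
        DD b ε R s0 f Q.1 (xC s0 Q) e ≤ DD b ε R s0 f Q.1 (xC s0 Q) e' := by
      intro Q
      obtain ⟨A, w, hAw⟩ := cg_affine hb ε R s0 hf hfc Q.1 (xC s0 Q)
      obtain ⟨e0, he0⟩ := exists_norm_eq E (zero_le_one (α := ℝ))
      obtain ⟨e, he, hmin⟩ := (isCompact_sphere (0 : E) 1).exists_isMinOn
        ⟨e0, by simpa using he0⟩ (f := fun e => A - ⟪w, e⟫_ℝ)
        (continuous_const.sub (continuous_const.inner continuous_id)).continuousOn
      refine ⟨e, by simpa using he, fun e' he' => ?_⟩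
      rw [hAw, hAw]
      exact hmin (by simpa using he')
    choose e he1 he2 using key
    exact ⟨e, ⟨he1, fun Q e' he' => he2 Q e' he'⟩⟩
  · intro e R0 hR0 _
    have key : ∀ Q : Cell d, ∃ p : Sp d × ℝ, (‖p.1‖ = 1 ∧
        |ht p.1 p.2 (xC s0 Q)| ≤ (R0 + 1) * lev s0 Q.1) ∧
        ∀ p' : Sp d × ℝ, (‖p'.1‖ = 1 ∧ |ht p'.1 p'.2 (xC s0 Q)| ≤ (R0 + 1) * lev s0 Q.1) →
          bb R0 s0 f Q.1 (xC s0 Q) (e Q) p.1 p.2 ≤ bb R0 s0 f Q.1 (xC s0 Q) (e Q) p'.1 p'.2 := by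
      intro Q
      have ht0 := levA_pos hs0 Q.1
      have : Nonempty (Fin d) := ⟨⟨0, by omega⟩⟩
      obtain ⟨ν0, hν0⟩ := exists_norm_eq (Sp d) (zero_le_one (α := ℝ))
      obtain ⟨p, hp, hmin⟩ := (cg_compact (xC s0 Q) ((R0 + 1) * lev s0 Q.1)).exists_isMinOn
        ⟨(ν0, ⟪ν0, xC s0 Q⟫_ℝ), hν0, by
          unfold ht
          simp only [sub_self, abs_zero]
          positivity⟩
        (cg_cont R0 s0 hf hfc Q.1 (xC s0 Q) (e Q)).continuousOn
      exact ⟨p, hp, fun p' hp' => hmin hp'⟩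
    choose p hp1 hp2 using key
    exact ⟨fun Q => (p Q).1, fun Q => (p Q).2, ⟨fun Q => (hp1 Q).1, fun Q => (hp1 Q).2,
      fun Q ν' c' h1 h2 => hp2 Q (ν', c') ⟨h1, h2⟩⟩⟩

end

end TG
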