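import Pool.Agent.TG.CM3

/-!
# Trace inequality, module CM, part 5: from the frames to the statement

Mathematics: helper42 (module CM).
-/

set_option autoImplicit false
set_option linter.unusedSectionVars false

open MeasureTheory Metric Set TrI
open scoped InnerProductSpace ContDiff

namespace TG

noncomputable section

namespace CM

variable {d : ℕ} {V E : Type} [NormedAddCommGroup V] [InnerProductSpace ℝ V]
  [FiniteDimensional ℝ V] [NormedAddCommGroup E] [InnerProductSpace ℝ E] [FiniteDimensional ℝ E]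

/-- the function in the frame of the cell with centre x and scale 2^r -/
def fr (x : Sp d) (r : ℕ) (u : Sp d → V) : Sp d → V := fun y => u (x + ((2 : ℝ) ^ r) • y)

variable {L : (Sp d →L[ℝ] V) →L[ℝ] E} {b : Sp d → ℝ}

lemma half_div_pow (n r : ℕ) : ((1 / 2 : ℝ) ^ n) / 2 ^ r = (1 / 2) ^ (n + r) := by
  rw [pow_add, div_eq_mul_inv, ← inv_pow]
  norm_num

lemma TF_fr (hSC : StmtSC) (hd : 2 ≤ d) {u : Sp d → V} (hu : TF u) (x : Sp d) (r : ℕ) :
    TF (fr x r u) :=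
  ((hSC d hd 1 one_pos x (2 ^ r) (by positivity)).2.2 V V (L := 0) u hu).1

lemma fr_D (hSC : StmtSC) (hd : 2 ≤ d) {M c0 ε : ℝ} (hb : BaseKer 2 M c0 b) (hε : 0 < ε)
    (hε1 : ε ≤ 1) (R : ℝ) (n r : ℕ) {u : Sp d → V} (hu : TF u) (x : Sp d) (e : E) :
    DD b ε R ((1 / 2) ^ n) (fo L u) (n + r) x e = cD b ε R L (n + r) (fr x r u) e := by
  obtain ⟨-, h1, h2⟩ := hSC d hd 1 one_pos x (2 ^ r) (by positivity)
  have h3 := (h2 V E L u hu).2
  have h4 := (h1 E M c0 b hb ε hε hε1 (fo L u) (fo_cont hu) (fo_cs hu) ((1 / 2) ^ n)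
    (by positivity)).2.1 R (n + r) 0 e
  rw [half_div_pow, ← h3, smul_zero, add_zero] at h4
  exact h4.symm

lemma fr_A (hSC : StmtSC) (hd : 2 ≤ d) {M c0 ε : ℝ} (hb : BaseKer 2 M c0 b) (hε : 0 < ε)
    (hε1 : ε ≤ 1) (R : ℝ) (n r : ℕ) {u : Sp d → V} (hu : TF u) (x : Sp d) :
    ma b ε R ((1 / 2) ^ n) (fo L u) (n + r) x = cA b ε R L (n + r) (fr x r u) := by
  obtain ⟨-, h1, h2⟩ := hSC d hd 1 one_pos x (2 ^ r) (by positivity)
  have h3 := (h2 V E L u hu).2
  have h4 := (h1 E M c0 b hb ε hε hε1 (fo L u) (fo_cont hu) (fo_cs hu) ((1 / 2) ^ n)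
    (by positivity)).2.2 R (n + r) 0
  rw [half_div_pow, ← h3, smul_zero, add_zero] at h4
  exact h4.symm

lemma fr_B (hSC : StmtSC) (hSD : StmtSD) (hd : 2 ≤ d) {M c0 ε : ℝ} (hb : BaseKer 2 M c0 b)
    (hε : 0 < ε) (hε1 : ε ≤ 1) (R0 R : ℝ) (n r : ℕ) {u : Sp d → V} (hu : TF u) (x : Sp d) (e : E)
    (ν : Sp d) (c : ℝ) :
    bD b ε R0 R ((1 / 2) ^ n) (fo L u) (n + r) x e ν c =
      cB b ε R0 R L (n + r) (fr x r u) e ν ((c - ⟪ν, x⟫_ℝ) / 2 ^ r) := by
  unfold cB bD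
  have h1 := fr_D (L := L) hSC hd hb hε hε1 R n r hu x e
  unfold cD at h1
  rw [h1]
  congr 2
  have h3 := ((hSC d hd 1 one_pos x (2 ^ r) (by positivity)).2.2 V E L u hu).2
  have h4 := hSD.2 d E (fo L u) (by omega) (fo_cont hu) (fo_cs hu) x (2 ^ r) (by positivity) R0
    ((1 / 2) ^ n) (n + r) 0 e ν ((c - ⟪ν, x⟫_ℝ) / 2 ^ r) (by positivity)
  rw [half_div_pow, ← h3, smul_zero, add_zero] at h4
  have h5 : 2 ^ r * ((c - ⟪ν, x⟫_ℝ) / 2 ^ r) + ⟪ν, x⟫_ℝ = c := by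
    field_simp
    ring
  rw [h5] at h4
  exact h4.symm

lemma fr_succ (x : ℕ → Sp d) (u : Sp d → V) (r : ℕ) :
    fr (x (r + 1)) (r + 1) u = zm (((2 : ℝ) ^ r)⁻¹ • (x (r + 1) - x r)) (fr (x r) r u) := by
  funext y
  unfold zm fr
  congr 1
  rw [smul_add, smul_smul, mul_inv_cancel₀ (by positivity), one_smul, smul_smul, ← pow_succ]
  abel

lemma wq_eq (q : ℝ) (r : ℕ) : wq q r = P (-q) r := by
  unfold wq P
  rw [neg_mul]

lemma P_nat (s : ℝ) (r : ℕ) : P s r = P s 1 ^ r := by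
  unfold P
  rw [← Real.rpow_natCast, ← Real.rpow_mul (by norm_num)]
  simp

/-- the geometric sum -/
lemma sum_P_le {s : ℝ} (hs : s < 0) (I : ℕ) :
    ∑ r ∈ Finset.range I, P s r ≤ (1 - P s 1)⁻¹ := by
  have h0 : 0 ≤ P s 1 := (P_pos s 1).le
  have h1 : P s 1 < 1 := by
    unfold P
    exact Real.rpow_lt_one_of_one_lt_of_neg (by norm_num) (by simpa using hs)
  calc ∑ r ∈ Finset.range I, P s r = ∑ r ∈ Finset.range I, P s 1 ^ r :=
        Finset.sum_congr rfl fun r _ => P_nat s r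
    _ ≤ ∑' r : ℕ, P s 1 ^ r := (summable_geometric_of_lt_one h0 h1).sum_le_tsum _
        (fun r _ => by positivity)
    _ = _ := tsum_geometric_of_lt_one h0 h1

/-- StmtCM follows from its version in the frames. -/
theorem stmtCM_of_frames (hSC : StmtSC) (hSD : StmtSD)
    (h : ∀ (d : ℕ) (V E : Type) [NormedAddCommGroup V] [InnerProductSpace ℝ V]
      [FiniteDimensional ℝ V] [NormedAddCommGroup E] [InnerProductSpace ℝ E]
      [FiniteDimensional ℝ E] (L : (Sp d →L[ℝ] V) →L[ℝ] E), 2 ≤ d → CEll L →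
      ∀ (M c0 ε : ℝ), 0 < ε → ε ≤ 1 → ∀ (b : Sp d → ℝ), BaseKer 2 M c0 b →
      ∀ (R0 γ K : ℝ), 200 + 8 * d ≤ R0 → 0 < γ → γ ≤ 1 / 32 → 1 ≤ K → FrameCM b ε R0 K γ L) :
    StmtCM := by
  intro d V E _ _ _ _ _ _ L hd hL M c0 ε hε hε1 b hb R0 γ K hR0 hγ hγ1 hK
  have hdR : (2 : ℝ) ≤ d := by exact_mod_cast hd
  have hγ2 : γ ≤ 1 / 32 := by
    refine hγ1.trans ?_
    rw [div_le_div_iff₀ (by positivity) (by norm_num)]
    linarith
  obtain ⟨C0, hC0, hC⟩ := h d V E L hd hL M c0 ε hε hε1 b hb R0 γ K hR0 hγ hγ2 hK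
  have hs : (-(3 / 32) : ℝ) < 0 := by norm_num
  have hPs : P (-(3 / 32)) 1 < 1 := by
    unfold P
    exact Real.rpow_lt_one_of_one_lt_of_neg (by norm_num) (by norm_num)
  refine ⟨C0 * (1 - P (-(3 / 32)) 1)⁻¹, mul_pos hC0 (inv_pos.2 (by linarith)), ?_⟩
  intro R hR n u hu x e hT a ha haeq hgr νs cs B hνs hcs hsum
  have hB0 : 0 ≤ B := by simpa using hsum 0
  have hterm0 : ∀ r, 0 ≤ bD b ε R0 R ((1 / 2) ^ n) (fo L u) (n + r) (x r) (e r) (νs r) (cs r) := by
    intro r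
    rw [fr_B hSC hSD hd hb hε hε1 R0 R n r hu]
    exact cB_nonneg b ε R0 R L (n + r) _ (hT.unit r) _ _
  obtain ⟨ν, g, hν, hg0, hg1, hg2⟩ := hC R hR n (fun r => fr (x r) r u)
    (fun r => ((2 : ℝ) ^ r)⁻¹ • (x (r + 1) - x r)) e (fun r => TF_fr hSC hd hu (x r) r)
    (fun r => fr_succ x u r)
    (fun r => by
      rw [norm_smul, norm_inv, norm_pow, Real.norm_eq_abs, abs_two]
      have h1 := hT.step r
      rw [inv_mul_le_iff₀ (by positivity)]
      linarith) hT.unit a ha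
    (by
      rw [haeq, hT.zero]
      have := fr_A (L := L) hSC hd hb hε hε1 R0 n 0 hu (0 : Sp d)
      simpa using this)
    (fun r => by
      have h1 := hgr r
      rw [fr_A (L := L) hSC hd hb hε hε1 R0 n r hu (x r)] at h1
      exact h1)
    νs (fun r => (cs r - ⟪νs r, x r⟫_ℝ) / 2 ^ r) B hνs
    (fun r => by
      have h1 := hcs r
      unfold ht at h1
      rw [abs_div, abs_of_pos (by positivity : (0 : ℝ) < 2 ^ r), div_le_iff₀ (by positivity),
        abs_sub_comm]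
      exact h1) hB0
    (fun r => by
      have h1 : wq (1 / 4) r *
          bD b ε R0 R ((1 / 2) ^ n) (fo L u) (n + r) (x r) (e r) (νs r) (cs r) ≤ B := by
        refine le_trans ?_ (hsum (r + 1))
        refine Finset.single_le_sum (f := fun r => wq (1 / 4) r *
          bD b ε R0 R ((1 / 2) ^ n) (fo L u) (n + r) (x r) (e r) (νs r) (cs r))
          (fun i _ => mul_nonneg ?_ (hterm0 i)) (Finset.self_mem_range_succ r)
        rw [wq_eq]
        exact (P_pos _ _).le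
      rw [fr_B hSC hSD hd hb hε hε1 R0 R n r hu, wq_eq] at h1
      have h2 := mul_le_mul_of_nonneg_left h1 (P_pos (1 / 4) r).le
      rw [← mul_assoc, P_mul] at h2
      have h3 : P ((1 : ℝ) / 4 + -(1 / 4)) r = 1 := by
        unfold P
        norm_num
      rw [h3, one_mul] at h2
      exact h2)
  have hgr' : ∀ r, g r = (g 0 - ⟪ν, x r⟫_ℝ) / 2 ^ r := by
    intro r
    induction r with
    | zero => rw [hT.zero]; simp
    | succ r ih =>
      rw [hg1, ih, inner_smul_right, inner_sub_right, pow_succ]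
      field_simp
      ring
  refine ⟨ν, g 0, hν, hg0, fun I => ?_⟩
  have hexp : -(1 / 2) + (3 / 8 + γ) ≤ -(3 / 32) := by linarith
  calc ∑ r ∈ Finset.range I, wq (1 / 2) r *
        bD b ε R0 R ((1 / 2) ^ n) (fo L u) (n + r) (x r) (e r) ν (g 0)
      ≤ ∑ r ∈ Finset.range I, C0 * B * P (-(3 / 32)) r := by
        refine Finset.sum_le_sum fun r _ => ?_
        rw [fr_B hSC hSD hd hb hε hε1 R0 R n r hu, wq_eq, ← hgr' r]
        have h1 := mul_le_mul_of_nonneg_left (hg2 r) (P_pos (-(1 / 2)) r).le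
        refine h1.trans ?_
        have h2 : P (-(1 / 2)) r * (C0 * (P (3 / 8 + γ) r * B)) =
            C0 * B * P (-(1 / 2) + (3 / 8 + γ)) r := by
          rw [← P_mul (-(1 / 2)) (3 / 8 + γ)]
          ring
        rw [h2]
        exact mul_le_mul_of_nonneg_left (P_le hexp r) (by positivity)
    _ = C0 * B * ∑ r ∈ Finset.range I, P (-(3 / 32)) r := by rw [Finset.mul_sum]
    _ ≤ C0 * B * (1 - P (-(3 / 32)) 1)⁻¹ :=
        mul_le_mul_of_nonneg_left (sum_P_le hs I) (by positivity)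
    _ = _ := by ring

end CM

end

end TG
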