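import Pool.Agent.TG.CM4
import Pool.Agent.TG.CM5

/-!
# Trace inequality, module CM: separately minimised planes against a common plane
-/

set_option autoImplicit false

open MeasureTheory Metric Set TrI
open scoped InnerProductSpace ContDiff

namespace TG

theorem stmtCM (hNS : TrI.StmtNS) (hSHB : StmtSHB) (hPL : StmtPL) (hSM : StmtSM)
    (hJC : StmtJC) (hZ : StmtZ) (hMA : StmtMA) (hTW : StmtTW) (hSC : StmtSC) (hSD : StmtSD) :
    StmtCM :=
  CM.stmtCM_of_frames hSC hSD fun _ _ _ _ _ _ _ _ _ _ hd hL _ _ _ hε hε1 _ hb _ _ _ hR0 hγ hγ1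
    hK => CM.frameCM hNS hSHB hPL hSM hJC hZ hMA hTW hSC hSD hd hL hε hε1 hb hR0 hγ hγ1 hK

end TG
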