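import Pool.Agent.TG.Tf

/-!
# Trace inequality, module CM, part 1: frames

A cell is described by its level N, the rescaled function u and the direction e; the child of
(N+1, zm ξ u) is (N, u).
-/

set_option autoImplicit false
set_option linter.unusedSectionVars false

open MeasureTheory Metric Set TrI
open scoped InnerProductSpace ContDiff

namespace TG

noncomputable section

namespace CM

variable {d : ℕ} {V E : Type} [NormedAddCommGroup V] [InnerProductSpace ℝ V]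
  [FiniteDimensional ℝ V] [NormedAddCommGroup E] [InnerProductSpace ℝ E] [FiniteDimensional ℝ E]

/-- the function in the frame of the parent -/
def zm (ξ : Sp d) (u : Sp d → V) : Sp d → V := fun y => u (ξ + (2 : ℝ) • y)

/-- defect in the unit frame -/
def cD (b : Sp d → ℝ) (ε R : ℝ) (L : (Sp d →L[ℝ] V) →L[ℝ] E) (N : ℕ) (u : Sp d → V) (e : E) : ℝ :=
  DD b ε R ((1 / 2) ^ N) (fo L u) N 0 e

/-- mass in the unit frame -/
def cA (b : Sp d → ℝ) (ε R0 : ℝ) (L : (Sp d →L[ℝ] V) →L[ℝ] E) (N : ℕ) (u : Sp d → V) : ℝ :=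
  ma b ε R0 ((1 / 2) ^ N) (fo L u) N 0

/-- plane functional plus defect in the unit frame -/
def cB (b : Sp d → ℝ) (ε R0 R : ℝ) (L : (Sp d →L[ℝ] V) →L[ℝ] E) (N : ℕ) (u : Sp d → V) (e : E)
    (ν : Sp d) (c : ℝ) : ℝ := bD b ε R0 R ((1 / 2) ^ N) (fo L u) N 0 e ν c

/-- the signed density against a test function -/
def cI (L : (Sp d →L[ℝ] V) →L[ℝ] E) (u : Sp d → V) (e : E) (ζ : Sp d → ℝ) : ℝ :=
  ∫ y, ⟪fo L u y, e⟫_ℝ * ζ y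

variable {L : (Sp d →L[ℝ] V) →L[ℝ] E} {b : Sp d → ℝ}

lemma fo_cont {u : Sp d → V} (hu : TF u) : Continuous (fo L u) := by
  unfold fo
  exact L.continuous.comp (hu.smooth.continuous_fderiv (by simp))

lemma fo_cs {u : Sp d → V} (hu : TF u) : HasCompactSupport (fo L u) := by
  have h : HasCompactSupport (fderiv ℝ u) := hu.supp.fderiv ℝ
  exact h.comp_left (map_zero L)

lemma TF_zm (hSC : StmtSC) (hd : 2 ≤ d) {u : Sp d → V} (hu : TF u) (ξ : Sp d) :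
    TF (zm ξ u) :=
  ((hSC d hd 1 one_pos ξ 2 two_pos).2.2 V V (L := 0) u hu).1

lemma lev_self (N : ℕ) : lev ((1 / 2 : ℝ) ^ N) N = 1 := by
  unfold lev
  rw [← mul_pow]
  norm_num

lemma half_div_two (N : ℕ) : ((1 / 2 : ℝ) ^ N) / 2 = (1 / 2) ^ (N + 1) := by
  rw [pow_succ]; ring

lemma zm_D (hSC : StmtSC) (hd : 2 ≤ d) {M c0 ε : ℝ} (hb : BaseKer 2 M c0 b) (hε : 0 < ε)
    (hε1 : ε ≤ 1) (R : ℝ) (N : ℕ) {u : Sp d → V} (hu : TF u) (ξ : Sp d) (e : E) :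
    DD b ε R ((1 / 2) ^ N) (fo L u) (N + 1) ξ e = cD b ε R L (N + 1) (zm ξ u) e := by
  obtain ⟨-, h1, h2⟩ := hSC d hd 1 one_pos ξ 2 two_pos
  have h3 := (h2 V E L u hu).2
  have h4 := (h1 E M c0 b hb ε hε hε1 (fo L u) (fo_cont hu) (fo_cs hu) ((1 / 2) ^ N)
    (by positivity)).2.1 R (N + 1) 0 e
  rw [half_div_two, ← h3, smul_zero, add_zero] at h4
  exact h4.symm

lemma zm_A (hSC : StmtSC) (hd : 2 ≤ d) {M c0 ε : ℝ} (hb : BaseKer 2 M c0 b) (hε : 0 < ε)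
    (hε1 : ε ≤ 1) (R : ℝ) (N : ℕ) {u : Sp d → V} (hu : TF u) (ξ : Sp d) :
    ma b ε R ((1 / 2) ^ N) (fo L u) (N + 1) ξ = cA b ε R L (N + 1) (zm ξ u) := by
  obtain ⟨-, h1, h2⟩ := hSC d hd 1 one_pos ξ 2 two_pos
  have h3 := (h2 V E L u hu).2
  have h4 := (h1 E M c0 b hb ε hε hε1 (fo L u) (fo_cont hu) (fo_cs hu) ((1 / 2) ^ N)
    (by positivity)).2.2 R (N + 1) 0
  rw [half_div_two, ← h3, smul_zero, add_zero] at h4
  exact h4.symm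

lemma zm_B (hSC : StmtSC) (hSD : StmtSD) (hd : 2 ≤ d) {M c0 ε : ℝ} (hb : BaseKer 2 M c0 b)
    (hε : 0 < ε) (hε1 : ε ≤ 1) (R0 R : ℝ) (N : ℕ) {u : Sp d → V} (hu : TF u) (ξ : Sp d) (e : E)
    (ν : Sp d) (c : ℝ) :
    bD b ε R0 R ((1 / 2) ^ N) (fo L u) (N + 1) ξ e ν c =
      cB b ε R0 R L (N + 1) (zm ξ u) e ν ((c - ⟪ν, ξ⟫_ℝ) / 2) := by
  unfold cB bD
  have h1 := zm_D (L := L) hSC hd hb hε hε1 R N hu ξ e
  unfold cD at h1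
  rw [h1]
  congr 2
  have h3 := ((hSC d hd 1 one_pos ξ 2 two_pos).2.2 V E L u hu).2
  have h4 := hSD.2 d E (fo L u) (by omega) (fo_cont hu) (fo_cs hu) ξ 2 two_pos R0
    ((1 / 2) ^ N) (N + 1) 0 e ν ((c - ⟪ν, ξ⟫_ℝ) / 2) (by positivity)
  rw [half_div_two, ← h3, smul_zero, add_zero] at h4
  have h5 : 2 * ((c - ⟪ν, ξ⟫_ℝ) / 2) + ⟪ν, ξ⟫_ℝ = c := by ring
  rw [h5] at h4
  exact h4.symm

/-- change of variables for the density -/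
lemma cI_zm (hSC : StmtSC) (hd : 2 ≤ d) {u : Sp d → V} (hu : TF u) (ξ : Sp d) (e : E)
    (ζ : Sp d → ℝ) :
    cI L u e ζ = 2 ^ (d - 1) * cI L (zm ξ u) e (fun z => ζ (ξ + (2 : ℝ) • z)) := by
  have h3 := ((hSC d hd 1 one_pos ξ 2 two_pos).2.2 V E L u hu).2
  have h0 : fo L (zm ξ u) = rs ξ 2 (fo L u) := h3
  unfold cI
  rw [h0]
  have h1 := Measure.integral_comp_smul_of_nonneg volume
    (fun w : Sp d => ⟪fo L u (ξ + w), e⟫_ℝ * ζ (ξ + w)) (2 : ℝ) (hR := by norm_num)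
  rw [integral_add_left_eq_self (fun w => ⟪fo L u w, e⟫_ℝ * ζ w) ξ] at h1
  have h2 : ∀ z, ⟪rs ξ 2 (fo L u) z, e⟫_ℝ * ζ (ξ + (2 : ℝ) • z) =
      2 * (⟪fo L u (ξ + (2 : ℝ) • z), e⟫_ℝ * ζ (ξ + (2 : ℝ) • z)) := by
    intro z
    unfold rs
    rw [inner_smul_left]
    simp only [conj_trivial]
    ring
  simp_rw [h2]
  rw [integral_const_mul, h1]
  have hfin : Module.finrank ℝ (Sp d) = d := by simp
  rw [hfin, smul_eq_mul]
  obtain ⟨k, rfl⟩ : ∃ k, d = k + 1 := ⟨d - 1, by omega⟩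
  rw [Nat.add_sub_cancel, pow_succ]
  field_simp

/-- the jump polynomial in the frame of the parent -/
lemma JJ_zm (hSD : StmtSD) (m : ℕ) {u : Sp d → V} (hu : TF u) (ξ ν : Sp d) (γ : ℝ) (z : Sp d) :
    JJ m ν (((γ - ⟪ν, ξ⟫_ℝ) / 2) • ν) 1 (zm ξ u) z =
      JJ m ν (ξ - (⟪ν, ξ⟫_ℝ - γ) • ν) 2 u (ξ + (2 : ℝ) • z) := by
  unfold JJ
  have h1 := fun (c : Sp d) => hSD.1 d V u hu.smooth ξ 2 two_pos m c 1 z
  have e1 : ξ + (2 : ℝ) • (((γ - ⟪ν, ξ⟫_ℝ) / 2) • ν + (6 * 1 : ℝ) • ν) =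
      ξ - (⟪ν, ξ⟫_ℝ - γ) • ν + (6 * 2 : ℝ) • ν := by module
  have e2 : ξ + (2 : ℝ) • (((γ - ⟪ν, ξ⟫_ℝ) / 2) • ν - (6 * 1 : ℝ) • ν) =
      ξ - (⟪ν, ξ⟫_ℝ - γ) • ν - (6 * 2 : ℝ) • ν := by module
  unfold zm
  rw [h1, h1, e1, e2, mul_one]

lemma ht_zm (ξ ν : Sp d) (γ : ℝ) (z : Sp d) :
    ht ν ((γ - ⟪ν, ξ⟫_ℝ) / 2) z = ht ν γ (ξ + (2 : ℝ) • z) / 2 := by
  unfold ht
  rw [inner_add_right, inner_smul_right]
  ring

end CM

end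

end TG
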