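import Pool.Agent.TG.CM1
import Pool.Agent.TG.PF
import Pool.Agent.TG.TQ

/-!
# Trace inequality, module CM, part 2: estimates in one frame and for two consecutive frames
-/

set_option autoImplicit false
set_option linter.unusedSectionVars false

open MeasureTheory Metric Set TrI
open scoped InnerProductSpace ContDiff

namespace TG

noncomputable section

namespace CM

variable {d : ℕ} {V E : Type} [NormedAddCommGroup V] [InnerProductSpace ℝ V]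
  [FiniteDimensional ℝ V] [NormedAddCommGroup E] [InnerProductSpace ℝ E] [FiniteDimensional ℝ E]

variable {L : (Sp d →L[ℝ] V) →L[ℝ] E} {b : Sp d → ℝ}

lemma cD_nonneg (b : Sp d → ℝ) (ε R : ℝ) (L : (Sp d →L[ℝ] V) →L[ℝ] E) (N : ℕ) (u : Sp d → V)
    {e : E} (he : ‖e‖ = 1) : 0 ≤ cD b ε R L N u e := by
  unfold cD DD
  rw [lev_self]
  have h1 : ∀ v : E, 0 ≤ ‖v‖ - ⟪v, e⟫_ℝ := fun v => by
    have := real_inner_le_norm v e
    rw [he, mul_one] at this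
    linarith
  refine mul_nonneg (by simp) (add_nonneg (Finset.sum_nonneg fun l _ =>
    mul_nonneg (by positivity) (integral_nonneg fun y => h1 _)) ?_)
  exact mul_nonneg (by positivity) (integral_nonneg fun y => norm_nonneg _)

lemma bb_unit (ρ : ℝ) (L : (Sp d →L[ℝ] V) →L[ℝ] E) (N : ℕ) (u : Sp d → V) (e : E) (ν : Sp d)
    (c : ℝ) : bb ρ ((1 / 2) ^ N) (fo L u) N 0 e ν c =
      cI L u e (fun y => zR ρ y * ht ν c y ^ 2) := by
  unfold bb cI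
  rw [lev_self]
  simp

lemma cB_eq (b : Sp d → ℝ) (ε R0 R : ℝ) (L : (Sp d →L[ℝ] V) →L[ℝ] E) (N : ℕ) (u : Sp d → V)
    (e : E) (ν : Sp d) (c : ℝ) : cB b ε R0 R L N u e ν c =
      max 0 (cI L u e (fun y => zR R0 y * ht ν c y ^ 2)) + cD b ε R L N u e := by
  unfold cB bD cD
  rw [bb_unit]

lemma cB_ge (b : Sp d → ℝ) (ε R0 R : ℝ) (L : (Sp d →L[ℝ] V) →L[ℝ] E) (N : ℕ) (u : Sp d → V)
    (e : E) (ν : Sp d) (c : ℝ) :
    cI L u e (fun y => zR R0 y * ht ν c y ^ 2) + cD b ε R L N u e ≤ cB b ε R0 R L N u e ν c := by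
  rw [cB_eq]
  linarith [le_max_right 0 (cI L u e (fun y => zR R0 y * ht ν c y ^ 2))]

lemma cD_le_cB (b : Sp d → ℝ) (ε R0 R : ℝ) (L : (Sp d →L[ℝ] V) →L[ℝ] E) (N : ℕ) (u : Sp d → V)
    (e : E) (ν : Sp d) (c : ℝ) : cD b ε R L N u e ≤ cB b ε R0 R L N u e ν c := by
  rw [cB_eq]
  linarith [le_max_left 0 (cI L u e (fun y => zR R0 y * ht ν c y ^ 2))]

lemma cB_nonneg (b : Sp d → ℝ) (ε R0 R : ℝ) (L : (Sp d →L[ℝ] V) →L[ℝ] E) (N : ℕ) (u : Sp d → V)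
    {e : E} (he : ‖e‖ = 1) (ν : Sp d) (c : ℝ) : 0 ≤ cB b ε R0 R L N u e ν c :=
  (cD_nonneg b ε R L N u he).trans (cD_le_cB b ε R0 R L N u e ν c)

/-- comparison of test functions at the unit scale -/
lemma Zc (hZ : StmtZ) (hd : 1 ≤ d) {M c ε : ℝ} (hε : 0 < ε) (hε1 : ε ≤ 1)
    (hb : BaseKer 2 M c b) (L : (Sp d →L[ℝ] V) →L[ℝ] E) : ∃ C : ℝ, 0 < C ∧
    ∀ (R : ℝ), 3 ≤ R → ∀ (N : ℕ) (u : Sp d → V), TF u → ∀ e : E, ‖e‖ = 1 →
    ∀ (ζ₁ ζ₂ : Sp d → ℝ) (K : ℝ), TFn 2 K ζ₁ → TFn 2 K ζ₂ → (∀ y, ζ₁ y ≤ ζ₂ y) →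
      (∀ y, R - 2 ≤ ‖y‖ → ζ₁ y = 0) → (∀ y, R - 2 ≤ ‖y‖ → ζ₂ y = 0) →
      cI L u e ζ₁ ≤ cI L u e ζ₂ + C * K * cD b ε R L N u e := by
  obtain ⟨C, hC, h⟩ := exists_Zc hZ hd hε hε1 hb
  refine ⟨C, hC, fun R hR N u hu e he ζ₁ ζ₂ K h1 h2 h12 hs1 hs2 => ?_⟩
  exact h E (fo L u) (fo_cont hu) (fo_cs hu) R hR N e he 0 ζ₁ ζ₂ K h1 h2 h12
    (fun y hy => hs1 y (by simpa using hy)) (fun y hy => hs2 y (by simpa using hy))

lemma abs_ht_le {ν : Sp d} (hν : ‖ν‖ = 1) (c : ℝ) (y : Sp d) : |ht ν c y| ≤ ‖y‖ + |c| := by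
  unfold ht
  have h1 := abs_real_inner_le_norm ν y
  rw [hν, one_mul] at h1
  calc |⟪ν, y⟫_ℝ - c| ≤ |⟪ν, y⟫_ℝ| + |c| := abs_sub _ _
    _ ≤ _ := by linarith

lemma abs_ht_ge {ν : Sp d} (hν : ‖ν‖ = 1) (c : ℝ) (y : Sp d) : |c| - ‖y‖ ≤ |ht ν c y| := by
  unfold ht
  have h1 := abs_real_inner_le_norm ν y
  rw [hν, one_mul] at h1
  have h2 : |c| ≤ |⟪ν, y⟫_ℝ - c| + |⟪ν, y⟫_ℝ| := by
    have := abs_sub_abs_le_abs_sub c ⟪ν, y⟫_ℝ
    rw [abs_sub_comm] at this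
    linarith
  linarith

/-- (L2) a plane with small functional passes near the mass -/
lemma center (hZ : StmtZ) (hd : 1 ≤ d) {M c0 ε : ℝ} (hε : 0 < ε) (hε1 : ε ≤ 1)
    (hb : BaseKer 2 M c0 b) (L : (Sp d →L[ℝ] V) →L[ℝ] E) {R0 : ℝ} (hR0 : 100 ≤ R0) :
    ∃ κ : ℝ, 0 < κ ∧ ∀ (R : ℝ), 4 * R0 + 10 ≤ R → ∀ (N : ℕ) (u : Sp d → V), TF u →
      ∀ e : E, ‖e‖ = 1 → ∀ (ν : Sp d) (c : ℝ), ‖ν‖ = 1 → |c| ≤ 4 * R0 → ∀ ρ : ℝ, 1 ≤ ρ →
      ρ + 1 ≤ R0 → ∀ a : ℝ, 0 < a → a ≤ cI L u e (zR ρ) → cB b ε R0 R L N u e ν c ≤ κ * a →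
      |c| ≤ ρ + 2 := by
  obtain ⟨C, hC, hZc⟩ := Zc hZ hd hε hε1 hb L
  obtain ⟨C1, hC1, h1⟩ := exists_TFn_zR d 2
  obtain ⟨C2, hC2, h2⟩ := exists_TFn_ht2 d 2 R0 (4 * R0) (by linarith)
  set K := max C1 C2 with hK
  have hKp : 0 < K := lt_max_of_lt_left hC1
  refine ⟨1 / (2 * (1 + C * K)), by positivity, ?_⟩
  intro R hR N u hu e he ν c hν hc ρ hρ hρR a ha hmass hsmall
  by_contra hcon
  push Not at hcon
  have h3 : cI L u e (zR ρ) ≤ cI L u e (fun y => zR R0 y * ht ν c y ^ 2) +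
      C * K * cD b ε R L N u e := by
    refine hZc R (by linarith) N u hu e he _ _ K ((h1 ρ hρ).mono (le_max_left _ _))
      ((h2 ν c hν hc).mono (le_max_right _ _)) (fun y => ?_) (fun y hy => ?_) (fun y hy => ?_)
    · by_cases hy : ‖y‖ ≤ ρ + 1
      · rw [zR_eq_one (ρ := R0) (by linarith), one_mul]
        have h4 := abs_ht_ge hν c y
        have h5 : 1 ≤ |ht ν c y| := by linarith
        have h6 : 1 ≤ ht ν c y ^ 2 := by
          rw [← sq_abs]; nlinarith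
        exact (zR_le_one _ _).trans h6
      · push Not at hy
        rw [zR_eq_zero hy.le]
        exact mul_nonneg (zR_nonneg _ _) (sq_nonneg _)
    · exact zR_eq_zero (by linarith)
    · rw [zR_eq_zero (by linarith), zero_mul]
  have h4 := cB_ge b ε R0 R L N u e ν c
  have h5 := cD_le_cB b ε R0 R L N u e ν c
  have h6 := cD_nonneg b ε R L N u he
  have h7 : a ≤ (1 + C * K) * cB b ε R0 R L N u e ν c := by
    have h8 : C * K * cD b ε R L N u e ≤ C * K * cB b ε R0 R L N u e ν c :=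
      mul_le_mul_of_nonneg_left h5 (by positivity)
    linarith
  have h9 : (1 + C * K) * cB b ε R0 R L N u e ν c ≤ (1 + C * K) * (1 / (2 * (1 + C * K)) * a) :=
    mul_le_mul_of_nonneg_left hsmall (by positivity)
  have h10 : (1 + C * K) * (1 / (2 * (1 + C * K)) * a) = a / 2 := by field_simp
  linarith

/-- (L3) comparison of the functionals of two planes -/
lemma planes (hZ : StmtZ) (hd : 1 ≤ d) {M c0 ε : ℝ} (hε : 0 < ε) (hε1 : ε ≤ 1)
    (hb : BaseKer 2 M c0 b) (L : (Sp d →L[ℝ] V) →L[ℝ] E) {R0 : ℝ} (hR0 : 100 ≤ R0) :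
    ∃ C : ℝ, 0 < C ∧ ∀ (R : ℝ), 4 * R0 + 10 ≤ R → ∀ (N : ℕ) (u : Sp d → V), TF u →
      ∀ e : E, ‖e‖ = 1 → ∀ (ν ν' : Sp d) (c c' σ θ : ℝ), ‖ν‖ = 1 → ‖ν'‖ = 1 → |c| ≤ 4 * R0 →
      |c'| ≤ 4 * R0 → σ ^ 2 = 1 → 0 ≤ θ → θ ≤ 1 →
      (∀ y, |ht ν c y - σ * ht ν' c' y| ≤ θ * (Real.sqrt d + ‖y‖)) →
      cB b ε R0 R L N u e ν c ≤ C * (cB b ε R0 R L N u e ν' c' +
        θ ^ 2 * max 0 (cI L u e (zR R0))) := by
  obtain ⟨C, hC, hZc⟩ := Zc hZ hd hε hε1 hb L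
  obtain ⟨C1, hC1, h1⟩ := exists_TFn_zR d 2
  obtain ⟨C2, hC2, h2⟩ := exists_TFn_ht2 d 2 R0 (4 * R0) (by linarith)
  set A : ℝ := 2 * (Real.sqrt d + (R0 + 1)) ^ 2 with hA
  have hA0 : 0 ≤ A := by positivity
  set K := 2 * C2 + A * C1 with hK
  have hKp : 0 < K := by positivity
  refine ⟨2 + A + C * K + 1, by positivity, ?_⟩
  intro R hR N u hu e he ν ν' c c' σ θ hν hν' hc hc' hσ hθ hθ1 hdist
  have hθ2 : θ ^ 2 ≤ 1 := by nlinarith
  have h3 : cI L u e (fun y => zR R0 y * ht ν c y ^ 2) ≤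
      cI L u e (fun y => 2 * (zR R0 y * ht ν' c' y ^ 2) + (A * θ ^ 2) * zR R0 y) +
      C * K * cD b ε R L N u e := by
    refine hZc R (by linarith) N u hu e he _ _ K ((h2 ν c hν hc).mono ?_) ?_ (fun y => ?_)
      (fun y hy => ?_) (fun y hy => ?_)
    · rw [hK]; nlinarith [mul_nonneg hA0 hC1.le]
    · have h4 := ((h2 ν' c' hν' hc').const_mul 2).add
        (((h1 R0 (by linarith)).const_mul (A * θ ^ 2)))
      refine h4.mono ?_
      rw [abs_of_nonneg (by norm_num : (0 : ℝ) ≤ 2), abs_of_nonneg (by positivity), hK]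
      have : A * θ ^ 2 * C1 ≤ A * 1 * C1 := by gcongr
      linarith
    · by_cases hy : ‖y‖ ≤ R0 + 1
      · have h5 := hdist y
        have h6 : |ht ν c y - σ * ht ν' c' y| ≤ θ * (Real.sqrt d + (R0 + 1)) :=
          h5.trans (mul_le_mul_of_nonneg_left (by linarith) hθ)
        have h7 : (ht ν c y - σ * ht ν' c' y) ^ 2 ≤ (θ * (Real.sqrt d + (R0 + 1))) ^ 2 := by
          rw [← sq_abs]
          exact pow_le_pow_left₀ (abs_nonneg _) h6 2
        have h8 : ht ν c y ^ 2 ≤ 2 * ht ν' c' y ^ 2 + A * θ ^ 2 := by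
          have e1 : (σ * ht ν' c' y) ^ 2 = ht ν' c' y ^ 2 := by rw [mul_pow, hσ, one_mul]
          have e2 : A * θ ^ 2 = 2 * (θ * (Real.sqrt d + (R0 + 1))) ^ 2 := by rw [hA]; ring
          nlinarith [sq_nonneg (ht ν c y - 2 * (σ * ht ν' c' y))]
        have h9 := mul_le_mul_of_nonneg_left h8 (zR_nonneg R0 y)
        linarith
      · push Not at hy
        rw [zR_eq_zero hy.le]
        simp
    · rw [zR_eq_zero (by linarith), zero_mul]
    · rw [zR_eq_zero (by linarith)]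
      simp
  have h4 : cI L u e (fun y => 2 * (zR R0 y * ht ν' c' y ^ 2) + (A * θ ^ 2) * zR R0 y) =
      2 * cI L u e (fun y => zR R0 y * ht ν' c' y ^ 2) + (A * θ ^ 2) * cI L u e (zR R0) := by
    unfold cI
    have hc1 : Continuous (fun y => ⟪fo L u y, e⟫_ℝ) := (fo_cont hu).inner continuous_const
    have hcs : HasCompactSupport (fun y => ⟪fo L u y, e⟫_ℝ) :=
      (fo_cs hu).comp_left (g := fun v => ⟪v, e⟫_ℝ) (inner_zero_left _)
    have hi1 : Integrable (fun y => ⟪fo L u y, e⟫_ℝ * (zR R0 y * ht ν' c' y ^ 2)) :=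
      (hc1.mul (h2 ν' c' hν' hc').smooth.continuous).integrable_of_hasCompactSupport
        hcs.mul_right
    have hi2 : Integrable (fun y => ⟪fo L u y, e⟫_ℝ * zR R0 y) :=
      (hc1.mul (h1 R0 (by linarith)).smooth.continuous).integrable_of_hasCompactSupport
        hcs.mul_right
    rw [← integral_const_mul, ← integral_const_mul, ← integral_add (hi1.const_mul _)
      (hi2.const_mul _)]
    refine integral_congr_ae (Filter.Eventually.of_forall fun y => ?_)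
    simp only
    ring
  rw [h4] at h3
  have h5 := cD_nonneg b ε R L N u he
  have h6 := cD_le_cB b ε R0 R L N u e ν' c'
  have h7 := cB_ge b ε R0 R L N u e ν' c'
  have h8 : cI L u e (zR R0) ≤ max 0 (cI L u e (zR R0)) := le_max_right _ _
  have h9 : 0 ≤ max 0 (cI L u e (zR R0)) := le_max_left _ _
  have hB := cB_nonneg b ε R0 R L N u he ν' c'
  have h10 : max 0 (cI L u e (fun y => zR R0 y * ht ν c y ^ 2)) ≤
      2 * cB b ε R0 R L N u e ν' c' + A * θ ^ 2 * max 0 (cI L u e (zR R0)) +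
        C * K * cD b ε R L N u e := by
    refine max_le (by positivity) ?_
    have h11 : A * θ ^ 2 * cI L u e (zR R0) ≤ A * θ ^ 2 * max 0 (cI L u e (zR R0)) :=
      mul_le_mul_of_nonneg_left h8 (by positivity)
    linarith
  rw [cB_eq b ε R0 R L N u e ν c]
  have h12 : C * K * cD b ε R L N u e ≤ C * K * cB b ε R0 R L N u e ν' c' :=
    mul_le_mul_of_nonneg_left h6 (by positivity)
  have h13 : 0 ≤ θ ^ 2 * max 0 (cI L u e (zR R0)) := by positivity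
  have h14 : 0 ≤ (2 + C * K + 1) * (θ ^ 2 * max 0 (cI L u e (zR R0))) := by positivity
  have h15 : 0 ≤ A * cB b ε R0 R L N u e ν' c' := by positivity
  linarith

/-- (T2)-(T5): two consecutive frames -/
structure Step (b : Sp d → ℝ) (ε R0 R C : ℝ) (L : (Sp d →L[ℝ] V) →L[ℝ] E) (N : ℕ)
    (u : Sp d → V) (ξ : Sp d) (e e' : E) : Prop where
  dir : ∀ (ζ : Sp d → ℝ) (K : ℝ), TFn 2 K ζ → (∀ y, R - 1 ≤ ‖y‖ → ζ y = 0) →
    |cI L u e ζ - cI L u e' ζ| ≤ C * K * (cD b ε R L N u e + cD b ε R L (N + 1) (zm ξ u) e')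
  bstep : ∀ (ν : Sp d) (c : ℝ), ‖ν‖ = 1 → |c| ≤ 4 * R0 →
    cB b ε R0 R L N u e ν c ≤ C * (cB b ε R0 R L (N + 1) (zm ξ u) e' ν ((c - ⟪ν, ξ⟫_ℝ) / 2) +
      cD b ε R L N u e)
  far : ∀ (ν : Sp d) (c : ℝ), ‖ν‖ = 1 → |c| ≤ 4 * R0 →
    max 0 (cI L u e (fun y => zR R0 y * ht ν c y ^ 2)) ≤
      C * (cA b ε R0 L (N + 1) (zm ξ u) + cD b ε R L N u e + cD b ε R L (N + 1) (zm ξ u) e')

lemma cI_sub (L : (Sp d →L[ℝ] V) →L[ℝ] E) {u : Sp d → V} (hu : TF u) (e e' : E)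
    {ζ : Sp d → ℝ} (hζ : Continuous ζ) :
    cI L u e ζ - cI L u e' ζ = ∫ y, ⟪fo L u y, e - e'⟫_ℝ * ζ y := by
  unfold cI
  have hi : ∀ e : E, Integrable (fun y => ⟪fo L u y, e⟫_ℝ * ζ y) := fun e => by
    have hc1 : Continuous (fun y => ⟪fo L u y, e⟫_ℝ) := (fo_cont hu).inner continuous_const
    have hcs : HasCompactSupport (fun y => ⟪fo L u y, e⟫_ℝ) :=
      (fo_cs hu).comp_left (g := fun v => ⟪v, e⟫_ℝ) (inner_zero_left _)
    exact (hc1.mul hζ).integrable_of_hasCompactSupport hcs.mul_right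
  rw [← integral_sub (hi e) (hi e')]
  refine integral_congr_ae (Filter.Eventually.of_forall fun y => ?_)
  beta_reduce
  rw [inner_sub_right]
  ring

lemma exists_step (hTW : StmtTW) (hSC : StmtSC) (hSD : StmtSD) (hd : 2 ≤ d) {M c0 ε : ℝ}
    (hε : 0 < ε) (hε1 : ε ≤ 1) (hb : BaseKer 2 M c0 b) (L : (Sp d →L[ℝ] V) →L[ℝ] E) {R0 : ℝ}
    (hR0 : 100 + 8 * d ≤ R0) : ∃ C : ℝ, 0 < C ∧ ∀ (R : ℝ), 4 * R0 + 10 ≤ R → ∀ (N : ℕ)
      (u : Sp d → V), TF u → ∀ (ξ : Sp d) (e e' : E), ‖ξ‖ ≤ Real.sqrt d → ‖e‖ = 1 → ‖e'‖ = 1 →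
      Step b ε R0 R C L N u ξ e e' := by
  obtain ⟨C, hC, h⟩ := hTW d (by omega) M c0 ε hε hε1 b hb R0 hR0
  refine ⟨C, hC, fun R hR N u hu ξ e e' hξ he he' => ?_⟩
  obtain ⟨-, h2, -, h4⟩ := h E R hR (fo L u) (fo_cont hu) (fo_cs hu) N ξ e e' hξ he he'
  refine ⟨fun ζ K hζ hs => ?_, fun ν c hν hc => ?_, fun ν c hν hc => ?_⟩
  · rw [cI_sub L hu e e' hζ.smooth.continuous]
    have := h2 ζ K hζ hs
    rw [zm_D hSC hd hb hε hε1 R N hu ξ e'] at this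
    exact this
  · have := (h4 ν c hν hc).1
    rw [zm_B hSC hSD hd hb hε hε1 R0 R N hu ξ e' ν c] at this
    exact this
  · have := (h4 ν c hν hc).2
    rw [zm_D hSC hd hb hε hε1 R N hu ξ e', zm_A hSC hd hb hε hε1 R0 N hu ξ, bb_unit] at this
    exact this

lemma exists_unit (hd : 1 ≤ d) : ∃ ν : Sp d, ‖ν‖ = 1 :=
  ⟨EuclideanSpace.single ⟨0, by omega⟩ 1, by simp⟩

/-- (L1) bound of the mass -/
lemma massle (hZ : StmtZ) (hd : 1 ≤ d) {M c0 ε : ℝ} (hε : 0 < ε) (hε1 : ε ≤ 1)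
    (hb : BaseKer 2 M c0 b) (L : (Sp d →L[ℝ] V) →L[ℝ] E) {R0 : ℝ} (hR0 : 100 ≤ R0) {CS : ℝ}
    (hCS : 0 < CS) :
    ∃ C : ℝ, 0 < C ∧ ∀ (R : ℝ), 4 * R0 + 10 ≤ R → ∀ (N : ℕ) (u : Sp d → V), TF u →
      ∀ (ξ : Sp d) (e e' : E), ‖e‖ = 1 → ‖e'‖ = 1 → Step b ε R0 R CS L N u ξ e e' →
      max 0 (cI L u e (zR R0)) ≤ C * (max 0 (cA b ε R0 L (N + 1) (zm ξ u)) + cD b ε R L N u e +
        cD b ε R L (N + 1) (zm ξ u) e') := by
  obtain ⟨C, hC, hZc⟩ := Zc hZ hd hε hε1 hb L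
  obtain ⟨C1, hC1, h1⟩ := exists_TFn_zR d 2
  obtain ⟨C2, hC2, h2⟩ := exists_TFn_ht2 d 2 R0 (4 * R0) (by linarith)
  obtain ⟨ν, hν⟩ := exists_unit (d := d) hd
  set K := max C1 C2 with hK
  have hKp : 0 < K := lt_max_of_lt_left hC1
  refine ⟨CS + C * K, by positivity, ?_⟩
  intro R hR N u hu ξ e e' he he' hS
  have hc : |R0 + 3| ≤ 4 * R0 := by rw [abs_of_nonneg (by linarith)]; linarith
  have h3 : cI L u e (zR R0) ≤ cI L u e (fun y => zR R0 y * ht ν (R0 + 3) y ^ 2) +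
      C * K * cD b ε R L N u e := by
    refine hZc R (by linarith) N u hu e he _ _ K ((h1 R0 (by linarith)).mono (le_max_left _ _))
      ((h2 ν (R0 + 3) hν hc).mono (le_max_right _ _)) (fun y => ?_) (fun y hy => ?_)
      (fun y hy => ?_)
    · by_cases hy : ‖y‖ ≤ R0 + 1
      · have h4 := abs_ht_ge hν (R0 + 3) y
        rw [abs_of_nonneg (by linarith : (0 : ℝ) ≤ R0 + 3)] at h4
        have h5 : 1 ≤ |ht ν (R0 + 3) y| := by linarith
        have h6 : 1 ≤ ht ν (R0 + 3) y ^ 2 := by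
          rw [← sq_abs]; nlinarith
        exact le_mul_of_one_le_right (zR_nonneg _ _) h6
      · push Not at hy
        rw [zR_eq_zero hy.le, zero_mul]
    · exact zR_eq_zero (by linarith)
    · rw [zR_eq_zero (by linarith), zero_mul]
  have h4 := hS.far ν (R0 + 3) hν hc
  have h5 := cD_nonneg b ε R L N u he
  have h6 := cD_nonneg b ε R L (N + 1) (zm ξ u) he'
  have h7 : cA b ε R0 L (N + 1) (zm ξ u) ≤ max 0 (cA b ε R0 L (N + 1) (zm ξ u)) :=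
    le_max_right _ _
  have h8 : 0 ≤ max 0 (cA b ε R0 L (N + 1) (zm ξ u)) := le_max_left _ _
  refine max_le (by positivity) ?_
  have h9 := le_max_right 0 (cI L u e (fun y => zR R0 y * ht ν (R0 + 3) y ^ 2))
  have h10 : CS * (cA b ε R0 L (N + 1) (zm ξ u) + cD b ε R L N u e +
      cD b ε R L (N + 1) (zm ξ u) e') ≤ CS * (max 0 (cA b ε R0 L (N + 1) (zm ξ u)) +
      cD b ε R L N u e + cD b ε R L (N + 1) (zm ξ u) e') :=
    mul_le_mul_of_nonneg_left (by linarith) hCS.le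
  have h11 : 0 ≤ C * K * (max 0 (cA b ε R0 L (N + 1) (zm ξ u)) +
      cD b ε R L (N + 1) (zm ξ u) e') := by positivity
  linarith

/-- (L5) transfer of the mass near p to the next frame -/
lemma transfer (hZ : StmtZ) (hSC : StmtSC) (hd : 2 ≤ d) {M c0 ε : ℝ} (hε : 0 < ε) (hε1 : ε ≤ 1)
    (hb : BaseKer 2 M c0 b) (L : (Sp d →L[ℝ] V) →L[ℝ] E) {R0 : ℝ} (hR0 : 100 + 8 * d ≤ R0)
    {CS : ℝ} (hCS : 0 < CS) :
    ∃ C : ℝ, 0 < C ∧ ∀ (R : ℝ), 4 * R0 + 10 ≤ R → ∀ (N : ℕ) (u : Sp d → V), TF u →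
      ∀ (ξ : Sp d) (e e' : E), ‖ξ‖ ≤ Real.sqrt d → ‖e‖ = 1 → ‖e'‖ = 1 →
      Step b ε R0 R CS L N u ξ e e' →
      ∀ (p : Sp d) (ρ ρ' : ℝ), 1 ≤ ρ → 1 ≤ ρ' → ρ' ≤ R0 → ‖p‖ + ρ + 1 ≤ 4 * R0 →
      (ρ + 1 + ‖p‖ + Real.sqrt d) / 2 ≤ ρ' →
      cI L u e (fun y => zR ρ (y - p)) ≤ C * (max 0 (cI L (zm ξ u) e' (zR ρ')) +
        cD b ε R L N u e + cD b ε R L (N + 1) (zm ξ u) e') := by
  obtain ⟨C, hC, hZc⟩ := Zc hZ (by omega : 1 ≤ d) hε hε1 hb L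
  obtain ⟨C1, hC1, h1⟩ := exists_TFn_zR d 2
  refine ⟨CS * C1 + 2 ^ (d - 1) + 2 ^ (d - 1) * (C * (4 * C1)), by positivity, ?_⟩
  intro R hR N u hu ξ e e' hξ he he' hS p ρ ρ' hρ hρ' hρR hp hρρ
  have hu' : TF (zm ξ u) := TF_zm hSC hd hu ξ
  have ht1 : TFn 2 C1 (fun y : Sp d => zR ρ (y - p)) := by
    have h2 := (h1 ρ hρ).comp_aff (-p) 1 (T := 1) le_rfl (by simp)
    simp only [one_pow, one_mul, one_smul] at h2
    have h3 : (fun y : Sp d => zR ρ (-p + y)) = fun y => zR ρ (y - p) := by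
      funext y; congr 1; abel
    rwa [h3] at h2
  have h2 := hS.dir _ C1 ht1 (fun y hy => by
    refine zR_eq_zero ?_
    have h3 : ‖y‖ ≤ ‖y - p‖ + ‖p‖ := by
      calc ‖y‖ = ‖(y - p) + p‖ := by congr 1; abel
        _ ≤ _ := norm_add_le _ _
    linarith)
  have h3 := (abs_le.mp h2).2
  have h4 : cI L u e' (fun y => zR ρ (y - p)) =
      2 ^ (d - 1) * cI L (zm ξ u) e' (fun z => zR ρ (ξ + (2 : ℝ) • z - p)) :=
    cI_zm hSC hd hu ξ e' _
  have h5 : cI L (zm ξ u) e' (fun z => zR ρ (ξ + (2 : ℝ) • z - p)) ≤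
      cI L (zm ξ u) e' (zR ρ') + C * (4 * C1) * cD b ε R L (N + 1) (zm ξ u) e' := by
    have ht2 : TFn 2 (4 * C1) (fun z : Sp d => zR ρ (ξ + (2 : ℝ) • z - p)) := by
      have h6 := ht1.comp_aff ξ 2 (T := 2) (by norm_num) (by norm_num)
      norm_num at h6
      exact h6
    have hz : ∀ z : Sp d, zR ρ (ξ + (2 : ℝ) • z - p) ≠ 0 → ‖z‖ ≤ ρ' := by
      intro z hz
      by_contra hcon
      push Not at hcon
      refine hz (zR_eq_zero ?_)
      have h7 : 2 * ‖z‖ ≤ ‖ξ + (2 : ℝ) • z - p‖ + ‖ξ‖ + ‖p‖ := by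
        have h8 : (2 : ℝ) • z = (ξ + (2 : ℝ) • z - p) + (-ξ) + p := by abel
        have h9 : ‖(2 : ℝ) • z‖ = 2 * ‖z‖ := by rw [norm_smul]; norm_num
        rw [← h9]
        nth_rewrite 1 [h8]
        refine (norm_add₃_le).trans (le_of_eq ?_)
        rw [norm_neg]
      linarith
    refine hZc R (by linarith) (N + 1) (zm ξ u) hu' e' he' _ _ (4 * C1) ht2
      ((h1 ρ' hρ').mono (by linarith)) (fun z => ?_) (fun z hz' => ?_) (fun z hz' => ?_)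
    · by_cases h : zR ρ (ξ + (2 : ℝ) • z - p) = 0
      · rw [h]; exact zR_nonneg _ _
      · rw [zR_eq_one (hz z h)]; exact zR_le_one _ _
    · by_contra h
      have := hz z h
      linarith
    · exact zR_eq_zero (by linarith)
  have h6 := cD_nonneg b ε R L N u he
  have h7 := cD_nonneg b ε R L (N + 1) (zm ξ u) he'
  have h8 : cI L (zm ξ u) e' (zR ρ') ≤ max 0 (cI L (zm ξ u) e' (zR ρ')) := le_max_right _ _
  have h9 : 0 ≤ max 0 (cI L (zm ξ u) e' (zR ρ')) := le_max_left _ _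
  have h2d : (0 : ℝ) < 2 ^ (d - 1) := by positivity
  have h10 : (2 : ℝ) ^ (d - 1) * cI L (zm ξ u) e' (fun z => zR ρ (ξ + (2 : ℝ) • z - p)) ≤
      2 ^ (d - 1) * (max 0 (cI L (zm ξ u) e' (zR ρ')) +
        C * (4 * C1) * cD b ε R L (N + 1) (zm ξ u) e') :=
    mul_le_mul_of_nonneg_left (by linarith) h2d.le
  have h11 : 0 ≤ (CS * C1 + 2 ^ (d - 1) * (C * (4 * C1))) *
    max 0 (cI L (zm ξ u) e' (zR ρ')) := by positivity
  have h12 : 0 ≤ (2 ^ (d - 1) + 2 ^ (d - 1) * (C * (4 * C1))) * cD b ε R L N u e := by positivity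
  have h13 : 0 ≤ (2 : ℝ) ^ (d - 1) * cD b ε R L (N + 1) (zm ξ u) e' := by positivity
  linarith

/-- (L4) the flatness hypothesis -/
lemma flat (hZ : StmtZ) (hd : 1 ≤ d) {M c0 ε : ℝ} (hε : 0 < ε) (hε1 : ε ≤ 1)
    (hb : BaseKer 2 M c0 b) (L : (Sp d →L[ℝ] V) →L[ℝ] E) {R0 : ℝ} (hR0 : 100 ≤ R0) {κ : ℝ}
    (hκ : 0 < κ) :
    ∃ κ' : ℝ, 0 < κ' ∧ ∀ (R : ℝ), 4 * R0 + 10 ≤ R → ∀ (N : ℕ) (u : Sp d → V), TF u →
      ∀ e : E, ‖e‖ = 1 → ∀ (ν : Sp d) (c : ℝ), ∀ ρ : ℝ, 1 ≤ ρ → ρ + 1 ≤ R0 / 3 →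
      ∀ a : ℝ, 0 < a → a ≤ cI L u e (zR ρ) → cB b ε R0 R L N u e ν c ≤ κ' * a →
      cA b ε R0 L N u * cB b ε R0 R L N u e ν c ≤ κ' * a ^ 2 →
      Flat b ε R0 R κ (fo L u) N e ν c ∧ a / 2 ≤ ∫ y, ⟪fo L u y, e⟫_ℝ * zR (R0 / 3) y := by
  obtain ⟨C, hC, hZc⟩ := Zc hZ hd hε hε1 hb L
  obtain ⟨C1, hC1, h1⟩ := exists_TFn_zR d 2
  refine ⟨min (κ / 4) (1 / (2 * (C * C1))), by positivity, ?_⟩
  intro R hR N u hu e he ν c ρ hρ hρR a ha hmass hsmall hsmall2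
  have hk1 : min (κ / 4) (1 / (2 * (C * C1))) ≤ κ / 4 := min_le_left _ _
  have hk2 : min (κ / 4) (1 / (2 * (C * C1))) ≤ 1 / (2 * (C * C1)) := min_le_right _ _
  have h3 : cI L u e (zR ρ) ≤ cI L u e (zR (R0 / 3)) + C * C1 * cD b ε R L N u e := by
    refine hZc R (by linarith) N u hu e he _ _ C1 (h1 ρ hρ) (h1 (R0 / 3) (by linarith))
      (fun y => ?_) (fun y hy => zR_eq_zero (by linarith)) (fun y hy => zR_eq_zero (by linarith))
    by_cases hy : ‖y‖ ≤ ρ + 1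
    · rw [zR_eq_one (ρ := R0 / 3) (by linarith)]
      exact zR_le_one _ _
    · push Not at hy
      rw [zR_eq_zero hy.le]
      exact zR_nonneg _ _
  have h4 := cD_le_cB b ε R0 R L N u e ν c
  have h5 : C * C1 * cD b ε R L N u e ≤ a / 2 := by
    have h6 : cD b ε R L N u e ≤ 1 / (2 * (C * C1)) * a :=
      (h4.trans hsmall).trans (mul_le_mul_of_nonneg_right hk2 ha.le)
    have h7 := mul_le_mul_of_nonneg_left h6 (by positivity : 0 ≤ C * C1)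
    have h8 : C * C1 * (1 / (2 * (C * C1)) * a) = a / 2 := by field_simp
    linarith
  have h6 : a / 2 ≤ cI L u e (zR (R0 / 3)) := by linarith
  have h6' : a / 2 ≤ ∫ y, ⟪fo L u y, e⟫_ℝ * zR (R0 / 3) y := h6
  refine ⟨⟨by linarith, ?_, ?_⟩, h6'⟩
  · change cB b ε R0 R L N u e ν c ≤ _
    refine hsmall.trans ?_
    have h7 : min (κ / 4) (1 / (2 * (C * C1))) * a ≤ κ / 4 * a :=
      mul_le_mul_of_nonneg_right hk1 ha.le
    have h8 := mul_le_mul_of_nonneg_left h6' hκ.le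
    have h9 : 0 < κ * a := by positivity
    linarith
  · change cA b ε R0 L N u * cB b ε R0 R L N u e ν c ≤ _
    refine hsmall2.trans ?_
    have h7 : min (κ / 4) (1 / (2 * (C * C1))) * a ^ 2 ≤ κ / 4 * a ^ 2 :=
      mul_le_mul_of_nonneg_right hk1 (by positivity)
    have h8 : (a / 2) ^ 2 ≤ (∫ y, ⟪fo L u y, e⟫_ℝ * zR (R0 / 3) y) ^ 2 :=
      pow_le_pow_left₀ (by positivity) h6' 2
    have h9 := mul_le_mul_of_nonneg_left h8 hκ.le
    linarith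

lemma cA_nonneg (b : Sp d → ℝ) (ε R0 : ℝ) (L : (Sp d →L[ℝ] V) →L[ℝ] E) (N : ℕ) (u : Sp d → V) :
    0 ≤ cA b ε R0 L N u := by
  unfold cA ma
  rw [lev_self]
  exact mul_nonneg (by simp) (integral_nonneg fun y => norm_nonneg _)

lemma tang_orth {ν : Sp d} (hν : ‖ν‖ = 1) (y : Sp d) : ⟪ν, tang ν y⟫_ℝ = 0 := by
  unfold tang
  rw [inner_sub_right, inner_smul_right, real_inner_self_eq_norm_sq, hν]
  ring

lemma tang_norm_le {ν : Sp d} (hν : ‖ν‖ = 1) (y : Sp d) : ‖tang ν y‖ ≤ ‖y‖ := by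
  have h1 := tang_orth hν y
  have h2 : y = tang ν y + ⟪ν, y⟫_ℝ • ν := by unfold tang; abel
  have h3 : ‖y‖ ^ 2 = ‖tang ν y‖ ^ 2 + ⟪ν, y⟫_ℝ ^ 2 := by
    have h1' : ⟪tang ν y, ν⟫_ℝ = 0 := by rw [real_inner_comm]; exact h1
    nth_rewrite 1 [h2]
    rw [norm_add_sq_real, inner_smul_right, h1', norm_smul, hν]
    rw [mul_one, Real.norm_eq_abs, sq_abs]
    ring
  nlinarith [norm_nonneg y, norm_nonneg (tang ν y), sq_nonneg ⟪ν, y⟫_ℝ]

lemma norm_le_tang {ν : Sp d} (hν : ‖ν‖ = 1) (y : Sp d) : ‖y‖ ≤ ‖tang ν y‖ + |⟪ν, y⟫_ℝ| := by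
  have h2 : y = tang ν y + ⟪ν, y⟫_ℝ • ν := by unfold tang; abel
  nth_rewrite 1 [h2]
  refine (norm_add_le _ _).trans (le_of_eq ?_)
  rw [norm_smul, hν, mul_one, Real.norm_eq_abs]

lemma tang_cont (ν : Sp d) : Continuous (fun y : Sp d => tang ν y) := by
  unfold tang
  fun_prop

lemma JJ_cont (m : ℕ) (hd : 1 ≤ d) {u : Sp d → V} (hu : TF u) (ν q : Sp d) {r : ℝ} (hr : 0 < r) :
    Continuous (fun y => JJ m ν q r u y) := by
  unfold JJ
  have h1 := fun c => (stmtTQ d V m u hd hu.smooth c r hr).1.continuous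
  exact (h1 _).sub (h1 _)

/-- (L6) a point of the plane where the jump is large -/
lemma base (hSHB : StmtSHB) (hZ : StmtZ) (hd : 2 ≤ d) {M c0 ε : ℝ} (hε : 0 < ε) (hε1 : ε ≤ 1)
    (hb : BaseKer 2 M c0 b) {L : (Sp d →L[ℝ] V) →L[ℝ] E} (hL : CEll L) {n0 : ℕ}
    {T : (ContinuousMultilinearMap ℝ (fun _ : Fin n0 => Sp d) E) →L[ℝ]
      (ContinuousMultilinearMap ℝ (fun _ : Fin (n0 + 1) => Sp d) V)} (hn0 : 1 ≤ n0)
    (hNS : NSProp L n0 T) {R0 : ℝ} (hR0 : 200 ≤ R0) :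
    ∃ c2 κ' : ℝ, 0 < c2 ∧ 0 < κ' ∧ ∀ (R : ℝ), 4 * R0 + 10 ≤ R → ∀ (N : ℕ) (u : Sp d → V), TF u →
      ∀ e : E, ‖e‖ = 1 → ∀ (ν : Sp d) (c : ℝ), ‖ν‖ = 1 → |c| ≤ R0 / 7 + 2 →
      ∀ a : ℝ, 0 < a → a ≤ cI L u e (zR (R0 / 7)) → cB b ε R0 R L N u e ν c ≤ κ' * a →
      cA b ε R0 L N u * cB b ε R0 R L N u e ν c ≤ κ' * a ^ 2 →
      ∃ p : Sp d, ⟪ν, p⟫_ℝ = c ∧ ‖p‖ ≤ R0 / 3 ∧ c2 * a ≤ ‖JJ n0 ν (c • ν) 1 u p‖ := by
  obtain ⟨J, h1⟩ := hSHB d V E L n0 T hd hn0 hL hNS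
  obtain ⟨C, κ, hC, hκ, h2⟩ := h1 M c0 ε hε hε1 b hb R0 (by linarith)
  obtain ⟨CZ, hCZ, hZc⟩ := Zc hZ (by omega : 1 ≤ d) hε hε1 hb L
  obtain ⟨κf, hκf, hflat⟩ := flat hZ (by omega : 1 ≤ d) hε hε1 hb L (R0 := R0) (by linarith) hκ
  obtain ⟨Cy, hCy, hcyl⟩ := exists_TFn_cyl d J
  obtain ⟨Cy2, hCy2, hcyl2⟩ := exists_TFn_cyl d 2
  obtain ⟨C1, hC1, hz1⟩ := exists_TFn_zR d 2
  obtain ⟨C2, hC2, hh2⟩ := exists_TFn_ht2 d 2 R0 (4 * R0) (by linarith)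
  obtain ⟨C3, hC3, hcu⟩ := exists_TFn_cu1 d 2
  obtain ⟨CP, hCP, hpl⟩ := (stmtPF d (by omega)).1 (R0 / 7 + 2)
  set K : ℝ := C1 + (2 ^ 2 * C3 * Cy2 + C2) with hK
  have hK0 : 0 < K := by positivity
  set Λ : ℝ := C * Cy + 1 + CZ * K with hΛ
  have hΛ0 : 0 < Λ := by positivity
  set κ1 : ℝ := min 1 (1 / (8 * Λ)) with hκ1
  have hκ10 : 0 < κ1 := by positivity
  refine ⟨1 / (4 * (CP * C)), min κf (κ1 ^ 2), by positivity, by positivity, ?_⟩
  intro R hR N u hu e he ν c hν hc a ha hmass hsm1 hsm2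
  by_contra hcon
  push Not at hcon
  have hB0 := cB_nonneg b ε R0 R L N u he ν c
  have hD0 := cD_nonneg b ε R L N u he
  have hA0 := cA_nonneg b ε R0 L N u
  have hDB := cD_le_cB b ε R0 R L N u e ν c
  have hsm1' : cB b ε R0 R L N u e ν c ≤ κ1 ^ 2 * a :=
    hsm1.trans (mul_le_mul_of_nonneg_right (min_le_right _ _) ha.le)
  have hsm2' : cA b ε R0 L N u * cB b ε R0 R L N u e ν c ≤ κ1 ^ 2 * a ^ 2 :=
    hsm2.trans (mul_le_mul_of_nonneg_right (min_le_right _ _) (by positivity))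
  have hF := (hflat R hR N u hu e he ν c (R0 / 7) (by linarith) (by linarith) a ha hmass
    (hsm1.trans (mul_le_mul_of_nonneg_right (min_le_left _ _) ha.le))
    (hsm2.trans (mul_le_mul_of_nonneg_right (min_le_left _ _) (by positivity)))).1
  obtain ⟨l0, l1, hl0, -, -, h3, -⟩ := h2 R (by linarith) N u hu e he ν c hν (by linarith) hF _ rfl
  set ψ : Sp d → ℝ := fun y => zR (R0 / 7 + 1) (tang ν y) with hψ
  have hψT := (hcyl (R0 / 7 + 1) (by linarith) ν hν).1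
  have hψC := (hcyl (R0 / 7 + 1) (by linarith) ν hν).2
  have hψT2 := (hcyl2 (R0 / 7 + 1) (by linarith) ν hν).1
  have hψC' : Cyl ν (R0 / 2) ψ := ⟨hψC.const, fun y hy => (hψC.supp y hy).trans (by linarith)⟩
  have h4 := h3 ψ (fun _ => 0) Cy hψT
    ⟨contDiff_const, fun j _ x => by
      rcases Nat.eq_zero_or_pos j with hj | hj
      · subst hj; simp [hCy.le]
      · rw [iteratedFDeriv_const_of_ne (by omega)]; simp [hCy.le]⟩
    hψC' ⟨fun _ => rfl, fun y hy => absurd rfl hy⟩ (fun y => by simp)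
  have hdv : ∀ y : Sp d, dv (fun _ : Sp d => (0 : Sp d)) y = 0 := by
    intro y
    unfold dv
    simp
  simp only [hdv, mul_zero, sub_zero, inner_zero_right, add_zero] at h4
  -- the plane integral
  set F : Sp d → ℝ := fun y => l0 (JJ n0 ν (c • ν) 1 u (c • ν + tang ν y)) * ψ y with hFd
  have hFc : Continuous F := by
    refine Continuous.mul (l0.continuous.comp ?_) hψT.smooth.continuous
    exact (JJ_cont n0 (by omega) hu ν (c • ν) one_pos).comp (continuous_const.add (tang_cont ν))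
  have hFb : ∀ y, |F y| ≤ C * (1 / (4 * (CP * C)) * a) := by
    intro y
    simp only [hFd]
    rw [abs_mul]
    by_cases hy : ψ y = 0
    · rw [hy, abs_zero, mul_zero]; positivity
    · have h5 := hψC.supp y hy
      have h6 : ‖c • ν + tang ν y‖ ≤ R0 / 3 := by
        have h7 : ‖c • ν‖ = |c| := by rw [norm_smul, hν, mul_one, Real.norm_eq_abs]
        have h8 := norm_add_le (c • ν) (tang ν y)
        linarith
      have h7 : ⟪ν, c • ν + tang ν y⟫_ℝ = c := by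
        rw [inner_add_right, tang_orth hν, inner_smul_right, real_inner_self_eq_norm_sq, hν]
        ring
      have h8 := hcon _ h7 h6
      have h9 : |l0 (JJ n0 ν (c • ν) 1 u (c • ν + tang ν y))| ≤
          C * (1 / (4 * (CP * C)) * a) := by
        have h10 := l0.le_opNorm (JJ n0 ν (c • ν) 1 u (c • ν + tang ν y))
        rw [Real.norm_eq_abs] at h10
        exact h10.trans (mul_le_mul hl0 h8.le (norm_nonneg _) hC.le)
      have h10 : |ψ y| ≤ 1 := by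
        rw [abs_of_nonneg (zR_nonneg _ _)]
        exact zR_le_one _ _
      have h11 : (0 : ℝ) ≤ C * (1 / (4 * (CP * C)) * a) := by positivity
      calc _ ≤ C * (1 / (4 * (CP * C)) * a) * 1 := mul_le_mul h9 h10 (abs_nonneg _) h11
        _ = _ := mul_one _
  have hFs : ∀ y, F y ≠ 0 → ‖tang ν y‖ ≤ R0 / 7 + 2 := by
    intro y hy
    have h5 : ψ y ≠ 0 := fun h => hy (by simp only [hFd]; rw [h, mul_zero])
    have := hψC.supp y h5
    linarith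
  have h5 := hpl ν hν F _ hFc hFb hFs c
  have h6 : plInt ν c F = plInt ν c (fun y => l0 (JJ n0 ν (c • ν) 1 u y) * ψ y) := by
    unfold plInt
    refine integral_congr_ae (Filter.Eventually.of_forall fun y => ?_)
    simp only [hFd]
    have hy : ⟪ν, (y : Sp d)⟫_ℝ = 0 := by
      have := y.2
      rw [Submodule.mem_orthogonal_singleton_iff_inner_right] at this
      exact this
    have h7 : c • ν + tang ν (c • ν + (y : Sp d)) = c • ν + (y : Sp d) := by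
      unfold tang
      rw [inner_add_right, hy, inner_smul_right, real_inner_self_eq_norm_sq, hν]
      module
    rw [h7]
  rw [h6] at h5
  have h7 : CP * (C * (1 / (4 * (CP * C)) * a)) = a / 4 := by field_simp
  rw [h7] at h5
  -- comparison
  have hcuT := hcu 4 (by norm_num) ν c hν
  have hsupp : ∀ y, R - 2 ≤ ‖y‖ → cu1 4 (ht ν c y) * ψ y = 0 := by
    intro y hy
    by_contra h
    have ha1 : cu1 4 (ht ν c y) ≠ 0 := fun h0 => h (by rw [h0, zero_mul])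
    have ha2 : ψ y ≠ 0 := fun h0 => h (by rw [h0, mul_zero])
    have ha3 : |ht ν c y| < 5 := by
      by_contra h0
      push Not at h0
      exact ha1 (cu1_eq_zero (by linarith))
    have ha4 := hψC.supp y ha2
    have ha5 := norm_le_tang hν y
    have ha6 : |⟪ν, y⟫_ℝ| ≤ |ht ν c y| + |c| := by
      have : ⟪ν, y⟫_ℝ = ht ν c y + c := by unfold ht; ring
      rw [this]
      exact abs_add_le _ _
    linarith
  have h8 : cI L u e (zR (R0 / 7)) ≤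
      cI L u e (fun y => cu1 4 (ht ν c y) * ψ y + zR R0 y * ht ν c y ^ 2) +
      CZ * K * cD b ε R L N u e := by
    refine hZc R (by linarith) N u hu e he _ _ K ((hz1 (R0 / 7) (by linarith)).mono ?_)
      (((hcuT.mul hψT2).add (hh2 ν c hν (by linarith))).mono ?_) (fun y => ?_)
      (fun y hy => zR_eq_zero (by linarith)) (fun y hy => ?_)
    · rw [hK]
      have : 0 < 2 ^ 2 * C3 * Cy2 + C2 := by positivity
      linarith
    · rw [hK]; linarith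
    · by_cases hy : ‖y‖ ≤ R0 / 7 + 1
      · have e1 : ψ y = 1 := zR_eq_one ((tang_norm_le hν y).trans hy)
        rw [e1, mul_one, zR_eq_one (ρ := R0) (by linarith), one_mul]
        refine (zR_le_one _ _).trans ?_
        by_cases hy2 : |ht ν c y| ≤ 4
        · rw [cu1_eq_one hy2]
          linarith [sq_nonneg (ht ν c y)]
        · push Not at hy2
          have e2 : 1 ≤ ht ν c y ^ 2 := by
            rw [← sq_abs]; nlinarith
          linarith [cu1_nonneg 4 (ht ν c y)]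
      · push Not at hy
        rw [zR_eq_zero hy.le]
        exact add_nonneg (mul_nonneg (cu1_nonneg _ _) (zR_nonneg _ _))
          (mul_nonneg (zR_nonneg _ _) (sq_nonneg _))
    · rw [hsupp y hy, zR_eq_zero (by linarith)]
      simp
  have hc1 : Continuous (fun y => ⟪fo L u y, e⟫_ℝ) := (fo_cont hu).inner continuous_const
  have hcs : HasCompactSupport (fun y => ⟪fo L u y, e⟫_ℝ) :=
    (fo_cs hu).comp_left (g := fun v => ⟪v, e⟫_ℝ) (inner_zero_left _)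
  have h9 : cI L u e (fun y => cu1 4 (ht ν c y) * ψ y + zR R0 y * ht ν c y ^ 2) =
      (∫ y, ⟪fo L u y, e⟫_ℝ * (cu1 4 (ht ν c y) * ψ y)) +
        cI L u e (fun y => zR R0 y * ht ν c y ^ 2) := by
    unfold cI
    have hi1 : Integrable (fun y => ⟪fo L u y, e⟫_ℝ * (cu1 4 (ht ν c y) * ψ y)) :=
      (hc1.mul (hcuT.smooth.continuous.mul hψT2.smooth.continuous)).integrable_of_hasCompactSupport
        hcs.mul_right
    have hi2 : Integrable (fun y => ⟪fo L u y, e⟫_ℝ * (zR R0 y * ht ν c y ^ 2)) :=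
      (hc1.mul (hh2 ν c hν (by linarith)).smooth.continuous).integrable_of_hasCompactSupport
        hcs.mul_right
    rw [← integral_add hi1 hi2]
    refine integral_congr_ae (Filter.Eventually.of_forall fun y => ?_)
    beta_reduce
    ring
  have h10 := cB_ge b ε R0 R L N u e ν c
  -- bound of eta
  have h11 : Real.sqrt (cA b ε R0 L N u * cD b ε R L N u e) ≤ κ1 * a := by
    rw [← Real.sqrt_sq (by positivity : 0 ≤ κ1 * a)]
    refine Real.sqrt_le_sqrt ?_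
    have := mul_le_mul_of_nonneg_left hDB hA0
    rw [mul_pow]
    linarith
  have h12 : κ1 ≤ 1 := min_le_left _ _
  have h13 : κ1 ≤ 1 / (8 * Λ) := min_le_right _ _
  have h14 : κ1 ^ 2 ≤ κ1 := by nlinarith
  have h15 := (abs_le.mp h4).2
  have h16 := (abs_le.mp h5).2
  have h17 : bD b ε R0 R ((1 / 2) ^ N) (fo L u) N 0 e ν c +
      Real.sqrt (ma b ε R0 ((1 / 2) ^ N) (fo L u) N 0 * DD b ε R ((1 / 2) ^ N) (fo L u) N 0 e) ≤
      2 * κ1 * a := by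
    change cB b ε R0 R L N u e ν c + Real.sqrt (cA b ε R0 L N u * cD b ε R L N u e) ≤ _
    have : κ1 ^ 2 * a ≤ κ1 * a := mul_le_mul_of_nonneg_right h14 ha.le
    linarith
  have h18 := mul_le_mul_of_nonneg_left h17 (by positivity : 0 ≤ C * Cy)
  have h19 : cD b ε R L N u e ≤ κ1 * a := by
    have : κ1 ^ 2 * a ≤ κ1 * a := mul_le_mul_of_nonneg_right h14 ha.le
    linarith
  have h20 : CZ * K * cD b ε R L N u e ≤ CZ * K * (κ1 * a) :=
    mul_le_mul_of_nonneg_left h19 (by positivity)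
  have h21 : cB b ε R0 R L N u e ν c ≤ κ1 * a := by
    have : κ1 ^ 2 * a ≤ κ1 * a := mul_le_mul_of_nonneg_right h14 ha.le
    linarith
  have h22 : 2 * Λ * (κ1 * a) ≤ a / 4 := by
    have h23 : κ1 * a ≤ 1 / (8 * Λ) * a := mul_le_mul_of_nonneg_right h13 ha.le
    have h24 := mul_le_mul_of_nonneg_left h23 (by positivity : 0 ≤ 2 * Λ)
    have h25 : 2 * Λ * (1 / (8 * Λ) * a) = a / 4 := by field_simp; norm_num
    linarith
  have h23 : a ≤ a / 4 + 2 * Λ * (κ1 * a) := by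
    have e1 : 2 * Λ * (κ1 * a) = C * Cy * (2 * κ1 * a) + 2 * (κ1 * a) + 2 * (CZ * K * (κ1 * a)) := by
      rw [hΛ]; ring
    have e2 : 0 ≤ κ1 * a := by positivity
    have e3 : 0 ≤ CZ * K * (κ1 * a) := by positivity
    linarith
  linarith

lemma cA_eq (b : Sp d → ℝ) (ε R0 : ℝ) (L : (Sp d →L[ℝ] V) →L[ℝ] E) (N : ℕ) (u : Sp d → V) :
    cA b ε R0 L N u = ∫ y in ball (0 : Sp d) R0, ‖fl b ε ((1 / 2) ^ N) (fo L u) (N - 1) y‖ := by
  unfold cA ma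
  rw [lev_self]
  simp

/-- mass against a test function which is bounded below near the ball -/
lemma mass_test (hMA : StmtMA) (hd : 1 ≤ d) {M c0 ε : ℝ} (hε : 0 < ε) (hε1 : ε ≤ 1)
    (hb : BaseKer 2 M c0 b) (L : (Sp d →L[ℝ] V) →L[ℝ] E) {R0 : ℝ} (hR0 : 100 ≤ R0) {K : ℝ}
    (hK : 1 ≤ K) :
    ∃ C : ℝ, 0 < C ∧ ∀ (R : ℝ), 4 * R0 + 10 ≤ R → ∀ (N : ℕ) (u : Sp d → V), TF u →
      ∀ e : E, ‖e‖ = 1 → ∀ H : Sp d → ℝ, TFn 2 K H → (∀ y, 0 ≤ H y) →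
      (∀ y, R - 2 ≤ ‖y‖ → H y = 0) → (∀ y, ‖y‖ ≤ R0 + 2 → 1 ≤ H y) →
      cA b ε R0 L N u ≤ cI L u e H + C * cD b ε R L N u e := by
  obtain ⟨C, hC, h⟩ := hMA d hd M c0 ε hε hε1 b hb
  refine ⟨C * K, by positivity, ?_⟩
  intro R hR N u hu e he H hH hH0 hHs hH1
  have hK0 : 0 < K := by linarith
  have hH' : TFn 2 1 (fun y => 1 / K * H y) := by
    have := hH.const_mul (1 / K)
    rw [abs_of_nonneg (by positivity)] at this
    have e1 : 1 / K * K = 1 := by field_simp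
    rwa [e1] at this
  have h1 := (h E (fo L u) (fo_cont hu) (fo_cs hu) R (by linarith) N e he 0 (ball 0 R0)
    measurableSet_ball).2 (fun y => 1 / K * H y) (1 / K) (by positivity)
    (by rw [div_le_one hK0]; exact hK) hH'.smooth (fun y => mul_nonneg (by positivity) (hH0 y))
    (fun y => by
      have h2 := hH'.bd 0 (by norm_num) y
      rw [norm_iteratedFDeriv_zero, Real.norm_eq_abs] at h2
      exact (le_abs_self _).trans h2)
    (fun y => hH'.bd 2 le_rfl y)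
    (fun y hy => by rw [hHs y (by simpa using hy), mul_zero])
    (fun y z hy hz => by
      have h3 : ‖z‖ ≤ R0 + 2 := by
        have h4 : ‖y‖ < R0 := by simpa using hy
        have h5 : ‖z‖ ≤ ‖z - y‖ + ‖y‖ := by
          calc ‖z‖ = ‖(z - y) + y‖ := by congr 1; abel
            _ ≤ _ := norm_add_le _ _
        linarith
      have := hH1 z h3
      have h6 := mul_le_mul_of_nonneg_left this (by positivity : 0 ≤ 1 / K)
      linarith)
  rw [cA_eq]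
  refine h1.trans (le_of_eq ?_)
  have h7 : (∫ y, ⟪fo L u y, e⟫_ℝ * (1 / K * H y)) = 1 / K * cI L u e H := by
    unfold cI
    rw [← integral_const_mul]
    refine integral_congr_ae (Filter.Eventually.of_forall fun y => ?_)
    beta_reduce
    ring
  rw [h7]
  unfold cD
  field_simp

/-- (L7) first part -/
lemma mass0 (hMA : StmtMA) (hd : 1 ≤ d) {M c0 ε : ℝ} (hε : 0 < ε) (hε1 : ε ≤ 1)
    (hb : BaseKer 2 M c0 b) (L : (Sp d →L[ℝ] V) →L[ℝ] E) {R0 : ℝ} (hR0 : 100 ≤ R0) :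
    ∃ C : ℝ, 0 < C ∧ ∀ (R : ℝ), 4 * R0 + 10 ≤ R → ∀ (N : ℕ) (u : Sp d → V), TF u →
      ∀ e : E, ‖e‖ = 1 →
      cA b ε R0 L N u ≤ cI L u e (zR (R0 + 2)) + C * cD b ε R L N u e := by
  obtain ⟨C1, hC1, h1⟩ := exists_TFn_zR d 2
  obtain ⟨C, hC, h⟩ := mass_test hMA hd hε hε1 hb L hR0 (K := max 1 C1) (le_max_left _ _)
  refine ⟨C, hC, fun R hR N u hu e he => ?_⟩
  exact h R hR N u hu e he _ ((h1 (R0 + 2) (by linarith)).mono (le_max_right _ _))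
    (fun y => zR_nonneg _ _) (fun y hy => zR_eq_zero (by linarith))
    (fun y hy => (zR_eq_one hy).ge)

/-- (L8) a plane far from the ball has a large functional -/
lemma far0 (hMA : StmtMA) (hZ : StmtZ) (hSC : StmtSC) (hd : 2 ≤ d) {M c0 ε : ℝ} (hε : 0 < ε)
    (hε1 : ε ≤ 1) (hb : BaseKer 2 M c0 b) (L : (Sp d →L[ℝ] V) →L[ℝ] E) {R0 : ℝ}
    (hR0 : 100 + 8 * d ≤ R0) {CS : ℝ} (hCS : 0 < CS) :
    ∃ C : ℝ, 0 < C ∧ ∀ (R : ℝ), 4 * R0 + 10 ≤ R → ∀ (N : ℕ) (u : Sp d → V), TF u →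
      ∀ (ξ : Sp d) (e e' : E), ‖ξ‖ ≤ Real.sqrt d → ‖e‖ = 1 → ‖e'‖ = 1 →
      Step b ε R0 R CS L N u ξ e e' → ∀ (ν : Sp d) (c : ℝ), ‖ν‖ = 1 → R0 + 3 < |c| →
      |c| ≤ 4 * R0 →
      cA b ε R0 L N u ≤ C * (cB b ε R0 R L (N + 1) (zm ξ u) e' ν ((c - ⟪ν, ξ⟫_ℝ) / 2) +
        cD b ε R L N u e) := by
  have hd1 : 1 ≤ d := by omega
  have hdR : (2 : ℝ) ≤ d := by exact_mod_cast hd
  obtain ⟨CZ, hCZ, hZc⟩ := Zc hZ hd1 hε hε1 hb L
  obtain ⟨C1, hC1, h1⟩ := exists_TFn_ht2 d 2 (R0 + 2) (4 * R0) (by linarith)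
  obtain ⟨C2, hC2, h2⟩ := exists_TFn_ht2 d 2 R0 (4 * R0) (by linarith)
  obtain ⟨C, hC, h⟩ := mass_test hMA hd1 hε hε1 hb L (by linarith : 100 ≤ R0) (K := max 1 C1)
    (le_max_left _ _)
  set K : ℝ := 4 * C1 + 4 * C2 with hK
  have hK0 : 0 < K := by positivity
  set D2 : ℝ := 2 ^ (d - 1) with hD2
  have hD20 : 0 < D2 := by positivity
  refine ⟨C + CS * C1 + D2 * (4 + CZ * K), by positivity, ?_⟩
  intro R hR N u hu ξ e e' hξ he he' hS ν c hν hc1 hc2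
  have hu' : TF (zm ξ u) := TF_zm hSC hd hu ξ
  have hsq : Real.sqrt d ≤ d := by
    rw [Real.sqrt_le_left (by linarith)]
    nlinarith
  have h3 := h R hR N u hu e he (fun y => zR (R0 + 2) y * ht ν c y ^ 2)
    ((h1 ν c hν hc2).mono (le_max_right _ _))
    (fun y => mul_nonneg (zR_nonneg _ _) (sq_nonneg _))
    (fun y hy => by rw [zR_eq_zero (by linarith), zero_mul])
    (fun y hy => by
      rw [zR_eq_one hy, one_mul]
      have h4 := abs_ht_ge hν c y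
      have h5 : 1 ≤ |ht ν c y| := by linarith
      rw [← sq_abs]; nlinarith)
  have h4 := (abs_le.mp (hS.dir _ C1 (h1 ν c hν hc2)
    (fun y hy => by rw [zR_eq_zero (by linarith), zero_mul]))).2
  have h5 := cI_zm (L := L) hSC hd hu ξ e' (fun y => zR (R0 + 2) y * ht ν c y ^ 2)
  set c' : ℝ := (c - ⟪ν, ξ⟫_ℝ) / 2 with hc'
  have hc'b : |c'| ≤ 4 * R0 := by
    rw [hc', abs_div, abs_of_pos (by norm_num : (0 : ℝ) < 2)]
    have h6 := abs_real_inner_le_norm ν ξ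
    rw [hν, one_mul] at h6
    have h7 := abs_sub c ⟪ν, ξ⟫_ℝ
    linarith
  have h6 : cI L (zm ξ u) e' (fun z => zR (R0 + 2) (ξ + (2 : ℝ) • z) *
      ht ν c (ξ + (2 : ℝ) • z) ^ 2) ≤
      cI L (zm ξ u) e' (fun z => 4 * (zR R0 z * ht ν c' z ^ 2)) +
        CZ * K * cD b ε R L (N + 1) (zm ξ u) e' := by
    have hz : ∀ z : Sp d, zR (R0 + 2) (ξ + (2 : ℝ) • z) ≠ 0 → ‖z‖ ≤ R0 := by
      intro z hz
      by_contra hcon
      push Not at hcon
      refine hz (zR_eq_zero ?_)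
      have h7 : 2 * ‖z‖ ≤ ‖ξ + (2 : ℝ) • z‖ + ‖ξ‖ := by
        have h8 : (2 : ℝ) • z = (ξ + (2 : ℝ) • z) + (-ξ) := by abel
        have h9 : ‖(2 : ℝ) • z‖ = 2 * ‖z‖ := by rw [norm_smul]; norm_num
        rw [← h9]
        nth_rewrite 1 [h8]
        refine (norm_add_le _ _).trans (le_of_eq ?_)
        rw [norm_neg]
      linarith
    have ht1 := (h1 ν c hν hc2).comp_aff ξ 2 (T := 2) (by norm_num) (by norm_num)
    have ht2 := (h2 ν c' hν hc'b).const_mul 4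
    rw [abs_of_nonneg (by norm_num : (0 : ℝ) ≤ 4)] at ht2
    refine hZc R (by linarith) (N + 1) (zm ξ u) hu' e' he' _ _ K (ht1.mono ?_) (ht2.mono ?_)
      (fun z => ?_) (fun z hz' => ?_) (fun z hz' => ?_)
    · rw [hK]; linarith
    · rw [hK]; linarith
    · by_cases hzz : zR (R0 + 2) (ξ + (2 : ℝ) • z) = 0
      · rw [hzz, zero_mul]
        exact mul_nonneg (by norm_num) (mul_nonneg (zR_nonneg _ _) (sq_nonneg _))
      · rw [zR_eq_one (hz z hzz), one_mul, hc', ht_zm]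
        have := mul_le_mul_of_nonneg_right (zR_le_one (R0 + 2) (ξ + (2 : ℝ) • z))
          (sq_nonneg (ht ν c (ξ + (2 : ℝ) • z)))
        linarith
    · by_cases hzz : zR (R0 + 2) (ξ + (2 : ℝ) • z) = 0
      · rw [hzz, zero_mul]
      · have := hz z hzz
        linarith
    · rw [zR_eq_zero (by linarith), zero_mul, mul_zero]
  have h7 : cI L (zm ξ u) e' (fun z => 4 * (zR R0 z * ht ν c' z ^ 2)) =
      4 * cI L (zm ξ u) e' (fun z => zR R0 z * ht ν c' z ^ 2) := by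
    unfold cI
    rw [← integral_const_mul]
    refine integral_congr_ae (Filter.Eventually.of_forall fun y => ?_)
    beta_reduce
    ring
  have h8 := cB_ge b ε R0 R L (N + 1) (zm ξ u) e' ν c'
  have h9 := cD_le_cB b ε R0 R L (N + 1) (zm ξ u) e' ν c'
  have h10 := cD_nonneg b ε R L (N + 1) (zm ξ u) he'
  have h11 := cD_nonneg b ε R L N u he
  have hB := cB_nonneg b ε R0 R L (N + 1) (zm ξ u) he' ν c'
  rw [h7] at h6
  have h12 : cI L u e' (fun y => zR (R0 + 2) y * ht ν c y ^ 2) ≤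
      D2 * ((4 + CZ * K) * cB b ε R0 R L (N + 1) (zm ξ u) e' ν c') := by
    rw [h5]
    refine mul_le_mul_of_nonneg_left ?_ hD20.le
    have h13 : CZ * K * cD b ε R L (N + 1) (zm ξ u) e' ≤
        CZ * K * cB b ε R0 R L (N + 1) (zm ξ u) e' ν c' :=
      mul_le_mul_of_nonneg_left h9 (by positivity)
    linarith
  have h13 : CS * C1 * cD b ε R L (N + 1) (zm ξ u) e' ≤
      CS * C1 * cB b ε R0 R L (N + 1) (zm ξ u) e' ν c' :=
    mul_le_mul_of_nonneg_left h9 (by positivity)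
  have h14 : 0 ≤ C * cB b ε R0 R L (N + 1) (zm ξ u) e' ν c' := by positivity
  have h15 : 0 ≤ D2 * (4 + CZ * K) * cD b ε R L N u e := by positivity
  linarith

end CM

end

end TG
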