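import Pool.Agent.TG.CM2

/-!
# Trace inequality, module CM, part 3: the induction over the levels
-/

set_option autoImplicit false
set_option linter.unusedSectionVars false

open MeasureTheory Metric Set TrI
open scoped InnerProductSpace ContDiff

namespace TG

noncomputable section

namespace CM

/-! ### powers of two and small constants -/

lemma exists_small (l : List (ℝ × ℝ)) (h : ∀ p ∈ l, 0 < p.2) :
    ∃ κ : ℝ, 0 < κ ∧ ∀ p ∈ l, p.1 * κ ≤ p.2 := by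
  induction l with
  | nil => exact ⟨1, one_pos, by simp⟩
  | cons p l ih =>
    obtain ⟨κ, hκ, hl⟩ := ih fun q hq => h q (List.mem_cons_of_mem _ hq)
    have hp : 0 < p.2 := h p List.mem_cons_self
    have hq : 0 < p.2 / (|p.1| + 1) := by positivity
    refine ⟨min κ (p.2 / (|p.1| + 1)), lt_min hκ hq, fun q hq => ?_⟩
    have hm : 0 < min κ (p.2 / (|p.1| + 1)) := lt_min hκ (by positivity)
    rcases List.mem_cons.mp hq with h1 | h1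
    · subst h1
      have h2 : q.1 * min κ (q.2 / (|q.1| + 1)) ≤ |q.1| * (q.2 / (|q.1| + 1)) :=
        mul_le_mul (le_abs_self _) (min_le_right _ _) hm.le (abs_nonneg _)
      refine h2.trans ?_
      rw [mul_div_assoc', div_le_iff₀ (by positivity)]
      nlinarith [abs_nonneg q.1]
    · by_cases hq1 : 0 ≤ q.1
      · exact (mul_le_mul_of_nonneg_left (min_le_left _ _) hq1).trans (hl q h1)
      · push Not at hq1
        have h2 := h q hq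
        nlinarith

/-- 2 ^ (s r) -/
def P (s : ℝ) (r : ℕ) : ℝ := (2 : ℝ) ^ (s * (r : ℝ))

lemma P_pos (s : ℝ) (r : ℕ) : 0 < P s r := Real.rpow_pos_of_pos two_pos _

lemma P_zero (s : ℝ) : P s 0 = 1 := by unfold P; simp

lemma one_le_P {s : ℝ} (hs : 0 ≤ s) (r : ℕ) : 1 ≤ P s r :=
  Real.one_le_rpow (by norm_num) (by positivity)

lemma P_mul (s t : ℝ) (r : ℕ) : P s r * P t r = P (s + t) r := by
  unfold P
  rw [← Real.rpow_add two_pos]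
  congr 1
  ring

lemma P_le {s t : ℝ} (h : s ≤ t) (r : ℕ) : P s r ≤ P t r := by
  unfold P
  exact Real.rpow_le_rpow_of_exponent_le (by norm_num)
    (mul_le_mul_of_nonneg_right h (Nat.cast_nonneg _))

lemma P_succ (s : ℝ) (r : ℕ) : P s (r + 1) = 2 ^ s * P s r := by
  unfold P
  rw [← Real.rpow_add two_pos]
  congr 1
  push_cast
  ring

lemma P_succ_le {s : ℝ} (hs : s ≤ 1) (r : ℕ) : P s (r + 1) ≤ 2 * P s r := by
  rw [P_succ]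
  refine mul_le_mul_of_nonneg_right ?_ (P_pos _ _).le
  calc (2 : ℝ) ^ s ≤ 2 ^ (1 : ℝ) := Real.rpow_le_rpow_of_exponent_le (by norm_num) hs
    _ = 2 := Real.rpow_one 2

lemma P_mono {s : ℝ} (hs : 0 ≤ s) {r r' : ℕ} (h : r ≤ r') : P s r ≤ P s r' := by
  unfold P
  refine Real.rpow_le_rpow_of_exponent_le (by norm_num) (mul_le_mul_of_nonneg_left ?_ hs)
  exact_mod_cast h

lemma two_rpow_eighth : (13 / 12 : ℝ) ≤ 2 ^ (1 / 8 : ℝ) := by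
  have h1 : ((13 / 12 : ℝ) ^ (8 : ℕ)) ≤ 2 := by norm_num
  have h2 : (13 / 12 : ℝ) = ((13 / 12 : ℝ) ^ (8 : ℕ)) ^ (1 / 8 : ℝ) := by
    rw [← Real.rpow_natCast, ← Real.rpow_mul (by norm_num)]
    norm_num
  rw [h2]
  exact Real.rpow_le_rpow (by positivity) h1 (by norm_num)

lemma P_eighth_succ (r : ℕ) : 13 * P (1 / 8) r ≤ 12 * P (1 / 8) (r + 1) := by
  rw [P_succ]
  have := mul_le_mul_of_nonneg_right two_rpow_eighth (P_pos (1 / 8) r).le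
  linarith

lemma P_quarter_succ {s : ℝ} (hs : 1 / 8 ≤ s) (r : ℕ) : 13 * P s r ≤ 12 * P s (r + 1) := by
  rw [P_succ]
  have h1 : (2 : ℝ) ^ (1 / 8 : ℝ) ≤ 2 ^ s := Real.rpow_le_rpow_of_exponent_le (by norm_num) hs
  have := mul_le_mul_of_nonneg_right (two_rpow_eighth.trans h1) (P_pos s r).le
  linarith

/-! ### the context: all estimates in one frame -/

variable {d : ℕ} {V E : Type} [NormedAddCommGroup V] [InnerProductSpace ℝ V]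
  [FiniteDimensional ℝ V] [NormedAddCommGroup E] [InnerProductSpace ℝ E] [FiniteDimensional ℝ E]

/-- the estimates of part 2 with constants κ (small), c2 (small) and C (large) -/
structure Ctx (b : Sp d → ℝ) (ε R0 R : ℝ) (L : (Sp d →L[ℝ] V) →L[ℝ] E) (n0 : ℕ)
    (κ c2 CS Cp Cm Ct CM CL CJ C0 Cf : ℝ) : Prop where
  center : ∀ (N : ℕ) (u : Sp d → V), TF u → ∀ e : E, ‖e‖ = 1 → ∀ (ν : Sp d) (c : ℝ), ‖ν‖ = 1 →
    |c| ≤ 4 * R0 → ∀ ρ : ℝ, 1 ≤ ρ → ρ + 1 ≤ R0 → ∀ a : ℝ, 0 < a → a ≤ cI L u e (zR ρ) →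
    cB b ε R0 R L N u e ν c ≤ κ * a → |c| ≤ ρ + 2
  planes : ∀ (N : ℕ) (u : Sp d → V), TF u → ∀ e : E, ‖e‖ = 1 →
    ∀ (ν ν' : Sp d) (c c' σ θ : ℝ), ‖ν‖ = 1 → ‖ν'‖ = 1 → |c| ≤ 4 * R0 →
    |c'| ≤ 4 * R0 → σ ^ 2 = 1 → 0 ≤ θ → θ ≤ 1 →
    (∀ y, |ht ν c y - σ * ht ν' c' y| ≤ θ * (Real.sqrt d + ‖y‖)) →
    cB b ε R0 R L N u e ν c ≤ Cp * (cB b ε R0 R L N u e ν' c' +
      θ ^ 2 * max 0 (cI L u e (zR R0)))
  massle : ∀ (N : ℕ) (u : Sp d → V), TF u → ∀ (ξ : Sp d) (e e' : E), ‖e‖ = 1 → ‖e'‖ = 1 →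
    Step b ε R0 R CS L N u ξ e e' →
    max 0 (cI L u e (zR R0)) ≤ Cm * (max 0 (cA b ε R0 L (N + 1) (zm ξ u)) + cD b ε R L N u e +
      cD b ε R L (N + 1) (zm ξ u) e')
  transfer : ∀ (N : ℕ) (u : Sp d → V), TF u →
    ∀ (ξ : Sp d) (e e' : E), ‖ξ‖ ≤ Real.sqrt d → ‖e‖ = 1 → ‖e'‖ = 1 →
    Step b ε R0 R CS L N u ξ e e' →
    ∀ (p : Sp d) (ρ ρ' : ℝ), 1 ≤ ρ → 1 ≤ ρ' → ρ' ≤ R0 → ‖p‖ + ρ + 1 ≤ 4 * R0 →
    (ρ + 1 + ‖p‖ + Real.sqrt d) / 2 ≤ ρ' →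
    cI L u e (fun y => zR ρ (y - p)) ≤ Ct * (max 0 (cI L (zm ξ u) e' (zR ρ')) +
      cD b ε R L N u e + cD b ε R L (N + 1) (zm ξ u) e')
  sm : ∀ (N : ℕ) (u : Sp d → V), TF u → ∀ e : E, ‖e‖ = 1 →
    ∀ (ν : Sp d) (c : ℝ), ‖ν‖ = 1 → |c| ≤ R0 / 3 → ∀ a1 : ℝ, 0 < a1 →
    a1 ≤ cI L u e (zR (R0 / 4)) → cB b ε R0 R L N u e ν c ≤ κ * a1 →
    cA b ε R0 L N u * cB b ε R0 R L N u e ν c ≤ κ * a1 ^ 2 →
    ∀ (x : Sp d) (a : ℝ), ⟪ν, x⟫_ℝ = c → ‖x‖ ≤ R0 / 3 → 0 < a →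
    a ≤ ‖JJ n0 ν (c • ν) 1 u x‖ → cB b ε R0 R L N u e ν c ≤ κ * a →
    cA b ε R0 L N u * cB b ε R0 R L N u e ν c ≤ κ * a ^ 2 →
    a ≤ CM * cI L u e (fun y => zR 1 (y - x))
  pl : ∀ (N : ℕ) (u : Sp d → V), TF u → ∀ e : E, ‖e‖ = 1 →
    ∀ (ν ν' : Sp d) (c c' : ℝ), ‖ν‖ = 1 → ‖ν'‖ = 1 → |c| ≤ R0 / 3 → |c'| ≤ 3 * R0 →
    ∀ a1 : ℝ, 0 < a1 →
    a1 ≤ cI L u e (zR (R0 / 4)) → cB b ε R0 R L N u e ν c ≤ κ * a1 →
    cA b ε R0 L N u * cB b ε R0 R L N u e ν c ≤ κ * a1 ^ 2 →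
    ∃ σ : ℝ, σ ^ 2 = 1 ∧ a1 * (‖ν - σ • ν'‖ ^ 2 + (c - σ * c') ^ 2) ≤
      CL * (cB b ε R0 R L N u e ν c + cB b ε R0 R L N u e ν' c')
  jc : ∀ (N : ℕ) (u : Sp d → V), TF u → ∀ e : E, ‖e‖ = 1 → ∀ (ν q q' : Sp d), ‖ν‖ = 1 →
    ⟪ν, q⟫_ℝ = ⟪ν, q'⟫_ℝ → ‖q‖ ≤ R0 / 2 → ‖q'‖ ≤ R0 / 2 → ∀ x, ‖x‖ ≤ R0 →
    ‖JJ n0 ν q' 2 u x - JJ n0 ν q 1 u x‖ ≤ CJ * cB b ε R0 R L N u e ν ⟪ν, q⟫_ℝ
  base : ∀ (N : ℕ) (u : Sp d → V), TF u →
    ∀ e : E, ‖e‖ = 1 → ∀ (ν : Sp d) (c : ℝ), ‖ν‖ = 1 → |c| ≤ R0 / 7 + 2 →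
    ∀ a : ℝ, 0 < a → a ≤ cI L u e (zR (R0 / 7)) → cB b ε R0 R L N u e ν c ≤ κ * a →
    cA b ε R0 L N u * cB b ε R0 R L N u e ν c ≤ κ * a ^ 2 →
    ∃ p : Sp d, ⟪ν, p⟫_ℝ = c ∧ ‖p‖ ≤ R0 / 3 ∧ c2 * a ≤ ‖JJ n0 ν (c • ν) 1 u p‖
  mass0 : ∀ (N : ℕ) (u : Sp d → V), TF u → ∀ e : E, ‖e‖ = 1 →
    cA b ε R0 L N u ≤ cI L u e (zR (R0 + 2)) + C0 * cD b ε R L N u e
  far0 : ∀ (N : ℕ) (u : Sp d → V), TF u →
    ∀ (ξ : Sp d) (e e' : E), ‖ξ‖ ≤ Real.sqrt d → ‖e‖ = 1 → ‖e'‖ = 1 →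
    Step b ε R0 R CS L N u ξ e e' → ∀ (ν : Sp d) (c : ℝ), ‖ν‖ = 1 → R0 + 3 < |c| →
    |c| ≤ 4 * R0 →
    cA b ε R0 L N u ≤ Cf * (cB b ε R0 R L (N + 1) (zm ξ u) e' ν ((c - ⟪ν, ξ⟫_ℝ) / 2) +
      cD b ε R L N u e)

lemma exists_ctx (hSHB : StmtSHB) (hPL : StmtPL) (hSM : StmtSM) (hJC : StmtJC) (hZ : StmtZ)
    (hMA : StmtMA) (hTW : StmtTW) (hSC : StmtSC) (hSD : StmtSD) (hd : 2 ≤ d) {M c0 ε : ℝ}
    (hε : 0 < ε) (hε1 : ε ≤ 1) {b : Sp d → ℝ}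
    (hb : BaseKer 2 M c0 b) {L : (Sp d →L[ℝ] V) →L[ℝ] E} (hL : CEll L) {n0 : ℕ}
    {T : (ContinuousMultilinearMap ℝ (fun _ : Fin n0 => Sp d) E) →L[ℝ]
      (ContinuousMultilinearMap ℝ (fun _ : Fin (n0 + 1) => Sp d) V)} (hn0 : 1 ≤ n0)
    (hNS : NSProp L n0 T) {R0 : ℝ} (hR0 : 200 + 8 * d ≤ R0) :
    ∃ κ c2 CS Cp Cm Ct CM CL CJ C0 Cf : ℝ, 0 < κ ∧ 0 < c2 ∧ 0 < CS ∧ 0 < Cp ∧ 0 < Cm ∧ 0 < Ct ∧
      0 < CM ∧ 0 < CL ∧ 0 < CJ ∧ 0 < C0 ∧ 0 < Cf ∧ ∀ (R : ℝ), 4 * R0 + 10 ≤ R →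
      Ctx b ε R0 R L n0 κ c2 CS Cp Cm Ct CM CL CJ C0 Cf ∧
      ∀ (N : ℕ) (u : Sp d → V), TF u → ∀ (ξ : Sp d) (e e' : E), ‖ξ‖ ≤ Real.sqrt d → ‖e‖ = 1 →
        ‖e'‖ = 1 → Step b ε R0 R CS L N u ξ e e' := by
  have hd1 : 1 ≤ d := by omega
  have hdR : (2 : ℝ) ≤ d := by exact_mod_cast hd
  obtain ⟨CS, hCS, hstep⟩ := exists_step hTW hSC hSD hd hε hε1 hb L (R0 := R0) (by linarith)
  obtain ⟨κc, hκc, hcen⟩ := center hZ hd1 hε hε1 hb L (R0 := R0) (by linarith)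
  obtain ⟨Cp, hCp, hpla⟩ := planes hZ hd1 hε hε1 hb L (R0 := R0) (by linarith)
  obtain ⟨Cm, hCm, hmas⟩ := massle hZ hd1 hε hε1 hb L (R0 := R0) (by linarith) hCS
  obtain ⟨Ct, hCt, htra⟩ := transfer hZ hSC hd hε hε1 hb L (R0 := R0) (by linarith) hCS
  obtain ⟨CM, κM, hCM, hκM, hsm⟩ := hSM d V E L n0 T hd hn0 hL hNS M c0 ε hε hε1 b hb R0
    (by linarith)
  obtain ⟨κM', hκM', hflM⟩ := flat hZ hd1 hε hε1 hb L (R0 := R0) (by linarith) hκM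
  obtain ⟨CL, κL, hCL, hκL, hpl⟩ := hPL d V E L n0 T hd hn0 hL hNS M c0 ε hε hε1 b hb R0
    (by linarith)
  obtain ⟨κL', hκL', hflL⟩ := flat hZ hd1 hε hε1 hb L (R0 := R0) (by linarith) hκL
  obtain ⟨CJ, hCJ, hjc⟩ := hJC d V E L n0 T hd1 hn0 hNS M c0 ε hε hε1 b hb R0 (by linarith)
  obtain ⟨c2, κb, hc2, hκb, hbas⟩ := base hSHB hZ hd hε hε1 hb hL hn0 hNS (R0 := R0) (by linarith)
  obtain ⟨C0, hC0, hm0⟩ := mass0 hMA hd1 hε hε1 hb L (R0 := R0) (by linarith)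
  obtain ⟨Cf, hCf, hfar⟩ := far0 hMA hZ hSC hd hε hε1 hb L (R0 := R0) (by linarith) hCS
  set κ := min κc (min (min κM κM') (min κL' κb)) with hκ
  have k1 : κ ≤ κc := min_le_left _ _
  have k2 : κ ≤ κM := (min_le_right _ _).trans ((min_le_left _ _).trans (min_le_left _ _))
  have k3 : κ ≤ κM' := (min_le_right _ _).trans ((min_le_left _ _).trans (min_le_right _ _))
  have k4 : κ ≤ κL' := (min_le_right _ _).trans ((min_le_right _ _).trans (min_le_left _ _))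
  have k5 : κ ≤ κb := (min_le_right _ _).trans ((min_le_right _ _).trans (min_le_right _ _))
  have hκ0 : 0 < κ := by positivity
  refine ⟨κ, c2, CS, Cp, Cm, Ct, CM, 2 * CL, CJ, C0, Cf, hκ0, hc2, hCS, hCp, hCm, hCt, hCM,
    by positivity, hCJ, hC0, hCf, fun R hR => ⟨⟨?_, ?_, ?_, ?_, ?_, ?_, ?_, ?_, ?_, ?_⟩, ?_⟩⟩
  · intro N u hu e he ν c hν hc ρ hρ hρR a ha h1 h2
    exact hcen R hR N u hu e he ν c hν hc ρ hρ hρR a ha h1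
      (h2.trans (mul_le_mul_of_nonneg_right k1 ha.le))
  · exact hpla R hR
  · exact hmas R hR
  · exact htra R hR
  · intro N u hu e he ν c hν hc a1 ha1 h1 h2 h3 x a hx hxR ha h4 h5 h6
    have hfl := (hflM R hR N u hu e he ν c (R0 / 4) (by linarith) (by linarith) a1 ha1 h1
      (h2.trans (mul_le_mul_of_nonneg_right k3 ha1.le))
      (h3.trans (mul_le_mul_of_nonneg_right k3 (by positivity)))).1
    exact hsm R (by linarith) N u hu e he ν c hν hc hfl x a hx hxR ha h4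
      (h5.trans (mul_le_mul_of_nonneg_right k2 ha.le))
      (h6.trans (mul_le_mul_of_nonneg_right k2 (by positivity)))
  · intro N u hu e he ν ν' c c' hν hν' hc hc' a1 ha1 h1 h2 h3
    have hfl := hflL R hR N u hu e he ν c (R0 / 4) (by linarith) (by linarith) a1 ha1 h1
      (h2.trans (mul_le_mul_of_nonneg_right k4 ha1.le))
      (h3.trans (mul_le_mul_of_nonneg_right k4 (by positivity)))
    obtain ⟨σ, hσ, h4⟩ := hpl R (by linarith) N u hu e he ν ν' c c' hν hν' hc hc' hfl.1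
    refine ⟨σ, by rcases hσ with h | h <;> rw [h] <;> norm_num, ?_⟩
    have h5 : 0 ≤ ‖ν - σ • ν'‖ ^ 2 + (c - σ * c') ^ 2 := by positivity
    have h6 := mul_le_mul_of_nonneg_right hfl.2 h5
    have h7 : (∫ y, ⟪fo L u y, e⟫_ℝ * zR (R0 / 3) y) * (‖ν - σ • ν'‖ ^ 2 + (c - σ * c') ^ 2) ≤
      CL * (cB b ε R0 R L N u e ν c + cB b ε R0 R L N u e ν' c') := h4
    linarith
  · intro N u hu e he ν q q' hν hqq hq hq' x hx
    exact (hjc R (by linarith) N u hu e he ν q q' hν hqq hq hq' x hx).2.2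
  · intro N u hu e he ν c hν hc a ha h1 h2 h3
    exact hbas R hR N u hu e he ν c hν hc a ha h1
      (h2.trans (mul_le_mul_of_nonneg_right k5 ha.le))
      (h3.trans (mul_le_mul_of_nonneg_right k5 (by positivity)))
  · exact hm0 R hR
  · exact hfar R hR
  · exact hstep R hR

/-- frames of a tower -/
structure Chain (b : Sp d → ℝ) (ε R0 R CS : ℝ) (L : (Sp d →L[ℝ] V) →L[ℝ] E) (n : ℕ)
    (uu : ℕ → Sp d → V) (ξ : ℕ → Sp d) (e : ℕ → E) : Prop where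
  tf : ∀ r, TF (uu r)
  zoom : ∀ r, uu (r + 1) = zm (ξ r) (uu r)
  xi : ∀ r, ‖ξ r‖ ≤ Real.sqrt d
  unit : ∀ r, ‖e r‖ = 1
  step : ∀ r, Step b ε R0 R CS L (n + r) (uu r) (ξ r) (e r) (e (r + 1))

/-- module CM in the frames -/
def FrameCM (b : Sp d → ℝ) (ε R0 K γ : ℝ) (L : (Sp d →L[ℝ] V) →L[ℝ] E) : Prop :=
  ∃ C : ℝ, 0 < C ∧ ∀ R : ℝ, 4 * R0 + 10 ≤ R → ∀ (n : ℕ) (uu : ℕ → Sp d → V) (ξ : ℕ → Sp d)
    (e : ℕ → E), (∀ r, TF (uu r)) → (∀ r, uu (r + 1) = zm (ξ r) (uu r)) →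
    (∀ r, ‖ξ r‖ ≤ Real.sqrt d) → (∀ r, ‖e r‖ = 1) → ∀ a : ℝ, 0 < a →
    a = cA b ε R0 L n (uu 0) → (∀ r, cA b ε R0 L (n + r) (uu r) ≤ K * P γ r * a) →
    ∀ (νs : ℕ → Sp d) (cs : ℕ → ℝ) (B : ℝ), (∀ r, ‖νs r‖ = 1) → (∀ r, |cs r| ≤ 4 * R0) →
    0 ≤ B → (∀ r, cB b ε R0 R L (n + r) (uu r) (e r) (νs r) (cs r) ≤ P (1 / 4) r * B) →
    ∃ (ν : Sp d) (g : ℕ → ℝ), ‖ν‖ = 1 ∧ |g 0| ≤ R0 + 3 ∧
      (∀ r, g (r + 1) = (g r - ⟪ν, ξ r⟫_ℝ) / 2) ∧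
      ∀ r, cB b ε R0 R L (n + r) (uu r) (e r) ν (g r) ≤ C * (P (3 / 8 + γ) r * B)

/-- the hypotheses of module CM in the frames -/
structure Data (b : Sp d → ℝ) (ε R0 R CS : ℝ) (L : (Sp d →L[ℝ] V) →L[ℝ] E) (n : ℕ)
    (uu : ℕ → Sp d → V) (ξ : ℕ → Sp d) (e : ℕ → E) (K γ a B : ℝ) (νs : ℕ → Sp d)
    (cs : ℕ → ℝ) : Prop where
  chain : Chain b ε R0 R CS L n uu ξ e
  apos : 0 < a
  aeq : a = cA b ε R0 L n (uu 0)
  growth : ∀ r, cA b ε R0 L (n + r) (uu r) ≤ K * P γ r * a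
  nu : ∀ r, ‖νs r‖ = 1
  off : ∀ r, |cs r| ≤ 4 * R0
  small : ∀ r, cB b ε R0 R L (n + r) (uu r) (e r) (νs r) (cs r) ≤ P (1 / 4) r * B

lemma sqrt_le_eighth (d : ℕ) : Real.sqrt d ≤ d / 8 + 2 := by
  have h1 := Real.sq_sqrt (Nat.cast_nonneg (α := ℝ) d)
  nlinarith [sq_nonneg (Real.sqrt d - 4)]

lemma one_le_sqrt {d : ℕ} (hd : 2 ≤ d) : 1 ≤ Real.sqrt d := by
  have hdR : (2 : ℝ) ≤ d := by exact_mod_cast hd
  rw [Real.le_sqrt (by norm_num) (by positivity)]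
  linarith

/-- distance of two planes in terms of normals and offsets -/
lemma ht_dist {ν ν' : Sp d} {c c' σ δ : ℝ} (hδ : 0 ≤ δ)
    (h : ‖ν - σ • ν'‖ ^ 2 + (c - σ * c') ^ 2 ≤ δ ^ 2) (y : Sp d) :
    |ht ν c y - σ * ht ν' c' y| ≤ δ * (1 + ‖y‖) := by
  have h1 : ‖ν - σ • ν'‖ ≤ δ := by
    refine abs_le_of_sq_le_sq' ?_ hδ |>.2
    nlinarith [sq_nonneg (c - σ * c')]
  have h2 : |c - σ * c'| ≤ δ := by
    refine abs_le_of_sq_le_sq ?_ hδ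
    nlinarith [sq_nonneg ‖ν - σ • ν'‖]
  have h3 : ht ν c y - σ * ht ν' c' y = ⟪ν - σ • ν', y⟫_ℝ - (c - σ * c') := by
    unfold ht
    rw [inner_sub_left, real_inner_smul_left]
    ring
  rw [h3]
  calc |⟪ν - σ • ν', y⟫_ℝ - (c - σ * c')| ≤ |⟪ν - σ • ν', y⟫_ℝ| + |c - σ * c'| := abs_sub _ _
    _ ≤ ‖ν - σ • ν'‖ * ‖y‖ + δ := add_le_add (abs_real_inner_le_norm _ _) h2
    _ ≤ δ * ‖y‖ + δ := by gcongr
    _ = _ := by ring

/-- relations between the constants of the induction -/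
structure Par (d : ℕ) (R0 κ CS Cp Cm Ct CM CL CJ K γ c1 c20 C4 C5 C6 C7 κ' : ℝ) : Prop where
  hd : 2 ≤ d
  hR0 : 200 + 8 * d ≤ R0
  hκ : 0 < κ
  hCS : 0 < CS
  hCp : 0 < Cp
  hCm : 0 < Cm
  hCt : 0 < Ct
  hCM : 0 < CM
  hCL : 0 < CL
  hCJ : 0 < CJ
  hK : 1 ≤ K
  hγ : 0 < γ
  hγ1 : γ ≤ 1 / 32
  hc1 : 0 < c1
  hc20 : 0 < c20
  hC5 : 0 < C5
  hC6 : 0 < C6
  hc1b : c1 ≤ c20 / (4 * (CM * Ct))
  hC5a : CL * (1 + 3 * CS) ≤ c1 * C5 ^ 2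
  hC4e : C4 = 12 * C5
  hC6e : C6 = Cp * (1 + Cm * (2 * K * C4 ^ 2 + 3))
  hC7e : C7 = 12 * (CJ * C6)
  hκ' : 0 < κ'
  t1 : C4 ^ 2 * κ' ≤ 1
  t2 : 1 * κ' ≤ κ * c1
  t3 : K * κ' ≤ κ * c1 ^ 2
  t4 : C6 * κ' ≤ κ * c1
  t5 : K * C6 * κ' ≤ κ * c1 ^ 2
  t6 : C6 * κ' ≤ κ * (c20 / 2)
  t7 : K * C6 * κ' ≤ κ * (c20 / 2) ^ 2
  t8 : C7 * κ' ≤ c20 / 2
  t9 : CM * Ct * 3 * κ' ≤ c20 / 4

lemma exists_par (hd : 2 ≤ d) {R0 : ℝ} (hR0 : 200 + 8 * d ≤ R0)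
    {κ CS Cp Cm Ct CM CL CJ : ℝ} (hκ : 0 < κ) (hCS : 0 < CS) (hCp : 0 < Cp)
    (hCm : 0 < Cm) (hCt : 0 < Ct) (hCM : 0 < CM) (hCL : 0 < CL) (hCJ : 0 < CJ)
    {K γ : ℝ} (hK : 1 ≤ K) (hγ : 0 < γ) (hγ1 : γ ≤ 1 / 32) {c10 c20 : ℝ} (hc10 : 0 < c10)
    (hc20 : 0 < c20) : ∃ c1 C4 C5 C6 C7 κ' : ℝ, c1 ≤ c10 ∧
      Par d R0 κ CS Cp Cm Ct CM CL CJ K γ c1 c20 C4 C5 C6 C7 κ' := by
  obtain ⟨c1, hc1, hc1a, hc1b⟩ : ∃ c1 : ℝ, 0 < c1 ∧ c1 ≤ c10 ∧ c1 ≤ c20 / (4 * (CM * Ct)) :=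
    ⟨min c10 (c20 / (4 * (CM * Ct))), by positivity, min_le_left _ _, min_le_right _ _⟩
  obtain ⟨C5, hC5, hC5a⟩ : ∃ C5 : ℝ, 0 < C5 ∧ CL * (1 + 3 * CS) ≤ c1 * C5 ^ 2 := by
    refine ⟨1 + CL * (1 + 3 * CS) / c1, by positivity, ?_⟩
    have h1 : 0 ≤ CL * (1 + 3 * CS) / c1 := by positivity
    have h2 : CL * (1 + 3 * CS) = c1 * (CL * (1 + 3 * CS) / c1) := by field_simp
    rw [h2]
    refine mul_le_mul_of_nonneg_left ?_ hc1.le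
    have h3 : c1 * (CL * (1 + 3 * CS) / c1) / c1 = CL * (1 + 3 * CS) / c1 := by
      field_simp
    rw [h3]
    nlinarith
  obtain ⟨C4, hC4⟩ : ∃ C4 : ℝ, C4 = 12 * C5 := ⟨_, rfl⟩
  have hC40 : 0 < C4 := by rw [hC4]; positivity
  have hK0 : 0 < K := by linarith
  obtain ⟨C6, hC6⟩ : ∃ C6 : ℝ, C6 = Cp * (1 + Cm * (2 * K * C4 ^ 2 + 3)) := ⟨_, rfl⟩
  have hC60 : 0 < C6 := by rw [hC6]; positivity
  obtain ⟨C7, hC7⟩ : ∃ C7 : ℝ, C7 = 12 * (CJ * C6) := ⟨_, rfl⟩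
  obtain ⟨κ', hκ', hk⟩ := exists_small [(C4 ^ 2, 1), (1, κ * c1), (K, κ * c1 ^ 2),
    (C6, κ * c1), (K * C6, κ * c1 ^ 2), (C6, κ * (c20 / 2)), (K * C6, κ * (c20 / 2) ^ 2),
    (C7, c20 / 2), (CM * Ct * 3, c20 / 4)] (by
      intro q hq
      simp only [List.mem_cons, List.not_mem_nil, or_false] at hq
      rcases hq with h | h | h | h | h | h | h | h | h <;> (subst h; simp only; positivity))
  exact ⟨c1, C4, C5, C6, C7, κ', hc1a, hd, hR0, hκ, hCS, hCp, hCm, hCt, hCM, hCL, hCJ, hK, hγ, hγ1,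
    hc1, hc20, hC5, hC60, hc1b, hC5a, hC4, hC6, hC7, hκ', hk (C4 ^ 2, 1) (by simp),
    hk (1, κ * c1) (by simp), hk (K, κ * c1 ^ 2) (by simp), hk (C6, κ * c1) (by simp),
    hk (K * C6, κ * c1 ^ 2) (by simp), hk (C6, κ * (c20 / 2)) (by simp),
    hk (K * C6, κ * (c20 / 2) ^ 2) (by simp), hk (C7, c20 / 2) (by simp),
    hk (CM * Ct * 3, c20 / 4) (by simp)⟩

section Ind

variable {b : Sp d → ℝ} {ε R0 R : ℝ} {L : (Sp d →L[ℝ] V) →L[ℝ] E} {n0 n : ℕ}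
  {κ c2 CS Cp Cm Ct CM CL CJ C0 Cf K γ c1 c20 C4 C5 C6 C7 κ' a B : ℝ}
  {uu : ℕ → Sp d → V} {ξ : ℕ → Sp d} {e : ℕ → E} {νs : ℕ → Sp d} {cs : ℕ → ℝ}

lemma Data.D_le (D : Data b ε R0 R CS L n uu ξ e K γ a B νs cs) (r : ℕ) :
    cD b ε R L (n + r) (uu r) (e r) ≤ P (1 / 4) r * B :=
  (cD_le_cB b ε R0 R L (n + r) (uu r) (e r) (νs r) (cs r)).trans (D.small r)

lemma Data.Ds_le (D : Data b ε R0 R CS L n uu ξ e K γ a B νs cs) (hB : 0 ≤ B) (r : ℕ) :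
    cD b ε R L (n + r) (uu r) (e r) + cD b ε R L (n + (r + 1)) (uu (r + 1))
      (e (r + 1)) ≤ 3 * (P (1 / 4) r * B) := by
  have h1 := D.D_le r
  have h2 := D.D_le (r + 1)
  have h3 := mul_le_mul_of_nonneg_right (P_succ_le (by norm_num : (1 / 4 : ℝ) ≤ 1) r) hB
  linarith

lemma Data.AB (D : Data b ε R0 R CS L n uu ξ e K γ a B νs cs) (hB : 0 ≤ B) (hK : 1 ≤ K)
    (hγ1 : γ ≤ 1 / 32) (r : ℕ) {X Y : ℝ} (hX : 0 ≤ X) (hXY : X ≤ Y * (P (1 / 4 + γ) r * B))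
    (hY : 0 ≤ Y) (hG : P (3 / 8) r * B ≤ κ' * a) :
    cA b ε R0 L (n + r) (uu r) * X ≤ K * Y * κ' * a ^ 2 := by
  have ha := D.apos
  have hK0 : 0 < K := by linarith
  have h1 := D.growth r
  have h2 : cA b ε R0 L (n + r) (uu r) * X ≤ (K * P γ r * a) * (Y * (P (1 / 4 + γ) r * B)) :=
    mul_le_mul h1 hXY hX (by have := P_pos γ r; positivity)
  refine h2.trans ?_
  have h3 : P γ r * P (1 / 4 + γ) r ≤ P (3 / 8) r := by
    rw [P_mul]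
    exact P_le (by linarith) r
  have h4 : P γ r * P (1 / 4 + γ) r * B ≤ κ' * a := (mul_le_mul_of_nonneg_right h3 hB).trans hG
  have h5 := mul_le_mul_of_nonneg_left h4 (by positivity : 0 ≤ K * Y * a)
  calc _ = K * Y * a * (P γ r * P (1 / 4 + γ) r * B) := by ring
    _ ≤ _ := h5
    _ = _ := by ring

/-- the invariant of the induction -/
structure Inv (b : Sp d → ℝ) (ε R0 R : ℝ) (L : (Sp d →L[ℝ] V) →L[ℝ] E) (n0 n : ℕ)
    (uu : ℕ → Sp d → V) (e : ℕ → E) (νs : ℕ → Sp d) (cs : ℕ → ℝ) (γ c1 c20 C4 C7 a B τ : ℝ)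
    (ν : Sp d) (gg : ℕ → ℝ) (r : ℕ) (pt : Sp d) : Prop where
  mass : c1 * a ≤ cI L (uu r) (e r) (zR (R0 / 4))
  plane : ∃ σ : ℝ, σ ^ 2 = 1 ∧ ∀ y, |ht ν (gg r) y - σ * ht (νs r) (cs r) y| ≤
    (C4 * τ * P (1 / 8) r) * (Real.sqrt d + ‖y‖)
  jump : c20 * a - C7 * (P (1 / 4 + γ) r * B) ≤ ‖JJ n0 ν (gg r • ν) 1 (uu r) pt‖

lemma abs_one_of_sq {σ : ℝ} (hσ : σ ^ 2 = 1) : |σ| = 1 := by
  have := sq_abs σ
  rw [hσ] at this
  nlinarith [abs_nonneg σ]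

lemma theta_sq {τ : ℝ} (hτ2 : τ ^ 2 * a = B) (C : ℝ) (r : ℕ) :
    (C * τ * P (1 / 8) r) ^ 2 * a = C ^ 2 * (P (1 / 4) r * B) := by
  have h1 : P (1 / 8) r ^ 2 = P (1 / 4) r := by
    rw [sq, P_mul]; norm_num
  calc _ = C ^ 2 * (P (1 / 8) r ^ 2 * (τ ^ 2 * a)) := by ring
    _ = _ := by rw [h1, hτ2]

lemma theta_le (par : Par d R0 κ CS Cp Cm Ct CM CL CJ K γ c1 c20 C4 C5 C6 C7 κ') (ha : 0 < a)
    (hB : 0 ≤ B) {τ : ℝ} (hτ0 : 0 ≤ τ) (hτ2 : τ ^ 2 * a = B) {r : ℕ}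
    (hG : P (3 / 8) r * B ≤ κ' * a) : 0 ≤ C4 * τ * P (1 / 8) r ∧ C4 * τ * P (1 / 8) r ≤ 1 := by
  have hC4 : 0 < C4 := by rw [par.hC4e]; have := par.hC5; positivity
  have hθ0 : 0 ≤ C4 * τ * P (1 / 8) r := by have := P_pos (1 / 8) r; positivity
  refine ⟨hθ0, ?_⟩
  have h1 : (C4 * τ * P (1 / 8) r) ^ 2 * a ≤ 1 * a := by
    rw [theta_sq hτ2]
    have h0 : P (1 / 4) r * B ≤ κ' * a :=
      (mul_le_mul_of_nonneg_right (P_le (by norm_num) r) hB).trans hG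
    have h2 := mul_le_mul_of_nonneg_left h0 (by positivity : 0 ≤ C4 ^ 2)
    have h3 := mul_le_mul_of_nonneg_right par.t1 ha.le
    linarith
  have h2 := le_of_mul_le_mul_right h1 ha
  nlinarith

/-- consequences of the invariant -/
lemma cons (par : Par d R0 κ CS Cp Cm Ct CM CL CJ K γ c1 c20 C4 C5 C6 C7 κ')
    (ctx : Ctx b ε R0 R L n0 κ c2 CS Cp Cm Ct CM CL CJ C0 Cf)
    (D : Data b ε R0 R CS L n uu ξ e K γ a B νs cs) (hB : 0 ≤ B) {τ : ℝ} (hτ0 : 0 ≤ τ)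
    (hτ2 : τ ^ 2 * a = B) {ν : Sp d} (hν : ‖ν‖ = 1) {gg : ℕ → ℝ} {r : ℕ} {pt : Sp d}
    (inv : Inv b ε R0 R L n0 n uu e νs cs γ c1 c20 C4 C7 a B τ ν gg r pt)
    (hG : P (3 / 8) r * B ≤ κ' * a) :
    |cs r| ≤ R0 / 4 + 2 ∧ |gg r| ≤ R0 / 3 ∧
      cB b ε R0 R L (n + r) (uu r) (e r) ν (gg r) ≤ C6 * (P (1 / 4 + γ) r * B) := by
  have hR0 := par.hR0
  have ha := D.apos
  have ch := D.chain
  have hsq := sqrt_le_eighth d
  have hd0 : (0 : ℝ) ≤ d := Nat.cast_nonneg _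
  obtain ⟨σ, hσ, hq2⟩ := inv.plane
  have h0 : P (1 / 4) r * B ≤ κ' * a :=
    (mul_le_mul_of_nonneg_right (P_le (by norm_num) r) hB).trans hG
  have hc : |cs r| ≤ R0 / 4 + 2 := by
    refine ctx.center (n + r) (uu r) (ch.tf r) (e r) (ch.unit r) (νs r) (cs r) (D.nu r)
      (D.off r) (R0 / 4) (by linarith) (by linarith) (c1 * a) (mul_pos par.hc1 ha) inv.mass ?_
    refine (D.small r).trans (h0.trans ?_)
    have := mul_le_mul_of_nonneg_right par.t2 ha.le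
    linarith
  obtain ⟨hθ0, hθ1⟩ := theta_le par ha hB hτ0 hτ2 hG
  have hθ2 := theta_sq hτ2 C4 r
  set θ : ℝ := C4 * τ * P (1 / 8) r with hθ
  have hg : |gg r| ≤ R0 / 3 := by
    have h1 := hq2 0
    unfold ht at h1
    rw [inner_zero_right, inner_zero_right, norm_zero, add_zero] at h1
    have h2 : |σ| = 1 := abs_one_of_sq hσ
    have h3 : |gg r| ≤ |0 - gg r - σ * (0 - cs r)| + |σ * cs r| := by
      have h4 : -gg r = (0 - gg r - σ * (0 - cs r)) - σ * cs r := by ring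
      rw [← abs_neg, h4]
      exact abs_sub _ _
    rw [abs_mul, h2, one_mul] at h3
    have h5 : θ * Real.sqrt d ≤ 1 * Real.sqrt d :=
      mul_le_mul_of_nonneg_right hθ1 (by positivity)
    linarith
  refine ⟨hc, hg, ?_⟩
  have h1 := ctx.planes (n + r) (uu r) (ch.tf r) (e r) (ch.unit r) ν (νs r) (gg r) (cs r) σ
    θ hν (D.nu r) (by linarith) (D.off r) hσ hθ0 hθ1 hq2
  have h2 := ctx.massle (n + r) (uu r) (ch.tf r) (ξ r) (e r) (e (r + 1)) (ch.unit r)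
    (ch.unit (r + 1)) (ch.step r)
  rw [← ch.zoom r] at h2
  have hK0 : 0 < K := by linarith [par.hK]
  have hCm := par.hCm
  have h3 : max 0 (cA b ε R0 L (n + r + 1) (uu (r + 1))) ≤ 2 * K * P γ r * a := by
    refine max_le (by have := P_pos γ r; positivity) ?_
    refine (D.growth (r + 1)).trans ?_
    have h4 := P_succ_le (by linarith [par.hγ1] : γ ≤ 1) r
    have h5 := mul_le_mul_of_nonneg_left h4 (by positivity : 0 ≤ K * a)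
    linarith
  have h4 := D.Ds_le hB r
  have h5 : max 0 (cI L (uu r) (e r) (zR R0)) ≤ Cm * (2 * K * P γ r * a +
      3 * (P (1 / 4) r * B)) := by
    refine h2.trans (mul_le_mul_of_nonneg_left ?_ hCm.le)
    have e1 : cD b ε R L (n + r + 1) (uu (r + 1)) (e (r + 1)) =
      cD b ε R L (n + (r + 1)) (uu (r + 1)) (e (r + 1)) := rfl
    rw [e1]
    linarith
  have hPB : 0 ≤ P (1 / 4) r * B := mul_nonneg (P_pos _ _).le hB
  have hPle : P (1 / 4) r * B ≤ P (1 / 4 + γ) r * B :=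
    mul_le_mul_of_nonneg_right (P_le (by linarith [par.hγ]) r) hB
  have h6 : θ ^ 2 * max 0 (cI L (uu r) (e r) (zR R0)) ≤
      Cm * (2 * K * C4 ^ 2 + 3) * (P (1 / 4 + γ) r * B) := by
    have h7 := mul_le_mul_of_nonneg_left h5 (sq_nonneg θ)
    refine h7.trans ?_
    have h8 : θ ^ 2 * (2 * K * P γ r * a) = 2 * K * C4 ^ 2 * (P (1 / 4 + γ) r * B) := by
      calc _ = 2 * K * P γ r * (θ ^ 2 * a) := by ring
        _ = 2 * K * P γ r * (C4 ^ 2 * (P (1 / 4) r * B)) := by rw [hθ2]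
        _ = 2 * K * C4 ^ 2 * ((P (1 / 4) r * P γ r) * B) := by ring
        _ = _ := by rw [P_mul]
    have h9 : θ ^ 2 * (3 * (P (1 / 4) r * B)) ≤ 3 * (P (1 / 4 + γ) r * B) := by
      have h10 : θ ^ 2 ≤ 1 := by nlinarith only [hθ0, hθ1]
      have h11 := mul_le_mul_of_nonneg_right h10 (by positivity : 0 ≤ 3 * (P (1 / 4) r * B))
      linarith only [h11, hPle]
    have h10 : θ ^ 2 * (Cm * (2 * K * P γ r * a + 3 * (P (1 / 4) r * B))) =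
      Cm * (θ ^ 2 * (2 * K * P γ r * a) + θ ^ 2 * (3 * (P (1 / 4) r * B))) := by ring
    rw [h10, h8]
    have h11 := mul_le_mul_of_nonneg_left h9 hCm.le
    linarith only [h11]
  have h7 : cB b ε R0 R L (n + r) (uu r) (e r) (νs r) (cs r) +
      θ ^ 2 * max 0 (cI L (uu r) (e r) (zR R0)) ≤
      (1 + Cm * (2 * K * C4 ^ 2 + 3)) * (P (1 / 4 + γ) r * B) := by
    have := D.small r
    linarith only [this, hPle, h6]
  calc _ ≤ _ := h1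
    _ ≤ Cp * ((1 + Cm * (2 * K * C4 ^ 2 + 3)) * (P (1 / 4 + γ) r * B)) :=
      mul_le_mul_of_nonneg_left h7 par.hCp.le
    _ = _ := by rw [par.hC6e]; ring

lemma next_mass (par : Par d R0 κ CS Cp Cm Ct CM CL CJ K γ c1 c20 C4 C5 C6 C7 κ')
    (ctx : Ctx b ε R0 R L n0 κ c2 CS Cp Cm Ct CM CL CJ C0 Cf)
    (D : Data b ε R0 R CS L n uu ξ e K γ a B νs cs) (hB : 0 ≤ B) {τ : ℝ} (hτ0 : 0 ≤ τ)
    (hτ2 : τ ^ 2 * a = B) {ν : Sp d} (hν : ‖ν‖ = 1) {gg : ℕ → ℝ} {r : ℕ} {pt : Sp d}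
    (inv : Inv b ε R0 R L n0 n uu e νs cs γ c1 c20 C4 C7 a B τ ν gg r pt)
    (hG : P (3 / 8) r * B ≤ κ' * a) (hpt : ⟪ν, pt⟫_ℝ = gg r) (hptR : ‖pt‖ ≤ R0 / 3) :
    c1 * a ≤ cI L (uu (r + 1)) (e (r + 1)) (zR (R0 / 4)) := by
  have hR0 := par.hR0
  have ha := D.apos
  have ch := D.chain
  have hc1 := par.hc1
  have hc20 := par.hc20
  have hsq := sqrt_le_eighth d
  have hd0 : (0 : ℝ) ≤ d := Nat.cast_nonneg _
  obtain ⟨-, hgr, hBS⟩ := cons par ctx D hB hτ0 hτ2 hν inv hG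
  have hur := ch.tf r
  have her := ch.unit r
  have her1 := ch.unit (r + 1)
  have hstep := ch.step r
  have hξ := ch.xi r
  have hPγ : P (1 / 4 + γ) r * B ≤ κ' * a :=
    (mul_le_mul_of_nonneg_right (P_le (by linarith [par.hγ1]) r) hB).trans hG
  have hPγ0 : 0 ≤ P (1 / 4 + γ) r * B := mul_nonneg (P_pos _ _).le hB
  have hC70 : 0 < C7 := by
    rw [par.hC7e]; have := par.hCJ; have := par.hC6; positivity
  have hJr : c20 / 2 * a ≤ ‖JJ n0 ν (gg r • ν) 1 (uu r) pt‖ := by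
    have h1 := mul_le_mul_of_nonneg_left hPγ hC70.le
    have h2 := mul_le_mul_of_nonneg_right par.t8 ha.le
    have h3 := inv.jump
    linarith only [h1, h2, h3]
  have hBSn := cB_nonneg b ε R0 R L (n + r) (uu r) her ν (gg r)
  have hBSk : cB b ε R0 R L (n + r) (uu r) (e r) ν (gg r) ≤ C6 * κ' * a := by
    have := mul_le_mul_of_nonneg_left hPγ par.hC6.le
    linarith only [this, hBS]
  have hABS := D.AB hB par.hK par.hγ1 r hBSn hBS par.hC6.le hG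
  have hSM := ctx.sm (n + r) (uu r) hur (e r) her ν (gg r) hν hgr (c1 * a) (by positivity)
    inv.mass (by
      refine hBSk.trans ?_
      have := mul_le_mul_of_nonneg_right par.t4 ha.le
      linarith only [this])
    (by
      refine hABS.trans ?_
      have := mul_le_mul_of_nonneg_right par.t5 (by positivity : 0 ≤ a ^ 2)
      linarith only [this]) pt (c20 / 2 * a) hpt hptR (by positivity) hJr
    (by
      refine hBSk.trans ?_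
      have := mul_le_mul_of_nonneg_right par.t6 ha.le
      linarith only [this])
    (by
      refine hABS.trans ?_
      have := mul_le_mul_of_nonneg_right par.t7 (by positivity : 0 ≤ a ^ 2)
      linarith only [this])
  have htr := ctx.transfer (n + r) (uu r) hur (ξ r) (e r) (e (r + 1)) hξ her her1 hstep
    pt 1 (R0 / 4) le_rfl (by linarith) (by linarith) (by linarith) (by linarith)
  rw [← ch.zoom r] at htr
  have hCM := par.hCM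
  have hCt := par.hCt
  have h1 := mul_le_mul_of_nonneg_left htr hCM.le
  have h2 := D.Ds_le hB r
  have h3 : P (1 / 4) r * B ≤ κ' * a :=
    (mul_le_mul_of_nonneg_right (P_le (by norm_num) r) hB).trans hG
  have e1 : cD b ε R L (n + r + 1) (uu (r + 1)) (e (r + 1)) =
    cD b ε R L (n + (r + 1)) (uu (r + 1)) (e (r + 1)) := rfl
  rw [e1] at h1
  set I1 := cI L (uu (r + 1)) (e (r + 1)) (zR (R0 / 4)) with hI1
  have h4 : CM * Ct * (cD b ε R L (n + r) (uu r) (e r) +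
      cD b ε R L (n + (r + 1)) (uu (r + 1)) (e (r + 1))) ≤ CM * Ct * (3 * (κ' * a)) :=
    mul_le_mul_of_nonneg_left (by linarith only [h2, h3]) (by positivity)
  have h5 := mul_le_mul_of_nonneg_right par.t9 ha.le
  have h6 : c20 / 4 * a ≤ CM * Ct * max 0 I1 := by linarith only [h1, h4, h5, hSM]
  have h7 : c1 * a ≤ max 0 I1 := by
    have h8 : c1 * a ≤ c20 / (4 * (CM * Ct)) * a :=
      mul_le_mul_of_nonneg_right par.hc1b ha.le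
    have h9 : CM * Ct * (c20 / (4 * (CM * Ct)) * a) = c20 / 4 * a := by field_simp
    have h10 : CM * Ct * (c1 * a) ≤ CM * Ct * max 0 I1 :=
      (mul_le_mul_of_nonneg_left h8 (by positivity)).trans (by linarith only [h9, h6])
    exact le_of_mul_le_mul_left h10 (by positivity)
  rcases max_choice 0 I1 with h8 | h8
  · rw [h8] at h7
    have : 0 < c1 * a := by positivity
    linarith only [h7, this]
  · rwa [h8] at h7

lemma next_plane (par : Par d R0 κ CS Cp Cm Ct CM CL CJ K γ c1 c20 C4 C5 C6 C7 κ')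
    (ctx : Ctx b ε R0 R L n0 κ c2 CS Cp Cm Ct CM CL CJ C0 Cf)
    (D : Data b ε R0 R CS L n uu ξ e K γ a B νs cs) (hB : 0 ≤ B) {τ : ℝ} (hτ0 : 0 ≤ τ)
    (hτ2 : τ ^ 2 * a = B) {ν : Sp d} (hν : ‖ν‖ = 1) {gg : ℕ → ℝ} {r : ℕ} {pt : Sp d}
    (hgg : gg (r + 1) = (gg r - ⟪ν, ξ r⟫_ℝ) / 2)
    (inv : Inv b ε R0 R L n0 n uu e νs cs γ c1 c20 C4 C7 a B τ ν gg r pt)
    (hG : P (3 / 8) r * B ≤ κ' * a) (hG1 : P (3 / 8) (r + 1) * B ≤ κ' * a)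
    (hn1 : c1 * a ≤ cI L (uu (r + 1)) (e (r + 1)) (zR (R0 / 4))) :
    ∃ σ : ℝ, σ ^ 2 = 1 ∧ ∀ y, |ht ν (gg (r + 1)) y - σ * ht (νs (r + 1)) (cs (r + 1)) y| ≤
      (C4 * τ * P (1 / 8) (r + 1)) * (Real.sqrt d + ‖y‖) := by
  have hR0 := par.hR0
  have ha := D.apos
  have ch := D.chain
  have hc1 := par.hc1
  have hsq := sqrt_le_eighth d
  have hsq1 := one_le_sqrt par.hd
  have hd0 : (0 : ℝ) ≤ d := Nat.cast_nonneg _
  have hCS := par.hCS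
  have hCL := par.hCL
  have hC5 := par.hC5
  obtain ⟨hcr, -, -⟩ := cons par ctx D hB hτ0 hτ2 hν inv hG
  obtain ⟨σ, hσ, hq2⟩ := inv.plane
  have her := ch.unit r
  have her1 := ch.unit (r + 1)
  have hstep := ch.step r
  have hξ := ch.xi r
  have hPB : P (1 / 4) r * B ≤ κ' * a :=
    (mul_le_mul_of_nonneg_right (P_le (by norm_num) r) hB).trans hG
  have hPB1 : P (1 / 4) (r + 1) * B ≤ κ' * a :=
    (mul_le_mul_of_nonneg_right (P_le (by norm_num) (r + 1)) hB).trans hG1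
  have hPB0 : 0 ≤ P (1 / 4) r * B := mul_nonneg (P_pos _ _).le hB
  have hPle : P (1 / 4) r * B ≤ P (1 / 4 + γ) r * B :=
    mul_le_mul_of_nonneg_right (P_le (by linarith [par.hγ]) r) hB
  have t2a := mul_le_mul_of_nonneg_right par.t2 ha.le
  have hc1' : |cs (r + 1)| ≤ R0 / 4 + 2 := by
    refine ctx.center (n + (r + 1)) (uu (r + 1)) (ch.tf (r + 1)) (e (r + 1)) her1
      (νs (r + 1)) (cs (r + 1)) (D.nu (r + 1)) (D.off (r + 1)) (R0 / 4) (by linarith)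
      (by linarith) (c1 * a) (by positivity) hn1 ?_
    refine (D.small (r + 1)).trans (hPB1.trans ?_)
    linarith only [t2a]
  set c'' : ℝ := 2 * cs (r + 1) + ⟪νs (r + 1), ξ r⟫_ℝ with hc''
  have hc''e : (c'' - ⟪νs (r + 1), ξ r⟫_ℝ) / 2 = cs (r + 1) := by rw [hc'']; ring
  have hc''b : |c''| ≤ 3 * R0 := by
    have h1 := abs_real_inner_le_norm (νs (r + 1)) (ξ r)
    rw [D.nu (r + 1), one_mul] at h1
    have h2 : |c''| ≤ |2 * cs (r + 1)| + |⟪νs (r + 1), ξ r⟫_ℝ| := abs_add_le _ _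
    rw [abs_mul, abs_of_pos (by norm_num : (0 : ℝ) < 2)] at h2
    linarith
  have hABr := D.AB (X := cB b ε R0 R L (n + r) (uu r) (e r) (νs r) (cs r)) (Y := 1) hB par.hK
    par.hγ1 r (cB_nonneg _ _ _ _ _ _ _ her _ _)
    (by rw [one_mul]; exact (D.small r).trans hPle) one_pos.le hG
  obtain ⟨σ', hσ', hPLr⟩ := ctx.pl (n + r) (uu r) (ch.tf r) (e r) her (νs r) (νs (r + 1)) (cs r) c''
    (D.nu r) (D.nu (r + 1)) (by linarith) hc''b (c1 * a) (by positivity) inv.mass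
    (by
      refine (D.small r).trans (hPB.trans ?_)
      linarith only [t2a])
    (by
      refine hABr.trans ?_
      have := mul_le_mul_of_nonneg_right par.t3 (by positivity : 0 ≤ a ^ 2)
      linarith only [this])
  have hbst := hstep.bstep (νs (r + 1)) c'' (D.nu (r + 1)) (by linarith)
  rw [← ch.zoom r, hc''e] at hbst
  have hδ : ‖νs r - σ' • νs (r + 1)‖ ^ 2 + (cs r - σ' * c'') ^ 2 ≤
      (C5 * τ * P (1 / 8) r) ^ 2 := by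
    have h1 : cB b ε R0 R L (n + r) (uu r) (e r) (νs (r + 1)) c'' ≤
        CS * (3 * (P (1 / 4) r * B)) := by
      refine hbst.trans (mul_le_mul_of_nonneg_left ?_ hCS.le)
      have h2 : cB b ε R0 R L (n + r + 1) (uu (r + 1)) (e (r + 1)) (νs (r + 1))
        (cs (r + 1)) ≤ P (1 / 4) (r + 1) * B := D.small (r + 1)
      have h3 := mul_le_mul_of_nonneg_right (P_succ_le (by norm_num : (1 / 4 : ℝ) ≤ 1) r) hB
      have h4 := D.D_le r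
      linarith only [h2, h3, h4]
    have h2 : c1 * a * (‖νs r - σ' • νs (r + 1)‖ ^ 2 + (cs r - σ' * c'') ^ 2) ≤
        CL * (1 + 3 * CS) * (P (1 / 4) r * B) := by
      refine hPLr.trans ?_
      have h3 := D.small r
      have h4 := mul_le_mul_of_nonneg_left (add_le_add h3 h1) hCL.le
      linarith only [h4]
    have h3 := mul_le_mul_of_nonneg_right par.hC5a hPB0
    have h4 : c1 * C5 ^ 2 * (P (1 / 4) r * B) = c1 * a * (C5 * τ * P (1 / 8) r) ^ 2 := by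
      have h5 := theta_sq hτ2 C5 r
      linear_combination (-c1) * h5
    exact le_of_mul_le_mul_left ((h2.trans h3).trans h4.le) (by positivity : 0 < c1 * a)
  have hδ0 : 0 ≤ C5 * τ * P (1 / 8) r := by have := P_pos (1 / 8) r; positivity
  have hσabs : |σ| = 1 := abs_one_of_sq hσ
  refine ⟨σ * σ', by rw [mul_pow, hσ, hσ', one_mul], fun z => ?_⟩
  have h1 : ht ν (gg (r + 1)) z = ht ν (gg r) (ξ r + (2 : ℝ) • z) / 2 := by
    rw [hgg]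
    exact ht_zm _ _ _ _
  have h2 : ht (νs (r + 1)) (cs (r + 1)) z =
      ht (νs (r + 1)) c'' (ξ r + (2 : ℝ) • z) / 2 := by
    rw [← hc''e]
    exact ht_zm _ _ _ _
  set y : Sp d := ξ r + (2 : ℝ) • z with hy
  rw [h1, h2]
  have h3 := hq2 y
  have h4 := ht_dist hδ0 hδ y
  have h5 : ht ν (gg r) y / 2 - σ * σ' * (ht (νs (r + 1)) c'' y / 2) =
      ((ht ν (gg r) y - σ * ht (νs r) (cs r) y) +
        σ * (ht (νs r) (cs r) y - σ' * ht (νs (r + 1)) c'' y)) / 2 := by ring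
  rw [h5, abs_div, abs_of_pos (by norm_num : (0 : ℝ) < 2)]
  have h6 := abs_add_le (ht ν (gg r) y - σ * ht (νs r) (cs r) y)
    (σ * (ht (νs r) (cs r) y - σ' * ht (νs (r + 1)) c'' y))
  rw [abs_mul σ, hσabs, one_mul] at h6
  have h7 : ‖y‖ ≤ Real.sqrt d + 2 * ‖z‖ := by
    have h8 := norm_add_le (ξ r) ((2 : ℝ) • z)
    rw [norm_smul] at h8
    norm_num at h8
    linarith only [h8, hξ]
  have h8 : C5 * τ * P (1 / 8) r * (1 + ‖y‖) ≤ C5 * τ * P (1 / 8) r *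
      (Real.sqrt d + ‖y‖) := mul_le_mul_of_nonneg_left (by linarith only [hsq1]) hδ0
  have hθ0 := (theta_le par ha hB hτ0 hτ2 hG).1
  have h9 : (C4 * τ * P (1 / 8) r + C5 * τ * P (1 / 8) r) * (Real.sqrt d + ‖y‖) ≤
      (C4 * τ * P (1 / 8) r + C5 * τ * P (1 / 8) r) * (2 * (Real.sqrt d + ‖z‖)) :=
    mul_le_mul_of_nonneg_left (by linarith only [h7]) (by linarith only [hθ0, hδ0])
  have h10 : C4 * τ * P (1 / 8) r + C5 * τ * P (1 / 8) r ≤ C4 * τ * P (1 / 8) (r + 1) := by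
    have h11 := mul_le_mul_of_nonneg_left (P_eighth_succ r)
      (by positivity : 0 ≤ C5 * τ)
    rw [par.hC4e]
    linarith only [h11]
  have h11 := mul_le_mul_of_nonneg_right h10
    (by positivity : 0 ≤ Real.sqrt d + ‖z‖)
  linarith only [h3, h4, h6, h8, h9, h11]

lemma next_jump (hSD : StmtSD)
    (par : Par d R0 κ CS Cp Cm Ct CM CL CJ K γ c1 c20 C4 C5 C6 C7 κ')
    (ctx : Ctx b ε R0 R L n0 κ c2 CS Cp Cm Ct CM CL CJ C0 Cf)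
    (D : Data b ε R0 R CS L n uu ξ e K γ a B νs cs) (hB : 0 ≤ B) {τ : ℝ} (hτ0 : 0 ≤ τ)
    (hτ2 : τ ^ 2 * a = B) {ν : Sp d} (hν : ‖ν‖ = 1) {gg : ℕ → ℝ} {r : ℕ} {pt : Sp d}
    (hgg : gg (r + 1) = (gg r - ⟪ν, ξ r⟫_ℝ) / 2)
    (inv : Inv b ε R0 R L n0 n uu e νs cs γ c1 c20 C4 C7 a B τ ν gg r pt)
    (hG : P (3 / 8) r * B ≤ κ' * a) (hptR : ‖pt‖ ≤ R0 / 3) :
    c20 * a - C7 * (P (1 / 4 + γ) (r + 1) * B) ≤
      ‖JJ n0 ν (gg (r + 1) • ν) 1 (uu (r + 1)) ((1 / 2 : ℝ) • (pt - ξ r))‖ := by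
  have hR0 := par.hR0
  have ha := D.apos
  have ch := D.chain
  have hsq := sqrt_le_eighth d
  have hd0 : (0 : ℝ) ≤ d := Nat.cast_nonneg _
  obtain ⟨-, hgr, hBS⟩ := cons par ctx D hB hτ0 hτ2 hν inv hG
  have hξ := ch.xi r
  have hνν : ⟪ν, ν⟫_ℝ = 1 := by rw [real_inner_self_eq_norm_sq, hν]; norm_num
  have hi := abs_real_inner_le_norm ν (ξ r)
  rw [hν, one_mul] at hi
  have e1 : ⟪ν, gg r • ν⟫_ℝ = gg r := by rw [inner_smul_right, hνν, mul_one]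
  have h1 := ctx.jc (n + r) (uu r) (ch.tf r) (e r) (ch.unit r) ν (gg r • ν)
    (ξ r - (⟪ν, ξ r⟫_ℝ - gg r) • ν) hν
    (by rw [e1, inner_sub_right, inner_smul_right, hνν]; ring)
    (by rw [norm_smul, hν, mul_one, Real.norm_eq_abs]; linarith)
    (by
      have h2 := norm_sub_le (ξ r) ((⟪ν, ξ r⟫_ℝ - gg r) • ν)
      rw [norm_smul, hν, mul_one, Real.norm_eq_abs] at h2
      have h3 := abs_sub ⟪ν, ξ r⟫_ℝ (gg r)
      linarith) pt (by linarith)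
  rw [e1] at h1
  have h2 := JJ_zm hSD n0 (ch.tf r) (ξ r) ν (gg r) ((1 / 2 : ℝ) • (pt - ξ r))
  rw [← hgg, ← ch.zoom r] at h2
  have e2 : ξ r + (2 : ℝ) • ((1 / 2 : ℝ) • (pt - ξ r)) = pt := by
    rw [smul_smul]
    norm_num
  rw [e2] at h2
  rw [h2]
  have h3 := norm_sub_norm_le (JJ n0 ν (gg r • ν) 1 (uu r) pt)
    (JJ n0 ν (ξ r - (⟪ν, ξ r⟫_ℝ - gg r) • ν) 2 (uu r) pt)
  rw [norm_sub_rev] at h3
  have h4 := inv.jump
  have hCJ := par.hCJ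
  have hC6 := par.hC6
  have h5 := mul_le_mul_of_nonneg_left hBS hCJ.le
  have h6 := mul_le_mul_of_nonneg_right (P_quarter_succ (s := 1 / 4 + γ)
    (by linarith [par.hγ]) r) hB
  have h7 := mul_le_mul_of_nonneg_left h6 (by positivity : 0 ≤ CJ * C6)
  rw [par.hC7e] at h4 ⊢
  linarith only [h1, h3, h4, h5, h7]

lemma next (hSD : StmtSD)
    (par : Par d R0 κ CS Cp Cm Ct CM CL CJ K γ c1 c20 C4 C5 C6 C7 κ')
    (ctx : Ctx b ε R0 R L n0 κ c2 CS Cp Cm Ct CM CL CJ C0 Cf)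
    (D : Data b ε R0 R CS L n uu ξ e K γ a B νs cs) (hB : 0 ≤ B) {τ : ℝ} (hτ0 : 0 ≤ τ)
    (hτ2 : τ ^ 2 * a = B) {ν : Sp d} (hν : ‖ν‖ = 1) {gg : ℕ → ℝ} {r : ℕ} {pt : Sp d}
    (hgg : gg (r + 1) = (gg r - ⟪ν, ξ r⟫_ℝ) / 2)
    (inv : Inv b ε R0 R L n0 n uu e νs cs γ c1 c20 C4 C7 a B τ ν gg r pt)
    (hG1 : P (3 / 8) (r + 1) * B ≤ κ' * a) (hpt : ⟪ν, pt⟫_ℝ = gg r) (hptR : ‖pt‖ ≤ R0 / 3) :
    Inv b ε R0 R L n0 n uu e νs cs γ c1 c20 C4 C7 a B τ ν gg (r + 1)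
      ((1 / 2 : ℝ) • (pt - ξ r)) := by
  have hG : P (3 / 8) r * B ≤ κ' * a :=
    (mul_le_mul_of_nonneg_right (P_mono (by norm_num) (by omega)) hB).trans hG1
  have hm := next_mass par ctx D hB hτ0 hτ2 hν inv hG hpt hptR
  exact ⟨hm, next_plane par ctx D hB hτ0 hτ2 hν hgg inv hG hG1 hm,
    next_jump hSD par ctx D hB hτ0 hτ2 hν hgg inv hG hptR⟩

/-- the induction -/
lemma induct (hSD : StmtSD)
    (par : Par d R0 κ CS Cp Cm Ct CM CL CJ K γ c1 c20 C4 C5 C6 C7 κ')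
    (ctx : Ctx b ε R0 R L n0 κ c2 CS Cp Cm Ct CM CL CJ C0 Cf)
    (D : Data b ε R0 R CS L n uu ξ e K γ a B νs cs) (hB : 0 ≤ B)
    (hm3 : c1 * a ≤ cI L (uu 3) (e 3) (zR (R0 / 4))) {gg : ℕ → ℝ}
    (hgg : ∀ r, gg (r + 1) = (gg r - ⟪νs 3, ξ r⟫_ℝ) / 2) (hgg3 : gg 3 = cs 3)
    {p : Sp d} (hp : ⟪νs 3, p⟫_ℝ = cs 3) (hpR : ‖p‖ ≤ R0 / 3)
    (hJ : c20 * a ≤ ‖JJ n0 (νs 3) (cs 3 • νs 3) 1 (uu 3) p‖) (k : ℕ)
    (hG : P (3 / 8) (3 + k) * B ≤ κ' * a) :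
    cB b ε R0 R L (n + (3 + k)) (uu (3 + k)) (e (3 + k)) (νs 3) (gg (3 + k)) ≤
      C6 * (P (1 / 4 + γ) (3 + k) * B) := by
  have ha := D.apos
  have hR0 := par.hR0
  have hsq := sqrt_le_eighth d
  have hd0 : (0 : ℝ) ≤ d := Nat.cast_nonneg _
  obtain ⟨τ, hτ0, hτ2⟩ : ∃ τ : ℝ, 0 ≤ τ ∧ τ ^ 2 * a = B := by
    refine ⟨Real.sqrt (B / a), Real.sqrt_nonneg _, ?_⟩
    rw [Real.sq_sqrt (by positivity)]
    field_simp
  have hall : ∀ k, P (3 / 8) (3 + k) * B ≤ κ' * a → ∃ pt : Sp d, ⟪νs 3, pt⟫_ℝ = gg (3 + k) ∧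
      ‖pt‖ ≤ R0 / 3 ∧
      Inv b ε R0 R L n0 n uu e νs cs γ c1 c20 C4 C7 a B τ (νs 3) gg (3 + k) pt := by
    intro k
    induction k with
    | zero =>
      intro _
      refine ⟨p, by rw [hp]; exact hgg3.symm, hpR, hm3, ⟨1, by norm_num, fun y => ?_⟩, ?_⟩
      · have e1 : ht (νs 3) (gg (3 + 0)) y - 1 * ht (νs (3 + 0)) (cs (3 + 0)) y = 0 := by
          have : gg (3 + 0) = cs 3 := hgg3
          rw [this]
          simp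
        rw [e1, abs_zero]
        have h1 := P_pos (1 / 8) (3 + 0)
        have h2 : 0 ≤ C4 := by rw [par.hC4e]; have := par.hC5; positivity
        positivity
      · have e1 : gg (3 + 0) = cs 3 := hgg3
        have hC70 : 0 < C7 := by
          rw [par.hC7e]; have := par.hCJ; have := par.hC6; positivity
        rw [e1]
        have h1 : 0 ≤ C7 * (P (1 / 4 + γ) (3 + 0) * B) := by
          have := P_pos (1 / 4 + γ) (3 + 0)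
          positivity
        have e2 : uu (3 + 0) = uu 3 := rfl
        rw [e2]
        linarith only [h1, hJ]
    | succ k ih =>
      intro hG1
      have hG : P (3 / 8) (3 + k) * B ≤ κ' * a :=
        (mul_le_mul_of_nonneg_right (P_mono (by norm_num) (by omega)) hB).trans hG1
      obtain ⟨pt, hpt, hptR, inv⟩ := ih hG
      refine ⟨(1 / 2 : ℝ) • (pt - ξ (3 + k)), ?_, ?_, ?_⟩
      · rw [inner_smul_right, inner_sub_right, hpt]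
        have := hgg (3 + k)
        have e1 : 3 + (k + 1) = 3 + k + 1 := rfl
        rw [e1, this]
        ring
      · rw [norm_smul]
        have h1 := norm_sub_le pt (ξ (3 + k))
        have h2 := D.chain.xi (3 + k)
        norm_num
        linarith
      · exact next hSD par ctx D hB hτ0 hτ2 (D.nu 3) (hgg (3 + k)) inv hG1 hpt hptR
  obtain ⟨pt, -, -, inv⟩ := hall k hG
  exact (cons par ctx D hB hτ0 hτ2 (D.nu 3) inv hG).2.2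

end Ind

end CM

end

end TG
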