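import Pool.Agent.TG.CM3

/-!
# Trace inequality, module CM, part 4: the statement in the frames
-/

set_option autoImplicit false
set_option linter.unusedSectionVars false

open MeasureTheory Metric Set TrI
open scoped InnerProductSpace ContDiff

namespace TG

noncomputable section

namespace CM

variable {d : ℕ} {V E : Type} [NormedAddCommGroup V] [InnerProductSpace ℝ V]
  [FiniteDimensional ℝ V] [NormedAddCommGroup E] [InnerProductSpace ℝ E] [FiniteDimensional ℝ E]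

variable {b : Sp d → ℝ} {ε R0 R : ℝ} {L : (Sp d →L[ℝ] V) →L[ℝ] E} {n0 n : ℕ}
  {κ c2 CS Cp Cm Ct CM CL CJ C0 Cf K γ a B : ℝ}
  {uu : ℕ → Sp d → V} {ξ : ℕ → Sp d} {e : ℕ → E} {νs : ℕ → Sp d} {cs : ℕ → ℝ}

lemma P_le_two {s : ℝ} {r : ℕ} (h : s * r ≤ 1) : P s r ≤ 2 := by
  unfold P
  calc (2 : ℝ) ^ (s * (r : ℝ)) ≤ 2 ^ (1 : ℝ) :=
        Real.rpow_le_rpow_of_exponent_le (by norm_num) h
    _ = 2 := Real.rpow_one 2

lemma P_le_four {s : ℝ} {r : ℕ} (h : s * r ≤ 2) : P s r ≤ 4 := by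
  unfold P
  calc (2 : ℝ) ^ (s * (r : ℝ)) ≤ 2 ^ (2 : ℝ) :=
        Real.rpow_le_rpow_of_exponent_le (by norm_num) h
    _ = 4 := by norm_num

/-- the far bound -/
lemma farb (D : Data b ε R0 R CS L n uu ξ e K γ a B νs cs) (hB : 0 ≤ B) (hK : 1 ≤ K)
    (hγ : 0 < γ) (hγ1 : γ ≤ 1 / 32) (hCS : 0 < CS) {κ1 : ℝ} (hκ1 : 0 < κ1) {ν : Sp d}
    (hν : ‖ν‖ = 1) {g : ℝ} (hg : |g| ≤ 4 * R0) {r : ℕ} (hG : κ1 * a ≤ P (3 / 8) r * B) :
    cB b ε R0 R L (n + r) (uu r) (e r) ν g ≤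
      (2 * CS * K / κ1 + 3 * CS + 1) * (P (3 / 8 + γ) r * B) := by
  have hK0 : 0 < K := by linarith
  have ha := D.apos
  have ch := D.chain
  rw [cB_eq]
  have h1 := (ch.step r).far ν g hν hg
  rw [← ch.zoom r] at h1
  have h2 := D.growth (r + 1)
  have h3 := D.Ds_le hB r
  have h4 := D.D_le r
  have e1 : cD b ε R L (n + r + 1) (uu (r + 1)) (e (r + 1)) =
    cD b ε R L (n + (r + 1)) (uu (r + 1)) (e (r + 1)) := rfl
  have e2 : cA b ε R0 L (n + r + 1) (uu (r + 1)) = cA b ε R0 L (n + (r + 1)) (uu (r + 1)) := rfl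
  rw [e1, e2] at h1
  have h5 : K * P γ (r + 1) * a ≤ 2 * K * P γ r * a := by
    have h6 := mul_le_mul_of_nonneg_left (P_succ_le (by linarith : γ ≤ 1) r)
      (by positivity : 0 ≤ K * a)
    linarith only [h6]
  have h6 : a ≤ P (3 / 8) r * B / κ1 := by
    rw [le_div_iff₀ hκ1]
    linarith only [hG]
  have hPγ := P_pos γ r
  have h7 : 2 * K * P γ r * a ≤ 2 * K / κ1 * (P (3 / 8 + γ) r * B) := by
    have h8 := mul_le_mul_of_nonneg_left h6 (by positivity : 0 ≤ 2 * K * P γ r)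
    refine h8.trans (le_of_eq ?_)
    rw [← P_mul]
    field_simp
  have h8 : P (1 / 4) r * B ≤ P (3 / 8 + γ) r * B :=
    mul_le_mul_of_nonneg_right (P_le (by linarith) r) hB
  have h9 : cA b ε R0 L (n + (r + 1)) (uu (r + 1)) + cD b ε R L (n + r) (uu r) (e r) +
      cD b ε R L (n + (r + 1)) (uu (r + 1)) (e (r + 1)) ≤
      2 * K / κ1 * (P (3 / 8 + γ) r * B) + 3 * (P (3 / 8 + γ) r * B) := by
    linarith only [h2, h3, h5, h7, h8]
  have h10 := mul_le_mul_of_nonneg_left h9 hCS.le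
  have h11 : CS * (2 * K / κ1 * (P (3 / 8 + γ) r * B) + 3 * (P (3 / 8 + γ) r * B)) =
      (2 * CS * K / κ1 + 3 * CS) * (P (3 / 8 + γ) r * B) := by ring
  linarith only [h1, h10, h11, h4, h8]

/-- the mass at level 3 -/
lemma level3 (ctx : Ctx b ε R0 R L n0 κ c2 CS Cp Cm Ct CM CL CJ C0 Cf)
    (D : Data b ε R0 R CS L n uu ξ e K γ a B νs cs) (hB : 0 ≤ B) (hCt : 0 < Ct) (hC0 : 0 < C0)
    (hR0 : 200 + 8 * d ≤ R0) {ρ : ℝ} (hρ : R0 / 7 ≤ ρ) (hρ2 : ρ ≤ R0) :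
    a ≤ Ct ^ 3 * max 0 (cI L (uu 3) (e 3) (zR ρ)) +
      (2 * C0 + 4 * Ct + 4 * Ct ^ 2 + 4 * Ct ^ 3) * B := by
  have ch := D.chain
  have hsq := sqrt_le_eighth d
  have hsq0 : 0 ≤ Real.sqrt d := Real.sqrt_nonneg _
  have hd0 : (0 : ℝ) ≤ d := Nat.cast_nonneg _
  have hD : ∀ r, r ≤ 3 → cD b ε R L (n + r) (uu r) (e r) ≤ 2 * B := by
    intro r hr
    refine (D.D_le r).trans (mul_le_mul_of_nonneg_right (P_le_two ?_) hB)
    have : (r : ℝ) ≤ 3 := by exact_mod_cast hr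
    linarith
  have htr : ∀ (r : ℕ), r ≤ 2 → ∀ (ρ ρ' : ℝ), 1 ≤ ρ → 1 ≤ ρ' → ρ' ≤ R0 → ρ + 1 ≤ 4 * R0 →
      (ρ + 1 + Real.sqrt d) / 2 ≤ ρ' →
      max 0 (cI L (uu r) (e r) (zR ρ)) ≤
        Ct * (max 0 (cI L (uu (r + 1)) (e (r + 1)) (zR ρ')) + 4 * B) := by
    intro r hr ρ ρ' h1 h2 h3 h4 h5
    have h6 := ctx.transfer (n + r) (uu r) (ch.tf r) (ξ r) (e r) (e (r + 1)) (ch.xi r)
      (ch.unit r) (ch.unit (r + 1)) (ch.step r) 0 ρ ρ' h1 h2 h3
      (by rw [norm_zero]; linarith) (by rw [norm_zero]; linarith)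
    simp only [sub_zero] at h6
    rw [← ch.zoom r] at h6
    have h7 := hD r (by omega)
    have h8 := hD (r + 1) (by omega)
    have e1 : cD b ε R L (n + r + 1) (uu (r + 1)) (e (r + 1)) =
      cD b ε R L (n + (r + 1)) (uu (r + 1)) (e (r + 1)) := rfl
    rw [e1] at h6
    have h9 : 0 ≤ max 0 (cI L (uu (r + 1)) (e (r + 1)) (zR ρ')) := le_max_left _ _
    refine max_le (by positivity) (h6.trans (mul_le_mul_of_nonneg_left ?_ hCt.le))
    linarith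
  have h0 := ctx.mass0 n (uu 0) (ch.tf 0) (e 0) (ch.unit 0)
  rw [← D.aeq] at h0
  have h0D : cD b ε R L n (uu 0) (e 0) ≤ 2 * B := hD 0 (by norm_num)
  have h1 := htr 0 (by norm_num) (R0 + 2) ((R0 + 3 + Real.sqrt d) / 2) (by linarith)
    (by linarith) (by linarith) (by linarith) (by linarith)
  have h2 := htr 1 (by norm_num) ((R0 + 3 + Real.sqrt d) / 2)
    (((R0 + 3 + Real.sqrt d) / 2 + 1 + Real.sqrt d) / 2) (by linarith)
    (by linarith) (by linarith) (by linarith) le_rfl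
  have h3 := htr 2 (by norm_num) (((R0 + 3 + Real.sqrt d) / 2 + 1 + Real.sqrt d) / 2) ρ
    (by linarith) (by linarith) hρ2 (by linarith) (by linarith)
  norm_num only at h1 h2 h3
  have h4 := mul_le_mul_of_nonneg_left h3 hCt.le
  have h5 : Ct * (max 0 (cI L (uu 2) (e 2)
      (zR (((R0 + 3 + Real.sqrt d) / 2 + 1 + Real.sqrt d) / 2))) + 4 * B) ≤
      Ct * (Ct * (max 0 (cI L (uu 3) (e 3) (zR ρ)) + 4 * B) + 4 * B) :=
    mul_le_mul_of_nonneg_left (by linarith only [h3]) hCt.le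
  have h6 : Ct * (max 0 (cI L (uu 1) (e 1) (zR ((R0 + 3 + Real.sqrt d) / 2))) + 4 * B) ≤
      Ct * (Ct * (Ct * (max 0 (cI L (uu 3) (e 3) (zR ρ)) + 4 * B) + 4 * B) + 4 * B) :=
    mul_le_mul_of_nonneg_left (by linarith only [h2, h5]) hCt.le
  have h7 := le_max_right 0 (cI L (uu 0) (e 0) (zR (R0 + 2)))
  have h8 := mul_le_mul_of_nonneg_left h0D hC0.le
  have h9 : Ct * (Ct * (Ct * (max 0 (cI L (uu 3) (e 3) (zR ρ)) + 4 * B) + 4 * B) + 4 * B) =
    Ct ^ 3 * max 0 (cI L (uu 3) (e 3) (zR ρ)) + (4 * Ct + 4 * Ct ^ 2 + 4 * Ct ^ 3) * B := by ring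
  linarith only [h0, h1, h6, h7, h8, h9]

/-- the offset sequence of a plane -/
def offs (ν : Sp d) (ξ : ℕ → Sp d) (g0 : ℝ) : ℕ → ℝ
  | 0 => g0
  | r + 1 => (offs ν ξ g0 r - ⟪ν, ξ r⟫_ℝ) / 2

lemma offs_le {ν : Sp d} (hν : ‖ν‖ = 1) {ξ : ℕ → Sp d} (hξ : ∀ r, ‖ξ r‖ ≤ Real.sqrt d) {A : ℝ}
    (hA : Real.sqrt d ≤ A) {g0 : ℝ} (h0 : |g0| ≤ A) (r : ℕ) : |offs ν ξ g0 r| ≤ A := by
  induction r with
  | zero => exact h0
  | succ r ih =>
    unfold offs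
    rw [abs_div, abs_of_pos (by norm_num : (0 : ℝ) < 2)]
    have h1 := abs_real_inner_le_norm ν (ξ r)
    rw [hν, one_mul] at h1
    have h2 := abs_sub (offs ν ξ g0 r) ⟪ν, ξ r⟫_ℝ
    have h3 := hξ r
    linarith

/-- the constant in the bound of the low levels -/
lemma low_levels (D : Data b ε R0 R CS L n uu ξ e K γ a B νs cs) (hB : 0 ≤ B) (hCS : 0 < CS)
    {ν : Sp d} (hν : ‖ν‖ = 1) {g : ℕ → ℝ} (hg : ∀ r, g (r + 1) = (g r - ⟪ν, ξ r⟫_ℝ) / 2)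
    (hgb : ∀ r, |g r| ≤ 4 * R0) {Z : ℝ}
    (h3 : cB b ε R0 R L (n + 3) (uu 3) (e 3) ν (g 3) ≤ Z * B) :
    cB b ε R0 R L (n + 2) (uu 2) (e 2) ν (g 2) ≤ CS * (Z + 2) * B ∧
    cB b ε R0 R L (n + 1) (uu 1) (e 1) ν (g 1) ≤ CS * (CS * (Z + 2) + 2) * B ∧
    cB b ε R0 R L n (uu 0) (e 0) ν (g 0) ≤ CS * (CS * (CS * (Z + 2) + 2) + 2) * B := by
  have ch := D.chain
  have hD : ∀ r, r ≤ 3 → cD b ε R L (n + r) (uu r) (e r) ≤ 2 * B := by
    intro r hr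
    refine (D.D_le r).trans (mul_le_mul_of_nonneg_right (P_le_two ?_) hB)
    have : (r : ℝ) ≤ 3 := by exact_mod_cast hr
    linarith
  have hst : ∀ (r : ℕ) (Z : ℝ), r ≤ 3 →
      cB b ε R0 R L (n + (r + 1)) (uu (r + 1)) (e (r + 1)) ν (g (r + 1)) ≤ Z * B →
      cB b ε R0 R L (n + r) (uu r) (e r) ν (g r) ≤ CS * (Z + 2) * B := by
    intro r Z hr h
    have h1 := (ch.step r).bstep ν (g r) hν (hgb r)
    rw [← ch.zoom r, ← hg r] at h1
    have e1 : cB b ε R0 R L (n + r + 1) (uu (r + 1)) (e (r + 1)) ν (g (r + 1)) =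
      cB b ε R0 R L (n + (r + 1)) (uu (r + 1)) (e (r + 1)) ν (g (r + 1)) := rfl
    rw [e1] at h1
    have h2 := mul_le_mul_of_nonneg_left (add_le_add h (hD r hr)) hCS.le
    linarith only [h1, h2]
  have h2 := hst 2 _ (by norm_num) h3
  have h1 := hst 1 _ (by norm_num) h2
  have h0 := hst 0 _ (by norm_num) h1
  exact ⟨h2, h1, h0⟩

theorem frameCM (hNS' : TrI.StmtNS) (hSHB : StmtSHB) (hPL : StmtPL) (hSM : StmtSM)
    (hJC : StmtJC) (hZ : StmtZ) (hMA : StmtMA) (hTW : StmtTW) (hSC : StmtSC) (hSD : StmtSD)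
    (hd : 2 ≤ d) (hL : CEll L) {M c0 : ℝ} (hε : 0 < ε) (hε1 : ε ≤ 1) (hb : BaseKer 2 M c0 b)
    (hR0 : 200 + 8 * d ≤ R0) (hγ : 0 < γ) (hγ1 : γ ≤ 1 / 32) (hK : 1 ≤ K) :
    FrameCM b ε R0 K γ L := by
  obtain ⟨n0, T, hn0, hNS⟩ := hNS' d V E L hL
  obtain ⟨κ, c2, CS, Cp, Cm, Ct, CM, CL, CJ, C0, Cf, hκ, hc2, hCS, hCp, hCm, hCt, hCM, hCL, hCJ,
    hC0, hCf, hctx⟩ := exists_ctx hSHB hPL hSM hJC hZ hMA hTW hSC hSD hd hε hε1 hb hL hn0 hNS hR0
  have hK0 : 0 < K := by linarith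
  have hsq := sqrt_le_eighth d
  have hd0 : (0 : ℝ) ≤ d := Nat.cast_nonneg _
  obtain ⟨c10, hc10⟩ : ∃ c : ℝ, c = 1 / (2 * Ct ^ 3) := ⟨_, rfl⟩
  have hc100 : 0 < c10 := by rw [hc10]; positivity
  obtain ⟨c20, hc20⟩ : ∃ c : ℝ, c = c2 * c10 := ⟨_, rfl⟩
  have hc200 : 0 < c20 := by rw [hc20]; positivity
  obtain ⟨c1, C4, C5, C6, C7, κ', hc1, par⟩ := exists_par hd hR0 hκ hCS hCp hCm hCt hCM hCL hCJ
    hK hγ hγ1 hc100 hc200
  have hC6 := par.hC6
  obtain ⟨Z, hZe⟩ : ∃ Z : ℝ, Z = 2 * C6 := ⟨_, rfl⟩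
  have hZ0 : 0 < Z := by rw [hZe]; positivity
  obtain ⟨CC, hCC⟩ : ∃ CC : ℝ, CC = 2 * C0 + 4 * Ct + 4 * Ct ^ 2 + 4 * Ct ^ 3 := ⟨_, rfl⟩
  obtain ⟨κF, hκF, hk⟩ := exists_small [(1, κ'), (CC, 1 / 2), (1, κ * c10), (K, κ * c10 ^ 2),
    (Cf * (CS * (CS * (Z + 2) + 2) + 2), 1 / 2)] (by
      intro q hq
      simp only [List.mem_cons, List.not_mem_nil, or_false] at hq
      rcases hq with h | h | h | h | h <;> (subst h; simp only)
      · exact par.hκ'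
      · norm_num
      · positivity
      · positivity
      · norm_num)
  have s0 := hk (1, κ') (by simp)
  have s1 := hk (CC, 1 / 2) (by simp)
  have s2 := hk (1, κ * c10) (by simp)
  have s3 := hk (K, κ * c10 ^ 2) (by simp)
  have s4 := hk (Cf * (CS * (CS * (Z + 2) + 2) + 2), 1 / 2) (by simp)
  simp only at s0 s1 s2 s3 s4
  clear hk
  obtain ⟨X1, hX1⟩ : ∃ X : ℝ, X = 2 * CS * K / (κF / 4) + 3 * CS + 1 := ⟨_, rfl⟩
  obtain ⟨X2, hX2⟩ : ∃ X : ℝ, X = CS * (Z + 2) := ⟨_, rfl⟩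
  obtain ⟨X3, hX3⟩ : ∃ X : ℝ, X = CS * (CS * (Z + 2) + 2) := ⟨_, rfl⟩
  obtain ⟨X4, hX4⟩ : ∃ X : ℝ, X = CS * (CS * (CS * (Z + 2) + 2) + 2) := ⟨_, rfl⟩
  have hX10 : 0 < X1 := by rw [hX1]; positivity
  have hX20 : 0 < X2 := by rw [hX2]; positivity
  have hX30 : 0 < X3 := by rw [hX3]; positivity
  have hX40 : 0 < X4 := by rw [hX4]; positivity
  refine ⟨C6 + X1 + X2 + X3 + X4, by positivity, ?_⟩
  intro R hR n uu ξ e htf hzoom hxi hunit a ha haeq hgrow νs cs B hνs hcs hB hsmall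
  obtain ⟨ctx, hstep⟩ := hctx R hR
  have ch : Chain b ε R0 R CS L n uu ξ e :=
    ⟨htf, hzoom, hxi, hunit, fun r => hstep (n + r) (uu r) (htf r) (ξ r) (e r) (e (r + 1)) (hxi r)
      (hunit r) (hunit (r + 1))⟩
  have D : Data b ε R0 R CS L n uu ξ e K γ a B νs cs :=
    ⟨ch, ha, haeq, hgrow, hνs, hcs, hsmall⟩
  have hPB : ∀ r, 0 ≤ P (3 / 8 + γ) r * B := fun r => mul_nonneg (P_pos _ _).le hB
  have hBle : ∀ r, B ≤ P (3 / 8 + γ) r * B := fun r =>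
    le_mul_of_one_le_left hB (one_le_P (by linarith) r)
  by_cases hG3 : P (3 / 8) 3 * B ≤ κF * a
  swap
  · -- case 1
    push Not at hG3
    refine ⟨νs 0, offs (νs 0) ξ 0, hνs 0, ?_, fun r => rfl, fun r => ?_⟩
    · change |(0 : ℝ)| ≤ R0 + 3
      rw [abs_zero]
      linarith
    · have h4 : P (3 / 8) 3 ≤ 4 := P_le_four (by norm_num)
      have h5 : κF / 4 * a ≤ P (3 / 8) r * B := by
        have h6 := mul_le_mul_of_nonneg_right h4 hB
        have h7 : B ≤ P (3 / 8) r * B := le_mul_of_one_le_left hB (one_le_P (by norm_num) r)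
        linarith only [hG3, h6, h7]
      have h6 := farb D hB hK hγ hγ1 hCS (by positivity : 0 < κF / 4) (hνs 0)
        (g := offs (νs 0) ξ 0 r)
        (offs_le (hνs 0) hxi (by linarith) (by rw [abs_zero]; linarith) r) h5
      rw [← hX1] at h6
      refine h6.trans (mul_le_mul_of_nonneg_right ?_ (hPB r))
      linarith only [hC6, hX10, hX20, hX30, hX40]
  -- case 2
  have hP3 : 1 ≤ P (3 / 8) 3 := one_le_P (by norm_num) 3
  have hBa : B ≤ κF * a := (le_mul_of_one_le_left hB hP3).trans hG3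
  have hm : ∀ ρ, R0 / 7 ≤ ρ → ρ ≤ R0 → c10 * a ≤ cI L (uu 3) (e 3) (zR ρ) := by
    intro ρ h1 h2
    have h3 := level3 ctx D hB hCt hC0 hR0 h1 h2
    rw [← hCC] at h3
    have hCC0 : 0 < CC := by rw [hCC]; positivity
    have h4 : CC * B ≤ a / 2 := by
      have h5 := mul_le_mul_of_nonneg_left hBa hCC0.le
      have h6 := mul_le_mul_of_nonneg_right s1 ha.le
      linarith only [h5, h6]
    have h5 : a / 2 ≤ Ct ^ 3 * max 0 (cI L (uu 3) (e 3) (zR ρ)) := by linarith only [h3, h4]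
    have h6 : c10 * a ≤ max 0 (cI L (uu 3) (e 3) (zR ρ)) := by
      have h7 : Ct ^ 3 * (c10 * a) = a / 2 := by rw [hc10]; field_simp
      rw [← h7] at h5
      exact le_of_mul_le_mul_left h5 (by positivity)
    rcases max_choice 0 (cI L (uu 3) (e 3) (zR ρ)) with h8 | h8
    · rw [h8] at h6
      have : 0 < c10 * a := by positivity
      linarith only [h6, this]
    · rwa [h8] at h6
  have hP14 : P (1 / 4) 3 * B ≤ κF * a :=
    (mul_le_mul_of_nonneg_right (P_le (by norm_num) 3) hB).trans hG3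
  have hs2a := mul_le_mul_of_nonneg_right s2 ha.le
  have hB3 : cB b ε R0 R L (n + 3) (uu 3) (e 3) (νs 3) (cs 3) ≤ κ * (c10 * a) := by
    refine (hsmall 3).trans (hP14.trans ?_)
    linarith only [hs2a]
  have hcs3 : |cs 3| ≤ R0 / 7 + 2 := by
    refine ctx.center (n + 3) (uu 3) (htf 3) (e 3) (hunit 3) (νs 3) (cs 3) (hνs 3) (hcs 3)
      (R0 / 7) (by linarith) (by linarith) (c10 * a) (by positivity)
      (hm (R0 / 7) le_rfl (by linarith)) hB3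
  have hAB3 : cA b ε R0 L (n + 3) (uu 3) * cB b ε R0 R L (n + 3) (uu 3) (e 3) (νs 3) (cs 3) ≤
      κ * (c10 * a) ^ 2 := by
    have h1 := D.AB (κ' := κF) (X := cB b ε R0 R L (n + 3) (uu 3) (e 3) (νs 3) (cs 3)) (Y := 1)
      hB hK hγ1 3 (cB_nonneg _ _ _ _ _ _ _ (hunit 3) _ _)
      (by
        rw [one_mul]
        exact (hsmall 3).trans (mul_le_mul_of_nonneg_right (P_le (by linarith) 3) hB))
      one_pos.le hG3
    refine h1.trans ?_
    have := mul_le_mul_of_nonneg_right s3 (by positivity : 0 ≤ a ^ 2)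
    linarith only [this]
  obtain ⟨p, hp, hpR, hpJ⟩ := ctx.base (n + 3) (uu 3) (htf 3) (e 3) (hunit 3) (νs 3) (cs 3)
    (hνs 3) hcs3 (c10 * a) (by positivity) (hm (R0 / 7) le_rfl (by linarith)) hB3 hAB3
  -- the offsets
  have hi : ∀ r, |⟪νs 3, ξ r⟫_ℝ| ≤ Real.sqrt d := by
    intro r
    have h1 := abs_real_inner_le_norm (νs 3) (ξ r)
    rw [hνs 3, one_mul] at h1
    exact h1.trans (hxi r)
  obtain ⟨g0, hg0⟩ : ∃ g0 : ℝ, g0 = 8 * cs 3 + 4 * ⟪νs 3, ξ 2⟫_ℝ + 2 * ⟪νs 3, ξ 1⟫_ℝ +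
    ⟪νs 3, ξ 0⟫_ℝ := ⟨_, rfl⟩
  have hg0b : |g0| ≤ 4 * R0 := by
    have h1 := abs_le.mp (hi 0)
    have h2 := abs_le.mp (hi 1)
    have h3 := abs_le.mp (hi 2)
    have h4 := abs_le.mp hcs3
    rw [hg0, abs_le]
    constructor <;> linarith [h1.1, h1.2, h2.1, h2.2, h3.1, h3.2, h4.1, h4.2]
  set g := offs (νs 3) ξ g0 with hg
  have hgg : ∀ r, g (r + 1) = (g r - ⟪νs 3, ξ r⟫_ℝ) / 2 := fun r => rfl
  have hg3 : g 3 = cs 3 := by
    have e0 : g 0 = g0 := rfl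
    rw [hgg 2, hgg 1, hgg 0, e0, hg0]
    ring
  have hgb : ∀ r, |g r| ≤ 4 * R0 := fun r => offs_le (hνs 3) hxi (by linarith) hg0b r
  have hind : ∀ k, P (3 / 8) (3 + k) * B ≤ κ' * a →
      cB b ε R0 R L (n + (3 + k)) (uu (3 + k)) (e (3 + k)) (νs 3) (g (3 + k)) ≤
      C6 * (P (1 / 4 + γ) (3 + k) * B) := by
    intro k hk
    refine induct hSD par ctx D hB ?_ hgg hg3 hp hpR ?_ k hk
    · exact (mul_le_mul_of_nonneg_right hc1 ha.le).trans (hm (R0 / 4) (by linarith) (by linarith))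
    · rw [hc20]
      linarith only [hpJ]
  have hκFκ' : κF * a ≤ κ' * a := by
    have := mul_le_mul_of_nonneg_right s0 ha.le
    linarith only [this]
  have h3Z : cB b ε R0 R L (n + 3) (uu 3) (e 3) (νs 3) (g 3) ≤ Z * B := by
    have h1 := hind 0 (hG3.trans hκFκ')
    have h2 : P (1 / 4 + γ) (3 + 0) ≤ 2 := P_le_two (by push_cast; linarith)
    have h3 := mul_le_mul_of_nonneg_right h2 hB
    have h4 := mul_le_mul_of_nonneg_left h3 hC6.le
    rw [hZe]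
    refine h1.trans ?_
    linarith only [h4]
  obtain ⟨hl2, hl1, hl0⟩ := low_levels D hB hCS (hνs 3) hgg hgb h3Z
  rw [← hX2] at hl2
  rw [← hX3] at hl1
  rw [← hX4] at hl0
  refine ⟨νs 3, g, hνs 3, ?_, hgg, ?_⟩
  · -- the offset at level 0
    by_contra hcon
    push Not at hcon
    have h1 := ctx.far0 n (uu 0) (htf 0) (ξ 0) (e 0) (e 1) (hxi 0) (hunit 0) (hunit 1)
      (ch.step 0) (νs 3) (g 0) (hνs 3) hcon (hgb 0)
    rw [← haeq, ← hgg 0, ← hzoom 0] at h1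
    have h2 : cD b ε R L n (uu 0) (e 0) ≤ 2 * B := by
      have h3 := D.D_le 0
      have h4 := mul_le_mul_of_nonneg_right
        (P_le_two (s := 1 / 4) (r := 0) (by norm_num)) hB
      exact h3.trans h4
    have h3 : cB b ε R0 R L (n + 1) (uu 1) (e 1) (νs 3) (g 1) + cD b ε R L n (uu 0) (e 0) ≤
        (X3 + 2) * B := by linarith only [hl1, h2]
    have h4 := mul_le_mul_of_nonneg_left h3 hCf.le
    have h5 := mul_le_mul_of_nonneg_left hBa (by positivity : 0 ≤ Cf * (X3 + 2))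
    rw [← hX3] at s4
    have h6 := mul_le_mul_of_nonneg_right s4 ha.le
    have h7 : a ≤ Cf * (cB b ε R0 R L (n + 1) (uu 1) (e 1) (νs 3) (g 1) +
      cD b ε R L n (uu 0) (e 0)) := h1
    linarith only [h4, h5, h6, h7, ha]
  · intro r
    have hsum : ∀ X : ℝ, X ≤ C6 + X1 + X2 + X3 + X4 → ∀ r,
        X * (P (3 / 8 + γ) r * B) ≤ (C6 + X1 + X2 + X3 + X4) * (P (3 / 8 + γ) r * B) :=
      fun X hX r => mul_le_mul_of_nonneg_right hX (hPB r)
    rcases Nat.lt_or_ge r 3 with hr | hr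
    · have hr' : r = 0 ∨ r = 1 ∨ r = 2 := by omega
      rcases hr' with h | h | h
      · subst h
        have h1 := mul_le_mul_of_nonneg_left (hBle 0) hX40.le
        exact (hl0.trans h1).trans (hsum X4 (by linarith only [hC6, hX10, hX20, hX30, hX40]) 0)
      · subst h
        have h1 := mul_le_mul_of_nonneg_left (hBle 1) hX30.le
        exact (hl1.trans h1).trans (hsum X3 (by linarith only [hC6, hX10, hX20, hX30, hX40]) 1)
      · subst h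
        have h1 := mul_le_mul_of_nonneg_left (hBle 2) hX20.le
        exact (hl2.trans h1).trans (hsum X2 (by linarith only [hC6, hX10, hX20, hX30, hX40]) 2)
    · obtain ⟨k, rfl⟩ := Nat.exists_eq_add_of_le hr
      by_cases hG : P (3 / 8) (3 + k) * B ≤ κF * a
      · have h1 := hind k (hG.trans hκFκ')
        have h2 : C6 * (P (1 / 4 + γ) (3 + k) * B) ≤ C6 * (P (3 / 8 + γ) (3 + k) * B) :=
          mul_le_mul_of_nonneg_left (mul_le_mul_of_nonneg_right (P_le (by linarith) _) hB) hC6.le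
        exact (h1.trans h2).trans (hsum C6 (by linarith only [hC6, hX10, hX20, hX30, hX40]) _)
      · push Not at hG
        have h5 : κF / 4 * a ≤ P (3 / 8) (3 + k) * B := by
          have : 0 < κF * a := by positivity
          linarith only [hG, this]
        have h6 := farb D hB hK hγ hγ1 hCS (by positivity : 0 < κF / 4) (hνs 3)
          (hgb (3 + k)) h5
        rw [← hX1] at h6
        exact h6.trans (hsum X1 (by linarith only [hC6, hX10, hX20, hX30, hX40]) _)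

end CM

end

end TG
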