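import Pool.Agent.TG.Stmts2
import Pool.Agent.TG.AvBasic

/-!
# Module CO: pointwise bound of u (cost) (by helper85)

A chain of balls B_i of radius t_i/2 (t_i = lev s0 i) is chosen bottom-up such that B_(i-1) and B_i lie on
the same side of the plane S_i, at distance at least 4 t_i; by HU, transported to the frame of level i, the
averaged Taylor polynomials over B_(i-1) and B_i differ at x by at most C bD_i.
-/

open MeasureTheory Metric Set TrI Filter Topology
open scoped InnerProductSpace ContDiff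

namespace TG

noncomputable section

variable {d : ℕ}

section Geom

/-- one step of the choice of the centres: a move of length at most 20 t in the direction ± ν', which does
not decrease the signed height s⟨ν,·⟩ and after which the height over the plane (ν',c') is at least 10 t -/
lemma co_step (ν ν' : Sp d) (c' : ℝ) (hν' : ‖ν'‖ = 1) (s t : ℝ) (htp : 0 < t) (p : Sp d) :
    ∃ q : Sp d, ‖q - p‖ ≤ 20 * t ∧ 0 ≤ s * ⟪ν, q - p⟫_ℝ ∧ 10 * t ≤ |ht ν' c' q| := by
  have key : ∀ σ : ℝ, ⟪ν', σ • ν'⟫_ℝ = σ := by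
    intro σ
    rw [inner_smul_right, real_inner_self_eq_norm_sq, hν']
    ring
  by_cases h : 10 * t ≤ |ht ν' c' p|
  · exact ⟨p, by simp [htp.le], by simp, h⟩
  · push Not at h
    obtain ⟨σ, hσ1, hσ2⟩ : ∃ σ : ℝ, |σ| = 1 ∧ 0 ≤ s * (σ * ⟪ν, ν'⟫_ℝ) := by
      rcases le_total 0 (s * ⟪ν, ν'⟫_ℝ) with h1 | h1
      · exact ⟨1, by simp, by linarith⟩
      · exact ⟨-1, by simp, by linarith⟩
    refine ⟨p + (20 * t * σ) • ν', ?_, ?_, ?_⟩
    · rw [add_sub_cancel_left, norm_smul, hν', mul_one, Real.norm_eq_abs, abs_mul, hσ1, mul_one,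
        abs_of_pos (by positivity)]
    · rw [add_sub_cancel_left, inner_smul_right]
      have : s * (20 * t * σ * ⟪ν, ν'⟫_ℝ) = 20 * t * (s * (σ * ⟪ν, ν'⟫_ℝ)) := by ring
      rw [this]
      positivity
    · have h2 : ht ν' c' (p + (20 * t * σ) • ν') = ht ν' c' p + 20 * t * σ := by
        unfold ht
        rw [inner_add_right, key]
        ring
      rw [h2]
      have h3 : |20 * t * σ| = 20 * t := by
        rw [abs_mul, hσ1, mul_one, abs_of_pos (by positivity)]
      have h4 : |20 * t * σ| ≤ |ht ν' c' p + 20 * t * σ| + |ht ν' c' p| := by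
        have := abs_sub_abs_le_abs_sub (20 * t * σ) (-(ht ν' c' p))
        rw [abs_neg] at this
        have h5 : 20 * t * σ - -(ht ν' c' p) = ht ν' c' p + 20 * t * σ := by ring
        rw [h5] at this
        linarith
      rw [h3] at h4
      linarith

/-- the centres of the balls; ball number i belongs to level i + 1 -/
lemma co_centres (s0 : ℝ) (hs0 : 0 < s0) (x : Sp d) (νs : ℕ → Sp d) (cs : ℕ → ℝ)
    (hν : ∀ i, ‖νs i‖ = 1) :
    ∃ q : ℕ → Sp d, (∀ i, ‖q i - x‖ ≤ 40 * lev s0 (i + 1)) ∧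
      (∀ i, 10 * lev s0 (i + 1) ≤ |ht (νs (i + 2)) (cs (i + 2)) (q i)|) ∧
      (∀ i, 0 ≤ ht (νs (i + 2)) (cs (i + 2)) (q i) * ⟪νs (i + 2), q (i + 1) - q i⟫_ℝ) := by
  obtain ⟨q0, h1, -, h3⟩ := co_step (νs 2) (νs 2) (cs 2) (hν 2) 0 (lev s0 1) (levA_pos hs0 1) x
  have hstep : ∀ (i : ℕ) (p : Sp d), ∃ q : Sp d, ‖q - p‖ ≤ 20 * lev s0 (i + 2) ∧
      0 ≤ ht (νs (i + 2)) (cs (i + 2)) p * ⟪νs (i + 2), q - p⟫_ℝ ∧
      10 * lev s0 (i + 2) ≤ |ht (νs (i + 3)) (cs (i + 3)) q| := fun i p =>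
    co_step (νs (i + 2)) (νs (i + 3)) (cs (i + 3)) (hν _) _ (lev s0 (i + 2)) (levA_pos hs0 _) p
  choose F hF1 hF2 hF3 using hstep
  let q : ℕ → Sp d := fun i => Nat.rec q0 (fun i p => F i p) i
  have hq0 : q 0 = q0 := rfl
  have hqs : ∀ i, q (i + 1) = F i (q i) := fun i => rfl
  refine ⟨q, ?_, ?_, ?_⟩
  · intro i
    induction i with
    | zero =>
      rw [hq0]
      have := levA_pos hs0 1
      exact h1.trans (by simp only [zero_add]; linarith)
    | succ i ih =>
      have h4 := hF1 i (q i)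
      have h5 : q (i + 1) - x = (F i (q i) - q i) + (q i - x) := by rw [hqs]; abel
      rw [h5]
      refine (norm_add_le _ _).trans ?_
      have h6 := levA_succ s0 (i + 1)
      have h7 : i + 1 + 1 = i + 2 := rfl
      rw [h7] at h6 ⊢
      linarith
  · intro i
    cases i with
    | zero => exact h3
    | succ i => exact hF3 i (q i)
  · intro i
    rw [hqs]
    exact hF2 i (q i)

/-- the hull of two balls on the same side of the plane -/
lemma co_hull (ν : Sp d) (hν : ‖ν‖ = 1) (c : ℝ) (c1 c2 : Sp d)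
    (h1 : 5 ≤ |ht ν c c1|) (h2 : 0 ≤ ht ν c c1 * ⟪ν, c2 - c1⟫_ℝ) :
    ∀ y ∈ convexHull ℝ (closedBall c1 (1 / 4) ∪ closedBall c2 (1 / 2)), 4 ≤ |ht ν c y| := by
  have hin : ∀ (a b : Sp d) (r : ℝ), b ∈ closedBall a r → |⟪ν, b⟫_ℝ - ⟪ν, a⟫_ℝ| ≤ r := by
    intro a b r hb
    rw [← inner_sub_right]
    have h3 := abs_real_inner_le_norm ν (b - a)
    rw [hν, one_mul] at h3
    rw [mem_closedBall, dist_eq_norm] at hb
    exact h3.trans hb
  rcases lt_or_ge (ht ν c c1) 0 with hs | hs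
  · have h5 : ht ν c c1 ≤ -5 := by rw [abs_of_neg hs] at h1; linarith
    have h6 : ⟪ν, c2 - c1⟫_ℝ ≤ 0 := by
      by_contra h7
      push Not at h7
      nlinarith
    rw [inner_sub_right] at h6
    have hconv : Convex ℝ {y : Sp d | ⟪ν, y⟫_ℝ ≤ c - 4} :=
      convex_halfSpace_le (f := fun y => ⟪ν, y⟫_ℝ)
        ⟨fun a b => inner_add_right _ _ _, fun a b => inner_smul_right _ _ _⟩ _
    have hsub : closedBall c1 (1 / 4) ∪ closedBall c2 (1 / 2) ⊆ {y : Sp d | ⟪ν, y⟫_ℝ ≤ c - 4} := by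
      rintro y (hy | hy)
      · have h7 := abs_le.mp (hin c1 y _ hy)
        unfold ht at h5
        simp only [Set.mem_ofPred_eq]
        linarith [h7.1, h7.2]
      · have h7 := abs_le.mp (hin c2 y _ hy)
        unfold ht at h5
        simp only [Set.mem_ofPred_eq]
        linarith [h7.1, h7.2]
    intro y hy
    have h8 : ⟪ν, y⟫_ℝ ≤ c - 4 := convexHull_min hsub hconv hy
    have h9 : ht ν c y ≤ -4 := by unfold ht; linarith
    rw [abs_of_nonpos (by linarith)]
    linarith
  · have h5 : 5 ≤ ht ν c c1 := by rwa [abs_of_nonneg hs] at h1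
    have h6 : 0 ≤ ⟪ν, c2 - c1⟫_ℝ := by
      by_contra h7
      push Not at h7
      nlinarith
    rw [inner_sub_right] at h6
    have hconv : Convex ℝ {y : Sp d | c + 4 ≤ ⟪ν, y⟫_ℝ} :=
      convex_halfSpace_ge (f := fun y => ⟪ν, y⟫_ℝ)
        ⟨fun a b => inner_add_right _ _ _, fun a b => inner_smul_right _ _ _⟩ _
    have hsub : closedBall c1 (1 / 4) ∪ closedBall c2 (1 / 2) ⊆ {y : Sp d | c + 4 ≤ ⟪ν, y⟫_ℝ} := by
      rintro y (hy | hy)
      · have h7 := abs_le.mp (hin c1 y _ hy)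
        unfold ht at h5
        simp only [Set.mem_ofPred_eq]
        linarith [h7.1, h7.2]
      · have h7 := abs_le.mp (hin c2 y _ hy)
        unfold ht at h5
        simp only [Set.mem_ofPred_eq]
        linarith [h7.1, h7.2]
    intro y hy
    have h8 : c + 4 ≤ ⟪ν, y⟫_ℝ := convexHull_min hsub hconv hy
    have h9 : 4 ≤ ht ν c y := by unfold ht; linarith
    exact h9.trans (le_abs_self _)

end Geom

section Taylor

variable {V : Type} [NormedAddCommGroup V] [InnerProductSpace ℝ V] [FiniteDimensional ℝ V]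

/-- averaged Taylor polynomials over small balls near x are close to u(x) -/
lemma co_bottom (n : ℕ) (u : Sp d → V) (hu : TF u) : ∃ Cu : ℝ, 0 ≤ Cu ∧
    ∀ s : ℝ, 0 < s → s ≤ 1 → ∀ x c : Sp d, ‖c - x‖ ≤ 80 * s →
      ‖u x - ATP n c s u x‖ ≤ Cu * s := by
  have hb : ∀ k : ℕ, ∃ K : ℝ, 0 ≤ K ∧ ∀ y, ‖iteratedFDeriv ℝ k u y‖ ≤ K := by
    intro k
    have h1 : HasCompactSupport (iteratedFDeriv ℝ k u) := hu.supp.iteratedFDeriv k
    obtain ⟨K, hK⟩ := h1.exists_bound_of_continuous
      (hu.smooth.continuous_iteratedFDeriv (by exact_mod_cast le_top))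
    exact ⟨|K|, abs_nonneg _, fun y => (hK y).trans (le_abs_self _)⟩
  choose K hK0 hK using hb
  have hdiff : Differentiable ℝ u := hu.smooth.differentiable (by simp)
  have hlip : ∀ a b : Sp d, ‖u a - u b‖ ≤ K 1 * ‖a - b‖ := by
    intro a b
    refine Convex.norm_image_sub_le_of_norm_fderiv_le (s := univ) (𝕜 := ℝ)
      (fun y _ => hdiff y) (fun y _ => ?_) convex_univ (mem_univ _) (mem_univ _)
    have := hK 1 y
    rwa [norm_iteratedFDeriv_one] at this
  set S : ℝ := ∑ k ∈ Finset.range n, K (k + 1) * 81 ^ (k + 1) with hS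
  have hS0 : 0 ≤ S := Finset.sum_nonneg fun k _ => mul_nonneg (hK0 _) (by positivity)
  refine ⟨K 1 * 81 + S, by have := hK0 1; positivity, ?_⟩
  intro s hs hs1 x c hc
  have hterm : ∀ z : Sp d, ‖z‖ ≤ 1 → ‖u x - ∑ k ∈ Finset.range (n + 1),
      ((Nat.factorial k : ℝ)⁻¹ • iteratedFDeriv ℝ k u (c + s • z) (fun _ => x - (c + s • z)))‖ ≤
      (K 1 * 81 + S) * s := by
    intro z hz
    have hδ : ‖x - (c + s • z)‖ ≤ 81 * s := by
      have h1 : x - (c + s • z) = -(c - x) - s • z := by abel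
      rw [h1]
      refine (norm_sub_le _ _).trans ?_
      rw [norm_neg, norm_smul, Real.norm_eq_abs, abs_of_pos hs]
      have : s * ‖z‖ ≤ s * 1 := mul_le_mul_of_nonneg_left hz hs.le
      linarith
    rw [Finset.sum_range_succ']
    have h0 : ((Nat.factorial 0 : ℝ)⁻¹ • iteratedFDeriv ℝ 0 u (c + s • z)
        (fun _ => x - (c + s • z))) = u (c + s • z) := by simp
    rw [h0, ← sub_sub, sub_right_comm]
    refine (norm_sub_le _ _).trans ?_
    have h2 : ‖u x - u (c + s • z)‖ ≤ K 1 * 81 * s := by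
      refine (hlip _ _).trans ?_
      have := mul_le_mul_of_nonneg_left hδ (hK0 1)
      linarith
    have h3 : ‖∑ k ∈ Finset.range n, ((Nat.factorial (k + 1) : ℝ)⁻¹ •
        iteratedFDeriv ℝ (k + 1) u (c + s • z) (fun _ => x - (c + s • z)))‖ ≤ S * s := by
      rw [hS, Finset.sum_mul]
      refine norm_sum_le_of_le _ fun k _ => ?_
      rw [norm_smul, norm_inv, Real.norm_natCast]
      have hf : ((Nat.factorial (k + 1) : ℝ))⁻¹ ≤ 1 := by
        refine inv_le_one_of_one_le₀ ?_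
        exact_mod_cast Nat.succ_le_of_lt (Nat.factorial_pos _)
      have h4 : ‖iteratedFDeriv ℝ (k + 1) u (c + s • z) (fun _ => x - (c + s • z))‖ ≤
          K (k + 1) * (81 ^ (k + 1) * s) := by
        refine (ContinuousMultilinearMap.le_opNorm _ _).trans ?_
        refine mul_le_mul (hK _ _) ?_ (Finset.prod_nonneg fun _ _ => norm_nonneg _) (hK0 _)
        rw [Finset.prod_const, Finset.card_univ, Fintype.card_fin]
        have h5 : ‖x - (c + s • z)‖ ^ (k + 1) ≤ (81 * s) ^ (k + 1) :=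
          pow_le_pow_left₀ (norm_nonneg _) hδ _
        refine h5.trans ?_
        rw [mul_pow]
        refine mul_le_mul_of_nonneg_left ?_ (by positivity)
        calc s ^ (k + 1) = s ^ k * s := pow_succ _ _
          _ ≤ 1 * s := mul_le_mul_of_nonneg_right (pow_le_one₀ hs.le hs1) hs.le
          _ = s := one_mul _
      calc ((Nat.factorial (k + 1) : ℝ))⁻¹ *
            ‖iteratedFDeriv ℝ (k + 1) u (c + s • z) (fun _ => x - (c + s • z))‖
          ≤ 1 * (K (k + 1) * (81 ^ (k + 1) * s)) :=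
            mul_le_mul hf h4 (norm_nonneg _) zero_le_one
        _ = K (k + 1) * 81 ^ (k + 1) * s := by ring
    linarith
  have hint1 : Integrable (fun z : Sp d => bk d z • u x) := bk_integrable.smul_const _
  have hint2 : Integrable (fun z : Sp d => bk d z • ∑ k ∈ Finset.range (n + 1),
      ((Nat.factorial k : ℝ)⁻¹ • iteratedFDeriv ℝ k u (c + s • z)
        (fun _ => x - (c + s • z)))) := by
    refine Continuous.integrable_of_hasCompactSupport ?_
      ((bmp d).hasCompactSupport_normed.smul_right)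
    refine bk_cont.smul (continuous_finsetSum _ fun k _ => continuous_const.smul ?_)
    have hc1 : Continuous fun z : Sp d => c + s • z := by fun_prop
    have hc2 : Continuous fun z : Sp d => iteratedFDeriv ℝ k u (c + s • z) :=
      (hu.smooth.continuous_iteratedFDeriv (by exact_mod_cast le_top)).comp hc1
    have hc3 : Continuous fun z : Sp d => (fun _ : Fin k => x - (c + s • z)) := by
      exact continuous_pi fun _ => continuous_const.sub hc1
    exact hc2.eval hc3
  have hATP : u x - ATP n c s u x = ∫ z, (bk d z • u x - bk d z • ∑ k ∈ Finset.range (n + 1),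
      ((Nat.factorial k : ℝ)⁻¹ • iteratedFDeriv ℝ k u (c + s • z)
        (fun _ => x - (c + s • z)))) := by
    rw [integral_sub hint1 hint2, integral_smul_const, bk_int, one_smul]
    rfl
  rw [hATP]
  have h6 : ‖∫ z, (bk d z • u x - bk d z • ∑ k ∈ Finset.range (n + 1),
      ((Nat.factorial k : ℝ)⁻¹ • iteratedFDeriv ℝ k u (c + s • z)
        (fun _ => x - (c + s • z))))‖ ≤ ∫ z, bk d z * ((K 1 * 81 + S) * s) := by
    refine norm_integral_le_of_norm_le (bk_integrable.mul_const _)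
      (Filter.Eventually.of_forall fun z => ?_)
    rw [← smul_sub, norm_smul, Real.norm_eq_abs, abs_of_nonneg (bk_nonneg z)]
    rcases le_or_gt 1 ‖z‖ with hz | hz
    · rw [bk_zero hz]; simp
    · exact mul_le_mul_of_nonneg_left (hterm z hz.le) (bk_nonneg z)
  rwa [integral_mul_const, bk_int, one_mul] at h6

omit [FiniteDimensional ℝ V] in
/-- the averaged Taylor polynomial over a ball on which u vanishes is zero -/
lemma co_zero (n : ℕ) (u : Sp d → V) (c : Sp d) (r : ℝ) (hr : 0 < r)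
    (h : ∀ y, ‖y - c‖ ≤ r → y ∉ tsupport u) (x : Sp d) : ATP n c r u x = 0 := by
  unfold ATP
  have h1 : ∀ z : Sp d, bk d z • ∑ k ∈ Finset.range (n + 1),
      ((Nat.factorial k : ℝ)⁻¹ • iteratedFDeriv ℝ k u (c + r • z) (fun _ => x - (c + r • z))) =
      0 := by
    intro z
    rcases le_or_gt 1 ‖z‖ with hz | hz
    · rw [bk_zero hz, zero_smul]
    · have h2 : c + r • z ∉ tsupport u := by
        refine h _ ?_
        rw [add_sub_cancel_left, norm_smul, Real.norm_eq_abs, abs_of_pos hr]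
        calc r * ‖z‖ ≤ r * 1 := mul_le_mul_of_nonneg_left hz.le hr.le
          _ = r := mul_one r
      have h3 : ∀ k : ℕ, iteratedFDeriv ℝ k u (c + r • z) = 0 := by
        intro k
        have h4 : c + r • z ∉ tsupport (iteratedFDeriv ℝ k u) := fun h5 =>
          h2 (tsupport_iteratedFDeriv_subset k h5)
        exact image_eq_zero_of_notMem_tsupport h4
      simp [h3]
  simp only [h1, integral_zero]

end Taylor

section Decay

variable {E : Type} [NormedAddCommGroup E] [InnerProductSpace ℝ E] [FiniteDimensional ℝ E]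
  {b : Sp d → ℝ} {M c0 : ℝ}

/-- the L1 norms of the smoothed fields are at most that of f -/
lemma co_fl_int (hb : BaseKer 2 M c0 b) (ε s0 : ℝ) {f : Sp d → E} (hf : Continuous f)
    (hfc : HasCompactSupport f) (i : ℕ) :
    Integrable (fun y => ‖fl b ε s0 f i y‖) ∧
      ∫ y, ‖fl b ε s0 f i y‖ ≤ ∫ y, ‖f y‖ := by
  have hc : ∀ i, Continuous (fl b ε s0 f i) := fun i => flA_cont hb ε s0 hf i
  have hcs : ∀ i, HasCompactSupport (fl b ε s0 f i) := fun i => flA_cs hb ε s0 hfc i
  have hi : ∀ i, Integrable (fun y => ‖fl b ε s0 f i y‖) := fun i =>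
    (hc i).norm.integrable_of_hasCompactSupport (hcs i).norm
  refine ⟨hi i, ?_⟩
  induction i with
  | zero => exact le_rfl
  | succ i ih =>
    refine le_trans ?_ ih
    have h1 : ∫ y, ‖fl b ε s0 f (i + 1) y‖ ≤
        ∫ y, avk b (ε * lev s0 (i + 1)) (fun z => ‖fl b ε s0 f i z‖) y := by
      refine integral_mono (hi (i + 1)) ?_ fun y => ?_
      · exact hb.gk.avk_integrable (hi i) (LB.of_cont (hc i).norm) _
      · exact hb.gk.norm_avk_le _ _ _
    rwa [hb.gk.avk_int (hi i) (LB.of_cont (hc i).norm)] at h1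

lemma co_ma (hb : BaseKer 2 M c0 b) (ε s0 : ℝ) (hs0 : 0 < s0) {f : Sp d → E}
    (hf : Continuous f) (hfc : HasCompactSupport f) (R0 : ℝ) (i : ℕ) (x : Sp d) :
    ma b ε R0 s0 f i x ≤ lev s0 i / lev s0 i ^ d * ∫ y, ‖f y‖ := by
  unfold ma
  obtain ⟨h1, h2⟩ := co_fl_int hb ε s0 hf hfc (i - 1)
  have h3 := levA_pos hs0 i
  refine mul_le_mul_of_nonneg_left ?_ (by positivity)
  exact (setIntegral_le_integral h1 (Filter.Eventually.of_forall fun y => norm_nonneg _)).trans h2

lemma co_geom (i : ℕ) : ∑ l ∈ Finset.range (i + 1), (1 / 4 : ℝ) ^ (i - l) ≤ 2 := by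
  have h1 : ∑ l ∈ Finset.range (i + 1), (1 / 4 : ℝ) ^ (i - l) =
      ∑ l ∈ Finset.range (i + 1), (1 / 4 : ℝ) ^ l := by
    rw [← Finset.sum_range_reflect]
    refine Finset.sum_congr rfl fun l hl => ?_
    have := Finset.mem_range.mp hl
    congr 1
    omega
  rw [h1, geom_sum_eq (by norm_num)]
  have h2 : 0 ≤ (1 / 4 : ℝ) ^ (i + 1) := by positivity
  have h3 : ((1 / 4 : ℝ) ^ (i + 1) - 1) / (1 / 4 - 1) = 4 / 3 - 4 / 3 * (1 / 4 : ℝ) ^ (i + 1) := by
    ring
  rw [h3]
  linarith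

lemma co_DD (hb : BaseKer 2 M c0 b) (ε s0 : ℝ) (hs0 : 0 < s0) {f : Sp d → E}
    (hf : Continuous f) (hfc : HasCompactSupport f) (R : ℝ) (i : ℕ) (x : Sp d) (e : E)
    (he : ‖e‖ = 1) :
    DD b ε R s0 f i x e ≤ lev s0 i / lev s0 i ^ d * (5 * ∫ y, ‖f y‖) := by
  unfold DD
  have h3 := levA_pos hs0 i
  refine mul_le_mul_of_nonneg_left ?_ (by positivity)
  have hI : 0 ≤ ∫ y, ‖f y‖ := integral_nonneg fun y => norm_nonneg _
  have hA : ∀ l, (∫ y in ball x (R * lev s0 i), (‖fl b ε s0 f l y‖ - ⟪fl b ε s0 f l y, e⟫_ℝ)) ≤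
      2 * ∫ y, ‖f y‖ := by
    intro l
    obtain ⟨h1, h2⟩ := co_fl_int hb ε s0 hf hfc l
    have hin : ∀ y, |⟪fl b ε s0 f l y, e⟫_ℝ| ≤ ‖fl b ε s0 f l y‖ := fun y => by
      have := abs_real_inner_le_norm (fl b ε s0 f l y) e
      rwa [he, mul_one] at this
    calc (∫ y in ball x (R * lev s0 i), (‖fl b ε s0 f l y‖ - ⟪fl b ε s0 f l y, e⟫_ℝ))
        ≤ ∫ y in ball x (R * lev s0 i), 2 * ‖fl b ε s0 f l y‖ := by
          refine integral_mono_of_nonneg (Filter.Eventually.of_forall fun y => ?_)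
            (h1.integrableOn.const_mul 2) (Filter.Eventually.of_forall fun y => ?_)
          · have := (abs_le.mp (hin y)).2
            simp only [Pi.zero_apply]
            linarith
          · have := (abs_le.mp (hin y)).1
            simp only
            linarith
      _ ≤ ∫ y, 2 * ‖fl b ε s0 f l y‖ := setIntegral_le_integral (h1.const_mul 2)
          (Filter.Eventually.of_forall fun y => by positivity)
      _ = 2 * ∫ y, ‖fl b ε s0 f l y‖ := integral_const_mul _ _
      _ ≤ 2 * ∫ y, ‖f y‖ := by linarith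
  have hB : ∑ l ∈ Finset.range (i + 1), (1 / 4 : ℝ) ^ (i - l) *
      (∫ y in ball x (R * lev s0 i), (‖fl b ε s0 f l y‖ - ⟪fl b ε s0 f l y, e⟫_ℝ)) ≤
      2 * (2 * ∫ y, ‖f y‖) := by
    calc ∑ l ∈ Finset.range (i + 1), (1 / 4 : ℝ) ^ (i - l) *
        (∫ y in ball x (R * lev s0 i), (‖fl b ε s0 f l y‖ - ⟪fl b ε s0 f l y, e⟫_ℝ))
        ≤ ∑ l ∈ Finset.range (i + 1), (1 / 4 : ℝ) ^ (i - l) * (2 * ∫ y, ‖f y‖) :=
          Finset.sum_le_sum fun l _ => mul_le_mul_of_nonneg_left (hA l) (by positivity)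
      _ = (∑ l ∈ Finset.range (i + 1), (1 / 4 : ℝ) ^ (i - l)) * (2 * ∫ y, ‖f y‖) := by
          rw [Finset.sum_mul]
      _ ≤ 2 * (2 * ∫ y, ‖f y‖) := mul_le_mul_of_nonneg_right (co_geom i) (by positivity)
  have hC : (1 / 4 : ℝ) ^ i * ∫ y in ball x (R * lev s0 i), ‖f y‖ ≤ 1 * ∫ y, ‖f y‖ := by
    refine mul_le_mul (pow_le_one₀ (by norm_num) (by norm_num)) ?_
      (integral_nonneg fun y => norm_nonneg _) zero_le_one
    exact setIntegral_le_integral (hf.norm.integrable_of_hasCompactSupport hfc.norm)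
      (Filter.Eventually.of_forall fun y => norm_nonneg _)
  linarith

lemma co_lim (hd : 2 ≤ d) (s0 : ℝ) (hs0 : 0 < s0) (K : ℝ) :
    Tendsto (fun i => lev s0 i / lev s0 i ^ d * K) atTop (𝓝 0) := by
  have h1 : Tendsto (fun i => lev s0 i) atTop atTop := by
    unfold lev
    exact (tendsto_pow_atTop_atTop_of_one_lt (by norm_num : (1 : ℝ) < 2)).const_mul_atTop hs0
  have h2 : Tendsto (fun i => (lev s0 i ^ (d - 1))⁻¹) atTop (𝓝 0) :=
    ((tendsto_pow_atTop (by omega)).comp h1).inv_tendsto_atTop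
  have h3 : (fun i => lev s0 i / lev s0 i ^ d * K) = fun i => (lev s0 i ^ (d - 1))⁻¹ * K := by
    funext i
    have h4 := levA_pos hs0 i
    have h5 : lev s0 i ^ d = lev s0 i * lev s0 i ^ (d - 1) := by
      rw [← pow_succ']
      congr 1
      omega
    rw [h5]
    field_simp
  rw [h3]
  simpa using h2.mul_const K

end Decay

section Main

lemma co_sqrt_le (hd : 1 ≤ d) : Real.sqrt d ≤ d := by
  rw [Real.sqrt_le_iff]
  have h1 : (1 : ℝ) ≤ d := by exact_mod_cast hd
  exact ⟨by linarith, by nlinarith⟩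

theorem stmtCO (hNS : TrI.StmtNS) (hHU : StmtHU) (_hTQ : StmtTQ) (hSC : StmtSC) (hSD : StmtSD) :
    StmtCO := by
  intro d V E _ _ _ _ _ _ L hd hL M c0 ε hε hε1 b hb R0 hR0
  obtain ⟨n0, T, hn0, hNSP⟩ := hNS d V E L hL
  have hd1 : 1 ≤ d := by omega
  have hdR : (2 : ℝ) ≤ d := by exact_mod_cast hd
  obtain ⟨C, hC, hHUC⟩ := hHU d V E L n0 T hd1 hn0 hNSP M c0 ε hε hε1 b hb R0 (by linarith)
  refine ⟨C, hC, fun R hR u hu => ?_⟩
  obtain ⟨Cu, hCu, hbot⟩ := co_bottom n0 u hu
  refine ⟨Cu, hCu, fun s0 hs0 hs01 x xs e νs cs B hxs he hν hht hB => ?_⟩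
  obtain ⟨q, hq1, hq2, hq3⟩ := co_centres s0 hs0 x νs cs hν
  have hf : Continuous (fo L u) := by
    unfold fo
    exact L.continuous.comp (hu.smooth.continuous_fderiv (by simp))
  have hfc : HasCompactSupport (fo L u) := by
    have h1 : HasCompactSupport (fderiv ℝ u) := hu.supp.fderiv ℝ
    exact h1.comp_left (g := fun A => L A) (map_zero L)
  have hsq := co_sqrt_le hd1
  have hlev := fun i => levA_pos hs0 i
  -- the frame of level i
  have hframe : ∀ (i : ℕ), s0 / lev s0 i = (1 / 2 : ℝ) ^ i := by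
    intro i
    unfold lev
    rw [one_div, inv_pow]
    field_simp
  have hSCi := fun (i : ℕ) => hSC d hd 1 one_pos (xs i) (lev s0 i) (hlev i)
  have hu' : ∀ i, TF (fun y => u (xs i + lev s0 i • y)) := fun i =>
    ((hSCi i).2.2 V E L u hu).1
  have hfo' : ∀ i, fo L (fun y => u (xs i + lev s0 i • y)) = rs (xs i) (lev s0 i) (fo L u) :=
    fun i => ((hSCi i).2.2 V E L u hu).2
  have hDD' : ∀ i, DD b ε R ((1 / 2) ^ i) (fo L fun y => u (xs i + lev s0 i • y)) i 0 (e i) =
      DD b ε R s0 (fo L u) i (xs i) (e i) := by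
    intro i
    rw [hfo' i, ← hframe i,
      ((hSCi i).2.1 E M c0 b hb ε hε hε1 (fo L u) hf hfc s0 hs0).2.1 R i 0 (e i), smul_zero,
      add_zero]
  have hma' : ∀ i, ma b ε R0 ((1 / 2) ^ i) (fo L fun y => u (xs i + lev s0 i • y)) i 0 =
      ma b ε R0 s0 (fo L u) i (xs i) := by
    intro i
    rw [hfo' i, ← hframe i,
      ((hSCi i).2.1 E M c0 b hb ε hε hε1 (fo L u) hf hfc s0 hs0).2.2 R0 i 0, smul_zero, add_zero]
  have hATP : ∀ (i : ℕ) (p : Sp d) (r : ℝ), ATP n0 ((1 / lev s0 i) • (p - xs i)) r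
      (fun y => u (xs i + lev s0 i • y)) ((1 / lev s0 i) • (x - xs i)) =
      ATP n0 p (lev s0 i * r) u x := by
    intro i p r
    rw [hSD.1 d V u hu.smooth (xs i) (lev s0 i) (hlev i)]
    have h1 : ∀ w : Sp d, xs i + lev s0 i • ((1 / lev s0 i) • (w - xs i)) = w := by
      intro w
      rw [smul_smul, mul_one_div_cancel (hlev i).ne', one_smul, add_sub_cancel]
    rw [h1, h1]
  have hxx : ∀ i, ‖(1 / lev s0 i) • (x - xs i)‖ ≤ Real.sqrt d := by
    intro i
    rw [norm_smul, Real.norm_eq_abs, abs_of_pos (by have := hlev i; positivity), norm_sub_rev,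
      one_div, inv_mul_le_iff₀ (hlev i)]
    linarith [hxs i]
  have hpt : ∀ (i : ℕ) (p : Sp d) (K : ℝ), ‖p - x‖ ≤ K * lev s0 i →
      ‖(1 / lev s0 i) • (p - xs i)‖ ≤ K + Real.sqrt d := by
    intro i p K hp
    rw [norm_smul, Real.norm_eq_abs, abs_of_pos (by have := hlev i; positivity),
      one_div, inv_mul_le_iff₀ (hlev i)]
    have h1 : p - xs i = (p - x) - (xs i - x) := by abel
    rw [h1]
    refine (norm_sub_le _ _).trans ?_
    linarith [hxs i]
  -- one step
  have hstep : ∀ i, ‖ATP n0 (q i) (lev s0 (i + 1) / 2) u x -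
      ATP n0 (q (i + 1)) (lev s0 (i + 2) / 2) u x‖ ≤
      C * bD b ε R0 R s0 (fo L u) (i + 2) (xs (i + 2)) (e (i + 2)) (νs (i + 2)) (cs (i + 2)) := by
    intro i
    set k := i + 2 with hk
    have ht := hlev k
    have hlk : lev s0 k = 2 * lev s0 (i + 1) := levA_succ s0 (i + 1)
    have hc1 : ‖(1 / lev s0 k) • (q i - xs k)‖ ≤ 20 + Real.sqrt d :=
      hpt k (q i) 20 (by linarith [hq1 i])
    have hc2 : ‖(1 / lev s0 k) • (q (i + 1) - xs k)‖ ≤ 40 + Real.sqrt d :=
      hpt k (q (i + 1)) 40 (hq1 (i + 1))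
    set cc : ℝ := (cs k - ⟪νs k, xs k⟫_ℝ) / lev s0 k with hcc
    have hccle : |cc| ≤ 3 * R0 := by
      rw [hcc, abs_div, abs_of_pos ht, div_le_iff₀ ht, abs_sub_comm]
      have := hht k
      unfold TG.ht at this
      refine this.trans ?_
      have : R0 + 3 ≤ 3 * R0 := by linarith
      exact mul_le_mul_of_nonneg_right this ht.le
    have hhtq : ∀ p : Sp d, TG.ht (νs k) cc ((1 / lev s0 k) • (p - xs k)) =
        TG.ht (νs k) (cs k) p / lev s0 k := by
      intro p
      unfold TG.ht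
      rw [hcc, inner_smul_right, inner_sub_right]
      field_simp
      ring
    have hhull := co_hull (νs k) (hν k) cc ((1 / lev s0 k) • (q i - xs k))
      ((1 / lev s0 k) • (q (i + 1) - xs k))
      (by
        rw [hhtq, abs_div, abs_of_pos ht, le_div_iff₀ ht]
        have := hq2 i
        linarith)
      (by
        have h1 : q (i + 1) - xs k - (q i - xs k) = q (i + 1) - q i := by abel
        rw [hhtq, ← smul_sub, inner_smul_right, h1]
        have h2 := hq3 i
        rw [← hk] at h2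
        have h4 : TG.ht (νs k) (cs k) (q i) / lev s0 k *
            (1 / lev s0 k * ⟪νs k, q (i + 1) - q i⟫_ℝ) =
            (1 / lev s0 k) ^ 2 * (TG.ht (νs k) (cs k) (q i) * ⟪νs k, q (i + 1) - q i⟫_ℝ) := by
          field_simp
        rw [h4]
        positivity)
    have hHU2 := (hHUC R hR k (fun y => u (xs k + lev s0 k • y)) (hu' k) (e k) (he k)
      ((1 / lev s0 k) • (q i - xs k)) ((1 / lev s0 k) • (q (i + 1) - xs k)) (1 / 4) (1 / 2)
      (by norm_num) (by norm_num) (by norm_num) (by norm_num) (by linarith) (by linarith)).2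
      (νs k) cc (hν k) hccle hhull ((1 / lev s0 k) • (x - xs k))
      ((hxx k).trans (by linarith))
    rw [hATP, hATP] at hHU2
    have h5 : lev s0 k * (1 / 4) = lev s0 (i + 1) / 2 := by rw [hlk]; ring
    have h6 : lev s0 k * (1 / 2) = lev s0 k / 2 := by ring
    rw [h5, h6] at hHU2
    refine hHU2.trans (le_of_eq ?_)
    congr 1
    unfold bD
    rw [hDD' k]
    congr 2
    have h7 := hSD.2 d E (fo L u) hd1 hf hfc (xs k) (lev s0 k) ht R0 s0 k 0 (e k) (νs k) cc hs0
    rw [hframe k, smul_zero, add_zero] at h7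
    rw [hfo' k, h7]
    congr 1
    rw [hcc]
    field_simp
    ring
  -- top
  have htop : Tendsto (fun i => ATP n0 (q i) (lev s0 (i + 1) / 2) u x) atTop (𝓝 0) := by
    set I := ∫ y, ‖fo L u y‖ with hI
    have hlim : Tendsto (fun i => C * (lev s0 (i + 1) / lev s0 (i + 1) ^ d * (6 * I))) atTop
        (𝓝 0) := by
      have := ((co_lim hd s0 hs0 (6 * I)).comp (tendsto_add_atTop_nat 1)).const_mul C
      simpa using this
    obtain ⟨ρ, hρ⟩ := hu.supp.isCompact.isBounded.subset_closedBall (0 : Sp d)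
    have hlarge : ∀ᶠ i in atTop, ρ + ‖x‖ < lev s0 (i + 1) := by
      have h1 : Tendsto (fun i => lev s0 (i + 1)) atTop atTop := by
        have : Tendsto (fun i => lev s0 i) atTop atTop := by
          unfold lev
          exact (tendsto_pow_atTop_atTop_of_one_lt (by norm_num : (1 : ℝ) < 2)).const_mul_atTop hs0
        exact this.comp (tendsto_add_atTop_nat 1)
      exact h1.eventually_gt_atTop _
    refine squeeze_zero_norm' ?_ hlim
    filter_upwards [hlarge] with i hi
    set k := i + 1 with hk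
    have ht := hlev k
    set p : Sp d := x + (30 * lev s0 k) • νs 0 with hp
    have hpx : ‖p - x‖ = 30 * lev s0 k := by
      rw [hp, add_sub_cancel_left, norm_smul, hν 0, mul_one, Real.norm_eq_abs,
        abs_of_pos (by positivity)]
    have hzero : ATP n0 p (lev s0 k / 2) u x = 0 := by
      refine co_zero n0 u p _ (by positivity) (fun y hy hy' => ?_) x
      have h1 := hρ hy'
      rw [mem_closedBall, dist_zero_right] at h1
      have h2 : ‖p - x‖ ≤ ‖y - p‖ + ‖y‖ + ‖x‖ := by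
        have : p - x = -(y - p) + y - x := by abel
        rw [this]
        refine (norm_sub_le _ _).trans ?_
        have := norm_add_le (-(y - p)) y
        rw [norm_neg] at this
        linarith
      rw [hpx] at h2
      linarith
    have hc1 : ‖(1 / lev s0 k) • (q i - xs k)‖ ≤ 40 + Real.sqrt d := hpt k (q i) 40 (hq1 i)
    have hc2 : ‖(1 / lev s0 k) • (p - xs k)‖ ≤ 30 + Real.sqrt d := hpt k p 30 hpx.le
    have hHU1 := (hHUC R hR k (fun y => u (xs k + lev s0 k • y)) (hu' k) (e k) (he k)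
      ((1 / lev s0 k) • (q i - xs k)) ((1 / lev s0 k) • (p - xs k)) (1 / 2) (1 / 2)
      (by norm_num) (by norm_num) (by norm_num) (by norm_num) (by linarith) (by linarith)).1
      ((1 / lev s0 k) • (x - xs k)) ((hxx k).trans (by linarith))
    have h6 : lev s0 k * (1 / 2) = lev s0 k / 2 := by ring
    rw [hATP, hATP, h6, hzero, sub_zero, hDD' k, hma' k] at hHU1
    refine hHU1.trans ?_
    refine mul_le_mul_of_nonneg_left ?_ hC.le
    have h7 := co_ma hb ε s0 hs0 hf hfc R0 k (xs k)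
    have h8 := co_DD hb ε s0 hs0 hf hfc R k (xs k) (e k) (he k)
    calc _ ≤ lev s0 k / lev s0 k ^ d * I + lev s0 k / lev s0 k ^ d * (5 * I) := add_le_add h7 h8
      _ = _ := by ring
  -- telescoping
  have htel : ∀ I : ℕ, ‖ATP n0 (q 0) (lev s0 1 / 2) u x‖ ≤
      C * B + ‖ATP n0 (q I) (lev s0 (I + 1) / 2) u x‖ := by
    intro I
    have h1 : ∀ I : ℕ, ‖ATP n0 (q 0) (lev s0 1 / 2) u x‖ ≤
        C * (∑ i ∈ Finset.Ico 2 (I + 2),
          bD b ε R0 R s0 (fo L u) i (xs i) (e i) (νs i) (cs i)) +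
        ‖ATP n0 (q I) (lev s0 (I + 1) / 2) u x‖ := by
      intro I
      induction I with
      | zero => simp
      | succ I ih =>
        rw [Finset.sum_Ico_succ_top (by omega : 2 ≤ I + 2)]
        have h2 := hstep I
        have h3 : ‖ATP n0 (q I) (lev s0 (I + 1) / 2) u x‖ ≤
            ‖ATP n0 (q I) (lev s0 (I + 1) / 2) u x - ATP n0 (q (I + 1)) (lev s0 (I + 2) / 2) u x‖
            + ‖ATP n0 (q (I + 1)) (lev s0 (I + 2) / 2) u x‖ := by
          have := norm_add_le (ATP n0 (q I) (lev s0 (I + 1) / 2) u x -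
            ATP n0 (q (I + 1)) (lev s0 (I + 2) / 2) u x)
            (ATP n0 (q (I + 1)) (lev s0 (I + 2) / 2) u x)
          rwa [sub_add_cancel] at this
        have h4 : I + 1 + 1 = I + 2 := rfl
        rw [h4]
        linarith
    have h5 := mul_le_mul_of_nonneg_left (hB (I + 2)) hC.le
    linarith [h1 I]
  have hlev1 : lev s0 1 / 2 = s0 := by unfold lev; ring
  have h1 : ‖ATP n0 (q 0) s0 u x‖ ≤ C * B := by
    have h2 : Tendsto (fun I => C * B + ‖ATP n0 (q I) (lev s0 (I + 1) / 2) u x‖) atTop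
        (𝓝 (C * B + ‖(0 : V)‖)) := tendsto_const_nhds.add htop.norm
    have h3 := ge_of_tendsto' h2 htel
    rwa [norm_zero, add_zero, hlev1] at h3
  have h2 := hbot s0 hs0 hs01 x (q 0) (by
    have := hq1 0
    simp only [zero_add] at this
    have h3 : lev s0 1 = 2 * s0 := by unfold lev; ring
    rw [h3] at this
    linarith)
  have h3 : ‖u x‖ ≤ ‖u x - ATP n0 (q 0) s0 u x‖ + ‖ATP n0 (q 0) s0 u x‖ := by
    have := norm_add_le (u x - ATP n0 (q 0) s0 u x) (ATP n0 (q 0) s0 u x)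
    rwa [sub_add_cancel] at this
  linarith

end Main

end

end TG
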