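import Pool.Agent.TG.TreeDefs

/-! base lemmas for the tree of cells -/

open Set TrI
open scoped ENNReal

namespace TG

noncomputable section

variable {d : ℕ}

theorem mem_dn {i : ℕ} {P Q : Cell d} (h : i ≤ P.1) : Q ∈ dn i P ↔ up i Q = P := by
  obtain ⟨k, p⟩ := P
  obtain ⟨l, q⟩ := Q
  simp only at h
  simp only [dn, up, Finset.mem_product, Finset.mem_singleton, Fintype.mem_piFinset,
    Finset.mem_Ico, Prod.mk.injEq]
  have h2 : (0 : ℤ) < 2 ^ i := by positivity
  constructor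
  · rintro ⟨h3, h4⟩
    refine ⟨by omega, ?_⟩
    funext j
    have h5 := h4 j
    apply le_antisymm
    · have : q j / 2 ^ i < p j + 1 := by
        apply Int.ediv_lt_of_lt_mul h2
        nlinarith [h5.2]
      omega
    · apply Int.le_ediv_of_mul_le h2
      nlinarith [h5.1]
  · rintro ⟨h3, h4⟩
    refine ⟨by omega, ?_⟩
    intro j
    have h5 : q j / 2 ^ i = p j := congrFun h4 j
    have h6 := Int.mul_ediv_add_emod (q j) (2 ^ i)
    have h7 := Int.emod_nonneg (q j) h2.ne'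
    have h8 := Int.emod_lt_of_pos (q j) h2
    rw [h5] at h6
    constructor
    · linarith
    · rw [mul_add]; linarith

theorem up_fst (i : ℕ) (Q : Cell d) : (up i Q).1 = Q.1 + i := rfl

theorem up_zero (Q : Cell d) : up 0 Q = Q := by
  obtain ⟨k, q⟩ := Q
  simp [up]

theorem up_up (i j : ℕ) (Q : Cell d) : up i (up j Q) = up (j + i) Q := by
  obtain ⟨k, q⟩ := Q
  simp only [up, Prod.mk.injEq]
  refine ⟨by omega, ?_⟩
  funext l
  rw [pow_add, Int.ediv_ediv_of_nonneg (by positivity)]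

/-- fibres of up -/
theorem tsum_up (g : Cell d → ℝ≥0∞) (i : ℕ) :
    ∑' Q, g Q = ∑' P : Cell d, if i ≤ P.1 then ∑ Q ∈ dn i P, g Q else 0 := by
  have h1 : ∀ Q, g Q = ∑' P : Cell d, if P = up i Q then g Q else 0 := by
    intro Q
    rw [tsum_ite_eq]
  calc ∑' Q, g Q = ∑' Q, ∑' P : Cell d, if P = up i Q then g Q else 0 := by
        apply tsum_congr; exact h1
    _ = ∑' P : Cell d, ∑' Q, if P = up i Q then g Q else 0 := ENNReal.tsum_comm
    _ = _ := by
        apply tsum_congr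
        intro P
        by_cases hP : i ≤ P.1
        · rw [if_pos hP, tsum_eq_sum (s := dn i P)]
          · apply Finset.sum_congr rfl
            intro Q hQ
            rw [if_pos ((mem_dn hP).1 hQ).symm]
          · intro Q hQ
            rw [if_neg]
            intro h
            exact hQ ((mem_dn hP).2 h.symm)
        · rw [if_neg hP]
          rw [ENNReal.tsum_eq_zero]
          intro Q
          rw [if_neg]
          intro h
          apply hP
          rw [h, up_fst]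
          omega

theorem card_dn (i : ℕ) (P : Cell d) : (dn i P).card = (2 ^ i) ^ d := by
  simp only [dn, Finset.card_product, Finset.card_singleton, one_mul, Fintype.card_piFinset,
    Int.card_Ico]
  have : ∀ j : Fin d, (2 ^ i * (P.2 j + 1) - 2 ^ i * P.2 j).toNat = 2 ^ i := by
    intro j
    have : (2 : ℤ) ^ i * (P.2 j + 1) - 2 ^ i * P.2 j = ((2 ^ i : ℕ) : ℤ) := by
      push_cast; ring
    rw [this, Int.toNat_natCast]
  simp [this]

theorem tsum_comp_up (g : Cell d → ℝ≥0∞) (i : ℕ) :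
    ∑' Q, g (up i Q) ≤ ((2 ^ i) ^ d : ℕ) * ∑' P, g P := by
  rw [tsum_up _ i, ← ENNReal.tsum_mul_left]
  apply ENNReal.tsum_le_tsum
  intro P
  split_ifs with h
  · rw [Finset.sum_congr rfl (g := fun _ => g P)]
    · rw [Finset.sum_const, card_dn, nsmul_eq_mul]
    · intro Q hQ
      rw [(mem_dn h).1 hQ]
  · exact zero_le

theorem cw_nonneg {s0 : ℝ} (h : 0 < s0) (Q : Cell d) : 0 ≤ cw s0 Q := by
  unfold cw lev; positivity

theorem cw_pos {s0 : ℝ} (h : 0 < s0) (Q : Cell d) : 0 < cw s0 Q := by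
  unfold cw lev; positivity

theorem cw_up {s0 : ℝ} (h : 0 < s0) (i : ℕ) (Q : Cell d) : cw s0 Q ≤ cw s0 (up i Q) := by
  unfold cw lev
  rw [up_fst]
  apply pow_le_pow_left₀ (by positivity)
  apply mul_le_mul_of_nonneg_left _ h.le
  exact pow_le_pow_right₀ (by norm_num) (by omega)

theorem cs_univ (F : Cell d → ℝ) : cs univ F = ∑' Q, ENNReal.ofReal (F Q) := by
  simp [cs]

theorem cs_le_univ (S : Set (Cell d)) (F : Cell d → ℝ) : cs S F ≤ cs univ F := by
  rw [cs_univ]
  apply ENNReal.tsum_le_tsum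
  intro Q
  by_cases h : Q ∈ S <;> simp [h]

theorem cs_mono {S : Set (Cell d)} {F F' : Cell d → ℝ} (h : ∀ Q ∈ S, F Q ≤ F' Q) :
    cs S F ≤ cs S F' := by
  apply ENNReal.tsum_le_tsum
  intro Q
  by_cases hQ : Q ∈ S
  · simp only [hQ, indicator_of_mem]
    exact ENNReal.ofReal_le_ofReal (h Q hQ)
  · simp [hQ]

theorem cs_subset {S S' : Set (Cell d)} (h : S ⊆ S') (F : Cell d → ℝ) : cs S F ≤ cs S' F := by
  apply ENNReal.tsum_le_tsum
  intro Q
  by_cases hQ : Q ∈ S
  · simp [hQ, h hQ]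
  · simp [hQ]

theorem cs_add {S : Set (Cell d)} {F F' : Cell d → ℝ} (h : ∀ Q ∈ S, 0 ≤ F Q)
    (h' : ∀ Q ∈ S, 0 ≤ F' Q) : cs S (fun Q => F Q + F' Q) = cs S F + cs S F' := by
  unfold cs
  rw [← ENNReal.tsum_add]
  apply tsum_congr
  intro Q
  by_cases hQ : Q ∈ S
  · simp only [hQ, indicator_of_mem]
    exact ENNReal.ofReal_add (h Q hQ) (h' Q hQ)
  · simp [hQ]

theorem cs_mul {S : Set (Cell d)} {c : ℝ} (hc : 0 ≤ c) (F : Cell d → ℝ) :
    cs S (fun Q => c * F Q) = ENNReal.ofReal c * cs S F := by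
  unfold cs
  rw [← ENNReal.tsum_mul_left]
  apply tsum_congr
  intro Q
  by_cases hQ : Q ∈ S
  · simp only [hQ, indicator_of_mem]
    exact ENNReal.ofReal_mul hc
  · simp [hQ]

theorem cs_union (S S' : Set (Cell d)) (F : Cell d → ℝ) : cs (S ∪ S') F ≤ cs S F + cs S' F := by
  unfold cs
  rw [← ENNReal.tsum_add]
  apply ENNReal.tsum_le_tsum
  intro Q
  by_cases hQ : Q ∈ S
  · simp [hQ]
  · by_cases hQ' : Q ∈ S'
    · simp [hQ, hQ']
    · simp [hQ, hQ']

/-- geometric decay: sum over generations of terms r^i (c1 X + c2 (i+1) tot) -/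
theorem gen_sum (r : ℝ) (hr : 0 < r) (hr1 : r < 1) : ∃ C : ℝ, 0 < C ∧ ∀ (X : ℝ≥0∞) (tot : ℝ)
    (T : ℕ → ℝ≥0∞), 0 ≤ tot →
    (∀ i : ℕ, T i ≤ ENNReal.ofReal (r ^ i) * (X + ENNReal.ofReal ((i + 1) * tot))) →
    ∑' i, T i ≤ ENNReal.ofReal C * X + ENNReal.ofReal (C * tot) := by
  have hs1 : Summable (fun i : ℕ => r ^ i) := summable_geometric_of_lt_one hr.le hr1
  have hs2 : Summable (fun i : ℕ => r ^ i * ((i : ℝ) + 1)) := by
    have h1 : Summable (fun i : ℕ => (i : ℝ) * r ^ i) := by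
      have := summable_pow_mul_geometric_of_norm_lt_one 1 (r := r)
        (by rw [Real.norm_eq_abs, abs_of_pos hr]; exact hr1)
      simpa using this
    have h2 : (fun i : ℕ => r ^ i * ((i : ℝ) + 1)) = fun i : ℕ => (i : ℝ) * r ^ i + r ^ i := by
      funext i; ring
    rw [h2]
    exact h1.add hs1
  refine ⟨(∑' i : ℕ, r ^ i) + ∑' i : ℕ, r ^ i * ((i : ℝ) + 1), ?_, ?_⟩
  · have h1 : 0 < ∑' i : ℕ, r ^ i := by
      apply hs1.tsum_pos (fun i => by positivity) 0
      simp
    have h2 : 0 ≤ ∑' i : ℕ, r ^ i * ((i : ℝ) + 1) := tsum_nonneg (fun i => by positivity)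
    linarith
  intro X tot T htot hT
  have hA : ∑' i, T i ≤ (∑' i, ENNReal.ofReal (r ^ i)) * X
      + ∑' i : ℕ, ENNReal.ofReal (r ^ i * ((i : ℝ) + 1)) * ENNReal.ofReal tot := by
    rw [← ENNReal.tsum_mul_right, ← ENNReal.tsum_add]
    apply ENNReal.tsum_le_tsum
    intro i
    apply (hT i).trans
    rw [mul_add]
    refine add_le_add le_rfl ?_
    rw [← ENNReal.ofReal_mul (by positivity), ← ENNReal.ofReal_mul (by positivity)]
    apply ENNReal.ofReal_le_ofReal
    apply le_of_eq; ring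
  apply hA.trans
  rw [ENNReal.tsum_mul_right, ← ENNReal.ofReal_tsum_of_nonneg (fun i => by positivity) hs1,
    ← ENNReal.ofReal_tsum_of_nonneg (fun i => by positivity) hs2,
    ← ENNReal.ofReal_mul (tsum_nonneg (fun i => by positivity))]
  gcongr
  · have h2 : 0 ≤ ∑' i : ℕ, r ^ i * ((i : ℝ) + 1) := tsum_nonneg (fun i => by positivity)
    linarith
  · have h2 : 0 ≤ ∑' i : ℕ, r ^ i := tsum_nonneg (fun i => by positivity)
    linarith

end

end TG
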