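import Pool.Agent.TG.Conc
import Pool.Agent.TG.Tree0

/-!
# Trace inequality, general operators: modules CA and CS   (helper71)

The abstract summation lemma and the total of all net contributions.
-/

open MeasureTheory Metric Set TrI
open scoped InnerProductSpace ContDiff ENNReal

namespace TG

noncomputable section

variable {d : ℕ}

namespace CSm

/-- a nonnegative function with finite cs is summable -/
theorem summable_of_cs {F : Cell d → ℝ} (h : ∀ Q, 0 ≤ F Q) (hF : cs univ F ≠ ⊤) : Summable F := by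
  rw [cs_univ] at hF
  have h1 := ENNReal.summable_toReal hF
  refine h1.congr fun Q => ?_
  rw [ENNReal.toReal_ofReal (h Q)]

/-- cs as a real sum -/
theorem cs_eq_tsum {F : Cell d → ℝ} (h : ∀ Q, 0 ≤ F Q) (hF : Summable F) :
    cs univ F = ENNReal.ofReal (∑' Q, F Q) := by
  rw [cs_univ, ENNReal.ofReal_tsum_of_nonneg h hF]

/-- profiles: fewer derivatives -/
theorem isProf_lower {J J' : ℕ} (hJ : J' ≤ J) {M : ℝ} {β : Sp d → ℝ} (h : IsProf J M β) :
    IsProf J' M β where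
  smooth := h.smooth.of_le (by exact_mod_cast hJ)
  nonneg := h.nonneg
  mono := h.mono
  supp := h.supp
  int := h.int
  der := fun j hj => h.der j (hj.trans hJ)

theorem kit_lower {J J' : ℕ} (hJ : J' ≤ J) {M : ℝ} {β : Sp d → ℝ} (h : Kit J M β) :
    Kit J' M β where
  prof := isProf_lower hJ h.prof
  smooth1 := h.smooth1.of_le (by exact_mod_cast hJ)
  smooth2 := h.smooth2.of_le (by exact_mod_cast hJ)
  supp1 := h.supp1
  supp2 := h.supp2
  grad1 := h.grad1
  grad2 := h.grad2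
  nonneg1 := h.nonneg1
  nonneg2 := h.nonneg2
  le1 := h.le1
  le2 := h.le2
  mono1 := h.mono1
  mono2 := h.mono2
  der1 := fun j hj => h.der1 j (hj.trans hJ)
  der2 := fun j hj => h.der2 j (hj.trans hJ)

theorem baseKer_lower {J J' : ℕ} (hJ : J' ≤ J) {M c : ℝ} {b : Sp d → ℝ} (h : BaseKer J M c b) :
    BaseKer J' M c b where
  c_pos := h.c_pos
  smooth := h.smooth.of_le (by exact_mod_cast hJ)
  nonneg := h.nonneg
  mono := h.mono
  supp := h.supp
  int := h.int
  kit := fun n => kit_lower hJ (h.kit n)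
  low := h.low

theorem lev_pos' {s0 : ℝ} (h : 0 < s0) (i : ℕ) : 0 < lev s0 i := by
  unfold lev; positivity

/-- the two normalisations are inverse to each other -/
theorem cw_mul_nw {s0 : ℝ} (hd : 1 ≤ d) (h : 0 < s0) (Q : Cell d) : cw s0 Q * nw s0 Q = 1 := by
  unfold cw nw
  have h1 := lev_pos' h Q.1
  have h2 : lev s0 Q.1 ^ d = lev s0 Q.1 ^ (d - 1) * lev s0 Q.1 := by
    rw [← pow_succ]; congr 1; omega
  rw [h2]
  field_simp

end CSm

open CSm in
/-- MODULE CA -/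
theorem stmtCA : StmtCA := by
  intro d N g err T hN hT hg herr hle hT0
  by_cases htop : cs univ err = ⊤
  · rw [htop]; simp
  have he : Summable err := summable_of_cs herr htop
  have hsum : Summable fun Q => N Q + err Q := hN.add he
  have hgs : Summable g := Summable.of_nonneg_of_le hg hle hsum
  rw [cs_eq_tsum hg hgs, cs_eq_tsum herr he, ← ENNReal.ofReal_add hT0 (tsum_nonneg herr)]
  apply ENNReal.ofReal_le_ofReal
  calc ∑' Q, g Q ≤ ∑' Q, (N Q + err Q) := hgs.tsum_le_tsum hle hsum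
    _ = ∑' Q, N Q + ∑' Q, err Q := hN.tsum_add he
    _ ≤ T + ∑' Q, err Q := by linarith

open CSm in
/-- MODULE CS -/
theorem stmtCS (h1 : StmtCS1) (h2 : StmtCS2) (h3 : StmtCT2) (h4 : StmtCT6) (h5 : StmtPT) :
    StmtCS := by
  intro d hd M c0 C' R hC' hR X hX
  obtain ⟨Cb, hCb, H2⟩ := h2 d hd M c0 C' hC' X hX
  have hε1 : X.ε ≤ 1 := hX.ε_le.trans (by norm_num)
  have hR1 : 1 ≤ R := by
    have : (0 : ℝ) ≤ (d : ℝ) := Nat.cast_nonneg d
    linarith
  obtain ⟨Cp, hCp, H3⟩ := h3 d (by omega) M c0 X.ε R hX.ε_pos hε1 hR1 X.b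
    (baseKer_lower (by norm_num) hX.ker)
  obtain ⟨Ct, hCt, H5⟩ := h5 d hd M c0 C' X.ε R hC' hX.ε_pos hX.ε_le hR X.b
    (baseKer_lower (by norm_num) hX.ker)
  refine ⟨Ct * (1 + Cp), by positivity, ?_⟩
  intro E _ _ _ _ f hf hfs μ hμ s0 hs0 e kd nv hDe hnv
  have hI : 0 ≤ ∫ y, ‖f y‖ := integral_nonneg fun y => norm_nonneg _
  -- a ball outside which f vanishes
  obtain ⟨B, hB0, hB⟩ : ∃ B : ℝ, 0 ≤ B ∧ ∀ y, B ≤ ‖y‖ → f y = 0 := by
    obtain ⟨r, hr⟩ := hfs.isCompact.isBounded.subset_closedBall (0 : Sp d)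
    refine ⟨|r| + 1, by positivity, fun y hy => ?_⟩
    by_contra hne
    have hy' := hr (subset_tsupport f (Function.mem_support.2 hne))
    rw [mem_closedBall_zero_iff] at hy'
    have := le_abs_self r
    linarith
  -- summability
  set B2 : ℝ := B + Cb with hB2
  have hB20 : 0 ≤ B2 := by positivity
  set B1 : ℝ := Cb * ∫ y, ‖f y‖ with hB1
  have hB10 : 0 ≤ B1 := by positivity
  have hnw : ∀ Q : Cell d, 0 ≤ nw s0 Q := by
    intro Q
    have := lev_pos' hs0 Q.1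
    unfold nw; positivity
  have hom : ∀ Q : Cell d, 0 ≤ omC μ s0 Q := fun Q => Real.sqrt_nonneg _
  classical
  set F : Cell d → ℝ := fun Q =>
    if ‖xC s0 Q‖ ≤ B2 * (1 + lev s0 Q.1) then B1 * nw s0 Q else 0 with hF
  have hF0 : ∀ Q, 0 ≤ F Q := by
    intro Q
    simp only [hF]
    split_ifs
    · exact mul_nonneg hB10 (hnw Q)
    · exact le_rfl
  have hFle : ∀ Q, F Q ≤ B1 * nw s0 Q := by
    intro Q
    simp only [hF]
    split_ifs
    · exact le_rfl
    · exact mul_nonneg hB10 (hnw Q)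
  have hFne : ∀ Q, F Q ≠ 0 → ‖xC s0 Q‖ ≤ B2 * (1 + lev s0 Q.1) := by
    intro Q hQ
    by_contra hcon
    exact hQ (by simp only [hF]; rw [if_neg hcon])
  have hfin := (h4 d hd C' 1 hC' le_rfl μ hμ s0 hs0 F B1 B2 hB10 hB20 hF0 hFle hFne).2
  have hG0 : ∀ Q, 0 ≤ cw s0 Q * F Q * omC μ s0 Q := fun Q =>
    mul_nonneg (mul_nonneg (cw_nonneg hs0 Q) (hF0 Q)) (hom Q)
  have hGs : Summable fun Q => cw s0 Q * F Q * omC μ s0 Q := summable_of_cs hG0 hfin.ne
  have hbd : ∀ Q, |net2 X s0 μ f e kd nv Q| ≤ cw s0 Q * F Q * omC μ s0 Q := by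
    intro Q
    unfold net2
    split_ifs with hQ2
    · by_cases hz : net X s0 μ f e kd nv Q = 0
      · rw [hz, abs_zero]; exact hG0 Q
      · obtain ⟨ha, hb⟩ := H2 E f hf hfs μ hμ s0 hs0 e kd nv hDe.unit hnv Q
        have hloc := hb B hB hz
        have hl := lev_pos' hs0 Q.1
        have hloc2 : ‖xC s0 Q‖ ≤ B2 * (1 + lev s0 Q.1) := by
          rw [hB2]
          nlinarith [mul_nonneg hB0 hl.le]
        have hFQ : F Q = B1 * nw s0 Q := by simp only [hF]; rw [if_pos hloc2]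
        rw [hFQ]
        have h1' := cw_mul_nw (by omega : 1 ≤ d) hs0 Q
        calc |net X s0 μ f e kd nv Q| ≤ B1 * omC μ s0 Q := ha
          _ = cw s0 Q * (B1 * nw s0 Q) * omC μ s0 Q := by
            rw [show cw s0 Q * (B1 * nw s0 Q) = B1 * (cw s0 Q * nw s0 Q) by ring, h1', mul_one]
    · rw [abs_zero]; exact hG0 Q
  have hsum : Summable (net2 X s0 μ f e kd nv) := Summable.of_norm_bounded hGs fun Q => by
    rw [Real.norm_eq_abs]; exact hbd Q
  refine ⟨hsum, ?_⟩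
  -- the defects
  obtain ⟨hD0, -, hDs⟩ := H3 E f hf hfs s0 hs0 e hDe
  set g : Cell d → ℝ := fun Q => cw s0 Q * dC X.b X.ε R s0 f e Q with hg
  have hg0 : ∀ Q, 0 ≤ g Q := fun Q => mul_nonneg (cw_nonneg hs0 Q) (hD0 Q)
  have hgs : Summable g := summable_of_cs hg0 (hDs.trans_lt ENNReal.ofReal_lt_top).ne
  have hgle : ∑' Q, g Q ≤ Cp * ∫ y, ‖f y‖ := by
    rw [cs_eq_tsum hg0 hgs] at hDs
    exact (ENNReal.ofReal_le_ofReal_iff (by positivity)).1 hDs
  have hgI : ∀ I : ℕ, ∑ i ∈ Finset.Ico 2 I, ∑' p : Fin d → ℤ, g (i, p) ≤ Cp * ∫ y, ‖f y‖ := by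
    intro I
    have hh := hgs.prod
    calc ∑ i ∈ Finset.Ico 2 I, ∑' p : Fin d → ℤ, g (i, p)
        ≤ ∑' i : ℕ, ∑' p : Fin d → ℤ, g (i, p) :=
          hh.sum_le_tsum _ fun i _ => tsum_nonneg fun p => hg0 _
      _ = ∑' Q, g Q := (hgs.tsum_prod).symm
      _ ≤ _ := hgle
  -- partial sums
  have hpart : ∀ I : ℕ, ∑ i ∈ Finset.range I, ∑' p : Fin d → ℤ, net2 X s0 μ f e kd nv (i, p) ≤
      Ct * (1 + Cp) * ∫ y, ‖f y‖ := by
    intro I
    have e1 : ∑ i ∈ Finset.range I, ∑' p : Fin d → ℤ, net2 X s0 μ f e kd nv (i, p) =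
        ∑ i ∈ Finset.Ico 2 I, ∑' p : Fin d → ℤ, net X s0 μ f e kd nv (i, p) := by
      symm
      have hsub : Finset.Ico 2 I ⊆ Finset.range I := by
        intro i hi
        rw [Finset.mem_Ico] at hi
        exact Finset.mem_range.2 hi.2
      rw [← Finset.sum_subset (f := fun i => ∑' p : Fin d → ℤ, net2 X s0 μ f e kd nv (i, p)) hsub]
      · apply Finset.sum_congr rfl
        intro i hi
        rw [Finset.mem_Ico] at hi
        apply tsum_congr
        intro p
        simp only [net2]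
        rw [if_pos hi.1]
      · intro i hi hni
        have hi2 : ¬ 2 ≤ i := by
          intro hcon
          exact hni (Finset.mem_Ico.2 ⟨hcon, Finset.mem_range.1 hi⟩)
        simp only [net2, hi2, if_false, tsum_zero]
    have e2 : ∑ i ∈ Finset.Ico 2 I, ∑' p : Fin d → ℤ, net X s0 μ f e kd nv (i, p) =
        ∑ i ∈ Finset.Ico 2 I, ∑' p : Fin d → ℤ,
          ∫ y, chiQ (cen s0 i p) (lev s0 i) y * ⟪f y, e (i, p)⟫_ℝ *
            GG (KN X.b (i - 2)) X.ε μ (lev s0 i) y := by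
      apply Finset.sum_congr rfl
      intro i _
      exact (h1 d hd M c0 C' hC' X hX E f hf hfs μ hμ s0 hs0 e kd nv hnv i).2
    have e3 := H5 E μ hμ f hf hfs s0 hs0 (fun i p => e (i, p)) (fun i p => hDe.unit (i, p)) I
    have e4 := hgI I
    have e5 : ∑ i ∈ Finset.Ico 2 I, ∑' p : Fin d → ℤ,
        lev s0 i ^ (d - 1) * DD X.b X.ε R s0 f i (cen s0 i p) (e (i, p)) ≤
          Cp * ∫ y, ‖f y‖ := e4
    rw [e1, e2]
    refine e3.trans ?_
    rw [mul_assoc]
    apply mul_le_mul_of_nonneg_left _ hCt.le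
    linarith
  have hlim : Filter.Tendsto (fun I : ℕ => ∑ i ∈ Finset.range I, ∑' p : Fin d → ℤ,
      net2 X s0 μ f e kd nv (i, p)) Filter.atTop (nhds (∑' Q, net2 X s0 μ f e kd nv Q)) := by
    rw [hsum.tsum_prod]
    exact hsum.prod.hasSum.tendsto_sum_nat
  exact le_of_tendsto' hlim hpart

end

end TG
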