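import Pool.Agent.TG.Stmts1
set_option autoImplicit false

/-!
# General averages avk with an arbitrary kernel, and the kernel identity

Everything is for continuous (compactly supported) functions.
-/

open MeasureTheory Metric Set TrI
open scoped InnerProductSpace ContDiff

namespace TG

noncomputable section

variable {d : ℕ}

/-- averaging kernels -/
structure AK (ψ : Sp d → ℝ) : Prop where
  cont : Continuous ψ
  nonneg : ∀ x, 0 ≤ ψ x
  supp : ∀ x, 1 ≤ ‖x‖ → ψ x = 0
  int : ∫ x, ψ x = 1

lemma IsProf.ak {J : ℕ} {M : ℝ} {β : Sp d → ℝ} (h : IsProf J M β) : AK β where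
  cont := h.smooth.continuous
  nonneg := h.nonneg
  supp := h.supp
  int := h.int

lemma BaseKer.ak {J : ℕ} {M c : ℝ} {b : Sp d → ℝ} (h : BaseKer J M c b) : AK b where
  cont := h.smooth.continuous
  nonneg := h.nonneg
  supp x hx := h.supp x (by linarith)
  int := h.int

lemma BaseKer.akn {J : ℕ} {M c : ℝ} {b : Sp d → ℝ} (h : BaseKer J M c b) (n : ℕ) : AK (KN b n) :=
  (h.kit n).prof.ak

namespace AK

variable {ψ : Sp d → ℝ} (h : AK ψ)

include h in
lemma cs : HasCompactSupport ψ := by
  refine HasCompactSupport.intro (isCompact_closedBall (0 : Sp d) 1) ?_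
  intro x hx
  apply h.supp
  rw [mem_closedBall, dist_zero_right, not_le] at hx
  exact hx.le

include h in
lemma integrable : Integrable ψ := h.cont.integrable_of_hasCompactSupport h.cs

variable {F : Type*} [NormedAddCommGroup F] [NormedSpace ℝ F]

include h in
lemma integrand_integrable {g : Sp d → F} (hg : Continuous g) (s : ℝ) (x : Sp d) :
    Integrable fun y => ψ y • g (x + s • y) := by
  apply Continuous.integrable_of_hasCompactSupport
  · exact h.cont.smul (hg.comp (by fun_prop))
  · exact h.cs.smul_right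

include h in
lemma avk_eq_set (g : Sp d → F) (s : ℝ) (x : Sp d) :
    avk ψ s g x = ∫ y in closedBall (0 : Sp d) 1, ψ y • g (x + s • y) := by
  unfold avk
  symm
  refine setIntegral_eq_integral_of_forall_compl_eq_zero fun y hy => ?_
  rw [mem_closedBall, dist_zero_right, not_le] at hy
  rw [h.supp y hy.le, zero_smul]

include h in
lemma avk_cont {g : Sp d → F} (hg : Continuous g) (s : ℝ) : Continuous (avk ψ s g) := by
  have h1 : avk ψ s g = fun z => ∫ y in closedBall (0 : Sp d) 1, ψ y • g (z + s • y) := by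
    ext z
    exact h.avk_eq_set g s z
  rw [h1]
  refine continuous_parametric_integral_of_continuous ?_ (isCompact_closedBall _ _)
  have h2 : Continuous fun p : Sp d × Sp d => ψ p.2 • g (p.1 + s • p.2) :=
    (h.cont.comp continuous_snd).smul (hg.comp (by fun_prop))
  exact h2

include h in
/-- the average only depends on the values in the ball of radius |s| -/
lemma avk_congr {g g' : Sp d → F} (s : ℝ) (x : Sp d) (hg : ∀ z, ‖z - x‖ ≤ |s| → g z = g' z) :
    avk ψ s g x = avk ψ s g' x := by
  unfold avk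
  congr 1
  ext y
  by_cases hy : 1 ≤ ‖y‖
  · rw [h.supp y hy, zero_smul, zero_smul]
  · push Not at hy
    rw [hg]
    rw [add_sub_cancel_left, norm_smul, Real.norm_eq_abs]
    nlinarith [abs_nonneg s, norm_nonneg y]

include h in
lemma avk_cs {g : Sp d → F} (hg : HasCompactSupport g) (s : ℝ) : HasCompactSupport (avk ψ s g) := by
  obtain ⟨R, hR⟩ := hg.isCompact.isBounded.subset_closedBall (0 : Sp d)
  refine HasCompactSupport.intro (isCompact_closedBall (0 : Sp d) (R + |s|)) ?_
  intro x hx
  rw [mem_closedBall, dist_zero_right, not_le] at hx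
  have h1 : avk ψ s g x = avk ψ s (fun _ => (0 : F)) x := by
    apply h.avk_congr
    intro z hz
    by_contra hz'
    have h2 : z ∈ closedBall (0 : Sp d) R := hR (subset_tsupport _ hz')
    rw [mem_closedBall, dist_zero_right] at h2
    have : ‖x‖ ≤ ‖z‖ + ‖z - x‖ := by
      have := norm_sub_le z (z - x)
      rwa [sub_sub_cancel] at this
    linarith
  rw [h1]
  unfold avk
  simp

include h in
lemma norm_avk_le (g : Sp d → F) (s : ℝ) (x : Sp d) :
    ‖avk ψ s g x‖ ≤ avk ψ s (fun z => ‖g z‖) x := by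
  unfold avk
  refine (norm_integral_le_integral_norm _).trans (le_of_eq ?_)
  congr 1
  ext y
  rw [norm_smul, Real.norm_of_nonneg (h.nonneg y)]
  rfl

include h in
lemma avk_nonneg {g : Sp d → ℝ} (hg : ∀ z, 0 ≤ g z) (s : ℝ) (x : Sp d) : 0 ≤ avk ψ s g x :=
  integral_nonneg fun y => smul_nonneg (h.nonneg y) (hg _)

include h in
lemma avk_sub {g g' : Sp d → F} (hg : Continuous g) (hg' : Continuous g') (s : ℝ) (x : Sp d) :
    avk ψ s (fun z => g z - g' z) x = avk ψ s g x - avk ψ s g' x := by
  unfold avk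
  simp only [smul_sub]
  exact integral_sub (h.integrand_integrable hg s x) (h.integrand_integrable hg' s x)

include h in
lemma avk_add {g g' : Sp d → F} (hg : Continuous g) (hg' : Continuous g') (s : ℝ) (x : Sp d) :
    avk ψ s (fun z => g z + g' z) x = avk ψ s g x + avk ψ s g' x := by
  unfold avk
  simp only [smul_add]
  exact integral_add (h.integrand_integrable hg s x) (h.integrand_integrable hg' s x)

include h in
lemma avk_mono {g g' : Sp d → ℝ} (hg : Continuous g) (hg' : Continuous g') (hgg : ∀ z, g z ≤ g' z)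
    (s : ℝ) (x : Sp d) : avk ψ s g x ≤ avk ψ s g' x := by
  unfold avk
  refine integral_mono (h.integrand_integrable hg s x) (h.integrand_integrable hg' s x) ?_
  intro y
  exact smul_le_smul_of_nonneg_left (hgg _) (h.nonneg y)

include h in
lemma avk_inner {E : Type*} [NormedAddCommGroup E] [InnerProductSpace ℝ E] [CompleteSpace E]
    {g : Sp d → E} (hg : Continuous g) (e : E) (s : ℝ) (x : Sp d) :
    avk ψ s (fun z => ⟪g z, e⟫_ℝ) x = ⟪avk ψ s g x, e⟫_ℝ := by
  unfold avk
  rw [real_inner_comm, ← integral_inner (h.integrand_integrable hg s x)]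
  congr 1
  ext y
  rw [real_inner_smul_right, real_inner_comm, smul_eq_mul]

include h in
lemma prod_integrable {g : Sp d → F} (hg : Continuous g) (hc : HasCompactSupport g) (s : ℝ) :
    Integrable (Function.uncurry fun (x y : Sp d) => ψ y • g (x + s • y)) (volume.prod volume) := by
  obtain ⟨R, hR⟩ := hc.isCompact.isBounded.subset_closedBall (0 : Sp d)
  apply Continuous.integrable_of_hasCompactSupport
  · exact (h.cont.comp continuous_snd).smul (hg.comp (by fun_prop))
  · refine HasCompactSupport.intro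
      ((isCompact_closedBall (0 : Sp d) (R + |s|)).prod (isCompact_closedBall (0 : Sp d) 1)) ?_
    rintro ⟨x, y⟩ hxy
    change ψ y • g (x + s • y) = 0
    by_cases hy : 1 ≤ ‖y‖
    · rw [h.supp y hy, zero_smul]
    · push Not at hy
      have hx : ¬ ‖x‖ ≤ R + |s| := by
        intro hx
        apply hxy
        rw [mem_prod, mem_closedBall, mem_closedBall, dist_zero_right, dist_zero_right]
        exact ⟨hx, hy.le⟩
      have : g (x + s • y) = 0 := by
        by_contra hz'
        have h2 : x + s • y ∈ closedBall (0 : Sp d) R := hR (subset_tsupport _ hz')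
        rw [mem_closedBall, dist_zero_right] at h2
        have h3 : ‖x‖ ≤ ‖x + s • y‖ + ‖s • y‖ := by
          have := norm_sub_le (x + s • y) (s • y)
          rwa [add_sub_cancel_right] at this
        rw [norm_smul, Real.norm_eq_abs] at h3
        apply hx
        nlinarith [abs_nonneg s, norm_nonneg y]
      rw [this, smul_zero]

include h in
lemma avk_int [CompleteSpace F] {g : Sp d → F} (hg : Continuous g) (hc : HasCompactSupport g) (s : ℝ) :
    ∫ x, avk ψ s g x = ∫ x, g x := by
  unfold avk
  rw [integral_integral_swap (h.prod_integrable hg hc s)]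
  have h1 : ∀ y : Sp d, ∫ x, ψ y • g (x + s • y) = ψ y • ∫ x, g x := by
    intro y
    rw [integral_smul, integral_add_right_eq_self]
  simp_rw [h1]
  rw [integral_smul_const, h.int, one_smul]

include h in
/-- the kernel identity for two successive averages -/
lemma avk_avk [CompleteSpace F] {ψ' : Sp d → ℝ} (h' : AK ψ') {g : Sp d → F} (hg : Continuous g) (s : ℝ) (x : Sp d) :
    avk ψ s (avk ψ' (s / 2) g) x =
      avk (fun w => ∫ y, ψ y * (2 ^ d * ψ' ((2 : ℝ) • (w - y)))) s g x := by
  unfold avk
  have h1 : ∀ y : Sp d, ψ y • ∫ w, ψ' w • g (x + s • y + (s / 2) • w) =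
      ∫ w, (ψ y * (2 ^ d * ψ' ((2 : ℝ) • (w - y)))) • g (x + s • w) := by
    intro y
    have h2 : ∫ w, ψ' w • g (x + s • y + (s / 2) • w) =
        ∫ w, (2 ^ d * ψ' ((2 : ℝ) • (w - y))) • g (x + s • w) := by
      have e1 := Measure.integral_comp_smul (μ := (volume : Measure (Sp d)))
        (fun w => ψ' w • g (x + s • y + (s / 2) • w)) (2 : ℝ)
      have e2 := integral_sub_right_eq_self (μ := (volume : Measure (Sp d)))
        (fun w : Sp d => ψ' ((2 : ℝ) • w) • g (x + s • y + (s / 2) • ((2 : ℝ) • w))) y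
      have hfin : Module.finrank ℝ (Sp d) = d := by simp
      rw [hfin] at e1
      have e3 : |((2 : ℝ) ^ d)⁻¹| = ((2 : ℝ) ^ d)⁻¹ := abs_of_nonneg (by positivity)
      rw [e3] at e1
      have e4 : ∫ w, ψ' w • g (x + s • y + (s / 2) • w) =
          (2 : ℝ) ^ d • ∫ w, ψ' ((2 : ℝ) • w) • g (x + s • y + (s / 2) • ((2 : ℝ) • w)) := by
        rw [e1, smul_smul, mul_inv_cancel₀ (by positivity), one_smul]
      rw [e4, ← e2, ← integral_smul]
      congr 1
      ext w
      rw [smul_smul]
      congr 2
      rw [smul_smul, smul_sub]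
      have : s / 2 * 2 = s := by ring
      rw [this]
      abel
    rw [h2, ← integral_smul]
    congr 1
    ext w
    rw [smul_smul]
  simp_rw [h1]
  rw [integral_integral_swap]
  · congr 1
    ext w
    rw [integral_smul_const]
  · apply Continuous.integrable_of_hasCompactSupport
    · have c1 : Continuous fun p : Sp d × Sp d => ψ p.1 := h.cont.comp continuous_fst
      have c2 : Continuous fun p : Sp d × Sp d => ψ' ((2 : ℝ) • (p.2 - p.1)) := h'.cont.comp (by fun_prop)
      have c3 : Continuous fun p : Sp d × Sp d => g (x + s • p.2) := hg.comp (by fun_prop)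
      exact (c1.mul (continuous_const.mul c2)).smul c3
    · refine HasCompactSupport.intro
        ((isCompact_closedBall (0 : Sp d) 1).prod (isCompact_closedBall (0 : Sp d) 2)) ?_
      rintro ⟨y, w⟩ hxy
      change (ψ y * (2 ^ d * ψ' ((2 : ℝ) • (w - y)))) • g (x + s • w) = 0
      by_cases hy : 1 ≤ ‖y‖
      · rw [h.supp y hy, zero_mul, zero_smul]
      · push Not at hy
        have hw : 2 < ‖w‖ := by
          by_contra hw
          push Not at hw
          apply hxy
          rw [mem_prod, mem_closedBall, mem_closedBall, dist_zero_right, dist_zero_right]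
          exact ⟨hy.le, hw⟩
        rw [h'.supp, mul_zero, mul_zero, zero_smul]
        rw [norm_smul, Real.norm_of_nonneg (by norm_num)]
        have := norm_sub_norm_le w y
        linarith

include h in
/-- lower bound for averages of nonnegative functions -/
lemma avk_lower {c : ℝ} (hc : 0 < c) (hlow : ∀ x, ‖x‖ ≤ c → c ≤ ψ x) {g : Sp d → ℝ}
    (hg : Continuous g) (h0 : ∀ z, 0 ≤ g z) {s : ℝ} (hs : 0 < s) (z q : Sp d) (r : ℝ)
    (hr : ‖q - z‖ + r ≤ c * s) :
    ∫ y in ball q r, g y ≤ s ^ d / c * avk ψ s g z := by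
  have hfin : Module.finrank ℝ (Sp d) = d := by simp
  -- substitution
  have h1 : ∫ y in ball q r, g y = s ^ d * ∫ y, (ball q r).indicator g (z + s • y) := by
    have e1 := Measure.integral_comp_smul (μ := (volume : Measure (Sp d)))
      (fun w => (ball q r).indicator g (z + w)) s
    have e2 := integral_add_left_eq_self (μ := (volume : Measure (Sp d)))
      (fun w : Sp d => (ball q r).indicator g w) z
    rw [hfin, abs_of_nonneg (by positivity), e2, integral_indicator measurableSet_ball, smul_eq_mul] at e1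
    rw [e1, ← mul_assoc, mul_inv_cancel₀ (by positivity), one_mul]
  rw [h1]
  have h2 : c * ∫ y, (ball q r).indicator g (z + s • y) ≤ avk ψ s g z := by
    rw [← integral_const_mul]
    unfold avk
    refine integral_mono_of_nonneg (Filter.Eventually.of_forall fun y => ?_) (h.integrand_integrable hg s z)
      (Filter.Eventually.of_forall fun y => ?_)
    · exact mul_nonneg hc.le (Set.indicator_nonneg (fun w _ => h0 w) _)
    · change c * (ball q r).indicator g (z + s • y) ≤ ψ y • g (z + s • y)
      by_cases hm : z + s • y ∈ ball q r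
      · rw [Set.indicator_of_mem hm, smul_eq_mul]
        apply mul_le_mul_of_nonneg_right _ (h0 _)
        apply hlow
        rw [mem_ball, dist_eq_norm] at hm
        have h3 : ‖s • y‖ ≤ ‖z + s • y - q‖ + ‖q - z‖ := by
          have := norm_add_le (z + s • y - q) (q - z)
          have e : z + s • y - q + (q - z) = s • y := by abel
          rwa [e] at this
        rw [norm_smul, Real.norm_of_nonneg hs.le] at h3
        have h4 : s * ‖y‖ ≤ s * c := by linarith
        exact le_of_mul_le_mul_left h4 hs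
      · rw [Set.indicator_of_notMem hm, mul_zero]
        exact smul_nonneg (h.nonneg y) (h0 _)
  calc s ^ d * ∫ y, (ball q r).indicator g (z + s • y)
      = s ^ d / c * (c * ∫ y, (ball q r).indicator g (z + s • y)) := by field_simp
    _ ≤ s ^ d / c * avk ψ s g z := mul_le_mul_of_nonneg_left h2 (by positivity)

end AK

section Chains

variable {F : Type*} [NormedAddCommGroup F] [NormedSpace ℝ F]

/-- r successive averages at the levels l+1, ..., l+r -/
def chn (b : Sp d → ℝ) (ε s0 : ℝ) (l : ℕ) : ℕ → (Sp d → F) → Sp d → F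
  | 0, g => g
  | r + 1, g => avk b (ε * lev s0 (l + r + 1)) (chn b ε s0 l r g)

lemma chn_zero (b : Sp d → ℝ) (ε s0 : ℝ) (l : ℕ) (g : Sp d → F) : chn b ε s0 l 0 g = g := rfl

lemma chn_succ (b : Sp d → ℝ) (ε s0 : ℝ) (l r : ℕ) (g : Sp d → F) :
    chn b ε s0 l (r + 1) g = avk b (ε * lev s0 (l + r + 1)) (chn b ε s0 l r g) := rfl

/-- the fields as chains -/
lemma fl_chn (b : Sp d → ℝ) (ε s0 : ℝ) (f : Sp d → F) (l r : ℕ) :
    fl b ε s0 f (l + r) = chn b ε s0 l r (fl b ε s0 f l) := by
  induction r with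
  | zero => rfl
  | succ r ih =>
    rw [chn_succ, ← ih]
    rfl

lemma lev_succ (s0 : ℝ) (i : ℕ) : lev s0 (i + 1) = 2 * lev s0 i := by
  unfold lev; rw [pow_succ]; ring

lemma lev_pos {s0 : ℝ} (hs : 0 < s0) (i : ℕ) : 0 < lev s0 i := by
  unfold lev; positivity

lemma lev_add (s0 : ℝ) (i j : ℕ) : lev s0 (i + j) = 2 ^ j * lev s0 i := by
  unfold lev; rw [pow_add]; ring

variable {J : ℕ} {M c : ℝ} {b : Sp d → ℝ}

lemma chn_cont (hb : AK b) (ε s0 : ℝ) (l r : ℕ) {g : Sp d → F} (hg : Continuous g) :
    Continuous (chn b ε s0 l r g) := by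
  induction r with
  | zero => exact hg
  | succ r ih => exact hb.avk_cont ih _

lemma chn_cs (hb : AK b) (ε s0 : ℝ) (l r : ℕ) {g : Sp d → F} (hg : HasCompactSupport g) :
    HasCompactSupport (chn b ε s0 l r g) := by
  induction r with
  | zero => exact hg
  | succ r ih => exact hb.avk_cs ih _

lemma chn_int [CompleteSpace F] (hb : AK b) (ε s0 : ℝ) (l r : ℕ) {g : Sp d → F} (hg : Continuous g)
    (hc : HasCompactSupport g) : ∫ x, chn b ε s0 l r g x = ∫ x, g x := by
  induction r with
  | zero => rfl
  | succ r ih =>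
    rw [chn_succ, hb.avk_int (chn_cont hb ε s0 l r hg) (chn_cs hb ε s0 l r hc), ih]

lemma chn_nonneg (hb : AK b) (ε s0 : ℝ) (l r : ℕ) {g : Sp d → ℝ} (hg : ∀ z, 0 ≤ g z) (x : Sp d) :
    0 ≤ chn b ε s0 l r g x := by
  induction r generalizing x with
  | zero => exact hg x
  | succ r ih => exact hb.avk_nonneg ih _ _

lemma chn_sub (hb : AK b) (ε s0 : ℝ) (l r : ℕ) {g g' : Sp d → F} (hg : Continuous g)
    (hg' : Continuous g') (x : Sp d) :
    chn b ε s0 l r (fun z => g z - g' z) x = chn b ε s0 l r g x - chn b ε s0 l r g' x := by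
  induction r generalizing x with
  | zero => rfl
  | succ r ih =>
    rw [chn_succ, chn_succ, chn_succ, ← hb.avk_sub (chn_cont hb ε s0 l r hg) (chn_cont hb ε s0 l r hg')]
    congr 1
    ext z
    exact ih z

lemma chn_inner {E : Type*} [NormedAddCommGroup E] [InnerProductSpace ℝ E] [CompleteSpace E]
    (hb : AK b) (ε s0 : ℝ) (l r : ℕ) {g : Sp d → E} (hg : Continuous g) (e : E) (x : Sp d) :
    chn b ε s0 l r (fun z => ⟪g z, e⟫_ℝ) x = ⟪chn b ε s0 l r g x, e⟫_ℝ := by
  induction r generalizing x with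
  | zero => rfl
  | succ r ih =>
    rw [chn_succ, chn_succ, ← hb.avk_inner (chn_cont hb ε s0 l r hg)]
    congr 1
    ext z
    exact ih z

lemma norm_chn_le (hb : AK b) (ε s0 : ℝ) (l r : ℕ) {g : Sp d → F} (hg : Continuous g) (x : Sp d) :
    ‖chn b ε s0 l r g x‖ ≤ chn b ε s0 l r (fun z => ‖g z‖) x := by
  induction r generalizing x with
  | zero => exact le_rfl
  | succ r ih =>
    rw [chn_succ, chn_succ]
    refine (hb.norm_avk_le _ _ _).trans ?_
    exact hb.avk_mono (chn_cont hb ε s0 l r hg).norm (chn_cont hb ε s0 l r hg.norm) ih _ _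

/-- KERNEL IDENTITY: a chain of r+1 averages is one average with the kernel KN b r -/
lemma chn_eq [CompleteSpace F] (hb : BaseKer J M c b) (ε s0 : ℝ) (l r : ℕ) {g : Sp d → F} (hg : Continuous g)
    (x : Sp d) : chn b ε s0 l (r + 1) g x = avk (KN b r) (ε * lev s0 (l + r + 1)) g x := by
  induction r generalizing x with
  | zero => rfl
  | succ r ih =>
    rw [chn_succ]
    have e1 : (chn b ε s0 l (r + 1) g) = avk (KN b r) ((ε * lev s0 (l + (r + 1) + 1)) / 2) g := by
      ext z
      rw [ih z]
      congr 1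
      have e : lev s0 (l + (r + 1) + 1) = 2 * lev s0 (l + r + 1) := lev_succ s0 (l + r + 1)
      rw [e]
      ring
    rw [e1, hb.ak.avk_avk (hb.akn r) hg]
    rfl

/-- lower bound for chains of nonnegative functions -/
lemma chn_lower (hb : BaseKer J M c b) {ε s0 : ℝ} (hε : 0 < ε) (hs : 0 < s0) (l r : ℕ) {g : Sp d → ℝ}
    (hg : Continuous g) (h0 : ∀ z, 0 ≤ g z) (z q : Sp d) (ρ : ℝ)
    (hr : ‖q - z‖ + ρ ≤ c * (ε * lev s0 (l + r + 1))) :
    ∫ y in ball q ρ, g y ≤ (ε * lev s0 (l + r + 1)) ^ d / c * chn b ε s0 l (r + 1) g z := by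
  rw [chn_eq hb ε s0 l r hg]
  exact (hb.akn r).avk_lower hb.c_pos (hb.low r) hg h0 (mul_pos hε (lev_pos hs _)) z q ρ hr

lemma fl_cont (hb : AK b) (ε s0 : ℝ) {f : Sp d → F} (hf : Continuous f) (i : ℕ) :
    Continuous (fl b ε s0 f i) := by
  have := fl_chn b ε s0 f 0 i
  rw [Nat.zero_add] at this
  rw [this]
  exact chn_cont hb ε s0 0 i hf

lemma fl_cs (hb : AK b) (ε s0 : ℝ) {f : Sp d → F} (hf : HasCompactSupport f) (i : ℕ) :
    HasCompactSupport (fl b ε s0 f i) := by
  have := fl_chn b ε s0 f 0 i
  rw [Nat.zero_add] at this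
  rw [this]
  exact chn_cs hb ε s0 0 i hf

/-- KERNEL IDENTITY for the fields -/
lemma fl_eq [CompleteSpace F] (hb : BaseKer J M c b) (ε s0 : ℝ) {f : Sp d → F} (hf : Continuous f) (i : ℕ)
    (x : Sp d) : fl b ε s0 f (i + 1) x = avk (KN b i) (ε * lev s0 (i + 1)) f x := by
  have := fl_chn b ε s0 f 0 (i + 1)
  rw [Nat.zero_add] at this
  rw [this]
  have h2 := chn_eq hb ε s0 0 i hf x
  rw [Nat.zero_add] at h2
  exact h2

/-- the mass of the fields is nonincreasing -/
lemma fl_norm_int_le [CompleteSpace F] (hb : AK b) (ε s0 : ℝ) {f : Sp d → F} (hf : Continuous f)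
    (hc : HasCompactSupport f) (l r : ℕ) :
    ∫ x, ‖fl b ε s0 f (l + r) x‖ ≤ ∫ x, ‖fl b ε s0 f l x‖ := by
  have hlc := fl_cont hb ε s0 hf l
  have hls := fl_cs hb ε s0 hc l
  rw [← chn_int hb ε s0 l r hlc.norm hls.norm, fl_chn]
  refine integral_mono ?_ ?_ ?_
  · exact (chn_cont hb ε s0 l r hlc).norm.integrable_of_hasCompactSupport (chn_cs hb ε s0 l r hls).norm
  · exact (chn_cont hb ε s0 l r hlc.norm).integrable_of_hasCompactSupport (chn_cs hb ε s0 l r hls.norm)
  · intro x
    exact norm_chn_le hb ε s0 l r hlc x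

end Chains

end

end TG
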