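import Pool.Agent.TG.PTa

/-!
# Reduction to cells (module PT), part b: C² bounds
-/

open MeasureTheory Metric Set TrI Filter
open scoped InnerProductSpace ContDiff Convolution

set_option linter.unusedSectionVars false

namespace TG

noncomputable section

namespace PTm

variable {d : ℕ}

lemma TFn.nonneg {J : ℕ} {N : ℝ} {φ : Sp d → ℝ} (h : TFn J N φ) : 0 ≤ N :=
  (norm_nonneg _).trans (h.bd 0 (Nat.zero_le J) 0)

lemma TFn.abs_le {J : ℕ} {N : ℝ} {φ : Sp d → ℝ} (h : TFn J N φ) (x : Sp d) : |φ x| ≤ N := by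
  have := h.bd 0 (Nat.zero_le J) x
  rwa [norm_iteratedFDeriv_zero, Real.norm_eq_abs] at this

lemma TFn.mono' {J : ℕ} {N N' : ℝ} {φ : Sp d → ℝ} (h : TFn J N φ) (hN : N ≤ N') : TFn J N' φ :=
  ⟨h.smooth, fun j hj x => (h.bd j hj x).trans hN⟩

lemma TFn.mul {N N' : ℝ} {φ ψ : Sp d → ℝ} (h : TFn 2 N φ) (h' : TFn 2 N' ψ) :
    TFn 2 (4 * N * N') (fun x => φ x * ψ x) where
  smooth := h.smooth.mul h'.smooth
  bd := by
    intro j hj x
    have h0 := TFn.nonneg h
    have h0' := TFn.nonneg h'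
    refine (norm_iteratedFDeriv_mul_le h.smooth h'.smooth x (n := j) (by exact_mod_cast hj)).trans ?_
    have h1 : ∑ i ∈ Finset.range (j + 1), (j.choose i : ℝ) * ‖iteratedFDeriv ℝ i φ x‖ *
        ‖iteratedFDeriv ℝ (j - i) ψ x‖ ≤ ∑ i ∈ Finset.range (j + 1), (j.choose i : ℝ) * N * N' := by
      refine Finset.sum_le_sum fun i hi => ?_
      have hi' : i ≤ j := Nat.lt_succ_iff.mp (Finset.mem_range.mp hi)
      have := h.bd i (hi'.trans hj) x
      have := h'.bd (j - i) ((Nat.sub_le _ _).trans hj) x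
      gcongr
    refine h1.trans ?_
    rw [← Finset.sum_mul, ← Finset.sum_mul]
    have h2 : ∑ i ∈ Finset.range (j + 1), (j.choose i : ℝ) = 2 ^ j := by
      exact_mod_cast Nat.sum_range_choose j
    rw [h2]
    have h3 : (2 : ℝ) ^ j ≤ 4 := by
      calc (2 : ℝ) ^ j ≤ 2 ^ 2 := pow_le_pow_right₀ (by norm_num) hj
        _ = 4 := by norm_num
    gcongr

lemma TFn.sub {N N' : ℝ} {φ ψ : Sp d → ℝ} (h : TFn 2 N φ) (h' : TFn 2 N' ψ) :
    TFn 2 (N + N') (fun x => φ x - ψ x) where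
  smooth := h.smooth.sub h'.smooth
  bd := by
    intro j hj x
    have e : iteratedFDeriv ℝ j (fun x => φ x - ψ x) x =
        iteratedFDeriv ℝ j φ x - iteratedFDeriv ℝ j ψ x := by
      have h1 : ContDiffAt ℝ j φ x := (h.smooth.of_le (by exact_mod_cast hj)).contDiffAt
      have h2 : ContDiffAt ℝ j ψ x := (h'.smooth.of_le (by exact_mod_cast hj)).contDiffAt
      exact iteratedFDeriv_sub_apply h1 h2
    rw [e]
    exact (norm_sub_le _ _).trans (add_le_add (h.bd j hj x) (h'.bd j hj x))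

lemma TFn.const_mul {N : ℝ} {φ : Sp d → ℝ} (h : TFn 2 N φ) (a : ℝ) :
    TFn 2 (|a| * N) (fun x => a * φ x) where
  smooth := contDiff_const.mul h.smooth
  bd := by
    intro j hj x
    have e : iteratedFDeriv ℝ j (fun x => a * φ x) x = a • iteratedFDeriv ℝ j φ x := by
      have h1 : ContDiffAt ℝ j φ x := (h.smooth.of_le (by exact_mod_cast hj)).contDiffAt
      exact iteratedFDeriv_const_smul_apply' (a := a) h1
    rw [e, norm_smul, Real.norm_eq_abs]
    exact mul_le_mul_of_nonneg_left (h.bd j hj x) (abs_nonneg a)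

lemma TFn.comp_sub {N : ℝ} {φ : Sp d → ℝ} (h : TFn 2 N φ) (a : Sp d) :
    TFn 2 N (fun x => φ (x - a)) where
  smooth := h.smooth.comp (contDiff_id.sub contDiff_const)
  bd := by
    intro j hj x
    rw [iteratedFDeriv_comp_sub]
    exact h.bd j hj _

lemma TFn.comp_smul {N : ℝ} {φ : Sp d → ℝ} (h : TFn 2 N φ) {a : ℝ} (ha : 1 ≤ a) :
    TFn 2 (a ^ 2 * N) (fun x => φ (a • x)) where
  smooth := h.smooth.comp (contDiff_const_smul a)
  bd := by
    intro j hj x
    have h0 := TFn.nonneg h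
    have e := (a • ContinuousLinearMap.id ℝ (Sp d)).iteratedFDeriv_comp_right h.smooth x (i := j)
      (by exact_mod_cast hj)
    have e2 : (φ ∘ (a • ContinuousLinearMap.id ℝ (Sp d) : Sp d →L[ℝ] Sp d)) =
        fun x => φ (a • x) := rfl
    rw [e2] at e
    rw [e]
    refine (ContinuousMultilinearMap.norm_compContinuousLinearMap_le _ _).trans ?_
    have h1 : ‖(a • ContinuousLinearMap.id ℝ (Sp d) : Sp d →L[ℝ] Sp d)‖ ≤ a := by
      rw [norm_smul, Real.norm_of_nonneg (by linarith)]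
      exact mul_le_of_le_one_right (by linarith) ContinuousLinearMap.norm_id_le
    rw [Finset.prod_const, Finset.card_univ, Fintype.card_fin]
    have h2 : ‖(a • ContinuousLinearMap.id ℝ (Sp d) : Sp d →L[ℝ] Sp d)‖ ^ j ≤ a ^ 2 :=
      (pow_le_pow_left₀ (norm_nonneg _) h1 j).trans (pow_le_pow_right₀ ha hj)
    rw [mul_comm]
    exact mul_le_mul h2 (h.bd j hj _) (norm_nonneg _) (by positivity)

/-! ## convolutions -/

section Conv

variable {W : Type*} [NormedAddCommGroup W] [NormedSpace ℝ W]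

/-- convolution -/
def cv (k : Sp d → ℝ) (K : Sp d → W) (x : Sp d) : W := ∫ z, k z • K (x - z)

lemma cv_fderiv {k : Sp d → ℝ} (hk : Continuous k) {K : Sp d → W} (hK : ContDiff ℝ 1 K)
    (hK' : HasCompactSupport K) (x : Sp d) : HasFDerivAt (cv k K) (cv k (fderiv ℝ K) x) x := by
  have h1 := hK'.hasFDerivAt_convolution_right (ContinuousLinearMap.lsmul ℝ ℝ : ℝ →L[ℝ] W →L[ℝ] W)
    (hk.locallyIntegrable (μ := (volume : Measure (Sp d)))) hK x
  exact h1

lemma cv_bd {k : Sp d → ℝ} {H : ℝ} (hH : ∀ z, |k z| ≤ H) {K : Sp d → W}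
    (hK' : ∀ z, 1 < ‖z‖ → K z = 0) {B : ℝ} (hB : ∀ z, ‖K z‖ ≤ B) (x : Sp d) :
    ‖cv k K x‖ ≤ H * B * (volume (closedBall (0 : Sp d) 1)).toReal := by
  have hH0 : 0 ≤ H := (abs_nonneg _).trans (hH 0)
  have hB0 : 0 ≤ B := (norm_nonneg _).trans (hB 0)
  unfold cv
  have e : ∫ z, k z • K (x - z) = ∫ z in closedBall x 1, k z • K (x - z) := by
    symm
    refine setIntegral_eq_integral_of_forall_compl_eq_zero fun z hz => ?_
    rw [mem_closedBall, dist_comm, dist_eq_norm, not_le] at hz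
    rw [hK' _ hz, smul_zero]
  rw [e]
  have h2 : (volume (closedBall x 1)).toReal = (volume (closedBall (0 : Sp d) 1)).toReal := by
    rw [Measure.addHaar_closedBall_center]
  rw [← h2]
  refine norm_setIntegral_le_of_norm_le_const measure_closedBall_lt_top fun z _ => ?_
  rw [norm_smul, Real.norm_eq_abs]
  exact mul_le_mul (hH z) (hB _) (norm_nonneg _) hH0

lemma fderiv_supp {K : Sp d → W} (hK : ∀ z, 1 < ‖z‖ → K z = 0) :
    ∀ z, 1 < ‖z‖ → fderiv ℝ K z = 0 := by
  intro z hz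
  have h1 : K =ᶠ[nhds z] fun _ => 0 := by
    have h2 : {w : Sp d | 1 < ‖w‖} ∈ nhds z := (isOpen_lt continuous_const continuous_norm).mem_nhds hz
    filter_upwards [h2] with w hw
    exact hK w hw
  rw [h1.fderiv_eq, fderiv_fun_const]
  rfl

lemma cs_of_supp {K : Sp d → W} (hK : ∀ z, 1 < ‖z‖ → K z = 0) : HasCompactSupport K :=
  HasCompactSupport.intro (isCompact_closedBall (0 : Sp d) 1) fun x hx => hK x (by
    rwa [mem_closedBall, dist_zero_right, not_le] at hx)

end Conv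

lemma cv_TFn {k : Sp d → ℝ} (hk : Continuous k) {H : ℝ} (hH : ∀ z, |k z| ≤ H) {K : Sp d → ℝ}
    {B : ℝ} (hK : TFn 2 B K) (hK' : ∀ z, 1 < ‖z‖ → K z = 0) :
    TFn 2 (H * B * (volume (closedBall (0 : Sp d) 1)).toReal) (cv k K) where
  smooth := by
    have h1 := (cs_of_supp hK').contDiff_convolution_right
      (ContinuousLinearMap.lsmul ℝ ℝ : ℝ →L[ℝ] ℝ →L[ℝ] ℝ)
      (hk.locallyIntegrable (μ := (volume : Measure (Sp d)))) hK.smooth
    exact h1
  bd := by
    intro j hj x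
    have hK1 : ContDiff ℝ 1 K := hK.smooth.of_le (by norm_num)
    have hD1 : ContDiff ℝ 1 (fderiv ℝ K) := hK.smooth.fderiv_right (by norm_num)
    have e1 : fderiv ℝ (cv k K) = cv k (fderiv ℝ K) := by
      ext1 z
      exact (cv_fderiv hk hK1 (cs_of_supp hK') z).fderiv
    have hs1 := fderiv_supp hK'
    have e2 : fderiv ℝ (cv k (fderiv ℝ K)) = cv k (fderiv ℝ (fderiv ℝ K)) := by
      ext1 z
      exact (cv_fderiv hk hD1 (cs_of_supp hs1) z).fderiv
    have hb0 : ∀ z, ‖K z‖ ≤ B := fun z => by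
      have := hK.bd 0 (by norm_num) z
      rwa [norm_iteratedFDeriv_zero] at this
    have hb1 : ∀ z, ‖fderiv ℝ K z‖ ≤ B := fun z => by
      have := hK.bd 1 (by norm_num) z
      rwa [norm_iteratedFDeriv_one] at this
    have hb2 : ∀ z, ‖fderiv ℝ (fderiv ℝ K) z‖ ≤ B := fun z => by
      have := hK.bd 2 le_rfl z
      rwa [← norm_iteratedFDeriv_fderiv, norm_iteratedFDeriv_one] at this
    interval_cases j
    · rw [norm_iteratedFDeriv_zero]
      exact cv_bd hH hK' hb0 x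
    · rw [norm_iteratedFDeriv_one, e1]
      exact cv_bd hH hs1 hb1 x
    · rw [← norm_iteratedFDeriv_fderiv, norm_iteratedFDeriv_one, e1, e2]
      exact cv_bd hH (fderiv_supp hs1) hb2 x

/-- C² bounds of averages -/
lemma avk_TFn {k : Sp d → ℝ} (hk : Continuous k) {H : ℝ} (hH : ∀ z, |k z| ≤ H) {β : Sp d → ℝ}
    {B : ℝ} (hβ : TFn 2 B β) (hβs : ∀ y, 1 ≤ ‖y‖ → β y = 0) (he : ∀ y, β (-y) = β y) {s : ℝ}
    (hs : 0 < s) (hs1 : s ≤ 1) :
    TFn 2 ((s⁻¹) ^ 2 * (H * B * (volume (closedBall (0 : Sp d) 1)).toReal)) (avk β s k) := by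
  have h1 := cv_TFn (k := fun z => k (s • z)) (hk.comp (by fun_prop)) (fun z => hH _) hβ
    fun z hz => hβs z hz.le
  have h2 := TFn.comp_smul h1 (a := s⁻¹) ((one_le_inv₀ hs).mpr hs1)
  have e : avk β s k = fun x => cv (fun z => k (s • z)) β (s⁻¹ • x) := by
    ext x
    unfold avk cv
    rw [← integral_add_right_eq_self (μ := volume) (fun z => k (s • z) • β (s⁻¹ • x - z)) (s⁻¹ • x)]
    congr 1
    ext y
    rw [smul_add, smul_smul, mul_inv_cancel₀ hs.ne', one_smul, sub_add_cancel_right, he,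
      add_comm (s • y), smul_eq_mul, smul_eq_mul, mul_comm]
  rw [e]
  exact h2

/-- uniform bounds of the kernels -/
lemma kit_TFn (hd : 1 ≤ d) (M : ℝ) : ∃ B : ℝ, 0 < B ∧ ∀ (J : ℕ) (β : Sp d → ℝ), 2 ≤ J →
    Kit J M β → TFn 2 B β := by
  set n : Sp d := EuclideanSpace.single ⟨0, hd⟩ (1 : ℝ) with hn
  have hn1 : ‖n‖ = 1 := by rw [hn, PiLp.norm_single, norm_one]
  set V : ℝ := (volume (closedBall (0 : (Submodule.span ℝ {n})ᗮ) 1)).toReal with hV
  have hV0 : 0 ≤ V := ENNReal.toReal_nonneg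
  refine ⟨|M| * V + 1, by positivity, ?_⟩
  intro J β hJ hβ
  have hS0 : 0 ≤ β 0 := hβ.prof.nonneg 0
  have hS : ∀ x, β x ≤ β 0 := fun x => hβ.prof.mono 0 x (by rw [norm_zero]; exact norm_nonneg x)
  have hdisc : ∀ x, |disc n β x| ≤ V * β 0 := by
    intro x
    unfold disc
    rw [← Real.norm_eq_abs]
    have := norm_setIntegral_le_of_norm_le_const (C := β 0) (f := fun y : (Submodule.span ℝ {n})ᗮ =>
      β (x - (y : Sp d))) (s := closedBall (0 : (Submodule.span ℝ {n})ᗮ) 1) (μ := volume)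
      measure_closedBall_lt_top fun y _ => by
        rw [Real.norm_of_nonneg (hβ.prof.nonneg _)]
        exact hS _
    rw [mul_comm]
    exact this
  have hder : ∀ j ≤ J, ∀ x, ‖iteratedFDeriv ℝ j β x‖ ^ 2 ≤ |M| * V * β 0 := by
    intro j hj x
    refine (hβ.prof.der j hj n hn1 x).trans ?_
    calc M * disc n β x ≤ |M * disc n β x| := le_abs_self _
      _ = |M| * |disc n β x| := abs_mul _ _
      _ ≤ |M| * (V * β 0) := mul_le_mul_of_nonneg_left (hdisc x) (abs_nonneg M)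
      _ = |M| * V * β 0 := by ring
  have hS2 : β 0 ≤ |M| * V := by
    have h1 := hder 0 (Nat.zero_le J) 0
    rw [norm_iteratedFDeriv_zero, Real.norm_of_nonneg hS0] at h1
    rcases hS0.eq_or_lt with h | h
    · rw [← h]; positivity
    · have : β 0 * β 0 ≤ |M| * V * β 0 := by rw [← sq]; exact h1
      exact le_of_mul_le_mul_right this h
  refine ⟨hβ.prof.smooth.of_le (by exact_mod_cast hJ), fun j hj x => ?_⟩
  have h1 := hder j (hj.trans hJ) x
  have h2 : ‖iteratedFDeriv ℝ j β x‖ ^ 2 ≤ (|M| * V) ^ 2 := by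
    refine h1.trans ?_
    rw [sq]
    exact mul_le_mul_of_nonneg_left hS2 (by positivity)
  have h3 : ‖iteratedFDeriv ℝ j β x‖ ≤ |M| * V := by
    exact (sq_le_sq₀ (norm_nonneg _) (by positivity)).mp h2
  linarith

/-! ## the partition of unity -/

lemma chi1_nonneg (x : ℝ) : 0 ≤ chi1 x := by
  unfold chi1
  have := Real.smoothTransition.monotone (show x ≤ x + 1 by linarith)
  linarith

lemma chi1_zero {x : ℝ} (h : 1 ≤ |x|) : chi1 x = 0 := by
  unfold chi1
  rcases le_abs.mp h with h | h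
  · rw [Real.smoothTransition.one_of_one_le h, Real.smoothTransition.one_of_one_le (by linarith),
      sub_self]
  · rw [Real.smoothTransition.zero_of_nonpos (show x ≤ 0 by linarith),
      Real.smoothTransition.zero_of_nonpos (show x + 1 ≤ 0 by linarith), sub_self]

lemma chi1_sum (L : ℕ) {x : ℝ} (hx : |x| ≤ L) :
    ∑ k ∈ Finset.Icc (-(L : ℤ)) L, chi1 (x - k) = 1 := by
  have key : ∀ m : ℕ, ∑ k ∈ Finset.Icc (-(L : ℤ)) (-(L : ℤ) + m), chi1 (x - k) =
      Real.smoothTransition (x + L + 1) - Real.smoothTransition (x + L - m) := by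
    intro m
    induction m with
    | zero =>
      simp only [Nat.cast_zero, add_zero, Finset.Icc_self, Finset.sum_singleton, Int.cast_neg,
        Int.cast_natCast, sub_neg_eq_add, sub_zero]
      rfl
    | succ m ih =>
      have e : Finset.Icc (-(L : ℤ)) (-(L : ℤ) + (m + 1 : ℕ)) =
          insert (-(L : ℤ) + (m + 1 : ℕ)) (Finset.Icc (-(L : ℤ)) (-(L : ℤ) + m)) := by
        ext k
        simp only [Finset.mem_insert, Finset.mem_Icc]
        push_cast
        omega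
      rw [e, Finset.sum_insert (by simp), ih]
      unfold chi1
      have e1 : x - ((-(L : ℤ) + (m + 1 : ℕ) : ℤ) : ℝ) + 1 = x + L - m := by push_cast; ring
      have e2 : x - ((-(L : ℤ) + (m + 1 : ℕ) : ℤ) : ℝ) = x + L - (m + 1 : ℕ) := by push_cast; ring
      rw [e1, e2]
      ring
  have h1 := key (2 * L)
  have e : -(L : ℤ) + (2 * L : ℕ) = L := by push_cast; ring
  rw [e] at h1
  rw [h1]
  obtain ⟨h2, h3⟩ := abs_le.mp hx
  rw [Real.smoothTransition.one_of_one_le (by linarith),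
    Real.smoothTransition.zero_of_nonpos (by push_cast; linarith), sub_zero]

lemma chi_nonneg (y : Sp d) : 0 ≤ chi y := Finset.prod_nonneg fun j _ => chi1_nonneg _

lemma chi_zero {y : Sp d} {j : Fin d} (h : 1 ≤ |y j|) : chi y = 0 :=
  Finset.prod_eq_zero (Finset.mem_univ j) (chi1_zero h)

/-- the box of lattice points -/
def box (d L : ℕ) : Finset (Fin d → ℤ) := Fintype.piFinset fun _ => Finset.Icc (-(L : ℤ)) L

lemma lat_apply (p : Fin d → ℤ) (j : Fin d) : lat p j = (p j : ℝ) := rfl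

lemma chi_sum (L : ℕ) {y : Sp d} (hy : ∀ j, |y j| ≤ L) :
    ∑ p ∈ box d L, chi (y - lat p) = 1 := by
  unfold chi box
  have e : ∀ p : Fin d → ℤ, ∏ j, chi1 ((y - lat p) j) = ∏ j, chi1 (y j - (p j : ℝ)) := by
    intro p
    refine Finset.prod_congr rfl fun j _ => ?_
    rfl
  simp only [e]
  rw [← Finset.prod_univ_sum (fun _ => Finset.Icc (-(L : ℤ)) L) (fun j k => chi1 (y j - (k : ℝ)))]
  exact Finset.prod_eq_one fun j _ => chi1_sum L (hy j)

lemma chi_sum_le (L : ℕ) (y : Sp d) : ∑ p ∈ box d L, chi (y - lat p) ≤ 1 := by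
  obtain ⟨L', hL'⟩ := exists_nat_ge (‖y‖ + L)
  have h1 : ∀ j, |y j| ≤ (L' : ℝ) := by
    intro j
    have h2 : |y j| ≤ ‖y‖ := by
      rw [← Real.norm_eq_abs]
      exact PiLp.norm_apply_le y j
    have : (0 : ℝ) ≤ L := Nat.cast_nonneg L
    linarith
  rw [← chi_sum L' h1]
  refine Finset.sum_le_sum_of_subset_of_nonneg ?_ fun p _ _ => chi_nonneg _
  intro p hp
  unfold box at hp ⊢
  rw [Fintype.mem_piFinset] at hp ⊢
  intro j
  have h3 := Finset.mem_Icc.mp (hp j)
  have h4 : (L : ℝ) ≤ L' := by linarith [norm_nonneg y]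
  have h5 : (L : ℤ) ≤ L' := by exact_mod_cast h4
  exact Finset.mem_Icc.mpr ⟨by omega, by omega⟩

lemma chi_le_one (y : Sp d) : chi y ≤ 1 := by
  unfold chi
  refine Finset.prod_le_one (fun j _ => chi1_nonneg _) fun j _ => ?_
  unfold chi1
  have := Real.smoothTransition.le_one (y j + 1)
  have := Real.smoothTransition.nonneg (y j)
  linarith

lemma chi_supp {y : Sp d} (h : (d : ℝ) ≤ ‖y‖) (hd : 1 ≤ d) : chi y = 0 := by
  by_contra h0
  have h1 : ∀ j, |y j| < 1 := by
    intro j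
    by_contra h2
    exact h0 (chi_zero (not_lt.mp h2))
  have h2 : ‖y‖ ^ 2 < d := by
    rw [EuclideanSpace.norm_sq_eq]
    have : ∑ i : Fin d, ‖y i‖ ^ 2 < ∑ i : Fin d, (1 : ℝ) := by
      refine Finset.sum_lt_sum_of_nonempty ⟨⟨0, hd⟩, Finset.mem_univ _⟩ fun i _ => ?_
      rw [Real.norm_eq_abs, sq_lt_one_iff₀ (abs_nonneg _)]
      exact h1 i
    simpa using this
  have hd' : (1 : ℝ) ≤ d := by exact_mod_cast hd
  nlinarith [norm_nonneg y]

lemma chi_contDiff : ContDiff ℝ 2 (chi : Sp d → ℝ) := by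
  unfold chi chi1
  refine contDiff_prod fun j _ => ?_
  have h1 : ContDiff ℝ 2 Real.smoothTransition := Real.smoothTransition.contDiff (n := 2)
  have h2 : ContDiff ℝ 2 fun y : Sp d => y j := by fun_prop
  exact (h1.comp (h2.add contDiff_const)).sub (h1.comp h2)

lemma chi_TFn (hd : 1 ≤ d) : ∃ N : ℝ, 0 < N ∧ TFn 2 N (chi : Sp d → ℝ) := by
  have hcs : HasCompactSupport (chi : Sp d → ℝ) :=
    HasCompactSupport.intro (isCompact_closedBall (0 : Sp d) d) fun x hx => chi_supp (by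
      rw [mem_closedBall, dist_zero_right, not_le] at hx
      exact hx.le) hd
  have h1 : ∀ j ≤ 2, ∃ N : ℝ, ∀ x, ‖iteratedFDeriv ℝ j (chi : Sp d → ℝ) x‖ ≤ N := by
    intro j hj
    have hc : Continuous (iteratedFDeriv ℝ j (chi : Sp d → ℝ)) :=
      chi_contDiff.continuous_iteratedFDeriv (by exact_mod_cast hj)
    exact hc.bounded_above_of_compact_support (hcs.iteratedFDeriv j)
  obtain ⟨N0, h0⟩ := h1 0 (by norm_num)
  obtain ⟨N1, h1'⟩ := h1 1 (by norm_num)
  obtain ⟨N2, h2⟩ := h1 2 le_rfl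
  refine ⟨|N0| + |N1| + |N2| + 1, by positivity, chi_contDiff, fun j hj x => ?_⟩
  interval_cases j
  · linarith [h0 x, le_abs_self N0, abs_nonneg N1, abs_nonneg N2]
  · linarith [h1' x, le_abs_self N1, abs_nonneg N0, abs_nonneg N2]
  · linarith [h2 x, le_abs_self N2, abs_nonneg N0, abs_nonneg N1]

end PTm

end

end TG
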