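import Pool.Agent.TG.Stmts2
import Pool.Agent.TG.SC

/-!
# Trace inequality, general operators: scaling of q, Υ and H_n (module SE)
-/

open MeasureTheory Metric Set TrI
open scoped InnerProductSpace ContDiff

namespace TG

noncomputable section

namespace SE

variable {d : ℕ}

lemma qq_rsm (A : ℝ) (x : Sp d) {t : ℝ} (ht : 0 < t) (μ : Measure (Sp d)) (r : ℝ) (y : Sp d) :
    qq A (rsm x t μ) r y = qq A μ (t * r) (x + t • y) := by
  unfold qq
  rw [SC.integral_rsm x ht, SC.th_rsm x ht]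
  have h1 : ∀ η : Sp d, cut (‖y - (1 / t) • (η - x)‖ / (A * r)) * kk r (y - (1 / t) • (η - x)) =
      t ^ d / t * (cut (‖x + t • y - η‖ / (A * (t * r))) * kk (t * r) (x + t • y - η)) := by
    intro η
    rw [SC.arg_scale ht, SC.kk_scale ht]
    have e1 : ‖(1 / t) • (x + t • y - η)‖ / (A * r) = ‖x + t • y - η‖ / (A * (t * r)) := by
      rw [norm_smul, Real.norm_of_nonneg (by positivity), one_div, inv_mul_eq_div, div_div]
      congr 1
      ring
    rw [e1]
    ring
  simp_rw [h1]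
  rw [integral_const_mul, ← mul_assoc]
  have : t / t ^ d * (t ^ d / t) = 1 := by field_simp
  rw [this, one_mul]

lemma Ups_rsm (p0 A : ℝ) (x : Sp d) {t : ℝ} (ht : 0 < t) (μ : Measure (Sp d)) (r : ℝ)
    (y : Sp d) : Ups p0 A (rsm x t μ) r y = Ups p0 A μ (t * r) (x + t • y) := by
  unfold Ups
  rw [qq_rsm A x ht]

lemma gradient_const (g : Sp d → ℝ) {a : ℝ} (ha : a ≠ 0) (y : Sp d) :
    gradient (fun y => a * g y) y = a • gradient g y := by
  set e : ℝ ≃L[ℝ] ℝ := ContinuousLinearEquiv.smulLeft (Units.mk0 a ha) with he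
  have h1 : (fun y => a * g y) = e ∘ g := by
    funext z
    rfl
  have h2 : fderiv ℝ (fun y => a * g y) y = a • fderiv ℝ g y := by
    rw [h1, e.comp_fderiv]
    ext z
    rfl
  unfold gradient
  rw [h2, map_smulₛₗ]
  rfl

lemma Hn_rsm (β : Sp d → ℝ) (ε p0 A : ℝ) (x : Sp d) {t : ℝ} (ht : 0 < t) (μ : Measure (Sp d))
    (n : Sp d) (r : ℝ) (y : Sp d) :
    Hn β ε p0 A (rsm x t μ) n r y = Hn β ε p0 A μ n (t * r) (x + t • y) := by
  unfold Hn
  have h1 : WW β ε (rsm x t μ) r = fun y => 1 / t ^ 2 * WW β ε μ (t * r) (x + t • y) :=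
    funext fun y => SC.WW_rsm β ε x ht μ r y
  have h2 : Ups p0 A (rsm x t μ) r = fun y => Ups p0 A μ (t * r) (x + t • y) :=
    funext fun y => Ups_rsm p0 A x ht μ r y
  have h3 : gradient (WW β ε (rsm x t μ) r) y =
      (1 / t) • gradient (WW β ε μ (t * r)) (x + t • y) := by
    rw [h1, gradient_const (fun y => WW β ε μ (t * r) (x + t • y)) (by positivity),
      SC.gradient_aff, smul_smul]
    congr 1
    field_simp
  have h4 : gradient (Ups p0 A (rsm x t μ) r) y =
      t • gradient (Ups p0 A μ (t * r)) (x + t • y) := by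
    rw [h2, SC.gradient_aff]
  rw [Ups_rsm p0 A x ht, SC.gn_rsm β ε x ht, SC.GG_rsm β ε x ht, h3, h4, SC.tang_smul,
    SC.tang_smul, real_inner_smul_left, real_inner_smul_right, ← mul_assoc,
    mul_one_div_cancel ht.ne', one_mul]

end SE

theorem stmtSE (_ : StmtSC) : StmtSE := by
  intro d _ C' _ x t ht μ _ M β _ ε _ _ p0 A _ _ r y _
  exact ⟨SE.qq_rsm A x ht μ r y, SE.Ups_rsm p0 A x ht μ r y,
    fun n _ => SE.Hn_rsm β ε p0 A x ht μ n r y⟩

end

end TG
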