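import Pool.Agent.TG.Conc
import Pool.Agent.TG.NN
import Pool.Agent.TG.SE
import Pool.Agent.TG.SD
import Pool.Agent.TG.PTb
import Pool.Agent.TG.Ker

/-!
# Trace inequality, general operators: module CS1, the sum identity (6.1) on one level

All cells of one level are put in a common frame (centre 0): the flux of the density of the cell q
in the field ch q times grad (ch p) is a linear functional Ph q of the field, so that the outgoing
fluxes of p add up to Ph p (grad ch p) and the incoming fluxes of q add up to Ph q (0) = 0.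
-/

open MeasureTheory Metric Set TrI Filter
open scoped InnerProductSpace ContDiff

set_option linter.unusedSectionVars false
set_option linter.unusedVariables false

namespace TG

noncomputable section

namespace CS1m

variable {d : ℕ}

/-! ## Gradients -/

lemma inner_grad (g : Sp d → ℝ) (x v : Sp d) : ⟪v, gradient g x⟫_ℝ = fderiv ℝ g x v := by
  rw [real_inner_comm]
  unfold gradient
  rw [InnerProductSpace.toDual_symm_apply]

lemma grad_apply (g : Sp d → ℝ) (x : Sp d) (i : Fin d) : (gradient g x) i = fderiv ℝ g x (bv i) := by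
  rw [← inner_grad g x (bv i)]
  unfold bv
  rw [EuclideanSpace.inner_single_left]
  simp

lemma smooth_fderiv {g : Sp d → ℝ} (hg : ContDiff ℝ ∞ g) : ContDiff ℝ ∞ (fderiv ℝ g) :=
  hg.fderiv_right (m := ∞) (by norm_cast)

lemma smooth_grad {g : Sp d → ℝ} (hg : ContDiff ℝ ∞ g) : ContDiff ℝ ∞ (gradient g) := by
  unfold gradient
  exact ((InnerProductSpace.toDual ℝ (Sp d)).symm.toContinuousLinearEquiv.contDiff).comp
    (smooth_fderiv hg)

/-! ## The flux densities as linear functionals of a vector field -/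

/-- smooth compactly supported fields -/
structure SV (v : Sp d → Sp d) : Prop where
  smooth : ContDiff ℝ ∞ v
  cs : HasCompactSupport v

lemma SV.zero : SV (fun _ : Sp d => (0 : Sp d)) := ⟨contDiff_const, HasCompactSupport.zero⟩

lemma SV.add {v w : Sp d → Sp d} (hv : SV v) (hw : SV w) : SV (fun x => v x + w x) :=
  ⟨hv.smooth.add hw.smooth, hv.cs.add hw.cs⟩

lemma SV.comp_i {v : Sp d → Sp d} (hv : SV v) (i : Fin d) : ContDiff ℝ ∞ (fun x => (v x) i) := by
  have := hv.smooth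
  fun_prop

def Sv (U W : Sp d → ℝ) (v : Sp d → Sp d) (x : Sp d) : ℝ := U x * fderiv ℝ W x (v x)

def Yv (U W : Sp d → ℝ) (v : Sp d → Sp d) (i j : Fin d) (x : Sp d) : ℝ :=
  U x * (1 / 2 * ((v x) i * fderiv ℝ W x (bv j) + (v x) j * fderiv ℝ W x (bv i)))

def Av (U W : Sp d → ℝ) (n : Sp d) (v : Sp d → Sp d) (x : Sp d) : ℝ :=
  U x * (fderiv ℝ W x (v x) - (2 - ‖n‖ ^ 2) * (⟪n, v x⟫_ℝ * fderiv ℝ W x n))

def Nv (b : Sp d → ℝ) (R : ℝ) (U W : Sp d → ℝ) (v : Sp d → Sp d) (y : Sp d) : ℝ :=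
  Sv U W v y - avk b R (Sv U W v) y - nt b R (Yv U W v) y

/-- density of kind k -/
def Dn (b : Sp d → ℝ) (R : ℝ) (k : ℕ) (U W : Sp d → ℝ) (n : Sp d) (v : Sp d → Sp d)
    (y : Sp d) : ℝ :=
  if k = 0 then Av U W n v y else if k = 1 then Nv b R U W v y else 0

/-- flux of kind k -/
def Fl (b : Sp d → ℝ) (R : ℝ) (k : ℕ) (U W m : Sp d → ℝ) (n : Sp d) (v : Sp d → Sp d) : ℝ :=
  ∫ y, m y * Dn b R k U W n v y

section Lin

variable {b U W : Sp d → ℝ} {R M c0 : ℝ} {n : Sp d}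

lemma Sv_smooth (hU : ContDiff ℝ ∞ U) (hW : ContDiff ℝ ∞ W) {v : Sp d → Sp d} (hv : SV v) :
    ContDiff ℝ ∞ (Sv U W v) :=
  hU.mul ((smooth_fderiv hW).clm_apply hv.smooth)

lemma Sv_cs (U W : Sp d → ℝ) {v : Sp d → Sp d} (hv : SV v) : HasCompactSupport (Sv U W v) := by
  refine hv.cs.mono ?_
  intro x hx hx0
  exact hx (by unfold Sv; rw [hx0]; simp)

lemma Yv_smooth (hU : ContDiff ℝ ∞ U) (hW : ContDiff ℝ ∞ W) {v : Sp d → Sp d} (hv : SV v)
    (i j : Fin d) : ContDiff ℝ ∞ (Yv U W v i j) :=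
  hU.mul (contDiff_const.mul (((hv.comp_i i).mul ((smooth_fderiv hW).clm_apply contDiff_const)).add
    ((hv.comp_i j).mul ((smooth_fderiv hW).clm_apply contDiff_const))))

lemma Yv_cs (U W : Sp d → ℝ) {v : Sp d → Sp d} (hv : SV v) (i j : Fin d) :
    HasCompactSupport (Yv U W v i j) := by
  refine hv.cs.mono ?_
  intro x hx hx0
  exact hx (by unfold Yv; rw [hx0]; simp)

lemma Av_smooth (hU : ContDiff ℝ ∞ U) (hW : ContDiff ℝ ∞ W) {v : Sp d → Sp d} (hv : SV v)
    (n : Sp d) : ContDiff ℝ ∞ (Av U W n v) := by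
  have h1 : ContDiff ℝ ∞ (fun x => ⟪n, v x⟫_ℝ) := contDiff_const.inner ℝ hv.smooth
  exact hU.mul (((smooth_fderiv hW).clm_apply hv.smooth).sub
    (contDiff_const.mul (h1.mul ((smooth_fderiv hW).clm_apply contDiff_const))))

lemma Av_cs (U W : Sp d → ℝ) {v : Sp d → Sp d} (hv : SV v) (n : Sp d) :
    HasCompactSupport (Av U W n v) := by
  refine hv.cs.mono ?_
  intro x hx hx0
  exact hx (by unfold Av; rw [hx0]; simp)

lemma dd2_cs {F : Fin d → Fin d → Sp d → ℝ} (hF : ∀ i j, ContDiff ℝ ∞ (F i j))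
    (hc : ∀ i j, HasCompactSupport (F i j)) : HasCompactSupport (dd2 F) := by
  unfold dd2
  exact NN.cs_sum _ fun i => NN.cs_sum _ fun j => NN.pd2_cs (hF i j) (hc i j) i j

lemma nt_smooth (hb : BaseKer 2 M c0 b) (hR : 0 ≤ R) {F : Fin d → Fin d → Sp d → ℝ}
    (hF : ∀ i j, ContDiff ℝ ∞ (F i j)) : ContDiff ℝ ∞ (nt b R F) := by
  have hk := hb.kit 0
  exact (NN.NNp_smooth (hk.smooth1.continuous) hk.supp1 hR (NN.dd2_smooth hF)).1.neg

lemma nt_cs (hb : BaseKer 2 M c0 b) (hR : 0 ≤ R) {F : Fin d → Fin d → Sp d → ℝ}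
    (hF : ∀ i j, ContDiff ℝ ∞ (F i j)) (hc : ∀ i j, HasCompactSupport (F i j)) :
    HasCompactSupport (nt b R F) := by
  have h1 := NN.NNp_cs hb hR (dd2_cs hF hc)
  exact h1.neg

lemma Nv_cont (hb : BaseKer 2 M c0 b) (hR : 0 ≤ R) (hU : ContDiff ℝ ∞ U) (hW : ContDiff ℝ ∞ W)
    {v : Sp d → Sp d} (hv : SV v) : Continuous (Nv b R U W v) :=
  ((Sv_smooth hU hW hv).continuous.sub (hb.ak.avk_cont (Sv_smooth hU hW hv).continuous R)).sub
    (nt_smooth hb hR (fun i j => Yv_smooth hU hW hv i j)).continuous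

lemma Nv_cs (hb : BaseKer 2 M c0 b) (hR : 0 ≤ R) (hU : ContDiff ℝ ∞ U) (hW : ContDiff ℝ ∞ W)
    {v : Sp d → Sp d} (hv : SV v) : HasCompactSupport (Nv b R U W v) :=
  ((Sv_cs U W hv).sub (hb.ak.avk_cs (Sv_cs U W hv) R)).sub
    (nt_cs hb hR (fun i j => Yv_smooth hU hW hv i j) (fun i j => Yv_cs U W hv i j))


/-! additivity -/

lemma Sv_add (U W : Sp d → ℝ) (v w : Sp d → Sp d) (x : Sp d) :
    Sv U W (fun x => v x + w x) x = Sv U W v x + Sv U W w x := by
  unfold Sv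
  rw [map_add, mul_add]

lemma Yv_add (U W : Sp d → ℝ) (v w : Sp d → Sp d) (i j : Fin d) (x : Sp d) :
    Yv U W (fun x => v x + w x) i j x = Yv U W v i j x + Yv U W w i j x := by
  unfold Yv
  rw [PiLp.add_apply, PiLp.add_apply]
  ring

lemma Av_add (U W : Sp d → ℝ) (n : Sp d) (v w : Sp d → Sp d) (x : Sp d) :
    Av U W n (fun x => v x + w x) x = Av U W n v x + Av U W n w x := by
  unfold Av
  rw [map_add, inner_add_right]
  ring

lemma pd2_add {g h : Sp d → ℝ} (hg : ContDiff ℝ ∞ g) (hh : ContDiff ℝ ∞ h) (i j : Fin d)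
    (x : Sp d) : pd2 i j (fun y => g y + h y) x = pd2 i j g x + pd2 i j h x := by
  unfold pd2
  have h1 : (fun y => g y + h y) = g + h := rfl
  rw [h1, iteratedFDeriv_add_apply (hg.contDiffAt.of_le (by norm_cast))
    (hh.contDiffAt.of_le (by norm_cast))]
  rfl

lemma nt_add (hb : BaseKer 2 M c0 b) (hR : 0 ≤ R) {F G : Fin d → Fin d → Sp d → ℝ}
    (hF : ∀ i j, ContDiff ℝ ∞ (F i j)) (hG : ∀ i j, ContDiff ℝ ∞ (G i j)) (y : Sp d) :
    nt b R (fun i j x => F i j x + G i j x) y = nt b R F y + nt b R G y := by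
  have hk := hb.kit 0
  have h1 : dd2 (fun i j x => F i j x + G i j x) = fun x => dd2 F x + dd2 G x := by
    ext x
    unfold dd2
    rw [← Finset.sum_add_distrib]
    refine Finset.sum_congr rfl fun i _ => ?_
    rw [← Finset.sum_add_distrib]
    refine Finset.sum_congr rfl fun j _ => ?_
    exact pd2_add (hF i j) (hG i j) i j x
  have h2 := NN.NNp_sum (b := b) hk.smooth1.continuous hk.supp1 hR (Finset.univ : Finset (Fin 2))
    (g := ![dd2 F, dd2 G]) (by
      intro i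
      fin_cases i
      · exact (NN.dd2_smooth hF).continuous
      · exact (NN.dd2_smooth hG).continuous) y
  simp only [Fin.sum_univ_two, Matrix.cons_val_zero, Matrix.cons_val_one] at h2
  unfold nt
  rw [h1, h2]
  ring

lemma Nv_add (hb : BaseKer 2 M c0 b) (hR : 0 ≤ R) (hU : ContDiff ℝ ∞ U) (hW : ContDiff ℝ ∞ W)
    {v w : Sp d → Sp d} (hv : SV v) (hw : SV w) (x : Sp d) :
    Nv b R U W (fun x => v x + w x) x = Nv b R U W v x + Nv b R U W w x := by
  unfold Nv
  have h1 : Sv U W (fun x => v x + w x) = fun x => Sv U W v x + Sv U W w x :=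
    funext fun x => Sv_add U W v w x
  have h2 : Yv U W (fun x => v x + w x) = fun i j x => Yv U W v i j x + Yv U W w i j x :=
    funext fun i => funext fun j => funext fun x => Yv_add U W v w i j x
  rw [h1, h2, nt_add hb hR (fun i j => Yv_smooth hU hW hv i j) (fun i j => Yv_smooth hU hW hw i j),
    hb.ak.avk_add (Sv_smooth hU hW hv).continuous (Sv_smooth hU hW hw).continuous]
  ring

lemma Dn_add (hb : BaseKer 2 M c0 b) (hR : 0 ≤ R) (hU : ContDiff ℝ ∞ U) (hW : ContDiff ℝ ∞ W)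
    (k : ℕ) {v w : Sp d → Sp d} (hv : SV v) (hw : SV w) (x : Sp d) :
    Dn b R k U W n (fun x => v x + w x) x = Dn b R k U W n v x + Dn b R k U W n w x := by
  unfold Dn
  split_ifs
  · exact Av_add U W n v w x
  · exact Nv_add hb hR hU hW hv hw x
  · simp

lemma Dn_cont (hb : BaseKer 2 M c0 b) (hR : 0 ≤ R) (hU : ContDiff ℝ ∞ U) (hW : ContDiff ℝ ∞ W)
    (k : ℕ) {v : Sp d → Sp d} (hv : SV v) : Continuous (Dn b R k U W n v) := by
  unfold Dn
  split_ifs
  · exact (Av_smooth hU hW hv n).continuous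
  · exact Nv_cont hb hR hU hW hv
  · exact continuous_const

lemma Dn_cs (hb : BaseKer 2 M c0 b) (hR : 0 ≤ R) (hU : ContDiff ℝ ∞ U) (hW : ContDiff ℝ ∞ W)
    (k : ℕ) {v : Sp d → Sp d} (hv : SV v) : HasCompactSupport (Dn b R k U W n v) := by
  unfold Dn
  split_ifs
  · exact Av_cs U W hv n
  · exact Nv_cs hb hR hU hW hv
  · exact HasCompactSupport.zero

lemma Dn_zero (b : Sp d → ℝ) (R : ℝ) (k : ℕ) (U W : Sp d → ℝ) (n x : Sp d) :
    Dn b R k U W n (fun _ => 0) x = 0 := by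
  have h1 : Sv U W (fun _ => 0) = fun _ => 0 := by
    ext x; unfold Sv; simp
  have h2 : Yv U W (fun _ => 0) = fun _ _ _ => 0 := by
    ext i j x; unfold Yv; simp
  have h3 : dd2 (fun (_ _ : Fin d) (_ : Sp d) => (0 : ℝ)) = fun _ => 0 := by
    ext x
    unfold dd2 pd2
    refine Finset.sum_eq_zero fun i _ => Finset.sum_eq_zero fun j _ => ?_
    rw [show (fun _ : Sp d => (0 : ℝ)) = 0 from rfl]
    simp
  unfold Dn
  split_ifs
  · unfold Av; simp
  · unfold Nv
    rw [h1, h2]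
    unfold nt NNp avk
    rw [h3]
    simp
  · rfl

lemma Fl_zero (b : Sp d → ℝ) (R : ℝ) (k : ℕ) (U W m : Sp d → ℝ) (n : Sp d) :
    Fl b R k U W m n (fun _ => 0) = 0 := by
  unfold Fl
  simp [Dn_zero]

lemma Fl_add (hb : BaseKer 2 M c0 b) (hR : 0 ≤ R) (hU : ContDiff ℝ ∞ U) (hW : ContDiff ℝ ∞ W)
    (k : ℕ) {m : Sp d → ℝ} (hm : Continuous m) {v w : Sp d → Sp d} (hv : SV v) (hw : SV w) :
    Fl b R k U W m n (fun x => v x + w x) = Fl b R k U W m n v + Fl b R k U W m n w := by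
  unfold Fl
  have hI : ∀ u : Sp d → Sp d, SV u → Integrable (fun y => m y * Dn b R k U W n u y) := fun u hu =>
    (hm.mul (Dn_cont hb hR hU hW k hu)).integrable_of_hasCompactSupport
      (Dn_cs hb hR hU hW k hu).mul_left
  rw [← integral_add (hI v hv) (hI w hw)]
  refine integral_congr_ae (Eventually.of_forall fun y => ?_)
  beta_reduce
  rw [Dn_add hb hR hU hW k hv hw]
  ring

lemma SV.sum {ι : Type*} (S : Finset ι) {v : ι → Sp d → Sp d} (hv : ∀ i ∈ S, SV (v i)) :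
    SV (fun x => ∑ i ∈ S, v i x) := by
  classical
  induction S using Finset.induction_on with
  | empty => simpa using SV.zero
  | insert i S hi ih =>
    have h1 : (fun x => ∑ k ∈ insert i S, v k x) = fun x => v i x + ∑ k ∈ S, v k x := by
      ext1 x
      rw [Finset.sum_insert hi]
    rw [h1]
    exact (hv i (Finset.mem_insert_self _ _)).add
      (ih fun k hk => hv k (Finset.mem_insert_of_mem hk))

lemma Fl_sum (hb : BaseKer 2 M c0 b) (hR : 0 ≤ R) (hU : ContDiff ℝ ∞ U) (hW : ContDiff ℝ ∞ W)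
    (k : ℕ) {m : Sp d → ℝ} (hm : Continuous m) {ι : Type*} (S : Finset ι) {v : ι → Sp d → Sp d}
    (hv : ∀ i ∈ S, SV (v i)) :
    Fl b R k U W m n (fun x => ∑ i ∈ S, v i x) = ∑ i ∈ S, Fl b R k U W m n (v i) := by
  classical
  induction S using Finset.induction_on with
  | empty => simpa using Fl_zero b R k U W m n
  | insert i S hi ih =>
    have h1 : (fun x => ∑ k ∈ insert i S, v k x) = fun x => v i x + ∑ k ∈ S, v k x := by
      ext1 x
      rw [Finset.sum_insert hi]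
    rw [h1, Finset.sum_insert hi, Fl_add hb hR hU hW k hm (hv i (Finset.mem_insert_self _ _))
      (SV.sum S fun k hk => hv k (Finset.mem_insert_of_mem hk)),
      ih fun k hk => hv k (Finset.mem_insert_of_mem hk)]

/-! support -/

lemma pd2_zero_open {g : Sp d → ℝ} {S : Set (Sp d)} (hS : IsOpen S) (hg : ∀ y ∈ S, g y = 0)
    (i j : Fin d) {x : Sp d} (hx : x ∈ S) : pd2 i j g x = 0 := by
  have h1 : g =ᶠ[nhds x] fun _ => 0 := by
    filter_upwards [hS.mem_nhds hx] with y hy using hg y hy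
  unfold pd2
  rw [(h1.iteratedFDeriv ℝ 2).eq_of_nhds]
  rw [show (fun _ : Sp d => (0 : ℝ)) = 0 from rfl]
  simp

lemma Dn_supp (hb : BaseKer 2 M c0 b) (hR : 0 ≤ R) (k : ℕ) {v : Sp d → Sp d} {x0 : Sp d} {ρ : ℝ}
    (hv : ∀ y, ρ ≤ ‖y - x0‖ → v y = 0) {y : Sp d} (hy : ρ + 1 + R ≤ ‖y - x0‖) :
    Dn b R k U W n v y = 0 := by
  have hv0 : v y = 0 := hv y (by linarith)
  unfold Dn
  split_ifs
  · unfold Av
    rw [hv0]
    simp
  · unfold Nv
    have h1 : Sv U W v y = 0 := by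
      unfold Sv; rw [hv0]; simp
    have h2 : avk b R (Sv U W v) y = 0 := by
      rw [hb.ak.avk_congr (g' := fun _ => 0) R y]
      · unfold avk; simp
      · intro z hz
        rw [abs_of_nonneg hR] at hz
        have h3 : v z = 0 := by
          refine hv z ?_
          have h4 : ‖y - x0‖ ≤ ‖z - x0‖ + ‖z - y‖ := by
            have h5 := norm_sub_le (z - x0) (z - y)
            rwa [show z - x0 - (z - y) = y - x0 by abel] at h5
          linarith
        unfold Sv; rw [h3]; simp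
    have h3 : nt b R (Yv U W v) y = 0 := by
      unfold nt
      rw [neg_eq_zero]
      refine NN.NNp_supp hb hR x0 (ρ + 1) ?_ y (by linarith)
      intro z hz
      unfold dd2
      refine Finset.sum_eq_zero fun i _ => Finset.sum_eq_zero fun j _ => ?_
      refine pd2_zero_open (S := {z | ρ < ‖z - x0‖})
        (isOpen_lt continuous_const (by fun_prop)) ?_ i j (by
          show ρ < ‖z - x0‖
          linarith)
      intro w hw
      have h4 : v w = 0 := hv w (le_of_lt hw)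
      unfold Yv; rw [h4]; simp
    rw [h1, h2, h3]
    simp
  · rfl

/-! translations -/

lemma fderiv_shift {F : Type*} [NormedAddCommGroup F] [NormedSpace ℝ F] (g : Sp d → F)
    (a y : Sp d) : fderiv ℝ (fun z => g (a + z)) y = fderiv ℝ g (a + y) :=
  fderiv_comp_add_left a

lemma avk_shift (ψ : Sp d → ℝ) (s : ℝ) (g : Sp d → ℝ) (a y : Sp d) :
    avk ψ s (fun z => g (a + z)) y = avk ψ s g (a + y) := by
  unfold avk
  simp only [add_assoc]

lemma nt_shift (b : Sp d → ℝ) (R : ℝ) (F : Fin d → Fin d → Sp d → ℝ) (a y : Sp d) :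
    nt b R (fun i j z => F i j (a + z)) y = nt b R F (a + y) := by
  unfold nt NNp
  have h1 : dd2 (fun i j z => F i j (a + z)) = fun z => dd2 F (a + z) := by
    ext z
    unfold dd2 pd2
    simp only [iteratedFDeriv_comp_add_left]
  rw [h1]
  simp only [avk_shift]

lemma Dn_shift (b : Sp d → ℝ) (R : ℝ) (k : ℕ) (U W : Sp d → ℝ) (n : Sp d) (v : Sp d → Sp d)
    (a y : Sp d) :
    Dn b R k (fun z => U (a + z)) (fun z => W (a + z)) n (fun z => v (a + z)) y =
      Dn b R k U W n v (a + y) := by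
  have h1 : Sv (fun z => U (a + z)) (fun z => W (a + z)) (fun z => v (a + z)) =
      fun z => Sv U W v (a + z) := by
    ext z
    unfold Sv
    rw [fderiv_shift]
  have h2 : Yv (fun z => U (a + z)) (fun z => W (a + z)) (fun z => v (a + z)) =
      fun i j z => Yv U W v i j (a + z) := by
    ext i j z
    unfold Yv
    rw [fderiv_shift]
  unfold Dn
  split_ifs
  · unfold Av
    rw [fderiv_shift]
  · unfold Nv
    rw [h1, h2, avk_shift, nt_shift]
  · rfl

lemma Fl_shift (b : Sp d → ℝ) (R : ℝ) (k : ℕ) (U W m : Sp d → ℝ) (n : Sp d) (v : Sp d → Sp d)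
    (a : Sp d) :
    Fl b R k (fun z => U (a + z)) (fun z => W (a + z)) (fun z => m (a + z)) n
      (fun z => v (a + z)) = Fl b R k U W m n v := by
  unfold Fl
  simp only [Dn_shift]
  exact integral_add_left_eq_self (fun y => m y * Dn b R k U W n v y) a

/-- a field supported away from the density -/
lemma Fl_far (hb : BaseKer 2 M c0 b) (hR : 0 ≤ R) (k : ℕ) {m : Sp d → ℝ} {v : Sp d → Sp d}
    {x0 : Sp d} {ρ : ℝ} (hv : ∀ y, ρ ≤ ‖y - x0‖ → v y = 0)
    (hm : ∀ y, ‖y - x0‖ < ρ + 1 + R → m y = 0) : Fl b R k U W m n v = 0 := by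
  unfold Fl
  refine integral_eq_zero_of_ae (Eventually.of_forall fun y => ?_)
  by_cases hy : ‖y - x0‖ < ρ + 1 + R
  · simp [hm y hy]
  · simp only [Pi.zero_apply]
    rw [Dn_supp hb hR k hv (not_lt.mp hy), mul_zero]

end Lin

/-! ## The partition of unity -/

lemma chi_smooth : ContDiff ℝ ∞ (chi : Sp d → ℝ) := by
  unfold chi chi1
  refine contDiff_prod fun j _ => ?_
  have h1 : ContDiff ℝ ∞ Real.smoothTransition := Real.smoothTransition.contDiff
  have h2 : ContDiff ℝ ∞ fun y : Sp d => y j := by fun_prop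
  exact (h1.comp (h2.add contDiff_const)).sub (h1.comp h2)

/-- translate of chi -/
def ch (p : Fin d → ℤ) (x : Sp d) : ℝ := chi (x - lat p)

lemma ch_smooth (p : Fin d → ℤ) : ContDiff ℝ ∞ (ch p) :=
  chi_smooth.comp (contDiff_id.sub contDiff_const)

lemma lat_add (p r : Fin d → ℤ) : lat (p + r) = lat p + lat r := by
  ext j
  simp [lat]

lemma lat_sub (p r : Fin d → ℤ) : lat (p - r) = lat p - lat r := by
  ext j
  simp [lat]

lemma ch_zero (hd : 1 ≤ d) {p : Fin d → ℤ} {x : Sp d} (h : (d : ℝ) ≤ ‖x - lat p‖) : ch p x = 0 :=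
  PTm.chi_supp h hd

lemma ch_grad_zero {p : Fin d → ℤ} {x : Sp d} (h : ch p x = 0) : gradient (ch p) x = 0 := by
  have h1 : IsLocalMin (ch p) x := Eventually.of_forall fun y => by
    rw [h]; exact PTm.chi_nonneg _
  unfold gradient
  rw [h1.fderiv_eq_zero, map_zero]

lemma ch_pos {p : Fin d → ℤ} {x : Sp d} (h : ch p x ≠ 0) (j : Fin d) : |x j - p j| < 1 := by
  by_contra h1
  exact h (PTm.chi_zero (j := j) (not_lt.mp h1))

lemma SV_grad (hd : 1 ≤ d) (p : Fin d → ℤ) : SV (gradient (ch p)) where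
  smooth := smooth_grad (ch_smooth p)
  cs := by
    refine HasCompactSupport.intro (isCompact_closedBall (lat p) d) fun x hx => ?_
    rw [mem_closedBall, dist_eq_norm, not_le] at hx
    exact ch_grad_zero (ch_zero hd hx.le)

lemma SV_mul (hd : 1 ≤ d) (q p : Fin d → ℤ) : SV (fun x => ch q x • gradient (ch p) x) where
  smooth := (ch_smooth q).smul (SV_grad hd p).smooth
  cs := by
    refine (SV_grad hd p).cs.mono ?_
    intro x hx hx0
    exact hx (by
      show ch q x • gradient (ch p) x = 0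
      rw [hx0, smul_zero])

lemma part1 (p : Fin d → ℤ) (x : Sp d) :
    ∑ r ∈ PTm.box d 1, ch (p + r) x • gradient (ch p) x = gradient (ch p) x := by
  by_cases h : ch p x = 0
  · rw [ch_grad_zero h]
    simp
  · rw [← Finset.sum_smul]
    have h1 : ∑ r ∈ PTm.box d 1, ch (p + r) x = 1 := by
      have h2 := PTm.chi_sum (d := d) 1 (y := x - lat p) (fun j => by
        have := ch_pos h j
        rw [Nat.cast_one]
        exact this.le)
      rw [← h2]
      refine Finset.sum_congr rfl fun r _ => ?_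
      unfold ch
      rw [lat_add, sub_sub]
    rw [h1, one_smul]

lemma box_neg (g : (Fin d → ℤ) → ℝ) : ∑ r ∈ PTm.box d 1, g (-r) = ∑ r ∈ PTm.box d 1, g r := by
  refine Finset.sum_nbij' (fun r => -r) (fun r => -r) ?_ ?_ ?_ ?_ ?_
  · intro r hr
    simp only [PTm.box, Fintype.mem_piFinset, Finset.mem_Icc, Pi.neg_apply] at hr ⊢
    intro j
    have := hr j
    omega
  · intro r hr
    simp only [PTm.box, Fintype.mem_piFinset, Finset.mem_Icc, Pi.neg_apply] at hr ⊢
    intro j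
    have := hr j
    omega
  · intro r _
    simp
  · intro r _
    simp
  · intro r _
    rfl

lemma part2 (q : Fin d → ℤ) (x : Sp d) :
    ∑ r ∈ PTm.box d 1, ch q x • gradient (ch (q - r)) x = 0 := by
  by_cases h : ch q x = 0
  · simp [h]
  · rw [← Finset.smul_sum]
    have h1 : ∑ r ∈ PTm.box d 1, gradient (ch (q - r)) x =
        gradient (fun z => ∑ r ∈ PTm.box d 1, ch (q - r) z) x := by
      unfold gradient
      rw [fderiv_fun_sum fun r _ => ((ch_smooth (q - r)).differentiable (by simp)) x]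
      rw [map_sum]
    have h2 : (fun z => ∑ r ∈ PTm.box d 1, ch (q - r) z) =ᶠ[nhds x] fun _ => 1 := by
      have h3 : IsOpen {z : Sp d | ∀ j, |z j - q j| < 1} := by
        have : {z : Sp d | ∀ j, |z j - q j| < 1} = ⋂ j, {z : Sp d | |z j - q j| < 1} := by
          ext z; simp
        rw [this]
        exact isOpen_iInter_of_finite fun j => isOpen_lt (by fun_prop) continuous_const
      filter_upwards [h3.mem_nhds (ch_pos h)] with z hz
      have h4 := PTm.chi_sum (d := d) 1 (y := z - lat q) (fun j => by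
        rw [Nat.cast_one]
        exact (hz j).le)
      rw [← h4, ← box_neg]
      refine Finset.sum_congr rfl fun r _ => ?_
      unfold ch
      rw [lat_sub]
      congr 1
      have : lat (-r) = - lat r := by
        ext j
        simp [lat]
      rw [this]
      abel
    rw [h1]
    have h5 : gradient (fun z => ∑ r ∈ PTm.box d 1, ch (q - r) z) x = 0 := by
      unfold gradient
      rw [h2.fderiv_eq]
      simp
    rw [h5, smul_zero]

/-! ## The flux in the common frame -/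

lemma flx_eq (X : Prm d) (k : ℕ) (χ χ' β : Sp d → ℝ) (μ : Measure (Sp d)) (m : Sp d → ℝ)
    (n : Sp d) :
    flx X k χ χ' β μ m n = Fl X.b X.RN k (Ups X.p0 X.A μ 1) (WW β X.ε μ 1) m n
      (fun x => χ' x • gradient χ x) := by
  unfold flx Fl Dn
  split_ifs with h0 h1
  · refine integral_congr_ae (Eventually.of_forall fun y => ?_)
    beta_reduce
    congr 1
    unfold fxA Av tang
    rw [map_smul, ← inner_grad (WW β X.ε μ 1) y (gradient χ y), ← inner_grad (WW β X.ε μ 1) y n]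
    simp only [inner_sub_left, inner_sub_right, inner_smul_left, inner_smul_right, smul_eq_mul,
      real_inner_self_eq_norm_sq, conj_trivial]
    rw [real_inner_comm n (gradient χ y)]
    ring
  · refine integral_congr_ae (Eventually.of_forall fun y => ?_)
    beta_reduce
    congr 1
    have e1 : Sv (Ups X.p0 X.A μ 1) (WW β X.ε μ 1) (fun x => χ' x • gradient χ x) =
        fun x => χ' x * Ups X.p0 X.A μ 1 x * ⟪gradient χ x, gradient (WW β X.ε μ 1) x⟫_ℝ := by
      ext x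
      unfold Sv
      rw [map_smul, inner_grad, smul_eq_mul]
      ring
    have e2 : Yv (Ups X.p0 X.A μ 1) (WW β X.ε μ 1) (fun x => χ' x • gradient χ x) =
        fun i j x => χ' x * Ups X.p0 X.A μ 1 x * (1 / 2 *
        (fderiv ℝ χ x (bv i) * fderiv ℝ (WW β X.ε μ 1) x (bv j)
        + fderiv ℝ χ x (bv j) * fderiv ℝ (WW β X.ε μ 1) x (bv i))) := by
      ext i j x
      unfold Yv
      rw [PiLp.smul_apply, PiLp.smul_apply, grad_apply, grad_apply, smul_eq_mul, smul_eq_mul]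
      ring
    unfold fxB Nv
    rw [e1, e2]
  · simp

/-! ## Frames -/

lemma U_eq (p0 A s0 : ℝ) (hs : 0 < s0) (μ : Measure (Sp d)) (i : ℕ) (p : Fin d → ℤ) :
    Ups p0 A (muQ s0 μ (i, p)) 1 = fun y => Ups p0 A (rsm 0 (lev s0 i) μ) 1 (lat p + y) := by
  ext y
  have ht : 0 < lev s0 i := by unfold lev; positivity
  unfold muQ xC cen
  rw [SE.Ups_rsm _ _ _ ht, SE.Ups_rsm _ _ _ ht, zero_add, smul_add]

lemma W_eq (β : Sp d → ℝ) (ε s0 : ℝ) (hs : 0 < s0) (μ : Measure (Sp d)) (i : ℕ)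
    (p : Fin d → ℤ) :
    WW β ε (muQ s0 μ (i, p)) 1 = fun y => WW β ε (rsm 0 (lev s0 i) μ) 1 (lat p + y) := by
  ext y
  have ht : 0 < lev s0 i := by unfold lev; positivity
  unfold muQ xC cen
  rw [SC.WW_rsm _ _ _ ht, SC.WW_rsm _ _ _ ht, zero_add, smul_add]

lemma G_eq (β : Sp d → ℝ) (ε s0 : ℝ) (hs : 0 < s0) (μ : Measure (Sp d)) (i : ℕ)
    (p : Fin d → ℤ) (y : Sp d) :
    GG β ε (muQ s0 μ (i, p)) 1 y = GG β ε μ (lev s0 i) (cen s0 i p + lev s0 i • y) := by
  have ht : 0 < lev s0 i := by unfold lev; positivity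
  unfold muQ xC
  rw [SC.GG_rsm _ _ _ ht, mul_one]

section Frame

variable {E : Type} [NormedAddCommGroup E] [InnerProductSpace ℝ E]

/-- the density in the common frame -/
def m0 (s0 : ℝ) (f : Sp d → E) (i : ℕ) (e : E) (y : Sp d) : ℝ := ⟪rs 0 (lev s0 i) f y, e⟫_ℝ

lemma m_eq (s0 : ℝ) (f : Sp d → E) (i : ℕ) (e : E) (p : Fin d → ℤ) :
    mQ s0 f e (i, p) = fun y => m0 s0 f i e (lat p + y) := by
  ext y
  unfold mQ m0 rs xC cen
  rw [zero_add, smul_add]

lemma m0_cont (s0 : ℝ) {f : Sp d → E} (hf : Continuous f) (i : ℕ) (e : E) :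
    Continuous (m0 s0 f i e) := by
  unfold m0 rs
  exact (continuous_const.smul (hf.comp (by fun_prop))).inner continuous_const

lemma frame (X : Prm d) (s0 : ℝ) (hs : 0 < s0) (μ : Measure (Sp d)) (f : Sp d → E) (i k : ℕ)
    (n : Sp d) (e : E) (β : Sp d → ℝ) (p : Fin d → ℤ) (χ' : Sp d → ℝ) :
    flx X k chi (fun x => χ' (lat p + x)) β (muQ s0 μ (i, p)) (mQ s0 f e (i, p)) n =
      Fl X.b X.RN k (Ups X.p0 X.A (rsm 0 (lev s0 i) μ) 1) (WW β X.ε (rsm 0 (lev s0 i) μ) 1)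
        (m0 s0 f i e) n (fun x => χ' x • gradient (ch p) x) := by
  rw [flx_eq, U_eq _ _ _ hs, W_eq _ _ _ hs, m_eq, ← Fl_shift X.b X.RN k
    (Ups X.p0 X.A (rsm 0 (lev s0 i) μ) 1) (WW β X.ε (rsm 0 (lev s0 i) μ) 1)
        (m0 s0 f i e) n (fun x => χ' x • gradient (ch p) x) (lat p)]
  congr 1
  ext1 x
  congr 1
  have h1 : gradient (ch p) (lat p + x) = gradient (chi : Sp d → ℝ) x := by
    unfold gradient
    congr 1
    have h2 : (ch p : Sp d → ℝ) = fun z => chi (z - lat p) := rfl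
    rw [h2, fderiv_comp_sub, add_sub_cancel_left]
  exact h1.symm

/-- the functional of the cell p in the common frame -/
def Ph (X : Prm d) (s0 : ℝ) (μ : Measure (Sp d)) (f : Sp d → E) (e : Cell d → E)
    (kd : Cell d → ℕ) (nv : Cell d → Sp d) (i : ℕ) (p : Fin d → ℤ) (v : Sp d → Sp d) : ℝ :=
  Fl X.b X.RN (kd (i, p)) (Ups X.p0 X.A (rsm 0 (lev s0 i) μ) 1)
    (WW (KN X.b (i - 2)) X.ε (rsm 0 (lev s0 i) μ) 1) (m0 s0 f i (e (i, p))) (nv (i, p)) v

lemma Fct_eq (X : Prm d) (s0 : ℝ) (hs : 0 < s0) (μ : Measure (Sp d)) (f : Sp d → E)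
    (e : Cell d → E) (kd : Cell d → ℕ) (nv : Cell d → Sp d) (i : ℕ) (p q : Fin d → ℤ) :
    Fct X s0 μ f e kd nv (i, p) (i, q) =
      Ph X s0 μ f e kd nv i p (fun x => ch q x • gradient (ch p) x)
        - Ph X s0 μ f e kd nv i q (fun x => ch q x • gradient (ch p) x) := by
  have h1 : (fun x : Sp d => chi (x - dsp (i, p) (i, q))) = fun x => ch q (lat p + x) := by
    ext x
    unfold ch dsp
    congr 1
    have h2 : lat (fun j => q j - p j) = lat q - lat p := lat_sub q p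
    show x - lat (fun j => q j - p j) = _
    rw [h2]
    abel
  unfold Fct
  rw [h1]
  show flx X (kd (i, p)) chi (fun x => ch q (lat p + x)) (KN X.b (i - 2)) (muQ s0 μ (i, p))
      (mQ s0 f (e (i, p)) (i, p)) (nv (i, p))
    - flx X (kd (i, q)) chi (fun x => ch q (lat p + x)) (KN X.b (i - 2)) (muQ s0 μ (i, p))
      (mQ s0 f (e (i, q)) (i, p)) (nv (i, q)) = _
  rw [frame X s0 hs, frame X s0 hs]
  rfl

lemma sum_adj (i : ℕ) (p : Fin d → ℤ) (g : Cell d → ℝ) :
    ∑ Q ∈ adj (i, p), g Q = ∑ r ∈ PTm.box d 1, g (i, p + r) := by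
  unfold adj
  rw [Finset.sum_product]
  simp only [Finset.sum_singleton]
  symm
  refine Finset.sum_nbij' (fun r => p + r) (fun q => q - p) ?_ ?_ ?_ ?_ ?_
  · intro r hr
    simp only [PTm.box, Fintype.mem_piFinset, Finset.mem_Icc, Pi.add_apply] at hr ⊢
    intro j
    have := hr j
    omega
  · intro r hr
    simp only [PTm.box, Fintype.mem_piFinset, Finset.mem_Icc, Pi.sub_apply] at hr ⊢
    intro j
    have := hr j
    omega
  · intro r _
    simp
  · intro r _
    simp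
  · intro r _
    rfl

end Frame

/-! ## The identity of a single cell -/

section Cell1

variable {E : Type} [NormedAddCommGroup E] [InnerProductSpace ℝ E]

lemma chi_cs (hd : 1 ≤ d) : HasCompactSupport (chi : Sp d → ℝ) :=
  HasCompactSupport.intro (isCompact_closedBall (0 : Sp d) d) fun x hx => PTm.chi_supp (by
    rw [mem_closedBall, dist_zero_right, not_le] at hx
    exact hx.le) hd

lemma SV_chi (hd : 1 ≤ d) : SV (fun x : Sp d => (1 : ℝ) • gradient (chi : Sp d → ℝ) x) where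
  smooth := by
    simp only [one_smul]
    exact smooth_grad chi_smooth
  cs := by
    refine HasCompactSupport.intro (isCompact_closedBall (0 : Sp d) d) fun x hx => ?_
    rw [mem_closedBall, dist_zero_right, not_le] at hx
    have h1 : ch (0 : Fin d → ℤ) x = 0 := ch_zero hd (by
      have : lat (0 : Fin d → ℤ) = 0 := by ext j; simp [lat]
      rw [this, sub_zero]; exact hx.le)
    have h2 := ch_grad_zero h1
    have h3 : (ch (0 : Fin d → ℤ) : Sp d → ℝ) = chi := by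
      ext z
      unfold ch
      have : lat (0 : Fin d → ℤ) = 0 := by ext j; simp [lat]
      rw [this, sub_zero]
    rw [h3] at h2
    rw [h2, smul_zero]

lemma int3 {m F G H K : Sp d → ℝ} (hG : Integrable (fun y => m y * G y))
    (hH : Integrable (fun y => m y * H y)) (hK : Integrable (fun y => m y * K y))
    (h : ∀ y, F y = (G y - H y) + K y) :
    ∫ y, m y * F y = ((∫ y, m y * G y) - ∫ y, m y * H y) + ∫ y, m y * K y := by
  have h1 : Integrable (fun y => m y * G y - m y * H y) := hG.sub hH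
  simp only [h, mul_add, mul_sub]
  rw [integral_add h1 hK, integral_sub hG hH]

/-- the smoothness facts of one frame -/
structure SmF (X : Prm d) (β : Sp d → ℝ) (μ : Measure (Sp d)) : Prop where
  U : ContDiff ℝ ∞ (Ups X.p0 X.A μ 1)
  W : ContDiff ℝ ∞ (WW β X.ε μ 1)
  G : ContDiff ℝ ∞ (GG β X.ε μ 1)
  H : ∀ n : Sp d, ‖n‖ = 1 → ContDiff ℝ ∞ (Hn β X.ε X.p0 X.A μ n 1)

lemma smF (hUB : StmtUB) (hd : 2 ≤ d) {M c0 C' : ℝ} (hC : 0 < C') {X : Prm d}
    (hX : PrmOK M c0 X) {β : Sp d → ℝ} (hβ : Kit 4 M β) {μ : Measure (Sp d)} (hμ : Gro C' μ) :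
    SmF X β μ := by
  have hε := hX.ε_le
  obtain ⟨C, -, h⟩ := hUB d 0 hd M C' X.ε X.p0 X.A hC hX.ε_pos (by linarith) hX.p0_pos hX.p0_le
    hX.A_ge
  obtain ⟨h1, h2, -, -, -, -, -, h3, -, h4, -, -⟩ := h β hβ μ hμ
  exact ⟨h3, h1, h2, fun n hn => (h4 n hn).1⟩

lemma own_total (hHH : StmtHH) (hUB : StmtUB) (hd : 2 ≤ d) {M c0 C' : ℝ} (hC : 0 < C')
    {X : Prm d} (hX : PrmOK M c0 X) {f : Sp d → E} (hf : Continuous f) {μ : Measure (Sp d)}
    (hμ : Gro C' μ) {s0 : ℝ} (hs : 0 < s0) (e : Cell d → E) (kd : Cell d → ℕ)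
    (nv : Cell d → Sp d) (Q : Cell d) (hn : kd Q = 0 → ‖nv Q‖ = 1) :
    Gam X s0 μ f e kd nv Q + Vct X s0 μ f e kd nv Q
      - flx X (kd Q) chi (fun _ => 1) (bQ X.b Q) (muQ s0 μ Q) (mQ s0 f (e Q) Q) (nv Q)
      = ∫ y, mQ s0 f (e Q) Q y * (chi y * GG (bQ X.b Q) X.ε (muQ s0 μ Q) 1 y) := by
  have hd1 : 1 ≤ d := by omega
  have ht : 0 < lev s0 Q.1 := by unfold lev; positivity
  have hε := hX.ε_le
  have hR : 0 ≤ X.RN := by linarith [hX.RN_ge]
  have hb2 := PTm.base_mono (J' := 2) (by norm_num) hX.ker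
  have hb10 := PTm.base_mono (J' := 10) (by norm_num) hX.ker
  have hk : Kit 14 M (bQ X.b Q) := hX.ker.kit _
  have hk4 := PTm.kit_mono (J' := 4) (by norm_num) hk
  have hk10 := PTm.kit_mono (J' := 10) (by norm_num) hk
  have hμQ : Gro C' (muQ s0 μ Q) := SC.gro_rsm hd1 hμ _ ht
  have hS := smF hUB hd hC hX hk4 hμQ
  obtain ⟨-, hH2, hH3⟩ := hHH d hd M C' X.ε X.p0 X.A hC hX.ε_pos (by linarith) hX.p0_pos hX.p0_le
    hX.A_ge (bQ X.b Q) hk10 (muQ s0 μ Q) hμQ
  have hm : Continuous (mQ s0 f (e Q) Q) := by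
    unfold mQ rs
    exact (continuous_const.smul (hf.comp (by fun_prop))).inner continuous_const
  have hcG : Continuous fun y => chi y * GG (bQ X.b Q) X.ε (muQ s0 μ Q) 1 y :=
    chi_smooth.continuous.mul hS.G.continuous
  have hcGc : HasCompactSupport fun y => chi y * GG (bQ X.b Q) X.ε (muQ s0 μ Q) 1 y :=
    (chi_cs hd1).mul_right
  have hint : ∀ g : Sp d → ℝ, Continuous g → HasCompactSupport g →
      Integrable (fun y => mQ s0 f (e Q) Q y * g y) := fun g hg hgc =>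
    (hm.mul hg).integrable_of_hasCompactSupport hgc.mul_left
  have hDc := fun k => Dn_cont (n := nv Q) hb2 hR hS.U hS.W k (SV_chi hd1)
  have hDs := fun k => Dn_cs (n := nv Q) hb2 hR hS.U hS.W k (SV_chi hd1)
  rw [flx_eq]
  unfold Fl
  rcases Nat.lt_trichotomy (kd Q) 1 with h | h | h
  · have hk0 : kd Q = 0 := by omega
    have hn1 := hn hk0
    have hD : ∀ y, Dn X.b X.RN 0 (Ups X.p0 X.A (muQ s0 μ Q) 1)
        (WW (bQ X.b Q) X.ε (muQ s0 μ Q) 1) (nv Q)
        (fun x => (1 : ℝ) • gradient (chi : Sp d → ℝ) x) y =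
          fxA chi (fun _ => 1) (bQ X.b Q) X.ε X.p0 X.A (muQ s0 μ Q) (nv Q) y := by
      intro y
      unfold Dn fxA Av tang
      rw [if_pos rfl, map_smul, ← inner_grad (WW (bQ X.b Q) X.ε (muQ s0 μ Q) 1) y (gradient chi y),
        ← inner_grad (WW (bQ X.b Q) X.ε (muQ s0 μ Q) 1) y (nv Q)]
      simp only [inner_sub_left, inner_sub_right, inner_smul_left, inner_smul_right, smul_eq_mul,
        real_inner_self_eq_norm_sq, conj_trivial]
      rw [real_inner_comm (nv Q) (gradient chi y)]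
      ring
    have hV : ∀ y, dvT chi (bQ X.b Q) X.ε X.p0 X.A (muQ s0 μ Q) (nv Q) y =
        (chi y * GG (bQ X.b Q) X.ε (muQ s0 μ Q) 1 y
          - chi y * Hn (bQ X.b Q) X.ε X.p0 X.A (muQ s0 μ Q) (nv Q) 1 y)
          + Dn X.b X.RN 0 (Ups X.p0 X.A (muQ s0 μ Q) 1)
            (WW (bQ X.b Q) X.ε (muQ s0 μ Q) 1) (nv Q)
            (fun x => (1 : ℝ) • gradient (chi : Sp d → ℝ) x) y := by
      intro y
      rw [hD, hH2 (nv Q) hn1 chi chi_smooth y]
      ring
    have hI1 := hint _ hcG hcGc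
    have hI2 := hint (fun y => chi y * Hn (bQ X.b Q) X.ε X.p0 X.A (muQ s0 μ Q) (nv Q) 1 y)
      (chi_smooth.continuous.mul (hS.H _ hn1).continuous) (chi_cs hd1).mul_right
    have hI3 := hint _ (hDc 0) (hDs 0)
    unfold Gam Vct
    rw [hk0]
    simp only [if_true]
    have e1 : ∫ y, mQ s0 f (e Q) Q y * dvT chi (bQ X.b Q) X.ε X.p0 X.A (muQ s0 μ Q) (nv Q) y =
        ((∫ y, mQ s0 f (e Q) Q y * (chi y * GG (bQ X.b Q) X.ε (muQ s0 μ Q) 1 y))
          - ∫ y, mQ s0 f (e Q) Q y *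
            (chi y * Hn (bQ X.b Q) X.ε X.p0 X.A (muQ s0 μ Q) (nv Q) 1 y))
        + ∫ y, mQ s0 f (e Q) Q y * Dn X.b X.RN 0 (Ups X.p0 X.A (muQ s0 μ Q) 1)
            (WW (bQ X.b Q) X.ε (muQ s0 μ Q) 1) (nv Q)
            (fun x => (1 : ℝ) • gradient (chi : Sp d → ℝ) x) y := by
      exact int3 hI1 hI2 hI3 hV
    rw [e1]
    ring
  · have hcc := hb2.ak.avk_cont hcG X.RN
    have hccs := hb2.ak.avk_cs hcGc X.RN
    have hD : ∀ y, Dn X.b X.RN 1 (Ups X.p0 X.A (muQ s0 μ Q) 1)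
        (WW (bQ X.b Q) X.ε (muQ s0 μ Q) 1) (nv Q)
        (fun x => (1 : ℝ) • gradient (chi : Sp d → ℝ) x) y =
          (Ups X.p0 X.A (muQ s0 μ Q) 1 y *
              ⟪gradient chi y, gradient (WW (bQ X.b Q) X.ε (muQ s0 μ Q) 1) y⟫_ℝ
            - avk X.b X.RN (fun x => Ups X.p0 X.A (muQ s0 μ Q) 1 x *
                ⟪gradient chi x, gradient (WW (bQ X.b Q) X.ε (muQ s0 μ Q) 1) x⟫_ℝ) y
            - nt X.b X.RN (fun i j x => Ups X.p0 X.A (muQ s0 μ Q) 1 x * (1 / 2 *
                (fderiv ℝ chi x (bv i) * fderiv ℝ (WW (bQ X.b Q) X.ε (muQ s0 μ Q) 1) x (bv j)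
                + fderiv ℝ chi x (bv j) *
                  fderiv ℝ (WW (bQ X.b Q) X.ε (muQ s0 μ Q) 1) x (bv i)))) y) := by
      intro y
      unfold Dn
      rw [if_neg one_ne_zero, if_pos rfl]
      unfold Nv
      have e1 : Sv (Ups X.p0 X.A (muQ s0 μ Q) 1) (WW (bQ X.b Q) X.ε (muQ s0 μ Q) 1)
          (fun x => (1 : ℝ) • gradient (chi : Sp d → ℝ) x) =
          fun x => Ups X.p0 X.A (muQ s0 μ Q) 1 x *
            ⟪gradient chi x, gradient (WW (bQ X.b Q) X.ε (muQ s0 μ Q) 1) x⟫_ℝ := by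
        ext x
        unfold Sv
        simp only [one_smul]
        rw [inner_grad]
      have e2 : Yv (Ups X.p0 X.A (muQ s0 μ Q) 1) (WW (bQ X.b Q) X.ε (muQ s0 μ Q) 1)
          (fun x => (1 : ℝ) • gradient (chi : Sp d → ℝ) x) =
          fun i j x => Ups X.p0 X.A (muQ s0 μ Q) 1 x * (1 / 2 *
            (fderiv ℝ chi x (bv i) * fderiv ℝ (WW (bQ X.b Q) X.ε (muQ s0 μ Q) 1) x (bv j)
            + fderiv ℝ chi x (bv j) *
              fderiv ℝ (WW (bQ X.b Q) X.ε (muQ s0 μ Q) 1) x (bv i))) := by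
        ext i j x
        unfold Yv
        simp only [one_smul]
        rw [grad_apply, grad_apply]
      rw [e1, e2]
    have hN : ∀ y, nt X.b X.RN (fun i j x => chi x *
        HHm (bQ X.b Q) X.ε X.p0 X.A (muQ s0 μ Q) i j x) y =
        (chi y * GG (bQ X.b Q) X.ε (muQ s0 μ Q) 1 y
          - avk X.b X.RN (fun x => chi x * GG (bQ X.b Q) X.ε (muQ s0 μ Q) 1 x) y)
          + Dn X.b X.RN 1 (Ups X.p0 X.A (muQ s0 μ Q) 1)
            (WW (bQ X.b Q) X.ε (muQ s0 μ Q) 1) (nv Q)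
            (fun x => (1 : ℝ) • gradient (chi : Sp d → ℝ) x) y := by
      intro y
      have h3 := hH3 X.b M c0 hb10 X.RN (by linarith [hX.RN_ge]) chi chi_smooth (chi_cs hd1) y
      rw [hD]
      linarith
    have hI1 := hint _ hcG hcGc
    have hI2 := hint _ hcc hccs
    have hI3 := hint _ (hDc 1) (hDs 1)
    unfold Gam Vct
    rw [h]
    simp only [one_ne_zero, if_false, if_true]
    have e1 : ∫ y, mQ s0 f (e Q) Q y *
        nt X.b X.RN (fun i j x => chi x *
          HHm (bQ X.b Q) X.ε X.p0 X.A (muQ s0 μ Q) i j x) y =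
        ((∫ y, mQ s0 f (e Q) Q y * (chi y * GG (bQ X.b Q) X.ε (muQ s0 μ Q) 1 y))
          - ∫ y, mQ s0 f (e Q) Q y *
            avk X.b X.RN (fun x => chi x * GG (bQ X.b Q) X.ε (muQ s0 μ Q) 1 x) y)
        + ∫ y, mQ s0 f (e Q) Q y * Dn X.b X.RN 1 (Ups X.p0 X.A (muQ s0 μ Q) 1)
            (WW (bQ X.b Q) X.ε (muQ s0 μ Q) 1) (nv Q)
            (fun x => (1 : ℝ) • gradient (chi : Sp d → ℝ) x) y := by
      exact int3 hI1 hI2 hI3 hN
    rw [e1]
    ring
  · have h0 : kd Q ≠ 0 := by omega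
    have h1 : kd Q ≠ 1 := by omega
    unfold Gam Vct Dn
    simp [h0, h1]

end Cell1

/-! ## The sum over one level -/

lemma lat_fin (ρ : ℝ) : {p : Fin d → ℤ | ‖(lat p : Sp d)‖ < ρ}.Finite := by
  obtain ⟨L, hL⟩ := exists_nat_ge ρ
  refine (PTm.box d L).finite_toSet.subset ?_
  intro p hp
  have hp' : ‖(lat p : Sp d)‖ < ρ := hp
  simp only [PTm.box, Finset.mem_coe, Fintype.mem_piFinset, Finset.mem_Icc]
  intro j
  have h1 : |((p j : ℤ) : ℝ)| ≤ ‖(lat p : Sp d)‖ := by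
    have := PiLp.norm_apply_le (lat p : Sp d) j
    rwa [Real.norm_eq_abs] at this
  have h2 : |((p j : ℤ) : ℝ)| ≤ L := by linarith
  have h3 := abs_le.mp h2
  constructor
  · have : ((-(L : ℤ) : ℤ) : ℝ) ≤ (p j : ℝ) := by push_cast; linarith
    exact_mod_cast this
  · exact_mod_cast h3.2

section Level

variable {E : Type} [NormedAddCommGroup E] [InnerProductSpace ℝ E]

lemma cell_int (hd : 1 ≤ d) {s0 : ℝ} (hs : 0 < s0) (f : Sp d → E) (e : E) (β : Sp d → ℝ)
    (ε : ℝ) (μ : Measure (Sp d)) (i : ℕ) (p : Fin d → ℤ) :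
    cw s0 (i, p) * ∫ y, mQ s0 f e (i, p) y * (chi y * GG β ε (muQ s0 μ (i, p)) 1 y) =
      ∫ y, chiQ (cen s0 i p) (lev s0 i) y * ⟪f y, e⟫_ℝ * GG β ε μ (lev s0 i) y := by
  have ht : 0 < lev s0 i := by unfold lev; positivity
  set t := lev s0 i with htd
  obtain ⟨g, hg⟩ : ∃ g : Sp d → ℝ, ∀ z, g z =
      t * (chiQ (cen s0 i p) t z * ⟪f z, e⟫_ℝ * GG β ε μ t z) := ⟨_, fun _ => rfl⟩
  have h1 : ∀ y, mQ s0 f e (i, p) y * (chi y * GG β ε (muQ s0 μ (i, p)) 1 y) =
      g (cen s0 i p + t • y) := by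
    intro y
    rw [G_eq β ε s0 hs, hg]
    unfold mQ rs xC chiQ
    rw [real_inner_smul_left]
    have h2 : (1 / t) • (cen s0 i p + t • y - cen s0 i p) = y := by
      rw [add_sub_cancel_left, smul_smul]
      have : 1 / t * t = 1 := by field_simp
      rw [this, one_smul]
    show t * ⟪f (cen s0 i p + t • y), e⟫_ℝ * (chi y * GG β ε μ t (cen s0 i p + t • y)) = _
    rw [h2]
    ring
  simp only [h1]
  rw [SD.int_scale (cen s0 i p) ht g]
  simp only [hg]
  rw [integral_const_mul]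
  unfold cw
  show t ^ (d - 1) * _ = _
  have h3 : t ^ d = t ^ (d - 1) * t := by
    rw [← pow_succ]
    congr 1
    omega
  rw [h3]
  have h4 : t ^ (d - 1) ≠ 0 := by positivity
  field_simp

lemma level (hHH : StmtHH) (hUB : StmtUB) (hd : 2 ≤ d) {M c0 C' : ℝ} (hC : 0 < C')
    {X : Prm d} (hX : PrmOK M c0 X) {f : Sp d → E} (hf : Continuous f) (hfc : HasCompactSupport f)
    {μ : Measure (Sp d)} (hμ : Gro C' μ) {s0 : ℝ} (hs : 0 < s0) (e : Cell d → E)
    (kd : Cell d → ℕ) (nv : Cell d → Sp d) (hn : ∀ Q, kd Q = 0 → ‖nv Q‖ = 1) (i : ℕ) :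
    {p : Fin d → ℤ | net X s0 μ f e kd nv (i, p) ≠ 0}.Finite ∧
      ∑' p : Fin d → ℤ, net X s0 μ f e kd nv (i, p) =
        ∑' p : Fin d → ℤ, ∫ y, chiQ (cen s0 i p) (lev s0 i) y * ⟪f y, e (i, p)⟫_ℝ *
          GG (KN X.b (i - 2)) X.ε μ (lev s0 i) y := by
  have hd1 : 1 ≤ d := by omega
  have ht : 0 < lev s0 i := by unfold lev; positivity
  have hR : 0 ≤ X.RN := by linarith [hX.RN_ge]
  have hb2 := PTm.base_mono (J' := 2) (by norm_num) hX.ker
  have hk : Kit 4 M (KN X.b (i - 2)) := PTm.kit_mono (J' := 4) (by norm_num) (hX.ker.kit _)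
  have hμ0 : Gro C' (rsm 0 (lev s0 i) μ) := SC.gro_rsm hd1 hμ _ ht
  have hS := smF hUB hd hC hX hk hμ0
  -- support of the density
  obtain ⟨B, hB0, hB⟩ := PTm.cs_bd hfc
  obtain ⟨B', hB'⟩ : ∃ B' : ℝ, B' = B / lev s0 i + 1 := ⟨_, rfl⟩
  have hm0 : ∀ (e' : E) (y : Sp d), B' ≤ ‖y‖ → m0 s0 f i e' y = 0 := by
    intro e' y hy
    unfold m0 rs
    have h1 : B < ‖(0 : Sp d) + lev s0 i • y‖ := by
      rw [zero_add, norm_smul, Real.norm_of_nonneg ht.le]
      have h2 : B / lev s0 i < ‖y‖ := by linarith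
      rwa [div_lt_iff₀' ht] at h2
    rw [hB _ h1, smul_zero, inner_zero_left]
  -- notation
  obtain ⟨Ψ, hΨ⟩ : ∃ Ψ : (Fin d → ℤ) → (Fin d → ℤ) → ℝ, ∀ q p, Ψ q p =
      Ph X s0 μ f e kd nv i q (fun x => ch q x • gradient (ch p) x) :=
    ⟨fun q p => Ph X s0 μ f e kd nv i q (fun x => ch q x • gradient (ch p) x), fun _ _ => rfl⟩
  obtain ⟨I, hI⟩ : ∃ I : (Fin d → ℤ) → ℝ, ∀ p, I p =
      ∫ y, mQ s0 f (e (i, p)) (i, p) y * (chi y * GG (KN X.b (i - 2)) X.ε (muQ s0 μ (i, p)) 1 y) :=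
    ⟨fun p => _, fun _ => rfl⟩
  have hcw : ∀ p : Fin d → ℤ, cw s0 (i, p) = lev s0 i ^ (d - 1) := fun _ => rfl
  -- linearity
  have hlin : ∀ (q : Fin d → ℤ) (v : (Fin d → ℤ) → Sp d → Sp d), (∀ r, SV (v r)) →
      Ph X s0 μ f e kd nv i q (fun x => ∑ r ∈ PTm.box d 1, v r x) =
        ∑ r ∈ PTm.box d 1, Ph X s0 μ f e kd nv i q (v r) := by
    intro q v hv
    exact Fl_sum hb2 hR hS.U hS.W _ (m0_cont s0 hf i _) _ fun r _ => hv r
  -- the sum of the incoming fluxes
  have hin : ∀ q, ∑ r ∈ PTm.box d 1, Ψ q (q - r) = 0 := by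
    intro q
    simp only [hΨ]
    rw [← hlin q (fun r x => ch q x • gradient (ch (q - r)) x) fun r => SV_mul hd1 _ _]
    simp only [part2]
    exact Fl_zero _ _ _ _ _ _ _
  -- the net contribution
  have hnet : ∀ p, net X s0 μ f e kd nv (i, p) =
      lev s0 i ^ (d - 1) * I p + lev s0 i ^ (d - 1) * ∑ r ∈ PTm.box d 1, Ψ (p + r) p := by
    intro p
    have h1 := own_total hHH hUB hd hC hX hf hμ hs e kd nv (i, p) (hn (i, p))
    have h2 : flx X (kd (i, p)) chi (fun _ => 1) (bQ X.b (i, p)) (muQ s0 μ (i, p))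
        (mQ s0 f (e (i, p)) (i, p)) (nv (i, p)) =
        Ph X s0 μ f e kd nv i p (fun x => gradient (ch p) x) := by
      have h3 := frame X s0 hs μ f i (kd (i, p)) (nv (i, p)) (e (i, p)) (KN X.b (i - 2)) p
        (fun _ => 1)
      simp only [one_smul] at h3
      exact h3
    have h4 : Ph X s0 μ f e kd nv i p (fun x => gradient (ch p) x) =
        ∑ r ∈ PTm.box d 1, Ph X s0 μ f e kd nv i p
          (fun x => ch (p + r) x • gradient (ch p) x) := by
      rw [← hlin p (fun r x => ch (p + r) x • gradient (ch p) x) fun r => SV_mul hd1 _ _]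
      simp only [part1]
    have h5 : ∑ Q' ∈ adj (i, p), Fct X s0 μ f e kd nv (i, p) Q' =
        Ph X s0 μ f e kd nv i p (fun x => gradient (ch p) x)
          - ∑ r ∈ PTm.box d 1, Ψ (p + r) p := by
      rw [sum_adj, h4, ← Finset.sum_sub_distrib]
      refine Finset.sum_congr rfl fun r _ => ?_
      rw [Fct_eq X s0 hs, hΨ]
    unfold net
    rw [h5, hcw, ← mul_add, hI]
    congr 1
    rw [h2] at h1
    show _ = (∫ y, mQ s0 f (e (i, p)) (i, p) y *
      (chi y * GG (bQ X.b (i, p)) X.ε (muQ s0 μ (i, p)) 1 y)) + _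
    rw [← h1]
    ring
  -- supports
  have hIz : ∀ p, B' + d ≤ ‖(lat p : Sp d)‖ → I p = 0 := by
    intro p hp
    rw [hI]
    refine integral_eq_zero_of_ae (Eventually.of_forall fun y => ?_)
    simp only [Pi.zero_apply]
    by_cases hy : (d : ℝ) ≤ ‖y‖
    · rw [PTm.chi_supp hy hd1]; ring
    · rw [m_eq]
      beta_reduce
      rw [hm0, zero_mul]
      have h1 : ‖(lat p : Sp d)‖ ≤ ‖(lat p : Sp d) + y‖ + ‖y‖ := by
        have h2 := norm_sub_le ((lat p : Sp d) + y) y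
        rwa [add_sub_cancel_right] at h2
      push Not at hy
      linarith
  have hΨz : ∀ q p, B' + d + 1 + X.RN ≤ ‖(lat q : Sp d)‖ → Ψ q p = 0 := by
    intro q p hq
    rw [hΨ]
    unfold Ph
    refine Fl_far (x0 := lat q) (ρ := d) hb2 hR _ ?_ ?_
    · intro y hy
      rw [ch_zero hd1 hy, zero_smul]
    · intro y hy
      refine hm0 _ _ ?_
      have h1 : ‖(lat q : Sp d)‖ ≤ ‖y‖ + ‖y - lat q‖ := by
        have h2 := norm_sub_le y (y - (lat q : Sp d))
        rwa [show y - (y - (lat q : Sp d)) = lat q by abel] at h2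
      linarith
  obtain ⟨A1, hA1⟩ : ∃ A1 : Set (Fin d → ℤ), A1 = {p | ‖(lat p : Sp d)‖ < B' + d} := ⟨_, rfl⟩
  obtain ⟨A2, hA2⟩ : ∃ A2 : Set (Fin d → ℤ), A2 = {p | ‖(lat p : Sp d)‖ < B' + d + 1 + X.RN} :=
    ⟨_, rfl⟩
  have hA1f : A1.Finite := hA1 ▸ lat_fin _
  have hA2f : A2.Finite := hA2 ▸ lat_fin _
  have hI0 : ∀ p, p ∉ A1 → I p = 0 := fun p hp => hIz p (by
    rw [hA1] at hp
    exact not_lt.mp hp)
  have hΨ0 : ∀ q p, q ∉ A2 → Ψ q p = 0 := fun q p hq => hΨz q p (by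
    rw [hA2] at hq
    exact not_lt.mp hq)
  obtain ⟨A3, hA3⟩ : ∃ A3 : Set (Fin d → ℤ), A3 =
      ⋃ r ∈ PTm.box d 1, (fun p : Fin d → ℤ => p + r) ⁻¹' A2 := ⟨_, rfl⟩
  have hA3f : A3.Finite := by
    rw [hA3]
    exact Set.Finite.biUnion (Finset.finite_toSet _) fun r _ =>
      hA2f.preimage ((add_left_injective r).injOn)
  have hnz : ∀ p, p ∉ A3 → ∀ r ∈ PTm.box d 1, Ψ (p + r) p = 0 := by
    intro p hp r hr
    refine hΨ0 _ _ fun h => hp ?_
    rw [hA3]
    exact Set.mem_biUnion (show r ∈ (PTm.box d 1 : Set (Fin d → ℤ)) from hr) h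
  have hfs : {p : Fin d → ℤ | net X s0 μ f e kd nv (i, p) ≠ 0}.Finite := by
    refine (hA1f.union hA3f).subset fun p hp => ?_
    by_contra h
    rw [Set.mem_union, not_or] at h
    refine hp ?_
    rw [hnet, hI0 p h.1, Finset.sum_eq_zero (hnz p h.2)]
    ring
  refine ⟨hfs, ?_⟩
  have hsum1 : Summable fun p => lev s0 i ^ (d - 1) * I p := by
    refine summable_of_hasFiniteSupport (hA1f.subset fun p hp => ?_)
    by_contra h
    exact hp (by beta_reduce; rw [hI0 p h, mul_zero])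
  have hsum2 : ∀ r ∈ PTm.box d 1, Summable fun p => Ψ (p + r) p := by
    intro r hr
    refine summable_of_hasFiniteSupport (hA3f.subset fun p hp => ?_)
    by_contra h
    exact hp (hnz p h r hr)
  have hsum3 : Summable fun p => lev s0 i ^ (d - 1) * ∑ r ∈ PTm.box d 1, Ψ (p + r) p := by
    refine summable_of_hasFiniteSupport (hA3f.subset fun p hp => ?_)
    by_contra h
    exact hp (by beta_reduce; rw [Finset.sum_eq_zero (hnz p h), mul_zero])
  have hsum4 : ∀ r ∈ PTm.box d 1, Summable fun q => Ψ q (q - r) := by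
    intro r _
    refine summable_of_hasFiniteSupport (hA2f.subset fun q hq => ?_)
    by_contra h
    exact hq (hΨ0 q _ h)
  have hzero : ∑' p, ∑ r ∈ PTm.box d 1, Ψ (p + r) p = 0 := by
    rw [Summable.tsum_finsetSum hsum2]
    have h1 : ∀ r ∈ PTm.box d 1, ∑' p, Ψ (p + r) p = ∑' q, Ψ q (q - r) := by
      intro r _
      have h2 := (Equiv.addRight r).tsum_eq (fun q => Ψ q (q - r))
      rw [← h2]
      refine tsum_congr fun p => ?_
      simp
    rw [Finset.sum_congr rfl h1, ← Summable.tsum_finsetSum hsum4]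
    simp only [hin, tsum_zero]
  simp only [hnet]
  rw [hsum1.tsum_add hsum3, tsum_mul_left (a := lev s0 i ^ (d - 1))
    (f := fun p => ∑ r ∈ PTm.box d 1, Ψ (p + r) p), hzero, mul_zero, add_zero]
  refine tsum_congr fun p => ?_
  rw [hI]
  exact cell_int hd1 hs f (e (i, p)) _ _ μ i p

end Level

end CS1m

/-- MODULE CS1 -/
theorem stmtCS1 (hHH : StmtHH) (hUB : StmtUB) : StmtCS1 := by
  intro d hd M c0 C' hC X hX E _ _ _ f hf hfc μ hμ s0 hs e kd nv hn i
  exact CS1m.level hHH hUB hd hC hX hf hfc hμ hs e kd nv hn i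

end

end TG
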