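import Pool.Agent.TG.Stmts11
import Pool.Agent.TG.Bd
import Pool.Agent.TG.NN
import Pool.Agent.TG.PTb
set_option autoImplicit false

/-!
# Modules TD1, TD2: common part (helper63)

The function z = div (chi u g) for a vector field g tangential to the planes orthogonal to n.
-/

open MeasureTheory Metric Set TrI Filter
open scoped InnerProductSpace ContDiff Topology

namespace TG

noncomputable section

namespace TDc

variable {d : ℕ}

/-- the divergence of chi u g -/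
def dvg (u : Sp d → ℝ) (g : Sp d → Sp d) (x : Sp d) : ℝ :=
  ∑ j : Fin d, fderiv ℝ (fun y => chi y * u y * (g y) j) x (EuclideanSpace.single j (1 : ℝ))

lemma dvT_eq (β : Sp d → ℝ) (ε p0 A : ℝ) (μ : Measure (Sp d)) (n : Sp d) :
    dvT chi β ε p0 A μ n = dvg (Ups p0 A μ 1) (fun y => tang n (gradient (WW β ε μ 1) y)) := rfl

lemma chi_smooth : ContDiff ℝ ∞ (chi : Sp d → ℝ) := by
  unfold chi chi1
  refine contDiff_prod fun j _ => ?_
  have h1 : ContDiff ℝ ∞ Real.smoothTransition := Real.smoothTransition.contDiff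
  have h2 : ContDiff ℝ ∞ fun y : Sp d => y j := by fun_prop
  exact (h1.comp (h2.add contDiff_const)).sub (h1.comp h2)

lemma chi_cs (hd : 1 ≤ d) : HasCompactSupport (chi : Sp d → ℝ) :=
  HasCompactSupport.intro (isCompact_closedBall (0 : Sp d) d) fun x hx => PTm.chi_supp (by
    rw [mem_closedBall, dist_zero_right, not_le] at hx
    exact hx.le) hd

/-- chi vanishes near every point of norm at least d -/
lemma chi_ev (hd : 2 ≤ d) {y : Sp d} (hy : (d : ℝ) ≤ ‖y‖) : ∀ᶠ z in 𝓝 y, chi z = 0 := by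
  have hd' : (2 : ℝ) ≤ d := by exact_mod_cast hd
  have h1 : (d : ℝ) < ‖y‖ ^ 2 := by nlinarith
  have h2 : ∀ᶠ z in 𝓝 y, (d : ℝ) < ‖z‖ ^ 2 :=
    (continuous_norm.pow 2).continuousAt.eventually_const_lt h1
  filter_upwards [h2] with z hz
  by_contra h0
  have h3 : ∀ j, |z j| < 1 := by
    intro j
    by_contra h4
    exact h0 (PTm.chi_zero (not_lt.mp h4))
  have h5 : ‖z‖ ^ 2 ≤ d := by
    rw [EuclideanSpace.norm_sq_eq]
    have : ∑ i : Fin d, ‖z i‖ ^ 2 ≤ ∑ i : Fin d, (1 : ℝ) := by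
      refine Finset.sum_le_sum fun i _ => ?_
      rw [Real.norm_eq_abs, sq_le_one_iff₀ (abs_nonneg _)]
      exact (h3 i).le
    simpa using this
  linarith

lemma comp_smooth {g : Sp d → Sp d} (hg : ContDiff ℝ ∞ g) (j : Fin d) :
    ContDiff ℝ ∞ (fun y => (g y) j) :=
  (EuclideanSpace.proj (𝕜 := ℝ) j).contDiff.comp hg

lemma term_smooth {u : Sp d → ℝ} (hu : ContDiff ℝ ∞ u) {g : Sp d → Sp d} (hg : ContDiff ℝ ∞ g)
    (j : Fin d) : ContDiff ℝ ∞ (fun y => chi y * u y * (g y) j) :=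
  (chi_smooth.mul hu).mul (comp_smooth hg j)

lemma dvg_smooth {u : Sp d → ℝ} (hu : ContDiff ℝ ∞ u) {g : Sp d → Sp d} (hg : ContDiff ℝ ∞ g) :
    ContDiff ℝ ∞ (dvg u g) :=
  ContDiff.sum fun j _ => NN.smooth_fd (term_smooth hu hg j) _

/-- if chi u vanishes near y then so does the divergence -/
lemma dvg_ev {u : Sp d → ℝ} {g : Sp d → Sp d} {y : Sp d} (h : ∀ᶠ z in 𝓝 y, chi z * u z = 0) :
    dvg u g =ᶠ[𝓝 y] fun _ => 0 := by
  filter_upwards [h.eventually_nhds] with z hz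
  unfold dvg
  refine Finset.sum_eq_zero fun j _ => ?_
  have h1 : (fun y => chi y * u y * (g y) j) =ᶠ[𝓝 z] fun _ => (0 : ℝ) := by
    filter_upwards [hz] with w hw
    rw [hw, zero_mul]
  rw [h1.fderiv_eq]
  simp

lemma dvg_ev_far (hd : 2 ≤ d) {u : Sp d → ℝ} {g : Sp d → Sp d} {y : Sp d} (hy : (d : ℝ) ≤ ‖y‖) :
    dvg u g =ᶠ[𝓝 y] fun _ => 0 := by
  refine dvg_ev ?_
  filter_upwards [chi_ev hd hy] with z hz
  rw [hz, zero_mul]

lemma iter_zero {F : Type*} [NormedAddCommGroup F] [NormedSpace ℝ F] {f : Sp d → F} {y : Sp d}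
    (h : f =ᶠ[𝓝 y] fun _ => 0) (j : ℕ) : iteratedFDeriv ℝ j f y = 0 := by
  have h1 := (h.iteratedFDeriv (𝕜 := ℝ) j).eq_of_nhds
  rw [h1, iteratedFDeriv_fun_zero]
  rfl

/-- the index set for the Leibniz estimate -/
structure Ix (d K : ℕ) (B : ℝ) where
  u : Sp d → ℝ
  g : Sp d → Sp d
  hu : ContDiff ℝ ∞ u
  hg : ContDiff ℝ ∞ g
  hb : ∀ j ≤ K, ∀ x, ‖iteratedFDeriv ℝ j u x‖ ≤ B

/-- the Leibniz estimate -/
lemma dvg_bd (hd : 2 ≤ d) (K : ℕ) (B : ℝ) (hB : 0 ≤ B) : ∃ C : ℝ, 0 < C ∧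
    ∀ (u : Sp d → ℝ) (g : Sp d → Sp d), ContDiff ℝ ∞ u → ContDiff ℝ ∞ g →
      (∀ j ≤ K + 1, ∀ x, ‖iteratedFDeriv ℝ j u x‖ ≤ B) → ∀ k ≤ K, ∀ x,
        ‖iteratedFDeriv ℝ k (dvg u g) x‖ ≤
          C * ∑ i ∈ Finset.range (K + 2), ‖iteratedFDeriv ℝ i g x‖ := by
  let ι := Ix d (K + 1) B
  have hU : IsOpen (univ : Set (Sp d)) := isOpen_univ
  let w : ι → Sp d → ℝ := fun i x => ∑ k ∈ Finset.range (K + 2), ‖iteratedFDeriv ℝ k i.g x‖
  have bχ : BdN (K + 1) univ (fun (_ : ι) (_ : Sp d) => (1 : ℝ)) (fun _ => (chi : Sp d → ℝ)) := by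
    refine ⟨fun _ => chi_smooth.contDiffOn, ?_⟩
    have h1 : ∀ j : ℕ, ∃ C : ℝ, ∀ x, ‖iteratedFDeriv ℝ j (chi : Sp d → ℝ) x‖ ≤ C := by
      intro j
      have hc : Continuous (iteratedFDeriv ℝ j (chi : Sp d → ℝ)) := NN.it_cont chi_smooth j
      have hs : HasCompactSupport (iteratedFDeriv ℝ j (chi : Sp d → ℝ)) :=
        (chi_cs (by omega)).iteratedFDeriv j
      exact hc.bounded_above_of_compact_support hs
    choose c hc using h1
    refine ⟨∑ j ∈ Finset.range (K + 2), |c j|, Finset.sum_nonneg fun _ _ => abs_nonneg _,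
      fun _ x _ j hj => ?_⟩
    rw [mul_one]
    refine (hc j x).trans ((le_abs_self _).trans ?_)
    exact Finset.single_le_sum (f := fun j => |c j|) (fun _ _ => abs_nonneg _)
      (Finset.mem_range.2 (by omega))
  have bu : BdN (K + 1) univ (fun (_ : ι) (_ : Sp d) => (1 : ℝ)) (fun i => i.u) :=
    ⟨fun i => i.hu.contDiffOn, B, hB, fun i x _ j hj => by rw [mul_one]; exact i.hb j hj x⟩
  have bg : BdN (K + 1) univ w (fun i => i.g) := by
    refine ⟨fun i => i.hg.contDiffOn, 1, zero_le_one, fun i x _ j hj => ?_⟩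
    rw [one_mul]
    exact Finset.single_le_sum (f := fun k => ‖iteratedFDeriv ℝ k i.g x‖)
      (fun _ _ => norm_nonneg _) (Finset.mem_range.2 (by omega))
  have bj : ∀ j : Fin d, BdN K univ w (fun i x => fderiv ℝ
      (fun y => chi y * i.u y * (i.g y) j) x (EuclideanSpace.single j (1 : ℝ))) := by
    intro j
    have h1 : BdN (K + 1) univ w (fun i y => (i.g y) j) :=
      bg.clm hU (fun _ => EuclideanSpace.proj (𝕜 := ℝ) j)
        (B := ‖(EuclideanSpace.proj (𝕜 := ℝ) j : Sp d →L[ℝ] ℝ)‖) (fun _ => le_rfl)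
    have h2 := (bχ.mul hU bu).mul hU h1
    simp only [one_mul] at h2
    have h3 := (h2.D hU).clm hU (fun _ => ContinuousLinearMap.apply ℝ ℝ
      (EuclideanSpace.single j (1 : ℝ) : Sp d)) (B := ‖(ContinuousLinearMap.apply ℝ ℝ
      (EuclideanSpace.single j (1 : ℝ) : Sp d) : (Sp d →L[ℝ] ℝ) →L[ℝ] ℝ)‖)
      (fun _ => le_rfl)
    exact h3
  have bs := BdN.sum hU (Finset.univ : Finset (Fin d))
    (fun i x _ => Finset.sum_nonneg fun _ _ => norm_nonneg _) (fun j _ => bj j)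
  obtain ⟨C, hC, h⟩ := bs.bd
  refine ⟨C + 1, by linarith, fun u g hu hg hb k hk x => ?_⟩
  have h1 := h ⟨u, g, hu, hg, hb⟩ x (mem_univ _) k hk
  have h2 : (fun x => ∑ j : Fin d, fderiv ℝ (fun y => chi y * u y * (g y) j) x
    (EuclideanSpace.single j (1 : ℝ))) = dvg u g := rfl
  refine le_trans h1 ?_
  refine mul_le_mul_of_nonneg_right (by linarith) (Finset.sum_nonneg fun _ _ => norm_nonneg _)

/-- the plane integral of the divergence vanishes -/
lemma dvg_pl (hPF : StmtPF) (hd : 2 ≤ d) {n : Sp d} (hn : ‖n‖ = 1) {u : Sp d → ℝ}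
    (hu : ContDiff ℝ ∞ u) {g : Sp d → Sp d} (hg : ContDiff ℝ ∞ g) (ht : ∀ y, ⟪n, g y⟫_ℝ = 0)
    (s : ℝ) : plInt n s (dvg u g) = 0 := by
  set e : Fin d → Sp d := fun j => EuclideanSpace.single j (1 : ℝ) with he
  set Y : Fin d → Sp d → ℝ := fun j y => chi y * u y * (g y) j with hY
  have hYs : ∀ j, ContDiff ℝ ∞ (Y j) := fun j => term_smooth hu hg j
  have hYc : ∀ j, HasCompactSupport (Y j) := fun j =>
    ((chi_cs (by omega)).mul_right).mul_right
  have hsum : ∀ y, ∑ j, n j * Y j y = 0 := by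
    intro y
    have h1 : ⟪n, g y⟫_ℝ = ∑ j, n j * (g y) j := by
      simp [PiLp.inner_apply, mul_comm]
    have h2 := ht y
    rw [h1] at h2
    calc ∑ j, n j * Y j y = chi y * u y * ∑ j, n j * (g y) j := by
          rw [Finset.mul_sum]
          exact Finset.sum_congr rfl fun j _ => by simp only [hY]; ring
      _ = 0 := by rw [h2, mul_zero]
  have hin : ∀ j, ⟪n, e j⟫_ℝ = n j := by
    intro j
    simp [he, EuclideanSpace.inner_single_right]
  have h3 : dvg u g = fun x => ∑ j, fderiv ℝ (Y j) x (e j - n j • n) := by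
    ext x
    have h4 : ∑ j, n j * fderiv ℝ (Y j) x n = 0 := by
      have h5 : HasFDerivAt (fun y => ∑ j, n j * Y j y) (∑ j, n j • fderiv ℝ (Y j) x) x := by
        refine HasFDerivAt.fun_sum fun j _ => ?_
        exact ((hYs j).differentiable (by simp) x).hasFDerivAt.const_mul _
      have h6 : (fun y => ∑ j, n j * Y j y) = fun _ => (0 : ℝ) := funext hsum
      rw [h6] at h5
      have h7 := h5.unique (hasFDerivAt_const (0 : ℝ) x)
      have h8 := congrArg (fun L : Sp d →L[ℝ] ℝ => L n) h7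
      simpa using h8
    unfold dvg
    simp only [map_sub, map_smul, smul_eq_mul, Finset.sum_sub_distrib]
    rw [h4, sub_zero]
  rw [h3, NN.pl_sum _ (fun j => (NN.smooth_fd (hYs j) _).continuous)
    (fun j => (hYc j).fderiv_apply ℝ _)]
  refine Finset.sum_eq_zero fun j _ => ?_
  obtain ⟨-, -, -, -, h5, -⟩ := (hPF d (by omega)).2 n hn
  refine h5 (Y j) ((hYs j).of_le (by exact_mod_cast le_top)) (hYc j) s _ ?_
  rw [inner_sub_right, inner_smul_right, real_inner_self_eq_norm_sq, hn, hin]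
  ring

/-- the tangential derivative bounds on a plane, from norm bounds -/
lemma dvg_TB (hd : 2 ≤ d) {J : ℕ} {n : Sp d} (hn : ‖n‖ = 1) {s N : ℝ} (hN : 0 ≤ N)
    {u : Sp d → ℝ} (hu : ContDiff ℝ ∞ u) {g : Sp d → Sp d} (hg : ContDiff ℝ ∞ g)
    (h : ∀ j ≤ J + 1, ∀ y, ‖y‖ ≤ d → ⟪n, y⟫_ℝ = s → ‖iteratedFDeriv ℝ j (dvg u g) y‖ ≤ N) :
    TB J n s N (dvg u g) := by
  have hs := dvg_smooth hu hg
  have h' : ∀ j ≤ J + 1, ∀ y, ⟪n, y⟫_ℝ = s → ‖iteratedFDeriv ℝ j (dvg u g) y‖ ≤ N := by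
    intro j hj y hy
    rcases le_or_gt (d : ℝ) ‖y‖ with h1 | h1
    · rw [iter_zero (dvg_ev_far hd h1), norm_zero]
      exact hN
    · exact h j hj y h1.le hy
  have hprod : ∀ {j : ℕ} (k : Fin j → Sp d), (∀ i, ‖k i‖ ≤ 1) → ∏ i, ‖k i‖ ≤ 1 := by
    intro j k hk
    exact Finset.prod_le_one (fun i _ => norm_nonneg _) (fun i _ => hk i)
  intro j hj k _ hk y hy
  constructor
  · have h1 := (iteratedFDeriv ℝ j (dvg u g) y).le_opNorm k
    rw [← Real.norm_eq_abs]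
    calc ‖iteratedFDeriv ℝ j (dvg u g) y k‖ ≤ ‖iteratedFDeriv ℝ j (dvg u g) y‖ * ∏ i, ‖k i‖ := h1
      _ ≤ N * 1 := mul_le_mul (h' j (by omega) y hy) (hprod k hk)
          (Finset.prod_nonneg fun i _ => norm_nonneg _) hN
      _ = N := mul_one N
  · have h1 := (iteratedFDeriv ℝ j (fun x => fderiv ℝ (dvg u g) x n) y).le_opNorm k
    have h2 : ‖iteratedFDeriv ℝ j (fun x => fderiv ℝ (dvg u g) x n) y‖ ≤ N := by
      have h3 : ContDiff ℝ j (fderiv ℝ (dvg u g)) :=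
        (hs.fderiv_right (m := ∞) (by norm_cast)).of_le (by exact_mod_cast le_top)
      have h4 := (ContinuousLinearMap.apply ℝ ℝ n : (Sp d →L[ℝ] ℝ) →L[ℝ] ℝ).norm_iteratedFDeriv_comp_left
        (f := fderiv ℝ (dvg u g)) (x := y) (n := j) h3.contDiffAt le_rfl
      have h5 : ‖(ContinuousLinearMap.apply ℝ ℝ n : (Sp d →L[ℝ] ℝ) →L[ℝ] ℝ)‖ ≤ 1 := by
        refine ContinuousLinearMap.opNorm_le_bound _ zero_le_one fun L => ?_
        rw [ContinuousLinearMap.apply_apply, one_mul]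
        have := L.le_opNorm n
        rwa [hn, mul_one] at this
      have h6 : ‖iteratedFDeriv ℝ j (fderiv ℝ (dvg u g)) y‖ ≤ N := by
        rw [norm_iteratedFDeriv_fderiv]
        exact h' (j + 1) (by omega) y hy
      calc ‖iteratedFDeriv ℝ j (fun x => fderiv ℝ (dvg u g) x n) y‖
          ≤ ‖(ContinuousLinearMap.apply ℝ ℝ n : (Sp d →L[ℝ] ℝ) →L[ℝ] ℝ)‖ *
            ‖iteratedFDeriv ℝ j (fderiv ℝ (dvg u g)) y‖ := h4
        _ ≤ 1 * N := mul_le_mul h5 h6 (norm_nonneg _) zero_le_one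
        _ = N := one_mul N
    rw [← Real.norm_eq_abs]
    calc _ ≤ ‖iteratedFDeriv ℝ j (fun x => fderiv ℝ (dvg u g) x n) y‖ * ∏ i, ‖k i‖ := h1
      _ ≤ N * 1 := mul_le_mul h2 (hprod k hk)
          (Finset.prod_nonneg fun i _ => norm_nonneg _) hN
      _ = N := mul_one N

/-- comparison of v near the centre -/
lemma vv_le (hTH : StmtTH) (hd : 2 ≤ d) {C' : ℝ} (hC' : 0 < C') {μ : Measure (Sp d)}
    (hμ : Gro C' μ) {y : Sp d} (hy : ‖y‖ ≤ d) : vv μ 1 y ≤ (1 + d) ^ d * vv μ 1 0 := by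
  obtain ⟨C, _, hC⟩ := hTH d 0 hd C' hC'
  obtain ⟨-, -, -, h4, -⟩ := hC μ hμ
  have h5 := h4 1 0 y one_pos
  have h6 : (1 + ‖(0 : Sp d) - y‖ / 1) ^ d ≤ (1 + (d : ℝ)) ^ d := by
    refine pow_le_pow_left₀ (by positivity) ?_ d
    rw [zero_sub, norm_neg, div_one]
    linarith
  have h7 : 0 ≤ th μ 1 0 := by
    have := (hC μ hμ).1 1 0 one_pos
    exact this.1.le
  have h8 : (1 : ℝ) ≤ (1 + (d : ℝ)) ^ d := one_le_pow₀ (by linarith [Nat.cast_nonneg (α := ℝ) d])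
  unfold vv
  rw [Real.sqrt_le_left (by positivity), mul_pow, Real.sq_sqrt h7]
  calc th μ 1 y ≤ (1 + ‖(0 : Sp d) - y‖ / 1) ^ d * th μ 1 0 := h5
    _ ≤ (1 + (d : ℝ)) ^ d * th μ 1 0 := mul_le_mul_of_nonneg_right h6 h7
    _ ≤ ((1 + (d : ℝ)) ^ d) ^ 2 * th μ 1 0 := by
        refine mul_le_mul_of_nonneg_right ?_ h7
        nlinarith

end TDc

end

end TG
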