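import Pool.Agent.TG.Stmts1
set_option autoImplicit false

/-!
# Module TH: the potential
-/

open MeasureTheory Metric Set TrI
open scoped InnerProductSpace ContDiff

namespace TG

noncomputable section

namespace THm

variable {d : ℕ}

/-! ### The kernel -/

lemma kk_pos {t : ℝ} (ht : 0 < t) (x : Sp d) : 0 < kk t x := by
  unfold kk; positivity

lemma kk_nonneg {t : ℝ} (ht : 0 < t) (x : Sp d) : 0 ≤ kk t x := (kk_pos ht x).le

/-- the kernel as a function on space-time -/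
def kq (d : ℕ) (p : ℝ × Sp d) : ℝ := kk p.1 p.2

lemma quad_ne {p : ℝ × Sp d} (hp : p ≠ 0) : p.1 ^ 2 + ‖p.2‖ ^ 2 ≠ 0 := by
  intro h
  apply hp
  have h1 : p.1 ^ 2 = 0 := by nlinarith [sq_nonneg p.1, sq_nonneg ‖p.2‖]
  have h2 : ‖p.2‖ ^ 2 = 0 := by nlinarith [sq_nonneg p.1, sq_nonneg ‖p.2‖]
  exact Prod.ext (pow_eq_zero_iff two_ne_zero |>.mp h1)
    (norm_eq_zero.mp (pow_eq_zero_iff two_ne_zero |>.mp h2))

lemma kq_smooth : ContDiffOn ℝ ∞ (kq d) {0}ᶜ := by
  unfold kq kk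
  refine ContDiffOn.div contDiff_fst.contDiffOn (ContDiffOn.pow (ContDiffOn.sqrt ?_ ?_) d) ?_
  · exact ((contDiff_fst.pow 2).add (contDiff_snd.norm_sq ℝ)).contDiffOn
  · intro p hp
    exact quad_ne hp
  · intro p hp
    apply pow_ne_zero
    rw [Real.sqrt_ne_zero']
    exact lt_of_le_of_ne (by positivity) (quad_ne hp).symm

lemma kq_smul (hd : 1 ≤ d) {l : ℝ} (hl : 0 < l) (p : ℝ × Sp d) :
    kq d (l • p) = kq d p / l ^ (d - 1) := by
  unfold kq kk
  have h1 : Real.sqrt ((l • p).1 ^ 2 + ‖(l • p).2‖ ^ 2) =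
      l * Real.sqrt (p.1 ^ 2 + ‖p.2‖ ^ 2) := by
    rw [Prod.smul_fst, Prod.smul_snd, norm_smul, Real.norm_of_nonneg hl.le, smul_eq_mul]
    rw [show (l * p.1) ^ 2 + (l * ‖p.2‖) ^ 2 = l ^ 2 * (p.1 ^ 2 + ‖p.2‖ ^ 2) by ring,
      Real.sqrt_mul (sq_nonneg l), Real.sqrt_sq hl.le]
  rw [h1, mul_pow, Prod.smul_fst, smul_eq_mul, div_div]
  set S := Real.sqrt (p.1 ^ 2 + ‖p.2‖ ^ 2) ^ d
  have h2 : l ^ d = l * l ^ (d - 1) := by
    rw [← pow_succ']; congr 1; omega
  rw [h2, mul_assoc, mul_div_mul_left _ _ hl.ne', mul_comm S]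

lemma kq_iter (hd : 1 ≤ d) (n : ℕ) : ∃ C, 0 ≤ C ∧ ∀ p : ℝ × Sp d, p ≠ 0 →
    ‖iteratedFDeriv ℝ n (kq d) p‖ ≤ C / ‖p‖ ^ (d - 1 + n) := by
  have hop : IsOpen ({0}ᶜ : Set (ℝ × Sp d)) := isOpen_compl_singleton
  have hcont : ContinuousOn (fun p => iteratedFDeriv ℝ n (kq d) p) ({0}ᶜ : Set (ℝ × Sp d)) := by
    have h2 := (kq_smooth (d := d)).continuousOn_iteratedFDerivWithin (m := n)
      (by exact_mod_cast le_top) hop.uniqueDiffOn
    exact h2.congr (fun p hp => (iteratedFDerivWithin_of_isOpen n hop hp).symm)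
  obtain ⟨C, hC⟩ := (isCompact_sphere (0 : ℝ × Sp d) 1).exists_bound_of_continuousOn
    (hcont.mono (by
      intro p hp h
      rw [mem_singleton_iff] at h
      rw [h, mem_sphere, dist_self] at hp
      exact zero_ne_one hp))
  refine ⟨max C 0, le_max_right _ _, fun p hp => ?_⟩
  have hpn : 0 < ‖p‖ := norm_pos_iff.mpr hp
  set l : ℝ := ‖p‖⁻¹ with hl
  have hlpos : 0 < l := inv_pos.mpr hpn
  let e : (ℝ × Sp d) ≃L[ℝ] (ℝ × Sp d) := ContinuousLinearEquiv.smulLeft (Units.mk0 l hlpos.ne')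
  have he : ∀ q, e q = l • q := fun q => rfl
  have hfun : kq d = l ^ (d - 1) • (kq d ∘ e) := by
    funext q
    rw [Pi.smul_apply, Function.comp_apply, he, kq_smul hd hlpos, smul_eq_mul,
      mul_div_cancel₀ _ (pow_ne_zero _ hlpos.ne')]
  have hep : e p ≠ 0 := by
    rw [he]; exact smul_ne_zero hlpos.ne' hp
  have hcd : ContDiffAt ℝ n (kq d ∘ e) p := by
    have h1 : ContDiffAt ℝ n (kq d) (e p) :=
      ((kq_smooth (d := d)).contDiffAt (hop.mem_nhds hep)).of_le (by exact_mod_cast le_top)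
    exact h1.comp p e.contDiff.contDiffAt
  have hit : iteratedFDeriv ℝ n (kq d) p =
      l ^ (d - 1) • (iteratedFDeriv ℝ n (kq d) (e p)).compContinuousLinearMap
        (fun _ => (e : (ℝ × Sp d) →L[ℝ] (ℝ × Sp d))) := by
    conv_lhs => rw [hfun]
    rw [iteratedFDeriv_const_smul_apply hcd]
    congr 1
    have := e.iteratedFDerivWithin_comp_right (kq d) (s := univ) uniqueDiffOn_univ (x := p)
      (mem_univ _) n
    rw [preimage_univ, iteratedFDerivWithin_univ, iteratedFDerivWithin_univ] at this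
    exact this
  have hen : ‖(e : (ℝ × Sp d) →L[ℝ] (ℝ × Sp d))‖ ≤ l := by
    apply ContinuousLinearMap.opNorm_le_bound _ hlpos.le
    intro q
    rw [ContinuousLinearEquiv.coe_coe, he, norm_smul, Real.norm_of_nonneg hlpos.le]
  have hsph : e p ∈ sphere (0 : ℝ × Sp d) 1 := by
    rw [mem_sphere_zero_iff_norm, he, norm_smul, Real.norm_of_nonneg hlpos.le, hl,
      inv_mul_cancel₀ hpn.ne']
  calc ‖iteratedFDeriv ℝ n (kq d) p‖ = l ^ (d - 1) *
      ‖(iteratedFDeriv ℝ n (kq d) (e p)).compContinuousLinearMap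
        (fun _ => (e : (ℝ × Sp d) →L[ℝ] (ℝ × Sp d)))‖ := by
        rw [hit, norm_smul, norm_pow, Real.norm_of_nonneg hlpos.le]
    _ ≤ l ^ (d - 1) * (‖iteratedFDeriv ℝ n (kq d) (e p)‖ *
        ∏ _i : Fin n, ‖(e : (ℝ × Sp d) →L[ℝ] (ℝ × Sp d))‖) := by
        gcongr
        exact ContinuousMultilinearMap.norm_compContinuousLinearMap_le _ _
    _ ≤ l ^ (d - 1) * (max C 0 * l ^ n) := by
        rw [Finset.prod_const, Finset.card_univ, Fintype.card_fin]
        gcongr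
        exact (hC _ hsph).trans (le_max_left _ _)
    _ = max C 0 / ‖p‖ ^ (d - 1 + n) := by
        rw [hl, pow_add, inv_pow, inv_pow]
        field_simp

lemma root_le {p : ℝ × Sp d} : Real.sqrt (p.1 ^ 2 + ‖p.2‖ ^ 2) ≤ 2 * ‖p‖ := by
  have h1 : |p.1| ≤ ‖p‖ := norm_fst_le p
  have h2 : ‖p.2‖ ≤ ‖p‖ := norm_snd_le p
  rw [Real.sqrt_le_left (by positivity)]
  have h3 : p.1 ^ 2 ≤ ‖p‖ ^ 2 := by
    rw [← sq_abs]; gcongr
  have h4 : ‖p.2‖ ^ 2 ≤ ‖p‖ ^ 2 := by gcongr
  nlinarith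

lemma kq_iter' (hd : 1 ≤ d) (n : ℕ) : ∃ C, 1 ≤ C ∧ ∀ p : ℝ × Sp d, 0 < p.1 →
    ‖iteratedFDeriv ℝ n (kq d) p‖ ≤ C * kq d p / p.1 ^ n := by
  rcases Nat.eq_zero_or_pos n with hn | hn
  · refine ⟨1, le_rfl, fun p hp => ?_⟩
    subst hn
    have h0 : 0 ≤ kq d p := kk_nonneg hp p.2
    rw [norm_iteratedFDeriv_zero, pow_zero, div_one, one_mul, Real.norm_of_nonneg h0]
  · obtain ⟨C, hC0, hC⟩ := kq_iter hd n
    refine ⟨max 1 (C * 2 ^ d), le_max_left _ _, fun p hp => ?_⟩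
    have hpne : p ≠ 0 := by
      rintro rfl; exact lt_irrefl _ hp
    have hpn : 0 < ‖p‖ := norm_pos_iff.mpr hpne
    have hle : p.1 ≤ ‖p‖ := (le_abs_self _).trans (norm_fst_le p)
    refine (hC p hpne).trans ?_
    have h1 : p.1 / (2 * ‖p‖) ^ d ≤ kq d p := by
      unfold kq kk
      have hR : 0 < Real.sqrt (p.1 ^ 2 + ‖p.2‖ ^ 2) := by positivity
      gcongr
      exact root_le
    have h2 : C / ‖p‖ ^ (d - 1 + n) ≤ C * 2 ^ d * (p.1 / (2 * ‖p‖) ^ d) / p.1 ^ n := by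
      have hn' : p.1 ^ n = p.1 * p.1 ^ (n - 1) := by
        rw [← pow_succ']; congr 1; omega
      have hd' : ‖p‖ ^ (d - 1 + n) = ‖p‖ ^ d * ‖p‖ ^ (n - 1) := by
        rw [← pow_add]; congr 1; omega
      have h3 : C * 2 ^ d * (p.1 / (2 * ‖p‖) ^ d) / p.1 ^ n = C / (‖p‖ ^ d * p.1 ^ (n - 1)) := by
        rw [hn', mul_pow]
        field_simp
      rw [h3, hd']
      gcongr
    refine h2.trans ?_
    gcongr
    exact le_max_right _ _

/-! ### Harnack inequalities for the kernel -/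

lemma root_add {t a b : ℝ} (hb : 0 ≤ b) :
    Real.sqrt (t ^ 2 + (a + b) ^ 2) ≤ Real.sqrt (t ^ 2 + a ^ 2) + b := by
  rw [Real.sqrt_le_left (by positivity)]
  have h1 : Real.sqrt (t ^ 2 + a ^ 2) ^ 2 = t ^ 2 + a ^ 2 := Real.sq_sqrt (by positivity)
  have h2 : a ≤ Real.sqrt (t ^ 2 + a ^ 2) := by
    apply Real.le_sqrt_of_sq_le
    nlinarith [sq_nonneg t]
  nlinarith [mul_le_mul_of_nonneg_right h2 hb]

lemma le_root {t a : ℝ} : t ≤ Real.sqrt (t ^ 2 + a ^ 2) := by
  apply Real.le_sqrt_of_sq_le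
  nlinarith [sq_nonneg a]

lemma kk_harnack {t : ℝ} (ht : 0 < t) (x x' : Sp d) :
    kk t x' ≤ (1 + ‖x - x'‖ / t) ^ d * kk t x := by
  unfold kk
  set R := Real.sqrt (t ^ 2 + ‖x‖ ^ 2) with hR
  set R' := Real.sqrt (t ^ 2 + ‖x'‖ ^ 2) with hR'
  have hRp : 0 < R := by positivity
  have hRp' : 0 < R' := by positivity
  have h1 : R ≤ R' + ‖x - x'‖ := by
    have h2 : ‖x‖ ≤ ‖x'‖ + ‖x - x'‖ := by
      have := norm_add_le x' (x - x')
      rwa [add_sub_cancel] at this
    refine le_trans ?_ (root_add (norm_nonneg (x - x')))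
    apply Real.sqrt_le_sqrt
    gcongr
  have h3 : R ≤ R' * (1 + ‖x - x'‖ / t) := by
    have h4 : t ≤ R' := le_root
    have h5 : ‖x - x'‖ ≤ R' * (‖x - x'‖ / t) := by
      rw [← mul_div_assoc, le_div_iff₀ ht]
      nlinarith [norm_nonneg (x - x')]
    nlinarith
  have h6 : R ^ d ≤ R' ^ d * (1 + ‖x - x'‖ / t) ^ d := by
    rw [← mul_pow]; gcongr
  rw [← mul_div_assoc, div_le_div_iff₀ (by positivity) (by positivity)]
  nlinarith

lemma kk_time {s t : ℝ} (ht : 0 < t) (hs1 : t / 8 ≤ s) (hs2 : s ≤ 8 * t) (x : Sp d) :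
    kk s x ≤ 8 ^ (d + 1) * kk t x := by
  unfold kk
  have hs : 0 < s := lt_of_lt_of_le (by positivity) hs1
  set R := Real.sqrt (t ^ 2 + ‖x‖ ^ 2) with hR
  set R' := Real.sqrt (s ^ 2 + ‖x‖ ^ 2) with hR'
  have hRp : 0 < R := by positivity
  have hRp' : 0 < R' := by positivity
  have h1 : R ≤ 8 * R' := by
    rw [hR, Real.sqrt_le_left (by positivity), mul_pow, hR', Real.sq_sqrt (by positivity)]
    have h2 : t ^ 2 ≤ (8 * s) ^ 2 := by
      gcongr; linarith
    nlinarith [sq_nonneg ‖x‖]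
  have h3 : R ^ d ≤ 8 ^ d * R' ^ d := by
    rw [← mul_pow]; gcongr
  rw [← mul_div_assoc, div_le_div_iff₀ (by positivity) (by positivity)]
  calc s * R ^ d ≤ (8 * t) * (8 ^ d * R' ^ d) := by gcongr
    _ = 8 ^ (d + 1) * t * R' ^ d := by ring

/-! ### Integrability -/

lemma kk_cont {t : ℝ} (ht : 0 < t) : Continuous (fun x : Sp d => kk t x) := by
  unfold kk
  refine Continuous.div continuous_const ?_ ?_
  · fun_prop
  · intro x
    have : 0 < Real.sqrt (t ^ 2 + ‖x‖ ^ 2) := by positivity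
    positivity

lemma kk_le (hd : 1 ≤ d) {t : ℝ} (ht : 0 < t) (x : Sp d) : kk t x ≤ 1 / t ^ (d - 1) := by
  unfold kk
  have h1 : t ≤ Real.sqrt (t ^ 2 + ‖x‖ ^ 2) := le_root
  have h2 : t ^ d ≤ Real.sqrt (t ^ 2 + ‖x‖ ^ 2) ^ d := by gcongr
  have h3 : t ^ d = t * t ^ (d - 1) := by rw [← pow_succ']; congr 1; omega
  rw [div_le_div_iff₀ (by positivity) (by positivity), one_mul, ← h3]
  exact h2

lemma kk_int (hd : 1 ≤ d) (μ : Measure (Sp d)) [IsFiniteMeasure μ] {t : ℝ} (ht : 0 < t)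
    (x : Sp d) : Integrable (fun η => kk t (x - η)) μ := by
  refine Integrable.mono' (integrable_const (1 / t ^ (d - 1))) ?_ ?_
  · exact ((kk_cont ht).comp (continuous_const.sub continuous_id)).aestronglyMeasurable
  · filter_upwards with η
    rw [Real.norm_of_nonneg (kk_nonneg ht _)]
    exact kk_le hd ht _

lemma th_pos (hd : 1 ≤ d) (μ : Measure (Sp d)) [IsFiniteMeasure μ] (hμ : μ ≠ 0) {t : ℝ}
    (ht : 0 < t) (x : Sp d) : 0 < th μ t x := by
  unfold th
  rw [integral_pos_iff_support_of_nonneg (fun η => kk_nonneg ht _) (kk_int hd μ ht x)]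
  have : Function.support (fun η => kk t (x - η)) = univ := by
    ext η
    simp only [Function.mem_support, mem_univ, iff_true]
    exact (kk_pos ht _).ne'
  rw [this]
  exact Measure.measure_univ_pos.mpr hμ

/-! ### Upper bound from growth -/

lemma kk_shell {t : ℝ} (ht : 0 < t) (x : Sp d) :
    ENNReal.ofReal (kk t x) ≤ ∑' k : ℕ, (ball (0 : Sp d) (2 ^ (k + 1) * t)).indicator
      (fun _ => ENNReal.ofReal (t / (2 ^ k * t) ^ d)) x := by
  have hR : 0 < Real.sqrt (t ^ 2 + ‖x‖ ^ 2) := by positivity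
  have h1 : 1 ≤ Real.sqrt (t ^ 2 + ‖x‖ ^ 2) / t := by
    rw [le_div_iff₀ ht, one_mul]; exact le_root
  obtain ⟨k, hk1, hk2⟩ := exists_nat_pow_near h1 (by norm_num : (1 : ℝ) < 2)
  refine le_trans ?_ (ENNReal.le_tsum k)
  have hmem : x ∈ ball (0 : Sp d) (2 ^ (k + 1) * t) := by
    rw [mem_ball_zero_iff]
    rw [div_lt_iff₀ ht] at hk2
    refine lt_of_le_of_lt ?_ hk2
    apply Real.le_sqrt_of_sq_le
    nlinarith [sq_nonneg t]
  rw [indicator_of_mem hmem]
  apply ENNReal.ofReal_le_ofReal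
  unfold kk
  rw [le_div_iff₀ ht] at hk1
  gcongr

lemma th_le (hd : 1 ≤ d) {C' : ℝ} (hC' : 0 < C') (μ : Measure (Sp d)) [IsFiniteMeasure μ]
    (hg : ∀ (x : Sp d) (r : ℝ), 0 < r → μ (ball x r) ≤ ENNReal.ofReal (C' * r ^ (d - 1)))
    {t : ℝ} (ht : 0 < t) (x : Sp d) : th μ t x ≤ C' * 2 ^ d := by
  have h0 : ENNReal.ofReal (th μ t x) ≤ ENNReal.ofReal (C' * 2 ^ d) := by
    unfold th
    rw [ofReal_integral_eq_lintegral_ofReal (kk_int hd μ ht x)
      (Filter.Eventually.of_forall (fun η => kk_nonneg ht _))]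
    calc ∫⁻ η, ENNReal.ofReal (kk t (x - η)) ∂μ
        ≤ ∫⁻ η, ∑' k : ℕ, (ball x (2 ^ (k + 1) * t)).indicator
          (fun _ => ENNReal.ofReal (t / (2 ^ k * t) ^ d)) η ∂μ := by
          apply lintegral_mono
          intro η
          refine (kk_shell ht (x - η)).trans (le_of_eq ?_)
          apply tsum_congr
          intro k
          by_cases h : x - η ∈ ball (0 : Sp d) (2 ^ (k + 1) * t)
          · have h' : η ∈ ball x (2 ^ (k + 1) * t) := by
              rw [mem_ball_zero_iff] at h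
              rwa [mem_ball, dist_comm, dist_eq_norm]
            rw [indicator_of_mem h, indicator_of_mem h']
          · have h' : η ∉ ball x (2 ^ (k + 1) * t) := by
              intro h'
              apply h
              rw [mem_ball, dist_comm, dist_eq_norm] at h'
              rwa [mem_ball_zero_iff]
            rw [indicator_of_notMem h, indicator_of_notMem h']
      _ = ∑' k : ℕ, ENNReal.ofReal (t / (2 ^ k * t) ^ d) * μ (ball x (2 ^ (k + 1) * t)) := by
          rw [lintegral_tsum]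
          · apply tsum_congr
            intro k
            rw [lintegral_indicator_const measurableSet_ball]
          · intro k
            exact (measurable_const.indicator measurableSet_ball).aemeasurable
      _ ≤ ∑' k : ℕ, ENNReal.ofReal (C' * 2 ^ (d - 1) * (1 / 2) ^ k) := by
          apply ENNReal.tsum_le_tsum
          intro k
          calc ENNReal.ofReal (t / (2 ^ k * t) ^ d) * μ (ball x (2 ^ (k + 1) * t))
              ≤ ENNReal.ofReal (t / (2 ^ k * t) ^ d) *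
                ENNReal.ofReal (C' * (2 ^ (k + 1) * t) ^ (d - 1)) := by
                gcongr
                exact hg x _ (by positivity)
            _ = ENNReal.ofReal (t / (2 ^ k * t) ^ d * (C' * (2 ^ (k + 1) * t) ^ (d - 1))) :=
                (ENNReal.ofReal_mul (by positivity)).symm
            _ = ENNReal.ofReal (C' * 2 ^ (d - 1) * (1 / 2) ^ k) := by
                congr 1
                have h3 : (2 ^ k * t) ^ d = (2 ^ k * t) * (2 ^ k * t) ^ (d - 1) := by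
                  rw [← pow_succ']; congr 1; omega
                have h4 : (2 ^ (k + 1) * t) ^ (d - 1) =
                    2 ^ (d - 1) * (2 ^ k * t) ^ (d - 1) := by
                  rw [← mul_pow]; congr 1; ring
                rw [h3, h4, one_div, inv_pow]
                field_simp
      _ = ENNReal.ofReal (∑' k : ℕ, C' * 2 ^ (d - 1) * (1 / 2) ^ k) := by
          rw [ENNReal.ofReal_tsum_of_nonneg]
          · intro k; positivity
          · exact (summable_geometric_two).mul_left _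
      _ = ENNReal.ofReal (C' * 2 ^ d) := by
          congr 1
          rw [tsum_mul_left, tsum_geometric_two]
          have h3 : (2 : ℝ) ^ d = 2 ^ (d - 1) * 2 := by
            rw [← pow_succ]; congr 1; omega
          rw [h3]; ring
  exact (ENNReal.ofReal_le_ofReal_iff (by positivity)).mp h0

/-! ### Differentiation under the integral sign -/

/-- the upper half space -/
def UU (d : ℕ) : Set (ℝ × Sp d) := {p | 0 < p.1}

lemma isOpen_UU : IsOpen (UU d) := isOpen_lt continuous_const continuous_fst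

lemma UU_sub : UU d ⊆ ({0}ᶜ : Set (ℝ × Sp d)) := by
  intro p hp h
  rw [mem_singleton_iff] at h
  rw [h] at hp
  have h0 : (0 : ℝ) < (0 : ℝ × Sp d).1 := hp
  exact lt_irrefl _ h0

lemma mem_UU_sub {p : ℝ × Sp d} (hp : p ∈ UU d) (η : Sp d) : p - (0, η) ∈ UU d := by
  change 0 < (p - (0, η)).1
  have hp' : 0 < p.1 := hp
  rw [Prod.fst_sub, sub_zero]
  exact hp'

lemma par_deriv {F : Type*} [NormedAddCommGroup F] [NormedSpace ℝ F]
    (μ : Measure (Sp d)) [IsFiniteMeasure μ] (G : ℝ × Sp d → F)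
    (hd1 : ∀ p ∈ UU d, DifferentiableAt ℝ G p) (hc : ContinuousOn (fderiv ℝ G) (UU d))
    (hb : ∀ t0 : ℝ, 0 < t0 → ∃ B, ∀ p : ℝ × Sp d, t0 ≤ p.1 → ‖G p‖ ≤ B)
    (hb' : ∀ t0 : ℝ, 0 < t0 → ∃ B, ∀ p : ℝ × Sp d, t0 ≤ p.1 → ‖fderiv ℝ G p‖ ≤ B)
    {p0 : ℝ × Sp d} (hp0 : p0 ∈ UU d) :
    Integrable (fun η => fderiv ℝ G (p0 - (0, η))) μ ∧
    HasFDerivAt (fun p => ∫ η, G (p - (0, η)) ∂μ) (∫ η, fderiv ℝ G (p0 - (0, η)) ∂μ) p0 := by
  have hp0' : 0 < p0.1 := hp0
  have hcG : ContinuousOn G (UU d) := fun p hp => (hd1 p hp).continuousAt.continuousWithinAt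
  have hcont : ∀ p ∈ UU d, Continuous (fun η : Sp d => p - ((0 : ℝ), η)) := by
    intro p _; fun_prop
  have hm : ∀ p ∈ UU d, AEStronglyMeasurable (fun η => G (p - (0, η))) μ := by
    intro p hp
    exact (hcG.comp_continuous (hcont p hp) (fun η => mem_UU_sub hp η)).aestronglyMeasurable
  have hm' : ∀ p ∈ UU d, AEStronglyMeasurable (fun η => fderiv ℝ G (p - (0, η))) μ := by
    intro p hp
    exact (hc.comp_continuous (hcont p hp) (fun η => mem_UU_sub hp η)).aestronglyMeasurable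
  obtain ⟨B, hB⟩ := hb (p0.1 / 2) (by positivity)
  obtain ⟨B', hB'⟩ := hb' (p0.1 / 2) (by positivity)
  have hfst : ∀ (p : ℝ × Sp d) (η : Sp d), (p - ((0 : ℝ), η)).1 = p.1 := by
    intro p η; simp
  have hs : {p : ℝ × Sp d | p0.1 / 2 < p.1} ∈ nhds p0 :=
    (isOpen_lt continuous_const continuous_fst).mem_nhds (by
      change p0.1 / 2 < p0.1; linarith)
  have hint : Integrable (fun η => fderiv ℝ G (p0 - (0, η))) μ := by
    refine Integrable.mono' (integrable_const B') (hm' p0 hp0) ?_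
    filter_upwards with η
    exact hB' _ (by rw [hfst]; linarith)
  refine ⟨hint, ?_⟩
  refine hasFDerivAt_integral_of_dominated_of_fderiv_le
    (F' := fun p η => fderiv ℝ G (p - (0, η))) (bound := fun _ => B') hs ?_ ?_ (hm' p0 hp0) ?_
    (integrable_const B') ?_
  · filter_upwards [isOpen_UU.mem_nhds hp0] with p hp
    exact hm p hp
  · refine Integrable.mono' (integrable_const B) (hm p0 hp0) ?_
    filter_upwards with η
    exact hB _ (by rw [hfst]; linarith)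
  · filter_upwards with η p hp
    have hp' : p0.1 / 2 < p.1 := hp
    exact hB' _ (by rw [hfst]; linarith)
  · filter_upwards with η p hp
    have hp' : p0.1 / 2 < p.1 := hp
    have hpU : p ∈ UU d := by
      change 0 < p.1; linarith
    have h1 : HasFDerivAt G (fderiv ℝ G (p - (0, η))) (p - (0, η)) :=
      (hd1 _ (mem_UU_sub hpU η)).hasFDerivAt
    have h2 : HasFDerivAt (fun p : ℝ × Sp d => p - (0, η))
        (ContinuousLinearMap.id ℝ (ℝ × Sp d)) p := (hasFDerivAt_id p).sub_const _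
    have h3 := h1.comp p h2
    rwa [ContinuousLinearMap.comp_id] at h3

lemma kq_diff (n : ℕ) {p : ℝ × Sp d} (hp : p ∈ UU d) :
    DifferentiableAt ℝ (iteratedFDeriv ℝ n (kq d)) p := by
  have h1 : ContDiffAt ℝ ∞ (kq d) p :=
    (kq_smooth (d := d)).contDiffAt (isOpen_compl_singleton.mem_nhds (UU_sub hp))
  have h2 : ContDiffAt ℝ (n + 1 : ℕ) (kq d) p := h1.of_le (by exact_mod_cast le_top)
  exact h2.differentiableAt_iteratedFDeriv (by exact_mod_cast Nat.lt_succ_self n)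

lemma kq_bd (hd : 1 ≤ d) (n : ℕ) (t0 : ℝ) (ht0 : 0 < t0) :
    ∃ B, ∀ p : ℝ × Sp d, t0 ≤ p.1 → ‖iteratedFDeriv ℝ n (kq d) p‖ ≤ B := by
  obtain ⟨C, hC0, hC⟩ := kq_iter hd n
  refine ⟨C / t0 ^ (d - 1 + n), fun p hp => ?_⟩
  have hpne : p ≠ 0 := by
    rintro rfl
    exact absurd hp (not_le.mpr ht0)
  have hle : t0 ≤ ‖p‖ := hp.trans ((le_abs_self _).trans (norm_fst_le p))
  refine (hC p hpne).trans ?_
  gcongr

lemma norm_fderiv_iter (n : ℕ) (f : ℝ × Sp d → ℝ) (p : ℝ × Sp d) :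
    ‖fderiv ℝ (iteratedFDeriv ℝ n f) p‖ = ‖iteratedFDeriv ℝ (n + 1) f p‖ := by
  rw [norm_fderiv_iteratedFDeriv]

lemma kq_fderiv_cont (n : ℕ) :
    ContinuousOn (fderiv ℝ (iteratedFDeriv ℝ n (kq d))) (UU d) := by
  intro p hp
  have h1 : ContDiffAt ℝ ∞ (kq d) p :=
    (kq_smooth (d := d)).contDiffAt (isOpen_compl_singleton.mem_nhds (UU_sub hp))
  have h2 : ContDiffAt ℝ 1 (iteratedFDeriv ℝ n (kq d)) p := by
    have h3 : ContDiffAt ℝ ((n + 1 : ℕ) : ℕ∞) (kq d) p := h1.of_le (by exact_mod_cast le_top)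
    exact h3.iteratedFDeriv_right (by norm_cast; omega)
  have h4 : ContDiffAt ℝ 0 (fderiv ℝ (iteratedFDeriv ℝ n (kq d))) p :=
    h2.fderiv_right (by norm_num)
  exact h4.continuousAt.continuousWithinAt

/-- the derivatives of the potential -/
lemma th_iter (hd : 1 ≤ d) (μ : Measure (Sp d)) [IsFiniteMeasure μ] (n : ℕ) :
    (∀ p ∈ UU d, Integrable (fun η => iteratedFDeriv ℝ n (kq d) (p - (0, η))) μ) ∧
    (∀ p ∈ UU d, iteratedFDeriv ℝ n (fun q : ℝ × Sp d => th μ q.1 q.2) p =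
      ∫ η, iteratedFDeriv ℝ n (kq d) (p - (0, η)) ∂μ) ∧
    (∀ p ∈ UU d, DifferentiableAt ℝ
      (iteratedFDeriv ℝ n (fun q : ℝ × Sp d => th μ q.1 q.2)) p) := by
  have hI : ∀ m : ℕ, ∀ p ∈ UU d,
      Integrable (fun η => iteratedFDeriv ℝ m (kq d) (p - (0, η))) μ := by
    intro m p hp
    obtain ⟨B, hB⟩ := kq_bd hd m p.1 hp
    refine Integrable.mono' (integrable_const B) ?_ ?_
    · have hcG : ContinuousOn (iteratedFDeriv ℝ m (kq d)) (UU d) :=
        fun p hp => (kq_diff m hp).continuousAt.continuousWithinAt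
      exact (hcG.comp_continuous (by fun_prop) (fun η => mem_UU_sub hp η)).aestronglyMeasurable
    · filter_upwards with η
      exact hB _ (by simp)
  have hb1 : ∀ m : ℕ, ∀ t0 : ℝ, 0 < t0 → ∃ B, ∀ p : ℝ × Sp d, t0 ≤ p.1 →
      ‖fderiv ℝ (iteratedFDeriv ℝ m (kq d)) p‖ ≤ B := by
    intro m t0 ht0
    obtain ⟨B, hB⟩ := kq_bd hd (m + 1) t0 ht0
    exact ⟨B, fun q hq => by rw [norm_fderiv_iter]; exact hB q hq⟩
  have hpar := fun (m : ℕ) (p : ℝ × Sp d) (hp : p ∈ UU d) =>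
    par_deriv μ (iteratedFDeriv ℝ m (kq d)) (fun q hq => kq_diff m hq) (kq_fderiv_cont m)
      (kq_bd hd m) (hb1 m) hp
  have hE : ∀ m : ℕ, ∀ p ∈ UU d, iteratedFDeriv ℝ m (fun q : ℝ × Sp d => th μ q.1 q.2) p =
      ∫ η, iteratedFDeriv ℝ m (kq d) (p - (0, η)) ∂μ := by
    intro m
    induction m with
    | zero =>
      intro p hp
      ext v
      rw [iteratedFDeriv_zero_apply, ContinuousMultilinearMap.integral_apply]
      · simp only [iteratedFDeriv_zero_apply]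
        unfold th
        apply integral_congr_ae
        filter_upwards with η
        simp [kq]
      · exact hI 0 p hp
    | succ m ih =>
      intro p hp
      have hev : iteratedFDeriv ℝ m (fun q : ℝ × Sp d => th μ q.1 q.2) =ᶠ[nhds p]
          fun p => ∫ η, iteratedFDeriv ℝ m (kq d) (p - (0, η)) ∂μ := by
        filter_upwards [isOpen_UU.mem_nhds hp] with q hq
        exact ih q hq
      rw [iteratedFDeriv_succ_eq_comp_left, Function.comp_apply, hev.fderiv_eq,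
        (hpar m p hp).2.fderiv]
      have h1 : ∀ η : Sp d, iteratedFDeriv ℝ (m + 1) (kq d) (p - (0, η)) =
          (continuousMultilinearCurryLeftEquiv ℝ (fun _ : Fin (m + 1) => ℝ × Sp d) ℝ).symm
            (fderiv ℝ (iteratedFDeriv ℝ m (kq d)) (p - (0, η))) := by
        intro η
        rw [iteratedFDeriv_succ_eq_comp_left]; rfl
      simp only [h1]
      let L : ((ℝ × Sp d) →L[ℝ] ((ℝ × Sp d) [×m]→L[ℝ] ℝ)) →L[ℝ] ((ℝ × Sp d) [×(m + 1)]→L[ℝ] ℝ) :=
        ((continuousMultilinearCurryLeftEquiv ℝ (fun _ : Fin (m + 1) => ℝ × Sp d) ℝ).symm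
          ).toContinuousLinearEquiv.toContinuousLinearMap
      exact (L.integral_comp_comm (hpar m p hp).1).symm
  refine ⟨hI n, hE n, ?_⟩
  intro p hp
  have hev : iteratedFDeriv ℝ n (fun q : ℝ × Sp d => th μ q.1 q.2) =ᶠ[nhds p]
      fun p => ∫ η, iteratedFDeriv ℝ n (kq d) (p - (0, η)) ∂μ := by
    filter_upwards [isOpen_UU.mem_nhds hp] with q hq
    exact hE n q hq
  exact ((hpar n p hp).2.differentiableAt).congr_of_eventuallyEq hev

lemma th_smooth (hd : 1 ≤ d) (μ : Measure (Sp d)) [IsFiniteMeasure μ] :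
    ContDiffOn ℝ ∞ (fun q : ℝ × Sp d => th μ q.1 q.2) (UU d) := by
  refine contDiffOn_of_differentiableOn (n := (⊤ : ℕ∞)) ?_
  intro m _
  have h1 : DifferentiableOn ℝ (iteratedFDeriv ℝ m (fun q : ℝ × Sp d => th μ q.1 q.2)) (UU d) :=
    fun p hp => ((th_iter hd μ m).2.2 p hp).differentiableWithinAt
  exact h1.congr (fun p hp => iteratedFDerivWithin_of_isOpen m isOpen_UU hp)

lemma th_bound (hd : 1 ≤ d) (n : ℕ) : ∃ C, 1 ≤ C ∧ ∀ (μ : Measure (Sp d)) [IsFiniteMeasure μ],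
    ∀ p ∈ UU d, ‖iteratedFDeriv ℝ n (fun q : ℝ × Sp d => th μ q.1 q.2) p‖ ≤
      C * th μ p.1 p.2 / p.1 ^ n := by
  obtain ⟨C, hC1, hC⟩ := kq_iter' (d := d) hd n
  refine ⟨C, hC1, ?_⟩
  intro μ _ p hp
  rw [(th_iter hd μ n).2.1 p hp]
  have hint : Integrable (fun η => C / p.1 ^ n * kk p.1 (p.2 - η)) μ :=
    (kk_int hd μ hp p.2).const_mul _
  refine (norm_integral_le_of_norm_le hint ?_).trans (le_of_eq ?_)
  · filter_upwards with η
    have h1 := hC (p - (0, η)) (mem_UU_sub hp η)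
    refine h1.trans (le_of_eq ?_)
    simp only [kq, Prod.fst_sub, Prod.snd_sub, sub_zero]
    ring
  · rw [integral_const_mul]
    unfold th
    ring

/-! ### The square root -/

lemma sqrt_bd (n : ℕ) : ∃ C, 1 ≤ C ∧ ∀ i ≤ n,
    ‖iteratedFDerivWithin ℝ i Real.sqrt (Ioi 0) 1‖ ≤ C := by
  refine ⟨1 + ∑ i ∈ Finset.range (n + 1), ‖iteratedFDerivWithin ℝ i Real.sqrt (Ioi 0) 1‖, ?_, ?_⟩
  · have : 0 ≤ ∑ i ∈ Finset.range (n + 1), ‖iteratedFDerivWithin ℝ i Real.sqrt (Ioi 0) 1‖ :=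
      Finset.sum_nonneg (fun _ _ => norm_nonneg _)
    linarith
  · intro i hi
    have := Finset.single_le_sum (f := fun i => ‖iteratedFDerivWithin ℝ i Real.sqrt (Ioi 0) 1‖)
      (fun _ _ => norm_nonneg _) (Finset.mem_range.mpr (Nat.lt_succ_of_le hi))
    linarith

lemma sqrt_smooth : ContDiffOn ℝ ∞ Real.sqrt (Ioi 0) := by
  intro x hx
  exact (Real.contDiffAt_sqrt (ne_of_gt hx)).contDiffWithinAt

lemma vv_smooth (hd : 1 ≤ d) (μ : Measure (Sp d)) [IsFiniteMeasure μ] (hμ : μ ≠ 0) :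
    ContDiffOn ℝ ∞ (fun q : ℝ × Sp d => vv μ q.1 q.2) (UU d) := by
  unfold vv
  exact (th_smooth hd μ).sqrt (fun p hp => (th_pos hd μ hμ hp p.2).ne')

lemma vv_bound (hd : 1 ≤ d) (n : ℕ) : ∃ C, 1 ≤ C ∧ ∀ (μ : Measure (Sp d)) [IsFiniteMeasure μ],
    μ ≠ 0 → ∀ p ∈ UU d, ‖iteratedFDeriv ℝ n (fun q : ℝ × Sp d => vv μ q.1 q.2) p‖ ≤
      C * vv μ p.1 p.2 / p.1 ^ n := by
  have h1 : ∃ D : ℝ, 1 ≤ D ∧ ∀ i ≤ n, ∀ (μ : Measure (Sp d)) [IsFiniteMeasure μ],
      ∀ p ∈ UU d, ‖iteratedFDeriv ℝ i (fun q : ℝ × Sp d => th μ q.1 q.2) p‖ ≤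
      D * th μ p.1 p.2 / p.1 ^ i := by
    choose D hD1 hD using fun i => th_bound (d := d) hd i
    refine ⟨1 + ∑ i ∈ Finset.range (n + 1), D i, ?_, ?_⟩
    · have : 0 ≤ ∑ i ∈ Finset.range (n + 1), D i :=
        Finset.sum_nonneg (fun i _ => zero_le_one.trans (hD1 i))
      linarith
    · intro i hi μ _ p hp
      refine (hD i μ p hp).trans ?_
      have hle : D i ≤ 1 + ∑ i ∈ Finset.range (n + 1), D i := by
        have := Finset.single_le_sum (f := D)
          (fun i _ => zero_le_one.trans (hD1 i)) (Finset.mem_range.mpr (Nat.lt_succ_of_le hi))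
        linarith
      have hth : 0 ≤ th μ p.1 p.2 := integral_nonneg (fun η => kk_nonneg hp _)
      have hp1 : 0 < p.1 := hp
      gcongr
  obtain ⟨D, hD1, hD⟩ := h1
  obtain ⟨B, hB1, hB⟩ := sqrt_bd n
  refine ⟨n.factorial * B * D ^ n, ?_, ?_⟩
  · have h2 : (1 : ℝ) ≤ n.factorial := by exact_mod_cast Nat.one_le_iff_ne_zero.mpr n.factorial_ne_zero
    have h3 : (1 : ℝ) ≤ D ^ n := one_le_pow₀ hD1
    have h4 : (1 : ℝ) ≤ n.factorial * B := one_le_mul_of_one_le_of_one_le h2 hB1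
    exact one_le_mul_of_one_le_of_one_le h4 h3
  · intro μ _ hμ p hp
    have hp1 : 0 < p.1 := hp
    have hn0 : (n : ℕ∞ω) ≤ ∞ := by exact_mod_cast le_top
    set a := th μ p.1 p.2 with ha
    have hapos : 0 < a := th_pos hd μ hμ hp p.2
    set f : ℝ × Sp d → ℝ := a⁻¹ • (fun q : ℝ × Sp d => th μ q.1 q.2) with hf
    have hfs : ContDiffOn ℝ ∞ f (UU d) := (th_smooth hd μ).const_smul a⁻¹
    have hfp : f p = 1 := by
      rw [hf, Pi.smul_apply, smul_eq_mul, ← ha, inv_mul_cancel₀ hapos.ne']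
    have hmaps : MapsTo f (UU d) (Ioi 0) := by
      intro q hq
      rw [mem_Ioi, hf, Pi.smul_apply, smul_eq_mul]
      exact mul_pos (inv_pos.mpr hapos) (th_pos hd μ hμ hq q.2)
    have key := norm_iteratedFDerivWithin_comp_le (𝕜 := ℝ) (g := Real.sqrt) (f := f) (n := n)
      (s := UU d) (t := Ioi 0) (x := p) (N := ∞) sqrt_smooth hfs hn0 isOpen_Ioi.uniqueDiffOn
      isOpen_UU.uniqueDiffOn hmaps hp (C := B) (D := D / p.1) (by
        intro i hi
        rw [hfp]
        exact hB i hi) (by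
        intro i hi1 hi
        have hw : ContDiffWithinAt ℝ i (fun q : ℝ × Sp d => th μ q.1 q.2) (UU d) p :=
          ((th_smooth hd μ) p hp).of_le (by exact_mod_cast le_top)
        rw [hf, iteratedFDerivWithin_const_smul_apply hw isOpen_UU.uniqueDiffOn hp,
          iteratedFDerivWithin_of_isOpen i isOpen_UU hp, norm_smul,
          Real.norm_of_nonneg (inv_pos.mpr hapos).le]
        calc a⁻¹ * ‖iteratedFDeriv ℝ i (fun q : ℝ × Sp d => th μ q.1 q.2) p‖
            ≤ a⁻¹ * (D * a / p.1 ^ i) := by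
              gcongr
              exact hD i hi μ p hp
          _ = D / p.1 ^ i := by
              field_simp
          _ ≤ (D / p.1) ^ i := by
              rw [div_pow]
              gcongr
              exact le_self_pow₀ hD1 (by omega))
    have hv : (fun q : ℝ × Sp d => vv μ q.1 q.2) = Real.sqrt a • (Real.sqrt ∘ f) := by
      funext q
      rw [Pi.smul_apply, Function.comp_apply, smul_eq_mul, hf, Pi.smul_apply, smul_eq_mul,
        ← Real.sqrt_mul hapos.le, mul_inv_cancel_left₀ hapos.ne']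
      rfl
    have hcomp : ContDiffOn ℝ ∞ (Real.sqrt ∘ f) (UU d) := sqrt_smooth.comp hfs hmaps
    rw [hv, ← iteratedFDerivWithin_of_isOpen n isOpen_UU hp,
      iteratedFDerivWithin_const_smul_apply ((hcomp p hp).of_le hn0) isOpen_UU.uniqueDiffOn hp,
      norm_smul, Real.norm_of_nonneg (Real.sqrt_nonneg a)]
    calc Real.sqrt a * ‖iteratedFDerivWithin ℝ n (Real.sqrt ∘ f) (UU d) p‖
        ≤ Real.sqrt a * (n.factorial * B * (D / p.1) ^ n) := by gcongr
      _ = n.factorial * B * D ^ n * vv μ p.1 p.2 / p.1 ^ n := by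
          rw [div_pow]
          change _ = n.factorial * B * D ^ n * Real.sqrt (th μ p.1 p.2) / p.1 ^ n
          rw [← ha]
          ring

end THm

open THm in
theorem stmtTH : StmtTH := by
  intro d J hd C' hC'
  have hd1 : 1 ≤ d := by omega
  choose D hD1 hD using fun i => vv_bound (d := d) hd1 i
  set S : ℝ := ∑ i ∈ Finset.range (J + 1), D i with hS
  have hS0 : 0 ≤ S := Finset.sum_nonneg (fun i _ => zero_le_one.trans (hD1 i))
  refine ⟨C' * 2 ^ d + S + 8 ^ (d + 1), by positivity, ?_⟩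
  intro μ hμ
  have := hμ.fin
  refine ⟨?_, vv_smooth hd1 μ hμ.ne, ?_, ?_, ?_⟩
  · intro t x ht
    refine ⟨th_pos hd1 μ hμ.ne ht x, (th_le hd1 hC' μ hμ.gro ht x).trans ?_⟩
    have : (0 : ℝ) ≤ 8 ^ (d + 1) := by positivity
    linarith
  · intro t x j ht hj
    refine (hD j μ hμ.ne (t, x) ht).trans ?_
    have hle : D j ≤ C' * 2 ^ d + S + 8 ^ (d + 1) := by
      have h1 := Finset.single_le_sum (f := D)
        (fun i _ => zero_le_one.trans (hD1 i)) (Finset.mem_range.mpr (Nat.lt_succ_of_le hj))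
      have h2 : (0 : ℝ) ≤ 8 ^ (d + 1) := by positivity
      have h3 : (0 : ℝ) ≤ C' * 2 ^ d := by positivity
      linarith
    have hvn : 0 ≤ vv μ t x := Real.sqrt_nonneg _
    change D j * vv μ t x / t ^ j ≤ _
    gcongr
  · intro t x x' ht
    unfold th
    rw [← integral_const_mul]
    apply integral_mono (kk_int hd1 μ ht x') ((kk_int hd1 μ ht x).const_mul _)
    intro η
    have := kk_harnack ht (x - η) (x' - η)
    have h2 : x - η - (x' - η) = x - x' := by abel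
    rw [h2] at this
    exact this
  · intro s t x ht hs1 hs2
    have hs : 0 < s := lt_of_lt_of_le (by positivity) hs1
    have h1 : th μ s x ≤ 8 ^ (d + 1) * th μ t x := by
      unfold th
      rw [← integral_const_mul]
      apply integral_mono (kk_int hd1 μ hs x) ((kk_int hd1 μ ht x).const_mul _)
      intro η
      exact kk_time ht hs1 hs2 _
    have h2 : 0 ≤ th μ t x := (th_pos hd1 μ hμ.ne ht x).le
    have h3 : (0 : ℝ) ≤ C' * 2 ^ d := by positivity
    refine h1.trans ?_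
    gcongr
    linarith

end

end TG
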