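import Pool.Agent.TG.Stmts1

/-!
# Trace inequality, general operators: sections 6 (far function), 10

Definitions and module statements, unit scale.  No double quotes.
-/

open MeasureTheory Metric Set TrI
open scoped InnerProductSpace ContDiff

namespace TG

noncomputable section

variable {d : ℕ}

/-! ## Section 6: the far function and the matrix field -/

/-- cut-off on the line: 1 for r ≤ 1/2, 0 for r ≥ 1; a square, hence |cut'|² ≤ C cut -/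
def cut (r : ℝ) : ℝ := Real.smoothTransition (2 - 2 * r) ^ 2

/-- near fraction of the posterior distribution at height t and position x -/
def qq (A : ℝ) (μ : Measure (Sp d)) (t : ℝ) (x : Sp d) : ℝ :=
  (∫ η, cut (‖x - η‖ / (A * t)) * kk t (x - η) ∂μ) / th μ t x

/-- the function Υ: 0 where q ≤ p0/2, 1 where q ≥ p0 -/
def Ups (p0 A : ℝ) (μ : Measure (Sp d)) (t : ℝ) (x : Sp d) : ℝ :=
  Real.smoothTransition (2 * qq A μ t x / p0 - 1)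

/-- H_n = nᵀ HH n -/
def Hn (β : Sp d → ℝ) (ε p0 A : ℝ) (μ : Measure (Sp d)) (n : Sp d) (t : ℝ) (y : Sp d) : ℝ :=
  Ups p0 A μ t y * gn β ε μ n t y + (1 - Ups p0 A μ t y) * GG β ε μ t y
    - ⟪tang n (gradient (Ups p0 A μ t) y), tang n (gradient (WW β ε μ t) y)⟫_ℝ

/-- cut-off of the ball: 1 on the ball of radius R, 0 off the ball of radius R + 1 -/
def zR (R : ℝ) (x : Sp d) : ℝ := Real.smoothTransition (R + 1 - ‖x‖)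

/-! ## Section 10 -/

/-- the constants p0, A, c of the far region: (6.2), (10.1) -/
structure FarK (d J : ℕ) (M C' ε p0 A c : ℝ) : Prop where
  p0_pos : 0 < p0
  p0_le : p0 ≤ 1
  A_ge : 1 ≤ A
  c_pos : 0 < c
  gain : ∀ β : Sp d → ℝ, Kit J M β → ∀ μ : Measure (Sp d), Gro C' μ → ∀ n : Sp d, ‖n‖ = 1 →
    ∀ y : Sp d, c * XX β ε μ n 1 y ≤ Hn β ε p0 A μ n 1 y
  far : ∀ β : Sp d → ℝ, Kit J M β → ∀ μ : Measure (Sp d), Gro C' μ → ∀ n : Sp d, ‖n‖ = 1 →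
    ∀ y : Sp d, qq A μ 1 y ≤ p0 →
      c * vv μ 1 y ≤ Hn β ε p0 A μ n 1 y ∧ c * vv μ 1 y ≤ GG β ε μ 1 y
  farX : ∀ β : Sp d → ℝ, Kit J M β → ∀ μ : Measure (Sp d), Gro C' μ → ∀ n : Sp d, ‖n‖ = 1 →
    ∀ y : Sp d, qq A μ 1 y ≤ p0 → c * vv μ 1 y ≤ XX β ε μ n 1 y

/-- MODULE FA (10.1): existence of the far constants -/
def StmtFA : Prop :=
  ∀ (d J : ℕ), 2 ≤ d → 6 ≤ J → ∀ M : ℝ, ∃ ε0 : ℝ, 0 < ε0 ∧ ∀ ε : ℝ, 0 < ε → ε ≤ ε0 →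
    ∀ C' : ℝ, 0 < C' → ∃ (p0 A c : ℝ), FarK d J M C' ε p0 A c

/-- MODULE UB: smoothness and simple bounds of W, G (all derivatives fall on v: no kernel
smoothness is used, J is arbitrary), q, Υ, H_n and comparison of v with μ near x -/
def StmtUB : Prop :=
  ∀ (d J : ℕ), 2 ≤ d → ∀ (M C' ε p0 A : ℝ), 0 < C' → 0 < ε → ε ≤ 1 → 0 < p0 → p0 ≤ 1 → 1 ≤ A →
    ∃ C : ℝ, 0 < C ∧ ∀ β : Sp d → ℝ, Kit 4 M β → ∀ μ : Measure (Sp d), Gro C' μ →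
      ContDiff ℝ ∞ (WW β ε μ 1) ∧ ContDiff ℝ ∞ (GG β ε μ 1) ∧
      (∀ j ≤ J, ∀ y, ‖iteratedFDeriv ℝ j (WW β ε μ 1) y‖ ≤ C * vv μ 1 y) ∧
      (∀ j ≤ J, ∀ y, ‖iteratedFDeriv ℝ j (GG β ε μ 1) y‖ ≤ C * vv μ 1 y) ∧
      (∀ y, 0 ≤ qq A μ 1 y ∧ qq A μ 1 y ≤ 1) ∧
      ContDiff ℝ ∞ (qq A μ 1) ∧ (∀ j ≤ J, ∀ y, ‖iteratedFDeriv ℝ j (qq A μ 1) y‖ ≤ C) ∧
      ContDiff ℝ ∞ (Ups p0 A μ 1) ∧ (∀ j ≤ J, ∀ y, ‖iteratedFDeriv ℝ j (Ups p0 A μ 1) y‖ ≤ C) ∧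
      (∀ n : Sp d, ‖n‖ = 1 → ContDiff ℝ ∞ (Hn β ε p0 A μ n 1) ∧
        ∀ j ≤ J, ∀ y, ‖iteratedFDeriv ℝ j (Hn β ε p0 A μ n 1) y‖ ≤ C * vv μ 1 y) ∧
      (∀ y, p0 / 2 ≤ qq A μ 1 y → vv μ 1 y ^ 2 ≤ C * (μ (ball y A)).toReal) ∧
      (∀ (y : Sp d) (r : ℝ), 1 ≤ r → (μ (ball y r)).toReal ≤ C * r ^ (d + 1) * vv μ 1 y ^ 2)

/-- MODULE UU (10.2): two planes with small gains are close to each other -/
def StmtUU : Prop :=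
  ∀ (d J : ℕ), 2 ≤ d → 6 ≤ J → ∀ (M C' ε p0 A c R0 : ℝ), 0 < C' → 0 < ε → ε ≤ 1 / 4 →
    FarK d J M C' ε p0 A c → 4 * A + 4 * d + 20 ≤ R0 → ∃ CU : ℝ, 0 < CU ∧
    ∀ β : Sp d → ℝ, Kit J M β → ∀ μ : Measure (Sp d), Gro C' μ →
    ∀ (n n' : Sp d) (s s' : ℝ), ‖n‖ = 1 → ‖n'‖ = 1 → |s| ≤ R0 + 1 → |s'| ≤ R0 + 1 →
      vv μ 1 0 * plInt n s (fun x => zR R0 x * (⟪n', x⟫_ℝ - s') ^ 2) ≤
        CU * (plInt n s (fun x => zR (2 * R0 - 1) x * Hn β ε p0 A μ n 1 x)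
          + plInt n' s' (fun x => zR (2 * R0 - 1) x * Hn β ε p0 A μ n' 1 x))

/-- MODULE FG: if the plane stays at distance at least R0 from the near part of μ then the gain on
the plane at the scale 128 is large (case A2 with i = 7) -/
def StmtFG : Prop :=
  ∀ (d : ℕ), 2 ≤ d → ∀ (M C' ε p0 A Ra : ℝ), 0 < C' → 0 < ε → ε ≤ 1 / 4 → 0 < p0 → p0 ≤ 1 →
    1 ≤ A → 0 < Ra → ∃ i0 : ℝ, 0 < i0 ∧
    ∀ β : Sp d → ℝ, Kit 10 M β → ∀ μ : Measure (Sp d), Gro C' μ →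
    ∀ (n : Sp d) (s : ℝ), ‖n‖ = 1 → A + d + 1 ≤ |s| → |s| ≤ Ra →
      (∃ y : Sp d, ‖y‖ ≤ d ∧ p0 / 2 ≤ qq A μ 1 y) →
      i0 * vv μ 1 0 ≤ plInt n s (fun x => zR (Ra + 1) x * XX β ε μ n (2 ^ 7) x)

/-- MODULE IN (10.3), (10.4): small gains on the plane at the scales 1, ..., 2^I force small
tangential gradients near the plane, wherever the posterior has a near part -/
def StmtIN : Prop :=
  ∀ (d : ℕ), 2 ≤ d → ∀ (M C' ε p0 A R0 i1 : ℝ), 0 < C' → 0 < ε → ε ≤ 1 / 4 → 0 < p0 → p0 ≤ 1 →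
    1 ≤ A → 4 * A + 4 * d + 20 ≤ R0 → 0 < i1 → ∃ (I : ℕ) (i0 : ℝ), 8 * A ≤ 2 ^ I ∧ 2 ^ I ≤ 32 * A ∧ 0 < i0 ∧
    ∀ β : ℕ → Sp d → ℝ, (∀ i, Kit 10 M (β i)) → ∀ μ : Measure (Sp d), Gro C' μ →
    ∀ (n : Sp d) (s : ℝ), ‖n‖ = 1 → |s| ≤ 3 / 2 * R0 →
      (∀ i ≤ I, plInt n s (fun x => zR (2 * R0 - 1) x * XX (β i) ε μ n (2 ^ i) x) ≤
        i0 * vv μ 1 0) →
      ∀ x : Sp d, ‖x‖ ≤ R0 → p0 / 2 ≤ qq A μ 1 x →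
        |⟪n, x⟫_ℝ - s| ≤ A + 1 ∧ tav (Mo μ n s 2) 1 x ≤ i1 * vv μ 1 0 ∧
        ∀ j ≤ 3, ‖iteratedFDeriv ℝ j
          (fun y => tang n (gradient (WW (β 0) ε μ 1) y)) x‖ ≤ i1 * vv μ 1 0

end

end TG
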