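import Pool.Agent.TG.WA
import Pool.Agent.TG.Stmts10

/-!
# MODULE UB: smoothness and simple bounds of W, G, q, Υ and H_n

All derivatives fall on v, no smoothness of the kernel is used.
-/

open MeasureTheory Metric Set Filter Topology TrI
open scoped InnerProductSpace ContDiff

set_option linter.unusedSectionVars false

namespace TG

noncomputable section

namespace UB

/-! ## composition with a function of one variable -/

section comp

variable {ι P : Type*} [NormedAddCommGroup P] [NormedSpace ℝ P] {U : Set P}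

theorem comp1 (hU : IsOpen U) {N : ℕ} {f : ι → P → ℝ} (hf : BdN N U (fun _ _ => (1 : ℝ)) f) :
    ∀ φ : ℝ → ℝ, ContDiff ℝ ∞ φ → BdN N U (fun _ _ => (1 : ℝ)) (fun i p => φ (f i p)) := by
  obtain ⟨C, hC, h0⟩ := hf.zeroth
  have hz : ∀ φ : ℝ → ℝ, Continuous φ → ∃ B : ℝ, 0 ≤ B ∧ ∀ i, ∀ p ∈ U, ‖φ (f i p)‖ ≤ B * 1 := by
    intro φ hφ
    obtain ⟨B, hB⟩ := isCompact_Icc.exists_bound_of_continuousOn (s := Icc (-C) C)
      hφ.continuousOn
    refine ⟨max B 0, le_max_right _ _, fun i p hp => ?_⟩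
    have h1 := h0 i p hp
    rw [mul_one, Real.norm_eq_abs] at h1
    rw [mul_one]
    exact (hB _ ⟨by linarith [neg_abs_le (f i p)], by linarith [le_abs_self (f i p)]⟩).trans
      (le_max_left _ _)
  have hs : ∀ φ : ℝ → ℝ, ContDiff ℝ ∞ φ → ∀ i, ContDiffOn ℝ ∞ (fun p => φ (f i p)) U :=
    fun φ hφ i => hφ.comp_contDiffOn (hf.smooth i)
  induction N with
  | zero =>
    intro φ hφ
    obtain ⟨B, hB, h1⟩ := hz φ hφ.continuous
    refine ⟨hs φ hφ, B, hB, fun i p hp j hj => ?_⟩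
    obtain rfl : j = 0 := by omega
    rw [norm_iteratedFDeriv_zero]
    exact h1 i p hp
  | succ N ih =>
    intro φ hφ
    obtain ⟨B, hB, h1⟩ := hz φ hφ.continuous
    have hφ' : ContDiff ℝ ∞ (deriv φ) := (contDiff_infty_iff_deriv.1 hφ).2
    have h2 := (ih (hf.of_le (Nat.le_succ N)) (deriv φ) hφ').smul hU (hf.D hU)
    have h3 : BdN N U (fun (_ : ι) _ => (1 : ℝ)) (fun i => fderiv ℝ (fun p => φ (f i p))) := by
      refine (h2.mono (B := 1) (w' := fun (_ : ι) _ => (1 : ℝ)) zero_le_one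
        (fun i p hp => by norm_num)).congr hU (fun i p hp => ?_)
      have hd : DifferentiableAt ℝ (f i) p :=
        ((hf.smooth i).contDiffAt (hU.mem_nhds hp)).differentiableAt (by norm_num)
      have hφd : HasDerivAt φ (deriv φ (f i p)) (f i p) :=
        (hφ.differentiable (by norm_num)).differentiableAt.hasDerivAt
      exact (hφd.comp_hasFDerivAt p hd.hasFDerivAt).fderiv
    exact BdN.of_fderiv (hs φ hφ) h3 hB (fun _ _ _ => zero_le_one) h1

end comp

variable {ι : Type*} {d : ℕ}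

/-! ## the cut-off -/

lemma cut_nonneg (r : ℝ) : 0 ≤ cut r := sq_nonneg _

lemma cut_le_one (r : ℝ) : cut r ≤ 1 := by
  unfold cut
  have h1 := Real.smoothTransition.le_one (2 - 2 * r)
  have h2 := Real.smoothTransition.nonneg (2 - 2 * r)
  nlinarith

lemma cut_one {r : ℝ} (h : r ≤ 1 / 2) : cut r = 1 := by
  unfold cut
  rw [Real.smoothTransition.one_of_one_le (by linarith), one_pow]

lemma cut_zero {r : ℝ} (h : 1 ≤ r) : cut r = 0 := by
  unfold cut
  rw [Real.smoothTransition.zero_of_nonpos (by linarith)]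
  norm_num

lemma cut_smooth : ContDiff ℝ ∞ cut := by
  unfold cut
  exact (Real.smoothTransition.contDiff.comp (contDiff_const.sub
    (contDiff_const.mul contDiff_id))).pow 2

/-- the cut-off of the ball of radius A -/
def cA (A : ℝ) (x : Sp d) : ℝ := cut (‖x‖ / A)

lemma cA_smooth {A : ℝ} (hA : 0 < A) : ContDiff ℝ ∞ (cA A : Sp d → ℝ) := by
  rw [contDiff_iff_contDiffAt]
  intro x
  by_cases hx : x = 0
  · subst hx
    have h1 : (cA A : Sp d → ℝ) =ᶠ[𝓝 0] fun _ => 1 := by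
      filter_upwards [ball_mem_nhds (0 : Sp d) (by positivity : (0 : ℝ) < A / 2)] with y hy
      rw [mem_ball, dist_zero_right] at hy
      refine cut_one ?_
      rw [div_le_iff₀ hA]
      linarith
    exact contDiffAt_const.congr_of_eventuallyEq h1
  · exact cut_smooth.contDiffAt.comp x ((contDiffAt_norm ℝ hx).div_const A)

lemma cA_cs {A : ℝ} (hA : 0 < A) : HasCompactSupport (cA A : Sp d → ℝ) := by
  refine HasCompactSupport.intro (isCompact_closedBall (0 : Sp d) A) fun y hy => ?_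
  rw [mem_closedBall, dist_zero_right, not_le] at hy
  exact cut_zero ((one_le_div₀ hA).2 hy.le)

lemma cA_bd {A : ℝ} (hA : 0 < A) (N : ℕ) :
    BdN N univ (fun (_ : ι) _ => (1 : ℝ)) (fun (_ : ι) (x : Sp d) => cA A x) := by
  have hs : ContDiff ℝ ∞ (cA A : Sp d → ℝ) := cA_smooth hA
  have h1 : ∀ j : ℕ, ∃ B : ℝ, ∀ x, ‖iteratedFDeriv ℝ j (cA A : Sp d → ℝ) x‖ ≤ B := fun j =>
    (hs.continuous_iteratedFDeriv (by exact_mod_cast le_top)).bounded_above_of_compact_support
      ((cA_cs hA).iteratedFDeriv j)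
  choose B hB using h1
  refine ⟨fun _ => hs.contDiffOn, ∑ j ∈ Finset.range (N + 1), |B j|,
    Finset.sum_nonneg fun _ _ => abs_nonneg _, fun i x _ j hj => ?_⟩
  rw [mul_one]
  exact ((hB j x).trans (le_abs_self _)).trans
    (Finset.single_le_sum (f := fun j => |B j|) (fun _ _ => abs_nonneg _)
      (Finset.mem_range.2 (by omega)))

/-- the kernel of q -/
def qk (A : ℝ) (_ : ι) (p : ℝ × Sp d) : ℝ := cA A p.2 * kk p.1 p.2

lemma qk_bd {A : ℝ} (hA : 0 < A) (N : ℕ) :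
    BdN N (SL d) (fun (_ : ι) p => kk p.1 p.2) (qk A) := by
  have h1 : BdN N (SL d) (fun (_ : ι) _ => (1 : ℝ)) (fun (_ : ι) (p : ℝ × Sp d) => cA A p.2) := by
    obtain ⟨C, hC, h2⟩ := (cA_bd (ι := ι) (d := d) hA N).bd
    refine ⟨fun _ => ((cA_smooth hA).comp contDiff_snd).contDiffOn, C, hC,
      fun i p hp j hj => ?_⟩
    have h3 := (ContinuousLinearMap.snd ℝ ℝ (Sp d)).iteratedFDeriv_comp_right
      (f := (cA A : Sp d → ℝ)) (cA_smooth hA) p (i := j) (by exact_mod_cast le_top)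
    have h4 : ((cA A : Sp d → ℝ) ∘ (ContinuousLinearMap.snd ℝ ℝ (Sp d))) =
        fun p : ℝ × Sp d => cA A p.2 := rfl
    rw [h4] at h3
    rw [h3]
    refine (ContinuousMultilinearMap.norm_compContinuousLinearMap_le _ _).trans ?_
    rw [Finset.prod_const, Finset.card_univ, Fintype.card_fin]
    have h5 : ‖ContinuousLinearMap.snd ℝ ℝ (Sp d)‖ ^ j ≤ 1 :=
      pow_le_one₀ (norm_nonneg _) (ContinuousLinearMap.norm_snd_le ℝ ℝ (Sp d))
    have h6 := h2 i p.2 (mem_univ _) j hj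
    calc _ ≤ ‖iteratedFDeriv ℝ j (cA A : Sp d → ℝ) p.2‖ * 1 :=
          mul_le_mul_of_nonneg_left h5 (norm_nonneg _)
      _ ≤ _ := by rw [mul_one]; exact h6
  exact ((h1.mul isOpen_SL (kk_bd N)).mono (B := 1) (w' := fun (_ : ι) p => kk p.1 p.2)
    zero_le_one (fun i p hp => by rw [one_mul]))

section main

variable (h : StmtTH) (hd : 2 ≤ d) {C' : ℝ} (hC' : 0 < C') {μ : ι → Measure (Sp d)}
    (hμ : ∀ i, Gro C' (μ i)) (N : ℕ) {J : ℕ} {M ε p0 A : ℝ} (hε0 : 0 < ε) (hε : ε ≤ 1)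
    (hp0 : 0 < p0) (hA : 0 < A)
    {β : ι → Sp d → ℝ} (hβ : ∀ i, Kit J M (β i)) {n : ι → Sp d} (hn : ∀ i, ‖n i‖ = 1)

include h hd hC' hμ

lemma th_pos (i : ι) {t : ℝ} (ht : 0 < t) (y : Sp d) : 0 < th (μ i) t y := by
  obtain ⟨C, hC, h1⟩ := h d 0 hd C' hC'
  exact ((h1 (μ i) (hμ i)).1 t y ht).1

/-- q at time one -/
theorem qq_bd (hA : 0 < A) :
    BdN N univ (fun (_ : ι) _ => (1 : ℝ)) (fun i => qq A (μ i) 1) := by
  have h1 := pot_bd hμ (N := N) (q := qk A) (fun N' => qk_bd hA N')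
  have h2 : BdN N (SL d) (fun i p => th (μ i) p.1 p.2) (fun i p => th (μ i) p.1 p.2) :=
    pot_bd hμ (N := N) (q := fun (_ : ι) p => kk p.1 p.2) (fun N' => kk_bd N')
  have hpos : ∀ i, ∀ p ∈ SL d, 0 < th (μ i) p.1 p.2 := fun i p hp =>
    th_pos h hd hC' hμ i (SL_pos hp) _
  have h3 := ((h1.div isOpen_SL hpos h2).mono (B := 1) (w' := fun (_ : ι) _ => (1 : ℝ))
    zero_le_one (fun i p hp => by
      have := hpos i p hp
      rw [div_self this.ne', mul_one])).slice (t := 1) (by norm_num) (by norm_num)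
  refine h3.congr isOpen_univ (fun i y _ => ?_)
  unfold qq qk cA
  rw [mul_one]

/-- Υ at time one -/
theorem Ups_bd (hA : 0 < A) :
    BdN N univ (fun (_ : ι) _ => (1 : ℝ)) (fun i => Ups p0 A (μ i) 1) := by
  have h1 := comp1 isOpen_univ (qq_bd h hd hC' hμ N hA)
    (fun x => Real.smoothTransition (2 * x / p0 - 1)) (by
      exact Real.smoothTransition.contDiff.comp (((contDiff_const.mul contDiff_id).div_const _).sub
        contDiff_const))
  exact h1

omit h hd hC' hμ in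
lemma clm1 {N : ℕ} {w : ι → Sp d → ℝ} {f : ι → Sp d → ℝ} (hf : BdN (N + 1) univ w f)
    {e : ι → Sp d} (he : ∀ i, ‖e i‖ ≤ 1) :
    BdN N univ w (fun i y => fderiv ℝ (f i) y (e i)) := by
  refine (hf.D isOpen_univ).clm isOpen_univ (fun i => ContinuousLinearMap.apply ℝ ℝ (e i)) (B := 1)
    (fun i => ?_)
  refine ContinuousLinearMap.opNorm_le_bound _ zero_le_one fun φ => ?_
  rw [ContinuousLinearMap.apply_apply, one_mul]
  exact (φ.le_opNorm _).trans (by nlinarith [he i, norm_nonneg φ])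

omit h hd hC' hμ in
lemma clm2 {N : ℕ} {w : ι → Sp d → ℝ} {f : ι → Sp d → ℝ} (hf : BdN (N + 1 + 1) univ w f)
    {e : ι → Sp d} (he : ∀ i, ‖e i‖ ≤ 1) :
    BdN N univ w (fun i y => iteratedFDeriv ℝ 2 (f i) y (fun _ => e i)) := by
  have h1 := ((hf.D isOpen_univ).D isOpen_univ).clm isOpen_univ
    (fun i => ContinuousLinearMap.apply ℝ _ (e i)) (B := 1)
    (fun i => by
      refine ContinuousLinearMap.opNorm_le_bound _ zero_le_one fun φ => ?_
      rw [ContinuousLinearMap.apply_apply, one_mul]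
      exact (φ.le_opNorm _).trans (by nlinarith [he i, norm_nonneg φ]))
  have h2 := h1.clm isOpen_univ (fun i => ContinuousLinearMap.apply ℝ ℝ (e i)) (B := 1)
    (fun i => by
      refine ContinuousLinearMap.opNorm_le_bound _ zero_le_one fun φ => ?_
      rw [ContinuousLinearMap.apply_apply, one_mul]
      exact (φ.le_opNorm _).trans (by nlinarith [he i, norm_nonneg φ]))
  refine h2.congr isOpen_univ (fun i y _ => ?_)
  rw [iteratedFDeriv_two_apply]
  rfl

omit h hd hC' hμ in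
lemma inner_tangs {m a b : Sp d} (hm : ‖m‖ = 1) :
    ⟪tang m a, tang m b⟫_ℝ = (∑ j : Fin d, ⟪a, EuclideanSpace.single j (1 : ℝ)⟫_ℝ *
      ⟪b, EuclideanSpace.single j (1 : ℝ)⟫_ℝ) - ⟪a, m⟫_ℝ * ⟪b, m⟫_ℝ := by
  have h1 : ⟪tang m a, tang m b⟫_ℝ = ⟪a, b⟫_ℝ - ⟪a, m⟫_ℝ * ⟪b, m⟫_ℝ := by
    unfold tang
    rw [inner_sub_left, inner_sub_right, inner_sub_right, inner_smul_left, inner_smul_right,
      inner_smul_right, inner_smul_left, real_inner_self_eq_norm_sq, hm, real_inner_comm m a,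
      real_inner_comm m b]
    simp only [conj_trivial]
    ring
  have h2 : ⟪a, b⟫_ℝ = ∑ j : Fin d, ⟪a, EuclideanSpace.single j (1 : ℝ)⟫_ℝ *
      ⟪b, EuclideanSpace.single j (1 : ℝ)⟫_ℝ := by
    rw [PiLp.inner_apply]
    refine Finset.sum_congr rfl fun j _ => ?_
    rw [EuclideanSpace.inner_single_right, EuclideanSpace.inner_single_right]
    simp [mul_comm]
  rw [h1, h2]

omit h hd hC' hμ in
lemma inner_gradient' (g : Sp d → ℝ) (y w : Sp d) : ⟪gradient g y, w⟫_ℝ = fderiv ℝ g y w :=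
  inner_gradient_left

include hε0 hε hβ hA hn

/-- H_n at time one -/
theorem Hn_bd : BdN N univ (fun i y => vv (μ i) 1 y)
    (fun i => Hn (β i) ε p0 A (μ i) (n i) 1) := by
  have bW := WW_bd h hd hC' hμ (N + 1 + 1) hε0 hε hβ
  have bG := GG_bd h hd hC' hμ N hε0 hε hβ
  have bU : BdN N univ (fun (_ : ι) _ => (1 : ℝ)) (fun i => Ups p0 A (μ i) 1) :=
    Ups_bd h hd hC' hμ N hA
  have bU1 : BdN (N + 1) univ (fun (_ : ι) _ => (1 : ℝ)) (fun i => Ups p0 A (μ i) 1) :=
    Ups_bd h hd hC' hμ (N + 1) hA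
  have hv : ∀ i, ∀ y ∈ (univ : Set (Sp d)), 0 ≤ vv (μ i) 1 y := fun i y _ => Real.sqrt_nonneg _
  have hw : ∀ (i : ι), ∀ y ∈ (univ : Set (Sp d)),
      (fun (_ : ι) (_ : Sp d) => (1 : ℝ)) i y * vv (μ i) 1 y ≤ 1 * vv (μ i) 1 y :=
    fun i y _ => le_rfl
  have he : ∀ j : Fin d, ∀ _ : ι, ‖(EuclideanSpace.single j (1 : ℝ) : Sp d)‖ ≤ 1 := fun j _ => by
    simp
  have bL := BdN.sum isOpen_univ (Finset.univ : Finset (Fin d)) hv (fun j _ => clm2 bW (he j))
  have bN := clm2 bW (fun i => (hn i).le)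
  have bgn := (bG.sub isOpen_univ bL).add isOpen_univ bN
  have c1 := (bU.mul isOpen_univ bgn).mono (B := 1) (w' := fun i y => vv (μ i) 1 y)
    zero_le_one hw
  have c2 := (((BdN.const (N := N) (U := (univ : Set (Sp d))) (w := fun (_ : ι) _ => (1 : ℝ))
    (fun _ => (1 : ℝ)) (B := 1) zero_le_one (fun i p hp => by simp)).sub isOpen_univ bU).mul
    isOpen_univ bG).mono (B := 1) (w' := fun i y => vv (μ i) 1 y) zero_le_one hw
  have bW1 := bW.of_le (N' := N + 1) (by omega)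
  have c3 := BdN.sum isOpen_univ (Finset.univ : Finset (Fin d)) hv (fun j _ =>
    ((clm1 bU1 (he j)).mul isOpen_univ (clm1 bW1 (he j))).mono (B := 1)
      (w' := fun i y => vv (μ i) 1 y) zero_le_one hw)
  have c4 := ((clm1 bU1 (fun i => (hn i).le)).mul isOpen_univ
    (clm1 bW1 (fun i => (hn i).le))).mono (B := 1) (w' := fun i y => vv (μ i) 1 y) zero_le_one hw
  refine ((c1.add isOpen_univ c2).sub isOpen_univ (c3.sub isOpen_univ c4)).congr isOpen_univ
    (fun i y _ => ?_)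
  unfold Hn
  rw [inner_tangs (hn i)]
  simp only [inner_gradient']
  rfl

end main

/-! ## comparison of v with μ -/

lemma kk_one_le (x : Sp d) : kk 1 x ≤ 1 := by
  unfold kk
  have h1 : 1 ≤ Real.sqrt (1 ^ 2 + ‖x‖ ^ 2) := by
    rw [Real.one_le_sqrt]
    nlinarith [norm_nonneg x]
  rw [div_le_one (by positivity)]
  exact one_le_pow₀ h1

lemma kk_one_ge {x : Sp d} {r : ℝ} (hr : 1 ≤ r) (hx : ‖x‖ ≤ r) :
    1 ≤ (2 * r) ^ d * kk 1 x := by
  unfold kk
  have h1 : Real.sqrt (1 ^ 2 + ‖x‖ ^ 2) ≤ 2 * r := by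
    rw [Real.sqrt_le_left (by positivity)]
    nlinarith [norm_nonneg x]
  have h2 : 0 < Real.sqrt (1 ^ 2 + ‖x‖ ^ 2) := by positivity
  have h3 : Real.sqrt (1 ^ 2 + ‖x‖ ^ 2) ^ d ≤ (2 * r) ^ d := pow_le_pow_left₀ h2.le h1 d
  rw [mul_one_div, one_le_div₀ (by positivity)]
  exact h3

lemma th_int {μ : Measure (Sp d)} [IsFiniteMeasure μ] (y : Sp d) :
    Integrable (fun η => kk 1 (y - η)) μ :=
  kk_int (p := ((1 : ℝ), y)) ⟨by norm_num, by norm_num⟩

lemma cut_int {μ : Measure (Sp d)} [IsFiniteMeasure μ] (A : ℝ) (y : Sp d) :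
    Integrable (fun η => cut (‖y - η‖ / (A * 1)) * kk 1 (y - η)) μ := by
  have hc : Continuous (fun η : Sp d => cut (‖y - η‖ / (A * 1))) :=
    cut_smooth.continuous.comp (by fun_prop)
  refine (th_int y).bdd_mul hc.aestronglyMeasurable (c := 1) (Eventually.of_forall fun η => ?_)
  rw [Real.norm_of_nonneg (cut_nonneg _)]
  exact cut_le_one _

end UB

open UB in
theorem stmtUB (h : StmtTH) : StmtUB := by
  intro d J hd M C' ε p0 A hC' hε0 hε hp0 hp01 hA1
  have hA : 0 < A := by linarith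
  let ι := IxW d 4 M C'
  have hμ : ∀ i : ι, Gro C' i.μ := fun i => i.hμ
  have hβ : ∀ i : ι, Kit 4 M i.β := fun i => i.hβ
  have hn : ∀ i : ι, ‖i.n‖ = 1 := fun i => i.hn
  have b1 := WW_bd h hd hC' hμ J hε0 hε hβ
  have b2 := GG_bd h hd hC' hμ J hε0 hε hβ
  have b3 : BdN J univ (fun (_ : ι) _ => (1 : ℝ)) (fun i : ι => qq A i.μ 1) :=
    qq_bd h hd hC' hμ J hA
  have b4 : BdN J univ (fun (_ : ι) _ => (1 : ℝ)) (fun i : ι => Ups p0 A i.μ 1) :=
    Ups_bd h hd hC' hμ J hA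
  have b5 : BdN J univ (fun (i : ι) y => vv i.μ 1 y) (fun i : ι => Hn i.β ε p0 A i.μ i.n 1) :=
    Hn_bd h hd hC' hμ J hε0 hε hA hβ hn
  obtain ⟨C1, hC1, h1⟩ := b1.bd
  obtain ⟨C2, hC2, h2⟩ := b2.bd
  obtain ⟨C3, hC3, h3⟩ := b3.bd
  obtain ⟨C4, hC4, h4⟩ := b4.bd
  obtain ⟨C5, hC5, h5⟩ := b5.bd
  refine ⟨C1 + C2 + C3 + C4 + C5 + 2 / p0 + 2 ^ d + 1, by positivity, fun β hβ μ hμ => ?_⟩
  have h2p : 0 < 2 / p0 := by positivity
  have h2d : (0 : ℝ) < 2 ^ d := by positivity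
  -- a unit vector
  obtain ⟨n0, hn0⟩ : ∃ n : Sp d, ‖n‖ = 1 :=
    ⟨EuclideanSpace.single ⟨0, by omega⟩ (1 : ℝ), by simp⟩
  have hv : ∀ y, 0 ≤ vv μ 1 y := fun y => Real.sqrt_nonneg _
  let i0 : ι := ⟨β, μ, n0, hβ, hμ, hn0⟩
  have hfin : IsFiniteMeasure μ := hμ.fin
  have hth : ∀ y, 0 < th μ 1 y := fun y =>
    UB.th_pos (ι := Unit) (μ := fun _ => μ) h hd hC' (fun _ => hμ) () one_pos y
  have hvv : ∀ y, vv μ 1 y ^ 2 = th μ 1 y := fun y => Real.sq_sqrt (hth y).le
  have hkn : ∀ y η : Sp d, 0 ≤ kk 1 (y - η) := fun y η => kk_nonneg zero_le_one _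
  have hnum0 : ∀ y, 0 ≤ ∫ η, cut (‖y - η‖ / (A * 1)) * kk 1 (y - η) ∂μ := fun y =>
    integral_nonneg fun η => mul_nonneg (cut_nonneg _) (hkn y η)
  refine ⟨contDiffOn_univ.mp (b1.smooth i0), contDiffOn_univ.mp (b2.smooth i0),
    fun j hj y => ?_, fun j hj y => ?_, fun y => ⟨?_, ?_⟩, contDiffOn_univ.mp (b3.smooth i0),
    fun j hj y => ?_, contDiffOn_univ.mp (b4.smooth i0), fun j hj y => ?_, fun n hn => ?_,
    fun y hy => ?_, fun y r hr => ?_⟩
  · exact (h1 i0 y (mem_univ _) j hj).trans (mul_le_mul_of_nonneg_right (by linarith) (hv y))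
  · exact (h2 i0 y (mem_univ _) j hj).trans (mul_le_mul_of_nonneg_right (by linarith) (hv y))
  · exact div_nonneg (hnum0 y) (hth y).le
  · unfold qq
    rw [div_le_one (hth y)]
    unfold th
    refine integral_mono (cut_int A y) (th_int y) fun η => ?_
    exact mul_le_of_le_one_left (hkn y η) (cut_le_one _)
  · have := h3 i0 y (mem_univ _) j hj
    rw [mul_one] at this
    exact this.trans (by linarith)
  · have := h4 i0 y (mem_univ _) j hj
    rw [mul_one] at this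
    exact this.trans (by linarith)
  · let i : ι := ⟨β, μ, n, hβ, hμ, hn⟩
    exact ⟨contDiffOn_univ.mp (b5.smooth i), fun j hj y =>
      (h5 i y (mem_univ _) j hj).trans (mul_le_mul_of_nonneg_right (by linarith) (hv y))⟩
  · have hb : ∫ η, cut (‖y - η‖ / (A * 1)) * kk 1 (y - η) ∂μ ≤ (μ (ball y A)).toReal := by
      have e1 : ∀ η, cut (‖y - η‖ / (A * 1)) * kk 1 (y - η) ≤
          (ball y A).indicator (fun _ => (1 : ℝ)) η := by
        intro η
        by_cases hη : η ∈ ball y A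
        · rw [indicator_of_mem hη]
          calc cut (‖y - η‖ / (A * 1)) * kk 1 (y - η) ≤ 1 * kk 1 (y - η) :=
                mul_le_mul_of_nonneg_right (cut_le_one _) (hkn y η)
            _ ≤ 1 := by rw [one_mul]; exact kk_one_le _
        · rw [indicator_of_notMem hη]
          rw [mem_ball, dist_eq_norm, not_lt, norm_sub_rev] at hη
          rw [cut_zero (by rw [mul_one]; exact (one_le_div₀ hA).2 hη), zero_mul]
      calc ∫ η, cut (‖y - η‖ / (A * 1)) * kk 1 (y - η) ∂μ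
          ≤ ∫ η, (ball y A).indicator (fun _ => (1 : ℝ)) η ∂μ :=
            integral_mono (cut_int A y)
              ((integrable_const (1 : ℝ)).indicator measurableSet_ball) e1
        _ = (μ (ball y A)).toReal := by
            rw [integral_indicator_const _ measurableSet_ball]
            simp [Measure.real]
    have e2 : p0 / 2 * th μ 1 y ≤ (μ (ball y A)).toReal := by
      unfold qq at hy
      rw [le_div_iff₀ (hth y)] at hy
      exact hy.trans hb
    have e3 : vv μ 1 y ^ 2 ≤ 2 / p0 * (μ (ball y A)).toReal := by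
      rw [hvv]
      calc th μ 1 y = 2 / p0 * (p0 / 2 * th μ 1 y) := by field_simp
        _ ≤ _ := mul_le_mul_of_nonneg_left e2 h2p.le
    exact e3.trans (mul_le_mul_of_nonneg_right (by linarith) ENNReal.toReal_nonneg)
  · have e1 : ∀ η, (ball y r).indicator (fun _ => (1 : ℝ)) η ≤ (2 * r) ^ d * kk 1 (y - η) := by
      intro η
      by_cases hη : η ∈ ball y r
      · rw [indicator_of_mem hη]
        rw [mem_ball, dist_eq_norm, norm_sub_rev] at hη
        exact kk_one_ge hr hη.le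
      · rw [indicator_of_notMem hη]
        exact mul_nonneg (by positivity) (hkn y η)
    have e2 : (μ (ball y r)).toReal ≤ (2 * r) ^ d * th μ 1 y := by
      calc (μ (ball y r)).toReal = ∫ η, (ball y r).indicator (fun _ => (1 : ℝ)) η ∂μ := by
            rw [integral_indicator_const _ measurableSet_ball]
            simp [Measure.real]
        _ ≤ ∫ η, (2 * r) ^ d * kk 1 (y - η) ∂μ :=
            integral_mono ((integrable_const (1 : ℝ)).indicator measurableSet_ball)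
              ((th_int y).const_mul _) e1
        _ = _ := by rw [integral_const_mul]; rfl
    rw [hvv]
    refine e2.trans (mul_le_mul_of_nonneg_right ?_ (hth y).le)
    rw [mul_pow]
    have e3 : r ^ d ≤ r ^ (d + 1) := pow_le_pow_right₀ hr (by omega)
    have e4 : 0 ≤ r ^ (d + 1) := by positivity
    calc (2 : ℝ) ^ d * r ^ d ≤ 2 ^ d * r ^ (d + 1) := mul_le_mul_of_nonneg_left e3 h2d.le
      _ ≤ _ := mul_le_mul_of_nonneg_right (by linarith) e4

end

end TG
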