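import Pool.Agent.TG.Conc
import Pool.Agent.TG.UB
import Pool.Agent.TG.TDc
import Pool.Agent.TG.SC
import Pool.Agent.TG.PF
import Pool.Agent.TG.TH

/-!
# MODULE CS2: bounds and localisation of the net contributions   (helper7)
-/

open MeasureTheory Metric Set TrI Filter
open scoped InnerProductSpace ContDiff Topology

set_option linter.unusedSectionVars false

namespace TG

noncomputable section

namespace CS2

variable {d : ℕ}

lemma lev_pos {s0 : ℝ} (h : 0 < s0) (i : ℕ) : 0 < lev s0 i := by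
  unfold lev
  positivity

/-! ## pairings -/

section pair

variable {E : Type} [NormedAddCommGroup E] [InnerProductSpace ℝ E]

lemma rs_int (f : Sp d → E) (x : Sp d) {t : ℝ} (ht : 0 < t) :
    ∫ y, ‖rs x t f y‖ = t / t ^ d * ∫ y, ‖f y‖ := by
  have h1 : (fun y => ‖rs x t f y‖) =
      fun y => t * ((fun z => (fun w => ‖f w‖) (x + z)) (t • y)) := by
    funext y
    simp only [rs, norm_smul, Real.norm_eq_abs, abs_of_pos ht]
  rw [h1, integral_const_mul, Measure.integral_comp_smul_of_nonneg volume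
    (fun z => (fun w => ‖f w‖) (x + z)) t (hR := ht.le),
    integral_add_left_eq_self (fun w => ‖f w‖) x, finrank_euclideanSpace_fin,
    smul_eq_mul, ← mul_assoc]
  congr 1

lemma rs_integrable {f : Sp d → E} (hf : Continuous f) (hc : HasCompactSupport f) (x : Sp d)
    {t : ℝ} (ht : 0 < t) : Integrable (fun y => ‖rs x t f y‖) := by
  have h1 : Continuous (rs x t f) := by
    unfold rs
    fun_prop
  have h2 : HasCompactSupport (rs x t f) := by
    have e : (fun y : Sp d => f (x + t • y)) = f ∘ (fun y => x + t • y) := rfl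
    have h3 : HasCompactSupport (fun y : Sp d => f (x + t • y)) := by
      rw [e]
      exact hc.comp_homeomorph ((Homeomorph.smulOfNeZero t ht.ne').trans (Homeomorph.addLeft x))
    exact h3.smul_left (f := fun _ => t)
  exact (h1.integrable_of_hasCompactSupport h2).norm

lemma mQ_le (s0 : ℝ) (f : Sp d → E) {e : E} (he : ‖e‖ = 1) (Q : Cell d) (y : Sp d) :
    |mQ s0 f e Q y| ≤ ‖rs (xC s0 Q) (lev s0 Q.1) f y‖ := by
  unfold mQ
  refine (abs_real_inner_le_norm _ _).trans ?_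
  rw [he, mul_one]

lemma pair_le {s0 : ℝ} (hs : 0 < s0) {f : Sp d → E} (hf : Continuous f)
    (hc : HasCompactSupport f) {e : E} (he : ‖e‖ = 1) (Q : Cell d) {ζ : Sp d → ℝ} {K : ℝ}
    (hζ : ∀ y, |ζ y| ≤ K) :
    |∫ y, mQ s0 f e Q y * ζ y| ≤ nw s0 Q * (∫ y, ‖f y‖) * K := by
  have ht := lev_pos hs Q.1
  have h1 : ‖∫ y, mQ s0 f e Q y * ζ y‖ ≤ ∫ y, ‖rs (xC s0 Q) (lev s0 Q.1) f y‖ * K := by
    refine norm_integral_le_of_norm_le ((rs_integrable hf hc _ ht).mul_const K)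
      (Eventually.of_forall fun y => ?_)
    rw [norm_mul]
    exact mul_le_mul (mQ_le s0 f he Q y) (hζ y) (norm_nonneg _) (norm_nonneg _)
  rw [integral_mul_const, rs_int f _ ht] at h1
  exact h1

lemma pair_zero {s0 : ℝ} (hs : 0 < s0) {f : Sp d → E} (e : E) (Q : Cell d) {ζ : Sp d → ℝ}
    {B ρ : ℝ} (hB : ∀ y, B ≤ ‖y‖ → f y = 0) (hx : B + ρ * lev s0 Q.1 < ‖xC s0 Q‖)
    (hζ : ∀ y, ρ ≤ ‖y‖ → ζ y = 0) : ∫ y, mQ s0 f e Q y * ζ y = 0 := by
  have ht := lev_pos hs Q.1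
  have h1 : (fun y => mQ s0 f e Q y * ζ y) = fun _ => 0 := by
    funext y
    by_cases hy : ρ ≤ ‖y‖
    · rw [hζ y hy, mul_zero]
    · push Not at hy
      have h2 : f (xC s0 Q + lev s0 Q.1 • y) = 0 := by
        refine hB _ ?_
        have h3 : ‖xC s0 Q‖ ≤ ‖xC s0 Q + lev s0 Q.1 • y‖ + lev s0 Q.1 * ‖y‖ := by
          have h4 : xC s0 Q = (xC s0 Q + lev s0 Q.1 • y) - lev s0 Q.1 • y := by abel
          calc ‖xC s0 Q‖ = ‖(xC s0 Q + lev s0 Q.1 • y) - lev s0 Q.1 • y‖ := by rw [← h4]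
            _ ≤ ‖xC s0 Q + lev s0 Q.1 • y‖ + ‖lev s0 Q.1 • y‖ := norm_sub_le _ _
            _ = _ := by rw [norm_smul, Real.norm_eq_abs, abs_of_pos ht]
        nlinarith
      unfold mQ rs
      rw [h2]
      simp
  rw [h1]
  simp

end pair

/-! ## families of test functions -/

/-- families of test functions of size vv μ 1 0, supported in the ball of radius ρ -/
def Good {ι : Type*} (μ : ι → Measure (Sp d)) (ρ : ℝ) (f : ι → Sp d → ℝ) : Prop :=
  ∃ C : ℝ, 0 ≤ C ∧ ∀ i, (∀ y, |f i y| ≤ C * vv (μ i) 1 0) ∧ ∀ y, ρ ≤ ‖y‖ → f i y = 0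

lemma Good.mono {ι : Type*} {μ : ι → Measure (Sp d)} {ρ ρ' : ℝ} {f : ι → Sp d → ℝ}
    (h : Good μ ρ f) (hρ : ρ ≤ ρ') : Good μ ρ' f := by
  obtain ⟨C, hC, h1⟩ := h
  exact ⟨C, hC, fun i => ⟨(h1 i).1, fun y hy => (h1 i).2 y (hρ.trans hy)⟩⟩

lemma Good.add {ι : Type*} {μ : ι → Measure (Sp d)} {ρ : ℝ} {f g : ι → Sp d → ℝ}
    (hf : Good μ ρ f) (hg : Good μ ρ g) : Good μ ρ (fun i y => f i y + g i y) := by
  obtain ⟨C, hC, h1⟩ := hf
  obtain ⟨C', hC', h1'⟩ := hg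
  refine ⟨C + C', by linarith, fun i => ⟨fun y => ?_, fun y hy => ?_⟩⟩
  · refine (abs_add_le _ _).trans ?_
    linarith [(h1 i).1 y, (h1' i).1 y, add_mul C C' (vv (μ i) 1 0)]
  · simp only
    rw [(h1 i).2 y hy, (h1' i).2 y hy, add_zero]

lemma Good.sub {ι : Type*} {μ : ι → Measure (Sp d)} {ρ : ℝ} {f g : ι → Sp d → ℝ}
    (hf : Good μ ρ f) (hg : Good μ ρ g) : Good μ ρ (fun i y => f i y - g i y) := by
  obtain ⟨C, hC, h1⟩ := hf
  obtain ⟨C', hC', h1'⟩ := hg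
  refine ⟨C + C', by linarith, fun i => ⟨fun y => ?_, fun y hy => ?_⟩⟩
  · refine (abs_sub _ _).trans ?_
    linarith [(h1 i).1 y, (h1' i).1 y, add_mul C C' (vv (μ i) 1 0)]
  · simp only
    rw [(h1 i).2 y hy, (h1' i).2 y hy, sub_zero]

/-- growth of v away from the origin -/
lemma vv_grow (hd : 2 ≤ d) {C' : ℝ} (hC' : 0 < C') {μ : Measure (Sp d)} (hμ : Gro C' μ)
    (y : Sp d) : vv μ 1 y ≤ (1 + ‖y‖) ^ d * vv μ 1 0 := by
  obtain ⟨C, _, h⟩ := stmtTH d 0 hd C' hC'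
  obtain ⟨h1, _, _, h2, _⟩ := h μ hμ
  have h3 := h2 1 0 y one_pos
  have h4 : (1 : ℝ) ≤ (1 + ‖y‖) ^ d := one_le_pow₀ (by linarith [norm_nonneg y])
  have h5 := (h1 1 0 one_pos).1
  unfold vv
  rw [zero_sub, norm_neg, div_one] at h3
  calc Real.sqrt (th μ 1 y) ≤ Real.sqrt (((1 + ‖y‖) ^ d) ^ 2 * th μ 1 0) := by
        refine Real.sqrt_le_sqrt (h3.trans ?_)
        nlinarith [mul_pos (lt_of_lt_of_le one_pos h4) h5]
    _ = (1 + ‖y‖) ^ d * Real.sqrt (th μ 1 0) := by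
        rw [Real.sqrt_mul (by positivity), Real.sqrt_sq (by positivity)]

/-- the index type: profile, measure, direction, displacement -/
abbrev Ix (d : ℕ) (M C' : ℝ) := IxW d 4 M C' × Sp d

/-- the measure -/
abbrev muI {M C' : ℝ} (i : Ix d M C') : Measure (Sp d) := i.1.μ

/-- the weight -/
abbrev wI {M C' : ℝ} (i : Ix d M C') (y : Sp d) : ℝ := vv i.1.μ 1 y

lemma good_of_bd {M C' : ℝ} (hd : 2 ≤ d) (hC' : 0 < C') {f : Ix d M C' → Sp d → ℝ}
    (h : BdN 0 univ wI f) {ρ : ℝ} (hρ : 0 ≤ ρ) (h0 : ∀ i y, ρ ≤ ‖y‖ → f i y = 0) :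
    Good muI ρ f := by
  obtain ⟨C, hC, h1⟩ := h.zeroth
  refine ⟨C * (1 + ρ) ^ d, by positivity, fun i => ⟨fun y => ?_, h0 i⟩⟩
  have hv0 : 0 ≤ vv i.1.μ 1 0 := Real.sqrt_nonneg _
  by_cases hy : ρ ≤ ‖y‖
  · rw [h0 i y hy, abs_zero]
    positivity
  · push Not at hy
    have h2 := h1 i y (mem_univ _)
    rw [Real.norm_eq_abs] at h2
    have h3 := vv_grow hd hC' i.1.hμ y
    have h4 : (1 + ‖y‖) ^ d ≤ (1 + ρ) ^ d := by gcongr
    calc |f i y| ≤ C * vv i.1.μ 1 y := h2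
      _ ≤ C * ((1 + ρ) ^ d * vv i.1.μ 1 0) := by
          refine mul_le_mul_of_nonneg_left (h3.trans ?_) hC
          exact mul_le_mul_of_nonneg_right h4 hv0
      _ = _ := by ring


/-! ### Leibniz tools -/

section tools

variable {ι : Type*} {w : ι → Sp d → ℝ}

lemma mul1 {N : ℕ} {f g : ι → Sp d → ℝ} (hf : BdN N univ (fun (_ : ι) _ => (1 : ℝ)) f)
    (hg : BdN N univ w g) : BdN N univ w (fun i y => f i y * g i y) :=
  (hf.mul isOpen_univ hg).mono (B := 1) (w' := w) zero_le_one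
    (fun i y _ => by rw [one_mul])

lemma pd2_bd {N : ℕ} {f : ι → Sp d → ℝ} (hf : BdN (N + 1 + 1) univ w f) (a b : Fin d) :
    BdN N univ w (fun i y => pd2 a b (f i) y) := by
  have h1 := ((hf.D isOpen_univ).D isOpen_univ).clm isOpen_univ
    (fun _ => ContinuousLinearMap.apply ℝ _ (bv a : Sp d)) (B := 1)
    (fun i => by
      refine ContinuousLinearMap.opNorm_le_bound _ zero_le_one fun φ => ?_
      rw [ContinuousLinearMap.apply_apply, one_mul]
      refine (φ.le_opNorm _).trans ?_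
      simp [bv])
  have h2 := h1.clm isOpen_univ (fun _ => ContinuousLinearMap.apply ℝ ℝ (bv b : Sp d)) (B := 1)
    (fun i => by
      refine ContinuousLinearMap.opNorm_le_bound _ zero_le_one fun φ => ?_
      rw [ContinuousLinearMap.apply_apply, one_mul]
      refine (φ.le_opNorm _).trans ?_
      simp [bv])
  refine h2.congr isOpen_univ (fun i y _ => ?_)
  unfold pd2
  rw [iteratedFDeriv_two_apply]
  rfl

lemma d1_bd {N : ℕ} {f : ι → Sp d → ℝ} (hf : BdN (N + 1) univ w f) (a : Fin d) :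
    BdN N univ w (fun i y => fderiv ℝ (f i) y (bv a)) :=
  UB.clm1 hf (e := fun _ => bv a) (fun _ => by simp [bv])

lemma lap_bd {N : ℕ} {f : ι → Sp d → ℝ} (hf : BdN (N + 1 + 1) univ w f)
    (hw : ∀ i y, 0 ≤ w i y) : BdN N univ w (fun i y => lap (f i) y) := by
  refine (BdN.sum isOpen_univ (Finset.univ : Finset (Fin d)) (fun i y _ => hw i y)
    (fun j _ => UB.clm2 hf (e := fun _ => (EuclideanSpace.single j (1 : ℝ) : Sp d))
      (fun _ => by simp))).congr isOpen_univ (fun i y _ => ?_)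
  rfl

lemma inner_grad (f g : Sp d → ℝ) (y : Sp d) :
    ⟪gradient f y, gradient g y⟫_ℝ =
      ∑ j : Fin d, fderiv ℝ f y (bv j) * fderiv ℝ g y (bv j) := by
  have h2 : ⟪gradient f y, gradient g y⟫_ℝ = ∑ j : Fin d, ⟪gradient f y, bv j⟫_ℝ *
      ⟪gradient g y, bv j⟫_ℝ := by
    rw [PiLp.inner_apply]
    refine Finset.sum_congr rfl fun j _ => ?_
    unfold bv
    rw [EuclideanSpace.inner_single_right, EuclideanSpace.inner_single_right]
    simp [mul_comm]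
  rw [h2]
  simp only [UB.inner_gradient']

lemma grad_bd {f g : ι → Sp d → ℝ} {N : ℕ}
    (hf : BdN (N + 1) univ (fun (_ : ι) _ => (1 : ℝ)) f) (hg : BdN (N + 1) univ w g)
    (hw : ∀ i y, 0 ≤ w i y) :
    BdN N univ w (fun i y => ⟪gradient (f i) y, gradient (g i) y⟫_ℝ) := by
  refine (BdN.sum isOpen_univ (Finset.univ : Finset (Fin d)) (fun i y _ => hw i y)
    (fun j _ => mul1 (d1_bd hf j) (d1_bd hg j))).congr isOpen_univ (fun i y _ => ?_)
  exact inner_grad _ _ _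

lemma ite_bd {N : ℕ} {f : ι → Sp d → ℝ} (hf : BdN N univ w f) (p : Prop) [Decidable p] : BdN N univ w (fun i y => if p then f i y else 0) := by
  by_cases hp : p
  · simpa [hp] using hf
  · simp only [hp, if_false]
    exact BdN.const (fun _ => (0 : ℝ)) (B := 0) le_rfl (fun i y _ => by simp)

lemma chi_bd (N : ℕ) (hd : 1 ≤ d) :
    BdN N univ (fun (_ : ι) _ => (1 : ℝ)) (fun (_ : ι) (y : Sp d) => chi y) := by
  refine ⟨fun _ => TDc.chi_smooth.contDiffOn, ?_⟩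
  have h1 : ∀ j : ℕ, ∃ C : ℝ, ∀ x, ‖iteratedFDeriv ℝ j (chi : Sp d → ℝ) x‖ ≤ C := fun j =>
    (NN.it_cont TDc.chi_smooth j).bounded_above_of_compact_support
      ((TDc.chi_cs hd).iteratedFDeriv j)
  choose c hc using h1
  refine ⟨∑ j ∈ Finset.range (N + 1), |c j|, Finset.sum_nonneg fun _ _ => abs_nonneg _,
    fun _ x _ j hj => ?_⟩
  rw [mul_one]
  refine (hc j x).trans ((le_abs_self _).trans ?_)
  exact Finset.single_le_sum (f := fun j => |c j|) (fun _ _ => abs_nonneg _)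
    (Finset.mem_range.2 (by omega))

lemma chi'_bd (N : ℕ) (hd : 1 ≤ d) (p : ι → Sp d) :
    BdN N univ (fun (_ : ι) _ => (1 : ℝ)) (fun i (y : Sp d) => chi (y - p i)) := by
  obtain ⟨C, hC, h⟩ := (chi_bd (ι := Unit) N hd).bd
  refine ⟨fun i => (TDc.chi_smooth.comp (contDiff_id.sub contDiff_const)).contDiffOn, C, hC,
    fun i x _ j hj => ?_⟩
  have h1 := iteratedFDeriv_comp_sub (𝕜 := ℝ) (f := (chi : Sp d → ℝ)) j (p i) x
  rw [h1]
  exact h () (x - p i) (mem_univ _) j hj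

end tools


/-! ### averages and the Newton potential -/

section ops

variable {ι : Type*} {μ : ι → Measure (Sp d)} {M c0 : ℝ} {b : Sp d → ℝ}

lemma good_av (hb : BaseKer 2 M c0 b) {R ρ : ℝ} (hR : 0 ≤ R) {φ : ι → Sp d → ℝ}
    (h : Good μ ρ φ) : Good μ (ρ + R) (fun i => avk b R (φ i)) := by
  obtain ⟨C, hC, h1⟩ := h
  refine ⟨C, hC, fun i => ⟨fun y => ?_, fun y hy => ?_⟩⟩
  · have hbi : Integrable b :=
      hb.smooth.continuous.integrable_of_hasCompactSupport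
        (NN.kernel_cs fun x hx => hb.supp x (by linarith))
    have h2 : ‖avk b R (φ i) y‖ ≤ ∫ z, b z * (C * vv (μ i) 1 0) := by
      unfold avk
      refine norm_integral_le_of_norm_le (hbi.mul_const _) (Eventually.of_forall fun z => ?_)
      rw [norm_smul, Real.norm_of_nonneg (hb.nonneg z)]
      exact mul_le_mul_of_nonneg_left ((h1 i).1 _) (hb.nonneg z)
    rw [integral_mul_const, hb.int, one_mul] at h2
    exact h2
  · unfold avk
    refine integral_eq_zero_of_ae (Eventually.of_forall fun z => ?_)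
    simp only [smul_eq_mul, Pi.zero_apply]
    by_cases hz : 1 / 2 ≤ ‖z‖
    · rw [hb.supp z hz, zero_mul]
    · push Not at hz
      rw [(h1 i).2, mul_zero]
      have h4 : ‖y‖ ≤ ‖y + R • z‖ + ‖R • z‖ := by
        have := norm_sub_le (y + R • z) (R • z)
        rwa [show y + R • z - R • z = y by abel] at this
      have h5 : ‖R • z‖ ≤ R * 1 := by
        rw [norm_smul, Real.norm_of_nonneg hR]
        exact mul_le_mul_of_nonneg_left (by linarith) hR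
      linarith

lemma good_NNp (hb : BaseKer 2 M c0 b) {R ρ : ℝ} (hR : 0 ≤ R) {φ : ι → Sp d → ℝ}
    (hs : ∀ i, ContDiff ℝ ∞ (φ i)) (h : Good μ ρ φ) :
    Good μ (ρ + R) (fun i y => -NNp b R (φ i) y) := by
  obtain ⟨C, hC, h1⟩ := h
  refine ⟨R ^ 2 * C, by positivity, fun i => ⟨fun y => ?_, fun y hy => ?_⟩⟩
  · have h2 := NN.NNp_norm hb hR (hs i) 0 (C * vv (μ i) 1 0)
      (fun z => by rw [norm_iteratedFDeriv_zero]; exact (h1 i).1 z) y
    rw [norm_iteratedFDeriv_zero, Real.norm_eq_abs] at h2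
    rw [abs_neg, mul_assoc]
    exact h2
  · have h2 := NN.NNp_supp hb hR (ζ := φ i) 0 ρ (fun z hz => (h1 i).2 z (by rwa [sub_zero] at hz)) y
      (by rw [sub_zero]; linarith)
    simp only
    rw [h2, neg_zero]

end ops

/-! ### the test functions of the contributions -/

section fam

variable {M C' : ℝ}

/-- a locally zero matrix field -/
lemma pd2_ev {g : Sp d → ℝ} {y : Sp d} (h : g =ᶠ[𝓝 y] fun _ => 0) (a b : Fin d) :
    pd2 a b g y = 0 := by
  unfold pd2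
  rw [TDc.iter_zero h]
  rfl

lemma grad_ev {g : Sp d → ℝ} {y : Sp d} (h : g =ᶠ[𝓝 y] fun _ => 0) : gradient g y = 0 := by
  unfold gradient
  rw [h.fderiv_eq]
  simp

lemma chi_grad (hd : 2 ≤ d) {y : Sp d} (hy : (d : ℝ) ≤ ‖y‖) : gradient (chi : Sp d → ℝ) y = 0 :=
  grad_ev (TDc.chi_ev hd hy)

lemma chi_fd (hd : 2 ≤ d) {y : Sp d} (hy : (d : ℝ) ≤ ‖y‖) : fderiv ℝ (chi : Sp d → ℝ) y = 0 := by
  have h : (chi : Sp d → ℝ) =ᶠ[𝓝 y] fun _ => 0 := TDc.chi_ev hd hy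
  rw [h.fderiv_eq]
  simp

lemma chi_fd_ev (hd : 2 ≤ d) {y : Sp d} (hy : (d : ℝ) ≤ ‖y‖) :
    ∀ᶠ z in 𝓝 y, fderiv ℝ (chi : Sp d → ℝ) z = 0 := by
  have h : ∀ᶠ z in 𝓝 y, ∀ᶠ w in 𝓝 z, (chi : Sp d → ℝ) w = 0 := (TDc.chi_ev hd hy).eventually_nhds
  filter_upwards [h] with z hz
  have h2 : (chi : Sp d → ℝ) =ᶠ[𝓝 z] fun _ => 0 := hz
  rw [h2.fderiv_eq]
  simp

lemma good_nt (hd : 2 ≤ d) (hC' : 0 < C') {Mb c0 : ℝ} {b : Sp d → ℝ} (hb : BaseKer 2 Mb c0 b)
    {R : ℝ} (hR : 0 ≤ R) {F : Ix d M C' → Fin d → Fin d → Sp d → ℝ}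
    (hF : ∀ a c, BdN 2 univ wI (fun i => F i a c))
    (h0 : ∀ i a c y, (d : ℝ) ≤ ‖y‖ → F i a c =ᶠ[𝓝 y] fun _ => 0) :
    Good muI (d + R) (fun i => nt b R (F i)) := by
  have hw : ∀ (i : Ix d M C') (y : Sp d), 0 ≤ wI i y := fun i y => Real.sqrt_nonneg _
  have h1 : BdN 0 univ wI (fun i : Ix d M C' => dd2 (F i)) := by
    refine (BdN.sum isOpen_univ (Finset.univ : Finset (Fin d)) (fun i y _ => hw i y)
      (fun a _ => BdN.sum isOpen_univ (Finset.univ : Finset (Fin d)) (fun i y _ => hw i y)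
        (fun c _ => pd2_bd (hF a c) a c))).congr isOpen_univ (fun i y _ => ?_)
    rfl
  have h2 : Good muI d (fun i : Ix d M C' => dd2 (F i)) :=
    good_of_bd hd hC' h1 (by positivity) (fun i y hy => by
      unfold dd2
      refine Finset.sum_eq_zero fun a _ => Finset.sum_eq_zero fun c _ => ?_
      exact pd2_ev (h0 i a c y hy) a c)
  exact good_NNp hb hR (fun i => contDiffOn_univ.1 (h1.smooth i)) h2


variable (hd : 2 ≤ d) (hC' : 0 < C') {ε p0 A : ℝ} (hε0 : 0 < ε) (hε : ε ≤ 1) (hA : 0 < A)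

include hd hC' hε0 hε hA

lemma W_bd (N : ℕ) : BdN N univ wI (fun i : Ix d M C' => WW i.1.β ε i.1.μ 1) :=
  WW_bd stmtTH hd hC' (μ := fun i : Ix d M C' => i.1.μ) (fun i => i.1.hμ) N hε0 hε
    (β := fun i => i.1.β) (fun i => i.1.hβ)

lemma G_bd (N : ℕ) : BdN N univ wI (fun i : Ix d M C' => GG i.1.β ε i.1.μ 1) :=
  GG_bd stmtTH hd hC' (μ := fun i : Ix d M C' => i.1.μ) (fun i => i.1.hμ) N hε0 hε
    (β := fun i => i.1.β) (fun i => i.1.hβ)

lemma U_bd (N : ℕ) : BdN N univ (fun (_ : Ix d M C') _ => (1 : ℝ))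
    (fun i : Ix d M C' => Ups p0 A i.1.μ 1) :=
  UB.Ups_bd stmtTH hd hC' (μ := fun i : Ix d M C' => i.1.μ) (fun i => i.1.hμ) N hA

lemma H_bd (N : ℕ) : BdN N univ wI (fun i : Ix d M C' => Hn i.1.β ε p0 A i.1.μ i.1.n 1) :=
  UB.Hn_bd stmtTH hd hC' (μ := fun i : Ix d M C' => i.1.μ) (fun i => i.1.hμ) N hε0 hε hA
    (β := fun i => i.1.β) (fun i => i.1.hβ) (n := fun i => i.1.n) (fun i => i.1.hn)

lemma HH_bd (N : ℕ) (a c : Fin d) :
    BdN N univ wI (fun i : Ix d M C' => HHm i.1.β ε p0 A i.1.μ a c) := by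
  have hw : ∀ (i : Ix d M C') (y : Sp d), 0 ≤ wI i y := fun i y => Real.sqrt_nonneg _
  have bW := W_bd (M := M) hd hC' hε0 hε hA (N + 1 + 1)
  have bW1 := W_bd (M := M) hd hC' hε0 hε hA (N + 1)
  have bG := G_bd (M := M) hd hC' hε0 hε hA N
  have bU := U_bd (M := M) (p0 := p0) hd hC' hε0 hε hA N
  have bU1 := U_bd (M := M) (p0 := p0) hd hC' hε0 hε hA (N + 1)
  have h1 := mul1 bU ((ite_bd (bG.sub isOpen_univ (lap_bd bW hw)) (a = c)).add isOpen_univ
    (pd2_bd bW a c))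
  have h2 := mul1 ((BdN.const (N := N) (U := (univ : Set (Sp d)))
    (w := fun (_ : Ix d M C') _ => (1 : ℝ)) (fun _ => (1 : ℝ)) (B := 1) zero_le_one
    (fun i p hp => by simp)).sub isOpen_univ bU) bG
  have h3 := ite_bd (h2.sub isOpen_univ (grad_bd bU1 bW1 hw)) (a = c)
  have h4 := ((mul1 (d1_bd bU1 a) (d1_bd bW1 c)).add isOpen_univ
    (mul1 (d1_bd bU1 c) (d1_bd bW1 a))).const_mul isOpen_univ (fun _ => (1 / 2 : ℝ)) (B := 1)
      (fun i => by norm_num)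
  exact ((h1.add isOpen_univ h3).add isOpen_univ h4).congr isOpen_univ (fun i y _ => rfl)

/-- family 1: sheet cells -/
lemma good1 : Good muI (d : ℝ)
    (fun (i : Ix d M C') y => chi y * Hn i.1.β ε p0 A i.1.μ i.1.n 1 y) :=
  good_of_bd hd hC' (mul1 (chi_bd 0 (by omega)) (H_bd hd hC' hε0 hε hA 0)) (by positivity)
    (fun i y hy => by rw [PTm.chi_supp hy (by omega), zero_mul])

/-- family 4: no field -/
lemma good4 : Good muI (d : ℝ)
    (fun (i : Ix d M C') y => chi y * GG i.1.β ε i.1.μ 1 y) :=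
  good_of_bd hd hC' (mul1 (chi_bd 0 (by omega)) (G_bd hd hC' hε0 hε hA 0)) (by positivity)
    (fun i y hy => by rw [PTm.chi_supp hy (by omega), zero_mul])

/-- family 2: Newton cells, main part -/
lemma good2 {Mb c0 : ℝ} {b : Sp d → ℝ} (hb : BaseKer 2 Mb c0 b) {R : ℝ} (hR : 0 ≤ R) :
    Good muI (d + R) (fun (i : Ix d M C') =>
      nt b R (fun a c x => chi x * HHm i.1.β ε p0 A i.1.μ a c x)) := by
  refine good_nt hd hC' hb hR
    (F := fun i a c x => chi x * HHm i.1.β ε p0 A i.1.μ a c x)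
    (fun a c => mul1 (chi_bd 2 (by omega)) (HH_bd hd hC' hε0 hε hA 2 a c)) ?_
  intro i a c y hy
  filter_upwards [TDc.chi_ev hd hy] with z hz
  rw [hz, zero_mul]

/-- family 5: the divergence -/
lemma good5 : Good muI (d : ℝ)
    (fun (i : Ix d M C') => dvT chi i.1.β ε p0 A i.1.μ i.1.n) := by
  have hw : ∀ (i : Ix d M C') (y : Sp d), 0 ≤ wI i y := fun i y => Real.sqrt_nonneg _
  have bW := W_bd (M := M) hd hC' hε0 hε hA (1 + 1)
  have bU := U_bd (M := M) (p0 := p0) hd hC' hε0 hε hA 1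
  have bn : BdN 1 univ wI (fun (i : Ix d M C') y => fderiv ℝ (WW i.1.β ε i.1.μ 1) y i.1.n) :=
    UB.clm1 bW (e := fun i => i.1.n) (fun i => i.1.hn.le)
  have hnj : ∀ (i : Ix d M C') (j : Fin d), ‖i.1.n j‖ ≤ 1 := fun i j => by
    have h1 := EuclideanSpace.norm_sq_eq i.1.n
    have h2 : ‖i.1.n j‖ ^ 2 ≤ ‖i.1.n‖ ^ 2 := by
      rw [h1]
      exact Finset.single_le_sum (f := fun j => ‖i.1.n j‖ ^ 2) (fun _ _ => sq_nonneg _)
        (Finset.mem_univ j)
    rw [i.1.hn] at h2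
    exact abs_le_of_sq_le_sq' (a := ‖i.1.n j‖) (b := 1) (by simpa using h2) zero_le_one |>.2
  have bT : ∀ j : Fin d, BdN 1 univ wI (fun (i : Ix d M C') y =>
      (tang i.1.n (gradient (WW i.1.β ε i.1.μ 1) y)) j) := by
    intro j
    refine ((d1_bd bW j).sub isOpen_univ (bn.const_mul isOpen_univ (fun i => i.1.n j) (B := 1)
      (fun i => hnj i j))).congr isOpen_univ (fun i y _ => ?_)
    unfold tang
    have e1 : (gradient (WW i.1.β ε i.1.μ 1) y) j = fderiv ℝ (WW i.1.β ε i.1.μ 1) y (bv j) := by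
      rw [← UB.inner_gradient']
      unfold bv
      rw [EuclideanSpace.inner_single_right]
      simp
    have e2 : ⟪i.1.n, gradient (WW i.1.β ε i.1.μ 1) y⟫_ℝ =
        fderiv ℝ (WW i.1.β ε i.1.μ 1) y i.1.n := by
      rw [real_inner_comm, UB.inner_gradient']
    rw [e2, PiLp.sub_apply, PiLp.smul_apply, e1, smul_eq_mul, mul_comm]
  have bs : BdN 0 univ wI (fun (i : Ix d M C') => dvT chi i.1.β ε p0 A i.1.μ i.1.n) := by
    refine (BdN.sum isOpen_univ (Finset.univ : Finset (Fin d)) (fun i y _ => hw i y)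
      (fun j _ => d1_bd (mul1 (mul1 (chi_bd 1 (by omega)) bU) (bT j)) j)).congr
        isOpen_univ (fun i y _ => ?_)
    rfl
  refine good_of_bd hd hC' bs (by positivity) (fun i y hy => ?_)
  rw [TDc.dvT_eq]
  exact (TDc.dvg_ev_far hd hy).eq_of_nhds

/-- family 6: the flux of a sheet -/
lemma good6 : Good muI (d : ℝ)
    (fun (i : Ix d M C') => fxA chi (fun x => chi (x - i.2)) i.1.β ε p0 A i.1.μ i.1.n) := by
  have hw : ∀ (i : Ix d M C') (y : Sp d), 0 ≤ wI i y := fun i y => Real.sqrt_nonneg _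
  have bW := W_bd (M := M) hd hC' hε0 hε hA (0 + 1)
  have bU := U_bd (M := M) (p0 := p0) hd hC' hε0 hε hA 0
  have bn : BdN 0 univ wI (fun (i : Ix d M C') y => fderiv ℝ (WW i.1.β ε i.1.μ 1) y i.1.n) :=
    UB.clm1 bW (e := fun i => i.1.n) (fun i => i.1.hn.le)
  have bc := chi_bd (ι := Ix d M C') (d := d) (0 + 1) (by omega)
  have bcn : BdN 0 univ (fun (_ : Ix d M C') _ => (1 : ℝ)) (fun (i : Ix d M C') y =>
      fderiv ℝ (fun y : Sp d => chi y) y i.1.n) :=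
    UB.clm1 bc (e := fun i => i.1.n) (fun i => i.1.hn.le)
  have h1 := mul1 (mul1 (chi'_bd 0 (by omega) (fun i : Ix d M C' => i.2)) bU)
    ((grad_bd bc bW hw).sub isOpen_univ (mul1 bcn bn))
  refine good_of_bd hd hC' (h1.congr isOpen_univ (fun i y _ => ?_)) (by positivity)
    (fun i y hy => ?_)
  · unfold fxA
    rw [UB.inner_tangs i.1.hn, inner_grad]
    simp only [UB.inner_gradient']
    rfl
  · unfold fxA
    rw [chi_grad hd hy]
    unfold tang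
    simp

lemma good7a : Good muI (d : ℝ) (fun (i : Ix d M C') y => chi (y - i.2) * Ups p0 A i.1.μ 1 y *
    ⟪gradient (fun x : Sp d => chi x) y, gradient (WW i.1.β ε i.1.μ 1) y⟫_ℝ) := by
  have hw : ∀ (i : Ix d M C') (y : Sp d), 0 ≤ wI i y := fun i y => Real.sqrt_nonneg _
  have bW := W_bd (M := M) hd hC' hε0 hε hA (0 + 1)
  have bU := U_bd (M := M) (p0 := p0) hd hC' hε0 hε hA 0
  have bc := chi_bd (ι := Ix d M C') (d := d) (0 + 1) (by omega)
  have h1 := mul1 (mul1 (chi'_bd 0 (by omega) (fun i : Ix d M C' => i.2)) bU)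
    (grad_bd bc bW hw)
  refine good_of_bd hd hC' h1 (by positivity) (fun i y hy => ?_)
  have h2 : gradient (fun x : Sp d => chi x) y = 0 := chi_grad hd hy
  simp only [h2]
  simp

/-- family 7: the flux of the Newton field -/
lemma good7 {Mb c0 : ℝ} {b : Sp d → ℝ} (hb : BaseKer 2 Mb c0 b) {R : ℝ} (hR : 0 ≤ R) :
    Good muI (d + R) (fun (i : Ix d M C') =>
      fxB b R chi (fun x => chi (x - i.2)) i.1.β ε p0 A i.1.μ) := by
  have bW := W_bd (M := M) hd hC' hε0 hε hA (2 + 1)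
  have bU := U_bd (M := M) (p0 := p0) hd hC' hε0 hε hA 2
  have bc := chi_bd (ι := Ix d M C') (d := d) (2 + 1) (by omega)
  have g1 := good7a (M := M) (p0 := p0) hd hC' hε0 hε hA
  have g2 := good_av hb hR g1
  have g3 := good_nt hd hC' hb hR
    (F := fun (i : Ix d M C') a c x => chi (x - i.2) * Ups p0 A i.1.μ 1 x * (1 / 2 *
        (fderiv ℝ chi x (bv a) * fderiv ℝ (WW i.1.β ε i.1.μ 1) x (bv c)
        + fderiv ℝ chi x (bv c) * fderiv ℝ (WW i.1.β ε i.1.μ 1) x (bv a))))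
    (fun a c => mul1 (mul1 (chi'_bd 2 (by omega) (fun i : Ix d M C' => i.2)) bU)
      (((mul1 (d1_bd bc a) (d1_bd bW c)).add isOpen_univ
        (mul1 (d1_bd bc c) (d1_bd bW a))).const_mul isOpen_univ (fun _ => (1 / 2 : ℝ)) (B := 1)
        (fun i => by norm_num))) (fun i a c y hy => by
      filter_upwards [chi_fd_ev hd hy] with z hz
      rw [hz]
      simp)
  have g4 := ((g1.mono (ρ' := d + R) (by linarith)).sub g2).sub g3
  obtain ⟨C, hC, h⟩ := g4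
  exact ⟨C, hC, fun i => ⟨fun y => (h i).1 y, fun y hy => (h i).2 y hy⟩⟩

end fam


/-! ## the assembly -/

lemma cw_nw {s0 : ℝ} (hs : 0 < s0) (hd : 1 ≤ d) (Q : Cell d) : cw s0 Q * nw s0 Q = 1 := by
  have ht := lev_pos hs Q.1
  unfold cw nw
  obtain ⟨k, rfl⟩ : ∃ k, d = k + 1 := ⟨d - 1, by omega⟩
  rw [Nat.add_sub_cancel, pow_succ]
  field_simp

lemma adj_card (Q : Cell d) : ((adj Q).card : ℝ) = 3 ^ d := by
  unfold adj
  rw [Finset.card_product, Finset.card_singleton, one_mul, Fintype.card_piFinset]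
  have h : ∀ j, (Finset.Icc (Q.2 j - 1) (Q.2 j + 1)).card = 3 := by
    intro j
    rw [Int.card_Icc]
    omega
  simp [h]

/-- numbers of size c T which vanish under the condition Z -/
def Pz (T : ℝ) (Z : Prop) (c x : ℝ) : Prop := |x| ≤ c * T ∧ (Z → x = 0)

lemma Pz.add {T : ℝ} {Z : Prop} {c c' x x' : ℝ} (h : Pz T Z c x) (h' : Pz T Z c' x') :
    Pz T Z (c + c') (x + x') := by
  refine ⟨(abs_add_le _ _).trans ?_, fun hz => by rw [h.2 hz, h'.2 hz, add_zero]⟩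
  linarith [h.1, h'.1, add_mul c c' T]

lemma Pz.sub {T : ℝ} {Z : Prop} {c c' x x' : ℝ} (h : Pz T Z c x) (h' : Pz T Z c' x') :
    Pz T Z (c + c') (x - x') := by
  refine ⟨(abs_sub _ _).trans ?_, fun hz => by rw [h.2 hz, h'.2 hz, sub_zero]⟩
  linarith [h.1, h'.1, add_mul c c' T]

lemma Pz.zero {T : ℝ} (hT : 0 ≤ T) {Z : Prop} {c : ℝ} (hc : 0 ≤ c) : Pz T Z c 0 :=
  ⟨by rw [abs_zero]; positivity, fun _ => rfl⟩

lemma Pz.mono {T : ℝ} (hT : 0 ≤ T) {Z : Prop} {c c' x : ℝ} (h : Pz T Z c x) (hc : c ≤ c') :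
    Pz T Z c' x := ⟨h.1.trans (mul_le_mul_of_nonneg_right hc hT), h.2⟩

lemma Pz.sum {T : ℝ} {Z : Prop} {c : ℝ} {κ : Type*} (s : Finset κ) {x : κ → ℝ}
    (h : ∀ k ∈ s, Pz T Z c (x k)) : Pz T Z (s.card * c) (∑ k ∈ s, x k) := by
  refine ⟨(Finset.abs_sum_le_sum_abs _ _).trans ?_, fun hz =>
    Finset.sum_eq_zero fun k hk => (h k hk).2 hz⟩
  calc ∑ k ∈ s, |x k| ≤ ∑ _k ∈ s, c * T := Finset.sum_le_sum fun k hk => (h k hk).1
    _ = s.card * c * T := by rw [Finset.sum_const, nsmul_eq_mul, mul_assoc]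

end CS2

open CS2 in
theorem stmtCS2 : StmtCS2 := by
  intro d hd M c0 C' hC' X hX
  have hε0 := hX.ε_pos
  have hε : X.ε ≤ 1 := by linarith [hX.ε_le]
  have hA : 0 < X.A := by linarith [hX.A_ge]
  have hR : 0 ≤ X.RN := by linarith [hX.RN_ge]
  have hb : BaseKer 2 M c0 X.b := PTm.base_mono (by omega) hX.ker
  have hn0 : (0 : ℝ) ≤ d := Nat.cast_nonneg d
  have G1 := (good1 (M := M) (p0 := X.p0) hd hC' hε0 hε hA).mono (ρ' := d + X.RN) (by linarith)
  have G2 := good2 (M := M) (p0 := X.p0) hd hC' hε0 hε hA hb hR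
  have G4 := (good4 (M := M) hd hC' hε0 hε hA).mono (ρ' := d + X.RN) (by linarith)
  have G3 := good_av hb hR (good4 (M := M) hd hC' hε0 hε hA)
  have G5 := (good5 (M := M) (p0 := X.p0) hd hC' hε0 hε hA).mono (ρ' := d + X.RN) (by linarith)
  have G6 := (good6 (M := M) (p0 := X.p0) hd hC' hε0 hε hA).mono (ρ' := d + X.RN) (by linarith)
  have G7 := good7 (M := M) (p0 := X.p0) hd hC' hε0 hε hA hb hR
  obtain ⟨K1, hK1, G1⟩ := G1
  obtain ⟨K2, hK2, G2⟩ := G2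
  obtain ⟨K3, hK3, G3⟩ := G3
  obtain ⟨K4, hK4, G4⟩ := G4
  obtain ⟨K5, hK5, G5⟩ := G5
  obtain ⟨K6, hK6, G6⟩ := G6
  obtain ⟨K7, hK7, G7⟩ := G7
  set K : ℝ := K1 + K2 + K3 + K4 + K5 + K6 + K7 with hK
  have hK0 : 0 ≤ K := by positivity
  refine ⟨K * (1 + 1 + 1 + 3 ^ d * (1 + 1)) + (d + X.RN) + 1, by positivity, ?_⟩
  intro E _ _ _ f hf hc μ hμ s0 hs e kd nv he hn Q
  have ht := lev_pos hs Q.1
  have hSC := (stmtSC d hd C' hC' (xC s0 Q) (lev s0 Q.1) ht).1 μ hμ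
  have hμQ : Gro C' (muQ s0 μ Q) := hSC.1
  have hvv : vv (muQ s0 μ Q) 1 0 = omC μ s0 Q := by
    have h1 := hSC.2.2.1 1 0 one_pos
    unfold muQ omC
    rw [h1, mul_one, smul_zero, add_zero]
  have hβ : Kit 4 M (bQ X.b Q) := PTm.kit_mono (by omega) (hX.ker.kit (Q.1 - 2))
  obtain ⟨n0, hn0'⟩ : ∃ n : Sp d, ‖n‖ = 1 :=
    ⟨EuclideanSpace.single ⟨0, by omega⟩ (1 : ℝ), by simp⟩
  have hv0 : 0 ≤ omC μ s0 Q := Real.sqrt_nonneg _
  have hI0 : 0 ≤ ∫ y, ‖f y‖ := integral_nonneg fun _ => norm_nonneg _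
  have hnw : 0 ≤ nw s0 Q := by unfold nw; positivity
  have hcw : 0 ≤ cw s0 Q := by unfold cw; positivity
  -- the index
  let ix : ∀ n : Sp d, ‖n‖ = 1 → Sp d → Ix d M C' := fun n hn p =>
    (⟨bQ X.b Q, muQ s0 μ Q, n, hβ, hμQ, hn⟩, p)
  set T : ℝ := nw s0 Q * (∫ y, ‖f y‖) * (K * omC μ s0 Q) with hT
  have hT0 : 0 ≤ T := by positivity
  set Z : Prop := ∃ B : ℝ, (∀ y, B ≤ ‖y‖ → f y = 0) ∧
    B + (d + X.RN) * lev s0 Q.1 < ‖xC s0 Q‖ with hZ
  have pr : ∀ (e' : E), ‖e'‖ = 1 → ∀ (ζ : Sp d → ℝ) (K' : ℝ), K' ≤ K →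
      ((∀ y, |ζ y| ≤ K' * vv (muQ s0 μ Q) 1 0) ∧ ∀ y, d + X.RN ≤ ‖y‖ → ζ y = 0) →
      Pz T Z 1 (∫ y, mQ s0 f e' Q y * ζ y) := by
    intro e' he' ζ K' hK' hζ
    refine ⟨?_, ?_⟩
    · rw [one_mul]
      refine pair_le hs hf hc he' Q fun y => (hζ.1 y).trans ?_
      rw [hvv]
      exact mul_le_mul_of_nonneg_right hK' hv0
    · rintro ⟨B, hB, hx⟩
      exact pair_zero hs e' Q hB hx hζ.2
  have k1 : K1 ≤ K := by rw [hK]; linarith
  have k2 : K2 ≤ K := by rw [hK]; linarith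
  have k3 : K3 ≤ K := by rw [hK]; linarith
  have k4 : K4 ≤ K := by rw [hK]; linarith
  have k5 : K5 ≤ K := by rw [hK]; linarith
  have k6 : K6 ≤ K := by rw [hK]; linarith
  have k7 : K7 ≤ K := by rw [hK]; linarith
  -- the main contribution
  have pG : Pz T Z (1 + 1) (Gam X s0 μ f e kd nv Q) := by
    unfold Gam
    split_ifs with h0 h1
    · exact (pr (e Q) (he Q) _ K1 k1 (G1 (ix (nv Q) (hn Q h0) 0))).mono hT0 (by norm_num)
    · exact (pr (e Q) (he Q) _ K2 k2 (G2 (ix n0 hn0' 0))).add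
        (pr (e Q) (he Q) _ K3 k3 (G3 (ix n0 hn0' 0)))
    · exact (pr (e Q) (he Q) _ K4 k4 (G4 (ix n0 hn0' 0))).mono hT0 (by norm_num)
  have pV : Pz T Z 1 (Vct X s0 μ f e kd nv Q) := by
    unfold Vct
    split_ifs with h0
    · exact pr (e Q) (he Q) _ K5 k5 (G5 (ix (nv Q) (hn Q h0) 0))
    · exact Pz.zero hT0 zero_le_one
  have pf : ∀ (p : Sp d) (e' : E), ‖e'‖ = 1 → ∀ (k : ℕ) (n : Sp d), (k = 0 → ‖n‖ = 1) →
      Pz T Z 1 (flx X k chi (fun x => chi (x - p)) (bQ X.b Q) (muQ s0 μ Q)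
        (mQ s0 f e' Q) n) := by
    intro p e' he' k n hk
    unfold flx
    split_ifs with h0 h1
    · exact pr e' he' _ K6 k6 (G6 (ix n (hk h0) p))
    · exact pr e' he' _ K7 k7 (G7 (ix n0 hn0' p))
    · exact Pz.zero hT0 zero_le_one
  have pF : ∀ Q' ∈ adj Q, Pz T Z (1 + 1) (Fct X s0 μ f e kd nv Q Q') := by
    intro Q' _
    unfold Fct
    exact (pf _ _ (he Q) _ _ (hn Q)).sub (pf _ _ (he Q') _ _ (hn Q'))
  have pN := (pG.add pV).sub (Pz.sum (adj Q) pF)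
  rw [adj_card] at pN
  refine ⟨?_, ?_⟩
  · unfold net
    rw [abs_mul, abs_of_nonneg hcw]
    calc cw s0 Q * |Gam X s0 μ f e kd nv Q + Vct X s0 μ f e kd nv Q -
          ∑ Q' ∈ adj Q, Fct X s0 μ f e kd nv Q Q'|
        ≤ cw s0 Q * ((1 + 1 + 1 + 3 ^ d * (1 + 1)) * T) := mul_le_mul_of_nonneg_left pN.1 hcw
      _ = (cw s0 Q * nw s0 Q) * (K * (1 + 1 + 1 + 3 ^ d * (1 + 1)) * (∫ y, ‖f y‖) *
          omC μ s0 Q) := by rw [hT]; ring
      _ = K * (1 + 1 + 1 + 3 ^ d * (1 + 1)) * (∫ y, ‖f y‖) * omC μ s0 Q := by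
          rw [cw_nw hs (by omega), one_mul]
      _ ≤ _ := by
          refine mul_le_mul_of_nonneg_right (mul_le_mul_of_nonneg_right ?_ hI0) hv0
          linarith
  · intro B hB hne
    by_contra hcon
    push Not at hcon
    refine hne ?_
    have hz : Z := ⟨B, hB, by
      refine lt_of_le_of_lt ?_ hcon
      have h1 : 0 ≤ K * (1 + 1 + 1 + 3 ^ d * (1 + 1)) := by positivity
      nlinarith⟩
    unfold net
    rw [pN.2 hz, mul_zero]

end

end TG
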