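import Pool.Agent.TG.Ker
set_option autoImplicit false

/-!
# Module PK: packing (4.1)
-/

open MeasureTheory Metric Set TrI
open scoped InnerProductSpace ContDiff

namespace TG

noncomputable section

namespace PK

variable {d : ℕ}

/-! ### Real sums -/

lemma tele (a : ℕ → ℝ) (ha : Antitone a) (h0 : ∀ n, 0 ≤ a n) (q L : ℕ) :
    ∑ l ∈ Finset.range L, (a l - a (l + q)) ≤ q * a 0 := by
  induction q with
  | zero => simp
  | succ q ih =>
    have h1 : ∑ l ∈ Finset.range L, (a l - a (l + (q + 1))) =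
        ∑ l ∈ Finset.range L, (a l - a (l + q)) + ∑ l ∈ Finset.range L, (a (l + q) - a (l + 1 + q)) := by
      rw [← Finset.sum_add_distrib]
      apply Finset.sum_congr rfl
      intro l _
      rw [show l + (q + 1) = l + 1 + q by ring]
      ring
    have h2 : ∑ l ∈ Finset.range L, (a (l + q) - a (l + 1 + q)) = a (0 + q) - a (L + q) :=
      Finset.sum_range_sub' (fun l => a (l + q)) L
    rw [h1, h2]
    have h3 : a (0 + q) ≤ a 0 := ha (Nat.zero_le _)
    have h4 := h0 (L + q)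
    push_cast
    linarith

lemma double_sum (a : ℕ → ℝ) (ha : Antitone a) (h0 : ∀ n, 0 ≤ a n) (J0 I : ℕ) :
    ∑ i ∈ Finset.range I, ∑ l ∈ Finset.range (i + 1), (1 / 4 : ℝ) ^ (i - l) * (a l - a (i + J0)) ≤
      2 * (J0 + 1) * a 0 := by
  have h1 : ∑ i ∈ Finset.range I, ∑ l ∈ Finset.range (i + 1), (1 / 4 : ℝ) ^ (i - l) * (a l - a (i + J0)) =
      ∑ i ∈ Finset.range I, ∑ k ∈ Finset.range (i + 1), (1 / 4 : ℝ) ^ k * (a (i - k) - a (i + J0)) := by
    apply Finset.sum_congr rfl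
    intro i _
    rw [← Finset.sum_range_reflect]
    apply Finset.sum_congr rfl
    intro k hk
    rw [Finset.mem_range] at hk
    have e1 : i + 1 - 1 - k = i - k := by omega
    have e2 : i - (i - k) = k := by omega
    rw [e1, e2]
  have h2 : ∑ i ∈ Finset.range I, ∑ k ∈ Finset.range (i + 1), (1 / 4 : ℝ) ^ k * (a (i - k) - a (i + J0)) =
      ∑ k ∈ Finset.range I, ∑ i ∈ Finset.Ico k I, (1 / 4 : ℝ) ^ k * (a (i - k) - a (i + J0)) := by
    apply Finset.sum_comm'
    intro i k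
    simp only [Finset.mem_range, Finset.mem_Ico]
    omega
  have h3 : ∀ k ∈ Finset.range I, ∑ i ∈ Finset.Ico k I, (1 / 4 : ℝ) ^ k * (a (i - k) - a (i + J0)) ≤
      (1 / 2 : ℝ) ^ k * ((J0 + 1) * a 0) := by
    intro k _
    rw [Finset.sum_Ico_eq_sum_range, ← Finset.mul_sum]
    have e1 : ∑ l ∈ Finset.range (I - k), (a (k + l - k) - a (k + l + J0)) =
        ∑ l ∈ Finset.range (I - k), (a l - a (l + (k + J0))) := by
      apply Finset.sum_congr rfl
      intro l _
      rw [Nat.add_sub_cancel_left, show k + l + J0 = l + (k + J0) by ring]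
    rw [e1]
    have e2 := tele a ha h0 (k + J0) (I - k)
    have e3 : ((k + J0 : ℕ) : ℝ) ≤ 2 ^ k * (J0 + 1) := by
      have e4 : (k : ℝ) + 1 ≤ 2 ^ k := by
        have := (Nat.lt_two_pow_self (n := k))
        exact_mod_cast this
      push_cast
      have e5 : (0 : ℝ) ≤ J0 := Nat.cast_nonneg _
      nlinarith
    have e6 : (1 / 4 : ℝ) ^ k = (1 / 2) ^ k * (1 / 2) ^ k := by
      rw [← mul_pow]; norm_num
    have e7 : (1 / 2 : ℝ) ^ k * 2 ^ k = 1 := by
      rw [← mul_pow]; norm_num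
    calc (1 / 4 : ℝ) ^ k * ∑ l ∈ Finset.range (I - k), (a l - a (l + (k + J0)))
        ≤ (1 / 4 : ℝ) ^ k * (((k + J0 : ℕ) : ℝ) * a 0) := mul_le_mul_of_nonneg_left e2 (by positivity)
      _ ≤ (1 / 4 : ℝ) ^ k * ((2 ^ k * (J0 + 1)) * a 0) := by
          apply mul_le_mul_of_nonneg_left _ (by positivity)
          exact mul_le_mul_of_nonneg_right e3 (h0 0)
      _ = (1 / 2 : ℝ) ^ k * ((J0 + 1) * a 0) * ((1 / 2) ^ k * 2 ^ k) := by rw [e6]; ring
      _ = _ := by rw [e7, mul_one]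
  rw [h1, h2]
  refine (Finset.sum_le_sum h3).trans ?_
  rw [← Finset.sum_mul]
  have h4 : ∑ k ∈ Finset.range I, (1 / 2 : ℝ) ^ k ≤ 2 := by
    have := geom_sum_eq (show (1 / 2 : ℝ) ≠ 1 by norm_num) I
    rw [this]
    have h5 : (0 : ℝ) ≤ (1 / 2) ^ I := by positivity
    rw [div_le_iff_of_neg (by norm_num)]
    linarith
  have h5 : 0 ≤ ((J0 : ℝ) + 1) * a 0 := mul_nonneg (by positivity) (h0 0)
  nlinarith

lemma tsum_le_of_finset {ι : Type*} {T : ι → ℝ} {B : ℝ} (hB : 0 ≤ B)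
    (h : ∀ S : Finset ι, ∑ p ∈ S, T p ≤ B) : ∑' p, T p ≤ B := by
  by_cases hs : Summable T
  · exact hs.tsum_le_of_sum_le h
  · rw [tsum_eq_zero_of_not_summable hs]; exact hB

/-! ### Overlap -/

open Classical in
lemma card_le (s ρ : ℝ) (hs : 0 < s) (hρ : 0 ≤ ρ) (S : Finset (Fin d → ℤ)) (y : Sp d) :
    (((S.filter (fun p => y ∈ ball (s • lat p) (ρ * s))).card : ℕ) : ℝ) ≤ (2 * ρ + 1) ^ d := by
  have h1 : S.filter (fun p => y ∈ ball (s • lat p) (ρ * s)) ⊆
      Fintype.piFinset (fun j : Fin d => Finset.Icc ⌈y j / s - ρ⌉ ⌊y j / s + ρ⌋) := by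
    intro p hp
    rw [Finset.mem_filter, mem_ball, dist_eq_norm] at hp
    rw [Fintype.mem_piFinset]
    intro j
    have h2 : ‖(y - s • lat p) j‖ ≤ ‖y - s • lat p‖ := PiLp.norm_apply_le _ j
    have h3 : (y - s • lat p) j = y j - s * (p j : ℝ) := by
      simp [lat]
    rw [h3, Real.norm_eq_abs] at h2
    have h4 : |y j - s * (p j : ℝ)| < ρ * s := lt_of_le_of_lt h2 hp.2
    rw [abs_lt] at h4
    have h5 : y j / s - ρ < p j := by
      rw [sub_lt_iff_lt_add, div_lt_iff₀ hs]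
      linarith [h4.2]
    have h6 : (p j : ℝ) < y j / s + ρ := by
      rw [← sub_lt_iff_lt_add, lt_div_iff₀ hs]
      linarith [h4.1]
    rw [Finset.mem_Icc]
    exact ⟨Int.ceil_le.mpr h5.le, Int.le_floor.mpr h6.le⟩
  have h2 := Finset.card_le_card h1
  rw [Fintype.card_piFinset] at h2
  have h3 : ((∏ j : Fin d, (Finset.Icc ⌈y j / s - ρ⌉ ⌊y j / s + ρ⌋).card : ℕ) : ℝ) ≤ (2 * ρ + 1) ^ d := by
    push_cast
    calc ∏ j : Fin d, (((Finset.Icc ⌈y j / s - ρ⌉ ⌊y j / s + ρ⌋).card : ℕ) : ℝ)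
        ≤ ∏ _j : Fin d, (2 * ρ + 1) := by
          apply Finset.prod_le_prod
          · intro j _; positivity
          · intro j _
            rw [Int.card_Icc]
            have e1 : ((((⌊y j / s + ρ⌋ + 1 - ⌈y j / s - ρ⌉).toNat : ℕ) : ℤ) : ℝ) ≤ 2 * ρ + 1 := by
              rw [Int.toNat_eq_max]
              push_cast
              apply max_le
              · have h7 := Int.floor_le (y j / s + ρ)
                have h8 := Int.le_ceil (y j / s - ρ)
                linarith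
              · linarith
            exact_mod_cast e1
      _ = (2 * ρ + 1) ^ d := by simp
  exact le_trans (by exact_mod_cast h2) h3

open Classical in
lemma overlap (s ρ : ℝ) (hs : 0 < s) (hρ : 0 ≤ ρ) (S : Finset (Fin d → ℤ)) {g : Sp d → ℝ}
    (hg : Integrable g) (h0 : ∀ y, 0 ≤ g y) :
    ∑ p ∈ S, ∫ y in ball (s • lat p) (ρ * s), g y ≤ (2 * ρ + 1) ^ d * ∫ y, g y := by
  have h1 : ∀ p ∈ S, ∫ y in ball (s • lat p) (ρ * s), g y =
      ∫ y, (ball (s • lat p) (ρ * s)).indicator g y := by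
    intro p _
    rw [integral_indicator measurableSet_ball]
  rw [Finset.sum_congr rfl h1, ← integral_finsetSum _ (fun p _ => hg.indicator measurableSet_ball),
    ← integral_const_mul]
  refine integral_mono (integrable_finsetSum _ (fun p _ => hg.indicator measurableSet_ball))
    (hg.const_mul _) ?_
  intro y
  change ∑ p ∈ S, (ball (s • lat p) (ρ * s)).indicator g y ≤ (2 * ρ + 1) ^ d * g y
  have h2 : ∀ p ∈ S, (ball (s • lat p) (ρ * s)).indicator g y =
      if y ∈ ball (s • lat p) (ρ * s) then g y else 0 := by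
    intro p _
    rw [Set.indicator_apply]
  rw [Finset.sum_congr rfl h2, ← Finset.sum_filter, Finset.sum_const, nsmul_eq_mul]
  exact mul_le_mul_of_nonneg_right (card_le s ρ hs hρ S y) (h0 y)

end PK

theorem stmtPK : StmtPK := by
  intro d hd M c ε R hε hε1 hR b hb
  have hc := hb.c_pos
  -- choice of J0
  obtain ⟨J0, hJ0, hJ1⟩ : ∃ J0 : ℕ, 1 ≤ J0 ∧ R + 1 ≤ c * (ε * 2 ^ J0) := by
    obtain ⟨k, hk⟩ := pow_unbounded_of_one_lt ((R + 1) / (c * ε)) (one_lt_two : (1 : ℝ) < 2)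
    refine ⟨k + 1, by omega, ?_⟩
    rw [div_lt_iff₀ (mul_pos hc hε)] at hk
    have : (2 : ℝ) ^ (k + 1) = 2 * 2 ^ k := by rw [pow_succ]; ring
    rw [this]
    have h2 : 0 < (2 : ℝ) ^ k := by positivity
    nlinarith [mul_pos (mul_pos hc hε) h2]
  set κ : ℝ := (volume (ball (0 : Sp d) 1)).toReal with hκ
  have hκ0 : 0 < κ := ENNReal.toReal_pos (measure_ball_pos _ _ one_pos).ne' measure_ball_lt_top.ne
  set K : ℝ := (ε * 2 ^ J0) ^ d / (c * κ) with hK
  have hK0 : 0 < K := by positivity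
  refine ⟨K * 3 ^ d * (2 * (J0 + 1)) + (2 * R + 1) ^ d * 2, by positivity, ?_⟩
  intro E _ _ _ _ f hf hfc s0 hs0
  have hak := hb.ak
  -- basic objects
  set a : ℕ → ℝ := fun l => ∫ x, ‖fl b ε s0 f l x‖ with ha
  have hfl := fun l => fl_cont hak ε s0 hf l
  have hfs := fun l => fl_cs hak ε s0 hfc l
  have ha0 : ∀ l, 0 ≤ a l := fun l => integral_nonneg (fun x => norm_nonneg _)
  have hanti : Antitone a := by
    intro l m hlm
    obtain ⟨r, rfl⟩ := Nat.exists_eq_add_of_le hlm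
    exact fl_norm_int_le hak ε s0 hf hfc l r
  set Hf : ℕ → ℕ → Sp d → ℝ := fun i l z =>
    chn b ε s0 l (i + J0 - l) (fun y => ‖fl b ε s0 f l y‖) z - ‖fl b ε s0 f (i + J0) z‖ with hHf
  have hHc : ∀ i l, Continuous (Hf i l) := fun i l =>
    (chn_cont hak ε s0 l _ (hfl l).norm).sub (hfl _).norm
  have hHs : ∀ i l, HasCompactSupport (Hf i l) := by
    intro i l
    have h1 := chn_cs hak ε s0 l (i + J0 - l) (hfs l).norm
    have h2 := (hfs (i + J0)).norm
    exact h1.sub h2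
  have hHi : ∀ i l, Integrable (Hf i l) := fun i l =>
    (hHc i l).integrable_of_hasCompactSupport (hHs i l)
  have hH0 : ∀ i l, l ≤ i → ∀ z, 0 ≤ Hf i l z := by
    intro i l hl z
    have h1 := norm_chn_le hak ε s0 l (i + J0 - l) (hfl l) z
    rw [← fl_chn, show l + (i + J0 - l) = i + J0 by omega] at h1
    exact sub_nonneg.mpr h1
  have hHint : ∀ i l, l ≤ i → ∫ z, Hf i l z = a l - a (i + J0) := by
    intro i l hl
    simp only [hHf]
    rw [integral_sub, chn_int hak ε s0 l _ (hfl l).norm (hfs l).norm]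
    · exact (chn_cont hak ε s0 l _ (hfl l).norm).integrable_of_hasCompactSupport
        (chn_cs hak ε s0 l _ (hfs l).norm)
    · exact (hfl _).norm.integrable_of_hasCompactSupport (hfs _).norm
  set Φ : ℕ → Sp d → ℝ := fun i z => ∑ l ∈ Finset.range (i + 1), (1 / 4 : ℝ) ^ (i - l) * Hf i l z with hΦ
  have hΦi : ∀ i, Integrable (Φ i) := fun i =>
    integrable_finsetSum _ (fun l _ => (hHi i l).const_mul _)
  have hΦ0 : ∀ i z, 0 ≤ Φ i z := fun i z => Finset.sum_nonneg (fun l hl =>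
    mul_nonneg (by positivity) (hH0 i l (by rw [Finset.mem_range] at hl; omega) z))
  have hΦint : ∀ i, ∫ z, Φ i z = ∑ l ∈ Finset.range (i + 1), (1 / 4 : ℝ) ^ (i - l) * (a l - a (i + J0)) := by
    intro i
    simp only [hΦ]
    rw [integral_finsetSum _ (fun l _ => (hHi i l).const_mul _)]
    apply Finset.sum_congr rfl
    intro l hl
    rw [Finset.mem_range] at hl
    rw [integral_const_mul, hHint i l (by omega)]
  -- the choice of the directions
  have key : ∀ (i : ℕ) (p : Fin d → ℤ), ∃ e : E, ‖e‖ = 1 ∧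
      lev s0 i ^ (d - 1) * DD b ε R s0 f i (cen s0 i p) e ≤
        K * (∫ z in ball (lev s0 i • lat p) (1 * lev s0 i), Φ i z) +
        (1 / 4 : ℝ) ^ i * ∫ y in ball (lev s0 i • lat p) (R * lev s0 i), ‖f y‖ := by
    intro i p
    have hs := lev_pos hs0 i
    set s := lev s0 i with hsdef
    set q : Sp d := s • lat p with hq
    have hvol : (volume (ball q (1 * s))).toReal = s ^ d * κ := by
      rw [one_mul, Measure.addHaar_ball_of_pos _ _ hs, ENNReal.toReal_mul, ENNReal.toReal_ofReal (by positivity)]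
      simp [hκ]
    obtain ⟨z, hz, hzle⟩ := exists_le_setAverage (μ := (volume : Measure (Sp d)))
      (s := ball q (1 * s)) (f := Φ i) (measure_ball_pos _ _ (by linarith)).ne' measure_ball_lt_top.ne
      (hΦi i).integrableOn
    rw [setAverage_eq, Measure.real, hvol, smul_eq_mul] at hzle
    rw [mem_ball, one_mul, dist_eq_norm] at hz
    -- the direction
    obtain ⟨e, he, hfe⟩ : ∃ e : E, ‖e‖ = 1 ∧ ⟪fl b ε s0 f (i + J0) z, e⟫_ℝ = ‖fl b ε s0 f (i + J0) z‖ := by
      by_cases h0 : fl b ε s0 f (i + J0) z = 0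
      · obtain ⟨e, he⟩ := exists_norm_eq E (zero_le_one : (0 : ℝ) ≤ 1)
        refine ⟨e, he, ?_⟩
        rw [h0]; simp
      · have hn : ‖fl b ε s0 f (i + J0) z‖ ≠ 0 := norm_ne_zero_iff.mpr h0
        refine ⟨(‖fl b ε s0 f (i + J0) z‖)⁻¹ • fl b ε s0 f (i + J0) z, ?_, ?_⟩
        · rw [norm_smul, norm_inv, norm_norm, inv_mul_cancel₀ hn]
        · rw [real_inner_smul_right, real_inner_self_eq_norm_sq, pow_two, ← mul_assoc, inv_mul_cancel₀ hn, one_mul]
    refine ⟨e, he, ?_⟩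
    -- bound for each level
    have hlev : ∀ l ∈ Finset.range (i + 1),
        ∫ y in ball q (R * s), (‖fl b ε s0 f l y‖ - ⟪fl b ε s0 f l y, e⟫_ℝ) ≤
          (ε * (2 ^ J0 * s)) ^ d / c * Hf i l z := by
      intro l hl
      rw [Finset.mem_range] at hl
      obtain ⟨r, hr⟩ : ∃ r, i + J0 - l = r + 1 := ⟨i + J0 - l - 1, by omega⟩
      have hlr : l + r + 1 = i + J0 := by omega
      have hgc : Continuous fun y => ‖fl b ε s0 f l y‖ - ⟪fl b ε s0 f l y, e⟫_ℝ :=
        (hfl l).norm.sub ((hfl l).inner continuous_const)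
      have hg0 : ∀ y, 0 ≤ ‖fl b ε s0 f l y‖ - ⟪fl b ε s0 f l y, e⟫_ℝ := by
        intro y
        have := real_inner_le_norm (fl b ε s0 f l y) e
        rw [he, mul_one] at this
        linarith
      have h1 := chn_lower hb hε hs0 l r hgc hg0 z q (R * s) (by
        rw [hlr, lev_add, ← hsdef]
        rw [norm_sub_rev]
        nlinarith)
      rw [hlr, lev_add, ← hsdef] at h1
      refine h1.trans (le_of_eq ?_)
      congr 1
      rw [chn_sub hak ε s0 l (r + 1) (hfl l).norm ((hfl l).inner continuous_const),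
        chn_inner hak ε s0 l (r + 1) (hfl l), ← fl_chn, show l + (r + 1) = i + J0 by omega, hfe]
      simp only [hHf]
      rw [hr]
    have hDD : s ^ (d - 1) * DD b ε R s0 f i (cen s0 i p) e =
        (∑ l ∈ Finset.range (i + 1), (1 / 4 : ℝ) ^ (i - l) *
          (∫ y in ball q (R * s), (‖fl b ε s0 f l y‖ - ⟪fl b ε s0 f l y, e⟫_ℝ))) +
        (1 / 4 : ℝ) ^ i * ∫ y in ball q (R * s), ‖f y‖ := by
      unfold DD cen
      rw [← hsdef, ← hq, ← mul_assoc]
      have : s ^ (d - 1) * (s / s ^ d) = 1 := by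
        obtain ⟨k, rfl⟩ : ∃ k, d = k + 1 := ⟨d - 1, by omega⟩
        rw [Nat.add_sub_cancel, pow_succ]
        field_simp
      rw [this, one_mul]
    rw [hDD]
    have h2 : (∑ l ∈ Finset.range (i + 1), (1 / 4 : ℝ) ^ (i - l) *
          (∫ y in ball q (R * s), (‖fl b ε s0 f l y‖ - ⟪fl b ε s0 f l y, e⟫_ℝ))) ≤
        (ε * (2 ^ J0 * s)) ^ d / c * Φ i z := by
      simp only [hΦ]
      rw [Finset.mul_sum]
      apply Finset.sum_le_sum
      intro l hl
      have := mul_le_mul_of_nonneg_left (hlev l hl) (show (0 : ℝ) ≤ (1 / 4) ^ (i - l) by positivity)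
      refine this.trans (le_of_eq ?_)
      ring
    have h3 : (ε * (2 ^ J0 * s)) ^ d / c * Φ i z ≤ K * ∫ z in ball q (1 * s), Φ i z := by
      refine (mul_le_mul_of_nonneg_left hzle (by positivity)).trans (le_of_eq ?_)
      rw [hK]
      have e1 : (ε * (2 ^ J0 * s)) ^ d = (ε * 2 ^ J0) ^ d * s ^ d := by
        rw [← mul_pow]; congr 1; ring
      rw [e1]
      have : s ^ d ≠ 0 := by positivity
      field_simp
    linarith
  choose e he hle using key
  refine ⟨e, he, ?_⟩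
  intro I
  have hfi : Integrable f := hf.integrable_of_hasCompactSupport hfc
  have ha00 : a 0 = ∫ y, ‖f y‖ := rfl
  -- sum over the cells of one level
  have hi : ∀ i ∈ Finset.range I, ∑' p : Fin d → ℤ,
      lev s0 i ^ (d - 1) * DD b ε R s0 f i (cen s0 i p) (e i p) ≤
      K * 3 ^ d * (∑ l ∈ Finset.range (i + 1), (1 / 4 : ℝ) ^ (i - l) * (a l - a (i + J0))) +
      (2 * R + 1) ^ d * ((1 / 4 : ℝ) ^ i * a 0) := by
    intro i _
    rw [← hΦint i]
    have hΦ1 : 0 ≤ ∫ z, Φ i z := integral_nonneg (hΦ0 i)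
    apply PK.tsum_le_of_finset
    · have := ha0 0
      positivity
    · intro S
      refine (Finset.sum_le_sum (fun p _ => hle i p)).trans ?_
      rw [Finset.sum_add_distrib, ← Finset.mul_sum, ← Finset.mul_sum]
      have h1 := PK.overlap (lev s0 i) 1 (lev_pos hs0 i) zero_le_one S (hΦi i) (hΦ0 i)
      have h2 := PK.overlap (lev s0 i) R (lev_pos hs0 i) (by linarith) S hfi.norm (fun y => norm_nonneg (f y))
      have h3 := mul_le_mul_of_nonneg_left h1 hK0.le
      have h4 := mul_le_mul_of_nonneg_left h2 (show (0 : ℝ) ≤ (1 / 4) ^ i by positivity)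
      have e1 : (2 * (1 : ℝ) + 1) = 3 := by norm_num
      rw [e1] at h3
      rw [ha00]
      linarith
  refine (Finset.sum_le_sum hi).trans ?_
  rw [Finset.sum_add_distrib, ← Finset.mul_sum, ← Finset.mul_sum, ← Finset.sum_mul]
  have h1 := PK.double_sum a hanti ha0 J0 I
  have h2 : ∑ i ∈ Finset.range I, (1 / 4 : ℝ) ^ i ≤ 2 := by
    have := geom_sum_eq (show (1 / 4 : ℝ) ≠ 1 by norm_num) I
    rw [this]
    have h5 : (0 : ℝ) ≤ (1 / 4) ^ I := by positivity
    rw [div_le_iff_of_neg (by norm_num)]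
    linarith
  have h3 := mul_le_mul_of_nonneg_left h1 (show (0 : ℝ) ≤ K * 3 ^ d by positivity)
  have h4 := mul_le_mul_of_nonneg_left (mul_le_mul_of_nonneg_right h2 (ha0 0))
    (show (0 : ℝ) ≤ (2 * R + 1) ^ d by positivity)
  rw [← ha00]
  linarith

end

end TG
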