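import Pool.Agent.TG.Conc
import Pool.Agent.TG.Adj
import Pool.Agent.TG.Tree0
import Pool.Agent.TG.PK
set_option autoImplicit false
set_option linter.unusedSectionVars false

/-!
# Module CT1: the tree facts for mass, tailed mass, gaps and the weights of the measure
-/

open MeasureTheory Metric Set TrI
open scoped InnerProductSpace ContDiff ENNReal

namespace TG

noncomputable section

namespace CT1

variable {d : ℕ}

/-! ## Geometry of cells -/

lemma norm_le_sqrt (v : Sp d) {L : ℝ} (hL : 0 ≤ L) (h : ∀ j, |v j| ≤ L) :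
    ‖v‖ ≤ Real.sqrt d * L := by
  rw [EuclideanSpace.norm_eq]
  have h1 : ∑ j : Fin d, ‖v j‖ ^ 2 ≤ d * L ^ 2 := by
    calc ∑ j : Fin d, ‖v j‖ ^ 2 ≤ ∑ _j : Fin d, L ^ 2 := by
          refine Finset.sum_le_sum fun j _ => ?_
          rw [Real.norm_eq_abs]
          exact pow_le_pow_left₀ (abs_nonneg _) (h j) 2
      _ = d * L ^ 2 := by simp
  calc Real.sqrt (∑ j : Fin d, ‖v j‖ ^ 2) ≤ Real.sqrt (d * L ^ 2) := Real.sqrt_le_sqrt h1
    _ = Real.sqrt d * L := by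
      rw [Real.sqrt_mul (Nat.cast_nonneg d), Real.sqrt_sq hL]

lemma cen_sub_up {s0 : ℝ} (hs : 0 < s0) (i : ℕ) (Q : Cell d) :
    ‖xC s0 Q - xC s0 (up i Q)‖ ≤ Real.sqrt d * lev s0 (Q.1 + i) := by
  refine norm_le_sqrt _ (lev_pos hs _).le fun j => ?_
  have h0 := lev_pos hs Q.1
  have hl : lev s0 (Q.1 + i) = 2 ^ i * lev s0 Q.1 := lev_add s0 Q.1 i
  have h2 : (0 : ℤ) < 2 ^ i := by positivity
  have h6 := Int.mul_ediv_add_emod (Q.2 j) (2 ^ i)
  have h7 := Int.emod_nonneg (Q.2 j) h2.ne'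
  have h8 := Int.emod_lt_of_pos (Q.2 j) h2
  have e1 : (xC s0 Q - xC s0 (up i Q)) j =
      lev s0 Q.1 * ((Q.2 j : ℝ) - 2 ^ i * ((Q.2 j / 2 ^ i : ℤ) : ℝ)) := by
    have : (xC s0 Q - xC s0 (up i Q)) j =
        lev s0 Q.1 * (Q.2 j : ℝ) - lev s0 (Q.1 + i) * ((Q.2 j / 2 ^ i : ℤ) : ℝ) := by
      simp [xC, cen, up, lat]
    rw [this, hl]
    ring
  have e2 : ((Q.2 j : ℝ) - 2 ^ i * ((Q.2 j / 2 ^ i : ℤ) : ℝ)) = ((Q.2 j % 2 ^ i : ℤ) : ℝ) := by
    have h9 : (Q.2 j : ℤ) - 2 ^ i * (Q.2 j / 2 ^ i) = Q.2 j % 2 ^ i := by linarith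
    rw [← h9]
    push_cast
    ring
  rw [e1, e2]
  have h10 : (0 : ℝ) ≤ ((Q.2 j % 2 ^ i : ℤ) : ℝ) := by exact_mod_cast h7
  have h11 : ((Q.2 j % 2 ^ i : ℤ) : ℝ) ≤ 2 ^ i := by exact_mod_cast h8.le
  rw [abs_of_nonneg (mul_nonneg h0.le h10), hl, mul_comm (2 ^ i : ℝ)]
  exact mul_le_mul_of_nonneg_left h11 h0.le

lemma cen_sub_dn {s0 : ℝ} (hs : 0 < s0) {i : ℕ} {P Q : Cell d} (hi : i ≤ P.1) (hQ : Q ∈ dn i P) :
    ‖xC s0 Q - xC s0 P‖ ≤ Real.sqrt d * lev s0 P.1 := by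
  have h := (mem_dn hi).1 hQ
  have h1 := cen_sub_up hs i Q
  rw [h] at h1
  have h2 : Q.1 + i = P.1 := by rw [← h]; rfl
  rwa [h2] at h1

lemma lvl_dn {i : ℕ} {P Q : Cell d} (hQ : Q ∈ dn i P) : Q.1 = P.1 - i := by
  simp only [dn, Finset.mem_product, Finset.mem_singleton] at hQ
  exact hQ.1

lemma nw_pos {s0 : ℝ} (hs : 0 < s0) (Q : Cell d) : 0 < nw s0 Q := by
  have := lev_pos hs Q.1
  unfold nw
  positivity

lemma cw_nw (hd : 1 ≤ d) {s0 : ℝ} (hs : 0 < s0) (Q : Cell d) : cw s0 Q * nw s0 Q = 1 := by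
  have h := lev_pos hs Q.1
  unfold cw nw
  have h1 : lev s0 Q.1 ^ d = lev s0 Q.1 ^ (d - 1) * lev s0 Q.1 := by
    rw [← pow_succ]
    congr 1
    omega
  rw [h1]
  field_simp

lemma MAlev {s0 : ℝ} (hs : 0 < s0) {i j : ℕ} (h : i ≤ j) : lev s0 i ≤ lev s0 j := by
  unfold lev
  gcongr
  norm_num

/-! ## Overlap for general measures -/

open Classical in
lemma overlap (ν : Measure (Sp d)) (s ρ : ℝ) (hs : 0 < s) (hρ : 0 ≤ ρ) (S : Finset (Fin d → ℤ))
    {g : Sp d → ℝ} {A : Set (Sp d)} (hA : MeasurableSet A) (hg : IntegrableOn g A ν)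
    (h0 : ∀ y, 0 ≤ g y) (hsub : ∀ p ∈ S, ball (s • lat p) (ρ * s) ⊆ A) :
    ∑ p ∈ S, ∫ y in ball (s • lat p) (ρ * s), g y ∂ν ≤ (2 * ρ + 1) ^ d * ∫ y in A, g y ∂ν := by
  have hi : Integrable (A.indicator g) ν := (integrable_indicator_iff hA).2 hg
  have h1 : ∀ p ∈ S, ∫ y in ball (s • lat p) (ρ * s), g y ∂ν =
      ∫ y, (ball (s • lat p) (ρ * s)).indicator (A.indicator g) y ∂ν := by
    intro p hp
    rw [← integral_indicator measurableSet_ball]
    congr 1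
    funext y
    rw [Set.indicator_indicator, Set.inter_eq_self_of_subset_left (hsub p hp)]
  rw [Finset.sum_congr rfl h1,
    ← integral_finsetSum _ (fun p _ => hi.indicator measurableSet_ball),
    ← integral_indicator hA, ← integral_const_mul]
  refine integral_mono (integrable_finsetSum _ (fun p _ => hi.indicator measurableSet_ball))
    (hi.const_mul _) ?_
  intro y
  change ∑ p ∈ S, (ball (s • lat p) (ρ * s)).indicator (A.indicator g) y ≤
    (2 * ρ + 1) ^ d * A.indicator g y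
  have h2 : ∀ p ∈ S, (ball (s • lat p) (ρ * s)).indicator (A.indicator g) y =
      if y ∈ ball (s • lat p) (ρ * s) then A.indicator g y else 0 := by
    intro p _
    rw [Set.indicator_apply]
  rw [Finset.sum_congr rfl h2, ← Finset.sum_filter, Finset.sum_const, nsmul_eq_mul]
  exact mul_le_mul_of_nonneg_right (PK.card_le s ρ hs hρ S y)
    (Set.indicator_nonneg (fun z _ => h0 z) y)

/-- overlap for the descendants of a cell -/
lemma overlap_dn (ν : Measure (Sp d)) {s0 ρ : ℝ} (hs : 0 < s0) (hρ : 0 ≤ ρ) {i : ℕ} {P : Cell d}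
    (hi : i ≤ P.1) {g : Sp d → ℝ} {r : ℝ} (hr : Real.sqrt d * lev s0 P.1 + ρ * lev s0 (P.1 - i) ≤ r)
    (hg : IntegrableOn g (ball (xC s0 P) r) ν) (h0 : ∀ y, 0 ≤ g y) :
    ∑ Q ∈ dn i P, ∫ y in ball (xC s0 Q) (ρ * lev s0 Q.1), g y ∂ν ≤
      (2 * ρ + 1) ^ d * ∫ y in ball (xC s0 P) r, g y ∂ν := by
  have h1 : ∑ Q ∈ dn i P, ∫ y in ball (xC s0 Q) (ρ * lev s0 Q.1), g y ∂ν =
      ∑ p ∈ Fintype.piFinset (fun j => Finset.Ico (2 ^ i * P.2 j) (2 ^ i * (P.2 j + 1))),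
        ∫ y in ball (lev s0 (P.1 - i) • lat p) (ρ * lev s0 (P.1 - i)), g y ∂ν := by
    unfold dn
    rw [Finset.sum_product, Finset.sum_singleton]
    rfl
  rw [h1]
  refine overlap ν (lev s0 (P.1 - i)) ρ (lev_pos hs _) hρ _ measurableSet_ball hg h0 ?_
  intro p hp
  have hQ : ((P.1 - i, p) : Cell d) ∈ dn i P := by
    unfold dn
    rw [Finset.mem_product]
    exact ⟨Finset.mem_singleton.2 rfl, hp⟩
  have h2 := cen_sub_dn hs hi hQ
  have h3 : xC s0 ((P.1 - i, p) : Cell d) = lev s0 (P.1 - i) • lat p := rfl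
  rw [h3] at h2
  refine ball_subset_ball' ?_
  rw [dist_eq_norm]
  linarith

/-! ## Gaps -/

section Gaps

variable {E : Type} [NormedAddCommGroup E] [InnerProductSpace ℝ E] [FiniteDimensional ℝ E]
variable {b : Sp d → ℝ} {M c0 : ℝ}

lemma gm_nonneg (hb : AK b) (ε s0 : ℝ) (f : Sp d → E) (j : ℕ) (y : Sp d) :
    0 ≤ gm b ε s0 f j y := by
  unfold gm
  have := hb.norm_avk_le (fl b ε s0 f j) (ε * lev s0 (j + 1)) y
  have e : fl b ε s0 f (j + 1) y = avk b (ε * lev s0 (j + 1)) (fl b ε s0 f j) y := rfl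
  rw [e]
  linarith

lemma gm_cont (hb : AK b) (ε s0 : ℝ) {f : Sp d → E} (hf : Continuous f) (j : ℕ) :
    Continuous (gm b ε s0 f j) :=
  (hb.avk_cont (fl_cont hb ε s0 hf j).norm _).sub (fl_cont hb ε s0 hf (j + 1)).norm

lemma gm_cs (hb : AK b) (ε s0 : ℝ) {f : Sp d → E} (hc : HasCompactSupport f) (j : ℕ) :
    HasCompactSupport (gm b ε s0 f j) := by
  have h1 := hb.avk_cs (fl_cs hb ε s0 hc j).norm (ε * lev s0 (j + 1))
  have h2 := (fl_cs hb ε s0 hc (j + 1)).norm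
  exact h1.sub h2

/-- one step of the transfer -/
lemma step (hb : AK b) (hev : ∀ x, b (-x) = b x) (hρ : ∀ x, 1 / 2 ≤ ‖x‖ → b x = 0) {ε s0 : ℝ}
    (hε : 0 < ε) (hε1 : ε ≤ 1) (hs : 0 < s0) {f : Sp d → E} (hf : Continuous f)
    (hc : HasCompactSupport f) (x : Sp d) (r : ℝ) (j : ℕ) :
    ∫ y in ball x r, ‖fl b ε s0 f j y‖ ≤
      (∫ y in ball x (r + lev s0 j), ‖fl b ε s0 f (j + 1) y‖) +
        ∫ y in ball x (r + lev s0 j), gm b ε s0 f j y := by
  have hl := lev_pos hs j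
  have hl1 := lev_succ s0 j
  have hs' : 0 < ε * lev s0 (j + 1) := mul_pos hε (lev_pos hs _)
  have hn : Continuous (fun y => ‖fl b ε s0 f j y‖) := (fl_cont hb ε s0 hf j).norm
  have h1 := hb.setInt_le_avk hev hρ (LB.of_cont hn) (fl_cs hb ε s0 hc j).norm
    (fun _ => norm_nonneg _) hs' (E := ball x r) (E' := ball x (r + lev s0 j))
    measurableSet_ball measurableSet_ball (fun y hy z hz => by
      rw [mem_ball] at hy ⊢
      have h2 := dist_triangle z y x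
      rw [← dist_eq_norm] at hz
      have h3 : 1 / 2 * (ε * lev s0 (j + 1)) ≤ lev s0 j := by
        rw [hl1]
        nlinarith
      linarith)
  have i1 : Integrable (fun y => ‖fl b ε s0 f (j + 1) y‖) :=
    (fl_cont hb ε s0 hf (j + 1)).norm.integrable_of_hasCompactSupport (fl_cs hb ε s0 hc (j + 1)).norm
  have i2 : Integrable (gm b ε s0 f j) :=
    (gm_cont hb ε s0 hf j).integrable_of_hasCompactSupport (gm_cs hb ε s0 hc j)
  rw [← integral_add i1.integrableOn i2.integrableOn]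
  refine h1.trans (le_of_eq ?_)
  congr 1
  funext y
  unfold gm
  ring

/-- transfer of the mass between two levels -/
lemma transfer (hb : AK b) (hev : ∀ x, b (-x) = b x) (hρ : ∀ x, 1 / 2 ≤ ‖x‖ → b x = 0) {ε s0 : ℝ}
    (hε : 0 < ε) (hε1 : ε ≤ 1) (hs : 0 < s0) {f : Sp d → E} (hf : Continuous f)
    (hc : HasCompactSupport f) (x : Sp d) (r : ℝ) (l : ℕ) :
    ∀ (k : ℕ) (R' : ℝ), r + (lev s0 (l + k) - lev s0 l) ≤ R' →
    ∫ y in ball x r, ‖fl b ε s0 f l y‖ ≤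
      (∫ y in ball x (r + (lev s0 (l + k) - lev s0 l)), ‖fl b ε s0 f (l + k) y‖) +
        ∑ j ∈ Finset.Ico l (l + k), ∫ y in ball x R', gm b ε s0 f j y := by
  intro k
  induction k with
  | zero => intro R' _; simp
  | succ k ih =>
    intro R' hR'
    have hl := lev_pos hs (l + k)
    have hl1 : lev s0 (l + (k + 1)) = 2 * lev s0 (l + k) := lev_succ s0 (l + k)
    have h1 := ih R' (by rw [hl1] at hR'; linarith)
    have h2 := step hb hev hρ hε hε1 hs hf hc x (r + (lev s0 (l + k) - lev s0 l)) (l + k)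
    have e1 : r + (lev s0 (l + k) - lev s0 l) + lev s0 (l + k) =
        r + (lev s0 (l + (k + 1)) - lev s0 l) := by rw [hl1]; ring
    rw [e1] at h2
    have h3 : ∫ y in ball x (r + (lev s0 (l + (k + 1)) - lev s0 l)), gm b ε s0 f (l + k) y ≤
        ∫ y in ball x R', gm b ε s0 f (l + k) y := by
      refine setIntegral_mono_set ?_ ?_ ?_
      · exact ((gm_cont hb ε s0 hf _).integrable_of_hasCompactSupport
          (gm_cs hb ε s0 hc _)).integrableOn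
      · exact Filter.Eventually.of_forall fun y => gm_nonneg hb ε s0 f _ y
      · exact (ball_subset_ball hR').eventuallyLE
    have e2 : l + (k + 1) = l + k + 1 := rfl
    have e3 : ∑ j ∈ Finset.Ico l (l + (k + 1)), ∫ y in ball x R', gm b ε s0 f j y =
        (∑ j ∈ Finset.Ico l (l + k), ∫ y in ball x R', gm b ε s0 f j y) +
          ∫ y in ball x R', gm b ε s0 f (l + k) y := by
      rw [e2, Finset.sum_Ico_succ_top (by omega)]
    rw [e3]
    have e4 : ∫ y in ball x (r + (lev s0 (l + (k + 1)) - lev s0 l)), ‖fl b ε s0 f (l + (k + 1)) y‖ =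
      ∫ y in ball x (r + (lev s0 (l + (k + 1)) - lev s0 l)), ‖fl b ε s0 f (l + k + 1) y‖ := rfl
    rw [e4]
    linarith

lemma gC_nonneg (hb : AK b) (ε R s0 : ℝ) (f : Sp d → E) (i : ℕ) (P : Cell d) :
    0 ≤ gC b ε R s0 f i P :=
  Finset.sum_nonneg fun j _ => integral_nonneg fun y => gm_nonneg hb ε s0 f j y

lemma int_gm_nonneg (hb : AK b) (ε s0 : ℝ) (f : Sp d → E) (j : ℕ) :
    0 ≤ ∫ y, gm b ε s0 f j y := integral_nonneg fun y => gm_nonneg hb ε s0 f j y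

/-- the gaps telescope -/
lemma sum_gm (hb : AK b) (ε s0 : ℝ) {f : Sp d → E} (hf : Continuous f)
    (hc : HasCompactSupport f) (N : ℕ) :
    ∑ j ∈ Finset.range N, ∫ y, gm b ε s0 f j y = (∫ y, ‖f y‖) - ∫ y, ‖fl b ε s0 f N y‖ := by
  induction N with
  | zero => simp [fl]
  | succ N ih =>
    rw [Finset.sum_range_succ, ih]
    have hn := (fl_cont hb ε s0 hf N).norm
    have hcs := (fl_cs hb ε s0 hc N).norm
    have i1 : Integrable (avk b (ε * lev s0 (N + 1)) fun z => ‖fl b ε s0 f N z‖) :=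
      (hb.avk_cont hn _).integrable_of_hasCompactSupport (hb.avk_cs hcs _)
    have i2 : Integrable (fun y => ‖fl b ε s0 f (N + 1) y‖) :=
      (fl_cont hb ε s0 hf (N + 1)).norm.integrable_of_hasCompactSupport
        (fl_cs hb ε s0 hc (N + 1)).norm
    have e1 : ∫ y, gm b ε s0 f N y = (∫ y, ‖fl b ε s0 f N y‖) - ∫ y, ‖fl b ε s0 f (N + 1) y‖ := by
      unfold gm
      rw [integral_sub i1 i2, hb.avk_int hn hcs]
    rw [e1]
    ring

lemma sum_gm_le (hb : AK b) (ε s0 : ℝ) {f : Sp d → E} (hf : Continuous f)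
    (hc : HasCompactSupport f) (N : ℕ) :
    ∑ j ∈ Finset.range N, ∫ y, gm b ε s0 f j y ≤ ∫ y, ‖f y‖ := by
  rw [sum_gm hb ε s0 hf hc N]
  have : 0 ≤ ∫ y, ‖fl b ε s0 f N y‖ := integral_nonneg fun _ => norm_nonneg _
  linarith

/-! ## Masses -/

lemma mC_nonneg {ε R s0 : ℝ} (hs : 0 < s0) (f : Sp d → E) (Q : Cell d) : 0 ≤ mC b ε R s0 f Q := by
  have h := nw_pos hs Q
  unfold nw at h
  exact mul_nonneg h.le (integral_nonneg fun _ => norm_nonneg _)

lemma mT_nonneg {ε s0 : ℝ} (hs : 0 < s0) (f : Sp d → E) (Q : Cell d) : 0 ≤ mT b ε s0 f Q := by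
  have h := nw_pos hs Q
  have hl := lev_pos hs Q.1
  refine mul_nonneg h.le (integral_nonneg fun y => ?_)
  change 0 ≤ ‖fl b ε s0 f (Q.1 - 1) y‖ / (1 + ‖y - xC s0 Q‖ / lev s0 Q.1) ^ (d + 2)
  positivity

lemma mT_integrable (hb : AK b) {ε s0 : ℝ} (_hs : 0 < s0) {f : Sp d → E} (hf : Continuous f)
    (hc : HasCompactSupport f) (j : ℕ) (x : Sp d) {t : ℝ} (ht : 0 < t) :
    Integrable fun y => ‖fl b ε s0 f j y‖ / (1 + ‖y - x‖ / t) ^ (d + 2) := by
  have hn := (fl_cont hb ε s0 hf j).norm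
  have hcs := (fl_cs hb ε s0 hc j).norm
  have hw : Continuous fun y : Sp d => ((1 + ‖y - x‖ / t) ^ (d + 2))⁻¹ := by
    refine Continuous.inv₀ (by fun_prop) fun y => ?_
    have : 0 ≤ ‖y - x‖ / t := by positivity
    positivity
  have e : (fun y => ‖fl b ε s0 f j y‖ / (1 + ‖y - x‖ / t) ^ (d + 2)) =
      fun y => ‖fl b ε s0 f j y‖ * ((1 + ‖y - x‖ / t) ^ (d + 2))⁻¹ := by
    funext y; rw [div_eq_mul_inv]
  rw [e]
  exact (hn.mul hw).integrable_of_hasCompactSupport hcs.mul_right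

lemma mC_le_mT (hb : AK b) {ε R s0 : ℝ} (hR : 0 ≤ R) (hs : 0 < s0) {f : Sp d → E}
    (hf : Continuous f) (hc : HasCompactSupport f) (Q : Cell d) :
    mC b ε R s0 f Q ≤ (1 + R) ^ (d + 2) * mT b ε s0 f Q := by
  have h := nw_pos hs Q
  have hl := lev_pos hs Q.1
  have h1 : ∫ y in ball (xC s0 Q) (R * lev s0 Q.1), ‖fl b ε s0 f (Q.1 - 1) y‖ ≤
      (1 + R) ^ (d + 2) *
        ∫ y, ‖fl b ε s0 f (Q.1 - 1) y‖ / (1 + ‖y - xC s0 Q‖ / lev s0 Q.1) ^ (d + 2) := by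
    rw [← integral_indicator measurableSet_ball, ← integral_const_mul]
    refine integral_mono_of_nonneg (Filter.Eventually.of_forall fun y =>
      Set.indicator_nonneg (fun _ _ => norm_nonneg _) y)
      ((mT_integrable hb hs hf hc _ _ hl).const_mul _) (Filter.Eventually.of_forall fun y => ?_)
    change (ball (xC s0 Q) (R * lev s0 Q.1)).indicator (fun y => ‖fl b ε s0 f (Q.1 - 1) y‖) y ≤
      (1 + R) ^ (d + 2) *
        (‖fl b ε s0 f (Q.1 - 1) y‖ / (1 + ‖y - xC s0 Q‖ / lev s0 Q.1) ^ (d + 2))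
    have h0 : 0 ≤ ‖y - xC s0 Q‖ / lev s0 Q.1 := by positivity
    by_cases hy : y ∈ ball (xC s0 Q) (R * lev s0 Q.1)
    · rw [Set.indicator_of_mem hy]
      rw [mem_ball, dist_eq_norm] at hy
      have h2 : ‖y - xC s0 Q‖ / lev s0 Q.1 ≤ R := by
        rw [div_le_iff₀ hl]; exact hy.le
      have h3 : (1 + ‖y - xC s0 Q‖ / lev s0 Q.1) ^ (d + 2) ≤ (1 + R) ^ (d + 2) :=
        pow_le_pow_left₀ (by positivity) (by linarith) _
      have h4 : 0 < (1 + ‖y - xC s0 Q‖ / lev s0 Q.1) ^ (d + 2) := by positivity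
      rw [mul_div_assoc', le_div_iff₀ h4, mul_comm]
      exact mul_le_mul_of_nonneg_right h3 (norm_nonneg _)
    · rw [Set.indicator_of_notMem hy]
      positivity
  calc mC b ε R s0 f Q = nw s0 Q *
        ∫ y in ball (xC s0 Q) (R * lev s0 Q.1), ‖fl b ε s0 f (Q.1 - 1) y‖ := rfl
    _ ≤ nw s0 Q * ((1 + R) ^ (d + 2) *
        ∫ y, ‖fl b ε s0 f (Q.1 - 1) y‖ / (1 + ‖y - xC s0 Q‖ / lev s0 Q.1) ^ (d + 2)) :=
        mul_le_mul_of_nonneg_left h1 h.le
    _ = (1 + R) ^ (d + 2) * mT b ε s0 f Q := by unfold mT; ring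

lemma cw_mC (hd : 1 ≤ d) {ε R s0 : ℝ} (hs : 0 < s0) (f : Sp d → E) (Q : Cell d) :
    cw s0 Q * mC b ε R s0 f Q =
      ∫ y in ball (xC s0 Q) (R * lev s0 Q.1), ‖fl b ε s0 f (Q.1 - 1) y‖ := by
  have e : mC b ε R s0 f Q = nw s0 Q *
        ∫ y in ball (xC s0 Q) (R * lev s0 Q.1), ‖fl b ε s0 f (Q.1 - 1) y‖ := rfl
  rw [e, ← mul_assoc, cw_nw hd hs, one_mul]

/-- fact T1 -/
lemma factT1 (hd : 1 ≤ d) (hb : AK b) (hev : ∀ x, b (-x) = b x)
    (hρ : ∀ x, 1 / 2 ≤ ‖x‖ → b x = 0) {ε s0 R : ℝ} (hε : 0 < ε) (hε1 : ε ≤ 1) (hs : 0 < s0)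
    (hR : (d : ℝ) + 4 ≤ R) {f : Sp d → E} (hf : Continuous f) (hc : HasCompactSupport f)
    (i : ℕ) (P : Cell d) (hi : i ≤ P.1) :
    ∑ Q ∈ dn i P, cw s0 Q * mC b ε R s0 f Q ≤
      (2 * R + 1) ^ d * (1 + R) ^ (d + 2) * (cw s0 P * mT b ε s0 f P + gC b ε (2 * R) s0 f i P) := by
  have hd1 : (1 : ℝ) ≤ d := by exact_mod_cast hd
  have hR0 : 0 ≤ R := by linarith
  have hcw := cw_nonneg hs P
  have hmT := mT_nonneg (b := b) (ε := ε) hs f P
  have hgC := gC_nonneg hb ε (2 * R) s0 f i P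
  have hone : (1 : ℝ) ≤ (2 * R + 1) ^ d := one_le_pow₀ (by linarith)
  have hone' : (1 : ℝ) ≤ (1 + R) ^ (d + 2) := one_le_pow₀ (by linarith)
  have hmC := mC_le_mT hb (ε := ε) hR0 hs hf hc P
  rcases Nat.eq_zero_or_pos i with h0 | h0
  · subst h0
    have e1 : dn 0 P = {P} := by
      ext Q
      rw [mem_dn (Nat.zero_le _), up_zero, Finset.mem_singleton]
    rw [e1, Finset.sum_singleton]
    have h1 : cw s0 P * mC b ε R s0 f P ≤ (1 + R) ^ (d + 2) * (cw s0 P * mT b ε s0 f P) := by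
      calc cw s0 P * mC b ε R s0 f P ≤ cw s0 P * ((1 + R) ^ (d + 2) * mT b ε s0 f P) :=
            mul_le_mul_of_nonneg_left hmC hcw
        _ = _ := by ring
    have h2 : 0 ≤ cw s0 P * mT b ε s0 f P := mul_nonneg hcw hmT
    have h3 : (1 + R) ^ (d + 2) * (cw s0 P * mT b ε s0 f P) ≤
        (2 * R + 1) ^ d * (1 + R) ^ (d + 2) * (cw s0 P * mT b ε s0 f P) := by
      have h4 : 0 ≤ (1 + R) ^ (d + 2) * (cw s0 P * mT b ε s0 f P) := by positivity
      nlinarith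
    have h5 : 0 ≤ (2 * R + 1) ^ d * (1 + R) ^ (d + 2) * gC b ε (2 * R) s0 f 0 P := by positivity
    calc cw s0 P * mC b ε R s0 f P ≤ (2 * R + 1) ^ d * (1 + R) ^ (d + 2) *
          (cw s0 P * mT b ε s0 f P) := h1.trans h3
      _ ≤ _ := by rw [mul_add]; linarith
  · -- the levels
    have hl := lev_pos hs P.1
    have hsd : Real.sqrt d ≤ (d + 1) / 2 := by
      rw [Real.sqrt_le_left (by linarith)]
      nlinarith [sq_nonneg ((d : ℝ) - 1)]
    set g : Sp d → ℝ := fun y => ‖fl b ε s0 f (P.1 - i - 1) y‖ with hg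
    have hgi : Integrable g := (fl_cont hb ε s0 hf _).norm.integrable_of_hasCompactSupport
      (fl_cs hb ε s0 hc _).norm
    have e1 : ∑ Q ∈ dn i P, cw s0 Q * mC b ε R s0 f Q =
        ∑ Q ∈ dn i P, ∫ y in ball (xC s0 Q) (R * lev s0 Q.1), g y := by
      refine Finset.sum_congr rfl fun Q hQ => ?_
      rw [cw_mC hd hs, lvl_dn hQ]
    have h1 := overlap_dn (volume : Measure (Sp d)) (s0 := s0) (ρ := R) hs hR0 hi (g := g)
      (r := Real.sqrt d * lev s0 P.1 + R * lev s0 (P.1 - i)) le_rfl hgi.integrableOn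
      (fun _ => norm_nonneg _)
    obtain ⟨k, hk⟩ : ∃ k, P.1 - i - 1 + k = P.1 - 1 := ⟨P.1 - 1 - (P.1 - i - 1), by omega⟩
    have hlq : lev s0 (P.1 - i) ≤ lev s0 P.1 / 2 := by
      have h2 : lev s0 (P.1 - i) ≤ lev s0 (P.1 - 1) := MAlev hs (by omega)
      have h3 : lev s0 P.1 = 2 * lev s0 (P.1 - 1) := by
        have : P.1 = P.1 - 1 + 1 := by omega
        rw [this, lev_succ]
        simp
      linarith
    have hlN : lev s0 (P.1 - 1) = lev s0 P.1 / 2 := by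
      have h3 : lev s0 P.1 = 2 * lev s0 (P.1 - 1) := by
        have : P.1 = P.1 - 1 + 1 := by omega
        rw [this, lev_succ]
        simp
      linarith
    have hl0 := lev_pos hs (P.1 - i - 1)
    have hrad : Real.sqrt d * lev s0 P.1 + R * lev s0 (P.1 - i) +
        (lev s0 (P.1 - i - 1 + k) - lev s0 (P.1 - i - 1)) ≤ R * lev s0 P.1 := by
      rw [hk, hlN]
      have h2 : Real.sqrt d * lev s0 P.1 ≤ (d + 1) / 2 * lev s0 P.1 :=
        mul_le_mul_of_nonneg_right hsd hl.le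
      have h3 : R * lev s0 (P.1 - i) ≤ R * (lev s0 P.1 / 2) :=
        mul_le_mul_of_nonneg_left hlq hR0
      nlinarith
    have h2 := transfer hb hev hρ hε hε1 hs hf hc (xC s0 P)
      (Real.sqrt d * lev s0 P.1 + R * lev s0 (P.1 - i)) (P.1 - i - 1) k (2 * R * lev s0 P.1)
      (hrad.trans (by nlinarith))
    have h3 : ∫ y in ball (xC s0 P) (Real.sqrt d * lev s0 P.1 + R * lev s0 (P.1 - i) +
        (lev s0 (P.1 - i - 1 + k) - lev s0 (P.1 - i - 1))), ‖fl b ε s0 f (P.1 - i - 1 + k) y‖ ≤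
        cw s0 P * mC b ε R s0 f P := by
      rw [cw_mC hd hs, hk]
      rw [hk] at hrad
      refine setIntegral_mono_set ?_ ?_ ?_
      · exact ((fl_cont hb ε s0 hf _).norm.integrable_of_hasCompactSupport
          (fl_cs hb ε s0 hc _).norm).integrableOn
      · exact Filter.Eventually.of_forall fun y => norm_nonneg _
      · exact (ball_subset_ball hrad).eventuallyLE
    have e2 : ∑ j ∈ Finset.Ico (P.1 - i - 1) (P.1 - i - 1 + k),
        ∫ y in ball (xC s0 P) (2 * R * lev s0 P.1), gm b ε s0 f j y = gC b ε (2 * R) s0 f i P := by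
      rw [hk]
      rfl
    rw [e2] at h2
    have h4 : cw s0 P * mC b ε R s0 f P ≤ (1 + R) ^ (d + 2) * (cw s0 P * mT b ε s0 f P) := by
      calc cw s0 P * mC b ε R s0 f P ≤ cw s0 P * ((1 + R) ^ (d + 2) * mT b ε s0 f P) :=
            mul_le_mul_of_nonneg_left hmC hcw
        _ = _ := by ring
    have h5 : gC b ε (2 * R) s0 f i P ≤ (1 + R) ^ (d + 2) * gC b ε (2 * R) s0 f i P := by
      nlinarith
    rw [e1]
    calc ∑ Q ∈ dn i P, ∫ y in ball (xC s0 Q) (R * lev s0 Q.1), g y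
        ≤ (2 * R + 1) ^ d * ∫ y in ball (xC s0 P)
            (Real.sqrt d * lev s0 P.1 + R * lev s0 (P.1 - i)), g y := h1
      _ ≤ (2 * R + 1) ^ d * ((1 + R) ^ (d + 2) *
            (cw s0 P * mT b ε s0 f P + gC b ε (2 * R) s0 f i P)) := by
          refine mul_le_mul_of_nonneg_left ?_ (by positivity)
          rw [mul_add]
          linarith
      _ = _ := by ring

/-! ## The sum of the gaps -/

/-- sum over windows of length i -/
lemma window (a : ℕ → ℝ) (h0 : ∀ j, 0 ≤ a j) {A : ℝ} (hA : ∀ N, ∑ j ∈ Finset.range N, a j ≤ A)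
    (i K : ℕ) : ∑ k ∈ Finset.range K, ∑ j ∈ Finset.Ico (k - i - 1) (k - 1), a j ≤ i * A := by
  have h1 : ∀ k ∈ Finset.range K, ∑ j ∈ Finset.Ico (k - i - 1) (k - 1), a j =
      ∑ j ∈ Finset.range K, if k - i - 1 ≤ j ∧ j < k - 1 then a j else 0 := by
    intro k hk
    rw [Finset.mem_range] at hk
    rw [← Finset.sum_filter]
    refine Finset.sum_congr ?_ fun _ _ => rfl
    ext j
    simp only [Finset.mem_Ico, Finset.mem_filter, Finset.mem_range]
    constructor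
    · intro h; exact ⟨by omega, h⟩
    · intro h; exact h.2
  rw [Finset.sum_congr rfl h1, Finset.sum_comm]
  have h2 : ∀ j ∈ Finset.range K,
      (∑ k ∈ Finset.range K, if k - i - 1 ≤ j ∧ j < k - 1 then a j else 0) ≤ i * a j := by
    intro j _
    rw [← Finset.sum_filter, Finset.sum_const, nsmul_eq_mul]
    refine mul_le_mul_of_nonneg_right ?_ (h0 j)
    have h3 : (Finset.range K).filter (fun k => k - i - 1 ≤ j ∧ j < k - 1) ⊆
        Finset.Ico (j + 2) (j + 2 + i) := by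
      intro k hk
      simp only [Finset.mem_filter, Finset.mem_range] at hk
      rw [Finset.mem_Ico]
      omega
    have h4 := Finset.card_le_card h3
    rw [Nat.card_Ico] at h4
    have h5 : j + 2 + i - (j + 2) = i := by omega
    rw [h5] at h4
    exact_mod_cast h4
  refine (Finset.sum_le_sum h2).trans ?_
  rw [← Finset.mul_sum]
  exact mul_le_mul_of_nonneg_left (hA K) (Nat.cast_nonneg i)

lemma gC_level (hb : AK b) {ε s0 R : ℝ} (hR : 0 ≤ R) (hs : 0 < s0) {f : Sp d → E}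
    (hf : Continuous f) (hc : HasCompactSupport f) (i k : ℕ) (S : Finset (Fin d → ℤ)) :
    ∑ p ∈ S, gC b ε R s0 f i (k, p) ≤
      (2 * R + 1) ^ d * ∑ j ∈ Finset.Ico (k - i - 1) (k - 1), ∫ y, gm b ε s0 f j y := by
  change ∑ p ∈ S, ∑ j ∈ Finset.Ico (k - i - 1) (k - 1),
    ∫ y in ball (lev s0 k • lat p) (R * lev s0 k), gm b ε s0 f j y ≤ _
  rw [Finset.sum_comm, Finset.mul_sum]
  refine Finset.sum_le_sum fun j _ => ?_
  exact PK.overlap (lev s0 k) R (lev_pos hs k) hR S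
    ((gm_cont hb ε s0 hf j).integrable_of_hasCompactSupport (gm_cs hb ε s0 hc j))
    (gm_nonneg hb ε s0 f j)

lemma factG (hb : AK b) {ε s0 R : ℝ} (hR : 0 ≤ R) (hs : 0 < s0) {f : Sp d → E}
    (hf : Continuous f) (hc : HasCompactSupport f) (i : ℕ) :
    cs univ (gC b ε R s0 f i) ≤ ENNReal.ofReal ((2 * R + 1) ^ d * (i * ∫ y, ‖f y‖)) := by
  rw [cs_univ]
  have h00 : ∑' Q : Cell d, ENNReal.ofReal (gC b ε R s0 f i Q) =
      ∑' (k : ℕ) (p : Fin d → ℤ), ENNReal.ofReal (gC b ε R s0 f i (k, p)) :=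
    ENNReal.tsum_prod (f := fun k p => ENNReal.ofReal (gC b ε R s0 f i (k, p)))
  rw [h00]
  have h1 : ∀ k : ℕ, ∑' p : Fin d → ℤ, ENNReal.ofReal (gC b ε R s0 f i (k, p)) ≤
      ENNReal.ofReal ((2 * R + 1) ^ d *
        ∑ j ∈ Finset.Ico (k - i - 1) (k - 1), ∫ y, gm b ε s0 f j y) := by
    intro k
    rw [ENNReal.tsum_eq_iSup_sum]
    refine iSup_le fun S => ?_
    rw [← ENNReal.ofReal_sum_of_nonneg (fun p _ => gC_nonneg hb ε R s0 f i (k, p))]
    exact ENNReal.ofReal_le_ofReal (gC_level hb hR hs hf hc i k S)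
  refine (ENNReal.tsum_le_tsum h1).trans ?_
  rw [ENNReal.tsum_eq_iSup_nat]
  refine iSup_le fun K => ?_
  have h0 : ∀ k, 0 ≤ (2 * R + 1) ^ d *
      ∑ j ∈ Finset.Ico (k - i - 1) (k - 1), ∫ y, gm b ε s0 f j y := fun k =>
    mul_nonneg (by positivity) (Finset.sum_nonneg fun j _ => int_gm_nonneg hb ε s0 f j)
  rw [← ENNReal.ofReal_sum_of_nonneg (fun k _ => h0 k), ← Finset.mul_sum]
  refine ENNReal.ofReal_le_ofReal (mul_le_mul_of_nonneg_left ?_ (by positivity))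
  exact window _ (int_gm_nonneg hb ε s0 f) (sum_gm_le hb ε s0 hf hc) i K

end Gaps

/-! ## Weights of the measure -/

section Weights

variable {C' : ℝ} {μ : Measure (Sp d)}

lemma toReal_mono (hμ : Gro C' μ) {A B : Set (Sp d)} (h : A ⊆ B) : (μ A).toReal ≤ (μ B).toReal := by
  have := hμ.fin
  exact ENNReal.toReal_mono (measure_ne_top μ B) (measure_mono h)

lemma gro_real (hμ : Gro C' μ) (hC : 0 < C') (x : Sp d) {r : ℝ} (hr : 0 < r) :
    (μ (ball x r)).toReal ≤ C' * r ^ (d - 1) :=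
  ENNReal.toReal_le_of_le_ofReal (by positivity) (hμ.gro x r hr)

lemma oC_nonneg (ρ s0 : ℝ) (Q : Cell d) : 0 ≤ oC μ ρ s0 Q := Real.sqrt_nonneg _

lemma oC_sq {s0 : ℝ} (hs : 0 < s0) (ρ : ℝ) (Q : Cell d) :
    oC μ ρ s0 Q ^ 2 = nw s0 Q * (μ (ball (xC s0 Q) (ρ * lev s0 Q.1))).toReal := by
  unfold oC
  rw [Real.sq_sqrt (mul_nonneg (nw_pos hs Q).le ENNReal.toReal_nonneg)]

lemma cw_oC_sq (hd : 1 ≤ d) {s0 : ℝ} (hs : 0 < s0) (ρ : ℝ) (Q : Cell d) :
    cw s0 Q * oC μ ρ s0 Q ^ 2 = (μ (ball (xC s0 Q) (ρ * lev s0 Q.1))).toReal := by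
  rw [oC_sq hs, ← mul_assoc, cw_nw hd hs, one_mul]

lemma oC_mono (hμ : Gro C' μ) {s0 : ℝ} (hs : 0 < s0) {ρ ρ' : ℝ} (h : ρ ≤ ρ') (Q : Cell d) :
    oC μ ρ s0 Q ≤ oC μ ρ' s0 Q := by
  unfold oC
  refine Real.sqrt_le_sqrt (mul_le_mul_of_nonneg_left ?_ (nw_pos hs Q).le)
  exact toReal_mono hμ (ball_subset_ball (mul_le_mul_of_nonneg_right h (lev_pos hs _).le))

lemma nw_gro (hd : 1 ≤ d) (hμ : Gro C' μ) (hC : 0 < C') {s0 : ℝ} (hs : 0 < s0) {ρ : ℝ}
    (hρ : 0 < ρ) (Q : Cell d) :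
    nw s0 Q * (μ (ball (xC s0 Q) (ρ * lev s0 Q.1))).toReal ≤ C' * ρ ^ (d - 1) := by
  have hl := lev_pos hs Q.1
  have h1 := gro_real hμ hC (xC s0 Q) (mul_pos hρ hl)
  have h2 := cw_nw hd hs Q
  calc nw s0 Q * (μ (ball (xC s0 Q) (ρ * lev s0 Q.1))).toReal
      ≤ nw s0 Q * (C' * (ρ * lev s0 Q.1) ^ (d - 1)) :=
        mul_le_mul_of_nonneg_left h1 (nw_pos hs Q).le
    _ = C' * ρ ^ (d - 1) * (cw s0 Q * nw s0 Q) := by
        unfold cw
        rw [mul_pow]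
        ring
    _ = _ := by rw [h2, mul_one]

lemma sqrt_le_max {x K : ℝ} (hK : 1 ≤ K) (h : x ≤ K) : Real.sqrt x ≤ K := by
  rw [Real.sqrt_le_left (by linarith)]
  nlinarith

lemma sum_mu (hμ : Gro C' μ) {s0 ρ : ℝ} (hs : 0 < s0) (hρ : 0 ≤ ρ) {i : ℕ} {P : Cell d}
    (hi : i ≤ P.1) :
    ∑ Q ∈ dn i P, (μ (ball (xC s0 Q) (ρ * lev s0 Q.1))).toReal ≤
      (2 * ρ + 1) ^ d * (μ (ball (xC s0 P) ((ρ + Real.sqrt d) * lev s0 P.1))).toReal := by
  have := hμ.fin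
  have hl : lev s0 (P.1 - i) ≤ lev s0 P.1 := MAlev hs (by omega)
  have h1 := overlap_dn μ (s0 := s0) (ρ := ρ) hs hρ hi (g := fun _ => (1 : ℝ))
    (r := (ρ + Real.sqrt d) * lev s0 P.1) (by nlinarith) (integrable_const (1 : ℝ)).integrableOn
    (fun _ => zero_le_one)
  simpa [Measure.real] using h1

lemma oC_up (hd : 1 ≤ d) (hμ : Gro C' μ) {s0 ρ : ℝ} (hs : 0 < s0) (hρ : 3 * (d : ℝ) ≤ ρ) {m : ℕ}
    (hm : 1 ≤ m) (Q : Cell d) :
    oC μ (ρ + Real.sqrt d) s0 Q ≤ 2 ^ (m * (d - 1)) * oC μ ρ s0 (up m Q) := by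
  have hd1 : (1 : ℝ) ≤ d := by exact_mod_cast hd
  have hl := lev_pos hs Q.1
  have hlm : lev s0 (Q.1 + m) = 2 ^ m * lev s0 Q.1 := lev_add s0 Q.1 m
  have h2m : (2 : ℝ) ≤ 2 ^ m := by
    calc (2 : ℝ) = 2 ^ 1 := (pow_one 2).symm
      _ ≤ 2 ^ m := pow_le_pow_right₀ (by norm_num) hm
  have hsd : Real.sqrt d ≤ d := by
    rw [Real.sqrt_le_left (by linarith)]
    nlinarith
  have hcen := cen_sub_up hs m Q
  have hsub : ball (xC s0 Q) ((ρ + Real.sqrt d) * lev s0 Q.1) ⊆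
      ball (xC s0 (up m Q)) (ρ * lev s0 (up m Q).1) := by
    refine ball_subset_ball' ?_
    rw [dist_eq_norm]
    have e : (up m Q).1 = Q.1 + m := rfl
    rw [e]
    have h3 : (ρ + Real.sqrt d) * lev s0 Q.1 + Real.sqrt d * lev s0 (Q.1 + m) ≤
        ρ * lev s0 (Q.1 + m) := by
      rw [hlm]
      have h4 : ρ + Real.sqrt d + Real.sqrt d * 2 ^ m ≤ ρ * 2 ^ m := by
        have h5 : 3 * Real.sqrt d ≤ ρ := by linarith
        nlinarith [Real.sqrt_nonneg (d : ℝ)]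
      nlinarith
    linarith
  have hnw : nw s0 Q = 2 ^ (m * (d - 1)) * nw s0 (up m Q) := by
    have h5 := cw_nw hd hs Q
    have h6 := cw_nw hd hs (up m Q)
    have h7 : cw s0 (up m Q) = 2 ^ (m * (d - 1)) * cw s0 Q := by
      unfold cw
      have e : (up m Q).1 = Q.1 + m := rfl
      rw [e, hlm, mul_pow, ← pow_mul]
    have h8 := cw_pos hs Q
    rw [h7] at h6
    have h9 : cw s0 Q * (2 ^ (m * (d - 1)) * nw s0 (up m Q)) = cw s0 Q * nw s0 Q := by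
      rw [h5, ← h6]; ring
    exact (mul_left_cancel₀ h8.ne' h9).symm
  have hK : (1 : ℝ) ≤ 2 ^ (m * (d - 1)) := one_le_pow₀ (by norm_num)
  unfold oC
  rw [hnw, mul_assoc]
  rw [Real.sqrt_mul (by positivity)]
  have h10 : Real.sqrt (2 ^ (m * (d - 1))) ≤ 2 ^ (m * (d - 1)) := sqrt_le_max hK le_rfl
  refine mul_le_mul h10 (Real.sqrt_le_sqrt (mul_le_mul_of_nonneg_left (toReal_mono hμ hsub)
    (nw_pos hs _).le)) (Real.sqrt_nonneg _) (by positivity)

end Weights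

end CT1

open CT1 in
theorem stmtCT1 : StmtCT1 := by
  intro d hd M c0 ε C' R ρ hε hε1 hC' hR hρ b hbK m hm
  have hb : AK b := hbK.ak
  have hev := hbK.even
  have hsup := hbK.supp
  have hd1 : (1 : ℝ) ≤ d := by exact_mod_cast hd
  have hR0 : 0 ≤ R := by linarith
  have hρ0 : 0 < ρ := by linarith
  have hsq : 0 ≤ Real.sqrt (d : ℝ) := Real.sqrt_nonneg _
  set ρ' : ℝ := ρ + Real.sqrt d with hρ'
  have hρ'0 : 0 < ρ' := by positivity
  set K1 : ℝ := (2 * R + 1) ^ d * (1 + R) ^ (d + 2) with hK1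
  set K2 : ℝ := 1 + C' * ρ' ^ (d - 1) with hK2
  set K3 : ℝ := 2 ^ (m * (d - 1)) with hK3
  set K4 : ℝ := (2 * ρ + 1) ^ d with hK4
  set K5 : ℝ := (2 * ρ' + 1) ^ d * (C' * (ρ' + Real.sqrt d) ^ (d - 1)) with hK5
  set K6 : ℝ := (2 * (2 * R) + 1) ^ d with hK6
  have k1 : 0 ≤ K1 := by positivity
  have k2 : 0 ≤ K2 := by positivity
  have k3 : 0 ≤ K3 := by positivity
  have k4 : 0 ≤ K4 := by positivity
  have k5 : 0 ≤ K5 := by positivity
  have k6 : 0 ≤ K6 := by positivity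
  refine ⟨1 + K1 + K2 + K3 + K4 + K5 + K6, by linarith, ?_⟩
  intro E _ _ _ f hf hc μ hμ s0 hs
  set K : ℝ := 1 + K1 + K2 + K3 + K4 + K5 + K6 with hK
  have hfin := hμ.fin
  refine ⟨fun Q => ⟨mC_nonneg hs f Q, mT_nonneg hs f Q, ?_⟩, fun i Q => gC_nonneg hb ε _ s0 f i Q,
    fun Q => ⟨oC_nonneg _ _ _, oC_mono hμ hs (by linarith) Q, ?_, ?_⟩, ?_, ?_, ?_, ?_⟩
  · have h1 := mC_le_mT hb (ε := ε) hR0 hs hf hc Q
    have h2 := mT_nonneg (b := b) (ε := ε) hs f Q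
    have h3 : (1 + R) ^ (d + 2) ≤ K := by
      have h4 : (1 : ℝ) ≤ (2 * R + 1) ^ d := one_le_pow₀ (by linarith)
      have h5 : (0 : ℝ) ≤ (1 + R) ^ (d + 2) := by positivity
      have h6 : (1 + R) ^ (d + 2) ≤ K1 := by rw [hK1]; nlinarith
      linarith
    exact h1.trans (mul_le_mul_of_nonneg_right h3 h2)
  · have h1 := nw_gro hd hμ hC' hs hρ'0 Q
    have h2 : oC μ ρ' s0 Q ≤ K2 := by
      unfold oC
      refine sqrt_le_max ?_ (h1.trans ?_)
      · rw [hK2]; have : 0 ≤ C' * ρ' ^ (d - 1) := by positivity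
        linarith
      · rw [hK2]; linarith
    linarith
  · have h1 := oC_up hd hμ hs hρ hm Q
    have h2 : K3 * oC μ ρ s0 (up m Q) ≤ K * oC μ ρ s0 (up m Q) :=
      mul_le_mul_of_nonneg_right (by linarith) (oC_nonneg _ _ _)
    exact h1.trans h2
  · intro i P hi
    have h1 := factT1 hd hb hev hsup hε hε1 hs hR hf hc i P hi
    have h2 : 0 ≤ cw s0 P * mT b ε s0 f P + gC b ε (2 * R) s0 f i P :=
      add_nonneg (mul_nonneg (cw_nonneg hs P) (mT_nonneg hs f P)) (gC_nonneg hb ε _ s0 f i P)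
    exact h1.trans (mul_le_mul_of_nonneg_right (by linarith) h2)
  · intro i P hi
    have h1 := sum_mu hμ (ρ := ρ) hs hρ0.le hi
    have e1 : ∑ Q ∈ dn i P, cw s0 Q * oC μ ρ s0 Q ^ 2 =
        ∑ Q ∈ dn i P, (μ (ball (xC s0 Q) (ρ * lev s0 Q.1))).toReal :=
      Finset.sum_congr rfl fun Q _ => cw_oC_sq hd hs ρ Q
    rw [e1, cw_oC_sq hd hs]
    exact h1.trans (mul_le_mul_of_nonneg_right (by linarith) ENNReal.toReal_nonneg)
  · intro i P hi
    have h1 := sum_mu hμ (ρ := ρ') hs hρ'0.le hi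
    have e1 : ∑ Q ∈ dn i P, cw s0 Q * oC μ ρ' s0 Q ^ 2 =
        ∑ Q ∈ dn i P, (μ (ball (xC s0 Q) (ρ' * lev s0 Q.1))).toReal :=
      Finset.sum_congr rfl fun Q _ => cw_oC_sq hd hs ρ' Q
    rw [e1]
    have h2 := gro_real hμ hC' (xC s0 P) (r := (ρ' + Real.sqrt d) * lev s0 P.1)
      (mul_pos (by positivity) (lev_pos hs _))
    have h3 : (2 * ρ' + 1) ^ d * (μ (ball (xC s0 P) ((ρ' + Real.sqrt d) * lev s0 P.1))).toReal ≤
        K5 * cw s0 P := by
      calc (2 * ρ' + 1) ^ d * (μ (ball (xC s0 P) ((ρ' + Real.sqrt d) * lev s0 P.1))).toReal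
          ≤ (2 * ρ' + 1) ^ d * (C' * ((ρ' + Real.sqrt d) * lev s0 P.1) ^ (d - 1)) :=
            mul_le_mul_of_nonneg_left h2 (by positivity)
        _ = K5 * cw s0 P := by rw [hK5, mul_pow]; unfold cw; ring
    exact h1.trans (h3.trans (mul_le_mul_of_nonneg_right (by linarith) (cw_nonneg hs P)))
  · intro i
    have h1 := factG hb (ε := ε) (R := 2 * R) (by linarith) hs hf hc i
    refine h1.trans (ENNReal.ofReal_le_ofReal ?_)
    have hI : 0 ≤ ∫ y, ‖f y‖ := integral_nonneg fun _ => norm_nonneg _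
    have hi : (0 : ℝ) ≤ i := Nat.cast_nonneg i
    calc (2 * (2 * R) + 1) ^ d * (i * ∫ y, ‖f y‖) ≤ K * ((i + 1) * ∫ y, ‖f y‖) := by
          refine mul_le_mul (by linarith) ?_ (by positivity) (by linarith)
          exact mul_le_mul_of_nonneg_right (by linarith) hI
      _ = K * (i + 1) * ∫ y, ‖f y‖ := by ring

end

end TG
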