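import Pool.Agent.TG.Adj
set_option autoImplicit false
set_option linter.unusedSectionVars false

/-!
# Deficits, mass transfer, telescoping against test functions (unit scale)
-/

open MeasureTheory Metric Set TrI Filter
open scoped InnerProductSpace ContDiff Topology

namespace TG

noncomputable section

namespace MA

variable {d : ℕ} {E : Type} [NormedAddCommGroup E] [InnerProductSpace ℝ E] [FiniteDimensional ℝ E]

/-- deficit density -/
def dfn (g : Sp d → E) (e : E) (x : Sp d) : ℝ := ‖g x‖ - ⟪g x, e⟫_ℝ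

lemma inner_le {e : E} (he : ‖e‖ = 1) (v : E) : ⟪v, e⟫_ℝ ≤ ‖v‖ := by
  have := real_inner_le_norm v e
  rwa [he, mul_one] at this

lemma abs_inner_le {e : E} (he : ‖e‖ = 1) (v : E) : |⟪v, e⟫_ℝ| ≤ ‖v‖ := by
  have := abs_real_inner_le_norm v e
  rwa [he, mul_one] at this

lemma dfn_nonneg {e : E} (he : ‖e‖ = 1) (g : Sp d → E) (x : Sp d) : 0 ≤ dfn g e x := by
  have := inner_le he (g x)
  unfold dfn
  linarith

lemma dfn_cont {g : Sp d → E} (hg : Continuous g) (e : E) : Continuous (dfn g e) :=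
  hg.norm.sub (hg.inner continuous_const)

lemma inner_cs {g : Sp d → E} (hc : HasCompactSupport g) (e : E) :
    HasCompactSupport (fun x => ⟪g x, e⟫_ℝ) :=
  hc.comp_left (g := fun v : E => ⟪v, e⟫_ℝ) (inner_zero_left e)

lemma dfn_cs {g : Sp d → E} (hc : HasCompactSupport g) (e : E) : HasCompactSupport (dfn g e) :=
  hc.comp_left (g := fun v : E => ‖v‖ - ⟪v, e⟫_ℝ) (by simp)

variable {b : Sp d → ℝ}

/-- one step of the mass transfer -/
lemma mass_step (hb : AK b) (hev : ∀ x, b (-x) = b x) (hρ : ∀ x, 1 / 2 ≤ ‖x‖ → b x = 0)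
    {g : Sp d → E} (hg : Continuous g) (hc : HasCompactSupport g) {e : E} (he : ‖e‖ = 1) {s : ℝ}
    (hs : 0 < s) {A A' A'' : Set (Sp d)} (hA : MeasurableSet A) (hA' : MeasurableSet A')
    (hA'' : MeasurableSet A'') (h1 : ∀ x ∈ A, ∀ z, ‖z - x‖ < 1 / 2 * s → z ∈ A')
    (h2 : ∀ x ∈ A', ∀ z, ‖z - x‖ < 1 / 2 * s → z ∈ A'') :
    ∫ x in A, ‖g x‖ ≤ (∫ x in A', ‖avk b s g x‖) + ∫ x in A'', dfn g e x := by
  have hn : Continuous (fun x => ‖g x‖) := hg.norm
  have i1 : Integrable (avk b s (fun x => ‖g x‖)) :=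
    (hb.avk_cont hn s).integrable_of_hasCompactSupport (hb.avk_cs hc.norm s)
  have i2 : Integrable (fun x => ‖avk b s g x‖) :=
    (hb.avk_cont hg s).norm.integrable_of_hasCompactSupport (hb.avk_cs hc s).norm
  have i3 : Integrable (avk b s (dfn g e)) :=
    (hb.avk_cont (dfn_cont hg e) s).integrable_of_hasCompactSupport (hb.avk_cs (dfn_cs hc e) s)
  have s1 := hb.setInt_le_avk hev hρ (LB.of_cont hn) hc.norm (fun _ => norm_nonneg _) hs hA hA' h1
  have s2 := hb.setInt_avk_le hev hρ (LB.of_cont (dfn_cont hg e)) (dfn_cs hc e)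
    (dfn_nonneg he g) hs hA'' hA' h2
  have s3 : ∫ x in A', avk b s (fun x => ‖g x‖) x ≤
      ∫ x in A', (‖avk b s g x‖ + avk b s (dfn g e) x) := by
    refine setIntegral_mono i1.integrableOn (i2.add i3).integrableOn fun x => ?_
    change avk b s (fun x => ‖g x‖) x ≤ ‖avk b s g x‖ + avk b s (dfn g e) x
    have e1 : avk b s (dfn g e) x = avk b s (fun x => ‖g x‖) x - ⟪avk b s g x, e⟫_ℝ := by
      rw [← hb.avk_inner hg e s x, ← hb.avk_sub hn (hg.inner continuous_const)]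
      rfl
    have e2 := inner_le he (avk b s g x)
    linarith
  rw [integral_add i2.integrableOn i3.integrableOn] at s3
  linarith

/-! ## unit scale -/

lemma lev_unit (n : ℕ) : lev ((1 / 2 : ℝ) ^ n) n = 1 := by
  unfold lev
  rw [← mul_pow]
  norm_num

lemma lev_le_lev {s0 : ℝ} (hs : 0 < s0) {i j : ℕ} (h : i ≤ j) : lev s0 i ≤ lev s0 j := by
  unfold lev
  gcongr
  norm_num

lemma lev_sq (n l : ℕ) (h : l ≤ n) : lev ((1 / 2 : ℝ) ^ n) l ^ 2 = (1 / 4) ^ (n - l) := by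
  obtain ⟨k, rfl⟩ := Nat.exists_eq_add_of_le h
  unfold lev
  rw [Nat.add_sub_cancel_left, pow_add]
  have e1 : ((1 / 2 : ℝ) ^ l * (1 / 2) ^ k * 2 ^ l) = (1 / 2) ^ k := by
    have e2 : (1 / 2 : ℝ) ^ l * 2 ^ l = 1 := by rw [← mul_pow]; norm_num
    calc ((1 / 2 : ℝ) ^ l * (1 / 2) ^ k * 2 ^ l) = ((1 / 2 : ℝ) ^ l * 2 ^ l) * (1 / 2) ^ k := by
          ring
      _ = _ := by rw [e2, one_mul]
  rw [e1, ← pow_mul, mul_comm k 2, pow_mul]
  norm_num

lemma DD_eq (b : Sp d → ℝ) (ε R : ℝ) (n : ℕ) (f : Sp d → E) (x : Sp d) (e : E) :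
    DD b ε R ((1 / 2) ^ n) f n x e =
      ∑ l ∈ Finset.range (n + 1), (1 / 4 : ℝ) ^ (n - l) *
        (∫ y in ball x R, dfn (fl b ε ((1 / 2) ^ n) f l) e y) +
      (1 / 4 : ℝ) ^ n * ∫ y in ball x R, ‖f y‖ := by
  unfold DD
  rw [lev_unit, one_pow, div_one, one_mul, mul_one]
  rfl

lemma DD_ge (b : Sp d → ℝ) (ε R : ℝ) {n : ℕ} (f : Sp d → E) (x : Sp d) {e : E} (he : ‖e‖ = 1)
    {N : ℕ} (hN : N ≤ n + 1) :
    ∑ l ∈ Finset.range N, (1 / 4 : ℝ) ^ (n - l) *
        (∫ y in ball x R, dfn (fl b ε ((1 / 2) ^ n) f l) e y) ≤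
      DD b ε R ((1 / 2) ^ n) f n x e := by
  rw [DD_eq]
  have h1 : 0 ≤ (1 / 4 : ℝ) ^ n * ∫ y in ball x R, ‖f y‖ :=
    mul_nonneg (by positivity) (integral_nonneg fun _ => norm_nonneg _)
  have h2 : ∑ l ∈ Finset.range N, (1 / 4 : ℝ) ^ (n - l) *
        (∫ y in ball x R, dfn (fl b ε ((1 / 2) ^ n) f l) e y) ≤
      ∑ l ∈ Finset.range (n + 1), (1 / 4 : ℝ) ^ (n - l) *
        (∫ y in ball x R, dfn (fl b ε ((1 / 2) ^ n) f l) e y) := by
    refine Finset.sum_le_sum_of_subset_of_nonneg (Finset.range_mono hN) fun l _ _ => ?_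
    exact mul_nonneg (by positivity) (integral_nonneg fun _ => dfn_nonneg he _ _)
  linarith

/-- mass transfer from level l to level N -/
lemma transfer (hb : AK b) (hev : ∀ x, b (-x) = b x) (hρ : ∀ x, 1 / 2 ≤ ‖x‖ → b x = 0)
    {ε s0 : ℝ} (hε : 0 < ε) (hε1 : ε ≤ 1) (hs0 : 0 < s0) {f : Sp d → E} (hf : Continuous f)
    (hc : HasCompactSupport f) {e : E} (he : ‖e‖ = 1) {x : Sp d} {R : ℝ} {U : Set (Sp d)}
    (hU : ∀ y ∈ U, ‖y - x‖ < R - 2) {N : ℕ} (hN : lev s0 N ≤ 1) :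
    ∀ (k l : ℕ) (r : ℝ), l + k = N → 0 < r → r + (lev s0 N - lev s0 l) ≤ 1 →
      ∫ y in thickening r U, ‖fl b ε s0 f l y‖ ≤
        (∫ y in thickening (r + (lev s0 N - lev s0 l)) U, ‖fl b ε s0 f N y‖) +
        ∑ j ∈ Finset.Ico l N, ∫ y in ball x R, dfn (fl b ε s0 f j) e y := by
  intro k
  induction k with
  | zero =>
    intro l r hl hr h1
    rw [Nat.add_zero] at hl
    subst hl
    simp
  | succ k ih =>
    intro l r hl hr h1
    have hl0 := lev_pos hs0 l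
    have hls := lev_succ s0 l
    have hlN : lev s0 (l + 1) ≤ lev s0 N := lev_le_lev hs0 (by omega)
    have hs : 0 < ε * lev s0 (l + 1) := mul_pos hε (lev_pos hs0 _)
    have hs' : ε * lev s0 (l + 1) ≤ 2 * lev s0 l := by
      rw [hls]
      nlinarith
    have step := mass_step hb hev hρ (fl_cont hb ε s0 hf l) (fl_cs hb ε s0 hc l) he hs
      (A := thickening r U) (A' := thickening (r + lev s0 l) U) (A'' := ball x R)
      isOpen_thickening.measurableSet isOpen_thickening.measurableSet measurableSet_ball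
      (fun y hy z hz => by
        rw [mem_thickening_iff] at hy ⊢
        obtain ⟨w, hw, hyw⟩ := hy
        refine ⟨w, hw, ?_⟩
        have h2 := dist_triangle z y w
        rw [← dist_eq_norm] at hz
        linarith)
      (fun y hy z hz => by
        rw [mem_thickening_iff] at hy
        obtain ⟨w, hw, hyw⟩ := hy
        have h2 := dist_triangle z y w
        have h3 := dist_triangle z w x
        have h4 := hU w hw
        rw [← dist_eq_norm] at hz h4
        rw [mem_ball]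
        linarith)
    have h2 := ih (l + 1) (r + lev s0 l) (by omega) (by linarith) (by rw [hls]; linarith)
    have e1 : r + lev s0 l + (lev s0 N - lev s0 (l + 1)) = r + (lev s0 N - lev s0 l) := by
      rw [hls]; ring
    rw [e1] at h2
    have e2 : avk b (ε * lev s0 (l + 1)) (fl b ε s0 f l) = fl b ε s0 f (l + 1) := rfl
    rw [e2] at step
    rw [Finset.sum_eq_sum_Ico_succ_bot (by omega : l < N)]
    linarith

/-- telescoping against a test function -/
lemma telescope (hb : AK b) (hev : ∀ x, b (-x) = b x) (ε s0 : ℝ) {f : Sp d → E}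
    (hf : Continuous f) (hc : HasCompactSupport f) (e : E) {ζ : Sp d → ℝ} (hζ : Continuous ζ)
    (N : ℕ) :
    ∫ y, ⟪f y, e⟫_ℝ * ζ y = (∫ y, ⟪fl b ε s0 f N y, e⟫_ℝ * ζ y) +
      ∑ l ∈ Finset.range N, ∫ y, ⟪fl b ε s0 f l y, e⟫_ℝ *
        (ζ y - avk b (ε * lev s0 (l + 1)) ζ y) := by
  induction N with
  | zero => simp [fl]
  | succ N ih =>
    rw [Finset.sum_range_succ, ih]
    have hgc : Continuous fun y => ⟪fl b ε s0 f N y, e⟫_ℝ :=
      (fl_cont hb ε s0 hf N).inner continuous_const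
    have hgs : HasCompactSupport fun y => ⟪fl b ε s0 f N y, e⟫_ℝ :=
      inner_cs (fl_cs hb ε s0 hc N) e
    have e1 : ∫ y, ⟪fl b ε s0 f (N + 1) y, e⟫_ℝ * ζ y =
        ∫ y, ⟪fl b ε s0 f N y, e⟫_ℝ * avk b (ε * lev s0 (N + 1)) ζ y := by
      have h1 := hb.avk_adj' hev (LB.of_cont hζ) (LB.of_cont hgc) hgs (ε * lev s0 (N + 1))
      have h2 : ∀ y, avk b (ε * lev s0 (N + 1)) (fun y => ⟪fl b ε s0 f N y, e⟫_ℝ) y =
          ⟪fl b ε s0 f (N + 1) y, e⟫_ℝ := fun y =>
        hb.avk_inner (fl_cont hb ε s0 hf N) e _ y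
      calc ∫ y, ⟪fl b ε s0 f (N + 1) y, e⟫_ℝ * ζ y
          = ∫ y, ζ y * avk b (ε * lev s0 (N + 1)) (fun y => ⟪fl b ε s0 f N y, e⟫_ℝ) y := by
            congr 1; ext y; rw [h2 y, mul_comm]
        _ = _ := h1
        _ = _ := by congr 1; ext y; rw [mul_comm]
    have i1 : Integrable fun y => ⟪fl b ε s0 f N y, e⟫_ℝ * ζ y :=
      (hgc.mul hζ).integrable_of_hasCompactSupport hgs.mul_right
    have i2 : Integrable fun y => ⟪fl b ε s0 f N y, e⟫_ℝ *
        avk b (ε * lev s0 (N + 1)) ζ y :=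
      (hgc.mul (hb.avk_cont hζ _)).integrable_of_hasCompactSupport hgs.mul_right
    have e2 : ∫ y, ⟪fl b ε s0 f N y, e⟫_ℝ * (ζ y - avk b (ε * lev s0 (N + 1)) ζ y) =
        (∫ y, ⟪fl b ε s0 f N y, e⟫_ℝ * ζ y) -
          ∫ y, ⟪fl b ε s0 f (N + 1) y, e⟫_ℝ * ζ y := by
      rw [e1, ← integral_sub i1 i2]
      congr 1
      ext y
      ring
    rw [e2]
    ring

/-- the error of one step -/
lemma err_le (hb : AK b) (hev : ∀ x, b (-x) = b x) (hρ : ∀ x, 1 / 2 ≤ ‖x‖ → b x = 0)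
    {g : Sp d → E} (hg : Continuous g) (hc : HasCompactSupport g) {e : E} (he : ‖e‖ = 1) {s t : ℝ}
    (hs : 0 < s) (hst : s ≤ 2 * t) {ζ : Sp d → ℝ} (hζ : ContDiff ℝ 2 ζ)
    (hζ2 : ∀ y, ‖iteratedFDeriv ℝ 2 ζ y‖ ≤ 1) {U : Set (Sp d)} (hU : ∀ y, ζ y ≠ 0 → y ∈ U) :
    |∫ y, ⟪g y, e⟫_ℝ * (ζ y - avk b s ζ y)| ≤ 4 * t ^ 2 * ∫ y in thickening t U, ‖g y‖ := by
  have hn : Integrable (fun y => ‖g y‖) := hg.norm.integrable_of_hasCompactSupport hc.norm
  rw [← Real.norm_eq_abs, ← integral_indicator isOpen_thickening.measurableSet,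
    ← integral_const_mul]
  refine (norm_integral_le_integral_norm _).trans ?_
  refine integral_mono_of_nonneg (Eventually.of_forall fun y => norm_nonneg _)
    ((hn.indicator isOpen_thickening.measurableSet).const_mul _) (Eventually.of_forall fun y => ?_)
  change ‖⟪g y, e⟫_ℝ * (ζ y - avk b s ζ y)‖ ≤
    4 * t ^ 2 * (thickening t U).indicator (fun y => ‖g y‖) y
  rw [norm_mul, Real.norm_eq_abs]
  by_cases hy : y ∈ thickening t U
  · rw [Set.indicator_of_mem hy]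
    have h1 := hb.avk_sub_self_le hev hζ zero_le_one hζ2 s y
    rw [← norm_neg, neg_sub, one_mul] at h1
    have h2 : s ^ 2 ≤ 4 * t ^ 2 := by nlinarith
    calc |⟪g y, e⟫_ℝ| * ‖ζ y - avk b s ζ y‖ ≤ ‖g y‖ * (4 * t ^ 2) :=
          mul_le_mul (abs_inner_le he _) (h1.trans h2) (norm_nonneg _) (norm_nonneg _)
      _ = _ := mul_comm _ _
  · rw [Set.indicator_of_notMem hy, mul_zero]
    have h1 : ζ y = 0 := by
      by_contra hne
      exact hy (self_subset_thickening (by linarith) U (hU y hne))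
    have h2 : avk b s ζ y = 0 := by
      by_contra hne
      obtain ⟨z, hz, hzy⟩ := AK.exists_of_avk_ne (ψ := b) hρ hs hne
      apply hy
      rw [mem_thickening_iff]
      refine ⟨z, hU z hz, ?_⟩
      rw [dist_comm, dist_eq_norm]
      linarith
    rw [h1, h2, sub_zero, norm_zero, mul_zero]

/-- summation of the errors -/
lemma sum_aux (N : ℕ) (c D : ℕ → ℝ) (hc : ∀ l, 0 ≤ c l) (hc2 : ∀ l, c (l + 1) = 4 * c l)
    (hD : ∀ l, 0 ≤ D l) {A : ℝ} (hA : 0 ≤ A) (hN : c N ≤ 1) :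
    ∑ l ∈ Finset.range N, 4 * c l * (A + ∑ j ∈ Finset.Ico l N, D j) ≤
      2 * A + 8 * ∑ j ∈ Finset.range N, c j * D j := by
  have hgeo : ∀ m, ∑ l ∈ Finset.range m, c l ≤ c m / 3 := by
    intro m
    induction m with
    | zero =>
      have h0 := hc 0
      rw [Finset.range_zero, Finset.sum_empty]
      linarith
    | succ m ih =>
      rw [Finset.sum_range_succ, hc2]
      linarith
  have h1 : ∑ l ∈ Finset.range N, 4 * c l * (A + ∑ j ∈ Finset.Ico l N, D j) =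
      4 * A * ∑ l ∈ Finset.range N, c l +
        4 * ∑ l ∈ Finset.range N, ∑ j ∈ Finset.Ico l N, c l * D j := by
    rw [Finset.mul_sum, Finset.mul_sum, ← Finset.sum_add_distrib]
    refine Finset.sum_congr rfl fun l _ => ?_
    rw [← Finset.mul_sum]
    ring
  have h2 : ∑ l ∈ Finset.range N, ∑ j ∈ Finset.Ico l N, c l * D j ≤
      2 * ∑ j ∈ Finset.range N, c j * D j := by
    rw [Finset.range_eq_Ico, Finset.sum_Ico_Ico_comm, ← Finset.range_eq_Ico, Finset.mul_sum]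
    refine Finset.sum_le_sum fun j _ => ?_
    rw [← Finset.sum_mul, ← Finset.range_eq_Ico]
    have h3 := hgeo (j + 1)
    rw [hc2] at h3
    have h4 := hc j
    have h5 := hD j
    nlinarith
  have h3 := hgeo N
  have h4 : 4 * A * ∑ l ∈ Finset.range N, c l ≤ 2 * A := by nlinarith
  rw [h1]
  linarith

end MA

end

end TG
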