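import Pool.Agent.TG.Conc
import Pool.Agent.TG.PK
import Pool.Agent.TG.Mass

/-!
# MODULE CT2: packing for the minimising directions, in the form of cs; boundedness (helper3)
-/

set_option autoImplicit false

open MeasureTheory Metric Set TrI
open scoped InnerProductSpace ContDiff ENNReal

namespace TG

noncomputable section

variable {d : ℕ} {E : Type} [NormedAddCommGroup E] [InnerProductSpace ℝ E]

namespace CT2

/-- majorant of the densities in DD -/
def gI (b : Sp d → ℝ) (ε s0 : ℝ) (f : Sp d → E) (i : ℕ) (y : Sp d) : ℝ :=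
  ∑ l ∈ Finset.range (i + 1), (1 / 4 : ℝ) ^ (i - l) * (2 * ‖fl b ε s0 f l y‖) +
    (1 / 4 : ℝ) ^ i * ‖f y‖

lemma gI_nonneg (b : Sp d → ℝ) (ε s0 : ℝ) (f : Sp d → E) (i : ℕ) (y : Sp d) :
    0 ≤ gI b ε s0 f i y := by
  unfold gI
  positivity

variable [FiniteDimensional ℝ E]

lemma fl_int {b : Sp d → ℝ} (hak : AK b) (ε s0 : ℝ) {f : Sp d → E} (hf : Continuous f)
    (hfc : HasCompactSupport f) (l : ℕ) : Integrable (fun y => ‖fl b ε s0 f l y‖) :=
  (fl_cont hak ε s0 hf l).norm.integrable_of_hasCompactSupport (fl_cs hak ε s0 hfc l).norm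

lemma gI_int {b : Sp d → ℝ} (hak : AK b) (ε s0 : ℝ) {f : Sp d → E} (hf : Continuous f)
    (hfc : HasCompactSupport f) (i : ℕ) : Integrable (gI b ε s0 f i) := by
  unfold gI
  refine (integrable_finsetSum _ fun l _ => ?_).add ?_
  · exact ((fl_int hak ε s0 hf hfc l).const_mul 2).const_mul _
  · exact (hf.norm.integrable_of_hasCompactSupport hfc.norm).const_mul _

lemma geo_le (i : ℕ) : ∑ l ∈ Finset.range (i + 1), (1 / 4 : ℝ) ^ (i - l) ≤ 4 / 3 := by
  induction i with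
  | zero => norm_num
  | succ i ih =>
    rw [Finset.sum_range_succ]
    have h1 : ∑ l ∈ Finset.range (i + 1), (1 / 4 : ℝ) ^ (i + 1 - l) =
        1 / 4 * ∑ l ∈ Finset.range (i + 1), (1 / 4 : ℝ) ^ (i - l) := by
      rw [Finset.mul_sum]
      refine Finset.sum_congr rfl fun l hl => ?_
      rw [Finset.mem_range] at hl
      rw [show i + 1 - l = (i - l) + 1 by omega, pow_succ]
      ring
    rw [h1, Nat.sub_self, pow_zero]
    linarith

lemma gI_int_le {b : Sp d → ℝ} (hak : AK b) (ε s0 : ℝ) {f : Sp d → E} (hf : Continuous f)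
    (hfc : HasCompactSupport f) (i : ℕ) : ∫ y, gI b ε s0 f i y ≤ 4 * ∫ y, ‖f y‖ := by
  have ha : ∀ l, ∫ y, ‖fl b ε s0 f l y‖ ≤ ∫ y, ‖f y‖ := by
    intro l
    have := fl_norm_int_le hak ε s0 hf hfc 0 l
    rw [zero_add] at this
    exact this
  have ha0 : 0 ≤ ∫ y, ‖f y‖ := integral_nonneg fun _ => norm_nonneg _
  unfold gI
  rw [integral_add (integrable_finsetSum _ fun l _ =>
      ((fl_int hak ε s0 hf hfc l).const_mul 2).const_mul _)
    ((hf.norm.integrable_of_hasCompactSupport hfc.norm).const_mul _),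
    integral_finsetSum _ fun l _ => ((fl_int hak ε s0 hf hfc l).const_mul 2).const_mul _]
  have h1 : ∑ l ∈ Finset.range (i + 1), ∫ y, (1 / 4 : ℝ) ^ (i - l) * (2 * ‖fl b ε s0 f l y‖) ≤
      ∑ l ∈ Finset.range (i + 1), (1 / 4 : ℝ) ^ (i - l) * (2 * ∫ y, ‖f y‖) := by
    refine Finset.sum_le_sum fun l _ => ?_
    rw [integral_const_mul, integral_const_mul]
    refine mul_le_mul_of_nonneg_left ?_ (by positivity)
    linarith [ha l]
  rw [← Finset.sum_mul] at h1
  have h2 := mul_le_mul_of_nonneg_right (geo_le i) (show 0 ≤ 2 * ∫ y, ‖f y‖ by linarith)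
  rw [integral_const_mul]
  have h3 : (1 / 4 : ℝ) ^ i ≤ 1 := pow_le_one₀ (by norm_num) (by norm_num)
  have h4 := mul_le_mul_of_nonneg_right h3 ha0
  linarith

lemma DD_nn {b : Sp d → ℝ} (ε R : ℝ) {s0 : ℝ} (hs0 : 0 < s0) (f : Sp d → E) (i : ℕ) (x : Sp d)
    {e : E} (he : ‖e‖ = 1) : 0 ≤ DD b ε R s0 f i x e := by
  unfold DD
  have hs := lev_pos hs0 i
  refine mul_nonneg (by positivity) (add_nonneg (Finset.sum_nonneg fun l _ => ?_) ?_)
  · refine mul_nonneg (by positivity) (integral_nonneg fun y => ?_)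
    have := MA.inner_le he (fl b ε s0 f l y)
    show 0 ≤ ‖fl b ε s0 f l y‖ - ⟪fl b ε s0 f l y, e⟫_ℝ
    linarith
  · exact mul_nonneg (by positivity) (integral_nonneg fun y => norm_nonneg _)

lemma DD_le {b : Sp d → ℝ} (hak : AK b) (ε R : ℝ) {s0 : ℝ} (hs0 : 0 < s0) {f : Sp d → E}
    (hf : Continuous f) (hfc : HasCompactSupport f) (i : ℕ) (x : Sp d)
    {e : E} (he : ‖e‖ = 1) : DD b ε R s0 f i x e ≤
      lev s0 i / lev s0 i ^ d * ∫ y in ball x (R * lev s0 i), gI b ε s0 f i y := by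
  unfold DD
  have hs := lev_pos hs0 i
  refine mul_le_mul_of_nonneg_left ?_ (by positivity)
  unfold gI
  rw [integral_add (integrable_finsetSum _ fun l _ =>
      (((fl_int hak ε s0 hf hfc l).const_mul 2).const_mul _).integrableOn)
    ((hf.norm.integrable_of_hasCompactSupport hfc.norm).const_mul _).integrableOn,
    integral_finsetSum _ fun l _ =>
      (((fl_int hak ε s0 hf hfc l).const_mul 2).const_mul _).integrableOn]
  refine add_le_add (Finset.sum_le_sum fun l _ => ?_) (le_of_eq ?_)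
  · rw [integral_const_mul]
    refine mul_le_mul_of_nonneg_left ?_ (by positivity)
    have hc := fl_cont hak ε s0 hf l
    have hcs := fl_cs hak ε s0 hfc l
    refine integral_mono ?_ ((fl_int hak ε s0 hf hfc l).const_mul 2).integrableOn fun y => ?_
    · exact ((MA.dfn_cont hc e).integrable_of_hasCompactSupport (MA.dfn_cs hcs e)).integrableOn
    · have := MA.abs_inner_le he (fl b ε s0 f l y)
      have h2 := neg_abs_le ⟪fl b ε s0 f l y, e⟫_ℝ
      show ‖fl b ε s0 f l y‖ - ⟪fl b ε s0 f l y, e⟫_ℝ ≤ 2 * ‖fl b ε s0 f l y‖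
      linarith
  · rw [integral_const_mul]

lemma summ {b : Sp d → ℝ} (hd : 1 ≤ d) (hak : AK b) (ε : ℝ) {R : ℝ} (hR : 1 ≤ R) {s0 : ℝ}
    (hs0 : 0 < s0) {f : Sp d → E} (hf : Continuous f) (hfc : HasCompactSupport f) (i : ℕ)
    {e : (Fin d → ℤ) → E} (he : ∀ p, ‖e p‖ = 1) :
    Summable fun p : Fin d → ℤ => lev s0 i ^ (d - 1) * DD b ε R s0 f i (cen s0 i p) (e p) := by
  have hs := lev_pos hs0 i
  refine summable_of_sum_le (c := (2 * R + 1) ^ d * ∫ y, gI b ε s0 f i y)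
    (fun p => mul_nonneg (by positivity) (DD_nn ε R hs0 f i _ (he p))) fun S => ?_
  refine le_trans (Finset.sum_le_sum fun p _ => ?_)
    (PK.overlap (lev s0 i) R hs (by linarith) S (gI_int hak ε s0 hf hfc i)
      (gI_nonneg b ε s0 f i))
  refine (mul_le_mul_of_nonneg_left (DD_le hak ε R hs0 hf hfc i _ (he p))
    (by positivity)).trans (le_of_eq ?_)
  rw [← mul_assoc]
  have : lev s0 i ^ (d - 1) * (lev s0 i / lev s0 i ^ d) = 1 := by
    obtain ⟨k, rfl⟩ : ∃ k, d = k + 1 := ⟨d - 1, by omega⟩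
    rw [Nat.add_sub_cancel, pow_succ]
    field_simp
  rw [this, one_mul]
  rfl

end CT2

theorem stmtCT2 (h : StmtPK) : StmtCT2 := by
  intro d hd M c0 ε R hε hε1 hR b hb
  obtain ⟨C, hC, hP⟩ := h d hd M c0 ε R hε hε1 hR b hb
  refine ⟨C, hC, fun E _ _ _ _ f hf hfc s0 hs0 e he => ⟨?_, ?_, ?_⟩⟩
  · intro Q
    exact CT2.DD_nn ε R hs0 f Q.1 _ (he.unit Q)
  · refine ⟨1 / s0 ^ (d - 1) * (4 * ∫ y, ‖f y‖), fun Q => ?_⟩
    have hs := lev_pos hs0 Q.1
    have h0 : 0 ≤ ∫ y, ‖f y‖ := integral_nonneg fun _ => norm_nonneg _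
    refine (CT2.DD_le hb.ak ε R hs0 hf hfc Q.1 _ (he.unit Q)).trans ?_
    have h1 : lev s0 Q.1 / lev s0 Q.1 ^ d ≤ 1 / s0 ^ (d - 1) := by
      obtain ⟨k, rfl⟩ : ∃ k, d = k + 1 := ⟨d - 1, by omega⟩
      rw [Nat.add_sub_cancel, pow_succ]
      have e1 : lev s0 Q.1 / (lev s0 Q.1 ^ k * lev s0 Q.1) = 1 / lev s0 Q.1 ^ k := by
        field_simp
      rw [e1]
      have h2 : s0 ≤ lev s0 Q.1 := by
        unfold lev
        have : (1 : ℝ) ≤ 2 ^ Q.1 := one_le_pow₀ (by norm_num)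
        nlinarith
      exact one_div_le_one_div_of_le (by positivity) (pow_le_pow_left₀ hs0.le h2 k)
    have h3 : ∫ y in ball (xC s0 Q) (R * lev s0 Q.1), CT2.gI b ε s0 f Q.1 y ≤
        4 * ∫ y, ‖f y‖ :=
      (setIntegral_le_integral (CT2.gI_int hb.ak ε s0 hf hfc Q.1)
        (Filter.Eventually.of_forall (CT2.gI_nonneg b ε s0 f Q.1))).trans
        (CT2.gI_int_le hb.ak ε s0 hf hfc Q.1)
    have h4 : 0 ≤ ∫ y in ball (xC s0 Q) (R * lev s0 Q.1), CT2.gI b ε s0 f Q.1 y :=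
      integral_nonneg (CT2.gI_nonneg b ε s0 f Q.1)
    exact mul_le_mul h1 h3 h4 (by positivity)
  · obtain ⟨e', he', hle⟩ := hP E f hf hfc s0 hs0
    have hcs : cs univ (fun Q : Cell d => cw s0 Q * dC b ε R s0 f e Q) =
        ∑' i : ℕ, ∑' p : Fin d → ℤ,
          ENNReal.ofReal (cw s0 (i, p) * dC b ε R s0 f e (i, p)) := by
      unfold cs
      rw [← ENNReal.tsum_prod]
      refine tsum_congr fun Q => ?_
      rw [Set.indicator_univ]
    rw [hcs]
    have hlev : ∀ i : ℕ, ∑' p : Fin d → ℤ,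
        ENNReal.ofReal (cw s0 (i, p) * dC b ε R s0 f e (i, p)) ≤
        ENNReal.ofReal (∑' p : Fin d → ℤ,
          lev s0 i ^ (d - 1) * DD b ε R s0 f i (cen s0 i p) (e' i p)) := by
      intro i
      have hs := lev_pos hs0 i
      have s1 := CT2.summ hd hb.ak ε hR hs0 hf hfc i (e := fun p => e (i, p))
        (fun p => he.unit (i, p))
      have s2 := CT2.summ hd hb.ak ε hR hs0 hf hfc i (e := fun p => e' i p) (fun p => he' i p)
      have e1 : ∑' p : Fin d → ℤ, ENNReal.ofReal (cw s0 (i, p) * dC b ε R s0 f e (i, p)) =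
          ENNReal.ofReal (∑' p : Fin d → ℤ,
            lev s0 i ^ (d - 1) * DD b ε R s0 f i (cen s0 i p) (e (i, p))) :=
        (ENNReal.ofReal_tsum_of_nonneg (fun p => mul_nonneg (by positivity)
          (CT2.DD_nn ε R hs0 f i _ (he.unit (i, p)))) s1).symm
      rw [e1]
      refine ENNReal.ofReal_le_ofReal (s1.tsum_le_tsum (fun p => ?_) s2)
      exact mul_le_mul_of_nonneg_left (he.min (i, p) (e' i p) (he' i p)) (by positivity)
    refine (ENNReal.tsum_le_tsum hlev).trans ?_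
    refine ENNReal.tsum_le_of_sum_range_le fun I => ?_
    rw [← ENNReal.ofReal_sum_of_nonneg]
    · exact ENNReal.ofReal_le_ofReal (hle I)
    · intro i _
      have hs := lev_pos hs0 i
      exact tsum_nonneg fun p => mul_nonneg (by positivity) (CT2.DD_nn ε R hs0 f i _ (he' i p))

end

end TG
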