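import Pool.Agent.TG.CT3

set_option autoImplicit false
set_option linter.unusedSectionVars false

/-!
# Module CT4: robustness of the masses, the maximum of the tailed masses over the ancestors
-/

open MeasureTheory Metric Set TrI Filter
open scoped InnerProductSpace ContDiff ENNReal

namespace TG

noncomputable section

namespace CT4

variable {d : ℕ} {E : Type} [NormedAddCommGroup E] [InnerProductSpace ℝ E] [FiniteDimensional ℝ E]
  {b : Sp d → ℝ}

/-- the integrand of the tailed mass with an arbitrary centre -/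
lemma tail_int (hb : AK b) (ε : ℝ) {s0 t : ℝ} (ht : 0 < t) {f : Sp d → E} (hf : Continuous f)
    (hc : HasCompactSupport f) (j : ℕ) (x : Sp d) :
    Integrable (fun y => ‖fl b ε s0 f j y‖ / (1 + ‖y - x‖ / t) ^ (d + 2)) := by
  have hden : ∀ y : Sp d, 0 < (1 + ‖y - x‖ / t) ^ (d + 2) := by
    intro y
    positivity
  have hcont : Continuous (fun y => ‖fl b ε s0 f j y‖ / (1 + ‖y - x‖ / t) ^ (d + 2)) := by
    refine (fl_cont hb ε s0 hf j).norm.div (by fun_prop) fun y => (hden y).ne'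
  refine hcont.integrable_of_hasCompactSupport ((fl_cs hb ε s0 hc j).norm.mono' ?_)
  intro y hy
  rw [Function.mem_support] at hy
  refine subset_closure ?_
  rw [Function.mem_support]
  intro h0
  apply hy
  rw [h0, zero_div]

lemma fl_int_le (hb : AK b) (ε s0 : ℝ) {f : Sp d → E} (hf : Continuous f)
    (hc : HasCompactSupport f) (n : ℕ) : ∫ y, ‖fl b ε s0 f n y‖ ≤ ∫ y, ‖f y‖ := by
  have h2 : ∫ y, ‖fl b ε s0 f 0 y‖ = ∫ y, ‖f y‖ := rfl
  have h3 : ∑ j ∈ Finset.range n, ∫ y, gm b ε s0 f j y =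
      (∫ y, ‖fl b ε s0 f 0 y‖) - ∫ y, ‖fl b ε s0 f n y‖ := by
    rw [Finset.sum_congr rfl fun j _ => CT3.gm_int hb ε s0 hf hc j]
    rw [Finset.sum_range_sub' (fun j => ∫ y, ‖fl b ε s0 f j y‖)]
  have h4 : 0 ≤ ∑ j ∈ Finset.range n, ∫ y, gm b ε s0 f j y :=
    Finset.sum_nonneg fun j _ => integral_nonneg fun y => CT3.gm_nonneg hb ε s0 f j y
  linarith

lemma mT_le_nw (hb : AK b) (ε : ℝ) {s0 : ℝ} (hs0 : 0 < s0) {f : Sp d → E} (hf : Continuous f)
    (hc : HasCompactSupport f) (Q : Cell d) : mT b ε s0 f Q ≤ nw s0 Q * ∫ y, ‖f y‖ := by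
  have hl := lev_pos hs0 Q.1
  unfold mT
  refine mul_le_mul_of_nonneg_left ?_ (CT3.nw_pos hs0 Q).le
  refine le_trans ?_ (fl_int_le hb ε s0 hf hc (Q.1 - 1))
  refine integral_mono (tail_int hb ε hl hf hc _ _) (CT3.fl_nint hb ε s0 hf hc _) fun y => ?_
  show ‖fl b ε s0 f (Q.1 - 1) y‖ / (1 + ‖y - xC s0 Q‖ / lev s0 Q.1) ^ (d + 2) ≤
    ‖fl b ε s0 f (Q.1 - 1) y‖
  refine div_le_self (norm_nonneg _) ?_
  refine one_le_pow₀ ?_
  have : 0 ≤ ‖y - xC s0 Q‖ / lev s0 Q.1 := by positivity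
  linarith

/-- comparison of the tailed masses of two cells of the same level -/
lemma mT_comp (hb : AK b) (ε : ℝ) {s0 : ℝ} (hs0 : 0 < s0) {f : Sp d → E} (hf : Continuous f)
    (hc : HasCompactSupport f) (P P' : Cell d) (h1 : P.1 = P'.1) {D : ℝ} (hD : 0 ≤ D)
    (h : ‖xC s0 P - xC s0 P'‖ ≤ D * lev s0 P.1) :
    mT b ε s0 f P ≤ (1 + D) ^ (d + 2) * mT b ε s0 f P' := by
  have hl := lev_pos hs0 P.1
  have hnw : nw s0 P = nw s0 P' := by unfold nw; rw [h1]
  unfold mT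
  rw [← hnw, ← h1, mul_left_comm]
  refine mul_le_mul_of_nonneg_left ?_ (CT3.nw_pos hs0 P).le
  rw [← integral_const_mul]
  refine integral_mono (tail_int hb ε hl hf hc _ _)
    ((tail_int hb ε hl hf hc _ _).const_mul _) fun y => ?_
  show ‖fl b ε s0 f (P.1 - 1) y‖ / (1 + ‖y - xC s0 P‖ / lev s0 P.1) ^ (d + 2) ≤
    (1 + D) ^ (d + 2) * (‖fl b ε s0 f (P.1 - 1) y‖ /
      (1 + ‖y - xC s0 P'‖ / lev s0 P.1) ^ (d + 2))
  have e1 : 0 < 1 + ‖y - xC s0 P‖ / lev s0 P.1 := by positivity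
  have e2 : 0 < 1 + ‖y - xC s0 P'‖ / lev s0 P.1 := by positivity
  have e3 : 1 + ‖y - xC s0 P'‖ / lev s0 P.1 ≤ (1 + D) * (1 + ‖y - xC s0 P‖ / lev s0 P.1) := by
    have a1 : ‖y - xC s0 P'‖ ≤ ‖y - xC s0 P‖ + ‖xC s0 P - xC s0 P'‖ := by
      rw [show y - xC s0 P' = (y - xC s0 P) + (xC s0 P - xC s0 P') by abel]
      exact norm_add_le _ _
    have a2 : ‖y - xC s0 P'‖ / lev s0 P.1 ≤ ‖y - xC s0 P‖ / lev s0 P.1 + D := by
      rw [div_le_iff₀ hl, add_mul, div_mul_cancel₀ _ hl.ne']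
      linarith
    have a3 : 0 ≤ ‖y - xC s0 P‖ / lev s0 P.1 := by positivity
    nlinarith
  rw [mul_div_assoc', div_le_div_iff₀ (by positivity) (by positivity)]
  have e4 : (1 + ‖y - xC s0 P'‖ / lev s0 P.1) ^ (d + 2) ≤
      (1 + D) ^ (d + 2) * (1 + ‖y - xC s0 P‖ / lev s0 P.1) ^ (d + 2) := by
    rw [← mul_pow]
    exact pow_le_pow_left₀ e2.le e3 _
  calc ‖fl b ε s0 f (P.1 - 1) y‖ * (1 + ‖y - xC s0 P'‖ / lev s0 P.1) ^ (d + 2) ≤
      ‖fl b ε s0 f (P.1 - 1) y‖ *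
        ((1 + D) ^ (d + 2) * (1 + ‖y - xC s0 P‖ / lev s0 P.1) ^ (d + 2)) :=
        mul_le_mul_of_nonneg_left e4 (norm_nonneg _)
    _ = _ := by ring

/-- a nonnegative sequence which tends to zero has a maximum -/
lemma exists_max {a : ℕ → ℝ} (h0 : ∀ l, 0 ≤ a l) (h : Tendsto a atTop (nhds 0)) :
    ∃ i, ∀ l, a l ≤ a i := by
  by_cases hm : ∃ m, 0 < a m
  · obtain ⟨m, hm⟩ := hm
    have h1 := h.eventually (gt_mem_nhds hm)
    rw [eventually_atTop] at h1
    obtain ⟨N, hN⟩ := h1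
    obtain ⟨i, hi, hmax⟩ := Finset.exists_max_image (Finset.range (N + m + 1)) a
      ⟨m, by rw [Finset.mem_range]; omega⟩
    refine ⟨i, fun l => ?_⟩
    by_cases hl : l < N + m + 1
    · exact hmax l (Finset.mem_range.2 hl)
    · exact (hN l (by omega)).le.trans (hmax m (by rw [Finset.mem_range]; omega))
  · push Not at hm
    exact ⟨0, fun l => (hm l).trans (h0 0)⟩

end CT4

theorem stmtCT4 : StmtCT4 := by
  intro d hd Mr hMr
  refine ⟨(1 + (Mr + 2 * Real.sqrt d)) ^ (d + 2), ?_, ?_⟩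
  · refine one_le_pow₀ ?_
    have := Real.sqrt_nonneg d
    linarith
  intro M c0 ε hε hε1 b hb E _ _ _ f hf hc s0 hs0
  have hak := hb.ak
  refine ⟨?_, ?_, ?_, ?_⟩
  · intro R hR Q
    have h1 := CT3.ball_le_mT (E := E) hak (ε := ε) hs0 hf hc Q (xC s0 Q) (r := R * lev s0 Q.1)
      (ρ := R) hR (by rw [sub_self, norm_zero, add_zero])
    exact h1
  · intro Q
    exact CT4.mT_le_nw hak ε hs0 hf hc Q
  · intro j Q Q' hQ hdist i
    have hs := Real.sqrt_nonneg (d : ℝ)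
    have hlev : (up i Q').1 = (up (i + j) Q).1 := by
      unfold up
      simp only
      omega
    have hle : lev s0 Q'.1 ≤ lev s0 (up i Q').1 := by
      unfold lev up
      simp only
      gcongr
      · norm_num
      · omega
    have h1 := CT3.xC_up hs0 i Q'
    have h2 := CT3.xC_up hs0 (i + j) Q
    have hl2 : lev s0 (Q.1 + (i + j)) = lev s0 (up i Q').1 := by
      rw [hlev]; rfl
    have hl1 : lev s0 (Q'.1 + i) = lev s0 (up i Q').1 := rfl
    rw [hl1] at h1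
    rw [hl2] at h2
    have h3 : ‖xC s0 (up i Q') - xC s0 (up (i + j) Q)‖ ≤
        (Mr + 2 * Real.sqrt d) * lev s0 (up i Q').1 := by
      have a1 : ‖xC s0 (up i Q') - xC s0 (up (i + j) Q)‖ ≤
          ‖xC s0 (up i Q') - xC s0 Q'‖ + ‖xC s0 Q' - xC s0 Q‖ +
            ‖xC s0 (up (i + j) Q) - xC s0 Q‖ := by
        rw [show xC s0 (up i Q') - xC s0 (up (i + j) Q) =
          (xC s0 (up i Q') - xC s0 Q') + (xC s0 Q' - xC s0 Q) -
            (xC s0 (up (i + j) Q) - xC s0 Q) by abel]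
        exact (norm_sub_le _ _).trans (by gcongr; exact norm_add_le _ _)
      have a2 : Mr * lev s0 Q'.1 ≤ Mr * lev s0 (up i Q').1 :=
        mul_le_mul_of_nonneg_left hle hMr
      linarith
    have hD : 0 ≤ Mr + 2 * Real.sqrt d := by positivity
    refine ⟨CT4.mT_comp hak ε hs0 hf hc _ _ hlev hD h3, ?_⟩
    refine CT4.mT_comp hak ε hs0 hf hc _ _ hlev.symm hD ?_
    rw [norm_sub_rev, ← hlev]
    exact h3
  · intro γ hγ Q
    refine CT4.exists_max (a := fun l : ℕ => (2 : ℝ) ^ (-(γ * l)) * mT b ε s0 f (up l Q))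
      (fun l => mul_nonneg (by positivity) (CT3.mT_nonneg b ε hs0 f _)) ?_
    have hB : ∀ l, mT b ε s0 f (up l Q) ≤ nw s0 Q * ∫ y, ‖f y‖ := by
      intro l
      refine (CT4.mT_le_nw hak ε hs0 hf hc _).trans ?_
      refine mul_le_mul_of_nonneg_right ?_ (integral_nonneg fun _ => norm_nonneg _)
      have h1 := CT3.nw_up hs0 l Q
      have h2 : (2 : ℝ) ^ l ≤ (2 ^ l) ^ d := by
        refine le_self_pow₀ (one_le_pow₀ (by norm_num)) (by omega)
      have h3 := CT3.nw_pos hs0 (up l Q)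
      have h4 : (0 : ℝ) < 2 ^ l := by positivity
      have h5 : nw s0 (up l Q) * 2 ^ l ≤ nw s0 Q * 2 ^ l := by
        rw [h1]
        exact mul_le_mul_of_nonneg_left h2 h3.le
      exact le_of_mul_le_mul_right h5 h4
    have hlim : Tendsto (fun l : ℕ => (2 : ℝ) ^ (-(γ * l)) * (nw s0 Q * ∫ y, ‖f y‖)) atTop
        (nhds 0) := by
      have e1 : ∀ l : ℕ, (2 : ℝ) ^ (-(γ * l)) = ((2 : ℝ) ^ (-γ)) ^ l := by
        intro l
        rw [← Real.rpow_natCast, ← Real.rpow_mul (by norm_num)]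
        congr 1
        ring
      simp_rw [e1]
      have e2 : Tendsto (fun l : ℕ => ((2 : ℝ) ^ (-γ)) ^ l) atTop (nhds 0) := by
        apply tendsto_pow_atTop_nhds_zero_of_lt_one (by positivity)
        exact Real.rpow_lt_one_of_one_lt_of_neg (by norm_num) (by linarith)
      have e3 := e2.mul_const (nw s0 Q * ∫ y, ‖f y‖)
      rwa [zero_mul] at e3
    refine squeeze_zero (fun l => mul_nonneg (by positivity) (CT3.mT_nonneg b ε hs0 f _))
      (fun l => ?_) hlim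
    exact mul_le_mul_of_nonneg_left (hB l) (by positivity)

end

end TG
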