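import Pool.Agent.TG.Stmts1
import Pool.Agent.TR.Basic1

/-!
# Trace inequality, general operators: MODULE PE, the perpendicular part (4.5)
-/

open MeasureTheory Metric Set TrI
open scoped InnerProductSpace ContDiff

namespace TG

namespace PE

noncomputable section

variable {d : ℕ}

/-- the properties of the kernel used here -/
structure KP (b : Sp d → ℝ) : Prop where
  cont : Continuous b
  nonneg : ∀ y, 0 ≤ b y
  neg : ∀ y, b (-y) = b y
  supp : ∀ y, 1 / 2 ≤ ‖y‖ → b y = 0
  int : ∫ y, b y = 1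

lemma KP.of_base {J : ℕ} {M c : ℝ} {b : Sp d → ℝ} (h : BaseKer J M c b) : KP b where
  cont := h.smooth.continuous
  nonneg := h.nonneg
  neg := fun y => le_antisymm (h.mono _ _ (by simp)) (h.mono _ _ (by simp))
  supp := h.supp
  int := h.int

section Kern

variable {b : Sp d → ℝ} (hb : KP b)

include hb

lemma KP.zero {y : Sp d} (h : 1 ≤ ‖y‖) : b y = 0 := hb.supp y (by linarith)

lemma KP.integrable : Integrable b := by
  refine hb.cont.integrable_of_hasCompactSupport ?_
  refine HasCompactSupport.of_support_subset_isCompact (isCompact_closedBall (0 : Sp d) 1) ?_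
  intro x hx
  by_contra hx'
  apply hx
  rw [mem_closedBall, dist_zero_right] at hx'
  exact hb.zero (by linarith)

variable {F : Type*} [NormedAddCommGroup F] [NormedSpace ℝ F] {g h : Sp d → F}

lemma KP.avi (hg : LB g) (s : ℝ) (x : Sp d) :
    Integrable (fun y => b y • g (x + s • y)) :=
  (hg.comp_smul x s).integrable_smul hb.cont (R := 1) fun _ hy => hb.zero hy

lemma KP.norm_le_of_bound {g : Sp d → F} {s : ℝ} {x : Sp d} {M : ℝ}
    (hM : ∀ z, ‖z - x‖ ≤ |s| / 2 → ‖g z‖ ≤ M) : ‖avk b s g x‖ ≤ M := by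
  have hM0 : 0 ≤ M := (norm_nonneg _).trans (hM x (by
    rw [sub_self, norm_zero]
    positivity))
  have h1 : ‖avk b s g x‖ ≤ ∫ y, b y * M := by
    refine norm_integral_le_of_norm_le (hb.integrable.mul_const M) ?_
    refine Filter.Eventually.of_forall fun y => ?_
    rw [norm_smul, Real.norm_eq_abs, abs_of_nonneg (hb.nonneg y)]
    by_cases hy : 1 / 2 ≤ ‖y‖
    · rw [hb.supp y hy]; simp
    · refine mul_le_mul_of_nonneg_left (hM _ ?_) (hb.nonneg y)
      rw [add_sub_cancel_left, norm_smul, Real.norm_eq_abs]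
      push Not at hy
      nlinarith [abs_nonneg s, norm_nonneg y]
  rwa [integral_mul_const, hb.int, one_mul] at h1

lemma KP.cs (hg : HasCompactSupport g) (s : ℝ) : HasCompactSupport (avk b s g) := by
  obtain ⟨R, hR⟩ := hg.isCompact.isBounded.subset_closedBall (0 : Sp d)
  refine HasCompactSupport.of_support_subset_isCompact (isCompact_closedBall (0 : Sp d) (R + |s|)) ?_
  intro x hx
  by_contra hx'
  apply hx
  have h1 : ‖avk b s g x‖ ≤ 0 := by
    refine hb.norm_le_of_bound fun z hz => ?_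
    have : g z = 0 := by
      by_contra hz'
      have h2 : z ∈ closedBall (0 : Sp d) R := hR (subset_tsupport _ hz')
      rw [mem_closedBall, dist_zero_right] at h2 hx'
      have : ‖x‖ ≤ ‖z‖ + ‖z - x‖ := by
        have := norm_sub_le z (z - x)
        rwa [sub_sub_cancel] at this
      have := abs_nonneg s
      linarith
    simp [this]
  simpa using h1

lemma KP.avc (hg : Continuous g) (s : ℝ) : Continuous (avk b s g) := by
  have h2 : Continuous (Function.uncurry fun (x y : Sp d) => b y • g (x + s • y)) := by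
    refine Continuous.smul (hb.cont.comp continuous_snd) (hg.comp ?_)
    fun_prop
  have h3 := continuous_parametric_integral_of_continuous (μ := volume) h2
    (isCompact_closedBall (0 : Sp d) 1)
  refine h3.congr fun x => ?_
  unfold avk
  rw [setIntegral_eq_integral_of_forall_compl_eq_zero]
  intro y hy
  rw [hb.zero, zero_smul]
  simp only [mem_closedBall, dist_zero_right, not_le] at hy
  exact hy.le

lemma KP.mono {g h : Sp d → ℝ} (hg : LB g) (hh : LB h) (hgh : ∀ z, g z ≤ h z) (s : ℝ)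
    (x : Sp d) : avk b s g x ≤ avk b s h x :=
  integral_mono (hb.avi hg s x) (hb.avi hh s x)
    fun y => mul_le_mul_of_nonneg_left (hgh _) (hb.nonneg y)

lemma KP.nn {g : Sp d → ℝ} (hg : ∀ z, 0 ≤ g z) (s : ℝ) (x : Sp d) : 0 ≤ avk b s g x :=
  integral_nonneg fun y => mul_nonneg (hb.nonneg y) (hg _)

lemma KP.normle (g : Sp d → F) (s : ℝ) (x : Sp d) :
    ‖avk b s g x‖ ≤ avk b s (fun z => ‖g z‖) x := by
  refine (norm_integral_le_integral_norm _).trans (le_of_eq ?_)
  unfold avk
  congr 1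
  ext y
  rw [norm_smul, Real.norm_eq_abs, abs_of_nonneg (hb.nonneg y), smul_eq_mul]

lemma KP.sub (hg : LB g) (hh : LB h) (s : ℝ) (x : Sp d) :
    avk b s (fun z => g z - h z) x = avk b s g x - avk b s h x := by
  simp only [avk, smul_sub]
  exact integral_sub (hb.avi hg s x) (hb.avi hh s x)

lemma KP.clm {E : Type*} [NormedAddCommGroup E] [NormedSpace ℝ E] [CompleteSpace E]
    [CompleteSpace F] (hg : LB g) (T : F →L[ℝ] E) (s : ℝ) (x : Sp d) :
    avk b s (fun z => T (g z)) x = T (avk b s g x) := by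
  unfold avk
  rw [← ContinuousLinearMap.integral_comp_comm T (hb.avi hg s x)]
  simp only [map_smul]

lemma KP.inner {E : Type*} [NormedAddCommGroup E] [InnerProductSpace ℝ E] [CompleteSpace E]
    {g : Sp d → E} (hg : LB g) (e : E) (s : ℝ) (x : Sp d) :
    avk b s (fun z => ⟪g z, e⟫_ℝ) x = ⟪avk b s g x, e⟫_ℝ := by
  simp only [avk]
  rw [real_inner_comm, ← integral_inner (hb.avi hg s x) e]
  congr 1
  ext y
  rw [inner_smul_right, real_inner_comm, smul_eq_mul]

lemma KP.shear (hg : Integrable g) (hg' : LB g) (s : ℝ) :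
    Integrable (Function.uncurry fun (x y : Sp d) => b y • g (x + s • y))
      (volume.prod volume) := by
  have hm : StronglyMeasurable (Function.uncurry fun (x y : Sp d) =>
      b y • g (x + s • y)) := by
    refine StronglyMeasurable.smul (f := fun p : Sp d × Sp d => b p.2) ?_ ?_
    · exact (hb.cont.comp continuous_snd).stronglyMeasurable
    · exact hg'.meas.comp_measurable
        (show Measurable fun p : Sp d × Sp d => p.1 + s • p.2 by fun_prop)
  rw [integrable_prod_iff' hm.aestronglyMeasurable]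
  constructor
  · refine Filter.Eventually.of_forall fun y => ?_
    simp only [Function.uncurry_apply_pair]
    exact (hg.comp_add_right (s • y)).smul (b y)
  · simp only [Function.uncurry_apply_pair, norm_smul]
    have h3 : (fun y : Sp d => ∫ x, ‖b y‖ * ‖g (x + s • y)‖) =
        fun y => ‖b y‖ * ∫ x, ‖g x‖ := by
      ext y
      rw [integral_const_mul]
      congr 1
      exact integral_add_right_eq_self (μ := volume) (fun x => ‖g x‖) (s • y)
    rw [h3]
    exact hb.integrable.norm.mul_const _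

/-- averages are self adjoint -/
lemma KP.adj_inner {E : Type*} [NormedAddCommGroup E] [InnerProductSpace ℝ E] [CompleteSpace E]
    {g h : Sp d → E} (hg : LB g) (hh : LB h) (hi : HasCompactSupport h) (s : ℝ) :
    ∫ x, ⟪avk b s g x, h x⟫_ℝ = ∫ x, ⟪g x, avk b s h x⟫_ℝ := by
  obtain ⟨R, hR⟩ := hi.isCompact.isBounded.subset_closedBall (0 : Sp d)
  have hR' : ∀ z, h z ≠ 0 → ‖z‖ ≤ R := fun z hz => by
    simpa using hR (subset_tsupport _ hz)
  obtain ⟨M, hM⟩ := hg.bd (R + |s|)
  have hhi : Integrable h := hh.integrable hi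
  have hinner : Continuous (fun p : E × E => ⟪p.1, p.2⟫_ℝ) := by fun_prop
  have hbb : ∀ (z y : Sp d), ‖y‖ < 1 → ‖s • y‖ ≤ |s| := by
    intro z y hy
    rw [norm_smul, Real.norm_eq_abs]
    nlinarith [abs_nonneg s, norm_nonneg y]
  -- first product integrability
  have hI1 : Integrable (Function.uncurry fun (x y : Sp d) => b y * ⟪g (x + s • y), h x⟫_ℝ)
      (volume.prod volume) := by
    have hi0 : Integrable (fun p : Sp d × Sp d => ‖h p.1‖ * b p.2 * |M|)
        (volume.prod volume) := (hhi.norm.mul_prod hb.integrable).mul_const _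
    refine hi0.mono' ?_ ?_
    · refine StronglyMeasurable.aestronglyMeasurable ?_
      refine StronglyMeasurable.mul (f := fun p : Sp d × Sp d => b p.2) ?_ ?_
      · exact (hb.cont.comp continuous_snd).stronglyMeasurable
      · refine hinner.comp_stronglyMeasurable (StronglyMeasurable.prodMk ?_ ?_)
        · exact hg.meas.comp_measurable
            (show Measurable fun p : Sp d × Sp d => p.1 + s • p.2 by fun_prop)
        · exact hh.meas.comp_measurable measurable_fst
    · refine Filter.Eventually.of_forall fun p => ?_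
      obtain ⟨x, y⟩ := p
      simp only [Function.uncurry_apply_pair]
      rw [norm_mul, Real.norm_eq_abs, abs_of_nonneg (hb.nonneg y)]
      by_cases hy : 1 ≤ ‖y‖
      · simp [hb.zero hy]
      by_cases hx : h x = 0
      · simp [hx]
      push Not at hy
      have h1 : ‖g (x + s • y)‖ ≤ |M| := by
        refine (hM _ ?_).trans (le_abs_self M)
        exact (norm_add_le _ _).trans (add_le_add (hR' x hx) (hbb x y hy))
      have h2 : ‖⟪g (x + s • y), h x⟫_ℝ‖ ≤ |M| * ‖h x‖ :=
        (norm_inner_le_norm _ _).trans (mul_le_mul_of_nonneg_right h1 (norm_nonneg _))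
      calc b y * ‖⟪g (x + s • y), h x⟫_ℝ‖ ≤ b y * (|M| * ‖h x‖) :=
            mul_le_mul_of_nonneg_left h2 (hb.nonneg y)
        _ = ‖h x‖ * b y * |M| := by ring
  -- second product integrability
  have hI2 : Integrable (Function.uncurry fun (x y : Sp d) => b y * ⟪g x, h (x + s • y)⟫_ℝ)
      (volume.prod volume) := by
    have hi0 : Integrable (fun p : Sp d × Sp d => (b p.2 • ‖h (p.1 + s • p.2)‖) * |M|)
        (volume.prod volume) := (hb.shear hhi.norm hh.norm s).mul_const _
    refine hi0.mono' ?_ ?_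
    · refine StronglyMeasurable.aestronglyMeasurable ?_
      refine StronglyMeasurable.mul (f := fun p : Sp d × Sp d => b p.2) ?_ ?_
      · exact (hb.cont.comp continuous_snd).stronglyMeasurable
      · refine hinner.comp_stronglyMeasurable (StronglyMeasurable.prodMk ?_ ?_)
        · exact hg.meas.comp_measurable measurable_fst
        · exact hh.meas.comp_measurable
            (show Measurable fun p : Sp d × Sp d => p.1 + s • p.2 by fun_prop)
    · refine Filter.Eventually.of_forall fun p => ?_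
      obtain ⟨x, y⟩ := p
      simp only [Function.uncurry_apply_pair]
      rw [norm_mul, Real.norm_eq_abs, abs_of_nonneg (hb.nonneg y)]
      by_cases hy : 1 ≤ ‖y‖
      · simp [hb.zero hy]
      by_cases hx : h (x + s • y) = 0
      · simp [hx]
      push Not at hy
      have h1 : ‖g x‖ ≤ |M| := by
        refine (hM _ ?_).trans (le_abs_self M)
        have h3 : ‖x‖ ≤ ‖x + s • y‖ + ‖s • y‖ := by
          have := norm_sub_le (x + s • y) (s • y)
          rwa [add_sub_cancel_right] at this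
        exact h3.trans (add_le_add (hR' _ hx) (hbb x y hy))
      have h2 : ‖⟪g x, h (x + s • y)⟫_ℝ‖ ≤ |M| * ‖h (x + s • y)‖ :=
        (norm_inner_le_norm _ _).trans (mul_le_mul_of_nonneg_right h1 (norm_nonneg _))
      calc b y * ‖⟪g x, h (x + s • y)⟫_ℝ‖ ≤ b y * (|M| * ‖h (x + s • y)‖) :=
            mul_le_mul_of_nonneg_left h2 (hb.nonneg y)
        _ = b y • ‖h (x + s • y)‖ * |M| := by rw [smul_eq_mul]; ring
  have e1 : ∀ x, ⟪avk b s g x, h x⟫_ℝ = ∫ y, b y * ⟪g (x + s • y), h x⟫_ℝ := by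
    intro x
    rw [← hb.inner hg (h x) s x, avk]
    simp only [smul_eq_mul]
  have e2 : ∀ x, ⟪g x, avk b s h x⟫_ℝ = ∫ y, b y * ⟪g x, h (x + s • y)⟫_ℝ := by
    intro x
    rw [real_inner_comm, ← hb.inner hh (g x) s x, avk]
    simp only [smul_eq_mul]
    congr 1
    ext y
    rw [real_inner_comm]
  simp only [e1, e2]
  rw [integral_integral_swap hI1, integral_integral_swap hI2]
  have e3 : ∀ y : Sp d, ∫ x, b y * ⟪g (x + s • y), h x⟫_ℝ =
      ∫ x, b (-y) * ⟪g x, h (x + s • (-y))⟫_ℝ := by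
    intro y
    rw [integral_const_mul, integral_const_mul, hb.neg]
    congr 1
    rw [← integral_add_right_eq_self (μ := volume) (fun x => ⟪g (x + s • y), h x⟫_ℝ) (-(s • y))]
    congr 1
    ext x
    rw [smul_neg, neg_add_cancel_right]
  simp only [e3]
  exact integral_neg_eq_self (fun y : Sp d => ∫ x, b y * ⟪g x, h (x + s • y)⟫_ℝ) volume

lemma KP.adj {g h : Sp d → ℝ} (hg : LB g) (hh : LB h) (hi : HasCompactSupport h) (s : ℝ) :
    ∫ x, avk b s g x * h x = ∫ x, g x * avk b s h x := by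
  have := hb.adj_inner hg hh hi s
  simp only [RCLike.inner_apply, conj_trivial] at this
  simpa only [mul_comm] using this

/-- average of an indicator function is at most one -/
lemma KP.ind_le {A : Set (Sp d)} (s : ℝ) (z : Sp d) :
    avk b s (A.indicator fun _ => (1 : ℝ)) z ≤ 1 := by
  have h1 : ‖avk b s (A.indicator fun _ => (1 : ℝ)) z‖ ≤ 1 := by
    refine hb.norm_le_of_bound fun w _ => ?_
    rw [Set.indicator]
    split_ifs <;> simp
  exact (le_abs_self _).trans h1

lemma KP.ind_zero {A : Set (Sp d)} (s : ℝ) (z : Sp d)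
    (h : ∀ w, ‖w - z‖ ≤ |s| / 2 → w ∉ A) :
    avk b s (A.indicator fun _ => (1 : ℝ)) z = 0 := by
  have h1 : ‖avk b s (A.indicator fun _ => (1 : ℝ)) z‖ ≤ 0 := by
    refine hb.norm_le_of_bound fun w hw => ?_
    rw [Set.indicator_of_notMem (h w hw)]
    simp
  simpa using h1

lemma KP.ind_one {A : Set (Sp d)} (s : ℝ) (z : Sp d)
    (h : ∀ w, ‖w - z‖ ≤ |s| / 2 → w ∈ A) :
    avk b s (A.indicator fun _ => (1 : ℝ)) z = 1 := by
  unfold avk
  refine Eq.trans ?_ hb.int
  congr 1
  ext y
  by_cases hy : 1 / 2 ≤ ‖y‖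
  · rw [hb.supp y hy, zero_smul]
  · rw [Set.indicator_of_mem, smul_eq_mul, mul_one]
    refine h _ ?_
    rw [add_sub_cancel_left, norm_smul, Real.norm_eq_abs]
    push Not at hy
    nlinarith [abs_nonneg s, norm_nonneg y]

omit hb in
lemma LBind {A : Set (Sp d)} (hA : MeasurableSet A) : LB (A.indicator fun _ => (1 : ℝ)) :=
  (LB.of_cont continuous_const).indicator hA

lemma KP.avLB (hg : LB g) (s : ℝ) : LB (avk b s g) where
  meas := by
    have h2 : StronglyMeasurable (Function.uncurry fun (x y : Sp d) => b y • g (x + s • y)) := by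
      refine StronglyMeasurable.smul (f := fun p : Sp d × Sp d => b p.2) ?_ ?_
      · exact (hb.cont.comp continuous_snd).stronglyMeasurable
      · exact hg.meas.comp_measurable
          (show Measurable fun p : Sp d × Sp d => p.1 + s • p.2 by fun_prop)
    exact h2.integral_prod_right
  bd := by
    intro R
    obtain ⟨M, hM⟩ := hg.bd (R + |s|)
    refine ⟨M, fun x hx => hb.norm_le_of_bound fun z hz => hM z ?_⟩
    have : ‖z‖ ≤ ‖x‖ + ‖z - x‖ := by
      have := norm_add_le x (z - x)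
      rwa [add_sub_cancel] at this
    have := abs_nonneg s
    linarith

/-- transfer, lower bound -/
lemma KP.set_ge {g : Sp d → ℝ} (hg : Continuous g) (hc : HasCompactSupport g)
    (h0 : ∀ z, 0 ≤ g z) (s : ℝ) {A A' : Set (Sp d)} (hA : MeasurableSet A)
    (hA' : MeasurableSet A') (h : ∀ z ∈ A, ∀ w, ‖w - z‖ ≤ |s| / 2 → w ∈ A') :
    ∫ z in A, g z ≤ ∫ z in A', avk b s g z := by
  have hgL := LB.of_cont hg
  have hgi : Integrable g := hgL.integrable hc
  have e1 : ∫ z in A, g z = ∫ z, (A.indicator (fun _ => (1 : ℝ)) z) * g z := by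
    rw [← integral_indicator hA]
    congr 1
    ext z
    by_cases hz : z ∈ A <;> simp [hz]
  have e2 : ∫ z in A', avk b s g z = ∫ z, (A'.indicator (fun _ => (1 : ℝ)) z) * avk b s g z := by
    rw [← integral_indicator hA']
    congr 1
    ext z
    by_cases hz : z ∈ A' <;> simp [hz]
  rw [e1, e2, ← hb.adj (LBind hA') hgL hc s]
  refine integral_mono ?_ ?_ fun z => ?_
  · refine hgi.bdd_mul (c := 1) (LBind hA).meas.aestronglyMeasurable ?_
    refine Filter.Eventually.of_forall fun z => ?_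
    rw [Set.indicator]
    split_ifs <;> simp
  · refine hgi.bdd_mul (c := 1) (hb.avLB (LBind hA') s).meas.aestronglyMeasurable ?_
    refine Filter.Eventually.of_forall fun z => ?_
    refine hb.norm_le_of_bound fun w _ => ?_
    rw [Set.indicator]
    split_ifs <;> simp
  · refine mul_le_mul_of_nonneg_right ?_ (h0 z)
    by_cases hz : z ∈ A
    · rw [Set.indicator_of_mem hz, hb.ind_one s z (h z hz)]
    · rw [Set.indicator_of_notMem hz]
      refine hb.nn (fun w => ?_) s z
      rw [Set.indicator]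
      split_ifs <;> simp

/-- transfer, upper bound -/
lemma KP.set_le {g : Sp d → ℝ} (hg : Continuous g) (hc : HasCompactSupport g)
    (h0 : ∀ z, 0 ≤ g z) (s : ℝ) {A A' : Set (Sp d)} (hA : MeasurableSet A)
    (hA' : MeasurableSet A') (h : ∀ z ∈ A, ∀ w, ‖w - z‖ ≤ |s| / 2 → w ∈ A') :
    ∫ z in A, avk b s g z ≤ ∫ z in A', g z := by
  have hgL := LB.of_cont hg
  have hgi : Integrable g := hgL.integrable hc
  have e1 : ∫ z in A', g z = ∫ z, (A'.indicator (fun _ => (1 : ℝ)) z) * g z := by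
    rw [← integral_indicator hA']
    congr 1
    ext z
    by_cases hz : z ∈ A' <;> simp [hz]
  have e2 : ∫ z in A, avk b s g z = ∫ z, (A.indicator (fun _ => (1 : ℝ)) z) * avk b s g z := by
    rw [← integral_indicator hA]
    congr 1
    ext z
    by_cases hz : z ∈ A <;> simp [hz]
  rw [e1, e2, ← hb.adj (LBind hA) hgL hc s]
  refine integral_mono ?_ ?_ fun z => ?_
  · refine hgi.bdd_mul (c := 1) (hb.avLB (LBind hA) s).meas.aestronglyMeasurable ?_
    refine Filter.Eventually.of_forall fun z => ?_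
    refine hb.norm_le_of_bound fun w _ => ?_
    rw [Set.indicator]
    split_ifs <;> simp
  · refine hgi.bdd_mul (c := 1) (LBind hA').meas.aestronglyMeasurable ?_
    refine Filter.Eventually.of_forall fun z => ?_
    rw [Set.indicator]
    split_ifs <;> simp
  · refine mul_le_mul_of_nonneg_right ?_ (h0 z)
    by_cases hz : z ∈ A'
    · rw [Set.indicator_of_mem hz]
      exact hb.ind_le s z
    · rw [Set.indicator_of_notMem hz, hb.ind_zero s z]
      intro w hw hwA
      exact hz (h w hwA z (by rwa [norm_sub_rev]))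

/-! ## second order bound -/

omit hb in
lemma second_diff {E : Type*} [NormedAddCommGroup E] [NormedSpace ℝ E] {Y : Sp d → E}
    (hY : ContDiff ℝ 2 Y) (h2 : ∀ y, ‖iteratedFDeriv ℝ 2 Y y‖ ≤ 1) (x h : Sp d) :
    ‖Y (x + h) + Y (x - h) - (2 : ℝ) • Y x‖ ≤ 2 * ‖h‖ ^ 2 := by
  have hd1 : ContDiff ℝ 1 (fderiv ℝ Y) := hY.fderiv_right (m := 1) (by norm_num)
  have hdd : Differentiable ℝ (fderiv ℝ Y) := hd1.differentiable (by norm_num)
  have hYd : Differentiable ℝ Y := hY.differentiable (by norm_num)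
  have hb2 : ∀ y, ‖fderiv ℝ (fderiv ℝ Y) y‖ ≤ 1 := by
    intro y
    rw [← norm_iteratedFDeriv_one, norm_iteratedFDeriv_fderiv]
    exact h2 y
  have hlip : ∀ y z, ‖fderiv ℝ Y z - fderiv ℝ Y y‖ ≤ 1 * ‖z - y‖ := by
    intro y z
    exact (convex_univ).norm_image_sub_le_of_norm_fderiv_le (𝕜 := ℝ)
      (fun w _ => hdd w) (fun w _ => hb2 w) (mem_univ y) (mem_univ z)
  -- one variable function
  have hline : ∀ (σ : ℝ) (t : ℝ), HasDerivAt (fun t : ℝ => x + (σ * t) • h) (σ • h) t := by
    intro σ t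
    have h1 : HasDerivAt (fun t : ℝ => σ * t) σ t := by
      simpa using (hasDerivAt_id t).const_mul σ
    exact (h1.smul_const h).const_add x
  have hder : ∀ t : ℝ, HasDerivAt (fun t : ℝ => Y (x + (1 * t) • h) + Y (x + (-1 * t) • h))
      (fderiv ℝ Y (x + (1 * t) • h) ((1 : ℝ) • h) +
        fderiv ℝ Y (x + (-1 * t) • h) ((-1 : ℝ) • h)) t := by
    intro t
    exact ((hYd _).hasFDerivAt.comp_hasDerivAt t (hline 1 t)).add
      ((hYd _).hasFDerivAt.comp_hasDerivAt t (hline (-1) t))
  have hbd : ∀ t ∈ Icc (0 : ℝ) 1, ‖fderiv ℝ Y (x + (1 * t) • h) ((1 : ℝ) • h) +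
        fderiv ℝ Y (x + (-1 * t) • h) ((-1 : ℝ) • h)‖ ≤ 2 * ‖h‖ ^ 2 := by
    intro t ht
    have e1 : fderiv ℝ Y (x + (1 * t) • h) ((1 : ℝ) • h) +
        fderiv ℝ Y (x + (-1 * t) • h) ((-1 : ℝ) • h) =
        (fderiv ℝ Y (x + (1 * t) • h) - fderiv ℝ Y (x + (-1 * t) • h)) h := by
      simp [sub_eq_add_neg]
    rw [e1]
    have e2 : x + (1 * t) • h - (x + (-1 * t) • h) = (2 * t) • h := by
      module
    have e3 := hlip (x + (-1 * t) • h) (x + (1 * t) • h)
    rw [e2, norm_smul, Real.norm_eq_abs, abs_of_nonneg (by linarith [ht.1] : (0 : ℝ) ≤ 2 * t)]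
      at e3
    refine (ContinuousLinearMap.le_opNorm _ _).trans ?_
    have h0 := norm_nonneg h
    have : 2 * t * ‖h‖ ≤ 2 * ‖h‖ := by nlinarith [ht.2]
    calc _ ≤ (2 * ‖h‖) * ‖h‖ := mul_le_mul_of_nonneg_right (by linarith) h0
      _ = 2 * ‖h‖ ^ 2 := by ring
  have key := (convex_Icc (0 : ℝ) 1).norm_image_sub_le_of_norm_hasDerivWithin_le
    (fun t _ => (hder t).hasDerivWithinAt) hbd (left_mem_Icc.2 zero_le_one)
    (right_mem_Icc.2 zero_le_one)
  simp only [mul_zero, zero_smul, add_zero, mul_one, one_smul, neg_smul, sub_zero, norm_one]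
    at key
  rw [two_smul, sub_eq_add_neg x h]
  exact key

lemma KP.taylor {E : Type*} [NormedAddCommGroup E] [NormedSpace ℝ E] [CompleteSpace E]
    {Y : Sp d → E}
    (hY : ContDiff ℝ 2 Y) (h2 : ∀ y, ‖iteratedFDeriv ℝ 2 Y y‖ ≤ 1) (s : ℝ) (x : Sp d) :
    ‖Y x - avk b s Y x‖ ≤ s ^ 2 := by
  have hL : LB Y := LB.of_cont hY.continuous
  have i1 := hb.avi hL s x
  have i2 := hb.avi hL (-s) x
  have e1 : avk b (-s) Y x = avk b s Y x := by
    unfold avk
    rw [← integral_neg_eq_self]
    congr 1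
    ext y
    rw [hb.neg, neg_smul, smul_neg, neg_neg]
  have e2 : avk b s Y x + avk b (-s) Y x - (2 : ℝ) • Y x =
      ∫ y, b y • (Y (x + s • y) + Y (x - s • y) - (2 : ℝ) • Y x) := by
    have e3 : ∫ y, b y • ((2 : ℝ) • Y x) = (2 : ℝ) • Y x := by
      rw [integral_smul_const, hb.int, one_smul]
    have e6 : ∫ y, b y • (Y (x + s • y) + Y (x - s • y) - (2 : ℝ) • Y x) =
        ∫ y, (b y • Y (x + s • y) + b y • Y (x + -s • y) - b y • ((2 : ℝ) • Y x)) := by
      congr 1
      ext y
      rw [smul_sub, smul_add, sub_eq_add_neg x, neg_smul]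
    have e7 := integral_sub (i1.add i2) (hb.integrable.smul_const ((2 : ℝ) • Y x))
    have e8 := integral_add i1 i2
    simp only [Pi.add_apply] at e7
    rw [e6, e7, e8, e3]
    rfl
  have e4 : ‖avk b s Y x + avk b (-s) Y x - (2 : ℝ) • Y x‖ ≤ ∫ y, b y * (2 * s ^ 2) := by
    rw [e2]
    refine norm_integral_le_of_norm_le (hb.integrable.mul_const _) ?_
    refine Filter.Eventually.of_forall fun y => ?_
    rw [norm_smul, Real.norm_eq_abs, abs_of_nonneg (hb.nonneg y)]
    by_cases hy : 1 ≤ ‖y‖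
    · rw [hb.zero hy]; simp
    · push Not at hy
      refine mul_le_mul_of_nonneg_left ?_ (hb.nonneg y)
      refine (second_diff hY h2 x (s • y)).trans ?_
      rw [norm_smul, Real.norm_eq_abs, mul_pow, sq_abs]
      have : ‖y‖ ^ 2 ≤ 1 := by nlinarith [norm_nonneg y]
      nlinarith [sq_nonneg s]
  rw [integral_mul_const, hb.int, one_mul, e1] at e4
  have e5 : avk b s Y x + avk b s Y x - (2 : ℝ) • Y x = (-2 : ℝ) • (Y x - avk b s Y x) := by
    module
  rw [e5, norm_smul] at e4
  norm_num at e4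
  linarith

end Kern

/-! ## scalar lemmas -/

lemma opt {X P Q : ℝ} (hP : 0 ≤ P) (hQ : 0 ≤ Q) (h : ∀ t : ℝ, 0 < t → X ≤ t * P + Q / t) :
    X ≤ 2 * Real.sqrt (P * Q) := by
  by_contra hX
  push Not at hX
  have hX0 : 0 < X := lt_of_le_of_lt (by positivity) hX
  rcases hP.eq_or_lt with hP0 | hP0
  · have h1 := h ((2 * Q + 1) / X) (by positivity)
    rw [← hP0, mul_zero, zero_add, div_div_eq_mul_div, le_div_iff₀ (by positivity)] at h1
    nlinarith
  rcases hQ.eq_or_lt with hQ0 | hQ0
  · have h1 := h (X / (2 * P + 1)) (by positivity)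
    rw [← hQ0, zero_div, add_zero, div_mul_eq_mul_div, le_div_iff₀ (by positivity)] at h1
    nlinarith
  have hs : 0 < Real.sqrt (P * Q) := Real.sqrt_pos.2 (by positivity)
  have hs2 : Real.sqrt (P * Q) ^ 2 = P * Q := Real.sq_sqrt (by positivity)
  have h1 := h (Real.sqrt (P * Q) / P) (by positivity)
  have e1 : Real.sqrt (P * Q) / P * P = Real.sqrt (P * Q) := by field_simp
  have e2 : Q / (Real.sqrt (P * Q) / P) = Real.sqrt (P * Q) := by
    rw [div_div_eq_mul_div, div_eq_iff hs.ne', ← sq, hs2]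
    ring
  rw [e1, e2] at h1
  linarith

lemma seq_sum (n : ℕ) (m D : ℕ → ℝ) (h0 : 0 ≤ m 0)
    (h1 : ∀ l, l < n → m l ≤ m (l + 1) + D l) :
    ∑ l ∈ Finset.range n, (1 / 4 : ℝ) ^ (n - l) * m l ≤
      1 / 3 * m n + 4 / 3 * ∑ l ∈ Finset.range n, (1 / 4 : ℝ) ^ (n - l) * D l := by
  have e1 : ∑ l ∈ Finset.range n, (1 / 4 : ℝ) ^ (n - l) * m l ≤
      ∑ l ∈ Finset.range n, (1 / 4 * ((1 / 4 : ℝ) ^ (n - (l + 1)) * m (l + 1)) +
        (1 / 4 : ℝ) ^ (n - l) * D l) := by
    refine Finset.sum_le_sum fun l hl => ?_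
    have hl' := Finset.mem_range.1 hl
    have e2 : (1 / 4 : ℝ) ^ (n - l) = 1 / 4 * (1 / 4 : ℝ) ^ (n - (l + 1)) := by
      rw [← pow_succ']
      congr 1
      omega
    have e3 := mul_le_mul_of_nonneg_left (h1 l hl')
      (by positivity : (0 : ℝ) ≤ (1 / 4 : ℝ) ^ (n - l))
    calc _ ≤ (1 / 4 : ℝ) ^ (n - l) * (m (l + 1) + D l) := e3
      _ = (1 / 4 : ℝ) ^ (n - l) * m (l + 1) + (1 / 4 : ℝ) ^ (n - l) * D l := by ring
      _ = _ := by
        congr 1
        rw [e2]
        ring
  rw [Finset.sum_add_distrib, ← Finset.mul_sum] at e1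
  have e4 := Finset.sum_range_succ (fun l => (1 / 4 : ℝ) ^ (n - l) * m l) n
  have e5 := Finset.sum_range_succ' (fun l => (1 / 4 : ℝ) ^ (n - l) * m l) n
  rw [e4] at e5
  have e6 : 0 ≤ (1 / 4 : ℝ) ^ (n - 0) * m 0 := by positivity
  simp only [Nat.sub_self, pow_zero, one_mul] at e5
  linarith

/-! ## projection -/

section Main

variable {E : Type} [NormedAddCommGroup E] [InnerProductSpace ℝ E]

/-- the projection orthogonal to e -/
def prp (e : E) : E →L[ℝ] E := ContinuousLinearMap.id ℝ E - (innerSL ℝ e).smulRight e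

lemma prp_apply (e v : E) : prp e v = v - ⟪v, e⟫_ℝ • e := by
  simp [prp, real_inner_comm]

lemma inner_le_norm_unit {e : E} (he : ‖e‖ = 1) (v : E) : |⟪v, e⟫_ℝ| ≤ ‖v‖ := by
  have := abs_real_inner_le_norm v e
  rwa [he, mul_one] at this

lemma prp_sq {e : E} (he : ‖e‖ = 1) (v : E) :
    ‖prp e v‖ ^ 2 ≤ 2 * ‖v‖ * (‖v‖ - ⟪v, e⟫_ℝ) := by
  have h1 : ‖prp e v‖ ^ 2 = ‖v‖ ^ 2 - ⟪v, e⟫_ℝ ^ 2 := by
    rw [prp_apply, norm_sub_sq_real, inner_smul_right, norm_smul, he, mul_one,
      Real.norm_eq_abs, sq_abs]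
    ring
  have h2 := inner_le_norm_unit he v
  have h3 := (abs_le.1 h2)
  rw [h1]
  nlinarith [norm_nonneg v]

lemma prp_le {e : E} (he : ‖e‖ = 1) (v : E) {t : ℝ} (ht : 0 < t) :
    ‖prp e v‖ ≤ t * ‖v‖ + 1 / (2 * t) * (‖v‖ - ⟪v, e⟫_ℝ) := by
  have h1 := prp_sq he v
  have h2 := (abs_le.1 (inner_le_norm_unit he v)).2
  have h3 : 0 ≤ ‖v‖ - ⟪v, e⟫_ℝ := by linarith
  have h4 : 0 ≤ t * ‖v‖ + 1 / (2 * t) * (‖v‖ - ⟪v, e⟫_ℝ) := by positivity
  refine abs_le_of_sq_le_sq' ?_ h4 |>.2
  refine h1.trans ?_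
  have h5 : 2 * ‖v‖ * (‖v‖ - ⟪v, e⟫_ℝ) =
      4 * (t * ‖v‖) * (1 / (2 * t) * (‖v‖ - ⟪v, e⟫_ℝ)) := by
    field_simp
    ring
  rw [h5]
  nlinarith [sq_nonneg (t * ‖v‖ - 1 / (2 * t) * (‖v‖ - ⟪v, e⟫_ℝ))]

/-- one term of the telescoping sum -/
lemma pair_le {g Z : Sp d → E} (hg : Continuous g) (hc : HasCompactSupport g) {e : E}
    (he : ‖e‖ = 1) {A : Set (Sp d)} (hA : MeasurableSet A) {w t : ℝ} (ht : 0 < t)
    (hZ : ∀ y, ‖Z y‖ ≤ w) (hZA : ∀ y, y ∉ A → Z y = 0) :
    |∫ y, ⟪prp e (g y), Z y⟫_ℝ| ≤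
      w * (t * (∫ y in A, ‖g y‖) + 1 / (2 * t) * ∫ y in A, (‖g y‖ - ⟪g y, e⟫_ℝ)) := by
  have i1 : Integrable (fun y => ‖g y‖) := (hg.integrable_of_hasCompactSupport hc).norm
  have i2 : Integrable (fun y => ‖g y‖ - ⟪g y, e⟫_ℝ) := by
    refine i1.sub ?_
    refine (hg.inner continuous_const).integrable_of_hasCompactSupport ?_
    exact hc.comp_left (g := fun v : E => ⟪v, e⟫_ℝ) (by simp)
  have i3 : Integrable (fun y => w * (t * ‖g y‖ + 1 / (2 * t) * (‖g y‖ - ⟪g y, e⟫_ℝ))) :=
    ((i1.const_mul t).add (i2.const_mul (1 / (2 * t)))).const_mul w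
  have h1 : ‖∫ y, ⟪prp e (g y), Z y⟫_ℝ‖ ≤
      ∫ y, A.indicator (fun y => w * (t * ‖g y‖ + 1 / (2 * t) * (‖g y‖ - ⟪g y, e⟫_ℝ))) y := by
    refine norm_integral_le_of_norm_le (i3.indicator hA) ?_
    refine Filter.Eventually.of_forall fun y => ?_
    by_cases hy : y ∈ A
    · rw [Set.indicator_of_mem hy]
      refine (norm_inner_le_norm _ _).trans ?_
      have h2 := prp_le he (g y) ht
      calc ‖prp e (g y)‖ * ‖Z y‖ ≤
          (t * ‖g y‖ + 1 / (2 * t) * (‖g y‖ - ⟪g y, e⟫_ℝ)) * w :=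
            mul_le_mul h2 (hZ y) (norm_nonneg _) ((norm_nonneg _).trans h2)
        _ = _ := by ring
    · rw [Set.indicator_of_notMem hy, hZA y hy]
      simp
  rw [integral_indicator hA, integral_const_mul] at h1
  have h2 := integral_add (μ := volume.restrict A) ((i1.const_mul t).restrict)
    ((i2.const_mul (1 / (2 * t))).restrict)
  rw [integral_const_mul, integral_const_mul] at h2
  rw [h2] at h1
  exact h1

variable {b : Sp d → ℝ}

lemma fl_cont (hb : KP b) {f : Sp d → E} (hf : Continuous f) (ε s0 : ℝ) :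
    ∀ l, Continuous (fl b ε s0 f l)
  | 0 => hf
  | l + 1 => hb.avc (fl_cont hb hf ε s0 l) _

lemma fl_cs (hb : KP b) {f : Sp d → E} (hf : HasCompactSupport f) (ε s0 : ℝ) :
    ∀ l, HasCompactSupport (fl b ε s0 f l)
  | 0 => hf
  | l + 1 => hb.cs (fl_cs hb hf ε s0 l) _

lemma fl_succ (f : Sp d → E) (ε s0 : ℝ) (l : ℕ) :
    fl b ε s0 f (l + 1) = avk b (ε * lev s0 (l + 1)) (fl b ε s0 f l) := rfl

/-- one telescoping step -/
lemma step [CompleteSpace E] (hb : KP b) {g Y : Sp d → E} (hg : Continuous g)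
    (hY : Continuous Y) (hYc : HasCompactSupport Y) (e : E) (s : ℝ) :
    ∫ y, ⟪prp e (g y), Y y⟫_ℝ = (∫ y, ⟪prp e (g y), Y y - avk b s Y y⟫_ℝ) +
      ∫ y, ⟪prp e (avk b s g y), Y y⟫_ℝ := by
  have hpg : Continuous (fun y => prp e (g y)) := (prp e).continuous.comp hg
  have e1 : ∫ y, ⟪prp e (avk b s g y), Y y⟫_ℝ = ∫ y, ⟪prp e (g y), avk b s Y y⟫_ℝ := by
    have h1 : ∀ y, prp e (avk b s g y) = avk b s (fun z => prp e (g z)) y := fun y =>
      (hb.clm (LB.of_cont hg) (prp e) s y).symm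
    simp only [h1]
    exact hb.adj_inner (LB.of_cont hpg) (LB.of_cont hY) hYc s
  have i1 : Integrable (fun y => ⟪prp e (g y), Y y⟫_ℝ) := by
    refine (hpg.inner hY).integrable_of_hasCompactSupport ?_
    exact hYc.mono fun y hy hy' => hy (by simp [hy'])
  have i2 : Integrable (fun y => ⟪prp e (g y), avk b s Y y⟫_ℝ) := by
    refine (hpg.inner (hb.avc hY s)).integrable_of_hasCompactSupport ?_
    exact (hb.cs hYc s).mono fun y hy hy' => hy (by simp [hy'])
  rw [e1]
  simp only [inner_sub_right]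
  rw [integral_sub i1 i2]
  ring

end Main

end

end PE

open PE in
theorem stmtPE : StmtPE := by
  intro d hd M c ε hε hε1 b hb0
  have hb := KP.of_base hb0
  refine ⟨8, by norm_num, ?_⟩
  intro E _ _ _ f hf hfc R hR n e he x Y S hS hY hY1 hY2 hYs hYS
  set s0 : ℝ := (1 / 2) ^ n with hs0
  set g : ℕ → Sp d → E := fl b ε s0 f with hg
  have hgc : ∀ l, Continuous (g l) := fl_cont hb hf ε s0
  have hgs : ∀ l, HasCompactSupport (g l) := fl_cs hb hfc ε s0
  -- the scales
  set ρ : ℕ → ℝ := fun l => lev s0 l with hρ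
  have hρ0 : ∀ l, 0 < ρ l := fun l => by
    simp only [hρ, lev, hs0]
    positivity
  have hρs : ∀ l, ρ (l + 1) = 2 * ρ l := fun l => by
    simp only [hρ, lev]
    ring
  have hρn : ρ n = 1 := by
    simp only [hρ, lev, hs0]
    rw [← mul_pow]
    norm_num
  have hρl : ∀ l, l ≤ n → ρ l = (1 / 2) ^ (n - l) := by
    intro l hl
    simp only [hρ, lev, hs0]
    obtain ⟨k, rfl⟩ := Nat.exists_eq_add_of_le hl
    rw [Nat.add_sub_cancel_left, pow_add, mul_right_comm, ← mul_pow]
    norm_num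
  have hρ2 : ∀ l, l < n → 2 * ρ l ≤ 1 := by
    intro l hl
    rw [hρl l hl.le]
    obtain ⟨k, hk⟩ := Nat.exists_eq_add_of_lt hl
    have h1 : n - l = k + 1 := by omega
    rw [h1, pow_succ]
    have : (1 / 2 : ℝ) ^ k ≤ 1 := pow_le_one₀ (by norm_num) (by norm_num)
    linarith
  -- the sets
  set U : Set (Sp d) := {y | Y y ≠ 0} with hU
  have hUo : IsOpen U := isOpen_ne_fun hY.continuous continuous_const
  set T : ℕ → Set (Sp d) := fun l => thickening (2 * ρ l) U with hT
  have hTm : ∀ l, MeasurableSet (T l) := fun l => isOpen_thickening.measurableSet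
  have hUT : ∀ l, U ⊆ T l := fun l => self_subset_thickening (by have := hρ0 l; positivity) U
  have hUx : ∀ z ∈ U, ‖z - x‖ < R - 2 := by
    intro z hz
    by_contra h
    push Not at h
    exact hz (hYs z h)
  have hTS : ∀ l, l < n → T l ⊆ S := by
    intro l hl w hw
    obtain ⟨z, hz, hwz⟩ := mem_thickening_iff.1 hw
    refine hYS z w hz ?_
    rw [dist_eq_norm] at hwz
    have := hρ2 l hl
    linarith
  have hTB : ∀ l, l < n → T l ⊆ ball x R := by
    intro l hl w hw
    obtain ⟨z, hz, hwz⟩ := mem_thickening_iff.1 hw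
    have h1 := hUx z hz
    have h2 := hρ2 l hl
    rw [mem_ball]
    have h3 := dist_triangle w z x
    rw [dist_eq_norm z x] at h3
    linarith
  -- the scale of the averages
  have hsc : ∀ l, |ε * ρ (l + 1)| / 2 ≤ ρ l := by
    intro l
    rw [hρs, abs_of_nonneg (by have := hρ0 l; positivity)]
    have := hρ0 l
    nlinarith
  -- the deficits
  set P : ℕ → Sp d → ℝ := fun l y => ‖g l y‖ - ⟪g l y, e⟫_ℝ with hP
  have hP0 : ∀ l y, 0 ≤ P l y := fun l y => by
    have := (abs_le.1 (inner_le_norm_unit he (g l y))).2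
    simp only [hP]
    linarith
  have hPc : ∀ l, Continuous (P l) := fun l => by
    have h1 := (hgc l).norm
    have h2 : Continuous fun y => ⟪g l y, e⟫_ℝ := (hgc l).inner continuous_const
    exact h1.sub h2
  have hPs : ∀ l, HasCompactSupport (P l) := fun l => by
    exact (hgs l).mono fun y hy hy' => hy (by simp [hP, hy'])
  have hPi : ∀ l, Integrable (P l) := fun l =>
    (hPc l).integrable_of_hasCompactSupport (hPs l)
  have hNi : ∀ l, Integrable (fun y => ‖g l y‖) := fun l =>
    ((hgc l).integrable_of_hasCompactSupport (hgs l)).norm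
  set D : ℕ → ℝ := fun l => ∫ y in ball x R, P l y with hD
  have hD0 : ∀ l, 0 ≤ D l := fun l => integral_nonneg fun y => hP0 l y
  have hsub : ∀ (l : ℕ) (A : Set (Sp d)), A ⊆ ball x R → ∫ y in A, P l y ≤ D l := by
    intro l A hA
    exact setIntegral_mono_set (hPi l).integrableOn
      (Filter.Eventually.of_forall fun y => hP0 l y) (Filter.Eventually.of_forall hA)
  set Mm : ℝ := ∫ y in S, ‖g (n - 1) y‖ with hMm
  have hMm0 : 0 ≤ Mm := integral_nonneg fun y => norm_nonneg _
  set m : ℕ → ℝ := fun l => if l = n then Mm else ∫ y in T l, ‖g l y‖ with hm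
  have hmn : m n = Mm := by simp [hm]
  have hml : ∀ l, l < n → m l = ∫ y in T l, ‖g l y‖ := fun l hl => by simp [hm, hl.ne]
  have hm0 : ∀ l, 0 ≤ m l := fun l => by
    simp only [hm]
    split_ifs
    · exact hMm0
    · exact integral_nonneg fun y => norm_nonneg _
  -- transfer
  have htr : ∀ l, l < n → m l ≤ m (l + 1) + D l := by
    intro l hl
    rcases Nat.lt_or_ge (l + 1) n with hl1 | hl1
    · rw [hml l hl, hml (l + 1) hl1]
      have hA : ∀ z ∈ T l, ∀ w, ‖w - z‖ ≤ |ε * ρ (l + 1)| / 2 → w ∈ T (l + 1) := by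
        intro z hz w hw
        obtain ⟨u, hu, hzu⟩ := mem_thickening_iff.1 hz
        refine mem_thickening_iff.2 ⟨u, hu, ?_⟩
        have h1 := hsc l
        have h2 := hρs l
        have h3 := hρ0 l
        have h4 := dist_triangle w z u
        rw [dist_eq_norm w z] at h4
        linarith
      have hB : ∀ z ∈ T (l + 1), ∀ w, ‖w - z‖ ≤ |ε * ρ (l + 1)| / 2 → w ∈ ball x R := by
        intro z hz w hw
        obtain ⟨u, hu, hzu⟩ := mem_thickening_iff.1 hz
        have h1 := hsc l
        have h2 := hρ2 l hl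
        have h3 := hρ2 (l + 1) hl1
        have h4 := dist_triangle w z x
        have h5 := dist_triangle z u x
        have h6 := hUx u hu
        rw [dist_eq_norm w z] at h4
        rw [dist_eq_norm u x] at h5
        rw [mem_ball]
        linarith
      have h1 := hb.set_ge (hgc l).norm (hgs l).norm (fun z => norm_nonneg _) (ε * ρ (l + 1))
        (hTm l) (hTm (l + 1)) hA
      have h2 := hb.set_le (hPc l) (hPs l) (hP0 l) (ε * ρ (l + 1)) (hTm (l + 1))
        measurableSet_ball hB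
      have h3 : ∀ z, avk b (ε * ρ (l + 1)) (fun y => ‖g l y‖) z ≤
          ‖g (l + 1) z‖ + avk b (ε * ρ (l + 1)) (P l) z := by
        intro z
        have hL1 : LB (fun y => ‖g l y‖) := LB.of_cont (hgc l).norm
        have hL2 : LB (fun y => ⟪g l y, e⟫_ℝ) := (LB.of_cont (hgc l)).inner_const e
        have h4 := hb.sub hL1 hL2 (ε * ρ (l + 1)) z
        have h5 := hb.inner (LB.of_cont (hgc l)) e (ε * ρ (l + 1)) z
        have h6 := (abs_le.1 (inner_le_norm_unit he (g (l + 1) z))).2
        have h7 : g (l + 1) z = avk b (ε * ρ (l + 1)) (g l) z := rfl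
        simp only [hP]
        rw [h4, h5, ← h7]
        linarith
      have hci : Integrable (avk b (ε * ρ (l + 1)) (P l)) :=
        (hb.avc (hPc l) _).integrable_of_hasCompactSupport (hb.cs (hPs l) _)
      have hci2 : Integrable (avk b (ε * ρ (l + 1)) (fun y => ‖g l y‖)) :=
        (hb.avc (hgc l).norm _).integrable_of_hasCompactSupport (hb.cs (hgs l).norm _)
      have h8 : ∫ z in T (l + 1), avk b (ε * ρ (l + 1)) (fun y => ‖g l y‖) z ≤
          ∫ z in T (l + 1), (‖g (l + 1) z‖ + avk b (ε * ρ (l + 1)) (P l) z) :=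
        integral_mono hci2.integrableOn ((hNi (l + 1)).add hci).integrableOn h3
      have h9 := integral_add (μ := volume.restrict (T (l + 1))) (hNi (l + 1)).integrableOn
        hci.integrableOn
      rw [h9] at h8
      simp only [hD]
      linarith
    · have hl2 : n = l + 1 := by omega
      have h1 : m (l + 1) = Mm := by rw [← hl2]; exact hmn
      rw [hml l hl, h1, hMm]
      have h2 : n - 1 = l := by omega
      rw [h2]
      have h3 : ∫ y in T l, ‖g l y‖ ≤ ∫ y in S, ‖g l y‖ :=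
        setIntegral_mono_set (hNi l).integrableOn
          (Filter.Eventually.of_forall fun y => norm_nonneg _)
          (Filter.Eventually.of_forall (hTS l hl))
      have := hD0 l
      linarith
  have htop : ∫ y in U, ‖g n y‖ ≤ Mm := by
    rcases Nat.eq_zero_or_pos n with hn | hn
    · rw [hMm, hn]
      refine setIntegral_mono_set (hNi 0).integrableOn
          (Filter.Eventually.of_forall fun y => norm_nonneg _)
          (Filter.Eventually.of_forall ?_)
      intro y hy
      exact hYS y y hy (by simp)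
    · obtain ⟨k, rfl⟩ : ∃ k, n = k + 1 := ⟨n - 1, by omega⟩
      have hA : ∀ z ∈ U, ∀ w, ‖w - z‖ ≤ |ε * ρ (k + 1)| / 2 → w ∈ S := by
        intro z hz w hw
        refine hYS z w hz ?_
        have h1 := hsc k
        have h2 := hρ2 k (by omega)
        have h3 := hρ0 k
        linarith
      have h2 := hb.set_le (hgc k).norm (hgs k).norm (fun z => norm_nonneg _)
        (ε * ρ (k + 1)) hUo.measurableSet hS hA
      refine le_trans ?_ h2
      refine integral_mono (hNi (k + 1)).integrableOn ?_ fun z => ?_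
      · exact ((hb.avc (hgc k).norm _).integrable_of_hasCompactSupport
          (hb.cs (hgs k).norm _)).integrableOn
      · exact hb.normle (g k) (ε * ρ (k + 1)) z
  -- telescoping
  have hYc : HasCompactSupport Y := by
    refine HasCompactSupport.of_support_subset_isCompact (isCompact_closedBall x R) ?_
    intro y hy
    have := hUx y hy
    rw [mem_closedBall, dist_eq_norm]
    linarith
  have key : ∀ t : ℝ, 0 < t → ∀ k, k ≤ n → |∫ y, ⟪prp e (g 0 y), Y y⟫_ℝ| ≤
      (∑ l ∈ Finset.range k, 4 * (1 / 4 : ℝ) ^ (n - l) * (t * m l + 1 / (2 * t) * D l)) +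
      |∫ y, ⟪prp e (g k y), Y y⟫_ℝ| := by
    intro t ht k
    induction k with
    | zero => intro _; simp
    | succ k ih =>
      intro hk
      have hk' : k < n := by omega
      refine (ih hk'.le).trans ?_
      rw [Finset.sum_range_succ, add_assoc]
      refine add_le_add le_rfl ?_
      rw [step hb (hgc k) hY.continuous hYc e (ε * ρ (k + 1))]
      refine (abs_add_le _ _).trans (add_le_add ?_ le_rfl)
      have hw : (ε * ρ (k + 1)) ^ 2 ≤ 4 * (1 / 4 : ℝ) ^ (n - k) := by
        have h0 : ((1 / 2 : ℝ) ^ (n - k)) ^ 2 = (1 / 4) ^ (n - k) := by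
          rw [← pow_mul, mul_comm (n - k) 2, pow_mul]
          norm_num
        have h1 : ε ^ 2 ≤ 1 := pow_le_one₀ hε.le hε1
        have h2 : (0 : ℝ) ≤ (1 / 4) ^ (n - k) := by positivity
        calc (ε * ρ (k + 1)) ^ 2 = ε ^ 2 * (4 * ((1 / 2 : ℝ) ^ (n - k)) ^ 2) := by
              rw [hρs, hρl k hk'.le]
              ring
          _ = ε ^ 2 * (4 * (1 / 4) ^ (n - k)) := by rw [h0]
          _ ≤ 1 * (4 * (1 / 4) ^ (n - k)) := mul_le_mul_of_nonneg_right h1 (by positivity)
          _ = 4 * (1 / 4) ^ (n - k) := one_mul _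
      have hZ : ∀ y, ‖Y y - avk b (ε * ρ (k + 1)) Y y‖ ≤ 4 * (1 / 4 : ℝ) ^ (n - k) :=
        fun y => (hb.taylor hY hY2 _ y).trans hw
      have hZA : ∀ y, y ∉ T k → Y y - avk b (ε * ρ (k + 1)) Y y = 0 := by
        intro y hy
        have h1 : Y y = 0 := by
          by_contra h
          exact hy (hUT k h)
        have h2 : ‖avk b (ε * ρ (k + 1)) Y y‖ ≤ 0 := by
          refine hb.norm_le_of_bound fun w hw => ?_
          have h3 : Y w = 0 := by
            by_contra h
            apply hy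
            refine mem_thickening_iff.2 ⟨w, h, ?_⟩
            have h4 := hsc k
            have h5 := hρ0 k
            rw [dist_eq_norm, norm_sub_rev]
            linarith
          simp [h3]
        have h3 : avk b (ε * ρ (k + 1)) Y y = 0 := by simpa using h2
        rw [h1, h3, sub_zero]
      refine (pair_le (hgc k) (hgs k) he (hTm k) ht hZ hZA).trans ?_
      rw [hml k hk']
      refine mul_le_mul_of_nonneg_left ?_ (by positivity)
      refine add_le_add le_rfl ?_
      exact mul_le_mul_of_nonneg_left (hsub k _ (hTB k hk')) (by positivity)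
  have hlast : ∀ t : ℝ, 0 < t → |∫ y, ⟪prp e (g n y), Y y⟫_ℝ| ≤
      t * Mm + 1 / (2 * t) * D n := by
    intro t ht
    have h1 := pair_le (hgc n) (hgs n) he hUo.measurableSet ht (w := 1) hY1
      (fun y hy => by
        by_contra h
        exact hy h)
    rw [one_mul] at h1
    refine h1.trans (add_le_add ?_ ?_)
    · exact mul_le_mul_of_nonneg_left htop ht.le
    · refine mul_le_mul_of_nonneg_left (hsub n _ ?_) (by positivity)
      intro z hz
      have := hUx z hz
      rw [mem_ball, dist_eq_norm]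
      linarith
  -- summation
  set A : ℝ := ∑ l ∈ Finset.range (n + 1), (1 / 4 : ℝ) ^ (n - l) * D l with hA
  have hA0 : 0 ≤ A := Finset.sum_nonneg fun l _ => mul_nonneg (by positivity) (hD0 l)
  have hsum := seq_sum n m D (hm0 0) htr
  rw [hmn] at hsum
  have hAs : A = (∑ l ∈ Finset.range n, (1 / 4 : ℝ) ^ (n - l) * D l) + D n := by
    rw [hA, Finset.sum_range_succ, Nat.sub_self, pow_zero, one_mul]
  have hfin : ∀ t : ℝ, 0 < t → |∫ y, ⟪prp e (g 0 y), Y y⟫_ℝ| ≤
      t * (7 / 3 * Mm + 16 / 3 * A) + (2 * A) / t := by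
    intro t ht
    have h1 := key t ht n le_rfl
    have h2 := hlast t ht
    have h3 : ∑ l ∈ Finset.range n, 4 * (1 / 4 : ℝ) ^ (n - l) * (t * m l + 1 / (2 * t) * D l) =
        4 * t * (∑ l ∈ Finset.range n, (1 / 4 : ℝ) ^ (n - l) * m l) +
        2 / t * ∑ l ∈ Finset.range n, (1 / 4 : ℝ) ^ (n - l) * D l := by
      rw [Finset.mul_sum, Finset.mul_sum, ← Finset.sum_add_distrib]
      refine Finset.sum_congr rfl fun l _ => ?_
      field_simp
      ring
    rw [h3] at h1
    set B : ℝ := ∑ l ∈ Finset.range n, (1 / 4 : ℝ) ^ (n - l) * D l with hB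
    have hDn := hD0 n
    have h4 : 4 * t * (∑ l ∈ Finset.range n, (1 / 4 : ℝ) ^ (n - l) * m l) ≤
        4 * t * (1 / 3 * Mm + 4 / 3 * B) :=
      mul_le_mul_of_nonneg_left hsum (by positivity)
    have h5 : 1 / (2 * t) * D n ≤ 2 / t * D n := by
      refine mul_le_mul_of_nonneg_right ?_ hDn
      rw [div_le_div_iff₀ (by positivity) ht]
      linarith
    have h6 : 2 / t * B + 2 / t * D n = 2 * A / t := by
      rw [hAs]
      ring
    have h7 : 4 * t * (1 / 3 * Mm + 4 / 3 * B) + t * Mm ≤ t * (7 / 3 * Mm + 16 / 3 * A) := by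
      rw [hAs]
      have : 0 ≤ t * D n := by positivity
      nlinarith
    linarith
  have hopt := opt (by positivity) (by positivity) hfin
  -- conclusion
  have hDD : A ≤ DD b ε R s0 f n x e := by
    have h1 : lev s0 n = 1 := hρn
    unfold DD
    rw [h1, one_pow, div_one, one_mul, mul_one]
    have h2 : 0 ≤ (1 / 4 : ℝ) ^ n * ∫ y in ball x R, ‖f y‖ :=
      mul_nonneg (by positivity) (integral_nonneg fun y => norm_nonneg _)
    have h3 : A = ∑ l ∈ Finset.range (n + 1), (1 / 4 : ℝ) ^ (n - l) *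
        (∫ y in ball x R, (‖fl b ε s0 f l y‖ - ⟪fl b ε s0 f l y, e⟫_ℝ)) := rfl
    linarith
  have hgoal : ∫ y, ⟪f y - ⟪f y, e⟫_ℝ • e, Y y⟫_ℝ = ∫ y, ⟪prp e (g 0 y), Y y⟫_ℝ := by
    congr 1
    ext y
    rw [prp_apply]
    rfl
  rw [hgoal]
  refine hopt.trans ?_
  have hMA : 0 ≤ Mm * A := by positivity
  have h1 : Real.sqrt ((7 / 3 * Mm + 16 / 3 * A) * (2 * A)) ≤ 4 * (Real.sqrt (Mm * A) + A) := by
    rw [Real.sqrt_le_left (by positivity)]
    have h2 := Real.sq_sqrt hMA
    have h3 := Real.sqrt_nonneg (Mm * A)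
    nlinarith [mul_nonneg h3 hA0, sq_nonneg A]
  have h2 : Real.sqrt (Mm * A) ≤ Real.sqrt (Mm * DD b ε R s0 f n x e) :=
    Real.sqrt_le_sqrt (mul_le_mul_of_nonneg_left hDD hMm0)
  linarith

end TG
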