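import Pool.Agent.TG.TFU
import Pool.Agent.TG.PE
import Pool.Agent.TG.SC

/-!
# Trace inequality, general operators: MODULE TW, comparison of two consecutive levels
-/

open MeasureTheory Metric Set TrI
open scoped InnerProductSpace ContDiff

namespace TG

namespace TW

noncomputable section

variable {d : ℕ} {E : Type} [NormedAddCommGroup E] [InnerProductSpace ℝ E]

lemma lev_u (n : ℕ) : lev ((1 / 2 : ℝ) ^ n) n = 1 := by
  unfold lev
  rw [← mul_pow]
  norm_num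

lemma lev_u1 (n : ℕ) : lev ((1 / 2 : ℝ) ^ n) (n + 1) = 2 := by
  have h := lev_u n
  unfold lev at h ⊢
  rw [pow_succ, ← mul_assoc, h, one_mul]

lemma fl_ok {b : Sp d → ℝ} {J : ℕ} {M c0 : ℝ} (hb : BaseKer J M c0 b) (ε s0 : ℝ) {f : Sp d → E}
    (hf : Continuous f) (hfc : HasCompactSupport f) :
    ∀ l, Continuous (fl b ε s0 f l) ∧ HasCompactSupport (fl b ε s0 f l) := fun l =>
  ⟨PE.fl_cont (PE.KP.of_base hb) hf ε s0 l, PE.fl_cs (PE.KP.of_base hb) hfc ε s0 l⟩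

lemma DD_step {b : Sp d → ℝ} {J : ℕ} {M c0 : ℝ} (hb : BaseKer J M c0 b) (ε : ℝ) {f : Sp d → E}
    (hf : Continuous f) (hfc : HasCompactSupport f) (n : ℕ) {R : ℝ} {x : Sp d} (hx : ‖x‖ ≤ R)
    {e : E} (he : ‖e‖ = 1) :
    DD b ε R ((1 / 2) ^ n) f n 0 e ≤ 2 * 2 ^ d * DD b ε R ((1 / 2) ^ n) f (n + 1) x e := by
  have hball : ball (0 : Sp d) R ⊆ ball x (R * 2) := by
    intro y hy
    rw [mem_ball, dist_zero_right] at hy
    rw [mem_ball, dist_eq_norm]
    have := norm_sub_le y x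
    linarith
  have hfl := fl_ok hb ε ((1 / 2) ^ n) hf hfc
  have hin : ∀ (g : Sp d → E) (y : Sp d), 0 ≤ ‖g y‖ - ⟪g y, e⟫_ℝ := by
    intro g y
    have h2 := (abs_le.1 (abs_real_inner_le_norm (g y) e)).2
    rw [he, mul_one] at h2
    linarith
  have hI : ∀ l, ∫ y in ball (0 : Sp d) R, (‖fl b ε ((1 / 2) ^ n) f l y‖ -
      ⟪fl b ε ((1 / 2) ^ n) f l y, e⟫_ℝ) ≤ ∫ y in ball x (R * 2),
      (‖fl b ε ((1 / 2) ^ n) f l y‖ - ⟪fl b ε ((1 / 2) ^ n) f l y, e⟫_ℝ) := by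
    intro l
    refine setIntegral_mono_set ?_ (Filter.Eventually.of_forall fun y => hin _ y)
      (Filter.Eventually.of_forall hball)
    refine Integrable.integrableOn ?_
    refine (((hfl l).1.norm).integrable_of_hasCompactSupport (hfl l).2.norm).sub ?_
    refine Continuous.integrable_of_hasCompactSupport
      ((hfl l).1.inner continuous_const) ?_
    exact (hfl l).2.comp_left (g := fun v : E => ⟪v, e⟫_ℝ) (inner_zero_left _)
  have hJ : ∫ y in ball (0 : Sp d) R, ‖f y‖ ≤ ∫ y in ball x (R * 2), ‖f y‖ :=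
    setIntegral_mono_set (hf.norm.integrable_of_hasCompactSupport hfc.norm).integrableOn
      (Filter.Eventually.of_forall fun y => norm_nonneg _) (Filter.Eventually.of_forall hball)
  unfold DD
  rw [lev_u, lev_u1, one_pow, div_one, one_mul, mul_one]
  have e1 : 2 * 2 ^ d * (2 / 2 ^ d * (∑ l ∈ Finset.range (n + 1 + 1), (1 / 4 : ℝ) ^ (n + 1 - l) *
      (∫ y in ball x (R * 2), (‖fl b ε ((1 / 2) ^ n) f l y‖ -
        ⟪fl b ε ((1 / 2) ^ n) f l y, e⟫_ℝ)) + (1 / 4 : ℝ) ^ (n + 1) *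
        ∫ y in ball x (R * 2), ‖f y‖)) = 4 * (∑ l ∈ Finset.range (n + 1 + 1),
      (1 / 4 : ℝ) ^ (n + 1 - l) * (∫ y in ball x (R * 2), (‖fl b ε ((1 / 2) ^ n) f l y‖ -
        ⟪fl b ε ((1 / 2) ^ n) f l y, e⟫_ℝ)) + (1 / 4 : ℝ) ^ (n + 1) *
        ∫ y in ball x (R * 2), ‖f y‖) := by
    have : (2 : ℝ) ^ d ≠ 0 := by positivity
    field_simp
    ring
  rw [e1, Finset.sum_range_succ _ (n + 1), mul_add, mul_add, Finset.mul_sum]
  have h1 : ∑ l ∈ Finset.range (n + 1), (1 / 4 : ℝ) ^ (n - l) *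
      (∫ y in ball (0 : Sp d) R, (‖fl b ε ((1 / 2) ^ n) f l y‖ -
      ⟪fl b ε ((1 / 2) ^ n) f l y, e⟫_ℝ)) ≤ ∑ l ∈ Finset.range (n + 1),
      4 * ((1 / 4 : ℝ) ^ (n + 1 - l) * (∫ y in ball x (R * 2), (‖fl b ε ((1 / 2) ^ n) f l y‖ -
        ⟪fl b ε ((1 / 2) ^ n) f l y, e⟫_ℝ))) := by
    refine Finset.sum_le_sum fun l hl => ?_
    have hl' := Finset.mem_range.1 hl
    have e2 : (1 / 4 : ℝ) ^ (n + 1 - l) = 1 / 4 * (1 / 4) ^ (n - l) := by
      rw [← pow_succ']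
      congr 1
      omega
    rw [e2]
    have h3 := mul_le_mul_of_nonneg_left (hI l) (by positivity : (0 : ℝ) ≤ (1 / 4) ^ (n - l))
    linarith
  have h2 : 0 ≤ 4 * ((1 / 4 : ℝ) ^ (n + 1 - (n + 1)) * ∫ y in ball x (R * 2),
      (‖fl b ε ((1 / 2) ^ n) f (n + 1) y‖ - ⟪fl b ε ((1 / 2) ^ n) f (n + 1) y, e⟫_ℝ)) :=
    mul_nonneg (by norm_num) (mul_nonneg (by positivity) (integral_nonneg fun y => hin _ y))
  have h3 : (1 / 4 : ℝ) ^ n * ∫ y in ball (0 : Sp d) R, ‖f y‖ ≤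
      4 * ((1 / 4 : ℝ) ^ (n + 1) * ∫ y in ball x (R * 2), ‖f y‖) := by
    have h4 := mul_le_mul_of_nonneg_left hJ (by positivity : (0 : ℝ) ≤ (1 / 4) ^ n)
    rw [pow_succ]
    linarith
  linarith

lemma bb_u (ρ : ℝ) (f : Sp d → E) (n : ℕ) (e : E) (ν : Sp d) (c : ℝ) :
    bb ρ ((1 / 2) ^ n) f n 0 e ν c = ∫ y, ⟪f y, e⟫_ℝ * (zR ρ y * ht ν c y ^ 2) := by
  unfold bb
  rw [lev_u, one_pow, div_one, one_mul]
  simp only [one_smul, sub_zero, div_one]

lemma bb_u1 (ρ : ℝ) (f : Sp d → E) (n : ℕ) (x : Sp d) (e : E) (ν : Sp d) (c : ℝ) :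
    2 * 2 ^ d * bb ρ ((1 / 2) ^ n) f (n + 1) x e ν c =
      ∫ y, ⟪f y, e⟫_ℝ * (zR ρ (-((1 / 2 : ℝ) • x) + (1 / 2 : ℝ) • y) * ht ν c y ^ 2) := by
  unfold bb
  rw [lev_u1, ← mul_assoc]
  have h1 : (2 : ℝ) * 2 ^ d * (2 / 2 ^ d) = 4 := by
    have : (2 : ℝ) ^ d ≠ 0 := by positivity
    field_simp
    norm_num
  rw [h1, ← integral_const_mul]
  congr 1
  ext y
  have h2 : (1 / 2 : ℝ) • (y - x) = -((1 / 2 : ℝ) • x) + (1 / 2 : ℝ) • y := by
    rw [smul_sub]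
    abel
  rw [h2]
  ring

lemma DD_rs (b : Sp d → ℝ) (ε R s0 : ℝ) (f : Sp d → E) (i : ℕ) (x y : Sp d) (e : E) {t : ℝ}
    (ht : 0 < t) :
    DD b ε R (s0 / t) (rs x t f) i y e = DD b ε R s0 f i (x + t • y) e := by
  have hfl := fun i y => SC.fl_rs b ε s0 x ht f i y
  have ht' : (t : ℝ) ≠ 0 := ht.ne'
  unfold DD
  have h1 : ∀ l, ∫ z in ball y (R * lev (s0 / t) i), (‖fl b ε (s0 / t) (rs x t f) l z‖
      - ⟪fl b ε (s0 / t) (rs x t f) l z, e⟫_ℝ) = t / t ^ d *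
      ∫ z in ball (x + t • y) (R * lev s0 i), (‖fl b ε s0 f l z‖ - ⟪fl b ε s0 f l z, e⟫_ℝ) := by
    intro l
    simp_rw [hfl, norm_smul, real_inner_smul_left, Real.norm_of_nonneg ht.le, ← mul_sub]
    rw [integral_const_mul, SC.lev_div, ← mul_div_assoc,
      SC.ball_scale x ht (fun z => ‖fl b ε s0 f l z‖ - ⟪fl b ε s0 f l z, e⟫_ℝ)]
    ring
  have h2 : ∫ z in ball y (R * lev (s0 / t) i), ‖rs x t f z‖ = t / t ^ d *
      ∫ z in ball (x + t • y) (R * lev s0 i), ‖f z‖ := by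
    unfold rs
    simp_rw [norm_smul, Real.norm_of_nonneg ht.le]
    rw [integral_const_mul, SC.lev_div, ← mul_div_assoc, SC.ball_scale x ht (fun z => ‖f z‖)]
    ring
  simp_rw [h1]
  rw [h2, SC.lev_div]
  have h3 : ∀ l, (1 / 4 : ℝ) ^ (i - l) * (t / t ^ d *
      ∫ z in ball (x + t • y) (R * lev s0 i), (‖fl b ε s0 f l z‖ - ⟪fl b ε s0 f l z, e⟫_ℝ)) =
      t / t ^ d * ((1 / 4 : ℝ) ^ (i - l) *
      ∫ z in ball (x + t • y) (R * lev s0 i), (‖fl b ε s0 f l z‖ - ⟪fl b ε s0 f l z, e⟫_ℝ)) := by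
    intro l
    ring
  simp_rw [h3]
  rw [← Finset.mul_sum, mul_left_comm _ (t / t ^ d), ← mul_add, ← mul_assoc, div_pow]
  congr 1
  field_simp

lemma ma_rs (b : Sp d → ℝ) (ε R s0 : ℝ) (f : Sp d → E) (i : ℕ) (x y : Sp d) {t : ℝ}
    (ht : 0 < t) : ma b ε R (s0 / t) (rs x t f) i y = ma b ε R s0 f i (x + t • y) := by
  have hfl := fun i y => SC.fl_rs b ε s0 x ht f i y
  have ht' : (t : ℝ) ≠ 0 := ht.ne'
  unfold ma
  simp_rw [hfl, norm_smul, Real.norm_of_nonneg ht.le]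
  rw [integral_const_mul, SC.lev_div, ← mul_div_assoc,
    SC.ball_scale x ht (fun z => ‖fl b ε s0 f (i - 1) z‖), div_pow]
  field_simp

/-- the pairing at the next level -/
theorem next (hMA : StmtMA) (hd : 1 ≤ d) {M c ε : ℝ} (h0 : 0 < ε) (h1 : ε ≤ 1)
    {b : Sp d → ℝ} (hb : BaseKer 2 M c b) {R0 : ℝ} (hR0 : 100 + 8 * d ≤ R0) : ∃ C : ℝ, 0 < C ∧
    ∀ (E : Type) [NormedAddCommGroup E] [InnerProductSpace ℝ E] [FiniteDimensional ℝ E],
    ∀ f : Sp d → E, Continuous f → HasCompactSupport f → ∀ (R : ℝ), 4 * R0 + 10 ≤ R →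
    ∀ (n : ℕ) (e : E), ‖e‖ = 1 → ∀ (x : Sp d), ‖x‖ ≤ Real.sqrt d →
    ∀ (ζ : Sp d → ℝ) (N : ℝ), TFn 2 N ζ → (∀ y, R0 + 3 ≤ ‖y‖ → ζ y = 0) →
      |∫ y, ⟪f y, e⟫_ℝ * ζ y| ≤ C * N * (ma b ε R0 ((1 / 2) ^ n) f (n + 1) x +
        DD b ε R ((1 / 2) ^ n) f (n + 1) x e) := by
  have hd1 : (1 : ℝ) ≤ d := by exact_mod_cast hd
  have hsq : Real.sqrt d ≤ d := by
    rw [Real.sqrt_le_left (by positivity)]
    nlinarith
  obtain ⟨C, hC, H⟩ := TU.MA' hMA hd h0 h1 hb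
  refine ⟨2 * 2 ^ d * C, by positivity, ?_⟩
  intro E _ _ _ f hf hfc R hR n e he x hx ζ N hζ hs
  have h2 : (0 : ℝ) < 2 := by norm_num
  have hx0 := norm_nonneg x
  have hxy : ∀ y : Sp d, 2 * ‖y‖ ≤ ‖x + (2 : ℝ) • y‖ + ‖x‖ := by
    intro y
    have e1 : (2 : ℝ) • y = (x + (2 : ℝ) • y) - x := by abel
    have e2 := norm_sub_le (x + (2 : ℝ) • y) x
    rw [← e1, norm_smul] at e2
    simpa using e2
  have hrc : Continuous (rs x 2 f) := by
    unfold rs
    fun_prop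
  have hrs : HasCompactSupport (rs x 2 f) := by
    have h3 := hfc.comp_homeomorph
      ((Homeomorph.smulOfNeZero (2 : ℝ) h2.ne').trans (Homeomorph.addLeft x))
    exact h3.smul_left (f := fun _ : Sp d => (2 : ℝ))
  have T := TU.TFn_aff hζ x (t := (2 : ℝ)) (by norm_num)
  have e1 : max 1 |(2 : ℝ)| ^ 2 * N = 4 * N := by
    rw [abs_of_pos h2, max_eq_right (by norm_num)]
    norm_num
  rw [e1] at T
  have k1 := (H E (rs x 2 f) hrc hrs R (by linarith) (n + 1) e he 0 (ball 0 R0)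
    measurableSet_ball).1 (fun y => ζ (x + (2 : ℝ) • y)) (4 * N) T (fun y hy => hs _ (by
      rw [sub_zero] at hy
      have := hxy y
      linarith)) (fun y z hy hz => by
      have h3 : ‖x + (2 : ℝ) • y‖ < R0 + 3 := by
        by_contra h4
        push Not at h4
        exact hy (hs _ h4)
      have h5 := hxy y
      rw [mem_ball, dist_zero_right]
      have h6 := norm_add_le (z - y) y
      rw [sub_add_cancel] at h6
      linarith)
  rw [TU.frame_int f e x h2 ζ] at k1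
  have hs0 : (1 / 2 : ℝ) ^ (n + 1) = (1 / 2) ^ n / 2 := by
    rw [pow_succ]
    ring
  have k2 : DD b ε R ((1 / 2) ^ (n + 1)) (rs x 2 f) (n + 1) 0 e =
      DD b ε R ((1 / 2) ^ n) f (n + 1) x e := by
    rw [hs0, DD_rs b ε R _ f (n + 1) x 0 e h2, smul_zero, add_zero]
  have k3 : ∫ y in ball (0 : Sp d) R0, ‖fl b ε ((1 / 2) ^ (n + 1)) (rs x 2 f) (n + 1 - 1) y‖ =
      ma b ε R0 ((1 / 2) ^ n) f (n + 1) x := by
    have k4 := ma_rs b ε R0 ((1 / 2) ^ n) f (n + 1) x 0 h2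
    rw [← hs0, smul_zero, add_zero] at k4
    rw [← k4]
    unfold ma
    rw [lev_u, one_pow, div_one, one_mul, mul_one]
  rw [k2, k3, abs_mul, abs_of_pos (by positivity : (0 : ℝ) < 2 / 2 ^ d)] at k1
  have k5 := mul_le_mul_of_nonneg_left k1 (by positivity : (0 : ℝ) ≤ 2 ^ d / 2)
  have k6 : (2 : ℝ) ^ d / 2 * (2 / 2 ^ d * |∫ y, ⟪f y, e⟫_ℝ * ζ y|) =
      |∫ y, ⟪f y, e⟫_ℝ * ζ y| := by
    have : (2 : ℝ) ^ d ≠ 0 := by positivity
    field_simp
  rw [k6] at k5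
  refine k5.trans (le_of_eq ?_)
  ring

end

end TW

open TW in
theorem stmtTW (h : StmtZ) (h1 : StmtMA) (h2 : StmtDI) (_h3 : StmtSC) : StmtTW := by
  intro d hd M c0 ε hε hε1 b hb R0 hR0
  have hd1 : (1 : ℝ) ≤ d := by exact_mod_cast hd
  have hsq : Real.sqrt d ≤ d := by
    rw [Real.sqrt_le_left (by positivity)]
    nlinarith
  have hR0' : 100 ≤ R0 := by linarith
  obtain ⟨CZ, hCZ, Z⟩ := TU.Z' h hd hε hε1 hb
  obtain ⟨CM, hCM, MM⟩ := TU.MA' h1 hd hε hε1 hb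
  obtain ⟨CD, hCD, DI⟩ := TU.DI' h2 hd hε hε1 hb
  obtain ⟨CP, hCP, PP⟩ := next h1 hd hε hε1 hb hR0
  obtain ⟨N0, hN0, T0⟩ := TU.TFn_of_cs (J := 2) (ζ := (zR (R0 + 2) : Sp d → ℝ))
    (contDiff_infty.1 (TU.zR_smooth (by linarith)) 2) (TU.zR_cs _)
  obtain ⟨N1, hN1, T1⟩ := TU.TFn_of_cs (J := 2) (ζ := (zR R0 : Sp d → ℝ))
    (contDiff_infty.1 (TU.zR_smooth (by linarith)) 2) (TU.zR_cs _)
  set K : ℝ := 2 * 2 ^ d with hK
  have hK0 : 0 < K := by positivity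
  have hK1 : 1 ≤ K := by
    have : (1 : ℝ) ≤ 2 ^ d := one_le_pow₀ (by norm_num)
    linarith
  set N2 : ℝ := 4 ^ 2 * N1 * max 1 ((R0 + 1) + 4 * R0) ^ 2 with hN2
  set N3 : ℝ := 4 ^ 2 * N1 * max 1 ((3 * R0) + 4 * R0) ^ 2 with hN3
  have hN2p : 0 < N2 := by positivity
  have hN3p : 0 < N3 := by positivity
  set C : ℝ := K + CD * K + (CP * N0 + CM * N0 * K) +
    (K + CZ * (N3 + N2) * K + CD * N2 * K + 1) + (CP * N2 + CD * N2 * K) with hC
  have c1 : 0 < CD * K := by positivity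
  have c2 : 0 < CP * N0 := by positivity
  have c3 : 0 < CM * N0 * K := by positivity
  have c4 : 0 < CZ * (N3 + N2) * K := by positivity
  have c5 : 0 < CD * N2 * K := by positivity
  have c6 : 0 < CP * N2 := by positivity
  refine ⟨C, by linarith, ?_⟩
  intro E _ _ _ R hR f hf hfc n x e e' hx he he'
  have hs0 : (0 : ℝ) < (1 / 2) ^ n := by positivity
  have hDn := TU.DD_nonneg b ε R hs0 f n 0 he
  have hDn' := TU.DD_nonneg b ε R hs0 f n 0 he'
  have hD1 := TU.DD_nonneg b ε R hs0 f (n + 1) x he'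
  have hm1 := TU.ma_nonneg b ε R0 hs0 f (n + 1) x
  have hstep : DD b ε R ((1 / 2) ^ n) f n 0 e' ≤ K * DD b ε R ((1 / 2) ^ n) f (n + 1) x e' :=
    DD_step hb ε hf hfc n (by linarith) he'
  generalize hA : DD b ε R ((1 / 2) ^ n) f n 0 e = A at *
  generalize hA' : DD b ε R ((1 / 2) ^ n) f n 0 e' = A' at *
  generalize hB : DD b ε R ((1 / 2) ^ n) f (n + 1) x e' = B at *
  generalize hmm : ma b ε R0 ((1 / 2) ^ n) f (n + 1) x = m at *
  -- change of direction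
  have hii : ∀ (ζ : Sp d → ℝ) (N : ℝ), TFn 2 N ζ → (∀ y, R - 1 ≤ ‖y‖ → ζ y = 0) →
      |∫ y, ⟪f y, e - e'⟫_ℝ * ζ y| ≤ CD * K * N * (A + B) := by
    intro ζ N hζ hs
    have hN := TU.TFn_nonneg hζ
    have k1 := DI E f hf hfc R (by linarith) n e e' he he' 0 0 ζ N hζ
      (by simpa using hs) (by simpa using hs)
    rw [hA, hA'] at k1
    refine k1.trans ?_
    have k2 : A + A' ≤ K * (A + B) := by nlinarith
    calc CD * N * (A + A') ≤ CD * N * (K * (A + B)) :=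
          mul_le_mul_of_nonneg_left k2 (by positivity)
      _ = _ := by ring
  -- integrability
  have hint : ∀ (w : E) (ζ : Sp d → ℝ), Continuous ζ → Integrable fun y => ⟪f y, w⟫_ℝ * ζ y := by
    intro w ζ hζ
    refine Continuous.integrable_of_hasCompactSupport
      ((hf.inner continuous_const).mul hζ) ?_
    exact (hfc.comp_left (g := fun v : E => ⟪v, w⟫_ℝ) (inner_zero_left _)).mul_right
  have hsplit : ∀ ζ : Sp d → ℝ, Continuous ζ → ∫ y, ⟪f y, e⟫_ℝ * ζ y =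
      (∫ y, ⟪f y, e'⟫_ℝ * ζ y) + ∫ y, ⟪f y, e - e'⟫_ℝ * ζ y := by
    intro ζ hζ
    rw [← integral_add (hint e' ζ hζ) (hint (e - e') ζ hζ)]
    congr 1
    ext y
    rw [inner_sub_right]
    ring
  refine ⟨?_, ?_, ?_, ?_⟩
  · nlinarith
  · intro ζ N hζ hs
    have hN := TU.TFn_nonneg hζ
    refine (hii ζ N hζ hs).trans ?_
    have : CD * K ≤ C := by linarith
    exact mul_le_mul_of_nonneg_right (mul_le_mul_of_nonneg_right this hN) (by linarith)
  · -- mass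
    have k1 := (MM E f hf hfc R (by linarith) n e' he' 0 (ball 0 R0) measurableSet_ball).2
      (zR (R0 + 2)) N0 1 one_pos T0 (TU.zR_nonneg _) (fun y hy => TU.zR_zero (by
        rw [sub_zero] at hy
        linarith)) (fun y z hy hz => by
        rw [TU.zR_one]
        rw [mem_ball, dist_zero_right] at hy
        have := norm_add_le (z - y) y
        rw [sub_add_cancel] at this
        linarith)
    rw [one_mul, hA'] at k1
    have k2 := PP E f hf hfc R hR n e' he' x hx (zR (R0 + 2)) N0 T0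
      (fun y hy => TU.zR_zero (by linarith))
    rw [hmm, hB] at k2
    have k3 := (le_abs_self _).trans k2
    have k4 : ma b ε R0 ((1 / 2) ^ n) f n 0 =
        ∫ y in ball (0 : Sp d) R0, ‖fl b ε ((1 / 2) ^ n) f (n - 1) y‖ := by
      unfold ma
      rw [lev_u, one_pow, div_one, one_mul, mul_one]
    rw [k4]
    have k5 : CM * N0 * A' ≤ CM * N0 * K * B := by
      have := mul_le_mul_of_nonneg_left hstep (by positivity : 0 ≤ CM * N0)
      linarith
    have k6 : CP * N0 * (m + B) + CM * N0 * K * B ≤ C * (m + B) := by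
      have : (CP * N0 + CM * N0 * K) * (m + B) ≤ C * (m + B) :=
        mul_le_mul_of_nonneg_right (by linarith) (by linarith)
      nlinarith
    linarith
  · intro ν c hν hc
    -- the test function at level n
    have T2 : TFn 2 N2 (fun y => zR R0 y * ht ν c y ^ 2) :=
      TU.TFn_ht_sq (ρ := R0 + 1) T1 (fun y hy => TU.zR_zero hy.le) hν hc
    have s2 : ∀ y : Sp d, R0 + 1 ≤ ‖y‖ → zR R0 y * ht ν c y ^ 2 = 0 := fun y hy => by
      rw [TU.zR_zero hy, zero_mul]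
    have c2' : Continuous fun y => zR R0 y * ht ν c y ^ 2 := T2.smooth.continuous
    -- the test function at level n + 1
    have T3a : TFn 2 N1 (fun y => zR R0 (-((1 / 2 : ℝ) • x) + (1 / 2 : ℝ) • y)) := by
      have := TU.TFn_aff T1 (-((1 / 2 : ℝ) • x)) (t := (1 / 2 : ℝ)) (by norm_num)
      have e1 : max 1 |(1 / 2 : ℝ)| = 1 := by
        rw [abs_of_pos (by norm_num)]
        norm_num
      rw [e1, one_pow, one_mul] at this
      exact this
    have hnx : ∀ y : Sp d, ‖y‖ ≤ 2 * ‖-((1 / 2 : ℝ) • x) + (1 / 2 : ℝ) • y‖ + ‖x‖ := by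
      intro y
      have e1 : y = (2 : ℝ) • (-((1 / 2 : ℝ) • x) + (1 / 2 : ℝ) • y) + x := by
        module
      have e2 := norm_add_le ((2 : ℝ) • (-((1 / 2 : ℝ) • x) + (1 / 2 : ℝ) • y)) x
      rw [← e1, norm_smul] at e2
      simpa using e2
    have hnx' : ∀ y : Sp d, 2 * ‖-((1 / 2 : ℝ) • x) + (1 / 2 : ℝ) • y‖ ≤ ‖y‖ + ‖x‖ := by
      intro y
      have e1 : (2 : ℝ) • (-((1 / 2 : ℝ) • x) + (1 / 2 : ℝ) • y) = y - x := by
        module
      have e2 := norm_sub_le y x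
      rw [← e1, norm_smul] at e2
      simpa using e2
    have s3a : ∀ y : Sp d, 3 * R0 < ‖y‖ →
        zR R0 (-((1 / 2 : ℝ) • x) + (1 / 2 : ℝ) • y) = 0 := by
      intro y hy
      refine TU.zR_zero ?_
      have := hnx y
      linarith
    have T3 : TFn 2 N3 (fun y => zR R0 (-((1 / 2 : ℝ) • x) + (1 / 2 : ℝ) • y) *
        ht ν c y ^ 2) := TU.TFn_ht_sq (ρ := 3 * R0) T3a s3a hν hc
    have c3' : Continuous fun y => zR R0 (-((1 / 2 : ℝ) • x) + (1 / 2 : ℝ) • y) *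
        ht ν c y ^ 2 := T3.smooth.continuous
    have T4 := TU.TFn_sub T3 T2
    have k1 := Z E f hf hfc R (by linarith) n e' he' 0 _ (N3 + N2) T4 (fun y => by
      rw [← sub_mul]
      refine mul_nonneg ?_ (sq_nonneg _)
      by_cases hy : R0 + 1 ≤ ‖y‖
      · rw [TU.zR_zero hy, sub_zero]
        exact TU.zR_nonneg _ _
      · push Not at hy
        have := hnx' y
        rw [TU.zR_one (x := -((1 / 2 : ℝ) • x) + (1 / 2 : ℝ) • y) (by linarith)]
        have := TU.zR_le_one R0 y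
        linarith) (fun y hy => by
      rw [sub_zero] at hy
      rw [s3a y (by linarith), s2 y (by linarith)]
      ring)
    rw [hA'] at k1
    have k2 : ∫ y, ⟪f y, e'⟫_ℝ * (zR R0 (-((1 / 2 : ℝ) • x) + (1 / 2 : ℝ) • y) *
        ht ν c y ^ 2 - zR R0 y * ht ν c y ^ 2) =
        (∫ y, ⟪f y, e'⟫_ℝ * (zR R0 (-((1 / 2 : ℝ) • x) + (1 / 2 : ℝ) • y) * ht ν c y ^ 2)) -
        ∫ y, ⟪f y, e'⟫_ℝ * (zR R0 y * ht ν c y ^ 2) := by
      rw [← integral_sub (hint e' _ c3') (hint e' _ c2')]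
      congr 1
      ext y
      ring
    rw [k2, ← bb_u1] at k1
    have k3 := hii _ N2 T2 (fun y hy => s2 y (by linarith))
    have k4 := hsplit _ c2'
    have k5 := bb_u R0 f n e ν c
    rw [k4] at k5
    have k6 := (le_abs_self _).trans k3
    have k7 : CZ * (N3 + N2) * A' ≤ CZ * (N3 + N2) * K * B := by
      have := mul_le_mul_of_nonneg_left hstep (by positivity : 0 ≤ CZ * (N3 + N2))
      linarith
    refine ⟨?_, ?_⟩
    · unfold bD
      rw [hA, hB]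
      set β : ℝ := bb R0 ((1 / 2) ^ n) f n 0 e ν c with hβ
      set β1 : ℝ := bb R0 ((1 / 2) ^ n) f (n + 1) x e' ν c with hβ1
      have hβ1m := le_max_right (0 : ℝ) β1
      have hβ10 := le_max_left (0 : ℝ) β1
      have m1 : β ≤ K * max 0 β1 + CZ * (N3 + N2) * K * B + CD * K * N2 * (A + B) := by
        have : K * β1 ≤ K * max 0 β1 := mul_le_mul_of_nonneg_left hβ1m hK0.le
        linarith
      have m2 : max 0 β ≤ K * max 0 β1 + CZ * (N3 + N2) * K * B + CD * K * N2 * (A + B) := by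
        refine max_le ?_ m1
        positivity
      have m3 : K * max 0 β1 + CZ * (N3 + N2) * K * B + CD * K * N2 * (A + B) + A ≤
          (K + CZ * (N3 + N2) * K + CD * N2 * K + 1) * (max 0 β1 + B + A) := by
        have e1 : 0 ≤ K * (B + A) := by positivity
        have e2 : 0 ≤ CZ * (N3 + N2) * K * (max 0 β1 + A) := by positivity
        have e3 : 0 ≤ CD * N2 * K * max 0 β1 := by positivity
        nlinarith
      have m4 : (K + CZ * (N3 + N2) * K + CD * N2 * K + 1) * (max 0 β1 + B + A) ≤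
          C * (max 0 β1 + B + A) :=
        mul_le_mul_of_nonneg_right (by linarith) (by positivity)
      linarith
    · have k8 := PP E f hf hfc R hR n e' he' x hx _ N2 T2 (fun y hy => s2 y (by linarith))
      rw [hmm, hB] at k8
      have k9 := (le_abs_self _).trans k8
      have m1 : (CP * N2 + CD * N2 * K) * (m + A + B) ≤ C * (m + A + B) :=
        mul_le_mul_of_nonneg_right (by linarith) (by linarith)
      refine max_le (mul_nonneg (by linarith) (by linarith)) ?_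
      rw [k5]
      have e1 : 0 ≤ CP * N2 * A := by positivity
      have e2 : 0 ≤ CD * N2 * K * m := by positivity
      nlinarith

end TG
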