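import Pool.Agent.TG.Conc
import Pool.Agent.TG.TW
import Pool.Agent.TG.SD
import Pool.Agent.TG.Mass

/-!
# Trace inequality, general operators: MODULE CT5, masses, defects and plane functionals of
cells of different levels
-/

open MeasureTheory Metric Set TrI
open scoped InnerProductSpace ContDiff

namespace TG

namespace CT5

noncomputable section

variable {d : ℕ} {E : Type} [NormedAddCommGroup E] [InnerProductSpace ℝ E]

/-! ## frames -/

lemma s0_div {s0 : ℝ} (hs : 0 < s0) (n : ℕ) : s0 / lev s0 n = (1 / 2) ^ n := by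
  unfold lev
  rw [one_div, inv_pow, div_mul_eq_div_div, div_self hs.ne', one_div]

lemma DD_fr (b : Sp d → ℝ) (ε R : ℝ) {s0 : ℝ} (hs : 0 < s0) (f : Sp d → E) (n : ℕ) (x : Sp d)
    (e : E) : DD b ε R ((1 / 2) ^ n) (rs x (lev s0 n) f) n 0 e = DD b ε R s0 f n x e := by
  have h := TW.DD_rs b ε R s0 f n x 0 e (lev_pos hs n)
  rw [s0_div hs, smul_zero, add_zero] at h
  exact h

lemma ma_fr (b : Sp d → ℝ) (ε R : ℝ) {s0 : ℝ} (hs : 0 < s0) (f : Sp d → E) (n : ℕ) (x : Sp d) :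
    ma b ε R ((1 / 2) ^ n) (rs x (lev s0 n) f) n 0 = ma b ε R s0 f n x := by
  have h := TW.ma_rs b ε R s0 f n x 0 (lev_pos hs n)
  rw [s0_div hs, smul_zero, add_zero] at h
  exact h

lemma ma_u (b : Sp d → ℝ) (ε R : ℝ) (f : Sp d → E) (n : ℕ) :
    ma b ε R ((1 / 2) ^ n) f n 0 =
      ∫ y in ball (0 : Sp d) R, ‖fl b ε ((1 / 2) ^ n) f (n - 1) y‖ := by
  unfold ma
  rw [TW.lev_u, one_pow, div_one, one_mul, mul_one]

lemma rs_cont {f : Sp d → E} (hf : Continuous f) (x : Sp d) (t : ℝ) : Continuous (rs x t f) := by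
  unfold rs
  fun_prop

lemma rs_cs {f : Sp d → E} (hf : HasCompactSupport f) (x : Sp d) {t : ℝ} (ht : 0 < t) :
    HasCompactSupport (rs x t f) := by
  have h3 := hf.comp_homeomorph
    ((Homeomorph.smulOfNeZero t ht.ne').trans (Homeomorph.addLeft x))
  exact h3.smul_left (f := fun _ : Sp d => t)

/-- the plane functional in the frame of the cell -/
lemma bb_fr (ρ : ℝ) {s0 : ℝ} (hs : 0 < s0) (f : Sp d → E) (n : ℕ) (x : Sp d) (e : E)
    (ν : Sp d) (c : ℝ) :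
    bb ρ s0 f n x e ν c = ∫ y, ⟪rs x (lev s0 n) f y, e⟫_ℝ *
      (zR ρ y * ht ν (-(ht ν c x / lev s0 n)) y ^ 2) := by
  have ht0 := lev_pos hs n
  have h1 := TU.frame_int f e x ht0 (fun y => zR ρ ((1 / lev s0 n) • (y - x)) *
    (ht ν c y / lev s0 n) ^ 2)
  unfold bb
  rw [← h1]
  congr 1
  ext y
  have e1 : (1 / lev s0 n) • (x + lev s0 n • y - x) = y := by
    rw [add_sub_cancel_left, smul_smul, one_div, inv_mul_cancel₀ ht0.ne', one_smul]
  have e2 : ht ν c (x + lev s0 n • y) / lev s0 n = ht ν (-(ht ν c x / lev s0 n)) y := by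
    unfold ht
    rw [inner_add_right, inner_smul_right]
    field_simp
    ring
  simp only [e1, e2]

/-! ## levels -/

lemma lev_ge {s0 : ℝ} (hs : 0 < s0) (i m : ℕ) : lev s0 i ≤ lev s0 (i + m) := by
  rw [lev_add]
  have h1 : (1 : ℝ) ≤ 2 ^ m := one_le_pow₀ (by norm_num)
  have h2 := lev_pos hs i
  nlinarith

/-- the ratio of the normalisations -/
lemma nw_ratio {s0 : ℝ} (hs : 0 < s0) (i m : ℕ) :
    lev s0 i / lev s0 i ^ d = (2 ^ m) ^ d / 2 ^ m * (lev s0 (i + m) / lev s0 (i + m) ^ d) := by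
  have h0 := lev_pos hs i
  rw [lev_add, mul_pow]
  field_simp

lemma dfn_nn {e : E} (he : ‖e‖ = 1) (g : Sp d → E) (y : Sp d) : 0 ≤ ‖g y‖ - ⟪g y, e⟫_ℝ := by
  have h2 := (abs_le.1 (abs_real_inner_le_norm (g y) e)).2
  rw [he, mul_one] at h2
  linarith

lemma dfn_int {g : Sp d → E} (hg : Continuous g) (hc : HasCompactSupport g) (e : E) :
    Integrable fun y => ‖g y‖ - ⟪g y, e⟫_ℝ := by
  refine (hg.norm.integrable_of_hasCompactSupport hc.norm).sub ?_
  refine Continuous.integrable_of_hasCompactSupport (hg.inner continuous_const) ?_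
  exact hc.comp_left (g := fun v : E => ⟪v, e⟫_ℝ) (inner_zero_left _)

/-- the defect grows at most by a factor if the ball grows -/
lemma DD_mono {b : Sp d → ℝ} {J : ℕ} {M c0 : ℝ} (hb : BaseKer J M c0 b) (ε : ℝ) {f : Sp d → E}
    (hf : Continuous f) (hfc : HasCompactSupport f) {s0 : ℝ} (hs : 0 < s0) (i m : ℕ) {R : ℝ}
    {x x' : Sp d} (hB : ball x (R * lev s0 i) ⊆ ball x' (R * lev s0 (i + m)))
    {e : E} (he : ‖e‖ = 1) :
    DD b ε R s0 f i x e ≤ (2 ^ m) ^ d / 2 ^ m * 4 ^ m * DD b ε R s0 f (i + m) x' e := by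
  have hfl := TW.fl_ok hb ε s0 hf hfc
  have hI : ∀ l, ∫ y in ball x (R * lev s0 i), (‖fl b ε s0 f l y‖ - ⟪fl b ε s0 f l y, e⟫_ℝ) ≤
      ∫ y in ball x' (R * lev s0 (i + m)), (‖fl b ε s0 f l y‖ - ⟪fl b ε s0 f l y, e⟫_ℝ) := by
    intro l
    exact setIntegral_mono_set (dfn_int (hfl l).1 (hfl l).2 e).integrableOn
      (Filter.Eventually.of_forall fun y => dfn_nn he _ y)
      (Filter.Eventually.of_forall hB)
  have hJ : ∫ y in ball x (R * lev s0 i), ‖f y‖ ≤ ∫ y in ball x' (R * lev s0 (i + m)), ‖f y‖ :=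
    setIntegral_mono_set (hf.norm.integrable_of_hasCompactSupport hfc.norm).integrableOn
      (Filter.Eventually.of_forall fun y => norm_nonneg _) (Filter.Eventually.of_forall hB)
  have hp := lev_pos hs (i + m)
  have hnn : 0 ≤ (2 ^ m) ^ d / 2 ^ m * (lev s0 (i + m) / lev s0 (i + m) ^ d) := by positivity
  unfold DD
  rw [nw_ratio hs i m, mul_assoc ((2 ^ m) ^ d / 2 ^ m : ℝ) (4 ^ m) _, mul_assoc _ _
    (∑ l ∈ Finset.range (i + 1), _ + _)]
  have key : (∑ l ∈ Finset.range (i + 1), (1 / 4 : ℝ) ^ (i - l) *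
      (∫ y in ball x (R * lev s0 i), (‖fl b ε s0 f l y‖ - ⟪fl b ε s0 f l y, e⟫_ℝ))
      + (1 / 4 : ℝ) ^ i * ∫ y in ball x (R * lev s0 i), ‖f y‖) ≤
      4 ^ m * (∑ l ∈ Finset.range (i + m + 1), (1 / 4 : ℝ) ^ (i + m - l) *
      (∫ y in ball x' (R * lev s0 (i + m)), (‖fl b ε s0 f l y‖ - ⟪fl b ε s0 f l y, e⟫_ℝ))
      + (1 / 4 : ℝ) ^ (i + m) * ∫ y in ball x' (R * lev s0 (i + m)), ‖f y‖) := by
    rw [mul_add, Finset.mul_sum]
    refine add_le_add ?_ ?_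
    · refine (Finset.sum_le_sum (fun l hl => ?_)).trans
        (Finset.sum_le_sum_of_subset_of_nonneg (Finset.range_mono (by omega : i + 1 ≤ i + m + 1))
          fun l _ _ => ?_)
      · have hl' := Finset.mem_range.1 hl
        have e2 : (1 / 4 : ℝ) ^ (i + m - l) = (1 / 4) ^ m * (1 / 4) ^ (i - l) := by
          rw [← pow_add]
          congr 1
          omega
        have e3 : (4 : ℝ) ^ m * (1 / 4) ^ m = 1 := by
          rw [← mul_pow]
          norm_num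
        rw [e2, ← mul_assoc, ← mul_assoc, e3, one_mul]
        exact mul_le_mul_of_nonneg_left (hI l) (by positivity)
      · exact mul_nonneg (by positivity) (mul_nonneg (by positivity)
          (integral_nonneg fun y => dfn_nn he _ y))
    · have e3 : (4 : ℝ) ^ m * (1 / 4) ^ m = 1 := by
        rw [← mul_pow]
        norm_num
      calc (1 / 4 : ℝ) ^ i * ∫ y in ball x (R * lev s0 i), ‖f y‖
          ≤ (1 / 4 : ℝ) ^ i * ∫ y in ball x' (R * lev s0 (i + m)), ‖f y‖ :=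
            mul_le_mul_of_nonneg_left hJ (by positivity)
        _ = (4 ^ m * (1 / 4) ^ m) * ((1 / 4 : ℝ) ^ i *
            ∫ y in ball x' (R * lev s0 (i + m)), ‖f y‖) := by rw [e3, one_mul]
        _ = _ := by rw [pow_add]; ring
  calc (2 ^ m) ^ d / 2 ^ m * ((lev s0 (i + m) / lev s0 (i + m) ^ d) * _) ≤
      (2 ^ m) ^ d / 2 ^ m * ((lev s0 (i + m) / lev s0 (i + m) ^ d) * _) := by
        refine mul_le_mul_of_nonneg_left (mul_le_mul_of_nonneg_left key ?_) ?_ <;> positivity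
    _ = _ := by ring

/-! ## transfer of mass between levels -/

lemma mass_tr [FiniteDimensional ℝ E] {b : Sp d → ℝ} {M c0 ε : ℝ} (hb : BaseKer 2 M c0 b)
    (hε : 0 < ε) (hε1 : ε ≤ 1) {f : Sp d → E} (hf : Continuous f) (hfc : HasCompactSupport f)
    {s0 : ℝ} (hs : 0 < s0) (i m : ℕ) {R r1 r2 : ℝ} {x x' : Sp d} {e : E} (he : ‖e‖ = 1)
    (hr2 : r2 ≤ R - 3)
    (h : r1 * lev s0 i + ‖x' - x‖ + lev s0 (i + m) ≤ r2 * lev s0 (i + m)) :
    ma b ε r1 s0 f i x ≤ (2 ^ m) ^ d / 2 ^ m *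
      (ma b ε r2 s0 f (i + m) x' + 4 ^ (m + 1) * DD b ε R s0 f (i + m) x' e) := by
  set n := i + m with hn
  set t := lev s0 n with ht
  have ht0 : 0 < t := lev_pos hs n
  have hsn : (0 : ℝ) < (1 / 2) ^ n := by positivity
  set F := rs x' t f with hF
  have hFc : Continuous F := rs_cont hf x' t
  have hFs : HasCompactSupport F := rs_cs hfc x' ht0
  have hun : lev ((1 / 2 : ℝ) ^ n) n = 1 := TW.lev_u n
  set y0 : Sp d := (1 / t) • (x - x') with hy0
  have hy0n : ‖y0‖ = ‖x' - x‖ / t := by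
    rw [hy0, norm_smul, norm_sub_rev, one_div, norm_inv, Real.norm_of_nonneg ht0.le, inv_mul_eq_div]
  set U : Set (Sp d) := ball y0 (r1 * lev s0 i / t) with hU
  have hUn : ∀ y ∈ U, ‖y‖ < r2 - 1 := by
    intro y hy
    rw [hU, mem_ball, dist_eq_norm] at hy
    have h1 := norm_add_le (y - y0) y0
    rw [sub_add_cancel, hy0n] at h1
    have h2 : r1 * lev s0 i / t + ‖x' - x‖ / t ≤ r2 - 1 := by
      rw [← add_div, div_le_iff₀ ht0]
      linarith
    linarith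
  -- the integral in the frame
  have hfr : ∫ z in U, ‖fl b ε ((1 / 2) ^ n) F (i - 1) z‖ =
      t / t ^ d * ∫ y in ball x (r1 * lev s0 i), ‖fl b ε s0 f (i - 1) y‖ := by
    have h1 : ∀ z, ‖fl b ε ((1 / 2) ^ n) F (i - 1) z‖ =
        t * ‖fl b ε s0 f (i - 1) (x' + t • z)‖ := by
      intro z
      have h2 := SC.fl_rs b ε s0 x' ht0 f (i - 1) z
      rw [ht, s0_div hs, ← ht] at h2
      rw [hF, h2, norm_smul, Real.norm_of_nonneg ht0.le]
    simp_rw [h1]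
    rw [integral_const_mul, hU, SC.ball_scale x' ht0 (fun y => ‖fl b ε s0 f (i - 1) y‖)]
    have h3 : x' + t • y0 = x := by
      rw [hy0, smul_smul, mul_one_div_cancel ht0.ne', one_smul]
      abel
    rw [h3]
    ring
  have hma : ma b ε r1 s0 f i x = (2 ^ m) ^ d / 2 ^ m *
      ∫ z in U, ‖fl b ε ((1 / 2) ^ n) F (i - 1) z‖ := by
    rw [hfr]
    unfold ma
    rw [nw_ratio hs i m, mul_assoc]
  have hNl : i - 1 ≤ n - 1 := by omega
  have hlevN : lev ((1 / 2 : ℝ) ^ n) (n - 1) ≤ 1 :=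
    (MA.lev_le_lev hsn (by omega : n - 1 ≤ n)).trans hun.le
  have hlev2 : 1 / 2 + (lev ((1 / 2 : ℝ) ^ n) (n - 1) - lev ((1 / 2 : ℝ) ^ n) (i - 1)) ≤ 1 := by
    have h0 := lev_pos hsn (i - 1)
    rcases Nat.eq_zero_or_pos n with h1 | h1
    · have h2 : i - 1 = n - 1 := by omega
      rw [h2]
      norm_num
    · have h2 := lev_succ ((1 / 2 : ℝ) ^ n) (n - 1)
      rw [show n - 1 + 1 = n by omega, hun] at h2
      linarith
  have hlev0 : lev ((1 / 2 : ℝ) ^ n) (i - 1) ≤ lev ((1 / 2 : ℝ) ^ n) (n - 1) :=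
    MA.lev_le_lev hsn hNl
  have tr := MA.transfer hb.ak hb.even hb.supp hε hε1 hsn hFc hFs he (x := 0) (R := R) (U := U)
    (fun y hy => by
      rw [sub_zero]
      have := hUn y hy
      linarith) hlevN (n - 1 - (i - 1)) (i - 1) (1 / 2) (by omega) (by norm_num) hlev2
  have hfl := TW.fl_ok hb ε ((1 / 2 : ℝ) ^ n) hFc hFs
  have t1 : ∫ z in U, ‖fl b ε ((1 / 2) ^ n) F (i - 1) z‖ ≤
      ∫ z in thickening (1 / 2) U, ‖fl b ε ((1 / 2) ^ n) F (i - 1) z‖ :=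
    setIntegral_mono_set
      ((hfl (i - 1)).1.norm.integrable_of_hasCompactSupport (hfl (i - 1)).2.norm).integrableOn
      (Filter.Eventually.of_forall fun y => norm_nonneg _)
      (Filter.Eventually.of_forall (self_subset_thickening (by norm_num) U))
  have t2 : ∫ z in thickening (1 / 2 + (lev ((1 / 2 : ℝ) ^ n) (n - 1) -
      lev ((1 / 2 : ℝ) ^ n) (i - 1))) U, ‖fl b ε ((1 / 2) ^ n) F (n - 1) z‖ ≤
      ma b ε r2 s0 f n x' := by
    rw [← ma_fr b ε r2 hs f n x', ma_u]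
    refine setIntegral_mono_set
      ((hfl (n - 1)).1.norm.integrable_of_hasCompactSupport (hfl (n - 1)).2.norm).integrableOn
      (Filter.Eventually.of_forall fun y => norm_nonneg _)
      (Filter.Eventually.of_forall fun z hz => ?_)
    obtain ⟨w, hw, hzw⟩ := mem_thickening_iff.1 hz
    have h1 := hUn w hw
    rw [dist_eq_norm] at hzw
    have h2 := norm_add_le (z - w) w
    rw [sub_add_cancel] at h2
    exact mem_ball_zero_iff.2 (by linarith)
  have t3 : ∑ j ∈ Finset.Ico (i - 1) (n - 1), ∫ y in ball (0 : Sp d) R,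
      MA.dfn (fl b ε ((1 / 2) ^ n) F j) e y ≤ 4 ^ (m + 1) * DD b ε R s0 f n x' e := by
    rw [← DD_fr b ε R hs f n x' e]
    have h1 := MA.DD_ge b ε R (n := n) F 0 he (N := n - 1) (by omega)
    refine le_trans ?_ (mul_le_mul_of_nonneg_left h1 (by positivity))
    rw [Finset.mul_sum]
    refine le_trans (Finset.sum_le_sum (fun j hj => ?_)) (Finset.sum_le_sum_of_subset_of_nonneg
      (s := Finset.Ico (i - 1) (n - 1)) (t := Finset.range (n - 1)) (f := fun j =>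
        4 ^ (m + 1) * ((1 / 4 : ℝ) ^ (n - j) * ∫ y in ball (0 : Sp d) R,
          MA.dfn (fl b ε ((1 / 2) ^ n) F j) e y)) ?_ ?_)
    · have hj' := Finset.mem_Ico.1 hj
      have h2 : 0 ≤ ∫ y in ball (0 : Sp d) R, MA.dfn (fl b ε ((1 / 2) ^ n) F j) e y :=
        integral_nonneg fun y => MA.dfn_nonneg he _ y
      have h3 : (1 : ℝ) ≤ 4 ^ (m + 1) * (1 / 4) ^ (n - j) := by
        have h4 : (1 / 4 : ℝ) ^ (m + 1) ≤ (1 / 4) ^ (n - j) :=
          pow_le_pow_of_le_one (by norm_num) (by norm_num) (by omega)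
        have h5 : (4 : ℝ) ^ (m + 1) * (1 / 4) ^ (m + 1) = 1 := by
          rw [← mul_pow]
          norm_num
        exact h5.symm.le.trans (mul_le_mul_of_nonneg_left h4 (by positivity))
      calc ∫ y in ball (0 : Sp d) R, MA.dfn (fl b ε ((1 / 2) ^ n) F j) e y
          ≤ (4 ^ (m + 1) * (1 / 4) ^ (n - j)) *
            ∫ y in ball (0 : Sp d) R, MA.dfn (fl b ε ((1 / 2) ^ n) F j) e y :=
            le_mul_of_one_le_left h2 h3
        _ = _ := by ring
    · intro j hj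
      exact Finset.mem_range.2 (Finset.mem_Ico.1 hj).2
    · intro j _ _
      exact mul_nonneg (by positivity) (mul_nonneg (by positivity)
        (integral_nonneg fun y => MA.dfn_nonneg he _ y))
  rw [hma]
  refine mul_le_mul_of_nonneg_left ?_ (by positivity)
  linarith

/-! ## planes -/

/-- a plane which passes through the big ball of a cell can be moved to one near the cell -/
lemma shift (ν : Sp d) (c : ℝ) (hν : ‖ν‖ = 1) (x : Sp d) {ρ : ℝ} (hρ : 0 ≤ ρ) :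
    ∃ c' : ℝ, |ht ν c' x| ≤ ρ ∧ ∀ y : Sp d, ‖y - x‖ ≤ ρ → |ht ν c' y| ≤ |ht ν c y| := by
  have hd : ∀ y : Sp d, ‖y - x‖ ≤ ρ → |⟪ν, y⟫_ℝ - ⟪ν, x⟫_ℝ| ≤ ρ := by
    intro y hy
    rw [← inner_sub_right]
    have := abs_real_inner_le_norm ν (y - x)
    rw [hν, one_mul] at this
    linarith
  rcases le_total |ht ν c x| ρ with h | h
  · exact ⟨c, h, fun y _ => le_rfl⟩
  · rcases le_total 0 (ht ν c x) with h1 | h1
    · rw [abs_of_nonneg h1] at h
      unfold ht at h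
      refine ⟨⟪ν, x⟫_ℝ - ρ, ?_, fun y hy => ?_⟩
      · unfold ht
        rw [sub_sub_cancel, abs_of_nonneg hρ]
      · have h2 := abs_le.1 (hd y hy)
        unfold ht
        rw [abs_of_nonneg (by linarith), abs_of_nonneg (by linarith)]
        linarith
    · rw [abs_of_nonpos h1] at h
      unfold ht at h
      refine ⟨⟪ν, x⟫_ℝ + ρ, ?_, fun y hy => ?_⟩
      · unfold ht
        rw [sub_add_cancel_left, abs_neg, abs_of_nonneg hρ]
      · have h2 := abs_le.1 (hd y hy)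
        unfold ht
        rw [abs_of_nonpos (by linarith), abs_of_nonpos (by linarith)]
        linarith

/-! ## cut-off times squared height -/

/-- the test function of the plane functional -/
def gq (R0 : ℝ) (ν : Sp d) (c : ℝ) (y : Sp d) : ℝ := zR R0 y * ht ν c y ^ 2

lemma gq_nonneg (R0 : ℝ) (ν : Sp d) (c : ℝ) (y : Sp d) : 0 ≤ gq R0 ν c y :=
  mul_nonneg (TU.zR_nonneg R0 y) (sq_nonneg _)

lemma gq_zero {R0 : ℝ} (ν : Sp d) (c : ℝ) {y : Sp d} (h : R0 + 1 ≤ ‖y‖) : gq R0 ν c y = 0 := by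
  unfold gq
  rw [TU.zR_zero h, zero_mul]

lemma gq_int {R0 : ℝ} (hR0 : 0 < R0) {F : Sp d → E} (hF : Continuous F) (hc : HasCompactSupport F)
    (e : E) (ν : Sp d) (c : ℝ) : Integrable fun y => ⟪F y, e⟫_ℝ * gq R0 ν c y := by
  have h1 : Continuous (gq R0 ν c) := by
    unfold gq
    exact (TU.zR_smooth hR0).continuous.mul ((TU.ht_smooth (n := 0) ν c).continuous.pow 2)
  refine Continuous.integrable_of_hasCompactSupport
    ((hF.inner continuous_const).mul h1) ?_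
  exact (hc.comp_left (g := fun v : E => ⟪v, e⟫_ℝ) (inner_zero_left _)).mul_right

lemma ht_div (ν x y : Sp d) (c : ℝ) {t : ℝ} (ht0 : 0 < t) :
    ht ν c y / t = ht ν (-(ht ν c x / t)) ((1 / t) • (y - x)) := by
  unfold ht
  rw [inner_smul_right, inner_sub_right]
  field_simp
  ring

/-- the plane functional, written with gq -/
lemma bb_gq (ρ : ℝ) {s0 : ℝ} (hs : 0 < s0) (f : Sp d → E) (n : ℕ) (x : Sp d) (e : E)
    (ν : Sp d) (c : ℝ) :
    bb ρ s0 f n x e ν c = lev s0 n / lev s0 n ^ d * ∫ y, ⟪f y, e⟫_ℝ *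
      gq ρ ν (-(ht ν c x / lev s0 n)) ((1 / lev s0 n) • (y - x)) := by
  unfold bb gq
  simp only [← ht_div ν x _ c (lev_pos hs n)]

/-- comparison of the plane functionals of two cells, same direction -/
lemma cmp [FiniteDimensional ℝ E] {b : Sp d → ℝ} {ε : ℝ} {CZ : ℝ}
    (hZ : ∀ f : Sp d → E, Continuous f → HasCompactSupport f → ∀ (R : ℝ), 3 ≤ R →
      ∀ (n : ℕ) (e : E), ‖e‖ = 1 → ∀ (x : Sp d) (H : Sp d → ℝ) (N : ℝ), TFn 2 N H →
      (∀ y, 0 ≤ H y) → (∀ y, R - 2 ≤ ‖y - x‖ → H y = 0) →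
      -(CZ * N * DD b ε R ((1 / 2) ^ n) f n x e) ≤ ∫ y, ⟪f y, e⟫_ℝ * H y)
    {R0 N2 : ℝ} (hR0 : 3 ≤ R0)
    (hN2 : ∀ (ν : Sp d) (c : ℝ), ‖ν‖ = 1 → |c| ≤ R0 + 1 → TFn 2 N2 (gq R0 ν c))
    {R : ℝ} (hR : 2 * R0 + 10 ≤ R) {f : Sp d → E} (hf : Continuous f) (hfc : HasCompactSupport f)
    {s0 : ℝ} (hs : 0 < s0) (i m : ℕ) {x x' : Sp d}
    (hx : ‖x' - x‖ ≤ R0 * lev s0 (i + m) - (R0 + 1) * lev s0 i) {e : E} (he : ‖e‖ = 1)
    {ν : Sp d} (hν : ‖ν‖ = 1) {c c' : ℝ} (hc : |ht ν c x'| ≤ (R0 + 1) * lev s0 (i + m))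
    (hc' : |ht ν c' x| ≤ (R0 + 1) * lev s0 i)
    (hcc : ∀ y : Sp d, ‖y - x‖ ≤ (R0 + 1) * lev s0 i → |ht ν c' y| ≤ |ht ν c y|) :
    bb R0 s0 f i x e ν c' ≤ (2 ^ m) ^ d / 2 ^ m * (4 ^ m * bb R0 s0 f (i + m) x' e ν c +
      CZ * (|(4 : ℝ) ^ m| * N2 + max 1 |(2 : ℝ) ^ m| ^ 2 * N2) *
        DD b ε R s0 f (i + m) x' e) := by
  set t := lev s0 i with ht1
  set T := lev s0 (i + m) with hT1
  have ht0 : 0 < t := lev_pos hs i
  have hT0 : 0 < T := lev_pos hs (i + m)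
  have hTt : T = 2 ^ m * t := by
    rw [hT1, lev_add, ← ht1]
  set κ := -(ht ν c' x / t) with hκ
  set γ := -(ht ν c x' / T) with hγ
  have hκ1 : |κ| ≤ R0 + 1 := by
    rw [hκ, abs_neg, abs_div, abs_of_pos ht0, div_le_iff₀ ht0]
    exact hc'
  have hγ1 : |γ| ≤ R0 + 1 := by
    rw [hγ, abs_neg, abs_div, abs_of_pos hT0, div_le_iff₀ hT0]
    exact hc
  set a : Sp d := (1 / t) • (x' - x) with ha
  have han : ‖a‖ ≤ R0 * 2 ^ m - (R0 + 1) := by
    rw [ha, norm_smul, one_div, norm_inv, Real.norm_of_nonneg ht0.le, inv_mul_le_iff₀ ht0]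
    refine hx.trans (le_of_eq ?_)
    rw [hTt]
    ring
  set F := rs x' T f with hF
  have hFc : Continuous F := rs_cont hf x' T
  have hFs : HasCompactSupport F := rs_cs hfc x' hT0
  have hpt : ∀ w : Sp d, (1 / t) • (x' + T • w - x) = a + (2 : ℝ) ^ m • w := by
    intro w
    rw [ha, add_sub_right_comm, smul_add, smul_smul, hTt]
    congr 2
    field_simp
  have h1 := hN2 ν γ hν hγ1
  have h2 := TU.TFn_aff (hN2 ν κ hν hκ1) a (t := (2 : ℝ) ^ m) (by positivity)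
  have h3 := TU.TFn_sub (TU.TFn_const_mul h1 (4 ^ m)) h2
  have hout : ∀ w : Sp d, R0 + 1 ≤ ‖w‖ → R0 + 1 ≤ ‖a + (2 : ℝ) ^ m • w‖ := by
    intro w hw
    have h4 := norm_sub_norm_le ((2 : ℝ) ^ m • w) (-a)
    rw [norm_smul, norm_neg, sub_neg_eq_add, Real.norm_of_nonneg (by positivity),
      add_comm _ a] at h4
    have h5 : (1 : ℝ) ≤ 2 ^ m := one_le_pow₀ (by norm_num)
    nlinarith
  have hnn : ∀ w : Sp d, 0 ≤ 4 ^ m * gq R0 ν γ w - gq R0 ν κ (a + (2 : ℝ) ^ m • w) := by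
    intro w
    rcases le_or_gt (R0 + 1) ‖a + (2 : ℝ) ^ m • w‖ with h4 | h4
    · rw [gq_zero ν κ h4, sub_zero]
      exact mul_nonneg (by positivity) (gq_nonneg _ _ _ _)
    · -- the point y
      set y : Sp d := x' + T • w with hy
      have hyx : (1 / t) • (y - x) = a + (2 : ℝ) ^ m • w := hpt w
      have hyx' : (1 / T) • (y - x') = w := by
        rw [hy, add_sub_cancel_left, smul_smul, one_div, inv_mul_cancel₀ hT0.ne', one_smul]
      have h5 : ‖y - x‖ ≤ (R0 + 1) * t := by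
        have h6 : y - x = t • (a + (2 : ℝ) ^ m • w) := by
          rw [← hyx, smul_smul, mul_one_div_cancel ht0.ne', one_smul]
        rw [h6, norm_smul, Real.norm_of_nonneg ht0.le, mul_comm]
        exact mul_le_mul_of_nonneg_right h4.le ht0.le
      have h7 : ‖w‖ ≤ R0 := by
        rw [← hyx', norm_smul, one_div, norm_inv, Real.norm_of_nonneg hT0.le, inv_mul_le_iff₀ hT0]
        have h8 : y - x' = (y - x) - (x' - x) := by abel
        rw [h8]
        refine (norm_sub_le _ _).trans ?_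
        linarith
      have h9 := hcc y h5
      unfold gq
      rw [TU.zR_one h7, ← hyx, hκ, ← ht_div ν x y c' ht0, ← hyx', hγ, ← ht_div ν x' y c hT0]
      have h10 : ht ν c' y ^ 2 ≤ ht ν c y ^ 2 := sq_le_sq.2 h9
      have h11 : (4 : ℝ) ^ m * (1 * (ht ν c y / T) ^ 2) = (ht ν c y / t) ^ 2 := by
        rw [hTt, div_pow, div_pow, mul_pow, ← pow_mul, mul_comm m 2, pow_mul]
        norm_num
        field_simp
      rw [h11, sub_nonneg]
      calc zR R0 ((1 / t) • (y - x)) * (ht ν c' y / t) ^ 2 ≤ 1 * (ht ν c' y / t) ^ 2 :=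
            mul_le_mul_of_nonneg_right (TU.zR_le_one _ _) (sq_nonneg _)
        _ = ht ν c' y ^ 2 / t ^ 2 := by rw [one_mul, div_pow]
        _ ≤ ht ν c y ^ 2 / t ^ 2 := by gcongr
        _ = _ := by rw [div_pow]
  have key := hZ F hFc hFs R (by linarith) (i + m) e he 0 _ _ h3 hnn (by
    intro w hw
    rw [sub_zero] at hw
    rw [gq_zero ν γ (by linarith), gq_zero ν κ (hout w (by linarith))]
    ring)
  rw [DD_fr b ε R hs f (i + m) x' e] at key
  -- split the integral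
  have e1 : ∫ w, ⟪F w, e⟫_ℝ * gq R0 ν γ w = bb R0 s0 f (i + m) x' e ν c := by
    rw [bb_fr R0 hs f (i + m) x' e ν c]
    rfl
  have e2 : ∫ w, ⟪F w, e⟫_ℝ * gq R0 ν κ (a + (2 : ℝ) ^ m • w) =
      T / T ^ d * ∫ y, ⟪f y, e⟫_ℝ * gq R0 ν κ ((1 / t) • (y - x)) := by
    rw [← TU.frame_int f e x' hT0]
    simp only [hpt]
    rfl
  have e3 : bb R0 s0 f i x e ν c' = (2 ^ m) ^ d / 2 ^ m *
      ∫ w, ⟪F w, e⟫_ℝ * gq R0 ν κ (a + (2 : ℝ) ^ m • w) := by
    rw [e2, bb_gq R0 hs f i x e ν c', nw_ratio hs i m, mul_assoc]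
  have i1 : Integrable fun w => ⟪F w, e⟫_ℝ * gq R0 ν γ w :=
    gq_int (by linarith) hFc hFs e ν γ
  have i2 : Integrable fun w => ⟪F w, e⟫_ℝ * gq R0 ν κ (a + (2 : ℝ) ^ m • w) := by
    have hc1 : Continuous (gq R0 ν κ) := (hN2 ν κ hν hκ1).smooth.continuous
    refine Continuous.integrable_of_hasCompactSupport
      ((hFc.inner continuous_const).mul (hc1.comp (by fun_prop))) ?_
    exact (hFs.comp_left (g := fun v : E => ⟪v, e⟫_ℝ) (inner_zero_left _)).mul_right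
  have e4 : ∫ w, ⟪F w, e⟫_ℝ * (4 ^ m * gq R0 ν γ w - gq R0 ν κ (a + (2 : ℝ) ^ m • w)) =
      4 ^ m * bb R0 s0 f (i + m) x' e ν c -
        ∫ w, ⟪F w, e⟫_ℝ * gq R0 ν κ (a + (2 : ℝ) ^ m • w) := by
    rw [← e1, ← integral_const_mul, ← integral_sub (i1.const_mul _) i2]
    congr 1
    ext w
    ring
  rw [e4] at key
  rw [e3]
  refine mul_le_mul_of_nonneg_left ?_ (by positivity)
  linarith

end

end CT5

open CT5 in
/-- MODULE CT5 -/
theorem stmtCT5 (hZ : StmtZ) (hMA : StmtMA) (hDI : StmtDI) : StmtCT5 := by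
  intro d hd M c0 ε hε hε1 b hb R0 m hR0
  obtain ⟨CZ, hCZ, zz⟩ := TU.Z' hZ hd hε hε1 hb
  obtain ⟨CM, hCM, mm⟩ := TU.MA' hMA hd hε hε1 hb
  obtain ⟨CD, hCD, dd⟩ := TU.DI' hDI hd hε hε1 hb
  obtain ⟨N1, hN1, T1⟩ := TU.TFn_of_cs (J := 2) (ζ := (zR R0 : Sp d → ℝ))
    (contDiff_infty.1 (TU.zR_smooth (by linarith)) 2) (TU.zR_cs R0)
  set N2 : ℝ := 4 ^ 2 * N1 * max 1 ((R0 + 1) + (R0 + 1)) ^ 2 with hN2d
  have hN2 : 0 ≤ N2 := by positivity
  have T2 : ∀ (ν : Sp d) (c : ℝ), ‖ν‖ = 1 → |c| ≤ R0 + 1 → TFn 2 N2 (gq R0 ν c) := by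
    intro ν c hν hc
    exact TU.TFn_ht_sq T1 (fun y hy => TU.zR_zero hy.le) hν hc
  set K : ℝ := (2 ^ m) ^ d / 2 ^ m * 4 ^ m with hK
  set W : ℝ := (2 ^ m) ^ d / 2 ^ m with hW
  have hK0 : 0 ≤ K := by positivity
  have hW0 : 0 ≤ W := by positivity
  set N3 : ℝ := |(4 : ℝ) ^ m| * N2 + max 1 |(2 : ℝ) ^ m| ^ 2 * N2 with hN3
  have hN30 : 0 ≤ N3 := by positivity
  refine ⟨1 + CM * N2 + K + W * (1 + 4 ^ (m + 1)) + CD * (1 + K) + (W * 4 ^ m + W * (CZ * N3)) +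
    CD * (1 + K) * N2, by positivity, ?_⟩
  set C : ℝ := 1 + CM * N2 + K + W * (1 + 4 ^ (m + 1)) + CD * (1 + K) +
    (W * 4 ^ m + W * (CZ * N3)) + CD * (1 + K) * N2 with hC
  have p1 : 0 ≤ CM * N2 := by positivity
  have p2 : 0 ≤ W * (1 + 4 ^ (m + 1)) := by positivity
  have p3 : 0 ≤ CD * (1 + K) := by positivity
  have p4 : 0 ≤ W * 4 ^ m := by positivity
  have p5 : 0 ≤ W * (CZ * N3) := by positivity
  have p6 : 0 ≤ CD * (1 + K) * N2 := by positivity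
  intro E _ _ _ R hR f hf hfc s0 hs e hDirs ν c hPl
  have hdC : ∀ Q, 0 ≤ dC b ε R s0 f e Q := fun Q =>
    TU.DD_nonneg b ε R hs f Q.1 (xC s0 Q) (hDirs.unit Q)
  have hmC : ∀ (r : ℝ) (Q : Cell d), 0 ≤ mC b ε r s0 f Q := fun r Q =>
    TU.ma_nonneg b ε r hs f Q.1 (xC s0 Q)
  have hbC : ∀ Q, 0 ≤ bC R0 s0 f e ν c Q := fun Q => le_max_left _ _
  -- (2), for a general direction
  have D2 : ∀ Q P : Cell d, P.1 = Q.1 + m →
      ‖xC s0 P - xC s0 Q‖ ≤ R * (lev s0 P.1 - lev s0 Q.1) →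
      DD b ε R s0 f Q.1 (xC s0 Q) (e P) ≤ K * dC b ε R s0 f e P := by
    intro Q P hQP hx
    have hB : ball (xC s0 Q) (R * lev s0 Q.1) ⊆ ball (xC s0 P) (R * lev s0 (Q.1 + m)) := by
      refine ball_subset_ball' ?_
      rw [dist_comm, dist_eq_norm, ← hQP]
      linarith
    have h1 := DD_mono hb ε hf hfc hs Q.1 m hB (hDirs.unit P)
    rw [← hQP] at h1
    exact h1
  -- (5)
  have D5 : ∀ Q P : Cell d, P.1 = Q.1 + m → ∀ (ζ : Sp d → ℝ) (N : ℝ), TFn 2 N ζ →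
        (∀ y, R - 3 ≤ ‖y‖ → ζ y = 0) →
        ‖xC s0 P - xC s0 Q‖ ≤ R * (lev s0 P.1 - lev s0 Q.1) →
        |∫ y, ⟪rs (xC s0 Q) (lev s0 Q.1) f y, e Q - e P⟫_ℝ * ζ y| ≤
          CD * (1 + K) * N * (dC b ε R s0 f e Q + dC b ε R s0 f e P) := by
    intro Q P hQP ζ N hζ hζ0 hx
    have ht0 := lev_pos hs Q.1
    have h1 := dd E (rs (xC s0 Q) (lev s0 Q.1) f) (rs_cont hf _ _) (rs_cs hfc _ ht0) R
      (by linarith) Q.1 (e Q) (e P) (hDirs.unit Q) (hDirs.unit P) 0 0 ζ N hζ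
      (fun y hy => hζ0 y (by rw [sub_zero] at hy; linarith))
      (fun y hy => hζ0 y (by rw [sub_zero] at hy; linarith))
    rw [DD_fr b ε R hs f Q.1 (xC s0 Q) (e Q), DD_fr b ε R hs f Q.1 (xC s0 Q) (e P)] at h1
    refine h1.trans ?_
    have h2 := D2 Q P hQP hx
    have h3 := hdC Q
    have h4 := hdC P
    have h5 := TU.TFn_nonneg hζ
    have h6 : DD b ε R s0 f Q.1 (xC s0 Q) (e Q) + DD b ε R s0 f Q.1 (xC s0 Q) (e P) ≤
        (1 + K) * (dC b ε R s0 f e Q + dC b ε R s0 f e P) := by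
      have : DD b ε R s0 f Q.1 (xC s0 Q) (e Q) = dC b ε R s0 f e Q := rfl
      rw [this]
      nlinarith [mul_nonneg hK0 h3]
    calc CD * N * (DD b ε R s0 f Q.1 (xC s0 Q) (e Q) + DD b ε R s0 f Q.1 (xC s0 Q) (e P))
        ≤ CD * N * ((1 + K) * (dC b ε R s0 f e Q + dC b ε R s0 f e P)) :=
          mul_le_mul_of_nonneg_left h6 (by positivity)
      _ = _ := by ring
  refine ⟨fun Q => ⟨hdC Q, hbC Q, ?_⟩, ?_, ?_, ?_, ?_⟩
  · -- (1)
    have ht0 := lev_pos hs Q.1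
    refine max_le (mul_nonneg (by positivity) (add_nonneg (hmC _ Q) (hdC Q))) ?_
    have h0 : ht (ν Q) ⟪ν Q, xC s0 Q⟫_ℝ (xC s0 Q) = 0 := by
      unfold ht
      exact sub_self _
    refine (hPl.min Q (ν Q) ⟪ν Q, xC s0 Q⟫_ℝ (hPl.unit Q) (by
      rw [h0, abs_zero]
      positivity)).trans ?_
    rw [bb_fr R0 hs f Q.1 (xC s0 Q) (e Q), h0, zero_div, neg_zero]
    have h1 := (mm E (rs (xC s0 Q) (lev s0 Q.1) f) (rs_cont hf _ _) (rs_cs hfc _ ht0) R
      (by linarith) Q.1 (e Q) (hDirs.unit Q) 0 (ball (0 : Sp d) (R0 + 3)) measurableSet_ball).1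
      (gq R0 (ν Q) 0) N2 (T2 (ν Q) 0 (hPl.unit Q) (by rw [abs_zero]; linarith))
      (fun y hy => gq_zero _ _ (by rw [sub_zero] at hy; linarith))
      (fun y z hy hz => by
        have h2 : ‖y‖ < R0 + 1 := by
          by_contra h3
          exact hy (gq_zero _ _ (not_lt.1 h3))
        have h3 := norm_add_le (z - y) y
        rw [sub_add_cancel] at h3
        exact mem_ball_zero_iff.2 (by linarith))
    rw [DD_fr b ε R hs f Q.1 (xC s0 Q) (e Q), ← ma_u, ma_fr b ε (R0 + 3) hs f] at h1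
    have h2 := (le_abs_self _).trans h1
    refine h2.trans ?_
    refine mul_le_mul_of_nonneg_right (by rw [hC]; linarith) (add_nonneg (hmC _ Q) (hdC Q))
  · -- (2)
    intro Q P hQP hx
    refine (hDirs.min Q (e P) (hDirs.unit P)).trans ((D2 Q P hQP hx).trans ?_)
    exact mul_le_mul_of_nonneg_right (by rw [hC]; linarith) (hdC P)
  · -- (3)
    intro Q P hQP hx
    have ht0 := lev_pos hs Q.1
    have hle : lev s0 Q.1 ≤ lev s0 P.1 := by
      rw [hQP]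
      exact lev_ge hs Q.1 m
    have hx2 : ‖xC s0 P - xC s0 Q‖ ≤ R * (lev s0 P.1 - lev s0 Q.1) := by
      refine hx.trans ?_
      nlinarith [mul_nonneg (by linarith : 0 ≤ R - R0) (sub_nonneg.2 hle)]
    have hnn := add_nonneg (add_nonneg (hbC P) (hdC Q)) (hdC P)
    refine max_le (mul_nonneg (by positivity) hnn) ?_
    obtain ⟨c', hc', hcc⟩ := shift (ν P) (c P) (hPl.unit P) (xC s0 Q)
      (by positivity : 0 ≤ (R0 + 1) * lev s0 Q.1)
    refine (hPl.min Q (ν P) c' (hPl.unit P) hc').trans ?_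
    have hκ1 : |-(ht (ν P) c' (xC s0 Q) / lev s0 Q.1)| ≤ R0 + 1 := by
      rw [abs_neg, abs_div, abs_of_pos ht0, div_le_iff₀ ht0]
      exact hc'
    have hFc := rs_cont hf (xC s0 Q) (lev s0 Q.1)
    have hFs := rs_cs hfc (xC s0 Q) ht0
    have hsplit : bb R0 s0 f Q.1 (xC s0 Q) (e Q) (ν P) c' =
        bb R0 s0 f Q.1 (xC s0 Q) (e P) (ν P) c' +
        ∫ y, ⟪rs (xC s0 Q) (lev s0 Q.1) f y, e Q - e P⟫_ℝ *
          gq R0 (ν P) (-(ht (ν P) c' (xC s0 Q) / lev s0 Q.1)) y := by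
      rw [bb_fr R0 hs f Q.1 (xC s0 Q) (e Q), bb_fr R0 hs f Q.1 (xC s0 Q) (e P)]
      have i1 := gq_int (by linarith : 0 < R0) hFc hFs (e P) (ν P)
        (-(ht (ν P) c' (xC s0 Q) / lev s0 Q.1))
      have i2 := gq_int (by linarith : 0 < R0) hFc hFs (e Q - e P) (ν P)
        (-(ht (ν P) c' (xC s0 Q) / lev s0 Q.1))
      have h3 := integral_add i1 i2
      unfold gq at h3 ⊢
      rw [← h3]
      congr 1
      ext y
      rw [inner_sub_right]
      ring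
    have hA := cmp (zz E) hR0 T2 hR hf hfc hs Q.1 m (x := xC s0 Q) (x' := xC s0 P)
      (by rw [← hQP]; exact hx) (hDirs.unit P) (hPl.unit P) (c := c P) (c' := c')
      (by rw [← hQP]; exact hPl.loc P) hc' hcc
    rw [← hQP] at hA
    have hB := (le_abs_self _).trans (D5 Q P hQP
      (gq R0 (ν P) (-(ht (ν P) c' (xC s0 Q) / lev s0 Q.1))) N2 (T2 _ _ (hPl.unit P) hκ1)
      (fun y hy => gq_zero _ _ (by linarith)) hx2)
    rw [hsplit]
    have h4 : bb R0 s0 f P.1 (xC s0 P) (e P) (ν P) (c P) ≤ bC R0 s0 f e ν c P := le_max_right _ _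
    have h5 := mul_le_mul_of_nonneg_left h4 p4
    have h6 : DD b ε R s0 f P.1 (xC s0 P) (e P) = dC b ε R s0 f e P := rfl
    rw [h6, ← hN3, ← hW] at hA
    have q1 := hbC P
    have q2 := hdC Q
    have q3 := hdC P
    have g1 : W * 4 ^ m * bC R0 s0 f e ν c P ≤ C * bC R0 s0 f e ν c P :=
      mul_le_mul_of_nonneg_right (by rw [hC]; linarith) q1
    have g2 : CD * (1 + K) * N2 * dC b ε R s0 f e Q ≤ C * dC b ε R s0 f e Q :=
      mul_le_mul_of_nonneg_right (by rw [hC]; linarith) q2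
    have g3 : (W * (CZ * N3) + CD * (1 + K) * N2) * dC b ε R s0 f e P ≤
        C * dC b ε R s0 f e P :=
      mul_le_mul_of_nonneg_right (by rw [hC]; linarith) q3
    calc _ ≤ W * (4 ^ m * bb R0 s0 f P.1 (xC s0 P) (e P) (ν P) (c P) +
          CZ * N3 * dC b ε R s0 f e P) +
          CD * (1 + K) * N2 * (dC b ε R s0 f e Q + dC b ε R s0 f e P) := add_le_add hA hB
      _ = W * 4 ^ m * bb R0 s0 f P.1 (xC s0 P) (e P) (ν P) (c P) +
          CD * (1 + K) * N2 * dC b ε R s0 f e Q +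
          (W * (CZ * N3) + CD * (1 + K) * N2) * dC b ε R s0 f e P := by ring
      _ ≤ _ := by linarith
  · -- (4)
    intro Q P hQP r1 r2 hr1 hr2 h
    have h1 := mass_tr hb hε hε1 hf hfc hs Q.1 m (R := R) (x := xC s0 Q) (x' := xC s0 P)
      (hDirs.unit P) hr2 (by rw [← hQP]; exact h)
    rw [← hQP] at h1
    refine h1.trans ?_
    have q1 := hmC r2 P
    have q2 := hdC P
    have h6 : DD b ε R s0 f P.1 (xC s0 P) (e P) = dC b ε R s0 f e P := rfl
    have h7 : ma b ε r2 s0 f P.1 (xC s0 P) = mC b ε r2 s0 f P := rfl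
    rw [h6, h7, ← hW]
    have h8 : (0 : ℝ) ≤ 4 ^ (m + 1) := by positivity
    calc W * (mC b ε r2 s0 f P + 4 ^ (m + 1) * dC b ε R s0 f e P)
        ≤ W * ((1 + 4 ^ (m + 1)) * (mC b ε r2 s0 f P + dC b ε R s0 f e P)) := by
          refine mul_le_mul_of_nonneg_left ?_ hW0
          nlinarith [mul_nonneg h8 q1]
      _ = W * (1 + 4 ^ (m + 1)) * (mC b ε r2 s0 f P + dC b ε R s0 f e P) := by ring
      _ ≤ _ := mul_le_mul_of_nonneg_right (by rw [hC]; linarith) (add_nonneg q1 q2)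
  · -- (5)
    intro Q P hQP ζ N hζ hζ0 hx
    refine (D5 Q P hQP ζ N hζ hζ0 hx).trans ?_
    have h5 := TU.TFn_nonneg hζ
    have q2 := hdC Q
    have q3 := hdC P
    refine mul_le_mul_of_nonneg_right (mul_le_mul_of_nonneg_right ?_ h5) (add_nonneg q2 q3)
    rw [hC]
    linarith

end TG
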