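import Pool.Agent.TG.Conc
import Pool.Agent.TG.Tree0

/-!
# Module CT6: finiteness of the sums over the cells   (helper62)
-/

open MeasureTheory Metric Set TrI
open scoped InnerProductSpace ContDiff ENNReal

namespace TG

noncomputable section

variable {d : ℕ}

namespace CT6

theorem lev_pos' {s0 : ℝ} (hs : 0 < s0) (k : ℕ) : 0 < lev s0 k := by
  unfold lev; positivity

theorem cw_mul_nw {s0 : ℝ} (hs : 0 < s0) (hd : 1 ≤ d) (Q : Cell d) : cw s0 Q * nw s0 Q = 1 := by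
  have h := lev_pos' hs Q.1
  obtain ⟨d', rfl⟩ : ∃ d', d = d' + 1 := ⟨d - 1, by omega⟩
  unfold cw nw
  rw [Nat.add_sub_cancel, pow_succ]
  field_simp

theorem nw_le {s0 : ℝ} (hs : 0 < s0) (hd : 2 ≤ d) (Q : Cell d) :
    nw s0 Q ≤ (1 / s0) ^ (d - 1) * (1 / 2) ^ Q.1 := by
  have h := lev_pos' hs Q.1
  have h1 : nw s0 Q = (1 / lev s0 Q.1) ^ (d - 1) := by
    obtain ⟨d', rfl⟩ : ∃ d', d = d' + 1 := ⟨d - 1, by omega⟩
    unfold nw
    rw [Nat.add_sub_cancel, pow_succ, one_div_pow]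
    field_simp
  rw [h1]
  have h2 : 1 / lev s0 Q.1 = (1 / s0) * (1 / 2) ^ Q.1 := by
    unfold lev
    rw [one_div_pow]
    field_simp
  rw [h2, mul_pow]
  apply mul_le_mul_of_nonneg_left _ (by positivity)
  rw [← pow_mul]
  apply pow_le_pow_of_le_one (by norm_num) (by norm_num)
  have : 1 ≤ d - 1 := by omega
  nlinarith

theorem nw_nonneg {s0 : ℝ} (hs : 0 < s0) (Q : Cell d) : 0 ≤ nw s0 Q := by
  have h := lev_pos' hs Q.1
  unfold nw; positivity

/-- the abstract form -/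
theorem aux {s0 B1 B2 A q : ℝ} (hs : 0 < s0) (hd : 2 ≤ d) (hB1 : 0 ≤ B1) (hB2 : 0 ≤ B2)
    (hq0 : 0 ≤ q) (hq1 : q < 1) (F w : Cell d → ℝ)
    (hF0 : ∀ Q, 0 ≤ F Q) (hF1 : ∀ Q, F Q ≤ B1 * nw s0 Q)
    (hF2 : ∀ Q, F Q ≠ 0 → ‖xC s0 Q‖ ≤ B2 * (1 + lev s0 Q.1)) (hw0 : ∀ Q, 0 ≤ w Q)
    (hw1 : ∀ Q, w Q ≤ A * q ^ Q.1) :
    cs univ (fun Q => cw s0 Q * F Q * w Q) < ⊤ := by
  classical
  set N : ℤ := ⌈B2 * (1 / s0 + 1)⌉ with hN
  set S : Finset (Fin d → ℤ) := Fintype.piFinset fun _ => Finset.Icc (-N) N with hS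
  have hmem : ∀ Q : Cell d, F Q ≠ 0 → Q.2 ∈ S := by
    intro Q hQ
    have hl := lev_pos' hs Q.1
    have h1 := hF2 Q hQ
    rw [hS, Fintype.mem_piFinset]
    intro j
    have h2 : |(Q.2 j : ℝ)| ≤ B2 * (1 / s0 + 1) := by
      have h3 : ‖xC s0 Q‖ = lev s0 Q.1 * ‖lat Q.2‖ := by
        unfold xC cen
        rw [norm_smul, Real.norm_of_nonneg hl.le]
      have h4 : |(Q.2 j : ℝ)| ≤ ‖lat Q.2‖ := by
        have := PiLp.norm_apply_le (p := 2) (lat Q.2) j
        simpa [lat] using this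
      rw [h3] at h1
      have h5 : ‖lat Q.2‖ ≤ B2 * (1 / lev s0 Q.1 + 1) := by
        have h6 : B2 * (1 + lev s0 Q.1) = lev s0 Q.1 * (B2 * (1 / lev s0 Q.1 + 1)) := by
          field_simp
        rw [h6] at h1
        exact le_of_mul_le_mul_left h1 hl
      have h7 : 1 / lev s0 Q.1 ≤ 1 / s0 := by
        apply one_div_le_one_div_of_le hs
        unfold lev
        exact le_mul_of_one_le_right hs.le (one_le_pow₀ (by norm_num))
      calc |(Q.2 j : ℝ)| ≤ B2 * (1 / lev s0 Q.1 + 1) := h4.trans h5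
        _ ≤ _ := by apply mul_le_mul_of_nonneg_left _ hB2; linarith
    have h8 : |(Q.2 j : ℝ)| ≤ (N : ℝ) := h2.trans (Int.le_ceil _)
    rw [Finset.mem_Icc]
    rw [abs_le] at h8
    exact ⟨by exact_mod_cast h8.1, by exact_mod_cast h8.2⟩
  have hbd : ∀ Q : Cell d, ENNReal.ofReal (cw s0 Q * F Q * w Q) ≤
      ENNReal.ofReal B1 * ENNReal.ofReal A * (ENNReal.ofReal q ^ Q.1 * if Q.2 ∈ S then 1 else 0) := by
    intro Q
    by_cases hQ : F Q = 0
    · rw [hQ]; simp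
    · rw [if_pos (hmem Q hQ), mul_one, ← ENNReal.ofReal_pow hq0, ← ENNReal.ofReal_mul hB1]
      have hA : 0 ≤ A := by
        by_contra hcon
        push Not at hcon
        have h1 := hw1 Q
        have h2 := hw0 Q
        have h3 : 0 ≤ q ^ Q.1 := by positivity
        have h4 := hw1 (0, Q.2)
        have h5 := hw0 (0, Q.2)
        simp only [pow_zero, mul_one] at h4
        linarith
      rw [← ENNReal.ofReal_mul (by positivity)]
      apply ENNReal.ofReal_le_ofReal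
      have h1 : cw s0 Q * F Q ≤ B1 := by
        calc cw s0 Q * F Q ≤ cw s0 Q * (B1 * nw s0 Q) :=
              mul_le_mul_of_nonneg_left (hF1 Q) (cw_nonneg hs Q)
          _ = B1 * (cw s0 Q * nw s0 Q) := by ring
          _ = B1 := by rw [cw_mul_nw hs (by omega), mul_one]
      calc cw s0 Q * F Q * w Q ≤ B1 * (A * q ^ Q.1) :=
            mul_le_mul h1 (hw1 Q) (hw0 Q) hB1
        _ = _ := by ring
  rw [cs_univ]
  refine lt_of_le_of_lt (ENNReal.tsum_le_tsum hbd) ?_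
  rw [ENNReal.tsum_mul_left, ENNReal.tsum_prod (f := fun (k : ℕ) (p : Fin d → ℤ) =>
    ENNReal.ofReal q ^ k * if p ∈ S then 1 else 0)]
  simp only [ENNReal.tsum_mul_left, ENNReal.tsum_mul_right]
  have h1 : ∑' p : Fin d → ℤ, (if p ∈ S then (1 : ℝ≥0∞) else 0) = (S.card : ℝ≥0∞) := by
    rw [tsum_eq_sum (s := S)]
    · rw [Finset.sum_congr rfl (g := fun _ => (1 : ℝ≥0∞))]
      · simp
      · intro p hp; rw [if_pos hp]
    · intro p hp; rw [if_neg hp]
  rw [h1, ENNReal.tsum_geometric]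
  apply ENNReal.mul_lt_top (ENNReal.mul_lt_top ENNReal.ofReal_lt_top ENNReal.ofReal_lt_top)
  apply ENNReal.mul_lt_top _ (by simp)
  rw [ENNReal.inv_lt_top]
  rw [tsub_pos_iff_lt]
  exact ENNReal.ofReal_lt_one.2 hq1

theorem kk_le (t : ℝ) (ht : 0 < t) (x : Sp d) : kk t x ≤ t / t ^ d := by
  unfold kk
  apply div_le_div_of_nonneg_left ht.le (by positivity)
  apply pow_le_pow_left₀ ht.le
  apply Real.le_sqrt_of_sq_le
  nlinarith [sq_nonneg ‖x‖]

theorem kk_nonneg' (t : ℝ) (ht : 0 < t) (x : Sp d) : 0 ≤ kk t x := by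
  unfold kk; positivity

theorem th_le (μ : Measure (Sp d)) [IsFiniteMeasure μ] (t : ℝ) (ht : 0 < t) (x : Sp d) :
    th μ t x ≤ t / t ^ d * (μ univ).toReal := by
  unfold th
  have h1 : ∀ η, ‖kk t (x - η)‖ ≤ t / t ^ d := by
    intro η
    rw [Real.norm_of_nonneg (kk_nonneg' t ht _)]
    exact kk_le t ht _
  have h2 := norm_integral_le_of_norm_le_const (μ := μ) (Filter.Eventually.of_forall h1)
  calc ∫ η, kk t (x - η) ∂μ ≤ ‖∫ η, kk t (x - η) ∂μ‖ := Real.le_norm_self _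
    _ ≤ _ := h2

/-- bound of the weights -/
theorem sqrt_le {s0 m : ℝ} (hs : 0 < s0) (hd : 2 ≤ d) (hm : 0 ≤ m) (Q : Cell d) :
    Real.sqrt (nw s0 Q * m) ≤
      Real.sqrt ((1 / s0) ^ (d - 1) * m) * Real.sqrt (1 / 2) ^ Q.1 := by
  have h1 : Real.sqrt (1 / 2 : ℝ) ^ Q.1 = Real.sqrt ((1 / 2) ^ Q.1) := by
    rw [Real.sqrt_eq_rpow, Real.sqrt_eq_rpow, ← Real.rpow_natCast, ← Real.rpow_natCast,
      ← Real.rpow_mul (by norm_num), ← Real.rpow_mul (by norm_num), mul_comm]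
  rw [h1, ← Real.sqrt_mul (by positivity)]
  apply Real.sqrt_le_sqrt
  have := mul_le_mul_of_nonneg_right (nw_le hs hd Q) hm
  linarith [this]

end CT6

open CT6

/-- module CT6 -/
theorem stmtCT6 : StmtCT6 := by
  intro d hd C' ρ _ _ μ hμ s0 hs F B1 B2 hB1 hB2 hF0 hF1 hF2
  have := hμ.fin
  have hm : 0 ≤ (μ univ).toReal := ENNReal.toReal_nonneg
  have hq : Real.sqrt (1 / 2) < 1 := by
    rw [Real.sqrt_lt' one_pos]; norm_num
  constructor
  · apply aux (A := Real.sqrt ((1 / s0) ^ (d - 1) * (μ univ).toReal)) (q := Real.sqrt (1 / 2))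
      hs hd hB1 hB2 (Real.sqrt_nonneg _) hq F (oC μ ρ s0) hF0 hF1 hF2
    · intro Q; exact Real.sqrt_nonneg _
    · intro Q
      refine le_trans ?_ (sqrt_le hs hd hm Q)
      unfold oC
      apply Real.sqrt_le_sqrt
      apply mul_le_mul_of_nonneg_left _ (nw_nonneg hs Q)
      exact ENNReal.toReal_mono (measure_ne_top μ _) (measure_mono (subset_univ _))
  · apply aux (A := Real.sqrt ((1 / s0) ^ (d - 1) * (μ univ).toReal)) (q := Real.sqrt (1 / 2))
      hs hd hB1 hB2 (Real.sqrt_nonneg _) hq F (omC μ s0) hF0 hF1 hF2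
    · intro Q; exact Real.sqrt_nonneg _
    · intro Q
      refine le_trans ?_ (sqrt_le hs hd hm Q)
      unfold omC vv
      apply Real.sqrt_le_sqrt
      exact th_le μ _ (lev_pos' hs _) _

end

end TG
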