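import Pool.Agent.TG.Conc
import Pool.Agent.TG.TH
import Pool.Agent.TG.SC
import Pool.Agent.TG.SE

/-!
# Trace inequality, general operators: module CT7, the weights om and oml
-/

open MeasureTheory Metric Set TrI
open scoped InnerProductSpace ContDiff ENNReal

namespace TG

noncomputable section

namespace CT7

variable {d : ℕ}

lemma lev_pos {s0 : ℝ} (hs : 0 < s0) (i : ℕ) : 0 < lev s0 i := by
  unfold lev; positivity

lemma th_harnack (hd : 1 ≤ d) (μ : Measure (Sp d)) [IsFiniteMeasure μ] {t : ℝ} (ht : 0 < t)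
    (x x' : Sp d) : th μ t x' ≤ (1 + ‖x - x'‖ / t) ^ d * th μ t x := by
  unfold th
  rw [← integral_const_mul]
  apply integral_mono (THm.kk_int hd μ ht x') ((THm.kk_int hd μ ht x).const_mul _)
  intro η
  have := THm.kk_harnack ht (x - η) (x' - η)
  have h2 : x - η - (x' - η) = x - x' := by abel
  rw [h2] at this
  exact this

lemma th_nonneg (μ : Measure (Sp d)) {t : ℝ} (ht : 0 < t) (x : Sp d) : 0 ≤ th μ t x :=
  integral_nonneg fun _ => THm.kk_nonneg ht _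

lemma kk_up {t : ℝ} (ht : 0 < t) (m : ℕ) (x : Sp d) : kk (t * 2 ^ m) x ≤ 2 ^ m * kk t x := by
  unfold kk
  have h1 : Real.sqrt (t ^ 2 + ‖x‖ ^ 2) ≤ Real.sqrt ((t * 2 ^ m) ^ 2 + ‖x‖ ^ 2) := by
    apply Real.sqrt_le_sqrt
    have h2 : t ≤ t * 2 ^ m := le_mul_of_one_le_right ht.le (one_le_pow₀ (by norm_num))
    gcongr
  have h3 : 0 < Real.sqrt (t ^ 2 + ‖x‖ ^ 2) := by positivity
  calc t * 2 ^ m / Real.sqrt ((t * 2 ^ m) ^ 2 + ‖x‖ ^ 2) ^ d
      ≤ t * 2 ^ m / Real.sqrt (t ^ 2 + ‖x‖ ^ 2) ^ d := by gcongr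
    _ = 2 ^ m * (t / Real.sqrt (t ^ 2 + ‖x‖ ^ 2) ^ d) := by ring

lemma kk_dn {t : ℝ} (ht : 0 < t) (m : ℕ) (x : Sp d) :
    kk t x ≤ (2 ^ m) ^ d * kk (t * 2 ^ m) x := by
  unfold kk
  have hm : (1 : ℝ) ≤ 2 ^ m := one_le_pow₀ (by norm_num)
  have h1 : Real.sqrt ((t * 2 ^ m) ^ 2 + ‖x‖ ^ 2) ≤ 2 ^ m * Real.sqrt (t ^ 2 + ‖x‖ ^ 2) := by
    rw [Real.sqrt_le_left (by positivity), mul_pow (2 ^ m : ℝ), Real.sq_sqrt (by positivity)]
    have h2 : ‖x‖ ^ 2 ≤ (2 ^ m) ^ 2 * ‖x‖ ^ 2 :=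
      le_mul_of_one_le_left (by positivity) (one_le_pow₀ hm)
    nlinarith
  have h3 : 0 < Real.sqrt (t ^ 2 + ‖x‖ ^ 2) := by positivity
  have h4 : 0 < Real.sqrt ((t * 2 ^ m) ^ 2 + ‖x‖ ^ 2) := by positivity
  have h5 : Real.sqrt ((t * 2 ^ m) ^ 2 + ‖x‖ ^ 2) ^ d ≤
      (2 ^ m) ^ d * Real.sqrt (t ^ 2 + ‖x‖ ^ 2) ^ d := by
    rw [← mul_pow]; gcongr
  rw [← mul_div_assoc, div_le_div_iff₀ (by positivity) (by positivity)]
  have h6 : t ≤ t * 2 ^ m := le_mul_of_one_le_right ht.le hm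
  calc t * Real.sqrt ((t * 2 ^ m) ^ 2 + ‖x‖ ^ 2) ^ d
      ≤ (t * 2 ^ m) * ((2 ^ m) ^ d * Real.sqrt (t ^ 2 + ‖x‖ ^ 2) ^ d) := by gcongr
    _ = (2 ^ m) ^ d * (t * 2 ^ m) * Real.sqrt (t ^ 2 + ‖x‖ ^ 2) ^ d := by ring

lemma th_up (hd : 1 ≤ d) (μ : Measure (Sp d)) [IsFiniteMeasure μ] {t : ℝ} (ht : 0 < t) (m : ℕ)
    (x : Sp d) : th μ (t * 2 ^ m) x ≤ 2 ^ m * th μ t x := by
  unfold th
  rw [← integral_const_mul]
  exact integral_mono (THm.kk_int hd μ (by positivity) x) ((THm.kk_int hd μ ht x).const_mul _)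
    fun η => kk_up ht m _

lemma th_dn (hd : 1 ≤ d) (μ : Measure (Sp d)) [IsFiniteMeasure μ] {t : ℝ} (ht : 0 < t) (m : ℕ)
    (x : Sp d) : th μ t x ≤ (2 ^ m) ^ d * th μ (t * 2 ^ m) x := by
  unfold th
  rw [← integral_const_mul]
  exact integral_mono (THm.kk_int hd μ ht x)
    ((THm.kk_int hd μ (t := t * 2 ^ m) (by positivity) x).const_mul _) fun η => kk_dn ht m _

/-- the mass of a ball is bounded by the potential -/
lemma ball_le_th (hd : 1 ≤ d) (μ : Measure (Sp d)) [IsFiniteMeasure μ] {t ρ : ℝ} (ht : 0 < t)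
    (hρ : 0 ≤ ρ) (x : Sp d) :
    t / t ^ d * (μ (ball x (ρ * t))).toReal ≤ (1 + ρ) ^ d * th μ t x := by
  have h1 : ∀ η ∈ ball x (ρ * t), t / t ^ d / (1 + ρ) ^ d ≤ kk t (x - η) := by
    intro η hη
    have h2 : ‖x - η‖ ≤ ρ * t := by
      rw [← dist_eq_norm]
      exact (mem_ball'.mp hη).le
    unfold kk
    rw [div_div, ← mul_pow]
    have h3 : Real.sqrt (t ^ 2 + ‖x - η‖ ^ 2) ≤ t * (1 + ρ) := by
      rw [Real.sqrt_le_left (by positivity)]
      have h4 : ‖x - η‖ ^ 2 ≤ (ρ * t) ^ 2 := by gcongr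
      nlinarith [mul_nonneg (mul_nonneg ht.le ht.le) hρ]
    have h5 : 0 < Real.sqrt (t ^ 2 + ‖x - η‖ ^ 2) := by positivity
    gcongr
  have h6 : ∫ η in ball x (ρ * t), (t / t ^ d / (1 + ρ) ^ d : ℝ) ∂μ ≤ th μ t x := by
    unfold th
    refine le_trans (setIntegral_mono_on (integrable_const _).integrableOn
      (THm.kk_int hd μ ht x).integrableOn measurableSet_ball h1) ?_
    exact setIntegral_le_integral (THm.kk_int hd μ ht x)
      (Filter.Eventually.of_forall fun η => THm.kk_nonneg ht _)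
  rw [setIntegral_const, smul_eq_mul, Measure.real] at h6
  have h7 : 0 < (1 + ρ) ^ d := by positivity
  calc t / t ^ d * (μ (ball x (ρ * t))).toReal
      = (1 + ρ) ^ d * ((μ (ball x (ρ * t))).toReal * (t / t ^ d / (1 + ρ) ^ d)) := by
        field_simp
    _ ≤ (1 + ρ) ^ d * th μ t x := by gcongr

lemma cut_nonneg (r : ℝ) : 0 ≤ cut r := by unfold cut; positivity

lemma cut_le (r : ℝ) : cut r ≤ 1 := by
  unfold cut
  exact pow_le_one₀ (Real.smoothTransition.nonneg _) (Real.smoothTransition.le_one _)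

lemma cut_zero {r : ℝ} (h : 1 ≤ r) : cut r = 0 := by
  unfold cut
  rw [Real.smoothTransition.zero_of_nonpos (by linarith)]
  norm_num

/-- near points: the potential is bounded by the mass of the ball -/
lemma th_le_ball (hd : 1 ≤ d) (μ : Measure (Sp d)) [IsFiniteMeasure μ] (hμ : μ ≠ 0) {t A p0 : ℝ}
    (ht : 0 < t) (hA : 0 < A) (hp : 0 < p0) (x : Sp d) (hq : p0 / 2 ≤ qq A μ t x) :
    th μ t x ≤ 2 / p0 * (t / t ^ d * (μ (ball x (A * t))).toReal) := by
  have hth := THm.th_pos hd μ hμ ht x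
  unfold qq at hq
  rw [le_div_iff₀ hth] at hq
  have h1 : ∫ η, cut (‖x - η‖ / (A * t)) * kk t (x - η) ∂μ ≤
      ∫ η in ball x (A * t), (t / t ^ d : ℝ) ∂μ := by
    rw [← integral_indicator measurableSet_ball]
    refine integral_mono_of_nonneg (Filter.Eventually.of_forall fun η =>
      mul_nonneg (cut_nonneg _) (THm.kk_nonneg ht _)) ?_ (Filter.Eventually.of_forall ?_)
    · exact (integrable_const _).indicator measurableSet_ball
    · intro η
      beta_reduce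
      by_cases hη : η ∈ ball x (A * t)
      · rw [indicator_of_mem hη]
        calc cut (‖x - η‖ / (A * t)) * kk t (x - η) ≤ 1 * (1 / t ^ (d - 1)) := by
              gcongr
              · exact THm.kk_nonneg ht _
              · exact cut_le _
              · exact THm.kk_le hd ht _
          _ = t / t ^ d := by
              obtain ⟨k, rfl⟩ : ∃ k, d = k + 1 := ⟨d - 1, by omega⟩
              rw [Nat.add_sub_cancel, pow_succ]
              field_simp
      · rw [indicator_of_notMem hη, cut_zero, zero_mul]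
        rw [mem_ball', dist_eq_norm, not_lt] at hη
        rwa [le_div_iff₀ (by positivity), one_mul]
  rw [setIntegral_const, smul_eq_mul, Measure.real] at h1
  have h2 : p0 / 2 * th μ t x ≤ (μ (ball x (A * t))).toReal * (t / t ^ d) := hq.trans h1
  calc th μ t x = 2 / p0 * (p0 / 2 * th μ t x) := by field_simp
    _ ≤ 2 / p0 * ((μ (ball x (A * t))).toReal * (t / t ^ d)) := by gcongr
    _ = _ := by ring

lemma ball_mono_toReal (μ : Measure (Sp d)) [IsFiniteMeasure μ] {x x' : Sp d} {r r' : ℝ}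
    (h : ‖x - x'‖ + r ≤ r') : (μ (ball x r)).toReal ≤ (μ (ball x' r')).toReal := by
  refine ENNReal.toReal_mono (measure_ne_top μ _) (measure_mono ?_)
  apply ball_subset_ball'
  rw [dist_eq_norm]
  linarith

end CT7

open CT7 in
theorem stmtCT7 : StmtCT7 := by
  intro d hd C' p0 A r hC' hp0 hp1 hA hr m
  have hd1 : 1 ≤ d := by omega
  obtain ⟨CT, hCT, hTH⟩ := stmtTH d 0 hd C' hC'
  set K1 : ℝ := Real.sqrt CT with hK1
  set K2 : ℝ := 2 ^ d with hK2
  set K3 : ℝ := Real.sqrt ((1 + r) ^ d * (2 ^ m) ^ d) with hK3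
  set K3' : ℝ := Real.sqrt ((1 + r) ^ d * 2 ^ m) with hK3'
  set K4 : ℝ := Real.sqrt ((1 + r) ^ d * (2 / p0)) with hK4
  set K5 : ℝ := Real.sqrt ((1 + r) ^ d * ((1 + r) ^ d * (2 / p0))) with hK5
  have k1 : 0 ≤ K1 := Real.sqrt_nonneg _
  have k2 : 0 < K2 := by positivity
  have k3 : 0 ≤ K3 := Real.sqrt_nonneg _
  have k3' : 0 ≤ K3' := Real.sqrt_nonneg _
  have k4 : 0 ≤ K4 := Real.sqrt_nonneg _
  have k5 : 0 ≤ K5 := Real.sqrt_nonneg _
  refine ⟨K1 + K2 + K3 + K3' + K4 + K5, by positivity, ?_⟩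
  intro μ hμ s0 hs0
  have hfin := hμ.fin
  obtain ⟨hT1, -⟩ := hTH μ hμ
  have hthp : ∀ Q : Cell d, 0 < th μ (lev s0 Q.1) (xC s0 Q) :=
    fun Q => THm.th_pos hd1 μ hμ.ne (lev_pos hs0 _) _
  have ho0 : ∀ Q : Cell d, 0 ≤ omC μ s0 Q := fun Q => Real.sqrt_nonneg _
  have hosq : ∀ Q : Cell d, omC μ s0 Q ^ 2 = th μ (lev s0 Q.1) (xC s0 Q) := by
    intro Q
    exact Real.sq_sqrt (hthp Q).le
  have hoC0 : ∀ (ρ : ℝ) (Q : Cell d), 0 ≤ oC μ ρ s0 Q := fun ρ Q => Real.sqrt_nonneg _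
  have hoCsq : ∀ (ρ : ℝ) (Q : Cell d), oC μ ρ s0 Q ^ 2 =
      lev s0 Q.1 / lev s0 Q.1 ^ d * (μ (ball (xC s0 Q) (ρ * lev s0 Q.1))).toReal := by
    intro ρ Q
    have := lev_pos hs0 Q.1
    exact Real.sq_sqrt (by unfold nw; positivity)
  -- comparison of square roots
  have hcmp : ∀ (a b K : ℝ), 0 ≤ a → 0 ≤ b → 0 ≤ K → a ^ 2 ≤ K * b ^ 2 →
      a ≤ Real.sqrt K * b := by
    intro a b K ha hb hK h
    calc a = Real.sqrt (a ^ 2) := (Real.sqrt_sq ha).symm
      _ ≤ Real.sqrt (K * b ^ 2) := Real.sqrt_le_sqrt h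
      _ = Real.sqrt K * b := by rw [Real.sqrt_mul hK, Real.sqrt_sq hb]
  have hharn : ∀ Q Q' : Cell d, Q'.1 = Q.1 → ‖xC s0 Q' - xC s0 Q‖ ≤ r * lev s0 Q'.1 →
      th μ (lev s0 Q.1) (xC s0 Q') ≤ (1 + r) ^ d * th μ (lev s0 Q.1) (xC s0 Q) := by
    intro Q Q' h1 h2
    have h3 := lev_pos hs0 Q.1
    refine (th_harnack hd1 μ h3 (xC s0 Q) (xC s0 Q')).trans ?_
    have h4 : ‖xC s0 Q - xC s0 Q'‖ / lev s0 Q.1 ≤ r := by
      rw [div_le_iff₀ h3, norm_sub_rev, ← h1]
      exact h2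
    have := (hthp Q).le
    gcongr
  refine ⟨?_, ?_, ?_, ?_⟩
  · intro Q
    have hl := lev_pos hs0 Q.1
    refine ⟨Real.sqrt_pos.mpr (hthp Q), ?_, ?_, ?_⟩
    · have h1 : omC μ s0 Q ≤ K1 := by
        have := (hT1 (lev s0 Q.1) (xC s0 Q) hl).2
        exact Real.sqrt_le_sqrt this
      linarith
    · unfold muQ omC
      rw [SC.vv_rsm _ hl, mul_one, smul_zero, add_zero]
    · exact SC.gro_rsm hd1 hμ _ hl
  · intro Q ρ hρ
    have hl := lev_pos hs0 Q.1
    rw [hoCsq, hosq]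
    refine (ball_le_th hd1 μ hl (by linarith) (xC s0 Q)).trans ?_
    have h0 := (hthp Q).le
    have h1 : (1 + ρ) ^ d ≤ (K1 + K2 + K3 + K3' + K4 + K5) * ρ ^ (d + 1) := by
      calc (1 + ρ) ^ d ≤ (2 * ρ) ^ d := by gcongr; linarith
        _ = K2 * ρ ^ d := by rw [mul_pow]
        _ ≤ (K1 + K2 + K3 + K3' + K4 + K5) * ρ ^ (d + 1) := by
            gcongr
            · linarith
            · omega
    gcongr
  · intro Q Q' h1 h2
    have hl := lev_pos hs0 Q.1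
    have hl' := lev_pos hs0 Q'.1
    have hlev : lev s0 Q'.1 = lev s0 Q.1 * 2 ^ m := by
      rw [h1]; unfold lev; rw [pow_add]; ring
    have h3 : th μ (lev s0 Q'.1) (xC s0 Q') ≤
        (1 + r) ^ d * th μ (lev s0 Q'.1) (xC s0 Q) := by
      refine (th_harnack hd1 μ hl' (xC s0 Q) (xC s0 Q')).trans ?_
      have h4 : ‖xC s0 Q - xC s0 Q'‖ / lev s0 Q'.1 ≤ r := by
        rw [div_le_iff₀ hl', norm_sub_rev]
        exact h2
      have := th_nonneg μ hl' (xC s0 Q)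
      gcongr
    have h3' : th μ (lev s0 Q'.1) (xC s0 Q) ≤
        (1 + r) ^ d * th μ (lev s0 Q'.1) (xC s0 Q') := by
      refine (th_harnack hd1 μ hl' (xC s0 Q') (xC s0 Q)).trans ?_
      have h4 : ‖xC s0 Q' - xC s0 Q‖ / lev s0 Q'.1 ≤ r := by
        rw [div_le_iff₀ hl']
        exact h2
      have := th_nonneg μ hl' (xC s0 Q')
      gcongr
    have h5 := th_up hd1 μ hl m (xC s0 Q)
    have h6 := th_dn hd1 μ hl m (xC s0 Q)
    rw [← hlev] at h5 h6
    constructor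
    · have h7 : omC μ s0 Q' ≤ K3' * omC μ s0 Q := by
        apply hcmp _ _ _ (ho0 Q') (ho0 Q) (by positivity)
        rw [hosq, hosq, mul_assoc]
        exact h3.trans (by gcongr)
      refine h7.trans ?_
      have := ho0 Q
      gcongr
      linarith
    · have h7 : omC μ s0 Q ≤ K3 * omC μ s0 Q' := by
        apply hcmp _ _ _ (ho0 Q) (ho0 Q') (by positivity)
        rw [hosq, hosq]
        calc th μ (lev s0 Q.1) (xC s0 Q) ≤ (2 ^ m) ^ d * th μ (lev s0 Q'.1) (xC s0 Q) := h6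
          _ ≤ (2 ^ m) ^ d * ((1 + r) ^ d * th μ (lev s0 Q'.1) (xC s0 Q')) := by gcongr
          _ = _ := by ring
      refine h7.trans ?_
      have := ho0 Q'
      gcongr
      linarith
  · intro Q Q' h1 h2 y hy hq
    have hl := lev_pos hs0 Q.1
    have hll : lev s0 Q'.1 = lev s0 Q.1 := by rw [h1]
    unfold muQ at hq
    rw [SE.qq_rsm A _ hl, mul_one] at hq
    set t := lev s0 Q.1 with ht
    set x := xC s0 Q with hx
    set x' := xC s0 Q' with hx'
    have h3 := th_le_ball hd1 μ hμ.ne hl (by linarith) hp0 (x + t • y) hq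
    have hny : ‖x + t • y - x‖ = t * ‖y‖ := by
      rw [add_sub_cancel_left, norm_smul, Real.norm_of_nonneg hl.le]
    have h4 : th μ t x ≤ (1 + r) ^ d * th μ t (x + t • y) := by
      refine (th_harnack hd1 μ hl (x + t • y) x).trans ?_
      have h5 : ‖x + t • y - x‖ / t ≤ r := by
        rw [div_le_iff₀ hl, hny, mul_comm]
        gcongr
      have := th_nonneg μ hl (x + t • y)
      gcongr
    have h6 : (μ (ball (x + t • y) (A * t))).toReal ≤ (μ (ball x ((A + r) * t))).toReal := by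
      apply ball_mono_toReal
      rw [hny]
      nlinarith
    have h7 : th μ t x ≤ (1 + r) ^ d * (2 / p0) * (oC μ (A + r) s0 Q) ^ 2 := by
      rw [hoCsq]
      calc th μ t x ≤ (1 + r) ^ d * (2 / p0 * (t / t ^ d *
            (μ (ball (x + t • y) (A * t))).toReal)) := h4.trans (by gcongr)
        _ ≤ (1 + r) ^ d * (2 / p0 * (t / t ^ d *
            (μ (ball x ((A + r) * t))).toReal)) := by gcongr
        _ = _ := by ring
    constructor
    · have h8 : omC μ s0 Q ≤ K4 * oC μ (A + r) s0 Q := by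
        apply hcmp _ _ _ (ho0 Q) (hoC0 _ Q) (by positivity)
        rw [hosq]
        exact h7
      refine h8.trans ?_
      have := hoC0 (A + r) Q
      gcongr
      linarith
    · have h9 : oC μ (A + r) s0 Q ^ 2 ≤ oC μ (A + 2 * r) s0 Q' ^ 2 := by
        rw [hoCsq, hoCsq, hll]
        have h10 : (μ (ball x ((A + r) * t))).toReal ≤
            (μ (ball x' ((A + 2 * r) * t))).toReal := by
          apply ball_mono_toReal
          rw [norm_sub_rev]
          have h11 : ‖x' - x‖ ≤ r * t := by rw [← hll]; exact h2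
          linarith
        gcongr
      have h8 : omC μ s0 Q' ≤ K5 * oC μ (A + 2 * r) s0 Q' := by
        apply hcmp _ _ _ (ho0 Q') (hoC0 _ Q') (by positivity)
        rw [hosq, hll]
        calc th μ t x' ≤ (1 + r) ^ d * th μ t x := hharn Q Q' h1 h2
          _ ≤ (1 + r) ^ d * ((1 + r) ^ d * (2 / p0) * oC μ (A + r) s0 Q ^ 2) := by gcongr
          _ ≤ (1 + r) ^ d * ((1 + r) ^ d * (2 / p0) * oC μ (A + 2 * r) s0 Q' ^ 2) := by gcongr
          _ = _ := by ring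
      refine h8.trans ?_
      have := hoC0 (A + 2 * r) Q'
      gcongr
      linarith

end

end TG
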