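import Pool.Agent.TG.Conc
import Pool.Agent.TG.Mass
import Pool.Agent.TG.SC
import Pool.Agent.TG.TFU

/-!
# MODULE CT8: Lemma Z and the growth of the mass in the frame of a cell
-/

open MeasureTheory Metric Set TrI
open scoped InnerProductSpace ContDiff ENNReal

namespace TG

noncomputable section

namespace CT8

variable {d : ℕ} {E : Type} [NormedAddCommGroup E] [InnerProductSpace ℝ E]

/-! ## scaling (any dimension) -/

lemma ma_rs (b : Sp d → ℝ) (ε : ℝ) (f : Sp d → E) (s0 : ℝ) (x : Sp d) {t : ℝ} (ht : 0 < t)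
    (R : ℝ) (i : ℕ) (y : Sp d) :
    ma b ε R (s0 / t) (rs x t f) i y = ma b ε R s0 f i (x + t • y) := by
  unfold ma
  simp_rw [SC.fl_rs b ε s0 x ht f, norm_smul, Real.norm_of_nonneg ht.le]
  rw [integral_const_mul, SC.lev_div, ← mul_div_assoc,
    SC.ball_scale x ht (fun z => ‖fl b ε s0 f (i - 1) z‖), div_pow]
  field_simp

lemma DD_rs (b : Sp d → ℝ) (ε : ℝ) (f : Sp d → E) (s0 : ℝ) (x : Sp d) {t : ℝ} (ht : 0 < t)
    (R : ℝ) (i : ℕ) (y : Sp d) (e : E) :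
    DD b ε R (s0 / t) (rs x t f) i y e = DD b ε R s0 f i (x + t • y) e := by
  have hfl := fun i y => SC.fl_rs b ε s0 x ht f i y
  unfold DD
  have h1 : ∀ l, ∫ z in ball y (R * lev (s0 / t) i), (‖fl b ε (s0 / t) (rs x t f) l z‖
      - ⟪fl b ε (s0 / t) (rs x t f) l z, e⟫_ℝ) = t / t ^ d *
      ∫ z in ball (x + t • y) (R * lev s0 i), (‖fl b ε s0 f l z‖ - ⟪fl b ε s0 f l z, e⟫_ℝ) := by
    intro l
    simp_rw [hfl, norm_smul, real_inner_smul_left, Real.norm_of_nonneg ht.le, ← mul_sub]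
    rw [integral_const_mul, SC.lev_div, ← mul_div_assoc,
      SC.ball_scale x ht (fun z => ‖fl b ε s0 f l z‖ - ⟪fl b ε s0 f l z, e⟫_ℝ)]
    ring
  have h2 : ∫ z in ball y (R * lev (s0 / t) i), ‖rs x t f z‖ = t / t ^ d *
      ∫ z in ball (x + t • y) (R * lev s0 i), ‖f z‖ := by
    unfold rs
    simp_rw [norm_smul, Real.norm_of_nonneg ht.le]
    rw [integral_const_mul, SC.lev_div, ← mul_div_assoc, SC.ball_scale x ht (fun z => ‖f z‖)]
    ring
  simp_rw [h1]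
  rw [h2, SC.lev_div]
  have h3 : ∀ l, (1 / 4 : ℝ) ^ (i - l) * (t / t ^ d *
      ∫ z in ball (x + t • y) (R * lev s0 i), (‖fl b ε s0 f l z‖ - ⟪fl b ε s0 f l z, e⟫_ℝ)) =
      t / t ^ d * ((1 / 4 : ℝ) ^ (i - l) *
      ∫ z in ball (x + t • y) (R * lev s0 i), (‖fl b ε s0 f l z‖ - ⟪fl b ε s0 f l z, e⟫_ℝ)) := by
    intro l
    ring
  simp_rw [h3]
  rw [← Finset.mul_sum, mul_left_comm _ (t / t ^ d), ← mul_add, ← mul_assoc, div_pow]
  congr 1
  field_simp

lemma rs_cont {f : Sp d → E} (hf : Continuous f) (x : Sp d) (t : ℝ) : Continuous (rs x t f) := by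
  unfold rs
  exact continuous_const.smul (hf.comp (by fun_prop))

lemma rs_cs {f : Sp d → E} (hf : HasCompactSupport f) (x : Sp d) {t : ℝ} (ht : 0 < t) :
    HasCompactSupport (rs x t f) := by
  have h1 : HasCompactSupport (fun y => f (x + t • y)) :=
    hf.comp_homeomorph ((Homeomorph.smulOfNeZero t ht.ne').trans (Homeomorph.addLeft x))
  exact h1.smul_left (f := fun _ => t)

/-! ## frames of cells -/

lemma lev_pos {s0 : ℝ} (h : 0 < s0) (i : ℕ) : 0 < lev s0 i := by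
  unfold lev
  positivity

/-- the field in the frame of a cell -/
def fQ (s0 : ℝ) (f : Sp d → E) (Q : Cell d) : Sp d → E := rs (xC s0 Q) (lev s0 Q.1) f

lemma s0_div {s0 : ℝ} (h : 0 < s0) (i : ℕ) : s0 / lev s0 i = (1 / 2) ^ i := by
  unfold lev
  rw [one_div, inv_pow]
  field_simp

lemma ma_fQ (b : Sp d → ℝ) (ε : ℝ) (f : Sp d → E) {s0 : ℝ} (h : 0 < s0) (R : ℝ) (Q : Cell d) :
    ma b ε R ((1 / 2) ^ Q.1) (fQ s0 f Q) Q.1 0 = mC b ε R s0 f Q := by
  have h1 := ma_rs b ε f s0 (xC s0 Q) (lev_pos h Q.1) R Q.1 0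
  rw [s0_div h, smul_zero, add_zero] at h1
  exact h1

lemma DD_fQ (b : Sp d → ℝ) (ε : ℝ) (f : Sp d → E) {s0 : ℝ} (h : 0 < s0) (R : ℝ) (Q : Cell d)
    (e : E) :
    DD b ε R ((1 / 2) ^ Q.1) (fQ s0 f Q) Q.1 0 e = DD b ε R s0 f Q.1 (xC s0 Q) e := by
  have h1 := DD_rs b ε f s0 (xC s0 Q) (lev_pos h Q.1) R Q.1 0 e
  rw [s0_div h, smul_zero, add_zero] at h1
  exact h1

lemma ma_unit (b : Sp d → ℝ) (ε R : ℝ) (f : Sp d → E) (n : ℕ) (x : Sp d) :
    ma b ε R ((1 / 2) ^ n) f n x = ∫ y in ball x R, ‖fl b ε ((1 / 2) ^ n) f (n - 1) y‖ := by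
  unfold ma
  have h1 : lev ((1 / 2 : ℝ) ^ n) n = 1 := by
    unfold lev
    rw [← mul_pow]
    norm_num
  rw [h1]
  simp

lemma up_dist {s0 : ℝ} (h : 0 < s0) (l : ℕ) (Q : Cell d) :
    ‖xC s0 (up l Q) - xC s0 Q‖ ≤ Real.sqrt d * lev s0 (Q.1 + l) := by
  have h1 : ∀ j : Fin d, |(xC s0 (up l Q) - xC s0 Q) j| ≤ lev s0 (Q.1 + l) := by
    intro j
    have e1 : (xC s0 (up l Q) - xC s0 Q) j =
        lev s0 (Q.1 + l) * ((Q.2 j / 2 ^ l : ℤ) : ℝ) - lev s0 Q.1 * (Q.2 j : ℝ) := rfl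
    have e2 : lev s0 (Q.1 + l) = lev s0 Q.1 * 2 ^ l := by
      unfold lev
      rw [pow_add]
      ring
    have e3 := Int.emod_add_mul_ediv (Q.2 j) (2 ^ l)
    have e4 := Int.emod_nonneg (Q.2 j) (b := 2 ^ l) (by positivity)
    have e5 := Int.emod_lt_of_pos (Q.2 j) (b := 2 ^ l) (by positivity)
    have e6 : (Q.2 j : ℝ) = ((Q.2 j % 2 ^ l : ℤ) : ℝ) + 2 ^ l * ((Q.2 j / 2 ^ l : ℤ) : ℝ) := by
      exact_mod_cast e3.symm
    have e7 : (0 : ℝ) ≤ ((Q.2 j % 2 ^ l : ℤ) : ℝ) := by exact_mod_cast e4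
    have e8 : ((Q.2 j % 2 ^ l : ℤ) : ℝ) < 2 ^ l := by exact_mod_cast e5
    have e9 := lev_pos h Q.1
    rw [e1, e2]
    have e10 : lev s0 Q.1 * 2 ^ l * ((Q.2 j / 2 ^ l : ℤ) : ℝ) - lev s0 Q.1 * (Q.2 j : ℝ) =
        -(lev s0 Q.1 * ((Q.2 j % 2 ^ l : ℤ) : ℝ)) := by
      rw [e6]
      ring
    rw [e10, abs_neg, abs_of_nonneg (by positivity)]
    exact mul_le_mul_of_nonneg_left e8.le e9.le
  have hl := lev_pos h (Q.1 + l)
  have h2 : ‖xC s0 (up l Q) - xC s0 Q‖ ^ 2 ≤ (Real.sqrt d * lev s0 (Q.1 + l)) ^ 2 := by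
    rw [EuclideanSpace.norm_sq_eq, mul_pow, Real.sq_sqrt (by positivity)]
    calc ∑ j : Fin d, ‖(xC s0 (up l Q) - xC s0 Q) j‖ ^ 2
        ≤ ∑ j : Fin d, lev s0 (Q.1 + l) ^ 2 := by
          refine Finset.sum_le_sum fun j _ => ?_
          rw [Real.norm_eq_abs]
          exact pow_le_pow_left₀ (abs_nonneg _) (h1 j) 2
      _ = _ := by simp
  exact (sq_le_sq₀ (norm_nonneg _) (by positivity)).1 h2

variable [FiniteDimensional ℝ E]

omit [FiniteDimensional ℝ E] in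
lemma aux {p A : ℝ} (hp : 0 < p) (hA : 0 < A) (k : ℕ) :
    p / p ^ (k + 1) = A ^ k * (A * p * (1 / (A * p) ^ (k + 1))) := by
  rw [mul_pow, pow_succ, pow_succ]
  field_simp

omit [FiniteDimensional ℝ E] in
/-- mass of a ball against the tailed mass -/
lemma mC_le_mT {b : Sp d → ℝ} (hb : AK b) (ε : ℝ) {f : Sp d → E} (hf : Continuous f)
    (hc : HasCompactSupport f) {s0 : ℝ} (h : 0 < s0) {R : ℝ} (hR : 0 ≤ R) (Q : Cell d) :
    mC b ε R s0 f Q ≤ (1 + R) ^ (d + 2) * mT b ε s0 f Q := by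
  have hl := lev_pos h Q.1
  have hnw : 0 ≤ nw s0 Q := by unfold nw; positivity
  unfold mC ma mT
  change nw s0 Q * _ ≤ _
  rw [mul_left_comm]
  refine mul_le_mul_of_nonneg_left ?_ hnw
  rw [← integral_const_mul, ← integral_indicator measurableSet_ball]
  have hfc : Continuous (fl b ε s0 f (Q.1 - 1)) := fl_cont hb ε s0 hf _
  have hfs : HasCompactSupport (fl b ε s0 f (Q.1 - 1)) := fl_cs hb ε s0 hc _
  have hw : Continuous (fun y => ‖fl b ε s0 f (Q.1 - 1) y‖ /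
      (1 + ‖y - xC s0 Q‖ / lev s0 Q.1) ^ (d + 2)) :=
    hfc.norm.div (by fun_prop) (fun y => by positivity)
  have hws : HasCompactSupport (fun y => ‖fl b ε s0 f (Q.1 - 1) y‖ /
      (1 + ‖y - xC s0 Q‖ / lev s0 Q.1) ^ (d + 2)) := by
    simp_rw [div_eq_mul_inv]
    exact hfs.norm.mul_right
  refine integral_mono
    ((hfc.norm.integrable_of_hasCompactSupport hfs.norm).indicator measurableSet_ball)
    ((hw.integrable_of_hasCompactSupport hws).const_mul _) fun y => ?_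
  by_cases hy : y ∈ ball (xC s0 Q) (R * lev s0 Q.1)
  · rw [indicator_of_mem hy]
    rw [mem_ball, dist_eq_norm] at hy
    have h1 : 1 + ‖y - xC s0 Q‖ / lev s0 Q.1 ≤ 1 + R := by
      have : ‖y - xC s0 Q‖ / lev s0 Q.1 ≤ R := by
        rw [div_le_iff₀ hl]
        exact hy.le
      linarith
    have h2 : (1 + ‖y - xC s0 Q‖ / lev s0 Q.1) ^ (d + 2) ≤ (1 + R) ^ (d + 2) :=
      pow_le_pow_left₀ (by positivity) h1 _
    simp only
    rw [← mul_div_assoc, le_div_iff₀ (by positivity), mul_comm]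
    exact mul_le_mul_of_nonneg_right h2 (norm_nonneg _)
  · rw [indicator_of_notMem hy]
    positivity

/-- transfer of the mass of a cell to an ancestor -/
lemma mass_up (hd : 1 ≤ d) {b : Sp d → ℝ} (hb : AK b) (hev : ∀ x, b (-x) = b x)
    (hρ : ∀ x, 1 / 2 ≤ ‖x‖ → b x = 0) {ε : ℝ} (hε : 0 < ε) (hε1 : ε ≤ 1) {R : ℝ}
    (hR : 2 * (d : ℝ) + 10 ≤ R) {f : Sp d → E} (hf : Continuous f)
    (hc : HasCompactSupport f) {s0 : ℝ} (h : 0 < s0) (l : ℕ) (Q : Cell d) {e : E}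
    (he : ‖e‖ = 1) :
    mC b ε (2 ^ l) s0 f Q ≤ (3 + Real.sqrt d) ^ (d + 2) * 2 ^ (l * (d - 1)) *
      mT b ε s0 f (up l Q) + 2 ^ (l * (d - 1)) * 4 ^ (l + 1) *
        DD b ε R s0 f (up l Q).1 (xC s0 (up l Q)) e := by
  set P := up l Q with hP
  have hP1 : P.1 = Q.1 + l := rfl
  set t := lev s0 P.1 with ht
  have htp : 0 < t := lev_pos h _
  set f' := fQ s0 f P with hf'
  have hfc' : Continuous f' := rs_cont hf _ _
  have hfs' : HasCompactSupport f' := rs_cs hc _ htp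
  set s1 : ℝ := (1 / 2) ^ P.1 with hs1
  have hs1p : 0 < s1 := by positivity
  set y0 : Sp d := (1 / t) • (xC s0 Q - xC s0 P) with hy0
  have hy0n : ‖y0‖ ≤ Real.sqrt d := by
    rw [hy0, norm_smul, Real.norm_of_nonneg (by positivity), norm_sub_rev, one_div,
      inv_mul_le_iff₀ htp, mul_comm]
    exact up_dist h l Q
  have hsd : Real.sqrt d ≤ d := by
    rw [Real.sqrt_le_left (by positivity)]
    have : (1 : ℝ) ≤ d := by exact_mod_cast hd
    nlinarith
  have hd1 : (1 : ℝ) ≤ d := by exact_mod_cast hd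
  have hxq : xC s0 P + t • y0 = xC s0 Q := by
    rw [hy0, smul_smul, mul_one_div_cancel htp.ne', one_smul]
    abel
  have hlevN : lev s1 (P.1 - 1) - lev s1 (Q.1 - 1) ≤ 1 / 2 := by
    have h2 := MA.lev_unit P.1
    have h3 := lev_pos hs1p (Q.1 - 1)
    by_cases hP0 : P.1 = 0
    · have hQ0 : Q.1 = 0 := by omega
      rw [hP0, hQ0]
      simp
    · have h4 : lev s1 P.1 = 2 * lev s1 (P.1 - 1) := by
        unfold lev
        conv_lhs => rw [show P.1 = (P.1 - 1) + 1 by omega, pow_succ]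
        ring
      rw [h2] at h4
      linarith
  have hlevN1 : lev s1 (P.1 - 1) ≤ 1 := by
    have h2 := MA.lev_unit P.1
    rw [← h2]
    exact MA.lev_le_lev hs1p (Nat.sub_le _ _)
  -- transfer in the frame of P
  have htr := MA.transfer hb hev hρ hε hε1 hs1p hfc' hfs' he (x := 0) (R := R)
    (U := ball y0 1) (fun y hy => by
      rw [mem_ball, dist_eq_norm] at hy
      have h2 : ‖y‖ ≤ ‖y - y0‖ + ‖y0‖ := by
        have := norm_add_le (y - y0) y0
        rwa [sub_add_cancel] at this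
      rw [sub_zero]
      linarith) (N := P.1 - 1) hlevN1 (P.1 - 1 - (Q.1 - 1)) (Q.1 - 1) (1 / 4) (by omega)
    (by norm_num) (by linarith)
  have hint : ∀ i, Integrable (fun y => ‖fl b ε s1 f' i y‖) := fun i =>
    (fl_cont hb ε s1 hfc' i).norm.integrable_of_hasCompactSupport (fl_cs hb ε s1 hfs' i).norm
  have a1 : ∫ y in ball y0 1, ‖fl b ε s1 f' (Q.1 - 1) y‖ ≤
      ∫ y in thickening (1 / 4) (ball y0 1), ‖fl b ε s1 f' (Q.1 - 1) y‖ :=
    setIntegral_mono_set (hint _).integrableOn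
      (Filter.Eventually.of_forall fun y => norm_nonneg _)
      (self_subset_thickening (by norm_num) _).eventuallyLE
  have a2 : ∫ y in thickening (1 / 4 + (lev s1 (P.1 - 1) - lev s1 (Q.1 - 1))) (ball y0 1),
      ‖fl b ε s1 f' (P.1 - 1) y‖ ≤ ∫ y in ball 0 (2 + Real.sqrt d), ‖fl b ε s1 f' (P.1 - 1) y‖ := by
    have hsub : thickening (1 / 4 + (lev s1 (P.1 - 1) - lev s1 (Q.1 - 1))) (ball y0 1) ⊆
        ball 0 (2 + Real.sqrt d) := ?_
    · exact setIntegral_mono_set (hint _).integrableOn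
        (Filter.Eventually.of_forall fun y => norm_nonneg _) hsub.eventuallyLE
    intro y hy
    rw [mem_thickening_iff] at hy
    obtain ⟨w, hw, hyw⟩ := hy
    rw [mem_ball, dist_zero_right]
    rw [mem_ball, dist_eq_norm] at hw
    rw [dist_eq_norm] at hyw
    have h2 : ‖y‖ ≤ ‖y - w‖ + ‖w - y0‖ + ‖y0‖ := by
      have e1 : y = (y - w) + (w - y0) + y0 := by abel
      calc ‖y‖ = ‖(y - w) + (w - y0) + y0‖ := by rw [← e1]
        _ ≤ ‖(y - w) + (w - y0)‖ + ‖y0‖ := norm_add_le _ _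
        _ ≤ _ := by linarith [norm_add_le (y - w) (w - y0)]
    linarith
  have a3 : ∑ j ∈ Finset.Ico (Q.1 - 1) (P.1 - 1), ∫ y in ball 0 R,
      MA.dfn (fl b ε s1 f' j) e y ≤ 4 ^ (l + 1) * DD b ε R s1 f' P.1 0 e := by
    have h2 := MA.DD_ge b ε R f' 0 he (n := P.1) (N := P.1 + 1) le_rfl
    have h3 : ∀ j, 0 ≤ ∫ y in ball (0 : Sp d) R, MA.dfn (fl b ε s1 f' j) e y := fun j =>
      integral_nonneg fun _ => MA.dfn_nonneg he _ _
    calc ∑ j ∈ Finset.Ico (Q.1 - 1) (P.1 - 1), ∫ y in ball 0 R, MA.dfn (fl b ε s1 f' j) e y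
        ≤ ∑ j ∈ Finset.Ico (Q.1 - 1) (P.1 - 1), 4 ^ (l + 1) * ((1 / 4 : ℝ) ^ (P.1 - j) *
            ∫ y in ball 0 R, MA.dfn (fl b ε s1 f' j) e y) := by
          refine Finset.sum_le_sum fun j hj => ?_
          have hj' := Finset.mem_Ico.1 hj
          have h4 : P.1 - j ≤ l + 1 := by omega
          have h5 : (1 : ℝ) ≤ 4 ^ (l + 1) * (1 / 4 : ℝ) ^ (P.1 - j) := by
            have h6 : (1 / 4 : ℝ) ^ (l + 1) ≤ (1 / 4 : ℝ) ^ (P.1 - j) :=
              pow_le_pow_of_le_one (by norm_num) (by norm_num) h4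
            calc (1 : ℝ) = 4 ^ (l + 1) * (1 / 4 : ℝ) ^ (l + 1) := by
                  rw [← mul_pow]; norm_num
              _ ≤ _ := mul_le_mul_of_nonneg_left h6 (by positivity)
          rw [← mul_assoc]
          exact le_mul_of_one_le_left (h3 j) h5
      _ ≤ ∑ j ∈ Finset.range (P.1 + 1), 4 ^ (l + 1) * ((1 / 4 : ℝ) ^ (P.1 - j) *
            ∫ y in ball 0 R, MA.dfn (fl b ε s1 f' j) e y) := by
          refine Finset.sum_le_sum_of_subset_of_nonneg (fun j hj => ?_) (fun j _ _ => ?_)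
          · have hj' := Finset.mem_Ico.1 hj
            exact Finset.mem_range.2 (by omega)
          · have := h3 j
            positivity
      _ ≤ _ := by
          rw [← Finset.mul_sum]
          exact mul_le_mul_of_nonneg_left h2 (by positivity)
  have a4 : ∫ y in ball 0 (2 + Real.sqrt d), ‖fl b ε s1 f' (P.1 - 1) y‖ ≤
      (3 + Real.sqrt d) ^ (d + 2) * mT b ε s0 f P := by
    rw [← ma_unit, ma_fQ b ε f h]
    have h2 := mC_le_mT hb ε hf hc h (R := 2 + Real.sqrt d) (by positivity) P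
    have h3 : 1 + (2 + Real.sqrt d) = 3 + Real.sqrt d := by ring
    rwa [h3] at h2
  have a5 : mC b ε (2 ^ l) s0 f Q = 2 ^ (l * (d - 1)) *
      ∫ y in ball y0 1, ‖fl b ε s1 f' (Q.1 - 1) y‖ := by
    have hs : s1 = s0 / t := (s0_div h _).symm
    have h2 : ∀ z, ‖fl b ε s1 f' (Q.1 - 1) z‖ =
        t * ‖fl b ε s0 f (Q.1 - 1) (xC s0 P + t • z)‖ := fun z => by
      rw [hs, hf']
      unfold fQ
      rw [← ht, SC.fl_rs b ε s0 (xC s0 P) htp f, norm_smul, Real.norm_of_nonneg htp.le]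
    simp_rw [h2]
    have h3 := SC.ball_scale (xC s0 P) htp (fun z => ‖fl b ε s0 f (Q.1 - 1) z‖) y0 t
    rw [div_self htp.ne', hxq] at h3
    rw [integral_const_mul, h3]
    unfold mC ma
    have h4 : (2 : ℝ) ^ l * lev s0 Q.1 = t := by
      rw [ht, hP1]
      unfold lev
      rw [pow_add]
      ring
    rw [h4]
    have hq := lev_pos h Q.1
    have h5 : lev s0 Q.1 / lev s0 Q.1 ^ d = 2 ^ (l * (d - 1)) * (t * (1 / t ^ d)) := by
      rw [← h4]
      have h6 := aux hq (show (0 : ℝ) < 2 ^ l by positivity) (d - 1)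
      rw [Nat.sub_add_cancel hd, ← pow_mul] at h6
      exact h6
    rw [h5]
    ring
  have hDD : DD b ε R s1 f' P.1 0 e = DD b ε R s0 f P.1 (xC s0 P) e := DD_fQ b ε f h R P e
  rw [hDD] at a3
  rw [a5]
  have a6 : ∫ y in ball y0 1, ‖fl b ε s1 f' (Q.1 - 1) y‖ ≤
      (3 + Real.sqrt d) ^ (d + 2) * mT b ε s0 f P +
        4 ^ (l + 1) * DD b ε R s0 f P.1 (xC s0 P) e := by
    linarith
  refine (mul_le_mul_of_nonneg_left a6 (by positivity)).trans (le_of_eq ?_)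
  ring

end CT8

theorem stmtCT8 (hZ : StmtZ) (hMA : StmtMA) : StmtCT8 := by
  intro d hd M c0 ε hε hε1 b hb
  obtain ⟨CZ, hCZ, hz⟩ := hZ d hd M c0 ε hε hε1 b hb
  obtain ⟨CM, hCM, hm⟩ := hMA d hd M c0 ε hε hε1 b hb
  obtain ⟨CN, hCN, hn⟩ := TU.MA' hMA hd hε hε1 hb
  have hak := hb.ak
  have hev : ∀ x, b (-x) = b x := fun x =>
    le_antisymm (hb.mono _ _ (by rw [norm_neg])) (hb.mono _ _ (by rw [norm_neg]))
  set S : ℝ := (3 + Real.sqrt d) ^ (d + 2) with hS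
  have hSp : 0 < S := by positivity
  have hd1 : (1 : ℝ) ≤ d := by exact_mod_cast hd
  refine ⟨CZ + S + CM * S * 4 ^ d + CN, by positivity, fun l => ?_⟩
  set T : ℕ → ℝ := fun i => 2 ^ (i * (d - 1)) * 4 ^ (i + 1) with hT
  have hTp : ∀ i, 0 < T i := fun i => by rw [hT]; positivity
  have hTm : ∀ i, i ≤ l + 1 → T i ≤ T (l + 1) := fun i hi => by
    rw [hT]
    simp only
    gcongr
    · norm_num
    · norm_num
  refine ⟨T (l + 1) + CM * (T (l + 1) + 1), by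
    have := hTp (l + 1)
    positivity, ?_⟩
  have hTl := hTp (l + 1)
  intro E _ _ _ R hR1 hR2 f hf hc s0 hs0 e he
  have hu := he.unit
  have hcont : ∀ Q : Cell d, Continuous (CT8.fQ s0 f Q) := fun Q => CT8.rs_cont hf _ _
  have hcs : ∀ Q : Cell d, HasCompactSupport (CT8.fQ s0 f Q) := fun Q =>
    CT8.rs_cs hc _ (CT8.lev_pos hs0 _)
  have hDD : ∀ Q : Cell d, DD b ε R ((1 / 2) ^ Q.1) (CT8.fQ s0 f Q) Q.1 0 (e Q) =
      dC b ε R s0 f e Q := fun Q => CT8.DD_fQ b ε f hs0 R Q (e Q)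
  have hDn : ∀ Q : Cell d, 0 ≤ dC b ε R s0 f e Q := fun Q => by
    rw [← hDD]
    exact TU.DD_nonneg b ε R (by positivity) _ _ _ (hu Q)
  have hmT : ∀ Q : Cell d, 0 ≤ mT b ε s0 f Q := fun Q => by
    unfold mT nw
    have := CT8.lev_pos hs0 Q.1
    exact mul_nonneg (by positivity) (integral_nonneg fun y => by positivity)
  have hup : ∀ (i : ℕ) (Q : Cell d), mC b ε (2 ^ i) s0 f Q ≤
      S * 2 ^ (i * (d - 1)) * mT b ε s0 f (up i Q) + T i * dC b ε R s0 f e (up i Q) :=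
    fun i Q => CT8.mass_up hd hak hev hb.supp hε hε1 hR1 hf hc hs0 i Q (hu (up i Q))
  refine ⟨fun Q => ⟨(hcont Q).inner continuous_const, ?_⟩, fun Q => ?_, ?_, ?_⟩
  · intro H h1 h2 h3 h4 h5
    have h6 := hz E (CT8.fQ s0 f Q) (hcont Q) (hcs Q) R (by linarith) Q.1 (e Q) (hu Q) 0 H h1 h2
      h3 h4 (fun y hy => h5 y (by rwa [sub_zero] at hy))
    rw [hDD] at h6
    have h7 : CZ * dC b ε R s0 f e Q ≤ (CZ + S + CM * S * 4 ^ d + CN) * dC b ε R s0 f e Q :=
      mul_le_mul_of_nonneg_right (by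
        have : 0 < CM * S * 4 ^ d := by positivity
        linarith) (hDn Q)
    have h8 : ∫ y, mQ s0 f (e Q) Q y * H y = ∫ y, ⟪CT8.fQ s0 f Q y, e Q⟫_ℝ * H y := rfl
    rw [h8]
    linarith
  · refine (hup l Q).trans (add_le_add ?_ ?_)
    · refine mul_le_mul_of_nonneg_right (mul_le_mul_of_nonneg_right ?_ (by positivity)) (hmT _)
      have : 0 < CM * S * 4 ^ d := by positivity
      linarith
    · refine mul_le_mul_of_nonneg_right ?_ (hDn _)
      have h1 := hTm l (by omega)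
      have : 0 < CM * (T (l + 1) + 1) := by positivity
      linarith
  · intro Q K γ a hK hγ hγ1 ha hg ρ hρ1 hρl ζ hζ hζ1 hζ2 hζs
    -- the exponent
    have hex : ∃ i : ℕ, ρ + 1 ≤ 2 ^ i := ⟨l + 1, by
      rw [pow_succ]
      linarith⟩
    classical
    set i := Nat.find hex with hi
    have hi1 : ρ + 1 ≤ 2 ^ i := Nat.find_spec hex
    have hil : i ≤ l + 1 := Nat.find_min' hex (by rw [pow_succ]; linarith)
    have hi0 : i ≠ 0 := by
      intro h0
      rw [h0, pow_zero] at hi1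
      linarith
    have hi2 : (2 : ℝ) ^ i ≤ 4 * ρ := by
      have h1 := Nat.find_min hex (show i - 1 < Nat.find hex by omega)
      push Not at h1
      have h2 : (2 : ℝ) ^ i = 2 ^ (i - 1) * 2 := by
        conv_lhs => rw [show i = (i - 1) + 1 by omega, pow_succ]
      rw [h2]
      linarith
    have h1 := (hm E (CT8.fQ s0 f Q) (hcont Q) (hcs Q) R (by linarith) Q.1 (e Q) (hu Q) 0
      (ball 0 (ρ + 1)) measurableSet_ball).1 ζ hζ hζ1 hζ2
      (fun y hy => hζs y (by rw [sub_zero] at hy; linarith)) (fun y z hy hz => by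
        have h2 : ‖y‖ < ρ := by
          by_contra hh
          exact hy (hζs y (not_lt.1 hh))
        rw [mem_ball, dist_zero_right]
        have h3 : ‖z‖ ≤ ‖z - y‖ + ‖y‖ := by
          have := norm_add_le (z - y) y
          rwa [sub_add_cancel] at this
        linarith)
    rw [hDD] at h1
    have h2 : ∫ y in ball 0 (ρ + 1), ‖fl b ε ((1 / 2) ^ Q.1) (CT8.fQ s0 f Q) (Q.1 - 1) y‖ ≤
        mC b ε (2 ^ i) s0 f Q := by
      rw [← CT8.ma_fQ b ε f hs0, CT8.ma_unit]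
      refine setIntegral_mono_set ?_ (Filter.Eventually.of_forall fun y => norm_nonneg _)
        (ball_subset_ball hi1).eventuallyLE
      exact ((fl_cont hak ε _ (hcont Q) _).norm.integrable_of_hasCompactSupport
        (fl_cs hak ε _ (hcs Q) _).norm).integrableOn
    have h3 := hup i Q
    have h4 : (2 : ℝ) ^ (i * (d - 1)) * (2 : ℝ) ^ (γ * i) ≤ 4 ^ d * ρ ^ ((d : ℝ) - 1 + γ) := by
      have e1 : (2 : ℝ) ^ (i * (d - 1)) * (2 : ℝ) ^ (γ * i) = ((2 : ℝ) ^ i) ^ ((d : ℝ) - 1 + γ) := by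
        rw [Real.rpow_add (by positivity), pow_mul]
        congr 1
        · rw [← Real.rpow_natCast ((2 : ℝ) ^ i) (d - 1), Nat.cast_sub hd]
          simp
        · rw [← Real.rpow_natCast 2 i, ← Real.rpow_mul (by norm_num), mul_comm]
      rw [e1]
      calc ((2 : ℝ) ^ i) ^ ((d : ℝ) - 1 + γ) ≤ (4 * ρ) ^ ((d : ℝ) - 1 + γ) :=
            Real.rpow_le_rpow (by positivity) hi2 (by linarith)
        _ = 4 ^ ((d : ℝ) - 1 + γ) * ρ ^ ((d : ℝ) - 1 + γ) :=
            Real.mul_rpow (by norm_num) (by linarith)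
        _ ≤ 4 ^ d * ρ ^ ((d : ℝ) - 1 + γ) := by
            refine mul_le_mul_of_nonneg_right ?_ (Real.rpow_nonneg (by linarith) _)
            rw [← Real.rpow_natCast 4 d]
            exact Real.rpow_le_rpow_of_exponent_le (by norm_num) (by linarith)
    have h5 : S * 2 ^ (i * (d - 1)) * mT b ε s0 f (up i Q) ≤
        S * 4 ^ d * K * ρ ^ ((d : ℝ) - 1 + γ) * a := by
      calc S * 2 ^ (i * (d - 1)) * mT b ε s0 f (up i Q)
          ≤ S * 2 ^ (i * (d - 1)) * (K * (2 : ℝ) ^ (γ * i) * a) :=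
            mul_le_mul_of_nonneg_left (hg i hil) (by positivity)
        _ = S * K * a * (2 ^ (i * (d - 1)) * (2 : ℝ) ^ (γ * i)) := by ring
        _ ≤ S * K * a * (4 ^ d * ρ ^ ((d : ℝ) - 1 + γ)) :=
            mul_le_mul_of_nonneg_left h4 (by positivity)
        _ = _ := by ring
    set Sg := ∑ r ∈ Finset.range (l + 2), dC b ε R s0 f e (up r Q) with hSg
    have h6 : ∀ r, r ≤ l + 1 → dC b ε R s0 f e (up r Q) ≤ Sg := fun r hr =>
      Finset.single_le_sum (f := fun r => dC b ε R s0 f e (up r Q)) (fun r _ => hDn _)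
        (Finset.mem_range.2 (by omega))
    have h7 := h6 0 (by omega)
    have h8 := h6 i hil
    have hup0 : up 0 Q = Q := by
      unfold up
      simp
    rw [hup0] at h7
    have hSg0 : 0 ≤ Sg := (hDn Q).trans h7
    have h9 : T i * dC b ε R s0 f e (up i Q) ≤ T (l + 1) * Sg :=
      mul_le_mul (hTm i hil) h8 (hDn _) hTl.le
    have hρp : 0 ≤ ρ ^ ((d : ℝ) - 1 + γ) := Real.rpow_nonneg (by linarith) _
    have h10 : |∫ y, mQ s0 f (e Q) Q y * ζ y| ≤ CM * ((S * 4 ^ d * K * ρ ^ ((d : ℝ) - 1 + γ) * a +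
        T (l + 1) * Sg) + Sg) := by
      refine h1.trans (mul_le_mul_of_nonneg_left ?_ hCM.le)
      linarith
    refine h10.trans ?_
    have e1 : 0 ≤ (CZ + S + CN) * (K * ρ ^ ((d : ℝ) - 1 + γ) * a) := by positivity
    have e2 : 0 ≤ T (l + 1) * Sg := by positivity
    nlinarith
  · intro Q r ζ N hr hrR hζ hζs
    have h1 := (hn E (CT8.fQ s0 f Q) (hcont Q) (hcs Q) R (by linarith) Q.1 (e Q) (hu Q) 0
      (ball 0 (r + 2)) measurableSet_ball).1 ζ N hζ
      (fun y hy => hζs y (by rw [sub_zero] at hy; linarith)) (fun y z hy hz => by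
        have h2 : ‖y‖ < r := by
          by_contra hh
          exact hy (hζs y (not_lt.1 hh))
        rw [mem_ball, dist_zero_right]
        have h3 : ‖z‖ ≤ ‖z - y‖ + ‖y‖ := by
          have := norm_add_le (z - y) y
          rwa [sub_add_cancel] at this
        linarith)
    rw [hDD, ← CT8.ma_unit, CT8.ma_fQ b ε f hs0] at h1
    have hN : 0 ≤ N := TU.TFn_nonneg hζ
    have hmC : 0 ≤ mC b ε (r + 2) s0 f Q := TU.ma_nonneg b ε _ hs0 f _ _
    refine h1.trans ?_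
    rw [mul_assoc, mul_assoc]
    refine mul_le_mul_of_nonneg_right ?_ (mul_nonneg hN (add_nonneg hmC (hDn Q)))
    have : 0 < CM * S * 4 ^ d := by positivity
    linarith

end

end TG
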