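import Pool.Agent.TG.Conc
import Pool.Agent.TG.SC
import Pool.Agent.TG.B0

/-!
# Module CT9: defects and directions of neighbours   (helper82)
-/

open MeasureTheory Metric Set TrI
open scoped InnerProductSpace ContDiff ENNReal

namespace TG

noncomputable section

namespace CT9

variable {d : ℕ} {E : Type} [NormedAddCommGroup E] [InnerProductSpace ℝ E]

/-- scaling of the defect functional, every dimension -/
lemma DD_rs (b : Sp d → ℝ) (ε R s0 : ℝ) (x : Sp d) {t : ℝ} (ht : 0 < t) (f : Sp d → E) (i : ℕ)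
    (y : Sp d) (e : E) :
    DD b ε R (s0 / t) (rs x t f) i y e = DD b ε R s0 f i (x + t • y) e := by
  have hfl := fun i y => SC.fl_rs b ε s0 x ht f i y
  have ht' : (t : ℝ) ≠ 0 := ht.ne'
  unfold DD
  have h1 : ∀ l, ∫ z in ball y (R * lev (s0 / t) i), (‖fl b ε (s0 / t) (rs x t f) l z‖
      - ⟪fl b ε (s0 / t) (rs x t f) l z, e⟫_ℝ) = t / t ^ d *
      ∫ z in ball (x + t • y) (R * lev s0 i), (‖fl b ε s0 f l z‖ - ⟪fl b ε s0 f l z, e⟫_ℝ) := by
    intro l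
    simp_rw [hfl, norm_smul, real_inner_smul_left, Real.norm_of_nonneg ht.le, ← mul_sub]
    rw [integral_const_mul, SC.lev_div, ← mul_div_assoc,
      SC.ball_scale x ht (fun z => ‖fl b ε s0 f l z‖ - ⟪fl b ε s0 f l z, e⟫_ℝ)]
    ring
  have h2 : ∫ z in ball y (R * lev (s0 / t) i), ‖rs x t f z‖ = t / t ^ d *
      ∫ z in ball (x + t • y) (R * lev s0 i), ‖f z‖ := by
    unfold rs
    simp_rw [norm_smul, Real.norm_of_nonneg ht.le]
    rw [integral_const_mul, SC.lev_div, ← mul_div_assoc, SC.ball_scale x ht (fun z => ‖f z‖)]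
    ring
  simp_rw [h1]
  rw [h2, SC.lev_div]
  have h3 : ∀ l, (1 / 4 : ℝ) ^ (i - l) * (t / t ^ d *
      ∫ z in ball (x + t • y) (R * lev s0 i), (‖fl b ε s0 f l z‖ - ⟪fl b ε s0 f l z, e⟫_ℝ)) =
      t / t ^ d * ((1 / 4 : ℝ) ^ (i - l) *
      ∫ z in ball (x + t • y) (R * lev s0 i), (‖fl b ε s0 f l z‖ - ⟪fl b ε s0 f l z, e⟫_ℝ)) := by
    intro l
    ring
  simp_rw [h3]
  rw [← Finset.mul_sum, mul_left_comm _ (t / t ^ d), ← mul_add, ← mul_assoc, div_pow]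
  congr 1
  field_simp

lemma lev_pos {s0 : ℝ} (h : 0 < s0) (i : ℕ) : 0 < lev s0 i := by
  unfold lev; positivity

lemma lev_add (s0 : ℝ) (i m : ℕ) : lev s0 (i + m) = 2 ^ m * lev s0 i := by
  unfold lev
  rw [pow_add]
  ring

/-- distance of a cell to its ancestor -/
lemma dist_up {s0 : ℝ} (h : 0 < s0) (i : ℕ) (Q : Cell d) :
    ‖xC s0 (up i Q) - xC s0 Q‖ ≤ Real.sqrt d * lev s0 (Q.1 + i) := by
  have hl : 0 < lev s0 Q.1 := lev_pos h _
  have hc : ∀ k : Fin d, ‖(xC s0 (up i Q) - xC s0 Q) k‖ ^ 2 ≤ lev s0 (Q.1 + i) ^ 2 := by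
    intro k
    have h1 : (xC s0 (up i Q) - xC s0 Q) k =
        -(lev s0 Q.1 * ((Q.2 k % 2 ^ i : ℤ) : ℝ)) := by
      have h2 : ((Q.2 k : ℤ) : ℝ) = 2 ^ i * ((Q.2 k / 2 ^ i : ℤ) : ℝ) +
          ((Q.2 k % 2 ^ i : ℤ) : ℝ) := by
        have := Int.mul_ediv_add_emod (Q.2 k) (2 ^ i)
        have h3 := congrArg (fun z : ℤ => (z : ℝ)) this
        push_cast at h3
        linarith
      simp only [xC, cen, lat, up, PiLp.sub_apply, PiLp.smul_apply, smul_eq_mul, lev_add]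
      linear_combination (-lev s0 Q.1) * h2
    have h3 : (0 : ℝ) ≤ ((Q.2 k % 2 ^ i : ℤ) : ℝ) := by
      exact_mod_cast Int.emod_nonneg (Q.2 k) (by positivity)
    have h4 : ((Q.2 k % 2 ^ i : ℤ) : ℝ) ≤ 2 ^ i := by
      have := (Int.emod_lt_of_pos (Q.2 k) (b := 2 ^ i) (by positivity)).le
      exact_mod_cast this
    rw [h1, norm_neg, Real.norm_of_nonneg (by positivity), lev_add]
    refine pow_le_pow_left₀ (by positivity) ?_ 2
    nlinarith
  rw [EuclideanSpace.norm_eq]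
  refine Real.sqrt_le_iff.2 ⟨by have := lev_pos h (Q.1 + i); positivity, ?_⟩
  rw [mul_pow, Real.sq_sqrt (Nat.cast_nonneg d)]
  refine (Finset.sum_le_sum fun k _ => hc k).trans ?_
  simp

/-- the defect functional is monotone in the ball and the level -/
lemma DD_mono (hd : 1 ≤ d) {b : Sp d → ℝ} (hb : Kb b) {ε R s0 : ℝ} (hs : 0 < s0)
    {f : Sp d → E} (hf : Continuous f) (i m : ℕ) {x x' : Sp d}
    (hx : ‖x' - x‖ ≤ R * (lev s0 (i + m) - lev s0 i)) {e : E} (he : ‖e‖ = 1) :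
    DD b ε R s0 f i x e ≤ (4 ^ m * 2 ^ (m * (d - 1))) * DD b ε R s0 f (i + m) x' e := by
  have hl : 0 < lev s0 i := lev_pos hs i
  have hsub : ball x (R * lev s0 i) ⊆ ball x' (R * lev s0 (i + m)) := by
    intro y hy
    rw [mem_ball, dist_eq_norm] at hy ⊢
    have : ‖y - x'‖ ≤ ‖y - x‖ + ‖x' - x‖ := by
      have := norm_sub_le (y - x) (x' - x)
      rwa [sub_sub_sub_cancel_right] at this
    linarith
  have hg : ∀ l, Continuous (fun y => ‖fl b ε s0 f l y‖ - ⟪fl b ε s0 f l y, e⟫_ℝ) := by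
    intro l
    have := flB_cont hb hf ε s0 l
    fun_prop
  have hI : ∀ (g : Sp d → ℝ), Continuous g → ∀ (z : Sp d) (ρ : ℝ), IntegrableOn g (ball z ρ) :=
    fun g hg z ρ => (hg.continuousOn.integrableOn_compact (isCompact_closedBall z ρ)).mono_set
      ball_subset_closedBall
  have hm : ∀ (g : Sp d → ℝ), Continuous g → (∀ y, 0 ≤ g y) →
      ∫ y in ball x (R * lev s0 i), g y ≤ ∫ y in ball x' (R * lev s0 (i + m)), g y := by
    intro g hg h0
    exact setIntegral_mono_set (hI g hg _ _) (Filter.Eventually.of_forall h0)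
      (Filter.Eventually.of_forall hsub)
  have h1 := fun l => hm _ (hg l) (fun y => defi_nonneg he _)
  have h2 := hm _ hf.norm (fun y => norm_nonneg _)
  unfold DD
  have hc : lev s0 i / lev s0 i ^ d =
      2 ^ (m * (d - 1)) * (lev s0 (i + m) / lev s0 (i + m) ^ d) := by
    rw [lev_add]
    obtain ⟨k, rfl⟩ := Nat.exists_eq_add_of_le hd
    rw [Nat.add_sub_cancel_left]
    field_simp
    rw [pow_add, pow_one, mul_pow, ← pow_mul]
    ring
  rw [hc]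
  have h3 : ∑ l ∈ Finset.range (i + 1), (1 / 4 : ℝ) ^ (i - l) *
        (∫ y in ball x (R * lev s0 i), (‖fl b ε s0 f l y‖ - ⟪fl b ε s0 f l y, e⟫_ℝ)) ≤
      4 ^ m * ∑ l ∈ Finset.range (i + m + 1), (1 / 4 : ℝ) ^ (i + m - l) *
        (∫ y in ball x' (R * lev s0 (i + m)), (‖fl b ε s0 f l y‖ - ⟪fl b ε s0 f l y, e⟫_ℝ)) := by
    have h4 : ∑ l ∈ Finset.range (i + 1), (1 / 4 : ℝ) ^ (i - l) *
        (∫ y in ball x (R * lev s0 i), (‖fl b ε s0 f l y‖ - ⟪fl b ε s0 f l y, e⟫_ℝ)) ≤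
        ∑ l ∈ Finset.range (i + 1), 4 ^ m * ((1 / 4 : ℝ) ^ (i + m - l) *
        (∫ y in ball x' (R * lev s0 (i + m)),
          (‖fl b ε s0 f l y‖ - ⟪fl b ε s0 f l y, e⟫_ℝ))) := by
      refine Finset.sum_le_sum fun l hl => ?_
      have hl' : l ≤ i := by
        have := Finset.mem_range.1 hl
        omega
      have h5 : (1 / 4 : ℝ) ^ (i - l) = 4 ^ m * (1 / 4 : ℝ) ^ (i + m - l) := by
        rw [show i + m - l = (i - l) + m by omega, pow_add, mul_comm ((1 / 4 : ℝ) ^ (i - l)),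
          ← mul_assoc, ← mul_pow]
        norm_num
      rw [h5, mul_assoc]
      exact mul_le_mul_of_nonneg_left (mul_le_mul_of_nonneg_left (h1 l) (by positivity))
        (by positivity)
    refine h4.trans ?_
    rw [← Finset.mul_sum]
    refine mul_le_mul_of_nonneg_left ?_ (by positivity)
    refine Finset.sum_le_sum_of_subset_of_nonneg ?_ ?_
    · intro l hl
      rw [Finset.mem_range] at hl ⊢
      omega
    · intro l _ _
      exact mul_nonneg (by positivity)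
        (setIntegral_nonneg measurableSet_ball fun y _ => defi_nonneg he _)
  have h6 : (1 / 4 : ℝ) ^ i * (∫ y in ball x (R * lev s0 i), ‖f y‖) ≤
      4 ^ m * ((1 / 4 : ℝ) ^ (i + m) * ∫ y in ball x' (R * lev s0 (i + m)), ‖f y‖) := by
    have h5 : (1 / 4 : ℝ) ^ i = 4 ^ m * (1 / 4 : ℝ) ^ (i + m) := by
      rw [pow_add, mul_comm ((1 / 4 : ℝ) ^ i), ← mul_assoc, ← mul_pow]
      norm_num
    rw [h5, mul_assoc]
    exact mul_le_mul_of_nonneg_left (mul_le_mul_of_nonneg_left h2 (by positivity))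
      (by positivity)
  have hl2 : 0 < lev s0 (i + m) := lev_pos hs _
  have h7 : 0 ≤ 2 ^ (m * (d - 1)) * (lev s0 (i + m) / lev s0 (i + m) ^ d) := by positivity
  refine (mul_le_mul_of_nonneg_left (add_le_add h3 h6) h7).trans (le_of_eq ?_)
  ring

lemma DD_nonneg {b : Sp d → ℝ} {ε R s0 : ℝ} (hs : 0 < s0)
    (f : Sp d → E) (i : ℕ) (x : Sp d) {e : E} (he : ‖e‖ = 1) :
    0 ≤ DD b ε R s0 f i x e := by
  have hl : 0 < lev s0 i := lev_pos hs i
  unfold DD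
  refine mul_nonneg (by positivity) (add_nonneg (Finset.sum_nonneg fun l _ => ?_) ?_)
  · exact mul_nonneg (by positivity)
      (setIntegral_nonneg measurableSet_ball fun y _ => defi_nonneg he _)
  · exact mul_nonneg (by positivity)
      (setIntegral_nonneg measurableSet_ball fun y _ => norm_nonneg _)

/-- test functions under affine maps -/
lemma tfn_aff {N : ℝ} {ζ : Sp d → ℝ} (h : TFn 2 N ζ) (a : Sp d) {t : ℝ} (ht : 1 ≤ t) :
    TFn 2 (t ^ 2 * N) (fun y => ζ (a + t • y)) where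
  smooth := h.smooth.comp (by fun_prop)
  bd := by
    intro k hk x
    have ht0 : 0 < t := by linarith
    refine ContinuousMultilinearMap.opNorm_le_bound ?_ ?_
    · have := (norm_nonneg _).trans (h.bd 0 (by omega) x)
      positivity
    · intro m
      rw [SC.itF_aff k ζ a ht0.ne' x m, norm_smul, Real.norm_of_nonneg (by positivity)]
      have h1 : t ^ k ≤ t ^ 2 := pow_le_pow_right₀ ht hk
      have h2 := ContinuousMultilinearMap.le_opNorm (iteratedFDeriv ℝ k ζ (a + t • x)) m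
      have h3 := h.bd k hk (a + t • x)
      have h4 : 0 ≤ ∏ i, ‖m i‖ := Finset.prod_nonneg fun i _ => norm_nonneg _
      calc t ^ k * ‖iteratedFDeriv ℝ k ζ (a + t • x) m‖
          ≤ t ^ 2 * (N * ∏ i, ‖m i‖) := by
            refine mul_le_mul h1 (h2.trans (mul_le_mul_of_nonneg_right h3 h4))
              (norm_nonneg _) (by positivity)
        _ = t ^ 2 * N * ∏ i, ‖m i‖ := by ring

/-- change of frame -/
lemma frame {f : Sp d → E} (x x' : Sp d) {t : ℝ} (ht : 0 < t) (j : ℕ) (w : E)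
    (ζ : Sp d → ℝ) :
    ∫ y, ⟪rs x t f y, w⟫_ℝ * ζ y = (2 ^ j) ^ d / 2 ^ j *
      ∫ y, ⟪rs x' (2 ^ j * t) f y, w⟫_ℝ * ζ ((1 / t) • (x' - x) + (2 ^ j : ℝ) • y) := by
  set a : Sp d := (1 / t) • (x' - x) with ha
  set g : Sp d → ℝ := fun y => ⟪rs x t f y, w⟫_ℝ * ζ y with hg
  have h1 : ∫ y, g (a + (2 ^ j : ℝ) • y) = 1 / (2 ^ j) ^ d * ∫ y, g y := by
    rw [Measure.integral_comp_smul_of_nonneg volume (fun y => g (a + y)) (2 ^ j : ℝ)
      (hR := by positivity), integral_add_left_eq_self g a]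
    simp
  have h2 : ∀ y, g (a + (2 ^ j : ℝ) • y) = 1 / 2 ^ j *
      (⟪rs x' (2 ^ j * t) f y, w⟫_ℝ * ζ (a + (2 ^ j : ℝ) • y)) := by
    intro y
    have h3 : x + t • (a + (2 ^ j : ℝ) • y) = x' + (2 ^ j * t) • y := by
      rw [ha, smul_add, smul_smul, smul_smul, mul_one_div_cancel ht.ne', one_smul,
        mul_comm t]
      abel
    rw [hg]
    beta_reduce
    unfold rs
    rw [h3, real_inner_smul_left, real_inner_smul_left]
    field_simp
  simp_rw [h2] at h1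
  rw [integral_const_mul] at h1
  have h4 : ∫ y, g y = (2 ^ j) ^ d * (1 / 2 ^ j *
      ∫ y, (⟪rs x' (2 ^ j * t) f y, w⟫_ℝ * ζ (a + (2 ^ j : ℝ) • y))) := by
    rw [h1]
    field_simp
  rw [h4]
  ring

/-- change of direction in the frame of a cell -/
lemma dir {C0 R : ℝ} {b : Sp d → ℝ} {ε s0 : ℝ} (hs : 0 < s0) {f : Sp d → E}
    (n : ℕ) (x : Sp d)
    (hDI : ∀ (e e' : E), ‖e‖ = 1 → ‖e'‖ = 1 → ∀ (Y : Sp d → ℝ), ContDiff ℝ 2 Y →
      (∀ y, |Y y| ≤ 1) → (∀ y, ‖iteratedFDeriv ℝ 2 Y y‖ ≤ 1) → (∀ y, R - 1 ≤ ‖y‖ → Y y = 0) →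
      |∫ y, ⟪rs x (lev s0 n) f y, e - e'⟫_ℝ * Y y| ≤
        C0 * (DD b ε R ((1 / 2) ^ n) (rs x (lev s0 n) f) n 0 e +
          DD b ε R ((1 / 2) ^ n) (rs x (lev s0 n) f) n 0 e'))
    {e e' : E} (he : ‖e‖ = 1) (he' : ‖e'‖ = 1) {ζ : Sp d → ℝ} {N : ℝ} (hζ : TFn 2 N ζ)
    (h0 : ∀ y, R - 1 ≤ ‖y‖ → ζ y = 0) :
    |∫ y, ⟪rs x (lev s0 n) f y, e - e'⟫_ℝ * ζ y| ≤
      C0 * N * (DD b ε R s0 f n x e + DD b ε R s0 f n x e') := by
  have hN : 0 ≤ N := (norm_nonneg _).trans (hζ.bd 0 (by omega) 0)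
  have hb0 : ∀ y, |ζ y| ≤ N := by
    intro y
    have := hζ.bd 0 (by omega) y
    rwa [norm_iteratedFDeriv_zero, Real.norm_eq_abs] at this
  have hfr : ∀ e : E, DD b ε R ((1 / 2) ^ n) (rs x (lev s0 n) f) n 0 e =
      DD b ε R s0 f n x e := by
    intro e
    have h1 : ((1 / 2 : ℝ)) ^ n = s0 / lev s0 n := by
      unfold lev
      field_simp
      rw [one_div, inv_pow, inv_mul_cancel₀ (by positivity)]
    rw [h1, DD_rs b ε R s0 x (lev_pos hs n) f n 0 e, smul_zero, add_zero]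
  rcases eq_or_lt_of_le hN with hN0 | hN0
  · have h1 : ∀ y, ζ y = 0 := fun y => abs_nonpos_iff.1 ((hb0 y).trans_eq hN0.symm)
    simp [h1, ← hN0]
  · have hd := hDI e e' he he' (fun y => N⁻¹ • ζ y) (hζ.smooth.const_smul N⁻¹) ?_ ?_ ?_
    · have h1 : ∫ y, ⟪rs x (lev s0 n) f y, e - e'⟫_ℝ * (N⁻¹ • ζ y) =
          N⁻¹ * ∫ y, ⟪rs x (lev s0 n) f y, e - e'⟫_ℝ * ζ y := by
        rw [← integral_const_mul]
        congr 1
        funext y
        rw [smul_eq_mul]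
        ring
      rw [h1, abs_mul, abs_of_pos (inv_pos.2 hN0), hfr, hfr, inv_mul_le_iff₀ hN0] at hd
      linarith
    · intro y
      rw [smul_eq_mul, abs_mul, abs_of_pos (inv_pos.2 hN0), inv_mul_le_iff₀ hN0, mul_one]
      exact hb0 y
    · intro y
      have h1 : iteratedFDeriv ℝ 2 (fun y => N⁻¹ • ζ y) y = N⁻¹ • iteratedFDeriv ℝ 2 ζ y := by
        have := iteratedFDeriv_const_smul_apply (𝕜 := ℝ) (i := 2) (a := N⁻¹) (f := ζ) (x := y)
          (hζ.smooth.contDiffAt)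
        exact this
      rw [h1, norm_smul, Real.norm_of_nonneg (inv_pos.2 hN0).le, inv_mul_le_iff₀ hN0, mul_one]
      exact hζ.bd 2 le_rfl y
    · intro y hy
      rw [h0 y hy, smul_zero]

end CT9

open CT9 in
theorem stmtCT9 (hDI : StmtDI) : StmtCT9 := by
  intro d hd M c0 ε hε hε1 b hb0 j
  obtain ⟨C0, hC0, hDI⟩ := hDI d hd M c0 ε hε hε1 b hb0
  have hb := hb0.kb
  set K1 : ℝ := 4 ^ 1 * 2 ^ (1 * (d - 1)) with hK1
  set K2 : ℝ := 4 ^ (j + 1) * 2 ^ ((j + 1) * (d - 1)) with hK2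
  have hK1p : 0 < K1 := by positivity
  have hK2p : 0 < K2 := by positivity
  set A : ℝ := (2 ^ j) ^ d / 2 ^ j * (C0 * (2 ^ j) ^ 2) with hA
  have hAp : 0 < A := by positivity
  refine ⟨K1 + (A * (2 * K1) + C0 * (1 + K2)), by positivity, ?_⟩
  intro E _ _ _ R r hr hR f hf hfc s0 hs e he Q Q' hl hx
  set P : Cell d := up (j + 1) Q with hP
  have hd1 : (1 : ℝ) ≤ d := by exact_mod_cast hd
  have hsq : Real.sqrt d ≤ d := by
    rw [Real.sqrt_le_left (by positivity)]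
    nlinarith
  have hR3 : 3 ≤ R := by linarith
  have hup : ‖xC s0 P - xC s0 Q‖ ≤ d * lev s0 (Q.1 + (j + 1)) :=
    (dist_up hs (j + 1) Q).trans (mul_le_mul_of_nonneg_right hsq (lev_pos hs _).le)
  have hPl : P.1 = Q.1 + (j + 1) := rfl
  have hl1 : lev s0 (Q.1 + (j + 1)) = 2 ^ (j + 1) * lev s0 Q.1 := lev_add s0 _ _
  have hl2 : lev s0 Q'.1 = 2 ^ j * lev s0 Q.1 := by rw [hl]; exact lev_add s0 _ _
  have hq : 0 < lev s0 Q.1 := lev_pos hs _
  have hq' : 0 < lev s0 Q'.1 := lev_pos hs _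
  have hl3 : lev s0 (Q.1 + (j + 1)) = 2 * lev s0 Q'.1 := by
    rw [hl1, hl2, pow_succ]; ring
  have hP1 : P.1 = Q'.1 + 1 := by rw [hPl, hl]; ring
  have hl4 : lev s0 (Q'.1 + 1) = 2 * lev s0 Q'.1 := by
    rw [lev_add]; ring
  -- defects of e P at Q' and Q
  have hPQ' : ‖xC s0 P - xC s0 Q'‖ ≤ R * (lev s0 (Q'.1 + 1) - lev s0 Q'.1) := by
    have h1 : ‖xC s0 P - xC s0 Q'‖ ≤ ‖xC s0 P - xC s0 Q‖ + ‖xC s0 Q' - xC s0 Q‖ := by
      have := norm_sub_le (xC s0 P - xC s0 Q) (xC s0 Q' - xC s0 Q)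
      rwa [sub_sub_sub_cancel_right] at this
    rw [hl3] at hup
    rw [hl4]
    nlinarith
  have hPQ : ‖xC s0 P - xC s0 Q‖ ≤ R * (lev s0 (Q.1 + (j + 1)) - lev s0 Q.1) := by
    refine hup.trans ?_
    have h1 : 2 * lev s0 Q.1 ≤ lev s0 (Q.1 + (j + 1)) := by
      rw [hl1]
      refine mul_le_mul_of_nonneg_right ?_ hq.le
      rw [pow_succ]
      have : (1 : ℝ) ≤ 2 ^ j := one_le_pow₀ (by norm_num)
      linarith
    nlinarith
  have m1 : DD b ε R s0 f Q'.1 (xC s0 Q') (e P) ≤ K1 * dC b ε R s0 f e P := by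
    have := DD_mono hd hb (ε := ε) hs hf Q'.1 1 hPQ' (he.unit P)
    unfold dC
    rwa [hP1]
  have m2 : DD b ε R s0 f Q.1 (xC s0 Q) (e P) ≤ K2 * dC b ε R s0 f e P := by
    have := DD_mono hd hb (ε := ε) hs hf Q.1 (j + 1) hPQ (he.unit P)
    exact this
  have m3 : dC b ε R s0 f e Q' ≤ K1 * dC b ε R s0 f e P :=
    (he.min Q' (e P) (he.unit P)).trans m1
  have n1 : 0 ≤ dC b ε R s0 f e P := DD_nonneg hs f _ _ (he.unit P)
  have n2 : 0 ≤ dC b ε R s0 f e Q := DD_nonneg hs f _ _ (he.unit Q)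
  refine ⟨m3.trans (mul_le_mul_of_nonneg_right (by
    have : 0 < A * (2 * K1) + C0 * (1 + K2) := by positivity
    linarith) n1), ?_⟩
  intro ρ ζ N hρ hζ hζ0
  have hN : 0 ≤ N := (norm_nonneg _).trans (hζ.bd 0 (by omega) 0)
  have hrsc : ∀ (x : Sp d) (t : ℝ), Continuous (rs x t f) := by
    intro x t
    unfold rs
    fun_prop
  have hrscs : ∀ (x : Sp d) (t : ℝ), 0 < t → HasCompactSupport (rs x t f) := by
    intro x t ht
    have h1 := hfc.comp_homeomorph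
      ((Homeomorph.smulOfNeZero t ht.ne').trans (Homeomorph.addLeft x))
    exact h1.smul_left (f := fun _ => t)
  have h2j : (1 : ℝ) ≤ 2 ^ j := one_le_pow₀ (by norm_num)
  -- in the frame of Q
  have hint : ∀ w : E, Integrable (fun y => ⟪rs (xC s0 Q) (lev s0 Q.1) f y, w⟫_ℝ * ζ y) := by
    intro w
    refine Continuous.integrable_of_hasCompactSupport ?_ ?_
    · have h1 := hrsc (xC s0 Q) (lev s0 Q.1)
      have h2 := hζ.smooth.continuous
      fun_prop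
    · refine HasCompactSupport.mul_right ?_
      exact (hrscs (xC s0 Q) _ hq).comp_left (g := fun v : E => ⟪v, w⟫_ℝ) (inner_zero_left _)
  have hsplit : ∫ y, (mQ s0 f (e Q') Q y - mQ s0 f (e Q) Q y) * ζ y =
      (∫ y, ⟪rs (xC s0 Q) (lev s0 Q.1) f y, e Q' - e P⟫_ℝ * ζ y) +
        ∫ y, ⟪rs (xC s0 Q) (lev s0 Q.1) f y, e P - e Q⟫_ℝ * ζ y := by
    rw [← integral_add (hint _) (hint _)]
    congr 1
    funext y
    unfold mQ
    rw [inner_sub_right, inner_sub_right]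
    ring
  have hDI' : ∀ (x : Sp d) (n : ℕ) (e e' : E), ‖e‖ = 1 → ‖e'‖ = 1 → ∀ (Y : Sp d → ℝ),
      ContDiff ℝ 2 Y → (∀ y, |Y y| ≤ 1) → (∀ y, ‖iteratedFDeriv ℝ 2 Y y‖ ≤ 1) →
      (∀ y, R - 1 ≤ ‖y‖ → Y y = 0) →
      |∫ y, ⟪rs x (lev s0 n) f y, e - e'⟫_ℝ * Y y| ≤
        C0 * (DD b ε R ((1 / 2) ^ n) (rs x (lev s0 n) f) n 0 e +
          DD b ε R ((1 / 2) ^ n) (rs x (lev s0 n) f) n 0 e') := by
    intro x n e e' he he' Y hY h1 h2 h3
    exact hDI E (rs x (lev s0 n) f) (hrsc _ _) (hrscs _ _ (lev_pos hs n)) R hR3 n e e' he he' 0 0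
      Y hY h1 h2 (fun y hy => h3 y (by rwa [sub_zero] at hy))
      (fun y hy => h3 y (by rwa [sub_zero] at hy))
  have hsup1 : ∀ y : Sp d, R - 1 ≤ ‖y‖ → ζ y = 0 := by
    intro y hy
    refine hζ0 y ?_
    have : 0 ≤ r * 2 ^ j := by positivity
    linarith
  have B2 := dir (b := b) (ε := ε) hs Q.1 (xC s0 Q) (hDI' _ _) (he.unit P) (he.unit Q) hζ
    hsup1
  -- in the frame of Q'
  have hfrm := frame (f := f) (xC s0 Q) (xC s0 Q') hq j (e Q' - e P) ζ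
  rw [← hl2] at hfrm
  have hζ' := tfn_aff hζ ((1 / lev s0 Q.1) • (xC s0 Q' - xC s0 Q)) h2j
  have hsup2 : ∀ y : Sp d, R - 1 ≤ ‖y‖ →
      ζ ((1 / lev s0 Q.1) • (xC s0 Q' - xC s0 Q) + (2 ^ j : ℝ) • y) = 0 := by
    intro y hy
    refine hζ0 _ ?_
    have h1 : ‖(1 / lev s0 Q.1) • (xC s0 Q' - xC s0 Q)‖ ≤ r * 2 ^ j := by
      rw [norm_smul, Real.norm_of_nonneg (by positivity), one_div, inv_mul_le_iff₀ hq]
      rw [hl2] at hx
      linarith
    have h2 : ‖(2 ^ j : ℝ) • y‖ = 2 ^ j * ‖y‖ := by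
      rw [norm_smul, Real.norm_of_nonneg (by positivity)]
    have h3 : ‖(2 ^ j : ℝ) • y‖ ≤ ‖(1 / lev s0 Q.1) • (xC s0 Q' - xC s0 Q) + (2 ^ j : ℝ) • y‖ +
        ‖(1 / lev s0 Q.1) • (xC s0 Q' - xC s0 Q)‖ := by
      have := norm_sub_le ((1 / lev s0 Q.1) • (xC s0 Q' - xC s0 Q) + (2 ^ j : ℝ) • y)
        ((1 / lev s0 Q.1) • (xC s0 Q' - xC s0 Q))
      rwa [add_sub_cancel_left] at this
    have h4 : ‖y‖ ≤ 2 ^ j * ‖y‖ := le_mul_of_one_le_left (norm_nonneg _) h2j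
    linarith
  have B1 := dir (b := b) (ε := ε) hs Q'.1 (xC s0 Q') (hDI' _ _) (he.unit Q') (he.unit P)
    hζ' hsup2
  have B1' : |∫ y, ⟪rs (xC s0 Q) (lev s0 Q.1) f y, e Q' - e P⟫_ℝ * ζ y| ≤
      A * N * (dC b ε R s0 f e Q' + DD b ε R s0 f Q'.1 (xC s0 Q') (e P)) := by
    rw [hfrm, abs_mul, abs_of_pos (show (0 : ℝ) < (2 ^ j) ^ d / 2 ^ j by positivity)]
    refine (mul_le_mul_of_nonneg_left B1 (by positivity)).trans (le_of_eq ?_)
    rw [hA]
    unfold dC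
    ring
  rw [hsplit]
  refine (abs_add_le _ _).trans ?_
  have hs1 : A * N * (dC b ε R s0 f e Q' + DD b ε R s0 f Q'.1 (xC s0 Q') (e P)) ≤
      A * N * (2 * K1 * dC b ε R s0 f e P) := by
    refine mul_le_mul_of_nonneg_left ?_ (by positivity)
    linarith
  have hs2 : C0 * N * (DD b ε R s0 f Q.1 (xC s0 Q) (e P) + DD b ε R s0 f Q.1 (xC s0 Q) (e Q)) ≤
      C0 * N * (K2 * dC b ε R s0 f e P + dC b ε R s0 f e Q) := by
    refine mul_le_mul_of_nonneg_left ?_ (by positivity)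
    exact add_le_add m2 le_rfl
  have hfin : A * N * (2 * K1 * dC b ε R s0 f e P) +
      C0 * N * (K2 * dC b ε R s0 f e P + dC b ε R s0 f e Q) ≤
      (K1 + (A * (2 * K1) + C0 * (1 + K2))) * N *
        (dC b ε R s0 f e Q + dC b ε R s0 f e P) := by
    have e1 : (K1 + (A * (2 * K1) + C0 * (1 + K2))) * N *
        (dC b ε R s0 f e Q + dC b ε R s0 f e P) -
        (A * N * (2 * K1 * dC b ε R s0 f e P) +
      C0 * N * (K2 * dC b ε R s0 f e P + dC b ε R s0 f e Q)) =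
      N * ((K1 + C0) * dC b ε R s0 f e P + (K1 + A * (2 * K1) + C0 * K2) *
        dC b ε R s0 f e Q) := by ring
    have e2 : 0 ≤ N * ((K1 + C0) * dC b ε R s0 f e P + (K1 + A * (2 * K1) + C0 * K2) *
        dC b ε R s0 f e Q) := by positivity
    linarith
  linarith

end

end TG
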