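import Pool.Agent.TR.Stmts2

/-!
# Trace inequality, general operators: definitions (first part)

Problem MP_287c87_an, see PAPER.md.  Section numbers refer to PAPER.md.
-/

open MeasureTheory Metric Set TrI
open scoped InnerProductSpace ContDiff

namespace TG

noncomputable section

variable {d : ℕ}

/-! ## Section 1: the potential -/

/-- the Poisson type kernel t (t² + |x|²)^(-d/2) -/
def kk (t : ℝ) (x : Sp d) : ℝ := t / Real.sqrt (t ^ 2 + ‖x‖ ^ 2) ^ d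

/-- the potential of μ at height t -/
def th (μ : Measure (Sp d)) (t : ℝ) (x : Sp d) : ℝ := ∫ η, kk t (x - η) ∂μ

/-- its square root -/
def vv (μ : Measure (Sp d)) (t : ℝ) (x : Sp d) : ℝ := Real.sqrt (th μ t x)

/-- finite nonzero measures with (d-1)-growth -/
structure Gro (C' : ℝ) (μ : Measure (Sp d)) : Prop where
  fin : IsFiniteMeasure μ
  ne : μ ≠ 0
  gro : ∀ (x : Sp d) (r : ℝ), 0 < r → μ (ball x r) ≤ ENNReal.ofReal (C' * r ^ (d - 1))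

/-- tangential part of a vector, with respect to the unit normal n -/
def tang (n w : Sp d) : Sp d := w - ⟪n, w⟫_ℝ • n

/-- Laplacian -/
def lap (g : Sp d → ℝ) (x : Sp d) : ℝ :=
  ∑ j : Fin d, iteratedFDeriv ℝ 2 g x
    (fun _ => (EuclideanSpace.single j (1 : ℝ) : Sp d))

/-- second derivative in direction n -/
def d2 (n : Sp d) (g : Sp d → ℝ) (x : Sp d) : ℝ := iteratedFDeriv ℝ 2 g x (fun _ => n)

/-- time derivative of v -/
def dtv (μ : Measure (Sp d)) (t : ℝ) (x : Sp d) : ℝ := deriv (fun s => vv μ s x) t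

/-! ## Section 2: profiles -/

/-- average over a disc of radius one orthogonal to n -/
def disc (n : Sp d) (β : Sp d → ℝ) (x : Sp d) : ℝ :=
  ∫ y in closedBall (0 : (Submodule.span ℝ {n})ᗮ) 1, β (x - (y : Sp d))

/-- value of a radial function at distance r -/
def rad (β : Sp d → ℝ) (r : ℝ) : ℝ := sSup (β '' sphere 0 r)

/-- radial potential: grad B = - x β for radial β supported in the unit ball -/
def Bp (β : Sp d → ℝ) (x : Sp d) : ℝ := ∫ r in (‖x‖)..1, r * rad β r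

/-- profiles -/
structure IsProf (J : ℕ) (M : ℝ) (β : Sp d → ℝ) : Prop where
  smooth : ContDiff ℝ J β
  nonneg : ∀ x, 0 ≤ β x
  mono : ∀ x y, ‖x‖ ≤ ‖y‖ → β y ≤ β x
  supp : ∀ x, 1 ≤ ‖x‖ → β x = 0
  int : ∫ x, β x = 1
  der : ∀ j ≤ J, ∀ n : Sp d, ‖n‖ = 1 → ∀ x, ‖iteratedFDeriv ℝ j β x‖ ^ 2 ≤ M * disc n β x

/-- profiles together with the properties of the two radial potentials -/
structure Kit (J : ℕ) (M : ℝ) (β : Sp d → ℝ) : Prop where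
  prof : IsProf J M β
  smooth1 : ContDiff ℝ J (Bp β)
  smooth2 : ContDiff ℝ J (Bp (Bp β))
  supp1 : ∀ x, 1 ≤ ‖x‖ → Bp β x = 0
  supp2 : ∀ x, 1 ≤ ‖x‖ → Bp (Bp β) x = 0
  grad1 : ∀ x, HasGradientAt (Bp β) (-(β x) • x) x
  grad2 : ∀ x, HasGradientAt (Bp (Bp β)) (-(Bp β x) • x) x
  nonneg1 : ∀ x, 0 ≤ Bp β x
  nonneg2 : ∀ x, 0 ≤ Bp (Bp β) x
  le1 : ∀ x, Bp β x ≤ β x
  le2 : ∀ x, Bp (Bp β) x ≤ Bp β x
  mono1 : ∀ x y, ‖x‖ ≤ ‖y‖ → Bp β y ≤ Bp β x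
  mono2 : ∀ x y, ‖x‖ ≤ ‖y‖ → Bp (Bp β) y ≤ Bp (Bp β) x
  der1 : ∀ j ≤ J, ∀ n : Sp d, ‖n‖ = 1 → ∀ x,
    ‖iteratedFDeriv ℝ j (Bp β) x‖ ^ 2 ≤ M * disc n β x
  der2 : ∀ j ≤ J, ∀ n : Sp d, ‖n‖ = 1 → ∀ x,
    ‖iteratedFDeriv ℝ j (Bp (Bp β)) x‖ ^ 2 ≤ M * disc n β x

/-- iterated kernels: KN b n is K_(n+1) of the paper -/
def KN (b : Sp d → ℝ) : ℕ → Sp d → ℝ
  | 0 => b
  | n + 1 => fun x => ∫ y, b y * (2 ^ d * KN b n ((2 : ℝ) • (x - y)))

/-- the base kernel -/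
structure BaseKer (J : ℕ) (M c : ℝ) (b : Sp d → ℝ) : Prop where
  c_pos : 0 < c
  smooth : ContDiff ℝ J b
  nonneg : ∀ x, 0 ≤ b x
  mono : ∀ x y, ‖x‖ ≤ ‖y‖ → b y ≤ b x
  supp : ∀ x, 1 / 2 ≤ ‖x‖ → b x = 0
  int : ∫ x, b x = 1
  kit : ∀ n, Kit J M (KN b n)
  low : ∀ n x, ‖x‖ ≤ c → c ≤ KN b n x

/-! ## Sections 2 and 3: w, wt, G, W -/

/-- w -/
def wv (β : Sp d → ℝ) (ε : ℝ) (μ : Measure (Sp d)) (t : ℝ) (y : Sp d) : ℝ :=
  ∫ z, β z * vv μ t (y + (ε * t) • z)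

/-- w tilde -/
def wt (β : Sp d → ℝ) (ε : ℝ) (μ : Measure (Sp d)) (t : ℝ) (y : Sp d) : ℝ :=
  ∫ z, (β z * vv μ t (y + (ε * t) • z)
    - 2 * ε ^ 2 * t * (Bp β z * dtv μ t (y + (ε * t) • z))
    - ε ^ 4 * t ^ 2 * (Bp (Bp β) z * lap (vv μ t) (y + (ε * t) • z)))

/-- the tent -/
def tau (t r : ℝ) : ℝ := max 0 (min (2 / 3 * (r - t / 2)) (1 / 3 * (2 * t - r)))

/-- G at scale t -/
def GG (β : Sp d → ℝ) (ε : ℝ) (μ : Measure (Sp d)) (t : ℝ) (y : Sp d) : ℝ :=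
  wv β ε μ t y - 2 / 3 * wv β ε μ (t / 2) y - 1 / 3 * wv β ε μ (2 * t) y

/-- W at scale t -/
def WW (β : Sp d → ℝ) (ε : ℝ) (μ : Measure (Sp d)) (t : ℝ) (y : Sp d) : ℝ :=
  ∫ r in (t / 2)..(2 * t), tau t r * wt β ε μ r y

/-- the gain in direction n -/
def gn (β : Sp d → ℝ) (ε : ℝ) (μ : Measure (Sp d)) (n : Sp d) (t : ℝ) (y : Sp d) : ℝ :=
  GG β ε μ t y - lap (WW β ε μ t) y + d2 n (WW β ε μ t) y

/-- tangential gradient energy -/
def X1 (β : Sp d → ℝ) (ε : ℝ) (μ : Measure (Sp d)) (n : Sp d) (t : ℝ) (y : Sp d) : ℝ :=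
  ∫ z, β z * (‖tang n (gradient (vv μ t) (y + (ε * t) • z))‖ ^ 2
    / vv μ t (y + (ε * t) • z))

/-- second moment of the posterior distribution in direction n -/
def X2 (μ : Measure (Sp d)) (n : Sp d) (t : ℝ) (y : Sp d) : ℝ :=
  (∫ η, ⟪η - y, n⟫_ℝ ^ 2 / (t ^ 2 + ‖y - η‖ ^ 2) ^ 2 * kk t (y - η) ∂μ) / vv μ t y

/-- energy of the ray derivative -/
def X3 (β : Sp d → ℝ) (ε : ℝ) (μ : Measure (Sp d)) (n : Sp d) (t : ℝ) (y : Sp d) : ℝ :=
  ∫ z, β z * ((dtv μ t (y + (ε * t) • z)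
      + ε * ⟪z, n⟫_ℝ * ⟪gradient (vv μ t) (y + (ε * t) • z), n⟫_ℝ) ^ 2
    / vv μ t (y + (ε * t) • z))

/-- averages in time with the tent -/
def tav (F : ℝ → Sp d → ℝ) (t : ℝ) (y : Sp d) : ℝ := ∫ r in (t / 2)..(2 * t), tau t r * F r y

/-- the gain functional X^k of the paper, for the scale t -/
def XX (β : Sp d → ℝ) (ε : ℝ) (μ : Measure (Sp d)) (n : Sp d) (t : ℝ) (y : Sp d) : ℝ :=
  tav (X1 β ε μ n) t y + tav (X2 μ n) t y + tav (X3 β ε μ n) t y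

/-! ## Sections 3 to 5: the chain of smoothed fields, cells, defects -/

section Chain

variable {F : Type*} [NormedAddCommGroup F] [NormedSpace ℝ F]

/-- scales -/
def lev (s0 : ℝ) (i : ℕ) : ℝ := s0 * 2 ^ i

/-- smoothed fields -/
def fl (b : Sp d → ℝ) (ε s0 : ℝ) (f : Sp d → F) : ℕ → Sp d → F
  | 0 => f
  | i + 1 => avk b (ε * lev s0 (i + 1)) (fl b ε s0 f i)

end Chain

/-- lattice vector -/
def lat (p : Fin d → ℤ) : Sp d := WithLp.toLp 2 (fun j => (p j : ℝ))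

/-- centre of a cell -/
def cen (s0 : ℝ) (i : ℕ) (p : Fin d → ℤ) : Sp d := lev s0 i • lat p

/-- one dimensional partition function, supported in [-1,1] -/
def chi1 (x : ℝ) : ℝ := Real.smoothTransition (x + 1) - Real.smoothTransition x

/-- partition function -/
def chi (y : Sp d) : ℝ := ∏ j, chi1 (y j)

/-- partition function of a cell with centre x and scale t -/
def chiQ (x : Sp d) (t : ℝ) (y : Sp d) : ℝ := chi ((1 / t) • (y - x))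

section Def2

variable {E : Type} [NormedAddCommGroup E] [InnerProductSpace ℝ E]

/-- the defect functional -/
def DD (b : Sp d → ℝ) (ε R s0 : ℝ) (f : Sp d → E) (i : ℕ) (x : Sp d) (e : E) : ℝ :=
  lev s0 i / lev s0 i ^ d *
    (∑ l ∈ Finset.range (i + 1), (1 / 4 : ℝ) ^ (i - l) *
        (∫ y in ball x (R * lev s0 i), (‖fl b ε s0 f l y‖ - ⟪fl b ε s0 f l y, e⟫_ℝ))
      + (1 / 4 : ℝ) ^ i * ∫ y in ball x (R * lev s0 i), ‖f y‖)

/-- the mass functional -/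
def ma (b : Sp d → ℝ) (ε R s0 : ℝ) (f : Sp d → E) (i : ℕ) (x : Sp d) : ℝ :=
  lev s0 i / lev s0 i ^ d * ∫ y in ball x (R * lev s0 i), ‖fl b ε s0 f (i - 1) y‖

end Def2

/-- rescaled field: centre x, scale t -/
def rs {F : Type*} [NormedAddCommGroup F] [NormedSpace ℝ F] (x : Sp d) (t : ℝ) (f : Sp d → F)
    (y : Sp d) : F := t • f (x + t • y)

/-- rescaled measure -/
def rsm (x : Sp d) (t : ℝ) (μ : Measure (Sp d)) : Measure (Sp d) :=
  ENNReal.ofReal (t / t ^ d) • μ.map (fun y => (1 / t) • (y - x))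

/-- C^J norm of a test function at unit scale -/
structure TFn {F : Type*} [NormedAddCommGroup F] [NormedSpace ℝ F] (J : ℕ) (N : ℝ)
    (ζ : Sp d → F) : Prop where
  smooth : ContDiff ℝ J ζ
  bd : ∀ j ≤ J, ∀ x, ‖iteratedFDeriv ℝ j ζ x‖ ≤ N

/-- averaged Taylor polynomial of degree at most m over the ball with centre c and radius r;
φ is the fixed bump bk of TR -/
def ATP {V : Type*} [NormedAddCommGroup V] [NormedSpace ℝ V] (m : ℕ) (c : Sp d) (r : ℝ)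
    (u : Sp d → V) (x : Sp d) : V :=
  ∫ z, bk d z • ∑ k ∈ Finset.range (m + 1),
    ((Nat.factorial k : ℝ)⁻¹ • iteratedFDeriv ℝ k u (c + r • z) (fun _ => x - (c + r • z)))

/-- the plane integral over {⟨n,x⟩ = c} -/
def plInt {F : Type*} [NormedAddCommGroup F] [NormedSpace ℝ F] (n : Sp d) (c : ℝ)
    (ζ : Sp d → F) : F :=
  ∫ y : (Submodule.span ℝ {n})ᗮ, ζ (c • n + (y : Sp d))

/-- second order operator Σ_k (∂_{S e_k})² -/
def qD {p : ℕ} (S : Sp p →L[ℝ] Sp d) (ζ : Sp d → ℝ) (x : Sp d) : ℝ :=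
  ∑ k : Fin p, iteratedFDeriv ℝ 2 ζ x (fun _ => S (EuclideanSpace.single k (1 : ℝ)))

end

end TG
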