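import Pool.Agent.TR.Plane
import Pool.Agent.TG.Defs

/-!
# From the inequality for finite measures to the frozen statement
-/

open MeasureTheory Metric Set TrI Matrix
open scoped InnerProductSpace ContDiff

namespace TG

noncomputable section

/-- the inequality for finite nonzero measures -/
def MainIneq : Prop :=
  ∀ (d : ℕ) (V E : Type) [NormedAddCommGroup V] [InnerProductSpace ℝ V] [FiniteDimensional ℝ V]
    [NormedAddCommGroup E] [InnerProductSpace ℝ E] [FiniteDimensional ℝ E]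
    (L : (Sp d →L[ℝ] V) →L[ℝ] E), 2 ≤ d → CEll L →
    ∀ C' : ℝ, 0 < C' → ∃ C : ℝ, 0 < C ∧ ∀ μ : Measure (Sp d), Gro C' μ →
      ∀ u : Sp d → V, TF u → ∫⁻ x, ‖u x‖ₑ ∂μ ≤ ENNReal.ofReal C * ∫⁻ x, ‖fo L u x‖ₑ

/-- the frozen statement S04123 -/
def Frozen : Prop :=
  ∀ (d N K : ℕ), 2 ≤ d →
  ∀ A : Fin d → Matrix (Fin K) (Fin N) ℝ,
  (∀ ξ : Fin d → ℂ, ξ ≠ 0 → ∀ v : Fin N → ℂ,
      (∑ j, ξ j • (A j).map (algebraMap ℝ ℂ)) *ᵥ v = 0 → v = 0) →
  ∀ C' : ℝ, 0 < C' → ∃ C : ℝ, 0 < C ∧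
    ∀ μ : MeasureTheory.Measure (EuclideanSpace ℝ (Fin d)),
      MeasureTheory.IsFiniteMeasureOnCompacts μ →
      (∀ x : EuclideanSpace ℝ (Fin d), ∀ r : ℝ, 0 < r →
          μ (Metric.ball x r) ≤ ENNReal.ofReal (C' * r ^ (d - 1))) →
    ∀ u : EuclideanSpace ℝ (Fin d) → EuclideanSpace ℝ (Fin N),
      ContDiff ℝ (⊤ : ℕ∞) u → HasCompactSupport u →
      ∫⁻ x, ‖u x‖ₑ ∂μ ≤ ENNReal.ofReal C *
        ∫⁻ x, ‖∑ j : Fin d, Matrix.toEuclideanLin (A j)
            (fderiv ℝ u x (EuclideanSpace.single j 1))‖ₑ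

theorem frozen_of (hM : MainIneq) : Frozen := by
  intro d N K hd A hA C' hC'
  obtain ⟨C, hC, h⟩ := hM d (EuclideanSpace ℝ (Fin N)) (EuclideanSpace ℝ (Fin K)) (LA A) hd
    (cell_of hA) C' hC'
  refine ⟨C, hC, fun μ hμ hgr u hu hus => ?_⟩
  -- restrict the measure to a ball containing the support
  obtain ⟨r, hr⟩ := hus.isCompact.isBounded.subset_ball (0 : Sp d)
  set ν : Measure (Sp d) := μ.restrict (ball 0 (max r 1)) with hν
  have hr1 : (0 : ℝ) < max r 1 := lt_of_lt_of_le one_pos (le_max_right _ _)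
  have e0 : ∀ x, x ∉ ball (0 : Sp d) (max r 1) → u x = 0 := by
    intro x hx
    by_contra hne
    exact hx (ball_subset_ball (le_max_left _ _) (hr (subset_tsupport u hne)))
  have e1 : ∫⁻ x, ‖u x‖ₑ ∂μ = ∫⁻ x, ‖u x‖ₑ ∂ν := by
    rw [hν]
    refine (setLIntegral_eq_of_support_subset ?_).symm
    intro x hx
    by_contra hne
    exact hx (by simp [e0 x hne])
  have e2 : ∫⁻ x, ‖fo (LA A) u x‖ₑ = ∫⁻ x, ‖∑ j : Fin d, Matrix.toEuclideanLin (A j)
            (fderiv ℝ u x (EuclideanSpace.single j 1))‖ₑ := by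
    refine lintegral_congr fun x => ?_
    rw [fo, LA_apply]
  rw [e1, ← e2]
  by_cases h0 : ν = 0
  · rw [h0]
    simp
  · refine h ν ⟨⟨?_⟩, h0, ?_⟩ u ⟨hu, hus⟩
    · rw [hν, Measure.restrict_apply_univ]
      exact (hgr 0 _ hr1).trans_lt ENNReal.ofReal_lt_top
    · intro x s hs
      exact (Measure.restrict_apply_le _ _).trans (hgr x s hs)

end

end TG
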