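import Pool.Agent.TG.Defs

/-!
# Trace inequality, general operators: cells, tree sums, light cells, assembly (abstract part)

Problem MP_287c87_an, sections 14', 15', 17' of SEC14_17.md.  Everything here is about nonnegative
numbers indexed by the cells of the dyadic tree; no analysis.  Proofs in Tree.lean.
-/

open Set TrI
open scoped ENNReal

namespace TG

noncomputable section

/-- cells: level and lattice point -/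
abbrev Cell (d : ℕ) := ℕ × (Fin d → ℤ)

variable {d : ℕ}

/-- the ancestor i generations up -/
def up (i : ℕ) (Q : Cell d) : Cell d := (Q.1 + i, fun j => Q.2 j / 2 ^ i)

/-- the descendants i generations down (for i ≤ P.1) -/
def dn (i : ℕ) (P : Cell d) : Finset (Cell d) :=
  ({P.1 - i} : Finset ℕ) ×ˢ
    Fintype.piFinset fun j => Finset.Ico (2 ^ i * P.2 j) (2 ^ i * (P.2 j + 1))

/-- weight of a cell: side length to the power d-1 -/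
def cw (s0 : ℝ) (Q : Cell d) : ℝ := lev s0 Q.1 ^ (d - 1)

/-- sum over a set of cells -/
def cs (S : Set (Cell d)) (F : Cell d → ℝ) : ℝ≥0∞ := ∑' Q, S.indicator (fun Q => ENNReal.ofReal (F Q)) Q

/-- the sum over ancestors with weights 2^(-i/4): Bsh and Dsh of the paper -/
def sh (F : Cell d → ℝ) (Q : Cell d) : ℝ := ∑' i : ℕ, (2 : ℝ) ^ (-((i : ℝ) / 4)) * F (up i Q)

/-- the tree facts (T1), (T2): a = mass, at' = tailed mass, G = sums of gaps -/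
structure TreeH (C0 s0 tot : ℝ) (a at' D oml omp : Cell d → ℝ) (G : ℕ → Cell d → ℝ) : Prop where
  C0_one : 1 ≤ C0
  s0_pos : 0 < s0
  tot_nonneg : 0 ≤ tot
  a_nonneg : ∀ Q, 0 ≤ a Q
  at_nonneg : ∀ Q, 0 ≤ at' Q
  D_nonneg : ∀ Q, 0 ≤ D Q
  oml_nonneg : ∀ Q, 0 ≤ oml Q
  omp_nonneg : ∀ Q, 0 ≤ omp Q
  G_nonneg : ∀ i Q, 0 ≤ G i Q
  omp_le : ∀ Q, omp Q ≤ C0
  a_le : ∀ Q, a Q ≤ C0 * at' Q
  T1 : ∀ (i : ℕ) (P : Cell d), i ≤ P.1 →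
    ∑ Q ∈ dn i P, cw s0 Q * a Q ≤ C0 * (cw s0 P * at' P + G i P)
  T2 : ∀ (i : ℕ) (P : Cell d), i ≤ P.1 →
    ∑ Q ∈ dn i P, cw s0 Q * oml Q ^ 2 ≤ C0 * (cw s0 P * omp P ^ 2)
  T3 : ∀ (i : ℕ) (P : Cell d), i ≤ P.1 →
    ∑ Q ∈ dn i P, cw s0 Q * omp Q ^ 2 ≤ C0 * cw s0 P
  G_sum : ∀ i : ℕ, cs univ (G i) ≤ ENNReal.ofReal (C0 * (i + 1) * tot)
  D_sum : cs univ (fun P => cw s0 P * D P) ≤ ENNReal.ofReal (C0 * tot)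

/-- MODULE TS1: (15.1) -/
def StmtTS1 : Prop :=
  ∀ (d : ℕ) (C0 γ : ℝ), 1 ≤ d → 0 < γ → γ ≤ 1 / 8 → ∃ C : ℝ, 0 < C ∧
    ∀ (s0 tot K : ℝ) (a at' D oml omp b : Cell d → ℝ) (G : ℕ → Cell d → ℝ) (NL : Set (Cell d)),
      1 ≤ K → TreeH C0 s0 tot a at' D oml omp G →
      (∀ Q, 0 ≤ b Q) → (∀ Q, b Q ≤ C0 * (at' Q + D Q)) →
      (∃ B, ∀ Q, D Q ≤ B) → (∃ B, ∀ Q, b Q ≤ B) →
      (∀ Q ∈ NL, ∀ i : ℕ, at' (up i Q) ≤ K * (2 : ℝ) ^ (γ * i) * a Q) →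
      (∀ Q ∈ NL, ∀ i : ℕ, D (up i Q) ≤ (2 : ℝ) ^ ((i : ℝ) / 4) * a Q) →
      cs NL (fun Q => cw s0 Q * oml Q * sh D Q) ≤ ENNReal.ofReal (C * K * tot) ∧
      cs NL (fun Q => cw s0 Q * oml Q * sh b Q) ≤
        ENNReal.ofReal (C * Real.sqrt K) * cs univ (fun P => cw s0 P * b P * omp P)
          + ENNReal.ofReal (C * K * tot)

/-- MODULE TS2: (15.2) -/
def StmtTS2 : Prop :=
  ∀ (d : ℕ) (C0 γ : ℝ), 1 ≤ d → 0 < γ → γ ≤ 1 / 8 → ∃ C : ℝ, 0 < C ∧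
    ∀ (s0 tot K δ : ℝ) (a at' D oml omp o : Cell d → ℝ) (G : ℕ → Cell d → ℝ) (S : Set (Cell d)),
      1 ≤ K → 0 < δ → δ ≤ 1 → TreeH C0 s0 tot a at' D oml omp G →
      (∀ Q, 0 ≤ o Q) →
      (∀ (i : ℕ) (P : Cell d), i ≤ P.1 → ∑ Q ∈ dn i P, cw s0 Q * o Q ^ 2 ≤ C0 * cw s0 P) →
      (∀ Q ∈ S, ∀ i : ℕ, at' (up i Q) ≤ K * (2 : ℝ) ^ (γ * i) * a Q) →
      (∀ Q ∈ S, ∃ i : ℕ, δ * (2 : ℝ) ^ ((i : ℝ) / 8) * a Q ≤ D (up i Q)) →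
      cs S (fun Q => cw s0 Q * a Q * o Q) ≤ ENNReal.ofReal (C * K / δ * tot)

/-- MODULE TS3: from omp to oml by passing to the parent -/
def StmtTS3 : Prop :=
  ∀ (d : ℕ) (C0 : ℝ) (m : ℕ), 1 ≤ d → 0 ≤ C0 → ∃ C : ℝ, 0 < C ∧
    ∀ (s0 tot : ℝ) (D oml omp b : Cell d → ℝ), 0 < s0 → 0 ≤ tot →
      (∀ Q, 0 ≤ b Q) → (∀ Q, 0 ≤ D Q) → (∀ Q, 0 ≤ oml Q) → (∀ Q, 0 ≤ omp Q) →
      (∀ Q, b Q ≤ C0 * (b (up m Q) + D Q + D (up m Q))) →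
      (∀ Q, omp Q ≤ C0 * oml (up m Q)) → (∀ Q, omp Q ≤ C0) →
      cs univ (fun P => cw s0 P * D P) ≤ ENNReal.ofReal (C0 * tot) →
      cs univ (fun P => cw s0 P * b P * omp P) ≤
        ENNReal.ofReal C * cs univ (fun P => cw s0 P * b P * oml P) + ENNReal.ofReal (C * tot)

/-- Q is weakly light and up i Q is its top -/
def Top (γ θ : ℝ) (ah at' : Cell d → ℝ) (i : ℕ) (Q : Cell d) : Prop :=
  (∀ l : ℕ, (2 : ℝ) ^ (-(γ * l)) * at' (up l Q) ≤ (2 : ℝ) ^ (-(γ * i)) * at' (up i Q)) ∧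
    ah Q ≤ θ * ((2 : ℝ) ^ (-(γ * i)) * at' (up i Q))

/-- weakly light cells -/
def WL (γ θ : ℝ) (ah at' : Cell d → ℝ) : Set (Cell d) := {Q | ∃ i, Top γ θ ah at' i Q}

/-- tops of class III -/
def CIII (γ κ δ : ℝ) (m : ℕ) (at' D b TG : Cell d → ℝ) : Set (Cell d) :=
  {P | 0 < at' P ∧ (∀ l : ℕ, at' (up l P) ≤ (2 : ℝ) ^ (γ * l) * at' P) ∧ TG P ≤ δ * at' P ∧
    (∀ l : ℕ, D (up l P) ≤ δ * (2 : ℝ) ^ ((l : ℝ) / 8) * at' P) ∧ b (up m P) ≤ κ * at' P}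

/-- MODULE LT: section 14', abstract part -/
def StmtLT : Prop :=
  ∀ (d : ℕ) (C0 C1 γ : ℝ) (m : ℕ), 1 ≤ d → 0 ≤ C1 → 0 < γ → γ ≤ 1 / 8 → ∃ C : ℝ, 0 < C ∧
    ∀ (κ θ δ : ℝ), 0 < κ → κ ≤ 1 → 0 < θ → θ ≤ 1 → 0 < δ → 2 * C0 * δ ≤ 1 → ∃ C' : ℝ, 0 < C' ∧
    ∀ (s0 tot : ℝ) (a at' al ah D oml omp om b Y TG : Cell d → ℝ) (G : ℕ → Cell d → ℝ),
      TreeH C0 s0 tot a at' D oml omp G →
      (∀ Q, 0 ≤ al Q) → (∀ Q, al Q ≤ ah Q) → (∀ Q, ah Q ≤ a Q) → (∀ Q, 0 ≤ b Q) →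
      (∀ Q, 0 ≤ Y Q) → (∀ Q, 0 ≤ om Q) → (∀ Q, om Q ≤ C0) → (∀ Q, 0 ≤ TG Q) →
      (∀ Q, omp Q ≤ C0 * oml (up m Q)) →
      cs univ (fun P => cw s0 P * TG P) ≤ ENNReal.ofReal (C0 * tot) →
      (∀ P, (∀ l : ℕ, at' (up l P) ≤ (2 : ℝ) ^ (γ * l) * at' P) → at' P ≤ C0 * (a P + TG P)) →
      (∀ P ∈ CIII γ κ δ m at' D b TG, ∀ (i : ℕ) (S : Finset (Cell d)), i ≤ P.1 → S ⊆ dn i P →
        (∀ Q ∈ S, Top γ θ ah at' i Q) →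
        ∑ Q ∈ S, cw s0 Q * al Q ≤ C1 * (cw s0 P * (b (up m P) + D (up m P)) + G i P) ∧
        at' P * ∑ Q ∈ S, cw s0 Q * oml Q ^ 2 ≤ C1 * (cw s0 P * om P * Y P)) →
      cs (WL γ θ ah at') (fun Q => cw s0 Q * al Q * oml Q) ≤
        ENNReal.ofReal (C * Real.sqrt θ / κ) * cs univ (fun P => cw s0 P * b P * oml P)
        + ENNReal.ofReal (C * Real.sqrt θ) *
          cs (CIII γ κ δ m at' D b TG) (fun P => cw s0 P * (Y P + b (up m P) * om P))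
        + ENNReal.ofReal (C' * tot)

/-- MODULE AS: section 17', abstract assembly.  X = all b oml, LW = light costs,
the index j runs over n thresholds -/
def StmtAS : Prop :=
  ∀ (C : ℝ), 0 < C → ∃ η0 : ℝ, 0 < η0 ∧ ∀ (CK Cs : ℝ), 0 ≤ CK → 0 ≤ Cs → ∀ nI : ℕ,
    ∃ (n0 : ℕ) (C' : ℝ), 0 < C' ∧ ∀ (d n : ℕ) (tot η : ℝ), n0 ≤ n → 0 ≤ tot → 0 ≤ η → η ≤ η0 →
    ∀ (fX fB fsh : Cell d → ℝ) (Sol III : Set (Cell d)) (INT : ℕ → Set (Cell d)) (LW : ℝ≥0∞),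
      (∀ Q, 0 ≤ fX Q) → (∀ Q, 0 ≤ fB Q) → (∀ Q, 0 ≤ fsh Q) →
      (∀ Q ∈ Sol, {j | j < n ∧ Q ∉ INT j}.ncard ≤ nI) →
      (∀ Q ∈ III, {j | j < n ∧ Q ∉ INT j}.ncard ≤ nI) →
      (∀ j < n, cs (Sol ∩ INT j) fX + cs (III ∩ INT j) fB ≤
        ENNReal.ofReal (Cs * tot) + ENNReal.ofReal η * cs univ fX
          + ENNReal.ofReal CK * cs (Sol ∩ (INT j)ᶜ) fsh + ENNReal.ofReal C * LW) →
      cs Sol fsh ≤ ENNReal.ofReal CK * cs univ fX + ENNReal.ofReal (Cs * tot) →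
      LW ≤ ENNReal.ofReal η * cs univ fX + ENNReal.ofReal η * cs III fB
        + ENNReal.ofReal (Cs * tot) →
      cs univ fX ≤ ENNReal.ofReal C * cs Sol fX + ENNReal.ofReal C * LW
        + ENNReal.ofReal (Cs * tot) →
      cs univ fX < ∞ → cs III fB < ∞ →
      cs univ fX ≤ ENNReal.ofReal (C' * tot)

end

end TG
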