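import Pool.Agent.TG.Stmts3
import Pool.Agent.TG.TreeDefs
import Pool.Agent.TG.Final

/-!
# Trace inequality, general operators: concrete quantities of cells, modules CT and CS   (helper46)

Cells Q : Cell d (TreeDefs); centre xC s0 Q, scale lev s0 Q.1.  The frame of Q is the rescaling
by its centre and scale (module SC).  All statements StmtXX here are proved as theorem stmtXX in
Pool/Agent/TG/XX.lean, with other statements as hypotheses if useful.  No double quotes.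
-/

open MeasureTheory Metric Set TrI
open scoped InnerProductSpace ContDiff ENNReal

namespace TG

noncomputable section

variable {d : ℕ}

/-! ## Basic quantities -/

/-- centre of a cell -/
def xC (s0 : ℝ) (Q : Cell d) : Sp d := cen s0 Q.1 Q.2

/-- the normalisation t^(1-d) -/
def nw (s0 : ℝ) (Q : Cell d) : ℝ := lev s0 Q.1 / lev s0 Q.1 ^ d

section Def1

variable {E : Type} [NormedAddCommGroup E] [InnerProductSpace ℝ E]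

/-- mass of a cell, radius R: al, ah, a of the paper for R = R_l, R_a / 2, R_a -/
def mC (b : Sp d → ℝ) (ε R s0 : ℝ) (f : Sp d → E) (Q : Cell d) : ℝ := ma b ε R s0 f Q.1 (xC s0 Q)

/-- tailed mass -/
def mT (b : Sp d → ℝ) (ε s0 : ℝ) (f : Sp d → E) (Q : Cell d) : ℝ :=
  nw s0 Q * ∫ y, ‖fl b ε s0 f (Q.1 - 1) y‖ / (1 + ‖y - xC s0 Q‖ / lev s0 Q.1) ^ (d + 2)

/-- defect of a cell in the direction e Q -/
def dC (b : Sp d → ℝ) (ε R s0 : ℝ) (f : Sp d → E) (e : Cell d → E) (Q : Cell d) : ℝ :=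
  DD b ε R s0 f Q.1 (xC s0 Q) (e Q)

/-- minimising directions -/
structure Dirs (b : Sp d → ℝ) (ε R s0 : ℝ) (f : Sp d → E) (e : Cell d → E) : Prop where
  unit : ∀ Q, ‖e Q‖ = 1
  min : ∀ (Q : Cell d) (e' : E), ‖e'‖ = 1 →
    dC b ε R s0 f e Q ≤ DD b ε R s0 f Q.1 (xC s0 Q) e'

/-- plane functional of a cell: b of the paper -/
def bC (R0 s0 : ℝ) (f : Sp d → E) (e : Cell d → E) (ν : Cell d → Sp d) (c : Cell d → ℝ)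
    (Q : Cell d) : ℝ := max 0 (bb R0 s0 f Q.1 (xC s0 Q) (e Q) (ν Q) (c Q))

/-- minimising planes -/
structure Plns (R0 s0 : ℝ) (f : Sp d → E) (e : Cell d → E) (ν : Cell d → Sp d)
    (c : Cell d → ℝ) : Prop where
  unit : ∀ Q, ‖ν Q‖ = 1
  loc : ∀ Q, |ht (ν Q) (c Q) (xC s0 Q)| ≤ (R0 + 1) * lev s0 Q.1
  min : ∀ (Q : Cell d) (ν' : Sp d) (c' : ℝ), ‖ν'‖ = 1 →
    |ht ν' c' (xC s0 Q)| ≤ (R0 + 1) * lev s0 Q.1 →
    bb R0 s0 f Q.1 (xC s0 Q) (e Q) (ν Q) (c Q) ≤ bb R0 s0 f Q.1 (xC s0 Q) (e Q) ν' c'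

/-- gap of the triangle inequality, gamma_j of the paper -/
def gm (b : Sp d → ℝ) (ε s0 : ℝ) (f : Sp d → E) (j : ℕ) (y : Sp d) : ℝ :=
  avk b (ε * lev s0 (j + 1)) (fun z => ‖fl b ε s0 f j z‖) y - ‖fl b ε s0 f (j + 1) y‖

/-- G_i(P): gaps between the level of P and the level i generations below, in the ball R t_P -/
def gC (b : Sp d → ℝ) (ε R s0 : ℝ) (f : Sp d → E) (i : ℕ) (P : Cell d) : ℝ :=
  ∑ j ∈ Finset.Ico (P.1 - i - 1) (P.1 - 1), ∫ y in ball (xC s0 P) (R * lev s0 P.1),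
    gm b ε s0 f j y

/-- TG(P): gaps in the tail -/
def tG (b : Sp d → ℝ) (ε s0 : ℝ) (f : Sp d → E) (P : Cell d) : ℝ :=
  nw s0 P * ∑' l : ℕ, (1 / 2 : ℝ) ^ ((l + 1) * (d + 2)) *
    ∑ j ∈ Finset.Ico (P.1 - 1) (P.1 + l), ∫ y in ball (xC s0 P) (2 ^ (l + 2) * lev s0 P.1),
      gm b ε s0 f j y

end Def1

/-- the weights oml, omp of the paper (radius ρ) -/
def oC (μ : Measure (Sp d)) (ρ s0 : ℝ) (Q : Cell d) : ℝ :=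
  Real.sqrt (nw s0 Q * (μ (ball (xC s0 Q) (ρ * lev s0 Q.1))).toReal)

/-- the weight om of the paper -/
def omC (μ : Measure (Sp d)) (s0 : ℝ) (Q : Cell d) : ℝ := vv μ (lev s0 Q.1) (xC s0 Q)

/-! ## Modules CT: tree facts -/

/-- MODULE CG: existence of minimising directions and planes -/
def StmtCG : Prop :=
  ∀ (d : ℕ), 1 ≤ d → ∀ (M c0 ε : ℝ), 0 < ε → ε ≤ 1 → ∀ (b : Sp d → ℝ), BaseKer 2 M c0 b →
  ∀ (E : Type) [NormedAddCommGroup E] [InnerProductSpace ℝ E] [FiniteDimensional ℝ E]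
    [Nontrivial E] (f : Sp d → E), Continuous f → HasCompactSupport f → ∀ (R s0 : ℝ), 0 < R → 0 < s0 →
    (∃ e : Cell d → E, Dirs b ε R s0 f e) ∧
    ∀ (e : Cell d → E) (R0 : ℝ), 1 ≤ R0 → (∀ Q, ‖e Q‖ = 1) →
      ∃ (ν : Cell d → Sp d) (c : Cell d → ℝ), Plns R0 s0 f e ν c

/-- MODULE CT1: the tree facts for mass, tailed mass, gaps and the weights of the measure -/
def StmtCT1 : Prop :=
  ∀ (d : ℕ), 1 ≤ d → ∀ (M c0 ε C' R ρ : ℝ), 0 < ε → ε ≤ 1 → 0 < C' → (d : ℝ) + 4 ≤ R →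
    3 * (d : ℝ) ≤ ρ → ∀ (b : Sp d → ℝ), BaseKer 2 M c0 b → ∀ m : ℕ, 1 ≤ m → ∃ C : ℝ, 1 ≤ C ∧
    ∀ (E : Type) [NormedAddCommGroup E] [InnerProductSpace ℝ E] [FiniteDimensional ℝ E]
      (f : Sp d → E), Continuous f → HasCompactSupport f → ∀ (μ : Measure (Sp d)), Gro C' μ →
    ∀ s0 : ℝ, 0 < s0 →
      (∀ Q : Cell d, 0 ≤ mC b ε R s0 f Q ∧ 0 ≤ mT b ε s0 f Q ∧
        mC b ε R s0 f Q ≤ C * mT b ε s0 f Q) ∧
      (∀ (i : ℕ) (Q : Cell d), 0 ≤ gC b ε (2 * R) s0 f i Q) ∧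
      (∀ Q : Cell d, 0 ≤ oC μ ρ s0 Q ∧ oC μ ρ s0 Q ≤ oC μ (ρ + Real.sqrt d) s0 Q ∧
        oC μ (ρ + Real.sqrt d) s0 Q ≤ C ∧
        oC μ (ρ + Real.sqrt d) s0 Q ≤ C * oC μ ρ s0 (up m Q)) ∧
      (∀ (i : ℕ) (P : Cell d), i ≤ P.1 → ∑ Q ∈ dn i P, cw s0 Q * mC b ε R s0 f Q ≤
        C * (cw s0 P * mT b ε s0 f P + gC b ε (2 * R) s0 f i P)) ∧
      (∀ (i : ℕ) (P : Cell d), i ≤ P.1 → ∑ Q ∈ dn i P, cw s0 Q * oC μ ρ s0 Q ^ 2 ≤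
        C * (cw s0 P * oC μ (ρ + Real.sqrt d) s0 P ^ 2)) ∧
      (∀ (i : ℕ) (P : Cell d), i ≤ P.1 →
        ∑ Q ∈ dn i P, cw s0 Q * oC μ (ρ + Real.sqrt d) s0 Q ^ 2 ≤ C * cw s0 P) ∧
      (∀ i : ℕ, cs univ (gC b ε (2 * R) s0 f i) ≤ ENNReal.ofReal (C * (i + 1) * ∫ y, ‖f y‖))

/-- MODULE CT2: packing for the minimising directions, in the form of cs; boundedness -/
def StmtCT2 : Prop :=
  ∀ (d : ℕ), 1 ≤ d → ∀ (M c0 ε R : ℝ), 0 < ε → ε ≤ 1 → 1 ≤ R → ∀ (b : Sp d → ℝ),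
    BaseKer 2 M c0 b → ∃ C : ℝ, 0 < C ∧
    ∀ (E : Type) [NormedAddCommGroup E] [InnerProductSpace ℝ E] [FiniteDimensional ℝ E]
      [Nontrivial E] (f : Sp d → E), Continuous f → HasCompactSupport f → ∀ s0 : ℝ, 0 < s0 →
    ∀ e : Cell d → E, Dirs b ε R s0 f e →
      (∀ Q, 0 ≤ dC b ε R s0 f e Q) ∧ (∃ B, ∀ Q, dC b ε R s0 f e Q ≤ B) ∧
      cs univ (fun Q => cw s0 Q * dC b ε R s0 f e Q) ≤ ENNReal.ofReal (C * ∫ y, ‖f y‖)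

/-- MODULE CT3: tail lemma (4'.4) and the sum of the tail gaps -/
def StmtCT3 : Prop :=
  ∀ (d : ℕ), 1 ≤ d → ∃ Rt : ℝ, 1 ≤ Rt ∧
    ∀ (M c0 ε : ℝ), 0 < ε → ε ≤ 1 → ∀ (b : Sp d → ℝ), BaseKer 2 M c0 b → ∃ C : ℝ, 0 < C ∧
    ∀ (E : Type) [NormedAddCommGroup E] [InnerProductSpace ℝ E] [FiniteDimensional ℝ E]
      (f : Sp d → E), Continuous f → HasCompactSupport f → ∀ s0 : ℝ, 0 < s0 →
      (∀ P : Cell d, 0 ≤ tG b ε s0 f P) ∧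
      cs univ (fun P => cw s0 P * tG b ε s0 f P) ≤ ENNReal.ofReal (C * ∫ y, ‖f y‖) ∧
      ∀ γ : ℝ, γ ≤ 1 → ∀ P : Cell d,
        (∀ l : ℕ, mT b ε s0 f (up l P) ≤ (2 : ℝ) ^ (γ * l) * mT b ε s0 f P) →
        mT b ε s0 f P ≤ 2 * mC b ε Rt s0 f P + C * tG b ε s0 f P

/-- MODULE CT4: robustness of the masses, the maximum of the tailed masses over the ancestors -/
def StmtCT4 : Prop :=
  ∀ (d : ℕ), 1 ≤ d → ∀ (Mr : ℝ), 0 ≤ Mr → ∃ C : ℝ, 1 ≤ C ∧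
    ∀ (M c0 ε : ℝ), 0 < ε → ε ≤ 1 → ∀ (b : Sp d → ℝ), BaseKer 2 M c0 b →
    ∀ (E : Type) [NormedAddCommGroup E] [InnerProductSpace ℝ E] [FiniteDimensional ℝ E]
      (f : Sp d → E), Continuous f → HasCompactSupport f → ∀ s0 : ℝ, 0 < s0 →
      (∀ R : ℝ, 0 ≤ R → ∀ Q : Cell d, mC b ε R s0 f Q ≤ (1 + R) ^ (d + 2) * mT b ε s0 f Q) ∧
      (∀ Q : Cell d, mT b ε s0 f Q ≤ nw s0 Q * ∫ y, ‖f y‖) ∧
      (∀ (j : ℕ) (Q Q' : Cell d), Q'.1 = Q.1 + j →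
        ‖xC s0 Q' - xC s0 Q‖ ≤ Mr * lev s0 Q'.1 →
        ∀ i : ℕ, mT b ε s0 f (up i Q') ≤ C * mT b ε s0 f (up (i + j) Q) ∧
          mT b ε s0 f (up (i + j) Q) ≤ C * mT b ε s0 f (up i Q')) ∧
      (∀ γ : ℝ, 0 < γ → ∀ Q : Cell d, ∃ i : ℕ, ∀ l : ℕ,
        (2 : ℝ) ^ (-(γ * l)) * mT b ε s0 f (up l Q) ≤ (2 : ℝ) ^ (-(γ * i)) * mT b ε s0 f (up i Q))

/-- MODULE CT5: masses, defects and plane functionals of cells of different levels;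
the level of P is the level of Q plus m, the ball R0 + 1 of Q is contained in the ball R0 of P -/
def StmtCT5 : Prop :=
  ∀ (d : ℕ), 1 ≤ d → ∀ (M c0 ε : ℝ), 0 < ε → ε ≤ 1 → ∀ (b : Sp d → ℝ), BaseKer 2 M c0 b →
  ∀ (R0 : ℝ) (m : ℕ), 3 ≤ R0 → ∃ C : ℝ, 0 < C ∧
    ∀ (E : Type) [NormedAddCommGroup E] [InnerProductSpace ℝ E] [FiniteDimensional ℝ E]
      (R : ℝ), 2 * R0 + 10 ≤ R → ∀ f : Sp d → E, Continuous f → HasCompactSupport f →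
    ∀ s0 : ℝ, 0 < s0 → ∀ e : Cell d → E, Dirs b ε R s0 f e →
    ∀ (ν : Cell d → Sp d) (c : Cell d → ℝ), Plns R0 s0 f e ν c →
      (∀ Q : Cell d, 0 ≤ dC b ε R s0 f e Q ∧ 0 ≤ bC R0 s0 f e ν c Q ∧
        bC R0 s0 f e ν c Q ≤ C * (mC b ε (R0 + 3) s0 f Q + dC b ε R s0 f e Q)) ∧
      (∀ Q P : Cell d, P.1 = Q.1 + m →
        ‖xC s0 P - xC s0 Q‖ ≤ R * (lev s0 P.1 - lev s0 Q.1) →
        dC b ε R s0 f e Q ≤ C * dC b ε R s0 f e P) ∧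
      (∀ Q P : Cell d, P.1 = Q.1 + m →
        ‖xC s0 P - xC s0 Q‖ ≤ R0 * lev s0 P.1 - (R0 + 1) * lev s0 Q.1 →
        bC R0 s0 f e ν c Q ≤ C * (bC R0 s0 f e ν c P + dC b ε R s0 f e Q +
          dC b ε R s0 f e P)) ∧
      (∀ Q P : Cell d, P.1 = Q.1 + m → ∀ r1 r2 : ℝ, 0 ≤ r1 → r2 ≤ R - 3 → 
        r1 * lev s0 Q.1 + ‖xC s0 P - xC s0 Q‖ + lev s0 P.1 ≤ r2 * lev s0 P.1 →
        mC b ε r1 s0 f Q ≤ C * (mC b ε r2 s0 f P + dC b ε R s0 f e P)) ∧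
      (∀ Q P : Cell d, P.1 = Q.1 + m → ∀ (ζ : Sp d → ℝ) (N : ℝ), TFn 2 N ζ →
        (∀ y, R - 3 ≤ ‖y‖ → ζ y = 0) →
        ‖xC s0 P - xC s0 Q‖ ≤ R * (lev s0 P.1 - lev s0 Q.1) →
        |∫ y, ⟪rs (xC s0 Q) (lev s0 Q.1) f y, e Q - e P⟫_ℝ * ζ y| ≤
          C * N * (dC b ε R s0 f e Q + dC b ε R s0 f e P))

/-- MODULE CT6: finiteness of the sums -/
def StmtCT6 : Prop :=
  ∀ (d : ℕ), 2 ≤ d → ∀ (C' ρ : ℝ), 0 < C' → 1 ≤ ρ → ∀ μ : Measure (Sp d), Gro C' μ →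
    ∀ s0 : ℝ, 0 < s0 → ∀ (F : Cell d → ℝ) (B1 B2 : ℝ), 0 ≤ B1 → 0 ≤ B2 →
      (∀ Q, 0 ≤ F Q) → (∀ Q, F Q ≤ B1 * nw s0 Q) →
      (∀ Q, F Q ≠ 0 → ‖xC s0 Q‖ ≤ B2 * (1 + lev s0 Q.1)) →
      cs univ (fun Q => cw s0 Q * F Q * oC μ ρ s0 Q) < ⊤ ∧
      cs univ (fun Q => cw s0 Q * F Q * omC μ s0 Q) < ⊤

/-! ## The final step -/

/-- the main estimate: the sum of all plane functionals -/
def StmtMain : Prop :=
  ∀ (d : ℕ) (V E : Type) [NormedAddCommGroup V] [InnerProductSpace ℝ V] [FiniteDimensional ℝ V]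
    [NormedAddCommGroup E] [InnerProductSpace ℝ E] [FiniteDimensional ℝ E] [Nontrivial E]
    (L : (Sp d →L[ℝ] V) →L[ℝ] E), 2 ≤ d → CEll L → ∀ C' : ℝ, 0 < C' →
    ∃ (M c0 ε R0 R ρ C : ℝ) (b : Sp d → ℝ), BaseKer 2 M c0 b ∧ 0 < ε ∧ ε ≤ 1 ∧
      400 + 8 * d ≤ R0 ∧ R0 + 10 ≤ R ∧ (d : ℝ) + 1 ≤ ρ ∧ 0 < C ∧
      ∀ u : Sp d → V, TF u → ∀ μ : Measure (Sp d), Gro C' μ → ∀ s0 : ℝ, 0 < s0 → s0 ≤ 1 →
        ∃ (e : Cell d → E) (ν : Cell d → Sp d) (c : Cell d → ℝ), (∀ Q, ‖e Q‖ = 1) ∧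
          (∀ Q, ‖ν Q‖ = 1) ∧ (∀ Q, |ht (ν Q) (c Q) (xC s0 Q)| ≤ (R0 + 3) * lev s0 Q.1) ∧
          cs {Q | 2 ≤ Q.1} (fun Q => cw s0 Q *
            bD b ε R0 R s0 (fo L u) Q.1 (xC s0 Q) (e Q) (ν Q) (c Q) * oC μ ρ s0 Q) ≤
              ENNReal.ofReal (C * ∫ y, ‖fo L u y‖)

/-- MODULE CF: from the main estimate to the theorem -/
def StmtCF : Prop := StmtCO → StmtMain → MainIneq

/-! ## Modules CS: contributions and the sum identity (6.1) -/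

/-- the parameters of the fields: base kernel, radius of the Newton field, ε, p0, A -/
structure Prm (d : ℕ) where
  b : Sp d → ℝ
  RN : ℝ
  ε : ℝ
  p0 : ℝ
  A : ℝ

/-- admissible parameters -/
structure PrmOK (M c0 : ℝ) (X : Prm d) : Prop where
  ker : BaseKer 14 M c0 X.b
  RN_ge : 1 ≤ X.RN
  ε_pos : 0 < X.ε
  ε_le : X.ε ≤ 1 / 4
  p0_pos : 0 < X.p0
  p0_le : X.p0 ≤ 1
  A_ge : 1 ≤ X.A

/-- the measure in the frame of Q -/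
def muQ (s0 : ℝ) (μ : Measure (Sp d)) (Q : Cell d) : Measure (Sp d) :=
  rsm (xC s0 Q) (lev s0 Q.1) μ

/-- the profile of the level of Q -/
def bQ (b : Sp d → ℝ) (Q : Cell d) : Sp d → ℝ := KN b (Q.1 - 2)

/-- position of Q' in the frame of Q, for cells of the same level -/
def dsp (Q Q' : Cell d) : Sp d := lat (fun j => Q'.2 j - Q.2 j)

/-- flux density of the Newton field -/
def fxB (b : Sp d → ℝ) (RN : ℝ) (χ χ' β : Sp d → ℝ) (ε p0 A : ℝ) (μ : Measure (Sp d))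
    (y : Sp d) : ℝ :=
  χ' y * Ups p0 A μ 1 y * ⟪gradient χ y, gradient (WW β ε μ 1) y⟫_ℝ
    - avk b RN (fun x => χ' x * Ups p0 A μ 1 x *
        ⟪gradient χ x, gradient (WW β ε μ 1) x⟫_ℝ) y
    - nt b RN (fun i j x => χ' x * Ups p0 A μ 1 x * (1 / 2 *
        (fderiv ℝ χ x (bv i) * fderiv ℝ (WW β ε μ 1) x (bv j)
        + fderiv ℝ χ x (bv j) * fderiv ℝ (WW β ε μ 1) x (bv i)))) y

/-- flux of the field of a density m, kind k: 0 sheet with normal n, 1 Newton, otherwise none -/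
def flx (X : Prm d) (k : ℕ) (χ χ' β : Sp d → ℝ) (μ : Measure (Sp d)) (m : Sp d → ℝ)
    (n : Sp d) : ℝ :=
  if k = 0 then ∫ y, m y * fxA χ χ' β X.ε X.p0 X.A μ n y
  else if k = 1 then ∫ y, m y * fxB X.b X.RN χ χ' β X.ε X.p0 X.A μ y else 0

section Def3

variable {E : Type} [NormedAddCommGroup E] [InnerProductSpace ℝ E]

/-- the density ⟨f,e⟩ in the frame of Q -/
def mQ (s0 : ℝ) (f : Sp d → E) (e : E) (Q : Cell d) (y : Sp d) : ℝ :=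
  ⟪rs (xC s0 Q) (lev s0 Q.1) f y, e⟫_ℝ

/-- main contribution of a cell -/
def Gam (X : Prm d) (s0 : ℝ) (μ : Measure (Sp d)) (f : Sp d → E) (e : Cell d → E)
    (kd : Cell d → ℕ) (nv : Cell d → Sp d) (Q : Cell d) : ℝ :=
  if kd Q = 0 then ∫ y, mQ s0 f (e Q) Q y *
    (chi y * Hn (bQ X.b Q) X.ε X.p0 X.A (muQ s0 μ Q) (nv Q) 1 y)
  else if kd Q = 1 then
    (∫ y, mQ s0 f (e Q) Q y *
      nt X.b X.RN (fun i j x => chi x * HHm (bQ X.b Q) X.ε X.p0 X.A (muQ s0 μ Q) i j x) y)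
    + ∫ y, mQ s0 f (e Q) Q y *
      avk X.b X.RN (fun x => chi x * GG (bQ X.b Q) X.ε (muQ s0 μ Q) 1 x) y
  else ∫ y, mQ s0 f (e Q) Q y * (chi y * GG (bQ X.b Q) X.ε (muQ s0 μ Q) 1 y)

/-- divergence contribution of a cell -/
def Vct (X : Prm d) (s0 : ℝ) (μ : Measure (Sp d)) (f : Sp d → E) (e : Cell d → E)
    (kd : Cell d → ℕ) (nv : Cell d → Sp d) (Q : Cell d) : ℝ :=
  if kd Q = 0 then ∫ y, mQ s0 f (e Q) Q y *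
    dvT chi (bQ X.b Q) X.ε X.p0 X.A (muQ s0 μ Q) (nv Q) y else 0

/-- flux between two cells of the same level, in the frame of Q -/
def Fct (X : Prm d) (s0 : ℝ) (μ : Measure (Sp d)) (f : Sp d → E) (e : Cell d → E)
    (kd : Cell d → ℕ) (nv : Cell d → Sp d) (Q Q' : Cell d) : ℝ :=
  flx X (kd Q) chi (fun x => chi (x - dsp Q Q')) (bQ X.b Q) (muQ s0 μ Q)
      (mQ s0 f (e Q) Q) (nv Q)
    - flx X (kd Q') chi (fun x => chi (x - dsp Q Q')) (bQ X.b Q) (muQ s0 μ Q)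
      (mQ s0 f (e Q') Q) (nv Q')

/-- the adjacent cells of the same level -/
def adj (Q : Cell d) : Finset (Cell d) :=
  ({Q.1} : Finset ℕ) ×ˢ Fintype.piFinset fun j => Finset.Icc (Q.2 j - 1) (Q.2 j + 1)

/-- net contribution of a cell -/
def net (X : Prm d) (s0 : ℝ) (μ : Measure (Sp d)) (f : Sp d → E) (e : Cell d → E)
    (kd : Cell d → ℕ) (nv : Cell d → Sp d) (Q : Cell d) : ℝ :=
  cw s0 Q * (Gam X s0 μ f e kd nv Q + Vct X s0 μ f e kd nv Q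
    - ∑ Q' ∈ adj Q, Fct X s0 μ f e kd nv Q Q')

end Def3

/-! ## Modules CT7 - CT9: weights, frames -/

/-- MODULE CT7: the weights om and oml -/
def StmtCT7 : Prop :=
  ∀ (d : ℕ), 2 ≤ d → ∀ (C' p0 A r : ℝ), 0 < C' → 0 < p0 → p0 ≤ 1 → 1 ≤ A → 0 ≤ r → ∀ m : ℕ,
    ∃ C : ℝ, 0 < C ∧ ∀ μ : Measure (Sp d), Gro C' μ → ∀ s0 : ℝ, 0 < s0 →
      (∀ Q : Cell d, 0 < omC μ s0 Q ∧ omC μ s0 Q ≤ C ∧ vv (muQ s0 μ Q) 1 0 = omC μ s0 Q ∧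
        Gro C' (muQ s0 μ Q)) ∧
      (∀ (Q : Cell d) (ρ : ℝ), 1 ≤ ρ → oC μ ρ s0 Q ^ 2 ≤ C * ρ ^ (d + 1) * omC μ s0 Q ^ 2) ∧
      (∀ Q Q' : Cell d, Q'.1 = Q.1 + m → ‖xC s0 Q' - xC s0 Q‖ ≤ r * lev s0 Q'.1 →
        omC μ s0 Q' ≤ C * omC μ s0 Q ∧ omC μ s0 Q ≤ C * omC μ s0 Q') ∧
      (∀ Q Q' : Cell d, Q'.1 = Q.1 → ‖xC s0 Q' - xC s0 Q‖ ≤ r * lev s0 Q'.1 →
        ∀ y : Sp d, ‖y‖ ≤ r → p0 / 2 ≤ qq A (muQ s0 μ Q) 1 y →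
          omC μ s0 Q ≤ C * oC μ (A + r) s0 Q ∧ omC μ s0 Q' ≤ C * oC μ (A + 2 * r) s0 Q')

/-- MODULE CT8: Lemma Z and the growth of the mass in the frame of a cell -/
def StmtCT8 : Prop :=
  ∀ (d : ℕ), 1 ≤ d → ∀ (M c0 ε : ℝ), 0 < ε → ε ≤ 1 → ∀ (b : Sp d → ℝ), BaseKer 2 M c0 b →
    ∃ C : ℝ, 0 < C ∧ ∀ l : ℕ, ∃ C1 : ℝ, 0 < C1 ∧
    ∀ (E : Type) [NormedAddCommGroup E] [InnerProductSpace ℝ E] [FiniteDimensional ℝ E]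
      (R : ℝ), 2 * (d : ℝ) + 10 ≤ R → 2 ^ l + 3 ≤ R → ∀ f : Sp d → E, Continuous f →
      HasCompactSupport f → ∀ s0 : ℝ, 0 < s0 → ∀ e : Cell d → E, Dirs b ε R s0 f e →
      (∀ Q : Cell d, Continuous (mQ s0 f (e Q) Q) ∧
        ZP (R - 2) (C * dC b ε R s0 f e Q) (mQ s0 f (e Q) Q)) ∧
      (∀ Q : Cell d, mC b ε (2 ^ l) s0 f Q ≤
        C * 2 ^ (l * (d - 1)) * mT b ε s0 f (up l Q) + C1 * dC b ε R s0 f e (up l Q)) ∧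
      (∀ (Q : Cell d) (K γ a : ℝ), 0 ≤ K → 0 ≤ γ → γ ≤ 1 → 0 ≤ a →
        (∀ i ≤ l + 1, mT b ε s0 f (up i Q) ≤ K * (2 : ℝ) ^ (γ * i) * a) →
        MG (C * K) γ (2 ^ l) a (C1 * ∑ r ∈ Finset.range (l + 2), dC b ε R s0 f e (up r Q))
          (mQ s0 f (e Q) Q)) ∧
      (∀ (Q : Cell d) (r : ℝ) (ζ : Sp d → ℝ) (N : ℝ), 0 ≤ r → r + 3 ≤ R → TFn 2 N ζ →
        (∀ y, r ≤ ‖y‖ → ζ y = 0) →
        |∫ y, mQ s0 f (e Q) Q y * ζ y| ≤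
          C * N * (mC b ε (r + 2) s0 f Q + dC b ε R s0 f e Q))

/-- MODULE CT9: defects and directions of neighbours -/
def StmtCT9 : Prop :=
  ∀ (d : ℕ), 1 ≤ d → ∀ (M c0 ε : ℝ), 0 < ε → ε ≤ 1 → ∀ (b : Sp d → ℝ), BaseKer 2 M c0 b →
  ∀ (j : ℕ), ∃ C : ℝ, 0 < C ∧
    ∀ (E : Type) [NormedAddCommGroup E] [InnerProductSpace ℝ E] [FiniteDimensional ℝ E]
      (R r : ℝ), 0 ≤ r → 2 * r + 2 * d + 10 ≤ R → ∀ f : Sp d → E, Continuous f →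
      HasCompactSupport f → ∀ s0 : ℝ, 0 < s0 → ∀ e : Cell d → E, Dirs b ε R s0 f e →
    ∀ Q Q' : Cell d, Q'.1 = Q.1 + j → ‖xC s0 Q' - xC s0 Q‖ ≤ r * lev s0 Q'.1 →
      dC b ε R s0 f e Q' ≤ C * dC b ε R s0 f e (up (j + 1) Q) ∧
      ∀ (ρ : ℝ) (ζ : Sp d → ℝ) (N : ℝ), ρ + r * 2 ^ j + 3 ≤ R → TFn 2 N ζ →
        (∀ y, ρ ≤ ‖y‖ → ζ y = 0) →
        |∫ y, (mQ s0 f (e Q') Q y - mQ s0 f (e Q) Q y) * ζ y| ≤
          C * N * (dC b ε R s0 f e Q + dC b ε R s0 f e (up (j + 1) Q))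

/-! ## Modules CS -/

/-- MODULE CS1: the sum identity (6.1) on one level -/
def StmtCS1 : Prop :=
  ∀ (d : ℕ), 2 ≤ d → ∀ (M c0 C' : ℝ), 0 < C' → ∀ X : Prm d, PrmOK M c0 X →
    ∀ (E : Type) [NormedAddCommGroup E] [InnerProductSpace ℝ E] [FiniteDimensional ℝ E]
      (f : Sp d → E), Continuous f → HasCompactSupport f → ∀ μ : Measure (Sp d), Gro C' μ →
    ∀ s0 : ℝ, 0 < s0 →
    ∀ (e : Cell d → E) (kd : Cell d → ℕ) (nv : Cell d → Sp d),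
      (∀ Q, kd Q = 0 → ‖nv Q‖ = 1) → ∀ i : ℕ,
      {p : Fin d → ℤ | net X s0 μ f e kd nv (i, p) ≠ 0}.Finite ∧
      ∑' p : Fin d → ℤ, net X s0 μ f e kd nv (i, p) =
        ∑' p : Fin d → ℤ, ∫ y, chiQ (cen s0 i p) (lev s0 i) y * ⟪f y, e (i, p)⟫_ℝ *
          GG (KN X.b (i - 2)) X.ε μ (lev s0 i) y

/-- MODULE CS2: bounds and localisation of the net contributions -/
def StmtCS2 : Prop :=
  ∀ (d : ℕ), 2 ≤ d → ∀ (M c0 C' : ℝ), 0 < C' → ∀ X : Prm d, PrmOK M c0 X → ∃ C : ℝ, 0 < C ∧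
    ∀ (E : Type) [NormedAddCommGroup E] [InnerProductSpace ℝ E] [FiniteDimensional ℝ E]
      (f : Sp d → E), Continuous f → HasCompactSupport f → ∀ μ : Measure (Sp d), Gro C' μ →
    ∀ s0 : ℝ, 0 < s0 →
    ∀ (e : Cell d → E) (kd : Cell d → ℕ) (nv : Cell d → Sp d), (∀ Q, ‖e Q‖ = 1) →
      (∀ Q, kd Q = 0 → ‖nv Q‖ = 1) → ∀ Q : Cell d,
      |net X s0 μ f e kd nv Q| ≤ C * (∫ y, ‖f y‖) * omC μ s0 Q ∧
      ∀ B : ℝ, (∀ y, B ≤ ‖y‖ → f y = 0) → net X s0 μ f e kd nv Q ≠ 0 →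
        ‖xC s0 Q‖ ≤ B + C * lev s0 Q.1

/-- the net contributions of the levels ≥ 2 -/
def net2 {E : Type} [NormedAddCommGroup E] [InnerProductSpace ℝ E] (X : Prm d) (s0 : ℝ)
    (μ : Measure (Sp d)) (f : Sp d → E) (e : Cell d → E) (kd : Cell d → ℕ)
    (nv : Cell d → Sp d) (Q : Cell d) : ℝ :=
  if 2 ≤ Q.1 then net X s0 μ f e kd nv Q else 0

/-- MODULE CS: the total of all net contributions -/
def StmtCS : Prop :=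
  ∀ (d : ℕ), 2 ≤ d → ∀ (M c0 C' R : ℝ), 0 < C' → (d : ℝ) + 4 ≤ R → ∀ X : Prm d, PrmOK M c0 X →
    ∃ C : ℝ, 0 < C ∧
    ∀ (E : Type) [NormedAddCommGroup E] [InnerProductSpace ℝ E] [FiniteDimensional ℝ E]
      [Nontrivial E] (f : Sp d → E), Continuous f → HasCompactSupport f →
    ∀ μ : Measure (Sp d), Gro C' μ → ∀ s0 : ℝ, 0 < s0 →
    ∀ (e : Cell d → E) (kd : Cell d → ℕ) (nv : Cell d → Sp d), Dirs X.b X.ε R s0 f e →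
      (∀ Q, kd Q = 0 → ‖nv Q‖ = 1) →
      Summable (net2 X s0 μ f e kd nv) ∧
      ∑' Q, net2 X s0 μ f e kd nv Q ≤ C * ∫ y, ‖f y‖

/-- MODULE CA: abstract summation -/
def StmtCA : Prop :=
  ∀ (d : ℕ) (N g err : Cell d → ℝ) (T : ℝ), Summable N → ∑' Q, N Q ≤ T →
    (∀ Q, 0 ≤ g Q) → (∀ Q, 0 ≤ err Q) → (∀ Q, g Q ≤ N Q + err Q) → 0 ≤ T →
    cs univ g ≤ ENNReal.ofReal T + cs univ err

end

end TG
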