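import Pool.Agent.TG.B0

/-!
# Module DI: change of direction, (4.3) of PAPER.md
-/

open MeasureTheory Metric Set TrI
open scoped InnerProductSpace ContDiff

namespace TG

noncomputable section

variable {d : ℕ} {E : Type} [NormedAddCommGroup E] [InnerProductSpace ℝ E]

/-- a difference of two directions is controlled by the two deficits -/
lemma abs_inner_sub_le {e e' : E} (he : ‖e‖ = 1) (he' : ‖e'‖ = 1) (v : E) :
    |⟪v, e - e'⟫_ℝ| ≤ (‖v‖ - ⟪v, e⟫_ℝ) + (‖v‖ - ⟪v, e'⟫_ℝ) := by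
  have h1 := defi_nonneg he v
  have h2 := defi_nonneg he' v
  rw [inner_sub_right, abs_le]
  constructor <;> linarith

/-- the deficit is integrable on balls -/
lemma defi_LB {G : Sp d → E} (hG : Continuous G) (e : E) :
    LB (fun y => ‖G y‖ - ⟪G y, e⟫_ℝ) := by
  refine LB.of_cont ?_
  fun_prop

lemma dir_bound {G : Sp d → E} (hG : Continuous G) {Z : Sp d → ℝ} {N R : ℝ}
    {e e' : E} (he : ‖e‖ = 1) (he' : ‖e'‖ = 1) (x x' : Sp d) (hN : ∀ y, |Z y| ≤ N)
    (h1 : ∀ y, R ≤ ‖y - x‖ → Z y = 0) (h2 : ∀ y, R ≤ ‖y - x'‖ → Z y = 0) :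
    |∫ y, ⟪G y, e - e'⟫_ℝ * Z y| ≤
      N * ((∫ y in ball x R, (‖G y‖ - ⟪G y, e⟫_ℝ)) +
        ∫ y in ball x' R, (‖G y‖ - ⟪G y, e'⟫_ℝ)) := by
  have hN0 : 0 ≤ N := (abs_nonneg _).trans (hN x)
  have i1 : IntegrableOn (fun y => ‖G y‖ - ⟪G y, e⟫_ℝ) (ball x R) :=
    (defi_LB hG e).integrableOn isBounded_ball
  have i2 : IntegrableOn (fun y => ‖G y‖ - ⟪G y, e'⟫_ℝ) (ball x' R) :=
    (defi_LB hG e').integrableOn isBounded_ball
  rw [← integral_indicator measurableSet_ball, ← integral_indicator measurableSet_ball,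
    ← integral_add (i1.integrable_indicator measurableSet_ball)
      (i2.integrable_indicator measurableSet_ball), ← integral_const_mul]
  rw [← Real.norm_eq_abs]
  refine norm_integral_le_of_norm_le ?_ ?_
  · exact ((i1.integrable_indicator measurableSet_ball).add
      (i2.integrable_indicator measurableSet_ball)).const_mul N
  · refine Filter.Eventually.of_forall fun y => ?_
    have k1 : 0 ≤ (ball x R).indicator (fun y => ‖G y‖ - ⟪G y, e⟫_ℝ) y :=
      Set.indicator_nonneg (fun z _ => defi_nonneg he _) y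
    have k2 : 0 ≤ (ball x' R).indicator (fun y => ‖G y‖ - ⟪G y, e'⟫_ℝ) y :=
      Set.indicator_nonneg (fun z _ => defi_nonneg he' _) y
    by_cases hz : Z y = 0
    · rw [hz, mul_zero, norm_zero]
      exact mul_nonneg hN0 (add_nonneg k1 k2)
    have hy : y ∈ ball x R := by
      by_contra hy
      rw [mem_ball, dist_eq_norm, not_lt] at hy
      exact hz (h1 y hy)
    have hy' : y ∈ ball x' R := by
      by_contra hy
      rw [mem_ball, dist_eq_norm, not_lt] at hy
      exact hz (h2 y hy)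
    rw [Set.indicator_of_mem hy, Set.indicator_of_mem hy', norm_mul, Real.norm_eq_abs,
      Real.norm_eq_abs, mul_comm]
    exact mul_le_mul (hN y) (abs_inner_sub_le he he' _) (abs_nonneg _) hN0

lemma cs_of_vanish' {F : Type*} [NormedAddCommGroup F] {Y : Sp d → F} {x : Sp d} {R : ℝ}
    (h : ∀ y, R ≤ ‖y - x‖ → Y y = 0) : HasCompactSupport Y := by
  refine HasCompactSupport.of_support_subset_isCompact (isCompact_closedBall x R) ?_
  intro y hy
  by_contra hy'
  apply hy
  refine h y ?_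
  rw [mem_closedBall, dist_eq_norm, not_le] at hy'
  exact hy'.le

/-- one step of the telescoping sum -/
lemma dir_step {b : Sp d → ℝ} (hb : Kb b) {G : Sp d → E} [CompleteSpace E] (hG : Continuous G)
    (hGc : HasCompactSupport G) {Y : Sp d → ℝ} (hY : Continuous Y) (hYc : HasCompactSupport Y)
    (w : E) (s : ℝ) :
    ∫ y, ⟪G y, w⟫_ℝ * Y y =
      (∫ y, ⟪avk b s G y, w⟫_ℝ * Y y) + ∫ y, ⟪G y, w⟫_ℝ * (Y y - avk b s Y y) := by
  have hGw : Continuous (fun y => ⟪G y, w⟫_ℝ) := by fun_prop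
  have hGwc : HasCompactSupport (fun y => ⟪G y, w⟫_ℝ) :=
    hGc.comp_left (g := fun v : E => ⟪v, w⟫_ℝ) (inner_zero_left _)
  have h1 : (∫ y, ⟪avk b s G y, w⟫_ℝ * Y y) = ∫ y, ⟪G y, w⟫_ℝ * avk b s Y y := by
    rw [← hb.avk_adj (LB.of_cont hGw) (LB.of_cont hY) hYc s]
    congr 1
    ext y
    rw [hb.avk_inner (LB.of_cont hG) w s y]
  rw [h1, ← integral_add]
  · congr 1
    ext y
    ring
  · exact (hGw.mul (hb.avk_cont hY s)).integrable_of_hasCompactSupport hGwc.mul_right
  · exact (hGw.mul (hY.sub (hb.avk_cont hY s))).integrable_of_hasCompactSupport hGwc.mul_right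

theorem stmtDI : StmtDI := by
  intro d _ M c ε hε hε1 b hb0
  refine ⟨4, by norm_num, ?_⟩
  intro E _ _ _ f hf hfc R hR n e e' he he' x x' Y hY hY1 hY2 hYx hYx'
  have hb := hb0.kb
  have hYc : HasCompactSupport Y := cs_of_vanish' hYx
  set s0 : ℝ := (1 / 2) ^ n with hs0
  set Dx : ℕ → ℝ := fun l => ∫ y in ball x R, (‖fl b ε s0 f l y‖ - ⟪fl b ε s0 f l y, e⟫_ℝ)
    with hDx
  set Dx' : ℕ → ℝ := fun l => ∫ y in ball x' R, (‖fl b ε s0 f l y‖ - ⟪fl b ε s0 f l y, e'⟫_ℝ)
    with hDx'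
  have hDx0 : ∀ l, 0 ≤ Dx l := fun l =>
    setIntegral_nonneg measurableSet_ball fun y _ => defi_nonneg he _
  have hDx0' : ∀ l, 0 ≤ Dx' l := fun l =>
    setIntegral_nonneg measurableSet_ball fun y _ => defi_nonneg he' _
  have key : ∀ k, k ≤ n → |(∫ y, ⟪f y, e - e'⟫_ℝ * Y y)| ≤
      |∫ y, ⟪fl b ε s0 f k y, e - e'⟫_ℝ * Y y| +
        ∑ l ∈ Finset.range k, 4 * (1 / 4 : ℝ) ^ (n - l) * (Dx l + Dx' l) := by
    intro k
    induction k with
    | zero => intro _; simp [fl_zero]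
    | succ k ih =>
      intro hk
      refine (ih (by omega)).trans ?_
      rw [Finset.sum_range_succ, dir_step hb (flB_cont hb hf ε s0 k) (flB_cs hb hfc ε s0 k)
        hY.continuous hYc (e - e') (ε * lev s0 (k + 1)), ← fl_succ]
      have hlev : lev s0 (k + 1) = (1 / 2) ^ (n - (k + 1)) := lev_unit n (k + 1) hk
      have hl0 : 0 ≤ lev s0 (k + 1) := by rw [hlev]; positivity
      have hl1 : lev s0 (k + 1) ≤ 1 := by
        rw [hlev]; exact pow_le_one₀ (by norm_num) (by norm_num)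
      have hs1 : ε * lev s0 (k + 1) ≤ lev s0 (k + 1) := by nlinarith
      have hs0' : 0 ≤ ε * lev s0 (k + 1) := mul_nonneg hε.le hl0
      have hsq : (ε * lev s0 (k + 1)) ^ 2 ≤ 4 * (1 / 4 : ℝ) ^ (n - k) := by
        have h1 : (ε * lev s0 (k + 1)) ^ 2 ≤ (lev s0 (k + 1)) ^ 2 :=
          pow_le_pow_left₀ hs0' hs1 2
        refine h1.trans (le_of_eq ?_)
        rw [hlev, ← pow_mul, mul_comm, pow_mul]
        rw [show n - k = (n - (k + 1)) + 1 by omega, pow_succ]
        norm_num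
        ring
      have hb1 := dir_bound (flB_cont hb hf ε s0 k) (N := 4 * (1 / 4 : ℝ) ^ (n - k)) (R := R)
        (Z := fun y => Y y - avk b (ε * lev s0 (k + 1)) Y y) he he' x x' ?_ ?_ ?_
      · refine (add_le_add_left (abs_add_le _ _) _).trans ?_
        linarith
      · intro y
        have := hb.avk_sub_self hY (N := 1) hY2 (ε * lev s0 (k + 1)) y
        rw [Real.norm_eq_abs, abs_sub_comm, one_mul] at this
        exact this.trans hsq
      · intro y hy
        have h0 : Y y = 0 := hYx y (by linarith)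
        rw [h0, hb.avk_eq_zero _ h0, sub_zero]
        intro z hz
        refine hYx z ?_
        rw [abs_of_nonneg hs0'] at hz
        have : ‖y - x‖ ≤ ‖z - x‖ + ‖z - y‖ := by
          have := norm_sub_le (z - x) (z - y)
          rwa [sub_sub_sub_cancel_left] at this
        linarith
      · intro y hy
        have h0 : Y y = 0 := hYx' y (by linarith)
        rw [h0, hb.avk_eq_zero _ h0, sub_zero]
        intro z hz
        refine hYx' z ?_
        rw [abs_of_nonneg hs0'] at hz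
        have : ‖y - x'‖ ≤ ‖z - x'‖ + ‖z - y‖ := by
          have := norm_sub_le (z - x') (z - y)
          rwa [sub_sub_sub_cancel_left] at this
        linarith
  have hfin := key n le_rfl
  have hlast : |∫ y, ⟪fl b ε s0 f n y, e - e'⟫_ℝ * Y y| ≤ 1 * (Dx n + Dx' n) :=
    dir_bound (flB_cont hb hf ε s0 n) he he' x x' hY1 (fun y hy => hYx y (by linarith))
      (fun y hy => hYx' y (by linarith))
  have hf0 : 0 ≤ (1 / 4 : ℝ) ^ n * ∫ y in ball x R, ‖f y‖ :=
    mul_nonneg (by positivity) (setIntegral_nonneg measurableSet_ball fun y _ => norm_nonneg _)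
  have hf0' : 0 ≤ (1 / 4 : ℝ) ^ n * ∫ y in ball x' R, ‖f y‖ :=
    mul_nonneg (by positivity) (setIntegral_nonneg measurableSet_ball fun y _ => norm_nonneg _)
  have e1 : DD b ε R s0 f n x e = ∑ l ∈ Finset.range (n + 1), (1 / 4 : ℝ) ^ (n - l) * Dx l +
      (1 / 4 : ℝ) ^ n * ∫ y in ball x R, ‖f y‖ := DD_unit b ε R f n x e
  have e2 : DD b ε R s0 f n x' e' = ∑ l ∈ Finset.range (n + 1), (1 / 4 : ℝ) ^ (n - l) * Dx' l +
      (1 / 4 : ℝ) ^ n * ∫ y in ball x' R, ‖f y‖ := DD_unit b ε R f n x' e'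
  rw [e1, e2, Finset.sum_range_succ, Finset.sum_range_succ, Nat.sub_self, pow_zero, one_mul,
    one_mul]
  have e3 : ∑ l ∈ Finset.range n, 4 * (1 / 4 : ℝ) ^ (n - l) * (Dx l + Dx' l) =
      4 * (∑ l ∈ Finset.range n, (1 / 4 : ℝ) ^ (n - l) * Dx l) +
        4 * ∑ l ∈ Finset.range n, (1 / 4 : ℝ) ^ (n - l) * Dx' l := by
    rw [Finset.mul_sum, Finset.mul_sum, ← Finset.sum_add_distrib]
    refine Finset.sum_congr rfl fun l _ => ?_
    ring
  rw [e3] at hfin
  have := hDx0 n
  have := hDx0' n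
  linarith

end

end TG
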