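import Pool.Agent.TG.StmtsFin
import Pool.Agent.TG.Tree0

/-!
# Trace inequality, general operators: the short sums of the defects are payable   (helper32)

No double quotes.
-/

open MeasureTheory Metric Set TrI
open scoped InnerProductSpace ContDiff ENNReal

namespace TG

noncomputable section

theorem stmtDP : StmtDP := by
  intro d r0 C0 hd hC0
  refine ⟨C0 * ∑ r ∈ Finset.range r0, ((2 : ℝ) ^ r) ^ d + 1, by positivity, ?_⟩
  intro s0 tot D hs0 htot hD h
  rw [cs_univ] at h ⊢
  have h1 : ∀ P : Cell d, ENNReal.ofReal (cw s0 P * dsm r0 D P) ≤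
      ∑ r ∈ Finset.range r0, ENNReal.ofReal (cw s0 (up r P) * D (up r P)) := by
    intro P
    unfold dsm
    rw [Finset.mul_sum, ← ENNReal.ofReal_sum_of_nonneg fun r _ =>
      mul_nonneg (cw_nonneg hs0 _) (hD _)]
    exact ENNReal.ofReal_le_ofReal (Finset.sum_le_sum fun r _ =>
      mul_le_mul_of_nonneg_right (cw_up hs0 r P) (hD _))
  calc ∑' P : Cell d, ENNReal.ofReal (cw s0 P * dsm r0 D P)
      ≤ ∑' P : Cell d, ∑ r ∈ Finset.range r0, ENNReal.ofReal (cw s0 (up r P) * D (up r P)) :=
        ENNReal.tsum_le_tsum h1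
    _ = ∑ r ∈ Finset.range r0, ∑' P : Cell d, ENNReal.ofReal (cw s0 (up r P) * D (up r P)) :=
        Summable.tsum_finsetSum fun _ _ => ENNReal.summable
    _ ≤ ∑ r ∈ Finset.range r0, (((2 ^ r) ^ d : ℕ) : ℝ≥0∞) * ENNReal.ofReal (C0 * tot) := by
        refine Finset.sum_le_sum fun r _ => ?_
        refine (tsum_comp_up (fun P : Cell d => ENNReal.ofReal (cw s0 P * D P)) r).trans ?_
        gcongr
    _ = ENNReal.ofReal ((∑ r ∈ Finset.range r0, ((2 : ℝ) ^ r) ^ d) * (C0 * tot)) := by
        rw [Finset.sum_mul, ENNReal.ofReal_sum_of_nonneg fun r _ => by positivity]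
        refine Finset.sum_congr rfl fun r _ => ?_
        rw [← ENNReal.ofReal_natCast, ← ENNReal.ofReal_mul (by positivity)]
        push_cast
        rfl
    _ ≤ _ := by
        apply ENNReal.ofReal_le_ofReal
        nlinarith

end

end TG
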