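import Pool.Agent.TG.Stmts2
import Pool.Agent.TG.TP

/-!
# Module DV: solving the divergence equation on planes

The plane is identified with Sp (d-1); there module TP is applied to the gradient.
-/

set_option linter.unusedSectionVars false

open MeasureTheory Metric Set TrI
open scoped InnerProductSpace ContDiff

namespace TG
namespace DV

/-! ## The parametrisation of the plane -/

lemma frame {k : ℕ} (ν : Sp (k + 1)) (hν : ‖ν‖ = 1) :
    ∃ (I : Sp k →L[ℝ] Sp (k + 1)) (P : Sp (k + 1) →L[ℝ] Sp k), ‖I‖ ≤ 1 ∧ ‖P‖ ≤ 1 ∧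
      (∀ x, ‖I x‖ = ‖x‖) ∧ (∀ x, P (I x) = x) ∧ (∀ y, I (P y) = tang ν y) ∧
      (∀ x, ⟪ν, I x⟫_ℝ = 0) ∧ ∀ F : Sp (k + 1) → ℝ, plInt ν 0 F = ∫ x, F (I x) := by
  have : Fact (Module.finrank ℝ (Sp (k + 1)) = k + 1) := ⟨by simp⟩
  have hν0 : ν ≠ 0 := by
    intro h
    rw [h, norm_zero] at hν
    exact zero_ne_one hν
  let e : (Submodule.span ℝ {ν})ᗮ ≃ₗᵢ[ℝ] Sp k :=
    (OrthonormalBasis.fromOrthogonalSpanSingleton (𝕜 := ℝ) k hν0).repr
  let e1 : (Submodule.span ℝ {ν})ᗮ →L[ℝ] Sp k := e.toContinuousLinearEquiv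
  let e2 : Sp k →L[ℝ] (Submodule.span ℝ {ν})ᗮ := e.symm.toContinuousLinearEquiv
  have h1 : ∀ x, ‖((Submodule.span ℝ {ν})ᗮ.subtypeL.comp e2) x‖ = ‖x‖ := by
    intro x
    have : ‖((e.symm x : (Submodule.span ℝ {ν})ᗮ) : Sp (k + 1))‖ = ‖x‖ := by
      rw [Submodule.norm_coe, LinearIsometryEquiv.norm_map]
    exact this
  have h2 : ∀ y, ‖(e1.comp (Submodule.span ℝ {ν})ᗮ.orthogonalProjectionOnto) y‖ ≤ ‖y‖ := by
    intro y
    have : ‖e ((Submodule.span ℝ {ν})ᗮ.orthogonalProjectionOnto y)‖ ≤ ‖y‖ := by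
      rw [LinearIsometryEquiv.norm_map]
      exact Submodule.norm_orthogonalProjectionOnto_apply_le _ _
    exact this
  refine ⟨(Submodule.span ℝ {ν})ᗮ.subtypeL.comp e2,
    e1.comp (Submodule.span ℝ {ν})ᗮ.orthogonalProjectionOnto, ?_, ?_, h1, ?_, ?_, ?_, ?_⟩
  · refine ContinuousLinearMap.opNorm_le_bound _ zero_le_one fun x => ?_
    rw [h1, one_mul]
  · refine ContinuousLinearMap.opNorm_le_bound _ zero_le_one fun x => ?_
    rw [one_mul]
    exact h2 x
  · intro x
    have : e ((Submodule.span ℝ {ν})ᗮ.orthogonalProjectionOnto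
        ((e.symm x : (Submodule.span ℝ {ν})ᗮ) : Sp (k + 1))) = x := by
      rw [Submodule.orthogonalProjectionOnto_mem_subspace_eq_self, LinearIsometryEquiv.apply_symm_apply]
    exact this
  · intro y
    have : ((e.symm (e ((Submodule.span ℝ {ν})ᗮ.orthogonalProjectionOnto y)) :
        (Submodule.span ℝ {ν})ᗮ) : Sp (k + 1)) = tang ν y := by
      rw [LinearIsometryEquiv.symm_apply_apply]
      have h3 := Submodule.starProjection_orthogonal_val (K := Submodule.span ℝ {ν}) y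
      rw [Submodule.starProjection_unit_singleton ℝ hν] at h3
      exact h3
    exact this
  · intro x
    have := (e.symm x).2
    rw [Submodule.mem_orthogonal_singleton_iff_inner_right] at this
    exact this
  · intro F
    have h3 := e.symm.measurePreserving.integral_comp
      e.symm.toHomeomorph.measurableEmbedding (fun y => F ((0 : ℝ) • ν + (y : Sp (k + 1))))
    unfold plInt
    rw [← h3]
    refine integral_congr_ae (Filter.Eventually.of_forall fun x => ?_)
    have : F ((0 : ℝ) • ν + ((e.symm x : (Submodule.span ℝ {ν})ᗮ) : Sp (k + 1))) =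
      F ((e.symm x : (Submodule.span ℝ {ν})ᗮ) : Sp (k + 1)) := by rw [zero_smul, zero_add]
    exact this

/-- the map T of NSProp for the gradient -/
noncomputable def TT (k : ℕ) : (ContinuousMultilinearMap ℝ (fun _ : Fin 1 => Sp k) (Sp k)) →L[ℝ]
      (ContinuousMultilinearMap ℝ (fun _ : Fin (1 + 1) => Sp k) ℝ) :=
  ContinuousLinearMap.comp
    ((continuousMultilinearCurryRightEquiv' ℝ 1 (Sp k) ℝ).symm.toContinuousLinearEquiv :
      (ContinuousMultilinearMap ℝ (fun _ : Fin 1 => Sp k) (Sp k →L[ℝ] ℝ)) →L[ℝ]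
      (ContinuousMultilinearMap ℝ (fun _ : Fin (1 + 1) => Sp k) ℝ))
    (ContinuousLinearMap.compContinuousMultilinearMapL ℝ (fun _ : Fin 1 => Sp k) (Sp k)
      (Sp k →L[ℝ] ℝ) (TP.ip (Sp k)))

lemma rz_ip (k : ℕ) (S : Sp k →L[ℝ] ℝ) : TP.ip (Sp k) (TP.Rz (Sp k) S) = S := by
  ext w
  rw [TP.ip_apply, real_inner_comm, TP.inner_Rz]

lemma fo_cont {k : ℕ} {u : Sp k → ℝ} (hu : ContDiff ℝ ∞ u) :
    ContDiff ℝ ∞ (fo (TP.Rz (Sp k)) u) :=
  (TP.Rz (Sp k)).contDiff.comp (hu.fderiv_right (m := ∞) (by simp))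

lemma nsprop (k : ℕ) : NSProp (TP.Rz (Sp k)) 1 (TT k) := by
  intro u hu z
  rw [iteratedFDeriv_succ_eq_comp_right]
  have h1 : (fun y => fderiv ℝ u y) = (TP.ip (Sp k)) ∘ (fo (TP.Rz (Sp k)) u) := by
    funext y
    exact (rz_ip k (fderiv ℝ u y)).symm
  rw [h1]
  have h2 := (TP.ip (Sp k)).iteratedFDeriv_comp_left ((fo_cont hu).contDiffAt (x := z)) (i := 1)
    (by exact_mod_cast le_top)
  rw [Function.comp_apply, h2]
  rfl

/-- the divergence in the form of an inner product sum -/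
lemma weak {k : ℕ} {g : Sp k → ℝ} (hg : Continuous g) {Psi : Sp k → Sp k}
    (hP : ContDiff ℝ 1 Psi) (hs : HasCompactSupport Psi)
    (h : ∀ u : Sp k → ℝ, ContDiff ℝ ∞ u →
      ∫ x, u x * g x = ∫ x, ⟪fo (TP.Rz (Sp k)) u x, Psi x⟫_ℝ) :
    ∀ y, g y = -∑ i : Fin k, (fderiv ℝ Psi y (EuclideanSpace.single i (1 : ℝ))) i := by
  have hPd : Continuous (fderiv ℝ Psi) := (hP.fderiv_right (m := 0) (by simp)).continuous
  have hdc : ∀ i : Fin k, Continuous
      (fun y => (fderiv ℝ Psi y (EuclideanSpace.single i (1 : ℝ))) i) := by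
    intro i
    have : Continuous (fun y => fderiv ℝ Psi y (EuclideanSpace.single i (1 : ℝ))) :=
      hPd.clm_apply continuous_const
    exact (EuclideanSpace.proj (𝕜 := ℝ) i).continuous.comp this
  let G : Sp k → ℝ := fun y => g y +
    ∑ i : Fin k, (fderiv ℝ Psi y (EuclideanSpace.single i (1 : ℝ))) i
  have hGc : Continuous G := hg.add (continuous_finsetSum _ fun i _ => hdc i)
  have hmain : ∀ u : Sp k → ℝ, ContDiff ℝ ∞ u → HasCompactSupport u → ∫ x, u x • G x = 0 := by
    intro u hu hus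
    have huc : Continuous u := hu.continuous
    have hui : ∀ F : Sp k → ℝ, Continuous F → Integrable (fun x => u x * F x) := by
      intro F hF
      exact (huc.mul hF).integrable_of_hasCompactSupport hus.mul_right
    have e1 : ∀ i : Fin k, ∫ x, Psi x i * fderiv ℝ u x (EuclideanSpace.single i (1 : ℝ)) =
        -∫ x, u x * (fderiv ℝ Psi x (EuclideanSpace.single i (1 : ℝ))) i := by
      intro i
      have hb := TP.ibp_one
        ((ContinuousLinearMap.mul ℝ ℝ).comp (EuclideanSpace.proj (𝕜 := ℝ) i)) hP hs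
        (hu.of_le (by exact_mod_cast le_top)) (EuclideanSpace.single i (1 : ℝ))
      have e2 : ∀ p, (((ContinuousLinearMap.mul ℝ ℝ).comp (EuclideanSpace.proj (𝕜 := ℝ) i))
          (Psi p)) (fderiv ℝ u p (EuclideanSpace.single i (1 : ℝ))) =
          Psi p i * fderiv ℝ u p (EuclideanSpace.single i (1 : ℝ)) := fun p => rfl
      have e3 : ∀ p, (((ContinuousLinearMap.mul ℝ ℝ).comp (EuclideanSpace.proj (𝕜 := ℝ) i))
          (fderiv ℝ Psi p (-(EuclideanSpace.single i (1 : ℝ))))) (u p) =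
          -(u p * (fderiv ℝ Psi p (EuclideanSpace.single i (1 : ℝ))) i) := by
        intro p
        have : (((ContinuousLinearMap.mul ℝ ℝ).comp (EuclideanSpace.proj (𝕜 := ℝ) i))
          (fderiv ℝ Psi p (-(EuclideanSpace.single i (1 : ℝ))))) (u p) =
          (fderiv ℝ Psi p (-(EuclideanSpace.single i (1 : ℝ)))) i * u p := rfl
        rw [this, map_neg, PiLp.neg_apply]
        ring
      simp_rw [e2, e3] at hb
      rw [hb, integral_neg]
    have e4 : ∫ x, ⟪fo (TP.Rz (Sp k)) u x, Psi x⟫_ℝ =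
        ∑ i : Fin k, ∫ x, Psi x i * fderiv ℝ u x (EuclideanSpace.single i (1 : ℝ)) := by
      rw [← integral_finsetSum]
      · refine integral_congr_ae (Filter.Eventually.of_forall fun x => ?_)
        have h1 : ⟪fo (TP.Rz (Sp k)) u x, Psi x⟫_ℝ = fderiv ℝ u x (Psi x) := by
          rw [real_inner_comm]
          exact TP.inner_Rz _ _
        have h2 : Psi x = ∑ i, Psi x i • (EuclideanSpace.single i (1 : ℝ) : Sp k) := by
          conv_lhs => rw [← (EuclideanSpace.basisFun (Fin k) ℝ).sum_repr (Psi x)]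
          refine Finset.sum_congr rfl fun i _ => ?_
          simp
        simp only
        rw [h1]
        conv_lhs => rw [h2, map_sum]
        refine Finset.sum_congr rfl fun i _ => ?_
        rw [map_smul, smul_eq_mul]
      · intro i _
        have hc : Continuous (fun x => Psi x i * fderiv ℝ u x (EuclideanSpace.single i (1 : ℝ))) := by
          have h1 : Continuous (fun x => Psi x i) :=
            (EuclideanSpace.proj (𝕜 := ℝ) i).continuous.comp hP.continuous
          have h2 : Continuous (fderiv ℝ u) := (hu.fderiv_right (m := 0) (by simp)).continuous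
          exact h1.mul (h2.clm_apply continuous_const)
        refine TP.cs_int hc hs fun p hp => ?_
        rw [hp]
        simp
    have e5 : ∫ x, u x • G x = (∫ x, u x * g x) +
        ∑ i : Fin k, ∫ x, u x * (fderiv ℝ Psi x (EuclideanSpace.single i (1 : ℝ))) i := by
      rw [← integral_finsetSum _ fun i _ => hui _ (hdc i), ← integral_add (hui g hg)
        (integrable_finsetSum _ fun i _ => hui _ (hdc i))]
      refine integral_congr_ae (Filter.Eventually.of_forall fun x => ?_)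
      simp only [G, smul_eq_mul, mul_add, Finset.mul_sum]
    rw [e5, h u hu, e4]
    simp_rw [e1]
    rw [Finset.sum_neg_distrib]
    ring
  have h0 : ∀ᵐ x ∂(volume : Measure (Sp k)), G x = 0 :=
    ae_eq_zero_of_integral_contDiff_smul_eq_zero hGc.locallyIntegrable hmain
  have h1 : G = fun _ => 0 := by
    rw [← hGc.ae_eq_iff_eq (volume : Measure (Sp k)) continuous_const]
    exact h0
  intro y
  have h2 := congrFun h1 y
  simp only [G] at h2
  linarith

/-! ## The solution in the plane -/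

/-- the kernel of the correction -/
noncomputable def be (k : ℕ) (r : ℝ) (y : Sp k) : ℝ := r⁻¹ ^ k * bk k (r⁻¹ • y + 0)

lemma be_contDiff (k : ℕ) (r : ℝ) : ContDiff ℝ ∞ (be k r) := by
  unfold be
  have hb : ContDiff ℝ ∞ (bk k) := bk_contDiff
  fun_prop

lemma be_zero {k : ℕ} {r : ℝ} (hr : 0 < r) {y : Sp k} (hy : r ≤ ‖y‖) : be k r y = 0 := by
  unfold be
  rw [bk_zero, mul_zero]
  rw [add_zero, norm_smul, norm_inv, Real.norm_eq_abs, abs_of_pos hr, inv_mul_eq_div,
    le_div_iff₀ hr, one_mul]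
  exact hy

lemma be_bd (k J : ℕ) {r : ℝ} (hr : 0 < r) : ∃ M : ℝ, 0 < M ∧
    ∀ j ≤ J, ∀ y, ‖iteratedFDeriv ℝ j (be k r) y‖ ≤ M := by
  have h1 : ∀ j : ℕ, ∃ M : ℝ, ∀ y, ‖iteratedFDeriv ℝ j (be k r) y‖ ≤ M := by
    intro j
    have hc : Continuous (iteratedFDeriv ℝ j (be k r)) :=
      (be_contDiff k r).continuous_iteratedFDeriv (by exact_mod_cast le_top)
    have hs : HasCompactSupport (be k r) := by
      refine HasCompactSupport.intro (isCompact_closedBall (0 : Sp k) r) fun y hy => ?_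
      rw [mem_closedBall_zero_iff, not_le] at hy
      exact be_zero hr hy.le
    exact (hs.iteratedFDeriv j).exists_bound_of_continuous hc
  choose M hM using h1
  refine ⟨1 + ∑ j ∈ Finset.range (J + 1), |M j|, by positivity, ?_⟩
  intro j hj y
  have h2 : |M j| ≤ ∑ j ∈ Finset.range (J + 1), |M j| :=
    Finset.single_le_sum (f := fun j => |M j|) (fun _ _ => abs_nonneg _)
      (Finset.mem_range.mpr (by omega))
  have h3 := hM j y
  have h4 := le_abs_self (M j)
  linarith

/-- the averaged Taylor polynomial of degree one integrates against g to a gradient integral -/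
lemma atp_int {k : ℕ} {r : ℝ} (hr : 0 < r) {g : Sp k → ℝ} (hg : Continuous g)
    (hgs : HasCompactSupport g) (h0 : ∫ x, g x = 0) {u : Sp k → ℝ} (hu : ContDiff ℝ ∞ u) :
    Integrable (fun x => ATP 1 0 r u x * g x) ∧
    ∫ x, ATP 1 0 r u x * g x =
      ∫ x, ⟪fo (TP.Rz (Sp k)) u x, be k r x • ∫ y, g y • y⟫_ℝ := by
  have huc : Continuous u := hu.continuous
  have hdc : Continuous (fderiv ℝ u) := (hu.fderiv_right (m := 0) (by simp)).continuous
  have hbc : Continuous (bk k) := bk_cont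
  have hbs : HasCompactSupport (bk k) := (bmp k).hasCompactSupport_normed
  have hi1 : Integrable (fun z : Sp k => bk k z * (u (r • z) - fderiv ℝ u (r • z) (r • z))) := by
    have hc : Continuous (fun z : Sp k => (u (r • z) - fderiv ℝ u (r • z) (r • z))) := by fun_prop
    exact (hbc.mul hc).integrable_of_hasCompactSupport hbs.mul_right
  have hi2 : Integrable (fun z : Sp k => bk k z • fderiv ℝ u (r • z)) := by
    have hc : Continuous (fun z : Sp k => fderiv ℝ u (r • z)) := by fun_prop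
    exact (hbc.smul hc).integrable_of_hasCompactSupport hbs.smul_right
  have hA : ∀ x, ATP 1 0 r u x = (∫ z, bk k z * (u (r • z) - fderiv ℝ u (r • z) (r • z))) +
      (∫ z, bk k z • fderiv ℝ u (r • z)) x := by
    intro x
    rw [ContinuousLinearMap.integral_apply hi2, ← integral_add hi1
      (hi2.apply_continuousLinearMap x)]
    unfold ATP
    refine integral_congr_ae (Filter.Eventually.of_forall fun z => ?_)
    simp only [Finset.sum_range_succ, Finset.sum_range_zero, zero_add, Nat.factorial,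
      iteratedFDeriv_zero_apply, iteratedFDeriv_one_apply, smul_eq_mul,
      _root_.map_sub, Nat.cast_one, inv_one, one_mul,
      _root_.smul_apply]
    ring
  have hgx : Integrable (fun y : Sp k => g y • y) :=
    (hg.smul continuous_id).integrable_of_hasCompactSupport hgs.smul_right
  have hgi : Integrable g := hg.integrable_of_hasCompactSupport hgs
  have hl := ContinuousLinearMap.integral_comp_comm (∫ z, bk k z • fderiv ℝ u (r • z)) hgx
  have hli : Integrable (fun y : Sp k => (∫ z, bk k z • fderiv ℝ u (r • z)) (g y • y)) :=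
    ContinuousLinearMap.integrable_comp _ hgx
  have e0 : ∀ x, ATP 1 0 r u x * g x =
      (∫ z, bk k z * (u (r • z) - fderiv ℝ u (r • z) (r • z))) * g x +
      (∫ z, bk k z • fderiv ℝ u (r • z)) (g x • x) := by
    intro x
    rw [hA, map_smul, smul_eq_mul]
    ring
  refine ⟨?_, ?_⟩
  · simp_rw [e0]
    exact (hgi.const_mul _).add hli
  simp_rw [e0]
  rw [integral_add (hgi.const_mul _) hli, integral_const_mul, h0, mul_zero, zero_add, hl,
    ContinuousLinearMap.integral_apply hi2]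
  have e1 := TP.cov (f := fun z : Sp k => bk k z * fderiv ℝ u (r • z) (∫ y, g y • y))
    (inv_pos.mpr hr) 0
  have e2 : ∫ z, (bk k z • fderiv ℝ u (r • z)) (∫ y, g y • y) =
      ∫ z : Sp k, bk k z * fderiv ℝ u (r • z) (∫ y, g y • y) := rfl
  rw [e2, ← e1]
  refine integral_congr_ae (Filter.Eventually.of_forall fun x => ?_)
  simp only
  rw [real_inner_comm]
  have e3 : ⟪be k r x • ∫ y, g y • y, fo (TP.Rz (Sp k)) u x⟫_ℝ =
      fderiv ℝ u x (be k r x • ∫ y, g y • y) := TP.inner_Rz _ _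
  rw [e3, map_smul, smul_eq_mul]
  have e4 : r • (r⁻¹ • x + 0) = x := by
    rw [add_zero, smul_smul, mul_inv_cancel₀ hr.ne', one_smul]
  rw [e4]
  unfold be
  ring

lemma solve (h : StmtTP) (k : ℕ) (hk : 1 ≤ k) (J : ℕ) (ρ : ℝ) (hρ : 0 < ρ) :
    ∃ C : ℝ, 0 < C ∧ ∀ (g : Sp k → ℝ) (N : ℝ), TFn (J + 2) N g → (∀ y, ρ < ‖y‖ → g y = 0) →
      ∫ x, g x = 0 → ∃ Psi : Sp k → Sp k, TFn J (C * N) Psi ∧ (∀ y, ρ < ‖y‖ → Psi y = 0) ∧
        ∀ u : Sp k → ℝ, ContDiff ℝ ∞ u →
          ∫ x, u x * g x = ∫ x, ⟪fo (TP.Rz (Sp k)) u x, Psi x⟫_ℝ := by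
  obtain ⟨C1, hC1, h1⟩ := h k ℝ (Sp k) (TP.Rz (Sp k)) 1 (TT k) hk le_rfl (nsprop k) J (ρ / 2)
    (ρ + 1) (by linarith) (by linarith)
  obtain ⟨M, hM, hb⟩ := be_bd k J (r := ρ / 2) (by linarith)
  refine ⟨C1 + M * (ρ * (volume.real (closedBall (0 : Sp k) ρ))) + 1, by positivity, ?_⟩
  intro g N hg hgs hg0
  have hN : 0 ≤ N := (norm_nonneg _).trans (hg.bd 0 (Nat.zero_le _) 0)
  have hgc : Continuous g := hg.smooth.continuous
  have hgcs : HasCompactSupport g := by
    refine HasCompactSupport.intro (isCompact_closedBall (0 : Sp k) ρ) fun y hy => ?_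
    rw [mem_closedBall_zero_iff, not_le] at hy
    exact hgs y hy
  obtain ⟨Φ, hΦ1, hΦ2, hΦ3⟩ := h1 0 (ρ / 2) (by rw [norm_zero]; linarith) le_rfl (by linarith)
    g N hg (fun y hy => hgs y (by linarith))
  have hsub : convexHull ℝ (tsupport g ∪ closedBall (0 : Sp k) (ρ / 2)) ⊆ closedBall 0 ρ := by
    refine convexHull_min (union_subset ?_ (closedBall_subset_closedBall (by linarith)))
      (convex_closedBall _ _)
    refine closure_minimal ?_ isClosed_closedBall
    intro y hy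
    rw [mem_closedBall_zero_iff]
    by_contra hlt
    rw [not_le] at hlt
    exact hy (hgs y hlt)
  have hΦs : ∀ y, ρ < ‖y‖ → Φ y = 0 := by
    intro y hy
    by_contra hne
    have := hsub (hΦ2 y hne)
    rw [mem_closedBall_zero_iff] at this
    linarith
  have hbes : ∀ y : Sp k, ρ < ‖y‖ → be k (ρ / 2) y = 0 :=
    fun y hy => be_zero (by linarith) (by linarith)
  have hΦcs : HasCompactSupport Φ := by
    refine HasCompactSupport.intro (isCompact_closedBall (0 : Sp k) ρ) fun y hy => ?_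
    rw [mem_closedBall_zero_iff, not_le] at hy
    exact hΦs y hy
  have hbecs : HasCompactSupport (be k (ρ / 2)) := by
    refine HasCompactSupport.intro (isCompact_closedBall (0 : Sp k) ρ) fun y hy => ?_
    rw [mem_closedBall_zero_iff, not_le] at hy
    exact hbes y hy
  have hbec : ContDiff ℝ J (be k (ρ / 2)) := (be_contDiff _ _).of_le (by exact_mod_cast le_top)
  obtain ⟨v0, hv0⟩ : ∃ v0 : Sp k, v0 = ∫ y, g y • y := ⟨_, rfl⟩
  have hv0n : ‖v0‖ ≤ N * ρ * (volume.real (closedBall (0 : Sp k) ρ)) := by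
    have e1 : v0 = ∫ y in closedBall (0 : Sp k) ρ, g y • y := by
      rw [hv0, setIntegral_eq_integral_of_forall_compl_eq_zero]
      intro y hy
      rw [mem_closedBall_zero_iff, not_le] at hy
      rw [hgs y hy, zero_smul]
    rw [e1]
    refine norm_setIntegral_le_of_norm_le_const measure_closedBall_lt_top fun y hy => ?_
    rw [mem_closedBall_zero_iff] at hy
    rw [norm_smul]
    have e2 : ‖g y‖ ≤ N := by
      have := hg.bd 0 (Nat.zero_le _) y
      rwa [norm_iteratedFDeriv_zero] at this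
    gcongr
  let D : ℝ →L[ℝ] Sp k := (ContinuousLinearMap.id ℝ ℝ).smulRight v0
  have hD : ‖D‖ ≤ ‖v0‖ := by
    refine ContinuousLinearMap.opNorm_le_bound _ (norm_nonneg _) fun t => ?_
    have : D t = t • v0 := rfl
    rw [this, norm_smul, mul_comm]
  have hDc : ContDiff ℝ J (D ∘ be k (ρ / 2)) := D.contDiff.comp hbec
  have hDb : ∀ j ≤ J, ∀ y, ‖iteratedFDeriv ℝ j (D ∘ be k (ρ / 2)) y‖ ≤ ‖v0‖ * M := by
    intro j hj y
    have e1 := D.norm_iteratedFDeriv_comp_left (hbec.contDiffAt (x := y)) (n := j)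
      (by exact_mod_cast hj)
    calc _ ≤ _ := e1
      _ ≤ ‖v0‖ * M := by
        gcongr
        exact hb j hj y
  refine ⟨fun y => Φ y + (D ∘ be k (ρ / 2)) y, ⟨hΦ1.smooth.add hDc, ?_⟩, ?_, ?_⟩
  · intro j hj y
    have e1 : iteratedFDeriv ℝ j (fun y => Φ y + (D ∘ be k (ρ / 2)) y) y =
        iteratedFDeriv ℝ j Φ y + iteratedFDeriv ℝ j (D ∘ be k (ρ / 2)) y := by
      have := iteratedFDeriv_add_apply
        ((hΦ1.smooth.contDiffAt (x := y)).of_le (m := (j : ℕ)) (by exact_mod_cast hj))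
        ((hDc.contDiffAt (x := y)).of_le (m := (j : ℕ)) (by exact_mod_cast hj))
      exact this
    rw [e1]
    refine (norm_add_le _ _).trans ?_
    have e2 := hΦ1.bd j hj y
    have e3 := hDb j hj y
    have e4 : ‖v0‖ * M ≤ N * ρ * (volume.real (closedBall (0 : Sp k) ρ)) * M := by gcongr
    nlinarith
  · intro y hy
    have e1 : Φ y + (D ∘ be k (ρ / 2)) y = 0 := by
      rw [hΦs y hy, Function.comp_apply, hbes y hy, map_zero, add_zero]
    exact e1
  · intro u hu
    have huc : Continuous u := hu.continuous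
    obtain ⟨hi, he⟩ := atp_int (r := ρ / 2) (by linarith) hgc hgcs hg0 hu
    have hi2 : Integrable (fun x => u x * g x) :=
      (huc.mul hgc).integrable_of_hasCompactSupport hgcs.mul_left
    have h3 := hΦ3 u hu
    have e1 : ∀ x, ⟪u x - ATP 1 0 (ρ / 2) u x, g x⟫_ℝ =
        u x * g x - ATP 1 0 (ρ / 2) u x * g x := by
      intro x
      rw [RCLike.inner_apply, conj_trivial]
      ring
    simp_rw [e1] at h3
    rw [integral_sub hi2 hi] at h3
    have hfc : Continuous (fo (TP.Rz (Sp k)) u) := (fo_cont hu).continuous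
    have hi3 : Integrable (fun x => ⟪fo (TP.Rz (Sp k)) u x, Φ x⟫_ℝ) := by
      refine TP.cs_int (hfc.inner hΦ1.smooth.continuous) hΦcs fun p hp => ?_
      rw [hp, inner_zero_right]
    have hi4 : Integrable (fun x => ⟪fo (TP.Rz (Sp k)) u x, be k (ρ / 2) x • v0⟫_ℝ) := by
      refine TP.cs_int (hfc.inner (hbec.continuous.smul continuous_const)) hbecs fun p hp => ?_
      rw [hp, zero_smul, inner_zero_right]
    have e5 : ∫ x, ⟪fo (TP.Rz (Sp k)) u x, Φ x + (D ∘ be k (ρ / 2)) x⟫_ℝ =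
        (∫ x, ⟪fo (TP.Rz (Sp k)) u x, Φ x⟫_ℝ) +
        ∫ x, ⟪fo (TP.Rz (Sp k)) u x, be k (ρ / 2) x • v0⟫_ℝ := by
      rw [← integral_add hi3 hi4]
      refine integral_congr_ae (Filter.Eventually.of_forall fun x => ?_)
      simp only [inner_add_right]
      rfl
    rw [e5, ← h3, hv0, ← he]
    ring

end DV

theorem stmtDV (h : StmtTP) : StmtDV := by
  intro d hd J
  obtain ⟨k, rfl⟩ : ∃ k, d = k + 1 := ⟨d - 1, by omega⟩
  have hk : 1 ≤ k := by omega
  refine ⟨J + 1 + 2, fun ρ hρ => ?_⟩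
  obtain ⟨C, hC, hs⟩ := DV.solve h k hk (J + 1) ρ hρ
  refine ⟨C, hC, ?_⟩
  intro ν hν ζ N hζ hcyl hint
  obtain ⟨I, P, hI, hP, hIn, hPI, hIP, hνI, hpl⟩ := DV.frame ν hν
  have hgT : TFn (J + 1 + 2) N (fun x => ζ (I x)) := by
    refine ⟨hζ.smooth.comp I.contDiff, ?_⟩
    intro j hj x
    have e1 := I.iteratedFDeriv_comp_right hζ.smooth x (i := j) (by exact_mod_cast hj)
    have e2 : (fun x => ζ (I x)) = ζ ∘ I := rfl
    rw [e2, e1]
    refine (ContinuousMultilinearMap.norm_compContinuousLinearMap_le _ _).trans ?_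
    rw [Finset.prod_const, Finset.card_univ, Fintype.card_fin]
    calc ‖iteratedFDeriv ℝ j ζ (I x)‖ * ‖I‖ ^ j ≤ N * 1 := by
          gcongr
          · exact (norm_nonneg _).trans (hζ.bd j hj (I x))
          · exact hζ.bd j hj (I x)
          · exact pow_le_one₀ (norm_nonneg _) hI
      _ = N := mul_one _
  have htI : ∀ x, tang ν (I x) = I x := by
    intro x
    unfold tang
    rw [hνI, zero_smul, sub_zero]
  have hgs : ∀ y, ρ < ‖y‖ → ζ (I y) = 0 := by
    intro y hy
    by_contra hne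
    have := hcyl.supp _ hne
    rw [htI, hIn] at this
    linarith
  obtain ⟨Psi, hPsi, hPs, hPw⟩ := hs (fun x => ζ (I x)) N hgT hgs (by rw [← hpl]; exact hint)
  have hPcs : HasCompactSupport Psi := by
    refine HasCompactSupport.intro (isCompact_closedBall (0 : Sp k) ρ) fun y hy => ?_
    rw [mem_closedBall_zero_iff, not_le] at hy
    exact hPs y hy
  have hdiv := DV.weak hgT.smooth.continuous (hPsi.smooth.of_le (by norm_cast; omega)) hPcs hPw
  have hPP : ContDiff ℝ (J + 1 : ℕ) (Psi ∘ P) := hPsi.smooth.comp P.contDiff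
  have hYc : ContDiff ℝ (J + 1 : ℕ) ((-I) ∘ (Psi ∘ P)) := (-I).contDiff.comp hPP
  have hCN : 0 ≤ C * N := (norm_nonneg _).trans (hPsi.bd 0 (Nat.zero_le _) 0)
  refine ⟨(-I) ∘ (Psi ∘ P), ⟨hYc.of_le (by norm_cast; omega), ?_⟩, ⟨?_, ?_⟩, ?_, ?_⟩
  · intro j hj y
    have e1 := (-I).norm_iteratedFDeriv_comp_left (hPP.contDiffAt (x := y)) (n := j)
      (by norm_cast; omega)
    have e2 := P.iteratedFDeriv_comp_right hPsi.smooth y (i := j) (by norm_cast; omega)
    have e3 : ‖iteratedFDeriv ℝ j (Psi ∘ P) y‖ ≤ C * N := by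
      rw [e2]
      refine (ContinuousMultilinearMap.norm_compContinuousLinearMap_le _ _).trans ?_
      rw [Finset.prod_const, Finset.card_univ, Fintype.card_fin]
      calc ‖iteratedFDeriv ℝ j Psi (P y)‖ * ‖P‖ ^ j ≤ (C * N) * 1 := by
            gcongr
            · exact hPsi.bd j (by omega) (P y)
            · exact pow_le_one₀ (norm_nonneg _) hP
        _ = C * N := mul_one _
    calc _ ≤ _ := e1
      _ ≤ 1 * (C * N) := by
        gcongr
        rw [norm_neg]
        exact hI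
      _ = C * N := one_mul _
  · intro y
    have e1 : P (tang ν y) = P y := by rw [← hIP, hPI]
    simp only [Function.comp_apply, e1]
  · intro y hy
    by_contra hlt
    rw [not_le, ← hIP, hIn] at hlt
    apply hy
    simp only [Function.comp_apply]
    rw [hPs _ hlt, map_zero]
  · intro y
    simp only [Function.comp_apply, _root_.neg_apply, inner_neg_right, hνI, neg_zero]
  · intro y
    have hPd : HasFDerivAt Psi (fderiv ℝ Psi (P y)) (P y) :=
      ((hPsi.smooth.differentiable (by norm_cast)) (P y)).hasFDerivAt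
    have hYd : HasFDerivAt ((-I) ∘ (Psi ∘ P)) ((-I).comp ((fderiv ℝ Psi (P y)).comp P)) y :=
      (-I).hasFDerivAt.comp y (hPd.comp y P.hasFDerivAt)
    unfold dv
    rw [hYd.fderiv]
    have e1 := LinearMap.trace_eq_sum_inner
      (((-I).comp ((fderiv ℝ Psi (P y)).comp P) : Sp (k + 1) →L[ℝ] Sp (k + 1)) :
        Sp (k + 1) →ₗ[ℝ] Sp (k + 1)) (EuclideanSpace.basisFun (Fin (k + 1)) ℝ)
    have e2 := LinearMap.trace_eq_sum_inner
      ((fderiv ℝ Psi (P y) : Sp k →L[ℝ] Sp k) : Sp k →ₗ[ℝ] Sp k)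
      (EuclideanSpace.basisFun (Fin k) ℝ)
    have e3 := LinearMap.trace_comp_comm' (R := ℝ)
      (((fderiv ℝ Psi (P y)).comp P : Sp (k + 1) →L[ℝ] Sp k) : Sp (k + 1) →ₗ[ℝ] Sp k)
      ((-I : Sp k →L[ℝ] Sp (k + 1)) : Sp k →ₗ[ℝ] Sp (k + 1))
    have e4 : ((((fderiv ℝ Psi (P y)).comp P : Sp (k + 1) →L[ℝ] Sp k) :
        Sp (k + 1) →ₗ[ℝ] Sp k)) ∘ₗ ((-I : Sp k →L[ℝ] Sp (k + 1)) : Sp k →ₗ[ℝ] Sp (k + 1)) =
        -((fderiv ℝ Psi (P y) : Sp k →L[ℝ] Sp k) : Sp k →ₗ[ℝ] Sp k) := by
      ext1 x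
      have : (fderiv ℝ Psi (P y)) (P (-(I x))) = -(fderiv ℝ Psi (P y) x) := by
        rw [map_neg, hPI, map_neg]
      exact this
    have e5 : ((-I : Sp k →L[ℝ] Sp (k + 1)) : Sp k →ₗ[ℝ] Sp (k + 1)) ∘ₗ
        (((fderiv ℝ Psi (P y)).comp P : Sp (k + 1) →L[ℝ] Sp k) : Sp (k + 1) →ₗ[ℝ] Sp k) =
        (((-I).comp ((fderiv ℝ Psi (P y)).comp P) : Sp (k + 1) →L[ℝ] Sp (k + 1)) :
        Sp (k + 1) →ₗ[ℝ] Sp (k + 1)) := rfl
    rw [e5, e4, map_neg, e1, e2] at e3
    have e6 : ∀ i : Fin (k + 1), ⟪EuclideanSpace.basisFun (Fin (k + 1)) ℝ i,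
        (((-I).comp ((fderiv ℝ Psi (P y)).comp P) : Sp (k + 1) →L[ℝ] Sp (k + 1)) :
        Sp (k + 1) →ₗ[ℝ] Sp (k + 1)) (EuclideanSpace.basisFun (Fin (k + 1)) ℝ i)⟫_ℝ =
        (((-I).comp ((fderiv ℝ Psi (P y)).comp P)) (EuclideanSpace.single i (1 : ℝ))) i := by
      intro i
      rw [EuclideanSpace.basisFun_apply, EuclideanSpace.inner_single_left]
      simp
    have e7 : ∀ i : Fin k, ⟪EuclideanSpace.basisFun (Fin k) ℝ i,
        ((fderiv ℝ Psi (P y) : Sp k →L[ℝ] Sp k) : Sp k →ₗ[ℝ] Sp k)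
        (EuclideanSpace.basisFun (Fin k) ℝ i)⟫_ℝ =
        (fderiv ℝ Psi (P y) (EuclideanSpace.single i (1 : ℝ))) i := by
      intro i
      rw [EuclideanSpace.basisFun_apply, EuclideanSpace.inner_single_left]
      simp
    simp_rw [e6, e7] at e3
    rw [e3, ← hdiv, hIP, ← hcyl.const]

end TG
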