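import Pool.Agent.TG.FA3

/-!
# MODULE FA: the far region (MP_287c87_an, (10.1); helper51)

If the near fraction `q` is small then `v_t(x)` is close to `√t v_1(y)` for `t ∈ [1/2, 2]` and
`|x - y| ≤ 2`, with small derivatives of the deviation.  So `G ≥ v/25`, `X ≥ v/128` and the tangential
gradient of `W` is small, while the gradient of `Υ` is bounded independently of `p0` and `A`.
-/

open MeasureTheory Metric Set Filter Topology TrI
open scoped InnerProductSpace ContDiff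

namespace TG

noncomputable section

namespace FAm

open THm WBT

variable {d : ℕ}

lemma kit_mono {J m : ℕ} {M : ℝ} {β : Sp d → ℝ} (h : Kit J M β) (hm : m ≤ J) : Kit m M β :=
  { h with
    prof := { h.prof with
      smooth := h.prof.smooth.of_le (by exact_mod_cast hm)
      der := fun j hj => h.prof.der j (hj.trans hm) }
    smooth1 := h.smooth1.of_le (by exact_mod_cast hm)
    smooth2 := h.smooth2.of_le (by exact_mod_cast hm)
    der1 := fun j hj => h.der1 j (hj.trans hm)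
    der2 := fun j hj => h.der2 j (hj.trans hm) }

lemma tau_int : ∫ r in (1 / 2 : ℝ)..2, tau 1 r = 1 / 4 := by
  have hc : Continuous (tau 1) := tau_cont
  rw [← intervalIntegral.integral_add_adjacent_intervals (b := 1) (hc.intervalIntegrable _ _)
    (hc.intervalIntegrable _ _)]
  have e1 : ∫ r in (1 / 2 : ℝ)..1, tau 1 r = ∫ r in (1 / 2 : ℝ)..1, (2 / 3 * r - 1 / 3) := by
    refine intervalIntegral.integral_congr fun r hr => ?_
    rw [uIcc_of_le (by norm_num)] at hr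
    show tau 1 r = 2 / 3 * r - 1 / 3
    rw [tau_left hr.1 hr.2]
    ring
  have e2 : ∫ r in (1 : ℝ)..2, tau 1 r = ∫ r in (1 : ℝ)..2, (2 / 3 - 1 / 3 * r) := by
    refine intervalIntegral.integral_congr fun r hr => ?_
    rw [uIcc_of_le (by norm_num)] at hr
    show tau 1 r = 2 / 3 - 1 / 3 * r
    rw [tau_right hr.1 hr.2]
    ring
  have e3 : ∫ r in (1 / 2 : ℝ)..1, (2 / 3 * r - 1 / 3) = 1 / 12 := by
    rw [intervalIntegral.integral_sub (Continuous.intervalIntegrable (by fun_prop) _ _)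
      (Continuous.intervalIntegrable (by fun_prop) _ _), intervalIntegral.integral_const_mul,
      integral_id, intervalIntegral.integral_const]
    norm_num
  have e4 : ∫ r in (1 : ℝ)..2, (2 / 3 - 1 / 3 * r) = 1 / 6 := by
    rw [intervalIntegral.integral_sub (Continuous.intervalIntegrable (by fun_prop) _ _)
      (Continuous.intervalIntegrable (by fun_prop) _ _), intervalIntegral.integral_const_mul,
      integral_id, intervalIntegral.integral_const]
    norm_num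
  rw [e1, e2, e3, e4]
  norm_num

/-- data of the far region -/
structure Far (μ : Measure (Sp d)) (y : Sp d) (δ η : ℝ) : Prop where
  val : ∀ (t : ℝ) (x : Sp d), 1 / 2 ≤ t → t ≤ 2 → ‖x - y‖ ≤ 2 →
    |vv μ t x - Real.sqrt t * vv μ 1 y| ≤ δ * vv μ 1 y
  der : ∀ (t : ℝ) (x : Sp d), 1 / 2 ≤ t → t ≤ 2 → ‖x - y‖ ≤ 1 →
    ‖gradient (vv μ t) x‖ ≤ η * vv μ 1 y ∧
    |pT (vv μ) t x - 1 / (2 * Real.sqrt t) * vv μ 1 y| ≤ η * vv μ 1 y

lemma dist_far {ε t : ℝ} (hε : 0 < ε) (hε1 : ε ≤ 1 / 4) (ht : 1 / 2 ≤ t) (ht2 : t ≤ 2)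
    {z : Sp d} (hz : ‖z‖ ≤ 1) (y : Sp d) : ‖y + (ε * t) • z - y‖ ≤ 1 := by
  rw [add_sub_cancel_left, norm_smul, Real.norm_eq_abs, abs_of_pos (by positivity)]
  have h1 : ε * t ≤ 1 := by nlinarith
  have h2 : 0 ≤ ε * t := by positivity
  nlinarith [norm_nonneg z]

lemma wv_far {C : ℝ} {μ : Measure (Sp d)} (hV : VOK C (vv μ)) {y : Sp d} {δ η : ℝ}
    (hF : Far μ y δ η) {J : ℕ} {M : ℝ} {β : Sp d → ℝ} (hK : Kit J M β) {ε : ℝ} (hε : 0 < ε)
    (hε1 : ε ≤ 1 / 4) {t : ℝ} (ht : 1 / 2 ≤ t) (ht2 : t ≤ 2) :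
    |wv β ε μ t y - Real.sqrt t * vv μ 1 y| ≤ δ * vv μ 1 y := by
  have ht0 : 0 < t := by linarith
  have hβc : Continuous β := hK.prof.smooth.continuous
  have hβs : HasCompactSupport β := by
    refine HasCompactSupport.intro (isCompact_closedBall 0 1) fun z hz => ?_
    rw [mem_closedBall_zero_iff, not_le] at hz
    exact hK.prof.supp z hz.le
  have hvc : Continuous fun z : Sp d => vv μ t (y + (ε * t) • z) :=
    (hV.sf.contDiff ht0).continuous.comp (by fun_prop)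
  have i0 : Integrable β := hβc.integrable_of_hasCompactSupport hβs
  have i1 : Integrable fun z => β z * vv μ t (y + (ε * t) • z) :=
    (hβc.mul hvc).integrable_of_hasCompactSupport hβs.mul_right
  have e1 : wv β ε μ t y - Real.sqrt t * vv μ 1 y =
      ∫ z, (β z * vv μ t (y + (ε * t) • z) - β z * (Real.sqrt t * vv μ 1 y)) := by
    rw [integral_sub i1 (i0.mul_const _), integral_mul_const, hK.prof.int, one_mul]
    rfl
  have e2 : δ * vv μ 1 y = ∫ z, β z * (δ * vv μ 1 y) := by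
    rw [integral_mul_const, hK.prof.int, one_mul]
  rw [e1, e2]
  refine (abs_integral_le_integral_abs).trans (integral_mono (i1.sub (i0.mul_const _)).abs
    (i0.mul_const _) fun z => ?_)
  have h0 := hK.prof.nonneg z
  show |β z * vv μ t (y + (ε * t) • z) - β z * (Real.sqrt t * vv μ 1 y)| ≤ β z * (δ * vv μ 1 y)
  rw [← mul_sub, abs_mul, abs_of_nonneg h0]
  by_cases hz : ‖z‖ ≤ 1
  · exact mul_le_mul_of_nonneg_left (hF.val t _ ht ht2
      ((dist_far hε hε1 ht ht2 hz y).trans (by norm_num))) h0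
  · rw [not_le] at hz
    rw [hK.prof.supp z hz.le, zero_mul, zero_mul]

lemma sqrt_two_le : Real.sqrt 2 ≤ 1.4143 :=
  Real.sqrt_le_iff.2 ⟨by norm_num, by norm_num⟩

lemma sqrt_half_le : Real.sqrt (1 / 2) ≤ 0.70715 :=
  Real.sqrt_le_iff.2 ⟨by norm_num, by norm_num⟩

lemma GG_far {C : ℝ} {μ : Measure (Sp d)} (hV : VOK C (vv μ)) {y : Sp d} {δ η : ℝ}
    (hF : Far μ y δ η) (hδ : δ ≤ 1 / 200) {J : ℕ} {M : ℝ} {β : Sp d → ℝ} (hK : Kit J M β) {ε : ℝ}
    (hε : 0 < ε) (hε1 : ε ≤ 1 / 4) : 1 / 25 * vv μ 1 y ≤ GG β ε μ 1 y := by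
  have hv := hV.pos 1 y one_pos
  have w1 := wv_far hV hF hK hε hε1 (t := 1) (by norm_num) (by norm_num)
  have w2 := wv_far hV hF hK hε hε1 (t := 1 / 2) (by norm_num) (by norm_num)
  have w3 := wv_far hV hF hK hε hε1 (t := 2) (by norm_num) (by norm_num)
  rw [Real.sqrt_one, one_mul] at w1
  have h1 := (abs_le.1 w1).1
  have h2 := (abs_le.1 w2).2
  have h3 := (abs_le.1 w3).2
  unfold GG
  rw [mul_one]
  have s1 := mul_le_mul_of_nonneg_right sqrt_two_le hv.le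
  have s2 := mul_le_mul_of_nonneg_right sqrt_half_le hv.le
  have s3 := mul_le_mul_of_nonneg_right hδ hv.le
  linarith

/-- lower bound of the energy density -/
lemma HH_far {C : ℝ} {μ : Measure (Sp d)} (hV : VOK C (vv μ)) {y : Sp d} {δ η : ℝ}
    (hF : Far μ y δ η) (hδ : δ ≤ 1 / 200) (hη : η ≤ 1 / 20) {ε : ℝ}
    (hε : 0 < ε) (hε1 : ε ≤ 1 / 4) {n : Sp d} (hn : ‖n‖ = 1) {r : ℝ} (h1 : 1 / 2 ≤ r)
    (h2 : r ≤ 2) {z : Sp d} (hz : ‖z‖ ≤ 1) :
    1 / 32 * vv μ 1 y ≤ HH (vv μ) n ε r z (y + (ε * r) • z) := by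
  have hr0 : 0 < r := by linarith
  have hv := hV.pos 1 y one_pos
  set x := y + (ε * r) • z with hx
  have hxy : ‖x - y‖ ≤ 1 := dist_far hε hε1 h1 h2 hz y
  have hvx := hV.pos r x hr0
  have hval := hF.val r x h1 h2 (hxy.trans (by norm_num))
  obtain ⟨hg, ht⟩ := hF.der r x h1 h2 hxy
  set V := vv μ 1 y with hVd
  have hsr : Real.sqrt r ≤ 1.4143 := (Real.sqrt_le_sqrt h2).trans sqrt_two_le
  have hsr0 : 0 < Real.sqrt r := Real.sqrt_pos.2 hr0
  have hinv : 0.35 ≤ 1 / (2 * Real.sqrt r) := by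
    rw [le_div_iff₀ (by positivity)]
    nlinarith
  have hηV : η * V ≤ 1 / 20 * V := mul_le_mul_of_nonneg_right hη hv.le
  have hpT : 0.3 * V ≤ pT (vv μ) r x := by
    have := (abs_le.1 ht).1
    have h3 : 0.35 * V ≤ 1 / (2 * Real.sqrt r) * V := mul_le_mul_of_nonneg_right hinv hv.le
    linarith
  have hpX : |pX (vv μ) n r x| ≤ 1 / 20 * V := by
    unfold pX
    rw [← inner_grad]
    refine (abs_real_inner_le_norm _ _).trans ?_
    rw [hn, mul_one]
    exact hg.trans hηV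
  have hi : |ε * ⟪n, z⟫_ℝ| ≤ 1 := by
    rw [abs_mul, abs_of_pos hε]
    have := abs_real_inner_le_norm n z
    rw [hn, one_mul] at this
    have h3 := abs_nonneg ⟪n, z⟫_ℝ
    nlinarith
  have hsum : 1 / 4 * V ≤ pT (vv μ) r x + ε * ⟪n, z⟫_ℝ * pX (vv μ) n r x := by
    have h3 : |ε * ⟪n, z⟫_ℝ * pX (vv μ) n r x| ≤ 1 / 20 * V := by
      rw [abs_mul]
      calc |ε * ⟪n, z⟫_ℝ| * |pX (vv μ) n r x| ≤ 1 * (1 / 20 * V) :=
            mul_le_mul hi hpX (abs_nonneg _) zero_le_one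
        _ = _ := one_mul _
    have h4 := (abs_le.1 h3).1
    linarith
  have hvx2 : vv μ r x ≤ 2 * V := by
    have h3 := (abs_le.1 hval).2
    have h4 : Real.sqrt r * V ≤ 1.4143 * V := mul_le_mul_of_nonneg_right hsr hv.le
    have h5 := mul_le_mul_of_nonneg_right hδ hv.le
    linarith
  unfold HH
  rw [le_div_iff₀ hvx]
  have h3 : (1 / 4 * V) ^ 2 ≤ (pT (vv μ) r x + ε * ⟪n, z⟫_ℝ * pX (vv μ) n r x) ^ 2 :=
    pow_le_pow_left₀ (by positivity) hsum 2
  have h4 : 0 ≤ TT (vv μ) n r x := sq_nonneg _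
  unfold QH
  have h5 : 1 / 32 * V * vv μ r x ≤ 1 / 32 * V * (2 * V) :=
    mul_le_mul_of_nonneg_left hvx2 (by positivity)
  nlinarith

lemma X13_far {C : ℝ} {μ : Measure (Sp d)} (hV : VOK C (vv μ)) {y : Sp d} {δ η : ℝ}
    (hF : Far μ y δ η) (hδ : δ ≤ 1 / 200) (hη : η ≤ 1 / 20) {J : ℕ} {M : ℝ} {β : Sp d → ℝ}
    (hK : Kit J M β) {ε : ℝ} (hε : 0 < ε) (hε1 : ε ≤ 1 / 4) {n : Sp d} (hn : ‖n‖ = 1) :
    1 / 128 * vv μ 1 y ≤ X13 β ε μ n 1 y := by
  have hβ : KC 0 β := ⟨(kit_mono hK (Nat.zero_le J)).prof.smooth,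
    fun z hz => hK.prof.supp z hz.le⟩
  rw [X13_eq hV hβ hn, XT_eq_II hV hβ hn]
  set V := vv μ 1 y with hVd
  have hR1 := Reg.bH hV hn ε hβ
  have hR2 : Reg 0 (pr (fun (_ : ℝ) (_ : Sp d) => 1 / 32 * V) β) := Reg.pr (SF.const _) hβ
  have e1 : II ε (pr (fun (_ : ℝ) (_ : Sp d) => 1 / 32 * V) β) y = 1 / 128 * V := by
    rw [II_iter hR2]
    have e2 : ∀ r : ℝ, ∫ z, pr (fun (_ : ℝ) (_ : Sp d) => 1 / 32 * V) β r z (y + (ε * r) • z) =
        1 / 32 * V := by
      intro r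
      unfold pr
      simp only [smul_eq_mul]
      rw [integral_const_mul, hK.prof.int, mul_one]
    simp only [e2, smul_eq_mul]
    rw [intervalIntegral.integral_mul_const, tau_int]
    ring
  rw [← e1]
  unfold II
  refine setIntegral_mono_on (hR2.integrableOn ε y) (hR1.integrableOn ε y) measurableSet_Q2
    fun p hp => ?_
  have ht := tau_nonneg p.1
  have hb := hK.prof.nonneg p.2
  simp only [pr, smul_eq_mul]
  refine mul_le_mul_of_nonneg_left ?_ ht
  rw [mul_comm]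
  by_cases hz : ‖p.2‖ ≤ 1
  · exact mul_le_mul_of_nonneg_left (HH_far hV hF hδ hη hε hε1 hn hp.1.1 hp.1.2 hz) hb
  · rw [not_le] at hz
    rw [hK.prof.supp p.2 hz.le, zero_mul, zero_mul]

lemma tav_X2_nonneg (μ : Measure (Sp d)) (n y : Sp d) : 0 ≤ tav (X2 μ n) 1 y := by
  unfold tav
  refine intervalIntegral.integral_nonneg (by norm_num) fun r hr => ?_
  have hr0 : 0 < r := by
    have := hr.1
    linarith
  refine mul_nonneg (tau_nonneg r) (div_nonneg (integral_nonneg fun η => ?_)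
    (Real.sqrt_nonneg _))
  exact mul_nonneg (by positivity) (kk_nonneg hr0 _)

lemma XX_far {C : ℝ} {μ : Measure (Sp d)} (hV : VOK C (vv μ)) {y : Sp d} {δ η : ℝ}
    (hF : Far μ y δ η) (hδ : δ ≤ 1 / 200) (hη : η ≤ 1 / 20) {J : ℕ} {M : ℝ} {β : Sp d → ℝ}
    (hK : Kit J M β) {ε : ℝ} (hε : 0 < ε) (hε1 : ε ≤ 1 / 4) {n : Sp d} (hn : ‖n‖ = 1) :
    1 / 128 * vv μ 1 y ≤ XX β ε μ n 1 y := by
  have h1 := X13_far hV hF hδ hη hK hε hε1 hn
  have h2 := tav_X2_nonneg μ n y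
  have h3 : XX β ε μ n 1 y = X13 β ε μ n 1 y + tav (X2 μ n) 1 y := by
    unfold XX X13
    ring
  linarith

end FAm

open FAm WBT THm in
/-- MODULE FA: existence of the far constants -/
theorem stmtFA (hTH : StmtTH) (hGN : StmtGN) (hWA : StmtWA) (hTT : StmtTT) : StmtFA := by
  intro d J hd hJ M
  obtain ⟨ε0, hε0, hG⟩ := hGN d J hd (by omega) M
  refine ⟨min ε0 (1 / 4), by positivity, fun ε hε hεle C' hC' => ?_⟩
  have hε4 : ε ≤ 1 / 4 := hεle.trans (min_le_right _ _)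
  have hd1 : 1 ≤ d := by omega
  obtain ⟨c1, hc1, hgain⟩ := hG ε hε (hεle.trans (min_le_left _ _))
  obtain ⟨L, hL0, hL⟩ := trans_lip
  have hKc := Kc_nonneg (d := d)
  obtain ⟨CU, hCU⟩ : ∃ CU, CU = 4 * L * Kq d L := ⟨_, rfl⟩
  have hCU0 : 0 ≤ CU := by
    rw [hCU]
    unfold Kq
    positivity
  obtain ⟨CW, hCW, hW⟩ := hWA d 2 hd M C' ε hC' hε (by linarith)
  obtain ⟨c3, hc3⟩ : ∃ c3, c3 = min (c1 / 128) (1 / 25) := ⟨_, rfl⟩
  have hc30 : 0 < c3 := by
    rw [hc3]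
    positivity
  have hc3a : c3 ≤ c1 / 128 := by rw [hc3]; exact min_le_left _ _
  have hc3b : c3 ≤ 1 / 25 := by rw [hc3]; exact min_le_right _ _
  obtain ⟨i1, hi1⟩ : ∃ i1, i1 = c3 / (2 * (CU + 1)) := ⟨_, rfl⟩
  have hi10 : 0 < i1 := by
    rw [hi1]
    positivity
  have hi1C : CU * i1 ≤ c3 / 2 := by
    rw [hi1, ← mul_div_assoc, div_le_div_iff₀ (by positivity) (by norm_num)]
    nlinarith
  obtain ⟨i0, hi0, hT⟩ := hTT d 0 hd M C' ε i1 hC' hε hε4 hi10
  obtain ⟨η, hη⟩ : ∃ η, η = min i0 (1 / 20) := ⟨_, rfl⟩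
  have hη0 : 0 < η := by
    rw [hη]
    positivity
  have hηi : η ≤ i0 := by rw [hη]; exact min_le_left _ _
  have hη20 : η ≤ 1 / 20 := by rw [hη]; exact min_le_right _ _
  obtain ⟨δ, hδ, hF⟩ := far_deriv hTH hd hC' hη0
  obtain ⟨δ', hδ'⟩ : ∃ δ', δ' = min δ (1 / 200) := ⟨_, rfl⟩
  have hδ'0 : 0 < δ' := by
    rw [hδ']
    positivity
  have hδ'a : δ' ≤ δ := by rw [hδ']; exact min_le_left _ _
  have hδ'b : δ' ≤ 1 / 200 := by rw [hδ']; exact min_le_right _ _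
  obtain ⟨K, hK⟩ : ∃ K, K = 24 * Kc d + 1 := ⟨_, rfl⟩
  have hK0 : 0 < K := by rw [hK]; linarith
  obtain ⟨p0, hp0⟩ : ∃ p0, p0 = min 1 (δ' / (2 * K)) := ⟨_, rfl⟩
  have hp00 : 0 < p0 := by
    rw [hp0]
    positivity
  have hp0a : p0 ≤ 1 := by rw [hp0]; exact min_le_left _ _
  have hp0b : K * p0 ≤ δ' / 2 := by
    have h1 : p0 ≤ δ' / (2 * K) := by rw [hp0]; exact min_le_right _ _
    rw [le_div_iff₀ (by positivity)] at h1
    linarith
  obtain ⟨A, hA⟩ : ∃ A, A = max 8 (max (1 / Real.sqrt p0) (2 * K / δ')) := ⟨_, rfl⟩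
  have hA8 : 8 ≤ A := by rw [hA]; exact le_max_left _ _
  have hA0 : 0 < A := by linarith
  have hAp : 1 / A ^ 2 ≤ p0 := by
    have h1 : 1 / Real.sqrt p0 ≤ A := by
      rw [hA]
      exact (le_max_left _ _).trans (le_max_right _ _)
    have h2 : 0 < Real.sqrt p0 := Real.sqrt_pos.2 hp00
    rw [div_le_iff₀ h2] at h1
    rw [div_le_iff₀ (by positivity)]
    have h3 : 1 ^ 2 ≤ (A * Real.sqrt p0) ^ 2 := pow_le_pow_left₀ zero_le_one h1 2
    rw [mul_pow, Real.sq_sqrt hp00.le] at h3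
    linarith
  have hAK : K * (1 / A) ≤ δ' / 2 := by
    have h1 : 2 * K / δ' ≤ A := by
      rw [hA]
      exact (le_max_right _ _).trans (le_max_right _ _)
    rw [div_le_iff₀ hδ'0] at h1
    rw [mul_one_div, div_le_iff₀ hA0]
    linarith
  obtain ⟨CV, hCV, hvok⟩ := vok hTH hd hC'
  -- the far region
  have hfar : ∀ μ : Measure (Sp d), Gro C' μ → ∀ y : Sp d, qq A μ 1 y ≤ p0 →
      Far μ y δ' η := by
    intro μ hμ y hy
    have hfin : IsFiniteMeasure μ := hμ.fin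
    have hv : ∀ (t : ℝ) (x : Sp d), 1 / 2 ≤ t → t ≤ 2 → ‖x - y‖ ≤ 2 →
        |vv μ t x - Real.sqrt t * vv μ 1 y| ≤ δ' * vv μ 1 y := by
      intro t x ht ht2 hxy
      refine (vv_diff hd1 μ hμ.ne hA8 ht ht2 hxy).trans ?_
      refine mul_le_mul_of_nonneg_right ?_ (Real.sqrt_nonneg _)
      have hq := qq_nonneg A μ y
      have hA1 : 0 ≤ 1 / A := by positivity
      have h1 : 24 * Kc d * (qq A μ 1 y + 1 / A) ≤ K * (p0 + 1 / A) := by
        refine mul_le_mul (by linarith) (by linarith) (by positivity) hK0.le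
      linarith
    exact ⟨hv, hF μ hμ y fun t x ht ht2 hxy => (hv t x ht ht2 hxy).trans
      (mul_le_mul_of_nonneg_right hδ'a (Real.sqrt_nonneg _))⟩
  -- lower bound of H in the far region
  have hH : ∀ β : Sp d → ℝ, Kit J M β → ∀ μ : Measure (Sp d), Gro C' μ → ∀ n : Sp d, ‖n‖ = 1 →
      ∀ y : Sp d, qq A μ 1 y ≤ p0 → c3 / 2 * vv μ 1 y ≤ Hn β ε p0 A μ n 1 y := by
    intro β hβ μ hμ n hn y hy
    have hfin : IsFiniteMeasure μ := hμ.fin
    have hV := hvok μ hμ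
    have hv := hV.pos 1 y one_pos
    have hFar := hfar μ hμ y hy
    have hX := XX_far hV hFar hδ'b hη20 hβ hε hε4 hn
    have hGG := GG_far hV hFar hδ'b hβ hε hε4
    have hgn := hgain β hβ C' μ hC' hμ n hn y
    have h1 : c3 * vv μ 1 y ≤ gn β ε μ n 1 y := by
      refine le_trans ?_ hgn
      have h2 := mul_le_mul_of_nonneg_left hX hc1.le
      have h3 := mul_le_mul_of_nonneg_right hc3a hv.le
      linarith
    have h2 : c3 * vv μ 1 y ≤ GG β ε μ 1 y :=
      (mul_le_mul_of_nonneg_right hc3b hv.le).trans hGG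
    have h3 : ‖tang n (gradient (WW β ε μ 1) y)‖ ≤ i1 * vv μ 1 y := by
      have := hT β (kit_mono hβ (by omega)) μ hμ n y hn (fun t x ht ht2 hxy =>
        ((tang_norm hn _).trans (hFar.der t x ht ht2 hxy).1).trans
          (mul_le_mul_of_nonneg_right hηi hv.le)) 0 le_rfl
      rwa [norm_iteratedFDeriv_zero] at this
    have h4 : ‖tang n (gradient (Ups p0 A μ 1) y)‖ ≤ CU := by
      rw [hCU]
      exact (tang_norm hn _).trans (ups_grad hd1 hL0 hL μ hμ.ne hA0 hp00 hAp hy)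
    have h5 : ⟪tang n (gradient (Ups p0 A μ 1) y), tang n (gradient (WW β ε μ 1) y)⟫_ℝ ≤
        c3 / 2 * vv μ 1 y := by
      refine (real_inner_le_norm _ _).trans ?_
      calc ‖tang n (gradient (Ups p0 A μ 1) y)‖ * ‖tang n (gradient (WW β ε μ 1) y)‖
          ≤ CU * (i1 * vv μ 1 y) := mul_le_mul h4 h3 (norm_nonneg _) hCU0
        _ = CU * i1 * vv μ 1 y := by ring
        _ ≤ _ := mul_le_mul_of_nonneg_right hi1C hv.le
    have hU0 := ups_nonneg p0 A μ y
    have hU1 := ups_le p0 A μ y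
    unfold Hn
    have h6 := mul_le_mul_of_nonneg_left h1 hU0
    have h7 := mul_le_mul_of_nonneg_left h2 (sub_nonneg.2 hU1)
    nlinarith
  obtain ⟨c, hc⟩ : ∃ c, c = min (min c1 (1 / 128)) (min (c3 / 2) (c3 / (2 * CW))) := ⟨_, rfl⟩
  have hc0 : 0 < c := by
    rw [hc]
    positivity
  have hca : c ≤ c1 := by
    rw [hc]
    exact (min_le_left _ _).trans (min_le_left _ _)
  have hcb : c ≤ 1 / 128 := by
    rw [hc]
    exact (min_le_left _ _).trans (min_le_right _ _)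
  have hcc : c ≤ c3 / 2 := by
    rw [hc]
    exact (min_le_right _ _).trans (min_le_left _ _)
  have hcd : c * CW ≤ c3 / 2 := by
    have h1 : c ≤ c3 / (2 * CW) := by
      rw [hc]
      exact (min_le_right _ _).trans (min_le_right _ _)
    rw [le_div_iff₀ (by positivity)] at h1
    linarith
  refine ⟨p0, A, c, hp00, hp0a, by linarith, hc0, ?_, ?_, ?_⟩
  · intro β hβ μ hμ n hn y
    have hfin : IsFiniteMeasure μ := hμ.fin
    have hv := (hvok μ hμ).pos 1 y one_pos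
    obtain ⟨_, _, _, _, hWn⟩ := hW β (kit_mono hβ (by omega)) μ hμ
    obtain ⟨_, hX0, hX1, _⟩ := hWn n hn
    rcases le_or_gt (qq A μ 1 y) p0 with hy | hy
    · refine le_trans ?_ (hH β hβ μ hμ n hn y hy)
      have h1 := hX1 0 (Nat.zero_le _) y
      rw [norm_iteratedFDeriv_zero, Real.norm_eq_abs, abs_of_nonneg (hX0 y)] at h1
      have h2 := mul_le_mul_of_nonneg_left h1 hc0.le
      have h3 := mul_le_mul_of_nonneg_right hcd hv.le
      linarith
    · obtain ⟨hu1, hu2⟩ := ups_near hd1 μ hμ.ne hA0 hp00 hy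
      have e1 : Hn β ε p0 A μ n 1 y = gn β ε μ n 1 y := by
        unfold Hn
        rw [hu1, hu2]
        have : tang n (0 : Sp d) = 0 := by simp [tang]
        rw [this, inner_zero_left]
        ring
      rw [e1]
      refine le_trans ?_ (hgain β hβ C' μ hC' hμ n hn y)
      exact mul_le_mul_of_nonneg_right hca (hX0 y)
  · intro β hβ μ hμ n hn y hy
    have hv := (hvok μ hμ).pos 1 y one_pos
    refine ⟨(mul_le_mul_of_nonneg_right hcc hv.le).trans (hH β hβ μ hμ n hn y hy), ?_⟩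
    refine le_trans (mul_le_mul_of_nonneg_right ?_ hv.le)
      (GG_far (hvok μ hμ) (hfar μ hμ y hy) hδ'b hβ hε hε4)
    linarith
  · intro β hβ μ hμ n hn y hy
    have hv := (hvok μ hμ).pos 1 y one_pos
    exact (mul_le_mul_of_nonneg_right hcb hv.le).trans
      (XX_far (hvok μ hμ) (hfar μ hμ y hy) hδ'b hη20 hβ hε hε4 hn)

end

end TG
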