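import Pool.Agent.TG.TH
import Pool.Agent.TG.Stmts10

/-!
# MODULE FA, part 1: kernel estimates (MP_287c87_an, helper51)
-/

open MeasureTheory Metric Set Filter Topology TrI
open scoped InnerProductSpace ContDiff

namespace TG

noncomputable section

namespace FAm

open THm

variable {d : ℕ}

/-- the radius -/
def rt (t : ℝ) (x : Sp d) : ℝ := Real.sqrt (t ^ 2 + ‖x‖ ^ 2)

lemma kk_rt (t : ℝ) (x : Sp d) : kk t x = t / rt t x ^ d := rfl

lemma rt_ge_t (t : ℝ) (x : Sp d) : t ≤ rt t x := by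
  unfold rt
  refine Real.le_sqrt_of_sq_le ?_
  nlinarith [sq_nonneg ‖x‖]

lemma rt_ge_x (t : ℝ) (x : Sp d) : ‖x‖ ≤ rt t x := by
  unfold rt
  refine Real.le_sqrt_of_sq_le ?_
  nlinarith [sq_nonneg t]

lemma root_tri (x y u v : ℝ) :
    Real.sqrt (x ^ 2 + y ^ 2) ≤ Real.sqrt (u ^ 2 + v ^ 2) + |x - u| + |y - v| := by
  have hr := Real.sqrt_nonneg (u ^ 2 + v ^ 2)
  have hr2 := Real.mul_self_sqrt (by positivity : 0 ≤ u ^ 2 + v ^ 2)
  set r := Real.sqrt (u ^ 2 + v ^ 2) with hrd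
  have hp := abs_nonneg (x - u)
  have hq := abs_nonneg (y - v)
  have hu : |u| ≤ r := by
    rw [hrd]
    exact Real.abs_le_sqrt (by nlinarith [sq_nonneg v])
  have hv : |v| ≤ r := by
    rw [hrd]
    exact Real.abs_le_sqrt (by nlinarith [sq_nonneg u])
  refine Real.sqrt_le_iff.2 ⟨by positivity, ?_⟩
  have h1 : x ^ 2 ≤ (|u| + |x - u|) ^ 2 := by
    rw [← sq_abs x]
    refine pow_le_pow_left₀ (abs_nonneg x) ?_ 2
    have := abs_add_le u (x - u)
    rwa [add_sub_cancel] at this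
  have h2 : y ^ 2 ≤ (|v| + |y - v|) ^ 2 := by
    rw [← sq_abs y]
    refine pow_le_pow_left₀ (abs_nonneg y) ?_ 2
    have := abs_add_le v (y - v)
    rwa [add_sub_cancel] at this
  have h3 : |u| ^ 2 = u ^ 2 := sq_abs u
  have h4 : |v| ^ 2 = v ^ 2 := sq_abs v
  have h5 := abs_nonneg u
  have h6 := abs_nonneg v
  nlinarith [mul_le_mul_of_nonneg_right hu hp, mul_le_mul_of_nonneg_right hv hq,
    mul_nonneg hp hq]

lemma rt_diff (t : ℝ) (x y η : Sp d) :
    |rt t (x - η) - rt 1 (y - η)| ≤ |t - 1| + ‖x - y‖ := by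
  unfold rt
  have h0 : |‖x - η‖ - ‖y - η‖| ≤ ‖x - y‖ := by
    have := abs_norm_sub_norm_le (x - η) (y - η)
    rwa [sub_sub_sub_cancel_right] at this
  have h1 := root_tri t ‖x - η‖ 1 ‖y - η‖
  have h2 := root_tri 1 ‖y - η‖ t ‖x - η‖
  rw [abs_sub_comm 1 t, abs_sub_comm ‖y - η‖] at h2
  rw [abs_le]
  constructor <;> linarith

/-- the constant -/
def Kc (d : ℕ) : ℝ := 2 * d * 9 ^ d

lemma Kc_nonneg : 0 ≤ Kc d := by
  unfold Kc
  positivity

/-- the difference of kernels -/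
lemma kk_diff (hd1 : 1 ≤ d) {t : ℝ} (ht : 1 / 2 ≤ t) (ht2 : t ≤ 2) {x y : Sp d} (hxy : ‖x - y‖ ≤ 2) (η : Sp d) :
    |kk t (x - η) - t * kk 1 (y - η)| ≤
      Kc d * ((|t - 1| + ‖x - y‖) / rt t (x - η)) * kk 1 (y - η) := by
  have hs0 : 0 ≤ |t - 1| + ‖x - y‖ := by positivity
  have hs : |t - 1| + ‖x - y‖ ≤ 3 := by
    have : |t - 1| ≤ 1 := abs_le.2 ⟨by linarith, by linarith⟩
    linarith
  have hd := rt_diff t x y η
  set s := |t - 1| + ‖x - y‖ with hsd
  set a := rt t (x - η) with ha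
  set b := rt 1 (y - η) with hb
  have ha1 : 1 / 2 ≤ a := ht.trans (rt_ge_t t _)
  have hb1 : 1 ≤ b := rt_ge_t 1 _
  have ha0 : 0 < a := by linarith
  have hb0 : 0 < b := by linarith
  rw [kk_rt, kk_rt, ← ha, ← hb]
  have e1 : t / a ^ d - t * (1 / b ^ d) = t * (b ^ d - a ^ d) / (a ^ d * b ^ d) := by
    field_simp
  rw [e1, abs_div, abs_mul, abs_of_pos (by linarith : 0 < t),
    abs_of_pos (by positivity : 0 < a ^ d * b ^ d)]
  have h1 := abs_pow_sub_pow_le b a d
  have h2 : |b - a| ≤ s := by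
    rw [abs_sub_comm]
    exact hd
  have h3 : max |b| |a| ≤ 7 * a := by
    rw [abs_of_pos hb0, abs_of_pos ha0]
    refine max_le ?_ (by linarith)
    have := (abs_le.1 h2).2
    linarith
  have h4 : max |b| |a| ^ (d - 1) ≤ (7 * a) ^ (d - 1) :=
    pow_le_pow_left₀ (le_max_of_le_left (abs_nonneg b)) h3 _
  have h5 : (7 * a) ^ (d - 1) * a ≤ 9 ^ d * a ^ d := by
    obtain ⟨k, rfl⟩ : ∃ k, d = k + 1 := ⟨d - 1, by omega⟩
    rw [Nat.add_sub_cancel, mul_pow, pow_succ a k]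
    have : (7 : ℝ) ^ k ≤ 9 ^ (k + 1) := by
      calc (7 : ℝ) ^ k ≤ 9 ^ k := pow_le_pow_left₀ (by norm_num) (by norm_num) k
        _ ≤ 9 ^ (k + 1) := pow_le_pow_right₀ (by norm_num) (by omega)
    have h6 : 0 ≤ a ^ k * a := by positivity
    nlinarith
  have h6 : |b ^ d - a ^ d| * a ≤ s * d * (9 ^ d * a ^ d) := by
    calc |b ^ d - a ^ d| * a ≤ (|b - a| * d * max |b| |a| ^ (d - 1)) * a :=
          mul_le_mul_of_nonneg_right h1 ha0.le
      _ ≤ (s * d * (7 * a) ^ (d - 1)) * a := by gcongr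
      _ = s * d * ((7 * a) ^ (d - 1) * a) := by ring
      _ ≤ _ := mul_le_mul_of_nonneg_left h5 (by positivity)
  rw [div_le_iff₀ (by positivity)]
  unfold Kc
  have e2 : 2 * ↑d * 9 ^ d * (s / a) * (1 / b ^ d) * (a ^ d * b ^ d) =
      2 * (s * d * (9 ^ d * a ^ d)) / a := by
    field_simp
  rw [e2, le_div_iff₀ ha0]
  have h7 : 0 ≤ |b ^ d - a ^ d| * a := by positivity
  nlinarith

/-! ### The cut-off -/

/-- the square root of the cut-off -/
def st (A : ℝ) (x : Sp d) : ℝ := Real.smoothTransition (2 - 2 * (‖x‖ / (A * 1)))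

lemma cut_st (A : ℝ) (x : Sp d) : cut (‖x‖ / (A * 1)) = st A x ^ 2 := rfl

lemma st_nonneg (A : ℝ) (x : Sp d) : 0 ≤ st A x := Real.smoothTransition.nonneg _

lemma st_le (A : ℝ) (x : Sp d) : st A x ≤ 1 := Real.smoothTransition.le_one _

lemma st_one {A : ℝ} (hA : 0 < A) {x : Sp d} (hx : ‖x‖ ≤ A / 2) : st A x = 1 := by
  refine Real.smoothTransition.one_of_one_le ?_
  rw [mul_one]
  have : ‖x‖ / A ≤ 1 / 2 := by
    rw [div_le_iff₀ hA]
    linarith
  linarith

/-- the smooth transition function is Lipschitz -/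
lemma trans_lip : ∃ L : ℝ, 1 ≤ L ∧ ∀ a b : ℝ,
    |Real.smoothTransition a - Real.smoothTransition b| ≤ L * |a - b| := by
  have hcd : ContDiff ℝ ∞ Real.smoothTransition := Real.smoothTransition.contDiff
  have hc : Continuous (deriv Real.smoothTransition) := hcd.continuous_deriv (by simp)
  have h0 : ∀ t : ℝ, t < 0 ∨ 1 < t → deriv Real.smoothTransition t = 0 := by
    rintro t (ht | ht)
    · have : Real.smoothTransition =ᶠ[𝓝 t] fun _ => 0 := by
        filter_upwards [Iio_mem_nhds ht] with s hs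
        exact Real.smoothTransition.zero_of_nonpos (le_of_lt hs)
      rw [this.deriv_eq]
      simp
    · have : Real.smoothTransition =ᶠ[𝓝 t] fun _ => 1 := by
        filter_upwards [Ioi_mem_nhds ht] with s hs
        exact Real.smoothTransition.one_of_one_le (le_of_lt hs)
      rw [this.deriv_eq]
      simp
  obtain ⟨B, hB⟩ := isCompact_Icc.exists_bound_of_continuousOn (s := Icc (0 : ℝ) 1)
    (f := deriv Real.smoothTransition) hc.continuousOn
  have hB' : ∀ t : ℝ, ‖deriv Real.smoothTransition t‖ ≤ max B 1 := by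
    intro t
    by_cases ht : t ∈ Icc (0 : ℝ) 1
    · exact (hB t ht).trans (le_max_left _ _)
    · rw [h0 t (by
        rw [mem_Icc, not_and_or, not_le, not_le] at ht
        exact ht), norm_zero]
      exact le_max_of_le_right zero_le_one
  refine ⟨max B 1, le_max_right _ _, fun a b => ?_⟩
  have h1 := convex_univ.norm_image_sub_le_of_norm_deriv_le (f := Real.smoothTransition)
    (C := max B 1) (fun x _ => (hcd.differentiable (by simp)) x) (fun x _ => hB' x)
    (mem_univ b) (mem_univ a)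
  rwa [Real.norm_eq_abs, Real.norm_eq_abs] at h1

lemma st_lip {L : ℝ} (hL : ∀ a b : ℝ,
    |Real.smoothTransition a - Real.smoothTransition b| ≤ L * |a - b|) (hL0 : 1 ≤ L) {A : ℝ}
    (hA : 0 < A) (x y η : Sp d) : |st A (x - η) - st A (y - η)| ≤ 2 * L / A * ‖x - y‖ := by
  refine (hL _ _).trans ?_
  have h1 : |‖x - η‖ - ‖y - η‖| ≤ ‖x - y‖ := by
    have := abs_norm_sub_norm_le (x - η) (y - η)
    rwa [sub_sub_sub_cancel_right] at this
  have h2 : |2 - 2 * (‖x - η‖ / (A * 1)) - (2 - 2 * (‖y - η‖ / (A * 1)))| =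
      2 / A * |‖x - η‖ - ‖y - η‖| := by
    rw [abs_sub_comm]
    have e : 2 - 2 * (‖y - η‖ / (A * 1)) - (2 - 2 * (‖x - η‖ / (A * 1))) =
        2 / A * (‖x - η‖ - ‖y - η‖) := by
      field_simp
      ring
    rw [e, abs_mul, abs_of_pos (by positivity : 0 < 2 / A)]
  rw [h2]
  calc L * (2 / A * |‖x - η‖ - ‖y - η‖|) ≤ L * (2 / A * ‖x - y‖) := by gcongr
    _ = _ := by ring

/-! ### Integrals -/

/-- the numerator of q -/
def NN (A : ℝ) (μ : Measure (Sp d)) (x : Sp d) : ℝ := ∫ η, st A (x - η) ^ 2 * kk 1 (x - η) ∂μ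

lemma qq_eq (A : ℝ) (μ : Measure (Sp d)) (x : Sp d) : qq A μ 1 x = NN A μ x / th μ 1 x := rfl

lemma st_cont (A : ℝ) : Continuous fun x : Sp d => st A x := by
  unfold st
  exact Real.smoothTransition.continuous.comp (by fun_prop)

lemma NN_int (hd : 1 ≤ d) (A : ℝ) (μ : Measure (Sp d)) [IsFiniteMeasure μ] (x : Sp d) :
    Integrable (fun η => st A (x - η) ^ 2 * kk 1 (x - η)) μ := by
  refine (kk_int hd μ one_pos x).mono' ?_ ?_
  · have h1 : Continuous fun η : Sp d => st A (x - η) ^ 2 * kk 1 (x - η) :=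
      (((st_cont A).comp (continuous_const.sub continuous_id)).pow 2).mul
        ((kk_cont one_pos).comp (continuous_const.sub continuous_id))
    exact h1.aestronglyMeasurable
  · filter_upwards with η
    have h1 := kk_nonneg one_pos (x - η)
    rw [Real.norm_of_nonneg (by positivity)]
    have h2 := st_nonneg A (x - η)
    have h3 := st_le A (x - η)
    have h4 : st A (x - η) ^ 2 ≤ 1 := by nlinarith
    nlinarith

lemma qq_nonneg (A : ℝ) (μ : Measure (Sp d)) (x : Sp d) : 0 ≤ qq A μ 1 x := by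
  rw [qq_eq]
  refine div_nonneg (integral_nonneg fun η => ?_) (integral_nonneg fun η => ?_)
  · exact mul_nonneg (sq_nonneg _) (kk_nonneg one_pos _)
  · exact kk_nonneg one_pos _

/-- the potential at other points and times -/
lemma th_diff (hd : 1 ≤ d) (μ : Measure (Sp d)) [IsFiniteMeasure μ] (hμ : μ ≠ 0) {A : ℝ}
    (hA : 8 ≤ A) {t : ℝ} (ht : 1 / 2 ≤ t) (ht2 : t ≤ 2) {x y : Sp d} (hxy : ‖x - y‖ ≤ 2) :
    |th μ t x - t * th μ 1 y| ≤ 12 * Kc d * (qq A μ 1 y + 1 / A) * th μ 1 y := by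
  have ht0 : 0 < t := by linarith
  have hA0 : 0 < A := by linarith
  have hK := Kc_nonneg (d := d)
  have hth := th_pos hd μ hμ one_pos y
  have i1 := kk_int hd μ ht0 x
  have i2 := kk_int hd μ one_pos y
  have i3 := NN_int hd A μ y
  have e1 : th μ t x - t * th μ 1 y = ∫ η, (kk t (x - η) - t * kk 1 (y - η)) ∂μ := by
    rw [integral_sub i1 (i2.const_mul t), integral_const_mul]
    rfl
  have e2 : 12 * Kc d * (qq A μ 1 y + 1 / A) * th μ 1 y =
      ∫ η, (12 * Kc d * (st A (y - η) ^ 2 * kk 1 (y - η)) +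
        12 * Kc d * (1 / A) * kk 1 (y - η)) ∂μ := by
    rw [integral_add (i3.const_mul _) (i2.const_mul _), integral_const_mul, integral_const_mul,
      qq_eq]
    have : ∫ η, kk 1 (y - η) ∂μ = th μ 1 y := rfl
    rw [this]
    unfold NN
    field_simp
  rw [e1, e2]
  refine (abs_integral_le_integral_abs).trans (integral_mono (i1.sub (i2.const_mul t)).abs
    ((i3.const_mul _).add (i2.const_mul _)) fun η => ?_)
  have h1 := kk_diff hd ht ht2 hxy η
  have h2 := kk_nonneg one_pos (y - η)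
  have hs : |t - 1| + ‖x - y‖ ≤ 3 := by
    have : |t - 1| ≤ 1 := abs_le.2 ⟨by linarith, by linarith⟩
    linarith
  have hr : 1 / 2 ≤ rt t (x - η) := ht.trans (rt_ge_t t _)
  refine h1.trans ?_
  have key : (|t - 1| + ‖x - y‖) / rt t (x - η) ≤ 12 * (st A (y - η) ^ 2 + 1 / A) := by
    rw [div_le_iff₀ (by linarith)]
    have hA1 : 0 < 1 / A := by positivity
    by_cases hn : ‖y - η‖ ≤ A / 2
    · rw [st_one hA0 hn]
      nlinarith
    · rw [not_le] at hn
      have h3 : ‖y - η‖ ≤ ‖x - η‖ + ‖x - y‖ := by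
        have := norm_sub_le (x - η) (x - y)
        rwa [sub_sub_sub_cancel_left] at this
      have h4 : A / 4 ≤ rt t (x - η) := by
        have := rt_ge_x t (x - η)
        linarith
      have h5 : 1 / A * (A / 4) = 1 / 4 := by field_simp
      have h6 : 1 / A * (A / 4) ≤ 1 / A * rt t (x - η) := mul_le_mul_of_nonneg_left h4 hA1.le
      have h7 : 0 ≤ st A (y - η) ^ 2 * rt t (x - η) := by
        have := rt_ge_t t (x - η)
        positivity
      nlinarith
  calc Kc d * ((|t - 1| + ‖x - y‖) / rt t (x - η)) * kk 1 (y - η)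
      ≤ Kc d * (12 * (st A (y - η) ^ 2 + 1 / A)) * kk 1 (y - η) := by gcongr
    _ = _ := by ring

/-- the same for the square roots -/
lemma vv_diff (hd : 1 ≤ d) (μ : Measure (Sp d)) [IsFiniteMeasure μ] (hμ : μ ≠ 0) {A : ℝ}
    (hA : 8 ≤ A) {t : ℝ} (ht : 1 / 2 ≤ t) (ht2 : t ≤ 2) {x y : Sp d} (hxy : ‖x - y‖ ≤ 2) :
    |vv μ t x - Real.sqrt t * vv μ 1 y| ≤ 24 * Kc d * (qq A μ 1 y + 1 / A) * vv μ 1 y := by
  have ht0 : 0 < t := by linarith
  have h1 := th_diff hd μ hμ hA ht ht2 hxy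
  have hth := th_pos hd μ hμ one_pos y
  have htx := th_pos hd μ hμ ht0 x
  have hV : 0 < vv μ 1 y := Real.sqrt_pos.2 hth
  have hV2 : vv μ 1 y ^ 2 = th μ 1 y := Real.sq_sqrt hth.le
  have hx2 : vv μ t x ^ 2 = th μ t x := Real.sq_sqrt htx.le
  have hx : 0 < vv μ t x := Real.sqrt_pos.2 htx
  have hs : 1 / 2 ≤ Real.sqrt t := Real.le_sqrt_of_sq_le (by nlinarith)
  have hs2 : Real.sqrt t ^ 2 = t := Real.sq_sqrt ht0.le
  set a := vv μ t x
  set b := Real.sqrt t * vv μ 1 y with hb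
  have hb0 : vv μ 1 y / 2 ≤ b := by rw [hb]; nlinarith
  have hb2 : b ^ 2 = t * th μ 1 y := by rw [hb, mul_pow, hs2, hV2]
  rw [← hx2, ← hb2] at h1
  have h2 : a ^ 2 - b ^ 2 = (a - b) * (a + b) := by ring
  rw [h2, abs_mul, abs_of_pos (by linarith : 0 < a + b)] at h1
  have h3 : |a - b| * (vv μ 1 y / 2) ≤ |a - b| * (a + b) :=
    mul_le_mul_of_nonneg_left (by linarith) (abs_nonneg _)
  rw [← hV2] at h1
  have h4 : |a - b| * (vv μ 1 y / 2) ≤
      24 * Kc d * (qq A μ 1 y + 1 / A) * vv μ 1 y * (vv μ 1 y / 2) := by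
    refine (h3.trans h1).trans (le_of_eq ?_)
    ring
  exact le_of_mul_le_mul_right h4 (by linarith)

end FAm

end

end TG
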