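import Pool.Agent.TG.FA1

/-!
# MODULE FA, part 2: the functions q and Υ (MP_287c87_an, helper51)
-/

open MeasureTheory Metric Set Filter Topology TrI
open scoped InnerProductSpace ContDiff

namespace TG

noncomputable section

namespace FAm

open THm

variable {d : ℕ}

/-- the difference of kernels at height one -/
lemma kk_diff1 (hd1 : 1 ≤ d) {x y : Sp d} (hxy : ‖x - y‖ ≤ 1) (η : Sp d) :
    |kk 1 (x - η) - kk 1 (y - η)| ≤ Kc d * ‖x - y‖ * kk 1 (y - η) := by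
  have h := kk_diff hd1 (t := 1) (by norm_num) (by norm_num) (hxy.trans (by norm_num)) η
  rw [one_mul, sub_self, abs_zero, zero_add] at h
  refine h.trans ?_
  have h1 : ‖x - y‖ / rt 1 (x - η) ≤ ‖x - y‖ := div_le_self (norm_nonneg _) (rt_ge_t 1 _)
  have h2 := kk_nonneg one_pos (y - η)
  have h3 := Kc_nonneg (d := d)
  gcongr

/-- pointwise Lipschitz estimate of the integrand of the numerator -/
lemma num_diff (hd1 : 1 ≤ d) {L : ℝ} (hL0 : 1 ≤ L) (hL : ∀ a b : ℝ,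
    |Real.smoothTransition a - Real.smoothTransition b| ≤ L * |a - b|) {A : ℝ}
    (hA : 0 < A) {x y : Sp d} (hxy : ‖x - y‖ ≤ 1) (η : Sp d) :
    |st A (x - η) ^ 2 * kk 1 (x - η) - st A (y - η) ^ 2 * kk 1 (y - η)| ≤
      ‖x - y‖ * (2 * L + 4 * L ^ 2 + 1) * (1 + Kc d) *
        (st A (y - η) ^ 2 * kk 1 (y - η) + (1 / A ^ 2) * kk 1 (y - η)) := by
  have hK := Kc_nonneg (d := d)
  have hk := kk_diff1 hd1 hxy η
  have hs := st_lip hL hL0 hA x y η
  have hy := kk_nonneg one_pos (y - η)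
  have hx := kk_nonneg one_pos (x - η)
  set δ := ‖x - y‖ with hδ
  have hδ0 : 0 ≤ δ := norm_nonneg _
  set a := kk 1 (x - η)
  set b := kk 1 (y - η)
  set u := st A (x - η)
  set w := st A (y - η)
  have hw0 : 0 ≤ w := st_nonneg A _
  have hu0 : 0 ≤ u := st_nonneg A _
  have hab : a ≤ (1 + Kc d) * b := by
    have := (abs_le.1 hk).2
    have h1 : Kc d * δ * b ≤ Kc d * 1 * b := by gcongr
    linarith
  have h1 : |u ^ 2 - w ^ 2| ≤ δ * (2 * L + 4 * L ^ 2) * (w ^ 2 + 1 / A ^ 2) := by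
    have e1 : u ^ 2 - w ^ 2 = (u - w) * (u + w) := by ring
    have e2 : |u + w| ≤ 2 * w + 2 * L / A * δ := by
      rw [abs_of_nonneg (by linarith)]
      have := (abs_le.1 hs).2
      linarith
    rw [e1, abs_mul]
    have e3 : |u - w| * |u + w| ≤ (2 * L / A * δ) * (2 * w + 2 * L / A * δ) :=
      mul_le_mul hs e2 (abs_nonneg _) (by positivity)
    refine e3.trans ?_
    have e4 : 2 * w * (1 / A) ≤ w ^ 2 + 1 / A ^ 2 := by
      have : 0 ≤ (w - 1 / A) ^ 2 := sq_nonneg _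
      have h5 : (1 / A) ^ 2 = 1 / A ^ 2 := by rw [div_pow, one_pow]
      nlinarith
    have e5 : δ * δ ≤ δ := by nlinarith
    have hA2 : 0 ≤ 1 / A ^ 2 := by positivity
    calc (2 * L / A * δ) * (2 * w + 2 * L / A * δ)
        = 2 * L * δ * (2 * w * (1 / A)) + 4 * L ^ 2 * (δ * δ) * (1 / A ^ 2) := by
          field_simp
          ring
      _ ≤ 2 * L * δ * (w ^ 2 + 1 / A ^ 2) + 4 * L ^ 2 * δ * (w ^ 2 + 1 / A ^ 2) := by
          gcongr
          nlinarith [sq_nonneg w]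
      _ = _ := by ring
  have e1 : u ^ 2 * a - w ^ 2 * b = (u ^ 2 - w ^ 2) * a + w ^ 2 * (a - b) := by ring
  rw [e1]
  refine (abs_add_le _ _).trans ?_
  rw [abs_mul, abs_mul, abs_of_nonneg hx, abs_of_nonneg (sq_nonneg w)]
  have hA2 : 0 ≤ 1 / A ^ 2 := by positivity
  have hL2 : 0 ≤ 2 * L + 4 * L ^ 2 := by positivity
  calc |u ^ 2 - w ^ 2| * a + w ^ 2 * |a - b|
      ≤ (δ * (2 * L + 4 * L ^ 2) * (w ^ 2 + 1 / A ^ 2)) * ((1 + Kc d) * b) +
        w ^ 2 * (Kc d * δ * b) := by gcongr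
    _ ≤ (δ * (2 * L + 4 * L ^ 2) * (w ^ 2 + 1 / A ^ 2)) * ((1 + Kc d) * b) +
        (w ^ 2 + 1 / A ^ 2) * ((1 + Kc d) * δ * b) := by
        gcongr <;> linarith
    _ = _ := by ring

/-- the constant -/
def Kq (d : ℕ) (L : ℝ) : ℝ := 2 * (2 * L + 4 * L ^ 2 + 1) * (1 + Kc d) ^ 2

lemma th_diff1 (hd : 1 ≤ d) (μ : Measure (Sp d)) [IsFiniteMeasure μ] {x y : Sp d}
    (hxy : ‖x - y‖ ≤ 1) : |th μ 1 x - th μ 1 y| ≤ Kc d * ‖x - y‖ * th μ 1 y := by
  have i1 := kk_int hd μ one_pos x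
  have i2 := kk_int hd μ one_pos y
  have e1 : th μ 1 x - th μ 1 y = ∫ η, (kk 1 (x - η) - kk 1 (y - η)) ∂μ := by
    rw [integral_sub i1 i2]
    rfl
  have e2 : Kc d * ‖x - y‖ * th μ 1 y = ∫ η, Kc d * ‖x - y‖ * kk 1 (y - η) ∂μ := by
    rw [integral_const_mul]
    rfl
  rw [e1, e2]
  exact (abs_integral_le_integral_abs).trans (integral_mono (i1.sub i2).abs (i2.const_mul _)
    fun η => kk_diff1 hd hxy η)

/-- q is Lipschitz with a small constant where it is small -/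
lemma qq_diff (hd : 1 ≤ d) {L : ℝ} (hL0 : 1 ≤ L) (hL : ∀ a b : ℝ,
    |Real.smoothTransition a - Real.smoothTransition b| ≤ L * |a - b|)
    (μ : Measure (Sp d)) [IsFiniteMeasure μ] (hμ : μ ≠ 0) {A : ℝ} (hA : 0 < A) {x y : Sp d}
    (hxy : ‖x - y‖ ≤ 1) :
    |qq A μ 1 x - qq A μ 1 y| ≤ Kq d L * (qq A μ 1 y + 1 / A ^ 2) * ‖x - y‖ := by
  have hK := Kc_nonneg (d := d)
  have hx := th_pos hd μ hμ one_pos x
  have hy := th_pos hd μ hμ one_pos y
  have hd1 := th_diff1 hd μ hxy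
  have hd2 := th_diff1 hd μ (x := y) (y := x) (by rwa [norm_sub_rev])
  have hq := qq_nonneg A μ y
  have i1 := NN_int hd A μ x
  have i2 := NN_int hd A μ y
  have i3 := kk_int hd μ one_pos y
  set δ := ‖x - y‖ with hδ
  have hδ0 : 0 ≤ δ := norm_nonneg _
  have hA2 : 0 ≤ 1 / A ^ 2 := by positivity
  -- the numerator
  have hN : |NN A μ x - NN A μ y| ≤ δ * (2 * L + 4 * L ^ 2 + 1) * (1 + Kc d) *
      ((qq A μ 1 y + 1 / A ^ 2) * th μ 1 y) := by
    have e1 : NN A μ x - NN A μ y =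
        ∫ η, (st A (x - η) ^ 2 * kk 1 (x - η) - st A (y - η) ^ 2 * kk 1 (y - η)) ∂μ := by
      rw [integral_sub i1 i2]
      rfl
    have e2 : δ * (2 * L + 4 * L ^ 2 + 1) * (1 + Kc d) *
        ((qq A μ 1 y + 1 / A ^ 2) * th μ 1 y) =
        ∫ η, δ * (2 * L + 4 * L ^ 2 + 1) * (1 + Kc d) *
        (st A (y - η) ^ 2 * kk 1 (y - η) + (1 / A ^ 2) * kk 1 (y - η)) ∂μ := by
      rw [integral_const_mul, integral_add i2 (i3.const_mul _), integral_const_mul, qq_eq]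
      have e3 : ∫ η, kk 1 (y - η) ∂μ = th μ 1 y := rfl
      have e4 : ∫ η, st A (y - η) ^ 2 * kk 1 (y - η) ∂μ = NN A μ y := rfl
      rw [e3, e4, add_mul, div_mul_cancel₀ _ hy.ne']
    rw [e1, e2]
    exact (abs_integral_le_integral_abs).trans (integral_mono (i1.sub i2).abs
      ((i2.add (i3.const_mul _)).const_mul _) fun η => num_diff hd hL0 hL hA hxy η)
  have hyx : th μ 1 y ≤ (1 + Kc d) * th μ 1 x := by
    have h1 := (abs_le.1 hd2).2
    rw [norm_sub_rev y x] at h1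
    have h2 : Kc d * δ * th μ 1 x ≤ Kc d * 1 * th μ 1 x := by gcongr
    linarith
  have e1 : qq A μ 1 x - qq A μ 1 y =
      ((NN A μ x - NN A μ y) - qq A μ 1 y * (th μ 1 x - th μ 1 y)) / th μ 1 x := by
    rw [qq_eq, qq_eq]
    field_simp
    ring
  rw [e1, abs_div, abs_of_pos hx, div_le_iff₀ hx]
  set S := 2 * L + 4 * L ^ 2 + 1 with hS
  have hS1 : 1 ≤ S := by rw [hS]; nlinarith
  set Q := qq A μ 1 y + 1 / A ^ 2 with hQ
  have hQ0 : 0 ≤ Q := by rw [hQ]; linarith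
  calc |(NN A μ x - NN A μ y) - qq A μ 1 y * (th μ 1 x - th μ 1 y)|
      ≤ |NN A μ x - NN A μ y| + |qq A μ 1 y * (th μ 1 x - th μ 1 y)| := abs_sub _ _
    _ = |NN A μ x - NN A μ y| + qq A μ 1 y * |th μ 1 x - th μ 1 y| := by
        rw [abs_mul, abs_of_nonneg hq]
    _ ≤ δ * S * (1 + Kc d) * (Q * th μ 1 y) + Q * (Kc d * δ * th μ 1 y) := by
        gcongr
        rw [hQ]
        linarith
    _ ≤ δ * S * (1 + Kc d) * (Q * th μ 1 y) + δ * S * (1 + Kc d) * (Q * th μ 1 y) := by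
        have h1 : Kc d ≤ S * (1 + Kc d) := by nlinarith
        have h2 : 0 ≤ Q * δ * th μ 1 y := by positivity
        nlinarith
    _ = 2 * S * (1 + Kc d) * δ * Q * th μ 1 y := by ring
    _ ≤ 2 * S * (1 + Kc d) * δ * Q * ((1 + Kc d) * th μ 1 x) := by
        have : 0 ≤ 2 * S * (1 + Kc d) * δ * Q := by positivity
        gcongr
    _ = _ := by
        rw [Kq, ← hS]
        ring

lemma ups_nonneg (p0 A : ℝ) (μ : Measure (Sp d)) (x : Sp d) : 0 ≤ Ups p0 A μ 1 x :=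
  Real.smoothTransition.nonneg _

lemma ups_le (p0 A : ℝ) (μ : Measure (Sp d)) (x : Sp d) : Ups p0 A μ 1 x ≤ 1 :=
  Real.smoothTransition.le_one _

lemma norm_grad (f : Sp d → ℝ) (x : Sp d) : ‖gradient f x‖ = ‖fderiv ℝ f x‖ := by
  unfold gradient
  exact LinearIsometryEquiv.norm_map _ _

/-- the gradient of Υ in the far region -/
lemma ups_grad (hd : 1 ≤ d) {L : ℝ} (hL0 : 1 ≤ L) (hL : ∀ a b : ℝ,
    |Real.smoothTransition a - Real.smoothTransition b| ≤ L * |a - b|)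
    (μ : Measure (Sp d)) [IsFiniteMeasure μ] (hμ : μ ≠ 0) {A p0 : ℝ} (hA : 0 < A) (hp : 0 < p0)
    (hAp : 1 / A ^ 2 ≤ p0) {y : Sp d} (hy : qq A μ 1 y ≤ p0) :
    ‖gradient (Ups p0 A μ 1) y‖ ≤ 4 * L * Kq d L := by
  have hK := Kc_nonneg (d := d)
  have hKq : 0 ≤ Kq d L := by
    unfold Kq
    positivity
  rw [norm_grad]
  refine norm_fderiv_le_of_lip' ℝ (by positivity) ?_
  filter_upwards [closedBall_mem_nhds y one_pos] with x hx
  rw [mem_closedBall, dist_eq_norm] at hx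
  have h1 := qq_diff hd hL0 hL μ hμ hA hx
  have h2 : qq A μ 1 y + 1 / A ^ 2 ≤ 2 * p0 := by linarith
  rw [Real.norm_eq_abs]
  unfold Ups
  refine (hL _ _).trans ?_
  have e1 : 2 * qq A μ 1 x / p0 - 1 - (2 * qq A μ 1 y / p0 - 1) =
      2 / p0 * (qq A μ 1 x - qq A μ 1 y) := by ring
  rw [e1, abs_mul, abs_of_pos (by positivity : 0 < 2 / p0)]
  calc L * (2 / p0 * |qq A μ 1 x - qq A μ 1 y|)
      ≤ L * (2 / p0 * (Kq d L * (2 * p0) * ‖x - y‖)) := by
        have h3 : Kq d L * (qq A μ 1 y + 1 / A ^ 2) * ‖x - y‖ ≤ Kq d L * (2 * p0) * ‖x - y‖ := by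
          gcongr
        gcongr
        exact h1.trans h3
    _ = _ := by
        field_simp
        ring

/-- Υ is one where q is larger than p0 -/
lemma ups_near (hd : 1 ≤ d) (μ : Measure (Sp d)) [IsFiniteMeasure μ] (hμ : μ ≠ 0) {A p0 : ℝ}
    (hA : 0 < A) (hp : 0 < p0) {y : Sp d} (hy : p0 < qq A μ 1 y) :
    Ups p0 A μ 1 y = 1 ∧ gradient (Ups p0 A μ 1) y = 0 := by
  obtain ⟨L, hL0, hL⟩ := trans_lip
  have h1 : ∀ x, p0 ≤ qq A μ 1 x → Ups p0 A μ 1 x = 1 := by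
    intro x hx
    refine Real.smoothTransition.one_of_one_le ?_
    have : 2 ≤ 2 * qq A μ 1 x / p0 := by
      rw [le_div_iff₀ hp]
      linarith
    linarith
  have hc : ContinuousAt (qq A μ 1) y := by
    rw [Metric.continuousAt_iff]
    intro e he
    set B := Kq d L * (qq A μ 1 y + 1 / A ^ 2) with hB
    have hB0 : 0 ≤ B := by
      have hK := Kc_nonneg (d := d)
      have := qq_nonneg A μ y
      rw [hB, Kq]
      positivity
    refine ⟨min 1 (e / (B + 1)), by positivity, fun x hx => ?_⟩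
    rw [dist_eq_norm] at hx
    have hx1 : ‖x - y‖ ≤ 1 := hx.le.trans (min_le_left _ _)
    have hx2 : ‖x - y‖ < e / (B + 1) := lt_of_lt_of_le hx (min_le_right _ _)
    have h2 := qq_diff hd hL0 hL μ hμ hA hx1
    rw [Real.dist_eq]
    refine lt_of_le_of_lt h2 ?_
    rw [← hB]
    rw [lt_div_iff₀ (by linarith)] at hx2
    nlinarith [norm_nonneg (x - y)]
  refine ⟨h1 y hy.le, ?_⟩
  have h3 : Ups p0 A μ 1 =ᶠ[𝓝 y] fun _ => 1 := by
    filter_upwards [hc (Ioi_mem_nhds hy)] with x hx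
    exact h1 x (le_of_lt hx)
  unfold gradient
  rw [h3.fderiv_eq]
  simp

end FAm

end

end TG
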