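import Mathlib

/-!
# Differentiation under the integral sign, all orders

General tools (no dependence on the trace inequality files).
-/

open MeasureTheory Metric Set Filter Topology
open scoped ContDiff

set_option linter.unusedSectionVars false

namespace TG

section PInt

variable {P E : Type*} [NormedAddCommGroup P] [NormedSpace ℝ P]
  [NormedAddCommGroup E] [NormedSpace ℝ E] [CompleteSpace E]

set_option backward.isDefEq.respectTransparency false in
/-- Differentiation under the integral sign, all orders. -/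
theorem pint {α : Type*} [MeasurableSpace α] {ν : Measure α} {U : Set P} (hU : IsOpen U)
    {G : P → α → E} (hG : ∀ a, ContDiffOn ℝ ∞ (fun p => G p a) U)
    (hm : ∀ j : ℕ, ∀ p ∈ U,
      AEStronglyMeasurable (fun a => iteratedFDeriv ℝ j (fun q => G q a) p) ν)
    (hb : ∀ j : ℕ, ∀ p0 ∈ U, ∃ b : α → ℝ, Integrable b ν ∧ ∃ s ∈ 𝓝 p0,
      ∀ a, ∀ p ∈ s, ‖iteratedFDeriv ℝ j (fun q => G q a) p‖ ≤ b a) :
    HasFTaylorSeriesUpToOn ∞ (fun p => ∫ a, G p a ∂ν)
      (fun p j => ∫ a, iteratedFDeriv ℝ j (fun q => G q a) p ∂ν) U := by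
  have hint : ∀ j : ℕ, ∀ p ∈ U, Integrable (fun a => iteratedFDeriv ℝ j (fun q => G q a) p) ν := by
    intro j p hp
    obtain ⟨b, hb1, s, hs, hb2⟩ := hb j p hp
    exact hb1.mono' (hm j p hp) (Eventually.of_forall fun a => hb2 a p (mem_of_mem_nhds hs))
  have key : ∀ m : ℕ, ∀ x ∈ U,
      HasFDerivAt (fun p => ∫ a, iteratedFDeriv ℝ m (fun q => G q a) p ∂ν)
        ((∫ a, iteratedFDeriv ℝ (m + 1) (fun q => G q a) x ∂ν).curryLeft) x := by
    intro m x hx
    obtain ⟨b, hb1, s, hs, hb2⟩ := hb (m + 1) x hx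
    have h1 : HasFDerivAt (fun p => ∫ a, iteratedFDeriv ℝ m (fun q => G q a) p ∂ν)
        (∫ a, (iteratedFDeriv ℝ (m + 1) (fun q => G q a) x).curryLeft ∂ν) x := by
      refine hasFDerivAt_integral_of_dominated_of_fderiv_le (bound := b) (s := s ∩ U)
        (F' := fun p a => (iteratedFDeriv ℝ (m + 1) (fun q => G q a) p).curryLeft)
        (inter_mem hs (hU.mem_nhds hx)) ?_ (hint m x hx) ?_ ?_ hb1 ?_
      · filter_upwards [hU.mem_nhds hx] with p hp using hm m p hp
      · exact (continuousMultilinearCurryLeftEquiv ℝ (fun _ : Fin (m + 1) => P)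
          E).continuous.comp_aestronglyMeasurable (hm (m + 1) x hx)
      · refine Eventually.of_forall fun a p hp => ?_
        have := hb2 a p hp.1
        rw [ContinuousMultilinearMap.curryLeft_norm]
        exact this
      · refine Eventually.of_forall fun a p hp => ?_
        have h2 : ContDiffAt ℝ ∞ (fun q => G q a) p := (hG a).contDiffAt (hU.mem_nhds hp.2)
        have h3 : DifferentiableAt ℝ (iteratedFDeriv ℝ m (fun q => G q a)) p :=
          ((h2.iteratedFDeriv_right (m := 1) (i := m) (by exact_mod_cast le_top))).differentiableAt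
            (by norm_num)
        have h4 := h3.hasFDerivAt
        have h5 : fderiv ℝ (iteratedFDeriv ℝ m (fun q => G q a)) p =
            (iteratedFDeriv ℝ (m + 1) (fun q => G q a) p).curryLeft := by
          rw [fderiv_iteratedFDeriv]
          rfl
        rw [h5] at h4
        exact h4
    have h6 : (∫ a, (iteratedFDeriv ℝ (m + 1) (fun q => G q a) x).curryLeft ∂ν) =
        (∫ a, iteratedFDeriv ℝ (m + 1) (fun q => G q a) x ∂ν).curryLeft := by
      let L : (P [×(m + 1)]→L[ℝ] E) →L[ℝ] (P →L[ℝ] (P [×m]→L[ℝ] E)) :=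
        (continuousMultilinearCurryLeftEquiv ℝ (fun _ : Fin (m + 1) => P)
          E).toContinuousLinearEquiv.toContinuousLinearMap
      exact ContinuousLinearMap.integral_comp_comm (𝕜 := ℝ) (E := P [×(m + 1)]→L[ℝ] E)
        (Fₗ := P →L[ℝ] (P [×m]→L[ℝ] E)) L (hint (m + 1) x hx)
    rw [h6] at h1
    exact h1
  refine ⟨?_, ?_, ?_⟩
  · intro x hx
    have := (continuousMultilinearCurryFin0 ℝ P
          E).toContinuousLinearEquiv.toContinuousLinearMap.integral_comp_comm (hint 0 x hx)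
    exact this.symm
  · intro m _ x hx
    exact (key m x hx).hasFDerivWithinAt
  · intro m _ x hx
    exact (key m x hx).continuousAt.continuousWithinAt

theorem pint_contDiffOn {α : Type*} [MeasurableSpace α] {ν : Measure α} {U : Set P}
    (hU : IsOpen U) {G : P → α → E} (hG : ∀ a, ContDiffOn ℝ ∞ (fun p => G p a) U)
    (hm : ∀ j : ℕ, ∀ p ∈ U,
      AEStronglyMeasurable (fun a => iteratedFDeriv ℝ j (fun q => G q a) p) ν)
    (hb : ∀ j : ℕ, ∀ p0 ∈ U, ∃ b : α → ℝ, Integrable b ν ∧ ∃ s ∈ 𝓝 p0,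
      ∀ a, ∀ p ∈ s, ‖iteratedFDeriv ℝ j (fun q => G q a) p‖ ≤ b a) :
    ContDiffOn ℝ ∞ (fun p => ∫ a, G p a ∂ν) U :=
  (pint hU hG hm hb).contDiffOn

theorem pint_eq {α : Type*} [MeasurableSpace α] {ν : Measure α} {U : Set P}
    (hU : IsOpen U) {G : P → α → E} (hG : ∀ a, ContDiffOn ℝ ∞ (fun p => G p a) U)
    (hm : ∀ j : ℕ, ∀ p ∈ U,
      AEStronglyMeasurable (fun a => iteratedFDeriv ℝ j (fun q => G q a) p) ν)
    (hb : ∀ j : ℕ, ∀ p0 ∈ U, ∃ b : α → ℝ, Integrable b ν ∧ ∃ s ∈ 𝓝 p0,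
      ∀ a, ∀ p ∈ s, ‖iteratedFDeriv ℝ j (fun q => G q a) p‖ ≤ b a) (j : ℕ) {p : P}
    (hp : p ∈ U) :
    iteratedFDeriv ℝ j (fun p => ∫ a, G p a ∂ν) p =
      ∫ a, iteratedFDeriv ℝ j (fun q => G q a) p ∂ν := by
  have h := (pint hU hG hm hb).eq_iteratedFDerivWithin_of_uniqueDiffOn (m := j)
    (by exact_mod_cast le_top) hU.uniqueDiffOn hp
  rw [iteratedFDerivWithin_of_isOpen j hU hp] at h
  exact h.symm

end PInt

section PIntK

variable {P Z E : Type*} [NormedAddCommGroup P] [NormedSpace ℝ P]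
  [NormedAddCommGroup Z] [NormedSpace ℝ Z] [MeasurableSpace Z] [BorelSpace Z]
  [SecondCountableTopology Z]
  [NormedAddCommGroup E] [NormedSpace ℝ E] [CompleteSpace E]

/-- partial derivatives of a jointly smooth function -/
theorem iter_slice {W : Set (P × Z)} (hW : IsOpen W) {G : P × Z → E} (hG : ContDiffOn ℝ ∞ G W)
    (j : ℕ) {p : P} {z : Z} (h : (p, z) ∈ W) :
    iteratedFDeriv ℝ j (fun q => G (q, z)) p =
      (iteratedFDeriv ℝ j G (p, z)).compContinuousLinearMap
        (fun _ => ContinuousLinearMap.inl ℝ P Z) := by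
  have h1 : (fun q => G (q, z)) =
      (fun y => G (y + ((0 : P), z))) ∘ (ContinuousLinearMap.inl ℝ P Z) := by
    funext q
    simp
  have h2 : ContDiffAt ℝ ∞ G (p, z) := hG.contDiffAt (hW.mem_nhds h)
  have h3 : ContDiffAt ℝ ∞ (fun y => G (y + ((0 : P), z)))
      (ContinuousLinearMap.inl ℝ P Z p) := by
    have : ContDiffAt ℝ ∞ (fun y : P × Z => y + ((0 : P), z)) (ContinuousLinearMap.inl ℝ P Z p) :=
      contDiffAt_id.add contDiffAt_const
    refine ContDiffAt.comp (g := G) _ ?_ this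
    simpa using h2
  rw [h1]
  have h4 : iteratedFDeriv ℝ j
      ((fun y => G (y + ((0 : P), z))) ∘ (ContinuousLinearMap.inl ℝ P Z)) p =
      (iteratedFDeriv ℝ j (fun y => G (y + ((0 : P), z)))
        (ContinuousLinearMap.inl ℝ P Z p)).compContinuousLinearMap
        (fun _ => ContinuousLinearMap.inl ℝ P Z) := by
    -- within an open set
    set s : Set (P × Z) := (fun y : P × Z => y + ((0 : P), z)) ⁻¹' W with hs
    have hso : IsOpen s := hW.preimage (by fun_prop)
    have hps : (ContinuousLinearMap.inl ℝ P Z p) ∈ s := by simpa [hs] using h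
    have hfs : ContDiffOn ℝ ∞ (fun y => G (y + ((0 : P), z))) s := by
      have : ContDiffOn ℝ ∞ (fun y : P × Z => y + ((0 : P), z)) s :=
        contDiffOn_id.add contDiffOn_const
      exact hG.comp this (fun y hy => hy)
    have hto : IsOpen ((ContinuousLinearMap.inl ℝ P Z) ⁻¹' s) :=
      hso.preimage (ContinuousLinearMap.inl ℝ P Z).continuous
    have h5 := (ContinuousLinearMap.inl ℝ P Z).iteratedFDerivWithin_comp_right hfs
      hso.uniqueDiffOn hto.uniqueDiffOn hps (i := j) (by exact_mod_cast le_top)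
    rw [iteratedFDerivWithin_of_isOpen j hso hps, iteratedFDerivWithin_of_isOpen j hto hps] at h5
    exact h5
  rw [h4, iteratedFDeriv_comp_add_right]
  simp

theorem iter_slice_cont {W : Set (P × Z)} (hW : IsOpen W) {G : P × Z → E}
    (hG : ContDiffOn ℝ ∞ G W) (j : ℕ) :
    ContinuousOn (fun q : P × Z => iteratedFDeriv ℝ j (fun p => G (p, q.2)) q.1) W := by
  have h1 : ContinuousOn (iteratedFDeriv ℝ j G) W := by
    have := hG.continuousOn_iteratedFDerivWithin (m := j) (by exact_mod_cast le_top)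
      hW.uniqueDiffOn
    exact this.congr fun x hx => (iteratedFDerivWithin_of_isOpen j hW hx).symm
  have h2 : Continuous (fun m : ContinuousMultilinearMap ℝ (fun _ : Fin j => P × Z) E =>
      m.compContinuousLinearMap (fun _ => ContinuousLinearMap.inl ℝ P Z)) :=
    (ContinuousMultilinearMap.compContinuousLinearMapL
      (fun _ => ContinuousLinearMap.inl ℝ P Z)).continuous
  refine (h2.comp_continuousOn h1).congr ?_
  rintro ⟨p, z⟩ hx
  exact iter_slice hW hG j hx

/-- Parametric integrals of jointly smooth functions, with a weight K. -/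
theorem pintK {ν : Measure Z} {U : Set P} {W : Set (P × Z)} {k : Set Z} (hU : IsOpen U)
    (hW : IsOpen W) (hk : MeasurableSet k) (hUk : ∀ p ∈ U, ∀ z ∈ k, (p, z) ∈ W)
    {K : Z → ℝ} (hK : Integrable K ν) (hK0 : ∀ z, z ∉ k → K z = 0)
    {G : P × Z → E} (hG : ContDiffOn ℝ ∞ G W)
    (hb : ∀ j : ℕ, ∀ p0 ∈ U, ∃ C : ℝ, ∀ᶠ p in 𝓝 p0, ∀ z ∈ k,
      ‖iteratedFDeriv ℝ j (fun q => G (q, z)) p‖ ≤ C) :
    ContDiffOn ℝ ∞ (fun p => ∫ z, K z • G (p, z) ∂ν) U ∧
    (∀ p ∈ U, Integrable (fun z => K z • G (p, z)) ν) ∧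
    (∀ j : ℕ, ∀ p ∈ U, iteratedFDeriv ℝ j (fun q => ∫ z, K z • G (q, z) ∂ν) p =
      ∫ z, K z • iteratedFDeriv ℝ j (fun q => G (q, z)) p ∂ν) ∧
    ∀ j : ℕ, ∀ p ∈ U, ∀ B : ℝ, (∀ z ∈ k, ‖iteratedFDeriv ℝ j (fun q => G (q, z)) p‖ ≤ B) →
      ‖iteratedFDeriv ℝ j (fun q => ∫ z, K z • G (q, z) ∂ν) p‖ ≤ (∫ z, |K z| ∂ν) * B := by
  have hsl : ∀ z ∈ k, ContDiffOn ℝ ∞ (fun q => G (q, z)) U := by
    intro z hz
    refine hG.comp (f := fun q : P => (q, z)) (by fun_prop) (fun p hp => hUk p hp z hz)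
  have hG' : ∀ z, ContDiffOn ℝ ∞ (fun p => K z • G (p, z)) U := by
    intro z
    by_cases hz : z ∈ k
    · exact contDiffOn_const.smul (hsl z hz)
    · simp only [hK0 z hz, zero_smul]
      exact contDiffOn_const
  have hD : ∀ j : ℕ, ∀ p ∈ U, ∀ z, iteratedFDeriv ℝ j (fun q => K z • G (q, z)) p =
      K z • iteratedFDeriv ℝ j (fun q => G (q, z)) p := by
    intro j p hp z
    by_cases hz : z ∈ k
    · have h1 : ContDiffAt ℝ j (fun q => G (q, z)) p :=
        ((hsl z hz).contDiffAt (hU.mem_nhds hp)).of_le (by exact_mod_cast le_top)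
      exact iteratedFDeriv_const_smul_apply h1
    · simp only [hK0 z hz, zero_smul]
      exact congrFun (iteratedFDeriv_fun_zero) p
  have hm : ∀ j : ℕ, ∀ p ∈ U,
      AEStronglyMeasurable (fun z => iteratedFDeriv ℝ j (fun q => K z • G (q, z)) p) ν := by
    intro j p hp
    have h1 : ContinuousOn (fun z => iteratedFDeriv ℝ j (fun q => G (q, z)) p) k := by
      have h2 := iter_slice_cont hW hG j
      exact h2.comp (f := fun z : Z => (p, z)) (by fun_prop) (fun z hz => hUk p hp z hz)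
    have h3 : AEStronglyMeasurable (k.indicator
        (fun z => iteratedFDeriv ℝ j (fun q => G (q, z)) p)) ν := by
      rw [aestronglyMeasurable_indicator_iff hk]
      exact h1.aestronglyMeasurable hk
    have h4 : (fun z => iteratedFDeriv ℝ j (fun q => K z • G (q, z)) p) =
        fun z => K z • (k.indicator (fun z => iteratedFDeriv ℝ j (fun q => G (q, z)) p)) z := by
      funext z
      rw [hD j p hp z]
      by_cases hz : z ∈ k
      · simp [hz]
      · simp [hK0 z hz]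
    rw [h4]
    exact hK.1.smul h3
  have hbb : ∀ j : ℕ, ∀ p0 ∈ U, ∃ b : Z → ℝ, Integrable b ν ∧ ∃ s ∈ 𝓝 p0,
      ∀ z, ∀ p ∈ s, ‖iteratedFDeriv ℝ j (fun q => K z • G (q, z)) p‖ ≤ b z := by
    intro j p0 hp0
    obtain ⟨C, hC⟩ := hb j p0 hp0
    refine ⟨fun z => |K z| * C, (hK.norm.mul_const C).congr (by simp), 
      {p | (∀ z ∈ k, ‖iteratedFDeriv ℝ j (fun q => G (q, z)) p‖ ≤ C) ∧ p ∈ U},
      hC.and (hU.mem_nhds hp0), ?_⟩
    rintro z p ⟨hp1, hp2⟩
    rw [hD j p hp2 z, norm_smul, Real.norm_eq_abs]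
    by_cases hz : z ∈ k
    · exact mul_le_mul_of_nonneg_left (hp1 z hz) (abs_nonneg _)
    · simp [hK0 z hz]
  have heq : ∀ j : ℕ, ∀ p ∈ U, iteratedFDeriv ℝ j (fun q => ∫ z, K z • G (q, z) ∂ν) p =
      ∫ z, K z • iteratedFDeriv ℝ j (fun q => G (q, z)) p ∂ν := by
    intro j p hp
    rw [pint_eq hU hG' hm hbb j hp]
    exact integral_congr_ae (Eventually.of_forall fun z => hD j p hp z)
  refine ⟨pint_contDiffOn hU hG' hm hbb, ?_, heq, ?_⟩
  · intro p hp
    obtain ⟨C, hC⟩ := hb 0 p hp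
    have hCp := hC.self_of_nhds
    have h1 : ContinuousOn (fun z => G (p, z)) k :=
      hG.continuousOn.comp (f := fun z : Z => (p, z)) (by fun_prop) (fun z hz => hUk p hp z hz)
    have h3 : AEStronglyMeasurable (k.indicator (fun z => G (p, z))) ν := by
      rw [aestronglyMeasurable_indicator_iff hk]
      exact h1.aestronglyMeasurable hk
    have h4 : (fun z => K z • G (p, z)) =
        fun z => K z • (k.indicator (fun z => G (p, z))) z := by
      funext z
      by_cases hz : z ∈ k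
      · simp [hz]
      · simp [hK0 z hz]
    refine ((hK.norm.mul_const C).congr (g := fun z => |K z| * C) (by simp)).mono' ?_ ?_
    · rw [h4]
      exact hK.1.smul h3
    · refine Eventually.of_forall fun z => ?_
      rw [norm_smul, Real.norm_eq_abs]
      by_cases hz : z ∈ k
      · have := hCp z hz
        rw [norm_iteratedFDeriv_zero] at this
        exact mul_le_mul_of_nonneg_left this (abs_nonneg _)
      · simp [hK0 z hz]
  · intro j p hp B hB
    rw [heq j p hp]
    calc ‖∫ z, K z • iteratedFDeriv ℝ j (fun q => G (q, z)) p ∂ν‖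
        ≤ ∫ z, |K z| * B ∂ν := by
          refine norm_integral_le_of_norm_le ((hK.norm.mul_const B).congr (by simp)) ?_
          refine Eventually.of_forall fun z => ?_
          rw [norm_smul, Real.norm_eq_abs]
          by_cases hz : z ∈ k
          · exact mul_le_mul_of_nonneg_left (hB z hz) (abs_nonneg _)
          · simp [hK0 z hz]
      _ = (∫ z, |K z| ∂ν) * B := integral_mul_const _ _

/-- local boundedness of the partial derivatives for a compact parameter set -/
theorem bdd_of_compact {U : Set P} {W : Set (P × Z)} {k : Set Z}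
    (hW : IsOpen W) (hk : IsCompact k) (hUk : ∀ p ∈ U, ∀ z ∈ k, (p, z) ∈ W)
    {G : P × Z → E} (hG : ContDiffOn ℝ ∞ G W) (j : ℕ) {p0 : P} (hp0 : p0 ∈ U) :
    ∃ C : ℝ, ∀ᶠ p in 𝓝 p0, ∀ z ∈ k, ‖iteratedFDeriv ℝ j (fun q => G (q, z)) p‖ ≤ C := by
  have hc := iter_slice_cont hW hG j
  have h1 : ContinuousOn (fun z => iteratedFDeriv ℝ j (fun q => G (q, z)) p0) k :=
    hc.comp (f := fun z : Z => (p0, z)) (by fun_prop) (fun z hz => hUk p0 hp0 z hz)
  obtain ⟨M, hM⟩ := hk.exists_bound_of_continuousOn h1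
  refine ⟨M + 1, ?_⟩
  refine hk.eventually_forall_of_forall_eventually ?_
  intro z hz
  have h2 : ContinuousAt (fun q : P × Z => iteratedFDeriv ℝ j (fun p => G (p, q.2)) q.1) (p0, z) :=
    hc.continuousAt (hW.mem_nhds (hUk p0 hp0 z hz))
  have h3 := h2.norm.eventually (gt_mem_nhds (show
    ‖iteratedFDeriv ℝ j (fun p => G (p, z)) p0‖ < M + 1 by
      have := hM z hz
      linarith))
  filter_upwards [h3] with q hq using hq.le

/-- Parametric integrals of jointly smooth functions, compact parameter set. -/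
theorem pintC {ν : Measure Z} {U : Set P} {W : Set (P × Z)} {k : Set Z} (hU : IsOpen U)
    (hW : IsOpen W) (hk : IsCompact k) (hUk : ∀ p ∈ U, ∀ z ∈ k, (p, z) ∈ W)
    {K : Z → ℝ} (hK : Integrable K ν) (hK0 : ∀ z, z ∉ k → K z = 0)
    {G : P × Z → E} (hG : ContDiffOn ℝ ∞ G W) :
    ContDiffOn ℝ ∞ (fun p => ∫ z, K z • G (p, z) ∂ν) U ∧
    (∀ p ∈ U, Integrable (fun z => K z • G (p, z)) ν) ∧
    (∀ j : ℕ, ∀ p ∈ U, iteratedFDeriv ℝ j (fun q => ∫ z, K z • G (q, z) ∂ν) p =
      ∫ z, K z • iteratedFDeriv ℝ j (fun q => G (q, z)) p ∂ν) ∧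
    ∀ j : ℕ, ∀ p ∈ U, ∀ B : ℝ, (∀ z ∈ k, ‖iteratedFDeriv ℝ j (fun q => G (q, z)) p‖ ≤ B) →
      ‖iteratedFDeriv ℝ j (fun q => ∫ z, K z • G (q, z) ∂ν) p‖ ≤ (∫ z, |K z| ∂ν) * B :=
  pintK hU hW hk.measurableSet hUk hK hK0 hG
    (fun j _ hp0 => bdd_of_compact hW hk hUk hG j hp0)

end PIntK

end TG
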