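import Pool.Agent.TG.Stmts12

/-!
# Trace inequality, general operators: module statements, second batch

Every statement StmtXX is proved as theorem stmtXX : StmtXX in Pool/Agent/TG/XX.lean (namespace TG),
possibly with other Stmt's as hypotheses.  Section numbers refer to PAPER2.md.  No double quotes.
Unit scale: s0 = (1/2)^n, so lev s0 n = 1.
-/

open MeasureTheory Metric Set TrI
open scoped InnerProductSpace ContDiff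

namespace TG

noncomputable section

variable {d : ℕ}

/-! ## Definitions -/

/-- scalar cut-off -/
def cu1 (ρ z : ℝ) : ℝ := Real.smoothTransition (ρ + 1 - |z|)

/-- height over the plane {⟨ν,y⟩ = c} -/
def ht (ν : Sp d) (c : ℝ) (y : Sp d) : ℝ := ⟪ν, y⟫_ℝ - c

/-- the divergence of a vector field -/
def dv (Y : Sp d → Sp d) (y : Sp d) : ℝ :=
  ∑ j : Fin d, (fderiv ℝ Y y (EuclideanSpace.single j (1 : ℝ))) j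

/-- the weights 2^(-q r) -/
def wq (q : ℝ) (r : ℕ) : ℝ := (2 : ℝ) ^ (-(q * r))

section Def2

variable {E : Type} [NormedAddCommGroup E] [InnerProductSpace ℝ E]

/-- normalised second moment of ⟨f,e⟩ over the plane {⟨ν,y⟩ = c} in the cell with centre x, level i -/
def bb (ρ s0 : ℝ) (f : Sp d → E) (i : ℕ) (x : Sp d) (e : E) (ν : Sp d) (c : ℝ) : ℝ :=
  lev s0 i / lev s0 i ^ d * ∫ y, ⟪f y, e⟫_ℝ *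
    (zR ρ ((1 / lev s0 i) • (y - x)) * (ht ν c y / lev s0 i) ^ 2)

/-- its positive part plus the defect -/
def bD (b : Sp d → ℝ) (ε R0 R s0 : ℝ) (f : Sp d → E) (i : ℕ) (x : Sp d) (e : E) (ν : Sp d)
    (c : ℝ) : ℝ :=
  max 0 (bb R0 s0 f i x e ν c) + DD b ε R s0 f i x e

/-- a tower of cells over the unit cell with centre 0 -/
structure Tower (x : ℕ → Sp d) (e : ℕ → E) : Prop where
  zero : x 0 = 0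
  step : ∀ r, ‖x (r + 1) - x r‖ ≤ Real.sqrt d * 2 ^ r
  unit : ∀ r, ‖e r‖ = 1

end Def2

section Def3

variable {V E : Type} [NormedAddCommGroup V] [InnerProductSpace ℝ V] [FiniteDimensional ℝ V]
  [NormedAddCommGroup E] [InnerProductSpace ℝ E] [FiniteDimensional ℝ E]

/-- the pairing of v with the adjoint operator applied to Φ: Σ_j ⟨L(e_j ⊗ v), ∂_j Φ⟩ -/
def dvE (L : (Sp d →L[ℝ] V) →L[ℝ] E) (Φ : Sp d → E) (v : V) (y : Sp d) : ℝ :=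
  ∑ j : Fin d, ⟪L (rk1 (EuclideanSpace.single j (1 : ℝ)) v),
    fderiv ℝ Φ y (EuclideanSpace.single j (1 : ℝ))⟫_ℝ

/-- the jump polynomial: balls of radius r with centres q ± 6 r ν, where q is a point of the plane -/
def JJ (m : ℕ) (ν q : Sp d) (r : ℝ) (u : Sp d → V) (y : Sp d) : V :=
  ATP m (q + (6 * r) • ν) r u y - ATP m (q - (6 * r) • ν) r u y

/-- functions which are constant in the direction ν, supported in ‖tang‖ ≤ ρ -/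
structure Cyl {F : Type*} [NormedAddCommGroup F] (ν : Sp d) (ρ : ℝ) (ζ : Sp d → F) : Prop where
  const : ∀ y, ζ y = ζ (tang ν y)
  supp : ∀ y, ζ y ≠ 0 → ‖tang ν y‖ ≤ ρ

end Def3

/-! ## Utilities -/

/-- MODULE PF: plane integrals -/
def StmtPF : Prop :=
  ∀ (d : ℕ), 1 ≤ d →
    (∀ ρ : ℝ, ∃ C : ℝ, 0 < C ∧ ∀ (ν : Sp d), ‖ν‖ = 1 → ∀ (F : Sp d → ℝ) (N : ℝ), Continuous F →
      (∀ y, |F y| ≤ N) → (∀ y, F y ≠ 0 → ‖tang ν y‖ ≤ ρ) → ∀ c, |plInt ν c F| ≤ C * N) ∧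
    ∀ ν : Sp d, ‖ν‖ = 1 →
    (∀ F : Sp d → ℝ, Integrable F → ∫ y, F y = ∫ c : ℝ, plInt ν c F) ∧
    (∀ F : Sp d → ℝ, Continuous F → HasCompactSupport F → Continuous (fun c => plInt ν c F)) ∧
    (∀ F : Sp d → ℝ, ContDiff ℝ 1 F → HasCompactSupport F → ∀ c : ℝ,
      HasDerivAt (fun c => plInt ν c F) (plInt ν c (fun y => fderiv ℝ F y ν)) c) ∧
    (∀ (J : ℕ) (F : Sp d → ℝ), ContDiff ℝ J F → HasCompactSupport F →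
      ContDiff ℝ J (fun c => plInt ν c F)) ∧
    (∀ F : Sp d → ℝ, ContDiff ℝ 1 F → HasCompactSupport F → ∀ (c : ℝ) (w : Sp d),
      ⟪ν, w⟫_ℝ = 0 → plInt ν c (fun y => fderiv ℝ F y w) = 0) ∧
    (∀ F : Sp d → ℝ, ContDiff ℝ 1 F → (∀ y, F y = F (tang ν y)) →
      (∃ ρ : ℝ, ∀ y, F y ≠ 0 → ‖tang ν y‖ ≤ ρ) → ∀ (c : ℝ) (w : Sp d),
      ⟪ν, w⟫_ℝ = 0 → plInt ν c (fun y => fderiv ℝ F y w) = 0)

/-- MODULE DV: solving the divergence equation on planes -/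
def StmtDV : Prop :=
  ∀ (d : ℕ), 2 ≤ d → ∀ (J : ℕ), ∃ J' : ℕ, ∀ (ρ : ℝ), 0 < ρ → ∃ (C : ℝ), 0 < C ∧
    ∀ (ν : Sp d), ‖ν‖ = 1 → ∀ (ζ : Sp d → ℝ) (N : ℝ), TFn J' N ζ → Cyl ν ρ ζ →
      plInt ν 0 ζ = 0 → ∃ Y : Sp d → Sp d, TFn J (C * N) Y ∧ Cyl ν ρ Y ∧
        (∀ y, ⟪ν, Y y⟫_ℝ = 0) ∧ (∀ y, dv Y y = ζ y)

/-- MODULE NC: nonnegative polynomials do not concentrate near a plane -/
def StmtNC : Prop :=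
  ∀ (d : ℕ), 2 ≤ d → ∀ (m J : ℕ) (ρ : ℝ), 2 ≤ ρ → ∃ (c0 C : ℝ), 0 < c0 ∧ 0 < C ∧
    ∀ (ν p : Sp d) (c : ℝ), ‖ν‖ = 1 → ∀ P : Sp d → ℝ, ContDiff ℝ ∞ P →
      (∀ y, iteratedFDeriv ℝ (m + 1) P y = 0) → ∀ τ : ℝ, 0 ≤ τ →
      (∀ ψ : Sp d → ℝ, TFn J 1 ψ → (∀ y, ψ y = ψ (tang ν y)) →
        (∀ y, ψ y ≠ 0 → ‖tang ν (y - p)‖ ≤ ρ) → (∀ y, 0 ≤ ψ y) →
        -τ ≤ plInt ν c (fun y => P y * ψ y)) →
      ∀ (w : Sp d) (o : ℝ) (y0 : Sp d), ⟪ν, y0⟫_ℝ = c → ‖tang ν (y0 - p)‖ ≤ ρ →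
        c0 * |P y0| * (‖tang ν w‖ ^ 2 + o ^ 2) ≤
          plInt ν c (fun y => P y *
            (zR (ρ - 1) (tang ν (y - p)) * (⟪w, tang ν (y - p)⟫_ℝ + o) ^ 2)) +
          C * τ * (‖tang ν w‖ ^ 2 + o ^ 2)

/-- MODULE GE: two weighted planes which are close as distributions are close -/
def StmtGE : Prop :=
  ∀ (d : ℕ), 2 ≤ d → ∀ (J : ℕ) (ρ : ℝ), 1 ≤ ρ → ∃ (c0 C : ℝ), 0 < c0 ∧ 0 < C ∧
    ∀ (ν ν' : Sp d) (c c' a a' τ : ℝ) (x : Sp d), ‖ν‖ = 1 → ‖ν'‖ = 1 → ‖x‖ ≤ ρ →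
      |⟪ν, x⟫_ℝ - c| ≤ 1 / 2 → 0 < a → 0 ≤ a' → 0 ≤ τ → τ ≤ c0 * a → 
      (∀ (F : Sp d → ℝ) (N : ℝ), TFn J N F → (∀ y, 1 ≤ ‖y - x‖ → F y = 0) →
        |a * plInt ν c F - a' * plInt ν' c' F| ≤ τ * N) →
      |a - a'| ≤ C * τ ∧ ∃ σ : ℝ, (σ = 1 ∨ σ = -1) ∧
        a * (‖ν - σ • ν'‖ + |c - σ * c'|) ≤ C * τ

/-- MODULE SD: scaling of the remaining functionals -/
def StmtSD : Prop :=
  (∀ (d : ℕ) (V : Type) [NormedAddCommGroup V] [InnerProductSpace ℝ V] [FiniteDimensional ℝ V]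
    (u : Sp d → V), ContDiff ℝ ∞ u → ∀ (x : Sp d) (t : ℝ), 0 < t →
      ∀ (m : ℕ) (c : Sp d) (r : ℝ) (y : Sp d),
        ATP m c r (fun y => u (x + t • y)) y = ATP m (x + t • c) (t * r) u (x + t • y)) ∧
  (∀ (d : ℕ) (E : Type) [NormedAddCommGroup E] [InnerProductSpace ℝ E] [FiniteDimensional ℝ E]
    (f : Sp d → E), 1 ≤ d → Continuous f → HasCompactSupport f →
      ∀ (x : Sp d) (t : ℝ), 0 < t → ∀ (ρ s0 : ℝ) (i : ℕ) (y : Sp d) (e : E) (ν : Sp d) (c : ℝ),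
        0 < s0 → bb ρ (s0 / t) (rs x t f) i y e ν c =
          bb ρ s0 f i (x + t • y) e ν (t * c + ⟪ν, x⟫_ℝ))

/-- MODULE TW: comparison of two consecutive levels -/
def StmtTW : Prop :=
  ∀ (d : ℕ), 1 ≤ d → ∀ (M c0 ε : ℝ), 0 < ε → ε ≤ 1 → ∀ (b : Sp d → ℝ), BaseKer 2 M c0 b →
  ∀ R0 : ℝ, 100 + 8 * d ≤ R0 → ∃ C : ℝ, 0 < C ∧
    ∀ (E : Type) [NormedAddCommGroup E] [InnerProductSpace ℝ E] [FiniteDimensional ℝ E],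
    ∀ (R : ℝ), 4 * R0 + 10 ≤ R → ∀ f : Sp d → E, Continuous f → HasCompactSupport f →
    ∀ (n : ℕ) (x : Sp d) (e e' : E), ‖x‖ ≤ Real.sqrt d → ‖e‖ = 1 → ‖e'‖ = 1 →
      DD b ε R ((1 / 2) ^ n) f n 0 e' ≤ C * DD b ε R ((1 / 2) ^ n) f (n + 1) x e' ∧
      (∀ (ζ : Sp d → ℝ) (N : ℝ), TFn 2 N ζ → (∀ y, R - 1 ≤ ‖y‖ → ζ y = 0) →
        |∫ y, ⟪f y, e - e'⟫_ℝ * ζ y| ≤ C * N *
          (DD b ε R ((1 / 2) ^ n) f n 0 e + DD b ε R ((1 / 2) ^ n) f (n + 1) x e')) ∧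
      ma b ε R0 ((1 / 2) ^ n) f n 0 ≤ C *
        (ma b ε R0 ((1 / 2) ^ n) f (n + 1) x + DD b ε R ((1 / 2) ^ n) f (n + 1) x e') ∧
      (∀ (ν : Sp d) (c : ℝ), ‖ν‖ = 1 → |c| ≤ 4 * R0 →
        bD b ε R0 R ((1 / 2) ^ n) f n 0 e ν c ≤ C *
          (bD b ε R0 R ((1 / 2) ^ n) f (n + 1) x e' ν c + DD b ε R ((1 / 2) ^ n) f n 0 e) ∧
        max 0 (bb R0 ((1 / 2) ^ n) f n 0 e ν c) ≤ C *
          (ma b ε R0 ((1 / 2) ^ n) f (n + 1) x + DD b ε R ((1 / 2) ^ n) f n 0 e +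
            DD b ε R ((1 / 2) ^ n) f (n + 1) x e'))

/-! ## Section 7: hull lemma -/

/-- MODULE HU: comparison of averaged Taylor polynomials -/
def StmtHU : Prop :=
  ∀ (d : ℕ) (V E : Type) [NormedAddCommGroup V] [InnerProductSpace ℝ V] [FiniteDimensional ℝ V]
    [NormedAddCommGroup E] [InnerProductSpace ℝ E] [FiniteDimensional ℝ E]
    (L : (Sp d →L[ℝ] V) →L[ℝ] E) (n0 : ℕ)
    (T : (ContinuousMultilinearMap ℝ (fun _ : Fin n0 => Sp d) E) →L[ℝ]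
      (ContinuousMultilinearMap ℝ (fun _ : Fin (n0 + 1) => Sp d) V)), 1 ≤ d → 1 ≤ n0 →
    NSProp L n0 T → ∀ (M c0 ε : ℝ), 0 < ε → ε ≤ 1 → ∀ (b : Sp d → ℝ), BaseKer 2 M c0 b →
    ∀ R0 : ℝ, 20 ≤ R0 → ∃ C : ℝ, 0 < C ∧
      ∀ (R : ℝ), R0 + 10 ≤ R → ∀ (n : ℕ) (u : Sp d → V), TF u → ∀ e : E, ‖e‖ = 1 →
      ∀ (c1 c2 : Sp d) (r1 r2 : ℝ), 1 / 4 ≤ r1 → r1 ≤ 4 → 1 / 4 ≤ r2 → r2 ≤ 4 →
        ‖c1‖ + r1 ≤ R0 - 10 → ‖c2‖ + r2 ≤ R0 - 10 →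
        (∀ x, ‖x‖ ≤ R0 → ‖ATP n0 c1 r1 u x - ATP n0 c2 r2 u x‖ ≤
          C * (ma b ε R0 ((1 / 2) ^ n) (fo L u) n 0 + DD b ε R ((1 / 2) ^ n) (fo L u) n 0 e)) ∧
        ∀ (ν : Sp d) (c : ℝ), ‖ν‖ = 1 → |c| ≤ 3 * R0 →
          (∀ y ∈ convexHull ℝ (closedBall c1 r1 ∪ closedBall c2 r2), 4 ≤ |ht ν c y|) →
          ∀ x, ‖x‖ ≤ R0 → ‖ATP n0 c1 r1 u x - ATP n0 c2 r2 u x‖ ≤
            C * bD b ε R0 R ((1 / 2) ^ n) (fo L u) n 0 e ν c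

/-- MODULE JC: the jump polynomials of consecutive levels over a fixed plane -/
def StmtJC : Prop :=
  ∀ (d : ℕ) (V E : Type) [NormedAddCommGroup V] [InnerProductSpace ℝ V] [FiniteDimensional ℝ V]
    [NormedAddCommGroup E] [InnerProductSpace ℝ E] [FiniteDimensional ℝ E]
    (L : (Sp d →L[ℝ] V) →L[ℝ] E) (n0 : ℕ)
    (T : (ContinuousMultilinearMap ℝ (fun _ : Fin n0 => Sp d) E) →L[ℝ]
      (ContinuousMultilinearMap ℝ (fun _ : Fin (n0 + 1) => Sp d) V)), 1 ≤ d → 1 ≤ n0 →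
    NSProp L n0 T → ∀ (M c0 ε : ℝ), 0 < ε → ε ≤ 1 → ∀ (b : Sp d → ℝ), BaseKer 2 M c0 b →
    ∀ R0 : ℝ, 100 ≤ R0 → ∃ C : ℝ, 0 < C ∧
      ∀ (R : ℝ), R0 + 10 ≤ R → ∀ (n : ℕ) (u : Sp d → V), TF u → ∀ e : E, ‖e‖ = 1 →
      ∀ (ν q q' : Sp d), ‖ν‖ = 1 → ⟪ν, q⟫_ℝ = ⟪ν, q'⟫_ℝ → ‖q‖ ≤ R0 / 2 → ‖q'‖ ≤ R0 / 2 →
      ∀ x, ‖x‖ ≤ R0 →
        ‖JJ n0 ν q 1 u x‖ ≤
          C * (ma b ε R0 ((1 / 2) ^ n) (fo L u) n 0 + DD b ε R ((1 / 2) ^ n) (fo L u) n 0 e) ∧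
        ‖JJ n0 ν q' 1 u x - JJ n0 ν q 1 u x‖ ≤
          C * bD b ε R0 R ((1 / 2) ^ n) (fo L u) n 0 e ν ⟪ν, q⟫_ℝ ∧
        ‖JJ n0 ν q' 2 u x - JJ n0 ν q 1 u x‖ ≤
          C * bD b ε R0 R ((1 / 2) ^ n) (fo L u) n 0 e ν ⟪ν, q⟫_ℝ

/-! ## Section 8: sheet lemma -/

/-- MODULE SHA: the jump identity on one level -/
def StmtSHA : Prop :=
  ∀ (d : ℕ) (V E : Type) [NormedAddCommGroup V] [InnerProductSpace ℝ V] [FiniteDimensional ℝ V]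
    [NormedAddCommGroup E] [InnerProductSpace ℝ E] [FiniteDimensional ℝ E]
    (L : (Sp d →L[ℝ] V) →L[ℝ] E) (n0 : ℕ)
    (T : (ContinuousMultilinearMap ℝ (fun _ : Fin n0 => Sp d) E) →L[ℝ]
      (ContinuousMultilinearMap ℝ (fun _ : Fin (n0 + 1) => Sp d) V)), 2 ≤ d → 1 ≤ n0 →
    CEll L → NSProp L n0 T → ∃ J : ℕ,
    ∀ (M c0 ε : ℝ), 0 < ε → ε ≤ 1 → ∀ (b : Sp d → ℝ), BaseKer 2 M c0 b →
    ∀ R0 : ℝ, 100 ≤ R0 → ∃ (C : ℝ), 0 < C ∧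
      ∀ (R : ℝ), R0 + 10 ≤ R → ∀ (n : ℕ) (u : Sp d → V), TF u → ∀ e : E, ‖e‖ = 1 →
      ∀ (ν : Sp d) (c : ℝ), ‖ν‖ = 1 → |c| ≤ R0 / 3 →
      ∀ ve : V, (∀ w : V, ⟪e - L (rk1 ν ve), L (rk1 ν w)⟫_ℝ = 0) →
      ∀ (Φ : Sp d → E) (N : ℝ), TFn J N Φ → Cyl ν (R0 / 2) Φ →
        |(∫ y, ⟪fo L u y, e⟫_ℝ * (cu1 4 (ht ν c y) * (⟪e, Φ y⟫_ℝ - ht ν c y * dvE L Φ ve y)))
          - plInt ν c (fun y => ⟪L (rk1 ν (JJ n0 ν (c • ν) 1 u y)), Φ y⟫_ℝ)| ≤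
        C * N * (bD b ε R0 R ((1 / 2) ^ n) (fo L u) n 0 e ν c +
          Real.sqrt (ma b ε R0 ((1 / 2) ^ n) (fo L u) n 0 *
            DD b ε R ((1 / 2) ^ n) (fo L u) n 0 e))

/-- the smallness hypothesis of section 8 -/
def Flat {E : Type} [NormedAddCommGroup E] [InnerProductSpace ℝ E] (b : Sp d → ℝ)
    (ε R0 R κ : ℝ) (f : Sp d → E) (n : ℕ) (e : E) (ν : Sp d) (c : ℝ) : Prop :=
  0 < (∫ y, ⟪f y, e⟫_ℝ * zR (R0 / 3) y) ∧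
  bD b ε R0 R ((1 / 2) ^ n) f n 0 e ν c ≤ κ * (∫ y, ⟪f y, e⟫_ℝ * zR (R0 / 3) y) ∧
  ma b ε R0 ((1 / 2) ^ n) f n 0 * bD b ε R0 R ((1 / 2) ^ n) f n 0 e ν c ≤
    κ * (∫ y, ⟪f y, e⟫_ℝ * zR (R0 / 3) y) ^ 2

/-- MODULE SHB: the sheet lemma on one level -/
def StmtSHB : Prop :=
  ∀ (d : ℕ) (V E : Type) [NormedAddCommGroup V] [InnerProductSpace ℝ V] [FiniteDimensional ℝ V]
    [NormedAddCommGroup E] [InnerProductSpace ℝ E] [FiniteDimensional ℝ E]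
    (L : (Sp d →L[ℝ] V) →L[ℝ] E) (n0 : ℕ)
    (T : (ContinuousMultilinearMap ℝ (fun _ : Fin n0 => Sp d) E) →L[ℝ]
      (ContinuousMultilinearMap ℝ (fun _ : Fin (n0 + 1) => Sp d) V)), 2 ≤ d → 1 ≤ n0 →
    CEll L → NSProp L n0 T → ∃ J : ℕ,
    ∀ (M c0 ε : ℝ), 0 < ε → ε ≤ 1 → ∀ (b : Sp d → ℝ), BaseKer 2 M c0 b →
    ∀ R0 : ℝ, 100 ≤ R0 → ∃ (C κ : ℝ), 0 < C ∧ 0 < κ ∧
      ∀ (R : ℝ), R0 + 10 ≤ R → ∀ (n : ℕ) (u : Sp d → V), TF u → ∀ e : E, ‖e‖ = 1 →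
      ∀ (ν : Sp d) (c : ℝ), ‖ν‖ = 1 → |c| ≤ R0 / 3 → Flat b ε R0 R κ (fo L u) n e ν c →
      ∀ η : ℝ, η = bD b ε R0 R ((1 / 2) ^ n) (fo L u) n 0 e ν c +
          Real.sqrt (ma b ε R0 ((1 / 2) ^ n) (fo L u) n 0 *
            DD b ε R ((1 / 2) ^ n) (fo L u) n 0 e) →
      ∃ (l0 : V →L[ℝ] ℝ) (l1 : V →L[ℝ] Sp d), ‖l0‖ ≤ C ∧ ‖l1‖ ≤ C ∧ (∀ v, ⟪ν, l1 v⟫_ℝ = 0) ∧
        (∀ (ψ : Sp d → ℝ) (Y : Sp d → Sp d) (N : ℝ), TFn J N ψ → TFn J N Y →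
          Cyl ν (R0 / 2) ψ → Cyl ν (R0 / 2) Y → (∀ y, ⟪ν, Y y⟫_ℝ = 0) →
          |(∫ y, ⟪fo L u y, e⟫_ℝ * (cu1 4 (ht ν c y) * (ψ y - ht ν c y * dv Y y)))
            - plInt ν c (fun y => l0 (JJ n0 ν (c • ν) 1 u y) * ψ y + ⟪l1 (JJ n0 ν (c • ν) 1 u y), Y y⟫_ℝ)| ≤
          C * N * η) ∧
        (∀ x, ⟪ν, x⟫_ℝ = c → ‖x‖ ≤ R0 →
          ‖JJ n0 ν (c • ν) 1 u x‖ ≤ C * (|l0 (JJ n0 ν (c • ν) 1 u x)| + ‖l1 (JJ n0 ν (c • ν) 1 u x)‖ + η))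

/-- MODULE PL: planes carrying the mass are close -/
def StmtPL : Prop :=
  ∀ (d : ℕ) (V E : Type) [NormedAddCommGroup V] [InnerProductSpace ℝ V] [FiniteDimensional ℝ V]
    [NormedAddCommGroup E] [InnerProductSpace ℝ E] [FiniteDimensional ℝ E]
    (L : (Sp d →L[ℝ] V) →L[ℝ] E) (n0 : ℕ)
    (T : (ContinuousMultilinearMap ℝ (fun _ : Fin n0 => Sp d) E) →L[ℝ]
      (ContinuousMultilinearMap ℝ (fun _ : Fin (n0 + 1) => Sp d) V)), 2 ≤ d → 1 ≤ n0 →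
    CEll L → NSProp L n0 T → ∀ (M c0 ε : ℝ), 0 < ε → ε ≤ 1 → ∀ (b : Sp d → ℝ), BaseKer 2 M c0 b →
    ∀ R0 : ℝ, 100 ≤ R0 → ∃ (C κ : ℝ), 0 < C ∧ 0 < κ ∧
      ∀ (R : ℝ), R0 + 10 ≤ R → ∀ (n : ℕ) (u : Sp d → V), TF u → ∀ e : E, ‖e‖ = 1 →
      ∀ (ν ν' : Sp d) (c c' : ℝ), ‖ν‖ = 1 → ‖ν'‖ = 1 → |c| ≤ R0 / 3 → |c'| ≤ 3 * R0 →
      Flat b ε R0 R κ (fo L u) n e ν c →
      ∃ σ : ℝ, (σ = 1 ∨ σ = -1) ∧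
        (∫ y, ⟪fo L u y, e⟫_ℝ * zR (R0 / 3) y) * (‖ν - σ • ν'‖ ^ 2 + (c - σ * c') ^ 2) ≤
        C * (bD b ε R0 R ((1 / 2) ^ n) (fo L u) n 0 e ν c +
          bD b ε R0 R ((1 / 2) ^ n) (fo L u) n 0 e ν' c')

/-- MODULE SM: the mass around a point where the jump is not small -/
def StmtSM : Prop :=
  ∀ (d : ℕ) (V E : Type) [NormedAddCommGroup V] [InnerProductSpace ℝ V] [FiniteDimensional ℝ V]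
    [NormedAddCommGroup E] [InnerProductSpace ℝ E] [FiniteDimensional ℝ E]
    (L : (Sp d →L[ℝ] V) →L[ℝ] E) (n0 : ℕ)
    (T : (ContinuousMultilinearMap ℝ (fun _ : Fin n0 => Sp d) E) →L[ℝ]
      (ContinuousMultilinearMap ℝ (fun _ : Fin (n0 + 1) => Sp d) V)), 2 ≤ d → 1 ≤ n0 →
    CEll L → NSProp L n0 T → ∀ (M c0 ε : ℝ), 0 < ε → ε ≤ 1 → ∀ (b : Sp d → ℝ), BaseKer 2 M c0 b →
    ∀ R0 : ℝ, 100 ≤ R0 → ∃ (C κ : ℝ), 0 < C ∧ 0 < κ ∧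
      ∀ (R : ℝ), R0 + 10 ≤ R → ∀ (n : ℕ) (u : Sp d → V), TF u → ∀ e : E, ‖e‖ = 1 →
      ∀ (ν : Sp d) (c : ℝ), ‖ν‖ = 1 → |c| ≤ R0 / 3 → Flat b ε R0 R κ (fo L u) n e ν c →
      ∀ (x : Sp d) (a : ℝ), ⟪ν, x⟫_ℝ = c → ‖x‖ ≤ R0 / 3 → 0 < a → a ≤ ‖JJ n0 ν (c • ν) 1 u x‖ →
        bD b ε R0 R ((1 / 2) ^ n) (fo L u) n 0 e ν c ≤ κ * a →
        ma b ε R0 ((1 / 2) ^ n) (fo L u) n 0 * bD b ε R0 R ((1 / 2) ^ n) (fo L u) n 0 e ν c ≤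
          κ * a ^ 2 →
        a ≤ C * ∫ y, ⟪fo L u y, e⟫_ℝ * zR 1 (y - x)

/-- MODULE SH2: the nonconstant part of the jump at level 2 -/
def StmtSH2 : Prop :=
  ∀ (d : ℕ) (V E : Type) [NormedAddCommGroup V] [InnerProductSpace ℝ V] [FiniteDimensional ℝ V]
    [NormedAddCommGroup E] [InnerProductSpace ℝ E] [FiniteDimensional ℝ E]
    (L : (Sp d →L[ℝ] V) →L[ℝ] E) (n0 : ℕ)
    (T : (ContinuousMultilinearMap ℝ (fun _ : Fin n0 => Sp d) E) →L[ℝ]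
      (ContinuousMultilinearMap ℝ (fun _ : Fin (n0 + 1) => Sp d) V)), 2 ≤ d → 1 ≤ n0 →
    NSProp L n0 T → ∀ (M c0 ε : ℝ), 0 < ε → ε ≤ 1 → ∀ (b : Sp d → ℝ), BaseKer 2 M c0 b →
    ∀ R0 : ℝ, 200 + 8 * d ≤ R0 → ∃ C : ℝ, 0 < C ∧
      ∀ (R : ℝ), 4 * R0 + 10 ≤ R → ∀ (n : ℕ) (u : Sp d → V), TF u →
      ∀ (x : ℕ → Sp d) (e : ℕ → E), Tower x e →
      ∀ (ν : Sp d) (c B : ℝ), ‖ν‖ = 1 → |c| ≤ R0 + 3 →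
        (∀ I : ℕ, ∑ r ∈ Finset.Ico 2 I, (1 / 2 : ℝ) ^ r *
          bD b ε R0 R ((1 / 2) ^ n) (fo L u) (n + r) (x r) (e r) ν c ≤ B) →
        ∀ j, 1 ≤ j → j ≤ n0 → ‖iteratedFDeriv ℝ j (JJ n0 ν (c • ν) 4 u) (c • ν)‖ ≤ C * B

/-- MODULE SA: the sheet lemma (SA) -/
def StmtSA : Prop :=
  ∀ (d : ℕ) (V E : Type) [NormedAddCommGroup V] [InnerProductSpace ℝ V] [FiniteDimensional ℝ V]
    [NormedAddCommGroup E] [InnerProductSpace ℝ E] [FiniteDimensional ℝ E]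
    (L : (Sp d →L[ℝ] V) →L[ℝ] E), 2 ≤ d → CEll L → ∃ J : ℕ,
    ∀ (M c0 ε : ℝ), 0 < ε → ε ≤ 1 → ∀ (b : Sp d → ℝ), BaseKer 2 M c0 b →
    ∀ (R0 γ K : ℝ), 200 + 8 * d ≤ R0 → 0 < γ → γ ≤ 1 / (8 * d) → 1 ≤ K →
    ∃ (C κ : ℝ), 0 < C ∧ 0 < κ ∧
      ∀ (R : ℝ), 4 * R0 + 10 ≤ R → ∀ (n : ℕ) (u : Sp d → V), TF u →
      ∀ (x : ℕ → Sp d) (e : ℕ → E), Tower x e →
      ∀ a : ℝ, 0 < a → a = ma b ε R0 ((1 / 2) ^ n) (fo L u) n 0 →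
      (∀ r : ℕ, ma b ε R0 ((1 / 2) ^ n) (fo L u) (n + r) (x r) ≤ K * (2 : ℝ) ^ (γ * r) * a) →
      ∀ (ν : Sp d) (c B D : ℝ), ‖ν‖ = 1 → |c| ≤ R0 + 3 → B ≤ κ * a →
        (∀ I : ℕ, ∑ r ∈ Finset.range I, wq (1 / 2) r *
          bD b ε R0 R ((1 / 2) ^ n) (fo L u) (n + r) (x r) (e r) ν c ≤ B) →
        (∀ I : ℕ, ∑ r ∈ Finset.range I, wq (1 / 2) r *
          DD b ε R ((1 / 2) ^ n) (fo L u) (n + r) (x r) (e r) ≤ D) →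
        ∃ (ν' : Sp d) (c' a' : ℝ), ‖ν'‖ = 1 ∧
          a * (‖ν' - ν‖ ^ 2 + (c' - c) ^ 2) ≤ C * B ∧ a ≤ C * a' ∧ a' ≤ C * a ∧
          (∀ I : ℕ, ∑ r ∈ Finset.range I, wq (1 / 2) r *
            bD b ε R0 R ((1 / 2) ^ n) (fo L u) (n + r) (x r) (e r) ν' c' ≤ C * B) ∧
          ∀ (ζ0 ζ1 : Sp d → ℝ) (N : ℝ), TFn J N ζ0 → TFn J N ζ1 → Cyl ν' (3 / 2 * R0) ζ0 →
            Cyl ν' (3 / 2 * R0) ζ1 → ∀ ρ : ℝ, 1 ≤ ρ → ρ ≤ 3 / 2 * R0 →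
            |(∫ y, ⟪fo L u y, e 0⟫_ℝ *
                (cu1 ρ (ht ν' c' y) * (ζ0 y + ht ν' c' y * ζ1 y))) - a' * plInt ν' c' ζ0| ≤
              C * N * (B + Real.sqrt (a' * D))

/-- MODULE CM: separately minimised planes against a common plane -/
def StmtCM : Prop :=
  ∀ (d : ℕ) (V E : Type) [NormedAddCommGroup V] [InnerProductSpace ℝ V] [FiniteDimensional ℝ V]
    [NormedAddCommGroup E] [InnerProductSpace ℝ E] [FiniteDimensional ℝ E]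
    (L : (Sp d →L[ℝ] V) →L[ℝ] E), 2 ≤ d → CEll L →
    ∀ (M c0 ε : ℝ), 0 < ε → ε ≤ 1 → ∀ (b : Sp d → ℝ), BaseKer 2 M c0 b →
    ∀ (R0 γ K : ℝ), 200 + 8 * d ≤ R0 → 0 < γ → γ ≤ 1 / (16 * d) → 1 ≤ K →
    ∃ C : ℝ, 0 < C ∧
      ∀ (R : ℝ), 4 * R0 + 10 ≤ R → ∀ (n : ℕ) (u : Sp d → V), TF u →
      ∀ (x : ℕ → Sp d) (e : ℕ → E), Tower x e →
      ∀ a : ℝ, 0 < a → a = ma b ε R0 ((1 / 2) ^ n) (fo L u) n 0 →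
      (∀ r : ℕ, ma b ε R0 ((1 / 2) ^ n) (fo L u) (n + r) (x r) ≤ K * (2 : ℝ) ^ (γ * r) * a) →
      ∀ (νs : ℕ → Sp d) (cs : ℕ → ℝ) (B : ℝ), (∀ r, ‖νs r‖ = 1) →
        (∀ r, |ht (νs r) (cs r) (x r)| ≤ 4 * R0 * 2 ^ r) →
        (∀ I : ℕ, ∑ r ∈ Finset.range I, wq (1 / 4) r *
          bD b ε R0 R ((1 / 2) ^ n) (fo L u) (n + r) (x r) (e r) (νs r) (cs r) ≤ B) →
        ∃ (ν : Sp d) (c : ℝ), ‖ν‖ = 1 ∧ |c| ≤ R0 + 3 ∧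
          ∀ I : ℕ, ∑ r ∈ Finset.range I, wq (1 / 2) r *
            bD b ε R0 R ((1 / 2) ^ n) (fo L u) (n + r) (x r) (e r) ν c ≤ C * B

/-! ## Section 16: cost -/

/-- MODULE CO: pointwise bound of u -/
def StmtCO : Prop :=
  ∀ (d : ℕ) (V E : Type) [NormedAddCommGroup V] [InnerProductSpace ℝ V] [FiniteDimensional ℝ V]
    [NormedAddCommGroup E] [InnerProductSpace ℝ E] [FiniteDimensional ℝ E]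
    (L : (Sp d →L[ℝ] V) →L[ℝ] E), 2 ≤ d → CEll L →
    ∀ (M c0 ε : ℝ), 0 < ε → ε ≤ 1 → ∀ (b : Sp d → ℝ), BaseKer 2 M c0 b →
    ∀ (R0 : ℝ), 400 + 8 * d ≤ R0 → ∃ C : ℝ, 0 < C ∧
      ∀ (R : ℝ), R0 + 10 ≤ R → ∀ (u : Sp d → V), TF u → ∃ Cu : ℝ, 0 ≤ Cu ∧
      ∀ s0 : ℝ, 0 < s0 → s0 ≤ 1 → ∀ (x : Sp d) (xs : ℕ → Sp d) (e : ℕ → E) (νs : ℕ → Sp d)
        (cs : ℕ → ℝ) (B : ℝ), (∀ i, ‖xs i - x‖ ≤ Real.sqrt d * lev s0 i) → (∀ i, ‖e i‖ = 1) →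
        (∀ i, ‖νs i‖ = 1) → (∀ i, |ht (νs i) (cs i) (xs i)| ≤ (R0 + 3) * lev s0 i) →
        (∀ I : ℕ, ∑ i ∈ Finset.Ico 2 I,
          bD b ε R0 R s0 (fo L u) i (xs i) (e i) (νs i) (cs i) ≤ B) →
        ‖u x‖ ≤ C * B + Cu * s0

/-! ## Section 10 -/

/-- MODULE TT: small tangential gradients of v give small tangential gradients of W -/
def StmtTT : Prop :=
  ∀ (d J : ℕ), 2 ≤ d → ∀ (M C' ε i1 : ℝ), 0 < C' → 0 < ε → ε ≤ 1 / 4 → 0 < i1 →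
    ∃ i0 : ℝ, 0 < i0 ∧ ∀ β : Sp d → ℝ, Kit 2 M β → ∀ μ : Measure (Sp d), Gro C' μ →
      ∀ (n y : Sp d), ‖n‖ = 1 →
      (∀ (t : ℝ) (x : Sp d), 1 / 2 ≤ t → t ≤ 2 → ‖x - y‖ ≤ 1 →
        ‖tang n (gradient (vv μ t) x)‖ ≤ i0 * vv μ 1 y) →
      ∀ j ≤ J, ‖iteratedFDeriv ℝ j (fun x => tang n (gradient (WW β ε μ 1) x)) y‖ ≤
        i1 * vv μ 1 y

/-- MODULE SE: scaling of q, Υ and H -/
def StmtSE : Prop :=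
  ∀ (d : ℕ), 2 ≤ d → ∀ (C' : ℝ), 0 < C' → ∀ (x : Sp d) (t : ℝ), 0 < t →
    ∀ μ : Measure (Sp d), Gro C' μ → ∀ (M : ℝ) (β : Sp d → ℝ), Kit 2 M β →
      ∀ ε : ℝ, 0 < ε → ε ≤ 1 → ∀ (p0 A : ℝ), 0 < p0 → 0 < A → ∀ (r : ℝ) (y : Sp d), 0 < r →
        qq A (rsm x t μ) r y = qq A μ (t * r) (x + t • y) ∧
        Ups p0 A (rsm x t μ) r y = Ups p0 A μ (t * r) (x + t • y) ∧
        ∀ n : Sp d, ‖n‖ = 1 →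
          Hn β ε p0 A (rsm x t μ) n r y = Hn β ε p0 A μ n (t * r) (x + t • y)

/-! ## Sections 6 and 12: the compact Newton potential -/

/-- MODULE NN: properties of the compact Newton potential -/
def StmtNN : Prop :=
  ∀ (d : ℕ), 2 ≤ d → ∀ (M c0 : ℝ) (b : Sp d → ℝ), BaseKer 2 M c0 b → ∀ R : ℝ, 0 < R →
    (∀ ζ : Sp d → ℝ, ContDiff ℝ ∞ ζ → HasCompactSupport ζ →
      ContDiff ℝ ∞ (NNp b R ζ) ∧ HasCompactSupport (NNp b R ζ) ∧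
      (∀ y, lap (NNp b R ζ) y = avk b R ζ y - ζ y) ∧
      (∀ (j : ℕ) (y : Sp d) (h : Fin j → Sp d),
        iteratedFDeriv ℝ j (NNp b R ζ) y h = NNp b R (fun z => iteratedFDeriv ℝ j ζ z h) y) ∧
      (∀ (j : ℕ) (N : ℝ), (∀ y, ‖iteratedFDeriv ℝ j ζ y‖ ≤ N) →
        ∀ y, ‖iteratedFDeriv ℝ j (NNp b R ζ) y‖ ≤ R ^ 2 * N) ∧
      (∀ (x : Sp d) (ρ : ℝ), (∀ y, ρ ≤ ‖y - x‖ → ζ y = 0) →
        ∀ y, ρ + R / 2 ≤ ‖y - x‖ → NNp b R ζ y = 0)) ∧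
    (∀ φ : Sp d → ℝ, ContDiff ℝ ∞ φ → HasCompactSupport φ → ∀ y,
      nt b R (fun i j z => if i = j then φ z else 0) y = φ y - avk b R φ y) ∧
    (∀ F : Fin d → Fin d → Sp d → ℝ, (∀ i j, ContDiff ℝ ∞ (F i j)) →
      (∀ i j, HasCompactSupport (F i j)) →
      ContDiff ℝ ∞ (nt b R F) ∧ HasCompactSupport (nt b R F) ∧
      ∀ (ν : Sp d) (c : ℝ), ‖ν‖ = 1 → plInt ν c (nt b R F) =
        plInt ν c (fun y => ∑ i, ∑ j, ν i * ν j * F i j y) -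
          ∫ x, b x * plInt ν (c + R * ⟪ν, x⟫_ℝ) (fun y => ∑ i, ∑ j, ν i * ν j * F i j y))

/-! ## Section 9: structure theorem with tolerances -/

/-- MODULE ST2: structure theorem (B2'), unit scale, with a tolerance function E -/
def StmtST2 : Prop :=
  ∀ (d : ℕ) (V E : Type) [NormedAddCommGroup V] [InnerProductSpace ℝ V] [FiniteDimensional ℝ V]
    [NormedAddCommGroup E] [InnerProductSpace ℝ E] [FiniteDimensional ℝ E]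
    (L : (Sp d →L[ℝ] V) →L[ℝ] E), 2 ≤ d → CEll L →
    ∀ (M c ε : ℝ), 0 < ε → ε ≤ 1 → ∀ (b : Sp d → ℝ), BaseKer 2 M c b →
    ∀ (γ K Rs : ℝ) (tol : ℕ → ℝ), 0 < γ → γ ≤ 1 / (8 * d) → 0 < K → 1 ≤ Rs → (∀ J, 0 < tol J) →
    ∃ (rm : ℕ) (R1 δ : ℝ), Rs + 3 ≤ R1 ∧ 0 < δ ∧
      ∀ (n : ℕ) (u : Sp d → V), TF u → ∀ (e : E), ‖e‖ = 1 → ∀ a : ℝ, 0 ≤ a →
        (∀ ρ : ℝ, 1 ≤ ρ → ρ ≤ R1 →
          (∫ y in ball (0 : Sp d) ρ, ‖fl b ε ((1 / 2) ^ n) (fo L u) (n - 1) y‖) ≤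
            K * ρ ^ ((d : ℝ) - 1 + γ) * a) →
        DD b ε R1 ((1 / 2) ^ n) (fo L u) n 0 e ≤ δ * a →
        ∃ (J r : ℕ) (ν : Fin r → Sp d) (κ : Fin r → Sp d → ℝ),
          Str J rm R1 Rs (tol J) a (fun y => ⟪fo L u y, e⟫_ℝ) r ν κ

end

end TG
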