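import Pool.Agent.TG.TT1
import Pool.Agent.TG.PI
import Pool.Agent.TG.Stmts2

/-!
# MODULE TT: small tangential gradients of v give small tangential gradients of W (helper37)
-/

open MeasureTheory Metric Set Filter Topology TrI
open scoped InnerProductSpace ContDiff

set_option linter.unusedSectionVars false

namespace TG

noncomputable section

variable {d : ℕ}

/-! ## bounds of directional derivatives -/

lemma tt_giD (a : ℝ × Sp d) {F : ℝ × Sp d → ℝ} (hF : ContDiff ℝ ∞ F) (j : ℕ) (p : ℝ × Sp d) :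
    ‖iteratedFDeriv ℝ j (giD a F) p‖ ≤ ‖a‖ * ‖iteratedFDeriv ℝ (j + 1) F p‖ := by
  have h1 : ContDiff ℝ ∞ (fderiv ℝ F) := hF.fderiv_right (m := ∞) (by simp)
  have h2 := norm_iteratedFDeriv_clm_apply_const (𝕜 := ℝ) (c := a) (h1.contDiffAt (x := p))
    (n := j) (by exact_mod_cast le_top)
  rw [norm_iteratedFDeriv_fderiv] at h2
  exact h2

lemma tt_norm_e (i : Fin d) : ‖((0 : ℝ), (EuclideanSpace.single i (1 : ℝ) : Sp d))‖ ≤ 1 := by
  simp [Prod.norm_def]

lemma tt_giL {F : ℝ × Sp d → ℝ} (hF : ContDiff ℝ ∞ F) (j : ℕ) (p : ℝ × Sp d) :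
    ‖iteratedFDeriv ℝ j (giL F) p‖ ≤ d * ‖iteratedFDeriv ℝ (j + 2) F p‖ := by
  unfold giL
  rw [iteratedFDeriv_fun_sum_apply (fun i _ =>
    ((giD_smooth _ (giD_smooth _ hF)).contDiffAt).of_le (by exact_mod_cast le_top))]
  refine (norm_sum_le _ _).trans ?_
  refine (Finset.sum_le_card_nsmul _ _ ‖iteratedFDeriv ℝ (j + 2) F p‖ fun i _ => ?_).trans ?_
  · have h1 := tt_giD (0, EuclideanSpace.single i (1 : ℝ)) (giD_smooth
      (0, EuclideanSpace.single i (1 : ℝ)) hF) j p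
    have h2 := tt_giD (0, EuclideanSpace.single i (1 : ℝ)) hF (j + 1) p
    have h3 := tt_norm_e i
    have h4 := norm_nonneg (iteratedFDeriv ℝ (j + 1 + 1) F p)
    have h5 := norm_nonneg (iteratedFDeriv ℝ (j + 1)
      (giD (0, EuclideanSpace.single i (1 : ℝ)) F) p)
    calc _ ≤ _ := h1
      _ ≤ 1 * ‖iteratedFDeriv ℝ (j + 1) (giD (0, EuclideanSpace.single i (1 : ℝ)) F) p‖ :=
          mul_le_mul_of_nonneg_right h3 h5
      _ ≤ 1 * (1 * ‖iteratedFDeriv ℝ (j + 1 + 1) F p‖) :=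
          mul_le_mul_of_nonneg_left (h2.trans (mul_le_mul_of_nonneg_right h3 h4)) zero_le_one
      _ = _ := by rw [one_mul, one_mul]
  · simp

/-! ## integrals over the compact set -/

/-- the ray map -/
def ttΨ (ε : ℝ) (x : ℝ × Sp d) : ℝ × Sp d := (x.1, (ε * x.1) • x.2)

lemma ttΨ_cont (ε : ℝ) : Continuous (ttΨ (d := d) ε) := by
  unfold ttΨ
  fun_prop

/-- the integrals -/
def ttI (ε : ℝ) (K F : ℝ × Sp d → ℝ) (y : Sp d) : ℝ :=
  ∫ x in giS d, K x * F (ttΨ ε x + (0, y))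

lemma tt_shift {F : ℝ × Sp d → ℝ} (hF : ContDiff ℝ ∞ F) (c : ℝ × Sp d) (y : Sp d) (j : ℕ) :
    ‖iteratedFDeriv ℝ j (fun y => F (c + (0, y))) y‖ ≤ ‖iteratedFDeriv ℝ j F (c + (0, y))‖ := by
  have h1 : ContDiff ℝ ∞ (fun q : ℝ × Sp d => F (c + q)) :=
    hF.comp (contDiff_const.add contDiff_id)
  have h2 : (fun y => F (c + (0, y))) = (fun q : ℝ × Sp d => F (c + q)) ∘
      (ContinuousLinearMap.inr ℝ ℝ (Sp d)) := by
    funext y
    simp
  rw [h2, ContinuousLinearMap.iteratedFDeriv_comp_right _ h1 _ (by exact_mod_cast le_top)]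
  refine (ContinuousMultilinearMap.norm_compContinuousLinearMap_le _ _).trans ?_
  rw [iteratedFDeriv_comp_add_left]
  have h3 : ∏ _i : Fin j, ‖ContinuousLinearMap.inr ℝ ℝ (Sp d)‖ ≤ 1 := by
    rw [Finset.prod_const]
    exact pow_le_one₀ (norm_nonneg _) (ContinuousLinearMap.norm_inr_le_one ℝ ℝ (Sp d))
  simp only [ContinuousLinearMap.inr_apply]
  nlinarith [norm_nonneg (iteratedFDeriv ℝ j F (c + (0, y)))]

lemma ttI_bd {ε : ℝ} {K F : ℝ × Sp d → ℝ} (hK : Continuous K) (hF : ContDiff ℝ ∞ F) :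
    ContDiff ℝ ∞ (ttI ε K F) ∧ ∀ (j : ℕ) (y : Sp d) (B : ℝ),
      (∀ x ∈ giS d, ‖iteratedFDeriv ℝ j F (ttΨ ε x + (0, y))‖ ≤ B) →
      ‖iteratedFDeriv ℝ j (ttI ε K F) y‖ ≤ (∫ x in giS d, |K x|) * B := by
  have hS : MeasurableSet (giS d) := giS_compact.measurableSet
  have hK1 : Integrable ((giS d).indicator K) := by
    rw [integrable_indicator_iff hS]
    exact hK.continuousOn.integrableOn_compact giS_compact
  have hG : ContDiffOn ℝ ∞ (fun q : Sp d × (ℝ × Sp d) => F (ttΨ ε q.2 + (0, q.1))) univ := by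
    refine ContDiff.contDiffOn (hF.comp ?_)
    unfold ttΨ
    fun_prop
  have hP := pintC (ν := volume) (U := (univ : Set (Sp d))) (W := univ) (k := giS d) isOpen_univ
    isOpen_univ giS_compact (fun _ _ _ _ => mem_univ _) hK1
    (fun z hz => indicator_of_notMem hz K) hG
  have e1 : (fun p : Sp d => ∫ z, (giS d).indicator K z • F (ttΨ ε z + (0, p))) =
      ttI ε K F := by
    funext y
    unfold ttI
    rw [← integral_indicator hS]
    refine integral_congr_ae (Eventually.of_forall fun x => ?_)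
    by_cases hx : x ∈ giS d
    · simp [hx]
    · simp [hx]
  have e2 : ∫ z, |(giS d).indicator K z| = ∫ x in giS d, |K x| := by
    rw [← integral_indicator hS]
    refine integral_congr_ae (Eventually.of_forall fun x => ?_)
    by_cases hx : x ∈ giS d
    · simp [hx]
    · simp [hx]
  simp only at hP
  rw [e1, e2] at hP
  refine ⟨contDiffOn_univ.mp hP.1, fun j y B hB => ?_⟩
  refine hP.2.2.2 j y (mem_univ _) B fun x hx => ?_
  exact (tt_shift hF _ y j).trans (hB x hx)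

lemma ttI_fderiv {ε : ℝ} {K F : ℝ × Sp d → ℝ} (hK : Continuous K) (hF : ContDiff ℝ ∞ F)
    (y h : Sp d) : fderiv ℝ (ttI ε K F) y h = ttI ε K (giD (0, h) F) y :=
  giI_fderiv giS_compact hK (ttΨ_cont ε) hF y h

/-- size of the kernels -/
lemma ttI_K {β κ : Sp d → ℝ} (hβ : Continuous β) (hβ0 : ∀ z, 1 ≤ ‖z‖ → β z = 0)
    (hβi : ∫ z, β z = 1) (hκ : Continuous κ) (hκβ : ∀ z, |κ z| ≤ β z)
    {c : ℝ → ℝ} (hc : Continuous c) (hc4 : ∀ r ∈ Icc (1 / 2 : ℝ) 2, |c r| ≤ 4) :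
    ∫ x in giS d, |c x.1 * κ x.2| ≤ 6 := by
  have h1 : ∫ x in giS d, (4 * β x.2) * 1 = 6 := by
    have := gi_conv (d := d) (c := fun _ => 4) continuous_const (κ := β) ⟨hβ, hβ0⟩
      (H := fun _ => 1) continuous_const
    rw [← this]
    simp only [mul_one, hβi]
    rw [intervalIntegral.integral_const]
    norm_num
  rw [← h1]
  refine setIntegral_mono_on ?_ ?_ giS_compact.measurableSet fun x hx => ?_
  · exact (by fun_prop : Continuous fun x : ℝ × Sp d =>
      |c x.1 * κ x.2|).continuousOn.integrableOn_compact giS_compact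
  · exact (by fun_prop : Continuous fun x : ℝ × Sp d =>
      (4 * β x.2) * 1).continuousOn.integrableOn_compact giS_compact
  · rw [abs_mul, mul_one]
    exact mul_le_mul (hc4 _ hx.1) (hκβ _) (abs_nonneg _) (by norm_num)

/-! ## the tangential part -/

lemma tang_inner {n : Sp d} (a b : Sp d) : ⟪tang n a, b⟫_ℝ = ⟪a, tang n b⟫_ℝ := by
  unfold tang
  rw [inner_sub_left, inner_sub_right, inner_smul_left, inner_smul_right]
  simp only [conj_trivial]
  rw [real_inner_comm a n]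
  ring

lemma tang_tang {n : Sp d} (hn : ‖n‖ = 1) (b : Sp d) : tang n (tang n b) = tang n b := by
  have h1 : ⟪n, tang n b⟫_ℝ = 0 := by
    unfold tang
    rw [inner_sub_right, inner_smul_right, real_inner_self_eq_norm_sq, hn]
    ring
  conv_lhs => unfold tang
  rw [show b - ⟪n, b⟫_ℝ • n = tang n b from rfl, h1, zero_smul, sub_zero]

lemma tang_norm {n : Sp d} (hn : ‖n‖ = 1) (b : Sp d) : ‖tang n b‖ ≤ ‖b‖ := by
  have h1 : ‖tang n b‖ ^ 2 = ‖b‖ ^ 2 - ⟪n, b⟫_ℝ ^ 2 := by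
    unfold tang
    rw [norm_sub_sq_real, norm_smul, inner_smul_right, real_inner_comm n b, mul_pow, hn,
      Real.norm_eq_abs, sq_abs]
    ring
  have h2 : ‖tang n b‖ ^ 2 ≤ ‖b‖ ^ 2 := by rw [h1]; nlinarith [sq_nonneg ⟪n, b⟫_ℝ]
  exact (pow_le_pow_iff_left₀ (norm_nonneg _) (norm_nonneg _) two_ne_zero).1 h2

/-- vector valued bound from the scalar products -/
lemma tt_vec {g : Sp d → Sp d} (hg : ContDiff ℝ ∞ g) (j : ℕ) (y : Sp d) {B : ℝ} (hB : 0 ≤ B)
    (h : ∀ e : Sp d, ‖e‖ ≤ 1 → ‖iteratedFDeriv ℝ j (fun x => ⟪e, g x⟫_ℝ) y‖ ≤ B) :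
    ‖iteratedFDeriv ℝ j g y‖ ≤ B := by
  refine ContinuousMultilinearMap.opNorm_le_bound hB fun m => ?_
  set u := iteratedFDeriv ℝ j g y m with hu
  by_cases hu0 : u = 0
  · rw [hu0, norm_zero]
    exact mul_nonneg hB (Finset.prod_nonneg fun _ _ => norm_nonneg _)
  have hn : 0 < ‖u‖ := norm_pos_iff.mpr hu0
  have h1 := h ((1 / ‖u‖) • u) (by rw [norm_smul]; simp [hn.ne'])
  have h2 : (fun x => ⟪(1 / ‖u‖) • u, g x⟫_ℝ) = (innerSL ℝ ((1 / ‖u‖) • u)) ∘ g := rfl
  rw [h2, ContinuousLinearMap.iteratedFDeriv_comp_left _ (hg.contDiffAt (x := y))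
    (by exact_mod_cast le_top)] at h1
  have h3 := ((ContinuousLinearMap.compContinuousMultilinearMap (innerSL ℝ ((1 / ‖u‖) • u))
    (iteratedFDeriv ℝ j g y)).le_opNorm m).trans (mul_le_mul_of_nonneg_right h1
      (Finset.prod_nonneg fun _ _ => norm_nonneg _))
  rw [ContinuousLinearMap.compContinuousMultilinearMap_coe, Function.comp_apply, ← hu,
    innerSL_apply_apply, inner_smul_left, real_inner_self_eq_norm_sq] at h3
  have h4 : ‖(starRingEnd ℝ) (1 / ‖u‖) * ‖u‖ ^ 2‖ = ‖u‖ := by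
    simp only [conj_trivial, norm_mul, norm_div, norm_one, norm_norm, norm_pow]
    field_simp
  rw [h4] at h3
  exact h3

/-! ## conclusion -/

/-- the three integrals -/
def ttW (ε : ℝ) (β : Sp d → ℝ) (f : ℝ × Sp d → ℝ) (y : Sp d) : ℝ :=
  ttI ε (fun x => tau 1 x.1 * β x.2) f y +
    ttI ε (fun x => -(2 * ε ^ 2 * x.1 * tau 1 x.1) * Bp β x.2) (giT f) y +
    ttI ε (fun x => -(ε ^ 4 * x.1 ^ 2 * tau 1 x.1) * Bp (Bp β) x.2) (giL f) y

lemma tt_tau {r : ℝ} (hr : r ∈ Icc (1 / 2 : ℝ) 2) : 0 ≤ tau 1 r ∧ tau 1 r ≤ 1 := by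
  refine ⟨le_max_left _ _, ?_⟩
  rcases le_total r 1 with h | h
  · rw [tau_left hr.1 h]; linarith
  · rw [tau_right h hr.2]; linarith [hr.1]

section W

variable {J : ℕ} {M ε : ℝ} {β : Sp d → ℝ} (hK : Kit J M β)

include hK

lemma ttW_parts {f : ℝ × Sp d → ℝ} (hf : ContDiff ℝ ∞ f) :
    ContDiff ℝ ∞ (ttW ε β f) ∧ ∀ y h, fderiv ℝ (ttW ε β f) y h = ttW ε β (giD (0, h) f) y := by
  have c0 : Continuous β := hK.prof.smooth.continuous
  have c1 : Continuous (Bp β) := hK.smooth1.continuous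
  have c2 : Continuous (Bp (Bp β)) := hK.smooth2.continuous
  have ct := tau_cont
  have k0 : Continuous (fun x : ℝ × Sp d => tau 1 x.1 * β x.2) := by fun_prop
  have k1 : Continuous (fun x : ℝ × Sp d => -(2 * ε ^ 2 * x.1 * tau 1 x.1) * Bp β x.2) := by
    fun_prop
  have k2 : Continuous (fun x : ℝ × Sp d =>
      -(ε ^ 4 * x.1 ^ 2 * tau 1 x.1) * Bp (Bp β) x.2) := by fun_prop
  have s0 := (ttI_bd (ε := ε) k0 hf).1
  have s1 := (ttI_bd (ε := ε) k1 (giT_smooth hf)).1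
  have s2 := (ttI_bd (ε := ε) k2 (giL_smooth hf)).1
  refine ⟨(s0.add s1).add s2, fun y h => ?_⟩
  have d0 := (s0.differentiable (by simp)) y
  have d1 := (s1.differentiable (by simp)) y
  have d2 := (s2.differentiable (by simp)) y
  have e : ttW ε β f = (ttI ε (fun x => tau 1 x.1 * β x.2) f +
    ttI ε (fun x => -(2 * ε ^ 2 * x.1 * tau 1 x.1) * Bp β x.2) (giT f)) +
    ttI ε (fun x => -(ε ^ 4 * x.1 ^ 2 * tau 1 x.1) * Bp (Bp β) x.2) (giL f) := rfl
  rw [e, fderiv_add (d0.add d1) d2, fderiv_add d0 d1]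
  simp only [add_apply]
  rw [ttI_fderiv k0 hf, ttI_fderiv k1 (giT_smooth hf), ttI_fderiv k2 (giL_smooth hf)]
  have e1 : giD (0, h) (giT f) = giT (giD (0, h) f) := giD_comm _ _ hf
  have e2 : giD (0, h) (giL f) = giL (giD (0, h) f) := by
    have := giD_sum (Finset.univ : Finset (Fin d)) (0, h)
      (F := fun j => giD (0, EuclideanSpace.single j (1 : ℝ))
        (giD (0, EuclideanSpace.single j (1 : ℝ)) f))
      (fun j _ => giD_smooth _ (giD_smooth _ hf))
    have e3 : giL f = fun p => ∑ j : Fin d, giD (0, EuclideanSpace.single j (1 : ℝ))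
        (giD (0, EuclideanSpace.single j (1 : ℝ)) f) p := rfl
    rw [e3, this]
    funext p
    unfold giL
    refine Finset.sum_congr rfl fun j _ => ?_
    rw [giD_comm (0, h) _ (giD_smooth _ hf), giD_comm (0, h) _ hf]
  rw [e1, e2]
  rfl

lemma ttW_bd (hε0 : 0 < ε) (hε : ε ≤ 1 / 4) {g : ℝ × Sp d → ℝ} (hg : ContDiff ℝ ∞ g) {N : ℕ}
    {y : Sp d} {B : ℝ} (hB : ∀ l ≤ N + 2, ∀ p ∈ ttK y (1 / 2), ‖iteratedFDeriv ℝ l g p‖ ≤ B)
    {j : ℕ} (hj : j ≤ N) : ‖iteratedFDeriv ℝ j (ttW ε β g) y‖ ≤ (12 + 6 * d) * B := by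
  have c0 : Continuous β := hK.prof.smooth.continuous
  have c1 : Continuous (Bp β) := hK.smooth1.continuous
  have c2 : Continuous (Bp (Bp β)) := hK.smooth2.continuous
  have ct := tau_cont
  have k0 : Continuous (fun x : ℝ × Sp d => tau 1 x.1 * β x.2) := by fun_prop
  have k1 : Continuous (fun x : ℝ × Sp d => -(2 * ε ^ 2 * x.1 * tau 1 x.1) * Bp β x.2) := by
    fun_prop
  have k2 : Continuous (fun x : ℝ × Sp d =>
      -(ε ^ 4 * x.1 ^ 2 * tau 1 x.1) * Bp (Bp β) x.2) := by fun_prop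
  have s0 := ttI_bd (ε := ε) k0 hg
  have s1 := ttI_bd (ε := ε) k1 (giT_smooth hg)
  have s2 := ttI_bd (ε := ε) k2 (giL_smooth hg)
  have b0 := hK.prof.nonneg
  have hmem : ∀ x ∈ giS d, ttΨ ε x + (0, y) ∈ ttK y (1 / 2) := by
    rintro x ⟨h1, h2⟩
    have h1' : 1 / 2 ≤ x.1 ∧ x.1 ≤ 2 := h1
    refine ⟨by simpa [ttΨ] using h1', ?_⟩
    rw [mem_closedBall, dist_zero_right] at h2
    rw [mem_closedBall, dist_eq_norm]
    simp only [ttΨ, Prod.mk_add_mk, add_sub_cancel_right]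
    rw [norm_smul, Real.norm_eq_abs, abs_of_pos (mul_pos hε0 (by linarith))]
    nlinarith [norm_nonneg x.2, mul_pos hε0 (show (0 : ℝ) < x.1 by linarith)]
  have hB0 : 0 ≤ B := (norm_nonneg _).trans
    (hB 0 (Nat.zero_le _) (1, y) ⟨⟨by norm_num, by norm_num⟩, by simp⟩)
  have hd0 : (0 : ℝ) ≤ d := Nat.cast_nonneg d
  have i0 := s0.2 j y B fun x hx => hB j (by omega) _ (hmem x hx)
  have i1 := s1.2 j y B fun x hx => by
    refine (tt_giD _ hg j _).trans ?_
    have h3 : ‖((1 : ℝ), (0 : Sp d))‖ = 1 := by simp [Prod.norm_def]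
    rw [h3, one_mul]
    exact hB (j + 1) (by omega) _ (hmem x hx)
  have i2 := s2.2 j y (d * B) fun x hx => by
    refine (tt_giL hg j _).trans ?_
    exact mul_le_mul_of_nonneg_left (hB (j + 2) (by omega) _ (hmem x hx)) hd0
  have hε2 : ε ^ 2 ≤ 1 / 16 := by nlinarith
  have hε4 : ε ^ 4 ≤ 1 / 256 := by nlinarith [sq_nonneg ε]
  have j0 := ttI_K c0 hK.prof.supp hK.prof.int c0
    (fun z => by rw [abs_of_nonneg (b0 z)]) ct (fun r hr => by
      rw [abs_of_nonneg (tt_tau hr).1]; linarith [(tt_tau hr).2])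
  have j1 := ttI_K c0 hK.prof.supp hK.prof.int c1
    (fun z => by rw [abs_of_nonneg (hK.nonneg1 z)]; exact hK.le1 z)
    (c := fun r => -(2 * ε ^ 2 * r * tau 1 r)) (by fun_prop) (fun r hr => by
      obtain ⟨t0, t1⟩ := tt_tau hr
      have r0 : 0 ≤ r := by linarith [hr.1]
      rw [abs_neg, abs_of_nonneg (by positivity)]
      have h4 : 2 * ε ^ 2 * r ≤ 2 * (1 / 16) * 2 :=
        mul_le_mul (by linarith) hr.2 r0 (by norm_num)
      have h5 : 2 * ε ^ 2 * r * tau 1 r ≤ (2 * (1 / 16) * 2) * 1 :=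
        mul_le_mul h4 t1 t0 (by norm_num)
      linarith)
  have j2 := ttI_K c0 hK.prof.supp hK.prof.int c2
    (fun z => by rw [abs_of_nonneg (hK.nonneg2 z)]; exact (hK.le2 z).trans (hK.le1 z))
    (c := fun r => -(ε ^ 4 * r ^ 2 * tau 1 r)) (by fun_prop) (fun r hr => by
      obtain ⟨t0, t1⟩ := tt_tau hr
      have r0 : 0 ≤ r := by linarith [hr.1]
      rw [abs_neg, abs_of_nonneg (by positivity)]
      have h4 : ε ^ 4 * r ^ 2 ≤ 1 / 256 * 2 ^ 2 :=
        mul_le_mul hε4 (pow_le_pow_left₀ r0 hr.2 2) (by positivity) (by norm_num)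
      have h5 : ε ^ 4 * r ^ 2 * tau 1 r ≤ (1 / 256 * 2 ^ 2) * 1 :=
        mul_le_mul h4 t1 t0 (by norm_num)
      linarith)
  have e : ttW ε β g = (ttI ε (fun x => tau 1 x.1 * β x.2) g +
    ttI ε (fun x => -(2 * ε ^ 2 * x.1 * tau 1 x.1) * Bp β x.2) (giT g)) +
    ttI ε (fun x => -(ε ^ 4 * x.1 ^ 2 * tau 1 x.1) * Bp (Bp β) x.2) (giL g) := rfl
  have hj' : (j : WithTop ℕ∞) ≤ ∞ := by exact_mod_cast le_top
  have q0 := (s0.1.of_le hj').contDiffAt (x := y)
  have q1 := (s1.1.of_le hj').contDiffAt (x := y)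
  have q2 := (s2.1.of_le hj').contDiffAt (x := y)
  have q01 : ContDiffAt ℝ (j : WithTop ℕ∞) (ttI ε (fun x => tau 1 x.1 * β x.2) g +
    ttI ε (fun x => -(2 * ε ^ 2 * x.1 * tau 1 x.1) * Bp β x.2) (giT g)) y := q0.add q1
  rw [e, iteratedFDeriv_add_apply q01 q2, iteratedFDeriv_add_apply q0 q1]
  refine (norm_add_le _ _).trans ((add_le_add (norm_add_le _ _) le_rfl).trans ?_)
  have m0 := i0.trans (mul_le_mul_of_nonneg_right j0 hB0)
  have m1 := i1.trans (mul_le_mul_of_nonneg_right j1 hB0)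
  have m2 := i2.trans (mul_le_mul_of_nonneg_right j2 (mul_nonneg hd0 hB0))
  linarith

end W

/-- W is given by the three integrals -/
lemma ttW_eq {J : ℕ} {M ε : ℝ} {β : Sp d → ℝ} (hK : Kit J M β) {μ : Measure (Sp d)} {f : ℝ × Sp d → ℝ} (hf : ContDiff ℝ ∞ f)
    (v1 : ∀ t : ℝ, 1 / 4 ≤ t → ∀ x, vv μ t x = f (t, x)) : WW β ε μ 1 = ttW ε β f := by
  have hβ : GiK β := ⟨hK.prof.smooth.continuous, hK.prof.supp⟩
  have hB : GiK (Bp β) := ⟨hK.smooth1.continuous, hK.supp1⟩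
  have hB2 : GiK (Bp (Bp β)) := ⟨hK.smooth2.continuous, hK.supp2⟩
  have v1' : ∀ t : ℝ, 1 / 4 ≤ t → vv μ t = fun x => f (t, x) := by
    intro t ht
    funext x
    exact v1 t ht x
  have v2 : ∀ t : ℝ, 1 / 4 < t → ∀ x, dtv μ t x = giT f (t, x) := by
    intro t ht x
    unfold dtv
    have : (fun s => vv μ s x) =ᶠ[nhds t] fun s => f (s, x) := by
      filter_upwards [lt_mem_nhds ht] with s hs
      exact v1 s hs.le x
    rw [this.deriv_eq]
    have h1 : HasDerivAt (fun s : ℝ => (s, x)) ((1 : ℝ), (0 : Sp d)) t :=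
      (hasDerivAt_id t).prodMk (hasDerivAt_const t x)
    have h2 : HasFDerivAt f (fderiv ℝ f (t, x)) (t, x) :=
      ((hf.differentiable (by simp)) _).hasFDerivAt
    exact (h2.comp_hasDerivAt t h1).deriv
  have v3 : ∀ t : ℝ, 1 / 4 ≤ t → ∀ x, lap (vv μ t) x = giL f (t, x) := by
    intro t ht x
    rw [v1' t ht, lap_slice t hf]
  have w2 : ∀ t : ℝ, 1 / 4 < t → ∀ y, wt β ε μ t y = giA ε β f t y -
      2 * ε ^ 2 * t * giA ε (Bp β) (giT f) t y -
        ε ^ 4 * t ^ 2 * giA ε (Bp (Bp β)) (giL f) t y := by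
    intro t ht y
    unfold wt giA
    simp only [v1 t ht.le, v2 t ht, v3 t ht.le]
    have k1 := hβ.int (gi_ray_smooth hf t (ε * t) y).continuous
    have k2 := (hB.int (gi_ray_smooth (giT_smooth hf) t (ε * t) y).continuous).const_mul
      (2 * ε ^ 2 * t)
    have k3 := (hB2.int (gi_ray_smooth (giL_smooth hf) t (ε * t) y).continuous).const_mul
      (ε ^ 4 * t ^ 2)
    have k12 : Integrable fun z => β z * f (t, y + (ε * t) • z) -
        2 * ε ^ 2 * t * (Bp β z * giT f (t, y + (ε * t) • z)) := k1.sub k2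
    rw [integral_sub k12 k3, integral_sub k1 k2, integral_const_mul, integral_const_mul]
  have hW : ∀ y, WW β ε μ 1 y = ∫ r in (1 / 2 : ℝ)..2, tau 1 r *
      (giA ε β f r y - 2 * ε ^ 2 * r * giA ε (Bp β) (giT f) r y -
        ε ^ 4 * r ^ 2 * giA ε (Bp (Bp β)) (giL f) r y) := by
    intro y
    unfold WW
    rw [show (2 : ℝ) * 1 = 2 by norm_num]
    apply intervalIntegral.integral_congr
    intro r hr
    rw [uIcc_of_le (by norm_num)] at hr
    show tau 1 r * wt β ε μ r y = _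
    rw [w2 r (by linarith [hr.1])]
  have tc := tau_cont
  have cc1 : Continuous (tau 1) := tc
  have cc2 : Continuous fun r => -(2 * ε ^ 2 * r * tau 1 r) := by fun_prop
  have cc3 : Continuous fun r => -(ε ^ 4 * r ^ 2 * tau 1 r) := by fun_prop
  have cA : ∀ {κ : Sp d → ℝ} {F : ℝ × Sp d → ℝ}, GiK κ → ContDiff ℝ ∞ F → ∀ y,
      Continuous fun r => giA ε κ F r y := fun hκ hF y => giA_cont hκ hF.continuous y
  have conv : ∀ {c : ℝ → ℝ} {κ : Sp d → ℝ} {F : ℝ × Sp d → ℝ}, Continuous c → GiK κ →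
      ContDiff ℝ ∞ F → ∀ y, ∫ r in (1 / 2 : ℝ)..2, c r * giA ε κ F r y =
      ttI ε (fun x => c x.1 * κ x.2) F y := by
    intro c κ F hc hκ hF y
    have hH : Continuous fun x : ℝ × Sp d => F (x.1, y + (ε * x.1) • x.2) := by
      have := hF.continuous
      fun_prop
    have := gi_conv hc hκ hH
    unfold giA
    rw [this]
    unfold ttI ttΨ
    congr 1
    funext x
    rw [Prod.mk_add_mk, add_zero, add_comm y]
  funext y
  have hT := giT_smooth hf
  have hL := giL_smooth hf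
  have i1 : IntervalIntegrable (fun r => tau 1 r * giA ε β f r y) volume (1 / 2) 2 :=
    (cc1.mul (cA hβ hf y)).intervalIntegrable _ _
  have i2 : IntervalIntegrable (fun r => -(2 * ε ^ 2 * r * tau 1 r) * giA ε (Bp β) (giT f) r y)
      volume (1 / 2) 2 := (cc2.mul (cA hB hT y)).intervalIntegrable _ _
  have i3 : IntervalIntegrable (fun r =>
      -(ε ^ 4 * r ^ 2 * tau 1 r) * giA ε (Bp (Bp β)) (giL f) r y)
      volume (1 / 2) 2 := (cc3.mul (cA hB2 hL y)).intervalIntegrable _ _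
  have i12 : IntervalIntegrable (fun r => tau 1 r * giA ε β f r y +
      -(2 * ε ^ 2 * r * tau 1 r) * giA ε (Bp β) (giT f) r y) volume (1 / 2) 2 := i1.add i2
  unfold ttW
  rw [← conv cc1 hβ hf, ← conv cc2 hB hT, ← conv cc3 hB2 hL, hW y,
    ← intervalIntegral.integral_add i1 i2, ← intervalIntegral.integral_add i12 i3]
  congr 1
  funext r
  ring

theorem stmtTT (h : StmtTH) : StmtTT := by
  intro d J hd M C' ε i1 hC' hε0 hε hi1
  obtain ⟨C, hC, hTH⟩ := h d (J + 4) hd C' hC'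
  set A : ℝ := C * 2 ^ (J + 4) * Real.sqrt (3 ^ d * C) with hA
  have hA0 : 0 < A := by positivity
  set η : ℝ := i1 / (12 + 6 * d) with hη
  have hη0 : 0 < η := by positivity
  obtain ⟨i0, hi0, hint⟩ := tt_interp (d := d) (G := ℝ) (J + 2) A η hA0 hη0
  refine ⟨i0, hi0, fun β hK μ hμ n y hn hsm j hj => ?_⟩
  obtain ⟨hpos, hv, hbd, hharn, htime⟩ := hTH μ hμ
  have hf := gi_ext hv
  set f : ℝ × Sp d → ℝ := fun p => giRho p.1 * vv μ p.1 p.2 with hfdef
  have v1 : ∀ t : ℝ, 1 / 4 ≤ t → ∀ x, vv μ t x = f (t, x) := by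
    intro t ht x
    simp only [hfdef, giRho_one ht, one_mul]
  have hS : 0 ≤ vv μ 1 y := Real.sqrt_nonneg _
  -- size of v
  have vle : ∀ p ∈ ttK y 1, vv μ p.1 p.2 ≤ Real.sqrt (3 ^ d * C) * vv μ 1 y := by
    intro p hp
    obtain ⟨⟨h1, h2⟩, h3⟩ := hp
    rw [mem_closedBall, dist_eq_norm] at h3
    have hp0 : 0 < p.1 := by linarith
    have h4 := hharn p.1 y p.2 hp0
    have h5 : (1 + ‖y - p.2‖ / p.1) ^ d ≤ 3 ^ d := by
      refine pow_le_pow_left₀ (by positivity) ?_ d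
      have h6 : ‖y - p.2‖ / p.1 ≤ 2 := by
        rw [div_le_iff₀ hp0, norm_sub_rev]
        linarith
      linarith
    have h7 := htime p.1 1 y one_pos (by linarith) (by linarith)
    have h8 := (hpos p.1 y hp0).1.le
    have h9 : th μ p.1 p.2 ≤ 3 ^ d * C * th μ 1 y := by
      calc th μ p.1 p.2 ≤ (1 + ‖y - p.2‖ / p.1) ^ d * th μ p.1 y := h4
        _ ≤ 3 ^ d * th μ p.1 y := mul_le_mul_of_nonneg_right h5 h8
        _ ≤ 3 ^ d * (C * th μ 1 y) := mul_le_mul_of_nonneg_left h7 (by positivity)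
        _ = _ := by ring
    unfold vv
    rw [← Real.sqrt_mul (by positivity)]
    exact Real.sqrt_le_sqrt h9
  -- derivatives of f
  have fbd : ∀ l ≤ J + 4, ∀ p ∈ ttK y 1, ‖iteratedFDeriv ℝ l f p‖ ≤ A * vv μ 1 y := by
    intro l hl p hp
    have hp0 := vle p hp
    obtain ⟨⟨h1, h2⟩, h3⟩ := hp
    have e : (fun p : ℝ × Sp d => vv μ p.1 p.2) =ᶠ[nhds p] f := by
      have ho : {q : ℝ × Sp d | 1 / 4 < q.1} ∈ nhds p :=
        (isOpen_lt continuous_const continuous_fst).mem_nhds (show 1 / 4 < p.1 by linarith)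
      filter_upwards [ho] with q hq
      exact v1 q.1 (le_of_lt hq) q.2
    have e2 : iteratedFDeriv ℝ l f p = iteratedFDeriv ℝ l
        (fun p : ℝ × Sp d => vv μ p.1 p.2) (p.1, p.2) :=
      (Filter.EventuallyEq.iteratedFDeriv ℝ e l).eq_of_nhds.symm
    rw [e2]
    refine (hbd p.1 p.2 l (by linarith) hl).trans ?_
    have hv0 : 0 ≤ vv μ p.1 p.2 := Real.sqrt_nonneg _
    have h4 : C * vv μ p.1 p.2 / p.1 ^ l ≤ C * vv μ p.1 p.2 * 2 ^ (J + 4) := by
      rw [div_eq_mul_inv]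
      refine mul_le_mul_of_nonneg_left ?_ (by positivity)
      rw [← inv_pow]
      have h5 : p.1⁻¹ ≤ 2 := by
        have := inv_anti₀ (show (0 : ℝ) < 1 / 2 by norm_num) h1
        simpa using this
      exact (pow_le_pow_left₀ (inv_nonneg.mpr (by linarith)) h5 l).trans
        (pow_le_pow_right₀ (by norm_num) hl)
    calc _ ≤ C * vv μ p.1 p.2 * 2 ^ (J + 4) := h4
      _ ≤ C * (Real.sqrt (3 ^ d * C) * vv μ 1 y) * 2 ^ (J + 4) := by gcongr
      _ = A * vv μ 1 y := by rw [hA]; ring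
  -- W
  have hWeq := ttW_eq (ε := ε) hK hf v1
  obtain ⟨hWs, hWd⟩ := ttW_parts (ε := ε) hK hf
  have hgs : ContDiff ℝ ∞ (fun x => tang n (gradient (WW β ε μ 1) x)) := by
    rw [hWeq]
    have h1 : ContDiff ℝ ∞ (gradient (ttW ε β f)) := by
      have h2 : ContDiff ℝ ∞ (fderiv ℝ (ttW ε β f)) := hWs.fderiv_right (m := ∞) (by simp)
      exact (InnerProductSpace.toDual ℝ (Sp d)).symm.contDiff.comp h2
    unfold tang
    exact h1.sub ((contDiff_const.inner ℝ h1).smul contDiff_const)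
  refine tt_vec hgs j y (by positivity) fun e0 he0 => ?_
  set e : Sp d := tang n e0 with he
  have hee : ‖e‖ ≤ 1 := (tang_norm hn e0).trans he0
  have e1 : (fun x => ⟪e0, tang n (gradient (WW β ε μ 1) x)⟫_ℝ) = ttW ε β (giD (0, e) f) := by
    funext x
    rw [← tang_inner, real_inner_comm, inner_gradient_left, hWeq]
    exact hWd x e
  rw [e1]
  have hgS := giD_smooth (0, e) hf
  have hne : ‖((0 : ℝ), e)‖ ≤ 1 := by
    rw [Prod.norm_def]
    simpa using hee
  have hk := hint (giD (0, e) f) y (vv μ 1 y) hgS hS (fun l hl p hp => by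
      refine (tt_giD _ hf l p).trans ?_
      have h1 := fbd (l + 1) (by omega) p hp
      calc ‖((0 : ℝ), e)‖ * ‖iteratedFDeriv ℝ (l + 1) f p‖
          ≤ 1 * (A * vv μ 1 y) := mul_le_mul hne h1 (norm_nonneg _) zero_le_one
        _ = _ := one_mul _)
    (fun p hp => by
      obtain ⟨⟨h1, h2⟩, h3⟩ := hp
      rw [mem_closedBall, dist_eq_norm] at h3
      have h4 := hsm p.1 p.2 h1 h2 h3
      have h5 : giD (0, e) f p = ⟪tang n (gradient (vv μ p.1) p.2), e⟫_ℝ := by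
        rw [tang_inner, he, tang_tang hn, ← he, inner_gradient_left]
        have h6 : vv μ p.1 = fun x => f (p.1, x) := by
          funext x
          exact v1 p.1 (by linarith) x
        rw [h6, gi_slice p.1 e hf p.2]
      rw [h5]
      refine (norm_inner_le_norm _ _).trans ?_
      calc ‖tang n (gradient (vv μ p.1) p.2)‖ * ‖e‖ ≤ (i0 * vv μ 1 y) * 1 :=
            mul_le_mul h4 hee (norm_nonneg _) (by positivity)
        _ = _ := mul_one _)
  have hfin := ttW_bd (N := J) hK hε0 hε hgS (y := y) (B := η * vv μ 1 y)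
    (fun l hl p hp => hk l hl p (ttK_mono y (by
      have : (0 : ℝ) < (1 / 2) ^ (J + 2 + 1) := by positivity
      linarith) hp)) hj
  refine hfin.trans (le_of_eq ?_)
  rw [hη]
  field_simp

end

end TG
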