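import Pool.Agent.TG.WBTools2

/-!
# The Cauchy-Schwarz inequality with disc averages (module WB)
-/

open MeasureTheory Metric Set TrI Filter Topology
open scoped InnerProductSpace ContDiff Pointwise

namespace TG

noncomputable section

namespace WBT

variable {d : ℕ} {G : Type*} [NormedAddCommGroup G] [NormedSpace ℝ G]

/-- the properties of the potential -/
structure VOK (C : ℝ) (V : ℝ → Sp d → ℝ) : Prop where
  sf : SF V
  pos : ∀ r x, 0 < r → 0 < V r x
  dx : ∀ r x e, 1 / 2 ≤ r → r ≤ 2 → ‖e‖ ≤ 1 → |pX V e r x| ≤ C * V r x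
  dt : ∀ r x, 1 / 2 ≤ r → r ≤ 2 → |pT V r x| ≤ C * V r x
  comp : ∀ r x y, 1 / 2 ≤ r → r ≤ 2 → ‖x - y‖ ≤ 4 → V r x ≤ C * V 1 y

lemma vok (h : StmtTH) (hd : 2 ≤ d) {C' : ℝ} (hC' : 0 < C') : ∃ C : ℝ, 1 ≤ C ∧
    ∀ μ : Measure (Sp d), Gro C' μ → VOK C (vv μ) := by
  obtain ⟨C, hC, h1⟩ := h d 1 hd C' hC'
  have h0 : 0 ≤ Real.sqrt (C * 5 ^ d) := Real.sqrt_nonneg _
  refine ⟨1 + 2 * C + Real.sqrt (C * 5 ^ d), by linarith, fun μ hμ => ?_⟩
  obtain ⟨t1, t2, t3, t4, t5⟩ := h1 μ hμ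
  have hsf : SF (vv μ) := t2
  have hp : ∀ r x, 0 < r → 0 < vv μ r x := fun r x hr => Real.sqrt_pos.2 (t1 r x hr).1
  have key : ∀ (r : ℝ) (x : Sp d) (w : ℝ × Sp d), 1 / 2 ≤ r → ‖w‖ ≤ 1 →
      |fderiv ℝ (fun p : ℝ × Sp d => vv μ p.1 p.2) (r, x) w|
        ≤ (1 + 2 * C + Real.sqrt (C * 5 ^ d)) * vv μ r x := by
    intro r x w hr hw
    have hr0 : 0 < r := by linarith
    have h2 := t3 r x 1 hr0 le_rfl
    rw [norm_iteratedFDeriv_one, pow_one] at h2
    have h3 := (fderiv ℝ (fun p : ℝ × Sp d => vv μ p.1 p.2) (r, x)).le_opNorm w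
    rw [Real.norm_eq_abs] at h3
    have h4 : C * vv μ r x / r ≤ 2 * C * vv μ r x := by
      rw [div_le_iff₀ hr0]
      have := mul_pos hC (hp r x hr0)
      nlinarith
    have h5 := mul_le_mul_of_nonneg_left hw
      (norm_nonneg (fderiv ℝ (fun p : ℝ × Sp d => vv μ p.1 p.2) (r, x)))
    have h6 := mul_nonneg h0 (hp r x hr0).le
    have h7 := (hp r x hr0).le
    nlinarith
  refine ⟨hsf, hp, fun r x e hr _ he => ?_, fun r x hr _ => ?_, fun r x y hr hr2 hxy => ?_⟩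
  · rw [hsf.pX_eq e (by linarith) x]
    refine key r x _ hr ?_
    rw [Prod.norm_def]
    simpa using he
  · rw [hsf.pT_eq (by linarith) x]
    refine key r x _ hr ?_
    rw [Prod.norm_def]
    simp
  · have h2 := t5 r 1 x one_pos (by linarith) (by linarith)
    have h3 := t4 1 y x one_pos
    have h4 : (1 + ‖y - x‖ / 1) ^ d ≤ 5 ^ d := by
      refine pow_le_pow_left₀ (by positivity) ?_ d
      rw [div_one, norm_sub_rev]
      linarith
    have h5 : 0 < th μ 1 y := (t1 1 y one_pos).1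
    have h6 : th μ r x ≤ (C * 5 ^ d) * th μ 1 y := by
      calc th μ r x ≤ C * th μ 1 x := h2
        _ ≤ C * (5 ^ d * th μ 1 y) := by
            refine mul_le_mul_of_nonneg_left (h3.trans ?_) hC.le
            exact mul_le_mul_of_nonneg_right h4 h5.le
        _ = _ := by ring
    have h7 : vv μ r x ≤ Real.sqrt (C * 5 ^ d) * vv μ 1 y := by
      unfold vv
      rw [← Real.sqrt_mul (by positivity)]
      exact Real.sqrt_le_sqrt h6
    have h8 : 0 < vv μ 1 y := hp 1 y one_pos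
    nlinarith [mul_pos hC h8]

/-! ### The energy densities -/

/-- tangential gradient squared -/
def TT (V : ℝ → Sp d → ℝ) (n : Sp d) (r : ℝ) (x : Sp d) : ℝ := ‖tang n (gradient (V r) x)‖ ^ 2

/-- the quadratic form -/
def QH (V : ℝ → Sp d → ℝ) (n : Sp d) (ε r : ℝ) (z x : Sp d) : ℝ :=
  TT V n r x + (pT V r x + ε * ⟪n, z⟫_ℝ * pX V n r x) ^ 2

/-- the energy density -/
def HH (V : ℝ → Sp d → ℝ) (n : Sp d) (ε r : ℝ) (z x : Sp d) : ℝ := QH V n ε r z x / V r x

lemma norm_tang_sq {n : Sp d} (hn : ‖n‖ = 1) (w : Sp d) :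
    ‖tang n w‖ ^ 2 = ‖w‖ ^ 2 - ⟪n, w⟫_ℝ ^ 2 := by
  unfold tang
  rw [norm_sub_sq_real, norm_smul, hn, real_inner_smul_right, real_inner_comm, Real.norm_eq_abs,
    mul_one, sq_abs]
  ring

lemma inner_tang {n e : Sp d} (he : ⟪n, e⟫_ℝ = 0) (w : Sp d) : ⟪tang n w, e⟫_ℝ = ⟪w, e⟫_ℝ := by
  unfold tang
  rw [inner_sub_left, real_inner_smul_left, he, mul_zero, sub_zero]

lemma inner_n_tang {n : Sp d} (hn : ‖n‖ = 1) (w : Sp d) : ⟪n, tang n w⟫_ℝ = 0 := by
  unfold tang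
  rw [inner_sub_right, real_inner_smul_right, real_inner_self_eq_norm_sq, hn]
  ring

lemma inner_grad (f : Sp d → ℝ) (x e : Sp d) : ⟪gradient f x, e⟫_ℝ = fderiv ℝ f x e :=
  inner_gradient_left

lemma TT_eq (V : ℝ → Sp d → ℝ) {n : Sp d} (hn : ‖n‖ = 1) (r : ℝ) (x : Sp d) :
    TT V n r x = ∑ j : Fin d, pX V (EuclideanSpace.single j (1 : ℝ)) r x ^ 2
      - pX V n r x ^ 2 := by
  unfold TT
  rw [norm_tang_sq hn, EuclideanSpace.norm_sq_eq, real_inner_comm, inner_grad]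
  congr 1
  refine Finset.sum_congr rfl fun j _ => ?_
  unfold pX
  rw [← inner_grad, EuclideanSpace.inner_single_right]
  simp

lemma SF.sum {ι : Type*} {F : ι → ℝ → Sp d → ℝ} {s : Finset ι} (h : ∀ i ∈ s, SF (F i)) :
    SF fun r x => ∑ i ∈ s, F i r x :=
  ContDiffOn.sum h

lemma SF.TT {V : ℝ → Sp d → ℝ} (h : SF V) {n : Sp d} (hn : ‖n‖ = 1) : SF (TT V n) := by
  have h1 : SF fun r x => (∑ j : Fin d, WBT.pX V (EuclideanSpace.single j (1 : ℝ)) r x ^ 2)
      + -(WBT.pX V n r x ^ 2) :=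
    (SF.sum fun j _ => (h.pX _).pow 2).add ((h.pX n).pow 2).neg
  exact h1.congr fun r x _ => by rw [TT_eq V hn, sub_eq_add_neg]

lemma QH_nonneg (V : ℝ → Sp d → ℝ) (n : Sp d) (ε r : ℝ) (z x : Sp d) : 0 ≤ QH V n ε r z x := by
  unfold QH TT
  positivity

lemma HH_nonneg {C : ℝ} {V : ℝ → Sp d → ℝ} (hV : VOK C V) (n : Sp d) (ε : ℝ) {r : ℝ} (hr : 0 < r)
    (z x : Sp d) : 0 ≤ HH V n ε r z x :=
  div_nonneg (QH_nonneg V n ε r z x) (hV.pos r x hr).le

lemma HH_smooth {C : ℝ} {V : ℝ → Sp d → ℝ} (hV : VOK C V) {n : Sp d} (hn : ‖n‖ = 1) (ε : ℝ)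
    (m : ℕ) : ContDiffOn ℝ m (fun p : ℝ × Sp d × Sp d => HH V n ε p.1 p.2.1 p.2.2) (Om d) := by
  have h1 : ContDiffOn ℝ m (fun p : ℝ × Sp d × Sp d => ε * ⟪n, p.2.1⟫_ℝ) (Om d) :=
    (contDiff_const.mul (((innerSL ℝ n).contDiff).comp
      (contDiff_fst.comp contDiff_snd))).contDiffOn
  have h2 := ((hV.sf.TT hn).lift m).add (((hV.sf.pT.lift m).add (h1.mul ((hV.sf.pX n).lift m))).pow 2)
  exact h2.div (hV.sf.lift m) fun p hp => (hV.pos p.1 p.2.2 hp).ne'

lemma SF.comp_cont {F : ℝ → Sp d → ℝ} (h : SF F) {X : Type*} [TopologicalSpace X] {a : X → ℝ}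
    {b : X → Sp d} {s : Set X} (ha : ContinuousOn a s) (hb : ContinuousOn b s)
    (hs : ∀ x ∈ s, 0 < a x) : ContinuousOn (fun x => F (a x) (b x)) s := by
  have h1 : ContinuousOn (fun p : ℝ × Sp d => F p.1 p.2) (Oh d) := ContDiffOn.continuousOn h
  exact ContinuousOn.comp (g := fun p : ℝ × Sp d => F p.1 p.2) (f := fun x => (a x, b x)) h1
    (ha.prodMk hb) fun x hx => hs x hx

lemma HH_comp {C : ℝ} {V : ℝ → Sp d → ℝ} (hV : VOK C V) {n : Sp d} (hn : ‖n‖ = 1) (ε : ℝ)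
    {X : Type*} [TopologicalSpace X] {a : X → ℝ} {b c : X → Sp d} {s : Set X}
    (ha : ContinuousOn a s) (hb : ContinuousOn b s) (hc : ContinuousOn c s)
    (hs : ∀ x ∈ s, 0 < a x) : ContinuousOn (fun x => HH V n ε (a x) (b x) (c x)) s := by
  have h1 := (HH_smooth hV hn ε 0).continuousOn
  exact ContinuousOn.comp (g := fun p : ℝ × Sp d × Sp d => HH V n ε p.1 p.2.1 p.2.2)
    (f := fun x => (a x, b x, c x)) h1 (ha.prodMk (hb.prodMk hc)) fun x hx => hs x hx

lemma HH_shift (V : ℝ → Sp d → ℝ) {n u : Sp d} (hu : ⟪n, u⟫_ℝ = 0) (ε r : ℝ) (z x : Sp d) :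
    HH V n ε r (z + u) x = HH V n ε r z x := by
  unfold HH QH
  rw [inner_add_right, hu, add_zero]

lemma Reg.bH {C : ℝ} {V : ℝ → Sp d → ℝ} (hV : VOK C V) {n : Sp d} (hn : ‖n‖ = 1) (ε : ℝ)
    {m : ℕ} {β : Sp d → ℝ} (hβ : KC m β) : Reg m (fun r z x => β z * HH V n ε r z x) :=
  ⟨hβ.lift.mul (HH_smooth hV hn ε m), fun r z x hz => by rw [hβ.supp z hz, zero_mul]⟩

/-- the average in z -/
def gg (V : ℝ → Sp d → ℝ) (β : Sp d → ℝ) (n : Sp d) (ε r : ℝ) (y : Sp d) : ℝ :=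
  ∫ z, β z * HH V n ε r z (y + (ε * r) • z)

/-- the average in z and r -/
def XT (V : ℝ → Sp d → ℝ) (β : Sp d → ℝ) (n : Sp d) (ε : ℝ) (y : Sp d) : ℝ :=
  ∫ r in (1 / 2 : ℝ)..2, tau 1 r * gg V β n ε r y

lemma cont_gg {C : ℝ} {V : ℝ → Sp d → ℝ} (hV : VOK C V) {n : Sp d} (hn : ‖n‖ = 1) (ε : ℝ)
    {β : Sp d → ℝ} (hβ : KC 0 β) :
    ContinuousOn (fun q : ℝ × Sp d => gg V β n ε q.1 q.2) (Oh d) := by
  have hR := Reg.bH hV hn ε hβ
  refine continuousOn_integral_of_compact_support (k := closedBall (0 : Sp d) 1)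
    (isCompact_closedBall _ _) ?_ ?_
  · have h1 : Continuous fun q : (ℝ × Sp d) × Sp d =>
        ((q.1.1, q.2, q.1.2 + (ε * q.1.1) • q.2) : ℝ × Sp d × Sp d) := by fun_prop
    exact hR.smooth.continuousOn.comp h1.continuousOn fun q hq => hq.1
  · intro q z _ hz
    rw [mem_closedBall_zero_iff, not_le] at hz
    exact hR.supp q.1 z _ hz

lemma gg_comp {C : ℝ} {V : ℝ → Sp d → ℝ} (hV : VOK C V) {n : Sp d} (hn : ‖n‖ = 1) (ε : ℝ)
    {β : Sp d → ℝ} (hβ : KC 0 β) {X : Type*} [TopologicalSpace X] {a : X → ℝ} {b : X → Sp d}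
    {s : Set X} (ha : ContinuousOn a s) (hb : ContinuousOn b s)
    (hs : ∀ x ∈ s, 0 < a x) : ContinuousOn (fun x => gg V β n ε (a x) (b x)) s :=
  ContinuousOn.comp (g := fun q : ℝ × Sp d => gg V β n ε q.1 q.2) (f := fun x => (a x, b x))
    (cont_gg hV hn ε hβ) (ha.prodMk hb) fun x hx => hs x hx

lemma gg_nonneg {C : ℝ} {V : ℝ → Sp d → ℝ} (hV : VOK C V) (n : Sp d) (ε : ℝ)
    {β : Sp d → ℝ} (hβ : ∀ z, 0 ≤ β z) {r : ℝ} (hr : 0 < r) (y : Sp d) : 0 ≤ gg V β n ε r y :=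
  integral_nonneg fun z => mul_nonneg (hβ z) (HH_nonneg hV n ε hr _ _)

/-! ### Discs -/

/-- the orthogonal complement -/
abbrev Pn (n : Sp d) : Type := (Submodule.span ℝ {n})ᗮ

lemma inner_Pn (n : Sp d) (u : Pn n) : ⟪n, (u : Sp d)⟫_ℝ = 0 :=
  (Submodule.mem_orthogonal_singleton_iff_inner_right).1 u.2

lemma disc_cont (n : Sp d) {β : Sp d → ℝ} (hβ : Continuous β) : Continuous (disc n β) := by
  unfold disc
  refine continuous_parametric_integral_of_continuous (f := fun (x : Sp d) (y : Pn n) =>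
    β (x - (y : Sp d))) ?_ (isCompact_closedBall _ _)
  have : Continuous fun q : Sp d × Pn n => q.1 - (q.2 : Sp d) := by fun_prop
  exact hβ.comp this

lemma disc_nonneg (n : Sp d) {β : Sp d → ℝ} (hβ : ∀ z, 0 ≤ β z) (z : Sp d) : 0 ≤ disc n β z :=
  integral_nonneg fun _ => hβ _

lemma disc_supp (n : Sp d) {β : Sp d → ℝ} (hβ : ∀ z, 1 < ‖z‖ → β z = 0) {z : Sp d}
    (hz : 2 < ‖z‖) : disc n β z = 0 := by
  unfold disc
  refine setIntegral_eq_zero_of_forall_eq_zero fun u hu => hβ _ ?_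
  rw [mem_closedBall_zero_iff] at hu
  have h1 : ‖(u : Sp d)‖ ≤ 1 := hu
  have h2 := norm_sub_norm_le z (u : Sp d)
  linarith

lemma disc_gg {C : ℝ} {V : ℝ → Sp d → ℝ} (hV : VOK C V) {n : Sp d} (hn : ‖n‖ = 1) (ε : ℝ)
    {β : Sp d → ℝ} (hβ : KC 0 β) {r : ℝ} (hr : 0 < r) (y : Sp d) :
    ∫ z, disc n β z * HH V n ε r z (y + (ε * r) • z)
      = ∫ u in closedBall (0 : Pn n) 1, gg V β n ε r (y + (ε * r) • (u : Sp d)) := by
  have hc : Continuous β := hβ.smooth.continuous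
  have hF : Continuous fun z : Sp d => HH V n ε r z (y + (ε * r) • z) := by
    rw [← continuousOn_univ]
    exact HH_comp hV hn ε continuousOn_const continuousOn_id (by fun_prop) fun z _ => hr
  have e1 : ∀ z, disc n β z * HH V n ε r z (y + (ε * r) • z)
      = ∫ u in closedBall (0 : Pn n) 1, β (z - (u : Sp d)) * HH V n ε r z (y + (ε * r) • z) := by
    intro z
    unfold disc
    rw [integral_mul_const]
  simp_rw [e1]
  have hi : Integrable (Function.uncurry fun (z : Sp d) (u : Pn n) =>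
      β (z - (u : Sp d)) * HH V n ε r z (y + (ε * r) • z))
      ((volume : Measure (Sp d)).prod (volume.restrict (closedBall (0 : Pn n) 1))) := by
    have h2 : Continuous (Function.uncurry fun (z : Sp d) (u : Pn n) =>
      β (z - (u : Sp d)) * HH V n ε r z (y + (ε * r) • z)) := by
      have h3 : Continuous fun q : Sp d × Pn n => q.1 - (q.2 : Sp d) := by fun_prop
      exact (hc.comp h3).mul (hF.comp continuous_fst)
    have h4 : IntegrableOn (Function.uncurry fun (z : Sp d) (u : Pn n) =>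
      β (z - (u : Sp d)) * HH V n ε r z (y + (ε * r) • z))
      (closedBall (0 : Sp d) 2 ×ˢ closedBall (0 : Pn n) 1)
      ((volume : Measure (Sp d)).prod volume) :=
      h2.continuousOn.integrableOn_compact
        ((isCompact_closedBall _ _).prod (isCompact_closedBall _ _))
    have h5 := IntegrableOn.of_forall_sdiff_eq_zero h4
      (t := univ ×ˢ closedBall (0 : Pn n) 1) (MeasurableSet.univ.prod measurableSet_closedBall)
      (fun q hq => by
        have h6 : ‖(q.2 : Sp d)‖ ≤ 1 := by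
          have := hq.1.2
          rwa [mem_closedBall_zero_iff] at this
        have h7 : 2 < ‖q.1‖ := by
          by_contra h8
          exact hq.2 ⟨by rw [mem_closedBall_zero_iff]; linarith, hq.1.2⟩
        have h9 := norm_sub_norm_le q.1 (q.2 : Sp d)
        show β (q.1 - (q.2 : Sp d)) * _ = 0
        rw [hβ.supp _ (by linarith), zero_mul])
    rw [IntegrableOn, ← Measure.prod_restrict, Measure.restrict_univ] at h5
    exact h5
  rw [integral_integral_swap hi]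
  refine integral_congr_ae (Eventually.of_forall fun u => ?_)
  simp only
  unfold gg
  have h3 := integral_sub_right_eq_self (μ := (volume : Measure (Sp d)))
    (fun z => β z * HH V n ε r (z + (u : Sp d)) (y + (ε * r) • (z + (u : Sp d)))) (u : Sp d)
  simp only [sub_add_cancel] at h3
  rw [h3]
  refine integral_congr_ae (Eventually.of_forall fun z => ?_)
  simp only
  rw [HH_shift V (inner_Pn n u), smul_add, add_assoc y, add_comm ((ε * r) • (u : Sp d))]

lemma disc_scale {ε r : ℝ} (hε : 0 < ε) (hε1 : ε ≤ 1) (hr : 1 / 2 ≤ r) (hr2 : r ≤ 2) {n : Sp d}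
    {g : Sp d → ℝ} (hg : Continuous g) (hg0 : ∀ x, 0 ≤ g x) (y : Sp d) :
    ∫ u in closedBall (0 : Pn n) 1, g (y + (ε * r) • (u : Sp d))
      ≤ (2 / ε) ^ d * ∫ u in closedBall (0 : Pn n) (2 * ε), g (y + (u : Sp d)) := by
  have hs : 0 < ε * r := by positivity
  have hk : Module.finrank ℝ (Pn n) ≤ d := by
    have := Submodule.finrank_le (Submodule.span ℝ {n})ᗮ
    rwa [finrank_euclideanSpace_fin] at this
  have h1 := Measure.setIntegral_comp_smul_of_pos (μ := (volume : Measure (Pn n)))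
    (fun u : Pn n => g (y + (u : Sp d))) (closedBall (0 : Pn n) 1) hs
  simp only [Submodule.coe_smul] at h1
  rw [h1, smul_unitClosedBall_of_nonneg hs.le, smul_eq_mul]
  have hi : 0 ≤ ∫ u in closedBall (0 : Pn n) (ε * r), g (y + (u : Sp d)) :=
    integral_nonneg fun _ => hg0 _
  have h2 : ((ε * r) ^ Module.finrank ℝ (Pn n))⁻¹ ≤ (2 / ε) ^ d := by
    rw [← inv_pow]
    have h3 : (ε * r)⁻¹ ≤ 2 / ε := by
      rw [inv_eq_one_div, div_le_div_iff₀ hs hε]
      nlinarith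
    have h4 : 1 ≤ 2 / ε := by
      rw [le_div_iff₀ hε]
      linarith
    calc ((ε * r)⁻¹) ^ Module.finrank ℝ (Pn n) ≤ (2 / ε) ^ Module.finrank ℝ (Pn n) :=
          pow_le_pow_left₀ (by positivity) h3 _
      _ ≤ (2 / ε) ^ d := pow_le_pow_right₀ h4 hk
  have h3 : ∫ u in closedBall (0 : Pn n) (ε * r), g (y + (u : Sp d))
      ≤ ∫ u in closedBall (0 : Pn n) (2 * ε), g (y + (u : Sp d)) := by
    refine setIntegral_mono_set ?_ ?_ ?_
    · have : Continuous fun u : Pn n => g (y + (u : Sp d)) := by fun_prop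
      exact this.continuousOn.integrableOn_compact (isCompact_closedBall _ _)
    · exact Eventually.of_forall fun _ => hg0 _
    · exact (closedBall_subset_closedBall (by nlinarith)).eventuallyLE
  calc _ ≤ (2 / ε) ^ d * ∫ u in closedBall (0 : Pn n) (ε * r), g (y + (u : Sp d)) :=
        mul_le_mul_of_nonneg_right h2 hi
    _ ≤ _ := mul_le_mul_of_nonneg_left h3 (by positivity)

lemma pos_of_Icc {r : ℝ} (hr : r ∈ Icc (1 / 2 : ℝ) 2) : 0 < r := by
  have := hr.1
  linarith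

/-- the energy is controlled by the disc average -/
lemma energy_le {C : ℝ} {V : ℝ → Sp d → ℝ} (hV : VOK C V) {n : Sp d} (hn : ‖n‖ = 1) {ε : ℝ}
    (hε : 0 < ε) (hε1 : ε ≤ 1) {β : Sp d → ℝ} (hβ : KC 0 β) (hβ0 : ∀ z, 0 ≤ β z) (y : Sp d) :
    ∫ p in Q2 d, tau 1 p.1 * (disc n β p.2 * HH V n ε p.1 p.2 (y + (ε * p.1) • p.2))
      ≤ (2 / ε) ^ d * discR n (2 * ε) (XT V β n ε) y := by
  have hc : Continuous β := hβ.smooth.continuous
  have hκ := disc_cont n hc
  have hcont : ContinuousOn (fun p : ℝ × Sp d =>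
      tau 1 p.1 * (disc n β p.2 * HH V n ε p.1 p.2 (y + (ε * p.1) • p.2))) (Q2 d) := by
    have h2 : ContinuousOn (fun q : ℝ × Sp d => HH V n ε q.1 q.2 (y + (ε * q.1) • q.2)) (Q2 d) :=
      HH_comp hV hn ε (by fun_prop) (by fun_prop) (by fun_prop) fun q hq => pos_of_Icc hq.1
    exact (continuous_tau.comp continuous_fst).continuousOn.mul
      ((hκ.comp continuous_snd).continuousOn.mul h2)
  have hint : IntegrableOn (fun p : ℝ × Sp d =>
      tau 1 p.1 * (disc n β p.2 * HH V n ε p.1 p.2 (y + (ε * p.1) • p.2)))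
      (Icc (1 / 2 : ℝ) 2 ×ˢ closedBall 0 2) ((volume : Measure ℝ).prod volume) :=
    hcont.integrableOn_compact isCompact_Q2
  have hcont2 : ContinuousOn (fun p : ℝ × Pn n => tau 1 p.1 * gg V β n ε p.1 (y + (p.2 : Sp d)))
      (Icc (1 / 2 : ℝ) 2 ×ˢ closedBall (0 : Pn n) (2 * ε)) := by
    have h2 : ContinuousOn (fun p : ℝ × Pn n => gg V β n ε p.1 (y + (p.2 : Sp d)))
        (Icc (1 / 2 : ℝ) 2 ×ˢ closedBall (0 : Pn n) (2 * ε)) :=
      gg_comp hV hn ε hβ (by fun_prop) (by fun_prop) fun q hq => pos_of_Icc hq.1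
    exact (continuous_tau.comp continuous_fst).continuousOn.mul h2
  have hint2 : IntegrableOn (fun p : ℝ × Pn n => tau 1 p.1 * gg V β n ε p.1 (y + (p.2 : Sp d)))
      (Icc (1 / 2 : ℝ) 2 ×ˢ closedBall (0 : Pn n) (2 * ε)) ((volume : Measure ℝ).prod volume) :=
    hcont2.integrableOn_compact (isCompact_Icc.prod (isCompact_closedBall _ _))
  have e1 : ∫ p in Q2 d, tau 1 p.1 * (disc n β p.2 * HH V n ε p.1 p.2 (y + (ε * p.1) • p.2))
      = ∫ r in Icc (1 / 2 : ℝ) 2, ∫ z in closedBall (0 : Sp d) 2,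
        tau 1 r * (disc n β z * HH V n ε r z (y + (ε * r) • z)) := by
    unfold Q2
    rw [Measure.volume_eq_prod, setIntegral_prod _ hint]
  have e2 : discR n (2 * ε) (XT V β n ε) y
      = ∫ r in Icc (1 / 2 : ℝ) 2, ∫ u in closedBall (0 : Pn n) (2 * ε),
        tau 1 r * gg V β n ε r (y + (u : Sp d)) := by
    have h3 : Integrable (Function.uncurry fun (r : ℝ) (u : Pn n) =>
        tau 1 r * gg V β n ε r (y + (u : Sp d))) ((volume.restrict (Icc (1 / 2 : ℝ) 2)).prod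
        (volume.restrict (closedBall (0 : Pn n) (2 * ε)))) := by
      rw [Measure.prod_restrict]
      exact hint2
    rw [integral_integral_swap h3]
    unfold discR XT
    refine integral_congr_ae (Eventually.of_forall fun u => ?_)
    simp only
    rw [intervalIntegral.integral_of_le (by norm_num), integral_Icc_eq_integral_Ioc]
  rw [e1, e2, ← integral_const_mul]
  have i1 : Integrable (fun r => ∫ z in closedBall (0 : Sp d) 2,
        tau 1 r * (disc n β z * HH V n ε r z (y + (ε * r) • z)))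
        (volume.restrict (Icc (1 / 2 : ℝ) 2)) := by
    rw [IntegrableOn, ← Measure.prod_restrict] at hint
    exact hint.integral_prod_left
  have i2 : Integrable (fun r => ∫ u in closedBall (0 : Pn n) (2 * ε),
        tau 1 r * gg V β n ε r (y + (u : Sp d)))
        (volume.restrict (Icc (1 / 2 : ℝ) 2)) := by
    rw [IntegrableOn, ← Measure.prod_restrict] at hint2
    exact hint2.integral_prod_left
  refine integral_mono_ae i1 (i2.const_mul _) ?_
  refine (ae_restrict_iff' measurableSet_Icc).2 (Eventually.of_forall fun r hr => ?_)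
  have hr0 := pos_of_Icc hr
  show ∫ z in closedBall (0 : Sp d) 2, tau 1 r * (disc n β z * HH V n ε r z (y + (ε * r) • z))
    ≤ (2 / ε) ^ d * ∫ u in closedBall (0 : Pn n) (2 * ε), tau 1 r * gg V β n ε r (y + (u : Sp d))
  rw [integral_const_mul, integral_const_mul]
  have e3 : ∫ z in closedBall (0 : Sp d) 2, disc n β z * HH V n ε r z (y + (ε * r) • z)
      = ∫ z, disc n β z * HH V n ε r z (y + (ε * r) • z) := by
    refine setIntegral_eq_integral_of_forall_compl_eq_zero fun z hz => ?_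
    rw [mem_closedBall_zero_iff, not_le] at hz
    rw [disc_supp n hβ.supp hz, zero_mul]
  have hg : Continuous fun x => gg V β n ε r x := by
    rw [← continuousOn_univ]
    exact gg_comp hV hn ε hβ continuousOn_const continuousOn_id fun x _ => hr0
  rw [e3, disc_gg hV hn ε hβ hr0 y]
  have h4 := disc_scale (n := n) hε hε1 hr.1 hr.2 hg (fun x => gg_nonneg hV n ε hβ0 hr0 x) y
  have h5 := mul_le_mul_of_nonneg_left h4 (tau_nonneg r)
  linarith

lemma sq_le_of_forall {X A B : ℝ} (hX : 0 ≤ X) (hA : 0 ≤ A) (hB : 0 ≤ B)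
    (h : ∀ l : ℝ, 0 < l → 2 * X ≤ l * A + B / l) : X ^ 2 ≤ A * B := by
  rcases hX.eq_or_lt with h0 | h0
  · rw [← h0]
    simpa using mul_nonneg hA hB
  rcases hA.eq_or_lt with h1 | h1
  · exfalso
    have h2 := h ((B + 1) / X) (by positivity)
    rw [← h1, mul_zero, zero_add, div_div_eq_mul_div] at h2
    rw [le_div_iff₀ (by positivity)] at h2
    nlinarith
  · have h2 := h (X / A) (by positivity)
    rw [div_mul_cancel₀ X h1.ne', div_div_eq_mul_div] at h2
    have h3 : X ≤ B * A / X := by linarith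
    rw [le_div_iff₀ h0] at h3
    nlinarith

/-- the volume of the domain of integration -/
def vQ (d : ℕ) : ℝ := ∫ _ in Q2 d, (1 : ℝ)

lemma vQ_nonneg : 0 ≤ vQ d := integral_nonneg fun _ => zero_le_one

/-- the Cauchy-Schwarz inequality with disc averages -/
lemma e1 {C : ℝ} {V : ℝ → Sp d → ℝ} (hV : VOK C V) {n : Sp d} (hn : ‖n‖ = 1) {ε : ℝ}
    (hε : 0 < ε) (hε1 : ε ≤ 1) {β : Sp d → ℝ} (hβ : KC 0 β) (hβ0 : ∀ z, 0 ≤ β z)
    {Ψ : ℝ → Sp d → Sp d → G} {m : ℕ} (hΨ : Reg m Ψ) {P : ℝ} (hP : 0 ≤ P) (y : Sp d)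
    (hb : ∀ r z, 1 / 2 ≤ r → r ≤ 2 → ‖z‖ ≤ 1 → ‖Ψ r z (y + (ε * r) • z)‖
      ≤ P * Real.sqrt (disc n β z * QH V n ε r z (y + (ε * r) • z))) :
    ‖II ε Ψ y‖ ^ 2 ≤ P ^ 2 * ((C * vQ d * (2 / ε) ^ d) * V 1 y
      * discR n (2 * ε) (XT V β n ε) y) := by
  have hc : Continuous β := hβ.smooth.continuous
  have hκ := disc_cont n hc
  have hV1 : 0 < V 1 y := hV.pos 1 y one_pos
  have hC0 : 0 ≤ C := by
    have h1 := hV.comp 1 y y (by norm_num) (by norm_num) (by simp)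
    nlinarith
  have hcontH : ContinuousOn (fun p : ℝ × Sp d =>
      tau 1 p.1 * (disc n β p.2 * HH V n ε p.1 p.2 (y + (ε * p.1) • p.2))) (Q2 d) := by
    have h2 : ContinuousOn (fun q : ℝ × Sp d => HH V n ε q.1 q.2 (y + (ε * q.1) • q.2)) (Q2 d) :=
      HH_comp hV hn ε (by fun_prop) (by fun_prop) (by fun_prop) fun q hq => pos_of_Icc hq.1
    exact (continuous_tau.comp continuous_fst).continuousOn.mul
      ((hκ.comp continuous_snd).continuousOn.mul h2)
  have hcontV : ContinuousOn (fun p : ℝ × Sp d =>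
      tau 1 p.1 * V p.1 (y + (ε * p.1) • p.2)) (Q2 d) := by
    have h2 : ContinuousOn (fun q : ℝ × Sp d => V q.1 (y + (ε * q.1) • q.2)) (Q2 d) :=
      hV.sf.comp_cont (by fun_prop) (by fun_prop) fun q hq => pos_of_Icc hq.1
    exact (continuous_tau.comp continuous_fst).continuousOn.mul h2
  have iH := hcontH.integrableOn_compact (μ := volume) isCompact_Q2
  have iV := hcontV.integrableOn_compact (μ := volume) isCompact_Q2
  set A := ∫ p in Q2 d, tau 1 p.1 * V p.1 (y + (ε * p.1) • p.2) with hA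
  set B := ∫ p in Q2 d, tau 1 p.1 * (disc n β p.2 * HH V n ε p.1 p.2 (y + (ε * p.1) • p.2))
    with hB
  have hA1 : A ≤ C * V 1 y * vQ d := by
    rw [hA, vQ, ← integral_const_mul]
    refine setIntegral_mono_on iV ?_ measurableSet_Q2 fun p hp => ?_
    · exact (continuous_const.continuousOn).integrableOn_compact isCompact_Q2
    · have hp0 := pos_of_Icc hp.1
      have h3 : ‖(ε * p.1) • p.2‖ ≤ 4 := by
        rw [norm_smul, Real.norm_eq_abs, abs_of_pos (by positivity)]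
        have h4 : ‖p.2‖ ≤ 2 := by
          have := hp.2
          rwa [mem_closedBall_zero_iff] at this
        have h5 : ε * p.1 ≤ 2 := by
          have := hp.1.2
          nlinarith
        have h6 : 0 ≤ ε * p.1 := by positivity
        nlinarith [norm_nonneg p.2]
      have h4 := hV.comp p.1 (y + (ε * p.1) • p.2) y hp.1.1 hp.1.2 (by
        rw [add_sub_cancel_left]
        exact h3)
      have h5 := hV.pos p.1 (y + (ε * p.1) • p.2) hp0
      have h6 := tau_le p.1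
      have h7 := tau_nonneg p.1
      rw [mul_one]
      nlinarith
  have hA0 : 0 ≤ A := setIntegral_nonneg measurableSet_Q2 fun p hp =>
    mul_nonneg (tau_nonneg _) (hV.pos _ _ (pos_of_Icc hp.1)).le
  have hB0 : 0 ≤ B := setIntegral_nonneg measurableSet_Q2 fun p hp =>
    mul_nonneg (tau_nonneg _) (mul_nonneg (disc_nonneg n hβ0 _)
      (HH_nonneg hV n ε (pos_of_Icc hp.1) _ _))
  have hB1 := energy_le hV hn hε hε1 hβ hβ0 y
  rw [← hB] at hB1
  have key : ∀ l : ℝ, 0 < l → 2 * ‖II ε Ψ y‖ ≤ l * (P * A) + P * B / l := by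
    intro l hl
    have h1 : ‖II ε Ψ y‖ ≤ ∫ p in Q2 d, ‖tau 1 p.1 • Ψ p.1 p.2 (y + (ε * p.1) • p.2)‖ :=
      norm_integral_le_integral_norm _
    have h2 : (∫ p in Q2 d, ‖tau 1 p.1 • Ψ p.1 p.2 (y + (ε * p.1) • p.2)‖)
        ≤ ∫ p in Q2 d, ((l * P / 2) * (tau 1 p.1 * V p.1 (y + (ε * p.1) • p.2))
          + (P / l / 2) * (tau 1 p.1 *
            (disc n β p.2 * HH V n ε p.1 p.2 (y + (ε * p.1) • p.2)))) := by
      refine setIntegral_mono_on (hΨ.integrableOn ε y).norm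
        ((iV.const_mul _).add (iH.const_mul _)) measurableSet_Q2 fun p hp => ?_
      have hp0 := pos_of_Icc hp.1
      have hv := hV.pos p.1 (y + (ε * p.1) • p.2) hp0
      have hh := HH_nonneg hV n ε hp0 p.2 (y + (ε * p.1) • p.2)
      have hk := disc_nonneg n hβ0 p.2
      have ht := tau_nonneg p.1
      have hrhs : 0 ≤ (l * P / 2) * (tau 1 p.1 * V p.1 (y + (ε * p.1) • p.2))
          + (P / l / 2) * (tau 1 p.1 *
            (disc n β p.2 * HH V n ε p.1 p.2 (y + (ε * p.1) • p.2))) := by positivity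
      by_cases hz : 1 < ‖p.2‖
      · rw [hΨ.supp _ _ _ hz, smul_zero, norm_zero]
        exact hrhs
      · rw [not_lt] at hz
        have h3 := hb p.1 p.2 hp.1.1 hp.1.2 hz
        rw [norm_smul, Real.norm_eq_abs, abs_of_nonneg ht]
        have hq := QH_nonneg V n ε p.1 p.2 (y + (ε * p.1) • p.2)
        have e3 : disc n β p.2 * QH V n ε p.1 p.2 (y + (ε * p.1) • p.2)
            = V p.1 (y + (ε * p.1) • p.2)
              * (disc n β p.2 * HH V n ε p.1 p.2 (y + (ε * p.1) • p.2)) := by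
          unfold HH
          field_simp
        rw [e3] at h3
        set a := V p.1 (y + (ε * p.1) • p.2) with ha
        set b := disc n β p.2 * HH V n ε p.1 p.2 (y + (ε * p.1) • p.2) with hb'
        have hb0 : 0 ≤ b := mul_nonneg hk hh
        have h4 : Real.sqrt (a * b) ≤ (l * a + b / l) / 2 := by
          rw [Real.sqrt_le_left (by positivity)]
          have : (l * a - b / l) ^ 2 = ((l * a + b / l)) ^ 2 - 4 * (a * b) := by
            field_simp
            ring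
          nlinarith [sq_nonneg (l * a - b / l)]
        calc tau 1 p.1 * ‖Ψ p.1 p.2 (y + (ε * p.1) • p.2)‖
            ≤ tau 1 p.1 * (P * ((l * a + b / l) / 2)) :=
              mul_le_mul_of_nonneg_left (h3.trans (mul_le_mul_of_nonneg_left h4 hP)) ht
          _ = _ := by ring
    rw [integral_add (iV.const_mul _) (iH.const_mul _), integral_const_mul, integral_const_mul,
      ← hA, ← hB] at h2
    have h3 : (l * P / 2) * A + (P / l / 2) * B = (l * (P * A) + P * B / l) / 2 := by ring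
    rw [h3] at h2
    linarith
  have h1 := sq_le_of_forall (norm_nonneg _) (mul_nonneg hP hA0) (mul_nonneg hP hB0) key
  have h2 : A * B ≤ (C * V 1 y * vQ d) * ((2 / ε) ^ d * discR n (2 * ε) (XT V β n ε) y) :=
    mul_le_mul hA1 hB1 hB0 (hA0.trans hA1)
  calc ‖II ε Ψ y‖ ^ 2 ≤ P * A * (P * B) := h1
    _ = P ^ 2 * (A * B) := by ring
    _ ≤ P ^ 2 * ((C * V 1 y * vQ d) * ((2 / ε) ^ d * discR n (2 * ε) (XT V β n ε) y)) :=
        mul_le_mul_of_nonneg_left h2 (sq_nonneg P)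
    _ = _ := by ring

/-! ### The relation to X1 + X3 -/

lemma tav_eq_II {ε : ℝ} {Ψ : ℝ → Sp d → Sp d → ℝ} {m : ℕ} (h : Reg m Ψ) (y : Sp d) :
    tav (fun r y => ∫ z, Ψ r z (y + (ε * r) • z)) 1 y = II ε Ψ y := by
  rw [II_iter h]
  unfold tav
  rw [mul_one]
  rfl

lemma Reg.h1 {C : ℝ} {V : ℝ → Sp d → ℝ} (hV : VOK C V) {β : Sp d → ℝ} {m : ℕ}
    (hβ : KC m β) {n : Sp d} (hn : ‖n‖ = 1) :
    Reg m (fun r z x => β z * (TT V n r x / V r x)) :=
  ⟨hβ.lift.mul (((hV.sf.TT hn).lift m).div (hV.sf.lift m) fun p hp => (hV.pos p.1 p.2.2 hp).ne'),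
    fun r z x hz => by rw [hβ.supp z hz, zero_mul]⟩

lemma Reg.h3 {C : ℝ} {V : ℝ → Sp d → ℝ} (hV : VOK C V) {β : Sp d → ℝ} {m : ℕ}
    (hβ : KC m β) (n : Sp d) (ε : ℝ) :
    Reg m (fun r z x => β z * ((pT V r x + ε * ⟪n, z⟫_ℝ * pX V n r x) ^ 2 / V r x)) := by
  have h1 : ContDiffOn ℝ m (fun p : ℝ × Sp d × Sp d => ε * ⟪n, p.2.1⟫_ℝ) (Om d) :=
    (contDiff_const.mul (((innerSL ℝ n).contDiff).comp
      (contDiff_fst.comp contDiff_snd))).contDiffOn
  exact ⟨hβ.lift.mul ((((hV.sf.pT.lift m).add (h1.mul ((hV.sf.pX n).lift m))).pow 2).div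
    (hV.sf.lift m) fun p hp => (hV.pos p.1 p.2.2 hp).ne'),
    fun r z x hz => by rw [hβ.supp z hz, zero_mul]⟩

lemma XT_eq_II {C ε : ℝ} {V : ℝ → Sp d → ℝ} (hV : VOK C V) {β : Sp d → ℝ} (hβ : KC 0 β)
    {n : Sp d} (hn : ‖n‖ = 1) : XT V β n ε = II ε (fun r z x => β z * HH V n ε r z x) := by
  funext y
  rw [II_iter (Reg.bH hV hn ε hβ)]
  rfl

lemma X13_eq {C ε : ℝ} {μ : Measure (Sp d)} (hV : VOK C (vv μ)) {β : Sp d → ℝ} (hβ : KC 0 β)
    {n : Sp d} (hn : ‖n‖ = 1) : X13 β ε μ n 1 = XT (vv μ) β n ε := by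
  rw [XT_eq_II hV hβ hn]
  funext y
  have h1 := Reg.h1 hV hβ hn
  have h3 := Reg.h3 hV hβ n ε
  have e1 : tav (X1 β ε μ n) 1 y
      = II ε (fun r z x => β z * (TT (vv μ) n r x / vv μ r x)) y := by
    rw [← tav_eq_II h1]
    rfl
  have e3 : tav (X3 β ε μ n) 1 y
      = II ε (fun r z x => β z * ((pT (vv μ) r x + ε * ⟪n, z⟫_ℝ * pX (vv μ) n r x) ^ 2
        / vv μ r x)) y := by
    rw [← tav_eq_II h3]
    unfold tav X3
    simp only [inner_grad]
    simp only [real_inner_comm n]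
    rfl
  unfold X13
  rw [e1, e3, ← II_add h1 h3]
  refine II_congr ε (fun r z x _ => ?_) y
  unfold HH QH
  ring

end WBT

end

end TG
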