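import Pool.Agent.TG.FA2
import Pool.Agent.TG.TT
import Pool.Agent.TG.WBE

/-!
# MODULE FA, part 3: derivatives of v in the far region (MP_287c87_an, helper51)
-/

open MeasureTheory Metric Set Filter Topology TrI
open scoped InnerProductSpace ContDiff

namespace TG

noncomputable section

namespace FAm

open THm WBT

variable {d : ℕ}

/-- the square root of the height, extended smoothly -/
def sq0 (d : ℕ) (p : ℝ × Sp d) : ℝ := giRho p.1 * Real.sqrt p.1

lemma sq0_smooth : ContDiff ℝ ∞ (sq0 d) := by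
  refine gi_ext (v := fun p : ℝ × Sp d => Real.sqrt p.1) ?_
  intro p hp
  have hp' : 0 < p.1 := hp
  exact ((contDiffAt_fst (𝕜 := ℝ) (n := ∞)).sqrt hp'.ne').contDiffWithinAt

lemma sq0_bd (d j : ℕ) : ∃ B : ℝ, 0 ≤ B ∧ ∀ l ≤ j, ∀ p : ℝ × Sp d, 1 / 2 ≤ p.1 → p.1 ≤ 2 →
    ‖iteratedFDeriv ℝ l (sq0 d) p‖ ≤ B := by
  have h0 : ∀ (c : Sp d) (p : ℝ × Sp d), sq0 d (p + (0, c)) = sq0 d p := by
    intro c p
    simp [sq0]
  have h1 : ∀ l : ℕ, ∀ p : ℝ × Sp d, iteratedFDeriv ℝ l (sq0 d) p =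
      iteratedFDeriv ℝ l (sq0 d) (p.1, 0) := by
    intro l p
    have h2 := iteratedFDeriv_comp_add_right (𝕜 := ℝ) (f := sq0 d) l (0, p.2) (p.1, 0)
    have h3 : (fun z => sq0 d (z + (0, p.2))) = sq0 d := funext fun z => h0 p.2 z
    rw [h3] at h2
    rw [h2]
    simp
  have h2 : ∀ l : ℕ, ∃ B : ℝ, 0 ≤ B ∧ ∀ p : ℝ × Sp d, 1 / 2 ≤ p.1 → p.1 ≤ 2 →
      ‖iteratedFDeriv ℝ l (sq0 d) p‖ ≤ B := by
    intro l
    have hc : Continuous fun t : ℝ => iteratedFDeriv ℝ l (sq0 d) (t, 0) :=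
      (sq0_smooth.continuous_iteratedFDeriv (by exact_mod_cast le_top)).comp (by fun_prop)
    obtain ⟨B, hB⟩ := isCompact_Icc.exists_bound_of_continuousOn (s := Icc (1 / 2 : ℝ) 2)
      hc.continuousOn
    refine ⟨max B 0, le_max_right _ _, fun p hp1 hp2 => ?_⟩
    rw [h1]
    exact (hB p.1 ⟨hp1, hp2⟩).trans (le_max_left _ _)
  choose B hB0 hB using h2
  refine ⟨∑ l ∈ Finset.range (j + 1), B l, Finset.sum_nonneg fun l _ => hB0 l,
    fun l hl p hp1 hp2 => (hB l p hp1 hp2).trans ?_⟩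
  exact Finset.single_le_sum (fun l _ => hB0 l) (Finset.mem_range.2 (by omega))

/-- the size of v nearby -/
lemma vv_size {C : ℝ} (hC : 0 < C) {μ : Measure (Sp d)}
    (hpos : ∀ (t : ℝ) (x : Sp d), 0 < t → 0 < th μ t x ∧ th μ t x ≤ C)
    (hharn : ∀ (t : ℝ) (x x' : Sp d), 0 < t → th μ t x' ≤ (1 + ‖x - x'‖ / t) ^ d * th μ t x)
    (htime : ∀ (s t : ℝ) (x : Sp d), 0 < t → t / 8 ≤ s → s ≤ 8 * t → th μ s x ≤ C * th μ t x)
    {t : ℝ} (h1 : 1 / 2 ≤ t) (h2 : t ≤ 2) {x y : Sp d} (h3 : ‖x - y‖ ≤ 2) :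
    vv μ t x ≤ Real.sqrt (5 ^ d * C) * vv μ 1 y := by
  have hp0 : 0 < t := by linarith
  have h4 := hharn t y x hp0
  have h5 : (1 + ‖y - x‖ / t) ^ d ≤ 5 ^ d := by
    refine pow_le_pow_left₀ (by positivity) ?_ d
    have h6 : ‖y - x‖ / t ≤ 4 := by
      rw [div_le_iff₀ hp0, norm_sub_rev]
      linarith
    linarith
  have h7 := htime t 1 y one_pos (by linarith) (by linarith)
  have h8 := (hpos t y hp0).1.le
  have h9 : th μ t x ≤ 5 ^ d * C * th μ 1 y := by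
    calc th μ t x ≤ (1 + ‖y - x‖ / t) ^ d * th μ t y := h4
      _ ≤ 5 ^ d * th μ t y := mul_le_mul_of_nonneg_right h5 h8
      _ ≤ 5 ^ d * (C * th μ 1 y) := mul_le_mul_of_nonneg_left h7 (by positivity)
      _ = _ := by ring
  unfold vv
  rw [← Real.sqrt_mul (by positivity)]
  exact Real.sqrt_le_sqrt h9

/-- small deviations from the far profile give small derivatives of the deviation -/
lemma far_deriv (h : StmtTH) (hd : 2 ≤ d) {C' : ℝ} (hC' : 0 < C') {η : ℝ} (hη : 0 < η) :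
    ∃ δ : ℝ, 0 < δ ∧ ∀ μ : Measure (Sp d), Gro C' μ → ∀ y : Sp d,
      (∀ (t : ℝ) (x : Sp d), 1 / 2 ≤ t → t ≤ 2 → ‖x - y‖ ≤ 2 →
        |vv μ t x - Real.sqrt t * vv μ 1 y| ≤ δ * vv μ 1 y) →
      ∀ (t : ℝ) (x : Sp d), 1 / 2 ≤ t → t ≤ 2 → ‖x - y‖ ≤ 1 →
        ‖gradient (vv μ t) x‖ ≤ η * vv μ 1 y ∧
        |pT (vv μ) t x - 1 / (2 * Real.sqrt t) * vv μ 1 y| ≤ η * vv μ 1 y := by
  obtain ⟨C, hC, hTH⟩ := h d 2 hd C' hC'
  obtain ⟨B, hB0, hB⟩ := sq0_bd d 2
  set A : ℝ := C * 2 ^ 2 * Real.sqrt (5 ^ d * C) + B + 1 with hA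
  have hA0 : 0 < A := by positivity
  obtain ⟨i0, hi0, hint⟩ := tt_interp (d := d) (G := ℝ) 1 A η hA0 hη
  refine ⟨i0, hi0, fun μ hμ y hsm t x ht ht2 hxy => ?_⟩
  obtain ⟨hpos, hv, hbd, hharn, htime⟩ := hTH μ hμ
  have hf := gi_ext hv
  set S := vv μ 1 y with hSd
  have hS : 0 ≤ S := Real.sqrt_nonneg _
  set f : ℝ × Sp d → ℝ := fun p => giRho p.1 * vv μ p.1 p.2 with hfdef
  set g : ℝ × Sp d → ℝ := fun p => f p - S * sq0 d p with hgdef
  have hS0 : ContDiff ℝ ∞ (fun p => S * sq0 d p) := contDiff_const.mul sq0_smooth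
  have hg : ContDiff ℝ ∞ g := hf.sub hS0
  have v1 : ∀ t : ℝ, 1 / 4 ≤ t → ∀ x, vv μ t x = f (t, x) := by
    intro t ht x
    simp only [hfdef, giRho_one ht, one_mul]
  have s1 : ∀ t : ℝ, 1 / 4 ≤ t → ∀ x, Real.sqrt t = sq0 d (t, x) := by
    intro t ht x
    simp only [sq0, giRho_one ht, one_mul]
  have evf : ∀ p : ℝ × Sp d, 1 / 2 ≤ p.1 → (fun p : ℝ × Sp d => vv μ p.1 p.2) =ᶠ[𝓝 p] f := by
    intro p hp
    have ho : {q : ℝ × Sp d | 1 / 4 < q.1} ∈ 𝓝 p :=
      (isOpen_lt continuous_const continuous_fst).mem_nhds (show 1 / 4 < p.1 by linarith)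
    filter_upwards [ho] with q hq
    exact v1 q.1 (le_of_lt hq) q.2
  have evs : ∀ p : ℝ × Sp d, 1 / 2 ≤ p.1 → (fun p : ℝ × Sp d => Real.sqrt p.1) =ᶠ[𝓝 p] sq0 d := by
    intro p hp
    have ho : {q : ℝ × Sp d | 1 / 4 < q.1} ∈ 𝓝 p :=
      (isOpen_lt continuous_const continuous_fst).mem_nhds (show 1 / 4 < p.1 by linarith)
    filter_upwards [ho] with q hq
    exact s1 q.1 (le_of_lt hq) q.2
  -- bounds of the derivatives
  have gbd : ∀ l ≤ 2, ∀ p : ℝ × Sp d, 1 / 2 ≤ p.1 → p.1 ≤ 2 → ‖p.2 - y‖ ≤ 2 →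
      ‖iteratedFDeriv ℝ l g p‖ ≤ A * S := by
    intro l hl p h1 h2 h3
    have hp0 := vv_size hC hpos hharn htime h1 h2 h3
    rw [← hSd] at hp0
    have e1 : iteratedFDeriv ℝ l f p = iteratedFDeriv ℝ l
        (fun p : ℝ × Sp d => vv μ p.1 p.2) (p.1, p.2) :=
      (Filter.EventuallyEq.iteratedFDeriv ℝ (evf p h1) l).eq_of_nhds.symm
    have e2 : iteratedFDeriv ℝ l g p =
        iteratedFDeriv ℝ l f p - iteratedFDeriv ℝ l (fun p => S * sq0 d p) p :=
      fun_iteratedFDeriv_sub_apply (hf.contDiffAt.of_le (by exact_mod_cast le_top))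
        (hS0.contDiffAt.of_le (by exact_mod_cast le_top))
    have e3 : ‖iteratedFDeriv ℝ l (fun p => S * sq0 d p) p‖ ≤ S * B := by
      have h5 : (fun p => S * sq0 d p) = fun p => S • sq0 d p := rfl
      rw [h5, iteratedFDeriv_const_smul_apply'
        (sq0_smooth.contDiffAt.of_le (by exact_mod_cast le_top)), norm_smul, Real.norm_eq_abs,
        abs_of_nonneg hS]
      exact mul_le_mul_of_nonneg_left (hB l hl p h1 h2) hS
    have e4 : ‖iteratedFDeriv ℝ l f p‖ ≤ C * 2 ^ 2 * Real.sqrt (5 ^ d * C) * S := by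
      rw [e1]
      refine (hbd p.1 p.2 l (by linarith) hl).trans ?_
      have hv0 : 0 ≤ vv μ p.1 p.2 := Real.sqrt_nonneg _
      have h4 : C * vv μ p.1 p.2 / p.1 ^ l ≤ C * vv μ p.1 p.2 * 2 ^ 2 := by
        rw [div_eq_mul_inv]
        refine mul_le_mul_of_nonneg_left ?_ (by positivity)
        rw [← inv_pow]
        have h5 : p.1⁻¹ ≤ 2 := by
          have := inv_anti₀ (show (0 : ℝ) < 1 / 2 by norm_num) h1
          simpa using this
        exact (pow_le_pow_left₀ (inv_nonneg.mpr (by linarith)) h5 l).trans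
          (pow_le_pow_right₀ (by norm_num) hl)
      calc _ ≤ C * vv μ p.1 p.2 * 2 ^ 2 := h4
        _ ≤ C * (Real.sqrt (5 ^ d * C) * S) * 2 ^ 2 := by gcongr
        _ = _ := by ring
    rw [e2]
    refine (norm_sub_le _ _).trans ?_
    rw [hA]
    nlinarith
  -- the interpolation, centre x
  have hk := hint g x S hg hS (fun l hl p hp => by
      obtain ⟨⟨h1, h2⟩, h3⟩ := hp
      rw [mem_closedBall, dist_eq_norm] at h3
      refine gbd l hl p h1 h2 ?_
      have := norm_add_le (p.2 - x) (x - y)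
      rw [sub_add_sub_cancel] at this
      linarith)
    (fun p hp => by
      obtain ⟨⟨h1, h2⟩, h3⟩ := hp
      rw [mem_closedBall, dist_eq_norm] at h3
      have h4 : ‖p.2 - y‖ ≤ 2 := by
        have := norm_add_le (p.2 - x) (x - y)
        rw [sub_add_sub_cancel] at this
        linarith
      have h5 := hsm p.1 p.2 h1 h2 h4
      have e1 : g p = vv μ p.1 p.2 - Real.sqrt p.1 * S := by
        simp only [hgdef]
        rw [show f p = f (p.1, p.2) from rfl, ← v1 p.1 (by linarith) p.2,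
          show sq0 d p = sq0 d (p.1, p.2) from rfl, ← s1 p.1 (by linarith) p.2]
        ring
      rw [e1, Real.norm_eq_abs]
      exact h5) 1 le_rfl (t, x) ⟨⟨ht, ht2⟩, by
        rw [mem_closedBall, dist_self]
        positivity⟩
  rw [norm_iteratedFDeriv_one] at hk
  have hsf : SF (vv μ) := hv
  have ht0 : 0 < t := by linarith
  -- the derivative of g
  have hgd : fderiv ℝ g (t, x) = fderiv ℝ (fun p : ℝ × Sp d => vv μ p.1 p.2) (t, x) -
      S • fderiv ℝ (fun p : ℝ × Sp d => Real.sqrt p.1) (t, x) := by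
    rw [(evf (t, x) ht).fderiv_eq, (evs (t, x) ht).fderiv_eq]
    have h1 : DifferentiableAt ℝ f (t, x) := (hf.differentiable (by simp)) _
    have h2 : DifferentiableAt ℝ (sq0 d) (t, x) := (sq0_smooth.differentiable (by simp)) _
    have h3 : fderiv ℝ (fun p => S * sq0 d p) (t, x) = S • fderiv ℝ (sq0 d) (t, x) :=
      fderiv_const_mul h2 S
    rw [← h3]
    exact fderiv_fun_sub h1 (h2.const_mul S)
  have hsq : HasFDerivAt (fun p : ℝ × Sp d => Real.sqrt p.1)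
      ((1 / (2 * Real.sqrt t)) • ContinuousLinearMap.fst ℝ ℝ (Sp d)) (t, x) :=
    (hasFDerivAt_fst (𝕜 := ℝ) (p := (t, x))).sqrt ht0.ne'
  rw [hsq.fderiv] at hgd
  have hle : ∀ w : ℝ × Sp d, |fderiv ℝ g (t, x) w| ≤ η * S * ‖w‖ := by
    intro w
    have := (fderiv ℝ g (t, x)).le_opNorm w
    rw [Real.norm_eq_abs] at this
    exact this.trans (mul_le_mul_of_nonneg_right hk (norm_nonneg _))
  constructor
  · have h1 : ∀ e : Sp d, |⟪gradient (vv μ t) x, e⟫_ℝ| ≤ η * S * ‖e‖ := by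
      intro e
      rw [inner_grad]
      have h2 := hle (0, e)
      have h3 : fderiv ℝ g (t, x) (0, e) = fderiv ℝ (vv μ t) x e := by
        rw [hgd]
        have := hsf.pX_eq e ht0 x
        unfold pX at this
        rw [this]
        simp
      rw [h3] at h2
      have h4 : ‖((0 : ℝ), e)‖ = ‖e‖ := by
        rw [Prod.norm_def]
        simp
      rwa [h4] at h2
    have h2 := h1 (gradient (vv μ t) x)
    rw [real_inner_self_eq_norm_sq, abs_of_nonneg (sq_nonneg _)] at h2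
    by_cases h0 : ‖gradient (vv μ t) x‖ = 0
    · rw [h0]
      positivity
    · have h3 : 0 < ‖gradient (vv μ t) x‖ := lt_of_le_of_ne (norm_nonneg _) (Ne.symm h0)
      rw [pow_two] at h2
      exact le_of_mul_le_mul_right h2 h3
  · have h2 := hle (1, 0)
    have h3 : fderiv ℝ g (t, x) (1, 0) = pT (vv μ) t x - 1 / (2 * Real.sqrt t) * S := by
      rw [hgd, hsf.pT_eq ht0 x]
      simp
      ring
    rw [h3] at h2
    have h4 : ‖((1 : ℝ), (0 : Sp d))‖ = 1 := by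
      rw [Prod.norm_def]
      simp
    rwa [h4, mul_one] at h2

end FAm

end

end TG
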