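import Pool.Agent.TG.Stmts14

/-!
# The dictionary between cells and frames  (helper98)
-/

open MeasureTheory Metric Set TrI
open scoped InnerProductSpace ContDiff ENNReal

namespace TG

namespace FR

noncomputable section

set_option linter.unusedSectionVars false

variable {d : ℕ}

lemma lev_pos {s0 : ℝ} (h : 0 < s0) (i : ℕ) : 0 < lev s0 i := by
  unfold lev
  positivity

lemma lev_add (s0 : ℝ) (i r : ℕ) : lev s0 (i + r) = 2 ^ r * lev s0 i := by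
  unfold lev
  rw [pow_add]
  ring

lemma s0_div {s0 : ℝ} (h : 0 < s0) (i : ℕ) : s0 / lev s0 i = (1 / 2) ^ i := by
  unfold lev
  rw [div_pow, one_pow]
  field_simp

lemma lev_half (i r : ℕ) : lev ((1 / 2 : ℝ) ^ i) (i + r) = 2 ^ r := by
  unfold lev
  rw [pow_add, ← mul_assoc, ← mul_pow]
  norm_num

lemma up_fst (r : ℕ) (Q : Cell d) : (up r Q).1 = Q.1 + r := rfl

lemma up_zero (Q : Cell d) : up 0 Q = Q := by
  unfold up
  ext j
  · rfl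
  · simp

lemma up_up (r r' : ℕ) (Q : Cell d) : up r' (up r Q) = up (r + r') Q := by
  unfold up
  refine Prod.ext ?_ ?_
  · simp [add_assoc]
  · funext j
    simp only
    rw [pow_add, Int.ediv_ediv_of_nonneg (by positivity)]

/-- the frame point of a cell -/
lemma x_tw {s0 : ℝ} (h : 0 < s0) (Q P : Cell d) :
    xC s0 Q + lev s0 Q.1 • tw s0 Q P = xC s0 P := by
  unfold tw
  rw [smul_smul, mul_one_div_cancel (lev_pos h _).ne', one_smul]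
  abel

lemma tw_self (s0 : ℝ) (Q : Cell d) : tw s0 Q Q = 0 := by
  unfold tw
  simp

lemma tw_up_zero (s0 : ℝ) (Q : Cell d) : tw s0 Q (up 0 Q) = 0 := by
  rw [up_zero, tw_self]

/-- coordinates of the centre -/
lemma xC_apply (s0 : ℝ) (Q : Cell d) (j : Fin d) : xC s0 Q j = lev s0 Q.1 * (Q.2 j : ℝ) := by
  simp [xC, cen, lat]

/-- the norm of a vector with coordinates in [0,a] -/
lemma norm_le_sqrt {a : ℝ} (ha : 0 ≤ a) (w : Sp d) (h : ∀ j, |w j| ≤ a) : ‖w‖ ≤ Real.sqrt d * a := by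
  rw [EuclideanSpace.norm_eq]
  have h1 : ∑ j, ‖w j‖ ^ 2 ≤ (d : ℝ) * a ^ 2 := by
    calc ∑ j, ‖w j‖ ^ 2 ≤ ∑ _j : Fin d, a ^ 2 := by
          refine Finset.sum_le_sum fun j _ => ?_
          rw [Real.norm_eq_abs]
          exact pow_le_pow_left₀ (abs_nonneg _) (h j) 2
      _ = (d : ℝ) * a ^ 2 := by simp
  calc Real.sqrt (∑ j, ‖w j‖ ^ 2) ≤ Real.sqrt ((d : ℝ) * a ^ 2) := Real.sqrt_le_sqrt h1
    _ = Real.sqrt d * a := by
        rw [Real.sqrt_mul (Nat.cast_nonneg d), Real.sqrt_sq ha]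

/-- the centre of an ancestor, in terms of the centre of the cell, sharp -/
lemma xC_up' {s0 : ℝ} (h : 0 < s0) (r : ℕ) (Q : Cell d) :
    ‖xC s0 (up r Q) - xC s0 Q‖ ≤ Real.sqrt d * ((2 ^ r - 1) * lev s0 Q.1) := by
  have hl := lev_pos h Q.1
  have h1 : (1 : ℝ) ≤ 2 ^ r := one_le_pow₀ (by norm_num)
  refine norm_le_sqrt (mul_nonneg (by linarith) hl.le) _ fun j => ?_
  rw [PiLp.sub_apply, xC_apply, xC_apply, up_fst, lev_add]
  have h2 : (up r Q).2 j = Q.2 j / 2 ^ r := rfl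
  rw [h2]
  have hp : (0 : ℤ) < 2 ^ r := by positivity
  have h3 : ((Q.2 j : ℤ) : ℝ) = ((2 ^ r * (Q.2 j / 2 ^ r) + Q.2 j % 2 ^ r : ℤ) : ℝ) := by
    rw [Int.mul_ediv_add_emod]
  have h4 : (0 : ℝ) ≤ ((Q.2 j % 2 ^ r : ℤ) : ℝ) := by
    exact_mod_cast Int.emod_nonneg _ hp.ne'
  have h5 : ((Q.2 j % 2 ^ r : ℤ) : ℝ) ≤ 2 ^ r - 1 := by
    have := Int.le_sub_one_of_lt (Int.emod_lt_of_pos (Q.2 j) hp)
    exact_mod_cast this
  push_cast at h3
  rw [h3]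
  rw [show 2 ^ r * lev s0 Q.1 * (((Q.2 j / 2 ^ r : ℤ)) : ℝ) -
    lev s0 Q.1 * (2 ^ r * (((Q.2 j / 2 ^ r : ℤ)) : ℝ) + ((Q.2 j % 2 ^ r : ℤ) : ℝ)) =
    -(lev s0 Q.1 * ((Q.2 j % 2 ^ r : ℤ) : ℝ)) by ring, abs_neg, abs_of_nonneg (by positivity)]
  nlinarith

lemma xC_up {s0 : ℝ} (h : 0 < s0) (r : ℕ) (Q : Cell d) :
    ‖xC s0 (up r Q) - xC s0 Q‖ ≤ Real.sqrt d * lev s0 (Q.1 + r) := by
  refine (xC_up' h r Q).trans ?_
  rw [lev_add]
  have hl := lev_pos h Q.1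
  have := Real.sqrt_nonneg (d : ℝ)
  nlinarith

lemma norm_tw {s0 : ℝ} (h : 0 < s0) (Q P : Cell d) :
    ‖tw s0 Q P‖ = ‖xC s0 P - xC s0 Q‖ / lev s0 Q.1 := by
  unfold tw
  rw [norm_smul, Real.norm_of_nonneg (by have := lev_pos h Q.1; positivity)]
  ring

lemma norm_tw_up {s0 : ℝ} (h : 0 < s0) (r : ℕ) (Q : Cell d) :
    ‖tw s0 Q (up r Q)‖ ≤ Real.sqrt d * 2 ^ r := by
  rw [norm_tw h, div_le_iff₀ (lev_pos h _)]
  refine (xC_up h r Q).trans (le_of_eq ?_)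
  rw [lev_add]
  ring

lemma tower {s0 : ℝ} (h : 0 < s0) {E : Type} [NormedAddCommGroup E] [InnerProductSpace ℝ E]
    (e : Cell d → E) (he : ∀ Q, ‖e Q‖ = 1) (Q : Cell d) :
    Tower (fun r => tw s0 Q (up r Q)) (fun r => e (up r Q)) where
  zero := tw_up_zero s0 Q
  step := by
    intro r
    have hl := lev_pos h Q.1
    have h1 := xC_up' h 1 (up r Q)
    rw [up_up, up_fst, lev_add] at h1
    have h2 : tw s0 Q (up (r + 1) Q) - tw s0 Q (up r Q) =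
        (1 / lev s0 Q.1) • (xC s0 (up (r + 1) Q) - xC s0 (up r Q)) := by
      unfold tw
      rw [← smul_sub]
      congr 1
      abel
    rw [h2, norm_smul, Real.norm_of_nonneg (by positivity)]
    rw [one_div_mul_eq_div, div_le_iff₀ hl]
    refine h1.trans (le_of_eq ?_)
    ring
  unit := fun r => he _

/-! ## The functionals of the frame -/

section F

variable {E : Type} [NormedAddCommGroup E] [InnerProductSpace ℝ E] [FiniteDimensional ℝ E]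

lemma ma_frame (hSC : StmtSC) (hd : 2 ≤ d) {M c0 ε : ℝ} (hε : 0 < ε) (hε1 : ε ≤ 1)
    {b : Sp d → ℝ} (hb : BaseKer 2 M c0 b) {f : Sp d → E} (hf : Continuous f)
    (hc : HasCompactSupport f) {s0 : ℝ} (h : 0 < s0) (ρ : ℝ) (r : ℕ) (Q : Cell d) :
    ma b ε ρ ((1 / 2) ^ Q.1) (rs (xC s0 Q) (lev s0 Q.1) f) (Q.1 + r) (tw s0 Q (up r Q)) =
      mC b ε ρ s0 f (up r Q) := by
  have h1 := ((hSC d hd 1 one_pos (xC s0 Q) (lev s0 Q.1) (lev_pos h _)).2.1 E M c0 b hb ε hε hε1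
    f hf hc s0 h).2.2 ρ (Q.1 + r) (tw s0 Q (up r Q))
  rw [s0_div h, x_tw h] at h1
  exact h1

lemma DD_frame (hSC : StmtSC) (hd : 2 ≤ d) {M c0 ε : ℝ} (hε : 0 < ε) (hε1 : ε ≤ 1)
    {b : Sp d → ℝ} (hb : BaseKer 2 M c0 b) {f : Sp d → E} (hf : Continuous f)
    (hc : HasCompactSupport f) {s0 : ℝ} (h : 0 < s0) (R : ℝ) (r : ℕ) (Q : Cell d) (e : E) :
    DD b ε R ((1 / 2) ^ Q.1) (rs (xC s0 Q) (lev s0 Q.1) f) (Q.1 + r) (tw s0 Q (up r Q)) e =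
      DD b ε R s0 f (up r Q).1 (xC s0 (up r Q)) e := by
  have h1 := ((hSC d hd 1 one_pos (xC s0 Q) (lev s0 Q.1) (lev_pos h _)).2.1 E M c0 b hb ε hε hε1
    f hf hc s0 h).2.1 R (Q.1 + r) (tw s0 Q (up r Q)) e
  rw [s0_div h, x_tw h] at h1
  exact h1

lemma fl_frame (hSC : StmtSC) (hd : 2 ≤ d) {M c0 ε : ℝ} (hε : 0 < ε) (hε1 : ε ≤ 1)
    {b : Sp d → ℝ} (hb : BaseKer 2 M c0 b) {f : Sp d → E} (hf : Continuous f)
    (hc : HasCompactSupport f) {s0 : ℝ} (h : 0 < s0) (i : ℕ) (Q : Cell d) (y : Sp d) :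
    fl b ε ((1 / 2) ^ Q.1) (rs (xC s0 Q) (lev s0 Q.1) f) i y =
      lev s0 Q.1 • fl b ε s0 f i (xC s0 Q + lev s0 Q.1 • y) := by
  have h1 := ((hSC d hd 1 one_pos (xC s0 Q) (lev s0 Q.1) (lev_pos h _)).2.1 E M c0 b hb ε hε hε1
    f hf hc s0 h).1 i y
  rw [s0_div h] at h1
  exact h1

/-- the plane {⟨ν,·⟩ = c} in the frame of Q has the constant cfr -/
def cfr (s0 : ℝ) (Q : Cell d) (ν : Sp d) (c : ℝ) : ℝ := (c - ⟪ν, xC s0 Q⟫_ℝ) / lev s0 Q.1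

lemma ht_frame {s0 : ℝ} (h : 0 < s0) (Q : Cell d) (ν : Sp d) (c : ℝ) (y : Sp d) :
    ht ν (cfr s0 Q ν c) y = ht ν c (xC s0 Q + lev s0 Q.1 • y) / lev s0 Q.1 := by
  have hl := lev_pos h Q.1
  unfold ht cfr
  rw [inner_add_right, inner_smul_right]
  field_simp
  ring

lemma ht_frame_tw {s0 : ℝ} (h : 0 < s0) (Q P : Cell d) (ν : Sp d) (c : ℝ) :
    ht ν (cfr s0 Q ν c) (tw s0 Q P) = ht ν c (xC s0 P) / lev s0 Q.1 := by
  rw [ht_frame h, x_tw h]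

lemma bb_frame (hSD : StmtSD) (hd : 1 ≤ d) {f : Sp d → E} (hf : Continuous f)
    (hc : HasCompactSupport f) {s0 : ℝ} (h : 0 < s0) (ρ : ℝ) (r : ℕ) (Q : Cell d) (e : E)
    (ν : Sp d) (c : ℝ) :
    bb ρ ((1 / 2) ^ Q.1) (rs (xC s0 Q) (lev s0 Q.1) f) (Q.1 + r) (tw s0 Q (up r Q)) e ν
      (cfr s0 Q ν c) = bb ρ s0 f (up r Q).1 (xC s0 (up r Q)) e ν c := by
  have hl := lev_pos h Q.1
  have h1 := hSD.2 d E f hd hf hc (xC s0 Q) (lev s0 Q.1) hl ρ s0 (Q.1 + r)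
    (tw s0 Q (up r Q)) e ν (cfr s0 Q ν c) h
  rw [s0_div h, x_tw h] at h1
  rw [h1]
  congr 1
  unfold cfr
  field_simp
  ring

/-- bb at unit scale is the functional blc -/
lemma bb_unit (ρ : ℝ) (n : ℕ) (f : Sp d → E) (e : E) (ν : Sp d) (c : ℝ) :
    bb ρ ((1 / 2) ^ n) f n 0 e ν c = blc ν c (fun y => ⟪f y, e⟫_ℝ) ρ := by
  have h1 : lev ((1 / 2 : ℝ) ^ n) n = 1 := by
    have := lev_half n 0
    simpa using this
  unfold bb blc
  rw [h1]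
  simp [ht, hgt]

lemma mQ_eq (s0 : ℝ) (f : Sp d → E) (e : E) (Q : Cell d) :
    mQ s0 f e Q = fun y => ⟪rs (xC s0 Q) (lev s0 Q.1) f y, e⟫_ℝ := rfl

/-- the density in the frame of a cell of a higher level -/
lemma mQ_frame {s0 : ℝ} (h : 0 < s0) (f : Sp d → E) (e : E) (Q P : Cell d) (l : ℕ)
    (hP : P.1 = Q.1 + l) (y : Sp d) :
    mQ s0 f e P y = 2 ^ l * mQ s0 f e Q (tw s0 Q P + (2 : ℝ) ^ l • y) := by
  unfold mQ rs
  rw [hP, lev_add, smul_add, smul_smul, ← add_assoc, x_tw h, real_inner_smul_left,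
    real_inner_smul_left, mul_comm (lev s0 Q.1) (2 ^ l)]
  ring

lemma mQ_frame_up {s0 : ℝ} (h : 0 < s0) (f : Sp d → E) (e : E) (Q : Cell d) (l : ℕ) :
    mQ s0 f e (up l Q) = fun y => 2 ^ l * mQ s0 f e Q (tw s0 Q (up l Q) + (2 : ℝ) ^ l • y) := by
  funext y
  exact mQ_frame h f e Q (up l Q) l rfl y

lemma rs_cont {f : Sp d → E} (hf : Continuous f) (x : Sp d) (t : ℝ) : Continuous (rs x t f) := by
  unfold rs
  fun_prop

lemma rs_cs {f : Sp d → E} (hc : HasCompactSupport f) (x : Sp d) {t : ℝ} (ht : 0 < t) :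
    HasCompactSupport (rs x t f) := by
  have h1 : HasCompactSupport (fun y => f (x + t • y)) := by
    have := (Homeomorph.addLeft x).symm
    exact hc.comp_homeomorph ((Homeomorph.smulOfNeZero t ht.ne').trans (Homeomorph.addLeft x))
  exact h1.smul_left (f := fun _ => t)

lemma mQ_cont {f : Sp d → E} (hf : Continuous f) (s0 : ℝ) (e : E) (Q : Cell d) :
    Continuous (mQ s0 f e Q) := by
  unfold mQ
  exact (rs_cont hf _ _).inner continuous_const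

end F

section U

variable {V E : Type} [NormedAddCommGroup V] [InnerProductSpace ℝ V] [FiniteDimensional ℝ V]
    [NormedAddCommGroup E] [InnerProductSpace ℝ E] [FiniteDimensional ℝ E]

/-- the rescaled test function -/
def uQ (s0 : ℝ) (u : Sp d → V) (Q : Cell d) : Sp d → V :=
  fun y => u (xC s0 Q + lev s0 Q.1 • y)

lemma uQ_TF (hSC : StmtSC) (hd : 2 ≤ d) (L : (Sp d →L[ℝ] V) →L[ℝ] E) {u : Sp d → V} (hu : TF u)
    {s0 : ℝ} (h : 0 < s0) (Q : Cell d) : TF (uQ s0 u Q) :=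
  ((hSC d hd 1 one_pos (xC s0 Q) (lev s0 Q.1) (lev_pos h _)).2.2 V E L u hu).1

lemma fo_uQ (hSC : StmtSC) (hd : 2 ≤ d) (L : (Sp d →L[ℝ] V) →L[ℝ] E) {u : Sp d → V} (hu : TF u)
    {s0 : ℝ} (h : 0 < s0) (Q : Cell d) :
    fo L (uQ s0 u Q) = rs (xC s0 Q) (lev s0 Q.1) (fo L u) :=
  ((hSC d hd 1 one_pos (xC s0 Q) (lev s0 Q.1) (lev_pos h _)).2.2 V E L u hu).2

end U

end

end FR

end TG
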