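import Pool.Agent.TG.StmtsFin
import Pool.Agent.TG.FR0
import Pool.Agent.TG.CT6
import Pool.Agent.TG.PTa
import Pool.Agent.TG.TH

/-!
# Module FF: finiteness of the sums of b and Y  (helper53)
-/

open MeasureTheory Metric Set TrI
open scoped InnerProductSpace ContDiff ENNReal

namespace TG

namespace FFm

noncomputable section

variable {d : ℕ}

lemma lev_pos {s0 : ℝ} (h : 0 < s0) (i : ℕ) : 0 < lev s0 i := by
  unfold lev; positivity

/-- height of a point over the plane, from the height of the centre -/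
lemma ht_abs {ν : Sp d} (hν : ‖ν‖ = 1) (c : ℝ) (x y : Sp d) :
    |ht ν c y| ≤ |ht ν c x| + ‖y - x‖ := by
  have h1 : ht ν c y = ht ν c x + ⟪ν, y - x⟫_ℝ := by
    unfold ht
    rw [inner_sub_right]
    ring
  have h2 : |⟪ν, y - x⟫_ℝ| ≤ ‖y - x‖ := by
    have := abs_real_inner_le_norm ν (y - x)
    rwa [hν, one_mul] at this
  rw [h1]
  exact (abs_add_le _ _).trans (by linarith)

section B

variable {E : Type} [NormedAddCommGroup E] [InnerProductSpace ℝ E]

lemma zR_arg {s0 : ℝ} (h : 0 < s0) (i : ℕ) {R0 : ℝ} {x y : Sp d}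
    (hz : (R0 + 1) * lev s0 i ≤ ‖y - x‖) : zR R0 ((1 / lev s0 i) • (y - x)) = 0 := by
  have hl := lev_pos h i
  unfold zR
  refine Real.smoothTransition.zero_of_nonpos ?_
  rw [norm_smul, Real.norm_of_nonneg (by positivity)]
  have h1 : R0 + 1 ≤ 1 / lev s0 i * ‖y - x‖ := by
    rw [one_div, inv_mul_eq_div, le_div_iff₀ hl]
    exact hz
  linarith

/-- the plane functional is bounded -/
lemma bb_le {f : Sp d → E} (hf : Continuous f) (hc : HasCompactSupport f) {s0 R0 : ℝ}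
    (h : 0 < s0) (hR : 0 ≤ R0) (i : ℕ) (x : Sp d) {e : E} (he : ‖e‖ = 1) {ν : Sp d}
    (hν : ‖ν‖ = 1) {c : ℝ} (hloc : |ht ν c x| ≤ (R0 + 1) * lev s0 i) :
    bb R0 s0 f i x e ν c ≤ lev s0 i / lev s0 i ^ d * ((2 * (R0 + 1)) ^ 2 * ∫ y, ‖f y‖) := by
  have hl := lev_pos h i
  unfold bb
  refine mul_le_mul_of_nonneg_left ?_ (by positivity)
  have hI : Integrable (fun y => (2 * (R0 + 1)) ^ 2 * ‖f y‖) :=
    ((hf.integrable_of_hasCompactSupport hc).norm).const_mul _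
  have h1 := norm_integral_le_of_norm_le hI (f := fun y => ⟪f y, e⟫_ℝ *
    (zR R0 ((1 / lev s0 i) • (y - x)) * (ht ν c y / lev s0 i) ^ 2)) (by
      refine Filter.Eventually.of_forall fun y => ?_
      have h2 : |⟪f y, e⟫_ℝ| ≤ ‖f y‖ := by
        have := abs_real_inner_le_norm (f y) e
        rwa [he, mul_one] at this
      have hz0 : 0 ≤ zR R0 ((1 / lev s0 i) • (y - x)) := Real.smoothTransition.nonneg _
      have hz1 : zR R0 ((1 / lev s0 i) • (y - x)) ≤ 1 := Real.smoothTransition.le_one _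
      have h3 : zR R0 ((1 / lev s0 i) • (y - x)) * (ht ν c y / lev s0 i) ^ 2 ≤
          (2 * (R0 + 1)) ^ 2 := by
        by_cases hz : (R0 + 1) * lev s0 i ≤ ‖y - x‖
        · rw [zR_arg h i hz, zero_mul]
          positivity
        · push Not at hz
          have h4 := ht_abs hν c x y
          have h5 : |ht ν c y / lev s0 i| ≤ 2 * (R0 + 1) := by
            rw [abs_div, abs_of_pos hl, div_le_iff₀ hl]
            linarith
          have h6 : (ht ν c y / lev s0 i) ^ 2 ≤ (2 * (R0 + 1)) ^ 2 := by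
            rw [← sq_abs (ht ν c y / lev s0 i)]
            exact pow_le_pow_left₀ (abs_nonneg _) h5 2
          have h7 : 0 ≤ (ht ν c y / lev s0 i) ^ 2 := sq_nonneg _
          nlinarith
      rw [Real.norm_eq_abs, abs_mul, abs_of_nonneg (mul_nonneg hz0 (sq_nonneg (_ / _))), mul_comm]
      exact mul_le_mul h3 h2 (abs_nonneg _) (by positivity))
  rw [integral_const_mul] at h1
  exact (Real.le_norm_self _).trans h1

/-- the plane functional vanishes far from the support -/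
lemma bb_zero {f : Sp d → E} {B : ℝ} (hB : ∀ y, B < ‖y‖ → f y = 0) {s0 R0 : ℝ}
    (h : 0 < s0) (i : ℕ) {x : Sp d} (e : E) (ν : Sp d) (c : ℝ)
    (hx : B + (R0 + 1) * lev s0 i < ‖x‖) : bb R0 s0 f i x e ν c = 0 := by
  unfold bb
  have h1 : ∀ y, ⟪f y, e⟫_ℝ *
      (zR R0 ((1 / lev s0 i) • (y - x)) * (ht ν c y / lev s0 i) ^ 2) = 0 := by
    intro y
    by_cases hy : B < ‖y‖
    · rw [hB y hy, inner_zero_left, zero_mul]
    · push Not at hy
      rw [zR_arg h i, zero_mul, mul_zero]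
      have h2 : ‖x‖ ≤ ‖y‖ + ‖y - x‖ := by
        have := norm_sub_le y (y - x)
        rwa [sub_sub_cancel] at this
      linarith
  simp_rw [h1]
  simp

lemma mT_nonneg (b : Sp d → ℝ) (ε : ℝ) {s0 : ℝ} (h : 0 < s0) (f : Sp d → E) (Q : Cell d) :
    0 ≤ mT b ε s0 f Q := by
  have hl := lev_pos h Q.1
  unfold mT
  refine mul_nonneg (CT6.nw_nonneg h Q) (integral_nonneg fun y => ?_)
  simp only [Pi.zero_apply]
  positivity

lemma mC_zero {b : Sp d → ℝ} (hb : PTm.Ker b) {ε : ℝ} (hε : 0 < ε) (hε1 : ε ≤ 1)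
    {f : Sp d → E} {B : ℝ} (hB : ∀ y, B < ‖y‖ → f y = 0) {s0 : ℝ} (h : 0 < s0) (r : ℝ)
    {Q : Cell d} (hx : B + (2 + |r|) * lev s0 Q.1 < ‖xC s0 Q‖) : mC b ε r s0 f Q = 0 := by
  have hl := lev_pos h Q.1
  unfold mC ma
  rw [setIntegral_eq_zero_of_forall_eq_zero, mul_zero]
  intro y hy
  rw [norm_eq_zero]
  refine PTm.fl_supp hb hε.le h hB (Q.1 - 1) y ?_
  have h1 : lev s0 (Q.1 - 1) ≤ lev s0 Q.1 := by
    unfold lev
    exact mul_le_mul_of_nonneg_left (pow_le_pow_right₀ (by norm_num) (by omega)) h.le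
  have h0 := lev_pos h (Q.1 - 1)
  rw [mem_ball, dist_eq_norm] at hy
  have h2 : ‖xC s0 Q‖ ≤ ‖y‖ + ‖y - xC s0 Q‖ := by
    have := norm_sub_le y (y - xC s0 Q)
    rwa [sub_sub_cancel] at this
  have h3 : r * lev s0 Q.1 ≤ |r| * lev s0 Q.1 := mul_le_mul_of_nonneg_right (le_abs_self r) hl.le
  nlinarith

end B

/-- the second moment is bounded by the potential -/
lemma Mo_le (hd : 1 ≤ d) (μ : Measure (Sp d)) [IsFiniteMeasure μ] {n : Sp d} (hn : ‖n‖ = 1)
    {c K : ℝ} (hc : |c| ≤ K) (h0 : 0 < vv μ 1 0) :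
    Mo μ n c 2 1 0 ≤ 2 * (1 + K ^ 2) * vv μ 1 0 := by
  unfold Mo
  rw [div_le_iff₀ h0]
  have h1 : 2 * (1 + K ^ 2) * vv μ 1 0 * vv μ 1 0 = ∫ η, 2 * (1 + K ^ 2) * kk 1 (0 - η) ∂μ := by
    rw [integral_const_mul]
    have h2 : vv μ 1 0 * vv μ 1 0 = th μ 1 0 := by
      unfold vv
      exact Real.mul_self_sqrt (integral_nonneg fun η => THm.kk_nonneg one_pos _)
    rw [mul_assoc, h2]
    rfl
  rw [h1]
  refine integral_mono_of_nonneg (Filter.Eventually.of_forall fun η => ?_)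
    ((THm.kk_int hd μ one_pos 0).const_mul _) (Filter.Eventually.of_forall fun η => ?_)
  · have := THm.kk_nonneg one_pos ((0 : Sp d) - η)
    simp only [Pi.zero_apply]
    positivity
  · simp only
    refine mul_le_mul_of_nonneg_right ?_ (THm.kk_nonneg one_pos _)
    rw [zero_sub, norm_neg]
    rw [div_le_iff₀ (by positivity)]
    have h3 : ⟪η, n⟫_ℝ ^ 2 ≤ ‖η‖ ^ 2 := by
      have h4 := abs_real_inner_le_norm η n
      rw [hn, mul_one] at h4
      rw [← sq_abs ⟪η, n⟫_ℝ]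
      exact pow_le_pow_left₀ (abs_nonneg _) h4 2
    have h5 : c ^ 2 ≤ K ^ 2 := by
      rw [← sq_abs c]
      exact pow_le_pow_left₀ (abs_nonneg _) hc 2
    have h6 : (⟪η, n⟫_ℝ - c) ^ 2 ≤ 2 * ‖η‖ ^ 2 + 2 * K ^ 2 := by
      nlinarith [sq_nonneg (⟪η, n⟫_ℝ + c)]
    refine h6.trans ?_
    have h7 : 0 ≤ ‖η‖ ^ 2 := sq_nonneg _
    have h8 : 0 ≤ K ^ 2 := sq_nonneg _
    have h9 : (1 : ℝ) ≤ (1 ^ 2 + ‖η‖ ^ 2) ^ 2 := by nlinarith
    have h10 : ‖η‖ ^ 2 ≤ (1 ^ 2 + ‖η‖ ^ 2) ^ 2 := by nlinarith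
    have h11 := mul_le_mul_of_nonneg_left h9 h8
    nlinarith [mul_nonneg h8 h7]

lemma nw_up {s0 : ℝ} (hd : 1 ≤ d) (h : 0 < s0) (i : ℕ) (Q : Cell d) :
    nw s0 (up i Q) ≤ nw s0 Q := by
  have e : ∀ P : Cell d, nw s0 P = (lev s0 P.1 ^ (d - 1))⁻¹ := by
    intro P
    have hl := lev_pos h P.1
    unfold nw
    have h3 : lev s0 P.1 ^ d = lev s0 P.1 ^ (d - 1) * lev s0 P.1 := by
      rw [← pow_succ]
      congr 1
      omega
    rw [h3]
    field_simp
  rw [e, e]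
  have hl := lev_pos h Q.1
  refine inv_anti₀ (by positivity) (pow_le_pow_left₀ hl.le ?_ _)
  rw [up_fst]
  unfold lev
  exact mul_le_mul_of_nonneg_left (pow_le_pow_right₀ (by norm_num) (by omega)) h.le

end

end FFm

open FFm

/-- MODULE FF -/
theorem stmtFF (h4 : StmtCT4) (h6 : StmtCT6) (h7 : StmtCT7) : StmtFF := by
  intro d hd C' hC' μ hμ M c0 ε hε hε1 b hb R0 R ρ hR0 hR hρ E _ _ _ _ f hf hc s0 h e he ν c hν
    S r C hS
  have hd1 : 1 ≤ d := by omega
  have hdR : (0 : ℝ) ≤ d := Nat.cast_nonneg d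
  have hR00 : 0 ≤ R0 := by linarith
  obtain ⟨B, hB0, hB⟩ := PTm.cs_bd hc
  set I := ∫ y, ‖f y‖ with hI
  have hI0 : 0 ≤ I := integral_nonneg fun y => norm_nonneg _
  have hnw : ∀ Q : Cell d, 0 ≤ nw s0 Q := CT6.nw_nonneg h
  have hom : ∀ Q : Cell d, 0 ≤ omC μ s0 Q := fun Q => Real.sqrt_nonneg _
  -- facts for b
  have hb0 : ∀ Q, 0 ≤ bC R0 s0 f e ν c Q := fun Q => le_max_left _ _
  have hb1 : ∀ Q, bC R0 s0 f e ν c Q ≤ ((2 * (R0 + 1)) ^ 2 * I) * nw s0 Q := by
    intro Q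
    refine max_le (mul_nonneg (by positivity) (hnw Q)) ?_
    have := bb_le hf hc h hR00 Q.1 (xC s0 Q) (he.unit Q) (hν.unit Q) (hν.loc Q)
    rw [mul_comm]
    exact this
  have hb2 : ∀ Q, bC R0 s0 f e ν c Q ≠ 0 → ‖xC s0 Q‖ ≤ B + (R0 + 1) * lev s0 Q.1 := by
    intro Q hQ
    by_contra hcon
    push Not at hcon
    apply hQ
    unfold bC
    rw [bb_zero hB h Q.1 _ _ _ hcon, max_self]
  constructor
  · refine (h6 d hd C' ρ hC' hρ μ hμ s0 h (bC R0 s0 f e ν c) ((2 * (R0 + 1)) ^ 2 * I)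
      (B + (R0 + 1)) (by positivity) (by positivity) hb0 hb1 fun Q hQ => ?_).1
    have h1 := hb2 Q hQ
    have hl := FFm.lev_pos h Q.1
    nlinarith [mul_nonneg hB0 hl.le]
  · obtain ⟨C7, hC7, g7⟩ := h7 d hd C' 1 1 0 hC' one_pos le_rfl le_rfl le_rfl 0
    obtain ⟨g71, -, -, -⟩ := g7 μ hμ s0 h
    obtain ⟨C4, hC4, g4⟩ := h4 d hd1 0 le_rfl
    obtain ⟨-, g42, -, -⟩ := g4 M c0 ε hε hε1 b hb E f hf hc s0 h
    have hsd := Real.sqrt_nonneg (d : ℝ)
    set K : ℝ := (R0 + 1 + Real.sqrt d) * 512 with hK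
    set C2 : ℝ := 2 * (1 + K ^ 2) with hC2
    have hC20 : 0 ≤ C2 := by positivity
    have hm0 := FFm.mT_nonneg b ε h f
    classical
    set F : Cell d → ℝ := fun Q => (if Q ∈ S then C2 * mT b ε s0 f Q else 0) +
      bC R0 s0 f e ν c (up 9 Q) with hF
    have hlev : ∀ Q : Cell d, lev s0 (Q.1 + 9) = 512 * lev s0 Q.1 := by
      intro Q
      unfold lev
      rw [pow_add]
      ring
    -- Y
    have hY : ∀ Q, YC b ε s0 f μ ν c Q ≤ C2 * mT b ε s0 f Q * omC μ s0 Q := by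
      intro Q
      obtain ⟨a1, a2, a3, a4⟩ := g71 Q
      have hl := FFm.lev_pos h Q.1
      have := a4.fin
      unfold YC
      have hσ : |(c (up 9 Q) - ⟪ν (up 9 Q), xC s0 Q⟫_ℝ) / lev s0 Q.1| ≤ K := by
        rw [abs_div, abs_of_pos hl, div_le_iff₀ hl, abs_sub_comm]
        have h1 := ht_abs (hν.unit (up 9 Q)) (c (up 9 Q)) (xC s0 (up 9 Q)) (xC s0 Q)
        have h2 := hν.loc (up 9 Q)
        have h3 := FR.xC_up h 9 Q
        rw [norm_sub_rev] at h3
        rw [up_fst, hlev] at h2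
        rw [hlev] at h3
        unfold ht at h1 h2
        rw [hK]
        linarith
      have h1 := Mo_le hd1 (muQ s0 μ Q) (hν.unit (up 9 Q)) hσ (by rw [a3]; exact a1)
      rw [a3] at h1
      have h2 := mul_le_mul_of_nonneg_left h1 (hm0 Q)
      refine h2.trans (le_of_eq ?_)
      ring
    have hF0 : ∀ Q, 0 ≤ F Q := by
      intro Q
      simp only [hF]
      refine add_nonneg ?_ (hb0 _)
      split_ifs
      · exact mul_nonneg hC20 (hm0 Q)
      · exact le_rfl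
    have hF1 : ∀ Q, F Q ≤ (C2 * I + (2 * (R0 + 1)) ^ 2 * I) * nw s0 Q := by
      intro Q
      simp only [hF]
      have h1 : (if Q ∈ S then C2 * mT b ε s0 f Q else 0) ≤ C2 * I * nw s0 Q := by
        split_ifs
        · have h2 := mul_le_mul_of_nonneg_left (g42 Q) hC20
          refine h2.trans (le_of_eq ?_)
          ring
        · exact mul_nonneg (by positivity) (hnw Q)
      have h3 := (hb1 (up 9 Q)).trans (mul_le_mul_of_nonneg_left (nw_up hd1 h 9 Q)
        (by positivity))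
      linarith
    have hF2 : ∀ Q, F Q ≠ 0 → ‖xC s0 Q‖ ≤
        (B + (2 + |r|) + K) * (1 + lev s0 Q.1) := by
      intro Q hQ
      have hl := FFm.lev_pos h Q.1
      have hr := abs_nonneg r
      have hK0 : 0 ≤ K := by positivity
      by_cases hbQ : bC R0 s0 f e ν c (up 9 Q) = 0
      · simp only [hF, hbQ, add_zero] at hQ
        split_ifs at hQ with hQS
        · have hmne : mT b ε s0 f Q ≠ 0 := fun h0 => hQ (by rw [h0, mul_zero])
          have h1 : ‖xC s0 Q‖ ≤ B + (2 + |r|) * lev s0 Q.1 := by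
            by_contra hcon
            push Not at hcon
            have h2 := hS Q hQS
            rw [mC_zero (PTm.base_ker hb) hε hε1 hB h r hcon, mul_zero] at h2
            exact hmne (le_antisymm h2 (hm0 Q))
          nlinarith [mul_nonneg hB0 hl.le, mul_nonneg hK0 hl.le]
        · exact absurd rfl hQ
      · have h1 := hb2 _ hbQ
        rw [up_fst, hlev] at h1
        have h3 := FR.xC_up h 9 Q
        rw [hlev] at h3
        have h4 : ‖xC s0 Q‖ ≤ ‖xC s0 (up 9 Q)‖ + ‖xC s0 (up 9 Q) - xC s0 Q‖ := by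
          have := norm_sub_le (xC s0 (up 9 Q)) (xC s0 (up 9 Q) - xC s0 Q)
          rwa [sub_sub_cancel] at this
        have h5 : ‖xC s0 Q‖ ≤ B + K * lev s0 Q.1 := by
          rw [hK]
          linarith
        nlinarith [mul_nonneg hB0 hl.le, mul_nonneg hr hl.le]
    have hfin := (h6 d hd C' ρ hC' hρ μ hμ s0 h F (C2 * I + (2 * (R0 + 1)) ^ 2 * I)
      (B + (2 + |r|) + K) (by positivity) (by positivity) hF0 hF1 hF2).2
    refine lt_of_le_of_lt ((cs_mono fun Q hQ => ?_).trans (cs_le_univ S _)) hfin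
    have h1 : F Q = C2 * mT b ε s0 f Q + bC R0 s0 f e ν c (up 9 Q) := by
      simp only [hF]
      rw [if_pos hQ]
    rw [h1, mul_assoc (cw s0 Q)]
    refine mul_le_mul_of_nonneg_left ?_ (cw_nonneg h Q)
    have := hY Q
    rw [add_mul]
    linarith

end TG
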