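import Pool.Agent.TG.Stmts1

/-!
# Trace inequality, general operators: module GN

The inequality (G) at unit scale, from the identity (**) (GI) and the pointwise inequality (GP).
-/

open MeasureTheory Metric Set TrI
open scoped InnerProductSpace ContDiff

namespace TG

noncomputable section

namespace GNaux

variable {d : ℕ}

/-- the integral with a compactly supported continuous weight is continuous -/
theorem cont_int (β : Sp d → ℝ) (hβ : Continuous β) (hs : ∀ x, 1 ≤ ‖x‖ → β x = 0)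
    (F : ℝ → Sp d → ℝ) (hF : ContinuousOn (Function.uncurry F) (Ioi 0 ×ˢ univ)) :
    ContinuousOn (fun t => ∫ z, β z * F t z) (Ioi 0) := by
  refine continuousOn_integral_of_compact_support (k := closedBall 0 1)
    (isCompact_closedBall 0 1) ?_ ?_
  · exact (hβ.comp_continuousOn continuousOn_snd).mul hF
  · intro p x _ hx
    rw [hs x (by
      simp only [mem_closedBall, dist_zero_right, not_le] at hx
      exact hx.le), zero_mul]

/-- the potential as a function of both variables -/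
def VV (μ : Measure (Sp d)) (p : ℝ × Sp d) : ℝ := vv μ p.1 p.2

theorem isOpen_S : IsOpen {p : ℝ × Sp d | 0 < p.1} := isOpen_lt continuous_const continuous_fst

theorem cont_iter (μ : Measure (Sp d)) (h : ContDiffOn ℝ ∞ (VV μ) {p | 0 < p.1}) (k : ℕ) :
    ContinuousOn (iteratedFDeriv ℝ k (VV μ)) {p | 0 < p.1} := by
  have h1 := h.continuousOn_iteratedFDerivWithin (m := k) (by exact_mod_cast le_top)
    isOpen_S.uniqueDiffOn
  refine h1.congr ?_
  intro p hp
  exact (iteratedFDerivWithin_of_isOpen k isOpen_S hp).symm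

theorem slice2 (μ : Measure (Sp d)) (h : ContDiffOn ℝ ∞ (VV μ) {p | 0 < p.1}) (t : ℝ)
    (ht : 0 < t) (x w : Sp d) :
    iteratedFDeriv ℝ 2 (vv μ t) x (fun _ => w) =
      iteratedFDeriv ℝ 2 (VV μ) (t, x) (fun _ => (0, w)) := by
  set g : Sp d →L[ℝ] ℝ × Sp d := ContinuousLinearMap.inr ℝ ℝ (Sp d) with hg
  set f : ℝ × Sp d → ℝ := fun p => VV μ ((t, 0) + p) with hf
  set s : Set (ℝ × Sp d) := {p | 0 < t + p.1} with hs
  have hso : IsOpen s := isOpen_lt continuous_const (continuous_const.add continuous_fst)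
  have hfd : ContDiffOn ℝ ∞ f s := by
    refine h.comp (contDiff_const.add contDiff_id).contDiffOn ?_
    intro p hp
    simpa [hs] using hp
  have hpre : g ⁻¹' s = univ := by
    ext z
    simp [hg, hs, ht]
  have hx : g x ∈ s := by
    have : x ∈ g ⁻¹' s := by rw [hpre]; trivial
    exact this
  have h2 := g.iteratedFDerivWithin_comp_right hfd hso.uniqueDiffOn
    (by rw [hpre]; exact uniqueDiffOn_univ) hx (i := 2) (WithTop.coe_le_coe.2 (le_top : (2 : ℕ∞) ≤ ⊤))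
  rw [hpre, iteratedFDerivWithin_univ, iteratedFDerivWithin_of_isOpen 2 hso hx] at h2
  have h3 : (f ∘ g) = vv μ t := by
    funext z
    simp [hf, hg, VV]
  rw [h3] at h2
  rw [h2]
  have h4 : iteratedFDeriv ℝ 2 f (g x) = iteratedFDeriv ℝ 2 (VV μ) ((t, 0) + g x) := by
    rw [hf]
    exact iteratedFDeriv_comp_add_left 2 (t, (0 : Sp d)) (g x)
  rw [h4]
  have h5 : ((t, (0 : Sp d)) + g x) = (t, x) := by simp [hg]
  rw [h5]
  rfl

theorem hasFD (μ : Measure (Sp d)) (h : ContDiffOn ℝ ∞ (VV μ) {p | 0 < p.1}) (t : ℝ)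
    (ht : 0 < t) (x : Sp d) : HasFDerivAt (VV μ) (fderiv ℝ (VV μ) (t, x)) (t, x) := by
  have := (h.contDiffAt (isOpen_S.mem_nhds (show (t, x) ∈ {p : ℝ × Sp d | 0 < p.1} from ht)))
  exact (this.differentiableAt (by norm_num)).hasFDerivAt

theorem cont_fd (μ : Measure (Sp d)) (h : ContDiffOn ℝ ∞ (VV μ) {p | 0 < p.1}) :
    ContinuousOn (fderiv ℝ (VV μ)) {p | 0 < p.1} :=
  h.continuousOn_fderiv_of_isOpen isOpen_S (by norm_num)

theorem slice1 (μ : Measure (Sp d)) (h : ContDiffOn ℝ ∞ (VV μ) {p | 0 < p.1}) (t : ℝ)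
    (ht : 0 < t) (x : Sp d) :
    fderiv ℝ (vv μ t) x = (fderiv ℝ (VV μ) (t, x)).comp (ContinuousLinearMap.inr ℝ ℝ (Sp d)) := by
  have h1 : HasFDerivAt (fun z : Sp d => (t, z)) (ContinuousLinearMap.inr ℝ ℝ (Sp d)) x :=
    hasFDerivAt_prodMk_right t x
  exact ((hasFD μ h t ht x).comp x h1).fderiv

theorem grad_eq (μ : Measure (Sp d)) (h : ContDiffOn ℝ ∞ (VV μ) {p | 0 < p.1}) (t : ℝ)
    (ht : 0 < t) (x : Sp d) :
    gradient (vv μ t) x = (InnerProductSpace.toDual ℝ (Sp d)).symm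
      ((fderiv ℝ (VV μ) (t, x)).comp (ContinuousLinearMap.inr ℝ ℝ (Sp d))) := by
  rw [gradient, slice1 μ h t ht x]

theorem dtv_eq (μ : Measure (Sp d)) (h : ContDiffOn ℝ ∞ (VV μ) {p | 0 < p.1}) (t : ℝ)
    (ht : 0 < t) (x : Sp d) : dtv μ t x = fderiv ℝ (VV μ) (t, x) (1, 0) := by
  have h1 : HasFDerivAt (fun s : ℝ => (s, x)) (ContinuousLinearMap.inl ℝ ℝ (Sp d)) t :=
    hasFDerivAt_prodMk_left t x
  have h2 := ((hasFD μ h t ht x).comp t h1).hasDerivAt.deriv
  rw [dtv]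
  have h3 : (fun s => vv μ s x) = (VV μ ∘ fun s : ℝ => (s, x)) := by
    funext s
    rfl
  rw [h3, h2]
  simp

/-- the ray map -/
def ray (ε : ℝ) (y : Sp d) (p : ℝ × Sp d) : ℝ × Sp d := (p.1, y + (ε * p.1) • p.2)

theorem ray_cont (ε : ℝ) (y : Sp d) : Continuous (ray ε y) := by
  unfold ray
  fun_prop

theorem ray_maps (ε : ℝ) (y : Sp d) :
    MapsTo (ray ε y) (Ioi (0 : ℝ) ×ˢ (univ : Set (Sp d))) {p | 0 < p.1} := by
  intro p hp
  exact hp.1

theorem cont_gr (μ : Measure (Sp d)) (h : ContDiffOn ℝ ∞ (VV μ) {p | 0 < p.1}) (β : Sp d → ℝ)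
    (hβ : Continuous β) (hs : ∀ x, 1 ≤ ‖x‖ → β x = 0) (ε : ℝ) (n y : Sp d) :
    ContinuousOn (fun t => gr β ε μ n t y) (Ioi 0) := by
  unfold gr
  refine (cont_int β hβ hs _ ?_).neg
  have hV := (cont_iter μ h 2).comp (ray_cont ε y).continuousOn (ray_maps ε y)
  have hev : ∀ (w : ℝ × Sp d → ℝ × Sp d), Continuous w →
      ContinuousOn (fun p : ℝ × Sp d => iteratedFDeriv ℝ 2 (VV μ) (ray ε y p) (fun _ => w p))
        (Ioi (0 : ℝ) ×ˢ univ) := by
    intro w hw
    have h1 : Continuous (fun q : (ContinuousMultilinearMap ℝ (fun _ : Fin 2 => ℝ × Sp d) ℝ) ×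
        (Fin 2 → ℝ × Sp d) => q.1 q.2) := continuous_eval
    exact h1.comp_continuousOn (hV.prodMk (by fun_prop))
  have h1 : ContinuousOn (fun p : ℝ × Sp d => iteratedFDeriv ℝ 2 (VV μ) (ray ε y p)
      (fun _ => ((1 : ℝ), (ε * ⟪p.2, n⟫_ℝ) • n)) + (1 + (ε * ⟪p.2, n⟫_ℝ) ^ 2) *
        ((∑ j : Fin d, iteratedFDeriv ℝ 2 (VV μ) (ray ε y p)
          (fun _ => ((0 : ℝ), (EuclideanSpace.single j (1 : ℝ) : Sp d)))) -
          iteratedFDeriv ℝ 2 (VV μ) (ray ε y p) (fun _ => ((0 : ℝ), n))))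
      (Ioi (0 : ℝ) ×ˢ univ) := by
    refine (hev _ (by fun_prop)).add (ContinuousOn.mul (by fun_prop) (ContinuousOn.sub ?_
      (hev _ continuous_const)))
    exact continuousOn_finsetSum _ (fun j _ => hev _ continuous_const)
  refine h1.congr ?_
  rintro ⟨t, z⟩ ⟨ht, -⟩
  have ht' : 0 < t := ht
  simp only [Function.uncurry]
  unfold lap d2
  simp only [slice2 μ h t ht']
  rfl

theorem cont_grad (μ : Measure (Sp d)) (h : ContDiffOn ℝ ∞ (VV μ) {p | 0 < p.1})
    (ε : ℝ) (y : Sp d) :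
    ContinuousOn (fun p : ℝ × Sp d => gradient (vv μ p.1) (y + (ε * p.1) • p.2))
      (Ioi (0 : ℝ) ×ˢ univ) := by
  have hV := (cont_fd μ h).comp (ray_cont ε y).continuousOn (ray_maps ε y)
  have h1 : ContinuousOn (fun p : ℝ × Sp d => (InnerProductSpace.toDual ℝ (Sp d)).symm
      ((fderiv ℝ (VV μ) (ray ε y p)).comp (ContinuousLinearMap.inr ℝ ℝ (Sp d))))
      (Ioi (0 : ℝ) ×ˢ univ) := by
    refine (InnerProductSpace.toDual ℝ (Sp d)).symm.continuous.comp_continuousOn ?_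
    exact ContinuousOn.clm_comp hV continuousOn_const
  refine h1.congr ?_
  rintro ⟨t, z⟩ ⟨ht, -⟩
  exact grad_eq μ h t ht _

theorem cont_dtv (μ : Measure (Sp d)) (h : ContDiffOn ℝ ∞ (VV μ) {p | 0 < p.1})
    (ε : ℝ) (y : Sp d) :
    ContinuousOn (fun p : ℝ × Sp d => dtv μ p.1 (y + (ε * p.1) • p.2))
      (Ioi (0 : ℝ) ×ˢ univ) := by
  have hV := (cont_fd μ h).comp (ray_cont ε y).continuousOn (ray_maps ε y)
  have h1 : ContinuousOn (fun p : ℝ × Sp d => fderiv ℝ (VV μ) (ray ε y p) ((1 : ℝ), (0 : Sp d)))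
      (Ioi (0 : ℝ) ×ˢ univ) := ContinuousOn.clm_apply hV continuousOn_const
  refine h1.congr ?_
  rintro ⟨t, z⟩ ⟨ht, -⟩
  exact dtv_eq μ h t ht _

theorem cont_vv (μ : Measure (Sp d)) (h : ContDiffOn ℝ ∞ (VV μ) {p | 0 < p.1})
    (ε : ℝ) (y : Sp d) :
    ContinuousOn (fun p : ℝ × Sp d => vv μ p.1 (y + (ε * p.1) • p.2))
      (Ioi (0 : ℝ) ×ˢ univ) :=
  (h.continuousOn.comp (ray_cont ε y).continuousOn (ray_maps ε y))

theorem tang_cont (n : Sp d) : Continuous (tang n) := by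
  unfold tang
  fun_prop

theorem cont_X1 (μ : Measure (Sp d)) (h : ContDiffOn ℝ ∞ (VV μ) {p | 0 < p.1})
    (hpos : ∀ (t : ℝ) (x : Sp d), 0 < t → 0 < vv μ t x) (β : Sp d → ℝ)
    (hβ : Continuous β) (hs : ∀ x, 1 ≤ ‖x‖ → β x = 0) (ε : ℝ) (n y : Sp d) :
    ContinuousOn (fun t => X1 β ε μ n t y) (Ioi 0) := by
  unfold X1
  refine cont_int β hβ hs _ ?_
  refine ContinuousOn.div (((tang_cont n).comp_continuousOn (cont_grad μ h ε y)).norm.pow 2)
    (cont_vv μ h ε y) ?_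
  rintro ⟨t, z⟩ ⟨ht, -⟩
  exact (hpos t _ ht).ne'

theorem cont_X3 (μ : Measure (Sp d)) (h : ContDiffOn ℝ ∞ (VV μ) {p | 0 < p.1})
    (hpos : ∀ (t : ℝ) (x : Sp d), 0 < t → 0 < vv μ t x) (β : Sp d → ℝ)
    (hβ : Continuous β) (hs : ∀ x, 1 ≤ ‖x‖ → β x = 0) (ε : ℝ) (n y : Sp d) :
    ContinuousOn (fun t => X3 β ε μ n t y) (Ioi 0) := by
  unfold X3
  refine cont_int β hβ hs _ ?_
  refine ContinuousOn.div (ContinuousOn.pow (ContinuousOn.add (cont_dtv μ h ε y)
    (ContinuousOn.mul (by fun_prop) (ContinuousOn.inner (𝕜 := ℝ) (cont_grad μ h ε y)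
      continuousOn_const))) 2) (cont_vv μ h ε y) ?_
  rintro ⟨t, z⟩ ⟨ht, -⟩
  exact (hpos t _ ht).ne'

theorem kk_cont (d : ℕ) (x : Sp d) : ContinuousOn (fun t => kk t x) (Ioi 0) := by
  unfold kk
  refine ContinuousOn.div continuousOn_id (by fun_prop) ?_
  intro t ht
  have ht' : 0 < t := ht
  positivity

theorem kk_nonneg (t : ℝ) (ht : 0 ≤ t) (x : Sp d) : 0 ≤ kk t x := by
  unfold kk
  positivity

theorem kk_le (t : ℝ) (ht : 0 < t) (x : Sp d) : kk t x ≤ t / t ^ d := by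
  unfold kk
  have h1 : t ≤ Real.sqrt (t ^ 2 + ‖x‖ ^ 2) := by
    refine Real.le_sqrt_of_sq_le ?_
    nlinarith [sq_nonneg ‖x‖]
  gcongr

theorem kk_meas (t : ℝ) (ht : 0 < t) (y : Sp d) : Continuous (fun η : Sp d => kk t (y - η)) := by
  unfold kk
  refine Continuous.div continuous_const (by fun_prop) ?_
  intro η
  positivity

theorem cont_X2 (μ : Measure (Sp d)) [IsFiniteMeasure μ]
    (h : ContDiffOn ℝ ∞ (VV μ) {p | 0 < p.1})
    (hpos : ∀ (t : ℝ) (x : Sp d), 0 < t → 0 < vv μ t x) (n y : Sp d) (hn : ‖n‖ = 1) :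
    ContinuousOn (fun t => X2 μ n t y) (Icc (1 / 2) 2) := by
  unfold X2
  refine ContinuousOn.div ?_ ?_ ?_
  · refine continuousOn_of_dominated (bound := fun _ => 4 * (2 / (1 / 2 : ℝ) ^ d)) ?_ ?_
      (integrable_const _) ?_
    · intro t ht
      have ht0 : 0 < t := lt_of_lt_of_le (by norm_num) ht.1
      refine Continuous.aestronglyMeasurable ?_
      refine Continuous.mul (Continuous.div (by fun_prop) (by fun_prop) ?_) (kk_meas t ht0 y)
      intro η
      positivity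
    · intro t ht
      have ht0 : 0 < t := lt_of_lt_of_le (by norm_num) ht.1
      refine Filter.Eventually.of_forall ?_
      intro η
      have h1 : 0 ≤ ⟪η - y, n⟫_ℝ ^ 2 / (t ^ 2 + ‖y - η‖ ^ 2) ^ 2 := by positivity
      have h2 := kk_nonneg t ht0.le (y - η)
      rw [Real.norm_of_nonneg (mul_nonneg h1 h2)]
      have h3 : ⟪η - y, n⟫_ℝ ^ 2 ≤ ‖y - η‖ ^ 2 := by
        have h4 := abs_real_inner_le_norm (η - y) n
        rw [hn, mul_one, norm_sub_rev] at h4
        rw [← sq_abs]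
        gcongr
      have h5 : ⟪η - y, n⟫_ℝ ^ 2 / (t ^ 2 + ‖y - η‖ ^ 2) ^ 2 ≤ 4 := by
        rw [div_le_iff₀ (by positivity)]
        have h6 : (1 / 4 : ℝ) ≤ t ^ 2 := by nlinarith [ht.1]
        have h7 : 0 ≤ ‖y - η‖ ^ 2 := sq_nonneg _
        nlinarith [mul_nonneg (sub_nonneg.2 h6) h7, sq_nonneg (t ^ 2), sq_nonneg (‖y - η‖ ^ 2)]
      have h8 : kk t (y - η) ≤ 2 / (1 / 2 : ℝ) ^ d := by
        refine (kk_le t ht0 _).trans ?_
        have := ht.1
        have := ht.2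
        gcongr
      exact mul_le_mul h5 h8 h2 (by norm_num)
    · refine Filter.Eventually.of_forall ?_
      intro η
      refine ContinuousOn.mul (ContinuousOn.div continuousOn_const (by fun_prop) ?_)
        ((kk_cont d (y - η)).mono ?_)
      · intro t ht
        have ht0 : 0 < t := lt_of_lt_of_le (by norm_num) ht.1
        positivity
      · intro t ht
        exact lt_of_lt_of_le (by norm_num) ht.1
  · have h1 : ContinuousOn (fun t : ℝ => VV μ (t, y)) (Icc (1 / 2) 2) := by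
      refine h.continuousOn.comp (by fun_prop) ?_
      intro t ht
      exact lt_of_lt_of_le (by norm_num) ht.1
    exact h1
  · intro t ht
    exact (hpos t y (lt_of_lt_of_le (by norm_num) ht.1)).ne'

theorem tau_cont (t : ℝ) : Continuous (tau t) := by
  unfold tau
  fun_prop

theorem tau_nonneg (t r : ℝ) : 0 ≤ tau t r := le_max_left _ _

end GNaux

open GNaux in
/-- MODULE GN -/
theorem stmtGN (h : StmtTH) (h1 : StmtGI) (h2 : StmtGP) : StmtGN := by
  intro d J hd hJ M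
  obtain ⟨ε0, hε0, H⟩ := h2 d J hd hJ M
  refine ⟨min ε0 1, lt_min hε0 one_pos, ?_⟩
  intro ε hε hεle
  obtain ⟨c, hc, H⟩ := H ε hε (hεle.trans (min_le_left _ _))
  refine ⟨c, hc, ?_⟩
  intro β hβ C' μ hC' hμ n hn y
  obtain ⟨C, hC, HTH⟩ := h d 0 hd C' hC'
  obtain ⟨hp, hsm, -⟩ := HTH μ hμ
  have hpos : ∀ (t : ℝ) (x : Sp d), 0 < t → 0 < vv μ t x := fun t x ht =>
    Real.sqrt_pos.2 (hp t x ht).1
  have hsm' : ContDiffOn ℝ ∞ (VV μ) {p | 0 < p.1} := hsm
  have := hμ.fin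
  have hβc : Continuous β := hβ.prof.smooth.continuous
  have hβs := hβ.prof.supp
  have hsub : Icc (1 / 2 : ℝ) 2 ⊆ Ioi 0 := by
    intro t ht
    exact lt_of_lt_of_le (by norm_num) ht.1
  have hle : (1 / 2 : ℝ) ≤ 2 := by norm_num
  have hu : uIcc (1 / 2 : ℝ) 2 = Icc (1 / 2) 2 := uIcc_of_le hle
  have i1 : IntervalIntegrable (fun r => tau 1 r * X1 β ε μ n r y) volume (1 / 2) 2 := by
    refine ContinuousOn.intervalIntegrable ?_
    rw [hu]
    exact (tau_cont 1).continuousOn.mul ((cont_X1 μ hsm' hpos β hβc hβs ε n y).mono hsub)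
  have i2 : IntervalIntegrable (fun r => tau 1 r * X2 μ n r y) volume (1 / 2) 2 := by
    refine ContinuousOn.intervalIntegrable ?_
    rw [hu]
    exact (tau_cont 1).continuousOn.mul (cont_X2 μ hsm' hpos n y hn)
  have i3 : IntervalIntegrable (fun r => tau 1 r * X3 β ε μ n r y) volume (1 / 2) 2 := by
    refine ContinuousOn.intervalIntegrable ?_
    rw [hu]
    exact (tau_cont 1).continuousOn.mul ((cont_X3 μ hsm' hpos β hβc hβs ε n y).mono hsub)
  have ig : IntervalIntegrable (fun r => tau 1 r * gr β ε μ n r y) volume (1 / 2) 2 := by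
    refine ContinuousOn.intervalIntegrable ?_
    rw [hu]
    exact (tau_cont 1).continuousOn.mul ((cont_gr μ hsm' β hβc hβs ε n y).mono hsub)
  rw [h1 d J hd hJ M ε hε (hεle.trans (min_le_right _ _)) β hβ C' μ hC' hμ n hn y]
  have hXX : c * XX β ε μ n 1 y = ∫ r in (1 / 2 : ℝ)..2,
      c * (tau 1 r * X1 β ε μ n r y + tau 1 r * X2 μ n r y + tau 1 r * X3 β ε μ n r y) := by
    rw [intervalIntegral.integral_const_mul,
      intervalIntegral.integral_add (i1.add i2) i3, intervalIntegral.integral_add i1 i2]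
    unfold XX tav
    norm_num
  rw [hXX]
  refine intervalIntegral.integral_mono_on hle (((i1.add i2).add i3).const_mul c) ig ?_
  intro r hr
  have h5 := H β hβ C' μ hC' hμ n hn r y hr.1 hr.2
  have h6 := mul_le_mul_of_nonneg_left h5 (tau_nonneg 1 r)
  calc _ = tau 1 r * (c * (X1 β ε μ n r y + X2 μ n r y + X3 β ε μ n r y)) := by ring
    _ ≤ _ := h6

end

end TG
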