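import Pool.Agent.TG.BdAv

/-!
# MODULE WA: smoothness and simple bounds of W, G and the gain functionals
-/

open MeasureTheory Metric Set Filter Topology TrI
open scoped InnerProductSpace ContDiff

set_option linter.unusedSectionVars false

namespace TG

noncomputable section

variable {ι : Type*} {d : ℕ}

/-- the family of functions v on the half space -/
def vf (μ : ι → Measure (Sp d)) (i : ι) (p : ℝ × Sp d) : ℝ := vv (μ i) p.1 p.2

/-- the working slab -/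
abbrev SL (d : ℕ) : Set (ℝ × Sp d) := slab d (1 / 4) 4

theorem isOpen_SL : IsOpen (SL d) := isOpen_slab _ _

theorem SL_pos {p : ℝ × Sp d} (hp : p ∈ SL d) : 0 < p.1 := by
  have := hp.1
  linarith

theorem vv_pos (h : StmtTH) (hd : 2 ≤ d) {C' : ℝ} (hC' : 0 < C') {μ : Measure (Sp d)}
    (hμ : Gro C' μ) {t : ℝ} (ht : 0 < t) (x : Sp d) : 0 < vv μ t x := by
  obtain ⟨C, hC, h1⟩ := h d 0 hd C' hC'
  exact Real.sqrt_pos.mpr ((h1 μ hμ).1 t x ht).1

theorem vv_harnack (h : StmtTH) (hd : 2 ≤ d) {C' : ℝ} (hC' : 0 < C') {μ : Measure (Sp d)}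
    (hμ : Gro C' μ) {t : ℝ} (ht : 0 < t) (x : Sp d) {ε : ℝ} (hε0 : 0 < ε) (hε : ε ≤ 1) {z : Sp d}
    (hz : ‖z‖ ≤ 1) : vv μ t (x + (ε * t) • z) ≤ 2 ^ d * vv μ t x := by
  obtain ⟨C, hC, h1⟩ := h d 0 hd C' hC'
  have h2 := (h1 μ hμ).2.2.2.1 t x (x + (ε * t) • z) ht
  have h3 : ‖x - (x + (ε * t) • z)‖ / t ≤ 1 := by
    have : x - (x + (ε * t) • z) = -((ε * t) • z) := by abel
    rw [this, norm_neg, norm_smul, Real.norm_eq_abs, abs_of_pos (by positivity), div_le_one ht]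
    nlinarith [mul_pos hε0 ht, norm_nonneg z]
  have h4 : (1 + ‖x - (x + (ε * t) • z)‖ / t) ^ d ≤ 2 ^ d :=
    pow_le_pow_left₀ (by positivity) (by linarith) d
  have h5 : 0 ≤ th μ t x := ((h1 μ hμ).1 t x ht).1.le
  have h6 : th μ t (x + (ε * t) • z) ≤ (2 ^ d) ^ 2 * th μ t x := by
    refine h2.trans (mul_le_mul_of_nonneg_right (h4.trans ?_) h5)
    have : (1 : ℝ) ≤ 2 ^ d := one_le_pow₀ (by norm_num)
    nlinarith
  unfold vv
  calc Real.sqrt (th μ t (x + (ε * t) • z)) ≤ Real.sqrt ((2 ^ d) ^ 2 * th μ t x) :=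
        Real.sqrt_le_sqrt h6
    _ = _ := by rw [Real.sqrt_mul (by positivity), Real.sqrt_sq (by positivity)]

theorem vv_time (h : StmtTH) (hd : 2 ≤ d) {C' : ℝ} (hC' : 0 < C') : ∃ H : ℝ, 0 ≤ H ∧
    ∀ μ : Measure (Sp d), Gro C' μ → ∀ (t : ℝ) (y : Sp d), 1 / 2 ≤ t → t ≤ 2 →
      vv μ t y ≤ H * vv μ 1 y := by
  obtain ⟨C, hC, h1⟩ := h d 0 hd C' hC'
  refine ⟨Real.sqrt C, Real.sqrt_nonneg _, fun μ hμ t y h2 h3 => ?_⟩
  have h4 := (h1 μ hμ).2.2.2.2 t 1 y one_pos (by linarith) (by linarith)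
  unfold vv
  rw [← Real.sqrt_mul hC.le]
  exact Real.sqrt_le_sqrt h4

theorem vf_bd (h : StmtTH) (hd : 2 ≤ d) {C' : ℝ} (hC' : 0 < C') {μ : ι → Measure (Sp d)}
    (hμ : ∀ i, Gro C' (μ i)) (N : ℕ) : BdN N (SL d) (vf μ) (vf μ) := by
  obtain ⟨C, hC, h1⟩ := h d N hd C' hC'
  refine ⟨fun i => ((h1 (μ i) (hμ i)).2.1).mono (fun p hp => SL_pos hp), C * 4 ^ N, by positivity,
    fun i p hp j hj => ?_⟩
  have h2 := (h1 (μ i) (hμ i)).2.2.1 p.1 p.2 j (SL_pos hp) hj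
  have hv : 0 ≤ vv (μ i) p.1 p.2 := Real.sqrt_nonneg _
  have h3 : C * vv (μ i) p.1 p.2 / p.1 ^ j ≤ C * vv (μ i) p.1 p.2 * 4 ^ N := by
    rw [div_eq_mul_inv]
    refine mul_le_mul_of_nonneg_left ?_ (by positivity)
    rw [← inv_pow]
    have h4 : p.1⁻¹ ≤ 4 := by
      have := inv_anti₀ (show (0 : ℝ) < 1 / 4 by norm_num) hp.1.le
      simpa using this
    exact (pow_le_pow_left₀ (inv_nonneg.mpr (SL_pos hp).le) h4 j).trans
      (pow_le_pow_right₀ (by norm_num) hj)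
  calc _ ≤ C * vv (μ i) p.1 p.2 / p.1 ^ j := h2
    _ ≤ C * vv (μ i) p.1 p.2 * 4 ^ N := h3
    _ = _ := by unfold vf; ring

theorem vf_pos (h : StmtTH) (hd : 2 ≤ d) {C' : ℝ} (hC' : 0 < C') {μ : ι → Measure (Sp d)}
    (hμ : ∀ i, Gro C' (μ i)) (i : ι) (p : ℝ × Sp d) (hp : p ∈ SL d) : 0 < vf μ i p :=
  vv_pos h hd hC' (hμ i) (SL_pos hp) p.2

/-! ## derivatives of v -/

/-- first derivatives of v -/
def pd (μ : ι → Measure (Sp d)) (e : ι → ℝ × Sp d) (i : ι) (p : ℝ × Sp d) : ℝ :=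
  fderiv ℝ (vf μ i) p (e i)

/-- second derivatives of v -/
def wpd2 (μ : ι → Measure (Sp d)) (e e' : ι → ℝ × Sp d) (i : ι) (p : ℝ × Sp d) : ℝ :=
  fderiv ℝ (fderiv ℝ (vf μ i)) p (e i) (e' i)

section der

variable (h : StmtTH) (hd : 2 ≤ d) {C' : ℝ} (hC' : 0 < C') {μ : ι → Measure (Sp d)}
    (hμ : ∀ i, Gro C' (μ i)) (N : ℕ)

include h hd hC' hμ

theorem pd_bd {e : ι → ℝ × Sp d} (he : ∀ i, ‖e i‖ ≤ 1) : BdN N (SL d) (vf μ) (pd μ e) := by
  have h1 := (vf_bd h hd hC' hμ (N + 1)).D isOpen_SL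
  exact h1.clm isOpen_SL (fun i => ContinuousLinearMap.apply ℝ ℝ (e i)) (B := 1) (fun i => by
    refine ContinuousLinearMap.opNorm_le_bound _ zero_le_one fun φ => ?_
    rw [ContinuousLinearMap.apply_apply, one_mul]
    exact (φ.le_opNorm _).trans (by nlinarith [he i, norm_nonneg φ]))

theorem wpd2_bd {e e' : ι → ℝ × Sp d} (he : ∀ i, ‖e i‖ ≤ 1) (he' : ∀ i, ‖e' i‖ ≤ 1) :
    BdN N (SL d) (vf μ) (wpd2 μ e e') := by
  have h1 := ((vf_bd h hd hC' hμ (N + 1 + 1)).D isOpen_SL).D isOpen_SL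
  have h2 := h1.clm isOpen_SL (fun i => ContinuousLinearMap.apply ℝ _ (e i)) (B := 1) (fun i => by
    refine ContinuousLinearMap.opNorm_le_bound _ zero_le_one fun φ => ?_
    rw [ContinuousLinearMap.apply_apply, one_mul]
    exact (φ.le_opNorm _).trans (by nlinarith [he i, norm_nonneg φ]))
  exact h2.clm isOpen_SL (fun i => ContinuousLinearMap.apply ℝ ℝ (e' i)) (B := 1) (fun i => by
    refine ContinuousLinearMap.opNorm_le_bound _ zero_le_one fun φ => ?_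
    rw [ContinuousLinearMap.apply_apply, one_mul]
    exact (φ.le_opNorm _).trans (by nlinarith [he' i, norm_nonneg φ]))

theorem dtv_eq (i : ι) {p : ℝ × Sp d} (hp : p ∈ SL d) :
    dtv (μ i) p.1 p.2 = pd μ (fun _ => (1, 0)) i p := by
  have h1 : DifferentiableAt ℝ (vf μ i) p :=
    (((vf_bd h hd hC' hμ 0).smooth i).contDiffAt (isOpen_SL.mem_nhds hp)).differentiableAt
      (by norm_num)
  have h2 : HasDerivAt (fun s : ℝ => (s, p.2)) ((1 : ℝ), (0 : Sp d)) p.1 :=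
    (hasDerivAt_id p.1).prodMk (hasDerivAt_const p.1 p.2)
  have h4 : HasFDerivAt (vf μ i) (fderiv ℝ (vf μ i) p) ((fun s : ℝ => (s, p.2)) p.1) :=
    h1.hasFDerivAt
  have h3 := h4.comp_hasDerivAt p.1 h2
  exact h3.deriv

theorem fderiv_vv (i : ι) {p : ℝ × Sp d} (hp : p ∈ SL d) :
    HasFDerivAt (vv (μ i) p.1)
      ((fderiv ℝ (vf μ i) p).comp (ContinuousLinearMap.inr ℝ ℝ (Sp d))) p.2 := by
  have h1 : DifferentiableAt ℝ (vf μ i) p :=
    (((vf_bd h hd hC' hμ 0).smooth i).contDiffAt (isOpen_SL.mem_nhds hp)).differentiableAt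
      (by norm_num)
  have h2 : HasFDerivAt (fun y : Sp d => (p.1, y)) (ContinuousLinearMap.inr ℝ ℝ (Sp d)) p.2 :=
    hasFDerivAt_prodMk_right p.1 p.2
  exact h1.hasFDerivAt.comp p.2 h2

theorem inner_grad (i : ι) {p : ℝ × Sp d} (hp : p ∈ SL d) (w : Sp d) :
    ⟪gradient (vv (μ i) p.1) p.2, w⟫_ℝ = fderiv ℝ (vf μ i) p (0, w) := by
  have h1 := fderiv_vv h hd hC' hμ i hp
  rw [inner_gradient_left, h1.fderiv]
  simp

theorem lap_eq (i : ι) {p : ℝ × Sp d} (hp : p ∈ SL d) :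
    lap (vv (μ i) p.1) p.2 =
      ∑ j : Fin d, wpd2 μ (fun _ => (0, EuclideanSpace.single j (1 : ℝ)))
        (fun _ => (0, EuclideanSpace.single j (1 : ℝ))) i p := by
  unfold lap
  refine Finset.sum_congr rfl fun j _ => ?_
  rw [iteratedFDeriv_two_apply]
  have h1 : fderiv ℝ (vv (μ i) p.1) =ᶠ[𝓝 p.2] fun y =>
      (fderiv ℝ (vf μ i) (p.1, y)).comp (ContinuousLinearMap.inr ℝ ℝ (Sp d)) := by
    refine Eventually.of_forall fun y => ?_
    exact (fderiv_vv h hd hC' hμ i (p := (p.1, y)) hp).fderiv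
  have h2 : DifferentiableAt ℝ (fderiv ℝ (vf μ i)) p :=
    ((((vf_bd h hd hC' hμ 1).D isOpen_SL).smooth i).contDiffAt
      (isOpen_SL.mem_nhds hp)).differentiableAt (by norm_num)
  have h3 : HasFDerivAt (fun y : Sp d => (p.1, y)) (ContinuousLinearMap.inr ℝ ℝ (Sp d)) p.2 :=
    hasFDerivAt_prodMk_right p.1 p.2
  have h4 : HasFDerivAt (fun y => fderiv ℝ (vf μ i) (p.1, y))
      ((fderiv ℝ (fderiv ℝ (vf μ i)) p).comp (ContinuousLinearMap.inr ℝ ℝ (Sp d))) p.2 :=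
    h2.hasFDerivAt.comp p.2 h3
  have h5 := ((ContinuousLinearMap.compL ℝ (Sp d) (ℝ × Sp d) ℝ).flip
    (ContinuousLinearMap.inr ℝ ℝ (Sp d))).hasFDerivAt.comp p.2 h4
  have h6 : HasFDerivAt (fderiv ℝ (vv (μ i) p.1)) _ p.2 := h5.congr_of_eventuallyEq h1
  rw [h6.fderiv]
  simp [wpd2]

end der

/-! ## kernels -/

/-- kernels dominated by the profile β -/
structure DomK (β K : Sp d → ℝ) : Prop where
  cont : Continuous K
  le : ∀ z, |K z| ≤ β z

theorem DomK.zero {J : ℕ} {M : ℝ} {β K : Sp d → ℝ} (hβ : Kit J M β) (hK : DomK β K) {z : Sp d}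
    (hz : 1 ≤ ‖z‖) : K z = 0 := by
  have h1 := hK.le z
  rw [hβ.prof.supp z hz] at h1
  exact abs_nonpos_iff.mp h1

theorem DomK.hcs {J : ℕ} {M : ℝ} {β K : Sp d → ℝ} (hβ : Kit J M β) (hK : DomK β K) :
    HasCompactSupport K :=
  HasCompactSupport.intro (isCompact_closedBall (0 : Sp d) 1) (fun z hz => hK.zero hβ (by
    have : 1 < ‖z‖ := by simpa using hz
    exact this.le))

theorem DomK.integrable {J : ℕ} {M : ℝ} {β K : Sp d → ℝ} (hβ : Kit J M β) (hK : DomK β K) :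
    Integrable K := hK.cont.integrable_of_hasCompactSupport (hK.hcs hβ)

theorem domK_self {J : ℕ} {M : ℝ} {β : Sp d → ℝ} (hβ : Kit J M β) : DomK β β where
  cont := hβ.prof.smooth.continuous
  le := fun z => by rw [abs_of_nonneg (hβ.prof.nonneg z)]

theorem DomK.int_le {J : ℕ} {M : ℝ} {β K : Sp d → ℝ} (hβ : Kit J M β) (hK : DomK β K) :
    ∫ z, |K z| ≤ 1 := by
  rw [← hβ.prof.int]
  exact integral_mono (hK.integrable hβ).abs ((domK_self hβ).integrable hβ) hK.le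

theorem domK_Bp {J : ℕ} {M : ℝ} {β : Sp d → ℝ} (hβ : Kit J M β) : DomK β (Bp β) where
  cont := hβ.smooth1.continuous
  le := fun z => by rw [abs_of_nonneg (hβ.nonneg1 z)]; exact hβ.le1 z

theorem domK_Bpp {J : ℕ} {M : ℝ} {β : Sp d → ℝ} (hβ : Kit J M β) : DomK β (Bp (Bp β)) where
  cont := hβ.smooth2.continuous
  le := fun z => by rw [abs_of_nonneg (hβ.nonneg2 z)]; exact (hβ.le2 z).trans (hβ.le1 z)

theorem domK_mul {J : ℕ} {M : ℝ} {β K : Sp d → ℝ} (hβ : Kit J M β) (hK : DomK β K)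
    {φ : Sp d → ℝ} (hφ : Continuous φ) (hφ1 : ∀ z, ‖z‖ ≤ 1 → |φ z| ≤ 1) :
    DomK β (fun z => K z * φ z) where
  cont := hK.cont.mul hφ
  le := fun z => by
    rw [abs_mul]
    by_cases hz : ‖z‖ ≤ 1
    · have h1 := hK.le z
      have h2 := hφ1 z hz
      nlinarith [abs_nonneg (K z), abs_nonneg (φ z)]
    · rw [hK.zero hβ (not_le.mp hz).le]
      simpa using hβ.prof.nonneg z

section avg

variable {J : ℕ} {M : ℝ} {ε : ℝ}

theorem avg_int {β K : Sp d → ℝ} (hβ : Kit J M β) (hK : DomK β K) {f : ℝ × Sp d → ℝ}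
    (hf : ContDiffOn ℝ ∞ f (SL d)) {p : ℝ × Sp d} (hp : p ∈ SL d) (ε : ℝ) :
    Integrable (fun z => K z * f (p.1, p.2 + (ε * p.1) • z)) := by
  have hc : Continuous (fun z => f (p.1, p.2 + (ε * p.1) • z)) := by
    rw [← continuousOn_univ]
    exact hf.continuousOn.comp (f := fun z : Sp d => (p.1, p.2 + (ε * p.1) • z)) (by fun_prop)
      (fun z _ => hp)
  exact (hK.cont.mul hc).integrable_of_hasCompactSupport ((hK.hcs hβ).mul_right)

theorem avg_bd (h : StmtTH) (hd : 2 ≤ d) {C' : ℝ} (hC' : 0 < C') {μ : ι → Measure (Sp d)}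
    (hμ : ∀ i, Gro C' (μ i)) {N : ℕ} (hε0 : 0 < ε) (hε : ε ≤ 1) {β K : ι → Sp d → ℝ}
    (hβ : ∀ i, Kit J M (β i)) (hK : ∀ i, DomK (β i) (K i)) {f : ι → ℝ × Sp d → ℝ}
    (hf : BdN N (SL d) (vf μ) f) :
    BdN N (SL d) (vf μ) (fun i p => ∫ z, K i z * f i (p.1, p.2 + (ε * p.1) • z)) :=
  hf.avg ε (fun i => (hK i).integrable (hβ i)) (fun i z hz => (hK i).zero (hβ i) hz.le)
    (B := 1) (fun i => (hK i).int_le (hβ i)) (H := 2 ^ d) (by positivity)
    (fun i _ hp _ hz => vv_harnack h hd hC' (hμ i) (SL_pos hp) _ hε0 hε hz)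

end avg

theorem wa_tau_cont (t : ℝ) : Continuous (tau t) := by
  unfold tau
  fun_prop

theorem tau_nonneg (t r : ℝ) : 0 ≤ tau t r := le_max_left _ _

theorem time_bd (h : StmtTH) (hd : 2 ≤ d) {C' : ℝ} (hC' : 0 < C') {μ : ι → Measure (Sp d)}
    (hμ : ∀ i, Gro C' (μ i)) {N : ℕ} {f : ι → ℝ × Sp d → ℝ} (hf : BdN N (SL d) (vf μ) f) :
    BdN N univ (fun i y => vv (μ i) 1 y)
      (fun i y => ∫ r in (1 / 2 : ℝ)..2, tau 1 r * f i (r, y)) := by
  obtain ⟨H, hH0, hH⟩ := vv_time h hd hC'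
  exact hf.time (α := 1 / 2) (γ := 2) (by norm_num) (by norm_num) (by norm_num) (wa_tau_cont 1) hH0
    (fun i t y h1 h2 => hH (μ i) (hμ i) t y h1 h2)

theorem mem_SL_of {r : ℝ} (h1 : 1 / 2 ≤ r) (h2 : r ≤ 2) (y : Sp d) : (r, y) ∈ SL d :=
  ⟨by linarith, by linarith⟩

/-- time averages only depend on the values in the slab -/
theorem tav_eq {F : ℝ → Sp d → ℝ} {f : ℝ × Sp d → ℝ} (hf : ∀ p ∈ SL d, F p.1 p.2 = f p)
    (y : Sp d) : tav F 1 y = ∫ r in (1 / 2 : ℝ)..2, tau 1 r * f (r, y) := by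
  unfold tav
  rw [mul_one]
  refine intervalIntegral.integral_congr fun r hr => ?_
  rw [uIcc_of_le (by norm_num)] at hr
  rw [← hf (r, y) (mem_SL_of hr.1 hr.2 y)]

/-! ## W and G -/

/-- the coordinate t -/
theorem t_bd (N : ℕ) : BdN N (SL d) (fun (_ : ι) p => p.1) (fun _ p => p.1) := by
  refine BdN.lin isOpen_SL (fun _ => ContinuousLinearMap.fst ℝ ℝ (Sp d)) (B := 4) (by norm_num)
    (fun i p hp => (SL_pos hp).le) (fun i p hp => ?_) (fun i p hp => ?_)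
  · have := SL_pos hp
    simp only [ContinuousLinearMap.coe_fst', Real.norm_eq_abs, abs_of_pos this]
    linarith
  · have := hp.1
    linarith [ContinuousLinearMap.norm_fst_le ℝ ℝ (Sp d)]

theorem t_bd1 (N : ℕ) : BdN N (SL d) (fun (_ : ι) _ => 1) (fun _ p => p.1) :=
  (t_bd N).mono (B := 4) (by norm_num) (fun i p hp => by linarith [hp.2])

section WG

variable (h : StmtTH) (hd : 2 ≤ d) {C' : ℝ} (hC' : 0 < C') {μ : ι → Measure (Sp d)}
    (hμ : ∀ i, Gro C' (μ i)) (N : ℕ) {J : ℕ} {M ε : ℝ} (hε0 : 0 < ε) (hε : ε ≤ 1)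
    {β : ι → Sp d → ℝ} (hβ : ∀ i, Kit J M (β i)) {n : ι → Sp d} (hn : ∀ i, ‖n i‖ = 1)

include h hd hC' hμ

theorem one_mul_bd {N : ℕ} {f g : ι → ℝ × Sp d → ℝ}
    (hf : BdN N (SL d) (fun (_ : ι) _ => 1) f)
    (hg : BdN N (SL d) (vf μ) g) : BdN N (SL d) (vf μ) (fun i p => f i p * g i p) :=
  (hf.mul isOpen_SL hg).mono (B := 1) zero_le_one (fun i p hp => by simp)

/-- the Laplacian of v -/
def lv (μ : ι → Measure (Sp d)) (i : ι) (p : ℝ × Sp d) : ℝ :=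
  ∑ j : Fin d, wpd2 μ (fun _ => (0, EuclideanSpace.single j (1 : ℝ)))
        (fun _ => (0, EuclideanSpace.single j (1 : ℝ))) i p

omit h hd hC' hμ in
theorem norm_e (j : Fin d) : ‖((0 : ℝ), (EuclideanSpace.single j (1 : ℝ) : Sp d))‖ ≤ 1 := by
  simp [Prod.norm_def]

theorem lv_bd : BdN N (SL d) (vf μ) (lv μ) :=
  BdN.sum isOpen_SL Finset.univ (fun i p hp => (vf_pos h hd hC' hμ i p hp).le)
    (fun j _ => wpd2_bd h hd hC' hμ N (fun _ => norm_e j) (fun _ => norm_e j))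

include hε0 hε hβ

/-- the family w -/
theorem wv_bd : BdN N (SL d) (vf μ) (fun i p => wv (β i) ε (μ i) p.1 p.2) :=
  avg_bd h hd hC' hμ hε0 hε hβ (fun i => domK_self (hβ i)) (vf_bd h hd hC' hμ N)

/-- the family wt -/
theorem wt_bd : BdN N (SL d) (vf μ) (fun i p => wt (β i) ε (μ i) p.1 p.2) := by
  have hf1 := vf_bd h hd hC' hμ N
  have hf2 : BdN N (SL d) (vf μ) (fun i p => (2 * ε ^ 2) * (p.1 * pd μ (fun _ => (1, 0)) i p)) :=
    (one_mul_bd h hd hC' hμ (t_bd1 N) (pd_bd h hd hC' hμ N (fun _ => by simp [Prod.norm_def]))).const_mul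
      isOpen_SL (fun _ => 2 * ε ^ 2) (fun _ => le_rfl)
  have hf3 : BdN N (SL d) (vf μ) (fun i p => ε ^ 4 * (p.1 * (p.1 * lv μ i p))) :=
    (one_mul_bd h hd hC' hμ (t_bd1 N) (one_mul_bd h hd hC' hμ (t_bd1 N)
      (lv_bd h hd hC' hμ N))).const_mul isOpen_SL (fun _ => ε ^ 4) (fun _ => le_rfl)
  have h1 := avg_bd h hd hC' hμ hε0 hε hβ (fun i => domK_self (hβ i)) hf1
  have h2 := avg_bd h hd hC' hμ hε0 hε hβ (fun i => domK_Bp (hβ i)) hf2
  have h3 := avg_bd h hd hC' hμ hε0 hε hβ (fun i => domK_Bpp (hβ i)) hf3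
  refine ((h1.sub isOpen_SL h2).sub isOpen_SL h3).congr isOpen_SL (fun i p hp => ?_)
  have i1 := avg_int (hβ i) (domK_self (hβ i)) (hf1.smooth i) hp ε
  have i2 := avg_int (hβ i) (domK_Bp (hβ i)) (hf2.smooth i) hp ε
  have i3 := avg_int (hβ i) (domK_Bpp (hβ i)) (hf3.smooth i) hp ε
  have i12 := i1.sub i2
  simp only [Pi.sub_def] at i12
  rw [← integral_sub i1 i2, ← integral_sub i12 i3]
  unfold wt
  refine integral_congr_ae (Eventually.of_forall fun z => ?_)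
  have hz : ((p.1, p.2 + (ε * p.1) • z) : ℝ × Sp d) ∈ SL d := hp
  have e1 := dtv_eq h hd hC' hμ i hz
  have e2 := lap_eq h hd hC' hμ i hz
  simp only at e1 e2 ⊢
  rw [e1, e2]
  unfold lv vf
  simp only
  ring

/-- G at scale one -/
theorem GG_bd : BdN N univ (fun i y => vv (μ i) 1 y) (fun i => GG (β i) ε (μ i) 1) := by
  obtain ⟨H, hH0, hH⟩ := vv_time h hd hC'
  have h0 := wv_bd h hd hC' hμ N hε0 hε hβ
  have h1 := h0.slice (t := 1) (by norm_num) (by norm_num)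
  have h2 := (h0.slice (t := 1 / 2) (by norm_num) (by norm_num)).mono
    (w' := fun i y => vv (μ i) 1 y) hH0 (fun i y _ => hH (μ i) (hμ i) (1 / 2) y le_rfl (by norm_num))
  have h3 := (h0.slice (t := 2) (by norm_num) (by norm_num)).mono
    (w' := fun i y => vv (μ i) 1 y) hH0 (fun i y _ => hH (μ i) (hμ i) 2 y (by norm_num) le_rfl)
  have h4 := (h1.sub isOpen_univ (h2.const_mul isOpen_univ (fun _ => 2 / 3) (fun _ => le_rfl))).sub
    isOpen_univ (h3.const_mul isOpen_univ (fun _ => 1 / 3) (fun _ => le_rfl))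
  refine h4.congr isOpen_univ (fun i y _ => ?_)
  simp only [GG, mul_one]

/-- W at scale one -/
theorem WW_bd : BdN N univ (fun i y => vv (μ i) 1 y) (fun i => WW (β i) ε (μ i) 1) := by
  refine (time_bd h hd hC' hμ (wt_bd h hd hC' hμ N hε0 hε hβ)).congr isOpen_univ
    (fun i y _ => ?_)
  simp only [WW, mul_one]

include hn

/-- the tangential energy density -/
theorem X1_bd : BdN N (SL d) (vf μ) (fun i p => X1 (β i) ε (μ i) (n i) p.1 p.2) := by
  have hpos := vf_pos h hd hC' hμ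
  have hv := vf_bd h hd hC' hμ N
  have hn1 : ∀ i, ‖((0 : ℝ), n i)‖ ≤ 1 := fun i => by simp [Prod.norm_def, hn i]
  have he : ∀ j : Fin d, BdN N (SL d) (fun i p => vf μ i p * vf μ i p) (fun i p =>
      pd μ (fun _ => (0, EuclideanSpace.single j (1 : ℝ))) i p *
      pd μ (fun _ => (0, EuclideanSpace.single j (1 : ℝ))) i p) := fun j =>
    (pd_bd h hd hC' hμ N (fun _ => norm_e j)).mul isOpen_SL
      (pd_bd h hd hC' hμ N (fun _ => norm_e j))
  have hs := BdN.sum isOpen_SL Finset.univ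
    (fun i p hp => mul_nonneg (hpos i p hp).le (hpos i p hp).le) (fun j _ => he j)
  have hnn := (pd_bd h hd hC' hμ N hn1).mul isOpen_SL (pd_bd h hd hC' hμ N hn1)
  have hf := ((hs.sub isOpen_SL hnn).div isOpen_SL hpos hv).mono (w' := vf μ) (B := 1) zero_le_one
    (fun i p hp => by
      have := hpos i p hp
      apply le_of_eq
      field_simp)
  refine (avg_bd h hd hC' hμ hε0 hε hβ (fun i => domK_self (hβ i)) hf).congr isOpen_SL
    (fun i p hp => ?_)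
  unfold X1
  refine integral_congr_ae (Eventually.of_forall fun z => ?_)
  have hz : ((p.1, p.2 + (ε * p.1) • z) : ℝ × Sp d) ∈ SL d := hp
  have e1 := inner_grad h hd hC' hμ i hz
  simp only at e1 ⊢
  set g := gradient (vv (μ i) p.1) (p.2 + (ε * p.1) • z) with hg
  have e2 : ‖tang (n i) g‖ ^ 2 = ‖g‖ ^ 2 - ⟪g, n i⟫_ℝ ^ 2 := by
    unfold tang
    rw [norm_sub_sq_real, norm_smul, inner_smul_right, real_inner_comm (n i) g, mul_pow, hn i,
      Real.norm_eq_abs, sq_abs]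
    ring
  have e3 : ‖g‖ ^ 2 = ∑ j : Fin d, ⟪g, EuclideanSpace.single j (1 : ℝ)⟫_ℝ ^ 2 := by
    rw [EuclideanSpace.norm_sq_eq]
    refine Finset.sum_congr rfl fun j _ => ?_
    rw [EuclideanSpace.inner_single_right]
    simp
  rw [e2, e3]
  simp only [e1]
  unfold pd vf
  simp only [pow_two]

/-- the ray derivative energy density -/
theorem X3_bd : BdN N (SL d) (vf μ) (fun i p => X3 (β i) ε (μ i) (n i) p.1 p.2) := by
  have hpos := vf_pos h hd hC' hμ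
  have hv := vf_bd h hd hC' hμ N
  have hn1 : ∀ i, ‖((0 : ℝ), n i)‖ ≤ 1 := fun i => by simp [Prod.norm_def, hn i]
  have ht1 : ∀ _ : ι, ‖((1 : ℝ), (0 : Sp d))‖ ≤ 1 := fun i => by simp [Prod.norm_def]
  have hT := pd_bd h hd hC' hμ N ht1
  have hN := pd_bd h hd hC' hμ N hn1
  have hw : ∀ i, ∀ p ∈ SL d, vf μ i p * vf μ i p / vf μ i p ≤ 1 * vf μ i p := fun i p hp => by
      have := hpos i p hp
      apply le_of_eq
      field_simp
  have f1 := (((hT.mul isOpen_SL hT)).div isOpen_SL hpos hv).mono (w' := vf μ) zero_le_one hw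
  have f2 := ((((hT.mul isOpen_SL hN)).div isOpen_SL hpos hv).mono (w' := vf μ) zero_le_one
    hw).const_mul isOpen_SL (fun _ => 2 * ε) (fun _ => le_rfl)
  have f3 := ((((hN.mul isOpen_SL hN)).div isOpen_SL hpos hv).mono (w' := vf μ) zero_le_one
    hw).const_mul isOpen_SL (fun _ => ε ^ 2) (fun _ => le_rfl)
  have k1 : ∀ i, DomK (β i) (β i) := fun i => domK_self (hβ i)
  have hin : ∀ i, ∀ z : Sp d, ‖z‖ ≤ 1 → |⟪z, n i⟫_ℝ| ≤ 1 := fun i z hz => by
    refine (abs_real_inner_le_norm _ _).trans ?_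
    rw [hn i, mul_one]
    exact hz
  have k2 : ∀ i, DomK (β i) (fun z => β i z * ⟪z, n i⟫_ℝ) := fun i =>
    domK_mul (hβ i) (k1 i) (by fun_prop) (hin i)
  have k3 : ∀ i, DomK (β i) (fun z => β i z * ⟪z, n i⟫_ℝ * ⟪z, n i⟫_ℝ) := fun i =>
    domK_mul (hβ i) (k2 i) (by fun_prop) (hin i)
  have a1 := avg_bd h hd hC' hμ hε0 hε hβ k1 f1
  have a2 := avg_bd h hd hC' hμ hε0 hε hβ k2 f2
  have a3 := avg_bd h hd hC' hμ hε0 hε hβ k3 f3
  refine ((a1.add isOpen_SL a2).add isOpen_SL a3).congr isOpen_SL (fun i p hp => ?_)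
  have i1 := avg_int (hβ i) (k1 i) (f1.smooth i) hp ε
  have i2 := avg_int (hβ i) (k2 i) (f2.smooth i) hp ε
  have i3 := avg_int (hβ i) (k3 i) (f3.smooth i) hp ε
  have i12 := i1.add i2
  simp only [Pi.add_def] at i12
  rw [← integral_add i1 i2, ← integral_add i12 i3]
  unfold X3
  refine integral_congr_ae (Eventually.of_forall fun z => ?_)
  have hz : ((p.1, p.2 + (ε * p.1) • z) : ℝ × Sp d) ∈ SL d := hp
  have e1 := inner_grad h hd hC' hμ i hz
  have e2 := dtv_eq h hd hC' hμ i hz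
  simp only at e1 e2 ⊢
  rw [e1, e2]
  have := hpos i _ hz
  unfold pd
  unfold vf at this ⊢
  simp only at this ⊢
  field_simp
  ring

end WG

/-! ## the kernel of X2 -/

/-- t² + |x|² -/
def rho (p : ℝ × Sp d) : ℝ := p.1 ^ 2 + ‖p.2‖ ^ 2

theorem rho_pos {p : ℝ × Sp d} (hp : p ∈ SL d) : 0 < rho p := by
  have := SL_pos hp
  unfold rho
  positivity

theorem fst_le_sqrt (p : ℝ × Sp d) : p.1 ≤ Real.sqrt (rho p) :=
  Real.le_sqrt_of_sq_le (by unfold rho; nlinarith [norm_nonneg p.2])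

theorem snd_le_sqrt (p : ℝ × Sp d) : ‖p.2‖ ≤ Real.sqrt (rho p) :=
  Real.le_sqrt_of_sq_le (by unfold rho; nlinarith [sq_nonneg p.1])

theorem inn_bd (N : ℕ) (n : ι → Sp d) (hn : ∀ i, ‖n i‖ ≤ 1) :
    BdN N (SL d) (fun (_ : ι) p => Real.sqrt (rho p)) (fun i p => ⟪n i, p.2⟫_ℝ) := by
  refine BdN.lin isOpen_SL (fun i => (innerSL ℝ (n i)).comp (ContinuousLinearMap.snd ℝ ℝ (Sp d)))
    (B := 4) (by norm_num) (fun i p hp => Real.sqrt_nonneg _) (fun i p hp => ?_)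
    (fun i p hp => ?_)
  · have h1 := snd_le_sqrt p
    have h2 : ‖⟪n i, p.2⟫_ℝ‖ ≤ ‖n i‖ * ‖p.2‖ := norm_inner_le_norm _ _
    have h3 : ‖n i‖ * ‖p.2‖ ≤ 1 * ‖p.2‖ := mul_le_mul_of_nonneg_right (hn i) (norm_nonneg _)
    simp only [ContinuousLinearMap.comp_apply, ContinuousLinearMap.coe_snd', innerSL_apply_apply]
    linarith [Real.sqrt_nonneg (rho p)]
  · have h1 : (1 : ℝ) / 4 < Real.sqrt (rho p) := hp.1.trans_le (fst_le_sqrt p)
    have h2 : ‖(innerSL ℝ (n i)).comp (ContinuousLinearMap.snd ℝ ℝ (Sp d))‖ ≤ 1 := by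
      refine (ContinuousLinearMap.opNorm_comp_le _ _).trans ?_
      rw [innerSL_apply_norm]
      have h3 := ContinuousLinearMap.norm_snd_le ℝ ℝ (Sp d)
      nlinarith [hn i, norm_nonneg (n i), norm_nonneg (ContinuousLinearMap.snd ℝ ℝ (Sp d))]
    linarith

theorem rho_bd (N : ℕ) : BdN N (SL d) (fun (_ : ι) p => rho p) (fun _ p => rho p) := by
  have h1 : BdN N (SL d) (fun (_ : ι) p => Real.sqrt (rho p)) (fun _ p => p.1) :=
    (t_bd N).mono (B := 1) zero_le_one (fun i p hp => by rw [one_mul]; exact fst_le_sqrt p)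
  have h2 := h1.mul isOpen_SL h1
  have h3 := BdN.sum (ι := ι) isOpen_SL Finset.univ
    (fun i p hp => mul_nonneg (Real.sqrt_nonneg (rho p)) (Real.sqrt_nonneg (rho p)))
    (fun (j : Fin d) _ => (inn_bd N (fun (_ : ι) => (EuclideanSpace.single j (1 : ℝ) : Sp d))
      (fun _ => by simp)).mul isOpen_SL
      (inn_bd N (fun (_ : ι) => (EuclideanSpace.single j (1 : ℝ) : Sp d)) (fun _ => by simp)))
  refine ((h2.add isOpen_SL h3).mono (B := 1) (w' := fun (_ : ι) p => rho p) zero_le_one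
    (fun i p hp => ?_)).congr isOpen_SL (fun i p hp => ?_)
  · rw [one_mul, Real.mul_self_sqrt (rho_pos hp).le]
  · unfold rho
    rw [EuclideanSpace.norm_sq_eq, pow_two]
    congr 1
    refine Finset.sum_congr rfl fun j _ => ?_
    rw [EuclideanSpace.inner_single_left]
    simp [pow_two]

theorem kk_eq {p : ℝ × Sp d} (hp : p ∈ SL d) :
    kk p.1 p.2 = p.1 * (rho p ^ (-(1 / 2) : ℝ)) ^ d := by
  unfold kk
  rw [Real.rpow_neg (rho_pos hp).le, ← Real.sqrt_eq_rpow, inv_pow, div_eq_mul_inv]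
  rfl

theorem kk_pos {p : ℝ × Sp d} (hp : p ∈ SL d) : 0 < kk p.1 p.2 := by
  rw [kk_eq hp]
  have h1 := SL_pos hp
  have h2 := Real.rpow_pos_of_pos (rho_pos hp) (-(1 / 2))
  positivity

theorem kk_bd (N : ℕ) : BdN N (SL d) (fun (_ : ι) p => kk p.1 p.2) (fun _ p => kk p.1 p.2) := by
  have h1 := (rho_bd (ι := ι) (d := d) (N + 1)).rpow isOpen_SL (fun i p hp => rho_pos hp)
    (-(1 / 2))
  refine (((t_bd N).mul isOpen_SL (h1.pow isOpen_SL d)).mono (B := 1)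
    (w' := fun (_ : ι) p => kk p.1 p.2) zero_le_one (fun i p hp => ?_)).congr
    isOpen_SL (fun i p hp => ?_)
  · rw [one_mul, kk_eq hp]
  · rw [kk_eq hp]

/-- the kernel of X2 -/
def wqf (n : ι → Sp d) (i : ι) (p : ℝ × Sp d) : ℝ :=
  ⟪n i, p.2⟫_ℝ ^ 2 / (p.1 ^ 2 + ‖p.2‖ ^ 2) ^ 2 * kk p.1 p.2

theorem qf_bd (N : ℕ) (n : ι → Sp d) (hn : ∀ i, ‖n i‖ ≤ 1) :
    BdN N (SL d) (fun (_ : ι) p => kk p.1 p.2) (wqf n) := by
  have h1 := inn_bd N n hn
  have h2 := (rho_bd (ι := ι) (d := d) N).inv isOpen_SL (fun i p hp => rho_pos hp)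
  have h3 := ((h1.pow isOpen_SL 2).mul isOpen_SL (h2.pow isOpen_SL 2)).mul isOpen_SL (kk_bd N)
  refine (h3.mono (B := 16) (w' := fun (_ : ι) p => kk p.1 p.2) (by norm_num)
    (fun i p hp => ?_)).congr isOpen_SL (fun i p hp => ?_)
  · have h4 := rho_pos hp
    rw [Real.sq_sqrt h4.le]
    have h5 : rho p * (rho p)⁻¹ ^ 2 = (rho p)⁻¹ := by field_simp
    rw [h5]
    refine mul_le_mul_of_nonneg_right ?_ (kk_pos hp).le
    have h6 : (1 : ℝ) / 16 ≤ rho p := by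
      unfold rho
      nlinarith [hp.1, norm_nonneg p.2]
    have := inv_anti₀ (show (0 : ℝ) < 1 / 16 by norm_num) h6
    simpa using this
  · unfold wqf rho
    rw [div_eq_mul_inv, inv_pow]

theorem kk_le {p : ℝ × Sp d} (hp : p ∈ SL d) : kk p.1 p.2 ≤ 4 * 4 ^ d := by
  rw [kk_eq hp]
  have h1 := SL_pos hp
  have h2 : (1 : ℝ) / 4 ≤ Real.sqrt (rho p) := hp.1.le.trans (fst_le_sqrt p)
  rw [Real.rpow_neg (rho_pos hp).le, ← Real.sqrt_eq_rpow]
  have h3 : (Real.sqrt (rho p))⁻¹ ≤ 4 := by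
    have := inv_anti₀ (show (0 : ℝ) < 1 / 4 by norm_num) h2
    simpa using this
  have h4 : ((Real.sqrt (rho p))⁻¹) ^ d ≤ 4 ^ d := pow_le_pow_left₀ (by positivity) h3 d
  have h5 : p.1 ≤ 4 := hp.2.le
  gcongr

theorem kk_cont {t : ℝ} (ht : 0 < t) : Continuous (kk (d := d) t) := by
  unfold kk
  refine continuous_const.div (by fun_prop) (fun x => ?_)
  positivity

theorem kk_int {μ : Measure (Sp d)} [IsFiniteMeasure μ] {p : ℝ × Sp d} (hp : p ∈ SL d) :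
    Integrable (fun η => kk p.1 (p.2 - η)) μ := by
  refine Integrable.of_bound ((kk_cont (SL_pos hp)).comp
    (by fun_prop : Continuous fun η : Sp d => p.2 - η)).aestronglyMeasurable (4 * 4 ^ d)
    (Eventually.of_forall fun η => ?_)
  have hq : ((p.1, p.2 - η) : ℝ × Sp d) ∈ SL d := hp
  have h1 := kk_le hq
  have h2 := kk_pos hq
  rw [Real.norm_of_nonneg h2.le]
  exact h1

/-- potentials with a kernel bounded by kk -/
theorem pot_bd {C' : ℝ} {μ : ι → Measure (Sp d)} (hμ : ∀ i, Gro C' (μ i)) {N : ℕ}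
    {q : ι → ℝ × Sp d → ℝ}
    (hq : ∀ N', BdN N' (SL d) (fun (_ : ι) p => kk p.1 p.2) q) :
    BdN N (SL d) (fun i p => th (μ i) p.1 p.2)
      (fun i p => ∫ η, q i (p.1, p.2 - η) ∂(μ i)) := by
  have hfin : ∀ i, IsFiniteMeasure (μ i) := fun i => (hμ i).fin
  have hG : ∀ i, ContDiffOn ℝ ∞ (fun r : (ℝ × Sp d) × Sp d => q i (r.1.1, r.1.2 - r.2))
      (SL d ×ˢ univ) := by
    intro i
    refine ((hq 0).smooth i).comp (f := fun r : (ℝ × Sp d) × Sp d => (r.1.1, r.1.2 - r.2))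
      (ContDiff.contDiffOn (by fun_prop)) ?_
    rintro ⟨p, z⟩ ⟨hp, _⟩
    exact hp
  have htr : ∀ i (j : ℕ) (p : ℝ × Sp d) (η : Sp d),
      iteratedFDeriv ℝ j (fun r : ℝ × Sp d => q i (r.1, r.2 - η)) p =
        iteratedFDeriv ℝ j (q i) (p.1, p.2 - η) := by
    intro i j p η
    have h1 : (fun r : ℝ × Sp d => q i (r.1, r.2 - η)) = fun r => q i (r + ((0 : ℝ), -η)) := by
      funext r
      congr 1
      ext <;> simp [sub_eq_add_neg]
    rw [h1, iteratedFDeriv_comp_add_right]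
    congr 1
    ext <;> simp [sub_eq_add_neg]
  have hloc : ∀ i (j : ℕ), ∀ p0 ∈ SL d, ∃ C : ℝ, ∀ᶠ p in 𝓝 p0, ∀ η ∈ (univ : Set (Sp d)),
      ‖iteratedFDeriv ℝ j (fun r : ℝ × Sp d => q i (r.1, r.2 - η)) p‖ ≤ C := by
    intro i j p0 hp0
    obtain ⟨C, hC, h1⟩ := (hq j).bd
    refine ⟨C * (4 * 4 ^ d), ?_⟩
    filter_upwards [isOpen_SL.mem_nhds hp0] with p hp η _
    rw [htr i j p η]
    have hp' : ((p.1, p.2 - η) : ℝ × Sp d) ∈ SL d := hp
    exact (h1 i _ hp' j le_rfl).trans (mul_le_mul_of_nonneg_left (kk_le hp') hC)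
  have hP := fun i => pintK (ν := μ i) (U := SL d) (W := SL d ×ˢ univ) (k := univ)
    (K := fun _ => (1 : ℝ)) isOpen_SL (isOpen_SL.prod isOpen_univ) MeasurableSet.univ
    (fun p hp z _ => ⟨hp, mem_univ _⟩) (by have := hfin i; exact integrable_const _)
    (fun z hz => absurd (mem_univ z) hz) (hG i) (hloc i)
  simp only [one_smul] at hP
  obtain ⟨C, hC, h1⟩ := (hq N).bd
  refine ⟨fun i => (hP i).1, C, hC, fun i p hp j hj => ?_⟩
  have := hfin i
  rw [(hP i).2.2.1 j p hp]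
  have h2 : ∫ η, C * kk p.1 (p.2 - η) ∂(μ i) = C * th (μ i) p.1 p.2 := by
    rw [integral_const_mul]
    rfl
  rw [← h2]
  refine norm_integral_le_of_norm_le ((kk_int hp).const_mul C) (Eventually.of_forall fun η => ?_)
  rw [htr i j p η]
  exact h1 i (p.1, p.2 - η) hp j hj

theorem X2_bd (h : StmtTH) (hd : 2 ≤ d) {C' : ℝ} (hC' : 0 < C') {μ : ι → Measure (Sp d)}
    (hμ : ∀ i, Gro C' (μ i)) (N : ℕ) {n : ι → Sp d} (hn : ∀ i, ‖n i‖ = 1) :
    BdN N (SL d) (vf μ) (fun i p => X2 (μ i) (n i) p.1 p.2) := by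
  have hpos := vf_pos h hd hC' hμ
  have h1 := pot_bd hμ (N := N) (fun N' => qf_bd N' n (fun i => (hn i).le))
  refine ((h1.div isOpen_SL hpos (vf_bd h hd hC' hμ N)).mono (w' := vf μ) (B := 1) zero_le_one
    (fun i p hp => ?_)).congr isOpen_SL (fun i p hp => ?_)
  · have h2 := hpos i p hp
    have h3 : th (μ i) p.1 p.2 = vf μ i p * vf μ i p := by
      obtain ⟨C, hC, h4⟩ := h d 0 hd C' hC'
      unfold vf vv
      rw [Real.mul_self_sqrt ((h4 (μ i) (hμ i)).1 p.1 p.2 (SL_pos hp)).1.le]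
    rw [h3]
    apply le_of_eq
    field_simp
  · unfold X2 wqf vf
    congr 1
    refine integral_congr_ae (Eventually.of_forall fun η => ?_)
    simp only
    rw [real_inner_comm, ← neg_sub, inner_neg_right, neg_sq]

/-! ## Conclusion -/

/-- the index set -/
structure IxW (d J : ℕ) (M C' : ℝ) where
  β : Sp d → ℝ
  μ : Measure (Sp d)
  n : Sp d
  hβ : Kit J M β
  hμ : Gro C' μ
  hn : ‖n‖ = 1

theorem X1_nonneg {J : ℕ} {M : ℝ} {β : Sp d → ℝ} (hβ : Kit J M β) (ε : ℝ) (μ : Measure (Sp d))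
    (n : Sp d) (t : ℝ) (y : Sp d) : 0 ≤ X1 β ε μ n t y :=
  integral_nonneg fun z => mul_nonneg (hβ.prof.nonneg z)
    (div_nonneg (sq_nonneg _) (Real.sqrt_nonneg _))

theorem X3_nonneg {J : ℕ} {M : ℝ} {β : Sp d → ℝ} (hβ : Kit J M β) (ε : ℝ) (μ : Measure (Sp d))
    (n : Sp d) (t : ℝ) (y : Sp d) : 0 ≤ X3 β ε μ n t y :=
  integral_nonneg fun z => mul_nonneg (hβ.prof.nonneg z)
    (div_nonneg (sq_nonneg _) (Real.sqrt_nonneg _))

theorem kk_nonneg {t : ℝ} (ht : 0 ≤ t) (x : Sp d) : 0 ≤ kk t x := by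
  unfold kk
  positivity

theorem X2_nonneg (μ : Measure (Sp d)) (n : Sp d) {t : ℝ} (ht : 0 ≤ t) (y : Sp d) :
    0 ≤ X2 μ n t y :=
  div_nonneg (integral_nonneg fun η => mul_nonneg (by positivity) (kk_nonneg ht _))
    (Real.sqrt_nonneg _)

theorem tav_nonneg {F : ℝ → Sp d → ℝ} (hF : ∀ t y, 0 ≤ t → 0 ≤ F t y) (y : Sp d) :
    0 ≤ tav F 1 y := by
  unfold tav
  refine intervalIntegral.integral_nonneg (by norm_num) fun r hr => ?_
  exact mul_nonneg (tau_nonneg _ _) (hF r y (by linarith [hr.1]))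

theorem stmtWA (h : StmtTH) : StmtWA := by
  intro d J hd M C' ε hC' hε0 hε
  let ι := IxW d (J + 4) M C'
  have hμ : ∀ i : ι, Gro C' i.μ := fun i => i.hμ
  have hβ : ∀ i : ι, Kit (J + 4) M i.β := fun i => i.hβ
  have hn : ∀ i : ι, ‖i.n‖ = 1 := fun i => i.hn
  have b1 := WW_bd h hd hC' hμ J hε0 hε hβ
  have b2 := GG_bd h hd hC' hμ J hε0 hε hβ
  have x1 := time_bd h hd hC' hμ (X1_bd h hd hC' hμ J hε0 hε hβ hn)
  have x2 := time_bd h hd hC' hμ (X2_bd h hd hC' hμ J hn)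
  have x3 := time_bd h hd hC' hμ (X3_bd h hd hC' hμ J hε0 hε hβ hn)
  have b3 : BdN J univ (fun (i : ι) y => vv i.μ 1 y) (fun i => X13 i.β ε i.μ i.n 1) := by
    refine (x1.add isOpen_univ x3).congr isOpen_univ (fun i y _ => ?_)
    simp only [X13, tav, mul_one]
  have b4 : BdN J univ (fun (i : ι) y => vv i.μ 1 y) (fun i => XX i.β ε i.μ i.n 1) := by
    refine ((x1.add isOpen_univ x2).add isOpen_univ x3).congr isOpen_univ (fun i y _ => ?_)
    simp only [XX, tav, mul_one]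
  obtain ⟨C1, hC1, h1⟩ := b1.bd
  obtain ⟨C2, hC2, h2⟩ := b2.bd
  obtain ⟨C3, hC3, h3⟩ := b3.bd
  obtain ⟨C4, hC4, h4⟩ := b4.bd
  refine ⟨C1 + C2 + C3 + C4 + 1, by positivity, fun β hβ μ hμ => ?_⟩
  -- a unit vector
  obtain ⟨n0, hn0⟩ : ∃ n : Sp d, ‖n‖ = 1 :=
    ⟨EuclideanSpace.single ⟨0, by omega⟩ (1 : ℝ), by simp⟩
  have hv : ∀ y, 0 ≤ vv μ 1 y := fun y => Real.sqrt_nonneg _
  let i0 : ι := ⟨β, μ, n0, hβ, hμ, hn0⟩
  refine ⟨contDiffOn_univ.mp (b1.smooth i0), contDiffOn_univ.mp (b2.smooth i0),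
    fun j hj y => ?_, fun j hj y => ?_, fun n hn => ?_⟩
  · refine (h1 i0 y (mem_univ _) j hj).trans (mul_le_mul_of_nonneg_right (by linarith) (hv y))
  · refine (h2 i0 y (mem_univ _) j hj).trans (mul_le_mul_of_nonneg_right (by linarith) (hv y))
  · let i : ι := ⟨β, μ, n, hβ, hμ, hn⟩
    refine ⟨(contDiffOn_univ.mp (b4.smooth i)).of_le (by exact_mod_cast le_top), fun y => ?_,
      fun j hj y => ?_, (contDiffOn_univ.mp (b3.smooth i)).of_le (by exact_mod_cast le_top),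
      fun y => ?_, fun j hj y => ?_⟩
    · exact add_nonneg (add_nonneg (tav_nonneg (fun t y _ => X1_nonneg hβ ε μ n t y) y)
        (tav_nonneg (fun t y ht => X2_nonneg μ n ht y) y))
        (tav_nonneg (fun t y _ => X3_nonneg hβ ε μ n t y) y)
    · exact (h4 i y (mem_univ _) j hj).trans (mul_le_mul_of_nonneg_right (by linarith) (hv y))
    · exact add_nonneg (tav_nonneg (fun t y _ => X1_nonneg hβ ε μ n t y) y)
        (tav_nonneg (fun t y _ => X3_nonneg hβ ε μ n t y) y)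
    · exact (h3 i y (mem_univ _) j hj).trans (mul_le_mul_of_nonneg_right (by linarith) (hv y))

end

end TG
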