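import Pool.Agent.TG.Stmts10
import Pool.Agent.TG.WA
import Pool.Agent.TG.SC
import Pool.Agent.TG.GN

/-!
# MODULE FG: a plane far from the near part of the measure has a large gain (helper76)
-/

open MeasureTheory Metric Set TrI
open scoped InnerProductSpace ContDiff

namespace TG

namespace FGm

noncomputable section

variable {d : ℕ}

lemma finrank_perp {n : Sp d} (hn : ‖n‖ = 1) :
    Module.finrank ℝ (Submodule.span ℝ {n})ᗮ = d - 1 := by
  have h0 : n ≠ 0 := by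
    rintro rfl
    simp at hn
  have h1 := Submodule.finrank_add_finrank_orthogonal (Submodule.span ℝ {n})
  rw [finrank_span_singleton h0, finrank_euclideanSpace_fin] at h1
  omega

/-- the volume of the unit ball of a hyperplane -/
def vb (d : ℕ) : ℝ :=
  Real.sqrt Real.pi ^ (d - 1) / Real.Gamma (((d - 1 : ℕ) : ℝ) / 2 + 1)

lemma vb_pos (d : ℕ) : 0 < vb d := by
  unfold vb
  have : 0 < Real.Gamma (((d - 1 : ℕ) : ℝ) / 2 + 1) := Real.Gamma_pos_of_pos (by positivity)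
  positivity

lemma vol_ball {n : Sp d} (hd : 2 ≤ d) (hn : ‖n‖ = 1) :
    (volume (closedBall (0 : (Submodule.span ℝ {n})ᗮ) 1)).toReal = vb d := by
  have hf := finrank_perp hn
  have : Nontrivial (Submodule.span ℝ {n})ᗮ :=
    Module.nontrivial_of_finrank_pos (R := ℝ) (by omega)
  rw [InnerProductSpace.volume_closedBall, hf, ENNReal.toReal_mul, ENNReal.toReal_pow,
    ENNReal.toReal_ofReal zero_le_one, one_pow, one_mul,
    ENNReal.toReal_ofReal (by have := vb_pos d; unfold vb at this; exact this.le)]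
  rfl

/-- lower bound for plane integrals -/
lemma plInt_low {n : Sp d} (hd : 2 ≤ d) (hn : ‖n‖ = 1) (s : ℝ) {F : Sp d → ℝ}
    (hF : Continuous F) (hc : HasCompactSupport F) (h0 : ∀ x, 0 ≤ F x) {m : ℝ}
    (hm : ∀ x, ⟪n, x⟫_ℝ = s → ‖x‖ ≤ |s| + 1 → m ≤ F x) : m * vb d ≤ plInt n s F := by
  have hiso : Topology.IsClosedEmbedding
      (fun y : (Submodule.span ℝ {n})ᗮ => s • n + (y : Sp d)) :=
    Isometry.isClosedEmbedding (Isometry.of_dist_eq fun a b => by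
      rw [dist_add_left]
      rfl)
  have hcont : Continuous (fun y : (Submodule.span ℝ {n})ᗮ => F (s • n + (y : Sp d))) :=
    hF.comp hiso.continuous
  have hcs : HasCompactSupport (fun y : (Submodule.span ℝ {n})ᗮ => F (s • n + (y : Sp d))) :=
    hc.comp_isClosedEmbedding hiso
  have hint : Integrable (fun y : (Submodule.span ℝ {n})ᗮ => F (s • n + (y : Sp d))) :=
    hcont.integrable_of_hasCompactSupport hcs
  unfold plInt
  calc m * vb d = ∫ _y in closedBall (0 : (Submodule.span ℝ {n})ᗮ) 1, m := by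
        rw [setIntegral_const, smul_eq_mul, Measure.real, vol_ball hd hn, mul_comm]
    _ ≤ ∫ y in closedBall (0 : (Submodule.span ℝ {n})ᗮ) 1, F (s • n + (y : Sp d)) := by
        refine setIntegral_mono_on (integrableOn_const measure_closedBall_lt_top.ne)
          hint.integrableOn measurableSet_closedBall fun y hy => hm _ ?_ ?_
        · have h1 : ⟪n, (y : Sp d)⟫_ℝ = 0 :=
            Submodule.mem_orthogonal_singleton_iff_inner_right.1 y.2
          rw [inner_add_right, h1, inner_smul_right, real_inner_self_eq_norm_sq, hn]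
          ring
        · refine (norm_add_le _ _).trans ?_
          rw [norm_smul, hn, mul_one, Real.norm_eq_abs]
          have : ‖y‖ ≤ 1 := by simpa using hy
          have h2 : ‖(y : Sp d)‖ = ‖y‖ := rfl
          rw [h2]
          linarith
    _ ≤ ∫ y : (Submodule.span ℝ {n})ᗮ, F (s • n + (y : Sp d)) :=
        setIntegral_le_integral hint (Filter.Eventually.of_forall fun y => h0 _)

lemma cut_le (r : ℝ) : cut r ≤ 1 := by
  unfold cut
  exact pow_le_one₀ (Real.smoothTransition.nonneg _) (Real.smoothTransition.le_one _)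

lemma cut_nonneg (r : ℝ) : 0 ≤ cut r := sq_nonneg _

lemma cut_zero {r : ℝ} (hr : 1 ≤ r) : cut r = 0 := by
  unfold cut
  rw [Real.smoothTransition.zero_of_nonpos (by linarith)]
  norm_num

lemma cut_cont : Continuous cut := by
  unfold cut
  exact (Real.smoothTransition.continuous.comp (by fun_prop)).pow 2

/-- the integrand of X2 is integrable -/
lemma int_X2 (μ : Measure (Sp d)) [IsFiniteMeasure μ] {n : Sp d} (hn : ‖n‖ = 1) (x : Sp d)
    {t : ℝ} (ht1 : 1 ≤ t) : Integrable (fun η => ⟪η - x, n⟫_ℝ ^ 2 /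
      (t ^ 2 + ‖x - η‖ ^ 2) ^ 2 * kk t (x - η)) μ := by
  have ht0 : 0 < t := by linarith
  refine Integrable.of_bound (C := 1 * (t / t ^ d)) ?_ (Filter.Eventually.of_forall fun η => ?_)
  · refine Continuous.aestronglyMeasurable ?_
    refine Continuous.mul (Continuous.div (by fun_prop) (by fun_prop) ?_)
      (GNaux.kk_meas t ht0 x)
    intro η
    positivity
  · have h1 : 0 ≤ ⟪η - x, n⟫_ℝ ^ 2 / (t ^ 2 + ‖x - η‖ ^ 2) ^ 2 := by positivity
    have h2 := kk_nonneg ht0.le (x - η)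
    rw [Real.norm_of_nonneg (mul_nonneg h1 h2)]
    have h3 : ⟪η - x, n⟫_ℝ ^ 2 ≤ ‖x - η‖ ^ 2 := by
      have h4 := abs_real_inner_le_norm (η - x) n
      rw [hn, mul_one, norm_sub_rev] at h4
      rw [← sq_abs]
      gcongr
    have h5 : ⟪η - x, n⟫_ℝ ^ 2 / (t ^ 2 + ‖x - η‖ ^ 2) ^ 2 ≤ 1 := by
      rw [div_le_one₀ (by positivity)]
      have h6 : (1 : ℝ) ≤ t ^ 2 := one_le_pow₀ ht1
      have h7 : 0 ≤ ‖x - η‖ ^ 2 := sq_nonneg _
      have h8 : 1 ≤ t ^ 2 + ‖x - η‖ ^ 2 := by linarith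
      calc ⟪η - x, n⟫_ℝ ^ 2 ≤ ‖x - η‖ ^ 2 := h3
        _ ≤ t ^ 2 + ‖x - η‖ ^ 2 := by linarith
        _ ≤ (t ^ 2 + ‖x - η‖ ^ 2) ^ 2 := le_self_pow₀ h8 (by norm_num)
    exact mul_le_mul h5 (GNaux.kk_le t ht0 _) h2 (by norm_num)

/-- pointwise comparison with the near part -/
lemma ptw {A Ra Q : ℝ} (hA : 1 ≤ A) (hRa : 0 < Ra)
    (hQ : Q = 256 ^ 2 + (Ra + 1 + (A + d)) ^ 2) {n : Sp d} {s : ℝ} (hn : ‖n‖ = 1)
    (hs : A + d + 1 ≤ |s|) {x y : Sp d} (hy : ‖y‖ ≤ d) (hx : ⟪n, x⟫_ℝ = s) (hxR : ‖x‖ ≤ Ra + 1)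
    {t : ℝ} (ht1 : 64 ≤ t) (ht2 : t ≤ 256) (η : Sp d) :
    1 / Q ^ 2 * (64 / Real.sqrt Q ^ d) * (cut (‖y - η‖ / (A * 1)) * kk 1 (y - η)) ≤
      ⟪η - x, n⟫_ℝ ^ 2 / (t ^ 2 + ‖x - η‖ ^ 2) ^ 2 * kk t (x - η) := by
  have hd0 : (0 : ℝ) ≤ d := Nat.cast_nonneg d
  have hQ0 : 0 < Q := by rw [hQ]; positivity
  have ht0 : 0 < t := by linarith
  by_cases hη : ‖y - η‖ ≤ A
  · have e1 : ‖η‖ ≤ A + d := by
      have : η = y - (y - η) := by abel
      rw [this]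
      exact (norm_sub_le _ _).trans (by linarith)
    have e2 : 1 ≤ |⟪η - x, n⟫_ℝ| := by
      rw [inner_sub_left, real_inner_comm n x, hx]
      have a1 : |⟪η, n⟫_ℝ| ≤ A + d := by
        refine (abs_real_inner_le_norm _ _).trans ?_
        rw [hn, mul_one]
        exact e1
      have a2 := abs_sub_abs_le_abs_sub s ⟪η, n⟫_ℝ
      rw [abs_sub_comm] at a2
      linarith
    have e3 : 1 ≤ ⟪η - x, n⟫_ℝ ^ 2 := by
      rw [← sq_abs]
      exact one_le_pow₀ e2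
    have e4 : ‖x - η‖ ≤ Ra + 1 + (A + d) := (norm_sub_le _ _).trans (by linarith)
    have e5 : t ^ 2 + ‖x - η‖ ^ 2 ≤ Q := by
      rw [hQ]
      gcongr
    have e6 : 1 / Q ^ 2 ≤ ⟪η - x, n⟫_ℝ ^ 2 / (t ^ 2 + ‖x - η‖ ^ 2) ^ 2 := by
      have : 0 < t ^ 2 + ‖x - η‖ ^ 2 := by positivity
      gcongr
    have e7 : 64 / Real.sqrt Q ^ d ≤ kk t (x - η) := by
      unfold kk
      have : 0 < Real.sqrt (t ^ 2 + ‖x - η‖ ^ 2) := Real.sqrt_pos.2 (by positivity)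
      gcongr
    have e8 : cut (‖y - η‖ / (A * 1)) * kk 1 (y - η) ≤ 1 := by
      have a1 : kk 1 (y - η) ≤ 1 := by
        have := GNaux.kk_le 1 one_pos (y - η)
        simpa using this
      exact mul_le_one₀ (cut_le _) (kk_nonneg zero_le_one _) a1
    calc 1 / Q ^ 2 * (64 / Real.sqrt Q ^ d) * (cut (‖y - η‖ / (A * 1)) * kk 1 (y - η)) ≤
        1 / Q ^ 2 * (64 / Real.sqrt Q ^ d) * 1 := by gcongr
      _ = 1 / Q ^ 2 * (64 / Real.sqrt Q ^ d) := by rw [mul_one]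
      _ ≤ _ := mul_le_mul e6 e7 (by positivity) (by positivity)
  · rw [cut_zero, zero_mul, mul_zero]
    · exact mul_nonneg (by positivity) (kk_nonneg ht0.le _)
    · rw [mul_one, le_div_iff₀ (by linarith), one_mul]
      linarith

/-- v at time t and x against v at time 1 and 0 -/
lemma th_up {C Ra : ℝ} {μ : Measure (Sp d)} (hC : 0 < C) (hRa : 0 < Ra)
    (T1 : ∀ (t : ℝ) (x : Sp d), 0 < t → 0 < th μ t x ∧ th μ t x ≤ C)
    (T4 : ∀ (t : ℝ) (x x' : Sp d), 0 < t → th μ t x' ≤ (1 + ‖x - x'‖ / t) ^ d * th μ t x)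
    (T5 : ∀ (s t : ℝ) (x : Sp d), 0 < t → t / 8 ≤ s → s ≤ 8 * t → th μ s x ≤ C * th μ t x)
    {x : Sp d} (hxR : ‖x‖ ≤ Ra + 1) {t : ℝ} (ht1 : 64 ≤ t) (ht2 : t ≤ 256) :
    th μ t x ≤ (1 + (Ra + 1)) ^ d * (C * (C * C)) * th μ 1 0 := by
  have ht0 : 0 < t := by linarith
  have a1 := T4 t 0 x ht0
  rw [zero_sub, norm_neg] at a1
  have a2 : (1 + ‖x‖ / t) ^ d ≤ (1 + (Ra + 1)) ^ d := by
    have : ‖x‖ / t ≤ Ra + 1 := by
      rw [div_le_iff₀ ht0]
      calc ‖x‖ ≤ Ra + 1 := hxR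
        _ = (Ra + 1) * 1 := (mul_one _).symm
        _ ≤ (Ra + 1) * t := by gcongr; linarith
    gcongr
  have b1 : th μ t 0 ≤ C * th μ (t / 8) 0 := T5 t (t / 8) 0 (by positivity) (by linarith)
    (by linarith)
  have b2 : th μ (t / 8) 0 ≤ C * th μ (t / 64) 0 :=
    T5 (t / 8) (t / 64) 0 (by positivity) (by linarith) (by linarith)
  have b3 : th μ (t / 64) 0 ≤ C * th μ 1 0 :=
    T5 (t / 64) 1 0 (by norm_num) (by linarith) (by linarith)
  have hp := (T1 1 0 one_pos).1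
  have b4 : th μ t 0 ≤ C * (C * C) * th μ 1 0 := by
    calc th μ t 0 ≤ C * th μ (t / 8) 0 := b1
      _ ≤ C * (C * th μ (t / 64) 0) := by gcongr
      _ ≤ C * (C * (C * th μ 1 0)) := by gcongr
      _ = _ := by ring
  have hpt := (T1 t 0 ht0).1
  calc th μ t x ≤ (1 + ‖x‖ / t) ^ d * th μ t 0 := a1
    _ ≤ (1 + (Ra + 1)) ^ d * (C * (C * C) * th μ 1 0) := by gcongr
    _ = _ := by ring

/-- pointwise lower bound of X2 -/
lemma X2_low (h : StmtTH) (hd : 2 ≤ d) {C' p0 A Ra : ℝ} (hC' : 0 < C') (hp0 : 0 < p0)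
    (hA : 1 ≤ A) (hRa : 0 < Ra) : ∃ c : ℝ, 0 < c ∧ ∀ μ : Measure (Sp d), Gro C' μ →
      ∀ (n : Sp d) (s : ℝ), ‖n‖ = 1 → A + d + 1 ≤ |s| →
      ∀ y : Sp d, ‖y‖ ≤ d → p0 / 2 ≤ qq A μ 1 y → ∀ x : Sp d, ⟪n, x⟫_ℝ = s → ‖x‖ ≤ Ra + 1 →
      ∀ t : ℝ, 64 ≤ t → t ≤ 256 → c * vv μ 1 0 ≤ X2 μ n t x := by
  obtain ⟨C, hC, hTH⟩ := h d 0 hd C' hC'
  set Q : ℝ := 256 ^ 2 + (Ra + 1 + (A + d)) ^ 2 with hQ
  have hQ0 : 0 < Q := by positivity
  set c1 : ℝ := 1 / Q ^ 2 * (64 / Real.sqrt Q ^ d) with hc1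
  have hc1p : 0 < c1 := by positivity
  set c2 : ℝ := c1 * (p0 / 2 / (1 + d) ^ d) with hc2
  have hc2p : 0 < c2 := by positivity
  set K : ℝ := (1 + (Ra + 1)) ^ d * (C * (C * C)) with hK
  have hKp : 0 < K := by positivity
  refine ⟨c2 / Real.sqrt K, by positivity, ?_⟩
  intro μ hμ n s hn hs y hy hq x hx hxR t ht1 ht2
  obtain ⟨T1, -, -, T4, T5⟩ := hTH μ hμ
  have := hμ.fin
  have ht0 : 0 < t := by linarith
  have hv : th μ t x ≤ K * th μ 1 0 := th_up hC hRa T1 T4 T5 hxR ht1 ht2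
  -- th at y against th at 0
  have hy0 : th μ 1 0 ≤ (1 + d) ^ d * th μ 1 y := by
    have a1 := T4 1 y 0 one_pos
    rw [sub_zero, div_one] at a1
    have hp := (T1 1 y one_pos).1
    refine a1.trans ?_
    gcongr
  -- the numerator
  have hnum : c2 * th μ 1 0 ≤
      ∫ η, ⟪η - x, n⟫_ℝ ^ 2 / (t ^ 2 + ‖x - η‖ ^ 2) ^ 2 * kk t (x - η) ∂μ := by
    have i1 := int_X2 μ hn x (t := t) (by linarith)
    have hq' : p0 / 2 * th μ 1 y ≤ ∫ η, cut (‖y - η‖ / (A * 1)) * kk 1 (y - η) ∂μ := by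
      unfold qq at hq
      exact (le_div_iff₀ (T1 1 y one_pos).1).1 hq
    have hle : c1 * ∫ η, cut (‖y - η‖ / (A * 1)) * kk 1 (y - η) ∂μ ≤
        ∫ η, ⟪η - x, n⟫_ℝ ^ 2 / (t ^ 2 + ‖x - η‖ ^ 2) ^ 2 * kk t (x - η) ∂μ := by
      rw [← integral_const_mul]
      refine integral_mono_of_nonneg (Filter.Eventually.of_forall fun η => ?_) i1
        (Filter.Eventually.of_forall fun η => ?_)
      · exact mul_nonneg hc1p.le (mul_nonneg (cut_nonneg _) (kk_nonneg zero_le_one _))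
      · exact ptw hA hRa hQ hn hs hy hx hxR ht1 ht2 η
    refine le_trans ?_ hle
    calc c2 * th μ 1 0 ≤ c2 * ((1 + d) ^ d * th μ 1 y) := by gcongr
      _ = c1 * (p0 / 2 * th μ 1 y) := by
        rw [hc2]
        field_simp
      _ ≤ _ := by gcongr
  -- conclusion
  have hpos := (T1 1 0 one_pos).1
  have hvx : 0 < vv μ t x := Real.sqrt_pos.2 (T1 t x ht0).1
  have hvv : vv μ t x ≤ Real.sqrt K * vv μ 1 0 := by
    unfold vv
    rw [← Real.sqrt_mul hKp.le]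
    exact Real.sqrt_le_sqrt hv
  have hsq : vv μ 1 0 * vv μ 1 0 = th μ 1 0 := Real.mul_self_sqrt hpos.le
  have hv0 : 0 < vv μ 1 0 := Real.sqrt_pos.2 hpos
  unfold X2
  rw [le_div_iff₀ hvx]
  have hsK : 0 < Real.sqrt K := Real.sqrt_pos.2 hKp
  calc c2 / Real.sqrt K * vv μ 1 0 * vv μ t x ≤
      c2 / Real.sqrt K * vv μ 1 0 * (Real.sqrt K * vv μ 1 0) := by gcongr
    _ = c2 * (vv μ 1 0 * vv μ 1 0) := by field_simp
    _ = c2 * th μ 1 0 := by rw [hsq]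
    _ ≤ _ := hnum

lemma tau_pos {r : ℝ} (h1 : 1 / 2 < r) (h2 : r < 2) : 0 < tau 1 r := by
  unfold tau
  refine lt_max_of_lt_right (lt_min ?_ ?_) <;> linarith

/-- the integral of the tent -/
def ct : ℝ := ∫ r in (1 / 2 : ℝ)..2, tau 1 r

lemma ct_pos : 0 < ct := by
  unfold ct
  refine intervalIntegral.intervalIntegral_pos_of_pos_on
    ((GNaux.tau_cont 1).intervalIntegrable _ _) (fun r hr => tau_pos hr.1 hr.2) (by norm_num)

lemma zR_cont (R : ℝ) : Continuous (zR (d := d) R) := by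
  unfold zR
  exact Real.smoothTransition.continuous.comp (by fun_prop)

lemma zR_nonneg (R : ℝ) (x : Sp d) : 0 ≤ zR R x := Real.smoothTransition.nonneg _

lemma zR_one {R : ℝ} {x : Sp d} (h : ‖x‖ ≤ R) : zR R x = 1 :=
  Real.smoothTransition.one_of_one_le (by linarith)

lemma zR_compact (R : ℝ) : HasCompactSupport (zR (d := d) R) := by
  refine HasCompactSupport.of_support_subset_isCompact (isCompact_closedBall (0 : Sp d) (R + 1)) ?_
  intro x hx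
  rw [mem_closedBall_zero_iff]
  by_contra hcon
  push Not at hcon
  exact hx (Real.smoothTransition.zero_of_nonpos (by linarith))

end

end FGm

open FGm in
/-- MODULE FG -/
theorem stmtFG (h : StmtTH) : StmtFG := by
  intro d hd M C' ε p0 A Ra hC' hε hε4 hp0 hp01 hA hRa
  obtain ⟨c, hc, hlow⟩ := X2_low h hd hC' hp0 hA hRa
  obtain ⟨C1, hC1, hWA⟩ := stmtWA h d 6 hd M C' ε hC' hε (by linarith)
  have hct := ct_pos
  have hvb := vb_pos d
  refine ⟨2 ^ 14 * c * ct * vb d, by positivity, ?_⟩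
  intro β hβ μ hμ n s hn hs1 hs2 ⟨y, hy, hq⟩
  have h128 : (0 : ℝ) < 2 ^ 7 := by positivity
  obtain ⟨hμ', -⟩ := (stmtSC d hd C' hC' 0 (2 ^ 7) h128).1 μ hμ
  obtain ⟨-, -, -, -, hW⟩ := hWA β hβ (rsm 0 (2 ^ 7) μ) hμ'
  obtain ⟨hsm, hnn, -, -, -, -⟩ := hW n hn
  obtain ⟨CT, hCT, hTH⟩ := h d 2 hd C' hC'
  obtain ⟨T1', T2', -, -, -⟩ := hTH (rsm 0 (2 ^ 7) μ) hμ'
  have hv0 : 0 ≤ vv μ 1 0 := Real.sqrt_nonneg _
  have hXX : ∀ x : Sp d, XX β ε μ n (2 ^ 7) x =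
      XX β ε (rsm 0 (2 ^ 7) μ) n 1 ((1 / 2 ^ 7 : ℝ) • x) := by
    intro x
    rw [SC.XX_rsm β ε 0 h128, mul_one, zero_add, smul_smul]
    norm_num
  have hfin := hμ'.fin
  have hlowX : ∀ x : Sp d, ⟪n, x⟫_ℝ = s → ‖x‖ ≤ Ra + 1 →
      2 ^ 14 * c * ct * vv μ 1 0 ≤ XX β ε μ n (2 ^ 7) x := by
    intro x hx hxR
    rw [hXX]
    have e1 : tav (X2 (rsm 0 (2 ^ 7) μ) n) 1 ((1 / 2 ^ 7 : ℝ) • x) ≤
        XX β ε (rsm 0 (2 ^ 7) μ) n 1 ((1 / 2 ^ 7 : ℝ) • x) := by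
      have a1 := tav_nonneg (fun t y _ => X1_nonneg hβ ε (rsm 0 (2 ^ 7) μ) n t y)
        ((1 / 2 ^ 7 : ℝ) • x)
      have a3 := tav_nonneg (fun t y _ => X3_nonneg hβ ε (rsm 0 (2 ^ 7) μ) n t y)
        ((1 / 2 ^ 7 : ℝ) • x)
      unfold XX
      linarith
    refine le_trans ?_ e1
    have hVV : ∀ r ∈ Icc (1 / 2 : ℝ) 2, 2 ^ 14 * (c * vv μ 1 0) ≤
        X2 (rsm 0 (2 ^ 7) μ) n r ((1 / 2 ^ 7 : ℝ) • x) := by
      intro r hr
      rw [SC.X2_rsm 0 h128, zero_add, smul_smul]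
      have e2 : ((2 : ℝ) ^ 7 * (1 / 2 ^ 7)) • x = x := by norm_num
      rw [e2]
      have := hlow μ hμ n s hn hs1 y hy hq x hx hxR (2 ^ 7 * r) (by linarith [hr.1])
        (by linarith [hr.2])
      nlinarith
    unfold tav
    have e3 : 2 ^ 14 * c * ct * vv μ 1 0 =
        ∫ r in (1 / 2 : ℝ)..2, tau 1 r * (2 ^ 14 * (c * vv μ 1 0)) := by
      rw [intervalIntegral.integral_mul_const]
      unfold ct
      ring
    rw [e3, mul_one]
    refine intervalIntegral.integral_mono_on (by norm_num)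
      (((GNaux.tau_cont 1).mul continuous_const).intervalIntegrable _ _) ?_ ?_
    · have hcX := GNaux.cont_X2 (rsm 0 (2 ^ 7) μ) T2'
        (fun t x ht => Real.sqrt_pos.2 (T1' t x ht).1) n ((1 / 2 ^ 7 : ℝ) • x) hn
      refine ContinuousOn.intervalIntegrable ?_
      rw [uIcc_of_le (by norm_num)]
      exact (GNaux.tau_cont 1).continuousOn.mul hcX
    · intro r hr
      exact mul_le_mul_of_nonneg_left (hVV r hr) (GNaux.tau_nonneg _ _)
  have hcXX : Continuous (XX β ε μ n (2 ^ 7)) := by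
    have : XX β ε μ n (2 ^ 7) = fun x => XX β ε (rsm 0 (2 ^ 7) μ) n 1 ((1 / 2 ^ 7 : ℝ) • x) :=
      funext hXX
    rw [this]
    exact hsm.continuous.comp (by fun_prop)
  have hfinal := plInt_low hd hn s (F := fun x => zR (Ra + 1) x * XX β ε μ n (2 ^ 7) x)
    ((zR_cont _).mul hcXX) ((zR_compact _).mul_right)
    (fun x => mul_nonneg (zR_nonneg _ _) (by rw [hXX]; exact hnn _))
    (m := 2 ^ 14 * c * ct * vv μ 1 0) (fun x hx hxs => by
      rw [zR_one (by linarith), one_mul]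
      exact hlowX x hx (by linarith))
  calc 2 ^ 14 * c * ct * vb d * vv μ 1 0 = 2 ^ 14 * c * ct * vv μ 1 0 * vb d := by ring
    _ ≤ _ := hfinal

end TG
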