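import Pool.Agent.TG.FRS
import Pool.Agent.TG.PF
import Pool.Agent.TG.KitMono
import Pool.Agent.TG.TW

/-!
# MODULE FR4: the A/B interface in the frame of a cell  (helper89)
-/

open MeasureTheory Metric Set TrI
open scoped InnerProductSpace ContDiff ENNReal

namespace TG

namespace FR4

open FR

noncomputable section

variable {d : ℕ}

/-! ## Monotonicity -/

lemma sheet_mono {J J' : ℕ} {R ab ep D D' : ℝ} {m : Sp d → ℝ} {n : Sp d} {s : ℝ}
    (h : Sheet J R ab ep D m n s) (hJ : J ≤ J') (hD : D ≤ D') : Sheet J' R ab ep D' m n s where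
  n1 := h.n1
  ab0 := h.ab0
  ep0 := h.ep0
  loc := h.loc
  est := by
    intro ζ ρ N N2 hζ hρ hρR hs hT hN2
    have hT' : TB J n s N ζ := fun j hj => hT j (hj.trans hJ)
    have hN : 0 ≤ N := by
      have h1 := (hT 0 (Nat.zero_le _) Fin.elim0 (fun i => i.elim0) (fun i => i.elim0) (s • n)
        (by rw [inner_smul_right, real_inner_self_eq_norm_sq, h.n1]; ring)).1
      exact (abs_nonneg _).trans h1
    have hN2' : 0 ≤ N2 := (norm_nonneg _).trans (hN2 0)
    have h1 := h.est ζ ρ N N2 (hζ.of_le (by exact_mod_cast (by omega : J + 2 ≤ J' + 2)))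
      hρ hρR hs hT' hN2
    have h2 : (N + N2) * D ≤ (N + N2) * D' := mul_le_mul_of_nonneg_left hD (by linarith)
    linarith

lemma ZP_mono {R R' D D' : ℝ} {m : Sp d → ℝ} (h : ZP R D m) (hR : R' ≤ R) (hD : D ≤ D') :
    ZP R' D' m := by
  intro H h1 h2 h3 h4 h5
  have := h H h1 h2 h3 h4 (fun y hy => h5 y (hR.trans hy))
  linarith

lemma MG_mono {K γ R R' a D D' : ℝ} {m : Sp d → ℝ} (h : MG K γ R a D m) (hR : R' ≤ R)
    (hD : D ≤ D') : MG K γ R' a D' m := by
  intro ρ h1 h2 ζ h3 h4 h5 h6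
  have := h ρ h1 (h2.trans hR) ζ h3 h4 h5 h6
  linarith

/-- near positivity in a larger frame -/
lemma ZP_scale (hd : 1 ≤ d) {R R' D : ℝ} {m : Sp d → ℝ} (h : ZP R D m) (hD : 0 ≤ D) (x : Sp d)
    (l : ℕ) (hx : ‖x‖ + 2 ^ l * R' ≤ R) : ZP R' D (fun y => 2 ^ l * m (x + (2 : ℝ) ^ l • y)) := by
  intro H h1 h2 h3 h4 h5
  set t : ℝ := (2 : ℝ) ^ l with ht
  have ht1 : 1 ≤ t := one_le_pow₀ (by norm_num)
  have ht0 : 0 < t := by linarith
  have hti : t⁻¹ ≠ 0 := by positivity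
  set G : Sp d → ℝ := fun z => H (-(t⁻¹ • x) + t⁻¹ • z) with hG
  have e1 : ∀ y, G (x + t • y) = H y := by
    intro y
    simp only [hG]
    congr 1
    rw [smul_add, smul_smul, inv_mul_cancel₀ ht0.ne', one_smul]
    abel
  have e2 : ∫ y, t * m (x + t • y) * H y = t * (1 / t ^ d * ∫ z, m z * G z) := by
    rw [← SD.int_scale x ht0 (fun z => m z * G z), ← integral_const_mul]
    congr 1
    funext y
    rw [e1]
    ring
  have e3 : -D ≤ ∫ z, m z * G z := by
    refine h G ?_ (fun y => h2 _) (fun y => h3 _) (fun y => ?_) (fun y hy => ?_)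
    · exact h1.comp (by fun_prop)
    · rw [hG, TU.itF_aff_norm 2 H (-(t⁻¹ • x)) t⁻¹ hti y]
      have h6 : |t⁻¹| ^ 2 ≤ 1 := by
        rw [abs_of_pos (by positivity)]
        exact pow_le_one₀ (by positivity) (inv_le_one_of_one_le₀ ht1)
      exact mul_le_one₀ h6 (norm_nonneg _) (h4 _)
    · refine h5 _ ?_
      have h6 : -(t⁻¹ • x) + t⁻¹ • y = t⁻¹ • (y - x) := by
        rw [smul_sub]
        abel
      rw [h6, norm_smul, Real.norm_of_nonneg (by positivity), le_inv_mul_iff₀ ht0]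
      have := norm_sub_norm_le y x
      linarith
  rw [e2, ← mul_assoc]
  have e4 : t * (1 / t ^ d) ≤ 1 := by
    rw [mul_one_div, div_le_one (by positivity)]
    exact le_self_pow₀ ht1 (by omega)
  have e5 : 0 ≤ t * (1 / t ^ d) := by positivity
  nlinarith

/-- off-sheet masses of two radii -/
lemma blc_le {r R : ℝ} (hr : 0 < r) (hrR : r ≤ R) : ∃ K : ℝ, 0 < K ∧
    ∀ (m : Sp d → ℝ) (n : Sp d) (s D : ℝ),
    Continuous m → ‖n‖ = 1 → |s| ≤ 3 / 2 * R → ZP (R + 1) D m →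
      blc n s m r ≤ blc n s m R + K * D := by
  have hR : 0 < R := by linarith
  have hφs : ContDiff ℝ ∞ (fun y : Sp d => zR R y - zR r y) :=
    (TU.zR_smooth hR).sub (TU.zR_smooth hr)
  have hφc : HasCompactSupport (fun y : Sp d => zR R y - zR r y) :=
    (TU.zR_cs R).sub (TU.zR_cs r)
  obtain ⟨N, hN, hφ⟩ := TU.TFn_of_cs (J := 2) (contDiff_infty.1 hφs 2) hφc
  refine ⟨4 ^ 2 * N * max 1 (R + 1 + 3 / 2 * R) ^ 2, by positivity, ?_⟩
  intro m n s D hm hn hs hZ
  have h1 : ∀ y : Sp d, R + 1 < ‖y‖ → zR R y - zR r y = 0 := fun y hy => by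
    rw [TU.zR_zero hy.le, TU.zR_zero (by linarith), sub_zero]
  have h2 := TU.TFn_ht_sq hφ h1 hn hs
  have h3 := GSAux.ZP' hZ h2 (fun y => by
    refine mul_nonneg ?_ (sq_nonneg _)
    have : zR r y ≤ zR R y := Real.smoothTransition.monotone (by linarith)
    linarith) (fun y hy => by
      rw [TU.zR_zero hy, TU.zR_zero (by linarith), sub_zero, zero_mul])
  have hi : ∀ r : ℝ, 0 < r → Integrable (fun y => m y * (zR r y * hgt n s y ^ 2)) := by
    intro r hr
    have hc : Continuous (fun y => m y * (zR r y * hgt n s y ^ 2)) := by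
      have := (TU.zR_smooth (d := d) hr).continuous
      unfold hgt
      fun_prop
    refine hc.integrable_of_hasCompactSupport ?_
    exact ((TU.zR_cs r).mul_right).mul_left
  have h4 : ∫ y, m y * ((zR R y - zR r y) * ht n s y ^ 2) =
      blc n s m R - blc n s m r := by
    unfold blc
    rw [← integral_sub (hi R hR) (hi r hr)]
    congr 1
    ext y
    simp only [ht, hgt]
    ring
  rw [h4] at h3
  linarith

/-! ## Matrix test functions -/

lemma TFn_fsum {ι : Type*} (S : Finset ι) {J : ℕ} {N : ℝ} {f : ι → Sp d → ℝ}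
    (h : ∀ i ∈ S, TFn J N (f i)) : TFn J (S.card * N) (fun y => ∑ i ∈ S, f i y) := by
  classical
  induction S using Finset.induction_on with
  | empty =>
    simp only [Finset.sum_empty, Finset.card_empty, Nat.cast_zero, zero_mul]
    refine ⟨contDiff_const, fun j _ x => ?_⟩
    have : iteratedFDeriv ℝ j (fun _ : Sp d => (0 : ℝ)) x = 0 := by
      rw [show (fun _ : Sp d => (0 : ℝ)) = 0 from rfl]
      simp
    rw [this, norm_zero]
  | insert i S hi ih =>
    have h1 := TU.TFn_add (h i (Finset.mem_insert_self i S))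
      (ih fun j hj => h j (Finset.mem_insert_of_mem hj))
    refine TU.TFn_mono (ζ := fun y => ∑ i ∈ insert i S, f i y) ?_ le_rfl (le_of_eq ?_)
      (N := N + S.card * N) (J := J)
    · simpa only [Finset.sum_insert hi] using h1
    · rw [Finset.card_insert_of_notMem hi]
      push_cast
      ring

/-- the scalar test function of two directions -/
def zt (n n' : Sp d) (Y : Fin d → Fin d → Sp d → ℝ) (y : Sp d) : ℝ :=
  ∑ i, ∑ j, (n i * n j - n' i * n' j) * Y i j y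

lemma coef_bd {n n' : Sp d} (hn : ‖n‖ = 1) (hn' : ‖n'‖ = 1) (i j : Fin d) :
    |n i * n j - n' i * n' j| ≤ 2 * ‖n - n'‖ := by
  have h1 : ∀ (v : Sp d) (i : Fin d), |v i| ≤ ‖v‖ := fun v i => PiLp.norm_apply_le v i
  have h2 : n i * n j - n' i * n' j = n i * (n - n') j + (n - n') i * n' j := by
    rw [PiLp.sub_apply, PiLp.sub_apply]
    ring
  rw [h2]
  refine (abs_add_le _ _).trans ?_
  rw [abs_mul, abs_mul]
  have a1 := h1 n i
  have a2 := h1 n' j
  have a3 := h1 (n - n') i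
  have a4 := h1 (n - n') j
  rw [hn] at a1
  rw [hn'] at a2
  have a5 := abs_nonneg ((n - n') i)
  have a6 := abs_nonneg ((n - n') j)
  have a7 := abs_nonneg (n i)
  have a8 := abs_nonneg (n' j)
  nlinarith

lemma zt_TFn {n n' : Sp d} (hn : ‖n‖ = 1) (hn' : ‖n'‖ = 1) {J : ℕ} {N : ℝ}
    {Y : Fin d → Fin d → Sp d → ℝ} (hN : 0 ≤ N) (hY : ∀ i j, TFn J N (Y i j)) :
    TFn J ((d : ℝ) * (d * (2 * ‖n - n'‖ * N))) (zt n n' Y) := by
  have h1 : ∀ i : Fin d, TFn J ((d : ℝ) * (2 * ‖n - n'‖ * N))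
      (fun y => ∑ j, (n i * n j - n' i * n' j) * Y i j y) := by
    intro i
    have h2 := TFn_fsum (Finset.univ : Finset (Fin d))
      (f := fun j y => (n i * n j - n' i * n' j) * Y i j y) (J := J)
      (N := 2 * ‖n - n'‖ * N) (fun j _ => by
        refine TU.TFn_mono (TU.TFn_const_mul (hY i j) _) le_rfl ?_
        exact mul_le_mul_of_nonneg_right (coef_bd hn hn' i j) hN)
    simpa using h2
  have h3 := TFn_fsum (Finset.univ : Finset (Fin d))
    (f := fun i y => ∑ j, (n i * n j - n' i * n' j) * Y i j y) (fun i _ => h1 i)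
  have h4 : zt n n' Y = fun y => ∑ i, ∑ j, (n i * n j - n' i * n' j) * Y i j y := rfl
  rw [h4]
  simpa using h3

lemma zt_supp {n n' : Sp d} {Y : Fin d → Fin d → Sp d → ℝ}
    (hY : ∀ i j y, (d : ℝ) ≤ ‖y‖ → Y i j y = 0) {y : Sp d} (hy : (d : ℝ) ≤ ‖y‖) :
    zt n n' Y y = 0 := by
  unfold zt
  exact Finset.sum_eq_zero fun i _ => Finset.sum_eq_zero fun j _ => by rw [hY i j y hy, mul_zero]

/-- a sheet whose plane misses the ball -/
lemma far_sheet {J : ℕ} {R ab ep D : ℝ} {m : Sp d → ℝ} {n : Sp d} {s : ℝ}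
    (h : Sheet J R ab ep D m n s) {ρ N : ℝ} (hρ : 0 ≤ ρ) (hρR : ρ ≤ R) (hs : ρ < |s|)
    {ζ : Sp d → ℝ} (hζ : TFn (J + 6) N ζ) (hz : ∀ y, ρ ≤ ‖y‖ → ζ y = 0) :
    |∫ y, m y * ζ y| ≤ N * blc n s m (ρ + 1) + N * D := by
  have hfar : ∀ y : Sp d, ⟪n, y⟫_ℝ = s → ρ < ‖y‖ := by
    intro y hy
    have h1 := abs_real_inner_le_norm n y
    rw [hy, h.n1, one_mul] at h1
    linarith
  have hev : ∀ y : Sp d, ρ < ‖y‖ → ζ =ᶠ[nhds y] fun _ => (0 : ℝ) := by
    intro y hy
    have : {z : Sp d | ρ < ‖z‖} ∈ nhds y := (isOpen_lt continuous_const continuous_norm).mem_nhds hy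
    filter_upwards [this] with z hz'
    exact hz z hz'.le
  have hT : TB J n s 0 ζ := by
    intro j hj v hv hv1 y hy
    have h1 := hev y (hfar y hy)
    have z0 : ∀ j, iteratedFDeriv ℝ j (fun _ : Sp d => (0 : ℝ)) y = 0 := fun j => by
      rw [show (fun _ : Sp d => (0 : ℝ)) = 0 from rfl]
      simp
    have h2 : iteratedFDeriv ℝ j ζ y = 0 := by
      rw [(h1.iteratedFDeriv ℝ j).eq_of_nhds, z0]
    have h3 : (fun x => fderiv ℝ ζ x n) =ᶠ[nhds y] fun _ => (0 : ℝ) := by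
      filter_upwards [h1.fderiv (𝕜 := ℝ)] with z hz'
      rw [hz']
      simp
    have h4 : iteratedFDeriv ℝ j (fun x => fderiv ℝ ζ x n) y = 0 := by
      rw [(h3.iteratedFDeriv ℝ j).eq_of_nhds, z0]
    rw [h2, h4]
    simp
  have h5 : plInt n s ζ = 0 := by
    unfold plInt
    have : ∀ y : (Submodule.span ℝ {n})ᗮ, ζ (s • n + (y : Sp d)) = 0 := by
      intro y
      apply hz
      refine (hfar _ ?_).le
      have h6 := Submodule.mem_orthogonal_singleton_iff_inner_right.1 y.2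
      rw [inner_add_right, inner_smul_right, real_inner_self_eq_norm_sq, h.n1, h6]
      ring
    simp [this]
  have h6 := h.est ζ ρ 0 N (hζ.smooth.of_le (by exact_mod_cast (by omega : J + 2 ≤ J + 6)))
    hρ hρR hz hT (fun y => hζ.bd 2 (by omega) y)
  rw [h5, mul_zero, sub_zero, mul_zero, zero_add, zero_add] at h6
  exact h6

/-- replacing the direction of one sheet by that of another sheet of the same density -/
theorem two_sheets (hGS : StmtGS) (J : ℕ) (hd : 2 ≤ d) {R K : ℝ} (hR : 400 + 8 * d ≤ R)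
    (hK : 1 ≤ K) : ∃ C : ℝ, 0 < C ∧
    ∀ (m : Sp d → ℝ) (n n' : Sp d) (s s' ab ab' ep ep' D : ℝ), Continuous m → 0 ≤ D →
      Sheet J R ab ep D m n s → Sheet J R ab' ep' D m n' s' → ZP (R + 1) D m →
      (∀ (ζ : Sp d → ℝ) (N : ℝ), TFn 2 N ζ → (∀ y, (d : ℝ) ≤ ‖y‖ → ζ y = 0) →
        |∫ y, m y * ζ y| ≤ K * N * (ab + D)) →
    ∀ (Y : Fin d → Fin d → Sp d → ℝ) (N : ℝ), (∀ i j, TFn (J + 6) N (Y i j)) →
      (∀ i j y, (d : ℝ) ≤ ‖y‖ → Y i j y = 0) →
      |∫ y, m y * zt n n' Y y| ≤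
        C * N * (ep + ep' + max 0 (blc n s m R) + max 0 (blc n' s' m R) + D) := by
  have hdR : (2 : ℝ) ≤ d := by exact_mod_cast hd
  obtain ⟨c0, CG, hc0, hCG, gGS⟩ := hGS d J hd R 0 (by linarith)
  obtain ⟨K1, hK1, hb1⟩ := blc_le (d := d) (r := (d : ℝ) + 1) (R := R) (by linarith) (by linarith)
  obtain ⟨K2, hK2, hb2⟩ := GSAux.blc_mono (d := d) R (by linarith)
  obtain ⟨CP, hCP, gP⟩ := (stmtPF d (by omega)).1 (d : ℝ)
  refine ⟨4 * d ^ 2 * (K1 + 1) + 4 * d ^ 2 * (K2 + 2) + 2 * d ^ 2 * CP * CG +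
    4 * d ^ 2 * K * (1 / c0 + 1), by positivity, ?_⟩
  intro m n n' s s' ab ab' ep ep' D hm hD hS hS' hZ hmass Y N hY hYs
  have hN : 0 ≤ N := TU.TFn_nonneg (hY ⟨0, by omega⟩ ⟨0, by omega⟩)
  set Er := ep + ep' + max 0 (blc n s m R) + max 0 (blc n' s' m R) + D with hEr
  have m1 : 0 ≤ max 0 (blc n s m R) := le_max_left _ _
  have m2 : 0 ≤ max 0 (blc n' s' m R) := le_max_left _ _
  have m3 : blc n s m R ≤ max 0 (blc n s m R) := le_max_right _ _
  have hep := hS.ep0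
  have hep' := hS'.ep0
  have hEr0 : 0 ≤ Er := by linarith
  have hnn : ∀ v : Sp d, ‖v‖ = 1 → ‖n - v‖ ≤ 2 := by
    intro v hv
    have := norm_sub_le n v
    rw [hS.n1, hv] at this
    linarith
  have hNE : 0 ≤ N * Er := by positivity
  have hztn : TFn (J + 6) (4 * d ^ 2 * N) (zt n n' Y) := by
    refine TU.TFn_mono (zt_TFn hS.n1 hS'.n1 hN hY) le_rfl ?_
    have h1 := hnn n' hS'.n1
    have h2 : (d : ℝ) * (d * (2 * ‖n - n'‖ * N)) ≤ d * (d * (2 * 2 * N)) := by gcongr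
    refine h2.trans (le_of_eq ?_)
    ring
  -- all parts of the constant are nonnegative
  have p1 : 0 ≤ 4 * (d : ℝ) ^ 2 * (K1 + 1) * (N * Er) := by positivity
  have p2 : 0 ≤ 4 * (d : ℝ) ^ 2 * (K2 + 2) * (N * Er) := by positivity
  have p3 : 0 ≤ 2 * (d : ℝ) ^ 2 * CP * CG * (N * Er) := by positivity
  have p4 : 0 ≤ 4 * (d : ℝ) ^ 2 * K * (1 / c0 + 1) * (N * Er) := by positivity
  have hsplit : (4 * (d : ℝ) ^ 2 * (K1 + 1) + 4 * d ^ 2 * (K2 + 2) + 2 * d ^ 2 * CP * CG +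
      4 * d ^ 2 * K * (1 / c0 + 1)) * N * Er = 4 * (d : ℝ) ^ 2 * (K1 + 1) * (N * Er) +
      4 * (d : ℝ) ^ 2 * (K2 + 2) * (N * Er) + 2 * (d : ℝ) ^ 2 * CP * CG * (N * Er) +
      4 * (d : ℝ) ^ 2 * K * (1 / c0 + 1) * (N * Er) := by ring
  rw [hsplit]
  rcases le_or_gt |s| (R - 3) with hs | hs
  · rcases le_or_gt Er (c0 * ab) with hE | hE
    · -- the planes are close
      have hid : (fun y : Sp d => (2 : ℝ) ^ 0 * m (0 + (2 : ℝ) ^ 0 • y)) = m := by
        funext y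
        simp
      have h1 := gGS m m n n' s s' ab ab' ep ep' D Er 0 (s • n) hm hm hD hS
        (by rw [hid]; exact hS') hZ (by rw [hid]; exact hZ)
        (fun Y _ _ _ _ => by simpa using hD)
        (by rw [norm_smul, hS.n1, mul_one]; exact hs)
        (by
          unfold hgt
          rw [inner_smul_right, real_inner_self_eq_norm_sq, hS.n1]
          norm_num)
        (by rw [sub_zero, norm_smul, hS.n1, mul_one, pow_zero, mul_one]; exact hs)
        (by rw [hid]) hE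
      obtain ⟨-, σ, hσ, h2⟩ := h1
      have hσn : ‖σ • n'‖ = 1 := by
        rcases hσ with rfl | rfl <;> simp [hS'.n1]
      have hzz : zt n n' Y = zt n (σ • n') Y := by
        funext y
        unfold zt
        refine Finset.sum_congr rfl fun i _ => Finset.sum_congr rfl fun j _ => ?_
        rw [PiLp.smul_apply, PiLp.smul_apply, smul_eq_mul, smul_eq_mul]
        rcases hσ with rfl | rfl <;> ring
      rw [hzz]
      set δ := ‖n - σ • n'‖ with hδ
      have hδ0 : 0 ≤ δ := norm_nonneg _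
      have hδ2 : δ ≤ 2 := hnn _ hσn
      have habδ : ab * δ ≤ CG * Er := by
        refine le_trans ?_ h2
        refine mul_le_mul_of_nonneg_left ?_ hS.ab0.le
        linarith [abs_nonneg (s - σ * (⟪n', (0 : Sp d)⟫_ℝ + 2 ^ 0 * s'))]
      have hzT : TFn (J + 6) (2 * d ^ 2 * (δ * N)) (zt n (σ • n') Y) := by
        refine TU.TFn_mono (zt_TFn hS.n1 hσn hN hY) le_rfl (le_of_eq ?_)
        ring
      have h3 := GSAux.est1 (by linarith : 8 ≤ R) hD hK2 hS (hb2 m n s D hm hS.n1 hS.loc hZ)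
        (TU.TFn_mono hzT (by omega : J + 2 ≤ J + 6) le_rfl)
        (fun y hy => zt_supp hYs (by linarith)) (Er := Er) (by linarith)
      have h4 := gP n hS.n1 (zt n (σ • n') Y) (2 * d ^ 2 * (δ * N)) hzT.smooth.continuous
        (fun y => TU.TFn_norm hzT y) (fun y hy => by
          refine (PF.norm_tang_le hS.n1 y).trans ?_
          by_contra hcon
          exact hy (zt_supp hYs (le_of_lt (not_le.1 hcon)))) s
      have h5 : |ab * plInt n s (zt n (σ • n') Y)| ≤ 2 * d ^ 2 * CP * CG * (N * Er) := by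
        rw [abs_mul, abs_of_pos hS.ab0]
        calc ab * |plInt n s (zt n (σ • n') Y)| ≤ ab * (CP * (2 * d ^ 2 * (δ * N))) :=
              mul_le_mul_of_nonneg_left h4 hS.ab0.le
          _ = 2 * d ^ 2 * CP * N * (ab * δ) := by ring
          _ ≤ 2 * d ^ 2 * CP * N * (CG * Er) := by gcongr
          _ = _ := by ring
      have h6 : 2 * (d : ℝ) ^ 2 * (δ * N) * ((K2 + 2) * Er) ≤
          4 * (d : ℝ) ^ 2 * (K2 + 2) * (N * Er) := by
        calc 2 * (d : ℝ) ^ 2 * (δ * N) * ((K2 + 2) * Er) ≤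
              2 * (d : ℝ) ^ 2 * (2 * N) * ((K2 + 2) * Er) := by gcongr
          _ = _ := by ring
      have h7 : |∫ y, m y * zt n (σ • n') Y y| ≤
          |(∫ y, m y * zt n (σ • n') Y y) - ab * plInt n s (zt n (σ • n') Y)| +
            |ab * plInt n s (zt n (σ • n') Y)| := by
        have := abs_add_le ((∫ y, m y * zt n (σ • n') Y y) - ab * plInt n s (zt n (σ • n') Y))
          (ab * plInt n s (zt n (σ • n') Y))
        rwa [sub_add_cancel] at this
      linarith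
    · -- trivial bound
      have h1 := hmass (zt n n' Y) (4 * d ^ 2 * N) (TU.TFn_mono hztn (by omega) le_rfl)
        (fun y hy => zt_supp hYs hy)
      have h2 : ab ≤ 1 / c0 * Er := by
        rw [one_div, le_inv_mul_iff₀ hc0]
        exact hE.le
      have h3 : D ≤ Er := by linarith
      have h4 : K * (4 * (d : ℝ) ^ 2 * N) * (ab + D) ≤
          4 * (d : ℝ) ^ 2 * K * (1 / c0 + 1) * (N * Er) := by
        calc K * (4 * (d : ℝ) ^ 2 * N) * (ab + D) ≤
              K * (4 * (d : ℝ) ^ 2 * N) * (1 / c0 * Er + Er) := by gcongr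
          _ = _ := by ring
      linarith
  · -- the plane is far
    have h1 := far_sheet hS (ρ := d) (by positivity) (by linarith) (by linarith) hztn
      (fun y hy => zt_supp hYs hy)
    have h2 := hb1 m n s D hm hS.n1 hS.loc hZ
    have h3 : 4 * (d : ℝ) ^ 2 * N * blc n s m (d + 1) + 4 * d ^ 2 * N * D ≤
        4 * (d : ℝ) ^ 2 * (K1 + 1) * (N * Er) := by
      have h4 : blc n s m (d + 1) + D ≤ (K1 + 1) * Er := by
        have : D ≤ Er := by linarith
        have h5 : K1 * D ≤ K1 * Er := by gcongr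
        nlinarith
      calc 4 * (d : ℝ) ^ 2 * N * blc n s m (d + 1) + 4 * d ^ 2 * N * D =
            4 * (d : ℝ) ^ 2 * N * (blc n s m (d + 1) + D) := by ring
        _ ≤ 4 * (d : ℝ) ^ 2 * N * ((K1 + 1) * Er) := by gcongr
        _ = _ := by ring
    linarith

/-! ## The sum over the levels -/

/-- the mass functional is monotone in the radius -/
lemma mC_mono {E : Type} [NormedAddCommGroup E] [InnerProductSpace ℝ E] [FiniteDimensional ℝ E]
    {J : ℕ} {M c0 : ℝ} {b : Sp d → ℝ} (hb : BaseKer J M c0 b) (ε : ℝ) {f : Sp d → E}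
    (hf : Continuous f) (hc : HasCompactSupport f) {s0 : ℝ} (h : 0 < s0) {r R : ℝ} (hr : r ≤ R)
    (Q : Cell d) : mC b ε r s0 f Q ≤ mC b ε R s0 f Q := by
  have hl := lev_pos h Q.1
  unfold mC ma
  refine mul_le_mul_of_nonneg_left ?_ (by positivity)
  have h1 := TW.fl_ok hb ε s0 hf hc (Q.1 - 1)
  exact setIntegral_mono_set (h1.1.norm.integrable_of_hasCompactSupport h1.2.norm).integrableOn
    (Filter.Eventually.of_forall fun y => norm_nonneg _)
    (Filter.Eventually.of_forall (ball_subset_ball (mul_le_mul_of_nonneg_right hr hl.le)))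

lemma level_sum {I : ℕ} {a η d0 CM C1 KD : ℝ} {ab dn ep bl : ℕ → ℝ} (hη : 0 ≤ η)
    (hd0 : 0 ≤ d0) (hCM : 0 ≤ CM) (hC1 : 0 ≤ C1) (hKD : 0 ≤ KD) (hdn : ∀ l, 0 ≤ dn l)
    (h1 : ∀ l ≤ I, ab l ≤ CM * (2 : ℝ) ^ ((1 / 8 : ℝ) * l) * a)
    (h2 : ∀ l ≤ I, a * dn l ≤ CM * (2 : ℝ) ^ ((3 / 4 : ℝ) * l) * η + C1 * d0)
    (h3 : ∀ l ≤ I, ep l ≤ CM * (2 : ℝ) ^ ((3 / 4 : ℝ) * l) * η)
    (h4 : ∀ l ≤ I, bl l ≤ CM * (2 : ℝ) ^ ((3 / 4 : ℝ) * l) * η + KD) :
    ∑ l ∈ Finset.range (I + 1), (1 / 2 : ℝ) ^ l * (ab l * dn l + ep l + bl l) ≤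
      (CM ^ 2 + 2 * CM) * (1 - (2 : ℝ) ^ (-(1 / 8 : ℝ)))⁻¹ * η +
        (I + 1) * (CM * C1 * d0 + KD) := by
  set θ : ℝ := (2 : ℝ) ^ (-(1 / 8 : ℝ)) with hθ
  have hθ0 : 0 < θ := by positivity
  have hθ1 : θ < 1 := Real.rpow_lt_one_of_one_lt_of_neg (by norm_num) (by norm_num)
  have key : ∀ l ∈ Finset.range (I + 1), (1 / 2 : ℝ) ^ l * (ab l * dn l + ep l + bl l) ≤
      (CM ^ 2 + 2 * CM) * η * θ ^ l + (CM * C1 * d0 + KD) := by
    intro l hl
    have hl' : l ≤ I := by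
      rw [Finset.mem_range] at hl
      omega
    set p : ℝ := (2 : ℝ) ^ ((1 / 8 : ℝ) * l) with hp
    have hp0 : 0 < p := by positivity
    have hp1 : 1 ≤ p := Real.one_le_rpow (by norm_num) (by positivity)
    have e6 : (2 : ℝ) ^ ((3 / 4 : ℝ) * l) = p ^ 6 := by
      rw [hp, ← Real.rpow_natCast, ← Real.rpow_mul (by norm_num)]
      congr 1
      push_cast
      ring
    have e8 : (1 / 2 : ℝ) ^ l = (p ^ 8)⁻¹ := by
      rw [hp, ← Real.rpow_natCast _ 8, ← Real.rpow_mul (by norm_num), one_div, inv_pow,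
        ← Real.rpow_natCast 2 l]
      congr 2
      push_cast
      ring
    have eθ : θ ^ l = p⁻¹ := by
      rw [hθ, ← Real.rpow_natCast, ← Real.rpow_mul (by norm_num), hp, ← Real.rpow_neg (by norm_num)]
      congr 1
      ring
    have a1 := h1 l hl'
    have a2 := h2 l hl'
    have a3 := h3 l hl'
    have a4 := h4 l hl'
    rw [e6] at a2 a3 a4
    have b1 : ab l * dn l ≤ CM * p * (CM * p ^ 6 * η + C1 * d0) := by
      calc ab l * dn l ≤ CM * p * a * dn l := mul_le_mul_of_nonneg_right a1 (hdn l)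
        _ = CM * p * (a * dn l) := by ring
        _ ≤ _ := mul_le_mul_of_nonneg_left a2 (by positivity)
    have b2 : ab l * dn l + ep l + bl l ≤ CM * p * (CM * p ^ 6 * η + C1 * d0) +
        CM * p ^ 6 * η + (CM * p ^ 6 * η + KD) := by linarith
    rw [e8, eθ]
    refine (mul_le_mul_of_nonneg_left b2 (by positivity)).trans ?_
    rw [inv_mul_le_iff₀ (by positivity)]
    have q1 : p ≤ p ^ 8 := le_self_pow₀ hp1 (by norm_num)
    have q6 : p ^ 6 ≤ p ^ 7 := pow_le_pow_right₀ hp1 (by norm_num)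
    have q0 : 1 ≤ p ^ 8 := one_le_pow₀ hp1
    have r1 : p ^ 8 * ((CM ^ 2 + 2 * CM) * η * p⁻¹ + (CM * C1 * d0 + KD)) =
        (CM ^ 2 + 2 * CM) * η * p ^ 7 + p ^ 8 * (CM * C1 * d0) + p ^ 8 * KD := by
      field_simp
      ring
    rw [r1]
    have t1 : CM * C1 * d0 * p ≤ CM * C1 * d0 * p ^ 8 :=
      mul_le_mul_of_nonneg_left q1 (by positivity)
    have t2 : 2 * CM * η * p ^ 6 ≤ 2 * CM * η * p ^ 7 :=
      mul_le_mul_of_nonneg_left q6 (by positivity)
    have t3 : KD * 1 ≤ KD * p ^ 8 := mul_le_mul_of_nonneg_left q0 hKD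
    nlinarith
  refine (Finset.sum_le_sum key).trans ?_
  rw [Finset.sum_add_distrib, ← Finset.mul_sum, Finset.sum_const, Finset.card_range,
    nsmul_eq_mul]
  have h5 : ∑ l ∈ Finset.range (I + 1), θ ^ l ≤ (1 - θ)⁻¹ := by
    rw [← tsum_geometric_of_lt_one hθ0.le hθ1]
    exact (summable_geometric_of_lt_one hθ0.le hθ1).sum_le_tsum _ (fun _ _ => by positivity)
  have h6 := mul_le_mul_of_nonneg_left h5 (by positivity : 0 ≤ (CM ^ 2 + 2 * CM) * η)
  push_cast
  nlinarith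

lemma foc {V E : Type} [NormedAddCommGroup V] [InnerProductSpace ℝ V] [FiniteDimensional ℝ V]
    [NormedAddCommGroup E] [InnerProductSpace ℝ E] [FiniteDimensional ℝ E]
    (L : (Sp d →L[ℝ] V) →L[ℝ] E) {u : Sp d → V} (hu : TF u) : Continuous (fo L u) :=
  L.continuous.comp (hu.smooth.continuous_fderiv (by simp))

lemma fos {V E : Type} [NormedAddCommGroup V] [InnerProductSpace ℝ V] [FiniteDimensional ℝ V]
    [NormedAddCommGroup E] [InnerProductSpace ℝ E] [FiniteDimensional ℝ E]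
    (L : (Sp d →L[ℝ] V) →L[ℝ] E) {u : Sp d → V} (hu : TF u) : HasCompactSupport (fo L u) :=
  (hu.supp.fderiv (𝕜 := ℝ)).comp_left (g := L) (map_zero L)

lemma assembly {A1 A2 A3 B1 B2 B3 N T X a ds W1 W2 W3 W4 : ℝ} (hA2 : 0 ≤ A2) (hA1 : 0 ≤ A1)
    (hA3 : 0 ≤ A3) (hN : 0 ≤ N) (hT : 0 ≤ T) (hX : 0 ≤ X * a)
    (h1 : W1 ≤ A1 * N * T + B1 * N * ds) (h2 : W2 ≤ A2 * N * X * a) (h3 : W3 ≤ B2 * N * ds)
    (h4 : W4 ≤ A3 * N * T + B3 * N * ds) :
    W1 + W2 + W3 + W4 ≤ (A1 + A2 + A3) * N * T + (A1 + A2 + A3) * N * X * a +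
      (B1 + B2 + B3) * N * ds := by
  have p1 : 0 ≤ A2 * N * T := by positivity
  have p2 : 0 ≤ (A1 + A3) * N * (X * a) := by positivity
  nlinarith

lemma int_add_le {F G : Sp d → ℝ} (hG : Integrable G) {A B : ℝ} (hA : |∫ y, F y| ≤ A)
    (hB : |∫ y, G y| ≤ B) : |∫ y, (F y + G y)| ≤ A + B := by
  by_cases hF : Integrable F
  · rw [integral_add hF hG]
    exact (abs_add_le _ _).trans (add_le_add hA hB)
  · have h1 : ¬ Integrable (fun y => F y + G y) := by
      intro h2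
      apply hF
      have h3 := h2.sub hG
      have h4 : (fun y => F y + G y) - G = F := by
        funext y
        simp
      rwa [h4] at h3
    rw [integral_undef h1, abs_zero]
    have := abs_nonneg (∫ y, F y)
    have := abs_nonneg (∫ y, G y)
    linarith

end

end FR4

open FR FR4 in
theorem stmtFR4 (hML : StmtML) (hAB : StmtAB) (hGS : StmtGS) (h2 : StmtCT2) (h4 : StmtCT4)
    (h5 : StmtCT5) (h8 : StmtCT8) (hSC : StmtSC) (hSD : StmtSD) : StmtFR4 := by
  intro d V E _ _ _ _ _ _ _ L hd hL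
  obtain ⟨J0, gML⟩ := hML d V E L hd hL
  refine ⟨J0, ?_⟩
  intro J hJ M c0 ε hε hε1 b hb R0 γ K hR0 hγ hγ1 hK
  have hd1 : 1 ≤ d := by omega
  have hdR : (2 : ℝ) ≤ d := by exact_mod_cast hd
  have hsd : Real.sqrt d ≤ d := by
    rw [Real.sqrt_le_left (by linarith)]
    nlinarith
  have hb2 : BaseKer 2 M c0 b := hb.mono_order (by omega)
  have hγ8 : γ ≤ 1 / (8 * d) := hγ1.trans (one_div_le_one_div_of_le (by positivity)
    (by linarith))
  have hγ1' : γ ≤ 1 := hγ8.trans (by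
    rw [div_le_one (by positivity)]
    linarith)
  set K' : ℝ := (1 + 64 * R0) ^ (d + 2) * K with hK'
  have hK'1 : 1 ≤ K' := one_le_mul_of_one_le_of_one_le (one_le_pow₀ (by linarith)) hK
  obtain ⟨CM, κM, hCM, hκM, gML⟩ :=
    gML M c0 ε hε hε1 b hb2 (64 * R0) γ K' (by linarith) hγ hγ1 hK'1
  obtain ⟨CS, hCS, gS⟩ := sums h2 h4 h5 h8 hSC hSD hd hε hε1 hb2 hR0
  obtain ⟨C8, hC8, g8⟩ := h8 d hd1 M c0 ε hε hε1 b hb2
  obtain ⟨CA, hCA, gA⟩ := hAB d J hd M c0 (C8 * K) γ (64 * R0) b hb (by positivity) hγ hγ8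
    (by linarith)
  obtain ⟨C2, hC2, g2⟩ := two_sheets hGS J hd (R := 64 * R0) (K := max 1 (C8 * K)) (by linarith)
    (le_max_left _ _)
  obtain ⟨Kb, hKb, gb⟩ := blc_le (d := d) (r := 4 * d + 8) (R := 64 * R0) (by positivity)
    (by linarith)
  obtain ⟨C4, hC4, g4⟩ := h4 d hd1 0 le_rfl
  set S : ℝ := (1 - (2 : ℝ) ^ (-(1 / 8 : ℝ)))⁻¹ with hS
  have hS0 : 0 < S := inv_pos.2 (sub_pos.2
    (Real.rpow_lt_one_of_one_lt_of_neg (by norm_num) (by norm_num)))
  refine ⟨CA * ((CM ^ 2 + 2 * CM) * S) * (CS + 1) + CA * (C8 * K) +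
    C2 * (1 + 2 * CM * (CS + 1)), κM / CS, by positivity, by positivity, ?_⟩
  intro I RN hIR
  obtain ⟨C1M, hC1M, gML⟩ := gML I
  obtain ⟨C1A, hC1A, gA⟩ := gA I RN hIR
  obtain ⟨l, hl⟩ : ∃ l : ℕ, 2 * RN + d < 2 ^ l := pow_unbounded_of_one_lt _ (by norm_num)
  obtain ⟨C81, hC81, g8⟩ := g8 l
  set CD : ℝ := C1M + C8 + C81 * ((l + 2) * 2 ^ (l + 2)) with hCD
  have hCD0 : 0 < CD := by positivity
  refine ⟨300 * R0 + 2 ^ (I + 2) * (64 * R0) + 2 ^ l + 2 * d + 100,
    CA * ((I + 1) * (CM * C1M + C1M + Kb * CD)) + C1A * CD + C2 * (C1M + CD), by positivity, ?_⟩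
  intro R hR u hu s0 h e he ν c hν Q a ha haQ hgr hbs n s ab ep D hD haab haba hs hSh Y N hY hYs
  have hN : 0 ≤ N := TU.TFn_nonneg (hY ⟨0, by omega⟩ ⟨0, by omega⟩)
  set f := fo L u with hfdef
  have hf : Continuous f := foc L hu
  have hc : HasCompactSupport f := fos L hu
  have hR0p : 0 < R0 := by linarith
  have hp1 : (0 : ℝ) < 2 ^ (I + 2) * (64 * R0) := by positivity
  have hp2 : (0 : ℝ) < 2 ^ l := by positivity
  have hIp : (2 : ℝ) ^ I * (64 * R0) ≤ 2 ^ (I + 2) * (64 * R0) :=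
    mul_le_mul_of_nonneg_right (pow_le_pow_right₀ (by norm_num) (by omega)) (by positivity)
  have hI1 : 64 * R0 ≤ (2 : ℝ) ^ I * (64 * R0) :=
    le_mul_of_one_le_left (by positivity) (one_le_pow₀ (by norm_num))
  have hR300 : 300 * R0 ≤ R := by linarith
  have hu1 := he.unit
  -- the budgets
  obtain ⟨s1, s2, s3, hd0, hdb, s4⟩ := gS E R hR300 f hf hc s0 h e he ν c hν Q
  set bs := bsh b ε R0 R s0 f e ν c Q with hbsdef
  set ds := dsh b ε R s0 f e Q with hdsdef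
  have hbs0 : 0 ≤ bs := hd0.trans hdb
  have hdC : dC b ε R s0 f e Q ≤ ds := by
    have := (s4 0).2
    rw [up_zero] at this
    simpa using this
  have hdC0 : 0 ≤ dC b ε R s0 f e Q := by
    have := (s4 0).1
    rwa [up_zero] at this
  -- the density
  set m := mQ s0 f (e Q) Q with hm
  have hmc : Continuous m := mQ_cont hf s0 (e Q) Q
  obtain ⟨g81, g82, g83, g84⟩ := g8 E R (by linarith) (by linarith) f hf hc s0 h e he
  have hZ : ZP (R - 2) (C8 * dC b ε R s0 f e Q) m := (g81 Q).2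
  have hsumd : ∑ r ∈ Finset.range (l + 2), dC b ε R s0 f e (up r Q) ≤
      ((l + 2) * 2 ^ (l + 2)) * ds := by
    have h1 : ∀ r ∈ Finset.range (l + 2), dC b ε R s0 f e (up r Q) ≤ 2 ^ (l + 2) * ds := by
      intro r hr
      rw [Finset.mem_range] at hr
      refine (s4 r).2.trans (mul_le_mul_of_nonneg_right ?_ hd0)
      rw [← Real.rpow_natCast]
      refine Real.rpow_le_rpow_of_exponent_le (by norm_num) ?_
      have : (r : ℝ) ≤ ((l + 2 : ℕ) : ℝ) := by exact_mod_cast hr.le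
      have h0 : (0 : ℝ) ≤ r := Nat.cast_nonneg r
      linarith
    refine (Finset.sum_le_card_nsmul _ _ _ h1).trans (le_of_eq ?_)
    rw [Finset.card_range, nsmul_eq_mul]
    push_cast
    ring
  have hMG : MG (C8 * K) γ (2 * RN + d) a (CD * ds) m := by
    have h1 := g83 Q K γ a (by linarith) hγ.le hγ1' ha.le (fun i _ => hgr i)
    refine MG_mono h1 hl.le ?_
    have h3 := mul_le_mul_of_nonneg_left hsumd hC81.le
    have h4 : 0 ≤ C1M * ds := mul_nonneg hC1M.le hd0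
    have h5 : 0 ≤ C8 * ds := mul_nonneg hC8.le hd0
    rw [hCD]
    nlinarith
  have hC8CD : C8 * dC b ε R s0 f e Q ≤ CD * ds := by
    have h3 : 0 ≤ C81 * ((l + 2) * 2 ^ (l + 2)) := by positivity
    have h4 : C8 ≤ CD := by linarith
    exact mul_le_mul h4 hdC hdC0 hCD0.le
  have hC1CD : C1M * ds ≤ CD * ds := by
    refine mul_le_mul_of_nonneg_right ?_ hd0
    have h3 : 0 ≤ C81 * ((l + 2) * 2 ^ (l + 2)) := by positivity
    linarith
  have hCDds : 0 ≤ CD * ds := mul_nonneg hCD0.le hd0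
  have hZI : ZP (2 ^ I * (64 * R0) + 1 + 2 ^ I * (d + 1)) (CD * ds) m := by
    refine ZP_mono hZ ?_ hC8CD
    have h3 : (2 : ℝ) ^ (I + 2) * (64 * R0) = 4 * (2 ^ I * (64 * R0)) := by
      rw [pow_add]
      ring
    have h4 : (2 : ℝ) ^ I * (d + 1) ≤ 2 ^ I * (64 * R0) :=
      mul_le_mul_of_nonneg_left (by linarith) (by positivity)
    linarith
  -- ML in the frame of Q
  have hfo := fo_uQ hSC hd L hu h Q
  rw [← hfdef] at hfo
  have hma : ∀ r : ℕ, ma b ε (64 * R0) ((1 / 2) ^ Q.1) (rs (xC s0 Q) (lev s0 Q.1) f) (Q.1 + r)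
      (tw s0 Q (up r Q)) = mC b ε (64 * R0) s0 f (up r Q) := fun r =>
    ma_frame hSC hd hε hε1 hb2 hf hc h (64 * R0) r Q
  have hma0 : a = ma b ε (64 * R0) ((1 / 2) ^ Q.1) (fo L (uQ s0 u Q)) Q.1 0 := by
    have h1 := hma 0
    rw [tw_up_zero, add_zero, up_zero] at h1
    rw [hfo, h1]
    exact haQ
  obtain ⟨g41, -, -, -⟩ := g4 M c0 ε hε hε1 b hb2 E f hf hc s0 h
  have hBpos : 0 ≤ CS * bs := mul_nonneg hCS.le hbs0
  obtain ⟨nl, cl, abl, hnl, -, hlev⟩ := gML R (by linarith) Q.1 (uQ s0 u Q)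
    (uQ_TF hSC hd L hu h Q) (fun r => tw s0 Q (up r Q)) (fun r => e (up r Q))
    (tower h e hu1 Q) a ha hma0 (fun r => by
      rw [hfo, hma r]
      refine (g41 (64 * R0) (by positivity) (up r Q)).trans ?_
      refine (mul_le_mul_of_nonneg_left (hgr r) (by positivity)).trans (le_of_eq ?_)
      rw [hK']
      ring)
    (fun r => ν (up (r + 7) Q)) (fun r => cfr s0 Q (ν (up (r + 7) Q)) (c (up (r + 7) Q)))
    (CS * bs) ds (fun r => hν.unit _) (fun r => s3 r) (by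
      have h1 := mul_le_mul_of_nonneg_left hbs hCS.le
      have h3 : CS * (κM / CS * a) = κM * a := by field_simp
      rw [h3] at h1
      refine le_trans (le_of_eq ?_) h1
      ring) (fun I => by rw [hfo]; exact s1 I) (fun I => by rw [hfo]; exact s2 I)
  simp only [hfo, up_zero] at hlev
  set η : ℝ := CS * bs + Real.sqrt (a * ds) with hη
  have hη0 : 0 ≤ η := add_nonneg hBpos (Real.sqrt_nonneg _)
  have hsq0 : 0 ≤ Real.sqrt (a * ds) := Real.sqrt_nonneg _
  have hml : ∀ l : ℕ, (fun y => (2 : ℝ) ^ l * ⟪rs (xC s0 Q) (lev s0 Q.1) f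
      (tw s0 Q (up l Q) + (2 : ℝ) ^ l • y), e Q⟫_ℝ) =
      fun y => (2 : ℝ) ^ l * m (tw s0 Q (up l Q) + (2 : ℝ) ^ l • y) := fun l => rfl
  simp only [hml] at hlev
  have hShl : ∀ l ≤ I, Sheet J (64 * R0) (abl l) (CM * (2 : ℝ) ^ ((3 / 4 : ℝ) * l) * η) (CD * ds)
      (fun y => (2 : ℝ) ^ l * m (tw s0 Q (up l Q) + (2 : ℝ) ^ l • y)) (nl l) (cl l) := fun l hl =>
    sheet_mono (hlev l hl).2.2.2.2 hJ hC1CD
  have htwn : ∀ l : ℕ, ‖tw s0 Q (up l Q)‖ ≤ d * 2 ^ l := fun l =>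
    (norm_tw_up h l Q).trans (mul_le_mul_of_nonneg_right hsd (by positivity))
  -- part 1
  have P1 := gA m a (CD * ds) (fun l => tw s0 Q (up l Q)) nl cl abl
    (fun l => CM * (2 : ℝ) ^ ((3 / 4 : ℝ) * l) * η) hmc ha.le hCDds
    (ZP_mono hZI (by
      have : (0 : ℝ) ≤ 2 ^ I * (d + 1) := by positivity
      linarith) le_rfl) hMG (fun l hl => ⟨htwn l, hShl l hl⟩) Y N hY hYs
  have hblc : ∀ l ≤ I, blc (nl l) (cl l)
      (fun y => (2 : ℝ) ^ l * m (tw s0 Q (up l Q) + (2 : ℝ) ^ l • y)) (4 * d + 8) ≤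
      CM * (2 : ℝ) ^ ((3 / 4 : ℝ) * l) * η + (C1M * ds + Kb * (CD * ds)) := by
    intro l hl
    have hmlc : Continuous (fun y => (2 : ℝ) ^ l * m (tw s0 Q (up l Q) + (2 : ℝ) ^ l • y)) := by
      fun_prop
    have hZl : ZP (64 * R0 + 1) (CD * ds)
        (fun y => (2 : ℝ) ^ l * m (tw s0 Q (up l Q) + (2 : ℝ) ^ l • y)) := by
      refine ZP_scale hd1 hZI hCDds _ l ?_
      have h1 := htwn l
      have h3 : (2 : ℝ) ^ l ≤ 2 ^ I := pow_le_pow_right₀ (by norm_num) hl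
      have h4 : (d : ℝ) * 2 ^ l + 2 ^ l * (64 * R0 + 1) = 2 ^ l * (64 * R0) + 2 ^ l * (d + 1) := by
        ring
      have h5 : (2 : ℝ) ^ l * (64 * R0) ≤ 2 ^ I * (64 * R0) :=
        mul_le_mul_of_nonneg_right h3 (by positivity)
      have h6 : (2 : ℝ) ^ l * (d + 1) ≤ 2 ^ I * (d + 1) :=
        mul_le_mul_of_nonneg_right h3 (by positivity)
      linarith
    have h1 := gb _ (nl l) (cl l) (CD * ds) hmlc (hnl l) (hShl l hl).loc hZl
    have h3 := (hlev l hl).2.2.2.1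
    have h4 := le_max_right 0 (blc (nl l) (cl l)
      (fun y => (2 : ℝ) ^ l * m (tw s0 Q (up l Q) + (2 : ℝ) ^ l • y)) (64 * R0))
    have h5 : CM * (2 : ℝ) ^ ((3 / 4 : ℝ) * l) * (CS * bs) ≤
        CM * (2 : ℝ) ^ ((3 / 4 : ℝ) * l) * η :=
      mul_le_mul_of_nonneg_left (by linarith) (by positivity)
    linarith
  have hsum := level_sum (I := I) (a := a) (η := η) (d0 := ds) (CM := CM) (C1 := C1M)
    (KD := C1M * ds + Kb * (CD * ds)) (ab := abl) (dn := fun l => ‖nl l - nl 0‖)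
    (ep := fun l => CM * (2 : ℝ) ^ ((3 / 4 : ℝ) * l) * η)
    (bl := fun l => blc (nl l) (cl l)
      (fun y => (2 : ℝ) ^ l * m (tw s0 Q (up l Q) + (2 : ℝ) ^ l • y)) (4 * d + 8))
    hη0 hd0 hCM.le hC1M.le (by positivity) (fun l => norm_nonneg _)
    (fun l hl => (hlev l hl).2.1) (fun l hl => (hlev l hl).2.2.1) (fun l _ => le_rfl) hblc
  -- part 2
  have hid : (fun y : Sp d => (2 : ℝ) ^ 0 * m (tw s0 Q (up 0 Q) + (2 : ℝ) ^ 0 • y)) = m := by
    funext y
    rw [tw_up_zero]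
    simp
  have hSh0 := hShl 0 (Nat.zero_le _)
  rw [hid] at hSh0
  have hmax0 := (hlev 0 (Nat.zero_le _)).2.2.2.1
  rw [hid] at hmax0
  have hz0 : (2 : ℝ) ^ ((3 / 4 : ℝ) * ((0 : ℕ) : ℝ)) = 1 := by simp
  rw [hz0, mul_one] at hSh0 hmax0
  have hZ64 : ZP (64 * R0 + 1) (D + CD * ds) m := by
    refine ZP_mono hZI ?_ (by linarith)
    have : (0 : ℝ) ≤ 2 ^ I * (d + 1) := by positivity
    linarith
  have P2 := g2 m n (nl 0) s (cl 0) ab (abl 0) ep (CM * η) (D + CD * ds) hmc (by linarith)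
    (sheet_mono hSh le_rfl (by linarith)) (sheet_mono hSh0 le_rfl (by linarith)) hZ64 (by
      intro ζ N hζ hζs
      have h1 := g84 Q d ζ N (by positivity) (by linarith) hζ hζs
      refine h1.trans ?_
      have hN' := TU.TFn_nonneg hζ
      have h3 : mC b ε (d + 2) s0 f Q ≤ a := by
        rw [haQ]
        exact mC_mono hb2 ε hf hc h (by linarith) Q
      have h4 : C8 * N * (mC b ε (d + 2) s0 f Q + dC b ε R s0 f e Q) ≤
          C8 * N * (K * ab + dC b ε R s0 f e Q) :=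
        mul_le_mul_of_nonneg_left (by linarith) (by positivity)
      have h5 : C8 * N * (K * ab) = (C8 * K) * N * ab := by ring
      have h6 : C8 * dC b ε R s0 f e Q ≤ D + CD * ds := by linarith
      have h7 : (C8 * K) * N * ab ≤ max 1 (C8 * K) * N * ab :=
        mul_le_mul_of_nonneg_right (mul_le_mul_of_nonneg_right (le_max_right _ _) hN') hSh.ab0.le
      have h8 : N * (C8 * dC b ε R s0 f e Q) ≤ N * (D + CD * ds) :=
        mul_le_mul_of_nonneg_left h6 hN'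
      have h9 : 1 * (N * (D + CD * ds)) ≤ max 1 (C8 * K) * (N * (D + CD * ds)) :=
        mul_le_mul_of_nonneg_right (le_max_left _ _) (mul_nonneg hN' (by linarith))
      nlinarith) Y N hY hYs
  -- assembly
  have hztn : TFn (J + 6) ((d : ℝ) * (d * (2 * ‖n - nl 0‖ * N))) (zt n (nl 0) Y) :=
    zt_TFn hSh.n1 (hnl 0) hN hY
  have hzi : Integrable (fun y => m y * zt n (nl 0) Y y) := by
    refine (hmc.mul hztn.smooth.continuous).integrable_of_hasCompactSupport
      (HasCompactSupport.mul_left ?_)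
    refine HasCompactSupport.intro (isCompact_closedBall (0 : Sp d) d) fun y hy => ?_
    rw [mem_closedBall, dist_zero_right, not_le] at hy
    exact zt_supp hYs hy.le
  have hdec : (fun y => m y * ((∑ i, ∑ j, n i * n j * Y i j y) - nt b RN Y y)) =
      fun y => m y * ((∑ i, ∑ j, nl 0 i * nl 0 j * Y i j y) - nt b RN Y y) +
        m y * zt n (nl 0) Y y := by
    funext y
    have h1 : zt n (nl 0) Y y = (∑ i, ∑ j, n i * n j * Y i j y) -
        ∑ i, ∑ j, nl 0 i * nl 0 j * Y i j y := by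
      unfold zt
      rw [← Finset.sum_sub_distrib]
      refine Finset.sum_congr rfl fun i _ => ?_
      rw [← Finset.sum_sub_distrib]
      refine Finset.sum_congr rfl fun j _ => ?_
      ring
    rw [h1]
    ring
  rw [hdec]
  refine (int_add_le hzi P1 P2).trans ?_
  have m1 : 0 ≤ max 0 (blc n s m (64 * R0)) := le_max_left _ _
  have hep := hSh.ep0
  set T : ℝ := bs + Real.sqrt (a * ds) + ep + max 0 (blc n s m (64 * R0)) + D with hT
  have hηT : η ≤ (CS + 1) * (bs + Real.sqrt (a * ds)) := by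
    have : 0 ≤ CS * Real.sqrt (a * ds) := mul_nonneg hCS.le hsq0
    nlinarith
  have hηT' : η ≤ (CS + 1) * T := hηT.trans
    (mul_le_mul_of_nonneg_left (by linarith) (by linarith))
  have q1 : CA * N * (∑ l ∈ Finset.range (I + 1), (1 / 2 : ℝ) ^ l *
      (abl l * ‖nl l - nl 0‖ + CM * (2 : ℝ) ^ ((3 / 4 : ℝ) * l) * η +
      blc (nl l) (cl l)
      (fun y => (2 : ℝ) ^ l * m (tw s0 Q (up l Q) + (2 : ℝ) ^ l • y)) (4 * d + 8))) ≤
      CA * ((CM ^ 2 + 2 * CM) * S) * (CS + 1) * N * T +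
        CA * ((I + 1) * (CM * C1M + C1M + Kb * CD)) * N * ds := by
    refine (mul_le_mul_of_nonneg_left hsum (by positivity)).trans ?_
    have h1 : (CM ^ 2 + 2 * CM) * S * η ≤ (CM ^ 2 + 2 * CM) * S * ((CS + 1) * T) :=
      mul_le_mul_of_nonneg_left hηT' (by positivity)
    refine (mul_le_mul_of_nonneg_left (add_le_add h1 le_rfl) (by positivity)).trans
      (le_of_eq ?_)
    ring
  have q2 : C2 * N * (ep + CM * η + max 0 (blc n s m (64 * R0)) +
      max 0 (blc (nl 0) (cl 0) m (64 * R0)) + (D + CD * ds)) ≤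
      C2 * (1 + 2 * CM * (CS + 1)) * N * T + C2 * (C1M + CD) * N * ds := by
    have h1 : CM * η ≤ CM * ((CS + 1) * T) := mul_le_mul_of_nonneg_left hηT' hCM.le
    have h3 : CM * (CS * bs) ≤ CM * ((CS + 1) * T) := by
      refine mul_le_mul_of_nonneg_left ((?_ : CS * bs ≤ η).trans hηT') hCM.le
      linarith
    have h4 : ep + max 0 (blc n s m (64 * R0)) + D ≤ T := by linarith
    have h5 : ep + CM * η + max 0 (blc n s m (64 * R0)) +
      max 0 (blc (nl 0) (cl 0) m (64 * R0)) + (D + CD * ds) ≤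
      (1 + 2 * CM * (CS + 1)) * T + (C1M + CD) * ds := by linarith
    refine (mul_le_mul_of_nonneg_left h5 (by positivity)).trans (le_of_eq ?_)
    ring
  have hT0 : 0 ≤ T := by positivity
  have q3 : 0 ≤ (2 : ℝ) ^ (-(I : ℝ) * (1 - γ)) * a := by positivity
  refine assembly (by positivity) (by positivity) (by positivity) hN hT0 q3 q1
    (le_of_eq ?_) (le_of_eq ?_) q2
  · ring
  · ring

end TG
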