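import Pool.Agent.TG.StmtsFH
import Pool.Agent.TG.FR4

/-!
# Module FH, second part: the fields al, ah, b of FinH  (helper98)
-/

open MeasureTheory Metric Set TrI
open scoped InnerProductSpace ContDiff ENNReal

namespace TG

namespace FHbm

noncomputable section

variable {d : ℕ}

theorem partB (h4 : StmtCT4) (h5 : StmtCT5) (hd : 2 ≤ d) :
    ∀ (M c0 ε : ℝ), 0 < ε → ε ≤ 1 → ∀ (b : Sp d → ℝ), BaseKer 2 M c0 b →
    ∀ R0 : ℝ, 400 + 8 * d ≤ R0 →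
    ∃ C0 : ℝ, 1 ≤ C0 ∧ ∀ R : ℝ, 200 * R0 ≤ R →
    ∀ (E : Type) [NormedAddCommGroup E] [InnerProductSpace ℝ E] [FiniteDimensional ℝ E]
      [Nontrivial E] (f : Sp d → E), Continuous f → HasCompactSupport f →
    ∀ μ : Measure (Sp d), ∀ s0 : ℝ, 0 < s0 →
    ∀ e : Cell d → E, Dirs b ε R s0 f e → ∀ (ν : Cell d → Sp d) (c : Cell d → ℝ),
      Plns R0 s0 f e ν c → ∀ Cb : ℝ, C0 ≤ Cb →
      (∀ Q, 0 ≤ mC b ε (R0 + 3) s0 f Q) ∧
      (∀ Q, mC b ε (R0 + 3) s0 f Q ≤ mC b ε (32 * R0) s0 f Q) ∧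
      (∀ Q, bC R0 s0 f e ν c Q ≤ Cb * (mC b ε (R0 + 3) s0 f Q + dC b ε R s0 f e Q)) ∧
      (∀ Q, bC R0 s0 f e ν c Q ≤ Cb * (mT b ε s0 f Q + dC b ε R s0 f e Q)) ∧
      (∀ Q, bC R0 s0 f e ν c Q ≤ Cb * (bC R0 s0 f e ν c (up 9 Q) + dC b ε R s0 f e Q +
        dC b ε R s0 f e (up 9 Q))) ∧
      (∀ Q, mC b ε (32 * R0) s0 f Q ≤ Cb * (mC b ε (32 * R0) s0 f (up 9 Q) +
        dC b ε R s0 f e (up 9 Q))) ∧
      (∀ Q, 0 ≤ YC b ε s0 f μ ν c Q) := by
  intro M c0 ε hε hε1 b hb R0 hR0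
  have hd1 : 1 ≤ d := by omega
  have hdR : (2 : ℝ) ≤ d := by exact_mod_cast hd
  have hsd : Real.sqrt d ≤ d := by
    rw [Real.sqrt_le_left (by linarith)]
    nlinarith
  have hsd0 := Real.sqrt_nonneg (d : ℝ)
  obtain ⟨C4, hC4, g4⟩ := h4 d hd1 0 le_rfl
  obtain ⟨C5, hC5, g5⟩ := h5 d hd1 M c0 ε hε hε1 b hb R0 9 (by linarith)
  set C6 := (1 + (R0 + 3)) ^ (d + 2) with hC6
  have hC61 : 1 ≤ C6 := one_le_pow₀ (by linarith)
  refine ⟨C5 * C6 + 1, by nlinarith, ?_⟩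
  intro R hR E _ _ _ _ f hf hc μ s0 h e he ν c hν Cb hCb
  obtain ⟨a1, a2, -, -⟩ := g4 M c0 ε hε hε1 b hb E f hf hc s0 h
  obtain ⟨b1, -, b3, b4, -⟩ := g5 E R (by linarith) f hf hc s0 h e he ν c hν
  have hC56 : C5 ≤ C5 * C6 := by nlinarith
  have hCb5 : C5 ≤ Cb := by linarith
  have hCb0 : 0 ≤ Cb := by linarith
  have hmC : ∀ (ρ : ℝ) Q, 0 ≤ mC b ε ρ s0 f Q := fun ρ Q => by
    simp only [mC, ma]
    have := FR.lev_pos h Q.1
    exact mul_nonneg (by positivity) (integral_nonneg fun y => norm_nonneg _)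
  have hmT : ∀ Q, 0 ≤ mT b ε s0 f Q := fun Q => by
    have h1 := a1 0 le_rfl Q
    have h2 := hmC 0 Q
    simp only [add_zero, one_pow, one_mul] at h1
    linarith
  have hx : ∀ Q : Cell d, ‖xC s0 (up 9 Q) - xC s0 Q‖ ≤
      Real.sqrt d * ((2 ^ 9 - 1) * lev s0 Q.1) := fun Q => FR.xC_up' h 9 Q
  have hlev : ∀ Q : Cell d, lev s0 (up 9 Q).1 = 2 ^ 9 * lev s0 Q.1 := fun Q => by
    rw [FR.up_fst, FR.lev_add]
  refine ⟨hmC _, fun Q => FR4.mC_mono hb ε hf hc h (by linarith) Q, ?_, ?_, ?_, ?_, ?_⟩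
  · intro Q
    obtain ⟨h1, h2, h3⟩ := b1 Q
    exact h3.trans (mul_le_mul_of_nonneg_right hCb5 (add_nonneg (hmC _ Q) h1))
  · intro Q
    obtain ⟨h1, h2, h3⟩ := b1 Q
    have h4 := a1 (R0 + 3) (by linarith) Q
    have h5 : mC b ε (R0 + 3) s0 f Q + dC b ε R s0 f e Q ≤
        C6 * (mT b ε s0 f Q + dC b ε R s0 f e Q) := by
      have : dC b ε R s0 f e Q ≤ C6 * dC b ε R s0 f e Q := le_mul_of_one_le_left h1 hC61
      rw [mul_add]
      exact add_le_add h4 this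
    have h6 := mul_le_mul_of_nonneg_left h5 hC5.le
    refine h3.trans (h6.trans ?_)
    rw [← mul_assoc]
    exact mul_le_mul_of_nonneg_right (by linarith) (add_nonneg (hmT Q) h1)
  · intro Q
    have hl := FR.lev_pos h Q.1
    have h1 := b3 Q (up 9 Q) rfl (by
      refine (hx Q).trans ?_
      rw [hlev]
      have h2 : Real.sqrt d * (2 ^ 9 - 1) ≤ R0 * 2 ^ 9 - (R0 + 1) := by
        norm_num
        nlinarith
      have h3 := mul_le_mul_of_nonneg_right h2 hl.le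
      linarith)
    have h2 := (b1 Q).1
    have h3 := (b1 (up 9 Q)).1
    have h4 := (b1 (up 9 Q)).2.1
    exact h1.trans (mul_le_mul_of_nonneg_right hCb5 (by linarith))
  · intro Q
    have hl := FR.lev_pos h Q.1
    have h1 := b4 Q (up 9 Q) rfl (32 * R0) (32 * R0) (by linarith) (by linarith) (by
      have h2 := hx Q
      rw [hlev]
      have h3 : 32 * R0 + Real.sqrt d * (2 ^ 9 - 1) + 2 ^ 9 ≤ 32 * R0 * 2 ^ 9 := by
        norm_num
        nlinarith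
      have h4 := mul_le_mul_of_nonneg_right h3 hl.le
      linarith)
    exact h1.trans (mul_le_mul_of_nonneg_right hCb5
      (add_nonneg (hmC _ _) (b1 (up 9 Q)).1))
  · intro Q
    unfold YC Mo
    refine mul_nonneg (hmT Q) (div_nonneg (integral_nonneg fun η => ?_) (Real.sqrt_nonneg _))
    have hk : 0 ≤ kk 1 (0 - η) := by unfold kk; positivity
    exact mul_nonneg (div_nonneg (by positivity) (by positivity)) hk

end

end FHbm

end TG
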