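import Pool.Agent.TG.TreeDefs

/-!
# Trace inequality, general operators: types of cells and the summation (M_j), abstract part

Problem MP_287c87_an, sections 4', 17' of SEC14_17.md and SEC_M.md.  Nonnegative numbers indexed by
cells, no analysis.
-/

open Set TrI
open scoped ENNReal Classical

namespace TG

noncomputable section

variable {d : ℕ}

/-- box neighbourhood: levels k, ..., k + J, lattice distance at most ρ -/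
def box (J ρ : ℕ) (Q : Cell d) : Finset (Cell d) :=
  (Finset.range (J + 1)).biUnion fun i => ({Q.1 + i} : Finset ℕ) ×ˢ
    Fintype.piFinset fun j => Finset.Icc (Q.2 j / 2 ^ i - ρ) (Q.2 j / 2 ^ i + ρ)

/-- structured cells: not light and coherent -/
def Strc (γ K d0 : ℝ) (a at' D : Cell d → ℝ) : Set (Cell d) :=
  {Q | 0 < a Q ∧ (∀ l : ℕ, at' (up l Q) ≤ K * (2 : ℝ) ^ (γ * l) * a Q) ∧
    ∀ l : ℕ, D (up l Q) ≤ d0 * (2 : ℝ) ^ ((l : ℝ) / 8) * a Q}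

/-- solid cells: not weakly light and coherent with the constant d1 -/
def Solid (γ θ d1 : ℝ) (a ah at' D : Cell d → ℝ) : Set (Cell d) :=
  {Q | Q ∉ WL γ θ ah at' ∧ ∀ l : ℕ, D (up l Q) ≤ d1 * (2 : ℝ) ^ ((l : ℝ) / 8) * a Q}

/-- incoherent cells: not weakly light and not solid -/
def Inc (γ θ d1 : ℝ) (a ah at' D : Cell d → ℝ) : Set (Cell d) :=
  {Q | Q ∉ WL γ θ ah at' ∧ ∃ l : ℕ, d1 * (2 : ℝ) ^ ((l : ℝ) / 8) * a Q < D (up l Q)}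

/-- type A at the threshold κ: sum of 2^(-i/4) (b + D) at the ancestors is at most κ a -/
def TyA (κ : ℝ) (a D b : Cell d → ℝ) : Set (Cell d) := {Q | sh b Q + sh D Q ≤ κ * a Q}

/-- interior cells at the threshold κ: all cells of the neighbourhood have the same type -/
def Intr (κ : ℝ) (a D b : Cell d → ℝ) (nb : Cell d → Finset (Cell d)) : Set (Cell d) :=
  {Q | (∀ Q' ∈ nb Q, Q' ∈ TyA κ a D b) ∨ ∀ Q' ∈ nb Q, Q' ∉ TyA κ a D b}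

/-- robustness of the cell functions in the neighbourhood nb; J = number of levels, e = shift -/
structure Rob (C1 : ℝ) (J e : ℕ) (nb : Cell d → Finset (Cell d)) (a ah at' D b : Cell d → ℝ) :
    Prop where
  C1_one : 1 ≤ C1
  self : ∀ Q, Q ∈ nb Q
  lev : ∀ Q, ∀ Q' ∈ nb Q, Q.1 ≤ Q'.1 ∧ Q'.1 ≤ Q.1 + J
  a_nonneg : ∀ Q, 0 ≤ a Q
  D_nonneg : ∀ Q, 0 ≤ D Q
  b_nonneg : ∀ Q, 0 ≤ b Q
  at_nonneg : ∀ Q, 0 ≤ at' Q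
  at_bd : ∃ B, ∀ Q, at' Q ≤ B
  D_bd : ∃ B, ∀ Q, D Q ≤ B
  b_bd : ∃ B, ∀ Q, b Q ≤ B
  ah_le : ∀ Q, ah Q ≤ a Q
  a_le : ∀ Q, a Q ≤ C1 * at' Q
  at1 : ∀ Q, ∀ Q' ∈ nb Q, ∀ l : ℕ, at' (up l Q') ≤ C1 * at' (up (Q'.1 - Q.1 + l) Q)
  D1 : ∀ Q, ∀ Q' ∈ nb Q, ∀ l : ℕ, D (up l Q') ≤ C1 * D (up (Q'.1 - Q.1 + l + e) Q)
  D2 : ∀ Q, ∀ Q' ∈ nb Q, ∀ l : ℕ, D (up l Q) ≤ C1 * D (up (l + e) Q')
  m1 : ∀ Q, ∀ Q' ∈ nb Q, ah Q ≤ C1 * (a Q' + D (up (J + e) Q))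
  b1 : ∀ Q, ∀ Q' ∈ nb Q, ∀ l : ℕ, b (up l Q') ≤
    C1 * (b (up (Q'.1 - Q.1 + l + e) Q) + D (up (Q'.1 - Q.1 + l + e) Q) + D (up l Q'))
  b2 : ∀ Q, ∀ Q' ∈ nb Q, ∀ l : ℕ, b (up l Q) ≤
    C1 * (b (up (l + e) Q') + D (up (l + e) Q') + D (up l Q))

/-- MODULE TY: types of cells -/
def StmtTY : Prop :=
  ∀ (C1 : ℝ) (J e : ℕ), ∃ Cθ : ℝ, 1 ≤ Cθ ∧ ∀ θ : ℝ, 0 < θ → θ ≤ 1 →
    ∃ (C : ℝ) (nI : ℕ), 0 < C ∧ ∀ K : ℝ, Cθ / θ ≤ K →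
    ∀ d0 : ℝ, 0 < d0 → d0 ≤ 1 → ∃ d1 : ℝ, 0 < d1 ∧ d1 ≤ d0 ∧
    ∀ (d : ℕ) (γ : ℝ), 0 < γ → γ ≤ 1 / 8 →
    ∀ (nb : Cell d → Finset (Cell d)) (a ah at' D b : Cell d → ℝ),
      Rob C1 J e nb a ah at' D b →
      (∀ Q, Q ∉ WL γ θ ah at' → 0 < ah Q ∧
        ∀ l : ℕ, θ * at' (up l Q) ≤ (2 : ℝ) ^ (γ * l) * ah Q) ∧
      (∀ Q ∈ Solid γ θ d1 a ah at' D, ∀ Q' ∈ nb Q,
        Q' ∈ Strc γ K d0 a at' D ∧ a Q' ≤ C * a Q ∧ a Q ≤ C * a Q' ∧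
        sh b Q' + sh D Q' ≤ C * (sh b Q + sh D Q) ∧
        sh b Q + sh D Q ≤ C * (sh b Q' + sh D Q')) ∧
      (∀ κ0 : ℝ, 0 < κ0 → ∀ n : ℕ, ∀ Q ∈ Solid γ θ d1 a ah at' D,
        {j | j < n ∧ Q ∉ Intr (κ0 * (1 / 2) ^ j) a D b nb}.ncard ≤ nI) ∧
      (∀ κ δ : ℝ, ∀ m : ℕ, ∀ (TG : Cell d → ℝ) (Ct : ℝ), 1 ≤ Ct → 2 * Ct * δ ≤ 1 → Ct * δ ≤ d1 / 4 →
        θ * (4 * Ct) ≤ 1 →
        (∀ P, (∀ l : ℕ, at' (up l P) ≤ (2 : ℝ) ^ (γ * l) * at' P) → at' P ≤ Ct * (ah P + TG P)) →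
        CIII γ κ δ m at' D b TG ⊆ Solid γ θ d1 a ah at' D)

/-- MODULE MJ: summation of the local inequalities (P), (Q1), (Q2) -/
def StmtMJ : Prop :=
  ∀ (d J ρ : ℕ) (C1 c0 : ℝ), 1 ≤ d → 0 < C1 → 0 < c0 → ∃ (η1 C : ℝ), 0 < η1 ∧ 0 < C ∧
    ∀ (η2 CK Cs : ℝ), 0 ≤ η2 → 0 ≤ CK → 0 ≤ Cs → ∃ C' : ℝ, 0 < C' ∧
    ∀ (s0 tot : ℝ) (nb : Cell d → Finset (Cell d))
      (N val cost sB pay iF fx fb : Cell d → ℝ) (S3 S4 : Set (Cell d)),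
      0 < s0 → 0 ≤ tot → (∀ Q, nb Q ⊆ box J ρ Q) →
      (∀ Q, 0 ≤ val Q) → (∀ Q, 0 ≤ cost Q) → (∀ Q, 0 ≤ sB Q) → (∀ Q, 0 ≤ pay Q) →
      (∀ Q, 0 ≤ iF Q) →
      (∀ Q, c0 * (cw s0 Q * val Q) ≤ N Q + cw s0 Q * ∑ Q' ∈ nb Q, (η1 * val Q' + C1 * cost Q'
        + η2 * sB Q' + CK * iF Q' + Cs * pay Q')) →
      Summable N → ∑' Q, N Q ≤ Cs * tot →
      (∀ Q ∈ S3, fx Q ≤ ∑ Q' ∈ nb Q, (C1 * val Q' + C1 * cost Q' + η2 * sB Q' + CK * iF Q'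
        + Cs * pay Q')) →
      (∀ Q ∈ S4, fb Q ≤ ∑ Q' ∈ nb Q, (C1 * val Q' + C1 * cost Q' + η2 * sB Q' + CK * iF Q'
        + Cs * pay Q')) →
      cs univ (fun Q => cw s0 Q * pay Q) ≤ ENNReal.ofReal (Cs * tot) →
      cs univ (fun Q => cw s0 Q * val Q) < ∞ →
      cs S3 (fun Q => cw s0 Q * fx Q) + cs S4 (fun Q => cw s0 Q * fb Q) ≤
        ENNReal.ofReal (C' * tot) + ENNReal.ofReal (C * η2) * cs univ (fun Q => cw s0 Q * sB Q)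
          + ENNReal.ofReal (C * CK) * cs univ (fun Q => cw s0 Q * iF Q)
          + ENNReal.ofReal C * cs univ (fun Q => cw s0 Q * cost Q)

end

end TG
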