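import Pool.Agent.TG.Conc
import Pool.Agent.TG.TreeDefs2
import Pool.Agent.TG.CT8
set_option autoImplicit false
set_option linter.unusedSectionVars false

/-!
# Module RB: robustness of the cell functions (the structure Rob for the concrete functions)
-/

open MeasureTheory Metric Set TrI
open scoped InnerProductSpace ContDiff ENNReal

namespace TG

noncomputable section

/-- MODULE RB: the structure Rob for the concrete cell functions; radii 64 R0, 32 R0, shift 3 -/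
def StmtRB : Prop :=
  ∀ (d : ℕ), 2 ≤ d → ∀ (M c0 ε : ℝ), 0 < ε → ε ≤ 1 → ∀ (b : Sp d → ℝ), BaseKer 2 M c0 b →
  ∀ (R0 : ℝ) (J : ℕ), 400 + 8 * d ≤ R0 → ∃ C1 : ℝ, 1 ≤ C1 ∧
    ∀ (E : Type) [NormedAddCommGroup E] [InnerProductSpace ℝ E] [FiniteDimensional ℝ E]
      [Nontrivial E] (f : Sp d → E), Continuous f → HasCompactSupport f →
    ∀ R : ℝ, 128 * R0 ≤ R → ∀ s0 : ℝ, 0 < s0 → ∀ e : Cell d → E, Dirs b ε R s0 f e →
    ∀ (ν : Cell d → Sp d) (c : Cell d → ℝ), Plns R0 s0 f e ν c →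
    ∀ nb : Cell d → Finset (Cell d), (∀ Q, Q ∈ nb Q) →
      (∀ Q, ∀ Q' ∈ nb Q, Q.1 ≤ Q'.1 ∧ Q'.1 ≤ Q.1 + J ∧
        ‖xC s0 Q' - xC s0 Q‖ ≤ 4 * R0 * lev s0 Q'.1) →
      Rob C1 J 3 nb (mC b ε (64 * R0) s0 f) (mC b ε (32 * R0) s0 f) (mT b ε s0 f)
        (dC b ε R s0 f e) (bC R0 s0 f e ν c)

namespace RB

variable {d : ℕ}

lemma lev_add' (s0 : ℝ) (i m : ℕ) : lev s0 (i + m) = 2 ^ m * lev s0 i := by
  unfold lev; rw [pow_add]; ring

lemma sqrt_le {d : ℕ} : Real.sqrt (d : ℝ) ≤ d := by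
  rcases Nat.eq_zero_or_pos d with h | h
  · simp [h]
  · have h1 : (1 : ℝ) ≤ d := by exact_mod_cast h
    rw [Real.sqrt_le_left (by linarith)]
    nlinarith

/-- distance between the ancestor of Q' and a higher ancestor of Q -/
lemma geo1 {s0 R0 : ℝ} (hs : 0 < s0) {Q Q' : Cell d} (hle : Q.1 ≤ Q'.1)
    (hR : 0 ≤ R0) (hdist : ‖xC s0 Q' - xC s0 Q‖ ≤ 4 * R0 * lev s0 Q'.1) (l : ℕ) :
    ‖xC s0 (up (Q'.1 - Q.1 + l + 3) Q) - xC s0 (up l Q')‖ ≤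
      (4 * R0 + 9 * d) * lev s0 (Q'.1 + l) := by
  have h1 := CT8.up_dist hs l Q'
  have h2 := CT8.up_dist hs (Q'.1 - Q.1 + l + 3) Q
  have e1 : Q.1 + (Q'.1 - Q.1 + l + 3) = (Q'.1 + l) + 3 := by omega
  rw [e1, lev_add' s0 (Q'.1 + l) 3] at h2
  have hL := CT8.lev_pos hs (Q'.1 + l)
  have h3 : lev s0 Q'.1 ≤ lev s0 (Q'.1 + l) := by
    rw [lev_add']
    have h4 := CT8.lev_pos hs Q'.1
    have h5 : (1 : ℝ) ≤ 2 ^ l := one_le_pow₀ (by norm_num)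
    nlinarith
  have h6 : ‖xC s0 (up (Q'.1 - Q.1 + l + 3) Q) - xC s0 (up l Q')‖ ≤
      ‖xC s0 (up (Q'.1 - Q.1 + l + 3) Q) - xC s0 Q‖ + ‖xC s0 Q' - xC s0 Q‖
        + ‖xC s0 (up l Q') - xC s0 Q'‖ := by
    have e2 : xC s0 (up (Q'.1 - Q.1 + l + 3) Q) - xC s0 (up l Q') =
      (xC s0 (up (Q'.1 - Q.1 + l + 3) Q) - xC s0 Q) - (xC s0 Q' - xC s0 Q)
        - (xC s0 (up l Q') - xC s0 Q') := by abel
    rw [e2]
    exact (norm_sub_le _ _).trans (add_le_add (norm_sub_le _ _) le_rfl)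
  have hsq := @sqrt_le d
  have h7 : 4 * R0 * lev s0 Q'.1 ≤ 4 * R0 * lev s0 (Q'.1 + l) :=
    mul_le_mul_of_nonneg_left h3 (by linarith)
  have h8 : Real.sqrt d * (2 ^ 3 * lev s0 (Q'.1 + l)) ≤ d * (2 ^ 3 * lev s0 (Q'.1 + l)) :=
    mul_le_mul_of_nonneg_right hsq (by positivity)
  have h9 : Real.sqrt d * lev s0 (Q'.1 + l) ≤ d * lev s0 (Q'.1 + l) :=
    mul_le_mul_of_nonneg_right hsq hL.le
  nlinarith

/-- distance between the ancestor of Q and a higher ancestor of Q' -/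
lemma geo2 {s0 R0 : ℝ} (hs : 0 < s0) {Q Q' : Cell d} (hle : Q.1 ≤ Q'.1)
    (hR : 0 ≤ R0) (hdist : ‖xC s0 Q' - xC s0 Q‖ ≤ 4 * R0 * lev s0 Q'.1) (l : ℕ) :
    ‖xC s0 (up (l + 3) Q') - xC s0 (up l Q)‖ ≤
      (4 * R0 + 9 * d) * (2 ^ (Q'.1 - Q.1) * lev s0 (Q.1 + l)) := by
  have h1 := CT8.up_dist hs l Q
  have h2 := CT8.up_dist hs (l + 3) Q'
  have e1 : Q'.1 + (l + 3) = ((Q.1 + l) + (Q'.1 - Q.1)) + 3 := by omega
  rw [e1, lev_add' s0 _ 3, lev_add' s0 (Q.1 + l)] at h2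
  have hL := CT8.lev_pos hs (Q.1 + l)
  have h5 : (1 : ℝ) ≤ 2 ^ (Q'.1 - Q.1) := one_le_pow₀ (by norm_num)
  have h3 : lev s0 Q'.1 ≤ 2 ^ (Q'.1 - Q.1) * lev s0 (Q.1 + l) := by
    have e2 : Q'.1 = Q.1 + (Q'.1 - Q.1) := by omega
    have e3 : lev s0 Q'.1 = 2 ^ (Q'.1 - Q.1) * lev s0 Q.1 := by
      conv_lhs => rw [e2, lev_add']
    rw [e3]
    refine mul_le_mul_of_nonneg_left ?_ (by positivity)
    rw [lev_add']
    have h4 := CT8.lev_pos hs Q.1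
    have h6 : (1 : ℝ) ≤ 2 ^ l := one_le_pow₀ (by norm_num)
    nlinarith
  have h6 : ‖xC s0 (up (l + 3) Q') - xC s0 (up l Q)‖ ≤
      ‖xC s0 (up (l + 3) Q') - xC s0 Q'‖ + ‖xC s0 Q' - xC s0 Q‖
        + ‖xC s0 (up l Q) - xC s0 Q‖ := by
    have e2 : xC s0 (up (l + 3) Q') - xC s0 (up l Q) =
      (xC s0 (up (l + 3) Q') - xC s0 Q') + (xC s0 Q' - xC s0 Q)
        - (xC s0 (up l Q) - xC s0 Q) := by abel
    rw [e2]
    exact (norm_sub_le _ _).trans (add_le_add (norm_add_le _ _) le_rfl)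
  have hsq := @sqrt_le d
  set W : ℝ := 2 ^ (Q'.1 - Q.1) * lev s0 (Q.1 + l) with hW
  have hWL : lev s0 (Q.1 + l) ≤ W := by rw [hW]; nlinarith
  have hW0 : 0 < W := by positivity
  have h7 : 4 * R0 * lev s0 Q'.1 ≤ 4 * R0 * W := mul_le_mul_of_nonneg_left h3 (by linarith)
  have h8 : Real.sqrt d * (2 ^ 3 * W) ≤ d * (2 ^ 3 * W) :=
    mul_le_mul_of_nonneg_right hsq (by positivity)
  have h9 : Real.sqrt d * lev s0 (Q.1 + l) ≤ d * W :=
    mul_le_mul hsq hWL hL.le (Nat.cast_nonneg d)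
  nlinarith

end RB

open RB in
theorem stmtRB (h2 : StmtCT2) (h4 : StmtCT4) (h5 : StmtCT5) : StmtRB := by
  intro d hd M c0 ε hε hε1 b hb R0 J hR0
  have hd1 : 1 ≤ d := by omega
  have hdr : (2 : ℝ) ≤ d := by exact_mod_cast hd
  have hR00 : 0 ≤ R0 := by nlinarith
  obtain ⟨C4, hC4, H4⟩ := h4 d hd1 (4 * R0) (by linarith)
  choose F hF0 HF using fun m : ℕ => h5 d hd1 M c0 ε hε hε1 b hb R0 m (by linarith)
  set S : ℝ := ∑ m ∈ Finset.range (J + 4), F m with hS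
  have hFS : ∀ m ≤ J + 3, F m ≤ S := fun m hm =>
    Finset.single_le_sum (f := F) (fun i _ => (hF0 i).le) (Finset.mem_range.2 (by omega))
  have hS0 : 0 < S := (hF0 0).trans_le (hFS 0 (by omega))
  set T : ℝ := (1 + 64 * R0) ^ (d + 2) with hT
  have hT0 : 0 ≤ T := by positivity
  refine ⟨C4 + S + S * S + T, by nlinarith [mul_nonneg hS0.le hS0.le], ?_⟩
  intro E _ _ _ _ f hf hcs R hR s0 hs e he ν c hpl nb hself hnb
  set C1 : ℝ := C4 + S + S * S + T with hC1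
  have hSS : 0 ≤ S * S := mul_nonneg hS0.le hS0.le
  have hC1S : S ≤ C1 := by rw [hC1]; linarith
  have hC14 : C4 ≤ C1 := by rw [hC1]; linarith
  have hC1T : T ≤ C1 := by rw [hC1]; linarith
  have hC1SS : S * S ≤ C1 := by rw [hC1]; linarith
  obtain ⟨C2, hC2, H2⟩ := h2 d hd1 M c0 ε R hε hε1 (by linarith) b hb
  obtain ⟨G1, G2, -⟩ := H2 E f hf hcs s0 hs e he
  obtain ⟨K1, K2, K3, -⟩ := H4 M c0 ε hε hε1 b hb E f hf hcs s0 hs
  have hRR : 2 * R0 + 10 ≤ R := by linarith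
  have A1 := fun m => (HF m E R hRR f hf hcs s0 hs e he ν c hpl).1
  have A2 := fun m => (HF m E R hRR f hf hcs s0 hs e he ν c hpl).2.1
  have A3 := fun m => (HF m E R hRR f hf hcs s0 hs e he ν c hpl).2.2.1
  have A4 := fun m => (HF m E R hRR f hf hcs s0 hs e he ν c hpl).2.2.2.1
  have hm0 : ∀ (r : ℝ) (Q : Cell d), 0 ≤ mC b ε r s0 f Q := by
    intro r Q
    have h1 : 0 < lev s0 Q.1 := CT8.lev_pos hs _
    unfold mC ma
    exact mul_nonneg (by positivity) (setIntegral_nonneg measurableSet_ball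
      fun y _ => norm_nonneg _)
  have hT0' : ∀ Q : Cell d, 0 ≤ mT b ε s0 f Q := by
    intro Q
    have h1 : 0 < lev s0 Q.1 := CT8.lev_pos hs _
    unfold mT nw
    refine mul_nonneg (by positivity) (integral_nonneg fun y => ?_)
    positivity
  have hnw : ∀ Q : Cell d, nw s0 Q ≤ s0 / s0 ^ d := by
    intro Q
    have h1 : 0 < lev s0 Q.1 := CT8.lev_pos hs _
    have e0 : lev s0 0 = s0 := by simp [lev]
    have h6 : s0 ≤ lev s0 Q.1 := by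
      have : lev s0 Q.1 = 2 ^ Q.1 * lev s0 0 := by
        have := lev_add' s0 0 Q.1
        rwa [zero_add] at this
      rw [this, e0]
      have h7 : (1 : ℝ) ≤ 2 ^ Q.1 := one_le_pow₀ (by norm_num)
      nlinarith
    obtain ⟨k, rfl⟩ : ∃ k, d = k + 1 := ⟨d - 1, by omega⟩
    have e1 : ∀ t : ℝ, 0 < t → t / t ^ (k + 1) = 1 / t ^ k := by
      intro t ht
      rw [pow_succ]
      field_simp
    unfold nw
    rw [e1 _ h1, e1 _ hs]
    exact one_div_le_one_div_of_le (by positivity) (pow_le_pow_left₀ hs.le h6 k)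
  have hint : 0 ≤ ∫ y, ‖f y‖ := integral_nonneg fun y => norm_nonneg _
  have hatb : ∀ Q : Cell d, mT b ε s0 f Q ≤ s0 / s0 ^ d * ∫ y, ‖f y‖ := fun Q =>
    (K2 Q).trans (mul_le_mul_of_nonneg_right (hnw Q) hint)
  have hDm : ∀ m ≤ J + 3, ∀ Q P : Cell d, P.1 = Q.1 + m →
      ‖xC s0 P - xC s0 Q‖ ≤ R * (lev s0 P.1 - lev s0 Q.1) →
      dC b ε R s0 f e Q ≤ S * dC b ε R s0 f e P := by
    intro m hm Q P hQP hdist
    exact (A2 m Q P hQP hdist).trans (mul_le_mul_of_nonneg_right (hFS m hm) (G1 P))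
  have hbm : ∀ m ≤ J + 3, ∀ Q P : Cell d, P.1 = Q.1 + m →
      ‖xC s0 P - xC s0 Q‖ ≤ R0 * lev s0 P.1 - (R0 + 1) * lev s0 Q.1 →
      bC R0 s0 f e ν c Q ≤ S * (bC R0 s0 f e ν c P + dC b ε R s0 f e Q +
          dC b ε R s0 f e P) := by
    intro m hm Q P hQP hdist
    refine (A3 m Q P hQP hdist).trans (mul_le_mul_of_nonneg_right (hFS m hm) ?_)
    have g1 := (A1 0 P).2.1
    have g2 := G1 P
    have g3 := G1 Q
    linarith
  have hbn : ∀ Q, 0 ≤ bC R0 s0 f e ν c Q := fun Q => (A1 0 Q).2.1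
  -- the four distances
  have hd1' : ∀ Q, ∀ Q' ∈ nb Q, ∀ l : ℕ,
      ‖xC s0 (up (Q'.1 - Q.1 + l + 3) Q) - xC s0 (up l Q')‖ ≤
        R0 * lev s0 (up (Q'.1 - Q.1 + l + 3) Q).1 - (R0 + 1) * lev s0 (up l Q').1 := by
    intro Q Q' hQ' l
    obtain ⟨g1, g2, g3⟩ := hnb Q Q' hQ'
    refine (geo1 hs g1 hR00 g3 l).trans ?_
    have e1 : (up (Q'.1 - Q.1 + l + 3) Q).1 = (Q'.1 + l) + 3 := by
      show Q.1 + (Q'.1 - Q.1 + l + 3) = (Q'.1 + l) + 3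
      omega
    have e2 : (up l Q').1 = Q'.1 + l := rfl
    rw [e1, e2, lev_add' s0 (Q'.1 + l) 3]
    have hL := CT8.lev_pos hs (Q'.1 + l)
    nlinarith
  have hd2' : ∀ Q, ∀ Q' ∈ nb Q, ∀ l : ℕ,
      ‖xC s0 (up (l + 3) Q') - xC s0 (up l Q)‖ ≤
        R0 * lev s0 (up (l + 3) Q').1 - (R0 + 1) * lev s0 (up l Q).1 := by
    intro Q Q' hQ' l
    obtain ⟨g1, g2, g3⟩ := hnb Q Q' hQ'
    refine (geo2 hs g1 hR00 g3 l).trans ?_
    have e1 : (up (l + 3) Q').1 = ((Q.1 + l) + (Q'.1 - Q.1)) + 3 := by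
      show Q'.1 + (l + 3) = ((Q.1 + l) + (Q'.1 - Q.1)) + 3
      omega
    have e2 : (up l Q).1 = Q.1 + l := rfl
    rw [e1, e2, lev_add' s0 _ 3, lev_add' s0 (Q.1 + l)]
    have hL := CT8.lev_pos hs (Q.1 + l)
    have h5 : (1 : ℝ) ≤ 2 ^ (Q'.1 - Q.1) := one_le_pow₀ (by norm_num)
    set W : ℝ := 2 ^ (Q'.1 - Q.1) * lev s0 (Q.1 + l) with hW
    have hWL : lev s0 (Q.1 + l) ≤ W := by rw [hW]; nlinarith
    nlinarith
  have hconv : ∀ Q P : Cell d,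
      ‖xC s0 P - xC s0 Q‖ ≤ R0 * lev s0 P.1 - (R0 + 1) * lev s0 Q.1 → 
      ‖xC s0 P - xC s0 Q‖ ≤ R * (lev s0 P.1 - lev s0 Q.1) := by
    intro Q P h
    have h1 := norm_nonneg (xC s0 P - xC s0 Q)
    have h3 := CT8.lev_pos hs P.1
    have h4 := CT8.lev_pos hs Q.1
    have h6 : 0 ≤ lev s0 P.1 - lev s0 Q.1 := by
      by_contra hneg
      rw [not_le] at hneg
      nlinarith
    nlinarith
  refine ⟨by rw [hC1]; nlinarith, hself, fun Q Q' h => ⟨(hnb Q Q' h).1, (hnb Q Q' h).2.1⟩,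
    fun Q => hm0 _ Q, G1, hbn, hT0', ⟨_, hatb⟩, G2, ?_, ?_, ?_, ?_, ?_, ?_, ?_, ?_, ?_⟩
  · -- b bounded
    obtain ⟨B, hB⟩ := G2
    refine ⟨F 0 * ((1 + (R0 + 3)) ^ (d + 2) * (s0 / s0 ^ d * ∫ y, ‖f y‖) + B), fun Q => ?_⟩
    refine (A1 0 Q).2.2.trans (mul_le_mul_of_nonneg_left (add_le_add ?_ (hB Q)) (hF0 0).le)
    exact (K1 (R0 + 3) (by linarith) Q).trans
      (mul_le_mul_of_nonneg_left (hatb Q) (by positivity))
  · -- ah ≤ a
    intro Q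
    have h1 : 0 < lev s0 Q.1 := CT8.lev_pos hs _
    unfold mC ma
    refine mul_le_mul_of_nonneg_left ?_ (by positivity)
    have hfc : Continuous (fl b ε s0 f (Q.1 - 1)) := fl_cont hb.ak ε s0 hf _
    have hfs : HasCompactSupport (fl b ε s0 f (Q.1 - 1)) := fl_cs hb.ak ε s0 hcs _
    have hint2 : Integrable fun y => ‖fl b ε s0 f (Q.1 - 1) y‖ :=
      hfc.norm.integrable_of_hasCompactSupport hfs.norm
    exact setIntegral_mono_set hint2.integrableOn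
      (Filter.Eventually.of_forall fun y => norm_nonneg _)
      (ball_subset_ball (by nlinarith)).eventuallyLE
  · -- a ≤ C1 at
    intro Q
    exact (K1 (64 * R0) (by linarith) Q).trans (mul_le_mul_of_nonneg_right hC1T (hT0' Q))
  · -- at1
    intro Q Q' hQ' l
    obtain ⟨g1, g2, g3⟩ := hnb Q Q' hQ'
    have h := (K3 (Q'.1 - Q.1) Q Q' (by omega) g3 l).1
    rw [add_comm l] at h
    exact h.trans (mul_le_mul_of_nonneg_right hC14 (hT0' _))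
  · -- D1
    intro Q Q' hQ' l
    obtain ⟨g1, g2, g3⟩ := hnb Q Q' hQ'
    have h := hDm 3 (by omega) (up l Q') (up (Q'.1 - Q.1 + l + 3) Q)
      (by show Q.1 + (Q'.1 - Q.1 + l + 3) = Q'.1 + l + 3; omega) (hconv _ _ (hd1' Q Q' hQ' l))
    exact h.trans (mul_le_mul_of_nonneg_right hC1S (G1 _))
  · -- D2
    intro Q Q' hQ' l
    obtain ⟨g1, g2, g3⟩ := hnb Q Q' hQ'
    have h := hDm (Q'.1 - Q.1 + 3) (by omega) (up l Q) (up (l + 3) Q')
      (by show Q'.1 + (l + 3) = Q.1 + l + (Q'.1 - Q.1 + 3); omega)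
      (hconv _ _ (hd2' Q Q' hQ' l))
    exact h.trans (mul_le_mul_of_nonneg_right hC1S (G1 _))
  · -- m1
    intro Q Q' hQ'
    obtain ⟨g1, g2, g3⟩ := hnb Q Q' hQ'
    have e0 : Q'.1 = Q.1 + (Q'.1 - Q.1) := by omega
    have hL := CT8.lev_pos hs Q.1
    have hL' := CT8.lev_pos hs Q'.1
    have hLL : lev s0 Q.1 ≤ lev s0 Q'.1 := by
      rw [e0, lev_add']
      have h5 : (1 : ℝ) ≤ 2 ^ (Q'.1 - Q.1) := one_le_pow₀ (by norm_num)
      nlinarith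
    have h1 := A4 (Q'.1 - Q.1) Q Q' e0 (32 * R0) (64 * R0) (by linarith) (by linarith)
      (by nlinarith)
    have h6 := hDm (J + 3 - (Q'.1 - Q.1)) (by omega) Q' (up (J + 3) Q)
      (by show Q.1 + (J + 3) = Q'.1 + (J + 3 - (Q'.1 - Q.1)); omega) (by
        refine hconv _ _ ?_
        have h7 := CT8.up_dist hs (J + 3) Q
        have e3 : (up (J + 3) Q).1 = Q.1 + (J + 3) := rfl
        rw [e3]
        have h8 : 8 * lev s0 Q'.1 ≤ lev s0 (Q.1 + (J + 3)) := by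
          have e4 : Q.1 + (J + 3) = (Q'.1 + 3) + (J - (Q'.1 - Q.1)) := by omega
          rw [e4, lev_add' s0 (Q'.1 + 3), lev_add' s0 Q'.1 3]
          have h9 : (1 : ℝ) ≤ 2 ^ (J - (Q'.1 - Q.1)) := one_le_pow₀ (by norm_num)
          nlinarith
        have h10 : ‖xC s0 (up (J + 3) Q) - xC s0 Q'‖ ≤
            ‖xC s0 (up (J + 3) Q) - xC s0 Q‖ + ‖xC s0 Q' - xC s0 Q‖ := by
          have e5 : xC s0 (up (J + 3) Q) - xC s0 Q' =
            (xC s0 (up (J + 3) Q) - xC s0 Q) - (xC s0 Q' - xC s0 Q) := by abel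
          rw [e5]; exact norm_sub_le _ _
        have hsq := @RB.sqrt_le d
        have h11 : Real.sqrt d * lev s0 (Q.1 + (J + 3)) ≤ d * lev s0 (Q.1 + (J + 3)) :=
          mul_le_mul_of_nonneg_right hsq (CT8.lev_pos hs _).le
        nlinarith)
    have h12 : F (Q'.1 - Q.1) ≤ S := hFS _ (by omega)
    have h13 : mC b ε (64 * R0) s0 f Q' + dC b ε R s0 f e Q' ≤
        mC b ε (64 * R0) s0 f Q' + S * dC b ε R s0 f e (up (J + 3) Q) := by linarith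
    have h14 := hm0 (64 * R0) Q'
    have h15 := G1 Q'
    have h16 := G1 (up (J + 3) Q)
    calc mC b ε (32 * R0) s0 f Q ≤ F (Q'.1 - Q.1) *
          (mC b ε (64 * R0) s0 f Q' + dC b ε R s0 f e Q') := h1
      _ ≤ S * (mC b ε (64 * R0) s0 f Q' + S * dC b ε R s0 f e (up (J + 3) Q)) :=
          mul_le_mul h12 h13 (by linarith) hS0.le
      _ = S * mC b ε (64 * R0) s0 f Q' + S * S * dC b ε R s0 f e (up (J + 3) Q) := by ring
      _ ≤ C1 * mC b ε (64 * R0) s0 f Q' + C1 * dC b ε R s0 f e (up (J + 3) Q) :=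
          add_le_add (mul_le_mul_of_nonneg_right hC1S h14)
            (mul_le_mul_of_nonneg_right hC1SS h16)
      _ = C1 * (mC b ε (64 * R0) s0 f Q' + dC b ε R s0 f e (up (J + 3) Q)) := by ring
  · -- b1
    intro Q Q' hQ' l
    obtain ⟨g1, g2, g3⟩ := hnb Q Q' hQ'
    have h := hbm 3 (by omega) (up l Q') (up (Q'.1 - Q.1 + l + 3) Q)
      (by show Q.1 + (Q'.1 - Q.1 + l + 3) = Q'.1 + l + 3; omega) (hd1' Q Q' hQ' l)
    have k1 := hbn (up (Q'.1 - Q.1 + l + 3) Q)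
    have k2 := G1 (up (Q'.1 - Q.1 + l + 3) Q)
    have k3 := G1 (up l Q')
    have h' : S * (bC R0 s0 f e ν c (up (Q'.1 - Q.1 + l + 3) Q) + dC b ε R s0 f e (up l Q') +
        dC b ε R s0 f e (up (Q'.1 - Q.1 + l + 3) Q)) ≤
        C1 * (bC R0 s0 f e ν c (up (Q'.1 - Q.1 + l + 3) Q) + dC b ε R s0 f e (up l Q') +
        dC b ε R s0 f e (up (Q'.1 - Q.1 + l + 3) Q)) :=
      mul_le_mul_of_nonneg_right hC1S (by linarith)
    linarith
  · -- b2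
    intro Q Q' hQ' l
    obtain ⟨g1, g2, g3⟩ := hnb Q Q' hQ'
    have h := hbm (Q'.1 - Q.1 + 3) (by omega) (up l Q) (up (l + 3) Q')
      (by show Q'.1 + (l + 3) = Q.1 + l + (Q'.1 - Q.1 + 3); omega) (hd2' Q Q' hQ' l)
    have k1 := hbn (up (l + 3) Q')
    have k2 := G1 (up (l + 3) Q')
    have k3 := G1 (up l Q)
    have h' : S * (bC R0 s0 f e ν c (up (l + 3) Q') + dC b ε R s0 f e (up l Q) +
        dC b ε R s0 f e (up (l + 3) Q')) ≤
        C1 * (bC R0 s0 f e ν c (up (l + 3) Q') + dC b ε R s0 f e (up l Q) +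
        dC b ε R s0 f e (up (l + 3) Q')) :=
      mul_le_mul_of_nonneg_right hC1S (by linarith)
    linarith

end

end TG
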