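import Pool.Agent.TG.FHa
import Pool.Agent.TG.FHb
import Pool.Agent.TG.RB

/-!
# MODULE FH: the facts FinH for the concrete functions  (helper98)
-/

open MeasureTheory Metric Set TrI
open scoped InnerProductSpace ContDiff ENNReal

namespace TG

noncomputable section

theorem stmtFH (h1 : StmtCT1) (h2 : StmtCT2) (h3 : StmtCT3) (h4 : StmtCT4) (h5 : StmtCT5)
    (h7 : StmtCT7) (hRB : StmtRB) (hWH : StmtWH) (hLS : StmtLS) (hFF : StmtFF) : StmtFH := by
  intro d hd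
  have hd1 : 1 ≤ d := by omega
  have hdR : (2 : ℝ) ≤ d := by exact_mod_cast hd
  obtain ⟨Rt, hRt, gA⟩ := FHam.partA h1 h2 h3 h7 hd
  refine ⟨Rt, hRt, ?_⟩
  intro M c0 ε hε hε1 b hb C' p0 A R0 ρ JA hC' hp0 hp1 hA hR0 hRt0 hρ
  have hR0' : 400 + 8 * (d : ℝ) ≤ R0 := by linarith
  obtain ⟨CA, hCA, gA⟩ := gA M c0 ε hε hε1 b hb C' R0 ρ hC' hR0' hRt0 (by linarith)
  obtain ⟨CB, hCB, gB⟩ := FHbm.partB h4 h5 hd M c0 ε hε hε1 b hb R0 hR0'
  obtain ⟨CL, hCL, gL⟩ := hLS d hd1 M c0 ε (64 * R0) hε hε1 (by linarith) b hb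
  obtain ⟨C1R, hC1R, gR⟩ := hRB d hd M c0 ε hε hε1 b hb R0 (JA + 9) hR0'
  obtain ⟨Cu, Nb, ρb, hCu, gW⟩ := hWH d hd C' p0 A R0 ρ JA hC' hp0 hp1 hA (by linarith)
    (by linarith)
  refine ⟨CA + CB + CL, Cu, C1R, CA + CB + CL, Nb, ρb, by linarith, hCu, hC1R, by linarith, ?_⟩
  intro R hR
  obtain ⟨Λ, hΛ, gA⟩ := gA R hR
  refine ⟨Λ, hΛ, ?_⟩
  intro E _ _ _ _ f hf hc μ hμ s0 h e he ν c hν γ hγ hγ1
  set Cb := CA + CB + CL with hCb
  obtain ⟨a1, a2, a3, a4, a5, a6, a7, a8, a9⟩ := gA E f hf hc μ hμ s0 h e he Cb (by linarith)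
  obtain ⟨b1, b2, b3, b4, b5, b6, b7⟩ := gB R hR E f hf hc μ s0 h e he ν c hν Cb (by linarith)
  obtain ⟨w1, w2, w3⟩ := gW μ hμ s0 h
  obtain ⟨f1, -⟩ := hFF d hd C' hC' μ hμ M c0 ε hε hε1 b hb R0 R ρ hR0' (by linarith)
    (by linarith) E f hf hc s0 h e he ν c hν ∅ 0 0 (fun P hP => hP.elim)
  have hI : 0 ≤ ∫ y, ‖f y‖ := integral_nonneg fun y => norm_nonneg _
  constructor
  case T => exact a1
  case W => exact w1
  case R =>
    exact gR E f hf hc R (by linarith) s0 h e he ν c hν (nst s0 (3 * R0 + d) (JA + 9))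
      (fun Q => w1.ns_nb Q (w1.self Q)) w3
  case box => exact w2
  case al0 => exact b1
  case al_ah => exact b2
  case b_al => exact b3
  case b_at => exact b4
  case oml_le => exact a2
  case oml_omp => exact a3
  case v_le => exact a4
  case omp_v => exact a5
  case omp9 => exact a6
  case b9 => exact b5
  case TG0 => exact a7
  case TGs => exact a8
  case flat => exact fun P hP => a9 γ hγ1 P hP
  case ah9 => exact b6
  case Y0 => exact b7
  case LS =>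
    intro i
    refine (gL E f hf hc s0 h i).trans (ENNReal.ofReal_le_ofReal ?_)
    exact mul_le_mul (by linarith) (le_mul_of_one_le_left hI hΛ) hI (by linarith)
  case fin1 =>
    have h8 : (fun Q : Cell d => cw s0 Q * (bC R0 s0 f e ν c Q * oC μ ρ s0 Q)) =
        fun Q => cw s0 Q * bC R0 s0 f e ν c Q * oC μ ρ s0 Q := funext fun Q => by ring
    rw [h8]
    exact f1

end

end TG
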