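import Pool.Agent.TG.Stmts13

/-!
# MODULE FM: change of frame (helper79)
-/

open MeasureTheory Metric Set TrI
open scoped InnerProductSpace ContDiff ENNReal

namespace TG

namespace FMAux

noncomputable section

variable {d : ℕ}

lemma lev_pos {s0 : ℝ} (h : 0 < s0) (i : ℕ) : 0 < lev s0 i := by
  unfold lev
  positivity

lemma lev_add (s0 : ℝ) (i r : ℕ) : lev s0 (i + r) = 2 ^ r * lev s0 i := by
  unfold lev
  rw [pow_add]
  ring

lemma x_tw {s0 : ℝ} (h : 0 < s0) (Q P : Cell d) :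
    xC s0 Q + lev s0 Q.1 • tw s0 Q P = xC s0 P := by
  unfold tw
  rw [smul_smul, mul_one_div_cancel (lev_pos h _).ne', one_smul]
  abel

lemma mQ_frame {E : Type} [NormedAddCommGroup E] [InnerProductSpace ℝ E]
    {s0 : ℝ} (h : 0 < s0) (f : Sp d → E) (e : E) (Q P : Cell d) (l : ℕ)
    (hP : P.1 = Q.1 + l) (y : Sp d) :
    mQ s0 f e P y = 2 ^ l * mQ s0 f e Q (tw s0 Q P + (2 : ℝ) ^ l • y) := by
  unfold mQ rs
  rw [hP, lev_add, smul_add, smul_smul, ← add_assoc, x_tw h, real_inner_smul_left,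
    real_inner_smul_left, mul_comm (lev s0 Q.1) (2 ^ l)]
  ring

lemma int_scale (g : Sp d → ℝ) (x : Sp d) {t : ℝ} (ht : 0 < t) :
    ∫ y, g (x + t • y) = 1 / t ^ d * ∫ y, g y := by
  have h1 := Measure.integral_comp_smul_of_nonneg (volume : Measure (Sp d))
    (fun w => g (x + w)) t (hR := ht.le)
  rw [h1, integral_add_left_eq_self g x, finrank_euclideanSpace_fin]
  simp

lemma finrank_perp {n : Sp d} (hn : ‖n‖ = 1) :
    Module.finrank ℝ (Submodule.span ℝ {n})ᗮ = d - 1 := by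
  have h0 : n ≠ 0 := by
    rintro rfl
    simp at hn
  have h1 := Submodule.finrank_add_finrank_orthogonal (Submodule.span ℝ {n})
  rw [finrank_span_singleton h0, finrank_euclideanSpace_fin] at h1
  omega

lemma plInt_scale {n : Sp d} (hn : ‖n‖ = 1) (x : Sp d) {t : ℝ} (ht : 0 < t) (s : ℝ)
    (F : Sp d → ℝ) :
    plInt n s (fun y => F (x + t • y)) = 1 / t ^ (d - 1) * plInt n (⟪n, x⟫_ℝ + t * s) F := by
  have hnn : ⟪n, n⟫_ℝ = 1 := by rw [real_inner_self_eq_norm_sq, hn, one_pow]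
  have hx : x - ⟪n, x⟫_ℝ • n ∈ (Submodule.span ℝ {n})ᗮ := by
    rw [Submodule.mem_orthogonal_singleton_iff_inner_right, inner_sub_right, inner_smul_right,
      hnn, mul_one, sub_self]
  set xT : (Submodule.span ℝ {n})ᗮ := ⟨x - ⟪n, x⟫_ℝ • n, hx⟩ with hxT
  set c := ⟪n, x⟫_ℝ + t * s with hc
  have h1 : ∀ y : (Submodule.span ℝ {n})ᗮ, F (x + t • (s • n + (y : Sp d))) =
      (fun w : (Submodule.span ℝ {n})ᗮ => F (c • n + ((xT + w : (Submodule.span ℝ {n})ᗮ) : Sp d)))
        (t • y) := by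
    intro y
    simp only
    congr 1
    rw [Submodule.coe_add, Submodule.coe_smul, hxT, hc]
    module
  unfold plInt
  simp_rw [h1]
  rw [Measure.integral_comp_smul_of_nonneg volume
    (fun w : (Submodule.span ℝ {n})ᗮ => F (c • n + ((xT + w : (Submodule.span ℝ {n})ᗮ) : Sp d))) t
    (hR := ht.le)]
  rw [integral_add_left_eq_self
    (fun w : (Submodule.span ℝ {n})ᗮ => F (c • n + (w : Sp d))) xT, finrank_perp hn]
  simp

lemma pow_id (hd : 1 ≤ d) (i : ℕ) : (2 : ℝ) ^ (i * (d - 1)) * (2 ^ i * (1 / (2 ^ i) ^ d)) = 1 := by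
  obtain ⟨k, rfl⟩ : ∃ k, d = k + 1 := ⟨d - 1, by omega⟩
  simp only [Nat.add_sub_cancel]
  rw [pow_mul, pow_succ]
  have h : ((2 : ℝ) ^ i) ≠ 0 := by positivity
  field_simp

/-- translation of the second order operators -/
lemma fderiv_tr (W : Sp d → ℝ) (x y : Sp d) :
    fderiv ℝ (fun z => W (x + z)) y = fderiv ℝ W (x + y) := by
  exact fderiv_comp_add_left (𝕜 := ℝ) (f := W) x

lemma itf_tr (W : Sp d → ℝ) (x y : Sp d) :
    iteratedFDeriv ℝ 2 (fun z => W (x + z)) y = iteratedFDeriv ℝ 2 W (x + y) := by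
  rw [iteratedFDeriv_comp_add_left]

lemma grad_tr (W : Sp d → ℝ) (x y : Sp d) :
    gradient (fun z => W (x + z)) y = gradient W (x + y) := by
  unfold gradient
  rw [fderiv_tr]

end

end FMAux

open FMAux in
theorem stmtFM (hSC : StmtSC) (hSE : StmtSE) : StmtFM := by
  intro d hd C' hC' s0 hs0 i Q Q' hQ' x hx
  have hlQ : 0 < lev s0 Q.1 := lev_pos hs0 _
  have hlQ' : 0 < lev s0 Q'.1 := lev_pos hs0 _
  have h2i : (0 : ℝ) < 2 ^ i := by positivity
  have hm : ∀ (E : Type) [NormedAddCommGroup E] [InnerProductSpace ℝ E] (f : Sp d → E) (e : E)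
      (y : Sp d), mQ s0 f e Q' y = 2 ^ i * mQ s0 f e Q (x + (2 : ℝ) ^ i • y) := by
    intro E _ _ f e y
    rw [hx]
    exact mQ_frame hs0 f e Q Q' i hQ' y
  -- points and levels
  have hlev : lev s0 Q'.1 = lev s0 Q.1 * 2 ^ i := by
    rw [hQ', lev_add, mul_comm]
  have hpt : ∀ y : Sp d, xC s0 Q + lev s0 Q.1 • (x + (2 : ℝ) ^ i • y) =
      xC s0 Q' + lev s0 Q'.1 • y := by
    intro y
    rw [smul_add, smul_smul, ← add_assoc, hx, x_tw hs0, hlev]
  refine ⟨hm, ?_, ?_, ?_⟩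
  · intro E _ _ f e ζ _ _ _
    have h1 : ∀ y, mQ s0 f e Q' y * ζ (x + (2 : ℝ) ^ i • y) =
        2 ^ i * (fun z => mQ s0 f e Q z * ζ z) (x + (2 : ℝ) ^ i • y) := by
      intro y
      rw [hm E f e y]
      simp only
      ring
    simp_rw [h1]
    rw [integral_const_mul]
    have h0 := int_scale (fun z => mQ s0 f e Q z * ζ z) x h2i
    rw [h0]
    have h2 := pow_id (d := d) (by omega) i
    calc ∫ y, mQ s0 f e Q y * ζ y = 1 * ∫ y, mQ s0 f e Q y * ζ y := (one_mul _).symm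
      _ = ((2 : ℝ) ^ (i * (d - 1)) * (2 ^ i * (1 / (2 ^ i) ^ d))) *
          ∫ y, mQ s0 f e Q y * ζ y := by rw [h2]
      _ = _ := by ring
  · intro n s F hn
    rw [plInt_scale hn x h2i]
    have h1 : ⟪n, x⟫_ℝ + 2 ^ i * ((1 / 2 : ℝ) ^ i * (s - ⟪n, x⟫_ℝ)) = s := by
      rw [← mul_assoc, ← mul_pow]
      norm_num
    rw [h1, pow_mul, ← mul_assoc, mul_one_div_cancel (by positivity), one_mul]
  · intro μ hμ
    obtain ⟨hG, -, hvv, -, hK⟩ := (hSC d hd C' hC' (xC s0 Q) (lev s0 Q.1) hlQ).1 μ hμ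
    obtain ⟨-, -, hvv', -, hK'⟩ := (hSC d hd C' hC' (xC s0 Q') (lev s0 Q'.1) hlQ').1 μ hμ
    refine ⟨hG, ?_, ?_, ?_, ?_⟩
    · unfold muQ omC
      rw [hvv 1 0 one_pos, mul_one, smul_zero, add_zero]
    · unfold muQ omC
      rw [hvv _ x h2i, hx, x_tw hs0, hlev]
    · intro y
      unfold muQ
      rw [hvv' 1 y one_pos, hvv _ _ h2i, hpt, mul_one, hlev]
    · intro M β hβ ε hε hε1 n y
      have hGG : ∀ y, GG β ε (muQ s0 μ Q') 1 y =
          GG β ε (muQ s0 μ Q) (2 ^ i) (x + (2 : ℝ) ^ i • y) := by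
        intro y
        unfold muQ
        rw [(hK' 2 M β hβ le_rfl ε hε hε1 1 y one_pos).1,
          (hK 2 M β hβ le_rfl ε hε hε1 _ (x + (2 : ℝ) ^ i • y) h2i).1, hpt, mul_one, hlev]
      have hWW : i = 0 → ∀ y, WW β ε (muQ s0 μ Q') 1 y = WW β ε (muQ s0 μ Q) 1 (x + y) := by
        intro hi y
        have h1 := (hK' 2 M β hβ le_rfl ε hε hε1 1 y one_pos).2.1
        have h2 := (hK 2 M β hβ le_rfl ε hε hε1 _ (x + (2 : ℝ) ^ i • y) h2i).2.1
        rw [hpt, ← hlev] at h2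
        rw [mul_one] at h1
        have h3 := h1.trans h2.symm
        subst hi
        rw [pow_zero, one_smul] at h3
        have h4 : lev s0 Q'.1 = lev s0 Q.1 := by rw [hlev, pow_zero, mul_one]
        rw [h4] at h3
        unfold muQ
        rw [h4]
        exact mul_left_cancel₀ (by positivity) h3
      refine ⟨?_, hGG y, fun hi => hWW hi y, ?_⟩
      · unfold muQ
        rw [(hK' 2 M β hβ le_rfl ε hε hε1 1 y one_pos).2.2.1 n,
          (hK 2 M β hβ le_rfl ε hε hε1 _ (x + (2 : ℝ) ^ i • y) h2i).2.2.1 n, hpt, mul_one, hlev]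
      · intro p0 A hp0 hA
        have hS := fun r y hr => hSE d hd C' hC' (xC s0 Q) (lev s0 Q.1) hlQ μ hμ M β hβ ε hε hε1
          p0 A hp0 hA r y hr
        have hS' := fun r y hr => hSE d hd C' hC' (xC s0 Q') (lev s0 Q'.1) hlQ' μ hμ M β hβ ε hε
          hε1 p0 A hp0 hA r y hr
        have hU : i = 0 → ∀ y, Ups p0 A (muQ s0 μ Q') 1 y = Ups p0 A (muQ s0 μ Q) 1 (x + y) := by
          intro hi y
          have h1 := (hS' 1 y one_pos).2.1
          have h2 := (hS (2 ^ i) (x + (2 : ℝ) ^ i • y) h2i).2.1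
          rw [hpt, ← hlev] at h2
          rw [mul_one] at h1
          have h3 := h1.trans h2.symm
          subst hi
          rw [pow_zero, one_smul] at h3
          exact h3
        refine ⟨?_, fun hi => hU hi y, ?_, ?_⟩
        · unfold muQ
          rw [(hS' 1 y one_pos).1, (hS (2 ^ i) (x + (2 : ℝ) ^ i • y) h2i).1, hpt, mul_one, hlev]
        · intro hi hn
          have h1 := (hS' 1 y one_pos).2.2 n hn
          have h2 := (hS (2 ^ i) (x + (2 : ℝ) ^ i • y) h2i).2.2 n hn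
          rw [hpt, ← hlev] at h2
          rw [mul_one] at h1
          have h3 := h1.trans h2.symm
          subst hi
          rw [pow_zero, one_smul] at h3
          exact h3
        · intro hi k l
          have hUf : Ups p0 A (muQ s0 μ Q') 1 = fun y => Ups p0 A (muQ s0 μ Q) 1 (x + y) :=
            funext fun y => hU hi y
          have hWf : WW β ε (muQ s0 μ Q') 1 = fun y => WW β ε (muQ s0 μ Q) 1 (x + y) :=
            funext fun y => hWW hi y
          have hGf : GG β ε (muQ s0 μ Q') 1 y = GG β ε (muQ s0 μ Q) 1 (x + y) := by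
            have := hGG y
            subst hi
            rwa [pow_zero, one_smul] at this
          unfold HHm pd2 lap
          rw [hUf, hWf, hGf]
          simp only [itf_tr, grad_tr, fderiv_tr]

end TG
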