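import Pool.Agent.TG.Stmts14

/-!
# Trace inequality, general operators: the local inequalities (W1) - (W7)   (helper32)

All quantities are attached to the cells of Conc.lean; see BATCH13.md for the proofs and SEC_M.md
for the bookkeeping.  Every statement StmtXX is proved as theorem stmtXX in Pool/Agent/TG/XX.lean,
with other statements as hypotheses if useful.  No double quotes.
-/

open MeasureTheory Metric Set TrI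
open scoped InnerProductSpace ContDiff ENNReal

namespace TG

noncomputable section

variable {d : ℕ}

/-! ## Neighbourhoods -/

open Classical in
/-- the cells of the levels Q.1, ..., Q.1 + JA at distance at most r times their size -/
def nst (s0 r : ℝ) (JA : ℕ) (Q : Cell d) : Finset (Cell d) :=
  ((Finset.range (JA + 1)).biUnion fun i => ({Q.1 + i} : Finset ℕ) ×ˢ
    Fintype.piFinset fun j =>
      Finset.Icc (Q.2 j / 2 ^ i - (⌈r⌉ + 1)) (Q.2 j / 2 ^ i + (⌈r⌉ + 1))).filter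
    fun Q' => ‖xC s0 Q' - xC s0 Q‖ ≤ r * lev s0 Q'.1

/-- MODULE NS: membership, partition of unity on balls, scaling of the weights -/
def StmtNS : Prop :=
  ∀ (d : ℕ), 1 ≤ d → ∀ (s0 r : ℝ), 0 < s0 → 0 ≤ r → ∀ (JA : ℕ) (Q : Cell d),
    (∀ Q' : Cell d, Q' ∈ nst s0 r JA Q ↔ ∃ i ≤ JA, Q'.1 = Q.1 + i ∧
      ‖xC s0 Q' - xC s0 Q‖ ≤ r * lev s0 Q'.1) ∧
    (∀ i ≤ JA, ∀ Q' : Cell d, Q'.1 = Q.1 + i →
      cw s0 Q' = (2 : ℝ) ^ (i * (d - 1)) * cw s0 Q ∧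
      lev s0 Q'.1 = 2 ^ i * lev s0 Q.1 ∧
      (Q' ∈ nst s0 r JA Q ↔ ‖tw s0 Q Q'‖ ≤ r * 2 ^ i)) ∧
    (∀ i ≤ JA, ∀ y : Sp d, ‖y‖ ≤ (r - d) * 2 ^ i →
      ∑ Q' ∈ (nst s0 r JA Q).filter (fun Q' => Q'.1 = Q.1 + i),
        chi (((1 / 2 : ℝ) ^ i) • (y - tw s0 Q Q')) = 1) ∧
    (∀ i ≤ JA, ∀ y : Sp d,
      ∑ Q' ∈ (nst s0 r JA Q).filter (fun Q' => Q'.1 = Q.1 + i),
        chi (((1 / 2 : ℝ) ^ i) • (y - tw s0 Q Q')) ≤ 1) ∧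
    (∀ Q' : Cell d, Q'.1 = Q.1 → tw s0 Q Q' = dsp Q Q') ∧
    (∀ Q' ∈ adj Q, ‖tw s0 Q Q'‖ ≤ Real.sqrt d) ∧
    (∀ Q' : Cell d, Q'.1 = Q.1 → (∃ y : Sp d, chi y ≠ 0 ∧ chi (y - tw s0 Q Q') ≠ 0) →
      Q' ∈ adj Q) ∧
    (Real.sqrt d ≤ r → adj Q ⊆ nst s0 r JA Q)

/-- MODULE FM: change of frame.  Q' is a cell i levels above Q, x its position -/
def StmtFM : Prop :=
  ∀ (d : ℕ), 2 ≤ d → ∀ (C' : ℝ), 0 < C' → ∀ (s0 : ℝ), 0 < s0 → ∀ (i : ℕ) (Q Q' : Cell d),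
    Q'.1 = Q.1 + i → ∀ x : Sp d, x = tw s0 Q Q' →
    (∀ (E : Type) [NormedAddCommGroup E] [InnerProductSpace ℝ E] (f : Sp d → E) (e : E) (y : Sp d),
      mQ s0 f e Q' y = 2 ^ i * mQ s0 f e Q (x + (2 : ℝ) ^ i • y)) ∧
    (∀ (E : Type) [NormedAddCommGroup E] [InnerProductSpace ℝ E] (f : Sp d → E) (e : E)
      (ζ : Sp d → ℝ), Continuous f → HasCompactSupport f → Continuous ζ →
      ∫ y, mQ s0 f e Q y * ζ y =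
        (2 : ℝ) ^ (i * (d - 1)) * ∫ y, mQ s0 f e Q' y * ζ (x + (2 : ℝ) ^ i • y)) ∧
    (∀ (n : Sp d) (s : ℝ) (F : Sp d → ℝ), ‖n‖ = 1 → plInt n s F =
      (2 : ℝ) ^ (i * (d - 1)) * plInt n ((1 / 2 : ℝ) ^ i * (s - ⟪n, x⟫_ℝ))
        (fun y => F (x + (2 : ℝ) ^ i • y))) ∧
    ∀ μ : Measure (Sp d), Gro C' μ →
      Gro C' (muQ s0 μ Q) ∧ vv (muQ s0 μ Q) 1 0 = omC μ s0 Q ∧
      omC μ s0 Q' = vv (muQ s0 μ Q) (2 ^ i) x ∧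
      (∀ y, vv (muQ s0 μ Q') 1 y = vv (muQ s0 μ Q) (2 ^ i) (x + (2 : ℝ) ^ i • y)) ∧
      (∀ (M : ℝ) (β : Sp d → ℝ), Kit 2 M β → ∀ ε : ℝ, 0 < ε → ε ≤ 1 → ∀ (n y : Sp d),
        XX β ε (muQ s0 μ Q') n 1 y = XX β ε (muQ s0 μ Q) n (2 ^ i) (x + (2 : ℝ) ^ i • y) ∧
        GG β ε (muQ s0 μ Q') 1 y = GG β ε (muQ s0 μ Q) (2 ^ i) (x + (2 : ℝ) ^ i • y) ∧
        (i = 0 → WW β ε (muQ s0 μ Q') 1 y = WW β ε (muQ s0 μ Q) 1 (x + y)) ∧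
        ∀ p0 A : ℝ, 0 < p0 → 0 < A →
          qq A (muQ s0 μ Q') 1 y = qq A (muQ s0 μ Q) (2 ^ i) (x + (2 : ℝ) ^ i • y) ∧
          (i = 0 → Ups p0 A (muQ s0 μ Q') 1 y = Ups p0 A (muQ s0 μ Q) 1 (x + y)) ∧
          (i = 0 → ‖n‖ = 1 → Hn β ε p0 A (muQ s0 μ Q') n 1 y =
            Hn β ε p0 A (muQ s0 μ Q) n 1 (x + y)) ∧
          (i = 0 → ∀ k l : Fin d, HHm β ε p0 A (muQ s0 μ Q') k l y =
            HHm β ε p0 A (muQ s0 μ Q) k l (x + y)))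

/-! ## The data of all cells -/

/-- all data attached to the cells -/
structure Wld (d : ℕ) (E : Type) where
  /-- parameters of the fields -/
  X : Prm d
  /-- bottom scale -/
  s0 : ℝ
  /-- the measure -/
  μ : Measure (Sp d)
  /-- the field -/
  f : Sp d → E
  /-- directions -/
  e : Cell d → E
  /-- kinds: 0 sheet, 1 Newton, otherwise none -/
  kd : Cell d → ℕ
  /-- normals of the sheets -/
  nv : Cell d → Sp d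
  /-- offsets of the sheets -/
  sv : Cell d → ℝ
  /-- densities of the sheets -/
  ab : Cell d → ℝ
  /-- errors of the sheets -/
  er : Cell d → ℝ
  /-- defects of the sheets (long sums), constants included -/
  dl : Cell d → ℝ
  /-- defects (short sums), constants included -/
  D : Cell d → ℝ
  /-- masses -/
  a : Cell d → ℝ

namespace Wld

variable {E : Type} [NormedAddCommGroup E] [InnerProductSpace ℝ E]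

/-- weight of a cell -/
def w (W : Wld d E) (Q : Cell d) : ℝ := cw W.s0 Q

/-- the value of the potential -/
def v (W : Wld d E) (Q : Cell d) : ℝ := omC W.μ W.s0 Q

/-- the measure in the frame -/
def mu (W : Wld d E) (Q : Cell d) : Measure (Sp d) := muQ W.s0 W.μ Q

/-- the profile of the level -/
def be (W : Wld d E) (Q : Cell d) : Sp d → ℝ := bQ W.X.b Q

/-- the density in the frame, in the direction of the cell -/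
def m (W : Wld d E) (Q : Cell d) : Sp d → ℝ := mQ W.s0 W.f (W.e Q) Q

/-- near cells -/
def Near (W : Wld d E) (Q : Cell d) : Prop :=
  ∃ y : Sp d, chi y ≠ 0 ∧ W.X.p0 / 2 ≤ qq W.X.A (W.mu Q) 1 y

/-- sheet gain -/
def sg (W : Wld d E) (Q : Cell d) : ℝ :=
  W.ab Q * plInt (W.nv Q) (W.sv Q)
    (fun x => chi x * XX (W.be Q) W.X.ε (W.mu Q) (W.nv Q) 1 x)

/-- off-sheet mass of the cell times the potential -/
def bl (W : Wld d E) (Q : Cell d) : ℝ :=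
  W.v Q * ∫ y, W.m Q y * (chi y * hgt (W.nv Q) (W.sv Q) y ^ 2)

/-- main contribution -/
def gam (W : Wld d E) (Q : Cell d) : ℝ := Gam W.X W.s0 W.μ W.f W.e W.kd W.nv Q

/-- net contribution, weight included -/
def nt1 (W : Wld d E) (Q : Cell d) : ℝ := net W.X W.s0 W.μ W.f W.e W.kd W.nv Q

open Classical in
/-- the value of a cell -/
def val (W : Wld d E) (Q : Cell d) : ℝ :=
  if W.Near Q ∧ W.kd Q = 0 then W.sg Q + max 0 (W.bl Q)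
  else if W.Near Q ∧ W.kd Q ≠ 1 then 0 else max 0 (W.gam Q)

/-- the neighbourhood of a cell used in all inequalities -/
def ns (W : Wld d E) (R0 : ℝ) (JA : ℕ) (Q : Cell d) : Finset (Cell d) := nst W.s0 (3 * R0) JA Q

/-- sum of the values over the neighbourhood -/
def sV (W : Wld d E) (R0 : ℝ) (JA : ℕ) (Q : Cell d) : ℝ :=
  ∑ Q' ∈ W.ns R0 JA Q, W.w Q' * W.val Q'

/-- sum of the defects over the neighbourhood -/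
def sD (W : Wld d E) (R0 : ℝ) (JA : ℕ) (Q : Cell d) : ℝ := ∑ Q' ∈ W.ns R0 JA Q, W.D Q'

open Classical in
/-- sum of the sheet errors over the neighbourhood, if there is a near cell in it -/
def sE (W : Wld d E) (R0 : ℝ) (JA : ℕ) (Q : Cell d) : ℝ :=
  if ∃ Q' ∈ W.ns R0 JA Q, W.Near Q' then
    ∑ Q' ∈ W.ns R0 JA Q, (W.er Q' ^ 2 / W.ab Q' + W.dl Q') else 0

end Wld

section World

variable {E : Type} [NormedAddCommGroup E] [InnerProductSpace ℝ E]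

/-- the parameters are admissible -/
structure XOK (J JA : ℕ) (M c0 C' c R0 : ℝ) (X : Prm d) : Prop where
  J_ge : 4 ≤ J
  C'_pos : 0 < C'
  prm : PrmOK M c0 X
  ker : BaseKer (J + 10) M c0 X.b
  far : FarK d (J + 10) M C' X.ε X.p0 X.A c
  R0_ge : 4 * X.A + 8 * d + 400 ≤ R0
  JA_ge : 32 * X.A ≤ 2 ^ JA
  JA_7 : 7 ≤ JA

/-- standing hypotheses on the data -/
structure WOK (JA : ℕ) (C' R0 Rz : ℝ) (X : Prm d) (W : Wld d E) : Prop where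
  X_eq : W.X = X
  s0_pos : 0 < W.s0
  gro : Gro C' W.μ
  fc : Continuous W.f
  fs : HasCompactSupport W.f
  eu : ∀ Q, ‖W.e Q‖ = 1
  nu : ∀ Q, ‖W.nv Q‖ = 1
  ab0 : ∀ Q, 0 ≤ W.ab Q
  D0 : ∀ Q, 0 ≤ W.D Q
  zp : ∀ Q, ZP Rz (W.D Q) (W.m Q)
  dir : ∀ Q, ∀ Q' ∈ W.ns R0 JA Q, ∀ (ζ : Sp d → ℝ) (N : ℝ), TFn 2 N ζ →
    (∀ y, Rz ≤ ‖y‖ → ζ y = 0) →
    |∫ y, (mQ W.s0 W.f (W.e Q') Q y - mQ W.s0 W.f (W.e Q) Q y) * ζ y| ≤ N * W.D Q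

/-- a cell with a sheet; the radius of all sheets is 64 R0 -/
structure WSh (J : ℕ) (R0 κ : ℝ) (W : Wld d E) (Q : Cell d) : Prop where
  sh : Sheet J (64 * R0) (W.ab Q) (W.er Q) (W.dl Q) (W.m Q) (W.nv Q) (W.sv Q)
  bl : blc (W.nv Q) (W.sv Q) (W.m Q) (64 * R0) ≤ W.er Q
  loc : |W.sv Q| ≤ 64 * R0 + 4
  dl0 : 0 ≤ W.dl Q
  small : W.er Q ≤ κ * W.ab Q
  smalld : W.dl Q ≤ κ * W.ab Q

/-- a cell with the structure theorem and growth of the mass -/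
structure WNw (K γ R1 Rs RM : ℝ) (rm : ℕ) (tol : ℕ → ℝ) (W : Wld d E) (Q : Cell d) : Prop where
  a0 : 0 ≤ W.a Q
  str : ∃ (J r : ℕ) (ν : Fin r → Sp d) (κ : Fin r → Sp d → ℝ),
    Str J rm R1 Rs (tol J) (W.a Q) (W.m Q) r ν κ
  mg : MG K γ RM (W.a Q) (W.D Q) (W.m Q)

/-- the interface inequality (FR4) with error EI -/
def WIf (J : ℕ) (W : Wld d E) (Q : Cell d) (EI : ℝ) : Prop :=
  ∀ (Y : Fin d → Fin d → Sp d → ℝ) (N : ℝ), (∀ i j, TFn (J + 6) N (Y i j)) →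
    (∀ i j y, (d : ℝ) ≤ ‖y‖ → Y i j y = 0) →
    |∫ y, W.m Q y * ((∑ i, ∑ j, W.nv Q i * W.nv Q j * Y i j y) - nt W.X.b W.X.RN Y y)| ≤ N * EI

end World

/-! ## Pair inequalities -/

/-- MODULE P1: the gain on the plane of Q inside a near cell Q' of level Q.1 + i, and the off-sheet
mass of Q inside a near cell of the same level; C does not depend on Kc -/
def StmtP1 : Prop :=
  ∀ (d J JA : ℕ), 2 ≤ d → ∀ (M c0 C' c R0 : ℝ) (X : Prm d), XOK J JA M c0 C' c R0 X →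
    ∃ C : ℝ, 0 < C ∧ ∀ Kc : ℝ, 1 ≤ Kc → ∃ (κ CK Rz : ℝ), 0 < κ ∧ 0 < CK ∧
    ∀ (E : Type) [NormedAddCommGroup E] [InnerProductSpace ℝ E] [FiniteDimensional ℝ E]
      (W : Wld d E), WOK JA C' R0 Rz X W → ∀ Q : Cell d, |W.sv Q| ≤ 32 * R0 + 4 →
      WSh J R0 κ W Q → ∀ Q' ∈ W.ns R0 JA Q, WSh J R0 κ W Q' → W.ab Q' ≤ Kc * W.ab Q →
      ∀ i : ℕ, Q'.1 = Q.1 + i →
      -- the gain
      W.w Q * (W.ab Q * plInt (W.nv Q) (W.sv Q) (fun x =>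
          chi (((1 / 2 : ℝ) ^ i) • (x - tw W.s0 Q Q')) *
            XX (W.be Q') W.X.ε (W.mu Q) (W.nv Q) (2 ^ i) x)) ≤
        C * (W.w Q' * W.sg Q') + CK * (W.w Q * W.v Q) * (W.er Q ^ 2 / W.ab Q +
          W.er Q' ^ 2 / W.ab Q' + W.dl Q + W.dl Q' + W.D Q + W.D Q') ∧
      -- the mass on the plane is seen by the mass in the cell
      W.w Q * (W.v Q * (W.ab Q * plInt (W.nv Q) (W.sv Q) (fun x =>
          chi (((1 / 2 : ℝ) ^ i) • (x - tw W.s0 Q Q'))))) ≤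
        C * (W.w Q' * W.v Q') * (∫ y, W.m Q' y * chi y) +
          CK * (W.w Q * W.v Q) *
            (W.er Q + W.er Q' + W.dl Q + W.dl Q' + W.D Q + W.D Q') ∧
      -- the off-sheet mass
      (i = 0 → W.w Q * (W.v Q * ∫ y, W.m Q y * (chi (y - tw W.s0 Q Q') *
          hgt (W.nv Q) (W.sv Q) y ^ 2)) ≤
        C * (W.w Q' * max 0 (W.bl Q')) + CK * (W.w Q * W.v Q) * (W.er Q ^ 2 / W.ab Q +
          W.er Q' ^ 2 / W.ab Q' + W.dl Q + W.dl Q' + W.D Q + W.D Q')) ∧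
      -- the tilt
      (∃ σ : ℝ, (σ = 1 ∨ σ = -1) ∧
        W.ab Q * ‖W.nv Q - σ • W.nv Q'‖ ≤
          CK * (W.er Q + W.er Q' + W.dl Q + W.dl Q' + W.D Q + W.D Q'))

/-- the profile of the level i above Q -/
def _root_.TG.Wld.bi {E : Type} (W : Wld d E) (Q : Cell d) (i : ℕ) : Sp d → ℝ :=
  KN W.X.b (Q.1 + i - 2)

/-- all cells of the neighbourhood of Q have sheets with small errors and comparable densities -/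
def Ash {E : Type} [NormedAddCommGroup E] [InnerProductSpace ℝ E] (J JA : ℕ) (R0 κ Kc : ℝ)
    (W : Wld d E) (Q : Cell d) : Prop :=
  |W.sv Q| ≤ 32 * R0 + 4 ∧ WSh J R0 κ W Q ∧
    ∀ Q' ∈ W.ns R0 JA Q, W.kd Q' = 0 ∧ WSh J R0 κ W Q' ∧ W.ab Q' ≤ Kc * W.ab Q

/-! ## The local inequalities -/

/-- MODULE W1: cells which are not near -/
def StmtW1 : Prop :=
  ∀ (d J JA : ℕ), 2 ≤ d → ∀ (M c0 C' c R0 : ℝ) (X : Prm d), XOK J JA M c0 C' c R0 X →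
    ∃ (C Rz : ℝ), 0 < C ∧
    ∀ (E : Type) [NormedAddCommGroup E] [InnerProductSpace ℝ E] [FiniteDimensional ℝ E]
      (W : Wld d E), WOK JA C' R0 Rz X W → ∀ Q : Cell d, ¬ W.Near Q →
      W.gam Q = (∫ y, W.m Q y * (chi y * GG (W.be Q) W.X.ε (W.mu Q) 1 y)) ∧
      W.nt1 Q = W.w Q * W.gam Q ∧
      (∀ Q' ∈ adj Q, Fct W.X W.s0 W.μ W.f W.e W.kd W.nv Q Q' = 0 ∧
        Fct W.X W.s0 W.μ W.f W.e W.kd W.nv Q' Q = 0) ∧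
      W.w Q * W.val Q ≤ W.nt1 Q + C * (W.w Q * W.v Q) * W.D Q ∧
      W.v Q * (∫ y, W.m Q y * chi y) ≤ C * W.val Q + C * W.v Q * W.D Q

/-- MODULE P3: case A2, a large gain on the sheet at some scale bounds the total sheet mass -/
def StmtP3 : Prop :=
  ∀ (d J JA : ℕ), 2 ≤ d → ∀ (M c0 C' c R0 : ℝ) (X : Prm d), XOK J JA M c0 C' c R0 X →
    ∃ C : ℝ, 0 < C ∧ ∀ (i0 Kc : ℝ), 0 < i0 → 1 ≤ Kc → ∃ (κ CK Rz : ℝ), 0 < κ ∧ 0 < CK ∧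
    ∀ (E : Type) [NormedAddCommGroup E] [InnerProductSpace ℝ E] [FiniteDimensional ℝ E]
      (W : Wld d E), WOK JA C' R0 Rz X W → ∀ Q : Cell d, Ash J JA R0 κ Kc W Q →
      ∀ (i : ℕ) (ρ : ℝ), i ≤ JA → 0 ≤ ρ → ρ + 1 ≤ (3 * R0 - d) * 2 ^ i →
      i0 * W.v Q ≤ plInt (W.nv Q) (W.sv Q)
        (fun x => zR ρ x * XX (W.bi Q i) W.X.ε (W.mu Q) (W.nv Q) (2 ^ i) x) →
      W.w Q * W.v Q * W.ab Q ≤ C / i0 * W.sV R0 JA Q + CK * (W.w Q * W.v Q) * W.sD R0 JA Q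

/-- MODULE P4: the off-sheet mass in the ball R0 + 4, and the gain if it is small -/
def StmtP4 : Prop :=
  ∀ (d J JA : ℕ), 2 ≤ d → ∀ (M c0 C' c R0 : ℝ) (X : Prm d), XOK J JA M c0 C' c R0 X →
    ∃ (C i0 : ℝ), 0 < C ∧ 0 < i0 ∧ ∀ Kc : ℝ, 1 ≤ Kc → ∃ (κ CK Rz : ℝ), 0 < κ ∧ 0 < CK ∧
    ∀ (E : Type) [NormedAddCommGroup E] [InnerProductSpace ℝ E] [FiniteDimensional ℝ E]
      (W : Wld d E), WOK JA C' R0 Rz X W → ∀ Q : Cell d, Ash J JA R0 κ Kc W Q →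
      W.w Q * W.v Q * max 0 (blc (W.nv Q) (W.sv Q) (W.m Q) (R0 + 4)) ≤
        C * W.sV R0 JA Q + CK * (W.w Q * W.v Q) * (W.sE R0 JA Q + W.sD R0 JA Q) ∧
      (plInt (W.nv Q) (W.sv Q)
          (fun x => zR (2 * R0 - 1) x * XX (W.be Q) W.X.ε (W.mu Q) (W.nv Q) 1 x) ≤
          i0 * W.v Q →
        W.w Q * (W.ab Q * plInt (W.nv Q) (W.sv Q)
          (fun x => zR R0 x * XX (W.be Q) W.X.ε (W.mu Q) (W.nv Q) 1 x)) ≤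
        C * W.sV R0 JA Q + CK * (W.w Q * W.v Q) * (W.sE R0 JA Q + W.sD R0 JA Q))

/-- MODULE W2: near cells of type A whose neighbourhood is of type A -/
def StmtW2 : Prop :=
  ∀ (d J JA : ℕ), 2 ≤ d → ∀ (M c0 C' c R0 : ℝ) (X : Prm d), XOK J JA M c0 C' c R0 X →
    ∃ c1 : ℝ, 0 < c1 ∧ ∀ (η Kc : ℝ), 0 < η → 1 ≤ Kc → ∃ (κ CK Rz : ℝ), 0 < κ ∧ 0 < CK ∧
    ∀ (E : Type) [NormedAddCommGroup E] [InnerProductSpace ℝ E] [FiniteDimensional ℝ E]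
      (W : Wld d E), WOK JA C' R0 Rz X W → ∀ Q : Cell d, 2 ≤ Q.1 → W.Near Q →
      Ash J JA R0 κ Kc W Q →
      c1 * (W.w Q * W.val Q) ≤ W.nt1 Q + η * W.sV R0 JA Q +
        CK * (W.w Q * W.v Q) * (W.sE R0 JA Q + W.sD R0 JA Q)

/-- MODULE W3: near cells of type B whose near neighbours are of type B -/
def StmtW3 : Prop :=
  ∀ (d J JA : ℕ), 2 ≤ d → ∀ (M c0 C' c R0 : ℝ) (X0 : Prm d), XOK J JA M c0 C' c R0 X0 →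
    ∀ (K γ δ : ℝ), 0 < K → 0 < γ → γ ≤ 1 / (8 * d) → 0 < δ → ∃ RN0 : ℝ, 1 ≤ RN0 ∧
    ∀ RN : ℝ, RN0 ≤ RN → ∃ (Rs RM : ℝ) (tol : ℕ → ℝ), (∀ J, 0 < tol J) ∧ 1 ≤ Rs ∧
    ∀ (R1 : ℝ) (rm : ℕ), ∃ (C Rz : ℝ), 0 < C ∧
    ∀ (E : Type) [NormedAddCommGroup E] [InnerProductSpace ℝ E] [FiniteDimensional ℝ E]
      (W : Wld d E), WOK JA C' R0 Rz { X0 with RN := RN } W → ∀ Q : Cell d, W.Near Q →
      W.kd Q = 1 → WNw K γ R1 Rs RM rm tol W Q →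
      (∀ Q' ∈ adj Q, W.Near Q' → W.kd Q' = 1) →
      W.w Q * W.val Q ≤ W.nt1 Q + δ * (W.w Q * W.v Q) * W.a Q + C * (W.w Q * W.v Q) * W.D Q

/-- MODULE W4: near cells at the interface; EI are the errors of the interface inequality -/
def StmtW4 : Prop :=
  ∀ (d J JA : ℕ), 2 ≤ d → ∀ (M c0 C' c R0 : ℝ) (X0 : Prm d), XOK J JA M c0 C' c R0 X0 →
    ∃ c1 : ℝ, 0 < c1 ∧ ∀ Kc : ℝ, 1 ≤ Kc → ∃ (κ C : ℝ), 0 < κ ∧ 0 < C ∧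
    ∀ (K γ δ : ℝ), 0 < K → 0 < γ → γ ≤ 1 / (8 * d) → 0 < δ → ∃ RN0 : ℝ, 1 ≤ RN0 ∧
    ∀ RN : ℝ, RN0 ≤ RN → ∃ (Rs RM : ℝ) (tol : ℕ → ℝ), (∀ J, 0 < tol J) ∧ 1 ≤ Rs ∧
    ∀ (R1 : ℝ) (rm : ℕ), ∃ (C1 Rz : ℝ), 0 < C1 ∧
    ∀ (E : Type) [NormedAddCommGroup E] [InnerProductSpace ℝ E] [FiniteDimensional ℝ E]
      (W : Wld d E), WOK JA C' R0 Rz { X0 with RN := RN } W → ∀ Q : Cell d, W.Near Q →
      (W.kd Q = 0 → |W.sv Q| ≤ 32 * R0 + 4) →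
      (∀ Q' ∈ adj Q, W.kd Q' = 0 ∨ W.kd Q' = 1) →
      (∀ Q' ∈ adj Q, W.kd Q' = 1 → WNw K γ R1 Rs RM rm tol W Q') →
      ∀ EI : Cell d → ℝ, (∀ Q' ∈ adj Q, W.kd Q' = 0 → 0 ≤ EI Q' ∧ WSh J R0 κ W Q' ∧
        WIf J W Q' (EI Q') ∧ 0 ≤ W.a Q' ∧ MG K γ RM (W.a Q') (W.D Q') (W.m Q') ∧
        (W.kd Q = 0 → W.ab Q' ≤ Kc * W.ab Q)) →
      c1 * (W.w Q * W.val Q) ≤ W.nt1 Q +
        C * (W.w Q * W.v Q) * (∑ Q' ∈ (adj Q).filter (fun Q' => W.kd Q' = 0),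
          (W.er Q' + W.dl Q' + EI Q')) +
        δ * (W.w Q * W.v Q) * (∑ Q' ∈ adj Q, W.a Q') +
        C1 * (W.w Q * W.v Q) * ∑ Q' ∈ adj Q, W.D Q'

/-- MODULE W5: near cells, crude bound by the local mass al; used for weakly light and for
incoherent cells; C does not depend on K -/
def StmtW5 : Prop :=
  ∀ (d J JA : ℕ), 2 ≤ d → ∀ (M c0 C' c R0 : ℝ) (X0 : Prm d), XOK J JA M c0 C' c R0 X0 →
    ∃ (κ C : ℝ), 0 < κ ∧ 0 < C ∧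
    ∀ (K γ δ : ℝ), 0 < K → 0 < γ → γ ≤ 1 / (8 * d) → 0 < δ → ∃ RN0 : ℝ, 1 ≤ RN0 ∧
    ∀ RN : ℝ, RN0 ≤ RN → ∃ (Rs RM : ℝ) (tol : ℕ → ℝ), (∀ J, 0 < tol J) ∧ 1 ≤ Rs ∧
    ∀ (R1 : ℝ) (rm : ℕ), ∃ (C1 Rz : ℝ), 0 < C1 ∧
    ∀ (E : Type) [NormedAddCommGroup E] [InnerProductSpace ℝ E] [FiniteDimensional ℝ E]
      (W : Wld d E), WOK JA C' R0 Rz { X0 with RN := RN } W → ∀ Q : Cell d, W.Near Q →
      (W.kd Q = 0 → WSh J R0 κ W Q) →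
      (∀ Q' ∈ adj Q, W.kd Q' = 1 → WNw K γ R1 Rs RM rm tol W Q') →
      ∀ al : ℝ, 0 ≤ al → (∀ (ζ : Sp d → ℝ) (N : ℝ), TFn 2 N ζ →
        (∀ y, (d : ℝ) + 3 ≤ ‖y‖ → ζ y = 0) → |∫ y, W.m Q y * ζ y| ≤ N * al) →
      W.w Q * W.val Q ≤ W.nt1 Q + C * (W.w Q * W.v Q) * al +
        δ * (W.w Q * W.v Q) * (∑ Q' ∈ (adj Q).filter (fun Q' => W.kd Q' = 1), W.a Q') +
        C1 * (W.w Q * W.v Q) * ∑ Q' ∈ adj Q, W.D Q'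

/-- MODULE WA6: the plane functional, type A -/
def StmtWA6 : Prop :=
  ∀ (d J JA : ℕ), 2 ≤ d → ∀ (M c0 C' c R0 : ℝ) (X : Prm d), XOK J JA M c0 C' c R0 X →
    ∃ C : ℝ, 0 < C ∧ ∀ Kc : ℝ, 1 ≤ Kc → ∃ (κ CK Rz : ℝ), 0 < κ ∧ 0 < CK ∧
    ∀ (E : Type) [NormedAddCommGroup E] [InnerProductSpace ℝ E] [FiniteDimensional ℝ E]
      (W : Wld d E), WOK JA C' R0 Rz X W → ∀ Q : Cell d, Ash J JA R0 κ Kc W Q →
      W.w Q * W.v Q * bq R0 (W.m Q) ≤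
        C * W.sV R0 JA Q + CK * (W.w Q * W.v Q) * (W.sE R0 JA Q + W.sD R0 JA Q)

/-- MODULE WA7: the functional Y, type A -/
def StmtWA7 : Prop :=
  ∀ (d J JA : ℕ), 2 ≤ d → ∀ (M c0 C' c R0 : ℝ) (X : Prm d), XOK J JA M c0 C' c R0 X →
    ∀ (C3 Ct R2 : ℝ), 0 < C3 → 1 ≤ Ct → 8 * Ct ≤ R0 → 0 < R2 →
    ∃ C : ℝ, 0 < C ∧ ∀ Kc : ℝ, 1 ≤ Kc → ∃ (κ CK Rz : ℝ), 0 < κ ∧ 0 < CK ∧
    ∀ (E : Type) [NormedAddCommGroup E] [InnerProductSpace ℝ E] [FiniteDimensional ℝ E]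
      (W : Wld d E), WOK JA C' R0 Rz X W → ∀ P : Cell d, 2 ≤ P.1 → Ash J JA R0 κ Kc W P →
      ∀ (at1 DT : ℝ) (n : Sp d) (s : ℝ), 0 ≤ at1 → 0 ≤ DT → ‖n‖ = 1 → |s| ≤ R2 →
      at1 ≤ C3 * (∫ y, W.m P y * zR Ct y) + DT →
      W.w P * (at1 * Mo (W.mu P) n s 2 1 0) ≤ C * W.sV R0 JA P +
        C * (W.w P * W.v P) * max 0 (blc n s (W.m P) R0) +
        CK * (W.w P * W.v P) * (W.sE R0 JA P + W.sD R0 JA P + DT)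

/-- MODULE B4: the functional Y controlled by the pieces -/
def StmtB4 : Prop :=
  ∀ (d J0 : ℕ), 2 ≤ d → 6 ≤ J0 → ∀ (M C' ε p0 A c R0 Ct R2 : ℝ),
    0 < C' → 0 < ε → ε ≤ 1 / 4 → FarK d J0 M C' ε p0 A c → 4 * A + 4 * d + 20 ≤ R0 →
    1 ≤ Ct → 8 * Ct ≤ R0 → 0 < R2 →
    ∃ CB : ℝ, 0 < CB ∧ ∀ (δ Rs : ℝ), 0 < δ → 2 * R0 ≤ Rs →
    ∃ tol : ℕ → ℝ, (∀ J, 0 < tol J) ∧ ∀ (R1 : ℝ) (rm : ℕ), ∃ C : ℝ, 0 < C ∧
    ∀ β : Sp d → ℝ, Kit J0 M β → ∀ μ : Measure (Sp d), Gro C' μ →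
    ∀ (m : Sp d → ℝ) (a D : ℝ) (J r : ℕ) (ν : Fin r → Sp d) (κ : Fin r → Sp d → ℝ),
      Continuous m → 0 ≤ a → 0 ≤ D → ZP R1 D m → Str J rm R1 Rs (tol J) a m r ν κ →
    ∀ (n : Sp d) (s : ℝ), ‖n‖ = 1 → |s| ≤ R2 →
      (∫ y, m y * zR Ct y) * Mo μ n s 2 1 0 ≤
        CB * pieces m ν κ (fun n x => zR (2 * R0 - 1) x * Hn β ε p0 A μ n 1 x)
          + CB * vv μ 1 0 * (∫ y, m y * (zR R0 y * hgt n s y ^ 2))
          + δ * a * vv μ 1 0 + C * vv μ 1 0 * D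

/-- MODULE WB6: the plane functional and the functional Y, type B.  The term with the masses is
present only if there is a near cell of the level of Q in the neighbourhood -/
def StmtWB6 : Prop :=
  ∀ (d J JA : ℕ), 2 ≤ d → ∀ (M c0 C' c R0 : ℝ) (X0 : Prm d), XOK J JA M c0 C' c R0 X0 →
    ∀ (C3 Ct R2 : ℝ), 0 < C3 → 1 ≤ Ct → 8 * Ct ≤ R0 → 0 < R2 → ∃ C : ℝ, 0 < C ∧
    ∀ (K γ δ : ℝ), 0 < K → 0 < γ → γ ≤ 1 / (8 * d) → 0 < δ → ∃ RN0 : ℝ, 1 ≤ RN0 ∧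
    ∀ RN : ℝ, RN0 ≤ RN → ∃ (Rs RM : ℝ) (tol : ℕ → ℝ), (∀ J, 0 < tol J) ∧ 1 ≤ Rs ∧
    ∀ (R1 : ℝ) (rm : ℕ), ∃ (C1 Rz : ℝ), 0 < C1 ∧
    ∀ (E : Type) [NormedAddCommGroup E] [InnerProductSpace ℝ E] [FiniteDimensional ℝ E]
      (W : Wld d E), WOK JA C' R0 Rz { X0 with RN := RN } W → ∀ Q : Cell d,
      (∀ Q' ∈ W.ns R0 JA Q, Q'.1 = Q.1 → W.kd Q' = 1 ∧ WNw K γ R1 Rs RM rm tol W Q') →
      ∀ mass : ℝ, 0 ≤ mass → ((∃ Q' ∈ W.ns R0 JA Q, Q'.1 = Q.1 ∧ W.Near Q') →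
        (∑ Q' ∈ (W.ns R0 JA Q).filter (fun Q' => Q'.1 = Q.1), W.a Q') ≤ mass) →
      W.w Q * W.v Q * bq R0 (W.m Q) ≤ C * W.sV R0 JA Q +
        δ * (W.w Q * W.v Q) * mass + C1 * (W.w Q * W.v Q) * W.sD R0 JA Q ∧
      ∀ (at1 DT : ℝ) (n : Sp d) (s : ℝ), 0 ≤ at1 → 0 ≤ DT → ‖n‖ = 1 → |s| ≤ R2 →
      at1 ≤ C3 * (∫ y, W.m Q y * zR Ct y) + DT →
      W.w Q * (at1 * Mo (W.mu Q) n s 2 1 0) ≤ C * W.sV R0 JA Q +
        C * (W.w Q * W.v Q) * max 0 (blc n s (W.m Q) R0) +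
        δ * (W.w Q * W.v Q) * mass + C1 * (W.w Q * W.v Q) * (W.sD R0 JA Q + DT)

end

end TG
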