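import Pool.Agent.TG.FRL
import Pool.Agent.TG.Stmts13

/-!
# Small facts in the frames of the cells, for the construction of the world  (helper98)

FN1 bC_le_bq; FN2 far_mass; FN3 mass_le; FN4 plane_gen; FN5 zp_dir; FN6 near_om
-/

open MeasureTheory Metric Set TrI
open scoped InnerProductSpace ContDiff ENNReal

namespace TG

namespace FN

open FR FR4

noncomputable section

variable {d : ℕ}

/-- the plane lemma -/
theorem plane_gen (h8 : StmtCT8) (h5 : StmtCT5) (hd : 2 ≤ d) {M c0 ε : ℝ} (hε : 0 < ε)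
    (hε1 : ε ≤ 1) {b : Sp d → ℝ} (hb : BaseKer 2 M c0 b) {R0 : ℝ} (hR0 : 400 + 8 * d ≤ R0) (l : ℕ)
    {ρ : ℝ} (hρ : 1 ≤ ρ) (hl : ρ + 1 + Real.sqrt d * 2 ^ l ≤ R0 * 2 ^ l) :
    ∃ C : ℝ, 0 < C ∧
    ∀ (E : Type) [NormedAddCommGroup E] [InnerProductSpace ℝ E] [FiniteDimensional ℝ E]
      (R : ℝ), 300 * R0 ≤ R → ρ + 4 ≤ R → ∀ f : Sp d → E, Continuous f → HasCompactSupport f →
    ∀ s0 : ℝ, 0 < s0 → ∀ e : Cell d → E, Dirs b ε R s0 f e →
    ∀ (ν : Cell d → Sp d) (c : Cell d → ℝ), Plns R0 s0 f e ν c → ∀ S : Cell d,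
      max 0 (bb ρ s0 f S.1 (xC s0 S) (e S) (ν (up l S)) (c (up l S))) ≤
        C * (bC R0 s0 f e ν c (up l S) + dC b ε R s0 f e S + dC b ε R s0 f e (up l S)) := by
  have hd1 : 1 ≤ d := by omega
  have hdR : (1 : ℝ) ≤ d := by exact_mod_cast hd1
  have hsd : Real.sqrt d ≤ d := by
    rw [Real.sqrt_le_left (by linarith)]
    nlinarith
  have hsd0 := Real.sqrt_nonneg (d : ℝ)
  have hR00 : 0 < R0 := by linarith
  obtain ⟨C8, hC8, g8⟩ := h8 d hd1 M c0 ε hε hε1 b hb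
  obtain ⟨C81, hC81, g8⟩ := g8 0
  obtain ⟨C5, hC5, g5⟩ := h5 d hd1 M c0 ε hε hε1 b hb R0 l (by linarith)
  obtain ⟨N1, hN1, hT1⟩ := TU.TFn_of_cs (J := 2)
    (contDiff_infty.1 (TU.zR_smooth (d := d) hR00) 2) (TU.zR_cs R0)
  obtain ⟨N2, hN2, hT2⟩ := TU.TFn_of_cs (J := 2)
    (contDiff_infty.1 (TU.zR_smooth (d := d) (by linarith : 0 < ρ)) 2) (TU.zR_cs ρ)
  set NA : ℝ := 4 ^ 2 * (N1 + max 1 |(2 : ℝ) ^ l| ^ 2 * N2) * max 1 (R0 + 1 + (R0 + 1)) ^ 2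
    with hNA
  set NB : ℝ := 4 ^ 2 * N2 * max 1 (ρ + 1 + ((2 ^ l) * (R0 + 1) + (2 ^ l) * Real.sqrt d)) ^ 2
    with hNB
  have hNA0 : 0 < NA := by positivity
  have hNB0 : 0 < NB := by positivity
  set q : ℝ := ((2 : ℝ) ^ l) ^ d / (2 : ℝ) ^ l * (2 ^ l) ^ 2 with hq
  have hq0 : 0 < q := by positivity
  refine ⟨q + q * (NA * C8) + C5 * NB, by positivity, ?_⟩
  intro E _ _ _ R hR hR2 f hf hc s0 h e he ν c hν S
  set P := up l S with hP
  have hP1 : P.1 = S.1 + l := rfl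
  obtain ⟨⟨g50, g51, _⟩, -, -, -, g55⟩ := g5 E R (by linarith) f hf hc s0 h e he ν c hν |>.imp
    (fun h => h P) id
  have g50S := ((g5 E R (by linarith) f hf hc s0 h e he ν c hν).1 S).1
  obtain ⟨g8c, g8z⟩ := (g8 E R (by linarith) (by norm_num; linarith) f hf hc s0 h e he).1 P
  have hlS := lev_pos h S.1
  have hlP := lev_pos h P.1
  have hlev : lev s0 P.1 = 2 ^ l * lev s0 S.1 := by rw [hP1, lev_add]
  -- distances
  have hdist : ‖xC s0 P - xC s0 S‖ ≤ Real.sqrt d * ((2 ^ l - 1) * lev s0 S.1) := xC_up' h l S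
  have hw : ‖tw s0 S P‖ ≤ Real.sqrt d * 2 ^ l := norm_tw_up h l S
  have hcP : |cfr s0 P (ν P) (c P)| ≤ R0 + 1 := by
    have h1 := ht_frame_tw h P P (ν P) (c P)
    rw [tw_self, ht_zero] at h1
    rw [← abs_neg, h1, abs_div, abs_of_pos hlP, div_le_iff₀ hlP]
    exact hν.loc P
  have hcS : |cfr s0 S (ν P) (c P)| ≤ (2 ^ l) * (R0 + 1) + (2 ^ l) * Real.sqrt d := by
    have h1 := ht_frame2 h S P l hP1 (ν P) (c P) 0
    rw [smul_zero, add_zero, ht_zero] at h1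
    have h2 := ht_two (hν.unit P) (cfr s0 S (ν P) (c P)) 0 (tw s0 S P)
    rw [ht_zero, abs_neg, h1, zero_sub, norm_neg] at h2
    refine h2.trans ?_
    rw [mul_neg, abs_neg, abs_mul, abs_of_pos (by positivity : (0 : ℝ) < 2 ^ l)]
    have h3 := mul_le_mul_of_nonneg_left hcP (by positivity : (0 : ℝ) ≤ 2 ^ l)
    linarith
  -- the two test functions
  set hP2 := fun z : Sp d => ht (ν P) (cfr s0 P (ν P) (c P)) z ^ 2 with hhP2
  set ζ := fun y : Sp d => zR ρ y * ht (ν P) (cfr s0 S (ν P) (c P)) y ^ 2 with hζ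
  set φ := fun z : Sp d => zR R0 z - zR ρ (tw s0 S P + (2 : ℝ) ^ l • z) with hφ
  have hsm : ∀ (ν : Sp d) (c : ℝ), Continuous (ht ν c) := fun ν c =>
    (TU.ht_smooth ν c (n := 0)).continuous
  have hφ1 : TFn 2 (N1 + max 1 |(2 : ℝ) ^ l| ^ 2 * N2) φ :=
    TU.TFn_sub hT1 (TU.TFn_aff hT2 (tw s0 S P) (by norm_num))
  have hφ2 : ∀ y : Sp d, R0 + 1 ≤ ‖y‖ → φ y = 0 := by
    intro y hy
    have h1 : ρ + 1 ≤ ‖tw s0 S P + (2 : ℝ) ^ l • y‖ := by
      have h2 : ‖(2 : ℝ) ^ l • y‖ = 2 ^ l * ‖y‖ := by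
        rw [norm_smul, Real.norm_of_nonneg (by positivity)]
      have h3 := norm_sub_le_norm_add ((2 : ℝ) ^ l • y) (tw s0 S P)
      rw [add_comm] at h3
      rw [h2] at h3
      have h4 := mul_le_mul_of_nonneg_left hy (by positivity : (0 : ℝ) ≤ 2 ^ l)
      have h5 : (0 : ℝ) < 2 ^ l := by positivity
      linarith
    simp only [hφ]
    rw [TU.zR_zero hy, TU.zR_zero h1, sub_zero]
  have hφ0 : ∀ y, 0 ≤ φ y := by
    intro y
    simp only [hφ]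
    by_cases hy : ‖y‖ ≤ R0
    · rw [TU.zR_one hy]
      linarith [TU.zR_le_one ρ (tw s0 S P + (2 : ℝ) ^ l • y)]
    · push Not at hy
      have h1 : ρ + 1 ≤ ‖tw s0 S P + (2 : ℝ) ^ l • y‖ := by
        have h2 : ‖(2 : ℝ) ^ l • y‖ = 2 ^ l * ‖y‖ := by
          rw [norm_smul, Real.norm_of_nonneg (by positivity)]
        have h3 := norm_sub_le_norm_add ((2 : ℝ) ^ l • y) (tw s0 S P)
        rw [add_comm] at h3
        rw [h2] at h3
        have h4 := mul_le_mul_of_nonneg_left hy.le (by positivity : (0 : ℝ) ≤ 2 ^ l)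
        linarith
      rw [TU.zR_zero h1, sub_zero]
      exact TU.zR_nonneg _ _
  have hT3 : TFn 2 NA (fun y => φ y * ht (ν P) (cfr s0 P (ν P) (c P)) y ^ 2) :=
    TU.TFn_ht_sq hφ1 (fun y hy => hφ2 y hy.le) (hν.unit P) hcP
  have hZ := GSAux.ZP' g8z hT3 (fun y => mul_nonneg (hφ0 y) (sq_nonneg _))
    (fun y hy => by rw [hφ2 y (by linarith), zero_mul])
  have hT4 : TFn 2 NB ζ := TU.TFn_ht_sq hT2 (fun y hy => TU.zR_zero hy.le) (hν.unit P) hcS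
  have hD := g55 S P hP1 ζ NB hT4 (fun y hy => by
      simp only [hζ]
      rw [TU.zR_zero (by linarith), zero_mul]) (by
      refine hdist.trans ?_
      rw [hlev]
      have h1 : Real.sqrt d ≤ R := by linarith
      have h2 : (0 : ℝ) ≤ (2 ^ l - 1) * lev s0 S.1 := by
        have : (1 : ℝ) ≤ 2 ^ l := one_le_pow₀ (by norm_num)
        exact mul_nonneg (by linarith) hlS.le
      have h3 := mul_le_mul_of_nonneg_right h1 h2
      linarith [h3, show R * (2 ^ l * lev s0 S.1 - lev s0 S.1) = R * ((2 ^ l - 1) * lev s0 S.1) by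
        ring])
  -- integrability
  have hci : ∀ (m g : Sp d → ℝ), Continuous m → Continuous g → HasCompactSupport g →
      Integrable (fun y => m y * g y) := fun m g hm hg hgc =>
    (hm.mul hg).integrable_of_hasCompactSupport hgc.mul_left
  have hzc : ∀ ρ : ℝ, 0 < ρ → Continuous (zR ρ : Sp d → ℝ) := fun ρ hρ =>
    (TU.zR_smooth hρ).continuous
  have hζc : Continuous ζ := (hzc _ (by linarith)).mul ((hsm _ _).pow 2)
  have hζs : HasCompactSupport ζ := (TU.zR_cs ρ).mul_right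
  -- first decomposition
  have e1 : ∫ y, mQ s0 f (e S) S y * ζ y = (∫ y, mQ s0 f (e P) S y * ζ y) +
      ∫ y, ⟪rs (xC s0 S) (lev s0 S.1) f y, e S - e P⟫_ℝ * ζ y := by
    rw [← integral_add (hci _ _ (mQ_cont hf s0 (e P) S) hζc hζs)
      (hci _ _ ((rs_cont hf _ _).inner continuous_const) hζc hζs)]
    congr 1
    funext y
    unfold mQ
    rw [inner_sub_right]
    ring
  -- second decomposition
  have e2 : ∫ z, mQ s0 f (e P) P z * ζ (tw s0 S P + (2 : ℝ) ^ l • z) =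
      (2 ^ l) ^ 2 * (bb R0 s0 f P.1 (xC s0 P) (e P) (ν P) (c P) -
        ∫ z, mQ s0 f (e P) P z * (φ z * ht (ν P) (cfr s0 P (ν P) (c P)) z ^ 2)) := by
    rw [bb_mQ h, ← integral_sub, ← integral_const_mul]
    · congr 1
      funext z
      simp only [hζ, hφ]
      rw [ht_frame2 h S P l hP1]
      ring
    · exact hci _ _ (mQ_cont hf s0 (e P) P) ((hzc _ hR00).mul ((hsm _ _).pow 2))
        (TU.zR_cs R0).mul_right
    · refine hci _ _ (mQ_cont hf s0 (e P) P) hT3.smooth.continuous ?_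
      refine HasCompactSupport.intro (isCompact_closedBall (0 : Sp d) (R0 + 1)) fun y hy => ?_
      rw [mem_closedBall, dist_zero_right, not_le] at hy
      rw [hφ2 y hy.le, zero_mul]
  have e3 := int_frame h f (e P) S P l hP1 ζ
  have e4 : ∫ y, mQ s0 f (e P) S y * ζ y = q * (bb R0 s0 f P.1 (xC s0 P) (e P) (ν P) (c P) -
        ∫ z, mQ s0 f (e P) P z * (φ z * ht (ν P) (cfr s0 P (ν P) (c P)) z ^ 2)) := by
    rw [e2] at e3
    have h1 : (2 : ℝ) ^ l / ((2 : ℝ) ^ l) ^ d * (((2 : ℝ) ^ l) ^ d / (2 : ℝ) ^ l) = 1 := by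
      field_simp
    rw [hq, mul_assoc, e3, ← mul_assoc, mul_comm (((2 : ℝ) ^ l) ^ d / (2 : ℝ) ^ l), h1, one_mul]
  have e5 : bb ρ s0 f S.1 (xC s0 S) (e S) (ν P) (c P) ≤
      q * (bC R0 s0 f e ν c P + NA * (C8 * dC b ε R s0 f e P)) +
        C5 * NB * (dC b ε R s0 f e S + dC b ε R s0 f e P) := by
    rw [bb_mQ h]
    have h1 : ∫ y, mQ s0 f (e S) S y * (zR ρ y *
      ht (ν P) (cfr s0 S (ν P) (c P)) y ^ 2) = ∫ y, mQ s0 f (e S) S y * ζ y := rfl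
    rw [h1, e1, e4]
    refine add_le_add (mul_le_mul_of_nonneg_left ?_ hq0.le) ((le_abs_self _).trans hD)
    have h2 : bb R0 s0 f P.1 (xC s0 P) (e P) (ν P) (c P) ≤ bC R0 s0 f e ν c P := le_max_right _ _
    linarith
  have h6 : 0 ≤ q * (NA * C8) := by positivity
  have h7 : 0 ≤ C5 * NB := by positivity
  refine max_le (by positivity) (e5.trans ?_)
  nlinarith [mul_nonneg h6 g51, mul_nonneg h6 g50S, mul_nonneg h7 g51, mul_nonneg hq0.le g50S,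
    mul_nonneg hq0.le g50, mul_nonneg h6 g50]

/-! ## FN1 -/

section F1

variable {E : Type} [NormedAddCommGroup E] [InnerProductSpace ℝ E] [FiniteDimensional ℝ E]

lemma cfr_plane {s0 : ℝ} (h : 0 < s0) (Q : Cell d) (n : Sp d) (s : ℝ) :
    cfr s0 Q n (⟪n, xC s0 Q⟫_ℝ + lev s0 Q.1 * s) = s := by
  have hl := lev_pos h Q.1
  unfold cfr
  field_simp
  ring

lemma bb_blc {s0 : ℝ} (h : 0 < s0) (ρ : ℝ) (f : Sp d → E) (e : E) (Q : Cell d) (ν : Sp d)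
    (c : ℝ) : bb ρ s0 f Q.1 (xC s0 Q) e ν c = blc ν (cfr s0 Q ν c) (mQ s0 f e Q) ρ :=
  bb_mQ h ρ f e Q ν c

/-- the plane functional of a cell is at most (in fact equal to) the functional bq of the frame -/
theorem bC_le_bq (hd : 1 ≤ d) {R0 s0 : ℝ} (h : 0 < s0) (hR0 : 0 ≤ R0) {f : Sp d → E}
    {e : Cell d → E} {ν : Cell d → Sp d} {c : Cell d → ℝ} (hν : Plns R0 s0 f e ν c)
    (Q : Cell d) : bC R0 s0 f e ν c Q ≤ bq R0 (mQ s0 f (e Q) Q) := by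
  have hl := lev_pos h Q.1
  unfold bC bq
  refine max_le_max le_rfl (le_csInf ?_ ?_)
  · refine ⟨_, EuclideanSpace.single (⟨0, hd⟩ : Fin d) (1 : ℝ), 0, by simp, ?_, rfl⟩
    rw [abs_zero]
    linarith
  · rintro v ⟨n, s, hn, hs, rfl⟩
    have h1 := hν.min Q n (⟪n, xC s0 Q⟫_ℝ + lev s0 Q.1 * s) hn (by
      unfold ht
      rw [show ⟪n, xC s0 Q⟫_ℝ - (⟪n, xC s0 Q⟫_ℝ + lev s0 Q.1 * s) = -(lev s0 Q.1 * s) by ring,
        abs_neg, abs_mul, abs_of_pos hl, mul_comm]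
      exact mul_le_mul_of_nonneg_right hs hl.le)
    refine h1.trans (le_of_eq ?_)
    rw [bb_blc h, cfr_plane h]

end F1

/-! ## FN2, FN3: masses in the frame -/

lemma lev_unit (n : ℕ) : lev ((1 / 2 : ℝ) ^ n) n = 1 := by
  have := lev_half n 0
  simpa using this

/-- mass of a cell in terms of an integral in the frame -/
lemma mC_frame {E : Type} [NormedAddCommGroup E] [InnerProductSpace ℝ E] [FiniteDimensional ℝ E]
    (hSC : StmtSC) (hd : 2 ≤ d) {M c0 ε : ℝ} (hε : 0 < ε) (hε1 : ε ≤ 1)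
    {b : Sp d → ℝ} (hb : BaseKer 2 M c0 b) {f : Sp d → E} (hf : Continuous f)
    (hc : HasCompactSupport f) {s0 : ℝ} (h : 0 < s0) (ρ : ℝ) (Q : Cell d) :
    mC b ε ρ s0 f Q = ∫ y in ball (0 : Sp d) ρ,
      ‖fl b ε ((1 / 2) ^ Q.1) (rs (xC s0 Q) (lev s0 Q.1) f) (Q.1 - 1) y‖ := by
  have h1 := ma_frame hSC hd hε hε1 hb hf hc h ρ 0 Q
  rw [up_zero, tw_self, add_zero] at h1
  rw [← h1]
  unfold ma
  rw [lev_unit]
  simp

/-- masses against nonnegative test functions in the frame -/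
theorem mass_test (hMA : StmtMA) (hSC : StmtSC) (hd : 2 ≤ d) {M c0 ε : ℝ} (hε : 0 < ε)
    (hε1 : ε ≤ 1) {b : Sp d → ℝ} (hb : BaseKer 2 M c0 b) :
    ∃ C : ℝ, 0 < C ∧
    ∀ (E : Type) [NormedAddCommGroup E] [InnerProductSpace ℝ E] [FiniteDimensional ℝ E]
      (R : ℝ), 5 ≤ R → ∀ f : Sp d → E, Continuous f → HasCompactSupport f →
    ∀ s0 : ℝ, 0 < s0 → ∀ e : Cell d → E, (∀ Q, ‖e Q‖ = 1) → ∀ (Q : Cell d) (ρ : ℝ)
      (H : Sp d → ℝ) (N h0 : ℝ), 0 < h0 → TFn 2 N H → (∀ y, 0 ≤ H y) →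
        (∀ y, R - 2 ≤ ‖y‖ → H y = 0) → (∀ z, ‖z‖ ≤ ρ + 2 → h0 ≤ H z) →
      h0 * mC b ε ρ s0 f Q ≤ (∫ y, mQ s0 f (e Q) Q y * H y) + C * N * dC b ε R s0 f e Q := by
  obtain ⟨C, hC, hM⟩ := TU.MA' hMA (by omega : 1 ≤ d) hε hε1 hb
  refine ⟨C, hC, ?_⟩
  intro E _ _ _ R hR f hf hc s0 h e he Q ρ H N h0 hh0 hH hH0 hHs hHl
  have h1 := (hM E (rs (xC s0 Q) (lev s0 Q.1) f) (rs_cont hf _ _)
    (rs_cs hc _ (lev_pos h _)) R hR Q.1 (e Q) (he Q) 0 (ball 0 ρ) measurableSet_ball).2 H N h0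
    hh0 hH hH0 (fun y hy => hHs y (by simpa using hy)) (fun y z hy hz => hHl z (by
      rw [mem_ball, dist_zero_right] at hy
      have : z = (z - y) + y := by abel
      rw [this]
      exact (norm_add_le _ _).trans (by linarith)))
  have h2 := DD_frame hSC hd hε hε1 hb hf hc h R 0 Q (e Q)
  rw [up_zero, tw_self, add_zero] at h2
  rw [h2, ← mC_frame hSC hd hε hε1 hb hf hc h ρ Q] at h1
  exact h1

/-- FN2: if the plane stays away from the ball of radius 32 R0 then the mass in this ball is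
bounded by the off-plane mass -/
theorem far_mass (hMA : StmtMA) (hSC : StmtSC) (hd : 2 ≤ d) {M c0 ε : ℝ} (hε : 0 < ε)
    (hε1 : ε ≤ 1) {b : Sp d → ℝ} (hb : BaseKer 2 M c0 b) {R0 : ℝ} (hR0 : 1 ≤ R0) :
    ∃ C : ℝ, 0 < C ∧
    ∀ (E : Type) [NormedAddCommGroup E] [InnerProductSpace ℝ E] [FiniteDimensional ℝ E]
      (R : ℝ), 64 * R0 + 5 ≤ R → ∀ f : Sp d → E, Continuous f → HasCompactSupport f →
    ∀ s0 : ℝ, 0 < s0 → ∀ e : Cell d → E, (∀ Q, ‖e Q‖ = 1) → ∀ (Q : Cell d) (n : Sp d) (s : ℝ),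
      ‖n‖ = 1 → 32 * R0 + 4 < |s| → |s| ≤ 64 * R0 + 4 →
      mC b ε (32 * R0) s0 f Q ≤ blc n s (mQ s0 f (e Q) Q) (64 * R0) + C * dC b ε R s0 f e Q := by
  obtain ⟨C, hC, hT⟩ := mass_test hMA hSC hd hε hε1 hb
  obtain ⟨N2, hN2, hT2⟩ := TU.TFn_of_cs (J := 2)
    (contDiff_infty.1 (TU.zR_smooth (d := d) (by linarith : 0 < 64 * R0)) 2) (TU.zR_cs (64 * R0))
  set N : ℝ := 4 ^ 2 * N2 * max 1 (64 * R0 + 1 + (64 * R0 + 4)) ^ 2 with hN
  have hN0 : 0 < N := by positivity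
  refine ⟨C * N, by positivity, ?_⟩
  intro E _ _ _ R hR f hf hc s0 h e he Q n s hn hs hs2
  have h1 := hT E R (by linarith) f hf hc s0 h e he Q (32 * R0)
    (fun y => zR (64 * R0) y * ht n s y ^ 2) N 1 one_pos
    (TU.TFn_ht_sq hT2 (fun y hy => TU.zR_zero hy.le) hn hs2)
    (fun y => mul_nonneg (TU.zR_nonneg _ _) (sq_nonneg _))
    (fun y hy => by rw [TU.zR_zero (by linarith), zero_mul])
    (fun z hz => by
      rw [TU.zR_one (by linarith), one_mul]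
      have h2 : |s| - ‖z‖ ≤ |ht n s z| := by
        unfold ht
        have h3 := abs_real_inner_le_norm n z
        rw [hn, one_mul] at h3
        have h4 : |s| ≤ |⟪n, z⟫_ℝ - s| + |⟪n, z⟫_ℝ| := by
          have := abs_sub_abs_le_abs_sub s ⟪n, z⟫_ℝ
          rw [abs_sub_comm] at this
          linarith
        linarith
      have h5 : (1 : ℝ) ≤ |ht n s z| := by linarith
      rw [← sq_abs]
      nlinarith)
  rw [one_mul] at h1
  exact h1

/-- FN3: the mass in the ball ρ against a cut-off -/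
theorem mass_le (hMA : StmtMA) (hSC : StmtSC) (hd : 2 ≤ d) {M c0 ε : ℝ} (hε : 0 < ε)
    (hε1 : ε ≤ 1) {b : Sp d → ℝ} (hb : BaseKer 2 M c0 b) {ρ : ℝ} (hρ : 0 < ρ) :
    ∃ C : ℝ, 0 < C ∧
    ∀ (E : Type) [NormedAddCommGroup E] [InnerProductSpace ℝ E] [FiniteDimensional ℝ E]
      (R : ℝ), ρ + 5 ≤ R → ∀ f : Sp d → E, Continuous f → HasCompactSupport f →
    ∀ s0 : ℝ, 0 < s0 → ∀ e : Cell d → E, (∀ Q, ‖e Q‖ = 1) → ∀ (Q : Cell d),
      mC b ε ρ s0 f Q ≤ (∫ y, mQ s0 f (e Q) Q y * zR (ρ + 2) y) + C * dC b ε R s0 f e Q := by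
  obtain ⟨C, hC, hT⟩ := mass_test hMA hSC hd hε hε1 hb
  obtain ⟨N2, hN2, hT2⟩ := TU.TFn_of_cs (J := 2)
    (contDiff_infty.1 (TU.zR_smooth (d := d) (by linarith : 0 < ρ + 2)) 2) (TU.zR_cs (ρ + 2))
  refine ⟨C * N2, by positivity, ?_⟩
  intro E _ _ _ R hR f hf hc s0 h e he Q
  have h1 := hT E R (by linarith) f hf hc s0 h e he Q ρ (zR (ρ + 2)) N2 1 one_pos hT2
    (fun y => TU.zR_nonneg _ _) (fun y hy => TU.zR_zero (by linarith))
    (fun z hz => by rw [TU.zR_one (by linarith)])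
  rw [one_mul] at h1
  exact h1

end

end FN

end TG
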