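import Pool.Agent.TG.Stmts14

/-!
# Trace inequality, general operators: light cells below a flat top   (helper46)

Section 14' of SEC14_17.md, (III.1) - (III.4), in the vocabulary of Conc.lean.  The result has the
form of the last hypothesis of StmtLT.  Radii: R0 for b, 64 R0 for a, 32 R0 for ah, R0 + 3 for al,
m0 = 9, tops P, the plane of P is the minimal plane of up 9 P.  No double quotes.
-/

open MeasureTheory Metric Set TrI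
open scoped InnerProductSpace ContDiff ENNReal

namespace TG

noncomputable section

variable {d : ℕ}

/-- MODULE T1 (III.1): uniform sheet.  Here cu does not depend on n0 -/
def StmtT1 : Prop :=
  ∀ (d : ℕ) (V E : Type) [NormedAddCommGroup V] [InnerProductSpace ℝ V] [FiniteDimensional ℝ V]
    [NormedAddCommGroup E] [InnerProductSpace ℝ E] [FiniteDimensional ℝ E] [Nontrivial E]
    (L : (Sp d →L[ℝ] V) →L[ℝ] E), 2 ≤ d → CEll L →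
    ∀ (M c0 ε : ℝ), 0 < ε → ε ≤ 1 → ∀ (b : Sp d → ℝ), BaseKer 2 M c0 b →
    ∀ (Rt R0 γ : ℝ), 1 ≤ Rt → 400 + 8 * d ≤ R0 → 8 * Rt ≤ R0 → 0 < γ → γ ≤ 1 / (8 * d) →
    ∃ cu : ℝ, 0 < cu ∧ ∀ n0 : ℕ, ∃ (κ δ Rm : ℝ), 0 < κ ∧ 0 < δ ∧
      ∀ R : ℝ, Rm ≤ R → ∀ u : Sp d → V, TF u → ∀ s0 : ℝ, 0 < s0 →
      ∀ e : Cell d → E, Dirs b ε R s0 (fo L u) e →
      ∀ (ν : Cell d → Sp d) (c : Cell d → ℝ), Plns R0 s0 (fo L u) e ν c →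
      ∀ P : Cell d, 0 < mT b ε s0 (fo L u) P →
        (∀ l : ℕ, mT b ε s0 (fo L u) (up l P) ≤ (2 : ℝ) ^ (γ * l) * mT b ε s0 (fo L u) P) →
        mT b ε s0 (fo L u) P ≤ 4 * mC b ε Rt s0 (fo L u) P →
        (∀ l : ℕ, dC b ε R s0 (fo L u) e (up l P) ≤
          δ * (2 : ℝ) ^ ((l : ℝ) / 8) * mT b ε s0 (fo L u) P) →
        bC R0 s0 (fo L u) e ν c (up 9 P) ≤ κ * mT b ε s0 (fo L u) P →
      ∀ y : Sp d, ht (ν (up 9 P)) (c (up 9 P)) y = 0 →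
        ‖y - xC s0 P‖ ≤ 64 * R0 * lev s0 P.1 → ∀ i ≤ n0, i ≤ P.1 →
        cu * mT b ε s0 (fo L u) P ≤ lev s0 (P.1 - i) / lev s0 (P.1 - i) ^ d *
          ∫ z in ball y (16 * R0 * lev s0 (P.1 - i)), ‖fl b ε s0 (fo L u) (P.1 - i - 1) z‖

/-- the quantity Y_P: second moment of the posterior distribution over the plane of up 9 P -/
def YC {E : Type} [NormedAddCommGroup E] [InnerProductSpace ℝ E] (b : Sp d → ℝ) (ε s0 : ℝ)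
    (f : Sp d → E) (μ : Measure (Sp d)) (ν : Cell d → Sp d) (c : Cell d → ℝ) (P : Cell d) : ℝ :=
  mT b ε s0 f P * Mo (muQ s0 μ P) (ν (up 9 P))
    ((c (up 9 P) - ⟪ν (up 9 P), xC s0 P⟫_ℝ) / lev s0 P.1) 2 1 0

/-- MODULE T2 (III.2) - (III.4), from T1 and CT3 -/
def StmtT2 : Prop :=
  ∀ (d : ℕ) (V E : Type) [NormedAddCommGroup V] [InnerProductSpace ℝ V] [FiniteDimensional ℝ V]
    [NormedAddCommGroup E] [InnerProductSpace ℝ E] [FiniteDimensional ℝ E] [Nontrivial E]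
    (L : (Sp d →L[ℝ] V) →L[ℝ] E), 2 ≤ d → CEll L → ∃ Rt : ℝ, 1 ≤ Rt ∧
    ∀ (M c0 ε : ℝ), 0 < ε → ε ≤ 1 → ∀ (b : Sp d → ℝ), BaseKer 2 M c0 b →
    ∀ (C' R0 γ ρ : ℝ), 0 < C' → 400 + 8 * d ≤ R0 → 8 * Rt ≤ R0 → 0 < γ → γ ≤ 1 / (8 * d) →
      1 ≤ ρ → 8 * ρ ≤ R0 →
    ∃ (C1 κ θ δ Rm : ℝ), 0 < C1 ∧ 0 < κ ∧ 0 < θ ∧ 0 < δ ∧
      ∀ R : ℝ, Rm ≤ R → ∀ u : Sp d → V, TF u → ∀ μ : Measure (Sp d), Gro C' μ →
      ∀ s0 : ℝ, 0 < s0 → ∀ e : Cell d → E, Dirs b ε R s0 (fo L u) e →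
      ∀ (ν : Cell d → Sp d) (c : Cell d → ℝ), Plns R0 s0 (fo L u) e ν c →
      ∀ (κ' θ' δ' : ℝ), κ' ≤ κ → θ' ≤ θ → δ' ≤ δ →
      ∀ P ∈ CIII γ κ' δ' 9 (mT b ε s0 (fo L u)) (dC b ε R s0 (fo L u) e)
          (bC R0 s0 (fo L u) e ν c) (tG b ε s0 (fo L u)),
        ∀ (i : ℕ) (S : Finset (Cell d)), i ≤ P.1 → S ⊆ dn i P →
        (∀ Q ∈ S, Top γ θ' (mC b ε (32 * R0) s0 (fo L u)) (mT b ε s0 (fo L u)) i Q) →
        ∑ Q ∈ S, cw s0 Q * mC b ε (R0 + 3) s0 (fo L u) Q ≤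
          C1 * (cw s0 P * (bC R0 s0 (fo L u) e ν c (up 9 P) +
            dC b ε R s0 (fo L u) e (up 9 P)) + gC b ε (128 * R0) s0 (fo L u) i P) ∧
        mT b ε s0 (fo L u) P * ∑ Q ∈ S, cw s0 Q * oC μ ρ s0 Q ^ 2 ≤
          C1 * (cw s0 P * omC μ s0 P * YC b ε s0 (fo L u) μ ν c P)

end

end TG
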