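import Pool.Agent.TG.Stmts13
import Pool.Agent.TG.Stmts15
import Pool.Agent.TG.TreeDefs2

/-!
# Trace inequality, general operators: the W-inequalities as inequalities between numbers (helper47)

Structure LocW collects W1, W2, W3, W4, W5, WA6, WB6, WA7 in terms of numbers attached to the
cells; StmtLW says that the world exists and satisfies LocW.  No double quotes.
-/

open MeasureTheory Metric Set TrI
open scoped InnerProductSpace ContDiff ENNReal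

namespace TG

noncomputable section

variable {d : ℕ}

/-- short sum of the defects of the ancestors -/
def dsm (r0 : ℕ) (D : Cell d → ℝ) (Q : Cell d) : ℝ := ∑ r ∈ Finset.range r0, D (up r Q)

/-- the near cells -/
def NrC (p0 A s0 : ℝ) (μ : Measure (Sp d)) : Set (Cell d) :=
  {Q | ∃ y : Sp d, chi y ≠ 0 ∧ p0 / 2 ≤ qq A (muQ s0 μ Q) 1 y}

/-- all cells of the neighbourhood are structured, of type A, their masses are at most Cr times the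
mass of Q; half of the mass of Q is in the half ball up to the factor Cr -/
def AllA (Cr : ℝ) (ns : Cell d → Finset (Cell d)) (St TA : Set (Cell d)) (a ah : Cell d → ℝ)
    (Q : Cell d) : Prop :=
  (∀ Q' ∈ ns Q, Q' ∈ St ∧ Q' ∈ TA ∧ a Q' ≤ Cr * a Q) ∧ a Q ≤ Cr * ah Q

/-- all cells of the neighbourhood are structured, of type B -/
def AllB (ns : Cell d → Finset (Cell d)) (St TA : Set (Cell d)) (Q : Cell d) : Prop :=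
  ∀ Q' ∈ ns Q, Q' ∈ St ∧ Q' ∉ TA

open Classical in
/-- sum over the neighbourhood, if there is a near cell in it -/
def sEs (ns : Cell d → Finset (Cell d)) (Nr : Set (Cell d)) (F : Cell d → ℝ) (Q : Cell d) : ℝ :=
  if ∃ Q' ∈ ns Q, Q' ∈ Nr then ∑ Q' ∈ ns Q, F Q' else 0

open Classical in
/-- sum over the cells of the same level, if there is a near cell among them -/
def sMs (ns : Cell d → Finset (Cell d)) (Nr : Set (Cell d)) (F : Cell d → ℝ) (Q : Cell d) : ℝ :=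
  if ∃ Q' ∈ ns Q, Q'.1 = Q.1 ∧ Q' ∈ Nr then ∑ Q' ∈ (ns Q).filter (fun Q' => Q'.1 = Q.1), F Q'
  else 0

/-- the local inequalities W1 - W7 in terms of numbers.  Cu, c1 universal; Cr from the types;
CK depends on K, Cr but not on the threshold κ; δ small against κ, Cs depends on everything.
N = net2, v = omC, a = mass 64 R0, ah = mass 32 R0, al = mass R0 + 3, at' = mT, TG = tG, Y = YC,
E1 = er + dl + EI, E2 = er ^ 2 / ab + dl on the cells of type A -/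
structure LocW (s0 γ Cu c1 η Cr CK κ δ Cs : ℝ) (r0 : ℕ) (ns : Cell d → Finset (Cell d))
    (Nr St TA : Set (Cell d)) (N val v a al ah D b at' TG Y E1 E2 : Cell d → ℝ) : Prop where
  val0 : ∀ Q, 0 ≤ val Q
  E1_le : ∀ Q ∈ St, Q ∈ TA → E1 Q ≤ CK * (sh b Q + κ * a Q) + Cs * sh D Q
  E2_le : ∀ Q ∈ St, Q ∈ TA → E2 Q ≤ CK * (κ * sh b Q + sh D Q)
  w1 : ∀ Q, 2 ≤ Q.1 → Q ∉ Nr →
    cw s0 Q * val Q ≤ N Q + Cs * (cw s0 Q * v Q) * dsm r0 D Q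
  w2 : ∀ Q ∈ Nr, 2 ≤ Q.1 → AllA Cr ns St TA a ah Q →
    c1 * (cw s0 Q * val Q) ≤ N Q + η * (∑ Q' ∈ ns Q, cw s0 Q' * val Q') +
      CK * (cw s0 Q * v Q) * sEs ns Nr E2 Q +
      Cs * (cw s0 Q * v Q) * ∑ Q' ∈ ns Q, dsm r0 D Q'
  w3 : ∀ Q ∈ Nr, 2 ≤ Q.1 → AllB ns St TA Q →
    cw s0 Q * val Q ≤ N Q + δ * (cw s0 Q * v Q) * a Q + Cs * (cw s0 Q * v Q) * dsm r0 D Q
  w4 : ∀ Q ∈ Nr, 2 ≤ Q.1 → (∀ Q' ∈ ns Q, Q' ∈ St ∧ a Q' ≤ Cr * a Q ∧ a Q ≤ Cr * a Q') →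
    a Q ≤ Cr * ah Q →
    c1 * (cw s0 Q * val Q) ≤ N Q +
      CK * (cw s0 Q * v Q) * (∑ Q' ∈ adj Q, TA.indicator E1 Q') +
      δ * (cw s0 Q * v Q) * (∑ Q' ∈ adj Q, a Q') +
      Cs * (cw s0 Q * v Q) * ∑ Q' ∈ adj Q, dsm r0 D Q'
  w5 : ∀ Q ∈ Nr, 2 ≤ Q.1 →
    cw s0 Q * val Q ≤ N Q + Cu * (cw s0 Q * v Q) * (al Q + D Q) +
      δ * (cw s0 Q * v Q) * (∑ Q' ∈ adj Q, (St \ TA).indicator a Q') +
      Cs * (cw s0 Q * v Q) * ∑ Q' ∈ adj Q, dsm r0 D Q'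
  wA6 : ∀ Q, 2 ≤ Q.1 → AllA Cr ns St TA a ah Q →
    cw s0 Q * v Q * b Q ≤ Cu * (∑ Q' ∈ ns Q, cw s0 Q' * val Q') +
      CK * (cw s0 Q * v Q) * sEs ns Nr E2 Q +
      Cs * (cw s0 Q * v Q) * ∑ Q' ∈ ns Q, dsm r0 D Q'
  wB6 : ∀ Q, 2 ≤ Q.1 → AllB ns St TA Q →
    cw s0 Q * v Q * b Q ≤ Cu * (∑ Q' ∈ ns Q, cw s0 Q' * val Q') +
      δ * (cw s0 Q * v Q) * sMs ns Nr a Q +
      Cs * (cw s0 Q * v Q) * ∑ Q' ∈ ns Q, dsm r0 D Q'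
  wA7 : ∀ P, 2 ≤ P.1 → (∀ l : ℕ, at' (up l P) ≤ (2 : ℝ) ^ (γ * l) * at' P) →
    AllA Cr ns St TA a ah P →
    cw s0 P * Y P ≤ Cu * (∑ Q' ∈ ns P, cw s0 Q' * val Q') +
      Cu * (cw s0 P * v P) * b (up 9 P) + CK * (cw s0 P * v P) * sEs ns Nr E2 P +
      Cs * (cw s0 P * v P) * ((∑ Q' ∈ ns P, dsm r0 D Q') + TG P)
  wB7 : ∀ P, 2 ≤ P.1 → (∀ l : ℕ, at' (up l P) ≤ (2 : ℝ) ^ (γ * l) * at' P) →
    AllB ns St TA P →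
    cw s0 P * Y P ≤ Cu * (∑ Q' ∈ ns P, cw s0 Q' * val Q') +
      Cu * (cw s0 P * v P) * b (up 9 P) + δ * (cw s0 P * v P) * sMs ns Nr a P +
      Cs * (cw s0 P * v P) * ((∑ Q' ∈ ns P, dsm r0 D Q') + TG P)

/-- MODULE LW: the world exists and satisfies the local inequalities -/
def StmtLW : Prop :=
  ∀ (d : ℕ) (V E : Type) [NormedAddCommGroup V] [InnerProductSpace ℝ V] [FiniteDimensional ℝ V]
    [NormedAddCommGroup E] [InnerProductSpace ℝ E] [FiniteDimensional ℝ E] [Nontrivial E]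
    (L : (Sp d →L[ℝ] V) →L[ℝ] E), 2 ≤ d → CEll L → ∃ (J : ℕ) (Rt : ℝ), 1 ≤ Rt ∧
    ∀ (M c0 : ℝ) (b : Sp d → ℝ), BaseKer (J + 14) M c0 b →
    ∀ (C' ε p0 A c : ℝ), 0 < C' → 0 < ε → ε ≤ 1 / 4 → FarK d (J + 10) M C' ε p0 A c →
    ∀ (JA : ℕ) (γ R0 : ℝ), 32 * A ≤ 2 ^ JA → 7 ≤ JA → 0 < γ → γ ≤ 1 / (32 * d) →
      4 * A + 8 * d + 400 ≤ R0 → 8 * Rt ≤ R0 →
    ∃ (Cu c1 : ℝ), 1 ≤ Cu ∧ 0 < c1 ∧ ∀ η : ℝ, 0 < η → ∀ (K Cr : ℝ), 1 ≤ K → 1 ≤ Cr →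
    ∃ (CK κ0 : ℝ), 0 < CK ∧ 0 < κ0 ∧ ∀ (κm δ : ℝ), 0 < κm → 0 < δ →
    ∃ (RN Rm d0 Cs : ℝ) (r0 : ℕ), 1 ≤ RN ∧ 0 < d0 ∧ d0 ≤ 1 ∧ 0 < Cs ∧ 10 ≤ r0 ∧
    ∀ R : ℝ, Rm ≤ R → ∀ u : Sp d → V, TF u → ∀ μ : Measure (Sp d), Gro C' μ →
    ∀ s0 : ℝ, 0 < s0 → ∀ e : Cell d → E, Dirs b ε R s0 (fo L u) e →
    ∀ (ν : Cell d → Sp d) (c : Cell d → ℝ), Plns R0 s0 (fo L u) e ν c →
    ∀ κ : ℝ, κm ≤ κ → κ ≤ κ0 →
    ∃ (kd : Cell d → ℕ) (nv : Cell d → Sp d) (val E1 E2 : Cell d → ℝ),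
      (∀ Q, kd Q = 0 → ‖nv Q‖ = 1) ∧ cs univ (fun Q => cw s0 Q * val Q) < ⊤ ∧
      LocW s0 γ Cu c1 η Cr CK κ δ Cs r0 (nst s0 (3 * R0) JA) (NrC p0 A s0 μ)
        (Strc γ K d0 (mC b ε (64 * R0) s0 (fo L u)) (mT b ε s0 (fo L u))
          (dC b ε R s0 (fo L u) e))
        (TyA κ (mC b ε (64 * R0) s0 (fo L u)) (dC b ε R s0 (fo L u) e)
          (bC R0 s0 (fo L u) e ν c))
        (net2 (⟨b, RN, ε, p0, A⟩ : Prm d) s0 μ (fo L u) e kd nv) val (omC μ s0)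
        (mC b ε (64 * R0) s0 (fo L u)) (mC b ε (R0 + 3) s0 (fo L u))
        (mC b ε (32 * R0) s0 (fo L u)) (dC b ε R s0 (fo L u) e) (bC R0 s0 (fo L u) e ν c)
        (mT b ε s0 (fo L u)) (tG b ε s0 (fo L u)) (YC b ε s0 (fo L u) μ ν c) E1 E2

end

end TG
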