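import Pool.Agent.TG.FN
import Pool.Agent.TG.PTb
import Pool.Agent.TG.Stmts16

/-!
# Small facts for the construction of the world, second part  (helper98)

FN5 zp_dir; FN6 near_om
-/

open MeasureTheory Metric Set TrI
open scoped InnerProductSpace ContDiff ENNReal

namespace TG

namespace FN

open FR FR4

noncomputable section

variable {d : ℕ}

lemma le_dsm {r0 : ℕ} {D : Cell d → ℝ} (hD : ∀ Q, 0 ≤ D Q) (Q : Cell d) {r : ℕ} (hr : r < r0) :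
    D (up r Q) ≤ dsm r0 D Q :=
  Finset.single_le_sum (f := fun r => D (up r Q)) (fun i _ => hD _) (Finset.mem_range.2 hr)

lemma dsm_nonneg {r0 : ℕ} {D : Cell d → ℝ} (hD : ∀ Q, 0 ≤ D Q) (Q : Cell d) : 0 ≤ dsm r0 D Q :=
  Finset.sum_nonneg fun i _ => hD _

lemma dsm_mono {r0 r1 : ℕ} (h : r0 ≤ r1) {D : Cell d → ℝ} (hD : ∀ Q, 0 ≤ D Q) (Q : Cell d) :
    dsm r0 D Q ≤ dsm r1 D Q :=
  Finset.sum_le_sum_of_subset_of_nonneg (Finset.range_mono h) fun i _ _ => hD _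

lemma dC_nonneg {E : Type} [NormedAddCommGroup E] [InnerProductSpace ℝ E] (b : Sp d → ℝ)
    (ε R : ℝ) {s0 : ℝ} (hs : 0 < s0) (f : Sp d → E) {e : Cell d → E} (he : ∀ Q, ‖e Q‖ = 1)
    (Q : Cell d) : 0 ≤ dC b ε R s0 f e Q := TU.DD_nonneg b ε R hs f _ _ (he Q)

/-- FN5: Lemma Z and the directions of the neighbours, with the short sum of defects -/
theorem zp_dir (h8 : StmtCT8) (h9 : StmtCT9) (hNS : StmtNS) (hd : 1 ≤ d) {M c0 ε : ℝ}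
    (hε : 0 < ε) (hε1 : ε ≤ 1) {b : Sp d → ℝ} (hb : BaseKer 2 M c0 b) {R0 : ℝ} (hR0 : 0 ≤ R0)
    (JA : ℕ) : ∃ C : ℝ, 0 < C ∧ ∀ Rz : ℝ, ∃ Rm : ℝ,
    ∀ (E : Type) [NormedAddCommGroup E] [InnerProductSpace ℝ E] [FiniteDimensional ℝ E]
      (R : ℝ), Rm ≤ R → ∀ f : Sp d → E, Continuous f → HasCompactSupport f →
    ∀ s0 : ℝ, 0 < s0 → ∀ e : Cell d → E, Dirs b ε R s0 f e → ∀ Q : Cell d,
      ZP Rz (C * dsm (JA + 2) (dC b ε R s0 f e) Q) (mQ s0 f (e Q) Q) ∧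
      ∀ Q' ∈ nst s0 (3 * R0) JA Q, ∀ (ζ : Sp d → ℝ) (N : ℝ), TFn 2 N ζ →
        (∀ y, Rz ≤ ‖y‖ → ζ y = 0) →
        |∫ y, (mQ s0 f (e Q') Q y - mQ s0 f (e Q) Q y) * ζ y| ≤
          N * (C * dsm (JA + 2) (dC b ε R s0 f e) Q) := by
  obtain ⟨C8, hC8, g8⟩ := h8 d hd M c0 ε hε hε1 b hb
  obtain ⟨C81, hC81, g8⟩ := g8 0
  choose C9 hC9 g9 using h9 d hd M c0 ε hε hε1 b hb
  have hS : 0 ≤ ∑ j ∈ Finset.range (JA + 1), C9 j :=
    Finset.sum_nonneg fun j _ => (hC9 j).le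
  refine ⟨C8 + 2 * ∑ j ∈ Finset.range (JA + 1), C9 j, by linarith, ?_⟩
  intro Rz
  refine ⟨max (Rz + 3 * R0 * 2 ^ JA + 3) (2 * (3 * R0) + 2 * d + 10 + |Rz| + 4), ?_⟩
  intro E _ _ _ R hR f hf hc s0 h e he Q
  have hR1 : Rz + 3 * R0 * 2 ^ JA + 3 ≤ R := (le_max_left _ _).trans hR
  have hR2 : 2 * (3 * R0) + 2 * d + 10 + |Rz| + 4 ≤ R := (le_max_right _ _).trans hR
  have hRz := le_abs_self Rz
  have hRz0 := abs_nonneg Rz
  have hd0 : (0 : ℝ) ≤ d := Nat.cast_nonneg d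
  set D := dC b ε R s0 f e with hD
  have hD0 : ∀ Q, 0 ≤ D Q := dC_nonneg b ε R h f he.unit
  have hm0 : D Q ≤ dsm (JA + 2) D Q := by
    have := le_dsm hD0 Q (r0 := JA + 2) (r := 0) (by omega)
    rwa [up_zero] at this
  have hmn := dsm_nonneg hD0 Q (r0 := JA + 2)
  constructor
  · have h1 := ((g8 E R (by linarith) (by norm_num; linarith) f hf hc s0 h e he).1 Q).2
    intro H H1 H2 H3 H4 H5
    have h2 := h1 H H1 H2 H3 H4 (fun y hy => H5 y (by linarith))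
    have h3 : C8 * D Q ≤ (C8 + 2 * ∑ j ∈ Finset.range (JA + 1), C9 j) * dsm (JA + 2) D Q := by
      nlinarith
    linarith
  · intro Q' hQ' ζ N hζ hs
    obtain ⟨j, hj, hl, hx⟩ := ((hNS d hd s0 (3 * R0) h (by positivity) JA Q).1 Q').1 hQ'
    have h1 := (g9 j E R (3 * R0) (by positivity) (by linarith) f hf hc s0 h e he Q Q' hl hx).2
      Rz ζ N (by
        have h2 : (2 : ℝ) ^ j ≤ 2 ^ JA := pow_le_pow_right₀ (by norm_num) hj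
        have h3 := mul_le_mul_of_nonneg_left h2 (by positivity : 0 ≤ 3 * R0)
        linarith) hζ hs
    refine h1.trans ?_
    have hN := TU.TFn_nonneg hζ
    have h4 := le_dsm hD0 Q (r0 := JA + 2) (r := j + 1) (by omega)
    have h5 : C9 j ≤ ∑ j ∈ Finset.range (JA + 1), C9 j :=
      Finset.single_le_sum (f := C9) (fun i _ => (hC9 i).le) (Finset.mem_range.2 (by omega))
    have h6 : C9 j * (D Q + D (up (j + 1) Q)) ≤
        (C8 + 2 * ∑ j ∈ Finset.range (JA + 1), C9 j) * dsm (JA + 2) D Q := by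
      have h7 := hC9 j
      nlinarith
    calc C9 j * N * (D Q + D (up (j + 1) Q)) = N * (C9 j * (D Q + D (up (j + 1) Q))) := by ring
      _ ≤ _ := mul_le_mul_of_nonneg_left h6 hN

/-- oC is monotone in the radius -/
lemma oC_mono {μ : Measure (Sp d)} [IsFiniteMeasure μ] {ρ ρ' s0 : ℝ} (h : 0 < s0) (hρ : ρ ≤ ρ')
    (Q : Cell d) : oC μ ρ s0 Q ≤ oC μ ρ' s0 Q := by
  have hl := lev_pos h Q.1
  unfold oC
  refine Real.sqrt_le_sqrt (mul_le_mul_of_nonneg_left ?_ ?_)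
  · exact ENNReal.toReal_mono (measure_ne_top _ _)
      (measure_mono (ball_subset_ball (mul_le_mul_of_nonneg_right hρ hl.le)))
  · unfold nw
    positivity

lemma oC_nonneg (μ : Measure (Sp d)) (ρ s0 : ℝ) (Q : Cell d) : 0 ≤ oC μ ρ s0 Q :=
  Real.sqrt_nonneg _

/-- FN6: the weights of near cells -/
theorem near_om (h7 : StmtCT7) (hNS : StmtNS) (hd : 2 ≤ d) {C' p0 A R0 : ℝ} (hC' : 0 < C')
    (hp : 0 < p0) (hp1 : p0 ≤ 1) (hA : 1 ≤ A) (hR0 : 0 ≤ R0) (JA : ℕ) : ∃ C : ℝ, 0 < C ∧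
    ∀ μ : Measure (Sp d), Gro C' μ → ∀ s0 : ℝ, 0 < s0 → ∀ ρ : ℝ, A + 2 * d ≤ ρ →
      (∀ Q ∈ NrC p0 A s0 μ, omC μ s0 Q ≤ C * oC μ ρ s0 Q) ∧
      (∀ Q ∈ NrC p0 A s0 μ, ∀ Q' ∈ adj Q, omC μ s0 Q' ≤ C * oC μ ρ s0 Q' ∧
        omC μ s0 Q ≤ C * oC μ ρ s0 Q') ∧
      (∀ Q : Cell d, ∀ Q' ∈ nst s0 (3 * R0) JA Q, Q' ∈ NrC p0 A s0 μ →
        omC μ s0 Q ≤ C * oC μ ρ s0 Q') ∧
      (∀ Q : Cell d, ∀ Q' ∈ nst s0 (3 * R0) JA Q,
        omC μ s0 Q' ≤ C * omC μ s0 Q ∧ omC μ s0 Q ≤ C * omC μ s0 Q') := by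
  have hd1 : 1 ≤ d := by omega
  have hdR : (1 : ℝ) ≤ d := by exact_mod_cast hd1
  have hsd : Real.sqrt d ≤ d := by
    rw [Real.sqrt_le_left (by linarith)]
    nlinarith
  obtain ⟨Ca, hCa, ga⟩ := h7 d hd C' p0 A d hC' hp hp1 hA (by linarith) 0
  choose Cb hCb gb using h7 d hd C' p0 A (3 * R0) hC' hp hp1 hA (by positivity)
  set Sb := ∑ j ∈ Finset.range (JA + 1), Cb j with hSb
  have hSb0 : 0 ≤ Sb := Finset.sum_nonneg fun j _ => (hCb j).le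
  refine ⟨(1 + Ca + Sb) * (1 + Ca), by positivity, ?_⟩
  intro μ hμ s0 h ρ hρ
  haveI := hμ.fin
  have hpos : ∀ Q : Cell d, 0 < omC μ s0 Q := fun Q => ((ga μ hμ s0 h).1 Q).1
  have h1 : Ca ≤ (1 + Ca + Sb) * (1 + Ca) := by nlinarith [mul_nonneg hSb0 hCa.le]
  have hadj : ∀ Q : Cell d, ∀ Q' ∈ adj Q, Q'.1 = Q.1 ∧
      ‖xC s0 Q' - xC s0 Q‖ ≤ d * lev s0 Q'.1 := by
    intro Q Q' hQ'
    have h2 : Q'.1 = Q.1 := by
      unfold adj at hQ'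
      exact Finset.mem_singleton.1 (Finset.mem_product.1 hQ').1
    refine ⟨h2, ?_⟩
    have h3 := (hNS d hd1 s0 0 h le_rfl 0 Q).2.2.2.2.2.1 Q' hQ'
    rw [norm_tw h, div_le_iff₀ (lev_pos h _)] at h3
    rw [h2]
    exact h3.trans (mul_le_mul_of_nonneg_right hsd (lev_pos h _).le)
  have hnear : ∀ Q ∈ NrC p0 A s0 μ, ∃ y : Sp d, ‖y‖ ≤ d ∧ p0 / 2 ≤ qq A (muQ s0 μ Q) 1 y := by
    rintro Q ⟨y, hy, hq⟩
    refine ⟨y, ?_, hq⟩
    by_contra hne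
    exact hy (PTm.chi_supp (not_le.1 hne).le hd1)
  have hA1 : ∀ Q ∈ NrC p0 A s0 μ, omC μ s0 Q ≤ Ca * oC μ ρ s0 Q := by
    intro Q hQ
    obtain ⟨y, hy, hq⟩ := hnear Q hQ
    have h3 := ((ga μ hμ s0 h).2.2.2 Q Q rfl (by
      rw [sub_self, norm_zero]
      exact mul_nonneg (by linarith) (lev_pos h _).le) y hy hq).1
    exact h3.trans (mul_le_mul_of_nonneg_left (oC_mono h (by linarith) Q) hCa.le)
  have hA2 : ∀ Q ∈ NrC p0 A s0 μ, ∀ Q' ∈ adj Q, omC μ s0 Q' ≤ Ca * oC μ ρ s0 Q' := by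
    intro Q hQ Q' hQ'
    obtain ⟨y, hy, hq⟩ := hnear Q hQ
    obtain ⟨h4, h5⟩ := hadj Q Q' hQ'
    have h3 := ((ga μ hμ s0 h).2.2.2 Q Q' h4 h5 y hy hq).2
    exact h3.trans (mul_le_mul_of_nonneg_left (oC_mono h (by linarith) Q') hCa.le)
  have hns : ∀ Q : Cell d, ∀ Q' ∈ nst s0 (3 * R0) JA Q,
      omC μ s0 Q' ≤ Sb * omC μ s0 Q ∧ omC μ s0 Q ≤ Sb * omC μ s0 Q' := by
    intro Q Q' hQ'
    obtain ⟨j, hj, hl, hx⟩ := ((hNS d hd1 s0 (3 * R0) h (by positivity) JA Q).1 Q').1 hQ'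
    have h3 := (gb j μ hμ s0 h).2.2.1 Q Q' hl hx
    have h5 : Cb j ≤ Sb :=
      Finset.single_le_sum (f := Cb) (fun i _ => (hCb i).le) (Finset.mem_range.2 (by omega))
    exact ⟨h3.1.trans (mul_le_mul_of_nonneg_right h5 (hpos Q).le),
      h3.2.trans (mul_le_mul_of_nonneg_right h5 (hpos Q').le)⟩
  have h0 : ∀ Q, 0 ≤ oC μ ρ s0 Q := oC_nonneg μ ρ s0
  have hSC : Sb ≤ (1 + Ca + Sb) * (1 + Ca) := by nlinarith [mul_nonneg hSb0 hCa.le]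
  refine ⟨fun Q hQ => (hA1 Q hQ).trans (mul_le_mul_of_nonneg_right h1 (h0 Q)), ?_, ?_, ?_⟩
  · intro Q hQ Q' hQ'
    refine ⟨(hA2 Q hQ Q' hQ').trans (mul_le_mul_of_nonneg_right h1 (h0 Q')), ?_⟩
    obtain ⟨h4, h5⟩ := hadj Q Q' hQ'
    have h6 := ((ga μ hμ s0 h).2.2.1 Q Q' (by rw [h4, add_zero]) h5).2
    have h7 := hA2 Q hQ Q' hQ'
    have h8 := mul_le_mul_of_nonneg_left h7 hCa.le
    refine h6.trans (h8.trans ?_)
    rw [← mul_assoc]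
    refine mul_le_mul_of_nonneg_right ?_ (h0 Q')
    nlinarith [mul_nonneg hSb0 hCa.le]
  · intro Q Q' hQ' hN
    have h6 := (hns Q Q' hQ').2
    have h7 := mul_le_mul_of_nonneg_left (hA1 Q' hN) hSb0
    refine h6.trans (h7.trans ?_)
    rw [← mul_assoc]
    refine mul_le_mul_of_nonneg_right ?_ (h0 Q')
    nlinarith [mul_nonneg hSb0 hCa.le]
  · intro Q Q' hQ'
    exact ⟨(hns Q Q' hQ').1.trans (mul_le_mul_of_nonneg_right hSC (hpos Q).le),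
      (hns Q Q' hQ').2.trans (mul_le_mul_of_nonneg_right hSC (hpos Q').le)⟩

end

end FN

end TG
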