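import Pool.Agent.TG.FR0
import Pool.Agent.TG.AvBasic

/-!
# Module FR1: growth and coherence give the structure theorem in the frame of a cell  (helper79)
-/

set_option linter.unusedSectionVars false

open MeasureTheory Metric Set TrI
open scoped InnerProductSpace ContDiff ENNReal

namespace TG

noncomputable section

namespace FR1

variable {d : ℕ}

section A

variable {E : Type} [NormedAddCommGroup E] [InnerProductSpace ℝ E] [FiniteDimensional ℝ E]

lemma int_ball {g : Sp d → ℝ} (hg : Continuous g) (x : Sp d) (ρ : ℝ) :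
    IntegrableOn g (ball x ρ) :=
  (hg.continuousOn.integrableOn_compact (isCompact_closedBall x ρ)).mono_set ball_subset_closedBall

lemma ball_mono_int {g : Sp d → ℝ} (hg : Continuous g) (h0 : ∀ y, 0 ≤ g y) (x : Sp d) {r s : ℝ}
    (hrs : r ≤ s) : ∫ y in ball x r, g y ≤ ∫ y in ball x s, g y :=
  setIntegral_mono_set (int_ball hg x s) (Filter.Eventually.of_forall h0)
    (Filter.Eventually.of_forall (ball_subset_ball hrs))

lemma defi {e : E} (he : ‖e‖ = 1) (v : E) : 0 ≤ ‖v‖ - ⟪v, e⟫_ℝ := by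
  have := real_inner_le_norm v e
  rw [he, mul_one] at this
  linarith

/-- the defect functional is monotone in the radius -/
lemma DD_rad {b : Sp d → ℝ} {J : ℕ} {M c0 : ℝ} (hb : BaseKer J M c0 b) (ε : ℝ) {s0 : ℝ}
    (hs : 0 < s0) {f : Sp d → E} (hf : Continuous f) (i : ℕ) (x : Sp d) {e : E} (he : ‖e‖ = 1)
    {r s : ℝ} (hrs : r ≤ s) : DD b ε r s0 f i x e ≤ DD b ε s s0 f i x e := by
  have hl : 0 < lev s0 i := levA_pos hs i
  have hrs' : r * lev s0 i ≤ s * lev s0 i := mul_le_mul_of_nonneg_right hrs hl.le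
  have hg : ∀ l, Continuous (fun y => ‖fl b ε s0 f l y‖ - ⟪fl b ε s0 f l y, e⟫_ℝ) := by
    intro l
    have := flA_cont hb ε s0 hf l
    fun_prop
  unfold DD
  refine mul_le_mul_of_nonneg_left (add_le_add (Finset.sum_le_sum fun l _ => ?_) ?_)
    (by positivity)
  · exact mul_le_mul_of_nonneg_left (ball_mono_int (hg l) (fun y => defi he _) x hrs')
      (by positivity)
  · exact mul_le_mul_of_nonneg_left (ball_mono_int hf.norm (fun y => norm_nonneg _) x hrs')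
      (by positivity)

/-- a dyadic number between rho and 2 rho -/
lemma dyad {ρ : ℝ} (h : 1 ≤ ρ) : ∃ l : ℕ, ρ ≤ 2 ^ l ∧ (2 : ℝ) ^ l ≤ 2 * ρ := by
  obtain ⟨n, hn1, hn2⟩ := exists_nat_pow_near h (by norm_num : (1 : ℝ) < 2)
  refine ⟨n + 1, hn2.le, ?_⟩
  rw [pow_succ]
  linarith

end A

end FR1

open FR FR1

theorem stmtFR1 (hST : StmtST2) (hC8 : StmtCT8) (hSC : StmtSC) : StmtFR1 := by
  intro d V E _ _ _ _ _ _ _ L hd hL M c0 ε hε hε1 b hb γ K Rs tol hγ hγ1 hK hRs htol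
  have hd0 : (2 : ℝ) ≤ (d : ℝ) := by exact_mod_cast hd
  obtain ⟨C, hC, hC8'⟩ := hC8 d (by omega) M c0 ε hε hε1 b hb
  choose C1 hC1 hl using hC8'
  have hγ2 : γ ≤ 1 := hγ1.trans (by
    rw [div_le_one (by positivity)]
    linarith)
  obtain ⟨rm, R1, δ0, hR1, hδ0, H⟩ := hST d V E L hd hL M c0 ε hε hε1 b hb γ
    (C * K * 2 ^ d + 1) Rs tol hγ hγ1 (by positivity) hRs htol
  -- the constant delta
  set lm : ℕ := ⌈2 * R1⌉₊ with hlm
  set S : ℝ := ∑ l ∈ Finset.range (lm + 1), C1 l * (2 : ℝ) ^ ((l : ℝ) / 8) with hS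
  have hSn : 0 ≤ S := Finset.sum_nonneg fun l _ => by
    have := hC1 l
    positivity
  refine ⟨rm, R1, min δ0 (1 / (S + 1)), hR1, lt_min hδ0 (by positivity), ?_⟩
  intro R hR u hu s0 hs0 e he Q a ha hmT hdC
  have hR1p : 0 < R1 := by linarith
  have hfc : Continuous (fo L u) := by
    have h := hu.smooth.continuous_fderiv (by simp)
    exact L.continuous.comp h
  have hfs : HasCompactSupport (fo L u) := (hu.supp.fderiv ℝ).comp_left (g := L) (map_zero L)
  have huQ := uQ_TF hSC hd L hu hs0 Q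
  have hfo := fo_uQ hSC hd L hu hs0 Q
  have hδ1 : ∀ l : ℕ, (2 : ℝ) ^ l ≤ 2 * R1 → C1 l * (min δ0 (1 / (S + 1)) *
      (2 : ℝ) ^ ((l : ℝ) / 8)) ≤ 1 := by
    intro l hl1
    have h1 : l ∈ Finset.range (lm + 1) := by
      rw [Finset.mem_range, Nat.lt_succ_iff]
      have h2 : (l : ℝ) ≤ 2 ^ l := by
        exact_mod_cast (Nat.lt_two_pow_self (n := l)).le
      have h3 : (l : ℝ) ≤ lm := (h2.trans hl1).trans (Nat.le_ceil _)
      exact_mod_cast h3
    have h4 : C1 l * (2 : ℝ) ^ ((l : ℝ) / 8) ≤ S :=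
      Finset.single_le_sum (f := fun l : ℕ => C1 l * (2 : ℝ) ^ ((l : ℝ) / 8))
        (fun l _ => by have := hC1 l; positivity) h1
    have h5 : C1 l * (min δ0 (1 / (S + 1)) * (2 : ℝ) ^ ((l : ℝ) / 8)) =
        min δ0 (1 / (S + 1)) * (C1 l * (2 : ℝ) ^ ((l : ℝ) / 8)) := by ring
    rw [h5]
    calc min δ0 (1 / (S + 1)) * (C1 l * (2 : ℝ) ^ ((l : ℝ) / 8)) ≤ 1 / (S + 1) * S :=
          mul_le_mul (min_le_right _ _) h4 (by have := hC1 l; positivity) (by positivity)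
      _ ≤ 1 := by
          rw [one_div, inv_mul_le_iff₀ (by positivity)]
          linarith
  have key := H Q.1 (uQ s0 u Q) huQ (e Q) (he.unit Q) a ha ?_ ?_
  · obtain ⟨J, r, ν, κ, h⟩ := key
    refine ⟨J, r, ν, κ, ?_⟩
    rw [hfo] at h
    exact h
  · intro ρ hρ1 hρ2
    obtain ⟨l, hl1, hl2⟩ := dyad hρ1
    have hl3 : (2 : ℝ) ^ l ≤ 2 * R1 := hl2.trans (by linarith)
    have hρ0 : 0 < ρ := by linarith
    have hfQ : Continuous (fo L (uQ s0 u Q)) := by
      have h := huQ.smooth.continuous_fderiv (by simp)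
      exact L.continuous.comp h
    have h1 : (∫ y in ball (0 : Sp d) ρ,
        ‖fl b ε ((1 / 2) ^ Q.1) (fo L (uQ s0 u Q)) (Q.1 - 1) y‖) ≤
        mC b ε (2 ^ l) s0 (fo L u) Q := by
      refine (ball_mono_int (flA_cont hb ε _ hfQ _).norm (fun y => norm_nonneg _) 0 hl1).trans ?_
      have h2 := ma_frame hSC hd hε hε1 hb hfc hfs hs0 (2 ^ l) 0 Q
      rw [tw_up_zero, up_zero] at h2
      rw [← h2, hfo]
      unfold ma
      have h3 : lev ((1 / 2 : ℝ) ^ Q.1) (Q.1 + 0) = 1 := by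
        have := lev_half Q.1 0
        simpa using this
      rw [h3]
      simp
    refine h1.trans ?_
    have h2 := ((hl l E R (by linarith) (by linarith) (fo L u) hfc hfs s0 hs0 e he).2.1 Q)
    refine h2.trans ?_
    have h3 : C * 2 ^ (l * (d - 1)) * mT b ε s0 (fo L u) (up l Q) ≤
        C * 2 ^ (l * (d - 1)) * (K * (2 : ℝ) ^ (γ * l) * a) :=
      mul_le_mul_of_nonneg_left (hmT l) (by positivity)
    have h4 : C1 l * dC b ε R s0 (fo L u) e (up l Q) ≤ a := by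
      have h5 := mul_le_mul_of_nonneg_left (hdC l) (hC1 l).le
      refine h5.trans ?_
      calc C1 l * (min δ0 (1 / (S + 1)) * (2 : ℝ) ^ ((l : ℝ) / 8) * a)
          = (C1 l * (min δ0 (1 / (S + 1)) * (2 : ℝ) ^ ((l : ℝ) / 8))) * a := by ring
        _ ≤ 1 * a := mul_le_mul_of_nonneg_right (hδ1 l hl3) ha
        _ = a := one_mul a
    have hex : 0 ≤ (d : ℝ) - 1 + γ := by linarith
    have h6 : (2 : ℝ) ^ (l * (d - 1)) * (2 : ℝ) ^ (γ * l) = ((2 : ℝ) ^ l) ^ ((d : ℝ) - 1 + γ) := by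
      rw [← Real.rpow_natCast 2 (l * (d - 1)), ← Real.rpow_add two_pos, ← Real.rpow_natCast 2 l,
        ← Real.rpow_mul two_pos.le]
      congr 1
      rw [Nat.cast_mul, Nat.cast_sub (by omega)]
      push_cast
      ring
    have h7 : ((2 : ℝ) ^ l) ^ ((d : ℝ) - 1 + γ) ≤ 2 ^ d * ρ ^ ((d : ℝ) - 1 + γ) := by
      calc ((2 : ℝ) ^ l) ^ ((d : ℝ) - 1 + γ) ≤ (2 * ρ) ^ ((d : ℝ) - 1 + γ) :=
            Real.rpow_le_rpow (by positivity) hl2 hex
        _ = 2 ^ ((d : ℝ) - 1 + γ) * ρ ^ ((d : ℝ) - 1 + γ) :=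
            Real.mul_rpow two_pos.le hρ0.le
        _ ≤ 2 ^ d * ρ ^ ((d : ℝ) - 1 + γ) := by
            refine mul_le_mul_of_nonneg_right ?_ (by positivity)
            rw [← Real.rpow_natCast 2 d]
            exact Real.rpow_le_rpow_of_exponent_le (by norm_num) (by linarith)
    have h8 : 1 ≤ ρ ^ ((d : ℝ) - 1 + γ) := Real.one_le_rpow hρ1 hex
    calc C * 2 ^ (l * (d - 1)) * mT b ε s0 (fo L u) (up l Q) +
          C1 l * dC b ε R s0 (fo L u) e (up l Q)
        ≤ C * 2 ^ (l * (d - 1)) * (K * (2 : ℝ) ^ (γ * l) * a) + a := add_le_add h3 h4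
      _ = C * K * a * (2 ^ (l * (d - 1)) * (2 : ℝ) ^ (γ * l)) + a * 1 := by ring
      _ ≤ C * K * a * (2 ^ d * ρ ^ ((d : ℝ) - 1 + γ)) + a * ρ ^ ((d : ℝ) - 1 + γ) := by
          rw [h6]
          exact add_le_add (mul_le_mul_of_nonneg_left h7 (by positivity))
            (mul_le_mul_of_nonneg_left h8 ha)
      _ = (C * K * 2 ^ d + 1) * ρ ^ ((d : ℝ) - 1 + γ) * a := by ring
  · have hs : (0 : ℝ) < (1 / 2) ^ Q.1 := by positivity
    have h1 := DD_frame hSC hd hε hε1 hb hfc hfs hs0 R1 0 Q (e Q)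
    rw [tw_up_zero, up_zero] at h1
    rw [hfo]
    rw [Nat.add_zero] at h1
    rw [h1]
    refine (DD_rad hb ε hs0 hfc Q.1 _ (he.unit Q) (by linarith : R1 ≤ R)).trans ?_
    have h2 := hdC 0
    rw [up_zero] at h2
    simp only [Nat.cast_zero, zero_div, Real.rpow_zero, mul_one] at h2
    exact h2.trans (mul_le_mul_of_nonneg_right (min_le_left _ _) ha)

end

end TG
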