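import Pool.Agent.TG.Stmts3

/-!
# Trace inequality, general operators: module FS (one plane and its sheet)
-/

open MeasureTheory Metric Set TrI
open scoped InnerProductSpace ContDiff

namespace TG

noncomputable section

variable {d : ℕ}

section FSaux

variable {E : Type} [NormedAddCommGroup E] [InnerProductSpace ℝ E]

lemma FS_DD_nonneg (b : Sp d → ℝ) (ε R : ℝ) {s0 : ℝ} (hs : 0 < s0) (f : Sp d → E) (i : ℕ) (x : Sp d)
    {e : E} (he : ‖e‖ = 1) : 0 ≤ DD b ε R s0 f i x e := by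
  unfold DD
  have h0 : 0 < lev s0 i := by unfold lev; positivity
  have hd : ∀ v : E, 0 ≤ ‖v‖ - ⟪v, e⟫_ℝ := by
    intro v
    have h1 := real_inner_le_norm v e
    rw [he, mul_one] at h1
    linarith
  refine mul_nonneg (by positivity) (add_nonneg (Finset.sum_nonneg fun l _ => ?_) ?_)
  · exact mul_nonneg (by positivity) (integral_nonneg fun y => hd _)
  · exact mul_nonneg (by positivity) (integral_nonneg fun y => norm_nonneg _)

lemma FS_wq_le {q q' : ℝ} (h : q ≤ q') (r : ℕ) : wq q' r ≤ wq q r := by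
  unfold wq
  apply Real.rpow_le_rpow_of_exponent_le (by norm_num)
  have hr : (0 : ℝ) ≤ r := Nat.cast_nonneg r
  nlinarith

lemma FS_sheet_mono {J : ℕ} {R ab ep ep' D D' : ℝ} {m : Sp d → ℝ} {n : Sp d} {s : ℝ}
    (h : Sheet J R ab ep D m n s) (hep : ep ≤ ep') (hD : D ≤ D') : Sheet J R ab ep' D' m n s where
  n1 := h.n1
  ab0 := h.ab0
  ep0 := h.ep0.trans hep
  loc := h.loc
  est := by
    intro ζ ρ N N2 h1 h2 h3 h4 h5 h6
    have hN : 0 ≤ N := by
      have := (h5 0 (Nat.zero_le _) (fun _ => 0) (fun i => by simp) (fun i => by simp) (s • n)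
        (by rw [inner_smul_right, real_inner_self_eq_norm_sq, h.n1]; ring)).1
      exact (abs_nonneg _).trans this
    have hN2 : 0 ≤ N2 := (norm_nonneg _).trans (h6 0)
    have h7 := h.est ζ ρ N N2 h1 h2 h3 h4 h5 h6
    have h8 : ep * N ≤ ep' * N := mul_le_mul_of_nonneg_right hep hN
    have h9 : (N + N2) * D ≤ (N + N2) * D' := mul_le_mul_of_nonneg_left hD (by positivity)
    linarith

end FSaux

theorem stmtFS (h : StmtCM) (h1 : StmtSS) : StmtFS := by
  intro d V E _ _ _ _ _ _ L hd hL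
  obtain ⟨J, HJ⟩ := h1 d V E L hd hL
  refine ⟨J, ?_⟩
  intro M c0 ε hε hε1 b hb R0 γ K hR0 hγ hγ1 hK
  obtain ⟨C1, hC1, H1⟩ := h d V E L hd hL M c0 ε hε hε1 b hb R0 γ K hR0 hγ hγ1 hK
  have hd0 : (0 : ℝ) < d := by
    have : 0 < d := by omega
    exact_mod_cast this
  have hγ2 : γ ≤ 1 / (8 * d) :=
    hγ1.trans (one_div_le_one_div_of_le (by positivity) (by nlinarith))
  obtain ⟨C2, κ2, hC2, hκ2, H2⟩ := HJ M c0 ε hε hε1 b hb R0 γ K hR0 hγ hγ2 hK
  refine ⟨(C2 + 1) * (C1 + 1), min (κ2 / C1) (1 / (C1 * C2)), by positivity,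
    lt_min (by positivity) (by positivity), ?_⟩
  intro R hR n u hu x e hT a ha haeq hgr νs cs B D hν hht hB hsum hD
  obtain ⟨ν, c, hν1, hc, hs⟩ := H1 R hR n u hu x e hT a ha haeq hgr νs cs B hν hht hsum
  have hB0 : 0 ≤ B := by simpa using hsum 0
  have hD0 : 0 ≤ D := by simpa using hD 0
  have hD2 : ∀ I : ℕ, ∑ r ∈ Finset.range I, wq (1 / 2) r *
      DD b ε R ((1 / 2) ^ n) (fo L u) (n + r) (x r) (e r) ≤ D := by
    intro I
    refine (Finset.sum_le_sum fun r _ => ?_).trans (hD I)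
    exact mul_le_mul_of_nonneg_right (FS_wq_le (by norm_num) r)
      (FS_DD_nonneg b ε R (by positivity) _ _ _ (hT.unit r))
  have hB1 : C1 * B ≤ κ2 * a := by
    have h2 : B ≤ κ2 / C1 * a := hB.trans (mul_le_mul_of_nonneg_right (min_le_left _ _) ha.le)
    calc C1 * B ≤ C1 * (κ2 / C1 * a) := mul_le_mul_of_nonneg_left h2 hC1.le
      _ = κ2 * a := by field_simp
  have hB2 : C2 * (C1 * B) ≤ a := by
    have h2 : B ≤ 1 / (C1 * C2) * a := hB.trans (mul_le_mul_of_nonneg_right (min_le_right _ _) ha.le)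
    calc C2 * (C1 * B) ≤ C2 * (C1 * (1 / (C1 * C2) * a)) :=
          mul_le_mul_of_nonneg_left (mul_le_mul_of_nonneg_left h2 hC1.le) hC2.le
      _ = a := by field_simp
  obtain ⟨ν', c', a', hν', hdist, ha1, ha2, hs', hSh⟩ :=
    H2 R hR n u hu x e hT a ha haeq hgr ν c (C1 * B) D hν1 hc hB1 hs hD2
  have ha' : 0 < a' := hSh.ab0
  have hCC : C2 ≤ (C2 + 1) * (C1 + 1) := by nlinarith
  have hCC1 : C2 * C1 ≤ (C2 + 1) * (C1 + 1) := by nlinarith
  refine ⟨ν', c', a', hν', ?_, ?_, ?_, ?_, ?_⟩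
  · have h3 : (c' - c) ^ 2 ≤ 1 := by
      have h4 : a * (c' - c) ^ 2 ≤ a * 1 := by
        have : 0 ≤ a * ‖ν' - ν‖ ^ 2 := by positivity
        nlinarith
      exact le_of_mul_le_mul_left h4 ha
    have h5 : |c' - c| ≤ 1 := by
      rw [← sq_abs] at h3
      nlinarith [abs_nonneg (c' - c)]
    calc |c'| = |c + (c' - c)| := by ring_nf
      _ ≤ |c| + |c' - c| := abs_add_le _ _
      _ ≤ R0 + 4 := by linarith
  · exact ha1.trans (mul_le_mul_of_nonneg_right hCC ha'.le)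
  · exact ha2.trans (mul_le_mul_of_nonneg_right hCC ha.le)
  · intro I
    refine (hs' I).trans ?_
    rw [← mul_assoc]
    exact mul_le_mul_of_nonneg_right hCC1 hB0
  · refine FS_sheet_mono hSh ?_ (mul_le_mul_of_nonneg_right hCC hD0)
    have hq : 0 ≤ Real.sqrt (a' * D) := Real.sqrt_nonneg _
    have e1 : C2 * (C1 * B) ≤ (C2 + 1) * (C1 + 1) * B := by
      rw [← mul_assoc]; exact mul_le_mul_of_nonneg_right hCC1 hB0
    have e2 : C2 * Real.sqrt (a' * D) ≤ (C2 + 1) * (C1 + 1) * Real.sqrt (a' * D) :=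
      mul_le_mul_of_nonneg_right hCC hq
    calc C2 * (C1 * B + Real.sqrt (a' * D)) = C2 * (C1 * B) + C2 * Real.sqrt (a' * D) := by ring
      _ ≤ (C2 + 1) * (C1 + 1) * B + (C2 + 1) * (C1 + 1) * Real.sqrt (a' * D) := add_le_add e1 e2
      _ = (C2 + 1) * (C1 + 1) * (B + Real.sqrt (a' * D)) := by ring

end

end TG
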