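import Pool.Agent.TG.FRS
import Pool.Agent.TG.FS
import Pool.Agent.TG.CM1

/-!
# MODULE FR2: cells of type A carry a sheet of radius 64 R0 (helper34)
-/

set_option autoImplicit false

open MeasureTheory Metric Set TrI
open scoped InnerProductSpace ContDiff ENNReal

namespace TG

namespace FR2

open FR

noncomputable section

theorem main (hFS : StmtFS) (h2 : StmtCT2) (h4 : StmtCT4) (h5 : StmtCT5) (h8 : StmtCT8)
    (hSC : StmtSC) (hSD : StmtSD) : StmtFR2 := by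
  intro d V E _ _ _ _ _ _ _ L hd hL
  obtain ⟨J, HJ⟩ := hFS d V E L hd hL
  refine ⟨J, ?_⟩
  intro M c0 ε hε hε1 b hb R0 γ K hR0 hγ hγ1 hK
  have hd1 : 1 ≤ d := by omega
  have hdR : (2 : ℝ) ≤ d := by exact_mod_cast hd
  have hK' : 1 ≤ (1 + 64 * R0) ^ (d + 2) * K :=
    one_le_mul_of_one_le_of_one_le (one_le_pow₀ (by linarith)) hK
  obtain ⟨Cf, κf, hCf, hκf, F⟩ := HJ M c0 ε hε hε1 b hb (64 * R0) γ
    ((1 + 64 * R0) ^ (d + 2) * K) (by linarith) hγ hγ1 hK'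
  obtain ⟨Cs, hCs, S⟩ := FR4.sums h2 h4 h5 h8 hSC hSD hd hε hε1 hb hR0
  obtain ⟨C4, hC4, g4⟩ := h4 d hd1 0 le_rfl
  refine ⟨Cf + Cf * Cs + Cf * (Cf + 1), κf / Cs, by positivity, by positivity, ?_⟩
  intro R hR u hu s0 hs e he ν c hν Q a ha haeq hgr hsmall
  have hf : Continuous (fo L u) := CM.fo_cont hu
  have hfc : HasCompactSupport (fo L u) := CM.fo_cs hu
  obtain ⟨g41, -, -, -⟩ := g4 M c0 ε hε hε1 b hb E (fo L u) hf hfc s0 hs
  obtain ⟨S1, S2, S3, S4, S5, -⟩ := S E R hR (fo L u) hf hfc s0 hs e he ν c hν Q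
  have hfo := fo_uQ hSC hd L hu hs Q
  have key := F R (by linarith) Q.1 (uQ s0 u Q) (uQ_TF hSC hd L hu hs Q)
    (fun r => tw s0 Q (up r Q)) (fun r => e (up r Q)) (tower hs e he.unit Q) a ha
  rw [hfo] at key
  have ha' : a = ma b ε (64 * R0) ((1 / 2) ^ Q.1) (rs (xC s0 Q) (lev s0 Q.1) (fo L u)) Q.1 0 := by
    have h1 := ma_frame hSC hd hε hε1 hb hf hfc hs (64 * R0) 0 Q
    rw [tw_up_zero, up_zero, add_zero] at h1
    rw [h1, haeq]
  have hgr' : ∀ r : ℕ, ma b ε (64 * R0) ((1 / 2) ^ Q.1)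
      (rs (xC s0 Q) (lev s0 Q.1) (fo L u)) (Q.1 + r) (tw s0 Q (up r Q)) ≤
      (1 + 64 * R0) ^ (d + 2) * K * (2 : ℝ) ^ (γ * r) * a := by
    intro r
    rw [ma_frame hSC hd hε hε1 hb hf hfc hs]
    refine (g41 (64 * R0) (by linarith) (up r Q)).trans ?_
    have hR1 : (0 : ℝ) ≤ 1 + 64 * R0 := by linarith
    have h1 := mul_le_mul_of_nonneg_left (hgr r) (pow_nonneg hR1 (d + 2))
    refine h1.trans (le_of_eq ?_)
    ring
  have hB : Cs * bsh b ε R0 R s0 (fo L u) e ν c Q ≤ κf * a := by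
    have h1 := mul_le_mul_of_nonneg_left hsmall hCs.le
    refine h1.trans (le_of_eq ?_)
    field_simp
  obtain ⟨n, s, ab, hn, hsl, hab1, hab2, hsum, hSh⟩ := key ha' hgr'
    (fun r => ν (up (r + 7) Q))
    (fun r => cfr s0 Q (ν (up (r + 7) Q)) (c (up (r + 7) Q)))
    (Cs * bsh b ε R0 R s0 (fo L u) e ν c Q) (dsh b ε R s0 (fo L u) e Q)
    (fun r => hν.unit _) S3 hB S1 S2
  have hm : (fun y => ⟪rs (xC s0 Q) (lev s0 Q.1) (fo L u) y, e (up 0 Q)⟫_ℝ) =
      mQ s0 (fo L u) (e Q) Q := by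
    rw [up_zero, mQ_eq]
  rw [hm] at hSh
  have hbs0 : 0 ≤ bsh b ε R0 R s0 (fo L u) e ν c Q := S4.trans S5
  refine ⟨n, s, ab, hn, hsl, ?_, ?_, ?_, ?_⟩
  · have h0 : 0 ≤ ab := by
      by_contra hneg
      push Not at hneg
      nlinarith
    have h1 : 0 ≤ Cf * Cs * ab := by positivity
    have h2 : 0 ≤ Cf * (Cf + 1) * ab := by positivity
    nlinarith
  · have h1 : 0 ≤ Cf * Cs * a := by positivity
    have h2 : 0 ≤ Cf * (Cf + 1) * a := by positivity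
    nlinarith
  · have h1 := hsum 1
    simp only [Finset.range_one, Finset.sum_singleton] at h1
    have h2 : wq (1 / 2) 0 = 1 := by simp [wq]
    rw [h2, one_mul, add_zero, tw_up_zero, up_zero] at h1
    unfold bD at h1
    rw [bb_unit] at h1
    have h3 : 0 ≤ DD b ε R ((1 / 2) ^ Q.1) (rs (xC s0 Q) (lev s0 Q.1) (fo L u)) Q.1 0 (e Q) :=
      FS_DD_nonneg b ε R (by positivity) _ _ _ (he.unit Q)
    have h4 : 0 ≤ Cf * bsh b ε R0 R s0 (fo L u) e ν c Q := by positivity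
    have h5 : 0 ≤ Cf * (Cf + 1) * bsh b ε R0 R s0 (fo L u) e ν c Q := by positivity
    rw [mQ_eq]
    nlinarith
  · refine FS_sheet_mono hSh ?_ ?_
    · have h1 : Real.sqrt (ab * dsh b ε R s0 (fo L u) e Q) ≤
          (Cf + 1) * Real.sqrt (a * dsh b ε R s0 (fo L u) e Q) := by
        have e1 : (Cf + 1) * Real.sqrt (a * dsh b ε R s0 (fo L u) e Q) =
            Real.sqrt ((Cf + 1) ^ 2 * (a * dsh b ε R s0 (fo L u) e Q)) := by
          rw [Real.sqrt_mul (sq_nonneg (Cf + 1)), Real.sqrt_sq (by positivity)]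
        rw [e1]
        refine Real.sqrt_le_sqrt ?_
        have e2 := mul_le_mul_of_nonneg_right hab2 S4
        have e3 : 0 ≤ a * dsh b ε R s0 (fo L u) e Q := by positivity
        have e4 : Cf * (a * dsh b ε R s0 (fo L u) e Q) ≤
            (Cf + 1) ^ 2 * (a * dsh b ε R s0 (fo L u) e Q) :=
          mul_le_mul_of_nonneg_right (by nlinarith) e3
        linarith
      have h2 := Real.sqrt_nonneg (a * dsh b ε R s0 (fo L u) e Q)
      have h3 := mul_le_mul_of_nonneg_left h1 hCf.le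
      have h4 : 0 ≤ Cf * bsh b ε R0 R s0 (fo L u) e ν c Q := by positivity
      have h5 : 0 ≤ Cf * (Cf + 1) * bsh b ε R0 R s0 (fo L u) e ν c Q := by positivity
      have h6 : 0 ≤ Cf * Real.sqrt (a * dsh b ε R s0 (fo L u) e Q) := by positivity
      have h7 : 0 ≤ Cf * Cs * Real.sqrt (a * dsh b ε R s0 (fo L u) e Q) := by positivity
      nlinarith
    · have h1 : 0 ≤ Cf * Cs * dsh b ε R s0 (fo L u) e Q := by positivity
      have h2 : 0 ≤ Cf * (Cf + 1) * dsh b ε R s0 (fo L u) e Q := by positivity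
      nlinarith

end

end FR2

theorem stmtFR2 (hFS : StmtFS) (h2 : StmtCT2) (h4 : StmtCT4) (h5 : StmtCT5) (h8 : StmtCT8)
    (_ : StmtZ) (_ : StmtDI) (hSC : StmtSC) (hSD : StmtSD) : StmtFR2 :=
  FR2.main hFS h2 h4 h5 h8 hSC hSD

end TG
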