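import Pool.Agent.TG.TFU

/-!
# Trace inequality, general operators: module SS, part 1

Uniform bounds for the cut-offs zR and cu1, functions of the projection to a plane, Taylor's
formula of first order at a plane.
-/

open MeasureTheory Metric Set TrI
open scoped InnerProductSpace ContDiff

namespace TG

namespace SS

noncomputable section

variable {d : ℕ}

/-! ## a smooth modification of the norm -/

/-- smooth, equal to the norm off the unit ball, at most one in the unit ball -/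
def nn (y : Sp d) : ℝ := Real.smoothTransition (2 * ‖y‖ ^ 2 - 1) * ‖y‖

lemma nn_smooth : ContDiff ℝ ∞ (nn : Sp d → ℝ) := by
  rw [contDiff_iff_contDiffAt]
  intro x
  by_cases hx : x = 0
  · subst hx
    have h1 : (nn : Sp d → ℝ) =ᶠ[nhds 0] fun _ => 0 := by
      filter_upwards [ball_mem_nhds (0 : Sp d) (by norm_num : (0 : ℝ) < 1 / 2)] with y hy
      rw [mem_ball, dist_zero_right] at hy
      have h2 : ‖y‖ ^ 2 ≤ 1 / 2 := by nlinarith [norm_nonneg y]
      unfold nn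
      rw [Real.smoothTransition.zero_of_nonpos (by linarith), zero_mul]
    exact contDiffAt_const.congr_of_eventuallyEq h1
  · unfold nn
    exact (Real.smoothTransition.contDiffAt.comp x
      ((contDiffAt_const.mul (contDiff_norm_sq ℝ).contDiffAt).sub contDiffAt_const)).mul
      (contDiffAt_norm ℝ hx)

lemma nn_le (y : Sp d) : nn y ≤ ‖y‖ :=
  mul_le_of_le_one_left (norm_nonneg _) (Real.smoothTransition.le_one _)

lemma nn_nonneg (y : Sp d) : 0 ≤ nn y :=
  mul_nonneg (Real.smoothTransition.nonneg _) (norm_nonneg _)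

lemma nn_eq {y : Sp d} (h : 1 ≤ ‖y‖) : nn y = ‖y‖ := by
  unfold nn
  rw [Real.smoothTransition.one_of_one_le (by nlinarith), one_mul]

lemma zR_nn {ρ : ℝ} (hρ : 1 ≤ ρ) (y : Sp d) :
    zR ρ y = Real.smoothTransition (ρ + 1 + -nn y) := by
  rcases le_total ‖y‖ 1 with h | h
  · have h1 := nn_le y
    unfold zR
    rw [Real.smoothTransition.one_of_one_le (by linarith),
      Real.smoothTransition.one_of_one_le (by linarith)]
  · rw [nn_eq h]
    rfl

lemma itF_const_add {k : ℕ} (hk : 1 ≤ k) (a : ℝ) {g : Sp d → ℝ} (hg : ContDiff ℝ k g) (y : Sp d) :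
    iteratedFDeriv ℝ k (fun y => a + g y) y = iteratedFDeriv ℝ k g y := by
  have h1 : iteratedFDeriv ℝ k (fun y => a + g y) y =
      iteratedFDeriv ℝ k (fun _ : Sp d => a) y + iteratedFDeriv ℝ k g y :=
    fun_iteratedFDeriv_add_apply contDiffAt_const hg.contDiffAt
  rw [h1, iteratedFDeriv_const_of_ne (by omega)]
  simp

/-- composition with a smooth function of one variable -/
lemma comp_bd {φ : ℝ → ℝ} {g : Sp d → ℝ} (hφ : ContDiff ℝ 2 φ) (hg : ContDiff ℝ 2 g) (y : Sp d)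
    {A B : ℝ} (hA : ∀ i ≤ 2, ‖iteratedFDeriv ℝ i φ (g y)‖ ≤ A)
    (hB : 1 ≤ B) (hB' : ∀ i, 1 ≤ i → i ≤ 2 → ‖iteratedFDeriv ℝ i g y‖ ≤ B) {j : ℕ} (hj : j ≤ 2) :
    ‖iteratedFDeriv ℝ j (fun y => φ (g y)) y‖ ≤ 2 * A * B ^ 2 := by
  have hA0 : 0 ≤ A := (norm_nonneg _).trans (hA 0 (by norm_num))
  have h1 := norm_iteratedFDeriv_comp_le (n := j) (N := 2) hφ hg (by exact_mod_cast hj) y
    (C := A) (D := B) (fun i hi => hA i (hi.trans hj))
    (fun i hi hi' => (hB' i hi (hi'.trans hj)).trans (le_self_pow₀ hB (by omega)))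
  refine h1.trans ?_
  have h2 : ((Nat.factorial j : ℕ) : ℝ) ≤ 2 := by
    interval_cases j <;> norm_num [Nat.factorial]
  have h3 : B ^ j ≤ B ^ 2 := pow_le_pow_right₀ hB hj
  have h4 : (0 : ℝ) ≤ B ^ j := by positivity
  calc ((Nat.factorial j : ℕ) : ℝ) * A * B ^ j ≤ 2 * A * B ^ j := by gcongr
    _ ≤ 2 * A * B ^ 2 := by gcongr

lemma ev_zero {F : Type*} [NormedAddCommGroup F] [NormedSpace ℝ F] {g : Sp d → F} {ρ : ℝ}
    (h : ∀ y, ρ < ‖y‖ → g y = 0) {y : Sp d} (hy : ρ < ‖y‖) (j : ℕ) :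
    iteratedFDeriv ℝ j g y = 0 := by
  have h1 : g =ᶠ[nhds y] fun _ => 0 := by
    have : {z : Sp d | ρ < ‖z‖} ∈ nhds y := by
      refine IsOpen.mem_nhds ?_ hy
      exact isOpen_lt continuous_const (by fun_prop)
    filter_upwards [this] with z hz
    exact h z hz
  rw [(h1.iteratedFDeriv ℝ j).eq_of_nhds]
  rw [show (fun _ : Sp d => (0 : F)) = 0 from rfl]
  simp

/-- the cut-offs zR are uniformly bounded in C^2 -/
lemma TFn_zR (R : ℝ) : ∃ C : ℝ, 0 < C ∧ ∀ ρ, 1 ≤ ρ → ρ ≤ R → TFn 2 C (zR ρ : Sp d → ℝ) := by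
  have hP : ContDiff ℝ 2 (fun y : Sp d => -nn y) :=
    (show ContDiff ℝ 2 (nn : Sp d → ℝ) by exact_mod_cast contDiff_infty.1 nn_smooth 2).neg
  have hφ : ContDiff ℝ 2 Real.smoothTransition := Real.smoothTransition.contDiff (n := 2)
  have h1 : ∀ i : ℕ, i ≤ 2 → ∃ A : ℝ, ∀ t ∈ Icc (-(R + 2)) (R + 2),
      ‖iteratedFDeriv ℝ i Real.smoothTransition t‖ ≤ A := fun i hi =>
    isCompact_Icc.exists_bound_of_continuousOn
      (hφ.continuous_iteratedFDeriv (by exact_mod_cast hi)).continuousOn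
  have h2 : ∀ i : ℕ, i ≤ 2 → ∃ A : ℝ, ∀ y ∈ closedBall (0 : Sp d) (R + 2),
      ‖iteratedFDeriv ℝ i (fun y : Sp d => -nn y) y‖ ≤ A := fun i hi =>
    (isCompact_closedBall _ _).exists_bound_of_continuousOn
      (hP.continuous_iteratedFDeriv (by exact_mod_cast hi)).continuousOn
  obtain ⟨A0, hA0⟩ := h1 0 (by norm_num)
  obtain ⟨A1, hA1⟩ := h1 1 (by norm_num)
  obtain ⟨A2, hA2⟩ := h1 2 le_rfl
  obtain ⟨B1, hB1⟩ := h2 1 (by norm_num)
  obtain ⟨B2, hB2⟩ := h2 2 le_rfl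
  set A := |A0| + |A1| + |A2| + 1 with hA
  set B := |B1| + |B2| + 1 with hB
  have hAp : 0 < A := by positivity
  have hBp : 1 ≤ B := by
    have := abs_nonneg B1
    have := abs_nonneg B2
    linarith
  refine ⟨2 * A * B ^ 2, by positivity, fun ρ h1ρ hρR => ?_⟩
  have hz : (zR ρ : Sp d → ℝ) = fun y => Real.smoothTransition (ρ + 1 + -nn y) :=
    funext (zR_nn h1ρ)
  have hgs : ContDiff ℝ 2 (fun y : Sp d => ρ + 1 + -nn y) := contDiff_const.add hP
  refine ⟨by exact_mod_cast contDiff_infty.1 (TU.zR_smooth (by linarith : 0 < ρ)) 2,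
    fun j hj y => ?_⟩
  by_cases hy : ‖y‖ ≤ ρ + 1
  · rw [hz]
    have hmem : ρ + 1 + -nn y ∈ Icc (-(R + 2)) (R + 2) := by
      have := nn_nonneg y
      have := nn_le y
      constructor <;> linarith
    have hyB : y ∈ closedBall (0 : Sp d) (R + 2) := by
      rw [mem_closedBall, dist_zero_right]
      linarith
    refine comp_bd hφ hgs y (fun i hi => ?_) hBp (fun i hi1 hi2 => ?_) hj
    · interval_cases i
      · exact (hA0 _ hmem).trans (by
          linarith [le_abs_self A0, abs_nonneg A1, abs_nonneg A2])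
      · exact (hA1 _ hmem).trans (by
          linarith [le_abs_self A1, abs_nonneg A0, abs_nonneg A2])
      · exact (hA2 _ hmem).trans (by
          linarith [le_abs_self A2, abs_nonneg A1, abs_nonneg A0])
    · rw [itF_const_add hi1 (ρ + 1) (hP.of_le (by exact_mod_cast hi2))]
      interval_cases i
      · exact (hB1 _ hyB).trans (by linarith [le_abs_self B1, abs_nonneg B2])
      · exact (hB2 _ hyB).trans (by linarith [le_abs_self B2, abs_nonneg B1])
  · push Not at hy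
    rw [ev_zero (ρ := ρ + 1) (fun y hy => TU.zR_zero hy.le) hy j, norm_zero]
    positivity

/-! ## functions of the height -/

lemma ht_deriv {ν : Sp d} (hν : ‖ν‖ = 1) (c : ℝ) (y : Sp d) :
    ∀ j : ℕ, 1 ≤ j → ‖iteratedFDeriv ℝ j (ht ν c) y‖ ≤ 1
  | 0 => fun h => by omega
  | 1 => fun _ => by
    have h2 : HasFDerivAt (ht ν c) (innerSL ℝ ν) y := by
      unfold ht
      exact ((innerSL ℝ ν).hasFDerivAt (x := y)).sub_const c
    rw [norm_iteratedFDeriv_one, h2.fderiv, innerSL_apply_norm, hν]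
  | j + 2 => fun _ => by
    have h1 : fderiv ℝ (ht ν c) = fun _ => innerSL ℝ ν := by
      funext z
      have h2 : HasFDerivAt (ht ν c) (innerSL ℝ ν) z := by
        unfold ht
        exact ((innerSL ℝ ν).hasFDerivAt (x := z)).sub_const c
      exact h2.fderiv
    rw [← norm_iteratedFDeriv_fderiv, h1, iteratedFDeriv_const_of_ne (Nat.succ_ne_zero j)]
    simp

lemma TFn_comp_ht {φ : ℝ → ℝ} (hφ : ContDiff ℝ 2 φ) (hc : HasCompactSupport φ) :
    ∃ C : ℝ, 0 < C ∧ ∀ (ν : Sp d) (c : ℝ), ‖ν‖ = 1 → TFn 2 C (fun y => φ (ht ν c y)) := by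
  have h1 : ∀ i : ℕ, i ≤ 2 → ∃ A : ℝ, ∀ t, ‖iteratedFDeriv ℝ i φ t‖ ≤ A := fun i hi =>
    (hφ.continuous_iteratedFDeriv (by exact_mod_cast hi)).bounded_above_of_compact_support
      (hc.iteratedFDeriv i)
  obtain ⟨A0, hA0⟩ := h1 0 (by norm_num)
  obtain ⟨A1, hA1⟩ := h1 1 (by norm_num)
  obtain ⟨A2, hA2⟩ := h1 2 le_rfl
  refine ⟨2 * (|A0| + |A1| + |A2| + 1) * 1 ^ 2, by positivity, fun ν c hν => ?_⟩
  refine ⟨hφ.comp (TU.ht_smooth ν c), fun j hj y => ?_⟩
  refine comp_bd hφ (TU.ht_smooth ν c) y (fun i hi => ?_) le_rfl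
    (fun i hi1 hi2 => ht_deriv hν c y i hi1) hj
  interval_cases i
  · exact (hA0 _).trans (by linarith [le_abs_self A0, abs_nonneg A1, abs_nonneg A2])
  · exact (hA1 _).trans (by linarith [le_abs_self A1, abs_nonneg A0, abs_nonneg A2])
  · exact (hA2 _).trans (by linarith [le_abs_self A2, abs_nonneg A1, abs_nonneg A0])

lemma cu1_eq (z : ℝ) : cu1 1 z = Real.smoothTransition (2 - z) * Real.smoothTransition (2 + z) := by
  unfold cu1
  rcases le_total 0 z with h | h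
  · rw [abs_of_nonneg h, Real.smoothTransition.one_of_one_le (x := 2 + z) (by linarith), mul_one]
    congr 1
    ring
  · rw [abs_of_nonpos h, Real.smoothTransition.one_of_one_le (x := 2 - z) (by linarith), one_mul]
    congr 1
    ring

lemma cu1_smooth : ContDiff ℝ 2 (fun z => cu1 1 z) := by
  have h1 : ContDiff ℝ 2 Real.smoothTransition := Real.smoothTransition.contDiff (n := 2)
  have h2 : (fun z => cu1 1 z) =
      fun z => Real.smoothTransition (2 - z) * Real.smoothTransition (2 + z) := funext cu1_eq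
  rw [h2]
  exact (h1.comp (contDiff_const.sub contDiff_id)).mul (h1.comp (contDiff_const.add contDiff_id))

lemma cu1_nonneg (ρ z : ℝ) : 0 ≤ cu1 ρ z := Real.smoothTransition.nonneg _

lemma cu1_le_one (ρ z : ℝ) : cu1 ρ z ≤ 1 := Real.smoothTransition.le_one _

lemma cu1_one {z : ℝ} (h : |z| ≤ 1) : cu1 1 z = 1 :=
  Real.smoothTransition.one_of_one_le (by linarith)

lemma cu1_zero {z : ℝ} (h : 2 ≤ |z|) : cu1 1 z = 0 :=
  Real.smoothTransition.zero_of_nonpos (by linarith)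

lemma cu1_cs : HasCompactSupport (fun z => cu1 1 z) := by
  refine HasCompactSupport.intro (isCompact_Icc (a := (-2 : ℝ)) (b := 2)) fun z hz => ?_
  refine cu1_zero ?_
  by_contra h
  push Not at h
  exact hz ⟨by linarith [neg_abs_le z], by linarith [le_abs_self z]⟩

/-! ## functions of the projection to a plane -/

/-- tangential part as a linear map -/
def tl (ν : Sp d) : Sp d →L[ℝ] Sp d :=
  ContinuousLinearMap.id ℝ (Sp d) - (innerSL ℝ ν).smulRight ν

lemma tl_apply (ν y : Sp d) : tl ν y = tang ν y := by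
  simp [tl, tang]

lemma inner_tang {ν : Sp d} (hν : ‖ν‖ = 1) (y : Sp d) : ⟪ν, tang ν y⟫_ℝ = 0 := by
  unfold tang
  rw [inner_sub_right, inner_smul_right, real_inner_self_eq_norm_sq, hν]
  ring

lemma norm_tang_le {ν : Sp d} (hν : ‖ν‖ = 1) (y : Sp d) : ‖tang ν y‖ ≤ ‖y‖ := by
  have h1 : ‖tang ν y‖ ^ 2 = ‖y‖ ^ 2 - ⟪ν, y⟫_ℝ ^ 2 := by
    unfold tang
    rw [@norm_sub_sq_real, norm_smul, hν, inner_smul_right, real_inner_comm, Real.norm_eq_abs,
      mul_one, sq_abs]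
    ring
  have h2 : ‖tang ν y‖ ^ 2 ≤ ‖y‖ ^ 2 := by rw [h1]; nlinarith [sq_nonneg ⟪ν, y⟫_ℝ]
  exact (sq_le_sq₀ (norm_nonneg _) (norm_nonneg _)).1 h2

/-- projection to the plane -/
def pj (ν : Sp d) (c : ℝ) (y : Sp d) : Sp d := c • ν + tang ν y

lemma pj_eq (ν : Sp d) (c : ℝ) (y : Sp d) : y = pj ν c y + ht ν c y • ν := by
  unfold pj ht tang
  rw [sub_smul]
  abel

lemma inner_pj {ν : Sp d} (hν : ‖ν‖ = 1) (c : ℝ) (y : Sp d) : ⟪ν, pj ν c y⟫_ℝ = c := by
  unfold pj
  rw [inner_add_right, inner_tang hν, inner_smul_right, real_inner_self_eq_norm_sq, hν]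
  ring

lemma pj_of_mem {ν : Sp d} {c : ℝ} {y : Sp d} (h : ⟪ν, y⟫_ℝ = c) : pj ν c y = y := by
  unfold pj tang
  rw [h]
  abel

lemma tang_tang {ν : Sp d} (hν : ‖ν‖ = 1) (y : Sp d) : tang ν (tang ν y) = tang ν y := by
  conv_lhs => unfold tang
  have h1 := inner_tang hν y
  unfold tang at h1
  rw [h1]
  simp [tang]

lemma norm_tang_pj {ν : Sp d} (hν : ‖ν‖ = 1) (c : ℝ) (y : Sp d) : ‖tang ν y‖ ≤ ‖pj ν c y‖ := by
  have h0 : tang ν ν = 0 := by
    unfold tang
    rw [real_inner_self_eq_norm_sq, hν]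
    simp
  have h1 : tang ν (pj ν c y) = tang ν y := by
    unfold pj
    rw [← tl_apply, map_add, map_smul, tl_apply, tl_apply, h0, tang_tang hν, smul_zero, zero_add]
  rw [← h1]
  exact norm_tang_le hν _

lemma norm_le_pj {ν : Sp d} (hν : ‖ν‖ = 1) (c : ℝ) (y : Sp d) :
    ‖y‖ ≤ ‖pj ν c y‖ + |ht ν c y| := by
  conv_lhs => rw [pj_eq ν c y]
  refine (norm_add_le _ _).trans ?_
  rw [norm_smul, hν, mul_one, Real.norm_eq_abs]

lemma TFn_pj {J : ℕ} {N c : ℝ} {g : Sp d → ℝ} (hg : ContDiff ℝ J g) {ν : Sp d} (hν : ‖ν‖ = 1)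
    (hN : 0 ≤ N) (hb : ∀ j ≤ J, ∀ h : Fin j → Sp d, (∀ i, ⟪ν, h i⟫_ℝ = 0) → (∀ i, ‖h i‖ ≤ 1) →
      ∀ y, ⟪ν, y⟫_ℝ = c → |iteratedFDeriv ℝ j g y h| ≤ N) :
    TFn J N (fun y => g (pj ν c y)) := by
  have e0 : (fun y => g (pj ν c y)) = (fun x => g (c • ν + x)) ∘ (tl ν) := by
    funext y
    simp only [Function.comp_apply, tl_apply]
    rfl
  have hg' : ContDiff ℝ J (fun x => g (c • ν + x)) := hg.comp (contDiff_const.add contDiff_id)
  refine ⟨?_, fun j hj y => ?_⟩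
  · rw [e0]
    exact hg'.comp (tl ν).contDiff
  · rw [e0, (tl ν).iteratedFDeriv_comp_right hg' y (by exact_mod_cast hj),
      iteratedFDeriv_comp_add_left]
    refine ContinuousMultilinearMap.opNorm_le_bound hN fun m => ?_
    rw [ContinuousMultilinearMap.compContinuousLinearMap_apply]
    set k : Fin j → Sp d := fun i => tl ν (m i) with hk
    have hki : ∀ i, k i = ‖k i‖ • (‖k i‖⁻¹ • k i) := by
      intro i
      by_cases h0 : k i = 0
      · rw [h0]
        simp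
      · rw [smul_smul, mul_inv_cancel₀ (norm_ne_zero_iff.2 h0), one_smul]
    have h1 : (iteratedFDeriv ℝ j g (c • ν + tl ν y)) k =
        (∏ i, ‖k i‖) • (iteratedFDeriv ℝ j g (c • ν + tl ν y)) (fun i => ‖k i‖⁻¹ • k i) := by
      rw [← ContinuousMultilinearMap.map_smul_univ]
      congr 1
      funext i
      exact hki i
    have h2 : |(iteratedFDeriv ℝ j g (c • ν + tl ν y)) (fun i => ‖k i‖⁻¹ • k i)| ≤ N := by
      refine hb j hj _ (fun i => ?_) (fun i => ?_) _ ?_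
      · rw [inner_smul_right, hk]
        simp only
        rw [tl_apply, inner_tang hν, mul_zero]
      · rw [norm_smul, norm_inv, norm_norm]
        by_cases h0 : k i = 0
        · rw [h0]
          simp
        · rw [inv_mul_cancel₀ (norm_ne_zero_iff.2 h0)]
      · rw [tl_apply]
        exact inner_pj hν c y
    have h3 : ∏ i, ‖k i‖ ≤ ∏ i, ‖m i‖ := by
      refine Finset.prod_le_prod (fun i _ => norm_nonneg _) fun i _ => ?_
      rw [hk]
      simp only
      rw [tl_apply]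
      exact norm_tang_le hν _
    have h4 : 0 ≤ ∏ i, ‖k i‖ := Finset.prod_nonneg fun i _ => norm_nonneg _
    calc ‖(iteratedFDeriv ℝ j g (c • ν + tl ν y)) k‖
        = (∏ i, ‖k i‖) * |(iteratedFDeriv ℝ j g (c • ν + tl ν y)) (fun i => ‖k i‖⁻¹ • k i)| := by
          rw [h1, norm_smul, Real.norm_of_nonneg h4, Real.norm_eq_abs]
      _ ≤ (∏ i, ‖m i‖) * N := mul_le_mul h3 h2 (abs_nonneg _) (h4.trans h3)
      _ = N * ∏ i, ‖m i‖ := mul_comm _ _

/-! ## first order Taylor formula -/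

lemma fd_lip {ζ : Sp d → ℝ} (hζ : ContDiff ℝ 2 ζ) {N : ℝ}
    (hN : ∀ y, ‖iteratedFDeriv ℝ 2 ζ y‖ ≤ N) (x y : Sp d) :
    ‖fderiv ℝ ζ y - fderiv ℝ ζ x‖ ≤ N * ‖y - x‖ := by
  have h1 : ContDiff ℝ 1 (fderiv ℝ ζ) := hζ.fderiv_right (m := 1) (by norm_num)
  refine Convex.norm_image_sub_le_of_norm_fderiv_le (𝕜 := ℝ) (s := univ)
    (fun z _ => (h1.differentiable (by norm_num)).differentiableAt) (fun z _ => ?_) convex_univ
    (mem_univ _) (mem_univ _)
  rw [← norm_iteratedFDeriv_one, norm_iteratedFDeriv_fderiv]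
  exact hN z

lemma taylor {ζ : Sp d → ℝ} (hζ : ContDiff ℝ 2 ζ) {N : ℝ}
    (hN : ∀ y, ‖iteratedFDeriv ℝ 2 ζ y‖ ≤ N) (x y : Sp d) :
    |ζ y - ζ x - fderiv ℝ ζ x (y - x)| ≤ N * ‖y - x‖ ^ 2 := by
  have hN0 : 0 ≤ N := (norm_nonneg _).trans (hN 0)
  have h1 := Convex.norm_image_sub_le_of_norm_fderiv_le' (𝕜 := ℝ) (f := ζ) (φ := fderiv ℝ ζ x)
    (C := N * ‖y - x‖) (s := segment ℝ x y) (x := x) (y := y)
    (fun z _ => (hζ.differentiable (by norm_num)).differentiableAt) (fun z hz => ?_)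
    (convex_segment x y) (left_mem_segment ℝ x y) (right_mem_segment ℝ x y)
  · rw [Real.norm_eq_abs] at h1
    refine h1.trans (le_of_eq (by ring))
  · refine (fd_lip hζ hN x z).trans ?_
    refine mul_le_mul_of_nonneg_left ?_ hN0
    obtain ⟨a, b, ha, hb, hab, rfl⟩ := hz
    have h2 : a • x + b • y - x = b • (y - x) := by
      have : a = 1 - b := by linarith
      rw [this, sub_smul, smul_sub, one_smul]
      abel
    rw [h2, norm_smul, Real.norm_of_nonneg hb]
    exact mul_le_of_le_one_left (norm_nonneg _) (by linarith)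

/-- compactly supported functions are bounded in C^2 by their second derivatives -/
lemma TFn_of_d2 {ζ : Sp d → ℝ} (hζ : ContDiff ℝ 2 ζ) {N ρ R : ℝ} (hρ : 0 ≤ ρ) (hR : ρ ≤ R)
    (hN : ∀ y, ‖iteratedFDeriv ℝ 2 ζ y‖ ≤ N) (hs : ∀ y, ρ ≤ ‖y‖ → ζ y = 0) {ν : Sp d}
    (hν : ‖ν‖ = 1) : TFn 2 ((2 * R + 1) ^ 2 * N) ζ := by
  have hN0 : 0 ≤ N := (norm_nonneg _).trans (hN 0)
  have hR0 : 0 ≤ R := hρ.trans hR
  set p : Sp d := (ρ + 1) • ν with hp
  have hpn : ‖p‖ = ρ + 1 := by rw [hp, norm_smul, hν, mul_one, Real.norm_of_nonneg (by linarith)]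
  have hs' : ∀ y, ρ < ‖y‖ → ζ y = 0 := fun y hy => hs y hy.le
  have hfd : ∀ y, ρ < ‖y‖ → fderiv ℝ ζ y = 0 := by
    intro y hy
    have := ev_zero hs' hy 1
    rw [← norm_eq_zero, norm_iteratedFDeriv_one, norm_eq_zero] at this
    exact this
  have h1 : ∀ y, ‖fderiv ℝ ζ y‖ ≤ (2 * R + 1) * N := by
    intro y
    by_cases hy : ρ < ‖y‖
    · rw [hfd y hy, norm_zero]
      positivity
    · push Not at hy
      have h2 := fd_lip hζ hN p y
      rw [hfd p (by rw [hpn]; linarith), sub_zero] at h2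
      refine h2.trans ?_
      rw [mul_comm]
      refine mul_le_mul_of_nonneg_right ?_ hN0
      refine (norm_sub_le _ _).trans ?_
      rw [hpn]
      linarith
  have h0 : ∀ y, |ζ y| ≤ (2 * R + 1) ^ 2 * N := by
    intro y
    by_cases hy : ρ < ‖y‖
    · rw [hs' y hy, abs_zero]
      positivity
    · push Not at hy
      have h2 := Convex.norm_image_sub_le_of_norm_fderiv_le (𝕜 := ℝ) (f := ζ) (s := univ)
        (fun z _ => (hζ.differentiable (by norm_num)).differentiableAt) (fun z _ => h1 z)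
        convex_univ (mem_univ p) (mem_univ y)
      rw [hs' p (by rw [hpn]; linarith), sub_zero, Real.norm_eq_abs] at h2
      refine h2.trans ?_
      have h3 : ‖y - p‖ ≤ 2 * R + 1 := by
        refine (norm_sub_le _ _).trans ?_
        rw [hpn]
        linarith
      calc (2 * R + 1) * N * ‖y - p‖ ≤ (2 * R + 1) * N * (2 * R + 1) := by gcongr
        _ = (2 * R + 1) ^ 2 * N := by ring
  have hone : 1 ≤ (2 * R + 1) := by linarith
  refine ⟨hζ, fun j hj y => ?_⟩
  interval_cases j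
  · rw [norm_iteratedFDeriv_zero]
    exact h0 y
  · rw [norm_iteratedFDeriv_one]
    refine (h1 y).trans ?_
    refine mul_le_mul_of_nonneg_right ?_ hN0
    nlinarith
  · refine (hN y).trans ?_
    have : 1 ≤ (2 * R + 1) ^ 2 := one_le_pow₀ hone
    nlinarith

end

end SS

end TG
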