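import Pool.Agent.TG.Stmts14
import Pool.Agent.TG.FR0
import Pool.Agent.TG.TFU
import Pool.Agent.TG.SS1

/-!
# MODULE FR3: the sheets of two cells of nearby levels are close (helper59)
-/

open MeasureTheory Metric Set TrI
open scoped InnerProductSpace ContDiff ENNReal

namespace TG

namespace FR3Aux

noncomputable section

variable {d : ℕ}

lemma inner_smul_self {n : Sp d} (hn : ‖n‖ = 1) (s : ℝ) : ⟪n, s • n⟫_ℝ = s := by
  rw [inner_smul_right, real_inner_self_eq_norm_sq, hn]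
  ring

/-- the sheet estimate is monotone in the defect -/
lemma sheet_mono {J : ℕ} {R ab ep D D' : ℝ} {m : Sp d → ℝ} {n : Sp d} {s : ℝ}
    (h : Sheet J R ab ep D m n s) (hD : D ≤ D') : Sheet J R ab ep D' m n s where
  n1 := h.n1
  ab0 := h.ab0
  ep0 := h.ep0
  loc := h.loc
  est := by
    intro ζ ρ N N2 h1 h2 h3 h4 h5 h6
    have h7 := h.est ζ ρ N N2 h1 h2 h3 h4 h5 h6
    have hN2 : 0 ≤ N2 := (norm_nonneg _).trans (h6 0)
    have hN : 0 ≤ N :=
      (abs_nonneg _).trans (h5 0 (Nat.zero_le _) (fun j => j.elim0) (fun j => j.elim0)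
        (fun j => j.elim0) (s • n) (inner_smul_self h.n1 s)).1
    have h8 : (N + N2) * D ≤ (N + N2) * D' := mul_le_mul_of_nonneg_left hD (by linarith)
    linarith

lemma ZP_mono {R R' D D' : ℝ} {m : Sp d → ℝ} (h : ZP R D m) (hR : R' ≤ R) (hD : D ≤ D') :
    ZP R' D' m := by
  intro H h1 h2 h3 h4 h5
  have := h H h1 h2 h3 h4 (fun y hy => h5 y (hR.trans hy))
  linarith

end

end FR3Aux

open FR3Aux in
theorem stmtFR3 (h : StmtGS) (h8 : StmtCT8) (h9 : StmtCT9) : StmtFR3 := by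
  intro d J hd M c0 ε hε hε1 b hb R0 i hR0
  have hd0 : (0 : ℝ) ≤ (d : ℝ) := Nat.cast_nonneg d
  have hR0p : 0 < R0 := by linarith
  obtain ⟨c1, C1, hc1, hC1, hG⟩ := h d J hd (64 * R0) i (by linarith)
  obtain ⟨C8, hC8, h8'⟩ := h8 d (by omega) M c0 ε hε hε1 b hb
  obtain ⟨C8', hC8', h8''⟩ := h8' 0
  obtain ⟨C9, hC9, h9'⟩ := h9 d (by omega) M c0 ε hε hε1 b hb i
  set K : ℝ := (2 * (64 * R0) + 1) ^ 2 with hK
  have hKp : 0 < K := by positivity
  set A : ℝ := C8 + C8 * C9 + C9 * K with hA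
  have hAp : 0 < A := by positivity
  set T : ℝ := 2 ^ i with hT
  have hT1 : 1 ≤ T := one_le_pow₀ (by norm_num)
  refine ⟨c1 / (1 + A), C1 * (1 + A), by positivity, by positivity, ?_⟩
  intro E _ _ _ R hR f hf hfc s0 hs0 e he Q Q' hQ hx n n' s s' ab ab' ep ep' D D' Er hD hD'
    hS hS' hs hEr hEc
  have hRT : 150 * R0 ≤ 150 * R0 * T := le_mul_of_one_le_right (by linarith) hT1
  have hR2 : 150 * R0 ≤ R := hRT.trans hR
  have hlQ := FR.lev_pos hs0 Q.1
  -- the defects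
  have hdC : ∀ P : Cell d, 0 ≤ dC b ε R s0 f e P := fun P =>
    TU.DD_nonneg b ε R hs0 f P.1 (xC s0 P) (he.unit P)
  have hd1 := hdC Q
  have hd2 := hdC (up (i + 1) Q)
  obtain ⟨h91, h92⟩ := h9' E R (4 * R0) (by linarith) (by linarith) f hf hfc s0 hs0 e he Q Q' hQ hx
  obtain ⟨h81, -⟩ := h8'' E R (by linarith) (by norm_num; linarith) f hf hfc s0 hs0 e he
  set dq := dC b ε R s0 f e Q with hdq
  set du := dC b ε R s0 f e (up (i + 1) Q) with hdu
  set Dt : ℝ := D + D' + A * (dq + du) with hDt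
  have hAd : 0 ≤ A * (dq + du) := mul_nonneg hAp.le (by linarith)
  have hA1 : C8 * dq ≤ A * (dq + du) := by
    have h1 : 0 ≤ (C8 * C9 + C9 * K) * (dq + du) := by positivity
    have h2 : 0 ≤ C8 * du := by positivity
    rw [hA]
    nlinarith
  have hA2 : C8 * dC b ε R s0 f e Q' ≤ A * (dq + du) := by
    have h0 : C8 * dC b ε R s0 f e Q' ≤ C8 * (C9 * du) := mul_le_mul_of_nonneg_left h91 hC8.le
    have h1 : 0 ≤ (C8 + C9 * K) * (dq + du) := by positivity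
    have h2 : 0 ≤ C8 * C9 * dq := by positivity
    rw [hA]
    nlinarith
  have hA3 : C9 * K * (dq + du) ≤ A * (dq + du) := by
    have h1 : 0 ≤ (C8 + C8 * C9) * (dq + du) := by positivity
    rw [hA]
    nlinarith
  -- the density of Q' in the frame of Q
  have hfr : (fun y => 2 ^ i * mQ s0 f (e Q') Q (tw s0 Q Q' + (2 : ℝ) ^ i • y)) =
      mQ s0 f (e Q') Q' := by
    funext y
    exact (FR.mQ_frame hs0 f (e Q') Q Q' i hQ y).symm
  have hS1 : Sheet J (64 * R0) ab ep Dt (mQ s0 f (e Q) Q) n s :=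
    sheet_mono hS (by rw [hDt]; linarith)
  have hS2 : Sheet J (64 * R0) ab' ep' Dt
      (fun y => 2 ^ i * mQ s0 f (e Q') Q (tw s0 Q Q' + (2 : ℝ) ^ i • y)) n' s' := by
    rw [hfr]
    exact sheet_mono hS' (by rw [hDt]; linarith)
  have hZ1 : ZP (64 * R0 + 1) Dt (mQ s0 f (e Q) Q) :=
    ZP_mono (h81 Q).2 (by linarith) (by rw [hDt]; linarith)
  have hZ2 : ZP (64 * R0 + 1) Dt
      (fun y => 2 ^ i * mQ s0 f (e Q') Q (tw s0 Q Q' + (2 : ℝ) ^ i • y)) := by
    rw [hfr]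
    exact ZP_mono (h81 Q').2 (by linarith) (by rw [hDt]; linarith)
  have hp1 : ‖s • n‖ = |s| := by rw [norm_smul, hS.n1, mul_one, Real.norm_eq_abs]
  have hx1 : ‖tw s0 Q Q'‖ ≤ 4 * R0 * T := by
    rw [FR.norm_tw hs0, div_le_iff₀ hlQ]
    rw [hQ, FR.lev_add] at hx
    rw [hT]
    linarith
  have hfin := hG (mQ s0 f (e Q) Q) (mQ s0 f (e Q') Q) n n' s s' ab ab' ep ep' Dt
    ((1 + A) * Er) (tw s0 Q Q') (s • n) (FR.mQ_cont hf s0 (e Q) Q) (FR.mQ_cont hf s0 (e Q') Q)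
    (by rw [hDt]; linarith) hS1 hS2 hZ1 hZ2 ?_ ?_ ?_ ?_ ?_ ?_
  · obtain ⟨g1, σ, hσ, g2⟩ := hfin
    refine ⟨by linarith, σ, hσ, by linarith⟩
  · -- the difference
    intro Y hY1 hY2 hY3 hY4
    have hY : TFn 2 K Y := by
      have := SS.TFn_of_d2 hY1 (N := 1) (ρ := 64 * R0) (R := 64 * R0) (by linarith) le_rfl
        hY3 hY4 hS.n1
      rw [mul_one] at this
      exact this
    have h1 := h92 (64 * R0) Y K (by nlinarith) hY hY4
    have h2 : ∫ y, (mQ s0 f (e Q) Q y - mQ s0 f (e Q') Q y) * Y y =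
        -∫ y, (mQ s0 f (e Q') Q y - mQ s0 f (e Q) Q y) * Y y := by
      rw [← integral_neg]
      congr 1
      ext y
      ring
    rw [h2, abs_neg]
    refine h1.trans (hA3.trans ?_)
    rw [hDt]
    linarith
  · rw [hp1]
    linarith
  · unfold hgt
    rw [inner_smul_self hS.n1, sub_self, abs_zero]
    norm_num
  · refine (norm_sub_le _ _).trans ?_
    rw [hp1]
    have h1 : 2 * R0 ≤ 2 * R0 * T := le_mul_of_one_le_right (by linarith) hT1
    have h2 : 0 ≤ (58 * R0 - 3) * T := mul_nonneg (by linarith) (by linarith)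
    nlinarith
  · rw [hfr]
    have e1 : 0 ≤ ep := hS.ep0
    have e2 : 0 ≤ ep' := hS'.ep0
    have e3 : 0 ≤ max 0 (blc n s (mQ s0 f (e Q) Q) (64 * R0)) := le_max_left _ _
    have e4 : 0 ≤ max 0 (blc n' s' (mQ s0 f (e Q') Q') (64 * R0)) := le_max_left _ _
    have h1 := mul_le_mul_of_nonneg_left hEr hAp.le
    have h2 : 0 ≤ A * ep := mul_nonneg hAp.le e1
    have h3 : 0 ≤ A * ep' := mul_nonneg hAp.le e2
    have h4 : 0 ≤ A * max 0 (blc n s (mQ s0 f (e Q) Q) (64 * R0)) := mul_nonneg hAp.le e3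
    have h5 : 0 ≤ A * max 0 (blc n' s' (mQ s0 f (e Q') Q') (64 * R0)) := mul_nonneg hAp.le e4
    have h6 : 0 ≤ A * D := mul_nonneg hAp.le hD
    have h7 : 0 ≤ A * D' := mul_nonneg hAp.le hD'
    rw [hDt]
    nlinarith
  · have h1 := mul_le_mul_of_nonneg_left hEc (by linarith : 0 ≤ 1 + A)
    have h2 : (1 + A) * (c1 / (1 + A) * ab) = c1 * ab := by field_simp
    rwa [h2] at h1

end TG
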