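import Pool.Agent.TG.FR0
import Pool.Agent.TG.TFU
import Pool.Agent.TG.GS

/-!
# The plane lemma and the partial sums, common to the modules FR2 and FR4  (helper89)

For a cell S and P = up 7 S, the plane of P is an admissible plane for S with the radius 64 R0:
the plane functional of S is at most C (bC P + dC S + dC P).
-/

open MeasureTheory Metric Set TrI
open scoped InnerProductSpace ContDiff ENNReal

namespace TG

namespace FR4

open FR

noncomputable section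

variable {d : ℕ}

section F

variable {E : Type} [NormedAddCommGroup E] [InnerProductSpace ℝ E] [FiniteDimensional ℝ E]

omit [FiniteDimensional ℝ E] in
/-- the functional bb is blc in the frame of the cell -/
lemma bb_mQ {s0 : ℝ} (h : 0 < s0) (ρ : ℝ) (f : Sp d → E) (e : E) (Q : Cell d) (ν : Sp d)
    (c : ℝ) : bb ρ s0 f Q.1 (xC s0 Q) e ν c =
      ∫ y, mQ s0 f e Q y * (zR ρ y * ht ν (cfr s0 Q ν c) y ^ 2) := by
  have hl := lev_pos h Q.1
  unfold bb mQ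
  rw [← TU.frame_int f e (xC s0 Q) hl]
  congr 1
  funext y
  rw [ht_frame h, add_sub_cancel_left, smul_smul, one_div_mul_cancel hl.ne', one_smul]

/-- integrals in the frame of a cell and of a cell m levels higher -/
lemma int_frame {s0 : ℝ} (h : 0 < s0) (f : Sp d → E) (e : E) (S P : Cell d) (l : ℕ)
    (hP : P.1 = S.1 + l) (ζ : Sp d → ℝ) :
    ∫ z, mQ s0 f e P z * ζ (tw s0 S P + (2 : ℝ) ^ l • z) =
      (2 : ℝ) ^ l / ((2 : ℝ) ^ l) ^ d * ∫ y, mQ s0 f e S y * ζ y := by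
  have h1 : (fun z => mQ s0 f e P z * ζ (tw s0 S P + (2 : ℝ) ^ l • z)) =
      fun z => (2 : ℝ) ^ l * ((fun z => (fun w => mQ s0 f e S w * ζ w) (tw s0 S P + z))
        ((2 : ℝ) ^ l • z)) := by
    funext z
    rw [mQ_frame h f e S P l hP]
    ring
  rw [h1, integral_const_mul, Measure.integral_comp_smul_of_nonneg volume
    (fun z => (fun w => mQ s0 f e S w * ζ w) (tw s0 S P + z)) ((2 : ℝ) ^ l)
    (hR := by positivity),
    integral_add_left_eq_self (fun w => mQ s0 f e S w * ζ w) (tw s0 S P),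
    finrank_euclideanSpace_fin, smul_eq_mul, ← mul_assoc]
  congr 1

lemma ht_frame2 {s0 : ℝ} (h : 0 < s0) (S P : Cell d) (l : ℕ) (hP : P.1 = S.1 + l) (ν : Sp d)
    (c : ℝ) (z : Sp d) : ht ν (cfr s0 S ν c) (tw s0 S P + (2 : ℝ) ^ l • z) =
      2 ^ l * ht ν (cfr s0 P ν c) z := by
  have hl := lev_pos h S.1
  rw [ht_frame h, ht_frame h, smul_add, ← add_assoc, x_tw h, smul_smul, hP, lev_add,
    mul_comm (lev s0 S.1) (2 ^ l)]
  field_simp

lemma ht_zero (ν : Sp d) (c : ℝ) : ht ν c 0 = -c := by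
  unfold ht
  rw [inner_zero_right, zero_sub]

/-- heights at two points -/
lemma ht_two {ν : Sp d} (hν : ‖ν‖ = 1) (c : ℝ) (x y : Sp d) :
    |ht ν c x| ≤ |ht ν c y| + ‖x - y‖ := by
  have h1 : ht ν c x = ht ν c y + ⟪ν, x - y⟫_ℝ := by
    unfold ht
    rw [inner_sub_right]
    ring
  rw [h1]
  refine (abs_add_le _ _).trans (add_le_add le_rfl ?_)
  have := abs_real_inner_le_norm ν (x - y)
  rwa [hν, one_mul] at this

end F

/-- the plane lemma -/
theorem plane_le (h8 : StmtCT8) (h5 : StmtCT5) (hd : 2 ≤ d) {M c0 ε : ℝ} (hε : 0 < ε)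
    (hε1 : ε ≤ 1) {b : Sp d → ℝ} (hb : BaseKer 2 M c0 b) {R0 : ℝ} (hR0 : 400 + 8 * d ≤ R0) :
    ∃ C : ℝ, 0 < C ∧
    ∀ (E : Type) [NormedAddCommGroup E] [InnerProductSpace ℝ E] [FiniteDimensional ℝ E]
      (R : ℝ), 300 * R0 ≤ R → ∀ f : Sp d → E, Continuous f → HasCompactSupport f →
    ∀ s0 : ℝ, 0 < s0 → ∀ e : Cell d → E, Dirs b ε R s0 f e →
    ∀ (ν : Cell d → Sp d) (c : Cell d → ℝ), Plns R0 s0 f e ν c → ∀ S : Cell d,
      max 0 (bb (64 * R0) s0 f S.1 (xC s0 S) (e S) (ν (up 7 S)) (c (up 7 S))) ≤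
        C * (bC R0 s0 f e ν c (up 7 S) + dC b ε R s0 f e S + dC b ε R s0 f e (up 7 S)) := by
  have hd1 : 1 ≤ d := by omega
  have hdR : (1 : ℝ) ≤ d := by exact_mod_cast hd1
  have hsd : Real.sqrt d ≤ d := by
    rw [Real.sqrt_le_left (by linarith)]
    nlinarith
  have hsd0 := Real.sqrt_nonneg (d : ℝ)
  have hR00 : 0 < R0 := by linarith
  obtain ⟨C8, hC8, g8⟩ := h8 d hd1 M c0 ε hε hε1 b hb
  obtain ⟨C81, hC81, g8⟩ := g8 0
  obtain ⟨C5, hC5, g5⟩ := h5 d hd1 M c0 ε hε hε1 b hb R0 7 (by linarith)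
  obtain ⟨N1, hN1, hT1⟩ := TU.TFn_of_cs (J := 2)
    (contDiff_infty.1 (TU.zR_smooth (d := d) hR00) 2) (TU.zR_cs R0)
  obtain ⟨N2, hN2, hT2⟩ := TU.TFn_of_cs (J := 2)
    (contDiff_infty.1 (TU.zR_smooth (d := d) (by linarith : 0 < 64 * R0)) 2) (TU.zR_cs (64 * R0))
  set NA : ℝ := 4 ^ 2 * (N1 + max 1 |(2 : ℝ) ^ 7| ^ 2 * N2) * max 1 (R0 + 1 + (R0 + 1)) ^ 2
    with hNA
  set NB : ℝ := 4 ^ 2 * N2 * max 1 (64 * R0 + 1 + (128 * (R0 + 1) + 128 * Real.sqrt d)) ^ 2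
    with hNB
  have hNA0 : 0 < NA := by positivity
  have hNB0 : 0 < NB := by positivity
  set q : ℝ := ((2 : ℝ) ^ 7) ^ d / (2 : ℝ) ^ 7 * 2 ^ 14 with hq
  have hq0 : 0 < q := by positivity
  refine ⟨q + q * (NA * C8) + C5 * NB, by positivity, ?_⟩
  intro E _ _ _ R hR f hf hc s0 h e he ν c hν S
  set P := up 7 S with hP
  have hP1 : P.1 = S.1 + 7 := rfl
  obtain ⟨⟨g50, g51, _⟩, -, -, -, g55⟩ := g5 E R (by linarith) f hf hc s0 h e he ν c hν |>.imp
    (fun h => h P) id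
  have g50S := ((g5 E R (by linarith) f hf hc s0 h e he ν c hν).1 S).1
  obtain ⟨g8c, g8z⟩ := (g8 E R (by linarith) (by norm_num; linarith) f hf hc s0 h e he).1 P
  have hlS := lev_pos h S.1
  have hlP := lev_pos h P.1
  have hlev : lev s0 P.1 = 2 ^ 7 * lev s0 S.1 := by rw [hP1, lev_add]
  -- distances
  have hdist : ‖xC s0 P - xC s0 S‖ ≤ Real.sqrt d * ((2 ^ 7 - 1) * lev s0 S.1) := xC_up' h 7 S
  have hw : ‖tw s0 S P‖ ≤ Real.sqrt d * 2 ^ 7 := norm_tw_up h 7 S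
  have hcP : |cfr s0 P (ν P) (c P)| ≤ R0 + 1 := by
    have h1 := ht_frame_tw h P P (ν P) (c P)
    rw [tw_self, ht_zero] at h1
    rw [← abs_neg, h1, abs_div, abs_of_pos hlP, div_le_iff₀ hlP]
    exact hν.loc P
  have hcS : |cfr s0 S (ν P) (c P)| ≤ 128 * (R0 + 1) + 128 * Real.sqrt d := by
    have h1 := ht_frame2 h S P 7 hP1 (ν P) (c P) 0
    rw [smul_zero, add_zero, ht_zero] at h1
    have h2 := ht_two (hν.unit P) (cfr s0 S (ν P) (c P)) 0 (tw s0 S P)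
    rw [ht_zero, abs_neg, h1, zero_sub, norm_neg] at h2
    refine h2.trans ?_
    rw [mul_neg, abs_neg, abs_mul]
    norm_num
    norm_num at hw
    linarith
  -- the two test functions
  set hP2 := fun z : Sp d => ht (ν P) (cfr s0 P (ν P) (c P)) z ^ 2 with hhP2
  set ζ := fun y : Sp d => zR (64 * R0) y * ht (ν P) (cfr s0 S (ν P) (c P)) y ^ 2 with hζ
  set φ := fun z : Sp d => zR R0 z - zR (64 * R0) (tw s0 S P + (2 : ℝ) ^ 7 • z) with hφ
  have hsm : ∀ (ν : Sp d) (c : ℝ), Continuous (ht ν c) := fun ν c =>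
    (TU.ht_smooth ν c (n := 0)).continuous
  have hφ1 : TFn 2 (N1 + max 1 |(2 : ℝ) ^ 7| ^ 2 * N2) φ :=
    TU.TFn_sub hT1 (TU.TFn_aff hT2 (tw s0 S P) (by norm_num))
  have hφ2 : ∀ y : Sp d, R0 + 1 ≤ ‖y‖ → φ y = 0 := by
    intro y hy
    have h1 : 64 * R0 + 1 ≤ ‖tw s0 S P + (2 : ℝ) ^ 7 • y‖ := by
      have h2 : ‖(2 : ℝ) ^ 7 • y‖ = 2 ^ 7 * ‖y‖ := by
        rw [norm_smul, Real.norm_of_nonneg (by positivity)]
      have h3 := norm_sub_le_norm_add ((2 : ℝ) ^ 7 • y) (tw s0 S P)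
      rw [add_comm] at h3
      rw [h2] at h3
      norm_num at h3 hw ⊢
      linarith
    simp only [hφ]
    rw [TU.zR_zero hy, TU.zR_zero h1, sub_zero]
  have hφ0 : ∀ y, 0 ≤ φ y := by
    intro y
    simp only [hφ]
    by_cases hy : ‖y‖ ≤ R0
    · rw [TU.zR_one hy]
      linarith [TU.zR_le_one (64 * R0) (tw s0 S P + (2 : ℝ) ^ 7 • y)]
    · push Not at hy
      have h1 : 64 * R0 + 1 ≤ ‖tw s0 S P + (2 : ℝ) ^ 7 • y‖ := by
        have h2 : ‖(2 : ℝ) ^ 7 • y‖ = 2 ^ 7 * ‖y‖ := by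
          rw [norm_smul, Real.norm_of_nonneg (by positivity)]
        have h3 := norm_sub_le_norm_add ((2 : ℝ) ^ 7 • y) (tw s0 S P)
        rw [add_comm] at h3
        rw [h2] at h3
        norm_num at h3 hw ⊢
        linarith
      rw [TU.zR_zero h1, sub_zero]
      exact TU.zR_nonneg _ _
  have hT3 : TFn 2 NA (fun y => φ y * ht (ν P) (cfr s0 P (ν P) (c P)) y ^ 2) :=
    TU.TFn_ht_sq hφ1 (fun y hy => hφ2 y hy.le) (hν.unit P) hcP
  have hZ := GSAux.ZP' g8z hT3 (fun y => mul_nonneg (hφ0 y) (sq_nonneg _))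
    (fun y hy => by rw [hφ2 y (by linarith), zero_mul])
  have hT4 : TFn 2 NB ζ := TU.TFn_ht_sq hT2 (fun y hy => TU.zR_zero hy.le) (hν.unit P) hcS
  have hD := g55 S P hP1 ζ NB hT4 (fun y hy => by
      simp only [hζ]
      rw [TU.zR_zero (by linarith), zero_mul]) (by
      refine hdist.trans ?_
      rw [hlev]
      have : Real.sqrt d ≤ R := by linarith
      nlinarith)
  -- integrability
  have hci : ∀ (m g : Sp d → ℝ), Continuous m → Continuous g → HasCompactSupport g →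
      Integrable (fun y => m y * g y) := fun m g hm hg hgc =>
    (hm.mul hg).integrable_of_hasCompactSupport hgc.mul_left
  have hzc : ∀ ρ : ℝ, 0 < ρ → Continuous (zR ρ : Sp d → ℝ) := fun ρ hρ =>
    (TU.zR_smooth hρ).continuous
  have hζc : Continuous ζ := (hzc _ (by linarith)).mul ((hsm _ _).pow 2)
  have hζs : HasCompactSupport ζ := (TU.zR_cs (64 * R0)).mul_right
  -- first decomposition
  have e1 : ∫ y, mQ s0 f (e S) S y * ζ y = (∫ y, mQ s0 f (e P) S y * ζ y) +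
      ∫ y, ⟪rs (xC s0 S) (lev s0 S.1) f y, e S - e P⟫_ℝ * ζ y := by
    rw [← integral_add (hci _ _ (mQ_cont hf s0 (e P) S) hζc hζs)
      (hci _ _ ((rs_cont hf _ _).inner continuous_const) hζc hζs)]
    congr 1
    funext y
    unfold mQ
    rw [inner_sub_right]
    ring
  -- second decomposition
  have e2 : ∫ z, mQ s0 f (e P) P z * ζ (tw s0 S P + (2 : ℝ) ^ 7 • z) =
      2 ^ 14 * (bb R0 s0 f P.1 (xC s0 P) (e P) (ν P) (c P) -
        ∫ z, mQ s0 f (e P) P z * (φ z * ht (ν P) (cfr s0 P (ν P) (c P)) z ^ 2)) := by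
    rw [bb_mQ h, ← integral_sub, ← integral_const_mul]
    · congr 1
      funext z
      simp only [hζ, hφ]
      rw [ht_frame2 h S P 7 hP1]
      ring
    · exact hci _ _ (mQ_cont hf s0 (e P) P) ((hzc _ hR00).mul ((hsm _ _).pow 2))
        (TU.zR_cs R0).mul_right
    · refine hci _ _ (mQ_cont hf s0 (e P) P) hT3.smooth.continuous ?_
      refine HasCompactSupport.intro (isCompact_closedBall (0 : Sp d) (R0 + 1)) fun y hy => ?_
      rw [mem_closedBall, dist_zero_right, not_le] at hy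
      rw [hφ2 y hy.le, zero_mul]
  have e3 := int_frame h f (e P) S P 7 hP1 ζ
  have e4 : ∫ y, mQ s0 f (e P) S y * ζ y = q * (bb R0 s0 f P.1 (xC s0 P) (e P) (ν P) (c P) -
        ∫ z, mQ s0 f (e P) P z * (φ z * ht (ν P) (cfr s0 P (ν P) (c P)) z ^ 2)) := by
    rw [e2] at e3
    have h1 : (2 : ℝ) ^ 7 / ((2 : ℝ) ^ 7) ^ d * (((2 : ℝ) ^ 7) ^ d / (2 : ℝ) ^ 7) = 1 := by
      field_simp
    rw [hq, mul_assoc, e3, ← mul_assoc, mul_comm (((2 : ℝ) ^ 7) ^ d / (2 : ℝ) ^ 7), h1, one_mul]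
  have e5 : bb (64 * R0) s0 f S.1 (xC s0 S) (e S) (ν P) (c P) ≤
      q * (bC R0 s0 f e ν c P + NA * (C8 * dC b ε R s0 f e P)) +
        C5 * NB * (dC b ε R s0 f e S + dC b ε R s0 f e P) := by
    rw [bb_mQ h]
    have h1 : ∫ y, mQ s0 f (e S) S y * (zR (64 * R0) y *
      ht (ν P) (cfr s0 S (ν P) (c P)) y ^ 2) = ∫ y, mQ s0 f (e S) S y * ζ y := rfl
    rw [h1, e1, e4]
    refine add_le_add (mul_le_mul_of_nonneg_left ?_ hq0.le) ((le_abs_self _).trans hD)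
    have h2 : bb R0 s0 f P.1 (xC s0 P) (e P) (ν P) (c P) ≤ bC R0 s0 f e ν c P := le_max_right _ _
    linarith
  have h6 : 0 ≤ q * (NA * C8) := by positivity
  have h7 : 0 ≤ C5 * NB := by positivity
  refine max_le (by positivity) (e5.trans ?_)
  nlinarith [mul_nonneg h6 g51, mul_nonneg h6 g50S, mul_nonneg h7 g51, mul_nonneg hq0.le g50S,
    mul_nonneg hq0.le g50, mul_nonneg h6 g50]

end

end FR4

end TG
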