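import Pool.Agent.TG.FRL

/-!
# The partial sums of the budgets, common to the modules FR2 and FR4  (helper89)
-/

open MeasureTheory Metric Set TrI
open scoped InnerProductSpace ContDiff ENNReal

namespace TG

namespace FR4

open FR

noncomputable section

variable {d : ℕ}

lemma wq_eq (r : ℕ) : wq (1 / 4) r = (2 : ℝ) ^ (-((r : ℝ) / 4)) := by
  unfold wq
  congr 1
  ring

lemma sh_summable {F : Cell d → ℝ} (h0 : ∀ Q, 0 ≤ F Q) {B : ℝ} (hB : ∀ Q, F Q ≤ B)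
    (Q : Cell d) : Summable (fun i : ℕ => (2 : ℝ) ^ (-((i : ℝ) / 4)) * F (up i Q)) := by
  have h1 : ∀ i : ℕ, (2 : ℝ) ^ (-((i : ℝ) / 4)) = ((2 : ℝ) ^ (-(1 / 4 : ℝ))) ^ i := by
    intro i
    rw [← Real.rpow_natCast, ← Real.rpow_mul (by norm_num)]
    congr 1
    ring
  have h2 : (2 : ℝ) ^ (-(1 / 4 : ℝ)) < 1 := Real.rpow_lt_one_of_one_lt_of_neg (by norm_num)
    (by norm_num)
  have h3 : Summable (fun i : ℕ => ((2 : ℝ) ^ (-(1 / 4 : ℝ))) ^ i * B) :=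
    (summable_geometric_of_lt_one (by positivity) h2).mul_right B
  refine Summable.of_nonneg_of_le (fun i => mul_nonneg (by positivity) (h0 _)) (fun i => ?_) h3
  rw [h1]
  exact mul_le_mul_of_nonneg_left (hB _) (by positivity)

lemma sum_le_sh {F : Cell d → ℝ} (h0 : ∀ Q, 0 ≤ F Q) {B : ℝ} (hB : ∀ Q, F Q ≤ B)
    (Q : Cell d) (k I : ℕ) :
    ∑ r ∈ Finset.range I, wq (1 / 4) r * F (up (r + k) Q) ≤ (2 : ℝ) ^ ((k : ℝ) / 4) * sh F Q := by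
  have h1 : ∀ r : ℕ, wq (1 / 4) r * F (up (r + k) Q) =
      (2 : ℝ) ^ ((k : ℝ) / 4) * ((2 : ℝ) ^ (-(((k + r : ℕ) : ℝ) / 4)) * F (up (k + r) Q)) := by
    intro r
    rw [wq_eq, ← mul_assoc, ← Real.rpow_add (by norm_num), add_comm k r]
    congr 2
    push_cast
    ring
  simp_rw [h1]
  rw [← Finset.mul_sum]
  refine mul_le_mul_of_nonneg_left ?_ (by positivity)
  have h2 := Finset.sum_range_add
    (fun i : ℕ => (2 : ℝ) ^ (-((i : ℝ) / 4)) * F (up i Q)) k I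
  have h3 : 0 ≤ ∑ i ∈ Finset.range k, (2 : ℝ) ^ (-((i : ℝ) / 4)) * F (up i Q) :=
    Finset.sum_nonneg fun i _ => mul_nonneg (by positivity) (h0 _)
  have h4 := (sh_summable h0 hB Q).sum_le_tsum (Finset.range (k + I))
    (fun i _ => mul_nonneg (by positivity) (h0 _))
  unfold sh
  linarith

lemma le_sh {F : Cell d → ℝ} (h0 : ∀ Q, 0 ≤ F Q) {B : ℝ} (hB : ∀ Q, F Q ≤ B)
    (Q : Cell d) (k : ℕ) : F (up k Q) ≤ (2 : ℝ) ^ ((k : ℝ) / 4) * sh F Q := by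
  have h1 := sum_le_sh h0 hB Q k 1
  simp only [Finset.range_one, Finset.sum_singleton, zero_add] at h1
  have h2 : wq (1 / 4) 0 = 1 := by simp [wq]
  rwa [h2, one_mul] at h1

lemma sh_nonneg {F : Cell d → ℝ} (h0 : ∀ Q, 0 ≤ F Q) (Q : Cell d) : 0 ≤ sh F Q :=
  tsum_nonneg fun _ => mul_nonneg (by positivity) (h0 _)

lemma sh_mono {F G : Cell d → ℝ} (h0 : ∀ Q, 0 ≤ F Q) (hFG : ∀ Q, F Q ≤ G Q) {B : ℝ}
    (hB : ∀ Q, G Q ≤ B) (Q : Cell d) : sh F Q ≤ sh G Q := by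
  unfold sh
  exact (sh_summable h0 (fun Q => (hFG Q).trans (hB Q)) Q).tsum_le_tsum
    (fun i => mul_le_mul_of_nonneg_left (hFG _) (by positivity))
    (sh_summable (fun Q => (h0 Q).trans (hFG Q)) hB Q)

lemma nw_le {s0 : ℝ} (h : 0 < s0) (hd : 1 ≤ d) (Q : Cell d) : nw s0 Q ≤ (s0 ^ (d - 1))⁻¹ := by
  have hl := lev_pos h Q.1
  have h1 : s0 ≤ lev s0 Q.1 := by
    unfold lev
    exact le_mul_of_one_le_right h.le (one_le_pow₀ (by norm_num))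
  have h2 : nw s0 Q = (lev s0 Q.1 ^ (d - 1))⁻¹ := by
    unfold nw
    have h3 : lev s0 Q.1 ^ d = lev s0 Q.1 ^ (d - 1) * lev s0 Q.1 := by
      rw [← pow_succ]
      congr 1
      omega
    rw [h3]
    field_simp
  rw [h2]
  exact inv_anti₀ (by positivity) (pow_le_pow_left₀ h.le h1 _)

/-- the plane functionals are bounded -/
lemma bC_bdd (h4 : StmtCT4) (hd : 1 ≤ d) {M c0 ε : ℝ} (hε : 0 < ε)
    (hε1 : ε ≤ 1) {b : Sp d → ℝ} (hb : BaseKer 2 M c0 b) {R0 : ℝ} (hR0 : 0 ≤ R0)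
    {E : Type} [NormedAddCommGroup E] [InnerProductSpace ℝ E] [FiniteDimensional ℝ E]
    {f : Sp d → E} (hf : Continuous f) (hc : HasCompactSupport f) {s0 : ℝ} (h : 0 < s0)
    {F G : Cell d → ℝ} {C B : ℝ} (hC : 0 ≤ C) (hG : ∀ Q, G Q ≤ B)
    (hF : ∀ Q, F Q ≤ C * (mC b ε (R0 + 3) s0 f Q + G Q)) : ∃ B', ∀ Q, F Q ≤ B' := by
  obtain ⟨C4, hC4, g4⟩ := h4 d hd 0 le_rfl
  obtain ⟨g41, g42, -, -⟩ := g4 M c0 ε hε hε1 b hb E f hf hc s0 h
  refine ⟨C * ((1 + (R0 + 3)) ^ (d + 2) * ((s0 ^ (d - 1))⁻¹ * ∫ y, ‖f y‖) + B), fun Q => ?_⟩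
  refine (hF Q).trans (mul_le_mul_of_nonneg_left (add_le_add ?_ (hG Q)) hC)
  refine (g41 (R0 + 3) (by linarith) Q).trans (mul_le_mul_of_nonneg_left ?_ (by positivity))
  refine (g42 Q).trans (mul_le_mul_of_nonneg_right (nw_le h hd Q) ?_)
  exact integral_nonneg fun y => norm_nonneg _

/-- the budgets in the frame of Q -/
theorem sums (h2 : StmtCT2) (h4 : StmtCT4) (h5 : StmtCT5) (h8 : StmtCT8) (hSC : StmtSC)
    (hSD : StmtSD) (hd : 2 ≤ d) {M c0 ε : ℝ} (hε : 0 < ε) (hε1 : ε ≤ 1) {b : Sp d → ℝ}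
    (hb : BaseKer 2 M c0 b) {R0 : ℝ} (hR0 : 400 + 8 * d ≤ R0) : ∃ C : ℝ, 0 < C ∧
    ∀ (E : Type) [NormedAddCommGroup E] [InnerProductSpace ℝ E] [FiniteDimensional ℝ E]
      [Nontrivial E] (R : ℝ), 300 * R0 ≤ R → ∀ f : Sp d → E, Continuous f →
      HasCompactSupport f → ∀ s0 : ℝ, 0 < s0 → ∀ e : Cell d → E, Dirs b ε R s0 f e →
    ∀ (ν : Cell d → Sp d) (c : Cell d → ℝ), Plns R0 s0 f e ν c → ∀ Q : Cell d,
      (∀ I : ℕ, ∑ r ∈ Finset.range I, wq (1 / 4) r *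
        bD b ε (64 * R0) R ((1 / 2) ^ Q.1) (rs (xC s0 Q) (lev s0 Q.1) f) (Q.1 + r)
          (tw s0 Q (up r Q)) (e (up r Q)) (ν (up (r + 7) Q))
          (cfr s0 Q (ν (up (r + 7) Q)) (c (up (r + 7) Q))) ≤
          C * bsh b ε R0 R s0 f e ν c Q) ∧
      (∀ I : ℕ, ∑ r ∈ Finset.range I, wq (1 / 4) r *
        DD b ε R ((1 / 2) ^ Q.1) (rs (xC s0 Q) (lev s0 Q.1) f) (Q.1 + r)
          (tw s0 Q (up r Q)) (e (up r Q)) ≤ dsh b ε R s0 f e Q) ∧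
      (∀ r : ℕ, |ht (ν (up (r + 7) Q)) (cfr s0 Q (ν (up (r + 7) Q)) (c (up (r + 7) Q)))
        (tw s0 Q (up r Q))| ≤ 4 * (64 * R0) * 2 ^ r) ∧
      0 ≤ dsh b ε R s0 f e Q ∧ dsh b ε R s0 f e Q ≤ bsh b ε R0 R s0 f e ν c Q ∧
      (∀ k : ℕ, 0 ≤ dC b ε R s0 f e (up k Q) ∧
        dC b ε R s0 f e (up k Q) ≤ (2 : ℝ) ^ ((k : ℝ) / 4) * dsh b ε R s0 f e Q) := by
  have hd1 : 1 ≤ d := by omega
  have hdR : (1 : ℝ) ≤ d := by exact_mod_cast hd1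
  have hsd : Real.sqrt d ≤ d := by
    rw [Real.sqrt_le_left (by linarith)]
    nlinarith
  have hsd0 := Real.sqrt_nonneg (d : ℝ)
  obtain ⟨C5, hC5, g5⟩ := h5 d hd1 M c0 ε hε hε1 b hb R0 0 (by linarith)
  obtain ⟨CP, hCP, gP⟩ := plane_le h8 h5 hd hε hε1 hb hR0
  refine ⟨CP * (2 : ℝ) ^ ((7 : ℝ) / 4) * 2 + CP + 1, by positivity, ?_⟩
  intro E _ _ _ _ R hR f hf hc s0 h e he ν c hν Q
  obtain ⟨C2, hC2, g2⟩ := h2 d hd1 M c0 ε R hε hε1 (by linarith) b hb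
  obtain ⟨hD0, ⟨B1, hB1⟩, -⟩ := g2 E f hf hc s0 h e he
  obtain ⟨g51, -, -, -, -⟩ := g5 E R (by linarith) f hf hc s0 h e he ν c hν
  have hb0 : ∀ Q, 0 ≤ bC R0 s0 f e ν c Q := fun Q => (g51 Q).2.1
  obtain ⟨B2, hB2⟩ := bC_bdd h4 hd1 hε hε1 hb (R0 := R0) (by linarith) hf hc h
    (F := bC R0 s0 f e ν c) hC5.le hB1 (fun Q => (g51 Q).2.2)
  have hl := lev_pos h Q.1
  have hdsh0 : 0 ≤ dsh b ε R s0 f e Q := sh_nonneg hD0 Q
  have hle : dsh b ε R s0 f e Q ≤ bsh b ε R0 R s0 f e ν c Q :=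
    sh_mono hD0 (fun Q => le_add_of_nonneg_left (hb0 Q)) (B := B2 + B1)
      (fun Q => add_le_add (hB2 Q) (hB1 Q)) Q
  have hle2 : sh (bC R0 s0 f e ν c) Q ≤ bsh b ε R0 R s0 f e ν c Q :=
    sh_mono hb0 (fun Q => le_add_of_nonneg_right (hD0 Q)) (B := B2 + B1)
      (fun Q => add_le_add (hB2 Q) (hB1 Q)) Q
  refine ⟨?_, ?_, ?_, hdsh0, hle, fun k => ⟨hD0 _, le_sh hD0 hB1 Q k⟩⟩
  · intro I
    have h1 : ∀ r : ℕ, wq (1 / 4) r *
        bD b ε (64 * R0) R ((1 / 2) ^ Q.1) (rs (xC s0 Q) (lev s0 Q.1) f) (Q.1 + r)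
          (tw s0 Q (up r Q)) (e (up r Q)) (ν (up (r + 7) Q))
          (cfr s0 Q (ν (up (r + 7) Q)) (c (up (r + 7) Q))) ≤
        CP * (wq (1 / 4) r * bC R0 s0 f e ν c (up (r + 7) Q)) +
        CP * (wq (1 / 4) r * dC b ε R s0 f e (up (r + 7) Q)) +
        (CP + 1) * (wq (1 / 4) r * dC b ε R s0 f e (up (r + 0) Q)) := by
      intro r
      have h2 := gP E R hR f hf hc s0 h e he ν c hν (up r Q)
      rw [up_up] at h2
      unfold bD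
      rw [bb_frame hSD hd1 hf hc h, DD_frame hSC hd hε hε1 hb hf hc h]
      have h3 : 0 ≤ wq (1 / 4) r := by unfold wq; positivity
      have h4 : DD b ε R s0 f (up r Q).1 (xC s0 (up r Q)) (e (up r Q)) =
        dC b ε R s0 f e (up r Q) := rfl
      rw [h4, add_zero]
      have h5 := mul_le_mul_of_nonneg_left h2 h3
      nlinarith
    refine (Finset.sum_le_sum fun r _ => h1 r).trans ?_
    rw [Finset.sum_add_distrib, Finset.sum_add_distrib, ← Finset.mul_sum, ← Finset.mul_sum,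
      ← Finset.mul_sum]
    have s1 := sum_le_sh hb0 hB2 Q 7 I
    have s2 := sum_le_sh hD0 hB1 Q 7 I
    have s3 := sum_le_sh hD0 hB1 Q 0 I
    have t1 : sh (fun P => dC b ε R s0 f e P) Q = dsh b ε R s0 f e Q := rfl
    have e0 : (2 : ℝ) ^ (((0 : ℕ) : ℝ) / 4) = 1 := by simp
    have e7 : (((7 : ℕ) : ℝ) / 4) = 7 / 4 := by norm_num
    rw [e0, one_mul] at s3
    rw [e7] at s1 s2
    have hp : (0 : ℝ) < (2 : ℝ) ^ ((7 : ℝ) / 4) := by positivity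
    have s1' := s1.trans (mul_le_mul_of_nonneg_left hle2 hp.le)
    have s2' := s2.trans (mul_le_mul_of_nonneg_left (t1.le.trans hle) hp.le)
    have s3' := s3.trans (t1.le.trans hle)
    have q1 := mul_le_mul_of_nonneg_left s1' hCP.le
    have q2 := mul_le_mul_of_nonneg_left s2' hCP.le
    have q3 := mul_le_mul_of_nonneg_left s3' (by linarith : 0 ≤ CP + 1)
    nlinarith
  · intro I
    have h1 : ∀ r : ℕ, wq (1 / 4) r *
        DD b ε R ((1 / 2) ^ Q.1) (rs (xC s0 Q) (lev s0 Q.1) f) (Q.1 + r)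
          (tw s0 Q (up r Q)) (e (up r Q)) =
        wq (1 / 4) r * dC b ε R s0 f e (up (r + 0) Q) := by
      intro r
      rw [DD_frame hSC hd hε hε1 hb hf hc h]
      rfl
    simp_rw [h1]
    have s3 := sum_le_sh hD0 hB1 Q 0 I
    have e0 : (2 : ℝ) ^ (((0 : ℕ) : ℝ) / 4) = 1 := by simp
    rw [e0, one_mul] at s3
    exact s3
  · intro r
    set P := up (r + 7) Q with hP
    rw [ht_frame_tw h, abs_div, abs_of_pos hl, div_le_iff₀ hl]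
    have h1 := ht_two (hν.unit P) (c P) (xC s0 (up r Q)) (xC s0 P)
    have h2 := hν.loc P
    have h3 := xC_up h 7 (up r Q)
    rw [up_up, up_fst, ← hP, norm_sub_rev] at h3
    have h4 : lev s0 P.1 = 2 ^ 7 * (2 ^ r * lev s0 Q.1) := by
      rw [hP, up_fst, lev_add, pow_add]
      ring
    have h5 : lev s0 (Q.1 + r + 7) = 2 ^ 7 * (2 ^ r * lev s0 Q.1) := by
      rw [lev_add, lev_add]
    rw [h4] at h2
    rw [h5] at h3
    have h6 : 0 < 2 ^ r * lev s0 Q.1 := by positivity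
    have h7 : (R0 + 1 + Real.sqrt d) * 2 ^ 7 * (2 ^ r * lev s0 Q.1) ≤
        4 * (64 * R0) * (2 ^ r * lev s0 Q.1) := by
      apply mul_le_mul_of_nonneg_right _ h6.le
      norm_num
      linarith
    nlinarith

end

end FR4

end TG
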