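import Pool.Agent.TG.TreeTS2

/-! light cells, abstract part of section 14' -/

open Set TrI
open scoped ENNReal Classical

namespace TG

noncomputable section

variable {d : ℕ}

/-- (14.1') -/
theorem lt_key1 {C0 w A g o θ r S SA SO : ℝ} (hC0 : 0 ≤ C0) (hw : 0 ≤ w) (hA : 0 ≤ A)
    (hg : 0 ≤ g) (ho : 0 ≤ o) (hθ : 0 ≤ θ) (hr : 0 ≤ r) (hS : 0 ≤ S)
    (h1 : S ^ 2 ≤ (θ * (r ^ 2 * A) * SA) * SO) (hSO0 : 0 ≤ SO)
    (hSA : SA ≤ C0 * (w * A + g)) (hSO : SO ≤ C0 * (w * o ^ 2)) :
    S ≤ r * (C0 * Real.sqrt θ * ((w * A + g) * o)) := by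
  have hR : 0 ≤ r * (C0 * Real.sqrt θ * ((w * A + g) * o)) := by positivity
  rw [← pow_le_pow_iff_left₀ hS hR (two_ne_zero)]
  have e2 : (r * (C0 * Real.sqrt θ * ((w * A + g) * o))) ^ 2
      = r ^ 2 * (C0 ^ 2 * θ * ((w * A + g) * o) ^ 2) := by
    have : Real.sqrt θ ^ 2 = θ := Real.sq_sqrt hθ
    calc (r * (C0 * Real.sqrt θ * ((w * A + g) * o))) ^ 2
        = r ^ 2 * (C0 ^ 2 * (Real.sqrt θ ^ 2) * ((w * A + g) * o) ^ 2) := by ring
      _ = _ := by rw [this]
  rw [e2]
  calc S ^ 2 ≤ (θ * (r ^ 2 * A) * SA) * SO := h1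
    _ ≤ (θ * (r ^ 2 * A) * (C0 * (w * A + g))) * (C0 * (w * o ^ 2)) := by gcongr
    _ = r ^ 2 * (C0 ^ 2 * θ * (((w * A) * (w * A + g)) * o ^ 2)) := by ring
    _ ≤ r ^ 2 * (C0 ^ 2 * θ * ((w * A + g) ^ 2 * o ^ 2)) := by
        have : (w * A) * (w * A + g) ≤ (w * A + g) ^ 2 := by
          have : 0 ≤ w * A := by positivity
          nlinarith
        gcongr
    _ = _ := by ring

theorem lt_key3 {C1 w A g θ r S SA SO om b D Y : ℝ} (hC1 : 0 ≤ C1) (hw : 0 ≤ w)
    (hg : 0 ≤ g) (hθ : 0 ≤ θ) (hr : 0 ≤ r) (hS : 0 ≤ S) (hom : 0 ≤ om) (hb : 0 ≤ b) (hD : 0 ≤ D)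
    (hY : 0 ≤ Y) (hSO0 : 0 ≤ A * SO)
    (h1 : S ^ 2 ≤ (θ * (r ^ 2 * A) * SA) * SO)
    (hSA : SA ≤ C1 * (w * (b + D) + g)) (hSO : A * SO ≤ C1 * (w * om * Y)) :
    S ≤ r * (C1 * Real.sqrt θ * (w * (Y + b * om) + om * (w * D + g))) := by
  have hR : 0 ≤ r * (C1 * Real.sqrt θ * (w * (Y + b * om) + om * (w * D + g))) := by positivity
  rw [← pow_le_pow_iff_left₀ hS hR (two_ne_zero)]
  have e2 : (r * (C1 * Real.sqrt θ * (w * (Y + b * om) + om * (w * D + g)))) ^ 2
      = r ^ 2 * (C1 ^ 2 * θ * (w * (Y + b * om) + om * (w * D + g)) ^ 2) := by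
    have : Real.sqrt θ ^ 2 = θ := Real.sq_sqrt hθ
    calc (r * (C1 * Real.sqrt θ * (w * (Y + b * om) + om * (w * D + g)))) ^ 2
        = r ^ 2 * (C1 ^ 2 * (Real.sqrt θ ^ 2) * (w * (Y + b * om) + om * (w * D + g)) ^ 2) := by
          ring
      _ = _ := by rw [this]
  rw [e2]
  calc S ^ 2 ≤ (θ * (r ^ 2 * A) * SA) * SO := h1
    _ = θ * r ^ 2 * SA * (A * SO) := by ring
    _ ≤ θ * r ^ 2 * (C1 * (w * (b + D) + g)) * (C1 * (w * om * Y)) := by gcongr
    _ = r ^ 2 * (C1 ^ 2 * θ * ((w * Y) * (om * (w * (b + D) + g)))) := by ring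
    _ ≤ r ^ 2 * (C1 ^ 2 * θ * (w * (Y + b * om) + om * (w * D + g)) ^ 2) := by
        have i1 : (w * Y) * (om * (w * (b + D) + g)) ≤
            (w * (Y + b * om) + om * (w * D + g)) ^ 2 := by
          have x0 : 0 ≤ w * Y := by positivity
          have y0 : 0 ≤ om * (w * (b + D) + g) := by positivity
          have e : w * (Y + b * om) + om * (w * D + g)
              = w * Y + om * (w * (b + D) + g) := by ring
          rw [e]
          nlinarith [mul_nonneg x0 y0, sq_nonneg (w * Y), sq_nonneg (om * (w * (b + D) + g))]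
        gcongr

theorem stmtLT : StmtLT := by
  intro d C0 C1 γ m hd hC1 hγ hγ8
  have hr1 : (2 : ℝ) ^ (-(γ / 2)) < 1 := Real.rpow_lt_one_of_one_lt_of_neg (by norm_num)
    (by linarith)
  set r : ℝ := (2 : ℝ) ^ (-(γ / 2)) with hr
  have hr0 : 0 < r := by positivity
  obtain ⟨Cg, hCg, gen⟩ := gen_sum r hr0 hr1
  obtain ⟨C2, hC2, ts2⟩ := stmtTS2 d C0 γ hd hγ hγ8
  by_cases hC0 : 1 ≤ C0
  swap
  · refine ⟨1, one_pos, ?_⟩
    intro κ θ δ _ _ _ _ _ _
    refine ⟨1, one_pos, ?_⟩
    intro s0 tot a at' al ah D oml omp om b Y TG G hT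
    exact absurd hT.C0_one hC0
  have hC0' : 0 < C0 := by linarith
  set N : ℝ := ((2 : ℝ) ^ m) ^ d with hN
  have hN0 : 0 < N := by positivity
  have hNc : (((2 ^ m) ^ d : ℕ) : ℝ≥0∞) = ENNReal.ofReal N := by
    rw [hN, ← ENNReal.ofReal_natCast]
    push_cast
    rfl
  refine ⟨Cg * (C0 ^ 2 * N + C1) + 1, by positivity, ?_⟩
  intro κ θ δ hκ hκ1 hθ hθ1 hδ hδ1
  -- constants of the payable part
  set c5 : ℝ := C0 ^ 3 / δ + 2 * C0 ^ 2 * (C2 * (2 * C0) / (δ / C0)) + C1 * C0 * (N * C0)
    + (C0 ^ 2 + C1 * C0) * C0 with hc5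
  refine ⟨Cg * c5 + 1, by positivity, ?_⟩
  intro s0 tot a at' al ah D oml omp om b Y TG G hT hal hal2 hah hb hY hom homC hTG homp hTGs
    htail hIII
  have htn := hT.tot_nonneg
  have hsθ1 : Real.sqrt θ ≤ 1 := by
    rw [show (1 : ℝ) = Real.sqrt 1 by simp]
    exact Real.sqrt_le_sqrt hθ1
  -- the class I2
  set S2 : Set (Cell d) := {P | (∀ l : ℕ, at' (up l P) ≤ (2 : ℝ) ^ (γ * l) * at' P) ∧
    TG P ≤ δ * at' P ∧ ∃ l : ℕ, δ * (2 : ℝ) ^ ((l : ℝ) / 8) * at' P ≤ D (up l P)} with hS2
  have hS2a : ∀ P ∈ S2, at' P ≤ 2 * C0 * a P := by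
    intro P hP
    have h1 := htail P hP.1
    have h2 := hP.2.1
    have h3 : C0 * TG P ≤ C0 * (δ * at' P) := by gcongr
    have h4 : C0 * (δ * at' P) ≤ 1 / 2 * at' P := by
      have := hT.at_nonneg P
      nlinarith
    nlinarith
  have hI2 : cs S2 (fun P => cw s0 P * at' P * omp P) ≤
      ENNReal.ofReal (2 * C0 * (C2 * (2 * C0) / (δ / C0) * tot)) := by
    calc cs S2 (fun P => cw s0 P * at' P * omp P)
        ≤ cs S2 (fun P => (2 * C0) * (cw s0 P * a P * omp P)) := by
          apply cs_mono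
          intro P hP
          have h1 := hS2a P hP
          have h2 := cw_nonneg hT.s0_pos P
          have h3 := hT.omp_nonneg P
          calc cw s0 P * at' P * omp P ≤ cw s0 P * (2 * C0 * a P) * omp P := by gcongr
            _ = _ := by ring
      _ = ENNReal.ofReal (2 * C0) * cs S2 (fun P => cw s0 P * a P * omp P) :=
          cs_mul (by positivity) _
      _ ≤ ENNReal.ofReal (2 * C0) * ENNReal.ofReal (C2 * (2 * C0) / (δ / C0) * tot) := by
          refine mul_le_mul_right ?_ _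
          apply ts2 s0 tot (2 * C0) (δ / C0) a at' D oml omp omp G S2 (by linarith)
            (by positivity) ?_ hT hT.omp_nonneg hT.T3
          · intro Q hQ i
            have h1 := hS2a Q hQ
            have h2 : (0 : ℝ) < (2 : ℝ) ^ (γ * i) := by positivity
            calc at' (up i Q) ≤ (2 : ℝ) ^ (γ * i) * at' Q := hQ.1 i
              _ ≤ (2 : ℝ) ^ (γ * i) * (2 * C0 * a Q) := by gcongr
              _ = _ := by ring
          · intro Q hQ
            obtain ⟨l, hl⟩ := hQ.2.2
            refine ⟨l, le_trans ?_ hl⟩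
            have h1 := hT.a_le Q
            have h2 : (0 : ℝ) < (2 : ℝ) ^ ((l : ℝ) / 8) := by positivity
            calc δ / C0 * (2 : ℝ) ^ ((l : ℝ) / 8) * a Q
                ≤ δ / C0 * (2 : ℝ) ^ ((l : ℝ) / 8) * (C0 * at' Q) := by gcongr
              _ = _ := by field_simp
          · rw [div_le_one hC0']
            nlinarith
      _ = _ := by rw [← ENNReal.ofReal_mul (by positivity)]
  set III := CIII γ κ δ m at' D b TG with hIIIdef
  have hFn : ∀ Q, 0 ≤ cw s0 Q * al Q * oml Q := fun Q =>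
    mul_nonneg (mul_nonneg (cw_nonneg hT.s0_pos Q) (hal Q)) (hT.oml_nonneg Q)
  -- split over the generation of the top
  have hW : WL γ θ ah at' = ⋃ i, {Q | Top γ θ ah at' i Q} := by
    ext Q; simp [WL]
  rw [hW]
  refine (cs_iUnion _ _).trans ?_
  -- the bound of one generation
  set X : ℝ≥0∞ := ENNReal.ofReal (C0 ^ 2 * N * (Real.sqrt θ / κ)) *
      cs univ (fun P => cw s0 P * b P * oml P)
    + ENNReal.ofReal (C1 * Real.sqrt θ) *
      cs III (fun P => cw s0 P * (Y P + b (up m P) * om P)) with hX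
  have hgen := gen X (c5 * tot) (fun i => cs {Q | Top γ θ ah at' i Q}
    (fun Q => cw s0 Q * al Q * oml Q)) (by positivity) ?_
  · refine hgen.trans ?_
    rw [hX, mul_add, ← mul_assoc, ← mul_assoc, ← ENNReal.ofReal_mul (by positivity),
      ← ENNReal.ofReal_mul (by positivity)]
    refine add_le_add (add_le_add ?_ ?_) ?_
    · refine mul_le_mul_left (ENNReal.ofReal_le_ofReal ?_) _
      have : 0 ≤ Real.sqrt θ / κ := by positivity
      calc Cg * (C0 ^ 2 * N * (Real.sqrt θ / κ)) ≤
          (Cg * (C0 ^ 2 * N + C1) + 1) * (Real.sqrt θ / κ) := by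
            have h2 : 0 ≤ (Cg * C1 + 1) * (Real.sqrt θ / κ) := by positivity
            nlinarith
        _ = _ := by ring
    · refine mul_le_mul_left (ENNReal.ofReal_le_ofReal ?_) _
      have h2 : 0 ≤ (Cg * (C0 ^ 2 * N) + 1) * Real.sqrt θ := by positivity
      nlinarith
    · apply ENNReal.ofReal_le_ofReal
      nlinarith
  intro i
  -- pointwise majorant
  set H : Cell d → ℝ≥0∞ := fun P =>
    ENNReal.ofReal (r ^ i) *
      (ENNReal.ofReal (C0 ^ 2 * (Real.sqrt θ / κ)) *
          ENNReal.ofReal (cw s0 (up m P) * b (up m P) * oml (up m P))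
        + ENNReal.ofReal (C1 * Real.sqrt θ) *
          III.indicator (fun P => ENNReal.ofReal (cw s0 P * (Y P + b (up m P) * om P))) P
        + ENNReal.ofReal (C0 ^ 2 / δ) * ENNReal.ofReal (cw s0 P * TG P)
        + ENNReal.ofReal C0 * S2.indicator
          (fun P => ENNReal.ofReal (cw s0 P * at' P * omp P)) P
        + ENNReal.ofReal (C1 * C0) * ENNReal.ofReal (cw s0 (up m P) * D (up m P))
        + ENNReal.ofReal (C0 ^ 2 + C1 * C0) * ENNReal.ofReal (G i P)) with hH
  refine (cs_fiber_le hFn i H ?_).trans ?_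
  · intro P hP Nf hNsub hNT
    rcases Nf.eq_empty_or_nonempty with hE | ⟨Q0, hQ0⟩
    · rw [hE, Finset.sum_empty, ENNReal.ofReal_zero]
      exact zero_le
    have hup : ∀ Q ∈ Nf, up i Q = P := fun Q hQ => (mem_dn hP).1 (hNsub hQ)
    have hw := cw_nonneg hT.s0_pos P
    have hgrow : ∀ l : ℕ, at' (up l P) ≤ (2 : ℝ) ^ (γ * l) * at' P := by
      intro l
      have h1 := (hNT Q0 hQ0).1 (i + l)
      rw [← up_up, hup Q0 hQ0] at h1
      have e1 : (2 : ℝ) ^ (-(γ * ((i + l : ℕ) : ℝ))) = (2 : ℝ) ^ (-(γ * i)) * (2 : ℝ) ^ (-(γ * l)) := by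
        rw [← Real.rpow_add (by norm_num)]
        congr 1; push_cast; ring
      rw [e1, mul_assoc] at h1
      have h2 := le_of_mul_le_mul_left h1 (by positivity)
      have e2 : (2 : ℝ) ^ (γ * l) * (2 : ℝ) ^ (-(γ * l)) = 1 := by
        rw [← Real.rpow_add (by norm_num)]
        simp
      calc at' (up l P) = (2 : ℝ) ^ (γ * l) * ((2 : ℝ) ^ (-(γ * l)) * at' (up l P)) := by
            rw [← mul_assoc, e2, one_mul]
        _ ≤ _ := by gcongr
    set S := ∑ Q ∈ Nf, cw s0 Q * al Q * oml Q with hS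
    set SA := ∑ Q ∈ Nf, cw s0 Q * al Q with hSA
    set SO := ∑ Q ∈ Nf, cw s0 Q * oml Q ^ 2 with hSO
    have hS0 : 0 ≤ S := Finset.sum_nonneg (fun Q _ => hFn Q)
    have hSA0 : 0 ≤ SA := Finset.sum_nonneg (fun Q _ =>
      mul_nonneg (cw_nonneg hT.s0_pos Q) (hal Q))
    have hSO0 : 0 ≤ SO := Finset.sum_nonneg (fun Q _ =>
      mul_nonneg (cw_nonneg hT.s0_pos Q) (sq_nonneg _))
    have er : (r ^ i) ^ 2 = (2 : ℝ) ^ (-(γ * i)) := by
      rw [hr, ← pow_mul, ← Real.rpow_natCast, ← Real.rpow_mul (by norm_num)]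
      congr 1; push_cast; ring
    have hmax : ∀ Q ∈ Nf, al Q ≤ θ * ((r ^ i) ^ 2 * at' P) := by
      intro Q hQ
      have h1 := (hNT Q hQ).2
      rw [hup Q hQ] at h1
      rw [er]
      exact (hal2 Q).trans h1
    have h1 : S ^ 2 ≤ (θ * ((r ^ i) ^ 2 * at' P) * SA) * SO := by
      refine (cauchy_w2 Nf (cw s0) al oml (fun Q _ => cw_nonneg hT.s0_pos Q)).trans ?_
      apply mul_le_mul_of_nonneg_right _ hSO0
      rw [hSA, Finset.mul_sum]
      apply Finset.sum_le_sum
      intro Q hQ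
      have h2 := hmax Q hQ
      have h3 := cw_nonneg hT.s0_pos Q
      have h4 := hal Q
      calc cw s0 Q * al Q ^ 2 = al Q * (cw s0 Q * al Q) := by ring
        _ ≤ _ := mul_le_mul_of_nonneg_right h2 (by positivity)
    have hSAa : SA ≤ C0 * (cw s0 P * at' P + G i P) := by
      refine le_trans ?_ (hT.T1 i P hP)
      refine le_trans (Finset.sum_le_sum (fun Q _ => mul_le_mul_of_nonneg_left
        ((hal2 Q).trans (hah Q)) (cw_nonneg hT.s0_pos Q))) ?_
      apply Finset.sum_le_sum_of_subset_of_nonneg hNsub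
      intro Q _ _
      exact mul_nonneg (cw_nonneg hT.s0_pos Q) (hT.a_nonneg Q)
    have hSOa : SO ≤ C0 * (cw s0 P * omp P ^ 2) := by
      refine le_trans ?_ (hT.T2 i P hP)
      apply Finset.sum_le_sum_of_subset_of_nonneg hNsub
      intro Q _ _
      exact mul_nonneg (cw_nonneg hT.s0_pos Q) (sq_nonneg _)
    have hA := hT.at_nonneg P
    have hG := hT.G_nonneg i P
    have hop := hT.omp_nonneg P
    have hopC := hT.omp_le P
    have hri : 0 ≤ r ^ i := by positivity
    have key1 := lt_key1 (C0 := C0) (w := cw s0 P) (A := at' P) (g := G i P) (o := omp P) (θ := θ)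
      (r := r ^ i) (S := S) (SA := SA) (SO := SO) hC0'.le hw hA hG hop hθ.le hri hS0 h1 hSO0
      hSAa hSOa
    have hbu := hb (up m P)
    have hou := hT.oml_nonneg (up m P)
    have hDu := hT.D_nonneg (up m P)
    have hwu := cw_up hT.s0_pos m P
    have hwu0 := cw_nonneg hT.s0_pos (up m P)
    have hYP := hY P
    have homP := hom P
    have homPC := homC P
    have hTGP := hTG P
    rw [hH]
    simp only
    have hfin : ∀ (x y z : ℝ), 0 ≤ x → 0 ≤ y → S ≤ r ^ i * (x + y * G i P) →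
        y ≤ C0 ^ 2 + C1 * C0 → ∀ Z : ℝ≥0∞, ENNReal.ofReal x ≤ Z →
        ENNReal.ofReal S ≤ ENNReal.ofReal (r ^ i) *
          (Z + ENNReal.ofReal (C0 ^ 2 + C1 * C0) * ENNReal.ofReal (G i P)) := by
      intro x y z hx hy hS1 hyC Z hZ
      calc ENNReal.ofReal S ≤ ENNReal.ofReal (r ^ i * (x + y * G i P)) :=
            ENNReal.ofReal_le_ofReal hS1
        _ = ENNReal.ofReal (r ^ i) * (ENNReal.ofReal x + ENNReal.ofReal (y * G i P)) := by
            rw [ENNReal.ofReal_mul (by positivity), ENNReal.ofReal_add hx (by positivity)]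
        _ ≤ _ := by
            refine mul_le_mul_right (add_le_add hZ ?_) _
            rw [← ENNReal.ofReal_mul (by positivity)]
            apply ENNReal.ofReal_le_ofReal
            gcongr
    by_cases hI1 : TG P ≤ δ * at' P
    swap
    · -- class I, tails
      rw [not_le] at hI1
      have hb1 : cw s0 P * at' P ≤ cw s0 P * TG P / δ := by
        rw [le_div_iff₀ hδ]
        nlinarith
      apply hfin (C0 ^ 2 / δ * (cw s0 P * TG P)) (C0 ^ 2) 0 (by positivity) (by positivity)
      · refine key1.trans ?_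
        have h3 : C0 * Real.sqrt θ * ((cw s0 P * at' P + G i P) * omp P) ≤
            C0 * 1 * ((cw s0 P * TG P / δ + G i P) * C0) := by gcongr
        calc r ^ i * (C0 * Real.sqrt θ * ((cw s0 P * at' P + G i P) * omp P))
            ≤ r ^ i * (C0 * 1 * ((cw s0 P * TG P / δ + G i P) * C0)) := by gcongr
          _ = _ := by ring
      · nlinarith
      · rw [ENNReal.ofReal_mul (by positivity)]
        calc ENNReal.ofReal (C0 ^ 2 / δ) * ENNReal.ofReal (cw s0 P * TG P)
            = 0 + 0 + ENNReal.ofReal (C0 ^ 2 / δ) * ENNReal.ofReal (cw s0 P * TG P) + 0 + 0 := by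
              simp
          _ ≤ _ := by gcongr <;> exact zero_le
    by_cases hI2 : ∃ l : ℕ, δ * (2 : ℝ) ^ ((l : ℝ) / 8) * at' P ≤ D (up l P)
    · -- class I, defect
      have hmem : P ∈ S2 := ⟨hgrow, hI1, hI2⟩
      apply hfin (C0 * (cw s0 P * at' P * omp P)) (C0 ^ 2) 0 (by positivity) (by positivity)
      · refine key1.trans ?_
        have h3 : C0 * Real.sqrt θ * ((cw s0 P * at' P + G i P) * omp P) ≤
            C0 * 1 * ((cw s0 P * at' P + G i P) * omp P) := by gcongr
        have h4 : G i P * omp P ≤ G i P * C0 := by gcongr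
        calc r ^ i * (C0 * Real.sqrt θ * ((cw s0 P * at' P + G i P) * omp P))
            ≤ r ^ i * (C0 * 1 * ((cw s0 P * at' P + G i P) * omp P)) := by gcongr
          _ = r ^ i * (C0 * (cw s0 P * at' P * omp P) + C0 * (G i P * omp P)) := by ring
          _ ≤ r ^ i * (C0 * (cw s0 P * at' P * omp P) + C0 * (G i P * C0)) := by gcongr
          _ = _ := by ring
      · nlinarith
      · rw [ENNReal.ofReal_mul (by positivity)]
        simp only [hmem, indicator_of_mem]
        calc ENNReal.ofReal C0 * ENNReal.ofReal (cw s0 P * at' P * omp P)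
            = 0 + 0 + 0 + ENNReal.ofReal C0 * ENNReal.ofReal (cw s0 P * at' P * omp P) + 0 := by
              simp
          _ ≤ _ := by gcongr <;> exact zero_le
    have hI3 : ∀ l : ℕ, D (up l P) ≤ δ * (2 : ℝ) ^ ((l : ℝ) / 8) * at' P := by
      intro l
      by_contra hcon
      exact hI2 ⟨l, (not_le.1 hcon).le⟩
    by_cases hII : b (up m P) ≤ κ * at' P
    swap
    · -- class II
      rw [not_le] at hII
      have hb1 : cw s0 P * at' P ≤ cw s0 (up m P) * b (up m P) / κ := by
        rw [le_div_iff₀ hκ]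
        calc cw s0 P * at' P * κ = cw s0 P * (κ * at' P) := by ring
          _ ≤ cw s0 (up m P) * b (up m P) := by gcongr
      apply hfin (C0 ^ 2 * (Real.sqrt θ / κ) * (cw s0 (up m P) * b (up m P) * oml (up m P)))
        (C0 ^ 2) 0 (by positivity) (by positivity)
      · refine key1.trans ?_
        have h5 : (cw s0 P * at' P + G i P) * omp P ≤
            cw s0 (up m P) * b (up m P) / κ * (C0 * oml (up m P)) + G i P * C0 := by
          calc (cw s0 P * at' P + G i P) * omp P = cw s0 P * at' P * omp P + G i P * omp P := by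
                ring
            _ ≤ _ := by
              gcongr
              exact homp P
        have h6 : Real.sqrt θ * (G i P * C0) ≤ 1 * (G i P * C0) := by gcongr
        calc r ^ i * (C0 * Real.sqrt θ * ((cw s0 P * at' P + G i P) * omp P))
            ≤ r ^ i * (C0 * Real.sqrt θ * (cw s0 (up m P) * b (up m P) / κ *
                (C0 * oml (up m P)) + G i P * C0)) := by gcongr
          _ = r ^ i * (C0 ^ 2 * (Real.sqrt θ / κ) * (cw s0 (up m P) * b (up m P) * oml (up m P))
                + C0 * (Real.sqrt θ * (G i P * C0))) := by ring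
          _ ≤ r ^ i * (C0 ^ 2 * (Real.sqrt θ / κ) * (cw s0 (up m P) * b (up m P) * oml (up m P))
                + C0 * (1 * (G i P * C0))) := by gcongr
          _ = _ := by ring
      · nlinarith
      · rw [ENNReal.ofReal_mul (by positivity)]
        calc ENNReal.ofReal (C0 ^ 2 * (Real.sqrt θ / κ)) *
              ENNReal.ofReal (cw s0 (up m P) * b (up m P) * oml (up m P))
            = ENNReal.ofReal (C0 ^ 2 * (Real.sqrt θ / κ)) *
              ENNReal.ofReal (cw s0 (up m P) * b (up m P) * oml (up m P)) + 0 + 0 + 0 + 0 := by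
              simp
          _ ≤ _ := by gcongr <;> exact zero_le
    rcases hA.lt_or_eq with hA' | hA'
    swap
    · -- no mass at all
      have hS00 : S ≤ 0 := by
        refine (Finset.sum_nonpos ?_)
        intro Q hQ
        have h2 := hmax Q hQ
        rw [← hA', mul_zero, mul_zero] at h2
        have h3 : al Q = 0 := le_antisymm h2 (hal Q)
        rw [h3]; simp
      rw [ENNReal.ofReal_of_nonpos hS00]
      exact zero_le
    -- class III
    have hmem : P ∈ III := ⟨hA', hgrow, hI1, hI3, hII⟩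
    obtain ⟨h31, h32⟩ := hIII P hmem i Nf hP hNsub hNT
    have key3 := lt_key3 (C1 := C1) (w := cw s0 P) (A := at' P) (g := G i P) (θ := θ)
      (r := r ^ i) (S := S) (SA := SA) (SO := SO) (om := om P) (b := b (up m P))
      (D := D (up m P)) (Y := Y P) hC1 hw hG hθ.le hri hS0 homP hbu hDu hYP (by positivity) h1
      h31 h32
    apply hfin (C1 * Real.sqrt θ * (cw s0 P * (Y P + b (up m P) * om P))
      + C1 * C0 * (cw s0 (up m P) * D (up m P))) (C1 * C0) 0 (by positivity) (by positivity)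
    · refine key3.trans ?_
      have h5 : om P * (cw s0 P * D (up m P) + G i P) ≤
          C0 * (cw s0 (up m P) * D (up m P) + G i P) := by gcongr
      have h6 : Real.sqrt θ * (C0 * (cw s0 (up m P) * D (up m P) + G i P)) ≤
          1 * (C0 * (cw s0 (up m P) * D (up m P) + G i P)) := by gcongr
      calc r ^ i * (C1 * Real.sqrt θ * (cw s0 P * (Y P + b (up m P) * om P)
            + om P * (cw s0 P * D (up m P) + G i P)))
          ≤ r ^ i * (C1 * Real.sqrt θ * (cw s0 P * (Y P + b (up m P) * om P)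
            + C0 * (cw s0 (up m P) * D (up m P) + G i P))) := by gcongr
        _ = r ^ i * (C1 * Real.sqrt θ * (cw s0 P * (Y P + b (up m P) * om P))
            + C1 * (Real.sqrt θ * (C0 * (cw s0 (up m P) * D (up m P) + G i P)))) := by ring
        _ ≤ r ^ i * (C1 * Real.sqrt θ * (cw s0 P * (Y P + b (up m P) * om P))
            + C1 * (1 * (C0 * (cw s0 (up m P) * D (up m P) + G i P)))) := by gcongr
        _ = _ := by ring
    · nlinarith
    · rw [ENNReal.ofReal_add (by positivity) (by positivity), ENNReal.ofReal_mul (by positivity),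
        ENNReal.ofReal_mul (p := C1 * C0) (by positivity)]
      simp only [hmem, indicator_of_mem]
      calc _ = 0 + ENNReal.ofReal (C1 * Real.sqrt θ) *
              ENNReal.ofReal (cw s0 P * (Y P + b (up m P) * om P)) + 0 + 0 +
              ENNReal.ofReal (C1 * C0) * ENNReal.ofReal (cw s0 (up m P) * D (up m P)) := by
              simp
        _ ≤ _ := by gcongr <;> exact zero_le
  · -- summation over P
    rw [hH, ENNReal.tsum_mul_left]
    refine mul_le_mul_right ?_ _
    rw [ENNReal.tsum_add, ENNReal.tsum_add, ENNReal.tsum_add, ENNReal.tsum_add, ENNReal.tsum_add,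
      ENNReal.tsum_mul_left, ENNReal.tsum_mul_left, ENNReal.tsum_mul_left, ENNReal.tsum_mul_left,
      ENNReal.tsum_mul_left, ENNReal.tsum_mul_left, ← cs_univ (fun P => cw s0 P * TG P),
      ← cs_univ (G i)]
    have e1 : ∀ F : Cell d → ℝ, ∑' P, ENNReal.ofReal (F (up m P)) ≤
        ENNReal.ofReal N * cs univ F := by
      intro F
      rw [cs_univ, ← hNc]
      exact tsum_comp_up (fun Q => ENNReal.ofReal (F Q)) m
    have eb := e1 (fun P => cw s0 P * b P * oml P)
    have eD := (e1 (fun P => cw s0 P * D P)).trans (mul_le_mul_right hT.D_sum _)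
    have hi0 : (0 : ℝ) ≤ i := Nat.cast_nonneg i
    calc _ ≤ ENNReal.ofReal (C0 ^ 2 * (Real.sqrt θ / κ)) *
            (ENNReal.ofReal N * cs univ (fun P => cw s0 P * b P * oml P))
          + ENNReal.ofReal (C1 * Real.sqrt θ) *
            cs III (fun P => cw s0 P * (Y P + b (up m P) * om P))
          + ENNReal.ofReal (C0 ^ 2 / δ) * ENNReal.ofReal (C0 * tot)
          + ENNReal.ofReal C0 * ENNReal.ofReal (2 * C0 * (C2 * (2 * C0) / (δ / C0) * tot))
          + ENNReal.ofReal (C1 * C0) * (ENNReal.ofReal N * ENNReal.ofReal (C0 * tot))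
          + ENNReal.ofReal (C0 ^ 2 + C1 * C0) * ENNReal.ofReal (C0 * (i + 1) * tot) := by
          gcongr
          · exact le_rfl
          · exact hI2
          · exact hT.G_sum i
      _ = X + ENNReal.ofReal (C0 ^ 2 / δ * (C0 * tot)
          + C0 * (2 * C0 * (C2 * (2 * C0) / (δ / C0) * tot))
          + C1 * C0 * (N * (C0 * tot)) + (C0 ^ 2 + C1 * C0) * (C0 * (i + 1) * tot)) := by
          rw [hX, ← mul_assoc, ← ENNReal.ofReal_mul (by positivity),
            ← ENNReal.ofReal_mul (by positivity), ← ENNReal.ofReal_mul (by positivity),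
            ← ENNReal.ofReal_mul (by positivity), ← ENNReal.ofReal_mul (by positivity),
            ← ENNReal.ofReal_mul (by positivity),
            ENNReal.ofReal_add (by positivity) (by positivity),
            ENNReal.ofReal_add (by positivity) (by positivity),
            ENNReal.ofReal_add (by positivity) (by positivity)]
          have : C0 ^ 2 * (Real.sqrt θ / κ) * N = C0 ^ 2 * N * (Real.sqrt θ / κ) := by ring
          rw [this]
          ring
      _ ≤ _ := by
          refine add_le_add le_rfl ?_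
          apply ENNReal.ofReal_le_ofReal
          have p1 : 0 ≤ C0 ^ 3 / δ * tot := by positivity
          have p2 : 0 ≤ 2 * C0 ^ 2 * (C2 * (2 * C0) / (δ / C0)) * tot := by positivity
          have p3 : 0 ≤ C1 * C0 * (N * C0) * tot := by positivity
          have p4 : 0 ≤ (C0 ^ 2 + C1 * C0) * C0 * tot := by positivity
          have e : C0 ^ 2 / δ * (C0 * tot) + C0 * (2 * C0 * (C2 * (2 * C0) / (δ / C0) * tot))
              + C1 * C0 * (N * (C0 * tot)) + (C0 ^ 2 + C1 * C0) * (C0 * (i + 1) * tot)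
              = C0 ^ 3 / δ * tot + 2 * C0 ^ 2 * (C2 * (2 * C0) / (δ / C0)) * tot
                + C1 * C0 * (N * C0) * tot + (i + 1) * ((C0 ^ 2 + C1 * C0) * C0 * tot) := by
            ring
          rw [e, hc5]
          nlinarith [mul_nonneg hi0 p1, mul_nonneg hi0 p2, mul_nonneg hi0 p3, mul_nonneg hi0 p4]

end

end TG
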