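import Pool.Agent.TG.TreeDefs2
import Pool.Agent.TG.Tree0

/-! summation of the local inequalities -/

open Set TrI
open scoped ENNReal Classical

namespace TG

noncomputable section

variable {d : ℕ}

/-- cells whose box neighbourhood contains Q' -/
def rbox (J ρ : ℕ) (Q' : Cell d) : Finset (Cell d) :=
  (Finset.range (J + 1)).biUnion fun i => ({Q'.1 - i} : Finset ℕ) ×ˢ
    Fintype.piFinset fun j => Finset.Ico (2 ^ i * (Q'.2 j - ρ)) (2 ^ i * (Q'.2 j + ρ + 1))

theorem mem_rbox {J ρ : ℕ} {Q Q' : Cell d} (h : Q' ∈ box J ρ Q) : Q ∈ rbox J ρ Q' := by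
  simp only [box, Finset.mem_biUnion, Finset.mem_range, Finset.mem_product, Finset.mem_singleton,
    Fintype.mem_piFinset, Finset.mem_Icc] at h
  obtain ⟨i, hi, h1, h2⟩ := h
  simp only [rbox, Finset.mem_biUnion, Finset.mem_range, Finset.mem_product, Finset.mem_singleton,
    Fintype.mem_piFinset, Finset.mem_Ico]
  refine ⟨i, hi, by omega, ?_⟩
  intro j
  have h3 := h2 j
  have hp : (0 : ℤ) < 2 ^ i := by positivity
  have h6 := Int.mul_ediv_add_emod (Q.2 j) (2 ^ i)
  have h7 := Int.emod_nonneg (Q.2 j) hp.ne'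
  have h8 := Int.emod_lt_of_pos (Q.2 j) hp
  constructor
  · nlinarith [h3.2]
  · nlinarith [h3.1]

theorem card_rbox (J ρ : ℕ) (Q' : Cell d) :
    (rbox J ρ Q').card ≤ (J + 1) * (2 ^ J * (2 * ρ + 1)) ^ d := by
  unfold rbox
  refine Finset.card_biUnion_le.trans ?_
  calc ∑ i ∈ Finset.range (J + 1), (({Q'.1 - i} : Finset ℕ) ×ˢ
        Fintype.piFinset fun j => Finset.Ico (2 ^ i * (Q'.2 j - ρ))
          (2 ^ i * (Q'.2 j + ρ + 1))).card
      ≤ ∑ _i ∈ Finset.range (J + 1), (2 ^ J * (2 * ρ + 1)) ^ d := by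
        apply Finset.sum_le_sum
        intro i hi
        have hi' : i ≤ J := by
          have := Finset.mem_range.1 hi; omega
        rw [Finset.card_product, Finset.card_singleton, one_mul, Fintype.card_piFinset]
        have e : ∀ j : Fin d, (Finset.Ico (2 ^ i * (Q'.2 j - ρ)) (2 ^ i * (Q'.2 j + ρ + 1))).card
            = 2 ^ i * (2 * ρ + 1) := by
          intro j
          rw [Int.card_Ico]
          have : (2 : ℤ) ^ i * (Q'.2 j + ρ + 1) - 2 ^ i * (Q'.2 j - ρ) =
              ((2 ^ i * (2 * ρ + 1) : ℕ) : ℤ) := by push_cast; ring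
          rw [this, Int.toNat_natCast]
        rw [Finset.prod_congr rfl (fun j _ => e j), Finset.prod_const, Finset.card_univ,
          Fintype.card_fin]
        apply Nat.pow_le_pow_left
        apply Nat.mul_le_mul_right
        exact Nat.pow_le_pow_right (by norm_num) hi'
    _ = _ := by rw [Finset.sum_const, Finset.card_range, smul_eq_mul]

theorem cw_mono {s0 : ℝ} (h : 0 < s0) {Q Q' : Cell d} (hQ : Q.1 ≤ Q'.1) : cw s0 Q ≤ cw s0 Q' := by
  unfold cw lev
  apply pow_le_pow_left₀ (by positivity)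
  apply mul_le_mul_of_nonneg_left _ h.le
  exact pow_le_pow_right₀ (by norm_num) hQ

theorem box_lev {J ρ : ℕ} {Q Q' : Cell d} (h : Q' ∈ box J ρ Q) : Q.1 ≤ Q'.1 := by
  simp only [box, Finset.mem_biUnion, Finset.mem_range, Finset.mem_product,
    Finset.mem_singleton] at h
  obtain ⟨i, hi, h1, h2⟩ := h
  omega

/-- sums over neighbourhoods -/
theorem nb_sum {s0 : ℝ} (hs0 : 0 < s0) {J ρ : ℕ} {nb : Cell d → Finset (Cell d)}
    (hnb : ∀ Q, nb Q ⊆ box J ρ Q) {g : Cell d → ℝ} (hg : ∀ Q, 0 ≤ g Q) :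
    cs univ (fun Q => cw s0 Q * ∑ Q' ∈ nb Q, g Q') ≤
      (((J + 1) * (2 ^ J * (2 * ρ + 1)) ^ d : ℕ) : ℝ≥0∞) * cs univ (fun Q => cw s0 Q * g Q) := by
  rw [cs_univ, cs_univ]
  calc ∑' Q, ENNReal.ofReal (cw s0 Q * ∑ Q' ∈ nb Q, g Q')
      ≤ ∑' Q, ∑' Q' : Cell d, if Q ∈ rbox J ρ Q' then ENNReal.ofReal (cw s0 Q' * g Q') else 0 := by
        apply ENNReal.tsum_le_tsum
        intro Q
        rw [Finset.mul_sum, ENNReal.ofReal_sum_of_nonneg
          (fun Q' _ => mul_nonneg (cw_nonneg hs0 Q) (hg Q'))]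
        refine le_trans ?_ (ENNReal.sum_le_tsum (nb Q))
        apply Finset.sum_le_sum
        intro Q' hQ'
        have h1 := hnb Q hQ'
        rw [if_pos (mem_rbox h1)]
        apply ENNReal.ofReal_le_ofReal
        exact mul_le_mul_of_nonneg_right (cw_mono hs0 (box_lev h1)) (hg Q')
    _ = ∑' Q' : Cell d, ∑' Q, if Q ∈ rbox J ρ Q' then ENNReal.ofReal (cw s0 Q' * g Q') else 0 :=
        ENNReal.tsum_comm
    _ ≤ ∑' Q' : Cell d, (((J + 1) * (2 ^ J * (2 * ρ + 1)) ^ d : ℕ) : ℝ≥0∞) *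
          ENNReal.ofReal (cw s0 Q' * g Q') := by
        apply ENNReal.tsum_le_tsum
        intro Q'
        rw [tsum_eq_sum (s := rbox J ρ Q') (fun Q hQ => if_neg hQ)]
        rw [Finset.sum_congr rfl (fun Q hQ => if_pos hQ), Finset.sum_const, nsmul_eq_mul]
        refine mul_le_mul_left ?_ _
        exact_mod_cast card_rbox J ρ Q'
    _ = _ := ENNReal.tsum_mul_left

/-- summation of one sided bounds -/
theorem ca_sum {N g err : Cell d → ℝ} {T : ℝ} (hN : Summable N) (hT : ∑' Q, N Q ≤ T)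
    (hg : ∀ Q, 0 ≤ g Q) (herr : ∀ Q, 0 ≤ err Q) (h : ∀ Q, g Q ≤ N Q + err Q) (hT0 : 0 ≤ T) :
    cs univ g ≤ ENNReal.ofReal T + cs univ err := by
  rw [cs_univ, cs_univ]
  by_cases he : Summable err
  · have hs : Summable (fun Q => N Q + err Q) := hN.add he
    have hgs : Summable g := Summable.of_nonneg_of_le hg h hs
    rw [← ENNReal.ofReal_tsum_of_nonneg hg hgs, ← ENNReal.ofReal_tsum_of_nonneg herr he,
      ← ENNReal.ofReal_add hT0 (tsum_nonneg herr)]
    apply ENNReal.ofReal_le_ofReal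
    calc ∑' Q, g Q ≤ ∑' Q, (N Q + err Q) := Summable.tsum_le_tsum h hgs hs
      _ = ∑' Q, N Q + ∑' Q, err Q := Summable.tsum_add hN he
      _ ≤ _ := by linarith
  · have : ∑' Q, ENNReal.ofReal (err Q) = ∞ := by
      by_contra hcon
      apply he
      have h1 := ENNReal.summable_toReal hcon
      refine h1.congr ?_
      intro Q
      rw [ENNReal.toReal_ofReal (herr Q)]
    rw [this]
    simp

theorem stmtMJ : StmtMJ := by
  intro d J ρ C1 c0 hd hC1 hc0
  set Mn : ℕ := (J + 1) * (2 ^ J * (2 * ρ + 1)) ^ d with hMn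
  have hMn1 : 1 ≤ Mn := by
    rw [hMn]
    exact Nat.one_le_iff_ne_zero.2 (by positivity)
  set M : ℝ := (Mn : ℝ) with hM
  have hM1 : 1 ≤ M := by rw [hM]; exact_mod_cast hMn1
  have hM0 : 0 < M := by linarith
  have hMe : ((Mn : ℕ) : ℝ≥0∞) = ENNReal.ofReal M := by rw [hM, ENNReal.ofReal_natCast]
  refine ⟨c0 / (2 * M), (4 * M ^ 2 * C1 / c0 + 2 * M) * (1 + C1), by positivity, by positivity, ?_⟩
  intro η2 CK Cs hη2 hCK hCs
  refine ⟨2 * M * C1 * (2 / c0) * (Cs + M * Cs * Cs) + 2 * M * Cs * Cs + 1, by positivity, ?_⟩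
  intro s0 tot nb Nt val cost sB pay iF fx fb S3 S4 hs0 htot hnb hval hcost hsB hpay hiF hP hNs
    hNt hQ1 hQ2 hpays hfin
  set V := cs univ (fun Q => cw s0 Q * val Q) with hV
  set Co := cs univ (fun Q => cw s0 Q * cost Q) with hCo
  set SB := cs univ (fun Q => cw s0 Q * sB Q) with hSB
  set IFs := cs univ (fun Q => cw s0 Q * iF Q) with hIF
  set Py := cs univ (fun Q => cw s0 Q * pay Q) with hPy
  have hsplit : ∀ c : ℝ, 0 ≤ c → cs univ (fun Q => cw s0 Q * (c * val Q + C1 * cost Q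
      + η2 * sB Q + CK * iF Q + Cs * pay Q)) = ENNReal.ofReal c * V + ENNReal.ofReal C1 * Co
        + ENNReal.ofReal η2 * SB + ENNReal.ofReal CK * IFs + ENNReal.ofReal Cs * Py := by
    intro c hc
    have e : (fun Q : Cell d => cw s0 Q * (c * val Q + C1 * cost Q
        + η2 * sB Q + CK * iF Q + Cs * pay Q)) = fun Q => c * (cw s0 Q * val Q)
        + C1 * (cw s0 Q * cost Q) + η2 * (cw s0 Q * sB Q) + CK * (cw s0 Q * iF Q)
        + Cs * (cw s0 Q * pay Q) := by
      funext Q; ring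
    have n1 : ∀ Q : Cell d, 0 ≤ c * (cw s0 Q * val Q) := fun Q => by
      have := cw_nonneg hs0 Q; have := hval Q; positivity
    have n2 : ∀ Q : Cell d, 0 ≤ C1 * (cw s0 Q * cost Q) := fun Q => by
      have := cw_nonneg hs0 Q; have := hcost Q; positivity
    have n3 : ∀ Q : Cell d, 0 ≤ η2 * (cw s0 Q * sB Q) := fun Q => by
      have := cw_nonneg hs0 Q; have := hsB Q; positivity
    have n4 : ∀ Q : Cell d, 0 ≤ CK * (cw s0 Q * iF Q) := fun Q => by
      have := cw_nonneg hs0 Q; have := hiF Q; positivity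
    have n5 : ∀ Q : Cell d, 0 ≤ Cs * (cw s0 Q * pay Q) := fun Q => by
      have := cw_nonneg hs0 Q; have := hpay Q; positivity
    rw [e, cs_add (fun Q _ => add_nonneg (add_nonneg (add_nonneg (n1 Q) (n2 Q)) (n3 Q)) (n4 Q))
      (fun Q _ => n5 Q), cs_add (fun Q _ => add_nonneg (add_nonneg (n1 Q) (n2 Q)) (n3 Q))
      (fun Q _ => n4 Q), cs_add (fun Q _ => add_nonneg (n1 Q) (n2 Q)) (fun Q _ => n3 Q),
      cs_add (fun Q _ => n1 Q) (fun Q _ => n2 Q), cs_mul hc, cs_mul hC1.le, cs_mul hη2,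
      cs_mul hCK, cs_mul hCs]
  have hgn : ∀ c : ℝ, 0 ≤ c → ∀ Q : Cell d, 0 ≤ c * val Q + C1 * cost Q
      + η2 * sB Q + CK * iF Q + Cs * pay Q := by
    intro c hc Q
    have := hval Q; have := hcost Q; have := hsB Q; have := hiF Q; have := hpay Q
    positivity
  set X : ℝ≥0∞ := ENNReal.ofReal C1 * Co + ENNReal.ofReal η2 * SB + ENNReal.ofReal CK * IFs
    with hX
  have hXc : ∀ c : ℝ, 0 ≤ c → cs univ (fun Q => cw s0 Q * ∑ Q' ∈ nb Q, (c * val Q' + C1 * cost Q'
      + η2 * sB Q' + CK * iF Q' + Cs * pay Q')) ≤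
      ENNReal.ofReal M * (ENNReal.ofReal c * V + X + ENNReal.ofReal (Cs * Cs * tot)) := by
    intro c hc
    refine (nb_sum hs0 hnb (hgn c hc)).trans ?_
    rw [hsplit c hc, ← hMn, hMe]
    refine mul_le_mul_right ?_ _
    rw [hX]
    have : ENNReal.ofReal Cs * Py ≤ ENNReal.ofReal (Cs * Cs * tot) := by
      calc ENNReal.ofReal Cs * Py ≤ ENNReal.ofReal Cs * ENNReal.ofReal (Cs * tot) :=
            mul_le_mul_right hpays _
        _ = _ := by rw [← ENNReal.ofReal_mul hCs, mul_assoc]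
    calc _ ≤ ENNReal.ofReal c * V + ENNReal.ofReal C1 * Co + ENNReal.ofReal η2 * SB +
          ENNReal.ofReal CK * IFs + ENNReal.ofReal (Cs * Cs * tot) := add_le_add le_rfl this
      _ = _ := by ring
  -- the main inequality
  have hmain : ENNReal.ofReal c0 * V ≤ ENNReal.ofReal (Cs * tot) +
      ENNReal.ofReal M * (ENNReal.ofReal (c0 / (2 * M)) * V + X +
        ENNReal.ofReal (Cs * Cs * tot)) := by
    refine le_trans ?_ (add_le_add le_rfl (hXc (c0 / (2 * M)) (by positivity)))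
    rw [hV, ← cs_mul hc0.le]
    exact ca_sum hNs (hNt.trans le_rfl) (fun Q => by
      have := cw_nonneg hs0 Q; have := hval Q; positivity)
      (fun Q => mul_nonneg (cw_nonneg hs0 Q) (Finset.sum_nonneg (fun Q' _ =>
        hgn _ (by positivity) Q'))) hP (by positivity)
  -- absorb
  have hVbound : V ≤ ENNReal.ofReal (2 / c0) * (ENNReal.ofReal (Cs * tot) +
      ENNReal.ofReal M * (X + ENNReal.ofReal (Cs * Cs * tot))) := by
    have e1 : ENNReal.ofReal M * (ENNReal.ofReal (c0 / (2 * M)) * V + X +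
        ENNReal.ofReal (Cs * Cs * tot)) = ENNReal.ofReal (c0 / 2) * V +
        ENNReal.ofReal M * (X + ENNReal.ofReal (Cs * Cs * tot)) := by
      have : ENNReal.ofReal M * (ENNReal.ofReal (c0 / (2 * M)) * V) =
          ENNReal.ofReal (c0 / 2) * V := by
        rw [← mul_assoc, ← ENNReal.ofReal_mul hM0.le]
        congr 2; field_simp
      rw [add_assoc, mul_add, this]
    rw [e1] at hmain
    have e2 : ENNReal.ofReal c0 * V = ENNReal.ofReal (c0 / 2) * V + ENNReal.ofReal (c0 / 2) * V := by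
      rw [← add_mul, ← ENNReal.ofReal_add (by positivity) (by positivity)]
      congr 2; ring
    have hVt : ENNReal.ofReal (c0 / 2) * V ≠ ∞ := ENNReal.mul_ne_top ENNReal.ofReal_ne_top hfin.ne
    have h5 : ENNReal.ofReal (c0 / 2) * V ≤ ENNReal.ofReal (Cs * tot) +
        ENNReal.ofReal M * (X + ENNReal.ofReal (Cs * Cs * tot)) := by
      have h6 : ENNReal.ofReal (c0 / 2) * V + ENNReal.ofReal (c0 / 2) * V ≤
          (ENNReal.ofReal (Cs * tot) + ENNReal.ofReal M * (X + ENNReal.ofReal (Cs * Cs * tot)))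
            + ENNReal.ofReal (c0 / 2) * V := by
        rw [← e2]
        refine hmain.trans (le_of_eq ?_)
        ring
      exact (ENNReal.add_le_add_iff_right hVt).1 h6
    calc V = ENNReal.ofReal (2 / c0) * (ENNReal.ofReal (c0 / 2) * V) := by
          rw [← mul_assoc, ← ENNReal.ofReal_mul (by positivity)]
          have : 2 / c0 * (c0 / 2) = 1 := by field_simp
          rw [this, ENNReal.ofReal_one, one_mul]
      _ ≤ _ := mul_le_mul_right h5 _
  -- conclusion
  have hS : ∀ (S : Set (Cell d)) (f : Cell d → ℝ), (∀ Q ∈ S, f Q ≤ ∑ Q' ∈ nb Q,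
      (C1 * val Q' + C1 * cost Q' + η2 * sB Q' + CK * iF Q' + Cs * pay Q')) →
      cs S (fun Q => cw s0 Q * f Q) ≤
        ENNReal.ofReal M * (ENNReal.ofReal C1 * V + X + ENNReal.ofReal (Cs * Cs * tot)) := by
    intro S f hf
    refine le_trans ?_ (hXc C1 hC1.le)
    refine (cs_mono (fun Q hQ => mul_le_mul_of_nonneg_left (hf Q hQ) (cw_nonneg hs0 Q))).trans ?_
    exact cs_le_univ S _
  have hr0 : 0 ≤ Cs * tot := by positivity
  have hr1 : 0 ≤ Cs * Cs * tot := by positivity
  calc cs S3 (fun Q => cw s0 Q * fx Q) + cs S4 (fun Q => cw s0 Q * fb Q)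
      ≤ ENNReal.ofReal M * (ENNReal.ofReal C1 * V + X + ENNReal.ofReal (Cs * Cs * tot))
        + ENNReal.ofReal M * (ENNReal.ofReal C1 * V + X + ENNReal.ofReal (Cs * Cs * tot)) :=
        add_le_add (hS S3 fx hQ1) (hS S4 fb hQ2)
    _ = ENNReal.ofReal (2 * M) * (ENNReal.ofReal C1 * V + X + ENNReal.ofReal (Cs * Cs * tot)) := by
        have e2M : ENNReal.ofReal (2 * M) = 2 * ENNReal.ofReal M := by
          rw [ENNReal.ofReal_mul (by norm_num)]
          simp
        rw [e2M]; ring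
    _ ≤ ENNReal.ofReal (2 * M) * (ENNReal.ofReal C1 * (ENNReal.ofReal (2 / c0) *
        (ENNReal.ofReal (Cs * tot) + ENNReal.ofReal M * (X + ENNReal.ofReal (Cs * Cs * tot))))
        + X + ENNReal.ofReal (Cs * Cs * tot)) := by gcongr
    _ = (ENNReal.ofReal (2 * M * C1 * (2 / c0) * M) + ENNReal.ofReal (2 * M)) * X
        + ENNReal.ofReal (2 * M * C1 * (2 / c0) * (Cs * tot + M * (Cs * Cs * tot))
          + 2 * M * (Cs * Cs * tot)) := by
        have q1 : ENNReal.ofReal (2 * M * C1 * (2 / c0) * M) = ENNReal.ofReal (2 * M) *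
            ENNReal.ofReal C1 * ENNReal.ofReal (2 / c0) * ENNReal.ofReal M := by
          rw [← ENNReal.ofReal_mul (by positivity), ← ENNReal.ofReal_mul (by positivity),
            ← ENNReal.ofReal_mul (by positivity)]
        have q2 : ENNReal.ofReal (2 * M * C1 * (2 / c0) * (Cs * tot + M * (Cs * Cs * tot))
            + 2 * M * (Cs * Cs * tot)) = ENNReal.ofReal (2 * M) * ENNReal.ofReal C1 *
            ENNReal.ofReal (2 / c0) * (ENNReal.ofReal (Cs * tot) +
              ENNReal.ofReal M * ENNReal.ofReal (Cs * Cs * tot)) +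
            ENNReal.ofReal (2 * M) * ENNReal.ofReal (Cs * Cs * tot) := by
          rw [← ENNReal.ofReal_mul (by positivity), ← ENNReal.ofReal_mul (by positivity),
            ← ENNReal.ofReal_mul (by positivity), ← ENNReal.ofReal_add (by positivity)
            (by positivity), ← ENNReal.ofReal_mul (by positivity), ← ENNReal.ofReal_mul
            (by positivity), ← ENNReal.ofReal_add (by positivity) (by positivity)]
        rw [q1, q2]
        ring
    _ ≤ ENNReal.ofReal ((4 * M ^ 2 * C1 / c0 + 2 * M) * (1 + C1)) *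
          (ENNReal.ofReal η2 * SB + ENNReal.ofReal CK * IFs + Co)
        + ENNReal.ofReal ((2 * M * C1 * (2 / c0) * (Cs + M * Cs * Cs) + 2 * M * Cs * Cs + 1)
          * tot) := by
        refine add_le_add ?_ ?_
        · rw [← ENNReal.ofReal_add (by positivity) (by positivity)]
          have e5 : 2 * M * C1 * (2 / c0) * M + 2 * M = 4 * M ^ 2 * C1 / c0 + 2 * M := by
            field_simp; ring
          rw [e5]
          have hone : (1 : ℝ≥0∞) ≤ ENNReal.ofReal (1 + C1) := by
            rw [← ENNReal.ofReal_one]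
            exact ENNReal.ofReal_le_ofReal (by linarith)
          have k1 : ∀ Z : ℝ≥0∞, Z ≤ ENNReal.ofReal (1 + C1) * Z := by
            intro Z
            calc Z = 1 * Z := (one_mul Z).symm
              _ ≤ ENNReal.ofReal (1 + C1) * Z := by gcongr
          have k2 : ENNReal.ofReal C1 * Co ≤ ENNReal.ofReal (1 + C1) * Co := by
            gcongr
            linarith
          have k3 : X ≤ ENNReal.ofReal (1 + C1) *
              (ENNReal.ofReal η2 * SB + ENNReal.ofReal CK * IFs + Co) := by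
            rw [hX]
            calc ENNReal.ofReal C1 * Co + ENNReal.ofReal η2 * SB + ENNReal.ofReal CK * IFs
                ≤ ENNReal.ofReal (1 + C1) * Co + ENNReal.ofReal (1 + C1) * (ENNReal.ofReal η2 * SB)
                  + ENNReal.ofReal (1 + C1) * (ENNReal.ofReal CK * IFs) :=
                  add_le_add (add_le_add k2 (k1 _)) (k1 _)
              _ = _ := by ring
          calc ENNReal.ofReal (4 * M ^ 2 * C1 / c0 + 2 * M) * X
              ≤ ENNReal.ofReal (4 * M ^ 2 * C1 / c0 + 2 * M) * (ENNReal.ofReal (1 + C1) *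
              (ENNReal.ofReal η2 * SB + ENNReal.ofReal CK * IFs + Co)) := by gcongr
            _ = _ := by
              rw [← mul_assoc, ← ENNReal.ofReal_mul (by positivity)]
        · apply ENNReal.ofReal_le_ofReal
          nlinarith
    _ = _ := by
        rw [ENNReal.ofReal_mul (p := (4 * M ^ 2 * C1 / c0 + 2 * M) * (1 + C1)) (q := η2)
          (by positivity), ENNReal.ofReal_mul (p := (4 * M ^ 2 * C1 / c0 + 2 * M) * (1 + C1))
          (q := CK) (by positivity)]
        ring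

end

end TG
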