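import Pool.Agent.TG.Tree0

/-! tree sums, (15.1) -/

open Set TrI
open scoped ENNReal Classical

namespace TG

noncomputable section

variable {d : ℕ}

theorem ts1_key {C0 K k w A g D o F n S q t : ℝ} (hC0 : 1 ≤ C0) (hk : 1 ≤ k) (hkK : k ^ 2 = K)
    (hw : 0 ≤ w) (hA : 0 ≤ A) (hg : 0 ≤ g) (hD : 0 ≤ D) (ho : 0 ≤ o) (hoC : o ≤ C0)
    (hF : 0 ≤ F) (hn : 0 ≤ n) (hS : 0 ≤ S) (hq : 0 ≤ q) (ht : 0 ≤ t) (hqt : q ≤ t ^ 2)
    (h1 : A * n ≤ K * q * (C0 * (w * A + g))) (h2 : D * n ≤ t ^ 2 * (C0 * (w * A + g)))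
    (h3 : S ^ 2 ≤ n * (C0 * (w * o ^ 2))) (h4 : F ≤ C0 * (A + D)) :
    F * S ≤ 3 * C0 ^ 3 * t * (k * (w * F * o) + w * D + K * g) := by
  have hC0' : 0 ≤ C0 := by linarith
  have hK : 1 ≤ K := by rw [← hkK]; nlinarith
  have hK0 : 0 ≤ K := by linarith
  have hk0 : 0 ≤ k := by linarith
  have hR : 0 ≤ 3 * C0 ^ 3 * t * (k * (w * F * o) + w * D + K * g) := by positivity
  have hL : 0 ≤ F * S := by positivity
  rw [← pow_le_pow_iff_left₀ hL hR (two_ne_zero)]
  have e1 : (F * S) ^ 2 = F ^ 2 * S ^ 2 := by ring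
  have e2 : (3 * C0 ^ 3 * t * (k * (w * F * o) + w * D + K * g)) ^ 2
      = 9 * C0 ^ 6 * t ^ 2 * (k * (w * F * o) + w * D + K * g) ^ 2 := by ring
  rw [e1, e2]
  have hC2 : 1 ≤ C0 ^ 2 := one_le_pow₀ hC0
  have hwo : 0 ≤ C0 * (w * o ^ 2) := by positivity
  have b0 : F ^ 2 * S ^ 2 ≤ F ^ 2 * (n * (C0 * (w * o ^ 2))) :=
    mul_le_mul_of_nonneg_left h3 (by positivity)
  have hX : 0 ≤ k * (w * F * o) := by positivity
  have hY : 0 ≤ w * D := by positivity
  have hZ : 0 ≤ K * g := by positivity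
  have ho2 : o ^ 2 ≤ C0 ^ 2 := pow_le_pow_left₀ ho hoC 2
  rcases le_or_gt g (w * A) with hc | hc
  · rcases hA.lt_or_eq with hA' | hA'
    · -- n ≤ 2 K q C0 w
      have hn1 : n ≤ 2 * K * q * C0 * w := by
        have : A * n ≤ A * (2 * K * q * C0 * w) := by
          calc A * n ≤ K * q * (C0 * (w * A + g)) := h1
            _ ≤ K * q * (C0 * (w * A + w * A)) := by gcongr
            _ = A * (2 * K * q * C0 * w) := by ring
        exact le_of_mul_le_mul_left this hA'
      calc F ^ 2 * S ^ 2 ≤ F ^ 2 * (n * (C0 * (w * o ^ 2))) := b0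
        _ ≤ F ^ 2 * ((2 * K * t ^ 2 * C0 * w) * (C0 * (w * o ^ 2))) := by
            gcongr
            exact hn1.trans (by gcongr)
        _ = 2 * C0 ^ 2 * t ^ 2 * (k * (w * F * o)) ^ 2 := by rw [← hkK]; ring
        _ ≤ 9 * C0 ^ 6 * t ^ 2 * (k * (w * F * o) + w * D + K * g) ^ 2 := by
            have i1 : 2 * C0 ^ 2 ≤ 9 * C0 ^ 6 := by nlinarith [one_le_pow₀ hC0 (n := 4)]
            gcongr
            linarith
    · have hg0 : g = 0 := by
        rw [← hA', mul_zero] at hc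
        exact le_antisymm hc hg
      have hDn : D * n ≤ 0 := by
        rw [hg0, ← hA'] at h2
        simpa using h2
      have hF2 : F ≤ C0 * D := by rw [← hA'] at h4; simpa using h4
      have hFn : F ^ 2 * n ≤ 0 := by
        calc F ^ 2 * n ≤ (C0 * D) ^ 2 * n := by gcongr
          _ = C0 ^ 2 * D * (D * n) := by ring
          _ ≤ 0 := mul_nonpos_of_nonneg_of_nonpos (by positivity) hDn
      calc F ^ 2 * S ^ 2 ≤ F ^ 2 * (n * (C0 * (w * o ^ 2))) := b0
        _ = (F ^ 2 * n) * (C0 * (w * o ^ 2)) := by ring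
        _ ≤ 0 := mul_nonpos_of_nonpos_of_nonneg hFn hwo
        _ ≤ _ := by positivity
  · have hs : w * A + g ≤ 2 * g := by linarith
    have h1' : A * n ≤ K * t ^ 2 * (C0 * (2 * g)) := h1.trans (by gcongr)
    have h2' : D * n ≤ t ^ 2 * (C0 * (2 * g)) := h2.trans (by gcongr)
    have hDn0 : 0 ≤ D * n := by positivity
    have hAn0 : 0 ≤ A * n := by positivity
    rcases le_or_gt A D with hd | hd
    · have hF2 : F ≤ 2 * C0 * D := by nlinarith
      calc F ^ 2 * S ^ 2 ≤ F ^ 2 * (n * (C0 * (w * o ^ 2))) := b0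
        _ ≤ (2 * C0 * D) ^ 2 * (n * (C0 * (w * o ^ 2))) := by gcongr
        _ = 4 * C0 ^ 3 * D * w * o ^ 2 * (D * n) := by ring
        _ ≤ 4 * C0 ^ 3 * D * w * C0 ^ 2 * (t ^ 2 * (C0 * (2 * g))) :=
            mul_le_mul (by gcongr) h2' hDn0 (by positivity)
        _ = 8 * C0 ^ 6 * t ^ 2 * ((w * D) * g) := by ring
        _ ≤ 9 * C0 ^ 6 * t ^ 2 * (k * (w * F * o) + w * D + K * g) ^ 2 := by
            have i1 : (w * D) * g ≤ (k * (w * F * o) + w * D + K * g) ^ 2 := by
              have i2 : g ≤ K * g := by nlinarith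
              have i3 : (w * D) * g ≤ (w * D) * (K * g) := by gcongr
              nlinarith [mul_nonneg hX hY, mul_nonneg hX hZ, mul_nonneg hY hZ, sq_nonneg (w * D),
                sq_nonneg (K * g), sq_nonneg (k * (w * F * o))]
            calc 8 * C0 ^ 6 * t ^ 2 * ((w * D) * g)
                ≤ 8 * C0 ^ 6 * t ^ 2 * (k * (w * F * o) + w * D + K * g) ^ 2 := by gcongr
              _ ≤ _ := by
                gcongr
                norm_num
    · have hF2 : F ≤ 2 * C0 * A := by nlinarith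
      calc F ^ 2 * S ^ 2 ≤ F ^ 2 * (n * (C0 * (w * o ^ 2))) := b0
        _ = F * F * n * (C0 * (w * o ^ 2)) := by ring
        _ ≤ F * (2 * C0 * A) * n * (C0 * (w * o ^ 2)) := by gcongr
        _ = 2 * C0 ^ 2 * (w * F * o) * o * (A * n) := by ring
        _ ≤ 2 * C0 ^ 2 * (w * F * o) * C0 * (K * t ^ 2 * (C0 * (2 * g))) :=
            mul_le_mul (by gcongr) h1' hAn0 (by positivity)
        _ = 4 * C0 ^ 4 * t ^ 2 * ((w * F * o) * (K * g)) := by ring
        _ ≤ 9 * C0 ^ 6 * t ^ 2 * (k * (w * F * o) + w * D + K * g) ^ 2 := by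
            have i1 : (w * F * o) * (K * g) ≤ (k * (w * F * o) + w * D + K * g) ^ 2 := by
              have i2 : w * F * o ≤ k * (w * F * o) := by
                have : 0 ≤ w * F * o := by positivity
                nlinarith
              have i3 : (w * F * o) * (K * g) ≤ (k * (w * F * o)) * (K * g) := by gcongr
              nlinarith [mul_nonneg hX hY, mul_nonneg hX hZ, mul_nonneg hY hZ, sq_nonneg (w * D),
                sq_nonneg (K * g), sq_nonneg (k * (w * F * o))]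
            have i4 : 4 * C0 ^ 4 ≤ 9 * C0 ^ 6 := by
              nlinarith [one_le_pow₀ hC0 (n := 4), pow_nonneg hC0' 4]
            calc 4 * C0 ^ 4 * t ^ 2 * ((w * F * o) * (K * g))
                ≤ 4 * C0 ^ 4 * t ^ 2 * (k * (w * F * o) + w * D + K * g) ^ 2 := by gcongr
              _ ≤ _ := by gcongr

/-- Cauchy-Schwarz with weights -/
theorem cauchy_w {ι : Type*} (s : Finset ι) (w o : ι → ℝ) (hw : ∀ i ∈ s, 0 ≤ w i) :
    (∑ i ∈ s, w i * o i) ^ 2 ≤ (∑ i ∈ s, w i) * ∑ i ∈ s, w i * o i ^ 2 := by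
  have h := Finset.sum_mul_sq_le_sq_mul_sq s (fun i => Real.sqrt (w i))
    (fun i => Real.sqrt (w i) * o i)
  have e1 : ∑ i ∈ s, Real.sqrt (w i) * (Real.sqrt (w i) * o i) = ∑ i ∈ s, w i * o i := by
    apply Finset.sum_congr rfl
    intro i hi
    rw [← mul_assoc, Real.mul_self_sqrt (hw i hi)]
  have e2 : ∑ i ∈ s, Real.sqrt (w i) ^ 2 = ∑ i ∈ s, w i := by
    apply Finset.sum_congr rfl
    intro i hi
    rw [Real.sq_sqrt (hw i hi)]
  have e3 : ∑ i ∈ s, (Real.sqrt (w i) * o i) ^ 2 = ∑ i ∈ s, w i * o i ^ 2 := by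
    apply Finset.sum_congr rfl
    intro i hi
    rw [mul_pow, Real.sq_sqrt (hw i hi)]
  rw [e1, e2, e3] at h
  exact h

theorem sh_summable {F : Cell d → ℝ} (hF : ∀ Q, 0 ≤ F Q) {B : ℝ} (hB : ∀ Q, F Q ≤ B)
    (Q : Cell d) : Summable (fun i : ℕ => (2 : ℝ) ^ (-((i : ℝ) / 4)) * F (up i Q)) := by
  have h1 : ∀ i : ℕ, (2 : ℝ) ^ (-((i : ℝ) / 4)) = ((2 : ℝ) ^ (-(1 / 4 : ℝ))) ^ i := by
    intro i
    rw [← Real.rpow_natCast, ← Real.rpow_mul (by norm_num)]
    congr 1; ring
  have h2 : (2 : ℝ) ^ (-(1 / 4 : ℝ)) < 1 := Real.rpow_lt_one_of_one_lt_of_neg (by norm_num)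
    (by norm_num)
  have hs : Summable (fun i : ℕ => ((2 : ℝ) ^ (-(1 / 4 : ℝ))) ^ i * B) :=
    (summable_geometric_of_lt_one (by positivity) h2).mul_right B
  apply Summable.of_nonneg_of_le (fun i => mul_nonneg (by positivity) (hF _)) _ hs
  intro i
  rw [h1]
  exact mul_le_mul_of_nonneg_left (hB _) (by positivity)

theorem cs_sh {S : Set (Cell d)} {F c : Cell d → ℝ} (hF : ∀ Q, 0 ≤ F Q) {B : ℝ}
    (hB : ∀ Q, F Q ≤ B) (hc : ∀ Q, 0 ≤ c Q) :
    cs S (fun Q => c Q * sh F Q) = ∑' i : ℕ, ∑' P : Cell d, if i ≤ P.1 then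
      ENNReal.ofReal ((2 : ℝ) ^ (-((i : ℝ) / 4)) * F P * ∑ Q ∈ (dn i P).filter (· ∈ S), c Q)
      else 0 := by
  have h1 : cs S (fun Q => c Q * sh F Q) = ∑' Q, ∑' i : ℕ,
      S.indicator (fun Q => ENNReal.ofReal ((2 : ℝ) ^ (-((i : ℝ) / 4)) * F (up i Q) * c Q)) Q := by
    unfold cs
    apply tsum_congr
    intro Q
    by_cases hQ : Q ∈ S
    · simp only [hQ, indicator_of_mem]
      unfold sh
      rw [mul_comm, ← tsum_mul_right, ENNReal.ofReal_tsum_of_nonneg]
      · intro i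
        have := hF (up i Q)
        have := hc Q
        positivity
      · exact (sh_summable hF hB Q).mul_right _
    · simp [hQ]
  rw [h1, ENNReal.tsum_comm]
  apply tsum_congr
  intro i
  rw [tsum_up _ i]
  apply tsum_congr
  intro P
  split_ifs with hP
  · rw [Finset.mul_sum, ENNReal.ofReal_sum_of_nonneg]
    · rw [Finset.sum_filter]
      apply Finset.sum_congr rfl
      intro Q hQ
      have hu := (mem_dn hP).1 hQ
      by_cases hQS : Q ∈ S
      · simp [hQS, hu]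
      · simp [hQS]
    · intro Q _
      have := hF P
      have := hc Q
      positivity
  · rfl

theorem stmtTS1 : StmtTS1 := by
  intro d C0 γ hd hγ hγ8
  have hr1 : (2 : ℝ) ^ (-(1 / 8 : ℝ)) < 1 := Real.rpow_lt_one_of_one_lt_of_neg (by norm_num)
    (by norm_num)
  obtain ⟨Cg, hCg, gen⟩ := gen_sum ((2 : ℝ) ^ (-(1 / 8 : ℝ))) (by positivity) hr1
  by_cases hC0 : 1 ≤ C0
  swap
  · refine ⟨1, one_pos, ?_⟩
    intro s0 tot K a at' D oml omp b G NL hK hT
    exact absurd hT.C0_one hC0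
  have hC0' : 0 < C0 := by linarith
  set C1 : ℝ := 3 * C0 ^ 3 * (C0 ^ 2 + 2 * C0) with hC1
  refine ⟨Cg * C1 + Cg * (3 * C0 ^ 3), by positivity, ?_⟩
  intro s0 tot K a at' D oml omp b G NL hK hT hb hb2 hDB hbB hg1 hg2
  obtain ⟨BD, hBD⟩ := hDB
  obtain ⟨Bb, hBb⟩ := hbB
  have hK0 : 0 ≤ K := by linarith
  have hk1 : 1 ≤ Real.sqrt K := by
    rw [show (1 : ℝ) = Real.sqrt 1 by simp]
    exact Real.sqrt_le_sqrt hK
  -- common estimate
  have main : ∀ F : Cell d → ℝ, (∀ Q, 0 ≤ F Q) → (∃ B, ∀ Q, F Q ≤ B) →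
      (∀ Q, F Q ≤ C0 * (at' Q + D Q)) →
      cs NL (fun Q => cw s0 Q * oml Q * sh F Q) ≤
        ENNReal.ofReal Cg * (ENNReal.ofReal (3 * C0 ^ 3 * Real.sqrt K) *
          cs univ (fun P => cw s0 P * F P * omp P)) +
        ENNReal.ofReal (Cg * (3 * C0 ^ 3 * (2 * C0) * K * tot)) := by
    intro F hF hFB hFle
    obtain ⟨B, hB⟩ := hFB
    rw [cs_sh (c := fun Q => cw s0 Q * oml Q) hF hB
      (fun Q => mul_nonneg (cw_nonneg hT.s0_pos Q) (hT.oml_nonneg Q))]
    apply gen (ENNReal.ofReal (3 * C0 ^ 3 * Real.sqrt K) *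
          cs univ (fun P => cw s0 P * F P * omp P)) (3 * C0 ^ 3 * (2 * C0) * K * tot)
      (fun i => ∑' P : Cell d, if i ≤ P.1 then
        ENNReal.ofReal ((2 : ℝ) ^ (-((i : ℝ) / 4)) * F P *
          ∑ Q ∈ (dn i P).filter (· ∈ NL), cw s0 Q * oml Q) else 0)
    · have := hT.tot_nonneg
      positivity
    intro i
    -- pointwise bound
    have hpt : ∀ P : Cell d, (if i ≤ P.1 then
        ENNReal.ofReal ((2 : ℝ) ^ (-((i : ℝ) / 4)) * F P *
          ∑ Q ∈ (dn i P).filter (· ∈ NL), cw s0 Q * oml Q) else 0) ≤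
        ENNReal.ofReal (((2 : ℝ) ^ (-(1 / 8 : ℝ))) ^ i) *
        (ENNReal.ofReal (3 * C0 ^ 3 * Real.sqrt K) * ENNReal.ofReal (cw s0 P * F P * omp P)
          + ENNReal.ofReal (3 * C0 ^ 3) * ENNReal.ofReal (cw s0 P * D P)
          + ENNReal.ofReal (3 * C0 ^ 3 * K) * ENNReal.ofReal (G i P)) := by
      intro P
      split_ifs with hP
      swap
      · exact zero_le
      have hwn : 0 ≤ cw s0 P := cw_nonneg hT.s0_pos P
      have hDn := hT.D_nonneg P
      have hGn := hT.G_nonneg i P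
      have hon := hT.omp_nonneg P
      have hFn := hF P
      rw [← ENNReal.ofReal_mul (by positivity), ← ENNReal.ofReal_mul (by positivity),
        ← ENNReal.ofReal_mul (by positivity), ← ENNReal.ofReal_add (by positivity) (by positivity),
        ← ENNReal.ofReal_add (by positivity) (by positivity), ← ENNReal.ofReal_mul (by positivity)]
      apply ENNReal.ofReal_le_ofReal
      set N := (dn i P).filter (· ∈ NL) with hN
      set n := ∑ Q ∈ N, cw s0 Q with hn
      set S := ∑ Q ∈ N, cw s0 Q * oml Q with hS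
      have hup : ∀ Q ∈ N, up i Q = P := fun Q hQ => (mem_dn hP).1 (Finset.mem_filter.1 hQ).1
      have hNL : ∀ Q ∈ N, Q ∈ NL := fun Q hQ => (Finset.mem_filter.1 hQ).2
      have hsub : ∑ Q ∈ N, cw s0 Q * a Q ≤ C0 * (cw s0 P * at' P + G i P) := by
        refine le_trans ?_ (hT.T1 i P hP)
        apply Finset.sum_le_sum_of_subset_of_nonneg (Finset.filter_subset _ _)
        intro Q _ _
        exact mul_nonneg (cw_nonneg hT.s0_pos Q) (hT.a_nonneg Q)
      have h1 : at' P * n ≤ K * (2 : ℝ) ^ (γ * i) * (C0 * (cw s0 P * at' P + G i P)) := by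
        calc at' P * n = ∑ Q ∈ N, cw s0 Q * at' P := by
              rw [hn, Finset.mul_sum]; apply Finset.sum_congr rfl; intro Q _; ring
          _ ≤ ∑ Q ∈ N, cw s0 Q * (K * (2 : ℝ) ^ (γ * i) * a Q) := by
              apply Finset.sum_le_sum
              intro Q hQ
              apply mul_le_mul_of_nonneg_left _ (cw_nonneg hT.s0_pos Q)
              have := hg1 Q (hNL Q hQ) i
              rwa [hup Q hQ] at this
          _ = K * (2 : ℝ) ^ (γ * i) * ∑ Q ∈ N, cw s0 Q * a Q := by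
              rw [Finset.mul_sum]; apply Finset.sum_congr rfl; intro Q _; ring
          _ ≤ _ := mul_le_mul_of_nonneg_left hsub (by positivity)
      have h2 : D P * n ≤ ((2 : ℝ) ^ ((i : ℝ) / 8)) ^ 2 * (C0 * (cw s0 P * at' P + G i P)) := by
        have e : ((2 : ℝ) ^ ((i : ℝ) / 8)) ^ 2 = (2 : ℝ) ^ ((i : ℝ) / 4) := by
          rw [← Real.rpow_natCast, ← Real.rpow_mul (by norm_num)]
          congr 1; push_cast; ring
        rw [e]
        calc D P * n = ∑ Q ∈ N, cw s0 Q * D P := by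
              rw [hn, Finset.mul_sum]; apply Finset.sum_congr rfl; intro Q _; ring
          _ ≤ ∑ Q ∈ N, cw s0 Q * ((2 : ℝ) ^ ((i : ℝ) / 4) * a Q) := by
              apply Finset.sum_le_sum
              intro Q hQ
              apply mul_le_mul_of_nonneg_left _ (cw_nonneg hT.s0_pos Q)
              have := hg2 Q (hNL Q hQ) i
              rwa [hup Q hQ] at this
          _ = (2 : ℝ) ^ ((i : ℝ) / 4) * ∑ Q ∈ N, cw s0 Q * a Q := by
              rw [Finset.mul_sum]; apply Finset.sum_congr rfl; intro Q _; ring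
          _ ≤ _ := mul_le_mul_of_nonneg_left hsub (by positivity)
      have h3 : S ^ 2 ≤ n * (C0 * (cw s0 P * omp P ^ 2)) := by
        refine (cauchy_w N (cw s0) oml (fun Q _ => cw_nonneg hT.s0_pos Q)).trans ?_
        apply mul_le_mul_of_nonneg_left _
          (Finset.sum_nonneg (fun Q _ => cw_nonneg hT.s0_pos Q))
        refine le_trans ?_ (hT.T2 i P hP)
        apply Finset.sum_le_sum_of_subset_of_nonneg (Finset.filter_subset _ _)
        intro Q _ _
        exact mul_nonneg (cw_nonneg hT.s0_pos Q) (sq_nonneg _)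
      have hqt : (2 : ℝ) ^ (γ * i) ≤ ((2 : ℝ) ^ ((i : ℝ) / 8)) ^ 2 := by
        rw [← Real.rpow_natCast, ← Real.rpow_mul (by norm_num)]
        apply Real.rpow_le_rpow_of_exponent_le (by norm_num)
        push_cast
        have : (0 : ℝ) ≤ i := Nat.cast_nonneg i
        nlinarith
      have key := ts1_key (C0 := C0) (K := K) (k := Real.sqrt K) (w := cw s0 P) (A := at' P)
        (g := G i P) (D := D P) (o := omp P) (F := F P) (n := n) (S := S)
        (q := (2 : ℝ) ^ (γ * i)) (t := (2 : ℝ) ^ ((i : ℝ) / 8)) hC0 hk1 (Real.sq_sqrt hK0) hwn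
        (hT.at_nonneg P) hGn hDn hon (hT.omp_le P) hFn
        (Finset.sum_nonneg (fun Q _ => cw_nonneg hT.s0_pos Q))
        (Finset.sum_nonneg (fun Q _ => mul_nonneg (cw_nonneg hT.s0_pos Q) (hT.oml_nonneg Q)))
        (by positivity) (by positivity) hqt h1 h2 h3 (hFle P)
      have e3 : (2 : ℝ) ^ (-((i : ℝ) / 4)) * (2 : ℝ) ^ ((i : ℝ) / 8)
          = ((2 : ℝ) ^ (-(1 / 8 : ℝ))) ^ i := by
        rw [← Real.rpow_add (by norm_num), ← Real.rpow_natCast, ← Real.rpow_mul (by norm_num)]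
        congr 1; ring
      calc (2 : ℝ) ^ (-((i : ℝ) / 4)) * F P * S = (2 : ℝ) ^ (-((i : ℝ) / 4)) * (F P * S) := by ring
        _ ≤ (2 : ℝ) ^ (-((i : ℝ) / 4)) * (3 * C0 ^ 3 * (2 : ℝ) ^ ((i : ℝ) / 8) *
            (Real.sqrt K * (cw s0 P * F P * omp P) + cw s0 P * D P + K * G i P)) := by
            gcongr
        _ = ((2 : ℝ) ^ (-((i : ℝ) / 4)) * (2 : ℝ) ^ ((i : ℝ) / 8)) * (3 * C0 ^ 3 *
            (Real.sqrt K * (cw s0 P * F P * omp P) + cw s0 P * D P + K * G i P)) := by ring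
        _ = _ := by rw [e3]; ring
    refine (ENNReal.tsum_le_tsum hpt).trans ?_
    rw [ENNReal.tsum_mul_left]
    refine mul_le_mul_right ?_ _
    rw [ENNReal.tsum_add, ENNReal.tsum_add, ENNReal.tsum_mul_left, ENNReal.tsum_mul_left,
      ENNReal.tsum_mul_left, ← cs_univ, ← cs_univ, ← cs_univ, add_assoc]
    refine add_le_add le_rfl ?_
    have htn := hT.tot_nonneg
    calc ENNReal.ofReal (3 * C0 ^ 3) * cs univ (fun P => cw s0 P * D P)
        + ENNReal.ofReal (3 * C0 ^ 3 * K) * cs univ (G i)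
        ≤ ENNReal.ofReal (3 * C0 ^ 3) * ENNReal.ofReal (C0 * tot)
          + ENNReal.ofReal (3 * C0 ^ 3 * K) * ENNReal.ofReal (C0 * (i + 1) * tot) :=
          add_le_add (mul_le_mul_right hT.D_sum _) (mul_le_mul_right (hT.G_sum i) _)
      _ = ENNReal.ofReal (3 * C0 ^ 3 * (C0 * tot) + 3 * C0 ^ 3 * K * (C0 * (i + 1) * tot)) := by
          rw [← ENNReal.ofReal_mul (by positivity), ← ENNReal.ofReal_mul (by positivity),
            ← ENNReal.ofReal_add (by positivity) (by positivity)]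
      _ ≤ _ := by
          apply ENNReal.ofReal_le_ofReal
          have i1 : 3 * C0 ^ 3 * (C0 * tot) ≤ 3 * C0 ^ 3 * K * (C0 * (i + 1) * tot) := by
            have : C0 * tot * 1 ≤ C0 * tot * (K * (i + 1)) := by
              apply mul_le_mul_of_nonneg_left _ (by positivity)
              have : (0 : ℝ) ≤ i := Nat.cast_nonneg i
              nlinarith
            calc 3 * C0 ^ 3 * (C0 * tot) = 3 * C0 ^ 3 * (C0 * tot * 1) := by ring
              _ ≤ 3 * C0 ^ 3 * (C0 * tot * (K * (i + 1))) := by gcongr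
              _ = _ := by ring
          calc 3 * C0 ^ 3 * (C0 * tot) + 3 * C0 ^ 3 * K * (C0 * (i + 1) * tot)
              ≤ 2 * (3 * C0 ^ 3 * K * (C0 * (i + 1) * tot)) := by linarith
            _ = _ := by ring
  have htn := hT.tot_nonneg
  have hkK : Real.sqrt K ≤ K := by
    nlinarith [Real.sq_sqrt hK0, Real.sqrt_nonneg K]
  constructor
  · refine (main D hT.D_nonneg ⟨BD, hBD⟩ ?_).trans ?_
    · intro Q
      have := hT.at_nonneg Q
      have := hT.D_nonneg Q
      nlinarith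
    have hbd : cs univ (fun P => cw s0 P * D P * omp P) ≤ ENNReal.ofReal (C0 * (C0 * tot)) := by
      calc cs univ (fun P => cw s0 P * D P * omp P) ≤ cs univ (fun P => C0 * (cw s0 P * D P)) := by
            apply cs_mono
            intro Q _
            rw [mul_comm C0]
            apply mul_le_mul_of_nonneg_left (hT.omp_le Q)
            exact mul_nonneg (cw_nonneg hT.s0_pos Q) (hT.D_nonneg Q)
        _ = ENNReal.ofReal C0 * cs univ (fun P => cw s0 P * D P) := cs_mul (by linarith) _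
        _ ≤ ENNReal.ofReal C0 * ENNReal.ofReal (C0 * tot) := mul_le_mul_right hT.D_sum _
        _ = _ := by rw [← ENNReal.ofReal_mul (by linarith)]
    calc _ ≤ ENNReal.ofReal Cg * (ENNReal.ofReal (3 * C0 ^ 3 * Real.sqrt K) *
          ENNReal.ofReal (C0 * (C0 * tot))) +
        ENNReal.ofReal (Cg * (3 * C0 ^ 3 * (2 * C0) * K * tot)) := by gcongr
      _ = ENNReal.ofReal (Cg * (3 * C0 ^ 3 * Real.sqrt K * (C0 * (C0 * tot)))
          + Cg * (3 * C0 ^ 3 * (2 * C0) * K * tot)) := by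
          rw [← ENNReal.ofReal_mul (by positivity), ← ENNReal.ofReal_mul (by positivity),
            ← ENNReal.ofReal_add (by positivity) (by positivity)]
      _ ≤ _ := by
          apply ENNReal.ofReal_le_ofReal
          have i1 : Cg * (3 * C0 ^ 3 * Real.sqrt K * (C0 * (C0 * tot))) ≤
              Cg * (3 * C0 ^ 3 * K * (C0 * (C0 * tot))) := by gcongr
          have i2 : 0 ≤ Cg * (3 * C0 ^ 3) * K * tot := by positivity
          rw [hC1]
          nlinarith
  · refine (main b hb ⟨Bb, hBb⟩ hb2).trans ?_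
    refine add_le_add ?_ ?_
    · rw [← mul_assoc, ← ENNReal.ofReal_mul (by positivity)]
      refine mul_le_mul_left (ENNReal.ofReal_le_ofReal ?_) _
      have : 0 ≤ Cg * C1 * Real.sqrt K := by positivity
      nlinarith
    · apply ENNReal.ofReal_le_ofReal
      have i2 : 0 ≤ Cg * (3 * C0 ^ 3) * K * tot := by positivity
      have i3 : 0 ≤ Cg * (3 * C0 ^ 3 * C0 ^ 2) * K * tot := by positivity
      rw [hC1]
      nlinarith

end

end TG
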