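import Pool.Agent.TG.TreeTS1

/-! tree sums, (15.2) and the passage to the parent -/

open Set TrI
open scoped ENNReal Classical

namespace TG

noncomputable section

variable {d : ℕ}

theorem cs_iUnion (T : ℕ → Set (Cell d)) (F : Cell d → ℝ) :
    cs (⋃ i, T i) F ≤ ∑' i, cs (T i) F := by
  unfold cs
  rw [ENNReal.tsum_comm]
  apply ENNReal.tsum_le_tsum
  intro Q
  by_cases hQ : Q ∈ ⋃ i, T i
  · obtain ⟨i, hi⟩ := mem_iUnion.1 hQ
    simp only [hQ, indicator_of_mem]
    refine le_trans ?_ (ENNReal.le_tsum i)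
    simp [hi]
  · simp [hQ]

theorem cs_fiber {T : Set (Cell d)} {F : Cell d → ℝ} (hF : ∀ Q, 0 ≤ F Q) (i : ℕ) :
    cs T F = ∑' P : Cell d, if i ≤ P.1 then
      ENNReal.ofReal (∑ Q ∈ (dn i P).filter (· ∈ T), F Q) else 0 := by
  unfold cs
  rw [tsum_up _ i]
  apply tsum_congr
  intro P
  split_ifs with hP
  · rw [ENNReal.ofReal_sum_of_nonneg (fun Q _ => hF Q), Finset.sum_filter]
    apply Finset.sum_congr rfl
    intro Q _
    by_cases hQ : Q ∈ T <;> simp [hQ]
  · rfl

theorem cs_fiber_le {T : Set (Cell d)} {F : Cell d → ℝ} (hF : ∀ Q, 0 ≤ F Q) (i : ℕ)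
    (H : Cell d → ℝ≥0∞) (h : ∀ P : Cell d, i ≤ P.1 → ∀ N : Finset (Cell d), N ⊆ dn i P →
      (∀ Q ∈ N, Q ∈ T) → ENNReal.ofReal (∑ Q ∈ N, F Q) ≤ H P) :
    cs T F ≤ ∑' P, H P := by
  rw [cs_fiber hF i]
  apply ENNReal.tsum_le_tsum
  intro P
  split_ifs with hP
  · apply h P hP _ (Finset.filter_subset _ _)
    intro Q hQ
    exact (Finset.mem_filter.1 hQ).2
  · exact zero_le

/-- Cauchy-Schwarz with weights, two functions -/
theorem cauchy_w2 {ι : Type*} (s : Finset ι) (w a o : ι → ℝ) (hw : ∀ i ∈ s, 0 ≤ w i) :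
    (∑ i ∈ s, w i * a i * o i) ^ 2 ≤ (∑ i ∈ s, w i * a i ^ 2) * ∑ i ∈ s, w i * o i ^ 2 := by
  have h := Finset.sum_mul_sq_le_sq_mul_sq s (fun i => Real.sqrt (w i) * a i)
    (fun i => Real.sqrt (w i) * o i)
  have e1 : ∑ i ∈ s, Real.sqrt (w i) * a i * (Real.sqrt (w i) * o i)
      = ∑ i ∈ s, w i * a i * o i := by
    apply Finset.sum_congr rfl
    intro i hi
    calc Real.sqrt (w i) * a i * (Real.sqrt (w i) * o i)
        = (Real.sqrt (w i) * Real.sqrt (w i)) * a i * o i := by ring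
      _ = _ := by rw [Real.mul_self_sqrt (hw i hi)]
  have e2 : ∀ g : ι → ℝ, ∑ i ∈ s, (Real.sqrt (w i) * g i) ^ 2 = ∑ i ∈ s, w i * g i ^ 2 := by
    intro g
    apply Finset.sum_congr rfl
    intro i hi
    rw [mul_pow, Real.sq_sqrt (hw i hi)]
  rw [e1, e2, e2] at h
  exact h

theorem ts2_key {C0 K w A g D S δ q t SA : ℝ} (hC0 : 0 ≤ C0) (hK : 1 ≤ K)
    (hw : 0 ≤ w) (hg : 0 ≤ g) (hD : 0 ≤ D) (hδ : 0 < δ) (hδ1 : δ ≤ 1)
    (hS : 0 ≤ S) (ht : 1 ≤ t) (hqt : q ≤ t)
    (hSA : SA ≤ C0 * (w * A + g)) (hAD : A ≤ K * q * (D / (δ * t)))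
    (h3 : S ^ 2 ≤ (D / (δ * t) * SA) * (C0 * w)) :
    S ≤ C0 * K / δ * (Real.sqrt (1 / t)) * (w * D + g) := by
  have ht0 : 0 < t := by linarith
  have hR : 0 ≤ C0 * K / δ * (Real.sqrt (1 / t)) * (w * D + g) := by positivity
  rw [← pow_le_pow_iff_left₀ hS hR (two_ne_zero)]
  have e2 : (C0 * K / δ * (Real.sqrt (1 / t)) * (w * D + g)) ^ 2
      = C0 ^ 2 * K ^ 2 / δ ^ 2 * (1 / t) * (w * D + g) ^ 2 := by
    have : Real.sqrt (1 / t) ^ 2 = 1 / t := Real.sq_sqrt (by positivity)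
    calc (C0 * K / δ * (Real.sqrt (1 / t)) * (w * D + g)) ^ 2
        = C0 ^ 2 * K ^ 2 / δ ^ 2 * (Real.sqrt (1 / t) ^ 2) * (w * D + g) ^ 2 := by
          field_simp
      _ = _ := by rw [this]
  rw [e2]
  have hAD' : A ≤ K * (D / δ) := by
    refine hAD.trans ?_
    have : K * q * (D / (δ * t)) ≤ K * t * (D / (δ * t)) := by gcongr
    refine this.trans (le_of_eq ?_)
    field_simp
  have hSA2 : SA ≤ C0 * (K / δ * (w * D) + g) := by
    refine hSA.trans ?_
    have : w * A ≤ K / δ * (w * D) := by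
      calc w * A ≤ w * (K * (D / δ)) := by gcongr
        _ = _ := by ring
    gcongr
  have hKδ : 1 ≤ K / δ := by
    rw [le_div_iff₀ hδ]; linarith
  have hSA3 : SA ≤ C0 * (K / δ * (w * D + g)) := by
    refine hSA2.trans ?_
    have : g ≤ K / δ * g := by nlinarith
    have : K / δ * (w * D) + g ≤ K / δ * (w * D + g) := by linarith
    gcongr
  calc S ^ 2 ≤ (D / (δ * t) * SA) * (C0 * w) := h3
    _ ≤ (D / (δ * t) * (C0 * (K / δ * (w * D + g)))) * (C0 * w) := by gcongr
    _ = C0 ^ 2 * K / δ ^ 2 * (1 / t) * ((w * D) * (w * D + g)) := by field_simp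
    _ ≤ C0 ^ 2 * K ^ 2 / δ ^ 2 * (1 / t) * (w * D + g) ^ 2 := by
        have i1 : (w * D) * (w * D + g) ≤ (w * D + g) ^ 2 := by
          have : 0 ≤ w * D := by positivity
          nlinarith
        have i2 : K ≤ K ^ 2 := by nlinarith
        gcongr

theorem stmtTS2 : StmtTS2 := by
  intro d C0 γ hd hγ hγ8
  have hr1 : (2 : ℝ) ^ (-(1 / 16 : ℝ)) < 1 := Real.rpow_lt_one_of_one_lt_of_neg (by norm_num)
    (by norm_num)
  obtain ⟨Cg, hCg, gen⟩ := gen_sum ((2 : ℝ) ^ (-(1 / 16 : ℝ))) (by positivity) hr1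
  by_cases hC0 : 1 ≤ C0
  swap
  · refine ⟨1, one_pos, ?_⟩
    intro s0 tot K δ a at' D oml omp o G S hK hδ hδ1 hT
    exact absurd hT.C0_one hC0
  have hC0' : 0 < C0 := by linarith
  refine ⟨Cg * (2 * C0 ^ 2), by positivity, ?_⟩
  intro s0 tot K δ a at' D oml omp o G S hK hδ hδ1 hT ho hT3 hS1 hS2
  have hK0 : 0 ≤ K := by linarith
  have htn := hT.tot_nonneg
  set T : ℕ → Set (Cell d) := fun i =>
    {Q | Q ∈ S ∧ δ * (2 : ℝ) ^ ((i : ℝ) / 8) * a Q ≤ D (up i Q)} with hTdef
  have hST : S ⊆ ⋃ i, T i := by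
    intro Q hQ
    obtain ⟨i, hi⟩ := hS2 Q hQ
    exact mem_iUnion.2 ⟨i, hQ, hi⟩
  refine (cs_subset hST _).trans ((cs_iUnion T _).trans ?_)
  have hFn : ∀ Q, 0 ≤ cw s0 Q * a Q * o Q := fun Q =>
    mul_nonneg (mul_nonneg (cw_nonneg hT.s0_pos Q) (hT.a_nonneg Q)) (ho Q)
  have := gen 0 (2 * C0 ^ 2 * K / δ * tot) (fun i => cs (T i) (fun Q => cw s0 Q * a Q * o Q))
    (by positivity) ?_
  · refine this.trans ?_
    rw [mul_zero, zero_add]
    apply ENNReal.ofReal_le_ofReal
    apply le_of_eq; field_simp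
  intro i
  rw [zero_add]
  refine (cs_fiber_le hFn i (fun P =>
      ENNReal.ofReal (((2 : ℝ) ^ (-(1 / 16 : ℝ))) ^ i) * (ENNReal.ofReal (C0 * K / δ) *
        (ENNReal.ofReal (cw s0 P * D P) + ENNReal.ofReal (G i P)))) ?_).trans ?_
  · intro P hP N hNsub hNT
    have hwn : 0 ≤ cw s0 P := cw_nonneg hT.s0_pos P
    have hDn := hT.D_nonneg P
    have hGn := hT.G_nonneg i P
    rw [← ENNReal.ofReal_add (by positivity) (by positivity), ← ENNReal.ofReal_mul (by positivity),
      ← ENNReal.ofReal_mul (by positivity)]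
    apply ENNReal.ofReal_le_ofReal
    have hup : ∀ Q ∈ N, up i Q = P := fun Q hQ => (mem_dn hP).1 (hNsub hQ)
    rcases N.eq_empty_or_nonempty with hE | ⟨Q0, hQ0⟩
    · rw [hE, Finset.sum_empty]; positivity
    set t : ℝ := (2 : ℝ) ^ ((i : ℝ) / 8) with ht
    have ht1 : 1 ≤ t := Real.one_le_rpow (by norm_num) (by positivity)
    have ht0 : 0 < t := by linarith
    have haD : ∀ Q ∈ N, a Q ≤ D P / (δ * t) := by
      intro Q hQ
      have := (hNT Q hQ).2
      rw [hup Q hQ] at this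
      rw [le_div_iff₀ (by positivity)]
      linarith
    have key := ts2_key (C0 := C0) (K := K) (w := cw s0 P) (A := at' P) (g := G i P) (D := D P)
      (S := ∑ Q ∈ N, cw s0 Q * a Q * o Q) (δ := δ) (q := (2 : ℝ) ^ (γ * i)) (t := t)
      (SA := ∑ Q ∈ N, cw s0 Q * a Q) hC0'.le hK hwn hGn hDn hδ hδ1
      (Finset.sum_nonneg (fun Q _ => hFn Q)) ht1 ?_ ?_ ?_ ?_
    · refine key.trans (le_of_eq ?_)
      have e : Real.sqrt (1 / t) = ((2 : ℝ) ^ (-(1 / 16 : ℝ))) ^ i := by
        rw [ht, one_div, ← Real.rpow_neg (by norm_num), Real.sqrt_eq_rpow,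
          ← Real.rpow_mul (by norm_num), ← Real.rpow_natCast, ← Real.rpow_mul (by norm_num)]
        congr 1; ring
      rw [e]; ring
    · rw [ht]
      apply Real.rpow_le_rpow_of_exponent_le (by norm_num)
      have : (0 : ℝ) ≤ i := Nat.cast_nonneg i
      nlinarith
    · refine le_trans ?_ (hT.T1 i P hP)
      apply Finset.sum_le_sum_of_subset_of_nonneg hNsub
      intro Q _ _
      exact mul_nonneg (cw_nonneg hT.s0_pos Q) (hT.a_nonneg Q)
    · have h1 := hS1 Q0 (hNT Q0 hQ0).1 i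
      rw [hup Q0 hQ0] at h1
      refine h1.trans ?_
      exact mul_le_mul_of_nonneg_left (haD Q0 hQ0) (by positivity)
    · refine (cauchy_w2 N (cw s0) a o (fun Q _ => cw_nonneg hT.s0_pos Q)).trans ?_
      apply mul_le_mul _ _ (Finset.sum_nonneg (fun Q _ => by
        have := cw_nonneg hT.s0_pos Q; positivity)) _
      · rw [Finset.mul_sum]
        apply Finset.sum_le_sum
        intro Q hQ
        have h1 := haD Q hQ
        have h2 := cw_nonneg hT.s0_pos Q
        have h3 := hT.a_nonneg Q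
        calc cw s0 Q * a Q ^ 2 = a Q * (cw s0 Q * a Q) := by ring
          _ ≤ _ := mul_le_mul_of_nonneg_right h1 (by positivity)
      · refine le_trans ?_ (hT3 i P hP)
        apply Finset.sum_le_sum_of_subset_of_nonneg hNsub
        intro Q _ _
        exact mul_nonneg (cw_nonneg hT.s0_pos Q) (sq_nonneg _)
      · apply mul_nonneg (by positivity)
        exact Finset.sum_nonneg (fun Q _ => mul_nonneg (cw_nonneg hT.s0_pos Q) (hT.a_nonneg Q))
  rw [ENNReal.tsum_mul_left]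
  refine mul_le_mul_right ?_ _
  rw [ENNReal.tsum_mul_left, ENNReal.tsum_add, ← cs_univ, ← cs_univ]
  calc ENNReal.ofReal (C0 * K / δ) * (cs univ (fun P => cw s0 P * D P) + cs univ (G i))
      ≤ ENNReal.ofReal (C0 * K / δ) * (ENNReal.ofReal (C0 * tot)
        + ENNReal.ofReal (C0 * (i + 1) * tot)) := by
        gcongr
        · exact hT.D_sum
        · exact hT.G_sum i
    _ = ENNReal.ofReal (C0 * K / δ * (C0 * tot + C0 * (i + 1) * tot)) := by
        rw [← ENNReal.ofReal_add (by positivity) (by positivity),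
          ← ENNReal.ofReal_mul (by positivity)]
    _ ≤ _ := by
        apply ENNReal.ofReal_le_ofReal
        have h1 : C0 * tot ≤ C0 * (i + 1) * tot := by
          have : (0 : ℝ) ≤ i := Nat.cast_nonneg i
          have h2 : 0 ≤ C0 * i * tot := by positivity
          nlinarith
        calc C0 * K / δ * (C0 * tot + C0 * (i + 1) * tot)
            ≤ C0 * K / δ * (2 * (C0 * (i + 1) * tot)) := by
              gcongr; linarith
          _ = _ := by field_simp

theorem stmtTS3 : StmtTS3 := by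
  intro d C0 m hd hC0
  set N : ℝ := ((2 : ℝ) ^ m) ^ d with hN
  refine ⟨C0 ^ 2 * N + C0 ^ 3 + C0 ^ 3 * N + 1, by positivity, ?_⟩
  intro s0 tot D oml omp b hs0 htot hb hD homl homp h1 h2 h3 h4
  have hN' : (((2 ^ m) ^ d : ℕ) : ℝ≥0∞) = ENNReal.ofReal N := by
    rw [hN]
    rw [← ENNReal.ofReal_natCast]
    push_cast
    rfl
  have hpt : ∀ P, cw s0 P * b P * omp P ≤
      C0 ^ 2 * (cw s0 (up m P) * b (up m P) * oml (up m P)) + C0 ^ 2 * (cw s0 P * D P)
        + C0 ^ 2 * (cw s0 (up m P) * D (up m P)) := by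
    intro P
    have w0 := cw_nonneg hs0 P
    have w1 := cw_up hs0 m P
    have w2 := cw_nonneg hs0 (up m P)
    have o0 := homp P
    have b1 := hb (up m P)
    have d0 := hD P
    have d1 := hD (up m P)
    have o1 := homl (up m P)
    calc cw s0 P * b P * omp P
        ≤ cw s0 P * (C0 * (b (up m P) + D P + D (up m P))) * omp P := by
          gcongr; exact h1 P
      _ = C0 * (cw s0 P * b (up m P) * omp P) + C0 * (cw s0 P * D P * omp P)
          + C0 * (cw s0 P * D (up m P) * omp P) := by ring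
      _ ≤ C0 * (cw s0 (up m P) * b (up m P) * (C0 * oml (up m P))) + C0 * (cw s0 P * D P * C0)
          + C0 * (cw s0 (up m P) * D (up m P) * C0) := by
          gcongr
          · exact h2 P
          · exact h3 P
          · exact h3 P
      _ = _ := by ring
  have e1 : ∀ F : Cell d → ℝ, cs univ (fun P => F (up m P)) ≤ ENNReal.ofReal N * cs univ F := by
    intro F
    rw [cs_univ, cs_univ, ← hN']
    exact tsum_comp_up (fun Q => ENNReal.ofReal (F Q)) m
  have hbo : ∀ Q, 0 ≤ cw s0 Q * b Q * oml Q := fun Q =>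
    mul_nonneg (mul_nonneg (cw_nonneg hs0 Q) (hb Q)) (homl Q)
  have hwD : ∀ Q, 0 ≤ cw s0 Q * D Q := fun Q => mul_nonneg (cw_nonneg hs0 Q) (hD Q)
  calc cs univ (fun P => cw s0 P * b P * omp P)
      ≤ cs univ (fun P => C0 ^ 2 * (cw s0 (up m P) * b (up m P) * oml (up m P))
        + C0 ^ 2 * (cw s0 P * D P) + C0 ^ 2 * (cw s0 (up m P) * D (up m P))) :=
        cs_mono (fun P _ => hpt P)
    _ = ENNReal.ofReal (C0 ^ 2) * cs univ (fun P => cw s0 (up m P) * b (up m P) * oml (up m P))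
        + ENNReal.ofReal (C0 ^ 2) * cs univ (fun P => cw s0 P * D P)
        + ENNReal.ofReal (C0 ^ 2) * cs univ (fun P => cw s0 (up m P) * D (up m P)) := by
        rw [cs_add, cs_add, cs_mul (by positivity), cs_mul (by positivity),
          cs_mul (by positivity)]
        · intro Q _; have := hbo (up m Q); positivity
        · intro Q _; have := hwD Q; positivity
        · intro Q _; have := hbo (up m Q); have := hwD Q; positivity
        · intro Q _; have := hwD (up m Q); positivity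
    _ ≤ ENNReal.ofReal (C0 ^ 2) * (ENNReal.ofReal N * cs univ (fun P => cw s0 P * b P * oml P))
        + ENNReal.ofReal (C0 ^ 2) * ENNReal.ofReal (C0 * tot)
        + ENNReal.ofReal (C0 ^ 2) * (ENNReal.ofReal N * ENNReal.ofReal (C0 * tot)) := by
        gcongr
        · exact e1 (fun P => cw s0 P * b P * oml P)
        · exact (e1 (fun P => cw s0 P * D P)).trans (by gcongr)
    _ = ENNReal.ofReal (C0 ^ 2 * N) * cs univ (fun P => cw s0 P * b P * oml P)
        + ENNReal.ofReal (C0 ^ 2 * (C0 * tot) + C0 ^ 2 * (N * (C0 * tot))) := by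
        rw [← mul_assoc, ← ENNReal.ofReal_mul (by positivity), ← ENNReal.ofReal_mul (by positivity),
          ← ENNReal.ofReal_mul (by positivity), ← ENNReal.ofReal_mul (by positivity), add_assoc,
          ← ENNReal.ofReal_add (by positivity) (by positivity)]
    _ ≤ _ := by
        gcongr
        · have : 0 ≤ C0 ^ 3 + C0 ^ 3 * N := by positivity
          linarith
        · have : 0 ≤ (C0 ^ 2 * N) * tot := by positivity
          nlinarith

end

end TG
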