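import Pool.Agent.TG.TreePQ0
import Pool.Agent.TG.TreeTS1
import Pool.Agent.TG.TreeTS2
import Pool.Agent.TG.TreeLT
import Pool.Agent.TG.TreeMJ
import Pool.Agent.TG.DP
set_option autoImplicit false
set_option linter.unusedSectionVars false
set_option linter.unusedVariables false

/-!
# Final assembly, abstract part: basic estimates   (helper47)
-/

open MeasureTheory Metric Set TrI
open scoped InnerProductSpace ContDiff ENNReal

namespace TG

noncomputable section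

variable {d : ℕ}

/-- levels at least two -/
def L2 (d : ℕ) : Set (Cell d) := {Q | 2 ≤ Q.1}

/-- all facts on the numbers which do not depend on the thresholds -/
structure FinH (C0 C1R C9 : ℝ) (J e ρb Nb : ℕ) (Cu γ s0 tot : ℝ)
    (ns nb : Cell d → Finset (Cell d)) (Nr : Set (Cell d))
    (a al ah at' D b oml omp v TG Y : Cell d → ℝ) (G : ℕ → Cell d → ℝ) : Prop where
  T : TreeH C0 s0 tot a at' D oml omp G
  W : WtH s0 Cu Nb ns nb Nr v oml
  R : Rob C1R J e nb a ah at' D b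
  box : ∀ Q, nb Q ⊆ box J ρb Q
  al0 : ∀ Q, 0 ≤ al Q
  al_ah : ∀ Q, al Q ≤ ah Q
  b_al : ∀ Q, b Q ≤ C0 * (al Q + D Q)
  b_at : ∀ Q, b Q ≤ C0 * (at' Q + D Q)
  oml_le : ∀ Q, oml Q ≤ C0
  oml_omp : ∀ Q, oml Q ≤ omp Q
  v_le : ∀ Q, v Q ≤ C0
  omp_v : ∀ Q, omp Q ≤ C0 * v Q
  omp9 : ∀ Q, omp Q ≤ C0 * oml (up 9 Q)
  b9 : ∀ Q, b Q ≤ C0 * (b (up 9 Q) + D Q + D (up 9 Q))
  TG0 : ∀ Q, 0 ≤ TG Q
  TGs : cs univ (fun P => cw s0 P * TG P) ≤ ENNReal.ofReal (C0 * tot)
  flat : ∀ P, (∀ l : ℕ, at' (up l P) ≤ (2 : ℝ) ^ (γ * l) * at' P) → at' P ≤ C0 * (ah P + TG P)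
  ah9 : ∀ Q, ah Q ≤ C9 * (ah (up 9 Q) + D (up 9 Q))
  Y0 : ∀ Q, 0 ≤ Y Q
  LS : ∀ i : ℕ, cs {Q : Cell d | Q.1 = i} (fun Q => cw s0 Q * a Q) ≤ ENNReal.ofReal (C0 * tot)
  fin1 : cs univ (fun Q => cw s0 Q * (b Q * oml Q)) < ⊤

/-- b oml on the levels at least two, weight included -/
def fXF (s0 : ℝ) (b oml : Cell d → ℝ) : Cell d → ℝ :=
  (L2 d).indicator fun Q => cw s0 Q * (b Q * oml Q)

/-- Y + b v on the levels at least two, weight included -/
def fBF (s0 : ℝ) (Y b v : Cell d → ℝ) : Cell d → ℝ :=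
  (L2 d).indicator fun Q => cw s0 Q * (Y Q + b (up 9 Q) * v Q)

/-- the interface sum, weight included -/
def fSF (s0 : ℝ) (D b oml : Cell d → ℝ) (Q : Cell d) : ℝ :=
  cw s0 Q * ((sh b Q + sh D Q) * oml Q)

namespace Fin

lemma cs_ind (S : Set (Cell d)) (F : Cell d → ℝ) : cs univ (S.indicator F) = cs S F := by
  unfold cs
  apply tsum_congr
  intro Q
  by_cases h : Q ∈ S <;> simp [h]

lemma cs_ind_mul (S : Set (Cell d)) (w F : Cell d → ℝ) :
    cs univ (fun Q => w Q * S.indicator F Q) = cs S (fun Q => w Q * F Q) := by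
  unfold cs
  apply tsum_congr
  intro Q
  by_cases h : Q ∈ S <;> simp [h]

lemma cs_inter_ind (S T : Set (Cell d)) (F : Cell d → ℝ) :
    cs S (T.indicator F) = cs (S ∩ T) F := by
  unfold cs
  apply tsum_congr
  intro Q
  by_cases h : Q ∈ S <;> by_cases h' : Q ∈ T <;> simp [h, h']

lemma cs_split (S T : Set (Cell d)) (F : Cell d → ℝ) :
    cs S F ≤ cs (S ∩ T) F + cs (S ∩ Tᶜ) F := by
  refine le_trans (cs_subset ?_ F) (cs_union _ _ F)
  intro Q hQ
  by_cases h : Q ∈ T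
  · exact Or.inl ⟨hQ, h⟩
  · exact Or.inr ⟨hQ, h⟩

lemma ofR {x y : ℝ} (h : x ≤ y) : ENNReal.ofReal x ≤ ENNReal.ofReal y := ENNReal.ofReal_le_ofReal h

section
variable {C0 C1R C9 Cu γ s0 tot : ℝ} {J e ρb Nb : ℕ}
  {ns nb : Cell d → Finset (Cell d)} {Nr : Set (Cell d)}
  {a al ah at' D b oml omp v TG Y : Cell d → ℝ} {G : ℕ → Cell d → ℝ}

lemma C0_pos (H : FinH C0 C1R C9 J e ρb Nb Cu γ s0 tot ns nb Nr a al ah at' D b oml omp v TG Y G) :
    0 < C0 := lt_of_lt_of_le one_pos H.T.C0_one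

lemma cwp (H : FinH C0 C1R C9 J e ρb Nb Cu γ s0 tot ns nb Nr a al ah at' D b oml omp v TG Y G)
    (Q : Cell d) : 0 < cw s0 Q := cw_pos H.T.s0_pos Q

/-- the two bottom levels: masses -/
lemma low_a (H : FinH C0 C1R C9 J e ρb Nb Cu γ s0 tot ns nb Nr a al ah at' D b oml omp v TG Y G) :
    cs (L2 d)ᶜ (fun Q => cw s0 Q * a Q) ≤ ENNReal.ofReal (2 * C0 * tot) := by
  have h1 : (L2 d)ᶜ ⊆ {Q : Cell d | Q.1 = 0} ∪ {Q : Cell d | Q.1 = 1} := by
    intro Q hQ
    simp only [L2, mem_compl_iff, mem_ofPred_eq, not_le] at hQ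
    have : Q.1 = 0 ∨ Q.1 = 1 := by omega
    exact this
  refine (cs_subset h1 _).trans ((cs_union _ _ _).trans ?_)
  have h0 := C0_pos H
  have ht := H.T.tot_nonneg
  calc _ ≤ ENNReal.ofReal (C0 * tot) + ENNReal.ofReal (C0 * tot) := add_le_add (H.LS 0) (H.LS 1)
    _ = ENNReal.ofReal (2 * C0 * tot) := by
        rw [← ENNReal.ofReal_add (by positivity) (by positivity)]; ring_nf

/-- the sum of all b oml -/
lemma sum_b (H : FinH C0 C1R C9 J e ρb Nb Cu γ s0 tot ns nb Nr a al ah at' D b oml omp v TG Y G) :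
    cs univ (fun Q => cw s0 Q * b Q * oml Q) ≤ cs univ (fXF s0 b oml) +
      ENNReal.ofReal (3 * C0 ^ 3 * tot) := by
  have h0 := C0_pos H
  have ht := H.T.tot_nonneg
  have h1 := cs_split (d := d) univ (L2 d) (fun Q => cw s0 Q * b Q * oml Q)
  rw [univ_inter, univ_inter] at h1
  refine h1.trans (add_le_add ?_ ?_)
  · unfold fXF
    rw [cs_ind]
    exact le_of_eq (congrArg _ (funext fun Q => by ring))
  · calc cs (L2 d)ᶜ (fun Q => cw s0 Q * b Q * oml Q)
        ≤ cs (L2 d)ᶜ (fun Q => C0 ^ 2 * (cw s0 Q * a Q) + C0 ^ 2 * (cw s0 Q * D Q)) := by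
          refine cs_mono fun Q _ => ?_
          have hw := cwp H Q
          have hb := H.b_al Q
          have hb0 := H.R.b_nonneg Q
          have ho := H.oml_le Q
          have ho0 := H.T.oml_nonneg Q
          have hal : al Q ≤ a Q := (H.al_ah Q).trans (H.R.ah_le Q)
          have hD := H.T.D_nonneg Q
          have h2 : b Q ≤ C0 * (a Q + D Q) := hb.trans (mul_le_mul_of_nonneg_left (by linarith) h0.le)
          have ha := H.T.a_nonneg Q
          calc cw s0 Q * b Q * oml Q ≤ cw s0 Q * (C0 * (a Q + D Q)) * C0 :=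
                mul_le_mul (mul_le_mul_of_nonneg_left h2 hw.le) ho ho0 (by positivity)
            _ = _ := by ring
      _ ≤ ENNReal.ofReal (C0 ^ 2) * cs (L2 d)ᶜ (fun Q => cw s0 Q * a Q) +
          ENNReal.ofReal (C0 ^ 2) * cs univ (fun Q => cw s0 Q * D Q) := by
          rw [cs_add (fun Q _ => mul_nonneg (by positivity) (mul_nonneg (cwp H Q).le
            (H.T.a_nonneg Q))) (fun Q _ => mul_nonneg (by positivity) (mul_nonneg (cwp H Q).le
            (H.T.D_nonneg Q))), cs_mul (by positivity), cs_mul (by positivity)]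
          exact add_le_add le_rfl (mul_le_mul_right (cs_le_univ _ _) _)
      _ ≤ ENNReal.ofReal (C0 ^ 2) * ENNReal.ofReal (2 * C0 * tot) +
          ENNReal.ofReal (C0 ^ 2) * ENNReal.ofReal (C0 * tot) :=
          add_le_add (mul_le_mul_right (low_a H) _) (mul_le_mul_right H.T.D_sum _)
      _ = _ := by
          rw [← ENNReal.ofReal_mul (by positivity), ← ENNReal.ofReal_mul (by positivity),
            ← ENNReal.ofReal_add (by positivity) (by positivity)]
          ring_nf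

/-- the sums of D over structured cells -/
lemma ts_D {CA K d0 : ℝ} (hCA : 0 < CA) (hK : 1 ≤ K) (hd0 : 0 < d0) (hd01 : d0 ≤ 1)
    (H : FinH C0 C1R C9 J e ρb Nb Cu γ s0 tot ns nb Nr a al ah at' D b oml omp v TG Y G)
    (h1 : ∀ (s0 tot K : ℝ) (a at' D oml omp b : Cell d → ℝ) (G : ℕ → Cell d → ℝ)
      (NL : Set (Cell d)), 1 ≤ K → TreeH C0 s0 tot a at' D oml omp G →
      (∀ Q, 0 ≤ b Q) → (∀ Q, b Q ≤ C0 * (at' Q + D Q)) →
      (∃ B, ∀ Q, D Q ≤ B) → (∃ B, ∀ Q, b Q ≤ B) →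
      (∀ Q ∈ NL, ∀ i : ℕ, at' (up i Q) ≤ K * (2 : ℝ) ^ (γ * i) * a Q) →
      (∀ Q ∈ NL, ∀ i : ℕ, D (up i Q) ≤ (2 : ℝ) ^ ((i : ℝ) / 4) * a Q) →
      cs NL (fun Q => cw s0 Q * oml Q * sh D Q) ≤ ENNReal.ofReal (CA * K * tot) ∧
      cs NL (fun Q => cw s0 Q * oml Q * sh b Q) ≤
        ENNReal.ofReal (CA * Real.sqrt K) * cs univ (fun P => cw s0 P * b P * omp P)
          + ENNReal.ofReal (CA * K * tot)) :
    cs (Strc γ K d0 a at' D) (fun Q => cw s0 Q * (sh D Q * oml Q)) ≤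
      ENNReal.ofReal (CA * K * tot) ∧
    cs (Strc γ K d0 a at' D) (fun Q => cw s0 Q * (sh b Q * oml Q)) ≤
      ENNReal.ofReal (CA * Real.sqrt K) * cs univ (fun P => cw s0 P * b P * omp P)
          + ENNReal.ofReal (CA * K * tot) := by
  obtain ⟨h2, h3⟩ := h1 s0 tot K a at' D oml omp b G (Strc γ K d0 a at' D) hK H.T H.R.b_nonneg
    H.b_at H.R.D_bd H.R.b_bd (fun Q hQ i => hQ.2.1 i) (fun Q hQ i => by
      refine (hQ.2.2 i).trans (mul_le_mul_of_nonneg_right ?_ (H.T.a_nonneg Q))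
      calc d0 * (2 : ℝ) ^ ((i : ℝ) / 8) ≤ 1 * (2 : ℝ) ^ ((i : ℝ) / 4) := by
            refine mul_le_mul hd01 ?_ (by positivity) (by norm_num)
            refine Real.rpow_le_rpow_of_exponent_le (by norm_num) ?_
            have : (0 : ℝ) ≤ i := Nat.cast_nonneg i
            linarith
        _ = _ := one_mul _)
  refine ⟨le_trans (le_of_eq (congrArg _ (funext fun Q => ?_))) h2,
    le_trans (le_of_eq (congrArg _ (funext fun Q => ?_))) h3⟩ <;> ring

/-- the sums of b over structured cells -/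
lemma ts_b {CA CB K d0 : ℝ} (hCA : 0 < CA) (hCB : 0 < CB) (hK : 1 ≤ K)
    (H : FinH C0 C1R C9 J e ρb Nb Cu γ s0 tot ns nb Nr a al ah at' D b oml omp v TG Y G)
    (h3 : cs (Strc γ K d0 a at' D) (fun Q => cw s0 Q * (sh b Q * oml Q)) ≤
      ENNReal.ofReal (CA * Real.sqrt K) * cs univ (fun P => cw s0 P * b P * omp P)
          + ENNReal.ofReal (CA * K * tot))
    (h4 : cs univ (fun P => cw s0 P * b P * omp P) ≤
        ENNReal.ofReal CB * cs univ (fun P => cw s0 P * b P * oml P) + ENNReal.ofReal (CB * tot)) :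
    cs (Strc γ K d0 a at' D) (fun Q => cw s0 Q * (sh b Q * oml Q)) ≤
      ENNReal.ofReal (CA * Real.sqrt K * CB) * cs univ (fXF s0 b oml) +
        ENNReal.ofReal ((CA * Real.sqrt K * CB * (3 * C0 ^ 3 + 1) + CA * K) * tot) := by
  have h0 := C0_pos H
  have ht := H.T.tot_nonneg
  have hA : 0 ≤ CA * Real.sqrt K := by positivity
  refine h3.trans ?_
  calc ENNReal.ofReal (CA * Real.sqrt K) * cs univ (fun P => cw s0 P * b P * omp P)
          + ENNReal.ofReal (CA * K * tot)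
      ≤ ENNReal.ofReal (CA * Real.sqrt K) * (ENNReal.ofReal CB * (cs univ (fXF s0 b oml) +
          ENNReal.ofReal (3 * C0 ^ 3 * tot)) + ENNReal.ofReal (CB * tot))
          + ENNReal.ofReal (CA * K * tot) := by
        refine add_le_add (mul_le_mul_right (h4.trans (add_le_add (mul_le_mul_right (sum_b H) _)
          le_rfl)) _) le_rfl
    _ = _ := by
        rw [mul_add, mul_add, mul_add, ← mul_assoc, ← ENNReal.ofReal_mul hA,
          ← ENNReal.ofReal_mul hCB.le, ← ENNReal.ofReal_mul hA, ← ENNReal.ofReal_mul hA,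
          add_assoc, add_assoc, ← ENNReal.ofReal_add (by positivity) (by positivity),
          ← ENNReal.ofReal_add (by positivity) (by positivity)]
        ring_nf

/-- incoherent cells -/
lemma inc_sum {CT2s θ d1 : ℝ} (hC : 0 < CT2s) (hθ : 0 < θ) (hθ1 : θ ≤ 1) (hd1 : 0 < d1)
    (hd11 : d1 ≤ 1)
    (H : FinH C0 C1R C9 J e ρb Nb Cu γ s0 tot ns nb Nr a al ah at' D b oml omp v TG Y G)
    (h1 : ∀ (s0 tot K δ : ℝ) (a at' D oml omp o : Cell d → ℝ) (G : ℕ → Cell d → ℝ)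
      (S : Set (Cell d)), 1 ≤ K → 0 < δ → δ ≤ 1 → TreeH C0 s0 tot a at' D oml omp G →
      (∀ Q, 0 ≤ o Q) →
      (∀ (i : ℕ) (P : Cell d), i ≤ P.1 → ∑ Q ∈ dn i P, cw s0 Q * o Q ^ 2 ≤ C0 * cw s0 P) →
      (∀ Q ∈ S, ∀ i : ℕ, at' (up i Q) ≤ K * (2 : ℝ) ^ (γ * i) * a Q) →
      (∀ Q ∈ S, ∃ i : ℕ, δ * (2 : ℝ) ^ ((i : ℝ) / 8) * a Q ≤ D (up i Q)) →
      cs S (fun Q => cw s0 Q * a Q * o Q) ≤ ENNReal.ofReal (CT2s * K / δ * tot))
    (h2 : ∀ Q, Q ∉ WL γ θ ah at' → 0 < ah Q ∧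
        ∀ l : ℕ, θ * at' (up l Q) ≤ (2 : ℝ) ^ (γ * l) * ah Q) :
    cs (Inc γ θ d1 a ah at' D) (fun Q => cw s0 Q * (a Q * oml Q)) ≤
      ENNReal.ofReal (CT2s * (1 / θ) / d1 * tot) := by
  have h3 := h1 s0 tot (1 / θ) d1 a at' D oml omp oml G (Inc γ θ d1 a ah at' D)
    (by rw [le_div_iff₀ hθ]; linarith) hd1 hd11 H.T H.T.oml_nonneg (fun i P hi => by
      refine le_trans (Finset.sum_le_sum fun Q _ => ?_) (H.T.T3 i P hi)
      exact mul_le_mul_of_nonneg_left (pow_le_pow_left₀ (H.T.oml_nonneg Q) (H.oml_omp Q) 2)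
        (cwp H Q).le) (fun Q hQ i => by
      have h4 := (h2 Q hQ.1).2 i
      have h5 := mul_le_mul_of_nonneg_left (H.R.ah_le Q)
        (by positivity : (0 : ℝ) ≤ (2 : ℝ) ^ (γ * i))
      have h6 : θ * at' (up i Q) ≤ (2 : ℝ) ^ (γ * i) * a Q := h4.trans h5
      rw [one_div, mul_assoc, ← div_eq_inv_mul, le_div_iff₀ hθ]
      linarith) (fun Q hQ => by
      obtain ⟨l, hl⟩ := hQ.2
      exact ⟨l, hl.le⟩)
  refine le_trans (le_of_eq (congrArg _ (funext fun Q => ?_))) h3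
  ring

/-- the costs -/
lemma cost_sum {θ d1 CI : ℝ} (hCI : 0 ≤ CI)
    (H : FinH C0 C1R C9 J e ρb Nb Cu γ s0 tot ns nb Nr a al ah at' D b oml omp v TG Y G)
    (h1 : cs (Inc γ θ d1 a ah at' D) (fun Q => cw s0 Q * (a Q * oml Q)) ≤
      ENNReal.ofReal (CI * tot)) :
    cs univ (fun Q => cw s0 Q * costF (Solid γ θ d1 a ah at' D) al D oml Q) ≤
      cs (WL γ θ ah at') (fun Q => cw s0 Q * al Q * oml Q) +
        ENNReal.ofReal ((CI + C0 ^ 2) * tot) := by
  have h0 := C0_pos H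
  have ht := H.T.tot_nonneg
  unfold costF
  rw [cs_ind_mul]
  have h2 : (Solid γ θ d1 a ah at' D)ᶜ ⊆ WL γ θ ah at' ∪ Inc γ θ d1 a ah at' D := by
    intro Q hQ
    by_cases hW : Q ∈ WL γ θ ah at'
    · exact Or.inl hW
    · refine Or.inr ⟨hW, ?_⟩
      by_contra hneg
      refine hQ ⟨hW, fun l => ?_⟩
      by_contra h'
      exact hneg ⟨l, not_le.1 h'⟩
  have hD : cs univ (fun Q => cw s0 Q * (D Q * oml Q)) ≤ ENNReal.ofReal (C0 ^ 2 * tot) := by
    calc cs univ (fun Q => cw s0 Q * (D Q * oml Q)) ≤ cs univ (fun Q => C0 * (cw s0 Q * D Q)) := by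
          refine cs_mono fun Q _ => ?_
          have h3 := mul_le_mul_of_nonneg_left (H.oml_le Q)
            (mul_nonneg (cwp H Q).le (H.T.D_nonneg Q))
          linarith
      _ = ENNReal.ofReal C0 * cs univ (fun Q => cw s0 Q * D Q) := cs_mul h0.le _
      _ ≤ ENNReal.ofReal C0 * ENNReal.ofReal (C0 * tot) := mul_le_mul_right H.T.D_sum _
      _ = _ := by rw [← ENNReal.ofReal_mul h0.le]; ring_nf
  calc cs (Solid γ θ d1 a ah at' D)ᶜ (fun Q => cw s0 Q * ((al Q + D Q) * oml Q))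
      ≤ cs (Solid γ θ d1 a ah at' D)ᶜ (fun Q => cw s0 Q * al Q * oml Q) +
          cs (Solid γ θ d1 a ah at' D)ᶜ (fun Q => cw s0 Q * (D Q * oml Q)) := by
        rw [← cs_add (fun Q _ => mul_nonneg (mul_nonneg (cwp H Q).le (H.al0 Q))
          (H.T.oml_nonneg Q)) (fun Q _ => mul_nonneg (cwp H Q).le (mul_nonneg (H.T.D_nonneg Q)
          (H.T.oml_nonneg Q)))]
        exact le_of_eq (congrArg _ (funext fun Q => by ring))
    _ ≤ (cs (WL γ θ ah at') (fun Q => cw s0 Q * al Q * oml Q) +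
          cs (Inc γ θ d1 a ah at' D) (fun Q => cw s0 Q * al Q * oml Q)) +
          ENNReal.ofReal (C0 ^ 2 * tot) :=
        add_le_add ((cs_subset h2 _).trans (cs_union _ _ _)) ((cs_le_univ _ _).trans hD)
    _ ≤ (cs (WL γ θ ah at') (fun Q => cw s0 Q * al Q * oml Q) + ENNReal.ofReal (CI * tot)) +
          ENNReal.ofReal (C0 ^ 2 * tot) := by
        refine add_le_add (add_le_add le_rfl (le_trans (cs_mono fun Q _ => ?_) h1)) le_rfl
        have hal : al Q ≤ a Q := (H.al_ah Q).trans (H.R.ah_le Q)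
        have h3 := mul_le_mul_of_nonneg_right hal (H.T.oml_nonneg Q)
        have h4 := mul_le_mul_of_nonneg_left h3 (cwp H Q).le
        linarith
    _ = _ := by
        rw [add_assoc, ← ENNReal.ofReal_add (by positivity) (by positivity)]
        ring_nf

/-- all b oml against the solid cells and the costs -/
lemma lemf {θ d1 CC : ℝ} (hCC : 0 ≤ CC) {LW : ℝ≥0∞}
    (H : FinH C0 C1R C9 J e ρb Nb Cu γ s0 tot ns nb Nr a al ah at' D b oml omp v TG Y G)
    (h1 : cs univ (fun Q => cw s0 Q * costF (Solid γ θ d1 a ah at' D) al D oml Q) ≤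
      LW + ENNReal.ofReal (CC * tot)) :
    cs univ (fXF s0 b oml) ≤ cs (L2 d ∩ Solid γ θ d1 a ah at' D) (fXF s0 b oml) +
      ENNReal.ofReal C0 * LW + ENNReal.ofReal (C0 * CC * tot) := by
  have h0 := C0_pos H
  have ht := H.T.tot_nonneg
  have h2 := cs_split (d := d) univ (Solid γ θ d1 a ah at' D) (fXF s0 b oml)
  rw [univ_inter, univ_inter] at h2
  refine h2.trans ?_
  rw [add_assoc]
  refine add_le_add ?_ ?_
  · -- fXF vanishes off L2
    unfold cs
    refine ENNReal.tsum_le_tsum fun Q => ?_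
    by_cases hQ : Q ∈ Solid γ θ d1 a ah at' D
    · by_cases hL : Q ∈ L2 d
      · rw [indicator_of_mem hQ, indicator_of_mem (mem_inter hL hQ)]
      · rw [indicator_of_mem hQ]
        have : fXF s0 b oml Q = 0 := by unfold fXF; rw [indicator_of_notMem hL]
        rw [this, ENNReal.ofReal_zero]
        exact zero_le
    · rw [indicator_of_notMem hQ]
      exact zero_le
  · calc cs (Solid γ θ d1 a ah at' D)ᶜ (fXF s0 b oml)
        ≤ cs (Solid γ θ d1 a ah at' D)ᶜ (fun Q => C0 * (cw s0 Q * ((al Q + D Q) * oml Q))) := by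
          refine cs_mono fun Q _ => ?_
          have hpos : 0 ≤ C0 * (cw s0 Q * ((al Q + D Q) * oml Q)) :=
            mul_nonneg h0.le (mul_nonneg (cwp H Q).le (mul_nonneg (add_nonneg (H.al0 Q)
              (H.T.D_nonneg Q)) (H.T.oml_nonneg Q)))
          unfold fXF
          by_cases hL : Q ∈ L2 d
          · rw [indicator_of_mem hL]
            have h3 := mul_le_mul_of_nonneg_right (H.b_al Q) (H.T.oml_nonneg Q)
            have h4 := mul_le_mul_of_nonneg_left h3 (cwp H Q).le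
            linarith
          · rw [indicator_of_notMem hL]; exact hpos
      _ = ENNReal.ofReal C0 * cs univ (fun Q => cw s0 Q *
            costF (Solid γ θ d1 a ah at' D) al D oml Q) := by
          rw [cs_mul h0.le]
          unfold costF
          rw [cs_ind_mul]
      _ ≤ ENNReal.ofReal C0 * (LW + ENNReal.ofReal (CC * tot)) := mul_le_mul_right h1 _
      _ = _ := by
          rw [mul_add, ← ENNReal.ofReal_mul h0.le]
          ring_nf

/-- payable terms -/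
lemma pay_sum {CP K d0 CDs : ℝ} {r0 : ℕ} (hCDs : 0 ≤ CDs) (hCP : 0 ≤ CP)
    (H : FinH C0 C1R C9 J e ρb Nb Cu γ s0 tot ns nb Nr a al ah at' D b oml omp v TG Y G)
    (h1 : cs univ (fun Q => cw s0 Q * dsm r0 D Q) ≤ ENNReal.ofReal (CP * tot))
    (h2 : cs (Strc γ K d0 a at' D) (fun Q => cw s0 Q * (sh D Q * oml Q)) ≤
      ENNReal.ofReal (CDs * tot)) :
    cs univ (fun Q => cw s0 Q * payF r0 (Strc γ K d0 a at' D) D oml TG Q) ≤
      ENNReal.ofReal ((CP + CDs + C0) * tot) := by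
  have h0 := C0_pos H
  have ht := H.T.tot_nonneg
  have hshD : ∀ Q, 0 ≤ sh D Q := fun Q => tsum_nonneg fun _ =>
    mul_nonneg (by positivity) (H.T.D_nonneg _)
  have hds : ∀ Q, 0 ≤ dsm r0 D Q := fun Q => Finset.sum_nonneg fun _ _ => H.T.D_nonneg _
  have hi : ∀ Q, 0 ≤ (Strc γ K d0 a at' D).indicator (fun Q => sh D Q * oml Q) Q := fun Q =>
    indicator_nonneg (fun Q _ => mul_nonneg (hshD Q) (H.T.oml_nonneg Q)) Q
  unfold payF
  calc cs univ (fun Q => cw s0 Q * (dsm r0 D Q +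
        (Strc γ K d0 a at' D).indicator (fun Q => sh D Q * oml Q) Q + TG Q))
      = cs univ (fun Q => cw s0 Q * dsm r0 D Q) + cs univ (fun Q => cw s0 Q *
          (Strc γ K d0 a at' D).indicator (fun Q => sh D Q * oml Q) Q) +
          cs univ (fun Q => cw s0 Q * TG Q) := by
        rw [← cs_add (fun Q _ => mul_nonneg (cwp H Q).le (hds Q)) (fun Q _ =>
          mul_nonneg (cwp H Q).le (hi Q)), ← cs_add (fun Q _ => add_nonneg
          (mul_nonneg (cwp H Q).le (hds Q)) (mul_nonneg (cwp H Q).le (hi Q)))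
          (fun Q _ => mul_nonneg (cwp H Q).le (H.TG0 Q))]
        exact congrArg _ (funext fun Q => by ring)
    _ ≤ ENNReal.ofReal (CP * tot) + ENNReal.ofReal (CDs * tot) + ENNReal.ofReal (C0 * tot) := by
        rw [cs_ind_mul]
        exact add_le_add (add_le_add h1 h2) H.TGs
    _ = _ := by
        rw [← ENNReal.ofReal_add (by positivity) (by positivity),
          ← ENNReal.ofReal_add (by positivity) (by positivity)]
        ring_nf

end

end Fin

end

end TG
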