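import Pool.Agent.TG.FinA
set_option autoImplicit false
set_option linter.unusedSectionVars false
set_option linter.unusedVariables false

/-!
# Final assembly, abstract part: light costs and the inequality (M_j)   (helper47)
-/

open MeasureTheory Metric Set TrI
open scoped InnerProductSpace ContDiff ENNReal

namespace TG

noncomputable section

variable {d : ℕ}

namespace Fin

section
variable {C0 C1R C9 Cu γ s0 tot : ℝ} {J e ρb Nb : ℕ}
  {ns nb : Cell d → Finset (Cell d)} {Nr : Set (Cell d)}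
  {a al ah at' D b oml omp v TG Y : Cell d → ℝ} {G : ℕ → Cell d → ℝ}

lemma fX_eq {S : Set (Cell d)} (hS : S ⊆ L2 d) (s0 : ℝ) (b oml : Cell d → ℝ) :
    cs S (fXF s0 b oml) = cs S (fun Q => cw s0 Q * (b Q * oml Q)) := by
  unfold cs
  refine tsum_congr fun Q => ?_
  by_cases h : Q ∈ S
  · rw [indicator_of_mem h, indicator_of_mem h]
    unfold fXF
    rw [indicator_of_mem (hS h)]
  · rw [indicator_of_notMem h, indicator_of_notMem h]

lemma fB_eq {S : Set (Cell d)} (hS : S ⊆ L2 d) (s0 : ℝ) (Y b v : Cell d → ℝ) :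
    cs S (fBF s0 Y b v) = cs S (fun Q => cw s0 Q * (Y Q + b (up 9 Q) * v Q)) := by
  unfold cs
  refine tsum_congr fun Q => ?_
  by_cases h : Q ∈ S
  · rw [indicator_of_mem h, indicator_of_mem h]
    unfold fBF
    rw [indicator_of_mem (hS h)]
  · rw [indicator_of_notMem h, indicator_of_notMem h]

/-- the modified Y -/
def Ym (at' v Y : Cell d → ℝ) (P : Cell d) : ℝ := if 2 ≤ P.1 then Y P else at' P * v P

/-- the light costs -/
lemma lemLW {CL CL' C1I κI θ δ' : ℝ} (hCL : 0 < CL) (hCL' : 0 < CL') (hC1I : 0 ≤ C1I)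
    (hκI : 0 < κI) (hκI1 : κI ≤ 1) (hθ : 0 < θ) (hδ' : 0 < δ')
    (H : FinH C0 C1R C9 J e ρb Nb Cu γ s0 tot ns nb Nr a al ah at' D b oml omp v TG Y G)
    (hIII : ∀ P ∈ CIII γ κI δ' 9 at' D b TG, ∀ (i : ℕ) (S : Finset (Cell d)), i ≤ P.1 →
      S ⊆ dn i P → (∀ Q ∈ S, Top γ θ ah at' i Q) →
        ∑ Q ∈ S, cw s0 Q * al Q ≤ C1I * (cw s0 P * (b (up 9 P) + D (up 9 P)) + G i P) ∧
        at' P * ∑ Q ∈ S, cw s0 Q * oml Q ^ 2 ≤ C1I * (cw s0 P * v P * Y P))
    (hLT : ∀ (s0 tot : ℝ) (a at' al ah D oml omp om b Y TG : Cell d → ℝ) (G : ℕ → Cell d → ℝ),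
      TreeH C0 s0 tot a at' D oml omp G →
      (∀ Q, 0 ≤ al Q) → (∀ Q, al Q ≤ ah Q) → (∀ Q, ah Q ≤ a Q) → (∀ Q, 0 ≤ b Q) →
      (∀ Q, 0 ≤ Y Q) → (∀ Q, 0 ≤ om Q) → (∀ Q, om Q ≤ C0) → (∀ Q, 0 ≤ TG Q) →
      (∀ Q, omp Q ≤ C0 * oml (up 9 Q)) →
      cs univ (fun P => cw s0 P * TG P) ≤ ENNReal.ofReal (C0 * tot) →
      (∀ P, (∀ l : ℕ, at' (up l P) ≤ (2 : ℝ) ^ (γ * l) * at' P) → at' P ≤ C0 * (a P + TG P)) →
      (∀ P ∈ CIII γ κI δ' 9 at' D b TG, ∀ (i : ℕ) (S : Finset (Cell d)), i ≤ P.1 → S ⊆ dn i P →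
        (∀ Q ∈ S, Top γ θ ah at' i Q) →
        ∑ Q ∈ S, cw s0 Q * al Q ≤ (C1I + C0 ^ 3) *
          (cw s0 P * (b (up 9 P) + D (up 9 P)) + G i P) ∧
        at' P * ∑ Q ∈ S, cw s0 Q * oml Q ^ 2 ≤ (C1I + C0 ^ 3) * (cw s0 P * om P * Y P)) →
      cs (WL γ θ ah at') (fun Q => cw s0 Q * al Q * oml Q) ≤
        ENNReal.ofReal (CL * Real.sqrt θ / κI) * cs univ (fun P => cw s0 P * b P * oml P)
        + ENNReal.ofReal (CL * Real.sqrt θ) *
          cs (CIII γ κI δ' 9 at' D b TG) (fun P => cw s0 P * (Y P + b (up 9 P) * om P))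
        + ENNReal.ofReal (CL' * tot)) :
    cs (WL γ θ ah at') (fun Q => cw s0 Q * al Q * oml Q) ≤
      ENNReal.ofReal (CL * Real.sqrt θ / κI) * cs univ (fXF s0 b oml)
        + ENNReal.ofReal (CL * Real.sqrt θ) *
          cs (L2 d ∩ CIII γ κI δ' 9 at' D b TG) (fBF s0 Y b v)
        + ENNReal.ofReal ((CL * Real.sqrt θ / κI * (3 * C0 ^ 3) + CL * Real.sqrt θ * (6 * C0 ^ 3)
          + CL') * tot) := by
  have h0 := C0_pos H
  have ht := H.T.tot_nonneg
  have hY0 : ∀ Q, 0 ≤ Ym at' v Y Q := by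
    intro Q
    unfold Ym
    split_ifs
    · exact H.Y0 Q
    · exact mul_nonneg (H.T.at_nonneg Q) (H.W.v0 Q)
  have hmain := hLT s0 tot a at' al ah D oml omp v b (Ym at' v Y) TG G H.T H.al0 H.al_ah H.R.ah_le
    H.R.b_nonneg hY0 H.W.v0 H.v_le H.TG0 H.omp9 H.TGs (fun P hP => by
      refine (H.flat P hP).trans (mul_le_mul_of_nonneg_left ?_ h0.le)
      linarith [H.R.ah_le P]) (fun P hP i S hi hS hT => by
      obtain ⟨g1, g2⟩ := hIII P hP i S hi hS hT
      have hbD : 0 ≤ cw s0 P * (b (up 9 P) + D (up 9 P)) + G i P :=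
        add_nonneg (mul_nonneg (cwp H P).le (add_nonneg (H.R.b_nonneg _) (H.T.D_nonneg _)))
          (H.T.G_nonneg i P)
      have hc3 : 0 ≤ C0 ^ 3 := by positivity
      refine ⟨g1.trans (mul_le_mul_of_nonneg_right (by linarith) hbD), ?_⟩
      unfold Ym
      split_ifs with h2
      · exact g2.trans (mul_le_mul_of_nonneg_right (by linarith)
          (mul_nonneg (mul_nonneg (cwp H P).le (H.W.v0 P)) (H.Y0 P)))
      · have h3 : ∑ Q ∈ S, cw s0 Q * oml Q ^ 2 ≤ C0 * (cw s0 P * omp P ^ 2) :=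
          (Finset.sum_le_sum_of_subset_of_nonneg hS fun Q _ _ => mul_nonneg (cwp H Q).le
            (sq_nonneg _)).trans (H.T.T2 i P hi)
        have h4 : omp P ^ 2 ≤ (C0 * v P) ^ 2 := pow_le_pow_left₀ (H.T.omp_nonneg P) (H.omp_v P) 2
        have hat := H.T.at_nonneg P
        have hv := H.W.v0 P
        have hw := (cwp H P).le
        have h5 : 0 ≤ cw s0 P * v P * (at' P * v P) := by positivity
        calc at' P * ∑ Q ∈ S, cw s0 Q * oml Q ^ 2 ≤ at' P * (C0 * (cw s0 P * (C0 * v P) ^ 2)) := by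
              refine mul_le_mul_of_nonneg_left (h3.trans ?_) hat
              exact mul_le_mul_of_nonneg_left (mul_le_mul_of_nonneg_left h4 hw) h0.le
          _ = C0 ^ 3 * (cw s0 P * v P * (at' P * v P)) := by ring
          _ ≤ _ := mul_le_mul_of_nonneg_right (by linarith) h5)
  have hIIIs : cs (CIII γ κI δ' 9 at' D b TG) (fun P => cw s0 P * (Ym at' v Y P +
      b (up 9 P) * v P)) ≤ cs (L2 d ∩ CIII γ κI δ' 9 at' D b TG) (fBF s0 Y b v) +
        ENNReal.ofReal (6 * C0 ^ 3 * tot) := by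
    refine (cs_split _ (L2 d) _).trans (add_le_add ?_ ?_)
    · rw [inter_comm, fB_eq inter_subset_left]
      refine cs_mono fun Q hQ => ?_
      have hL : 2 ≤ Q.1 := hQ.1
      have : Ym at' v Y Q = Y Q := by unfold Ym; rw [if_pos hL]
      rw [this]
    · calc cs (CIII γ κI δ' 9 at' D b TG ∩ (L2 d)ᶜ) (fun P => cw s0 P * (Ym at' v Y P +
            b (up 9 P) * v P))
          ≤ cs (CIII γ κI δ' 9 at' D b TG ∩ (L2 d)ᶜ)
              (fun P => 2 * C0 ^ 2 * (cw s0 P * a P) + 2 * C0 ^ 2 * (cw s0 P * TG P)) := by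
            refine cs_mono fun P hP => ?_
            obtain ⟨⟨q1, q2, q3, q4, q5⟩, hL⟩ := hP
            have hL' : ¬ 2 ≤ P.1 := hL
            have e1 : Ym at' v Y P = at' P * v P := by
              unfold Ym
              rw [if_neg hL']
            rw [e1]
            have hat := H.T.at_nonneg P
            have hv := H.W.v0 P
            have hvC := H.v_le P
            have hw := (cwp H P).le
            have hb : b (up 9 P) ≤ at' P := q5.trans (by nlinarith)
            have hfl := H.flat P q2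
            have hah := H.R.ah_le P
            have hat2 : at' P ≤ C0 * (a P + TG P) :=
              hfl.trans (mul_le_mul_of_nonneg_left (by linarith) h0.le)
            have hbn := H.R.b_nonneg (up 9 P)
            calc cw s0 P * (at' P * v P + b (up 9 P) * v P)
                = cw s0 P * ((at' P + b (up 9 P)) * v P) := by ring
              _ ≤ cw s0 P * ((at' P + at' P) * C0) := by
                  refine mul_le_mul_of_nonneg_left ?_ hw
                  exact mul_le_mul (by linarith) hvC hv (by linarith)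
              _ = 2 * C0 * (cw s0 P * at' P) := by ring
              _ ≤ 2 * C0 * (cw s0 P * (C0 * (a P + TG P))) :=
                  mul_le_mul_of_nonneg_left (mul_le_mul_of_nonneg_left hat2 hw) (by positivity)
              _ = _ := by ring
        _ = ENNReal.ofReal (2 * C0 ^ 2) * cs (CIII γ κI δ' 9 at' D b TG ∩ (L2 d)ᶜ)
              (fun P => cw s0 P * a P) + ENNReal.ofReal (2 * C0 ^ 2) *
              cs (CIII γ κI δ' 9 at' D b TG ∩ (L2 d)ᶜ) (fun P => cw s0 P * TG P) := by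
            rw [cs_add (fun Q _ => mul_nonneg (by positivity) (mul_nonneg (cwp H Q).le
              (H.T.a_nonneg Q))) (fun Q _ => mul_nonneg (by positivity) (mul_nonneg (cwp H Q).le
              (H.TG0 Q))), cs_mul (by positivity), cs_mul (by positivity)]
        _ ≤ ENNReal.ofReal (2 * C0 ^ 2) * ENNReal.ofReal (2 * C0 * tot) +
              ENNReal.ofReal (2 * C0 ^ 2) * ENNReal.ofReal (C0 * tot) :=
            add_le_add (mul_le_mul_right ((cs_subset inter_subset_right _).trans (low_a H)) _)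
              (mul_le_mul_right ((cs_le_univ _ _).trans H.TGs) _)
        _ = _ := by
            rw [← ENNReal.ofReal_mul (by positivity), ← ENNReal.ofReal_mul (by positivity),
              ← ENNReal.ofReal_add (by positivity) (by positivity)]
            ring_nf
  have hX : 0 ≤ CL * Real.sqrt θ / κI := by positivity
  have hX2 : 0 ≤ CL * Real.sqrt θ := by positivity
  refine hmain.trans ?_
  calc _ ≤ ENNReal.ofReal (CL * Real.sqrt θ / κI) * (cs univ (fXF s0 b oml) +
          ENNReal.ofReal (3 * C0 ^ 3 * tot)) + ENNReal.ofReal (CL * Real.sqrt θ) *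
          (cs (L2 d ∩ CIII γ κI δ' 9 at' D b TG) (fBF s0 Y b v) +
        ENNReal.ofReal (6 * C0 ^ 3 * tot)) + ENNReal.ofReal (CL' * tot) := by
        refine add_le_add (add_le_add (mul_le_mul_right (sum_b H) _)
          (mul_le_mul_right hIIIs _)) le_rfl
    _ = _ := by
        have e1 : (CL * Real.sqrt θ / κI * (3 * C0 ^ 3) + CL * Real.sqrt θ * (6 * C0 ^ 3)
          + CL') * tot = CL * Real.sqrt θ / κI * (3 * C0 ^ 3 * tot) +
            CL * Real.sqrt θ * (6 * C0 ^ 3 * tot) + CL' * tot := by ring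
        rw [e1, ENNReal.ofReal_add (by positivity) (by positivity),
          ENNReal.ofReal_add (by positivity) (by positivity), ENNReal.ofReal_mul hX,
          ENNReal.ofReal_mul hX2 (q := 6 * C0 ^ 3 * tot)]
        ring

/-- the inequality (M_j) in the form of AS -/
lemma lemMj {CM η2 CKi B1 B2 CC ηA Cj : ℝ} {St Sol III INT : Set (Cell d)} {LW : ℝ≥0∞}
    (hCM : 0 < CM) (hη2 : 0 ≤ η2) (hCKi : 0 ≤ CKi) (hB1 : 0 ≤ B1) (hB2 : 0 ≤ B2) (hCC : 0 ≤ CC)
    (hCj : 0 ≤ Cj) (hηA : CM * η2 * B1 ≤ ηA)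
    (H : FinH C0 C1R C9 J e ρb Nb Cu γ s0 tot ns nb Nr a al ah at' D b oml omp v TG Y G)
    (hst : cs St (fun Q => cw s0 Q * (sh b Q * oml Q)) ≤
      ENNReal.ofReal B1 * cs univ (fXF s0 b oml) + ENNReal.ofReal (B2 * tot))
    (hco : cs univ (fun Q => cw s0 Q * costF Sol al D oml Q) ≤ LW + ENNReal.ofReal (CC * tot))
    (hMJ : cs (L2 d ∩ Sol ∩ INT) (fun Q => cw s0 Q * (b Q * oml Q)) +
        cs (L2 d ∩ III ∩ INT) (fun Q => cw s0 Q * (Y Q + b (up 9 Q) * v Q)) ≤
        ENNReal.ofReal (Cj * tot) + ENNReal.ofReal (CM * η2) *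
            cs univ (fun Q => cw s0 Q * sBF St b oml Q)
          + ENNReal.ofReal (CM * CKi) * cs univ (fun Q => cw s0 Q * iFF Sol INT D b oml Q)
          + ENNReal.ofReal CM * cs univ (fun Q => cw s0 Q * costF Sol al D oml Q)) :
    cs (L2 d ∩ Sol ∩ INT) (fXF s0 b oml) + cs (L2 d ∩ III ∩ INT) (fBF s0 Y b v) ≤
      ENNReal.ofReal ((Cj + CM * η2 * B2 + CM * CC) * tot) +
        ENNReal.ofReal ηA * cs univ (fXF s0 b oml) +
        ENNReal.ofReal (CM * CKi) * cs (L2 d ∩ Sol ∩ INTᶜ) (fSF s0 D b oml) +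
        ENNReal.ofReal CM * LW := by
  have ht := H.T.tot_nonneg
  rw [fX_eq (inter_subset_left.trans inter_subset_left),
    fB_eq (inter_subset_left.trans inter_subset_left)]
  refine hMJ.trans ?_
  have e1 : cs univ (fun Q => cw s0 Q * sBF St b oml Q) =
      cs St (fun Q => cw s0 Q * (sh b Q * oml Q)) := by unfold sBF; rw [cs_ind_mul]
  have e2 : cs univ (fun Q => cw s0 Q * iFF Sol INT D b oml Q) =
      cs (L2 d ∩ Sol ∩ INTᶜ) (fSF s0 D b oml) := by unfold iFF; rw [cs_ind_mul]; rfl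
  rw [e1, e2]
  have hX : 0 ≤ CM * η2 := by positivity
  calc _ ≤ ENNReal.ofReal (Cj * tot) + ENNReal.ofReal (CM * η2) *
        (ENNReal.ofReal B1 * cs univ (fXF s0 b oml) + ENNReal.ofReal (B2 * tot)) +
        ENNReal.ofReal (CM * CKi) * cs (L2 d ∩ Sol ∩ INTᶜ) (fSF s0 D b oml) +
        ENNReal.ofReal CM * (LW + ENNReal.ofReal (CC * tot)) :=
        add_le_add (add_le_add (add_le_add le_rfl (mul_le_mul_right hst _)) le_rfl)
          (mul_le_mul_right hco _)
    _ = ENNReal.ofReal ((Cj + CM * η2 * B2 + CM * CC) * tot) +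
        ENNReal.ofReal (CM * η2 * B1) * cs univ (fXF s0 b oml) +
        ENNReal.ofReal (CM * CKi) * cs (L2 d ∩ Sol ∩ INTᶜ) (fSF s0 D b oml) +
        ENNReal.ofReal CM * LW := by
        have e3 : (Cj + CM * η2 * B2 + CM * CC) * tot = Cj * tot + CM * η2 * (B2 * tot) +
          CM * (CC * tot) := by ring
        rw [e3, ENNReal.ofReal_add (by positivity) (by positivity),
          ENNReal.ofReal_add (by positivity) (by positivity), ENNReal.ofReal_mul hX (q := B2 * tot),
          ENNReal.ofReal_mul hCM.le (q := CC * tot), ENNReal.ofReal_mul hX (q := B1)]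
        ring
    _ ≤ _ := by
        refine add_le_add (add_le_add (add_le_add le_rfl ?_) le_rfl) le_rfl
        exact mul_le_mul_left (ofR hηA) _

end

end Fin

end

end TG
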