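import Pool.Agent.TG.FinA
set_option autoImplicit false
set_option linter.unusedSectionVars false
set_option linter.unusedVariables false

/-!
# Final assembly, abstract part: the chain of constants   (helper47)
-/

open MeasureTheory Metric Set TrI
open scoped InnerProductSpace ContDiff ENNReal

namespace TG

noncomputable section

variable {d : ℕ}

/-- MODULE FIN: the abstract assembly -/
def StmtFin : Prop :=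
  ∀ (d J ρb Nb e : ℕ) (C0 Cu c1 C1R C9 C1I γ κI θI δI : ℝ), 1 ≤ d → 0 < γ → γ ≤ 1 / 8 →
    1 ≤ C0 → 1 ≤ Cu → 0 < c1 → c1 ≤ 1 → 1 ≤ C1R → 1 ≤ C9 → 0 ≤ C1I → 0 < κI → κI ≤ 1 →
    0 < θI → θI ≤ 1 → 0 < δI →
  ∃ (η K Cr θ : ℝ), 0 < η ∧ 1 ≤ K ∧ 1 ≤ Cr ∧ 0 < θ ∧ θ ≤ θI ∧
  ∀ (CK κ0 : ℝ), 0 < CK → 0 < κ0 → ∃ (n : ℕ) (κ1 δ : ℝ), 0 < κ1 ∧ κ1 ≤ κ0 ∧ 0 < δ ∧
  ∀ (d0 Cs CN : ℝ) (r0 : ℕ), 0 < d0 → d0 ≤ 1 → 0 < Cs → 0 ≤ CN →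
  ∃ (δ' C' : ℝ), 0 < δ' ∧ δ' ≤ δI ∧ 2 * C0 * δ' ≤ 1 ∧ 0 < C' ∧
  ∀ (s0 tot : ℝ) (ns nb : Cell d → Finset (Cell d)) (Nr : Set (Cell d))
    (a al ah at' D b oml omp v TG Y : Cell d → ℝ) (G : ℕ → Cell d → ℝ)
    (N val E1 E2 : ℕ → Cell d → ℝ),
    FinH C0 C1R C9 J e ρb Nb Cu γ s0 tot ns nb Nr a al ah at' D b oml omp v TG Y G →
    (∀ P ∈ CIII γ κI δ' 9 at' D b TG, ∀ (i : ℕ) (S : Finset (Cell d)), i ≤ P.1 →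
      S ⊆ dn i P → (∀ Q ∈ S, Top γ θ ah at' i Q) →
        ∑ Q ∈ S, cw s0 Q * al Q ≤ C1I * (cw s0 P * (b (up 9 P) + D (up 9 P)) + G i P) ∧
        at' P * ∑ Q ∈ S, cw s0 Q * oml Q ^ 2 ≤ C1I * (cw s0 P * v P * Y P)) →
    cs (CIII γ κI δ' 9 at' D b TG) (fun P => cw s0 P * (Y P + b (up 9 P) * v P)) < ⊤ →
    (∀ j < n, LocW s0 γ Cu c1 η (Cr ^ 2) CK (κ1 * (1 / 2) ^ j) δ Cs r0 ns Nr
        (Strc γ K d0 a at' D) (TyA (κ1 * (1 / 2) ^ j) a D b) (N j) (val j) v a al ah D b at' TG Y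
        (E1 j) (E2 j) ∧
      Summable (N j) ∧ ∑' Q, N j Q ≤ CN * tot ∧ (∀ Q : Cell d, ¬ 2 ≤ Q.1 → N j Q = 0) ∧
      cs univ (fun Q => cw s0 Q * val j Q) < ⊤) →
    cs univ (fXF s0 b oml) ≤ ENNReal.ofReal (C' * tot)

end

end TG
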