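import Pool.Agent.TG.TreeTS2

/-! abstract assembly, section 17' -/

open Set TrI
open scoped ENNReal Classical

namespace TG

noncomputable section

variable {d : ℕ}

theorem sum_cs_inter (S : Set (Cell d)) (T : ℕ → Set (Cell d)) (F : Cell d → ℝ) (n : ℕ) :
    ∑ j ∈ Finset.range n, cs (S ∩ T j) F =
      ∑' Q, (((Finset.range n).filter (fun j => Q ∈ T j)).card : ℝ≥0∞) *
        S.indicator (fun Q => ENNReal.ofReal (F Q)) Q := by
  unfold cs
  rw [← Summable.tsum_finsetSum (fun _ _ => ENNReal.summable)]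
  apply tsum_congr
  intro Q
  rw [← nsmul_eq_mul, ← Finset.sum_const, Finset.sum_filter]
  apply Finset.sum_congr rfl
  intro j _
  by_cases h : Q ∈ T j <;> by_cases h' : Q ∈ S <;> simp [h, h']

theorem sum_cs_ge {S : Set (Cell d)} {T : ℕ → Set (Cell d)} {F : Cell d → ℝ} {n nI : ℕ}
    (h : ∀ Q ∈ S, {j | j < n ∧ Q ∉ T j}.ncard ≤ nI) :
    ((n - nI : ℕ) : ℝ≥0∞) * cs S F ≤ ∑ j ∈ Finset.range n, cs (S ∩ T j) F := by
  rw [sum_cs_inter]
  unfold cs
  rw [← ENNReal.tsum_mul_left]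
  apply ENNReal.tsum_le_tsum
  intro Q
  by_cases hQ : Q ∈ S
  · refine mul_le_mul_left ?_ _
    have h1 := h Q hQ
    have h2 : {j | j < n ∧ Q ∉ T j}.ncard =
        ((Finset.range n).filter (fun j => ¬ Q ∈ T j)).card := by
      rw [← Set.ncard_coe_finset]
      congr 1
      ext j; simp
    rw [h2] at h1
    have h3 := Finset.card_filter_add_card_filter_not (s := Finset.range n) (fun j => Q ∈ T j)
    rw [Finset.card_range] at h3
    have h4 : n - nI ≤ ((Finset.range n).filter (fun j => Q ∈ T j)).card := by omega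
    exact_mod_cast h4
  · simp [hQ]

theorem sum_cs_le {S : Set (Cell d)} {T : ℕ → Set (Cell d)} {F : Cell d → ℝ} {n nI : ℕ}
    (h : ∀ Q ∈ S, {j | j < n ∧ Q ∉ T j}.ncard ≤ nI) :
    ∑ j ∈ Finset.range n, cs (S ∩ (T j)ᶜ) F ≤ (nI : ℝ≥0∞) * cs S F := by
  rw [sum_cs_inter]
  unfold cs
  rw [← ENNReal.tsum_mul_left]
  apply ENNReal.tsum_le_tsum
  intro Q
  by_cases hQ : Q ∈ S
  · refine mul_le_mul_left ?_ _
    have h1 := h Q hQ
    have h2 : {j | j < n ∧ Q ∉ T j}.ncard =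
        ((Finset.range n).filter (fun j => Q ∈ (T j)ᶜ)).card := by
      rw [← Set.ncard_coe_finset]
      congr 1
      ext j; simp
    rw [h2] at h1
    have h3 : (((Finset.range n).filter (fun j => Q ∈ (T j)ᶜ)).card : ℝ≥0∞) ≤ nI := by
      exact_mod_cast h1
    convert h3
  · simp [hQ]

theorem as_real {C η0 CK Cs n nI tot η x B3 BS L F : ℝ} (hC : 0 < C) (hη0 : 0 < η0)
    (hη1 : η0 ≤ 1) (hη2 : 4 * C * η0 ≤ 1) (hη3 : 2 * ((4 * C * (3 + 2 * C) + C) * η0) ≤ 1)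
    (hCK : 0 ≤ CK) (hCs : 0 ≤ Cs) (hn : 0 < n) (hnI : 0 ≤ nI) (hn1 : 2 * nI ≤ n)
    (hn2 : 2 * CK ^ 2 * nI ≤ η0 * n) (htot : 0 ≤ tot) (hηη : η ≤ η0)
    (hx : 0 ≤ x) (hB3 : 0 ≤ B3) (hBS : 0 ≤ BS)
    (h1 : (n - nI) * (BS + B3) ≤ n * (Cs * tot + η * x + C * L) + CK * (nI * F))
    (h2 : F ≤ CK * x + Cs * tot) (h3 : L ≤ η * x + η * B3 + Cs * tot)
    (h4 : x ≤ C * BS + C * L + Cs * tot) :
    x ≤ (4 * C * (2 * (2 * Cs + CK * Cs + 2 * C * Cs)) + 2 * (C + 1) * Cs) * tot := by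
  set B := BS + B3 with hB
  have hB0 : 0 ≤ B := by positivity
  have i1 : n / 2 * B ≤ n * (Cs * tot + η * x + C * L) + CK * (nI * F) := by
    refine le_trans ?_ h1
    apply mul_le_mul_of_nonneg_right _ hB0
    linarith
  have i2 : CK * (nI * F) ≤ n * (η0 / 2 * x) + n * (CK / 2 * (Cs * tot)) := by
    have e1 : CK * (nI * F) ≤ CK * (nI * (CK * x + Cs * tot)) := by gcongr
    have e2 : CK * (nI * (CK * x + Cs * tot)) = (CK ^ 2 * nI) * x + CK * nI * (Cs * tot) := by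
      ring
    have e3 : (CK ^ 2 * nI) * x ≤ (η0 * n / 2) * x := by
      apply mul_le_mul_of_nonneg_right _ hx; linarith
    have e4 : CK * nI * (Cs * tot) ≤ CK * (n / 2) * (Cs * tot) := by
      have : nI ≤ n / 2 := by linarith
      gcongr
    nlinarith
  have i3 : B ≤ 2 * (Cs * tot + η * x + C * L) + η0 * x + CK * (Cs * tot) := by
    have : n / 2 * B ≤ n / 2 * (2 * (Cs * tot + η * x + C * L) + η0 * x + CK * (Cs * tot)) := by
      calc n / 2 * B ≤ n * (Cs * tot + η * x + C * L) + (n * (η0 / 2 * x)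
            + n * (CK / 2 * (Cs * tot))) := by linarith
        _ = _ := by ring
    exact le_of_mul_le_mul_left this (by positivity)
  have hηx : η * x ≤ η0 * x := by gcongr
  have hηB : η * B3 ≤ η0 * B := by
    have : B3 ≤ B := by rw [hB]; linarith
    gcongr
  have i4 : L ≤ η0 * x + η0 * B + Cs * tot := by linarith
  have hCL : C * L ≤ C * (η0 * x + η0 * B + Cs * tot) := by gcongr
  have hs0 : 0 ≤ Cs * tot := by positivity
  have i5 : B ≤ 2 * ((3 + 2 * C) * (η0 * x)) + 2 * ((2 * Cs + CK * Cs + 2 * C * Cs) * tot) := by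
    have : 2 * (C * (η0 * B)) ≤ 1 / 2 * B := by nlinarith
    nlinarith
  have i6 : x ≤ C * B + C * (η0 * x + η0 * B + Cs * tot) + Cs * tot := by
    have : C * BS ≤ C * B := by
      have : BS ≤ B := by rw [hB]; linarith
      gcongr
    linarith
  have i7 : C * (η0 * B) ≤ C * B := by
    have : η0 * B ≤ B := by nlinarith
    gcongr
  have i8 : x ≤ 2 * (C * B) + C * (η0 * x) + (C + 1) * (Cs * tot) := by nlinarith
  have i9 : 2 * (C * B) ≤ 2 * (C * (2 * ((3 + 2 * C) * (η0 * x)) +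
      2 * ((2 * Cs + CK * Cs + 2 * C * Cs) * tot))) := by gcongr
  have i10 : (4 * C * (3 + 2 * C) + C) * η0 * x ≤ 1 / 2 * x := by
    apply mul_le_mul_of_nonneg_right _ hx; linarith
  nlinarith

/-- MODULE AS with the order of quantifiers of the application: n0 is chosen before Cs -/
def StmtAS2 : Prop :=
  ∀ (C : ℝ), 0 < C → ∃ η0 : ℝ, 0 < η0 ∧ ∀ (CK : ℝ), 0 ≤ CK → ∀ nI : ℕ,
    ∃ n0 : ℕ, ∀ Cs : ℝ, 0 ≤ Cs → ∃ C' : ℝ, 0 < C' ∧ ∀ (d n : ℕ) (tot η : ℝ),
    n0 ≤ n → 0 ≤ tot → 0 ≤ η → η ≤ η0 →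
    ∀ (fX fB fsh : Cell d → ℝ) (Sol III : Set (Cell d)) (INT : ℕ → Set (Cell d)) (LW : ℝ≥0∞),
      (∀ Q, 0 ≤ fX Q) → (∀ Q, 0 ≤ fB Q) → (∀ Q, 0 ≤ fsh Q) →
      (∀ Q ∈ Sol, {j | j < n ∧ Q ∉ INT j}.ncard ≤ nI) →
      (∀ Q ∈ III, {j | j < n ∧ Q ∉ INT j}.ncard ≤ nI) →
      (∀ j < n, cs (Sol ∩ INT j) fX + cs (III ∩ INT j) fB ≤
        ENNReal.ofReal (Cs * tot) + ENNReal.ofReal η * cs univ fX
          + ENNReal.ofReal CK * cs (Sol ∩ (INT j)ᶜ) fsh + ENNReal.ofReal C * LW) →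
      cs Sol fsh ≤ ENNReal.ofReal CK * cs univ fX + ENNReal.ofReal (Cs * tot) →
      LW ≤ ENNReal.ofReal η * cs univ fX + ENNReal.ofReal η * cs III fB
        + ENNReal.ofReal (Cs * tot) →
      cs univ fX ≤ ENNReal.ofReal C * cs Sol fX + ENNReal.ofReal C * LW
        + ENNReal.ofReal (Cs * tot) →
      cs univ fX < ∞ → cs III fB < ∞ →
      cs univ fX ≤ ENNReal.ofReal (C' * tot)

theorem stmtAS2 : StmtAS2 := by
  intro C hC
  set η0 : ℝ := min 1 (min (1 / (4 * C)) (1 / (2 * (4 * C * (3 + 2 * C) + C)))) with hη0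
  have hpos : 0 < η0 := by
    rw [hη0]
    apply lt_min one_pos
    apply lt_min
    · positivity
    · positivity
  have hη1 : η0 ≤ 1 := min_le_left _ _
  have hη2 : 4 * C * η0 ≤ 1 := by
    have : η0 ≤ 1 / (4 * C) := (min_le_right _ _).trans (min_le_left _ _)
    rw [le_div_iff₀ (by positivity)] at this
    linarith
  have hη3 : 2 * ((4 * C * (3 + 2 * C) + C) * η0) ≤ 1 := by
    have : η0 ≤ 1 / (2 * (4 * C * (3 + 2 * C) + C)) := (min_le_right _ _).trans (min_le_right _ _)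
    rw [le_div_iff₀ (by positivity)] at this
    linarith
  refine ⟨η0, hpos, ?_⟩
  intro CK hCK nI
  obtain ⟨n0, hn0⟩ := exists_nat_ge (max (2 * nI + 1 : ℝ) (2 * CK ^ 2 * nI / η0))
  refine ⟨n0, ?_⟩
  intro Cs hCs
  refine ⟨(4 * C * (2 * (2 * Cs + CK * Cs + 2 * C * Cs)) + 2 * (C + 1) * Cs) + 1,
    by positivity, ?_⟩
  intro d n tot η hn htot hη hηη fX fB fsh Sol III INT LW hfX hfB hfsh hSol hIII hM hsh hLW hX
    hXf hBf
  have hnn0 : (n0 : ℝ) ≤ n := by exact_mod_cast hn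
  have hn1 : 2 * (nI : ℝ) + 1 ≤ n := ((le_max_left _ _).trans hn0).trans hnn0
  have hn2 : 2 * CK ^ 2 * (nI : ℝ) ≤ η0 * n := by
    have := ((le_max_right _ _).trans hn0).trans hnn0
    rw [div_le_iff₀ hpos] at this
    linarith
  have hnpos : (0 : ℝ) < n := by
    have : (0 : ℝ) ≤ nI := Nat.cast_nonneg _
    linarith
  have hnI : nI ≤ n := by
    have : (nI : ℝ) ≤ n := by
      have : (0 : ℝ) ≤ nI := Nat.cast_nonneg _
      linarith
    exact_mod_cast this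
  -- finiteness
  have hXt : cs univ fX ≠ ∞ := hXf.ne
  have hBt : cs III fB ≠ ∞ := hBf.ne
  have hSt : cs Sol fX ≠ ∞ := ((cs_le_univ Sol fX).trans_lt hXf).ne
  have hLt : LW ≠ ∞ := by
    apply ne_top_of_le_ne_top _ hLW
    exact ENNReal.add_ne_top.2 ⟨ENNReal.add_ne_top.2 ⟨ENNReal.mul_ne_top ENNReal.ofReal_ne_top hXt,
      ENNReal.mul_ne_top ENNReal.ofReal_ne_top hBt⟩, ENNReal.ofReal_ne_top⟩
  have hFt : cs Sol fsh ≠ ∞ := by
    apply ne_top_of_le_ne_top _ hsh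
    exact ENNReal.add_ne_top.2 ⟨ENNReal.mul_ne_top ENNReal.ofReal_ne_top hXt,
      ENNReal.ofReal_ne_top⟩
  -- sum over j
  have hsum : ((n - nI : ℕ) : ℝ≥0∞) * (cs Sol fX + cs III fB) ≤
      (n : ℝ≥0∞) * (ENNReal.ofReal (Cs * tot) + ENNReal.ofReal η * cs univ fX
        + ENNReal.ofReal C * LW) + ENNReal.ofReal CK * ((nI : ℝ≥0∞) * cs Sol fsh) := by
    calc ((n - nI : ℕ) : ℝ≥0∞) * (cs Sol fX + cs III fB)
        = ((n - nI : ℕ) : ℝ≥0∞) * cs Sol fX + ((n - nI : ℕ) : ℝ≥0∞) * cs III fB := mul_add _ _ _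
      _ ≤ ∑ j ∈ Finset.range n, cs (Sol ∩ INT j) fX
          + ∑ j ∈ Finset.range n, cs (III ∩ INT j) fB :=
          add_le_add (sum_cs_ge hSol) (sum_cs_ge hIII)
      _ = ∑ j ∈ Finset.range n, (cs (Sol ∩ INT j) fX + cs (III ∩ INT j) fB) := by
          rw [Finset.sum_add_distrib]
      _ ≤ ∑ j ∈ Finset.range n, (ENNReal.ofReal (Cs * tot) + ENNReal.ofReal η * cs univ fX
          + ENNReal.ofReal CK * cs (Sol ∩ (INT j)ᶜ) fsh + ENNReal.ofReal C * LW) := by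
          apply Finset.sum_le_sum
          intro j hj
          exact hM j (Finset.mem_range.1 hj)
      _ = (n : ℝ≥0∞) * (ENNReal.ofReal (Cs * tot) + ENNReal.ofReal η * cs univ fX
          + ENNReal.ofReal C * LW) + ENNReal.ofReal CK *
            ∑ j ∈ Finset.range n, cs (Sol ∩ (INT j)ᶜ) fsh := by
          have e : (n : ℝ≥0∞) * (ENNReal.ofReal (Cs * tot) + ENNReal.ofReal η * cs univ fX
              + ENNReal.ofReal C * LW) = ∑ _j ∈ Finset.range n, (ENNReal.ofReal (Cs * tot)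
              + ENNReal.ofReal η * cs univ fX + ENNReal.ofReal C * LW) := by
            rw [Finset.sum_const, Finset.card_range, nsmul_eq_mul]
          rw [Finset.mul_sum, e, ← Finset.sum_add_distrib]
          apply Finset.sum_congr rfl
          intro j _
          ring
      _ ≤ _ := by
          refine add_le_add le_rfl (mul_le_mul_right ?_ _)
          exact sum_cs_le hSol
  -- to the reals
  set x := (cs univ fX).toReal with hx
  set B3 := (cs III fB).toReal with hB3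
  set BS := (cs Sol fX).toReal with hBS
  set L := LW.toReal with hL
  set F := (cs Sol fsh).toReal with hF
  have r1 : ((n : ℝ) - nI) * (BS + B3) ≤ n * (Cs * tot + η * x + C * L) + CK * (nI * F) := by
    have hT : (n : ℝ≥0∞) * (ENNReal.ofReal (Cs * tot) + ENNReal.ofReal η * cs univ fX
        + ENNReal.ofReal C * LW) + ENNReal.ofReal CK * ((nI : ℝ≥0∞) * cs Sol fsh) ≠ ∞ := by
      apply ENNReal.add_ne_top.2
      refine ⟨ENNReal.mul_ne_top (ENNReal.natCast_ne_top n) ?_, ENNReal.mul_ne_top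
        ENNReal.ofReal_ne_top (ENNReal.mul_ne_top (ENNReal.natCast_ne_top nI) hFt)⟩
      exact ENNReal.add_ne_top.2 ⟨ENNReal.add_ne_top.2 ⟨ENNReal.ofReal_ne_top,
        ENNReal.mul_ne_top ENNReal.ofReal_ne_top hXt⟩, ENNReal.mul_ne_top ENNReal.ofReal_ne_top hLt⟩
    have h := ENNReal.toReal_mono hT hsum
    rw [ENNReal.toReal_mul, ENNReal.toReal_add hSt hBt, ENNReal.toReal_natCast,
      ENNReal.toReal_add, ENNReal.toReal_mul, ENNReal.toReal_natCast, ENNReal.toReal_add,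
      ENNReal.toReal_add, ENNReal.toReal_mul, ENNReal.toReal_mul, ENNReal.toReal_mul,
      ENNReal.toReal_mul, ENNReal.toReal_natCast, ENNReal.toReal_ofReal (by positivity),
      ENNReal.toReal_ofReal hη, ENNReal.toReal_ofReal hC.le, ENNReal.toReal_ofReal hCK,
      Nat.cast_sub hnI] at h
    · exact h
    · exact ENNReal.ofReal_ne_top
    · exact ENNReal.mul_ne_top ENNReal.ofReal_ne_top hXt
    · exact ENNReal.add_ne_top.2 ⟨ENNReal.ofReal_ne_top,
        ENNReal.mul_ne_top ENNReal.ofReal_ne_top hXt⟩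
    · exact ENNReal.mul_ne_top ENNReal.ofReal_ne_top hLt
    · exact (ENNReal.add_ne_top.1 hT).1
    · exact (ENNReal.add_ne_top.1 hT).2
  have r2 : F ≤ CK * x + Cs * tot := by
    have hT : ENNReal.ofReal CK * cs univ fX + ENNReal.ofReal (Cs * tot) ≠ ∞ :=
      ENNReal.add_ne_top.2 ⟨ENNReal.mul_ne_top ENNReal.ofReal_ne_top hXt, ENNReal.ofReal_ne_top⟩
    have h := ENNReal.toReal_mono hT hsh
    rwa [ENNReal.toReal_add (ENNReal.add_ne_top.1 hT).1 (ENNReal.add_ne_top.1 hT).2,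
      ENNReal.toReal_mul, ENNReal.toReal_ofReal hCK, ENNReal.toReal_ofReal (by positivity)] at h
  have r3 : L ≤ η * x + η * B3 + Cs * tot := by
    have hT : ENNReal.ofReal η * cs univ fX + ENNReal.ofReal η * cs III fB
        + ENNReal.ofReal (Cs * tot) ≠ ∞ :=
      ENNReal.add_ne_top.2 ⟨ENNReal.add_ne_top.2 ⟨ENNReal.mul_ne_top ENNReal.ofReal_ne_top hXt,
      ENNReal.mul_ne_top ENNReal.ofReal_ne_top hBt⟩, ENNReal.ofReal_ne_top⟩
    have h := ENNReal.toReal_mono hT hLW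
    have hT1 := (ENNReal.add_ne_top.1 hT).1
    rwa [ENNReal.toReal_add hT1 (ENNReal.add_ne_top.1 hT).2,
      ENNReal.toReal_add (ENNReal.add_ne_top.1 hT1).1 (ENNReal.add_ne_top.1 hT1).2,
      ENNReal.toReal_mul, ENNReal.toReal_mul, ENNReal.toReal_ofReal hη,
      ENNReal.toReal_ofReal (by positivity)] at h
  have r4 : x ≤ C * BS + C * L + Cs * tot := by
    have hT : ENNReal.ofReal C * cs Sol fX + ENNReal.ofReal C * LW
        + ENNReal.ofReal (Cs * tot) ≠ ∞ :=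
      ENNReal.add_ne_top.2 ⟨ENNReal.add_ne_top.2 ⟨ENNReal.mul_ne_top ENNReal.ofReal_ne_top hSt,
      ENNReal.mul_ne_top ENNReal.ofReal_ne_top hLt⟩, ENNReal.ofReal_ne_top⟩
    have h := ENNReal.toReal_mono hT hX
    have hT1 := (ENNReal.add_ne_top.1 hT).1
    rwa [ENNReal.toReal_add hT1 (ENNReal.add_ne_top.1 hT).2,
      ENNReal.toReal_add (ENNReal.add_ne_top.1 hT1).1 (ENNReal.add_ne_top.1 hT1).2,
      ENNReal.toReal_mul, ENNReal.toReal_mul, ENNReal.toReal_ofReal hC.le,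
      ENNReal.toReal_ofReal (by positivity)] at h
  have hmain := as_real (C := C) (η0 := η0) (CK := CK) (Cs := Cs) (n := n) (nI := nI) (tot := tot)
    (η := η) (x := x) (B3 := B3) (BS := BS) (L := L) (F := F) hC hpos hη1 hη2 hη3 hCK hCs hnpos
    (Nat.cast_nonneg _) (by linarith) hn2 htot hηη ENNReal.toReal_nonneg
    ENNReal.toReal_nonneg ENNReal.toReal_nonneg r1 r2 r3 r4
  rw [← ENNReal.ofReal_toReal hXt]
  apply ENNReal.ofReal_le_ofReal
  rw [← hx]
  nlinarith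

theorem stmtAS : StmtAS := by
  intro C hC
  obtain ⟨η0, h0, H⟩ := stmtAS2 C hC
  refine ⟨η0, h0, fun CK Cs hCK hCs nI => ?_⟩
  obtain ⟨n0, Hn⟩ := H CK hCK nI
  obtain ⟨C', hC', H'⟩ := Hn Cs hCs
  exact ⟨n0, C', hC', H'⟩

end

end TG
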