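import Pool.Agent.TG.TreePQa
set_option autoImplicit false
set_option linter.unusedSectionVars false

/-!
# From the local inequalities LocW to (P), (Q1), (Q2) of StmtMJ   (helper47)
-/

open MeasureTheory Metric Set TrI
open scoped InnerProductSpace ContDiff ENNReal

namespace TG

noncomputable section

variable {d : ℕ}

namespace PQ

section
variable {Cu Cr CK κ δ Cs η c1 γ s0 : ℝ} {Nb r0 : ℕ} {ns nb : Cell d → Finset (Cell d)}
  {Nr St Sol : Set (Cell d)} {N val v oml a al ah D b at' TG Y E1 E2 : Cell d → ℝ}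

/-- the Y-inequality -/
lemma lemY (hCu : 1 ≤ Cu) (hCr : 1 ≤ Cr) (hCK : 0 < CK) (hκ : 0 < κ) (hκ1 : κ ≤ 1)
    (hδ : 0 < δ) (hδκ : δ ≤ κ) (hCs : 0 < Cs)
    (W : WtH s0 Cu Nb ns nb Nr v oml) (B : RbH Cr nb St Sol a ah D b)
    (al0 : ∀ Q, 0 ≤ al Q) (TG0 : ∀ Q, 0 ≤ TG Q)
    (L : LocW s0 γ Cu c1 η (Cr ^ 2) CK κ δ Cs r0 ns Nr St (TyA κ a D b) N val v a al ah D b at' TG
      Y E1 E2) {Q : Cell d}
    (hQ : Q ∈ Sol) (hI : Q ∈ Intr κ a D b nb) (h2 : 2 ≤ Q.1)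
    (hfl : ∀ l : ℕ, at' (up l Q) ≤ (2 : ℝ) ^ (γ * l) * at' Q) :
    Y Q ≤ Cu ^ 2 * (∑ Q' ∈ nb Q, val2 val Q') + Cu * (v Q * b (up 9 Q)) +
      (Nb * (CK ^ 2 + 1) * Cr ^ 2 * Cu ^ 2) * (κ + δ / κ) * (∑ Q' ∈ nb Q, sBF St b oml Q') +
      (2 * (Nb * (CK ^ 2 + 1) * Cr ^ 2 * Cu ^ 2) + 2 * (Cs * Cu)) *
        ∑ Q' ∈ nb Q, payF r0 St D oml TG Q' := by
  have hns : ns Q ⊆ nb Q := W.ns_nb Q
  have h0 : Q ∈ nb Q := hns (W.self Q)
  have hh := (B.half Q hQ).1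
  obtain ⟨hSV, -, hSB, -, hSP⟩ := sums_nonneg (r0 := r0) W B al0 TG0 L.val0 univ Q
  have hTG : v Q * TG Q ≤ Cu * ∑ Q' ∈ nb Q, payF r0 St D oml TG Q' := by
    have h1 : TG Q ≤ payF r0 St D oml TG Q := by
      unfold payF
      linarith [ind_nonneg W B Q, dsm_nonneg (r0 := r0) B Q]
    have h3 := h1.trans
      (Finset.single_le_sum (f := payF r0 St D oml TG) (fun i _ => pay_nonneg W B TG0 i) h0)
    exact mul_le_mul (W.v1 Q) h3 (TG0 Q) (by linarith)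
  set SV := ∑ Q' ∈ nb Q, val2 val Q'
  set SB := ∑ Q' ∈ nb Q, sBF St b oml Q'
  set SP := ∑ Q' ∈ nb Q, payF r0 St D oml TG Q'
  have hw := cw_pos W.s0_pos Q
  have hV := lemV (Q := Q) W L.val0 hCu h2 hns
  have hD := lemD (r0 := r0) (Q := Q) (Q0 := Q) W B hCu TG0 hns
  have hdk : 0 ≤ δ / κ := by positivity
  have hdk1 : δ / κ ≤ 1 := by rw [div_le_one hκ]; exact hδκ
  rcases hI with hA | hA
  · have h6 := L.wA7 Q h2 hfl (allA hCr B hQ hns h0 hh hA)
    have hE := lemE (r0 := r0) hCu hCr hCK hκ hκ1 W B TG0 L.E2_le hQ hns hA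
    have h7 : Y Q ≤ Cu * (Cu * SV) + Cu * (v Q * b (up 9 Q)) +
        CK * (Nb * CK * Cr ^ 2 * Cu ^ 2 * (κ * SB + 2 * SP)) + Cs * (Cu * SP + Cu * SP) := by
      refine divw hw ?_
      calc cw s0 Q * Y Q ≤ _ := h6
        _ ≤ Cu * (cw s0 Q * (Cu * SV)) + Cu * (cw s0 Q * v Q) * b (up 9 Q) +
            CK * cw s0 Q * (v Q * sEs ns Nr E2 Q) +
            Cs * cw s0 Q * (v Q * (∑ Q' ∈ ns Q, dsm r0 D Q') + v Q * TG Q) := by
            have := mul_le_mul_of_nonneg_left hV (by linarith : (0 : ℝ) ≤ Cu)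
            linarith
        _ ≤ Cu * (cw s0 Q * (Cu * SV)) + Cu * (cw s0 Q * v Q) * b (up 9 Q) +
            CK * cw s0 Q * (Nb * CK * Cr ^ 2 * Cu ^ 2 * (κ * SB + 2 * SP)) +
            Cs * cw s0 Q * (Cu * SP + Cu * SP) := by
            have i1 := mul_le_mul_of_nonneg_left hE (by positivity : 0 ≤ CK * cw s0 Q)
            have i2 := mul_le_mul_of_nonneg_left (add_le_add hD hTG)
              (by positivity : 0 ≤ Cs * cw s0 Q)
            linarith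
        _ = _ := by ring
    refine h7.trans ?_
    have e1 : (Nb * (CK ^ 2 + 1) * Cr ^ 2 * Cu ^ 2) * (κ + δ / κ) * SB ≥
        (Nb * CK ^ 2 * Cr ^ 2 * Cu ^ 2) * κ * SB := by
      refine mul_le_mul_of_nonneg_right ?_ hSB
      refine mul_le_mul ?_ (by linarith) hκ.le (by positivity)
      refine mul_le_mul_of_nonneg_right (mul_le_mul_of_nonneg_right ?_ (by positivity))
        (by positivity)
      exact mul_le_mul_of_nonneg_left (by linarith) (by positivity)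
    have e2 : 2 * (Nb * (CK ^ 2 + 1) * Cr ^ 2 * Cu ^ 2) * SP ≥
        2 * (Nb * CK ^ 2 * Cr ^ 2 * Cu ^ 2) * SP := by
      refine mul_le_mul_of_nonneg_right ?_ hSP
      refine mul_le_mul_of_nonneg_left ?_ (by norm_num)
      refine mul_le_mul_of_nonneg_right (mul_le_mul_of_nonneg_right ?_ (by positivity))
        (by positivity)
      exact mul_le_mul_of_nonneg_left (by linarith) (by positivity)
    linarith
  · have h6 := L.wB7 Q h2 hfl (allB B hQ hns hA)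
    have hM := lemM (r0 := r0) hCu hCr hκ W B TG0 hQ hns hA
    have h7 : Y Q ≤ Cu * (Cu * SV) + Cu * (v Q * b (up 9 Q)) +
        δ * (1 / κ * (Nb * Cr ^ 2 * Cu ^ 2) * (SB + SP)) + Cs * (Cu * SP + Cu * SP) := by
      refine divw hw ?_
      calc cw s0 Q * Y Q ≤ _ := h6
        _ ≤ Cu * (cw s0 Q * (Cu * SV)) + Cu * (cw s0 Q * v Q) * b (up 9 Q) +
            δ * cw s0 Q * (v Q * sMs ns Nr a Q) +
            Cs * cw s0 Q * (v Q * (∑ Q' ∈ ns Q, dsm r0 D Q') + v Q * TG Q) := by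
            have := mul_le_mul_of_nonneg_left hV (by linarith : (0 : ℝ) ≤ Cu)
            linarith
        _ ≤ Cu * (cw s0 Q * (Cu * SV)) + Cu * (cw s0 Q * v Q) * b (up 9 Q) +
            δ * cw s0 Q * (1 / κ * (Nb * Cr ^ 2 * Cu ^ 2) * (SB + SP)) +
            Cs * cw s0 Q * (Cu * SP + Cu * SP) := by
            have i1 := mul_le_mul_of_nonneg_left hM (by positivity : 0 ≤ δ * cw s0 Q)
            have i2 := mul_le_mul_of_nonneg_left (add_le_add hD hTG)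
              (by positivity : 0 ≤ Cs * cw s0 Q)
            linarith
        _ = _ := by ring
    refine h7.trans ?_
    have e0 : δ * (1 / κ * (Nb * Cr ^ 2 * Cu ^ 2) * (SB + SP)) =
        (Nb * Cr ^ 2 * Cu ^ 2) * (δ / κ) * SB + (Nb * Cr ^ 2 * Cu ^ 2) * (δ / κ) * SP := by
      ring
    have e1 : (Nb * (CK ^ 2 + 1) * Cr ^ 2 * Cu ^ 2) * (κ + δ / κ) * SB ≥
        (Nb * 1 * Cr ^ 2 * Cu ^ 2) * (δ / κ) * SB := by
      refine mul_le_mul_of_nonneg_right ?_ hSB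
      refine mul_le_mul ?_ (by linarith) hdk (by positivity)
      refine mul_le_mul_of_nonneg_right (mul_le_mul_of_nonneg_right ?_ (by positivity))
        (by positivity)
      exact mul_le_mul_of_nonneg_left (by linarith [sq_nonneg CK]) (by positivity)
    have e2 : 2 * (Nb * (CK ^ 2 + 1) * Cr ^ 2 * Cu ^ 2) * SP ≥
        (Nb * 1 * Cr ^ 2 * Cu ^ 2) * (δ / κ) * SP := by
      refine mul_le_mul_of_nonneg_right ?_ hSP
      have i1 : (Nb * 1 * Cr ^ 2 * Cu ^ 2 : ℝ) ≤ Nb * (CK ^ 2 + 1) * Cr ^ 2 * Cu ^ 2 := by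
        refine mul_le_mul_of_nonneg_right (mul_le_mul_of_nonneg_right ?_ (by positivity))
          (by positivity)
        exact mul_le_mul_of_nonneg_left (by linarith [sq_nonneg CK]) (by positivity)
      have i2 : (Nb * 1 * Cr ^ 2 * Cu ^ 2 : ℝ) * (δ / κ) ≤ (Nb * 1 * Cr ^ 2 * Cu ^ 2) * 1 :=
        mul_le_mul_of_nonneg_left hdk1 (by positivity)
      have i3 : (0 : ℝ) ≤ Nb * 1 * Cr ^ 2 * Cu ^ 2 := by positivity
      linarith
    rw [e0]
    linarith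

end

end PQ

end

end TG
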