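import Pool.Agent.TG.TreePQa
set_option autoImplicit false
set_option linter.unusedSectionVars false

/-!
# From the local inequalities LocW to (P), (Q1), (Q2) of StmtMJ   (helper47)
-/

open MeasureTheory Metric Set TrI
open scoped InnerProductSpace ContDiff ENNReal

namespace TG

noncomputable section

variable {d : ℕ}

namespace PQ

section
variable {Cu Cr CK κ δ Cs η c1 γ s0 : ℝ} {Nb r0 : ℕ} {ns nb : Cell d → Finset (Cell d)}
  {Nr St Sol : Set (Cell d)} {N val v oml a al ah D b at' TG Y E1 E2 : Cell d → ℝ}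

/-- (P) for cells which are not solid -/
lemma P2 (hCu : 1 ≤ Cu) (hκ : 0 < κ) (hδ : 0 < δ) (hCs : 0 < Cs)
    (W : WtH s0 Cu Nb ns nb Nr v oml) (B : RbH Cr nb St Sol a ah D b)
    (al0 : ∀ Q, 0 ≤ al Q) (TG0 : ∀ Q, 0 ≤ TG Q)
    (L : LocW s0 γ Cu c1 η (Cr ^ 2) CK κ δ Cs r0 ns Nr St (TyA κ a D b) N val v a al ah D b at' TG
      Y E1 E2) {Q : Cell d} (h2 : 2 ≤ Q.1) (hN : Q ∈ Nr) (hQ : Q ∉ Sol) :
    cw s0 Q * val Q ≤ N Q + cw s0 Q * (Cu ^ 2 * (∑ Q' ∈ nb Q, costF Sol al D oml Q') +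
      δ / κ * Cu * (∑ Q' ∈ nb Q, sBF St b oml Q') +
      (δ / κ * Cu + Cs * Cu) * ∑ Q' ∈ nb Q, payF r0 St D oml TG Q') := by
  have hns : ns Q ⊆ nb Q := W.ns_nb Q
  have h0 : Q ∈ nb Q := hns (W.self Q)
  have hadj : adj Q ⊆ nb Q := (W.adj_ns Q).trans hns
  have hw := cw_pos W.s0_pos Q
  have h5 := L.w5 Q hN h2
  have hD := lemD (r0 := r0) (Q := Q) (Q0 := Q) W B hCu TG0 hadj
  have hc : v Q * (al Q + D Q) ≤ Cu * ∑ Q' ∈ nb Q, costF Sol al D oml Q' := by
    have e1 : costF Sol al D oml Q = (al Q + D Q) * oml Q := by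
      unfold costF; rw [indicator_of_mem (by exact hQ)]
    have e2 := Finset.single_le_sum (f := costF Sol al D oml)
      (fun i _ => cost_nonneg W B al0 i) h0
    calc v Q * (al Q + D Q) ≤ (Cu * oml Q) * (al Q + D Q) :=
          mul_le_mul_of_nonneg_right (W.vN Q hN) (add_nonneg (al0 Q) (B.Dn Q))
      _ = Cu * costF Sol al D oml Q := by rw [e1]; ring
      _ ≤ _ := mul_le_mul_of_nonneg_left e2 (by linarith)
  have hm : v Q * (∑ Q' ∈ adj Q, (St \ TyA κ a D b).indicator a Q') ≤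
      1 / κ * Cu * ((∑ Q' ∈ nb Q, sBF St b oml Q') + ∑ Q' ∈ nb Q, payF r0 St D oml TG Q') := by
    rw [← Finset.sum_add_distrib, Finset.mul_sum, Finset.mul_sum]
    refine le_trans (Finset.sum_le_sum (g := fun Q' => 1 / κ * Cu * (sBF St b oml Q' +
      payF r0 St D oml TG Q')) fun Q' hQ' => ?_)
      (Finset.sum_le_sum_of_subset_of_nonneg hadj fun i _ _ => mul_nonneg (by positivity)
        (add_nonneg (sB_nonneg W B i) (pay_nonneg W B TG0 i)))
    by_cases hS : Q' ∈ St \ TyA κ a D b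
    · rw [indicator_of_mem hS]
      have hv := W.vA Q hN Q' hQ'
      have ha : a Q' ≤ 1 / κ * (sh b Q' + sh D Q') := by
        have h1 := hS.2
        simp only [TyA, mem_ofPred_eq, not_le] at h1
        rw [one_div, ← div_eq_inv_mul, le_div_iff₀ hκ]
        linarith
      have e1 : sBF St b oml Q' = sh b Q' * oml Q' := by
        unfold sBF; rw [indicator_of_mem hS.1]
      have e2 := pay_sh (r0 := r0) (oml := oml) B TG0 hS.1
      have ho := W.oml0 Q'
      calc v Q * a Q' ≤ (Cu * oml Q') * (1 / κ * (sh b Q' + sh D Q')) :=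
            mul_le_mul hv ha (B.an _) (by positivity)
        _ = 1 / κ * Cu * (sh b Q' * oml Q' + sh D Q' * oml Q') := by ring
        _ ≤ _ := mul_le_mul_of_nonneg_left (by rw [e1]; linarith) (by positivity)
    · rw [indicator_of_notMem hS, mul_zero]
      exact mul_nonneg (by positivity) (add_nonneg (sB_nonneg W B Q') (pay_nonneg W B TG0 Q'))
  set SC := ∑ Q' ∈ nb Q, costF Sol al D oml Q'
  set SB := ∑ Q' ∈ nb Q, sBF St b oml Q'
  set SP := ∑ Q' ∈ nb Q, payF r0 St D oml TG Q'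
  have i1 := mul_le_mul_of_nonneg_left hc (by positivity : 0 ≤ Cu * cw s0 Q)
  have i2 := mul_le_mul_of_nonneg_left hm (by positivity : 0 ≤ δ * cw s0 Q)
  have i3 := mul_le_mul_of_nonneg_left hD (by positivity : 0 ≤ Cs * cw s0 Q)
  have e3 : δ * cw s0 Q * (1 / κ * Cu * (SB + SP)) = cw s0 Q * (δ / κ * Cu * SB +
    δ / κ * Cu * SP) := by ring
  linarith

end

end PQ

end

end TG
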