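import Pool.Agent.TG.TreePQa
set_option autoImplicit false
set_option linter.unusedSectionVars false

/-!
# From the local inequalities LocW to (P), (Q1), (Q2) of StmtMJ   (helper47)
-/

open MeasureTheory Metric Set TrI
open scoped InnerProductSpace ContDiff ENNReal

namespace TG

noncomputable section

variable {d : ℕ}

namespace PQ

section
variable {Cu Cr CK κ δ Cs η c1 γ s0 : ℝ} {Nb r0 : ℕ} {ns nb : Cell d → Finset (Cell d)}
  {Nr St Sol : Set (Cell d)} {N val v oml a al ah D b at' TG Y E1 E2 : Cell d → ℝ}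

/-- (P) for solid interior cells -/
lemma P34 (hCu : 1 ≤ Cu) (hCr : 1 ≤ Cr) (hCK : 0 < CK) (hκ : 0 < κ) (hκ1 : κ ≤ 1)
    (hδ : 0 < δ) (hδκ : δ ≤ κ) (hCs : 0 < Cs) (hη : 0 < η) (hc1 : c1 ≤ 1)
    (W : WtH s0 Cu Nb ns nb Nr v oml) (B : RbH Cr nb St Sol a ah D b)
    (al0 : ∀ Q, 0 ≤ al Q) (TG0 : ∀ Q, 0 ≤ TG Q)
    (L : LocW s0 γ Cu c1 η (Cr ^ 2) CK κ δ Cs r0 ns Nr St (TyA κ a D b) N val v a al ah D b at' TG
      Y E1 E2) {Q : Cell d} (h2 : 2 ≤ Q.1) (hN : Q ∈ Nr)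
    (hQ : Q ∈ Sol) (hI : Q ∈ Intr κ a D b nb) :
    c1 * (cw s0 Q * val Q) ≤ N Q + cw s0 Q * ((Cu * η) * (∑ Q' ∈ nb Q, val2 val Q') +
      (Nb * (CK ^ 2 + 1) * Cr ^ 2 * Cu ^ 2) * (κ + δ / κ) * (∑ Q' ∈ nb Q, sBF St b oml Q') +
      (2 * (Nb * (CK ^ 2 + 1) * Cr ^ 2 * Cu ^ 2) + Cs * Cu) *
        ∑ Q' ∈ nb Q, payF r0 St D oml TG Q') := by
  have hns : ns Q ⊆ nb Q := W.ns_nb Q
  have h0 : Q ∈ nb Q := hns (W.self Q)
  have hh := (B.half Q hQ).1
  obtain ⟨hSV, -, hSB, -, hSP⟩ := sums_nonneg (r0 := r0) W B al0 TG0 L.val0 univ Q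
  have hw := cw_pos W.s0_pos Q
  have hV := lemV (Q := Q) W L.val0 hCu h2 hns
  have hD := lemD (r0 := r0) (Q := Q) (Q0 := Q) W B hCu TG0 hns
  have hdk : 0 ≤ δ / κ := by positivity
  have hdk1 : δ / κ ≤ 1 := by rw [div_le_one hκ]; exact hδκ
  have hNb : (1 : ℝ) ≤ Nb := by
    have := Finset.card_pos.2 ⟨Q, h0⟩
    exact_mod_cast this.trans_le (W.card Q)
  rcases hI with hA | hA
  · have h6 := L.w2 Q hN h2 (allA hCr B hQ hns h0 hh hA)
    have hE := lemE (r0 := r0) hCu hCr hCK hκ hκ1 W B TG0 L.E2_le hQ hns hA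
    set SV := ∑ Q' ∈ nb Q, val2 val Q'
    set SB := ∑ Q' ∈ nb Q, sBF St b oml Q'
    set SP := ∑ Q' ∈ nb Q, payF r0 St D oml TG Q'
    have e1 : (Nb * (CK ^ 2 + 1) * Cr ^ 2 * Cu ^ 2) * (κ + δ / κ) * SB ≥
        (Nb * CK ^ 2 * Cr ^ 2 * Cu ^ 2) * κ * SB := by
      refine mul_le_mul_of_nonneg_right ?_ hSB
      refine mul_le_mul ?_ (by linarith) hκ.le (by positivity)
      refine mul_le_mul_of_nonneg_right (mul_le_mul_of_nonneg_right ?_ (by positivity))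
        (by positivity)
      exact mul_le_mul_of_nonneg_left (by linarith) (by positivity)
    have e2 : 2 * (Nb * (CK ^ 2 + 1) * Cr ^ 2 * Cu ^ 2) * SP ≥
        2 * (Nb * CK ^ 2 * Cr ^ 2 * Cu ^ 2) * SP := by
      refine mul_le_mul_of_nonneg_right ?_ hSP
      refine mul_le_mul_of_nonneg_left ?_ (by norm_num)
      refine mul_le_mul_of_nonneg_right (mul_le_mul_of_nonneg_right ?_ (by positivity))
        (by positivity)
      exact mul_le_mul_of_nonneg_left (by linarith) (by positivity)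
    have i0 := mul_le_mul_of_nonneg_left hV hη.le
    have i1 := mul_le_mul_of_nonneg_left hE (by positivity : 0 ≤ CK * cw s0 Q)
    have i2 := mul_le_mul_of_nonneg_left hD (by positivity : 0 ≤ Cs * cw s0 Q)
    have e3 : CK * cw s0 Q * (Nb * CK * Cr ^ 2 * Cu ^ 2 * (κ * SB + 2 * SP)) =
      cw s0 Q * ((Nb * CK ^ 2 * Cr ^ 2 * Cu ^ 2) * κ * SB +
        2 * (Nb * CK ^ 2 * Cr ^ 2 * Cu ^ 2) * SP) := by ring
    have e4 := mul_le_mul_of_nonneg_left (add_le_add e1.le e2.le) hw.le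
    linarith
  · have h6 := L.w3 Q hN h2 (allB B hQ hns hA)
    have hval : 0 ≤ cw s0 Q * val Q := mul_nonneg hw.le (L.val0 Q)
    obtain ⟨s1, -⟩ := B.sol Q hQ Q h0
    have hb0 := sh_nonneg B.bn Q
    have hD0 := sh_nonneg B.Dn Q
    have ho := W.oml0 Q
    have ha : a Q ≤ 1 / κ * (sh b Q + sh D Q) := by
      have h1 := hA Q h0
      simp only [TyA, mem_ofPred_eq, not_le] at h1
      rw [one_div, ← div_eq_inv_mul, le_div_iff₀ hκ]
      linarith
    have e1 : sh b Q * oml Q ≤ ∑ Q' ∈ nb Q, sBF St b oml Q' := by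
      have : sBF St b oml Q = sh b Q * oml Q := by unfold sBF; rw [indicator_of_mem s1]
      rw [← this]
      exact Finset.single_le_sum (f := sBF St b oml) (fun i _ => sB_nonneg W B i) h0
    have e2 : sh D Q * oml Q ≤ ∑ Q' ∈ nb Q, payF r0 St D oml TG Q' :=
      (pay_sh (r0 := r0) B TG0 s1).trans
        (Finset.single_le_sum (f := payF r0 St D oml TG) (fun i _ => pay_nonneg W B TG0 i) h0)
    have e2' : dsm r0 D Q ≤ ∑ Q' ∈ nb Q, payF r0 St D oml TG Q' :=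
      (pay_dsm W B TG0 Q).trans
        (Finset.single_le_sum (f := payF r0 St D oml TG) (fun i _ => pay_nonneg W B TG0 i) h0)
    set SV := ∑ Q' ∈ nb Q, val2 val Q'
    set SB := ∑ Q' ∈ nb Q, sBF St b oml Q'
    set SP := ∑ Q' ∈ nb Q, payF r0 St D oml TG Q'
    have hm : v Q * a Q ≤ 1 / κ * Cu * (SB + SP) := by
      calc v Q * a Q ≤ (Cu * oml Q) * (1 / κ * (sh b Q + sh D Q)) :=
            mul_le_mul (W.vN Q hN) ha (B.an _) (by positivity)
        _ = 1 / κ * Cu * (sh b Q * oml Q + sh D Q * oml Q) := by ring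
        _ ≤ _ := mul_le_mul_of_nonneg_left (by linarith) (by positivity)
    have hd : v Q * dsm r0 D Q ≤ Cu * SP := mul_le_mul (W.v1 Q) e2' (dsm_nonneg B Q) (by linarith)
    have i1 := mul_le_mul_of_nonneg_left hm (by positivity : 0 ≤ δ * cw s0 Q)
    have i2 := mul_le_mul_of_nonneg_left hd (by positivity : 0 ≤ Cs * cw s0 Q)
    have hK : Cu ≤ Nb * (CK ^ 2 + 1) * Cr ^ 2 * Cu ^ 2 := by
      have j1 : (1 : ℝ) ≤ Nb * (CK ^ 2 + 1) := by nlinarith [sq_nonneg CK]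
      have j2 : (1 : ℝ) ≤ Cr ^ 2 := by nlinarith
      have j3 : Cu ≤ Cu ^ 2 := by nlinarith
      calc Cu ≤ 1 * 1 * Cu ^ 2 := by linarith
        _ ≤ _ := by gcongr
    have e3 : δ * cw s0 Q * (1 / κ * Cu * (SB + SP)) = cw s0 Q * (Cu * (δ / κ) * SB +
      Cu * (δ / κ) * SP) := by ring
    have e4 : Cu * (δ / κ) * SB ≤ (Nb * (CK ^ 2 + 1) * Cr ^ 2 * Cu ^ 2) * (κ + δ / κ) * SB := by
      refine mul_le_mul_of_nonneg_right ?_ hSB
      exact mul_le_mul hK (by linarith) hdk (by positivity)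
    have e5 : Cu * (δ / κ) * SP ≤ 2 * (Nb * (CK ^ 2 + 1) * Cr ^ 2 * Cu ^ 2) * SP := by
      refine mul_le_mul_of_nonneg_right ?_ hSP
      nlinarith
    have e6 : 0 ≤ (Cu * η) * SV := by positivity
    have e7 := mul_le_mul_of_nonneg_left (add_le_add (add_le_add e4 e5) e6) hw.le
    have e8 : c1 * (cw s0 Q * val Q) ≤ cw s0 Q * val Q := by nlinarith
    linarith

end

end PQ

end

end TG
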