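import Pool.Agent.TG.TreePQa
set_option autoImplicit false
set_option linter.unusedSectionVars false

/-!
# From the local inequalities LocW to (P), (Q1), (Q2) of StmtMJ   (helper47)
-/

open MeasureTheory Metric Set TrI
open scoped InnerProductSpace ContDiff ENNReal

namespace TG

noncomputable section

variable {d : ℕ}

namespace PQ

section
variable {Cu Cr CK κ δ Cs η c1 γ s0 : ℝ} {Nb r0 : ℕ} {ns nb : Cell d → Finset (Cell d)}
  {Nr St Sol : Set (Cell d)} {N val v oml a al ah D b at' TG Y E1 E2 : Cell d → ℝ}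

/-- (P) for cells at the interface -/
lemma P5 (hCu : 1 ≤ Cu) (hCr : 1 ≤ Cr) (hCK : 0 < CK) (hκ : 0 < κ)
    (hδ : 0 < δ) (hδκ : δ ≤ κ) (hCs : 0 < Cs)
    (W : WtH s0 Cu Nb ns nb Nr v oml) (B : RbH Cr nb St Sol a ah D b)
    (al0 : ∀ Q, 0 ≤ al Q) (TG0 : ∀ Q, 0 ≤ TG Q)
    (L : LocW s0 γ Cu c1 η (Cr ^ 2) CK κ δ Cs r0 ns Nr St (TyA κ a D b) N val v a al ah D b at' TG
      Y E1 E2) {Q : Cell d} (h2 : 2 ≤ Q.1) (hN : Q ∈ Nr)
    (hQ : Q ∈ Sol) (hI : Q ∉ Intr κ a D b nb) :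
    c1 * (cw s0 Q * val Q) ≤ N Q + cw s0 Q * (
      (2 * (Nb * CK ^ 2 * Cu * Cr ^ 3) + Nb * Cr ^ 3 * Cu) *
        (∑ Q' ∈ nb Q, iFF Sol (Intr κ a D b nb) D b oml Q') +
      (Nb * CK * Cs * Cr * Cu + Cs * Cu) * ∑ Q' ∈ nb Q, payF r0 St D oml TG Q') := by
  have hns : ns Q ⊆ nb Q := W.ns_nb Q
  have h0 : Q ∈ nb Q := hns (W.self Q)
  have hadj : adj Q ⊆ nb Q := (W.adj_ns Q).trans hns
  have hh := (B.half Q hQ).1
  have hw := cw_pos W.s0_pos Q
  have hD := lemD (r0 := r0) (Q := Q) (Q0 := Q) W B hCu TG0 hadj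
  have ha0 := B.an Q
  have hCr2 : Cr ≤ Cr ^ 2 := by nlinarith
  have hah : 0 ≤ ah Q := by
    by_contra hneg
    rw [not_le] at hneg
    nlinarith
  have h4 := L.w4 Q hN h2 (fun Q' hQ' => by
    obtain ⟨t1, t2, t3, -⟩ := B.sol Q hQ Q' (hns hQ')
    exact ⟨t1, t2.trans (mul_le_mul_of_nonneg_right hCr2 ha0),
      t3.trans (mul_le_mul_of_nonneg_right hCr2 (B.an Q'))⟩)
    (hh.trans (mul_le_mul_of_nonneg_right hCr2 hah))
  -- the mass at the interface
  have hb0 := sh_nonneg B.bn Q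
  have hD0 := sh_nonneg B.Dn Q
  have ho := W.oml0 Q
  have hex : ∃ Q2 ∈ nb Q, Q2 ∉ TyA κ a D b := by
    by_contra hneg
    refine hI (Or.inl fun Q' hQ' => ?_)
    by_contra h'
    exact hneg ⟨Q', hQ', h'⟩
  obtain ⟨Q2, hQ2, hT2⟩ := hex
  set S : ℝ := sh b Q + sh D Q with hS
  have hS0 : 0 ≤ S := add_nonneg hb0 hD0
  have haQ : a Q ≤ Cr ^ 2 * (1 / κ * S) := by
    obtain ⟨-, -, t3, t4, -⟩ := B.sol Q hQ Q2 hQ2
    have h1 : a Q2 ≤ 1 / κ * (Cr * S) := by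
      simp only [TyA, mem_ofPred_eq, not_le] at hT2
      rw [one_div, ← div_eq_inv_mul, le_div_iff₀ hκ]
      linarith
    calc a Q ≤ Cr * a Q2 := t3
      _ ≤ Cr * (1 / κ * (Cr * S)) := mul_le_mul_of_nonneg_left h1 (by linarith)
      _ = _ := by ring
  have haQ' : ∀ Q' ∈ nb Q, a Q' ≤ Cr ^ 3 * (1 / κ * S) := by
    intro Q' hQ'
    obtain ⟨-, t2, -⟩ := B.sol Q hQ Q' hQ'
    calc a Q' ≤ Cr * a Q := t2
      _ ≤ Cr * (Cr ^ 2 * (1 / κ * S)) := mul_le_mul_of_nonneg_left haQ (by linarith)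
      _ = _ := by ring
  have hcard : ((adj Q).card : ℝ) ≤ Nb := by
    exact_mod_cast (Finset.card_le_card hadj).trans (W.card Q)
  have hE : ∑ Q' ∈ adj Q, (TyA κ a D b).indicator E1 Q' ≤
      Nb * (2 * CK * Cr ^ 3 * S + Cs * Cr * sh D Q) := by
    have hX : 0 ≤ 2 * CK * Cr ^ 3 * S + Cs * Cr * sh D Q := by positivity
    calc ∑ Q' ∈ adj Q, (TyA κ a D b).indicator E1 Q'
        ≤ ∑ _Q' ∈ adj Q, (2 * CK * Cr ^ 3 * S + Cs * Cr * sh D Q) := by
          refine Finset.sum_le_sum fun Q' hQ' => ?_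
          by_cases hT : Q' ∈ TyA κ a D b
          · rw [indicator_of_mem hT]
            obtain ⟨t1, t2, t3, t4, t5, t6, t7⟩ := B.sol Q hQ Q' (hadj hQ')
            have e1 := L.E1_le Q' t1 hT
            have hb1 := sh_nonneg B.bn Q'
            have hD1 := sh_nonneg B.Dn Q'
            have e2 : sh b Q' ≤ Cr ^ 3 * S := by
              have : Cr * S ≤ Cr ^ 3 * S := mul_le_mul_of_nonneg_right (by nlinarith) hS0
              linarith
            have e3 : κ * a Q' ≤ Cr ^ 3 * S := by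
              calc κ * a Q' ≤ κ * (Cr ^ 3 * (1 / κ * S)) :=
                    mul_le_mul_of_nonneg_left (haQ' Q' (hadj hQ')) hκ.le
                _ = (κ * (1 / κ)) * (Cr ^ 3 * S) := by ring
                _ = _ := by rw [mul_one_div_cancel hκ.ne', one_mul]
            have e4 := mul_le_mul_of_nonneg_left (add_le_add e2 e3) hCK.le
            have e5 := mul_le_mul_of_nonneg_left t6 hCs.le
            linarith
          · rw [indicator_of_notMem hT]; exact hX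
      _ = (adj Q).card * (2 * CK * Cr ^ 3 * S + Cs * Cr * sh D Q) := by
          rw [Finset.sum_const, nsmul_eq_mul]
      _ ≤ _ := mul_le_mul_of_nonneg_right hcard hX
  have hA : ∑ Q' ∈ adj Q, a Q' ≤ Nb * (Cr ^ 3 * (1 / κ * S)) := by
    have hX : 0 ≤ Cr ^ 3 * (1 / κ * S) := by positivity
    calc ∑ Q' ∈ adj Q, a Q' ≤ ∑ _Q' ∈ adj Q, Cr ^ 3 * (1 / κ * S) :=
          Finset.sum_le_sum fun Q' hQ' => haQ' Q' (hadj hQ')
      _ = (adj Q).card * (Cr ^ 3 * (1 / κ * S)) := by rw [Finset.sum_const, nsmul_eq_mul]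
      _ ≤ _ := mul_le_mul_of_nonneg_right hcard hX
  obtain ⟨s1, -⟩ := B.sol Q hQ Q h0
  have f1 : S * oml Q ≤ ∑ Q' ∈ nb Q, iFF Sol (Intr κ a D b nb) D b oml Q' := by
    have : iFF Sol (Intr κ a D b nb) D b oml Q = S * oml Q := by
      unfold iFF
      rw [indicator_of_mem (by exact ⟨⟨h2, hQ⟩, hI⟩)]
    rw [← this]
    exact Finset.single_le_sum (f := iFF Sol (Intr κ a D b nb) D b oml)
      (fun i _ => iF_nonneg W B _ i) h0
  have f2 : sh D Q * oml Q ≤ ∑ Q' ∈ nb Q, payF r0 St D oml TG Q' :=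
    (pay_sh (r0 := r0) B TG0 s1).trans
      (Finset.single_le_sum (f := payF r0 St D oml TG) (fun i _ => pay_nonneg W B TG0 i) h0)
  set SI := ∑ Q' ∈ nb Q, iFF Sol (Intr κ a D b nb) D b oml Q'
  set SP := ∑ Q' ∈ nb Q, payF r0 St D oml TG Q'
  have hv := W.vN Q hN
  have hv0 := W.v0 Q
  have g1 : CK * (cw s0 Q * v Q) * (∑ Q' ∈ adj Q, (TyA κ a D b).indicator E1 Q') ≤
      cw s0 Q * (2 * (Nb * CK ^ 2 * Cu * Cr ^ 3) * SI + Nb * CK * Cs * Cr * Cu * SP) := by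
    calc CK * (cw s0 Q * v Q) * (∑ Q' ∈ adj Q, (TyA κ a D b).indicator E1 Q')
        ≤ CK * (cw s0 Q * v Q) * (Nb * (2 * CK * Cr ^ 3 * S + Cs * Cr * sh D Q)) :=
          mul_le_mul_of_nonneg_left hE (by positivity)
      _ ≤ CK * (cw s0 Q * (Cu * oml Q)) * (Nb * (2 * CK * Cr ^ 3 * S + Cs * Cr * sh D Q)) := by
          refine mul_le_mul_of_nonneg_right ?_ (by positivity)
          refine mul_le_mul_of_nonneg_left ?_ hCK.le
          exact mul_le_mul_of_nonneg_left hv hw.le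
      _ = cw s0 Q * (2 * (Nb * CK ^ 2 * Cu * Cr ^ 3) * (S * oml Q) +
            Nb * CK * Cs * Cr * Cu * (sh D Q * oml Q)) := by ring
      _ ≤ _ := by
          refine mul_le_mul_of_nonneg_left ?_ hw.le
          exact add_le_add (mul_le_mul_of_nonneg_left f1 (by positivity))
            (mul_le_mul_of_nonneg_left f2 (by positivity))
  have g2 : δ * (cw s0 Q * v Q) * (∑ Q' ∈ adj Q, a Q') ≤
      cw s0 Q * (Nb * Cr ^ 3 * Cu * SI) := by
    have hdk1 : δ * (1 / κ) ≤ 1 := by rw [mul_one_div, div_le_one hκ]; exact hδκ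
    calc δ * (cw s0 Q * v Q) * (∑ Q' ∈ adj Q, a Q')
        ≤ δ * (cw s0 Q * v Q) * (Nb * (Cr ^ 3 * (1 / κ * S))) :=
          mul_le_mul_of_nonneg_left hA (by positivity)
      _ ≤ δ * (cw s0 Q * (Cu * oml Q)) * (Nb * (Cr ^ 3 * (1 / κ * S))) := by
          refine mul_le_mul_of_nonneg_right ?_ (by positivity)
          refine mul_le_mul_of_nonneg_left ?_ hδ.le
          exact mul_le_mul_of_nonneg_left hv hw.le
      _ = (δ * (1 / κ)) * (cw s0 Q * (Nb * Cr ^ 3 * Cu * (S * oml Q))) := by ring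
      _ ≤ 1 * (cw s0 Q * (Nb * Cr ^ 3 * Cu * (S * oml Q))) :=
          mul_le_mul_of_nonneg_right hdk1 (by positivity)
      _ ≤ _ := by
          rw [one_mul]
          refine mul_le_mul_of_nonneg_left ?_ hw.le
          exact mul_le_mul_of_nonneg_left f1 (by positivity)
  have g3 := mul_le_mul_of_nonneg_left hD (by positivity : 0 ≤ Cs * cw s0 Q)
  linarith

end

end PQ

end

end TG
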