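import Pool.Agent.TG.TreePQb
import Pool.Agent.TG.TreePQc
import Pool.Agent.TG.TreePQd
import Pool.Agent.TG.TreePQe
import Pool.Agent.TG.TreePQf
set_option autoImplicit false
set_option linter.unusedSectionVars false

/-!
# From the local inequalities LocW to (P), (Q1), (Q2) of StmtMJ   (helper47)
-/

open MeasureTheory Metric Set TrI
open scoped InnerProductSpace ContDiff ENNReal

namespace TG

noncomputable section

variable {d : ℕ}
open PQ in
theorem stmtPQ : StmtPQ := by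
  intro Cu Nb hCu
  have hCu0 : 0 < Cu := by linarith
  refine ⟨Cu ^ 2 + Cu ^ 3 + Cu ^ 4, by positivity, ?_⟩
  intro Cr CK hCr hCK
  have hCr0 : 0 < Cr := by linarith
  set K2 : ℝ := Nb * (CK ^ 2 + 1) * Cr ^ 2 * Cu ^ 2 with hK2
  have hK20 : 0 ≤ K2 := by positivity
  set CI : ℝ := 2 * (Nb * CK ^ 2 * Cu * Cr ^ 3) + Nb * Cr ^ 3 * Cu with hCI
  have hCI0 : 0 ≤ CI := by positivity
  refine ⟨Cu + (1 + 2 * Cu + Cu ^ 2) * K2 + CI, by positivity, ?_⟩
  intro Cs hCs
  set CP : ℝ := Nb * CK * Cs * Cr * Cu + Cs * Cu with hCP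
  have hCP0 : 0 < CP := by positivity
  refine ⟨Cu + CP + (2 + 2 * Cu + Cu ^ 2) * (2 * K2 + 2 * (Cs * Cu)), by positivity, ?_⟩
  intro κ δ hκ hκ1 hδ hδκ d r0 s0 γ c1 η ns nb Nr St Sol N val v oml a al ah D b at' TG Y E1 E2
    hc1 hc11 hη W B al0 TG0 hN0 L
  have hdk : 0 ≤ δ / κ := by positivity
  have hdk1 : δ / κ ≤ 1 := by rw [div_le_one hκ]; exact hδκ
  have hCsCu : 0 ≤ Cs * Cu := by positivity
  set C1 : ℝ := Cu ^ 2 + Cu ^ 3 + Cu ^ 4 with hC1
  set C2 : ℝ := Cu + (1 + 2 * Cu + Cu ^ 2) * K2 + CI with hC2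
  set C3 : ℝ := Cu + CP + (2 + 2 * Cu + Cu ^ 2) * (2 * K2 + 2 * (Cs * Cu)) with hC3
  have hq : 0 ≤ (2 * Cu + Cu ^ 2) * K2 := by positivity
  have hq1 : 0 ≤ (1 + 2 * Cu + Cu ^ 2) * K2 := by positivity
  have hq2 : 0 ≤ (2 + 2 * Cu + Cu ^ 2) * (2 * K2 + 2 * (Cs * Cu)) := by positivity
  have hC1a : Cu ^ 2 ≤ C1 := by rw [hC1]; linarith [pow_pos hCu0 3, pow_pos hCu0 4]
  have hC10 : 0 ≤ C1 := le_trans (by positivity) hC1a
  have hC20 : 0 ≤ C2 := by rw [hC2]; positivity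
  have hC30 : 0 ≤ C3 := by rw [hC3]; positivity
  have hkk : 0 ≤ κ + δ / κ := by positivity
  refine ⟨fun Q => ?_, fun Q hQ => ?_, fun P hP hfl => ?_⟩
  · rw [rhs_eq]
    obtain ⟨hSV, hSC, hSB, hSI, hSP⟩ := sums_nonneg (r0 := r0) W B al0 TG0 L.val0
      (Intr κ a D b nb) Q
    have hw := cw_pos W.s0_pos Q
    by_cases h2 : 2 ≤ Q.1
    · have hv2 : val2 val Q = val Q := by unfold val2; rw [if_pos h2]
      rw [hv2]
      have hval : 0 ≤ cw s0 Q * val Q := mul_nonneg hw.le (L.val0 Q)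
      have hc1v : c1 * (cw s0 Q * val Q) ≤ cw s0 Q * val Q := by nlinarith
      have t1 : 0 ≤ (Cu * η) * (∑ Q' ∈ nb Q, val2 val Q') := by positivity
      have t2 : 0 ≤ C1 * (∑ Q' ∈ nb Q, costF Sol al D oml Q') := by positivity
      have t3 : 0 ≤ C2 * (κ + δ / κ) * (∑ Q' ∈ nb Q, sBF St b oml Q') := by positivity
      have t4 : 0 ≤ C2 * (∑ Q' ∈ nb Q, iFF Sol (Intr κ a D b nb) D b oml Q') := by positivity
      have t5 : 0 ≤ C3 * (∑ Q' ∈ nb Q, payF r0 St D oml TG Q') := by positivity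
      by_cases hN : Q ∈ Nr
      · by_cases hQ : Q ∈ Sol
        · by_cases hI : Q ∈ Intr κ a D b nb
          · have h := P34 (r0 := r0) hCu hCr hCK hκ hκ1 hδ hδκ hCs hη hc11 W B al0 TG0 L h2 hN hQ hI
            refine h.trans (add_le_add le_rfl (mul_le_mul_of_nonneg_left ?_ hw.le))
            have u1 : K2 * (κ + δ / κ) * (∑ Q' ∈ nb Q, sBF St b oml Q') ≤
                C2 * (κ + δ / κ) * (∑ Q' ∈ nb Q, sBF St b oml Q') := by
              refine mul_le_mul_of_nonneg_right (mul_le_mul_of_nonneg_right ?_ hkk) hSB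
              rw [hC2]; linarith
            have u2 : (2 * K2 + Cs * Cu) * (∑ Q' ∈ nb Q, payF r0 St D oml TG Q') ≤
                C3 * (∑ Q' ∈ nb Q, payF r0 St D oml TG Q') := by
              refine mul_le_mul_of_nonneg_right ?_ hSP
              rw [hC3]
              have : 0 ≤ (1 + 2 * Cu + Cu ^ 2) * (2 * K2 + 2 * (Cs * Cu)) := by positivity
              linarith
            linarith
          · have h := P5 (r0 := r0) hCu hCr hCK hκ hδ hδκ hCs W B al0 TG0 L h2 hN hQ hI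
            refine h.trans (add_le_add le_rfl (mul_le_mul_of_nonneg_left ?_ hw.le))
            have u1 : CI * (∑ Q' ∈ nb Q, iFF Sol (Intr κ a D b nb) D b oml Q') ≤
                C2 * (∑ Q' ∈ nb Q, iFF Sol (Intr κ a D b nb) D b oml Q') := by
              refine mul_le_mul_of_nonneg_right ?_ hSI
              rw [hC2]; linarith
            have u2 : CP * (∑ Q' ∈ nb Q, payF r0 St D oml TG Q') ≤
                C3 * (∑ Q' ∈ nb Q, payF r0 St D oml TG Q') := by
              refine mul_le_mul_of_nonneg_right ?_ hSP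
              rw [hC3]; linarith
            linarith
        · have h := P2 (r0 := r0) hCu hκ hδ hCs W B al0 TG0 L h2 hN hQ
          refine hc1v.trans (h.trans (add_le_add le_rfl (mul_le_mul_of_nonneg_left ?_ hw.le)))
          have u0 : Cu ^ 2 * (∑ Q' ∈ nb Q, costF Sol al D oml Q') ≤
              C1 * (∑ Q' ∈ nb Q, costF Sol al D oml Q') := mul_le_mul_of_nonneg_right hC1a hSC
          have u1 : δ / κ * Cu * (∑ Q' ∈ nb Q, sBF St b oml Q') ≤
              C2 * (κ + δ / κ) * (∑ Q' ∈ nb Q, sBF St b oml Q') := by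
            refine mul_le_mul_of_nonneg_right ?_ hSB
            rw [mul_comm (δ / κ) Cu]
            exact mul_le_mul (by rw [hC2]; linarith) (by linarith) hdk hC20
          have u2 : (δ / κ * Cu + Cs * Cu) * (∑ Q' ∈ nb Q, payF r0 St D oml TG Q') ≤
              C3 * (∑ Q' ∈ nb Q, payF r0 St D oml TG Q') := by
            refine mul_le_mul_of_nonneg_right ?_ hSP
            have : δ / κ * Cu ≤ Cu := by nlinarith
            have h3 : 0 ≤ Nb * CK * Cs * Cr * Cu := by positivity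
            rw [hC3, hCP]; linarith
          linarith
      · have h := L.w1 Q h2 hN
        have h0 : Q ∈ nb Q := W.ns_nb Q (W.self Q)
        have e2 : dsm r0 D Q ≤ ∑ Q' ∈ nb Q, payF r0 St D oml TG Q' :=
          (pay_dsm W B TG0 Q).trans
            (Finset.single_le_sum (f := payF r0 St D oml TG) (fun i _ => pay_nonneg W B TG0 i) h0)
        have hd : v Q * dsm r0 D Q ≤ Cu * ∑ Q' ∈ nb Q, payF r0 St D oml TG Q' :=
          mul_le_mul (W.v1 Q) e2 (dsm_nonneg B Q) (by linarith)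
        have i2 := mul_le_mul_of_nonneg_left hd (by positivity : 0 ≤ Cs * cw s0 Q)
        have u2 : Cs * Cu * (∑ Q' ∈ nb Q, payF r0 St D oml TG Q') ≤
              C3 * (∑ Q' ∈ nb Q, payF r0 St D oml TG Q') := by
          refine mul_le_mul_of_nonneg_right ?_ hSP
          have h3 : 0 ≤ Nb * CK * Cs * Cr * Cu := by positivity
          rw [hC3, hCP]; linarith
        have i3 := mul_le_mul_of_nonneg_left (add_le_add (add_le_add (add_le_add (add_le_add
          t1 t2) t3) t4) u2) hw.le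
        linarith
    · have hv2 : val2 val Q = 0 := by unfold val2; rw [if_neg h2]
      rw [hv2, hN0 Q h2, mul_zero, mul_zero, zero_add]
      positivity
  · rw [rhs_eq]
    obtain ⟨⟨h2, hS⟩, hI⟩ := hQ
    obtain ⟨hSV, hSC, hSB, hSI, hSP⟩ := sums_nonneg (r0 := r0) W B al0 TG0 L.val0
      (Intr κ a D b nb) Q
    have h := lemb (r0 := r0) hCu hCr hCK hκ hκ1 hδ hδκ hCs W B al0 TG0 L hS hI (W.ns_nb Q)
      (W.ns_nb Q (W.self Q)) (B.half Q hS).1 h2
    have h1 : b Q * oml Q ≤ Cu * (v Q * b Q) := by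
      have := mul_le_mul_of_nonneg_left (W.ov Q) (B.bn Q)
      linarith
    have h3 := mul_le_mul_of_nonneg_left h hCu0.le
    have t2 : 0 ≤ C1 * (∑ Q' ∈ nb Q, costF Sol al D oml Q') := by positivity
    have t4 : 0 ≤ C2 * (∑ Q' ∈ nb Q, iFF Sol (Intr κ a D b nb) D b oml Q') := by positivity
    have u0 : Cu ^ 3 * (∑ Q' ∈ nb Q, val2 val Q') ≤ C1 * (∑ Q' ∈ nb Q, val2 val Q') :=
      mul_le_mul_of_nonneg_right (by rw [hC1]; linarith [pow_pos hCu0 2, pow_pos hCu0 4]) hSV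
    have u1 : (Cu * K2) * (κ + δ / κ) * (∑ Q' ∈ nb Q, sBF St b oml Q') ≤
        C2 * (κ + δ / κ) * (∑ Q' ∈ nb Q, sBF St b oml Q') := by
      refine mul_le_mul_of_nonneg_right (mul_le_mul_of_nonneg_right ?_ hkk) hSB
      rw [hC2]
      have : 0 ≤ (1 + Cu + Cu ^ 2) * K2 := by positivity
      linarith
    have u2 : Cu * (2 * K2 + Cs * Cu) * (∑ Q' ∈ nb Q, payF r0 St D oml TG Q') ≤
        C3 * (∑ Q' ∈ nb Q, payF r0 St D oml TG Q') := by
      refine mul_le_mul_of_nonneg_right ?_ hSP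
      rw [hC3]
      have : 0 ≤ (2 + Cu + Cu ^ 2) * (2 * K2 + 2 * (Cs * Cu)) := by positivity
      have h6 : 0 ≤ Cu * (Cs * Cu) := by positivity
      linarith
    linarith
  · rw [rhs_eq]
    obtain ⟨⟨h2, hS⟩, hI⟩ := hP
    obtain ⟨hSV, hSC, hSB, hSI, hSP⟩ := sums_nonneg (r0 := r0) W B al0 TG0 L.val0
      (Intr κ a D b nb) P
    have h9 : up 9 P ∈ nb P := W.ns9 P (W.self (up 9 P))
    have h := lemb (r0 := r0) hCu hCr hCK hκ hκ1 hδ hδκ hCs W B al0 TG0 L hS hI (W.ns9 P)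
      h9 (B.half P hS).2 (by show 2 ≤ P.1 + 9; omega)
    have hY := lemY (r0 := r0) hCu hCr hCK hκ hκ1 hδ hδκ hCs W B al0 TG0 L hS hI h2 hfl
    have hv9 : v P * b (up 9 P) ≤ Cu * (v (up 9 P) * b (up 9 P)) := by
      have := mul_le_mul_of_nonneg_right (W.vnb P (up 9 P) h9) (B.bn (up 9 P))
      linarith
    have t2 : 0 ≤ C1 * (∑ Q' ∈ nb P, costF Sol al D oml Q') := by positivity
    have t4 : 0 ≤ C2 * (∑ Q' ∈ nb P, iFF Sol (Intr κ a D b nb) D b oml Q') := by positivity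
    set SV := ∑ Q' ∈ nb P, val2 val Q'
    set SB := ∑ Q' ∈ nb P, sBF St b oml Q'
    set SP := ∑ Q' ∈ nb P, payF r0 St D oml TG Q'
    set X : ℝ := v P * b (up 9 P)
    have hX : X ≤ Cu * (Cu ^ 2 * SV + K2 * (κ + δ / κ) * SB + (2 * K2 + Cs * Cu) * SP) :=
      hv9.trans (mul_le_mul_of_nonneg_left h hCu0.le)
    have hX2 : (Cu + 1) * X ≤ (Cu + 1) *
      (Cu * (Cu ^ 2 * SV + K2 * (κ + δ / κ) * SB + (2 * K2 + Cs * Cu) * SP)) :=
      mul_le_mul_of_nonneg_left hX (by positivity)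
    have e1 : b (up 9 P) * v P = X := mul_comm _ _
    rw [e1]
    have u0 : (Cu ^ 2 + (Cu + 1) * (Cu * Cu ^ 2)) * SV = C1 * SV := by rw [hC1]; ring
    have u1 : (K2 + (Cu + 1) * (Cu * K2)) * (κ + δ / κ) * SB ≤ C2 * (κ + δ / κ) * SB := by
      refine mul_le_mul_of_nonneg_right (mul_le_mul_of_nonneg_right ?_ hkk) hSB
      rw [hC2]
      have : 0 ≤ Cu * K2 := by positivity
      linarith
    have u2 : ((2 * K2 + 2 * (Cs * Cu)) + (Cu + 1) * (Cu * (2 * K2 + Cs * Cu))) * SP ≤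
        C3 * SP := by
      refine mul_le_mul_of_nonneg_right ?_ hSP
      rw [hC3]
      have j1 : 0 ≤ Cu * (2 * K2 + 2 * (Cs * Cu)) := by positivity
      have j2 : 0 ≤ (Cu + 1) * (Cu * (Cs * Cu)) := by positivity
      linarith
    linarith

end

end TG
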