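import Pool.Agent.TG.Stmts16
import Pool.Agent.TG.Tree0
set_option autoImplicit false
set_option linter.unusedSectionVars false

/-!
# Definitions and statement for TreePQ   (helper47)
-/

open MeasureTheory Metric Set TrI
open scoped InnerProductSpace ContDiff ENNReal

namespace TG

noncomputable section

variable {d : ℕ}

/-- the weights -/
structure WtH (s0 Cu : ℝ) (Nb : ℕ) (ns nb : Cell d → Finset (Cell d)) (Nr : Set (Cell d))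
    (v oml : Cell d → ℝ) : Prop where
  s0_pos : 0 < s0
  v0 : ∀ Q, 0 ≤ v Q
  v1 : ∀ Q, v Q ≤ Cu
  oml0 : ∀ Q, 0 ≤ oml Q
  ov : ∀ Q, oml Q ≤ Cu * v Q
  vN : ∀ Q ∈ Nr, v Q ≤ Cu * oml Q
  vA : ∀ Q ∈ Nr, ∀ Q' ∈ adj Q, v Q ≤ Cu * oml Q'
  vnb : ∀ Q, ∀ Q' ∈ nb Q, v Q ≤ Cu * v Q'
  adj_ns : ∀ Q, adj Q ⊆ ns Q
  self : ∀ Q, Q ∈ ns Q
  ns_nb : ∀ Q, ns Q ⊆ nb Q
  ns9 : ∀ Q, ns (up 9 Q) ⊆ nb Q
  lvl : ∀ Q, ∀ Q' ∈ nb Q, Q.1 ≤ Q'.1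
  cw2 : ∀ Q, ∀ Q' ∈ nb Q, cw s0 Q' ≤ Cu * cw s0 Q
  card : ∀ Q, (nb Q).card ≤ Nb

/-- robustness of the types -/
structure RbH (Cr : ℝ) (nb : Cell d → Finset (Cell d)) (St Sol : Set (Cell d))
    (a ah D b : Cell d → ℝ) : Prop where
  an : ∀ Q, 0 ≤ a Q
  bn : ∀ Q, 0 ≤ b Q
  Dn : ∀ Q, 0 ≤ D Q
  sol : ∀ Q ∈ Sol, ∀ Q' ∈ nb Q, Q' ∈ St ∧ a Q' ≤ Cr * a Q ∧ a Q ≤ Cr * a Q' ∧
    sh b Q' + sh D Q' ≤ Cr * (sh b Q + sh D Q) ∧ sh b Q + sh D Q ≤ Cr * (sh b Q' + sh D Q') ∧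
    sh D Q' ≤ Cr * sh D Q ∧ sh D Q ≤ Cr * sh D Q'
  half : ∀ Q ∈ Sol, a Q ≤ Cr * ah Q ∧ a (up 9 Q) ≤ Cr * ah (up 9 Q)

/-- the values of the levels ≥ 2 -/
def val2 (val : Cell d → ℝ) (Q : Cell d) : ℝ := if 2 ≤ Q.1 then val Q else 0

/-- costs -/
def costF (Sol : Set (Cell d)) (al D oml : Cell d → ℝ) : Cell d → ℝ :=
  Solᶜ.indicator fun Q => (al Q + D Q) * oml Q

/-- the sums of b -/
def sBF (St : Set (Cell d)) (b oml : Cell d → ℝ) : Cell d → ℝ :=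
  St.indicator fun Q => sh b Q * oml Q

/-- the interface -/
def iFF (Sol INT : Set (Cell d)) (D b oml : Cell d → ℝ) : Cell d → ℝ :=
  ({Q | 2 ≤ Q.1} ∩ Sol ∩ INTᶜ).indicator fun Q => (sh b Q + sh D Q) * oml Q

/-- payable terms -/
def payF (r0 : ℕ) (St : Set (Cell d)) (D oml TG : Cell d → ℝ) (Q : Cell d) : ℝ :=
  dsm r0 D Q + St.indicator (fun Q => sh D Q * oml Q) Q + TG Q

/-- the right hand side of (P), (Q1), (Q2) -/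
def rhsF (Cv Cc Cb Ci Cp : ℝ) (r0 : ℕ) (nb : Cell d → Finset (Cell d)) (St Sol INT : Set (Cell d))
    (val al D b oml TG : Cell d → ℝ) (Q : Cell d) : ℝ :=
  ∑ Q' ∈ nb Q, (Cv * val2 val Q' + Cc * costF Sol al D oml Q' + Cb * sBF St b oml Q' +
    Ci * iFF Sol INT D b oml Q' + Cp * payF r0 St D oml TG Q')

/-- MODULE PQ: (P), (Q1), (Q2) from LocW -/
def StmtPQ : Prop :=
  ∀ (Cu : ℝ) (Nb : ℕ), 1 ≤ Cu → ∃ C1 : ℝ, 0 < C1 ∧ ∀ (Cr CK : ℝ), 1 ≤ Cr → 0 < CK →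
    ∃ C2 : ℝ, 0 < C2 ∧ ∀ Cs : ℝ, 0 < Cs → ∃ C3 : ℝ, 0 < C3 ∧
    ∀ κ δ : ℝ, 0 < κ → κ ≤ 1 → 0 < δ → δ ≤ κ →
    ∀ (d r0 : ℕ) (s0 γ c1 η : ℝ) (ns nb : Cell d → Finset (Cell d))
      (Nr St Sol : Set (Cell d)) (N val v oml a al ah D b at' TG Y E1 E2 : Cell d → ℝ),
      0 < c1 → c1 ≤ 1 → 0 < η → WtH s0 Cu Nb ns nb Nr v oml → RbH Cr nb St Sol a ah D b →
      (∀ Q, 0 ≤ al Q) → (∀ Q, 0 ≤ TG Q) → (∀ Q : Cell d, ¬ 2 ≤ Q.1 → N Q = 0) →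
      LocW s0 γ Cu c1 η (Cr ^ 2) CK κ δ Cs r0 ns Nr St (TyA κ a D b) N val v a al ah D b at' TG Y
        E1 E2 →
      (∀ Q, c1 * (cw s0 Q * val2 val Q) ≤ N Q + cw s0 Q *
        rhsF (Cu * η) C1 (C2 * (κ + δ / κ)) C2 C3 r0 nb St Sol (Intr κ a D b nb)
          val al D b oml TG Q) ∧
      (∀ Q ∈ {Q | 2 ≤ Q.1} ∩ Sol ∩ Intr κ a D b nb, b Q * oml Q ≤
        rhsF C1 C1 (C2 * (κ + δ / κ)) C2 C3 r0 nb St Sol (Intr κ a D b nb)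
          val al D b oml TG Q) ∧
      (∀ P ∈ {Q | 2 ≤ Q.1} ∩ Sol ∩ Intr κ a D b nb,
        (∀ l : ℕ, at' (up l P) ≤ (2 : ℝ) ^ (γ * l) * at' P) → Y P + b (up 9 P) * v P ≤
        rhsF C1 C1 (C2 * (κ + δ / κ)) C2 C3 r0 nb St Sol (Intr κ a D b nb)
          val al D b oml TG P)

end

end TG
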