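import Pool.Agent.TG.TreeTY
import Pool.Agent.TG.TreePQ0
set_option autoImplicit false
set_option linter.unusedSectionVars false

/-!
# Robustness of the types (RbH) from TY and Rob   (helper47)
-/

open MeasureTheory Metric Set TrI
open scoped InnerProductSpace ContDiff ENNReal

namespace TG

noncomputable section

/-- MODULE RH: the types of cells, all facts for the assembly -/
def StmtRH : Prop :=
  ∀ (C1 C9 : ℝ) (J e : ℕ), 1 ≤ C1 → 1 ≤ C9 → ∃ Cθ : ℝ, 1 ≤ Cθ ∧ ∀ θ : ℝ, 0 < θ → θ ≤ 1 →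
    ∃ (Cr : ℝ) (nI : ℕ), 1 ≤ Cr ∧ ∀ K : ℝ, Cθ / θ ≤ K →
    ∀ d0 : ℝ, 0 < d0 → d0 ≤ 1 → ∃ d1 : ℝ, 0 < d1 ∧ d1 ≤ d0 ∧
    ∀ (d : ℕ) (γ : ℝ), 0 < γ → γ ≤ 1 / 8 →
    ∀ (nb : Cell d → Finset (Cell d)) (a ah at' D b : Cell d → ℝ),
      Rob C1 J e nb a ah at' D b → (∀ Q, up 9 Q ∈ nb Q) →
      (∀ Q, ah Q ≤ C9 * (ah (up 9 Q) + D (up 9 Q))) →
      RbH Cr nb (Strc γ K d0 a at' D) (Solid γ θ d1 a ah at' D) a ah D b ∧
      (∀ Q, Q ∉ WL γ θ ah at' → 0 < ah Q ∧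
        ∀ l : ℕ, θ * at' (up l Q) ≤ (2 : ℝ) ^ (γ * l) * ah Q) ∧
      (∀ κ0 : ℝ, 0 < κ0 → ∀ n : ℕ, ∀ Q ∈ Solid γ θ d1 a ah at' D,
        {j | j < n ∧ Q ∉ Intr (κ0 * (1 / 2) ^ j) a D b nb}.ncard ≤ nI) ∧
      (∀ κ δ : ℝ, ∀ m : ℕ, ∀ (TG : Cell d → ℝ) (Ct : ℝ), 1 ≤ Ct → 2 * Ct * δ ≤ 1 → Ct * δ ≤ d1 / 4 →
        θ * (4 * Ct) ≤ 1 →
        (∀ P, (∀ l : ℕ, at' (up l P) ≤ (2 : ℝ) ^ (γ * l) * at' P) → at' P ≤ Ct * (ah P + TG P)) →
        CIII γ κ δ m at' D b TG ⊆ Solid γ θ d1 a ah at' D)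

theorem stmtRH : StmtRH := by
  intro C1 C9 J e hC1 hC9
  obtain ⟨Cθ, hCθ, H⟩ := stmtTY C1 J e
  refine ⟨Cθ, hCθ, ?_⟩
  intro θ hθ hθ1
  obtain ⟨C, nI, hC, HK⟩ := H θ hθ hθ1
  set X : ℝ := C * (C1 / θ) * C9 with hX
  have hX0 : 0 < X := by positivity
  set Cd : ℝ := C1 * (2 : ℝ) ^ (((J : ℝ) + e) / 4) with hCd
  have hCd0 : 0 < Cd := by positivity
  refine ⟨1 + C + Cd + C1 / θ + 2 * X, nI, by
    have : 0 < C1 / θ := by positivity
    linarith, ?_⟩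
  have hCθ1 : 0 < C1 / θ := by positivity
  intro K hK d0 hd0 hd01
  set d0' : ℝ := min d0 (1 / (8 * X * C)) with hd0'
  have hd0'0 : 0 < d0' := lt_min hd0 (by positivity)
  have hd0'1 : d0' ≤ d0 := min_le_left _ _
  obtain ⟨d1, hd1, hd1d, HH⟩ := HK K hK d0' hd0'0 (hd0'1.trans hd01)
  refine ⟨d1, hd1, hd1d.trans hd0'1, ?_⟩
  intro d γ hγ hγ1 nb a ah at' D b R h9 hh9
  obtain ⟨T1, T2, T3, T4⟩ := HH d γ hγ hγ1 nb a ah at' D b R
  obtain ⟨BD, hBD⟩ := R.D_bd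
  set Cr : ℝ := 1 + C + Cd + C1 / θ + 2 * X with hCr
  have hCCr : C ≤ Cr := by rw [hCr]; linarith
  have hCdCr : Cd ≤ Cr := by rw [hCr]; linarith
  have hCr0 : 0 ≤ Cr := hC.le.trans hCCr
  refine ⟨⟨R.a_nonneg, R.b_nonneg, R.D_nonneg, ?_, ?_⟩, T1, T3, T4⟩
  · intro Q hQ Q' hQ'
    obtain ⟨t1, t2, t3, t4, t5⟩ := T2 Q hQ Q' hQ'
    have hshb := sh_nonneg R.b_nonneg
    have hshD := sh_nonneg R.D_nonneg
    have hs : 0 ≤ sh b Q + sh D Q := add_nonneg (hshb Q) (hshD Q)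
    have hs' : 0 ≤ sh b Q' + sh D Q' := add_nonneg (hshb Q') (hshD Q')
    refine ⟨⟨t1.1, t1.2.1, fun l => ?_⟩, t2.trans (mul_le_mul_of_nonneg_right hCCr (R.a_nonneg Q)),
      t3.trans (mul_le_mul_of_nonneg_right hCCr (R.a_nonneg Q')),
      t4.trans (mul_le_mul_of_nonneg_right hCCr hs),
      t5.trans (mul_le_mul_of_nonneg_right hCCr hs'), ?_, ?_⟩
    · refine (t1.2.2 l).trans (mul_le_mul_of_nonneg_right (mul_le_mul_of_nonneg_right hd0'1
        (by positivity)) (R.a_nonneg Q'))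
    · -- sh D Q' ≤ Cr sh D Q
      obtain ⟨g1, g2⟩ := R.lev Q Q' hQ'
      set s : ℕ := Q'.1 - Q.1 + e with hs
      have hsJ : (s : ℝ) ≤ (J : ℝ) + e := by
        have : s ≤ J + e := by omega
        exact_mod_cast this
      obtain ⟨k1, k2⟩ := sh_shift R.D_nonneg hBD s Q
      have hsm := sh_summable R.D_nonneg hBD Q'
      calc sh D Q' = ∑' l : ℕ, (2 : ℝ) ^ (-((l : ℝ) / 4)) * D (up l Q') := rfl
        _ ≤ ∑' l : ℕ, C1 * ((2 : ℝ) ^ (-((l : ℝ) / 4)) * D (up (l + s) Q)) := by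
            refine Summable.tsum_le_tsum (fun l => ?_) hsm (k1.mul_left C1)
            have h := R.D1 Q Q' hQ' l
            have e1 : Q'.1 - Q.1 + l + e = l + s := by omega
            rw [e1] at h
            have := mul_le_mul_of_nonneg_left h
              (by positivity : (0 : ℝ) ≤ (2 : ℝ) ^ (-((l : ℝ) / 4)))
            linarith
        _ = C1 * ∑' l : ℕ, (2 : ℝ) ^ (-((l : ℝ) / 4)) * D (up (l + s) Q) := tsum_mul_left
        _ ≤ C1 * ((2 : ℝ) ^ ((s : ℝ) / 4) * sh D Q) := mul_le_mul_of_nonneg_left k2 (by linarith)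
        _ ≤ C1 * ((2 : ℝ) ^ (((J : ℝ) + e) / 4) * sh D Q) := by
            refine mul_le_mul_of_nonneg_left (mul_le_mul_of_nonneg_right ?_ (hshD Q)) (by linarith)
            exact Real.rpow_le_rpow_of_exponent_le (by norm_num) (by linarith)
        _ = Cd * sh D Q := by rw [hCd]; ring
        _ ≤ Cr * sh D Q := mul_le_mul_of_nonneg_right hCdCr (hshD Q)
    · obtain ⟨k1, k2⟩ := sh_shift R.D_nonneg hBD e Q'
      have hsm := sh_summable R.D_nonneg hBD Q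
      calc sh D Q = ∑' l : ℕ, (2 : ℝ) ^ (-((l : ℝ) / 4)) * D (up l Q) := rfl
        _ ≤ ∑' l : ℕ, C1 * ((2 : ℝ) ^ (-((l : ℝ) / 4)) * D (up (l + e) Q')) := by
            refine Summable.tsum_le_tsum (fun l => ?_) hsm (k1.mul_left C1)
            have h := R.D2 Q Q' hQ' l
            have := mul_le_mul_of_nonneg_left h
              (by positivity : (0 : ℝ) ≤ (2 : ℝ) ^ (-((l : ℝ) / 4)))
            linarith
        _ = C1 * ∑' l : ℕ, (2 : ℝ) ^ (-((l : ℝ) / 4)) * D (up (l + e) Q') := tsum_mul_left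
        _ ≤ C1 * ((2 : ℝ) ^ ((e : ℝ) / 4) * sh D Q') := mul_le_mul_of_nonneg_left k2 (by linarith)
        _ ≤ C1 * ((2 : ℝ) ^ (((J : ℝ) + e) / 4) * sh D Q') := by
            refine mul_le_mul_of_nonneg_left (mul_le_mul_of_nonneg_right ?_ (hshD Q')) (by linarith)
            refine Real.rpow_le_rpow_of_exponent_le (by norm_num) ?_
            have : (0 : ℝ) ≤ J := Nat.cast_nonneg J
            linarith
        _ = Cd * sh D Q' := by rw [hCd]; ring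
        _ ≤ Cr * sh D Q' := mul_le_mul_of_nonneg_right hCdCr (hshD Q')
  · intro Q hQ
    obtain ⟨w1, w2⟩ := T1 Q hQ.1
    have h0 := w2 0
    rw [up_zero] at h0
    have hah : 0 < ah Q := w1
    have h1 : at' Q ≤ 1 / θ * ah Q := by
      rw [one_div, ← div_eq_inv_mul, le_div_iff₀ hθ]
      have e0 : (2 : ℝ) ^ (γ * ((0 : ℕ) : ℝ)) = 1 := by simp
      rw [e0, one_mul] at h0
      linarith
    have h2 : a Q ≤ C1 / θ * ah Q := by
      calc a Q ≤ C1 * at' Q := R.a_le Q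
        _ ≤ C1 * (1 / θ * ah Q) := mul_le_mul_of_nonneg_left h1 (by linarith)
        _ = _ := by ring
    refine ⟨h2.trans (mul_le_mul_of_nonneg_right (by rw [hCr]; linarith) hah.le), ?_⟩
    set P := up 9 Q with hP
    obtain ⟨t1, t2, t3, t4, t5⟩ := T2 Q hQ P (h9 Q)
    have hDP : D P ≤ d1 * 4 * (C * a P) := by
      have h3 := hQ.2 9
      have h4 : (2 : ℝ) ^ (((9 : ℕ) : ℝ) / 8) ≤ 4 := by
        calc (2 : ℝ) ^ (((9 : ℕ) : ℝ) / 8) ≤ (2 : ℝ) ^ (2 : ℝ) :=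
              Real.rpow_le_rpow_of_exponent_le (by norm_num) (by norm_num)
          _ = 4 := by norm_num
      calc D P ≤ d1 * (2 : ℝ) ^ (((9 : ℕ) : ℝ) / 8) * a Q := h3
        _ ≤ d1 * 4 * a Q := mul_le_mul_of_nonneg_right (mul_le_mul_of_nonneg_left h4 hd1.le)
              (R.a_nonneg Q)
        _ ≤ d1 * 4 * (C * a P) := mul_le_mul_of_nonneg_left t3 (by positivity)
    have haP := R.a_nonneg P
    have h5 : a P ≤ X * (ah P + D P) := by
      calc a P ≤ C * a Q := t2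
        _ ≤ C * (C1 / θ * ah Q) := mul_le_mul_of_nonneg_left h2 hC.le
        _ ≤ C * (C1 / θ * (C9 * (ah P + D P))) :=
            mul_le_mul_of_nonneg_left (mul_le_mul_of_nonneg_left (hh9 Q) hCθ1.le) hC.le
        _ = _ := by rw [hX]; ring
    have h6 : X * D P ≤ 1 / 2 * a P := by
      have h7 : d1 ≤ 1 / (8 * X * C) := hd1d.trans (min_le_right _ _)
      rw [le_div_iff₀ (by positivity)] at h7
      calc X * D P ≤ X * (d1 * 4 * (C * a P)) := mul_le_mul_of_nonneg_left hDP hX0.le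
        _ = 1 / 2 * (d1 * (8 * X * C)) * a P := by ring
        _ ≤ 1 / 2 * 1 * a P := by gcongr
        _ = _ := by ring
    have h8 : a P ≤ 2 * X * ah P := by nlinarith
    have h9' : 0 ≤ ah P := by
      by_contra hneg
      rw [not_le] at hneg
      nlinarith
    exact h8.trans (mul_le_mul_of_nonneg_right (by rw [hCr]; linarith) h9')

end

end TG
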