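import Pool.Agent.TG.FinB
import Pool.Agent.TG.FinDef
import Pool.Agent.TG.TreePQ
import Pool.Agent.TG.TreeRH
import Pool.Agent.TG.TreeAS
set_option autoImplicit false
set_option linter.unusedSectionVars false
set_option linter.unusedVariables false

/-!
# Final assembly, abstract part: the chain of constants   (helper47)
-/

open MeasureTheory Metric Set TrI
open scoped InnerProductSpace ContDiff ENNReal

namespace TG

noncomputable section

variable {d : ℕ}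

namespace Fin

lemma rhs_mono {Cv Cc Cb Ci Cp Cp' : ℝ} {r0 : ℕ} {nb : Cell d → Finset (Cell d)}
    {St Sol INT : Set (Cell d)} {val al D b oml TG : Cell d → ℝ} (h : Cp ≤ Cp')
    (hp : ∀ Q, 0 ≤ payF r0 St D oml TG Q) (Q : Cell d) :
    rhsF Cv Cc Cb Ci Cp r0 nb St Sol INT val al D b oml TG Q ≤
      rhsF Cv Cc Cb Ci Cp' r0 nb St Sol INT val al D b oml TG Q := by
  unfold rhsF
  refine Finset.sum_le_sum fun Q' _ => ?_
  have := mul_le_mul_of_nonneg_right h (hp Q')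
  linarith

end Fin

open TG.Fin in
theorem fin : StmtFin := by
  intro d J ρb Nb e C0 Cu c1 C1R C9 C1I γ κI θI δI hd hγ hγ8 hC0 hCu hc1 hc11 hC1R hC9 hC1I hκI
    hκI1 hθI hθI1 hδI
  have hC00 : 0 < C0 := by linarith
  have hCu0 : 0 < Cu := by linarith
  obtain ⟨C1P, hC1P, HPQ⟩ := stmtPQ Cu Nb hCu
  obtain ⟨η1, CM, hη1, hCM, HMJ⟩ := stmtMJ d J ρb C1P c1 hd hC1P hc1
  obtain ⟨CA, hCA, HTS1⟩ := stmtTS1 d C0 γ hd hγ hγ8
  obtain ⟨CT2s, hCT2s, HTS2⟩ := stmtTS2 d C0 γ hd hγ hγ8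
  obtain ⟨CB, hCB, HTS3⟩ := stmtTS3 d C0 9 hd hC00.le
  obtain ⟨CL, hCL, HLT⟩ := stmtLT d C0 (C1I + C0 ^ 3) γ 9 hd (by positivity) hγ hγ8
  obtain ⟨Cθ, hCθ, HRH⟩ := stmtRH C1R C9 J e hC1R hC9
  obtain ⟨η0, hη0, HAS⟩ := stmtAS2 (CM + C0 + 1) (by positivity)
  -- θ
  set x : ℝ := min 1 (η0 * κI / CL) with hx
  have hx0 : 0 < x := lt_min one_pos (by positivity)
  set θ : ℝ := min θI (min (x ^ 2) (1 / (4 * C0))) with hθdef
  have hθ : 0 < θ := lt_min hθI (lt_min (by positivity) (by positivity))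
  have hθθI : θ ≤ θI := min_le_left _ _
  have hθ1 : θ ≤ 1 := hθθI.trans hθI1
  have hθx : Real.sqrt θ ≤ x := by
    rw [Real.sqrt_le_left hx0.le]
    exact (min_le_right _ _).trans (min_le_left _ _)
  have hθC : θ * (4 * C0) ≤ 1 := by
    have : θ ≤ 1 / (4 * C0) := (min_le_right _ _).trans (min_le_right _ _)
    rwa [le_div_iff₀ (by positivity)] at this
  have hLη : CL * Real.sqrt θ / κI ≤ η0 := by
    have h1 : Real.sqrt θ ≤ η0 * κI / CL := hθx.trans (min_le_right _ _)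
    rw [le_div_iff₀ hCL] at h1
    rw [div_le_iff₀ hκI]
    linarith
  have hLη2 : CL * Real.sqrt θ ≤ η0 := by
    refine le_trans ?_ hLη
    rw [le_div_iff₀ hκI]
    have : 0 ≤ CL * Real.sqrt θ := by positivity
    nlinarith
  obtain ⟨Cr, nI, hCr, HRK⟩ := HRH θ hθ hθ1
  set K : ℝ := Cθ / θ with hKdef
  have hK1 : 1 ≤ K := by rw [hKdef, le_div_iff₀ hθ]; linarith
  have hK0 : 0 < K := by linarith
  refine ⟨η1 / Cu, K, Cr, θ, by positivity, hK1, hCr, hθ, hθθI, ?_⟩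
  intro CK κ0 hCK hκ0
  obtain ⟨C2, hC2, HPQ2⟩ := HPQ Cr CK hCr hCK
  set B1 : ℝ := CA * Real.sqrt K * CB with hB1
  have hsK : 0 < Real.sqrt K := Real.sqrt_pos.2 hK0
  have hB10 : 0 < B1 := by positivity
  set κ1 : ℝ := min κ0 (min 1 (η0 / (2 * CM * C2 * B1))) with hκ1def
  have hκ1 : 0 < κ1 := lt_min hκ0 (lt_min one_pos (by positivity))
  have hκ11 : κ1 ≤ 1 := (min_le_right _ _).trans (min_le_left _ _)
  have hκ1η : κ1 * (2 * CM * C2 * B1) ≤ η0 := by
    have : κ1 ≤ η0 / (2 * CM * C2 * B1) := (min_le_right _ _).trans (min_le_right _ _)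
    rwa [le_div_iff₀ (by positivity)] at this
  obtain ⟨n, HASn⟩ := HAS (CM * C2 + B1) (by positivity) nI
  set δ : ℝ := (κ1 * (1 / 2) ^ n) ^ 2 with hδdef
  have hδ : 0 < δ := by positivity
  refine ⟨n, κ1, δ, hκ1, min_le_left _ _, hδ, ?_⟩
  -- thresholds
  set κj : ℕ → ℝ := fun j => κ1 * (1 / 2) ^ j with hκjdef
  have hκj0 : ∀ j, 0 < κj j := fun j => by simp only [hκjdef]; positivity
  have hκj1 : ∀ j, κj j ≤ κ1 := by
    intro j
    simp only [hκjdef]
    have : (1 / 2 : ℝ) ^ j ≤ 1 := pow_le_one₀ (by norm_num) (by norm_num)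
    nlinarith
  have hδκ : ∀ j < n, δ / κj j ≤ κ1 := by
    intro j hj
    rw [div_le_iff₀ (hκj0 j)]
    have h1 : κj n ≤ κj j := by
      simp only [hκjdef]
      refine mul_le_mul_of_nonneg_left ?_ hκ1.le
      exact pow_le_pow_of_le_one (by norm_num) (by norm_num) hj.le
    have h2 : δ = κj n * κj n := by simp only [hδdef, hκjdef]; ring
    rw [h2]
    exact mul_le_mul (hκj1 n) h1 (hκj0 n).le hκ1.le
  have hδκ' : ∀ j < n, δ ≤ κj j := by
    intro j hj
    have h1 := hδκ j hj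
    rw [div_le_iff₀ (hκj0 j)] at h1
    have := hκj0 j
    nlinarith
  intro d0 Cs CN r0 hd0 hd01 hCs hCN
  obtain ⟨d1, hd1, hd1d, HR⟩ := HRK K le_rfl d0 hd0 hd01
  have hd11 : d1 ≤ 1 := hd1d.trans hd01
  obtain ⟨C3, hC3, HPQ3⟩ := HPQ2 Cs hCs
  obtain ⟨CDP, hCDP, HDP⟩ := stmtDP d r0 C0 hd hC00.le
  set δ' : ℝ := min δI (min (1 / (2 * C0)) (d1 / (4 * C0))) with hδ'def
  have hδ' : 0 < δ' := lt_min hδI (lt_min (by positivity) (by positivity))
  have hδ'1 : 2 * C0 * δ' ≤ 1 := by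
    have : δ' ≤ 1 / (2 * C0) := (min_le_right _ _).trans (min_le_left _ _)
    rw [le_div_iff₀ (by positivity)] at this
    linarith
  have hδ'2 : C0 * δ' ≤ d1 / 4 := by
    have : δ' ≤ d1 / (4 * C0) := (min_le_right _ _).trans (min_le_right _ _)
    rw [le_div_iff₀ (by positivity)] at this
    linarith
  obtain ⟨CL', hCL', HLT'⟩ := HLT κI θ δ' hκI hκI1 hθ hθ1 hδ' hδ'1
  set CsM : ℝ := C3 + CN + (CDP + CA * K + C0) with hCsM
  have hCsM0 : 0 ≤ CsM := by positivity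
  have HM : ∀ j : ℕ, ∃ C' : ℝ, 0 < C' ∧ _ := fun j =>
    HMJ (C2 * (κj j + δ / κj j)) C2 CsM (by have := hκj0 j; positivity) hC2.le hCsM0
  choose Cj hCj HMj using HM
  set CI : ℝ := CT2s * (1 / θ) / d1 with hCI
  have hCI0 : 0 ≤ CI := by positivity
  set B2 : ℝ := CA * Real.sqrt K * CB * (3 * C0 ^ 3 + 1) + CA * K with hB2
  have hB20 : 0 ≤ B2 := by positivity
  set CC : ℝ := CI + C0 ^ 2 with hCC
  have hCC0 : 0 ≤ CC := by positivity
  set CE : ℝ := CL * Real.sqrt θ / κI * (3 * C0 ^ 3) + CL * Real.sqrt θ * (6 * C0 ^ 3) + CL'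
    with hCE
  have hCE0 : 0 ≤ CE := by positivity
  set SJ : ℝ := ∑ j ∈ Finset.range n, Cj j with hSJ
  have hSJ0 : 0 ≤ SJ := Finset.sum_nonneg fun j _ => (hCj j).le
  have hSJj : ∀ j < n, Cj j ≤ SJ := fun j hj =>
    Finset.single_le_sum (f := Cj) (fun i _ => (hCj i).le) (Finset.mem_range.2 hj)
  set CsA : ℝ := SJ + CM * (2 * C2) * B2 + CM * CC + (B2 + CA * K) + CE + C0 * CC with hCsA
  have hCsA0 : 0 ≤ CsA := by positivity
  obtain ⟨C', hC', HF⟩ := HASn CsA hCsA0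
  refine ⟨δ', C', hδ', min_le_left _ _, hδ'1, hC', ?_⟩
  intro s0 tot ns nb Nr a al ah at' D b oml omp v TG Y G N val E1 E2 H hIII hfin2 hLj
  have ht := H.T.tot_nonneg
  have hup9 : ∀ Q, up 9 Q ∈ nb Q := fun Q => H.W.ns9 Q (H.W.self (up 9 Q))
  obtain ⟨RB, hWL, hcount, hCIII⟩ := HR d γ hγ hγ8 nb a ah at' D b H.R hup9 H.ah9
  have hIIIs : CIII γ κI δ' 9 at' D b TG ⊆ Solid γ θ d1 a ah at' D :=
    hCIII κI δ' 9 TG C0 hC0 hδ'1 hδ'2 hθC H.flat
  set Sol := Solid γ θ d1 a ah at' D with hSol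
  set St := Strc γ K d0 a at' D with hSt
  set LW := cs (WL γ θ ah at') (fun Q => cw s0 Q * al Q * oml Q) with hLW
  obtain ⟨BD, hBD⟩ := H.R.D_bd
  have hshb0 : ∀ Q, 0 ≤ sh b Q := fun Q => tsum_nonneg fun _ =>
    mul_nonneg (by positivity) (H.R.b_nonneg _)
  have hshD0 : ∀ Q, 0 ≤ sh D Q := fun Q => tsum_nonneg fun _ =>
    mul_nonneg (by positivity) (H.T.D_nonneg _)
  -- the four sums
  obtain ⟨tD, tb0⟩ := ts_D (K := K) (d0 := d0) hCA hK1 hd0 hd01 H HTS1
  have h4 := HTS3 s0 tot D oml omp b H.T.s0_pos ht H.R.b_nonneg H.T.D_nonneg H.T.oml_nonneg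
    H.T.omp_nonneg H.b9 H.omp9 H.T.omp_le H.T.D_sum
  have tb := ts_b (K := K) (d0 := d0) hCA hCB hK1 H tb0 h4
  have tI := inc_sum (θ := θ) (d1 := d1) hCT2s hθ hθ1 hd1 hd11 H HTS2 hWL
  have tC := cost_sum (θ := θ) (d1 := d1) hCI0 H tI
  have tP := pay_sum (K := K) (d0 := d0) (r0 := r0) (CDs := CA * K) (CP := CDP) (by positivity)
    hCDP.le H (HDP s0 tot D H.T.s0_pos ht H.T.D_nonneg H.T.D_sum) tD
  have hSolSt : Sol ⊆ St := fun Q hQ => (RB.sol Q hQ Q (H.W.ns_nb Q (H.W.self Q))).1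
  have hfSn : ∀ Q, 0 ≤ fSF s0 D b oml Q := fun Q =>
    mul_nonneg (cwp H Q).le (mul_nonneg (add_nonneg (hshb0 Q) (hshD0 Q)) (H.T.oml_nonneg Q))
  have hpayn : ∀ Q, 0 ≤ payF r0 St D oml TG Q := fun Q => PQ.pay_nonneg H.W RB H.TG0 Q
  refine HF d n tot η0 le_rfl ht hη0.le le_rfl (fXF s0 b oml) (fBF s0 Y b v) (fSF s0 D b oml)
    (L2 d ∩ Sol) (L2 d ∩ CIII γ κI δ' 9 at' D b TG) (fun j => Intr (κj j) a D b nb) LW
    ?_ ?_ hfSn ?_ ?_ ?_ ?_ ?_ ?_ ?_ ?_
  · intro Q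
    exact indicator_nonneg (fun Q _ => mul_nonneg (cwp H Q).le (mul_nonneg (H.R.b_nonneg Q)
      (H.T.oml_nonneg Q))) Q
  · intro Q
    exact indicator_nonneg (fun Q _ => mul_nonneg (cwp H Q).le (add_nonneg (H.Y0 Q)
      (mul_nonneg (H.R.b_nonneg _) (H.W.v0 Q)))) Q
  · intro Q hQ
    exact hcount κ1 hκ1 n Q hQ.2
  · intro Q hQ
    exact hcount κ1 hκ1 n Q (hIIIs hQ.2)
  · -- (M_j)
    intro j hj
    obtain ⟨L, hsum, hNtot, hN0, hvfin⟩ := hLj j hj
    have hκ := hκj0 j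
    have hκ1' : κj j ≤ 1 := (hκj1 j).trans hκ11
    obtain ⟨P1, P2, P3⟩ := HPQ3 (κj j) δ hκ hκ1' hδ (hδκ' j hj) d r0 s0 γ c1 (η1 / Cu) ns nb Nr St
      Sol (N j) (val j) v oml a al ah D b at' TG Y (E1 j) (E2 j) hc1 hc11 (by positivity) H.W RB
      H.al0 H.TG0 hN0 L
    have hCuη : Cu * (η1 / Cu) = η1 := by field_simp
    rw [hCuη] at P1
    have hv2 := PQ.v2_nonneg L.val0
    have hC3M : C3 ≤ CsM := by rw [hCsM]; linarith [mul_pos hCA hK0]
    have hMJ := HMj j s0 tot nb (N j) (val2 (val j)) (costF Sol al D oml) (sBF St b oml)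
      (payF r0 St D oml TG) (iFF Sol (Intr (κj j) a D b nb) D b oml) (fun Q => b Q * oml Q)
      (fun Q => Y Q + b (up 9 Q) * v Q) (L2 d ∩ Sol ∩ Intr (κj j) a D b nb)
      (L2 d ∩ CIII γ κI δ' 9 at' D b TG ∩ Intr (κj j) a D b nb) H.T.s0_pos ht H.box hv2
      (PQ.cost_nonneg H.W RB H.al0) (PQ.sB_nonneg H.W RB) hpayn (PQ.iF_nonneg H.W RB _)
      (fun Q => (P1 Q).trans (add_le_add le_rfl (mul_le_mul_of_nonneg_left
        (rhs_mono hC3M hpayn Q) (cwp H Q).le)))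
      hsum (hNtot.trans (mul_le_mul_of_nonneg_right (by
        rw [hCsM]; linarith [mul_pos hCA hK0]) ht))
      (fun Q hQ => (P2 Q hQ).trans (rhs_mono hC3M hpayn Q))
      (fun Q hQ => (P3 Q ⟨⟨hQ.1.1, hIIIs hQ.1.2⟩, hQ.2⟩ hQ.1.2.2.1).trans
        (rhs_mono hC3M hpayn Q))
      (tP.trans (ofR (mul_le_mul_of_nonneg_right (by rw [hCsM]; linarith) ht)))
      (lt_of_le_of_lt (cs_mono fun Q _ => mul_le_mul_of_nonneg_left (by
        unfold val2
        split_ifs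
        · exact le_rfl
        · exact L.val0 Q) (cwp H Q).le) hvfin)
    have hη2 : 0 ≤ C2 * (κj j + δ / κj j) := by positivity
    have hkk : κj j + δ / κj j ≤ 2 * κ1 := by linarith [hκj1 j, hδκ j hj]
    have hη2' : C2 * (κj j + δ / κj j) ≤ C2 * (2 * κ1) := mul_le_mul_of_nonneg_left hkk hC2.le
    have hM := lemMj (ηA := η0) (B1 := B1) (B2 := B2) (CC := CC) (Cj := Cj j)
      (LW := LW) hCM hη2 hC2.le hB10.le hB20 hCC0 (hCj j).le (by
        calc CM * (C2 * (κj j + δ / κj j)) * B1 ≤ CM * (C2 * (2 * κ1)) * B1 :=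
              mul_le_mul_of_nonneg_right (mul_le_mul_of_nonneg_left hη2' hCM.le) hB10.le
          _ = κ1 * (2 * CM * C2 * B1) := by ring
          _ ≤ η0 := hκ1η) H tb tC hMJ
    refine hM.trans (add_le_add (add_le_add (add_le_add (ofR ?_) le_rfl) ?_) ?_)
    · refine mul_le_mul_of_nonneg_right ?_ ht
      have h5 : CM * (C2 * (κj j + δ / κj j)) * B2 ≤ CM * (2 * C2) * B2 := by
        refine mul_le_mul_of_nonneg_right (mul_le_mul_of_nonneg_left ?_ hCM.le) hB20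
        nlinarith
      have h6 := hSJj j hj
      have h7 : 0 ≤ C0 * CC := by positivity
      have h8 : 0 ≤ CA * K := by positivity
      rw [hCsA]
      linarith
    · exact mul_le_mul_left (ofR (by linarith)) _
    · exact mul_le_mul_left (ofR (by linarith)) _
  · -- (d)
    calc cs (L2 d ∩ Sol) (fSF s0 D b oml) ≤ cs St (fSF s0 D b oml) :=
          cs_subset (inter_subset_right.trans hSolSt) _
      _ = cs St (fun Q => cw s0 Q * (sh b Q * oml Q)) +
            cs St (fun Q => cw s0 Q * (sh D Q * oml Q)) := by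
          rw [← cs_add (fun Q _ => mul_nonneg (cwp H Q).le (mul_nonneg (hshb0 Q)
            (H.T.oml_nonneg Q))) (fun Q _ => mul_nonneg (cwp H Q).le (mul_nonneg (hshD0 Q)
            (H.T.oml_nonneg Q)))]
          exact congrArg _ (funext fun Q => by unfold fSF; ring)
      _ ≤ (ENNReal.ofReal B1 * cs univ (fXF s0 b oml) + ENNReal.ofReal (B2 * tot)) +
            ENNReal.ofReal (CA * K * tot) := add_le_add tb tD
      _ = ENNReal.ofReal B1 * cs univ (fXF s0 b oml) + ENNReal.ofReal ((B2 + CA * K) * tot) := by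
          rw [add_assoc, ← ENNReal.ofReal_add (by positivity) (by positivity), ← add_mul]
      _ ≤ _ := by
          refine add_le_add (mul_le_mul_left (ofR ?_) _) (ofR ?_)
          · have : 0 ≤ CM * C2 := by positivity
            linarith
          · refine mul_le_mul_of_nonneg_right ?_ ht
            have h5 : 0 ≤ CM * (2 * C2) * B2 := by positivity
            have h6 : 0 ≤ CM * CC := by positivity
            have h7 : 0 ≤ C0 * CC := by positivity
            rw [hCsA]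
            linarith
  · -- (e)
    have hE := lemLW (κI := κI) (θ := θ) (δ' := δ') hCL hCL' hC1I hκI hκI1 hθ hδ' H hIII HLT'
    refine hE.trans (add_le_add (add_le_add (mul_le_mul_left (ofR hLη) _)
      (mul_le_mul_left (ofR hLη2) _)) (ofR ?_))
    refine mul_le_mul_of_nonneg_right ?_ ht
    have h5 : 0 ≤ CM * (2 * C2) * B2 := by positivity
    have h6 : 0 ≤ CM * CC := by positivity
    have h7 : 0 ≤ C0 * CC := by positivity
    have h8 : 0 ≤ CA * K := by positivity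
    rw [hCsA]
    linarith
  · -- (f)
    have hf := lemf (θ := θ) (d1 := d1) hCC0 H tC
    refine hf.trans (add_le_add (add_le_add ?_ (mul_le_mul_left (ofR (by linarith)) _)) (ofR ?_))
    · calc cs (L2 d ∩ Sol) (fXF s0 b oml) = 1 * cs (L2 d ∩ Sol) (fXF s0 b oml) := (one_mul _).symm
        _ ≤ _ := by
            refine mul_le_mul_left ?_ _
            rw [← ENNReal.ofReal_one]
            exact ofR (by linarith)
    · refine mul_le_mul_of_nonneg_right ?_ ht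
      have h5 : 0 ≤ CM * (2 * C2) * B2 := by positivity
      have h6 : 0 ≤ CM * CC := by positivity
      have h8 : 0 ≤ CA * K := by positivity
      rw [hCsA]
      linarith
  · -- finiteness
    refine lt_of_le_of_lt ?_ H.fin1
    refine cs_mono fun Q _ => ?_
    unfold fXF
    by_cases hL : Q ∈ L2 d
    · rw [indicator_of_mem hL]
    · rw [indicator_of_notMem hL]
      exact mul_nonneg (cwp H Q).le (mul_nonneg (H.R.b_nonneg Q) (H.T.oml_nonneg Q))
  · refine lt_of_le_of_lt ?_ hfin2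
    rw [fB_eq inter_subset_left]
    exact cs_subset inter_subset_right _

end

end TG
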