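import Pool.Agent.TG.Stmts2
set_option autoImplicit false
set_option linter.unusedSectionVars false

/-!
# MODULE GE: two weighted planes which are close as distributions are close
-/

open MeasureTheory Metric Set TrI Filter
open scoped InnerProductSpace ContDiff Topology

namespace TG

noncomputable section

namespace GE

variable {n : ℕ}

/-- parametrisation of the hyperplanes with normal ν -/
lemma param (ν : Sp (n + 1)) (hν : ‖ν‖ = 1) : ∃ i : Sp n →ₗᵢ[ℝ] Sp (n + 1),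
    (∀ v, ⟪ν, i v⟫_ℝ = 0) ∧ (∀ w, ⟪ν, w⟫_ℝ = 0 → ∃ v, i v = w) ∧
    ∀ (q : Sp (n + 1)) (ζ : Sp (n + 1) → ℝ), plInt ν ⟪ν, q⟫_ℝ ζ = ∫ v, ζ (q + i v) := by
  have hν0 : ν ≠ 0 := by
    intro h
    rw [h, norm_zero] at hν
    exact zero_ne_one hν
  have : Fact (Module.finrank ℝ (Sp (n + 1)) = n + 1) := ⟨by simp⟩
  set e := (OrthonormalBasis.fromOrthogonalSpanSingleton (𝕜 := ℝ) n hν0) with he
  set i : Sp n →ₗᵢ[ℝ] Sp (n + 1) :=
    (Submodule.span ℝ {ν})ᗮ.subtypeₗᵢ.comp e.repr.symm.toLinearIsometry with hi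
  have hval : ∀ v, i v = ((e.repr.symm v : (Submodule.span ℝ {ν})ᗮ) : Sp (n + 1)) := fun v => rfl
  refine ⟨i, ?_, ?_, ?_⟩
  · intro v
    rw [hval]
    exact Submodule.mem_orthogonal_singleton_iff_inner_right.mp (e.repr.symm v).2
  · intro w hw
    refine ⟨e.repr ⟨w, Submodule.mem_orthogonal_singleton_iff_inner_right.mpr hw⟩, ?_⟩
    rw [hval, LinearIsometryEquiv.symm_apply_apply]
  · intro q ζ
    have hq0 : q - ⟪ν, q⟫_ℝ • ν ∈ (Submodule.span ℝ {ν})ᗮ := by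
      rw [Submodule.mem_orthogonal_singleton_iff_inner_right, inner_sub_right,
        real_inner_smul_right, real_inner_self_eq_norm_sq, hν]
      ring
    set w0 : (Submodule.span ℝ {ν})ᗮ := ⟨q - ⟪ν, q⟫_ℝ • ν, hq0⟩ with hw0
    unfold plInt
    have h1 := integral_add_left_eq_self (μ := (volume : Measure ((Submodule.span ℝ {ν})ᗮ)))
      (fun y => ζ (⟪ν, q⟫_ℝ • ν + (y : Sp (n + 1)))) w0
    rw [← h1]
    have h2 := e.measurePreserving_repr_symm.integral_comp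
      e.repr.symm.toHomeomorph.measurableEmbedding
      (fun y : (Submodule.span ℝ {ν})ᗮ => ζ (⟪ν, q⟫_ℝ • ν + ((w0 + y : (Submodule.span ℝ {ν})ᗮ) : Sp (n + 1))))
    rw [← h2]
    congr 1
    ext v
    congr 1
    rw [hval, hw0, Submodule.coe_add, ← add_assoc, add_sub_cancel]

/-! ## test functions -/

section test

variable {m : ℕ}

lemma TFn.add' {J : ℕ} {N N' : ℝ} {f g : Sp m → ℝ} (hf : TFn J N f) (hg : TFn J N' g) :
    TFn J (N + N') (fun y => f y + g y) := by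
  refine ⟨hf.smooth.add hg.smooth, fun j hj x => ?_⟩
  have h1 : (fun y => f y + g y) = f + g := rfl
  have hf1 : ContDiff ℝ j f := hf.smooth.of_le (by exact_mod_cast hj)
  have hg1 : ContDiff ℝ j g := hg.smooth.of_le (by exact_mod_cast hj)
  rw [h1, iteratedFDeriv_add_apply hf1.contDiffAt hg1.contDiffAt]
  exact (norm_add_le _ _).trans (add_le_add (hf.bd j hj x) (hg.bd j hj x))

lemma TFn.smul' {J : ℕ} {N : ℝ} {f : Sp m → ℝ} (hf : TFn J N f) (c : ℝ) :
    TFn J (|c| * N) (fun y => c * f y) := by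
  refine ⟨contDiff_const.mul hf.smooth, fun j hj x => ?_⟩
  have h1 : (fun y => c * f y) = c • f := rfl
  have hf1 : ContDiff ℝ j f := hf.smooth.of_le (by exact_mod_cast hj)
  rw [h1, iteratedFDeriv_const_smul_apply hf1.contDiffAt, norm_smul, Real.norm_eq_abs]
  exact mul_le_mul_of_nonneg_left (hf.bd j hj x) (abs_nonneg c)

lemma TFn.mono' {J : ℕ} {N N' : ℝ} {f : Sp m → ℝ} (hf : TFn J N f) (h : N ≤ N') : TFn J N' f :=
  ⟨hf.smooth, fun j hj x => (hf.bd j hj x).trans h⟩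

lemma TFn.zero' (J : ℕ) : TFn J 0 (fun _ : Sp m => (0 : ℝ)) := by
  refine ⟨contDiff_const, fun j _ x => ?_⟩
  have h1 : (fun _ : Sp m => (0 : ℝ)) = 0 := rfl
  rw [h1, iteratedFDeriv_zero]
  simp

lemma TFn.sum' {ι : Type*} (S : Finset ι) {J : ℕ} {N : ι → ℝ} {f : ι → Sp m → ℝ}
    (hf : ∀ k ∈ S, TFn J (N k) (f k)) :
    TFn J (∑ k ∈ S, N k) (fun y => ∑ k ∈ S, f k y) := by
  classical
  induction S using Finset.induction_on with
  | empty => simpa using TFn.zero' (m := m) J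
  | insert k S hk ih =>
    simp only [Finset.sum_insert hk]
    exact TFn.add' (hf k (Finset.mem_insert_self k S))
      (ih fun l hl => hf l (Finset.mem_insert_of_mem hl))

lemma TFn.shift' {J : ℕ} {N : ℝ} {f : Sp m → ℝ} (hf : TFn J N f) (p : Sp m) :
    TFn J N (fun y => f (y - p)) := by
  refine ⟨hf.smooth.comp (contDiff_id.sub contDiff_const), fun j hj x => ?_⟩
  rw [iteratedFDeriv_comp_sub]
  exact hf.bd j hj _

/-- smooth compactly supported functions are test functions -/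
lemma exists_TFn (J : ℕ) {f : Sp m → ℝ} (hf : ContDiff ℝ ∞ f) (hc : HasCompactSupport f) :
    ∃ N : ℝ, 0 ≤ N ∧ TFn J N f := by
  have h1 : ∀ j : ℕ, ∃ N : ℝ, ∀ x, ‖iteratedFDeriv ℝ j f x‖ ≤ N := by
    intro j
    have hcj : Continuous (iteratedFDeriv ℝ j f) :=
      hf.continuous_iteratedFDeriv (by exact_mod_cast le_top)
    exact hcj.bounded_above_of_compact_support (hc.iteratedFDeriv (𝕜 := ℝ) j)
  choose N hN using h1
  have hN0 : ∀ j, 0 ≤ N j := fun j => (norm_nonneg _).trans (hN j 0)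
  refine ⟨∑ j ∈ Finset.range (J + 1), N j, Finset.sum_nonneg fun j _ => hN0 j, ?_, ?_⟩
  · exact hf.of_le (by exact_mod_cast le_top)
  · intro j hj x
    exact (hN j x).trans (Finset.single_le_sum (f := N) (fun k _ => hN0 k)
      (Finset.mem_range.mpr (by omega)))

/-- radial bump, equal to 1 on the ball of radius r, 0 outside the ball of radius R -/
def gb (r R : ℝ) (y : Sp m) : ℝ := Real.smoothTransition ((R ^ 2 - ‖y‖ ^ 2) / (R ^ 2 - r ^ 2))

lemma gb_smooth (r R : ℝ) : ContDiff ℝ ∞ (gb r R : Sp m → ℝ) := by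
  unfold gb
  refine Real.smoothTransition.contDiff.comp ?_
  exact (contDiff_const.sub (contDiff_norm_sq ℝ)).div_const _

lemma gb_nonneg (r R : ℝ) (y : Sp m) : 0 ≤ gb r R y := Real.smoothTransition.nonneg _

lemma gb_le_one (r R : ℝ) (y : Sp m) : gb r R y ≤ 1 := Real.smoothTransition.le_one _

lemma gb_zero {r R : ℝ} (hr : 0 ≤ r) (h : r < R) {y : Sp m} (hy : R ≤ ‖y‖) : gb r R y = 0 := by
  refine Real.smoothTransition.zero_of_nonpos ?_
  have h1 : 0 < R ^ 2 - r ^ 2 := by nlinarith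
  have h2 : R ^ 2 - ‖y‖ ^ 2 ≤ 0 := by nlinarith [norm_nonneg y]
  exact div_nonpos_of_nonpos_of_nonneg h2 h1.le

lemma gb_one {r R : ℝ} (hr : 0 ≤ r) (h : r < R) {y : Sp m} (hy : ‖y‖ ≤ r) : gb r R y = 1 := by
  refine Real.smoothTransition.one_of_one_le ?_
  have h1 : 0 < R ^ 2 - r ^ 2 := by nlinarith
  rw [le_div_iff₀ h1]
  nlinarith [norm_nonneg y]

lemma gb_cs {r R : ℝ} (hr : 0 ≤ r) (h : r < R) : HasCompactSupport (gb r R : Sp m → ℝ) := by
  refine HasCompactSupport.intro (isCompact_closedBall (0 : Sp m) R) fun y hy => ?_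
  rw [mem_closedBall, dist_zero_right, not_le] at hy
  exact gb_zero hr h hy.le

/-- bump times a product of two linear functionals -/
lemma exists_quad (J : ℕ) {r R : ℝ} (hr : 0 ≤ r) (h : r < R) : ∃ C : ℝ, 0 ≤ C ∧
    ∀ v w : Sp m, ‖v‖ ≤ 1 → ∀ o : ℝ,
      TFn J (C * (|o| + ‖w‖)) (fun y => gb r R y * ⟪v, y⟫_ℝ * (o + ⟪w, y⟫_ℝ)) := by
  have hlin : ∀ k : Fin m, ContDiff ℝ ∞ (fun y : Sp m => y k) := fun k =>
    (EuclideanSpace.proj (𝕜 := ℝ) k : Sp m →L[ℝ] ℝ).contDiff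
  have h1 : ∀ k : Fin m, ∃ N : ℝ, 0 ≤ N ∧ TFn J N (fun y : Sp m => gb r R y * y k) := fun k =>
    exists_TFn J ((gb_smooth r R).mul (hlin k)) (gb_cs hr h).mul_right
  have h2 : ∀ k l : Fin m, ∃ N : ℝ, 0 ≤ N ∧ TFn J N (fun y : Sp m => gb r R y * y k * y l) :=
    fun k l => exists_TFn J (((gb_smooth r R).mul (hlin k)).mul (hlin l))
      ((gb_cs hr h).mul_right).mul_right
  choose N1 hN1 hT1 using h1
  choose N2 hN2 hT2 using h2
  refine ⟨(∑ k, N1 k) + ∑ k, ∑ l, N2 k l, add_nonneg (Finset.sum_nonneg fun k _ => hN1 k)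
    (Finset.sum_nonneg fun k _ => Finset.sum_nonneg fun l _ => hN2 k l), ?_⟩
  intro v w hv o
  have hvk : ∀ k, |v k| ≤ 1 := fun k => by
    have := PiLp.norm_apply_le v k
    rw [Real.norm_eq_abs] at this
    linarith
  have hwk : ∀ k, |w k| ≤ ‖w‖ := fun k => by
    have := PiLp.norm_apply_le w k
    rwa [Real.norm_eq_abs] at this
  have e1 : (fun y : Sp m => gb r R y * ⟪v, y⟫_ℝ * (o + ⟪w, y⟫_ℝ)) = fun y =>
      (∑ k, (o * v k) * (gb r R y * y k)) +
        ∑ k, ∑ l, (v k * w l) * (gb r R y * y k * y l) := by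
    funext y
    have e2 : ⟪v, y⟫_ℝ = ∑ k, v k * y k := by
      rw [PiLp.inner_apply]
      refine Finset.sum_congr rfl fun k _ => ?_
      simp [mul_comm]
    have e3 : ⟪w, y⟫_ℝ = ∑ k, w k * y k := by
      rw [PiLp.inner_apply]
      refine Finset.sum_congr rfl fun k _ => ?_
      simp [mul_comm]
    rw [e2, e3, mul_add]
    congr 1
    · rw [Finset.mul_sum, Finset.sum_mul]
      refine Finset.sum_congr rfl fun k _ => ?_
      ring
    · rw [mul_assoc, Finset.sum_mul_sum, Finset.mul_sum]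
      refine Finset.sum_congr rfl fun k _ => ?_
      rw [Finset.mul_sum]
      refine Finset.sum_congr rfl fun l _ => ?_
      ring
  rw [e1]
  have t1 : TFn J (∑ k, |o| * N1 k) (fun y : Sp m => ∑ k, (o * v k) * (gb r R y * y k)) := by
    refine TFn.sum' _ fun k _ => ?_
    refine TFn.mono' (TFn.smul' (hT1 k) (o * v k)) ?_
    refine mul_le_mul_of_nonneg_right ?_ (hN1 k)
    rw [abs_mul]
    exact mul_le_of_le_one_right (abs_nonneg o) (hvk k)
  have t2 : TFn J (∑ k, ∑ l, ‖w‖ * N2 k l)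
      (fun y : Sp m => ∑ k, ∑ l, (v k * w l) * (gb r R y * y k * y l)) := by
    refine TFn.sum' _ fun k _ => ?_
    refine TFn.sum' _ fun l _ => ?_
    refine TFn.mono' (TFn.smul' (hT2 k l) (v k * w l)) ?_
    refine mul_le_mul_of_nonneg_right ?_ (hN2 k l)
    rw [abs_mul]
    have := hvk k
    have h3 := hwk l
    nlinarith [abs_nonneg (v k), abs_nonneg (w l)]
  refine TFn.mono' (TFn.add' t1 t2) ?_
  have e4 : ∑ k, |o| * N1 k = |o| * ∑ k, N1 k := by rw [Finset.mul_sum]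
  have e5 : ∑ k, ∑ l, ‖w‖ * N2 k l = ‖w‖ * ∑ k, ∑ l, N2 k l := by
    rw [Finset.mul_sum]
    refine Finset.sum_congr rfl fun k _ => ?_
    rw [Finset.mul_sum]
  rw [e4, e5]
  have s1 : 0 ≤ ∑ k, N1 k := Finset.sum_nonneg fun k _ => hN1 k
  have s2 : 0 ≤ ∑ k, ∑ l, N2 k l :=
    Finset.sum_nonneg fun k _ => Finset.sum_nonneg fun l _ => hN2 k l
  nlinarith [mul_nonneg s1 (norm_nonneg w), mul_nonneg s2 (abs_nonneg o)]

end test

/-! ## the main argument -/

lemma gb_map {m k : ℕ} (i : Sp m →ₗᵢ[ℝ] Sp k) (r R : ℝ) (v : Sp m) : gb r R (i v) = gb r R v := by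
  unfold gb
  rw [i.norm_map]

lemma gb_mono {m k : ℕ} {r R : ℝ} (hr : 0 ≤ r) (h : r < R) {u : Sp m} {v : Sp k}
    (huv : ‖u‖ ≤ ‖v‖) : gb r R v ≤ gb r R u := by
  refine Real.smoothTransition.monotone ?_
  have h1 : 0 < R ^ 2 - r ^ 2 := by nlinarith
  refine div_le_div_of_nonneg_right ?_ h1.le
  nlinarith [norm_nonneg u]

lemma lip_of_TFn {m : ℕ} {f : Sp m → ℝ} {N : ℝ} (hf : TFn 1 N f) (x y : Sp m) :
    |f y - f x| ≤ N * ‖y - x‖ := by
  have h1 : ContDiff ℝ 1 f := by exact_mod_cast hf.smooth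
  have := Convex.norm_image_sub_le_of_norm_fderiv_le (𝕜 := ℝ) (s := univ) (f := f)
    (fun z _ => h1.differentiable one_ne_zero z) (C := N) (fun z _ => ?_) convex_univ (mem_univ x)
    (mem_univ y)
  · rwa [Real.norm_eq_abs] at this
  · have h2 := hf.bd 1 le_rfl z
    rwa [norm_iteratedFDeriv_one] at h2

lemma vol_ball_pos (n : ℕ) {r : ℝ} (hr : 0 < r) : 0 < volume.real (ball (0 : Sp n) r) :=
  ENNReal.toReal_pos (measure_ball_pos _ _ hr).ne' measure_ball_lt_top.ne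

lemma int_ge {n : ℕ} {F : Sp n → ℝ} (hF : Continuous F) (hc : HasCompactSupport F)
    (h0 : ∀ v, 0 ≤ F v) {w0 : Sp n} {r X : ℝ} (hX : ∀ v ∈ ball w0 r, X ≤ F v) :
    X * volume.real (ball (0 : Sp n) r) ≤ ∫ v, F v := by
  have hi : Integrable F := hF.integrable_of_hasCompactSupport hc
  have h1 : ∫ _ in ball w0 r, X = X * volume.real (ball (0 : Sp n) r) := by
    rw [setIntegral_const, smul_eq_mul, mul_comm, measureReal_def, measureReal_def,
      Measure.addHaar_ball_center]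
  rw [← h1]
  calc ∫ _ in ball w0 r, X ≤ ∫ v in ball w0 r, F v := by
        refine setIntegral_mono_on ?_ hi.integrableOn measurableSet_ball hX
        exact integrableOn_const (hs := measure_ball_lt_top.ne)
    _ ≤ ∫ v, F v := setIntegral_le_integral hi (Eventually.of_forall h0)

lemma int_le {n : ℕ} {F : Sp n → ℝ} {r X : ℝ} (hF : Continuous F) (hX : ∀ v, F v ≤ X)
    (h0 : ∀ v, r ≤ ‖v‖ → F v = 0) :
    ∫ v, F v ≤ X * volume.real (ball (0 : Sp n) r) := by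
  have hc : HasCompactSupport F := by
    refine HasCompactSupport.intro (isCompact_closedBall (0 : Sp n) r) fun v hv => ?_
    rw [mem_closedBall, dist_zero_right, not_le] at hv
    exact h0 v hv.le
  have hi : Integrable F := hF.integrable_of_hasCompactSupport hc
  have h2 : ∫ v in ball (0 : Sp n) r, F v = ∫ v, F v := by
    refine setIntegral_eq_integral_of_forall_compl_eq_zero fun v hv => ?_
    rw [mem_ball, dist_zero_right, not_lt] at hv
    exact h0 v hv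
  rw [← h2]
  have h1 : ∫ _ in ball (0 : Sp n) r, X = X * volume.real (ball (0 : Sp n) r) := by
    rw [setIntegral_const, smul_eq_mul, mul_comm]
  rw [← h1]
  refine setIntegral_mono_on hi.integrableOn ?_ measurableSet_ball fun v _ => hX v
  exact integrableOn_const (hs := measure_ball_lt_top.ne)

lemma norm_sq_aux {n : ℕ} {ν' : Sp (n + 1)} (hν' : ‖ν'‖ = 1) {i' : Sp n →ₗᵢ[ℝ] Sp (n + 1)}
    (hi' : ∀ v, ⟪ν', i' v⟫_ℝ = 0) (h : ℝ) (v : Sp n) :
    ‖(-h) • ν' + i' v‖ ^ 2 = h ^ 2 + ‖v‖ ^ 2 := by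
  rw [norm_add_sq_real, real_inner_smul_left, hi', norm_smul, hν', i'.norm_map, Real.norm_eq_abs,
    abs_neg, mul_one, sq_abs]
  ring

theorem main (n J : ℕ) (ρ : ℝ) (hρ : 1 ≤ ρ) : ∃ (c0 C : ℝ), 0 < c0 ∧ 0 < C ∧
    ∀ (ν ν' : Sp (n + 1)) (c c' a a' τ : ℝ) (x : Sp (n + 1)), ‖ν‖ = 1 → ‖ν'‖ = 1 → ‖x‖ ≤ ρ →
      |⟪ν, x⟫_ℝ - c| ≤ 1 / 2 → 0 < a → 0 ≤ a' → 0 ≤ τ → τ ≤ c0 * a →
      (∀ (F : Sp (n + 1) → ℝ) (N : ℝ), TFn J N F → (∀ y, 1 ≤ ‖y - x‖ → F y = 0) →
        |a * plInt ν c F - a' * plInt ν' c' F| ≤ τ * N) →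
      |a - a'| ≤ C * τ ∧ ∃ σ : ℝ, (σ = 1 ∨ σ = -1) ∧
        a * (‖ν - σ • ν'‖ + |c - σ * c'|) ≤ C * τ := by
  -- constants
  have h14 : (0 : ℝ) ≤ 1 / 8 := by norm_num
  have h14' : (1 / 8 : ℝ) < 1 / 4 := by norm_num
  obtain ⟨N1, hN1, hT1⟩ := exists_TFn J (gb_smooth (m := n + 1) (1 / 8) (1 / 4)) (gb_cs h14 h14')
  obtain ⟨L1, hL1, hT1'⟩ := exists_TFn 1 (gb_smooth (m := n + 1) (1 / 8) (1 / 4)) (gb_cs h14 h14')
  obtain ⟨C3, hC3, hT3⟩ := exists_quad (m := n + 1) J (r := 3 / 8) (R := 1 / 2) (by norm_num)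
    (by norm_num)
  set K1 : ℝ := ∫ v : Sp n, gb (1 / 8) (1 / 4) v with hK1
  set κ4 : ℝ := volume.real (ball (0 : Sp n) (1 / 4)) with hκ4
  set κ16 : ℝ := volume.real (ball (0 : Sp n) (1 / 16)) with hκ16
  have hκ16p : 0 < κ16 := vol_ball_pos n (by norm_num)
  have hκ4p : 0 < κ4 := vol_ball_pos n (by norm_num)
  have hgbc : Continuous (gb (1 / 8) (1 / 4) : Sp n → ℝ) := (gb_smooth _ _).continuous
  have hgbs : HasCompactSupport (gb (1 / 8) (1 / 4) : Sp n → ℝ) := gb_cs h14 h14'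
  have hK1p : 0 < K1 := by
    have h1 := int_ge (n := n) (F := gb (1 / 8) (1 / 4)) hgbc hgbs (gb_nonneg _ _) (w0 := 0)
      (r := 1 / 8) (X := 1) (fun v hv => by
        rw [mem_ball, dist_zero_right] at hv
        rw [gb_one h14 h14' hv.le])
    have h2 := vol_ball_pos n (show (0 : ℝ) < 1 / 8 by norm_num)
    linarith
  set C4 : ℝ := 576 * C3 / κ16 with hC4
  have hC4p : 0 ≤ C4 := by positivity
  refine ⟨K1 / (2 * (N1 + 1)), (N1 + L1 * κ4 * C4) / K1 + 2 * (ρ + 2) * C4 + 1, by positivity,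
    by positivity, ?_⟩
  intro ν ν' c c' a a' τ x hν hν' hx hxc ha ha' hτ0 hτ htest
  -- the foot point
  set p : Sp (n + 1) := x - (⟪ν, x⟫_ℝ - c) • ν with hp
  have hpx : ‖p - x‖ ≤ 1 / 2 := by
    rw [hp, sub_sub_cancel_left, norm_neg, norm_smul, hν, mul_one, Real.norm_eq_abs]
    exact hxc
  have hpc : ⟪ν, p⟫_ℝ = c := by
    rw [hp, inner_sub_right, real_inner_smul_right, real_inner_self_eq_norm_sq, hν]
    ring
  have hpn : ‖p‖ ≤ ρ + 1 / 2 := by
    have := norm_add_le (p - x) x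
    rw [sub_add_cancel] at this
    linarith
  set h : ℝ := ⟪ν', p⟫_ℝ - c' with hh
  obtain ⟨i, hi1, hi2, hi3⟩ := param ν hν
  obtain ⟨i', hi1', hi2', hi3'⟩ := param ν' hν'
  have hpl : ∀ F : Sp (n + 1) → ℝ, plInt ν c F = ∫ v, F (p + i v) := by
    intro F
    have := hi3 p F
    rwa [hpc] at this
  have hpl' : ∀ F : Sp (n + 1) → ℝ, plInt ν' c' F = ∫ v, F (p + ((-h) • ν' + i' v)) := by
    intro F
    have h1 := hi3' (p + (-h) • ν') F
    have h2 : ⟪ν', p + (-h) • ν'⟫_ℝ = c' := by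
      rw [inner_add_right, real_inner_smul_right, real_inner_self_eq_norm_sq, hν', hh]
      ring
    rw [h2] at h1
    rw [h1]
    simp only [add_assoc]
  have hU2 : ∀ v : Sp n, ‖(-h) • ν' + i' v‖ ^ 2 = h ^ 2 + ‖v‖ ^ 2 := norm_sq_aux hν' hi1' h
  have hUv : ∀ v : Sp n, ‖v‖ ≤ ‖(-h) • ν' + i' v‖ := by
    intro v
    have := hU2 v
    nlinarith only [this, norm_nonneg v, norm_nonneg ((-h) • ν' + i' v), sq_nonneg h]
  have hUh : ∀ v : Sp n, |h| ≤ ‖(-h) • ν' + i' v‖ := by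
    intro v
    have := hU2 v
    have h1 : |h| ^ 2 = h ^ 2 := sq_abs h
    nlinarith only [this, h1, sq_nonneg ‖v‖, norm_nonneg ((-h) • ν' + i' v), abs_nonneg h]
  -- first test
  set P1 : ℝ := ∫ v, gb (1 / 8) (1 / 4) ((-h) • ν' + i' v) with hP1
  have hF1c : Continuous fun v : Sp n => gb (1 / 8) (1 / 4) ((-h) • ν' + i' v) :=
    (gb_smooth _ _).continuous.comp (continuous_const.add i'.continuous)
  have hF1s : HasCompactSupport fun v : Sp n => gb (1 / 8) (1 / 4) ((-h) • ν' + i' v) := by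
    refine HasCompactSupport.intro (isCompact_closedBall (0 : Sp n) (1 / 4)) fun v hv => ?_
    rw [mem_closedBall, dist_zero_right, not_le] at hv
    exact gb_zero h14 h14' (hv.le.trans (hUv v))
  have hsup : ∀ y, 1 ≤ ‖y - x‖ → 1 / 2 ≤ ‖y - p‖ := by
    intro y hy
    have h1 : ‖y - x‖ ≤ ‖y - p‖ + ‖p - x‖ := by
      rw [← sub_add_sub_cancel y p x]
      exact norm_add_le _ _
    linarith
  have t1 := htest (fun y => gb (1 / 8) (1 / 4) (y - p)) N1 (TFn.shift' hT1 p) (fun y hy =>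
    gb_zero h14 h14' (by have := hsup y hy; linarith))
  have e1 : plInt ν c (fun y => gb (1 / 8) (1 / 4) (y - p)) = K1 := by
    rw [hpl, hK1]
    congr 1
    ext v
    rw [add_sub_cancel_left, gb_map]
  have e1' : plInt ν' c' (fun y => gb (1 / 8) (1 / 4) (y - p)) = P1 := by
    rw [hpl', hP1]
    congr 1
    ext v
    rw [add_sub_cancel_left]
  rw [e1, e1'] at t1
  have hP1K : P1 ≤ K1 := by
    refine integral_mono (hF1c.integrable_of_hasCompactSupport hF1s)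
      (hgbc.integrable_of_hasCompactSupport hgbs) fun v => ?_
    exact gb_mono h14 h14' (hUv v)
  have hτN : τ * N1 ≤ a * K1 / 2 := by
    have h1 : τ * (N1 + 1) ≤ a * K1 / 2 := by
      calc τ * (N1 + 1) ≤ K1 / (2 * (N1 + 1)) * a * (N1 + 1) :=
            mul_le_mul_of_nonneg_right hτ (by linarith)
        _ = a * K1 / 2 := by field_simp
    nlinarith only [h1, hτ0]
  have hlow : a * K1 / 2 ≤ a' * P1 := by
    have := (abs_le.mp t1).2
    linarith
  have haa : a ≤ 2 * a' := by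
    have h1 : a' * P1 ≤ a' * K1 := mul_le_mul_of_nonneg_left hP1K ha'
    have h2 : a * K1 ≤ 2 * a' * K1 := by linarith
    exact le_of_mul_le_mul_right h2 hK1p
  have hh4 : |h| < 1 / 4 := by
    by_contra hcon
    push Not at hcon
    have h1 : P1 = 0 := by
      rw [hP1]
      refine integral_eq_zero_of_ae (Eventually.of_forall fun v => ?_)
      exact gb_zero h14 h14' (hcon.trans (hUh v))
    rw [h1, mul_zero] at hlow
    nlinarith only [hlow, mul_pos ha hK1p]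
  -- difference of the two integrals
  have hdiff : |P1 - K1| ≤ L1 * |h| * κ4 := by
    have h1 : P1 - K1 = ∫ v : Sp n, (gb (1 / 8) (1 / 4) ((-h) • ν' + i' v) - gb (1 / 8) (1 / 4) v) :=
      (integral_sub (hF1c.integrable_of_hasCompactSupport hF1s)
        (hgbc.integrable_of_hasCompactSupport hgbs)).symm
    rw [h1, ← Real.norm_eq_abs]
    refine (norm_integral_le_integral_norm _).trans ?_
    refine int_le (r := 1 / 4) (hF1c.sub hgbc).norm (fun v => ?_) (fun v hv => ?_)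
    · rw [Real.norm_eq_abs, ← gb_map i']
      refine (lip_of_TFn hT1' _ _).trans (le_of_eq ?_)
      rw [add_sub_cancel_right, norm_smul, hν', mul_one, norm_neg, Real.norm_eq_abs]
    · rw [gb_zero h14 h14' hv, gb_zero h14 h14' (hv.trans (hUv v)), sub_zero, norm_zero]
  -- the sign
  set g : ℝ := ⟪ν, ν'⟫_ℝ with hg
  obtain ⟨σ, hσ, hσg⟩ : ∃ σ : ℝ, (σ = 1 ∨ σ = -1) ∧ σ * g = |g| := by
    rcases le_or_gt 0 g with hg0 | hg0
    · exact ⟨1, Or.inl rfl, by rw [one_mul, abs_of_nonneg hg0]⟩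
    · exact ⟨-1, Or.inr rfl, by rw [neg_one_mul, abs_of_neg hg0]⟩
  have hσ2 : σ ^ 2 = 1 := by rcases hσ with rfl | rfl <;> norm_num
  have hσa : |σ| = 1 := by rcases hσ with rfl | rfl <;> norm_num
  set μ : Sp (n + 1) := ν - σ • ν' with hμ
  have hμ2 : ‖μ‖ ^ 2 = 2 - 2 * |g| := by
    rw [hμ, norm_sub_sq_real, real_inner_smul_right, norm_smul, hν, hν', Real.norm_eq_abs, hσa,
      ← hg, hσg]
    ring
  -- the tangential part of ν
  obtain ⟨v1, hv1⟩ := hi2' (ν - g • ν') (by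
    rw [inner_sub_right, real_inner_smul_right, real_inner_self_eq_norm_sq, hν',
      real_inner_comm, ← hg]
    ring)
  have hv1n : ‖v1‖ ^ 2 = 1 - g ^ 2 := by
    rw [← i'.norm_map, hv1, norm_sub_sq_real, real_inner_smul_right, norm_smul, hν, hν', ← hg,
      Real.norm_eq_abs, mul_one, sq_abs]
    ring
  have hin : ∀ v : Sp n, ⟪ν, i' v⟫_ℝ = ⟪v1, v⟫_ℝ := by
    intro v
    have h1 : ν = i' v1 + g • ν' := by rw [hv1]; abel
    rw [← i'.inner_map_map v1 v]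
    nth_rewrite 1 [h1]
    rw [inner_add_left, real_inner_smul_left, hi1', mul_zero, add_zero]
  have hg1 : |g| ≤ 1 := by
    have h1 : g ^ 2 ≤ 1 := by linarith only [hv1n, sq_nonneg ‖v1‖]
    nlinarith only [h1, sq_abs g, abs_nonneg g]
  have hv1l : ‖v1‖ ≤ 1 := by nlinarith only [hv1n, norm_nonneg v1, sq_nonneg g]
  have hμv : ‖μ‖ ≤ 2 * ‖v1‖ := by
    have h1 : ‖μ‖ ^ 2 ≤ (2 * ‖v1‖) ^ 2 := by
      rw [hμ2, mul_pow, hv1n, ← sq_abs g]
      nlinarith only [hg1, abs_nonneg g]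
    exact (pow_le_pow_iff_left₀ (norm_nonneg _) (by positivity) two_ne_zero).mp h1
  set X : ℝ := |h * g| + ‖v1‖ / 8 with hX
  have hX0 : 0 ≤ X := by positivity
  have hhv : |h| ≤ |h * g| + ‖v1‖ := by
    rw [abs_mul]
    have h1 : 1 - |g| ≤ ‖v1‖ := by
      have h2 : 1 - |g| ≤ ‖v1‖ ^ 2 := by
        rw [hv1n, ← sq_abs g]
        nlinarith only [hg1, abs_nonneg g]
      nlinarith only [h2, hv1l, norm_nonneg v1]
    nlinarith only [h1, hh4, hg1, abs_nonneg h, abs_nonneg g, norm_nonneg v1]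
  have hsum : |h| + ‖μ‖ ≤ 24 * X := by
    rw [hX]
    linarith only [hhv, hμv, abs_nonneg (h * g), norm_nonneg v1]
  -- second test
  have t3 := htest (fun y => gb (3 / 8) (1 / 2) (y - p) * ⟪ν, y - p⟫_ℝ *
      (-(σ * h) + ⟪μ, y - p⟫_ℝ)) (C3 * (|(-(σ * h))| + ‖μ‖))
    (TFn.shift' (f := fun y => gb (3 / 8) (1 / 2) y * ⟪ν, y⟫_ℝ * (-(σ * h) + ⟪μ, y⟫_ℝ))
      (hT3 ν μ hν.le _) p) (fun y hy => by
      rw [gb_zero (by norm_num) (by norm_num) (hsup y hy), zero_mul, zero_mul])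
  have e3 : plInt ν c (fun y => gb (3 / 8) (1 / 2) (y - p) * ⟪ν, y - p⟫_ℝ *
      (-(σ * h) + ⟪μ, y - p⟫_ℝ)) = 0 := by
    rw [hpl]
    refine integral_eq_zero_of_ae (Eventually.of_forall fun v => ?_)
    change gb (3 / 8) (1 / 2) (p + i v - p) * ⟪ν, p + i v - p⟫_ℝ *
      (-(σ * h) + ⟪μ, p + i v - p⟫_ℝ) = 0
    rw [add_sub_cancel_left, hi1, mul_zero, zero_mul]
  set P3 : ℝ := ∫ v : Sp n, gb (3 / 8) (1 / 2) ((-h) • ν' + i' v) *
    (-(h * g) + ⟪v1, v⟫_ℝ) ^ 2 with hP3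
  have e3' : plInt ν' c' (fun y => gb (3 / 8) (1 / 2) (y - p) * ⟪ν, y - p⟫_ℝ *
      (-(σ * h) + ⟪μ, y - p⟫_ℝ)) = P3 := by
    rw [hpl', hP3]
    congr 1
    ext v
    rw [add_sub_cancel_left]
    have h1 : ⟪ν, (-h) • ν' + i' v⟫_ℝ = -(h * g) + ⟪v1, v⟫_ℝ := by
      rw [inner_add_right, real_inner_smul_right, hin, ← hg]
      ring
    have h2 : ⟪ν', (-h) • ν' + i' v⟫_ℝ = -h := by
      rw [inner_add_right, real_inner_smul_right, hi1', real_inner_self_eq_norm_sq, hν']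
      ring
    have h3 : -(σ * h) + ⟪μ, (-h) • ν' + i' v⟫_ℝ = -(h * g) + ⟪v1, v⟫_ℝ := by
      rw [hμ, inner_sub_left, real_inner_smul_left, h1, h2]
      ring
    rw [h3, h1]
    ring
  rw [e3, e3', mul_zero, zero_sub, abs_neg, abs_neg, abs_mul σ h, hσa, one_mul] at t3
  have hF3c : Continuous fun v : Sp n => gb (3 / 8) (1 / 2) ((-h) • ν' + i' v) *
      (-(h * g) + ⟪v1, v⟫_ℝ) ^ 2 :=
    ((gb_smooth _ _).continuous.comp (continuous_const.add i'.continuous)).mul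
      ((continuous_const.add (continuous_const.inner continuous_id)).pow 2)
  have hF3s : HasCompactSupport fun v : Sp n => gb (3 / 8) (1 / 2) ((-h) • ν' + i' v) *
      (-(h * g) + ⟪v1, v⟫_ℝ) ^ 2 := by
    refine HasCompactSupport.intro (isCompact_closedBall (0 : Sp n) (1 / 2)) fun v hv => ?_
    rw [mem_closedBall, dist_zero_right, not_le] at hv
    rw [gb_zero (by norm_num) (by norm_num) (hv.le.trans (hUv v)), zero_mul]
  have hP3l : X ^ 2 * κ16 ≤ P3 := by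
    obtain ⟨s, hs1, hs2⟩ : ∃ s : ℝ, |s| = 1 ∧ s * (-(h * g)) = |h * g| := by
      rcases le_or_gt 0 (h * g) with hg0 | hg0
      · exact ⟨-1, by norm_num, by rw [abs_of_nonneg hg0]; ring⟩
      · exact ⟨1, by norm_num, by rw [abs_of_neg hg0]; ring⟩
    have hs3 : s ^ 2 = 1 := by rw [← sq_abs, hs1]; norm_num
    refine int_ge (w0 := (s * (3 / 16) * ‖v1‖⁻¹) • v1) (r := 1 / 16) hF3c hF3s
      (fun v => mul_nonneg (gb_nonneg _ _ _) (sq_nonneg _)) (fun v hv => ?_)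
    set w0 : Sp n := (s * (3 / 16) * ‖v1‖⁻¹) • v1 with hw0
    rw [mem_ball, dist_eq_norm] at hv
    have hinv : ‖v1‖⁻¹ * ‖v1‖ ≤ 1 := inv_mul_le_one
    have hw0n : ‖w0‖ ≤ 3 / 16 := by
      rw [hw0, norm_smul, norm_mul, norm_mul, Real.norm_eq_abs s, hs1, norm_inv, norm_norm,
        Real.norm_of_nonneg (by norm_num : (0 : ℝ) ≤ 3 / 16), one_mul, mul_assoc]
      linarith
    have hvn : ‖v‖ ≤ 1 / 4 := by
      have := norm_add_le (v - w0) w0
      rw [sub_add_cancel] at this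
      linarith
    have hUn : ‖(-h) • ν' + i' v‖ ≤ 3 / 8 := by
      have h1 := hU2 v
      have h2 : h ^ 2 ≤ 1 / 16 := by
        rw [← sq_abs]
        nlinarith only [hh4, abs_nonneg h]
      have h3 : ‖v‖ ^ 2 ≤ 1 / 16 := by nlinarith only [hvn, norm_nonneg v]
      nlinarith only [h1, h2, h3, norm_nonneg ((-h) • ν' + i' v)]
    rw [gb_one (by norm_num) (by norm_num) hUn, one_mul]
    have hiw : ⟪v1, w0⟫_ℝ = s * (3 / 16) * ‖v1‖ := by
      rw [hw0, real_inner_smul_right, real_inner_self_eq_norm_sq]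
      by_cases hv0 : ‖v1‖ = 0
      · rw [hv0]; ring
      · field_simp
    have hiv : |⟪v1, v - w0⟫_ℝ| ≤ ‖v1‖ / 16 := by
      refine (abs_real_inner_le_norm _ _).trans ?_
      nlinarith only [hv, norm_nonneg v1]
    have h4 : X ≤ s * (-(h * g) + ⟪v1, v⟫_ℝ) := by
      have h5 : ⟪v1, v⟫_ℝ = ⟪v1, w0⟫_ℝ + ⟪v1, v - w0⟫_ℝ := by
        rw [← inner_add_right, add_sub_cancel]
      have h6 : s * ⟪v1, v - w0⟫_ℝ ≥ -(‖v1‖ / 16) := by
        have h7 : |s * ⟪v1, v - w0⟫_ℝ| ≤ ‖v1‖ / 16 := by rwa [abs_mul, hs1, one_mul]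
        exact (abs_le.mp h7).1
      rw [mul_add, hs2, h5, mul_add, hiw, hX]
      have h8 : s * (s * (3 / 16) * ‖v1‖) = 3 / 16 * ‖v1‖ := by
        calc s * (s * (3 / 16) * ‖v1‖) = s ^ 2 * (3 / 16 * ‖v1‖) := by ring
          _ = _ := by rw [hs3, one_mul]
      rw [h8]
      linarith
    have h9 : (-(h * g) + ⟪v1, v⟫_ℝ) ^ 2 = (s * (-(h * g) + ⟪v1, v⟫_ℝ)) ^ 2 := by
      rw [mul_pow, hs3, one_mul]
    rw [h9]
    exact pow_le_pow_left₀ hX0 h4 2
  -- conclusion of the second test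
  have hkey : a' * (|h| + ‖μ‖) ≤ C4 * τ := by
    have h1 : a' * (X ^ 2 * κ16) ≤ τ * (C3 * (24 * X)) := by
      calc a' * (X ^ 2 * κ16) ≤ a' * P3 := mul_le_mul_of_nonneg_left hP3l ha'
        _ ≤ |a' * P3| := le_abs_self _
        _ ≤ τ * (C3 * (|h| + ‖μ‖)) := t3
        _ ≤ τ * (C3 * (24 * X)) := by gcongr
    have h2 : a' * X ≤ 24 * C3 * τ / κ16 := by
      rw [le_div_iff₀ hκ16p]
      rcases hX0.eq_or_lt with h3 | h3
      · rw [← h3]
        simp only [mul_zero, zero_mul]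
        positivity
      · have h4 : X * (a' * X * κ16) ≤ X * (24 * C3 * τ) := by linarith only [h1]
        exact le_of_mul_le_mul_left h4 h3
    calc a' * (|h| + ‖μ‖) ≤ a' * (24 * X) := mul_le_mul_of_nonneg_left hsum ha'
      _ = 24 * (a' * X) := by ring
      _ ≤ 24 * (24 * C3 * τ / κ16) := by linarith
      _ = C4 * τ := by rw [hC4]; ring
  have hah : a' * |h| ≤ C4 * τ := by
    have := mul_nonneg ha' (norm_nonneg μ)
    linarith only [hkey, this, mul_add a' |h| ‖μ‖]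
  refine ⟨?_, σ, hσ, ?_⟩
  · have h1 : |a - a'| * K1 ≤ (N1 + L1 * κ4 * C4) * τ := by
      have h2 : (a - a') * K1 = (a * K1 - a' * P1) + a' * (P1 - K1) := by ring
      calc |a - a'| * K1 = |(a - a') * K1| := by rw [abs_mul, abs_of_pos hK1p]
        _ ≤ |a * K1 - a' * P1| + |a' * (P1 - K1)| := by rw [h2]; exact abs_add_le _ _
        _ ≤ τ * N1 + a' * (L1 * |h| * κ4) := by
            rw [abs_mul, abs_of_nonneg ha']
            exact add_le_add t1 (mul_le_mul_of_nonneg_left hdiff ha')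
        _ = τ * N1 + L1 * κ4 * (a' * |h|) := by ring
        _ ≤ τ * N1 + L1 * κ4 * (C4 * τ) := by gcongr
        _ = _ := by ring
    have h3 : |a - a'| ≤ (N1 + L1 * κ4 * C4) / K1 * τ := by
      rw [div_mul_eq_mul_div, le_div_iff₀ hK1p]
      exact h1
    have h4 : 0 ≤ (2 * (ρ + 2) * C4 + 1) * τ := by positivity
    linarith
  · have h1 : |c - σ * c'| ≤ (ρ + 1) * ‖μ‖ + |h| := by
      have h2 : c - σ * c' = ⟪μ, p⟫_ℝ + σ * h := by
        rw [hμ, inner_sub_left, real_inner_smul_left, hpc, hh]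
        ring
      rw [h2]
      refine (abs_add_le _ _).trans ?_
      rw [abs_mul, hσa, one_mul]
      have h3 := abs_real_inner_le_norm μ p
      have h4 : ‖μ‖ * ‖p‖ ≤ ‖μ‖ * (ρ + 1) :=
        mul_le_mul_of_nonneg_left (by linarith) (norm_nonneg _)
      linarith
    have h5 : ‖μ‖ + |c - σ * c'| ≤ (ρ + 2) * (|h| + ‖μ‖) := by
      nlinarith only [h1, hρ, abs_nonneg h, norm_nonneg μ]
    have h6 : 0 ≤ |h| + ‖μ‖ := by positivity
    have h7 : a * (‖μ‖ + |c - σ * c'|) ≤ 2 * (ρ + 2) * C4 * τ := by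
      calc a * (‖μ‖ + |c - σ * c'|) ≤ a * ((ρ + 2) * (|h| + ‖μ‖)) :=
            mul_le_mul_of_nonneg_left h5 ha.le
        _ ≤ (2 * a') * ((ρ + 2) * (|h| + ‖μ‖)) :=
            mul_le_mul_of_nonneg_right haa (by positivity)
        _ = 2 * (ρ + 2) * (a' * (|h| + ‖μ‖)) := by ring
        _ ≤ 2 * (ρ + 2) * (C4 * τ) := by gcongr
        _ = _ := by ring
    have h8 : 0 ≤ ((N1 + L1 * κ4 * C4) / K1 + 1) * τ := by positivity
    linarith

end GE

/-- MODULE GE -/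
theorem stmtGE : StmtGE := by
  intro d hd J ρ hρ
  obtain ⟨n, rfl⟩ : ∃ n, d = n + 1 := ⟨d - 1, by omega⟩
  exact GE.main n J ρ hρ

end

end TG
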