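import Pool.Agent.TG.Stmts1

/-!
# Trace inequality, general operators: module GI, part 1 (calculus on space time)
-/

open MeasureTheory Metric Set TrI
open scoped InnerProductSpace ContDiff

namespace TG

noncomputable section

variable {d : ℕ}

section Gen

variable {G : Type*} [NormedAddCommGroup G] [NormedSpace ℝ G]

/-- directional derivative on space time -/
def giD (a : ℝ × Sp d) (F : ℝ × Sp d → G) : ℝ × Sp d → G := fun p => fderiv ℝ F p a

lemma giD_smooth (a : ℝ × Sp d) {F : ℝ × Sp d → G} (hF : ContDiff ℝ ∞ F) :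
    ContDiff ℝ ∞ (giD a F) :=
  (hF.fderiv_right (m := ∞) (by simp)).clm_apply contDiff_const

lemma giD_comm (a b : ℝ × Sp d) {F : ℝ × Sp d → G} (hF : ContDiff ℝ ∞ F) :
    giD a (giD b F) = giD b (giD a F) := by
  funext p
  have h1 : DifferentiableAt ℝ (fderiv ℝ F) p :=
    ((hF.fderiv_right (m := ∞) (by simp)).differentiable (by simp)).differentiableAt
  have h2 : ∀ c : ℝ × Sp d, giD a (giD b F) p = fderiv ℝ (fderiv ℝ F) p a b := by
    intro c
    show fderiv ℝ (fun q => fderiv ℝ F q b) p a = _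
    rw [fderiv_clm_apply h1 (differentiableAt_const b)]
    simp
  have h3 : giD b (giD a F) p = fderiv ℝ (fderiv ℝ F) p b a := by
    show fderiv ℝ (fun q => fderiv ℝ F q a) p b = _
    rw [fderiv_clm_apply h1 (differentiableAt_const a)]
    simp
  rw [h2 0, h3]
  have hs : IsSymmSndFDerivAt ℝ F p := by
    apply ContDiffAt.isSymmSndFDerivAt (n := 2) (hF.contDiffAt.of_le
      (WithTop.coe_le_coe.2 le_top))
    simp
  exact hs a b

lemma gi_it2 {E : Type*} [NormedAddCommGroup E] [NormedSpace ℝ E] {F : E → G} {p : E}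
    (h1 : DifferentiableAt ℝ (fderiv ℝ F) p) (a : E) :
    iteratedFDeriv ℝ 2 F p (fun _ => a) = fderiv ℝ (fun q => fderiv ℝ F q a) p a := by
  rw [iteratedFDeriv_two_apply, fderiv_clm_apply h1 (differentiableAt_const a)]
  simp

lemma giD_it2 (a : ℝ × Sp d) {F : ℝ × Sp d → G} (hF : ContDiff ℝ ∞ F) (p : ℝ × Sp d) :
    iteratedFDeriv ℝ 2 F p (fun _ => a) = giD a (giD a F) p := by
  rw [gi_it2]
  · rfl
  · exact ((hF.fderiv_right (m := ∞) (by simp)).differentiable (by simp)).differentiableAt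

lemma gi_slice (t : ℝ) (h : Sp d) {F : ℝ × Sp d → G} (hF : ContDiff ℝ ∞ F) (x : Sp d) :
    fderiv ℝ (fun x => F (t, x)) x h = giD (0, h) F (t, x) := by
  have h1 : HasFDerivAt (fun x : Sp d => (t, x)) (ContinuousLinearMap.inr ℝ ℝ (Sp d)) x :=
    hasFDerivAt_prodMk_right t x
  have h2 : HasFDerivAt F (fderiv ℝ F (t, x)) (t, x) :=
    ((hF.differentiable (by simp)) (t, x)).hasFDerivAt
  have := (h2.comp x h1).fderiv
  rw [show (fun x => F (t, x)) = F ∘ (fun x : Sp d => (t, x)) from rfl, this]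
  simp [giD]

lemma gi_slice2 (t : ℝ) (h : Sp d) {F : ℝ × Sp d → G} (hF : ContDiff ℝ ∞ F) (x : Sp d) :
    iteratedFDeriv ℝ 2 (fun x => F (t, x)) x (fun _ => h) = giD (0, h) (giD (0, h) F) (t, x) := by
  have h0 : ContDiff ℝ ∞ (fun x : Sp d => F (t, x)) :=
    hF.comp (contDiff_const.prodMk contDiff_id)
  rw [gi_it2 ((h0.fderiv_right (m := ∞) (by simp)).differentiable (by simp)).differentiableAt]
  have : (fun q => fderiv ℝ (fun x => F (t, x)) q h) = fun q => giD (0, h) F (t, q) := by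
    funext q
    exact gi_slice t h hF q
  rw [this, gi_slice t h (giD_smooth _ hF)]

end Gen

/-- Laplacian in the space variables -/
def giL (F : ℝ × Sp d → ℝ) : ℝ × Sp d → ℝ := fun p =>
  ∑ j : Fin d, giD (0, EuclideanSpace.single j (1 : ℝ)) (giD (0, EuclideanSpace.single j (1 : ℝ)) F) p

/-- second derivative in direction n -/
def giN (n : Sp d) (F : ℝ × Sp d → ℝ) : ℝ × Sp d → ℝ := giD (0, n) (giD (0, n) F)

/-- time derivative -/
def giT (F : ℝ × Sp d → ℝ) : ℝ × Sp d → ℝ := giD (1, 0) F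

lemma giL_smooth {F : ℝ × Sp d → ℝ} (hF : ContDiff ℝ ∞ F) : ContDiff ℝ ∞ (giL F) := by
  unfold giL
  exact ContDiff.sum fun j _ => giD_smooth _ (giD_smooth _ hF)

lemma giN_smooth (n : Sp d) {F : ℝ × Sp d → ℝ} (hF : ContDiff ℝ ∞ F) :
    ContDiff ℝ ∞ (giN n F) := giD_smooth _ (giD_smooth _ hF)

lemma giT_smooth {F : ℝ × Sp d → ℝ} (hF : ContDiff ℝ ∞ F) : ContDiff ℝ ∞ (giT F) :=
  giD_smooth _ hF

lemma lap_slice (t : ℝ) {F : ℝ × Sp d → ℝ} (hF : ContDiff ℝ ∞ F) (x : Sp d) :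
    lap (fun x => F (t, x)) x = giL F (t, x) := by
  unfold lap giL
  exact Finset.sum_congr rfl fun j _ => gi_slice2 t _ hF x

lemma d2_slice (n : Sp d) (t : ℝ) {F : ℝ × Sp d → ℝ} (hF : ContDiff ℝ ∞ F) (x : Sp d) :
    d2 n (fun x => F (t, x)) x = giN n F (t, x) := gi_slice2 t _ hF x

/-! ### parametric integrals -/

section Par

variable {G : Type*} [NormedAddCommGroup G] [NormedSpace ℝ G]

lemma gi_param {S : Set (ℝ × Sp d)} (hS : IsCompact S) {K : ℝ × Sp d → ℝ} (hK : Continuous K)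
    {Ψ : ℝ × Sp d → ℝ × Sp d} (hΨ : Continuous Ψ) {F : ℝ × Sp d → G} (hF : ContDiff ℝ 1 F)
    (y0 : Sp d) :
    HasFDerivAt (fun y => ∫ x in S, K x • F (Ψ x + (0, y)))
      (∫ x in S, K x • (fderiv ℝ F (Ψ x + (0, y0))).comp (ContinuousLinearMap.inr ℝ ℝ (Sp d)))
      y0 := by
  have hdF : Continuous (fderiv ℝ F) := hF.continuous_fderiv (by simp)
  have hc1 : Continuous fun q : Sp d × (ℝ × Sp d) => K q.2 • F (Ψ q.2 + (0, q.1)) := by
    have := hF.continuous
    fun_prop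
  have hc2 : Continuous fun q : Sp d × (ℝ × Sp d) =>
      K q.2 • (fderiv ℝ F (Ψ q.2 + (0, q.1))).comp (ContinuousLinearMap.inr ℝ ℝ (Sp d)) := by
    exact (hK.comp continuous_snd).smul
      (Continuous.clm_comp (hdF.comp (by fun_prop)) continuous_const)
  have hcomp : IsCompact (closedBall y0 1 ×ˢ S) := (isCompact_closedBall y0 1).prod hS
  obtain ⟨C, hC⟩ := hcomp.exists_bound_of_continuousOn hc2.continuousOn
  have hfin : IsFiniteMeasure ((volume : Measure (ℝ × Sp d)).restrict S) :=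
    ⟨by simpa using hS.measure_lt_top⟩
  refine hasFDerivAt_integral_of_dominated_of_fderiv_le (bound := fun _ => C)
    (F' := fun y x => K x • (fderiv ℝ F (Ψ x + (0, y))).comp (ContinuousLinearMap.inr ℝ ℝ (Sp d)))
    (ball_mem_nhds y0 one_pos) ?_ ?_ ?_ ?_ ?_ ?_
  · refine Filter.Eventually.of_forall fun y => ?_
    exact (hc1.comp (continuous_const.prodMk continuous_id : Continuous fun x => (y, x))).aestronglyMeasurable
  · exact (hc1.comp (continuous_const.prodMk continuous_id :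
      Continuous fun x => (y0, x))).continuousOn.integrableOn_compact hS
  · exact (hc2.comp (continuous_const.prodMk continuous_id : Continuous fun x => (y0, x))).aestronglyMeasurable
  · rw [ae_restrict_iff' hS.measurableSet]
    refine Filter.Eventually.of_forall fun x hx y hy => ?_
    exact hC (y, x) ⟨ball_subset_closedBall hy, hx⟩
  · exact integrable_const C
  · refine Filter.Eventually.of_forall fun x y _ => ?_
    have h1 : HasFDerivAt (fun y : Sp d => Ψ x + (0, y)) (ContinuousLinearMap.inr ℝ ℝ (Sp d)) y := by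
      exact (hasFDerivAt_prodMk_right (0 : ℝ) y).const_add (Ψ x)
    have h2 : HasFDerivAt F (fderiv ℝ F (Ψ x + (0, y))) (Ψ x + (0, y)) :=
      (hF.differentiable (by simp) _).hasFDerivAt
    exact (h2.comp y h1).const_smul (K x)

end Par

/-- functions with two derivatives and known second directional derivatives -/
def GiGood (g : Sp d → ℝ) (D : Sp d → Sp d → ℝ) : Prop :=
  Differentiable ℝ g ∧ Differentiable ℝ (fderiv ℝ g) ∧
    ∀ h y, iteratedFDeriv ℝ 2 g y (fun _ => h) = D h y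

lemma GiGood.add {g1 g2 : Sp d → ℝ} {D1 D2 : Sp d → Sp d → ℝ} (h1 : GiGood g1 D1)
    (h2 : GiGood g2 D2) : GiGood (fun y => g1 y + g2 y) (fun h y => D1 h y + D2 h y) := by
  obtain ⟨a1, b1, c1⟩ := h1
  obtain ⟨a2, b2, c2⟩ := h2
  have hf : fderiv ℝ (fun y => g1 y + g2 y) = fun y => fderiv ℝ g1 y + fderiv ℝ g2 y := by
    funext y
    exact fderiv_fun_add (a1 y) (a2 y)
  refine ⟨a1.add a2, ?_, ?_⟩
  · rw [hf]; exact b1.add b2
  · intro h y
    show _ = D1 h y + D2 h y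
    rw [← c1, ← c2, iteratedFDeriv_two_apply, iteratedFDeriv_two_apply, iteratedFDeriv_two_apply,
      hf, fderiv_fun_add (b1 y) (b2 y)]
    simp

section Par2

variable {S : Set (ℝ × Sp d)} {K : ℝ × Sp d → ℝ} {Ψ : ℝ × Sp d → ℝ × Sp d} {F : ℝ × Sp d → ℝ}

lemma giI_hasFDerivAt (hS : IsCompact S) (hK : Continuous K) (hΨ : Continuous Ψ)
    (hF : ContDiff ℝ ∞ F) (y : Sp d) :
    HasFDerivAt (fun y => ∫ x in S, K x * F (Ψ x + (0, y)))
      (∫ x in S, K x • (fderiv ℝ F (Ψ x + (0, y))).comp (ContinuousLinearMap.inr ℝ ℝ (Sp d)))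
      y := by
  have := gi_param hS hK hΨ (F := F) (hF.of_le (WithTop.coe_le_coe.2 le_top)) y
  simpa only [smul_eq_mul] using this

lemma giI_int (hS : IsCompact S) (hK : Continuous K) (hΨ : Continuous Ψ)
    (hF : ContDiff ℝ ∞ F) (y : Sp d) :
    Integrable (fun x => K x • (fderiv ℝ F (Ψ x + (0, y))).comp
      (ContinuousLinearMap.inr ℝ ℝ (Sp d))) (volume.restrict S) := by
  have hdF : Continuous (fderiv ℝ F) := hF.continuous_fderiv (by simp)
  have : Continuous fun x => K x • (fderiv ℝ F (Ψ x + (0, y))).comp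
      (ContinuousLinearMap.inr ℝ ℝ (Sp d)) :=
    hK.smul (Continuous.clm_comp (hdF.comp (by fun_prop)) continuous_const)
  exact this.continuousOn.integrableOn_compact hS

lemma giI_fderiv (hS : IsCompact S) (hK : Continuous K) (hΨ : Continuous Ψ)
    (hF : ContDiff ℝ ∞ F) (y h : Sp d) :
    fderiv ℝ (fun y => ∫ x in S, K x * F (Ψ x + (0, y))) y h =
      ∫ x in S, K x * giD (0, h) F (Ψ x + (0, y)) := by
  rw [(giI_hasFDerivAt hS hK hΨ hF y).fderiv,
    ContinuousLinearMap.integral_apply (giI_int hS hK hΨ hF y)]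
  simp [giD]

lemma giI_good (hS : IsCompact S) (hK : Continuous K) (hΨ : Continuous Ψ)
    (hF : ContDiff ℝ ∞ F) :
    GiGood (fun y => ∫ x in S, K x * F (Ψ x + (0, y)))
      (fun h y => ∫ x in S, K x * giD (0, h) (giD (0, h) F) (Ψ x + (0, y))) := by
  have hfd : fderiv ℝ (fun y => ∫ x in S, K x * F (Ψ x + (0, y))) = fun y =>
      ∫ x in S, K x • (fderiv ℝ F (Ψ x + (0, y))).comp (ContinuousLinearMap.inr ℝ ℝ (Sp d)) := by
    funext y
    exact (giI_hasFDerivAt hS hK hΨ hF y).fderiv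
  have hF' : ContDiff ℝ ∞ (fun p => (fderiv ℝ F p).comp (ContinuousLinearMap.inr ℝ ℝ (Sp d))) :=
    (hF.fderiv_right (m := ∞) (by simp)).clm_comp contDiff_const
  have hd2 : Differentiable ℝ (fderiv ℝ (fun y => ∫ x in S, K x * F (Ψ x + (0, y)))) := by
    rw [hfd]
    intro y
    exact (gi_param hS hK hΨ (hF'.of_le (WithTop.coe_le_coe.2 le_top)) y).differentiableAt
  refine ⟨fun y => (giI_hasFDerivAt hS hK hΨ hF y).differentiableAt, hd2, ?_⟩
  intro h y
  rw [gi_it2 (hd2 y)]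
  have : (fun q => fderiv ℝ (fun y => ∫ x in S, K x * F (Ψ x + (0, y))) q h) = fun q =>
      ∫ x in S, K x * giD (0, h) F (Ψ x + (0, q)) := by
    funext q
    exact giI_fderiv hS hK hΨ hF q h
  rw [this, giI_fderiv hS hK hΨ (giD_smooth _ hF)]

end Par2

lemma GiGood.lap_eq {g : Sp d → ℝ} {D : Sp d → Sp d → ℝ} (h : GiGood g D) (y : Sp d) :
    lap g y = ∑ j : Fin d, D (EuclideanSpace.single j (1 : ℝ)) y := by
  unfold lap
  exact Finset.sum_congr rfl fun j _ => h.2.2 _ y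

lemma GiGood.d2_eq {g : Sp d → ℝ} {D : Sp d → Sp d → ℝ} (h : GiGood g D) (n y : Sp d) :
    d2 n g y = D n y := h.2.2 n y

/-! ### the tent -/

lemma tau_left {r : ℝ} (h1 : 1 / 2 ≤ r) (h2 : r ≤ 1) : tau 1 r = 2 / 3 * (r - 1 / 2) := by
  unfold tau
  rw [min_eq_left (by linarith), max_eq_right (by linarith)]

lemma tau_right {r : ℝ} (h1 : 1 ≤ r) (h2 : r ≤ 2) : tau 1 r = 1 / 3 * (2 - r) := by
  unfold tau
  rw [min_eq_right (by linarith), max_eq_right (by linarith)]
  ring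

lemma tau_cont : Continuous (tau 1) := by
  unfold tau
  fun_prop

lemma tent_ibp {φ φ1 φ2 : ℝ → ℝ} (h1 : ∀ r, HasDerivAt φ (φ1 r) r)
    (h2 : ∀ r, HasDerivAt φ1 (φ2 r) r) (h3 : Continuous φ2) :
    φ 1 - 2 / 3 * φ (1 / 2) - 1 / 3 * φ 2 = -∫ r in (1 / 2 : ℝ)..2, tau 1 r * φ2 r := by
  have hi : ∀ a b : ℝ, IntervalIntegrable (fun r => tau 1 r * φ2 r) volume a b := fun a b =>
    (tau_cont.mul h3).intervalIntegrable a b
  have hφ1 : Continuous φ1 := continuous_iff_continuousAt.2 fun r => (h2 r).continuousAt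
  rw [← intervalIntegral.integral_add_adjacent_intervals (hi (1 / 2) 1) (hi 1 2)]
  have e1 : ∫ r in (1 / 2 : ℝ)..1, tau 1 r * φ2 r = ∫ r in (1 / 2 : ℝ)..1,
      2 / 3 * (r - 1 / 2) * φ2 r := by
    apply intervalIntegral.integral_congr
    intro r hr
    rw [uIcc_of_le (by norm_num)] at hr
    show tau 1 r * φ2 r = _
    rw [tau_left hr.1 hr.2]
  have e2 : ∫ r in (1 : ℝ)..2, tau 1 r * φ2 r = ∫ r in (1 : ℝ)..2,
      1 / 3 * (2 - r) * φ2 r := by
    apply intervalIntegral.integral_congr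
    intro r hr
    rw [uIcc_of_le (by norm_num)] at hr
    show tau 1 r * φ2 r = _
    rw [tau_right hr.1 hr.2]
  rw [e1, e2]
  have f1 : ∫ r in (1 / 2 : ℝ)..1, 2 / 3 * (r - 1 / 2) * φ2 r =
      (2 / 3 * (1 - 1 / 2) * φ1 1 - 2 / 3 * φ 1) -
      (2 / 3 * (1 / 2 - 1 / 2) * φ1 (1 / 2) - 2 / 3 * φ (1 / 2)) := by
    apply intervalIntegral.integral_eq_sub_of_hasDerivAt
      (f := fun r => 2 / 3 * (r - 1 / 2) * φ1 r - 2 / 3 * φ r)
    · intro r _
      have := ((((hasDerivAt_id r).sub_const (1 / 2)).const_mul (2 / 3 : ℝ)).mul (h2 r)).sub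
        ((h1 r).const_mul (2 / 3))
      refine this.congr_deriv ?_
      simp
    · exact (by fun_prop : Continuous fun r => 2 / 3 * (r - 1 / 2) * φ2 r).intervalIntegrable _ _
  have f2 : ∫ r in (1 : ℝ)..2, 1 / 3 * (2 - r) * φ2 r =
      (1 / 3 * (2 - 2) * φ1 2 + 1 / 3 * φ 2) -
      (1 / 3 * (2 - 1) * φ1 1 + 1 / 3 * φ 1) := by
    apply intervalIntegral.integral_eq_sub_of_hasDerivAt
      (f := fun r => 1 / 3 * (2 - r) * φ1 r + 1 / 3 * φ r)
    · intro r _
      have := ((((hasDerivAt_id r).const_sub 2).const_mul (1 / 3 : ℝ)).mul (h2 r)).add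
        ((h1 r).const_mul (1 / 3))
      refine this.congr_deriv ?_
      simp
    · exact (by fun_prop : Continuous fun r => 1 / 3 * (2 - r) * φ2 r).intervalIntegrable _ _
  rw [f1, f2]
  ring

end

end TG
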