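import Pool.Agent.TG.GI1

/-!
# Trace inequality, general operators: module GI, part 2 (integration by parts)
-/

open MeasureTheory Metric Set TrI
open scoped InnerProductSpace ContDiff

namespace TG

noncomputable section

variable {d : ℕ}

/-- continuous kernels supported in the unit ball -/
def GiK (κ : Sp d → ℝ) : Prop := Continuous κ ∧ ∀ x, 1 ≤ ‖x‖ → κ x = 0

lemma GiK.cs {κ : Sp d → ℝ} (h : GiK κ) : HasCompactSupport κ := by
  apply HasCompactSupport.intro (isCompact_closedBall (0 : Sp d) 1)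
  intro x hx
  apply h.2
  simp at hx
  exact hx.le

lemma GiK.int {κ : Sp d → ℝ} (h : GiK κ) {g : Sp d → ℝ} (hg : Continuous g) :
    Integrable (fun z => κ z * g z) :=
  (h.1.mul hg).integrable_of_hasCompactSupport h.cs.mul_right

/-- averages -/
def giA (ε : ℝ) (κ : Sp d → ℝ) (F : ℝ × Sp d → ℝ) (r : ℝ) (y : Sp d) : ℝ :=
  ∫ z, κ z * F (r, y + (ε * r) • z)

lemma gi_ibp {κ κ' : Sp d → ℝ} (hκ : GiK κ) (hκ' : GiK κ')
    (hg : ∀ x, HasGradientAt κ' (-(κ x) • x) x) {G : Sp d → ℝ} (hG : ContDiff ℝ ∞ G) (h : Sp d) :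
    ∫ z, κ z * (⟪z, h⟫_ℝ * G z) = ∫ z, κ' z * fderiv ℝ G z h := by
  have hf : ∀ z, fderiv ℝ κ' z h = -(κ z * ⟪z, h⟫_ℝ) := by
    intro z
    rw [(hg z).hasFDerivAt.fderiv]
    simp
  have hdG : Continuous fun z => fderiv ℝ G z h :=
    ((hG.continuous_fderiv (by simp)).clm_apply continuous_const)
  have := integral_mul_fderiv_eq_neg_fderiv_mul_of_integrable (μ := (volume : Measure (Sp d)))
    (f := κ') (g := G) (v := h) ?_ ?_ ?_ ?_ (fun x _ => (hG.differentiable (by simp)) x)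
  · rw [this, ← integral_neg]
    congr 1
    funext z
    rw [hf z]
    ring
  · have e : (fun z => fderiv ℝ κ' z h * G z) = fun z => κ z * (-(⟪z, h⟫_ℝ) * G z) := by
      funext z
      rw [hf z]; ring
    rw [e]
    exact hκ.int (by have := hG.continuous; fun_prop)
  · exact hκ'.int hdG
  · exact hκ'.int hG.continuous
  · exact fun z _ => (hg z).hasFDerivAt.differentiableAt

lemma gi_ray_fderiv {F : ℝ × Sp d → ℝ} (hF : ContDiff ℝ ∞ F) (r s : ℝ) (y z h : Sp d) :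
    fderiv ℝ (fun z => F (r, y + s • z)) z h = s * giD (0, h) F (r, y + s • z) := by
  have h1 : HasFDerivAt (fun z : Sp d => (r, y + s • z))
      ((ContinuousLinearMap.inr ℝ ℝ (Sp d)).comp (s • ContinuousLinearMap.id ℝ (Sp d))) z := by
    have a := ((hasFDerivAt_id (𝕜 := ℝ) z).const_smul s).const_add y
    exact (hasFDerivAt_prodMk_right r (y + s • z)).comp z a
  have h2 : HasFDerivAt F (fderiv ℝ F (r, y + s • z)) (r, y + s • z) :=
    ((hF.differentiable (by simp)) _).hasFDerivAt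
  have := (h2.comp z h1).fderiv
  rw [show (fun z => F (r, y + s • z)) = F ∘ (fun z : Sp d => (r, y + s • z)) from rfl, this]
  simp only [giD, ContinuousLinearMap.comp_apply, smul_apply,
    ContinuousLinearMap.id_apply, ContinuousLinearMap.inr_apply]
  rw [show ((0 : ℝ), s • h) = s • ((0 : ℝ), h) by simp, map_smul, smul_eq_mul]

lemma gi_ray_smooth {F : ℝ × Sp d → ℝ} (hF : ContDiff ℝ ∞ F) (r s : ℝ) (y : Sp d) :
    ContDiff ℝ ∞ (fun z => F (r, y + s • z)) :=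
  hF.comp (contDiff_const.prodMk (contDiff_const.add (contDiff_id.const_smul s)))

lemma gi_i1 {κ κ' : Sp d → ℝ} (hκ : GiK κ) (hκ' : GiK κ')
    (hg : ∀ x, HasGradientAt κ' (-(κ x) • x) x) {F : ℝ × Sp d → ℝ} (hF : ContDiff ℝ ∞ F)
    (ε r : ℝ) (y h : Sp d) :
    ∫ z, κ z * (⟪z, h⟫_ℝ * F (r, y + (ε * r) • z)) =
      ε * r * giA ε κ' (giD (0, h) F) r y := by
  rw [gi_ibp hκ hκ' hg (gi_ray_smooth hF r (ε * r) y) h]
  unfold giA
  rw [← integral_const_mul]
  congr 1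
  funext z
  rw [gi_ray_fderiv hF]
  ring

lemma gi_i3 {κ κ' κ'' : Sp d → ℝ} (hκ : GiK κ) (hκ' : GiK κ') (hκ'' : GiK κ'')
    (hg : ∀ x, HasGradientAt κ' (-(κ x) • x) x) (hg' : ∀ x, HasGradientAt κ'' (-(κ' x) • x) x)
    {F : ℝ × Sp d → ℝ} (hF : ContDiff ℝ ∞ F)
    (ε r : ℝ) (y h k : Sp d) :
    ∫ z, κ z * (⟪z, h⟫_ℝ * (⟪z, k⟫_ℝ * F (r, y + (ε * r) • z))) =
      ⟪h, k⟫_ℝ * giA ε κ' F r y +
        (ε * r) ^ 2 * giA ε κ'' (giD (0, k) (giD (0, h) F)) r y := by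
  have hs : ContDiff ℝ ∞ (fun z : Sp d => ⟪z, k⟫_ℝ * F (r, y + (ε * r) • z)) :=
    (contDiff_id.inner ℝ contDiff_const).mul (gi_ray_smooth hF r (ε * r) y)
  rw [gi_ibp hκ hκ' hg hs h]
  have hd : ∀ z : Sp d, fderiv ℝ (fun z : Sp d => ⟪z, k⟫_ℝ * F (r, y + (ε * r) • z)) z h =
      ⟪h, k⟫_ℝ * F (r, y + (ε * r) • z) +
        ε * r * (⟪z, k⟫_ℝ * giD (0, h) F (r, y + (ε * r) • z)) := by
    intro z
    have a0 : (fun z : Sp d => ⟪z, k⟫_ℝ) = fun z => (innerSL ℝ k) z := by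
      funext z; rw [innerSL_apply_apply, real_inner_comm]
    have a1' : HasFDerivAt (fun z : Sp d => ⟪z, k⟫_ℝ) (innerSL ℝ k) z := by
      rw [a0]; exact (innerSL ℝ k).hasFDerivAt
    have a1 : DifferentiableAt ℝ (fun z : Sp d => ⟪z, k⟫_ℝ) z := a1'.differentiableAt
    have a2 : DifferentiableAt ℝ (fun z => F (r, y + (ε * r) • z)) z :=
      ((gi_ray_smooth hF r (ε * r) y).differentiable (by simp)) z
    rw [fderiv_fun_mul a1 a2]
    have a3 : fderiv ℝ (fun z : Sp d => ⟪z, k⟫_ℝ) z h = ⟪h, k⟫_ℝ := by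
      rw [a1'.fderiv, innerSL_apply_apply, real_inner_comm]
    simp only [add_apply, smul_apply, smul_eq_mul, a3,
      gi_ray_fderiv hF]
    ring
  have e : ∀ z : Sp d, κ' z * fderiv ℝ (fun z : Sp d => ⟪z, k⟫_ℝ * F (r, y + (ε * r) • z)) z h =
      ⟪h, k⟫_ℝ * (κ' z * F (r, y + (ε * r) • z)) +
        ε * r * (κ' z * (⟪z, k⟫_ℝ * giD (0, h) F (r, y + (ε * r) • z))) := by
    intro z
    rw [hd z]; ring
  have c1 : Continuous (fun z : Sp d => F (r, y + (ε * r) • z)) :=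
    (gi_ray_smooth hF r (ε * r) y).continuous
  have c2 : Continuous (fun z : Sp d => ⟪z, k⟫_ℝ * giD (0, h) F (r, y + (ε * r) • z)) := by
    have := (gi_ray_smooth (giD_smooth (0, h) hF) r (ε * r) y).continuous
    fun_prop
  rw [integral_congr_ae (Filter.Eventually.of_forall e), integral_add
    ((hκ'.int c1).const_mul _) ((hκ'.int c2).const_mul _), integral_const_mul, integral_const_mul,
    gi_i1 hκ' hκ'' hg' (giD_smooth (0, h) hF)]
  unfold giA
  ring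

end

end TG
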