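import Pool.Agent.TG.GI2

/-!
# Trace inequality, general operators: module GI, part 3 (the pointwise identity)
-/

open MeasureTheory Metric Set TrI
open scoped InnerProductSpace ContDiff

namespace TG

noncomputable section

variable {d : ℕ}

/-- basis vector -/
abbrev giE (j : Fin d) : Sp d := EuclideanSpace.single j (1 : ℝ)

lemma giD_two {f : ℝ × Sp d → ℝ} (hf : ContDiff ℝ ∞ f) (a b p : ℝ × Sp d) :
    giD a (giD b f) p = fderiv ℝ (fderiv ℝ f) p a b := by
  have h1 : DifferentiableAt ℝ (fderiv ℝ f) p :=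
    ((hf.fderiv_right (m := ∞) (by simp)).differentiable (by simp)).differentiableAt
  show fderiv ℝ (fun q => fderiv ℝ f q b) p a = _
  rw [fderiv_clm_apply h1 (differentiableAt_const b)]
  simp

lemma giD_sum {ι : Type*} (s : Finset ι) (a : ℝ × Sp d) {F : ι → ℝ × Sp d → ℝ}
    (hF : ∀ i ∈ s, ContDiff ℝ ∞ (F i)) :
    giD a (fun p => ∑ i ∈ s, F i p) = fun p => ∑ i ∈ s, giD a (F i) p := by
  funext p
  unfold giD
  rw [fderiv_fun_sum fun i hi => ((hF i hi).differentiable (by simp)) p]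
  simp

lemma giA_sum {ι : Type*} (s : Finset ι) {ε : ℝ} {κ : Sp d → ℝ} (hκ : GiK κ)
    {F : ι → ℝ × Sp d → ℝ} (hF : ∀ i ∈ s, ContDiff ℝ ∞ (F i)) (r : ℝ) (y : Sp d) :
    giA ε κ (fun p => ∑ i ∈ s, F i p) r y = ∑ i ∈ s, giA ε κ (F i) r y := by
  unfold giA
  rw [← integral_finsetSum]
  · congr 1
    funext z
    rw [Finset.mul_sum]
  · intro i hi
    exact hκ.int (gi_ray_smooth (hF i hi) r (ε * r) y).continuous

lemma gi_dec (ε : ℝ) (z : Sp d) :
    ((1 : ℝ), ε • z) = ((1 : ℝ), (0 : Sp d)) + ∑ j : Fin d, (ε * ⟪z, giE j⟫_ℝ) • ((0 : ℝ), giE j) := by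
  have h : z = ∑ j : Fin d, ⟪z, giE j⟫_ℝ • giE j := by
    have := (EuclideanSpace.basisFun (Fin d) ℝ).sum_repr' z
    conv_lhs => rw [← this]
    apply Finset.sum_congr rfl
    intro j _
    simp [giE, real_inner_comm]
  have e : ∑ j : Fin d, (ε * ⟪z, giE j⟫_ℝ) • ((0 : ℝ), giE j) = ((0 : ℝ), ε • z) := by
    apply Prod.ext
    · simp [Prod.fst_sum]
    · rw [Prod.snd_sum]
      conv_rhs => rw [h]
      rw [Finset.smul_sum]
      apply Finset.sum_congr rfl
      intro j _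
      simp [mul_smul]
  rw [e]
  simp

lemma gi_exp1 {f : ℝ × Sp d → ℝ} (hf : ContDiff ℝ ∞ f) (ε : ℝ) (z : Sp d) (p : ℝ × Sp d) :
    iteratedFDeriv ℝ 2 f p (fun _ => ((1 : ℝ), ε • z)) =
      giT (giT f) p + ∑ j : Fin d, 2 * ε * (⟪z, giE j⟫_ℝ * giD (0, giE j) (giT f) p) +
      ∑ i : Fin d, ∑ j : Fin d, ε ^ 2 * (⟪z, giE i⟫_ℝ * (⟪z, giE j⟫_ℝ *
        giD (0, giE i) (giD (0, giE j) f) p)) := by
  have h1 : ∀ j : Fin d, giD (0, giE j) (giT f) p = fderiv ℝ (fderiv ℝ f) p (0, giE j) (1, 0) :=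
    fun j => giD_two hf _ _ _
  have h2 : ∀ j : Fin d, fderiv ℝ (fderiv ℝ f) p (1, 0) (0, giE j) =
      fderiv ℝ (fderiv ℝ f) p (0, giE j) (1, 0) := by
    intro j
    rw [← giD_two hf, ← giD_two hf, giD_comm _ _ hf]
  have h3 : ∀ i j : Fin d, giD (0, giE i) (giD (0, giE j) f) p =
      fderiv ℝ (fderiv ℝ f) p (0, giE i) (0, giE j) := fun i j => giD_two hf _ _ _
  have h4 : giT (giT f) p = fderiv ℝ (fderiv ℝ f) p (1, 0) (1, 0) := giD_two hf _ _ _
  rw [giD_it2 _ hf, giD_two hf, gi_dec, h4]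
  simp only [h1, h3, map_add, map_sum, map_smul, add_apply, sum_apply, smul_apply, smul_eq_mul,
    h2, mul_add, Finset.sum_add_distrib, Finset.mul_sum]
  have e1 : ∑ j : Fin d, ε * ⟪z, giE j⟫_ℝ * (fderiv ℝ (fderiv ℝ f) p (0, giE j)) (1, 0) +
      ∑ j : Fin d, ε * ⟪z, giE j⟫_ℝ * (fderiv ℝ (fderiv ℝ f) p (0, giE j)) (1, 0) =
      ∑ j : Fin d, 2 * ε * (⟪z, giE j⟫_ℝ * (fderiv ℝ (fderiv ℝ f) p (0, giE j)) (1, 0)) := by
    rw [← Finset.sum_add_distrib]
    exact Finset.sum_congr rfl fun j _ => by ring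
  have e2 : ∑ i : Fin d, ∑ j : Fin d, ε * ⟪z, giE i⟫_ℝ * (ε * ⟪z, giE j⟫_ℝ *
      (fderiv ℝ (fderiv ℝ f) p (0, giE j)) (0, giE i)) =
      ∑ i : Fin d, ∑ j : Fin d, ε ^ 2 * (⟪z, giE i⟫_ℝ * (⟪z, giE j⟫_ℝ *
        (fderiv ℝ (fderiv ℝ f) p (0, giE i)) (0, giE j))) := by
    rw [Finset.sum_comm]
    exact Finset.sum_congr rfl fun i _ => Finset.sum_congr rfl fun j _ => by ring
  rw [← e1]
  rw [← e2]
  ring

lemma gi_exp2 {f : ℝ × Sp d → ℝ} (hf : ContDiff ℝ ∞ f) (c : ℝ) (n : Sp d) (p : ℝ × Sp d) :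
    iteratedFDeriv ℝ 2 f p (fun _ => ((1 : ℝ), c • n)) =
      giT (giT f) p + 2 * c * giD (0, n) (giT f) p + c ^ 2 * giN n f p := by
  have h1 : giD (0, n) (giT f) p = fderiv ℝ (fderiv ℝ f) p (0, n) (1, 0) := giD_two hf _ _ _
  have h2 : fderiv ℝ (fderiv ℝ f) p (1, 0) (0, n) =
      fderiv ℝ (fderiv ℝ f) p (0, n) (1, 0) := by
    rw [← giD_two hf, ← giD_two hf, giD_comm _ _ hf]
  have h3 : giN n f p = fderiv ℝ (fderiv ℝ f) p (0, n) (0, n) := giD_two hf _ _ _
  have h4 : giT (giT f) p = fderiv ℝ (fderiv ℝ f) p (1, 0) (1, 0) := giD_two hf _ _ _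
  rw [giD_it2 _ hf, giD_two hf, show ((1 : ℝ), c • n) = ((1 : ℝ), (0 : Sp d)) + c • ((0 : ℝ), n) by
    simp, h4, h1, h3]
  simp only [map_add, map_smul, add_apply, smul_apply, smul_eq_mul, h2]
  ring

lemma gi_W {β B B2 : Sp d → ℝ} (hβ : GiK β) (hB : GiK B) (hB2 : GiK B2)
    (hg : ∀ x, HasGradientAt B (-(β x) • x) x) (hg' : ∀ x, HasGradientAt B2 (-(B x) • x) x)
    {f : ℝ × Sp d → ℝ} (hf : ContDiff ℝ ∞ f) (ε r : ℝ) (y : Sp d) :
    ∫ z, β z * iteratedFDeriv ℝ 2 f (r, y + (ε * r) • z) (fun _ => ((1 : ℝ), ε • z)) =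
      giA ε β (giT (giT f)) r y + 2 * ε ^ 2 * r * giA ε B (giL (giT f)) r y +
      ε ^ 2 * giA ε B (giL f) r y + ε ^ 4 * r ^ 2 * giA ε B2 (giL (giL f)) r y := by
  have hT := giT_smooth hf
  have hTT := giT_smooth hT
  have c0 : Continuous fun z : Sp d => giT (giT f) (r, y + (ε * r) • z) :=
    (gi_ray_smooth hTT r (ε * r) y).continuous
  have c1 : ∀ j : Fin d, Continuous fun z : Sp d =>
      ⟪z, giE j⟫_ℝ * giD (0, giE j) (giT f) (r, y + (ε * r) • z) := by
    intro j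
    have := (gi_ray_smooth (giD_smooth (0, giE j) hT) r (ε * r) y).continuous
    fun_prop
  have c2 : ∀ i j : Fin d, Continuous fun z : Sp d => (⟪z, giE i⟫_ℝ * (⟪z, giE j⟫_ℝ *
        giD (0, giE i) (giD (0, giE j) f) (r, y + (ε * r) • z))) := by
    intro i j
    have := (gi_ray_smooth (giD_smooth (0, giE i) (giD_smooth (0, giE j) hf)) r (ε * r) y).continuous
    fun_prop
  have e : ∀ z : Sp d, β z * iteratedFDeriv ℝ 2 f (r, y + (ε * r) • z) (fun _ => ((1 : ℝ), ε • z)) =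
      β z * giT (giT f) (r, y + (ε * r) • z) +
      ∑ j : Fin d, 2 * ε * (β z * (⟪z, giE j⟫_ℝ * giD (0, giE j) (giT f) (r, y + (ε * r) • z))) +
      ∑ i : Fin d, ∑ j : Fin d, ε ^ 2 * (β z * (⟪z, giE i⟫_ℝ * (⟪z, giE j⟫_ℝ *
        giD (0, giE i) (giD (0, giE j) f) (r, y + (ε * r) • z)))) := by
    intro z
    rw [gi_exp1 hf, mul_add, mul_add, Finset.mul_sum, Finset.mul_sum]
    congr 1
    · congr 1
      exact Finset.sum_congr rfl fun j _ => by ring
    · refine Finset.sum_congr rfl fun i _ => ?_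
      rw [Finset.mul_sum]
      exact Finset.sum_congr rfl fun j _ => by ring
  have i0 := hβ.int c0
  have i1 : ∀ j ∈ (Finset.univ : Finset (Fin d)), Integrable (fun z => 2 * ε * (β z *
      (⟪z, giE j⟫_ℝ * giD (0, giE j) (giT f) (r, y + (ε * r) • z)))) :=
    fun j _ => (hβ.int (c1 j)).const_mul _
  have i2 : ∀ i ∈ (Finset.univ : Finset (Fin d)), ∀ j ∈ (Finset.univ : Finset (Fin d)),
      Integrable (fun z => ε ^ 2 * (β z * (⟪z, giE i⟫_ℝ * (⟪z, giE j⟫_ℝ *
        giD (0, giE i) (giD (0, giE j) f) (r, y + (ε * r) • z))))) :=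
    fun i _ j _ => (hβ.int (c2 i j)).const_mul _
  have i1' : Integrable (fun z => ∑ j : Fin d, 2 * ε * (β z *
      (⟪z, giE j⟫_ℝ * giD (0, giE j) (giT f) (r, y + (ε * r) • z)))) :=
    integrable_finsetSum _ i1
  have i2' : Integrable (fun z => ∑ i : Fin d, ∑ j : Fin d, ε ^ 2 * (β z * (⟪z, giE i⟫_ℝ *
      (⟪z, giE j⟫_ℝ * giD (0, giE i) (giD (0, giE j) f) (r, y + (ε * r) • z))))) :=
    integrable_finsetSum _ fun i hi => integrable_finsetSum _ (i2 i hi)
  have i01 : Integrable (fun z => β z * giT (giT f) (r, y + (ε * r) • z) +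
      ∑ j : Fin d, 2 * ε * (β z *
      (⟪z, giE j⟫_ℝ * giD (0, giE j) (giT f) (r, y + (ε * r) • z)))) := i0.add i1'
  rw [integral_congr_ae (Filter.Eventually.of_forall e), integral_add i01 i2',
    integral_add i0 i1', integral_finsetSum _ i1,
    integral_finsetSum _ fun i hi => integrable_finsetSum _ (i2 i hi)]
  have s1 : ∑ j : Fin d, ∫ z, 2 * ε * (β z *
      (⟪z, giE j⟫_ℝ * giD (0, giE j) (giT f) (r, y + (ε * r) • z))) =
      2 * ε ^ 2 * r * giA ε B (giL (giT f)) r y := by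
    have : giA ε B (giL (giT f)) r y =
        ∑ j : Fin d, giA ε B (giD (0, giE j) (giD (0, giE j) (giT f))) r y := by
      unfold giL
      exact giA_sum _ hB (fun j _ => giD_smooth _ (giD_smooth _ hT)) r y
    rw [this, Finset.mul_sum]
    refine Finset.sum_congr rfl fun j _ => ?_
    rw [integral_const_mul, gi_i1 hβ hB hg (giD_smooth _ hT)]
    ring
  have s2 : ∑ i : Fin d, ∫ z, ∑ j : Fin d, ε ^ 2 * (β z * (⟪z, giE i⟫_ℝ * (⟪z, giE j⟫_ℝ *
        giD (0, giE i) (giD (0, giE j) f) (r, y + (ε * r) • z)))) =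
      ε ^ 2 * giA ε B (giL f) r y + ε ^ 4 * r ^ 2 * giA ε B2 (giL (giL f)) r y := by
    have t1 : giA ε B (giL f) r y =
        ∑ i : Fin d, giA ε B (giD (0, giE i) (giD (0, giE i) f)) r y := by
      unfold giL
      exact giA_sum _ hB (fun j _ => giD_smooth _ (giD_smooth _ hf)) r y
    have t2 : giL (giL f) = fun p => ∑ i : Fin d, ∑ j : Fin d,
        giD (0, giE j) (giD (0, giE i) (giD (0, giE i) (giD (0, giE j) f))) p := by
      funext p
      show ∑ j : Fin d, giD (0, giE j) (giD (0, giE j) (giL f)) p = _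
      rw [Finset.sum_comm]
      refine Finset.sum_congr rfl fun j _ => ?_
      have u : giL f = fun p => ∑ i : Fin d, giD (0, giE i) (giD (0, giE i) f) p := rfl
      rw [u, giD_sum _ _ (fun i _ => giD_smooth _ (giD_smooth _ hf)),
        giD_sum _ _ (fun i _ => giD_smooth _ (giD_smooth _ (giD_smooth _ hf)))]
      refine Finset.sum_congr rfl fun i _ => ?_
      rw [giD_comm (0, giE i) (0, giE j) hf,
        giD_comm (0, giE i) (0, giE j) (giD_smooth (0, giE i) hf)]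
    have t3 : giA ε B2 (giL (giL f)) r y = ∑ i : Fin d, ∑ j : Fin d,
        giA ε B2 (giD (0, giE j) (giD (0, giE i) (giD (0, giE i) (giD (0, giE j) f)))) r y := by
      rw [t2, giA_sum _ hB2 (F := fun i p => ∑ j : Fin d,
        giD (0, giE j) (giD (0, giE i) (giD (0, giE i) (giD (0, giE j) f))) p)]
      · refine Finset.sum_congr rfl fun i _ => ?_
        exact giA_sum _ hB2 (fun j _ =>
          giD_smooth _ (giD_smooth _ (giD_smooth _ (giD_smooth _ hf)))) r y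
      · intro i _
        exact ContDiff.sum fun j _ => giD_smooth _ (giD_smooth _ (giD_smooth _ (giD_smooth _ hf)))
    rw [t1, t3, Finset.mul_sum, Finset.mul_sum, ← Finset.sum_add_distrib]
    refine Finset.sum_congr rfl fun i hi => ?_
    rw [integral_finsetSum _ (i2 i hi)]
    have v : ∀ j : Fin d, ∫ z, ε ^ 2 * (β z * (⟪z, giE i⟫_ℝ * (⟪z, giE j⟫_ℝ *
        giD (0, giE i) (giD (0, giE j) f) (r, y + (ε * r) • z)))) =
        (if i = j then ε ^ 2 * giA ε B (giD (0, giE i) (giD (0, giE i) f)) r y else 0) +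
        ε ^ 4 * r ^ 2 *
          giA ε B2 (giD (0, giE j) (giD (0, giE i) (giD (0, giE i) (giD (0, giE j) f)))) r y := by
      intro j
      rw [integral_const_mul, gi_i3 hβ hB hB2 hg hg' (giD_smooth _ (giD_smooth _ hf))]
      by_cases hij : i = j
      · subst hij
        simp only [giE, if_true]
        rw [show ⟪(EuclideanSpace.single i (1 : ℝ) : Sp d), EuclideanSpace.single i (1 : ℝ)⟫_ℝ = 1 by
          simp]
        ring
      · rw [if_neg hij, show ⟪(giE i : Sp d), giE j⟫_ℝ = 0 by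
          simp [giE, EuclideanSpace.inner_single_left, hij]]
        ring
    rw [Finset.sum_congr rfl fun j _ => v j, Finset.sum_add_distrib]
    simp [Finset.mul_sum]
  rw [s1, s2]
  unfold giA
  ring

lemma gi_G {β B B2 : Sp d → ℝ} (hβ : GiK β) (hB : GiK B) (hB2 : GiK B2)
    (hg : ∀ x, HasGradientAt B (-(β x) • x) x) (hg' : ∀ x, HasGradientAt B2 (-(B x) • x) x)
    {f : ℝ × Sp d → ℝ} (hf : ContDiff ℝ ∞ f) {n : Sp d} (hn : ‖n‖ = 1) (ε r : ℝ) (y : Sp d) :
    ∫ z, β z * (iteratedFDeriv ℝ 2 f (r, y + (ε * r) • z)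
        (fun _ => ((1 : ℝ), (ε * ⟪z, n⟫_ℝ) • n)) +
        (1 + (ε * ⟪z, n⟫_ℝ) ^ 2) * (giL f (r, y + (ε * r) • z) - giN n f (r, y + (ε * r) • z))) =
      giA ε β (giT (giT f)) r y + (giA ε β (giL f) r y - giA ε β (giN n f) r y) +
      2 * ε ^ 2 * r * giA ε B (giN n (giT f)) r y +
      ε ^ 2 * giA ε B (giL f) r y + ε ^ 4 * r ^ 2 * giA ε B2 (giN n (giL f)) r y := by
  have hT := giT_smooth hf
  have hTT := giT_smooth hT
  have hL := giL_smooth hf
  have hN := giN_smooth n hf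
  have c0 : Continuous fun z : Sp d => giT (giT f) (r, y + (ε * r) • z) :=
    (gi_ray_smooth hTT r (ε * r) y).continuous
  have c1 : Continuous fun z : Sp d => giL f (r, y + (ε * r) • z) :=
    (gi_ray_smooth hL r (ε * r) y).continuous
  have c2 : Continuous fun z : Sp d => giN n f (r, y + (ε * r) • z) :=
    (gi_ray_smooth hN r (ε * r) y).continuous
  have c3 : Continuous fun z : Sp d =>
      ⟪z, n⟫_ℝ * giD (0, n) (giT f) (r, y + (ε * r) • z) := by
    have := (gi_ray_smooth (giD_smooth (0, n) hT) r (ε * r) y).continuous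
    fun_prop
  have c4 : Continuous fun z : Sp d => (⟪z, n⟫_ℝ * (⟪z, n⟫_ℝ *
        giL f (r, y + (ε * r) • z))) := by
    fun_prop
  have e : ∀ z : Sp d, β z * (iteratedFDeriv ℝ 2 f (r, y + (ε * r) • z)
        (fun _ => ((1 : ℝ), (ε * ⟪z, n⟫_ℝ) • n)) +
        (1 + (ε * ⟪z, n⟫_ℝ) ^ 2) * (giL f (r, y + (ε * r) • z) - giN n f (r, y + (ε * r) • z))) =
      β z * giT (giT f) (r, y + (ε * r) • z) + (β z * giL f (r, y + (ε * r) • z) -
        β z * giN n f (r, y + (ε * r) • z)) +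
      2 * ε * (β z * (⟪z, n⟫_ℝ * giD (0, n) (giT f) (r, y + (ε * r) • z))) +
      ε ^ 2 * (β z * (⟪z, n⟫_ℝ * (⟪z, n⟫_ℝ * giL f (r, y + (ε * r) • z)))) := by
    intro z
    rw [gi_exp2 hf]
    ring
  have i0 := hβ.int c0
  have i1 := hβ.int c1
  have i2 := hβ.int c2
  have i3 := (hβ.int c3).const_mul (2 * ε)
  have i4 := (hβ.int c4).const_mul (ε ^ 2)
  have j1 : Integrable (fun z => β z * giL f (r, y + (ε * r) • z) -
      β z * giN n f (r, y + (ε * r) • z)) := i1.sub i2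
  have j2 : Integrable (fun z => β z * giT (giT f) (r, y + (ε * r) • z) +
      (β z * giL f (r, y + (ε * r) • z) - β z * giN n f (r, y + (ε * r) • z))) := i0.add j1
  have j3 : Integrable (fun z => β z * giT (giT f) (r, y + (ε * r) • z) +
      (β z * giL f (r, y + (ε * r) • z) - β z * giN n f (r, y + (ε * r) • z)) +
      2 * ε * (β z * (⟪z, n⟫_ℝ * giD (0, n) (giT f) (r, y + (ε * r) • z)))) := j2.add i3
  rw [integral_congr_ae (Filter.Eventually.of_forall e),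
    integral_add j3 i4, integral_add j2 i3,
    integral_add i0 j1, integral_sub i1 i2, integral_const_mul, integral_const_mul,
    gi_i1 hβ hB hg (giD_smooth _ hT), gi_i3 hβ hB hB2 hg hg' hL,
    real_inner_self_eq_norm_sq, hn]
  unfold giN giA
  ring

end

end TG
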