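import Pool.Agent.TG.Stmts1

/-!
# Module GP: the inequality (G) at a fixed time
-/

open MeasureTheory Metric Set TrI Filter Topology
open scoped InnerProductSpace ContDiff

namespace TG
namespace GPx

noncomputable section

/-! ### kernels along lines -/

/-- negative powers of the square root -/
def ip (m : ℕ) (q : ℝ) : ℝ := (Real.sqrt q ^ m)⁻¹

lemma ip_nonneg (m : ℕ) (q : ℝ) : 0 ≤ ip m q := by
  unfold ip; positivity

lemma ip_succ {q : ℝ} (m : ℕ) (hq : 0 < q) : Real.sqrt q * ip (m + 1) q = ip m q := by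
  unfold ip
  have h : 0 < Real.sqrt q := Real.sqrt_pos.2 hq
  field_simp
  ring

lemma ip_add_two {q : ℝ} (m : ℕ) (hq : 0 < q) : q * ip (m + 2) q = ip m q := by
  have h1 := ip_succ (m + 1) hq
  have h2 := ip_succ m hq
  have h3 : Real.sqrt q * Real.sqrt q = q := Real.mul_self_sqrt hq.le
  calc q * ip (m + 2) q = Real.sqrt q * (Real.sqrt q * ip (m + 1 + 1) q) := by
        rw [← mul_assoc, h3]
    _ = ip m q := by rw [h1, h2]

lemma ip_le {q r : ℝ} (m : ℕ) (hr : 0 < r) (hq : r ≤ Real.sqrt q) : ip m q ≤ (r ^ m)⁻¹ := by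
  unfold ip
  gcongr

lemma hasDerivAt_ip {Q : ℝ → ℝ} {Q' s : ℝ} (m : ℕ) (hQ : HasDerivAt Q Q' s) (hp : 0 < Q s) :
    HasDerivAt (fun s => ip m (Q s)) (-(m / 2) * Q' * ip (m + 2) (Q s)) s := by
  have hr : 0 < Real.sqrt (Q s) := Real.sqrt_pos.2 hp
  have h := ((hQ.sqrt hp.ne').fun_pow m).fun_inv (pow_ne_zero m hr.ne')
  refine h.congr_deriv ?_
  unfold ip
  rcases m with _ | k
  · simp
  · push_cast
    field_simp
    try ring

/-- Time -/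
def lT (t w1 s : ℝ) : ℝ := t + s * w1

variable {d : ℕ}

/-- squared distance -/
def lQ (t w1 : ℝ) (X w2 : Sp d) (s : ℝ) : ℝ := lT t w1 s ^ 2 + ‖X + s • w2‖ ^ 2

/-- half of the derivative of the squared distance -/
def lP (t w1 : ℝ) (X w2 : Sp d) (s : ℝ) : ℝ := w1 * lT t w1 s + ⟪X + s • w2, w2⟫_ℝ

/-- kernel along a line -/
def K0 (t w1 : ℝ) (X w2 : Sp d) (s : ℝ) : ℝ := lT t w1 s * ip d (lQ t w1 X w2 s)

/-- first derivative -/
def K1 (t w1 : ℝ) (X w2 : Sp d) (s : ℝ) : ℝ :=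
  w1 * ip d (lQ t w1 X w2 s) - d * lT t w1 s * lP t w1 X w2 s * ip (d + 2) (lQ t w1 X w2 s)

/-- second derivative -/
def K2 (t w1 : ℝ) (X w2 : Sp d) (s : ℝ) : ℝ :=
  -(2 * d * w1 * lP t w1 X w2 s * ip (d + 2) (lQ t w1 X w2 s))
    - d * (w1 ^ 2 + ‖w2‖ ^ 2) * lT t w1 s * ip (d + 2) (lQ t w1 X w2 s)
    + d * (d + 2) * lT t w1 s * lP t w1 X w2 s ^ 2 * ip (d + 4) (lQ t w1 X w2 s)

lemma hasDerivAt_lT (t w1 s : ℝ) : HasDerivAt (lT t w1) w1 s := by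
  unfold lT
  simpa using ((hasDerivAt_id s).mul_const w1).const_add t

lemma hasDerivAt_line (X w2 : Sp d) (s : ℝ) : HasDerivAt (fun s : ℝ => X + s • w2) w2 s := by
  simpa using ((hasDerivAt_id s).smul_const w2).const_add X

lemma hasDerivAt_lQ (t w1 : ℝ) (X w2 : Sp d) (s : ℝ) :
    HasDerivAt (lQ t w1 X w2) (2 * lP t w1 X w2 s) s := by
  have h1 := (hasDerivAt_lT t w1 s).fun_pow 2
  have h2 := (hasDerivAt_line X w2 s).norm_sq
  have h := h1.add h2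
  refine h.congr_deriv ?_
  simp only [lP]
  push_cast
  ring

lemma hasDerivAt_lP (t w1 : ℝ) (X w2 : Sp d) (s : ℝ) :
    HasDerivAt (lP t w1 X w2) (w1 ^ 2 + ‖w2‖ ^ 2) s := by
  have h1 := (hasDerivAt_lT t w1 s).const_mul w1
  have h2 := (hasDerivAt_line X w2 s).inner ℝ (hasDerivAt_const s w2)
  have h := h1.add h2
  refine h.congr_deriv ?_
  simp only [inner_zero_right, zero_add, real_inner_self_eq_norm_sq]
  ring

lemma lQ_pos {t w1 : ℝ} {X w2 : Sp d} {s : ℝ} (h : 0 < lT t w1 s) : 0 < lQ t w1 X w2 s := by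
  unfold lQ; positivity

lemma hasDerivAt_K0 {t w1 : ℝ} {X w2 : Sp d} {s : ℝ} (h : 0 < lT t w1 s) :
    HasDerivAt (K0 t w1 X w2) (K1 t w1 X w2 s) s := by
  have h1 := (hasDerivAt_lT t w1 s).fun_mul
    (hasDerivAt_ip d (hasDerivAt_lQ t w1 X w2 s) (lQ_pos h))
  refine h1.congr_deriv ?_
  simp only [K1]
  ring

lemma hasDerivAt_K1 {t w1 : ℝ} {X w2 : Sp d} {s : ℝ} (h : 0 < lT t w1 s) :
    HasDerivAt (K1 t w1 X w2) (K2 t w1 X w2 s) s := by
  have h1 := (hasDerivAt_ip d (hasDerivAt_lQ t w1 X w2 s) (lQ_pos h)).const_mul w1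
  have h2 := (((hasDerivAt_lT t w1 s).const_mul (d : ℝ)).fun_mul
    (hasDerivAt_lP t w1 X w2 s)).fun_mul
    (hasDerivAt_ip (d + 2) (hasDerivAt_lQ t w1 X w2 s) (lQ_pos h))
  have h3 := h1.fun_sub h2
  refine h3.congr_deriv ?_
  simp only [K2]
  push_cast
  ring

lemma lT_le_sqrt {t w1 : ℝ} {X w2 : Sp d} {s : ℝ} :
    lT t w1 s ≤ Real.sqrt (lQ t w1 X w2 s) := by
  apply Real.le_sqrt_of_sq_le
  unfold lQ
  nlinarith [sq_nonneg ‖X + s • w2‖]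

lemma norm_le_sqrt {t w1 : ℝ} {X w2 : Sp d} {s : ℝ} :
    ‖X + s • w2‖ ≤ Real.sqrt (lQ t w1 X w2 s) := by
  apply Real.le_sqrt_of_sq_le
  unfold lQ
  nlinarith [sq_nonneg (lT t w1 s)]

lemma abs_lP_le {t w1 : ℝ} {X w2 : Sp d} {s : ℝ} (h : 0 < lT t w1 s) :
    |lP t w1 X w2 s| ≤ (|w1| + ‖w2‖) * Real.sqrt (lQ t w1 X w2 s) := by
  unfold lP
  calc |w1 * lT t w1 s + ⟪X + s • w2, w2⟫_ℝ|
      ≤ |w1 * lT t w1 s| + |⟪X + s • w2, w2⟫_ℝ| := abs_add_le _ _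
    _ ≤ |w1| * lT t w1 s + ‖X + s • w2‖ * ‖w2‖ := by
        gcongr
        · rw [abs_mul, abs_of_pos h]
        · exact abs_real_inner_le_norm _ _
    _ ≤ |w1| * Real.sqrt (lQ t w1 X w2 s) + Real.sqrt (lQ t w1 X w2 s) * ‖w2‖ := by
        gcongr
        · exact lT_le_sqrt
        · exact norm_le_sqrt
    _ = _ := by ring

lemma abs_K0_le {t w1 τ : ℝ} {X w2 : Sp d} {s : ℝ} (hτ : 0 < τ) (h : τ ≤ lT t w1 s) :
    |K0 t w1 X w2 s| ≤ lT t w1 s * (τ ^ d)⁻¹ := by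
  have hT : 0 < lT t w1 s := hτ.trans_le h
  unfold K0
  rw [abs_mul, abs_of_pos hT, abs_of_nonneg (ip_nonneg _ _)]
  have := ip_le d hτ (h.trans (lT_le_sqrt (X := X) (w2 := w2)))
  gcongr

lemma abs_K1_le {t w1 τ : ℝ} {X w2 : Sp d} {s : ℝ} (hτ : 0 < τ) (h : τ ≤ lT t w1 s) :
    |K1 t w1 X w2 s| ≤ (1 + d) * (|w1| + ‖w2‖) * (τ ^ d)⁻¹ := by
  have hT : 0 < lT t w1 s := hτ.trans_le h
  have hQ : 0 < lQ t w1 X w2 s := lQ_pos hT
  have e1 := ip_le d hτ (h.trans (lT_le_sqrt (X := X) (w2 := w2)))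
  have hP := abs_lP_le (X := X) (w2 := w2) hT
  have hTs : lT t w1 s ≤ Real.sqrt (lQ t w1 X w2 s) := lT_le_sqrt
  have h2 : Real.sqrt (lQ t w1 X w2 s) * Real.sqrt (lQ t w1 X w2 s) = lQ t w1 X w2 s :=
    Real.mul_self_sqrt hQ.le
  have h3 := ip_add_two d hQ
  have hi2 := ip_nonneg (d + 2) (lQ t w1 X w2 s)
  have hi0 := ip_nonneg d (lQ t w1 X w2 s)
  set r := Real.sqrt (lQ t w1 X w2 s) with hr
  have hr0 : 0 ≤ r := Real.sqrt_nonneg _
  set N := |w1| + ‖w2‖ with hN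
  have hN0 : 0 ≤ N := by positivity
  unfold K1
  calc |w1 * ip d (lQ t w1 X w2 s) - d * lT t w1 s * lP t w1 X w2 s * ip (d + 2) (lQ t w1 X w2 s)|
      ≤ |w1 * ip d (lQ t w1 X w2 s)|
        + |d * lT t w1 s * lP t w1 X w2 s * ip (d + 2) (lQ t w1 X w2 s)| := abs_sub _ _
    _ = |w1| * ip d (lQ t w1 X w2 s)
        + d * lT t w1 s * |lP t w1 X w2 s| * ip (d + 2) (lQ t w1 X w2 s) := by
        rw [abs_mul, abs_mul, abs_mul, abs_mul, abs_of_pos hT, abs_of_nonneg hi0,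
          abs_of_nonneg hi2, Nat.abs_cast]
    _ ≤ N * ip d (lQ t w1 X w2 s) + d * r * (N * r) * ip (d + 2) (lQ t w1 X w2 s) := by
        have : |w1| ≤ N := by rw [hN]; linarith [norm_nonneg w2]
        gcongr
    _ = (1 + d) * N * ip d (lQ t w1 X w2 s) := by
        rw [← h3, ← h2]; ring
    _ ≤ (1 + d) * N * (τ ^ d)⁻¹ := by gcongr

lemma abs_K2_le {t w1 τ : ℝ} {X w2 : Sp d} {s : ℝ} (hτ : 0 < τ) (h : τ ≤ lT t w1 s) :
    |K2 t w1 X w2 s| ≤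
      (2 * d * (|w1| + ‖w2‖) ^ 2 + d * (w1 ^ 2 + ‖w2‖ ^ 2)
        + d * (d + 2) * (|w1| + ‖w2‖) ^ 2) * (τ ^ (d + 1))⁻¹ := by
  have hT : 0 < lT t w1 s := hτ.trans_le h
  have hQ : 0 < lQ t w1 X w2 s := lQ_pos hT
  have e1 := ip_le (d + 1) hτ (h.trans (lT_le_sqrt (X := X) (w2 := w2)))
  have hP := abs_lP_le (X := X) (w2 := w2) hT
  have hTs : lT t w1 s ≤ Real.sqrt (lQ t w1 X w2 s) := lT_le_sqrt
  have h2 : Real.sqrt (lQ t w1 X w2 s) * Real.sqrt (lQ t w1 X w2 s) = lQ t w1 X w2 s :=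
    Real.mul_self_sqrt hQ.le
  have h3 := ip_add_two (d + 2) hQ
  have h4 := ip_succ (d + 1) hQ
  have hi1 := ip_nonneg (d + 1) (lQ t w1 X w2 s)
  have hi2 := ip_nonneg (d + 2) (lQ t w1 X w2 s)
  have hi4 := ip_nonneg (d + 4) (lQ t w1 X w2 s)
  set r := Real.sqrt (lQ t w1 X w2 s) with hr
  have hr0 : 0 ≤ r := Real.sqrt_nonneg _
  set N := |w1| + ‖w2‖ with hN
  have hN0 : 0 ≤ N := by positivity
  have hw : |w1| ≤ N := by rw [hN]; linarith [norm_nonneg w2]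
  have hP2 : lP t w1 X w2 s ^ 2 ≤ (N * r) ^ 2 := by
    rw [← sq_abs]; gcongr
  unfold K2
  calc |-(2 * d * w1 * lP t w1 X w2 s * ip (d + 2) (lQ t w1 X w2 s))
    - d * (w1 ^ 2 + ‖w2‖ ^ 2) * lT t w1 s * ip (d + 2) (lQ t w1 X w2 s)
    + d * (d + 2) * lT t w1 s * lP t w1 X w2 s ^ 2 * ip (d + 4) (lQ t w1 X w2 s)|
      ≤ |2 * d * w1 * lP t w1 X w2 s * ip (d + 2) (lQ t w1 X w2 s)|
        + |d * (w1 ^ 2 + ‖w2‖ ^ 2) * lT t w1 s * ip (d + 2) (lQ t w1 X w2 s)|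
        + |d * (d + 2) * lT t w1 s * lP t w1 X w2 s ^ 2 * ip (d + 4) (lQ t w1 X w2 s)| := by
        refine (abs_add_le _ _).trans ?_
        gcongr
        refine (abs_sub _ _).trans ?_
        rw [abs_neg]
    _ = 2 * d * |w1| * |lP t w1 X w2 s| * ip (d + 2) (lQ t w1 X w2 s)
        + d * (w1 ^ 2 + ‖w2‖ ^ 2) * lT t w1 s * ip (d + 2) (lQ t w1 X w2 s)
        + d * (d + 2) * lT t w1 s * lP t w1 X w2 s ^ 2 * ip (d + 4) (lQ t w1 X w2 s) := by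
        congr 1
        · congr 1
          · rw [abs_mul, abs_mul, abs_mul, abs_mul, abs_of_nonneg hi2, Nat.abs_cast]
            norm_num
          · exact abs_of_nonneg (by positivity)
        · exact abs_of_nonneg (by positivity)
    _ ≤ 2 * d * N * (N * r) * ip (d + 2) (lQ t w1 X w2 s)
        + d * (w1 ^ 2 + ‖w2‖ ^ 2) * r * ip (d + 2) (lQ t w1 X w2 s)
        + d * (d + 2) * r * (N * r) ^ 2 * ip (d + 4) (lQ t w1 X w2 s) := by
        gcongr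
    _ = (2 * d * N ^ 2 + d * (w1 ^ 2 + ‖w2‖ ^ 2) + d * (d + 2) * N ^ 2)
          * ip (d + 1) (lQ t w1 X w2 s) := by
        have h5 : r * ip (d + 2) (lQ t w1 X w2 s) = ip (d + 1) (lQ t w1 X w2 s) := h4
        have h6 : r * r * ip (d + 4) (lQ t w1 X w2 s) = ip (d + 2) (lQ t w1 X w2 s) := by
          rw [h2]; exact h3
        calc _ = 2 * d * N * N * (r * ip (d + 2) (lQ t w1 X w2 s))
              + d * (w1 ^ 2 + ‖w2‖ ^ 2) * (r * ip (d + 2) (lQ t w1 X w2 s))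
              + d * (d + 2) * N ^ 2 * (r * (r * r * ip (d + 4) (lQ t w1 X w2 s))) := by ring
          _ = _ := by rw [h6, h5]; ring
    _ ≤ _ := by gcongr

/-! ### differentiation under the integral -/

lemma continuous_ip_comp {Y : Type*} [TopologicalSpace Y] (m : ℕ) {q : Y → ℝ} (hq : Continuous q)
    (hp : ∀ y, 0 < q y) : Continuous (fun y => ip m (q y)) := by
  unfold ip
  exact ((Real.continuous_sqrt.comp hq).pow m).inv₀
    (fun y => pow_ne_zero m (Real.sqrt_pos.2 (hp y)).ne')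

lemma continuous_lQ (t w1 : ℝ) (x w2 : Sp d) (s : ℝ) :
    Continuous (fun η : Sp d => lQ t w1 (x - η) w2 s) := by
  unfold lQ; fun_prop

lemma continuous_lP (t w1 : ℝ) (x w2 : Sp d) (s : ℝ) :
    Continuous (fun η : Sp d => lP t w1 (x - η) w2 s) := by
  unfold lP; fun_prop

lemma continuous_K0 {t w1 : ℝ} {x w2 : Sp d} {s : ℝ} (h : 0 < lT t w1 s) :
    Continuous (fun η : Sp d => K0 t w1 (x - η) w2 s) := by
  unfold K0
  exact continuous_const.mul (continuous_ip_comp d (continuous_lQ t w1 x w2 s)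
    (fun η => lQ_pos h))

lemma continuous_K1 {t w1 : ℝ} {x w2 : Sp d} {s : ℝ} (h : 0 < lT t w1 s) :
    Continuous (fun η : Sp d => K1 t w1 (x - η) w2 s) := by
  unfold K1
  have h1 := continuous_ip_comp d (continuous_lQ t w1 x w2 s) (fun η => lQ_pos h)
  have h2 := continuous_ip_comp (d + 2) (continuous_lQ t w1 x w2 s) (fun η => lQ_pos h)
  have h3 := continuous_lP t w1 x w2 s
  exact (continuous_const.mul h1).sub ((continuous_const.mul h3).mul h2)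

lemma continuous_K2 {t w1 : ℝ} {x w2 : Sp d} {s : ℝ} (h : 0 < lT t w1 s) :
    Continuous (fun η : Sp d => K2 t w1 (x - η) w2 s) := by
  unfold K2
  have h2 := continuous_ip_comp (d + 2) (continuous_lQ t w1 x w2 s) (fun η => lQ_pos h)
  have h4 := continuous_ip_comp (d + 4) (continuous_lQ t w1 x w2 s) (fun η => lQ_pos h)
  have h3 := continuous_lP t w1 x w2 s
  exact ((((continuous_const.mul h3).mul h2).neg).sub (continuous_const.mul h2)).add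
    ((continuous_const.mul (h3.pow 2)).mul h4)

/-- the neighbourhood used below -/
def lU (t w1 : ℝ) : Set ℝ := {s | t / 2 < lT t w1 s}

lemma lU_mem {t w1 s : ℝ} (hs : s ∈ lU t w1) : lU t w1 ∈ 𝓝 s := by
  have : IsOpen (lU t w1) := by
    unfold lU lT
    exact isOpen_lt (by fun_prop) (by fun_prop)
  exact this.mem_nhds hs

lemma zero_mem_lU {t w1 : ℝ} (ht : 0 < t) : (0 : ℝ) ∈ lU t w1 := by
  show t / 2 < t + 0 * w1
  linarith

lemma integrable_K0 {μ : Measure (Sp d)} [IsFiniteMeasure μ] {t w1 : ℝ} {x w2 : Sp d} {s : ℝ}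
    (ht : 0 < t) (hs : s ∈ lU t w1) : Integrable (fun η => K0 t w1 (x - η) w2 s) μ := by
  have hs' : t / 2 < lT t w1 s := hs
  have hT : 0 < lT t w1 s := by linarith
  refine Integrable.mono' (integrable_const (lT t w1 s * ((t / 2) ^ d)⁻¹))
    (continuous_K0 hT).aestronglyMeasurable ?_
  filter_upwards with η
  rw [Real.norm_eq_abs]
  exact abs_K0_le (by linarith) hs'.le

lemma deriv_K0 {μ : Measure (Sp d)} [IsFiniteMeasure μ] {t w1 : ℝ} {x w2 : Sp d} {s : ℝ}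
    (ht : 0 < t) (hs : s ∈ lU t w1) :
    Integrable (fun η => K1 t w1 (x - η) w2 s) μ ∧
    HasDerivAt (fun s => ∫ η, K0 t w1 (x - η) w2 s ∂μ) (∫ η, K1 t w1 (x - η) w2 s ∂μ) s := by
  have hs' : t / 2 < lT t w1 s := hs
  have hT : 0 < lT t w1 s := by linarith
  refine hasDerivAt_integral_of_dominated_loc_of_deriv_le
    (F := fun s η => K0 t w1 (x - η) w2 s) (F' := fun s η => K1 t w1 (x - η) w2 s) (lU_mem hs) ?_
    (integrable_K0 ht hs) (continuous_K1 hT).aestronglyMeasurable ?_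
    (integrable_const ((1 + d) * (|w1| + ‖w2‖) * ((t / 2) ^ d)⁻¹)) ?_
  · filter_upwards [lU_mem hs] with r hr
    have hr' : t / 2 < lT t w1 r := hr
    exact (continuous_K0 (by linarith)).aestronglyMeasurable
  · filter_upwards with η r hr
    rw [Real.norm_eq_abs]
    exact abs_K1_le (by linarith) (le_of_lt hr)
  · filter_upwards with η r hr
    have hr' : t / 2 < lT t w1 r := hr
    exact hasDerivAt_K0 (by linarith)

lemma deriv_K1 {μ : Measure (Sp d)} [IsFiniteMeasure μ] {t w1 : ℝ} {x w2 : Sp d} {s : ℝ}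
    (ht : 0 < t) (hs : s ∈ lU t w1) :
    Integrable (fun η => K2 t w1 (x - η) w2 s) μ ∧
    HasDerivAt (fun s => ∫ η, K1 t w1 (x - η) w2 s ∂μ) (∫ η, K2 t w1 (x - η) w2 s ∂μ) s := by
  have hs' : t / 2 < lT t w1 s := hs
  have hT : 0 < lT t w1 s := by linarith
  refine hasDerivAt_integral_of_dominated_loc_of_deriv_le
    (F := fun s η => K1 t w1 (x - η) w2 s) (F' := fun s η => K2 t w1 (x - η) w2 s) (lU_mem hs) ?_
    (deriv_K0 ht hs).1 (continuous_K2 hT).aestronglyMeasurable ?_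
    (integrable_const ((2 * d * (|w1| + ‖w2‖) ^ 2 + d * (w1 ^ 2 + ‖w2‖ ^ 2)
        + d * (d + 2) * (|w1| + ‖w2‖) ^ 2) * ((t / 2) ^ (d + 1))⁻¹)) ?_
  · filter_upwards [lU_mem hs] with r hr
    have hr' : t / 2 < lT t w1 r := hr
    exact (continuous_K1 (by linarith)).aestronglyMeasurable
  · filter_upwards with η r hr
    rw [Real.norm_eq_abs]
    exact abs_K2_le (by linarith) (le_of_lt hr)
  · filter_upwards with η r hr
    have hr' : t / 2 < lT t w1 r := hr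
    exact hasDerivAt_K1 (by linarith)

lemma th_line (μ : Measure (Sp d)) (t w1 : ℝ) (x w2 : Sp d) (s : ℝ) :
    th μ (t + s * w1) (x + s • w2) = ∫ η, K0 t w1 (x - η) w2 s ∂μ := by
  unfold th
  congr 1
  ext η
  unfold kk K0 lT lQ ip lT
  rw [div_eq_mul_inv, show x + s • w2 - η = x - η + s • w2 by abel]

/-- second derivative of a function from the derivatives of its square along a line -/
lemma second_of_sq {F : Type*} [NormedAddCommGroup F] [NormedSpace ℝ F] {g : F → ℝ} {p w : F}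
    {U : Set F} (hU : IsOpen U) (hpU : p ∈ U) (hg : ContDiffOn ℝ ∞ g U) (hpos : 0 < g p)
    {Θ Θ' : ℝ → ℝ} {Θ'' : ℝ} (h1 : ∀ᶠ s in 𝓝 (0 : ℝ), g (p + s • w) ^ 2 = Θ s)
    (h2 : ∀ᶠ s in 𝓝 (0 : ℝ), HasDerivAt Θ (Θ' s) s) (h3 : HasDerivAt Θ' Θ'' 0) :
    iteratedFDeriv ℝ 2 g p (fun _ => w) = (Θ'' / 2 - (fderiv ℝ g p w) ^ 2) / g p := by
  have hline : Continuous (fun s : ℝ => p + s • w) := by fun_prop
  have hmem : ∀ᶠ s in 𝓝 (0 : ℝ), p + s • w ∈ U := by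
    have : (fun s : ℝ => p + s • w) ⁻¹' U ∈ 𝓝 (0 : ℝ) :=
      (hU.preimage hline).mem_nhds (by simpa using hpU)
    exact this
  have hl : ∀ s : ℝ, HasDerivAt (fun s : ℝ => p + s • w) w s := fun s => by
    simpa using ((hasDerivAt_id s).smul_const w).const_add p
  -- first derivative along the line
  have hd1 : ∀ᶠ s in 𝓝 (0 : ℝ),
      HasDerivAt (fun s : ℝ => g (p + s • w)) (fderiv ℝ g (p + s • w) w) s := by
    filter_upwards [hmem] with s hs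
    have hdiff : DifferentiableAt ℝ g (p + s • w) :=
      (hg.contDiffAt (hU.mem_nhds hs)).differentiableAt (by simp)
    exact hdiff.hasFDerivAt.comp_hasDerivAt s (hl s)
  -- second derivative
  have hd2 : HasDerivAt (fun s : ℝ => fderiv ℝ g (p + s • w) w)
      (fderiv ℝ (fderiv ℝ g) p w w) 0 := by
    have hc : ContDiffAt ℝ ∞ g p := hg.contDiffAt (hU.mem_nhds hpU)
    have hc1 : ContDiffAt ℝ 1 (fderiv ℝ g) p :=
      hc.fderiv_right (m := 1) (by norm_cast)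
    have hdiff : DifferentiableAt ℝ (fderiv ℝ g) p := hc1.differentiableAt (by simp)
    have hp0 : p + (0 : ℝ) • w = p := by simp
    have h0 : HasFDerivAt (fderiv ℝ g) (fderiv ℝ (fderiv ℝ g) p) (p + (0 : ℝ) • w) := by
      rw [hp0]; exact hdiff.hasFDerivAt
    have h1 : HasDerivAt (fun s : ℝ => fderiv ℝ g (p + s • w)) (fderiv ℝ (fderiv ℝ g) p w) 0 :=
      h0.comp_hasDerivAt (0 : ℝ) (hl 0)
    have h := h1.clm_apply (hasDerivAt_const (0 : ℝ) w)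
    refine h.congr_deriv ?_
    simp
  rw [iteratedFDeriv_two_apply]
  -- derivative of the square
  have hΘ1 : ∀ᶠ s in 𝓝 (0 : ℝ), Θ' s = 2 * g (p + s • w) * fderiv ℝ g (p + s • w) w := by
    have h1' := h1.eventually_nhds
    filter_upwards [h1', h2, hd1] with s a b c
    have e1 : HasDerivAt (fun s : ℝ => g (p + s • w) ^ 2) (Θ' s) s := b.congr_of_eventuallyEq a
    have e2 := c.fun_pow 2
    have := e1.unique e2
    rw [this]
    push_cast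
    ring
  have hΘ2 : HasDerivAt Θ' (2 * (fderiv ℝ g p w) ^ 2 + 2 * g p * fderiv ℝ (fderiv ℝ g) p w w)
      0 := by
    have e1 := (hd1.self_of_nhds.const_mul 2).fun_mul hd2
    have e2 : HasDerivAt Θ' _ 0 := e1.congr_of_eventuallyEq hΘ1
    refine e2.congr_deriv ?_
    simp only [zero_smul, add_zero]
    ring
  have h4 := h3.unique hΘ2
  have hne : g p ≠ 0 := hpos.ne'
  field_simp
  rw [h4]
  ring

/-! ### the algebraic identity -/

lemma K2_zero (t w1 : ℝ) (X w2 : Sp d) :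
    K2 t w1 X w2 0 =
      -(2 * d * w1 * (w1 * t + ⟪X, w2⟫_ℝ) * ip (d + 2) (t ^ 2 + ‖X‖ ^ 2))
      - d * (w1 ^ 2 + ‖w2‖ ^ 2) * t * ip (d + 2) (t ^ 2 + ‖X‖ ^ 2)
      + d * (d + 2) * t * (w1 * t + ⟪X, w2⟫_ℝ) ^ 2 * ip (d + 4) (t ^ 2 + ‖X‖ ^ 2) := by
  unfold K2 lQ lP lT
  simp

lemma sum_inner_sq (X : Sp d) :
    ∑ j : Fin d, ⟪X, (EuclideanSpace.single j (1 : ℝ) : Sp d)⟫_ℝ ^ 2 = ‖X‖ ^ 2 := by
  rw [EuclideanSpace.norm_sq_eq]
  refine Finset.sum_congr rfl fun j _ => ?_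
  simp [EuclideanSpace.inner_single_right]

lemma sum_K2 (t : ℝ) (X : Sp d) :
    ∑ j : Fin d, K2 t 0 X (EuclideanSpace.single j (1 : ℝ) : Sp d) 0 =
      -(d ^ 2 * t * ip (d + 2) (t ^ 2 + ‖X‖ ^ 2))
      + d * (d + 2) * t * ‖X‖ ^ 2 * ip (d + 4) (t ^ 2 + ‖X‖ ^ 2) := by
  have h : ∀ j : Fin d, K2 t 0 X (EuclideanSpace.single j (1 : ℝ) : Sp d) 0 =
      -(d * t * ip (d + 2) (t ^ 2 + ‖X‖ ^ 2))
      + d * (d + 2) * t * ip (d + 4) (t ^ 2 + ‖X‖ ^ 2)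
        * ⟪X, (EuclideanSpace.single j (1 : ℝ) : Sp d)⟫_ℝ ^ 2 := by
    intro j
    rw [K2_zero]
    have : ‖(EuclideanSpace.single j (1 : ℝ) : Sp d)‖ = 1 := by simp
    rw [this]
    ring
  rw [Finset.sum_congr rfl fun j _ => h j, Finset.sum_add_distrib, ← Finset.mul_sum,
    sum_inner_sq]
  simp only [Finset.sum_const, Finset.card_univ, Fintype.card_fin, nsmul_eq_mul]
  ring

lemma key_identity {t : ℝ} (ht : 0 < t) (X n : Sp d) (hn : ‖n‖ = 1) (a : ℝ) :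
    K2 t 1 X (a • n) 0 + (1 + a ^ 2) *
      ((∑ j : Fin d, K2 t 0 X (EuclideanSpace.single j (1 : ℝ) : Sp d) 0) - K2 t 0 X n 0) =
      2 * d * a * ((a * t - ⟪X, n⟫_ℝ) * ip (d + 2) (t ^ 2 + ‖X‖ ^ 2))
      - d * (d + 2) * t * ((a * t - ⟪X, n⟫_ℝ) ^ 2 * ip (d + 4) (t ^ 2 + ‖X‖ ^ 2)) := by
  have hq : 0 < t ^ 2 + ‖X‖ ^ 2 := by positivity
  have h2 := ip_add_two (d + 2) hq
  have h2' : ip (d + 2) (t ^ 2 + ‖X‖ ^ 2) = (t ^ 2 + ‖X‖ ^ 2) * ip (d + 4) (t ^ 2 + ‖X‖ ^ 2) :=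
    h2.symm
  rw [sum_K2, K2_zero, K2_zero, h2', norm_smul, hn, inner_smul_right]
  have ha : (‖a‖ * 1) ^ 2 = a ^ 2 := by rw [mul_one, Real.norm_eq_abs, sq_abs]
  rw [ha]
  ring

/-! ### representation of the integrand -/

/-- what is used of module TH -/
structure Pot (μ : Measure (Sp d)) : Prop where
  fin : IsFiniteMeasure μ
  pos : ∀ (t : ℝ) (x : Sp d), 0 < t → 0 < th μ t x
  smooth : ContDiffOn ℝ ∞ (fun p : ℝ × Sp d => vv μ p.1 p.2) {p | 0 < p.1}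
  har : ∀ (t : ℝ) (x x' : Sp d), 0 < t → th μ t x' ≤ (1 + ‖x - x'‖ / t) ^ d * th μ t x

variable {μ : Measure (Sp d)}

lemma Pot.vpos (h : Pot μ) {t : ℝ} (ht : 0 < t) (x : Sp d) : 0 < vv μ t x :=
  Real.sqrt_pos.2 (h.pos t x ht)

lemma Pot.vsq (h : Pot μ) {t : ℝ} (ht : 0 < t) (x : Sp d) : vv μ t x ^ 2 = th μ t x :=
  Real.sq_sqrt (h.pos t x ht).le

lemma isOpen_half : IsOpen {p : ℝ × Sp d | 0 < p.1} :=
  isOpen_lt continuous_const continuous_fst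

lemma Pot.smoothx (h : Pot μ) {t : ℝ} (ht : 0 < t) : ContDiff ℝ ∞ (vv μ t) := by
  have h1 : ContDiff ℝ ∞ (fun x : Sp d => ((t, x) : ℝ × Sp d)) := contDiff_prodMk_right t
  have h2 := h.smooth.comp_contDiff h1 (fun x => ht)
  exact h2

lemma Pot.repD (h : Pot μ) {t : ℝ} (ht : 0 < t) (x : Sp d) (w1 : ℝ) (w2 : Sp d) :
    iteratedFDeriv ℝ 2 (fun p : ℝ × Sp d => vv μ p.1 p.2) (t, x) (fun _ => (w1, w2)) =
      ((∫ η, K2 t w1 (x - η) w2 0 ∂μ) / 2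
        - (fderiv ℝ (fun p : ℝ × Sp d => vv μ p.1 p.2) (t, x) (w1, w2)) ^ 2) / vv μ t x := by
  have := h.fin
  refine second_of_sq (g := fun p : ℝ × Sp d => vv μ p.1 p.2)
    (Θ := fun s => ∫ η, K0 t w1 (x - η) w2 s ∂μ)
    (Θ' := fun s => ∫ η, K1 t w1 (x - η) w2 s ∂μ) isOpen_half ht h.smooth (h.vpos ht x) ?_ ?_ ?_
  · filter_upwards [lU_mem (zero_mem_lU (w1 := w1) ht)] with s hs
    have hs' : t / 2 < t + s * w1 := hs
    have hT : 0 < t + s * w1 := by linarith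
    have e : ((t, x) : ℝ × Sp d) + s • (w1, w2) = (t + s * w1, x + s • w2) := by
      simp [Prod.smul_mk]
    rw [e]
    show vv μ (t + s * w1) (x + s • w2) ^ 2 = _
    rw [h.vsq hT, th_line]
  · filter_upwards [lU_mem (zero_mem_lU (w1 := w1) ht)] with s hs
    exact (deriv_K0 ht hs).2
  · exact (deriv_K1 ht (zero_mem_lU ht)).2

lemma Pot.repX (h : Pot μ) {t : ℝ} (ht : 0 < t) (x : Sp d) (w2 : Sp d) :
    iteratedFDeriv ℝ 2 (vv μ t) x (fun _ => w2) =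
      ((∫ η, K2 t 0 (x - η) w2 0 ∂μ) / 2 - (fderiv ℝ (vv μ t) x w2) ^ 2) / vv μ t x := by
  have := h.fin
  refine second_of_sq (g := vv μ t)
    (Θ := fun s => ∫ η, K0 t 0 (x - η) w2 s ∂μ)
    (Θ' := fun s => ∫ η, K1 t 0 (x - η) w2 s ∂μ) isOpen_univ (mem_univ x)
    (h.smoothx ht).contDiffOn (h.vpos ht x) ?_ ?_ ?_
  · filter_upwards with s
    rw [h.vsq ht, ← th_line]
    simp
  · filter_upwards [lU_mem (zero_mem_lU (w1 := 0) ht)] with s hs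
    exact (deriv_K0 ht hs).2
  · exact (deriv_K1 ht (zero_mem_lU ht)).2

/-- first moment -/
def J2 (μ : Measure (Sp d)) (n : Sp d) (t : ℝ) (y x : Sp d) : ℝ :=
  ∫ η, ⟪η - y, n⟫_ℝ * ip (d + 2) (t ^ 2 + ‖x - η‖ ^ 2) ∂μ

/-- second moment -/
def J4 (μ : Measure (Sp d)) (n : Sp d) (t : ℝ) (y x : Sp d) : ℝ :=
  ∫ η, ⟪η - y, n⟫_ℝ ^ 2 * ip (d + 4) (t ^ 2 + ‖x - η‖ ^ 2) ∂μ

/-- the integrand -/
def Gz (ε : ℝ) (μ : Measure (Sp d)) (n : Sp d) (t : ℝ) (y z : Sp d) : ℝ :=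
  -(iteratedFDeriv ℝ 2 (fun p : ℝ × Sp d => vv μ p.1 p.2) (t, y + (ε * t) • z)
      (fun _ => ((1 : ℝ), (ε * ⟪z, n⟫_ℝ) • n))
    + (1 + (ε * ⟪z, n⟫_ℝ) ^ 2) *
      (lap (vv μ t) (y + (ε * t) • z) - d2 n (vv μ t) (y + (ε * t) • z)))

lemma abs_inner_le_sqrt {n : Sp d} (hn : ‖n‖ = 1) (t : ℝ) (X : Sp d) :
    |⟪X, n⟫_ℝ| ≤ Real.sqrt (t ^ 2 + ‖X‖ ^ 2) := by
  have h := abs_real_inner_le_norm X n
  rw [hn, mul_one] at h
  refine h.trans (Real.le_sqrt_of_sq_le ?_)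
  nlinarith [sq_nonneg t]

lemma sqrt_ge {t : ℝ} (X : Sp d) : t ≤ Real.sqrt (t ^ 2 + ‖X‖ ^ 2) := by
  refine Real.le_sqrt_of_sq_le ?_
  nlinarith [sq_nonneg ‖X‖]

lemma continuous_ipx {t : ℝ} (ht : 0 < t) (m : ℕ) (x : Sp d) :
    Continuous (fun η : Sp d => ip m (t ^ 2 + ‖x - η‖ ^ 2)) := by
  refine continuous_ip_comp m (by fun_prop) (fun η => by positivity)

lemma Pot.int_ip (h : Pot μ) {t : ℝ} (ht : 0 < t) (m : ℕ) (x : Sp d) :
    Integrable (fun η => ip m (t ^ 2 + ‖x - η‖ ^ 2)) μ := by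
  have := h.fin
  refine Integrable.mono' (integrable_const ((t ^ m)⁻¹)) (continuous_ipx ht m x).aestronglyMeasurable ?_
  filter_upwards with η
  rw [Real.norm_eq_abs, abs_of_nonneg (ip_nonneg _ _)]
  exact ip_le m ht (sqrt_ge _)

/-- comparison of square roots -/
lemma sqrt_comp {t : ℝ} (_ht : 0 < t) {x y : Sp d} (hxy : ‖x - y‖ ≤ t) (η : Sp d) :
    Real.sqrt (t ^ 2 + ‖x - η‖ ^ 2) ≤ 2 * Real.sqrt (t ^ 2 + ‖y - η‖ ^ 2) := by
  have h1 : ‖x - η‖ ≤ t + ‖y - η‖ := by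
    calc ‖x - η‖ = ‖(x - y) + (y - η)‖ := by rw [sub_add_sub_cancel]
      _ ≤ ‖x - y‖ + ‖y - η‖ := norm_add_le _ _
      _ ≤ _ := by gcongr
  have h2 : ‖x - η‖ ^ 2 ≤ (t + ‖y - η‖) ^ 2 := by gcongr
  have h3 : (2 : ℝ) * Real.sqrt (t ^ 2 + ‖y - η‖ ^ 2)
      = Real.sqrt (4 * (t ^ 2 + ‖y - η‖ ^ 2)) := by
    rw [Real.sqrt_mul (by norm_num), show (4 : ℝ) = 2 ^ 2 by norm_num, Real.sqrt_sq (by norm_num)]
  rw [h3]
  apply Real.sqrt_le_sqrt
  nlinarith [sq_nonneg (t - ‖y - η‖), norm_nonneg (y - η), sq_nonneg ‖y - η‖]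

lemma ip_comp {t : ℝ} (ht : 0 < t) {x y : Sp d} (hxy : ‖x - y‖ ≤ t) (m : ℕ) (η : Sp d) :
    ip m (t ^ 2 + ‖y - η‖ ^ 2) ≤ 2 ^ m * ip m (t ^ 2 + ‖x - η‖ ^ 2) := by
  have h := sqrt_comp ht hxy η
  have hy : 0 < Real.sqrt (t ^ 2 + ‖y - η‖ ^ 2) := Real.sqrt_pos.2 (by positivity)
  have hx : 0 < Real.sqrt (t ^ 2 + ‖x - η‖ ^ 2) := Real.sqrt_pos.2 (by positivity)
  unfold ip
  rw [← div_eq_mul_inv, le_div_iff₀ (by positivity), inv_mul_le_iff₀ (by positivity),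
    mul_comm, ← mul_pow]
  gcongr

lemma Pot.int_h (h : Pot μ) {n : Sp d} (hn : ‖n‖ = 1) {t : ℝ} (ht : 0 < t) (y x : Sp d) (m : ℕ) :
    Integrable (fun η => ⟪η - y, n⟫_ℝ * ip (m + 1) (t ^ 2 + ‖x - η‖ ^ 2)) μ := by
  have := h.fin
  have hmeas : Continuous (fun η : Sp d => ⟪η - y, n⟫_ℝ * ip (m + 1) (t ^ 2 + ‖x - η‖ ^ 2)) :=
    (by fun_prop : Continuous (fun η : Sp d => ⟪η - y, n⟫_ℝ)).mul (continuous_ipx ht _ x)
  refine Integrable.mono' (((h.int_ip ht m x).add ((h.int_ip ht (m + 1) x).const_mul ‖x - y‖)))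
    hmeas.aestronglyMeasurable ?_
  filter_upwards with η
  have hq : 0 < t ^ 2 + ‖x - η‖ ^ 2 := by positivity
  have hi := ip_nonneg (m + 1) (t ^ 2 + ‖x - η‖ ^ 2)
  rw [Real.norm_eq_abs, abs_mul, abs_of_nonneg hi]
  have h1 : |⟪η - y, n⟫_ℝ| ≤ Real.sqrt (t ^ 2 + ‖x - η‖ ^ 2) + ‖x - y‖ := by
    have e : η - y = -(x - η) + (x - y) := by abel
    rw [e, inner_add_left, inner_neg_left]
    refine (abs_add_le _ _).trans ?_
    rw [abs_neg]
    have := abs_real_inner_le_norm (x - y) n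
    rw [hn, mul_one] at this
    exact add_le_add (abs_inner_le_sqrt hn t _) this
  calc |⟪η - y, n⟫_ℝ| * ip (m + 1) (t ^ 2 + ‖x - η‖ ^ 2)
      ≤ (Real.sqrt (t ^ 2 + ‖x - η‖ ^ 2) + ‖x - y‖) * ip (m + 1) (t ^ 2 + ‖x - η‖ ^ 2) := by
        gcongr
    _ = _ := by
        rw [add_mul, ip_succ m hq]
        rfl

lemma Pot.int_h2 (h : Pot μ) {n : Sp d} (hn : ‖n‖ = 1) {t : ℝ} (ht : 0 < t) (y x : Sp d) (m : ℕ) :
    Integrable (fun η => ⟪η - y, n⟫_ℝ ^ 2 * ip (m + 2) (t ^ 2 + ‖x - η‖ ^ 2)) μ := by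
  have := h.fin
  have hmeas : Continuous (fun η : Sp d => ⟪η - y, n⟫_ℝ ^ 2 * ip (m + 2) (t ^ 2 + ‖x - η‖ ^ 2)) :=
    (by fun_prop : Continuous (fun η : Sp d => ⟪η - y, n⟫_ℝ ^ 2)).mul (continuous_ipx ht _ x)
  refine Integrable.mono' (((h.int_ip ht m x).const_mul 2).add
    ((h.int_ip ht (m + 2) x).const_mul (2 * ‖x - y‖ ^ 2)))
    hmeas.aestronglyMeasurable ?_
  filter_upwards with η
  have hq : 0 < t ^ 2 + ‖x - η‖ ^ 2 := by positivity
  have hi := ip_nonneg (m + 2) (t ^ 2 + ‖x - η‖ ^ 2)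
  rw [Real.norm_eq_abs, abs_mul, abs_of_nonneg hi, abs_of_nonneg (sq_nonneg _)]
  have h1 : |⟪η - y, n⟫_ℝ| ≤ Real.sqrt (t ^ 2 + ‖x - η‖ ^ 2) + ‖x - y‖ := by
    have e : η - y = -(x - η) + (x - y) := by abel
    rw [e, inner_add_left, inner_neg_left]
    refine (abs_add_le _ _).trans ?_
    rw [abs_neg]
    have := abs_real_inner_le_norm (x - y) n
    rw [hn, mul_one] at this
    exact add_le_add (abs_inner_le_sqrt hn t _) this
  have h2 : ⟪η - y, n⟫_ℝ ^ 2 ≤ 2 * (t ^ 2 + ‖x - η‖ ^ 2) + 2 * ‖x - y‖ ^ 2 := by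
    have e1 : ⟪η - y, n⟫_ℝ ^ 2 ≤ (Real.sqrt (t ^ 2 + ‖x - η‖ ^ 2) + ‖x - y‖) ^ 2 := by
      rw [← sq_abs]; gcongr
    have e2 := Real.sq_sqrt hq.le
    nlinarith [sq_nonneg (Real.sqrt (t ^ 2 + ‖x - η‖ ^ 2) - ‖x - y‖)]
  calc ⟪η - y, n⟫_ℝ ^ 2 * ip (m + 2) (t ^ 2 + ‖x - η‖ ^ 2)
      ≤ (2 * (t ^ 2 + ‖x - η‖ ^ 2) + 2 * ‖x - y‖ ^ 2) * ip (m + 2) (t ^ 2 + ‖x - η‖ ^ 2) := by
        gcongr
    _ = _ := by
        rw [add_mul, mul_assoc, ip_add_two m hq]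
        rfl

lemma grad_inner (f : Sp d → ℝ) (x w : Sp d) : ⟪gradient f x, w⟫_ℝ = fderiv ℝ f x w := by
  unfold gradient
  exact InnerProductSpace.toDual_symm_apply

lemma norm_tang_sq {n : Sp d} (hn : ‖n‖ = 1) (g : Sp d) :
    ‖tang n g‖ ^ 2 = ‖g‖ ^ 2 - ⟪g, n⟫_ℝ ^ 2 := by
  unfold tang
  rw [norm_sub_sq_real, inner_smul_right, norm_smul, hn, real_inner_comm n g, mul_one,
    Real.norm_eq_abs, sq_abs]
  ring

lemma Pot.diffV (h : Pot μ) {t : ℝ} (ht : 0 < t) (x : Sp d) :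
    DifferentiableAt ℝ (fun p : ℝ × Sp d => vv μ p.1 p.2) (t, x) :=
  (h.smooth.contDiffAt (isOpen_half.mem_nhds ht)).differentiableAt (by simp)

lemma Pot.fderiv_one (h : Pot μ) {t : ℝ} (ht : 0 < t) (x : Sp d) (w : Sp d) :
    fderiv ℝ (fun p : ℝ × Sp d => vv μ p.1 p.2) (t, x) (1, w) =
      dtv μ t x + ⟪gradient (vv μ t) x, w⟫_ℝ := by
  have hd := (h.diffV ht x).hasFDerivAt
  have e : ((1, w) : ℝ × Sp d) = (1, 0) + (0, w) := by simp
  rw [e, map_add]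
  congr 1
  · have h1 : HasDerivAt (fun s : ℝ => ((s, x) : ℝ × Sp d)) (1, 0) t :=
      (hasDerivAt_id t).prodMk (hasDerivAt_const t x)
    have h2 : HasDerivAt ((fun p : ℝ × Sp d => vv μ p.1 p.2) ∘ (fun s : ℝ => ((s, x) : ℝ × Sp d)))
        (fderiv ℝ (fun p : ℝ × Sp d => vv μ p.1 p.2) (t, x) (1, 0)) t :=
      hd.comp_hasDerivAt t h1
    have h3 : HasDerivAt (fun s => vv μ s x)
        (fderiv ℝ (fun p : ℝ × Sp d => vv μ p.1 p.2) (t, x) (1, 0)) t := h2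
    unfold dtv
    rw [h3.deriv]
  · rw [grad_inner]
    have h1 : HasFDerivAt (fun x : Sp d => ((t, x) : ℝ × Sp d))
        (ContinuousLinearMap.inr ℝ ℝ (Sp d)) x := hasFDerivAt_prodMk_right t x
    have h2 : HasFDerivAt (vv μ t)
        ((fderiv ℝ (fun p : ℝ × Sp d => vv μ p.1 p.2) (t, x)).comp
          (ContinuousLinearMap.inr ℝ ℝ (Sp d))) x := by
      have := hd.comp x h1
      exact this
    rw [h2.fderiv]
    simp

lemma Pot.int_K2 (h : Pot μ) {t : ℝ} (ht : 0 < t) (x : Sp d) (w1 : ℝ) (w2 : Sp d) :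
    Integrable (fun η => K2 t w1 (x - η) w2 0) μ := by
  have := h.fin
  exact (deriv_K1 ht (zero_mem_lU ht)).1

/-- representation of the integrand -/
lemma Pot.rep (h : Pot μ) {n : Sp d} (hn : ‖n‖ = 1) {t : ℝ} (ht : 0 < t) (ε : ℝ) (y z : Sp d) :
    Gz ε μ n t y z =
      -(d * (ε * ⟪z, n⟫_ℝ) / vv μ t (y + (ε * t) • z) * J2 μ n t y (y + (ε * t) • z))
      + d * (d + 2) / 2 * t / vv μ t (y + (ε * t) • z) * J4 μ n t y (y + (ε * t) • z)
      + ((dtv μ t (y + (ε * t) • z)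
          + ε * ⟪z, n⟫_ℝ * ⟪gradient (vv μ t) (y + (ε * t) • z), n⟫_ℝ) ^ 2
        + (1 + (ε * ⟪z, n⟫_ℝ) ^ 2) * ‖tang n (gradient (vv μ t) (y + (ε * t) • z))‖ ^ 2)
        / vv μ t (y + (ε * t) • z) := by
  set x := y + (ε * t) • z with hx
  set a := ε * ⟪z, n⟫_ℝ with ha
  have hv := h.vpos ht x
  have e1 := h.repD ht x 1 (a • n)
  have e2 : ∀ w2, iteratedFDeriv ℝ 2 (vv μ t) x (fun _ => w2) =
      ((∫ η, K2 t 0 (x - η) w2 0 ∂μ) / 2 - ⟪gradient (vv μ t) x, w2⟫_ℝ ^ 2) / vv μ t x := by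
    intro w2
    rw [h.repX ht x w2, grad_inner]
  rw [h.fderiv_one ht, inner_smul_right] at e1
  have e3 : lap (vv μ t) x = ((∑ j : Fin d,
      ∫ η, K2 t 0 (x - η) (EuclideanSpace.single j (1 : ℝ) : Sp d) 0 ∂μ) / 2
      - ‖gradient (vv μ t) x‖ ^ 2) / vv μ t x := by
    unfold lap
    rw [Finset.sum_congr rfl fun j _ => e2 _, ← sum_inner_sq (gradient (vv μ t) x),
      ← Finset.sum_div, Finset.sum_sub_distrib, Finset.sum_div]
  have e4 : d2 n (vv μ t) x = ((∫ η, K2 t 0 (x - η) n 0 ∂μ) / 2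
      - ⟪gradient (vv μ t) x, n⟫_ℝ ^ 2) / vv μ t x := e2 n
  -- the combination of integrals
  have hh : ∀ η : Sp d, a * t - ⟪x - η, n⟫_ℝ = ⟪η - y, n⟫_ℝ := by
    intro η
    rw [hx, show y + (ε * t) • z - η = (ε * t) • z - (η - y) by abel, inner_sub_left,
      inner_smul_left]
    simp only [conj_trivial]
    rw [ha]; ring
  have key : (∫ η, K2 t 1 (x - η) (a • n) 0 ∂μ) + (1 + a ^ 2) * ((∑ j : Fin d,
      ∫ η, K2 t 0 (x - η) (EuclideanSpace.single j (1 : ℝ) : Sp d) 0 ∂μ)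
        - ∫ η, K2 t 0 (x - η) n 0 ∂μ) =
      2 * d * a * J2 μ n t y x - d * (d + 2) * t * J4 μ n t y x := by
    have i1 : Integrable (fun η => ∑ j : Fin d,
        K2 t 0 (x - η) (EuclideanSpace.single j (1 : ℝ) : Sp d) 0) μ :=
      integrable_finsetSum _ (fun j _ => h.int_K2 ht x 0 _)
    have i2 : Integrable (fun η => (1 + a ^ 2) * ((∑ j : Fin d,
        K2 t 0 (x - η) (EuclideanSpace.single j (1 : ℝ) : Sp d) 0) - K2 t 0 (x - η) n 0)) μ :=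
      (i1.sub (h.int_K2 ht x 0 n)).const_mul _
    rw [← integral_finsetSum _ (fun j _ => h.int_K2 ht x 0 _),
      ← integral_sub i1 (h.int_K2 ht x 0 n),
      ← integral_const_mul, ← integral_add (h.int_K2 ht x 1 _) i2]
    unfold J2 J4
    rw [← integral_const_mul, ← integral_const_mul, ← integral_sub
      ((h.int_h hn ht y x (d + 1)).const_mul _) ((h.int_h2 hn ht y x (d + 2)).const_mul _)]
    refine integral_congr_ae ?_
    filter_upwards with η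
    rw [key_identity ht (x - η) n hn a, hh]
  rw [norm_tang_sq hn]
  unfold Gz
  rw [← ha, ← hx, e1, e3, e4]
  have hne := hv.ne'
  field_simp
  linear_combination (-1 : ℝ) * key

/-! ### bounds -/

lemma ip_diff {q A B : ℝ} (hq : 0 < q) (hA : q ≤ Real.sqrt A) (hB : q ≤ Real.sqrt B) (m : ℕ) :
    |ip m A - ip m B| ≤ m * |A - B| * (q ^ (m + 2))⁻¹ := by
  have hA0 : 0 < Real.sqrt A := hq.trans_le hA
  have hB0 : 0 < Real.sqrt B := hq.trans_le hB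
  have hAp : 0 < A := Real.sqrt_pos.1 hA0
  have hBp : 0 < B := Real.sqrt_pos.1 hB0
  have eA : Real.sqrt A ^ 2 = A := Real.sq_sqrt hAp.le
  have eB : Real.sqrt B ^ 2 = B := Real.sq_sqrt hBp.le
  have key : |(Real.sqrt A)⁻¹ - (Real.sqrt B)⁻¹| ≤ |A - B| * (q ^ 3)⁻¹ := by
    have e1 : (Real.sqrt A)⁻¹ - (Real.sqrt B)⁻¹ =
        -(A - B) * ((Real.sqrt A * Real.sqrt B) * (Real.sqrt A + Real.sqrt B))⁻¹ := by
      have : 0 < Real.sqrt A + Real.sqrt B := by positivity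
      field_simp
      nlinarith
    rw [e1, abs_mul, abs_neg]
    have : |((Real.sqrt A * Real.sqrt B) * (Real.sqrt A + Real.sqrt B))⁻¹| ≤ (q ^ 3)⁻¹ := by
      rw [abs_of_pos (by positivity)]
      have : q ^ 3 ≤ (Real.sqrt A * Real.sqrt B) * (Real.sqrt A + Real.sqrt B) := by
        calc q ^ 3 = (q * q) * (q + 0) := by ring
          _ ≤ _ := by gcongr
      gcongr
    gcongr
  induction m with
  | zero => simp [ip]
  | succ m ih =>
    have e1 : ip (m + 1) A - ip (m + 1) B =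
        (Real.sqrt A)⁻¹ * (ip m A - ip m B) + ip m B * ((Real.sqrt A)⁻¹ - (Real.sqrt B)⁻¹) := by
      unfold ip
      rw [pow_succ, pow_succ, mul_inv, mul_inv]
      ring
    have h1 : (Real.sqrt A)⁻¹ ≤ q⁻¹ := by gcongr
    have h2 : ip m B ≤ (q ^ m)⁻¹ := ip_le m hq hB
    rw [e1]
    calc |(Real.sqrt A)⁻¹ * (ip m A - ip m B) + ip m B * ((Real.sqrt A)⁻¹ - (Real.sqrt B)⁻¹)|
        ≤ |(Real.sqrt A)⁻¹ * (ip m A - ip m B)| + |ip m B * ((Real.sqrt A)⁻¹ - (Real.sqrt B)⁻¹)| :=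
          abs_add_le _ _
      _ = (Real.sqrt A)⁻¹ * |ip m A - ip m B| + ip m B * |(Real.sqrt A)⁻¹ - (Real.sqrt B)⁻¹| := by
          rw [abs_mul, abs_mul, abs_of_pos (inv_pos.2 hA0), abs_of_nonneg (ip_nonneg _ _)]
      _ ≤ q⁻¹ * (m * |A - B| * (q ^ (m + 2))⁻¹) + (q ^ m)⁻¹ * (|A - B| * (q ^ 3)⁻¹) := by
          have := ip_nonneg m B
          gcongr
      _ = _ := by
          push_cast
          field_simp
          ring

/-- comparison with the reflected point: data -/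
structure Refl (n : Sp d) (t : ℝ) (y : Sp d) (a : ℝ) (x x' : Sp d) : Prop where
  hx : ‖x - y‖ ≤ t
  hx' : ‖x' - y‖ ≤ t
  eq : ∀ η : Sp d, ‖x' - η‖ ^ 2 - ‖x - η‖ ^ 2 = 4 * a * t * ⟪η - y, n⟫_ℝ

/-- absolute first moment at y -/
def HH (μ : Measure (Sp d)) (n : Sp d) (t : ℝ) (y : Sp d) : ℝ :=
  ∫ η, |⟪η - y, n⟫_ℝ| * ip (d + 2) (t ^ 2 + ‖y - η‖ ^ 2) ∂μ

lemma Pot.int_habs (h : Pot μ) {n : Sp d} (hn : ‖n‖ = 1) {t : ℝ} (ht : 0 < t) (y x : Sp d)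
    (m : ℕ) : Integrable (fun η => |⟪η - y, n⟫_ℝ| * ip (m + 1) (t ^ 2 + ‖x - η‖ ^ 2)) μ := by
  refine (h.int_h hn ht y x m).abs.congr ?_
  filter_upwards with η
  rw [abs_mul, abs_of_nonneg (ip_nonneg _ _)]

lemma refl_ip_diff {n : Sp d} {t : ℝ} (ht : 0 < t) {y x x' : Sp d} {a : ℝ}
    (hr : Refl n t y a x x') (m : ℕ) (η : Sp d) :
    |ip m (t ^ 2 + ‖x' - η‖ ^ 2) - ip m (t ^ 2 + ‖x - η‖ ^ 2)| ≤
      m * (4 * |a| * t * |⟪η - y, n⟫_ℝ|) * (2 ^ (m + 2) * ip (m + 2) (t ^ 2 + ‖y - η‖ ^ 2)) := by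
  have hy : 0 < Real.sqrt (t ^ 2 + ‖y - η‖ ^ 2) := Real.sqrt_pos.2 (by positivity)
  have h1 : Real.sqrt (t ^ 2 + ‖y - η‖ ^ 2) / 2 ≤ Real.sqrt (t ^ 2 + ‖x - η‖ ^ 2) := by
    have := sqrt_comp ht (x := y) (y := x) (by rw [norm_sub_rev]; exact hr.hx) η
    linarith
  have h2 : Real.sqrt (t ^ 2 + ‖y - η‖ ^ 2) / 2 ≤ Real.sqrt (t ^ 2 + ‖x' - η‖ ^ 2) := by
    have := sqrt_comp ht (x := y) (y := x') (by rw [norm_sub_rev]; exact hr.hx') η
    linarith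
  have h3 := ip_diff (by positivity) h2 h1 m
  have e1 : |t ^ 2 + ‖x' - η‖ ^ 2 - (t ^ 2 + ‖x - η‖ ^ 2)| = 4 * |a| * t * |⟪η - y, n⟫_ℝ| := by
    rw [add_sub_add_left_eq_sub, hr.eq, abs_mul, abs_mul, abs_mul, abs_of_pos ht]
    norm_num
  have e2 : ((Real.sqrt (t ^ 2 + ‖y - η‖ ^ 2) / 2) ^ (m + 2))⁻¹ =
      2 ^ (m + 2) * ip (m + 2) (t ^ 2 + ‖y - η‖ ^ 2) := by
    unfold ip
    rw [div_pow, inv_div, div_eq_mul_inv]
  rw [e1, e2] at h3
  exact h3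

lemma th_eq {t : ℝ} (x : Sp d) :
    th μ t x = t * ∫ η, ip d (t ^ 2 + ‖x - η‖ ^ 2) ∂μ := by
  unfold th kk ip
  rw [← integral_const_mul]
  rfl

lemma Pot.b1 (h : Pot μ) {n : Sp d} (hn : ‖n‖ = 1) {t : ℝ} (ht : 0 < t) {y x x' : Sp d} {a : ℝ}
    (hr : Refl n t y a x x') :
    |J2 μ n t y x' - J2 μ n t y x| ≤ (d + 2) * 4 * |a| * t * 2 ^ (d + 4) * J4 μ n t y y := by
  unfold J2 J4
  rw [← integral_sub (h.int_h hn ht y x' (d + 1)) (h.int_h hn ht y x (d + 1)),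
    ← integral_const_mul]
  refine (abs_integral_le_integral_abs).trans ?_
  refine integral_mono_of_nonneg (Eventually.of_forall fun η => abs_nonneg _)
    ((h.int_h2 hn ht y y (d + 2)).const_mul _) (Eventually.of_forall fun η => ?_)
  simp only
  rw [← mul_sub, abs_mul]
  have h1 := refl_ip_diff ht hr (d + 2) η
  calc |⟪η - y, n⟫_ℝ| * |ip (d + 2) (t ^ 2 + ‖x' - η‖ ^ 2) - ip (d + 2) (t ^ 2 + ‖x - η‖ ^ 2)|
      ≤ |⟪η - y, n⟫_ℝ| * (((d + 2 : ℕ) : ℝ) * (4 * |a| * t * |⟪η - y, n⟫_ℝ|)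
        * (2 ^ (d + 2 + 2) * ip (d + 2 + 2) (t ^ 2 + ‖y - η‖ ^ 2))) := by gcongr
    _ = (d + 2) * 4 * |a| * t * 2 ^ (d + 4) *
        (|⟪η - y, n⟫_ℝ| ^ 2 * ip (d + 4) (t ^ 2 + ‖y - η‖ ^ 2)) := by push_cast; ring
    _ = _ := by rw [sq_abs]

lemma Pot.b2 (h : Pot μ) {n : Sp d} (hn : ‖n‖ = 1) {t : ℝ} (ht : 0 < t) {y x x' : Sp d} {a : ℝ}
    (hr : Refl n t y a x x') :
    |th μ t x' - th μ t x| ≤ t * (d * 4 * |a| * t * 2 ^ (d + 2) * HH μ n t y) := by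
  rw [th_eq, th_eq, ← mul_sub, abs_mul, abs_of_pos ht]
  gcongr
  unfold HH
  rw [← integral_sub (h.int_ip ht d x') (h.int_ip ht d x), ← integral_const_mul]
  refine (abs_integral_le_integral_abs).trans ?_
  refine integral_mono_of_nonneg (Eventually.of_forall fun η => abs_nonneg _)
    ((h.int_habs hn ht y y (d + 1)).const_mul _) (Eventually.of_forall fun η => ?_)
  refine (refl_ip_diff ht hr d η).trans (le_of_eq ?_)
  ring

lemma Pot.b3 (h : Pot μ) {n : Sp d} (hn : ‖n‖ = 1) {t : ℝ} (ht : 0 < t) {y x : Sp d}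
    (hx : ‖x - y‖ ≤ t) : |J2 μ n t y x| ≤ 2 ^ (d + 2) * HH μ n t y := by
  unfold J2 HH
  rw [← integral_const_mul]
  refine (abs_integral_le_integral_abs).trans ?_
  refine integral_mono_of_nonneg (Eventually.of_forall fun η => abs_nonneg _)
    ((h.int_habs hn ht y y (d + 1)).const_mul _) (Eventually.of_forall fun η => ?_)
  simp only
  rw [abs_mul, abs_of_nonneg (ip_nonneg _ _)]
  have := ip_comp ht (x := y) (y := x) (by rw [norm_sub_rev]; exact hx) (d + 2) η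
  calc |⟪η - y, n⟫_ℝ| * ip (d + 2) (t ^ 2 + ‖x - η‖ ^ 2)
      ≤ |⟪η - y, n⟫_ℝ| * (2 ^ (d + 2) * ip (d + 2) (t ^ 2 + ‖y - η‖ ^ 2)) := by gcongr
    _ = _ := by ring

lemma J4_nonneg (n : Sp d) (t : ℝ) (y x : Sp d) : 0 ≤ J4 μ n t y x :=
  integral_nonneg fun _ => mul_nonneg (sq_nonneg _) (ip_nonneg _ _)

lemma HH_nonneg (n : Sp d) (t : ℝ) (y : Sp d) : 0 ≤ HH μ n t y :=
  integral_nonneg fun _ => mul_nonneg (abs_nonneg _) (ip_nonneg _ _)

lemma Pot.b5 (h : Pot μ) {n : Sp d} (hn : ‖n‖ = 1) {t : ℝ} (ht : 0 < t) {y x : Sp d}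
    (hx : ‖x - y‖ ≤ t) : J4 μ n t y y ≤ 2 ^ (d + 4) * J4 μ n t y x := by
  unfold J4
  rw [← integral_const_mul]
  refine integral_mono_of_nonneg
    (Eventually.of_forall fun η => mul_nonneg (sq_nonneg _) (ip_nonneg _ _))
    ((h.int_h2 hn ht y x (d + 2)).const_mul _) (Eventually.of_forall fun η => ?_)
  simp only
  have := ip_comp ht hx (d + 4) η
  calc ⟪η - y, n⟫_ℝ ^ 2 * ip (d + 4) (t ^ 2 + ‖y - η‖ ^ 2)
      ≤ ⟪η - y, n⟫_ℝ ^ 2 * (2 ^ (d + 4) * ip (d + 4) (t ^ 2 + ‖x - η‖ ^ 2)) := by gcongr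
    _ = _ := by ring

lemma Pot.b4 (h : Pot μ) {n : Sp d} (hn : ‖n‖ = 1) {t : ℝ} (ht : 0 < t) (y : Sp d) :
    t * HH μ n t y ^ 2 ≤ th μ t y * J4 μ n t y y := by
  set I0 := ∫ η, ip d (t ^ 2 + ‖y - η‖ ^ 2) ∂μ with hI0
  have hth : th μ t y = t * I0 := th_eq y
  have hI0p : 0 < I0 := by
    have := h.pos t y ht
    rw [hth] at this
    exact (pos_iff_pos_of_mul_pos this).1 ht
  -- quadratic form
  have hq : ∀ l : ℝ, 0 ≤ l ^ 2 * I0 - 2 * l * HH μ n t y + J4 μ n t y y := by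
    intro l
    have e : l ^ 2 * I0 - 2 * l * HH μ n t y + J4 μ n t y y =
        ∫ η, (l ^ 2 * ip d (t ^ 2 + ‖y - η‖ ^ 2)
          - 2 * l * (|⟪η - y, n⟫_ℝ| * ip (d + 2) (t ^ 2 + ‖y - η‖ ^ 2))
          + ⟪η - y, n⟫_ℝ ^ 2 * ip (d + 4) (t ^ 2 + ‖y - η‖ ^ 2)) ∂μ := by
      have i1 : Integrable (fun η => l ^ 2 * ip d (t ^ 2 + ‖y - η‖ ^ 2)) μ :=
        (h.int_ip ht d y).const_mul (l ^ 2)
      have i2 : Integrable (fun η =>
          2 * l * (|⟪η - y, n⟫_ℝ| * ip (d + 2) (t ^ 2 + ‖y - η‖ ^ 2))) μ :=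
        (h.int_habs hn ht y y (d + 1)).const_mul (2 * l)
      have i3 : Integrable (fun η => ⟪η - y, n⟫_ℝ ^ 2 * ip (d + 4) (t ^ 2 + ‖y - η‖ ^ 2)) μ :=
        h.int_h2 hn ht y y (d + 2)
      have i12 : Integrable (fun η => l ^ 2 * ip d (t ^ 2 + ‖y - η‖ ^ 2)
          - 2 * l * (|⟪η - y, n⟫_ℝ| * ip (d + 2) (t ^ 2 + ‖y - η‖ ^ 2))) μ := i1.sub i2
      rw [integral_add i12 i3, integral_sub i1 i2, integral_const_mul, integral_const_mul]
      rfl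
    rw [e]
    refine integral_nonneg fun η => ?_
    have hqp : 0 < t ^ 2 + ‖y - η‖ ^ 2 := by positivity
    have e2 := ip_add_two (d + 2) hqp
    have e1 := ip_add_two d hqp
    have hi := ip_nonneg (d + 4) (t ^ 2 + ‖y - η‖ ^ 2)
    have e2' : (t ^ 2 + ‖y - η‖ ^ 2) * ip (d + 4) (t ^ 2 + ‖y - η‖ ^ 2)
        = ip (d + 2) (t ^ 2 + ‖y - η‖ ^ 2) := e2
    set Q := t ^ 2 + ‖y - η‖ ^ 2 with hQ
    show 0 ≤ l ^ 2 * ip d Q - 2 * l * (|⟪η - y, n⟫_ℝ| * ip (d + 2) Q)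
      + ⟪η - y, n⟫_ℝ ^ 2 * ip (d + 4) Q
    rw [← e1, ← e2', ← sq_abs ⟪η - y, n⟫_ℝ]
    have : l ^ 2 * (Q * (Q * ip (d + 4) Q)) - 2 * l * (|⟪η - y, n⟫_ℝ| * (Q * ip (d + 4) Q))
      + |⟪η - y, n⟫_ℝ| ^ 2 * ip (d + 4) Q = (l * Q - |⟪η - y, n⟫_ℝ|) ^ 2 * ip (d + 4) Q := by
      ring
    rw [this]
    positivity
  have h1 := hq (HH μ n t y / I0)
  have h2 : HH μ n t y ^ 2 ≤ I0 * J4 μ n t y y := by
    have e : (HH μ n t y / I0) ^ 2 * I0 - 2 * (HH μ n t y / I0) * HH μ n t y + J4 μ n t y y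
        = (I0 * J4 μ n t y y - HH μ n t y ^ 2) / I0 := by
      field_simp
      ring
    rw [e] at h1
    have := (div_nonneg_iff.1 h1)
    rcases this with ⟨h3, _⟩ | ⟨_, h3⟩
    · linarith
    · linarith
  rw [hth]
  nlinarith

/-- the remaining part of the integrand -/
def Bz (ε : ℝ) (μ : Measure (Sp d)) (n : Sp d) (t : ℝ) (y z : Sp d) : ℝ :=
  ((dtv μ t (y + (ε * t) • z)
      + ε * ⟪z, n⟫_ℝ * ⟪gradient (vv μ t) (y + (ε * t) • z), n⟫_ℝ) ^ 2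
    + (1 + (ε * ⟪z, n⟫_ℝ) ^ 2) * ‖tang n (gradient (vv μ t) (y + (ε * t) • z))‖ ^ 2)
    / vv μ t (y + (ε * t) • z)

/-- the constant of the lower bound -/
def c1 (d : ℕ) : ℝ := ((2 : ℝ) ^ (2 * d + 2))⁻¹

/-- the constant of the error -/
def cc (d : ℕ) : ℝ := d * ((d + 2) * 2 ^ (d + 6) + d * 2 ^ (3 * d + 6)) * 2 ^ d

lemma Pot.X2_eq (_h : Pot μ) (n : Sp d) {t : ℝ} (ht : 0 < t) (y : Sp d) :
    X2 μ n t y = t * J4 μ n t y y / vv μ t y := by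
  unfold X2 J4
  congr 1
  rw [← integral_const_mul]
  refine integral_congr_ae ?_
  filter_upwards with η
  have hq : 0 < t ^ 2 + ‖y - η‖ ^ 2 := by positivity
  unfold kk ip
  have hs : 0 < Real.sqrt (t ^ 2 + ‖y - η‖ ^ 2) := Real.sqrt_pos.2 hq
  have e : (t ^ 2 + ‖y - η‖ ^ 2) ^ 2 = Real.sqrt (t ^ 2 + ‖y - η‖ ^ 2) ^ 4 := by
    rw [show (4 : ℕ) = 2 * 2 by norm_num, pow_mul, Real.sq_sqrt hq.le]
  rw [e, pow_add]
  field_simp

lemma Pot.har2 (h : Pot μ) {t : ℝ} (ht : 0 < t) {x x' : Sp d} (hx : ‖x - x'‖ ≤ t) :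
    th μ t x' ≤ 2 ^ d * th μ t x := by
  refine (h.har t x x' ht).trans ?_
  have h1 : ‖x - x'‖ / t ≤ 1 := by rw [div_le_one ht]; exact hx
  have h2 := h.pos t x ht
  have h3 : 1 + ‖x - x'‖ / t ≤ 2 := by linarith
  gcongr

lemma Pot.harv (h : Pot μ) {t : ℝ} (ht : 0 < t) {x x' : Sp d} (hx : ‖x - x'‖ ≤ t) :
    vv μ t x' ≤ 2 ^ d * vv μ t x := by
  have h1 := h.har2 ht hx
  have h2 := h.vsq ht x
  have h3 := h.vsq ht x'
  have h4 := h.vpos ht x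
  have h5 : (1 : ℝ) ≤ 2 ^ d := one_le_pow₀ (by norm_num)
  rw [← h2, ← h3] at h1
  have h6 : vv μ t x' ^ 2 ≤ (2 ^ d * vv μ t x) ^ 2 := by
    refine h1.trans ?_
    rw [mul_pow]
    gcongr
    nlinarith
  exact abs_le_of_sq_le_sq' h6 (by positivity) |>.2

lemma Pot.A_ge (h : Pot μ) (hd : 2 ≤ d) {n : Sp d} (hn : ‖n‖ = 1) {t : ℝ} (ht : 0 < t)
    {y x : Sp d} (hx : ‖x - y‖ ≤ t) :
    c1 d * X2 μ n t y ≤ d * (d + 2) / 2 * t / vv μ t x * J4 μ n t y x := by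
  rw [h.X2_eq n ht y]
  have hv := h.vpos ht x
  have hv0 := h.vpos ht y
  have h1 := h.b5 hn ht hx
  have h2 := h.harv ht (x := y) (x' := x) (by rw [norm_sub_rev]; exact hx)
  have h3 := J4_nonneg (μ := μ) n t y y
  have hd' : (2 : ℝ) ≤ d := by exact_mod_cast hd
  have h4 : (4 : ℝ) ≤ d * (d + 2) / 2 := by nlinarith
  have h5 : J4 μ n t y y / 2 ^ (d + 4) ≤ J4 μ n t y x := by
    rw [div_le_iff₀ (by positivity)]; linarith
  have h6 : (2 ^ d * vv μ t y)⁻¹ ≤ (vv μ t x)⁻¹ := by gcongr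
  calc c1 d * (t * J4 μ n t y y / vv μ t y)
      = 4 * t * (2 ^ d * vv μ t y)⁻¹ * (J4 μ n t y y / 2 ^ (d + 4)) := by
        unfold c1
        rw [show 2 * d + 2 = d + d + 2 by ring, pow_add, pow_add, pow_add]
        field_simp
        ring
    _ ≤ d * (d + 2) / 2 * t * (vv μ t x)⁻¹ * J4 μ n t y x := by gcongr
    _ = _ := by rw [div_eq_mul_inv _ (vv μ t x)]

lemma Pot.L_le (h : Pot μ) {n : Sp d} (hn : ‖n‖ = 1) {t : ℝ} (ht : 0 < t)
    {y x x' : Sp d} {a : ℝ} (hr : Refl n t y a x x') :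
    |d * a * (J2 μ n t y x' / vv μ t x' - J2 μ n t y x / vv μ t x)| ≤
      cc d * a ^ 2 * X2 μ n t y := by
  rw [h.X2_eq n ht y]
  have hv := h.vpos ht x
  have hv' := h.vpos ht x'
  have hv0 := h.vpos ht y
  have b1 := h.b1 hn ht hr
  have b2 := h.b2 hn ht hr
  have b3 := h.b3 hn ht hr.hx
  have b4 := h.b4 hn ht y
  have h1 := h.har2 ht (x := x) (x' := y) hr.hx
  have h2 := h.harv ht (x := x') (x' := y) hr.hx'
  rw [← h.vsq ht x, ← h.vsq ht x'] at b2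
  rw [← h.vsq ht y] at b4
  rw [← h.vsq ht x, ← h.vsq ht y] at h1
  have hH := HH_nonneg (μ := μ) n t y
  have hJ := J4_nonneg (μ := μ) n t y y
  set v := vv μ t x
  set v' := vv μ t x'
  set v0 := vv μ t y
  set H := HH μ n t y
  set m := J4 μ n t y y
  set j := J2 μ n t y x
  set j' := J2 μ n t y x'
  have e1 : j' / v' - j / v = (j' - j) / v' + j * (v ^ 2 - v' ^ 2) / (v * v' * (v + v')) := by
    have : v + v' ≠ 0 := by positivity
    field_simp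
    ring
  have s1 : |(j' - j) / v'| ≤ (d + 2) * 2 ^ (d + 6) * |a| * t * m / v' := by
    rw [abs_div, abs_of_pos hv']
    gcongr
    refine b1.trans (le_of_eq ?_)
    rw [pow_add, pow_add]; ring
  have s2 : |j * (v ^ 2 - v' ^ 2) / (v * v' * (v + v'))| ≤ d * 2 ^ (3 * d + 6) * |a| * t * m / v' := by
    rw [abs_div, abs_mul, abs_of_pos (by positivity : 0 < v * v' * (v + v')),
      div_le_div_iff₀ (by positivity) hv']
    have q1 : |v ^ 2 - v' ^ 2| ≤ t * (d * 4 * |a| * t * 2 ^ (d + 2) * H) := by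
      rw [abs_sub_comm]; exact b2
    calc |j| * |v ^ 2 - v' ^ 2| * v'
        ≤ (2 ^ (d + 2) * H) * (t * (d * 4 * |a| * t * 2 ^ (d + 2) * H)) * v' := by gcongr
      _ = 2 ^ (d + 2) * 2 ^ (d + 2) * 4 * d * |a| * t * (t * H ^ 2) * v' := by ring
      _ ≤ 2 ^ (d + 2) * 2 ^ (d + 2) * 4 * d * |a| * t * (v0 ^ 2 * m) * v' := by gcongr
      _ ≤ 2 ^ (d + 2) * 2 ^ (d + 2) * 4 * d * |a| * t * ((2 ^ d * v ^ 2) * m) * v' := by gcongr
      _ = d * 2 ^ (3 * d + 6) * |a| * t * m * (v * v' * (v + 0)) := by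
          rw [show 3 * d + 6 = d + d + d + 6 by ring]
          simp only [pow_add]
          ring
      _ ≤ d * 2 ^ (3 * d + 6) * |a| * t * m * (v * v' * (v + v')) := by gcongr
  have s3 : 1 / v' ≤ 2 ^ d / v0 := by
    rw [div_le_div_iff₀ hv' hv0]; linarith
  calc |d * a * (j' / v' - j / v)|
      = d * |a| * |(j' - j) / v' + j * (v ^ 2 - v' ^ 2) / (v * v' * (v + v'))| := by
        rw [abs_mul, abs_mul, Nat.abs_cast, e1]
    _ ≤ d * |a| * ((d + 2) * 2 ^ (d + 6) * |a| * t * m / v'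
          + d * 2 ^ (3 * d + 6) * |a| * t * m / v') := by
        gcongr
        exact (abs_add_le _ _).trans (add_le_add s1 s2)
    _ = d * ((d + 2) * 2 ^ (d + 6) + d * 2 ^ (3 * d + 6)) * |a| ^ 2 * (t * m) * (1 / v') := by
        ring
    _ ≤ d * ((d + 2) * 2 ^ (d + 6) + d * 2 ^ (3 * d + 6)) * |a| ^ 2 * (t * m) * (2 ^ d / v0) := by
        gcongr
    _ = _ := by
        rw [sq_abs]; unfold cc; ring

lemma cc_pos (hd : 2 ≤ d) : 0 < cc d := by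
  have : (2 : ℝ) ≤ d := by exact_mod_cast hd
  unfold cc
  positivity

lemma X2_nonneg (n : Sp d) (t : ℝ) (y : Sp d) (ht : 0 < t) : 0 ≤ X2 μ n t y := by
  unfold X2
  refine div_nonneg (integral_nonneg fun η => ?_) (Real.sqrt_nonneg _)
  unfold kk
  positivity

/-- the pointwise inequality for a pair of reflected points -/
lemma Pot.pair (h : Pot μ) (hd : 2 ≤ d) {n : Sp d} (hn : ‖n‖ = 1) {t : ℝ} (ht : 0 < t) {ε : ℝ}
    (hε : 0 < ε) (hε1 : ε ≤ 1) (hεc : cc d * ε ≤ c1 d) (y z : Sp d) (hz : ‖z‖ ≤ 1)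
    (hz' : ‖z - (2 * ⟪z, n⟫_ℝ) • n‖ ≤ 1) :
    c1 d * X2 μ n t y + Bz ε μ n t y z + Bz ε μ n t y (z - (2 * ⟪z, n⟫_ℝ) • n) ≤
      Gz ε μ n t y z + Gz ε μ n t y (z - (2 * ⟪z, n⟫_ℝ) • n) := by
  set z' := z - (2 * ⟪z, n⟫_ℝ) • n with hz'def
  have hzn : ⟪z', n⟫_ℝ = -⟪z, n⟫_ℝ := by
    rw [hz'def, inner_sub_left, inner_smul_left, real_inner_self_eq_norm_sq, hn]
    simp only [conj_trivial]
    ring
  have hcl : ∀ w : Sp d, ‖w‖ ≤ 1 → ‖y + (ε * t) • w - y‖ ≤ t := by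
    intro w hw
    rw [add_sub_cancel_left, norm_smul, Real.norm_eq_abs, abs_of_pos (by positivity)]
    calc ε * t * ‖w‖ ≤ 1 * t * 1 := by gcongr
      _ = t := by ring
  have hr : Refl n t y (ε * ⟪z, n⟫_ℝ) (y + (ε * t) • z) (y + (ε * t) • z') := by
    refine ⟨hcl z hz, hcl z' hz', fun η => ?_⟩
    have e1 : y + (ε * t) • z' - η = (y + (ε * t) • z - η) - (2 * (ε * ⟪z, n⟫_ℝ) * t) • n := by
      rw [hz'def, smul_sub, smul_smul]
      rw [show ε * t * (2 * ⟪z, n⟫_ℝ) = 2 * (ε * ⟪z, n⟫_ℝ) * t by ring]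
      abel
    have e2 : ⟪y + (ε * t) • z - η, n⟫_ℝ = ε * t * ⟪z, n⟫_ℝ - ⟪η - y, n⟫_ℝ := by
      rw [show y + (ε * t) • z - η = (ε * t) • z - (η - y) by abel, inner_sub_left,
        inner_smul_left]
      simp only [conj_trivial]
    rw [e1, norm_sub_sq_real, inner_smul_right, e2, norm_smul, hn, mul_one, Real.norm_eq_abs,
      sq_abs]
    ring
  have hA := h.A_ge hd hn ht hr.hx
  have hA' := h.A_ge hd hn ht hr.hx'
  have hL := h.L_le hn ht hr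
  have hX := X2_nonneg (μ := μ) n t y ht
  have ha : (ε * ⟪z, n⟫_ℝ) ^ 2 ≤ ε := by
    have h1 : |⟪z, n⟫_ℝ| ≤ 1 := by
      have := abs_real_inner_le_norm z n
      rw [hn, mul_one] at this
      linarith
    have h2 : ⟪z, n⟫_ℝ ^ 2 ≤ 1 := by
      rw [← sq_abs]
      exact pow_le_one₀ (abs_nonneg _) h1
    calc (ε * ⟪z, n⟫_ℝ) ^ 2 = ε * ε * ⟪z, n⟫_ℝ ^ 2 := by ring
      _ ≤ ε * 1 * 1 := by gcongr
      _ = ε := by ring
  have hL2 : cc d * (ε * ⟪z, n⟫_ℝ) ^ 2 * X2 μ n t y ≤ c1 d * X2 μ n t y := by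
    have := cc_pos hd
    gcongr
    calc cc d * (ε * ⟪z, n⟫_ℝ) ^ 2 ≤ cc d * ε := by gcongr
      _ ≤ c1 d := hεc
  rw [h.rep hn ht ε y z, h.rep hn ht ε y z']
  have hB : ((dtv μ t (y + (ε * t) • z)
          + ε * ⟪z, n⟫_ℝ * ⟪gradient (vv μ t) (y + (ε * t) • z), n⟫_ℝ) ^ 2
        + (1 + (ε * ⟪z, n⟫_ℝ) ^ 2) * ‖tang n (gradient (vv μ t) (y + (ε * t) • z))‖ ^ 2)
        / vv μ t (y + (ε * t) • z) = Bz ε μ n t y z := rfl
  have hB' : ((dtv μ t (y + (ε * t) • z')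
          + ε * ⟪z', n⟫_ℝ * ⟪gradient (vv μ t) (y + (ε * t) • z'), n⟫_ℝ) ^ 2
        + (1 + (ε * ⟪z', n⟫_ℝ) ^ 2) * ‖tang n (gradient (vv μ t) (y + (ε * t) • z'))‖ ^ 2)
        / vv μ t (y + (ε * t) • z') = Bz ε μ n t y z' := rfl
  rw [hB, hB', hzn]
  have hL3 := (abs_le.1 (hL.trans hL2)).1
  have e5 : d * (ε * ⟪z, n⟫_ℝ) * (J2 μ n t y (y + (ε * t) • z') / vv μ t (y + (ε * t) • z')
      - J2 μ n t y (y + (ε * t) • z) / vv μ t (y + (ε * t) • z)) =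
      -(d * (ε * ⟪z, n⟫_ℝ) / vv μ t (y + (ε * t) • z) * J2 μ n t y (y + (ε * t) • z))
      + -(d * (ε * -⟪z, n⟫_ℝ) / vv μ t (y + (ε * t) • z') * J2 μ n t y (y + (ε * t) • z')) := by
    ring
  linarith

/-! ### continuity and integration -/

lemma continuous_pt (ε t : ℝ) (y : Sp d) : Continuous (fun z : Sp d => y + (ε * t) • z) := by
  fun_prop

lemma Pot.cont_v (h : Pot μ) {t : ℝ} (ht : 0 < t) (ε : ℝ) (y : Sp d) :
    Continuous (fun z : Sp d => vv μ t (y + (ε * t) • z)) :=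
  (h.smoothx ht).continuous.comp (continuous_pt ε t y)

lemma Pot.cont_grad (h : Pot μ) {t : ℝ} (ht : 0 < t) (ε : ℝ) (y : Sp d) :
    Continuous (fun z : Sp d => gradient (vv μ t) (y + (ε * t) • z)) := by
  unfold gradient
  exact (LinearIsometryEquiv.continuous _).comp
    (((h.smoothx ht).continuous_fderiv (by simp)).comp (continuous_pt ε t y))

lemma Pot.cont_fV (h : Pot μ) {t : ℝ} (ht : 0 < t) (ε : ℝ) (y : Sp d) :
    Continuous (fun z : Sp d =>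
      fderiv ℝ (fun p : ℝ × Sp d => vv μ p.1 p.2) (t, y + (ε * t) • z)) := by
  have h1 : ContinuousOn (fderiv ℝ (fun p : ℝ × Sp d => vv μ p.1 p.2)) {p | 0 < p.1} :=
    h.smooth.continuousOn_fderiv_of_isOpen isOpen_half (by simp)
  exact h1.comp_continuous (by fun_prop) (fun z => ht)

lemma Pot.cont_ffV (h : Pot μ) {t : ℝ} (ht : 0 < t) (ε : ℝ) (y : Sp d) :
    Continuous (fun z : Sp d =>
      fderiv ℝ (fderiv ℝ (fun p : ℝ × Sp d => vv μ p.1 p.2)) (t, y + (ε * t) • z)) := by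
  have h0 : ContDiffOn ℝ 1 (fderiv ℝ (fun p : ℝ × Sp d => vv μ p.1 p.2)) {p | 0 < p.1} :=
    h.smooth.fderiv_of_isOpen isOpen_half (by norm_cast)
  have h1 : ContinuousOn (fderiv ℝ (fderiv ℝ (fun p : ℝ × Sp d => vv μ p.1 p.2)))
      {p | 0 < p.1} := h0.continuousOn_fderiv_of_isOpen isOpen_half (by simp)
  exact h1.comp_continuous (by fun_prop) (fun z => ht)

lemma Pot.cont_dtv (h : Pot μ) {t : ℝ} (ht : 0 < t) (ε : ℝ) (y : Sp d) :
    Continuous (fun z : Sp d => dtv μ t (y + (ε * t) • z)) := by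
  have e : ∀ z : Sp d, dtv μ t (y + (ε * t) • z) =
      fderiv ℝ (fun p : ℝ × Sp d => vv μ p.1 p.2) (t, y + (ε * t) • z) (1, 0) := by
    intro z
    rw [h.fderiv_one ht, inner_zero_right, add_zero]
  simp_rw [e]
  exact (h.cont_fV ht ε y).clm_apply continuous_const

lemma Pot.cont_it (h : Pot μ) {t : ℝ} (ht : 0 < t) (ε : ℝ) (y w : Sp d) :
    Continuous (fun z : Sp d => iteratedFDeriv ℝ 2 (vv μ t) (y + (ε * t) • z) (fun _ => w)) := by
  have h1 : Continuous (iteratedFDeriv ℝ 2 (vv μ t)) :=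
    (h.smoothx ht).continuous_iteratedFDeriv (by norm_cast)
  exact (ContinuousMultilinearMap.apply ℝ (fun _ : Fin 2 => Sp d) ℝ (fun _ => w)).continuous.comp
    (h1.comp (continuous_pt ε t y))

lemma Pot.cont_G (h : Pot μ) {t : ℝ} (ht : 0 < t) (ε : ℝ) (n y : Sp d) :
    Continuous (Gz ε μ n t y) := by
  unfold Gz
  have h1 : Continuous (fun z : Sp d =>
      iteratedFDeriv ℝ 2 (fun p : ℝ × Sp d => vv μ p.1 p.2) (t, y + (ε * t) • z)
      (fun _ => ((1 : ℝ), (ε * ⟪z, n⟫_ℝ) • n))) := by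
    simp only [iteratedFDeriv_two_apply]
    exact ((h.cont_ffV ht ε y).clm_apply (by fun_prop)).clm_apply (by fun_prop)
  have h2 : Continuous (fun z : Sp d => lap (vv μ t) (y + (ε * t) • z)) := by
    unfold lap
    exact continuous_finsetSum _ (fun j _ => h.cont_it ht ε y _)
  have h3 : Continuous (fun z : Sp d => d2 n (vv μ t) (y + (ε * t) • z)) := h.cont_it ht ε y n
  have h4 : Continuous (fun z : Sp d => 1 + (ε * ⟪z, n⟫_ℝ) ^ 2) := by fun_prop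
  exact (h1.add (h4.mul (h2.sub h3))).neg

lemma Pot.cont_D (h : Pot μ) {t : ℝ} (ht : 0 < t) (ε : ℝ) (n y : Sp d) :
    Continuous (fun z : Sp d => (dtv μ t (y + (ε * t) • z)
      + ε * ⟪z, n⟫_ℝ * ⟪gradient (vv μ t) (y + (ε * t) • z), n⟫_ℝ) ^ 2
        / vv μ t (y + (ε * t) • z)) := by
  have h1 := h.cont_dtv ht ε y
  have h2 := h.cont_grad ht ε y
  have h3 := h.cont_v ht ε y
  have h4 : Continuous (fun z : Sp d => ε * ⟪z, n⟫_ℝ) := by fun_prop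
  exact ((h1.add (h4.mul (h2.inner continuous_const))).pow 2).div h3
    (fun z => (h.vpos ht _).ne')

lemma Pot.cont_T (h : Pot μ) {t : ℝ} (ht : 0 < t) (ε : ℝ) (n y : Sp d) :
    Continuous (fun z : Sp d => ‖tang n (gradient (vv μ t) (y + (ε * t) • z))‖ ^ 2
        / vv μ t (y + (ε * t) • z)) := by
  have h2 := h.cont_grad ht ε y
  have h3 := h.cont_v ht ε y
  have h5 : Continuous (fun z : Sp d => ⟪n, gradient (vv μ t) (y + (ε * t) • z)⟫_ℝ) :=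
    continuous_const.inner h2
  have h6 : Continuous (fun z : Sp d => tang n (gradient (vv μ t) (y + (ε * t) • z))) := by
    unfold tang
    exact h2.sub (h5.smul continuous_const)
  exact (h6.norm.pow 2).div h3 (fun z => (h.vpos ht _).ne')

lemma Bz_eq (ε : ℝ) (n : Sp d) (t : ℝ) (y z : Sp d) :
    Bz ε μ n t y z = (dtv μ t (y + (ε * t) • z)
      + ε * ⟪z, n⟫_ℝ * ⟪gradient (vv μ t) (y + (ε * t) • z), n⟫_ℝ) ^ 2
        / vv μ t (y + (ε * t) • z) + (1 + (ε * ⟪z, n⟫_ℝ) ^ 2) *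
        (‖tang n (gradient (vv μ t) (y + (ε * t) • z))‖ ^ 2 / vv μ t (y + (ε * t) • z)) := by
  unfold Bz
  ring

lemma Pot.cont_B (h : Pot μ) {t : ℝ} (ht : 0 < t) (ε : ℝ) (n y : Sp d) :
    Continuous (Bz ε μ n t y) := by
  have e : Bz ε μ n t y = fun z => (dtv μ t (y + (ε * t) • z)
      + ε * ⟪z, n⟫_ℝ * ⟪gradient (vv μ t) (y + (ε * t) • z), n⟫_ℝ) ^ 2
        / vv μ t (y + (ε * t) • z) + (1 + (ε * ⟪z, n⟫_ℝ) ^ 2) *
        (‖tang n (gradient (vv μ t) (y + (ε * t) • z))‖ ^ 2 / vv μ t (y + (ε * t) • z)) := by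
    ext z; exact Bz_eq ε n t y z
  rw [e]
  have h4 : Continuous (fun z : Sp d => 1 + (ε * ⟪z, n⟫_ℝ) ^ 2) := by fun_prop
  exact (h.cont_D ht ε n y).add (h4.mul (h.cont_T ht ε n y))

/-- reflection -/
def rf (n : Sp d) : Sp d ≃ₗᵢ[ℝ] Sp d := (Submodule.span ℝ {n})ᗮ.reflection

lemma rf_apply {n : Sp d} (hn : ‖n‖ = 1) (z : Sp d) : rf n z = z - (2 * ⟪z, n⟫_ℝ) • n := by
  unfold rf
  rw [Submodule.reflection_orthogonal_apply, Submodule.reflection_singleton_apply, hn,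
    real_inner_comm]
  simp only [RCLike.ofReal_real_eq_id, id_eq, one_pow, div_one, mul_smul, two_smul]
  abel

lemma int_beta {β : Sp d → ℝ} (hβ : Continuous β) (hs : ∀ x, 1 ≤ ‖x‖ → β x = 0)
    {f : Sp d → ℝ} (hf : Continuous f) : Integrable (fun z => β z * f z) := by
  refine (hβ.mul hf).integrable_of_hasCompactSupport ?_
  refine HasCompactSupport.intro (isCompact_closedBall (0 : Sp d) 1) (fun x hx => ?_)
  rw [mem_closedBall_zero_iff, not_le] at hx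
  simp [hs x hx.le]

theorem main (h : Pot μ) (hd : 2 ≤ d) {J : ℕ} {M : ℝ} {β : Sp d → ℝ} (hK : IsProf J M β)
    {n : Sp d} (hn : ‖n‖ = 1) {t : ℝ} (ht : 0 < t) {ε : ℝ}
    (hε : 0 < ε) (hε1 : ε ≤ 1) (hεc : cc d * ε ≤ c1 d) (y : Sp d) :
    c1 d / 2 * X2 μ n t y + X1 β ε μ n t y + X3 β ε μ n t y ≤ gr β ε μ n t y := by
  have hβ : Continuous β := hK.smooth.continuous
  have hsup := hK.supp
  have hG := h.cont_G ht ε n y
  have hB := h.cont_B ht ε n y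
  have hrc : Continuous (rf n) := (rf n).continuous
  have hβr : ∀ z, β (rf n z) = β z := by
    intro z
    have e : ‖rf n z‖ = ‖z‖ := (rf n).norm_map z
    exact le_antisymm (hK.mono _ _ e.ge) (hK.mono _ _ e.le)
  have hgr : gr β ε μ n t y = ∫ z, β z * Gz ε μ n t y z := by
    unfold gr Gz
    rw [← integral_neg]
    congr 1
    ext z
    ring
  have hrefl : ∀ f : Sp d → ℝ, ∫ z, β z * f (rf n z) = ∫ z, β z * f z := by
    intro f
    have := (rf n).measurePreserving.integral_comp' (f := (rf n).toHomeomorph.toMeasurableEquiv)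
      (fun z => β z * f z)
    rw [← this]
    congr 1
    ext z
    show β z * f (rf n z) = β (rf n z) * f (rf n z)
    rw [hβr]
  have iG := int_beta hβ hsup hG
  have iGr : Integrable (fun z => β z * Gz ε μ n t y (rf n z)) :=
    int_beta hβ hsup (hG.comp hrc)
  have iB := int_beta hβ hsup hB
  have iBr : Integrable (fun z => β z * Bz ε μ n t y (rf n z)) :=
    int_beta hβ hsup (hB.comp hrc)
  have iβ : Integrable β := by
    have := int_beta hβ hsup (continuous_const (y := (1 : ℝ)))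
    simpa using this
  have hpt : ∀ z, β z * (c1 d * X2 μ n t y) + β z * Bz ε μ n t y z + β z * Bz ε μ n t y (rf n z)
      ≤ β z * Gz ε μ n t y z + β z * Gz ε μ n t y (rf n z) := by
    intro z
    rcases le_or_gt 1 ‖z‖ with h1 | h1
    · simp [hsup z h1]
    · have h2 := h.pair hd hn ht hε hε1 hεc y z h1.le
        (by rw [← rf_apply hn, (rf n).norm_map]; exact h1.le)
      rw [← rf_apply hn] at h2
      have := mul_le_mul_of_nonneg_left h2 (hK.nonneg z)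
      linarith
  have hint := integral_mono
    (f := fun z => β z * (c1 d * X2 μ n t y) + β z * Bz ε μ n t y z + β z * Bz ε μ n t y (rf n z))
    (g := fun z => β z * Gz ε μ n t y z + β z * Gz ε μ n t y (rf n z))
    (((iβ.mul_const _).add iB).add iBr) (iG.add iGr) hpt
  have e1 : ∫ z, (β z * Gz ε μ n t y z + β z * Gz ε μ n t y (rf n z)) = 2 * gr β ε μ n t y := by
    rw [integral_add iG iGr, hrefl, hgr]; ring
  have e2 : ∫ z, (β z * (c1 d * X2 μ n t y) + β z * Bz ε μ n t y z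
      + β z * Bz ε μ n t y (rf n z)) = c1 d * X2 μ n t y + 2 * ∫ z, β z * Bz ε μ n t y z := by
    have i1 : Integrable (fun z => β z * (c1 d * X2 μ n t y)) := iβ.mul_const _
    have i12 : Integrable (fun z => β z * (c1 d * X2 μ n t y) + β z * Bz ε μ n t y z) := i1.add iB
    have i3 : Integrable (fun z => β z * Bz ε μ n t y (rf n z)) := iBr
    rw [integral_add i12 i3, integral_add i1 iB, integral_mul_const, hK.int, hrefl]
    ring
  rw [e1, e2] at hint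
  have iD := int_beta hβ hsup (h.cont_D ht ε n y)
  have iT := int_beta hβ hsup (h.cont_T ht ε n y)
  have e3 : X1 β ε μ n t y + X3 β ε μ n t y ≤ ∫ z, β z * Bz ε μ n t y z := by
    unfold X1 X3
    rw [← integral_add iT iD]
    refine integral_mono (iT.add iD) iB (fun z => ?_)
    simp only
    rw [Bz_eq]
    have h1 := hK.nonneg z
    have h2 : 0 ≤ ‖tang n (gradient (vv μ t) (y + (ε * t) • z))‖ ^ 2
        / vv μ t (y + (ε * t) • z) := div_nonneg (sq_nonneg _) (h.vpos ht _).le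
    have h3 : 0 ≤ β z * ((ε * ⟪z, n⟫_ℝ) ^ 2 *
        (‖tang n (gradient (vv μ t) (y + (ε * t) • z))‖ ^ 2
        / vv μ t (y + (ε * t) • z))) := by positivity
    nlinarith
  linarith

end

end GPx

theorem stmtGP (h : StmtTH) : StmtGP := by
  intro d J hd hJ M
  have hcc := GPx.cc_pos hd
  have hc1 : 0 < GPx.c1 d := by unfold GPx.c1; positivity
  have hc1' : GPx.c1 d ≤ 1 := by
    unfold GPx.c1
    exact inv_le_one_of_one_le₀ (one_le_pow₀ (by norm_num))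
  refine ⟨min 1 (GPx.c1 d / GPx.cc d), by positivity, fun ε hε hεle => ⟨GPx.c1 d / 2, by positivity, ?_⟩⟩
  intro β hβ C' μ hC' hμ n hn t y ht1 ht2
  have hpot : GPx.Pot μ := by
    obtain ⟨C, hC, hall⟩ := h d J hd C' hC'
    obtain ⟨a1, a2, a3, a4, a5⟩ := hall μ hμ
    exact ⟨hμ.fin, fun t x ht => (a1 t x ht).1, a2, a4⟩
  have ht : 0 < t := by linarith
  have hε1 : ε ≤ 1 := hεle.trans (min_le_left _ _)
  have hεc : GPx.cc d * ε ≤ GPx.c1 d := by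
    have := hεle.trans (min_le_right _ _)
    rw [le_div_iff₀ hcc] at this
    linarith
  have hmain := GPx.main hpot hd hβ.prof hn ht hε hε1 hεc y
  have hX1 : 0 ≤ X1 β ε μ n t y := by
    unfold X1
    exact integral_nonneg fun z => mul_nonneg (hβ.prof.nonneg z)
      (div_nonneg (sq_nonneg _) (Real.sqrt_nonneg _))
  have hX3 : 0 ≤ X3 β ε μ n t y := by
    unfold X3
    exact integral_nonneg fun z => mul_nonneg (hβ.prof.nonneg z)
      (div_nonneg (sq_nonneg _) (Real.sqrt_nonneg _))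
  nlinarith

end TG
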