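import Pool.Agent.TG.Stmts11
import Pool.Agent.TG.NN
set_option autoImplicit false

/-!
# Module HH: matrix field identities
-/

open MeasureTheory Metric Set TrI Filter
open scoped InnerProductSpace ContDiff Topology

namespace TG

noncomputable section

namespace HH

variable {d : ℕ}

/-- partial derivative -/
def Dp (i : Fin d) (f : Sp d → ℝ) : Sp d → ℝ := fun y => fderiv ℝ f y (bv i)

lemma Dp_smooth {f : Sp d → ℝ} (hf : ContDiff ℝ ∞ f) (i : Fin d) : ContDiff ℝ ∞ (Dp i f) :=
  NN.smooth_fd hf _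

lemma diffAt {f : Sp d → ℝ} (hf : ContDiff ℝ ∞ f) (y : Sp d) : DifferentiableAt ℝ f y :=
  (hf.differentiable (by simp)) y

lemma pd2_eq {g : Sp d → ℝ} (hg : ContDiff ℝ ∞ g) (i j : Fin d) (y : Sp d) :
    pd2 i j g y = Dp i (Dp j g) y := by
  unfold pd2 Dp
  rw [iteratedFDeriv_two_apply, NN.iter2 hg]
  simp

lemma Dp_comm {g : Sp d → ℝ} (hg : ContDiff ℝ ∞ g) (i j : Fin d) :
    Dp i (Dp j g) = Dp j (Dp i g) := by
  funext y
  unfold Dp
  rw [NN.iter2 hg, NN.iter2 hg]
  have hsym : IsSymmSndFDerivAt ℝ g y := by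
    refine ContDiffAt.isSymmSndFDerivAt (n := ∞) hg.contDiffAt ?_
    simp only [minSmoothness_of_isRCLikeNormedField]
    norm_cast
  exact hsym _ _

lemma Dp_add {f g : Sp d → ℝ} (hf : ContDiff ℝ ∞ f) (hg : ContDiff ℝ ∞ g) (i : Fin d) :
    Dp i (fun y => f y + g y) = fun y => Dp i f y + Dp i g y := by
  funext y
  unfold Dp
  rw [fderiv_fun_add (diffAt hf y) (diffAt hg y)]
  rfl

lemma Dp_sub {f g : Sp d → ℝ} (hf : ContDiff ℝ ∞ f) (hg : ContDiff ℝ ∞ g) (i : Fin d) :
    Dp i (fun y => f y - g y) = fun y => Dp i f y - Dp i g y := by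
  funext y
  unfold Dp
  rw [fderiv_fun_sub (diffAt hf y) (diffAt hg y)]
  rfl

lemma Dp_mul {f g : Sp d → ℝ} (hf : ContDiff ℝ ∞ f) (hg : ContDiff ℝ ∞ g) (i : Fin d) :
    Dp i (fun y => f y * g y) = fun y => Dp i f y * g y + f y * Dp i g y := by
  funext y
  unfold Dp
  rw [fderiv_fun_mul (diffAt hf y) (diffAt hg y)]
  simp
  ring

lemma Dp_const_mul {f : Sp d → ℝ} (hf : ContDiff ℝ ∞ f) (c : ℝ) (i : Fin d) :
    Dp i (fun y => c * f y) = fun y => c * Dp i f y := by
  funext y
  unfold Dp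
  rw [fderiv_const_mul (diffAt hf y)]
  simp

lemma Dp_sum {ι : Type*} (I : Finset ι) {f : ι → Sp d → ℝ} (hf : ∀ k, ContDiff ℝ ∞ (f k))
    (i : Fin d) : Dp i (fun y => ∑ k ∈ I, f k y) = fun y => ∑ k ∈ I, Dp i (f k) y := by
  funext y
  unfold Dp
  rw [fderiv_fun_sum (fun k _ => diffAt (hf k) y)]
  simp

lemma Dp_zero (i : Fin d) : Dp i (fun _ : Sp d => (0 : ℝ)) = fun _ => 0 := by
  funext y
  unfold Dp
  simp

/-! ### gradients in coordinates -/

lemma grad_inner (f : Sp d → ℝ) (y w : Sp d) : ⟪gradient f y, w⟫_ℝ = fderiv ℝ f y w := by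
  unfold gradient
  rw [InnerProductSpace.toDual_symm_apply]

lemma coord (w : Sp d) (i : Fin d) : w i = ⟪w, bv i⟫_ℝ := by
  simp [bv, EuclideanSpace.inner_single_right]

lemma grad_coord (f : Sp d → ℝ) (y : Sp d) (i : Fin d) : (gradient f y) i = Dp i f y := by
  rw [coord, grad_inner]
  rfl

lemma inner_sum (v w : Sp d) : ⟪v, w⟫_ℝ = ∑ i, v i * w i := by
  rw [PiLp.inner_apply]
  refine Finset.sum_congr rfl fun i _ => ?_
  simp [mul_comm]

lemma grad_grad (f g : Sp d → ℝ) (y : Sp d) :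
    ⟪gradient f y, gradient g y⟫_ℝ = ∑ i, Dp i f y * Dp i g y := by
  rw [inner_sum]
  refine Finset.sum_congr rfl fun i _ => ?_
  rw [grad_coord, grad_coord]

lemma fderiv_sum (f : Sp d → ℝ) (y w : Sp d) : fderiv ℝ f y w = ∑ i, w i * Dp i f y := by
  rw [← grad_inner, inner_sum]
  refine Finset.sum_congr rfl fun i _ => ?_
  rw [grad_coord, mul_comm]

lemma tang_inner {n : Sp d} (hn : ‖n‖ = 1) (v w : Sp d) :
    ⟪tang n v, tang n w⟫_ℝ = ⟪v, w⟫_ℝ - ⟪n, v⟫_ℝ * ⟪n, w⟫_ℝ := by
  unfold tang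
  have hnn : ⟪n, n⟫_ℝ = 1 := by rw [real_inner_self_eq_norm_sq, hn]; norm_num
  rw [inner_sub_left, inner_sub_right, inner_sub_right, real_inner_smul_left,
    real_inner_smul_right, real_inner_smul_left, real_inner_smul_right, hnn,
    real_inner_comm n v]
  ring

lemma tang_grad {n : Sp d} (hn : ‖n‖ = 1) (f g : Sp d → ℝ) (y : Sp d) :
    ⟪tang n (gradient f y), tang n (gradient g y)⟫_ℝ =
      ∑ i, Dp i f y * Dp i g y - fderiv ℝ f y n * fderiv ℝ g y n := by
  rw [tang_inner hn, grad_grad, real_inner_comm (gradient f y) n, grad_inner,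
    real_inner_comm (gradient g y) n, grad_inner]

lemma lap_sum {g : Sp d → ℝ} (hg : ContDiff ℝ ∞ g) (y : Sp d) :
    lap g y = ∑ i, Dp i (Dp i g) y := NN.lap_eq hg y

lemma d2_eq {g : Sp d → ℝ} (hg : ContDiff ℝ ∞ g) (n y : Sp d) :
    d2 n g y = ∑ i, ∑ j, n i * n j * Dp i (Dp j g) y := by
  unfold d2
  have h1 : iteratedFDeriv ℝ 2 g y (fun _ => n) = fderiv ℝ (fun z => fderiv ℝ g z n) y n := by
    rw [iteratedFDeriv_two_apply, NN.iter2 hg]
  have h2 : (fun z => fderiv ℝ g z n) = fun z => ∑ j, n j * Dp j g z := by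
    funext z
    exact fderiv_sum g z n
  rw [h1, h2, fderiv_sum]
  refine Finset.sum_congr rfl fun i _ => ?_
  have h3 : Dp i (fun z => ∑ j, n j * Dp j g z) = fun z => ∑ j, n j * Dp i (Dp j g) z := by
    rw [Dp_sum _ (fun j => contDiff_const.mul (Dp_smooth hg j))]
    funext z
    refine Finset.sum_congr rfl fun j _ => ?_
    rw [Dp_const_mul (Dp_smooth hg j)]
  rw [h3, Finset.mul_sum]
  refine Finset.sum_congr rfl fun j _ => ?_
  ring

/-! ### linearity of nt -/

lemma NNp_add {b : Sp d → ℝ} (hβ : Continuous (Bp b)) (hs : ∀ x, 1 ≤ ‖x‖ → Bp b x = 0) {R : ℝ}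
    (hR : 0 ≤ R) {f g : Sp d → ℝ} (hf : Continuous f) (hg : Continuous g) (y : Sp d) :
    NNp b R (fun z => f z + g z) y = NNp b R f y + NNp b R g y := by
  have h := NN.NNp_sum hβ hs hR (Finset.univ : Finset (Fin 2)) (g := ![f, g])
    (by intro i; fin_cases i <;> assumption) y
  simpa [Fin.sum_univ_two] using h

lemma NNp_neg {b : Sp d → ℝ} (R : ℝ) (f : Sp d → ℝ) (y : Sp d) :
    NNp b R (fun z => - f z) y = - NNp b R f y := by
  unfold NNp avk
  rw [← intervalIntegral.integral_neg]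
  congr 1
  funext s
  have : ∫ y_1 : Sp d, Bp b y_1 • -f (y + s • y_1) = - ∫ y_1 : Sp d, Bp b y_1 • f (y + s • y_1) := by
    rw [← integral_neg]
    congr 1
    funext z
    simp
  rw [this]
  ring

lemma NNp_zero {b : Sp d → ℝ} (R : ℝ) (y : Sp d) : NNp b R (fun _ => 0) y = 0 := by
  unfold NNp avk
  simp

lemma dd2_eq {F : Fin d → Fin d → Sp d → ℝ} (hF : ∀ i j, ContDiff ℝ ∞ (F i j)) :
    dd2 F = fun x => ∑ i, ∑ j, Dp i (Dp j (F i j)) x := by
  funext x
  unfold dd2
  refine Finset.sum_congr rfl fun i _ => Finset.sum_congr rfl fun j _ => ?_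
  exact pd2_eq (hF i j) i j x

lemma nt_add {b : Sp d → ℝ} (hβ : Continuous (Bp b)) (hs : ∀ x, 1 ≤ ‖x‖ → Bp b x = 0) {R : ℝ}
    (hR : 0 ≤ R) {F G : Fin d → Fin d → Sp d → ℝ} (hF : ∀ i j, ContDiff ℝ ∞ (F i j))
    (hG : ∀ i j, ContDiff ℝ ∞ (G i j)) (y : Sp d) :
    nt b R (fun i j x => F i j x + G i j x) y = nt b R F y + nt b R G y := by
  unfold nt
  have h1 : dd2 (fun i j x => F i j x + G i j x) = fun x => dd2 F x + dd2 G x := by
    rw [dd2_eq (fun i j => (hF i j).add (hG i j)), dd2_eq hF, dd2_eq hG]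
    funext x
    rw [← Finset.sum_add_distrib]
    refine Finset.sum_congr rfl fun i _ => ?_
    rw [← Finset.sum_add_distrib]
    refine Finset.sum_congr rfl fun j _ => ?_
    rw [Dp_add (hF i j) (hG i j), Dp_add (Dp_smooth (hF i j) j) (Dp_smooth (hG i j) j)]
  rw [h1, NNp_add hβ hs hR (NN.dd2_smooth hF).continuous (NN.dd2_smooth hG).continuous]
  ring

lemma nt_neg {b : Sp d → ℝ} (R : ℝ) {F : Fin d → Fin d → Sp d → ℝ}
    (hF : ∀ i j, ContDiff ℝ ∞ (F i j)) (y : Sp d) :
    nt b R (fun i j x => - F i j x) y = - nt b R F y := by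
  unfold nt
  have h1 : dd2 (fun i j x => - F i j x) = fun x => - dd2 F x := by
    rw [dd2_eq (fun i j => (hF i j).neg), dd2_eq hF]
    funext x
    rw [← Finset.sum_neg_distrib]
    refine Finset.sum_congr rfl fun i _ => ?_
    rw [← Finset.sum_neg_distrib]
    refine Finset.sum_congr rfl fun j _ => ?_
    have e : ∀ {f : Sp d → ℝ} (k : Fin d), Dp k (fun y => - f y) = fun y => - Dp k f y := by
      intro f k
      funext y
      unfold Dp
      rw [fderiv_fun_neg]
      rfl
    rw [e, e]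
  rw [h1, NNp_neg]

/-! ### the field sym DY - (div Y) I is annihilated -/

/-- the field sym DY - (div Y) I -/
def Fd (Y : Fin d → Sp d → ℝ) (i j : Fin d) (x : Sp d) : ℝ :=
  1 / 2 * (Dp i (Y j) x + Dp j (Y i) x) - (if i = j then ∑ k, Dp k (Y k) x else 0)

lemma Fd_smooth {Y : Fin d → Sp d → ℝ} (hY : ∀ i, ContDiff ℝ ∞ (Y i)) (i j : Fin d) :
    ContDiff ℝ ∞ (Fd Y i j) := by
  unfold Fd
  have h1 : ContDiff ℝ ∞ (fun x => 1 / 2 * (Dp i (Y j) x + Dp j (Y i) x)) :=
    contDiff_const.mul ((Dp_smooth (hY j) i).add (Dp_smooth (hY i) j))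
  by_cases hij : i = j
  · simp only [hij, if_true]
    subst hij
    exact h1.sub (ContDiff.sum fun k _ => Dp_smooth (hY k) k)
  · simp only [hij, if_false, sub_zero]
    exact h1

lemma dd2_Fd {Y : Fin d → Sp d → ℝ} (hY : ∀ i, ContDiff ℝ ∞ (Y i)) :
    dd2 (Fd Y) = fun _ => 0 := by
  rw [dd2_eq (Fd_smooth hY)]
  funext x
  have hdiv : ContDiff ℝ ∞ (fun x => ∑ k, Dp k (Y k) x) :=
    ContDiff.sum fun k _ => Dp_smooth (hY k) k
  have h1 : ∀ i j, Dp i (Dp j (Fd Y i j)) x =
      1 / 2 * (Dp i (Dp j (Dp i (Y j))) x + Dp i (Dp j (Dp j (Y i))) x) -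
        (if i = j then Dp i (Dp i (fun x => ∑ k, Dp k (Y k) x)) x else 0) := by
    intro i j
    have hs1 := Dp_smooth (hY j) i
    have hs2 := Dp_smooth (hY i) j
    by_cases hij : i = j
    · subst hij
      have e : Fd Y i i = fun x => 1 / 2 * (Dp i (Y i) x + Dp i (Y i) x) -
          ∑ k, Dp k (Y k) x := by
        funext z
        simp [Fd]
      rw [e, Dp_sub (contDiff_const.mul (hs1.add hs2)) hdiv,
        Dp_const_mul (hs1.add hs2), Dp_add hs1 hs2,
        Dp_sub (contDiff_const.mul ((Dp_smooth hs1 i).add (Dp_smooth hs2 i))) (Dp_smooth hdiv i),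
        Dp_const_mul ((Dp_smooth hs1 i).add (Dp_smooth hs2 i)),
        Dp_add (Dp_smooth hs1 i) (Dp_smooth hs2 i)]
      simp
    · have e : Fd Y i j = fun x => 1 / 2 * (Dp i (Y j) x + Dp j (Y i) x) := by
        funext z
        simp [Fd, hij]
      rw [e, Dp_const_mul (hs1.add hs2), Dp_add hs1 hs2,
        Dp_const_mul ((Dp_smooth hs1 j).add (Dp_smooth hs2 j)),
        Dp_add (Dp_smooth hs1 j) (Dp_smooth hs2 j)]
      simp [hij]
  simp only [h1, Finset.sum_sub_distrib, Finset.sum_ite_eq, Finset.mem_univ, if_true]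
  have h2 : ∀ i, Dp i (Dp i (fun x => ∑ k, Dp k (Y k) x)) x =
      ∑ k, Dp i (Dp i (Dp k (Y k))) x := by
    intro i
    rw [Dp_sum _ (fun k => Dp_smooth (hY k) k),
      Dp_sum _ (fun k => Dp_smooth (Dp_smooth (hY k) k) i)]
  simp only [h2]
  have h3 : ∀ i j, Dp i (Dp j (Dp i (Y j))) x = Dp i (Dp i (Dp j (Y j))) x := by
    intro i j
    rw [Dp_comm (hY j) j i]
  have h4 : ∀ i j, Dp i (Dp j (Dp j (Y i))) x = Dp j (Dp j (Dp i (Y i))) x := by
    intro i j
    rw [Dp_comm (Dp_smooth (hY i) j) i j, Dp_comm (hY i) i j]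
  have h34 : ∑ i, ∑ j, (1 / 2 * (Dp i (Dp j (Dp i (Y j))) x + Dp i (Dp j (Dp j (Y i))) x)) =
      ∑ i, ∑ j, (1 / 2 * (Dp i (Dp i (Dp j (Y j))) x + Dp j (Dp j (Dp i (Y i))) x)) :=
    Finset.sum_congr rfl fun i _ => Finset.sum_congr rfl fun j _ => by rw [h3, h4]
  rw [h34]
  have h5 : ∑ i, ∑ j, (1 / 2 * (Dp i (Dp i (Dp j (Y j))) x + Dp j (Dp j (Dp i (Y i))) x)) =
      ∑ i, ∑ j, Dp i (Dp i (Dp j (Y j))) x := by
    have e1 : ∑ i, ∑ j, (1 / 2 * (Dp i (Dp i (Dp j (Y j))) x + Dp j (Dp j (Dp i (Y i))) x)) =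
        1 / 2 * (∑ i, ∑ j, Dp i (Dp i (Dp j (Y j))) x) +
        1 / 2 * (∑ i, ∑ j, Dp j (Dp j (Dp i (Y i))) x) := by
      rw [Finset.mul_sum, Finset.mul_sum, ← Finset.sum_add_distrib]
      refine Finset.sum_congr rfl fun i _ => ?_
      rw [Finset.mul_sum, Finset.mul_sum, ← Finset.sum_add_distrib]
      refine Finset.sum_congr rfl fun j _ => ?_
      ring
    have e2 : ∑ i, ∑ j, Dp j (Dp j (Dp i (Y i))) x = ∑ i, ∑ j, Dp i (Dp i (Dp j (Y j))) x := by
      rw [Finset.sum_comm]
    rw [e1, e2]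
    ring
  rw [h5]
  ring

lemma nt_Fd {b : Sp d → ℝ} (R : ℝ) {Y : Fin d → Sp d → ℝ} (hY : ∀ i, ContDiff ℝ ∞ (Y i))
    (y : Sp d) : nt b R (Fd Y) y = 0 := by
  unfold nt
  rw [dd2_Fd hY, NNp_zero]
  simp

end HH

open HH in
theorem stmtHH (hUB : StmtUB) (hNN : StmtNN) : StmtHH := by
  intro d hd M C' ε p0 A hC' hε hε1 hp0 hp01 hA β hβ μ hμ
  obtain ⟨C, hC, hUB'⟩ := hUB d 0 hd M C' ε p0 A hC' hε hε1 hp0 hp01 hA
  have hβ4 : Kit 4 M β := by
    constructor
    · have hp := hβ.prof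
      exact ⟨hp.smooth.of_le (by norm_num), hp.nonneg, hp.mono, hp.supp, hp.int,
        fun j hj => hp.der j (by omega)⟩
    · exact hβ.smooth1.of_le (by norm_num)
    · exact hβ.smooth2.of_le (by norm_num)
    · exact hβ.supp1
    · exact hβ.supp2
    · exact hβ.grad1
    · exact hβ.grad2
    · exact hβ.nonneg1
    · exact hβ.nonneg2
    · exact hβ.le1
    · exact hβ.le2
    · exact hβ.mono1
    · exact hβ.mono2
    · exact fun j hj => hβ.der1 j (by omega)
    · exact fun j hj => hβ.der2 j (by omega)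
  obtain ⟨hW, hG, -, -, -, -, -, hU, -, -, -, -⟩ := hUB' β hβ4 μ hμ
  -- abbreviations
  set W := WW β ε μ 1 with hWd
  set G := GG β ε μ 1 with hGd
  set U := Ups p0 A μ 1 with hUd
  refine ⟨fun n hn y => ?_, fun n hn χ hχ y => ?_, fun b Mb cb hb R hR χ hχ hχc y => ?_⟩
  · -- the quadratic form
    have hnn : ∑ i, n i * n i = 1 := by
      rw [← inner_sum, real_inner_self_eq_norm_sq, hn]
      norm_num
    have e1 : ∀ i j, n i * n j * HHm β ε p0 A μ i j y =
        (if i = j then n i * n j * (U y * (G y - lap W y) + (1 - U y) * G y -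
          ⟪gradient U y, gradient W y⟫_ℝ) else 0) + U y * (n i * n j * Dp i (Dp j W) y) +
          1 / 2 * ((n i * Dp i U y) * (n j * Dp j W y) + (n j * Dp j U y) * (n i * Dp i W y)) := by
      intro i j
      have hp : pd2 i j W y = Dp i (Dp j W) y := pd2_eq hW i j y
      unfold HHm
      rw [← hWd, ← hGd, ← hUd, hp]
      unfold Dp
      by_cases hij : i = j
      · simp only [hij, if_true]
        ring
      · simp only [hij, if_false]
        ring
    simp only [e1, Finset.sum_add_distrib, Finset.sum_ite_eq, Finset.mem_univ, if_true]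
    have e2 : ∑ i, n i * n i * (U y * (G y - lap W y) + (1 - U y) * G y -
          ⟪gradient U y, gradient W y⟫_ℝ) = U y * (G y - lap W y) + (1 - U y) * G y -
          ⟪gradient U y, gradient W y⟫_ℝ := by
      rw [← Finset.sum_mul, hnn, one_mul]
    have e3 : ∑ i, ∑ j, U y * (n i * n j * Dp i (Dp j W) y) = U y * d2 n W y := by
      rw [d2_eq hW, Finset.mul_sum]
      refine Finset.sum_congr rfl fun i _ => ?_
      rw [Finset.mul_sum]
    have e4 : ∑ i, ∑ j, 1 / 2 * ((n i * Dp i U y) * (n j * Dp j W y) +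
        (n j * Dp j U y) * (n i * Dp i W y)) = fderiv ℝ U y n * fderiv ℝ W y n := by
      rw [fderiv_sum U y n, fderiv_sum W y n, Finset.sum_mul_sum]
      have h5 : ∑ i, ∑ j, (n j * Dp j U y) * (n i * Dp i W y) =
          ∑ i, ∑ j, (n i * Dp i U y) * (n j * Dp j W y) := Finset.sum_comm
      have h6 : ∑ i, ∑ j, 1 / 2 * ((n i * Dp i U y) * (n j * Dp j W y) +
          (n j * Dp j U y) * (n i * Dp i W y)) =
          1 / 2 * (∑ i, ∑ j, (n i * Dp i U y) * (n j * Dp j W y)) +
          1 / 2 * (∑ i, ∑ j, (n j * Dp j U y) * (n i * Dp i W y)) := by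
        rw [Finset.mul_sum, Finset.mul_sum, ← Finset.sum_add_distrib]
        refine Finset.sum_congr rfl fun i _ => ?_
        rw [Finset.mul_sum, Finset.mul_sum, ← Finset.sum_add_distrib]
        refine Finset.sum_congr rfl fun j _ => ?_
        ring
      rw [h6, h5]
      ring
    rw [e2, e3, e4]
    unfold Hn gn
    rw [← hWd, ← hGd, ← hUd, tang_grad hn, grad_grad]
    ring
  · -- the tangential divergence
    have hχU : ContDiff ℝ ∞ (fun y => χ y * U y) := hχ.mul hU
    have hdn : ContDiff ℝ ∞ (fun y => fderiv ℝ W y n) := NN.smooth_fd hW n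
    have hcoord : ∀ j, (fun y => χ y * Ups p0 A μ 1 y * (tang n (gradient (WW β ε μ 1) y)) j) =
        fun y => (χ y * U y) * (Dp j W y - n j * fderiv ℝ W y n) := by
      intro j
      funext z
      have : (tang n (gradient (WW β ε μ 1) z)) j = Dp j W z - n j * fderiv ℝ W z n := by
        unfold tang
        rw [real_inner_comm, grad_inner, PiLp.sub_apply, PiLp.smul_apply, grad_coord]
        simp only [smul_eq_mul]
        ring
      rw [this]
    have hdv : dvT χ β ε p0 A μ n y = ∑ j, (Dp j (fun y => χ y * U y) y *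
        (Dp j W y - n j * fderiv ℝ W y n) + (χ y * U y) *
        (Dp j (Dp j W) y - n j * Dp j (fun y => fderiv ℝ W y n) y)) := by
      unfold dvT
      refine Finset.sum_congr rfl fun j _ => ?_
      rw [hcoord j]
      have h1 : ContDiff ℝ ∞ (fun y => Dp j W y - n j * fderiv ℝ W y n) :=
        (Dp_smooth hW j).sub (contDiff_const.mul hdn)
      have h2 := congrFun (Dp_mul hχU h1 j) y
      have h3 := congrFun (Dp_sub (Dp_smooth hW j) (contDiff_const.mul hdn) j : Dp j
        (fun y => Dp j W y - n j * fderiv ℝ W y n) = _) y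
      have h4 := congrFun (Dp_const_mul hdn (n j) j) y
      have h5 : fderiv ℝ (fun y => (χ y * U y) * (Dp j W y - n j * fderiv ℝ W y n)) y
          (EuclideanSpace.single j (1 : ℝ)) =
          Dp j (fun y => (χ y * U y) * (Dp j W y - n j * fderiv ℝ W y n)) y := rfl
      rw [h5, h2, h3, h4]
    have hs1 : ∑ j, Dp j (fun y => χ y * U y) y * (Dp j W y - n j * fderiv ℝ W y n) =
        (U y * ∑ j, Dp j χ y * Dp j W y) + (χ y * ∑ j, Dp j U y * Dp j W y) -
          fderiv ℝ W y n * (U y * fderiv ℝ χ y n + χ y * fderiv ℝ U y n) := by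
      rw [fderiv_sum χ y n, fderiv_sum U y n]
      simp only [Finset.mul_sum, ← Finset.sum_add_distrib, ← Finset.sum_sub_distrib]
      refine Finset.sum_congr rfl fun j _ => ?_
      rw [Dp_mul hχ hU j]
      ring
    have hs2 : ∑ j, (χ y * U y) * (Dp j (Dp j W) y - n j * Dp j (fun y => fderiv ℝ W y n) y) =
        (χ y * U y) * (lap W y - d2 n W y) := by
      rw [← Finset.mul_sum, Finset.sum_sub_distrib, ← lap_sum hW, ← fderiv_sum
        (fun y => fderiv ℝ W y n) y n]
      congr 2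
      unfold d2
      rw [iteratedFDeriv_two_apply, NN.iter2 hW]
    rw [hdv, Finset.sum_add_distrib, hs1, hs2]
    unfold Hn gn fxA
    rw [← hWd, ← hGd, ← hUd, tang_grad hn, tang_grad hn]
    ring
  · -- the Newton field
    have hk := hb.kit 0
    have hBc : Continuous (Bp b) := hk.smooth1.continuous
    have hb2 : BaseKer 2 Mb cb b := by
      refine ⟨hb.c_pos, hb.smooth.of_le (by norm_num), hb.nonneg, hb.mono, hb.supp, hb.int,
        fun n => ?_, hb.low⟩
      have hkn := hb.kit n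
      constructor
      · have hp := hkn.prof
        exact ⟨hp.smooth.of_le (by norm_num), hp.nonneg, hp.mono, hp.supp, hp.int,
          fun j hj => hp.der j (by omega)⟩
      · exact hkn.smooth1.of_le (by norm_num)
      · exact hkn.smooth2.of_le (by norm_num)
      · exact hkn.supp1
      · exact hkn.supp2
      · exact hkn.grad1
      · exact hkn.grad2
      · exact hkn.nonneg1
      · exact hkn.nonneg2
      · exact hkn.le1
      · exact hkn.le2
      · exact hkn.mono1
      · exact hkn.mono2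
      · exact fun j hj => hkn.der1 j (by omega)
      · exact fun j hj => hkn.der2 j (by omega)
    obtain ⟨-, hnI, -⟩ := hNN d hd Mb cb b hb2 R hR
    -- the four fields
    let Y : Fin d → Sp d → ℝ := fun j z => χ z * U z * Dp j W z
    have hY : ∀ j, ContDiff ℝ ∞ (Y j) := fun j => (hχ.mul hU).mul (Dp_smooth hW j)
    let q : Sp d → ℝ := fun z => U z * ⟪gradient χ z, gradient W z⟫_ℝ
    have hq' : q = fun z => U z * ∑ k, Dp k χ z * Dp k W z := by
      funext z
      show U z * ⟪gradient χ z, gradient W z⟫_ℝ = _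
      rw [grad_grad]
    have hq : ContDiff ℝ ∞ q := by
      rw [hq']
      exact hU.mul (ContDiff.sum fun k _ => (Dp_smooth hχ k).mul (Dp_smooth hW k))
    have hqc : HasCompactSupport q := by
      rw [hq']
      refine HasCompactSupport.mul_left ?_
      exact NN.cs_sum _ fun k => (hχc.fderiv_apply ℝ (bv k)).mul_right
    let g : Sp d → ℝ := fun z => χ z * G z
    have hg : ContDiff ℝ ∞ g := hχ.mul hG
    have hgc : HasCompactSupport g := hχc.mul_right
    let F1 : Fin d → Fin d → Sp d → ℝ := fun i j z => if i = j then g z else 0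
    let F2 : Fin d → Fin d → Sp d → ℝ := fun i j z => if i = j then q z else 0
    let F3 : Fin d → Fin d → Sp d → ℝ := fun i j x => U x * (1 / 2 *
                (fderiv ℝ χ x (bv i) * fderiv ℝ W x (bv j)
                + fderiv ℝ χ x (bv j) * fderiv ℝ W x (bv i)))
    have hI : ∀ {f : Sp d → ℝ}, ContDiff ℝ ∞ f → ∀ i j : Fin d,
        ContDiff ℝ ∞ (fun z => if i = j then f z else 0) := by
      intro f hf i j
      by_cases hij : i = j
      · simp only [hij, if_true]; exact hf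
      · simp only [hij, if_false]; exact contDiff_const
    have hF1 : ∀ i j, ContDiff ℝ ∞ (F1 i j) := hI hg
    have hF2 : ∀ i j, ContDiff ℝ ∞ (F2 i j) := hI hq
    have hF3 : ∀ i j, ContDiff ℝ ∞ (F3 i j) := fun i j =>
      hU.mul (contDiff_const.mul (((Dp_smooth hχ i).mul (Dp_smooth hW j)).add
        ((Dp_smooth hχ j).mul (Dp_smooth hW i))))
    have hF4 : ∀ i j, ContDiff ℝ ∞ (Fd Y i j) := Fd_smooth hY
    have hkey : (fun i j x => χ x * HHm β ε p0 A μ i j x) =
        fun i j x => ((F1 i j x + F2 i j x) + (- F3 i j x)) + Fd Y i j x := by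
      funext i j x
      have hYd : ∀ a b' : Fin d, Dp a (Y b') x = Dp a χ x * U x * Dp b' W x +
          χ x * Dp a U x * Dp b' W x + χ x * U x * Dp a (Dp b' W) x := by
        intro a b'
        have h1 := congrFun (Dp_mul (hχ.mul hU) (Dp_smooth hW b') a) x
        have h2 := congrFun (Dp_mul hχ hU a) x
        have h3 : Dp a (Y b') x = Dp a (fun z => (χ z * U z) * Dp b' W z) x := rfl
        rw [h3, h1, h2]
        ring
      have hdivY : ∑ k, Dp k (Y k) x = q x + χ x * ⟪gradient U x, gradient W x⟫_ℝ +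
          χ x * U x * lap W x := by
        rw [lap_sum hW, grad_grad, hq']
        simp only [hYd, Finset.sum_add_distrib, Finset.mul_sum]
        congr 1
        · congr 1
          · refine Finset.sum_congr rfl fun k _ => ?_
            ring
          · refine Finset.sum_congr rfl fun k _ => ?_
            ring
      have hp : pd2 i j W x = Dp i (Dp j W) x := pd2_eq hW i j x
      have hcm : Dp j (Dp i W) x = Dp i (Dp j W) x := congrFun (Dp_comm hW j i) x
      show χ x * HHm β ε p0 A μ i j x = (((if i = j then g x else 0) +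
        (if i = j then q x else 0)) + (- F3 i j x)) + Fd Y i j x
      unfold Fd HHm
      rw [← hWd, ← hGd, ← hUd, hp, hYd i j, hYd j i, hcm, hdivY]
      show _ = (((if i = j then χ x * G x else 0) +
        (if i = j then q x else 0)) + (- (U x * (1 / 2 *
                (Dp i χ x * Dp j W x + Dp j χ x * Dp i W x))))) + _
      have e1 : fderiv ℝ U x (bv i) = Dp i U x := rfl
      have e2 : fderiv ℝ U x (bv j) = Dp j U x := rfl
      have e3 : fderiv ℝ W x (bv i) = Dp i W x := rfl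
      have e4 : fderiv ℝ W x (bv j) = Dp j W x := rfl
      rw [e1, e2, e3, e4]
      by_cases hij : i = j
      · simp only [hij, if_true]
        ring
      · simp only [hij, if_false]
        ring
    have h1 := nt_add (b := b) hBc hk.supp1 hR.le
      (F := fun i j x => (F1 i j x + F2 i j x) + (- F3 i j x)) (G := Fd Y)
      (fun i j => ((hF1 i j).add (hF2 i j)).add (hF3 i j).neg) hF4 y
    have h2 := nt_add (b := b) hBc hk.supp1 hR.le
      (F := fun i j x => F1 i j x + F2 i j x) (G := fun i j x => - F3 i j x)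
      (fun i j => (hF1 i j).add (hF2 i j)) (fun i j => (hF3 i j).neg) y
    have h3 := nt_add (b := b) hBc hk.supp1 hR.le (F := F1) (G := F2) hF1 hF2 y
    have h4 := nt_neg (b := b) R hF3 y
    have h5 := nt_Fd (b := b) R hY y
    have h6 := hnI g hg hgc y
    have h7 := hnI q hq hqc y
    rw [hkey, h1, h2, h3, h4, h5, h6, h7]
    show χ y * G y = _
    have e1 : g y = χ y * G y := rfl
    have e2 : q y = U y * ⟪gradient χ y, gradient W y⟫_ℝ := rfl
    rw [e1, e2]
    ring

end

end TG
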