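import Pool.Agent.TG.Stmts11
import Pool.Agent.TG.GN

/-!
# Trace inequality, general operators: module HN

Comparison of the gains in two directions, and of the gain functional X.
-/

open MeasureTheory Metric Set TrI
open scoped InnerProductSpace ContDiff

namespace TG

noncomputable section

namespace HNm

variable {d : ℕ}

lemma kit_le {J J' : ℕ} (hJ : J' ≤ J) {M : ℝ} {β : Sp d → ℝ} (h : Kit J M β) : Kit J' M β where
  prof := ⟨h.prof.smooth.of_le (by exact_mod_cast hJ), h.prof.nonneg, h.prof.mono, h.prof.supp,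
    h.prof.int, fun j hj => h.prof.der j (hj.trans hJ)⟩
  smooth1 := h.smooth1.of_le (by exact_mod_cast hJ)
  smooth2 := h.smooth2.of_le (by exact_mod_cast hJ)
  supp1 := h.supp1
  supp2 := h.supp2
  grad1 := h.grad1
  grad2 := h.grad2
  nonneg1 := h.nonneg1
  nonneg2 := h.nonneg2
  le1 := h.le1
  le2 := h.le2
  mono1 := h.mono1
  mono2 := h.mono2
  der1 := fun j hj => h.der1 j (hj.trans hJ)
  der2 := fun j hj => h.der2 j (hj.trans hJ)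

/-! ### quadratic forms -/

/-- a quadratic form -/
def Qf (a : Fin d → Fin d → ℝ) (w : Sp d) : ℝ := ∑ i, ∑ j, w i * w j * a i j

lemma Qf_smul (a : Fin d → Fin d → ℝ) (c : ℝ) (w : Sp d) : Qf a (c • w) = c ^ 2 * Qf a w := by
  unfold Qf
  rw [Finset.mul_sum]
  refine Finset.sum_congr rfl fun i _ => ?_
  rw [Finset.mul_sum]
  refine Finset.sum_congr rfl fun j _ => ?_
  simp only [PiLp.smul_apply, smul_eq_mul]
  ring

lemma Qf_par (a : Fin d → Fin d → ℝ) (u w : Sp d) :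
    Qf a (u + w) + Qf a (u - w) = 2 * Qf a u + 2 * Qf a w := by
  unfold Qf
  rw [Finset.mul_sum, Finset.mul_sum, ← Finset.sum_add_distrib, ← Finset.sum_add_distrib]
  refine Finset.sum_congr rfl fun i _ => ?_
  rw [Finset.mul_sum, Finset.mul_sum, ← Finset.sum_add_distrib, ← Finset.sum_add_distrib]
  refine Finset.sum_congr rfl fun j _ => ?_
  simp only [PiLp.add_apply, PiLp.sub_apply]
  ring

lemma Qf_norm (a : Fin d → Fin d → ℝ) (w : Sp d) (hw : w ≠ 0) :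
    Qf a w = ‖w‖ ^ 2 * Qf a (‖w‖⁻¹ • w) := by
  rw [← Qf_smul, smul_smul, mul_inv_cancel₀ (norm_ne_zero_iff.2 hw), one_smul]

lemma Qf_comp (a : Fin d → Fin d → ℝ) (h0 : ∀ n : Sp d, ‖n‖ = 1 → 0 ≤ Qf a n) {K : ℝ}
    (hK0 : 0 ≤ K) (hK : ∀ n : Sp d, ‖n‖ = 1 → Qf a n ≤ K) (n n' : Sp d) :
    Qf a n ≤ 2 * Qf a n' + 2 * K * ‖n - n'‖ ^ 2 := by
  have hu : ∀ w : Sp d, w ≠ 0 → ‖(‖w‖⁻¹ • w)‖ = 1 := by
    intro w hw
    rw [norm_smul, norm_inv, norm_norm, inv_mul_cancel₀ (norm_ne_zero_iff.2 hw)]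
  have hz : Qf a (0 : Sp d) = 0 := by simp [Qf]
  have h1 : ∀ w : Sp d, 0 ≤ Qf a w := by
    intro w
    by_cases hw : w = 0
    · rw [hw, hz]
    · rw [Qf_norm a w hw]
      exact mul_nonneg (sq_nonneg _) (h0 _ (hu w hw))
  have h2 : ∀ w : Sp d, Qf a w ≤ K * ‖w‖ ^ 2 := by
    intro w
    by_cases hw : w = 0
    · rw [hw, hz]
      positivity
    · rw [Qf_norm a w hw, mul_comm K]
      exact mul_le_mul_of_nonneg_left (hK _ (hu w hw)) (sq_nonneg _)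
  have h3 := Qf_par a n' (n - n')
  rw [show n' + (n - n') = n by abel] at h3
  have h4 := h1 (n' - (n - n'))
  have h5 := h2 (n - n')
  nlinarith

/-! ### pointwise inequalities -/

lemma tang_sq (n n' w : Sp d) (hn : ‖n‖ = 1) (hn' : ‖n'‖ = 1) :
    ‖tang n w‖ ^ 2 ≤ 2 * ‖tang n' w‖ ^ 2 + 8 * ‖n - n'‖ ^ 2 * ‖w‖ ^ 2 := by
  have h1 : tang n w = tang n' w + (⟪n' - n, w⟫_ℝ • n' + ⟪n, w⟫_ℝ • (n' - n)) := by
    unfold tang
    rw [inner_sub_left]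
    module
  have h2 : ‖⟪n' - n, w⟫_ℝ • n' + ⟪n, w⟫_ℝ • (n' - n)‖ ≤ 2 * (‖n - n'‖ * ‖w‖) := by
    refine (norm_add_le _ _).trans ?_
    rw [norm_smul, norm_smul, hn', mul_one, Real.norm_eq_abs, Real.norm_eq_abs]
    have a1 := abs_real_inner_le_norm (n' - n) w
    have a2 := abs_real_inner_le_norm n w
    rw [hn, one_mul] at a2
    rw [norm_sub_rev n n']
    have a3 := mul_le_mul_of_nonneg_right a2 (norm_nonneg (n' - n))
    linarith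
  have h3 : ‖tang n w‖ ≤ ‖tang n' w‖ + 2 * (‖n - n'‖ * ‖w‖) := by
    rw [h1]
    exact (norm_add_le _ _).trans (by linarith)
  have h4 := norm_nonneg (tang n w)
  have h5 : ‖tang n w‖ ^ 2 ≤ (‖tang n' w‖ + 2 * (‖n - n'‖ * ‖w‖)) ^ 2 :=
    pow_le_pow_left₀ h4 h3 2
  nlinarith [sq_nonneg (‖tang n' w‖ - 2 * (‖n - n'‖ * ‖w‖))]

lemma inner_sq (n n' w : Sp d) :
    ⟪w, n⟫_ℝ ^ 2 ≤ 2 * ⟪w, n'⟫_ℝ ^ 2 + 2 * ‖n - n'‖ ^ 2 * ‖w‖ ^ 2 := by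
  have h1 : ⟪w, n⟫_ℝ = ⟪w, n'⟫_ℝ + ⟪w, n - n'⟫_ℝ := by
    rw [inner_sub_right]; ring
  have h2 : ⟪w, n - n'⟫_ℝ ^ 2 ≤ ‖n - n'‖ ^ 2 * ‖w‖ ^ 2 := by
    rw [← sq_abs]
    calc |⟪w, n - n'⟫_ℝ| ^ 2 ≤ (‖w‖ * ‖n - n'‖) ^ 2 :=
          pow_le_pow_left₀ (abs_nonneg _) (abs_real_inner_le_norm _ _) 2
      _ = _ := by ring
  rw [h1]
  nlinarith [sq_nonneg (⟪w, n'⟫_ℝ - ⟪w, n - n'⟫_ℝ)]

lemma ray_sq (n n' z g : Sp d) (a ε : ℝ) (hn : ‖n‖ = 1) (hn' : ‖n'‖ = 1) (hz : ‖z‖ ≤ 1)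
    (hε : 0 ≤ ε) (hε1 : ε ≤ 1) :
    (a + ε * ⟪z, n⟫_ℝ * ⟪g, n⟫_ℝ) ^ 2 ≤
      2 * (a + ε * ⟪z, n'⟫_ℝ * ⟪g, n'⟫_ℝ) ^ 2 + 8 * ‖n - n'‖ ^ 2 * ‖g‖ ^ 2 := by
  set b := ε * (⟪z, n - n'⟫_ℝ * ⟪g, n⟫_ℝ + ⟪z, n'⟫_ℝ * ⟪g, n - n'⟫_ℝ) with hb
  have h1 : a + ε * ⟪z, n⟫_ℝ * ⟪g, n⟫_ℝ = (a + ε * ⟪z, n'⟫_ℝ * ⟪g, n'⟫_ℝ) + b := by
    rw [hb, inner_sub_right, inner_sub_right]; ring
  have h2 : |b| ≤ 2 * (‖n - n'‖ * ‖g‖) := by
    have a1 : |⟪z, n - n'⟫_ℝ * ⟪g, n⟫_ℝ| ≤ ‖n - n'‖ * ‖g‖ := by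
      rw [abs_mul]
      have b1 := abs_real_inner_le_norm z (n - n')
      have b2 := abs_real_inner_le_norm g n
      rw [hn, mul_one] at b2
      have b3 : |⟪z, n - n'⟫_ℝ| ≤ ‖n - n'‖ := b1.trans (by
        have := mul_le_mul_of_nonneg_right hz (norm_nonneg (n - n'))
        linarith)
      exact mul_le_mul b3 b2 (abs_nonneg _) (norm_nonneg _)
    have a2 : |⟪z, n'⟫_ℝ * ⟪g, n - n'⟫_ℝ| ≤ ‖n - n'‖ * ‖g‖ := by
      rw [abs_mul]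
      have b1 := abs_real_inner_le_norm z n'
      rw [hn', mul_one] at b1
      have b2 := abs_real_inner_le_norm g (n - n')
      have b3 := mul_le_mul (b1.trans hz) b2 (abs_nonneg _) zero_le_one
      linarith [mul_comm ‖g‖ ‖n - n'‖]
    rw [hb, abs_mul, abs_of_nonneg hε]
    have a3 := abs_add_le (⟪z, n - n'⟫_ℝ * ⟪g, n⟫_ℝ) (⟪z, n'⟫_ℝ * ⟪g, n - n'⟫_ℝ)
    have a4 : 0 ≤ |⟪z, n - n'⟫_ℝ * ⟪g, n⟫_ℝ + ⟪z, n'⟫_ℝ * ⟪g, n - n'⟫_ℝ| := abs_nonneg _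
    have a5 := mul_le_mul_of_nonneg_right hε1 a4
    linarith
  have h3 : b ^ 2 ≤ (2 * (‖n - n'‖ * ‖g‖)) ^ 2 := by
    rw [← sq_abs]
    exact pow_le_pow_left₀ (abs_nonneg _) h2 2
  rw [h1]
  nlinarith [sq_nonneg ((a + ε * ⟪z, n'⟫_ℝ * ⟪g, n'⟫_ℝ) - b)]

/-! ### integration -/

lemma int_comp {J : ℕ} {M : ℝ} {β : Sp d → ℝ} (hβ : Kit J M β) {F F' : Sp d → ℝ}
    (hF : Continuous F) (hF' : Continuous F') {K : ℝ}
    (h : ∀ z, ‖z‖ ≤ 1 → F z ≤ 2 * F' z + K) :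
    ∫ z, β z * F z ≤ 2 * (∫ z, β z * F' z) + K := by
  have hc : Continuous β := hβ.prof.smooth.continuous
  have hcs : HasCompactSupport β := by
    refine HasCompactSupport.of_support_subset_isCompact (isCompact_closedBall (0 : Sp d) 1) ?_
    intro x hx
    rw [mem_closedBall, dist_zero_right]
    by_contra h1
    push Not at h1
    exact hx (hβ.prof.supp x h1.le)
  have i0 : Integrable β := hc.integrable_of_hasCompactSupport hcs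
  have i1 : Integrable (fun z => β z * F z) :=
    (hc.mul hF).integrable_of_hasCompactSupport hcs.mul_right
  have i2 : Integrable (fun z => β z * F' z) :=
    (hc.mul hF').integrable_of_hasCompactSupport hcs.mul_right
  have h1 : 2 * (∫ z, β z * F' z) + K = ∫ z, (2 * (β z * F' z) + K * β z) := by
    rw [integral_add (i2.const_mul 2) (i0.const_mul K), integral_const_mul, integral_const_mul,
      hβ.prof.int, mul_one]
  rw [h1]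
  refine integral_mono i1 ((i2.const_mul 2).add (i0.const_mul K)) ?_
  intro z
  show β z * F z ≤ 2 * (β z * F' z) + K * β z
  by_cases hz : ‖z‖ ≤ 1
  · have := mul_le_mul_of_nonneg_left (h z hz) (hβ.prof.nonneg z)
    linarith
  · push Not at hz
    rw [hβ.prof.supp z hz.le]
    simp

lemma tav_comp {F F' : ℝ → ℝ} (hF : ContinuousOn F (Icc (1 / 2) 2))
    (hF' : ContinuousOn F' (Icc (1 / 2) 2)) {K : ℝ} (hK : 0 ≤ K)
    (h : ∀ r, 1 / 2 ≤ r → r ≤ 2 → F r ≤ 2 * F' r + K) :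
    ∫ r in (1 / 2 : ℝ)..2, tau 1 r * F r ≤ 2 * (∫ r in (1 / 2 : ℝ)..2, tau 1 r * F' r) + 2 * K := by
  have hle : (1 / 2 : ℝ) ≤ 2 := by norm_num
  have hu : uIcc (1 / 2 : ℝ) 2 = Icc (1 / 2) 2 := uIcc_of_le hle
  have i1 : IntervalIntegrable (fun r => tau 1 r * F r) volume (1 / 2) 2 := by
    refine ContinuousOn.intervalIntegrable ?_
    rw [hu]
    exact (GNaux.tau_cont 1).continuousOn.mul hF
  have i2 : IntervalIntegrable (fun r => tau 1 r * F' r) volume (1 / 2) 2 := by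
    refine ContinuousOn.intervalIntegrable ?_
    rw [hu]
    exact (GNaux.tau_cont 1).continuousOn.mul hF'
  have i3 : IntervalIntegrable (fun _ : ℝ => K) volume (1 / 2) 2 := intervalIntegrable_const
  have h1 : ∫ r in (1 / 2 : ℝ)..2, tau 1 r * F r ≤
      ∫ r in (1 / 2 : ℝ)..2, (2 * (tau 1 r * F' r) + K) := by
    refine intervalIntegral.integral_mono_on hle i1 ((i2.const_mul 2).add i3) ?_
    intro r hr
    have h2 := h r hr.1 hr.2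
    have h3 := GNaux.tau_nonneg 1 r
    have h4 : tau 1 r ≤ 1 := by
      unfold tau
      refine max_le zero_le_one ((min_le_left _ _).trans ?_)
      linarith [hr.2]
    have h5 := mul_le_mul_of_nonneg_left h2 h3
    have h6 := mul_le_mul_of_nonneg_right h4 hK
    linarith
  rw [intervalIntegral.integral_add (i2.const_mul 2) i3, intervalIntegral.integral_const_mul,
    intervalIntegral.integral_const] at h1
  simp only [smul_eq_mul] at h1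
  linarith

/-! ### comparison of the gain functional -/

lemma grad_bd {μ : Measure (Sp d)} {C : ℝ}
    (hsm : ContDiffOn ℝ ∞ (GNaux.VV μ) {p | 0 < p.1})
    (h : ∀ (t : ℝ) (x : Sp d), 0 < t → ‖iteratedFDeriv ℝ 1 (GNaux.VV μ) (t, x)‖ ≤
      C * vv μ t x / t ^ 1) (t : ℝ) (x : Sp d) (ht : 0 < t) :
    ‖gradient (vv μ t) x‖ ≤ C * vv μ t x / t := by
  have h1 := h t x ht
  rw [norm_iteratedFDeriv_one, pow_one] at h1
  refine le_trans ?_ h1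
  rw [gradient, LinearIsometryEquiv.norm_map, GNaux.slice1 μ hsm t ht x]
  refine (ContinuousLinearMap.opNorm_comp_le _ _).trans ?_
  have h2 : ‖ContinuousLinearMap.inr ℝ ℝ (Sp d)‖ ≤ 1 := ContinuousLinearMap.norm_inr_le_one ℝ ℝ (Sp d)
  have h3 := mul_le_mul_of_nonneg_left h2 (norm_nonneg (fderiv ℝ (GNaux.VV μ) (t, x)))
  linarith

lemma slice_cont {E : Type*} [TopologicalSpace E] {F : ℝ × Sp d → E}
    (hF : ContinuousOn F (Ioi (0 : ℝ) ×ˢ (univ : Set (Sp d)))) (r : ℝ) (hr : 0 < r) :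
    Continuous (fun z : Sp d => F (r, z)) :=
  hF.comp_continuous (by fun_prop) fun z => ⟨hr, trivial⟩

lemma cg (μ : Measure (Sp d)) (hsm : ContDiffOn ℝ ∞ (GNaux.VV μ) {p | 0 < p.1}) (ε : ℝ) (y : Sp d)
    (r : ℝ) (hr : 0 < r) : Continuous (fun z : Sp d => gradient (vv μ r) (y + (ε * r) • z)) :=
  slice_cont (GNaux.cont_grad μ hsm ε y) r hr

lemma cd (μ : Measure (Sp d)) (hsm : ContDiffOn ℝ ∞ (GNaux.VV μ) {p | 0 < p.1}) (ε : ℝ) (y : Sp d)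
    (r : ℝ) (hr : 0 < r) : Continuous (fun z : Sp d => dtv μ r (y + (ε * r) • z)) :=
  slice_cont (GNaux.cont_dtv μ hsm ε y) r hr

lemma cv (μ : Measure (Sp d)) (hsm : ContDiffOn ℝ ∞ (GNaux.VV μ) {p | 0 < p.1}) (ε : ℝ) (y : Sp d)
    (r : ℝ) (hr : 0 < r) : Continuous (fun z : Sp d => vv μ r (y + (ε * r) • z)) :=
  slice_cont (GNaux.cont_vv μ hsm ε y) r hr

/-- comparison of the first part -/
lemma c1 {J : ℕ} {M : ℝ} {β : Sp d → ℝ} (hβ : Kit J M β) (μ : Measure (Sp d))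
    (hsm : ContDiffOn ℝ ∞ (GNaux.VV μ) {p | 0 < p.1}) (n n' : Sp d) (hn : ‖n‖ = 1)
    (hn' : ‖n'‖ = 1) (ε : ℝ) (y : Sp d) (r : ℝ) (hr : 0 < r) (hpos : ∀ x, 0 < vv μ r x) (G : ℝ)
    (hG : ∀ z : Sp d, ‖z‖ ≤ 1 → ‖gradient (vv μ r) (y + (ε * r) • z)‖ ^ 2 /
      vv μ r (y + (ε * r) • z) ≤ G) :
    X1 β ε μ n r y ≤ 2 * X1 β ε μ n' r y + 8 * ‖n - n'‖ ^ 2 * G := by
  have key : ∀ m : Sp d, Continuous (fun z : Sp d =>
      ‖tang m (gradient (vv μ r) (y + (ε * r) • z))‖ ^ 2 / vv μ r (y + (ε * r) • z)) := by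
    intro m
    exact (((GNaux.tang_cont m).comp (cg μ hsm ε y r hr)).norm.pow 2).div (cv μ hsm ε y r hr)
      fun z => (hpos _).ne'
  refine int_comp hβ (key n) (key n') ?_
  intro z hz
  have a1 := tang_sq n n' (gradient (vv μ r) (y + (ε * r) • z)) hn hn'
  have a2 := hpos (y + (ε * r) • z)
  have a3 := hG z hz
  have a5 := mul_le_mul_of_nonneg_left a3 (by positivity : 0 ≤ 8 * ‖n - n'‖ ^ 2)
  generalize gradient (vv μ r) (y + (ε * r) • z) = g at *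
  generalize vv μ r (y + (ε * r) • z) = w at *
  have a4 : ‖tang n g‖ ^ 2 / w ≤ (2 * ‖tang n' g‖ ^ 2 + 8 * ‖n - n'‖ ^ 2 * ‖g‖ ^ 2) / w :=
    div_le_div_of_nonneg_right a1 a2.le
  have a6 : (2 * ‖tang n' g‖ ^ 2 + 8 * ‖n - n'‖ ^ 2 * ‖g‖ ^ 2) / w =
      2 * (‖tang n' g‖ ^ 2 / w) + 8 * ‖n - n'‖ ^ 2 * (‖g‖ ^ 2 / w) := by ring
  linarith

/-- comparison of the third part -/
lemma c3 {J : ℕ} {M : ℝ} {β : Sp d → ℝ} (hβ : Kit J M β) (μ : Measure (Sp d))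
    (hsm : ContDiffOn ℝ ∞ (GNaux.VV μ) {p | 0 < p.1}) (n n' : Sp d) (hn : ‖n‖ = 1)
    (hn' : ‖n'‖ = 1) (ε : ℝ) (hε : 0 ≤ ε) (hε1 : ε ≤ 1) (y : Sp d) (r : ℝ) (hr : 0 < r)
    (hpos : ∀ x, 0 < vv μ r x) (G : ℝ)
    (hG : ∀ z : Sp d, ‖z‖ ≤ 1 → ‖gradient (vv μ r) (y + (ε * r) • z)‖ ^ 2 /
      vv μ r (y + (ε * r) • z) ≤ G) :
    X3 β ε μ n r y ≤ 2 * X3 β ε μ n' r y + 8 * ‖n - n'‖ ^ 2 * G := by
  have key : ∀ m : Sp d, Continuous (fun z : Sp d => (dtv μ r (y + (ε * r) • z)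
      + ε * ⟪z, m⟫_ℝ * ⟪gradient (vv μ r) (y + (ε * r) • z), m⟫_ℝ) ^ 2
        / vv μ r (y + (ε * r) • z)) := by
    intro m
    exact Continuous.div (Continuous.pow (Continuous.add (cd μ hsm ε y r hr)
      (Continuous.mul (by fun_prop)
      (Continuous.inner (𝕜 := ℝ) (cg μ hsm ε y r hr) continuous_const))) 2) (cv μ hsm ε y r hr)
      fun z => (hpos _).ne'
  refine int_comp hβ (key n) (key n') ?_
  intro z hz
  have a1 := ray_sq n n' z (gradient (vv μ r) (y + (ε * r) • z)) (dtv μ r (y + (ε * r) • z)) ε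
    hn hn' hz hε hε1
  have a2 := hpos (y + (ε * r) • z)
  have a3 := hG z hz
  have a5 := mul_le_mul_of_nonneg_left a3 (by positivity : 0 ≤ 8 * ‖n - n'‖ ^ 2)
  generalize gradient (vv μ r) (y + (ε * r) • z) = g at *
  generalize vv μ r (y + (ε * r) • z) = w at *
  generalize dtv μ r (y + (ε * r) • z) = a at *
  have a4 : (a + ε * ⟪z, n⟫_ℝ * ⟪g, n⟫_ℝ) ^ 2 / w ≤
      (2 * (a + ε * ⟪z, n'⟫_ℝ * ⟪g, n'⟫_ℝ) ^ 2 + 8 * ‖n - n'‖ ^ 2 * ‖g‖ ^ 2) / w :=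
    div_le_div_of_nonneg_right a1 a2.le
  have a6 : (2 * (a + ε * ⟪z, n'⟫_ℝ * ⟪g, n'⟫_ℝ) ^ 2 + 8 * ‖n - n'‖ ^ 2 * ‖g‖ ^ 2) / w =
      2 * ((a + ε * ⟪z, n'⟫_ℝ * ⟪g, n'⟫_ℝ) ^ 2 / w) + 8 * ‖n - n'‖ ^ 2 * (‖g‖ ^ 2 / w) := by ring
  linarith

/-- the weight in the second part -/
lemma wq (r : ℝ) (hr : 1 / 2 ≤ r) (y η : Sp d) :
    ‖η - y‖ ^ 2 / (r ^ 2 + ‖y - η‖ ^ 2) ^ 2 ≤ 4 := by
  have hr0 : 0 < r := by linarith
  rw [norm_sub_rev η y, div_le_iff₀ (by positivity)]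
  have h6 : (1 / 4 : ℝ) ≤ r ^ 2 := by nlinarith
  have h7 : 0 ≤ ‖y - η‖ ^ 2 := sq_nonneg _
  nlinarith [mul_nonneg (sub_nonneg.2 h6) h7, sq_nonneg (r ^ 2), sq_nonneg (‖y - η‖ ^ 2)]

lemma int_k (μ : Measure (Sp d)) [IsFiniteMeasure μ] (r : ℝ) (hr : 0 < r) (y : Sp d) :
    Integrable (fun η => kk r (y - η)) μ :=
  Integrable.of_bound (GNaux.kk_meas r hr y).aestronglyMeasurable (r / r ^ d)
    (Filter.Eventually.of_forall fun η => by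
      rw [Real.norm_eq_abs, abs_of_nonneg (GNaux.kk_nonneg r hr.le _)]
      exact GNaux.kk_le r hr _)

lemma int_w (μ : Measure (Sp d)) [IsFiniteMeasure μ] (r : ℝ) (hr : 1 / 2 ≤ r) (y m : Sp d)
    (hm : ‖m‖ = 1) :
    Integrable (fun η => ⟪η - y, m⟫_ℝ ^ 2 / (r ^ 2 + ‖y - η‖ ^ 2) ^ 2 * kk r (y - η)) μ := by
  have hr0 : 0 < r := by linarith
  refine Integrable.of_bound ?_ (4 * (r / r ^ d)) (Filter.Eventually.of_forall fun η => ?_)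
  · refine Continuous.aestronglyMeasurable ?_
    refine Continuous.mul (Continuous.div (by fun_prop) (by fun_prop) ?_) (GNaux.kk_meas r hr0 y)
    intro η
    positivity
  · rw [Real.norm_eq_abs, abs_mul]
    refine mul_le_mul ?_ ?_ (abs_nonneg _) (by norm_num)
    · rw [abs_of_nonneg (by positivity)]
      refine le_trans ?_ (wq r hr y η)
      refine div_le_div_of_nonneg_right ?_ (by positivity)
      have h4 := abs_real_inner_le_norm (η - y) m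
      rw [hm, mul_one] at h4
      rw [← sq_abs]
      exact pow_le_pow_left₀ (abs_nonneg _) h4 2
    · rw [abs_of_nonneg (GNaux.kk_nonneg r hr0.le _)]
      exact GNaux.kk_le r hr0 _

lemma c2_int (μ : Measure (Sp d)) [IsFiniteMeasure μ] (r : ℝ) (hr : 1 / 2 ≤ r) (y n n' : Sp d)
    (hn : ‖n‖ = 1) (hn' : ‖n'‖ = 1) :
    (∫ η, ⟪η - y, n⟫_ℝ ^ 2 / (r ^ 2 + ‖y - η‖ ^ 2) ^ 2 * kk r (y - η) ∂μ) ≤
      2 * (∫ η, ⟪η - y, n'⟫_ℝ ^ 2 / (r ^ 2 + ‖y - η‖ ^ 2) ^ 2 * kk r (y - η) ∂μ)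
        + 8 * ‖n - n'‖ ^ 2 * th μ r y := by
  have hr0 : 0 < r := by linarith
  have ik := int_k μ r hr0 y
  have e1 : 2 * (∫ η, ⟪η - y, n'⟫_ℝ ^ 2 / (r ^ 2 + ‖y - η‖ ^ 2) ^ 2 * kk r (y - η) ∂μ)
      + 8 * ‖n - n'‖ ^ 2 * th μ r y = ∫ η, (2 * (⟪η - y, n'⟫_ℝ ^ 2 /
        (r ^ 2 + ‖y - η‖ ^ 2) ^ 2 * kk r (y - η)) + 8 * ‖n - n'‖ ^ 2 * kk r (y - η)) ∂μ := by
    rw [integral_add ((int_w μ r hr y n' hn').const_mul 2) (ik.const_mul _), integral_const_mul,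
      integral_const_mul]
    rfl
  rw [e1]
  refine integral_mono (int_w μ r hr y n hn)
    (((int_w μ r hr y n' hn').const_mul 2).add (ik.const_mul _)) ?_
  intro η
  show ⟪η - y, n⟫_ℝ ^ 2 / (r ^ 2 + ‖y - η‖ ^ 2) ^ 2 * kk r (y - η) ≤
    2 * (⟪η - y, n'⟫_ℝ ^ 2 / (r ^ 2 + ‖y - η‖ ^ 2) ^ 2 * kk r (y - η)) +
      8 * ‖n - n'‖ ^ 2 * kk r (y - η)
  have b1 := inner_sq n n' (η - y)
  have b0 := wq r hr y η
  have bk := GNaux.kk_nonneg r hr0.le (y - η)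
  have bq : 0 < (r ^ 2 + ‖y - η‖ ^ 2) ^ 2 := by positivity
  generalize ⟪η - y, n⟫_ℝ = p at *
  generalize ⟪η - y, n'⟫_ℝ = p' at *
  generalize ‖η - y‖ = e at *
  generalize (r ^ 2 + ‖y - η‖ ^ 2) ^ 2 = q at *
  generalize kk r (y - η) = k at *
  have b2 : p ^ 2 / q ≤ (2 * p' ^ 2 + 2 * ‖n - n'‖ ^ 2 * e ^ 2) / q :=
    div_le_div_of_nonneg_right b1 bq.le
  have b3 : (2 * p' ^ 2 + 2 * ‖n - n'‖ ^ 2 * e ^ 2) / q = 2 * (p' ^ 2 / q) +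
        2 * ‖n - n'‖ ^ 2 * (e ^ 2 / q) := by ring
  have b4 := mul_le_mul_of_nonneg_left b0 (by positivity : 0 ≤ 2 * ‖n - n'‖ ^ 2)
  have b5 : p ^ 2 / q ≤ 2 * (p' ^ 2 / q) + 8 * ‖n - n'‖ ^ 2 := by
    rw [b3] at b2
    linarith
  have b6 := mul_le_mul_of_nonneg_right b5 bk
  linarith

/-- comparison of the second part -/
lemma c2 (μ : Measure (Sp d)) [IsFiniteMeasure μ] (r : ℝ) (hr : 1 / 2 ≤ r) (y n n' : Sp d)
    (hn : ‖n‖ = 1) (hn' : ‖n'‖ = 1) (hpos : 0 < vv μ r y) (hvth : vv μ r y ^ 2 = th μ r y) :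
    X2 μ n r y ≤ 2 * X2 μ n' r y + 8 * ‖n - n'‖ ^ 2 * vv μ r y := by
  have h9 : th μ r y / vv μ r y = vv μ r y := by
    rw [← hvth, pow_two, mul_div_assoc, div_self hpos.ne', mul_one]
  have h10 := div_le_div_of_nonneg_right (c2_int μ r hr y n n' hn hn') hpos.le
  rw [add_div, mul_div_assoc, mul_div_assoc, h9] at h10
  unfold X2
  linarith

lemma dist_ray {ε : ℝ} (hε : 0 ≤ ε) (hε1 : ε ≤ 1) (y z : Sp d) (r : ℝ) (hr : 0 ≤ r) (hr2 : r ≤ 2)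
    (hz : ‖z‖ ≤ 1) : ‖y - (y + (ε * r) • z)‖ ≤ 2 := by
  rw [show y - (y + (ε * r) • z) = -((ε * r) • z) by abel, norm_neg, norm_smul, Real.norm_eq_abs,
    abs_of_nonneg (by positivity)]
  have a1 : ε * r ≤ 2 := by nlinarith
  have a2 : 0 ≤ ε * r := by positivity
  nlinarith [norm_nonneg z]

/-- Harnack -/
lemma harn {C : ℝ} (hC : 0 < C) (μ : Measure (Sp d)) (y : Sp d)
    (t1 : ∀ (t : ℝ) (x : Sp d), 0 < t → 0 < th μ t x)
    (t4 : ∀ (t : ℝ) (x y : Sp d), 0 < t → th μ t y ≤ (1 + ‖x - y‖ / t) ^ d * th μ t x)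
    (t5 : ∀ (t s : ℝ) (x : Sp d), 0 < s → s / 8 ≤ t → t ≤ 8 * s → th μ t x ≤ C * th μ s x)
    (r : ℝ) (x : Sp d) (hr : 1 / 2 ≤ r) (hr2 : r ≤ 2) (hx : ‖y - x‖ ≤ 2) :
    vv μ r x ≤ Real.sqrt (C * 3 ^ d) * vv μ 1 y := by
  have a1 := t5 r 1 x one_pos (by linarith) (by linarith)
  have a2 := t4 1 y x one_pos
  have a3 : (1 + ‖y - x‖ / 1) ^ d ≤ 3 ^ d := by
    refine pow_le_pow_left₀ (by positivity) ?_ d
    rw [div_one]
    linarith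
  have a4 := t1 1 y one_pos
  have a5 : th μ r x ≤ C * 3 ^ d * th μ 1 y := by
    calc th μ r x ≤ C * th μ 1 x := a1
      _ ≤ C * ((1 + ‖y - x‖ / 1) ^ d * th μ 1 y) := mul_le_mul_of_nonneg_left a2 hC.le
      _ ≤ C * (3 ^ d * th μ 1 y) := by
          refine mul_le_mul_of_nonneg_left ?_ hC.le
          exact mul_le_mul_of_nonneg_right a3 a4.le
      _ = _ := by ring
  calc vv μ r x = Real.sqrt (th μ r x) := rfl
    _ ≤ Real.sqrt (C * 3 ^ d * th μ 1 y) := Real.sqrt_le_sqrt a5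
    _ = Real.sqrt (C * 3 ^ d) * vv μ 1 y := by rw [Real.sqrt_mul (by positivity)]; rfl

/-- energy of the gradient -/
lemma grE {C C2 : ℝ} (hC : 0 < C) {μ : Measure (Sp d)} {r : ℝ} {x : Sp d} (hr : 1 / 2 ≤ r)
    (hb : ‖gradient (vv μ r) x‖ ≤ C * vv μ r x / r) (hpos : 0 < vv μ r x) {w : ℝ}
    (hh : vv μ r x ≤ C2 * w) :
    ‖gradient (vv μ r) x‖ ^ 2 / vv μ r x ≤ 4 * C ^ 2 * C2 * w := by
  have hr0 : 0 < r := by linarith
  have hn := norm_nonneg (gradient (vv μ r) x)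
  generalize ‖gradient (vv μ r) x‖ = g at *
  generalize vv μ r x = v at *
  have a3 : C * v / r ≤ 2 * C * v := by
    rw [div_le_iff₀ hr0]
    have := mul_pos hC hpos
    nlinarith
  have a4 : g ^ 2 ≤ (2 * C * v) ^ 2 := pow_le_pow_left₀ hn (hb.trans a3) 2
  rw [div_le_iff₀ hpos]
  have a6 : (2 * C * v) ^ 2 = 4 * C ^ 2 * v * v := by ring
  have a7 : 4 * C ^ 2 * v * v ≤ 4 * C ^ 2 * (C2 * w) * v := by
    refine mul_le_mul_of_nonneg_right ?_ hpos.le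
    exact mul_le_mul_of_nonneg_left hh (by positivity)
  calc _ ≤ _ := a4
    _ = _ := a6
    _ ≤ _ := a7
    _ = _ := by ring

/-- comparison of the gain functional in two directions -/
lemma XX_comp (h : StmtTH) (hd : 2 ≤ d) {C' ε : ℝ} (hC' : 0 < C') (hε : 0 < ε) (hε1 : ε ≤ 1) :
    ∃ C : ℝ, 0 < C ∧ ∀ (J : ℕ) (M : ℝ) (β : Sp d → ℝ), Kit J M β → ∀ μ : Measure (Sp d),
      Gro C' μ → ∀ (n n' : Sp d), ‖n‖ = 1 → ‖n'‖ = 1 → ∀ y,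
      XX β ε μ n 1 y ≤ 2 * XX β ε μ n' 1 y + C * ‖n - n'‖ ^ 2 * vv μ 1 y := by
  obtain ⟨C, hC, H⟩ := h d 1 hd C' hC'
  set C2 : ℝ := Real.sqrt (C * 3 ^ d) with hC2
  have hC20 : 0 ≤ C2 := Real.sqrt_nonneg _
  refine ⟨2 * (8 * (4 * C ^ 2 * C2)) + 2 * (8 * C2) + 2 * (8 * (4 * C ^ 2 * C2)) + 1, by positivity,
    ?_⟩
  intro J M β hβ μ hμ n n' hn hn' y
  obtain ⟨t1, t2, t3, t4, t5⟩ := H μ hμ
  have hsm : ContDiffOn ℝ ∞ (GNaux.VV μ) {p | 0 < p.1} := t2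
  have := hμ.fin
  have hpos : ∀ (t : ℝ) (x : Sp d), 0 < t → 0 < vv μ t x := fun t x ht =>
    Real.sqrt_pos.2 (t1 t x ht).1
  have hβc : Continuous β := hβ.prof.smooth.continuous
  have hβs := hβ.prof.supp
  have hv1 : 0 < vv μ 1 y := hpos 1 y one_pos
  have hvth : ∀ (t : ℝ) (x : Sp d), 0 < t → vv μ t x ^ 2 = th μ t x := fun t x ht =>
    Real.sq_sqrt (t1 t x ht).1.le
  have hHar : ∀ (r : ℝ) (x : Sp d), 1 / 2 ≤ r → r ≤ 2 → ‖y - x‖ ≤ 2 → vv μ r x ≤ C2 * vv μ 1 y :=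
    fun r x hr hr2 hx => harn hC μ y (fun t x ht => (t1 t x ht).1) t4 t5 r x hr hr2 hx
  have hG : ∀ r : ℝ, 1 / 2 ≤ r → r ≤ 2 → ∀ z : Sp d, ‖z‖ ≤ 1 →
      ‖gradient (vv μ r) (y + (ε * r) • z)‖ ^ 2 / vv μ r (y + (ε * r) • z) ≤
        4 * C ^ 2 * C2 * vv μ 1 y := by
    intro r hr hr2 z hz
    exact grE hC hr (grad_bd hsm (fun t x ht => t3 t x 1 ht le_rfl) r _ (by linarith))
      (hpos r _ (by linarith)) (hHar r _ hr hr2 (dist_ray hε.le hε1 y z r (by linarith) hr2 hz))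
  have c1 : ∀ r, 1 / 2 ≤ r → r ≤ 2 → X1 β ε μ n r y ≤ 2 * X1 β ε μ n' r y +
      8 * ‖n - n'‖ ^ 2 * (4 * C ^ 2 * C2 * vv μ 1 y) := fun r hr hr2 =>
    c1 hβ μ hsm n n' hn hn' ε y r (by linarith) (fun x => hpos r x (by linarith)) _ (hG r hr hr2)
  have c3 : ∀ r, 1 / 2 ≤ r → r ≤ 2 → X3 β ε μ n r y ≤ 2 * X3 β ε μ n' r y +
      8 * ‖n - n'‖ ^ 2 * (4 * C ^ 2 * C2 * vv μ 1 y) := fun r hr hr2 =>
    c3 hβ μ hsm n n' hn hn' ε hε.le hε1 y r (by linarith) (fun x => hpos r x (by linarith)) _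
      (hG r hr hr2)
  have c2 : ∀ r, 1 / 2 ≤ r → r ≤ 2 → X2 μ n r y ≤ 2 * X2 μ n' r y +
      8 * ‖n - n'‖ ^ 2 * (C2 * vv μ 1 y) := by
    intro r hr hr2
    have hr0 : 0 < r := by linarith
    have a1 := c2 μ r hr y n n' hn hn' (hpos r y hr0) (hvth r y hr0)
    have a2 := mul_le_mul_of_nonneg_left (hHar r y hr hr2 (by simp))
      (by positivity : 0 ≤ 8 * ‖n - n'‖ ^ 2)
    linarith
  have hsub : Icc (1 / 2 : ℝ) 2 ⊆ Ioi 0 := by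
    intro t ht
    exact lt_of_lt_of_le (by norm_num) ht.1
  have d1 := tav_comp ((GNaux.cont_X1 μ hsm hpos β hβc hβs ε n y).mono hsub)
    ((GNaux.cont_X1 μ hsm hpos β hβc hβs ε n' y).mono hsub) (by positivity) c1
  have d2 := tav_comp (GNaux.cont_X2 μ hsm hpos n y hn) (GNaux.cont_X2 μ hsm hpos n' y hn')
    (by positivity) c2
  have d3 := tav_comp ((GNaux.cont_X3 μ hsm hpos β hβc hβs ε n y).mono hsub)
    ((GNaux.cont_X3 μ hsm hpos β hβc hβs ε n' y).mono hsub) (by positivity) c3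
  have hXX : ∀ m : Sp d, XX β ε μ m 1 y = (∫ r in (1 / 2 : ℝ)..2, tau 1 r * X1 β ε μ m r y) +
      (∫ r in (1 / 2 : ℝ)..2, tau 1 r * X2 μ m r y) +
      (∫ r in (1 / 2 : ℝ)..2, tau 1 r * X3 β ε μ m r y) := by
    intro m
    unfold XX tav
    rw [mul_one]
  rw [hXX, hXX]
  have hvN : 0 ≤ ‖n - n'‖ ^ 2 * vv μ 1 y := by positivity
  linarith

end HNm

open HNm in
/-- MODULE HN -/
theorem stmtHN (hHH : StmtHH) (hTH : StmtTH) (hWA : StmtWA) (hUB : StmtUB) : StmtHN := by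
  intro d J hd hJ M C' ε p0 A c hC' hε hε4 hK
  have hε1 : ε ≤ 1 := by linarith
  obtain ⟨C1, hC1, H1⟩ := XX_comp hTH hd hC' hε hε1
  obtain ⟨C2, hC2, H2⟩ := hUB d 0 hd M C' ε p0 A hC' hε hε1 hK.p0_pos hK.p0_le hK.A_ge
  obtain ⟨C3, hC3, H3⟩ := hWA d 0 hd M C' ε hC' hε hε1
  refine ⟨C1 + 2 * C2, by positivity, ?_⟩
  intro β hβ μ hμ n n' hn hn' y
  have hv : 0 ≤ vv μ 1 y := Real.sqrt_nonneg _
  obtain ⟨q1, -, -⟩ := hHH d hd M C' ε p0 A hC' hε hε1 hK.p0_pos hK.p0_le hK.A_ge β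
    (kit_le hJ hβ) μ hμ
  obtain ⟨-, -, -, -, -, -, -, -, -, u10, -, -⟩ := H2 β (kit_le (by omega) hβ) μ hμ
  obtain ⟨-, -, -, -, w5⟩ := H3 β (kit_le (by omega) hβ) μ hμ
  have hQ : ∀ m : Sp d, ‖m‖ = 1 → Qf (fun i j => HHm β ε p0 A μ i j y) m =
      Hn β ε p0 A μ m 1 y := fun m hm => q1 m hm y
  have h0 : ∀ m : Sp d, ‖m‖ = 1 → 0 ≤ Qf (fun i j => HHm β ε p0 A μ i j y) m := by
    intro m hm
    rw [hQ m hm]
    have a1 := hK.gain β hβ μ hμ m hm y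
    have a2 := (w5 m hm).2.1 y
    exact le_trans (mul_nonneg hK.c_pos.le a2) a1
  have hKb : ∀ m : Sp d, ‖m‖ = 1 → Qf (fun i j => HHm β ε p0 A μ i j y) m ≤ C2 * vv μ 1 y := by
    intro m hm
    rw [hQ m hm]
    have a1 := (u10 m hm).2 0 le_rfl y
    rw [norm_iteratedFDeriv_zero] at a1
    exact (le_abs_self _).trans a1
  have h1 := Qf_comp _ h0 (by positivity) hKb n n'
  rw [hQ n hn, hQ n' hn'] at h1
  have h2 := H1 J M β hβ μ hμ n n' hn hn' y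
  have h3 : 0 ≤ ‖n - n'‖ ^ 2 * vv μ 1 y := by positivity
  constructor
  · nlinarith
  · nlinarith

end

end TG
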