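import Pool.Agent.TG.Stmts2
import Pool.Agent.TG.TQ

/-!
# Modules HU and JC: comparison of averaged Taylor polynomials (by helper97)
-/

open MeasureTheory Metric Set TrI
open scoped InnerProductSpace ContDiff

namespace TG

namespace HU

noncomputable section

section Poly

variable {d m : ℕ} {V : Type*} [NormedAddCommGroup V] [InnerProductSpace ℝ V]
  [FiniteDimensional ℝ V]

/-- the space of polynomials of degree at most m -/
def PS (d m : ℕ) (V : Type*) [NormedAddCommGroup V] [InnerProductSpace ℝ V] :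
    Submodule ℝ (Sp d → V) where
  carrier := {p | PolL (m + 1) p}
  add_mem' := by
    rintro p q ⟨hp1, hp2⟩ ⟨hq1, hq2⟩
    refine ⟨hp1.add hq1, fun x => ?_⟩
    have := iteratedFDeriv_add_apply (i := m + 1) (x := x)
      ((hp1.contDiffAt (x := x)).of_le (by exact_mod_cast le_top))
      ((hq1.contDiffAt (x := x)).of_le (by exact_mod_cast le_top))
    rw [this, hp2, hq2, add_zero]
  zero_mem' := by
    refine ⟨contDiff_const, fun x => ?_⟩
    have : (0 : Sp d → V) = fun _ => 0 := rfl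
    rw [this, iteratedFDeriv_const_of_ne (Nat.succ_ne_zero m)]
    rfl
  smul_mem' := by
    rintro c p ⟨hp1, hp2⟩
    refine ⟨hp1.const_smul c, fun x => ?_⟩
    have := iteratedFDeriv_const_smul_apply (i := m + 1) (a := c) (x := x)
      ((hp1.contDiffAt (x := x)).of_le (by exact_mod_cast le_top))
    rw [this, hp2, smul_zero]

/-- coordinates of polynomials: the derivatives at the origin -/
def co (d m : ℕ) (V : Type*) [NormedAddCommGroup V] [InnerProductSpace ℝ V] :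
    PS d m V →ₗ[ℝ] ((k : Fin (m + 1)) → (Fin k → Fin d) → V) where
  toFun p := fun k f => iteratedFDeriv ℝ k p.1 0 (fun i => EuclideanSpace.single (f i) (1 : ℝ))
  map_add' := by
    rintro ⟨p, hp⟩ ⟨q, hq⟩
    funext k f
    have := iteratedFDeriv_add_apply (i := k) (x := (0 : Sp d))
      ((hp.1.contDiffAt (x := (0 : Sp d))).of_le (by exact_mod_cast le_top))
      ((hq.1.contDiffAt (x := (0 : Sp d))).of_le (by exact_mod_cast le_top))
    show iteratedFDeriv ℝ k (p + q) 0 _ = _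
    rw [this]
    rfl
  map_smul' := by
    rintro c ⟨p, hp⟩
    funext k f
    have := iteratedFDeriv_const_smul_apply (i := k) (a := c) (x := (0 : Sp d))
      ((hp.1.contDiffAt (x := (0 : Sp d))).of_le (by exact_mod_cast le_top))
    show iteratedFDeriv ℝ k (c • p) 0 _ = _
    rw [this]
    rfl

omit [FiniteDimensional ℝ V] in
lemma cml_zero {k : ℕ} {A : ContinuousMultilinearMap ℝ (fun _ : Fin k => Sp d) V}
    (h : ∀ f : Fin k → Fin d, A (fun i => EuclideanSpace.single (f i) (1 : ℝ)) = 0) : A = 0 := by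
  apply ContinuousMultilinearMap.toMultilinearMap_injective
  refine Module.Basis.ext_multilinear (fun _ => (EuclideanSpace.basisFun (Fin d) ℝ).toBasis) ?_
  intro f
  simpa using h f

omit [FiniteDimensional ℝ V] in
lemma co_inj : Function.Injective (co d m V) := by
  rw [injective_iff_map_eq_zero]
  rintro ⟨p, hp⟩ h
  have h1 : ∀ k ≤ m, iteratedFDeriv ℝ k p 0 = 0 := by
    intro k hk
    refine cml_zero fun f => ?_
    have := congrFun (congrFun h ⟨k, by omega⟩) f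
    exact this
  apply Subtype.ext
  funext x
  have h2 := eq_taylor hp.1 hp.2 x 0
  rw [Finset.sum_eq_zero] at h2
  · exact h2.symm
  · intro k hk
    rw [h1 k (by have := Finset.mem_range.mp hk; omega)]
    simp

instance : FiniteDimensional ℝ (PS d m V) :=
  FiniteDimensional.of_injective (co d m V) co_inj

omit [FiniteDimensional ℝ V] in
lemma cs_bound {F : Sp d → V} (hF : ContDiff ℝ ∞ F) (hc : HasCompactSupport F) (J : ℕ) :
    ∃ B : ℝ, 0 ≤ B ∧ ∀ j ≤ J, ∀ y, ‖iteratedFDeriv ℝ j F y‖ ≤ B := by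
  have h : ∀ j : ℕ, ∃ B : ℝ, ∀ y, ‖iteratedFDeriv ℝ j F y‖ ≤ B := fun j =>
    (hF.continuous_iteratedFDeriv (by exact_mod_cast le_top)).bounded_above_of_compact_support
      (hc.iteratedFDeriv j)
  choose B hB using h
  have h0 : ∀ j, 0 ≤ B j := fun j => (norm_nonneg _).trans (hB j 0)
  refine ⟨∑ j ∈ Finset.range (J + 1), B j, Finset.sum_nonneg fun j _ => h0 j, fun j hj y => ?_⟩
  exact (hB j y).trans (Finset.single_le_sum (f := B) (fun i _ => h0 i)
    (Finset.mem_range.mpr (by omega)))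

/-- a polynomial is controlled by its integrals against test functions with small support -/
lemma poly0 (d m J : ℕ) (V : Type*) [NormedAddCommGroup V] [InnerProductSpace ℝ V]
    [FiniteDimensional ℝ V] (ρ : ℝ) :
    ∃ C : ℝ, 0 < C ∧ ∀ p : Sp d → V, PolL (m + 1) p → ∀ τ : ℝ, 0 ≤ τ →
      (∀ g : Sp d → V, TFn J 1 g → (∀ y, g y ≠ 0 → ‖y‖ < 1 / 4) →
        |∫ x, ⟪p x, g x⟫_ℝ| ≤ τ) → ∀ x, ‖x‖ ≤ ρ → ‖p x‖ ≤ C * τ := by
  classical
  set φ : ContDiffBump (0 : Sp d) := ⟨1 / 8, 1 / 5, by norm_num, by norm_num⟩ with hφ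
  have hφc : Continuous (φ : Sp d → ℝ) := φ.continuous
  have hφs : HasCompactSupport (φ : Sp d → ℝ) := φ.hasCompactSupport
  set N := Module.finrank ℝ (PS d m V) with hN
  set b := Module.finBasis ℝ (PS d m V) with hb
  set q : Fin N → Sp d → V := fun i => (b i).1 with hq
  have hqP : ∀ i, PolL (m + 1) (q i) := fun i => (b i).2
  have hqc : ∀ i, Continuous (q i) := fun i => (hqP i).1.continuous
  set P : (Fin N → ℝ) → Sp d → V := fun a x => ∑ i, a i • q i x with hP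
  have hPS : ∀ a, P a = (∑ i, a i • b i : PS d m V).1 := by
    intro a
    funext x
    simp [hP, hq, Finset.sum_apply]
  -- values
  obtain ⟨K, hK0, hK⟩ : ∃ K : ℝ, 0 ≤ K ∧ ∀ i x, ‖x‖ ≤ ρ → ‖q i x‖ ≤ K := by
    have h : ∀ i, ∃ K : ℝ, ∀ x ∈ closedBall (0 : Sp d) ρ, ‖q i x‖ ≤ K := fun i =>
      (isCompact_closedBall _ _).exists_bound_of_continuousOn (hqc i).continuousOn
    choose K hK using h
    refine ⟨∑ i, |K i|, Finset.sum_nonneg fun i _ => abs_nonneg _, fun i x hx => ?_⟩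
    exact ((hK i x (by simpa using hx)).trans (le_abs_self _)).trans
      (Finset.single_le_sum (f := fun i => |K i|) (fun i _ => abs_nonneg _) (Finset.mem_univ i))
  -- test functions
  set F : Fin N → Sp d → V := fun i y => φ y • q i y with hF
  have hFc : ∀ i, ContDiff ℝ ∞ (F i) := fun i => φ.contDiff.smul (hqP i).1
  have hFs : ∀ i, HasCompactSupport (F i) := fun i => hφs.smul_right
  obtain ⟨B, hB0, hB⟩ : ∃ B : ℝ, 0 ≤ B ∧ ∀ i, ∀ j ≤ J, ∀ y, ‖iteratedFDeriv ℝ j (F i) y‖ ≤ B := by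
    have h := fun i => cs_bound (hFc i) (hFs i) J
    choose B hB0 hB using h
    refine ⟨∑ i, B i, Finset.sum_nonneg fun i _ => hB0 i, fun i j hj y => ?_⟩
    exact (hB i j hj y).trans (Finset.single_le_sum (f := B) (fun i _ => hB0 i)
      (Finset.mem_univ i))
  -- the quadratic form
  set Q : (Fin N → ℝ) → ℝ := fun a => ∫ y, φ y * ‖P a y‖ ^ 2 with hQ
  have hPc : ∀ a, Continuous (P a) := fun a =>
    continuous_finsetSum _ fun i _ => (hqc i).const_smul (a i)
  have hQi : ∀ a, Integrable (fun y => φ y * ‖P a y‖ ^ 2) := fun a =>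
    (hφc.mul ((hPc a).norm.pow 2)).integrable_of_hasCompactSupport hφs.mul_right
  have hQexp : ∀ a, Q a = ∑ i, ∑ j, a i * a j * ∫ y, φ y * ⟪q i y, q j y⟫_ℝ := by
    intro a
    have h1 : ∀ y, φ y * ‖P a y‖ ^ 2 = ∑ i, ∑ j, a i * a j * (φ y * ⟪q i y, q j y⟫_ℝ) := by
      intro y
      rw [← real_inner_self_eq_norm_sq]
      simp only [hP, sum_inner, inner_sum, real_inner_smul_left, real_inner_smul_right,
        Finset.mul_sum]
      refine Finset.sum_congr rfl fun i _ => Finset.sum_congr rfl fun j _ => ?_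
      rw [real_inner_comm]
      ring
    have h2 : ∀ i j, Integrable (fun y => a i * a j * (φ y * ⟪q i y, q j y⟫_ℝ)) := fun i j =>
      ((hφc.mul ((hqc i).inner (hqc j))).integrable_of_hasCompactSupport
        hφs.mul_right).const_mul _
    simp only [hQ]
    rw [integral_congr_ae (Filter.Eventually.of_forall h1),
      integral_finsetSum _ fun i _ => integrable_finsetSum _ fun j _ => h2 i j]
    refine Finset.sum_congr rfl fun i _ => ?_
    rw [integral_finsetSum _ fun j _ => h2 i j]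
    refine Finset.sum_congr rfl fun j _ => ?_
    rw [integral_const_mul]
  have hQcont : Continuous Q := by
    have : Q = fun a => ∑ i, ∑ j, a i * a j * ∫ y, φ y * ⟪q i y, q j y⟫_ℝ := funext hQexp
    rw [this]
    fun_prop
  have hQpos : ∀ a, a ≠ 0 → 0 < Q a := by
    intro a ha
    have h0 : ∀ y, 0 ≤ φ y * ‖P a y‖ ^ 2 := fun y => mul_nonneg φ.nonneg (sq_nonneg _)
    have h00 : 0 ≤ ∫ y, φ y * ‖P a y‖ ^ 2 := integral_nonneg h0
    rcases h00.lt_or_eq with h | h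
    · exact h
    exfalso
    have hc : Continuous (fun y => φ y * ‖P a y‖ ^ 2) := hφc.mul ((hPc a).norm.pow 2)
    have h11 : (fun y => φ y * ‖P a y‖ ^ 2) =ᵐ[volume] 0 :=
      (integral_eq_zero_iff_of_nonneg h0 (hQi a)).mp h.symm
    have h1 : (fun y => φ y * ‖P a y‖ ^ 2) = 0 :=
      (Continuous.ae_eq_iff_eq volume hc continuous_zero).mp h11
    have h2 : ∀ y, ‖y‖ < 1 / 8 → P a y = 0 := by
      intro y hy
      have h3 := congrFun h1 y
      have h4 : φ y = 1 := φ.one_of_mem_closedBall (by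
        rw [mem_closedBall, dist_zero_right]
        exact hy.le)
      simp only [h4, one_mul, Pi.zero_apply] at h3
      exact norm_eq_zero.mp (pow_eq_zero_iff (two_ne_zero) |>.mp h3)
    have hPP : PolL (m + 1) (P a) := by
      rw [hPS]
      exact (∑ i, a i • b i : PS d m V).2
    have h5 : P a = 0 := by
      funext x
      have h6 := eq_taylor hPP.1 hPP.2 x 0
      rw [← h6]
      refine Finset.sum_eq_zero fun k _ => ?_
      have h7 : P a =ᶠ[nhds 0] fun _ => 0 := by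
        filter_upwards [ball_mem_nhds (0 : Sp d) (by norm_num : (0 : ℝ) < 1 / 8)] with y hy
        exact h2 y (by simpa using hy)
      have h8 : iteratedFDeriv ℝ k (P a) 0 = iteratedFDeriv ℝ k (fun _ => (0 : V)) (0 : Sp d) :=
        (h7.iteratedFDeriv ℝ k).eq_of_nhds
      rw [h8]
      have h9 : iteratedFDeriv ℝ k (fun _ => (0 : V)) = (0 : Sp d → _) := iteratedFDeriv_fun_zero
      rw [h9]
      simp
    apply ha
    have h10 : (∑ i, a i • b i : PS d m V) = 0 := by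
      apply Subtype.ext
      rw [← hPS, h5]
      rfl
    funext i
    exact Fintype.linearIndependent_iff.mp b.linearIndependent a h10 i
  have hQhom : ∀ (t : ℝ) a, Q (t • a) = t ^ 2 * Q a := by
    intro t a
    rw [hQexp, hQexp, Finset.mul_sum]
    refine Finset.sum_congr rfl fun i _ => ?_
    rw [Finset.mul_sum]
    refine Finset.sum_congr rfl fun j _ => ?_
    simp only [Pi.smul_apply, smul_eq_mul]
    ring
  obtain ⟨c, hc0, hc⟩ : ∃ c : ℝ, 0 < c ∧ ∀ a, c * ‖a‖ ^ 2 ≤ Q a := by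
    rcases (sphere (0 : Fin N → ℝ) 1).eq_empty_or_nonempty with h | h
    · refine ⟨1, one_pos, fun a => ?_⟩
      have ha : a = 0 := by
        by_contra ha
        have : ‖a‖⁻¹ • a ∈ sphere (0 : Fin N → ℝ) 1 := by
          simp [norm_smul, ha]
        rw [h] at this
        exact this
      rw [ha, norm_zero]
      simp only [ne_eq, OfNat.ofNat_ne_zero, not_false_eq_true, zero_pow, mul_zero]
      exact integral_nonneg fun y => mul_nonneg φ.nonneg (sq_nonneg _)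
    · obtain ⟨a0, ha0, hmin⟩ := (isCompact_sphere (0 : Fin N → ℝ) 1).exists_isMinOn h
        hQcont.continuousOn
      have ha0' : a0 ≠ 0 := by
        rintro rfl
        simp at ha0
      refine ⟨Q a0, hQpos a0 ha0', fun a => ?_⟩
      by_cases ha : a = 0
      · rw [ha, norm_zero]
        simp only [ne_eq, OfNat.ofNat_ne_zero, not_false_eq_true, zero_pow, mul_zero]
        exact integral_nonneg fun y => mul_nonneg φ.nonneg (sq_nonneg _)
      · have h1 : ‖a‖⁻¹ • a ∈ sphere (0 : Fin N → ℝ) 1 := by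
          simp [norm_smul, ha]
        have h2 : Q a0 ≤ Q (‖a‖⁻¹ • a) := hmin h1
        rw [hQhom] at h2
        have h3 : 0 < ‖a‖ := norm_pos_iff.mpr ha
        have h4 : Q a0 * ‖a‖ ^ 2 ≤ ‖a‖⁻¹ ^ 2 * Q a * ‖a‖ ^ 2 :=
          mul_le_mul_of_nonneg_right h2 (sq_nonneg _)
        have h5 : ‖a‖⁻¹ ^ 2 * Q a * ‖a‖ ^ 2 = Q a := by
          field_simp
        linarith
  refine ⟨N * K * (N * B) / c + 1, by positivity, fun p hp τ hτ hg x hx => ?_⟩
  set a : Fin N → ℝ := b.equivFun ⟨p, hp⟩ with ha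
  have hpa : p = P a := by
    rw [hPS, ha, b.sum_equivFun]
  have hai : ∀ i, |a i| ≤ ‖a‖ := fun i => by
    rw [← Real.norm_eq_abs]
    exact norm_le_pi_norm a i
  have hpx : ‖p x‖ ≤ N * K * ‖a‖ := by
    rw [hpa]
    calc ‖P a x‖ ≤ ∑ i, ‖a i • q i x‖ := norm_sum_le _ _
      _ ≤ ∑ _i : Fin N, ‖a‖ * K := by
          refine Finset.sum_le_sum fun i _ => ?_
          rw [norm_smul, Real.norm_eq_abs]
          exact mul_le_mul (hai i) (hK i x hx) (norm_nonneg _) (norm_nonneg _)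
      _ = N * K * ‖a‖ := by
          rw [Finset.sum_const, Finset.card_univ, Fintype.card_fin, nsmul_eq_mul]
          ring
  have hnorm : c * ‖a‖ ≤ (N * B) * τ := by
    rcases eq_or_ne a 0 with h | h
    · rw [h, norm_zero, mul_zero]
      positivity
    have hn : 0 < ‖a‖ := norm_pos_iff.mpr h
    -- the test function
    have hder : ∀ j ≤ J, ∀ y, ‖iteratedFDeriv ℝ j (fun y => φ y • p y) y‖ ≤ N * B * ‖a‖ := by
      intro j hj y
      have h1 : (fun y => φ y • p y) = fun y => ∑ i, a i • F i y := by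
        funext z
        rw [hpa]
        simp only [hP, hF, Finset.smul_sum]
        refine Finset.sum_congr rfl fun i _ => ?_
        rw [smul_comm]
      rw [h1, iteratedFDeriv_fun_sum_apply (fun i _ =>
        ((((hFc i).const_smul (a i)).contDiffAt).of_le (by exact_mod_cast le_top)))]
      calc ‖∑ i, iteratedFDeriv ℝ j (fun y => a i • F i y) y‖
          ≤ ∑ i, ‖iteratedFDeriv ℝ j (fun y => a i • F i y) y‖ := norm_sum_le _ _
        _ ≤ ∑ _i : Fin N, ‖a‖ * B := by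
            refine Finset.sum_le_sum fun i _ => ?_
            have h2 : iteratedFDeriv ℝ j (fun y => a i • F i y) y =
                a i • iteratedFDeriv ℝ j (F i) y :=
              iteratedFDeriv_const_smul_apply
                (((hFc i).contDiffAt).of_le (by exact_mod_cast le_top))
            rw [h2, norm_smul, Real.norm_eq_abs]
            exact mul_le_mul (hai i) (hB i j hj y) (norm_nonneg _) (norm_nonneg _)
        _ = N * B * ‖a‖ := by
            rw [Finset.sum_const, Finset.card_univ, Fintype.card_fin, nsmul_eq_mul]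
            ring
    have hQint : ∫ y, ⟪p y, φ y • p y⟫_ℝ = Q a := by
      simp only [hQ]
      refine integral_congr_ae (Filter.Eventually.of_forall fun y => ?_)
      simp only [real_inner_smul_right, real_inner_self_eq_norm_sq, hpa]
    have hM0 : 0 < N * B * ‖a‖ := by
      rcases (by positivity : 0 ≤ N * B * ‖a‖).lt_or_eq with h1 | h1
      · exact h1
      exfalso
      have h2 : ∀ y, φ y • p y = 0 := by
        intro y
        have := hder 0 (Nat.zero_le _) y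
        rw [norm_iteratedFDeriv_zero, ← h1] at this
        exact norm_le_zero_iff.mp this
      have h3 := hQpos a h
      rw [← hQint] at h3
      simp [h2] at h3
    set M := N * B * ‖a‖ with hM
    have h1 := hg (fun y => M⁻¹ • (φ y • p y)) ⟨by
        have : ContDiff ℝ ∞ (fun y => M⁻¹ • (φ y • p y)) := (φ.contDiff.smul hp.1).const_smul _
        exact this.of_le (by exact_mod_cast le_top), by
        intro j hj y
        have h2 : iteratedFDeriv ℝ j (fun y => M⁻¹ • (φ y • p y)) y =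
            M⁻¹ • iteratedFDeriv ℝ j (fun y => φ y • p y) y :=
          iteratedFDeriv_const_smul_apply
            (((φ.contDiff.smul hp.1).contDiffAt).of_le (by exact_mod_cast le_top))
        rw [h2, norm_smul, norm_inv, Real.norm_of_nonneg hM0.le]
        rw [inv_mul_le_iff₀ hM0, mul_one]
        exact hder j hj y⟩ (by
        intro y hy
        by_contra hcon
        apply hy
        have : φ y = 0 := φ.zero_of_le_dist (by
          rw [dist_zero_right]
          show (1 / 5 : ℝ) ≤ ‖y‖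
          linarith [not_lt.mp hcon])
        simp [this])
    have h2 : ∫ y, ⟪p y, M⁻¹ • (φ y • p y)⟫_ℝ = M⁻¹ * Q a := by
      rw [← hQint, ← integral_const_mul]
      refine integral_congr_ae (Filter.Eventually.of_forall fun y => ?_)
      simp only
      rw [real_inner_smul_right]
    rw [h2] at h1
    have h3 : M⁻¹ * Q a ≤ τ := (le_abs_self _).trans h1
    rw [inv_mul_le_iff₀ hM0] at h3
    have h4 : c * ‖a‖ * ‖a‖ ≤ N * B * τ * ‖a‖ := by
      have := hc a
      rw [hM] at h3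
      nlinarith
    exact le_of_mul_le_mul_right h4 hn
  have h5 : ‖a‖ ≤ N * B * τ / c := by
    rw [le_div_iff₀ hc0]
    linarith
  calc ‖p x‖ ≤ N * K * ‖a‖ := hpx
    _ ≤ N * K * (N * B * τ / c) := by gcongr
    _ = N * K * (N * B) / c * τ := by ring
    _ ≤ (N * K * (N * B) / c + 1) * τ := by nlinarith

omit [FiniteDimensional ℝ V] in
lemma PolL_shift {k : ℕ} {p : Sp d → V} (h : PolL k p) (c : Sp d) :
    PolL k (fun y => p (c + y)) := by
  refine ⟨h.1.comp (contDiff_const.add contDiff_id), fun x => ?_⟩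
  rw [iteratedFDeriv_comp_add_left, h.2]

omit [FiniteDimensional ℝ V] in
lemma TFn_shift {J : ℕ} {N : ℝ} {g : Sp d → V} (h : TFn J N g) (c : Sp d) :
    TFn J N (fun y => g (c + y)) := by
  refine ⟨h.smooth.comp (contDiff_const.add contDiff_id), fun j hj x => ?_⟩
  rw [iteratedFDeriv_comp_add_left]
  exact h.bd j hj _

/-- the same for test functions supported near an arbitrary point -/
lemma polyc (d m J : ℕ) (V : Type*) [NormedAddCommGroup V] [InnerProductSpace ℝ V]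
    [FiniteDimensional ℝ V] (ρ : ℝ) :
    ∃ C : ℝ, 0 < C ∧ ∀ c : Sp d, ‖c‖ ≤ ρ → ∀ p : Sp d → V, PolL (m + 1) p → ∀ τ : ℝ, 0 ≤ τ →
      (∀ g : Sp d → V, TFn J 1 g → (∀ y, g y ≠ 0 → ‖y - c‖ < 1 / 4) →
        |∫ x, ⟪p x, g x⟫_ℝ| ≤ τ) → ∀ x, ‖x‖ ≤ ρ → ‖p x‖ ≤ C * τ := by
  obtain ⟨C, hC0, hC⟩ := poly0 d m J V (2 * ρ)
  refine ⟨C, hC0, fun c hc p hp τ hτ hg x hx => ?_⟩
  have h1 := hC (fun y => p (c + y)) (PolL_shift hp c) τ hτ (by
    intro g hgT hgs
    have h2 := hg (fun y => g (-c + y)) (TFn_shift hgT (-c)) (by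
      intro y hy
      have := hgs _ hy
      rwa [neg_add_eq_sub] at this)
    have h3 : ∫ x, ⟪p (c + x), g x⟫_ℝ = ∫ x, ⟪p x, g (-c + x)⟫_ℝ := by
      rw [← integral_add_left_eq_self (fun x => ⟪p x, g (-c + x)⟫_ℝ) c]
      simp
    rw [h3]
    exact h2) (x - c) (by
      have := norm_sub_le x c
      linarith)
  simpa using h1

end Poly

section Pair

variable {d : ℕ}

lemma DD_nn {E : Type} [NormedAddCommGroup E] [InnerProductSpace ℝ E] (b : Sp d → ℝ)
    (ε R s0 : ℝ) (hs0 : 0 < s0) (f : Sp d → E) (i : ℕ) (x : Sp d) {e : E} (he : ‖e‖ = 1) :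
    0 ≤ DD b ε R s0 f i x e := by
  have h1 : ∀ v : E, 0 ≤ ‖v‖ - ⟪v, e⟫_ℝ := by
    intro v
    have := real_inner_le_norm v e
    rw [he, mul_one] at this
    linarith
  unfold DD
  have h2 : 0 < lev s0 i := by
    unfold lev
    positivity
  refine mul_nonneg (by positivity) (add_nonneg (Finset.sum_nonneg fun l _ => mul_nonneg
    (by positivity) (integral_nonneg fun y => h1 _)) (mul_nonneg (by positivity)
      (integral_nonneg fun y => norm_nonneg _)))

/-- the pairing of f with a test field -/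
lemma pair (h1 : StmtMA) (h2 : StmtPE) (hd : 1 ≤ d) (M c ε : ℝ) (hε : 0 < ε) (hε1 : ε ≤ 1)
    (b : Sp d → ℝ) (hb : BaseKer 2 M c b) : ∃ C : ℝ, 0 < C ∧
    ∀ (E : Type) [NormedAddCommGroup E] [InnerProductSpace ℝ E] [FiniteDimensional ℝ E],
    ∀ f : Sp d → E, Continuous f → HasCompactSupport f → ∀ (R : ℝ), 5 ≤ R → ∀ (n : ℕ) (e : E),
    ‖e‖ = 1 → ∀ (S : Set (Sp d)), MeasurableSet S → ∀ (Φ : Sp d → E) (N : ℝ), 0 < N →
    TFn 2 N Φ → (∀ y, R - 2 ≤ ‖y‖ → Φ y = 0) → (∀ y z, Φ y ≠ 0 → ‖z - y‖ ≤ 1 → z ∈ S) →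
    |∫ y, ⟪f y, Φ y⟫_ℝ| ≤ C * N * ((∫ y in S, ‖fl b ε ((1 / 2) ^ n) f (n - 1) y‖) +
      DD b ε R ((1 / 2) ^ n) f n 0 e) := by
  obtain ⟨C1, hC1, H1⟩ := h1 d hd M c ε hε hε1 b hb
  obtain ⟨C2, hC2, H2⟩ := h2 d hd M c ε hε hε1 b hb
  refine ⟨C1 + 2 * C2, by positivity, ?_⟩
  intro E _ _ _ f hf hfs R hR n e he S hS Φ N hN hΦ hΦ0 hΦS
  have hDD : 0 ≤ DD b ε R ((1 / 2) ^ n) f n 0 e := DD_nn b ε R _ (by positivity) f n 0 he
  set D := DD b ε R ((1 / 2) ^ n) f n 0 e with hD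
  have hm0 : 0 ≤ ∫ y in S, ‖fl b ε ((1 / 2) ^ n) f (n - 1) y‖ :=
    integral_nonneg fun y => norm_nonneg _
  set Y : Sp d → E := fun y => N⁻¹ • Φ y with hY
  have hYc : ContDiff ℝ 2 Y := hΦ.smooth.const_smul _
  have hYd : ∀ j ≤ 2, ∀ y, ‖iteratedFDeriv ℝ j Y y‖ ≤ 1 := by
    intro j hj y
    have h3 : iteratedFDeriv ℝ j Y y = N⁻¹ • iteratedFDeriv ℝ j Φ y :=
      iteratedFDeriv_const_smul_apply ((hΦ.smooth.contDiffAt).of_le (by exact_mod_cast hj))
    rw [h3, norm_smul, norm_inv, Real.norm_of_nonneg hN.le, inv_mul_le_iff₀ hN, mul_one]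
    exact hΦ.bd j hj y
  have hY1 : ∀ y, ‖Y y‖ ≤ 1 := fun y => by
    have := hYd 0 (by norm_num) y
    rwa [norm_iteratedFDeriv_zero] at this
  have hY0 : ∀ y, R - 2 ≤ ‖y - 0‖ → Y y = 0 := fun y hy => by
    rw [sub_zero] at hy
    simp [hY, hΦ0 y hy]
  have hYS : ∀ y z, Y y ≠ 0 → ‖z - y‖ ≤ 1 → z ∈ S := by
    intro y z hy hz
    refine hΦS y z (fun h => hy ?_) hz
    simp [hY, h]
  set ζ : Sp d → ℝ := fun y => ⟪e, Y y⟫_ℝ with hζ
  have hζc : ContDiff ℝ 2 ζ := contDiff_const.inner ℝ hYc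
  have hζ1 : ∀ y, |ζ y| ≤ 1 := fun y => by
    have := abs_real_inner_le_norm e (Y y)
    rw [he, one_mul] at this
    exact this.trans (hY1 y)
  have hζd : ∀ y, ‖iteratedFDeriv ℝ 2 ζ y‖ ≤ 1 := fun y => by
    have h3 : ‖iteratedFDeriv ℝ 2 ((innerSL ℝ e) ∘ Y) y‖ ≤
        ‖innerSL ℝ e‖ * ‖iteratedFDeriv ℝ 2 Y y‖ :=
      (innerSL ℝ e).norm_iteratedFDeriv_comp_left hYc.contDiffAt le_rfl
    rw [innerSL_apply_norm, he, one_mul] at h3
    exact h3.trans (hYd 2 le_rfl y)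
  have hζ0 : ∀ y, R - 2 ≤ ‖y - 0‖ → ζ y = 0 := fun y hy => by
    simp [hζ, hY0 y hy]
  have hζS : ∀ y z, ζ y ≠ 0 → ‖z - y‖ ≤ 1 → z ∈ S := by
    intro y z hy hz
    refine hYS y z (fun h => hy ?_) hz
    simp [hζ, h]
  have h3 := (H1 E f hf hfs R hR n e he 0 S hS).1 ζ hζc hζ1 hζd hζ0 hζS
  have h4 := H2 E f hf hfs R (by linarith) n e he 0 Y S hS hYc hY1 (hYd 2 le_rfl) hY0 hYS
  have h5 : ∀ y, ⟪f y, Φ y⟫_ℝ = N * (⟪f y, e⟫_ℝ * ζ y + ⟪f y - ⟪f y, e⟫_ℝ • e, Y y⟫_ℝ) := by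
    intro y
    have : Φ y = N • Y y := by
      simp only [hY]
      rw [smul_smul, mul_inv_cancel₀ hN.ne', one_smul]
    rw [this, real_inner_smul_right, inner_sub_left, real_inner_smul_left]
    ring
  have i1 : Integrable (fun y => ⟪f y, e⟫_ℝ * ζ y) :=
    ((hf.inner continuous_const).mul hζc.continuous).integrable_of_hasCompactSupport (by
      refine hfs.mono' (fun y hy => subset_closure ?_)
      intro h
      apply hy
      simp [h])
  have i2 : Integrable (fun y => ⟪f y - ⟪f y, e⟫_ℝ • e, Y y⟫_ℝ) :=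
    ((hf.sub ((hf.inner continuous_const).smul continuous_const)).inner
      hYc.continuous).integrable_of_hasCompactSupport (by
      refine hfs.mono' (fun y hy => subset_closure ?_)
      intro h
      apply hy
      simp [h])
  rw [integral_congr_ae (Filter.Eventually.of_forall h5), integral_const_mul,
    integral_add i1 i2, abs_mul, abs_of_pos hN]
  set mS := ∫ y in S, ‖fl b ε ((1 / 2) ^ n) f (n - 1) y‖ with hmS
  have h6 : Real.sqrt (mS * D) ≤ mS + D := by
    rw [Real.sqrt_le_left (by positivity)]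
    nlinarith [mul_nonneg hm0 hDD]
  have h7 := abs_add_le (∫ y, ⟪f y, e⟫_ℝ * ζ y) (∫ y, ⟪f y - ⟪f y, e⟫_ℝ • e, Y y⟫_ℝ)
  have h8 : C2 * (Real.sqrt (mS * D) + D) ≤ C2 * (mS + D + D) := by gcongr
  have h9 : |(∫ y, ⟪f y, e⟫_ℝ * ζ y) + ∫ y, ⟪f y - ⟪f y, e⟫_ℝ • e, Y y⟫_ℝ| ≤
      (C1 + 2 * C2) * (mS + D) := by
    nlinarith [mul_nonneg hC2.le hm0]
  calc N * |(∫ y, ⟪f y, e⟫_ℝ * ζ y) + ∫ y, ⟪f y - ⟪f y, e⟫_ℝ • e, Y y⟫_ℝ|
      ≤ N * ((C1 + 2 * C2) * (mS + D)) := by gcongr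
    _ = (C1 + 2 * C2) * N * (mS + D) := by ring

end Pair

section Weight

variable {d : ℕ}

lemma nat_le (k : ℕ) : ((k : ℕ) : WithTop ℕ∞) ≤ ∞ := by exact_mod_cast le_top

lemma two_le : (2 : WithTop ℕ∞) ≤ ∞ := nat_le 2

lemma norm_smul_itF {F : Sp d → ℝ} (hF : ContDiff ℝ ∞ F) (a : ℝ) (j : ℕ) (y : Sp d) :
    ‖iteratedFDeriv ℝ j (fun y => a • F y) y‖ = |a| * ‖iteratedFDeriv ℝ j F y‖ := by
  have h3 := iteratedFDeriv_const_smul_apply (i := j) (a := a) (x := y)
    (hF.contDiffAt.of_le (nat_le j))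
  have h4 : (fun y => a • F y) = a • F := rfl
  rw [h4, h3, norm_smul, Real.norm_eq_abs]

lemma mul_d1 {F G : Sp d → ℝ} (hF : ContDiff ℝ ∞ F) (hG : ContDiff ℝ ∞ G) (y : Sp d) :
    ‖iteratedFDeriv ℝ 1 (fun y => F y * G y) y‖ ≤
      ‖iteratedFDeriv ℝ 0 F y‖ * ‖iteratedFDeriv ℝ 1 G y‖ +
      ‖iteratedFDeriv ℝ 1 F y‖ * ‖iteratedFDeriv ℝ 0 G y‖ := by
  have h := norm_iteratedFDeriv_mul_le hF hG y (n := 1) (nat_le 1)
  rw [Finset.sum_range_succ, Finset.sum_range_one] at h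
  have h' : ‖iteratedFDeriv ℝ 1 (fun y => F y * G y) y‖ ≤
      (Nat.choose 1 0 : ℝ) * ‖iteratedFDeriv ℝ 0 F y‖ * ‖iteratedFDeriv ℝ 1 G y‖ +
      (Nat.choose 1 1 : ℝ) * ‖iteratedFDeriv ℝ 1 F y‖ * ‖iteratedFDeriv ℝ 0 G y‖ := h
  rwa [Nat.choose_zero_right, Nat.choose_self, Nat.cast_one, one_mul, one_mul] at h'

lemma mul_d2 {F G : Sp d → ℝ} (hF : ContDiff ℝ ∞ F) (hG : ContDiff ℝ ∞ G) (y : Sp d) :
    ‖iteratedFDeriv ℝ 2 (fun y => F y * G y) y‖ ≤
      ‖iteratedFDeriv ℝ 0 F y‖ * ‖iteratedFDeriv ℝ 2 G y‖ +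
      2 * ‖iteratedFDeriv ℝ 1 F y‖ * ‖iteratedFDeriv ℝ 1 G y‖ +
      ‖iteratedFDeriv ℝ 2 F y‖ * ‖iteratedFDeriv ℝ 0 G y‖ := by
  have h := norm_iteratedFDeriv_mul_le hF hG y (n := 2) (nat_le 2)
  rw [Finset.sum_range_succ, Finset.sum_range_succ, Finset.sum_range_one] at h
  have h' : ‖iteratedFDeriv ℝ 2 (fun y => F y * G y) y‖ ≤
      (Nat.choose 2 0 : ℝ) * ‖iteratedFDeriv ℝ 0 F y‖ * ‖iteratedFDeriv ℝ 2 G y‖ +
      (Nat.choose 2 1 : ℝ) * ‖iteratedFDeriv ℝ 1 F y‖ * ‖iteratedFDeriv ℝ 1 G y‖ +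
      (Nat.choose 2 2 : ℝ) * ‖iteratedFDeriv ℝ 2 F y‖ * ‖iteratedFDeriv ℝ 0 G y‖ := h
  rwa [Nat.choose_zero_right, Nat.choose_self, Nat.choose_one_right, Nat.cast_one, one_mul,
    one_mul, Nat.cast_ofNat] at h'

lemma zR_contDiff {R : ℝ} (hR : 0 < R) : ContDiff ℝ ∞ (zR R : Sp d → ℝ) := by
  rw [contDiff_iff_contDiffAt]
  intro x
  by_cases hx : x = 0
  · have h : (zR R : Sp d → ℝ) =ᶠ[nhds x] fun _ => (1 : ℝ) := by
      filter_upwards [ball_mem_nhds x hR] with y hy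
      subst hx
      rw [mem_ball, dist_zero_right] at hy
      exact Real.smoothTransition.one_of_one_le (by linarith)
    exact contDiffAt_const.congr_of_eventuallyEq h
  · exact Real.smoothTransition.contDiffAt.comp x (contDiffAt_const.sub (contDiffAt_norm ℝ hx))

lemma zR_nn (R : ℝ) (x : Sp d) : 0 ≤ zR R x := Real.smoothTransition.nonneg _

lemma zR_le (R : ℝ) (x : Sp d) : zR R x ≤ 1 := Real.smoothTransition.le_one _

lemma zR_one {R : ℝ} {x : Sp d} (h : ‖x‖ ≤ R) : zR R x = 1 :=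
  Real.smoothTransition.one_of_one_le (by linarith)

lemma zR_zero {R : ℝ} {x : Sp d} (h : R + 1 ≤ ‖x‖) : zR R x = 0 :=
  Real.smoothTransition.zero_of_nonpos (by linarith)

lemma zR_cs {R : ℝ} : HasCompactSupport (zR R : Sp d → ℝ) := by
  refine HasCompactSupport.of_support_subset_isCompact (isCompact_closedBall 0 (R + 1)) ?_
  intro x hx
  rw [mem_closedBall, dist_zero_right]
  by_contra h
  exact hx (zR_zero (not_le.mp h).le)

lemma ht_contDiff (ν : Sp d) (c : ℝ) : ContDiff ℝ ∞ (ht ν c) :=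
  (contDiff_const.inner ℝ contDiff_id).sub contDiff_const

lemma ht_fderiv (ν : Sp d) (c : ℝ) : fderiv ℝ (ht ν c) = fun _ => innerSL ℝ ν := by
  funext y
  have h1 : HasFDerivAt (fun y : Sp d => (innerSL ℝ ν) y - c) (innerSL ℝ ν) y :=
    ((innerSL ℝ ν).hasFDerivAt (x := y)).sub_const c
  exact h1.fderiv

lemma ht_d1 {ν : Sp d} (hν : ‖ν‖ = 1) (c : ℝ) (y : Sp d) : ‖iteratedFDeriv ℝ 1 (ht ν c) y‖ = 1 := by
  rw [norm_iteratedFDeriv_one, ht_fderiv, innerSL_apply_norm, hν]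

lemma ht_d2 (ν : Sp d) (c : ℝ) (y : Sp d) : ‖iteratedFDeriv ℝ 2 (ht ν c) y‖ = 0 := by
  rw [← norm_iteratedFDeriv_fderiv, ht_fderiv, iteratedFDeriv_const_of_ne one_ne_zero]
  simp

lemma ht_lip {ν : Sp d} (hν : ‖ν‖ = 1) (c : ℝ) (y z : Sp d) :
    |ht ν c z - ht ν c y| ≤ ‖z - y‖ := by
  have h1 : ht ν c z - ht ν c y = ⟪ν, z - y⟫_ℝ := by
    unfold ht
    rw [inner_sub_right]
    ring
  rw [h1]
  have := abs_real_inner_le_norm ν (z - y)
  rwa [hν, one_mul] at this

lemma ht_abs {ν : Sp d} (hν : ‖ν‖ = 1) (c : ℝ) (y : Sp d) : |ht ν c y| ≤ ‖y‖ + |c| := by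
  unfold ht
  have h1 := abs_real_inner_le_norm ν y
  rw [hν, one_mul] at h1
  exact (abs_sub _ _).trans (by linarith)

/-- second derivatives of the weight -/
lemma weight (R0 : ℝ) (hR0 : 0 < R0) : ∃ K : ℝ, 1 ≤ K ∧ ∀ (ν : Sp d) (c : ℝ), ‖ν‖ = 1 →
    |c| ≤ 3 * R0 → (∀ y, zR R0 y * ht ν c y ^ 2 ≤ K) ∧
      ∀ y, ‖iteratedFDeriv ℝ 2 (fun y => zR R0 y * ht ν c y ^ 2) y‖ ≤ K := by
  obtain ⟨B, hB0, hB⟩ := cs_bound (zR_contDiff (d := d) hR0) zR_cs 2
  set A : ℝ := 4 * R0 + 1 with hA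
  have hA0 : 0 < A := by positivity
  have hA2 : 0 ≤ A ^ 2 + 4 * A + 2 := by positivity
  have hBA := mul_nonneg hB0 hA2
  refine ⟨1 + A ^ 2 + B * (A ^ 2 + 4 * A + 2), ?_, fun ν c hν hc => ⟨fun y => ?_,
      fun y => ?_⟩⟩
  · nlinarith [sq_nonneg A]
  · rcases le_or_gt (R0 + 1) ‖y‖ with h | h
    · rw [zR_zero h, zero_mul]
      positivity
    · have h1 : |ht ν c y| ≤ A := (ht_abs hν c y).trans (by rw [hA]; linarith)
      have h2 : ht ν c y ^ 2 ≤ A ^ 2 := sq_le_sq' (by linarith [(abs_le.mp h1).1])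
        (abs_le.mp h1).2
      have h3 : zR R0 y * ht ν c y ^ 2 ≤ 1 * A ^ 2 :=
        mul_le_mul (zR_le _ _) h2 (sq_nonneg _) zero_le_one
      linarith
  · rcases lt_or_ge (R0 + 1) ‖y‖ with h | h
    · have h1 : (fun y => zR R0 y * ht ν c y ^ 2) =ᶠ[nhds y] fun _ => (0 : ℝ) := by
        filter_upwards [(isOpen_lt continuous_const continuous_norm).mem_nhds h] with z hz
        rw [zR_zero (le_of_lt hz), zero_mul]
      rw [(h1.iteratedFDeriv ℝ 2).eq_of_nhds, iteratedFDeriv_fun_zero]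
      simp only [Pi.zero_apply, norm_zero]
      positivity
    · have h1 : |ht ν c y| ≤ A := (ht_abs hν c y).trans (by rw [hA]; linarith)
      have hs : ContDiff ℝ ∞ (fun y => ht ν c y ^ 2) := (ht_contDiff ν c).pow 2
      have e0 : ‖iteratedFDeriv ℝ 0 (fun y => ht ν c y ^ 2) y‖ ≤ A ^ 2 := by
        rw [norm_iteratedFDeriv_zero, Real.norm_eq_abs, abs_pow]
        exact pow_le_pow_left₀ (abs_nonneg _) h1 2
      have hpow : (fun y => ht ν c y ^ 2) = fun y => ht ν c y * ht ν c y := by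
        funext z
        ring
      have e1 : ‖iteratedFDeriv ℝ 1 (fun y => ht ν c y ^ 2) y‖ ≤ 2 * A := by
        rw [hpow]
        refine (mul_d1 (ht_contDiff ν c) (ht_contDiff ν c) y).trans ?_
        rw [ht_d1 hν, norm_iteratedFDeriv_zero, Real.norm_eq_abs]
        linarith
      have e2 : ‖iteratedFDeriv ℝ 2 (fun y => ht ν c y ^ 2) y‖ ≤ 2 := by
        rw [hpow]
        refine (mul_d2 (ht_contDiff ν c) (ht_contDiff ν c) y).trans ?_
        rw [ht_d1 hν, ht_d2, norm_iteratedFDeriv_zero, Real.norm_eq_abs]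
        linarith
      refine (mul_d2 (zR_contDiff hR0) hs y).trans ?_
      have b0 := hB 0 (by norm_num) y
      have b1 := hB 1 (by norm_num) y
      have b2 := hB 2 (by norm_num) y
      have p0 := mul_le_mul b0 e2 (norm_nonneg _) hB0
      have p1 := mul_le_mul b1 e1 (norm_nonneg _) hB0
      have p2 := mul_le_mul b2 e0 (norm_nonneg _) hB0
      have p3 : B * 2 + 2 * (B * (2 * A)) + B * A ^ 2 = B * (A ^ 2 + 4 * A + 2) := by ring
      have := sq_nonneg A
      linarith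

/-- the mass far from a plane -/
lemma mass (h1 : StmtMA) (hd : 1 ≤ d) (M c0 ε : ℝ) (hε : 0 < ε) (hε1 : ε ≤ 1)
    (b : Sp d → ℝ) (hb : BaseKer 2 M c0 b) (R0 : ℝ) (hR0 : 20 ≤ R0) : ∃ C : ℝ, 0 < C ∧
    ∀ (E : Type) [NormedAddCommGroup E] [InnerProductSpace ℝ E] [FiniteDimensional ℝ E],
    ∀ f : Sp d → E, Continuous f → HasCompactSupport f → ∀ (R : ℝ), R0 + 10 ≤ R →
    ∀ (n : ℕ) (e : E), ‖e‖ = 1 → ∀ (ν : Sp d) (c : ℝ), ‖ν‖ = 1 → |c| ≤ 3 * R0 →
    (∫ y in {y : Sp d | ‖y‖ ≤ R0 - 9 ∧ 3 ≤ |ht ν c y|},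
      ‖fl b ε ((1 / 2) ^ n) f (n - 1) y‖) ≤
      C * bD b ε R0 R ((1 / 2) ^ n) f n 0 e ν c := by
  obtain ⟨C1, hC1, H1⟩ := h1 d hd M c0 ε hε hε1 b hb
  obtain ⟨K, hK1, hK⟩ := weight (d := d) R0 (by linarith)
  have hK0 : 0 < K := by linarith
  refine ⟨1 + C1 * K, by positivity, ?_⟩
  intro E _ _ _ f hf hfs R hR n e he ν c hν hc
  have hDD : 0 ≤ DD b ε R ((1 / 2) ^ n) f n 0 e := DD_nn b ε R _ (by positivity) f n 0 he
  obtain ⟨hw1, hw2⟩ := hK ν c hν hc
  have hhc : Continuous (ht ν c) := (ht_contDiff ν c).continuous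
  set S : Set (Sp d) := {y : Sp d | ‖y‖ ≤ R0 - 9 ∧ 3 ≤ |ht ν c y|} with hS
  have hSm : MeasurableSet S :=
    (isClosed_le continuous_norm continuous_const).measurableSet.inter
      (isClosed_le continuous_const hhc.abs).measurableSet
  have hsm : ContDiff ℝ ∞ (fun y => zR R0 y * ht ν c y ^ 2) :=
    (zR_contDiff (by linarith)).mul ((ht_contDiff ν c).pow 2)
  set H : Sp d → ℝ := fun y => K⁻¹ • (zR R0 y * ht ν c y ^ 2) with hH
  have hHc : ContDiff ℝ 2 H := (hsm.const_smul K⁻¹).of_le two_le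
  have h2 := (H1 E f hf hfs R (by linarith) n e he 0 S hSm).2 H K⁻¹ (by positivity)
    (inv_le_one_of_one_le₀ hK1) hHc
    (fun y => mul_nonneg (by positivity) (mul_nonneg (zR_nn _ _) (sq_nonneg _)))
    (fun y => by
      simp only [hH, smul_eq_mul]
      rw [inv_mul_le_iff₀ hK0, mul_one]
      exact hw1 y)
    (fun y => by
      rw [hH, norm_smul_itF hsm, abs_inv, abs_of_pos hK0, inv_mul_le_iff₀ hK0, mul_one]
      exact hw2 y)
    (fun y hy => by
      rw [sub_zero] at hy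
      simp only [hH, smul_eq_mul]
      rw [zR_zero (by linarith), zero_mul, mul_zero])
    (fun y z hy hz => by
      have h3 : ‖z‖ ≤ R0 := by
        have h4 : ‖z‖ ≤ ‖y‖ + ‖z - y‖ := by
          have := norm_add_le y (z - y)
          rwa [add_sub_cancel] at this
        have := hy.1
        linarith
      have h5 := (ht_lip hν c y z).trans hz
      have h6 : 1 ≤ |ht ν c z| := by
        have h7 := hy.2
        have h8 : |ht ν c y| ≤ |ht ν c z| + |ht ν c z - ht ν c y| := by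
          have := abs_sub_abs_le_abs_sub (ht ν c y) (ht ν c z)
          rw [abs_sub_comm] at this
          linarith
        linarith
      simp only [hH, smul_eq_mul]
      rw [zR_one h3, one_mul]
      have h7 : 1 ≤ ht ν c z ^ 2 := by
        rw [← sq_abs]
        nlinarith
      have : 0 < K⁻¹ := by positivity
      nlinarith)
  have h3 : ∫ y, ⟪f y, e⟫_ℝ * H y = K⁻¹ * ∫ y, ⟪f y, e⟫_ℝ * (zR R0 y * ht ν c y ^ 2) := by
    rw [← integral_const_mul]
    refine integral_congr_ae (Filter.Eventually.of_forall fun y => ?_)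
    simp only [hH, smul_eq_mul]
    ring
  have h4 : bb R0 ((1 / 2) ^ n) f n 0 e ν c = ∫ y, ⟪f y, e⟫_ℝ * (zR R0 y * ht ν c y ^ 2) := by
    have hl : lev ((1 / 2 : ℝ) ^ n) n = 1 := by
      unfold lev
      rw [← mul_pow]
      norm_num
    unfold bb
    rw [hl]
    simp
  rw [h3, ← h4] at h2
  have h5 : bb R0 ((1 / 2) ^ n) f n 0 e ν c ≤ max 0 (bb R0 ((1 / 2) ^ n) f n 0 e ν c) :=
    le_max_right _ _
  have h6 : 0 ≤ max 0 (bb R0 ((1 / 2) ^ n) f n 0 e ν c) := le_max_left _ _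
  have h7 : 1 / K⁻¹ * (K⁻¹ * bb R0 ((1 / 2) ^ n) f n 0 e ν c) =
      bb R0 ((1 / 2) ^ n) f n 0 e ν c := by
    field_simp
  rw [h7, div_inv_eq_mul] at h2
  unfold bD
  nlinarith [mul_nonneg (mul_nonneg hC1.le hK0.le) h6]

end Weight

end

end HU

open HU in
theorem stmtHU (h : StmtTP) (h1 : StmtMA) (h2 : StmtPE) (_h3 : StmtZ) (h4 : StmtTQ) : StmtHU := by
  intro d V E _ _ _ _ _ _ L n0 T hd hn0 hNS M c0 ε hε hε1 b hb R0 hR0
  obtain ⟨CT, hCT, HT⟩ := h d V E L n0 T hd hn0 hNS 2 (1 / 4) R0 (by norm_num) (by linarith)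
  obtain ⟨CP, hCP, HP⟩ := pair h1 h2 hd M c0 ε hε hε1 b hb
  obtain ⟨CM, hCM, HM⟩ := mass h1 hd M c0 ε hε hε1 b hb R0 hR0
  obtain ⟨CQ, hCQ, HQ⟩ := polyc d n0 (2 + n0 + 1) V R0
  -- the common estimate
  have main : ∀ (R : ℝ), R0 + 10 ≤ R → ∀ (n : ℕ) (u : Sp d → V), TF u → ∀ e : E, ‖e‖ = 1 →
      ∀ (c1 c2 : Sp d) (r1 r2 : ℝ), 1 / 4 ≤ r1 → r1 ≤ 4 → 1 / 4 ≤ r2 → r2 ≤ 4 →
        ‖c1‖ + r1 ≤ R0 - 10 → ‖c2‖ + r2 ≤ R0 - 10 → ∀ S : Set (Sp d), MeasurableSet S →
        (∀ y ∈ convexHull ℝ (closedBall c1 r1 ∪ closedBall c2 r2), ∀ z, ‖z - y‖ ≤ 1 → z ∈ S) →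
        ∀ x, ‖x‖ ≤ R0 → ‖ATP n0 c1 r1 u x - ATP n0 c2 r2 u x‖ ≤
          CQ * (2 * CP * CT) *
            ((∫ y in S, ‖fl b ε ((1 / 2) ^ n) (fo L u) (n - 1) y‖) +
              DD b ε R ((1 / 2) ^ n) (fo L u) n 0 e) := by
    intro R hR n u hu e he c1 c2 r1 r2 hr1 hr1' hr2 hr2' hc1 hc2 S hS hK x hx
    have hfc : Continuous (fo L u) := L.continuous.comp (hu.smooth.continuous_fderiv (by simp))
    have hfs : HasCompactSupport (fo L u) := by
      have h5 : HasCompactSupport (fderiv ℝ u) := hu.supp.fderiv ℝ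
      exact h5.comp_left (g := L) (map_zero L)
    have hD0 : 0 ≤ DD b ε R ((1 / 2) ^ n) (fo L u) n 0 e :=
      DD_nn b ε R _ (by positivity) _ n 0 he
    have hm0 : 0 ≤ ∫ y in S, ‖fl b ε ((1 / 2) ^ n) (fo L u) (n - 1) y‖ :=
      integral_nonneg fun y => norm_nonneg _
    set X := (∫ y in S, ‖fl b ε ((1 / 2) ^ n) (fo L u) (n - 1) y‖) +
      DD b ε R ((1 / 2) ^ n) (fo L u) n 0 e with hX
    have hX0 : 0 ≤ X := add_nonneg hm0 hD0
    have q1 := h4 d V n0 u hd hu.smooth c1 r1 (by linarith)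
    have q2 := h4 d V n0 u hd hu.smooth c2 r2 (by linarith)
    have hp : PolL (n0 + 1) (fun y => ATP n0 c1 r1 u y - ATP n0 c2 r2 u y) :=
      (PS d n0 V).sub_mem (x := ATP n0 c1 r1 u) (y := ATP n0 c2 r2 u) ⟨q1.1, q1.2.1⟩
        ⟨q2.1, q2.2.1⟩
    have hKb : convexHull ℝ (closedBall c1 r1 ∪ closedBall c2 r2) ⊆
        closedBall (0 : Sp d) (R0 - 10) := by
      refine convexHull_min (union_subset ?_ ?_) (convex_closedBall _ _)
      · exact closedBall_subset_closedBall' (by rw [dist_zero_right]; linarith)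
      · exact closedBall_subset_closedBall' (by rw [dist_zero_right]; linarith)
    have h9 : CQ * (2 * CP * CT) * X = CQ * (2 * CP * CT * X) := by ring
    rw [h9]
    refine HQ c1 (by linarith) _ hp (2 * CP * CT * X) (by positivity) ?_ x hx
    intro g hg hgs
    have hgt : tsupport g ⊆ closedBall c1 (1 / 4) := by
      refine closure_minimal (fun y hy => ?_) isClosed_closedBall
      rw [mem_closedBall, dist_eq_norm]
      exact (hgs y hy).le
    have hgc : HasCompactSupport g :=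
      HasCompactSupport.of_support_subset_isCompact (isCompact_closedBall c1 (1 / 4))
        (subset_closure.trans hgt)
    have hg0 : ∀ y, R0 ≤ ‖y‖ → g y = 0 := by
      intro y hy
      by_contra hcon
      have h5 := hgs y hcon
      have h6 : ‖y‖ ≤ ‖c1‖ + ‖y - c1‖ := by
        have := norm_add_le c1 (y - c1)
        rwa [add_sub_cancel] at this
      linarith
    obtain ⟨Φ1, hΦ1, hΦ1s, hΦ1i⟩ := HT c1 r1 (by linarith) hr1 (by linarith) g 1 hg hg0
    obtain ⟨Φ2, hΦ2, hΦ2s, hΦ2i⟩ := HT c2 r2 (by linarith) hr2 (by linarith) g 1 hg hg0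
    have s1 : ∀ y, Φ1 y ≠ 0 → y ∈ convexHull ℝ (closedBall c1 r1 ∪ closedBall c2 r2) := by
      intro y hy
      refine convexHull_mono (union_subset ?_ subset_union_left) (hΦ1s y hy)
      exact (hgt.trans (closedBall_subset_closedBall hr1)).trans subset_union_left
    have s2 : ∀ y, Φ2 y ≠ 0 → y ∈ convexHull ℝ (closedBall c1 r1 ∪ closedBall c2 r2) := by
      intro y hy
      refine convexHull_mono (union_subset ?_ subset_union_right) (hΦ2s y hy)
      exact (hgt.trans (closedBall_subset_closedBall hr1)).trans subset_union_left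
    have b1 := HP E (fo L u) hfc hfs R (by linarith) n e he S hS Φ1 (CT * 1) (by positivity) hΦ1
      (fun y hy => by
        by_contra hcon
        have := hKb (s1 y hcon)
        rw [mem_closedBall, dist_zero_right] at this
        linarith) (fun y z hy hz => hK y (s1 y hy) z hz)
    have b2 := HP E (fo L u) hfc hfs R (by linarith) n e he S hS Φ2 (CT * 1) (by positivity) hΦ2
      (fun y hy => by
        by_contra hcon
        have := hKb (s2 y hcon)
        rw [mem_closedBall, dist_zero_right] at this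
        linarith) (fun y z hy hz => hK y (s2 y hy) z hz)
    have e1 := hΦ1i u hu.smooth
    have e2 := hΦ2i u hu.smooth
    have ci : ∀ w : Sp d → V, Continuous w → Integrable (fun y => ⟪w y, g y⟫_ℝ) := by
      intro w hw
      refine (hw.inner hg.smooth.continuous).integrable_of_hasCompactSupport ?_
      refine hgc.mono' (fun y hy => subset_closure ?_)
      intro h5
      apply hy
      simp [h5]
    have h5 : ∫ y, ⟪ATP n0 c1 r1 u y - ATP n0 c2 r2 u y, g y⟫_ℝ =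
        (∫ y, ⟪fo L u y, Φ2 y⟫_ℝ) - ∫ y, ⟪fo L u y, Φ1 y⟫_ℝ := by
      rw [← e1, ← e2, ← integral_sub
        (ci (fun y => u y - ATP n0 c2 r2 u y) (hu.smooth.continuous.sub q2.1.continuous))
        (ci (fun y => u y - ATP n0 c1 r1 u y) (hu.smooth.continuous.sub q1.1.continuous))]
      refine integral_congr_ae (Filter.Eventually.of_forall fun y => ?_)
      simp only [inner_sub_left]
      ring
    rw [h5]
    have h6 := abs_sub (∫ y, ⟪fo L u y, Φ2 y⟫_ℝ) (∫ y, ⟪fo L u y, Φ1 y⟫_ℝ)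
    rw [mul_one] at b1 b2
    linarith
  have hl : ∀ n : ℕ, lev ((1 / 2 : ℝ) ^ n) n = 1 := fun n => by
    unfold lev
    rw [← mul_pow]
    norm_num
  refine ⟨CQ * (2 * CP * CT) * (CM + 1), by positivity, ?_⟩
  intro R hR n u hu e he c1 c2 r1 r2 hr1 hr1' hr2 hr2' hc1 hc2
  have hfc : Continuous (fo L u) := L.continuous.comp (hu.smooth.continuous_fderiv (by simp))
  have hfs : HasCompactSupport (fo L u) := by
    have h5 : HasCompactSupport (fderiv ℝ u) := hu.supp.fderiv ℝ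
    exact h5.comp_left (g := L) (map_zero L)
  have hD0 : 0 ≤ DD b ε R ((1 / 2) ^ n) (fo L u) n 0 e :=
    DD_nn b ε R _ (by positivity) _ n 0 he
  have hKb : convexHull ℝ (closedBall c1 r1 ∪ closedBall c2 r2) ⊆
      closedBall (0 : Sp d) (R0 - 10) := by
    refine convexHull_min (union_subset ?_ ?_) (convex_closedBall _ _)
    · exact closedBall_subset_closedBall' (by rw [dist_zero_right]; linarith)
    · exact closedBall_subset_closedBall' (by rw [dist_zero_right]; linarith)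
  have hnz : ∀ y z : Sp d, ‖z - y‖ ≤ 1 → ‖z‖ ≤ ‖y‖ + 1 := by
    intro y z hz
    have := norm_add_le y (z - y)
    rw [add_sub_cancel] at this
    linarith
  refine ⟨fun x hx => ?_, fun ν c hν hc hK x hx => ?_⟩
  · have h5 := main R hR n u hu e he c1 c2 r1 r2 hr1 hr1' hr2 hr2' hc1 hc2 (ball 0 R0)
      measurableSet_ball (fun y hy z hz => by
        have h6 := hKb hy
        rw [mem_closedBall, dist_zero_right] at h6
        rw [mem_ball, dist_zero_right]
        have := hnz y z hz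
        linarith) x hx
    have h6 : ma b ε R0 ((1 / 2) ^ n) (fo L u) n 0 =
        ∫ y in ball (0 : Sp d) R0, ‖fl b ε ((1 / 2) ^ n) (fo L u) (n - 1) y‖ := by
      unfold ma
      rw [hl]
      simp
    have h7 : 0 ≤ ma b ε R0 ((1 / 2) ^ n) (fo L u) n 0 := by
      rw [h6]
      exact integral_nonneg fun y => norm_nonneg _
    rw [← h6] at h5
    refine h5.trans ?_
    have h8 : CQ * (2 * CP * CT) * 1 ≤ CQ * (2 * CP * CT) * (CM + 1) := by
      gcongr
      linarith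
    have h9 := mul_le_mul_of_nonneg_right h8 (add_nonneg h7 hD0)
    rwa [mul_one] at h9
  · have h5 := main R hR n u hu e he c1 c2 r1 r2 hr1 hr1' hr2 hr2' hc1 hc2
      {y : Sp d | ‖y‖ ≤ R0 - 9 ∧ 3 ≤ |ht ν c y|}
      ((isClosed_le continuous_norm continuous_const).measurableSet.inter
        (isClosed_le continuous_const (ht_contDiff ν c).continuous.abs).measurableSet)
      (fun y hy z hz => by
        have h6 := hKb hy
        rw [mem_closedBall, dist_zero_right] at h6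
        have h7 := hnz y z hz
        have h8 := hK y hy
        have h9 := (ht_lip hν c y z).trans hz
        refine ⟨by linarith, ?_⟩
        have h10 := abs_sub_abs_le_abs_sub (ht ν c y) (ht ν c z)
        rw [abs_sub_comm] at h10
        linarith) x hx
    have h6 := HM E (fo L u) hfc hfs R hR n e he ν c hν hc
    have h7 : DD b ε R ((1 / 2) ^ n) (fo L u) n 0 e ≤
        bD b ε R0 R ((1 / 2) ^ n) (fo L u) n 0 e ν c := by
      unfold bD
      linarith [le_max_left 0 (bb R0 ((1 / 2) ^ n) (fo L u) n 0 e ν c)]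
    refine h5.trans ?_
    have h8 : CQ * (2 * CP * CT) * (CM + 1) * bD b ε R0 R ((1 / 2) ^ n) (fo L u) n 0 e ν c =
        CQ * (2 * CP * CT) * (CM * bD b ε R0 R ((1 / 2) ^ n) (fo L u) n 0 e ν c +
          bD b ε R0 R ((1 / 2) ^ n) (fo L u) n 0 e ν c) := by ring
    rw [h8]
    gcongr

open HU in
theorem stmtJC (h : StmtHU) : StmtJC := by
  intro d V E _ _ _ _ _ _ L n0 T hd hn0 hNS M c0 ε hε hε1 b hb R0 hR0
  obtain ⟨C, hC, H⟩ := h d V E L n0 T hd hn0 hNS M c0 ε hε hε1 b hb R0 (by linarith)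
  refine ⟨2 * C, by positivity, ?_⟩
  intro R hR n u hu e he ν q q' hν hqq hq hq' x hx
  have hnv : ∀ (p : Sp d) (t : ℝ), 0 ≤ t → ‖p‖ ≤ R0 / 2 → ‖p + t • ν‖ ≤ R0 / 2 + t ∧
      ‖p - t • ν‖ ≤ R0 / 2 + t := by
    intro p t ht0 hp
    have h1 : ‖t • ν‖ = t := by rw [norm_smul, hν, mul_one, Real.norm_of_nonneg ht0]
    have h2 := norm_add_le p (t • ν)
    have h3 := norm_sub_le p (t • ν)
    exact ⟨by linarith, by linarith⟩
  have hc : |⟪ν, q⟫_ℝ| ≤ 3 * R0 := by
    have := abs_real_inner_le_norm ν q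
    rw [hν, one_mul] at this
    linarith
  have hνν : ⟪ν, ν⟫_ℝ = 1 := by rw [real_inner_self_eq_norm_sq, hν, one_pow]
  -- heights
  have up : ∀ (p : Sp d) (t r : ℝ), ⟪ν, p⟫_ℝ = ⟪ν, q⟫_ℝ → 5 + r ≤ t →
      closedBall (p + t • ν) r ⊆ {y | 5 ≤ ht ν ⟪ν, q⟫_ℝ y} := by
    intro p t r hp htr y hy
    rw [mem_closedBall, dist_eq_norm] at hy
    have h1 := (abs_le.mp (ht_lip hν ⟪ν, q⟫_ℝ (p + t • ν) y)).1
    have h2 : ht ν ⟪ν, q⟫_ℝ (p + t • ν) = t := by
      unfold ht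
      rw [inner_add_right, real_inner_smul_right, hνν, hp]
      ring
    show 5 ≤ ht ν ⟪ν, q⟫_ℝ y
    linarith
  have dn : ∀ (p : Sp d) (t r : ℝ), ⟪ν, p⟫_ℝ = ⟪ν, q⟫_ℝ → 5 + r ≤ t →
      closedBall (p - t • ν) r ⊆ {y | ht ν ⟪ν, q⟫_ℝ y ≤ -5} := by
    intro p t r hp htr y hy
    rw [mem_closedBall, dist_eq_norm] at hy
    have h1 := (abs_le.mp (ht_lip hν ⟪ν, q⟫_ℝ (p - t • ν) y)).2
    have h2 : ht ν ⟪ν, q⟫_ℝ (p - t • ν) = -t := by
      unfold ht
      rw [inner_sub_right, real_inner_smul_right, hνν, hp]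
      ring
    show ht ν ⟪ν, q⟫_ℝ y ≤ -5
    linarith
  have cup : Convex ℝ {y | 5 ≤ ht ν ⟪ν, q⟫_ℝ y} := by
    have h1 : {y | 5 ≤ ht ν ⟪ν, q⟫_ℝ y} = {y | 5 + ⟪ν, q⟫_ℝ ≤ (innerSL ℝ ν) y} := by
      ext y
      simp only [mem_ofPred_eq, ht, innerSL_apply_apply]
      constructor <;> intro h <;> linarith
    rw [h1]
    exact convex_halfSpace_ge (innerSL ℝ ν).isLinear _
  have cdn : Convex ℝ {y | ht ν ⟪ν, q⟫_ℝ y ≤ -5} := by
    have h1 : {y | ht ν ⟪ν, q⟫_ℝ y ≤ -5} = {y | (innerSL ℝ ν) y ≤ -5 + ⟪ν, q⟫_ℝ} := by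
      ext y
      simp only [mem_ofPred_eq, ht, innerSL_apply_apply]
      constructor <;> intro h <;> linarith
    rw [h1]
    exact convex_halfSpace_le (innerSL ℝ ν).isLinear _
  have gen : ∀ (t r : ℝ), 5 + r ≤ t → t + r ≤ 14 → 1 / 4 ≤ r → r ≤ 4 →
      ‖(ATP n0 (q' + t • ν) r u x - ATP n0 (q' - t • ν) r u x) - JJ n0 ν q 1 u x‖ ≤
        2 * C * bD b ε R0 R ((1 / 2) ^ n) (fo L u) n 0 e ν ⟪ν, q⟫_ℝ := by
    intro t r ht1 ht2 hr1 hr2
    have a1 := (H R hR n u hu e he (q' + t • ν) (q + (6 : ℝ) • ν) r 1 hr1 hr2 (by norm_num)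
      (by norm_num) (by linarith [(hnv q' t (by linarith) hq').1])
      (by linarith [(hnv q 6 (by norm_num) hq).1])).2 ν ⟪ν, q⟫_ℝ hν hc (fun y hy => by
        have h1 := convexHull_min (union_subset (up q' t r hqq.symm ht1)
          (up q 6 1 rfl (by norm_num))) cup hy
        have h2 : 5 ≤ ht ν ⟪ν, q⟫_ℝ y := h1
        have := le_abs_self (ht ν ⟪ν, q⟫_ℝ y)
        linarith) x hx
    have a2 := (H R hR n u hu e he (q' - t • ν) (q - (6 : ℝ) • ν) r 1 hr1 hr2 (by norm_num)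
      (by norm_num) (by linarith [(hnv q' t (by linarith) hq').2])
      (by linarith [(hnv q 6 (by norm_num) hq).2])).2 ν ⟪ν, q⟫_ℝ hν hc (fun y hy => by
        have h1 := convexHull_min (union_subset (dn q' t r hqq.symm ht1)
          (dn q 6 1 rfl (by norm_num))) cdn hy
        have h2 : ht ν ⟪ν, q⟫_ℝ y ≤ -5 := h1
        have := neg_le_abs (ht ν ⟪ν, q⟫_ℝ y)
        linarith) x hx
    have h3 : (ATP n0 (q' + t • ν) r u x - ATP n0 (q' - t • ν) r u x) - JJ n0 ν q 1 u x =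
        (ATP n0 (q' + t • ν) r u x - ATP n0 (q + (6 : ℝ) • ν) 1 u x) -
        (ATP n0 (q' - t • ν) r u x - ATP n0 (q - (6 : ℝ) • ν) 1 u x) := by
      unfold JJ
      rw [mul_one]
      abel
    rw [h3]
    refine (norm_sub_le _ _).trans ?_
    linarith
  refine ⟨?_, ?_, ?_⟩
  · have a1 := (H R hR n u hu e he (q + (6 : ℝ) • ν) (q - (6 : ℝ) • ν) 1 1 (by norm_num)
      (by norm_num) (by norm_num) (by norm_num) (by linarith [(hnv q 6 (by norm_num) hq).1])
      (by linarith [(hnv q 6 (by norm_num) hq).2])).1 x hx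
    have hD0 : 0 ≤ DD b ε R ((1 / 2) ^ n) (fo L u) n 0 e :=
      DD_nn b ε R _ (by positivity) _ n 0 he
    have hm0 : 0 ≤ ma b ε R0 ((1 / 2) ^ n) (fo L u) n 0 := by
      unfold ma lev
      exact mul_nonneg (by positivity) (integral_nonneg fun y => norm_nonneg _)
    have h5 : JJ n0 ν q 1 u x = ATP n0 (q + (6 : ℝ) • ν) 1 u x - ATP n0 (q - (6 : ℝ) • ν) 1 u x := by
      unfold JJ
      rw [mul_one]
    rw [h5]
    refine a1.trans ?_
    have := mul_nonneg hC.le (add_nonneg hm0 hD0)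
    linarith
  · have h5 := gen 6 1 (by norm_num) (by norm_num) (by norm_num) (by norm_num)
    have h6 : JJ n0 ν q' 1 u x =
        ATP n0 (q' + (6 : ℝ) • ν) 1 u x - ATP n0 (q' - (6 : ℝ) • ν) 1 u x := by
      unfold JJ
      rw [mul_one]
    rw [h6]
    exact h5
  · have h5 := gen 12 2 (by norm_num) (by norm_num) (by norm_num) (by norm_num)
    have h6 : JJ n0 ν q' 2 u x =
        ATP n0 (q' + (12 : ℝ) • ν) 2 u x - ATP n0 (q' - (12 : ℝ) • ν) 2 u x := by
      unfold JJ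
      norm_num
    rw [h6]
    exact h5

end TG
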