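import Pool.Agent.TG.IN3

/-!
# Module IN (10.3), (10.4): small gains on the plane at the scales 1, ..., 2^I force small
tangential gradients near the plane
-/

open MeasureTheory Metric Set TrI Filter
open scoped InnerProductSpace ContDiff Topology

set_option linter.unusedSectionVars false

namespace TG

noncomputable section

namespace INm

lemma find_scale {r : ℝ} (h1 : 1 / 2 ≤ r) : ∀ I : ℕ, r ≤ 2 * 2 ^ I →
    ∃ i ≤ I, (2 : ℝ) ^ i / 2 ≤ r ∧ r ≤ 2 * 2 ^ i := by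
  intro I
  induction I with
  | zero => intro h2; exact ⟨0, le_rfl, by simpa using h1, h2⟩
  | succ I ih =>
    intro h2
    rcases le_or_gt r (2 * 2 ^ I) with h3 | h3
    · obtain ⟨i, hi, h4, h5⟩ := ih h3
      exact ⟨i, by omega, h4, h5⟩
    · refine ⟨I + 1, le_rfl, ?_, h2⟩
      rw [pow_succ]
      have : (0 : ℝ) < 2 ^ I := by positivity
      linarith

section main

variable (h : StmtTH) {k : ℕ} (hd : 2 ≤ k + 1) {C' : ℝ} (hC' : 0 < C')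
  {μ : Measure (Sp (k + 1))} (hμ : Gro C' μ)

include h hd hC' hμ

/-- small tangential gradients at all points near x -/
lemma grad_near {C : ℝ} (hC : 0 < C)
    (hTa : ∀ ν : Measure (Sp (k + 1)), Gro C' ν → MO.THd 2 C ν) {M : ℝ}
    {β : ℕ → Sp (k + 1) → ℝ} (hβ : ∀ i, Kit 4 M (β i)) {ε : ℝ} (hε : 0 < ε) (hε1 : ε ≤ 1 / 4)
    {n : Sp (k + 1)} (hn : ‖n‖ = 1) {s A R0 : ℝ} (hA : 1 ≤ A) (hR32 : 32 ≤ R0)
    (hRA : A + 5 ≤ R0) {I : ℕ} (hI : 8 * A ≤ 2 ^ I) {iT κ θ i0 E1 K2 : ℝ} (hκ : 0 < κ) (hθ : 0 < θ)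
    (hE1 : 0 < E1)
    (hK2 : K2 = ((k + 1 : ℕ) : ℝ) * KI (k + 1) * (A + 2))
    (hpl : ∀ i ≤ I, plInt n s (fun x => zR (2 * R0 - 1) x * XX (β i) ε μ n (2 ^ i) x) ≤
      cP k C R0 (2 ^ I) κ * vv μ 1 0)
    (hEE : ∀ x : Sp (k + 1), ‖x‖ ≤ 2 * R0 →
      UUm.EE μ (fun η => MO.ht n s η ^ 2) x ≤ E1 * (i0 * vv μ 1 0 ^ 2))
    (hi0 : 0 < i0)
    (q1 : UUm.Cv (k + 1) C R0 ^ 4 * (Real.sqrt C * 2 ^ I) * κ ≤ iT / 3)
    (q2 : UUm.Cv (k + 1) C R0 ^ 4 * K2 * θ ≤ iT / 3)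
    (q3 : UUm.Cv (k + 1) C R0 ^ 2 * (K2 * (4 ^ (k + 1 + 5) / θ * (E1 * i0))) ≤ iT / 3)
    {x : Sp (k + 1)} (hx : ‖x‖ ≤ R0) (hz : |⟪n, x⟫_ℝ - s| ≤ A + 1) {t : ℝ} {x' : Sp (k + 1)}
    (h1 : 1 / 2 ≤ t) (h2 : t ≤ 2) (hxx : ‖x' - x‖ ≤ 1) :
    ‖tang n (gradient (vv μ t) x')‖ ≤ iT * vv μ 1 x := by
  have hT := hTa μ hμ
  have hT0 := thd_mono hT (Nat.zero_le 2)
  have hP := pot_of hT hμ.fin
  have hR00 : 0 < R0 := by linarith
  have hV := Cv_pos (k := k) hC hR00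
  set V := UUm.Cv (k + 1) C R0 with hVe
  have hv0 := hT.vpos one_pos (0 : Sp (k + 1))
  have hsC := Real.sqrt_pos.2 hC
  have ht : 0 < t := by linarith
  set v0 := vv μ 1 0 with hv0e
  -- geometry
  set z : ℝ := ⟪n, x'⟫_ℝ - s with hze
  have hzA : |z| ≤ A + 2 := by
    have e1 : z = (⟪n, x⟫_ℝ - s) + ⟪n, x' - x⟫_ℝ := by rw [hze, inner_sub_right]; ring
    have e2 : |⟪n, x' - x⟫_ℝ| ≤ 1 := by
      refine (abs_real_inner_le_norm _ _).trans ?_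
      rw [hn, one_mul]; exact hxx
    rw [e1]
    refine (abs_add_le _ _).trans ?_
    linarith
  have hx'R : ‖x'‖ ≤ R0 + 1 := by
    have := norm_add_le (x' - x) x
    rw [sub_add_cancel] at this
    linarith
  have hyS : ⟪n, x' - z • n⟫_ℝ = s := by
    rw [inner_sub_right, inner_smul_right, real_inner_self_eq_norm_sq, hn, hze]; ring
  have hyR : ‖x' - z • n‖ ≤ 2 * R0 - 2 := by
    refine (norm_sub_le _ _).trans ?_
    rw [norm_smul, hn, mul_one, Real.norm_eq_abs]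
    linarith
  set sg := Real.sqrt (t ^ 2 + z ^ 2) with hsg
  have hsg1 : t ≤ sg := Real.le_sqrt_of_sq_le (by nlinarith [sq_nonneg z])
  have hsg2 : sg ≤ A + 4 := by
    have e1 : sg ≤ t + |z| := by
      rw [hsg, Real.sqrt_le_left (by positivity)]
      have := sq_abs z
      nlinarith [abs_nonneg z]
    linarith
  obtain ⟨i, hiI, hi1, hi2⟩ := find_scale (r := sg) (by linarith) I (by
    have : (0 : ℝ) < 2 ^ I := by positivity
    linarith)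
  have hti : (1 : ℝ) ≤ 2 ^ i := one_le_pow₀ (by norm_num)
  have htI : (2 : ℝ) ^ i ≤ 2 ^ I := pow_le_pow_right₀ (by norm_num) hiI
  have hti0 : (0 : ℝ) < 2 ^ i := by positivity
  have hTI0 : (0 : ℝ) < 2 ^ I := by positivity
  have hsT : Real.sqrt (2 ^ I) * Real.sqrt (2 ^ I) = (2 : ℝ) ^ I := Real.mul_self_sqrt hTI0.le
  have hsTp := Real.sqrt_nonneg ((2 : ℝ) ^ I)
  -- the gradient on the plane
  have g1 := plane_small h hd hC' hμ hC hTa (hβ i) hε hε1 hn hti htI hR32 hκ (hpl i hiI) hyS hyR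
    hi1 hi2
  rw [← hVe, ← hv0e] at g1
  -- v at the plane
  have g2 : vv μ sg (x' - z • n) ≤ Real.sqrt C * Real.sqrt (2 ^ I) * V * v0 := by
    have e1 := MO.v_time hT hC (r := sg) (s := 2 ^ i) hti0 (by linarith) (by linarith) (x' - z • n)
    have e2 := v_le_t h hd hC' hμ hti (x' - z • n)
    have e3 := (UUm.v_cmp (μ := μ) hC hT0 (R0 := R0) hR00 (r := 1)
      (by norm_num) (by norm_num) (y := x' - z • n) (by linarith)).1
    have e4 : Real.sqrt (2 ^ i) ≤ Real.sqrt (2 ^ I) := Real.sqrt_le_sqrt htI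
    have e5 := (hT.vpos one_pos (x' - z • n)).le
    calc vv μ sg (x' - z • n) ≤ Real.sqrt C * vv μ (2 ^ i) (x' - z • n) := e1
      _ ≤ Real.sqrt C * (Real.sqrt (2 ^ I) * (V * v0)) := by
          refine mul_le_mul_of_nonneg_left (e2.trans ?_) hsC.le
          exact mul_le_mul e4 e3 e5 hsTp
      _ = _ := by ring
  have c1 := UUm.v_cmp (μ := μ) hC hT0 (R0 := R0) hR00 h1 h2 (y := x') (by linarith)
  have c2 := UUm.v_cmp (μ := μ) hC hT0 (R0 := R0) hR00 (r := 1) (by norm_num) (by norm_num)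
    (y := x) (by linarith)
  rw [← hVe, ← hv0e] at c1 c2
  have hvt := hT.vpos ht x'
  have hvx := hT.vpos one_pos x
  have hEx := hEE x' (by linarith)
  have hKI := KI_pos (d := k + 1)
  have hK20 : 0 < K2 := by
    rw [hK2]
    have : (0 : ℝ) < ((k + 1 : ℕ) : ℝ) := by positivity
    positivity
  have hEn : 0 ≤ UUm.EE μ (fun η => MO.ht n s η ^ 2) x' :=
    UUm.EE_nonneg μ (fun η => sq_nonneg _) x'
  refine tang_le_of hn (by
    have : 0 < V ^ 4 * K2 * θ := by positivity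
    have : 0 < iT := by linarith
    positivity) fun w hw hw1 => ?_
  rw [GPx.grad_inner]
  have k1 := inv_step h hd hC' hμ hP hn h1 h2 hw hw1 hze hθ
  rw [← hsg] at k1
  have k2 : |fderiv ℝ (vv μ sg) (x' - z • n) w| ≤ κ * (Real.sqrt (2 ^ I) * V) * v0 := by
    refine le_trans ?_ g1
    rw [← GPx.grad_inner]
    have e1 := tang_inner n (gradient (vv μ sg) (x' - z • n)) w
    rw [hw, mul_zero, sub_zero] at e1
    rw [← e1]
    refine (abs_real_inner_le_norm _ _).trans ?_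
    have := norm_nonneg (tang n (gradient (vv μ sg) (x' - z • n)))
    nlinarith [norm_nonneg w]
  have k3 : vv μ sg (x' - z • n) * |fderiv ℝ (vv μ sg) (x' - z • n) w| ≤
      (Real.sqrt C * Real.sqrt (2 ^ I) * V * v0) * (κ * (Real.sqrt (2 ^ I) * V) * v0) :=
    mul_le_mul g2 k2 (abs_nonneg _) (by positivity)
  have k4 : (Real.sqrt C * Real.sqrt (2 ^ I) * V * v0) * (κ * (Real.sqrt (2 ^ I) * V) * v0) =
      V ^ 2 * (Real.sqrt C * 2 ^ I) * κ * v0 ^ 2 := by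
    calc _ = V ^ 2 * (Real.sqrt C * (Real.sqrt (2 ^ I) * Real.sqrt (2 ^ I))) * κ * v0 ^ 2 := by ring
      _ = _ := by rw [hsT]
  have k5 : ((k + 1 : ℕ) : ℝ) * (KI (k + 1) * |z| * (θ * vv μ t x' ^ 2 +
        4 ^ (k + 1 + 5) / θ * UUm.EE μ (fun η => MO.ht n s η ^ 2) x')) ≤
      K2 * (θ * (V * v0) ^ 2 + 4 ^ (k + 1 + 5) / θ * (E1 * (i0 * v0 ^ 2))) := by
    rw [hK2]
    have a1 : vv μ t x' ^ 2 ≤ (V * v0) ^ 2 := pow_le_pow_left₀ hvt.le c1.1 2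
    have a2 : (0 : ℝ) ≤ ((k + 1 : ℕ) : ℝ) := Nat.cast_nonneg _
    have a3 : θ * vv μ t x' ^ 2 + 4 ^ (k + 1 + 5) / θ *
        UUm.EE μ (fun η => MO.ht n s η ^ 2) x' ≤
        θ * (V * v0) ^ 2 + 4 ^ (k + 1 + 5) / θ * (E1 * (i0 * v0 ^ 2)) := by
      refine add_le_add (mul_le_mul_of_nonneg_left a1 hθ.le) ?_
      exact mul_le_mul_of_nonneg_left hEx (by positivity)
    have a4 : 0 ≤ θ * vv μ t x' ^ 2 + 4 ^ (k + 1 + 5) / θ *
        UUm.EE μ (fun η => MO.ht n s η ^ 2) x' := by positivity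
    rw [mul_assoc (((k + 1 : ℕ) : ℝ)) (KI (k + 1)) (A + 2), mul_assoc (((k + 1 : ℕ) : ℝ))]
    refine mul_le_mul_of_nonneg_left ?_ a2
    exact mul_le_mul (mul_le_mul_of_nonneg_left hzA hKI.le) a3 a4 (by positivity)
  have k6 : vv μ t x' * |fderiv ℝ (vv μ t) x' w| ≤
      (V ^ 2 * (Real.sqrt C * 2 ^ I) * κ + K2 * (θ * V ^ 2 +
        4 ^ (k + 1 + 5) / θ * (E1 * i0))) * v0 ^ 2 := by
    refine k1.trans ?_
    rw [k4] at k3
    calc _ ≤ V ^ 2 * (Real.sqrt C * 2 ^ I) * κ * v0 ^ 2 +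
          K2 * (θ * (V * v0) ^ 2 + 4 ^ (k + 1 + 5) / θ * (E1 * (i0 * v0 ^ 2))) :=
          add_le_add k3 k5
      _ = _ := by ring
  set Q : ℝ := V ^ 2 * (Real.sqrt C * 2 ^ I) * κ + K2 * (θ * V ^ 2 +
        4 ^ (k + 1 + 5) / θ * (E1 * i0)) with hQ
  have hQ0 : 0 < Q := by positivity
  have hQV : V ^ 2 * Q ≤ iT := by
    have : V ^ 2 * Q = V ^ 4 * (Real.sqrt C * 2 ^ I) * κ + V ^ 4 * K2 * θ +
        V ^ 2 * (K2 * (4 ^ (k + 1 + 5) / θ * (E1 * i0))) := by rw [hQ]; ring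
    rw [this]
    linarith
  -- conclusion
  have k7 : |fderiv ℝ (vv μ t) x' w| * v0 ≤ V * Q * v0 ^ 2 := by
    calc |fderiv ℝ (vv μ t) x' w| * v0 ≤ |fderiv ℝ (vv μ t) x' w| * (V * vv μ t x') :=
          mul_le_mul_of_nonneg_left c1.2 (abs_nonneg _)
      _ = V * (vv μ t x' * |fderiv ℝ (vv μ t) x' w|) := by ring
      _ ≤ V * (Q * v0 ^ 2) := mul_le_mul_of_nonneg_left k6 hV.le
      _ = _ := by ring
  have k8 : |fderiv ℝ (vv μ t) x' w| ≤ V * Q * v0 := by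
    have : V * Q * v0 ^ 2 = (V * Q * v0) * v0 := by ring
    rw [this] at k7
    exact le_of_mul_le_mul_right k7 hv0
  calc |fderiv ℝ (vv μ t) x' w| ≤ V * Q * v0 := k8
    _ ≤ V * Q * (V * vv μ 1 x) := mul_le_mul_of_nonneg_left c2.2 (by positivity)
    _ = V ^ 2 * Q * vv μ 1 x := by ring
    _ ≤ iT * vv μ 1 x := mul_le_mul_of_nonneg_right hQV hvx.le

end main

end INm

open INm in
/-- MODULE IN -/
theorem stmtIN (h : StmtTH) (hMO : StmtMO) (hUB : StmtUB) (hTT : StmtTT) : StmtIN := by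
  intro d hd M C' ε p0 A R0 i1 hC' hε hε1 hp0 hp01 hA hR0 hi1
  obtain ⟨k, rfl⟩ : ∃ k, d = k + 1 := ⟨d - 1, by omega⟩
  obtain ⟨m, hm1, hm2⟩ := exists_nat_pow_near (x := 8 * A) (y := 2) (by linarith) (by norm_num)
  obtain ⟨I, rfl⟩ : ∃ I : ℕ, I = m + 1 := ⟨_, rfl⟩
  have hI1 : 8 * A ≤ 2 ^ (m + 1) := hm2.le
  have hI2 : (2 : ℝ) ^ (m + 1) ≤ 32 * A := by rw [pow_succ]; linarith
  have hk : (0 : ℝ) ≤ k := Nat.cast_nonneg k
  have hk1 : (1 : ℝ) ≤ k := by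
    have : 1 ≤ k := by omega
    exact_mod_cast this
  have hR32 : 32 ≤ R0 := by push_cast at hR0; linarith
  have hRA : A + 5 ≤ R0 := by push_cast at hR0; linarith
  have hR00 : 0 < R0 := by linarith
  obtain ⟨C, hC, hTa⟩ := MO.getTH h (k + 1) 2 hd C' hC'
  obtain ⟨CB, hCB, hB⟩ := hUB (k + 1) 0 hd M C' ε p0 A hC' hε (by linarith) hp0 hp01 hA
  obtain ⟨CM, hCM, hM⟩ := hMO (k + 1) 0 hd C' hC'
  have hV := Cv_pos (k := k) hC hR00
  obtain ⟨V, hVe⟩ : ∃ V : ℝ, V = UUm.Cv (k + 1) C R0 := ⟨_, rfl⟩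
  rw [← hVe] at hV
  obtain ⟨iT, hiT, hTTm⟩ := hTT (k + 1) 3 hd M C' ε (i1 / V) hC' hε hε1 (by positivity)
  have hsC := Real.sqrt_pos.2 hC
  have hvb := UUm.vb_pos k one_pos
  have hT0 := UUm.T0_pos
  have hKI := KI_pos (d := k + 1)
  obtain ⟨BM, hBM⟩ : ∃ B : ℝ, B = CM * (1 + 4 * R0) ^ (2 * (k + 1) + 4) / UUm.vb k 1 := ⟨_, rfl⟩
  have hBM0 : 0 < BM := by rw [hBM]; positivity
  obtain ⟨E1, hE1⟩ : ∃ B : ℝ, B = 4 ^ (k + 1 + 5) * Real.sqrt C * V * BM / UUm.T0 := ⟨_, rfl⟩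
  have hE10 : 0 < E1 := by rw [hE1]; positivity
  obtain ⟨K2, hK2⟩ : ∃ B : ℝ, B = ((k + 1 : ℕ) : ℝ) * KI (k + 1) * (A + 2) := ⟨_, rfl⟩
  have hK20 : 0 < K2 := by
    rw [hK2]
    have : (0 : ℝ) < ((k + 1 : ℕ) : ℝ) := by positivity
    positivity
  obtain ⟨T, hTe⟩ : ∃ T : ℝ, T = 2 ^ (m + 1) := ⟨_, rfl⟩
  have hTp : 1 ≤ T := by rw [hTe]; exact one_le_pow₀ (by norm_num)
  have hT00 : 0 < T := by linarith
  obtain ⟨κ, hκ⟩ : ∃ κ : ℝ, κ = iT / (3 * (V ^ 4 * (Real.sqrt C * T))) := ⟨_, rfl⟩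
  have hκ0 : 0 < κ := by rw [hκ]; positivity
  obtain ⟨θ, hθ⟩ : ∃ θ : ℝ, θ = iT / (3 * (V ^ 4 * K2)) := ⟨_, rfl⟩
  have hθ0 : 0 < θ := by rw [hθ]; positivity
  have hcP := cP_pos (k := k) hC hR00 hTp hκ0
  obtain ⟨i0, hi0, hb1, hb2, hb3, hb4⟩ : ∃ i0 : ℝ, 0 < i0 ∧ i0 ≤ cP k C R0 T κ ∧ i0 ≤ i1 / BM ∧
      i0 ≤ UUm.T0 / (1 + A) ^ (k + 1 + 4) / CB / V /
        (2 * (4 ^ (k + 1 + 5) * Real.sqrt C * BM)) ∧
      i0 ≤ iT * θ / (3 * (V ^ 2 * K2 * 4 ^ (k + 1 + 5) * E1)) := by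
    refine ⟨min (cP k C R0 T κ) (min (i1 / BM) (min (UUm.T0 / (1 + A) ^ (k + 1 + 4) / CB / V /
        (2 * (4 ^ (k + 1 + 5) * Real.sqrt C * BM)))
        (iT * θ / (3 * (V ^ 2 * K2 * 4 ^ (k + 1 + 5) * E1))))), ?_, min_le_left _ _, ?_, ?_, ?_⟩
    · exact lt_min hcP (lt_min (by positivity) (lt_min (by positivity) (by positivity)))
    · exact (min_le_right _ _).trans (min_le_left _ _)
    · exact (min_le_right _ _).trans ((min_le_right _ _).trans (min_le_left _ _))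
    · exact (min_le_right _ _).trans ((min_le_right _ _).trans (min_le_right _ _))
  refine ⟨m + 1, i0, hI1, hI2, hi0, ?_⟩
  intro β hβ μ hμ n s hn hs hpl x hx hq
  have hT := hTa μ hμ
  have hv0 := hT.vpos one_pos (0 : Sp (k + 1))
  have hβ4 : ∀ i, Kit 4 M (β i) := fun i => UUm.kit_mono (by norm_num) (hβ i)
  have hpl0 : plInt n s (fun x => zR (2 * R0 - 1) x * XX (β 0) ε μ n 1 x) ≤ i0 * vv μ 1 0 := by
    have := hpl 0 (Nat.zero_le _)
    rwa [pow_zero] at this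
  have hmo : ∀ x : Sp (k + 1), ‖x‖ ≤ 2 * R0 →
      tav (Mo μ n s 2) 1 x ≤ BM * (i0 * vv μ 1 0) := by
    intro x hx
    rw [hBM]
    exact mo2_small h hd hC' hμ (hβ4 0) hε hε1 hn hR32 hs hCM
      (hM μ hμ n hn s).2.2.2.2.2.2.1 hpl0 hx
  have c2 := UUm.v_cmp (μ := μ) hC (thd_mono hT (Nat.zero_le 2)) (R0 := R0) hR00 (r := 1)
    (by norm_num) (by norm_num) (y := x) (by linarith)
  rw [← hVe] at c2
  have hnear := (hB (β 0) (hβ4 0) μ hμ).2.2.2.2.2.2.2.2.2.2.1 x hq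
  have hheight : |⟪n, x⟫_ℝ - s| ≤ A + 1 := by
    refine height_le h hd hC' hμ hC hT hn (by linarith) hCB hnear ?_
    rw [le_div_iff₀ (by positivity)] at hb3
    have e1 := hmo x (by linarith)
    have e2 : 4 ^ (k + 1 + 5) * Real.sqrt C * tav (Mo μ n s 2) 1 x ≤
        (UUm.T0 / (1 + A) ^ (k + 1 + 4) / CB / V / 2) * vv μ 1 0 := by
      calc 4 ^ (k + 1 + 5) * Real.sqrt C * tav (Mo μ n s 2) 1 x ≤
            4 ^ (k + 1 + 5) * Real.sqrt C * (BM * (i0 * vv μ 1 0)) :=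
            mul_le_mul_of_nonneg_left e1 (by positivity)
        _ = (i0 * (2 * (4 ^ (k + 1 + 5) * Real.sqrt C * BM))) / 2 * vv μ 1 0 := by ring
        _ ≤ _ := by
            refine mul_le_mul_of_nonneg_right ?_ hv0.le
            linarith
    have e3 : (UUm.T0 / (1 + A) ^ (k + 1 + 4) / CB / V / 2) * vv μ 1 0 <
        UUm.T0 / (1 + A) ^ (k + 1 + 4) / CB * vv μ 1 x := by
      have a0 : 0 < UUm.T0 / (1 + A) ^ (k + 1 + 4) / CB := by positivity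
      have hvx := hT.vpos one_pos x
      have a1 : UUm.T0 / (1 + A) ^ (k + 1 + 4) / CB / V / 2 * vv μ 1 0 =
          UUm.T0 / (1 + A) ^ (k + 1 + 4) / CB * (vv μ 1 0 / V / 2) := by ring
      rw [a1]
      refine mul_lt_mul_of_pos_left ?_ a0
      rw [div_div, div_lt_iff₀ (by positivity)]
      nlinarith [c2.2]
    linarith
  refine ⟨hheight, ?_, ?_⟩
  · have e1 := hmo x (by linarith)
    rw [le_div_iff₀ hBM0] at hb2
    calc tav (Mo μ n s 2) 1 x ≤ BM * (i0 * vv μ 1 0) := e1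
      _ = i0 * BM * vv μ 1 0 := by ring
      _ ≤ i1 * vv μ 1 0 := mul_le_mul_of_nonneg_right hb2 hv0.le
  · have hEE : ∀ x : Sp (k + 1), ‖x‖ ≤ 2 * R0 →
        UUm.EE μ (fun η => MO.ht n s η ^ 2) x ≤ E1 * (i0 * vv μ 1 0 ^ 2) := by
      intro x hx
      have e1 := UUm.EE_le_tav h hd hC' hμ hC hT hn s x
      have e2 := hmo x hx
      have e3 := (UUm.v_cmp (μ := μ) hC (thd_mono hT (Nat.zero_le 2)) (R0 := R0) hR00 (r := 1)
        (by norm_num) (by norm_num) (y := x) hx).1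
      rw [← hVe] at e3
      have hvx := (hT.vpos one_pos x).le
      have hm0 : 0 ≤ BM * (i0 * vv μ 1 0) := by positivity
      rw [hE1, div_mul_eq_mul_div, le_div_iff₀ hT0, mul_comm _ UUm.T0]
      calc UUm.T0 * UUm.EE μ (fun η => MO.ht n s η ^ 2) x ≤
            4 ^ (k + 1 + 5) * Real.sqrt C * vv μ 1 x * tav (Mo μ n s 2) 1 x := e1
        _ ≤ 4 ^ (k + 1 + 5) * Real.sqrt C * vv μ 1 x * (BM * (i0 * vv μ 1 0)) :=
            mul_le_mul_of_nonneg_left e2 (by positivity)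
        _ ≤ 4 ^ (k + 1 + 5) * Real.sqrt C * (V * vv μ 1 0) * (BM * (i0 * vv μ 1 0)) := by
            gcongr
        _ = _ := by ring
    have hgrad := fun (t : ℝ) (x' : Sp (k + 1)) (h1 : 1 / 2 ≤ t) (h2 : t ≤ 2)
        (h3 : ‖x' - x‖ ≤ 1) =>
      grad_near h hd hC' hμ hC hTa hβ4 hε hε1 hn hA hR32 hRA (I := m + 1) hI1 (iT := iT)
        hκ0 hθ0 hE10 hK2 (fun i hi => (hpl i hi).trans (by
          rw [← hTe]; exact mul_le_mul_of_nonneg_right hb1 hv0.le)) hEE hi0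
        (by rw [← hVe, ← hTe, hκ]; field_simp; exact le_rfl)
        (by rw [← hVe, hθ]; field_simp; exact le_rfl)
        (by
          rw [← hVe]
          rw [le_div_iff₀ (by positivity)] at hb4
          have e1 : V ^ 2 * (K2 * (4 ^ (k + 1 + 5) / θ * (E1 * i0))) =
              (i0 * (3 * (V ^ 2 * K2 * 4 ^ (k + 1 + 5) * E1))) / (3 * θ) := by
            field_simp
          rw [e1, div_le_iff₀ (by positivity)]
          linarith)
        hx hheight h1 h2 h3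
    intro j hj
    have e1 := hTTm (β 0) (UUm.kit_mono (by norm_num) (hβ 0)) μ hμ n x hn hgrad j hj
    refine e1.trans ?_
    calc i1 / V * vv μ 1 x ≤ i1 / V * (V * vv μ 1 0) :=
          mul_le_mul_of_nonneg_left c2.1 (by positivity)
      _ = i1 * vv μ 1 0 := by field_simp

end

end TG
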