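import Pool.Agent.TG.UU
import Pool.Agent.TG.SC
import Pool.Agent.TG.TT

/-!
# Module IN (10.3), (10.4), part 1: lower bound of the gain by the tangential gradient
-/

open MeasureTheory Metric Set TrI Filter
open scoped InnerProductSpace ContDiff Topology

set_option linter.unusedSectionVars false

namespace TG

noncomputable section

namespace INm

variable {d : ℕ}

lemma tang_inner (n g u : Sp d) : ⟪tang n g, u⟫_ℝ = ⟪g, u⟫_ℝ - ⟪n, g⟫_ℝ * ⟪n, u⟫_ℝ := by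
  unfold tang
  rw [inner_sub_left, inner_smul_left]
  simp

lemma tang_sub (n a b : Sp d) : tang n (a - b) = tang n a - tang n b := by
  unfold tang
  rw [inner_sub_right, sub_smul]
  abel

lemma tang_smul (n a : Sp d) (c : ℝ) : tang n (c • a) = c • tang n a := by
  unfold tang
  rw [inner_smul_right, smul_sub, smul_smul]

/-- bound of the tangential part by testing -/
lemma tang_le_of {n : Sp d} (hn : ‖n‖ = 1) {g : Sp d} {B : ℝ} (hB : 0 ≤ B)
    (h : ∀ w : Sp d, ⟪n, w⟫_ℝ = 0 → ‖w‖ ≤ 1 → |⟪g, w⟫_ℝ| ≤ B) : ‖tang n g‖ ≤ B := by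
  by_cases h0 : ‖tang n g‖ = 0
  · rw [h0]; exact hB
  have hp : 0 < ‖tang n g‖ := lt_of_le_of_ne (norm_nonneg _) (Ne.symm h0)
  have hn1 : ⟪n, tang n g⟫_ℝ = 0 := by
    unfold tang
    rw [inner_sub_right, inner_smul_right, real_inner_self_eq_norm_sq, hn]; ring
  have h1 : ⟪n, (‖tang n g‖)⁻¹ • tang n g⟫_ℝ = 0 := by rw [inner_smul_right, hn1, mul_zero]
  have h2 : ‖(‖tang n g‖)⁻¹ • tang n g‖ ≤ 1 := by
    rw [norm_smul, norm_inv, norm_norm, inv_mul_cancel₀ h0]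
  have h3 := h _ h1 h2
  have h4 : ⟪g, (‖tang n g‖)⁻¹ • tang n g⟫_ℝ = ‖tang n g‖ := by
    have e1 : ⟪g, tang n g⟫_ℝ = ‖tang n g‖ ^ 2 := by
      have e2 := tang_inner n g (tang n g)
      rw [hn1, mul_zero, sub_zero, real_inner_self_eq_norm_sq] at e2
      exact e2.symm
    rw [inner_smul_right, e1]
    field_simp
  rw [h4, abs_of_pos hp] at h3
  exact h3

variable {μ : Measure (Sp d)}

lemma thd_mono {J J' : ℕ} {C : ℝ} (hT : MO.THd J C μ) (h : J' ≤ J) : MO.THd J' C μ :=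
  ⟨hT.pos, hT.smooth, fun t x j ht hj => hT.der t x j ht (hj.trans h), hT.har, hT.tim⟩

lemma pot_of {J : ℕ} {C : ℝ} (hT : MO.THd J C μ) (hμ : IsFiniteMeasure μ) : GPx.Pot μ :=
  ⟨hμ, hT.pos, hT.smooth, hT.har⟩

lemma grad_fd (hP : GPx.Pot μ) {t : ℝ} (ht : 0 < t) (x w : Sp d) :
    ⟪gradient (vv μ t) x, w⟫_ℝ = fderiv ℝ (fun p : ℝ × Sp d => vv μ p.1 p.2) (t, x) (0, w) := by
  rw [GPx.grad_inner]
  have h1 : HasFDerivAt (fun x : Sp d => ((t, x) : ℝ × Sp d))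
      (ContinuousLinearMap.inr ℝ ℝ (Sp d)) x := hasFDerivAt_prodMk_right t x
  have hd := (hP.diffV ht x).hasFDerivAt
  have h2 : HasFDerivAt (vv μ t)
      ((fderiv ℝ (fun p : ℝ × Sp d => vv μ p.1 p.2) (t, x)).comp
        (ContinuousLinearMap.inr ℝ ℝ (Sp d))) x := by
    have := hd.comp x h1
    exact this
  rw [h2.fderiv]
  simp

/-- comparison of v in the unit ball -/
lemma v_unit {J : ℕ} {C : ℝ} (hT : MO.THd J C μ) (hC : 0 < C) {r : ℝ} (h1 : 1 / 2 ≤ r) (h2 : r ≤ 2)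
    {x y : Sp d} (hx : ‖x - y‖ ≤ 1) : vv μ r x ≤ 3 ^ d * Real.sqrt C * vv μ 1 y := by
  have e1 := MO.v_harnack hT h1 x y
  have e2 := MO.v_time hT hC (r := r) (s := 1) one_pos (by linarith) (by linarith) y
  have hv := (hT.vpos (r := r) (by linarith) y).le
  have e3 : (1 + 2 * ‖x - y‖) ^ d ≤ 3 ^ d := pow_le_pow_left₀ (by positivity) (by linarith) d
  calc vv μ r x ≤ (1 + 2 * ‖x - y‖) ^ d * vv μ r y := e1
    _ ≤ 3 ^ d * (Real.sqrt C * vv μ 1 y) := mul_le_mul e3 e2 hv (by positivity)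
    _ = _ := by ring

/-- Lipschitz constant -/
def LL (d : ℕ) (C : ℝ) : ℝ := 4 * C * (3 ^ d * Real.sqrt C)

/-- the gradient of v is Lipschitz in space and time -/
lemma grad_lip {J : ℕ} {C : ℝ} (hT : MO.THd J C μ) (hC : 0 < C) (hJ : 2 ≤ J)
    (hμ : IsFiniteMeasure μ) {n : Sp d} (hn : ‖n‖ = 1) (y : Sp d) {r r' : ℝ} {x x' : Sp d}
    (h1 : 1 / 2 ≤ r) (h2 : r ≤ 2) (h1' : 1 / 2 ≤ r') (h2' : r' ≤ 2) (hx : ‖x - y‖ ≤ 1)
    (hx' : ‖x' - y‖ ≤ 1) {ρ : ℝ} (hρ : 0 ≤ ρ) (hr : |r' - r| ≤ ρ) (hxx : ‖x' - x‖ ≤ ρ) :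
    ‖tang n (gradient (vv μ r) x)‖ ≤
      ‖tang n (gradient (vv μ r') x')‖ + LL d C * vv μ 1 y * ρ := by
  have hP := pot_of hT hμ
  have hv0 := hT.vpos one_pos y
  have hsC := Real.sqrt_pos.2 hC
  set V : ℝ × Sp d → ℝ := fun p => vv μ p.1 p.2 with hV
  set s : Set (ℝ × Sp d) := Icc (1 / 2) 2 ×ˢ closedBall y 1 with hs
  have hcs : Convex ℝ s := (convex_Icc _ _).prod (convex_closedBall _ _)
  have hopen : IsOpen {p : ℝ × Sp d | 0 < p.1} := GPx.isOpen_half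
  have hpos : ∀ p ∈ s, p ∈ {p : ℝ × Sp d | 0 < p.1} := fun p hp => by
    have : (1 : ℝ) / 2 ≤ p.1 := hp.1.1
    show 0 < p.1
    linarith
  have h2i : ((1 : WithTop ℕ∞) + 1) ≤ ∞ := by
    have h3 : ∀ j : ℕ, ((j : ℕ) : WithTop ℕ∞) ≤ ∞ := fun j => by exact_mod_cast le_top
    have h4 := h3 2
    rw [one_add_one_eq_two]
    exact h4
  have hsm : ContDiffOn ℝ 1 (fderiv ℝ V) {p : ℝ × Sp d | 0 < p.1} :=
    ((contDiffOn_succ_iff_fderiv_of_isOpen (n := 1) hopen).1 (hT.smooth.of_le h2i)).2.2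
  have hd : ∀ p ∈ s, DifferentiableAt ℝ (fderiv ℝ V) p := fun p hp =>
    ((hsm.contDiffAt (hopen.mem_nhds (hpos p hp))).differentiableAt (by norm_num))
  have hb : ∀ p ∈ s, ‖fderiv ℝ (fderiv ℝ V) p‖ ≤ LL d C * vv μ 1 y := by
    intro p hp
    have hp0 : 0 < p.1 := hpos p hp
    have e1 : ‖fderiv ℝ (fderiv ℝ V) p‖ = ‖iteratedFDeriv ℝ 2 V p‖ := by
      rw [← norm_iteratedFDeriv_one, norm_iteratedFDeriv_fderiv]
    rw [e1]
    have e2 := hT.der p.1 p.2 2 hp0 hJ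
    have e3 := v_unit hT hC hp.1.1 hp.1.2 (x := p.2) (y := y) (by
      rw [← dist_eq_norm]; exact hp.2)
    have e4 : C * vv μ p.1 p.2 / p.1 ^ 2 ≤ 4 * C * vv μ p.1 p.2 := by
      have hvp := (hT.vpos hp0 p.2).le
      rw [div_le_iff₀ (by positivity)]
      have e5 : (1 : ℝ) ≤ 4 * p.1 ^ 2 := by nlinarith [hp.1.1]
      have e6 : 0 ≤ C * vv μ p.1 p.2 := by positivity
      nlinarith
    refine e2.trans (e4.trans ?_)
    calc 4 * C * vv μ p.1 p.2 ≤ 4 * C * (3 ^ d * Real.sqrt C * vv μ 1 y) :=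
          mul_le_mul_of_nonneg_left e3 (by positivity)
      _ = _ := by unfold LL; ring
  have hp1 : ((r, x) : ℝ × Sp d) ∈ s :=
    ⟨⟨h1, h2⟩, by show dist x y ≤ 1; rw [dist_eq_norm]; exact hx⟩
  have hp2 : ((r', x') : ℝ × Sp d) ∈ s :=
    ⟨⟨h1', h2'⟩, by show dist x' y ≤ 1; rw [dist_eq_norm]; exact hx'⟩
  have hmv := hcs.norm_image_sub_le_of_norm_fderiv_le hd hb hp2 hp1
  have hdist : ‖((r, x) : ℝ × Sp d) - (r', x')‖ ≤ ρ := by
    rw [Prod.mk_sub_mk, Prod.norm_mk]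
    refine max_le ?_ ?_
    · rw [Real.norm_eq_abs, abs_sub_comm]; exact hr
    · rw [norm_sub_rev]; exact hxx
  have hLL : 0 ≤ LL d C * vv μ 1 y := by unfold LL; positivity
  have hmv2 : ‖fderiv ℝ V (r, x) - fderiv ℝ V (r', x')‖ ≤ LL d C * vv μ 1 y * ρ :=
    hmv.trans (mul_le_mul_of_nonneg_left hdist hLL)
  have hr0 : 0 < r := by linarith
  have hr0' : 0 < r' := by linarith
  have key : ‖tang n (gradient (vv μ r) x - gradient (vv μ r') x')‖ ≤ LL d C * vv μ 1 y * ρ := by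
    refine tang_le_of hn (by positivity) fun w _ hw => ?_
    rw [inner_sub_left, grad_fd hP hr0, grad_fd hP hr0', ← sub_apply,
      ← Real.norm_eq_abs]
    refine (ContinuousLinearMap.le_opNorm _ _).trans ?_
    have hw' : ‖((0 : ℝ), w)‖ ≤ 1 := by
      rw [Prod.norm_mk, norm_zero]
      exact max_le zero_le_one hw
    calc ‖fderiv ℝ V (r, x) - fderiv ℝ V (r', x')‖ * ‖((0 : ℝ), w)‖ ≤
          (LL d C * vv μ 1 y * ρ) * 1 := mul_le_mul hmv2 hw' (norm_nonneg _) (by positivity)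
      _ = _ := mul_one _
  rw [tang_sub] at key
  have := norm_sub_norm_le (tang n (gradient (vv μ r) x)) (tang n (gradient (vv μ r') x'))
  linarith

/-- lower bound of X1, localized -/
lemma X1_low' (hP : GPx.Pot μ) {J : ℕ} {M : ℝ} {β : Sp d → ℝ} (hβ : Kit J M β)
    {ε : ℝ} {n : Sp d} {r : ℝ} (hr : 0 < r) {y : Sp d} {κ ρ : ℝ} (hρ : 0 < ρ) (hρ1 : ρ ≤ 1)
    (hκ0 : 0 ≤ κ)
    (hκ : ∀ z : Sp d, ‖z‖ ≤ ρ → κ ≤ ‖tang n (gradient (vv μ r) (y + (ε * r) • z))‖ ^ 2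
      / vv μ r (y + (ε * r) • z)) : ρ ^ d * κ ≤ X1 β ε μ n r y := by
  have hc1 : Continuous (fun z : Sp d => ‖tang n (gradient (vv μ r) (y + (ε * r) • z))‖ ^ 2
      / vv μ r (y + (ε * r) • z)) := by
    refine Continuous.div ?_ (hP.cont_v hr ε y) (fun z => (hP.vpos hr _).ne')
    exact ((UUm.cont_tang n).comp (hP.cont_grad hr ε y)).norm.pow 2
  have hbc : Continuous β := hβ.prof.smooth.continuous
  have hcs : HasCompactSupport β := by
    refine HasCompactSupport.intro (isCompact_closedBall (0 : Sp d) 1) fun z hz => ?_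
    refine hβ.prof.supp z ?_
    simp only [mem_closedBall, dist_zero_right, not_le] at hz
    exact hz.le
  have i1 : Integrable (fun z => β z * (‖tang n (gradient (vv μ r) (y + (ε * r) • z))‖ ^ 2
      / vv μ r (y + (ε * r) • z))) :=
    (hbc.mul hc1).integrable_of_hasCompactSupport hcs.mul_right
  have i2 : Integrable β := hbc.integrable_of_hasCompactSupport hcs
  have i3 : Integrable (fun z : Sp d => β (ρ⁻¹ • z)) :=
    (integrable_comp_smul_iff volume β (inv_ne_zero hρ.ne')).2 i2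
  have h1 : ρ ^ d * κ = ∫ z, β (ρ⁻¹ • z) * κ := by
    rw [integral_mul_const, Measure.integral_comp_inv_smul_of_nonneg _ _ hρ.le, hβ.prof.int]
    simp
  rw [h1]
  unfold X1
  refine integral_mono (i3.mul_const κ) i1 fun z => ?_
  by_cases hz : ‖z‖ ≤ ρ
  · refine mul_le_mul ?_ (hκ z hz) hκ0 (hβ.prof.nonneg z)
    refine hβ.prof.mono _ _ ?_
    rw [norm_smul, norm_inv, Real.norm_of_nonneg hρ.le]
    have : 1 ≤ ρ⁻¹ := (one_le_inv₀ hρ).2 hρ1
    nlinarith [norm_nonneg z]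
  · have : β (ρ⁻¹ • z) = 0 := by
      refine hβ.prof.supp _ ?_
      rw [norm_smul, norm_inv, Real.norm_of_nonneg hρ.le]
      rw [← div_eq_inv_mul, le_div_iff₀ hρ, one_mul]
      exact (not_le.1 hz).le
    simp only [this, zero_mul]
    exact mul_nonneg (hβ.prof.nonneg z) (div_nonneg (sq_nonneg _) (hP.vpos hr _).le)

section main

variable (h : StmtTH) (hd : 2 ≤ d) {C' : ℝ} (hC' : 0 < C') (hμ : Gro C' μ)

include h hd hC' hμ

/-- localization in time -/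
lemma tavX1_low' {J : ℕ} {M : ℝ} {β : Sp d → ℝ} (hβ : Kit J M β) {ε : ℝ} (hε : 0 < ε)
    (hε1 : ε ≤ 1) {n : Sp d} (hn : ‖n‖ = 1) {y : Sp d} {κ : ℝ} (hκ0 : 0 ≤ κ) {r ρ : ℝ}
    (h1 : 1 / 2 ≤ r) (h2 : r ≤ 2) (hρ : 0 < ρ) (hρ1 : ρ ≤ 1 / 4)
    (hκ : ∀ r' : ℝ, 1 / 2 ≤ r' → r' ≤ 2 → |r' - r| ≤ ρ → κ ≤ X1 β ε μ n r' y) :
    ρ ^ 2 / 12 * κ ≤ tav (X1 β ε μ n) 1 y := by
  have hs := (X1_bd (ι := Unit) h hd hC' (μ := fun _ => μ) (fun _ => hμ) 0 hε hε1
    (β := fun _ => β) (fun _ => hβ) (n := fun _ => n) (fun _ => hn)).smooth ()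
  have hc : ContinuousOn (fun r : ℝ => X1 β ε μ n r y) (Icc (1 / 2) 2) := by
    have h1 : ContinuousOn (fun p : ℝ × Sp d => X1 β ε μ n p.1 p.2) (SL d) := hs.continuousOn
    exact h1.comp (f := fun r : ℝ => ((r, y) : ℝ × Sp d)) (by fun_prop)
      (fun r hr => mem_SL_of hr.1 hr.2 y)
  have hI : IntegrableOn (fun r => tau 1 r * X1 β ε μ n r y) (Ioc (1 / 2) 2) :=
    ((MO.tau_cont.continuousOn.mul hc).integrableOn_Icc).mono_set Ioc_subset_Icc_self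
  obtain ⟨a, ha1, ha2, ha3⟩ : ∃ a : ℝ, 1 / 2 ≤ a ∧ a + ρ / 2 ≤ 2 ∧ ∀ r' : ℝ, a ≤ r' →
      r' ≤ a + ρ / 2 → |r' - r| ≤ ρ ∧ ρ / 6 ≤ tau 1 r' := by
    rcases le_or_gt r 1 with hr | hr
    · refine ⟨r + ρ / 2, by linarith, by linarith, fun r' h3 h4 => ⟨?_, ?_⟩⟩
      · rw [abs_le]; constructor <;> linarith
      · unfold tau
        refine le_max_of_le_right (le_min ?_ ?_) <;> linarith
    · refine ⟨r - ρ, by linarith, by linarith, fun r' h3 h4 => ⟨?_, ?_⟩⟩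
      · rw [abs_le]; constructor <;> linarith
      · unfold tau
        refine le_max_of_le_right (le_min ?_ ?_) <;> linarith
  have hsub : Ioc a (a + ρ / 2) ⊆ Ioc (1 / 2) 2 := Ioc_subset_Ioc ha1 ha2
  have hX0 : ∀ r', 0 ≤ tau 1 r' * X1 β ε μ n r' y := fun r' =>
    mul_nonneg (MO.tau_nonneg r') (X1_nonneg hβ ε μ n r' y)
  have e1 : (∫ r' in Ioc a (a + ρ / 2), tau 1 r' * X1 β ε μ n r' y) ≤
      ∫ r' in Ioc (1 / 2) 2, tau 1 r' * X1 β ε μ n r' y :=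
    setIntegral_mono_set hI (Eventually.of_forall hX0) (Eventually.of_forall hsub)
  have e2 : (∫ _r' in Ioc a (a + ρ / 2), ρ / 6 * κ) ≤
      ∫ r' in Ioc a (a + ρ / 2), tau 1 r' * X1 β ε μ n r' y := by
    refine setIntegral_mono_on (integrableOn_const (by simp)) (hI.mono_set hsub)
      measurableSet_Ioc fun r' hr' => ?_
    obtain ⟨e3, e4⟩ := ha3 r' hr'.1.le hr'.2
    have e5 := hsub hr'
    exact mul_le_mul e4 (hκ r' e5.1.le e5.2 e3) hκ0 (MO.tau_nonneg r')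
  have e3 : (∫ _r' in Ioc a (a + ρ / 2), ρ / 6 * κ) = ρ ^ 2 / 12 * κ := by
    rw [setIntegral_const, smul_eq_mul, Real.volume_real_Ioc]
    rw [show a + ρ / 2 - a = ρ / 2 by ring, max_eq_left (by linarith)]
    ring
  rw [e3] at e2
  refine e2.trans (e1.trans (le_of_eq ?_))
  unfold tav
  rw [mul_one, intervalIntegral.integral_of_le (by norm_num)]

/-- the radius -/
def rX (d : ℕ) (C κ : ℝ) : ℝ := min (1 / 4) (κ / (4 * LL d C))

omit h hd hC' hμ in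
lemma rX_pos {C κ : ℝ} (hC : 0 < C) (hκ : 0 < κ) : 0 < rX d C κ := by
  have := Real.sqrt_pos.2 hC
  unfold rX LL
  refine lt_min (by norm_num) (by positivity)

/-- the constant -/
def cX (d : ℕ) (C κ : ℝ) : ℝ :=
  rX d C κ ^ 2 / 12 * (rX d C κ ^ d * (κ ^ 2 / (4 * (3 ^ d * Real.sqrt C))))

omit h hd hC' hμ in
lemma cX_pos {C κ : ℝ} (hC : 0 < C) (hκ : 0 < κ) : 0 < cX d C κ := by
  have := Real.sqrt_pos.2 hC
  have := rX_pos (d := d) hC hκ
  unfold cX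
  positivity

/-- a large tangential gradient at one point gives a large gain nearby -/
lemma XX_low {J : ℕ} {C : ℝ} (hC : 0 < C) (hT : MO.THd J C μ) (hJ : 2 ≤ J) {J' : ℕ} {M : ℝ}
    {β : Sp d → ℝ} (hβ : Kit J' M β) {ε : ℝ} (hε : 0 < ε) (hε1 : ε ≤ 1 / 4) {n : Sp d}
    (hn : ‖n‖ = 1) {r : ℝ} (h1 : 1 / 2 ≤ r) (h2 : r ≤ 2) {y y' : Sp d} {κ : ℝ} (hκ : 0 < κ)
    (hg : κ * vv μ 1 y ≤ ‖tang n (gradient (vv μ r) y)‖) (hy : ‖y' - y‖ ≤ rX d C κ) :
    cX d C κ * vv μ 1 y ≤ XX β ε μ n 1 y' := by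
  have hP := pot_of hT hμ.fin
  have hv0 := hT.vpos one_pos y
  have hsC := Real.sqrt_pos.2 hC
  have hρ := rX_pos (d := d) hC hκ
  have hL : 0 < LL d C := by unfold LL; positivity
  have hρ1 : rX d C κ ≤ 1 / 4 := min_le_left _ _
  have hρ2 : rX d C κ ≤ κ / (4 * LL d C) := min_le_right _ _
  rw [le_div_iff₀ (by positivity)] at hρ2
  set ρ := rX d C κ with hρe
  have key := tavX1_low' h hd hC' hμ hβ hε (by linarith) hn (y := y')
    (κ := ρ ^ d * (κ ^ 2 / (4 * (3 ^ d * Real.sqrt C)) * vv μ 1 y)) (by positivity) h1 h2 hρ hρ1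
    (fun r' h1' h2' hrr => by
      refine X1_low' hP hβ (by linarith) hρ (by linarith) (by positivity) fun z hz => ?_
      have hz1 : ‖(ε * r') • z‖ ≤ ρ := by
        rw [norm_smul, Real.norm_of_nonneg (by positivity)]
        have e1 : ε * r' ≤ 1 / 2 := by nlinarith
        have e2 : 0 ≤ ε * r' := by positivity
        nlinarith [norm_nonneg z]
      have hz2 : ‖y' + (ε * r') • z - y‖ ≤ 2 * ρ := by
        have e : y' + (ε * r') • z - y = (y' - y) + (ε * r') • z := by abel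
        rw [e]
        refine (norm_add_le _ _).trans ?_
        linarith
      have e1 := grad_lip hT hC hJ hμ.fin hn y h1 h2 h1' h2' (x := y) (x' := y' + (ε * r') • z)
        (by simp) (by linarith) (ρ := 2 * ρ) (by linarith) (by linarith) hz2
      have e2 := v_unit hT hC h1' h2' (x := y' + (ε * r') • z) (y := y) (by linarith)
      have hvp := hT.vpos (r := r') (by linarith) (y' + (ε * r') • z)
      have e3 : κ / 2 * vv μ 1 y ≤ ‖tang n (gradient (vv μ r') (y' + (ε * r') • z))‖ := by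
        have e4 : LL d C * vv μ 1 y * (2 * ρ) ≤ κ / 2 * vv μ 1 y := by nlinarith
        linarith
      rw [le_div_iff₀ hvp]
      calc κ ^ 2 / (4 * (3 ^ d * Real.sqrt C)) * vv μ 1 y * vv μ r' (y' + (ε * r') • z) ≤
            κ ^ 2 / (4 * (3 ^ d * Real.sqrt C)) * vv μ 1 y * (3 ^ d * Real.sqrt C * vv μ 1 y) :=
            mul_le_mul_of_nonneg_left e2 (by positivity)
        _ = (κ / 2 * vv μ 1 y) ^ 2 := by field_simp; ring
        _ ≤ _ := pow_le_pow_left₀ (by positivity) e3 2)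
  have h3 : 0 ≤ tav (X2 μ n) 1 y' := tav_nonneg (fun t y ht => X2_nonneg μ n ht y) y'
  have h4 : 0 ≤ tav (X3 β ε μ n) 1 y' := tav_nonneg (fun t y _ => X3_nonneg hβ ε μ n t y) y'
  have h5 : cX d C κ * vv μ 1 y =
      ρ ^ 2 / 12 * (ρ ^ d * (κ ^ 2 / (4 * (3 ^ d * Real.sqrt C)) * vv μ 1 y)) := by
    unfold cX; rw [← hρe]; ring
  rw [h5]
  unfold XX
  linarith

end main

end INm

end

end TG
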