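import Pool.Agent.TG.IN1

/-!
# Module IN (10.3), (10.4), part 2: scales, moments, the inversion
-/

open MeasureTheory Metric Set TrI Filter
open scoped InnerProductSpace ContDiff Topology

set_option linter.unusedSectionVars false

namespace TG

noncomputable section

namespace INm

variable {d : ℕ}

/-! ## comparison of the potentials at the times 1 and t -/

lemma kk_le_t {t : ℝ} (ht : 1 ≤ t) (x : Sp d) : kk t x ≤ t * kk 1 x := by
  unfold kk
  have h1 : 0 < Real.sqrt (1 ^ 2 + ‖x‖ ^ 2) := Real.sqrt_pos.2 (by positivity)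
  have h2 : Real.sqrt (1 ^ 2 + ‖x‖ ^ 2) ≤ Real.sqrt (t ^ 2 + ‖x‖ ^ 2) :=
    Real.sqrt_le_sqrt (by nlinarith)
  rw [mul_one_div]
  exact div_le_div_of_nonneg_left (by linarith) (by positivity)
    (pow_le_pow_left₀ (Real.sqrt_nonneg _) h2 d)

lemma kk_one_le {t : ℝ} (ht : 1 ≤ t) (x : Sp d) : kk 1 x ≤ t ^ d * kk t x := by
  unfold kk
  have h1 : 0 < Real.sqrt (1 ^ 2 + ‖x‖ ^ 2) := Real.sqrt_pos.2 (by positivity)
  have h0 : 0 < Real.sqrt (t ^ 2 + ‖x‖ ^ 2) := Real.sqrt_pos.2 (by positivity)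
  have h2 : Real.sqrt (t ^ 2 + ‖x‖ ^ 2) ≤ t * Real.sqrt (1 ^ 2 + ‖x‖ ^ 2) := by
    rw [Real.sqrt_le_left (by positivity), mul_pow, Real.sq_sqrt (by positivity)]
    have : (1 : ℝ) ≤ t ^ 2 := by nlinarith
    nlinarith [sq_nonneg ‖x‖]
  rw [mul_div_assoc', div_le_div_iff₀ (by positivity) (by positivity), one_mul]
  calc Real.sqrt (t ^ 2 + ‖x‖ ^ 2) ^ d ≤ (t * Real.sqrt (1 ^ 2 + ‖x‖ ^ 2)) ^ d :=
        pow_le_pow_left₀ h0.le h2 d
    _ = t ^ d * 1 * Real.sqrt (1 ^ 2 + ‖x‖ ^ 2) ^ d := by rw [mul_pow]; ring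
    _ ≤ t ^ d * t * Real.sqrt (1 ^ 2 + ‖x‖ ^ 2) ^ d := by gcongr

section cmp

variable (h : StmtTH) (hd : 2 ≤ d) {C' : ℝ} (hC' : 0 < C') {μ : Measure (Sp d)} (hμ : Gro C' μ)

include h hd hC' hμ

lemma v_le_t {t : ℝ} (ht : 1 ≤ t) (y : Sp d) : vv μ t y ≤ Real.sqrt t * vv μ 1 y := by
  unfold vv
  rw [← Real.sqrt_mul (by linarith)]
  refine Real.sqrt_le_sqrt ?_
  unfold th
  rw [← integral_const_mul]
  exact integral_mono (MO.kk_int h hd hC' hμ (by linarith) y)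
    ((MO.kk_int h hd hC' hμ one_pos y).const_mul t) fun η => kk_le_t ht _

lemma v_one_le {t : ℝ} (ht : 1 ≤ t) (y : Sp d) :
    vv μ 1 y ≤ Real.sqrt (t ^ d) * vv μ t y := by
  unfold vv
  rw [← Real.sqrt_mul (by positivity)]
  refine Real.sqrt_le_sqrt ?_
  unfold th
  rw [← integral_const_mul]
  exact integral_mono (MO.kk_int h hd hC' hμ one_pos y)
    ((MO.kk_int h hd hC' hμ (by linarith) y).const_mul (t ^ d)) fun η => kk_one_le ht _

end cmp

lemma grad_scale {f g : Sp d → ℝ} {t : ℝ} {y : Sp d} (hf : DifferentiableAt ℝ f (t • y))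
    (hg : ∀ x, g x = f (t • x)) : gradient g y = t • gradient f (t • y) := by
  have e : g = f ∘ fun x => t • x := funext hg
  refine ext_inner_right ℝ fun w => ?_
  rw [GPx.grad_inner, inner_smul_left, GPx.grad_inner, e]
  have h1 : HasFDerivAt (fun x : Sp d => t • x) (t • ContinuousLinearMap.id ℝ (Sp d)) y :=
    (hasFDerivAt_id y).const_smul t
  have h2 := hf.hasFDerivAt.comp y h1
  rw [h2.fderiv]
  simp

section plane

variable (h : StmtTH) {k : ℕ} (hd : 2 ≤ k + 1) {C' : ℝ} (hC' : 0 < C')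
  {μ : Measure (Sp (k + 1))} (hμ : Gro C' μ)

include h hd hC' hμ

/-- a large tangential gradient at a point of the plane gives a large plane integral -/
lemma plane_grad {C : ℝ} (hC : 0 < C)
    (hTa : ∀ ν : Measure (Sp (k + 1)), Gro C' ν → MO.THd 2 C ν) {M : ℝ} {β : Sp (k + 1) → ℝ}
    (hβ : Kit 4 M β) {ε : ℝ} (hε : 0 < ε) (hε1 : ε ≤ 1 / 4) {n : Sp (k + 1)} (hn : ‖n‖ = 1)
    {s t : ℝ} (ht : 1 ≤ t) {R0 κ : ℝ} (hκ : 0 < κ) {y : Sp (k + 1)}
    (hy : ⟪n, y⟫_ℝ = s) (hyR : ‖y‖ ≤ 2 * R0 - 2) {r : ℝ} (h1 : t / 2 ≤ r) (h2 : r ≤ 2 * t)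
    (hg : κ * vv μ t y ≤ t * ‖tang n (gradient (vv μ r) y)‖) :
    cX (k + 1) C κ * vv μ t y * UUm.vb k (rX (k + 1) C κ) ≤
      plInt n s (fun x => zR (2 * R0 - 1) x * XX β ε μ n t x) := by
  have ht0 : 0 < t := by linarith
  have hr0 : 0 < r := by linarith
  have hT := hTa μ hμ
  have hP := pot_of hT hμ.fin
  obtain ⟨hG, -, hvv, -, hX⟩ := (stmtSC (k + 1) hd C' hC' 0 t ht0).1 μ hμ
  have hXX : ∀ y' : Sp (k + 1), XX β ε (rsm 0 t μ) n 1 y' = XX β ε μ n t (t • y') := by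
    intro y'
    have := (hX 4 M β hβ (by norm_num) ε hε (by linarith) 1 y' one_pos).2.2.1 n
    rw [this, mul_one, zero_add]
  have hv : ∀ (r' : ℝ) (y' : Sp (k + 1)), 0 < r' → vv (rsm 0 t μ) r' y' = vv μ (t * r') (t • y') := by
    intro r' y' hr'
    rw [hvv r' y' hr', zero_add]
  have hT' := hTa _ hG
  have hty : t • t⁻¹ • y = y := by rw [smul_smul, mul_inv_cancel₀ ht0.ne', one_smul]
  have hv1 : vv (rsm 0 t μ) 1 (t⁻¹ • y) = vv μ t y := by
    rw [hv 1 _ one_pos, mul_one, hty]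
  have hgr : gradient (vv (rsm 0 t μ) (r / t)) (t⁻¹ • y) = t • gradient (vv μ r) y := by
    have e1 : ∀ x, vv (rsm 0 t μ) (r / t) x = vv μ r (t • x) := by
      intro x
      rw [hv _ _ (by positivity)]
      congr 1
      field_simp
    have e2 := grad_scale (f := vv μ r) (g := vv (rsm 0 t μ) (r / t)) (t := t) (y := t⁻¹ • y)
      (((hP.smoothx hr0).differentiable (by simp)).differentiableAt) e1
    rw [hty] at e2
    exact e2
  have hgr2 : κ * vv (rsm 0 t μ) 1 (t⁻¹ • y) ≤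
      ‖tang n (gradient (vv (rsm 0 t μ) (r / t)) (t⁻¹ • y))‖ := by
    rw [hv1, hgr, tang_smul, norm_smul, Real.norm_of_nonneg ht0.le]
    exact hg
  have key : ∀ x : Sp (k + 1), ‖x - y‖ ≤ rX (k + 1) C κ →
      cX (k + 1) C κ * vv μ t y ≤ XX β ε μ n t x := by
    intro x hx
    have e1 := XX_low h hd hC' hG hC hT' le_rfl hβ hε hε1 hn (r := r / t)
      (by rw [le_div_iff₀ ht0]; linarith) (by rw [div_le_iff₀ ht0]; linarith)
      (y := t⁻¹ • y) (y' := t⁻¹ • x) hκ hgr2 (by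
        rw [← smul_sub, norm_smul, norm_inv, Real.norm_of_nonneg ht0.le]
        have : t⁻¹ ≤ 1 := inv_le_one_of_one_le₀ ht
        have h0 : 0 ≤ t⁻¹ := by positivity
        nlinarith [norm_nonneg (x - y)])
    rw [hv1, hXX, smul_smul, mul_inv_cancel₀ ht0.ne', one_smul] at e1
    exact e1
  obtain ⟨CW, -, hW⟩ := stmtWA h (k + 1) 0 hd M C' ε hC' hε (by linarith)
  have hcont : Continuous (XX β ε μ n t) := by
    have e1 := ((hW β hβ _ hG).2.2.2.2 n hn).1.continuous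
    have e2 : XX β ε μ n t = fun x => XX β ε (rsm 0 t μ) n 1 (t⁻¹ • x) := by
      funext x
      rw [hXX, smul_smul, mul_inv_cancel₀ ht0.ne', one_smul]
    rw [e2]
    exact e1.comp (by fun_prop)
  have hnn : ∀ x, 0 ≤ XX β ε μ n t x := by
    intro x
    have e1 := ((hW β hβ _ hG).2.2.2.2 n hn).2.1 (t⁻¹ • x)
    rw [hXX, smul_smul, mul_inv_cancel₀ ht0.ne', one_smul] at e1
    exact e1
  refine UUm.pl_lower k hn (F := fun x => zR (2 * R0 - 1) x * XX β ε μ n t x)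
    ((UUm.zR_cont _).mul hcont) ((UUm.zR_cs _).mul_right)
    (fun x => mul_nonneg (UUm.zR_nonneg _ _) (hnn x)) hy fun x _ hxy => ?_
  have hr14 : rX (k + 1) C κ ≤ 1 / 4 := min_le_left _ _
  have hx : ‖x‖ ≤ 2 * R0 - 1 := by
    have := norm_add_le (x - y) y
    rw [sub_add_cancel] at this
    linarith
  rw [UUm.zR_one hx, one_mul]
  exact key x hxy

/-- the constant of the smallness of the plane integrals -/
def cP (k : ℕ) (C R0 T κ : ℝ) : ℝ :=
  cX (k + 1) C κ * UUm.vb k (rX (k + 1) C κ) / (2 * (UUm.Cv (k + 1) C R0 * Real.sqrt (T ^ (k + 1))))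

omit h hd hC' hμ in
lemma Cv_pos {C R0 : ℝ} (hC : 0 < C) (hR0 : 0 < R0) : 0 < UUm.Cv (k + 1) C R0 := by
  unfold UUm.Cv
  have := Real.sqrt_pos.2 hC
  positivity

omit h hd hC' hμ in
lemma cP_pos {C R0 T κ : ℝ} (hC : 0 < C) (hR0 : 0 < R0) (hT : 1 ≤ T) (hκ : 0 < κ) :
    0 < cP k C R0 T κ := by
  unfold cP
  have h1 := cX_pos (d := k + 1) hC hκ
  have h2 := UUm.vb_pos k (rX_pos (d := k + 1) hC hκ)
  have h3 := Cv_pos (k := k) hC hR0
  have h4 : 0 < Real.sqrt (T ^ (k + 1)) := Real.sqrt_pos.2 (by positivity)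
  positivity

/-- small plane integrals give small tangential gradients on the plane -/
lemma plane_small {C : ℝ} (hC : 0 < C)
    (hTa : ∀ ν : Measure (Sp (k + 1)), Gro C' ν → MO.THd 2 C ν) {M : ℝ} {β : Sp (k + 1) → ℝ}
    (hβ : Kit 4 M β) {ε : ℝ} (hε : 0 < ε) (hε1 : ε ≤ 1 / 4) {n : Sp (k + 1)} (hn : ‖n‖ = 1)
    {s t T : ℝ} (ht : 1 ≤ t) (htT : t ≤ T) {R0 κ : ℝ} (hR0 : 32 ≤ R0) (hκ : 0 < κ)
    (hpl : plInt n s (fun x => zR (2 * R0 - 1) x * XX β ε μ n t x) ≤ cP k C R0 T κ * vv μ 1 0)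
    {y : Sp (k + 1)} (hy : ⟪n, y⟫_ℝ = s) (hyR : ‖y‖ ≤ 2 * R0 - 2) {r : ℝ} (h1 : t / 2 ≤ r)
    (h2 : r ≤ 2 * t) :
    ‖tang n (gradient (vv μ r) y)‖ ≤ κ * (Real.sqrt T * UUm.Cv (k + 1) C R0) * vv μ 1 0 := by
  by_contra hc
  push Not at hc
  have ht0 : 0 < t := by linarith
  have hT := hTa μ hμ
  have hv0 := hT.vpos one_pos (0 : Sp (k + 1))
  have hCv := Cv_pos (k := k) hC (by linarith : 0 < R0)
  have e1 := v_le_t h hd hC' hμ ht y
  have e2 := v_one_le h hd hC' hμ ht y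
  have e3 := UUm.v_cmp (μ := μ) hC (thd_mono hT (by norm_num)) (R0 := R0) (by linarith) (r := 1)
    (by norm_num) (by norm_num) (y := y) (by linarith)
  have e4 : Real.sqrt t ≤ Real.sqrt T := Real.sqrt_le_sqrt htT
  have e5 : Real.sqrt (t ^ (k + 1)) ≤ Real.sqrt (T ^ (k + 1)) :=
    Real.sqrt_le_sqrt (pow_le_pow_left₀ ht0.le htT _)
  have hvt := hT.vpos ht0 y
  have hv1 := hT.vpos one_pos y
  have e6 : vv μ t y ≤ Real.sqrt T * UUm.Cv (k + 1) C R0 * vv μ 1 0 := by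
    calc vv μ t y ≤ Real.sqrt t * vv μ 1 y := e1
      _ ≤ Real.sqrt T * (UUm.Cv (k + 1) C R0 * vv μ 1 0) :=
          mul_le_mul e4 e3.1 hv1.le (Real.sqrt_nonneg _)
      _ = _ := by ring
  have e7 : κ * vv μ t y ≤ t * ‖tang n (gradient (vv μ r) y)‖ := by
    have a1 : κ * vv μ t y ≤ κ * (Real.sqrt T * UUm.Cv (k + 1) C R0 * vv μ 1 0) :=
      mul_le_mul_of_nonneg_left e6 hκ.le
    have a2 : ‖tang n (gradient (vv μ r) y)‖ ≤ t * ‖tang n (gradient (vv μ r) y)‖ := by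
      nlinarith [norm_nonneg (tang n (gradient (vv μ r) y))]
    linarith
  have e8 := plane_grad h hd hC' hμ hC hTa hβ hε hε1 hn ht hκ hy hyR h1 h2 e7
  have e9 : vv μ 1 0 ≤ UUm.Cv (k + 1) C R0 * Real.sqrt (T ^ (k + 1)) * vv μ t y := by
    calc vv μ 1 0 ≤ UUm.Cv (k + 1) C R0 * vv μ 1 y := e3.2
      _ ≤ UUm.Cv (k + 1) C R0 * (Real.sqrt (T ^ (k + 1)) * vv μ t y) :=
          mul_le_mul_of_nonneg_left (e2.trans (mul_le_mul_of_nonneg_right e5 hvt.le)) hCv.le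
      _ = _ := by ring
  have hcX := cX_pos (d := k + 1) hC hκ
  have hvb := UUm.vb_pos k (rX_pos (d := k + 1) hC hκ)
  have hTs : 0 < Real.sqrt (T ^ (k + 1)) := Real.sqrt_pos.2 (pow_pos (by linarith) _)
  have e10 : cP k C R0 T κ * vv μ 1 0 ≤
      cX (k + 1) C κ * vv μ t y * UUm.vb k (rX (k + 1) C κ) / 2 := by
    unfold cP
    rw [div_mul_eq_mul_div, div_le_div_iff₀ (by positivity) (by norm_num)]
    have a1 := mul_le_mul_of_nonneg_left e9
      (by positivity : 0 ≤ cX (k + 1) C κ * UUm.vb k (rX (k + 1) C κ) * 2)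
    nlinarith
  have e11 : 0 < cX (k + 1) C κ * vv μ t y * UUm.vb k (rX (k + 1) C κ) := by positivity
  linarith

/-- the second moment is small in the ball -/
lemma mo2_small {M : ℝ} {β : Sp (k + 1) → ℝ}
    (hβ : Kit 4 M β) {ε : ℝ} (hε : 0 < ε) (hε1 : ε ≤ 1 / 4) {n : Sp (k + 1)} (hn : ‖n‖ = 1)
    {s : ℝ} {R0 : ℝ} (hR0 : 32 ≤ R0) (hs : |s| ≤ 3 / 2 * R0) {CM : ℝ} (hCM : 0 < CM)
    (hMO : ∀ y y', tav (Mo μ n s 2) 1 y' ≤
      CM * (1 + ‖y - y'‖) ^ (2 * (k + 1) + 4) * tav (Mo μ n s 2) 1 y) {i0 : ℝ}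
    (hpl : plInt n s (fun x => zR (2 * R0 - 1) x * XX β ε μ n 1 x) ≤ i0 * vv μ 1 0)
    {x : Sp (k + 1)} (hx : ‖x‖ ≤ 2 * R0) :
    tav (Mo μ n s 2) 1 x ≤
      CM * (1 + 4 * R0) ^ (2 * (k + 1) + 4) / UUm.vb k 1 * (i0 * vv μ 1 0) := by
  have hx0 : ⟪n, s • n⟫_ℝ = s := by
    rw [inner_smul_right, real_inner_self_eq_norm_sq, hn]; ring
  obtain ⟨CW, -, hW⟩ := stmtWA h (k + 1) 0 hd M C' ε hC' hε (by linarith)
  have hcont := ((hW β hβ μ hμ).2.2.2.2 n hn).1.continuous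
  have hnn := ((hW β hβ μ hμ).2.2.2.2 n hn).2.1
  set B : ℝ := CM * (1 + 4 * R0) ^ (2 * (k + 1) + 4) with hB
  have hB0 : 0 < B := by positivity
  have hlow := UUm.pl_lower k hn (s := s) (F := fun x => zR (2 * R0 - 1) x * XX β ε μ n 1 x)
    ((UUm.zR_cont _).mul hcont) ((UUm.zR_cs _).mul_right)
    (fun x => mul_nonneg (UUm.zR_nonneg _ _) (hnn x))
    (x := s • n) hx0 (r := 1) (κ := tav (Mo μ n s 2) 1 x / B)
    (fun z hz hzx => by
      have hzn : ‖z‖ ≤ 3 / 2 * R0 + 1 := by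
        have h1 : ‖s • n‖ = |s| := by rw [norm_smul, hn, mul_one, Real.norm_eq_abs]
        have h2 := norm_add_le (z - s • n) (s • n)
        rw [sub_add_cancel, h1] at h2
        linarith
      rw [UUm.zR_one (by linarith), one_mul, div_le_iff₀ hB0]
      have h1 := MO.tavX2 h hd hC' hμ n hn s z
      rw [real_inner_comm n z, hz, sub_self] at h1
      have h2 : tav (Mo μ n s 2) 1 z = tav (X2 μ n) 1 z := by rw [h1]; ring
      have h3 : 0 ≤ tav (X1 β ε μ n) 1 z := tav_nonneg (fun t y _ => X1_nonneg hβ ε μ n t y) z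
      have h4 : 0 ≤ tav (X3 β ε μ n) 1 z := tav_nonneg (fun t y _ => X3_nonneg hβ ε μ n t y) z
      have h5 : tav (Mo μ n s 2) 1 z ≤ XX β ε μ n 1 z := by rw [h2]; unfold XX; linarith
      have h6 : 0 ≤ tav (Mo μ n s 2) 1 z := by
        rw [h2]; exact tav_nonneg (fun t y ht => X2_nonneg μ n ht y) z
      have h7 : (1 + ‖z - x‖) ^ (2 * (k + 1) + 4) ≤ (1 + 4 * R0) ^ (2 * (k + 1) + 4) := by
        refine pow_le_pow_left₀ (by positivity) ?_ _
        have := norm_sub_le z x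
        linarith
      calc tav (Mo μ n s 2) 1 x ≤ CM * (1 + ‖z - x‖) ^ (2 * (k + 1) + 4) * tav (Mo μ n s 2) 1 z :=
            hMO z x
        _ ≤ B * tav (Mo μ n s 2) 1 z := by
            refine mul_le_mul_of_nonneg_right ?_ h6
            exact mul_le_mul_of_nonneg_left h7 hCM.le
        _ ≤ B * XX β ε μ n 1 z := mul_le_mul_of_nonneg_left h5 hB0.le
        _ = _ := mul_comm _ _)
  have hvb := UUm.vb_pos k one_pos
  have h8 := hlow.trans hpl
  rw [div_mul_eq_mul_div, div_le_iff₀ hB0] at h8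
  rw [div_mul_eq_mul_div, le_div_iff₀ hvb]
  linarith

/-- the near part of the measure is near the plane -/
lemma height_le {C : ℝ} (hC : 0 < C) (hT : MO.THd 2 C μ) {n : Sp (k + 1)} (hn : ‖n‖ = 1)
    {s : ℝ} {x : Sp (k + 1)} {A CB : ℝ} (hA : 0 < A) (hCB : 0 < CB)
    (hnear : vv μ 1 x ^ 2 ≤ CB * (μ (ball x A)).toReal)
    (hsm : 4 ^ (k + 1 + 5) * Real.sqrt C * tav (Mo μ n s 2) 1 x <
      UUm.T0 / (1 + A) ^ (k + 1 + 4) / CB * vv μ 1 x) :
    |⟪n, x⟫_ℝ - s| ≤ A + 1 := by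
  by_contra hc
  push Not at hc
  have := hμ.fin
  have hT0 := UUm.T0_pos
  have hvx := hT.vpos one_pos x
  have im := UUm.int_h2 h hd hC' hμ hn s x
  have e1 : (∫ η in ball x A, MO.ht n s η ^ 2 * MO.K 1 (x - η) ∂μ) ≤
      UUm.EE μ (fun η => MO.ht n s η ^ 2) x := by
    unfold UUm.EE
    exact setIntegral_le_integral im
      (Eventually.of_forall fun η => mul_nonneg (sq_nonneg _) (MO.K_pos one_pos _).le)
  have e2 : (∫ _η in ball x A, 1 / (1 + A) ^ (k + 1 + 4) ∂μ) =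
      1 / (1 + A) ^ (k + 1 + 4) * (μ (ball x A)).toReal := by
    rw [setIntegral_const, smul_eq_mul, Measure.real, mul_comm]
  have e3 : (∫ _η in ball x A, 1 / (1 + A) ^ (k + 1 + 4) ∂μ) ≤
      ∫ η in ball x A, MO.ht n s η ^ 2 * MO.K 1 (x - η) ∂μ := by
    refine setIntegral_mono_on (integrable_const _).integrableOn im.integrableOn
      measurableSet_ball fun η hη => ?_
    have hη' : ‖η - x‖ < A := by rw [← dist_eq_norm]; exact hη
    have h2 : 1 ≤ MO.ht n s η ^ 2 := by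
      have a1 : MO.ht n s η = (⟪n, x⟫_ℝ - s) - ⟪n, x - η⟫_ℝ := by
        unfold MO.ht
        rw [inner_sub_right, real_inner_comm η n]; ring
      have a2 : |⟪n, x - η⟫_ℝ| ≤ A := by
        refine (abs_real_inner_le_norm _ _).trans ?_
        rw [hn, one_mul, norm_sub_rev]
        exact hη'.le
      have a3 : 1 ≤ |MO.ht n s η| := by
        rw [a1]
        have := abs_sub_abs_le_abs_sub (⟪n, x⟫_ℝ - s) ⟪n, x - η⟫_ℝ
        linarith
      rw [← sq_abs]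
      nlinarith
    have h3 : 1 / (1 + A) ^ (k + 1 + 4) ≤ MO.K 1 (x - η) := by
      rw [MO.K_eq]
      have hR := MO.R_pos one_pos (x - η)
      have hR2 : MO.R 1 (x - η) ≤ 1 + A := by
        unfold MO.R
        rw [Real.sqrt_le_left (by linarith)]
        have : ‖x - η‖ < A := by rw [norm_sub_rev]; exact hη'
        nlinarith [norm_nonneg (x - η)]
      gcongr
    calc 1 / (1 + A) ^ (k + 1 + 4) = 1 * (1 / (1 + A) ^ (k + 1 + 4)) := by ring
      _ ≤ MO.ht n s η ^ 2 * MO.K 1 (x - η) := mul_le_mul h2 h3 (by positivity) (sq_nonneg _)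
  have e4 := UUm.EE_le_tav h hd hC' hμ hC hT hn s x
  have e5 : 1 / (1 + A) ^ (k + 1 + 4) * (μ (ball x A)).toReal ≤
      UUm.EE μ (fun η => MO.ht n s η ^ 2) x := by rw [← e2]; exact e3.trans e1
  have hA4 : 0 < (1 + A) ^ (k + 1 + 4) := by positivity
  have e6 : UUm.T0 / (1 + A) ^ (k + 1 + 4) / CB * vv μ 1 x * vv μ 1 x ≤
      4 ^ (k + 1 + 5) * Real.sqrt C * tav (Mo μ n s 2) 1 x * vv μ 1 x := by
    calc UUm.T0 / (1 + A) ^ (k + 1 + 4) / CB * vv μ 1 x * vv μ 1 x =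
          UUm.T0 / (1 + A) ^ (k + 1 + 4) / CB * vv μ 1 x ^ 2 := by ring
      _ ≤ UUm.T0 / (1 + A) ^ (k + 1 + 4) / CB * (CB * (μ (ball x A)).toReal) :=
          mul_le_mul_of_nonneg_left hnear (by positivity)
      _ = UUm.T0 * (1 / (1 + A) ^ (k + 1 + 4) * (μ (ball x A)).toReal) := by field_simp
      _ ≤ UUm.T0 * UUm.EE μ (fun η => MO.ht n s η ^ 2) x :=
          mul_le_mul_of_nonneg_left e5 hT0.le
      _ ≤ 4 ^ (k + 1 + 5) * Real.sqrt C * vv μ 1 x * tav (Mo μ n s 2) 1 x := e4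
      _ = _ := by ring
  have e7 := mul_lt_mul_of_pos_right hsm hvx
  linarith

end plane

end INm

end

end TG
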