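import Pool.Agent.TG.IN2

/-!
# Module IN (10.3), (10.4), part 3: the inversion
-/

open MeasureTheory Metric Set TrI Filter
open scoped InnerProductSpace ContDiff Topology

set_option linter.unusedSectionVars false

namespace TG

noncomputable section

namespace INm

variable {d : ℕ}

/-- the squared distances -/
lemma inv_sq {n : Sp d} (hn : ‖n‖ = 1) (x : Sp d) {s z : ℝ} (hz : z = ⟪n, x⟫_ℝ - s) (t : ℝ)
    (η : Sp d) : (t ^ 2 + z ^ 2) + ‖(x - z • n) - η‖ ^ 2 =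
      t ^ 2 + ‖x - η‖ ^ 2 + 2 * z * MO.ht n s η := by
  have e1 : (x - z • n) - η = (x - η) - z • n := by abel
  rw [e1, norm_sub_sq_real, norm_smul, hn, mul_one, Real.norm_eq_abs, sq_abs, inner_smul_right,
    inner_sub_left]
  unfold MO.ht
  rw [real_inner_comm n x]
  have e2 : ⟪n, x⟫_ℝ = z + s := by rw [hz]; ring
  rw [e2]
  ring

lemma inv_sqrt {n : Sp d} (hn : ‖n‖ = 1) (x : Sp d) (z t : ℝ) (η : Sp d) :
    Real.sqrt (t ^ 2 + ‖x - η‖ ^ 2) / 3 ≤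
      Real.sqrt ((t ^ 2 + z ^ 2) + ‖(x - z • n) - η‖ ^ 2) := by
  have e1 : ‖x - η‖ ≤ ‖(x - z • n) - η‖ + |z| := by
    have e2 : x - η = ((x - z • n) - η) + z • n := by abel
    calc ‖x - η‖ = ‖((x - z • n) - η) + z • n‖ := by rw [← e2]
      _ ≤ ‖(x - z • n) - η‖ + ‖z • n‖ := norm_add_le _ _
      _ = _ := by rw [norm_smul, hn, mul_one, Real.norm_eq_abs]
  have e3 : ‖x - η‖ ^ 2 ≤ (‖(x - z • n) - η‖ + |z|) ^ 2 := pow_le_pow_left₀ (norm_nonneg _) e1 2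
  rw [div_le_iff₀ (by norm_num)]
  rw [Real.sqrt_le_left (by positivity), mul_pow, Real.sq_sqrt (by positivity)]
  have e4 := sq_abs z
  nlinarith [sq_nonneg (‖(x - z • n) - η‖ - |z|), sq_nonneg t, sq_nonneg ‖(x - z • n) - η‖]

lemma int_lin {μ : Measure (Sp d)} (hP : GPx.Pot μ) {q : ℝ} (hq : 0 < q) (x w : Sp d) :
    Integrable (fun η => ⟪x - η, w⟫_ℝ * GPx.ip (d + 2) (q + ‖x - η‖ ^ 2)) μ := by
  have := hP.fin
  have hq0 : 0 < Real.sqrt q := Real.sqrt_pos.2 hq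
  have i1 := hP.int_ip hq0 (d + 1) x
  rw [Real.sq_sqrt hq.le] at i1
  have hc : Continuous (fun η : Sp d => ⟪x - η, w⟫_ℝ * GPx.ip (d + 2) (q + ‖x - η‖ ^ 2)) := by
    have h1 := GPx.continuous_ipx hq0 (d + 2) x
    rw [Real.sq_sqrt hq.le] at h1
    exact (by fun_prop : Continuous (fun η : Sp d => ⟪x - η, w⟫_ℝ)).mul h1
  refine Integrable.mono' (i1.const_mul ‖w‖) hc.aestronglyMeasurable
    (Eventually.of_forall fun η => ?_)
  have hpos : 0 < q + ‖x - η‖ ^ 2 := by positivity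
  rw [norm_mul, Real.norm_eq_abs, Real.norm_of_nonneg (GPx.ip_nonneg _ _)]
  have e1 := abs_real_inner_le_norm (x - η) w
  have e2 : ‖x - η‖ ≤ Real.sqrt (q + ‖x - η‖ ^ 2) := Real.le_sqrt_of_sq_le (by linarith)
  have e3 := GPx.ip_succ (d + 1) hpos
  have e4 := GPx.ip_nonneg (d + 2) (q + ‖x - η‖ ^ 2)
  calc |⟪x - η, w⟫_ℝ| * GPx.ip (d + 2) (q + ‖x - η‖ ^ 2) ≤
        (Real.sqrt (q + ‖x - η‖ ^ 2) * ‖w‖) * GPx.ip (d + 2) (q + ‖x - η‖ ^ 2) := by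
        refine mul_le_mul_of_nonneg_right (e1.trans ?_) e4
        exact mul_le_mul_of_nonneg_right e2 (norm_nonneg _)
    _ = ‖w‖ * (Real.sqrt (q + ‖x - η‖ ^ 2) * GPx.ip (d + 2) (q + ‖x - η‖ ^ 2)) := by ring
    _ = _ := by rw [show d + 2 = d + 1 + 1 from rfl, e3]

/-- the constant of the inversion -/
def KI (d : ℕ) : ℝ := (d + 2) * 4 * 3 ^ (d + 4)

lemma KI_pos : 0 < KI d := by unfold KI; positivity

section main

variable (h : StmtTH) (hd : 2 ≤ d) {C' : ℝ} (hC' : 0 < C') {μ : Measure (Sp d)} (hμ : Gro C' μ)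

include h hd hC' hμ

lemma inv_diff (hP : GPx.Pot μ) {n x : Sp d} (hn : ‖n‖ = 1) {s t : ℝ} (h1 : 1 / 2 ≤ t)
    (h2 : t ≤ 2) {w : Sp d} (hw : ⟪n, w⟫_ℝ = 0) (hw1 : ‖w‖ ≤ 1) {z : ℝ} (hz : z = ⟪n, x⟫_ℝ - s)
    {θ : ℝ} (hθ : 0 < θ) :
    |(∫ η, ⟪x - η, w⟫_ℝ * GPx.ip (d + 2) (t ^ 2 + ‖x - η‖ ^ 2) ∂μ) -
      ∫ η, ⟪(x - z • n) - η, w⟫_ℝ *
        GPx.ip (d + 2) ((t ^ 2 + z ^ 2) + ‖(x - z • n) - η‖ ^ 2) ∂μ| ≤
      KI d * |z| * (θ * vv μ t x ^ 2 +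
        4 ^ (d + 5) / θ * UUm.EE μ (fun η => MO.ht n s η ^ 2) x) := by
  have ht : 0 < t := by linarith
  have := hP.fin
  have iA := int_lin hP (q := t ^ 2) (by positivity) x w
  have iB := int_lin hP (q := t ^ 2 + z ^ 2) (by positivity) (x - z • n) w
  have i0 := hP.int_ip ht d x
  have ih := UUm.int_h2 h hd hC' hμ hn s x
  have hm4c : Continuous (fun η => MO.ht n s η ^ 2 * GPx.ip (d + 4) (t ^ 2 + ‖x - η‖ ^ 2)) :=
    ((MO.ht_cont n s).pow 2).mul (GPx.continuous_ipx ht _ x)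
  have i4 : Integrable (fun η => MO.ht n s η ^ 2 * GPx.ip (d + 4) (t ^ 2 + ‖x - η‖ ^ 2)) μ := by
    refine Integrable.mono' (ih.const_mul (2 * 4 ^ (d + 5))) hm4c.aestronglyMeasurable
      (Eventually.of_forall fun η => ?_)
    rw [Real.norm_of_nonneg (mul_nonneg (sq_nonneg _) (GPx.ip_nonneg _ _))]
    have := UUm.ip4_le h1 h2 (x - η)
    nlinarith [sq_nonneg (MO.ht n s η)]
  rw [← integral_sub iA iB]
  have hpt : ∀ η, ‖⟪x - η, w⟫_ℝ * GPx.ip (d + 2) (t ^ 2 + ‖x - η‖ ^ 2) -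
      ⟪(x - z • n) - η, w⟫_ℝ * GPx.ip (d + 2) ((t ^ 2 + z ^ 2) + ‖(x - z • n) - η‖ ^ 2)‖ ≤
      KI d * |z| * (θ / 2 * GPx.ip d (t ^ 2 + ‖x - η‖ ^ 2) +
        1 / (2 * θ) * (MO.ht n s η ^ 2 * GPx.ip (d + 4) (t ^ 2 + ‖x - η‖ ^ 2))) := by
    intro η
    have e0 : ⟪(x - z • n) - η, w⟫_ℝ = ⟪x - η, w⟫_ℝ := by
      have : (x - z • n) - η = (x - η) - z • n := by abel
      rw [this, inner_sub_left, inner_smul_left, hw, mul_zero, sub_zero]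
    have ha : 0 < t ^ 2 + ‖x - η‖ ^ 2 := by positivity
    have hsa : 0 < Real.sqrt (t ^ 2 + ‖x - η‖ ^ 2) := Real.sqrt_pos.2 ha
    have e1 := GPx.ip_diff (q := Real.sqrt (t ^ 2 + ‖x - η‖ ^ 2) / 3) (by positivity)
      (A := t ^ 2 + ‖x - η‖ ^ 2) (B := (t ^ 2 + z ^ 2) + ‖(x - z • n) - η‖ ^ 2)
      (by linarith) (inv_sqrt hn x z t η) (d + 2)
    have e2 : |t ^ 2 + ‖x - η‖ ^ 2 - ((t ^ 2 + z ^ 2) + ‖(x - z • n) - η‖ ^ 2)| =
        2 * |z| * |MO.ht n s η| := by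
      rw [inv_sq hn x hz t η]
      rw [show t ^ 2 + ‖x - η‖ ^ 2 - (t ^ 2 + ‖x - η‖ ^ 2 + 2 * z * MO.ht n s η) =
        -(2 * z * MO.ht n s η) by ring, abs_neg, abs_mul, abs_mul]
      norm_num
    have e3 : ((Real.sqrt (t ^ 2 + ‖x - η‖ ^ 2) / 3) ^ (d + 2 + 2))⁻¹ =
        3 ^ (d + 4) * GPx.ip (d + 4) (t ^ 2 + ‖x - η‖ ^ 2) := by
      unfold GPx.ip
      rw [div_pow, inv_div, div_eq_mul_inv]
    rw [e2, e3] at e1
    have e4 : |⟪x - η, w⟫_ℝ| ≤ Real.sqrt (t ^ 2 + ‖x - η‖ ^ 2) := by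
      refine (abs_real_inner_le_norm _ _).trans ?_
      have a1 : ‖x - η‖ ≤ Real.sqrt (t ^ 2 + ‖x - η‖ ^ 2) :=
        Real.le_sqrt_of_sq_le (by nlinarith [sq_nonneg t])
      nlinarith [norm_nonneg (x - η), norm_nonneg w]
    have e5 := GPx.ip_succ (d + 3) ha
    have e6 := GPx.ip_succ (d + 2) ha
    have e7 : t ≤ Real.sqrt (t ^ 2 + ‖x - η‖ ^ 2) := GPx.sqrt_ge _
    have n3 := GPx.ip_nonneg (d + 3) (t ^ 2 + ‖x - η‖ ^ 2)
    have n4 := GPx.ip_nonneg (d + 4) (t ^ 2 + ‖x - η‖ ^ 2)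
    have e8 : GPx.ip (d + 3) (t ^ 2 + ‖x - η‖ ^ 2) ≤ 2 * GPx.ip (d + 2) (t ^ 2 + ‖x - η‖ ^ 2) := by
      have a1 : d + 2 + 1 = d + 3 := rfl
      rw [a1] at e6
      nlinarith
    have e9 := UUm.amgm (k := d) (m := MO.ht n s η) ha hθ
    have hz0 := abs_nonneg z
    have hh0 := abs_nonneg (MO.ht n s η)
    rw [e0, ← mul_sub, norm_mul, Real.norm_eq_abs, Real.norm_eq_abs]
    calc |⟪x - η, w⟫_ℝ| * |GPx.ip (d + 2) (t ^ 2 + ‖x - η‖ ^ 2) -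
          GPx.ip (d + 2) ((t ^ 2 + z ^ 2) + ‖(x - z • n) - η‖ ^ 2)| ≤
          Real.sqrt (t ^ 2 + ‖x - η‖ ^ 2) * (((d + 2 : ℕ) : ℝ) * (2 * |z| * |MO.ht n s η|) *
            (3 ^ (d + 4) * GPx.ip (d + 4) (t ^ 2 + ‖x - η‖ ^ 2))) :=
          mul_le_mul e4 e1 (abs_nonneg _) hsa.le
      _ = (d + 2) * 2 * 3 ^ (d + 4) * |z| * |MO.ht n s η| *
            (Real.sqrt (t ^ 2 + ‖x - η‖ ^ 2) * GPx.ip (d + 3 + 1) (t ^ 2 + ‖x - η‖ ^ 2)) := by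
          push_cast; ring
      _ = (d + 2) * 2 * 3 ^ (d + 4) * |z| * |MO.ht n s η| *
            GPx.ip (d + 3) (t ^ 2 + ‖x - η‖ ^ 2) := by rw [e5]
      _ ≤ (d + 2) * 2 * 3 ^ (d + 4) * |z| * |MO.ht n s η| *
            (2 * GPx.ip (d + 2) (t ^ 2 + ‖x - η‖ ^ 2)) :=
          mul_le_mul_of_nonneg_left e8 (by positivity)
      _ = KI d * |z| * (|MO.ht n s η| * GPx.ip (d + 2) (t ^ 2 + ‖x - η‖ ^ 2)) := by
          unfold KI; ring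
      _ ≤ _ := mul_le_mul_of_nonneg_left e9 (mul_nonneg KI_pos.le hz0)
  rw [← Real.norm_eq_abs]
  refine (norm_integral_le_integral_norm _).trans ?_
  have iR : Integrable (fun η => KI d * |z| * (θ / 2 * GPx.ip d (t ^ 2 + ‖x - η‖ ^ 2) +
        1 / (2 * θ) * (MO.ht n s η ^ 2 * GPx.ip (d + 4) (t ^ 2 + ‖x - η‖ ^ 2)))) μ :=
    ((i0.const_mul _).add (i4.const_mul _)).const_mul _
  refine (integral_mono (iA.sub iB).norm iR hpt).trans ?_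
  rw [integral_const_mul, integral_add (i0.const_mul _) (i4.const_mul _), integral_const_mul,
    integral_const_mul]
  refine mul_le_mul_of_nonneg_left ?_ (mul_nonneg KI_pos.le (abs_nonneg z))
  have f1 : (∫ η, GPx.ip d (t ^ 2 + ‖x - η‖ ^ 2) ∂μ) ≤ 2 * vv μ t x ^ 2 := by
    have e1 := GPx.th_eq (μ := μ) (t := t) x
    rw [hP.vsq ht, e1]
    have e2 : 0 ≤ ∫ η, GPx.ip d (t ^ 2 + ‖x - η‖ ^ 2) ∂μ :=
      integral_nonneg fun η => GPx.ip_nonneg _ _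
    nlinarith
  have f2 : (∫ η, MO.ht n s η ^ 2 * GPx.ip (d + 4) (t ^ 2 + ‖x - η‖ ^ 2) ∂μ) ≤
      2 * 4 ^ (d + 5) * UUm.EE μ (fun η => MO.ht n s η ^ 2) x := by
    unfold UUm.EE
    rw [← integral_const_mul]
    refine integral_mono i4 (ih.const_mul _) fun η => ?_
    have := UUm.ip4_le h1 h2 (x - η)
    calc MO.ht n s η ^ 2 * GPx.ip (d + 4) (t ^ 2 + ‖x - η‖ ^ 2) ≤
          MO.ht n s η ^ 2 * (2 * 4 ^ (d + 5) * MO.K 1 (x - η)) :=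
          mul_le_mul_of_nonneg_left this (sq_nonneg _)
      _ = _ := by ring
  have g1 : θ / 2 * (∫ η, GPx.ip d (t ^ 2 + ‖x - η‖ ^ 2) ∂μ) ≤ θ * vv μ t x ^ 2 := by
    calc _ ≤ θ / 2 * (2 * vv μ t x ^ 2) := mul_le_mul_of_nonneg_left f1 (by positivity)
      _ = _ := by ring
  have g2 : 1 / (2 * θ) * (∫ η, MO.ht n s η ^ 2 * GPx.ip (d + 4) (t ^ 2 + ‖x - η‖ ^ 2) ∂μ) ≤
      4 ^ (d + 5) / θ * UUm.EE μ (fun η => MO.ht n s η ^ 2) x := by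
    calc _ ≤ 1 / (2 * θ) * (2 * 4 ^ (d + 5) * UUm.EE μ (fun η => MO.ht n s η ^ 2) x) :=
          mul_le_mul_of_nonneg_left f2 (by positivity)
      _ = _ := by field_simp
  exact add_le_add g1 g2

/-- the inversion -/
lemma inv_step (hP : GPx.Pot μ) {n x : Sp d} (hn : ‖n‖ = 1) {s t : ℝ} (h1 : 1 / 2 ≤ t)
    (h2 : t ≤ 2) {w : Sp d} (hw : ⟪n, w⟫_ℝ = 0) (hw1 : ‖w‖ ≤ 1) {z : ℝ} (hz : z = ⟪n, x⟫_ℝ - s)
    {θ : ℝ} (hθ : 0 < θ) :
    vv μ t x * |fderiv ℝ (vv μ t) x w| ≤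
      vv μ (Real.sqrt (t ^ 2 + z ^ 2)) (x - z • n) *
        |fderiv ℝ (vv μ (Real.sqrt (t ^ 2 + z ^ 2))) (x - z • n) w| +
      d * (KI d * |z| * (θ * vv μ t x ^ 2 +
        4 ^ (d + 5) / θ * UUm.EE μ (fun η => MO.ht n s η ^ 2) x)) := by
  have ht : 0 < t := by linarith
  have hs0 : 0 < Real.sqrt (t ^ 2 + z ^ 2) := Real.sqrt_pos.2 (by positivity)
  have hts : t ≤ Real.sqrt (t ^ 2 + z ^ 2) := Real.le_sqrt_of_sq_le (by nlinarith [sq_nonneg z])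
  have k1 := UUm.deriv_th hP ht x w
  have k2 := UUm.deriv_th hP hs0 (x - z • n) w
  rw [Real.sq_sqrt (by positivity)] at k2
  have k3 := inv_diff h hd hC' hμ hP hn h1 h2 hw hw1 hz hθ
  set D1 := ∫ η, ⟪x - η, w⟫_ℝ * GPx.ip (d + 2) (t ^ 2 + ‖x - η‖ ^ 2) ∂μ with hD1
  set D2 := ∫ η, ⟪(x - z • n) - η, w⟫_ℝ *
        GPx.ip (d + 2) ((t ^ 2 + z ^ 2) + ‖(x - z • n) - η‖ ^ 2) ∂μ with hD2
  set sg := Real.sqrt (t ^ 2 + z ^ 2) with hsg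
  set E := KI d * |z| * (θ * vv μ t x ^ 2 +
        4 ^ (d + 5) / θ * UUm.EE μ (fun η => MO.ht n s η ^ 2) x) with hE
  have hv1 := (hP.vpos ht x).le
  have hv2 := (hP.vpos hs0 (x - z • n)).le
  have hd0 : (0 : ℝ) ≤ d := Nat.cast_nonneg d
  have a1 : 2 * (vv μ t x * |fderiv ℝ (vv μ t) x w|) = d * t * |D1| := by
    have : |2 * vv μ t x * fderiv ℝ (vv μ t) x w| = d * t * |D1| := by
      rw [k1, abs_neg, abs_mul, abs_of_nonneg (by positivity)]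
    rw [← this, abs_mul, abs_of_nonneg (show 0 ≤ 2 * vv μ t x by positivity)]
    ring
  have a2 : 2 * (vv μ sg (x - z • n) * |fderiv ℝ (vv μ sg) (x - z • n) w|) = d * sg * |D2| := by
    have : |2 * vv μ sg (x - z • n) * fderiv ℝ (vv μ sg) (x - z • n) w| = d * sg * |D2| := by
      rw [k2, abs_neg, abs_mul, abs_of_nonneg (by positivity)]
    rw [← this, abs_mul, abs_of_nonneg (show 0 ≤ 2 * vv μ sg (x - z • n) by positivity)]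
    ring
  have a3 : |D1| ≤ |D2| + E := by
    have := abs_sub_abs_le_abs_sub D1 D2
    linarith
  have hE0 : 0 ≤ E := (abs_nonneg _).trans k3
  have a4 : d * t * |D1| ≤ d * sg * |D2| + 2 * (d * E) := by
    calc d * t * |D1| ≤ d * t * (|D2| + E) := mul_le_mul_of_nonneg_left a3 (by positivity)
      _ = d * t * |D2| + d * t * E := by ring
      _ ≤ d * sg * |D2| + 2 * (d * E) := by
          refine add_le_add ?_ ?_
          · exact mul_le_mul_of_nonneg_right (mul_le_mul_of_nonneg_left hts hd0) (abs_nonneg _)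
          · have : 0 ≤ d * E := mul_nonneg hd0 hE0
            nlinarith
  linarith

end main

end INm

end

end TG
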