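import Pool.Agent.TG.FR0
import Pool.Agent.TG.GS
import Pool.Agent.TG.PTb

/-!
# Tools for the modules W1 - W7  (helper98)

(1) the symmetry (n,s) -> (-n,-s); (2) monotonicity of Sheet; (3) plane integrals under translation
and scaling; (4) gains in the frames of other cells; (5) the partition of unity.
-/

open MeasureTheory Metric Set TrI
open scoped InnerProductSpace ContDiff ENNReal

namespace TG

namespace WT

noncomputable section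

set_option linter.unusedSectionVars false

variable {d : ℕ}

/-! ## Symmetry -/

lemma tang_neg (n w : Sp d) : tang (-n) w = tang n w := by
  unfold tang
  rw [inner_neg_left]
  simp

lemma X1_neg (β : Sp d → ℝ) (ε : ℝ) (μ : Measure (Sp d)) (n : Sp d) :
    X1 β ε μ (-n) = X1 β ε μ n := by
  funext t y
  unfold X1
  simp only [tang_neg]

lemma X2_neg (μ : Measure (Sp d)) (n : Sp d) : X2 μ (-n) = X2 μ n := by
  funext t y
  unfold X2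
  simp only [inner_neg_right, neg_sq]

lemma X3_neg (β : Sp d → ℝ) (ε : ℝ) (μ : Measure (Sp d)) (n : Sp d) :
    X3 β ε μ (-n) = X3 β ε μ n := by
  funext t y
  unfold X3
  simp only [inner_neg_right, mul_neg, neg_mul, neg_neg]

lemma XX_neg (β : Sp d → ℝ) (ε : ℝ) (μ : Measure (Sp d)) (n : Sp d) (t : ℝ) (y : Sp d) :
    XX β ε μ (-n) t y = XX β ε μ n t y := by
  unfold XX
  rw [X1_neg, X2_neg, X3_neg]

lemma d2_neg (n : Sp d) (g : Sp d → ℝ) (x : Sp d) : d2 (-n) g x = d2 n g x := by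
  unfold d2
  have h : (fun _ : Fin 2 => -n) = fun i : Fin 2 => (-1 : ℝ) • (fun _ : Fin 2 => n) i := by
    funext i
    simp
  rw [h, ContinuousMultilinearMap.map_smul_univ]
  simp

lemma gn_neg (β : Sp d → ℝ) (ε : ℝ) (μ : Measure (Sp d)) (n : Sp d) (t : ℝ) (y : Sp d) :
    gn β ε μ (-n) t y = gn β ε μ n t y := by
  unfold gn
  rw [d2_neg]

lemma Hn_neg (β : Sp d → ℝ) (ε p0 A : ℝ) (μ : Measure (Sp d)) (n : Sp d) (t : ℝ) (y : Sp d) :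
    Hn β ε p0 A μ (-n) t y = Hn β ε p0 A μ n t y := by
  unfold Hn
  rw [gn_neg, tang_neg, tang_neg]

lemma fxA_neg (χ χ' β : Sp d → ℝ) (ε p0 A : ℝ) (μ : Measure (Sp d)) (n x : Sp d) :
    fxA χ χ' β ε p0 A μ (-n) x = fxA χ χ' β ε p0 A μ n x := by
  unfold fxA
  rw [tang_neg, tang_neg]

lemma dvT_neg (χ β : Sp d → ℝ) (ε p0 A : ℝ) (μ : Measure (Sp d)) (n x : Sp d) :
    dvT χ β ε p0 A μ (-n) x = dvT χ β ε p0 A μ n x := by
  unfold dvT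
  simp only [tang_neg]

lemma span_neg_singleton (n : Sp d) :
    Submodule.span ℝ ({-n} : Set (Sp d)) = Submodule.span ℝ {n} := by
  rw [← Set.neg_singleton, Submodule.span_neg]

lemma int_sub {F : Type*} [NormedAddCommGroup F] [NormedSpace ℝ F] {S T : Submodule ℝ (Sp d)}
    (h : S = T) (f : Sp d → F) : ∫ y : S, f (y : Sp d) = ∫ y : T, f (y : Sp d) := by
  subst h
  rfl

lemma plInt_neg {F : Type*} [NormedAddCommGroup F] [NormedSpace ℝ F] (n : Sp d) (s : ℝ)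
    (ζ : Sp d → F) : plInt (-n) (-s) ζ = plInt n s ζ := by
  unfold plInt
  rw [neg_smul_neg]
  exact int_sub (by rw [span_neg_singleton]) (fun y => ζ (s • n + y))

lemma hgt_neg (n : Sp d) (s : ℝ) (y : Sp d) : hgt (-n) (-s) y = -hgt n s y := by
  unfold hgt
  rw [inner_neg_left]
  ring

lemma blc_neg (n : Sp d) (s : ℝ) (m : Sp d → ℝ) (R : ℝ) : blc (-n) (-s) m R = blc n s m R := by
  unfold blc
  simp only [hgt_neg, neg_sq]

lemma TB_neg {J : ℕ} {n : Sp d} {s N : ℝ} {ζ : Sp d → ℝ} (h : TB J (-n) (-s) N ζ) :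
    TB J n s N ζ := by
  intro j hj w hw hw1 y hy
  obtain ⟨h1, h2⟩ := h j hj w (fun i => by rw [inner_neg_left, hw i, neg_zero]) hw1 y
    (by rw [inner_neg_left, hy])
  refine ⟨h1, ?_⟩
  have h3 : (fun x => fderiv ℝ ζ x (-n)) = -(fun x => fderiv ℝ ζ x n) := by
    funext x
    simp
  rw [h3, iteratedFDeriv_neg_apply] at h2
  simpa using h2

lemma sheet_neg {J : ℕ} {R ab ep D : ℝ} {m : Sp d → ℝ} {n : Sp d} {s : ℝ}
    (h : Sheet J R ab ep D m n s) : Sheet J R ab ep D m (-n) (-s) where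
  n1 := by rw [norm_neg]; exact h.n1
  ab0 := h.ab0
  ep0 := h.ep0
  loc := by rw [abs_neg]; exact h.loc
  est := by
    intro ζ ρ N N2 h1 h2 h3 h4 h5 h6
    rw [plInt_neg, blc_neg]
    exact h.est ζ ρ N N2 h1 h2 h3 h4 (TB_neg h5) h6

/-- the symmetry with a sign -/
lemma sheet_sign {J : ℕ} {R ab ep D : ℝ} {m : Sp d → ℝ} {n : Sp d} {s σ : ℝ}
    (hσ : σ = 1 ∨ σ = -1)
    (h : Sheet J R ab ep D m n s) : Sheet J R ab ep D m (σ • n) (σ * s) := by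
  rcases hσ with rfl | rfl
  · simpa using h
  · simpa using sheet_neg h

lemma plInt_sign {F : Type*} [NormedAddCommGroup F] [NormedSpace ℝ F] (n : Sp d) (s : ℝ)
    (ζ : Sp d → F) {σ : ℝ} (hσ : σ = 1 ∨ σ = -1) :
    plInt (σ • n) (σ * s) ζ = plInt n s ζ := by
  rcases hσ with rfl | rfl
  · simp
  · simpa using plInt_neg n s ζ

lemma blc_sign (n : Sp d) (s : ℝ) (m : Sp d → ℝ) (R : ℝ) {σ : ℝ} (hσ : σ = 1 ∨ σ = -1) :
    blc (σ • n) (σ * s) m R = blc n s m R := by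
  rcases hσ with rfl | rfl
  · simp
  · simpa using blc_neg n s m R

lemma XX_sign (β : Sp d → ℝ) (ε : ℝ) (μ : Measure (Sp d)) (n : Sp d) (t : ℝ) (y : Sp d) {σ : ℝ}
    (hσ : σ = 1 ∨ σ = -1) : XX β ε μ (σ • n) t y = XX β ε μ n t y := by
  rcases hσ with rfl | rfl
  · simp
  · simpa using XX_neg β ε μ n t y

lemma Hn_sign (β : Sp d → ℝ) (ε p0 A : ℝ) (μ : Measure (Sp d)) (n : Sp d) (t : ℝ) (y : Sp d)
    {σ : ℝ} (hσ : σ = 1 ∨ σ = -1) :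
    Hn β ε p0 A μ (σ • n) t y = Hn β ε p0 A μ n t y := by
  rcases hσ with rfl | rfl
  · simp
  · simpa using Hn_neg β ε p0 A μ n t y

lemma fxA_sign (χ χ' β : Sp d → ℝ) (ε p0 A : ℝ) (μ : Measure (Sp d)) (n x : Sp d)
    {σ : ℝ} (hσ : σ = 1 ∨ σ = -1) :
    fxA χ χ' β ε p0 A μ (σ • n) x = fxA χ χ' β ε p0 A μ n x := by
  rcases hσ with rfl | rfl
  · simp
  · simpa using fxA_neg χ χ' β ε p0 A μ n x

/-! ## Monotonicity -/

lemma sheet_N {J : ℕ} {n : Sp d} {s N : ℝ} {ζ : Sp d → ℝ} (hn : ‖n‖ = 1) (h : TB J n s N ζ) :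
    0 ≤ N := by
  refine (abs_nonneg _).trans (h 0 (Nat.zero_le _) (fun j => j.elim0) (fun j => j.elim0)
    (fun j => j.elim0) (s • n) ?_).1
  rw [inner_smul_right, real_inner_self_eq_norm_sq, hn]
  ring

/-- Sheet is monotone in the order, the radius, ep and D -/
lemma sheet_mono {J J' : ℕ} {R R' ab ep ep' D D' : ℝ} {m : Sp d → ℝ} {n : Sp d} {s : ℝ}
    (h : Sheet J R ab ep D m n s) (hJ : J ≤ J') (hR : R' ≤ R) (hs : |s| ≤ 3 / 2 * R')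
    (he : ep ≤ ep') (hD : D ≤ D') : Sheet J' R' ab ep' D' m n s where
  n1 := h.n1
  ab0 := h.ab0
  ep0 := h.ep0.trans he
  loc := hs
  est := by
    intro ζ ρ N N2 h1 h2 h3 h4 h5 h6
    have h7 := h.est ζ ρ N N2 (h1.of_le (by exact_mod_cast Nat.add_le_add_right hJ 2)) h2
      (h3.trans hR) h4 (fun j hj => h5 j (hj.trans hJ)) h6
    have hN2 : 0 ≤ N2 := (norm_nonneg _).trans (h6 0)
    have hN : 0 ≤ N := sheet_N h.n1 h5
    have h8 : (N + N2) * D ≤ (N + N2) * D' := mul_le_mul_of_nonneg_left hD (by linarith)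
    have h9 : ep * N ≤ ep' * N := mul_le_mul_of_nonneg_right he hN
    linarith

/-! ## Positions -/

lemma dsp_eq {s0 : ℝ} (h : 0 < s0) (Q Q' : Cell d) (hl : Q'.1 = Q.1) :
    dsp Q Q' = tw s0 Q Q' := by
  have hp := FR.lev_pos h Q.1
  refine PiLp.ext fun j => ?_
  unfold tw dsp
  rw [PiLp.smul_apply, PiLp.sub_apply, FR.xC_apply, FR.xC_apply, hl, lat]
  simp only [smul_eq_mul]
  push_cast
  field_simp

lemma lev_ne {s0 : ℝ} (h : 0 < s0) (i : ℕ) : lev s0 i ≠ 0 := (FR.lev_pos h i).ne'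

/-- a point of the frame of P, seen in the frame of Q -/
lemma frame_pt {s0 : ℝ} (h : 0 < s0) (Q P : Cell d) (l : ℕ) (hP : P.1 = Q.1 + l) (y : Sp d) :
    xC s0 P + lev s0 P.1 • y = xC s0 Q + lev s0 Q.1 • (tw s0 Q P + (2 : ℝ) ^ l • y) := by
  rw [hP, FR.lev_add, smul_add, ← add_assoc, FR.x_tw h, smul_smul, mul_comm (lev s0 Q.1)]

/-! ## The measure functionals in the frames of two cells -/

section G

variable {C' : ℝ} {μ : Measure (Sp d)}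

lemma gro_muQ (hSC : StmtSC) (hd : 2 ≤ d) (hC' : 0 < C') (hμ : Gro C' μ) {s0 : ℝ} (h : 0 < s0)
    (Q : Cell d) : Gro C' (muQ s0 μ Q) :=
  ((hSC d hd C' hC' (xC s0 Q) (lev s0 Q.1) (FR.lev_pos h _)).1 μ hμ).1

lemma vv_frame (hSC : StmtSC) (hd : 2 ≤ d) (hC' : 0 < C') (hμ : Gro C' μ) {s0 : ℝ} (h : 0 < s0)
    (Q : Cell d) {r : ℝ} (hr : 0 < r) (y : Sp d) :
    vv (muQ s0 μ Q) r y = vv μ (lev s0 Q.1 * r) (xC s0 Q + lev s0 Q.1 • y) :=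
  ((hSC d hd C' hC' (xC s0 Q) (lev s0 Q.1) (FR.lev_pos h _)).1 μ hμ).2.2.1 r y hr

lemma vv_frames (hSC : StmtSC) (hd : 2 ≤ d) (hC' : 0 < C') (hμ : Gro C' μ) {s0 : ℝ} (h : 0 < s0)
    (Q P : Cell d) (l : ℕ) (hP : P.1 = Q.1 + l) (y : Sp d) :
    vv (muQ s0 μ P) 1 y = vv (muQ s0 μ Q) (2 ^ l) (tw s0 Q P + (2 : ℝ) ^ l • y) := by
  rw [vv_frame hSC hd hC' hμ h P one_pos, vv_frame hSC hd hC' hμ h Q (by positivity),
    frame_pt h Q P l hP, mul_one, hP, FR.lev_add, mul_comm (lev s0 Q.1)]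

lemma XX_frame (hSC : StmtSC) (hd : 2 ≤ d) (hC' : 0 < C') (hμ : Gro C' μ) {s0 : ℝ} (h : 0 < s0)
    {J : ℕ} {M : ℝ} {β : Sp d → ℝ} (hβ : Kit J M β) (hJ : 2 ≤ J) {ε : ℝ} (hε : 0 < ε)
    (hε1 : ε ≤ 1) (Q : Cell d) (n : Sp d) {r : ℝ} (hr : 0 < r) (y : Sp d) :
    XX β ε (muQ s0 μ Q) n r y = XX β ε μ n (lev s0 Q.1 * r) (xC s0 Q + lev s0 Q.1 • y) :=
  (((hSC d hd C' hC' (xC s0 Q) (lev s0 Q.1) (FR.lev_pos h _)).1 μ hμ).2.2.2.2 J M β hβ hJ ε hε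
    hε1 r y hr).2.2.1 n

lemma XX_frames (hSC : StmtSC) (hd : 2 ≤ d) (hC' : 0 < C') (hμ : Gro C' μ) {s0 : ℝ} (h : 0 < s0)
    {J : ℕ} {M : ℝ} {β : Sp d → ℝ} (hβ : Kit J M β) (hJ : 2 ≤ J) {ε : ℝ} (hε : 0 < ε)
    (hε1 : ε ≤ 1) (Q P : Cell d) (l : ℕ) (hP : P.1 = Q.1 + l) (n y : Sp d) :
    XX β ε (muQ s0 μ P) n 1 y = XX β ε (muQ s0 μ Q) n (2 ^ l) (tw s0 Q P + (2 : ℝ) ^ l • y) := by
  rw [XX_frame hSC hd hC' hμ h hβ hJ hε hε1 P n one_pos,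
    XX_frame hSC hd hC' hμ h hβ hJ hε hε1 Q n (by positivity),
    frame_pt h Q P l hP, mul_one, hP, FR.lev_add, mul_comm (lev s0 Q.1)]

/-- the same on one level -/
lemma XX_shift (hSC : StmtSC) (hd : 2 ≤ d) (hC' : 0 < C') (hμ : Gro C' μ) {s0 : ℝ} (h : 0 < s0)
    {J : ℕ} {M : ℝ} {β : Sp d → ℝ} (hβ : Kit J M β) (hJ : 2 ≤ J) {ε : ℝ} (hε : 0 < ε)
    (hε1 : ε ≤ 1) (Q P : Cell d) (hP : P.1 = Q.1) (n y : Sp d) :
    XX β ε (muQ s0 μ P) n 1 y = XX β ε (muQ s0 μ Q) n 1 (dsp Q P + y) := by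
  have := XX_frames hSC hd hC' hμ h hβ hJ hε hε1 Q P 0 (by simpa using hP) n y
  rw [pow_zero, one_smul] at this
  rw [this, dsp_eq h Q P hP]

lemma vv_shift (hSC : StmtSC) (hd : 2 ≤ d) (hC' : 0 < C') (hμ : Gro C' μ) {s0 : ℝ} (h : 0 < s0)
    (Q P : Cell d) (hP : P.1 = Q.1) (y : Sp d) :
    vv (muQ s0 μ P) 1 y = vv (muQ s0 μ Q) 1 (dsp Q P + y) := by
  have := vv_frames hSC hd hC' hμ h Q P 0 (by simpa using hP) y
  rw [pow_zero, one_smul] at this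
  rw [this, dsp_eq h Q P hP]

lemma GG_shift (hSC : StmtSC) (hd : 2 ≤ d) (hC' : 0 < C') (hμ : Gro C' μ) {s0 : ℝ} (h : 0 < s0)
    {J : ℕ} {M : ℝ} {β : Sp d → ℝ} (hβ : Kit J M β) (hJ : 2 ≤ J) {ε : ℝ} (hε : 0 < ε)
    (hε1 : ε ≤ 1) (Q P : Cell d) (hP : P.1 = Q.1) (y : Sp d) :
    GG β ε (muQ s0 μ P) 1 y = GG β ε (muQ s0 μ Q) 1 (dsp Q P + y) := by
  have h1 := (((hSC d hd C' hC' (xC s0 P) (lev s0 P.1) (FR.lev_pos h _)).1 μ hμ).2.2.2.2 J M β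
    hβ hJ ε hε hε1 1 y one_pos).1
  have h2 := (((hSC d hd C' hC' (xC s0 Q) (lev s0 Q.1) (FR.lev_pos h _)).1 μ hμ).2.2.2.2 J M β
    hβ hJ ε hε hε1 1 (dsp Q P + y) one_pos).1
  have h3 := frame_pt h Q P 0 (by simpa using hP) y
  rw [pow_zero, one_smul, ← dsp_eq h Q P hP] at h3
  unfold muQ
  rw [h1, h2, h3, hP]

lemma WW_shift (hSC : StmtSC) (hd : 2 ≤ d) (hC' : 0 < C') (hμ : Gro C' μ) {s0 : ℝ} (h : 0 < s0)
    {J : ℕ} {M : ℝ} {β : Sp d → ℝ} (hβ : Kit J M β) (hJ : 2 ≤ J) {ε : ℝ} (hε : 0 < ε)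
    (hε1 : ε ≤ 1) (Q P : Cell d) (hP : P.1 = Q.1) (y : Sp d) :
    WW β ε (muQ s0 μ P) 1 y = WW β ε (muQ s0 μ Q) 1 (dsp Q P + y) := by
  have hl := FR.lev_pos h Q.1
  have h1 := (((hSC d hd C' hC' (xC s0 P) (lev s0 P.1) (FR.lev_pos h _)).1 μ hμ).2.2.2.2 J M β
    hβ hJ ε hε hε1 1 y one_pos).2.1
  have h2 := (((hSC d hd C' hC' (xC s0 Q) (lev s0 Q.1) (FR.lev_pos h _)).1 μ hμ).2.2.2.2 J M β
    hβ hJ ε hε hε1 1 (dsp Q P + y) one_pos).2.1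
  have h3 := frame_pt h Q P 0 (by simpa using hP) y
  rw [pow_zero, one_smul, ← dsp_eq h Q P hP] at h3
  rw [h3, hP, ← h2] at h1
  unfold muQ
  rw [hP]
  exact mul_left_cancel₀ (pow_ne_zero 2 hl.ne') h1

lemma SE_shift (hSE : StmtSE) (hd : 2 ≤ d) (hC' : 0 < C') (hμ : Gro C' μ) {s0 : ℝ} (h : 0 < s0)
    {M : ℝ} {β : Sp d → ℝ} (hβ : Kit 2 M β) {ε : ℝ} (hε : 0 < ε) (hε1 : ε ≤ 1) {p0 A : ℝ}
    (hp : 0 < p0) (hA : 0 < A) (Q P : Cell d) (hP : P.1 = Q.1) (y : Sp d) :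
    qq A (muQ s0 μ P) 1 y = qq A (muQ s0 μ Q) 1 (dsp Q P + y) ∧
    Ups p0 A (muQ s0 μ P) 1 y = Ups p0 A (muQ s0 μ Q) 1 (dsp Q P + y) ∧
    ∀ n : Sp d, ‖n‖ = 1 → Hn β ε p0 A (muQ s0 μ P) n 1 y =
      Hn β ε p0 A (muQ s0 μ Q) n 1 (dsp Q P + y) := by
  have h1 := hSE d hd C' hC' (xC s0 P) (lev s0 P.1) (FR.lev_pos h _) μ hμ M β hβ ε hε hε1 p0 A
    hp hA 1 y one_pos
  have h2 := hSE d hd C' hC' (xC s0 Q) (lev s0 Q.1) (FR.lev_pos h _) μ hμ M β hβ ε hε hε1 p0 A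
    hp hA 1 (dsp Q P + y) one_pos
  have h3 := frame_pt h Q P 0 (by simpa using hP) y
  rw [pow_zero, one_smul, ← dsp_eq h Q P hP] at h3
  unfold muQ
  refine ⟨?_, ?_, fun n hn => ?_⟩
  · rw [h1.1, h2.1, h3, hP]
  · rw [h1.2.1, h2.2.1, h3, hP]
  · rw [h1.2.2 n hn, h2.2.2 n hn, h3, hP]

end G

/-! ## Plane integrals -/

/-- translation of a plane integral -/
lemma plInt_shift {n : Sp d} (hn : ‖n‖ = 1) (x : Sp d) (s : ℝ) (F : Sp d → ℝ) :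
    plInt n s (fun y => F (x + y)) = plInt n (⟪n, x⟫_ℝ + s) F := by
  have := GSAux.plInt_scale hn x one_pos s F
  simpa using this

/-- a plane integral over a finite partition of unity -/
lemma chi_part {d : ℕ} (L : ℕ) {y : Sp d} (hy : ‖y‖ ≤ L) :
    ∑ p ∈ PTm.box d L, chi (y - lat p) = 1 :=
  PTm.chi_sum L fun j => by
    have h2 : |y j| ≤ ‖y‖ := by
      rw [← Real.norm_eq_abs]
      exact PiLp.norm_apply_le y j
    exact h2.trans hy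

/-- a function with support in the ball L is the sum of its pieces -/
lemma chi_decomp {d : ℕ} (L : ℕ) {F : Sp d → ℝ} (hF : ∀ y, (L : ℝ) ≤ ‖y‖ → F y = 0) (y : Sp d) :
    F y = ∑ p ∈ PTm.box d L, chi (y - lat p) * F y := by
  rw [← Finset.sum_mul]
  by_cases h : ‖y‖ ≤ L
  · rw [chi_part L h, one_mul]
  · rw [hF y (not_le.mp h).le, mul_zero]

/-- a cut-off is bounded by the pieces which meet the ball -/
lemma zR_le_chi {d : ℕ} (L : ℕ) {r : ℝ} (hr : r + 1 ≤ L) (y : Sp d) :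
    zR r y ≤ ∑ p ∈ PTm.box d L, chi (y - lat p) := by
  by_cases h : ‖y‖ ≤ L
  · rw [chi_part L h]
    exact Real.smoothTransition.le_one _
  · have h0 : zR r y = 0 := by
      unfold zR
      exact Real.smoothTransition.zero_of_nonpos (by linarith [not_le.mp h])
    rw [h0]
    exact Finset.sum_nonneg fun p _ => PTm.chi_nonneg _

end

end WT

end TG
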