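import Pool.Agent.TG.Stmts17
import Pool.Agent.TG.FN
import Pool.Agent.TG.FRS
import Pool.Agent.TG.WT
import Pool.Agent.TG.CM1

/-!
# MODULE LA: the sheet of a structured cell of type A  (helper88)
-/

set_option autoImplicit false

open MeasureTheory Metric Set TrI
open scoped InnerProductSpace ContDiff ENNReal

namespace TG

namespace LAm

open FR

noncomputable section

variable {d : ℕ}

lemma sh_add {F G : Cell d → ℝ} (hF0 : ∀ Q, 0 ≤ F Q) (hG0 : ∀ Q, 0 ≤ G Q) {B B' : ℝ}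
    (hF : ∀ Q, F Q ≤ B) (hG : ∀ Q, G Q ≤ B') (Q : Cell d) :
    sh (fun P => F P + G P) Q = sh F Q + sh G Q := by
  unfold sh
  rw [← (FR4.sh_summable hF0 hF Q).tsum_add (FR4.sh_summable hG0 hG Q)]
  congr 1
  funext i
  ring

/-- the arithmetic of the errors -/
lemma arith {CF CM κ A β δ ab : ℝ} (hCF : 0 < CF) (hCM : 0 < CM) (hκ : 0 < κ) (hκ1 : κ ≤ 1)
    (hA : 0 < A) (hβ : 0 ≤ β) (hδ : 0 ≤ δ) (hB : β + δ ≤ κ * A) (hab : A ≤ CF * ab)
    (hab0 : 0 < ab) :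
    CF * (β + δ + Real.sqrt (A * δ)) ≤ (1 + 4 * CF ^ 3 + 2 * CF + CM) * Real.sqrt κ * A ∧
    CF * δ ≤ (1 + 4 * CF ^ 3 + 2 * CF + CM) * κ * A ∧
    CF * δ ≤ (1 + 4 * CF ^ 3 + 2 * CF + CM) * δ ∧
    CF * (β + δ + Real.sqrt (A * δ)) ≤ (1 + 4 * CF ^ 3 + 2 * CF + CM) * (β + κ * A) +
      (1 + 4 * CF ^ 3 + 2 * CF + CM) / κ * δ ∧
    (CF * (β + δ + Real.sqrt (A * δ))) ^ 2 / ab + CF * δ ≤
      (1 + 4 * CF ^ 3 + 2 * CF + CM) * (κ * β + δ) ∧
    CF * (β + δ) + CM * δ ≤ (1 + 4 * CF ^ 3 + 2 * CF + CM) * Real.sqrt κ * A := by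
  set C : ℝ := 1 + 4 * CF ^ 3 + 2 * CF + CM with hC
  have hC3 : 0 < CF ^ 3 := by positivity
  have hC0 : 0 < C := by rw [hC]; positivity
  have hC2 : 2 * CF ≤ C := by rw [hC]; linarith
  have hC4 : 4 * CF ^ 3 + CF ≤ C := by rw [hC]; linarith
  have hC5 : CF + CM ≤ C := by rw [hC]; linarith
  set sq := Real.sqrt (A * δ) with hsq
  have hsq0 : 0 ≤ sq := Real.sqrt_nonneg _
  have hsq2 : sq ^ 2 = A * δ := Real.sq_sqrt (by positivity)
  set sk := Real.sqrt κ with hsk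
  have hsk0 : 0 < sk := Real.sqrt_pos.2 hκ
  have hsk2 : sk ^ 2 = κ := Real.sq_sqrt hκ.le
  have hsk1 : sk ≤ 1 := by
    rw [hsk, Real.sqrt_le_left (by norm_num)]
    linarith
  have hks : κ ≤ sk := by nlinarith
  have hδκ : δ ≤ κ * A := by linarith
  have hsqk : sq ≤ sk * A := by
    have h1 : sq ^ 2 ≤ (sk * A) ^ 2 := by
      rw [hsq2, mul_pow, hsk2]
      nlinarith
    exact (abs_le_of_sq_le_sq' h1 (by positivity)).2
  have hκA : κ * A ≤ sk * A := mul_le_mul_of_nonneg_right hks hA.le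
  have hskA : 0 < sk * A := by positivity
  have hδκ2 : δ ≤ δ / κ := by
    rw [le_div_iff₀ hκ]
    nlinarith
  have hsq3 : sq ≤ κ * A / 2 + δ / κ / 2 := by
    have h1 : sq ^ 2 ≤ (κ * A / 2 + δ / κ / 2) ^ 2 := by
      rw [hsq2]
      have h2 : (κ * A / 2 + δ / κ / 2) ^ 2 - A * δ = (κ * A / 2 - δ / κ / 2) ^ 2 := by
        field_simp
        ring
      nlinarith [sq_nonneg (κ * A / 2 - δ / κ / 2)]
    exact (abs_le_of_sq_le_sq' h1 (by positivity)).2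
  refine ⟨?_, ?_, ?_, ?_, ?_, ?_⟩
  · have h1 : β + δ + sq ≤ 2 * (sk * A) := by linarith
    have h2 := mul_le_mul_of_nonneg_left h1 hCF.le
    have h3 := mul_le_mul_of_nonneg_right hC2 hskA.le
    calc CF * (β + δ + sq) ≤ CF * (2 * (sk * A)) := h2
      _ = 2 * CF * (sk * A) := by ring
      _ ≤ C * (sk * A) := h3
      _ = C * sk * A := by ring
  · have h1 := mul_le_mul_of_nonneg_left hδκ hCF.le
    have h2 : CF ≤ C := by linarith
    have h3 := mul_le_mul_of_nonneg_right h2 (by positivity : 0 ≤ κ * A)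
    linarith [h1, h3]
  · exact mul_le_mul_of_nonneg_right (by linarith) hδ
  · have h1 : β + δ + sq ≤ 2 * (β + κ * A) + 2 * (δ / κ) := by
      have h2 : 0 ≤ κ * A := by positivity
      have h3 : 0 ≤ δ / κ := by positivity
      linarith
    have h2 := mul_le_mul_of_nonneg_left h1 hCF.le
    have h3 := mul_le_mul_of_nonneg_right hC2
      (by positivity : 0 ≤ β + κ * A + δ / κ)
    calc CF * (β + δ + sq) ≤ CF * (2 * (β + κ * A) + 2 * (δ / κ)) := h2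
      _ = 2 * CF * (β + κ * A + δ / κ) := by ring
      _ ≤ C * (β + κ * A + δ / κ) := h3
      _ = C * (β + κ * A) + C / κ * δ := by ring
  · have h1 : (β + δ + sq) ^ 2 ≤ 4 * A * (κ * β + δ) := by
      have h2 : (β + δ + sq) ^ 2 ≤ 2 * ((β + δ) ^ 2 + sq ^ 2) := by
        nlinarith [sq_nonneg (β + δ - sq)]
      have h3 : (β + δ) ^ 2 ≤ κ * A * (β + δ) := by
        have := mul_le_mul_of_nonneg_right hB (by positivity : 0 ≤ β + δ)
        nlinarith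
      have h4 : κ * A * δ ≤ A * δ := by
        have := mul_le_mul_of_nonneg_right hκ1 (by positivity : 0 ≤ A * δ)
        nlinarith
      have h5 : 0 ≤ κ * A * β := by positivity
      rw [hsq2] at h2
      nlinarith
    have h2 : (CF * (β + δ + sq)) ^ 2 / ab ≤ 4 * CF ^ 3 * (κ * β + δ) := by
      rw [div_le_iff₀ hab0]
      have h3 : 0 ≤ κ * β + δ := by positivity
      have h4 := mul_le_mul_of_nonneg_left h1 (by positivity : 0 ≤ CF ^ 2)
      have h5 := mul_le_mul_of_nonneg_left hab (by positivity : 0 ≤ CF ^ 2 * (4 * (κ * β + δ)))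
      calc (CF * (β + δ + sq)) ^ 2 = CF ^ 2 * (β + δ + sq) ^ 2 := by ring
        _ ≤ CF ^ 2 * (4 * A * (κ * β + δ)) := h4
        _ = CF ^ 2 * (4 * (κ * β + δ)) * A := by ring
        _ ≤ CF ^ 2 * (4 * (κ * β + δ)) * (CF * ab) := h5
        _ = 4 * CF ^ 3 * (κ * β + δ) * ab := by ring
    have h3 : CF * δ ≤ CF * (κ * β + δ) :=
      mul_le_mul_of_nonneg_left (by nlinarith [mul_nonneg hκ.le hβ]) hCF.le
    have h4 := mul_le_mul_of_nonneg_right hC4 (by positivity : 0 ≤ κ * β + δ)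
    linarith
  · have h1 : CF * (β + δ) ≤ CF * (sk * A) := mul_le_mul_of_nonneg_left (by linarith) hCF.le
    have h2 : CM * δ ≤ CM * (sk * A) := mul_le_mul_of_nonneg_left (by linarith) hCM.le
    have h3 := mul_le_mul_of_nonneg_right hC5 hskA.le
    linarith

end

end LAm

open LAm FR in
theorem stmtLA (hFR2 : StmtFR2) (hMA : StmtMA) (hSC : StmtSC) (h2 : StmtCT2) (h4 : StmtCT4)
    (h5 : StmtCT5) : StmtLA := by
  intro d V E _ _ _ _ _ _ _ L hd hL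
  obtain ⟨J0, HF⟩ := hFR2 d V E L hd hL
  refine ⟨J0, ?_⟩
  intro J hJ M c0 ε hε hε1 b hb R0 γ K hR0 hγ hγ1 hK
  have hd1 : 1 ≤ d := by omega
  have hdR : (1 : ℝ) ≤ d := by exact_mod_cast hd1
  obtain ⟨CF, κF, hCF, hκF, HF⟩ := HF M c0 ε hε hε1 b hb R0 γ K hR0 hγ hγ1 hK
  obtain ⟨CM, hCM, HM⟩ := FN.far_mass hMA hSC hd hε hε1 hb (R0 := R0) (by linarith)
  obtain ⟨C5, hC5, g5⟩ := h5 d hd1 M c0 ε hε hε1 b hb R0 0 (by linarith)
  refine ⟨1 + 4 * CF ^ 3 + 2 * CF + CM, min κF 1, 300 * R0, ?_, lt_min hκF one_pos,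
    min_le_right _ _, ?_⟩
  · have := pow_pos hCF 3
    linarith
  intro R hR u hu s0 hs e he ν c hν a D bb' ha hD hbb κ d0 hκ hκ1 Q hQ hQA
  obtain ⟨hAQ, hgr, -⟩ := hQ
  have hf : Continuous (fo L u) := TG.CM.fo_cont hu
  have hfc : HasCompactSupport (fo L u) := TG.CM.fo_cs hu
  obtain ⟨C2, hC2, g2⟩ := h2 d hd1 M c0 ε R hε hε1 (by linarith) b hb
  obtain ⟨hD0, ⟨B1, hB1⟩, -⟩ := g2 E (fo L u) hf hfc s0 hs e he
  obtain ⟨g51, -, -, -, -⟩ := g5 E R (by linarith) (fo L u) hf hfc s0 hs e he ν c hν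
  have hb0 : ∀ Q, 0 ≤ bC R0 s0 (fo L u) e ν c Q := fun Q => (g51 Q).2.1
  obtain ⟨B2, hB2⟩ := FR4.bC_bdd h4 hd1 hε hε1 hb (R0 := R0) (by linarith) hf hfc hs
    (F := bC R0 s0 (fo L u) e ν c) hC5.le hB1 (fun Q => (g51 Q).2.2)
  have hbsh : bsh b ε R0 R s0 (fo L u) e ν c Q = sh bb' Q + sh D Q := by
    rw [hbb, hD]
    exact sh_add hb0 hD0 hB2 hB1 Q
  have hdsh : dsh b ε R s0 (fo L u) e Q = sh D Q := by rw [hD]; rfl
  have hβ : 0 ≤ sh bb' Q := by rw [hbb]; exact FR4.sh_nonneg hb0 Q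
  have hδ : 0 ≤ sh D Q := by rw [hD]; exact FR4.sh_nonneg hD0 Q
  have hQA' : sh bb' Q + sh D Q ≤ κ * a Q := hQA
  have hκF1 : κ ≤ κF := hκ1.trans (min_le_left _ _)
  have hκ11 : κ ≤ 1 := hκ1.trans (min_le_right _ _)
  obtain ⟨n, s, ab, hn, hsl, hab1, hab2, hblc, hSh⟩ := HF R hR u hu s0 hs e he ν c hν Q (a Q)
    hAQ (by rw [ha]) hgr (by
      rw [hbsh]
      exact hQA'.trans (mul_le_mul_of_nonneg_right hκF1 hAQ.le))
  rw [hbsh] at hblc
  rw [hbsh, hdsh] at hSh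
  have hab0 : 0 < ab := hSh.ab0
  obtain ⟨q1, q2, q3, q4, q5, q6⟩ := arith hCF hCM hκ hκ11 hAQ hβ hδ hQA' hab1 hab0
  have hsq0 := Real.sqrt_nonneg (a Q * sh D Q)
  have hCF3 := pow_pos hCF 3
  have hCFC : CF ≤ 1 + 4 * CF ^ 3 + 2 * CF + CM := by linarith
  refine ⟨n, s, ab, CF * (sh bb' Q + sh D Q + Real.sqrt (a Q * sh D Q)), CF * sh D Q, hn, hsl,
    hab0, ?_, ?_, hSh.ep0, mul_nonneg hCF.le hδ, ?_, ?_, q1, q2, q3, q4, q5, ?_⟩
  · exact hab1.trans (mul_le_mul_of_nonneg_right hCFC hab0.le)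
  · exact hab2.trans (mul_le_mul_of_nonneg_right hCFC hAQ.le)
  · exact WT.sheet_mono hSh hJ le_rfl hSh.loc le_rfl le_rfl
  · refine (le_max_right _ _).trans (hblc.trans ?_)
    exact mul_le_mul_of_nonneg_left (by linarith) hCF.le
  · intro hfar
    refine (HM E R (by linarith) (fo L u) hf hfc s0 hs e he.unit Q n s hn hfar hsl).trans ?_
    have h1 : dC b ε R s0 (fo L u) e Q ≤ sh D Q := by
      have h1 := FR4.le_sh hD0 hB1 Q 0
      rw [up_zero] at h1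
      have h2 : (2 : ℝ) ^ (((0 : ℕ) : ℝ) / 4) = 1 := by simp
      rw [h2, one_mul] at h1
      rw [hD]
      exact h1
    have h2 := mul_le_mul_of_nonneg_left h1 hCM.le
    have h3 : blc n s (mQ s0 (fo L u) (e Q) Q) (64 * R0) ≤ CF * (sh bb' Q + sh D Q) :=
      (le_max_right _ _).trans hblc
    linarith

end TG
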