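import Pool.Agent.TG.Stmts17
import Pool.Agent.TG.TFU

/-!
# Trace inequality, general operators: module LB (the interface inequality with the right error)

From FR4 with I depending on κ.
-/

open MeasureTheory Metric Set TrI
open scoped InnerProductSpace ContDiff ENNReal

namespace TG

noncomputable section

variable {d : ℕ}

namespace LB

lemma sh_nonneg {F : Cell d → ℝ} (h0 : ∀ Q, 0 ≤ F Q) (Q : Cell d) : 0 ≤ sh F Q :=
  tsum_nonneg fun _ => mul_nonneg (by positivity) (h0 _)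

/-- the weighted sums converge under moderate growth -/
lemma summable_of_growth {F : Cell d → ℝ} (h0 : ∀ Q, 0 ≤ F Q) (Q : Cell d) {B : ℝ}
    (hB : ∀ l : ℕ, F (up l Q) ≤ B * (2 : ℝ) ^ ((l : ℝ) / 8)) :
    Summable (fun i : ℕ => (2 : ℝ) ^ (-((i : ℝ) / 4)) * F (up i Q)) := by
  have h2 : (2 : ℝ) ^ (-(1 / 8 : ℝ)) < 1 := Real.rpow_lt_one_of_one_lt_of_neg (by norm_num)
    (by norm_num)
  have h3 : Summable (fun i : ℕ => ((2 : ℝ) ^ (-(1 / 8 : ℝ))) ^ i * B) :=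
    (summable_geometric_of_lt_one (by positivity) h2).mul_right B
  refine Summable.of_nonneg_of_le (fun i => mul_nonneg (by positivity) (h0 _)) (fun i => ?_) h3
  calc (2 : ℝ) ^ (-((i : ℝ) / 4)) * F (up i Q)
      ≤ (2 : ℝ) ^ (-((i : ℝ) / 4)) * (B * (2 : ℝ) ^ ((i : ℝ) / 8)) :=
        mul_le_mul_of_nonneg_left (hB i) (by positivity)
    _ = ((2 : ℝ) ^ (-((i : ℝ) / 4)) * (2 : ℝ) ^ ((i : ℝ) / 8)) * B := by ring
    _ = ((2 : ℝ) ^ (-(1 / 8 : ℝ))) ^ i * B := by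
        rw [← Real.rpow_add (by norm_num), ← Real.rpow_natCast, ← Real.rpow_mul (by norm_num)]
        congr 2
        ring

lemma sh_add_le {F G : Cell d → ℝ} (hF : ∀ Q, 0 ≤ F Q) (hG : ∀ Q, 0 ≤ G Q) (Q : Cell d)
    (hs : Summable (fun i : ℕ => (2 : ℝ) ^ (-((i : ℝ) / 4)) * G (up i Q))) :
    sh (fun P => F P + G P) Q ≤ sh F Q + sh G Q := by
  by_cases h : Summable (fun i : ℕ => (2 : ℝ) ^ (-((i : ℝ) / 4)) * F (up i Q))
  · unfold sh
    rw [← h.tsum_add hs]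
    exact le_of_eq (tsum_congr fun i => by ring)
  · have h1 : ¬ Summable (fun i : ℕ => (2 : ℝ) ^ (-((i : ℝ) / 4)) * (F (up i Q) + G (up i Q))) := by
      intro h'
      exact h ((h'.sub hs).congr fun i => by ring)
    have h2 : sh (fun P => F P + G P) Q = 0 := tsum_eq_zero_of_not_summable h1
    rw [h2]
    exact add_nonneg (sh_nonneg hF Q) (sh_nonneg hG Q)

lemma sqrt_le' {a D κ : ℝ} (ha : 0 ≤ a) (hD : 0 ≤ D) (hκ : 0 < κ) :
    Real.sqrt (a * D) ≤ κ * a / 2 + D / (2 * κ) := by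
  rw [Real.sqrt_le_left (by positivity)]
  have h1 : (κ * a / 2 + D / (2 * κ)) ^ 2 - a * D = (κ * a / 2 - D / (2 * κ)) ^ 2 := by
    field_simp
    ring
  nlinarith [sq_nonneg (κ * a / 2 - D / (2 * κ))]

lemma q_pow (I : ℕ) : (2 : ℝ) ^ ((3 / 5 : ℝ) * I) = ((2 : ℝ) ^ (3 / 5 : ℝ)) ^ I := by
  rw [← Real.rpow_natCast, ← Real.rpow_mul (by norm_num)]

lemma one_lt_q : 1 < (2 : ℝ) ^ (3 / 5 : ℝ) := Real.one_lt_rpow (by norm_num) (by norm_num)

lemma q_le_two : (2 : ℝ) ^ (3 / 5 : ℝ) ≤ 2 := by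
  calc (2 : ℝ) ^ (3 / 5 : ℝ) ≤ (2 : ℝ) ^ (1 : ℝ) :=
        Real.rpow_le_rpow_of_exponent_le (by norm_num) (by norm_num)
    _ = 2 := Real.rpow_one 2

lemma exists_I {κ κF : ℝ} (hκ : 0 < κ) (h : κ ≤ κF) :
    ∃ I : ℕ, (2 : ℝ) ^ ((3 / 5 : ℝ) * I) * κ ≤ κF ∧ κF ≤ 2 * κ * (2 : ℝ) ^ ((3 / 5 : ℝ) * I) := by
  have hex : ∃ n : ℕ, κF < ((2 : ℝ) ^ (3 / 5 : ℝ)) ^ n * κ := by
    obtain ⟨n, hn⟩ := pow_unbounded_of_one_lt (κF / κ) one_lt_q
    exact ⟨n, by rwa [div_lt_iff₀ hκ] at hn⟩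
  classical
  have h1 := Nat.find_spec hex
  have h0 : Nat.find hex ≠ 0 := by
    intro h0
    rw [h0, pow_zero, one_mul] at h1
    exact absurd h (not_le.2 h1)
  obtain ⟨I, hI⟩ := Nat.exists_eq_succ_of_ne_zero h0
  refine ⟨I, ?_, ?_⟩
  · have h2 := Nat.find_min hex (m := I) (by omega)
    rw [q_pow]
    exact not_lt.1 h2
  · rw [hI, pow_succ] at h1
    rw [q_pow]
    have h3 : 0 < ((2 : ℝ) ^ (3 / 5 : ℝ)) ^ I := by positivity
    have h4 := mul_le_mul_of_nonneg_left q_le_two (mul_nonneg h3.le hκ.le)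
    nlinarith [h4, h1]

end LB

open LB in
/-- MODULE LB -/
theorem stmtLB (hFR4 : StmtFR4) : StmtLB := by
  intro d V E _ _ _ _ _ _ _ L hd hL
  obtain ⟨J0, hJ0⟩ := hFR4 d V E L hd hL
  refine ⟨J0, fun J hJ M c0 ε hε hε1 b hb R0 γ K hR0 hγ hγ1 hK => ?_⟩
  obtain ⟨CF, κF, hCF, hκF, hF⟩ := hJ0 J hJ M c0 ε hε hε1 b hb R0 γ K hR0 hγ hγ1 hK
  have hdR : (2 : ℝ) ≤ d := by exact_mod_cast hd
  have hγ2 : γ ≤ 2 / 5 := by
    refine hγ1.trans ?_
    rw [div_le_div_iff₀ (by positivity) (by norm_num)]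
    linarith
  refine ⟨CF * (2 + 2 / κF) + 1, min 1 κF, ?_, by positivity, min_le_left _ _, ?_⟩
  · have : 0 ≤ CF * (2 + 2 / κF) := by positivity
    linarith
  intro κm hκm
  obtain ⟨n0, hn0⟩ := pow_unbounded_of_one_lt (κF / κm) one_lt_q
  refine ⟨2 ^ n0, one_le_pow₀ (by norm_num), fun RN hRN => ?_⟩
  have hI : ∀ I : Fin (n0 + 1), (2 : ℝ) ^ (I : ℕ) ≤ RN := fun I =>
    (pow_le_pow_right₀ (by norm_num) (Nat.lt_succ_iff.1 I.2)).trans hRN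
  choose RmF C1F hC1F hmain using fun I : Fin (n0 + 1) => hF (I : ℕ) RN (hI I)
  have hC1s : 0 ≤ ∑ I, C1F I := Finset.sum_nonneg fun I _ => (hC1F I).le
  refine ⟨∑ I, |RmF I|, CF + CF / (2 * κm) + ∑ I, C1F I, by positivity, ?_⟩
  intro R hR u hu s0 hs0 e he ν c hν a D bb' ha hD hbb κ d0 hκ hκ1 Q hQ hQA n s ab er dl
    her hdl hab1 hab2 hs hSh hblc
  obtain ⟨haQ, hmT, hDg⟩ := hQ
  have hκ0 : 0 < κ := lt_of_lt_of_le hκm hκ
  have hκF1 : κ ≤ κF := hκ1.trans (min_le_right _ _)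
  have hQA' : sh bb' Q + sh D Q ≤ κ * a Q := hQA
  have hD0 : ∀ P, 0 ≤ D P := by
    intro P
    rw [hD]
    exact TU.DD_nonneg b ε R hs0 _ _ _ (he.unit P)
  have hb0 : ∀ P, 0 ≤ bb' P := by
    intro P
    rw [hbb]
    exact le_max_left _ _
  have hsD := sh_nonneg hD0 Q
  have hsb := sh_nonneg hb0 Q
  have hsumD : Summable (fun i : ℕ => (2 : ℝ) ^ (-((i : ℝ) / 4)) * D (up i Q)) :=
    summable_of_growth hD0 Q (B := d0 * a Q) (fun l => (hDg l).trans (le_of_eq (by ring)))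
  have hbsh : bsh b ε R0 R s0 (fo L u) e ν c Q ≤ sh bb' Q + sh D Q := by
    have h1 := sh_add_le hb0 hD0 Q hsumD
    rw [hbb, hD] at h1 ⊢
    exact h1
  have hdsh : dsh b ε R s0 (fo L u) e Q = sh D Q := by rw [hD]; rfl
  obtain ⟨I, hI1, hI2⟩ := exists_I hκ0 hκF1
  have hIn : I < n0 + 1 := by
    have h1 : ((2 : ℝ) ^ (3 / 5 : ℝ)) ^ I < ((2 : ℝ) ^ (3 / 5 : ℝ)) ^ n0 := by
      refine lt_of_le_of_lt ?_ hn0
      rw [le_div_iff₀ hκm, ← q_pow]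
      exact (mul_le_mul_of_nonneg_left hκ (by positivity)).trans hI1
    have h2 := (pow_lt_pow_iff_right₀ one_lt_q).1 h1
    omega
  have hRmI : RmF ⟨I, hIn⟩ ≤ R :=
    (le_abs_self _).trans ((Finset.single_le_sum (f := fun I => |RmF I|)
      (fun i _ => abs_nonneg _) (Finset.mem_univ (⟨I, hIn⟩ : Fin (n0 + 1)))).trans hR)
  have hC1I : C1F ⟨I, hIn⟩ ≤ ∑ I, C1F I :=
    Finset.single_le_sum (f := C1F) (fun i _ => (hC1F i).le)
      (Finset.mem_univ (⟨I, hIn⟩ : Fin (n0 + 1)))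
  have hbshI : (2 : ℝ) ^ ((3 / 5 : ℝ) * I) * bsh b ε R0 R s0 (fo L u) e ν c Q ≤ κF * a Q := by
    calc (2 : ℝ) ^ ((3 / 5 : ℝ) * I) * bsh b ε R0 R s0 (fo L u) e ν c Q
        ≤ (2 : ℝ) ^ ((3 / 5 : ℝ) * I) * (κ * a Q) :=
          mul_le_mul_of_nonneg_left (hbsh.trans hQA') (by positivity)
      _ = ((2 : ℝ) ^ ((3 / 5 : ℝ) * I) * κ) * a Q := by ring
      _ ≤ κF * a Q := mul_le_mul_of_nonneg_right hI1 haQ.le
  have hpow : (2 : ℝ) ^ (-(I : ℝ) * (1 - γ)) ≤ 2 * κ / κF := by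
    have h1 : (2 : ℝ) ^ (-(I : ℝ) * (1 - γ)) ≤ (2 : ℝ) ^ (-((3 / 5 : ℝ) * I)) := by
      refine Real.rpow_le_rpow_of_exponent_le (by norm_num) ?_
      have hI0 : (0 : ℝ) ≤ I := Nat.cast_nonneg I
      nlinarith
    refine h1.trans ?_
    rw [Real.rpow_neg (by norm_num), inv_eq_one_div, div_le_div_iff₀ (by positivity) hκF]
    linarith
  have hsq := sqrt_le' haQ.le hsD hκ0
  refine ⟨CF * ((sh bb' Q + sh D Q) + (κ * a Q / 2 + sh D Q / (2 * κ)) + er + er + dl) +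
    CF * (2 * κ / κF) * a Q + (∑ I, C1F I) * sh D Q, ?_, ?_, ?_⟩
  · have := haQ.le
    positivity
  · have h1 : sh D Q / (2 * κ) ≤ sh D Q / (2 * κm) :=
      div_le_div_of_nonneg_left hsD (by positivity) (by linarith)
    have h2 := mul_le_mul_of_nonneg_left h1 hCF.le
    have h3 : CF * (2 * κ / κF) * a Q = CF * (2 / κF) * (κ * a Q) := by ring
    have h4 : CF / (2 * κm) * sh D Q = CF * (sh D Q / (2 * κm)) := by ring
    have h5 : 0 ≤ CF * (2 / κF) := by positivity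
    have h6 : 0 ≤ κ * a Q := mul_nonneg hκ0.le haQ.le
    have h7 : 0 ≤ CF * (2 / κF) * sh bb' Q := mul_nonneg h5 hsb
    have h8 : 0 ≤ CF * (2 / κF) * er := mul_nonneg h5 her
    have h9 : 0 ≤ CF * (2 / κF) * dl := mul_nonneg h5 hdl
    have h10 : 0 ≤ CF * (κ * a Q) := mul_nonneg hCF.le h6
    have h11 : 0 ≤ CF * sh bb' Q := mul_nonneg hCF.le hsb
    have h12 : 0 ≤ CF * dl := mul_nonneg hCF.le hdl
    rw [h3]
    nlinarith
  · intro Y N hY hY0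
    have hi : Fin d := ⟨0, by omega⟩
    have hN : 0 ≤ N := TU.TFn_nonneg (hY hi hi)
    have h1 := hmain ⟨I, hIn⟩ R hRmI u hu s0 hs0 e he ν c hν Q (a Q) haQ (by rw [ha]) hmT hbshI
      n s ab er dl hdl hab1 hab2 hs hSh Y N hY hY0
    refine h1.trans ?_
    rw [hdsh]
    have h2 : max 0 (blc n s (mQ s0 (fo L u) (e Q) Q) (64 * R0)) ≤ er := max_le her hblc
    have hCN : 0 ≤ CF * N := mul_nonneg hCF.le hN
    have h3 : CF * N * (bsh b ε R0 R s0 (fo L u) e ν c Q + Real.sqrt (a Q * sh D Q) + er +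
        max 0 (blc n s (mQ s0 (fo L u) (e Q) Q) (64 * R0)) + dl) ≤
        CF * N * ((sh bb' Q + sh D Q) + (κ * a Q / 2 + sh D Q / (2 * κ)) + er + er + dl) :=
      mul_le_mul_of_nonneg_left (by linarith) hCN
    have h4 := mul_le_mul_of_nonneg_right (mul_le_mul_of_nonneg_left hpow hCN) haQ.le
    have h5 := mul_le_mul_of_nonneg_right (mul_le_mul_of_nonneg_right hC1I hN) hsD
    have h6 := add_le_add (add_le_add h3 h4) h5
    refine h6.trans (le_of_eq ?_)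
    ring

end

end TG
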