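import Pool.Agent.TG.Stmts17

/-!
# Module LN: structure and growth of the mass in the frame of a structured cell  (helper76)
-/

set_option linter.unusedSectionVars false

open MeasureTheory Metric Set TrI
open scoped InnerProductSpace ContDiff ENNReal

namespace TG

noncomputable section

namespace LNm

variable {d : ℕ}

/-- monotonicity of the growth bound in the constant and in the radius -/
lemma MG_mono {K K' γ R R' a D : ℝ} {m : Sp d → ℝ} (h : MG K γ R a D m) (hK : K ≤ K')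
    (hR : R' ≤ R) (ha : 0 ≤ a) : MG K' γ R' a D m := by
  intro ρ h1 h2 ζ hζ hb hb2 h0
  refine (h ρ h1 (h2.trans hR) ζ hζ hb hb2 h0).trans ?_
  have hρ : 0 ≤ ρ ^ ((d : ℝ) - 1 + γ) := Real.rpow_nonneg (by linarith) _
  have h3 : K * ρ ^ ((d : ℝ) - 1 + γ) * a ≤ K' * ρ ^ ((d : ℝ) - 1 + γ) * a :=
    mul_le_mul_of_nonneg_right (mul_le_mul_of_nonneg_right hK hρ) ha
  linarith

end LNm

open LNm

theorem stmtLN (hFR1 : StmtFR1) (hCT8 : StmtCT8) : StmtLN := by
  intro d V E _ _ _ _ _ _ _ L hd hL M c0 ε hε hε1 b hb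
  have hd2 : (2 : ℝ) ≤ (d : ℝ) := by exact_mod_cast hd
  obtain ⟨C, hC, hC8⟩ := hCT8 d (by omega) M c0 ε hε hε1 b hb
  refine ⟨max C 1, le_max_right _ _, ?_⟩
  intro R0 γ K hR0 hγ hγ1 hK Rs RM tol hRs htol
  have hγ2 : γ ≤ 1 := hγ1.trans (by
    rw [div_le_one (by positivity)]
    linarith)
  obtain ⟨rm, R1, δ, hR1, hδ, H⟩ := hFR1 d V E L hd hL M c0 ε hε hε1 b hb γ K Rs tol hγ hγ1 hK
    hRs htol
  obtain ⟨l, hl⟩ := pow_unbounded_of_one_lt RM (by norm_num : (1 : ℝ) < 2)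
  obtain ⟨C1, hC1, HC⟩ := hC8 l
  refine ⟨rm, l + 2, R1, min δ 1, C1, lt_min hδ one_pos, min_le_right _ _, hC1,
    max (2 * R1 + 2 * d + 20) (max (2 * (d : ℝ) + 10) (2 ^ l + 3)), ?_⟩
  intro R hR u hu s0 hs0 e he Q hQ
  have hRa : 2 * R1 + 2 * d + 20 ≤ R := (le_max_left _ _).trans hR
  have hRb : 2 * (d : ℝ) + 10 ≤ R := ((le_max_left _ _).trans (le_max_right _ _)).trans hR
  have hRc : (2 : ℝ) ^ l + 3 ≤ R := ((le_max_right _ _).trans (le_max_right _ _)).trans hR
  have hfc : Continuous (fo L u) := by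
    have h := hu.smooth.continuous_fderiv (by simp)
    exact L.continuous.comp h
  have hfs : HasCompactSupport (fo L u) := (hu.supp.fderiv ℝ).comp_left (g := L) (map_zero L)
  obtain ⟨ha, hT, hD⟩ := hQ
  constructor
  · refine H R hRa u hu s0 hs0 e he Q _ ha.le hT ?_
    intro i
    refine (hD i).trans ?_
    exact mul_le_mul_of_nonneg_right
      (mul_le_mul_of_nonneg_right (min_le_left _ _) (by positivity)) ha.le
  · have h := (HC E R hRb hRc (fo L u) hfc hfs s0 hs0 e he).2.2.1 Q K γ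
      (mC b ε (64 * R0) s0 (fo L u) Q) (by linarith) hγ.le hγ2 ha.le (fun i _ => hT i)
    exact MG_mono h (mul_le_mul_of_nonneg_right (le_max_left _ _) (by linarith)) hl.le ha.le

end

end TG
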