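import Pool.Agent.TG.StmtsFin
import Pool.Agent.TG.CT1

/-!
# Trace inequality, general operators: the masses of one level are payable   (helper32)

No double quotes.
-/

open MeasureTheory Metric Set TrI
open scoped InnerProductSpace ContDiff ENNReal

namespace TG

noncomputable section

open CT1 in
theorem stmtLS : StmtLS := by
  intro d hd M c0 ε r hε hε1 hr b hbK
  have hb : AK b := hbK.ak
  refine ⟨(2 * r + 1) ^ d, by positivity, ?_⟩
  intro E _ _ _ f hf hc s0 hs i
  have hI : ∫ y, ‖fl b ε s0 f (i - 1) y‖ ≤ ∫ y, ‖f y‖ := by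
    have h1 := sum_gm hb ε s0 hf hc (i - 1)
    have h2 : 0 ≤ ∑ j ∈ Finset.range (i - 1), ∫ y, gm b ε s0 f j y :=
      Finset.sum_nonneg fun j _ => int_gm_nonneg hb ε s0 f j
    linarith
  have hlev : ∀ S : Finset (Fin d → ℤ), ∑ p ∈ S, cw s0 ((i, p) : Cell d) *
      mC b ε r s0 f ((i, p) : Cell d) ≤ (2 * r + 1) ^ d * ∫ y, ‖f y‖ := by
    intro S
    have h1 : ∑ p ∈ S, cw s0 ((i, p) : Cell d) * mC b ε r s0 f ((i, p) : Cell d) =
        ∑ p ∈ S, ∫ y in ball (lev s0 i • lat p) (r * lev s0 i), ‖fl b ε s0 f (i - 1) y‖ :=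
      Finset.sum_congr rfl fun p _ => cw_mC hd hs f (i, p)
    rw [h1]
    refine (PK.overlap (lev s0 i) r (lev_pos hs i) hr S
      ((fl_cont hb ε s0 hf (i - 1)).norm.integrable_of_hasCompactSupport
        (fl_cs hb ε s0 hc (i - 1)).norm) fun y => norm_nonneg _).trans ?_
    exact mul_le_mul_of_nonneg_left hI (by positivity)
  have h0 : ∀ Q : Cell d, 0 ≤ cw s0 Q * mC b ε r s0 f Q := fun Q =>
    mul_nonneg (cw_nonneg hs Q) (mC_nonneg hs f Q)
  unfold cs
  have h00 : ∑' Q : Cell d, {Q : Cell d | Q.1 = i}.indicator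
      (fun Q => ENNReal.ofReal (cw s0 Q * mC b ε r s0 f Q)) Q =
      ∑' (k : ℕ) (p : Fin d → ℤ), {Q : Cell d | Q.1 = i}.indicator
      (fun Q => ENNReal.ofReal (cw s0 Q * mC b ε r s0 f Q)) ((k, p) : Cell d) :=
    ENNReal.tsum_prod (f := fun k p => {Q : Cell d | Q.1 = i}.indicator
      (fun Q => ENNReal.ofReal (cw s0 Q * mC b ε r s0 f Q)) ((k, p) : Cell d))
  rw [h00, tsum_eq_single i]
  · have h1 : ∀ p : Fin d → ℤ, {Q : Cell d | Q.1 = i}.indicator
        (fun Q => ENNReal.ofReal (cw s0 Q * mC b ε r s0 f Q)) ((i, p) : Cell d) =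
        ENNReal.ofReal (cw s0 ((i, p) : Cell d) * mC b ε r s0 f ((i, p) : Cell d)) := by
      intro p
      rw [indicator_of_mem]
      simp
    rw [tsum_congr h1, ENNReal.tsum_eq_iSup_sum]
    refine iSup_le fun S => ?_
    rw [← ENNReal.ofReal_sum_of_nonneg fun p _ => h0 (i, p)]
    exact ENNReal.ofReal_le_ofReal (hlev S)
  · intro k hk
    rw [ENNReal.tsum_eq_zero]
    intro p
    rw [indicator_of_notMem]
    simpa using hk

end

end TG
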