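import Pool.Agent.TG.Stmts16

/-!
# Trace inequality, general operators: the construction of the world  (helper98)

StmtWD (the world exists) and StmtWF (finiteness of the sum of the values) are the two analytic
inputs of StmtLW; the rest is the case analysis with W1, ..., WB6.  No double quotes.
-/

open MeasureTheory Metric Set TrI
open scoped InnerProductSpace ContDiff ENNReal

namespace TG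

noncomputable section

variable {d : ℕ}

/-- the good world: St, TA are the structured cells and the cells of type A; ah = mass 32 R0;
bf, df = sh b, sh D; EI = errors of the interface inequality -/
structure GoodW {E : Type} [NormedAddCommGroup E] [InnerProductSpace ℝ E] (J JA : ℕ)
    (C' R0 Rz : ℝ) (X : Prm d) (Cr Kc K' γ κW CK κ Cs R1 Rs RM : ℝ) (rm : ℕ) (tol : ℕ → ℝ)
    (St TA : Set (Cell d)) (ah bf df : Cell d → ℝ) (EI : Cell d → ℝ) (W : Wld d E) : Prop where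
  ok : WOK JA C' R0 Rz X W
  kd0 : ∀ Q, W.kd Q = 0 ↔ Q ∈ St ∧ Q ∈ TA
  kd1 : ∀ Q, W.kd Q = 1 ↔ Q ∈ St ∧ Q ∉ TA
  a_pos : ∀ Q ∈ St, 0 < W.a Q
  a0 : ∀ Q, 0 ≤ W.a Q
  str : ∀ Q ∈ St, WNw K' γ R1 Rs RM rm tol W Q
  she : ∀ Q ∈ St, Q ∈ TA → WSh J R0 κW W Q
  EI0 : ∀ Q, 0 ≤ EI Q
  ifc : ∀ Q ∈ St, Q ∈ TA → WIf J W Q (EI Q)
  ab_le : ∀ Q ∈ St, Q ∈ TA → W.ab Q ≤ Kc * W.a Q
  ab_cmp : ∀ Q ∈ St, Q ∈ TA → ∀ Q' ∈ St, Q' ∈ TA → W.a Q' ≤ Cr * W.a Q → W.ab Q' ≤ Kc * W.ab Q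
  sv_le : ∀ Q ∈ St, Q ∈ TA → W.a Q ≤ Cr * ah Q → |W.sv Q| ≤ 32 * R0 + 4
  E1_le : ∀ Q ∈ St, Q ∈ TA → W.er Q + W.dl Q + EI Q ≤ CK * (bf Q + κ * W.a Q) + Cs * df Q
  E2_le : ∀ Q ∈ St, Q ∈ TA → W.er Q ^ 2 / W.ab Q + W.dl Q ≤ CK * (κ * bf Q + df Q)

/-- MODULE WD: the world exists -/
def StmtWD : Prop :=
  ∀ (d : ℕ) (V E : Type) [NormedAddCommGroup V] [InnerProductSpace ℝ V] [FiniteDimensional ℝ V]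
    [NormedAddCommGroup E] [InnerProductSpace ℝ E] [FiniteDimensional ℝ E] [Nontrivial E]
    (L : (Sp d →L[ℝ] V) →L[ℝ] E), 2 ≤ d → CEll L → ∃ J : ℕ, 4 ≤ J ∧
    ∀ (M c0 : ℝ) (b : Sp d → ℝ), BaseKer (J + 14) M c0 b →
    ∀ (C' ε p0 A : ℝ), 0 < C' → 0 < ε → ε ≤ 1 / 4 →
    ∀ (JA : ℕ) (γ R0 : ℝ), 0 < γ → γ ≤ 1 / (32 * d) → 8 * d + 400 ≤ R0 →
    ∀ (K Cr : ℝ), 1 ≤ K → 1 ≤ Cr →
    ∃ (Kc K' : ℝ), 1 ≤ Kc ∧ 1 ≤ K' ∧ ∀ κW : ℝ, 0 < κW →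
    ∃ (CK κ0 : ℝ), 0 < CK ∧ 0 < κ0 ∧ ∀ κm : ℝ, 0 < κm →
    ∃ RN1 : ℝ, 1 ≤ RN1 ∧ ∀ RN : ℝ, RN1 ≤ RN →
    ∀ (Rs RM : ℝ) (tol : ℕ → ℝ), 1 ≤ Rs → (∀ J, 0 < tol J) → ∃ (R1 : ℝ) (rm : ℕ), ∀ Rz : ℝ,
    ∃ (Rm d0 CD Cs : ℝ) (r0 : ℕ), 0 < d0 ∧ d0 ≤ 1 ∧ 0 < CD ∧ 0 < Cs ∧ 10 ≤ r0 ∧
    ∀ R : ℝ, Rm ≤ R → ∀ u : Sp d → V, TF u → ∀ μ : Measure (Sp d), Gro C' μ →
    ∀ s0 : ℝ, 0 < s0 → ∀ e : Cell d → E, Dirs b ε R s0 (fo L u) e →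
    ∀ (ν : Cell d → Sp d) (c : Cell d → ℝ), Plns R0 s0 (fo L u) e ν c →
    ∀ κ : ℝ, κm ≤ κ → κ ≤ κ0 →
    ∃ (W : Wld d E) (EI : Cell d → ℝ),
      W.X = (⟨b, RN, ε, p0, A⟩ : Prm d) ∧ W.s0 = s0 ∧ W.μ = μ ∧ W.f = fo L u ∧ W.e = e ∧
      W.a = mC b ε (64 * R0) s0 (fo L u) ∧
      (∀ Q, W.D Q = CD * dsm r0 (dC b ε R s0 (fo L u) e) Q) ∧
      GoodW J JA C' R0 Rz (⟨b, RN, ε, p0, A⟩ : Prm d) Cr Kc K' γ κW CK κ Cs R1 Rs RM rm tol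
        (Strc γ K d0 (mC b ε (64 * R0) s0 (fo L u)) (mT b ε s0 (fo L u))
          (dC b ε R s0 (fo L u) e))
        (TyA κ (mC b ε (64 * R0) s0 (fo L u)) (dC b ε R s0 (fo L u) e)
          (bC R0 s0 (fo L u) e ν c))
        (mC b ε (32 * R0) s0 (fo L u)) (sh (bC R0 s0 (fo L u) e ν c))
        (sh (dC b ε R s0 (fo L u) e)) EI W

/-- MODULE WF: the sum of the values is finite -/
def StmtWF : Prop :=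
  ∀ (d : ℕ), 2 ≤ d → ∀ (M c0 C' R B : ℝ), 0 < C' → 1 ≤ R → ∀ X : Prm d, PrmOK M c0 X →
    ∀ (E : Type) [NormedAddCommGroup E] [InnerProductSpace ℝ E] [FiniteDimensional ℝ E]
      (W : Wld d E), W.X = X → 0 < W.s0 → Gro C' W.μ → Continuous W.f → HasCompactSupport W.f →
      (∀ Q, ‖W.e Q‖ = 1) → (∀ Q, ‖W.nv Q‖ = 1) → (∀ Q, 0 ≤ W.ab Q) →
      (∀ Q, W.kd Q = 0 → 0 < mC X.b X.ε R W.s0 W.f Q ∧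
        W.ab Q ≤ B * mC X.b X.ε R W.s0 W.f Q ∧ |W.sv Q| ≤ B) →
      cs univ (fun Q => cw W.s0 Q * W.val Q) < ⊤

end

end TG
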