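import Pool.Agent.TG.W2c

/-!
# Module W2, tools, part 4: the cases A1 and A2 (helper60)
-/

open MeasureTheory Metric Set TrI
open scoped InnerProductSpace ContDiff ENNReal

set_option linter.unusedSectionVars false

namespace TG

noncomputable section

namespace W2m

variable {d : ℕ}

/-! ## Numbers -/

/-- the refined bound of a flux -/
lemma fl_small {C C1 K1 Kc κ θ Kb ab ab' er er' dl dl' D D' v X b δ : ℝ}
    (hC : 0 < C) (hC1 : 0 < C1) (hK1 : 0 < K1) (hKc : 1 ≤ Kc) (hκ : 0 ≤ κ) (hκ1 : κ ≤ 1)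
    (hθ : 0 < θ) (hKb : 0 ≤ Kb) (hab : 0 < ab) (hab' : 0 < ab')
    (her : 0 ≤ er) (hdl : 0 ≤ dl) (hdl' : 0 ≤ dl') (hD : 0 ≤ D)
    (hD' : 0 ≤ D') (hv : 0 ≤ v) (hX : 0 ≤ X) (hb : 0 ≤ b) (hδ0 : 0 ≤ δ) (hδ1 : δ ≤ 1)
    (ser : er ≤ κ * ab) (ser' : er' ≤ κ * ab') (sdl : dl ≤ κ * ab) (sdl' : dl' ≤ κ * ab')
    (hK : ab' ≤ Kc * ab) (hκθ : K1 * (κ * (2 + 2 * Kc)) ≤ θ / C / 2)
    (ht : ab * δ ≤ K1 * (er + er' + dl + dl' + D + D')) (hb1 : b ≤ er + Kb * D) :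
    C * (er + ab * δ) * Real.sqrt (v * X) + C * (er * δ + ab * δ ^ 2) * v
        + C * δ * v * b + C1 * v * (dl + 3 * D) ≤
      θ * (ab * X) + θ * (v * b) +
        (2 * C ^ 2 / θ * (1 + (1 + 6 * K1 ^ 2 * Kc)) + C * (1 + 2 * (1 + 6 * K1 ^ 2 * Kc)) +
          C * (Kb + 2 * K1 / (θ / C)) + 3 * C1) *
        (v * (er ^ 2 / ab + er' ^ 2 / ab' + dl + dl' + D + D')) := by
  have q1 : 0 ≤ er ^ 2 / ab := by positivity
  have q2 : 0 ≤ er' ^ 2 / ab' := by positivity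
  set T := er ^ 2 / ab + er' ^ 2 / ab' + dl + dl' + D + D' with hT
  have hT0 : 0 ≤ T := by positivity
  set K2 := 1 + 6 * K1 ^ 2 * Kc with hK2
  have hK20 : 0 ≤ K2 := by positivity
  have hts : ab * δ ^ 2 ≤ K2 * T := tilt_sq hab hab' hdl hdl' hD hD' hκ1 hKc hK1 sdl sdl' hK hδ0
    hδ1 ht
  have hsm := tilt_small (K := Kb) hab hD hD' hκ hK1 (div_pos hθ hC) hκθ ser ser' sdl sdl' hK hδ1
    ht hb hKb hb1
  have y1 := young hC.le her hX hv hab (half_pos hθ)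
  have y2 := young (e := ab * δ) hC.le (by positivity) hX hv hab (half_pos hθ)
  have e1 : (ab * δ) ^ 2 / ab = ab * δ ^ 2 := by field_simp
  rw [e1] at y2
  have e2 : C ^ 2 / (θ / 2) = 2 * C ^ 2 / θ := by field_simp
  rw [e2] at y1 y2
  have f1 : er ^ 2 / ab ≤ T := by rw [hT]; linarith
  have f2 : D + D' ≤ T := by rw [hT]; linarith
  have f3 : dl + 3 * D ≤ 3 * T := by rw [hT]; linarith
  have g1 : 2 * C ^ 2 / θ * (v * (er ^ 2 / ab)) ≤ 2 * C ^ 2 / θ * (v * T) := by gcongr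
  have g2 : 2 * C ^ 2 / θ * (v * (ab * δ ^ 2)) ≤ 2 * C ^ 2 / θ * (v * (K2 * T)) := by gcongr
  have g3 : er * δ ≤ er ^ 2 / ab + ab * δ ^ 2 := by
    have : er ^ 2 / ab + ab * δ ^ 2 - er * δ = ((er - ab * δ) ^ 2 + er * (ab * δ)) / ab := by
      field_simp
      ring
    rw [← sub_nonneg, this]
    positivity
  have g4 : C * (er * δ + ab * δ ^ 2) * v ≤ C * (1 + 2 * K2) * (v * T) := by
    have : er * δ + ab * δ ^ 2 ≤ (1 + 2 * K2) * T := by linarith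
    calc C * (er * δ + ab * δ ^ 2) * v ≤ C * ((1 + 2 * K2) * T) * v := by gcongr
      _ = _ := by ring
  have g5 : C * δ * v * b ≤ θ * (v * b) + C * (Kb + 2 * K1 / (θ / C)) * (v * T) := by
    have h1 : δ * b ≤ θ / C * b + (Kb + 2 * K1 / (θ / C)) * T := by
      refine hsm.trans ?_
      have h2 : (Kb + 2 * K1 * κ / (θ / C)) * (D + D') ≤ (Kb + 2 * K1 / (θ / C)) * T := by
        have h3 : 2 * K1 * κ / (θ / C) ≤ 2 * K1 / (θ / C) := by
          refine div_le_div_of_nonneg_right ?_ (by positivity)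
          nlinarith
        have h4 : 0 ≤ 2 * K1 / (θ / C) := by positivity
        calc (Kb + 2 * K1 * κ / (θ / C)) * (D + D') ≤ (Kb + 2 * K1 / (θ / C)) * (D + D') := by
              refine mul_le_mul_of_nonneg_right (by linarith) (by linarith)
          _ ≤ _ := mul_le_mul_of_nonneg_left f2 (by linarith)
      linarith
    calc C * δ * v * b = C * v * (δ * b) := by ring
      _ ≤ C * v * (θ / C * b + (Kb + 2 * K1 / (θ / C)) * T) :=
          mul_le_mul_of_nonneg_left h1 (by positivity)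
      _ = _ := by field_simp
  have g6 : C1 * v * (dl + 3 * D) ≤ 3 * C1 * (v * T) := by
    calc C1 * v * (dl + 3 * D) ≤ C1 * v * (3 * T) := mul_le_mul_of_nonneg_left f3 (by positivity)
      _ = _ := by ring
  have g7 : C * (er + ab * δ) * Real.sqrt (v * X) =
      C * er * Real.sqrt (v * X) + C * (ab * δ) * Real.sqrt (v * X) := by ring
  rw [g7]
  have : (2 * C ^ 2 / θ * (1 + K2) + C * (1 + 2 * K2) + C * (Kb + 2 * K1 / (θ / C)) + 3 * C1) *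
      (v * T) = 2 * C ^ 2 / θ * (v * T) + 2 * C ^ 2 / θ * (v * (K2 * T)) + C * (1 + 2 * K2) * (v * T)
        + C * (Kb + 2 * K1 / (θ / C)) * (v * T) + 3 * C1 * (v * T) := by ring
  rw [this]
  linarith

/-- the crude bound of a flux -/
lemma fl_crude {C C1 K1 Kc κ S Kb ab ab' er er' dl dl' D D' v X b δ : ℝ}
    (hC : 0 < C) (hC1 : 0 < C1) (hK1 : 0 < K1) (hκ : 0 ≤ κ)
    (hKb : 0 ≤ Kb) (hab : 0 < ab) (hS : 0 ≤ S) (her : 0 ≤ er) (hD' : 0 ≤ D') (hv : 0 ≤ v) (hX : X ≤ S ^ 2 * v) (hb : 0 ≤ b) (hδ0 : 0 ≤ δ) (hδ1 : δ ≤ 1)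
    (ser : er ≤ κ * ab) (ser' : er' ≤ κ * ab') (sdl : dl ≤ κ * ab) (sdl' : dl' ≤ κ * ab')
    (hK : ab' ≤ Kc * ab)
    (ht : ab * δ ≤ K1 * (er + er' + dl + dl' + D + D')) (hb1 : b ≤ er + Kb * D) :
    C * (er + ab * δ) * Real.sqrt (v * X) + C * (er * δ + ab * δ ^ 2) * v
        + C * δ * v * b + C1 * v * (dl + 3 * D) ≤
      v * (κ * (C * (S + 1) * (1 + K1 * (2 + 2 * Kc)) + C + C1) * ab) +
        v * ((C * (S + 1) * K1 + C * Kb + 3 * C1) * (D + D')) := by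
  have h1 : Real.sqrt (v * X) ≤ S * v := by
    rw [Real.sqrt_le_left (by positivity)]
    nlinarith
  have htc := tilt_crude hκ hK1 ser ser' sdl sdl' hK ht
  have h2 : er + ab * δ ≤ κ * (1 + K1 * (2 + 2 * Kc)) * ab + K1 * (D + D') := by linarith
  have hab0 : 0 ≤ ab * δ := by positivity
  have h3 : C * (er + ab * δ) * Real.sqrt (v * X) ≤ C * (er + ab * δ) * (S * v) :=
    mul_le_mul_of_nonneg_left h1 (by positivity)
  have h4 : C * (er * δ + ab * δ ^ 2) * v ≤ C * (er + ab * δ) * v := by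
    have : er * δ + ab * δ ^ 2 ≤ er + ab * δ := by nlinarith
    gcongr
  have h5 : C * δ * v * b ≤ C * v * (κ * ab + Kb * (D + D')) := by
    have : δ * b ≤ κ * ab + Kb * (D + D') := by
      have e1 : δ * b ≤ 1 * b := mul_le_mul_of_nonneg_right hδ1 hb
      have e2 : Kb * D ≤ Kb * (D + D') := mul_le_mul_of_nonneg_left (by linarith) hKb
      linarith
    calc C * δ * v * b = C * v * (δ * b) := by ring
      _ ≤ _ := mul_le_mul_of_nonneg_left this (by positivity)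
  have h6 : C1 * v * (dl + 3 * D) ≤ C1 * v * (κ * ab + 3 * (D + D')) :=
    mul_le_mul_of_nonneg_left (by linarith) (by positivity)
  have h7 : C * (S + 1) * v * (er + ab * δ) ≤
      C * (S + 1) * v * (κ * (1 + K1 * (2 + 2 * Kc)) * ab + K1 * (D + D')) :=
    mul_le_mul_of_nonneg_left h2 (by positivity)
  calc _ ≤ C * (er + ab * δ) * (S * v) + C * (er + ab * δ) * v + C * v * (κ * ab + Kb * (D + D')) +
        C1 * v * (κ * ab + 3 * (D + D')) := by linarith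
    _ = C * (S + 1) * v * (er + ab * δ) + C * v * (κ * ab + Kb * (D + D')) +
        C1 * v * (κ * ab + 3 * (D + D')) := by ring
    _ ≤ C * (S + 1) * v * (κ * (1 + K1 * (2 + 2 * Kc)) * ab + K1 * (D + D')) +
        C * v * (κ * ab + Kb * (D + D')) + C1 * v * (κ * ab + 3 * (D + D')) := by linarith
    _ = _ := by ring

/-! ## Sums over the neighbourhood -/

section Wd

variable {E : Type} [NormedAddCommGroup E] [InnerProductSpace ℝ E]

lemma adj_ns (hNS : StmtNS) (hd : 2 ≤ d) {R0 : ℝ} (hR : (d : ℝ) ≤ 3 * R0) (JA : ℕ)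
    (W : Wld d E) (hs : 0 < W.s0) (Q : Cell d) : adj Q ⊆ W.ns R0 JA Q := by
  have hd1 : 1 ≤ d := by omega
  have hd' : (2 : ℝ) ≤ d := by exact_mod_cast hd
  refine (hNS d hd1 W.s0 (3 * R0) hs (by linarith) JA Q).2.2.2.2.2.2.2 ?_
  have h1 : Real.sqrt d ≤ d := by
    rw [Real.sqrt_le_left (by positivity)]
    nlinarith
  linarith

lemma sE_ge {J JA : ℕ} {R0 κ Kc : ℝ} {W : Wld d E} {Q Q' : Cell d}
    (hA : Ash J JA R0 κ Kc W Q) (hQ : Q ∈ W.ns R0 JA Q) (hN : W.Near Q)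
    (hQ' : Q' ∈ W.ns R0 JA Q) : W.er Q' ^ 2 / W.ab Q' + W.dl Q' ≤ W.sE R0 JA Q := by
  unfold Wld.sE
  rw [if_pos ⟨Q, hQ, hN⟩]
  refine Finset.single_le_sum (f := fun P => W.er P ^ 2 / W.ab P + W.dl P) (fun P hP => ?_) hQ'
  have h1 := (hA.2.2 P hP).2.1
  have h2 := h1.sh.ab0
  have h3 := h1.dl0
  positivity

lemma sD_ge {JA : ℕ} {C' R0 Rz : ℝ} {X : Prm d} {W : Wld d E} (hW : WOK JA C' R0 Rz X W)
    {Q Q' : Cell d} (hQ' : Q' ∈ W.ns R0 JA Q) : W.D Q' ≤ W.sD R0 JA Q :=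
  Finset.single_le_sum (f := W.D) (fun P _ => hW.D0 P) hQ'

/-- the net contribution without weight -/
def nt0 (W : Wld d E) (Q : Cell d) : ℝ :=
  (∫ y, W.m Q y * (chi y * Hn (W.be Q) W.X.ε W.X.p0 W.X.A (W.mu Q) (W.nv Q) 1 y)) +
    (∫ y, W.m Q y * dvT chi (W.be Q) W.X.ε W.X.p0 W.X.A (W.mu Q) (W.nv Q) y) -
    ∑ Q' ∈ adj Q, Fl W Q Q'

lemma nt1_eq {W : Wld d E} {Q : Cell d} (hk : W.kd Q = 0) : W.nt1 Q = W.w Q * nt0 W Q := by
  unfold Wld.nt1 net nt0 Gam Vct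
  rw [if_pos hk, if_pos hk]
  rfl

lemma XX_nonneg {J : ℕ} {M : ℝ} {β : Sp d → ℝ} (hβ : Kit J M β) (ε : ℝ) (μ : Measure (Sp d))
    (n : Sp d) (y : Sp d) : 0 ≤ XX β ε μ n 1 y := by
  have h1 : 0 ≤ tav (X1 β ε μ n) 1 y := tav_nonneg (fun t y _ => X1_nonneg hβ ε μ n t y) y
  have h2 : 0 ≤ tav (X2 μ n) 1 y := tav_nonneg (fun t y ht => X2_nonneg μ n ht y) y
  have h3 : 0 ≤ tav (X3 β ε μ n) 1 y := tav_nonneg (fun t y _ => X3_nonneg hβ ε μ n t y) y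
  unfold XX; linarith

lemma pl_nonneg {n : Sp d} {s : ℝ} {F : Sp d → ℝ} (hF : ∀ y, 0 ≤ F y) : 0 ≤ plInt n s F :=
  integral_nonneg fun _ => hF _

lemma sg_nonneg {J JA : ℕ} {M c0 C' c R0 Rz : ℝ} {X : Prm d} (hX : XOK J JA M c0 C' c R0 X)
    {W : Wld d E} (hW : WOK JA C' R0 Rz X W) (Q : Cell d) : 0 ≤ W.sg Q := by
  have hXe := hW.X_eq
  subst hXe
  exact mul_nonneg (hW.ab0 Q) (pl_nonneg fun y => mul_nonneg (PTm.chi_nonneg y)
    (XX_nonneg (hX.ker.kit _) _ _ _ _))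

lemma gX_nonneg {J JA : ℕ} {M c0 C' c R0 Rz : ℝ} {X : Prm d} (hX : XOK J JA M c0 C' c R0 X)
    {W : Wld d E} (hW : WOK JA C' R0 Rz X W) (Q : Cell d) : 0 ≤ gX W Q := by
  have hXe := hW.X_eq
  subst hXe
  exact pl_nonneg fun y => mul_nonneg (TU.zR_nonneg _ y) (XX_nonneg (hX.ker.kit _) _ _ _ _)

lemma val_nonneg {J JA : ℕ} {M c0 C' c R0 Rz : ℝ} {X : Prm d} (hX : XOK J JA M c0 C' c R0 X)
    {W : Wld d E} (hW : WOK JA C' R0 Rz X W) (Q : Cell d) : 0 ≤ W.val Q := by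
  unfold Wld.val
  split_ifs
  · exact add_nonneg (sg_nonneg hX hW Q) (le_max_left _ _)
  · exact le_rfl
  · exact le_max_left _ _

lemma w_pos {JA : ℕ} {C' R0 Rz : ℝ} {X : Prm d} {W : Wld d E} (hW : WOK JA C' R0 Rz X W)
    (Q : Cell d) : 0 < W.w Q := by
  unfold Wld.w cw
  exact pow_pos (FR.lev_pos hW.s0_pos _) _

lemma v_nonneg (W : Wld d E) (Q : Cell d) : 0 ≤ W.v Q := Real.sqrt_nonneg _

lemma sV_nonneg {J JA : ℕ} {M c0 C' c R0 Rz : ℝ} {X : Prm d} (hX : XOK J JA M c0 C' c R0 X)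
    {W : Wld d E} (hW : WOK JA C' R0 Rz X W) (Q : Cell d) : 0 ≤ W.sV R0 JA Q :=
  Finset.sum_nonneg fun Q' _ => mul_nonneg (w_pos hW Q').le (val_nonneg hX hW Q')

end Wd

end W2m

end

end TG
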