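import Pool.Agent.TG.LWb
import Pool.Agent.TG.Stmts18
import Pool.Agent.TG.W2d

/-!
# Module LW: the world satisfies the local inequalities   (helper46)
-/

open MeasureTheory Metric Set TrI
open scoped InnerProductSpace ContDiff ENNReal

namespace TG

namespace LW

noncomputable section

variable {d : ℕ}

lemma net2_eq {E : Type} [NormedAddCommGroup E] [InnerProductSpace ℝ E] (W : Wld d E)
    {X : Prm d} {s0 : ℝ} {μ : Measure (Sp d)} {f : Sp d → E} {e : Cell d → E} (hX : W.X = X)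
    (hs : W.s0 = s0) (hμ : W.μ = μ) (hf : W.f = f) (he : W.e = e) {Q : Cell d} (hQ : 2 ≤ Q.1) :
    net2 X s0 μ f e W.kd W.nv Q = W.nt1 Q := by
  subst hX hs hμ hf he
  unfold net2
  rw [if_pos hQ]
  rfl

/-- the case analysis for one good world -/
theorem cases {E : Type} [NormedAddCommGroup E] [InnerProductSpace ℝ E] [FiniteDimensional ℝ E]
    (hNS : StmtNS) (hd : 2 ≤ d) {J JA rm r0 : ℕ}
    {C' R0 Rz K' γ κW Kc Cu c1 η Cr CK CKc κ δ Cb CD Csw CP Ca R1 Rs RM C3 Ct R2 R : ℝ}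
    {tol : ℕ → ℝ} {X : Prm d} {St TA : Set (Cell d)} {a al ah D b at' TGf : Cell d → ℝ}
    {EI : Cell d → ℝ} {W : Wld d E} {ν : Cell d → Sp d} {c : Cell d → ℝ}
    (hG : GoodW J JA C' R0 Rz X Cr Kc K' γ κW CK κ Csw R1 Rs RM rm tol St TA ah (sh b) (sh D)
      EI W)
    (hC : CW J JA rm R0 κW Kc Cu c1 η CKc δ Cb K' γ R1 Rs RM C3 Ct R2 tol W)
    (hval : ∀ Q, 0 ≤ W.val Q) (hR0 : 1 ≤ R0) (hsd : Real.sqrt d ≤ 3 * R0)
    (hr0 : 10 ≤ r0) (hCu : 1 ≤ Cu) (hCD : 0 < CD) (hCP : 0 < CP) (hCa : 0 < Ca) (hCKc : 0 < CKc)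
    (hCK : 0 < CK) (hCsw : 0 < Csw) (hCb : 0 < Cb) (hCr : 1 ≤ Cr) (hκ : 0 < κ)
    (ha : W.a = a) (hD0 : ∀ Q, 0 ≤ D Q) (hb0 : ∀ Q, 0 ≤ b Q) (hat0 : ∀ Q, 0 ≤ at' Q)
    (hal0 : ∀ Q, 0 ≤ al Q)
    (hshD : ∀ Q, 0 ≤ sh D Q) (hshb : ∀ Q, 0 ≤ sh b Q)
    (hTG0 : ∀ Q, 0 ≤ TGf Q)
    (hWD : ∀ Q, W.D Q = CD * dsm r0 D Q)
    (hal : ∀ Q, ∀ (ζ : Sp d → ℝ) (N : ℝ), TFn 2 N ζ → (∀ y, (d : ℝ) + 3 ≤ ‖y‖ → ζ y = 0) →
      |∫ y, W.m Q y * ζ y| ≤ N * (Ca * (al Q + D Q)))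
    (hbq : ∀ Q, b Q ≤ bq R0 (W.m Q))
    (hLP : ∀ P : Cell d, (∀ l : ℕ, at' (up l P) ≤ (2 : ℝ) ^ (γ * l) * at' P) →
      at' P ≤ C3 * (∫ y, W.m P y * zR Ct y) + CP * (D P + TGf P) ∧
      ‖ν (up 9 P)‖ = 1 ∧
      |(c (up 9 P) - ⟪ν (up 9 P), xC W.s0 P⟫_ℝ) / lev W.s0 P.1| ≤ R2 ∧
      blc (ν (up 9 P)) ((c (up 9 P) - ⟪ν (up 9 P), xC W.s0 P⟫_ℝ) / lev W.s0 P.1)
        (W.m P) R0 ≤ CP * (b (up 9 P) + D P + D (up 9 P)))
    {Cu' CK' Cs' : ℝ} (hCu' : Cu * (1 + Ca + CP) ≤ Cu') (hCK' : CK + CKc ≤ CK')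
    (hCs' : Csw + (Cb + CKc) * (CD + CP) + 2 * Cu * CP ≤ Cs') :
    LocW W.s0 γ Cu' c1 η Cr CK' κ δ Cs' r0 (nst W.s0 (3 * R0) JA) {Q | W.Near Q} St TA
      (fun Q => if 2 ≤ Q.1 then W.nt1 Q else 0) W.val W.v a al ah D b at' TGf
      (fun P => at' P * Mo (W.mu P) (ν (up 9 P))
        ((c (up 9 P) - ⟪ν (up 9 P), xC W.s0 P⟫_ℝ) / lev W.s0 P.1) 2 1 0)
      (fun Q => W.er Q + W.dl Q + EI Q) (fun Q => W.er Q ^ 2 / W.ab Q + W.dl Q) := by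
  subst ha
  have hd1 : 1 ≤ d := by omega
  have hs0 := hG.ok.s0_pos
  have hw : ∀ Q, 0 ≤ W.w Q := w_nn W hs0
  have hv : ∀ Q, 0 ≤ W.v Q := fun Q => Real.sqrt_nonneg _
  have hwv : ∀ Q, 0 ≤ cw W.s0 Q * W.v Q := fun Q => mul_nonneg (hw Q) (hv Q)
  have hself : ∀ Q, Q ∈ nst W.s0 (3 * R0) JA Q := fun Q =>
    self_ns hNS hd1 hs0 (by linarith) JA Q
  have hadj : ∀ Q, adj Q ⊆ nst W.s0 (3 * R0) JA Q := fun Q => adj_ns hNS hd1 hs0 hsd JA Q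
  have hdsm : ∀ Q, 0 ≤ dsm r0 D Q := fun Q => FN.dsm_nonneg hD0 Q
  have hsV0 : ∀ Q, 0 ≤ ∑ Q' ∈ nst W.s0 (3 * R0) JA Q, cw W.s0 Q' * W.val Q' := fun Q =>
    Finset.sum_nonneg fun Q' _ => mul_nonneg (hw Q') (hval Q')
  have hsD : ∀ Q, W.sD R0 JA Q = CD * ∑ Q' ∈ nst W.s0 (3 * R0) JA Q, dsm r0 D Q' := by
    intro Q
    unfold Wld.sD
    rw [Finset.mul_sum]
    exact Finset.sum_congr rfl fun Q' _ => hWD Q'
  have hsD0 : ∀ Q, 0 ≤ ∑ Q' ∈ nst W.s0 (3 * R0) JA Q, dsm r0 D Q' := fun Q =>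
    Finset.sum_nonneg fun Q' _ => hdsm Q'
  have hsaD : ∀ Q, ∑ Q' ∈ adj Q, W.D Q' = CD * ∑ Q' ∈ adj Q, dsm r0 D Q' := by
    intro Q
    rw [Finset.mul_sum]
    exact Finset.sum_congr rfl fun Q' _ => hWD Q'
  have hsaD0 : ∀ Q, 0 ≤ ∑ Q' ∈ adj Q, dsm r0 D Q' := fun Q =>
    Finset.sum_nonneg fun Q' _ => hdsm Q'
  have hself_le : ∀ Q, dsm r0 D Q ≤ ∑ Q' ∈ nst W.s0 (3 * R0) JA Q, dsm r0 D Q' := fun Q =>
    Finset.single_le_sum (f := fun Q' => dsm r0 D Q') (fun Q' _ => hdsm Q') (hself Q)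
  have hDle : ∀ Q, D Q ≤ dsm r0 D Q := by
    intro Q
    have := FN.le_dsm hD0 Q (r0 := r0) (r := 0) (by omega)
    rwa [FR.up_zero] at this
  have hD9 : ∀ Q, D (up 9 Q) ≤ dsm r0 D Q := fun Q => FN.le_dsm hD0 Q (by omega)
  -- type A neighbourhoods
  have hAsh : ∀ Q, AllA Cr (nst W.s0 (3 * R0) JA) St TA W.a ah Q → Ash J JA R0 κW Kc W Q := by
    intro Q hQ
    have hQQ := hQ.1 Q (hself Q)
    refine ⟨hG.sv_le Q hQQ.1 hQQ.2.1 hQ.2, hG.she Q hQQ.1 hQQ.2.1, ?_⟩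
    intro Q' hQ'
    obtain ⟨h1, h2, h3⟩ := hQ.1 Q' hQ'
    exact ⟨(hG.kd0 Q').2 ⟨h1, h2⟩, hG.she Q' h1 h2, hG.ab_cmp Q hQQ.1 hQQ.2.1 Q' h1 h2 h3⟩
  have hsE : ∀ Q, W.sE R0 JA Q = sEs (nst W.s0 (3 * R0) JA) {Q | W.Near Q}
      (fun Q => W.er Q ^ 2 / W.ab Q + W.dl Q) Q := fun Q => rfl
  have hsE0 : ∀ Q, AllA Cr (nst W.s0 (3 * R0) JA) St TA W.a ah Q → 0 ≤
      sEs (nst W.s0 (3 * R0) JA) {Q | W.Near Q} (fun Q => W.er Q ^ 2 / W.ab Q + W.dl Q) Q := by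
    intro Q hQ
    unfold sEs
    split_ifs with h
    · refine Finset.sum_nonneg fun Q' hQ' => ?_
      have h1 := hG.she Q' (hQ.1 Q' hQ').1 (hQ.1 Q' hQ').2.1
      exact add_nonneg (div_nonneg (sq_nonneg _) h1.sh.ab0.le) h1.dl0
    · exact le_rfl
  have hCs0 : 0 ≤ 2 * Cu * CP := by positivity
  have hCs1 : Cb * CD ≤ Cs' := by nlinarith [mul_pos hCb hCP, mul_pos hCKc hCD, mul_pos hCKc hCP]
  have hCs2 : CKc * CD ≤ Cs' := by nlinarith [mul_pos hCb hCP, mul_pos hCb hCD, mul_pos hCKc hCP]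
  have hCs3 : Csw ≤ Cs' := by
    nlinarith [mul_pos hCb hCP, mul_pos hCb hCD, mul_pos hCKc hCP, mul_pos hCKc hCD]
  have hCu0 : 0 < Cu := by linarith
  have hCu1 : Cu ≤ Cu' := by nlinarith [mul_pos hCu0 hCP, mul_pos hCu0 hCa]
  have hCu2 : Cu * Ca ≤ Cu' := by nlinarith [mul_pos hCu0 hCP]
  have hCu3 : Cu * CP ≤ Cu' := by nlinarith [mul_pos hCu0 hCa]
  have hCK1 : CK ≤ CK' := by linarith
  have hCK2 : CKc ≤ CK' := by linarith
  refine ⟨hval, ?_, ?_, ?_, ?_, ?_, ?_, ?_, ?_, ?_, ?_, ?_⟩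
  · -- E1
    intro Q h1 h2
    refine (hG.E1_le Q h1 h2).trans ?_
    have h3 : 0 ≤ sh b Q + κ * W.a Q := add_nonneg (hshb Q) (mul_nonneg hκ.le (hG.a0 Q))
    have h4 := mul_le_mul_of_nonneg_right hCK1 h3
    have h5 := mul_le_mul_of_nonneg_right hCs3 (hshD Q)
    linarith
  · -- E2
    intro Q h1 h2
    refine (hG.E2_le Q h1 h2).trans ?_
    exact mul_le_mul_of_nonneg_right hCK1 (add_nonneg (mul_nonneg hκ.le (hshb Q)) (hshD Q))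
  · -- w1
    intro Q hQ2 hN
    have h1 := hC.w1 Q hN
    rw [hWD Q] at h1
    simp only [hQ2, if_true]
    have h2 : Cb * (W.w Q * W.v Q) * (CD * dsm r0 D Q) ≤
        Cs' * (cw W.s0 Q * W.v Q) * dsm r0 D Q := by
      rw [show Cb * (W.w Q * W.v Q) * (CD * dsm r0 D Q) =
        (Cb * CD) * (W.w Q * W.v Q) * dsm r0 D Q by ring]
      exact m3 hCs1 (mul_nonneg (hwv Q) (hdsm Q))
    exact h1.trans (by linarith)
  · -- w2
    intro Q hN hQ2 hA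
    have h1 := hC.w2 Q hQ2 hN (hAsh Q hA)
    rw [hsE Q, hsD Q] at h1
    simp only [hQ2, if_true]
    have h3 := hsE0 Q hA
    set SE := sEs (nst W.s0 (3 * R0) JA) {Q | W.Near Q}
      (fun Q => W.er Q ^ 2 / W.ab Q + W.dl Q) Q with hSE
    set SD := ∑ Q' ∈ nst W.s0 (3 * R0) JA Q, dsm r0 D Q' with hSD
    have h2 : CKc * (W.w Q * W.v Q) * (SE + CD * SD) ≤
        CK' * (cw W.s0 Q * W.v Q) * SE + Cs' * (cw W.s0 Q * W.v Q) * SD := by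
      have e1 : CKc * (W.w Q * W.v Q) * (SE + CD * SD) =
        CKc * (W.w Q * W.v Q) * SE + (CKc * CD) * (W.w Q * W.v Q) * SD := by ring
      rw [e1]
      exact add_le_add (m3 hCK2 (mul_nonneg (hwv Q) h3)) (m3 hCs2 (mul_nonneg (hwv Q) (hsD0 Q)))
    have h4 : c1 * (cw W.s0 Q * W.val Q) ≤ W.nt1 Q +
        η * (∑ Q' ∈ nst W.s0 (3 * R0) JA Q, cw W.s0 Q' * W.val Q') +
        CKc * (W.w Q * W.v Q) * (SE + CD * SD) := h1
    linarith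
  · -- w3
    intro Q hN hQ2 hB
    have hk : ∀ Q' ∈ nst W.s0 (3 * R0) JA Q, W.kd Q' = 1 := fun Q' hQ' =>
      (hG.kd1 Q').2 (hB Q' hQ')
    have h1 := hC.w3 Q hN (hk Q (hself Q)) (hG.str Q (hB Q (hself Q)).1)
      (fun Q' hQ' _ => hk Q' (hadj Q hQ'))
    rw [hWD Q] at h1
    simp only [hQ2, if_true]
    have h2 : Cb * (W.w Q * W.v Q) * (CD * dsm r0 D Q) ≤
        Cs' * (cw W.s0 Q * W.v Q) * dsm r0 D Q := by
      rw [show Cb * (W.w Q * W.v Q) * (CD * dsm r0 D Q) =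
        (Cb * CD) * (W.w Q * W.v Q) * dsm r0 D Q by ring]
      exact m3 hCs1 (mul_nonneg (hwv Q) (hdsm Q))
    exact h1.trans (by
      have e1 : δ * (W.w Q * W.v Q) * W.a Q = δ * (cw W.s0 Q * W.v Q) * W.a Q := rfl
      linarith)
  · -- w4
    intro Q hN hQ2 hS hah
    have hst : ∀ Q' ∈ adj Q, Q' ∈ St := fun Q' hQ' => (hS Q' (hadj Q hQ')).1
    have hQS := (hS Q (hself Q)).1
    have h1 := hC.w4 Q hN (fun hk => by
        obtain ⟨e1, e2⟩ := (hG.kd0 Q).1 hk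
        exact hG.sv_le Q e1 e2 hah)
      (fun Q' hQ' => by
        by_cases h : Q' ∈ TA
        · exact Or.inl ((hG.kd0 Q').2 ⟨hst Q' hQ', h⟩)
        · exact Or.inr ((hG.kd1 Q').2 ⟨hst Q' hQ', h⟩))
      (fun Q' _ => hG.a0 Q')
      (fun Q' hQ' _ => hG.str Q' (hst Q' hQ'))
      EI
      (fun Q' hQ' hk => by
        obtain ⟨e1, e2⟩ := (hG.kd0 Q').1 hk
        refine ⟨hG.EI0 Q', hG.she Q' e1 e2, hG.ifc Q' e1 e2, hG.a0 Q', (hG.str Q' e1).mg, ?_⟩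
        intro hk'
        obtain ⟨e3, e4⟩ := (hG.kd0 Q).1 hk'
        exact hG.ab_cmp Q e3 e4 Q' e1 e2 (hS Q' (hadj Q hQ')).2.1)
    rw [hsaD Q] at h1
    simp only [hQ2, if_true]
    have h5 : ∑ Q' ∈ (adj Q).filter (fun Q' => W.kd Q' = 0), (W.er Q' + W.dl Q' + EI Q') =
        ∑ Q' ∈ adj Q, TA.indicator (fun Q => W.er Q + W.dl Q + EI Q) Q' := by
      rw [Finset.sum_filter]
      refine Finset.sum_congr rfl fun Q' hQ' => ?_
      by_cases h : Q' ∈ TA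
      · rw [if_pos ((hG.kd0 Q').2 ⟨hst Q' hQ', h⟩), Set.indicator_of_mem h]
      · rw [if_neg (fun hk => h ((hG.kd0 Q').1 hk).2), Set.indicator_of_notMem h]
    have h6 : 0 ≤ ∑ Q' ∈ adj Q, TA.indicator (fun Q => W.er Q + W.dl Q + EI Q) Q' := by
      refine Finset.sum_nonneg fun Q' hQ' => ?_
      by_cases h : Q' ∈ TA
      · rw [Set.indicator_of_mem h]
        have e2 := hG.she Q' (hst Q' hQ') h
        exact add_nonneg (add_nonneg e2.sh.ep0 e2.dl0) (hG.EI0 Q')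
      · rw [Set.indicator_of_notMem h]
    rw [h5] at h1
    set S1 := ∑ Q' ∈ adj Q, TA.indicator (fun Q => W.er Q + W.dl Q + EI Q) Q' with hS1
    set S2 := ∑ Q' ∈ adj Q, dsm r0 D Q' with hS2
    have h2 : Cb * (W.w Q * W.v Q) * (CD * S2) ≤ Cs' * (cw W.s0 Q * W.v Q) * S2 := by
      rw [show Cb * (W.w Q * W.v Q) * (CD * S2) = (Cb * CD) * (W.w Q * W.v Q) * S2 by ring]
      exact m3 hCs1 (mul_nonneg (hwv Q) (hsaD0 Q))
    have h3 : CKc * (W.w Q * W.v Q) * S1 ≤ CK' * (cw W.s0 Q * W.v Q) * S1 :=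
      m3 hCK2 (mul_nonneg (hwv Q) h6)
    have h4 : c1 * (cw W.s0 Q * W.val Q) ≤ W.nt1 Q + CKc * (W.w Q * W.v Q) * S1 +
        δ * (cw W.s0 Q * W.v Q) * (∑ Q' ∈ adj Q, W.a Q') +
        Cb * (W.w Q * W.v Q) * (CD * S2) := h1
    linarith
  · -- w5
    intro Q hN hQ2
    have h1 := hC.w5 Q hN (fun hk => by
        obtain ⟨e1, e2⟩ := (hG.kd0 Q).1 hk
        exact hG.she Q e1 e2)
      (fun Q' _ hk => hG.str Q' ((hG.kd1 Q').1 hk).1)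
      (Ca * (al Q + D Q)) (mul_nonneg hCa.le (add_nonneg (hal0 Q) (hD0 Q))) (hal Q)
    rw [hsaD Q] at h1
    simp only [hQ2, if_true]
    have h5 : ∑ Q' ∈ (adj Q).filter (fun Q' => W.kd Q' = 1), W.a Q' =
        ∑ Q' ∈ adj Q, (St \ TA).indicator W.a Q' := by
      rw [Finset.sum_filter]
      refine Finset.sum_congr rfl fun Q' hQ' => ?_
      by_cases h : Q' ∈ St \ TA
      · rw [if_pos ((hG.kd1 Q').2 h), Set.indicator_of_mem h]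
      · rw [if_neg (fun hk => h ((hG.kd1 Q').1 hk)), Set.indicator_of_notMem h]
    rw [h5] at h1
    set S2 := ∑ Q' ∈ adj Q, dsm r0 D Q' with hS2
    have h2 : Cb * (W.w Q * W.v Q) * (CD * S2) ≤ Cs' * (cw W.s0 Q * W.v Q) * S2 := by
      rw [show Cb * (W.w Q * W.v Q) * (CD * S2) = (Cb * CD) * (W.w Q * W.v Q) * S2 by ring]
      exact m3 hCs1 (mul_nonneg (hwv Q) (hsaD0 Q))
    have h3 : Cu * (W.w Q * W.v Q) * (Ca * (al Q + D Q)) ≤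
        Cu' * (cw W.s0 Q * W.v Q) * (al Q + D Q) := by
      rw [show Cu * (W.w Q * W.v Q) * (Ca * (al Q + D Q)) =
        (Cu * Ca) * (W.w Q * W.v Q) * (al Q + D Q) by ring]
      exact m3 hCu2 (mul_nonneg (hwv Q) (add_nonneg (hal0 Q) (hD0 Q)))
    have h4 : cw W.s0 Q * W.val Q ≤ W.nt1 Q + Cu * (W.w Q * W.v Q) * (Ca * (al Q + D Q)) +
        δ * (cw W.s0 Q * W.v Q) * (∑ Q' ∈ adj Q, (St \ TA).indicator W.a Q') +
        Cb * (W.w Q * W.v Q) * (CD * S2) := h1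
    linarith
  · -- wA6
    intro Q hQ2 hA
    have h1 := hC.wA6 Q (hAsh Q hA)
    rw [hsE Q, hsD Q] at h1
    have h3 := hsE0 Q hA
    set SE := sEs (nst W.s0 (3 * R0) JA) {Q | W.Near Q}
      (fun Q => W.er Q ^ 2 / W.ab Q + W.dl Q) Q with hSE
    set SD := ∑ Q' ∈ nst W.s0 (3 * R0) JA Q, dsm r0 D Q' with hSD
    set SV := ∑ Q' ∈ nst W.s0 (3 * R0) JA Q, cw W.s0 Q' * W.val Q' with hSV
    have h2 : CKc * (W.w Q * W.v Q) * (SE + CD * SD) ≤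
        CK' * (cw W.s0 Q * W.v Q) * SE + Cs' * (cw W.s0 Q * W.v Q) * SD := by
      have e1 : CKc * (W.w Q * W.v Q) * (SE + CD * SD) =
        CKc * (W.w Q * W.v Q) * SE + (CKc * CD) * (W.w Q * W.v Q) * SD := by ring
      rw [e1]
      exact add_le_add (m3 hCK2 (mul_nonneg (hwv Q) h3)) (m3 hCs2 (mul_nonneg (hwv Q) (hsD0 Q)))
    have h4 : cw W.s0 Q * W.v Q * bq R0 (W.m Q) ≤ Cu * SV +
        CKc * (W.w Q * W.v Q) * (SE + CD * SD) := h1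
    have h5 : cw W.s0 Q * W.v Q * b Q ≤ cw W.s0 Q * W.v Q * bq R0 (W.m Q) :=
      mul_le_mul_of_nonneg_left (hbq Q) (hwv Q)
    have h6 : Cu * SV ≤ Cu' * SV := mul_le_mul_of_nonneg_right hCu1 (hsV0 Q)
    linarith
  · -- wB6
    intro Q hQ2 hB
    have hk : ∀ Q' ∈ W.ns R0 JA Q, Q'.1 = Q.1 → W.kd Q' = 1 ∧
        WNw K' γ R1 Rs RM rm tol W Q' := fun Q' hQ' _ =>
      ⟨(hG.kd1 Q').2 (hB Q' hQ'), hG.str Q' (hB Q' hQ').1⟩
    have hms : 0 ≤ sMs (nst W.s0 (3 * R0) JA) {Q | W.Near Q} W.a Q := by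
      unfold sMs
      split_ifs with h
      · exact Finset.sum_nonneg fun Q' _ => hG.a0 Q'
      · exact le_rfl
    have h1 := (hC.wB6 Q hk (sMs (nst W.s0 (3 * R0) JA) {Q | W.Near Q} W.a Q) hms
      (fun h => by
        have h' : ∃ Q' ∈ nst W.s0 (3 * R0) JA Q, Q'.1 = Q.1 ∧ Q' ∈ {Q | W.Near Q} := h
        unfold sMs
        rw [if_pos h']
        exact le_of_eq (Finset.sum_congr (by ext; simp [Wld.ns]) fun _ _ => rfl))).1
    rw [hsD Q] at h1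
    set SD := ∑ Q' ∈ nst W.s0 (3 * R0) JA Q, dsm r0 D Q' with hSD
    set SV := ∑ Q' ∈ nst W.s0 (3 * R0) JA Q, cw W.s0 Q' * W.val Q' with hSV
    set SM := sMs (nst W.s0 (3 * R0) JA) {Q | W.Near Q} W.a Q with hSM
    have h2 : Cb * (W.w Q * W.v Q) * (CD * SD) ≤ Cs' * (cw W.s0 Q * W.v Q) * SD := by
      rw [show Cb * (W.w Q * W.v Q) * (CD * SD) = (Cb * CD) * (W.w Q * W.v Q) * SD by ring]
      exact m3 hCs1 (mul_nonneg (hwv Q) (hsD0 Q))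
    have h4 : cw W.s0 Q * W.v Q * bq R0 (W.m Q) ≤ Cu * SV +
        δ * (cw W.s0 Q * W.v Q) * SM + Cb * (W.w Q * W.v Q) * (CD * SD) := h1
    have h5 : cw W.s0 Q * W.v Q * b Q ≤ cw W.s0 Q * W.v Q * bq R0 (W.m Q) :=
      mul_le_mul_of_nonneg_left (hbq Q) (hwv Q)
    have h6 : Cu * SV ≤ Cu' * SV := mul_le_mul_of_nonneg_right hCu1 (hsV0 Q)
    linarith
  · -- wA7
    intro P hP2 hT hA
    obtain ⟨hp1, hp2, hp3, hp4⟩ := hLP P hT
    have hDT : 0 ≤ CP * (D P + TGf P) := mul_nonneg hCP.le (add_nonneg (hD0 P) (hTG0 P))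
    have h1 := hC.wA7 P hP2 (hAsh P hA) (at' P) (CP * (D P + TGf P)) _ _ (hat0 P) hDT hp2 hp3 hp1
    rw [hsE P, hsD P] at h1
    have h3 := hsE0 P hA
    have hself' := hself_le P
    have hDle' := hDle P
    have hD9' := hD9 P
    have hTG' := hTG0 P
    have hSD0 := hsD0 P
    have hSV0' := hsV0 P
    set SE := sEs (nst W.s0 (3 * R0) JA) {Q | W.Near Q}
      (fun Q => W.er Q ^ 2 / W.ab Q + W.dl Q) P with hSE
    set SD := ∑ Q' ∈ nst W.s0 (3 * R0) JA P, dsm r0 D Q' with hSD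
    set SV := ∑ Q' ∈ nst W.s0 (3 * R0) JA P, cw W.s0 Q' * W.val Q' with hSV
    set wv := cw W.s0 P * W.v P with hwvP
    have hwvP0 : 0 ≤ wv := hwv P
    set bl := blc (ν (up 9 P)) ((c (up 9 P) - ⟪ν (up 9 P), xC W.s0 P⟫_ℝ) / lev W.s0 P.1)
        (W.m P) R0 with hbl
    have h4 : cw W.s0 P * (at' P * Mo (W.mu P) (ν (up 9 P))
        ((c (up 9 P) - ⟪ν (up 9 P), xC W.s0 P⟫_ℝ) / lev W.s0 P.1) 2 1 0) ≤
        Cu * SV + Cu * wv * max 0 bl + CKc * wv * (SE + CD * SD + CP * (D P + TGf P)) := h1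
    refine h4.trans ?_
    have h5 : max 0 bl ≤ CP * (b (up 9 P) + 2 * SD) := by
      refine max_le (mul_nonneg hCP.le (by linarith [hb0 (up 9 P)])) (hp4.trans ?_)
      exact mul_le_mul_of_nonneg_left (by linarith) hCP.le
    have h6 : Cu * wv * max 0 bl ≤ Cu * wv * (CP * (b (up 9 P) + 2 * SD)) :=
      mul_le_mul_of_nonneg_left h5 (mul_nonneg (by linarith) hwvP0)
    have h7 : CKc * wv * (SE + CD * SD + CP * (D P + TGf P)) ≤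
        CKc * wv * SE + (CKc * (CD + CP)) * wv * (SD + TGf P) := by
      have e1 : D P ≤ SD := by linarith
      have e2 : CD * SD + CP * (D P + TGf P) ≤ (CD + CP) * (SD + TGf P) := by
        nlinarith [mul_nonneg hCD.le hTG', mul_nonneg hCP.le (sub_nonneg.2 e1)]
      have e3 := mul_le_mul_of_nonneg_left e2 (mul_nonneg hCKc.le hwvP0)
      nlinarith
    have h8 : Cu * SV ≤ Cu' * SV := mul_le_mul_of_nonneg_right hCu1 hSV0'
    have h9 : Cu * CP * wv * b (up 9 P) ≤ Cu' * wv * b (up 9 P) :=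
      m3 hCu3 (mul_nonneg hwvP0 (hb0 _))
    have h10 : CKc * wv * SE ≤ CK' * wv * SE := m3 hCK2 (mul_nonneg hwvP0 h3)
    have h11 : (2 * Cu * CP + CKc * (CD + CP)) * wv * (SD + TGf P) ≤
        Cs' * wv * (SD + TGf P) := by
      refine m3 ?_ (mul_nonneg hwvP0 (by linarith))
      nlinarith [mul_pos hCb hCP, mul_pos hCb hCD]
    have h12 : 0 ≤ 2 * Cu * CP * (wv * TGf P) := mul_nonneg hCs0 (mul_nonneg hwvP0 hTG')
    nlinarith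
  · -- wB7
    intro P hP2 hT hB
    obtain ⟨hp1, hp2, hp3, hp4⟩ := hLP P hT
    have hDT : 0 ≤ CP * (D P + TGf P) := mul_nonneg hCP.le (add_nonneg (hD0 P) (hTG0 P))
    have hk : ∀ Q' ∈ W.ns R0 JA P, Q'.1 = P.1 → W.kd Q' = 1 ∧
        WNw K' γ R1 Rs RM rm tol W Q' := fun Q' hQ' _ =>
      ⟨(hG.kd1 Q').2 (hB Q' hQ'), hG.str Q' (hB Q' hQ').1⟩
    have hms : 0 ≤ sMs (nst W.s0 (3 * R0) JA) {Q | W.Near Q} W.a P := by
      unfold sMs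
      split_ifs with h
      · exact Finset.sum_nonneg fun Q' _ => hG.a0 Q'
      · exact le_rfl
    have h1 := (hC.wB6 P hk (sMs (nst W.s0 (3 * R0) JA) {Q | W.Near Q} W.a P) hms
      (fun h => by
        have h' : ∃ Q' ∈ nst W.s0 (3 * R0) JA P, Q'.1 = P.1 ∧ Q' ∈ {Q | W.Near Q} := h
        unfold sMs
        rw [if_pos h']
        exact le_of_eq (Finset.sum_congr (by ext; simp [Wld.ns]) fun _ _ => rfl))).2
      (at' P) (CP * (D P + TGf P)) _ _ (hat0 P) hDT hp2 hp3 hp1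
    rw [hsD P] at h1
    have hself' := hself_le P
    have hDle' := hDle P
    have hD9' := hD9 P
    have hTG' := hTG0 P
    have hSD0 := hsD0 P
    have hSV0' := hsV0 P
    set SM := sMs (nst W.s0 (3 * R0) JA) {Q | W.Near Q} W.a P with hSM
    set SD := ∑ Q' ∈ nst W.s0 (3 * R0) JA P, dsm r0 D Q' with hSD
    set SV := ∑ Q' ∈ nst W.s0 (3 * R0) JA P, cw W.s0 Q' * W.val Q' with hSV
    set wv := cw W.s0 P * W.v P with hwvP
    have hwvP0 : 0 ≤ wv := hwv P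
    set bl := blc (ν (up 9 P)) ((c (up 9 P) - ⟪ν (up 9 P), xC W.s0 P⟫_ℝ) / lev W.s0 P.1)
        (W.m P) R0 with hbl
    have h4 : cw W.s0 P * (at' P * Mo (W.mu P) (ν (up 9 P))
        ((c (up 9 P) - ⟪ν (up 9 P), xC W.s0 P⟫_ℝ) / lev W.s0 P.1) 2 1 0) ≤
        Cu * SV + Cu * wv * max 0 bl + δ * wv * SM +
          Cb * wv * (CD * SD + CP * (D P + TGf P)) := h1
    refine h4.trans ?_
    have h5 : max 0 bl ≤ CP * (b (up 9 P) + 2 * SD) := by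
      refine max_le (mul_nonneg hCP.le (by linarith [hb0 (up 9 P)])) (hp4.trans ?_)
      exact mul_le_mul_of_nonneg_left (by linarith) hCP.le
    have h6 : Cu * wv * max 0 bl ≤ Cu * wv * (CP * (b (up 9 P) + 2 * SD)) :=
      mul_le_mul_of_nonneg_left h5 (mul_nonneg (by linarith) hwvP0)
    have h7 : Cb * wv * (CD * SD + CP * (D P + TGf P)) ≤
        (Cb * (CD + CP)) * wv * (SD + TGf P) := by
      have e1 : D P ≤ SD := by linarith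
      have e2 : CD * SD + CP * (D P + TGf P) ≤ (CD + CP) * (SD + TGf P) := by
        nlinarith [mul_nonneg hCD.le hTG', mul_nonneg hCP.le (sub_nonneg.2 e1)]
      have e3 := mul_le_mul_of_nonneg_left e2 (mul_nonneg hCb.le hwvP0)
      nlinarith
    have h8 : Cu * SV ≤ Cu' * SV := mul_le_mul_of_nonneg_right hCu1 hSV0'
    have h9 : Cu * CP * wv * b (up 9 P) ≤ Cu' * wv * b (up 9 P) :=
      m3 hCu3 (mul_nonneg hwvP0 (hb0 _))
    have h11 : (2 * Cu * CP + Cb * (CD + CP)) * wv * (SD + TGf P) ≤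
        Cs' * wv * (SD + TGf P) := by
      refine m3 ?_ (mul_nonneg hwvP0 (by linarith))
      nlinarith [mul_pos hCKc hCP, mul_pos hCKc hCD]
    have h12 : 0 ≤ 2 * Cu * CP * (wv * TGf P) := mul_nonneg hCs0 (mul_nonneg hwvP0 hTG')
    nlinarith

end

end LW

end TG
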