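import Pool.Agent.TG.Stmts17
import Pool.Agent.TG.WT
import Pool.Agent.TG.FN2

/-!
# Module LW, part a: monotonicity in the constants, change of RN   (helper46)
-/

open MeasureTheory Metric Set TrI
open scoped InnerProductSpace ContDiff ENNReal

namespace TG

namespace LW

noncomputable section

variable {d : ℕ}

lemma TFn0 {J : ℕ} {N : ℝ} {ζ : Sp d → ℝ} (h : TFn J N ζ) : 0 ≤ N := TU.TFn_nonneg h

lemma str_mono {J rm : ℕ} {R1 Rs Rs' e' e'' a : ℝ} {m : Sp d → ℝ} {r : ℕ} {ν : Fin r → Sp d}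
    {κ : Fin r → Sp d → ℝ} (h : Str J rm R1 Rs e' a m r ν κ) (hR : Rs' ≤ Rs) (he : e' ≤ e'')
    (ha : 0 ≤ a) : Str J rm R1 Rs' e'' a m r ν κ where
  rle := h.rle
  n1 := h.n1
  k0 := h.k0
  kb := h.kb
  ks := fun i y hy => (h.ks i y hy).trans (by linarith)
  kt := h.kt
  est := by
    intro ζ N hζ hs
    refine (h.est ζ N hζ fun y hy => hs y (hR.trans hy)).trans ?_
    have hN := TFn0 hζ
    exact mul_le_mul_of_nonneg_right (mul_le_mul_of_nonneg_right he ha) hN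

lemma mg_mono {K K' γ R R' a D D' : ℝ} {m : Sp d → ℝ} (h : MG K γ R a D m) (hK : K ≤ K')
    (hR : R' ≤ R) (ha : 0 ≤ a) (hD : D ≤ D') : MG K' γ R' a D' m := by
  intro ρ h1 h2 ζ h3 h4 h5 h6
  refine (h ρ h1 (h2.trans hR) ζ h3 h4 h5 h6).trans ?_
  have h7 : 0 ≤ ρ ^ ((d : ℝ) - 1 + γ) := Real.rpow_nonneg (by linarith) _
  have h8 : K * ρ ^ ((d : ℝ) - 1 + γ) * a ≤ K' * ρ ^ ((d : ℝ) - 1 + γ) * a :=
    mul_le_mul_of_nonneg_right (mul_le_mul_of_nonneg_right hK h7) ha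
  linarith

lemma zp_mono {R R' D D' : ℝ} {m : Sp d → ℝ} (h : ZP R D m) (hR : R' ≤ R) (hD : D ≤ D') :
    ZP R' D' m := by
  intro H h1 h2 h3 h4 h5
  have := h H h1 h2 h3 h4 fun y hy => h5 y (hR.trans hy)
  linarith

variable {E : Type} [NormedAddCommGroup E] [InnerProductSpace ℝ E]

lemma wok_mono {JA : ℕ} {C' R0 Rz Rz' : ℝ} {X : Prm d} {W : Wld d E}
    (h : WOK JA C' R0 Rz X W) (hR : Rz' ≤ Rz) : WOK JA C' R0 Rz' X W where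
  X_eq := h.X_eq
  s0_pos := h.s0_pos
  gro := h.gro
  fc := h.fc
  fs := h.fs
  eu := h.eu
  nu := h.nu
  ab0 := h.ab0
  D0 := h.D0
  zp := fun Q => zp_mono (h.zp Q) hR le_rfl
  dir := fun Q Q' hQ' ζ N h1 h2 => h.dir Q Q' hQ' ζ N h1 fun y hy => h2 y (hR.trans hy)

lemma wsh_mono {J : ℕ} {R0 κ κ' : ℝ} {W : Wld d E} {Q : Cell d} (h : WSh J R0 κ W Q)
    (hκ : κ ≤ κ') : WSh J R0 κ' W Q where
  sh := h.sh
  bl := h.bl
  loc := h.loc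
  dl0 := h.dl0
  small := h.small.trans (mul_le_mul_of_nonneg_right hκ h.sh.ab0.le)
  smalld := h.smalld.trans (mul_le_mul_of_nonneg_right hκ h.sh.ab0.le)

lemma wnw_mono {K γ R1 Rs Rs' RM RM' : ℝ} {rm : ℕ} {tol tol' : ℕ → ℝ} {W : Wld d E} {Q : Cell d}
    (h : WNw K γ R1 Rs RM rm tol W Q) (hR : Rs' ≤ Rs) (hM : RM' ≤ RM)
    (ht : ∀ J, tol J ≤ tol' J) : WNw K γ R1 Rs' RM' rm tol' W Q where
  a0 := h.a0
  str := by
    obtain ⟨J, r, ν, κ, hs⟩ := h.str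
    exact ⟨J, r, ν, κ, str_mono hs hR (ht J) h.a0⟩
  mg := mg_mono h.mg le_rfl hM h.a0 le_rfl

/-- change of the radius of the Newton field -/
def cRN (W : Wld d E) (RN : ℝ) : Wld d E := { W with X := { W.X with RN := RN } }

lemma cRN_gam (W : Wld d E) (RN : ℝ) {Q : Cell d} (h : W.kd Q = 0) :
    (cRN W RN).gam Q = W.gam Q := by
  unfold Wld.gam Gam cRN
  simp [h]

lemma cRN_val (W : Wld d E) (RN : ℝ) {Q : Cell d} (h : W.kd Q = 0) :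
    (cRN W RN).val Q = W.val Q := by
  have h1 := cRN_gam W RN h
  unfold Wld.val
  rw [h1]
  rfl

lemma cRN_flx (W : Wld d E) (RN : ℝ) {k : ℕ} (h : k = 0) (χ χ' β : Sp d → ℝ)
    (μ : Measure (Sp d)) (m : Sp d → ℝ) (n : Sp d) :
    flx (cRN W RN).X k χ χ' β μ m n = flx W.X k χ χ' β μ m n := by
  unfold flx cRN
  simp [h]

lemma cRN_nt1 (W : Wld d E) (RN : ℝ) {Q : Cell d} (h : W.kd Q = 0)
    (h' : ∀ Q' ∈ adj Q, W.kd Q' = 0) : (cRN W RN).nt1 Q = W.nt1 Q := by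
  have h1 := cRN_gam W RN h
  unfold Wld.gam at h1
  unfold Wld.nt1 net
  have h2 : Vct (cRN W RN).X (cRN W RN).s0 (cRN W RN).μ (cRN W RN).f (cRN W RN).e
      (cRN W RN).kd (cRN W RN).nv Q = Vct W.X W.s0 W.μ W.f W.e W.kd W.nv Q := by
    unfold Vct cRN
    rfl
  rw [h1, h2]
  have h3 : ∑ Q' ∈ adj Q, Fct (cRN W RN).X (cRN W RN).s0 (cRN W RN).μ (cRN W RN).f
      (cRN W RN).e (cRN W RN).kd (cRN W RN).nv Q Q' =
      ∑ Q' ∈ adj Q, Fct W.X W.s0 W.μ W.f W.e W.kd W.nv Q Q' := by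
    refine Finset.sum_congr rfl fun Q' hQ' => ?_
    unfold Fct
    have h4 := cRN_flx W RN h
    have h5 := cRN_flx W RN (h' Q' hQ')
    rw [show (cRN W RN).kd = W.kd from rfl, h4, h5]
    rfl
  rw [h3]
  rfl

lemma cRN_sV (W : Wld d E) (RN R0 : ℝ) (JA : ℕ) {Q : Cell d}
    (h : ∀ Q' ∈ W.ns R0 JA Q, W.kd Q' = 0) : (cRN W RN).sV R0 JA Q = W.sV R0 JA Q := by
  unfold Wld.sV
  refine Finset.sum_congr rfl fun Q' hQ' => ?_
  rw [cRN_val W RN (h Q' hQ')]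
  rfl

lemma cRN_wok {JA : ℕ} {C' R0 Rz RN : ℝ} {X : Prm d} {W : Wld d E}
    (h : WOK JA C' R0 Rz { X with RN := RN } W) : WOK JA C' R0 Rz X (cRN W X.RN) where
  X_eq := by
    unfold cRN
    rw [h.X_eq]
  s0_pos := h.s0_pos
  gro := h.gro
  fc := h.fc
  fs := h.fs
  eu := h.eu
  nu := h.nu
  ab0 := h.ab0
  D0 := h.D0
  zp := h.zp
  dir := h.dir

lemma cRN_ash {J JA : ℕ} {R0 κ Kc : ℝ} {W : Wld d E} {Q : Cell d}
    (h : Ash J JA R0 κ Kc W Q) (RN : ℝ) : Ash J JA R0 κ Kc (cRN W RN) Q := by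
  refine ⟨h.1, ⟨h.2.1.sh, h.2.1.bl, h.2.1.loc, h.2.1.dl0, h.2.1.small, h.2.1.smalld⟩, ?_⟩
  intro Q' hQ'
  obtain ⟨h1, h2, h3⟩ := h.2.2 Q' hQ'
  exact ⟨h1, ⟨h2.sh, h2.bl, h2.loc, h2.dl0, h2.small, h2.smalld⟩, h3⟩

end

end LW

end TG
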