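import Pool.Agent.TG.LWa

/-!
# Module LW, part b: all local inequalities with common constants   (helper46)
-/

open MeasureTheory Metric Set TrI
open scoped InnerProductSpace ContDiff ENNReal

namespace TG

namespace LW

noncomputable section

variable {d : ℕ} {E : Type} [NormedAddCommGroup E] [InnerProductSpace ℝ E]

lemma ash_mono {J JA : ℕ} {R0 κ κ' Kc : ℝ} {W : Wld d E} {Q : Cell d}
    (h : Ash J JA R0 κ Kc W Q) (hκ : κ ≤ κ') : Ash J JA R0 κ' Kc W Q :=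
  ⟨h.1, wsh_mono h.2.1 hκ, fun Q' hQ' => ⟨(h.2.2 Q' hQ').1, wsh_mono (h.2.2 Q' hQ').2.1 hκ,
    (h.2.2 Q' hQ').2.2⟩⟩

/-- the local inequalities with common constants -/
structure CW (J JA rm : ℕ) (R0 κ Kc Cu c1 η CK δ Cb K γ R1 Rs RM C3 Ct R2 : ℝ) (tol : ℕ → ℝ)
    (W : Wld d E) : Prop where
  w1 : ∀ Q : Cell d, ¬ W.Near Q →
    W.w Q * W.val Q ≤ W.nt1 Q + Cb * (W.w Q * W.v Q) * W.D Q
  w2 : ∀ Q : Cell d, 2 ≤ Q.1 → W.Near Q → Ash J JA R0 κ Kc W Q →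
    c1 * (W.w Q * W.val Q) ≤ W.nt1 Q + η * W.sV R0 JA Q +
      CK * (W.w Q * W.v Q) * (W.sE R0 JA Q + W.sD R0 JA Q)
  w3 : ∀ Q : Cell d, W.Near Q → W.kd Q = 1 → WNw K γ R1 Rs RM rm tol W Q →
    (∀ Q' ∈ adj Q, W.Near Q' → W.kd Q' = 1) →
    W.w Q * W.val Q ≤ W.nt1 Q + δ * (W.w Q * W.v Q) * W.a Q + Cb * (W.w Q * W.v Q) * W.D Q
  w4 : ∀ Q : Cell d, W.Near Q → (W.kd Q = 0 → |W.sv Q| ≤ 32 * R0 + 4) →
    (∀ Q' ∈ adj Q, W.kd Q' = 0 ∨ W.kd Q' = 1) →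
    (∀ Q' ∈ adj Q, 0 ≤ W.a Q') →
    (∀ Q' ∈ adj Q, W.kd Q' = 1 → WNw K γ R1 Rs RM rm tol W Q') →
    ∀ EI : Cell d → ℝ, (∀ Q' ∈ adj Q, W.kd Q' = 0 → 0 ≤ EI Q' ∧ WSh J R0 κ W Q' ∧
      WIf J W Q' (EI Q') ∧ 0 ≤ W.a Q' ∧ MG K γ RM (W.a Q') (W.D Q') (W.m Q') ∧
      (W.kd Q = 0 → W.ab Q' ≤ Kc * W.ab Q)) →
    c1 * (W.w Q * W.val Q) ≤ W.nt1 Q +
      CK * (W.w Q * W.v Q) * (∑ Q' ∈ (adj Q).filter (fun Q' => W.kd Q' = 0),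
        (W.er Q' + W.dl Q' + EI Q')) +
      δ * (W.w Q * W.v Q) * (∑ Q' ∈ adj Q, W.a Q') +
      Cb * (W.w Q * W.v Q) * ∑ Q' ∈ adj Q, W.D Q'
  w5 : ∀ Q : Cell d, W.Near Q → (W.kd Q = 0 → WSh J R0 κ W Q) →
    (∀ Q' ∈ adj Q, W.kd Q' = 1 → WNw K γ R1 Rs RM rm tol W Q') →
    ∀ al : ℝ, 0 ≤ al → (∀ (ζ : Sp d → ℝ) (N : ℝ), TFn 2 N ζ →
      (∀ y, (d : ℝ) + 3 ≤ ‖y‖ → ζ y = 0) → |∫ y, W.m Q y * ζ y| ≤ N * al) →
    W.w Q * W.val Q ≤ W.nt1 Q + Cu * (W.w Q * W.v Q) * al +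
      δ * (W.w Q * W.v Q) * (∑ Q' ∈ (adj Q).filter (fun Q' => W.kd Q' = 1), W.a Q') +
      Cb * (W.w Q * W.v Q) * ∑ Q' ∈ adj Q, W.D Q'
  wA6 : ∀ Q : Cell d, Ash J JA R0 κ Kc W Q →
    W.w Q * W.v Q * bq R0 (W.m Q) ≤
      Cu * W.sV R0 JA Q + CK * (W.w Q * W.v Q) * (W.sE R0 JA Q + W.sD R0 JA Q)
  wA7 : ∀ P : Cell d, 2 ≤ P.1 → Ash J JA R0 κ Kc W P →
    ∀ (at1 DT : ℝ) (n : Sp d) (s : ℝ), 0 ≤ at1 → 0 ≤ DT → ‖n‖ = 1 → |s| ≤ R2 →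
    at1 ≤ C3 * (∫ y, W.m P y * zR Ct y) + DT →
    W.w P * (at1 * Mo (W.mu P) n s 2 1 0) ≤ Cu * W.sV R0 JA P +
      Cu * (W.w P * W.v P) * max 0 (blc n s (W.m P) R0) +
      CK * (W.w P * W.v P) * (W.sE R0 JA P + W.sD R0 JA P + DT)
  wB6 : ∀ Q : Cell d,
    (∀ Q' ∈ W.ns R0 JA Q, Q'.1 = Q.1 → W.kd Q' = 1 ∧ WNw K γ R1 Rs RM rm tol W Q') →
    ∀ mass : ℝ, 0 ≤ mass → ((∃ Q' ∈ W.ns R0 JA Q, Q'.1 = Q.1 ∧ W.Near Q') →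
      (∑ Q' ∈ (W.ns R0 JA Q).filter (fun Q' => Q'.1 = Q.1), W.a Q') ≤ mass) →
    W.w Q * W.v Q * bq R0 (W.m Q) ≤ Cu * W.sV R0 JA Q +
      δ * (W.w Q * W.v Q) * mass + Cb * (W.w Q * W.v Q) * W.sD R0 JA Q ∧
    ∀ (at1 DT : ℝ) (n : Sp d) (s : ℝ), 0 ≤ at1 → 0 ≤ DT → ‖n‖ = 1 → |s| ≤ R2 →
    at1 ≤ C3 * (∫ y, W.m Q y * zR Ct y) + DT →
    W.w Q * (at1 * Mo (W.mu Q) n s 2 1 0) ≤ Cu * W.sV R0 JA Q +
      Cu * (W.w Q * W.v Q) * max 0 (blc n s (W.m Q) R0) +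
      δ * (W.w Q * W.v Q) * mass + Cb * (W.w Q * W.v Q) * (W.sD R0 JA Q + DT)

lemma m3 {C C' x y : ℝ} (h : C ≤ C') (h' : 0 ≤ x * y) : C * x * y ≤ C' * x * y := by
  rw [mul_assoc C, mul_assoc C']
  exact mul_le_mul_of_nonneg_right h h'

omit [NormedAddCommGroup E] [InnerProductSpace ℝ E] in
lemma cRN_Near (W : Wld d E) (RN : ℝ) (Q : Cell d) : (cRN W RN).Near Q ↔ W.Near Q := Iff.rfl

omit [NormedAddCommGroup E] [InnerProductSpace ℝ E] in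
lemma cRN_sE (W : Wld d E) (RN R0 : ℝ) (JA : ℕ) (Q : Cell d) :
    (cRN W RN).sE R0 JA Q = W.sE R0 JA Q := rfl

omit [NormedAddCommGroup E] [InnerProductSpace ℝ E] in
lemma w_nn (W : Wld d E) (hs : 0 < W.s0) (Q : Cell d) : 0 ≤ W.w Q := by
  unfold Wld.w cw
  exact pow_nonneg (FR.lev_pos hs _).le _

lemma self_ns (hNS : StmtNS) (hd : 1 ≤ d) {s0 r : ℝ} (hs : 0 < s0) (hr : 0 ≤ r) (JA : ℕ)
    (Q : Cell d) : Q ∈ nst s0 r JA Q := by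
  refine ((hNS d hd s0 r hs hr JA Q).1 Q).2 ⟨0, Nat.zero_le _, rfl, ?_⟩
  rw [sub_self, norm_zero]
  exact mul_nonneg hr (FR.lev_pos hs _).le

lemma adj_ns (hNS : StmtNS) (hd : 1 ≤ d) {s0 r : ℝ} (hs : 0 < s0) (hr : Real.sqrt d ≤ r)
    (JA : ℕ) (Q : Cell d) : adj Q ⊆ nst s0 r JA Q :=
  (hNS d hd s0 r hs ((Real.sqrt_nonneg _).trans hr) JA Q).2.2.2.2.2.2.2 hr

theorem comb (hW1 : StmtW1) (hW2 : StmtW2) (hW3 : StmtW3) (hW4 : StmtW4) (hW5 : StmtW5)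
    (hWA6 : StmtWA6) (hWA7 : StmtWA7) (hWB6 : StmtWB6) (hNS : StmtNS) {d J JA : ℕ} (hd : 2 ≤ d)
    {M c0 C' c R0 : ℝ} {X0 : Prm d} (hX : XOK J JA M c0 C' c R0 X0) (hRN1 : X0.RN = 1)
    {C3 Ct R2 : ℝ} (hC3 : 0 < C3) (hCt : 1 ≤ Ct) (hCt8 : 8 * Ct ≤ R0) (hR2 : 0 < R2) :
    ∃ (Cu c1 : ℝ), 1 ≤ Cu ∧ 0 < c1 ∧ ∀ (η Kc : ℝ), 0 < η → 1 ≤ Kc →
    ∃ (κ CK : ℝ), 0 < κ ∧ κ ≤ 1 ∧ 0 < CK ∧
    ∀ (K γ δ : ℝ), 0 < K → 0 < γ → γ ≤ 1 / (8 * d) → 0 < δ → ∃ RN0 : ℝ, 1 ≤ RN0 ∧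
    ∀ RN : ℝ, RN0 ≤ RN → ∃ (Rs RM : ℝ) (tol : ℕ → ℝ), (∀ J, 0 < tol J) ∧ 1 ≤ Rs ∧
    ∀ (R1 : ℝ) (rm : ℕ), ∃ (Cb Rz : ℝ), 0 < Cb ∧
    ∀ (E : Type) [NormedAddCommGroup E] [InnerProductSpace ℝ E] [FiniteDimensional ℝ E]
      (W : Wld d E), WOK JA C' R0 Rz { X0 with RN := RN } W → (∀ Q, 0 ≤ W.val Q) →
      (∀ Q, 0 ≤ W.v Q) →
      CW J JA rm R0 κ Kc Cu c1 η CK δ Cb K γ R1 Rs RM C3 Ct R2 tol W := by
  have hd1 : 1 ≤ d := by omega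
  have hdR : (1 : ℝ) ≤ d := by exact_mod_cast hd1
  have hR0 : 0 < R0 := by
    have := hX.R0_ge
    have := hX.prm.A_ge
    linarith
  obtain ⟨c2, hc2, g2⟩ := hW2 d J JA hd M c0 C' c R0 X0 hX
  obtain ⟨c4, hc4, g4⟩ := hW4 d J JA hd M c0 C' c R0 X0 hX
  obtain ⟨κ5, C5, hκ5, hC5, g5⟩ := hW5 d J JA hd M c0 C' c R0 X0 hX
  obtain ⟨C6, hC6, g6⟩ := hWA6 d J JA hd M c0 C' c R0 X0 hX
  obtain ⟨C7, hC7, g7⟩ := hWA7 d J JA hd M c0 C' c R0 X0 hX C3 Ct R2 hC3 hCt hCt8 hR2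
  obtain ⟨C8, hC8, g8⟩ := hWB6 d J JA hd M c0 C' c R0 X0 hX C3 Ct R2 hC3 hCt hCt8 hR2
  refine ⟨1 + C5 + C6 + C7 + C8, min c2 c4, by linarith, lt_min hc2 hc4, ?_⟩
  intro η Kc hη hKc
  obtain ⟨κ2, CK2, Rz2, hκ2, hCK2, g2⟩ := g2 η Kc hη hKc
  obtain ⟨κ4, C4, hκ4, hC4, g4⟩ := g4 Kc hKc
  obtain ⟨κ6, CK6, Rz6, hκ6, hCK6, g6⟩ := g6 Kc hKc
  obtain ⟨κ7, CK7, Rz7, hκ7, hCK7, g7⟩ := g7 Kc hKc
  refine ⟨min 1 (min (min κ2 κ4) (min κ5 (min κ6 κ7))), CK2 + C4 + CK6 + CK7, ?_,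
    min_le_left _ _, by linarith, ?_⟩
  · exact lt_min one_pos (lt_min (lt_min hκ2 hκ4) (lt_min hκ5 (lt_min hκ6 hκ7)))
  intro K γ δ hK hγ hγ1 hδ
  obtain ⟨RN3, hRN3, g3⟩ := hW3 d J JA hd M c0 C' c R0 X0 hX K γ δ hK hγ hγ1 hδ
  obtain ⟨RN4, hRN4, g4⟩ := g4 K γ δ hK hγ hγ1 hδ
  obtain ⟨RN5, hRN5, g5⟩ := g5 K γ δ hK hγ hγ1 hδ
  obtain ⟨RN8, hRN8, g8⟩ := g8 K γ δ hK hγ hγ1 hδ
  refine ⟨max (max RN3 RN4) (max RN5 RN8), hRN3.trans ((le_max_left _ _).trans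
    (le_max_left _ _)), ?_⟩
  intro RN hRN
  obtain ⟨Rs3, RM3, tol3, ht3, hRs3, g3⟩ := g3 RN
    (((le_max_left _ _).trans (le_max_left _ _)).trans hRN)
  obtain ⟨Rs4, RM4, tol4, ht4, hRs4, g4⟩ := g4 RN
    (((le_max_right _ _).trans (le_max_left _ _)).trans hRN)
  obtain ⟨Rs5, RM5, tol5, ht5, hRs5, g5⟩ := g5 RN
    (((le_max_left _ _).trans (le_max_right _ _)).trans hRN)
  obtain ⟨Rs8, RM8, tol8, ht8, hRs8, g8⟩ := g8 RN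
    (((le_max_right _ _).trans (le_max_right _ _)).trans hRN)
  refine ⟨max (max Rs3 Rs4) (max Rs5 Rs8), max (max RM3 RM4) (max RM5 RM8),
    fun J => min (min (tol3 J) (tol4 J)) (min (tol5 J) (tol8 J)),
    fun J => lt_min (lt_min (ht3 J) (ht4 J)) (lt_min (ht5 J) (ht8 J)),
    hRs3.trans ((le_max_left _ _).trans (le_max_left _ _)), ?_⟩
  intro R1 rm
  have hX' : XOK J JA M c0 C' c R0 { X0 with RN := RN } :=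
    ⟨hX.J_ge, hX.C'_pos, ⟨hX.prm.ker, hRN3.trans (((le_max_left _ _).trans
      (le_max_left _ _)).trans hRN), hX.prm.ε_pos, hX.prm.ε_le, hX.prm.p0_pos, hX.prm.p0_le,
      hX.prm.A_ge⟩, hX.ker, hX.far, hX.R0_ge, hX.JA_ge, hX.JA_7⟩
  obtain ⟨Cb1, Rz1, hCb1, g1⟩ := hW1 d J JA hd M c0 C' c R0 _ hX'
  obtain ⟨Cb3, Rz3, hCb3, g3⟩ := g3 R1 rm
  obtain ⟨Cb4, Rz4, hCb4, g4⟩ := g4 R1 rm
  obtain ⟨Cb5, Rz5, hCb5, g5⟩ := g5 R1 rm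
  obtain ⟨Cb8, Rz8, hCb8, g8⟩ := g8 R1 rm
  refine ⟨Cb1 + Cb3 + Cb4 + Cb5 + Cb8,
    max (max (max Rz1 Rz2) (max Rz3 Rz4)) (max (max Rz5 Rz6) (max Rz7 Rz8)), by linarith, ?_⟩
  intro E _ _ _ W hW hval hv
  have hz1 := wok_mono hW (Rz' := Rz1) (by simp)
  have hz2 := wok_mono hW (Rz' := Rz2) (by simp)
  have hz3 := wok_mono hW (Rz' := Rz3) (by simp)
  have hz4 := wok_mono hW (Rz' := Rz4) (by simp)
  have hz5 := wok_mono hW (Rz' := Rz5) (by simp)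
  have hz6 := wok_mono hW (Rz' := Rz6) (by simp)
  have hz7 := wok_mono hW (Rz' := Rz7) (by simp)
  have hz8 := wok_mono hW (Rz' := Rz8) (by simp)
  have hw : ∀ Q, 0 ≤ W.w Q := w_nn W hW.s0_pos
  have hwv : ∀ Q, 0 ≤ W.w Q * W.v Q := fun Q => mul_nonneg (hw Q) (hv Q)
  have hD := hW.D0
  have hsV : ∀ Q, 0 ≤ W.sV R0 JA Q := fun Q =>
    Finset.sum_nonneg fun Q' _ => mul_nonneg (hw Q') (hval Q')
  have hsD : ∀ Q, 0 ≤ W.sD R0 JA Q := fun Q => Finset.sum_nonneg fun Q' _ => hD Q'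
  have hwval : ∀ Q, 0 ≤ W.w Q * W.val Q := fun Q => mul_nonneg (hw Q) (hval Q)
  set κ := min 1 (min (min κ2 κ4) (min κ5 (min κ6 κ7))) with hκ
  have hκ2' : κ ≤ κ2 := by simp [hκ]
  have hκ4' : κ ≤ κ4 := by simp [hκ]
  have hκ5' : κ ≤ κ5 := by simp [hκ]
  have hκ6' : κ ≤ κ6 := by simp [hκ]
  have hκ7' : κ ≤ κ7 := by simp [hκ]
  have hself : ∀ Q, Q ∈ W.ns R0 JA Q := fun Q =>
    self_ns hNS hd1 hW.s0_pos (by linarith) JA Q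
  have hsd : Real.sqrt d ≤ 3 * R0 := by
    have h1 : Real.sqrt d ≤ d := by
      rw [Real.sqrt_le_left (by linarith)]
      nlinarith
    have := hX.R0_ge
    have := hX.prm.A_ge
    linarith
  have hadj : ∀ Q, adj Q ⊆ W.ns R0 JA Q := fun Q =>
    adj_ns hNS hd1 hW.s0_pos hsd JA Q
  have hsE : ∀ Q, Ash J JA R0 κ Kc W Q → 0 ≤ W.sE R0 JA Q := by
    intro Q hQ
    unfold Wld.sE
    split_ifs with h
    · refine Finset.sum_nonneg fun Q' hQ' => ?_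
      have h1 := (hQ.2.2 Q' hQ').2.1
      exact add_nonneg (div_nonneg (sq_nonneg _) h1.sh.ab0.le) h1.dl0
    · exact le_rfl
  -- worlds with RN = 1
  have hkd : ∀ Q, Ash J JA R0 κ Kc W Q → ∀ Q' ∈ W.ns R0 JA Q, W.kd Q' = 0 :=
    fun Q hQ Q' hQ' => (hQ.2.2 Q' hQ').1
  refine ⟨?_, ?_, ?_, ?_, ?_, ?_, ?_, ?_⟩
  · -- w1
    intro Q hQ
    have h1 := (g1 E W hz1 Q hQ).2.2.2.1
    have h2 := mul_nonneg (hwv Q) (hD Q)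
    have h3 : Cb1 * (W.w Q * W.v Q) * W.D Q ≤
        (Cb1 + Cb3 + Cb4 + Cb5 + Cb8) * (W.w Q * W.v Q) * W.D Q := 
      m3 (by linarith) h2
    linarith
  · -- w2
    intro Q hQ2 hN hA
    have hk := hkd Q hA
    have h1 := g2 E (cRN W X0.RN) (cRN_wok hz2) Q hQ2 hN (cRN_ash (ash_mono hA hκ2') _)
    rw [cRN_val W _ (hk Q (hself Q)), cRN_nt1 W _ (hk Q (hself Q))
      (fun Q' hQ' => hk Q' (hadj Q hQ')), cRN_sV W _ R0 JA hk] at h1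
    have h1' : c2 * (W.w Q * W.val Q) ≤ W.nt1 Q + η * W.sV R0 JA Q +
        CK2 * (W.w Q * W.v Q) * (W.sE R0 JA Q + W.sD R0 JA Q) := h1
    have h2 : min c2 c4 * (W.w Q * W.val Q) ≤ c2 * (W.w Q * W.val Q) :=
      mul_le_mul_of_nonneg_right (min_le_left _ _) (hwval Q)
    have h3 : CK2 * (W.w Q * W.v Q) * (W.sE R0 JA Q + W.sD R0 JA Q) ≤
        (CK2 + C4 + CK6 + CK7) * (W.w Q * W.v Q) * (W.sE R0 JA Q + W.sD R0 JA Q) := 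
      m3 (by linarith) (mul_nonneg (hwv Q) (add_nonneg (hsE Q hA) (hsD Q)))
    linarith
  · -- w3
    intro Q hN hk hNw ha
    have h1 := g3 E W hz3 Q hN hk (wnw_mono hNw (by simp) (by simp) (fun J => by simp)) ha
    have h2 := mul_nonneg (hwv Q) (hD Q)
    have h3 : Cb3 * (W.w Q * W.v Q) * W.D Q ≤
        (Cb1 + Cb3 + Cb4 + Cb5 + Cb8) * (W.w Q * W.v Q) * W.D Q := 
      m3 (by linarith) h2
    linarith
  · -- w4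
    intro Q hN hs hk ha0 hNw EI hEI
    have h1 := g4 E W hz4 Q hN hs hk
      (fun Q' hQ' hk' => wnw_mono (hNw Q' hQ' hk') (by simp) (by simp) (fun J => by simp)) EI
      (fun Q' hQ' hk' => by
        obtain ⟨e1, e2, e3, e4, e5, e6⟩ := hEI Q' hQ' hk'
        exact ⟨e1, wsh_mono e2 hκ4', e3, e4, mg_mono e5 le_rfl (by simp) e4 le_rfl, e6⟩)
    have h2 : min c2 c4 * (W.w Q * W.val Q) ≤ c4 * (W.w Q * W.val Q) :=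
      mul_le_mul_of_nonneg_right (min_le_right _ _) (hwval Q)
    have h4 : 0 ≤ ∑ Q' ∈ (adj Q).filter (fun Q' => W.kd Q' = 0),
        (W.er Q' + W.dl Q' + EI Q') := by
      refine Finset.sum_nonneg fun Q' hQ' => ?_
      obtain ⟨hQ1, hQ2⟩ := Finset.mem_filter.1 hQ'
      obtain ⟨e1, e2, _⟩ := hEI Q' hQ1 hQ2
      exact add_nonneg (add_nonneg e2.sh.ep0 e2.dl0) e1
    have h3 : C4 * (W.w Q * W.v Q) * (∑ Q' ∈ (adj Q).filter (fun Q' => W.kd Q' = 0),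
        (W.er Q' + W.dl Q' + EI Q')) ≤
        (CK2 + C4 + CK6 + CK7) * (W.w Q * W.v Q) *
          (∑ Q' ∈ (adj Q).filter (fun Q' => W.kd Q' = 0), (W.er Q' + W.dl Q' + EI Q')) := 
      m3 (by linarith) (mul_nonneg (hwv Q) h4)
    have h5 : Cb4 * (W.w Q * W.v Q) * ∑ Q' ∈ adj Q, W.D Q' ≤
        (Cb1 + Cb3 + Cb4 + Cb5 + Cb8) * (W.w Q * W.v Q) * ∑ Q' ∈ adj Q, W.D Q' := 
      m3 (by linarith) (mul_nonneg (hwv Q) (Finset.sum_nonneg fun Q' _ => hD Q'))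
    linarith
  · -- w5
    intro Q hN hS hNw al hal hal2
    have h1 := g5 E W hz5 Q hN (fun h => wsh_mono (hS h) hκ5')
      (fun Q' hQ' hk' => wnw_mono (hNw Q' hQ' hk') (by simp) (by simp) (fun J => by simp))
      al hal hal2
    have h3 : C5 * (W.w Q * W.v Q) * al ≤ (1 + C5 + C6 + C7 + C8) * (W.w Q * W.v Q) * al := 
      m3 (by linarith) (mul_nonneg (hwv Q) hal)
    have h5 : Cb5 * (W.w Q * W.v Q) * ∑ Q' ∈ adj Q, W.D Q' ≤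
        (Cb1 + Cb3 + Cb4 + Cb5 + Cb8) * (W.w Q * W.v Q) * ∑ Q' ∈ adj Q, W.D Q' := 
      m3 (by linarith) (mul_nonneg (hwv Q) (Finset.sum_nonneg fun Q' _ => hD Q'))
    linarith
  · -- wA6
    intro Q hA
    have hk := hkd Q hA
    have h1 := g6 E (cRN W X0.RN) (cRN_wok hz6) Q (cRN_ash (ash_mono hA hκ6') _)
    rw [cRN_sV W _ R0 JA hk] at h1
    have h1' : W.w Q * W.v Q * bq R0 (W.m Q) ≤
        C6 * W.sV R0 JA Q + CK6 * (W.w Q * W.v Q) * (W.sE R0 JA Q + W.sD R0 JA Q) := h1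
    have h2 : C6 * W.sV R0 JA Q ≤ (1 + C5 + C6 + C7 + C8) * W.sV R0 JA Q :=
      mul_le_mul_of_nonneg_right (by linarith) (hsV Q)
    have h3 : CK6 * (W.w Q * W.v Q) * (W.sE R0 JA Q + W.sD R0 JA Q) ≤
        (CK2 + C4 + CK6 + CK7) * (W.w Q * W.v Q) * (W.sE R0 JA Q + W.sD R0 JA Q) := 
      m3 (by linarith) (mul_nonneg (hwv Q) (add_nonneg (hsE Q hA) (hsD Q)))
    linarith
  · -- wA7
    intro P hP2 hA at1 DT n s h1 h2 h3 h4 h5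
    have hk := hkd P hA
    have h6 := g7 E (cRN W X0.RN) (cRN_wok hz7) P hP2 (cRN_ash (ash_mono hA hκ7') _)
      at1 DT n s h1 h2 h3 h4 h5
    rw [cRN_sV W _ R0 JA hk] at h6
    have h6' : W.w P * (at1 * Mo (W.mu P) n s 2 1 0) ≤ C7 * W.sV R0 JA P +
        C7 * (W.w P * W.v P) * max 0 (blc n s (W.m P) R0) +
        CK7 * (W.w P * W.v P) * (W.sE R0 JA P + W.sD R0 JA P + DT) := h6
    have h7 : C7 * W.sV R0 JA P ≤ (1 + C5 + C6 + C7 + C8) * W.sV R0 JA P :=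
      mul_le_mul_of_nonneg_right (by linarith) (hsV P)
    have h8 : C7 * (W.w P * W.v P) * max 0 (blc n s (W.m P) R0) ≤
        (1 + C5 + C6 + C7 + C8) * (W.w P * W.v P) * max 0 (blc n s (W.m P) R0) := 
      m3 (by linarith) (mul_nonneg (hwv P) (le_max_left _ _))
    have h9 : CK7 * (W.w P * W.v P) * (W.sE R0 JA P + W.sD R0 JA P + DT) ≤
        (CK2 + C4 + CK6 + CK7) * (W.w P * W.v P) * (W.sE R0 JA P + W.sD R0 JA P + DT) := 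
      m3 (by linarith) (mul_nonneg (hwv P) (add_nonneg (add_nonneg (hsE P hA) (hsD P)) h2))
    linarith
  · -- wB6
    intro Q hQ mass hm hm2
    have h1 := g8 E W hz8 Q (fun Q' hQ' hl => ⟨(hQ Q' hQ' hl).1,
      wnw_mono (hQ Q' hQ' hl).2 (by simp) (by simp) (fun J => by simp)⟩) mass hm hm2
    have h7 : C8 * W.sV R0 JA Q ≤ (1 + C5 + C6 + C7 + C8) * W.sV R0 JA Q :=
      mul_le_mul_of_nonneg_right (by linarith) (hsV Q)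
    constructor
    · have h9 : Cb8 * (W.w Q * W.v Q) * W.sD R0 JA Q ≤
          (Cb1 + Cb3 + Cb4 + Cb5 + Cb8) * (W.w Q * W.v Q) * W.sD R0 JA Q := 
        m3 (by linarith) (mul_nonneg (hwv Q) (hsD Q))
      linarith [h1.1]
    · intro at1 DT n s e1 e2 e3 e4 e5
      have h6 := h1.2 at1 DT n s e1 e2 e3 e4 e5
      have h8 : C8 * (W.w Q * W.v Q) * max 0 (blc n s (W.m Q) R0) ≤
          (1 + C5 + C6 + C7 + C8) * (W.w Q * W.v Q) * max 0 (blc n s (W.m Q) R0) := 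
        m3 (by linarith) (mul_nonneg (hwv Q) (le_max_left _ _))
      have h9 : Cb8 * (W.w Q * W.v Q) * (W.sD R0 JA Q + DT) ≤
          (Cb1 + Cb3 + Cb4 + Cb5 + Cb8) * (W.w Q * W.v Q) * (W.sD R0 JA Q + DT) := 
        m3 (by linarith) (mul_nonneg (hwv Q) (add_nonneg (hsD Q) e2))
      linarith

end

end LW

end TG
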