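import Pool.Agent.TG.LW
import Pool.Agent.TG.KitMono
import Pool.Agent.TG.FR4

/-!
# Module LW: theorem stmtLW   (helper46)
-/

open MeasureTheory Metric Set TrI
open scoped InnerProductSpace ContDiff ENNReal

namespace TG

noncomputable section

theorem stmtLW (hWD : StmtWD) (hWF : StmtWF) (hLP : StmtLP) (hNS : StmtNS) (hCT8 : StmtCT8)
    (hCT3 : StmtCT3) (hW1 : StmtW1) (hW2 : StmtW2) (hW3 : StmtW3) (hW4 : StmtW4)
    (hW5 : StmtW5) (hWA6 : StmtWA6) (hWA7 : StmtWA7) (hWB6 : StmtWB6) : StmtLW := by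
  intro d V E _ _ _ _ _ _ _ L hd hL
  obtain ⟨J, hJ4, gD⟩ := hWD d V E L hd hL
  obtain ⟨Rt, hRt, gP⟩ := hLP d hd
  refine ⟨J, Rt, hRt, ?_⟩
  intro M c0 b hb C' ε p0 A c hC' hε hε4 hfar JA γ R0 hJA hJA7 hγ hγ1 hR0 hRt8
  have hd1 : 1 ≤ d := by omega
  have hdR : (2 : ℝ) ≤ d := by exact_mod_cast hd
  have hε1 : ε ≤ 1 := by linarith
  have hb2 : BaseKer 2 M c0 b := hb.mono_order (by omega)
  have hA1 : 1 ≤ A := hfar.A_ge
  have hR400 : 400 + 8 * (d : ℝ) ≤ R0 := by linarith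
  have hγ8 : γ ≤ 1 / (8 * d) := hγ1.trans (one_div_le_one_div_of_le (by positivity)
    (by linarith))
  have hγ1' : γ ≤ 1 := by
    refine hγ8.trans ?_
    rw [div_le_one (by positivity)]
    linarith
  have hX : XOK J JA M c0 C' c R0 (⟨b, 1, ε, p0, A⟩ : Prm d) :=
    ⟨hJ4, hC', ⟨hb.mono_order (by omega), le_rfl, hε, hε4, hfar.p0_pos, hfar.p0_le, hA1⟩,
      hb.mono_order (by omega), hfar, hR0, hJA, hJA7⟩
  obtain ⟨C3, R2, CP, RmP, hC3, hR2, hCP, gP⟩ := gP M c0 ε hε hε1 b hb2 R0 hR400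
  obtain ⟨Cu, c1, hCu, hc1, gW⟩ := LW.comb hW1 hW2 hW3 hW4 hW5 hWA6 hWA7 hWB6 hNS hd hX rfl
    hC3 hRt hRt8 hR2
  obtain ⟨Ca, hCa, g8⟩ := hCT8 d hd1 M c0 ε hε hε1 b hb2
  obtain ⟨_, _, g8⟩ := g8 0
  obtain ⟨_, _, g3⟩ := hCT3 d hd1
  obtain ⟨_, _, g3⟩ := g3 M c0 ε hε hε1 b hb2
  have hCu1 : 1 ≤ Cu * (1 + Ca + CP) := by nlinarith [mul_pos (by linarith : 0 < Cu) hCa,
                                            mul_pos (by linarith : 0 < Cu) hCP]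
  refine ⟨Cu * (1 + Ca + CP), c1, hCu1, hc1, ?_⟩
  intro η hη K Cr hK hCr
  obtain ⟨Kc, K', hKc, hK', gD⟩ := gD M c0 b hb C' ε p0 A hC' hε hε4 JA γ R0 hγ hγ1
    (by linarith) K Cr hK hCr
  obtain ⟨κW, CKc, hκW, hκW1, hCKc, gW⟩ := gW η Kc hη hKc
  obtain ⟨CK, κ0, hCK, hκ0, gD⟩ := gD κW hκW
  refine ⟨CK + CKc, κ0, by linarith, hκ0, ?_⟩
  intro κm δ hκm hδ
  obtain ⟨RN0, hRN0, gW⟩ := gW K' γ δ (by linarith) hγ hγ8 hδ
  obtain ⟨RN1, hRN1, gD⟩ := gD κm hκm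
  obtain ⟨Rs, RM, tol, ht, hRs, gW⟩ := gW (max RN0 RN1) (le_max_left _ _)
  obtain ⟨R1, rm, gD⟩ := gD (max RN0 RN1) (le_max_right _ _) Rs RM tol hRs ht
  obtain ⟨Cb, Rz, hCb, gW⟩ := gW R1 rm
  obtain ⟨Rm, d0, CD, Csw, r0, hd0, hd01, hCD, hCsw, hr0, gD⟩ := gD Rz
  have hCs : 0 < Csw + (Cb + CKc) * (CD + CP) + 2 * Cu * CP := by
    have hCu0 : 0 < Cu := by linarith
    positivity
  refine ⟨max RN0 RN1, max (max Rm RmP) (2 * d + 20), d0,
    Csw + (Cb + CKc) * (CD + CP) + 2 * Cu * CP, r0, hRN0.trans (le_max_left _ _), hd0, hd01,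
    hCs, hr0, ?_⟩
  intro R hR u hu μ hμ s0 hs0 e he ν cc hν κ hκm' hκ0'
  have hRm : Rm ≤ R := (le_max_left _ _).trans ((le_max_left _ _).trans hR)
  have hRmP : RmP ≤ R := (le_max_right _ _).trans ((le_max_left _ _).trans hR)
  have hRd : 2 * (d : ℝ) + 20 ≤ R := (le_max_right _ _).trans hR
  obtain ⟨W, EI, hWX, hWs, hWμ, hWf, hWe, hWa, hWDD, hG⟩ :=
    gD R hRm u hu μ hμ s0 hs0 e he ν cc hν κ hκm' hκ0'
  have hf : Continuous (fo L u) := FR4.foc L hu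
  have hcs : HasCompactSupport (fo L u) := FR4.fos L hu
  subst hWs hWμ hWe
  have hX' : XOK J JA M c0 C' c R0 (⟨b, max RN0 RN1, ε, p0, A⟩ : Prm d) :=
    ⟨hJ4, hC', ⟨hX.prm.ker, hRN0.trans (le_max_left _ _), hε, hε4, hfar.p0_pos, hfar.p0_le,
      hA1⟩, hX.ker, hfar, hR0, hJA, hJA7⟩
  have hval : ∀ Q, 0 ≤ W.val Q := fun Q => W2m.val_nonneg hX' hG.ok Q
  have hC := gW E W hG.ok hval (fun Q => Real.sqrt_nonneg _)
  have hD0 : ∀ Q, 0 ≤ dC b ε R W.s0 (fo L u) W.e Q :=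
    FN.dC_nonneg b ε R hs0 _ he.unit
  have hmC0 : ∀ (r : ℝ) (Q : Cell d), 0 ≤ mC b ε r W.s0 (fo L u) Q := by
    intro r Q
    simp only [mC, ma]
    have := FR.lev_pos hs0 Q.1
    exact mul_nonneg (by positivity) (integral_nonneg fun y => norm_nonneg _)
  have hmT0 : ∀ Q : Cell d, 0 ≤ mT b ε W.s0 (fo L u) Q := by
    intro Q
    have h1 := FR.lev_pos hs0 Q.1
    unfold mT nw
    exact mul_nonneg (by positivity) (integral_nonneg fun y => by positivity)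
  have hloc := LW.cases (d := d) (R := R) (J := J) (JA := JA) (ν := ν) (c := cc)
    (al := mC b ε (R0 + 3) W.s0 (fo L u)) (TGf := tG b ε W.s0 (fo L u))
    (at' := mT b ε W.s0 (fo L u)) (CP := CP) (Ca := Ca)
    (Cu' := Cu * (1 + Ca + CP)) (CK' := CK + CKc)
    (Cs' := Csw + (Cb + CKc) * (CD + CP) + 2 * Cu * CP)
    hNS hd hG hC hval (by linarith) (by
      have h1 : Real.sqrt d ≤ d := by
        rw [Real.sqrt_le_left (by linarith)]
        nlinarith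
      linarith) hr0 hCu hCD hCP hCa hCKc hCK hCsw hCb hCr (hκm.trans_le hκm') hWa hD0
    (fun Q => le_max_left _ _) hmT0 (hmC0 _) (FR4.sh_nonneg hD0)
    (FR4.sh_nonneg fun Q => le_max_left _ _)
    ((g3 E (fo L u) hf hcs W.s0 hs0).1) hWDD
    (by
      intro Q ζ N hζ hs
      have h1 := (g8 E R (by linarith) (by norm_num; linarith) (fo L u) hf hcs W.s0 hs0 W.e
        he).2.2.2 Q ((d : ℝ) + 3) ζ N (by positivity) (by linarith) hζ hs
      have hN : 0 ≤ N := LW.TFn0 hζ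
      have h2 : W.m Q = mQ W.s0 (fo L u) (W.e Q) Q := by
        unfold Wld.m
        rw [hWf]
      rw [h2]
      refine h1.trans ?_
      have h3 := FR4.mC_mono hb2 ε hf hcs hs0 (r := (d : ℝ) + 3 + 2) (R := R0 + 3)
        (by linarith) Q
      have h4 : Ca * N * (mC b ε ((d : ℝ) + 3 + 2) W.s0 (fo L u) Q +
          dC b ε R W.s0 (fo L u) W.e Q) ≤ Ca * N * (mC b ε (R0 + 3) W.s0 (fo L u) Q +
          dC b ε R W.s0 (fo L u) W.e Q) :=
        mul_le_mul_of_nonneg_left (by linarith) (mul_nonneg hCa.le hN)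
      refine h4.trans (le_of_eq (by ring)))
    (by
      intro Q
      have h2 : W.m Q = mQ W.s0 (fo L u) (W.e Q) Q := by
        unfold Wld.m
        rw [hWf]
      rw [h2]
      exact FN.bC_le_bq hd1 hs0 (by linarith) hν Q)
    (by
      intro P hT
      have h2 : W.m P = mQ W.s0 (fo L u) (W.e P) P := by
        unfold Wld.m
        rw [hWf]
      rw [h2]
      obtain ⟨_, _, p1, p2, p3, p4⟩ := gP E R hRmP (fo L u) hf hcs W.s0 hs0 W.e he ν cc hν γ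
        hγ1' P hT
      exact ⟨p1, p2, p3, p4⟩)
    le_rfl le_rfl le_rfl
  refine ⟨W.kd, W.nv, W.val, fun Q => W.er Q + W.dl Q + EI Q,
    fun Q => W.er Q ^ 2 / W.ab Q + W.dl Q, fun Q _ => hG.ok.nu Q, ?_, ?_⟩
  · refine hWF d hd M c0 C' (64 * R0) (Kc + (64 * R0 + 4)) hC' (by linarith) _ hX'.prm E W hWX hs0
      hμ hG.ok.fc hG.ok.fs hG.ok.eu hG.ok.nu hG.ok.ab0 ?_
    intro Q hk
    obtain ⟨e1, e2⟩ := (hG.kd0 Q).1 hk
    have h1 := hG.a_pos Q e1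
    have h2 := hG.ab_le Q e1 e2
    have h3 := (hG.she Q e1 e2).loc
    rw [hWa] at h1 h2
    rw [hWf]
    refine ⟨h1, h2.trans ?_, h3.trans (by linarith)⟩
    exact mul_le_mul_of_nonneg_right (by linarith) h1.le
  · have e1 : net2 (⟨b, max RN0 RN1, ε, p0, A⟩ : Prm d) W.s0 W.μ (fo L u) W.e W.kd W.nv =
        fun Q => if 2 ≤ Q.1 then W.nt1 Q else 0 := by
      funext Q
      unfold net2 Wld.nt1
      rw [hWX, hWf]
    have e2 : NrC p0 A W.s0 W.μ = {Q | W.Near Q} := by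
      ext Q
      unfold NrC Wld.Near
      rw [hWX]
      rfl
    rw [e1, e2]
    exact hloc

end

end TG
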