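import Pool.Agent.TG.MLc

/-!
# MODULE ML: sheets at many levels (helper25)

The sheets are constructed with the radius ρ = R0 + 10 (ρ = R0 if I = 0), so that the planes of two
consecutive levels meet the common ball well inside, see StmtGS.
-/

open MeasureTheory Metric Set TrI
open scoped InnerProductSpace ContDiff

namespace TG

namespace ML

noncomputable section

set_option linter.unusedSectionVars false

lemma ZP_mono {d : ℕ} {R D : ℝ} {m : Sp d → ℝ} (h : ZP R D m) {R' D' : ℝ} (hR : R' ≤ R)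
    (hD : D ≤ D') : ZP R' D' m := fun H h1 h2 h3 h4 h5 => by
  have := h H h1 h2 h3 h4 (fun y hy => h5 y (hR.trans hy))
  linarith

lemma mo_eq {d : ℕ} {E : Type} [NormedAddCommGroup E] [InnerProductSpace ℝ E] (f : Sp d → E)
    (x : ℕ → Sp d) (e : E) (l : ℕ) :
    mo f x e l = fun y => 2 ^ l * ⟪f (x l + (2 : ℝ) ^ l • y), e⟫_ℝ := by
  funext y
  unfold mo rs
  rw [real_inner_smul_left]

lemma mo_next {d : ℕ} {E : Type} [NormedAddCommGroup E] [InnerProductSpace ℝ E]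
    [FiniteDimensional ℝ E] (f : Sp d → E) (x : ℕ → Sp d) (e : E) (l : ℕ) :
    mo f x e (l + 1) = fun y => 2 ^ 1 * mo f x e l (xf x l 1 + (2 : ℝ) ^ 1 • y) := by
  funext y
  unfold mo
  rw [← rs_fr f x l 1]
  conv_lhs => unfold rs
  rw [real_inner_smul_left]
  rfl

lemma mo_cont {d : ℕ} {E : Type} [NormedAddCommGroup E] [InnerProductSpace ℝ E] {f : Sp d → E}
    (hf : Continuous f) (x : ℕ → Sp d) (e : E) (l : ℕ) : Continuous (mo f x e l) := by
  unfold mo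
  exact (rs_cont hf _ _).inner continuous_const

/-- the sheets of all levels, with the radius ρ -/
theorem fam (hCM : StmtCM) (hMP : StmtMP) (hSAF : StmtSAF) (hZ : StmtZ) (hMA : StmtMA)
    (hDI : StmtDI) (hSC : StmtSC)
    (d : ℕ) (V E : Type) [NormedAddCommGroup V] [InnerProductSpace ℝ V] [FiniteDimensional ℝ V]
    [NormedAddCommGroup E] [InnerProductSpace ℝ E] [FiniteDimensional ℝ E]
    (L : (Sp d →L[ℝ] V) →L[ℝ] E) (hd : 2 ≤ d) (hL : CEll L) : ∃ J : ℕ,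
    ∀ (M c0 ε : ℝ), 0 < ε → ε ≤ 1 → ∀ (b : Sp d → ℝ), BaseKer 2 M c0 b →
    ∀ (R0 γ K : ℝ), 200 + 8 * d ≤ R0 → 0 < γ → γ ≤ 1 / (32 * d) → 1 ≤ K →
    ∀ ρ : ℝ, R0 ≤ ρ → ρ ≤ R0 + 10 →
    ∃ (C κ : ℝ), 0 < C ∧ 0 < κ ∧ ∀ I : ℕ, ∃ C1 : ℝ, 0 < C1 ∧
      ∀ (R : ℝ), 4 * ρ + 10 ≤ R → 2 ^ (I + 2) * R0 + 10 ≤ R → ∀ (n : ℕ) (u : Sp d → V), TF u →
      ∀ (x : ℕ → Sp d) (e : ℕ → E), Tower x e →
      ∀ a : ℝ, 0 < a → a = ma b ε R0 ((1 / 2) ^ n) (fo L u) n 0 →
      (∀ r : ℕ, ma b ε R0 ((1 / 2) ^ n) (fo L u) (n + r) (x r) ≤ K * (2 : ℝ) ^ (γ * r) * a) →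
      ∀ (νs : ℕ → Sp d) (cs : ℕ → ℝ) (B D : ℝ), (∀ r, ‖νs r‖ = 1) →
        (∀ r, |ht (νs r) (cs r) (x r)| ≤ 4 * R0 * 2 ^ r) → pw (3 / 5) I * B ≤ κ * a →
        (∀ I : ℕ, ∑ r ∈ Finset.range I, wq (1 / 4) r *
          bD b ε R0 R ((1 / 2) ^ n) (fo L u) (n + r) (x r) (e r) (νs r) (cs r) ≤ B) →
        (∀ I : ℕ, ∑ r ∈ Finset.range I, wq (1 / 4) r *
          DD b ε R ((1 / 2) ^ n) (fo L u) (n + r) (x r) (e r) ≤ D) →
        0 ≤ B ∧ 0 ≤ D ∧
        ∃ (ν0 : Sp d) (ν : ℕ → Sp d) (c ab : ℕ → ℝ), (∀ l, ‖ν l‖ = 1) ∧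
          ∀ l ≤ I, ‖ν l - ν0‖ ≤ 1 / 4 ∧ |c l| ≤ R0 + 4 ∧
            a ≤ C * ab l ∧ ab l ≤ C * pw (1 / 8) l * a ∧
            max 0 (blc (ν l) (c l) (mo (fo L u) x (e 0) l) ρ) ≤ C * pw (3 / 4) l * B + C1 * D ∧
            max 0 (blc (ν l) (c l) (mo (fo L u) x (e 0) l) R0) ≤
              C * pw (3 / 4) l * B + C1 * D ∧
            Sheet J ρ (ab l) (C * pw (3 / 4) l * (B + Real.sqrt (a * D)))
              (C1 * D) (mo (fo L u) x (e 0) l) (ν l) (c l) ∧
            ZP (ρ + 1) (C1 * D) (mo (fo L u) x (e 0) l) := by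
  obtain ⟨J, hJ⟩ := core hSAF hZ hMA hDI hSC d V E L hd hL
  refine ⟨J, ?_⟩
  intro M c0 ε hε hε1 b hb R0 γ K hR0 hγ0 hγ hK ρ hρ hρ'
  have hd1 : (2 : ℝ) ≤ d := by exact_mod_cast hd
  have hγ16 : γ ≤ 1 / (16 * d) := by
    refine hγ.trans ?_
    exact one_div_le_one_div_of_le (by positivity) (by linarith)
  have hγ64 : γ ≤ 1 / 64 := by
    refine hγ.trans ?_
    exact one_div_le_one_div_of_le (by positivity) (by linarith)
  obtain ⟨CC, hCC, HCM⟩ := hCM d V E L hd hL M c0 ε hε hε1 b hb R0 γ K hR0 hγ0 hγ16 hK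
  obtain ⟨CP0, κM, hCP0, hκM, HMP⟩ := hMP d V E L hd hL M c0 ε hε hε1 b hb R0 γ K 1 hR0 hγ0 hγ16
    hK one_pos
  obtain ⟨CP, hCP⟩ : ∃ CP : ℝ, CP = 1 + CP0 := ⟨_, rfl⟩
  have hCP1 : 1 ≤ CP := by linarith
  obtain ⟨C, κc, hC, hκc, HC⟩ := hJ M c0 ε hε hε1 b hb R0 ρ γ K CP hR0 hρ hρ' hγ0 hγ64 hK hCP1
  obtain ⟨Ct, hCt, HT⟩ := transfer d (R := ρ) (by linarith)
  obtain ⟨Cr, hCr, HR⟩ := blc_rad d (R := R0) (R' := ρ) (by linarith) hρ
  refine ⟨C * (1 + CC), min (κM / (4 * CC)) (κc / CC), by positivity, by positivity, ?_⟩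
  intro I
  obtain ⟨Cd, hCd, HD⟩ := dirn hZ hDI (by omega : 1 ≤ d) hε hε1 hb (R0 := R0) (by linarith) I
  obtain ⟨C1, hC1⟩ : ∃ C1 : ℝ, C1 = C * 2 ^ I + Ct * Cd + Cr * Cd + Cd := ⟨_, rfl⟩
  have d1 : 0 < C * 2 ^ I := by positivity
  have d2 : 0 < Ct * Cd := by positivity
  have d3 : 0 < Cr * Cd := by positivity
  refine ⟨C1, by linarith, ?_⟩
  intro R hR hR2 n u hu x e hT a ha haa hma νs cs B D hνs hcs hsm hB hD
  have hs0 : (0 : ℝ) < (1 / 2) ^ n := by positivity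
  have hB0 : 0 ≤ B := by simpa using hB 0
  have hD0 : 0 ≤ D := by simpa using hD 0
  refine ⟨hB0, hD0, ?_⟩
  have hf : Continuous (fo L u) := CM.fo_cont hu
  have hfc : HasCompactSupport (fo L u) := CM.fo_cs hu
  have hDDn : ∀ j, 0 ≤ DD b ε R ((1 / 2) ^ n) (fo L u) (n + j) (x j) (e j) := fun j =>
    TU.DD_nonneg b ε R hs0 _ _ _ (hT.unit j)
  obtain ⟨ν0, c, hν0, hc, hsum⟩ := HCM R (by linarith) n u hu x e hT a ha haa hma νs cs B hνs hcs hB
  have hbDn : ∀ j, 0 ≤ bD b ε R0 R ((1 / 2) ^ n) (fo L u) (n + j) (x j) (e j) ν0 c := fun j =>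
    add_nonneg (le_max_left _ _) (hDDn j)
  have hbD := term_le hbDn hsum
  have hDD := term_le hDDn hD
  have hκ1 : 4 * CC * (pw (3 / 5) I * B) ≤ κM * a := by
    have k1 := hsm.trans (mul_le_mul_of_nonneg_right (min_le_left _ _) ha.le)
    have k2 := mul_le_mul_of_nonneg_left k1 (by positivity : 0 ≤ 4 * CC)
    have k3 : 4 * CC * (κM / (4 * CC) * a) = κM * a := by field_simp
    rwa [k3] at k2
  have hκ2 : CC * (pw (3 / 5) I * B) ≤ κc * a := by
    have k1 := hsm.trans (mul_le_mul_of_nonneg_right (min_le_right _ _) ha.le)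
    have k2 := mul_le_mul_of_nonneg_left k1 hCC.le
    have k3 : CC * (κc / CC * a) = κc * a := by field_simp
    rwa [k3] at k2
  have hS0 : 0 ≤ Real.sqrt (a * D) := Real.sqrt_nonneg _
  have main : ∀ l, ∃ (ν' : Sp d) (c' ab : ℝ), ‖ν'‖ = 1 ∧ (l ≤ I → (‖ν' - ν0‖ ≤ 1 / 4 ∧
      |c'| ≤ R0 + 4 ∧
      a ≤ C * (1 + CC) * ab ∧ ab ≤ C * (1 + CC) * pw (1 / 8) l * a ∧
      max 0 (blc ν' c' (mo (fo L u) x (e 0) l) ρ) ≤
        C * (1 + CC) * pw (3 / 4) l * B + C1 * D ∧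
      max 0 (blc ν' c' (mo (fo L u) x (e 0) l) R0) ≤
        C * (1 + CC) * pw (3 / 4) l * B + C1 * D ∧
      Sheet J ρ ab (C * (1 + CC) * pw (3 / 4) l * (B + Real.sqrt (a * D)))
        (C1 * D) (mo (fo L u) x (e 0) l) ν' c' ∧
      ZP (ρ + 1) (C1 * D) (mo (fo L u) x (e 0) l))) := by
    intro l
    by_cases hl : l ≤ I
    swap
    · exact ⟨ν0, 0, 0, hν0, fun h => absurd h hl⟩
    have p35 : pw (3 / 5) l ≤ pw (3 / 5) I := pw_mono (by norm_num) hl
    have p34 := pw_pos (3 / 4) l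
    have p18 := pw_pos (1 / 8) l
    have hMP2 := HMP R (by linarith) n u hu x e hT a ha haa hma ν0 c (CC * B) hν0 hc hsum (l + 2)
      (by omega) (by
        have k1 : pw (3 / 5) (l + 2) * (CC * B) ≤ 4 * CC * (pw (3 / 5) I * B) := by
          have k2 := pw_add_le (show (3 / 5 : ℝ) ≤ 1 by norm_num) l 2
          have k3 := mul_le_mul_of_nonneg_right k2 (by positivity : 0 ≤ CC * B)
          have k4 := mul_le_mul_of_nonneg_right p35 (by positivity : 0 ≤ CC * B)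
          linarith
        exact k1.trans hκ1)
    have hMi : a ≤ CP * Mi R0 (rs (x (l + 2)) (2 ^ (l + 2)) (fo L u)) (e (l + 2)) := by
      have k1 := hMP2.2
      have k2 : 0 < Mi R0 (rs (x (l + 2)) (2 ^ (l + 2)) (fo L u)) (e (l + 2)) := by
        by_contra hcon
        push Not at hcon
        have := mul_nonpos_of_nonneg_of_nonpos hCP0.le hcon
        linarith
      rw [hCP]
      linarith
    have hsm' : pw (3 / 5) l * (CC * B) ≤ κc * a := by
      have k4 := mul_le_mul_of_nonneg_right p35 (by positivity : 0 ≤ CC * B)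
      linarith
    obtain ⟨ν', c', ab, s1, s2, s3, s4, s5, s6, s7⟩ := HC R hR n u hu x e hT a (CC * B) D ha
      (by positivity) hD0 hma ν0 c hν0 hc hbD hDD l hsm' hMi
    obtain ⟨t1, t2⟩ := HD E R hR2 (fo L u) hf hfc n x e hT D hDD l hl
    obtain ⟨v1, v2⟩ := HT J ab _ _ (Cd * D) c' _ (mo (fo L u) x (e 0) l) ν' s7 (by positivity)
      (fun ζ N hζ hs => t1 ζ N hζ (fun y hy => hs y (by linarith)))
    have hab : 0 < ab := s7.ab0
    have hloc : |c'| ≤ 3 / 2 * R0 := by linarith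
    have w1 := HR (Cd * D) c' (mo (fo L u) x (e 0) l) ν' (mo_cont hf _ _ _) (by positivity) s1
      hloc (ZP_mono t2 (by linarith) le_rfl)
    have hp14 : pw (1 / 4) l ≤ 2 ^ I := by
      have k1 := pw_le (show (1 / 4 : ℝ) ≤ 1 by norm_num) l
      rw [pw_one] at k1
      exact k1.trans (pow_le_pow_right₀ (by norm_num) hl)
    have hDle : C * pw (1 / 4) l * D + Ct * (Cd * D) ≤ C1 * D := by
      have k1 := mul_le_mul_of_nonneg_left hp14 (by positivity : 0 ≤ C * D)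
      have k2 : 0 ≤ Cr * Cd * D := by positivity
      have k3 : 0 ≤ Cd * D := by positivity
      rw [hC1]
      linarith
    have hb1 : max 0 (blc ν' c' (mo (fo L u) x (e l) l) ρ) + Ct * (Cd * D) ≤
        C * (1 + CC) * pw (3 / 4) l * B + Ct * (Cd * D) := by
      have k1 : 0 ≤ C * (pw (3 / 4) l * B) := by positivity
      linarith
    have hblm := le_max_right 0 (blc ν' c' (mo (fo L u) x (e l) l) ρ)
    have k10 : 0 ≤ C * (1 + CC) * pw (3 / 4) l * B := by positivity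
    have k11 : 0 ≤ C1 * D := mul_nonneg (by linarith) hD0
    have k12 : 0 ≤ C * 2 ^ I * D := by positivity
    have k13 : 0 ≤ Ct * (Cd * D) := by positivity
    have k14 : 0 ≤ Cr * (Cd * D) := by positivity
    have k15 : 0 ≤ Cd * D := by positivity
    have hC1D : C1 * D = C * 2 ^ I * D + Ct * (Cd * D) + Cr * (Cd * D) + Cd * D := by
      rw [hC1]
      ring
    refine ⟨ν', c', ab, s1, fun _ => ⟨s2, s3, ?_, ?_, ?_, ?_, ?_, ?_⟩⟩
    · have : 0 ≤ C * CC * ab := by positivity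
      linarith
    · have : 0 ≤ C * CC * (pw (1 / 8) l * a) := by positivity
      linarith
    · refine max_le (by linarith) ?_
      linarith
    · refine max_le (by linarith) ?_
      linarith
    · refine Sheet_mono v1 ?_ hDle
      have k1 : 0 ≤ C * CC * (pw (3 / 4) l * Real.sqrt (a * D)) := by positivity
      have k2 : 0 ≤ C * (pw (3 / 4) l * B) := by positivity
      linarith
    · exact ZP_mono t2 (by linarith) (by linarith)
  choose ν' c' ab h1 h2 using main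
  exact ⟨ν0, ν', c', ab, h1, h2⟩

/-- two consecutive levels -/
theorem gs1 (hGS : StmtGS) {d : ℕ} (hd : 2 ≤ d) (J : ℕ) {R0 : ℝ} (hR0 : 200 + 8 * d ≤ R0) :
    ∃ C : ℝ, 0 < C ∧ ∀ (m m1 : Sp d → ℝ) (n n' : Sp d) (s s' ab ab' ep ep' D b1 b2 : ℝ) (x : Sp d),
      Continuous m → 0 ≤ D → (m1 = fun y => 2 ^ 1 * m (x + (2 : ℝ) ^ 1 • y)) →
      Sheet J (R0 + 10) ab ep D m n s → Sheet J (R0 + 10) ab' ep' D m1 n' s' →
      ZP (R0 + 10 + 1) D m → ZP (R0 + 10 + 1) D m1 → |s| ≤ R0 + 4 → ‖x‖ ≤ Real.sqrt d →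
      ‖n - n'‖ ≤ 1 / 2 → max 0 (blc n s m (R0 + 10)) ≤ b1 →
      max 0 (blc n' s' m1 (R0 + 10)) ≤ b2 →
      ab * ‖n - n'‖ ≤ C * (ep + ep' + b1 + b2 + D) := by
  have hd1 : (2 : ℝ) ≤ d := by exact_mod_cast hd
  have hsq : Real.sqrt d ≤ d := by
    rw [Real.sqrt_le_left (by positivity)]
    nlinarith
  obtain ⟨c0, C, hc0, hC, H⟩ := hGS d J hd (R0 + 10) 1 (by linarith)
  refine ⟨C + 1 / c0, by positivity, ?_⟩
  intro m m1 n n' s s' ab ab' ep ep' D b1 b2 x hm hD hm1 hS hS' hZ hZ' hs hx hnn hb1 hb2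
  have hab := hS.ab0
  have hep := hS.ep0
  have hep' := hS'.ep0
  have hb10 : 0 ≤ b1 := (le_max_left _ _).trans hb1
  have hb20 : 0 ≤ b2 := (le_max_left _ _).trans hb2
  obtain ⟨Er, hEr⟩ : ∃ Er : ℝ, Er = ep + ep' + b1 + b2 + D := ⟨_, rfl⟩
  have hEr0 : 0 ≤ Er := by linarith
  rw [← hEr]
  have hn := norm_nonneg (n - n')
  have k0 : 0 ≤ 1 / c0 * Er := by positivity
  have k00 : 0 ≤ C * Er := by positivity
  by_cases hcase : Er ≤ c0 * ab
  · rw [hm1] at hS' hZ' hb2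
    have hp : ‖s • n‖ = |s| := by rw [norm_smul, hS.n1, mul_one, Real.norm_eq_abs]
    obtain ⟨-, σ, hσ, h3⟩ := H m m n n' s s' ab ab' ep ep' D Er x (s • n) hm hm hD hS hS' hZ hZ'
      (fun Y _ _ _ _ => by simpa using hD) (by rw [hp]; linarith) (by
        unfold hgt
        rw [real_inner_smul_right, real_inner_self_eq_norm_sq, hS.n1]
        norm_num) (by
        have := norm_sub_le (s • n) x
        rw [hp] at this
        linarith) (by linarith) hcase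
    have h4 := abs_nonneg (s - σ * (⟪n', x⟫_ℝ + 2 ^ 1 * s'))
    have h5 : ab * ‖n - σ • n'‖ ≤ C * Er := by
      have : 0 ≤ ab * |s - σ * (⟪n', x⟫_ℝ + 2 ^ 1 * s')| := by positivity
      linarith
    have h6 : ‖n - n'‖ ≤ ‖n - σ • n'‖ := by
      rcases hσ with rfl | rfl
      · rw [one_smul]
      · have k1 : ‖n + n‖ ≤ ‖n - (-1 : ℝ) • n'‖ + ‖n - n'‖ := by
          have := norm_add_le (n - (-1 : ℝ) • n') (n - n')
          refine le_trans (le_of_eq ?_) this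
          congr 1
          module
        have k2 : ‖n + n‖ = 2 := by
          rw [← two_smul ℝ n, norm_smul, hS.n1]
          norm_num
        rw [k2] at k1
        linarith
    have h7 := mul_le_mul_of_nonneg_left h6 hab.le
    linarith
  · push Not at hcase
    have h1 : ab * ‖n - n'‖ ≤ ab * 1 := mul_le_mul_of_nonneg_left (by linarith) hab.le
    have h2 : ab ≤ 1 / c0 * Er := by
      have := mul_le_mul_of_nonneg_left hcase.le (by positivity : 0 ≤ 1 / c0)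
      have k3 : 1 / c0 * (c0 * ab) = ab := by field_simp
      linarith
    linarith

end

end ML

open ML in
theorem stmtML (hCM : StmtCM) (hMP : StmtMP) (hSAF : StmtSAF) (hGS : StmtGS) (hZ : StmtZ)
    (hMA : StmtMA) (hDI : StmtDI) (hSC : StmtSC) : StmtML := by
  intro d V E _ _ _ _ _ _ L hd hL
  obtain ⟨J, hJ⟩ := fam hCM hMP hSAF hZ hMA hDI hSC d V E L hd hL
  refine ⟨J, ?_⟩
  intro M c0 ε hε hε1 b hb R0 γ K hR0 hγ0 hγ hK
  have hd1 : (2 : ℝ) ≤ d := by exact_mod_cast hd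
  obtain ⟨Ca, κa, hCa, hκa, Ha⟩ := hJ M c0 ε hε hε1 b hb R0 γ K hR0 hγ0 hγ hK R0 le_rfl
    (by linarith)
  obtain ⟨Cb, κb, hCb, hκb, Hb⟩ := hJ M c0 ε hε hε1 b hb R0 γ K hR0 hγ0 hγ hK (R0 + 10)
    (by linarith) le_rfl
  obtain ⟨Cg, hCg, HG⟩ := gs1 hGS hd J hR0
  obtain ⟨C, hC⟩ : ∃ C : ℝ, C = Ca + Cb + 12 * Cb ^ 2 * Cg := ⟨_, rfl⟩
  have c1 : 0 < 12 * Cb ^ 2 * Cg := by positivity
  have hC0 : 0 < C := by linarith
  refine ⟨C, min κa κb, hC0, by positivity, ?_⟩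
  intro I
  rcases Nat.eq_zero_or_pos I with rfl | hI
  · obtain ⟨C1, hC1, H⟩ := Ha 0
    refine ⟨C1, hC1, ?_⟩
    intro R hR n u hu x e hT a ha haa hma νs cs B D hνs hcs hsm hB hD
    obtain ⟨hB0, hD0, ν0, ν, c, ab, h1, h2⟩ := H R (by norm_num at hR; linarith) hR n u hu x e hT a
      ha haa hma νs cs B D hνs hcs
      (hsm.trans (mul_le_mul_of_nonneg_right (min_le_left _ _) ha.le)) hB hD
    refine ⟨ν, c, ab, h1, by linarith [(h2 0 le_rfl).2.1], ?_⟩
    intro l hl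
    obtain rfl : l = 0 := by omega
    obtain ⟨-, g2, g3, g4, g5, g6, g7, g8⟩ := h2 0 le_rfl
    rw [mo_eq] at g5 g6 g7
    have hab := g7.ab0
    have hS0 : 0 ≤ Real.sqrt (a * D) := Real.sqrt_nonneg _
    have p34 := pw_pos (3 / 4) 0
    have p18 := pw_pos (1 / 8) 0
    have k1 : Ca ≤ C := by linarith
    refine ⟨g3.trans (mul_le_mul_of_nonneg_right k1 hab.le), ?_, ?_, ?_, ?_⟩
    · refine g4.trans ?_
      change Ca * pw (1 / 8) 0 * a ≤ C * pw (1 / 8) 0 * a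
      gcongr
    · rw [sub_self, norm_zero, mul_zero]
      change 0 ≤ C * pw (3 / 4) 0 * (B + Real.sqrt (a * D)) + C1 * D
      positivity
    · refine g6.trans ?_
      change Ca * pw (3 / 4) 0 * B + C1 * D ≤ C * pw (3 / 4) 0 * B + C1 * D
      gcongr
    · refine Sheet_mono g7 ?_ le_rfl
      change Ca * pw (3 / 4) 0 * (B + Real.sqrt (a * D)) ≤
        C * pw (3 / 4) 0 * (B + Real.sqrt (a * D))
      gcongr
  · obtain ⟨C1, hC1, H⟩ := Hb I
    refine ⟨C1 + 3 * I * (Cb * Cg * C1), by positivity, ?_⟩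
    intro R hR n u hu x e hT a ha haa hma νs cs B D hνs hcs hsm hB hD
    have hR8 : 8 * R0 + 10 ≤ R := by
      refine le_trans ?_ hR
      have k1 : (8 : ℝ) ≤ 2 ^ (I + 2) := by
        have : (2 : ℝ) ^ 3 ≤ 2 ^ (I + 2) := pow_le_pow_right₀ (by norm_num) (by omega)
        linarith
      have := mul_le_mul_of_nonneg_right k1 (by linarith : 0 ≤ R0)
      linarith
    obtain ⟨hB0, hD0, ν0, ν, c, ab, h1, h2⟩ := H R (by linarith) hR n u hu x e hT a
      ha haa hma νs cs B D hνs hcs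
      (hsm.trans (mul_le_mul_of_nonneg_right (min_le_right _ _) ha.le)) hB hD
    have hf : Continuous (fo L u) := CM.fo_cont hu
    have hS0 : 0 ≤ Real.sqrt (a * D) := Real.sqrt_nonneg _
    obtain ⟨S, hS⟩ : ∃ S : ℝ, S = B + Real.sqrt (a * D) := ⟨_, rfl⟩
    have hSB : B ≤ S := by linarith
    have hSp : 0 ≤ S := by linarith
    -- one step
    have hstep : ∀ l, l + 1 ≤ I → a * ‖ν l - ν (l + 1)‖ ≤
        6 * Cb ^ 2 * Cg * S * pw (3 / 4) l + 3 * (Cb * Cg * C1) * D := by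
      intro l hl
      obtain ⟨a1, a2, a3, a4, a5, a6, a7, a8⟩ := h2 l (by omega)
      obtain ⟨b1, b2, b3, b4, b5, b6, b7, b8⟩ := h2 (l + 1) hl
      have hnn : ‖ν l - ν (l + 1)‖ ≤ 1 / 2 := by
        have e1 : ν l - ν (l + 1) = (ν l - ν0) - (ν (l + 1) - ν0) := by abel
        rw [e1]
        exact (norm_sub_le _ _).trans (by linarith)
      have k1 := HG (mo (fo L u) x (e 0) l) (mo (fo L u) x (e 0) (l + 1)) (ν l) (ν (l + 1)) (c l)
        (c (l + 1)) (ab l) (ab (l + 1)) _ _ (C1 * D) _ _ (xf x l 1) (mo_cont hf _ _ _)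
        (by positivity) (mo_next _ _ _ _) a7 b7 a8 b8 a2 (xf_one hT l) hnn a5 b5
      rw [← hS] at k1
      have p34 := pw_pos (3 / 4) l
      have k2 : pw (3 / 4) (l + 1) ≤ 2 * pw (3 / 4) l := by
        have := pw_add_le (show (3 / 4 : ℝ) ≤ 1 by norm_num) l 1
        linarith
      have k3 : Cb * pw (3 / 4) l * S + Cb * pw (3 / 4) (l + 1) * S +
          (Cb * pw (3 / 4) l * B + C1 * D) + (Cb * pw (3 / 4) (l + 1) * B + C1 * D) + C1 * D ≤
          6 * (Cb * pw (3 / 4) l * S) + 3 * (C1 * D) := by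
        have e1 : Cb * S * pw (3 / 4) (l + 1) ≤ Cb * S * (2 * pw (3 / 4) l) :=
          mul_le_mul_of_nonneg_left k2 (by positivity)
        have e2 : Cb * pw (3 / 4) l * B ≤ Cb * pw (3 / 4) l * S :=
          mul_le_mul_of_nonneg_left hSB (by positivity)
        have e3 : Cb * B * pw (3 / 4) (l + 1) ≤ Cb * B * (2 * pw (3 / 4) l) :=
          mul_le_mul_of_nonneg_left k2 (by positivity)
        linarith
      have k4 := k1.trans (mul_le_mul_of_nonneg_left k3 hCg.le)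
      have hn0 := norm_nonneg (ν l - ν (l + 1))
      have k5 : a * ‖ν l - ν (l + 1)‖ ≤ Cb * ab l * ‖ν l - ν (l + 1)‖ :=
        mul_le_mul_of_nonneg_right a3 hn0
      have k6 := mul_le_mul_of_nonneg_left k4 hCb.le
      linarith
    have hsum : ∀ l, l ≤ I → a * ‖ν l - ν 0‖ ≤
        6 * Cb ^ 2 * Cg * S * (∑ k ∈ Finset.range l, pw (3 / 4) k) +
          l * (3 * (Cb * Cg * C1) * D) := by
      intro l
      induction l with
      | zero => simp
      | succ l ih =>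
        intro hl
        have k1 := ih (by omega)
        have k2 := hstep l hl
        have k3 : ‖ν (l + 1) - ν 0‖ ≤ ‖ν l - ν (l + 1)‖ + ‖ν l - ν 0‖ := by
          have e1 : ν (l + 1) - ν 0 = (ν (l + 1) - ν l) + (ν l - ν 0) := by abel
          rw [e1, norm_sub_rev (ν l) (ν (l + 1))]
          exact norm_add_le _ _
        have k4 := mul_le_mul_of_nonneg_left k3 ha.le
        rw [Finset.sum_range_succ]
        push_cast
        linarith
    refine ⟨ν, c, ab, h1, by linarith [(h2 0 (Nat.zero_le _)).2.1], ?_⟩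
    intro l hl
    obtain ⟨-, g2, g3, g4, g5, g6, g7, g8⟩ := h2 l hl
    rw [mo_eq] at g5 g6 g7
    have hab := g7.ab0
    have p34 := pw_pos (3 / 4) l
    have p18 := pw_pos (1 / 8) l
    have k1 : Cb ≤ C := by linarith
    have hI0 : 0 ≤ 3 * I * (Cb * Cg * C1) * D := by positivity
    refine ⟨g3.trans (mul_le_mul_of_nonneg_right k1 hab.le), ?_, ?_, ?_, ?_⟩
    · refine g4.trans ?_
      change Cb * pw (1 / 8) l * a ≤ C * pw (1 / 8) l * a
      gcongr
    · change a * ‖ν l - ν 0‖ ≤ C * pw (3 / 4) l * (B + Real.sqrt (a * D)) +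
        (C1 + 3 * I * (Cb * Cg * C1)) * D
      rw [← hS]
      refine (hsum l hl).trans ?_
      have e1 : 6 * Cb ^ 2 * Cg * S * (∑ k ∈ Finset.range l, pw (3 / 4) k) ≤
          6 * Cb ^ 2 * Cg * S * (2 * pw (3 / 4) l) :=
        mul_le_mul_of_nonneg_left (geo_three l) (by positivity)
      have e2 : (l : ℝ) * (3 * (Cb * Cg * C1) * D) ≤ I * (3 * (Cb * Cg * C1) * D) :=
        mul_le_mul_of_nonneg_right (by exact_mod_cast hl) (by positivity)
      have e3 : 12 * Cb ^ 2 * Cg * (pw (3 / 4) l * S) ≤ C * (pw (3 / 4) l * S) :=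
        mul_le_mul_of_nonneg_right (by linarith) (by positivity)
      have e4 : 0 ≤ C1 * D := by positivity
      linarith
    · refine g6.trans ?_
      change Cb * pw (3 / 4) l * B + C1 * D ≤ C * pw (3 / 4) l * B +
        (C1 + 3 * I * (Cb * Cg * C1)) * D
      have e3 : Cb * (pw (3 / 4) l * B) ≤ C * (pw (3 / 4) l * B) :=
        mul_le_mul_of_nonneg_right k1 (by positivity)
      linarith
    · refine Sheet_mono (Sheet_rad g7 (by linarith) (by linarith)) ?_ ?_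
      · change Cb * pw (3 / 4) l * (B + Real.sqrt (a * D)) ≤
          C * pw (3 / 4) l * (B + Real.sqrt (a * D))
        gcongr
      · linarith

end TG
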