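import Pool.Agent.TG.Stmts4
import Pool.Agent.TG.TW
import Pool.Agent.TG.SD
import Pool.Agent.TG.SS1
import Pool.Agent.TG.CM1

/-!
# MODULE ML, part 1: frames, comparison of radii, directions, transfer of sheets (helper25)
-/

open MeasureTheory Metric Set TrI
open scoped InnerProductSpace ContDiff

namespace TG

namespace ML

noncomputable section

set_option linter.unusedSectionVars false

variable {d : ℕ}

/-! ## powers of two -/

/-- 2^(q l) -/
def pw (q : ℝ) (l : ℕ) : ℝ := (2 : ℝ) ^ (q * (l : ℝ))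

lemma pw_pos (q : ℝ) (l : ℕ) : 0 < pw q l := Real.rpow_pos_of_pos two_pos _

lemma one_le_pw {q : ℝ} (hq : 0 ≤ q) (l : ℕ) : 1 ≤ pw q l :=
  Real.one_le_rpow (by norm_num) (by positivity)

lemma pw_add (q : ℝ) (l r : ℕ) : pw q (l + r) = pw q l * pw q r := by
  unfold pw
  rw [← Real.rpow_add two_pos]
  congr 1
  push_cast
  ring

lemma pw_mul (q q' : ℝ) (l : ℕ) : pw q l * pw q' l = pw (q + q') l := by
  unfold pw
  rw [← Real.rpow_add two_pos]
  congr 1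
  ring

lemma pw_le {q q' : ℝ} (h : q ≤ q') (l : ℕ) : pw q l ≤ pw q' l :=
  Real.rpow_le_rpow_of_exponent_le (by norm_num) (mul_le_mul_of_nonneg_right h (by positivity))

lemma pw_mono {q : ℝ} (hq : 0 ≤ q) {l l' : ℕ} (h : l ≤ l') : pw q l ≤ pw q l' :=
  Real.rpow_le_rpow_of_exponent_le (by norm_num)
    (mul_le_mul_of_nonneg_left (by exact_mod_cast h) hq)

lemma pw_one (l : ℕ) : pw 1 l = 2 ^ l := by
  unfold pw
  rw [one_mul, Real.rpow_natCast]

lemma pw_zero (q : ℝ) : pw q 0 = 1 := by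
  unfold pw
  simp

lemma pw_sq (q : ℝ) (l : ℕ) : pw q l ^ 2 = pw (2 * q) l := by
  rw [sq, pw_mul]
  congr 1
  ring

lemma pw_sqrt (q : ℝ) (l : ℕ) : Real.sqrt (pw q l) = pw (q / 2) l := by
  rw [Real.sqrt_eq_iff_eq_sq (pw_pos _ _).le (pw_pos _ _).le, pw_sq]
  congr 1
  ring

lemma pw_add_le {q : ℝ} (hq : q ≤ 1) (l r : ℕ) : pw q (l + r) ≤ 2 ^ r * pw q l := by
  rw [pw_add, mul_comm]
  refine mul_le_mul_of_nonneg_right ?_ (pw_pos _ _).le
  rw [← pw_one]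
  exact pw_le hq r

lemma wq_eq (q : ℝ) (r : ℕ) : wq q r * pw q r = 1 := by
  unfold wq pw
  rw [← Real.rpow_add two_pos]
  simp

lemma wq_pos (q : ℝ) (r : ℕ) : 0 < wq q r := Real.rpow_pos_of_pos two_pos _

/-- a term of a weighted sum -/
lemma term_le {q B : ℝ} {F : ℕ → ℝ} (hF : ∀ r, 0 ≤ F r)
    (h : ∀ I : ℕ, ∑ r ∈ Finset.range I, wq q r * F r ≤ B) (r : ℕ) : F r ≤ pw q r * B := by
  have h1 : wq q r * F r ≤ B :=
    (Finset.single_le_sum (f := fun r => wq q r * F r)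
      (fun i _ => mul_nonneg (wq_pos q i).le (hF i)) (Finset.self_mem_range_succ r)).trans
      (h (r + 1))
  have h2 := mul_le_mul_of_nonneg_left h1 (pw_pos q r).le
  rw [← mul_assoc, mul_comm (pw q r), wq_eq, one_mul] at h2
  exact h2

/-- geometric sums -/
lemma geo_half (I : ℕ) : ∑ r ∈ Finset.range I, (1 / 2 : ℝ) ^ r * pw (1 / 2) r ≤ 4 := by
  have h0 : ∀ r : ℕ, (1 / 2 : ℝ) ^ r * pw (1 / 2) r ≤ (3 / 4) ^ r := by
    intro r
    have h1 : pw (1 / 2) r = (pw (1 / 2) 1) ^ r := by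
      unfold pw
      rw [← Real.rpow_natCast, ← Real.rpow_mul (by norm_num)]
      congr 1
      push_cast
      ring
    rw [h1, ← mul_pow]
    have h2 : pw (1 / 2) 1 ≤ 3 / 2 := by
      have h3 : pw (1 / 2) 1 ^ 2 = 2 := by
        rw [pw_sq, show (2 : ℝ) * (1 / 2) = 1 by norm_num, pw_one]
        norm_num
      have h4 := pw_pos (1 / 2) 1
      nlinarith
    have h5 := pw_pos (1 / 2) 1
    exact pow_le_pow_left₀ (by positivity) (by linarith) r
  refine (Finset.sum_le_sum fun r _ => h0 r).trans ?_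
  have h1 : ∑ r ∈ Finset.range I, (3 / 4 : ℝ) ^ r = ((3 / 4) ^ I - 1) / (3 / 4 - 1) :=
    geom_sum_eq (by norm_num) I
  rw [h1]
  have h2 : (0 : ℝ) < (3 / 4) ^ I := by positivity
  rw [div_le_iff_of_neg (by norm_num)]
  linarith

lemma geo_three (l : ℕ) : ∑ r ∈ Finset.range l, pw (3 / 4) r ≤ 2 * pw (3 / 4) l := by
  induction l with
  | zero => simp [pw_zero]
  | succ l ih =>
    rw [Finset.sum_range_succ, pw_add]
    have h1 : (3 / 2 : ℝ) ≤ pw (3 / 4) 1 := by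
      have h3 : pw (3 / 4) 1 ^ 4 = 8 := by
        have : pw (3 / 4) 1 ^ 4 = pw (3 / 4) 1 ^ 2 * pw (3 / 4) 1 ^ 2 := by ring
        rw [this, pw_sq, pw_mul]
        unfold pw
        rw [show ((2 : ℝ) * (3 / 4) + 2 * (3 / 4)) * ((1 : ℕ) : ℝ) = (3 : ℕ) by norm_num,
          Real.rpow_natCast]
        norm_num
      by_contra hcon
      push Not at hcon
      have h4 := pw_pos (3 / 4) 1
      have h5 : pw (3 / 4) 1 ^ 4 < (3 / 2) ^ 4 := pow_lt_pow_left₀ hcon h4.le (by norm_num)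
      rw [h3] at h5
      norm_num at h5
    have h2 := pw_pos (3 / 4) l
    nlinarith

/-! ## frames -/

section Fr

variable {F : Type*} [NormedAddCommGroup F] [NormedSpace ℝ F]

lemma rs_rs (x x' : Sp d) (t t' : ℝ) (f : Sp d → F) :
    rs x' t' (rs x t f) = rs (x + t • x') (t * t') f := by
  funext y
  unfold rs
  rw [smul_smul, smul_add, ← add_assoc, smul_smul, mul_comm t' t]

/-- centres of the cells of a tower in the frame of its cell l -/
def xf (x : ℕ → Sp d) (l r : ℕ) : Sp d := (1 / (2 : ℝ) ^ l) • (x (l + r) - x l)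

lemma xf_spec (x : ℕ → Sp d) (l r : ℕ) : x l + (2 : ℝ) ^ l • xf x l r = x (l + r) := by
  unfold xf
  rw [smul_smul, mul_one_div_cancel (by positivity), one_smul]
  abel

lemma xf_zero (x : ℕ → Sp d) (l : ℕ) : xf x l 0 = 0 := by
  unfold xf
  simp

lemma pow_n (n l : ℕ) : (1 / 2 : ℝ) ^ (n + l) = (1 / 2) ^ n / 2 ^ l := by
  rw [pow_add, div_eq_mul_inv _ ((2 : ℝ) ^ l), ← inv_pow, one_div]

end Fr

section Fr2

variable {E : Type} [NormedAddCommGroup E] [InnerProductSpace ℝ E]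

lemma tower_fr {x : ℕ → Sp d} {e : ℕ → E} (h : Tower x e) (l : ℕ) :
    Tower (xf x l) (fun r => e (l + r)) where
  zero := xf_zero x l
  step := by
    intro r
    have h1 : xf x l (r + 1) - xf x l r = (1 / (2 : ℝ) ^ l) • (x (l + r + 1) - x (l + r)) := by
      unfold xf
      rw [← smul_sub]
      congr 1
      rw [← add_assoc]
      abel
    rw [h1, norm_smul, Real.norm_of_nonneg (by positivity)]
    have h2 := mul_le_mul_of_nonneg_left (h.step (l + r))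
      (by positivity : (0 : ℝ) ≤ 1 / (2 : ℝ) ^ l)
    refine h2.trans (le_of_eq ?_)
    rw [pow_add]
    field_simp
  unit := fun r => h.unit _

lemma tower_norm {x : ℕ → Sp d} {e : ℕ → E} (h : Tower x e) (l : ℕ) :
    ‖x l‖ ≤ Real.sqrt d * (2 ^ l - 1) := by
  induction l with
  | zero => rw [h.zero]; simp
  | succ l ih =>
    have h1 := h.step l
    have h2 : ‖x (l + 1)‖ ≤ ‖x (l + 1) - x l‖ + ‖x l‖ := by
      have := norm_add_le (x (l + 1) - x l) (x l)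
      rwa [sub_add_cancel] at this
    rw [pow_succ]
    linarith

lemma xf_one {x : ℕ → Sp d} {e : ℕ → E} (h : Tower x e) (l : ℕ) : ‖xf x l 1‖ ≤ Real.sqrt d := by
  have h1 := (tower_fr h l).step 0
  rw [zero_add, xf_zero, sub_zero, pow_zero, mul_one] at h1
  exact h1

lemma rs_cont {f : Sp d → E} (hf : Continuous f) (x : Sp d) (t : ℝ) : Continuous (rs x t f) := by
  unfold rs
  fun_prop

lemma rs_cs {f : Sp d → E} (hfc : HasCompactSupport f) (x : Sp d) {t : ℝ} (ht : t ≠ 0) :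
    HasCompactSupport (rs x t f) := by
  have h3 := hfc.comp_homeomorph
    ((Homeomorph.smulOfNeZero (t : ℝ) ht).trans (Homeomorph.addLeft x))
  exact h3.smul_left (f := fun _ : Sp d => (t : ℝ))

lemma DD_fr (b : Sp d → ℝ) (ε R : ℝ) (n : ℕ) (f : Sp d → E) (x : ℕ → Sp d) (l r : ℕ) (e : E) :
    DD b ε R ((1 / 2) ^ (n + l)) (rs (x l) (2 ^ l) f) (n + l + r) (xf x l r) e =
      DD b ε R ((1 / 2) ^ n) f (n + (l + r)) (x (l + r)) e := by
  rw [pow_n, TW.DD_rs _ _ _ _ _ _ _ _ _ (by positivity), xf_spec, add_assoc]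

lemma ma_fr (b : Sp d → ℝ) (ε R : ℝ) (n : ℕ) (f : Sp d → E) (x : ℕ → Sp d) (l r : ℕ) :
    ma b ε R ((1 / 2) ^ (n + l)) (rs (x l) (2 ^ l) f) (n + l + r) (xf x l r) =
      ma b ε R ((1 / 2) ^ n) f (n + (l + r)) (x (l + r)) := by
  rw [pow_n, TW.ma_rs _ _ _ _ _ _ _ _ (by positivity), xf_spec, add_assoc]

variable [FiniteDimensional ℝ E]

/-- height of the plane in the frame of the cell l -/
def cf (ν : Sp d) (c : ℝ) (x : ℕ → Sp d) (l : ℕ) : ℝ := (c - ⟪ν, x l⟫_ℝ) / 2 ^ l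

lemma bb_fr (hd : 1 ≤ d) (ρ : ℝ) (n : ℕ) {f : Sp d → E} (hf : Continuous f)
    (hfc : HasCompactSupport f) (x : ℕ → Sp d) (l r : ℕ) (e : E) (ν : Sp d) (c : ℝ) :
    bb ρ ((1 / 2) ^ (n + l)) (rs (x l) (2 ^ l) f) (n + l + r) (xf x l r) e ν (cf ν c x l) =
      bb ρ ((1 / 2) ^ n) f (n + (l + r)) (x (l + r)) e ν c := by
  rw [pow_n, stmtSD.2 d E f hd hf hfc (x l) (2 ^ l) (by positivity) ρ _ _ _ _ _ _ (by positivity),
    xf_spec, add_assoc]
  congr 1
  unfold cf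
  field_simp
  ring

lemma bD_fr (hd : 1 ≤ d) (b : Sp d → ℝ) (ε ρ R : ℝ) (n : ℕ) {f : Sp d → E} (hf : Continuous f)
    (hfc : HasCompactSupport f) (x : ℕ → Sp d) (l r : ℕ) (e : E) (ν : Sp d) (c : ℝ) :
    bD b ε ρ R ((1 / 2) ^ (n + l)) (rs (x l) (2 ^ l) f) (n + l + r) (xf x l r) e ν (cf ν c x l) =
      bD b ε ρ R ((1 / 2) ^ n) f (n + (l + r)) (x (l + r)) e ν c := by
  unfold bD
  rw [bb_fr hd ρ n hf hfc, DD_fr]

lemma rs_fr (f : Sp d → E) (x : ℕ → Sp d) (l r : ℕ) :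
    rs (xf x l r) (2 ^ r) (rs (x l) (2 ^ l) f) = rs (x (l + r)) (2 ^ (l + r)) f := by
  rw [rs_rs, xf_spec, pow_add]

lemma cf_cf (ν : Sp d) (c : ℝ) (x : ℕ → Sp d) (l r : ℕ) :
    (cf ν c x l - ⟪ν, xf x l r⟫_ℝ) / 2 ^ r = cf ν c x (l + r) := by
  unfold cf xf
  rw [real_inner_smul_right, inner_sub_right, pow_add]
  field_simp
  ring

lemma cf_le {x : ℕ → Sp d} {e : ℕ → E} (h : Tower x e) {ν : Sp d} (hν : ‖ν‖ = 1) {c r : ℝ}
    (hc : |c| ≤ r) (hr : Real.sqrt d ≤ r) (l : ℕ) : |cf ν c x l| ≤ r := by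
  unfold cf
  rw [abs_div, abs_of_pos (by positivity : (0 : ℝ) < 2 ^ l), div_le_iff₀ (by positivity)]
  have h1 := tower_norm h l
  have h2 := abs_real_inner_le_norm ν (x l)
  rw [hν, one_mul] at h2
  have h3 : (1 : ℝ) ≤ 2 ^ l := one_le_pow₀ (by norm_num)
  have h4 : |c - ⟪ν, x l⟫_ℝ| ≤ |c| + |⟪ν, x l⟫_ℝ| := abs_sub _ _
  have h5 : Real.sqrt d * (2 ^ l - 1) ≤ r * (2 ^ l - 1) :=
    mul_le_mul_of_nonneg_right hr (by linarith)
  linarith

end Fr2

/-! ## comparison of radii -/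

/-- the pairing at the next level -/
theorem next (hMA : StmtMA) (hd : 1 ≤ d) {M c ε : ℝ} (h0 : 0 < ε) (h1 : ε ≤ 1)
    {b : Sp d → ℝ} (hb : BaseKer 2 M c b) {R0 : ℝ} (hR0 : 100 + 8 * d ≤ R0) : ∃ C : ℝ, 0 < C ∧
    ∀ (E : Type) [NormedAddCommGroup E] [InnerProductSpace ℝ E] [FiniteDimensional ℝ E],
    ∀ f : Sp d → E, Continuous f → HasCompactSupport f → ∀ (R : ℝ), 4 * R0 + 10 ≤ R →
    ∀ (n : ℕ) (e : E), ‖e‖ = 1 → ∀ (x : Sp d), ‖x‖ ≤ Real.sqrt d →
    ∀ (ζ : Sp d → ℝ) (N : ℝ), TFn 2 N ζ → (∀ y, R0 + 13 ≤ ‖y‖ → ζ y = 0) →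
      |∫ y, ⟪f y, e⟫_ℝ * ζ y| ≤ C * N * (ma b ε R0 ((1 / 2) ^ n) f (n + 1) x +
        DD b ε R ((1 / 2) ^ n) f (n + 1) x e) := by
  have hd1 : (1 : ℝ) ≤ d := by exact_mod_cast hd
  have hsq : Real.sqrt d ≤ d := by
    rw [Real.sqrt_le_left (by positivity)]
    nlinarith
  obtain ⟨C, hC, H⟩ := TU.MA' hMA hd h0 h1 hb
  refine ⟨2 * 2 ^ d * C, by positivity, ?_⟩
  intro E _ _ _ f hf hfc R hR n e he x hx ζ N hζ hs
  have h2 : (0 : ℝ) < 2 := by norm_num
  have hx0 := norm_nonneg x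
  have hxy : ∀ y : Sp d, 2 * ‖y‖ ≤ ‖x + (2 : ℝ) • y‖ + ‖x‖ := by
    intro y
    have e1 : (2 : ℝ) • y = (x + (2 : ℝ) • y) - x := by abel
    have e2 := norm_sub_le (x + (2 : ℝ) • y) x
    rw [← e1, norm_smul] at e2
    simpa using e2
  have hrc : Continuous (rs x 2 f) := rs_cont hf x 2
  have hrs : HasCompactSupport (rs x 2 f) := rs_cs hfc x h2.ne'
  have T := TU.TFn_aff hζ x (t := (2 : ℝ)) (by norm_num)
  have e1 : max 1 |(2 : ℝ)| ^ 2 * N = 4 * N := by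
    rw [abs_of_pos h2, max_eq_right (by norm_num)]
    norm_num
  rw [e1] at T
  have k1 := (H E (rs x 2 f) hrc hrs R (by linarith) (n + 1) e he 0 (ball 0 R0)
    measurableSet_ball).1 (fun y => ζ (x + (2 : ℝ) • y)) (4 * N) T (fun y hy => hs _ (by
      rw [sub_zero] at hy
      have := hxy y
      linarith)) (fun y z hy hz => by
      have h3 : ‖x + (2 : ℝ) • y‖ < R0 + 13 := by
        by_contra h4
        push Not at h4
        exact hy (hs _ h4)
      have h5 := hxy y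
      rw [mem_ball, dist_zero_right]
      have h6 := norm_add_le (z - y) y
      rw [sub_add_cancel] at h6
      linarith)
  rw [TU.frame_int f e x h2 ζ] at k1
  have hs0 : (1 / 2 : ℝ) ^ (n + 1) = (1 / 2) ^ n / 2 := by
    rw [pow_succ]
    ring
  have k2 : DD b ε R ((1 / 2) ^ (n + 1)) (rs x 2 f) (n + 1) 0 e =
      DD b ε R ((1 / 2) ^ n) f (n + 1) x e := by
    rw [hs0, TW.DD_rs b ε R _ f (n + 1) x 0 e h2, smul_zero, add_zero]
  have k3 : ∫ y in ball (0 : Sp d) R0, ‖fl b ε ((1 / 2) ^ (n + 1)) (rs x 2 f) (n + 1 - 1) y‖ =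
      ma b ε R0 ((1 / 2) ^ n) f (n + 1) x := by
    have k4 := TW.ma_rs b ε R0 ((1 / 2) ^ n) f (n + 1) x 0 h2
    rw [← hs0, smul_zero, add_zero] at k4
    rw [← k4]
    unfold ma
    rw [TW.lev_u, one_pow, div_one, one_mul, mul_one]
  rw [k2, k3, abs_mul, abs_of_pos (by positivity : (0 : ℝ) < 2 / 2 ^ d)] at k1
  have k5 := mul_le_mul_of_nonneg_left k1 (by positivity : (0 : ℝ) ≤ 2 ^ d / 2)
  have k6 : (2 : ℝ) ^ d / 2 * (2 / 2 ^ d * |∫ y, ⟪f y, e⟫_ℝ * ζ y|) =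
      |∫ y, ⟪f y, e⟫_ℝ * ζ y| := by
    have : (2 : ℝ) ^ d ≠ 0 := by positivity
    field_simp
  rw [k6] at k5
  refine k5.trans (le_of_eq ?_)
  ring

lemma zR_mono {ρ ρ' : ℝ} (h : ρ ≤ ρ') (y : Sp d) : zR ρ y ≤ zR ρ' y :=
  Real.smoothTransition.monotone (by linarith)

/-- quantities with the radius ρ between R0 and R0 + 10 in terms of the next level and R0 -/
theorem cmp (h : StmtZ) (h1 : StmtMA) (h2 : StmtDI) (hd : 1 ≤ d) {M c0 ε : ℝ} (hε : 0 < ε)
    (hε1 : ε ≤ 1) {b : Sp d → ℝ} (hb : BaseKer 2 M c0 b) {R0 ρ : ℝ} (hR0 : 100 + 8 * d ≤ R0)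
    (hρ : R0 ≤ ρ) (hρ' : ρ ≤ R0 + 10) : ∃ C : ℝ, 1 ≤ C ∧
    ∀ (E : Type) [NormedAddCommGroup E] [InnerProductSpace ℝ E] [FiniteDimensional ℝ E],
    ∀ (R : ℝ), 4 * R0 + 10 ≤ R → ∀ f : Sp d → E, Continuous f → HasCompactSupport f →
    ∀ (n : ℕ) (x : Sp d) (e e' : E), ‖x‖ ≤ Real.sqrt d → ‖e‖ = 1 → ‖e'‖ = 1 →
      ma b ε ρ ((1 / 2) ^ n) f n 0 ≤ C *
        (ma b ε R0 ((1 / 2) ^ n) f (n + 1) x + DD b ε R ((1 / 2) ^ n) f (n + 1) x e') ∧
      (∀ (ν : Sp d) (c : ℝ), ‖ν‖ = 1 → |c| ≤ 4 * R0 →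
        bD b ε ρ R ((1 / 2) ^ n) f n 0 e ν c ≤ C *
          (bD b ε R0 R ((1 / 2) ^ n) f (n + 1) x e' ν c + DD b ε R ((1 / 2) ^ n) f n 0 e)) ∧
      Mi R0 f e ≤ Mi ρ f e + C * DD b ε R ((1 / 2) ^ n) f n 0 e ∧
      Mi ρ f e ≤ C * (ma b ε R0 ((1 / 2) ^ n) f n 0 + DD b ε R ((1 / 2) ^ n) f n 0 e) := by
  have hd1 : (1 : ℝ) ≤ d := by exact_mod_cast hd
  have hsq : Real.sqrt d ≤ d := by
    rw [Real.sqrt_le_left (by positivity)]
    nlinarith
  have hR0' : 100 ≤ R0 := by linarith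
  obtain ⟨CZ, hCZ, Z⟩ := TU.Z' h hd hε hε1 hb
  obtain ⟨CM, hCM, MM⟩ := TU.MA' h1 hd hε hε1 hb
  obtain ⟨CD, hCD, DI⟩ := TU.DI' h2 hd hε hε1 hb
  obtain ⟨CP, hCP, PP⟩ := next h1 hd hε hε1 hb hR0
  obtain ⟨N0, hN0, T0⟩ := TU.TFn_of_cs (J := 2) (ζ := (zR (ρ + 2) : Sp d → ℝ))
    (contDiff_infty.1 (TU.zR_smooth (by linarith)) 2) (TU.zR_cs _)
  obtain ⟨N1, hN1, T1⟩ := TU.TFn_of_cs (J := 2) (ζ := (zR R0 : Sp d → ℝ))
    (contDiff_infty.1 (TU.zR_smooth (by linarith)) 2) (TU.zR_cs _)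
  obtain ⟨N1', hN1', T1'⟩ := TU.TFn_of_cs (J := 2) (ζ := (zR ρ : Sp d → ℝ))
    (contDiff_infty.1 (TU.zR_smooth (by linarith)) 2) (TU.zR_cs _)
  obtain ⟨N4, hN4, T5⟩ := TU.TFn_of_cs (J := 2) (ζ := (zR (R0 / 3) : Sp d → ℝ))
    (contDiff_infty.1 (TU.zR_smooth (by linarith)) 2) (TU.zR_cs _)
  obtain ⟨N5, hN5, T6⟩ := TU.TFn_of_cs (J := 2) (ζ := (zR (ρ / 3) : Sp d → ℝ))
    (contDiff_infty.1 (TU.zR_smooth (by linarith)) 2) (TU.zR_cs _)
  obtain ⟨K, hK⟩ : ∃ K : ℝ, K = 2 * 2 ^ d := ⟨_, rfl⟩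
  have hK0 : 0 < K := by rw [hK]; positivity
  have hK1 : 1 ≤ K := by
    have : (1 : ℝ) ≤ 2 ^ d := one_le_pow₀ (by norm_num)
    linarith
  obtain ⟨N2, hN2⟩ : ∃ N2 : ℝ, N2 = 4 ^ 2 * N1' * max 1 ((ρ + 1) + 4 * R0) ^ 2 := ⟨_, rfl⟩
  obtain ⟨N3, hN3⟩ : ∃ N3 : ℝ, N3 = 4 ^ 2 * N1 * max 1 ((3 * R0) + 4 * R0) ^ 2 := ⟨_, rfl⟩
  have hN2p : 0 < N2 := by rw [hN2]; positivity
  have hN3p : 0 < N3 := by rw [hN3]; positivity
  obtain ⟨C, hC⟩ : ∃ C : ℝ, C = 1 + (CP * N0 + CM * N0 * K) +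
    (K + CZ * (N3 + N2) * K + CD * N2 * K + 1) + CZ * (N5 + N4) + CM * N5 := ⟨_, rfl⟩
  have c2 : 0 < CP * N0 := by positivity
  have c3 : 0 < CM * N0 * K := by positivity
  have c4 : 0 < CZ * (N3 + N2) * K := by positivity
  have c5 : 0 < CD * N2 * K := by positivity
  have c7 : 0 < CZ * (N5 + N4) := by positivity
  have c8 : 0 < CM * N5 := by positivity
  refine ⟨C, by linarith, ?_⟩
  intro E _ _ _ R hR f hf hfc n x e e' hx he he'
  have hs0 : (0 : ℝ) < (1 / 2) ^ n := by positivity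
  have hDn := TU.DD_nonneg b ε R hs0 f n 0 he
  have hDn' := TU.DD_nonneg b ε R hs0 f n 0 he'
  have hD1 := TU.DD_nonneg b ε R hs0 f (n + 1) x he'
  have hm1 := TU.ma_nonneg b ε R0 hs0 f (n + 1) x
  have hm0 := TU.ma_nonneg b ε R0 hs0 f n 0
  have hstep : DD b ε R ((1 / 2) ^ n) f n 0 e' ≤ K * DD b ε R ((1 / 2) ^ n) f (n + 1) x e' := by
    rw [hK]
    exact TW.DD_step hb ε hf hfc n (by linarith) he'
  generalize hA : DD b ε R ((1 / 2) ^ n) f n 0 e = A at *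
  generalize hA' : DD b ε R ((1 / 2) ^ n) f n 0 e' = A' at *
  generalize hB : DD b ε R ((1 / 2) ^ n) f (n + 1) x e' = B at *
  generalize hmm : ma b ε R0 ((1 / 2) ^ n) f (n + 1) x = m at *
  -- change of direction
  have hii : ∀ (ζ : Sp d → ℝ) (N : ℝ), TFn 2 N ζ → (∀ y, R - 1 ≤ ‖y‖ → ζ y = 0) →
      |∫ y, ⟪f y, e - e'⟫_ℝ * ζ y| ≤ CD * K * N * (A + B) := by
    intro ζ N hζ hs
    have hN := TU.TFn_nonneg hζ
    have k1 := DI E f hf hfc R (by linarith) n e e' he he' 0 0 ζ N hζ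
      (by simpa using hs) (by simpa using hs)
    rw [hA, hA'] at k1
    refine k1.trans ?_
    have k2 : A + A' ≤ K * (A + B) := by
      have k3 : 1 * A ≤ K * A := mul_le_mul_of_nonneg_right hK1 hDn
      linarith
    calc CD * N * (A + A') ≤ CD * N * (K * (A + B)) :=
          mul_le_mul_of_nonneg_left k2 (by positivity)
      _ = _ := by ring
  -- integrability
  have hint : ∀ (w : E) (ζ : Sp d → ℝ), Continuous ζ → Integrable fun y => ⟪f y, w⟫_ℝ * ζ y := by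
    intro w ζ hζ
    refine Continuous.integrable_of_hasCompactSupport
      ((hf.inner continuous_const).mul hζ) ?_
    exact (hfc.comp_left (g := fun v : E => ⟪v, w⟫_ℝ) (inner_zero_left _)).mul_right
  have hsplit : ∀ ζ : Sp d → ℝ, Continuous ζ → ∫ y, ⟪f y, e⟫_ℝ * ζ y =
      (∫ y, ⟪f y, e'⟫_ℝ * ζ y) + ∫ y, ⟪f y, e - e'⟫_ℝ * ζ y := by
    intro ζ hζ
    rw [← integral_add (hint e' ζ hζ) (hint (e - e') ζ hζ)]
    congr 1
    ext y
    rw [inner_sub_right]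
    ring
  refine ⟨?_, ?_, ?_, ?_⟩
  · -- mass
    have k1 := (MM E f hf hfc R (by linarith) n e' he' 0 (ball 0 ρ) measurableSet_ball).2
      (zR (ρ + 2)) N0 1 one_pos T0 (TU.zR_nonneg _) (fun y hy => TU.zR_zero (by
        rw [sub_zero] at hy
        linarith)) (fun y z hy hz => by
        rw [TU.zR_one]
        rw [mem_ball, dist_zero_right] at hy
        have := norm_add_le (z - y) y
        rw [sub_add_cancel] at this
        linarith)
    rw [one_mul, hA'] at k1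
    have k2 := PP E f hf hfc R hR n e' he' x hx (zR (ρ + 2)) N0 T0
      (fun y hy => TU.zR_zero (by linarith))
    rw [hmm, hB] at k2
    have k3 := (le_abs_self _).trans k2
    have k4 : ma b ε ρ ((1 / 2) ^ n) f n 0 =
        ∫ y in ball (0 : Sp d) ρ, ‖fl b ε ((1 / 2) ^ n) f (n - 1) y‖ := by
      unfold ma
      rw [TW.lev_u, one_pow, div_one, one_mul, mul_one]
    rw [k4]
    have k5 : CM * N0 * A' ≤ CM * N0 * K * B := by
      have := mul_le_mul_of_nonneg_left hstep (by positivity : 0 ≤ CM * N0)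
      linarith
    have k6 : CP * N0 * (m + B) + CM * N0 * K * B ≤ C * (m + B) := by
      have e1 : (CP * N0 + CM * N0 * K) * (m + B) ≤ C * (m + B) :=
        mul_le_mul_of_nonneg_right (by linarith) (by linarith)
      have e2 : 0 ≤ CM * N0 * K * m := by positivity
      linarith
    linarith
  · intro ν c hν hc
    -- the test function at level n
    have T2 : TFn 2 N2 (fun y => zR ρ y * ht ν c y ^ 2) := by
      rw [hN2]
      exact TU.TFn_ht_sq (ρ := ρ + 1) T1' (fun y hy => TU.zR_zero hy.le) hν hc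
    have s2 : ∀ y : Sp d, ρ + 1 ≤ ‖y‖ → zR ρ y * ht ν c y ^ 2 = 0 := fun y hy => by
      rw [TU.zR_zero hy, zero_mul]
    have c2' : Continuous fun y => zR ρ y * ht ν c y ^ 2 := T2.smooth.continuous
    -- the test function at level n + 1
    have T3a : TFn 2 N1 (fun y => zR R0 (-((1 / 2 : ℝ) • x) + (1 / 2 : ℝ) • y)) := by
      have := TU.TFn_aff T1 (-((1 / 2 : ℝ) • x)) (t := (1 / 2 : ℝ)) (by norm_num)
      have e1 : max 1 |(1 / 2 : ℝ)| = 1 := by
        rw [abs_of_pos (by norm_num)]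
        norm_num
      rw [e1, one_pow, one_mul] at this
      exact this
    have hnx : ∀ y : Sp d, ‖y‖ ≤ 2 * ‖-((1 / 2 : ℝ) • x) + (1 / 2 : ℝ) • y‖ + ‖x‖ := by
      intro y
      have e1 : y = (2 : ℝ) • (-((1 / 2 : ℝ) • x) + (1 / 2 : ℝ) • y) + x := by
        module
      have e2 := norm_add_le ((2 : ℝ) • (-((1 / 2 : ℝ) • x) + (1 / 2 : ℝ) • y)) x
      rw [← e1, norm_smul] at e2
      simpa using e2
    have hnx' : ∀ y : Sp d, 2 * ‖-((1 / 2 : ℝ) • x) + (1 / 2 : ℝ) • y‖ ≤ ‖y‖ + ‖x‖ := by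
      intro y
      have e1 : (2 : ℝ) • (-((1 / 2 : ℝ) • x) + (1 / 2 : ℝ) • y) = y - x := by
        module
      have e2 := norm_sub_le y x
      rw [← e1, norm_smul] at e2
      simpa using e2
    have s3a : ∀ y : Sp d, 3 * R0 < ‖y‖ →
        zR R0 (-((1 / 2 : ℝ) • x) + (1 / 2 : ℝ) • y) = 0 := by
      intro y hy
      refine TU.zR_zero ?_
      have := hnx y
      linarith
    have T3 : TFn 2 N3 (fun y => zR R0 (-((1 / 2 : ℝ) • x) + (1 / 2 : ℝ) • y) *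
        ht ν c y ^ 2) := by
      rw [hN3]
      exact TU.TFn_ht_sq (ρ := 3 * R0) T3a s3a hν hc
    have c3' : Continuous fun y => zR R0 (-((1 / 2 : ℝ) • x) + (1 / 2 : ℝ) • y) *
        ht ν c y ^ 2 := T3.smooth.continuous
    have T4 := TU.TFn_sub T3 T2
    have k1 := Z E f hf hfc R (by linarith) n e' he' 0 _ (N3 + N2) T4 (fun y => by
      rw [← sub_mul]
      refine mul_nonneg ?_ (sq_nonneg _)
      by_cases hy : ρ + 1 ≤ ‖y‖
      · rw [TU.zR_zero hy, sub_zero]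
        exact TU.zR_nonneg _ _
      · push Not at hy
        have := hnx' y
        rw [TU.zR_one (x := -((1 / 2 : ℝ) • x) + (1 / 2 : ℝ) • y) (by linarith)]
        have := TU.zR_le_one ρ y
        linarith) (fun y hy => by
      rw [sub_zero] at hy
      rw [s3a y (by linarith), s2 y (by linarith)]
      ring)
    rw [hA'] at k1
    have k2 : ∫ y, ⟪f y, e'⟫_ℝ * (zR R0 (-((1 / 2 : ℝ) • x) + (1 / 2 : ℝ) • y) *
        ht ν c y ^ 2 - zR ρ y * ht ν c y ^ 2) =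
        (∫ y, ⟪f y, e'⟫_ℝ * (zR R0 (-((1 / 2 : ℝ) • x) + (1 / 2 : ℝ) • y) * ht ν c y ^ 2)) -
        ∫ y, ⟪f y, e'⟫_ℝ * (zR ρ y * ht ν c y ^ 2) := by
      rw [← integral_sub (hint e' _ c3') (hint e' _ c2')]
      congr 1
      ext y
      ring
    rw [k2, ← TW.bb_u1, ← hK] at k1
    have k3 := hii _ N2 T2 (fun y hy => s2 y (by linarith))
    have k4 := hsplit _ c2'
    have k5 := TW.bb_u ρ f n e ν c
    rw [k4] at k5
    have k6 := (le_abs_self _).trans k3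
    have k7 : CZ * (N3 + N2) * A' ≤ CZ * (N3 + N2) * K * B := by
      have := mul_le_mul_of_nonneg_left hstep (by positivity : 0 ≤ CZ * (N3 + N2))
      linarith
    unfold bD
    rw [hA, hB]
    generalize hβ : bb ρ ((1 / 2) ^ n) f n 0 e ν c = β at *
    generalize hβ1 : bb R0 ((1 / 2) ^ n) f (n + 1) x e' ν c = β1 at *
    have hβ1m := le_max_right (0 : ℝ) β1
    have hβ10 := le_max_left (0 : ℝ) β1
    have m1 : β ≤ K * max 0 β1 + CZ * (N3 + N2) * K * B + CD * K * N2 * (A + B) := by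
      have : K * β1 ≤ K * max 0 β1 := mul_le_mul_of_nonneg_left hβ1m hK0.le
      linarith
    have m2 : max 0 β ≤ K * max 0 β1 + CZ * (N3 + N2) * K * B + CD * K * N2 * (A + B) := by
      refine max_le ?_ m1
      positivity
    have m3 : K * max 0 β1 + CZ * (N3 + N2) * K * B + CD * K * N2 * (A + B) + A ≤
        (K + CZ * (N3 + N2) * K + CD * N2 * K + 1) * (max 0 β1 + B + A) := by
      have e1 : 0 ≤ K * (B + A) := by positivity
      have e2 : 0 ≤ CZ * (N3 + N2) * K * (max 0 β1 + A) := by positivity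
      have e3 : 0 ≤ CD * N2 * K * max 0 β1 := by positivity
      linarith
    have m4 : (K + CZ * (N3 + N2) * K + CD * N2 * K + 1) * (max 0 β1 + B + A) ≤
        C * (max 0 β1 + B + A) :=
      mul_le_mul_of_nonneg_right (by linarith) (by positivity)
    linarith
  · -- inner masses
    have T7 := TU.TFn_sub T6 T5
    have k1 := Z E f hf hfc R (by linarith) n e he 0 _ (N5 + N4) T7 (fun y => by
      have := zR_mono (show R0 / 3 ≤ ρ / 3 by linarith) y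
      linarith) (fun y hy => by
      rw [sub_zero] at hy
      rw [TU.zR_zero (by linarith), TU.zR_zero (by linarith)]
      ring)
    rw [hA] at k1
    have k2 : ∫ y, ⟪f y, e⟫_ℝ * (zR (ρ / 3) y - zR (R0 / 3) y) = Mi ρ f e - Mi R0 f e := by
      unfold Mi
      rw [← integral_sub (hint e _ T6.smooth.continuous) (hint e _ T5.smooth.continuous)]
      congr 1
      ext y
      ring
    rw [k2] at k1
    have k3 : CZ * (N5 + N4) * A ≤ C * A := mul_le_mul_of_nonneg_right (by linarith) hDn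
    linarith
  · have k1 := (MM E f hf hfc R (by linarith) n e he 0 (ball 0 R0) measurableSet_ball).1
      (zR (ρ / 3)) N5 T6 (fun y hy => TU.zR_zero (by
        rw [sub_zero] at hy
        linarith)) (fun y z hy hz => by
        have h3 : ‖y‖ < ρ / 3 + 1 := by
          by_contra h4
          push Not at h4
          exact hy (TU.zR_zero h4)
        rw [mem_ball, dist_zero_right]
        have h6 := norm_add_le (z - y) y
        rw [sub_add_cancel] at h6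
        linarith)
    have k4 : ma b ε R0 ((1 / 2) ^ n) f n 0 =
        ∫ y in ball (0 : Sp d) R0, ‖fl b ε ((1 / 2) ^ n) f (n - 1) y‖ := by
      unfold ma
      rw [TW.lev_u, one_pow, div_one, one_mul, mul_one]
    rw [hA, ← k4] at k1
    have k2 := (le_abs_self _).trans k1
    have k3 : CM * N5 * (ma b ε R0 ((1 / 2) ^ n) f n 0 + A) ≤
        C * (ma b ε R0 ((1 / 2) ^ n) f n 0 + A) :=
      mul_le_mul_of_nonneg_right (by linarith) (by linarith)
    exact k2.trans k3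

end

end ML

end TG
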