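import Pool.Agent.TG.MLa

/-!
# MODULE ML, part 2: directions, transfer of sheets, two consecutive levels (helper25)
-/

open MeasureTheory Metric Set TrI
open scoped InnerProductSpace ContDiff

namespace TG

namespace ML

noncomputable section

set_option linter.unusedSectionVars false

variable {d : ℕ}

/-! ## unit frames -/

section U

variable {E : Type} [NormedAddCommGroup E] [InnerProductSpace ℝ E] [FiniteDimensional ℝ E]

lemma DD_f0 (b : Sp d → ℝ) (ε R : ℝ) (n : ℕ) (f : Sp d → E) (x : ℕ → Sp d) (l : ℕ) (e : E) :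
    DD b ε R ((1 / 2) ^ (n + l)) (rs (x l) (2 ^ l) f) (n + l) 0 e =
      DD b ε R ((1 / 2) ^ n) f (n + l) (x l) e := by
  have h := DD_fr b ε R n f x l 0 e
  rw [xf_zero, add_zero, add_zero] at h
  exact h

lemma ma_f0 (b : Sp d → ℝ) (ε R : ℝ) (n : ℕ) (f : Sp d → E) (x : ℕ → Sp d) (l : ℕ) :
    ma b ε R ((1 / 2) ^ (n + l)) (rs (x l) (2 ^ l) f) (n + l) 0 =
      ma b ε R ((1 / 2) ^ n) f (n + l) (x l) := by
  have h := ma_fr b ε R n f x l 0
  rw [xf_zero, add_zero, add_zero] at h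
  exact h

lemma bD_f0 (hd : 1 ≤ d) (b : Sp d → ℝ) (ε ρ R : ℝ) (n : ℕ) {f : Sp d → E} (hf : Continuous f)
    (hfc : HasCompactSupport f) (x : ℕ → Sp d) (l : ℕ) (e : E) (ν : Sp d) (c : ℝ) :
    bD b ε ρ R ((1 / 2) ^ (n + l)) (rs (x l) (2 ^ l) f) (n + l) 0 e ν (cf ν c x l) =
      bD b ε ρ R ((1 / 2) ^ n) f (n + l) (x l) e ν c := by
  have h := bD_fr hd b ε ρ R n hf hfc x l 0 e ν c
  rw [xf_zero, add_zero, add_zero] at h
  exact h

lemma DD_chain {b : Sp d → ℝ} {J : ℕ} {M c0 : ℝ} (hb : BaseKer J M c0 b) (ε : ℝ) {f : Sp d → E}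
    (hf : Continuous f) (hfc : HasCompactSupport f) (n : ℕ) {R : ℝ} (hR : Real.sqrt d ≤ R)
    {x : ℕ → Sp d} {e : ℕ → E} (h : Tower x e) {w : E} (hw : ‖w‖ = 1) (l : ℕ) :
    DD b ε R ((1 / 2) ^ n) f n 0 w ≤
      (2 * 2 ^ d) ^ l * DD b ε R ((1 / 2) ^ n) f (n + l) (x l) w := by
  induction l with
  | zero => rw [pow_zero, one_mul, add_zero, h.zero]
  | succ l ih =>
    have h1 := TW.DD_step hb ε (rs_cont hf (x l) (2 ^ l)) (rs_cs hfc (x l) (by positivity)) (n + l)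
      (x := xf x l 1) ((xf_one h l).trans hR) hw
    rw [DD_f0, DD_fr] at h1
    have h2 := mul_le_mul_of_nonneg_left h1 (by positivity : (0 : ℝ) ≤ (2 * 2 ^ d) ^ l)
    rw [pow_succ]
    linarith

/-- integrals in a frame as integrals at level 0 -/
lemma frame_back (f : Sp d → E) (e : E) (x : Sp d) {t : ℝ} (ht : 0 < t) (ζ : Sp d → ℝ) :
    ∫ y, ⟪rs x t f y, e⟫_ℝ * ζ y =
      t / t ^ d * ∫ y, ⟪f y, e⟫_ℝ * ζ (-((1 / t) • x) + (1 / t) • y) := by
  rw [← TU.frame_int f e x ht (fun y => ζ (-((1 / t) • x) + (1 / t) • y))]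
  congr 1
  ext y
  congr 2
  rw [smul_add, smul_smul, one_div_mul_cancel ht.ne', one_smul]
  abel

end U

/-! ## directions -/

/-- the density of the cell l, with the direction of the cell 0 -/
def mo {E : Type} [NormedAddCommGroup E] [InnerProductSpace ℝ E] (f : Sp d → E) (x : ℕ → Sp d)
    (e : E) (l : ℕ) (y : Sp d) : ℝ := ⟪rs (x l) (2 ^ l) f y, e⟫_ℝ

theorem dirn (hZ : StmtZ) (hDI : StmtDI) (hd : 1 ≤ d) {M c0 ε : ℝ} (hε : 0 < ε) (hε1 : ε ≤ 1)
    {b : Sp d → ℝ} (hb : BaseKer 2 M c0 b) {R0 : ℝ} (hR0 : 100 + 8 * d ≤ R0) (I : ℕ) :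
    ∃ C : ℝ, 0 < C ∧
    ∀ (E : Type) [NormedAddCommGroup E] [InnerProductSpace ℝ E] [FiniteDimensional ℝ E],
    ∀ (R : ℝ), 2 ^ (I + 2) * R0 + 10 ≤ R → ∀ f : Sp d → E, Continuous f → HasCompactSupport f →
    ∀ (n : ℕ) (x : ℕ → Sp d) (e : ℕ → E), Tower x e → ∀ D : ℝ,
      (∀ j, DD b ε R ((1 / 2) ^ n) f (n + j) (x j) (e j) ≤ pw (1 / 4) j * D) → ∀ l ≤ I,
      (∀ (ζ : Sp d → ℝ) (N : ℝ), TFn 2 N ζ → (∀ y, R0 + 13 ≤ ‖y‖ → ζ y = 0) →
        |(∫ y, mo f x (e l) l y * ζ y) - ∫ y, mo f x (e 0) l y * ζ y| ≤ N * (C * D)) ∧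
      ZP (R0 + 13) (C * D) (mo f x (e 0) l) := by
  have hd1 : (1 : ℝ) ≤ d := by exact_mod_cast hd
  have hsq : Real.sqrt d ≤ d := by
    rw [Real.sqrt_le_left (by positivity)]
    nlinarith
  obtain ⟨CZ, hCZ, Z⟩ := hZ d hd M c0 ε hε hε1 b hb
  obtain ⟨CD, hCD, DI⟩ := TU.DI' hDI hd hε hε1 hb
  obtain ⟨K, hK⟩ : ∃ K : ℝ, K = 2 * 2 ^ d := ⟨_, rfl⟩
  have hK1 : 1 ≤ K := by
    have : (1 : ℝ) ≤ 2 ^ d := one_le_pow₀ (by norm_num)
    rw [hK]
    linarith
  refine ⟨CD * (K ^ I * 2 ^ I + 1) + CZ, by positivity, ?_⟩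
  intro E _ _ _ R hR f hf hfc n x e hT D hD l hl
  have hs0 : (0 : ℝ) < (1 / 2) ^ n := by positivity
  have hDD0 : DD b ε R ((1 / 2) ^ n) f n 0 (e 0) ≤ D := by
    have := hD 0
    rwa [pw_zero, one_mul, add_zero, hT.zero] at this
  have hD0 : 0 ≤ D := (TU.DD_nonneg b ε R hs0 f n 0 (hT.unit 0)).trans hDD0
  obtain ⟨t, ht⟩ : ∃ t : ℝ, t = 2 ^ l := ⟨_, rfl⟩
  have ht1 : 1 ≤ t := by rw [ht]; exact one_le_pow₀ (by norm_num)
  have ht0 : 0 < t := by linarith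
  have htI : t ≤ 2 ^ I := by rw [ht]; exact pow_le_pow_right₀ (by norm_num) hl
  have hR4 : 4 * t * R0 + 10 ≤ R := by
    have e1 : (2 : ℝ) ^ (I + 2) = 4 * 2 ^ I := by rw [pow_add]; ring
    rw [e1] at hR
    have : t * R0 ≤ 2 ^ I * R0 := mul_le_mul_of_nonneg_right htI (by linarith)
    linarith
  have htR : R0 ≤ t * R0 := le_mul_of_one_le_left (by linarith) ht1
  have hR3 : 3 ≤ R := by linarith
  have hRd : Real.sqrt d ≤ R := by linarith
  have hfac : t / t ^ d ≤ 1 := by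
    rw [div_le_one (by positivity)]
    exact le_self_pow₀ ht1 (by omega)
  have hfac0 : 0 ≤ t / t ^ d := by positivity
  have hxl : ‖x l‖ ≤ Real.sqrt d * t := by
    have h1 := tower_norm hT l
    rw [← ht] at h1
    have := Real.sqrt_nonneg (d : ℝ)
    linarith
  -- supports
  have hsupp : ∀ z : Sp d, R - 2 ≤ ‖z‖ → R0 + 13 ≤ ‖-((1 / t) • x l) + (1 / t) • z‖ := by
    intro z hz
    have e1 : z = t • (-((1 / t) • x l) + (1 / t) • z) + x l := by
      rw [smul_add, smul_neg, smul_smul, smul_smul, mul_one_div_cancel ht0.ne', one_smul, one_smul]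
      abel
    have e2 := norm_add_le (t • (-((1 / t) • x l) + (1 / t) • z)) (x l)
    rw [← e1, norm_smul, Real.norm_of_nonneg ht0.le] at e2
    have e3 : t * (R0 + 13) ≤ t * ‖-((1 / t) • x l) + (1 / t) • z‖ := by
      have e4 : Real.sqrt d * t ≤ d * t := mul_le_mul_of_nonneg_right hsq ht0.le
      have e5 : t * (100 + 8 * d) ≤ t * R0 := mul_le_mul_of_nonneg_left hR0 ht0.le
      have e6 : 0 ≤ t * d := by positivity
      linarith
    exact le_of_mul_le_mul_left e3 ht0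
  have hDl : DD b ε R ((1 / 2) ^ n) f n 0 (e l) ≤ K ^ I * 2 ^ I * D := by
    have h1 := DD_chain hb ε hf hfc n hRd hT (hT.unit l) l
    rw [← hK] at h1
    have h2 := hD l
    have h3 : pw (1 / 4) l ≤ 2 ^ I := by
      have := pw_le (show (1 / 4 : ℝ) ≤ 1 by norm_num) l
      rw [pw_one, ← ht] at this
      exact this.trans htI
    have h4 : K ^ l ≤ K ^ I := pow_le_pow_right₀ hK1 hl
    calc DD b ε R ((1 / 2) ^ n) f n 0 (e l)
        ≤ K ^ l * (pw (1 / 4) l * D) := h1.trans (mul_le_mul_of_nonneg_left h2 (by positivity))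
      _ ≤ K ^ I * (2 ^ I * D) := by
          refine mul_le_mul h4 (mul_le_mul_of_nonneg_right h3 hD0) ?_ (by positivity)
          exact mul_nonneg (pw_pos _ _).le hD0
      _ = _ := by ring
  have hmo : ∀ (w : E) (ζ : Sp d → ℝ), ∫ y, mo f x w l y * ζ y =
      t / t ^ d * ∫ y, ⟪f y, w⟫_ℝ * ζ (-((1 / t) • x l) + (1 / t) • y) := by
    intro w ζ
    unfold mo
    rw [← ht]
    exact frame_back f w (x l) ht0 ζ
  refine ⟨?_, ?_⟩
  · intro ζ N hζ hs
    have hN := TU.TFn_nonneg hζ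
    have T := TU.TFn_aff hζ (-((1 / t) • x l)) (t := 1 / t) (by positivity)
    have e1 : max 1 |1 / t| = 1 := by
      rw [abs_of_pos (by positivity), max_eq_left]
      rw [div_le_one ht0]
      exact ht1
    rw [e1, one_pow, one_mul] at T
    have k1 := DI E f hf hfc R hR3 n (e l) (e 0) (hT.unit l) (hT.unit 0) 0 0 _ N T
      (fun z hz => hs _ (hsupp z (by rw [sub_zero] at hz; linarith)))
      (fun z hz => hs _ (hsupp z (by rw [sub_zero] at hz; linarith)))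
    have hint : ∀ (w : E), Integrable fun y => ⟪f y, w⟫_ℝ *
        ζ (-((1 / t) • x l) + (1 / t) • y) := by
      intro w
      refine Continuous.integrable_of_hasCompactSupport
        ((hf.inner continuous_const).mul T.smooth.continuous) ?_
      exact (hfc.comp_left (g := fun v : E => ⟪v, w⟫_ℝ) (inner_zero_left _)).mul_right
    have k2 : ∫ y, ⟪f y, e l - e 0⟫_ℝ * ζ (-((1 / t) • x l) + (1 / t) • y) =
        (∫ y, ⟪f y, e l⟫_ℝ * ζ (-((1 / t) • x l) + (1 / t) • y)) -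
        ∫ y, ⟪f y, e 0⟫_ℝ * ζ (-((1 / t) • x l) + (1 / t) • y) := by
      rw [← integral_sub (hint _) (hint _)]
      congr 1
      ext y
      rw [inner_sub_right]
      ring
    rw [k2] at k1
    rw [hmo, hmo, ← mul_sub, abs_mul, abs_of_nonneg hfac0]
    have k3 : CD * N * (DD b ε R ((1 / 2) ^ n) f n 0 (e l) + DD b ε R ((1 / 2) ^ n) f n 0 (e 0)) ≤
        CD * N * (K ^ I * 2 ^ I * D + D) :=
      mul_le_mul_of_nonneg_left (add_le_add hDl hDD0) (by positivity)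
    calc t / t ^ d * |(∫ y, ⟪f y, e l⟫_ℝ * ζ (-((1 / t) • x l) + (1 / t) • y)) -
          ∫ y, ⟪f y, e 0⟫_ℝ * ζ (-((1 / t) • x l) + (1 / t) • y)|
        ≤ 1 * (CD * N * (K ^ I * 2 ^ I * D + D)) :=
          mul_le_mul hfac (k1.trans k3) (abs_nonneg _) (by norm_num)
      _ ≤ N * ((CD * (K ^ I * 2 ^ I + 1) + CZ) * D) := by
          have : 0 ≤ N * (CZ * D) := by positivity
          linarith
  · intro H hH hH0 hH1 hH2 hHs
    have e0 : ContDiff ℝ 2 (fun y => H (-((1 / t) • x l) + (1 / t) • y)) := by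
      have e1 : ContDiff ℝ 2 (fun y : Sp d => -((1 / t) • x l) + (1 / t) • y) := by fun_prop
      exact hH.comp e1
    have k1 := Z E f hf hfc R hR3 n (e 0) (hT.unit 0) 0
      (fun y => H (-((1 / t) • x l) + (1 / t) • y)) e0 (fun y => hH0 _) (fun y => hH1 _)
      (fun y => by
        rw [TU.itF_aff_norm 2 H (-((1 / t) • x l)) (1 / t) (by positivity) y,
          abs_of_pos (by positivity)]
        have e1 : (1 / t) ^ 2 ≤ 1 := by
          refine pow_le_one₀ (by positivity) ?_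
          rw [div_le_one ht0]
          exact ht1
        have := mul_le_mul e1 (hH2 (-((1 / t) • x l) + (1 / t) • y)) (norm_nonneg _)
          (by norm_num : (0 : ℝ) ≤ 1)
        linarith)
      (fun z hz => hHs _ (hsupp z (by rw [sub_zero] at hz; linarith)))
    rw [hmo]
    have k2 : -(CZ * D) ≤
        ∫ y, ⟪f y, e 0⟫_ℝ * H (-((1 / t) • x l) + (1 / t) • y) := by
      have := mul_le_mul_of_nonneg_left hDD0 hCZ.le
      linarith
    have k3 : -(CZ * D) ≤ t / t ^ d *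
        ∫ y, ⟪f y, e 0⟫_ℝ * H (-((1 / t) • x l) + (1 / t) • y) := by
      have k4 := mul_le_mul_of_nonneg_left k2 hfac0
      have k5 : t / t ^ d * (CZ * D) ≤ 1 * (CZ * D) :=
        mul_le_mul_of_nonneg_right hfac (by positivity)
      linarith
    have k6 : 0 ≤ CD * (K ^ I * 2 ^ I + 1) * D := by positivity
    linarith

/-! ## sheets -/

lemma TB_nonneg {J : ℕ} {n : Sp d} (hn : ‖n‖ = 1) {s N : ℝ} {ζ : Sp d → ℝ}
    (h : TB J n s N ζ) : 0 ≤ N := by
  have h1 := (h 0 (Nat.zero_le _) (fun i => i.elim0) (fun i => i.elim0) (fun i => i.elim0)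
    (s • n) (by rw [real_inner_smul_right, real_inner_self_eq_norm_sq, hn]; ring)).1
  exact (abs_nonneg _).trans h1

lemma Sheet_mono {J : ℕ} {R ab ep D s : ℝ} {m : Sp d → ℝ} {n : Sp d}
    (h : Sheet J R ab ep D m n s) {ep' D' : ℝ} (h1 : ep ≤ ep') (h2 : D ≤ D') :
    Sheet J R ab ep' D' m n s where
  n1 := h.n1
  ab0 := h.ab0
  ep0 := h.ep0.trans h1
  loc := h.loc
  est := by
    intro ζ ρ N N2 hζ hρ hρR hs hT h2'
    have hN := TB_nonneg h.n1 hT
    have hN2 : 0 ≤ N2 := (norm_nonneg _).trans (h2' 0)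
    refine (h.est ζ ρ N N2 hζ hρ hρR hs hT h2').trans ?_
    have k1 := mul_le_mul_of_nonneg_right h1 hN
    have k2 := mul_le_mul_of_nonneg_left h2 (add_nonneg hN hN2)
    linarith

lemma Sheet_rad {J : ℕ} {R ab ep D s : ℝ} {m : Sp d → ℝ} {n : Sp d}
    (h : Sheet J R ab ep D m n s) {R' : ℝ} (h1 : R' ≤ R) (h2 : |s| ≤ 3 / 2 * R') :
    Sheet J R' ab ep D m n s where
  n1 := h.n1
  ab0 := h.ab0
  ep0 := h.ep0
  loc := h2
  est := fun ζ ρ N N2 hζ hρ hρR hs hT h2' =>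
    h.est ζ ρ N N2 hζ hρ (hρR.trans h1) hs hT h2'

/-- replacing the density by one which is close on test functions -/
theorem transfer (d : ℕ) {R : ℝ} (hR : 1 ≤ R) : ∃ C : ℝ, 1 ≤ C ∧
    ∀ (J : ℕ) (ab ep D δ s : ℝ) (m m' : Sp d → ℝ) (n : Sp d), Sheet J R ab ep D m n s →
      0 ≤ δ → (∀ (ζ : Sp d → ℝ) (N : ℝ), TFn 2 N ζ → (∀ y, R + 2 ≤ ‖y‖ → ζ y = 0) →
        |(∫ y, m y * ζ y) - ∫ y, m' y * ζ y| ≤ N * δ) →
      Sheet J R ab ep (D + C * δ) m' n s ∧ blc n s m' R ≤ blc n s m R + C * δ := by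
  obtain ⟨Cz, hCz, T0⟩ := SS.TFn_zR (d := d) (R + 1)
  obtain ⟨Cb, hCb⟩ : ∃ Cb : ℝ, Cb = 4 ^ 2 * Cz * max 1 ((R + 2) + 3 / 2 * R) ^ 2 := ⟨_, rfl⟩
  have hCb0 : 0 < Cb := by rw [hCb]; positivity
  have hC1 : 1 ≤ (2 * R + 1) ^ 2 := one_le_pow₀ (by linarith)
  refine ⟨Cb + (2 * R + 1) ^ 2, by linarith, ?_⟩
  intro J ab ep D δ s m m' n hS hδ hm
  have hblc : ∀ ρ, 1 ≤ ρ → ρ ≤ R + 1 → |blc n s m ρ - blc n s m' ρ| ≤ Cb * δ := by
    intro ρ h1 h2
    have T1 : TFn 2 Cb (fun y => zR ρ y * ht n s y ^ 2) := by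
      rw [hCb]
      exact TU.TFn_ht_sq (ρ := R + 2) (T0 ρ h1 h2) (fun y hy => TU.zR_zero (by linarith))
        hS.n1 hS.loc
    exact hm _ _ T1 (fun y hy => by rw [TU.zR_zero (by linarith), zero_mul])
  refine ⟨⟨hS.n1, hS.ab0, hS.ep0, hS.loc, ?_⟩, ?_⟩
  · intro ζ ρ N N2 hζ hρ hρR hs hT h2
    have hN := TB_nonneg hS.n1 hT
    have hN2 : 0 ≤ N2 := (norm_nonneg _).trans (h2 0)
    have k1 := hS.est ζ ρ N N2 hζ hρ hρR hs hT h2
    have k2 := hm ζ ((2 * R + 1) ^ 2 * N2) (SS.TFn_of_d2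
      (hζ.of_le (by exact_mod_cast (by omega : 2 ≤ J + 2))) hρ hρR h2 hs hS.n1)
      (fun y hy => hs y (by linarith))
    have k3 := hblc (ρ + 1) (by linarith) (by linarith)
    have k4 := (abs_le.1 k3).2
    have k5 : N2 * blc n s m (ρ + 1) ≤ N2 * (blc n s m' (ρ + 1) + Cb * δ) :=
      mul_le_mul_of_nonneg_left (by linarith) hN2
    have k6 : |(∫ y, m' y * ζ y) - ab * plInt n s ζ| ≤
        |(∫ y, m y * ζ y) - ab * plInt n s ζ| + |(∫ y, m y * ζ y) - ∫ y, m' y * ζ y| := by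
      have e1 : (∫ y, m' y * ζ y) - ab * plInt n s ζ = ((∫ y, m y * ζ y) - ab * plInt n s ζ) -
        ((∫ y, m y * ζ y) - ∫ y, m' y * ζ y) := by ring
      rw [e1]
      exact abs_sub _ _
    have k7 : 0 ≤ N * ((Cb + (2 * R + 1) ^ 2) * δ) := by positivity
    linarith
  · have k3 := hblc R hR (by linarith)
    have k4 := (abs_le.1 k3).1
    have k5 : 0 ≤ (2 * R + 1) ^ 2 * δ := by positivity
    linarith

/-- the off-sheet mass for two radii -/
theorem blc_rad (d : ℕ) {R R' : ℝ} (hR : 1 ≤ R) (hR' : R ≤ R') : ∃ C : ℝ, 1 ≤ C ∧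
    ∀ (D s : ℝ) (m : Sp d → ℝ) (n : Sp d), Continuous m → 0 ≤ D → ‖n‖ = 1 → |s| ≤ 3 / 2 * R →
      ZP (R' + 1) D m → blc n s m R ≤ blc n s m R' + C * D := by
  obtain ⟨Cz, hCz, T0⟩ := SS.TFn_zR (d := d) R'
  obtain ⟨Cb, hCb⟩ : ∃ Cb : ℝ, Cb = 4 ^ 2 * Cz * max 1 ((R' + 1) + 3 / 2 * R) ^ 2 := ⟨_, rfl⟩
  have hCb0 : 0 < Cb := by rw [hCb]; positivity
  refine ⟨1 + 2 * Cb, by linarith, ?_⟩
  intro D s m n hm hD hn hs hZ
  have T1 : TFn 2 Cb (fun y => zR R y * ht n s y ^ 2) := by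
    rw [hCb]
    exact TU.TFn_ht_sq (ρ := R' + 1) (T0 R hR hR') (fun y hy => TU.zR_zero (by linarith)) hn hs
  have T2 : TFn 2 Cb (fun y => zR R' y * ht n s y ^ 2) := by
    rw [hCb]
    exact TU.TFn_ht_sq (ρ := R' + 1) (T0 R' (by linarith) le_rfl)
      (fun y hy => TU.zR_zero (by linarith)) hn hs
  have T3 := TU.TFn_const_mul (TU.TFn_sub T2 T1) (1 / (Cb + Cb))
  have e1 : |1 / (Cb + Cb)| * (Cb + Cb) = 1 := by
    rw [abs_of_pos (by positivity)]
    field_simp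
  rw [e1] at T3
  have k1 := hZ _ T3.smooth (fun y => by
      have := zR_mono (d := d) hR' y
      have := mul_le_mul_of_nonneg_right this (sq_nonneg (ht n s y))
      have h2 : 0 ≤ 1 / (Cb + Cb) := by positivity
      exact mul_nonneg h2 (by linarith)) (fun y => (le_abs_self _).trans (TU.TFn_norm T3 y))
    (fun y => T3.bd 2 le_rfl y) (fun y hy => by
      rw [TU.zR_zero (R := R') hy, TU.zR_zero (R := R) (by linarith)]
      ring)
  have hint : ∀ ρ, 0 < ρ → Integrable fun y => m y * (zR ρ y * ht n s y ^ 2) := by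
    intro ρ hρ
    have h1 : Continuous (zR ρ : Sp d → ℝ) := (TU.zR_smooth hρ).continuous
    have h2 : Continuous (ht n s) := (TU.ht_smooth n s (n := 0)).continuous
    refine Continuous.integrable_of_hasCompactSupport (by fun_prop) ?_
    exact ((TU.zR_cs ρ).mul_right).mul_left
  have k2 : ∫ y, m y * (1 / (Cb + Cb) * (zR R' y * ht n s y ^ 2 - zR R y * ht n s y ^ 2)) =
      1 / (Cb + Cb) * (blc n s m R' - blc n s m R) := by
    have e2 : blc n s m R' - blc n s m R =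
        ∫ y, (m y * (zR R' y * ht n s y ^ 2) - m y * (zR R y * ht n s y ^ 2)) :=
      (integral_sub (hint R' (by linarith)) (hint R (by linarith))).symm
    rw [e2, ← integral_const_mul]
    congr 1
    ext y
    ring
  rw [k2] at k1
  have k3 := mul_le_mul_of_nonneg_left k1 (by positivity : 0 ≤ Cb + Cb)
  have k4 : (Cb + Cb) * (1 / (Cb + Cb) * (blc n s m R' - blc n s m R)) =
      blc n s m R' - blc n s m R := by
    field_simp
  rw [k4] at k3
  linarith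

end

end ML

end TG
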