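import Pool.Agent.TG.MLb

/-!
# MODULE ML, part 3: the sheet of one level (helper25)
-/

open MeasureTheory Metric Set TrI
open scoped InnerProductSpace ContDiff

namespace TG

namespace ML

noncomputable section

set_option linter.unusedSectionVars false

/-- comparison of the radii R0 and ρ for the cells of a tower -/
theorem lv (h : StmtZ) (h1 : StmtMA) (h2 : StmtDI) {d : ℕ} (hd : 1 ≤ d) {M c0 ε : ℝ}
    (hε : 0 < ε) (hε1 : ε ≤ 1) {b : Sp d → ℝ} (hb : BaseKer 2 M c0 b) {R0 ρ : ℝ}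
    (hR0 : 100 + 8 * d ≤ R0) (hρ : R0 ≤ ρ) (hρ' : ρ ≤ R0 + 10) : ∃ C : ℝ, 1 ≤ C ∧
    ∀ (E : Type) [NormedAddCommGroup E] [InnerProductSpace ℝ E] [FiniteDimensional ℝ E],
    ∀ (R : ℝ), 4 * R0 + 10 ≤ R → ∀ f : Sp d → E, Continuous f → HasCompactSupport f →
    ∀ (n : ℕ) (x : ℕ → Sp d) (e : ℕ → E), Tower x e → ∀ j : ℕ,
      ma b ε ρ ((1 / 2) ^ n) f (n + j) (x j) ≤ C *
        (ma b ε R0 ((1 / 2) ^ n) f (n + (j + 1)) (x (j + 1)) +
          DD b ε R ((1 / 2) ^ n) f (n + (j + 1)) (x (j + 1)) (e (j + 1))) ∧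
      (∀ (ν : Sp d) (c : ℝ), ‖ν‖ = 1 → |c| ≤ R0 + 3 →
        bD b ε ρ R ((1 / 2) ^ n) f (n + j) (x j) (e j) ν c ≤ C *
          (bD b ε R0 R ((1 / 2) ^ n) f (n + (j + 1)) (x (j + 1)) (e (j + 1)) ν c +
            DD b ε R ((1 / 2) ^ n) f (n + j) (x j) (e j))) ∧
      Mi R0 (rs (x j) (2 ^ j) f) (e j) ≤ Mi ρ (rs (x j) (2 ^ j) f) (e j) +
        C * DD b ε R ((1 / 2) ^ n) f (n + j) (x j) (e j) ∧
      Mi ρ (rs (x j) (2 ^ j) f) (e j) ≤ C * (ma b ε R0 ((1 / 2) ^ n) f (n + j) (x j) +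
        DD b ε R ((1 / 2) ^ n) f (n + j) (x j) (e j)) := by
  have hd1 : (1 : ℝ) ≤ d := by exact_mod_cast hd
  have hsq : Real.sqrt d ≤ d := by
    rw [Real.sqrt_le_left (by positivity)]
    nlinarith
  obtain ⟨C, hC, H⟩ := cmp h h1 h2 hd hε hε1 hb hR0 hρ hρ'
  refine ⟨C, hC, ?_⟩
  intro E _ _ _ R hR f hf hfc n x e hT j
  obtain ⟨k1, k2, k3, k4⟩ := H E R hR (rs (x j) (2 ^ j) f) (rs_cont hf _ _)
    (rs_cs hfc _ (by positivity)) (n + j) (xf x j 1) (e j) (e (j + 1)) (xf_one hT j) (hT.unit _)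
    (hT.unit _)
  rw [ma_f0, ma_fr, DD_fr] at k1
  rw [DD_f0] at k3 k4
  rw [ma_f0] at k4
  refine ⟨k1, fun ν c hν hc => ?_, k3, k4⟩
  have k5 := k2 ν (cf ν c x j) hν ((cf_le hT hν hc (by linarith) j).trans (by linarith))
  rw [bD_f0 hd b ε ρ R n hf hfc, bD_fr hd b ε R0 R n hf hfc, DD_f0] at k5
  exact k5

/-- the sheet of one level -/
theorem core (hSAF : StmtSAF) (hZ : StmtZ) (hMA : StmtMA) (hDI : StmtDI) (hSC : StmtSC)
    (d : ℕ) (V E : Type) [NormedAddCommGroup V] [InnerProductSpace ℝ V] [FiniteDimensional ℝ V]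
    [NormedAddCommGroup E] [InnerProductSpace ℝ E] [FiniteDimensional ℝ E]
    (L : (Sp d →L[ℝ] V) →L[ℝ] E) (hd : 2 ≤ d) (hL : CEll L) : ∃ J : ℕ,
    ∀ (M c0 ε : ℝ), 0 < ε → ε ≤ 1 → ∀ (b : Sp d → ℝ), BaseKer 2 M c0 b →
    ∀ (R0 ρ γ K CP : ℝ), 200 + 8 * d ≤ R0 → R0 ≤ ρ → ρ ≤ R0 + 10 → 0 < γ → γ ≤ 1 / 64 → 1 ≤ K →
      1 ≤ CP → ∃ (C κ : ℝ), 0 < C ∧ 0 < κ ∧
      ∀ (R : ℝ), 4 * ρ + 10 ≤ R → ∀ (n : ℕ) (u : Sp d → V), TF u →
      ∀ (x : ℕ → Sp d) (e : ℕ → E), Tower x e → ∀ (a B D : ℝ), 0 < a → 0 ≤ B → 0 ≤ D →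
      (∀ j, ma b ε R0 ((1 / 2) ^ n) (fo L u) (n + j) (x j) ≤ K * pw γ j * a) →
      ∀ (ν : Sp d) (c : ℝ), ‖ν‖ = 1 → |c| ≤ R0 + 3 →
      (∀ j, bD b ε R0 R ((1 / 2) ^ n) (fo L u) (n + j) (x j) (e j) ν c ≤ pw (1 / 2) j * B) →
      (∀ j, DD b ε R ((1 / 2) ^ n) (fo L u) (n + j) (x j) (e j) ≤ pw (1 / 4) j * D) →
      ∀ l : ℕ, pw (3 / 5) l * B ≤ κ * a →
      a ≤ CP * Mi R0 (rs (x (l + 2)) (2 ^ (l + 2)) (fo L u)) (e (l + 2)) →
      ∃ (ν' : Sp d) (c' ab : ℝ), ‖ν'‖ = 1 ∧ ‖ν' - ν‖ ≤ 1 / 4 ∧ |c'| ≤ R0 + 4 ∧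
        a ≤ C * ab ∧ ab ≤ C * pw (1 / 8) l * a ∧
        max 0 (blc ν' c' (mo (fo L u) x (e l) l) ρ) ≤ C * pw (3 / 4) l * B ∧
        Sheet J ρ ab (C * pw (3 / 4) l * (B + Real.sqrt (a * D))) (C * pw (1 / 4) l * D)
          (mo (fo L u) x (e l) l) ν' c' := by
  obtain ⟨J, hJ⟩ := hSAF d V E L hd hL
  refine ⟨J, ?_⟩
  intro M c0 ε hε hε1 b hb R0 ρ γ K CP hR0 hρ hρ' hγ0 hγ hK hCP
  have hd1 : (2 : ℝ) ≤ d := by exact_mod_cast hd
  have hsq : Real.sqrt d ≤ d := by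
    rw [Real.sqrt_le_left (by positivity)]
    nlinarith
  obtain ⟨CS, κS, hCS, hκS, HS⟩ := hJ M c0 ε hε hε1 b hb ρ (by linarith)
  obtain ⟨CT, hCT, HT⟩ := lv hZ hMA hDI (by omega : 1 ≤ d) hε hε1 hb (R0 := R0) (ρ := ρ)
    (by linarith) hρ hρ'
  have hCT0 : 0 < CT := by linarith
  have hCP0 : 0 < CP := by linarith
  have hK0 : 0 < K := by linarith
  obtain ⟨A, hA⟩ : ∃ A : ℝ, A = 1 + 32 * CT * K * CP := ⟨_, rfl⟩
  have hA1 : 1 ≤ A := by
    rw [hA]
    have : 0 < 32 * CT * K * CP := by positivity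
    linarith
  have hA0 : 0 < A := by linarith
  obtain ⟨κ, hκ0, hκ1, hκ2, hκ3, hκ4, hκ5, hκ6⟩ : ∃ κ : ℝ, 0 < κ ∧ κ ≤ 1 ∧
      8 * CT * CP * κ ≤ 1 ∧ 24 * CT * CP * κ ≤ κS ∧ 768 * CT ^ 2 * K * CP ^ 2 * κ ≤ κS ∧
      24 * A ^ 2 * CT * CP * κ ≤ κS ∧ 384 * CS * A * CT * CP * κ ≤ 1 := by
    refine ⟨min (min (min 1 (1 / (8 * CT * CP))) (min (κS / (24 * CT * CP))
      (κS / (768 * CT ^ 2 * K * CP ^ 2)))) (min (κS / (24 * A ^ 2 * CT * CP))
      (1 / (384 * CS * A * CT * CP))), by positivity, ?_, ?_, ?_, ?_, ?_, ?_⟩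
    · exact (min_le_left _ _).trans ((min_le_left _ _).trans (min_le_left _ _))
    · rw [← le_div_iff₀' (by positivity)]
      exact (min_le_left _ _).trans ((min_le_left _ _).trans (min_le_right _ _))
    · rw [← le_div_iff₀' (by positivity)]
      exact (min_le_left _ _).trans ((min_le_right _ _).trans (min_le_left _ _))
    · rw [← le_div_iff₀' (by positivity)]
      exact (min_le_left _ _).trans ((min_le_right _ _).trans (min_le_right _ _))
    · rw [← le_div_iff₀' (by positivity)]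
      exact (min_le_right _ _).trans (min_le_left _ _)
    · rw [← le_div_iff₀' (by positivity)]
      exact (min_le_right _ _).trans (min_le_right _ _)
  obtain ⟨C, hC⟩ : ∃ C : ℝ, C = 2 * CP * CS + 8 * CS * A * CT * K + 12 * CS * A ^ 2 * CT +
    32 * CS * A ^ 2 * CT * K + 4 * CS := ⟨_, rfl⟩
  have c1 : 0 < 2 * CP * CS := by positivity
  have c2 : 0 < 8 * CS * A * CT * K := by positivity
  have c3 : 0 < 12 * CS * A ^ 2 * CT := by positivity
  have c4 : 0 < 32 * CS * A ^ 2 * CT * K := by positivity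
  have c5 : 0 < 4 * CS := by positivity
  refine ⟨C, κ, by linarith, hκ0, ?_⟩
  intro R hR n u hu x e hT a B D ha hB hD hma ν c hν hc hbD hDD l hsm hMi
  have hf : Continuous (fo L u) := CM.fo_cont hu
  have hfc : HasCompactSupport (fo L u) := CM.fo_cs hu
  obtain ⟨f, hff⟩ : ∃ f, f = fo L u := ⟨_, rfl⟩
  have hs0 : (0 : ℝ) < (1 / 2) ^ n := by positivity
  have hR' : 4 * R0 + 10 ≤ R := by linarith
  have HTj := HT E R hR' (fo L u) hf hfc n x e hT
  -- names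
  have w0 := pw_pos (1 / 2) l
  have g0 := pw_pos γ l
  have g1 := one_le_pw hγ0.le l
  have q0 := pw_pos (1 / 4) l
  have hDD0 : ∀ j, 0 ≤ DD b ε R ((1 / 2) ^ n) (fo L u) (n + j) (x j) (e j) := fun j =>
    TU.DD_nonneg b ε R hs0 _ _ _ (hT.unit j)
  have hDB : ∀ j, DD b ε R ((1 / 2) ^ n) (fo L u) (n + j) (x j) (e j) ≤ pw (1 / 2) j * B := by
    intro j
    refine le_trans ?_ (hbD j)
    unfold bD
    have := le_max_left 0 (bb R0 ((1 / 2) ^ n) (fo L u) (n + j) (x j) (e j) ν c)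
    linarith
  have hw2 : pw (1 / 2) (l + 2) ≤ 4 * pw (1 / 2) l := by
    have := pw_add_le (show (1 / 2 : ℝ) ≤ 1 by norm_num) l 2
    linarith
  have hw3 : pw (1 / 2) (l + 2 + 1) ≤ 8 * pw (1 / 2) l := by
    have := pw_add_le (show (1 / 2 : ℝ) ≤ 1 by norm_num) l 3
    linarith
  have hg2 : pw γ (l + 2) ≤ 4 * pw γ l := by
    have := pw_add_le (show γ ≤ 1 by linarith) l 2
    linarith
  have hg3 : pw γ (l + 2 + 1) ≤ 8 * pw γ l := by
    have := pw_add_le (show γ ≤ 1 by linarith) l 3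
    linarith
  have hwB : pw (1 / 2) l * B ≤ κ * a :=
    (mul_le_mul_of_nonneg_right (pw_le (by norm_num) l) hB).trans hsm
  have hwB0 : 0 ≤ pw (1 / 2) l * B := by positivity
  obtain ⟨w, hw⟩ : ∃ w : ℝ, w = pw (1 / 2) l := ⟨_, rfl⟩
  obtain ⟨g, hg⟩ : ∃ g : ℝ, g = pw γ l := ⟨_, rfl⟩
  obtain ⟨q, hq⟩ : ∃ q : ℝ, q = pw (1 / 4) l := ⟨_, rfl⟩
  rw [← hw] at w0 hw2 hw3 hwB hwB0
  rw [← hg] at g0 g1 hg2 hg3
  rw [← hq] at q0
  obtain ⟨T1, T2, T3, T4⟩ := HTj (l + 2)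
  have hD2 : DD b ε R ((1 / 2) ^ n) (fo L u) (n + (l + 2)) (x (l + 2)) (e (l + 2)) ≤
      4 * (w * B) := by
    refine (hDB (l + 2)).trans ?_
    have := mul_le_mul_of_nonneg_right hw2 hB
    linarith
  have hD3 : DD b ε R ((1 / 2) ^ n) (fo L u) (n + (l + 2 + 1)) (x (l + 2 + 1)) (e (l + 2 + 1)) ≤
      8 * (w * B) := by
    refine (hDB (l + 2 + 1)).trans ?_
    have := mul_le_mul_of_nonneg_right hw3 hB
    linarith
  have hb3 : bD b ε R0 R ((1 / 2) ^ n) (fo L u) (n + (l + 2 + 1)) (x (l + 2 + 1))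
      (e (l + 2 + 1)) ν c ≤ 8 * (w * B) := by
    refine (hbD (l + 2 + 1)).trans ?_
    have := mul_le_mul_of_nonneg_right hw3 hB
    linarith
  have hm2' : ma b ε R0 ((1 / 2) ^ n) (fo L u) (n + (l + 2)) (x (l + 2)) ≤ 4 * (K * g * a) := by
    refine (hma (l + 2)).trans ?_
    have := mul_le_mul_of_nonneg_left hg2 (by positivity : 0 ≤ K * a)
    linarith
  have hm3' : ma b ε R0 ((1 / 2) ^ n) (fo L u) (n + (l + 2 + 1)) (x (l + 2 + 1)) ≤
      8 * (K * g * a) := by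
    refine (hma (l + 2 + 1)).trans ?_
    have := mul_le_mul_of_nonneg_left hg3 (by positivity : 0 ≤ K * a)
    linarith
  have hKga : κ * a ≤ K * g * a := by
    have h1 : 1 ≤ K * g := by
      have := mul_le_mul hK g1 (by norm_num) hK0.le
      linarith
    exact mul_le_mul_of_nonneg_right (hκ1.trans h1) ha.le
  obtain ⟨m2, hm2⟩ : ∃ m2 : ℝ, m2 = Mi ρ (rs (x (l + 2)) (2 ^ (l + 2)) (fo L u)) (e (l + 2)) :=
    ⟨_, rfl⟩
  rw [← hm2] at T3 T4
  have ham : a ≤ 2 * CP * m2 := by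
    have e1 : CP * Mi R0 (rs (x (l + 2)) (2 ^ (l + 2)) (fo L u)) (e (l + 2)) ≤
        CP * (m2 + CT * (4 * (κ * a))) := by
      refine mul_le_mul_of_nonneg_left (T3.trans ?_) hCP0.le
      have := mul_le_mul_of_nonneg_left (hD2.trans (mul_le_mul_of_nonneg_left hwB
        (by norm_num : (0 : ℝ) ≤ 4))) hCT0.le
      linarith
    have e2 := mul_le_mul_of_nonneg_right hκ2 ha.le
    linarith
  have hm20 : 0 < m2 := by
    by_contra hcon
    push Not at hcon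
    have : 2 * CP * m2 ≤ 0 := mul_nonpos_of_nonneg_of_nonpos (by positivity) hcon
    linarith
  have hm2le : m2 ≤ 8 * CT * K * g * a := by
    refine T4.trans ?_
    have e1 : ma b ε R0 ((1 / 2) ^ n) (fo L u) (n + (l + 2)) (x (l + 2)) +
        DD b ε R ((1 / 2) ^ n) (fo L u) (n + (l + 2)) (x (l + 2)) (e (l + 2)) ≤
        8 * (K * g * a) := by linarith
    have := mul_le_mul_of_nonneg_left e1 hCT0.le
    linarith
  have hmaρ : ma b ε ρ ((1 / 2) ^ n) (fo L u) (n + (l + 2)) (x (l + 2)) ≤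
      16 * CT * K * g * a := by
    refine T1.trans ?_
    have e1 : ma b ε R0 ((1 / 2) ^ n) (fo L u) (n + (l + 2 + 1)) (x (l + 2 + 1)) +
        DD b ε R ((1 / 2) ^ n) (fo L u) (n + (l + 2 + 1)) (x (l + 2 + 1)) (e (l + 2 + 1)) ≤
        16 * (K * g * a) := by linarith
    have := mul_le_mul_of_nonneg_left e1 hCT0.le
    linarith
  have hbDρ : bD b ε ρ R ((1 / 2) ^ n) (fo L u) (n + (l + 2)) (x (l + 2)) (e (l + 2)) ν c ≤
      12 * CT * (w * B) := by
    refine (T2 ν c hν hc).trans ?_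
    have e1 : bD b ε R0 R ((1 / 2) ^ n) (fo L u) (n + (l + 2 + 1)) (x (l + 2 + 1))
        (e (l + 2 + 1)) ν c +
        DD b ε R ((1 / 2) ^ n) (fo L u) (n + (l + 2)) (x (l + 2)) (e (l + 2)) ≤
        12 * (w * B) := by linarith
    have := mul_le_mul_of_nonneg_left e1 hCT0.le
    linarith
  have hbDρ0 : 0 ≤ bD b ε ρ R ((1 / 2) ^ n) (fo L u) (n + (l + 2)) (x (l + 2))
      (e (l + 2)) ν c := by
    unfold bD
    have e1 := hDD0 (l + 2)
    have e2 := le_max_left 0 (bb ρ ((1 / 2) ^ n) (fo L u) (n + (l + 2)) (x (l + 2)) (e (l + 2)) ν c)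
    linarith
  have hκa : κ * a ≤ κ * (2 * CP * m2) := mul_le_mul_of_nonneg_left ham hκ0.le
  -- the frame
  have hul := (hSC d hd 1 one_pos (x l) (2 ^ l) (by positivity)).2.2 V E L u hu
  have hTf := tower_fr hT l
  have e4 : (4 : ℝ) = 2 ^ 2 := by norm_num
  have hrs : rs (xf x l 2) 4 (fo L fun y => u (x l + (2 : ℝ) ^ l • y)) =
      rs (x (l + 2)) (2 ^ (l + 2)) (fo L u) := by
    rw [hul.2, e4, rs_fr]
  have hcf : (cf ν c x l - ⟪ν, xf x l 2⟫_ℝ) / 4 = cf ν c x (l + 2) := by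
    rw [e4, cf_cf]
  have hFlat : Flat b ε ρ R κS (rs (xf x l 2) 4 (fo L fun y => u (x l + (2 : ℝ) ^ l • y)))
      (n + l + 2) (e (l + 2)) ν ((cf ν c x l - ⟪ν, xf x l 2⟫_ℝ) / 4) := by
    rw [hrs, hcf]
    unfold Flat
    have e1 : (∫ y, ⟪rs (x (l + 2)) (2 ^ (l + 2)) (fo L u) y, e (l + 2)⟫_ℝ * zR (ρ / 3) y) = m2 :=
      hm2.symm
    rw [e1, add_assoc n l 2, bD_f0 (by omega) b ε ρ R n hf hfc, ma_f0]
    refine ⟨hm20, ?_, ?_⟩
    · refine hbDρ.trans ?_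
      have k1 : 12 * CT * (w * B) ≤ 12 * CT * (κ * (2 * CP * m2)) :=
        mul_le_mul_of_nonneg_left (hwB.trans hκa) (by positivity)
      have k2 := mul_le_mul_of_nonneg_right hκ3 hm20.le
      linarith
    · have k1 : ma b ε ρ ((1 / 2) ^ n) (fo L u) (n + (l + 2)) (x (l + 2)) *
          bD b ε ρ R ((1 / 2) ^ n) (fo L u) (n + (l + 2)) (x (l + 2)) (e (l + 2)) ν c ≤
          (16 * CT * K * g * a) * (12 * CT * (w * B)) :=
        mul_le_mul hmaρ hbDρ hbDρ0 (by positivity)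
      have k2 : g * (w * B) ≤ κ * a := by
        rw [← mul_assoc, hg, hw, pw_mul]
        exact (mul_le_mul_of_nonneg_right (pw_le (by linarith) l) hB).trans hsm
      have k3 : 192 * CT ^ 2 * K * a * (g * (w * B)) ≤ 192 * CT ^ 2 * K * a * (κ * a) :=
        mul_le_mul_of_nonneg_left k2 (by positivity)
      have k4 : a * a ≤ (2 * CP * m2) * (2 * CP * m2) := mul_le_mul ham ham ha.le (by positivity)
      have k5 : 192 * CT ^ 2 * K * κ * (a * a) ≤
          192 * CT ^ 2 * K * κ * ((2 * CP * m2) * (2 * CP * m2)) :=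
        mul_le_mul_of_nonneg_left k4 (by positivity)
      have k6 := mul_le_mul_of_nonneg_right hκ4 (by positivity : 0 ≤ m2 ^ 2)
      linarith
  have hLam1 : 1 ≤ A * g := by
    have := mul_le_mul hA1 g1 (by norm_num) hA0.le
    linarith
  have hmaLam : ma b ε ρ ((1 / 2) ^ (n + l)) (fo L fun y => u (x l + (2 : ℝ) ^ l • y))
      (n + l + 2) (xf x l 2) ≤ A * g * m2 := by
    rw [hul.2, ma_fr]
    refine hmaρ.trans ?_
    have k1 : 16 * CT * K * g * a ≤ 16 * CT * K * g * (2 * CP * m2) :=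
      mul_le_mul_of_nonneg_left ham (by positivity)
    refine k1.trans ?_
    rw [hA]
    have : 0 ≤ g * m2 := by positivity
    linarith
  have hgw : g ^ 2 * (w * B) ≤ κ * a := by
    rw [← mul_assoc, hg, hw, pw_sq, pw_mul]
    exact (mul_le_mul_of_nonneg_right (pw_le (by linarith) l) hB).trans hsm
  have hgw' : g * (w * B) ≤ κ * a := by
    rw [← mul_assoc, hg, hw, pw_mul]
    exact (mul_le_mul_of_nonneg_right (pw_le (by linarith) l) hB).trans hsm
  have hLamB : (A * g) ^ 2 * (12 * CT * (w * B)) ≤ κS * m2 := by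
    have k1 : 12 * A ^ 2 * CT * (g ^ 2 * (w * B)) ≤ 12 * A ^ 2 * CT * (κ * (2 * CP * m2)) :=
      mul_le_mul_of_nonneg_left (hgw.trans hκa) (by positivity)
    have k2 := mul_le_mul_of_nonneg_right hκ5 hm20.le
    linarith
  have hsum : ∀ I : ℕ, ∑ r ∈ Finset.range I, (1 / 2 : ℝ) ^ r *
      bD b ε ρ R ((1 / 2) ^ (n + l)) (fo L fun y => u (x l + (2 : ℝ) ^ l • y)) (n + l + r)
        (xf x l r) (e (l + r)) ν (cf ν c x l) ≤ 12 * CT * (w * B) := by
    intro I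
    rw [hul.2]
    have k1 : ∀ r, bD b ε ρ R ((1 / 2) ^ (n + l)) (rs (x l) (2 ^ l) (fo L u)) (n + l + r)
        (xf x l r) (e (l + r)) ν (cf ν c x l) ≤ 3 * CT * (w * B) * pw (1 / 2) r := by
      intro r
      rw [bD_fr (by omega) b ε ρ R n hf hfc]
      obtain ⟨-, t2, -, -⟩ := HTj (l + r)
      refine (t2 ν c hν hc).trans ?_
      have k2 := hbD (l + r + 1)
      have k3 := hDB (l + r)
      have k4 : pw (1 / 2) (l + r + 1) ≤ 2 * pw (1 / 2) (l + r) := by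
        have := pw_add_le (show (1 / 2 : ℝ) ≤ 1 by norm_num) (l + r) 1
        linarith
      have k5 : bD b ε R0 R ((1 / 2) ^ n) (fo L u) (n + (l + r + 1)) (x (l + r + 1))
          (e (l + r + 1)) ν c +
          DD b ε R ((1 / 2) ^ n) (fo L u) (n + (l + r)) (x (l + r)) (e (l + r)) ≤
          3 * (pw (1 / 2) (l + r) * B) := by
        have := mul_le_mul_of_nonneg_right k4 hB
        linarith
      rw [pw_add, ← hw] at k5
      have := mul_le_mul_of_nonneg_left k5 hCT0.le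
      linarith
    calc _ ≤ ∑ r ∈ Finset.range I, 3 * CT * (w * B) * ((1 / 2 : ℝ) ^ r * pw (1 / 2) r) := by
          refine Finset.sum_le_sum fun r _ => ?_
          have := mul_le_mul_of_nonneg_left (k1 r) (by positivity : (0 : ℝ) ≤ (1 / 2) ^ r)
          linarith
      _ = 3 * CT * (w * B) * ∑ r ∈ Finset.range I, ((1 / 2 : ℝ) ^ r * pw (1 / 2) r) := by
          rw [Finset.mul_sum]
      _ ≤ 3 * CT * (w * B) * 4 := mul_le_mul_of_nonneg_left (geo_half I) (by positivity)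
      _ = _ := by ring
  have hDr : ∀ r ≤ 2, DD b ε R ((1 / 2) ^ (n + l)) (fo L fun y => u (x l + (2 : ℝ) ^ l • y))
      (n + l + r) (xf x l r) (e (l + r)) ≤ 4 * (q * D) := by
    intro r hr
    rw [hul.2, DD_fr]
    refine (hDD (l + r)).trans ?_
    have k1 : pw (1 / 4) (l + r) ≤ 4 * q := by
      rw [hq]
      have k2 := pw_mono (show (0 : ℝ) ≤ 1 / 4 by norm_num) (show l + r ≤ l + 2 by omega)
      have k3 := pw_add_le (show (1 / 4 : ℝ) ≤ 1 by norm_num) l 2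
      linarith
    have := mul_le_mul_of_nonneg_right k1 hD
    linarith
  obtain ⟨ν', c', ab, s1, s2, s3, s4, s5, s6⟩ := HS R hR (n + l)
    (fun y => u (x l + (2 : ℝ) ^ l • y)) hul.1 (xf x l) (fun r => e (l + r)) hTf ν (cf ν c x l)
    (12 * CT * (w * B)) (4 * (q * D)) (A * g) m2 hν
    ((cf_le hT hν hc (by linarith) l).trans (by linarith)) hFlat
    (by rw [hrs]; exact hm2) hLam1 hmaLam hLamB hsum hDr
  rw [hul.2] at s5 s6
  simp only [add_zero] at s5 s6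
  have hmo : (fun y => ⟪rs (x l) (2 ^ l) (fo L u) y, e l⟫_ℝ) = mo (fo L u) x (e l) l := rfl
  rw [hmo] at s5 s6
  have hab0 : 0 < ab := s6.ab0
  -- closeness
  have hcl : ‖ν' - ν‖ ^ 2 + (c' - cf ν c x l) ^ 2 ≤ 1 / 16 := by
    have k1 : CS * (A * g) * (12 * CT * (w * B)) ≤ m2 * (1 / 16) := by
      have k2 : 12 * CS * A * CT * (g * (w * B)) ≤ 12 * CS * A * CT * (κ * (2 * CP * m2)) :=
        mul_le_mul_of_nonneg_left (hgw'.trans hκa) (by positivity)
      have k3 := mul_le_mul_of_nonneg_right hκ6 hm20.le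
      linarith
    exact le_of_mul_le_mul_left (s2.trans k1) hm20
  have hcl1 : ‖ν' - ν‖ ≤ 1 / 4 := by
    have k1 : ‖ν' - ν‖ ^ 2 ≤ (1 / 4) ^ 2 := by
      have := sq_nonneg (c' - cf ν c x l)
      linarith
    exact le_of_sq_le_sq k1 (by norm_num)
  have hcl2 : |c'| ≤ R0 + 4 := by
    have k1 : |c' - cf ν c x l| ^ 2 ≤ (1 / 4) ^ 2 := by
      rw [sq_abs]
      have := sq_nonneg ‖ν' - ν‖
      linarith
    have k2 := le_of_sq_le_sq k1 (by norm_num)
    have k3 := cf_le hT hν hc (by linarith) l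
    have k4 : |c'| ≤ |c' - cf ν c x l| + |cf ν c x l| := by
      have := abs_add_le (c' - cf ν c x l) (cf ν c x l)
      rwa [sub_add_cancel] at this
    linarith
  have hg2p : g ^ 2 ≤ pw (1 / 8) l := by
    rw [hg, pw_sq]
    exact pw_le (by linarith) l
  have hgw3 : g ^ 2 * w ≤ pw (3 / 4) l := by
    rw [hg, hw, pw_sq, pw_mul]
    exact pw_le (by linarith) l
  have hgs : g ^ 2 * pw (1 / 5) l ≤ pw (3 / 4) l := by
    rw [hg, pw_sq, pw_mul]
    exact pw_le (by linarith) l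
  have p34 := pw_pos (3 / 4) l
  have p18 := pw_pos (1 / 8) l
  refine ⟨ν', c', ab, s1, hcl1, hcl2, ?_, ?_, ?_, ?_⟩
  · have k1 : 2 * CP * m2 ≤ 2 * CP * (CS * ab) := mul_le_mul_of_nonneg_left s3 (by positivity)
    have k2 : 2 * CP * CS * ab ≤ C * ab := mul_le_mul_of_nonneg_right (by linarith) hab0.le
    linarith
  · have k1 : CS * (A * g) * m2 ≤ CS * (A * g) * (8 * CT * K * g * a) :=
      mul_le_mul_of_nonneg_left hm2le (by positivity)
    have k2 : 8 * CS * A * CT * K * a * g ^ 2 ≤ 8 * CS * A * CT * K * a * pw (1 / 8) l :=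
      mul_le_mul_of_nonneg_left hg2p (by positivity)
    have k3 : 8 * CS * A * CT * K * (pw (1 / 8) l * a) ≤ C * (pw (1 / 8) l * a) :=
      mul_le_mul_of_nonneg_right (by linarith) (by positivity)
    linarith
  · have k2 : 12 * CS * A ^ 2 * CT * B * (g ^ 2 * w) ≤ 12 * CS * A ^ 2 * CT * B * pw (3 / 4) l :=
      mul_le_mul_of_nonneg_left hgw3 (by positivity)
    have k3 : 12 * CS * A ^ 2 * CT * (pw (3 / 4) l * B) ≤ C * (pw (3 / 4) l * B) :=
      mul_le_mul_of_nonneg_right (by linarith) (by positivity)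
    linarith
  · refine Sheet_mono s6 ?_ ?_
    · obtain ⟨S, hS⟩ : ∃ S : ℝ, S = Real.sqrt (a * D) := ⟨_, rfl⟩
      have hS0 : 0 ≤ S := by rw [hS]; exact Real.sqrt_nonneg _
      have hSS : S ^ 2 = a * D := by rw [hS]; exact Real.sq_sqrt (by positivity)
      have k1 : Real.sqrt (m2 * (4 * (q * D))) ≤ 32 * CT * K * pw (1 / 5) l * S := by
        have p15 := pw_pos (1 / 5) l
        rw [Real.sqrt_le_iff]
        refine ⟨by positivity, ?_⟩
        have e1 : m2 * (4 * (q * D)) ≤ 8 * CT * K * g * a * (4 * (q * D)) :=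
          mul_le_mul_of_nonneg_right hm2le (by positivity)
        have e2 : g * q ≤ pw (1 / 5) l ^ 2 := by
          rw [hg, hq, pw_mul, pw_sq]
          exact pw_le (by linarith) l
        have e3 : 32 * CT * K * (a * D) * (g * q) ≤ 32 * CT * K * (a * D) * pw (1 / 5) l ^ 2 :=
          mul_le_mul_of_nonneg_left e2 (by positivity)
        have e5 : 32 * CT * K ≤ (32 * CT * K) ^ 2 := by
          have : 1 ≤ 32 * CT * K := by
            have := mul_le_mul hCT hK (by norm_num) hCT0.le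
            linarith
          rw [sq]
          exact le_mul_of_one_le_left (by linarith) this
        have e6 : 32 * CT * K * ((a * D) * pw (1 / 5) l ^ 2) ≤
            (32 * CT * K) ^ 2 * ((a * D) * pw (1 / 5) l ^ 2) :=
          mul_le_mul_of_nonneg_right e5 (by positivity)
        have e7 : (32 * CT * K * pw (1 / 5) l * S) ^ 2 =
            (32 * CT * K) ^ 2 * ((a * D) * pw (1 / 5) l ^ 2) := by
          rw [← hSS]
          ring
        rw [e7]
        linarith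
      rw [← hS]
      have k2 : CS * (A * g) ^ 2 * (12 * CT * (w * B) + Real.sqrt (m2 * (4 * (q * D)))) ≤
          CS * (A * g) ^ 2 * (12 * CT * (w * B) + 32 * CT * K * pw (1 / 5) l * S) :=
        mul_le_mul_of_nonneg_left (by linarith) (by positivity)
      refine k2.trans ?_
      have k3 : 12 * CS * A ^ 2 * CT * B * (g ^ 2 * w) ≤
          12 * CS * A ^ 2 * CT * B * pw (3 / 4) l :=
        mul_le_mul_of_nonneg_left hgw3 (by positivity)
      have k4 : 32 * CS * A ^ 2 * CT * K * S * (g ^ 2 * pw (1 / 5) l) ≤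
          32 * CS * A ^ 2 * CT * K * S * pw (3 / 4) l :=
        mul_le_mul_of_nonneg_left hgs (by positivity)
      have k5 : 12 * CS * A ^ 2 * CT * (pw (3 / 4) l * B) ≤ C * (pw (3 / 4) l * B) :=
        mul_le_mul_of_nonneg_right (by linarith) (by positivity)
      have k6 : 32 * CS * A ^ 2 * CT * K * (pw (3 / 4) l * S) ≤ C * (pw (3 / 4) l * S) :=
        mul_le_mul_of_nonneg_right (by linarith) (by positivity)
      linarith
    · rw [← hq]
      have k1 : 4 * CS * (q * D) ≤ C * (q * D) :=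
        mul_le_mul_of_nonneg_right (by linarith) (by positivity)
      linarith

end

end ML

end TG
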