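import Pool.Agent.TG.MO2

/-!
# The bilinear form of X2 (module TG_MO, helper37)
-/

open MeasureTheory Metric Set TrI Filter
open scoped InnerProductSpace ContDiff Nat Topology

namespace TG.MO

noncomputable section

variable {d : ℕ}

lemma int3 {α : Type*} [MeasurableSpace α] {ν : Measure α} {f g k : α → ℝ} (hf : Integrable f ν)
    (hg : Integrable g ν) (hk : Integrable k ν) (a b : ℝ) :
    (∫ x, (f x + a * g x + b * k x) ∂ν) = (∫ x, f x ∂ν) + a * (∫ x, g x ∂ν) + b * ∫ x, k x ∂ν := by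
  have h1 : Integrable (fun x => f x + a * g x) ν := hf.add (hg.const_mul a)
  rw [integral_add h1 (hk.const_mul b), integral_add hf (hg.const_mul a), integral_const_mul,
    integral_const_mul]

/-- time and space variable of integration -/
def nu (μ : Measure (Sp d)) : Measure (ℝ × Sp d) := ((volume : Measure ℝ).restrict (Ioc (1 / 2) 2)).prod μ

lemma nu_eq (μ : Measure (Sp d)) [SFinite μ] :
    nu μ = ((volume : Measure ℝ).prod μ).restrict (Ioc (1 / 2) 2 ×ˢ univ) := by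
  unfold nu
  conv_lhs => rw [← Measure.restrict_univ (μ := μ)]
  rw [Measure.prod_restrict]

lemma ae_nu (μ : Measure (Sp d)) [SFinite μ] : ∀ᵐ p ∂(nu μ), 1 / 2 < p.1 ∧ p.1 ≤ 2 := by
  rw [nu_eq, ae_restrict_iff' (measurableSet_Ioc.prod MeasurableSet.univ)]
  exact Eventually.of_forall fun p hp => hp.1

/-- the height over the plane -/
def ht (n : Sp d) (c : ℝ) (η : Sp d) : ℝ := ⟪η, n⟫_ℝ - c

lemma ht_cont (n : Sp d) (c : ℝ) : Continuous (ht n c) := by unfold ht; fun_prop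

/-- the full integrand -/
def Fk (μ : Measure (Sp d)) (n : Sp d) (c : ℝ) (i : ℕ) (p : ℝ × Sp d) (y : Sp d) : ℝ :=
  (tau 1 p.1 * ht n c p.2 ^ i) • Gk μ p.1 p.2 y

/-- the majorant -/
def Bk (n : Sp d) (c : ℝ) (i : ℕ) (η : Sp d) : ℝ := |ht n c η| ^ i * K 1 η

lemma tau_cont : Continuous (fun r : ℝ => tau 1 r) := by unfold tau; fun_prop

lemma tau_nonneg (r : ℝ) : 0 ≤ tau 1 r := le_max_left _ _

lemma tau_le {r : ℝ} (hr : r ≤ 2) : tau 1 r ≤ 1 := by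
  unfold tau
  refine max_le (by norm_num) ((min_le_left _ _).trans ?_)
  linarith

lemma tau_abs {r : ℝ} (hr : r ≤ 2) : |tau 1 r| ≤ 1 := by
  rw [abs_of_nonneg (tau_nonneg r)]; exact tau_le hr

lemma K1_cont : Continuous (K (d := d) 1) := (K_cd one_pos).continuous

lemma Bk_cont (n : Sp d) (c : ℝ) (i : ℕ) : Continuous (Bk n c i) :=
  ((ht_cont n c).abs.pow i).mul K1_cont

lemma Bk_nonneg (n : Sp d) (c : ℝ) (i : ℕ) (η : Sp d) : 0 ≤ Bk n c i η :=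
  mul_nonneg (by positivity) (K_pos one_pos η).le

/-- comparison of the kernel with the kernel at the origin at time one -/
lemma K_le_base {r : ℝ} (h1 : 1 / 2 ≤ r) (h2 : r ≤ 2) (η y : Sp d) :
    K r (y - η) ≤ (1 + 2 * ‖y‖) ^ (d + 4) * 4 ^ (d + 5) * K 1 η := by
  have hr0 : 0 < r := by linarith
  have h3 := K_harnack hr0 (-η) (y - η)
  have e : -η - (y - η) = -y := by abel
  rw [e, norm_neg, K_neg] at h3
  have h4 : (1 + ‖y‖ / r) ^ (d + 4) ≤ (1 + 2 * ‖y‖) ^ (d + 4) :=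
    pow_le_pow_left₀ (by positivity) (one_add_div_le h1 (norm_nonneg _)) _
  have h5 := K_time (r := r) (s := 1) hr0 (by linarith) (by linarith) η
  have h6 := K_pos hr0 η
  calc K r (y - η) ≤ (1 + ‖y‖ / r) ^ (d + 4) * K r η := h3
    _ ≤ (1 + 2 * ‖y‖) ^ (d + 4) * (4 ^ (d + 5) * K 1 η) := mul_le_mul h4 h5 h6.le (by positivity)
    _ = _ := by ring

lemma base_le_K {r : ℝ} (h1 : 1 / 2 ≤ r) (h2 : r ≤ 2) (η y : Sp d) :
    K 1 η ≤ 4 ^ (d + 5) * (1 + 2 * ‖y‖) ^ (d + 4) * K r (y - η) := by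
  have hr0 : 0 < r := by linarith
  have h3 := K_harnack hr0 (y - η) (-η)
  have e : y - η - -η = y := by abel
  rw [e, K_neg] at h3
  have h4 : (1 + ‖y‖ / r) ^ (d + 4) ≤ (1 + 2 * ‖y‖) ^ (d + 4) :=
    pow_le_pow_left₀ (by positivity) (one_add_div_le h1 (norm_nonneg _)) _
  have h5 := K_time (r := 1) (s := r) one_pos (by linarith) (by linarith) η
  have h6 := K_pos hr0 (y - η)
  calc K 1 η ≤ 4 ^ (d + 5) * K r η := h5
    _ ≤ 4 ^ (d + 5) * ((1 + 2 * ‖y‖) ^ (d + 4) * K r (y - η)) :=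
        mul_le_mul_of_nonneg_left (h3.trans (mul_le_mul_of_nonneg_right h4 h6.le)) (by positivity)
    _ = _ := by ring

/-- the majorant is integrable for small i -/
lemma Bk_int (μ : Measure (Sp d)) [IsFiniteMeasure μ] (n : Sp d) (hn : ‖n‖ = 1) (c : ℝ) (i : ℕ)
    (hi : i ≤ 4) : Integrable (Bk n c i) μ := by
  refine Integrable.mono' (integrable_const ((1 + |c|) ^ i)) (Bk_cont n c i).aestronglyMeasurable
    (Eventually.of_forall fun η => ?_)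
  rw [Real.norm_of_nonneg (Bk_nonneg n c i η)]
  unfold Bk
  have hR := R_pos one_pos η
  have hR1 := le_R one_pos η
  have h1 : |ht n c η| ≤ (1 + |c|) * R 1 η := by
    have h2 : |⟪η, n⟫_ℝ| ≤ ‖η‖ := by
      have := abs_real_inner_le_norm η n
      rwa [hn, mul_one] at this
    have h3 := norm_le_R 1 η
    have h4 : |ht n c η| ≤ |⟪η, n⟫_ℝ| + |c| := by
      unfold ht
      exact abs_sub _ _
    nlinarith [abs_nonneg c]
  have h2 : |ht n c η| ^ i ≤ (1 + |c|) ^ i * R 1 η ^ i := by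
    rw [← mul_pow]
    exact pow_le_pow_left₀ (abs_nonneg _) h1 i
  have h3 : R 1 η ^ i ≤ R 1 η ^ (d + 4) := pow_le_pow_right₀ hR1 (by omega)
  rw [K_eq, mul_one_div, div_le_iff₀ (by positivity)]
  calc |ht n c η| ^ i ≤ (1 + |c|) ^ i * R 1 η ^ i := h2
    _ ≤ (1 + |c|) ^ i * R 1 η ^ (d + 4) := mul_le_mul_of_nonneg_left h3 (by positivity)

section fixed

variable {J : ℕ} {C : ℝ} {μ : Measure (Sp d)}

/-- local bound of 1/v -/
lemma vinv_le (h : THd J C μ) (hC : 0 < C) {r : ℝ} (h1 : 1 / 2 ≤ r) (h2 : r ≤ 2) (y0 y : Sp d)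
    (hy : y ∈ ball y0 1) : (vv μ r y)⁻¹ ≤ 3 ^ d * Real.sqrt C * (vv μ 1 y0)⁻¹ := by
  have hr0 : 0 < r := by linarith
  have hv := h.vpos hr0 y
  have hv0 := h.vpos one_pos y0
  have e1 := v_time h hC (r := 1) (s := r) hr0 (by linarith) (by linarith) y0
  have e2 := v_harnack h h1 y0 y
  have e3 : (1 + 2 * ‖y0 - y‖) ^ d ≤ 3 ^ d := by
    refine pow_le_pow_left₀ (by positivity) ?_ d
    have : ‖y0 - y‖ < 1 := by rw [norm_sub_rev, ← dist_eq_norm]; exact hy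
    linarith
  have hs := Real.sqrt_nonneg C
  have e4 : vv μ 1 y0 ≤ 3 ^ d * Real.sqrt C * vv μ r y := by
    calc vv μ 1 y0 ≤ Real.sqrt C * vv μ r y0 := e1
      _ ≤ Real.sqrt C * (3 ^ d * vv μ r y) :=
          mul_le_mul_of_nonneg_left (e2.trans (mul_le_mul_of_nonneg_right e3 hv.le)) hs
      _ = _ := by ring
  rw [inv_le_iff_one_le_mul₀ hv]
  have e5 : 3 ^ d * Real.sqrt C * (vv μ 1 y0)⁻¹ * vv μ r y = (3 ^ d * Real.sqrt C * vv μ r y) / vv μ 1 y0 := by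
    rw [div_eq_mul_inv]; ring
  rw [e5, le_div_iff₀ hv0, one_mul]
  exact e4

lemma Fk_iter (h : THd J C μ) (n : Sp d) (c : ℝ) (i : ℕ) (p : ℝ × Sp d) (hp : 0 < p.1) (j : ℕ)
    (y : Sp d) : iteratedFDeriv ℝ j (Fk μ n c i p) y =
      (tau 1 p.1 * ht n c p.2 ^ i) • iteratedFDeriv ℝ j (Gk μ p.1 p.2) y := by
  unfold Fk
  exact iteratedFDeriv_const_smul_apply' ((Gk_cd h hp p.2).of_le (by exact_mod_cast le_top)).contDiffAt

lemma Fk_meas [SFinite μ] (h : THd J C μ) (n : Sp d) (c : ℝ) (i : ℕ) (j : ℕ) (y : Sp d) :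
    AEStronglyMeasurable (fun p => iteratedFDeriv ℝ j (Fk μ n c i p) y) (nu μ) := by
  have h1 : ContinuousOn (fun p : ℝ × Sp d => (tau 1 p.1 * ht n c p.2 ^ i) •
      iteratedFDeriv ℝ j (Gk μ p.1 p.2) y) {p | 0 < p.1} := by
    have e1 : Continuous (fun p : ℝ × Sp d => tau 1 p.1) := tau_cont.comp continuous_fst
    have e2 : Continuous (fun p : ℝ × Sp d => ht n c p.2) := (ht_cont n c).comp continuous_snd
    have e3 : ContinuousOn (fun p : ℝ × Sp d => tau 1 p.1 * ht n c p.2 ^ i) {p | 0 < p.1} :=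
      (e1.mul (e2.pow i)).continuousOn
    exact e3.smul (Gk_cont h j y)
  have h2 : AEStronglyMeasurable (fun p : ℝ × Sp d => (tau 1 p.1 * ht n c p.2 ^ i) •
      iteratedFDeriv ℝ j (Gk μ p.1 p.2) y) (nu μ) := by
    rw [nu_eq]
    refine ContinuousOn.aestronglyMeasurable (h1.mono ?_) (measurableSet_Ioc.prod MeasurableSet.univ)
    intro p hp
    have : (1 : ℝ) / 2 < p.1 := hp.1.1
    show 0 < p.1
    linarith
  refine h2.congr ?_
  filter_upwards [ae_nu μ] with p hp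
  exact (Fk_iter h n c i p (by linarith [hp.1]) j y).symm

/-- local domination -/
lemma Fk_dom [IsFiniteMeasure μ] (h : THd J C μ) (hC : 0 < C) (n : Sp d) (c : ℝ) (i : ℕ)
    (hi : Integrable (Bk n c i) μ) (j : ℕ) (hj : j ≤ J) (y0 : Sp d) :
    ∃ b : ℝ × Sp d → ℝ, Integrable b (nu μ) ∧
      ∀ᵐ p ∂(nu μ), ∀ y ∈ ball y0 1, ‖iteratedFDeriv ℝ j (Fk μ n c i p) y‖ ≤ b p := by
  obtain ⟨C3, hC3, h3⟩ := Gk_bd d J C
  set A : ℝ := C3 * ((1 + 2 * (‖y0‖ + 1)) ^ (d + 4) * 4 ^ (d + 5)) * (3 ^ d * Real.sqrt C * (vv μ 1 y0)⁻¹) with hA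
  have hv0 := h.vpos one_pos y0
  have hfin : IsFiniteMeasure ((volume : Measure ℝ).restrict (Ioc (1 / 2) 2)) :=
    ⟨by rw [Measure.restrict_apply_univ]; simp⟩
  refine ⟨fun p => A * Bk n c i p.2, (hi.comp_snd _).const_mul A, ?_⟩
  filter_upwards [ae_nu μ] with p hp y hy
  have hp0 : 0 < p.1 := by linarith [hp.1]
  rw [Fk_iter h n c i p hp0 j y, norm_smul, norm_mul, norm_pow, Real.norm_eq_abs, Real.norm_eq_abs]
  have e1 := h3 μ h p.1 p.2 y hp.1.le j hj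
  have hy1 : ‖y‖ ≤ ‖y0‖ + 1 := by
    have h1 : ‖y - y0‖ < 1 := by rw [← dist_eq_norm]; exact hy
    have h2 := norm_add_le y0 (y - y0)
    rw [add_sub_cancel] at h2
    linarith
  have e2 := K_le_base hp.1.le hp.2 p.2 y
  have e2' : (1 + 2 * ‖y‖) ^ (d + 4) ≤ (1 + 2 * (‖y0‖ + 1)) ^ (d + 4) :=
    pow_le_pow_left₀ (by positivity) (by linarith) _
  have hK1 := K_pos (d := d) one_pos p.2
  have e3 : K p.1 (y - p.2) ≤ (1 + 2 * (‖y0‖ + 1)) ^ (d + 4) * 4 ^ (d + 5) * K 1 p.2 :=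
    e2.trans (mul_le_mul_of_nonneg_right (mul_le_mul_of_nonneg_right e2' (by positivity)) hK1.le)
  have e4 := vinv_le h hC hp.1.le hp.2 y0 y hy
  have hv := h.vpos hp0 y
  have e5 : Gk μ p.1 p.2 y ≤ ((1 + 2 * (‖y0‖ + 1)) ^ (d + 4) * 4 ^ (d + 5) * K 1 p.2) *
      (3 ^ d * Real.sqrt C * (vv μ 1 y0)⁻¹) :=
    mul_le_mul e3 e4 (inv_pos.mpr hv).le (by positivity)
  have e6 : |tau 1 p.1| * |ht n c p.2| ^ i ≤ |ht n c p.2| ^ i := by
    have := tau_abs hp.2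
    have h0 : 0 ≤ |ht n c p.2| ^ i := by positivity
    nlinarith
  have e7 : ‖iteratedFDeriv ℝ j (Gk μ p.1 p.2) y‖ ≤ C3 * (((1 + 2 * (‖y0‖ + 1)) ^ (d + 4) * 4 ^ (d + 5) * K 1 p.2) *
      (3 ^ d * Real.sqrt C * (vv μ 1 y0)⁻¹)) := e1.trans (mul_le_mul_of_nonneg_left e5 hC3.le)
  calc |tau 1 p.1| * |ht n c p.2| ^ i * ‖iteratedFDeriv ℝ j (Gk μ p.1 p.2) y‖
      ≤ |ht n c p.2| ^ i * (C3 * (((1 + 2 * (‖y0‖ + 1)) ^ (d + 4) * 4 ^ (d + 5) * K 1 p.2) *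
      (3 ^ d * Real.sqrt C * (vv μ 1 y0)⁻¹))) := mul_le_mul e6 e7 (norm_nonneg _) (by positivity)
    _ = A * Bk n c i p.2 := by rw [hA]; unfold Bk; ring

lemma Fk_int [IsFiniteMeasure μ] (h : THd J C μ) (hC : 0 < C) (n : Sp d) (c : ℝ) (i : ℕ)
    (hi : Integrable (Bk n c i) μ) (y : Sp d) : Integrable (fun p => Fk μ n c i p y) (nu μ) := by
  obtain ⟨b, hb, hb'⟩ := Fk_dom h hC n c i hi 0 (Nat.zero_le _) y
  have h1 := Fk_meas h n c i 0 y
  have h2 : AEStronglyMeasurable (fun p => Fk μ n c i p y) (nu μ) := by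
    have h3 := (continuousMultilinearCurryFin0 ℝ (Sp d) ℝ).continuous.comp_aestronglyMeasurable h1
    refine h3.congr (Eventually.of_forall fun p => ?_)
    simp [iteratedFDeriv_zero_eq_comp]
  refine Integrable.mono' hb h2 ?_
  filter_upwards [hb'] with p hp
  have := hp y (mem_ball_self one_pos)
  rwa [norm_iteratedFDeriv_zero] at this

/-- the moments as integrals over time and space -/
lemma Mo_eq (n : Sp d) (c : ℝ) (i : ℕ) (r : ℝ) (y : Sp d) :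
    tau 1 r * Mo μ n c i r y = ∫ η, Fk μ n c i (r, η) y ∂μ := by
  unfold Mo Fk Gk K ht
  simp only [smul_eq_mul]
  rw [← integral_div, ← integral_const_mul]
  congr 1
  funext η
  rw [div_eq_mul_inv _ (vv μ r y), div_eq_mul_inv, div_eq_mul_inv]
  ring

lemma tav_eq [IsFiniteMeasure μ] (h : THd J C μ) (hC : 0 < C) (n : Sp d) (c : ℝ) (i : ℕ)
    (hi : Integrable (Bk n c i) μ) (y : Sp d) :
    tav (Mo μ n c i) 1 y = ∫ p, Fk μ n c i p y ∂(nu μ) := by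
  unfold tav
  rw [intervalIntegral.integral_of_le (by norm_num)]
  unfold nu
  rw [integral_prod _ (Fk_int h hC n c i hi y)]
  rw [mul_one]
  congr 1
  funext r
  exact Mo_eq n c i r y

/-- if the majorant is not integrable all moments vanish -/
lemma Mo_undef [IsFiniteMeasure μ] (n : Sp d) (c : ℝ) (i : ℕ)
    (hi : ¬ Integrable (Bk n c i) μ) {r : ℝ} (h1 : 1 / 2 ≤ r) (h2 : r ≤ 2) (y : Sp d) :
    Mo μ n c i r y = 0 := by
  unfold Mo
  rw [integral_undef, zero_div]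
  intro hint
  apply hi
  have hr0 : 0 < r := by linarith
  refine Integrable.mono' (hint.norm.const_mul (4 ^ (d + 5) * (1 + 2 * ‖y‖) ^ (d + 4)))
    (Bk_cont n c i).aestronglyMeasurable (Eventually.of_forall fun η => ?_)
  rw [Real.norm_of_nonneg (Bk_nonneg n c i η)]
  have e1 : ‖(⟪η, n⟫_ℝ - c) ^ i / (r ^ 2 + ‖y - η‖ ^ 2) ^ 2 * kk r (y - η)‖ =
      |ht n c η| ^ i * K r (y - η) := by
    have : (⟪η, n⟫_ℝ - c) ^ i / (r ^ 2 + ‖y - η‖ ^ 2) ^ 2 * kk r (y - η) = ht n c η ^ i * K r (y - η) := by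
      unfold K ht
      ring
    rw [this, norm_mul, norm_pow, Real.norm_eq_abs, Real.norm_of_nonneg (K_pos hr0 _).le]
  rw [e1]
  unfold Bk
  have e2 := base_le_K h1 h2 η y
  calc |ht n c η| ^ i * K 1 η ≤ |ht n c η| ^ i * (4 ^ (d + 5) * (1 + 2 * ‖y‖) ^ (d + 4) * K r (y - η)) :=
        mul_le_mul_of_nonneg_left e2 (by positivity)
    _ = _ := by ring

end fixed

lemma getTH (h : StmtTH) (d J : ℕ) (hd : 2 ≤ d) (C' : ℝ) (hC' : 0 < C') :
    ∃ C : ℝ, 0 < C ∧ ∀ μ : Measure (Sp d), Gro C' μ → THd J C μ := by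
  obtain ⟨C, hC, hh⟩ := h d J hd C' hC'
  refine ⟨C, hC, fun μ hμ => ?_⟩
  obtain ⟨h1, h2, h3, h4, h5⟩ := hh μ hμ
  exact ⟨fun t x ht => (h1 t x ht).1, h2, h3, h4, h5⟩

section main

variable (h : StmtTH) (hd : 2 ≤ d) {C' : ℝ} (hC' : 0 < C') {μ : Measure (Sp d)} (hμ : Gro C' μ)

include h hd hC' hμ

lemma Fk_ae_cd (n : Sp d) (c : ℝ) (i : ℕ) : ∀ᵐ p ∂(nu μ), ContDiff ℝ ∞ (Fk μ n c i p) := by
  have := hμ.fin
  obtain ⟨C, hC, hT⟩ := getTH h d 0 hd C' hC'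
  filter_upwards [ae_nu μ] with p hp
  have hp0 : 0 < p.1 := by linarith [hp.1]
  show ContDiff ℝ ∞ (fun y => (tau 1 p.1 * ht n c p.2 ^ i) • Gk μ p.1 p.2 y)
  exact (contDiff_const (c := tau 1 p.1 * ht n c p.2 ^ i)).mul (Gk_cd (hT μ hμ) hp0 p.2)

lemma Fk_all_dom (n : Sp d) (c : ℝ) (i : ℕ) (hi : Integrable (Bk n c i) μ) (j : ℕ) (y0 : Sp d) :
    ∃ b : ℝ × Sp d → ℝ, Integrable b (nu μ) ∧
      ∀ᵐ p ∂(nu μ), ∀ y ∈ ball y0 1, ‖iteratedFDeriv ℝ j (Fk μ n c i p) y‖ ≤ b p := by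
  have := hμ.fin
  obtain ⟨C, hC, hT⟩ := getTH h d j hd C' hC'
  exact Fk_dom (hT μ hμ) hC n c i hi j le_rfl y0

lemma Fk_all_meas (n : Sp d) (c : ℝ) (i : ℕ) (j : ℕ) (y : Sp d) :
    AEStronglyMeasurable (fun p => iteratedFDeriv ℝ j (Fk μ n c i p) y) (nu μ) := by
  have := hμ.fin
  obtain ⟨C, hC, hT⟩ := getTH h d 0 hd C' hC'
  exact Fk_meas (hT μ hμ) n c i j y

lemma tav_fun_eq (n : Sp d) (c : ℝ) (i : ℕ) (hi : Integrable (Bk n c i) μ) :
    (fun y => tav (Mo μ n c i) 1 y) = fun y => ∫ p, Fk μ n c i p y ∂(nu μ) := by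
  have := hμ.fin
  obtain ⟨C, hC, hT⟩ := getTH h d 0 hd C' hC'
  funext y
  exact tav_eq (hT μ hμ) hC n c i hi y

lemma tav_cd (n : Sp d) (c : ℝ) (i : ℕ) : ContDiff ℝ ∞ (fun y => tav (Mo μ n c i) 1 y) := by
  have := hμ.fin
  by_cases hi : Integrable (Bk n c i) μ
  · rw [tav_fun_eq h hd hC' hμ n c i hi]
    exact (Par.par (Fk_ae_cd h hd hC' hμ n c i) (Fk_all_meas h hd hC' hμ n c i)
      (Fk_all_dom h hd hC' hμ n c i hi)).1
  · have e : (fun y => tav (Mo μ n c i) 1 y) = fun _ => 0 := by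
      funext y
      unfold tav
      rw [intervalIntegral.integral_of_le (by norm_num), mul_one]
      refine (setIntegral_congr_fun measurableSet_Ioc fun r hr => ?_).trans (integral_zero _ _)
      beta_reduce
      rw [Mo_undef n c i hi hr.1.le hr.2 y, mul_zero]
    rw [e]
    exact contDiff_const

/-- the derivative bound by the integral of the absolute value -/
lemma tav_bd {J : ℕ} {C3 : ℝ}
    (h3 : ∀ (r : ℝ) (η y : Sp d), 1 / 2 ≤ r → ∀ j ≤ J, ‖iteratedFDeriv ℝ j (Gk μ r η) y‖ ≤ C3 * Gk μ r η y)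
    (n : Sp d) (c : ℝ) (i : ℕ) (hi : Integrable (Bk n c i) μ) (j : ℕ) (hj : j ≤ J) (y : Sp d) :
    ‖iteratedFDeriv ℝ j (fun y => tav (Mo μ n c i) 1 y) y‖ ≤ C3 * ∫ p, |Fk μ n c i p y| ∂(nu μ) := by
  have := hμ.fin
  obtain ⟨C, hC, hT⟩ := getTH h d 0 hd C' hC'
  have hint := Fk_int (hT μ hμ) hC n c i hi y
  rw [tav_fun_eq h hd hC' hμ n c i hi, ← integral_const_mul]
  refine Par.par_norm (Fk_ae_cd h hd hC' hμ n c i) (Fk_all_meas h hd hC' hμ n c i)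
      (Fk_all_dom h hd hC' hμ n c i hi) j y _ (hint.abs.const_mul C3) ?_
  filter_upwards [ae_nu μ] with p hp
  have hp0 : 0 < p.1 := by linarith [hp.1]
  rw [Fk_iter (hT μ hμ) n c i p hp0 j y, norm_smul, Real.norm_eq_abs]
  have e1 := h3 p.1 p.2 y hp.1.le j hj
  have hG := Gk_pos (hT μ hμ) hp0 p.2 y
  have e2 : |Fk μ n c i p y| = |tau 1 p.1 * ht n c p.2 ^ i| * Gk μ p.1 p.2 y := by
    unfold Fk
    rw [smul_eq_mul, abs_mul, abs_of_pos hG]
  rw [e2]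
  calc _ ≤ |tau 1 p.1 * ht n c p.2 ^ i| * (C3 * Gk μ p.1 p.2 y) :=
        mul_le_mul_of_nonneg_left e1 (abs_nonneg _)
    _ = _ := by ring

lemma Fk_even_nonneg (n : Sp d) (c : ℝ) (i : ℕ) (hi : Even i) (p : ℝ × Sp d) (hp : 0 < p.1) (y : Sp d) :
    0 ≤ Fk μ n c i p y := by
  have := hμ.fin
  obtain ⟨C, hC, hT⟩ := getTH h d 0 hd C' hC'
  unfold Fk
  rw [smul_eq_mul]
  exact mul_nonneg (mul_nonneg (tau_nonneg _) (hi.pow_nonneg _)) (Gk_pos (hT μ hμ) hp p.2 y).le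

lemma abs_even (n : Sp d) (c : ℝ) (i : ℕ) (hi : Even i) (hint : Integrable (Bk n c i) μ) (y : Sp d) :
    ∫ p, |Fk μ n c i p y| ∂(nu μ) = tav (Mo μ n c i) 1 y := by
  have := hμ.fin
  have e := congrFun (tav_fun_eq h hd hC' hμ n c i hint) y
  rw [e]
  refine integral_congr_ae ?_
  filter_upwards [ae_nu μ] with p hp
  exact abs_of_nonneg (Fk_even_nonneg h hd hC' hμ n c i hi p (by linarith [hp.1]) y)

/-- Cauchy-Schwarz -/
lemma abs_one (n : Sp d) (hn : ‖n‖ = 1) (c : ℝ) (y : Sp d) :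
    (∫ p, |Fk μ n c 1 p y| ∂(nu μ)) ^ 2 ≤ tav (Mo μ n c 0) 1 y * tav (Mo μ n c 2) 1 y := by
  have := hμ.fin
  obtain ⟨C, hC, hT⟩ := getTH h d 0 hd C' hC'
  have i0 := Fk_int (hT μ hμ) hC n c 0 (Bk_int μ n hn c 0 (by norm_num)) y
  have i1 := (Fk_int (hT μ hμ) hC n c 1 (Bk_int μ n hn c 1 (by norm_num)) y).abs
  have i2 := Fk_int (hT μ hμ) hC n c 2 (Bk_int μ n hn c 2 (by norm_num)) y
  have e0 := congrFun (tav_fun_eq h hd hC' hμ n c 0 (Bk_int μ n hn c 0 (by norm_num))) y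
  have e2 := congrFun (tav_fun_eq h hd hC' hμ n c 2 (Bk_int μ n hn c 2 (by norm_num))) y
  beta_reduce at e0 e2
  rw [e0, e2]
  have key : ∀ x : ℝ, 0 ≤ (∫ p, Fk μ n c 0 p y ∂(nu μ)) * (x * x) +
      (-2 * ∫ p, |Fk μ n c 1 p y| ∂(nu μ)) * x + ∫ p, Fk μ n c 2 p y ∂(nu μ) := by
    intro x
    have e : (∫ p, Fk μ n c 0 p y ∂(nu μ)) * (x * x) +
      (-2 * ∫ p, |Fk μ n c 1 p y| ∂(nu μ)) * x + ∫ p, Fk μ n c 2 p y ∂(nu μ) =
      ∫ p, (Fk μ n c 2 p y + (-2 * x) * |Fk μ n c 1 p y| + (x * x) * Fk μ n c 0 p y) ∂(nu μ) := by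
      rw [int3 i2 i1 i0]
      ring
    rw [e]
    refine integral_nonneg_of_ae ?_
    filter_upwards [ae_nu μ] with p hp
    have hp0 : 0 < p.1 := by linarith [hp.1]
    have hG := Gk_pos (hT μ hμ) hp0 p.2 y
    have ht0 := tau_nonneg p.1
    have e3 : |Fk μ n c 1 p y| = tau 1 p.1 * |ht n c p.2| * Gk μ p.1 p.2 y := by
      unfold Fk
      rw [smul_eq_mul, abs_mul, abs_mul, abs_of_pos hG, abs_of_nonneg ht0, pow_one]
    rw [e3]
    unfold Fk
    simp only [smul_eq_mul, pow_zero, mul_one, Pi.zero_apply]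
    have e4 : tau 1 p.1 * ht n c p.2 ^ 2 * Gk μ p.1 p.2 y +
        -2 * x * (tau 1 p.1 * |ht n c p.2| * Gk μ p.1 p.2 y) + x * x * (tau 1 p.1 * Gk μ p.1 p.2 y) =
        tau 1 p.1 * Gk μ p.1 p.2 y * (x - |ht n c p.2|) ^ 2 := by
      rw [← sq_abs (ht n c p.2)]
      ring
    rw [e4]
    positivity
  have hdis := discrim_le_zero key
  unfold discrim at hdis
  nlinarith

lemma harnack_even (n : Sp d) (c : ℝ) (i : ℕ) (hi : Even i) (hint : Integrable (Bk n c i) μ)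
    (y y' : Sp d) : tav (Mo μ n c i) 1 y' ≤ 2 ^ (2 * d + 4) * (1 + ‖y - y'‖) ^ (2 * d + 4) * tav (Mo μ n c i) 1 y := by
  have := hμ.fin
  obtain ⟨C, hC, hT⟩ := getTH h d 0 hd C' hC'
  have e := tav_fun_eq h hd hC' hμ n c i hint
  have e1 := congrFun e y
  have e2 := congrFun e y'
  beta_reduce at e1 e2
  rw [e1, e2, ← integral_const_mul]
  refine integral_mono_ae (Fk_int (hT μ hμ) hC n c i hint y')
    ((Fk_int (hT μ hμ) hC n c i hint y).const_mul _) ?_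
  filter_upwards [ae_nu μ] with p hp
  have hp0 : 0 < p.1 := by linarith [hp.1]
  have hG := Gk_harnack (hT μ hμ) hp.1.le p.2 y y'
  have hG0 := (Gk_pos (hT μ hμ) hp0 p.2 y).le
  have h1 : (1 + 2 * ‖y - y'‖) ^ (2 * d + 4) ≤ 2 ^ (2 * d + 4) * (1 + ‖y - y'‖) ^ (2 * d + 4) := by
    rw [← mul_pow]
    exact pow_le_pow_left₀ (by positivity) (by linarith [norm_nonneg (y - y')]) _
  have h2 := hG.trans (mul_le_mul_of_nonneg_right h1 hG0)
  unfold Fk
  simp only [smul_eq_mul]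
  have h3 : 0 ≤ tau 1 p.1 * ht n c p.2 ^ i := mul_nonneg (tau_nonneg _) (hi.pow_nonneg _)
  calc _ ≤ tau 1 p.1 * ht n c p.2 ^ i * (2 ^ (2 * d + 4) * (1 + ‖y - y'‖) ^ (2 * d + 4) * Gk μ p.1 p.2 y) :=
        mul_le_mul_of_nonneg_left h2 h3
    _ = _ := by ring

/-- integrability in η at a fixed time -/
lemma hK_int (n : Sp d) (hn : ‖n‖ = 1) (c : ℝ) (i : ℕ) (hi : i ≤ 4) {r : ℝ} (h1 : 1 / 2 ≤ r) (h2 : r ≤ 2) (y : Sp d) :
    Integrable (fun η => ht n c η ^ i * K r (y - η)) μ := by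
  have := hμ.fin
  have hr0 : 0 < r := by linarith
  have hB := Bk_int μ n hn c i hi
  have hcont : Continuous (fun η => ht n c η ^ i * K r (y - η)) :=
    ((ht_cont n c).pow i).mul ((K_cd hr0).continuous.comp (continuous_const.sub continuous_id))
  refine Integrable.mono' (hB.const_mul ((1 + 2 * ‖y‖) ^ (d + 4) * 4 ^ (d + 5))) hcont.aestronglyMeasurable
    (Eventually.of_forall fun η => ?_)
  rw [norm_mul, norm_pow, Real.norm_eq_abs, Real.norm_of_nonneg (K_pos hr0 _).le]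
  have e2 := K_le_base h1 h2 η y
  unfold Bk
  calc |ht n c η| ^ i * K r (y - η) ≤ |ht n c η| ^ i * ((1 + 2 * ‖y‖) ^ (d + 4) * 4 ^ (d + 5) * K 1 η) :=
        mul_le_mul_of_nonneg_left e2 (by positivity)
    _ = _ := by ring

lemma X2_eq (n : Sp d) (hn : ‖n‖ = 1) (c : ℝ) {r : ℝ} (h1 : 1 / 2 ≤ r) (h2 : r ≤ 2) (y : Sp d) :
    X2 μ n r y = Mo μ n c 2 r y - 2 * (⟪y, n⟫_ℝ - c) * Mo μ n c 1 r y
        + (⟪y, n⟫_ℝ - c) ^ 2 * Mo μ n c 0 r y := by
  have e : ∀ i : ℕ, Mo μ n c i r y = (∫ η, ht n c η ^ i * K r (y - η) ∂μ) / vv μ r y := by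
    intro i
    unfold Mo K ht
    congr 1
    congr 1
    funext η
    ring
  have i0 := hK_int h hd hC' hμ n hn c 0 (by norm_num) h1 h2 y
  have i1 := hK_int h hd hC' hμ n hn c 1 (by norm_num) h1 h2 y
  have i2 := hK_int h hd hC' hμ n hn c 2 (by norm_num) h1 h2 y
  have e2 : (∫ η, ⟪η - y, n⟫_ℝ ^ 2 / (r ^ 2 + ‖y - η‖ ^ 2) ^ 2 * kk r (y - η) ∂μ) =
      (∫ η, ht n c η ^ 2 * K r (y - η) ∂μ) - 2 * (⟪y, n⟫_ℝ - c) * (∫ η, ht n c η ^ 1 * K r (y - η) ∂μ)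
        + (⟪y, n⟫_ℝ - c) ^ 2 * (∫ η, ht n c η ^ 0 * K r (y - η) ∂μ) := by
    have e3 := int3 i2 i1 i0 (-(2 * (⟪y, n⟫_ℝ - c))) ((⟪y, n⟫_ℝ - c) ^ 2)
    rw [sub_eq_add_neg, ← neg_mul, ← e3]
    congr 1
    funext η
    unfold ht K
    rw [inner_sub_left]
    ring
  rw [e 2, e 1, e 0]
  unfold X2
  rw [e2]
  ring

lemma tavX2 (n : Sp d) (hn : ‖n‖ = 1) (c : ℝ) (y : Sp d) :
    tav (X2 μ n) 1 y = tav (Mo μ n c 2) 1 y
        - 2 * (⟪y, n⟫_ℝ - c) * tav (Mo μ n c 1) 1 y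
        + (⟪y, n⟫_ℝ - c) ^ 2 * tav (Mo μ n c 0) 1 y := by
  have := hμ.fin
  obtain ⟨C, hC, hT⟩ := getTH h d 0 hd C' hC'
  have hI : ∀ i : ℕ, i ≤ 4 → Integrable (fun r => tau 1 r * Mo μ n c i r y)
      ((volume : Measure ℝ).restrict (Ioc (1 / 2) 2)) := by
    intro i hi
    have h1 := (Fk_int (hT μ hμ) hC n c i (Bk_int μ n hn c i hi) y)
    unfold nu at h1
    have h2 := h1.integral_prod_left
    refine h2.congr (Eventually.of_forall fun r => ?_)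
    exact (Mo_eq n c i r y).symm
  unfold tav
  rw [mul_one, intervalIntegral.integral_of_le (by norm_num), intervalIntegral.integral_of_le (by norm_num),
    intervalIntegral.integral_of_le (by norm_num), intervalIntegral.integral_of_le (by norm_num)]
  have i0 := hI 0 (by norm_num)
  have i1 := hI 1 (by norm_num)
  have i2 := hI 2 (by norm_num)
  have e3 := int3 i2 i1 i0 (-(2 * (⟪y, n⟫_ℝ - c))) ((⟪y, n⟫_ℝ - c) ^ 2)
  rw [sub_eq_add_neg, ← neg_mul, ← e3]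
  refine setIntegral_congr_fun measurableSet_Ioc fun r hr => ?_
  beta_reduce
  rw [X2_eq h hd hC' hμ n hn c hr.1.le hr.2 y]
  ring

lemma kk_int {r : ℝ} (hr : 0 < r) (y : Sp d) : Integrable (fun η => kk r (y - η)) μ := by
  have := hμ.fin
  have hcont : Continuous (fun η : Sp d => kk r (y - η)) := by
    unfold kk
    refine continuous_const.div (by fun_prop) fun η => ?_
    have := R_pos hr (y - η)
    unfold R at this
    positivity
  refine Integrable.mono' (integrable_const (r / r ^ d)) hcont.aestronglyMeasurable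
    (Eventually.of_forall fun η => ?_)
  have hR := R_pos hr (y - η)
  have hR1 := le_R hr (y - η)
  unfold kk
  change ‖r / R r (y - η) ^ d‖ ≤ r / r ^ d
  rw [Real.norm_of_nonneg (by positivity)]
  exact div_le_div_of_nonneg_left hr.le (by positivity) (pow_le_pow_left₀ hr.le hR1 d)

lemma Mo0_le {J : ℕ} {C : ℝ} (hC : 0 < C) (hT : THd J C μ) (n : Sp d) (hn : ‖n‖ = 1) (c : ℝ) {r : ℝ}
    (h1 : 1 / 2 ≤ r) (h2 : r ≤ 2) (y : Sp d) :
    Mo μ n c 0 r y ≤ 16 * (Real.sqrt C * vv μ 1 y) := by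
  have := hμ.fin
  have hr0 : 0 < r := by linarith
  have hv := hT.vpos hr0 y
  have e1 := v_time hT hC (r := r) (s := 1) one_pos (by linarith) (by linarith) y
  have e : Mo μ n c 0 r y = (∫ η, ht n c η ^ 0 * K r (y - η) ∂μ) / vv μ r y := by
    unfold Mo K ht
    congr 1
    congr 1
    funext η
    ring
  have e2 : (∫ η, ht n c η ^ 0 * K r (y - η) ∂μ) ≤ 16 * th μ r y := by
    unfold th
    rw [← integral_const_mul]
    refine integral_mono (hK_int h hd hC' hμ n hn c 0 (by norm_num) h1 h2 y)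
      ((kk_int h hd hC' hμ hr0 y).const_mul 16) fun η => ?_
    beta_reduce
    rw [pow_zero, one_mul]
    unfold K
    have hk : 0 ≤ kk r (y - η) := by
      unfold kk
      positivity
    rw [div_le_iff₀ (by positivity)]
    have h3 : (1 : ℝ) / 4 ≤ r ^ 2 + ‖y - η‖ ^ 2 := by nlinarith [sq_nonneg ‖y - η‖]
    have h4 : (1 : ℝ) / 16 ≤ (r ^ 2 + ‖y - η‖ ^ 2) ^ 2 := by nlinarith
    nlinarith
  have e3 : th μ r y = vv μ r y * vv μ r y := by
    unfold vv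
    exact (Real.mul_self_sqrt (hT.pos r y hr0).le).symm
  rw [e, div_le_iff₀ hv]
  rw [e3] at e2
  calc _ ≤ 16 * (vv μ r y * vv μ r y) := e2
    _ = 16 * vv μ r y * vv μ r y := by ring
    _ ≤ 16 * (Real.sqrt C * vv μ 1 y) * vv μ r y :=
        mul_le_mul_of_nonneg_right (mul_le_mul_of_nonneg_left e1 (by norm_num)) hv.le

lemma tavMo0_le {J : ℕ} {C : ℝ} (hC : 0 < C) (hT : THd J C μ) (n : Sp d) (hn : ‖n‖ = 1) (c : ℝ) (y : Sp d) :
    tav (Mo μ n c 0) 1 y ≤ 24 * Real.sqrt C * vv μ 1 y := by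
  have := hμ.fin
  have hv := hT.vpos one_pos y
  have h1 := (Fk_int hT hC n c 0 (Bk_int μ n hn c 0 (by norm_num)) y)
  unfold nu at h1
  have h2 := h1.integral_prod_left
  have hI : Integrable (fun r => tau 1 r * Mo μ n c 0 r y)
      ((volume : Measure ℝ).restrict (Ioc (1 / 2) 2)) := by
    refine h2.congr (Eventually.of_forall fun r => ?_)
    exact (Mo_eq n c 0 r y).symm
  unfold tav
  rw [mul_one, intervalIntegral.integral_of_le (by norm_num)]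
  have h3 : (∫ r in Ioc (1 / 2 : ℝ) 2, tau 1 r * Mo μ n c 0 r y) ≤
      ∫ _r in Ioc (1 / 2 : ℝ) 2, 16 * (Real.sqrt C * vv μ 1 y) := by
    refine setIntegral_mono_on hI (integrableOn_const (by simp)) measurableSet_Ioc fun r hr => ?_
    have e1 := Mo0_le h hd hC' hμ hC hT n hn c hr.1.le hr.2 y
    have e2 := tau_nonneg r
    have e3 := tau_le hr.2
    have hs := Real.sqrt_nonneg C
    have e4 : 0 ≤ 16 * (Real.sqrt C * vv μ 1 y) := by positivity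
    calc tau 1 r * Mo μ n c 0 r y ≤ tau 1 r * (16 * (Real.sqrt C * vv μ 1 y)) :=
          mul_le_mul_of_nonneg_left e1 e2
      _ ≤ 1 * (16 * (Real.sqrt C * vv μ 1 y)) := mul_le_mul_of_nonneg_right e3 e4
      _ = _ := one_mul _
  refine h3.trans (le_of_eq ?_)
  rw [setIntegral_const, Real.volume_real_Ioc_of_le (by norm_num), smul_eq_mul]
  ring

end main

end

end TG.MO

namespace TG

open MO

theorem stmtMO (h : StmtTH) : StmtMO := by
  intro d J hd C' hC'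
  obtain ⟨C, hC, hT⟩ := getTH h d J hd C' hC'
  obtain ⟨C3, hC3, h3⟩ := Gk_bd d J C
  have hs := Real.sqrt_nonneg C
  set Cf : ℝ := C3 + C3 ^ 2 + 24 * Real.sqrt C + 2 ^ (2 * d + 4) with hCf
  have hp : (0 : ℝ) < 2 ^ (2 * d + 4) := by positivity
  have c1 : C3 ≤ Cf := by rw [hCf]; nlinarith [sq_nonneg C3]
  have c2 : C3 ^ 2 ≤ Cf := by rw [hCf]; nlinarith [sq_nonneg C3]
  have c3 : 24 * Real.sqrt C ≤ Cf := by rw [hCf]; nlinarith [sq_nonneg C3]
  have c4 : (2 : ℝ) ^ (2 * d + 4) ≤ Cf := by rw [hCf]; nlinarith [sq_nonneg C3]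
  refine ⟨Cf, by linarith, ?_⟩
  intro μ hμ n hn c
  have := hμ.fin
  have hTμ := hT μ hμ
  have b0 := Bk_int μ n hn c 0 (by norm_num)
  have b1 := Bk_int μ n hn c 1 (by norm_num)
  have b2 := Bk_int μ n hn c 2 (by norm_num)
  have p0 : ∀ y, 0 ≤ tav (Mo μ n c 0) 1 y := fun y => by
    rw [← abs_even h hd hC' hμ n c 0 (by decide) b0 y]
    exact integral_nonneg fun _ => abs_nonneg _
  have p2 : ∀ y, 0 ≤ tav (Mo μ n c 2) 1 y := fun y => by
    rw [← abs_even h hd hC' hμ n c 2 (by decide) b2 y]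
    exact integral_nonneg fun _ => abs_nonneg _
  refine ⟨tavX2 h hd hC' hμ n hn c, tav_cd h hd hC' hμ n c, ?_, ?_, ?_, ?_, ?_, ?_⟩
  · intro j hj y
    have e := tav_bd h hd hC' hμ (h3 μ hTμ) n c 2 b2 j hj y
    rw [abs_even h hd hC' hμ n c 2 (by decide) b2 y] at e
    exact e.trans (mul_le_mul_of_nonneg_right c1 (p2 y))
  · intro j hj y
    have e := tav_bd h hd hC' hμ (h3 μ hTμ) n c 0 b0 j hj y
    rw [abs_even h hd hC' hμ n c 0 (by decide) b0 y] at e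
    exact e.trans (mul_le_mul_of_nonneg_right c1 (p0 y))
  · intro j hj y
    have e := tav_bd h hd hC' hμ (h3 μ hTμ) n c 1 b1 j hj y
    have e1 := abs_one h hd hC' hμ n hn c y
    have e2 : ‖iteratedFDeriv ℝ j (fun y => tav (Mo μ n c 1) 1 y) y‖ ^ 2 ≤
        (C3 * ∫ p, |Fk μ n c 1 p y| ∂(nu μ)) ^ 2 := pow_le_pow_left₀ (norm_nonneg _) e 2
    rw [mul_pow] at e2
    calc _ ≤ C3 ^ 2 * (∫ p, |Fk μ n c 1 p y| ∂(nu μ)) ^ 2 := e2
      _ ≤ C3 ^ 2 * (tav (Mo μ n c 0) 1 y * tav (Mo μ n c 2) 1 y) :=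
          mul_le_mul_of_nonneg_left e1 (by positivity)
      _ ≤ Cf * (tav (Mo μ n c 0) 1 y * tav (Mo μ n c 2) 1 y) :=
          mul_le_mul_of_nonneg_right c2 (mul_nonneg (p0 y) (p2 y))
      _ = _ := by ring
  · intro y
    have e := tavMo0_le h hd hC' hμ hC hTμ n hn c y
    exact e.trans (mul_le_mul_of_nonneg_right c3 (hTμ.vpos one_pos y).le)
  · intro y y'
    have e := harnack_even h hd hC' hμ n c 2 (by decide) b2 y y'
    refine e.trans (mul_le_mul_of_nonneg_right (mul_le_mul_of_nonneg_right c4 (by positivity)) (p2 y))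
  · intro y y'
    have e := harnack_even h hd hC' hμ n c 0 (by decide) b0 y y'
    refine e.trans (mul_le_mul_of_nonneg_right (mul_le_mul_of_nonneg_right c4 (by positivity)) (p0 y))

end TG
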