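import Pool.Agent.TG.Stmts1
import Pool.Agent.TG.Par

/-!
# The kernel k R^(-4) and its derivatives (module TG_MO, first part, helper37)
-/

open MeasureTheory Metric Set TrI Filter
open scoped InnerProductSpace ContDiff Nat Topology

namespace TG.MO

noncomputable section

variable {d : ℕ}

/-! ### General derivative bounds -/

/-- composition with a function on the half line, normalised at the value one -/
lemma comp_bd (ψ : ℝ → ℝ) (hψ : ContDiffOn ℝ ∞ ψ (Ioi 0)) (J : ℕ) : ∃ C : ℝ, 0 < C ∧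
    ∀ (u : Sp d → ℝ) (x0 : Sp d) (D : ℝ), 1 ≤ D → ContDiff ℝ ∞ u → (∀ x, 0 < u x) → u x0 = 1 →
      (∀ i : ℕ, 1 ≤ i → i ≤ J → ‖iteratedFDeriv ℝ i u x0‖ ≤ D ^ i) →
      ∀ j ≤ J, ‖iteratedFDeriv ℝ j (fun x => ψ (u x)) x0‖ ≤ C * D ^ J := by
  set S : ℝ := ∑ i ∈ Finset.range (J + 1), ‖iteratedFDerivWithin ℝ i ψ (Ioi 0) 1‖ with hS
  have hS0 : 0 ≤ S := Finset.sum_nonneg fun _ _ => norm_nonneg _
  refine ⟨J ! * (S + 1), by positivity, ?_⟩
  intro u x0 D hD hu hpos hx0 hb j hj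
  have h1 := norm_iteratedFDerivWithin_comp_le (n := j) (N := ∞) (g := ψ) (f := u) (s := univ) (t := Ioi 0)
    (x := x0) (C := S) (D := D) hψ hu.contDiffOn (by exact_mod_cast le_top) (uniqueDiffOn_Ioi 0)
    uniqueDiffOn_univ (fun x _ => hpos x) (mem_univ x0) ?_ ?_
  · rw [iteratedFDerivWithin_univ] at h1
    refine h1.trans ?_
    have h2 : (j ! : ℝ) ≤ J ! := by exact_mod_cast Nat.factorial_le hj
    have h3 : D ^ j ≤ D ^ J := pow_le_pow_right₀ hD hj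
    have h4 : (j ! : ℝ) * S ≤ J ! * (S + 1) :=
      mul_le_mul h2 (by linarith) hS0 (by positivity)
    exact mul_le_mul h4 h3 (by positivity) (by positivity)
  · intro i hi
    rw [hx0, hS]
    exact Finset.single_le_sum (f := fun i => ‖iteratedFDerivWithin ℝ i ψ (Ioi 0) 1‖)
      (fun _ _ => norm_nonneg _) (Finset.mem_range.mpr (by omega))
  · intro i h1i hi
    rw [iteratedFDerivWithin_univ]
    exact hb i h1i (hi.trans hj)

/-- product rule -/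
lemma mul_bd {f g : Sp d → ℝ} (hf : ContDiff ℝ ∞ f) (hg : ContDiff ℝ ∞ g) (x : Sp d) (J : ℕ) (a b : ℝ)
    (hfa : ∀ i ≤ J, ‖iteratedFDeriv ℝ i f x‖ ≤ a) (hgb : ∀ i ≤ J, ‖iteratedFDeriv ℝ i g x‖ ≤ b) :
    ∀ j ≤ J, ‖iteratedFDeriv ℝ j (fun y => f y * g y) x‖ ≤ 2 ^ J * (a * b) := by
  intro j hj
  have ha : 0 ≤ a := (norm_nonneg _).trans (hfa 0 (Nat.zero_le _))
  have hb : 0 ≤ b := (norm_nonneg _).trans (hgb 0 (Nat.zero_le _))
  refine (norm_iteratedFDeriv_mul_le (N := ∞) hf hg x (n := j) (by exact_mod_cast le_top)).trans ?_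
  have h1 : ∀ i ∈ Finset.range (j + 1), (j.choose i : ℝ) * ‖iteratedFDeriv ℝ i f x‖ *
      ‖iteratedFDeriv ℝ (j - i) g x‖ ≤ j.choose i * (a * b) := by
    intro i hi
    have hi' : i ≤ j := by have := Finset.mem_range.mp hi; omega
    have e1 := hfa i (hi'.trans hj)
    have e2 := hgb (j - i) (by omega)
    rw [mul_assoc]
    exact mul_le_mul_of_nonneg_left (mul_le_mul e1 e2 (norm_nonneg _) ha) (by positivity)
  refine (Finset.sum_le_sum h1).trans ?_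
  rw [← Finset.sum_mul]
  have h2 : (∑ i ∈ Finset.range (j + 1), (j.choose i : ℝ)) = 2 ^ j := by
    exact_mod_cast Nat.sum_range_choose j
  rw [h2]
  exact mul_le_mul_of_nonneg_right (pow_le_pow_right₀ (by norm_num) hj) (by positivity)

/-! ### The squared norm -/

lemma fderiv_sqn (a b : ℝ) : fderiv ℝ (fun x : Sp d => a * (b + ‖x‖ ^ 2)) =
    fun x => ((2 * a) • innerSL ℝ : Sp d →L[ℝ] Sp d →L[ℝ] ℝ) x := by
  funext x
  have h1 : HasFDerivAt (fun x : Sp d => ‖x‖ ^ 2) (2 • (innerSL ℝ x)) x :=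
    (hasStrictFDerivAt_norm_sq x).hasFDerivAt
  have h2 := (h1.const_add b).const_mul a
  rw [h2.fderiv]
  ext v
  simp
  ring

lemma sqn_bd (a b : ℝ) (ha : 0 ≤ a) (x : Sp d) (i : ℕ) (hi : 1 ≤ i) (D : ℝ) (hD : 1 ≤ D)
    (h1 : 2 * a * ‖x‖ ≤ D) (h2 : 2 * a ≤ D ^ 2) :
    ‖iteratedFDeriv ℝ i (fun x : Sp d => a * (b + ‖x‖ ^ 2)) x‖ ≤ D ^ i := by
  obtain ⟨k, rfl⟩ : ∃ k, i = k + 1 := ⟨i - 1, by omega⟩
  rw [← norm_iteratedFDeriv_fderiv, fderiv_sqn]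
  rcases Nat.eq_zero_or_pos k with rfl | hk
  · rw [norm_iteratedFDeriv_zero]
    have e : ((2 * a) • innerSL ℝ : Sp d →L[ℝ] Sp d →L[ℝ] ℝ) x = (2 * a) • innerSL ℝ x := rfl
    rw [e, norm_smul, innerSL_apply_norm, Real.norm_of_nonneg (by positivity)]
    simpa using h1
  · obtain ⟨l, rfl⟩ : ∃ l, k = l + 1 := ⟨k - 1, by omega⟩
    rw [← norm_iteratedFDeriv_fderiv]
    have e : fderiv ℝ (fun x => ((2 * a) • innerSL ℝ : Sp d →L[ℝ] Sp d →L[ℝ] ℝ) x) =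
        fun _ => ((2 * a) • innerSL ℝ : Sp d →L[ℝ] Sp d →L[ℝ] ℝ) := by
      funext x
      exact ContinuousLinearMap.fderiv _
    rw [e]
    rcases Nat.eq_zero_or_pos l with rfl | hl
    · rw [norm_iteratedFDeriv_zero]
      refine (ContinuousLinearMap.opNorm_le_bound _ (by positivity) fun y => ?_).trans h2
      have e : ((2 * a) • innerSL ℝ : Sp d →L[ℝ] Sp d →L[ℝ] ℝ) y = (2 * a) • innerSL ℝ y := rfl
      rw [e, norm_smul, innerSL_apply_norm, Real.norm_of_nonneg (by positivity)]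
    · rw [iteratedFDeriv_const_of_ne (by omega)]
      simp only [Pi.zero_apply, norm_zero]
      positivity

/-! ### The kernel -/

/-- the kernel k R^(-4) -/
def K (r : ℝ) (x : Sp d) : ℝ := kk r x / (r ^ 2 + ‖x‖ ^ 2) ^ 2

/-- the radius -/
def R (r : ℝ) (x : Sp d) : ℝ := Real.sqrt (r ^ 2 + ‖x‖ ^ 2)

lemma R_sq (r : ℝ) (x : Sp d) : R r x ^ 2 = r ^ 2 + ‖x‖ ^ 2 := Real.sq_sqrt (by positivity)

lemma R_pos {r : ℝ} (hr : 0 < r) (x : Sp d) : 0 < R r x := Real.sqrt_pos.mpr (by positivity)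

lemma le_R {r : ℝ} (hr : 0 < r) (x : Sp d) : r ≤ R r x := by
  apply Real.le_sqrt_of_sq_le
  nlinarith [sq_nonneg ‖x‖]

lemma norm_le_R (r : ℝ) (x : Sp d) : ‖x‖ ≤ R r x := by
  apply Real.le_sqrt_of_sq_le
  nlinarith [sq_nonneg r]

lemma K_eq (r : ℝ) (x : Sp d) : K r x = r / R r x ^ (d + 4) := by
  unfold K kk
  rw [← R_sq r x, div_div]
  have : Real.sqrt (R r x ^ 2) = R r x := Real.sqrt_sq (Real.sqrt_nonneg _)
  rw [this]
  congr 1
  ring

lemma K_pos {r : ℝ} (hr : 0 < r) (x : Sp d) : 0 < K r x := by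
  rw [K_eq]
  have := R_pos hr x
  positivity

lemma K_neg (r : ℝ) (x : Sp d) : K r (-x) = K r x := by
  rw [K_eq, K_eq]; unfold R; rw [norm_neg]

lemma R_le {r : ℝ} (hr : 0 < r) (x x' : Sp d) : R r x ≤ (1 + ‖x - x'‖ / r) * R r x' := by
  have h1 : R r x ≤ R r x' + ‖x - x'‖ := by
    have h0 : 0 ≤ R r x' + ‖x - x'‖ := add_nonneg (Real.sqrt_nonneg _) (norm_nonneg _)
    refine (abs_le_of_sq_le_sq' ?_ h0).2
    have h2 : ‖x‖ ≤ ‖x'‖ + ‖x - x'‖ := by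
      have := norm_add_le x' (x - x')
      simpa using this
    have h3 := R_sq r x
    have h4 := R_sq r x'
    have h5 := norm_le_R r x'
    have h6 := norm_nonneg (x - x')
    have h7 := norm_nonneg x
    have h8 := norm_nonneg x'
    nlinarith
  have h2 := le_R hr x'
  have h3 : ‖x - x'‖ ≤ ‖x - x'‖ / r * R r x' := by
    rw [div_mul_eq_mul_div, le_div_iff₀ hr]
    exact mul_le_mul_of_nonneg_left h2 (norm_nonneg _)
  linarith

/-- Harnack inequality for the kernel -/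
lemma K_harnack {r : ℝ} (hr : 0 < r) (x x' : Sp d) :
    K r x' ≤ (1 + ‖x - x'‖ / r) ^ (d + 4) * K r x := by
  rw [K_eq, K_eq, mul_div_assoc', div_le_div_iff₀ (by have := R_pos hr x'; positivity)
    (by have := R_pos hr x; positivity)]
  have h1 := R_le hr x x'
  have h2 : R r x ^ (d + 4) ≤ ((1 + ‖x - x'‖ / r) * R r x') ^ (d + 4) :=
    pow_le_pow_left₀ (R_pos hr x).le h1 _
  rw [mul_pow] at h2
  nlinarith

/-- comparison of times -/
lemma K_time {r s : ℝ} (hr : 0 < r) (hrs : r ≤ 4 * s) (hsr : s ≤ 4 * r) (x : Sp d) :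
    K r x ≤ 4 ^ (d + 5) * K s x := by
  have hs : 0 < s := by linarith
  rw [K_eq, K_eq, mul_div_assoc', div_le_div_iff₀ (by have := R_pos hr x; positivity)
    (by have := R_pos hs x; positivity)]
  have h1 : R s x ≤ 4 * R r x := by
    have h0 : 0 ≤ 4 * R r x := mul_nonneg (by norm_num) (Real.sqrt_nonneg _)
    refine (abs_le_of_sq_le_sq' ?_ h0).2
    have h3 := R_sq r x
    have h4 := R_sq s x
    have h5 := norm_nonneg x
    nlinarith
  have h2 : R s x ^ (d + 4) ≤ (4 * R r x) ^ (d + 4) := pow_le_pow_left₀ (R_pos hs x).le h1 _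
  rw [mul_pow] at h2
  have h3 := R_pos hr x
  have h4 : r * R s x ^ (d + 4) ≤ (4 * s) * (4 ^ (d + 4) * R r x ^ (d + 4)) :=
    mul_le_mul hrs h2 (by have := R_pos hs x; positivity) (by positivity)
  refine h4.trans (le_of_eq ?_)
  ring

/-- the function u ↦ u^(-(d+4)/2) -/
def psi (d : ℕ) (u : ℝ) : ℝ := (Real.sqrt u ^ (d + 4))⁻¹

lemma psi_cd (d : ℕ) : ContDiffOn ℝ ∞ (psi d) (Ioi 0) := by
  intro u hu
  have hu' : 0 < u := hu
  have h1 : ContDiffAt ℝ ∞ (fun u : ℝ => Real.sqrt u) u := Real.contDiffAt_sqrt hu'.ne'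
  have h2 : ContDiffAt ℝ ∞ (psi d) u :=
    ContDiffAt.inv (h1.pow (d + 4)) (by have := Real.sqrt_pos.mpr hu'; positivity)
  exact h2.contDiffWithinAt

lemma K_psi {r : ℝ} (hr : 0 < r) (x0 x : Sp d) :
    K r x = r / R r x0 ^ (d + 4) * psi d ((1 / R r x0 ^ 2) * (r ^ 2 + ‖x‖ ^ 2)) := by
  have h0 := R_pos hr x0
  have h1 := R_pos hr x
  have e : (1 / R r x0 ^ 2) * (r ^ 2 + ‖x‖ ^ 2) = (R r x / R r x0) ^ 2 := by
    rw [div_pow, R_sq r x]; ring
  rw [e]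
  unfold psi
  rw [Real.sqrt_sq (by positivity), K_eq, div_pow, inv_div]
  field_simp

lemma K_cd {r : ℝ} (hr : 0 < r) : ContDiff ℝ ∞ (K (d := d) r) := by
  have e : (K (d := d) r) = fun x => r / R r (0 : Sp d) ^ (d + 4) *
      psi d ((1 / R r (0 : Sp d) ^ 2) * (r ^ 2 + ‖x‖ ^ 2)) := funext fun x => K_psi hr 0 x
  rw [e]
  have h0 := R_pos hr (0 : Sp d)
  refine contDiff_const.mul ?_
  rw [contDiff_iff_contDiffAt]
  intro x
  have hu : (0 : ℝ) < (1 / R r (0 : Sp d) ^ 2) * (r ^ 2 + ‖x‖ ^ 2) := by positivity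
  have h1 : ContDiffAt ℝ ∞ (psi d) ((1 / R r (0 : Sp d) ^ 2) * (r ^ 2 + ‖x‖ ^ 2)) :=
    (psi_cd d).contDiffAt (Ioi_mem_nhds hu)
  have h2 : ContDiffAt ℝ ∞ (fun x : Sp d => (1 / R r (0 : Sp d) ^ 2) * (r ^ 2 + ‖x‖ ^ 2)) x :=
    contDiffAt_const.mul (contDiffAt_const.add (contDiff_norm_sq ℝ).contDiffAt)
  exact ContDiffAt.comp (g := psi d) x h1 h2

/-- derivatives of the kernel -/
lemma K_bd (d J : ℕ) : ∃ C : ℝ, 0 < C ∧ ∀ (r : ℝ) (x : Sp d), 1 / 2 ≤ r → ∀ j ≤ J,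
    ‖iteratedFDeriv ℝ j (K r) x‖ ≤ C * K r x := by
  obtain ⟨C, hC, hb⟩ := comp_bd (d := d) (psi d) (psi_cd d) J
  refine ⟨C * 4 ^ J, by positivity, ?_⟩
  intro r x0 hr j hj
  have hr0 : 0 < r := by linarith
  have hR := R_pos hr0 x0
  have hR2 : 1 / 2 ≤ R r x0 := hr.trans (le_R hr0 x0)
  have e : (K (d := d) r) = fun x => (r / R r x0 ^ (d + 4)) •
      psi d ((1 / R r x0 ^ 2) * (r ^ 2 + ‖x‖ ^ 2)) := funext fun x => K_psi hr0 x0 x
  have hu : ContDiff ℝ ∞ (fun x : Sp d => (1 / R r x0 ^ 2) * (r ^ 2 + ‖x‖ ^ 2)) :=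
    contDiff_const.mul (contDiff_const.add (contDiff_norm_sq ℝ))
  have h1 := hb (fun x : Sp d => (1 / R r x0 ^ 2) * (r ^ 2 + ‖x‖ ^ 2)) x0 4 (by norm_num) hu
    (fun x => by positivity) (by beta_reduce; rw [← R_sq r x0]; field_simp) ?_ j hj
  · have h2 : ContDiff ℝ ∞ (fun x : Sp d => psi d ((1 / R r x0 ^ 2) * (r ^ 2 + ‖x‖ ^ 2))) := by
      rw [contDiff_iff_contDiffAt]
      intro x
      have hu' : (0 : ℝ) < (1 / R r x0 ^ 2) * (r ^ 2 + ‖x‖ ^ 2) := by positivity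
      exact ContDiffAt.comp (g := psi d) x ((psi_cd d).contDiffAt (Ioi_mem_nhds hu')) hu.contDiffAt
    have h3 : iteratedFDeriv ℝ j (K (d := d) r) x0 = (r / R r x0 ^ (d + 4)) •
        iteratedFDeriv ℝ j (fun x : Sp d => psi d ((1 / R r x0 ^ 2) * (r ^ 2 + ‖x‖ ^ 2))) x0 := by
      rw [e]
      exact iteratedFDeriv_const_smul_apply' (h2.of_le (by exact_mod_cast le_top)).contDiffAt
    rw [h3, norm_smul, Real.norm_of_nonneg (by positivity), K_eq]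
    calc r / R r x0 ^ (d + 4) * _ ≤ r / R r x0 ^ (d + 4) * (C * 4 ^ J) :=
          mul_le_mul_of_nonneg_left h1 (by positivity)
      _ = C * 4 ^ J * (r / R r x0 ^ (d + 4)) := by ring
  · intro i hi _
    refine sqn_bd (1 / R r x0 ^ 2) (r ^ 2) (by positivity) x0 i hi 4 (by norm_num) ?_ ?_
    · have h4 := norm_le_R r x0
      have h5 : 2 * (1 / R r x0 ^ 2) * ‖x0‖ = 2 * ‖x0‖ / R r x0 ^ 2 := by ring
      rw [h5, div_le_iff₀ (by positivity)]
      nlinarith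
    · have h5 : 2 * (1 / R r x0 ^ 2) = 2 / R r x0 ^ 2 := by ring
      rw [h5, div_le_iff₀ (by positivity)]
      nlinarith

end

end TG.MO
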