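import Pool.Agent.TG.MO1

/-!
# The integrand of the moments (module TG_MO, second part, helper37)
-/

open MeasureTheory Metric Set TrI Filter
open scoped InnerProductSpace ContDiff Nat Topology

namespace TG.MO

noncomputable section

variable {d : ℕ}

/-- the properties of the potential given by StmtTH -/
structure THd (J : ℕ) (C : ℝ) (μ : Measure (Sp d)) : Prop where
  pos : ∀ (t : ℝ) (x : Sp d), 0 < t → 0 < th μ t x
  smooth : ContDiffOn ℝ ∞ (fun p : ℝ × Sp d => vv μ p.1 p.2) {p | 0 < p.1}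
  der : ∀ (t : ℝ) (x : Sp d) (j : ℕ), 0 < t → j ≤ J →
        ‖iteratedFDeriv ℝ j (fun p : ℝ × Sp d => vv μ p.1 p.2) (t, x)‖ ≤
          C * vv μ t x / t ^ j
  har : ∀ (t : ℝ) (x x' : Sp d), 0 < t → th μ t x' ≤ (1 + ‖x - x'‖ / t) ^ d * th μ t x
  tim : ∀ (s t : ℝ) (x : Sp d), 0 < t → t / 8 ≤ s → s ≤ 8 * t → th μ s x ≤ C * th μ t x

lemma isOpen_posU : IsOpen {p : ℝ × Sp d | 0 < p.1} :=
  isOpen_lt continuous_const continuous_fst

/-- partial derivatives are bounded by joint derivatives -/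
lemma part_le {g : ℝ × Sp d → ℝ} (hg : ContDiffOn ℝ ∞ g {p | 0 < p.1}) {r : ℝ} (hr : 0 < r)
    (y : Sp d) (j : ℕ) :
    ‖iteratedFDeriv ℝ j (fun x => g (r, x)) y‖ ≤ ‖iteratedFDeriv ℝ j g (r, y)‖ := by
  set s : Set (ℝ × Sp d) := {p | 0 < r + p.1} with hs
  have hso : IsOpen s := isOpen_lt continuous_const (continuous_const.add continuous_fst)
  set g' : ℝ × Sp d → ℝ := fun p => g ((r, 0) + p) with hg'
  have hg's : ContDiffOn ℝ ∞ g' s := by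
    refine ContDiffOn.comp (g := g) (t := {p | 0 < p.1}) hg ?_ ?_
    · exact (contDiff_const.add contDiff_id).contDiffOn
    · intro p hp
      exact hp
  set L : Sp d →L[ℝ] ℝ × Sp d := ContinuousLinearMap.inr ℝ ℝ (Sp d) with hL
  have hpre : L ⁻¹' s = univ := by
    ext x
    simp [hs, hL, hr]
  have hLy : L y ∈ s := by
    have : y ∈ L ⁻¹' s := by rw [hpre]; trivial
    exact this
  have h1 := ContinuousLinearMap.iteratedFDerivWithin_comp_right (i := j) L hg's hso.uniqueDiffOn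
    (by rw [hpre]; exact uniqueDiffOn_univ) hLy (by exact_mod_cast le_top)
  rw [hpre, iteratedFDerivWithin_univ] at h1
  have e1 : g' ∘ L = fun x => g (r, x) := by
    funext x
    simp [hg', hL]
  rw [e1] at h1
  rw [h1, iteratedFDerivWithin_of_isOpen j hso hLy, hg', iteratedFDeriv_comp_add_left]
  have e2 : (r, (0 : Sp d)) + L y = (r, y) := by simp [hL]
  rw [e2]
  refine (ContinuousMultilinearMap.norm_compContinuousLinearMap_le _ _).trans ?_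
  have h2 : ‖L‖ ≤ 1 := ContinuousLinearMap.norm_inr_le_one ℝ ℝ (Sp d)
  have h3 : ∏ _i : Fin j, ‖L‖ ≤ 1 := by
    rw [Finset.prod_const]
    exact pow_le_one₀ (norm_nonneg _) h2
  calc _ ≤ ‖iteratedFDeriv ℝ j g (r, y)‖ * 1 := mul_le_mul_of_nonneg_left h3 (norm_nonneg _)
    _ = _ := mul_one _

lemma THd.vpos {J : ℕ} {C : ℝ} {μ : Measure (Sp d)} (h : THd J C μ) {r : ℝ} (hr : 0 < r) (y : Sp d) :
    0 < vv μ r y := Real.sqrt_pos.mpr (h.pos r y hr)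

lemma THd.vcd {J : ℕ} {C : ℝ} {μ : Measure (Sp d)} (h : THd J C μ) {r : ℝ} (hr : 0 < r) :
    ContDiff ℝ ∞ (vv μ r) := by
  rw [contDiff_iff_contDiffAt]
  intro y
  have h1 : ContDiffAt ℝ ∞ (fun p : ℝ × Sp d => vv μ p.1 p.2) (r, y) :=
    h.smooth.contDiffAt (isOpen_posU.mem_nhds hr)
  exact ContDiffAt.comp (g := fun p : ℝ × Sp d => vv μ p.1 p.2) y h1
    (contDiffAt_const.prodMk contDiffAt_id)

/-- derivatives of 1/v -/
lemma vinv_bd (d J : ℕ) (C : ℝ) : ∃ C2 : ℝ, 0 < C2 ∧ ∀ μ : Measure (Sp d), THd J C μ →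
    ∀ (r : ℝ) (y : Sp d), 1 / 2 ≤ r → ∀ j ≤ J,
      ‖iteratedFDeriv ℝ j (fun y => (vv μ r y)⁻¹) y‖ ≤ C2 * (vv μ r y)⁻¹ := by
  have hinv : ContDiffOn ℝ ∞ (fun u : ℝ => u⁻¹) (Ioi 0) := by
    intro u hu
    exact (contDiffAt_inv ℝ (ne_of_gt hu)).contDiffWithinAt
  obtain ⟨C0, hC0, hb⟩ := comp_bd (d := d) (fun u : ℝ => u⁻¹) hinv J
  set D : ℝ := 2 * max 1 C with hD
  have hD1 : 1 ≤ D := by have := le_max_left 1 C; linarith
  refine ⟨C0 * D ^ J, by positivity, ?_⟩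
  intro μ hμ r y0 hr j hj
  have hr0 : 0 < r := by linarith
  have hv := hμ.vpos hr0
  have hcd := hμ.vcd hr0
  have hu : ContDiff ℝ ∞ (fun x : Sp d => (vv μ r y0)⁻¹ • vv μ r x) := by
    show ContDiff ℝ ∞ (fun x : Sp d => (vv μ r y0)⁻¹ * vv μ r x)
    exact contDiff_const.mul hcd
  have h1 := hb (fun x : Sp d => (vv μ r y0)⁻¹ • vv μ r x) y0 D hD1 hu
    (fun x => mul_pos (inv_pos.mpr (hv y0)) (hv x)) (inv_mul_cancel₀ (hv y0).ne') ?_ j hj
  · have e : (fun y => (vv μ r y)⁻¹) = fun x => (vv μ r y0)⁻¹ • ((vv μ r y0)⁻¹ • vv μ r x)⁻¹ := by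
      funext x
      have := (hv y0).ne'
      have := (hv x).ne'
      simp only [smul_eq_mul]
      field_simp
    have hcd2 : ContDiff ℝ ∞ (fun x : Sp d => ((vv μ r y0)⁻¹ • vv μ r x)⁻¹) :=
      hu.inv (fun x => (mul_pos (inv_pos.mpr (hv y0)) (hv x)).ne')
    rw [e, iteratedFDeriv_const_smul_apply' (hcd2.of_le (by exact_mod_cast le_top)).contDiffAt,
      norm_smul, Real.norm_of_nonneg (inv_pos.mpr (hv y0)).le]
    rw [mul_comm]
    exact mul_le_mul_of_nonneg_right h1 (inv_pos.mpr (hv y0)).le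
  · intro i hi hiJ
    rw [iteratedFDeriv_const_smul_apply' (hcd.of_le (by exact_mod_cast le_top)).contDiffAt,
      norm_smul, Real.norm_of_nonneg (inv_pos.mpr (hv y0)).le]
    have h2 := (part_le hμ.smooth hr0 y0 i).trans (hμ.der r y0 i hr0 hiJ)
    have h3 : C ≤ max 1 C := le_max_right _ _
    have h4 : (1 : ℝ) ≤ max 1 C := le_max_left _ _
    have h5 : 1 ≤ (2 * r) ^ i := one_le_pow₀ (by linarith)
    have h6 : max 1 C ≤ (max 1 C) ^ i := le_self_pow₀ h4 (by omega)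
    have hvy := hv y0
    calc (vv μ r y0)⁻¹ * ‖iteratedFDeriv ℝ i (vv μ r) y0‖
        ≤ (vv μ r y0)⁻¹ * (C * vv μ r y0 / r ^ i) := mul_le_mul_of_nonneg_left h2 (by positivity)
      _ = C / r ^ i := by field_simp
      _ ≤ D ^ i := by
          rw [div_le_iff₀ (by positivity), hD, ← mul_pow]
          have h7 : (2 * max 1 C * r) ^ i = (2 * r) ^ i * (max 1 C) ^ i := by rw [← mul_pow]; congr 1; ring
          rw [h7]
          exact (h3.trans h6).trans (le_mul_of_one_le_left (by positivity) h5)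

/-! ### The integrand -/

/-- the integrand, without the factors which do not depend on y -/
def Gk (μ : Measure (Sp d)) (r : ℝ) (η y : Sp d) : ℝ := K r (y - η) * (vv μ r y)⁻¹

lemma Gk_pos {J : ℕ} {C : ℝ} {μ : Measure (Sp d)} (h : THd J C μ) {r : ℝ} (hr : 0 < r) (η y : Sp d) :
    0 < Gk μ r η y := mul_pos (K_pos hr _) (inv_pos.mpr (h.vpos hr y))

lemma Gk_cd {J : ℕ} {C : ℝ} {μ : Measure (Sp d)} (h : THd J C μ) {r : ℝ} (hr : 0 < r) (η : Sp d) :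
    ContDiff ℝ ∞ (Gk μ r η) := by
  have h1 : ContDiff ℝ ∞ (fun y : Sp d => K r (y - η)) :=
    ContDiff.comp (g := K r) (K_cd hr) (contDiff_id.sub contDiff_const)
  exact h1.mul ((h.vcd hr).inv fun y => (h.vpos hr y).ne')

lemma Gk_bd (d J : ℕ) (C : ℝ) : ∃ C3 : ℝ, 0 < C3 ∧ ∀ μ : Measure (Sp d), THd J C μ →
    ∀ (r : ℝ) (η y : Sp d), 1 / 2 ≤ r → ∀ j ≤ J,
      ‖iteratedFDeriv ℝ j (Gk μ r η) y‖ ≤ C3 * Gk μ r η y := by
  obtain ⟨C1, hC1, h1⟩ := K_bd d J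
  obtain ⟨C2, hC2, h2⟩ := vinv_bd d J C
  refine ⟨2 ^ J * (C1 * C2), by positivity, ?_⟩
  intro μ hμ r η y hr j hj
  have hr0 : 0 < r := by linarith
  have e1 : ContDiff ℝ ∞ (fun y : Sp d => K r (y - η)) :=
    ContDiff.comp (g := K r) (K_cd hr0) (contDiff_id.sub contDiff_const)
  have e2 : ContDiff ℝ ∞ (fun y : Sp d => (vv μ r y)⁻¹) := (hμ.vcd hr0).inv fun y => (hμ.vpos hr0 y).ne'
  have h3 := mul_bd e1 e2 y J (C1 * K r (y - η)) (C2 * (vv μ r y)⁻¹) ?_ ?_ j hj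
  · refine h3.trans (le_of_eq ?_)
    unfold Gk
    ring
  · intro i hi
    rw [iteratedFDeriv_comp_sub]
    exact h1 r (y - η) hr i hi
  · intro i hi
    exact h2 μ hμ r y hr i hi

lemma one_add_div_le {r s : ℝ} (hr : 1 / 2 ≤ r) (hs : 0 ≤ s) : 1 + s / r ≤ 1 + 2 * s := by
  have : s / r ≤ 2 * s := by
    rw [div_le_iff₀ (by linarith)]
    nlinarith
  linarith

lemma v_harnack {J : ℕ} {C : ℝ} {μ : Measure (Sp d)} (h : THd J C μ) {r : ℝ} (hr : 1 / 2 ≤ r)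
    (y y' : Sp d) : vv μ r y ≤ (1 + 2 * ‖y - y'‖) ^ d * vv μ r y' := by
  have hr0 : 0 < r := by linarith
  have h1 := h.har r y' y hr0
  have h2 := one_add_div_le hr (norm_nonneg (y' - y))
  rw [norm_sub_rev y' y] at h1 h2
  have h3 : (1 + ‖y - y'‖ / r) ^ d ≤ (1 + 2 * ‖y - y'‖) ^ d :=
    pow_le_pow_left₀ (by positivity) h2 d
  have h4 : (1 : ℝ) ≤ (1 + 2 * ‖y - y'‖) ^ d := one_le_pow₀ (by linarith [norm_nonneg (y - y')])
  have h5 : th μ r y ≤ ((1 + 2 * ‖y - y'‖) ^ d) ^ 2 * th μ r y' := by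
    refine h1.trans (mul_le_mul_of_nonneg_right (h3.trans ?_) (h.pos r y' hr0).le)
    nlinarith
  unfold vv
  rw [← Real.sqrt_sq (show (0 : ℝ) ≤ (1 + 2 * ‖y - y'‖) ^ d by positivity), ← Real.sqrt_mul (by positivity)]
  exact Real.sqrt_le_sqrt h5

lemma Gk_harnack {J : ℕ} {C : ℝ} {μ : Measure (Sp d)} (h : THd J C μ) {r : ℝ} (hr : 1 / 2 ≤ r)
    (η y y' : Sp d) : Gk μ r η y' ≤ (1 + 2 * ‖y - y'‖) ^ (2 * d + 4) * Gk μ r η y := by
  have hr0 : 0 < r := by linarith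
  have h1 := K_harnack hr0 (y - η) (y' - η)
  have e : y - η - (y' - η) = y - y' := by abel
  rw [e] at h1
  have h2 : (1 + ‖y - y'‖ / r) ^ (d + 4) ≤ (1 + 2 * ‖y - y'‖) ^ (d + 4) :=
    pow_le_pow_left₀ (by positivity) (one_add_div_le hr (norm_nonneg _)) _
  have h3 : K r (y' - η) ≤ (1 + 2 * ‖y - y'‖) ^ (d + 4) * K r (y - η) :=
    h1.trans (mul_le_mul_of_nonneg_right h2 (K_pos hr0 _).le)
  have hv := h.vpos hr0 y
  have hv' := h.vpos hr0 y'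
  have h4 : (vv μ r y')⁻¹ ≤ (1 + 2 * ‖y - y'‖) ^ d * (vv μ r y)⁻¹ := by
    have h5 := v_harnack h hr y y'
    rw [inv_le_iff_one_le_mul₀ hv', ← div_eq_mul_inv, ← mul_div_right_comm, le_div_iff₀ hv, one_mul]
    exact h5
  have h6 := mul_le_mul h3 h4 (inv_pos.mpr hv').le (by have := K_pos hr0 (y - η); positivity)
  unfold Gk
  refine h6.trans (le_of_eq ?_)
  have e7 : 2 * d + 4 = (d + 4) + d := by omega
  rw [e7, pow_add]
  ring

/-- comparison of times for v -/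
lemma v_time {J : ℕ} {C : ℝ} {μ : Measure (Sp d)} (h : THd J C μ) (hC : 0 < C) {r s : ℝ} (hs : 0 < s)
    (h1 : s / 8 ≤ r) (h2 : r ≤ 8 * s) (y : Sp d) : vv μ r y ≤ Real.sqrt C * vv μ s y := by
  unfold vv
  rw [← Real.sqrt_mul hC.le]
  exact Real.sqrt_le_sqrt (h.tim r s y hs h1 h2)

lemma K_jcd : ContDiffOn ℝ ∞ (fun q : (ℝ × Sp d) × Sp d => K q.1.1 (q.2 - q.1.2)) {q | 0 < q.1.1} := by
  intro q hq
  have hq0 : (0 : ℝ) < q.1.1 := hq
  have h1 : ContDiffAt ℝ ∞ (fun q : (ℝ × Sp d) × Sp d => q.1.1 ^ 2 + ‖q.2 - q.1.2‖ ^ 2) q := by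
    have h0 : ContDiffAt ℝ ∞ (fun q : (ℝ × Sp d) × Sp d => q.2 - q.1.2) q := by fun_prop
    have h00 : ContDiffAt ℝ ∞ (fun q : (ℝ × Sp d) × Sp d => q.1.1 ^ 2) q := by fun_prop
    exact h00.add (h0.norm_sq ℝ)
  have h2 : ContDiffAt ℝ ∞ (fun q : (ℝ × Sp d) × Sp d => psi d (q.1.1 ^ 2 + ‖q.2 - q.1.2‖ ^ 2)) q := by
    have h3 : ContDiffAt ℝ ∞ (psi d) (q.1.1 ^ 2 + ‖q.2 - q.1.2‖ ^ 2) :=
      (psi_cd d).contDiffAt (Ioi_mem_nhds (by positivity))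
    exact ContDiffAt.comp (g := psi d) q h3 h1
  have h4 : ContDiffAt ℝ ∞ (fun q : (ℝ × Sp d) × Sp d => q.1.1 * psi d (q.1.1 ^ 2 + ‖q.2 - q.1.2‖ ^ 2)) q := by
    have h0 : ContDiffAt ℝ ∞ (fun q : (ℝ × Sp d) × Sp d => q.1.1) q := by fun_prop
    exact h0.mul h2
  have e : (fun q : (ℝ × Sp d) × Sp d => K q.1.1 (q.2 - q.1.2)) =
      fun q : (ℝ × Sp d) × Sp d => q.1.1 * psi d (q.1.1 ^ 2 + ‖q.2 - q.1.2‖ ^ 2) := by
    funext q
    rw [K_eq]
    rfl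
  rw [e]
  exact h4.contDiffWithinAt

lemma Gk_jcd {J : ℕ} {C : ℝ} {μ : Measure (Sp d)} (h : THd J C μ) :
    ContDiffOn ℝ ∞ (fun q : (ℝ × Sp d) × Sp d => Gk μ q.1.1 q.1.2 q.2) {q | 0 < q.1.1} := by
  have h1 : ContDiffOn ℝ ∞ (fun q : (ℝ × Sp d) × Sp d => vv μ q.1.1 q.2) {q | 0 < q.1.1} := by
    refine ContDiffOn.comp (g := fun p : ℝ × Sp d => vv μ p.1 p.2) (t := {p | 0 < p.1})
      (f := fun q : (ℝ × Sp d) × Sp d => (q.1.1, q.2)) h.smooth ?_ ?_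
    · exact (ContDiff.prodMk (by fun_prop) (by fun_prop)).contDiffOn
    · intro q hq
      exact hq
  exact K_jcd.mul (h1.inv fun q hq => (h.vpos hq q.2).ne')

lemma isOpen_posQ : IsOpen {q : (ℝ × Sp d) × Sp d | 0 < q.1.1} :=
  isOpen_lt continuous_const (continuous_fst.comp continuous_fst)

/-- joint continuity of the partial derivatives of the integrand -/
lemma Gk_cont {J : ℕ} {C : ℝ} {μ : Measure (Sp d)} (h : THd J C μ) (j : ℕ) (y : Sp d) :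
    ContinuousOn (fun p : ℝ × Sp d => iteratedFDeriv ℝ j (Gk μ p.1 p.2) y) {p | 0 < p.1} := by
  have h1 := Par.cont_iter (g := fun q : (ℝ × Sp d) × Sp d => Gk μ q.1.1 q.1.2 q.2) isOpen_posQ (Gk_jcd h) j
  have h2 : ContinuousOn (fun p : ℝ × Sp d => (p, y)) {p | 0 < p.1} := by fun_prop
  exact h1.comp h2 (fun p hp => hp)

end

end TG.MO
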