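import Pool.Agent.TG.MPb

/-!
# Trace inequality, general operators: persistence of the mass along a common plane (module MP)
-/

open MeasureTheory Metric Set TrI
open scoped InnerProductSpace ContDiff

namespace TG

noncomputable section

namespace MPm

variable {d : ℕ}

lemma sum_le {q : ℕ → ℝ} (h0 : ∀ r, 0 ≤ q r) {B : ℝ}
    (hB : ∀ I : ℕ, ∑ r ∈ Finset.range I, wq (1 / 2) r * q r ≤ B) (r : ℕ) :
    ∑ j ∈ Finset.range (r + 1), q j ≤ (2 : ℝ) ^ ((1 / 2 : ℝ) * r) * B := by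
  have h1 : ∀ j ∈ Finset.range (r + 1), q j ≤ (2 : ℝ) ^ ((1 / 2 : ℝ) * r) * (wq (1 / 2) j * q j) := by
    intro j hj
    have hjr : (j : ℝ) ≤ r := by exact_mod_cast Nat.lt_succ_iff.mp (Finset.mem_range.mp hj)
    have h2 : (1 : ℝ) ≤ (2 : ℝ) ^ ((1 / 2 : ℝ) * r) * wq (1 / 2) j := by
      unfold wq
      rw [← Real.rpow_add (by norm_num)]
      exact Real.one_le_rpow (by norm_num) (by linarith)
    calc q j = 1 * q j := (one_mul _).symm
      _ ≤ ((2 : ℝ) ^ ((1 / 2 : ℝ) * r) * wq (1 / 2) j) * q j :=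
          mul_le_mul_of_nonneg_right h2 (h0 j)
      _ = _ := mul_assoc _ _ _
  refine (Finset.sum_le_sum h1).trans ?_
  rw [← Finset.mul_sum]
  exact mul_le_mul_of_nonneg_left (hB _) (by positivity)

/-- the numbers of flatness -/
lemma flat_num {a Mi q m κ κ' C K : ℝ} (ha : 0 < a) (hC : 0 < C) (hK : 1 ≤ K) (hκ : 0 < κ)
    (h1 : a ≤ C * Mi) (h2 : q ≤ κ * a) (h3 : m * q ≤ κ * K * a ^ 2) (h4 : κ * C ≤ κ')
    (h5 : κ * K * C ^ 2 ≤ κ') : 0 < Mi ∧ q ≤ κ' * Mi ∧ m * q ≤ κ' * Mi ^ 2 := by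
  have hMi : 0 < Mi := by
    by_contra h
    push Not at h
    have := mul_nonpos_of_nonneg_of_nonpos hC.le h
    linarith
  refine ⟨hMi, ?_, ?_⟩
  · calc q ≤ κ * a := h2
      _ ≤ κ * (C * Mi) := mul_le_mul_of_nonneg_left h1 hκ.le
      _ = κ * C * Mi := by ring
      _ ≤ κ' * Mi := mul_le_mul_of_nonneg_right h4 hMi.le
  · have h6 : a ^ 2 ≤ (C * Mi) ^ 2 := pow_le_pow_left₀ ha.le h1 2
    calc m * q ≤ κ * K * a ^ 2 := h3
      _ ≤ κ * K * (C * Mi) ^ 2 := mul_le_mul_of_nonneg_left h6 (by positivity)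
      _ = κ * K * C ^ 2 * Mi ^ 2 := by ring
      _ ≤ κ' * Mi ^ 2 := mul_le_mul_of_nonneg_right h5 (sq_nonneg _)

/-- a small constant -/
lemma exists_kappa {X1 X2 X3 X4 X5 X6 X7 : ℝ} (h1 : 0 < X1) (h2 : 0 < X2) (h3 : 0 < X3)
    (h4 : 0 < X4) (h5 : 0 < X5) (h6 : 0 < X6) (h7 : 0 < X7) :
    ∃ κ : ℝ, 0 < κ ∧ κ * X1 ≤ 1 ∧ κ * X2 ≤ 1 ∧ κ * X3 ≤ 1 ∧ κ * X4 ≤ 1 ∧ κ * X5 ≤ 1 ∧
      κ * X6 ≤ 1 ∧ κ * X7 ≤ 1 := by
  have hS : 0 < X1 + X2 + X3 + X4 + X5 + X6 + X7 := by positivity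
  refine ⟨1 / (X1 + X2 + X3 + X4 + X5 + X6 + X7), by positivity, ?_, ?_, ?_, ?_, ?_, ?_, ?_⟩ <;>
  · rw [one_div, inv_mul_le_iff₀ hS]
    linarith

lemma jump_num {F : Type*} [SeminormedAddCommGroup F] (v2 j2 jr vr : F) {a S CJ q2 qr s κ : ℝ}
    (h0 : a / S ≤ ‖v2‖) (h1 : ‖v2 - j2‖ ≤ CJ * q2) (h3 : ‖jr - j2‖ ≤ 2 * CJ * s)
    (h2 : ‖vr - jr‖ ≤ CJ * qr) (hCJ : 0 < CJ) (hqr : 0 ≤ qr) (hs : 0 ≤ s) (h5 : q2 ≤ s)
    (h4 : s + qr ≤ κ * a) (h6 : 4 * CJ * (κ * a) ≤ a / (2 * S))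
    (h7 : a / S = 2 * (a / (2 * S))) : a / (2 * S) ≤ ‖vr‖ := by
  have n1 : ‖v2‖ ≤ ‖v2 - j2‖ + ‖j2‖ := norm_le_norm_sub_add v2 j2
  have n2 : ‖j2‖ ≤ ‖jr - j2‖ + ‖jr‖ := by
    rw [norm_sub_rev]
    exact norm_le_norm_sub_add j2 jr
  have n3 : ‖jr‖ ≤ ‖vr - jr‖ + ‖vr‖ := by
    rw [norm_sub_rev]
    exact norm_le_norm_sub_add jr vr
  have h8 : CJ * q2 ≤ CJ * s := mul_le_mul_of_nonneg_left h5 hCJ.le
  have h9 : CJ * (s + qr) ≤ CJ * (κ * a) := mul_le_mul_of_nonneg_left h4 hCJ.le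
  have h10 : 0 ≤ CJ * qr := mul_nonneg hCJ.le hqr
  have h11 : 0 ≤ CJ * s := mul_nonneg hCJ.le hs
  rw [mul_add] at h9
  linarith

end MPm

open MPm in
theorem stmtMP (hNS : TrI.StmtNS) (hSHB : StmtSHB) (hSM : StmtSM) (hJC : StmtJC) (_hNC : StmtNC)
    (hZ : StmtZ) (hMA : StmtMA) (hTW : StmtTW) (hSC : StmtSC) (hSD : StmtSD) : StmtMP := by
  intro d V E _ _ _ _ _ _ L hd hL M c0 ε hε hε1 b hb R0 γ K κ1 hR0 hγ hγ1 hK hκ1
  obtain ⟨n0, T, hn, hT⟩ := hNS d V E L hL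
  have hd1 : 1 ≤ d := by omega
  have hd0 : (0 : ℝ) ≤ d := Nat.cast_nonneg d
  have hd2 : (2 : ℝ) ≤ d := by exact_mod_cast hd
  have hRs := sqrt_R0 hR0
  have hs0 := Real.sqrt_nonneg (d : ℝ)
  obtain ⟨CB, hCB, hstart⟩ := start_mass hSC hSD hTW hMA hd hε hε1 hb hR0
  obtain ⟨CS, κS, hCS, hκS, hjump⟩ := start_jump hSHB hZ hd hn hL hT hε hε1 hb (R0 := R0)
    (by linarith)
  obtain ⟨CP, hCP, hstep⟩ := step_mass hZ hTW hd hε hε1 hb hR0
  obtain ⟨CJ, hCJ, hJf⟩ := jump_frame hJC hSC hSD hd hn hT hε hε1 hb hR0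
  obtain ⟨CM, κM, hCM, hκM, hM⟩ := hSM d V E L n0 T hd hn hL hT M c0 ε hε hε1 b hb R0 (by linarith)
  obtain ⟨A, hAdef, hA⟩ : ∃ A : ℝ, A = 2 * 8 ^ d ∧ 0 < A := ⟨_, rfl, by positivity⟩
  obtain ⟨S, hSdef, hS⟩ : ∃ S : ℝ, S = A * CS ∧ 0 < S := ⟨_, rfl, by positivity⟩
  obtain ⟨C, hCdef, hC⟩ : ∃ C : ℝ, C = A + 4 * S * CM * (2 ^ d / 2) ∧ 0 < C :=
    ⟨_, rfl, by positivity⟩
  obtain ⟨κ', hκ'def, hκ'⟩ : ∃ κ' : ℝ, κ' = min κ1 (min κS κM) ∧ 0 < κ' :=
    ⟨_, rfl, lt_min hκ1 (lt_min hκS hκM)⟩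
  have hκ'1 : κ' ≤ κ1 := by rw [hκ'def]; exact min_le_left _ _
  have hκ'S : κ' ≤ κS := by rw [hκ'def]; exact (min_le_right _ _).trans (min_le_left _ _)
  have hκ'M : κ' ≤ κM := by rw [hκ'def]; exact (min_le_right _ _).trans (min_le_right _ _)
  have hK0 : 0 < K := by linarith
  obtain ⟨κ, hκ, k1, k2, k3, k4, k5, k6, k7⟩ := exists_kappa (X1 := 2 * CB) (X2 := C / κ')
    (X3 := K * C ^ 2 / κ') (X4 := 8 * CJ * S) (X5 := 2 * S / κM) (X6 := K * (2 * S) ^ 2 / κM)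
    (X7 := 8 * CM * CP * S) (by positivity) (by positivity) (by positivity) (by positivity)
    (by positivity) (by positivity) (by positivity)
  rw [mul_div_assoc', div_le_one (by positivity)] at k2 k3 k5 k6
  rw [← mul_assoc] at k3 k6
  refine ⟨C, κ, hC, hκ, ?_⟩
  intro R hR n u hu x e hTw a ha hadef hgr ν c B hν hc hB
  obtain ⟨f, hf⟩ : ∃ f : Sp d → E, f = fo L u := ⟨_, rfl⟩
  have hfc : Continuous f := by rw [hf]; exact PL.fo_cont L hu
  have hfs : HasCompactSupport f := by rw [hf]; exact PL.fo_cs L hu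
  rw [← hf] at hadef hgr hB ⊢
  obtain ⟨q, hq⟩ : ∃ q : ℕ → ℝ, ∀ r, q r = bD b ε R0 R ((1 / 2) ^ n) f (n + r) (x r) (e r) ν c :=
    ⟨_, fun _ => rfl⟩
  obtain ⟨D, hD⟩ : ∃ D : ℕ → ℝ, ∀ r, D r = DD b ε R ((1 / 2) ^ n) f (n + r) (x r) (e r) :=
    ⟨_, fun _ => rfl⟩
  obtain ⟨m, hm⟩ : ∃ m : ℕ → ℝ, ∀ r, m r = ma b ε R0 ((1 / 2) ^ n) f (n + r) (x r) :=
    ⟨_, fun _ => rfl⟩
  obtain ⟨I, hI⟩ : ∃ I : ℕ → ℝ, ∀ r, I r = Mi R0 (rs (x r) (2 ^ r) f) (e r) := ⟨_, fun _ => rfl⟩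
  simp only [← hq] at hB
  simp only [← hm] at hgr
  have hD0 : ∀ r, 0 ≤ D r := fun r => by
    rw [hD]
    exact TU.DD_nonneg b ε R (by positivity) f _ _ (hTw.unit r)
  have hDq : ∀ r, D r ≤ q r := fun r => by
    rw [hD, hq]
    unfold bD
    linarith [le_max_left 0 (bb R0 ((1 / 2) ^ n) f (n + r) (x r) (e r) ν c)]
  have hq0 : ∀ r, 0 ≤ q r := fun r => (hD0 r).trans (hDq r)
  have hm0 : ∀ r, 0 ≤ m r := fun r => by
    rw [hm]
    exact TU.ma_nonneg b ε R0 (by positivity) f _ _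
  have hB0 : 0 ≤ B := by simpa using hB 0
  -- good levels
  have hgs : ∀ r : ℕ, (2 : ℝ) ^ ((3 / 5 : ℝ) * r) * B ≤ κ * a →
      ∑ j ∈ Finset.range (r + 1), q j ≤ κ * a := by
    intro r hr
    refine (sum_le hq0 hB r).trans (le_trans ?_ hr)
    refine mul_le_mul_of_nonneg_right ?_ hB0
    refine Real.rpow_le_rpow_of_exponent_le (by norm_num) ?_
    have : (0 : ℝ) ≤ r := Nat.cast_nonneg r
    linarith
  have hgq : ∀ r : ℕ, (2 : ℝ) ^ ((3 / 5 : ℝ) * r) * B ≤ κ * a → q r ≤ κ * a := by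
    intro r hr
    refine le_trans ?_ (hgs r hr)
    exact Finset.single_le_sum (f := q) (fun j _ => hq0 j) (Finset.mem_range.mpr (by omega))
  have hgm : ∀ r : ℕ, (2 : ℝ) ^ ((3 / 5 : ℝ) * r) * B ≤ κ * a →
      m r * q r ≤ κ * K * a ^ 2 := by
    intro r hr
    have hr0 : (0 : ℝ) ≤ r := Nat.cast_nonneg r
    have h1 : q r ≤ (2 : ℝ) ^ ((1 / 2 : ℝ) * r) * B := by
      refine le_trans ?_ (sum_le hq0 hB r)
      exact Finset.single_le_sum (f := q) (fun j _ => hq0 j) (Finset.mem_range.mpr (by omega))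
    have hγ2 : γ ≤ 1 / 10 := by
      refine hγ1.trans ?_
      rw [div_le_div_iff₀ (by positivity) (by norm_num)]
      linarith
    have h2 : (2 : ℝ) ^ (γ * r) * (2 : ℝ) ^ ((1 / 2 : ℝ) * r) ≤ (2 : ℝ) ^ ((3 / 5 : ℝ) * r) := by
      rw [← Real.rpow_add (by norm_num)]
      refine Real.rpow_le_rpow_of_exponent_le (by norm_num) ?_
      nlinarith
    calc m r * q r ≤ (K * (2 : ℝ) ^ (γ * r) * a) * ((2 : ℝ) ^ ((1 / 2 : ℝ) * r) * B) :=
          mul_le_mul (hgr r) h1 (hq0 r) (by positivity)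
      _ = K * a * (((2 : ℝ) ^ (γ * r) * (2 : ℝ) ^ ((1 / 2 : ℝ) * r)) * B) := by ring
      _ ≤ K * a * ((2 : ℝ) ^ ((3 / 5 : ℝ) * r) * B) :=
          mul_le_mul_of_nonneg_left (mul_le_mul_of_nonneg_right h2 hB0) (by positivity)
      _ ≤ K * a * (κ * a) := mul_le_mul_of_nonneg_left hr (by positivity)
      _ = κ * K * a ^ 2 := by ring
  have hgd : ∀ j r : ℕ, j ≤ r → (2 : ℝ) ^ ((3 / 5 : ℝ) * r) * B ≤ κ * a →
      (2 : ℝ) ^ ((3 / 5 : ℝ) * j) * B ≤ κ * a := by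
    intro j r hjr hr
    refine le_trans (mul_le_mul_of_nonneg_right ?_ hB0) hr
    refine Real.rpow_le_rpow_of_exponent_le (by norm_num) ?_
    have : (j : ℝ) ≤ r := by exact_mod_cast hjr
    linarith
  -- frames
  have hfr := fun r : ℕ => frame hSC hSD hd hε hε1 hb hfc hfs (x r) r n
  have hflat : ∀ κ2 : ℝ, κ' ≤ κ2 → ∀ r : ℕ, (2 : ℝ) ^ ((3 / 5 : ℝ) * r) * B ≤ κ * a →
      a ≤ C * I r → Flat b ε R0 R κ2 (rs (x r) (2 ^ r) f) (n + r) (e r) ν
        ((c - ⟪ν, x r⟫_ℝ) / 2 ^ r) := by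
    intro κ2 hκ2 r hr haI
    obtain ⟨h1, h2, h3⟩ := flat_num ha hC hK hκ haI (hgq r hr) (hgm r hr) k2 k3
    have h4 : (∫ y, ⟪rs (x r) (2 ^ r) f y, e r⟫_ℝ * zR (R0 / 3) y) = I r := by
      rw [hI]
      rfl
    unfold Flat
    rw [(hfr r).2.2, (hfr r).2.1, smul_zero, add_zero, h4, ← hq, ← hm]
    exact ⟨h1, h2.trans (mul_le_mul_of_nonneg_right hκ2 h1.le),
      h3.trans (mul_le_mul_of_nonneg_right hκ2 (sq_nonneg _))⟩
  -- levels 2 and 3
  have h23 : ∀ r : ℕ, 2 ≤ r → r ≤ 3 → (2 : ℝ) ^ ((3 / 5 : ℝ) * r) * B ≤ κ * a →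
      a ≤ A * I r := by
    intro r hr2 hr3 hr
    have h1 := hstart E R hR f hfc hfs n x e hTw r hr2 hr3
    rw [← hadef, ← hI, ← hD] at h1
    have h2 : CB * D r ≤ a / 2 := by
      calc CB * D r ≤ CB * (κ * a) :=
            mul_le_mul_of_nonneg_left ((hDq r).trans (hgq r hr)) hCB.le
        _ = (κ * (2 * CB)) * (a / 2) := by ring
        _ ≤ 1 * (a / 2) := mul_le_mul_of_nonneg_right k1 (by positivity)
        _ = a / 2 := one_mul _
    have h3 : a / 2 ≤ (2 ^ r) ^ d / 2 ^ r * I r := by linarith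
    have h4 : 0 < I r := by
      by_contra h
      push Not at h
      have : ((2 : ℝ) ^ r) ^ d / 2 ^ r * I r ≤ 0 :=
        mul_nonpos_of_nonneg_of_nonpos (by positivity) h
      linarith
    have h5 : ((2 : ℝ) ^ r) ^ d / 2 ^ r ≤ 8 ^ d := by
      rw [div_le_iff₀ (by positivity)]
      have h6 : (2 : ℝ) ^ r ≤ 8 := by
        calc (2 : ℝ) ^ r ≤ 2 ^ 3 := pow_le_pow_right₀ (by norm_num) hr3
          _ = 8 := by norm_num
      have h7 : (1 : ℝ) ≤ 2 ^ r := one_le_pow₀ (by norm_num)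
      calc ((2 : ℝ) ^ r) ^ d ≤ 8 ^ d := pow_le_pow_left₀ (by positivity) h6 d
        _ = 8 ^ d * 1 := (mul_one _).symm
        _ ≤ 8 ^ d * 2 ^ r := mul_le_mul_of_nonneg_left h7 (by positivity)
    have h8 : ((2 : ℝ) ^ r) ^ d / 2 ^ r * I r ≤ 8 ^ d * I r :=
      mul_le_mul_of_nonneg_right h5 h4.le
    rw [hAdef]
    linarith
  have hAC : ∀ r, a ≤ A * I r → a ≤ C * I r := by
    intro r h
    have h1 : 0 < I r := by
      by_contra h'
      push Not at h'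
      have := mul_nonpos_of_nonneg_of_nonpos hA.le h'
      linarith
    refine h.trans (mul_le_mul_of_nonneg_right ?_ h1.le)
    rw [hCdef]
    have : 0 < 4 * S * CM * (2 ^ d / 2) := by positivity
    linarith
  -- the main claim
  have key : ∀ r : ℕ, 2 ≤ r → (2 : ℝ) ^ ((3 / 5 : ℝ) * r) * B ≤ κ * a → a ≤ C * I r := by
    intro r hr2
    induction r, hr2 using Nat.le_induction with
    | base => exact fun hr => hAC 2 (h23 2 le_rfl (by norm_num) hr)
    | succ r hr2 ih =>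
      intro hr
      rcases Nat.lt_or_ge r 3 with hr3 | hr3
      · exact hAC (r + 1) (h23 (r + 1) (by omega) (by omega) hr)
      have hgr1 := hgd r (r + 1) (by omega) hr
      have hg2 := hgd 2 r (by omega) hgr1
      have ihr := ih hgr1
      have hut := fun r : ℕ =>
        (hSC d hd 1 one_pos (x r) (2 ^ r) (by positivity)).2.2 V E L u hu
      rw [← hf] at hut
      have hνν : ⟪ν, ν⟫_ℝ = 1 := by rw [real_inner_self_eq_norm_sq, hν, one_pow]
      have hinner : ∀ y : Sp d, |⟪ν, y⟫_ℝ| ≤ ‖y‖ := by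
        intro y
        have := abs_real_inner_le_norm ν y
        rwa [hν, one_mul] at this
      have hcr : ∀ r : ℕ, 2 ≤ r → |(c - ⟪ν, x r⟫_ℝ) / 2 ^ r| ≤ (R0 + 3 + 3 * Real.sqrt d) / 4 +
          Real.sqrt d ∧ |(c - ⟪ν, x r⟫_ℝ) / 2 ^ r| ≤ R0 / 3 := by
        intro r hr
        have htp : (0 : ℝ) < 2 ^ r := by positivity
        have ht4 : (4 : ℝ) ≤ 2 ^ r := by
          calc (4 : ℝ) = 2 ^ 2 := by norm_num
            _ ≤ 2 ^ r := pow_le_pow_right₀ (by norm_num) hr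
        have hxr := tower_norm hTw r
        have h1 : |c - ⟪ν, x r⟫_ℝ| ≤ R0 + 3 + Real.sqrt d * (2 ^ r - 1) :=
          (abs_sub _ _).trans (add_le_add hc ((hinner _).trans hxr))
        have h2 : 0 ≤ (R0 / 3 - Real.sqrt d) * (2 ^ r - 4) :=
          mul_nonneg (by linarith) (by linarith)
        have h3 : 0 ≤ (R0 + 3) * (2 ^ r - 4) := mul_nonneg (by linarith) (by linarith)
        have h4 : 0 ≤ Real.sqrt d * (2 ^ r - 4) := mul_nonneg hs0 (by linarith)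
        constructor
        · rw [abs_div, abs_of_pos htp, div_le_iff₀ htp]
          nlinarith
        · rw [abs_div, abs_of_pos htp, div_le_iff₀ htp]
          nlinarith
      -- the point with large jump
      obtain ⟨y0, hy1, hy2, hy3⟩ := hjump R (by linarith) (n + 2)
        (fun y => u (x 2 + (2 : ℝ) ^ 2 • y)) (hut 2).1 (e 2) (hTw.unit 2) ν
        ((c - ⟪ν, x 2⟫_ℝ) / 2 ^ 2) hν (hcr 2 le_rfl).2 (by
          rw [(hut 2).2]
          exact hflat κS hκ'S 2 hg2 (hAC 2 (h23 2 le_rfl (by norm_num) hg2)))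
      rw [(hut 2).2, ← hI] at hy3
      have haS : a / S ≤ ‖JJ n0 ν (((c - ⟪ν, x 2⟫_ℝ) / 2 ^ 2) • ν) 1
          (fun y => u (x 2 + (2 : ℝ) ^ 2 • y)) y0‖ := by
        rw [div_le_iff₀ hS]
        calc a ≤ A * I 2 := h23 2 le_rfl (by norm_num) hg2
          _ ≤ A * (CS * ‖JJ n0 ν (((c - ⟪ν, x 2⟫_ℝ) / 2 ^ 2) • ν) 1
          (fun y => u (x 2 + (2 : ℝ) ^ 2 • y)) y0‖) := mul_le_mul_of_nonneg_left hy3 hA.le
          _ = _ := by rw [hSdef]; ring
      have hy0n : ‖y0‖ ≤ (R0 + 3 + 3 * Real.sqrt d) / 4 + (R0 / 3 + 2) := by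
        have h1 : y0 = tang ν y0 + ⟪ν, y0⟫_ℝ • ν := by unfold tang; abel
        have h2 : ‖y0‖ ≤ ‖tang ν y0‖ + ‖⟪ν, y0⟫_ℝ • ν‖ := by
          conv_lhs => rw [h1]
          exact norm_add_le _ _
        rw [norm_smul, hν, mul_one, Real.norm_eq_abs, hy1, abs_div,
          abs_of_pos (by positivity : (0 : ℝ) < 2 ^ 2)] at h2
        have h3 : |c - ⟪ν, x 2⟫_ℝ| ≤ R0 + 3 + Real.sqrt d * (2 ^ 2 - 1) :=
          (abs_sub _ _).trans (add_le_add hc ((hinner _).trans (tower_norm hTw 2)))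
        have h4 : |c - ⟪ν, x 2⟫_ℝ| / 2 ^ 2 ≤ (R0 + 3 + 3 * Real.sqrt d) / 4 := by
          rw [div_le_div_iff₀ (by positivity) (by norm_num)]
          linarith
        linarith
      obtain ⟨xs, hxs⟩ : ∃ xs : Sp d, xs = x 2 + (2 : ℝ) ^ 2 • y0 := ⟨_, rfl⟩
      obtain ⟨p, hp⟩ : ∃ p : ℕ → Sp d, ∀ r, p r = (1 / (2 : ℝ) ^ r) • (xs - x r) :=
        ⟨_, fun _ => rfl⟩
      have hxp : ∀ r, x r + (2 : ℝ) ^ r • p r = xs := by
        intro r
        rw [hp, smul_smul, mul_one_div_cancel (by positivity), one_smul, add_sub_cancel]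
      have hp2 : p 2 = y0 := by
        rw [hp, hxs, add_sub_cancel_left, smul_smul, one_div_mul_cancel (by positivity), one_smul]
      have hpn : ∀ r : ℕ, 2 ≤ r → ‖p r‖ * 2 ^ r ≤ 4 * ‖y0‖ + Real.sqrt d * (2 ^ r - 4) := by
        intro r hr
        have h1 : ‖p r‖ * 2 ^ r = ‖xs - x r‖ := by
          rw [hp, norm_smul, Real.norm_eq_abs, abs_of_pos (by positivity), one_div, mul_comm,
            ← mul_assoc, mul_inv_cancel₀ (by positivity), one_mul]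
        rw [h1]
        have h2 : xs - x r = (2 : ℝ) ^ 2 • y0 - (x r - x 2) := by
          rw [hxs]
          abel
        rw [h2]
        refine (norm_sub_le _ _).trans (add_le_add ?_ (tower_norm2 hTw r hr))
        rw [norm_smul, Real.norm_eq_abs, abs_of_pos (by positivity)]
        norm_num
      have hpR : ∀ r : ℕ, 2 ≤ r → ‖p r‖ ≤ R0 := by
        intro r hr
        have htp : (0 : ℝ) < 2 ^ r := by positivity
        have ht4 : (4 : ℝ) ≤ 2 ^ r := by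
          calc (4 : ℝ) = 2 ^ 2 := by norm_num
            _ ≤ 2 ^ r := pow_le_pow_right₀ (by norm_num) hr
        have h1 := hpn r hr
        have h2 : 0 ≤ (R0 - Real.sqrt d) * (2 ^ r - 4) :=
          mul_nonneg (by linarith) (by linarith)
        by_contra h
        push Not at h
        have h3 : R0 * 2 ^ r < ‖p r‖ * 2 ^ r := mul_lt_mul_of_pos_right h htp
        nlinarith
      have hpR3 : ‖p r‖ ≤ R0 / 3 := by
        have htp : (0 : ℝ) < 2 ^ r := by positivity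
        have ht8 : (8 : ℝ) ≤ 2 ^ r := by
          calc (8 : ℝ) = 2 ^ 3 := by norm_num
            _ ≤ 2 ^ r := pow_le_pow_right₀ (by norm_num) hr3
        have h1 := hpn r hr2
        have h2 : 0 ≤ (R0 / 3 - Real.sqrt d) * (2 ^ r - 8) :=
          mul_nonneg (by linarith) (by linarith)
        by_contra h
        push Not at h
        have h3 : R0 / 3 * 2 ^ r < ‖p r‖ * 2 ^ r := mul_lt_mul_of_pos_right h htp
        nlinarith
      -- the jumps
      have hJF : ∀ r : ℕ, 2 ≤ r →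
          ‖JJ n0 ν (((c - ⟪ν, x r⟫_ℝ) / 2 ^ r) • ν) 1 (fun y => u (x r + (2 : ℝ) ^ r • y)) (p r) -
            JJ n0 ν (c • ν) (2 ^ r) u xs‖ ≤ CJ * q r ∧
          ‖JJ n0 ν (c • ν) (2 ^ (r + 1)) u xs - JJ n0 ν (c • ν) (2 ^ r) u xs‖ ≤
            2 * CJ * q r := by
        intro r hr
        have := hJf R (by linarith) n u hu x e hTw ν c hν hc r hr (p r) (hpR r hr)
        rwa [hxp, ← hf, ← hq] at this
      have hsum : ∀ r : ℕ, 2 ≤ r → ‖JJ n0 ν (c • ν) (2 ^ r) u xs - JJ n0 ν (c • ν) (2 ^ 2) u xs‖ ≤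
          2 * CJ * ∑ j ∈ Finset.range r, q j := by
        intro r hr
        induction r, hr using Nat.le_induction with
        | base =>
          rw [sub_self, norm_zero]
          exact mul_nonneg (by positivity) (Finset.sum_nonneg fun j _ => hq0 j)
        | succ r hr ihs =>
          rw [Finset.sum_range_succ, mul_add]
          have h1 := (hJF r hr).2
          have h2 : JJ n0 ν (c • ν) (2 ^ (r + 1)) u xs - JJ n0 ν (c • ν) (2 ^ 2) u xs =
              (JJ n0 ν (c • ν) (2 ^ r) u xs - JJ n0 ν (c • ν) (2 ^ 2) u xs) +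
              (JJ n0 ν (c • ν) (2 ^ (r + 1)) u xs - JJ n0 ν (c • ν) (2 ^ r) u xs) := by abel
          rw [h2]
          refine (norm_add_le _ _).trans (add_le_add ?_ h1)
          exact ihs
      have hJr : a / (2 * S) ≤ ‖JJ n0 ν (((c - ⟪ν, x r⟫_ℝ) / 2 ^ r) • ν) 1
          (fun y => u (x r + (2 : ℝ) ^ r • y)) (p r)‖ := by
        have h1 := (hJF 2 le_rfl).1
        rw [hp2] at h1
        have h2 := (hJF r hr2).1
        have h3 := hsum r hr2
        have h4 := hgs r hgr1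
        rw [Finset.sum_range_succ] at h4
        have h5 : q 2 ≤ ∑ j ∈ Finset.range r, q j :=
          Finset.single_le_sum (f := q) (fun j _ => hq0 j) (Finset.mem_range.mpr (by omega))
        have h6 : 4 * CJ * (κ * a) ≤ a / (2 * S) := by
          rw [le_div_iff₀ (by positivity)]
          calc 4 * CJ * (κ * a) * (2 * S) = κ * (8 * CJ * S) * a := by ring
            _ ≤ 1 * a := mul_le_mul_of_nonneg_right k4 ha.le
            _ = a := one_mul a
        have h7 : a / S = 2 * (a / (2 * S)) := by field_simp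
        exact jump_num _ _ _ _ haS h1 h3 h2 hCJ (hq0 r)
          (Finset.sum_nonneg fun j _ => hq0 j) h5 h4 h6 h7
      have hinp : ⟪ν, p r⟫_ℝ = (c - ⟪ν, x r⟫_ℝ) / 2 ^ r := by
        rw [hp, inner_smul_right, inner_sub_right, hxs, inner_add_right, inner_smul_right, hy1]
        field_simp
        ring
      have hSMr := hM R (by linarith) (n + r) (fun y => u (x r + (2 : ℝ) ^ r • y)) (hut r).1 (e r)
        (hTw.unit r) ν ((c - ⟪ν, x r⟫_ℝ) / 2 ^ r) hν (hcr r hr2).2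
        (by rw [(hut r).2]; exact hflat κM hκ'M r hgr1 ihr) (p r) (a / (2 * S)) hinp hpR3
        (by positivity) hJr
        (by
          rw [(hut r).2, (hfr r).2.2, ← hq]
          calc q r ≤ κ * a := hgq r hgr1
            _ = κ * (2 * S) * (a / (2 * S)) := by field_simp
            _ ≤ κM * (a / (2 * S)) := mul_le_mul_of_nonneg_right k5 (by positivity))
        (by
          rw [(hut r).2, (hfr r).2.2, (hfr r).2.1, smul_zero, add_zero, ← hq, ← hm]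
          calc m r * q r ≤ κ * K * a ^ 2 := hgm r hgr1
            _ = κ * K * (2 * S) ^ 2 * (a / (2 * S)) ^ 2 := by field_simp
            _ ≤ κM * (a / (2 * S)) ^ 2 := mul_le_mul_of_nonneg_right k6 (by positivity))
      rw [(hut r).2] at hSMr
      have hst := hstep E R hR (rs (x r) (2 ^ r) f) (rs_cont hfc _ _)
        (rs_cs hfs _ (by positivity)) (n + r) ((1 / (2 : ℝ) ^ r) • (x (r + 1) - x r)) (e r)
        (e (r + 1)) (xi_norm hTw r) (hTw.unit r) (hTw.unit (r + 1)) (p r) hpR3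
      rw [rs_rs, (hfr r).1, (hfr r).1, smul_zero, add_zero, smul_smul,
        mul_one_div_cancel (by positivity), one_smul, add_sub_cancel, ← hI (r + 1),
        add_assoc n r 1, ← hD (r + 1), ← hD r] at hst
      have hDr : D r ≤ κ * a := (hDq r).trans (hgq r hgr1)
      have hDr1 : D (r + 1) ≤ κ * a := (hDq (r + 1)).trans (hgq (r + 1) hr)
      have h1 : a / (2 * S) ≤ CM * (2 ^ d / 2 * I (r + 1) + CP * (κ * a + κ * a)) := by
        refine hSMr.trans (mul_le_mul_of_nonneg_left (hst.trans ?_) hCM.le)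
        exact add_le_add le_rfl (mul_le_mul_of_nonneg_left (add_le_add hDr hDr1) hCP.le)
      have h2 : CM * (CP * (κ * a + κ * a)) ≤ a / (4 * S) := by
        rw [le_div_iff₀ (by positivity)]
        calc CM * (CP * (κ * a + κ * a)) * (4 * S) = κ * (8 * CM * CP * S) * a := by ring
          _ ≤ 1 * a := mul_le_mul_of_nonneg_right k7 ha.le
          _ = a := one_mul a
      have h3 : a / (2 * S) = 2 * (a / (4 * S)) := by
        field_simp
        norm_num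
      have h4 : a / (4 * S) ≤ CM * (2 ^ d / 2) * I (r + 1) := by
        rw [mul_add] at h1
        linarith
      have h5 : 0 < I (r + 1) := by
        by_contra h
        push Not at h
        have h6 : CM * (2 ^ d / 2) * I (r + 1) ≤ 0 :=
          mul_nonpos_of_nonneg_of_nonpos (by positivity) h
        have h7 : 0 < a / (4 * S) := by positivity
        linarith
      rw [div_le_iff₀ (by positivity)] at h4
      calc a ≤ CM * (2 ^ d / 2) * I (r + 1) * (4 * S) := h4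
        _ = 4 * S * CM * (2 ^ d / 2) * I (r + 1) := by ring
        _ ≤ C * I (r + 1) := by
          refine mul_le_mul_of_nonneg_right ?_ h5.le
          rw [hCdef]
          linarith
  intro r hr2 hr
  have h1 := key r hr2 hr
  refine ⟨hflat κ1 hκ'1 r hr h1, ?_⟩
  rw [← hI]
  exact h1

end

end TG
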