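import Pool.Agent.TG.Stmts1

/-!
# Lemma Z (4.4)

The proof does not localise H: with W_l = (H - θ_l)₊, θ_l = 100 · 4^(l-n), one has
0 ≤ W_l - b_(s_(l+1)) * W_(l+1) ≤ 4 θ_l pointwise, and W_n = 0.
-/

open MeasureTheory Metric Set TrI
open scoped InnerProductSpace ContDiff

namespace TG

noncomputable section

namespace ZZ

variable {d : ℕ}

/-- even probability kernels supported in the ball of radius one half -/
structure Ker (b : Sp d → ℝ) : Prop where
  cont : Continuous b
  nonneg : ∀ x, 0 ≤ b x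
  even : ∀ x, b (-x) = b x
  supp : ∀ x, 1 / 2 ≤ ‖x‖ → b x = 0
  int : ∫ x, b x = 1

lemma ker_of {J : ℕ} {M c : ℝ} {b : Sp d → ℝ} (h : BaseKer J M c b) : Ker b where
  cont := h.smooth.continuous
  nonneg := h.nonneg
  even := fun x => le_antisymm (h.mono x (-x) (by rw [norm_neg])) (h.mono (-x) x (by rw [norm_neg]))
  supp := h.supp
  int := h.int

section kernel

variable {b : Sp d → ℝ} {F : Type*} [NormedAddCommGroup F] [NormedSpace ℝ F]

lemma Ker.supp1 (hb : Ker b) (y : Sp d) (hy : y ∉ closedBall (0 : Sp d) 1) : b y = 0 := by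
  rw [mem_closedBall, dist_zero_right, not_le] at hy
  exact hb.supp y (by linarith)

lemma Ker.cs (hb : Ker b) : HasCompactSupport b :=
  HasCompactSupport.intro (isCompact_closedBall (0 : Sp d) 1) hb.supp1

lemma Ker.integrable (hb : Ker b) : Integrable b :=
  hb.cont.integrable_of_hasCompactSupport hb.cs

lemma Ker.int_smul (hb : Ker b) {g : Sp d → F} (hg : Continuous g) :
    Integrable (fun y => b y • g y) :=
  (hb.cont.smul hg).integrable_of_hasCompactSupport hb.cs.smul_right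

lemma Ker.int_avk (hb : Ker b) {g : Sp d → F} (hg : Continuous g) (s : ℝ) (x : Sp d) :
    Integrable (fun y => b y • g (x + s • y)) :=
  hb.int_smul (g := fun y => g (x + s • y)) (hg.comp (by fun_prop))

lemma avk_cont (hb : Ker b) {g : Sp d → F} (hg : Continuous g) (s : ℝ) :
    Continuous (avk b s g) := by
  have h1 : avk b s g = fun z => ∫ y in closedBall (0 : Sp d) 1, b y • g (z + s • y) := by
    ext z
    unfold avk
    symm
    refine setIntegral_eq_integral_of_forall_compl_eq_zero fun y hy => ?_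
    rw [hb.supp1 y hy, zero_smul]
  rw [h1]
  refine continuous_parametric_integral_of_continuous ?_ (isCompact_closedBall _ _)
  have h2 : Continuous fun p : Sp d × Sp d => b p.2 • g (p.1 + s • p.2) :=
    (hb.cont.comp continuous_snd).smul (hg.comp (by fun_prop))
  exact h2

lemma avk_cs (hb : Ker b) {g : Sp d → F} (hg : HasCompactSupport g) (s : ℝ) :
    HasCompactSupport (avk b s g) := by
  obtain ⟨A, hA⟩ := hg.isCompact.isBounded.subset_closedBall (0 : Sp d)
  refine HasCompactSupport.intro (isCompact_closedBall (0 : Sp d) (A + |s|)) fun x hx => ?_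
  unfold avk
  rw [← integral_zero (Sp d) F (μ := volume)]
  congr 1
  funext y
  by_cases hy : y ∈ closedBall (0 : Sp d) 1
  · have h1 : g (x + s • y) = 0 := by
      by_contra hne
      have h2 : x + s • y ∈ closedBall (0 : Sp d) A :=
        hA (subset_tsupport g (Function.mem_support.mpr hne))
      rw [mem_closedBall, dist_zero_right] at h2 hy
      rw [mem_closedBall, dist_zero_right, not_le] at hx
      have h3 : ‖x‖ ≤ ‖x + s • y‖ + ‖s • y‖ := by
        have := norm_sub_le (x + s • y) (s • y)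
        simpa using this
      rw [norm_smul, Real.norm_eq_abs] at h3
      have h4 : |s| * ‖y‖ ≤ |s| * 1 := mul_le_mul_of_nonneg_left hy (abs_nonneg s)
      linarith
    rw [h1, smul_zero]
  · rw [hb.supp1 y hy, zero_smul]

/-- averages are self adjoint -/
lemma avk_adj (hb : Ker b) {m W : Sp d → ℝ} (hm : Continuous m) (hms : HasCompactSupport m)
    (hW : Continuous W) (hWs : HasCompactSupport W) (s : ℝ) :
    ∫ x, avk b s m x * W x = ∫ x, m x * avk b s W x := by
  have hint : Integrable (Function.uncurry fun (x y : Sp d) => b y * m (x + s • y) * W x)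
      ((volume : Measure (Sp d)).prod volume) := by
    refine Continuous.integrable_of_hasCompactSupport ?_ ?_
    · unfold Function.uncurry
      exact ((hb.cont.comp continuous_snd).mul (hm.comp (by fun_prop))).mul
        (hW.comp continuous_fst)
    · refine HasCompactSupport.intro (hWs.isCompact.prod (isCompact_closedBall (0 : Sp d) 1)) ?_
      rintro ⟨x, y⟩ hx
      simp only [Function.uncurry]
      rw [mem_prod, not_and_or] at hx
      rcases hx with hx | hx
      · rw [image_eq_zero_of_notMem_tsupport hx, mul_zero]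
      · rw [hb.supp1 y hx, zero_mul, zero_mul]
  have e1 : ∫ x, avk b s m x * W x = ∫ x, ∫ y, b y * m (x + s • y) * W x := by
    congr 1
    funext x
    unfold avk
    rw [← integral_mul_const]
    rfl
  have e2 : ∀ y, ∫ x, b y * m (x + s • y) * W x = ∫ x, b y * m x * W (x - s • y) := by
    intro y
    rw [← integral_add_right_eq_self (fun x => b y * m x * W (x - s • y)) (s • y)]
    congr 1
    funext x
    rw [add_sub_cancel_right]
  have e3 : ∫ y, ∫ x, b y * m x * W (x - s • y) = ∫ y, ∫ x, b y * m x * W (x + s • y) := by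
    rw [← integral_neg_eq_self (fun y => ∫ x, b y * m x * W (x + s • y)) (μ := volume)]
    congr 1
    funext y
    rw [hb.even]
    congr 1
    funext x
    rw [smul_neg, ← sub_eq_add_neg]
  have hint2 : Integrable (Function.uncurry fun (x y : Sp d) => b y * m x * W (x + s • y))
      ((volume : Measure (Sp d)).prod volume) := by
    refine Continuous.integrable_of_hasCompactSupport ?_ ?_
    · unfold Function.uncurry
      exact ((hb.cont.comp continuous_snd).mul (hm.comp continuous_fst)).mul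
        (hW.comp (by fun_prop))
    · refine HasCompactSupport.intro (hms.isCompact.prod (isCompact_closedBall (0 : Sp d) 1)) ?_
      rintro ⟨x, y⟩ hx
      simp only [Function.uncurry]
      rw [mem_prod, not_and_or] at hx
      rcases hx with hx | hx
      · rw [image_eq_zero_of_notMem_tsupport hx, mul_zero, zero_mul]
      · rw [hb.supp1 y hx, zero_mul, zero_mul]
  rw [e1, integral_integral_swap hint, integral_congr_ae (Filter.Eventually.of_forall e2), e3,
    ← integral_integral_swap hint2]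
  congr 1
  funext x
  unfold avk
  rw [← integral_const_mul]
  congr 1
  funext y
  rw [smul_eq_mul]
  ring

end kernel

/-! ## Taylor inequalities for H -/

section taylor

variable {H : Sp d → ℝ}

lemma taylor (hH : ContDiff ℝ 2 H) (h2 : ∀ y, ‖iteratedFDeriv ℝ 2 H y‖ ≤ 1) (x v : Sp d) :
    |H (x + v) - H x - fderiv ℝ H x v| ≤ ‖v‖ ^ 2 := by
  have hd : Differentiable ℝ H := hH.differentiable (by norm_num)
  have hD : ContDiff ℝ 1 (fderiv ℝ H) := hH.fderiv_right (by norm_num)
  have hDd : Differentiable ℝ (fderiv ℝ H) := hD.differentiable (by norm_num)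
  have hbd : ∀ y, ‖fderiv ℝ (fderiv ℝ H) y‖ ≤ 1 := fun y => by
    have : ‖fderiv ℝ (fderiv ℝ H) y‖ = ‖iteratedFDeriv ℝ 2 H y‖ := by
      rw [show (2 : ℕ) = 1 + 1 from rfl, ← norm_iteratedFDeriv_fderiv,
        norm_iteratedFDeriv_one]
    rw [this]
    exact h2 y
  have hlip : ∀ y, ‖fderiv ℝ H y - fderiv ℝ H x‖ ≤ ‖y - x‖ := fun y => by
    have := Convex.norm_image_sub_le_of_norm_fderiv_le (𝕜 := ℝ) (f := fderiv ℝ H) (s := univ)
      (C := 1) (x := x) (y := y) (fun z _ => hDd z) (fun z _ => hbd z) convex_univ (mem_univ _)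
      (mem_univ _)
    simpa using this
  have h3 := (convex_closedBall x ‖v‖).norm_image_sub_le_of_norm_fderiv_le' (𝕜 := ℝ) (f := H)
    (φ := fderiv ℝ H x) (C := ‖v‖) (x := x) (y := x + v) (fun z _ => hd z)
    (fun z hz => (hlip z).trans (by rwa [mem_closedBall, dist_eq_norm] at hz))
    (mem_closedBall_self (norm_nonneg v)) (by simp [mem_closedBall, dist_eq_norm])
  rw [Real.norm_eq_abs, add_sub_cancel_left] at h3
  rw [pow_two]
  exact h3

lemma grad_bd (hH : ContDiff ℝ 2 H) (h2 : ∀ y, ‖iteratedFDeriv ℝ 2 H y‖ ≤ 1)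
    (h0 : ∀ y, 0 ≤ H y) (x v : Sp d) : |fderiv ℝ H x v| ≤ H x / 10 + 10 * ‖v‖ ^ 2 := by
  have key : ∀ t : ℝ, 0 ≤ H x + t * fderiv ℝ H x v + t ^ 2 * ‖v‖ ^ 2 := fun t => by
    have h3 := (abs_le.mp (taylor hH h2 x (t • v))).2
    rw [map_smul, smul_eq_mul, norm_smul, mul_pow, Real.norm_eq_abs, sq_abs] at h3
    have h4 := h0 (x + t • v)
    linarith
  have k1 := key 10
  have k2 := key (-10)
  rw [abs_le]
  constructor <;> nlinarith

end taylor

/-! ## The pointwise inequalities -/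

section pointwise

variable {b H : Sp d → ℝ}

/-- truncation -/
def tr (H : Sp d → ℝ) (θ : ℝ) (y : Sp d) : ℝ := max 0 (H y - θ)

lemma tr_cont (hH : Continuous H) (θ : ℝ) : Continuous (tr H θ) :=
  continuous_const.max (hH.sub continuous_const)

lemma tr_cs (hH : HasCompactSupport H) {θ : ℝ} (hθ : 0 ≤ θ) : HasCompactSupport (tr H θ) := by
  refine hH.mono fun y hy => ?_
  rw [Function.mem_support] at hy ⊢
  intro h
  refine hy ?_
  unfold tr
  rw [h, zero_sub]
  exact max_eq_left (by linarith)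

lemma odd_int (hb : Ker b) (φ : Sp d →L[ℝ] ℝ) : ∫ z, b z * φ z = 0 := by
  have h1 := integral_neg_eq_self (fun z => b z * φ z) (volume : Measure (Sp d))
  have h2 : ∫ z, b (-z) * φ (-z) = - ∫ z, b z * φ z := by
    rw [← integral_neg]
    congr 1
    funext z
    rw [hb.even, map_neg]
    ring
  linarith

lemma aff_int (hb : Ker b) (φ : Sp d →L[ℝ] ℝ) (s c : ℝ) :
    Integrable (fun z => b z * (c + φ (s • z))) ∧ ∫ z, b z * (c + φ (s • z)) = c := by
  have i1 : Integrable (fun z => b z * c) := hb.integrable.mul_const c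
  have i2 : Integrable (fun z => b z * φ z) := by
    have := hb.int_smul (g := fun z => φ z) φ.continuous
    simpa using this
  have e : (fun z => b z * (c + φ (s • z))) = fun z => b z * c + s * (b z * φ z) := by
    funext z
    rw [map_smul, smul_eq_mul]
    ring
  rw [e]
  refine ⟨i1.add (i2.const_mul s), ?_⟩
  rw [integral_add i1 (i2.const_mul s), integral_mul_const, hb.int, integral_const_mul,
    odd_int hb, mul_zero, add_zero, one_mul]

lemma avk_le (hb : Ker b) (hH : ContDiff ℝ 2 H) (h2 : ∀ y, ‖iteratedFDeriv ℝ 2 H y‖ ≤ 1)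
    (h0 : ∀ y, 0 ≤ H y) {s θ : ℝ} (hs : 0 ≤ s) (hθ : 0 < θ) (hsθ : (s / 2) ^ 2 ≤ θ / 100)
    (x : Sp d) : avk b s (tr H (4 * θ)) x ≤ tr H θ x := by
  have hv : ∀ z : Sp d, ‖z‖ < 1 / 2 → ‖s • z‖ ^ 2 ≤ θ / 100 := fun z hz => by
    rw [norm_smul, Real.norm_of_nonneg hs]
    refine le_trans ?_ hsθ
    have h3 : s * ‖z‖ ≤ s / 2 := by nlinarith
    exact pow_le_pow_left₀ (by positivity) h3 2
  have hup : ∀ z : Sp d, ‖z‖ < 1 / 2 →
      H (x + s • z) ≤ H x + fderiv ℝ H x (s • z) + θ / 100 := fun z hz => by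
    have h3 := (abs_le.mp (taylor hH h2 x (s • z))).2
    have h4 := hv z hz
    linarith
  have hgr : ∀ z : Sp d, ‖z‖ < 1 / 2 → |fderiv ℝ H x (s • z)| ≤ H x / 10 + θ / 10 :=
    fun z hz => by
    have h3 := grad_bd hH h2 h0 x (s • z)
    have h4 := hv z hz
    linarith
  unfold avk
  have hi : Integrable fun y => b y • tr H (4 * θ) (x + s • y) :=
    hb.int_avk (tr_cont hH.continuous _) s x
  rcases le_or_gt (5 * θ) (H x) with hc | hc
  · obtain ⟨i1, e1⟩ := aff_int hb (fderiv ℝ H x) s (H x + θ / 100 - 4 * θ)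
    have h5 : ∫ y, b y • tr H (4 * θ) (x + s • y) ≤ H x + θ / 100 - 4 * θ := by
      rw [← e1]
      refine integral_mono hi i1 fun z => ?_
      rw [smul_eq_mul]
      rcases le_or_gt (1 / 2) ‖z‖ with hz | hz
      · simp only [hb.supp z hz, zero_mul, le_refl]
      · refine mul_le_mul_of_nonneg_left ?_ (hb.nonneg z)
        have h6 := hup z hz
        have h7 := (abs_le.mp (hgr z hz)).1
        exact max_le (by linarith) (by linarith)
    refine h5.trans (le_max_of_le_right ?_)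
    linarith
  · have i1 : Integrable fun z => b z * tr H θ x := hb.integrable.mul_const _
    have h5 : ∫ y, b y • tr H (4 * θ) (x + s • y) ≤ ∫ z, b z * tr H θ x := by
      refine integral_mono hi i1 fun z => ?_
      show b z • tr H (4 * θ) (x + s • z) ≤ b z * tr H θ x
      rw [smul_eq_mul]
      rcases le_or_gt (1 / 2) ‖z‖ with hz | hz
      · rw [hb.supp z hz, zero_mul, zero_mul]
      · refine mul_le_mul_of_nonneg_left ?_ (hb.nonneg z)
        have h6 := hup z hz
        have h7 := (abs_le.mp (hgr z hz)).2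
        have h8 := h0 x
        exact max_le_max le_rfl (by linarith)
    refine h5.trans ?_
    rw [integral_mul_const, hb.int, one_mul]

lemma avk_ge (hb : Ker b) (hH : ContDiff ℝ 2 H) (h2 : ∀ y, ‖iteratedFDeriv ℝ 2 H y‖ ≤ 1)
    {s θ : ℝ} (hs : 0 ≤ s) (hsθ : (s / 2) ^ 2 ≤ θ / 100)
    (x : Sp d) : tr H θ x - 4 * θ ≤ avk b s (tr H (4 * θ)) x := by
  have hv : ∀ z : Sp d, ‖z‖ < 1 / 2 → ‖s • z‖ ^ 2 ≤ θ / 100 := fun z hz => by
    rw [norm_smul, Real.norm_of_nonneg hs]
    refine le_trans ?_ hsθ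
    have h3 : s * ‖z‖ ≤ s / 2 := by nlinarith
    exact pow_le_pow_left₀ (by positivity) h3 2
  have hθ : 0 ≤ θ := by
    have : 0 ≤ (s / 2) ^ 2 := sq_nonneg _
    linarith
  have hlo : ∀ z : Sp d, ‖z‖ < 1 / 2 →
      H x + fderiv ℝ H x (s • z) - θ / 100 ≤ H (x + s • z) := fun z hz => by
    have h3 := (abs_le.mp (taylor hH h2 x (s • z))).1
    have h4 := hv z hz
    linarith
  have hi : Integrable fun y => b y • tr H (4 * θ) (x + s • y) :=
    hb.int_avk (tr_cont hH.continuous _) s x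
  have h0 : 0 ≤ avk b s (tr H (4 * θ)) x := by
    unfold avk
    exact integral_nonneg fun z => mul_nonneg (hb.nonneg z) (le_max_left _ _)
  obtain ⟨i1, e1⟩ := aff_int hb (fderiv ℝ H x) s (H x - θ / 100 - 4 * θ)
  have h5 : H x - θ / 100 - 4 * θ ≤ avk b s (tr H (4 * θ)) x := by
    unfold avk
    rw [← e1]
    refine integral_mono i1 hi fun z => ?_
    rw [smul_eq_mul]
    rcases le_or_gt (1 / 2) ‖z‖ with hz | hz
    · simp only [hb.supp z hz, zero_mul, le_refl]
    · refine mul_le_mul_of_nonneg_left ?_ (hb.nonneg z)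
      have h6 := hlo z hz
      exact le_max_of_le_right (by linarith)
  rw [sub_le_iff_le_add]
  exact max_le (by linarith) (by linarith)

end pointwise

/-! ## The fields -/

section fields

variable {E : Type} [NormedAddCommGroup E] [InnerProductSpace ℝ E] {b : Sp d → ℝ}

lemma fl_reg (hb : Ker b) (ε s0 : ℝ) {f : Sp d → E} (hf : Continuous f)
    (hfs : HasCompactSupport f) (l : ℕ) :
    Continuous (fl b ε s0 f l) ∧ HasCompactSupport (fl b ε s0 f l) := by
  induction l with
  | zero => exact ⟨hf, hfs⟩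
  | succ l ih => exact ⟨avk_cont hb ih.1 _, avk_cs hb ih.2 _⟩

/-- the component of f_l in direction e -/
def mm (b : Sp d → ℝ) (ε s0 : ℝ) (f : Sp d → E) (e : E) (l : ℕ) (y : Sp d) : ℝ :=
  ⟪fl b ε s0 f l y, e⟫_ℝ

lemma mm_reg (hb : Ker b) (ε s0 : ℝ) {f : Sp d → E} (hf : Continuous f)
    (hfs : HasCompactSupport f) (e : E) (l : ℕ) :
    Continuous (mm b ε s0 f e l) ∧ HasCompactSupport (mm b ε s0 f e l) := by
  obtain ⟨h1, h2⟩ := fl_reg hb ε s0 hf hfs l
  refine ⟨h1.inner continuous_const, h2.mono fun y hy => ?_⟩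
  rw [Function.mem_support] at hy ⊢
  intro h
  refine hy ?_
  unfold mm
  rw [h, inner_zero_left]

lemma mm_succ [CompleteSpace E] (hb : Ker b) (ε s0 : ℝ) {f : Sp d → E} (hf : Continuous f)
    (hfs : HasCompactSupport f) (e : E) (l : ℕ) :
    mm b ε s0 f e (l + 1) = avk b (ε * lev s0 (l + 1)) (mm b ε s0 f e l) := by
  funext x
  have h1 := (fl_reg hb ε s0 hf hfs l).1
  have hi := hb.int_avk h1 (ε * lev s0 (l + 1)) x
  have h2 := (innerSL ℝ e).integral_comp_comm hi
  simp only [innerSL_apply_apply, inner_smul_right] at h2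
  show ⟪∫ y, b y • fl b ε s0 f l (x + (ε * lev s0 (l + 1)) • y), e⟫_ℝ = _
  rw [real_inner_comm, ← h2]
  unfold avk mm
  congr 1
  funext y
  rw [smul_eq_mul, real_inner_comm]

/-- the defect density -/
def de (b : Sp d → ℝ) (ε s0 : ℝ) (f : Sp d → E) (e : E) (l : ℕ) (y : Sp d) : ℝ :=
  ‖fl b ε s0 f l y‖ - ⟪fl b ε s0 f l y, e⟫_ℝ

lemma de_nonneg (ε s0 : ℝ) (f : Sp d → E) {e : E} (he : ‖e‖ = 1) (l : ℕ) (y : Sp d) :
    0 ≤ de b ε s0 f e l y := by
  unfold de
  have := real_inner_le_norm (fl b ε s0 f l y) e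
  rw [he, mul_one] at this
  linarith

lemma de_int (hb : Ker b) (ε s0 : ℝ) {f : Sp d → E} (hf : Continuous f)
    (hfs : HasCompactSupport f) (e : E) (l : ℕ) : Integrable (de b ε s0 f e l) := by
  obtain ⟨h1, h2⟩ := fl_reg hb ε s0 hf hfs l
  obtain ⟨h3, h4⟩ := mm_reg hb ε s0 hf hfs e l
  exact (h1.norm.integrable_of_hasCompactSupport h2.norm).sub
    (h3.integrable_of_hasCompactSupport h4)

/-- a nonnegative function bounded by c and supported in the ball -/
lemma low (hb : Ker b) (ε s0 : ℝ) {f : Sp d → E} (hf : Continuous f)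
    (hfs : HasCompactSupport f) {e : E} (he : ‖e‖ = 1) (l : ℕ) {g : Sp d → ℝ} {c : ℝ}
    (hg : Continuous g) (g0 : ∀ y, 0 ≤ g y) (gc : ∀ y, g y ≤ c) {B : Set (Sp d)}
    (hB : MeasurableSet B) (gB : ∀ y, y ∉ B → g y = 0) :
    -(c * ∫ y in B, de b ε s0 f e l y) ≤ ∫ y, mm b ε s0 f e l y * g y := by
  obtain ⟨h3, h4⟩ := mm_reg hb ε s0 hf hfs e l
  have hd := de_int hb ε s0 hf hfs e l
  rw [← integral_indicator hB, ← integral_const_mul, ← integral_neg]
  refine integral_mono ((hd.indicator hB).const_mul c).neg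
    ((h3.mul hg).integrable_of_hasCompactSupport h4.mul_right) fun y => ?_
  show -(c * B.indicator (de b ε s0 f e l) y) ≤ mm b ε s0 f e l y * g y
  have h5 := de_nonneg (b := b) ε s0 f he l y
  have h6 : -de b ε s0 f e l y ≤ mm b ε s0 f e l y := by
    unfold de mm
    have := norm_nonneg (fl b ε s0 f l y)
    linarith
  by_cases hy : y ∈ B
  · rw [indicator_of_mem hy]
    have h7 := g0 y
    have h8 := gc y
    have h9 : -de b ε s0 f e l y * g y ≤ mm b ε s0 f e l y * g y :=
      mul_le_mul_of_nonneg_right h6 h7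
    nlinarith
  · rw [indicator_of_notMem hy, gB y hy]
    simp

end fields

lemma lev_one (n : ℕ) : lev ((1 / 2 : ℝ) ^ n) n = 1 := by
  unfold lev
  rw [← mul_pow]
  norm_num

/-- one step -/
lemma scale_sq {ε : ℝ} (h0 : 0 < ε) (h1 : ε ≤ 1) {n l : ℕ} (hl : l < n) :
    (ε * lev ((1 / 2 : ℝ) ^ n) (l + 1) / 2) ^ 2 ≤ 100 * (1 / 4 : ℝ) ^ (n - l) / 100 := by
  unfold lev
  obtain ⟨k, rfl⟩ := Nat.exists_eq_add_of_lt hl
  have e1 : l + k + 1 - l = k + 1 := by omega
  have e2 : ε * ((1 / 2 : ℝ) ^ (l + k + 1) * 2 ^ (l + 1)) / 2 = ε * (1 / 2) ^ (k + 1) := by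
    have : (1 / 2 : ℝ) ^ (l + k + 1) = (1 / 2) ^ l * (1 / 2) ^ (k + 1) := by
      rw [← pow_add]; congr 1
    have h3 : (1 / 2 : ℝ) ^ l * 2 ^ l = 1 := by rw [← mul_pow]; norm_num
    rw [this, pow_succ 2 l]
    calc ε * ((1 / 2 : ℝ) ^ l * (1 / 2) ^ (k + 1) * (2 ^ l * 2)) / 2
        = ε * (1 / 2) ^ (k + 1) * ((1 / 2 : ℝ) ^ l * 2 ^ l) := by ring
      _ = ε * (1 / 2) ^ (k + 1) := by rw [h3, mul_one]
  rw [e1, e2, mul_pow, mul_div_cancel_left₀ _ (by norm_num : (100 : ℝ) ≠ 0), ← pow_mul,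
    mul_comm (k + 1) 2, pow_mul]
  have h3 : ε ^ 2 ≤ 1 := by nlinarith
  have h4 : (0 : ℝ) ≤ ((1 / 2 : ℝ) ^ 2) ^ (k + 1) := by positivity
  have h5 : ((1 / 2 : ℝ) ^ 2) ^ (k + 1) = (1 / 4) ^ (k + 1) := by norm_num
  rw [h5] at h4 ⊢
  nlinarith

end ZZ

theorem stmtZ : StmtZ := by
  intro d _ M c ε h0 h1 b hbk
  have hb := ZZ.ker_of hbk
  refine ⟨500, by norm_num, ?_⟩
  intro E _ _ _ f hf hfs R hR n e he x H hH H0 H1 H2 Hs
  set s0 : ℝ := (1 / 2 : ℝ) ^ n with hs0
  set B : Set (Sp d) := ball x R with hB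
  have hBm : MeasurableSet B := measurableSet_ball
  have HB : ∀ y, y ∉ B → H y = 0 := fun y hy => Hs y (by
    rw [hB, mem_ball, dist_eq_norm, not_lt] at hy
    linarith)
  have Hcs : HasCompactSupport H := by
    refine HasCompactSupport.intro (isCompact_closedBall x R) fun y hy => HB y fun hy' => hy ?_
    exact ball_subset_closedBall hy'
  have Hc : Continuous H := hH.continuous
  set θ : ℕ → ℝ := fun l => 100 * (1 / 4 : ℝ) ^ (n - l) with hθ
  have hθ0 : ∀ l, 0 < θ l := fun l => by positivity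
  set I : ℕ → ℝ := fun l => ∫ y in B, ZZ.de b ε s0 f e l y with hI
  have hI0 : ∀ l, 0 ≤ I l := fun l =>
    setIntegral_nonneg hBm fun y _ => ZZ.de_nonneg ε s0 f he l y
  -- one step
  have step : ∀ l, l < n → -(4 * θ l * I l) + ∫ y, ZZ.mm b ε s0 f e (l + 1) y *
      ZZ.tr H (θ (l + 1)) y ≤ ∫ y, ZZ.mm b ε s0 f e l y * ZZ.tr H (θ l) y := by
    intro l hl
    have hθl : θ (l + 1) = 4 * θ l := by
      simp only [hθ]
      have : n - l = (n - (l + 1)) + 1 := by omega
      rw [this, pow_succ]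
      ring
    have hsc := ZZ.scale_sq h0 h1 hl
    have hs : 0 ≤ ε * lev s0 (l + 1) := by
      unfold lev
      positivity
    obtain ⟨m1, m2⟩ := ZZ.mm_reg hb ε s0 hf hfs e l
    have ht1 := ZZ.tr_cont Hc (θ l)
    have ht2 := ZZ.tr_cont Hc (θ (l + 1))
    have ht3 := ZZ.tr_cs Hcs (hθ0 (l + 1)).le
    have hcont : Continuous (avk b (ε * lev s0 (l + 1)) (ZZ.tr H (θ (l + 1)))) :=
      ZZ.avk_cont hb ht2 _
    have hlow := ZZ.low hb ε s0 hf hfs he l
      (g := fun y => ZZ.tr H (θ l) y - avk b (ε * lev s0 (l + 1)) (ZZ.tr H (θ (l + 1))) y)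
      (c := 4 * θ l) (ht1.sub hcont)
      (fun y => by
        have := ZZ.avk_le hb hH H2 H0 hs (hθ0 l) hsc y
        rw [← hθl] at this
        linarith)
      (fun y => by
        have := ZZ.avk_ge hb hH H2 hs hsc y
        rw [← hθl] at this
        have e4 : 4 * θ l = θ (l + 1) := hθl.symm
        change ZZ.tr H (θ l) y - θ (l + 1) ≤ _ at this
        rw [e4]
        linarith)
      hBm
      (fun y hy => by
        have h3 := ZZ.avk_le hb hH H2 H0 hs (hθ0 l) hsc y
        rw [← hθl] at h3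
        have h4 : ZZ.tr H (θ l) y = 0 := by
          unfold ZZ.tr
          rw [HB y hy, zero_sub]
          exact max_eq_left (by linarith [hθ0 l])
        have h5 : 0 ≤ avk b (ε * lev s0 (l + 1)) (ZZ.tr H (θ (l + 1))) y := by
          unfold avk
          exact integral_nonneg fun z => mul_nonneg (hb.nonneg z) (le_max_left _ _)
        change avk b (ε * lev s0 (l + 1)) (ZZ.tr H (θ (l + 1))) y ≤ ZZ.tr H (θ l) y at h3
        rw [h4] at h3 ⊢
        linarith)
    have e1 : ∫ y, ZZ.mm b ε s0 f e (l + 1) y * ZZ.tr H (θ (l + 1)) y =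
        ∫ y, ZZ.mm b ε s0 f e l y * avk b (ε * lev s0 (l + 1)) (ZZ.tr H (θ (l + 1))) y := by
      rw [ZZ.mm_succ hb ε s0 hf hfs e l]
      exact ZZ.avk_adj hb m1 m2 ht2 ht3 _
    have i1 : Integrable fun y => ZZ.mm b ε s0 f e l y * ZZ.tr H (θ l) y :=
      (m1.mul ht1).integrable_of_hasCompactSupport m2.mul_right
    have i2 : Integrable fun y => ZZ.mm b ε s0 f e l y *
        avk b (ε * lev s0 (l + 1)) (ZZ.tr H (θ (l + 1))) y :=
      (m1.mul hcont).integrable_of_hasCompactSupport m2.mul_right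
    have e2 : ∫ y, ZZ.mm b ε s0 f e l y * (ZZ.tr H (θ l) y -
        avk b (ε * lev s0 (l + 1)) (ZZ.tr H (θ (l + 1))) y) =
        (∫ y, ZZ.mm b ε s0 f e l y * ZZ.tr H (θ l) y) - ∫ y, ZZ.mm b ε s0 f e l y *
          avk b (ε * lev s0 (l + 1)) (ZZ.tr H (θ (l + 1))) y := by
      rw [← integral_sub i1 i2]
      congr 1
      funext y
      ring
    rw [e2] at hlow
    rw [e1]
    change -(4 * θ l * I l) ≤ _ at hlow
    linarith
  -- telescoping
  have tele : ∀ l, l ≤ n → -(∑ j ∈ Finset.range l, 4 * θ j * I j) +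
      ∫ y, ZZ.mm b ε s0 f e l y * ZZ.tr H (θ l) y ≤
        ∫ y, ZZ.mm b ε s0 f e 0 y * ZZ.tr H (θ 0) y := by
    intro l
    induction l with
    | zero => intro _; simp
    | succ l ih =>
      intro hl
      have h3 := ih (by omega)
      have h4 := step l (by omega)
      rw [Finset.sum_range_succ]
      linarith
  have hn := tele n le_rfl
  have htop : ∫ y, ZZ.mm b ε s0 f e n y * ZZ.tr H (θ n) y = 0 := by
    have : ∀ y, ZZ.tr H (θ n) y = 0 := fun y => by
      unfold ZZ.tr
      simp only [hθ, Nat.sub_self, pow_zero, mul_one]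
      exact max_eq_left (by linarith [H1 y])
    simp [this]
  rw [htop, add_zero] at hn
  -- bottom
  obtain ⟨m1, m2⟩ := ZZ.mm_reg hb ε s0 hf hfs e 0
  have ht := ZZ.tr_cont Hc (θ 0)
  have hbot := ZZ.low hb ε s0 hf hfs he 0 (g := fun y => H y - ZZ.tr H (θ 0) y) (c := θ 0)
    (Hc.sub ht)
    (fun y => by
      have : ZZ.tr H (θ 0) y ≤ H y := max_le (H0 y) (by linarith [hθ0 0])
      linarith)
    (fun y => by
      have : H y - θ 0 ≤ ZZ.tr H (θ 0) y := le_max_right _ _
      linarith)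
    hBm
    (fun y hy => by
      have : ZZ.tr H (θ 0) y = 0 := by
        unfold ZZ.tr
        rw [HB y hy, zero_sub]
        exact max_eq_left (by linarith [hθ0 0])
      rw [this, HB y hy, sub_zero])
  have i1 : Integrable fun y => ZZ.mm b ε s0 f e 0 y * H y :=
    (m1.mul Hc).integrable_of_hasCompactSupport m2.mul_right
  have i2 : Integrable fun y => ZZ.mm b ε s0 f e 0 y * ZZ.tr H (θ 0) y :=
    (m1.mul ht).integrable_of_hasCompactSupport m2.mul_right
  have e2 : ∫ y, ZZ.mm b ε s0 f e 0 y * (H y - ZZ.tr H (θ 0) y) =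
      (∫ y, ZZ.mm b ε s0 f e 0 y * H y) -
        ∫ y, ZZ.mm b ε s0 f e 0 y * ZZ.tr H (θ 0) y := by
    rw [← integral_sub i1 i2]
    congr 1
    funext y
    ring
  rw [e2] at hbot
  change -(θ 0 * I 0) ≤ _ at hbot
  have hDD : DD b ε R s0 f n x e = ∑ l ∈ Finset.range (n + 1), (1 / 4 : ℝ) ^ (n - l) * I l +
      (1 / 4 : ℝ) ^ n * ∫ y in B, ‖f y‖ := by
    unfold DD
    rw [hs0, ZZ.lev_one n]
    simp only [one_pow, div_one, mul_one, one_mul]
    rfl
  have hsum : θ 0 * I 0 + ∑ j ∈ Finset.range n, 4 * θ j * I j ≤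
      500 * ∑ l ∈ Finset.range (n + 1), (1 / 4 : ℝ) ^ (n - l) * I l := by
    have h3 : ∑ j ∈ Finset.range n, 4 * θ j * I j =
        400 * ∑ l ∈ Finset.range n, (1 / 4 : ℝ) ^ (n - l) * I l := by
      rw [Finset.mul_sum]
      refine Finset.sum_congr rfl fun j _ => ?_
      simp only [hθ]
      ring
    have h4 : ∑ l ∈ Finset.range n, (1 / 4 : ℝ) ^ (n - l) * I l ≤
        ∑ l ∈ Finset.range (n + 1), (1 / 4 : ℝ) ^ (n - l) * I l := by
      rw [Finset.sum_range_succ]
      have : 0 ≤ (1 / 4 : ℝ) ^ (n - n) * I n := mul_nonneg (by positivity) (hI0 n)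
      linarith
    have h5 : (1 / 4 : ℝ) ^ (n - 0) * I 0 ≤
        ∑ l ∈ Finset.range (n + 1), (1 / 4 : ℝ) ^ (n - l) * I l :=
      Finset.single_le_sum (f := fun l => (1 / 4 : ℝ) ^ (n - l) * I l)
        (fun l _ => mul_nonneg (by positivity) (hI0 l)) (Finset.mem_range.mpr (by omega))
    have h6 : θ 0 * I 0 = 100 * ((1 / 4 : ℝ) ^ (n - 0) * I 0) := by
      simp only [hθ]
      ring
    rw [h3, h6]
    linarith
  have hf0 : 0 ≤ (1 / 4 : ℝ) ^ n * ∫ y in B, ‖f y‖ :=
    mul_nonneg (by positivity) (integral_nonneg fun y => norm_nonneg _)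
  rw [hDD]
  change _ ≤ ∫ y, ZZ.mm b ε s0 f e 0 y * H y
  linarith

end

end TG
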