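import Pool.Agent.TG.PLa
import Pool.Agent.TG.TQ
import Pool.Agent.TG.ZZ

/-!
# Module PL, part 2: the functionals at unit scale, use of Lemma Z (by helper95)
-/

open MeasureTheory Metric Set TrI
open scoped InnerProductSpace ContDiff

namespace TG

namespace PL

variable {d : ℕ}

section Fn

variable {E : Type} [NormedAddCommGroup E] [InnerProductSpace ℝ E]

lemma DD_nn (b : Sp d → ℝ) (ε R : ℝ) (n : ℕ) (f : Sp d → E) (x : Sp d) {e : E} (he : ‖e‖ = 1) :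
    0 ≤ DD b ε R ((1 / 2) ^ n) f n x e := by
  unfold DD
  rw [ZZ.lev_one]
  have h1 : ∀ v : E, 0 ≤ ‖v‖ - ⟪v, e⟫_ℝ := by
    intro v
    have := real_inner_le_norm v e
    rw [he, mul_one] at this
    linarith
  refine mul_nonneg (by positivity) (add_nonneg (Finset.sum_nonneg fun l _ => ?_) ?_)
  · exact mul_nonneg (by positivity) (integral_nonneg fun y => h1 _)
  · exact mul_nonneg (by positivity) (integral_nonneg fun y => norm_nonneg _)

lemma ma_nn (b : Sp d → ℝ) (ε R : ℝ) (n : ℕ) (f : Sp d → E) (x : Sp d) :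
    0 ≤ ma b ε R ((1 / 2) ^ n) f n x := by
  unfold ma
  rw [ZZ.lev_one]
  exact mul_nonneg (by positivity) (integral_nonneg fun y => norm_nonneg _)

lemma bb_eq (ρ : ℝ) (n : ℕ) (f : Sp d → E) (e : E) (ν : Sp d) (c : ℝ) :
    bb ρ ((1 / 2) ^ n) f n 0 e ν c = ∫ y, ⟪f y, e⟫_ℝ * (zR ρ y * ht ν c y ^ 2) := by
  unfold bb
  rw [ZZ.lev_one]
  simp

lemma bD_eq (b : Sp d → ℝ) (ε R0 R : ℝ) (n : ℕ) (f : Sp d → E) (e : E) (ν : Sp d) (c : ℝ) :
    bD b ε R0 R ((1 / 2) ^ n) f n 0 e ν c =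
      max 0 (∫ y, ⟪f y, e⟫_ℝ * (zR R0 y * ht ν c y ^ 2)) + DD b ε R ((1 / 2) ^ n) f n 0 e := by
  unfold bD
  rw [bb_eq]

end Fn

section Op

variable {V E : Type} [NormedAddCommGroup V] [InnerProductSpace ℝ V] [FiniteDimensional ℝ V]
  [NormedAddCommGroup E] [InnerProductSpace ℝ E] [FiniteDimensional ℝ E]

omit [FiniteDimensional ℝ V] [FiniteDimensional ℝ E] in
lemma fo_cont (L : (Sp d →L[ℝ] V) →L[ℝ] E) {u : Sp d → V} (hu : TF u) : Continuous (fo L u) :=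
  L.continuous.comp (hu.smooth.continuous_fderiv (by simp))

omit [FiniteDimensional ℝ V] [FiniteDimensional ℝ E] in
lemma fo_cs (L : (Sp d →L[ℝ] V) →L[ℝ] E) {u : Sp d → V} (hu : TF u) :
    HasCompactSupport (fo L u) := by
  refine (hu.supp.fderiv ℝ).comp_left (g := fun M => L M) ?_
  exact map_zero L

omit [FiniteDimensional ℝ E] in
lemma int_mH {f : Sp d → E} (hf : Continuous f) (hs : HasCompactSupport f) (e : E)
    {H : Sp d → ℝ} (hH : Continuous H) : Integrable (fun y => ⟪f y, e⟫_ℝ * H y) := by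
  refine Continuous.integrable_of_hasCompactSupport ((hf.inner continuous_const).mul hH) ?_
  refine HasCompactSupport.mul_right ?_
  exact hs.comp_left (g := fun v => ⟪v, e⟫_ℝ) (inner_zero_left _)

/-- the jump polynomial is a polynomial -/
lemma JJ_poly (hd : 1 ≤ d) (m : ℕ) (ν q : Sp d) {r : ℝ} (hr : 0 < r) {u : Sp d → V}
    (hu : ContDiff ℝ ∞ u) (l : V →L[ℝ] ℝ) :
    ContDiff ℝ ∞ (fun y => l (JJ m ν q r u y)) ∧
      ∀ y, iteratedFDeriv ℝ (m + 1) (fun y => l (JJ m ν q r u y)) y = 0 := by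
  obtain ⟨h1, h2, _⟩ := stmtTQ d V m u hd hu (q + (6 * r) • ν) r hr
  obtain ⟨h3, h4, _⟩ := stmtTQ d V m u hd hu (q - (6 * r) • ν) r hr
  have h5 : ContDiff ℝ ∞ (fun y => JJ m ν q r u y) := h1.sub h3
  refine ⟨l.contDiff.comp h5, fun y => ?_⟩
  have h6 : iteratedFDeriv ℝ (m + 1) (fun y => JJ m ν q r u y) y = 0 := by
    have e : (fun y => JJ m ν q r u y) =
        ATP m (q + (6 * r) • ν) r u + -ATP m (q - (6 * r) • ν) r u := by
      funext y
      simp [JJ, sub_eq_add_neg]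
    have h3' : ContDiff ℝ ∞ (-ATP m (q - (6 * r) • ν) r u) := h3.neg
    rw [e, iteratedFDeriv_add_apply (h1.contDiffAt.of_le (by exact_mod_cast le_top))
      (h3'.contDiffAt.of_le (by exact_mod_cast le_top)), iteratedFDeriv_neg_apply, h2, h4]
    simp
  have h7 := l.norm_iteratedFDeriv_comp_left (n := m + 1) (h5.contDiffAt (x := y))
    (by exact_mod_cast le_top)
  rw [h6, norm_zero, mul_zero] at h7
  exact norm_le_zero_iff.mp h7

end Op

/-- Lemma Z for functions with bounded second derivatives -/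
lemma Zuse (hZ : StmtZ) (hd : 1 ≤ d) {M c ε : ℝ} (hε : 0 < ε) (hε1 : ε ≤ 1) {b : Sp d → ℝ}
    (hb : BaseKer 2 M c b) : ∃ C : ℝ, 0 < C ∧
    ∀ (E : Type) [NormedAddCommGroup E] [InnerProductSpace ℝ E] [FiniteDimensional ℝ E],
    ∀ f : Sp d → E, Continuous f → HasCompactSupport f → ∀ (R : ℝ), 3 ≤ R → ∀ (n : ℕ) (e : E),
    ‖e‖ = 1 → ∀ (H : Sp d → ℝ) (K : ℝ), 0 < K → CB 2 K H → (∀ y, 0 ≤ H y) →
      (∀ y, H y ≠ 0 → ‖y‖ < R - 2) →
      -(C * K) * DD b ε R ((1 / 2) ^ n) f n 0 e ≤ ∫ y, ⟪f y, e⟫_ℝ * H y := by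
  obtain ⟨C, hC, h⟩ := hZ d hd M c ε hε hε1 b hb
  refine ⟨C, hC, ?_⟩
  intro E _ _ _ f hf hs R hR n e he H K hK hH h0 hsupp
  have h1 := h E f hf hs R hR n e he 0 (fun y => K⁻¹ * H y)
    ((hH.smooth).const_smul K⁻¹)
    (fun y => mul_nonneg (inv_nonneg.mpr hK.le) (h0 y)) ?_ ?_ ?_
  · have h2 : ∫ y, ⟪f y, e⟫_ℝ * (K⁻¹ * H y) = K⁻¹ * ∫ y, ⟪f y, e⟫_ℝ * H y := by
      rw [← integral_const_mul]
      congr 1
      funext y
      ring
    rw [h2] at h1
    have h3 := mul_le_mul_of_nonneg_left h1 hK.le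
    rw [← mul_assoc K K⁻¹, mul_inv_cancel₀ hK.ne', one_mul] at h3
    linarith
  · intro y
    have := (le_abs_self _).trans (hH.norm_le y)
    rw [inv_mul_le_iff₀ hK, mul_one]
    exact this
  · intro y
    have h3 := (hH.mulc K⁻¹).bd 2 le_rfl y
    rw [abs_of_pos (inv_pos.mpr hK), inv_mul_cancel₀ hK.ne'] at h3
    exact h3
  · intro y hy
    rw [sub_zero] at hy
    by_contra h3
    have h4 : H y ≠ 0 := by
      intro h5
      exact h3 (by rw [h5, mul_zero])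
    linarith [hsupp y h4]

end PL

end TG
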