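import Pool.Agent.TG.Stmts4
import Pool.Agent.TG.PLb
import Pool.Agent.TG.TFU
import Pool.Agent.TG.SC
import Pool.Agent.TG.SD
import Pool.Agent.TG.PF

/-!
# Trace inequality, general operators: module MP, part 1 (frames, start of the tower, one step)
-/

open MeasureTheory Metric Set TrI
open scoped InnerProductSpace ContDiff

namespace TG

noncomputable section

namespace MPm

variable {d : ℕ}

/-! ## frames -/

section Fr

variable {V E : Type} [NormedAddCommGroup V] [InnerProductSpace ℝ V] [FiniteDimensional ℝ V]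
  [NormedAddCommGroup E] [InnerProductSpace ℝ E] [FiniteDimensional ℝ E]

lemma half_pow (n r : ℕ) : (1 / 2 : ℝ) ^ (n + r) = (1 / 2) ^ n / 2 ^ r := by
  rw [pow_add, one_div, inv_pow, inv_pow]
  rfl

omit [FiniteDimensional ℝ E] in
lemma rs_cont {f : Sp d → E} (hf : Continuous f) (x : Sp d) (t : ℝ) : Continuous (rs x t f) := by
  have h1 : Continuous (fun y : Sp d => x + t • y) := by fun_prop
  exact (hf.comp h1).const_smul t

omit [FiniteDimensional ℝ E] in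
lemma rs_cs {f : Sp d → E} (hf : HasCompactSupport f) (x : Sp d) {t : ℝ} (ht : 0 < t) :
    HasCompactSupport (rs x t f) := by
  obtain ⟨ρ, hρ⟩ := hf.isCompact.isBounded.subset_ball (0 : Sp d)
  refine HasCompactSupport.intro (isCompact_closedBall (0 : Sp d) ((ρ + ‖x‖) / t)) fun y hy => ?_
  rw [mem_closedBall_zero_iff, not_le, div_lt_iff₀ ht] at hy
  have h1 : f (x + t • y) = 0 := by
    by_contra h
    have h2 := hρ (subset_tsupport _ (Function.mem_support.mpr h))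
    rw [mem_ball_zero_iff] at h2
    have h3 : ‖t • y‖ ≤ ‖x + t • y‖ + ‖x‖ := by
      have := norm_sub_le (x + t • y) x
      rwa [add_sub_cancel_left] at this
    rw [norm_smul, Real.norm_eq_abs, abs_of_pos ht] at h3
    linarith
  unfold rs
  rw [h1, smul_zero]

omit [FiniteDimensional ℝ E] in
lemma rs_rs (f : Sp d → E) (x x' : Sp d) (r : ℕ) :
    rs ((1 / (2 : ℝ) ^ r) • (x' - x)) 2 (rs x (2 ^ r) f) = rs x' (2 ^ (r + 1)) f := by
  funext y
  unfold rs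
  have h1 : ((2 : ℝ) ^ r) ≠ 0 := by positivity
  rw [smul_smul]
  congr 1
  · rw [pow_succ]
    ring
  · congr 1
    rw [smul_add, smul_smul, mul_one_div_cancel h1, one_smul, ← add_assoc, add_sub_cancel,
      smul_smul, pow_succ]

lemma frame (hSC : StmtSC) (hSD : StmtSD) (hd : 2 ≤ d) {M c0 ε : ℝ} (hε : 0 < ε) (hε1 : ε ≤ 1)
    {b : Sp d → ℝ} (hb : BaseKer 2 M c0 b) {f : Sp d → E} (hf : Continuous f)
    (hfc : HasCompactSupport f) (x : Sp d) (r n : ℕ) :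
    (∀ R i y e, DD b ε R ((1 / 2) ^ (n + r)) (rs x (2 ^ r) f) i y e =
      DD b ε R ((1 / 2) ^ n) f i (x + (2 : ℝ) ^ r • y) e) ∧
    (∀ R i y, ma b ε R ((1 / 2) ^ (n + r)) (rs x (2 ^ r) f) i y =
      ma b ε R ((1 / 2) ^ n) f i (x + (2 : ℝ) ^ r • y)) ∧
    (∀ R0 R i e (ν : Sp d) (c : ℝ), bD b ε R0 R ((1 / 2) ^ (n + r)) (rs x (2 ^ r) f) i 0 e ν
      ((c - ⟪ν, x⟫_ℝ) / 2 ^ r) = bD b ε R0 R ((1 / 2) ^ n) f i x e ν c) := by
  have htp : (0 : ℝ) < 2 ^ r := by positivity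
  obtain ⟨-, hSC2, -⟩ := hSC d hd 1 one_pos x (2 ^ r) htp
  obtain ⟨-, hDD, hma⟩ := hSC2 E M c0 b hb ε hε hε1 f hf hfc ((1 / 2 : ℝ) ^ n) (by positivity)
  rw [half_pow]
  refine ⟨hDD, hma, fun R0 R i e ν c => ?_⟩
  have hbb := hSD.2 d E f (by omega) hf hfc x (2 ^ r) htp R0
    ((1 / 2 : ℝ) ^ n) i 0 e ν ((c - ⟪ν, x⟫_ℝ) / 2 ^ r) (by positivity)
  unfold bD
  rw [hDD, hbb, smul_zero, add_zero]
  congr 3
  field_simp
  ring

end Fr

/-! ## towers -/

section To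

variable {E : Type} [NormedAddCommGroup E] [InnerProductSpace ℝ E]

omit [InnerProductSpace ℝ E] in
lemma tower_norm {x : ℕ → Sp d} {e : ℕ → E} (hT : Tower x e) (r : ℕ) :
    ‖x r‖ ≤ Real.sqrt d * (2 ^ r - 1) := by
  induction r with
  | zero => simp [hT.zero]
  | succ r ih =>
    calc ‖x (r + 1)‖ = ‖x r + (x (r + 1) - x r)‖ := by rw [add_sub_cancel]
      _ ≤ ‖x r‖ + ‖x (r + 1) - x r‖ := norm_add_le _ _
      _ ≤ Real.sqrt d * (2 ^ r - 1) + Real.sqrt d * 2 ^ r := add_le_add ih (hT.step r)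
      _ = Real.sqrt d * (2 ^ (r + 1) - 1) := by ring

omit [InnerProductSpace ℝ E] in
lemma tower_norm2 {x : ℕ → Sp d} {e : ℕ → E} (hT : Tower x e) (r : ℕ) (hr : 2 ≤ r) :
    ‖x r - x 2‖ ≤ Real.sqrt d * (2 ^ r - 4) := by
  induction r, hr using Nat.le_induction with
  | base => norm_num
  | succ r hr ih =>
    calc ‖x (r + 1) - x 2‖ = ‖(x r - x 2) + (x (r + 1) - x r)‖ := by
          congr 1
          abel
      _ ≤ ‖x r - x 2‖ + ‖x (r + 1) - x r‖ := norm_add_le _ _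
      _ ≤ Real.sqrt d * (2 ^ r - 4) + Real.sqrt d * 2 ^ r := add_le_add ih (hT.step r)
      _ = Real.sqrt d * (2 ^ (r + 1) - 4) := by ring

omit [InnerProductSpace ℝ E] in
lemma xi_norm {x : ℕ → Sp d} {e : ℕ → E} (hT : Tower x e) (r : ℕ) :
    ‖(1 / (2 : ℝ) ^ r) • (x (r + 1) - x r)‖ ≤ Real.sqrt d := by
  have htp : (0 : ℝ) < 2 ^ r := by positivity
  rw [norm_smul, Real.norm_eq_abs, abs_of_pos (by positivity), one_div, inv_mul_le_iff₀ htp,
    mul_comm]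
  exact hT.step r

lemma sqrt_le_nat (hd : 1 ≤ d) : Real.sqrt d ≤ d := by
  rw [Real.sqrt_le_iff]
  have : (1 : ℝ) ≤ d := by exact_mod_cast hd
  exact ⟨by positivity, by nlinarith⟩

lemma sqrt_R0 {R0 : ℝ} (hR0 : 200 + 8 * d ≤ R0) : 168 + 32 * Real.sqrt d ≤ R0 := by
  have h1 : Real.sqrt d * Real.sqrt d = d := Real.mul_self_sqrt (by positivity)
  nlinarith [sq_nonneg (Real.sqrt d - 2)]

end To

section Ch

variable {E : Type} [NormedAddCommGroup E] [InnerProductSpace ℝ E] [FiniteDimensional ℝ E]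

/-- the defect of the unit cell in the direction e' is controlled by the defect of level r -/
lemma DD_chain (hSC : StmtSC) (hSD : StmtSD) (hTW : StmtTW) (hd : 2 ≤ d) {M c0 ε : ℝ}
    (hε : 0 < ε) (hε1 : ε ≤ 1) {b : Sp d → ℝ} (hb : BaseKer 2 M c0 b) {R0 : ℝ}
    (hR0 : 100 + 8 * d ≤ R0) : ∃ C : ℝ, 0 < C ∧
    ∀ (E : Type) [NormedAddCommGroup E] [InnerProductSpace ℝ E] [FiniteDimensional ℝ E],
    ∀ (R : ℝ), 4 * R0 + 10 ≤ R → ∀ f : Sp d → E, Continuous f → HasCompactSupport f →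
    ∀ (n : ℕ) (x : ℕ → Sp d) (e : ℕ → E), Tower x e → ∀ e' : E, ‖e'‖ = 1 → ∀ r : ℕ,
      DD b ε R ((1 / 2) ^ n) f n 0 e' ≤ C ^ r * DD b ε R ((1 / 2) ^ n) f (n + r) (x r) e' := by
  obtain ⟨C, hC, h⟩ := hTW d (by omega) M c0 ε hε hε1 b hb R0 hR0
  refine ⟨C, hC, ?_⟩
  intro E _ _ _ R hR f hf hfc n x e hT e' he' r
  induction r with
  | zero => rw [pow_zero, one_mul, hT.zero, add_zero]
  | succ r ih =>
    obtain ⟨h1, -, -⟩ := frame hSC hSD hd hε hε1 hb hf hfc (x r) r n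
    have htp : (0 : ℝ) < 2 ^ r := by positivity
    obtain ⟨h2, -⟩ := h E R hR (rs (x r) (2 ^ r) f) (rs_cont hf _ _) (rs_cs hfc _ htp) (n + r)
      ((1 / (2 : ℝ) ^ r) • (x (r + 1) - x r)) e' e' (xi_norm hT r) he' he'
    rw [h1, h1, smul_zero, add_zero, smul_smul, mul_one_div_cancel htp.ne', one_smul,
      add_sub_cancel] at h2
    calc DD b ε R ((1 / 2) ^ n) f n 0 e' ≤
          C ^ r * DD b ε R ((1 / 2) ^ n) f (n + r) (x r) e' := ih
      _ ≤ C ^ r * (C * DD b ε R ((1 / 2) ^ n) f (n + r + 1) (x (r + 1)) e') :=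
          mul_le_mul_of_nonneg_left h2 (by positivity)
      _ = C ^ (r + 1) * DD b ε R ((1 / 2) ^ n) f (n + (r + 1)) (x (r + 1)) e' := by
          rw [pow_succ, mul_assoc]
          rfl

/-- the mass of the unit cell against the inner mass of the levels 2 and 3 -/
lemma start_mass (hSC : StmtSC) (hSD : StmtSD) (hTW : StmtTW) (hMA : StmtMA) (hd : 2 ≤ d)
    {M c0 ε : ℝ} (hε : 0 < ε) (hε1 : ε ≤ 1) {b : Sp d → ℝ} (hb : BaseKer 2 M c0 b) {R0 : ℝ}
    (hR0 : 200 + 8 * d ≤ R0) : ∃ C : ℝ, 0 < C ∧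
    ∀ (E : Type) [NormedAddCommGroup E] [InnerProductSpace ℝ E] [FiniteDimensional ℝ E],
    ∀ (R : ℝ), 4 * R0 + 10 ≤ R → ∀ f : Sp d → E, Continuous f → HasCompactSupport f →
    ∀ (n : ℕ) (x : ℕ → Sp d) (e : ℕ → E), Tower x e → ∀ r : ℕ, 2 ≤ r → r ≤ 3 →
      ma b ε R0 ((1 / 2) ^ n) f n 0 ≤ (2 ^ r) ^ d / 2 ^ r * Mi R0 (rs (x r) (2 ^ r) f) (e r) +
        C * DD b ε R ((1 / 2) ^ n) f (n + r) (x r) (e r) := by
  have hd1 : 1 ≤ d := by omega
  have hd0 : (0 : ℝ) ≤ d := Nat.cast_nonneg d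
  obtain ⟨C1, hC1, h1⟩ := DD_chain hSC hSD hTW hd hε hε1 hb (R0 := R0) (by linarith)
  obtain ⟨C2, hC2, h2⟩ := TU.MA' hMA hd1 hε hε1 hb
  obtain ⟨N, hN, hz⟩ := PL.CB.of_compact (PL.zR_cd (d := d) (R := R0 / 3) (by linarith))
    (PL.zR_cs (R0 / 3)) 2
  refine ⟨C2 * N * (C1 ^ 2 + C1 ^ 3), by positivity, ?_⟩
  intro E _ _ _ R hR f hf hfc n x e hT r hr2 hr3
  have htp : (0 : ℝ) < 2 ^ r := by positivity
  have ht4 : (4 : ℝ) ≤ 2 ^ r := by
    calc (4 : ℝ) = 2 ^ 2 := by norm_num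
      _ ≤ 2 ^ r := pow_le_pow_right₀ (by norm_num) hr2
  have ht8 : (2 : ℝ) ^ r ≤ 8 := by
    calc (2 : ℝ) ^ r ≤ 2 ^ 3 := pow_le_pow_right₀ (by norm_num) hr3
      _ = 8 := by norm_num
  have hxr := tower_norm hT r
  have hs0 := Real.sqrt_nonneg (d : ℝ)
  have hsq : Real.sqrt d ≤ d := sqrt_le_nat hd1
  set H : Sp d → ℝ := fun y => zR (R0 / 3) (-(1 / (2 : ℝ) ^ r) • x r + (1 / (2 : ℝ) ^ r) • y)
    with hH
  have hT0 := TU.TFn_aff (PL.TFn_of_CB hz) (-(1 / (2 : ℝ) ^ r) • x r)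
    (t := 1 / (2 : ℝ) ^ r) (by positivity)
  have hmax : max 1 |1 / (2 : ℝ) ^ r| = 1 := by
    refine max_eq_left ?_
    rw [abs_of_pos (by positivity), div_le_one htp]
    linarith
  rw [hmax, one_pow, one_mul] at hT0
  have harg : ∀ y : Sp d, ‖-(1 / (2 : ℝ) ^ r) • x r + (1 / (2 : ℝ) ^ r) • y‖ =
      ‖y - x r‖ / 2 ^ r := by
    intro y
    have e1 : -(1 / (2 : ℝ) ^ r) • x r + (1 / (2 : ℝ) ^ r) • y = (1 / (2 : ℝ) ^ r) • (y - x r) := by
      rw [smul_sub, neg_smul]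
      abel
    rw [e1, norm_smul, Real.norm_eq_abs, abs_of_pos (by positivity), one_div, inv_mul_eq_div]
  obtain ⟨-, h3⟩ := h2 E f hf hfc R (by linarith) n (e r) (hT.unit r) 0 (ball 0 (R0 * 1))
    measurableSet_ball
  have h4 := h3 H N 1 one_pos hT0 (fun y => PL.zR_nonneg _ _) ?_ ?_
  · have h5 := TU.frame_int f (e r) (x r) htp H
    have h6 : (fun y => ⟪rs (x r) (2 ^ r) f y, e r⟫_ℝ * H (x r + (2 : ℝ) ^ r • y)) =
        fun y => ⟪rs (x r) (2 ^ r) f y, e r⟫_ℝ * zR (R0 / 3) y := by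
      funext y
      rw [hH]
      beta_reduce
      congr 2
      rw [smul_add, smul_smul, one_div_mul_cancel htp.ne', one_smul, neg_smul]
      abel
    rw [h6] at h5
    have h7 : ∫ y, ⟪f y, e r⟫_ℝ * H y = (2 ^ r) ^ d / 2 ^ r * Mi R0 (rs (x r) (2 ^ r) f) (e r) := by
      unfold Mi
      rw [h5]
      field_simp
    rw [h7, one_mul] at h4
    have h8 : ma b ε R0 ((1 / 2) ^ n) f n 0 =
        ∫ y in ball (0 : Sp d) (R0 * 1), ‖fl b ε ((1 / 2) ^ n) f (n - 1) y‖ := by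
      unfold ma
      rw [ZZ.lev_one]
      simp
    rw [h8]
    have h9 := h1 E R hR f hf hfc n x e hT (e r) (hT.unit r) r
    have hD0 : 0 ≤ DD b ε R ((1 / 2) ^ n) f (n + r) (x r) (e r) :=
      TU.DD_nonneg b ε R (by positivity) f _ _ (hT.unit r)
    have h10 : C1 ^ r ≤ C1 ^ 2 + C1 ^ 3 := by
      have h11 : r = 2 ∨ r = 3 := by omega
      have : 0 < C1 ^ 2 := by positivity
      have : 0 < C1 ^ 3 := by positivity
      rcases h11 with rfl | rfl <;> linarith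
    have h12 : C2 * N * DD b ε R ((1 / 2) ^ n) f n 0 (e r) ≤
        C2 * N * (C1 ^ 2 + C1 ^ 3) * DD b ε R ((1 / 2) ^ n) f (n + r) (x r) (e r) := by
      rw [mul_assoc (C2 * N)]
      refine mul_le_mul_of_nonneg_left (h9.trans ?_) (by positivity)
      exact mul_le_mul_of_nonneg_right h10 hD0
    linarith
  · intro y hy
    rw [sub_zero] at hy
    rw [hH]
    refine PL.zR_zero ?_
    rw [harg, le_div_iff₀ htp]
    have h5 : ‖y‖ ≤ ‖y - x r‖ + ‖x r‖ := by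
      have := norm_add_le (y - x r) (x r)
      rwa [sub_add_cancel] at this
    have h6 : Real.sqrt d * (2 ^ r - 1) ≤ Real.sqrt d * 7 :=
      mul_le_mul_of_nonneg_left (by linarith) hs0
    have h7 : (R0 / 3 + 1) * 2 ^ r ≤ (R0 / 3 + 1) * 8 :=
      mul_le_mul_of_nonneg_left ht8 (by linarith)
    nlinarith
  · intro y z hy hz'
    rw [mem_ball_zero_iff, mul_one] at hy
    rw [hH]
    beta_reduce
    rw [PL.zR_one]
    rw [harg, div_le_iff₀ htp]
    have h5 : ‖z - x r‖ ≤ ‖z - y‖ + ‖y‖ + ‖x r‖ := by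
      have e1 : z - x r = (z - y) + y - x r := by abel
      rw [e1]
      exact (norm_sub_le _ _).trans (add_le_add (norm_add_le _ _) le_rfl)
    have h7 : R0 / 3 * 4 ≤ R0 / 3 * 2 ^ r :=
      mul_le_mul_of_nonneg_left ht4 (by linarith)
    have h9 := sqrt_R0 hR0
    have h8 : 0 ≤ (R0 / 3 - Real.sqrt d) * (2 ^ r - 4) :=
      mul_nonneg (by linarith) (by linarith)
    nlinarith

end Ch

end MPm

end

end TG
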