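import Pool.Agent.TG.MPa

/-!
# Trace inequality, general operators: module MP, part 2 (one step, start of the jump)
-/

open MeasureTheory Metric Set TrI
open scoped InnerProductSpace ContDiff

namespace TG

noncomputable section

namespace MPm

variable {d : ℕ}

/-- mass near a point of the central part gives inner mass on the next level -/
lemma step_mass (hZ : StmtZ) (hTW : StmtTW) (hd : 2 ≤ d) {M c0 ε : ℝ} (hε : 0 < ε) (hε1 : ε ≤ 1)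
    {b : Sp d → ℝ} (hb : BaseKer 2 M c0 b) {R0 : ℝ} (hR0 : 200 + 8 * d ≤ R0) :
    ∃ C : ℝ, 0 < C ∧
    ∀ (E : Type) [NormedAddCommGroup E] [InnerProductSpace ℝ E] [FiniteDimensional ℝ E],
    ∀ (R : ℝ), 4 * R0 + 10 ≤ R → ∀ f : Sp d → E, Continuous f → HasCompactSupport f →
    ∀ (n : ℕ) (ξ : Sp d) (e e' : E), ‖ξ‖ ≤ Real.sqrt d → ‖e‖ = 1 → ‖e'‖ = 1 →
    ∀ p : Sp d, ‖p‖ ≤ R0 / 3 →
      (∫ y, ⟪f y, e⟫_ℝ * zR 1 (y - p)) ≤ 2 ^ d / 2 * Mi R0 (rs ξ 2 f) e' +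
        C * (DD b ε R ((1 / 2) ^ n) f n 0 e + DD b ε R ((1 / 2) ^ n) f (n + 1) ξ e') := by
  have hd1 : 1 ≤ d := by omega
  have hd0 : (0 : ℝ) ≤ d := Nat.cast_nonneg d
  have hRs := sqrt_R0 hR0
  have hs0 := Real.sqrt_nonneg (d : ℝ)
  obtain ⟨C1, hC1, h1⟩ := TU.Z' hZ hd1 hε hε1 hb
  obtain ⟨C2, hC2, h2⟩ := hTW d hd1 M c0 ε hε hε1 b hb R0 (by linarith)
  obtain ⟨N1, hN1, hz1⟩ := PL.CB.of_compact (PL.zR_cd (d := d) (R := R0 / 3) (by linarith))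
    (PL.zR_cs (R0 / 3)) 2
  obtain ⟨N2, hN2, hz2⟩ := PL.CB.of_compact (PL.zR_cd (d := d) (R := 1) one_pos)
    (PL.zR_cs 1) 2
  refine ⟨C1 * (N1 + N2) + C2 * N1, by positivity, ?_⟩
  intro E _ _ _ R hR f hf hfc n ξ e e' hξ he he' p hp
  obtain ⟨-, h3, -⟩ := h2 E R hR f hf hfc n ξ e e' hξ he he'
  have hT0 := TU.TFn_aff (PL.TFn_of_CB hz1) (-(1 / 2 : ℝ) • ξ) (t := 1 / 2) (by norm_num)
  have hmax : max 1 |(1 / 2 : ℝ)| = 1 := by
    refine max_eq_left ?_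
    rw [abs_of_pos (by positivity)]
    norm_num
  rw [hmax, one_pow, one_mul] at hT0
  have hT1 : TFn 2 N2 (fun y => zR 1 (y - p)) := PL.TFn_of_CB (hz2.comp_subc p)
  have harg : ∀ y : Sp d, ‖-(1 / 2 : ℝ) • ξ + (1 / 2 : ℝ) • y‖ = ‖y - ξ‖ / 2 := by
    intro y
    have e1 : -(1 / 2 : ℝ) • ξ + (1 / 2 : ℝ) • y = (1 / 2 : ℝ) • (y - ξ) := by
      rw [smul_sub, neg_smul]
      abel
    rw [e1, norm_smul, Real.norm_eq_abs, abs_of_pos (by norm_num)]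
    ring
  set ζ : Sp d → ℝ := fun y => zR (R0 / 3) (-(1 / 2 : ℝ) • ξ + (1 / 2 : ℝ) • y) with hζ
  have hζs : ∀ y, 2 * (R0 / 3 + 1) + Real.sqrt d ≤ ‖y‖ → ζ y = 0 := by
    intro y hy
    rw [hζ]
    refine PL.zR_zero ?_
    rw [harg]
    have h5 : ‖y‖ ≤ ‖y - ξ‖ + ‖ξ‖ := by
      have := norm_add_le (y - ξ) ξ
      rwa [sub_add_cancel] at this
    linarith
  have hps : ∀ y : Sp d, ‖y - p‖ ≤ 2 → ‖y‖ ≤ R0 / 3 + 2 := by
    intro y hy
    have := norm_add_le (y - p) p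
    rw [sub_add_cancel] at this
    linarith
  have h4 := h3 ζ N1 hT0 (fun y hy => hζs y (by linarith))
  have h5 := h1 E f hf hfc R (by linarith) n e he 0 (fun y => ζ y - zR 1 (y - p)) (N1 + N2)
    (TU.TFn_sub hT0 hT1) ?_ ?_
  · have hi1 : Integrable (fun y => ⟪f y, e⟫_ℝ * ζ y) := PL.int_mH hf hfc e hT0.smooth.continuous
    have hi1' : Integrable (fun y => ⟪f y, e'⟫_ℝ * ζ y) := PL.int_mH hf hfc e' hT0.smooth.continuous
    have hi2 : Integrable (fun y => ⟪f y, e⟫_ℝ * zR 1 (y - p)) :=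
      PL.int_mH hf hfc e hT1.smooth.continuous
    have h6 : ∫ y, ⟪f y, e⟫_ℝ * (ζ y - zR 1 (y - p)) =
        (∫ y, ⟪f y, e⟫_ℝ * ζ y) - ∫ y, ⟪f y, e⟫_ℝ * zR 1 (y - p) := by
      rw [← integral_sub hi1 hi2]
      congr 1
      funext y
      ring
    have h7 : ∫ y, ⟪f y, e - e'⟫_ℝ * ζ y =
        (∫ y, ⟪f y, e⟫_ℝ * ζ y) - ∫ y, ⟪f y, e'⟫_ℝ * ζ y := by
      rw [← integral_sub hi1 hi1']
      congr 1
      funext y
      rw [inner_sub_right]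
      ring
    rw [h6] at h5
    rw [h7] at h4
    have h8 := TU.frame_int f e' ξ (t := 2) (by norm_num) ζ
    have h9 : (fun y => ⟪rs ξ 2 f y, e'⟫_ℝ * ζ (ξ + (2 : ℝ) • y)) =
        fun y => ⟪rs ξ 2 f y, e'⟫_ℝ * zR (R0 / 3) y := by
      funext y
      rw [hζ]
      beta_reduce
      congr 2
      rw [smul_add, smul_smul, neg_smul]
      norm_num
    rw [h9] at h8
    have h10 : ∫ y, ⟪f y, e'⟫_ℝ * ζ y = 2 ^ d / 2 * Mi R0 (rs ξ 2 f) e' := by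
      unfold Mi
      rw [h8]
      field_simp
    rw [h10] at h4
    have h11 := (abs_le.mp h4).2
    have hD0 : 0 ≤ DD b ε R ((1 / 2) ^ n) f n 0 e :=
      TU.DD_nonneg b ε R (by positivity) f _ _ he
    have hD1 : 0 ≤ DD b ε R ((1 / 2) ^ n) f (n + 1) ξ e' :=
      TU.DD_nonneg b ε R (by positivity) f _ _ he'
    have h12 : 0 ≤ C1 * (N1 + N2) * DD b ε R ((1 / 2) ^ n) f (n + 1) ξ e' := by positivity
    nlinarith
  · intro y
    by_cases hy : zR 1 (y - p) = 0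
    · rw [hy, sub_zero]
      exact PL.zR_nonneg _ _
    · have h6 := PL.norm_lt_of_zR hy
      have h7 := hps y (by linarith)
      have h8 : ζ y = 1 := by
        rw [hζ]
        refine PL.zR_one ?_
        rw [harg]
        have := norm_sub_le y ξ
        linarith
      rw [h8]
      linarith [PL.zR_le_one 1 (y - p)]
  · intro y hy
    rw [sub_zero] at hy
    rw [hζs y (by linarith), PL.zR_zero, sub_zero]
    by_contra h
    push Not at h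
    have := hps y (by linarith)
    linarith

lemma G_nonneg {ν : Sp d} (hν : ‖ν‖ = 1) {c R0 : ℝ} (hR0 : 100 ≤ R0) (y : Sp d) :
    0 ≤ cu1 4 (ht ν c y) * zR (R0 / 3 + 1) (tang ν y) + zR R0 y * (⟪ν, y⟫_ℝ + -c) ^ 2 -
      zR (R0 / 3) y := by
  have h1 := PL.cu1_nonneg 4 (ht ν c y)
  have h2 := PL.zR_nonneg (R0 / 3 + 1) (tang ν y)
  have h3 := PL.zR_nonneg R0 y
  have h4 := PL.zR_le_one (R0 / 3) y
  have h5 : 0 ≤ zR R0 y * (⟪ν, y⟫_ℝ + -c) ^ 2 := mul_nonneg h3 (sq_nonneg _)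
  have h6 := mul_nonneg h1 h2
  by_cases hy : zR (R0 / 3) y = 0
  · rw [hy]
    linarith
  · have h7 := PL.norm_lt_of_zR hy
    have h8 : ‖tang ν y‖ ≤ R0 / 3 + 1 := (PL.norm_tang_le hν y).trans (by linarith)
    rw [PL.zR_one h8, PL.zR_one (R := R0) (x := y) (by linarith), mul_one, one_mul]
    by_cases h9 : |ht ν c y| ≤ 4
    · rw [PL.cu1_one h9]
      nlinarith [sq_nonneg (⟪ν, y⟫_ℝ + -c)]
    · have h10 : (4 : ℝ) ^ 2 ≤ |ht ν c y| ^ 2 := pow_le_pow_left₀ (by norm_num) (not_le.mp h9).le 2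
      have h11 : |ht ν c y| ^ 2 = (⟪ν, y⟫_ℝ + -c) ^ 2 := by
        rw [sq_abs]
        unfold ht
        ring
      rw [h11] at h10
      nlinarith

lemma eta_small {κ1 δ Mi bD mm D : ℝ} (hδ0 : 0 < δ) (hδ1 : δ ≤ 1) (hMi : 0 < Mi) (hmm : 0 ≤ mm)
    (hDb : D ≤ bD) (h1 : bD ≤ min κ1 (δ ^ 2) * Mi)
    (h2 : mm * bD ≤ min κ1 (δ ^ 2) * Mi ^ 2) : bD + Real.sqrt (mm * D) ≤ 2 * δ * Mi := by
  have h3 : min κ1 (δ ^ 2) ≤ δ ^ 2 := min_le_right _ _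
  have h4 : δ ^ 2 ≤ δ := by nlinarith
  have h5 : bD ≤ δ * Mi := h1.trans (mul_le_mul_of_nonneg_right (h3.trans h4) hMi.le)
  have h6 : Real.sqrt (mm * D) ≤ δ * Mi := by
    rw [show δ * Mi = Real.sqrt ((δ * Mi) ^ 2) from (Real.sqrt_sq (by positivity)).symm]
    refine Real.sqrt_le_sqrt ?_
    calc mm * D ≤ mm * bD := mul_le_mul_of_nonneg_left hDb hmm
      _ ≤ min κ1 (δ ^ 2) * Mi ^ 2 := h2
      _ ≤ δ ^ 2 * Mi ^ 2 := mul_le_mul_of_nonneg_right h3 (sq_nonneg _)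
      _ = (δ * Mi) ^ 2 := by ring
  linarith

lemma exists_big {ν : Sp d} {ρ C5 : ℝ}
    (hP : ∀ (F : Sp d → ℝ) (N : ℝ), Continuous F →
      (∀ y, |F y| ≤ N) → (∀ y, F y ≠ 0 → ‖tang ν y‖ ≤ ρ + 2) → ∀ c, |plInt ν c F| ≤ C5 * N)
    (hν : ‖ν‖ = 1) (hC5 : 0 < C5) {c Mi' : ℝ} (hMi : 0 < Mi') {P : Sp d → ℝ}
    (hPc : Continuous P) (hψc : Continuous (fun y : Sp d => zR (ρ + 1) (tang ν y)))
    (hp0 : Mi' / 2 ≤ plInt ν c (fun y => P y * zR (ρ + 1) (tang ν y))) :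
    ∃ y0 : Sp d, ⟪ν, y0⟫_ℝ = c ∧ ‖tang ν y0‖ ≤ ρ + 2 ∧ Mi' ≤ 4 * C5 * |P y0| := by
  by_contra hcon
  push Not at hcon
  have hMC : 0 ≤ Mi' / (4 * C5) := by positivity
  have hpl : ∀ y : Sp d, ⟪ν, tang ν y + c • ν⟫_ℝ = c := by
    intro y
    rw [inner_add_right, PL.inner_tang hν, inner_smul_right, real_inner_self_eq_norm_sq, hν]
    ring
  have htp : ∀ y : Sp d, tang ν (tang ν y + c • ν) = tang ν y := by
    intro y
    conv_lhs => unfold tang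
    rw [show y - ⟪ν, y⟫_ℝ • ν = tang ν y from rfl, hpl]
    abel
  have h1 := hP (fun y => P (tang ν y + c • ν) * zR (ρ + 1) (tang ν y))
    (Mi' / (4 * C5)) ?_ ?_ ?_ c
  · have h2 : plInt ν c (fun y => P (tang ν y + c • ν) * zR (ρ + 1) (tang ν y)) =
        plInt ν c (fun y => P y * zR (ρ + 1) (tang ν y)) := by
      unfold plInt
      congr 1
      funext y
      have hy : ⟪ν, c • ν + (y : Sp d)⟫_ℝ = c := by
        have h1 : ⟪ν, (y : Sp d)⟫_ℝ = 0 :=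
          Submodule.mem_orthogonal_singleton_iff_inner_right.mp y.2
        rw [inner_add_right, inner_smul_right, real_inner_self_eq_norm_sq, hν, h1]
        ring
      have h3 : tang ν (c • ν + (y : Sp d)) + c • ν = c • ν + (y : Sp d) := by
        conv_lhs => unfold tang
        rw [hy]
        abel
      beta_reduce
      rw [h3]
    rw [h2] at h1
    have h4 := (le_abs_self _).trans h1
    have h5 : C5 * (Mi' / (4 * C5)) = Mi' / 4 := by field_simp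
    linarith
  · have hc1 : Continuous (fun y : Sp d => tang ν y) := by
      have := (PL.tangL ν).continuous
      simpa only [← PL.tangL_apply] using this
    exact (hPc.comp (hc1.add continuous_const)).mul hψc
  · intro y
    by_cases hy : zR (ρ + 1) (tang ν y) = 0
    · rw [hy, mul_zero, abs_zero]
      exact hMC
    · have h2 := PL.norm_lt_of_zR hy
      have h3 := (hcon _ (hpl y) (by rw [htp]; linarith)).le
      have h4 : |P (tang ν y + c • ν)| ≤ Mi' / (4 * C5) := by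
        rw [le_div_iff₀ (by positivity)]
        linarith
      rw [abs_mul, abs_of_nonneg (PL.zR_nonneg _ _)]
      calc |P (tang ν y + c • ν)| * zR (ρ + 1) (tang ν y)
          ≤ (Mi' / (4 * C5)) * 1 :=
            mul_le_mul h4 (PL.zR_le_one _ _) (PL.zR_nonneg _ _) hMC
        _ = Mi' / (4 * C5) := mul_one _
  · intro y hy
    have := PL.norm_lt_of_zR (right_ne_zero_of_mul hy)
    linarith

/-- a point of the central disc where the jump is not small -/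
lemma start_jump (hSHB : StmtSHB) (hZ : StmtZ) (hd : 2 ≤ d) {V E : Type} [NormedAddCommGroup V]
    [InnerProductSpace ℝ V] [FiniteDimensional ℝ V] [NormedAddCommGroup E]
    [InnerProductSpace ℝ E] [FiniteDimensional ℝ E] {L : (Sp d →L[ℝ] V) →L[ℝ] E} {n0 : ℕ}
    {T : (ContinuousMultilinearMap ℝ (fun _ : Fin n0 => Sp d) E) →L[ℝ]
      (ContinuousMultilinearMap ℝ (fun _ : Fin (n0 + 1) => Sp d) V)} (hn : 1 ≤ n0) (hL : CEll L)
    (hT : NSProp L n0 T) {M c0 ε : ℝ} (hε : 0 < ε) (hε1 : ε ≤ 1)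
    {b : Sp d → ℝ} (hb : BaseKer 2 M c0 b) {R0 : ℝ} (hR0 : 100 ≤ R0) :
    ∃ (C κ : ℝ), 0 < C ∧ 0 < κ ∧
      ∀ (R : ℝ), R0 + 10 ≤ R → ∀ (n : ℕ) (u : Sp d → V), TF u → ∀ e : E, ‖e‖ = 1 →
      ∀ (ν : Sp d) (c : ℝ), ‖ν‖ = 1 → |c| ≤ R0 / 3 → Flat b ε R0 R κ (fo L u) n e ν c →
      ∃ y0 : Sp d, ⟪ν, y0⟫_ℝ = c ∧ ‖tang ν y0‖ ≤ R0 / 3 + 2 ∧
        Mi R0 (fo L u) e ≤ C * ‖JJ n0 ν (c • ν) 1 u y0‖ := by
  have hd1 : 1 ≤ d := by omega
  have hR0p : 0 < R0 := by linarith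
  obtain ⟨J1, hSHJ⟩ := hSHB d V E L n0 T hd hn hL hT
  obtain ⟨C1, κ1, hC1, hκ1, hSH⟩ := hSHJ M c0 ε hε hε1 b hb R0 hR0
  obtain ⟨C5, hC5, hP⟩ := (stmtPF d hd1).1 (R0 / 3 + 2)
  obtain ⟨CZ, hCZ, hZu⟩ := PL.Zuse hZ hd1 hε hε1 hb
  obtain ⟨Kh, hKh, hcut⟩ := PL.cut_CB 2 (ρ := 4) (by norm_num)
  obtain ⟨K0, hK0, hz0⟩ := PL.CB.of_compact (PL.zR_cd (d := d) (R := R0 / 3 + 1) (by linarith))
    (PL.zR_cs (R0 / 3 + 1)) (J1 + 2)
  obtain ⟨K2, hK2, hq2⟩ := PL.quad_CB d 2 (ρ := R0) hR0p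
  obtain ⟨K3, hK3, hz3⟩ := PL.CB.of_compact (PL.zR_cd (d := d) (R := R0 / 3) (by linarith))
    (PL.zR_cs (R0 / 3)) 2
  -- constants
  obtain ⟨B2, hB2, hB2p⟩ : ∃ B2 : ℝ, 2 ^ 2 * (Kh * K0) + K2 * (1 ^ 2 + R0 ^ 2) + K3 ≤ B2 ∧ 0 < B2 :=
    ⟨_, le_rfl, by positivity⟩
  obtain ⟨A2, hA2, hA2p⟩ : ∃ A2 : ℝ, A2 = CZ * B2 ∧ 0 < A2 := ⟨_, rfl, by positivity⟩
  obtain ⟨δ, hδp, hδ1, hδ6⟩ : ∃ δ : ℝ, 0 < δ ∧ δ ≤ 1 ∧
      δ * (4 * (C1 * K0 + 1 + A2)) ≤ 1 := by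
    refine ⟨min 1 (1 / (4 * (C1 * K0 + 1 + A2))), lt_min one_pos (by positivity),
      min_le_left _ _, ?_⟩
    rw [← le_div_iff₀ (by positivity)]
    exact min_le_right _ _
  refine ⟨4 * C5 * C1, min κ1 (δ ^ 2), by positivity, lt_min hκ1 (by positivity), ?_⟩
  intro R hR n u hu e he ν c hν hc hflat
  obtain ⟨hMi, hfl1, hfl2⟩ := hflat
  have hfc : Continuous (fo L u) := PL.fo_cont L hu
  have hfs : HasCompactSupport (fo L u) := PL.fo_cs L hu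
  unfold Mi
  generalize hf : fo L u = f at *
  have hD0 : 0 ≤ DD b ε R ((1 / 2) ^ n) f n 0 e := PL.DD_nn b ε R n f 0 he
  have hbν0 : 0 ≤ max 0 (∫ y, ⟪f y, e⟫_ℝ * (zR R0 y * ht ν c y ^ 2)) := le_max_left _ _
  have hbνI : (∫ y, ⟪f y, e⟫_ℝ * (zR R0 y * ht ν c y ^ 2)) ≤
    max 0 (∫ y, ⟪f y, e⟫_ℝ * (zR R0 y * ht ν c y ^ 2)) := le_max_right _ _
  have hflat1 : Flat b ε R0 R κ1 f n e ν c := by
    refine ⟨hMi, ?_, ?_⟩
    · exact hfl1.trans (mul_le_mul_of_nonneg_right (min_le_left _ _) hMi.le)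
    · exact hfl2.trans (mul_le_mul_of_nonneg_right (min_le_left _ _) (sq_nonneg _))
  have hmm0 : 0 ≤ ma b ε R0 ((1 / 2) ^ n) f n 0 := PL.ma_nn b ε R0 n f 0
  have hS0 := hSH R hR n u hu e he ν c hν hc (by rw [hf]; exact hflat1) _ rfl
  rw [hf, PL.bD_eq b ε R0 R n f e ν c] at hS0
  rw [PL.bD_eq b ε R0 R n f e ν c] at hfl1 hfl2
  obtain ⟨l0, l1, hl0, -, -, hS, -⟩ := hS0
  generalize ma b ε R0 ((1 / 2) ^ n) f n 0 = mm at *
  generalize hMidef : (∫ y, ⟪f y, e⟫_ℝ * zR (R0 / 3) y) = Mi' at *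
  generalize hDdef : DD b ε R ((1 / 2) ^ n) f n 0 e = D at *
  generalize max 0 (∫ y, ⟪f y, e⟫_ℝ * (zR R0 y * ht ν c y ^ 2)) = bν at *
  have hηδ := eta_small hδp hδ1 hMi hmm0 (by linarith : D ≤ bν + D) hfl1 hfl2
  have hηb : bν + D ≤ (bν + D) + Real.sqrt (mm * D) := by
    linarith [Real.sqrt_nonneg (mm * D)]
  generalize (bν + D) + Real.sqrt (mm * D) = η at *
  have hη0 : 0 ≤ η := by linarith
  have hPol := PL.JJ_poly hd1 n0 ν (c • ν) one_pos hu.smooth l0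
  have hPc : Continuous (fun y => l0 (JJ n0 ν (c • ν) 1 u y)) := hPol.1.continuous
  have hS' : ∀ (ψ : Sp d → ℝ) (N : ℝ), PL.CB J1 N ψ → Cyl ν (R0 / 2) ψ →
      |(∫ y, ⟪f y, e⟫_ℝ * (cu1 4 (ht ν c y) * ψ y)) -
        plInt ν c (fun y => l0 (JJ n0 ν (c • ν) 1 u y) * ψ y)| ≤ C1 * N * η := by
    intro ψ N hψ hcyl
    have h1 := hS ψ (fun _ => 0) N (PL.TFn_of_CB hψ)
      ⟨contDiff_const, fun j hj x => by
        rcases Nat.eq_zero_or_pos j with h | h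
        · subst h
          rw [norm_iteratedFDeriv_zero, norm_zero]
          exact hψ.nonneg
        · rw [iteratedFDeriv_const_of_ne (by omega)]
          simpa using hψ.nonneg⟩ hcyl
      ⟨fun _ => rfl, fun y hy => absurd rfl hy⟩ (fun y => inner_zero_right _)
    have e1 : ∀ y : Sp d, dv (fun _ => (0 : Sp d)) y = 0 := by
      intro y
      simp [dv]
    simp only [e1, mul_zero, sub_zero, inner_zero_right, add_zero] at h1
    exact h1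
  have hlP : ∀ y, |l0 (JJ n0 ν (c • ν) 1 u y)| ≤ C1 * ‖JJ n0 ν (c • ν) 1 u y‖ := by
    intro y
    have := l0.le_opNorm (JJ n0 ν (c • ν) 1 u y)
    rw [Real.norm_eq_abs] at this
    exact this.trans (mul_le_mul_of_nonneg_right hl0 (norm_nonneg _))
  generalize hPdef : (fun y => l0 (JJ n0 ν (c • ν) 1 u y)) = P at *
  have hPy : ∀ y, l0 (JJ n0 ν (c • ν) 1 u y) = P y := fun y => by rw [← hPdef]
  simp only [hPy] at hS' hlP
  clear hS hSH hSHJ hSHB hPy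
  have hR3 : (3 : ℝ) ≤ R := by linarith
  have hcu : PL.CB 2 Kh (fun y => cu1 4 (ht ν c y)) := hcut d ν c hν
  have htL := PL.tangL_norm hν
  -- test functions
  have hψ0 : PL.CB (J1 + 2) K0 (fun y => zR (R0 / 3 + 1) (tang ν y)) := by
    have := hz0.comp_right (PL.tangL ν) htL
    simpa only [PL.tangL_apply] using this
  have hψ0c : Cyl ν (R0 / 2) (fun y => zR (R0 / 3 + 1) (tang ν y)) := by
    refine ⟨fun y => by simp only [PL.tang_tang hν], fun y hy => ?_⟩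
    have := PL.norm_lt_of_zR hy
    linarith
  have hsupp : ∀ (ψ : Sp d → ℝ), Cyl ν (R0 / 2) ψ → ∀ y, cu1 4 (ht ν c y) * ψ y ≠ 0 →
      ‖y‖ < R - 2 := by
    intro ψ hψ y hy
    have h1 := PL.abs_lt_of_cu1 (left_ne_zero_of_mul hy)
    have h2 := hψ.supp y (right_ne_zero_of_mul hy)
    have h3 : ‖y‖ ≤ R0 := by
      have h3 := PL.norm_tang_sq hν y
      unfold ht at h1
      have h4 : |⟪ν, y⟫_ℝ| ≤ R0 / 2 := by
        rw [abs_lt] at h1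
        rw [abs_le] at hc ⊢
        constructor <;> linarith [h1.1, h1.2, hc.1, hc.2]
      have h5 : ⟪ν, y⟫_ℝ ^ 2 ≤ (R0 / 2) ^ 2 := by
        rw [← sq_abs]
        exact pow_le_pow_left₀ (abs_nonneg _) h4 2
      have h6 : ‖tang ν y‖ ^ 2 ≤ (R0 / 2) ^ 2 := pow_le_pow_left₀ (norm_nonneg _) h2 2
      exact (abs_le_of_sq_le_sq' (by nlinarith) (by linarith)).2
    linarith
  have hzsupp : ∀ (ρ : ℝ), ρ ≤ R0 → ∀ y : Sp d, zR ρ y ≠ 0 → ‖y‖ < R - 2 := by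
    intro ρ hρ y hy
    have := PL.norm_lt_of_zR hy
    linarith
  have hcR0 : c ^ 2 ≤ R0 ^ 2 := by
    rw [← sq_abs]
    exact pow_le_pow_left₀ (abs_nonneg _) (by linarith) 2
  have hI : ∀ {H : Sp d → ℝ}, Continuous H → Integrable (fun y => ⟪f y, e⟫_ℝ * H y) :=
    fun hH => PL.int_mH hfc hfs e hH
  have hquad : (∫ y, ⟪f y, e⟫_ℝ * (zR R0 y * (⟪ν, y⟫_ℝ + -c) ^ 2)) =
      ∫ y, ⟪f y, e⟫_ℝ * (zR R0 y * ht ν c y ^ 2) := by
    congr 1
  have hU2 : Mi' ≤ (∫ y, ⟪f y, e⟫_ℝ * (cu1 4 (ht ν c y) * zR (R0 / 3 + 1) (tang ν y))) + bν +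
      A2 * D := by
    have hCB2 : PL.CB 2 B2 (fun y => cu1 4 (ht ν c y) * zR (R0 / 3 + 1) (tang ν y) +
        zR R0 y * (⟪ν, y⟫_ℝ + -c) ^ 2 - zR (R0 / 3) y) := by
      refine (((hcu.mul (hψ0.mono (by omega) le_rfl)).add (hq2 ν (-c))).sub hz3).mono le_rfl ?_
      refine le_trans ?_ hB2
      rw [hν, neg_sq]
      gcongr
    have h1 := hZu E f hfc hfs R hR3 n e he _ B2 hB2p hCB2 (G_nonneg hν hR0) ?_
    · rw [← hA2, hDdef] at h1
      have hc1 : Continuous (fun y => cu1 4 (ht ν c y) * zR (R0 / 3 + 1) (tang ν y)) :=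
        hcu.smooth.continuous.mul hψ0.smooth.continuous
      have hc2' := (hq2 ν (-c)).smooth.continuous
      have hc3 := hz3.smooth.continuous
      have h2 : (∫ y, ⟪f y, e⟫_ℝ * (cu1 4 (ht ν c y) * zR (R0 / 3 + 1) (tang ν y) +
          zR R0 y * (⟪ν, y⟫_ℝ + -c) ^ 2 - zR (R0 / 3) y)) =
          (∫ y, ⟪f y, e⟫_ℝ * (cu1 4 (ht ν c y) * zR (R0 / 3 + 1) (tang ν y))) +
          (∫ y, ⟪f y, e⟫_ℝ * (zR R0 y * (⟪ν, y⟫_ℝ + -c) ^ 2)) -
          ∫ y, ⟪f y, e⟫_ℝ * zR (R0 / 3) y := by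
        have h3 : ∫ y, (⟪f y, e⟫_ℝ * (cu1 4 (ht ν c y) * zR (R0 / 3 + 1) (tang ν y)) +
            ⟪f y, e⟫_ℝ * (zR R0 y * (⟪ν, y⟫_ℝ + -c) ^ 2) - ⟪f y, e⟫_ℝ * zR (R0 / 3) y) =
            (∫ y, (⟪f y, e⟫_ℝ * (cu1 4 (ht ν c y) * zR (R0 / 3 + 1) (tang ν y)) +
            ⟪f y, e⟫_ℝ * (zR R0 y * (⟪ν, y⟫_ℝ + -c) ^ 2))) - ∫ y, ⟪f y, e⟫_ℝ * zR (R0 / 3) y :=
          integral_sub ((hI hc1).add (hI hc2')) (hI hc3)
        rw [integral_add (hI hc1) (hI hc2')] at h3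
        rw [← h3]
        congr 1
        funext y
        ring
      rw [h2, hquad, hMidef] at h1
      linarith
    · intro y hy
      by_contra h
      have h3 : cu1 4 (ht ν c y) * zR (R0 / 3 + 1) (tang ν y) = 0 := by
        by_contra h4
        exact h (hsupp _ hψ0c y h4)
      have h4 : zR R0 y = 0 := by
        by_contra h5
        exact h (hzsupp R0 le_rfl y h5)
      have h5 : zR (R0 / 3) y = 0 := by
        by_contra h6
        exact h (hzsupp (R0 / 3) (by linarith) y h6)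
      rw [h3, h4, h5] at hy
      apply hy
      ring
  -- the lower bound for the integral
  have hp0 : Mi' / 2 ≤ plInt ν c (fun y => P y * zR (R0 / 3 + 1) (tang ν y)) := by
    have h2 := hS' _ K0 (hψ0.mono (by omega) le_rfl) hψ0c
    generalize (∫ y, ⟪f y, e⟫_ℝ * (cu1 4 (ht ν c y) * zR (R0 / 3 + 1) (tang ν y))) = I0 at *
    generalize plInt ν c (fun y => P y * zR (R0 / 3 + 1) (tang ν y)) = p0 at *
    have h6 : I0 ≤ p0 + C1 * K0 * η := by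
      have := (abs_le.mp h2).2
      linarith
    have h7 : bν + A2 * D ≤ (1 + A2) * η := by nlinarith
    have h8 : Mi' ≤ p0 + (C1 * K0 + 1 + A2) * η := by linarith
    have h9 : (C1 * K0 + 1 + A2) * η ≤ (C1 * K0 + 1 + A2) * (2 * δ * Mi') :=
      mul_le_mul_of_nonneg_left hηδ (by positivity)
    have h10 : (C1 * K0 + 1 + A2) * (2 * δ * Mi') = δ * (4 * (C1 * K0 + 1 + A2)) * (Mi' / 2) := by
      ring
    have h11 : δ * (4 * (C1 * K0 + 1 + A2)) * (Mi' / 2) ≤ 1 * (Mi' / 2) :=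
      mul_le_mul_of_nonneg_right hδ6 (by linarith)
    linarith
  obtain ⟨y0, hy1, hy2, hy3⟩ := exists_big (hP ν hν) hν hC5 hMi hPc
    hψ0.smooth.continuous hp0
  refine ⟨y0, hy1, hy2, hy3.trans ?_⟩
  rw [mul_assoc (4 * C5)]
  exact mul_le_mul_of_nonneg_left (hlP y0) (by positivity)

/-- jump polynomials of a fixed plane in the frames of a tower -/
lemma jump_frame (hJC : StmtJC) (hSC : StmtSC) (hSD : StmtSD) (hd : 2 ≤ d) {V E : Type}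
    [NormedAddCommGroup V] [InnerProductSpace ℝ V] [FiniteDimensional ℝ V] [NormedAddCommGroup E]
    [InnerProductSpace ℝ E] [FiniteDimensional ℝ E] {L : (Sp d →L[ℝ] V) →L[ℝ] E} {n0 : ℕ}
    {T : (ContinuousMultilinearMap ℝ (fun _ : Fin n0 => Sp d) E) →L[ℝ]
      (ContinuousMultilinearMap ℝ (fun _ : Fin (n0 + 1) => Sp d) V)} (hn : 1 ≤ n0)
    (hT : NSProp L n0 T) {M c0 ε : ℝ} (hε : 0 < ε) (hε1 : ε ≤ 1)
    {b : Sp d → ℝ} (hb : BaseKer 2 M c0 b) {R0 : ℝ} (hR0 : 200 + 8 * d ≤ R0) :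
    ∃ C : ℝ, 0 < C ∧ ∀ (R : ℝ), R0 + 10 ≤ R → ∀ (n : ℕ) (u : Sp d → V), TF u →
      ∀ (x : ℕ → Sp d) (e : ℕ → E), Tower x e → ∀ (ν : Sp d) (c : ℝ), ‖ν‖ = 1 → |c| ≤ R0 + 3 →
      ∀ r : ℕ, 2 ≤ r → ∀ z : Sp d, ‖z‖ ≤ R0 →
        ‖JJ n0 ν (((c - ⟪ν, x r⟫_ℝ) / 2 ^ r) • ν) 1 (fun y => u (x r + (2 : ℝ) ^ r • y)) z -
          JJ n0 ν (c • ν) (2 ^ r) u (x r + (2 : ℝ) ^ r • z)‖ ≤
          C * bD b ε R0 R ((1 / 2) ^ n) (fo L u) (n + r) (x r) (e r) ν c ∧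
        ‖JJ n0 ν (c • ν) (2 ^ (r + 1)) u (x r + (2 : ℝ) ^ r • z) -
          JJ n0 ν (c • ν) (2 ^ r) u (x r + (2 : ℝ) ^ r • z)‖ ≤
          2 * C * bD b ε R0 R ((1 / 2) ^ n) (fo L u) (n + r) (x r) (e r) ν c := by
  have hd1 : 1 ≤ d := by omega
  have hd0 : (0 : ℝ) ≤ d := Nat.cast_nonneg d
  have hRs := sqrt_R0 hR0
  have hs0 := Real.sqrt_nonneg (d : ℝ)
  obtain ⟨C, hC, hJ⟩ := hJC d V E L n0 T hd1 hn hT M c0 ε hε hε1 b hb R0 (by linarith)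
  refine ⟨C, hC, ?_⟩
  intro R hR n u hu x e hTw ν c hν hc r hr z hz
  set t : ℝ := (2 : ℝ) ^ r with htt
  have htp : 0 < t := by positivity
  have ht4 : 4 ≤ t := by
    calc (4 : ℝ) = 2 ^ 2 := by norm_num
      _ ≤ 2 ^ r := pow_le_pow_right₀ (by norm_num) hr
  obtain ⟨hut, hfo⟩ := (hSC d hd 1 one_pos (x r) t htp).2.2 V E L u hu
  have hbD := (frame hSC hSD hd hε hε1 hb (PL.fo_cont L hu) (PL.fo_cs L hu) (x r) r n).2.2 R0 R
    (n + r) (e r) ν c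
  set q : Sp d := ((c - ⟪ν, x r⟫_ℝ) / t) • ν with hq
  set q' : Sp d := (1 / t) • (c • ν - x r) with hq'
  have hνν : ⟪ν, ν⟫_ℝ = 1 := by rw [real_inner_self_eq_norm_sq, hν, one_pow]
  have hinq : ⟪ν, q⟫_ℝ = (c - ⟪ν, x r⟫_ℝ) / t := by
    rw [hq, real_inner_smul_right, hνν, mul_one]
  have hinq' : ⟪ν, q'⟫_ℝ = (c - ⟪ν, x r⟫_ℝ) / t := by
    rw [hq', real_inner_smul_right, inner_sub_right, real_inner_smul_right, hνν]
    ring
  have hxr := tower_norm hTw r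
  have hinner : |⟪ν, x r⟫_ℝ| ≤ ‖x r‖ := by
    have := abs_real_inner_le_norm ν (x r)
    rwa [hν, one_mul] at this
  have hbnd : R0 + 3 + Real.sqrt d * (t - 1) ≤ R0 / 2 * t := by
    have h1 : 0 ≤ (R0 / 2 - Real.sqrt d) * (t - 4) := mul_nonneg (by linarith) (by linarith)
    nlinarith
  have hqn : ‖q‖ ≤ R0 / 2 := by
    rw [hq, norm_smul, hν, mul_one, Real.norm_eq_abs, abs_div, abs_of_pos htp, div_le_iff₀ htp]
    exact ((abs_sub _ _).trans (add_le_add hc (hinner.trans hxr))).trans hbnd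
  have hqn' : ‖q'‖ ≤ R0 / 2 := by
    rw [hq', norm_smul, Real.norm_eq_abs, abs_of_pos (by positivity), one_div,
      inv_mul_le_iff₀ htp, mul_comm]
    refine ((norm_sub_le _ _).trans (add_le_add ?_ hxr)).trans hbnd
    rw [norm_smul, hν, mul_one, Real.norm_eq_abs]
    exact hc
  obtain ⟨-, h2, h3⟩ := hJ R hR (n + r) (fun y => u (x r + t • y)) hut (e r) (hTw.unit r) ν q q' hν
    (hinq.trans hinq'.symm) hqn hqn' z hz
  rw [hinq, hfo, hbD] at h2 h3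
  have hsc : ∀ s : ℝ, JJ n0 ν q' s (fun y => u (x r + t • y)) z =
      JJ n0 ν (c • ν) (t * s) u (x r + t • z) := by
    intro s
    unfold JJ
    rw [hSD.1 d V u hu.smooth (x r) t htp, hSD.1 d V u hu.smooth (x r) t htp]
    have e1 : x r + t • (q' + (6 * s) • ν) = c • ν + (6 * (t * s)) • ν := by
      rw [hq', smul_add, smul_smul, smul_smul, mul_one_div_cancel htp.ne', one_smul, ← add_assoc,
        add_sub_cancel]
      congr 2
      ring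
    have e2 : x r + t • (q' - (6 * s) • ν) = c • ν - (6 * (t * s)) • ν := by
      rw [hq', smul_sub, smul_smul, smul_smul, mul_one_div_cancel htp.ne', one_smul, ← add_sub_assoc,
        add_sub_cancel]
      congr 2
      ring
    rw [e1, e2]
  rw [hsc, mul_one] at h2
  rw [hsc] at h3
  have h4 : (2 : ℝ) ^ (r + 1) = t * 2 := by rw [pow_succ]
  rw [h4]
  refine ⟨by rw [norm_sub_rev]; exact h2, ?_⟩
  set a1 := JJ n0 ν (c • ν) (t * 2) u (x r + t • z)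
  set a2 := JJ n0 ν (c • ν) t u (x r + t • z)
  set a3 := JJ n0 ν q 1 (fun y => u (x r + t • y)) z
  have e3 : a1 - a2 = (a1 - a3) - (a2 - a3) := by abel
  rw [e3]
  refine (norm_sub_le _ _).trans ?_
  linarith

end MPm

end

end TG
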