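import Pool.Agent.TG.Stmts16
import Pool.Agent.TG.TreePQ0

/-!
# Trace inequality, general operators: small modules for the final assembly   (helper47)

No double quotes.
-/

open MeasureTheory Metric Set TrI
open scoped InnerProductSpace ContDiff ENNReal

namespace TG

noncomputable section

/-- MODULE LS: the masses of one level are payable -/
def StmtLS : Prop :=
  ∀ (d : ℕ), 1 ≤ d → ∀ (M c0 ε r : ℝ), 0 < ε → ε ≤ 1 → 0 ≤ r → ∀ (b : Sp d → ℝ),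
    BaseKer 2 M c0 b → ∃ C : ℝ, 0 < C ∧
    ∀ (E : Type) [NormedAddCommGroup E] [InnerProductSpace ℝ E] [FiniteDimensional ℝ E]
      (f : Sp d → E), Continuous f → HasCompactSupport f → ∀ s0 : ℝ, 0 < s0 → ∀ i : ℕ,
      cs {Q : Cell d | Q.1 = i} (fun Q => cw s0 Q * mC b ε r s0 f Q) ≤
        ENNReal.ofReal (C * ∫ y, ‖f y‖)

/-- MODULE DP: the short sums of the defects are payable -/
def StmtDP : Prop :=
  ∀ (d r0 : ℕ) (C0 : ℝ), 1 ≤ d → 0 ≤ C0 → ∃ C : ℝ, 0 < C ∧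
    ∀ (s0 tot : ℝ) (D : Cell d → ℝ), 0 < s0 → 0 ≤ tot → (∀ Q, 0 ≤ D Q) →
      cs univ (fun P => cw s0 P * D P) ≤ ENNReal.ofReal (C0 * tot) →
      cs univ (fun P => cw s0 P * dsm r0 D P) ≤ ENNReal.ofReal (C * tot)

/-- MODULE FF: finiteness of the sums of b and Y (no uniformity: any finite bound) -/
def StmtFF : Prop :=
  ∀ (d : ℕ), 2 ≤ d → ∀ (C' : ℝ), 0 < C' → ∀ μ : Measure (Sp d), Gro C' μ →
    ∀ (M c0 ε : ℝ), 0 < ε → ε ≤ 1 → ∀ (b : Sp d → ℝ), BaseKer 2 M c0 b →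
    ∀ (R0 R ρ : ℝ), 400 + 8 * d ≤ R0 → 2 * R0 + 10 ≤ R → 1 ≤ ρ →
    ∀ (E : Type) [NormedAddCommGroup E] [InnerProductSpace ℝ E] [FiniteDimensional ℝ E]
      [Nontrivial E] (f : Sp d → E), Continuous f → HasCompactSupport f → ∀ s0 : ℝ, 0 < s0 →
    ∀ e : Cell d → E, Dirs b ε R s0 f e → ∀ (ν : Cell d → Sp d) (c : Cell d → ℝ),
      Plns R0 s0 f e ν c → ∀ (S : Set (Cell d)) (r C : ℝ),
      (∀ P ∈ S, mT b ε s0 f P ≤ C * mC b ε r s0 f P) →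
      cs univ (fun Q => cw s0 Q * bC R0 s0 f e ν c Q * oC μ ρ s0 Q) < ⊤ ∧
      cs S (fun Q => cw s0 Q * (YC b ε s0 f μ ν c Q + bC R0 s0 f e ν c (up 9 Q) * omC μ s0 Q))
        < ⊤

/-- MODULE WH: the weights -/
def StmtWH : Prop :=
  ∀ (d : ℕ), 2 ≤ d → ∀ (C' p0 A R0 ρ : ℝ) (JA : ℕ), 0 < C' → 0 < p0 → p0 ≤ 1 → 1 ≤ A →
    4 * A + 8 * d + 400 ≤ R0 → A + 2 * d ≤ ρ →
    ∃ (Cu : ℝ) (Nb ρb : ℕ), 1 ≤ Cu ∧ ∀ μ : Measure (Sp d), Gro C' μ → ∀ s0 : ℝ, 0 < s0 →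
      WtH s0 Cu Nb (nst s0 (3 * R0) JA) (nst s0 (3 * R0 + d) (JA + 9)) (NrC p0 A s0 μ)
        (omC μ s0) (oC μ ρ s0) ∧
      (∀ Q : Cell d, nst s0 (3 * R0 + d) (JA + 9) Q ⊆ box (JA + 9) ρb Q) ∧
      ∀ Q : Cell d, ∀ Q' ∈ nst s0 (3 * R0 + d) (JA + 9) Q, Q.1 ≤ Q'.1 ∧ Q'.1 ≤ Q.1 + (JA + 9) ∧
        ‖xC s0 Q' - xC s0 Q‖ ≤ 4 * R0 * lev s0 Q'.1

end

end TG
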