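import Pool.Agent.TG.FinA
import Pool.Agent.TG.StmtsFin

/-!
# Trace inequality, general operators: the facts FinH for the concrete functions   (helper47)

No double quotes.
-/

open MeasureTheory Metric Set TrI
open scoped InnerProductSpace ContDiff ENNReal

namespace TG

noncomputable section

/-- MODULE FH: all facts of FinH for the concrete functions, from CT1 (R = 64 R0, m = 9), CT2
(the constant of the packing of the defects goes into Λ), CT3, CT4, CT5 (m = 0, 9), CT7, RB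
(J = JA + 9), WH, LS (r = 64 R0), FF -/
def StmtFH : Prop :=
  ∀ (d : ℕ), 2 ≤ d → ∃ Rt : ℝ, 1 ≤ Rt ∧
    ∀ (M c0 ε : ℝ), 0 < ε → ε ≤ 1 → ∀ (b : Sp d → ℝ), BaseKer 2 M c0 b →
    ∀ (C' p0 A R0 ρ : ℝ) (JA : ℕ), 0 < C' → 0 < p0 → p0 ≤ 1 → 1 ≤ A →
      4 * A + 8 * d + 400 ≤ R0 → 8 * Rt ≤ R0 → A + 3 * d ≤ ρ →
    ∃ (C0 Cu C1R C9 : ℝ) (Nb ρb : ℕ), 1 ≤ C0 ∧ 1 ≤ Cu ∧ 1 ≤ C1R ∧ 1 ≤ C9 ∧
    ∀ R : ℝ, 200 * R0 ≤ R → ∃ Λ : ℝ, 1 ≤ Λ ∧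
    ∀ (E : Type) [NormedAddCommGroup E] [InnerProductSpace ℝ E] [FiniteDimensional ℝ E]
      [Nontrivial E] (f : Sp d → E), Continuous f → HasCompactSupport f →
    ∀ μ : Measure (Sp d), Gro C' μ → ∀ s0 : ℝ, 0 < s0 →
    ∀ e : Cell d → E, Dirs b ε R s0 f e → ∀ (ν : Cell d → Sp d) (c : Cell d → ℝ),
      Plns R0 s0 f e ν c → ∀ γ : ℝ, 0 < γ → γ ≤ 1 →
      FinH C0 C1R C9 (JA + 9) 3 ρb Nb Cu γ s0 (Λ * ∫ y, ‖f y‖)
        (nst s0 (3 * R0) JA) (nst s0 (3 * R0 + d) (JA + 9)) (NrC p0 A s0 μ)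
        (mC b ε (64 * R0) s0 f) (mC b ε (R0 + 3) s0 f) (mC b ε (32 * R0) s0 f) (mT b ε s0 f)
        (dC b ε R s0 f e) (bC R0 s0 f e ν c) (oC μ ρ s0) (oC μ (ρ + Real.sqrt d) s0)
        (omC μ s0) (tG b ε s0 f) (YC b ε s0 f μ ν c) (gC b ε (128 * R0) s0 f)

end

end TG
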