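import Pool.Agent.TG.FinDef
import Pool.Agent.TG.FinB
import Pool.Agent.TG.StmtsFH
import Pool.Agent.TG.KitMono
set_option autoImplicit false
set_option linter.unusedSectionVars false
set_option linter.unusedVariables false

/-!
# The main estimate StmtMain   (helper47)
-/

open MeasureTheory Metric Set TrI
open scoped InnerProductSpace ContDiff ENNReal

namespace TG

noncomputable section

variable {d : ℕ}

namespace MainA

/-- monotonicity of LocW in Cu and c1 -/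
lemma locW_mono {s0 γ Cu Cu' c1 c1' η Cr CK κ δ Cs : ℝ} {r0 : ℕ} {ns : Cell d → Finset (Cell d)}
    {Nr St TA : Set (Cell d)} {N val v a al ah D b at' TG Y E1 E2 : Cell d → ℝ}
    (h : LocW s0 γ Cu c1 η Cr CK κ δ Cs r0 ns Nr St TA N val v a al ah D b at' TG Y E1 E2)
    (hs : 0 < s0) (hCu : Cu ≤ Cu') (hc1 : c1' ≤ c1) (hv : ∀ Q, 0 ≤ v Q) (hal : ∀ Q, 0 ≤ al Q)
    (hD : ∀ Q, 0 ≤ D Q) (hb : ∀ Q, 0 ≤ b Q) :
    LocW s0 γ Cu' c1' η Cr CK κ δ Cs r0 ns Nr St TA N val v a al ah D b at' TG Y E1 E2 := by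
  have hw : ∀ Q : Cell d, 0 ≤ cw s0 Q := fun Q => cw_nonneg hs Q
  have hwv : ∀ Q : Cell d, 0 ≤ cw s0 Q * v Q := fun Q => mul_nonneg (hw Q) (hv Q)
  have hval : ∀ Q, 0 ≤ cw s0 Q * val Q := fun Q => mul_nonneg (hw Q) (h.val0 Q)
  have hsum : ∀ Q, 0 ≤ ∑ Q' ∈ ns Q, cw s0 Q' * val Q' := fun Q =>
    Finset.sum_nonneg fun Q' _ => hval Q'
  have i1 : ∀ Q, c1' * (cw s0 Q * val Q) ≤ c1 * (cw s0 Q * val Q) := fun Q =>
    mul_le_mul_of_nonneg_right hc1 (hval Q)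
  have i2 : ∀ Q, Cu * (∑ Q' ∈ ns Q, cw s0 Q' * val Q') ≤
      Cu' * (∑ Q' ∈ ns Q, cw s0 Q' * val Q') := fun Q => mul_le_mul_of_nonneg_right hCu (hsum Q)
  refine ⟨h.val0, h.E1_le, h.E2_le, h.w1, fun Q hN h2 hA => (i1 Q).trans (h.w2 Q hN h2 hA), h.w3,
    fun Q hN h2 h3 h4 => (i1 Q).trans (h.w4 Q hN h2 h3 h4), fun Q hN h2 => ?_, fun Q h2 hA => ?_,
    fun Q h2 hA => ?_, fun P h2 hf hA => ?_, fun P h2 hf hA => ?_⟩
  · have h5 := h.w5 Q hN h2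
    have h6 : Cu * (cw s0 Q * v Q) * (al Q + D Q) ≤ Cu' * (cw s0 Q * v Q) * (al Q + D Q) :=
      mul_le_mul_of_nonneg_right (mul_le_mul_of_nonneg_right hCu (hwv Q))
        (add_nonneg (hal Q) (hD Q))
    linarith
  · have h5 := h.wA6 Q h2 hA
    linarith [i2 Q]
  · have h5 := h.wB6 Q h2 hA
    linarith [i2 Q]
  · have h5 := h.wA7 P h2 hf hA
    have h6 : Cu * (cw s0 P * v P) * b (up 9 P) ≤ Cu' * (cw s0 P * v P) * b (up 9 P) :=
      mul_le_mul_of_nonneg_right (mul_le_mul_of_nonneg_right hCu (hwv P)) (hb _)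
    linarith [i2 P]
  · have h5 := h.wB7 P h2 hf hA
    have h6 : Cu * (cw s0 P * v P) * b (up 9 P) ≤ Cu' * (cw s0 P * v P) * b (up 9 P) :=
      mul_le_mul_of_nonneg_right (mul_le_mul_of_nonneg_right hCu (hwv P)) (hb _)
    linarith [i2 P]

section Fo
variable {V E : Type} [NormedAddCommGroup V] [InnerProductSpace ℝ V] [FiniteDimensional ℝ V]
    [NormedAddCommGroup E] [InnerProductSpace ℝ E] [FiniteDimensional ℝ E]
    {L : (Sp d →L[ℝ] V) →L[ℝ] E}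

lemma fo_cont {u : Sp d → V} (hu : TF u) : Continuous (fo L u) := by
  unfold fo
  exact L.continuous.comp (hu.smooth.continuous_fderiv (by simp))

lemma fo_cs {u : Sp d → V} (hu : TF u) : HasCompactSupport (fo L u) := by
  have h := hu.supp.fderiv (𝕜 := ℝ)
  exact h.comp_left (g := fun A => L A) (map_zero L)

end Fo

end MainA

open MainA in
theorem stmtMain0 (hfin : StmtFin) (hBK : StmtBK) (hFA : StmtFA) (hCG : StmtCG) (hCS : StmtCS) (hFH : StmtFH)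
    (hLW : StmtLW) (hT2 : StmtT2) (hFF : StmtFF) : StmtMain := by
  intro d V E _ _ _ _ _ _ _ L hd hL C' hC'
  have hd1 : 1 ≤ d := by omega
  have hdr : (2 : ℝ) ≤ d := by exact_mod_cast hd
  have hd0r : (0 : ℝ) < d := by linarith
  obtain ⟨J, RtL, hRtL, HL⟩ := hLW d V E L hd hL
  obtain ⟨RtH, hRtH, HH⟩ := hFH d hd
  obtain ⟨RtT, hRtT, HT⟩ := hT2 d V E L hd hL
  obtain ⟨M, c0, b, hb⟩ := hBK d (J + 14) (by omega)
  have hb2 : BaseKer 2 M c0 b := hb.mono_order (by omega)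
  have hb14 : BaseKer 14 M c0 b := hb.mono_order (by omega)
  obtain ⟨ε0, hε0, HFA⟩ := hFA d (J + 10) hd (by omega) M
  set ε : ℝ := min ε0 (1 / 4) with hεdef
  have hε : 0 < ε := lt_min hε0 (by norm_num)
  have hε4 : ε ≤ 1 / 4 := min_le_right _ _
  have hε1 : ε ≤ 1 := by linarith
  obtain ⟨p0, A, c, hF⟩ := HFA ε hε (min_le_left _ _) C' hC'
  have hp0 := hF.p0_pos
  have hp1 := hF.p0_le
  have hA := hF.A_ge
  obtain ⟨n1, hn1⟩ := pow_unbounded_of_one_lt (32 * A) (one_lt_two : (1 : ℝ) < 2)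
  set JA : ℕ := max n1 7 with hJA
  have hJA1 : 32 * A ≤ 2 ^ JA := hn1.le.trans (pow_le_pow_right₀ (by norm_num) (le_max_left _ _))
  have hJA7 : 7 ≤ JA := le_max_right _ _
  set γ : ℝ := 1 / (32 * d) with hγdef
  have hγ : 0 < γ := by positivity
  have hγ32 : γ ≤ 1 / (32 * d) := le_rfl
  have hγ8d : γ ≤ 1 / (8 * d) := one_div_le_one_div_of_le (by positivity) (by linarith)
  have hγ8 : γ ≤ 1 / 8 := one_div_le_one_div_of_le (by norm_num) (by linarith)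
  have hγ1 : γ ≤ 1 := by linarith
  set ρ : ℝ := A + 3 * d with hρ
  have hρ0 : 0 < ρ := by positivity
  set R0 : ℝ := 4 * A + 8 * d + 400 + 8 * RtL + 8 * RtH + 8 * RtT + 8 * ρ with hR0
  obtain ⟨CuL, c1L, hCuL, hc1L, HL1⟩ := HL M c0 b hb C' ε p0 A c hC' hε hε4 hF JA γ R0 hJA1 hJA7
    hγ hγ32 (by rw [hR0]; linarith) (by rw [hR0]; linarith)
  obtain ⟨C0, CuH, C1R, C9, Nb, ρb, hC0, hCuH, hC1R, hC9, HH1⟩ := HH M c0 ε hε hε1 b hb2 C' p0 A R0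
    ρ JA hC' hp0 hp1 hA (by rw [hR0]; linarith) (by rw [hR0]; linarith) le_rfl
  obtain ⟨C1I, κI0, θI0, δI, RmT, hC1I, hκI0, hθI0, hδI, HT1⟩ := HT M c0 ε hε hε1 b hb2 C' R0 γ ρ
    hC' (by rw [hR0]; linarith) (by rw [hR0]; linarith) hγ hγ8d (by rw [hρ]; linarith)
    (by rw [hR0]; linarith)
  set Cu : ℝ := max CuL CuH with hCudef
  have hCu : 1 ≤ Cu := hCuL.trans (le_max_left _ _)
  set c1 : ℝ := min c1L 1 with hc1def
  have hc1 : 0 < c1 := lt_min hc1L one_pos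
  have hc11 : c1 ≤ 1 := min_le_right _ _
  obtain ⟨η, K, Cr, θ, hη, hK, hCr, hθ, hθI, HF1⟩ := hfin d (JA + 9) ρb Nb 3 C0 Cu c1 C1R C9 C1I γ
    (min κI0 1) (min θI0 1) δI hd1 hγ hγ8 hC0 hCu hc1 hc11 hC1R hC9 hC1I.le
    (lt_min hκI0 one_pos) (min_le_right _ _) (lt_min hθI0 one_pos) (min_le_right _ _) hδI
  set κI : ℝ := min κI0 1 with hκIdef
  have hCr2 : 1 ≤ Cr ^ 2 := one_le_pow₀ hCr
  obtain ⟨CK, κ0, hCK, hκ0, HL2⟩ := HL1 η hη K (Cr ^ 2) hK hCr2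
  obtain ⟨n, κ1, δ, hκ1, hκ10, hδ, HF2⟩ := HF1 CK κ0 hCK hκ0
  obtain ⟨RN, Rm, d0, Cs, r0, hRN, hd0, hd01, hCs, hr0, HL3⟩ := HL2 (κ1 * (1 / 2) ^ n) δ
    (by positivity) hδ
  set R : ℝ := |Rm| + |RmT| + 200 * R0 with hR
  have hR0pos : 0 < R0 := by rw [hR0]; positivity
  have hRm : Rm ≤ R := by
    have h1 := le_abs_self Rm
    have h2 := abs_nonneg RmT
    rw [hR]; linarith
  have hRmT : RmT ≤ R := by
    have h1 := le_abs_self RmT
    have h2 := abs_nonneg Rm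
    rw [hR]; linarith
  have hR200 : 200 * R0 ≤ R := by
    have h1 := abs_nonneg RmT
    have h2 := abs_nonneg Rm
    rw [hR]; linarith
  have hR0big : 400 + 8 * (d : ℝ) ≤ R0 := by rw [hR0]; linarith
  have hR0R1 : R0 + 10 ≤ R := by linarith
  have hR0R2 : 2 * R0 + 10 ≤ R := by linarith
  have hRd4 : (d : ℝ) + 4 ≤ R := by linarith
  obtain ⟨Λ, hΛ, HH2⟩ := HH1 R hR200
  obtain ⟨CN, hCN, HCS⟩ := hCS d hd M c0 C' R hC' hRd4 (⟨b, RN, ε, p0, A⟩ : Prm d)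
    ⟨hb14, hRN, hε, hε4, hp0, hp1, hA⟩
  obtain ⟨δ', C'', hδ', hδ'I, hδ'C, hC'', HF3⟩ := HF2 d0 Cs CN r0 hd0 hd01 hCs hCN.le
  have hCδ : C0 * δ' ≤ 1 / 2 := by linarith
  refine ⟨M, c0, ε, R0, R, ρ, C'' * Λ + C0 ^ 2 * Λ, b, hb2, hε, hε1, hR0big, hR0R1,
    by rw [hρ]; linarith, by positivity, ?_⟩
  intro u hu μ hμ s0 hs0 hs01
  set f := fo L u with hf
  have hfc : Continuous f := fo_cont hu
  have hfs : HasCompactSupport f := fo_cs hu
  have hint : 0 ≤ ∫ y, ‖f y‖ := integral_nonneg fun y => norm_nonneg _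
  obtain ⟨⟨e, he⟩, hP⟩ := hCG d hd1 M c0 ε hε hε1 b hb2 E f hfc hfs R s0 (by linarith) hs0
  obtain ⟨ν, c', hpl⟩ := hP e R0 (by linarith) he.unit
  refine ⟨e, ν, c', he.unit, hpl.unit, fun Q => (hpl.loc Q).trans ?_, ?_⟩
  · refine mul_le_mul_of_nonneg_right (by linarith) ?_
    unfold lev; positivity
  have H := HH2 E f hfc hfs μ hμ s0 hs0 e he ν c' hpl γ hγ hγ1
  set a := mC b ε (64 * R0) s0 f with ha
  set al := mC b ε (R0 + 3) s0 f with hal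
  set ah := mC b ε (32 * R0) s0 f with hah
  set at' := mT b ε s0 f with hat
  set D := dC b ε R s0 f e with hD
  set bb' := bC R0 s0 f e ν c' with hbb
  set oml := oC μ ρ s0 with homl
  set v := omC μ s0 with hv
  set TG := tG b ε s0 f with hTG
  set Y := YC b ε s0 f μ ν c' with hY
  -- W with the larger Cu
  have H' : FinH C0 C1R C9 (JA + 9) 3 ρb Nb Cu γ s0 (Λ * ∫ y, ‖f y‖)
      (nst s0 (3 * R0) JA) (nst s0 (3 * R0 + d) (JA + 9)) (NrC p0 A s0 μ) a al ah at' D bb' oml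
      (oC μ (ρ + Real.sqrt d) s0) v TG Y (gC b ε (128 * R0) s0 f) := by
    have hCC : CuH ≤ Cu := le_max_right _ _
    have hcwn : ∀ Q : Cell d, 0 ≤ cw s0 Q := fun Q => cw_nonneg hs0 Q
    refine { H with W := ?_ }
    have W := H.W
    exact ⟨W.s0_pos, W.v0, fun Q => (W.v1 Q).trans hCC, W.oml0,
      fun Q => (W.ov Q).trans (mul_le_mul_of_nonneg_right hCC (W.v0 Q)),
      fun Q hQ => (W.vN Q hQ).trans (mul_le_mul_of_nonneg_right hCC (W.oml0 Q)),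
      fun Q hQ Q' hQ' => (W.vA Q hQ Q' hQ').trans (mul_le_mul_of_nonneg_right hCC (W.oml0 Q')),
      fun Q Q' hQ' => (W.vnb Q Q' hQ').trans (mul_le_mul_of_nonneg_right hCC (W.v0 Q')),
      W.adj_ns, W.self, W.ns_nb, W.ns9, W.lvl,
      fun Q Q' hQ' => (W.cw2 Q Q' hQ').trans (mul_le_mul_of_nonneg_right hCC (hcwn Q)), W.card⟩
  have hC00 : 0 < C0 := by linarith
  -- the worlds
  have hworld : ∀ j : ℕ, ∃ (N val E1 E2 : Cell d → ℝ), j < n →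
      LocW s0 γ Cu c1 η (Cr ^ 2) CK (κ1 * (1 / 2) ^ j) δ Cs r0 (nst s0 (3 * R0) JA)
        (NrC p0 A s0 μ) (Strc γ K d0 a at' D) (TyA (κ1 * (1 / 2) ^ j) a D bb') N val v a al ah D
        bb' at' TG Y E1 E2 ∧
      Summable N ∧ ∑' Q, N Q ≤ CN * (Λ * ∫ y, ‖f y‖) ∧ (∀ Q : Cell d, ¬ 2 ≤ Q.1 → N Q = 0) ∧
      cs univ (fun Q => cw s0 Q * val Q) < ⊤ := by
    intro j
    by_cases hj : j < n
    · have hκm : κ1 * (1 / 2 : ℝ) ^ n ≤ κ1 * (1 / 2) ^ j :=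
        mul_le_mul_of_nonneg_left (pow_le_pow_of_le_one (by norm_num) (by norm_num) hj.le) hκ1.le
      have hκM : κ1 * (1 / 2 : ℝ) ^ j ≤ κ0 := by
        have h1 : (1 / 2 : ℝ) ^ j ≤ 1 := pow_le_one₀ (by norm_num) (by norm_num)
        exact (mul_le_of_le_one_right hκ1.le h1).trans hκ10
      obtain ⟨kd, nv, val, E1, E2, hnv, hfin, hLoc⟩ := HL3 R hRm u hu μ hμ s0 hs0 e he ν c' hpl
        (κ1 * (1 / 2) ^ j) hκm hκM
      obtain ⟨hsum, htot⟩ := HCS E f hfc hfs μ hμ s0 hs0 e kd nv he hnv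
      refine ⟨net2 (⟨b, RN, ε, p0, A⟩ : Prm d) s0 μ f e kd nv, val, E1, E2, fun _ =>
        ⟨locW_mono hLoc hs0 (le_max_left _ _) (min_le_left _ _) H.W.v0 H.al0 H.T.D_nonneg
          H.R.b_nonneg, hsum, htot.trans ?_, fun Q hQ => ?_, hfin⟩⟩
      · exact mul_le_mul_of_nonneg_left (le_mul_of_one_le_left hint hΛ) hCN.le
      · unfold net2; rw [if_neg hQ]
    · exact ⟨0, 0, 0, 0, fun h => absurd h hj⟩
  choose N val E1 E2 hNv using hworld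
  -- finiteness of the tops
  have hfin2 : cs (CIII γ κI δ' 9 at' D bb' TG)
      (fun P => cw s0 P * (Y P + bb' (up 9 P) * v P)) < ⊤ := by
    refine (hFF d hd C' hC' μ hμ M c0 ε hε hε1 b hb2 R0 R ρ hR0big hR0R2
      (by rw [hρ]; linarith) E f hfc hfs s0 hs0 e he ν c' hpl (CIII γ κI δ' 9 at' D bb' TG)
      (32 * R0) (2 * C0) (fun P hP => ?_)).2
    obtain ⟨q1, q2, q3, q4, q5⟩ := hP
    have h1 := H.flat P q2
    have h2 : C0 * TG P ≤ 1 / 2 * at' P := by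
      have h3 : C0 * TG P ≤ C0 * (δ' * at' P) := mul_le_mul_of_nonneg_left q3 hC00.le
      have h5 : C0 * (δ' * at' P) = (C0 * δ') * at' P := by ring
      have h6 : (C0 * δ') * at' P ≤ 1 / 2 * at' P := mul_le_mul_of_nonneg_right hCδ (H.T.at_nonneg P)
      exact h3.trans (h5.le.trans h6)
    have h4 : at' P ≤ 2 * C0 * ah P := by linarith
    exact h4
  have hmain := HF3 s0 (Λ * ∫ y, ‖f y‖) (nst s0 (3 * R0) JA) (nst s0 (3 * R0 + d) (JA + 9))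
    (NrC p0 A s0 μ) a al ah at' D bb' oml (oC μ (ρ + Real.sqrt d) s0) v TG Y
    (gC b ε (128 * R0) s0 f) N val E1 E2 H' (fun P hP i S hi hS hT =>
      HT1 R hRmT u hu μ hμ s0 hs0 e he ν c' hpl κI θ δ' (min_le_left _ _)
        (hθI.trans (min_le_left _ _)) hδ'I P hP i S hi hS hT) hfin2 (fun j hj => hNv j hj)
  -- conclusion
  have hDs := H.T.D_sum
  calc cs {Q : Cell d | 2 ≤ Q.1} (fun Q => cw s0 Q *
        bD b ε R0 R s0 f Q.1 (xC s0 Q) (e Q) (ν Q) (c' Q) * oC μ ρ s0 Q)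
      ≤ cs (L2 d) (fun Q => cw s0 Q * (bb' Q * oml Q) + C0 * (cw s0 Q * D Q)) := by
        refine cs_mono fun Q _ => ?_
        have e1 : bD b ε R0 R s0 f Q.1 (xC s0 Q) (e Q) (ν Q) (c' Q) = bb' Q + D Q := rfl
        rw [e1]
        have h1 := mul_le_mul_of_nonneg_left (H.oml_le Q)
          (mul_nonneg (cw_nonneg hs0 Q) (H.T.D_nonneg Q))
        have e2 : oC μ ρ s0 Q = oml Q := rfl
        rw [e2]
        linarith
    _ = cs (L2 d) (fun Q => cw s0 Q * (bb' Q * oml Q)) +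
          ENNReal.ofReal C0 * cs (L2 d) (fun Q => cw s0 Q * D Q) := by
        rw [cs_add (fun Q _ => mul_nonneg (cw_nonneg hs0 Q) (mul_nonneg (H.R.b_nonneg Q)
          (H.T.oml_nonneg Q))) (fun Q _ => mul_nonneg hC00.le (mul_nonneg (cw_nonneg hs0 Q)
          (H.T.D_nonneg Q))), cs_mul hC00.le]
    _ ≤ cs univ (fXF s0 bb' oml) + ENNReal.ofReal C0 * ENNReal.ofReal (C0 * (Λ * ∫ y, ‖f y‖)) := by
        refine add_le_add ?_ (mul_le_mul_right ((cs_le_univ _ _).trans hDs) _)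
        rw [← _root_.TG.Fin.fX_eq (S := L2 d) Subset.rfl]
        exact cs_le_univ _ _
    _ ≤ ENNReal.ofReal (C'' * (Λ * ∫ y, ‖f y‖)) +
          ENNReal.ofReal C0 * ENNReal.ofReal (C0 * (Λ * ∫ y, ‖f y‖)) := add_le_add hmain le_rfl
    _ = ENNReal.ofReal ((C'' * Λ + C0 ^ 2 * Λ) * ∫ y, ‖f y‖) := by
        rw [← ENNReal.ofReal_mul hC00.le, ← ENNReal.ofReal_add (by positivity) (by positivity)]
        ring_nf

end

end TG
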