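import Pool.Agent.TG.FinC
import Pool.Agent.TG.MainA0
set_option autoImplicit false
set_option linter.unusedSectionVars false
set_option linter.unusedVariables false

/-!
# The main estimate StmtMain   (helper47)
-/

open MeasureTheory Metric Set TrI
open scoped InnerProductSpace ContDiff ENNReal

namespace TG

noncomputable section

variable {d : ℕ}

theorem stmtMain (hBK : StmtBK) (hFA : StmtFA) (hCG : StmtCG) (hCS : StmtCS) (hFH : StmtFH)
    (hLW : StmtLW) (hT2 : StmtT2) (hFF : StmtFF) : StmtMain :=
  stmtMain0 fin hBK hFA hCG hCS hFH hLW hT2 hFF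

end

end TG
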