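import Pool.Agent.TG.Stmts2
import Pool.Agent.TG.TQ

/-!
# Module NC: nonnegative polynomials do not concentrate near a plane (by helper18)
-/

open MeasureTheory Metric Set TrI
open scoped InnerProductSpace ContDiff

namespace TG

namespace NCm

lemma nle (k : ℕ) : ((k : ℕ∞) : WithTop ℕ∞) ≤ ∞ := by exact_mod_cast le_top

lemma cd {n : ℕ} {f : Sp n → ℝ} (hf : ContDiff ℝ ∞ f) (k : ℕ) : ContDiff ℝ k f :=
  hf.of_le (nle k)

/-! ## Polynomials of degree at most m on Sp n -/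

section Poly

variable {n : ℕ}

/-- the space of polynomials of degree at most m -/
def PolS (n m : ℕ) : Submodule ℝ (Sp n → ℝ) where
  carrier := {g | ContDiff ℝ ∞ g ∧ ∀ x, iteratedFDeriv ℝ (m + 1) g x = 0}
  add_mem' := by
    rintro f g ⟨hf, hf'⟩ ⟨hg, hg'⟩
    refine ⟨hf.add hg, fun x => ?_⟩
    rw [iteratedFDeriv_add_apply (cd hf _).contDiffAt (cd hg _).contDiffAt, hf', hg', add_zero]
  zero_mem' := by
    refine ⟨contDiff_const, fun x => ?_⟩
    have : (0 : Sp n → ℝ) = fun _ => (0 : ℝ) := rfl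
    rw [this, iteratedFDeriv_const_of_ne (by omega)]
    rfl
  smul_mem' := by
    rintro c f ⟨hf, hf'⟩
    refine ⟨hf.const_smul c, fun x => ?_⟩
    rw [iteratedFDeriv_const_smul_apply (cd hf _).contDiffAt, hf', smul_zero]

lemma fd_cmm (n k : ℕ) :
    FiniteDimensional ℝ (ContinuousMultilinearMap ℝ (fun _ : Fin k => Sp n) ℝ) :=
  FiniteDimensional.of_injective
    (ContinuousMultilinearMap.toMultilinearMapLinear (R' := ℝ) (A := ℝ)
      (M₁ := fun _ : Fin k => Sp n) (M₂ := ℝ))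
    ContinuousMultilinearMap.toMultilinearMap_injective

/-- the jet map -/
noncomputable def jet (n m : ℕ) : PolS n m →ₗ[ℝ]
    ((k : Fin (m + 1)) → ContinuousMultilinearMap ℝ (fun _ : Fin (k : ℕ) => Sp n) ℝ) where
  toFun g := fun k => iteratedFDeriv ℝ (k : ℕ) (g : Sp n → ℝ) 0
  map_add' f g := by
    funext k
    exact iteratedFDeriv_add_apply (cd f.2.1 _).contDiffAt (cd g.2.1 _).contDiffAt
  map_smul' c f := by
    funext k
    exact iteratedFDeriv_const_smul_apply (cd f.2.1 _).contDiffAt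

lemma eq_zero_of_jets {m : ℕ} {g : Sp n → ℝ} (hg : ContDiff ℝ ∞ g)
    (hg' : ∀ x, iteratedFDeriv ℝ (m + 1) g x = 0) (y : Sp n)
    (h : ∀ k ≤ m, iteratedFDeriv ℝ k g y = 0) (x : Sp n) : g x = 0 := by
  rw [← eq_taylor hg hg' x y]
  refine Finset.sum_eq_zero fun k hk => ?_
  rw [h k (by rw [Finset.mem_range] at hk; omega)]
  simp

lemma jet_injective (n m : ℕ) : Function.Injective (jet n m) := by
  rw [← LinearMap.ker_eq_bot, LinearMap.ker_eq_bot']
  intro g hg
  ext x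
  refine eq_zero_of_jets g.2.1 g.2.2 0 (fun k hk => ?_) x
  exact congrFun hg ⟨k, by omega⟩

lemma fd_polS (n m : ℕ) : FiniteDimensional ℝ (PolS n m) := by
  have : ∀ k : Fin (m + 1),
      FiniteDimensional ℝ (ContinuousMultilinearMap ℝ (fun _ : Fin (k : ℕ) => Sp n) ℝ) :=
    fun k => fd_cmm n k
  exact FiniteDimensional.of_injective (jet n m) (jet_injective n m)

/-- a polynomial which vanishes on an open set is zero -/
lemma eq_zero_of_eventually {m : ℕ} {g : Sp n → ℝ} (hg : ContDiff ℝ ∞ g)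
    (hg' : ∀ x, iteratedFDeriv ℝ (m + 1) g x = 0) (y : Sp n)
    (h : ∀ᶠ x in nhds y, g x = 0) (x : Sp n) : g x = 0 := by
  refine eq_zero_of_jets hg hg' y (fun k _ => ?_) x
  have h1 : g =ᶠ[nhds y] fun _ => (0 : ℝ) := h
  rw [(h1.iteratedFDeriv ℝ k).eq_of_nhds]
  rw [iteratedFDeriv_fun_zero]
  rfl

end Poly

/-! ## Test functions -/

lemma exists_TFn {n : ℕ} (J : ℕ) {f : Sp n → ℝ} (hf : ContDiff ℝ ∞ f) (hc : HasCompactSupport f) :
    ∃ κ : ℝ, 0 < κ ∧ TFn J 1 (fun x => κ * f x) := by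
  have h1 : ∀ j, ∃ B, ∀ x, ‖iteratedFDeriv ℝ j f x‖ ≤ B := by
    intro j
    have hcont : Continuous (iteratedFDeriv ℝ j f) :=
      hf.continuous_iteratedFDeriv (nle j)
    exact hcont.bounded_above_of_compact_support (hc.iteratedFDeriv j)
  choose B hB using h1
  set M : ℝ := ∑ j ∈ Finset.range (J + 1), |B j| with hM
  have hM0 : 0 ≤ M := Finset.sum_nonneg fun _ _ => abs_nonneg _
  refine ⟨1 / (1 + M), by positivity, contDiff_const.mul (cd hf J), ?_⟩
  intro j hj x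
  have e1 : (fun x => 1 / (1 + M) * f x) = fun x => (1 / (1 + M)) • f x := rfl
  rw [e1, iteratedFDeriv_const_smul_apply' (cd hf j).contDiffAt,
    norm_smul, Real.norm_of_nonneg (by positivity)]
  have h2 : ‖iteratedFDeriv ℝ j f x‖ ≤ M := by
    refine (hB j x).trans ((le_abs_self _).trans ?_)
    exact Finset.single_le_sum (f := fun j => |B j|) (fun _ _ => abs_nonneg _)
      (Finset.mem_range.mpr (by omega))
  rw [one_div, inv_mul_le_iff₀ (by positivity)]
  linarith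

/-! ## The core statement on Sp n -/

section Core

variable {n : ℕ}

/-- admissible tests -/
structure Tst (J : ℕ) (ρ : ℝ) (ψ : Sp n → ℝ) : Prop where
  tf : TFn J 1 ψ
  supp : ∀ y, ψ y ≠ 0 → ‖y‖ ≤ ρ
  nonneg : ∀ y, 0 ≤ ψ y

lemma Tst.cont {J : ℕ} {ρ : ℝ} {ψ : Sp n → ℝ} (h : Tst J ρ ψ) : Continuous ψ :=
  h.tf.smooth.continuous

lemma Tst.hcs {J : ℕ} {ρ : ℝ} {ψ : Sp n → ℝ} (h : Tst J ρ ψ) : HasCompactSupport ψ := by
  refine HasCompactSupport.intro (isCompact_closedBall (0 : Sp n) ρ) fun y hy => ?_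
  by_contra h0
  exact hy (by simpa using h.supp y h0)

/-- a polynomial which is nonnegative against all tests is nonnegative on the open ball -/
lemma nonneg_of_tests (J : ℕ) {ρ : ℝ} {Q : Sp n → ℝ} (hQ : Continuous Q)
    (h : ∀ ψ : Sp n → ℝ, Tst J ρ ψ → 0 ≤ ∫ y, Q y * ψ y) (s : Sp n) (hs : ‖s‖ < ρ) : 0 ≤ Q s := by
  by_contra hneg
  rw [not_le] at hneg
  have h1 : ∀ᶠ y in nhds s, Q y < 0 := hQ.continuousAt.eventually (gt_mem_nhds hneg)
  have h2 : ∀ᶠ y in nhds s, ‖y‖ < ρ := continuous_norm.continuousAt.eventually (gt_mem_nhds hs)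
  obtain ⟨r, hr, hr'⟩ := Metric.eventually_nhds_iff_ball.mp (h1.and h2)
  let f : ContDiffBump s := ⟨r / 4, r / 2, by positivity, by linarith⟩
  obtain ⟨κ, hκ, hT⟩ := exists_TFn J (f := f) f.contDiff f.hasCompactSupport
  have hf0 : ∀ y, f y ≠ 0 → y ∈ ball s r := by
    intro y hy
    have : y ∈ Function.support f := hy
    rw [f.support_eq] at this
    exact ball_subset_ball (by change r / 2 ≤ r; linarith) this
  have hψ : Tst J ρ (fun y => κ * f y) := by
    refine ⟨hT, fun y hy => ?_, fun y => mul_nonneg hκ.le f.nonneg⟩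
    exact (hr' y (hf0 y (right_ne_zero_of_mul hy))).2.le
  have h3 := h _ hψ
  have h4 : 0 < ∫ y, -(Q y * (κ * f y)) := by
    refine Continuous.integral_pos_of_hasCompactSupport_nonneg_nonzero (x := s) ?_ ?_ ?_ ?_
    · exact (hQ.mul hψ.cont).neg
    · exact hψ.hcs.mul_left.neg
    · intro y
      change 0 ≤ -(Q y * (κ * f y))
      by_cases hy : f y = 0
      · rw [hy]; simp
      · have := (hr' y (hf0 y hy)).1
        have h5 : 0 ≤ κ * f y := mul_nonneg hκ.le f.nonneg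
        nlinarith
    · have h6 : f s = 1 := f.one_of_mem_closedBall (mem_closedBall_self (by positivity))
      rw [h6, mul_one]
      exact neg_ne_zero.mpr (mul_ne_zero hneg.ne hκ.ne')
  rw [integral_neg] at h4
  linarith

/-- the weight -/
noncomputable def wt0 (ρ : ℝ) (y : Sp n) : ℝ := Real.smoothTransition (ρ - ‖y‖)

lemma wt0_cont (ρ : ℝ) : Continuous (wt0 (n := n) ρ) :=
  Real.smoothTransition.continuous.comp (continuous_const.sub continuous_norm)

lemma wt0_nonneg (ρ : ℝ) (y : Sp n) : 0 ≤ wt0 ρ y := Real.smoothTransition.nonneg _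

lemma wt0_zero {ρ : ℝ} {y : Sp n} (h : ρ ≤ ‖y‖) : wt0 ρ y = 0 :=
  Real.smoothTransition.zero_of_nonpos (by linarith)

lemma wt0_one {ρ : ℝ} {y : Sp n} (h : ‖y‖ ≤ ρ - 1) : wt0 ρ y = 1 :=
  Real.smoothTransition.one_of_one_le (by linarith)

lemma wt0_hcs (ρ : ℝ) : HasCompactSupport (wt0 (n := n) ρ) := by
  refine HasCompactSupport.intro (isCompact_closedBall (0 : Sp n) ρ) fun y hy => ?_
  refine wt0_zero ?_
  rw [mem_closedBall_zero_iff, not_le] at hy
  exact hy.le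

/-- the quadratic functional -/
noncomputable def II (ρ : ℝ) (Q : Sp n → ℝ) (w : Sp n) (o : ℝ) : ℝ :=
  ∫ y, Q y * (wt0 ρ y * (⟪w, y⟫_ℝ + o) ^ 2)

lemma II_set (ρ : ℝ) (Q : Sp n → ℝ) (w : Sp n) (o : ℝ) :
    II ρ Q w o = ∫ y in closedBall (0 : Sp n) ρ, Q y * (wt0 ρ y * (⟪w, y⟫_ℝ + o) ^ 2) := by
  refine (setIntegral_eq_integral_of_forall_compl_eq_zero fun y hy => ?_).symm
  rw [mem_closedBall_zero_iff, not_le] at hy
  rw [wt0_zero hy.le]; simp

/-- admissible defects -/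
def Adm (J : ℕ) (ρ : ℝ) (Q : Sp n → ℝ) (τ : ℝ) : Prop :=
  0 ≤ τ ∧ ∀ ψ : Sp n → ℝ, Tst J ρ ψ → -τ ≤ ∫ y, Q y * ψ y

/-- positivity of the functional for nonnegative polynomials -/
lemma II_pos {m : ℕ} {ρ : ℝ} (hρ : 2 ≤ ρ) {Q : Sp n → ℝ} (hQ : ContDiff ℝ ∞ Q)
    (hQ' : ∀ x, iteratedFDeriv ℝ (m + 1) Q x = 0) (hne : ∃ x, Q x ≠ 0)
    (hpos : ∀ s, ‖s‖ < ρ → 0 ≤ Q s) (w : Sp n) (o : ℝ) (hwo : ‖w‖ ^ 2 + o ^ 2 = 1) :
    0 < II ρ Q w o := by
  have hcont : Continuous fun y => Q y * (wt0 ρ y * (⟪w, y⟫_ℝ + o) ^ 2) :=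
    hQ.continuous.mul ((wt0_cont ρ).mul (((continuous_const.inner continuous_id).add
      continuous_const).pow 2))
  have hnn : ∀ y, 0 ≤ Q y * (wt0 ρ y * (⟪w, y⟫_ℝ + o) ^ 2) := by
    intro y
    rcases lt_or_ge ‖y‖ ρ with h | h
    · exact mul_nonneg (hpos y h) (mul_nonneg (wt0_nonneg ρ y) (sq_nonneg _))
    · rw [wt0_zero h]; simp
  by_contra hI
  have hz : ∀ y, Q y * (wt0 ρ y * (⟪w, y⟫_ℝ + o) ^ 2) = 0 := by
    intro y
    by_contra hy
    refine hI (hcont.integral_pos_of_hasCompactSupport_nonneg_nonzero ?_ hnn hy)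
    exact ((wt0_hcs ρ).mul_right).mul_left
  -- a point where the affine function does not vanish
  obtain ⟨s1, hs1, hl1⟩ : ∃ s1 : Sp n, ‖s1‖ < 1 ∧ ⟪w, s1⟫_ℝ + o ≠ 0 := by
    by_cases ho : o = 0
    · refine ⟨(1 / 2 : ℝ) • w, ?_, ?_⟩
      · have : ‖w‖ = 1 := by
          rw [ho] at hwo
          have h0 := norm_nonneg w
          nlinarith
        rw [norm_smul, this]; norm_num
      · rw [ho, inner_smul_right, real_inner_self_eq_norm_sq]
        rw [ho] at hwo
        have : ‖w‖ ^ 2 = 1 := by linarith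
        rw [this]; norm_num
    · exact ⟨0, by simp, by simpa using ho⟩
  have hev : ∀ᶠ y in nhds s1, Q y = 0 := by
    have e1 : ∀ᶠ y in nhds s1, ‖y‖ < 1 := continuous_norm.continuousAt.eventually (gt_mem_nhds hs1)
    have e2 : ∀ᶠ y in nhds s1, ⟪w, y⟫_ℝ + o ≠ 0 :=
      ((continuous_const.inner continuous_id).add continuous_const).continuousAt.eventually_ne hl1
    filter_upwards [e1, e2] with y h1 h2
    have h3 := hz y
    rw [wt0_one (by linarith), one_mul] at h3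
    exact (mul_eq_zero.mp h3).resolve_right (pow_ne_zero 2 h2)
  obtain ⟨x, hx⟩ := hne
  exact hx (eq_zero_of_eventually hQ hQ' s1 hev x)

/-- compactness -/
theorem nc_unit (n m J : ℕ) {ρ : ℝ} (hρ : 2 ≤ ρ) (N : ℕ) (q : Fin N → Sp n → ℝ)
    (hq : ∀ i, ContDiff ℝ ∞ (q i)) (hq' : ∀ i x, iteratedFDeriv ℝ (m + 1) (q i) x = 0)
    (hli : ∀ a : Fin N → ℝ, (∀ x, ∑ i, a i * q i x = 0) → a = 0) :
    ∃ c C : ℝ, 0 < c ∧ 0 < C ∧ ∀ (a : Fin N → ℝ) (w : Sp n) (o : ℝ), ‖a‖ = 1 →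
      ‖w‖ ^ 2 + o ^ 2 = 1 → ∀ τ, Adm J ρ (fun y => ∑ i, a i * q i y) τ →
        c ≤ II ρ (fun y => ∑ i, a i * q i y) w o + C * τ := by
  classical
  let X := (Fin N → ℝ) × (Sp n × ℝ)
  let Qf : (Fin N → ℝ) → Sp n → ℝ := fun a y => ∑ i, a i * q i y
  have hQc : Continuous fun p : (Fin N → ℝ) × Sp n => Qf p.1 p.2 := by
    refine continuous_finsetSum _ fun i _ => ?_
    exact ((continuous_apply i).comp continuous_fst).mul ((hq i).continuous.comp continuous_snd)
  let I : X → ℝ := fun x => II ρ (Qf x.1) x.2.1 x.2.2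
  have hI : Continuous I := by
    have h1 : I = fun x : X => ∫ y in closedBall (0 : Sp n) ρ,
        Qf x.1 y * (wt0 ρ y * (⟪x.2.1, y⟫_ℝ + x.2.2) ^ 2) := by
      funext x; exact II_set _ _ _ _
    rw [h1]
    refine continuous_parametric_integral_of_continuous ?_ (isCompact_closedBall 0 ρ)
    refine Continuous.mul ?_ (Continuous.mul ?_ ?_)
    · exact hQc.comp ((continuous_fst.comp continuous_fst).prodMk continuous_snd)
    · exact (wt0_cont ρ).comp continuous_snd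
    · refine Continuous.pow (Continuous.add ?_ ?_) 2
      · exact (continuous_fst.comp (continuous_snd.comp continuous_fst)).inner continuous_snd
      · exact continuous_snd.comp (continuous_snd.comp continuous_fst)
  let K2 : Set (Sp n × ℝ) := {p | ‖p.1‖ ^ 2 + p.2 ^ 2 = 1}
  have hK2 : IsCompact K2 := by
    refine (isCompact_closedBall (0 : Sp n × ℝ) 1).of_isClosed_subset ?_ ?_
    · exact isClosed_eq (((continuous_norm.comp continuous_fst).pow 2).add
        (continuous_snd.pow 2)) continuous_const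
    · intro p hp
      have hp' : ‖p.1‖ ^ 2 + p.2 ^ 2 = 1 := hp
      rw [mem_closedBall_zero_iff, Prod.norm_def, max_le_iff]
      constructor
      · have := norm_nonneg p.1
        nlinarith [sq_nonneg p.2]
      · rw [Real.norm_eq_abs, abs_le_one_iff_mul_self_le_one]
        nlinarith [sq_nonneg ‖p.1‖]
  let K : Set X := sphere (0 : Fin N → ℝ) 1 ×ˢ K2
  have hK : IsCompact K := (isCompact_sphere 0 1).prod hK2
  let P : Set X → Prop := fun S => ∃ c C : ℝ, 0 < c ∧ 0 < C ∧ ∀ x ∈ S, ∀ τ,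
    Adm J ρ (Qf x.1) τ → c ≤ I x + C * τ
  have hP : P K := by
    refine hK.induction_on (p := P) ?_ ?_ ?_ ?_
    · exact ⟨1, 1, one_pos, one_pos, fun x hx => absurd hx (notMem_empty x)⟩
    · rintro S T hST ⟨c, C, hc, hC, h⟩
      exact ⟨c, C, hc, hC, fun x hx => h x (hST hx)⟩
    · rintro S T ⟨c, C, hc, hC, h⟩ ⟨c', C', hc', hC', h'⟩
      refine ⟨min c c', max C C', lt_min hc hc', lt_max_of_lt_left hC, ?_⟩
      rintro x (hx | hx) τ hτ
      · refine (min_le_left _ _).trans ((h x hx τ hτ).trans ?_)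
        have := mul_le_mul_of_nonneg_right (le_max_left C C') hτ.1
        linarith
      · refine (min_le_right _ _).trans ((h' x hx τ hτ).trans ?_)
        have := mul_le_mul_of_nonneg_right (le_max_right C C') hτ.1
        linarith
    · rintro x hx
      have hx1 : ‖x.1‖ = 1 := by simpa using hx.1
      have hx2 : ‖x.2.1‖ ^ 2 + x.2.2 ^ 2 = 1 := hx.2
      by_cases hcase : ∃ ψ : Sp n → ℝ, Tst J ρ ψ ∧ ∫ y, Qf x.1 y * ψ y < 0
      · obtain ⟨ψ, hψ, hneg⟩ := hcase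
        set δ : ℝ := -(∫ y, Qf x.1 y * ψ y) / 2 with hδ
        have hδ0 : 0 < δ := by rw [hδ]; linarith
        have hcψ : Continuous fun x' : X => ∫ y, Qf x'.1 y * ψ y := by
          have h1 : (fun x' : X => ∫ y, Qf x'.1 y * ψ y) = fun x' : X =>
              ∫ y in closedBall (0 : Sp n) ρ, Qf x'.1 y * ψ y := by
            funext x'
            refine (setIntegral_eq_integral_of_forall_compl_eq_zero fun y hy => ?_).symm
            rw [mem_closedBall_zero_iff] at hy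
            have : ψ y = 0 := by
              by_contra h0; exact hy (hψ.supp y h0)
            rw [this, mul_zero]
          rw [h1]
          refine continuous_parametric_integral_of_continuous ?_ (isCompact_closedBall 0 ρ)
          exact (hQc.comp ((continuous_fst.comp continuous_fst).prodMk continuous_snd)).mul
            (hψ.cont.comp continuous_snd)
        have hU1 : {x' : X | ∫ y, Qf x'.1 y * ψ y < -δ} ∈ nhds x := by
          refine hcψ.continuousAt.eventually (gt_mem_nhds ?_)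
          rw [hδ]; linarith
        have hU2 : {x' : X | I x - 1 < I x'} ∈ nhds x :=
          hI.continuousAt.eventually (lt_mem_nhds (by linarith))
        refine ⟨_, mem_nhdsWithin_of_mem_nhds (Filter.inter_mem hU1 hU2), 1, (|I x| + 2) / δ,
          one_pos, by positivity, ?_⟩
        rintro x' ⟨h1, h2⟩ τ hτ
        have h3 : -τ ≤ ∫ y, Qf x'.1 y * ψ y := hτ.2 ψ hψ
        have h1' : ∫ y, Qf x'.1 y * ψ y < -δ := h1
        have h2' : I x - 1 < I x' := h2
        have h4 : δ ≤ τ := by linarith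
        have h5 : |I x| + 2 ≤ (|I x| + 2) / δ * τ := by
          rw [div_mul_eq_mul_div, le_div_iff₀ hδ0]
          exact mul_le_mul_of_nonneg_left h4 (by positivity)
        have h6 := neg_abs_le (I x)
        linarith
      · push Not at hcase
        have hcont : Continuous (Qf x.1) :=
          continuous_finsetSum _ fun i _ => continuous_const.mul (hq i).continuous
        have hpos := nonneg_of_tests J hcont hcase
        have hs : ContDiff ℝ ∞ (Qf x.1) := ContDiff.sum fun i _ => contDiff_const.mul (hq i)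
        have hs' : ∀ y, iteratedFDeriv ℝ (m + 1) (Qf x.1) y = 0 := by
          intro y
          have hmem : (∑ i, x.1 i • q i) ∈ PolS n m :=
            Submodule.sum_mem _ fun i _ => Submodule.smul_mem _ _ ⟨hq i, hq' i⟩
          have e : Qf x.1 = ∑ i, x.1 i • q i := by
            funext y
            simp [Qf, Finset.sum_apply]
          rw [e]
          exact hmem.2 y
        have hne : ∃ y, Qf x.1 y ≠ 0 := by
          by_contra hall
          push Not at hall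
          have := hli x.1 hall
          rw [this] at hx1
          simp at hx1
        have hIpos : 0 < I x := II_pos hρ hs hs' hne hpos _ _ hx2
        refine ⟨_, mem_nhdsWithin_of_mem_nhds (hI.continuousAt.eventually
          (lt_mem_nhds (half_lt_self hIpos))), I x / 2, 1, by positivity, one_pos, ?_⟩
        intro x' hx' τ hτ
        have h1 : I x / 2 < I x' := hx'
        have := hτ.1
        linarith
  obtain ⟨c, C, hc, hC, h⟩ := hP
  refine ⟨c, C, hc, hC, fun a w o ha hwo τ hτ => ?_⟩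
  exact h (a, (w, o)) ⟨by simpa using ha, hwo⟩ τ hτ

lemma II_scale (ρ : ℝ) (Q : Sp n → ℝ) (w : Sp n) (o a b : ℝ) :
    II ρ (fun y => a * Q y) (b • w) (b * o) = a * b ^ 2 * II ρ Q w o := by
  rw [II, II, ← integral_const_mul]
  congr 1
  funext y
  rw [inner_smul_left]
  simp only [conj_trivial]
  ring

theorem nc_core (n m J : ℕ) {ρ : ℝ} (hρ : 2 ≤ ρ) : ∃ c0 C : ℝ, 0 < c0 ∧ 0 < C ∧
    ∀ Q : Sp n → ℝ, ContDiff ℝ ∞ Q → (∀ y, iteratedFDeriv ℝ (m + 1) Q y = 0) → ∀ τ, Adm J ρ Q τ →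
      ∀ (w : Sp n) (o : ℝ) (s0 : Sp n), ‖s0‖ ≤ ρ →
        c0 * |Q s0| * (‖w‖ ^ 2 + o ^ 2) ≤ II ρ Q w o + C * τ * (‖w‖ ^ 2 + o ^ 2) := by
  have hfd := fd_polS n m
  let b := Module.finBasis ℝ (PolS n m)
  obtain ⟨c, C, hc, hC, h⟩ := nc_unit n m J hρ _ (fun i => ((b i : PolS n m) : Sp n → ℝ))
    (fun i => (b i).2.1) (fun i => (b i).2.2) (by
      intro a ha
      have h1 : ∑ i, a i • b i = 0 := by
        ext x
        have := ha x
        simpa [Finset.sum_apply] using this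
      funext i
      exact Fintype.linearIndependent_iff.mp b.linearIndependent a h1 i)
  -- bound of the basis functions
  have hB : ∀ i, ∃ B : ℝ, ∀ s : Sp n, ‖s‖ ≤ ρ → |(b i : Sp n → ℝ) s| ≤ B := by
    intro i
    obtain ⟨B, hB⟩ := (isCompact_closedBall (0 : Sp n) ρ).exists_bound_of_continuousOn
      ((b i).2.1.continuous.continuousOn)
    exact ⟨B, fun s hs => by simpa using hB s (by simpa using hs)⟩
  choose B hB using hB
  set B0 : ℝ := ∑ i, |B i| + 1 with hB0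
  have hB0p : 0 < B0 := by
    have : 0 ≤ ∑ i, |B i| := Finset.sum_nonneg fun _ _ => abs_nonneg _
    linarith
  refine ⟨c / B0, C, by positivity, hC, ?_⟩
  intro Q hQ hQ' τ hτ w o s0 hs0
  set a : Fin (Module.finrank ℝ (PolS n m)) → ℝ := fun i => b.repr ⟨Q, hQ, hQ'⟩ i with ha
  have hQa : ∀ y, Q y = ∑ i, a i * (b i : Sp n → ℝ) y := by
    intro y
    have h2 : (∑ i, a i • b i) = (⟨Q, hQ, hQ'⟩ : PolS n m) := b.sum_repr _
    have h3 : ((∑ i, a i • b i : PolS n m) : Sp n → ℝ) y = Q y := by rw [h2]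
    rw [← h3, Submodule.coe_sum, Finset.sum_apply]
    rfl
  have hτ0 := hτ.1
  have hwo : 0 ≤ ‖w‖ ^ 2 + o ^ 2 := by positivity
  rcases (norm_nonneg a).eq_or_lt with ha0 | ha0
  · have ha1 : a = 0 := norm_eq_zero.mp ha0.symm
    have hQ0 : ∀ y, Q y = 0 := by
      intro y; rw [hQa y, ha1]; simp
    have hI0 : II ρ Q w o = 0 := by
      rw [II]; simp [hQ0]
    rw [hI0, hQ0]
    simp only [abs_zero, mul_zero, zero_mul, zero_add]
    positivity
  rcases hwo.eq_or_lt with hw0 | hw0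
  · have hw1 : ‖w‖ = 0 := by nlinarith [norm_nonneg w, sq_nonneg o, sq_nonneg ‖w‖]
    have ho1 : o = 0 := by nlinarith [norm_nonneg w, sq_nonneg o, sq_nonneg ‖w‖]
    have hw2 : w = 0 := norm_eq_zero.mp hw1
    have hI0 : II ρ Q w o = 0 := by
      rw [II, hw2, ho1]; simp
    rw [hI0, ← hw0]; simp
  set μ : ℝ := √(‖w‖ ^ 2 + o ^ 2) with hμ
  have hμ0 : 0 < μ := Real.sqrt_pos.mpr hw0
  have hμ2 : μ ^ 2 = ‖w‖ ^ 2 + o ^ 2 := Real.sq_sqrt hwo
  have key := h (fun i => ‖a‖⁻¹ * a i) (μ⁻¹ • w) (μ⁻¹ * o) (by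
      have : (fun i => ‖a‖⁻¹ * a i) = ‖a‖⁻¹ • a := rfl
      rw [this, norm_smul, norm_inv, norm_norm, inv_mul_cancel₀ ha0.ne']) (by
      rw [norm_smul, norm_inv, Real.norm_of_nonneg hμ0.le, mul_pow, mul_pow, ← mul_add, ← hμ2]
      field_simp) (‖a‖⁻¹ * τ) (by
      have e : (fun y => ∑ i, ‖a‖⁻¹ * a i * (b i : Sp n → ℝ) y) = fun y => ‖a‖⁻¹ * Q y := by
        funext y
        rw [hQa y, Finset.mul_sum]
        exact Finset.sum_congr rfl fun i _ => by ring
      rw [e]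
      refine ⟨by positivity, fun ψ hψ => ?_⟩
      have h1 := hτ.2 ψ hψ
      have e2 : (fun y => ‖a‖⁻¹ * Q y * ψ y) = fun y => ‖a‖⁻¹ * (Q y * ψ y) := by
        funext y; ring
      rw [e2, integral_const_mul, ← mul_neg]
      exact mul_le_mul_of_nonneg_left h1 (by positivity))
  have e : (fun y => ∑ i, ‖a‖⁻¹ * a i * (b i : Sp n → ℝ) y) = fun y => ‖a‖⁻¹ * Q y := by
    funext y
    rw [hQa y, Finset.mul_sum]
    exact Finset.sum_congr rfl fun i _ => by ring
  rw [e, II_scale] at key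
  have h1 : c * (‖a‖ * μ ^ 2) ≤ II ρ Q w o + C * τ * μ ^ 2 := by
    have h2 := mul_le_mul_of_nonneg_right key (show 0 ≤ ‖a‖ * μ ^ 2 by positivity)
    refine h2.trans (le_of_eq ?_)
    field_simp
  have h3 : |Q s0| ≤ ‖a‖ * B0 := by
    rw [hQa s0]
    refine (Finset.abs_sum_le_sum_abs _ _).trans ?_
    have : ∑ i, |a i * (b i : Sp n → ℝ) s0| ≤ ∑ i, ‖a‖ * |B i| := by
      refine Finset.sum_le_sum fun i _ => ?_
      rw [abs_mul]
      refine mul_le_mul ?_ ((hB i s0 hs0).trans (le_abs_self _)) (abs_nonneg _) (norm_nonneg _)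
      have := norm_le_pi_norm a i
      simpa using this
    refine this.trans ?_
    rw [← Finset.mul_sum, hB0]
    exact mul_le_mul_of_nonneg_left (by linarith) (norm_nonneg _)
  rw [← hμ2]
  refine le_trans ?_ h1
  have h4 : c / B0 * |Q s0| ≤ c * ‖a‖ := by
    rw [div_mul_eq_mul_div, div_le_iff₀ hB0p]
    have := mul_le_mul_of_nonneg_left h3 hc.le
    linarith
  have h5 := mul_le_mul_of_nonneg_right h4 (sq_nonneg μ)
  linarith

end Core

/-! ## Coordinates on the plane -/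

section Plane

variable {n : ℕ}

lemma norm_tang_le' {d : ℕ} {ν : Sp d} (hν : ‖ν‖ = 1) (y : Sp d) : ‖tang ν y‖ ≤ ‖y‖ := by
  have h1 : ‖tang ν y‖ ^ 2 = ‖y‖ ^ 2 - ⟪ν, y⟫_ℝ ^ 2 := by
    rw [tang, norm_sub_sq_real, norm_smul, hν, inner_smul_right, real_inner_comm]
    simp only [Real.norm_eq_abs, mul_one, sq_abs]
    ring
  have h2 : ‖tang ν y‖ ^ 2 ≤ ‖y‖ ^ 2 := by rw [h1]; nlinarith [sq_nonneg ⟪ν, y⟫_ℝ]
  exact le_of_sq_le_sq h2 (norm_nonneg _)

/-- isometric parametrisation of ν^perp -/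
theorem exists_param (ν : Sp (n + 1)) (hν : ‖ν‖ = 1) :
    ∃ (ι : Sp n →L[ℝ] Sp (n + 1)) (π : Sp (n + 1) →L[ℝ] Sp n),
      (∀ s, ‖ι s‖ = ‖s‖) ∧ (∀ y, ‖π y‖ = ‖tang ν y‖) ∧ (∀ y, ι (π y) = tang ν y) ∧
      (∀ s, π (ι s) = s) ∧ (∀ w s, ⟪w, ι s⟫_ℝ = ⟪π w, s⟫_ℝ) ∧
      (∀ s, ⟪ν, ι s⟫_ℝ = 0) ∧
      (∀ (c : ℝ) (F : Sp (n + 1) → ℝ), plInt ν c F = ∫ s, F (c • ν + ι s)) := by
  have hν0 : ν ≠ 0 := by
    intro h; rw [h] at hν; simp at hν
  have : Fact (Module.finrank ℝ (Sp (n + 1)) = n + 1) := ⟨by simp⟩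
  let β := OrthonormalBasis.fromOrthogonalSpanSingleton (𝕜 := ℝ) n hν0
  let e : Sp n ≃ₗᵢ[ℝ] (Submodule.span ℝ {ν})ᗮ := β.repr.symm
  let K : Submodule ℝ (Sp (n + 1)) := (Submodule.span ℝ {ν})ᗮ
  let ι : Sp n →L[ℝ] Sp (n + 1) := K.subtypeL.comp (e : Sp n →L[ℝ] K)
  let pr : Sp (n + 1) →L[ℝ] K := K.orthogonalProjectionOnto
  let π : Sp (n + 1) →L[ℝ] Sp n := (e.symm : K →L[ℝ] Sp n).comp pr
  have hpr : ∀ y, (pr y : Sp (n + 1)) = tang ν y := by
    intro y
    have h1 : (pr y : Sp (n + 1)) = y - (Submodule.span ℝ {ν}).starProjection y := by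
      exact Submodule.starProjection_orthogonal_val y
    rw [h1, Submodule.starProjection_unit_singleton ℝ hν, tang]
  have hιπ : ∀ y, ι (π y) = tang ν y := by
    intro y
    have : ι (π y) = ((e (e.symm (pr y)) : K) : Sp (n + 1)) := rfl
    rw [this, e.apply_symm_apply, hpr]
  have hι : ∀ s, ‖ι s‖ = ‖s‖ := fun s => e.norm_map s
  have hπι : ∀ s, π (ι s) = s := by
    intro s
    have : π (ι s) = e.symm (pr ((e s : K) : Sp (n + 1))) := rfl
    rw [this, Submodule.orthogonalProjectionOnto_mem_subspace_eq_self, e.symm_apply_apply]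
  have hνι : ∀ s, ⟪ν, ι s⟫_ℝ = 0 := by
    intro s
    exact (Submodule.mem_orthogonal_singleton_iff_inner_right).mp (e s).2
  refine ⟨ι, π, hι, fun y => ?_, hιπ, hπι, fun w s => ?_, hνι, fun c F => ?_⟩
  · rw [← hι (π y), hιπ]
  · have h1 : ⟪w, ι s⟫_ℝ = ⟪tang ν w, ι s⟫_ℝ := by
      rw [tang, inner_sub_left, inner_smul_left, hνι]; simp
    have h2 : ∀ a b : Sp n, ⟪ι a, ι b⟫_ℝ = ⟪a, b⟫_ℝ := fun a b => e.inner_map_map a b
    rw [h1, ← hιπ, h2]
  · rw [plInt]
    have := (e.measurePreserving).integral_comp e.toHomeomorph.measurableEmbedding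
      (fun y : (Submodule.span ℝ {ν})ᗮ => F (c • ν + (y : Sp (n + 1))))
    exact this.symm

end Plane

theorem stmtNC_aux (n : ℕ) (m J : ℕ) (ρ : ℝ) (hρ : 2 ≤ ρ) : ∃ (c0 C : ℝ), 0 < c0 ∧ 0 < C ∧
    ∀ (ν p : Sp (n + 1)) (c : ℝ), ‖ν‖ = 1 → ∀ P : Sp (n + 1) → ℝ, ContDiff ℝ ∞ P →
      (∀ y, iteratedFDeriv ℝ (m + 1) P y = 0) → ∀ τ : ℝ, 0 ≤ τ →
      (∀ ψ : Sp (n + 1) → ℝ, TFn J 1 ψ → (∀ y, ψ y = ψ (tang ν y)) →
        (∀ y, ψ y ≠ 0 → ‖tang ν (y - p)‖ ≤ ρ) → (∀ y, 0 ≤ ψ y) →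
        -τ ≤ plInt ν c (fun y => P y * ψ y)) →
      ∀ (w : Sp (n + 1)) (o : ℝ) (y0 : Sp (n + 1)), ⟪ν, y0⟫_ℝ = c → ‖tang ν (y0 - p)‖ ≤ ρ →
        c0 * |P y0| * (‖tang ν w‖ ^ 2 + o ^ 2) ≤
          plInt ν c (fun y => P y *
            (zR (ρ - 1) (tang ν (y - p)) * (⟪w, tang ν (y - p)⟫_ℝ + o) ^ 2)) +
          C * τ * (‖tang ν w‖ ^ 2 + o ^ 2) := by
  obtain ⟨c0, C, hc0, hC, h⟩ := nc_core n m J hρ
  refine ⟨c0, C, hc0, hC, ?_⟩
  intro ν p c hν P hP hP' τ hτ hψ w o y0 hy0 hy0'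
  obtain ⟨ι, π, hι, hπ, hιπ, hπι, hadj, hνι, hint⟩ := exists_param ν hν
  set q : Sp (n + 1) := c • ν + tang ν p with hq
  set sp : Sp n := π p with hsp
  -- plane integrals in coordinates centred at p
  have hint' : ∀ F : Sp (n + 1) → ℝ, plInt ν c F = ∫ s, F (q + ι s) := by
    intro F
    rw [hint, ← integral_add_right_eq_self _ sp]
    congr 1
    funext s
    rw [map_add, hsp, hιπ, hq]
    congr 1
    abel
  have hπν : π ν = 0 := by
    rw [← norm_eq_zero, hπ, tang, real_inner_self_eq_norm_sq, hν]; simp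
  have htang : ∀ y, tang ν y = ι (π y) := fun y => (hιπ y).symm
  have hπq : ∀ s, π (q + ι s - p) = s := by
    intro s
    rw [map_sub, map_add, hq, map_add, map_smul, hπν, htang, hπι, hπι]
    simp
  -- the polynomial
  set Q : Sp n → ℝ := fun s => P (q + ι s) with hQdef
  have hQ : ContDiff ℝ ∞ Q := hP.comp (contDiff_const.add ι.contDiff)
  have hQ' : ∀ s, iteratedFDeriv ℝ (m + 1) Q s = 0 := by
    intro s
    have e1 : Q = (fun y => P (q + y)) ∘ ι := rfl
    have hPq : ContDiff ℝ ((m + 1 : ℕ) : WithTop ℕ∞) (fun y => P (q + y)) :=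
      (hP.of_le (nle _)).comp (contDiff_const.add contDiff_id)
    rw [e1, ContinuousLinearMap.iteratedFDeriv_comp_right ι hPq s le_rfl]
    rw [iteratedFDeriv_comp_add_left, hP']
    ext v
    simp
  have hAdm : Adm J ρ Q τ := by
    refine ⟨hτ, fun ψ hψt => ?_⟩
    set Ψ : Sp (n + 1) → ℝ := fun y => ψ (π (y - p)) with hΨ
    have h1 : -τ ≤ plInt ν c (fun y => P y * Ψ y) := by
      refine hψ Ψ ⟨?_, ?_⟩ ?_ ?_ ?_
      · exact hψt.tf.smooth.comp (π.contDiff.comp (contDiff_id.sub contDiff_const))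
      · intro j hj y
        have e1 : Ψ = fun y => (ψ ∘ π) (y - p) := rfl
        rw [e1, iteratedFDeriv_comp_sub, ContinuousLinearMap.iteratedFDeriv_comp_right
          (n := ((J : ℕ) : WithTop ℕ∞)) π hψt.tf.smooth _ (by exact_mod_cast hj)]
        refine (ContinuousMultilinearMap.norm_compContinuousLinearMap_le _ _).trans ?_
        have hπ1 : ‖π‖ ≤ 1 := by
          refine ContinuousLinearMap.opNorm_le_bound _ zero_le_one fun y => ?_
          rw [one_mul, hπ]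
          exact norm_tang_le' hν y
        have h2 : ∏ i : Fin j, ‖π‖ ≤ 1 := Finset.prod_le_one (fun _ _ => norm_nonneg _)
          (fun _ _ => hπ1)
        calc _ ≤ 1 * (1 : ℝ) := mul_le_mul (hψt.tf.bd j hj _) h2
              (Finset.prod_nonneg fun _ _ => norm_nonneg _) zero_le_one
          _ = 1 := one_mul 1
      · intro y
        have : π (tang ν y - p) = π (y - p) := by
          rw [map_sub, map_sub, htang, hπι]
        rw [hΨ]; simp only [this]
      · intro y hy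
        rw [← hπ]
        exact hψt.supp _ hy
      · intro y; exact hψt.nonneg _
    rw [hint'] at h1
    have e2 : (fun s => P (q + ι s) * Ψ (q + ι s)) = fun s => Q s * ψ s := by
      funext s
      rw [hΨ]; simp only [hπq]; rfl
    rwa [e2] at h1
  -- the point
  set s0 : Sp n := π (y0 - p) with hs0
  have hs0' : ‖s0‖ ≤ ρ := by rw [hs0, hπ]; exact hy0'
  have hQs0 : Q s0 = P y0 := by
    rw [hQdef]
    simp only
    congr 1
    rw [hs0, map_sub, map_sub, hιπ, hιπ, hq, tang, tang, hy0]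
    abel
  have key := h Q hQ hQ' τ hAdm (π w) o s0 hs0'
  rw [hQs0, hπ] at key
  refine key.trans (le_of_eq ?_)
  congr 1
  rw [hint', II]
  congr 1
  funext s
  have e3 : tang ν (q + ι s - p) = ι s := by rw [htang, hπq]
  rw [e3, hadj, hQdef]
  simp only [zR, wt0, hι]
  congr 3
  ring_nf

end NCm

theorem stmtNC : StmtNC := by
  intro d hd m J ρ hρ
  obtain ⟨n, rfl⟩ : ∃ n, d = n + 1 := ⟨d - 1, by omega⟩
  exact NCm.stmtNC_aux n m J ρ hρ

end TG
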