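import Pool.Agent.TG.Stmts11
import Pool.Agent.TG.PTb
set_option autoImplicit false

/-!
# MODULE NF (6.3): cells which are not near
-/

open MeasureTheory Metric Set TrI Filter
open scoped InnerProductSpace ContDiff Topology

namespace TG

noncomputable section

namespace NF

variable {d : ℕ}

/-- comparison of v at y and at 0 -/
lemma vv_le {μ : Measure (Sp d)} {Q : ℝ} (hQ : 1 ≤ Q)
    (hH : ∀ (t : ℝ) (x x' : Sp d), 0 < t → th μ t x' ≤ (1 + ‖x - x'‖ / t) ^ d * th μ t x)
    (hpos : ∀ (t : ℝ) (x : Sp d), 0 < t → 0 < th μ t x) {x y : Sp d}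
    (hxy : (1 + ‖x - y‖) ^ d ≤ Q) : vv μ 1 y ≤ Q * vv μ 1 x := by
  have h1 := hH 1 x y one_pos
  rw [div_one] at h1
  have h2 : th μ 1 y ≤ Q ^ 2 * th μ 1 x := by
    refine h1.trans (mul_le_mul_of_nonneg_right ?_ (hpos 1 x one_pos).le)
    nlinarith
  unfold vv
  calc Real.sqrt (th μ 1 y) ≤ Real.sqrt (Q ^ 2 * th μ 1 x) := Real.sqrt_le_sqrt h2
    _ = Q * Real.sqrt (th μ 1 x) := by
        rw [Real.sqrt_mul (sq_nonneg Q), Real.sqrt_sq (by linarith)]

lemma norm_iteratedFDeriv_const_le (a : ℝ) (j : ℕ) (y : Sp d) :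
    ‖iteratedFDeriv ℝ j (fun _ : Sp d => a) y‖ ≤ |a| := by
  rcases Nat.eq_zero_or_pos j with h | h
  · subst h
    rw [norm_iteratedFDeriv_zero, Real.norm_eq_abs]
  · rw [iteratedFDeriv_const_of_ne h.ne']
    simp

/-- derivatives of chi times a function which is only bounded on the support of chi -/
lemma chi_mul_bd (hd : 1 ≤ d) {N : ℝ} (hN : TFn 2 N (chi : Sp d → ℝ)) {g : Sp d → ℝ} {B : ℝ}
    (hg : ContDiff ℝ 2 g) (hB0 : 0 ≤ B)
    (hB : ∀ j ≤ 2, ∀ y : Sp d, ‖y‖ ≤ d → ‖iteratedFDeriv ℝ j g y‖ ≤ B) (y : Sp d) :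
    ‖iteratedFDeriv ℝ 2 (fun y => chi y * g y) y‖ ≤ 4 * N * B := by
  have hN0 : 0 ≤ N := PTm.TFn.nonneg hN
  by_cases hy : ‖y‖ ≤ d
  · refine (norm_iteratedFDeriv_mul_le hN.smooth hg y (n := 2) le_rfl).trans ?_
    have h1 : ∀ i ∈ Finset.range 3, ((2 : ℕ).choose i : ℝ) * ‖iteratedFDeriv ℝ i chi y‖ *
        ‖iteratedFDeriv ℝ (2 - i) g y‖ ≤ ((2 : ℕ).choose i : ℝ) * (N * B) := by
      intro i hi
      rw [Finset.mem_range] at hi
      rw [mul_assoc]
      refine mul_le_mul_of_nonneg_left ?_ (Nat.cast_nonneg _)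
      exact mul_le_mul (hN.bd i (by omega) y) (hB (2 - i) (by omega) y hy) (norm_nonneg _) hN0
    refine (Finset.sum_le_sum h1).trans (le_of_eq ?_)
    rw [← Finset.sum_mul]
    norm_num [Finset.sum_range_succ]
    ring
  · push Not at hy
    have hop : IsOpen {z : Sp d | (d : ℝ) < ‖z‖} := isOpen_lt continuous_const continuous_norm
    have hev : (fun y => chi y * g y) =ᶠ[𝓝 y] fun _ => (0 : ℝ) := by
      filter_upwards [hop.mem_nhds hy] with z hz
      rw [PTm.chi_supp (le_of_lt hz) hd, zero_mul]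
    rw [(hev.iteratedFDeriv ℝ 2).eq_of_nhds]
    refine (norm_iteratedFDeriv_const_le 0 2 y).trans ?_
    rw [abs_zero]
    positivity

end NF

/-- MODULE NF -/
theorem stmtNF (hTH : StmtTH) (hUB : StmtUB) : StmtNF := by
  intro d J hd hJ M C' ε p0 A c hC' hε hε4 hF
  have hd1 : 1 ≤ d := by omega
  obtain ⟨C1, hC1, hub⟩ := hUB d 2 hd M C' ε p0 A hC' hε (by linarith) hF.p0_pos hF.p0_le hF.A_ge
  obtain ⟨CT, hCT, hth⟩ := hTH d 2 hd C' hC'
  obtain ⟨N, hN, hNT⟩ := PTm.chi_TFn (d := d) hd1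
  have hcp := hF.c_pos
  set Q : ℝ := (1 + d) ^ d with hQ
  have hQ1 : 1 ≤ Q := by
    rw [hQ]
    exact one_le_pow₀ (by linarith [Nat.cast_nonneg (α := ℝ) d])
  have hQ0 : 0 < Q := by linarith
  set K : ℝ := 4 * (N + 1) * (C1 * Q + c / Q) with hK
  have hK0 : 0 < K := by positivity
  refine ⟨c / Q, K, by positivity, hK0, ?_⟩
  intro β hβ μ hμ m D hm hD hZ hq
  obtain ⟨hpos, -, -, hHar, -⟩ := hth μ hμ
  obtain ⟨-, hGs, -, hGb, -⟩ := hub β (PTm.kit_mono (by omega) hβ) μ hμ
  have hpos' : ∀ (t : ℝ) (x : Sp d), 0 < t → 0 < th μ t x := fun t x ht => (hpos t x ht).1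
  set v0 : ℝ := vv μ 1 0 with hv0
  have hv0p : 0 < v0 := Real.sqrt_pos.mpr (hpos' 1 0 one_pos)
  have hvy : ∀ y : Sp d, ‖y‖ ≤ d → vv μ 1 y ≤ Q * v0 := by
    intro y hy
    refine NF.vv_le hQ1 hHar hpos' ?_
    rw [zero_sub, norm_neg, hQ]
    exact pow_le_pow_left₀ (by positivity) (by linarith) d
  have hv0y : ∀ y : Sp d, ‖y‖ ≤ d → v0 ≤ Q * vv μ 1 y := by
    intro y hy
    refine NF.vv_le hQ1 hHar hpos' ?_
    rw [sub_zero, hQ]
    exact pow_le_pow_left₀ (by positivity) (by linarith) d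
  set g : Sp d → ℝ := fun y => GG β ε μ 1 y - c / Q * v0 with hg
  have hg2 : ContDiff ℝ 2 (GG β ε μ 1) := by exact_mod_cast contDiff_infty.mp hGs 2
  have hgs : ContDiff ℝ 2 g := hg2.sub contDiff_const
  have hgb : ∀ j ≤ 2, ∀ y : Sp d, ‖y‖ ≤ d →
      ‖iteratedFDeriv ℝ j g y‖ ≤ (C1 * Q + c / Q) * v0 := by
    intro j hj y hy
    have e1 : g = GG β ε μ 1 + fun _ => -(c / Q * v0) := by
      funext z
      simp only [hg, Pi.add_apply]
      ring
    have c1 : ContDiff ℝ j (GG β ε μ 1) := hg2.of_le (by exact_mod_cast hj)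
    rw [e1, iteratedFDeriv_add_apply c1.contDiffAt contDiff_const.contDiffAt]
    refine (norm_add_le _ _).trans ?_
    have h1 := hGb j hj y
    have h2 := NF.norm_iteratedFDeriv_const_le (d := d) (-(c / Q * v0)) j y
    rw [abs_neg, abs_of_nonneg (by positivity)] at h2
    have h3 : C1 * vv μ 1 y ≤ C1 * (Q * v0) := mul_le_mul_of_nonneg_left (hvy y hy) hC1.le
    linarith
  have hKv : 0 < K * v0 := by positivity
  have hHb := fun y => NF.chi_mul_bd hd1 hNT hgs (B := (C1 * Q + c / Q) * v0) (by positivity) hgb y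
  have hg0 : ∀ y, chi y ≠ 0 → 0 ≤ g y := by
    intro y hy
    have hyd : ‖y‖ ≤ d := by
      by_contra hcon
      push Not at hcon
      exact hy (PTm.chi_supp hcon.le hd1)
    obtain ⟨n, hn⟩ : ∃ n : Sp d, ‖n‖ = 1 :=
      ⟨EuclideanSpace.single ⟨0, hd1⟩ (1 : ℝ), by simp⟩
    have h1 := (hF.far β hβ μ hμ n hn y (hq y hy)).2
    have h2 : c / Q * v0 ≤ c * vv μ 1 y := by
      rw [div_mul_eq_mul_div, div_le_iff₀ hQ0]
      have := mul_le_mul_of_nonneg_left (hv0y y hyd) hcp.le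
      linarith
    simp only [hg]
    linarith
  have hH := hZ (fun y => (1 / (K * v0)) * (chi y * g y)) ?_ ?_ ?_ ?_ ?_
  · have hchc : Continuous (chi : Sp d → ℝ) := PTm.chi_contDiff.continuous
    have hchs : HasCompactSupport (chi : Sp d → ℝ) :=
      HasCompactSupport.intro (isCompact_closedBall (0 : Sp d) d) fun x hx => PTm.chi_supp (by
        rw [mem_closedBall, dist_zero_right, not_le] at hx
        exact hx.le) hd1
    have i1 : Integrable fun y => m y * (chi y * GG β ε μ 1 y) :=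
      (hm.mul (hchc.mul hg2.continuous)).integrable_of_hasCompactSupport hchs.mul_right.mul_left
    have i2 : Integrable fun y => c / Q * v0 * (m y * chi y) :=
      ((hm.mul hchc).integrable_of_hasCompactSupport hchs.mul_left).const_mul _
    have e1 : ∫ y, m y * (1 / (K * v0) * (chi y * g y)) =
        1 / (K * v0) * ((∫ y, m y * (chi y * GG β ε μ 1 y)) - c / Q * v0 * ∫ y, m y * chi y) := by
      rw [← integral_const_mul (c / Q * v0), ← integral_sub i1 i2, ← integral_const_mul]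
      congr 1
      ext y
      simp only [hg]
      ring
    rw [e1] at hH
    have h3 := mul_le_mul_of_nonneg_left hH hKv.le
    rw [← mul_assoc (K * v0) (1 / (K * v0)), mul_one_div_cancel hKv.ne', one_mul] at h3
    linarith
  · exact contDiff_const.mul (PTm.chi_contDiff.mul hgs)
  · intro y
    by_cases hy : chi y = 0
    · simp [hy]
    · exact mul_nonneg (by positivity) (mul_nonneg (PTm.chi_nonneg y) (hg0 y hy))
  · intro y
    by_cases hy : chi y = 0
    · simp [hy]
    · have hyd : ‖y‖ ≤ d := by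
        by_contra hcon
        push Not at hcon
        exact hy (PTm.chi_supp hcon.le hd1)
      have h1 := hgb 0 (by norm_num) y hyd
      rw [norm_iteratedFDeriv_zero, Real.norm_eq_abs] at h1
      have h2 := le_abs_self (g y)
      have h3 := PTm.chi_le_one y
      have h4 := hg0 y hy
      have h5 := PTm.chi_nonneg y
      have h6 : chi y * g y ≤ g y := mul_le_of_le_one_left h4 h3
      have h7 : (C1 * Q + c / Q) * v0 ≤ K * v0 := by
        refine mul_le_mul_of_nonneg_right ?_ hv0p.le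
        rw [hK]
        have h8 : 0 < C1 * Q + c / Q := by positivity
        nlinarith
      rw [one_div, inv_mul_le_iff₀ hKv, mul_one]
      linarith
  · intro y
    have e1 : (fun y => 1 / (K * v0) * (chi y * g y)) = (1 / (K * v0)) • fun y => chi y * g y := rfl
    have c1 : ContDiff ℝ 2 fun y => chi y * g y := PTm.chi_contDiff.mul hgs
    rw [e1, iteratedFDeriv_const_smul_apply c1.contDiffAt, norm_smul,
      Real.norm_of_nonneg (by positivity)]
    rw [one_div, inv_mul_le_iff₀ hKv, mul_one]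
    refine (hHb y).trans ?_
    rw [hK]
    have h8 : 0 < (C1 * Q + c / Q) * v0 := by positivity
    nlinarith
  · intro y hy
    rw [PTm.chi_supp (by linarith) hd1, zero_mul, mul_zero]

end

end TG
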