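import Pool.Agent.TG.Stmts2
import Pool.Agent.TG.ZZ
import Pool.Agent.TG.MA

/-!
# Trace inequality, general operators: calculus of test functions (helper74)

CB J N g: all derivatives up to order J of g : X → F are bounded by N (X arbitrary).
On Sp d this is TFn J N g.  No double quotes.
-/

open MeasureTheory Metric Set TrI
open scoped InnerProductSpace ContDiff

namespace TG

namespace TC

noncomputable section

/-- derivatives up to order J bounded by N -/
structure CB {X F : Type*} [NormedAddCommGroup X] [NormedSpace ℝ X] [NormedAddCommGroup F]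
    [NormedSpace ℝ F] (J : ℕ) (N : ℝ) (g : X → F) : Prop where
  smooth : ContDiff ℝ J g
  bd : ∀ j ≤ J, ∀ x, ‖iteratedFDeriv ℝ j g x‖ ≤ N

section Gen

variable {X Y F G : Type*} [NormedAddCommGroup X] [NormedSpace ℝ X]
  [NormedAddCommGroup Y] [NormedSpace ℝ Y] [NormedAddCommGroup F]
  [NormedSpace ℝ F] [NormedAddCommGroup G] [NormedSpace ℝ G] {J : ℕ} {N N' : ℝ}

lemma CB.nonneg {g : X → F} (h : CB J N g) : 0 ≤ N :=
  (norm_nonneg _).trans (h.bd 0 (Nat.zero_le _) 0)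

lemma CB.mono {g : X → F} (h : CB J N g) (hN : N ≤ N') : CB J N' g :=
  ⟨h.smooth, fun j hj x => (h.bd j hj x).trans hN⟩

lemma CB.le {J' : ℕ} {g : X → F} (h : CB J N g) (hJ : J' ≤ J) : CB J' N g :=
  ⟨h.smooth.of_le (by exact_mod_cast hJ), fun j hj x => h.bd j (hj.trans hJ) x⟩

lemma CB.norm_le {g : X → F} (h : CB J N g) (x : X) : ‖g x‖ ≤ N := by
  have := h.bd 0 (Nat.zero_le _) x
  simpa using this

lemma CB.abs_le {g : X → ℝ} (h : CB J N g) (x : X) : |g x| ≤ N := h.norm_le x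

lemma CB.const (c : F) : CB J ‖c‖ (fun _ : X => c) := by
  refine ⟨contDiff_const, fun j _ x => ?_⟩
  rcases Nat.eq_zero_or_pos j with rfl | hj
  · simp
  · rw [iteratedFDeriv_const_of_ne (by omega)]
    simp

lemma CB.add {g h : X → F} (hg : CB J N g) (hh : CB J N' h) :
    CB J (N + N') (fun x => g x + h x) := by
  refine ⟨hg.smooth.add hh.smooth, fun j hj x => ?_⟩
  have := iteratedFDeriv_add_apply (𝕜 := ℝ) (i := j) (x := x) (f := g) (g := h)
    ((hg.smooth.of_le (by exact_mod_cast hj)).contDiffAt)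
    ((hh.smooth.of_le (by exact_mod_cast hj)).contDiffAt)
  have e : (fun x => g x + h x) = g + h := rfl
  rw [e, this]
  exact (norm_add_le _ _).trans (add_le_add (hg.bd j hj x) (hh.bd j hj x))

lemma CB.neg {g : X → F} (hg : CB J N g) : CB J N (fun x => -g x) := by
  refine ⟨hg.smooth.neg, fun j hj x => ?_⟩
  have e : (fun x => -g x) = -g := rfl
  rw [e, iteratedFDeriv_neg_apply, norm_neg]
  exact hg.bd j hj x

lemma CB.sub {g h : X → F} (hg : CB J N g) (hh : CB J N' h) :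
    CB J (N + N') (fun x => g x - h x) := by
  have := hg.add hh.neg
  simpa [sub_eq_add_neg] using this

lemma CB.const_smul {g : X → F} (hg : CB J N g) (c : ℝ) : CB J (|c| * N) (fun x => c • g x) := by
  refine ⟨contDiff_const.smul hg.smooth, fun j hj x => ?_⟩
  have e : (fun x => c • g x) = c • g := rfl
  rw [e, iteratedFDeriv_const_smul_apply
    ((hg.smooth.of_le (by exact_mod_cast hj)).contDiffAt), norm_smul, Real.norm_eq_abs]
  exact mul_le_mul_of_nonneg_left (hg.bd j hj x) (abs_nonneg c)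

lemma CB.const_mul {g : X → ℝ} (hg : CB J N g) (c : ℝ) : CB J (|c| * N) (fun x => c * g x) :=
  hg.const_smul c

lemma CB.sum {ι : Type*} (s : Finset ι) {g : ι → X → F} {n : ι → ℝ}
    (h : ∀ i ∈ s, CB J (n i) (g i)) : CB J (∑ i ∈ s, n i) (fun x => ∑ i ∈ s, g i x) := by
  classical
  induction s using Finset.induction with
  | empty => simpa using CB.const (X := X) (J := J) (0 : F)
  | insert i s hi IH =>
    simp only [Finset.sum_insert hi]
    exact (h i (Finset.mem_insert_self _ _)).add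
      (IH fun j hj => h j (Finset.mem_insert_of_mem hj))

lemma choose_bound {j : ℕ} (hj : j ≤ J) {N N' : ℝ} (a b : ℕ → ℝ)
    (ha : ∀ i ≤ J, a i ≤ N) (hb : ∀ i ≤ J, b i ≤ N') (ha0 : ∀ i, 0 ≤ a i) (hb0 : ∀ i, 0 ≤ b i) :
    ∑ i ∈ Finset.range (j + 1), (j.choose i : ℝ) * a i * b (j - i) ≤ 2 ^ J * N * N' := by
  have hN : 0 ≤ N := (ha0 0).trans (ha 0 (Nat.zero_le _))
  have hN' : 0 ≤ N' := (hb0 0).trans (hb 0 (Nat.zero_le _))
  calc ∑ i ∈ Finset.range (j + 1), (j.choose i : ℝ) * a i * b (j - i)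
      ≤ ∑ i ∈ Finset.range (j + 1), (j.choose i : ℝ) * N * N' := by
        refine Finset.sum_le_sum fun i hi => ?_
        rw [Finset.mem_range] at hi
        have h1 := ha i (by omega)
        have h2 := hb (j - i) (by omega)
        have h3 : (0 : ℝ) ≤ j.choose i := by positivity
        exact mul_le_mul (mul_le_mul_of_nonneg_left h1 h3) h2 (hb0 _) (by positivity)
    _ = 2 ^ j * N * N' := by
        rw [← Finset.sum_mul, ← Finset.sum_mul]
        congr 2
        exact_mod_cast Nat.sum_range_choose j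
    _ ≤ 2 ^ J * N * N' := by
        have : (2 : ℝ) ^ j ≤ 2 ^ J := pow_le_pow_right₀ (by norm_num) hj
        gcongr

lemma CB.smul {g : X → ℝ} {h : X → F} (hg : CB J N g) (hh : CB J N' h) :
    CB J (2 ^ J * N * N') (fun x => g x • h x) := by
  refine ⟨hg.smooth.smul hh.smooth, fun j hj x => ?_⟩
  refine (norm_iteratedFDeriv_smul_le hg.smooth hh.smooth x (by exact_mod_cast hj)).trans ?_
  exact choose_bound hj (fun i => ‖iteratedFDeriv ℝ i g x‖) (fun i => ‖iteratedFDeriv ℝ i h x‖)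
    (fun i hi => hg.bd i hi x) (fun i hi => hh.bd i hi x) (fun i => norm_nonneg _)
    (fun i => norm_nonneg _)

lemma CB.mul {g h : X → ℝ} (hg : CB J N g) (hh : CB J N' h) :
    CB J (2 ^ J * N * N') (fun x => g x * h x) := hg.smul hh

lemma CB.bilin {H : Type*} [NormedAddCommGroup H] [NormedSpace ℝ H] (B : F →L[ℝ] G →L[ℝ] H)
    (hB : ‖B‖ ≤ 1) {g : X → F} {h : X → G} (hg : CB J N g) (hh : CB J N' h) :
    CB J (2 ^ J * N * N') (fun x => B (g x) (h x)) := by
  refine ⟨B.isBoundedBilinearMap.contDiff.comp₂ hg.smooth hh.smooth, fun j hj x => ?_⟩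
  refine (B.norm_iteratedFDeriv_le_of_bilinear_of_le_one hg.smooth hh.smooth x
    (by exact_mod_cast hj) hB).trans ?_
  exact choose_bound hj (fun i => ‖iteratedFDeriv ℝ i g x‖) (fun i => ‖iteratedFDeriv ℝ i h x‖)
    (fun i hi => hg.bd i hi x) (fun i hi => hh.bd i hi x) (fun i => norm_nonneg _)
    (fun i => norm_nonneg _)

lemma CB.inner {E : Type*} [NormedAddCommGroup E] [InnerProductSpace ℝ E] {g h : X → E}
    (hg : CB J N g) (hh : CB J N' h) : CB J (2 ^ J * N * N') (fun x => ⟪g x, h x⟫_ℝ) := by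
  exact CB.bilin (innerSL ℝ) (norm_innerSL_le ℝ) hg hh

lemma CB.clm {g : X → F} (hg : CB J N g) (A : F →L[ℝ] G) : CB J (‖A‖ * N) (fun x => A (g x)) := by
  refine ⟨A.contDiff.comp hg.smooth, fun j hj x => ?_⟩
  have := A.norm_iteratedFDeriv_comp_left (f := g) (x := x) (N := J) (n := j)
    hg.smooth.contDiffAt (by exact_mod_cast hj)
  exact this.trans (mul_le_mul_of_nonneg_left (hg.bd j hj x) (norm_nonneg _))

lemma CB.clm_le {g : X → F} (hg : CB J N g) {A : F →L[ℝ] G} {K : ℝ} (hA : ‖A‖ ≤ K) :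
    CB J (K * N) (fun x => A (g x)) :=
  (hg.clm A).mono (mul_le_mul_of_nonneg_right hA hg.nonneg)

/-- scalar function times a fixed vector -/
lemma CB.smul_vec {g : X → ℝ} (hg : CB J N g) (v : F) : CB J (N * ‖v‖) (fun x => g x • v) := by
  have := hg.clm ((ContinuousLinearMap.id ℝ ℝ).smulRight v)
  refine (CB.mono (N' := N * ‖v‖) this ?_)
  rw [ContinuousLinearMap.norm_smulRight_apply]
  have : ‖ContinuousLinearMap.id ℝ ℝ‖ ≤ 1 := ContinuousLinearMap.norm_id_le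
  nlinarith [hg.nonneg, norm_nonneg v, mul_nonneg hg.nonneg (norm_nonneg v)]

lemma CB.inner_vec {E : Type*} [NormedAddCommGroup E] [InnerProductSpace ℝ E] {g : X → E}
    (hg : CB J N g) (v : E) : CB J (‖v‖ * N) (fun x => ⟪v, g x⟫_ℝ) := by
  have := hg.clm (innerSL ℝ v)
  rw [innerSL_apply_norm] at this
  simpa using this

lemma norm_itF_comp_aff (j : ℕ) {g : X → F} (hg : ContDiff ℝ j g) (A : Y →L[ℝ] X) (a : X) (y : Y) :
    ‖iteratedFDeriv ℝ j (fun y => g (A y + a)) y‖ ≤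
      ‖iteratedFDeriv ℝ j g (A y + a)‖ * ‖A‖ ^ j := by
  have h1 : ContDiff ℝ j (fun x => g (x + a)) := hg.comp (contDiff_id.add contDiff_const)
  have h2 := A.iteratedFDeriv_comp_right (f := fun x => g (x + a)) h1 y (i := j) le_rfl
  have e : (fun y => g (A y + a)) = (fun x => g (x + a)) ∘ A := rfl
  rw [e, h2, iteratedFDeriv_comp_add_right]
  refine (ContinuousMultilinearMap.norm_compContinuousLinearMap_le _ _).trans ?_
  simp

lemma CB.comp_aff_le {g : X → F} (hg : CB J N g) (A : Y →L[ℝ] X) {K : ℝ} (hK : 1 ≤ K)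
    (hA : ‖A‖ ≤ K) (a : X) : CB J (K ^ J * N) (fun y => g (A y + a)) := by
  refine ⟨hg.smooth.comp (A.contDiff.add contDiff_const), fun j hj y => ?_⟩
  refine (norm_itF_comp_aff j (hg.smooth.of_le (by exact_mod_cast hj)) A a y).trans ?_
  have h1 := hg.bd j hj (A y + a)
  have h2 : ‖A‖ ^ j ≤ K ^ J :=
    (pow_le_pow_left₀ (norm_nonneg _) hA j).trans (pow_le_pow_right₀ hK hj)
  calc _ ≤ N * K ^ J := mul_le_mul h1 h2 (by positivity) hg.nonneg
    _ = _ := mul_comm _ _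

lemma CB.comp_aff {g : X → F} (hg : CB J N g) (A : Y →L[ℝ] X) (hA : ‖A‖ ≤ 1) (a : X) :
    CB J N (fun y => g (A y + a)) := by
  simpa using hg.comp_aff_le A le_rfl hA a

lemma CB.comp_clm {g : X → F} (hg : CB J N g) (A : Y →L[ℝ] X) (hA : ‖A‖ ≤ 1) :
    CB J N (fun y => g (A y)) := by
  simpa using hg.comp_aff A hA 0

lemma CB.comp_neg {g : X → F} (hg : CB J N g) : CB J N (fun y => g (-y)) := by
  have := hg.comp_clm (-ContinuousLinearMap.id ℝ X) (by
    rw [norm_neg]; exact ContinuousLinearMap.norm_id_le)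
  simpa using this

lemma CB.fderiv {g : X → F} (hg : CB (J + 1) N g) : CB J N (fun y => _root_.fderiv ℝ g y) := by
  refine ⟨hg.smooth.fderiv_right (by norm_cast), fun j hj x => ?_⟩
  rw [norm_iteratedFDeriv_fderiv]
  exact hg.bd (j + 1) (by omega) x

lemma CB.fderiv_apply {g : X → F} (hg : CB (J + 1) N g) (w : X) :
    CB J (‖w‖ * N) (fun y => _root_.fderiv ℝ g y w) := by
  have := hg.fderiv.clm (ContinuousLinearMap.apply ℝ F w)
  refine CB.mono (N' := ‖w‖ * N) this (mul_le_mul_of_nonneg_right ?_ hg.nonneg)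
  refine ContinuousLinearMap.opNorm_le_bound _ (norm_nonneg _) fun f => ?_
  rw [ContinuousLinearMap.apply_apply, mul_comm]
  exact f.le_opNorm w

/-- a smooth function with bounded derivatives on a compact set, and locally constant off it -/
lemma CB.of_compact {g : X → F} (hg : ContDiff ℝ J g) {K : Set X} (hK : IsCompact K)
    {M : ℝ} (hM : ∀ x ∉ K, ∃ c : F, ‖c‖ ≤ M ∧ ∀ᶠ y in nhds x, g y = c) :
    ∃ N : ℝ, 0 < N ∧ CB J N g := by
  have h1 : ∀ j : ℕ, ∃ C : ℝ, 0 ≤ C ∧ (j ≤ J → ∀ x ∈ K, ‖iteratedFDeriv ℝ j g x‖ ≤ C) := by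
    intro j
    by_cases hj : j ≤ J
    · have hc : Continuous (iteratedFDeriv ℝ j g) :=
        hg.continuous_iteratedFDeriv (by exact_mod_cast hj)
      obtain ⟨C, hC⟩ := hK.exists_bound_of_continuousOn hc.continuousOn
      exact ⟨max C 0, le_max_right _ _, fun _ x hx => (hC x hx).trans (le_max_left _ _)⟩
    · exact ⟨0, le_rfl, fun h => absurd h hj⟩
  choose C hC0 hC using h1
  refine ⟨(∑ j ∈ Finset.range (J + 1), C j) + |M| + 1, ?_, hg, fun j hj x => ?_⟩
  · have : 0 ≤ ∑ j ∈ Finset.range (J + 1), C j := Finset.sum_nonneg fun j _ => hC0 j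
    positivity
  · have hs : C j ≤ ∑ j ∈ Finset.range (J + 1), C j :=
      Finset.single_le_sum (fun i _ => hC0 i) (Finset.mem_range.2 (by omega))
    by_cases hx : x ∈ K
    · have := hC j hj x hx
      linarith [abs_nonneg M]
    · obtain ⟨c, hc, hev⟩ := hM x hx
      have he : iteratedFDeriv ℝ j g x = iteratedFDeriv ℝ j (fun _ : X => c) x :=
        (Filter.EventuallyEq.iteratedFDeriv (𝕜 := ℝ) hev j).self_of_nhds
      rw [he]
      have h2 := (CB.const (X := X) (J := J) c).bd j hj x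
      have h3 : 0 ≤ ∑ j ∈ Finset.range (J + 1), C j := Finset.sum_nonneg fun j _ => hC0 j
      have h4 := le_abs_self M
      linarith

lemma CB.of_compactSupport {g : X → F} (hg : ContDiff ℝ J g) (hc : HasCompactSupport g) :
    ∃ N : ℝ, 0 < N ∧ CB J N g := by
  refine CB.of_compact hg hc (M := 0) fun x hx => ⟨0, by simp, ?_⟩
  exact (notMem_tsupport_iff_eventuallyEq.1 hx)

end Gen

section Fixed

variable {d : ℕ}

lemma _root_.TG.TFn.cb {F : Type*} [NormedAddCommGroup F] [NormedSpace ℝ F] {J : ℕ} {N : ℝ} {g : Sp d → F}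
    (h : TFn J N g) : CB J N g := ⟨h.smooth, h.bd⟩

lemma CB.tfn {F : Type*} [NormedAddCommGroup F] [NormedSpace ℝ F] {J : ℕ} {N : ℝ} {g : Sp d → F}
    (h : CB J N g) : TFn J N g := ⟨h.smooth, h.bd⟩

lemma st_cb (J : ℕ) : ∃ N : ℝ, 0 < N ∧ CB J N Real.smoothTransition := by
  refine CB.of_compact (Real.smoothTransition.contDiff) (isCompact_Icc (a := (0 : ℝ)) (b := 1))
    (M := 1) fun x hx => ?_
  rcases lt_or_ge x 0 with h | h
  · refine ⟨0, by simp, ?_⟩
    filter_upwards [Iio_mem_nhds h] with y hy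
    exact Real.smoothTransition.zero_of_nonpos (le_of_lt hy)
  · have h1 : 1 < x := by
      by_contra hcon
      exact hx ⟨h, not_lt.1 hcon⟩
    refine ⟨1, by simp, ?_⟩
    filter_upwards [Ioi_mem_nhds h1] with y hy
    exact Real.smoothTransition.one_of_one_le (le_of_lt hy)

lemma cu1_eq {ρ : ℝ} (hρ : 0 ≤ ρ) (z : ℝ) :
    cu1 ρ z = Real.smoothTransition (ρ + 1 - z) * Real.smoothTransition (ρ + 1 + z) := by
  unfold cu1
  rcases le_total 0 z with h | h
  · rw [abs_of_nonneg h, Real.smoothTransition.one_of_one_le (x := ρ + 1 + z) (by linarith),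
      mul_one]
  · rw [abs_of_nonpos h, Real.smoothTransition.one_of_one_le (x := ρ + 1 - z) (by linarith),
      one_mul, sub_neg_eq_add]

/-- cu1 ρ, uniformly in ρ ≥ 0 -/
lemma cu1_cb (J : ℕ) : ∃ N : ℝ, 0 < N ∧ ∀ ρ : ℝ, 0 ≤ ρ → CB J N (cu1 ρ) := by
  obtain ⟨N, hN, h⟩ := st_cb J
  refine ⟨2 ^ J * N * N, by positivity, fun ρ hρ => ?_⟩
  have e : cu1 ρ = fun z => Real.smoothTransition (ρ + 1 - z) * Real.smoothTransition (ρ + 1 + z) :=
    funext fun z => cu1_eq hρ z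
  rw [e]
  have h1 := h.comp_aff (-ContinuousLinearMap.id ℝ ℝ)
    (by rw [norm_neg]; exact ContinuousLinearMap.norm_id_le) (ρ + 1)
  have h2 := h.comp_aff (ContinuousLinearMap.id ℝ ℝ) ContinuousLinearMap.norm_id_le (ρ + 1)
  have := h1.mul h2
  refine (congrArg (CB J _) ?_).mp this
  funext z
  simp only [neg_apply, ContinuousLinearMap.id_apply]
  congr 2 <;> ring

lemma cu1_nonneg (ρ z : ℝ) : 0 ≤ cu1 ρ z := Real.smoothTransition.nonneg _
lemma cu1_le_one (ρ z : ℝ) : cu1 ρ z ≤ 1 := Real.smoothTransition.le_one _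
lemma cu1_one {ρ z : ℝ} (h : |z| ≤ ρ) : cu1 ρ z = 1 :=
  Real.smoothTransition.one_of_one_le (by linarith)
lemma cu1_zero {ρ z : ℝ} (h : ρ + 1 ≤ |z|) : cu1 ρ z = 0 :=
  Real.smoothTransition.zero_of_nonpos (by linarith)

lemma zR_nonneg (R : ℝ) (x : Sp d) : 0 ≤ zR R x := Real.smoothTransition.nonneg _
lemma zR_le_one (R : ℝ) (x : Sp d) : zR R x ≤ 1 := Real.smoothTransition.le_one _
lemma zR_one {R : ℝ} {x : Sp d} (h : ‖x‖ ≤ R) : zR R x = 1 :=
  Real.smoothTransition.one_of_one_le (by linarith)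
lemma zR_zero {R : ℝ} {x : Sp d} (h : R + 1 ≤ ‖x‖) : zR R x = 0 :=
  Real.smoothTransition.zero_of_nonpos (by linarith)

lemma zR_contDiff {R : ℝ} (hR : 0 < R) {n : ℕ∞ω} (hn : n ≤ ∞) : ContDiff ℝ n (zR R : Sp d → ℝ) := by
  refine ContDiff.of_le ?_ hn
  rw [contDiff_iff_contDiffAt]
  intro x
  by_cases hx : x = 0
  · have : ∀ᶠ y in nhds x, zR R y = 1 := by
      have hb : ball (0 : Sp d) R ∈ nhds x := by
        rw [hx]; exact ball_mem_nhds _ hR
      filter_upwards [hb] with y hy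
      rw [mem_ball_zero_iff] at hy
      exact zR_one hy.le
    exact (contDiffAt_const (c := (1 : ℝ))).congr_of_eventuallyEq this
  · have h1 : ContDiffAt ℝ ∞ (fun y : Sp d => R + 1 - ‖y‖) x :=
      contDiffAt_const.sub (contDiffAt_norm ℝ hx)
    exact (Real.smoothTransition.contDiff (n := ⊤)).contDiffAt.comp x h1

lemma zR_cs (R : ℝ) : HasCompactSupport (zR R : Sp d → ℝ) := by
  refine HasCompactSupport.intro (isCompact_closedBall (0 : Sp d) (R + 1)) fun x hx => ?_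
  rw [mem_closedBall, dist_zero_right, not_le] at hx
  exact zR_zero hx.le

lemma zR_cb (d J : ℕ) {R : ℝ} (hR : 0 < R) : ∃ N : ℝ, 0 < N ∧ CB J N (zR R : Sp d → ℝ) :=
  CB.of_compactSupport (zR_contDiff hR (by exact_mod_cast le_top)) (zR_cs R)

/-- the tangential projection as a linear map -/
def tangL (ν : Sp d) : Sp d →L[ℝ] Sp d :=
  ContinuousLinearMap.id ℝ (Sp d) - (innerSL ℝ ν).smulRight ν

lemma tangL_apply (ν y : Sp d) : tangL ν y = tang ν y := by
  simp [tangL, tang]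

lemma tang_inner {ν : Sp d} (hν : ‖ν‖ = 1) (y : Sp d) : ⟪ν, tang ν y⟫_ℝ = 0 := by
  unfold tang
  rw [inner_sub_right, inner_smul_right, real_inner_self_eq_norm_sq, hν]
  ring

lemma norm_sq_tang {ν : Sp d} (hν : ‖ν‖ = 1) (y : Sp d) :
    ‖y‖ ^ 2 = ‖tang ν y‖ ^ 2 + ⟪ν, y⟫_ℝ ^ 2 := by
  have e : y = tang ν y + ⟪ν, y⟫_ℝ • ν := by unfold tang; abel
  conv_lhs => rw [e]
  rw [norm_add_sq_real, inner_smul_right, real_inner_comm ν (tang ν y), tang_inner hν,
    norm_smul, hν, Real.norm_eq_abs, mul_one, sq_abs]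
  ring

lemma norm_tang_le {ν : Sp d} (hν : ‖ν‖ = 1) (y : Sp d) : ‖tang ν y‖ ≤ ‖y‖ := by
  have := norm_sq_tang hν y
  exact abs_le_of_sq_le_sq' (by nlinarith [sq_nonneg ⟪ν, y⟫_ℝ]) (norm_nonneg _) |>.2

lemma norm_le_tang {ν : Sp d} (hν : ‖ν‖ = 1) (y : Sp d) : ‖y‖ ≤ ‖tang ν y‖ + |⟪ν, y⟫_ℝ| := by
  have h : y = tang ν y + ⟪ν, y⟫_ℝ • ν := by unfold tang; abel
  calc ‖y‖ = ‖tang ν y + ⟪ν, y⟫_ℝ • ν‖ := by rw [← h]
    _ ≤ ‖tang ν y‖ + ‖⟪ν, y⟫_ℝ • ν‖ := norm_add_le _ _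
    _ = _ := by rw [norm_smul, hν, mul_one, Real.norm_eq_abs]

lemma norm_tangL_le {ν : Sp d} (hν : ‖ν‖ = 1) : ‖tangL ν‖ ≤ 1 :=
  ContinuousLinearMap.opNorm_le_bound _ zero_le_one fun y => by
    rw [tangL_apply, one_mul]; exact norm_tang_le hν y

lemma tang_tang {ν : Sp d} (hν : ‖ν‖ = 1) (y : Sp d) : tang ν (tang ν y) = tang ν y := by
  have : tang ν (tang ν y) = tang ν y - ⟪ν, tang ν y⟫_ℝ • ν := rfl
  rw [this, tang_inner hν, zero_smul, sub_zero]

lemma tang_add (ν y z : Sp d) : tang ν (y + z) = tang ν y + tang ν z := by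
  rw [← tangL_apply, ← tangL_apply, ← tangL_apply, map_add]

lemma tang_sub (ν y z : Sp d) : tang ν (y - z) = tang ν y - tang ν z := by
  rw [← tangL_apply, ← tangL_apply, ← tangL_apply, map_sub]

lemma tang_smul' (ν y : Sp d) (c : ℝ) : tang ν (c • y) = c • tang ν y := by
  rw [← tangL_apply, ← tangL_apply, map_smul]

lemma tang_self {ν : Sp d} (hν : ‖ν‖ = 1) : tang ν ν = 0 := by
  unfold tang
  rw [real_inner_self_eq_norm_sq, hν]
  simp

lemma tang_of_inner {ν : Sp d} {y : Sp d} (h : ⟪ν, y⟫_ℝ = 0) : tang ν y = y := by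
  unfold tang; rw [h]; simp

/-- composition with ht: the height over the plane -/
lemma CB.comp_ht {F : Type*} [NormedAddCommGroup F] [NormedSpace ℝ F] {J : ℕ} {N : ℝ} {g : ℝ → F}
    (hg : CB J N g) {ν : Sp d} (hν : ‖ν‖ ≤ 1) (c : ℝ) : CB J N (fun y => g (ht ν c y)) := by
  have := hg.comp_aff (innerSL ℝ ν) (by rw [innerSL_apply_norm]; exact hν) (-c)
  simpa [ht, sub_eq_add_neg] using this

lemma CB.comp_tang {F : Type*} [NormedAddCommGroup F] [NormedSpace ℝ F] {J : ℕ} {N : ℝ}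
    {g : Sp d → F} (hg : CB J N g) {ν : Sp d} (hν : ‖ν‖ = 1) : CB J N (fun y => g (tang ν y)) := by
  have := hg.comp_clm (tangL ν) (norm_tangL_le hν)
  simpa [tangL_apply] using this

/-- the height times a cut-off -/
lemma htz_cb (d J : ℕ) {R : ℝ} (hR : 0 < R) (K : ℝ) : ∃ N : ℝ, 0 < N ∧ ∀ (ν : Sp d) (c : ℝ),
    ‖ν‖ ≤ 1 → |c| ≤ K → CB J N (fun y => ht ν c y * zR R y) := by
  have h1 : ∃ N : ℝ, 0 < N ∧ CB J N (fun y : Sp d => zR R y • y) := by
    refine CB.of_compactSupport ((zR_contDiff hR (by exact_mod_cast le_top)).smul contDiff_id) ?_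
    exact (zR_cs R).smul_right
  obtain ⟨N1, hN1, h1⟩ := h1
  obtain ⟨N2, hN2, h2⟩ := zR_cb d J hR
  refine ⟨N1 + |K| * N2 + 1, by positivity, fun ν c hν hc => ?_⟩
  have h3 := (h1.inner_vec ν).sub (h2.const_mul c)
  refine CB.mono (N := ‖ν‖ * N1 + |c| * N2) ?_ ?_
  · refine (congrArg (CB J _) ?_).mp h3
    funext y
    simp only [ht, inner_smul_right]
    ring
  · have : |c| ≤ |K| := hc.trans (le_abs_self K)
    nlinarith [norm_nonneg ν]

/-- the square of the height times a cut-off -/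
lemma ht2z_cb (d J : ℕ) {R : ℝ} (hR : 0 < R) (K : ℝ) : ∃ N : ℝ, 0 < N ∧ ∀ (ν : Sp d) (c : ℝ),
    ‖ν‖ ≤ 1 → |c| ≤ K → CB J N (fun y => zR R y * ht ν c y ^ 2) := by
  obtain ⟨N1, hN1, h1⟩ := htz_cb d J (R := R + 1) (by linarith) K
  obtain ⟨N2, hN2, h2⟩ := zR_cb d J hR
  refine ⟨2 ^ J * N2 * (2 ^ J * N1 * N1), by positivity, fun ν c hν hc => ?_⟩
  have h3 := h2.mul ((h1 ν c hν hc).mul (h1 ν c hν hc))
  refine (congrArg (CB J _) ?_).mp h3
  funext y
  by_cases hy : ‖y‖ ≤ R + 1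
  · rw [zR_one hy]; ring
  · rw [zR_zero (R := R) (by linarith)]; ring

end Fixed

/-! ## Scaled versions of Lemma Z, MA, and integrability -/

section Sc

variable {d : ℕ} {E : Type} [NormedAddCommGroup E] [InnerProductSpace ℝ E]

lemma fo_cont {V : Type} [NormedAddCommGroup V] [InnerProductSpace ℝ V] [FiniteDimensional ℝ V]
    [FiniteDimensional ℝ E] (L : (Sp d →L[ℝ] V) →L[ℝ] E) {u : Sp d → V} (hu : TF u) :
    Continuous (fo L u) :=
  L.continuous.comp (hu.smooth.continuous_fderiv (by simp))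

lemma fo_cs {V : Type} [NormedAddCommGroup V] [InnerProductSpace ℝ V] [FiniteDimensional ℝ V]
    [FiniteDimensional ℝ E] (L : (Sp d →L[ℝ] V) →L[ℝ] E) {u : Sp d → V} (hu : TF u) :
    HasCompactSupport (fo L u) := by
  have := (hu.supp.fderiv (𝕜 := ℝ)).comp_left (g := L) (map_zero L)
  exact this

lemma int_test {f : Sp d → E} (hf : Continuous f) (hfs : HasCompactSupport f) (e : E)
    {H : Sp d → ℝ} (hH : Continuous H) : Integrable (fun y => ⟪f y, e⟫_ℝ * H y) := by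
  refine Continuous.integrable_of_hasCompactSupport (by fun_prop) ?_
  refine HasCompactSupport.mul_right ?_
  exact hfs.comp_left (g := fun v => ⟪v, e⟫_ℝ) (by simp)

/-- Lemma Z for test functions of size N -/
def StmtZs : Prop :=
  ∀ (d : ℕ), 1 ≤ d → ∀ (M c ε : ℝ), 0 < ε → ε ≤ 1 →
    ∀ (b : Sp d → ℝ), BaseKer 2 M c b → ∃ C : ℝ, 0 < C ∧
    ∀ (E : Type) [NormedAddCommGroup E] [InnerProductSpace ℝ E] [FiniteDimensional ℝ E],
    ∀ f : Sp d → E, Continuous f → HasCompactSupport f → ∀ (R : ℝ), 3 ≤ R → ∀ (n : ℕ) (e : E),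
    ‖e‖ = 1 → ∀ (x : Sp d) (H : Sp d → ℝ) (N : ℝ), CB 2 N H → (∀ y, 0 ≤ H y) →
      (∀ y, R - 2 ≤ ‖y - x‖ → H y = 0) →
      -(C * N * DD b ε R ((1 / 2) ^ n) f n x e) ≤ ∫ y, ⟪f y, e⟫_ℝ * H y

theorem stmtZs : StmtZs := by
  intro d hd M c ε hε hε1 b hb
  obtain ⟨C, hC, h⟩ := stmtZ d hd M c ε hε hε1 b hb
  refine ⟨C, hC, ?_⟩
  intro E _ _ _ f hf hfs R hR n e he x H N hN h0 hs
  rcases eq_or_lt_of_le hN.nonneg with hN0 | hN0
  · have : ∀ y, H y = 0 := fun y => by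
      have := hN.norm_le y
      rw [← hN0] at this
      exact norm_le_zero_iff.1 this
    simp [this, ← hN0]
  · have h1 := h E f hf hfs R hR n e he x (fun y => N⁻¹ * H y)
      (contDiff_const.mul hN.smooth) (fun y => mul_nonneg (by positivity) (h0 y))
      (fun y => ?_) (fun y => ?_) (fun y hy => by rw [hs y hy, mul_zero])
    · have e1 : (∫ y, ⟪f y, e⟫_ℝ * (N⁻¹ * H y)) = N⁻¹ * ∫ y, ⟪f y, e⟫_ℝ * H y := by
        rw [← integral_const_mul]
        congr 1; ext y; ring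
      rw [e1] at h1
      have h2 := mul_le_mul_of_nonneg_left h1 hN0.le
      rw [← mul_assoc N N⁻¹, mul_inv_cancel₀ hN0.ne', one_mul] at h2
      refine le_trans (le_of_eq ?_) h2
      ring
    · have := hN.norm_le y
      rw [Real.norm_eq_abs] at this
      have h3 := le_abs_self (H y)
      rw [inv_mul_le_iff₀ hN0]; linarith
    · have h3 := (hN.const_mul N⁻¹).bd 2 le_rfl y
      rw [abs_of_pos (by positivity), inv_mul_cancel₀ hN0.ne'] at h3
      exact h3

/-- MA part 1 for test functions of size N -/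
def StmtMAs : Prop :=
  ∀ (d : ℕ), 1 ≤ d → ∀ (M c ε : ℝ), 0 < ε → ε ≤ 1 →
    ∀ (b : Sp d → ℝ), BaseKer 2 M c b → ∃ C : ℝ, 0 < C ∧
    ∀ (E : Type) [NormedAddCommGroup E] [InnerProductSpace ℝ E] [FiniteDimensional ℝ E],
    ∀ f : Sp d → E, Continuous f → HasCompactSupport f → ∀ (R : ℝ), 5 ≤ R → ∀ (n : ℕ) (e : E),
    ‖e‖ = 1 → ∀ (x : Sp d) (S : Set (Sp d)), MeasurableSet S →
      ∀ (ζ : Sp d → ℝ) (N : ℝ), CB 2 N ζ → (∀ y, R - 2 ≤ ‖y - x‖ → ζ y = 0) →
        (∀ y z, ζ y ≠ 0 → ‖z - y‖ ≤ 1 → z ∈ S) →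
        |∫ y, ⟪f y, e⟫_ℝ * ζ y| ≤ C * N * ((∫ y in S, ‖fl b ε ((1 / 2) ^ n) f (n - 1) y‖) +
            DD b ε R ((1 / 2) ^ n) f n x e)

theorem stmtMAs : StmtMAs := by
  intro d hd M c ε hε hε1 b hb
  obtain ⟨C, hC, h⟩ := stmtMA stmtZ d hd M c ε hε hε1 b hb
  refine ⟨C, hC, ?_⟩
  intro E _ _ _ f hf hfs R hR n e he x S hS ζ N hN hs hS'
  rcases eq_or_lt_of_le hN.nonneg with hN0 | hN0
  · have : ∀ y, ζ y = 0 := fun y => by
      have := hN.norm_le y
      rw [← hN0] at this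
      exact norm_le_zero_iff.1 this
    simp [this, ← hN0]
  · have h1 := (h E f hf hfs R hR n e he x S hS).1 (fun y => N⁻¹ * ζ y)
      (contDiff_const.mul hN.smooth) (fun y => ?_) (fun y => ?_)
      (fun y hy => by rw [hs y hy, mul_zero]) (fun y z hy hz => hS' y z (right_ne_zero_of_mul hy) hz)
    · have e1 : (∫ y, ⟪f y, e⟫_ℝ * (N⁻¹ * ζ y)) = N⁻¹ * ∫ y, ⟪f y, e⟫_ℝ * ζ y := by
        rw [← integral_const_mul]
        congr 1; ext y; ring
      rw [e1, abs_mul, abs_of_pos (by positivity : (0 : ℝ) < N⁻¹), inv_mul_le_iff₀ hN0] at h1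
      refine h1.trans (le_of_eq ?_)
      ring
    · have h3 := (hN.const_mul N⁻¹).abs_le y
      rw [abs_of_pos (by positivity : (0 : ℝ) < N⁻¹), inv_mul_cancel₀ hN0.ne'] at h3
      exact h3
    · have h3 := (hN.const_mul N⁻¹).bd 2 le_rfl y
      rw [abs_of_pos (by positivity), inv_mul_cancel₀ hN0.ne'] at h3
      exact h3

end Sc

end

end TC

end TG
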