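import Pool.Agent.TG.Stmts2
import Pool.Agent.TG.TFc
import Pool.Agent.TG.TFU

/-!
# Trace inequality: toolkit of test functions (helper57, interface by helper42)

Built on TFc.lean (helper74) and TFU.lean.  New: the bounds for zR are uniform in the radius.
-/

set_option autoImplicit false

open MeasureTheory Metric Set TrI
open scoped InnerProductSpace ContDiff

namespace TG

noncomputable section

variable {d : ℕ}

section

variable {F : Type*} [NormedAddCommGroup F] [NormedSpace ℝ F]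

lemma TFn.mono {J : ℕ} {N N' : ℝ} {ζ : Sp d → F} (h : TFn J N ζ) (hN : N ≤ N') :
    TFn J N' ζ := ⟨h.smooth, fun j hj x => (h.bd j hj x).trans hN⟩

lemma TFn.add {J : ℕ} {N N' : ℝ} {ζ ζ' : Sp d → F} (h : TFn J N ζ) (h' : TFn J N' ζ') :
    TFn J (N + N') (fun y => ζ y + ζ' y) := (h.cb.add h'.cb).tfn

lemma TFn.sub {J : ℕ} {N N' : ℝ} {ζ ζ' : Sp d → F} (h : TFn J N ζ) (h' : TFn J N' ζ') :
    TFn J (N + N') (fun y => ζ y - ζ' y) := (h.cb.sub h'.cb).tfn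

lemma TFn.comp_aff {J : ℕ} {N : ℝ} {ζ : Sp d → F} (h : TFn J N ζ) (x : Sp d) (t : ℝ) {T : ℝ}
    (hT : 1 ≤ T) (ht : |t| ≤ T) : TFn J (T ^ J * N) (fun y => ζ (x + t • y)) := by
  have h1 := h.cb.comp_aff_le (t • ContinuousLinearMap.id ℝ (Sp d)) hT (by
    rw [norm_smul, Real.norm_eq_abs]
    calc |t| * ‖ContinuousLinearMap.id ℝ (Sp d)‖ ≤ |t| * 1 :=
          mul_le_mul_of_nonneg_left ContinuousLinearMap.norm_id_le (abs_nonneg t)
      _ ≤ T := by rw [mul_one]; exact ht) x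
  refine (congrArg (TFn J _) ?_).mp h1.tfn
  funext y
  simp [add_comm]

end

lemma TFn.const_mul {J : ℕ} {N : ℝ} {ζ : Sp d → ℝ} (h : TFn J N ζ) (c : ℝ) :
    TFn J (|c| * N) (fun y => c * ζ y) := (h.cb.const_mul c).tfn

lemma TFn.mul {J : ℕ} {N N' : ℝ} {ζ ζ' : Sp d → ℝ} (h : TFn J N ζ) (h' : TFn J N' ζ') :
    TFn J (2 ^ J * N * N') (fun y => ζ y * ζ' y) := (h.cb.mul h'.cb).tfn

lemma zR_nonneg (ρ : ℝ) (y : Sp d) : 0 ≤ zR ρ y := Real.smoothTransition.nonneg _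

lemma zR_le_one (ρ : ℝ) (y : Sp d) : zR ρ y ≤ 1 := Real.smoothTransition.le_one _

lemma zR_eq_one {ρ : ℝ} {y : Sp d} (h : ‖y‖ ≤ ρ) : zR ρ y = 1 :=
  Real.smoothTransition.one_of_one_le (by linarith)

lemma zR_eq_zero {ρ : ℝ} {y : Sp d} (h : ρ + 1 ≤ ‖y‖) : zR ρ y = 0 :=
  Real.smoothTransition.zero_of_nonpos (by linarith)

lemma cu1_nonneg (ρ z : ℝ) : 0 ≤ cu1 ρ z := Real.smoothTransition.nonneg _

lemma cu1_le_one (ρ z : ℝ) : cu1 ρ z ≤ 1 := Real.smoothTransition.le_one _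

lemma cu1_eq_one {ρ z : ℝ} (h : |z| ≤ ρ) : cu1 ρ z = 1 :=
  Real.smoothTransition.one_of_one_le (by linarith)

lemma cu1_eq_zero {ρ z : ℝ} (h : ρ + 1 ≤ |z|) : cu1 ρ z = 0 :=
  Real.smoothTransition.zero_of_nonpos (by linarith)

/-- the norm is smooth off the origin -/
lemma norm_contDiffOn (d : ℕ) : ContDiffOn ℝ ∞ (fun y : Sp d => ‖y‖) {y | y ≠ 0} :=
  fun _ hy => (contDiffAt_norm ℝ hy).contDiffWithinAt

/-- derivatives of the norm off the unit ball -/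
lemma norm_bd (d J : ℕ) : ∃ K : ℝ, 1 ≤ K ∧ ∀ y : Sp d, 1 ≤ ‖y‖ → ∀ j, 1 ≤ j → j ≤ J →
    ‖iteratedFDeriv ℝ j (fun y : Sp d => ‖y‖) y‖ ≤ K := by
  have ho : IsOpen {y : Sp d | y ≠ 0} := isOpen_ne
  have h1 : ∀ j : ℕ, ∃ C : ℝ, 0 ≤ C ∧ ∀ x ∈ sphere (0 : Sp d) 1,
      ‖iteratedFDeriv ℝ j (fun y : Sp d => ‖y‖) x‖ ≤ C := by
    intro j
    have hc : ContinuousOn (iteratedFDeriv ℝ j (fun y : Sp d => ‖y‖)) {y | y ≠ 0} := by
      have h2 := (norm_contDiffOn d).continuousOn_iteratedFDerivWithin (m := j)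
        (by exact_mod_cast le_top) ho.uniqueDiffOn
      exact h2.congr fun y hy => (iteratedFDerivWithin_of_isOpen j ho hy).symm
    have hs : sphere (0 : Sp d) 1 ⊆ {y | y ≠ 0} := by
      intro y hy h0
      rw [mem_sphere_zero_iff_norm] at hy
      rw [h0, norm_zero] at hy
      exact zero_ne_one hy
    obtain ⟨C, hC⟩ := (isCompact_sphere (0 : Sp d) 1).exists_bound_of_continuousOn (hc.mono hs)
    exact ⟨max C 0, le_max_right _ _, fun x hx => (hC x hx).trans (le_max_left _ _)⟩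
  choose C hC0 hC using h1
  refine ⟨(∑ j ∈ Finset.range (J + 1), C j) + 1, ?_, fun y hy j hj1 hj => ?_⟩
  · have : 0 ≤ ∑ j ∈ Finset.range (J + 1), C j := Finset.sum_nonneg fun j _ => hC0 j
    linarith
  · have hy0 : 0 < ‖y‖ := by linarith
    have hs : C j ≤ ∑ j ∈ Finset.range (J + 1), C j :=
      Finset.single_le_sum (fun i _ => hC0 i) (Finset.mem_range.2 (by omega))
    have e : (fun w : Sp d => ‖w‖) = fun w => ‖y‖ • ‖(0 : Sp d) + ‖y‖⁻¹ • w‖ := by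
      funext w
      rw [zero_add, norm_smul, norm_inv, norm_norm, smul_eq_mul]
      field_simp
    have hd1 : ContDiffAt ℝ j (fun w : Sp d => ‖(0 : Sp d) + ‖y‖⁻¹ • w‖) y := by
      have hne : (0 : Sp d) + ‖y‖⁻¹ • y ≠ 0 := by
        rw [zero_add]
        refine smul_ne_zero (inv_ne_zero hy0.ne') ?_
        exact norm_pos_iff.1 hy0
      have h3 : ContDiffAt ℝ j (fun w : Sp d => (0 : Sp d) + ‖y‖⁻¹ • w) y := by fun_prop
      exact (contDiffAt_norm ℝ hne).comp y h3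
    rw [e, iteratedFDeriv_const_smul_apply' hd1, norm_smul, norm_norm,
      TU.itF_aff_norm j (fun w : Sp d => ‖w‖) 0 ‖y‖⁻¹ (inv_ne_zero hy0.ne') y, zero_add]
    have hsph : ‖y‖⁻¹ • y ∈ sphere (0 : Sp d) 1 := by
      rw [mem_sphere_zero_iff_norm, norm_smul, norm_inv, norm_norm]
      field_simp
    have h4 := hC j _ hsph
    have h5 : |‖y‖⁻¹| ^ j ≤ ‖y‖⁻¹ := by
      rw [abs_of_pos (inv_pos.2 hy0)]
      calc ‖y‖⁻¹ ^ j ≤ ‖y‖⁻¹ ^ 1 :=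
            pow_le_pow_of_le_one (inv_nonneg.2 hy0.le) (inv_le_one_of_one_le₀ hy) hj1
        _ = ‖y‖⁻¹ := pow_one _
    calc ‖y‖ * (|‖y‖⁻¹| ^ j * ‖iteratedFDeriv ℝ j (fun w : Sp d => ‖w‖) (‖y‖⁻¹ • y)‖)
        ≤ ‖y‖ * (‖y‖⁻¹ * C j) := by
          refine mul_le_mul_of_nonneg_left ?_ hy0.le
          exact mul_le_mul h5 h4 (norm_nonneg _) (inv_nonneg.2 hy0.le)
      _ = C j := by field_simp
      _ ≤ _ := by linarith

lemma exists_TFn_zR (d J : ℕ) : ∃ C : ℝ, 0 < C ∧ ∀ ρ : ℝ, 1 ≤ ρ →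
    TFn J C (zR ρ : Sp d → ℝ) := by
  obtain ⟨N, hN, hst⟩ := TC.st_cb J
  obtain ⟨K, hK1, hK⟩ := norm_bd d J
  refine ⟨max 1 (J.factorial * N * K ^ J), by positivity, fun ρ hρ => ?_⟩
  refine ⟨TC.zR_contDiff (by linarith) (by exact_mod_cast le_top), fun j hj y => ?_⟩
  rcases lt_or_ge ‖y‖ 1 with hy | hy
  · have he : (zR ρ : Sp d → ℝ) =ᶠ[nhds y] fun _ => 1 := by
      have : {w : Sp d | ‖w‖ < 1} ∈ nhds y :=
        (isOpen_lt continuous_norm continuous_const).mem_nhds hy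
      filter_upwards [this] with w hw
      exact zR_eq_one (le_of_lt (lt_of_lt_of_le hw hρ))
    have he2 : iteratedFDeriv ℝ j (zR ρ : Sp d → ℝ) y = iteratedFDeriv ℝ j (fun _ => (1 : ℝ)) y :=
      (Filter.EventuallyEq.iteratedFDeriv (𝕜 := ℝ) he j).self_of_nhds
    rw [he2]
    have h3 := (TC.CB.const (X := Sp d) (J := J) (1 : ℝ)).bd j hj y
    rw [norm_one] at h3
    exact h3.trans (le_max_left _ _)
  · -- composition with the norm
    have ho : IsOpen {y : Sp d | y ≠ 0} := isOpen_ne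
    have hy0 : y ∈ {y : Sp d | y ≠ 0} := by
      intro h0
      rw [h0, norm_zero] at hy
      linarith
    set g : ℝ → ℝ := fun r => Real.smoothTransition ((-ContinuousLinearMap.id ℝ ℝ) r + (ρ + 1))
      with hg
    have hgcb : TC.CB J N g := hst.comp_aff (-ContinuousLinearMap.id ℝ ℝ) (by
      rw [norm_neg]; exact ContinuousLinearMap.norm_id_le) (ρ + 1)
    have hgs : ContDiff ℝ ∞ g := by
      have : ContDiff ℝ ∞ Real.smoothTransition := Real.smoothTransition.contDiff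
      exact this.comp (by fun_prop)
    have e : (zR ρ : Sp d → ℝ) = g ∘ fun y : Sp d => ‖y‖ := by
      funext w
      simp only [hg, zR, Function.comp_apply]
      congr 1
      simp only [_root_.neg_apply, ContinuousLinearMap.coe_id', id_eq]
      ring
    have h1 := norm_iteratedFDerivWithin_comp_le (𝕜 := ℝ) (g := g) (f := fun y : Sp d => ‖y‖)
      (n := j) (s := {y : Sp d | y ≠ 0}) (t := univ) (x := y) (N := ∞) hgs.contDiffOn
      (norm_contDiffOn d) (by exact_mod_cast le_top) uniqueDiffOn_univ ho.uniqueDiffOn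
      (mapsTo_univ _ _) hy0 (C := N) (D := K)
      (fun i hi => by rw [iteratedFDerivWithin_univ]; exact hgcb.bd i (hi.trans hj) _)
      (fun i hi1 hi => by
        rw [iteratedFDerivWithin_of_isOpen i ho hy0]
        refine (hK y hy i hi1 (hi.trans hj)).trans ?_
        calc K = K ^ 1 := (pow_one K).symm
          _ ≤ K ^ i := pow_le_pow_right₀ hK1 hi1)
    rw [iteratedFDerivWithin_of_isOpen j ho hy0, ← e] at h1
    refine h1.trans (le_trans ?_ (le_max_right _ _))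
    have h2 : (j.factorial : ℝ) ≤ J.factorial := by exact_mod_cast Nat.factorial_le hj
    have h3 : K ^ j ≤ K ^ J := pow_le_pow_right₀ hK1 hj
    have h4 : 0 ≤ K ^ j := by positivity
    exact mul_le_mul (mul_le_mul_of_nonneg_right h2 hN.le) h3 h4 (by positivity)

lemma exists_TFn_cu1 (d J : ℕ) : ∃ C : ℝ, 0 < C ∧ ∀ ρ : ℝ, 1 ≤ ρ → ∀ (ν : Sp d) (c : ℝ),
    ‖ν‖ = 1 → TFn J C (fun y => cu1 ρ (ht ν c y)) := by
  obtain ⟨N, hN, h⟩ := TC.cu1_cb J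
  exact ⟨N, hN, fun ρ hρ ν c hν => ((h ρ (by linarith)).comp_ht hν.le c).tfn⟩

/-- cylindrical cut-off -/
lemma exists_TFn_cyl (d J : ℕ) : ∃ C : ℝ, 0 < C ∧ ∀ ρ : ℝ, 1 ≤ ρ → ∀ ν : Sp d, ‖ν‖ = 1 →
    TFn J C (fun y => zR ρ (tang ν y)) ∧ Cyl ν (ρ + 1) (fun y => zR ρ (tang ν y)) := by
  obtain ⟨C, hC, h⟩ := exists_TFn_zR d J
  refine ⟨C, hC, fun ρ hρ ν hν => ⟨((h ρ hρ).cb.comp_tang hν).tfn, ?_, ?_⟩⟩
  · intro y
    simp only [TC.tang_tang hν]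
  · intro y hy
    by_contra hcon
    exact hy (zR_eq_zero (le_of_lt (not_le.1 hcon)))

lemma exists_TFn_ht (d J : ℕ) (ρ A : ℝ) (hρ : 1 ≤ ρ) : ∃ C : ℝ, 0 < C ∧
    ∀ (ν : Sp d) (c : ℝ), ‖ν‖ = 1 → |c| ≤ A → TFn J C (fun y => zR ρ y * ht ν c y) := by
  obtain ⟨N, hN, h⟩ := TC.htz_cb d J (R := ρ) (by linarith) A
  refine ⟨N, hN, fun ν c hν hc => ?_⟩
  have := (h ν c hν.le hc).tfn
  simpa only [mul_comm] using this

lemma exists_TFn_ht2 (d J : ℕ) (ρ A : ℝ) (hρ : 1 ≤ ρ) : ∃ C : ℝ, 0 < C ∧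
    ∀ (ν : Sp d) (c : ℝ), ‖ν‖ = 1 → |c| ≤ A → TFn J C (fun y => zR ρ y * ht ν c y ^ 2) := by
  obtain ⟨N, hN, h⟩ := TC.ht2z_cb d J (R := ρ) (by linarith) A
  exact ⟨N, hN, fun ν c hν hc => (h ν c hν.le hc).tfn⟩

/-- Lemma Z for the comparison of two test functions -/
lemma exists_Zc (hZ : StmtZ) {d : ℕ} (hd : 1 ≤ d) {M c ε : ℝ} (hε : 0 < ε) (hε1 : ε ≤ 1)
    {b : Sp d → ℝ} (hb : BaseKer 2 M c b) : ∃ C : ℝ, 0 < C ∧
    ∀ (E : Type) [NormedAddCommGroup E] [InnerProductSpace ℝ E] [FiniteDimensional ℝ E],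
    ∀ f : Sp d → E, Continuous f → HasCompactSupport f → ∀ (R : ℝ), 3 ≤ R → ∀ (n : ℕ) (e : E),
    ‖e‖ = 1 → ∀ (x : Sp d) (ζ₁ ζ₂ : Sp d → ℝ) (N : ℝ), TFn 2 N ζ₁ → TFn 2 N ζ₂ →
      (∀ y, ζ₁ y ≤ ζ₂ y) → (∀ y, R - 2 ≤ ‖y - x‖ → ζ₁ y = 0) → (∀ y, R - 2 ≤ ‖y - x‖ → ζ₂ y = 0) →
      ∫ y, ⟪f y, e⟫_ℝ * ζ₁ y ≤ (∫ y, ⟪f y, e⟫_ℝ * ζ₂ y) +
        C * N * DD b ε R ((1 / 2) ^ n) f n x e := by
  obtain ⟨C, hC, h⟩ := TU.Z' hZ hd hε hε1 hb
  refine ⟨2 * C, by positivity, ?_⟩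
  intro E _ _ _ f hf hfc R hR n e he x ζ₁ ζ₂ N h1 h2 h12 s1 s2
  have h3 := h E f hf hfc R hR n e he x (fun y => ζ₂ y - ζ₁ y) (N + N) (h2.sub h1)
    (fun y => sub_nonneg.2 (h12 y)) (fun y hy => by rw [s1 y hy, s2 y hy, sub_zero])
  have hc : Continuous fun y => ⟪f y, e⟫_ℝ := hf.inner continuous_const
  have hcs : HasCompactSupport fun y => ⟪f y, e⟫_ℝ :=
    hfc.comp_left (g := fun v : E => ⟪v, e⟫_ℝ) (inner_zero_left e)
  have i1 : Integrable fun y => ⟪f y, e⟫_ℝ * ζ₁ y :=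
    (hc.mul h1.smooth.continuous).integrable_of_hasCompactSupport hcs.mul_right
  have i2 : Integrable fun y => ⟪f y, e⟫_ℝ * ζ₂ y :=
    (hc.mul h2.smooth.continuous).integrable_of_hasCompactSupport hcs.mul_right
  have h4 : ∫ y, ⟪f y, e⟫_ℝ * (ζ₂ y - ζ₁ y) =
      (∫ y, ⟪f y, e⟫_ℝ * ζ₂ y) - ∫ y, ⟪f y, e⟫_ℝ * ζ₁ y := by
    rw [← integral_sub i2 i1]
    refine integral_congr_ae (Filter.Eventually.of_forall fun y => ?_)
    ring
  rw [h4] at h3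
  linarith

end

end TG
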