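import Pool.Agent.TG.Stmts11
import Pool.Agent.TG.Tf

/-!
# MODULE NL (6.3): cost of a test function (helper3)
-/

set_option autoImplicit false

open MeasureTheory Metric Set TrI
open scoped InnerProductSpace ContDiff

namespace TG

noncomputable section

/-- a continuous function times a continuous function of bounded support is integrable -/
lemma NL_int {d : ℕ} {m Y : Sp d → ℝ} (hm : Continuous m) (hY : Continuous Y) {r : ℝ}
    (h0 : ∀ y, r ≤ ‖y‖ → Y y = 0) : Integrable (fun y => m y * Y y) := by
  refine (hm.mul hY).integrable_of_hasCompactSupport ?_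
  refine HasCompactSupport.intro (isCompact_closedBall (0 : Sp d) r) fun y hy => ?_
  rw [mem_closedBall_zero_iff, not_le] at hy
  show m y * Y y = 0
  rw [h0 y hy.le, mul_zero]

theorem stmtNL : StmtNL := by
  intro d _ ρ hρ
  obtain ⟨C0, hC0, hz⟩ := exists_TFn_zR d 2
  refine ⟨C0 + 1, by linarith, fun m D hm hD hZP Y N hY hY0 => ?_⟩
  have hzρ := hz ρ hρ
  have hYb : ∀ y, |Y y| ≤ N := by
    intro y
    have := hY.bd 0 (by norm_num) y
    rwa [norm_iteratedFDeriv_zero, Real.norm_eq_abs] at this
  have hN0 : 0 ≤ N := (abs_nonneg _).trans (hYb 0)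
  have hYc : Continuous Y := hY.smooth.continuous
  have hzc : Continuous (zR ρ : Sp d → ℝ) := hzρ.smooth.continuous
  rcases hN0.eq_or_lt with hN | hN
  · have hY' : ∀ y, Y y = 0 := by
      intro y
      have := hYb y
      rw [← hN] at this
      exact abs_eq_zero.1 (le_antisymm this (abs_nonneg _))
    simp [hY', ← hN]
  · have hi1 : Integrable (fun y => m y * zR ρ y) := NL_int hm hzc fun y hy => zR_eq_zero hy
    have hi2 : Integrable (fun y => m y * Y y) := NL_int hm hYc hY0
    have key : ∀ σ : ℝ, |σ| = 1 →
        -((C0 + 1) * N * D) ≤ N * (∫ y, m y * zR ρ y) + σ * ∫ y, m y * Y y := by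
      intro σ hσ
      have hM : 0 < N * (C0 + 1) := by positivity
      have ht := ((hzρ.const_mul N).add (hY.const_mul σ)).const_mul (N * (C0 + 1))⁻¹
      rw [abs_of_pos hN, hσ, one_mul, abs_of_pos (inv_pos.2 hM)] at ht
      have hone : (N * (C0 + 1))⁻¹ * (N * C0 + N) = 1 := by
        field_simp
      rw [hone] at ht
      have hnn : ∀ y, 0 ≤ N * zR ρ y + σ * Y y := by
        intro y
        have h1 : |σ * Y y| ≤ N := by rw [abs_mul, hσ, one_mul]; exact hYb y
        rcases le_total ‖y‖ ρ with h | h
        · rw [zR_eq_one h]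
          linarith [(abs_le.1 h1).1]
        · rw [hY0 y h, mul_zero, add_zero]
          exact mul_nonneg hN.le (zR_nonneg _ _)
      have h1 := hZP (fun y => (N * (C0 + 1))⁻¹ * (N * zR ρ y + σ * Y y)) ht.smooth
        (fun y => mul_nonneg (inv_pos.2 hM).le (hnn y))
        (fun y => by
          have h2 := ht.bd 0 (by norm_num) y
          rw [norm_iteratedFDeriv_zero, Real.norm_eq_abs] at h2
          exact (le_abs_self _).trans h2)
        (fun y => ht.bd 2 le_rfl y)
        (fun y hy => by
          show (N * (C0 + 1))⁻¹ * (N * zR ρ y + σ * Y y) = 0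
          rw [zR_eq_zero (by linarith), hY0 y (by linarith)]
          ring)
      have h2 : ∫ y, m y * ((N * (C0 + 1))⁻¹ * (N * zR ρ y + σ * Y y)) =
          (N * (C0 + 1))⁻¹ * (N * (∫ y, m y * zR ρ y) + σ * ∫ y, m y * Y y) := by
        rw [← integral_const_mul, ← integral_const_mul, ← integral_add (hi1.const_mul N)
          (hi2.const_mul σ), ← integral_const_mul]
        congr 1
        funext y
        ring
      rw [h2] at h1
      have h3 := mul_le_mul_of_nonneg_left h1 hM.le
      rw [← mul_assoc, mul_inv_cancel₀ hM.ne', one_mul] at h3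
      linarith
    have k1 := key 1 (by norm_num)
    have k2 := key (-1) (by norm_num)
    rw [abs_le]
    constructor <;> linarith

end

end TG
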