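import Pool.Agent.TG.Stmts13
import Pool.Agent.TG.PTb

/-!
# Module NS: neighbourhoods of cells, partition of unity (helper75)
-/

open MeasureTheory Metric Set TrI
open scoped InnerProductSpace ContDiff ENNReal

namespace TG

namespace NS

noncomputable section

open PTm

variable {d : ℕ}

lemma lev_pos {s0 : ℝ} (hs : 0 < s0) (i : ℕ) : 0 < lev s0 i := by
  unfold lev
  positivity

lemma lev_add (s0 : ℝ) (k i : ℕ) : lev s0 (k + i) = 2 ^ i * lev s0 k := by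
  unfold lev
  rw [pow_add]
  ring

/-- the position of Q' in units of Q', seen from the centre of Q -/
def V (i : ℕ) (Q : Cell d) (p : Fin d → ℤ) : Sp d := lat p - (1 / 2 : ℝ) ^ i • lat Q.2

lemma two_half (i : ℕ) : (2 : ℝ) ^ i * (1 / 2 : ℝ) ^ i = 1 := by
  rw [← mul_pow]; norm_num

lemma half_two (i : ℕ) : (1 / 2 : ℝ) ^ i * (2 : ℝ) ^ i = 1 := by
  rw [← mul_pow]; norm_num

lemma xC_sub {s0 : ℝ} {i : ℕ} {Q Q' : Cell d} (h : Q'.1 = Q.1 + i) :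
    xC s0 Q' - xC s0 Q = lev s0 Q'.1 • V i Q Q'.2 := by
  unfold xC cen V
  rw [h, lev_add, smul_sub, smul_smul]
  congr 2
  linear_combination (-lev s0 Q.1) * two_half i

lemma norm_xC {s0 : ℝ} (hs : 0 < s0) {i : ℕ} {Q Q' : Cell d} (h : Q'.1 = Q.1 + i) :
    ‖xC s0 Q' - xC s0 Q‖ = lev s0 Q'.1 * ‖V i Q Q'.2‖ := by
  rw [xC_sub h, norm_smul, Real.norm_of_nonneg (lev_pos hs _).le]

lemma near_iff {s0 : ℝ} (hs : 0 < s0) (r : ℝ) {i : ℕ} {Q Q' : Cell d} (h : Q'.1 = Q.1 + i) :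
    ‖xC s0 Q' - xC s0 Q‖ ≤ r * lev s0 Q'.1 ↔ ‖V i Q Q'.2‖ ≤ r := by
  rw [norm_xC hs h, mul_comm r]
  exact mul_le_mul_iff_of_pos_left (lev_pos hs _)

lemma tw_eq {s0 : ℝ} (hs : 0 < s0) {i : ℕ} {Q Q' : Cell d} (h : Q'.1 = Q.1 + i) :
    tw s0 Q Q' = (2 : ℝ) ^ i • V i Q Q'.2 := by
  unfold tw
  rw [xC_sub h, h, lev_add, smul_smul]
  congr 1
  have := (lev_pos hs Q.1).ne'
  field_simp

lemma coord_le (x : Sp d) (j : Fin d) : |x j| ≤ ‖x‖ := by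
  rw [← Real.norm_eq_abs]
  exact PiLp.norm_apply_le x j

lemma V_apply (i : ℕ) (Q : Cell d) (p : Fin d → ℤ) (j : Fin d) :
    V i Q p j = (p j : ℝ) - (1 / 2 : ℝ) ^ i * (Q.2 j : ℝ) := rfl

/-- the box condition follows from the distance condition -/
lemma in_box {r : ℝ} {i : ℕ} {Q : Cell d} {p : Fin d → ℤ} (h : ‖V i Q p‖ ≤ r) (j : Fin d) :
    Q.2 j / 2 ^ i - (⌈r⌉ + 1) ≤ p j ∧ p j ≤ Q.2 j / 2 ^ i + (⌈r⌉ + 1) := by
  have h1 := (coord_le (V i Q p) j).trans h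
  rw [V_apply] at h1
  obtain ⟨h2, h3⟩ := abs_le.mp h1
  have hc : r ≤ (⌈r⌉ : ℝ) := Int.le_ceil r
  have hd1 : Q.2 j / 2 ^ i * 2 ^ i ≤ Q.2 j := Int.ediv_mul_le _ (by positivity)
  have hd2 : Q.2 j < (Q.2 j / 2 ^ i + 1) * 2 ^ i := Int.lt_ediv_add_one_mul_self _ (by positivity)
  have hp : (0 : ℝ) < (1 / 2 : ℝ) ^ i := by positivity
  have e1 : ((Q.2 j / 2 ^ i : ℤ) : ℝ) ≤ (1 / 2 : ℝ) ^ i * (Q.2 j : ℝ) := by
    have h4 : ((Q.2 j / 2 ^ i : ℤ) : ℝ) * 2 ^ i ≤ (Q.2 j : ℝ) := by exact_mod_cast hd1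
    have h5 := mul_le_mul_of_nonneg_left h4 hp.le
    have h6 : (1 / 2 : ℝ) ^ i * (((Q.2 j / 2 ^ i : ℤ) : ℝ) * 2 ^ i) = ((Q.2 j / 2 ^ i : ℤ) : ℝ) := by
      linear_combination ((Q.2 j / 2 ^ i : ℤ) : ℝ) * half_two i
    rwa [h6] at h5
  have e2 : (1 / 2 : ℝ) ^ i * (Q.2 j : ℝ) < ((Q.2 j / 2 ^ i : ℤ) : ℝ) + 1 := by
    have h4 : (Q.2 j : ℝ) < (((Q.2 j / 2 ^ i : ℤ) : ℝ) + 1) * 2 ^ i := by exact_mod_cast hd2
    have h5 := mul_lt_mul_of_pos_left h4 hp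
    have h6 : (1 / 2 : ℝ) ^ i * ((((Q.2 j / 2 ^ i : ℤ) : ℝ) + 1) * 2 ^ i) =
        ((Q.2 j / 2 ^ i : ℤ) : ℝ) + 1 := by
      linear_combination (((Q.2 j / 2 ^ i : ℤ) : ℝ) + 1) * half_two i
    rwa [h6] at h5
  constructor
  · have h4 : ((Q.2 j / 2 ^ i : ℤ) : ℝ) - ((⌈r⌉ : ℝ) + 1) ≤ (p j : ℝ) := by linarith
    exact_mod_cast h4
  · have h4 : (p j : ℝ) ≤ ((Q.2 j / 2 ^ i : ℤ) : ℝ) + ((⌈r⌉ : ℝ) + 1) := by linarith
    exact_mod_cast h4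

lemma mem_nst {s0 : ℝ} (hs : 0 < s0) (r : ℝ) (JA : ℕ) (Q Q' : Cell d) :
    Q' ∈ nst s0 r JA Q ↔ ∃ i ≤ JA, Q'.1 = Q.1 + i ∧
      ‖xC s0 Q' - xC s0 Q‖ ≤ r * lev s0 Q'.1 := by
  unfold nst
  rw [Finset.mem_filter, Finset.mem_biUnion]
  constructor
  · rintro ⟨⟨i, hi, hm⟩, hn⟩
    rw [Finset.mem_range] at hi
    rw [Finset.mem_product, Finset.mem_singleton] at hm
    exact ⟨i, by omega, hm.1, hn⟩
  · rintro ⟨i, hi, h1, h2⟩
    refine ⟨⟨i, Finset.mem_range.mpr (by omega), ?_⟩, h2⟩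
    rw [Finset.mem_product, Finset.mem_singleton, Fintype.mem_piFinset]
    refine ⟨h1, fun j => ?_⟩
    have h3 := (near_iff hs r h1).mp h2
    exact Finset.mem_Icc.mpr (in_box h3 j)

lemma mem_nst' {s0 : ℝ} (hs : 0 < s0) (r : ℝ) {JA i : ℕ} (hi : i ≤ JA) (Q : Cell d)
    (p : Fin d → ℤ) : ((Q.1 + i, p) : Cell d) ∈ nst s0 r JA Q ↔ ‖V i Q p‖ ≤ r := by
  rw [mem_nst hs]
  constructor
  · rintro ⟨k, hk, h1, h2⟩
    have hk' : k = i := by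
      have : Q.1 + i = Q.1 + k := h1
      omega
    subst hk'
    exact (near_iff (Q' := (Q.1 + k, p)) hs r h1).mp h2
  · intro h
    exact ⟨i, hi, rfl, (near_iff (Q' := (Q.1 + i, p)) hs r rfl).mpr h⟩

/-- sum over the cells of one level as a sum over lattice points -/
lemma sum_level {s0 : ℝ} (hs : 0 < s0) (r : ℝ) {JA i : ℕ} (hi : i ≤ JA) (Q : Cell d)
    (g : (Fin d → ℤ) → ℝ) :
    ∃ S : Finset (Fin d → ℤ), (∀ p, p ∈ S ↔ ‖V i Q p‖ ≤ r) ∧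
      ∑ Q' ∈ (nst s0 r JA Q).filter (fun Q' => Q'.1 = Q.1 + i), g Q'.2 = ∑ p ∈ S, g p := by
  classical
  refine ⟨((nst s0 r JA Q).filter (fun Q' => Q'.1 = Q.1 + i)).image Prod.snd, ?_, ?_⟩
  · intro p
    rw [Finset.mem_image]
    constructor
    · rintro ⟨Q', h1, rfl⟩
      rw [Finset.mem_filter] at h1
      have e : Q' = (Q.1 + i, Q'.2) := Prod.ext h1.2 rfl
      have h2 := h1.1
      rw [e] at h2
      exact (mem_nst' hs r hi Q _).mp h2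
    · intro h
      exact ⟨(Q.1 + i, p), Finset.mem_filter.mpr ⟨(mem_nst' hs r hi Q p).mpr h, rfl⟩, rfl⟩
  · rw [Finset.sum_image]
    intro Q1 h1 Q2 h2 h
    have e1 := (Finset.mem_filter.mp h1).2
    have e2 := (Finset.mem_filter.mp h2).2
    exact Prod.ext (e1.trans e2.symm) h

lemma arg_eq {s0 : ℝ} (hs : 0 < s0) {i : ℕ} {Q Q' : Cell d} (h : Q'.1 = Q.1 + i) (y : Sp d) :
    ((1 / 2 : ℝ) ^ i) • (y - tw s0 Q Q') =
      ((1 / 2 : ℝ) ^ i • (y + lat Q.2)) - lat Q'.2 := by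
  rw [tw_eq hs h, smul_sub, smul_smul, half_two, one_smul, smul_add]
  unfold V
  abel

/-- large boxes -/
lemma big (r : ℝ) (i : ℕ) (Q : Cell d) (z : Sp d) :
    ∃ L : ℕ, (∀ j, |z j| ≤ L) ∧ ∀ p, ‖V i Q p‖ ≤ r → p ∈ box d L := by
  obtain ⟨L, hL⟩ := exists_nat_ge (‖z‖ + |r| + ‖(1 / 2 : ℝ) ^ i • lat Q.2‖)
  have h0 := norm_nonneg z
  have h1 := abs_nonneg r
  have h2 := norm_nonneg ((1 / 2 : ℝ) ^ i • lat Q.2)
  refine ⟨L, fun j => (coord_le z j).trans (by linarith), fun p hp => ?_⟩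
  have h3 : ‖lat p‖ ≤ ‖V i Q p‖ + ‖(1 / 2 : ℝ) ^ i • lat Q.2‖ := by
    have := norm_add_le (V i Q p) ((1 / 2 : ℝ) ^ i • lat Q.2)
    unfold V at this ⊢
    rwa [sub_add_cancel] at this
  have h4 : ‖lat p‖ ≤ L := by
    have := le_abs_self r
    linarith
  unfold box
  rw [Fintype.mem_piFinset]
  intro j
  have h5 := (coord_le (lat p) j).trans h4
  rw [lat_apply] at h5
  obtain ⟨h6, h7⟩ := abs_le.mp h5
  have h8 : ((-(L : ℤ) : ℤ) : ℝ) ≤ ((p j : ℤ) : ℝ) := by push_cast; exact h6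
  have h9 : ((p j : ℤ) : ℝ) ≤ (((L : ℕ) : ℤ) : ℝ) := by push_cast; exact h7
  rw [Finset.mem_Icc]
  exact ⟨Int.cast_le.mp h8, Int.cast_le.mp h9⟩

end

end NS

open NS PTm in
/-- MODULE NS -/
theorem stmtNS : StmtNS := by
  intro d hd s0 r hs hr JA Q
  have hsqrt : Real.sqrt d ≤ d := by
    rw [Real.sqrt_le_left (by positivity)]
    have : (1 : ℝ) ≤ d := by exact_mod_cast hd
    nlinarith
  -- same level
  have hV0 : ∀ p : Fin d → ℤ, V 0 Q p = lat (fun j => p j - Q.2 j) := by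
    intro p
    ext j
    rw [V_apply, lat_apply]
    push_cast
    ring
  have htw0 : ∀ Q' : Cell d, Q'.1 = Q.1 → tw s0 Q Q' = dsp Q Q' := by
    intro Q' h
    rw [tw_eq hs (i := 0) (by omega), pow_zero, one_smul, hV0]
    rfl
  have hadj : ∀ Q' ∈ adj Q, Q'.1 = Q.1 ∧ ‖V 0 Q Q'.2‖ ≤ Real.sqrt d := by
    intro Q' hQ'
    unfold adj at hQ'
    rw [Finset.mem_product, Finset.mem_singleton, Fintype.mem_piFinset] at hQ'
    refine ⟨hQ'.1, ?_⟩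
    rw [EuclideanSpace.norm_eq]
    refine Real.sqrt_le_sqrt ?_
    have h1 : ∀ j : Fin d, ‖V 0 Q Q'.2 j‖ ^ 2 ≤ 1 := by
      intro j
      have h2 := Finset.mem_Icc.mp (hQ'.2 j)
      rw [hV0, lat_apply, Real.norm_eq_abs, sq_abs]
      have h3 : (Q'.2 j - Q.2 j) = -1 ∨ (Q'.2 j - Q.2 j) = 0 ∨ (Q'.2 j - Q.2 j) = 1 := by omega
      rcases h3 with h3 | h3 | h3
      · rw [h3]; norm_num
      · rw [h3]; norm_num
      · rw [h3]; norm_num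
    calc ∑ j, ‖V 0 Q Q'.2 j‖ ^ 2 ≤ ∑ _j : Fin d, (1 : ℝ) := Finset.sum_le_sum fun j _ => h1 j
      _ = d := by simp
  refine ⟨fun Q' => mem_nst hs r JA Q Q', ?_, ?_, ?_, htw0, ?_, ?_, ?_⟩
  · intro i hi Q' h
    refine ⟨?_, ?_, ?_⟩
    · unfold cw
      rw [h, lev_add, mul_pow, pow_mul]
    · rw [h, lev_add]
    · rw [tw_eq hs h, norm_smul, Real.norm_of_nonneg (by positivity)]
      have e : Q' = (Q.1 + i, Q'.2) := Prod.ext h rfl
      rw [e, mem_nst' hs r hi]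
      rw [mul_comm r]
      exact (mul_le_mul_iff_of_pos_left (by positivity)).symm
  · intro i hi y hy
    set z : Sp d := (1 / 2 : ℝ) ^ i • (y + lat Q.2) with hz
    obtain ⟨S, hS, hsum⟩ := sum_level hs r hi Q (fun p => chi (z - lat p))
    obtain ⟨L, hL1, hL2⟩ := big r i Q z
    have e1 : ∑ Q' ∈ (nst s0 r JA Q).filter (fun Q' => Q'.1 = Q.1 + i),
        chi (((1 / 2 : ℝ) ^ i) • (y - tw s0 Q Q')) =
        ∑ Q' ∈ (nst s0 r JA Q).filter (fun Q' => Q'.1 = Q.1 + i), chi (z - lat Q'.2) := by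
      refine Finset.sum_congr rfl fun Q' hQ' => ?_
      rw [arg_eq hs (Finset.mem_filter.mp hQ').2]
    rw [e1, hsum, ← chi_sum L hL1]
    refine Finset.sum_subset (fun p hp => hL2 p ((hS p).mp hp)) fun p _ hp => ?_
    rw [hS, not_le] at hp
    refine chi_supp ?_ hd
    have e2 : z - lat p = (1 / 2 : ℝ) ^ i • y - V i Q p := by
      rw [hz, smul_add]
      unfold V
      abel
    rw [e2]
    have h1 : ‖(1 / 2 : ℝ) ^ i • y‖ ≤ r - d := by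
      rw [norm_smul, Real.norm_of_nonneg (by positivity)]
      calc (1 / 2 : ℝ) ^ i * ‖y‖ ≤ (1 / 2 : ℝ) ^ i * ((r - d) * 2 ^ i) :=
            mul_le_mul_of_nonneg_left hy (by positivity)
        _ = r - d := by linear_combination (r - d) * half_two i
    have h2 : ‖V i Q p‖ ≤ ‖(1 / 2 : ℝ) ^ i • y - V i Q p‖ + ‖(1 / 2 : ℝ) ^ i • y‖ := by
      have := norm_sub_le ((1 / 2 : ℝ) ^ i • y) ((1 / 2 : ℝ) ^ i • y - V i Q p)
      rw [sub_sub_cancel] at this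
      linarith
    linarith
  · intro i hi y
    set z : Sp d := (1 / 2 : ℝ) ^ i • (y + lat Q.2) with hz
    obtain ⟨S, hS, hsum⟩ := sum_level hs r hi Q (fun p => chi (z - lat p))
    obtain ⟨L, hL1, hL2⟩ := big r i Q z
    have e1 : ∑ Q' ∈ (nst s0 r JA Q).filter (fun Q' => Q'.1 = Q.1 + i),
        chi (((1 / 2 : ℝ) ^ i) • (y - tw s0 Q Q')) =
        ∑ Q' ∈ (nst s0 r JA Q).filter (fun Q' => Q'.1 = Q.1 + i), chi (z - lat Q'.2) := by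
      refine Finset.sum_congr rfl fun Q' hQ' => ?_
      rw [arg_eq hs (Finset.mem_filter.mp hQ').2]
    rw [e1, hsum, ← chi_sum L hL1]
    exact Finset.sum_le_sum_of_subset_of_nonneg (fun p hp => hL2 p ((hS p).mp hp))
      fun p _ _ => chi_nonneg _
  · intro Q' hQ'
    obtain ⟨h1, h2⟩ := hadj Q' hQ'
    rw [tw_eq hs (i := 0) (by omega), pow_zero, one_smul]
    exact h2
  · rintro Q' h ⟨y, hy1, hy2⟩
    rw [htw0 Q' h] at hy2
    unfold adj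
    rw [Finset.mem_product, Finset.mem_singleton, Fintype.mem_piFinset]
    refine ⟨h, fun j => ?_⟩
    have h1 : |y j| < 1 := by
      by_contra hcon
      exact hy1 (chi_zero (not_lt.mp hcon))
    have h2 : |(y - dsp Q Q') j| < 1 := by
      by_contra hcon
      exact hy2 (chi_zero (not_lt.mp hcon))
    have e : (y - dsp Q Q') j = y j - ((Q'.2 j - Q.2 j : ℤ) : ℝ) := rfl
    rw [e] at h2
    obtain ⟨h3, h4⟩ := abs_lt.mp h1
    obtain ⟨h5, h6⟩ := abs_lt.mp h2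
    have h7 : ((Q'.2 j - Q.2 j : ℤ) : ℝ) < (2 : ℤ) := by push_cast at *; linarith
    have h8 : ((-2 : ℤ) : ℝ) < ((Q'.2 j - Q.2 j : ℤ) : ℝ) := by push_cast at *; linarith
    have h9 : Q'.2 j - Q.2 j < 2 := by exact_mod_cast h7
    have h10 : -2 < Q'.2 j - Q.2 j := by exact_mod_cast h8
    rw [Finset.mem_Icc]
    omega
  · intro hrd Q' hQ'
    obtain ⟨h1, h2⟩ := hadj Q' hQ'
    rw [mem_nst hs]
    refine ⟨0, Nat.zero_le _, by omega, ?_⟩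
    exact (near_iff hs r (i := 0) (by omega)).mpr (h2.trans hrd)

end TG
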