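import Pool.Agent.TG.P1b

/-!
# Trace inequality, general operators: module P1, the pair inequalities   (helper52)
-/

open MeasureTheory Metric Set TrI
open scoped InnerProductSpace ContDiff ENNReal

namespace TG

namespace P1x

noncomputable section

variable {d : ℕ}

/-- Harnack for the weights, finitely many scales -/
lemma harn (hd : 2 ≤ d) {C' r : ℝ} (hC' : 0 < C') (hr : 0 ≤ r) (JA : ℕ) :
    ∃ C : ℝ, 1 ≤ C ∧ ∀ i ≤ JA, ∀ μ : Measure (Sp d), Gro C' μ → ∀ s0 : ℝ, 0 < s0 →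
      ∀ Q Q' : Cell d, Q'.1 = Q.1 + i → ‖xC s0 Q' - xC s0 Q‖ ≤ r * lev s0 Q'.1 →
        omC μ s0 Q' ≤ C * omC μ s0 Q ∧ omC μ s0 Q ≤ C * omC μ s0 Q' := by
  have h := fun i => stmtCT7 d hd C' 1 1 r hC' one_pos le_rfl le_rfl hr i
  choose C hC hH using h
  have hCn : ∀ i, 0 ≤ C i := fun i => (hC i).le
  refine ⟨1 + ∑ i ∈ Finset.range (JA + 1), C i, ?_, ?_⟩
  · have := Finset.sum_nonneg fun i (_ : i ∈ Finset.range (JA + 1)) => hCn i
    linarith
  · intro i hi μ hμ s0 hs0 Q Q' h1 h2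
    obtain ⟨h3, h4⟩ := (hH i μ hμ s0 hs0).2.2.1 Q Q' h1 h2
    have h5 : 0 ≤ omC μ s0 Q := Real.sqrt_nonneg _
    have h6 : 0 ≤ omC μ s0 Q' := Real.sqrt_nonneg _
    have h7 : C i ≤ 1 + ∑ i ∈ Finset.range (JA + 1), C i := by
      have := Finset.single_le_sum (f := C) (fun i _ => hCn i)
        (Finset.mem_range.2 (by omega : i < JA + 1))
      linarith
    exact ⟨h3.trans (mul_le_mul_of_nonneg_right h7 h5), h4.trans (mul_le_mul_of_nonneg_right h7 h6)⟩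

lemma cw_pos {s0 : ℝ} (h : 0 < s0) (Q : Cell d) : 0 < cw s0 Q := by
  unfold cw lev
  positivity

/-- arithmetic: the gain -/
lemma ar1 {w v w' v' ab ab' G G' K1 Kg0 Kg B S2 z δ C : ℝ} (hw' : 0 ≤ w') (hE : 0 ≤ w * v)
    (hww : w' * v' ≤ B * (w * v)) (hab : 0 ≤ ab) (hv' : 0 ≤ v') (hG : 0 ≤ G) (hG' : 0 ≤ G')
    (hG1 : G ≤ Kg0 * v') (hz : 0 ≤ z) (hzS : z ≤ S2) (hK1 : 0 ≤ K1) (hKg0 : 0 ≤ Kg0)
    (hKg : 0 ≤ Kg) (hB : 0 ≤ B) (hab' : 0 ≤ ab') (hC : 8 ≤ C)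
    (h : ab ≤ K1 * z ∨ (ab ≤ 2 * ab' ∧ G ≤ 4 * G' + Kg * δ ^ 2 * v' ∧ ab * δ ^ 2 ≤ K1 * S2)) :
    w' * (ab * G) ≤ C * (w' * (ab' * G')) + B * (Kg0 * K1 + Kg * K1) * (w * v) * S2 := by
  have hS2 : 0 ≤ S2 := hz.trans hzS
  have n1 : 0 ≤ w' * (ab' * G') := by positivity
  have n2 : 0 ≤ B * (Kg * K1) * (w * v) * S2 := by positivity
  have n3 : 0 ≤ B * (Kg0 * K1) * (w * v) * S2 := by positivity
  have n4 : 0 ≤ (C - 8) * (w' * (ab' * G')) := mul_nonneg (by linarith) n1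
  rcases h with h | ⟨h1, h2, h3⟩
  · have e1 : ab * G ≤ (K1 * z) * (Kg0 * v') := mul_le_mul h hG1 hG (by positivity)
    have e2 : w' * (ab * G) ≤ (w' * v') * (Kg0 * K1 * S2) := by
      calc w' * (ab * G) ≤ w' * ((K1 * z) * (Kg0 * v')) := mul_le_mul_of_nonneg_left e1 hw'
        _ = (w' * v' * (Kg0 * K1)) * z := by ring
        _ ≤ (w' * v' * (Kg0 * K1)) * S2 := mul_le_mul_of_nonneg_left hzS (by positivity)
        _ = _ := by ring
    have e3 : (w' * v') * (Kg0 * K1 * S2) ≤ B * (w * v) * (Kg0 * K1 * S2) :=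
      mul_le_mul_of_nonneg_right hww (by positivity)
    have e4 : 0 ≤ C * (w' * (ab' * G')) := by nlinarith
    linarith
  · have e1 : ab * G ≤ 8 * (ab' * G') + Kg * v' * (K1 * S2) := by
      calc ab * G ≤ ab * (4 * G' + Kg * δ ^ 2 * v') := mul_le_mul_of_nonneg_left h2 hab
        _ = 4 * G' * ab + Kg * v' * (ab * δ ^ 2) := by ring
        _ ≤ 4 * G' * (2 * ab') + Kg * v' * (K1 * S2) :=
            add_le_add (mul_le_mul_of_nonneg_left h1 (by positivity))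
              (mul_le_mul_of_nonneg_left h3 (by positivity))
        _ = _ := by ring
    have e2 : w' * (ab * G) ≤ 8 * (w' * (ab' * G')) + (w' * v') * (Kg * K1 * S2) := by
      have := mul_le_mul_of_nonneg_left e1 hw'
      linarith
    have e3 : (w' * v') * (Kg * K1 * S2) ≤ B * (w * v) * (Kg * K1 * S2) :=
      mul_le_mul_of_nonneg_right hww (by positivity)
    linarith

/-- arithmetic: the mass -/
lemma ar2 {w v w' v' ab ab' P P' I e K1 Ke Ka CH B S1 z δ C : ℝ} (hw' : 0 ≤ w')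
    (hww : w' * v' ≤ B * (w * v)) (hww2 : w' * v ≤ B * (w * v))
    (hv : 0 ≤ v) (hv' : 0 ≤ v') (hvv : v ≤ CH * v') (hab : 0 ≤ ab)
    (hP1 : P ≤ Ka) (hz : 0 ≤ z) (hzS : z ≤ S1) (he : 0 ≤ e) (heS : e ≤ S1)
    (hK1 : 0 ≤ K1) (hKe : 0 ≤ Ke) (hKa : 0 ≤ Ka)
    (hab' : 0 ≤ ab') (hP' : 0 ≤ P') (hI : |I - ab' * P'| ≤ Ke * e) (hCH : 0 ≤ CH)
    (hC : 4 * CH ≤ C) (hδ : 0 ≤ δ) (hδ1 : δ ≤ 1)
    (h : ab ≤ K1 * z ∨ (ab ≤ 2 * ab' ∧ P ≤ 2 * P' + Ka * δ ^ 2 ∧ ab * δ ≤ K1 * S1)) :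
    w' * (v * (ab * P)) ≤ C * (w' * v') * I + (C * B * Ke + B * Ka * K1) * (w * v) * S1 := by
  have hS1 : 0 ≤ S1 := hz.trans hzS
  obtain ⟨i1, i2⟩ := abs_le.1 hI
  have hX : ab' * P' ≤ I + Ke * e := by linarith
  have hX0 : 0 ≤ I + Ke * e := le_trans (by positivity) hX
  have hC0 : 0 ≤ C := le_trans (by positivity) hC
  have a1 : ab * P ≤ 4 * (I + Ke * e) + Ka * (K1 * S1) := by
    rcases h with h | ⟨h1, h2, h3⟩
    · calc ab * P ≤ ab * Ka := mul_le_mul_of_nonneg_left hP1 hab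
        _ ≤ (K1 * z) * Ka := mul_le_mul_of_nonneg_right h hKa
        _ = K1 * Ka * z := by ring
        _ ≤ K1 * Ka * S1 := mul_le_mul_of_nonneg_left hzS (by positivity)
        _ ≤ _ := by linarith
    · have hδ2 : δ ^ 2 ≤ δ := by nlinarith
      calc ab * P ≤ ab * (2 * P' + Ka * δ ^ 2) := mul_le_mul_of_nonneg_left h2 hab
        _ = 2 * P' * ab + Ka * (ab * δ ^ 2) := by ring
        _ ≤ 2 * P' * (2 * ab') + Ka * (ab * δ) :=
            add_le_add (mul_le_mul_of_nonneg_left h1 (by positivity))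
              (mul_le_mul_of_nonneg_left (mul_le_mul_of_nonneg_left hδ2 hab) hKa)
        _ ≤ 4 * (I + Ke * e) + Ka * (K1 * S1) := by
            have := mul_le_mul_of_nonneg_left h3 hKa
            linarith
  have a2 : v * (ab * P) ≤ C * v' * (I + Ke * e) + v * (Ka * K1 * S1) := by
    have b1 := mul_le_mul_of_nonneg_left a1 hv
    have b2 : v * (4 * (I + Ke * e)) ≤ C * v' * (I + Ke * e) := by
      calc v * (4 * (I + Ke * e)) ≤ (CH * v') * (4 * (I + Ke * e)) :=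
            mul_le_mul_of_nonneg_right hvv (by positivity)
        _ = (4 * CH) * (v' * (I + Ke * e)) := by ring
        _ ≤ C * (v' * (I + Ke * e)) := mul_le_mul_of_nonneg_right hC (by positivity)
        _ = _ := by ring
    linarith
  have a3 := mul_le_mul_of_nonneg_left a2 hw'
  have a4 : C * (w' * v') * (Ke * e) ≤ C * B * Ke * (w * v) * S1 := by
    calc C * (w' * v') * (Ke * e) = (w' * v') * (C * Ke * e) := by ring
      _ ≤ (B * (w * v)) * (C * Ke * e) := mul_le_mul_of_nonneg_right hww (by positivity)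
      _ = ((B * (w * v)) * (C * Ke)) * e := by ring
      _ ≤ ((B * (w * v)) * (C * Ke)) * S1 := by
          refine mul_le_mul_of_nonneg_left heS (mul_nonneg ?_ (by positivity))
          exact le_trans (by positivity) hww
      _ = _ := by ring
  have a5 : (w' * v) * (Ka * K1 * S1) ≤ (B * (w * v)) * (Ka * K1 * S1) :=
    mul_le_mul_of_nonneg_right hww2 (by positivity)
  linarith

/-- arithmetic: the off-sheet mass -/
lemma ar3 {w v v' L I2 CH C K S2 : ℝ} (hw : 0 ≤ w) (hv : 0 ≤ v) (hv' : 0 ≤ v')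
    (hvv : v ≤ CH * v') (hC : 2 * CH ≤ C) (hL : L ≤ 2 * max 0 I2 + K * S2) :
    w * (v * L) ≤ C * (w * max 0 (v' * I2)) + K * (w * v) * S2 := by
  have h1 : max 0 (v' * I2) = v' * max 0 I2 := by
    rw [mul_max_of_nonneg _ _ hv', mul_zero]
  have h0 : 0 ≤ max 0 I2 := le_max_left _ _
  have h2 : v * L ≤ C * (v' * max 0 I2) + v * (K * S2) := by
    have b1 := mul_le_mul_of_nonneg_left hL hv
    have b2 : v * (2 * max 0 I2) ≤ C * (v' * max 0 I2) := by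
      calc v * (2 * max 0 I2) ≤ (CH * v') * (2 * max 0 I2) :=
            mul_le_mul_of_nonneg_right hvv (by positivity)
        _ = (2 * CH) * (v' * max 0 I2) := by ring
        _ ≤ _ := mul_le_mul_of_nonneg_right hC (by positivity)
    linarith
  have h3 := mul_le_mul_of_nonneg_left h2 hw
  rw [h1]
  linarith

end

end P1x

open P1x in
/-- MODULE P1 -/
theorem stmtP1 (hGS : StmtGS) (hTC : StmtTC) (hNS : StmtNS) (hFM : StmtFM) (hWA : StmtWA)
    (hPF : StmtPF) : StmtP1 := by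
  intro d J JA hd M c0 C' c R0 X hX
  have hd1 : 1 ≤ d := by omega
  have hd0 : (0 : ℝ) ≤ d := Nat.cast_nonneg d
  have hC' := hX.C'_pos
  have hε := hX.prm.ε_pos
  have hε4 := hX.prm.ε_le
  have hA := hX.prm.A_ge
  have hRg := hX.R0_ge
  have hR0 : (d : ℝ) + 1 ≤ R0 := by linarith
  have hR01 : 1 ≤ R0 := by linarith
  have hR00 : 0 ≤ R0 := by linarith
  obtain ⟨K1, hK1, hpair⟩ := pair (d := d) hGS hd J JA hR01
  obtain ⟨Ke, hKe, hest⟩ := chi_est (d := d) hd1 J hR0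
  obtain ⟨Kg0, hKg0, hgain0⟩ := gain0 (d := d) (M := M) hWA hPF hd hC' hε
    (by linarith : X.ε ≤ 1)
  obtain ⟨Kg, hKg, hgain⟩ := gain (d := d) (M := M) hTC hd hC' hε hε4 hR00
  obtain ⟨Ka, hKa, ha, harea⟩ := area (d := d) hPF hd hR00
  obtain ⟨Ko, hKo, hoff⟩ := off (d := d) hPF hd J hR0
  obtain ⟨CH, hCH, hH⟩ := harn (d := d) hd (C' := C') (r := 3 * R0) hC' (by linarith) JA
  obtain ⟨Kb, hKb, hblc⟩ := le_blc (d := d) (R := 64 * R0) (cs := 3 / 2 * (64 * R0))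
    (by linarith)
  obtain ⟨Nc, hNc, hc⟩ := TA2Aux.chi_TFnJ (d := d) hd1 2
  have hCH0 : 0 < CH := by linarith
  have hK10 : 0 < K1 := by linarith
  set C : ℝ := 8 + 4 * CH with hC
  have hC0 : 0 < C := by rw [hC]; linarith
  set B : ℝ := 2 ^ (JA * (d - 1)) * CH with hB
  have hB0 : 0 < B := by rw [hB]; positivity
  set Nz : ℝ := 4 ^ 2 * Nc * max 1 (3 * R0 + d + 100 * R0) ^ 2 with hNz
  have hNz0 : 0 < Nz := by rw [hNz]; positivity
  set Q1 : ℝ := B * (Kg0 * K1 + Kg * K1) with hQ1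
  set Q2 : ℝ := C * B * Ke + B * Ka * K1 with hQ2
  set Q3 : ℝ := K1 + Kb * (1 + Nc) with hQ3
  set Q4 : ℝ := Nz + 2 * (Ko * K1) + Ko with hQ4
  have p1 : 0 < Q1 := by rw [hQ1]; positivity
  have p2 : 0 < Q2 := by rw [hQ2]; positivity
  have p3 : 0 < Q3 := by rw [hQ3]; positivity
  have p4 : 0 < Q4 := by rw [hQ4]; positivity
  refine ⟨C, hC0, ?_⟩
  intro Kc hKc
  refine ⟨1 / (K1 * (1 + Kc)), Q1 + Q2 + Q3 + Q4 + 2 * K1, 64 * R0 + 1, by positivity,
    by positivity, ?_⟩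
  intro E _ _ _ W hW Q hsv hQ Q' hQ' hQ2' habK i hi
  set κ : ℝ := 1 / (K1 * (1 + Kc)) with hκ
  have hκ0 : 0 < κ := by rw [hκ]; positivity
  have hκK : K1 * (κ * (1 + Kc)) = 1 := by
    rw [hκ]
    field_simp
  have hκ1 : κ ≤ 1 := by
    rw [hκ, div_le_one (by positivity)]
    nlinarith
  clear_value κ
  have hs0 := hW.s0_pos
  obtain ⟨hmem, hsc, -⟩ := hNS d hd1 W.s0 (3 * R0) hs0 (by linarith) JA Q
  obtain ⟨i', hi', hl, hx0⟩ := (hmem Q').1 hQ'
  have hii : i' = i := by omega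
  subst hii
  obtain ⟨hwT, -, hmem2⟩ := hsc i' hi' Q' hi
  have hx : ‖tw W.s0 Q Q'‖ ≤ 3 * R0 * 2 ^ i' := hmem2.1 hQ'
  obtain ⟨hfA, hfB, hfC, hfD⟩ := hFM d hd C' hC' W.s0 hs0 i' Q Q' hi (tw W.s0 Q Q') rfl
  obtain ⟨hGr, hv1, -, -, hXX⟩ := hfD W.μ hW.gro
  obtain ⟨hGr', hv1', -⟩ := (hFM d hd C' hC' W.s0 hs0 0 Q' Q' rfl _ rfl).2.2.2 W.μ hW.gro
  have hm' : W.m Q' = fun y => 2 ^ i' * mQ W.s0 W.f (W.e Q') Q
      (tw W.s0 Q Q' + (2 : ℝ) ^ i' • y) := funext fun y => hfA E W.f (W.e Q') y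
  have hmc : Continuous (W.m Q) := FR.mQ_cont hW.fc _ _ _
  have hmc' : Continuous (W.m Q') := FR.mQ_cont hW.fc _ _ _
  have hmx : Continuous (mQ W.s0 W.f (W.e Q') Q) := FR.mQ_cont hW.fc _ _ _
  have hn := hW.nu Q
  have hn' := hW.nu Q'
  have hab := hQ.sh.ab0
  have hab' := hQ2'.sh.ab0
  have her := hQ.sh.ep0
  have her' := hQ2'.sh.ep0
  have hD := hW.D0 Q
  have hD' := hW.D0 Q'
  have hdl := hQ.dl0
  have hdl' := hQ2'.dl0
  have hw : 0 < W.w Q := cw_pos hs0 Q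
  have hw' : 0 < W.w Q' := cw_pos hs0 Q'
  have hv : 0 ≤ W.v Q := Real.sqrt_nonneg _
  have hv' : 0 ≤ W.v Q' := Real.sqrt_nonneg _
  obtain ⟨hH1, hH2⟩ := hH i' hi' W.μ hW.gro W.s0 hs0 Q Q' hi hx0
  have hH1' : W.v Q' ≤ CH * W.v Q := hH1
  have hH2' : W.v Q ≤ CH * W.v Q' := hH2
  have hwT' : W.w Q' = (2 : ℝ) ^ (i' * (d - 1)) * W.w Q := hwT
  have hwle : W.w Q' ≤ 2 ^ (JA * (d - 1)) * W.w Q := by
    rw [hwT']
    refine mul_le_mul_of_nonneg_right ?_ hw.le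
    exact pow_le_pow_right₀ (by norm_num) (Nat.mul_le_mul_right _ hi')
  have hE : 0 ≤ W.w Q * W.v Q := mul_nonneg hw.le hv
  have hww : W.w Q' * W.v Q' ≤ B * (W.w Q * W.v Q) := by
    calc W.w Q' * W.v Q' ≤ (2 ^ (JA * (d - 1)) * W.w Q) * (CH * W.v Q) :=
          mul_le_mul hwle hH1' hv' (by positivity)
      _ = _ := by rw [hB]; ring
  have hww2 : W.w Q' * W.v Q ≤ B * (W.w Q * W.v Q) := by
    calc W.w Q' * W.v Q ≤ (2 ^ (JA * (d - 1)) * W.w Q) * W.v Q :=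
          mul_le_mul_of_nonneg_right hwle hv
      _ = 2 ^ (JA * (d - 1)) * (W.w Q * W.v Q) * 1 := by ring
      _ ≤ 2 ^ (JA * (d - 1)) * (W.w Q * W.v Q) * CH :=
          mul_le_mul_of_nonneg_left hCH (by positivity)
      _ = _ := by rw [hB]; ring
  -- the kernels
  have hXe : W.X.ε = X.ε := by rw [hW.X_eq]
  have hkit : Kit (J + 10) M (W.be Q') := by
    unfold Wld.be bQ
    rw [hW.X_eq]
    exact hX.ker.kit _
  -- the alternative
  have hpr := hpair i' hi' (W.m Q) (mQ W.s0 W.f (W.e Q') Q) (W.nv Q) (W.nv Q') (tw W.s0 Q Q')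
    (W.sv Q) (W.sv Q') (W.ab Q) (W.ab Q') (W.er Q) (W.er Q') (W.dl Q) (W.dl Q') (W.D Q) (W.D Q')
    Kc κ hmc hmx hD hD' hdl hdl' hQ.sh (by rw [← hm']; exact hQ2'.sh) (hW.zp Q)
    (by rw [← hm']; exact hW.zp Q') (fun Y N hY hYs => hW.dir Q Q' hQ' Y N hY hYs) hsv hx hQ.bl
    (by rw [← hm']; exact hQ2'.bl) hKc hκ0 hκK.le hQ.small hQ.smalld hQ2'.small hQ2'.smalld habK
  set S2 : ℝ := W.er Q ^ 2 / W.ab Q + W.er Q' ^ 2 / W.ab Q' + W.dl Q + W.dl Q' + W.D Q + W.D Q'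
    with hS2
  set S1 : ℝ := W.er Q + W.er Q' + W.dl Q + W.dl Q' + W.D Q + W.D Q' with hS1
  have hq1 : 0 ≤ W.er Q ^ 2 / W.ab Q := by positivity
  have hq2 : 0 ≤ W.er Q' ^ 2 / W.ab Q' := by positivity
  have hDS2 : W.D Q + W.D Q' ≤ S2 := by rw [hS2]; linarith
  have hDS1 : W.D Q + W.D Q' ≤ S1 := by rw [hS1]; linarith
  have hS20 : 0 ≤ S2 := by linarith
  have hS10 : 0 ≤ S1 := by linarith
  clear_value S1 S2
  set st : ℝ := (1 / 2 : ℝ) ^ i' * (W.sv Q - ⟪W.nv Q, tw W.s0 Q Q'⟫_ℝ) with hst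
  clear_value Q1 Q2 Q3 Q4
  have hchi : ∀ y : Sp d, ((1 / 2 : ℝ) ^ i') • (tw W.s0 Q Q' + (2 : ℝ) ^ i' • y -
      tw W.s0 Q Q') = y := by
    intro y
    rw [add_sub_cancel_left, smul_smul, ← mul_pow]
    norm_num
  refine ⟨?_, ?_, ?_, ?_⟩
  · -- the gain
    obtain ⟨g1, g2⟩ := hgain0 (W.be Q') (hkit.mono_order (by omega)) (W.mu Q') hGr' (W.nv Q) hn st
    obtain ⟨g3, -⟩ := hgain0 (W.be Q') (hkit.mono_order (by omega)) (W.mu Q') hGr' (W.nv Q') hn'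
      (W.sv Q')
    have g4 : vv (W.mu Q') 1 0 = W.v Q' := hv1'
    rw [g4] at g2
    have hT := hfC (W.nv Q) (W.sv Q) (fun x => chi (((1 / 2 : ℝ) ^ i') • (x - tw W.s0 Q Q')) *
      XX (W.be Q') W.X.ε (W.mu Q) (W.nv Q) (2 ^ i') x) hn
    have hT2 : (fun y => chi (((1 / 2 : ℝ) ^ i') • (tw W.s0 Q Q' + (2 : ℝ) ^ i' • y -
        tw W.s0 Q Q')) * XX (W.be Q') W.X.ε (W.mu Q) (W.nv Q) (2 ^ i')
          (tw W.s0 Q Q' + (2 : ℝ) ^ i' • y)) =
        fun y => chi y * XX (W.be Q') X.ε (W.mu Q') (W.nv Q) 1 y := by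
      funext y
      rw [hchi, hXe]
      congr 1
      exact (hXX M (W.be Q') (hkit.mono_order (by omega)) X.ε hε (by linarith) (W.nv Q) y).1.symm
    rw [hT2, ← hst] at hT
    rw [hT]
    set G : ℝ := plInt (W.nv Q) st (fun y => chi y * XX (W.be Q') X.ε (W.mu Q') (W.nv Q) 1 y)
      with hG
    set G' : ℝ := plInt (W.nv Q') (W.sv Q')
      (fun y => chi y * XX (W.be Q') X.ε (W.mu Q') (W.nv Q') 1 y) with hG'
    have hsg : W.sg Q' = W.ab Q' * G' := by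
      unfold Wld.sg
      rw [hXe]
    have halt : W.ab Q ≤ K1 * (W.D Q + W.D Q') ∨ ∃ δ : ℝ, (W.ab Q ≤ 2 * W.ab Q' ∧
        G ≤ 4 * G' + Kg * δ ^ 2 * W.v Q' ∧ W.ab Q * δ ^ 2 ≤ K1 * S2) := by
      rcases hpr with h | ⟨σ, δ, hσ, hδ0, hδ1, q1, q2, q3, q4, q5, q6⟩
      · exact Or.inl h
      · refine Or.inr ⟨δ, q1, ?_, q6⟩
        have := hgain (W.be Q') (hkit.mono_order (by omega)) (W.mu Q') hGr' (W.nv Q) (W.nv Q') st
          (W.sv Q') σ δ hn hn' hσ hδ0 q3 q4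
        rw [g4] at this
        exact this
    have hfin : W.w Q' * (W.ab Q * G) ≤ C * (W.w Q' * (W.ab Q' * G')) +
        Q1 * (W.w Q * W.v Q) * S2 := by
      rw [hQ1]
      rcases halt with h | ⟨δ, h⟩
      · exact ar1 (δ := 0) hw'.le hE hww hab.le hv' g1 g3 g2 (by linarith) hDS2 hK10.le hKg0.le
          hKg.le hB0.le hab'.le (by linarith) (Or.inl h)
      · exact ar1 hw'.le hE hww hab.le hv' g1 g3 g2 (by linarith) hDS2 hK10.le hKg0.le
          hKg.le hB0.le hab'.le (by linarith) (Or.inr h)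
    rw [hsg]
    have h0 : 0 ≤ (Q2 + Q3 + Q4 + 2 * K1) * (W.w Q * W.v Q) * S2 := by positivity
    calc W.w Q * (W.ab Q * (2 ^ (i' * (d - 1)) * G)) = W.w Q' * (W.ab Q * G) := by
          rw [hwT']; ring
      _ ≤ _ := hfin
      _ ≤ _ := by linarith
  · -- the mass
    have hT := hfC (W.nv Q) (W.sv Q) (fun x => chi (((1 / 2 : ℝ) ^ i') • (x - tw W.s0 Q Q'))) hn
    simp only [hchi] at hT
    rw [← hst] at hT
    rw [hT]
    have he := hest (W.m Q') (W.nv Q') (W.sv Q') (W.ab Q') (W.er Q') (W.dl Q') (W.D Q') hmc' hD'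
      hdl' hQ2'.sh hQ2'.bl (hW.zp Q')
    obtain ⟨a1, a2⟩ := ha (W.nv Q) st hn
    obtain ⟨a3, a4⟩ := ha (W.nv Q') (W.sv Q') hn'
    have heS : W.er Q' + W.dl Q' + W.D Q' ≤ S1 := by rw [hS1]; linarith
    have hfin : W.w Q' * (W.v Q * (W.ab Q * plInt (W.nv Q) st (fun y => chi y))) ≤
        C * (W.w Q' * W.v Q') * (∫ y, W.m Q' y * chi y) + Q2 * (W.w Q * W.v Q) * S1 := by
      rw [hQ2]
      rcases hpr with h | ⟨σ, δ, hσ, hδ0, hδ1, q1, q2, q3, q4, q5, q6⟩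
      · exact ar2 (P := plInt (W.nv Q) st chi) (P' := plInt (W.nv Q') (W.sv Q') chi) (δ := 0)
          hw'.le hww hww2 hv hv' hH2' hab.le a2 (by linarith) hDS1 (by linarith) heS hK10.le
          hKe.le hKa.le hab'.le a3 he hCH0.le (by linarith) le_rfl zero_le_one (Or.inl h)
      · exact ar2 (P := plInt (W.nv Q) st chi) (P' := plInt (W.nv Q') (W.sv Q') chi)
          hw'.le hww hww2 hv hv' hH2' hab.le a2 (by linarith) hDS1 (by linarith) heS hK10.le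
          hKe.le hKa.le hab'.le a3 he hCH0.le (by linarith) hδ0 hδ1 (Or.inr ⟨q1,
            harea (W.nv Q) (W.nv Q') st (W.sv Q') σ δ hn hn' hσ hδ0 q3 q4, q5⟩)
    have h0 : 0 ≤ (Q1 + Q3 + Q4 + 2 * K1) * (W.w Q * W.v Q) * S1 := by positivity
    calc W.w Q * (W.v Q * (W.ab Q * (2 ^ (i' * (d - 1)) * plInt (W.nv Q) st (fun y => chi y)))) =
          W.w Q' * (W.v Q * (W.ab Q * plInt (W.nv Q) st (fun y => chi y))) := by
          rw [hwT']; ring
      _ ≤ _ := hfin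
      _ ≤ _ := by linarith
  · -- the off-sheet mass
    intro hi0
    subst hi0
    have hw1 : W.w Q' = W.w Q := by rw [hwT', zero_mul, pow_zero, one_mul]
    set I2 : ℝ := ∫ y, W.m Q' y * (chi y * hgt (W.nv Q') (W.sv Q') y ^ 2) with hI2
    have hbl2 : W.bl Q' = W.v Q' * I2 := rfl
    have hx1 : ‖tw W.s0 Q Q'‖ ≤ 3 * R0 := by simpa using hx
    have hψ : TFn 2 Nc (fun y : Sp d => chi (y - tw W.s0 Q Q')) := PTm.TFn.comp_sub hc _
    have hψs : ∀ y : Sp d, 3 * R0 + d ≤ ‖y‖ → chi (y - tw W.s0 Q Q') = 0 := by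
      intro y hy
      refine PTm.chi_supp ?_ hd1
      have := norm_sub_norm_le y (tw W.s0 Q Q')
      linarith
    have hL : ∫ y, W.m Q y * (chi (y - tw W.s0 Q Q') * hgt (W.nv Q) (W.sv Q) y ^ 2) ≤
        2 * max 0 I2 + (Q3 + Q4) * S2 := by
      have hI0 : 0 ≤ max 0 I2 := le_max_left _ _
      have hI1 : I2 ≤ max 0 I2 := le_max_right _ _
      rcases hpr with h | ⟨σ, δ, hσ, hδ0, hδ1, q1, q2, q3, q4, q5, q6⟩
      · have h1 := hblc (fun y => chi (y - tw W.s0 Q Q')) Nc hψ (fun y => by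
            by_cases hy : ‖y‖ ≤ 64 * R0
            · rw [TU.zR_one hy]
              exact PTm.chi_le_one _
            · rw [hψs y (by linarith [not_le.1 hy])]
              exact TU.zR_nonneg _ _) (fun y hy => hψs y (by linarith)) (W.m Q) (W.nv Q) (W.sv Q)
          (W.D Q) hmc hn hQ.sh.loc (hW.zp Q)
        rw [abs_of_nonneg hD] at h1
        have h2 := hQ.bl
        have h3 : W.er Q ≤ W.ab Q := hQ.small.trans (mul_le_of_le_one_left hab.le hκ1)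
        have h4 : K1 * (W.D Q + W.D Q') ≤ K1 * S2 := mul_le_mul_of_nonneg_left hDS2 hK10.le
        have h5 : Kb * (1 + Nc) * W.D Q ≤ Kb * (1 + Nc) * S2 :=
          mul_le_mul_of_nonneg_left (by linarith) (by positivity)
        have h6 : 0 ≤ Q4 * S2 := by positivity
        have h7 : Q3 * S2 = K1 * S2 + Kb * (1 + Nc) * S2 := by rw [hQ3]; ring
        linarith
      · have hs1 : |W.sv Q| ≤ 100 * R0 := hsv.trans (by linarith)
        have t1 : TFn 2 Nz (fun y => chi (y - tw W.s0 Q Q') * ht (W.nv Q) (W.sv Q) y ^ 2) := by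
          rw [hNz]
          exact TU.TFn_ht_sq hψ (fun y hy => hψs y hy.le) hn hs1
        have h1 := (abs_le.1 (hW.dir Q Q' hQ' _ Nz t1 (fun y hy => by
          rw [hψs y (by linarith), zero_mul]))).1
        have hint : ∀ g : Sp d → ℝ, Continuous g → Integrable (fun y => g y *
            (chi (y - tw W.s0 Q Q') * ht (W.nv Q) (W.sv Q) y ^ 2)) := by
          intro g hg
          have hgc : Continuous (fun y => g y *
            (chi (y - tw W.s0 Q Q') * ht (W.nv Q) (W.sv Q) y ^ 2)) :=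
            hg.mul t1.smooth.continuous
          refine hgc.integrable_of_hasCompactSupport ?_
          refine HasCompactSupport.intro (isCompact_closedBall (0 : Sp d) (3 * R0 + d))
            fun y hy => ?_
          rw [mem_closedBall, dist_zero_right, not_le] at hy
          rw [hψs y hy.le, zero_mul, mul_zero]
        have h2 : ∫ y, (mQ W.s0 W.f (W.e Q') Q y - mQ W.s0 W.f (W.e Q) Q y) *
            (chi (y - tw W.s0 Q Q') * ht (W.nv Q) (W.sv Q) y ^ 2) =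
            (∫ y, mQ W.s0 W.f (W.e Q') Q y *
              (chi (y - tw W.s0 Q Q') * ht (W.nv Q) (W.sv Q) y ^ 2)) -
            ∫ y, W.m Q y * (chi (y - tw W.s0 Q Q') * hgt (W.nv Q) (W.sv Q) y ^ 2) := by
          have e0 : ∫ y, W.m Q y * (chi (y - tw W.s0 Q Q') * hgt (W.nv Q) (W.sv Q) y ^ 2) =
              ∫ y, W.m Q y * (chi (y - tw W.s0 Q Q') * ht (W.nv Q) (W.sv Q) y ^ 2) := rfl
          rw [e0, ← integral_sub (hint _ hmx) (hint _ hmc)]
          congr 1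
          ext y
          rw [sub_mul]
          rfl
        have h3 := hfB E W.f (W.e Q') (fun y => chi (y - tw W.s0 Q Q') *
          ht (W.nv Q) (W.sv Q) y ^ 2) hW.fc hW.fs t1.smooth.continuous
        have h4 : ∀ y : Sp d, mQ W.s0 W.f (W.e Q') Q' y * (chi (tw W.s0 Q Q' + (2 : ℝ) ^ 0 • y -
            tw W.s0 Q Q') * ht (W.nv Q) (W.sv Q) (tw W.s0 Q Q' + (2 : ℝ) ^ 0 • y) ^ 2) =
            W.m Q' y * (chi y * hgt (W.nv Q) st y ^ 2) := by
          intro y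
          have e1 : tw W.s0 Q Q' + (2 : ℝ) ^ 0 • y - tw W.s0 Q Q' = y := by
            rw [pow_zero, one_smul, add_sub_cancel_left]
          have e2 : ht (W.nv Q) (W.sv Q) (tw W.s0 Q Q' + (2 : ℝ) ^ 0 • y) =
              hgt (W.nv Q) st y := by
            unfold ht hgt
            rw [hst, pow_zero, pow_zero, one_smul, one_mul, inner_add_right]
            ring
          rw [e1, e2]
          rfl
        simp only [h4] at h3
        rw [zero_mul, pow_zero, one_mul] at h3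
        rw [h2, h3] at h1
        have h5 := hoff (W.m Q') (W.nv Q) (W.nv Q') st (W.sv Q') σ δ (W.ab Q') (W.er Q')
          (W.dl Q') (W.D Q') hmc' hD' hdl' hQ2'.sh hQ2'.bl (hW.zp Q')
          (hQ2'.small.trans (mul_le_of_le_one_left hab'.le hκ1))
          (hQ2'.smalld.trans (mul_le_of_le_one_left hab'.le hκ1)) hn hσ hδ0 hδ1 q3 q4
        rw [← hI2] at h5
        have h6 : W.ab Q' * δ ^ 2 ≤ 2 * (K1 * S2) := by
          have := mul_le_mul_of_nonneg_right q2 (sq_nonneg δ)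
          linarith
        have h7 : Ko * (W.ab Q' * δ ^ 2 + W.D Q') ≤ Ko * (2 * (K1 * S2) + S2) :=
          mul_le_mul_of_nonneg_left (by linarith) hKo.le
        have h8 : Nz * W.D Q ≤ Nz * S2 := mul_le_mul_of_nonneg_left (by linarith) hNz0.le
        have h9 : 0 ≤ Q3 * S2 := by positivity
        have h10 : Q4 * S2 = Nz * S2 + Ko * (2 * (K1 * S2) + S2) := by rw [hQ4]; ring
        linarith
    have hfin := ar3 (C := C) hw.le hv hv' hH2' (by linarith) hL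
    rw [hbl2, hw1]
    have h0 : 0 ≤ (Q1 + Q2 + 2 * K1) * (W.w Q * W.v Q) * S2 := by positivity
    linarith
  · -- the tilt
    have h00 : 0 ≤ (Q1 + Q2 + Q3 + Q4) * S1 := by positivity
    have h01 : 0 ≤ K1 * S1 := by positivity
    rcases hpr with h | ⟨σ, δ, hσ, hδ0, hδ1, q1, q2, q3, q4, q5, q6⟩
    · refine ⟨1, Or.inl rfl, ?_⟩
      have h1 : ‖W.nv Q - (1 : ℝ) • W.nv Q'‖ ≤ 2 := by
        rw [one_smul]
        refine (norm_sub_le _ _).trans ?_
        rw [hn, hn']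
        norm_num
      have h2 : W.ab Q * ‖W.nv Q - (1 : ℝ) • W.nv Q'‖ ≤ W.ab Q * 2 :=
        mul_le_mul_of_nonneg_left h1 hab.le
      have h3 : K1 * (W.D Q + W.D Q') ≤ K1 * S1 := mul_le_mul_of_nonneg_left hDS1 hK10.le
      linarith
    · refine ⟨σ, hσ, ?_⟩
      have h2 : W.ab Q * ‖W.nv Q - σ • W.nv Q'‖ ≤ W.ab Q * δ :=
        mul_le_mul_of_nonneg_left q3 hab.le
      linarith

end TG
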