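import Pool.Agent.TG.Stmts11
import Pool.Agent.TG.GS
import Pool.Agent.TG.PTb
import Pool.Agent.TG.TH

/-!
# MODULE TA2 (11.1): gain of a sheet cell, general case (helper79)
-/

open MeasureTheory Metric Set TrI
open scoped InnerProductSpace ContDiff

namespace TG

namespace TA2Aux

noncomputable section

variable {d : ℕ}

/-- chi as a test function of arbitrary order -/
lemma chi_TFnJ (hd : 1 ≤ d) (J : ℕ) : ∃ N : ℝ, 0 < N ∧ TFn J N (chi : Sp d → ℝ) := by
  have hs : ContDiff ℝ J (chi : Sp d → ℝ) := by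
    unfold chi chi1
    refine contDiff_prod fun j _ => ?_
    have h1 : ContDiff ℝ J Real.smoothTransition := Real.smoothTransition.contDiff (n := J)
    have h2 : ContDiff ℝ J fun y : Sp d => y j := by fun_prop
    exact (h1.comp (h2.add contDiff_const)).sub (h1.comp h2)
  exact TU.TFn_of_cs hs (HasCompactSupport.intro (isCompact_closedBall (0 : Sp d) d)
    fun x hx => PTm.chi_supp (by
      rw [mem_closedBall, dist_zero_right, not_le] at hx
      exact hx.le) hd)

/-- Harnack inequality for v at unit scale -/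
lemma vv_harnack (hd : 2 ≤ d) {C' : ℝ} (hC' : 0 < C') {μ : Measure (Sp d)} (hμ : Gro C' μ)
    {y : Sp d} {r : ℝ} (hy : ‖y‖ ≤ r) :
    vv μ 1 y ≤ Real.sqrt ((1 + r) ^ d) * vv μ 1 0 := by
  obtain ⟨C, _, hTH⟩ := stmtTH d 0 hd C' hC'
  obtain ⟨_, _, _, h4, _⟩ := hTH μ hμ
  have h5 := h4 1 0 y one_pos
  have hr : 0 ≤ r := (norm_nonneg y).trans hy
  unfold vv
  rw [← Real.sqrt_mul (by positivity)]
  refine Real.sqrt_le_sqrt (h5.trans ?_)
  have h6 : 0 ≤ th μ 1 (0 : Sp d) := by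
    unfold th
    exact integral_nonneg fun η => by
      simp only [kk, Pi.zero_apply]
      positivity
  refine mul_le_mul_of_nonneg_right ?_ h6
  rw [zero_sub, norm_neg, div_one]
  exact pow_le_pow_left₀ (by positivity) (by linarith) d

/-- the lower bound of the off-sheet mass which follows from the sheet estimate -/
lemma blc_ge {J : ℕ} {R ab ep D : ℝ} {m : Sp d → ℝ} {n : Sp d} {s : ℝ}
    (hS : Sheet J R ab ep D m n s) {ρ : ℝ} (h0 : 0 ≤ ρ) (h1 : ρ ≤ R) :
    0 ≤ blc n s m (ρ + 1) + D := by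
  have hz : TFn (J + 2) 0 (fun _ : Sp d => (0 : ℝ)) := by
    refine ⟨contDiff_const, fun j hj x => ?_⟩
    rw [show (fun _ : Sp d => (0 : ℝ)) = 0 from rfl]
    simp
  have h2 := hS.est (fun _ => 0) ρ 0 1 contDiff_const h0 h1 (fun _ _ => rfl)
    (GSAux.TB_of_TFn hz hS.n1 s) (fun y => by
      rw [show (fun _ : Sp d => (0 : ℝ)) = 0 from rfl]
      simp)
  have h3 : plInt n s (fun _ : Sp d => (0 : ℝ)) = 0 := by
    unfold plInt
    simp
  simp only [mul_zero, integral_zero, h3, sub_zero, abs_zero, one_mul, zero_add] at h2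
  exact h2

end

end TA2Aux

open TA2Aux in
theorem stmtTA2 (hWA : StmtWA) (hUB : StmtUB) : StmtTA2 := by
  intro d J hd M C' ε p0 A c R0 hC' hε hε1 hFK hR0
  have hε2 : ε ≤ 1 := by linarith
  have hA := hFK.A_ge
  have hc := hFK.c_pos
  obtain ⟨C1, hC1, h1⟩ := hWA d (J + 2) hd M C' ε hC' hε hε2
  obtain ⟨C2, hC2, h2⟩ := hUB d 2 hd M C' ε p0 A hC' hε hε2 hFK.p0_pos hFK.p0_le hA
  obtain ⟨Nc, hNc, hchi⟩ := chi_TFnJ (d := d) (by omega) (J + 2)
  set H0 : ℝ := Real.sqrt ((1 + (d : ℝ)) ^ d) with hH0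
  have hH0p : 0 ≤ H0 := Real.sqrt_nonneg _
  set K1 : ℝ := 2 ^ (J + 2) * (Nc * (C1 * H0)) with hK1
  set K2 : ℝ := 2 ^ 2 * (Nc * (C2 * H0 + c * (C1 * H0))) with hK2
  have hK1p : 0 ≤ K1 := by positivity
  have hK2p : 0 ≤ K2 := by positivity
  refine ⟨c, c * K1 + K2 + 1, hc, by positivity, ?_⟩
  intro β hβ μ hμ m n s ab ep D hm hD hZ hS
  obtain ⟨_, _, _, _, h1n⟩ := h1 β (PTm.kit_mono (by omega) hβ) μ hμ
  obtain ⟨hXs, hX0, hXb, _, _, _⟩ := h1n n hS.n1
  obtain ⟨_, _, _, _, _, _, _, _, _, h2n, _, _⟩ := h2 β (PTm.kit_mono (by omega) hβ) μ hμ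
  obtain ⟨hHs, hHb⟩ := h2n n hS.n1
  set v : ℝ := vv μ 1 0 with hv
  have hv0 : 0 ≤ v := Real.sqrt_nonneg _
  have hchis : ∀ y : Sp d, (d : ℝ) < ‖y - 0‖ → chi y = 0 := fun y hy => by
    rw [sub_zero] at hy
    exact PTm.chi_supp hy.le (by omega)
  have hdR : (d : ℝ) ≤ R0 := by
    have : (0 : ℝ) ≤ d := Nat.cast_nonneg d
    linarith
  have hvv : ∀ y : Sp d, ‖y - 0‖ ≤ d → vv μ 1 y ≤ H0 * v := fun y hy => by
    rw [sub_zero] at hy
    exact vv_harnack hd hC' hμ hy
  -- the test function of the sheet estimate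
  have hζ : TFn (J + 2) (K1 * v) (fun y => chi y * XX β ε μ n 1 y) := by
    refine TU.TFn_mono (TU.TFn_mul_ball (x₀ := 0) (ρ := d) (M := C1 * (H0 * v)) hchi hchis hXs
      (fun j hj y hy => (hXb j hj y).trans (mul_le_mul_of_nonneg_left (hvv y hy) hC1.le))
      (by positivity)) le_rfl (le_of_eq ?_)
    rw [hK1]
    ring
  have hHX : ContDiff ℝ 2 (fun y => Hn β ε p0 A μ n 1 y - c * XX β ε μ n 1 y) :=
    (contDiff_infty.1 hHs 2).sub
      (contDiff_const.mul (hXs.of_le (by exact_mod_cast (by omega : 2 ≤ J + 2))))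
  have hF : TFn 2 (K2 * v) (fun y => chi y * (Hn β ε p0 A μ n 1 y - c * XX β ε μ n 1 y)) := by
    refine TU.TFn_mono (TU.TFn_mul_ball (x₀ := 0) (ρ := d)
      (M := C2 * (H0 * v) + c * (C1 * (H0 * v)))
      (TU.TFn_mono hchi (by omega : 2 ≤ J + 2) le_rfl) hchis hHX ?_
      (by positivity)) le_rfl (le_of_eq ?_)
    · intro j hj y hy
      have e1 : ContDiffAt ℝ j (Hn β ε p0 A μ n 1) y := (contDiff_infty.1 hHs j).contDiffAt
      have e2 : ContDiffAt ℝ j (XX β ε μ n 1) y :=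
        (hXs.of_le (by exact_mod_cast (by omega : j ≤ J + 2))).contDiffAt
      have e3 : iteratedFDeriv ℝ j (fun y => Hn β ε p0 A μ n 1 y - c * XX β ε μ n 1 y) y =
          iteratedFDeriv ℝ j (Hn β ε p0 A μ n 1) y -
            c • iteratedFDeriv ℝ j (XX β ε μ n 1) y := by
        have e4 : (fun y => Hn β ε p0 A μ n 1 y - c * XX β ε μ n 1 y) =
            (fun y => Hn β ε p0 A μ n 1 y + (-c) • XX β ε μ n 1 y) := by
          funext z
          simp only [smul_eq_mul]
          ring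
        have e6 : ContDiffAt ℝ j (fun y => (-c) • XX β ε μ n 1 y) y := e2.const_smul (-c)
        have e7 : iteratedFDeriv ℝ j (fun y => (-c) • XX β ε μ n 1 y) y =
            (-c) • iteratedFDeriv ℝ j (XX β ε μ n 1) y := iteratedFDeriv_const_smul_apply' e2
        rw [e4, fun_iteratedFDeriv_add_apply e1 e6, e7, neg_smul, ← sub_eq_add_neg]
      rw [e3]
      refine (norm_sub_le _ _).trans (add_le_add ?_ ?_)
      · exact (hHb j hj y).trans (mul_le_mul_of_nonneg_left (hvv y hy) hC2.le)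
      · rw [norm_smul, Real.norm_eq_abs, abs_of_pos hc]
        exact mul_le_mul_of_nonneg_left ((hXb j (by omega) y).trans
          (mul_le_mul_of_nonneg_left (hvv y hy) hC1.le)) hc.le
    · rw [hK2]
      ring
  have hZF := GSAux.ZP' hZ hF (fun y => mul_nonneg (PTm.chi_nonneg y) (by
    have := hFK.gain β hβ μ hμ n hS.n1 y
    linarith)) (fun y hy => by
      rw [PTm.chi_supp (hdR.trans hy) (by omega), zero_mul])
  have hest := hS.est (fun y => chi y * XX β ε μ n 1 y) d (K1 * v) (K1 * v)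
    (by exact_mod_cast hζ.smooth) (Nat.cast_nonneg d) hdR
    (fun y hy => by rw [PTm.chi_supp hy (by omega), zero_mul])
    (GSAux.TB_of_TFn hζ hS.n1 s) (fun y => hζ.bd 2 (by omega) y)
  have hbD := blc_ge hS (Nat.cast_nonneg d) hdR
  have hep := hS.ep0
  -- integrability
  have hcs : HasCompactSupport (chi : Sp d → ℝ) :=
    HasCompactSupport.intro (isCompact_closedBall (0 : Sp d) d) fun x hx => PTm.chi_supp (by
      rw [mem_closedBall, dist_zero_right, not_le] at hx
      exact hx.le) (by omega)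
  have hchic : Continuous (chi : Sp d → ℝ) := hchi.smooth.continuous
  have hXc : Continuous (XX β ε μ n 1) := hXs.continuous
  have hHc : Continuous (Hn β ε p0 A μ n 1) := hHs.continuous
  have i1 : Integrable (fun y => m y * (chi y * XX β ε μ n 1 y)) :=
    (hm.mul (hchic.mul hXc)).integrable_of_hasCompactSupport (hcs.mul_right).mul_left
  have i2 : Integrable (fun y => m y * (chi y * Hn β ε p0 A μ n 1 y)) :=
    (hm.mul (hchic.mul hHc)).integrable_of_hasCompactSupport (hcs.mul_right).mul_left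
  have hsum : ∫ y, m y * (chi y * (Hn β ε p0 A μ n 1 y - c * XX β ε μ n 1 y)) =
      (∫ y, m y * (chi y * Hn β ε p0 A μ n 1 y)) -
        c * ∫ y, m y * (chi y * XX β ε μ n 1 y) := by
    rw [← integral_const_mul, ← integral_sub i2 (i1.const_mul c)]
    congr 1
    ext y
    ring
  rw [hsum] at hZF
  have h5 := (abs_le.1 hest).1
  have h6 := mul_le_mul_of_nonneg_left h5 hc.le
  have h7 : 0 ≤ v * (ep + (blc n s m (d + 1) + D)) := mul_nonneg hv0 (by linarith)
  have h8 : 0 ≤ K2 * (v * (ep + (blc n s m (d + 1) + D))) := mul_nonneg hK2p h7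
  have h9 : 0 ≤ v * D := mul_nonneg hv0 hD
  nlinarith

end TG
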