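import Pool.Agent.TG.GP
import Pool.Agent.TG.GN
import Pool.Agent.TG.PF
import Pool.Agent.TG.SS1

/-! MODULE TC: comparison of the gains on two planes, helper61 -/

open MeasureTheory Metric Set TrI Filter Topology
open scoped InnerProductSpace ContDiff

namespace TG

namespace TCm

noncomputable section

variable {d : ℕ}

/-! ### change of the direction, fixed time -/

lemma vv_harnack {μ : Measure (Sp d)} (p : GPx.Pot μ) {t : ℝ} (ht : 0 < t) (x : Sp d) {ε : ℝ}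
    (hε0 : 0 < ε) (hε : ε ≤ 1) {z : Sp d} (hz : ‖z‖ ≤ 1) :
    vv μ t (x + (ε * t) • z) ≤ 2 ^ d * vv μ t x := by
  refine p.harv ht ?_
  have : x - (x + (ε * t) • z) = -((ε * t) • z) := by abel
  rw [this, norm_neg, norm_smul, Real.norm_eq_abs, abs_of_pos (by positivity)]
  nlinarith [mul_pos hε0 ht, norm_nonneg z]

lemma vv_time (h : StmtTH) (hd : 2 ≤ d) {C' : ℝ} (hC' : 0 < C') : ∃ H : ℝ, 0 ≤ H ∧
    ∀ μ : Measure (Sp d), Gro C' μ → ∀ (t : ℝ) (y : Sp d), 1 / 2 ≤ t → t ≤ 2 →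
      vv μ t y ≤ H * vv μ 1 y := by
  obtain ⟨C, hC, h1⟩ := h d 0 hd C' hC'
  refine ⟨Real.sqrt C, Real.sqrt_nonneg _, fun μ hμ t y h2 h3 => ?_⟩
  have h4 := (h1 μ hμ).2.2.2.2 t 1 y one_pos (by linarith) (by linarith)
  unfold vv
  rw [← Real.sqrt_mul hC.le]
  exact Real.sqrt_le_sqrt h4

lemma kk_int {μ : Measure (Sp d)} [IsFiniteMeasure μ] {t : ℝ} (ht : 0 < t) (y : Sp d) :
    Integrable (fun η => kk t (y - η)) μ := by
  refine Integrable.mono' (integrable_const (t / t ^ d))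
    (GNaux.kk_meas t ht y).aestronglyMeasurable (Eventually.of_forall fun η => ?_)
  rw [Real.norm_of_nonneg (GNaux.kk_nonneg t ht.le _)]
  exact GNaux.kk_le t ht _

lemma pot_of (h : StmtTH) (hd : 2 ≤ d) {C' : ℝ} (hC' : 0 < C') {μ : Measure (Sp d)}
    (hμ : Gro C' μ) : GPx.Pot μ := by
  obtain ⟨C, hC, H⟩ := h d 0 hd C' hC'
  obtain ⟨h1, h2, h3, h4, h5⟩ := H μ hμ
  exact ⟨hμ.fin, fun t x ht => (h1 t x ht).1, h2, h4⟩

lemma tang_cmp {n n' : Sp d} (hn : ‖n‖ = 1) (hn' : ‖n'‖ = 1) (g : Sp d) :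
    ‖tang n g‖ ^ 2 ≤ 2 * ‖tang n' g‖ ^ 2 + 8 * ‖n - n'‖ ^ 2 * ‖g‖ ^ 2 := by
  have e : tang n g - tang n' g = -(⟪n - n', g⟫_ℝ • n' + ⟪n, g⟫_ℝ • (n - n')) := by
    unfold tang
    rw [inner_sub_left]
    module
  have h1 : ‖tang n g - tang n' g‖ ≤ 2 * ‖n - n'‖ * ‖g‖ := by
    rw [e, norm_neg]
    refine (norm_add_le _ _).trans ?_
    rw [norm_smul, norm_smul, hn', mul_one, Real.norm_eq_abs, Real.norm_eq_abs]
    have a1 := abs_real_inner_le_norm (n - n') g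
    have a2 := abs_real_inner_le_norm n g
    rw [hn, one_mul] at a2
    have a3 := mul_le_mul_of_nonneg_right a2 (norm_nonneg (n - n'))
    nlinarith
  have h2 : ‖tang n g‖ ≤ ‖tang n' g‖ + 2 * ‖n - n'‖ * ‖g‖ := by
    have := norm_sub_norm_le (tang n g) (tang n' g)
    linarith
  have h3 : ‖tang n g‖ ^ 2 ≤ (‖tang n' g‖ + 2 * ‖n - n'‖ * ‖g‖) ^ 2 :=
    pow_le_pow_left₀ (norm_nonneg _) h2 2
  nlinarith [sq_nonneg (‖tang n' g‖ - 2 * ‖n - n'‖ * ‖g‖)]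

lemma int_cmp {β : Sp d → ℝ} (hβ : Continuous β) (hs : ∀ x, 1 ≤ ‖x‖ → β x = 0)
    (h0 : ∀ x, 0 ≤ β x) (h1 : ∫ x, β x = 1) {F G : Sp d → ℝ} (hF : Continuous F)
    (hG : Continuous G) {K : ℝ} (hFG : ∀ z, ‖z‖ ≤ 1 → F z ≤ 2 * G z + K) :
    ∫ z, β z * F z ≤ 2 * (∫ z, β z * G z) + K := by
  have iF := GPx.int_beta hβ hs hF
  have iG := GPx.int_beta hβ hs hG
  have iK := GPx.int_beta hβ hs (continuous_const (y := K))
  calc ∫ z, β z * F z ≤ ∫ z, (2 * (β z * G z) + β z * K) := by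
        refine integral_mono iF ((iG.const_mul 2).add iK) (fun z => ?_)
        show β z * F z ≤ 2 * (β z * G z) + β z * K
        by_cases hz : ‖z‖ ≤ 1
        · have := mul_le_mul_of_nonneg_left (hFG z hz) (h0 z)
          linarith
        · rw [hs z (le_of_lt (not_le.mp hz))]
          simp
    _ = _ := by
        rw [integral_add (iG.const_mul 2) iK, integral_const_mul, integral_mul_const, h1, one_mul]

lemma X1_cmp {μ : Measure (Sp d)} (p : GPx.Pot μ) {J : ℕ} {M : ℝ} {β : Sp d → ℝ}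
    (hβ : IsProf J M β) {n n' : Sp d} (hn : ‖n‖ = 1) (hn' : ‖n'‖ = 1) {t : ℝ} (ht : 0 < t)
    (ε : ℝ) (y : Sp d) {K : ℝ}
    (hK : ∀ z : Sp d, ‖z‖ ≤ 1 → ‖gradient (vv μ t) (y + (ε * t) • z)‖ ^ 2 /
      vv μ t (y + (ε * t) • z) ≤ K) :
    X1 β ε μ n t y ≤ 2 * X1 β ε μ n' t y + 8 * ‖n - n'‖ ^ 2 * K := by
  unfold X1
  refine int_cmp hβ.smooth.continuous hβ.supp hβ.nonneg hβ.int (p.cont_T ht ε n y)
    (p.cont_T ht ε n' y) (fun z hz => ?_)
  have hv := p.vpos ht (y + (ε * t) • z)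
  have h1 := tang_cmp hn hn' (gradient (vv μ t) (y + (ε * t) • z))
  have h2 := div_le_div_of_nonneg_right h1 hv.le
  have h3 := mul_le_mul_of_nonneg_left (hK z hz) (show 0 ≤ 8 * ‖n - n'‖ ^ 2 by positivity)
  refine h2.trans ?_
  rw [add_div]
  have e1 : 2 * ‖tang n' (gradient (vv μ t) (y + (ε * t) • z))‖ ^ 2 / vv μ t (y + (ε * t) • z)
    = 2 * (‖tang n' (gradient (vv μ t) (y + (ε * t) • z))‖ ^ 2 / vv μ t (y + (ε * t) • z)) := by
    ring
  have e2 : 8 * ‖n - n'‖ ^ 2 * ‖gradient (vv μ t) (y + (ε * t) • z)‖ ^ 2 /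
      vv μ t (y + (ε * t) • z) = 8 * ‖n - n'‖ ^ 2 *
      (‖gradient (vv μ t) (y + (ε * t) • z)‖ ^ 2 / vv μ t (y + (ε * t) • z)) := by
    ring
  rw [e1, e2]
  linarith

lemma X3_cmp {μ : Measure (Sp d)} (p : GPx.Pot μ) {J : ℕ} {M : ℝ} {β : Sp d → ℝ}
    (hβ : IsProf J M β) {n n' : Sp d} (hn : ‖n‖ = 1) (hn' : ‖n'‖ = 1) {t : ℝ} (ht : 0 < t)
    {ε : ℝ} (hε : 0 < ε) (hε1 : ε ≤ 1) (y : Sp d) {K : ℝ}
    (hK : ∀ z : Sp d, ‖z‖ ≤ 1 → ‖gradient (vv μ t) (y + (ε * t) • z)‖ ^ 2 /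
      vv μ t (y + (ε * t) • z) ≤ K) :
    X3 β ε μ n t y ≤ 2 * X3 β ε μ n' t y + 8 * ‖n - n'‖ ^ 2 * K := by
  unfold X3
  refine int_cmp hβ.smooth.continuous hβ.supp hβ.nonneg hβ.int (p.cont_D ht ε n y)
    (p.cont_D ht ε n' y) (fun z hz => ?_)
  have hv := p.vpos ht (y + (ε * t) • z)
  set g := gradient (vv μ t) (y + (ε * t) • z) with hg
  set a := dtv μ t (y + (ε * t) • z) with ha
  have e0 : ⟪z, n⟫_ℝ * ⟪g, n⟫_ℝ - ⟪z, n'⟫_ℝ * ⟪g, n'⟫_ℝ =
      ⟪z, n - n'⟫_ℝ * ⟪g, n⟫_ℝ + ⟪z, n'⟫_ℝ * ⟪g, n - n'⟫_ℝ := by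
    rw [inner_sub_right, inner_sub_right]
    ring
  have b0 : |⟪z, n⟫_ℝ * ⟪g, n⟫_ℝ - ⟪z, n'⟫_ℝ * ⟪g, n'⟫_ℝ| ≤ 2 * ‖n - n'‖ * ‖g‖ := by
    rw [e0]
    refine (abs_add_le _ _).trans ?_
    rw [abs_mul, abs_mul]
    have a1 := abs_real_inner_le_norm z (n - n')
    have a2 := abs_real_inner_le_norm g n
    have a3 := abs_real_inner_le_norm z n'
    have a4 := abs_real_inner_le_norm g (n - n')
    rw [hn, mul_one] at a2
    rw [hn', mul_one] at a3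
    have c1 : |⟪z, n - n'⟫_ℝ| * |⟪g, n⟫_ℝ| ≤ (1 * ‖n - n'‖) * ‖g‖ := by
      refine mul_le_mul (a1.trans ?_) a2 (abs_nonneg _) (by positivity)
      exact mul_le_mul_of_nonneg_right hz (norm_nonneg _)
    have c2 : |⟪z, n'⟫_ℝ| * |⟪g, n - n'⟫_ℝ| ≤ 1 * (‖g‖ * ‖n - n'‖) :=
      mul_le_mul (a3.trans hz) a4 (abs_nonneg _) zero_le_one
    nlinarith
  have b1 : (⟪z, n⟫_ℝ * ⟪g, n⟫_ℝ - ⟪z, n'⟫_ℝ * ⟪g, n'⟫_ℝ) ^ 2 ≤ (2 * ‖n - n'‖ * ‖g‖) ^ 2 :=
    sq_le_sq' (abs_le.mp b0).1 (abs_le.mp b0).2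
  have b2 : ε ^ 2 ≤ 1 := by nlinarith
  have h1 : (a + ε * ⟪z, n⟫_ℝ * ⟪g, n⟫_ℝ) ^ 2 ≤
      2 * (a + ε * ⟪z, n'⟫_ℝ * ⟪g, n'⟫_ℝ) ^ 2 + 8 * ‖n - n'‖ ^ 2 * ‖g‖ ^ 2 := by
    have e1 : a + ε * ⟪z, n⟫_ℝ * ⟪g, n⟫_ℝ = (a + ε * ⟪z, n'⟫_ℝ * ⟪g, n'⟫_ℝ) +
      ε * (⟪z, n⟫_ℝ * ⟪g, n⟫_ℝ - ⟪z, n'⟫_ℝ * ⟪g, n'⟫_ℝ) := by ring
    rw [e1]
    set A := a + ε * ⟪z, n'⟫_ℝ * ⟪g, n'⟫_ℝ
    set B := ⟪z, n⟫_ℝ * ⟪g, n⟫_ℝ - ⟪z, n'⟫_ℝ * ⟪g, n'⟫_ℝ
    have c1 : (A + ε * B) ^ 2 ≤ 2 * A ^ 2 + 2 * (ε ^ 2 * B ^ 2) := by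
      nlinarith [sq_nonneg (A - ε * B)]
    have c2 : ε ^ 2 * B ^ 2 ≤ 1 * (2 * ‖n - n'‖ * ‖g‖) ^ 2 :=
      mul_le_mul b2 b1 (sq_nonneg _) zero_le_one
    nlinarith
  have h2 := div_le_div_of_nonneg_right h1 hv.le
  have h3 := mul_le_mul_of_nonneg_left (hK z hz) (show 0 ≤ 8 * ‖n - n'‖ ^ 2 by positivity)
  refine h2.trans ?_
  rw [add_div]
  have e2 : 8 * ‖n - n'‖ ^ 2 * ‖g‖ ^ 2 / vv μ t (y + (ε * t) • z) = 8 * ‖n - n'‖ ^ 2 *
      (‖g‖ ^ 2 / vv μ t (y + (ε * t) • z)) := by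
    ring
  rw [e2, mul_div_assoc]
  linarith

lemma X2_cmp {μ : Measure (Sp d)} (p : GPx.Pot μ) {n n' : Sp d} (hn : ‖n‖ = 1)
    (hn' : ‖n'‖ = 1) {t : ℝ} (ht1 : 1 / 2 ≤ t) (y : Sp d) :
    X2 μ n t y ≤ 2 * X2 μ n' t y + 8 * ‖n - n'‖ ^ 2 * vv μ t y := by
  have := p.fin
  have ht : 0 < t := by linarith
  have hv := p.vpos ht y
  have hkk : Integrable (fun η => kk t (y - η)) μ := kk_int ht y
  have hint : ∀ m : Sp d, ‖m‖ = 1 →
      Integrable (fun η => ⟪η - y, m⟫_ℝ ^ 2 / (t ^ 2 + ‖y - η‖ ^ 2) ^ 2 * kk t (y - η)) μ := by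
    intro m hm
    refine Integrable.mono' (hkk.const_mul 4) ?_ (Eventually.of_forall fun η => ?_)
    · refine Continuous.aestronglyMeasurable ?_
      refine Continuous.mul (Continuous.div (by fun_prop) (by fun_prop) ?_)
        (GNaux.kk_meas t ht y)
      intro η
      positivity
    · have h1 : 0 ≤ ⟪η - y, m⟫_ℝ ^ 2 / (t ^ 2 + ‖y - η‖ ^ 2) ^ 2 := by positivity
      have h2 := GNaux.kk_nonneg t ht.le (y - η)
      rw [Real.norm_of_nonneg (mul_nonneg h1 h2)]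
      refine mul_le_mul_of_nonneg_right ?_ h2
      have h3 : ⟪η - y, m⟫_ℝ ^ 2 ≤ ‖y - η‖ ^ 2 := by
        have h4 := abs_real_inner_le_norm (η - y) m
        rw [hm, mul_one, norm_sub_rev] at h4
        rw [← sq_abs]
        gcongr
      rw [div_le_iff₀ (by positivity)]
      have h6 : (1 / 4 : ℝ) ≤ t ^ 2 := by nlinarith
      have h7 : 0 ≤ ‖y - η‖ ^ 2 := sq_nonneg _
      nlinarith [mul_nonneg (sub_nonneg.2 h6) h7, sq_nonneg (t ^ 2), sq_nonneg (‖y - η‖ ^ 2)]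
  have key : (∫ η, ⟪η - y, n⟫_ℝ ^ 2 / (t ^ 2 + ‖y - η‖ ^ 2) ^ 2 * kk t (y - η) ∂μ) ≤
      2 * (∫ η, ⟪η - y, n'⟫_ℝ ^ 2 / (t ^ 2 + ‖y - η‖ ^ 2) ^ 2 * kk t (y - η) ∂μ) +
        8 * ‖n - n'‖ ^ 2 * th μ t y := by
    unfold th
    rw [← integral_const_mul, ← integral_const_mul, ← integral_add
      ((hint n' hn').const_mul 2) (hkk.const_mul _)]
    refine integral_mono (hint n hn) (((hint n' hn').const_mul 2).add (hkk.const_mul _))
      (fun η => ?_)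
    show ⟪η - y, n⟫_ℝ ^ 2 / (t ^ 2 + ‖y - η‖ ^ 2) ^ 2 * kk t (y - η) ≤
      2 * (⟪η - y, n'⟫_ℝ ^ 2 / (t ^ 2 + ‖y - η‖ ^ 2) ^ 2 * kk t (y - η)) +
        8 * ‖n - n'‖ ^ 2 * kk t (y - η)
    have h2 := GNaux.kk_nonneg t ht.le (y - η)
    have h3 : ⟪η - y, n⟫_ℝ ^ 2 ≤ 2 * ⟪η - y, n'⟫_ℝ ^ 2 + 2 * (‖n - n'‖ ^ 2 * ‖y - η‖ ^ 2) := by
      have e : ⟪η - y, n⟫_ℝ = ⟪η - y, n'⟫_ℝ + ⟪η - y, n - n'⟫_ℝ := by
        rw [inner_sub_right]; ring
      have a1 := abs_real_inner_le_norm (η - y) (n - n')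
      have a2 : ⟪η - y, n - n'⟫_ℝ ^ 2 ≤ (‖η - y‖ * ‖n - n'‖) ^ 2 :=
        sq_le_sq' (abs_le.mp a1).1 (abs_le.mp a1).2
      rw [norm_sub_rev η y, mul_pow] at a2
      rw [e]
      nlinarith [sq_nonneg (⟪η - y, n'⟫_ℝ - ⟪η - y, n - n'⟫_ℝ)]
    have h4 : ‖y - η‖ ^ 2 / (t ^ 2 + ‖y - η‖ ^ 2) ^ 2 ≤ 4 := by
      rw [div_le_iff₀ (by positivity)]
      have h6 : (1 / 4 : ℝ) ≤ t ^ 2 := by nlinarith
      have h7 : 0 ≤ ‖y - η‖ ^ 2 := sq_nonneg _
      nlinarith [mul_nonneg (sub_nonneg.2 h6) h7, sq_nonneg (t ^ 2), sq_nonneg (‖y - η‖ ^ 2)]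
    have h5 : ⟪η - y, n⟫_ℝ ^ 2 / (t ^ 2 + ‖y - η‖ ^ 2) ^ 2 ≤
        2 * (⟪η - y, n'⟫_ℝ ^ 2 / (t ^ 2 + ‖y - η‖ ^ 2) ^ 2) + 8 * ‖n - n'‖ ^ 2 := by
      have a1 := div_le_div_of_nonneg_right h3 (show 0 ≤ (t ^ 2 + ‖y - η‖ ^ 2) ^ 2 by positivity)
      refine a1.trans ?_
      rw [add_div, mul_div_assoc, mul_div_assoc, mul_div_assoc]
      have a2 := mul_le_mul_of_nonneg_left h4 (show 0 ≤ ‖n - n'‖ ^ 2 by positivity)
      linarith
    have h6 := mul_le_mul_of_nonneg_right h5 h2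
    linarith
  unfold X2
  rw [div_le_iff₀ hv]
  refine key.trans (le_of_eq ?_)
  have hvs := p.vsq ht y
  rw [← hvs]
  field_simp

/-! ### change of the direction, averages in time -/

lemma tau_le (r : ℝ) : tau 1 r ≤ 1 ∨ 2 < r := by
  by_cases hr : r ≤ 2
  · left
    unfold tau
    refine max_le zero_le_one ((min_le_left _ _).trans ?_)
    linarith
  · right
    exact not_le.mp hr

lemma tav_cmp {F G : ℝ → Sp d → ℝ} {y : Sp d}
    (hF : IntervalIntegrable (fun r => tau 1 r * F r y) volume (1 / 2) 2)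
    (hG : IntervalIntegrable (fun r => tau 1 r * G r y) volume (1 / 2) 2) {K : ℝ} (hK : 0 ≤ K)
    (H : ∀ r, 1 / 2 ≤ r → r ≤ 2 → F r y ≤ 2 * G r y + K) :
    tav F 1 y ≤ 2 * tav G 1 y + 2 * K := by
  unfold tav
  rw [mul_one]
  have h1 : ∫ r in (1 / 2 : ℝ)..2, tau 1 r * F r y ≤
      ∫ r in (1 / 2 : ℝ)..2, (2 * (tau 1 r * G r y) + K) := by
    refine intervalIntegral.integral_mono_on (by norm_num) hF
      ((hG.const_mul 2).add (by simp)) (fun r hr => ?_)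
    have h2 := mul_le_mul_of_nonneg_left (H r hr.1 hr.2) (GNaux.tau_nonneg 1 r)
    have h3 : tau 1 r * K ≤ K := by
      rcases tau_le r with h | h
      · exact mul_le_of_le_one_left hK h
      · linarith [hr.2]
    linarith
  refine h1.trans ?_
  rw [intervalIntegral.integral_add (hG.const_mul 2) (by simp),
    intervalIntegral.integral_const_mul, intervalIntegral.integral_const, smul_eq_mul]
  linarith

lemma XX_cmp (h : StmtTH) (hd : 2 ≤ d) (J : ℕ) (M : ℝ) {C' ε : ℝ} (hC' : 0 < C') (hε : 0 < ε)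
    (hε1 : ε ≤ 1) : ∃ C : ℝ, 0 < C ∧ ∀ β : Sp d → ℝ, Kit J M β → ∀ μ : Measure (Sp d),
      Gro C' μ → ∀ n n' : Sp d, ‖n‖ = 1 → ‖n'‖ = 1 → ∀ y,
        XX β ε μ n 1 y ≤ 2 * XX β ε μ n' 1 y + C * ‖n - n'‖ ^ 2 * vv μ 1 y := by
  obtain ⟨C, hC, HTH⟩ := h d 1 hd C' hC'
  obtain ⟨H, hH, hHv⟩ := vv_time h hd hC'
  set K0 : ℝ := (2 * C) ^ 2 * 2 ^ d * H with hK0
  have hK00 : 0 ≤ K0 := by positivity
  refine ⟨2 * (8 * K0) + 2 * (8 * H) + 2 * (8 * K0) + 1, by positivity, ?_⟩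
  intro β hβ μ hμ n n' hn hn' y
  have p := pot_of h hd hC' hμ
  obtain ⟨hp, hsm, hder, -⟩ := HTH μ hμ
  have hpos : ∀ (t : ℝ) (x : Sp d), 0 < t → 0 < vv μ t x := fun t x ht => p.vpos ht x
  have hsm' : ContDiffOn ℝ ∞ (GNaux.VV μ) {p | 0 < p.1} := hsm
  have := hμ.fin
  have hβc : Continuous β := hβ.prof.smooth.continuous
  have hβs := hβ.prof.supp
  have hv1 := hpos 1 y one_pos
  have hsub : Icc (1 / 2 : ℝ) 2 ⊆ Ioi 0 := by
    intro t ht
    exact lt_of_lt_of_le (by norm_num) ht.1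
  have hu : uIcc (1 / 2 : ℝ) 2 = Icc (1 / 2) 2 := uIcc_of_le (by norm_num)
  have i1 : ∀ m : Sp d, IntervalIntegrable (fun r => tau 1 r * X1 β ε μ m r y) volume (1 / 2) 2 := by
    intro m
    refine ContinuousOn.intervalIntegrable ?_
    rw [hu]
    exact (GNaux.tau_cont 1).continuousOn.mul
      ((GNaux.cont_X1 μ hsm' hpos β hβc hβs ε m y).mono hsub)
  have i2 : ∀ m : Sp d, ‖m‖ = 1 →
      IntervalIntegrable (fun r => tau 1 r * X2 μ m r y) volume (1 / 2) 2 := by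
    intro m hm
    refine ContinuousOn.intervalIntegrable ?_
    rw [hu]
    exact (GNaux.tau_cont 1).continuousOn.mul (GNaux.cont_X2 μ hsm' hpos m y hm)
  have i3 : ∀ m : Sp d, IntervalIntegrable (fun r => tau 1 r * X3 β ε μ m r y) volume (1 / 2) 2 := by
    intro m
    refine ContinuousOn.intervalIntegrable ?_
    rw [hu]
    exact (GNaux.tau_cont 1).continuousOn.mul
      ((GNaux.cont_X3 μ hsm' hpos β hβc hβs ε m y).mono hsub)
  -- the gradient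
  have hgr : ∀ (t : ℝ), 1 / 2 ≤ t → t ≤ 2 → ∀ z : Sp d, ‖z‖ ≤ 1 →
      ‖gradient (vv μ t) (y + (ε * t) • z)‖ ^ 2 / vv μ t (y + (ε * t) • z) ≤
        K0 * vv μ 1 y := by
    intro t ht1 ht2 z hz
    have ht : 0 < t := by linarith
    have hv := hpos t (y + (ε * t) • z) ht
    have g1 : ‖gradient (vv μ t) (y + (ε * t) • z)‖ ≤ 2 * C * vv μ t (y + (ε * t) • z) := by
      rw [GNaux.grad_eq μ hsm' t ht, LinearIsometryEquiv.norm_map]
      have a1 := hder t (y + (ε * t) • z) 1 ht le_rfl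
      rw [norm_iteratedFDeriv_one] at a1
      have a2 : ‖(fderiv ℝ (GNaux.VV μ) (t, y + (ε * t) • z)).comp
          (ContinuousLinearMap.inr ℝ ℝ (Sp d))‖ ≤
          ‖fderiv ℝ (GNaux.VV μ) (t, y + (ε * t) • z)‖ := by
        refine (ContinuousLinearMap.opNorm_comp_le _ _).trans ?_
        exact mul_le_of_le_one_right (norm_nonneg _)
          (ContinuousLinearMap.norm_inr_le_one ℝ ℝ (Sp d))
      refine a2.trans (a1.trans ?_)
      rw [pow_one, div_le_iff₀ ht]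
      nlinarith [mul_pos hC hv]
    rw [div_le_iff₀ hv]
    have g2 := pow_le_pow_left₀ (norm_nonneg _) g1 2
    refine g2.trans ?_
    have g3 : vv μ t (y + (ε * t) • z) ≤ 2 ^ d * (H * vv μ 1 y) :=
      (vv_harnack p ht y hε hε1 hz).trans
        (mul_le_mul_of_nonneg_left (hHv μ hμ t y ht1 ht2) (by positivity))
    have g4 := mul_le_mul_of_nonneg_left g3
      (show 0 ≤ (2 * C) ^ 2 * vv μ t (y + (ε * t) • z) by positivity)
    calc _ = (2 * C) ^ 2 * vv μ t (y + (ε * t) • z) * vv μ t (y + (ε * t) • z) := by ring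
      _ ≤ _ := g4
      _ = _ := by rw [hK0]; ring
  have c1 := tav_cmp (i1 n) (i1 n') (K := 8 * ‖n - n'‖ ^ 2 * (K0 * vv μ 1 y)) (by positivity)
    (fun r h1 h2 => X1_cmp p hβ.prof hn hn' (by linarith) ε y (hgr r h1 h2))
  have c3 := tav_cmp (i3 n) (i3 n') (K := 8 * ‖n - n'‖ ^ 2 * (K0 * vv μ 1 y)) (by positivity)
    (fun r h1 h2 => X3_cmp p hβ.prof hn hn' (by linarith) hε hε1 y (hgr r h1 h2))
  have c2 := tav_cmp (i2 n hn) (i2 n' hn') (K := 8 * ‖n - n'‖ ^ 2 * (H * vv μ 1 y))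
    (by positivity) (fun r h1 h2 => by
      refine (X2_cmp p hn hn' h1 y).trans ?_
      have := mul_le_mul_of_nonneg_left (hHv μ hμ r y h1 h2)
        (show 0 ≤ 8 * ‖n - n'‖ ^ 2 by positivity)
      linarith)
  unfold XX
  have e : (2 * (8 * K0) + 2 * (8 * H) + 2 * (8 * K0) + 1) * ‖n - n'‖ ^ 2 * vv μ 1 y =
    2 * (8 * ‖n - n'‖ ^ 2 * (K0 * vv μ 1 y)) + 2 * (8 * ‖n - n'‖ ^ 2 * (H * vv μ 1 y)) +
    2 * (8 * ‖n - n'‖ ^ 2 * (K0 * vv μ 1 y)) + ‖n - n'‖ ^ 2 * vv μ 1 y := by ring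
  rw [e]
  have e2 : 0 ≤ ‖n - n'‖ ^ 2 * vv μ 1 y := by positivity
  linarith

/-! ### the rotation -/

lemma sum_norm {n n' : Sp d} (hn' : ‖n'‖ = 1) (hδ : ‖n - n'‖ ≤ 1) :
    1 ≤ ‖n + n'‖ := by
  have e : n + n' = (2 : ℝ) • n' + (n - n') := by module
  have h1 : ‖(2 : ℝ) • n'‖ = 2 := by rw [norm_smul, hn']; norm_num
  have h2 := norm_sub_norm_le ((2 : ℝ) • n') (-(n - n'))
  rw [norm_neg, sub_neg_eq_add, ← e, h1] at h2
  linarith

/-- a rotation which maps n' to n -/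
lemma rot {n n' : Sp d} (hn : ‖n‖ = 1) (hn' : ‖n'‖ = 1) (hδ : ‖n - n'‖ ≤ 1) :
    ∃ A : Sp d ≃ₗᵢ[ℝ] Sp d, A n' = n ∧ ∀ x, ‖A x - x‖ ≤ 8 * ‖n - n'‖ * ‖x‖ := by
  have hw := sum_norm hn' hδ
  have hw0 : 0 < ‖n + n'‖ := by linarith
  set m : Sp d := ‖n + n'‖⁻¹ • (n + n') with hm
  have hm1 : ‖m‖ = 1 := by
    rw [hm, norm_smul, norm_inv, norm_norm, inv_mul_cancel₀ hw0.ne']
  have hnn : ‖n + n'‖ ^ 2 = 2 * (1 + ⟪n', n⟫_ℝ) := by
    rw [norm_add_sq_real, hn, hn', real_inner_comm]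
    ring
  have hmn : ‖n' - m‖ ≤ 2 * ‖n - n'‖ := by
    have e : n' - m = ‖n + n'‖⁻¹ • (‖n + n'‖ • n' - (n + n')) := by
      rw [hm, smul_sub, smul_smul, inv_mul_cancel₀ hw0.ne', one_smul]
    have e2 : ‖n + n'‖ • n' - (n + n') = (‖n + n'‖ - 2) • n' - (n - n') := by module
    have e3 : |‖n + n'‖ - 2| ≤ ‖n - n'‖ := by
      have h1 : ‖(2 : ℝ) • n'‖ = 2 := by rw [norm_smul, hn']; norm_num
      have h2 := abs_norm_sub_norm_le (n + n') ((2 : ℝ) • n')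
      rw [h1] at h2
      have e4 : n + n' - (2 : ℝ) • n' = n - n' := by module
      rwa [e4] at h2
    rw [e, norm_smul, norm_inv, norm_norm, e2]
    have h3 : ‖(‖n + n'‖ - 2) • n' - (n - n')‖ ≤ 2 * ‖n - n'‖ := by
      refine (norm_sub_le _ _).trans ?_
      rw [norm_smul, hn', mul_one, Real.norm_eq_abs]
      linarith
    have h4 : ‖n + n'‖⁻¹ ≤ 1 := inv_le_one_of_one_le₀ hw
    have h5 : 0 ≤ ‖n + n'‖⁻¹ := by positivity
    nlinarith [norm_nonneg ((‖n + n'‖ - 2) • n' - (n - n')), norm_nonneg (n - n')]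
  refine ⟨(GPx.rf n').trans (GPx.rf m), ?_, ?_⟩
  · show GPx.rf m (GPx.rf n' n') = n
    have h1 : GPx.rf n' n' = -n' := by
      rw [GPx.rf_apply hn', real_inner_self_eq_norm_sq, hn']
      module
    rw [h1, map_neg, GPx.rf_apply hm1, hm, inner_smul_right, inner_add_right,
      real_inner_self_eq_norm_sq, hn', smul_smul]
    have e : 2 * (‖n + n'‖⁻¹ * (⟪n', n⟫_ℝ + 1 ^ 2)) * ‖n + n'‖⁻¹ = 1 := by
      have : (‖n + n'‖⁻¹) ^ 2 * ‖n + n'‖ ^ 2 = 1 := by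
        rw [← mul_pow, inv_mul_cancel₀ hw0.ne', one_pow]
      rw [hnn] at this
      linear_combination this
    rw [e, one_smul]
    abel
  · intro x
    show ‖GPx.rf m (GPx.rf n' x) - x‖ ≤ _
    set u := GPx.rf n' x with hu
    have hux : ‖u‖ = ‖x‖ := by rw [hu, LinearIsometryEquiv.norm_map]
    have hx : x = GPx.rf n' u := by
      rw [hu, GPx.rf_apply hn', GPx.rf_apply hn', inner_sub_left, inner_smul_left,
        real_inner_self_eq_norm_sq, hn']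
      simp only [RCLike.conj_to_real]
      module
    have e : GPx.rf m u - x = (2 * ⟪u, n' - m⟫_ℝ) • n' + (2 * ⟪u, m⟫_ℝ) • (n' - m) := by
      rw [hx, GPx.rf_apply hn', GPx.rf_apply hm1, inner_sub_right]
      module
    rw [e]
    refine (norm_add_le _ _).trans ?_
    rw [norm_smul, norm_smul, hn', mul_one, Real.norm_eq_abs, Real.norm_eq_abs, abs_mul, abs_mul,
      abs_two]
    have a1 := abs_real_inner_le_norm u (n' - m)
    have a2 := abs_real_inner_le_norm u m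
    rw [hm1, mul_one] at a2
    rw [hux] at a1 a2
    have a3 := mul_le_mul_of_nonneg_right a2 (norm_nonneg (n' - m))
    have a4 := mul_le_mul_of_nonneg_left hmn (norm_nonneg x)
    nlinarith

/-! ### transport of plane integrals -/

lemma int_map (A : Sp d ≃ₗᵢ[ℝ] Sp d) (p q : Submodule ℝ (Sp d))
    (hq : q = p.map (A.toLinearEquiv : Sp d →ₗ[ℝ] Sp d)) (G : Sp d → ℝ) :
    ∫ y : q, G y = ∫ y : p, G (A y) := by
  subst hq
  have e := (A.submoduleMap p).measurePreserving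
  exact (e.integral_comp (A.submoduleMap p).toHomeomorph.measurableEmbedding
    (fun y => G y)).symm

lemma map_pl (A : Sp d ≃ₗᵢ[ℝ] Sp d) {n n' : Sp d} (hA : A n' = n) :
    (Submodule.span ℝ {n})ᗮ =
      (Submodule.span ℝ {n'})ᗮ.map (A.toLinearEquiv : Sp d →ₗ[ℝ] Sp d) := by
  ext y
  rw [Submodule.mem_orthogonal_singleton_iff_inner_right, Submodule.mem_map]
  constructor
  · intro hy
    refine ⟨A.symm y, ?_, by simp⟩
    rw [Submodule.mem_orthogonal_singleton_iff_inner_right]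
    have := A.inner_map_map n' (A.symm y)
    rw [A.apply_symm_apply, hA, hy] at this
    exact this.symm
  · rintro ⟨x, hx, rfl⟩
    rw [Submodule.mem_orthogonal_singleton_iff_inner_right] at hx
    have := A.inner_map_map n' x
    rw [hA, hx] at this
    exact this

lemma plInt_rot (A : Sp d ≃ₗᵢ[ℝ] Sp d) {n n' : Sp d} (hA : A n' = n) (s s' : ℝ) (g : Sp d → ℝ) :
    plInt n s g = plInt n' s' (fun x => g (A x + (s - s') • n)) := by
  unfold plInt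
  rw [int_map A _ _ (map_pl A hA) (fun y => g (s • n + y))]
  refine integral_congr_ae (Eventually.of_forall fun y => ?_)
  show g (s • n + A y) = g (A (s' • n' + y) + (s - s') • n)
  congr 1
  rw [map_add, map_smul, hA]
  module

/-! ### comparison of nonnegative functions on two planes -/

lemma two_pt {g : Sp d → ℝ} (hg : ContDiff ℝ 2 g) (h0 : ∀ y, 0 ≤ g y) {N : ℝ}
    (hN : ∀ y, ‖iteratedFDeriv ℝ 2 g y‖ ≤ N) (x y : Sp d) :
    g y ≤ 2 * g x + 2 * N * ‖y - x‖ ^ 2 := by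
  have h1 := abs_le.mp (SS.taylor hg hN x y)
  have h2 := abs_le.mp (SS.taylor hg hN x (x - (y - x)))
  have e : x - (y - x) - x = -(y - x) := by abel
  rw [e, map_neg, norm_neg] at h2
  have h3 := h0 (x - (y - x))
  linarith [h1.2, h2.2]

lemma pl_cmp (hPF : StmtPF) (hd : 1 ≤ d) (R : ℝ) (hR : 1 ≤ R) : ∃ C : ℝ, 0 < C ∧
    ∀ (n n' : Sp d) (s s' δ : ℝ), ‖n‖ = 1 → ‖n'‖ = 1 → ‖n - n'‖ ≤ δ → |s - s'| ≤ δ → δ ≤ 1 →
    ∀ (g : Sp d → ℝ) (N : ℝ), ContDiff ℝ 2 g → (∀ y, 0 ≤ g y) →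
      (∀ y, ‖iteratedFDeriv ℝ 2 g y‖ ≤ N) → (∀ y, R ≤ ‖y‖ → g y = 0) →
      plInt n s g ≤ 2 * plInt n' s' g + C * N * δ ^ 2 := by
  obtain ⟨C0, hC0, hb⟩ := (hPF d hd).1 (R + 2)
  refine ⟨2 * (8 * (R + 1) + 1) ^ 2 * C0, by positivity, ?_⟩
  intro n n' s s' δ hn hn' hnn hss hδ g N hg h0 hN hs
  have hδ0 : 0 ≤ δ := (norm_nonneg _).trans hnn
  have hN0 : 0 ≤ N := (norm_nonneg _).trans (hN 0)
  obtain ⟨A, hA, hAx⟩ := rot hn hn' (hnn.trans hδ)
  rw [plInt_rot A hA s s']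
  set F : Sp d → ℝ := fun x => max 0 (min 1 (R + 2 - ‖x‖)) with hF
  have hFc : Continuous F := by rw [hF]; fun_prop
  have hF0 : ∀ x, 0 ≤ F x := fun x => le_max_left _ _
  have hF1 : ∀ x, F x ≤ 1 := fun x => max_le zero_le_one (min_le_left _ _)
  have hFs : ∀ x, F x ≠ 0 → ‖tang n' x‖ ≤ R + 2 := by
    intro x hx
    refine (PF.norm_tang_le hn' x).trans ?_
    by_contra hc
    apply hx
    show max 0 (min 1 (R + 2 - ‖x‖)) = 0
    refine max_eq_left ((min_le_right _ _).trans ?_)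
    linarith [not_le.mp hc]
  have hFb := hb n' hn' F 1 hFc (fun y => by rw [abs_of_nonneg (hF0 y)]; exact hF1 y) hFs s'
  have hs1 : ‖(s - s') • n‖ ≤ δ := by
    rw [norm_smul, hn, mul_one, Real.norm_eq_abs]
    exact hss
  have hT : ∀ x, g (A x + (s - s') • n) ≠ 0 → ‖x‖ ≤ R + 1 := by
    intro x hx
    by_contra hc
    apply hx
    apply hs
    have h1 : ‖A x‖ = ‖x‖ := A.norm_map x
    have h2 := norm_sub_norm_le (A x) (-((s - s') • n))
    rw [norm_neg, sub_neg_eq_add, h1] at h2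
    linarith [not_le.mp hc]
  set K : ℝ := 2 * N * (8 * (R + 1) + 1) ^ 2 * δ ^ 2 with hK
  have hK0 : 0 ≤ K := by positivity
  have key : ∀ x, g (A x + (s - s') • n) ≤ 2 * g x + K * F x := by
    intro x
    by_cases hx : g (A x + (s - s') • n) = 0
    · rw [hx]
      have := h0 x
      have := mul_nonneg hK0 (hF0 x)
      linarith
    · have hx1 := hT x hx
      have hx2 : F x = 1 := by
        show max 0 (min 1 (R + 2 - ‖x‖)) = 1
        rw [min_eq_left (by linarith), max_eq_right zero_le_one]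
      rw [hx2, mul_one]
      refine (two_pt hg h0 hN x _).trans ?_
      have h3 : ‖A x + (s - s') • n - x‖ ≤ (8 * (R + 1) + 1) * δ := by
        have e : A x + (s - s') • n - x = (A x - x) + (s - s') • n := by abel
        rw [e]
        refine (norm_add_le _ _).trans ?_
        have h4 : 8 * ‖n - n'‖ * ‖x‖ ≤ 8 * δ * (R + 1) := by
          refine mul_le_mul ?_ hx1 (norm_nonneg _) (by positivity)
          linarith
        linarith [hAx x]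
      have h5 := pow_le_pow_left₀ (norm_nonneg _) h3 2
      have h6 := mul_le_mul_of_nonneg_left h5 (show 0 ≤ 2 * N by positivity)
      rw [hK]
      nlinarith
  have ig : Integrable (fun y : PF.Pl n' => g (s' • n' + (y : Sp d))) :=
    PF.integrable_pl hn' hg.continuous (ρ := R) (fun y hy => by
      refine (PF.norm_tang_le hn' y).trans ?_
      by_contra hc
      exact hy (hs y (not_le.mp hc).le)) s'
  have iF : Integrable (fun y : PF.Pl n' => F (s' • n' + (y : Sp d))) :=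
    PF.integrable_pl hn' hFc hFs s'
  have iG : Integrable (fun y : PF.Pl n' =>
      (fun x => g (A x + (s - s') • n)) (s' • n' + (y : Sp d))) :=
    PF.integrable_pl hn' (hg.continuous.comp (by fun_prop)) (ρ := R + 1) (fun y hy =>
      (PF.norm_tang_le hn' y).trans (hT y hy)) s'
  have h1 : plInt n' s' (fun x => g (A x + (s - s') • n)) ≤
      2 * plInt n' s' g + K * plInt n' s' F := by
    unfold plInt
    rw [← integral_const_mul, ← integral_const_mul, ← integral_add (ig.const_mul 2)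
      (iF.const_mul K)]
    exact integral_mono iG ((ig.const_mul 2).add (iF.const_mul K)) (fun y => key _)
  refine h1.trans ?_
  have h2 : plInt n' s' F ≤ C0 := by
    have := (abs_le.mp hFb).2
    linarith
  have h3 := mul_le_mul_of_nonneg_left h2 hK0
  rw [hK] at h3 ⊢
  linarith

lemma mul_d2 {φ X : Sp d → ℝ} (hφ : ContDiff ℝ 2 φ) (hX : ContDiff ℝ 2 X) {y : Sp d} {B : ℝ}
    (h1 : ∀ j ≤ 2, ‖iteratedFDeriv ℝ j φ y‖ ≤ 1) (h2 : ∀ j ≤ 2, ‖iteratedFDeriv ℝ j X y‖ ≤ B) :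
    ‖iteratedFDeriv ℝ 2 (fun x => φ x * X x) y‖ ≤ 4 * B := by
  have hB : 0 ≤ B := (norm_nonneg _).trans (h2 0 (by norm_num))
  refine (norm_iteratedFDeriv_mul_le (n := 2) hφ hX y le_rfl).trans ?_
  have h3 : ∀ i ∈ Finset.range (2 + 1), ((Nat.choose 2 i : ℕ) : ℝ) * ‖iteratedFDeriv ℝ i φ y‖ *
      ‖iteratedFDeriv ℝ (2 - i) X y‖ ≤ (Nat.choose 2 i : ℝ) * B := by
    intro i hi
    have hi2 : i ≤ 2 := by
      have := Finset.mem_range.mp hi
      omega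
    have a1 := h1 i hi2
    have a2 := h2 (2 - i) (by omega)
    rw [mul_assoc]
    refine mul_le_mul_of_nonneg_left ?_ (by positivity)
    calc _ ≤ 1 * B := mul_le_mul a1 a2 (norm_nonneg _) zero_le_one
      _ = B := one_mul B
  refine (Finset.sum_le_sum h3).trans (le_of_eq ?_)
  simp [Finset.sum_range_succ]
  ring

lemma supp_d2 {g : Sp d → ℝ} {R : ℝ} (hs : ∀ y, R ≤ ‖y‖ → g y = 0) {y : Sp d}
    (hy : R < ‖y‖) : iteratedFDeriv ℝ 2 g y = 0 := by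
  have h1 : y ∉ tsupport g := by
    intro h
    have h2 : tsupport g ⊆ closedBall 0 R := by
      refine closure_minimal (fun x hx => ?_) isClosed_closedBall
      rw [mem_closedBall_zero_iff]
      by_contra hc
      exact hx (hs x (not_le.mp hc).le)
    have h3 := h2 h
    rw [mem_closedBall_zero_iff] at h3
    linarith
  have h4 : y ∉ Function.support (iteratedFDeriv ℝ 2 g) :=
    fun h => h1 (support_iteratedFDeriv_subset 2 h)
  simpa using h4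

end

end TCm

open TCm in
/-- MODULE TC -/
theorem stmtTC (hTH : StmtTH) (hWA : StmtWA) (hPF : StmtPF) : StmtTC := by
  intro d hd M C' ε R hC' hε hε4 hR
  obtain ⟨Cx, hCx, hx⟩ := XX_cmp (d := d) hTH hd 10 M hC' hε (by linarith)
  obtain ⟨Cw, hCw, hw⟩ := hWA d 6 hd M C' ε hC' hε (by linarith)
  obtain ⟨Cp, hCp, hp⟩ := pl_cmp (d := d) hPF (by omega) R hR
  obtain ⟨C0, hC0, hb⟩ := (hPF d (by omega)).1 R
  set Q : ℝ := (1 + R) ^ d with hQ
  have hQ0 : 0 < Q := by positivity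
  refine ⟨Cx * C0 * Q + 2 * Cp * (4 * (Cw * Q)) + C0 * (Cw * Q), by positivity, ?_⟩
  intro β hβ μ hμ n n' s s' δ hn hn' hnn hss φ hφ hφ0 hφs
  have p := pot_of hTH hd hC' hμ
  have hδ0 : 0 ≤ δ := (norm_nonneg _).trans hnn
  have hv0 := p.vpos one_pos (0 : Sp d)
  have hvc : Continuous (vv μ 1) := (p.smoothx one_pos).continuous
  have hvy : ∀ y : Sp d, ‖y‖ ≤ R → vv μ 1 y ≤ Q * vv μ 1 0 := by
    intro y hy
    have h1 := p.har 1 0 y one_pos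
    have h2 : (1 + ‖(0 : Sp d) - y‖ / 1) ^ d ≤ Q := by
      rw [zero_sub, norm_neg, div_one]
      exact pow_le_pow_left₀ (by positivity) (by linarith) d
    have hQ1 : 1 ≤ Q := one_le_pow₀ (by linarith)
    have h3 := p.pos 1 0 one_pos
    have h4 : th μ 1 y ≤ Q * th μ 1 0 := h1.trans (mul_le_mul_of_nonneg_right h2 h3.le)
    have h5 : vv μ 1 y ^ 2 ≤ (Q * vv μ 1 0) ^ 2 := by
      rw [p.vsq one_pos, mul_pow, p.vsq one_pos]
      nlinarith [mul_nonneg (mul_nonneg hQ0.le (sub_nonneg.2 hQ1)) h3.le]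
    exact (abs_le_of_sq_le_sq' h5 (by positivity)).2
  have hW : ∀ m : Sp d, ‖m‖ = 1 → ContDiff ℝ 6 (XX β ε μ m 1) ∧ (∀ y, 0 ≤ XX β ε μ m 1 y) ∧
      (∀ j ≤ 6, ∀ y, ‖iteratedFDeriv ℝ j (XX β ε μ m 1) y‖ ≤ Cw * vv μ 1 y) := by
    intro m hm
    obtain ⟨a1, a2, a3, -⟩ := (hw β hβ μ hμ).2.2.2.2 m hm
    exact ⟨a1, a2, a3⟩
  obtain ⟨cn, pn, bn⟩ := hW n hn
  obtain ⟨cn', pn', bn'⟩ := hW n' hn'
  have hφb : ∀ y, |φ y| ≤ 1 := by
    intro y
    have := hφ.bd 0 (by norm_num) y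
    rwa [norm_iteratedFDeriv_zero, Real.norm_eq_abs] at this
  have hφc : Continuous φ := hφ.smooth.continuous
  have hts : ∀ (G : Sp d → ℝ) (m : Sp d), ‖m‖ = 1 → ∀ y, φ y * G y ≠ 0 → ‖tang m y‖ ≤ R := by
    intro G m hm y hy
    refine (PF.norm_tang_le hm y).trans ?_
    by_contra hc
    apply hy
    rw [hφs y (not_le.mp hc).le, zero_mul]
  -- bounds of products
  have hbd : ∀ (G : Sp d → ℝ) (B : ℝ), 0 ≤ B → (∀ y, |G y| ≤ B * vv μ 1 y) →
      ∀ y, |φ y * G y| ≤ B * Q * vv μ 1 0 := by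
    intro G B hB hG y
    by_cases hy : R ≤ ‖y‖
    · rw [hφs y hy, zero_mul, abs_zero]
      positivity
    · rw [abs_mul]
      have h1 := hvy y (not_le.mp hy).le
      calc |φ y| * |G y| ≤ 1 * (B * (Q * vv μ 1 0)) :=
            mul_le_mul (hφb y) ((hG y).trans (mul_le_mul_of_nonneg_left h1 hB)) (abs_nonneg _)
              zero_le_one
        _ = _ := by ring
  have bn0 : ∀ y, |XX β ε μ n 1 y| ≤ Cw * vv μ 1 y := by
    intro y
    have := bn 0 (by norm_num) y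
    rwa [norm_iteratedFDeriv_zero, Real.norm_eq_abs] at this
  have hpos' : 0 ≤ plInt n' s' (fun x => φ x * XX β ε μ n' 1 x) :=
    integral_nonneg fun y => mul_nonneg (hφ0 _) (pn' _)
  by_cases hδ1 : δ ≤ 1
  · -- small δ
    have hφ2 : ContDiff ℝ 2 φ := hφ.smooth
    have cX : ContDiff ℝ 2 (XX β ε μ n' 1) := cn'.of_le (by norm_num)
    have hN : ∀ y, ‖iteratedFDeriv ℝ 2 (fun x => φ x * XX β ε μ n' 1 x) y‖ ≤
        4 * (Cw * Q) * vv μ 1 0 := by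
      intro y
      by_cases hy : ‖y‖ ≤ R
      · have h1 := mul_d2 (y := y) (B := Cw * vv μ 1 y) hφ2 cX (fun j hj => hφ.bd j hj y)
          (fun j hj => bn' j (by omega) y)
        refine h1.trans ?_
        have := mul_le_mul_of_nonneg_left (hvy y hy) hCw.le
        linarith
      · rw [supp_d2 (R := R) (fun y hy => by rw [hφs y hy, zero_mul]) (not_le.mp hy), norm_zero]
        positivity
    have h1 := hp n n' s s' δ hn hn' hnn hss hδ1 (fun x => φ x * XX β ε μ n' 1 x)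
      (4 * (Cw * Q) * vv μ 1 0) (hφ2.mul cX) (fun y => mul_nonneg (hφ0 y) (pn' y)) hN
      (fun y hy => by
        show φ y * XX β ε μ n' 1 y = 0
        rw [hφs y hy, zero_mul])
    have h2 := hb n hn (fun x => φ x * vv μ 1 x) (1 * Q * vv μ 1 0) (hφc.mul hvc)
      (hbd (vv μ 1) 1 zero_le_one (fun y => by
        rw [abs_of_pos (p.vpos one_pos y), one_mul])) (hts (vv μ 1) n hn) s
    have i0 : Integrable (fun y : PF.Pl n => (fun x => φ x * XX β ε μ n 1 x) (s • n + (y : Sp d))) :=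
      PF.integrable_pl hn (hφc.mul cn.continuous) (hts _ n hn) s
    have i1 : Integrable (fun y : PF.Pl n => (fun x => φ x * XX β ε μ n' 1 x)
        (s • n + (y : Sp d))) :=
      PF.integrable_pl hn (hφc.mul cn'.continuous) (hts _ n hn) s
    have i2 : Integrable (fun y : PF.Pl n => (fun x => φ x * vv μ 1 x) (s • n + (y : Sp d))) :=
      PF.integrable_pl hn (hφc.mul hvc) (hts _ n hn) s
    have h3 : plInt n s (fun x => φ x * XX β ε μ n 1 x) ≤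
        2 * plInt n s (fun x => φ x * XX β ε μ n' 1 x) +
          Cx * ‖n - n'‖ ^ 2 * plInt n s (fun x => φ x * vv μ 1 x) := by
      unfold plInt
      rw [← integral_const_mul, ← integral_const_mul, ← integral_add (i1.const_mul 2)
        (i2.const_mul _)]
      refine integral_mono i0 ((i1.const_mul 2).add (i2.const_mul _)) (fun y => ?_)
      have h4 := mul_le_mul_of_nonneg_left (hx β hβ μ hμ n n' hn hn' (s • n + (y : Sp d)))
        (hφ0 (s • n + (y : Sp d)))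
      refine h4.trans (le_of_eq ?_)
      show _ = 2 * (φ (s • n + (y : Sp d)) * XX β ε μ n' 1 (s • n + (y : Sp d))) +
        Cx * ‖n - n'‖ ^ 2 * (φ (s • n + (y : Sp d)) * vv μ 1 (s • n + (y : Sp d)))
      ring
    have h5 : plInt n s (fun x => φ x * vv μ 1 x) ≤ C0 * (Q * vv μ 1 0) := by
      have := (abs_le.mp h2).2
      linarith
    have h6 : ‖n - n'‖ ^ 2 ≤ δ ^ 2 := pow_le_pow_left₀ (norm_nonneg _) hnn 2
    have h7 : Cx * ‖n - n'‖ ^ 2 * plInt n s (fun x => φ x * vv μ 1 x) ≤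
        Cx * δ ^ 2 * (C0 * (Q * vv μ 1 0)) := by
      refine mul_le_mul (mul_le_mul_of_nonneg_left h6 hCx.le) h5 ?_ (by positivity)
      exact integral_nonneg fun y => mul_nonneg (hφ0 _) (p.vpos one_pos _).le
    have h8 : 0 ≤ C0 * (Cw * Q) * δ ^ 2 * vv μ 1 0 := by positivity
    refine h3.trans ?_
    nlinarith
  · -- large δ
    have h1 := hb n hn (fun x => φ x * XX β ε μ n 1 x) (Cw * Q * vv μ 1 0)
      (hφc.mul cn.continuous) (hbd _ Cw hCw.le bn0) (hts _ n hn) s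
    have h2 := (abs_le.mp h1).2
    have h3 : 1 ≤ δ ^ 2 := by nlinarith [not_le.mp hδ1]
    have h4 : 0 ≤ C0 * (Cw * Q) * vv μ 1 0 := by positivity
    have h5 : 0 ≤ (Cx * C0 * Q + 2 * Cp * (4 * (Cw * Q))) * δ ^ 2 * vv μ 1 0 := by positivity
    have h6 := mul_le_mul_of_nonneg_left h3 h4
    nlinarith

end TG
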