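import Pool.Agent.TG.Stmts13
import Pool.Agent.TG.WT
import Pool.Agent.TG.TC
import Pool.Agent.TG.CT7
import Pool.Agent.TG.TA2
import Pool.Agent.TG.SS1
import Pool.Agent.TG.KitMono

/-!
# Trace inequality, general operators: module P1, the pair inequalities   (helper52)

Two sheets in cells of nearby levels.  Either the defects dominate the density of the first sheet,
or (module GS) the two planes are close and the densities are comparable; then module TC compares
the gains, and near positivity compares the off-sheet masses.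
-/

open MeasureTheory Metric Set TrI
open scoped InnerProductSpace ContDiff ENNReal

namespace TG

namespace P1x

noncomputable section

variable {d : ℕ}

/-! ## The alternative -/

lemma inner_smul_self {n : Sp d} (hn : ‖n‖ = 1) (s : ℝ) : ⟪n, s • n⟫_ℝ = s := by
  rw [inner_smul_right, real_inner_self_eq_norm_sq, hn]
  ring

lemma ZP_mono {R D D' : ℝ} {m : Sp d → ℝ} (h : ZP R D m) (hD : D ≤ D') : ZP R D' m := by
  intro H h1 h2 h3 h4 h5
  have := h H h1 h2 h3 h4 h5
  linarith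

/-- arithmetic of the second moment -/
lemma arith2 {ab ab' er er' e z C K0 : ℝ} (hab : 0 < ab) (hab' : 0 < ab') (h2 : ab' ≤ 2 * ab)
    (her : 0 ≤ er) (her' : 0 ≤ er') (he : 0 ≤ e) (hz : 0 ≤ z) (hC : 1 ≤ C) (hK : 1 ≤ K0)
    (hEr : C * (2 * (er + er') + e + K0 * z) ≤ ab) :
    ab * (C * (2 * (er + er') + e + K0 * z) / ab) ^ 2 ≤
      32 * C ^ 2 * K0 * (er ^ 2 / ab + er' ^ 2 / ab' + e + z) := by
  have hC0 : 0 < C := by linarith
  have hK0 : 0 < K0 := by linarith
  have hEr0 : 0 ≤ 2 * (er + er') + e + K0 * z := by positivity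
  have hEr1 : 2 * (er + er') + e + K0 * z ≤ ab := by nlinarith
  have e1 : e ≤ ab := by nlinarith [mul_nonneg hK0.le hz]
  have e2 : K0 * z ≤ ab := by nlinarith
  have e3 : ab * (C * (2 * (er + er') + e + K0 * z) / ab) ^ 2 =
      C ^ 2 * ((2 * (er + er') + e + K0 * z) ^ 2 / ab) := by
    field_simp
  have e4 : (2 * (er + er') + e + K0 * z) ^ 2 ≤
      16 * er ^ 2 + 16 * er' ^ 2 + 4 * e ^ 2 + 4 * (K0 * z) ^ 2 := by
    nlinarith [sq_nonneg (2 * er - 2 * er'), sq_nonneg (2 * er - e), sq_nonneg (2 * er - K0 * z),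
      sq_nonneg (2 * er' - e), sq_nonneg (2 * er' - K0 * z), sq_nonneg (e - K0 * z)]
  have e5 : er' ^ 2 / ab ≤ 2 * (er' ^ 2 / ab') := by
    rw [mul_div_assoc', div_le_div_iff₀ hab hab']
    nlinarith [mul_le_mul_of_nonneg_left h2 (sq_nonneg er')]
  have e6 : e ^ 2 / ab ≤ e := by
    rw [div_le_iff₀ hab]
    nlinarith
  have e7 : (K0 * z) ^ 2 / ab ≤ K0 * z := by
    rw [div_le_iff₀ hab]
    nlinarith [mul_nonneg hK0.le hz]
  have e8 : 0 ≤ er ^ 2 / ab := by positivity
  have e9 : 0 ≤ er' ^ 2 / ab' := by positivity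
  have e10 : (2 * (er + er') + e + K0 * z) ^ 2 / ab ≤
      16 * (er ^ 2 / ab) + 32 * (er' ^ 2 / ab') + 4 * e + 4 * (K0 * z) := by
    have h1 := div_le_div_of_nonneg_right e4 hab.le
    have h3 : (16 * er ^ 2 + 16 * er' ^ 2 + 4 * e ^ 2 + 4 * (K0 * z) ^ 2) / ab =
        16 * (er ^ 2 / ab) + 16 * (er' ^ 2 / ab) + 4 * (e ^ 2 / ab) + 4 * ((K0 * z) ^ 2 / ab) := by
      ring
    rw [h3] at h1
    linarith
  rw [e3]
  have e11 : 16 * (er ^ 2 / ab) + 32 * (er' ^ 2 / ab') + 4 * e + 4 * (K0 * z) ≤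
      32 * K0 * (er ^ 2 / ab + er' ^ 2 / ab' + e + z) := by
    have h1 : 0 ≤ (K0 - 1) * (er ^ 2 / ab + er' ^ 2 / ab' + e) := by
      apply mul_nonneg <;> [linarith; positivity]
    have h3 : 0 ≤ K0 * z := by positivity
    nlinarith
  calc C ^ 2 * ((2 * (er + er') + e + K0 * z) ^ 2 / ab) ≤
        C ^ 2 * (32 * K0 * (er ^ 2 / ab + er' ^ 2 / ab' + e + z)) :=
        mul_le_mul_of_nonneg_left (e10.trans e11) (by positivity)
    _ = _ := by ring

/-- either the defects dominate the density, or the two planes are close -/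
lemma pair (hGS : StmtGS) (hd : 2 ≤ d) (J JA : ℕ) {R0 : ℝ} (hR0 : 1 ≤ R0) : ∃ K : ℝ, 1 ≤ K ∧
    ∀ i ≤ JA, ∀ (m mx : Sp d → ℝ) (n n' x : Sp d) (s s' ab ab' er er' dl dl' D D' Kc κ : ℝ),
      Continuous m → Continuous mx → 0 ≤ D → 0 ≤ D' → 0 ≤ dl → 0 ≤ dl' →
      Sheet J (64 * R0) ab er dl m n s →
      Sheet J (64 * R0) ab' er' dl' (fun y => 2 ^ i * mx (x + (2 : ℝ) ^ i • y)) n' s' →
      ZP (64 * R0 + 1) D m → ZP (64 * R0 + 1) D' (fun y => 2 ^ i * mx (x + (2 : ℝ) ^ i • y)) →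
      (∀ (Y : Sp d → ℝ) (N : ℝ), TFn 2 N Y → (∀ y, 64 * R0 + 1 ≤ ‖y‖ → Y y = 0) →
        |∫ y, (mx y - m y) * Y y| ≤ N * D) →
      |s| ≤ 32 * R0 + 4 → ‖x‖ ≤ 3 * R0 * 2 ^ i → blc n s m (64 * R0) ≤ er →
      blc n' s' (fun y => 2 ^ i * mx (x + (2 : ℝ) ^ i • y)) (64 * R0) ≤ er' →
      1 ≤ Kc → 0 < κ → K * (κ * (1 + Kc)) ≤ 1 → er ≤ κ * ab → dl ≤ κ * ab → er' ≤ κ * ab' →
      dl' ≤ κ * ab' → ab' ≤ Kc * ab →
      ab ≤ K * (D + D') ∨ ∃ σ δ : ℝ, (σ = 1 ∨ σ = -1) ∧ 0 ≤ δ ∧ δ ≤ 1 ∧ ab ≤ 2 * ab' ∧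
        ab' ≤ 2 * ab ∧ ‖n - σ • n'‖ ≤ δ ∧
        |(1 / 2 : ℝ) ^ i * (s - ⟪n, x⟫_ℝ) - σ * s'| ≤ (1 + 3 * R0) * δ ∧
        ab * δ ≤ K * (er + er' + dl + dl' + D + D') ∧
        ab * δ ^ 2 ≤ K * (er ^ 2 / ab + er' ^ 2 / ab' + dl + dl' + D + D') := by
  have hG0 := fun i => hGS d J hd (64 * R0) i (by linarith)
  choose c1 C1 hc1 hC1 hG using hG0
  set C : ℝ := 1 + ∑ i ∈ Finset.range (JA + 1), (1 / c1 i + C1 i) with hC
  have hterm : ∀ i, 0 ≤ 1 / c1 i + C1 i := fun i => by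
    have h1 := hc1 i
    have h2 := hC1 i
    positivity
  have hCge : ∀ i ≤ JA, 1 / c1 i + C1 i ≤ C := by
    intro i hi
    have h1 : 1 / c1 i + C1 i ≤ ∑ i ∈ Finset.range (JA + 1), (1 / c1 i + C1 i) :=
      Finset.single_le_sum (f := fun i => 1 / c1 i + C1 i) (fun i _ => hterm i)
        (Finset.mem_range.2 (by omega))
    rw [hC]
    linarith
  have hC1' : 1 ≤ C := by
    have : 0 ≤ ∑ i ∈ Finset.range (JA + 1), (1 / c1 i + C1 i) :=
      Finset.sum_nonneg fun i _ => hterm i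
    rw [hC]
    linarith
  have hC0 : 0 < C := by linarith
  clear_value C
  set K0 : ℝ := (2 * (64 * R0) + 1) ^ 2 with hK0
  have hK01 : 2 ≤ K0 := by
    rw [hK0]
    nlinarith
  clear_value K0
  have hKK : 1 ≤ 32 * C ^ 2 * K0 := by nlinarith
  refine ⟨32 * C ^ 2 * K0, hKK, ?_⟩
  intro i hi m mx n n' x s s' ab ab' er er' dl dl' D D' Kc κ hm hmx hD hD' hdl hdl' hS hS' hZ hZ'
    hdir hs hx hbl hbl' hKc hκ hκK h1 h2 h3 h4 h5
  have hab := hS.ab0
  have hab' := hS'.ab0
  have her := hS.ep0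
  have her' := hS'.ep0
  have hT1 : (1 : ℝ) ≤ 2 ^ i := one_le_pow₀ (by norm_num)
  have hT0 : (0 : ℝ) < 2 ^ i := by positivity
  set Er : ℝ := 2 * (er + er') + (dl + dl') + K0 * (D + D') with hEr
  have hEr0 : 0 ≤ Er := by rw [hEr]; positivity
  by_cases hcase : C * Er ≤ ab / 2
  · right
    have hDt : 0 ≤ dl + dl' + K0 * (D + D') := by positivity
    have hKD : D ≤ K0 * (D + D') := by nlinarith
    have hKD' : D' ≤ K0 * (D + D') := by nlinarith
    have hp1 : ‖s • n‖ = |s| := by rw [norm_smul, hS.n1, mul_one, Real.norm_eq_abs]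
    have hCi := hCge i hi
    have hc1i := hc1 i
    have hfin := hG i m mx n n' s s' ab ab' er er' (dl + dl' + K0 * (D + D')) Er x (s • n)
      hm hmx hDt (WT.sheet_mono hS le_rfl le_rfl hS.loc le_rfl (by linarith))
      (WT.sheet_mono hS' le_rfl le_rfl hS'.loc le_rfl (by linarith))
      (ZP_mono hZ (by linarith)) (ZP_mono hZ' (by linarith)) ?_ ?_ ?_ ?_ ?_ ?_
    · obtain ⟨g1, σ, hσ, g2⟩ := hfin
      have hC1i : C1 i * Er ≤ C * Er := by
        refine mul_le_mul_of_nonneg_right ?_ hEr0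
        have : 0 ≤ 1 / c1 i := by positivity
        linarith
      have g1' := abs_le.1 (g1.trans hC1i)
      have g2' := g2.trans hC1i
      refine ⟨σ, C * Er / ab, hσ, by positivity, ?_, by linarith, by linarith, ?_, ?_, ?_, ?_⟩
      · rw [div_le_one hab]
        linarith
      · rw [le_div_iff₀ hab]
        nlinarith [mul_nonneg hab.le (abs_nonneg (s - σ * (⟪n', x⟫_ℝ + 2 ^ i * s')))]
      · set δ := C * Er / ab with hδ
        have hδ0 : 0 ≤ δ := by positivity
        have d1 : ‖n - σ • n'‖ ≤ δ := by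
          rw [hδ, le_div_iff₀ hab]
          nlinarith [mul_nonneg hab.le (abs_nonneg (s - σ * (⟪n', x⟫_ℝ + 2 ^ i * s')))]
        have d2 : |s - σ * (⟪n', x⟫_ℝ + 2 ^ i * s')| ≤ δ := by
          rw [hδ, le_div_iff₀ hab]
          nlinarith [mul_nonneg hab.le (norm_nonneg (n - σ • n'))]
        have hh : (1 / 2 : ℝ) ^ i * 2 ^ i = 1 := by rw [← mul_pow]; norm_num
        have e1 : (1 / 2 : ℝ) ^ i * (s - ⟪n, x⟫_ℝ) - σ * s' =
            (1 / 2 : ℝ) ^ i * ((s - σ * (⟪n', x⟫_ℝ + 2 ^ i * s')) - ⟪n - σ • n', x⟫_ℝ) := by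
          rw [inner_sub_left, real_inner_smul_left]
          linear_combination (σ * s') * hh
        rw [e1, abs_mul, abs_of_pos (by positivity)]
        have e2 : |⟪n - σ • n', x⟫_ℝ| ≤ δ * (3 * R0 * 2 ^ i) :=
          (abs_real_inner_le_norm _ _).trans (mul_le_mul d1 hx (norm_nonneg _) hδ0)
        have e3 : |(s - σ * (⟪n', x⟫_ℝ + 2 ^ i * s')) - ⟪n - σ • n', x⟫_ℝ| ≤
            (1 + 3 * R0) * δ * 2 ^ i := by
          refine (abs_sub _ _).trans ?_
          have : δ ≤ δ * 2 ^ i := le_mul_of_one_le_right hδ0 hT1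
          linarith
        calc (1 / 2 : ℝ) ^ i * |(s - σ * (⟪n', x⟫_ℝ + 2 ^ i * s')) - ⟪n - σ • n', x⟫_ℝ| ≤
              (1 / 2 : ℝ) ^ i * ((1 + 3 * R0) * δ * 2 ^ i) :=
              mul_le_mul_of_nonneg_left e3 (by positivity)
          _ = (1 + 3 * R0) * δ * ((1 / 2 : ℝ) ^ i * 2 ^ i) := by ring
          _ = _ := by rw [hh, mul_one]
      · rw [mul_div_cancel₀ _ hab.ne']
        have e1 : Er ≤ K0 * (er + er' + dl + dl' + D + D') := by
          rw [hEr]
          nlinarith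
        have e2 : 0 ≤ er + er' + dl + dl' + D + D' := by positivity
        calc C * Er ≤ C * (K0 * (er + er' + dl + dl' + D + D')) :=
              mul_le_mul_of_nonneg_left e1 hC0.le
          _ = (C * K0) * (er + er' + dl + dl' + D + D') := by ring
          _ ≤ (32 * C ^ 2 * K0) * (er + er' + dl + dl' + D + D') := by
              refine mul_le_mul_of_nonneg_right ?_ e2
              have : C * K0 ≤ C ^ 2 * K0 := by
                refine mul_le_mul_of_nonneg_right ?_ (by linarith)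
                nlinarith
              nlinarith
      · have := arith2 (e := dl + dl') (z := D + D') hab hab' (by linarith) her her'
          (by linarith) (by linarith) hC1' (by linarith : 1 ≤ K0) (by rw [← hEr]; linarith)
        rw [← hEr] at this
        refine this.trans (le_of_eq ?_)
        ring
    · -- the difference
      intro Y hY1 hY2 hY3 hY4
      have hY : TFn 2 K0 Y := by
        have := SS.TFn_of_d2 hY1 (N := 1) (ρ := 64 * R0) (R := 64 * R0) (by linarith) le_rfl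
          hY3 hY4 hS.n1
        rw [mul_one, ← hK0] at this
        exact this
      have h1 := hdir Y K0 hY (fun y hy => hY4 y (by linarith))
      have h2 : ∫ y, (m y - mx y) * Y y = -∫ y, (mx y - m y) * Y y := by
        rw [← integral_neg]
        congr 1
        ext y
        ring
      rw [h2, abs_neg]
      refine h1.trans ?_
      nlinarith
    · rw [hp1]
      linarith
    · unfold hgt
      rw [inner_smul_self hS.n1, sub_self, abs_zero]
      norm_num
    · refine (norm_sub_le _ _).trans ?_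
      rw [hp1]
      have h1 : 0 ≤ (32 * R0 + 4) * (2 ^ i - 1) := mul_nonneg (by linarith) (by linarith)
      have h2 : 0 ≤ (29 * R0 - 7) * 2 ^ i := mul_nonneg (by linarith) (by linarith)
      nlinarith
    · have e3 : max 0 (blc n s m (64 * R0)) ≤ er := max_le her hbl
      have e4 : max 0 (blc n' s' (fun y => 2 ^ i * mx (x + (2 : ℝ) ^ i • y)) (64 * R0)) ≤ er' :=
        max_le her' hbl'
      rw [hEr]
      linarith
    · have e1 : 1 / c1 i * Er ≤ C * Er :=
        mul_le_mul_of_nonneg_right (by have := hC1 i; linarith) hEr0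
      have e2 : 1 / c1 i * Er ≤ ab := by linarith
      rw [div_mul_eq_mul_div, one_mul, div_le_iff₀ hc1i] at e2
      linarith
  · left
    push Not at hcase
    have e1 : er' ≤ κ * (Kc * ab) := h3.trans (mul_le_mul_of_nonneg_left h5 hκ.le)
    have e2 : dl' ≤ κ * (Kc * ab) := h4.trans (mul_le_mul_of_nonneg_left h5 hκ.le)
    have e3 : Er ≤ 3 * (κ * (1 + Kc)) * ab + K0 * (D + D') := by
      rw [hEr]
      nlinarith
    have e4 : C * Er ≤ C * (3 * (κ * (1 + Kc)) * ab + K0 * (D + D')) :=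
      mul_le_mul_of_nonneg_left e3 hC0.le
    have e5 : 12 * C * (κ * (1 + Kc)) ≤ 1 := by
      refine le_trans ?_ hκK
      refine mul_le_mul_of_nonneg_right ?_ (by positivity)
      nlinarith
    have e6 : 12 * C * (κ * (1 + Kc)) * ab ≤ ab := by nlinarith
    have e7 : ab ≤ 4 * (C * K0) * (D + D') := by nlinarith
    refine e7.trans (mul_le_mul_of_nonneg_right ?_ (by linarith))
    have : C * K0 ≤ C ^ 2 * K0 := by
      refine mul_le_mul_of_nonneg_right ?_ (by linarith)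
      nlinarith
    have h0 : 0 ≤ C ^ 2 * K0 := by positivity
    nlinarith

end

end P1x

end TG
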