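import Pool.Agent.TG.P1a

/-!
# Trace inequality, general operators: module P1, unit scale   (helper52)
-/

open MeasureTheory Metric Set TrI
open scoped InnerProductSpace ContDiff ENNReal

namespace TG

namespace P1x

noncomputable section

variable {d : ℕ}

/-! ## Masses -/

/-- the mass of a cut-off times the squared height is at most the off-sheet mass -/
lemma le_blc {R cs : ℝ} (hR : 0 < R) : ∃ K : ℝ, 0 < K ∧ ∀ (ψ : Sp d → ℝ) (N : ℝ), TFn 2 N ψ →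
    (∀ y, ψ y ≤ zR R y) → (∀ y, R + 1 ≤ ‖y‖ → ψ y = 0) → ∀ (m : Sp d → ℝ) (n : Sp d) (s D : ℝ),
    Continuous m → ‖n‖ = 1 → |s| ≤ cs → ZP (R + 1) D m →
      ∫ y, m y * (ψ y * hgt n s y ^ 2) ≤ blc n s m R + K * (1 + N) * |D| := by
  obtain ⟨Nz, hNz, hz⟩ := TU.TFn_of_cs (J := 2) (contDiff_infty.1 (TU.zR_smooth (d := d) hR) 2)
    (TU.zR_cs R)
  refine ⟨4 ^ 2 * (1 + Nz) * max 1 (R + 1 + cs) ^ 2, by positivity, ?_⟩
  intro ψ N hψ hψz hψs m n s D hm hn hs hZ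
  have hN := TU.TFn_nonneg hψ
  have hφ := TU.TFn_sub hz hψ
  have h1 : ∀ y : Sp d, R + 1 < ‖y‖ → zR R y - ψ y = 0 := fun y hy => by
    rw [TU.zR_zero hy.le, hψs y hy.le, sub_zero]
  have h2 := TU.TFn_ht_sq hφ h1 hn hs
  have h3 := GSAux.ZP' hZ h2 (fun y => mul_nonneg (by linarith [hψz y]) (sq_nonneg _))
    (fun y hy => by rw [TU.zR_zero hy, hψs y hy, sub_zero, zero_mul])
  have hi : ∀ φ : Sp d → ℝ, Continuous φ → (∀ y, R + 1 ≤ ‖y‖ → φ y = 0) →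
      Integrable (fun y => m y * (φ y * hgt n s y ^ 2)) := by
    intro φ hφ1 hφ2
    have hc : Continuous (fun y => m y * (φ y * hgt n s y ^ 2)) := by
      unfold hgt
      fun_prop
    refine hc.integrable_of_hasCompactSupport ?_
    refine HasCompactSupport.intro (isCompact_closedBall (0 : Sp d) (R + 1)) fun y hy => ?_
    rw [mem_closedBall, dist_zero_right, not_le] at hy
    rw [hφ2 y hy.le, zero_mul, mul_zero]
  have h4 : ∫ y, m y * ((zR R y - ψ y) * ht n s y ^ 2) =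
      blc n s m R - ∫ y, m y * (ψ y * hgt n s y ^ 2) := by
    unfold blc
    rw [← integral_sub (hi (zR R) (TU.zR_smooth hR).continuous fun y hy => TU.zR_zero hy)
      (hi ψ hψ.smooth.continuous hψs)]
    congr 1
    ext y
    simp only [ht, hgt]
    ring
  rw [h4] at h3
  have h5 : 4 ^ 2 * (Nz + N) * max 1 (R + 1 + cs) ^ 2 * D ≤
      4 ^ 2 * (1 + Nz) * max 1 (R + 1 + cs) ^ 2 * (1 + N) * |D| := by
    have e1 : Nz + N ≤ (1 + Nz) * (1 + N) := by nlinarith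
    have e2 : 0 ≤ 4 ^ 2 * max 1 (R + 1 + cs) ^ 2 := by positivity
    calc 4 ^ 2 * (Nz + N) * max 1 (R + 1 + cs) ^ 2 * D =
          (4 ^ 2 * max 1 (R + 1 + cs) ^ 2) * ((Nz + N) * D) := by ring
      _ ≤ (4 ^ 2 * max 1 (R + 1 + cs) ^ 2) * ((1 + Nz) * (1 + N) * |D|) := by
          refine mul_le_mul_of_nonneg_left ?_ e2
          calc (Nz + N) * D ≤ (Nz + N) * |D| :=
                mul_le_mul_of_nonneg_left (le_abs_self D) (by linarith)
            _ ≤ _ := mul_le_mul_of_nonneg_right e1 (abs_nonneg D)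
      _ = _ := by ring
  linarith

/-- the mass of a cell -/
lemma chi_est (hd : 1 ≤ d) (J : ℕ) {R0 : ℝ} (hR0 : (d : ℝ) + 1 ≤ R0) : ∃ K : ℝ, 0 < K ∧
    ∀ (m : Sp d → ℝ) (n : Sp d) (s ab er dl D : ℝ), Continuous m → 0 ≤ D → 0 ≤ dl →
      Sheet J (64 * R0) ab er dl m n s → blc n s m (64 * R0) ≤ er → ZP (64 * R0 + 1) D m →
      |(∫ y, m y * chi y) - ab * plInt n s chi| ≤ K * (er + dl + D) := by
  have hd0 : (0 : ℝ) ≤ d := Nat.cast_nonneg d
  obtain ⟨Nc, hNc, hc⟩ := TA2Aux.chi_TFnJ hd (J + 2)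
  obtain ⟨Nz, hNz, hz⟩ := TU.TFn_of_cs (J := 2)
    (contDiff_infty.1 (TU.zR_smooth (d := d) (R := (d : ℝ) + 1) (by linarith)) 2)
    (TU.zR_cs _)
  obtain ⟨K, hK, hb⟩ := le_blc (d := d) (R := 64 * R0) (cs := 3 / 2 * (64 * R0)) (by linarith)
  refine ⟨Nc * (2 + K * (1 + Nz)), by positivity, ?_⟩
  intro m n s ab er dl D hm hD hdl hS hbl hZ
  have h1 := hS.est chi d Nc Nc (by exact_mod_cast hc.smooth) hd0 (by linarith)
    (fun y hy => PTm.chi_supp hy hd) (GSAux.TB_of_TFn hc hS.n1 s)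
    (fun y => hc.bd 2 (by omega) y)
  have h2 := hb (zR ((d : ℝ) + 1)) Nz hz (fun y => Real.smoothTransition.monotone (by linarith))
    (fun y hy => TU.zR_zero (by linarith)) m n s D hm hS.n1 hS.loc hZ
  have h3 : blc n s m ((d : ℝ) + 1) ≤ er + K * (1 + Nz) * D := by
    rw [abs_of_nonneg hD] at h2
    exact h2.trans (by linarith)
  have her := hS.ep0
  refine h1.trans ?_
  have h4 := mul_le_mul_of_nonneg_left h3 hNc.le
  have h5 : 0 ≤ Nc * (K * (1 + Nz)) * (er + dl) := by positivity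
  have h6 : 0 ≤ Nc * D := by positivity
  nlinarith

/-- the plane integral of a function against the cut-off -/
lemma pl_abs (hPF : StmtPF) (hd : 1 ≤ d) : ∃ C : ℝ, 0 < C ∧ ∀ (n : Sp d), ‖n‖ = 1 →
    ∀ (F : Sp d → ℝ) (B : ℝ), Continuous F → 0 ≤ B → (∀ y, ‖y‖ ≤ d → |F y| ≤ B) → ∀ s,
      |plInt n s (fun y => chi y * F y)| ≤ C * B := by
  obtain ⟨C, hC, h⟩ := (hPF d hd).1 d
  refine ⟨C, hC, fun n hn F B hF hB hFB s => ?_⟩
  refine h n hn (fun y => chi y * F y) B (PTm.chi_contDiff.continuous.mul hF) (fun y => ?_)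
    (fun y hy => ?_) s
  · by_cases hy : ‖y‖ ≤ d
    · rw [abs_mul, abs_of_nonneg (PTm.chi_nonneg y)]
      calc chi y * |F y| ≤ 1 * B :=
            mul_le_mul (PTm.chi_le_one y) (hFB y hy) (abs_nonneg _) zero_le_one
        _ = B := one_mul B
    · rw [PTm.chi_supp (not_le.1 hy).le hd, zero_mul, abs_zero]
      exact hB
  · refine (PF.norm_tang_le hn y).trans ?_
    by_contra hc
    apply hy
    show chi y * F y = 0
    rw [PTm.chi_supp (not_le.1 hc).le hd, zero_mul]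

/-! ## Gains -/

/-- the gain of a cell is at most the potential -/
lemma gain0 (hWA : StmtWA) (hPF : StmtPF) (hd : 2 ≤ d) {M C' ε : ℝ} (hC' : 0 < C') (hε : 0 < ε)
    (hε1 : ε ≤ 1) : ∃ K : ℝ, 0 < K ∧ ∀ β : Sp d → ℝ, Kit 4 M β → ∀ μ : Measure (Sp d),
      Gro C' μ → ∀ n : Sp d, ‖n‖ = 1 → ∀ s : ℝ,
        0 ≤ plInt n s (fun y => chi y * XX β ε μ n 1 y) ∧
        plInt n s (fun y => chi y * XX β ε μ n 1 y) ≤ K * vv μ 1 0 := by
  obtain ⟨C, hC, h⟩ := hWA d 0 hd M C' ε hC' hε hε1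
  obtain ⟨C0, hC0, h0⟩ := pl_abs (d := d) hPF (by omega)
  refine ⟨C0 * (C * Real.sqrt ((1 + (d : ℝ)) ^ d)), by positivity, ?_⟩
  intro β hβ μ hμ n hn s
  obtain ⟨h1, h2, h3, -⟩ := (h β hβ μ hμ).2.2.2.2 n hn
  refine ⟨integral_nonneg fun y => mul_nonneg (PTm.chi_nonneg _) (h2 _), ?_⟩
  have hv0 : 0 ≤ vv μ 1 (0 : Sp d) := Real.sqrt_nonneg _
  have h4 := h0 n hn (XX β ε μ n 1) (C * (Real.sqrt ((1 + (d : ℝ)) ^ d) * vv μ 1 0))
    h1.continuous (by positivity) (fun y hy => by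
      have h5 := h3 0 le_rfl y
      rw [norm_iteratedFDeriv_zero, Real.norm_eq_abs] at h5
      exact h5.trans (mul_le_mul_of_nonneg_left (TA2Aux.vv_harnack hd hC' hμ hy) hC.le)) s
  refine (le_abs_self _).trans (h4.trans (le_of_eq ?_))
  ring

/-- the gains of a cell on two close planes -/
lemma gain (hTC : StmtTC) (hd : 2 ≤ d) {M C' ε R0 : ℝ} (hC' : 0 < C') (hε : 0 < ε)
    (hε4 : ε ≤ 1 / 4) (hR0 : 0 ≤ R0) : ∃ K : ℝ, 0 < K ∧ ∀ β : Sp d → ℝ, Kit 10 M β →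
    ∀ μ : Measure (Sp d), Gro C' μ → ∀ (n n' : Sp d) (s s' σ δ : ℝ), ‖n‖ = 1 → ‖n'‖ = 1 →
      (σ = 1 ∨ σ = -1) → 0 ≤ δ → ‖n - σ • n'‖ ≤ δ → |s - σ * s'| ≤ (1 + 3 * R0) * δ →
        plInt n s (fun y => chi y * XX β ε μ n 1 y) ≤
          4 * plInt n' s' (fun y => chi y * XX β ε μ n' 1 y) + K * δ ^ 2 * vv μ 1 0 := by
  obtain ⟨Nc, hNc, hc⟩ := TA2Aux.chi_TFnJ (d := d) (by omega) 2
  have hd1 : (1 : ℝ) ≤ d := by exact_mod_cast (by omega : 1 ≤ d)
  obtain ⟨C, hC, h⟩ := hTC d hd M C' ε d hC' hε hε4 hd1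
  refine ⟨Nc * C * (1 + 3 * R0) ^ 2, by positivity, ?_⟩
  intro β hβ μ hμ n n' s s' σ δ hn hn' hσ hδ h1 h2
  have hn2 : ‖σ • n'‖ = 1 := by
    rw [norm_smul, hn', mul_one]
    rcases hσ with rfl | rfl <;> simp
  have h3 := TU.TFn_const_mul hc (1 / Nc)
  have h3' : |1 / Nc| * Nc = 1 := by
    rw [abs_of_pos (by positivity)]
    field_simp
  rw [h3'] at h3
  have h4 := h β hβ μ hμ n (σ • n') s (σ * s') ((1 + 3 * R0) * δ) hn hn2
    (h1.trans (le_mul_of_one_le_left hδ (by linarith))) h2 (fun y => 1 / Nc * chi y) h3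
    (fun y => mul_nonneg (by positivity) (PTm.chi_nonneg y))
    (fun y hy => by rw [PTm.chi_supp hy (by omega), mul_zero])
  have h5 : ∀ (k : Sp d) (r : ℝ) (G : Sp d → ℝ), plInt k r (fun y => 1 / Nc * chi y * G y) =
      1 / Nc * plInt k r (fun y => chi y * G y) := by
    intro k r G
    unfold plInt
    rw [← integral_const_mul]
    congr 1
    ext y
    ring
  rw [h5, h5, WT.plInt_sign n' s' _ hσ] at h4
  simp only [WT.XX_sign β ε μ n' 1 _ hσ] at h4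
  have h6 := mul_le_mul_of_nonneg_left h4 hNc.le
  have h7 : Nc * (1 / Nc * plInt n s (fun y => chi y * XX β ε μ n 1 y)) =
      plInt n s (fun y => chi y * XX β ε μ n 1 y) := by
    field_simp
  rw [h7] at h6
  refine h6.trans (le_of_eq ?_)
  field_simp

/-- the areas of a cell on two close planes -/
lemma area (hPF : StmtPF) (hd : 2 ≤ d) {R0 : ℝ} (hR0 : 0 ≤ R0) : ∃ K : ℝ, 0 < K ∧
    (∀ (n : Sp d) (s : ℝ), ‖n‖ = 1 → 0 ≤ plInt n s chi ∧ plInt n s chi ≤ K) ∧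
    ∀ (n n' : Sp d) (s s' σ δ : ℝ), ‖n‖ = 1 → ‖n'‖ = 1 →
      (σ = 1 ∨ σ = -1) → 0 ≤ δ → ‖n - σ • n'‖ ≤ δ → |s - σ * s'| ≤ (1 + 3 * R0) * δ →
        plInt n s chi ≤ 2 * plInt n' s' chi + K * δ ^ 2 := by
  obtain ⟨Nc, hNc, hc⟩ := TA2Aux.chi_TFnJ (d := d) (by omega) 2
  have hd1 : (1 : ℝ) ≤ d := by exact_mod_cast (by omega : 1 ≤ d)
  obtain ⟨C0, hC0, h0⟩ := pl_abs (d := d) hPF (by omega)
  obtain ⟨C, hC, h⟩ := TCm.pl_cmp (d := d) hPF (by omega) d hd1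
  have h9 : ∀ (n : Sp d) (s : ℝ), ‖n‖ = 1 → 0 ≤ plInt n s chi ∧ plInt n s chi ≤ C0 := by
    intro n s hn
    refine ⟨integral_nonneg fun y => PTm.chi_nonneg _, ?_⟩
    have h1 := h0 n hn (fun _ => 1) 1 continuous_const zero_le_one (fun y _ => by simp) s
    simp only [mul_one] at h1
    exact (le_abs_self _).trans h1
  have hR1 : 1 ≤ 1 + 3 * R0 := by linarith
  refine ⟨(C0 + C * Nc) * (1 + 3 * R0) ^ 2, by positivity, ?_, ?_⟩
  · intro n s hn
    obtain ⟨a1, a2⟩ := h9 n s hn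
    refine ⟨a1, a2.trans ?_⟩
    have e1 : 1 ≤ (1 + 3 * R0) ^ 2 := one_le_pow₀ hR1
    have e2 : 0 ≤ C * Nc := by positivity
    nlinarith
  · intro n n' s s' σ δ hn hn' hσ hδ h1 h2
    have hn2 : ‖σ • n'‖ = 1 := by
      rw [norm_smul, hn', mul_one]
      rcases hσ with rfl | rfl <;> simp
    obtain ⟨a1, a2⟩ := h9 n s hn
    obtain ⟨b1, -⟩ := h9 n' s' hn'
    have e0 : 0 ≤ C * Nc * ((1 + 3 * R0) ^ 2 * δ ^ 2) := by positivity
    have e1 : 0 ≤ C0 * ((1 + 3 * R0) ^ 2 * δ ^ 2) := by positivity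
    by_cases h3 : (1 + 3 * R0) * δ ≤ 1
    · have h4 := h n (σ • n') s (σ * s') ((1 + 3 * R0) * δ) hn hn2
        (h1.trans (le_mul_of_one_le_left hδ (by linarith))) h2 h3 chi Nc hc.smooth
        PTm.chi_nonneg (fun y => hc.bd 2 le_rfl y) (fun y hy => PTm.chi_supp hy (by omega))
      rw [WT.plInt_sign n' s' _ hσ, mul_pow] at h4
      linarith
    · have h4 : 1 ≤ ((1 + 3 * R0) * δ) ^ 2 := one_le_pow₀ (not_le.1 h3).le
      rw [mul_pow] at h4
      have h5 := mul_le_mul_of_nonneg_left h4 hC0.le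
      linarith

/-! ## The off-sheet mass -/

/-- the off-sheet mass of a cell with respect to two close planes -/
lemma off (hPF : StmtPF) (hd : 2 ≤ d) (J : ℕ) {R0 : ℝ} (hR0 : (d : ℝ) + 1 ≤ R0) :
    ∃ K : ℝ, 0 < K ∧
    ∀ (m : Sp d → ℝ) (n n' : Sp d) (s s' σ δ ab er dl D : ℝ), Continuous m → 0 ≤ D → 0 ≤ dl →
      Sheet J (64 * R0) ab er dl m n' s' → blc n' s' m (64 * R0) ≤ er → ZP (64 * R0 + 1) D m →
      er ≤ ab → dl ≤ ab → ‖n‖ = 1 → (σ = 1 ∨ σ = -1) → 0 ≤ δ → δ ≤ 1 → ‖n - σ • n'‖ ≤ δ →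
      |s - σ * s'| ≤ (1 + 3 * R0) * δ →
      ∫ y, m y * (chi y * hgt n s y ^ 2) ≤
        2 * (∫ y, m y * (chi y * hgt n' s' y ^ 2)) + K * (ab * δ ^ 2 + D) := by
  have hd0 : (0 : ℝ) ≤ d := Nat.cast_nonneg d
  have hR00 : 0 ≤ R0 := by linarith
  obtain ⟨Nc, hNc, hc⟩ := TA2Aux.chi_TFnJ (d := d) (by omega) 2
  obtain ⟨Ka, hKa, ha, -⟩ := area (d := d) hPF hd hR00
  obtain ⟨Ke, hKe, he⟩ := chi_est (d := d) (by omega) J hR0
  set c : ℝ := 2 * ((d : ℝ) + 1 + 3 * R0) ^ 2 with hcd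
  have hc0 : 0 < c := by positivity
  set N1 : ℝ := 4 ^ 2 * Nc * max 1 (d + 100 * R0) ^ 2 with hN1
  have hN10 : 0 < N1 := by positivity
  refine ⟨c * Ka + 3 * (c * Ke) + (3 * N1 + c * Nc), by positivity, ?_⟩
  intro m n n' s s' σ δ ab er dl D hm hD hdl hS hbl hZ her hdl2 hn hσ hδ hδ1 h1 h2
  have hab := hS.ab0
  have hn' := hS.n1
  have hs1 : |s'| ≤ 100 * R0 := hS.loc.trans (by linarith)
  have hσ1 : |σ| = 1 := by rcases hσ with rfl | rfl <;> simp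
  have hσ2 : σ ^ 2 = 1 := by rcases hσ with rfl | rfl <;> norm_num
  have hs2 : |s| ≤ 100 * R0 := by
    have e1 : s = (s - σ * s') + σ * s' := by ring
    rw [e1]
    refine (abs_add_le _ _).trans ?_
    rw [abs_mul, hσ1, one_mul]
    have e2 := hS.loc
    have e3 : (1 + 3 * R0) * δ ≤ 1 + 3 * R0 := mul_le_of_le_one_right (by linarith) hδ1
    linarith
  have hsp : ∀ y : Sp d, (d : ℝ) < ‖y‖ → chi y = 0 := fun y hy => PTm.chi_supp hy.le (by omega)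
  have t1 : TFn 2 N1 (fun y => chi y * ht n' s' y ^ 2) := TU.TFn_ht_sq hc hsp hn' hs1
  have t2 : TFn 2 N1 (fun y => chi y * ht n s y ^ 2) := TU.TFn_ht_sq hc hsp hn hs2
  have t3 := TU.TFn_const_mul t1 2
  have t4 := TU.TFn_const_mul hc (c * δ ^ 2)
  have t5 := TU.TFn_sub (TU.TFn_add t3 t4) t2
  rw [abs_two, abs_of_nonneg (by positivity : 0 ≤ c * δ ^ 2)] at t5
  have hδ2 : δ ^ 2 ≤ 1 := pow_le_one₀ hδ hδ1
  -- positivity
  have hpos : ∀ y, 0 ≤ 2 * (chi y * ht n' s' y ^ 2) + c * δ ^ 2 * chi y - chi y * ht n s y ^ 2 := by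
    intro y
    by_cases hy : ‖y‖ ≤ d
    · have e1 : ht n s y = σ * ht n' s' y + (⟪n - σ • n', y⟫_ℝ - (s - σ * s')) := by
        unfold ht
        rw [inner_sub_left, real_inner_smul_left]
        ring
      have e2 : |⟪n - σ • n', y⟫_ℝ - (s - σ * s')| ≤ ((d : ℝ) + 1 + 3 * R0) * δ := by
        refine (abs_sub _ _).trans ?_
        have e3 : |⟪n - σ • n', y⟫_ℝ| ≤ δ * d :=
          (abs_real_inner_le_norm _ _).trans (mul_le_mul h1 hy (norm_nonneg _) hδ)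
        linarith
      set e := ⟪n - σ • n', y⟫_ℝ - (s - σ * s') with he'
      have e4 : e ^ 2 ≤ (((d : ℝ) + 1 + 3 * R0) * δ) ^ 2 :=
        sq_le_sq' (abs_le.1 e2).1 (abs_le.1 e2).2
      have e5 : ht n s y ^ 2 ≤ 2 * ht n' s' y ^ 2 + c * δ ^ 2 := by
        rw [e1, hcd]
        have e6 : (σ * ht n' s' y + e) ^ 2 ≤ 2 * (σ ^ 2 * ht n' s' y ^ 2) + 2 * e ^ 2 := by
          nlinarith [sq_nonneg (σ * ht n' s' y - e)]
        rw [hσ2, one_mul] at e6
        nlinarith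
      have e7 := mul_le_mul_of_nonneg_left e5 (PTm.chi_nonneg y)
      linarith
    · rw [hsp y (not_le.1 hy)]
      simp
  have h3 := GSAux.ZP' hZ t5 hpos (fun y hy => by
    have : chi y = 0 := hsp y (by linarith)
    rw [this]
    simp)
  -- the integrals
  have hi : ∀ φ : Sp d → ℝ, Continuous φ → Integrable (fun y => m y * (chi y * φ y)) := by
    intro φ hφ
    have hcc : Continuous (fun y => m y * (chi y * φ y)) :=
      hm.mul (PTm.chi_contDiff.continuous.mul hφ)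
    refine hcc.integrable_of_hasCompactSupport ?_
    refine HasCompactSupport.intro (isCompact_closedBall (0 : Sp d) d) fun y hy => ?_
    rw [mem_closedBall, dist_zero_right, not_le] at hy
    rw [hsp y hy, zero_mul, mul_zero]
  have c1 : Continuous fun y : Sp d => ht n' s' y ^ 2 := by unfold ht; fun_prop
  have c2 : Continuous fun y : Sp d => ht n s y ^ 2 := by unfold ht; fun_prop
  have i1 := hi _ c1
  have i2 := hi _ c2
  have i3 := hi (fun _ => 1) continuous_const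
  have h4 : ∫ y, m y * (2 * (chi y * ht n' s' y ^ 2) + c * δ ^ 2 * chi y - chi y * ht n s y ^ 2) =
      2 * (∫ y, m y * (chi y * ht n' s' y ^ 2)) + c * δ ^ 2 * (∫ y, m y * chi y) -
        ∫ y, m y * (chi y * ht n s y ^ 2) := by
    have e1 : (fun y => m y * (2 * (chi y * ht n' s' y ^ 2) + c * δ ^ 2 * chi y -
        chi y * ht n s y ^ 2)) = fun y => (2 * (m y * (chi y * ht n' s' y ^ 2)) +
          c * δ ^ 2 * (m y * (chi y * 1))) - m y * (chi y * ht n s y ^ 2) := by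
      funext y
      ring
    have i12 : Integrable (fun y => 2 * (m y * (chi y * ht n' s' y ^ 2)) +
        c * δ ^ 2 * (m y * (chi y * 1))) := (i1.const_mul 2).add (i3.const_mul _)
    rw [e1, integral_sub i12 i2,
      integral_add (i1.const_mul 2) (i3.const_mul _), integral_const_mul, integral_const_mul]
    simp only [mul_one]
  rw [h4] at h3
  -- the mass
  have h5 := (abs_le.1 (he m n' s' ab er dl D hm hD hdl hS hbl hZ)).2
  have h6 := mul_le_mul_of_nonneg_left (ha n' s' hn').2 hab.le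
  have h7 : ∫ y, m y * chi y ≤ (Ka + 2 * Ke) * ab + Ke * D := by
    have e1 : Ke * (er + dl + D) ≤ Ke * (2 * ab + D) :=
      mul_le_mul_of_nonneg_left (by linarith) hKe.le
    linarith
  have h8 : c * δ ^ 2 * (∫ y, m y * chi y) ≤ c * δ ^ 2 * ((Ka + 2 * Ke) * ab) + c * (Ke * D) := by
    have e1 := mul_le_mul_of_nonneg_left h7 (by positivity : 0 ≤ c * δ ^ 2)
    have e2 : c * (Ke * D) * δ ^ 2 ≤ c * (Ke * D) :=
      mul_le_of_le_one_right (by positivity) hδ2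
    linarith
  have h9 : (2 * N1 + c * δ ^ 2 * Nc + N1) * D ≤ (3 * N1 + c * Nc) * D := by
    refine mul_le_mul_of_nonneg_right ?_ hD
    have : c * Nc * δ ^ 2 ≤ c * Nc := mul_le_of_le_one_right (by positivity) hδ2
    linarith
  have h10 : 0 ≤ (c * Ke + (3 * N1 + c * Nc)) * (ab * δ ^ 2) := by positivity
  have h11 : 0 ≤ (c * Ka + 2 * (c * Ke)) * D := by positivity
  show ∫ y, m y * (chi y * ht n s y ^ 2) ≤ 2 * (∫ y, m y * (chi y * ht n' s' y ^ 2)) + _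
  nlinarith

end

end P1x

end TG
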