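import Pool.Agent.TG.TDc
import Pool.Agent.TG.TFU
import Pool.Agent.TG.PF

/-!
# Module TF (11.3): flux between two sheet cells (helper27)
-/

open MeasureTheory Metric Set TrI
open scoped InnerProductSpace ContDiff

namespace TG

noncomputable section

namespace TFx

variable {d : ℕ}

lemma inner_grad (f : Sp d → ℝ) (y w : Sp d) : ⟪gradient f y, w⟫_ℝ = fderiv ℝ f y w := by
  rw [inner_gradient_left]

/-- the building block -/
def Tt (p : Sp d) (β : Sp d → ℝ) (ε p0 A : ℝ) (μ : Measure (Sp d)) (a b y : Sp d) : ℝ :=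
  (chi (y - p) * Ups p0 A μ 1 y * fderiv ℝ chi y a) * fderiv ℝ (WW β ε μ 1) y b

lemma inner_tang_tang {n : Sp d} (hn : ‖n‖ = 1) (a b : Sp d) :
    ⟪tang n a, tang n b⟫_ℝ = ⟪a, b⟫_ℝ - ⟪a, n⟫_ℝ * ⟪b, n⟫_ℝ := by
  unfold tang
  simp only [inner_sub_left, inner_sub_right, inner_smul_left, inner_smul_right, conj_trivial,
    real_inner_self_eq_norm_sq, hn]
  rw [real_inner_comm a n, real_inner_comm b n]
  ring

lemma fxA_eq {n : Sp d} (hn : ‖n‖ = 1) (p : Sp d) (β : Sp d → ℝ) (ε p0 A : ℝ)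
    (μ : Measure (Sp d)) (y : Sp d) :
    fxA chi (fun x => chi (x - p)) β ε p0 A μ n y =
      (∑ j, Tt p β ε p0 A μ (bv j) (bv j) y) - Tt p β ε p0 A μ n n y := by
  have h1 : ⟪gradient chi y, gradient (WW β ε μ 1) y⟫_ℝ =
      ∑ j, fderiv ℝ chi y (bv j) * fderiv ℝ (WW β ε μ 1) y (bv j) := by
    rw [PiLp.inner_apply]
    refine Finset.sum_congr rfl fun j _ => ?_
    rw [← inner_grad, ← inner_grad]
    simp only [bv, EuclideanSpace.inner_single_right, conj_trivial, one_mul]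
    simp [mul_comm]
  unfold fxA Tt
  rw [inner_tang_tang hn, h1, inner_grad, inner_grad, mul_sub, Finset.mul_sum]
  congr 1
  · exact Finset.sum_congr rfl fun j _ => by ring
  · ring

lemma fxA_sub {n n' : Sp d} (hn : ‖n‖ = 1) (hn' : ‖n'‖ = 1) (p : Sp d) (β : Sp d → ℝ)
    (ε p0 A : ℝ) (μ : Measure (Sp d)) (y : Sp d) :
    fxA chi (fun x => chi (x - p)) β ε p0 A μ n y
        - fxA chi (fun x => chi (x - p)) β ε p0 A μ n' y =
      Tt p β ε p0 A μ (n' - n) n y + Tt p β ε p0 A μ n (n' - n) y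
        + Tt p β ε p0 A μ (n' - n) (n' - n) y := by
  rw [fxA_eq hn, fxA_eq hn']
  unfold Tt
  simp only [map_sub]
  ring

/-! ### bounds of the building block -/

lemma fd_apply_smooth {g : Sp d → ℝ} (hg : ContDiff ℝ ∞ g) (b : Sp d) :
    ContDiff ℝ ∞ (fun y => fderiv ℝ g y b) :=
  (hg.fderiv_right (m := ∞) (by norm_cast)).clm_apply contDiff_const

lemma fd_apply_bd {g : Sp d → ℝ} (hg : ContDiff ℝ ∞ g) (b : Sp d) (j : ℕ) (y : Sp d) :
    ‖iteratedFDeriv ℝ j (fun y => fderiv ℝ g y b) y‖ ≤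
      ‖b‖ * ‖iteratedFDeriv ℝ (j + 1) g y‖ := by
  have h3 : ContDiff ℝ j (fderiv ℝ g) :=
    (hg.fderiv_right (m := ∞) (by norm_cast)).of_le (by exact_mod_cast le_top)
  have h4 := (ContinuousLinearMap.apply ℝ ℝ b).norm_iteratedFDeriv_comp_left
    (f := fderiv ℝ g) (x := y) (n := j) h3.contDiffAt le_rfl
  have h5 : ‖ContinuousLinearMap.apply ℝ ℝ b‖ ≤ ‖b‖ := by
    refine ContinuousLinearMap.opNorm_le_bound _ (norm_nonneg _) fun f => ?_
    rw [ContinuousLinearMap.apply_apply, mul_comm]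
    exact f.le_opNorm b
  rw [norm_iteratedFDeriv_fderiv] at h4
  exact h4.trans (mul_le_mul_of_nonneg_right h5 (norm_nonneg _))

lemma chi_TFn (hd : 1 ≤ d) (K : ℕ) : ∃ N : ℝ, 0 < N ∧ TFn K N (chi : Sp d → ℝ) :=
  TU.TFn_of_cs (TDc.chi_smooth.of_le (by exact_mod_cast le_top)) (TDc.chi_cs hd)

lemma TFn_trans {K : ℕ} {N : ℝ} {g : Sp d → ℝ} (h : TFn K N g) (p : Sp d) :
    TFn K N (fun y => g (y - p)) where
  smooth := h.smooth.comp (contDiff_id.sub contDiff_const)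
  bd := fun j hj y => by
    rw [iteratedFDeriv_comp_sub]
    exact h.bd j hj _

lemma fdchi_TFn {K : ℕ} {N : ℝ} (h : TFn (K + 1) N (chi : Sp d → ℝ)) (a : Sp d) :
    TFn K (‖a‖ * N) (fun y => fderiv ℝ chi y a) where
  smooth := (fd_apply_smooth TDc.chi_smooth a).of_le (by exact_mod_cast le_top)
  bd := fun j hj y => (fd_apply_bd TDc.chi_smooth a j y).trans
    (mul_le_mul_of_nonneg_left (h.bd (j + 1) (by omega) y) (norm_nonneg _))

lemma fdchi_zero (hd : 2 ≤ d) (a : Sp d) {y : Sp d} (hy : (d : ℝ) ≤ ‖y‖) :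
    fderiv ℝ chi y a = 0 := by
  have h : (chi : Sp d → ℝ) =ᶠ[nhds y] fun _ => 0 := TDc.chi_ev hd hy
  rw [h.fderiv_eq]
  simp

lemma Tt_zero (hd : 2 ≤ d) (p : Sp d) (β : Sp d → ℝ) (ε p0 A : ℝ) (μ : Measure (Sp d))
    (a b : Sp d) {y : Sp d} (hy : (d : ℝ) ≤ ‖y‖) : Tt p β ε p0 A μ a b y = 0 := by
  unfold Tt
  rw [fdchi_zero hd a hy]
  ring

lemma Tt_TFn (hTH : StmtTH) (hUB : StmtUB) (hd : 2 ≤ d) (K : ℕ) {M C' ε p0 A : ℝ} (hC' : 0 < C')
    (hε : 0 < ε) (hε1 : ε ≤ 1) (hp0 : 0 < p0) (hp1 : p0 ≤ 1) (hA : 1 ≤ A) :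
    ∃ C : ℝ, 0 < C ∧ ∀ β : Sp d → ℝ, Kit 4 M β → ∀ μ : Measure (Sp d), Gro C' μ →
      ∀ p a b : Sp d, TFn K (C * (‖a‖ * ‖b‖) * vv μ 1 0) (Tt p β ε p0 A μ a b) := by
  obtain ⟨C, hC, h⟩ := hUB d (K + 1) hd M C' ε p0 A hC' hε hε1 hp0 hp1 hA
  obtain ⟨N, hN, hχ⟩ := chi_TFn (by omega : 1 ≤ d) (K + 1)
  set H : ℝ := (1 + (d : ℝ)) ^ d with hH
  have hH0 : 0 < H := by positivity
  refine ⟨2 ^ K * (2 ^ K * (2 ^ K * (N * C) * N) * (C * H)), by positivity, ?_⟩
  intro β hβ μ hμ p a b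
  obtain ⟨hWs, -, hWb, -, -, -, -, hUs, hUb, -⟩ := h β hβ μ hμ
  have hv0 : 0 ≤ vv μ 1 0 := Real.sqrt_nonneg _
  have h1 : TFn K N (fun y => chi (y - p)) :=
    TU.TFn_mono (TFn_trans hχ p) (by omega) le_rfl
  have h2 : TFn K C (Ups p0 A μ 1) :=
    ⟨hUs.of_le (by exact_mod_cast le_top), fun j hj y => hUb j (by omega) y⟩
  have h3 := TU.TFn_mul (TU.TFn_mul h1 h2) (fdchi_TFn hχ a)
  have h4 := TU.TFn_mul_ball (x₀ := 0) (ρ := d) (g := fun y => fderiv ℝ (WW β ε μ 1) y b)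
    (M := ‖b‖ * (C * (H * vv μ 1 0))) h3
    (fun z hz => by
      rw [sub_zero] at hz
      simp only [fdchi_zero hd a hz.le, mul_zero])
    ((fd_apply_smooth hWs b).of_le (by exact_mod_cast le_top))
    (fun j hj y hy => by
      rw [sub_zero] at hy
      refine (fd_apply_bd hWs b j y).trans (mul_le_mul_of_nonneg_left ?_ (norm_nonneg _))
      exact (hWb (j + 1) (by omega) y).trans
        (mul_le_mul_of_nonneg_left (TDc.vv_le hTH hd hC' hμ hy) hC.le)) (by positivity)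
  refine TU.TFn_mono h4 le_rfl (le_of_eq ?_)
  ring

/-! ### plane integrals -/

lemma pl_norm {n : Sp d} (hn : ‖n‖ = 1) (s : ℝ) (y : PF.Pl n) :
    ‖(y : Sp d)‖ ≤ ‖s • n + (y : Sp d)‖ := by
  have := PF.norm_tang_le hn (s • n + (y : Sp d))
  rwa [PF.tang_pl hn] at this

lemma pl_inner {n : Sp d} (hn : ‖n‖ = 1) (s : ℝ) (y : PF.Pl n) :
    ⟪n, s • n + (y : Sp d)⟫_ℝ = s := by
  rw [inner_add_right, inner_smul_right, real_inner_self_eq_norm_sq, hn, PF.inner_pl]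
  simp

/-- upper bound of a plane integral by the maximum on the plane -/
lemma pl_le (hd : 1 ≤ d) (ρ : ℝ) : ∃ C : ℝ, 0 < C ∧ ∀ (n : Sp d), ‖n‖ = 1 → ∀ (s : ℝ)
    (F : Sp d → ℝ) (N : ℝ), 0 ≤ N → (∀ y, ρ < ‖y‖ → F y = 0) →
      (∀ y, ⟪n, y⟫_ℝ = s → ‖y‖ ≤ ρ → |F y| ≤ N) → |plInt n s F| ≤ C * N := by
  obtain ⟨k, rfl⟩ : ∃ k, d = k + 1 := ⟨d - 1, by omega⟩
  refine ⟨(volume (closedBall (0 : Sp k) ρ)).toReal + 1, by positivity, ?_⟩
  intro n hn s F N hN0 hs hN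
  have hi : plInt n s F = ∫ y in closedBall (0 : PF.Pl n) ρ, F (s • n + (y : Sp (k + 1))) := by
    unfold plInt
    rw [setIntegral_eq_integral_of_forall_compl_eq_zero]
    intro y hy
    refine hs _ ?_
    rw [mem_closedBall, dist_zero_right, not_le] at hy
    exact lt_of_lt_of_le hy (pl_norm hn s y)
  rw [hi]
  have h1 := norm_setIntegral_le_of_norm_le_const (μ := (volume : Measure (PF.Pl n)))
    (s := closedBall (0 : PF.Pl n) ρ) (f := fun y : PF.Pl n => F (s • n + (y : Sp (k + 1)))) (C := N)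
    measure_closedBall_lt_top (fun y _ => by
      rw [Real.norm_eq_abs]
      by_cases hy : ρ < ‖s • n + (y : Sp (k + 1))‖
      · rw [hs _ hy, abs_zero]; exact hN0
      · exact hN _ (pl_inner hn s y) (not_lt.1 hy))
  rw [Real.norm_eq_abs] at h1
  have h2 : volume.real (closedBall (0 : PF.Pl n) ρ) = (volume (closedBall (0 : Sp k) ρ)).toReal := by
    rw [Measure.real, PF.vol k n hn ρ]
  rw [h2] at h1
  nlinarith

/-- lower bound of a plane integral by an integral over a disc -/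
lemma disc_le {n : Sp d} (hn : ‖n‖ = 1) {s ρ R : ℝ} (hR : 0 < R) {Y : Sp d → ℝ}
    (hY : Continuous Y) (hY0 : ∀ y, 0 ≤ Y y) {y : Sp d} (hy : ⟪n, y⟫_ℝ = s) (hyR : ‖y‖ + ρ ≤ R)
    (X' : PF.Pl n → ℝ) (hX' : Continuous X')
    (h : ∀ z : PF.Pl n, ‖z‖ ≤ ρ → X' z ≤ Y (y + (z : Sp d))) :
    ∫ z in closedBall (0 : PF.Pl n) ρ, X' z ≤ plInt n s (fun x => zR R x * Y x) := by
  set y0 : PF.Pl n := ⟨y - s • n, Submodule.mem_orthogonal_singleton_iff_inner_right.2 (by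
    rw [inner_sub_right, inner_smul_right, real_inner_self_eq_norm_sq, hn, hy]; simp)⟩ with hy0
  set f : PF.Pl n → ℝ := fun z => zR R (s • n + (z : Sp d)) * Y (s • n + (z : Sp d)) with hf
  have hzc : Continuous (zR R : Sp d → ℝ) := (TU.zR_smooth hR).continuous
  have hfc : Continuous f := by
    have h1 : Continuous (fun z : PF.Pl n => s • n + (z : Sp d)) := by fun_prop
    exact (hzc.comp h1).mul (hY.comp h1)
  have hfs : HasCompactSupport f := by
    refine HasCompactSupport.intro (isCompact_closedBall (0 : PF.Pl n) (R + 1)) fun z hz => ?_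
    rw [mem_closedBall, dist_zero_right, not_le] at hz
    simp only [hf]
    rw [TU.zR_zero (hz.le.trans (pl_norm hn s z)), zero_mul]
  have hfi : Integrable f := hfc.integrable_of_hasCompactSupport hfs
  have hf0 : ∀ z, 0 ≤ f z := fun z => mul_nonneg (TU.zR_nonneg _ _) (hY0 _)
  have e1 : plInt n s (fun x => zR R x * Y x) = ∫ z, f (y0 + z) := by
    rw [integral_add_left_eq_self f y0]
    rfl
  have hfi' : Integrable (fun z => f (y0 + z)) := hfi.comp_add_left y0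
  rw [e1]
  refine le_trans ?_ (setIntegral_le_integral (s := closedBall (0 : PF.Pl n) ρ) hfi'
    (Filter.Eventually.of_forall fun z => hf0 _))
  refine setIntegral_mono_on (hX'.continuousOn.integrableOn_compact (isCompact_closedBall _ _))
    hfi'.integrableOn measurableSet_closedBall fun z hz => ?_
  rw [mem_closedBall, dist_zero_right] at hz
  have e2 : s • n + ((y0 + z : PF.Pl n) : Sp d) = y + (z : Sp d) := by
    simp only [hy0, Submodule.coe_add]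
    abel
  have h3 : ‖y + (z : Sp d)‖ ≤ R := (norm_add_le _ _).trans (by
    have : ‖(z : Sp d)‖ ≤ ρ := hz
    linarith)
  simp only [hf]
  rw [e2, TU.zR_one h3, one_mul]
  exact h z hz

lemma disc_vol (hd : 1 ≤ d) : ∃ c : ℝ, 0 < c ∧ ∀ n : Sp d, ‖n‖ = 1 →
    volume.real (closedBall (0 : PF.Pl n) 1) = c := by
  obtain ⟨k, rfl⟩ : ∃ k, d = k + 1 := ⟨d - 1, by omega⟩
  refine ⟨(volume (closedBall (0 : Sp k) 1)).toReal, ?_, fun n hn => ?_⟩
  · exact ENNReal.toReal_pos (measure_closedBall_pos volume _ one_pos).ne'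
      measure_closedBall_lt_top.ne
  · rw [Measure.real, PF.vol k n hn 1]

/-! ### the gain functional on the plane -/

lemma tavX2_nonneg (μ : Measure (Sp d)) (n : Sp d) (y : Sp d) : 0 ≤ tav (X2 μ n) 1 y := by
  unfold tav
  refine intervalIntegral.integral_nonneg (by norm_num) fun r hr => ?_
  have hr0 : 0 ≤ r := by
    have := hr.1
    linarith
  refine mul_nonneg (le_max_left _ _) (div_nonneg (integral_nonneg fun η => ?_)
    (Real.sqrt_nonneg _))
  have : 0 ≤ kk r (y - η) := div_nonneg hr0 (by positivity)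
  simp only [Pi.zero_apply]
  positivity

lemma XX_eq (β : Sp d → ℝ) (ε : ℝ) (μ : Measure (Sp d)) (n : Sp d) (t : ℝ) (y : Sp d) :
    XX β ε μ n t y = X13 β ε μ n t y + tav (X2 μ n) t y := by
  unfold XX X13
  ring

lemma gain_pl (hWA : StmtWA) (hMO : StmtMO) (hd : 2 ≤ d) {M C' ε : ℝ} (hC' : 0 < C')
    (hε : 0 < ε) (hε4 : ε ≤ 1 / 4) : ∃ C : ℝ, 0 < C ∧ ∀ β : Sp d → ℝ, Kit 4 M β →
    ∀ μ : Measure (Sp d), Gro C' μ → ∀ n : Sp d, ‖n‖ = 1 → ∀ (s : ℝ) (y : Sp d), ⟪n, y⟫_ℝ = s →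
      ‖y‖ ≤ d →
      tav (X2 μ n) 1 y ≤ C * plInt n s (fun x => zR (d + 2) x * XX β ε μ n 1 x) ∧
      discR n (2 * ε) (X13 β ε μ n 1) y ≤ plInt n s (fun x => zR (d + 2) x * XX β ε μ n 1 x) := by
  obtain ⟨_, _, hA⟩ := hWA d 0 hd M C' ε hC' hε (by linarith)
  obtain ⟨Cm, hCm, hm⟩ := hMO d 0 hd C' hC'
  obtain ⟨c, hc, hvol⟩ := disc_vol (by omega : 1 ≤ d)
  set K : ℝ := Cm * 2 ^ (2 * d + 4) with hK
  have hK0 : 0 < K := by positivity
  refine ⟨K / c, by positivity, ?_⟩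
  intro β hβ μ hμ n hn s y hy hyd
  obtain ⟨-, -, -, -, hA'⟩ := hA β hβ μ hμ
  obtain ⟨hXc, hX0, -, hX13c, hX130, -⟩ := hA' n hn
  have hXc' : Continuous (XX β ε μ n 1) := hXc.continuous
  have hX13c' : Continuous (X13 β ε μ n 1) := hX13c.continuous
  obtain ⟨h1, -, -, -, -, -, h7, -⟩ := hm μ hμ n hn s
  have hd0 : (0 : ℝ) < d + 2 := by positivity
  constructor
  · have hb : ∀ z : PF.Pl n, ‖z‖ ≤ 1 → tav (X2 μ n) 1 y / K ≤ XX β ε μ n 1 (y + (z : Sp d)) := by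
      intro z hz
      have e1 : tav (X2 μ n) 1 y = tav (Mo μ n s 2) 1 y := by
        rw [h1 y, real_inner_comm, hy]
        ring
      have e2 : tav (X2 μ n) 1 (y + (z : Sp d)) = tav (Mo μ n s 2) 1 (y + (z : Sp d)) := by
        rw [h1 (y + (z : Sp d)), real_inner_comm, inner_add_right, hy, PF.inner_pl]
        ring
      have h3 := h7 (y + (z : Sp d)) y
      rw [← e1, ← e2] at h3
      have h4 : (1 + ‖y + (z : Sp d) - y‖) ^ (2 * d + 4) ≤ 2 ^ (2 * d + 4) := by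
        refine pow_le_pow_left₀ (by positivity) ?_ _
        rw [add_sub_cancel_left]
        have : ‖(z : Sp d)‖ ≤ 1 := hz
        linarith
      have h5 := tavX2_nonneg μ n (y + (z : Sp d))
      have h6 : tav (X2 μ n) 1 y ≤ K * tav (X2 μ n) 1 (y + (z : Sp d)) :=
        h3.trans (mul_le_mul_of_nonneg_right (mul_le_mul_of_nonneg_left h4 hCm.le) h5)
      rw [div_le_iff₀' hK0]
      refine h6.trans (mul_le_mul_of_nonneg_left ?_ hK0.le)
      rw [XX_eq]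
      linarith [hX130 (y + (z : Sp d))]
    have h8 := disc_le hn hd0 hXc' hX0 hy (by linarith : ‖y‖ + 1 ≤ (d : ℝ) + 2)
      (fun _ => tav (X2 μ n) 1 y / K) continuous_const hb
    rw [setIntegral_const, hvol n hn, smul_eq_mul] at h8
    rw [div_mul_eq_mul_div, le_div_iff₀ hc]
    calc tav (X2 μ n) 1 y * c = K * (c * (tav (X2 μ n) 1 y / K)) := by
          field_simp
      _ ≤ _ := mul_le_mul_of_nonneg_left h8 hK0.le
  · refine disc_le hn hd0 hXc' hX0 hy (by linarith : ‖y‖ + 2 * ε ≤ (d : ℝ) + 2)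
      (fun z => X13 β ε μ n 1 (y + (z : Sp d))) (by fun_prop) fun z _ => ?_
    rw [XX_eq]
    linarith [tavX2_nonneg μ n (y + (z : Sp d))]

/-- the plane integral of the difference -/
lemma plane_bd (hTH : StmtTH) (hWA : StmtWA) (hWB : StmtWB) (hMO : StmtMO) (hUB : StmtUB)
    (hd : 2 ≤ d) {M C' ε p0 A : ℝ} (hC' : 0 < C')
    (hε : 0 < ε) (hε4 : ε ≤ 1 / 4) (hp0 : 0 < p0) (hp1 : p0 ≤ 1) (hA : 1 ≤ A) :
    ∃ C : ℝ, 0 < C ∧ ∀ β : Sp d → ℝ, Kit 4 M β →
    ∀ μ : Measure (Sp d), Gro C' μ → ∀ n n' p : Sp d, ‖n‖ = 1 → ‖n'‖ = 1 → ∀ (s δ : ℝ),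
      ‖n' - n‖ ≤ δ → δ ≤ 1 →
      |plInt n s (fun y => Tt p β ε p0 A μ (n' - n) n y + Tt p β ε p0 A μ n (n' - n) y
        + Tt p β ε p0 A μ (n' - n) (n' - n) y)| ≤
      C * δ * Real.sqrt (vv μ 1 0 * plInt n s (fun x => zR (d + 2) x * XX β ε μ n 1 x))
        + C * δ ^ 2 * vv μ 1 0 := by
  obtain ⟨C1, hC1, hg⟩ := gain_pl hWA hMO hd (M := M) hC' hε hε4
  obtain ⟨C2, hC2, hb⟩ := hWB d 0 hd M C' ε hC' hε (by linarith)
  obtain ⟨C3, hC3, hu⟩ := hUB d 1 hd M C' ε p0 A hC' hε (by linarith) hp0 hp1 hA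
  obtain ⟨C4, hC4, hpl⟩ := pl_le (by omega : 1 ≤ d) (d : ℝ)
  obtain ⟨N, hN, hχ⟩ := chi_TFn (by omega : 1 ≤ d) 1
  set H : ℝ := (1 + (d : ℝ)) ^ d with hH
  have hH0 : 0 < H := by positivity
  set K : ℝ := C2 * H * (C1 + 1) + 1 + C3 * H with hK
  have hK1 : 1 ≤ K := by
    have : 0 ≤ C2 * H * (C1 + 1) := by positivity
    have : 0 ≤ C3 * H := by positivity
    linarith
  refine ⟨C4 * (N * K * 3), by positivity, ?_⟩
  intro β hβ μ hμ n n' p hn hn' s δ hδ hδ1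
  obtain ⟨hWs, -, hWb, -⟩ := hu β hβ μ hμ
  obtain ⟨_, _, hA⟩ := hWA d 0 hd M C' ε hC' hε (by linarith)
  obtain ⟨-, -, -, -, hA'⟩ := hA β hβ μ hμ
  obtain ⟨-, hX0, -⟩ := hA' n hn
  obtain ⟨hb1, hb2, -⟩ := hb β hβ μ hμ n hn
  set v : ℝ := vv μ 1 0 with hv
  set P : ℝ := plInt n s (fun x => zR (d + 2) x * XX β ε μ n 1 x) with hP
  set Q : ℝ := Real.sqrt (v * P) with hQ
  set w : Sp d := n' - n with hw
  have hv0 : 0 ≤ v := Real.sqrt_nonneg _
  have hP0 : 0 ≤ P := integral_nonneg fun y => mul_nonneg (TU.zR_nonneg _ _) (hX0 _)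
  have hQ0 : 0 ≤ Q := Real.sqrt_nonneg _
  have hQ2 : Q ^ 2 = v * P := Real.sq_sqrt (mul_nonneg hv0 hP0)
  have hδ0 : 0 ≤ δ := (norm_nonneg _).trans hδ
  have hnw : |⟪n, w⟫_ℝ| ≤ δ ^ 2 := by
    have h1 : ‖n + w‖ ^ 2 = 1 := by rw [hw, add_sub_cancel, hn']; norm_num
    rw [norm_add_sq_real, hn] at h1
    have h2 : ⟪n, w⟫_ℝ = -(‖w‖ ^ 2 / 2) := by linarith
    rw [h2, abs_neg, abs_of_nonneg (by positivity)]
    have h3 : ‖w‖ ^ 2 ≤ δ ^ 2 := pow_le_pow_left₀ (norm_nonneg _) hδ 2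
    nlinarith [sq_nonneg ‖w‖]
  have hKK : K ≤ K ^ 2 := by nlinarith
  have hT : ∀ a b y : Sp d, |Tt p β ε p0 A μ a b y| ≤
      ‖a‖ * N * |fderiv ℝ (WW β ε μ 1) y b| := by
    intro a b y
    unfold Tt
    rw [abs_mul, abs_mul, abs_mul]
    refine mul_le_mul_of_nonneg_right ?_ (abs_nonneg _)
    have h1 : |chi (y - p)| ≤ 1 := by
      rw [abs_of_nonneg (PTm.chi_nonneg _)]
      exact PTm.chi_le_one _
    have h2 : |Ups p0 A μ 1 y| ≤ 1 := by
      unfold Ups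
      rw [abs_of_nonneg (Real.smoothTransition.nonneg _)]
      exact Real.smoothTransition.le_one _
    have h3 : |fderiv ℝ chi y a| ≤ ‖a‖ * N :=
      TU.TFn_norm (fdchi_TFn (K := 0) hχ a) y
    calc |chi (y - p)| * |Ups p0 A μ 1 y| * |fderiv ℝ chi y a|
        ≤ 1 * 1 * (‖a‖ * N) := by gcongr
      _ = ‖a‖ * N := by ring
  have key : ∀ y, ⟪n, y⟫_ℝ = s → ‖y‖ ≤ d →
      |Tt p β ε p0 A μ w n y + Tt p β ε p0 A μ n w y + Tt p β ε p0 A μ w w y| ≤
        N * K * 3 * (δ * Q + δ ^ 2 * v) := by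
    intro y hy hyd
    obtain ⟨g1, g2⟩ := hg β hβ μ hμ n hn s y hy hyd
    have hvy : vv μ 1 y ≤ H * v := TDc.vv_le hTH hd hC' hμ hyd
    have hvy0 : 0 ≤ vv μ 1 y := Real.sqrt_nonneg _
    have hX2 := tavX2_nonneg μ n y
    have a1 : |fderiv ℝ (WW β ε μ 1) y n| ≤ K * Q := by
      have h1 := hb2 0 le_rfl (fun _ => 0) (by simp) (by simp) y
      simp only [iteratedFDeriv_zero_apply, inner_grad] at h1
      refine abs_le_of_sq_le_sq ?_ (by positivity)
      calc _ ≤ C2 * vv μ 1 y * tav (X2 μ n) 1 y := h1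
        _ ≤ C2 * (H * v) * (C1 * P) := by gcongr
        _ = (C2 * H * C1) * (v * P) := by ring
        _ ≤ K ^ 2 * (v * P) := by
            refine mul_le_mul_of_nonneg_right (le_trans ?_ hKK) (mul_nonneg hv0 hP0)
            have : 0 ≤ C2 * H := by positivity
            have : 0 ≤ C3 * H := by positivity
            rw [hK]
            nlinarith
        _ = (K * Q) ^ 2 := by rw [mul_pow, hQ2]
    have a2 : ‖tang n (gradient (WW β ε μ 1) y)‖ ≤ K * Q := by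
      have h1 := hb1 0 le_rfl y
      rw [norm_iteratedFDeriv_zero] at h1
      refine (abs_le_of_sq_le_sq' ?_ (by positivity)).2
      have hd0 : 0 ≤ P := hP0
      calc _ ≤ C2 * vv μ 1 y * discR n (2 * ε) (X13 β ε μ n 1) y := h1
        _ ≤ C2 * vv μ 1 y * P := by gcongr
        _ ≤ C2 * (H * v) * P := by gcongr
        _ = (C2 * H) * (v * P) := by ring
        _ ≤ K ^ 2 * (v * P) := by
            refine mul_le_mul_of_nonneg_right (le_trans ?_ hKK) (mul_nonneg hv0 hP0)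
            have : 0 ≤ C2 * H := by positivity
            have : 0 ≤ C2 * H * C1 := by positivity
            have : 0 ≤ C3 * H := by positivity
            rw [hK]
            nlinarith
        _ = (K * Q) ^ 2 := by rw [mul_pow, hQ2]
    have a3 : |fderiv ℝ (WW β ε μ 1) y n| ≤ K * v := by
      have h1 := (fderiv ℝ (WW β ε μ 1) y).le_opNorm n
      rw [hn, mul_one, ← norm_iteratedFDeriv_one] at h1
      rw [← Real.norm_eq_abs]
      refine h1.trans ((hWb 1 le_rfl y).trans ?_)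
      calc C3 * vv μ 1 y ≤ C3 * (H * v) := by gcongr
        _ = C3 * H * v := by ring
        _ ≤ K * v := by
            refine mul_le_mul_of_nonneg_right ?_ hv0
            have : 0 ≤ C2 * H * (C1 + 1) := by positivity
            rw [hK]
            linarith
    have a4 : |fderiv ℝ (WW β ε μ 1) y w| ≤ K * Q * δ + K * v * δ ^ 2 := by
      have h1 : fderiv ℝ (WW β ε μ 1) y w =
          ⟪tang n (gradient (WW β ε μ 1) y), w⟫_ℝ
            + fderiv ℝ (WW β ε μ 1) y n * ⟪n, w⟫_ℝ := by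
        rw [← inner_grad, ← inner_grad]
        unfold tang
        rw [inner_sub_left, inner_smul_left, conj_trivial,
          real_inner_comm (gradient (WW β ε μ 1) y) n]
        ring
      rw [h1]
      refine (abs_add_le _ _).trans (add_le_add ?_ ?_)
      · refine (abs_real_inner_le_norm _ _).trans ?_
        exact mul_le_mul a2 hδ (norm_nonneg _) (by positivity)
      · rw [abs_mul]
        exact mul_le_mul a3 hnw (abs_nonneg _) (by positivity)
    have a5 : 0 ≤ K * Q * δ + K * v * δ ^ 2 := by positivity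
    have b1 : |Tt p β ε p0 A μ w n y| ≤ δ * N * (K * Q) :=
      (hT w n y).trans (by gcongr)
    have b2 : |Tt p β ε p0 A μ n w y| ≤ 1 * N * (K * Q * δ + K * v * δ ^ 2) :=
      (hT n w y).trans (by rw [hn]; gcongr)
    have b3 : |Tt p β ε p0 A μ w w y| ≤ 1 * N * (K * Q * δ + K * v * δ ^ 2) :=
      (hT w w y).trans (by
        have : ‖w‖ ≤ 1 := hδ.trans hδ1
        gcongr)
    refine (abs_add_le _ _).trans ((add_le_add ((abs_add_le _ _).trans
      (add_le_add b1 b2)) b3).trans ?_)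
    have e : 0 ≤ N * K * (δ ^ 2 * v) := by positivity
    nlinarith
  have h1 := hpl n hn s _ _ (by positivity) (fun y hy => by
    rw [Tt_zero hd p β ε p0 A μ _ _ hy.le, Tt_zero hd p β ε p0 A μ _ _ hy.le,
      Tt_zero hd p β ε p0 A μ _ _ hy.le]; norm_num) key
  refine h1.trans (le_of_eq ?_)
  ring

lemma TFn_sum {ι : Type*} (S : Finset ι) {K : ℕ} {N : ℝ} {f : ι → Sp d → ℝ}
    (h : ∀ i ∈ S, TFn K N (f i)) : TFn K (S.card * N) (fun y => ∑ i ∈ S, f i y) := by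
  classical
  induction S using Finset.induction with
  | empty =>
    refine ⟨by simp only [Finset.sum_empty]; exact contDiff_const, fun j _ y => ?_⟩
    simp only [Finset.sum_empty, Finset.card_empty, Nat.cast_zero, zero_mul]
    rw [iteratedFDeriv_fun_zero]
    simp
  | insert i s hi IH =>
    simp only [Finset.sum_insert hi]
    refine TU.TFn_mono (TU.TFn_add (h i (Finset.mem_insert_self _ _))
      (IH fun j hj => h j (Finset.mem_insert_of_mem hj))) le_rfl (le_of_eq ?_)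
    rw [Finset.card_insert_of_notMem hi]
    push_cast
    ring

lemma bv_norm (j : Fin d) : ‖bv j‖ = 1 := by simp [bv]

/-- bounds from TFn for the sheet estimate -/
lemma TB_of {J : ℕ} {n : Sp d} (hn : ‖n‖ = 1) (s : ℝ) {N : ℝ} {ζ : Sp d → ℝ}
    (h : TFn (J + 2) N ζ) (hs : ContDiff ℝ ∞ ζ) : TB J n s N ζ := by
  have aux : ∀ (j : ℕ) (g : Sp d → ℝ) (y : Sp d) (v : Fin j → Sp d), (∀ i, ‖v i‖ ≤ 1) →
      |iteratedFDeriv ℝ j g y v| ≤ ‖iteratedFDeriv ℝ j g y‖ := by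
    intro j g y v hv
    refine ((iteratedFDeriv ℝ j g y).le_opNorm v).trans ?_
    refine mul_le_of_le_one_right (norm_nonneg _) ?_
    exact Finset.prod_le_one (fun i _ => norm_nonneg _) fun i _ => hv i
  intro j hj v _ hv y _
  refine ⟨(aux j ζ y v hv).trans (h.bd j (by omega) y), (aux j _ y v hv).trans ?_⟩
  refine (fd_apply_bd hs n j y).trans ?_
  rw [hn, one_mul]
  exact h.bd (j + 1) (by omega) y

lemma Tt_smooth {p0 A : ℝ} {μ : Measure (Sp d)} {β : Sp d → ℝ} {ε : ℝ}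
    (hW : ContDiff ℝ ∞ (WW β ε μ 1)) (hU : ContDiff ℝ ∞ (Ups p0 A μ 1)) (p a b : Sp d) :
    ContDiff ℝ ∞ (Tt p β ε p0 A μ a b) :=
  (((TDc.chi_smooth.comp (contDiff_id.sub contDiff_const)).mul hU).mul
    (fd_apply_smooth TDc.chi_smooth a)).mul (fd_apply_smooth hW b)

end TFx

/-- MODULE TF (11.3) -/
theorem stmtTF (hTH : StmtTH) (hWA : StmtWA) (hWB : StmtWB) (hMO : StmtMO) (hUB : StmtUB) :
    StmtTF := by
  intro d J hd M C' ε p0 A R0 hC' hε hε4 hp0 hp1 hA hR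
  obtain ⟨C1, hC1, hT⟩ := TFx.Tt_TFn hTH hUB hd (J + 2) (M := M) hC' hε (by linarith) hp0 hp1 hA
  obtain ⟨C2, hC2, hpl⟩ := TFx.plane_bd hTH hWA hWB hMO hUB hd (M := M) hC' hε hε4 hp0 hp1 hA
  refine ⟨3 * C1 + C2, 2 * (3 * C1 + C2) + C1 * (d + 1), by positivity, by positivity, ?_⟩
  intro β hβ μ hμ m m' n n' s ab ep D δ p hm hm' hD _ hS hn' hδ' hδ1 hmm
  have hβ4 : Kit 4 M β := PTm.kit_mono (by omega) hβ
  have hn := hS.n1
  have hδ : ‖n' - n‖ ≤ δ := by rwa [norm_sub_rev]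
  have hδ0 : 0 ≤ δ := (norm_nonneg _).trans hδ
  have hd' : (2 : ℝ) ≤ d := by exact_mod_cast hd
  set v : ℝ := vv μ 1 0 with hv
  set Q : ℝ := Real.sqrt (v * plInt n s (fun x => zR (d + 2) x * XX β ε μ n 1 x)) with hQ
  set w : Sp d := n' - n with hw
  set bl : ℝ := blc n s m (d + 1) with hbl
  have hv0 : 0 ≤ v := Real.sqrt_nonneg _
  have hvp : 0 < v := by
    obtain ⟨C, _, h⟩ := hTH d 0 hd C' hC'
    exact Real.sqrt_pos.2 ((h μ hμ).1 1 0 one_pos).1
  have hQ0 : 0 ≤ Q := Real.sqrt_nonneg _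
  have hep := hS.ep0
  have hab := hS.ab0
  obtain ⟨_, _, hU⟩ := hUB d 0 hd M C' ε p0 A hC' hε (by linarith) hp0 hp1 hA
  obtain ⟨hWs, -, -, -, -, -, -, hUs, -⟩ := hU β hβ4 μ hμ
  have hTc := hT β hβ4 μ hμ p
  have hw1 : ‖w‖ ≤ 1 := hδ.trans hδ1
  have hTs : ∀ a b, ContDiff ℝ ∞ (TFx.Tt p β ε p0 A μ a b) := TFx.Tt_smooth hWs hUs p
  -- the difference of the two densities
  set ζ : Sp d → ℝ := fun y => TFx.Tt p β ε p0 A μ w n y + TFx.Tt p β ε p0 A μ n w y
    + TFx.Tt p β ε p0 A μ w w y with hζ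
  have hζs : ContDiff ℝ ∞ ζ := ((hTs w n).add (hTs n w)).add (hTs w w)
  have hζT : TFn (J + 2) (3 * C1 * δ * v) ζ := by
    refine TU.TFn_mono (TU.TFn_add (TU.TFn_add (hTc w n) (hTc n w)) (hTc w w)) le_rfl ?_
    rw [hn]
    have h1 : ‖w‖ * ‖w‖ ≤ δ * 1 := mul_le_mul hδ hw1 (norm_nonneg _) hδ0
    have h2 : C1 * (‖w‖ * 1) * v ≤ C1 * δ * v := by
      rw [mul_one]
      gcongr
    have h3 : C1 * (1 * ‖w‖) * v ≤ C1 * δ * v := by
      rw [one_mul]
      gcongr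
    have h4 : C1 * (‖w‖ * ‖w‖) * v ≤ C1 * δ * v := by
      refine mul_le_mul_of_nonneg_right (mul_le_mul_of_nonneg_left ?_ hC1.le) hv0
      linarith
    linarith
  have hζ0 : ∀ y, (d : ℝ) ≤ ‖y‖ → ζ y = 0 := fun y hy => by
    simp only [hζ]
    rw [TFx.Tt_zero hd p β ε p0 A μ _ _ hy, TFx.Tt_zero hd p β ε p0 A μ _ _ hy,
      TFx.Tt_zero hd p β ε p0 A μ _ _ hy]
    norm_num
  have hdR : (d : ℝ) ≤ R0 := by linarith
  have hest := hS.est ζ d (3 * C1 * δ * v) ((3 * C1 + C2) * δ * v)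
    (hζs.of_le (WithTop.coe_le_coe.2 le_top)) (by positivity) hdR hζ0 (TFx.TB_of hn s hζT hζs)
    (fun y => (hζT.bd 2 (by omega) y).trans (by
      have : 0 ≤ C2 * δ * v := by positivity
      nlinarith))
  have hplane := hpl β hβ4 μ hμ n n' p hn hn' s δ hδ hδ1
  -- the second cell
  set F : Sp d → ℝ := fxA chi (fun x => chi (x - p)) β ε p0 A μ n with hF
  set F' : Sp d → ℝ := fxA chi (fun x => chi (x - p)) β ε p0 A μ n' with hF'
  have hFeq : ∀ (ν : Sp d), ‖ν‖ = 1 → fxA chi (fun x => chi (x - p)) β ε p0 A μ ν =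
      fun y => (∑ j, TFx.Tt p β ε p0 A μ (bv j) (bv j) y) - TFx.Tt p β ε p0 A μ ν ν y :=
    fun ν hν => funext fun y => TFx.fxA_eq hν p β ε p0 A μ y
  have hFs : ∀ (ν : Sp d), ‖ν‖ = 1 → TFn (J + 2) (C1 * (d + 1) * v)
      (fxA chi (fun x => chi (x - p)) β ε p0 A μ ν) := by
    intro ν hν
    rw [hFeq ν hν]
    refine TU.TFn_mono (TU.TFn_sub (TFx.TFn_sum Finset.univ (N := C1 * v)
      (f := fun j => TFx.Tt p β ε p0 A μ (bv j) (bv j)) fun j _ => ?_) (hTc ν ν)) le_rfl ?_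
    · have h1 := hTc (bv j) (bv j)
      rw [TFx.bv_norm] at h1
      simpa using h1
    · rw [hν, Finset.card_univ, Fintype.card_fin]
      linarith
  have hFz : ∀ (ν : Sp d), ‖ν‖ = 1 → ∀ y, (d : ℝ) ≤ ‖y‖ →
      fxA chi (fun x => chi (x - p)) β ε p0 A μ ν y = 0 := by
    intro ν hν y hy
    rw [hFeq ν hν]
    simp only
    rw [TFx.Tt_zero hd p β ε p0 A μ _ _ hy, sub_zero]
    exact Finset.sum_eq_zero fun j _ => TFx.Tt_zero hd p β ε p0 A μ _ _ hy
  have hcs : ∀ (ν : Sp d), ‖ν‖ = 1 →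
      HasCompactSupport (fxA chi (fun x => chi (x - p)) β ε p0 A μ ν) := fun ν hν =>
    HasCompactSupport.intro (isCompact_closedBall (0 : Sp d) d) fun y hy => by
      rw [mem_closedBall, dist_zero_right, not_le] at hy
      exact hFz ν hν y hy.le
  have hint : ∀ (g : Sp d → ℝ), Continuous g → ∀ (ν : Sp d), ‖ν‖ = 1 →
      Integrable (fun y => g y * fxA chi (fun x => chi (x - p)) β ε p0 A μ ν y) := fun g hg ν hν =>
    (hg.mul (hFs ν hν).smooth.continuous).integrable_of_hasCompactSupport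
      (hcs ν hν).mul_left
  have hsecond : |∫ y, (m y - m' y) * F' y| ≤ C1 * (d + 1) * v * D := by
    set N : ℝ := C1 * (d + 1) * v with hN
    have hN0 : 0 < N := by positivity
    have h1 := TU.TFn_const_mul (hFs n' hn') N⁻¹
    rw [abs_of_pos (by positivity), inv_mul_cancel₀ hN0.ne'] at h1
    have h2 := hmm (fun y => N⁻¹ * F' y) (h1.smooth.of_le (by norm_cast; omega))
      (fun y => TU.TFn_norm h1 y) (fun y => h1.bd 2 (by omega) y)
      (fun y hy => by rw [hF', hFz n' hn' y (hdR.trans hy), mul_zero])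
    have h3 : ∫ y, (m y - m' y) * (N⁻¹ * F' y) = N⁻¹ * ∫ y, (m y - m' y) * F' y := by
      rw [← integral_const_mul]
      congr 1
      ext y
      ring
    rw [h3, abs_mul, abs_of_pos (by positivity : (0 : ℝ) < N⁻¹), inv_mul_le_iff₀ hN0] at h2
    exact h2
  have hsplit : (∫ y, m y * F y) - ∫ y, m' y * F' y =
      (∫ y, m y * ζ y) + ∫ y, (m y - m' y) * F' y := by
    have e1 : (fun y => m y * ζ y) = fun y => m y * F y - m y * F' y := by
      funext y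
      rw [← mul_sub, hF, hF', TFx.fxA_sub hn hn']
    have e2 : (fun y => (m y - m' y) * F' y) = fun y => m y * F' y - m' y * F' y := by
      funext y
      ring
    rw [e1, e2, integral_sub (hint m hm n hn) (hint m hm n' hn'),
      integral_sub (hint m hm n' hn') (hint m' hm' n' hn')]
    ring
  rw [hsplit]
  refine (abs_add_le _ _).trans ?_
  have h1 : |∫ y, m y * ζ y| ≤ ab * |plInt n s ζ| + (ep * (3 * C1 * δ * v)
      + (3 * C1 + C2) * δ * v * bl + (3 * C1 * δ * v + (3 * C1 + C2) * δ * v) * D) := by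
    have h2 := abs_add_le ((∫ y, m y * ζ y) - ab * plInt n s ζ) (ab * plInt n s ζ)
    rw [sub_add_cancel, abs_mul, abs_of_pos hab] at h2
    linarith
  have h3 : ab * |plInt n s ζ| ≤ ab * (C2 * δ * Q + C2 * δ ^ 2 * v) :=
    mul_le_mul_of_nonneg_left hplane hab.le
  have h4 : (3 * C1 * δ * v + (3 * C1 + C2) * δ * v) * D ≤ 2 * (3 * C1 + C2) * v * D := by
    refine mul_le_mul_of_nonneg_right ?_ hD
    have h5 : δ * v ≤ v := mul_le_of_le_one_left hv0 hδ1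
    have h6 : 0 ≤ C2 * v := by positivity
    nlinarith
  have h5 : 0 ≤ ab * (C1 * δ * Q) := by positivity
  have h6 : 0 ≤ ab * (C1 * δ ^ 2 * v) := by positivity
  have h7 : 0 ≤ (3 * C1 + C2) * ep * Q := by positivity
  have h8 : 0 ≤ C2 * (ep * δ) * v := by positivity
  nlinarith

end

end TG
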