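import Pool.Agent.TG.Stmts13
import Pool.Agent.TG.TF

/-!
# Module P4: off-sheet mass and small gains (helper27)
-/

open MeasureTheory Metric Set TrI
open scoped InnerProductSpace ContDiff ENNReal

namespace TG

noncomputable section

namespace P4x

variable {d : ℕ}

/-- near positivity for arbitrary C^2 norm -/
lemma zp_scale {R D N : ℝ} {m : Sp d → ℝ} (h : ZP R D m) {H : Sp d → ℝ} (hH : TFn 2 N H)
    (h0 : ∀ y, 0 ≤ H y) (hs : ∀ y, R ≤ ‖y‖ → H y = 0) : -(N * D) ≤ ∫ y, m y * H y := by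
  rcases (TU.TFn_nonneg hH).eq_or_lt with hN | hN
  · have h2 : ∀ y, H y = 0 := fun y => by
      have := TU.TFn_norm hH y
      rw [← hN] at this
      simpa using this
    simp [h2, ← hN]
  · have h2 := TU.TFn_const_mul hH (1 / N)
    have h3 : |1 / N| * N = 1 := by
      rw [abs_of_pos (by positivity)]
      field_simp
    rw [h3] at h2
    have h4 := h (fun y => 1 / N * H y) h2.smooth
      (fun y => mul_nonneg (by positivity) (h0 y))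
      (fun y => (le_abs_self _).trans (TU.TFn_norm h2 y)) (fun y => h2.bd 2 le_rfl y)
      (fun y hy => by rw [hs y hy, mul_zero])
    have h5 : ∫ y, m y * (1 / N * H y) = 1 / N * ∫ y, m y * H y := by
      rw [← integral_const_mul]
      congr 1
      ext y
      ring
    rw [h5] at h4
    have h6 := mul_le_mul_of_nonneg_left h4 hN.le
    have h7 : N * (1 / N * ∫ y, m y * H y) = ∫ y, m y * H y := by
      field_simp
    rw [h7] at h6
    linarith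

lemma zp_mono {R R' D : ℝ} {m : Sp d → ℝ} (h : ZP R D m) (hR : R' ≤ R) : ZP R' D m :=
  fun H h1 h2 h3 h4 h5 => h H h1 h2 h3 h4 fun y hy => h5 y (hR.trans hy)

lemma wok_mono {E : Type} [NormedAddCommGroup E] [InnerProductSpace ℝ E] {JA : ℕ}
    {C' R0 Rz Rz' : ℝ} {X : Prm d} {W : Wld d E} (h : WOK JA C' R0 Rz X W) (hR : Rz' ≤ Rz) :
    WOK JA C' R0 Rz' X W where
  X_eq := h.X_eq
  s0_pos := h.s0_pos
  gro := h.gro
  fc := h.fc
  fs := h.fs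
  eu := h.eu
  nu := h.nu
  ab0 := h.ab0
  D0 := h.D0
  zp := fun Q => zp_mono (h.zp Q) hR
  dir := fun Q Q' hQ' ζ N h1 h2 => h.dir Q Q' hQ' ζ N h1 fun y hy => h2 y (hR.trans hy)

/-- Harnack -/
lemma vv_har (hTH : StmtTH) (hd : 2 ≤ d) {C' : ℝ} (hC' : 0 < C') {μ : Measure (Sp d)}
    (hμ : Gro C' μ) (x x' : Sp d) : vv μ 1 x' ≤ (1 + ‖x - x'‖) ^ d * vv μ 1 x := by
  obtain ⟨C, _, hC⟩ := hTH d 0 hd C' hC'
  obtain ⟨h0, -, -, h4, -⟩ := hC μ hμ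
  have h5 := h4 1 x x' one_pos
  rw [div_one] at h5
  have h7 : 0 ≤ th μ 1 x := (h0 1 x one_pos).1.le
  have h8 : (1 : ℝ) ≤ (1 + ‖x - x'‖) ^ d := one_le_pow₀ (by linarith [norm_nonneg (x - x')])
  unfold vv
  rw [Real.sqrt_le_left (by positivity), mul_pow, Real.sq_sqrt h7]
  refine h5.trans (mul_le_mul_of_nonneg_right ?_ h7)
  nlinarith

lemma vv_pos (hTH : StmtTH) (hd : 2 ≤ d) {C' : ℝ} (hC' : 0 < C') {μ : Measure (Sp d)}
    (hμ : Gro C' μ) (x : Sp d) : 0 < vv μ 1 x := by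
  obtain ⟨C, _, hC⟩ := hTH d 0 hd C' hC'
  exact Real.sqrt_pos.2 ((hC μ hμ).1 1 x one_pos).1

lemma disc_vol (hd : 1 ≤ d) (r : ℝ) (hr : 0 < r) : ∃ c : ℝ, 0 < c ∧ ∀ n : Sp d, ‖n‖ = 1 →
    volume.real (closedBall (0 : PF.Pl n) r) = c := by
  obtain ⟨k, rfl⟩ : ∃ k, d = k + 1 := ⟨d - 1, by omega⟩
  refine ⟨(volume (closedBall (0 : Sp k) r)).toReal, ?_, fun n hn => ?_⟩
  · exact ENNReal.toReal_pos (measure_closedBall_pos volume _ hr).ne'
      measure_closedBall_lt_top.ne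
  · rw [Measure.real, PF.vol k n hn r]

/-- the cells of the level of Q in the neighbourhood -/
def lv (s0 r : ℝ) (JA : ℕ) (Q : Cell d) : Finset (Cell d) :=
  (nst s0 r JA Q).filter fun Q' => Q'.1 = Q.1 + 0

lemma lv_card (s0 r : ℝ) (JA : ℕ) (Q : Cell d) :
    ((lv s0 r JA Q).card : ℝ) ≤ ((2 * (⌈r⌉ + 1) + 1).toNat : ℝ) ^ d := by
  classical
  have h1 : lv s0 r JA Q ⊆ ({Q.1 + 0} : Finset ℕ) ×ˢ
      Fintype.piFinset fun j => Finset.Icc (Q.2 j / 2 ^ 0 - (⌈r⌉ + 1)) (Q.2 j / 2 ^ 0 + (⌈r⌉ + 1)) := by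
    intro Q' hQ'
    unfold lv nst at hQ'
    rw [Finset.mem_filter, Finset.mem_filter, Finset.mem_biUnion] at hQ'
    obtain ⟨⟨⟨i, _, hi⟩, _⟩, h2⟩ := hQ'
    rw [Finset.mem_product, Finset.mem_singleton] at hi
    have h3 : i = 0 := by
      have := hi.1
      omega
    subst h3
    rw [Finset.mem_product, Finset.mem_singleton]
    exact hi
  have h2 := Finset.card_le_card h1
  rw [Finset.card_product, Finset.card_singleton, one_mul, Fintype.card_piFinset] at h2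
  have h3 : ∀ j : Fin d, (Finset.Icc (Q.2 j / 2 ^ 0 - (⌈r⌉ + 1)) (Q.2 j / 2 ^ 0 + (⌈r⌉ + 1))).card =
      (2 * (⌈r⌉ + 1) + 1).toNat := by
    intro j
    rw [Int.card_Icc]
    congr 1
    ring
  simp only [h3, Finset.prod_const, Finset.card_univ, Fintype.card_fin] at h2
  exact_mod_cast h2

lemma chi_ne {y : Sp d} (hd : 1 ≤ d) (h : chi y ≠ 0) : ‖y‖ < d := by
  by_contra h1
  exact h (PTm.chi_supp (not_lt.1 h1) hd)

section Cells

variable {E : Type} [NormedAddCommGroup E] [InnerProductSpace ℝ E]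

lemma m_cont {JA : ℕ} {C' R0 Rz : ℝ} {X : Prm d} {W : Wld d E} (h : WOK JA C' R0 Rz X W)
    (Q : Cell d) (e : E) : Continuous (mQ W.s0 W.f e Q) := by
  unfold mQ rs
  have := h.fc
  fun_prop

lemma m_int {m ζ : Sp d → ℝ} (hm : Continuous m) (hζ : Continuous ζ) (hc : HasCompactSupport ζ) :
    Integrable (fun y => m y * ζ y) :=
  (hm.mul hζ).integrable_of_hasCompactSupport hc.mul_left

lemma cs_of {ζ : Sp d → ℝ} {ρ : ℝ} (h : ∀ y, ρ < ‖y‖ → ζ y = 0) : HasCompactSupport ζ :=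
  HasCompactSupport.intro (isCompact_closedBall (0 : Sp d) ρ) fun y hy => by
    rw [mem_closedBall, dist_zero_right, not_le] at hy
    exact h y hy

lemma w_nonneg {JA : ℕ} {C' R0 Rz : ℝ} {X : Prm d} {W : Wld d E} (h : WOK JA C' R0 Rz X W)
    (Q : Cell d) : 0 ≤ W.w Q := by
  unfold Wld.w cw lev
  have := h.s0_pos
  positivity

lemma v_nonneg (W : Wld d E) (Q : Cell d) : 0 ≤ W.v Q := Real.sqrt_nonneg _

/-- the potential of neighbouring cells of the same level -/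
lemma v_nb (hTH : StmtTH) (hFM : StmtFM) (hd : 2 ≤ d) {JA : ℕ} {C' R0 Rz : ℝ} {X : Prm d}
    (hC' : 0 < C') {W : Wld d E} (h : WOK JA C' R0 Rz X W) {Q Q' : Cell d}
    (hQ : Q'.1 = Q.1 + 0) {r : ℝ} (ht : ‖tw W.s0 Q Q'‖ ≤ r) :
    W.v Q ≤ (1 + r) ^ d * W.v Q' ∧ W.v Q' ≤ (1 + r) ^ d * W.v Q := by
  obtain ⟨hG, h1, h2, -, -⟩ :=
    (hFM d hd C' hC' W.s0 h.s0_pos 0 Q Q' hQ _ rfl).2.2.2 W.μ h.gro
  rw [pow_zero] at h2
  unfold Wld.v
  rw [← h1, h2]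
  have h3 : (1 + ‖tw W.s0 Q Q'‖) ^ d ≤ (1 + r) ^ d :=
    pow_le_pow_left₀ (by positivity) (by linarith) d
  constructor
  · refine (vv_har hTH hd hC' hG (tw W.s0 Q Q') 0).trans ?_
    rw [sub_zero]
    exact mul_le_mul_of_nonneg_right h3 (Real.sqrt_nonneg _)
  · refine (vv_har hTH hd hC' hG 0 (tw W.s0 Q Q')).trans ?_
    rw [zero_sub, norm_neg]
    exact mul_le_mul_of_nonneg_right h3 (Real.sqrt_nonneg _)

lemma chi_tr {r : ℝ} (hd : 1 ≤ d) {x y : Sp d} (hx : ‖x‖ ≤ r) (hy : r + d < ‖y‖) :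
    chi (y - x) = 0 := by
  by_contra h
  have h1 := chi_ne hd h
  have h2 : ‖y‖ ≤ ‖y - x‖ + ‖x‖ := by
    have := norm_add_le (y - x) x
    rwa [sub_add_cancel] at this
  linarith

/-- cells which are not near: the mass in the cell -/
lemma far_mass (hTH : StmtTH) (hFM : StmtFM) (hd : 2 ≤ d) {r CW : ℝ} (hr : 0 ≤ r) (hCW : 0 < CW) :
    ∃ C3 : ℝ, 0 < C3 ∧ ∀ (JA : ℕ) (C' R0 Rz : ℝ) (X : Prm d), 0 < C' → r = 3 * R0 →
    r + d + 1 ≤ Rz → ∀ (F : Type) [NormedAddCommGroup F] [InnerProductSpace ℝ F]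
    (W : Wld d F), WOK JA C' R0 Rz X W → ∀ Q Q' : Cell d, Q' ∈ W.ns R0 JA Q →
    Q'.1 = Q.1 + 0 → ‖tw W.s0 Q Q'‖ ≤ r → 0 ≤ W.val Q' →
    W.v Q' * (∫ y, W.m Q' y * chi y) ≤ CW * W.val Q' + CW * W.v Q' * W.D Q' →
    W.v Q * (∫ y, W.m Q y * chi (y - tw W.s0 Q Q')) ≤
      (1 + r) ^ d * CW * W.val Q' + C3 * W.v Q * (W.D Q + W.D Q') := by
  obtain ⟨N, hN, hχ⟩ := TFx.chi_TFn (by omega : 1 ≤ d) 2
  refine ⟨(1 + r) ^ d * CW * (1 + r) ^ d + N, by positivity, ?_⟩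
  intro JA C' R0 Rz X hC' hr0 hRz F _ _ W hW Q Q' hns hQ ht hval h1
  have hd1 : 1 ≤ d := by omega
  obtain ⟨v1, v2⟩ := v_nb hTH hFM hd hC' hW hQ ht
  have hvQ := v_nonneg W Q
  have hvQ' := v_nonneg W Q'
  have hDQ := hW.D0 Q
  have hDQ' := hW.D0 Q'
  set x := tw W.s0 Q Q' with hx
  have hχx : TFn 2 N (fun y => chi (y - x)) := TFx.TFn_trans hχ x
  have hcs : HasCompactSupport (fun y : Sp d => chi (y - x)) :=
    cs_of fun y hy => chi_tr hd1 ht hy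
  have hdir := hW.dir Q Q' hns (fun y => chi (y - x)) N hχx (fun y hy => chi_tr hd1 ht (by linarith))
  have hfm := (hFM d hd C' hC' W.s0 hW.s0_pos 0 Q Q' hQ x rfl).2.1 F W.f (W.e Q')
    (fun y => chi (y - x)) hW.fc hW.fs hχx.smooth.continuous
  simp only [zero_mul, pow_zero, one_mul, one_smul, add_sub_cancel_left] at hfm
  have hsplit : ∫ y, (mQ W.s0 W.f (W.e Q') Q y - mQ W.s0 W.f (W.e Q) Q y) * chi (y - x) =
      (∫ y, W.m Q' y * chi y) - ∫ y, W.m Q y * chi (y - x) := by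
    unfold Wld.m
    rw [← hfm, ← integral_sub (m_int (m_cont hW Q _) hχx.smooth.continuous hcs)
      (m_int (m_cont hW Q _) hχx.smooth.continuous hcs)]
    congr 1
    ext y
    ring
  rw [hsplit] at hdir
  have h2 := (abs_le.1 hdir).1
  set I := ∫ y, W.m Q y * chi (y - x)
  set I' := ∫ y, W.m Q' y * chi y
  have h3 : W.v Q * I ≤ W.v Q * I' + W.v Q * (N * W.D Q) := by
    rw [← mul_add]
    exact mul_le_mul_of_nonneg_left (by linarith) hvQ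
  have h4 : W.v Q * I' ≤ (1 + r) ^ d * (CW * W.val Q' + CW * W.v Q' * W.D Q') := by
    have h5 : 0 ≤ CW * W.val Q' + CW * W.v Q' * W.D Q' := by positivity
    rcases le_or_gt I' 0 with h6 | h6
    · refine le_trans (mul_nonpos_of_nonneg_of_nonpos hvQ h6) (by positivity)
    · calc W.v Q * I' ≤ (1 + r) ^ d * W.v Q' * I' := mul_le_mul_of_nonneg_right v1 h6.le
        _ = (1 + r) ^ d * (W.v Q' * I') := by ring
        _ ≤ _ := mul_le_mul_of_nonneg_left h1 (by positivity)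
  have h5 : (1 + r) ^ d * (CW * W.v Q' * W.D Q') ≤
      (1 + r) ^ d * (CW * ((1 + r) ^ d * W.v Q) * W.D Q') := by gcongr
  have h6 : 0 ≤ (1 + r) ^ d * CW * (1 + r) ^ d * W.v Q * W.D Q := by positivity
  have h7 : 0 ≤ N * W.v Q * W.D Q' := by positivity
  nlinarith

/-- cells which are not near: the off-sheet mass -/
lemma far_off (hd : 2 ≤ d) {r c' : ℝ} (hr : 0 ≤ r) (hc : 0 ≤ c') :
    ∃ N : ℝ, 0 < N ∧ ∀ (JA : ℕ) (C' R0 Rz : ℝ) (X : Prm d), r + d + 1 ≤ Rz →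
    ∀ (F : Type) [NormedAddCommGroup F] [InnerProductSpace ℝ F] (W : Wld d F),
    WOK JA C' R0 Rz X W → ∀ (Q : Cell d) (x : Sp d), ‖x‖ ≤ r → |W.sv Q| ≤ c' →
    ∫ y, W.m Q y * (chi (y - x) * hgt (W.nv Q) (W.sv Q) y ^ 2) ≤
      (r + d + c') ^ 2 * (∫ y, W.m Q y * chi (y - x)) + N * W.D Q := by
  obtain ⟨N, hN, hχ⟩ := TFx.chi_TFn (by omega : 1 ≤ d) 2
  set Cz : ℝ := (r + d + c') ^ 2 with hCz
  have hd1 : 1 ≤ d := by omega
  have hCz0 : 0 ≤ Cz := by positivity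
  refine ⟨|Cz| * N + 4 ^ 2 * N * max 1 (r + d + c') ^ 2, by positivity, ?_⟩
  intro JA C' R0 Rz X hRz F _ _ W hW Q x hx hs
  have hχx : TFn 2 N (fun y => chi (y - x)) := TFx.TFn_trans hχ x
  have hsup : ∀ y : Sp d, r + d < ‖y‖ → chi (y - x) = 0 := fun y hy => chi_tr hd1 hx hy
  have h1 := TU.TFn_const_mul hχx Cz
  have h2 : TFn 2 (4 ^ 2 * N * max 1 (r + d + c') ^ 2)
      (fun y => chi (y - x) * hgt (W.nv Q) (W.sv Q) y ^ 2) :=
    TU.TFn_ht_sq hχx hsup (hW.nu Q) hs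
  have h3 := TU.TFn_sub h1 h2
  have h4 := zp_scale (hW.zp Q) h3 (fun y => ?_) (fun y hy => ?_)
  · have i1 : Integrable (fun y => W.m Q y * (Cz * chi (y - x))) :=
      m_int (m_cont hW Q _) h1.smooth.continuous (cs_of (ρ := r + d) fun y hy => by
        rw [hsup y hy, mul_zero])
    have i2 : Integrable (fun y => W.m Q y * (chi (y - x) * hgt (W.nv Q) (W.sv Q) y ^ 2)) :=
      m_int (m_cont hW Q _) h2.smooth.continuous (cs_of (ρ := r + d) fun y hy => by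
        rw [hsup y hy, zero_mul])
    have e1 : ∫ y, W.m Q y * (Cz * chi (y - x) - chi (y - x) * hgt (W.nv Q) (W.sv Q) y ^ 2) =
        Cz * (∫ y, W.m Q y * chi (y - x)) -
          ∫ y, W.m Q y * (chi (y - x) * hgt (W.nv Q) (W.sv Q) y ^ 2) := by
      rw [← integral_const_mul, ← integral_sub (by
        refine i1.congr (Filter.Eventually.of_forall fun y => ?_)
        simp only
        ring) i2]
      congr 1
      ext y
      ring
    rw [e1] at h4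
    linarith
  · by_cases hy : r + d < ‖y‖
    · rw [hsup y hy]
      simp
    · push Not at hy
      have h5 : |hgt (W.nv Q) (W.sv Q) y| ≤ r + d + c' :=
        (TU.ht_le (hW.nu Q) (W.sv Q) y).trans (by linarith)
      have h6 : hgt (W.nv Q) (W.sv Q) y ^ 2 ≤ Cz := by
        rw [← sq_abs]
        exact pow_le_pow_left₀ (abs_nonneg _) h5 2
      have h7 := PTm.chi_nonneg (y - x)
      nlinarith
  · rw [hsup y (by linarith)]
    ring

/-- properties of the gain functional -/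
lemma XX_facts (hWA : StmtWA) (hd : 2 ≤ d) {J JA : ℕ} {M c0 C' c R0 : ℝ} {X : Prm d}
    (hX : XOK J JA M c0 C' c R0 X) : ∃ CA : ℝ, 0 < CA ∧ ∀ i : ℕ, ∀ μ : Measure (Sp d),
    Gro C' μ → ∀ n : Sp d, ‖n‖ = 1 → ContDiff ℝ 1 (XX (KN X.b i) X.ε μ n 1) ∧
      (∀ y, 0 ≤ XX (KN X.b i) X.ε μ n 1 y) ∧
      (∀ y, ‖fderiv ℝ (XX (KN X.b i) X.ε μ n 1) y‖ ≤ CA * vv μ 1 y) := by
  obtain ⟨CA, hCA, h⟩ := hWA d 1 hd M C' X.ε hX.C'_pos hX.prm.ε_pos (by linarith [hX.prm.ε_le])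
  refine ⟨CA, hCA, fun i μ hμ n hn => ?_⟩
  obtain ⟨-, -, -, -, h5⟩ := h (KN X.b i) (PTm.kit_mono (by omega) (hX.ker.kit i)) μ hμ
  obtain ⟨h6, h7, h8, -⟩ := h5 n hn
  refine ⟨h6, h7, fun y => ?_⟩
  rw [← norm_iteratedFDeriv_one]
  exact h8 1 le_rfl y

lemma mu_gro (hFM : StmtFM) (hd : 2 ≤ d) {JA : ℕ} {C' R0 Rz : ℝ} {X : Prm d}
    (hC' : 0 < C') {W : Wld d E} (h : WOK JA C' R0 Rz X W) (Q : Cell d) : Gro C' (W.mu Q) :=
  ((hFM d hd C' hC' W.s0 h.s0_pos 0 Q Q rfl _ rfl).2.2.2 W.μ h.gro).1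

lemma sg_nonneg (hWA : StmtWA) (hFM : StmtFM) (hd : 2 ≤ d) {J JA : ℕ} {M c0 C' c R0 Rz : ℝ}
    {X : Prm d} (hX : XOK J JA M c0 C' c R0 X) {W : Wld d E} (h : WOK JA C' R0 Rz X W)
    (Q : Cell d) : 0 ≤ W.sg Q := by
  obtain ⟨CA, hCA, hA⟩ := XX_facts hWA hd hX
  obtain ⟨-, h1, -⟩ := hA (Q.1 - 2) (W.mu Q) (mu_gro hFM hd hX.C'_pos h Q) (W.nv Q) (h.nu Q)
  refine mul_nonneg (h.ab0 Q) (integral_nonneg fun y => mul_nonneg (PTm.chi_nonneg _) ?_)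
  have := h1 (W.sv Q • W.nv Q + (y : Sp d))
  unfold Wld.be bQ
  rwa [h.X_eq]

lemma val_nonneg {W : Wld d E} {Q : Cell d} (h : 0 ≤ W.sg Q) : 0 ≤ W.val Q := by
  unfold Wld.val
  split_ifs
  · exact add_nonneg h (le_max_left _ _)
  · exact le_rfl
  · exact le_max_left _ _

lemma sE_nonneg {R0 : ℝ} {JA : ℕ} {W : Wld d E} {Q : Cell d}
    (h : ∀ Q' ∈ W.ns R0 JA Q, 0 ≤ W.er Q' ^ 2 / W.ab Q' + W.dl Q') : 0 ≤ W.sE R0 JA Q := by
  unfold Wld.sE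
  split_ifs
  · exact Finset.sum_nonneg h
  · exact le_rfl

lemma le_sE {R0 : ℝ} {JA : ℕ} {W : Wld d E} {Q Q' Q1 : Cell d}
    (h : ∀ Q' ∈ W.ns R0 JA Q, 0 ≤ W.er Q' ^ 2 / W.ab Q' + W.dl Q')
    (hQ1 : Q1 ∈ W.ns R0 JA Q) (hn : W.Near Q1) (hQ' : Q' ∈ W.ns R0 JA Q) :
    W.er Q' ^ 2 / W.ab Q' + W.dl Q' ≤ W.sE R0 JA Q := by
  unfold Wld.sE
  rw [if_pos ⟨Q1, hQ1, hn⟩]
  exact Finset.single_le_sum (f := fun Q' => W.er Q' ^ 2 / W.ab Q' + W.dl Q') h hQ'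

/-- if the gain is small, then the sheet meets only near cells -/
lemma near_pt (hTH : StmtTH) (hFM : StmtFM) (hWA : StmtWA) (hd : 2 ≤ d) {J JA : ℕ}
    {M c0 C' c R0 : ℝ} {X : Prm d} (hX : XOK J JA M c0 C' c R0 X) :
    ∃ i0 : ℝ, 0 < i0 ∧ ∀ (Rz : ℝ) (E : Type) [NormedAddCommGroup E] [InnerProductSpace ℝ E]
      (W : Wld d E), WOK JA C' R0 Rz X W → ∀ Q : Cell d,
      plInt (W.nv Q) (W.sv Q)
          (fun x => zR (2 * R0 - 1) x * XX (W.be Q) W.X.ε (W.mu Q) (W.nv Q) 1 x) ≤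
          i0 * W.v Q →
      ∀ Q' : Cell d, Q'.1 = Q.1 + 0 → ∀ x0 : Sp d, ⟪W.nv Q, x0⟫_ℝ = W.sv Q → ‖x0‖ ≤ R0 + 1 →
        chi (x0 - tw W.s0 Q Q') ≠ 0 → W.Near Q' := by
  obtain ⟨CA, hCA, hA⟩ := XX_facts hWA hd hX
  have hC' := hX.C'_pos
  have hc : 0 < c := hX.far.c_pos
  have hA1 := hX.prm.A_ge
  have hR0 := hX.R0_ge
  have hd0 : (0 : ℝ) ≤ d := Nat.cast_nonneg d
  have hR : 400 ≤ R0 := by linarith
  set H1 : ℝ := (1 + (R0 + 1)) ^ d with hH1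
  set H2 : ℝ := (1 + (R0 + 2)) ^ d with hH2
  have hH1p : 0 < H1 := by positivity
  have hH2p : 0 < H2 := by positivity
  set r0 : ℝ := min 1 (c / (2 * H1 * (CA * H2))) with hr0
  have hr0p : 0 < r0 := lt_min one_pos (by positivity)
  have hr01 : r0 ≤ 1 := min_le_left _ _
  have hr02 : CA * H2 * r0 ≤ c / (2 * H1) := by
    have h1 : r0 ≤ c / (2 * H1 * (CA * H2)) := min_le_right _ _
    calc CA * H2 * r0 ≤ CA * H2 * (c / (2 * H1 * (CA * H2))) :=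
          mul_le_mul_of_nonneg_left h1 (by positivity)
      _ = c / (2 * H1) := by field_simp
  obtain ⟨V, hV, hvol⟩ := disc_vol (by omega : 1 ≤ d) r0 hr0p
  refine ⟨V * (c / (2 * H1)) / 2, by positivity, ?_⟩
  intro Rz E _ _ W hW Q hsm Q' hQ' x0 hx0 hx0R hchi
  by_contra hnear
  have hn := hW.nu Q
  have hG := mu_gro hFM hd hC' hW Q
  have hXeq : W.X = X := hW.X_eq
  obtain ⟨hXs, hX0, hXf⟩ := hA (Q.1 - 2) (W.mu Q) hG (W.nv Q) hn
  have hβ : W.be Q = KN X.b (Q.1 - 2) := by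
    unfold Wld.be bQ
    rw [hXeq]
  rw [hβ, hXeq] at hsm
  set Y : Sp d → ℝ := XX (KN X.b (Q.1 - 2)) X.ε (W.mu Q) (W.nv Q) 1 with hY
  -- the point is not near
  have hq : qq X.A (W.mu Q) 1 x0 < X.p0 / 2 := by
    have h1 : ¬ (W.X.p0 / 2 ≤ qq W.X.A (W.mu Q') 1 (x0 - tw W.s0 Q Q')) := fun h =>
      hnear ⟨_, hchi, h⟩
    rw [not_le, hXeq] at h1
    have h2 := ((hFM d hd C' hC' W.s0 hW.s0_pos 0 Q Q' hQ' _ rfl).2.2.2 W.μ hW.gro).2.2.2.2
      M (KN X.b 0) (PTm.kit_mono (by omega) (hX.ker.kit 0)) X.ε hX.prm.ε_pos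
      (by linarith [hX.prm.ε_le]) (W.nv Q) (x0 - tw W.s0 Q Q')
    have h3 := (h2.2.2.2 X.p0 X.A hX.prm.p0_pos (by linarith)).1
    simp only [pow_zero, one_smul, add_sub_cancel] at h3
    unfold Wld.mu at h1 ⊢
    rwa [h3] at h1
  have hp0 := hX.prm.p0_pos
  have hfar := hX.far.farX (KN X.b (Q.1 - 2)) (hX.ker.kit _) (W.mu Q) hG (W.nv Q) hn x0
    (by linarith)
  have hvv : vv (W.mu Q) 1 0 = W.v Q :=
    ((hFM d hd C' hC' W.s0 hW.s0_pos 0 Q Q rfl _ rfl).2.2.2 W.μ hW.gro).2.1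
  have hvp : 0 < W.v Q := by
    rw [← hvv]
    exact vv_pos hTH hd hC' hG 0
  have h1 : W.v Q ≤ H1 * vv (W.mu Q) 1 x0 := by
    have h2 := vv_har hTH hd hC' hG x0 0
    rw [sub_zero, hvv] at h2
    refine h2.trans (mul_le_mul_of_nonneg_right ?_ (Real.sqrt_nonneg _))
    exact pow_le_pow_left₀ (by positivity) (by linarith) d
  have h2 : c / H1 * W.v Q ≤ Y x0 := by
    refine le_trans ?_ hfar
    rw [div_mul_eq_mul_div, div_le_iff₀ hH1p]
    calc c * W.v Q ≤ c * (H1 * vv (W.mu Q) 1 x0) := mul_le_mul_of_nonneg_left h1 hc.le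
      _ = _ := by ring
  have h3 : ∀ z : PF.Pl (W.nv Q), ‖z‖ ≤ r0 → c / (2 * H1) * W.v Q ≤ Y (x0 + (z : Sp d)) := by
    intro z hz
    have hz' : ‖(z : Sp d)‖ ≤ r0 := hz
    have h4 : ‖Y (x0 + (z : Sp d)) - Y x0‖ ≤ CA * (H2 * W.v Q) * ‖x0 + (z : Sp d) - x0‖ := by
      refine (convex_closedBall (0 : Sp d) (R0 + 2)).norm_image_sub_le_of_norm_fderiv_le (𝕜 := ℝ)
        (f := Y) (fun y _ => (hXs.differentiable (by norm_num)).differentiableAt) (fun y hy => ?_) ?_ ?_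
      · rw [mem_closedBall, dist_zero_right] at hy
        refine (hXf y).trans (mul_le_mul_of_nonneg_left ?_ hCA.le)
        have h5 := vv_har hTH hd hC' hG 0 y
        rw [zero_sub, norm_neg, hvv] at h5
        refine h5.trans (mul_le_mul_of_nonneg_right ?_ hvp.le)
        exact pow_le_pow_left₀ (by positivity) (by linarith) d
      · rw [mem_closedBall, dist_zero_right]
        linarith
      · rw [mem_closedBall, dist_zero_right]
        exact (norm_add_le _ _).trans (by linarith)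
    rw [add_sub_cancel_left, Real.norm_eq_abs] at h4
    have h5 := (abs_le.1 h4).1
    have h6 : CA * (H2 * W.v Q) * ‖(z : Sp d)‖ ≤ c / (2 * H1) * W.v Q := by
      calc CA * (H2 * W.v Q) * ‖(z : Sp d)‖ ≤ CA * (H2 * W.v Q) * r0 :=
            mul_le_mul_of_nonneg_left hz' (by positivity)
        _ = CA * H2 * r0 * W.v Q := by ring
        _ ≤ _ := mul_le_mul_of_nonneg_right hr02 hvp.le
    have h7 : c / H1 * W.v Q = c / (2 * H1) * W.v Q + c / (2 * H1) * W.v Q := by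
      field_simp
      ring
    linarith
  have h4 := TFx.disc_le hn (by linarith : 0 < 2 * R0 - 1) hXs.continuous hX0 hx0
    (by linarith : ‖x0‖ + r0 ≤ 2 * R0 - 1) (fun _ => c / (2 * H1) * W.v Q) continuous_const h3
  rw [setIntegral_const, hvol _ hn, smul_eq_mul] at h4
  have h5 : 0 < V * (c / (2 * H1)) * W.v Q := by positivity
  linarith

lemma mem_lv (hNS : StmtNS) (hd : 1 ≤ d) {s0 r : ℝ} (hs : 0 < s0) (hr : 0 ≤ r) {JA : ℕ}
    {Q Q' : Cell d} (h : Q' ∈ lv s0 r JA Q) : Q' ∈ nst s0 r JA Q ∧ Q'.1 = Q.1 + 0 ∧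
      ‖tw s0 Q Q'‖ ≤ r := by
  unfold lv at h
  rw [Finset.mem_filter] at h
  obtain ⟨-, h2, -⟩ := hNS d hd s0 r hs hr JA Q
  have h3 := (h2 0 (Nat.zero_le _) Q' h.2).2.2.1 h.1
  rw [pow_zero, mul_one] at h3
  exact ⟨h.1, h.2, h3⟩

lemma lv_one (hNS : StmtNS) (hd : 1 ≤ d) {s0 r : ℝ} (hs : 0 < s0) (hr : 0 ≤ r) (JA : ℕ)
    (Q : Cell d) {y : Sp d} (hy : ‖y‖ ≤ r - d) :
    ∑ Q' ∈ lv s0 r JA Q, chi (y - tw s0 Q Q') = 1 := by
  obtain ⟨-, -, h3, -⟩ := hNS d hd s0 r hs hr JA Q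
  have h4 := h3 0 (Nat.zero_le _) y (by rwa [pow_zero, mul_one])
  simp only [pow_zero, one_smul] at h4
  unfold lv
  exact h4

/-- the off-sheet mass in the ball is at most the sum over the cells of the level -/
lemma blc_sum (hNS : StmtNS) (hd : 2 ≤ d) {JA : ℕ} {C' R0 : ℝ} {X : Prm d}
    (hR0 : 400 + 8 * (d : ℝ) ≤ R0) : ∃ N : ℝ, 0 < N ∧ ∀ (Rz : ℝ), 3 * R0 + d + 1 ≤ Rz →
    ∀ (E : Type) [NormedAddCommGroup E] [InnerProductSpace ℝ E] (W : Wld d E),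
    WOK JA C' R0 Rz X W → ∀ Q : Cell d, |W.sv Q| ≤ 32 * R0 + 4 →
    blc (W.nv Q) (W.sv Q) (W.m Q) (R0 + 4) ≤
      (∑ Q' ∈ lv W.s0 (3 * R0) JA Q, ∫ y, W.m Q y * (chi (y - tw W.s0 Q Q') *
        hgt (W.nv Q) (W.sv Q) y ^ 2)) + N * W.D Q := by
  have hd1 : 1 ≤ d := by omega
  have hd0 : (0 : ℝ) ≤ d := Nat.cast_nonneg d
  obtain ⟨Nχ, hNχ, hχ⟩ := TFx.chi_TFn hd1 2
  obtain ⟨Nz, hNz, hz⟩ := TU.TFn_of_cs (J := 2) (ζ := (zR (R0 + 4) : Sp d → ℝ))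
    ((TU.zR_smooth (by linarith)).of_le (WithTop.coe_le_coe.2 le_top)) (TU.zR_cs _)
  set Ln : ℝ := ((2 * (⌈3 * R0⌉ + 1) + 1).toNat : ℝ) ^ d with hLn
  have hLn0 : 0 ≤ Ln := by positivity
  refine ⟨4 ^ 2 * (Ln * Nχ + Nz) * max 1 (3 * R0 + d + (32 * R0 + 4)) ^ 2, by positivity, ?_⟩
  intro Rz hRz E _ _ W hW Q hs
  set L := lv W.s0 (3 * R0) JA Q with hL
  have hr : 0 ≤ 3 * R0 := by linarith
  have hmem : ∀ Q' ∈ L, Q' ∈ nst W.s0 (3 * R0) JA Q ∧ Q'.1 = Q.1 + 0 ∧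
      ‖tw W.s0 Q Q'‖ ≤ 3 * R0 := fun Q' h => mem_lv hNS hd1 hW.s0_pos hr h
  have h1 : TFn 2 (L.card * Nχ) (fun y => ∑ Q' ∈ L, chi (y - tw W.s0 Q Q')) :=
    TFx.TFn_sum L fun Q' _ => TFx.TFn_trans hχ _
  have h2 := TU.TFn_mono (TU.TFn_sub h1 hz) (le_refl 2) (N' := Ln * Nχ + Nz) (by
    have := lv_card W.s0 (3 * R0) JA Q
    have h3 := mul_le_mul_of_nonneg_right this hNχ.le
    linarith)
  have hsup : ∀ y : Sp d, 3 * R0 + d < ‖y‖ →
      (∑ Q' ∈ L, chi (y - tw W.s0 Q Q')) - zR (R0 + 4) y = 0 := by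
    intro y hy
    rw [TU.zR_zero (by linarith), sub_zero]
    exact Finset.sum_eq_zero fun Q' hQ' => chi_tr hd1 (hmem Q' hQ').2.2 hy
  have h3 := TU.TFn_ht_sq h2 hsup (hW.nu Q) hs
  have h4 := zp_scale (hW.zp Q) h3 (fun y => mul_nonneg ?_ (sq_nonneg _)) (fun y hy => ?_)
  · have hc : ∀ Q' ∈ L, HasCompactSupport (fun y : Sp d => chi (y - tw W.s0 Q Q') *
        hgt (W.nv Q) (W.sv Q) y ^ 2) := fun Q' hQ' => cs_of (ρ := 3 * R0 + d) fun y hy => by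
      rw [chi_tr hd1 (hmem Q' hQ').2.2 hy, zero_mul]
    have hhc : Continuous (hgt (W.nv Q) (W.sv Q)) := by
      unfold hgt
      fun_prop
    have hχc : Continuous (chi : Sp d → ℝ) := hχ.smooth.continuous
    have i1 : ∀ Q' ∈ L, Integrable (fun y => W.m Q y * (chi (y - tw W.s0 Q Q') *
        hgt (W.nv Q) (W.sv Q) y ^ 2)) := fun Q' hQ' =>
      m_int (m_cont hW Q _) (by fun_prop) (hc Q' hQ')
    have i2 : Integrable (fun y => W.m Q y * (zR (R0 + 4) y *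
        hgt (W.nv Q) (W.sv Q) y ^ 2)) :=
      m_int (m_cont hW Q _) (hz.smooth.continuous.mul (hhc.pow 2))
        (cs_of (ρ := R0 + 5) fun y hy => by rw [TU.zR_zero (by linarith), zero_mul])
    have e1 : ∫ y, W.m Q y * (((∑ Q' ∈ L, chi (y - tw W.s0 Q Q')) - zR (R0 + 4) y) *
        ht (W.nv Q) (W.sv Q) y ^ 2) = (∑ Q' ∈ L, ∫ y, W.m Q y * (chi (y - tw W.s0 Q Q') *
        hgt (W.nv Q) (W.sv Q) y ^ 2)) - ∫ y, W.m Q y * (zR (R0 + 4) y *
        hgt (W.nv Q) (W.sv Q) y ^ 2) := by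
      rw [← integral_finset_sum L i1, ← integral_sub (integrable_finset_sum L i1) i2]
      congr 1
      ext y
      rw [← Finset.mul_sum, ← Finset.sum_mul]
      unfold ht hgt
      ring
    rw [e1] at h4
    unfold blc
    linarith
  · by_cases hy : ‖y‖ ≤ 3 * R0 - d
    · rw [lv_one hNS hd1 hW.s0_pos hr JA Q hy]
      linarith [TU.zR_le_one (R0 + 4) y]
    · rw [not_le] at hy
      rw [TU.zR_zero (by linarith), sub_zero]
      exact Finset.sum_nonneg fun Q' _ => PTm.chi_nonneg _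
  · rw [hsup y (by linarith), zero_mul]

lemma pl_int {n : Sp d} (hn : ‖n‖ = 1) (s : ℝ) {F : Sp d → ℝ} (hF : Continuous F) {ρ : ℝ}
    (h : ∀ y, ρ < ‖y‖ → F y = 0) : Integrable (fun z : PF.Pl n => F (s • n + (z : Sp d))) := by
  have h1 : Continuous (fun z : PF.Pl n => s • n + (z : Sp d)) := by fun_prop
  refine (hF.comp h1).integrable_of_hasCompactSupport ?_
  refine HasCompactSupport.intro (isCompact_closedBall (0 : PF.Pl n) ρ) fun z hz => ?_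
  rw [mem_closedBall, dist_zero_right, not_le] at hz
  exact h _ (lt_of_lt_of_le hz (TFx.pl_norm hn s z))

open Classical in
/-- the gain in the ball is at most the sum over the near cells -/
lemma pl_sum (hNS : StmtNS) (hd : 2 ≤ d) {JA : ℕ} {C' R0 Rz : ℝ} {X : Prm d}
    (hR0 : 400 + 8 * (d : ℝ) ≤ R0) {W : Wld d E} (hW : WOK JA C' R0 Rz X W) (Q : Cell d)
    {Y : Sp d → ℝ} (hY : Continuous Y) (hY0 : ∀ y, 0 ≤ Y y)
    (hnear : ∀ Q' : Cell d, Q'.1 = Q.1 + 0 → ∀ x0 : Sp d, ⟪W.nv Q, x0⟫_ℝ = W.sv Q →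
      ‖x0‖ ≤ R0 + 1 → chi (x0 - tw W.s0 Q Q') ≠ 0 → W.Near Q') :
    plInt (W.nv Q) (W.sv Q) (fun x => zR R0 x * Y x) ≤
      ∑ Q' ∈ (lv W.s0 (3 * R0) JA Q).filter (fun Q' => W.Near Q'),
        plInt (W.nv Q) (W.sv Q) (fun x => chi (x - tw W.s0 Q Q') * Y x) := by
  have hd1 : 1 ≤ d := by omega
  have hd0 : (0 : ℝ) ≤ d := Nat.cast_nonneg d
  have hr : 0 ≤ 3 * R0 := by linarith
  have hn := hW.nu Q
  set L := lv W.s0 (3 * R0) JA Q with hL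
  have hmem : ∀ Q' ∈ L, Q' ∈ nst W.s0 (3 * R0) JA Q ∧ Q'.1 = Q.1 + 0 ∧
      ‖tw W.s0 Q Q'‖ ≤ 3 * R0 := fun Q' h => mem_lv hNS hd1 hW.s0_pos hr h
  have hχc : Continuous (chi : Sp d → ℝ) := TDc.chi_smooth.continuous
  have hzc : Continuous (zR R0 : Sp d → ℝ) := (TU.zR_smooth (by linarith)).continuous
  have i1 : ∀ Q' ∈ L.filter (fun Q' => W.Near Q'), Integrable (fun z : PF.Pl (W.nv Q) =>
      (fun x => chi (x - tw W.s0 Q Q') * Y x) (W.sv Q • W.nv Q + (z : Sp d))) := fun Q' hQ' =>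
    pl_int hn (W.sv Q) (F := fun x => chi (x - tw W.s0 Q Q') * Y x) (by fun_prop)
      (ρ := 3 * R0 + d) fun y hy => by
        rw [chi_tr hd1 (hmem Q' (Finset.mem_filter.1 hQ').1).2.2 hy, zero_mul]
  have i2 : Integrable (fun z : PF.Pl (W.nv Q) =>
      (fun x => zR R0 x * Y x) (W.sv Q • W.nv Q + (z : Sp d))) :=
    pl_int hn (W.sv Q) (F := fun x => zR R0 x * Y x) (hzc.mul hY) (ρ := R0 + 1) fun y hy => by
      rw [TU.zR_zero hy.le, zero_mul]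
  unfold plInt
  rw [← integral_finset_sum _ i1]
  refine integral_mono i2 (integrable_finset_sum _ i1) fun z => ?_
  simp only
  set x : Sp d := W.sv Q • W.nv Q + (z : Sp d) with hx
  have hxs : ⟪W.nv Q, x⟫_ℝ = W.sv Q := TFx.pl_inner hn _ z
  rw [← Finset.sum_mul]
  refine mul_le_mul_of_nonneg_right ?_ (hY0 x)
  by_cases hxR : ‖x‖ ≤ R0 + 1
  · have h1 : ∑ Q' ∈ L.filter (fun Q' => W.Near Q'), chi (x - tw W.s0 Q Q') =
        ∑ Q' ∈ L, chi (x - tw W.s0 Q Q') := by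
      refine Finset.sum_subset (Finset.filter_subset _ _) fun Q' hQ' hn' => ?_
      by_contra h2
      exact hn' (Finset.mem_filter.2 ⟨hQ', hnear Q' (hmem Q' hQ').2.1 x hxs hxR h2⟩)
    rw [h1, lv_one hNS hd1 hW.s0_pos hr JA Q (by linarith)]
    exact TU.zR_le_one _ _
  · rw [TU.zR_zero (by linarith)]
    exact Finset.sum_nonneg fun Q' _ => PTm.chi_nonneg _

end Cells

end P4x

open Classical in
/-- MODULE P4 -/
theorem stmtP4 (hP1 : StmtP1) (hW1 : StmtW1) (hNS : StmtNS) (hFM : StmtFM) (hWA : StmtWA)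
    (hTH : StmtTH) : StmtP4 := by
  intro d J JA hd M c0 C' c R0 X hX
  have hd1 : 1 ≤ d := by omega
  have hd0 : (0 : ℝ) ≤ d := Nat.cast_nonneg d
  have hC' := hX.C'_pos
  have hR0 : 400 + 8 * (d : ℝ) ≤ R0 := by linarith [hX.R0_ge, hX.prm.A_ge]
  obtain ⟨CP, hCP, hP⟩ := hP1 d J JA hd M c0 C' c R0 X hX
  obtain ⟨CW, RzW, hCW, hW1'⟩ := hW1 d J JA hd M c0 C' c R0 X hX
  obtain ⟨C3, hC3, hfm⟩ := P4x.far_mass hTH hFM hd (r := 3 * R0) (by linarith) hCW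
  obtain ⟨Nf, hNf, hfo⟩ := P4x.far_off hd (r := 3 * R0) (c' := 32 * R0 + 4) (by linarith)
    (by linarith)
  obtain ⟨CA, hCA, hA⟩ := P4x.XX_facts hWA hd hX
  obtain ⟨i0, hi0, hnp⟩ := P4x.near_pt hTH hFM hWA hd hX
  obtain ⟨NT, hNT, hbs⟩ := P4x.blc_sum hNS hd (JA := JA) (C' := C') (X := X) hR0
  set Cz : ℝ := (3 * R0 + d + (32 * R0 + 4)) ^ 2 with hCz
  set H3 : ℝ := (1 + 3 * R0) ^ d with hH3
  have hR0p : 0 < R0 := by linarith
  have hH3p : 0 < H3 := by positivity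
  have hCzp : 0 < Cz := by positivity
  refine ⟨CP + Cz * (H3 * CW), i0, by positivity, hi0, ?_⟩
  intro Kc hKc
  obtain ⟨κ, CK1, RzP, hκ, hCK1, hP⟩ := hP Kc hKc
  set Ln : ℝ := ((2 * (⌈3 * R0⌉ + 1) + 1).toNat : ℝ) ^ d with hLn
  have hLn0 : 0 ≤ Ln := by positivity
  set Ka : ℝ := 2 * CK1 + Cz * C3 * 2 + Nf with hKa
  have hKap : 0 < Ka := by positivity
  refine ⟨κ, Ln * Ka + NT, max (max RzP RzW) (3 * R0 + d + 1), hκ, by positivity, ?_⟩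
  intro E _ _ _ W hW Q hAsh
  obtain ⟨hs, hSh, hall⟩ := hAsh
  have hWP : WOK JA C' R0 RzP X W :=
    P4x.wok_mono hW ((le_max_left _ _).trans (le_max_left _ _))
  have hWW : WOK JA C' R0 RzW X W :=
    P4x.wok_mono hW ((le_max_right _ _).trans (le_max_left _ _))
  have hRz : 3 * R0 + d + 1 ≤ max (max RzP RzW) (3 * R0 + d + 1) := le_max_right _ _
  have hs0 := hW.s0_pos
  have hr : 0 ≤ 3 * R0 := by linarith
  set L := P4x.lv W.s0 (3 * R0) JA Q with hL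
  have hmem : ∀ Q' ∈ L, Q' ∈ W.ns R0 JA Q ∧ Q'.1 = Q.1 + 0 ∧
      ‖tw W.s0 Q Q'‖ ≤ 3 * R0 := fun Q' h => P4x.mem_lv hNS hd1 hs0 hr h
  have hLcard : (L.card : ℝ) ≤ Ln := P4x.lv_card W.s0 (3 * R0) JA Q
  have hw : ∀ Q', 0 ≤ W.w Q' := P4x.w_nonneg hW
  have hv : 0 ≤ W.v Q := P4x.v_nonneg W Q
  have hsg : ∀ Q', 0 ≤ W.sg Q' := P4x.sg_nonneg hWA hFM hd hX hW
  have hval : ∀ Q', 0 ≤ W.val Q' := fun Q' => P4x.val_nonneg (hsg Q')
  have hwQ : ∀ Q' ∈ L, W.w Q' = W.w Q := by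
    intro Q' hQ'
    obtain ⟨-, h2, -⟩ := hNS d hd1 W.s0 (3 * R0) hs0 hr JA Q
    have h3 := (h2 0 (Nat.zero_le _) Q' (hmem Q' hQ').2.1).1
    rw [zero_mul, pow_zero, one_mul] at h3
    exact h3
  have hQns : Q ∈ W.ns R0 JA Q := by
    obtain ⟨h1, -⟩ := hNS d hd1 W.s0 (3 * R0) hs0 hr JA Q
    refine (h1 Q).2 ⟨0, Nat.zero_le _, rfl, ?_⟩
    rw [sub_self, norm_zero]
    unfold lev
    positivity
  have herr : ∀ Q' ∈ W.ns R0 JA Q, 0 ≤ W.er Q' ^ 2 / W.ab Q' + W.dl Q' := fun Q' hQ' =>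
    add_nonneg (div_nonneg (sq_nonneg _) (hW.ab0 Q')) (hall Q' hQ').2.1.dl0
  have hsE : 0 ≤ W.sE R0 JA Q := P4x.sE_nonneg herr
  have hsD1 : ∀ Q' ∈ W.ns R0 JA Q, W.D Q' ≤ W.sD R0 JA Q := fun Q' hQ' =>
    Finset.single_le_sum (f := fun Q' => W.D Q') (fun Q1 _ => hW.D0 Q1) hQ'
  have hsD : 0 ≤ W.sD R0 JA Q := (hW.D0 Q).trans (hsD1 Q hQns)
  have hwv : 0 ≤ W.w Q * W.v Q := mul_nonneg (hw Q) hv
  have hsV1 : ∀ S : Finset (Cell d), S ⊆ L → ∑ Q' ∈ S, W.w Q' * W.val Q' ≤ W.sV R0 JA Q :=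
    fun S hS => Finset.sum_le_sum_of_subset_of_nonneg
      (fun Q' hQ' => (hmem Q' (hS hQ')).1) fun Q' _ _ => mul_nonneg (hw Q') (hval Q')
  have hsV : 0 ≤ W.sV R0 JA Q := Finset.sum_nonneg fun Q' _ => mul_nonneg (hw Q') (hval Q')
  -- the sheet errors of near cells
  have hnE : ∀ Q' ∈ L, W.Near Q' → W.er Q ^ 2 / W.ab Q + W.er Q' ^ 2 / W.ab Q' + W.dl Q +
      W.dl Q' + W.D Q + W.D Q' ≤ 2 * (W.sE R0 JA Q + W.sD R0 JA Q) := by
    intro Q' hQ' hn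
    have h1 := P4x.le_sE herr (hmem Q' hQ').1 hn hQns
    have h2 := P4x.le_sE herr (hmem Q' hQ').1 hn (hmem Q' hQ').1
    have h3 := hsD1 Q hQns
    have h4 := hsD1 Q' (hmem Q' hQ').1
    linarith
  have hvn : ∀ Q' ∈ L, W.Near Q' → W.val Q' = W.sg Q' + max 0 (W.bl Q') := by
    intro Q' hQ' hn
    unfold Wld.val
    rw [if_pos ⟨hn, (hall Q' (hmem Q' hQ').1).1⟩]
  have hED : 0 ≤ W.sE R0 JA Q + W.sD R0 JA Q := add_nonneg hsE hsD
  refine ⟨?_, fun hsm => ?_⟩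
  · -- part 1
    have hcell : ∀ Q' ∈ L, W.w Q * (W.v Q * ∫ y, W.m Q y * (chi (y - tw W.s0 Q Q') *
        hgt (W.nv Q) (W.sv Q) y ^ 2)) ≤ (CP + Cz * (H3 * CW)) * (W.w Q' * W.val Q') +
          Ka * (W.w Q * W.v Q) * (W.sE R0 JA Q + W.sD R0 JA Q) := by
      intro Q' hQ'
      obtain ⟨m1, m2, m3⟩ := hmem Q' hQ'
      by_cases hn : W.Near Q'
      · obtain ⟨-, h2, h3⟩ := hall Q' m1
        have h4 := (hP E W hWP Q hs hSh Q' m1 h2 h3 0 m2).2.2.1 rfl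
        have h5 : W.w Q' * max 0 (W.bl Q') ≤ W.w Q' * W.val Q' := by
          rw [hvn Q' hQ' hn]
          exact mul_le_mul_of_nonneg_left (by linarith [hsg Q']) (hw Q')
        have h6 := mul_le_mul_of_nonneg_left (hnE Q' hQ' hn)
          (mul_nonneg hCK1.le hwv)
        have h7 : 0 ≤ Cz * (H3 * CW) * (W.w Q' * W.val Q') :=
          mul_nonneg (by positivity) (mul_nonneg (hw Q') (hval Q'))
        have h8 : 0 ≤ (Cz * C3 * 2 + Nf) * (W.w Q * W.v Q) * (W.sE R0 JA Q + W.sD R0 JA Q) :=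
          mul_nonneg (mul_nonneg (by positivity) hwv) hED
        have h9 := mul_le_mul_of_nonneg_left h5 hCP.le
        rw [hKa]
        nlinarith
      · obtain ⟨-, -, -, -, h1⟩ := hW1' E W hWW Q' hn
        have h2 := hfm JA C' R0 _ X hC' rfl hRz E W hW Q Q' m1 m2 m3 (hval Q') h1
        have h3 := hfo JA C' R0 _ X hRz E W hW Q (tw W.s0 Q Q') m3 hs
        have h4 := mul_le_mul_of_nonneg_left h3 hv
        have h5 := mul_le_mul_of_nonneg_left h2 hCzp.le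
        have h6 : W.v Q * ∫ y, W.m Q y * (chi (y - tw W.s0 Q Q') *
            hgt (W.nv Q) (W.sv Q) y ^ 2) ≤ Cz * (H3 * CW) * W.val Q' +
              W.v Q * (Cz * C3 * (W.D Q + W.D Q') + Nf * W.D Q) := by
          rw [hCz, hH3] at *
          linarith
        have h7 := mul_le_mul_of_nonneg_left h6 (hw Q)
        have h8 : Cz * C3 * (W.D Q + W.D Q') + Nf * W.D Q ≤
            Ka * (W.sE R0 JA Q + W.sD R0 JA Q) := by
          have g1 : Cz * C3 * (W.D Q + W.D Q') ≤ Cz * C3 * (2 * W.sD R0 JA Q) :=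
            mul_le_mul_of_nonneg_left (by linarith [hsD1 Q hQns, hsD1 Q' m1]) (by positivity)
          have g2 : Nf * W.D Q ≤ Nf * W.sD R0 JA Q :=
            mul_le_mul_of_nonneg_left (hsD1 Q hQns) hNf.le
          have g3 : 0 ≤ Ka * W.sE R0 JA Q := mul_nonneg hKap.le hsE
          have g4 : 0 ≤ 2 * CK1 * W.sD R0 JA Q := mul_nonneg (by positivity) hsD
          rw [hKa] at *
          linarith
        have h9 := mul_le_mul_of_nonneg_left h8 hwv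
        have h10 : 0 ≤ CP * (W.w Q' * W.val Q') := mul_nonneg hCP.le (mul_nonneg (hw Q') (hval Q'))
        rw [hwQ Q' hQ'] at *
        linarith
    have hsum := Finset.sum_le_sum hcell
    rw [Finset.sum_add_distrib, Finset.sum_const, nsmul_eq_mul, ← Finset.mul_sum,
      ← Finset.mul_sum, ← Finset.mul_sum] at hsum
    have h1 := hbs _ hRz E W hW Q hs
    have h2 : 0 ≤ (CP + Cz * (H3 * CW)) := by positivity
    have h3 := mul_le_mul_of_nonneg_left (hsV1 L subset_rfl) h2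
    have h4 : 0 ≤ Ka * (W.w Q * W.v Q) * (W.sE R0 JA Q + W.sD R0 JA Q) :=
      mul_nonneg (mul_nonneg hKap.le hwv) hED
    have h5 := mul_le_mul_of_nonneg_right hLcard h4
    have h6 : NT * W.D Q ≤ NT * (W.sE R0 JA Q + W.sD R0 JA Q) :=
      mul_le_mul_of_nonneg_left (by linarith [hsD1 Q hQns]) hNT.le
    have h7 := mul_le_mul_of_nonneg_left h6 hwv
    rcases le_total (blc (W.nv Q) (W.sv Q) (W.m Q) (R0 + 4)) 0 with h8 | h8
    · rw [max_eq_left h8, mul_zero]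
      refine add_nonneg (mul_nonneg h2 hsV) (mul_nonneg (mul_nonneg ?_ hwv) hED)
      positivity
    · rw [max_eq_right h8]
      have h9 := mul_le_mul_of_nonneg_left h1 hwv
      linarith
  · -- part 2
    have hn := hW.nu Q
    have hXeq : W.X = X := hW.X_eq
    have hβ : W.be Q = KN X.b (Q.1 - 2) := by
      unfold Wld.be bQ
      rw [hXeq]
    obtain ⟨hXs, hX0, -⟩ := hA (Q.1 - 2) (W.mu Q) (P4x.mu_gro hFM hd hC' hW Q) (W.nv Q) hn
    have h1 := P4x.pl_sum hNS hd hR0 hW Q (Y := XX (W.be Q) W.X.ε (W.mu Q) (W.nv Q) 1)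
      (by rw [hβ, hXeq]; exact hXs.continuous) (by rw [hβ, hXeq]; exact hX0)
      (hnp _ E W hW Q hsm)
    have hcell : ∀ Q' ∈ L.filter (fun Q' => W.Near Q'), W.w Q * (W.ab Q *
        plInt (W.nv Q) (W.sv Q) (fun x => chi (x - tw W.s0 Q Q') *
          XX (W.be Q) W.X.ε (W.mu Q) (W.nv Q) 1 x)) ≤ CP * (W.w Q' * W.val Q') +
          2 * CK1 * (W.w Q * W.v Q) * (W.sE R0 JA Q + W.sD R0 JA Q) := by
      intro Q' hQ''
      obtain ⟨hQ', hn⟩ := Finset.mem_filter.1 hQ''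
      obtain ⟨m1, m2, m3⟩ := hmem Q' hQ'
      obtain ⟨-, h2, h3⟩ := hall Q' m1
      have h4 := (hP E W hWP Q hs hSh Q' m1 h2 h3 0 m2).1
      have hbe : W.be Q' = W.be Q := by
        unfold Wld.be bQ
        rw [m2, add_zero]
      simp only [pow_zero, one_smul] at h4
      rw [hbe] at h4
      have h5 : W.w Q' * W.sg Q' ≤ W.w Q' * W.val Q' := by
        rw [hvn Q' hQ' hn]
        exact mul_le_mul_of_nonneg_left (by linarith [le_max_left 0 (W.bl Q')]) (hw Q')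
      have h6 := mul_le_mul_of_nonneg_left (hnE Q' hQ' hn) (mul_nonneg hCK1.le hwv)
      have h9 := mul_le_mul_of_nonneg_left h5 hCP.le
      linarith
    have hsum := Finset.sum_le_sum hcell
    rw [Finset.sum_add_distrib, Finset.sum_const, nsmul_eq_mul, ← Finset.mul_sum,
      ← Finset.mul_sum, ← Finset.mul_sum] at hsum
    have h3 := mul_le_mul_of_nonneg_left (hsV1 _ (Finset.filter_subset (fun Q' => W.Near Q') L))
      hCP.le
    have h4 : 0 ≤ 2 * CK1 * (W.w Q * W.v Q) * (W.sE R0 JA Q + W.sD R0 JA Q) :=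
      mul_nonneg (mul_nonneg (by positivity) hwv) hED
    have h5 : ((L.filter (fun Q' => W.Near Q')).card : ℝ) ≤ Ln :=
      le_trans (by exact_mod_cast Finset.card_filter_le _ _) hLcard
    have h6 := mul_le_mul_of_nonneg_right h5 h4
    have h7 := mul_le_mul_of_nonneg_left (mul_le_mul_of_nonneg_left h1 (hW.ab0 Q)) (hw Q)
    have h8 : 0 ≤ Cz * (H3 * CW) * W.sV R0 JA Q := mul_nonneg (by positivity) hsV
    have h9 : 0 ≤ (Ln * (Cz * C3 * 2 + Nf) + NT) * (W.w Q * W.v Q) *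
        (W.sE R0 JA Q + W.sD R0 JA Q) := mul_nonneg (mul_nonneg (by positivity) hwv) hED
    rw [hKa]
    linarith

end

end TG
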