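import Pool.Agent.TG.PLb

/-!
# Module PL: planes carrying the mass are close (by helper95)
-/

open MeasureTheory Metric Set TrI
open scoped InnerProductSpace ContDiff

namespace TG

namespace PL

variable {d : ℕ}

lemma ht_eq (ν ν' : Sp d) (c c' : ℝ) (y : Sp d) :
    ht ν' c' y = (⟪ν', tang ν y⟫_ℝ + (c * ⟪ν, ν'⟫_ℝ - c')) + ht ν c y * ⟪ν, ν'⟫_ℝ := by
  unfold ht tang
  rw [inner_sub_right, inner_smul_right, real_inner_comm ν ν']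
  ring

lemma norm_le_R0 {ν : Sp d} (hν : ‖ν‖ = 1) {c R0 : ℝ} (hc : |c| ≤ R0 / 3) (hR0 : 100 ≤ R0)
    {y : Sp d} (h1 : |ht ν c y| < 5) (h2 : ‖tang ν y‖ ≤ R0 / 2) : ‖y‖ ≤ R0 := by
  have h3 := norm_tang_sq hν y
  unfold ht at h1
  have h4 : |⟪ν, y⟫_ℝ| ≤ R0 / 2 := by
    rw [abs_lt] at h1
    rw [abs_le] at hc ⊢
    constructor <;> linarith [h1.1, h1.2, hc.1, hc.2]
  have h5 : ⟪ν, y⟫_ℝ ^ 2 ≤ (R0 / 2) ^ 2 := by
    rw [← sq_abs]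
    exact pow_le_pow_left₀ (abs_nonneg _) h4 2
  have h6 : ‖tang ν y‖ ^ 2 ≤ (R0 / 2) ^ 2 := pow_le_pow_left₀ (norm_nonneg _) h2 2
  refine (abs_le_of_sq_le_sq' (by nlinarith) (by linarith)).2

lemma geo {ν ν' : Sp d} (hν : ‖ν‖ = 1) (hν' : ‖ν'‖ = 1) {c c' R0 : ℝ} (hc : |c| ≤ R0) :
    ∃ σ : ℝ, (σ = 1 ∨ σ = -1) ∧ ‖ν - σ • ν'‖ ^ 2 + (c - σ * c') ^ 2 ≤
      (2 + 2 * R0 ^ 2) * (‖tang ν ν'‖ ^ 2 + (c * ⟪ν, ν'⟫_ℝ - c') ^ 2) := by
  set s := ⟪ν, ν'⟫_ℝ with hs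
  have ht2 : ‖tang ν ν'‖ ^ 2 = 1 - s ^ 2 := by
    have := norm_tang_sq hν ν'
    rw [hν'] at this
    linarith
  have hs1 : |s| ≤ 1 := by
    have h := abs_real_inner_le_norm ν ν'
    rw [hν, hν'] at h
    simpa using h
  have hc2 : c ^ 2 ≤ R0 ^ 2 := by
    rw [← sq_abs]
    exact pow_le_pow_left₀ (abs_nonneg _) hc 2
  have key : ∀ σ : ℝ, (σ = 1 ∨ σ = -1) → σ * s = |s| →
      ‖ν - σ • ν'‖ ^ 2 + (c - σ * c') ^ 2 ≤
        (2 + 2 * R0 ^ 2) * (‖tang ν ν'‖ ^ 2 + (c * s - c') ^ 2) := by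
    intro σ hσ hσs
    have hσ2 : σ ^ 2 = 1 := by rcases hσ with h | h <;> rw [h] <;> norm_num
    have e1 : ‖ν - σ • ν'‖ ^ 2 = 2 - 2 * |s| := by
      rw [norm_sub_sq_real, inner_smul_right, norm_smul, hν, hν', ← hs, hσs, Real.norm_eq_abs,
        mul_one, sq_abs, hσ2]
      ring
    have e2 : c - σ * c' = σ * (c * s - c') + c * (1 - |s|) := by
      rw [← hσs]
      ring
    have hs0 := abs_nonneg s
    have hss : s ^ 2 = |s| ^ 2 := (sq_abs s).symm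
    have h1 : 1 - |s| ≤ 1 - s ^ 2 := by rw [hss]; nlinarith
    have h2 : (1 - |s|) ^ 2 ≤ 1 - s ^ 2 := by rw [hss]; nlinarith
    have h3 : (c - σ * c') ^ 2 ≤ 2 * (c * s - c') ^ 2 + 2 * R0 ^ 2 * (1 - s ^ 2) := by
      rw [e2]
      have h4 : (σ * (c * s - c') + c * (1 - |s|)) ^ 2 ≤
          2 * (σ * (c * s - c')) ^ 2 + 2 * (c * (1 - |s|)) ^ 2 := by
        nlinarith [sq_nonneg (σ * (c * s - c') - c * (1 - |s|))]
      have h5 : (σ * (c * s - c')) ^ 2 = (c * s - c') ^ 2 := by rw [mul_pow, hσ2, one_mul]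
      have h6 : (c * (1 - |s|)) ^ 2 ≤ R0 ^ 2 * (1 - s ^ 2) := by
        rw [mul_pow]
        exact mul_le_mul hc2 h2 (sq_nonneg _) (sq_nonneg _)
      linarith
    rw [e1, ht2]
    have h7 : 0 ≤ (c * s - c') ^ 2 := sq_nonneg _
    have h8 : 0 ≤ R0 ^ 2 := sq_nonneg _
    have h9 : 0 ≤ 1 - s ^ 2 := by linarith
    nlinarith [mul_nonneg h8 h7]
  rcases le_or_gt 0 s with h | h
  · exact ⟨1, Or.inl rfl, key 1 (Or.inl rfl) (by rw [one_mul, abs_of_nonneg h])⟩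
  · exact ⟨-1, Or.inr rfl, key (-1) (Or.inr rfl) (by rw [abs_of_neg h]; ring)⟩


lemma eta_small {κ1 δ Mi bD mm D : ℝ} (hδ0 : 0 < δ) (hδ1 : δ ≤ 1) (hMi : 0 < Mi) (hmm : 0 ≤ mm)
    (hDb : D ≤ bD) (h1 : bD ≤ min κ1 (δ ^ 2) * Mi)
    (h2 : mm * bD ≤ min κ1 (δ ^ 2) * Mi ^ 2) : bD + Real.sqrt (mm * D) ≤ 2 * δ * Mi := by
  have h3 : min κ1 (δ ^ 2) ≤ δ ^ 2 := min_le_right _ _
  have h4 : δ ^ 2 ≤ δ := by nlinarith
  have h5 : bD ≤ δ * Mi := h1.trans (mul_le_mul_of_nonneg_right (h3.trans h4) hMi.le)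
  have h6 : Real.sqrt (mm * D) ≤ δ * Mi := by
    rw [show δ * Mi = Real.sqrt ((δ * Mi) ^ 2) from (Real.sqrt_sq (by positivity)).symm]
    refine Real.sqrt_le_sqrt ?_
    calc mm * D ≤ mm * bD := mul_le_mul_of_nonneg_left hDb hmm
      _ ≤ min κ1 (δ ^ 2) * Mi ^ 2 := h2
      _ ≤ δ ^ 2 * Mi ^ 2 := mul_le_mul_of_nonneg_right h3 (sq_nonneg _)
      _ = (δ * Mi) ^ 2 := by ring
  linarith

/-- first numerical step: the integral of P over the disc is not small -/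
lemma num1 {Mi I0 p0 bν D η δ C1 K0 A2 : ℝ} (hC1 : 0 < C1) (hK0 : 0 < K0) (hA2 : 0 < A2)
    (hMi : 0 < Mi) (hbν : 0 ≤ bν) (hD : 0 ≤ D)
    (h1 : Mi ≤ I0 + bν + A2 * D) (h2 : |I0 - p0| ≤ C1 * K0 * η) (h3 : bν + D ≤ η)
    (h4 : η ≤ 2 * δ * Mi) (h5 : δ * (4 * (C1 * K0 + 1 + A2)) ≤ 1) : Mi / 2 ≤ p0 := by
  have h6 : I0 ≤ p0 + C1 * K0 * η := by
    have := (abs_le.mp h2).2
    linarith
  have h7 : bν + A2 * D ≤ (1 + A2) * η := by nlinarith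
  have h8 : Mi ≤ p0 + (C1 * K0 + 1 + A2) * η := by linarith
  have h9 : (C1 * K0 + 1 + A2) * η ≤ (C1 * K0 + 1 + A2) * (2 * δ * Mi) :=
    mul_le_mul_of_nonneg_left h4 (by positivity)
  have h10 : (C1 * K0 + 1 + A2) * (2 * δ * Mi) = δ * (4 * (C1 * K0 + 1 + A2)) * (Mi / 2) := by ring
  have h11 : δ * (4 * (C1 * K0 + 1 + A2)) * (Mi / 2) ≤ 1 * (Mi / 2) :=
    mul_le_mul_of_nonneg_right h5 (by linarith)
  linarith

/-- second numerical step -/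
lemma num2 {Mi I1 p1 bν bν' D η δ S a C1 C2 c2 C5 K1 A1 A3 : ℝ} (hc2 : 0 < c2) (hC5 : 0 < C5)
    (hC1 : 0 < C1) (hC2 : 0 < C2) (hK1 : 0 < K1) (hA1 : 0 < A1) (hA3 : 0 < A3)
    (hMi : 0 < Mi) (hbν : 0 ≤ bν) (hbν' : 0 ≤ bν') (hD : 0 ≤ D) (hS : 0 ≤ S)
    (ha : Mi / (4 * C5) ≤ a)
    (h1 : c2 * a * S ≤ p1 + C2 * ((C1 + A1) * η) * S)
    (h2 : |I1 - p1| ≤ C1 * (K1 * S) * η) (h3 : I1 ≤ 2 * bν' + 2 * bν + A3 * D)
    (h4 : η ≤ 2 * δ * Mi) (h5 : δ * (16 * C5 * (C1 * K1 + C2 * (C1 + A1))) ≤ c2) :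
    Mi * S ≤ (8 * C5 / c2) * (2 + A3) * ((bν + D) + (bν' + D)) := by
  have h6 : p1 ≤ I1 + C1 * (K1 * S) * η := by
    have := (abs_le.mp h2).1
    linarith
  have h7 : c2 * (Mi / (4 * C5)) * S ≤ c2 * a * S := by gcongr
  have h8 : c2 * (Mi / (4 * C5)) * S ≤ 2 * bν' + 2 * bν + A3 * D +
      (C1 * K1 + C2 * (C1 + A1)) * η * S := by nlinarith
  have h9 : (C1 * K1 + C2 * (C1 + A1)) * η * S ≤
      (C1 * K1 + C2 * (C1 + A1)) * (2 * δ * Mi) * S := by gcongr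
  have h10 : (C1 * K1 + C2 * (C1 + A1)) * (2 * δ * Mi) * S =
      δ * (16 * C5 * (C1 * K1 + C2 * (C1 + A1))) * (Mi / (8 * C5) * S) := by
    field_simp
    ring
  have h11 : δ * (16 * C5 * (C1 * K1 + C2 * (C1 + A1))) * (Mi / (8 * C5) * S) ≤
      c2 * (Mi / (8 * C5) * S) := mul_le_mul_of_nonneg_right h5 (by positivity)
  have h12 : c2 * (Mi / (4 * C5)) * S = 2 * (c2 * (Mi / (8 * C5) * S)) := by
    field_simp
    ring
  have h13 : c2 * (Mi / (8 * C5) * S) ≤ 2 * bν' + 2 * bν + A3 * D := by linarith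
  have h14 : 2 * bν' + 2 * bν + A3 * D ≤ (2 + A3) * ((bν + D) + (bν' + D)) := by nlinarith
  have h15 : Mi * S = (8 * C5 / c2) * (c2 * (Mi / (8 * C5) * S)) := by
    field_simp
  rw [h15, mul_assoc]
  exact mul_le_mul_of_nonneg_left (h13.trans h14) (by positivity)


lemma int3 {F G H : Sp d → ℝ} (hF : Integrable F) (hG : Integrable G) (hH : Integrable H) :
    ∫ y, (F y + G y - H y) = (∫ y, F y) + (∫ y, G y) - ∫ y, H y := by
  have h1 : ∫ y, (F y + G y - H y) = (∫ y, (F y + G y)) - ∫ y, H y := integral_sub (hF.add hG) hH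
  rw [h1, integral_add hF hG]

lemma plInt_congr {ν : Sp d} (hν : ‖ν‖ = 1) (c : ℝ) {F G : Sp d → ℝ}
    (h : ∀ y, ⟪ν, y⟫_ℝ = c → F y = G y) : plInt ν c F = plInt ν c G := by
  unfold plInt
  congr 1
  funext y
  refine h _ ?_
  have h1 : ⟪ν, (y : Sp d)⟫_ℝ = 0 := Submodule.mem_orthogonal_singleton_iff_inner_right.mp y.2
  rw [inner_add_right, inner_smul_right, real_inner_self_eq_norm_sq, hν, h1]
  ring

lemma H2_nonneg {ν : Sp d} (hν : ‖ν‖ = 1) {c R0 : ℝ} (hR0 : 100 ≤ R0) (y : Sp d) :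
    0 ≤ cu1 4 (ht ν c y) * zR (R0 / 2 - 1) (tang ν y) + zR R0 y * (⟪ν, y⟫_ℝ + -c) ^ 2 -
      zR (R0 / 3) y := by
  have h1 := cu1_nonneg 4 (ht ν c y)
  have h2 := zR_nonneg (R0 / 2 - 1) (tang ν y)
  have h3 := zR_nonneg R0 y
  have h4 := zR_le_one (R0 / 3) y
  have h5 : 0 ≤ zR R0 y * (⟪ν, y⟫_ℝ + -c) ^ 2 := mul_nonneg h3 (sq_nonneg _)
  have h6 := mul_nonneg h1 h2
  by_cases hy : zR (R0 / 3) y = 0
  · rw [hy]
    linarith
  · have h7 := norm_lt_of_zR hy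
    have h8 : ‖tang ν y‖ ≤ R0 / 2 - 1 := (norm_tang_le hν y).trans (by linarith)
    rw [zR_one h8, zR_one (R := R0) (x := y) (by linarith), mul_one, one_mul]
    by_cases h9 : |ht ν c y| ≤ 4
    · rw [cu1_one h9]
      nlinarith [sq_nonneg (⟪ν, y⟫_ℝ + -c)]
    · have h10 : (4 : ℝ) ^ 2 ≤ |ht ν c y| ^ 2 := pow_le_pow_left₀ (by norm_num) (not_le.mp h9).le 2
      have h11 : |ht ν c y| ^ 2 = (⟪ν, y⟫_ℝ + -c) ^ 2 := by
        rw [sq_abs]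
        unfold ht
        ring
      rw [h11] at h10
      nlinarith

lemma H3_nonneg {ν ν' : Sp d} (hν : ‖ν‖ = 1) (hν' : ‖ν'‖ = 1) {c c' R0 : ℝ} (hR0 : 100 ≤ R0)
    (hc : |c| ≤ R0 / 3) (y : Sp d) :
    0 ≤ 2 * (zR R0 y * (⟪ν', y⟫_ℝ + -c') ^ 2) + 2 * (zR R0 y * (⟪ν, y⟫_ℝ + -c) ^ 2) -
      cu1 4 (ht ν c y) * (zR (R0 / 2 - 1) (tang ν y) *
        (⟪ν', tang ν y⟫_ℝ + (c * ⟪ν, ν'⟫_ℝ - c')) ^ 2) := by
  have h3 := zR_nonneg R0 y
  have h5 : 0 ≤ zR R0 y * (⟪ν, y⟫_ℝ + -c) ^ 2 := mul_nonneg h3 (sq_nonneg _)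
  have h5' : 0 ≤ zR R0 y * (⟪ν', y⟫_ℝ + -c') ^ 2 := mul_nonneg h3 (sq_nonneg _)
  by_cases h6 : cu1 4 (ht ν c y) = 0
  · rw [h6, zero_mul]
    linarith
  by_cases h7 : zR (R0 / 2 - 1) (tang ν y) = 0
  · rw [h7, zero_mul, mul_zero]
    linarith
  have h8 : ‖tang ν y‖ ≤ R0 / 2 := by
    have := norm_lt_of_zR h7
    linarith
  have h9 : |ht ν c y| < 5 := by
    have := abs_lt_of_cu1 h6
    linarith
  have h10 := norm_le_R0 hν hc hR0 h9 h8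
  rw [zR_one (R := R0) h10, one_mul, one_mul]
  have h11 := ht_eq ν ν' c c' y
  have hs1 : |⟪ν, ν'⟫_ℝ| ≤ 1 := by
    have h := abs_real_inner_le_norm ν ν'
    rw [hν, hν'] at h
    simpa using h
  have hs2 : ⟪ν, ν'⟫_ℝ ^ 2 ≤ 1 := by
    rw [← sq_abs]
    exact pow_le_one₀ (abs_nonneg _) hs1
  have e1 : ⟪ν', y⟫_ℝ + -c' = ht ν' c' y := by unfold ht; ring
  have e2 : ⟪ν, y⟫_ℝ + -c = ht ν c y := by unfold ht; ring
  rw [e1, e2]
  set l := ⟪ν', tang ν y⟫_ℝ + (c * ⟪ν, ν'⟫_ℝ - c') with hl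
  set s := ⟪ν, ν'⟫_ℝ with hs
  have h12 : l ^ 2 ≤ 2 * ht ν' c' y ^ 2 + 2 * ht ν c y ^ 2 := by
    have h13 : l = ht ν' c' y - ht ν c y * s := by linarith
    have h14 : (ht ν' c' y - ht ν c y * s) ^ 2 ≤
        2 * ht ν' c' y ^ 2 + 2 * (ht ν c y * s) ^ 2 := by
      nlinarith [sq_nonneg (ht ν' c' y + ht ν c y * s)]
    have h15 : (ht ν c y * s) ^ 2 ≤ ht ν c y ^ 2 := by
      rw [mul_pow]
      exact mul_le_of_le_one_right (sq_nonneg _) hs2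
    rw [h13]
    linarith
  have h16 : cu1 4 (ht ν c y) * (zR (R0 / 2 - 1) (tang ν y) * l ^ 2) ≤ 1 * (1 * l ^ 2) := by
    refine mul_le_mul (cu1_le_one _ _) ?_ ?_ (by norm_num)
    · exact mul_le_mul_of_nonneg_right (zR_le_one _ _) (sq_nonneg _)
    · exact mul_nonneg (zR_nonneg _ _) (sq_nonneg _)
  linarith

end PL

set_option maxHeartbeats 1600000 in
open PL in
theorem stmtPL (hSHB : StmtSHB) (hNC : StmtNC) (hZ : StmtZ) (hPF : StmtPF) : StmtPL := by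
  intro d V E _ _ _ _ _ _ L n0 T hd hn hL hT M c0 ε hε hε1 b hb R0 hR0
  have hd1 : 1 ≤ d := by omega
  have hR0p : 0 < R0 := by linarith
  obtain ⟨J1, hSHJ⟩ := hSHB d V E L n0 T hd hn hL hT
  obtain ⟨C1, κ1, hC1, hκ1, hSH⟩ := hSHJ M c0 ε hε hε1 b hb R0 hR0
  obtain ⟨c2, C2, hc2, hC2, hN⟩ := hNC d hd n0 (J1 + 2) (R0 / 2) (by linarith)
  obtain ⟨C5, hC5, hP⟩ := (hPF d hd1).1 (R0 / 2)
  obtain ⟨CZ, hCZ, hZu⟩ := Zuse hZ hd1 hε hε1 hb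
  obtain ⟨Kh, hKh, hcut⟩ := cut_CB 2 (ρ := 4) (by norm_num)
  obtain ⟨K0, hK0, hz0⟩ := CB.of_compact (zR_cd (d := d) (R := R0 / 2 - 1) (by linarith))
    (zR_cs (R0 / 2 - 1)) (J1 + 2)
  obtain ⟨K1, hK1, hq1⟩ := quad_CB d (J1 + 2) (ρ := R0 / 2 - 1) (by linarith)
  obtain ⟨K2, hK2, hq2⟩ := quad_CB d 2 (ρ := R0) hR0p
  obtain ⟨K3, hK3, hz3⟩ := CB.of_compact (zR_cd (d := d) (R := R0 / 3) (by linarith))
    (zR_cs (R0 / 3)) 2
  -- constants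
  obtain ⟨B1, hB1, hB1p⟩ : ∃ B1 : ℝ, 2 ^ 2 * (Kh * 1) ≤ B1 ∧ 0 < B1 :=
    ⟨_, le_rfl, by positivity⟩
  obtain ⟨B2, hB2, hB2p⟩ : ∃ B2 : ℝ, 2 ^ 2 * (Kh * K0) + K2 * (1 ^ 2 + R0 ^ 2) + K3 ≤ B2 ∧ 0 < B2 :=
    ⟨_, le_rfl, by positivity⟩
  obtain ⟨B3, hB3, hB3p⟩ : ∃ B3 : ℝ, 2 * (K2 * (1 ^ 2 + (3 * R0) ^ 2)) + 2 * (K2 * (1 ^ 2 + R0 ^ 2)) +
      2 ^ 2 * (Kh * (K1 * (1 ^ 2 + (4 * R0) ^ 2))) ≤ B3 ∧ 0 < B3 :=
    ⟨_, le_rfl, by positivity⟩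
  obtain ⟨A1, hA1, hA1p⟩ : ∃ A1 : ℝ, A1 = CZ * B1 ∧ 0 < A1 := ⟨_, rfl, by positivity⟩
  obtain ⟨A2, hA2, hA2p⟩ : ∃ A2 : ℝ, A2 = CZ * B2 ∧ 0 < A2 := ⟨_, rfl, by positivity⟩
  obtain ⟨A3, hA3, hA3p⟩ : ∃ A3 : ℝ, A3 = CZ * B3 ∧ 0 < A3 := ⟨_, rfl, by positivity⟩
  obtain ⟨δ, hδp, hδ1, hδ6, hδ7⟩ : ∃ δ : ℝ, 0 < δ ∧ δ ≤ 1 ∧
      δ * (4 * (C1 * K0 + 1 + A2)) ≤ 1 ∧ δ * (16 * C5 * (C1 * K1 + C2 * (C1 + A1))) ≤ c2 := by
    refine ⟨min 1 (min (1 / (4 * (C1 * K0 + 1 + A2)))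
      (c2 / (16 * C5 * (C1 * K1 + C2 * (C1 + A1))))), ?_, min_le_left _ _, ?_, ?_⟩
    · exact lt_min one_pos (lt_min (by positivity) (by positivity))
    · rw [← le_div_iff₀ (by positivity)]
      exact (min_le_right _ _).trans (min_le_left _ _)
    · rw [← le_div_iff₀ (by positivity)]
      exact (min_le_right _ _).trans (min_le_right _ _)
  refine ⟨(2 + 2 * R0 ^ 2) * ((8 * C5 / c2) * (2 + A3)), min κ1 (δ ^ 2), by positivity,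
    lt_min hκ1 (by positivity), ?_⟩
  intro R hR n u hu e he ν ν' c c' hν hν' hc hc' hflat
  obtain ⟨hMi, hfl1, hfl2⟩ := hflat
  have hfc : Continuous (fo L u) := fo_cont L hu
  have hfs : HasCompactSupport (fo L u) := fo_cs L hu
  generalize hf : fo L u = f at *
  have hD0 : 0 ≤ DD b ε R ((1 / 2) ^ n) f n 0 e := DD_nn b ε R n f 0 he
  have hbν0 : 0 ≤ max 0 (∫ y, ⟪f y, e⟫_ℝ * (zR R0 y * ht ν c y ^ 2)) := le_max_left _ _
  have hbν0' : 0 ≤ max 0 (∫ y, ⟪f y, e⟫_ℝ * (zR R0 y * ht ν' c' y ^ 2)) := le_max_left _ _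
  have hbνI : (∫ y, ⟪f y, e⟫_ℝ * (zR R0 y * ht ν c y ^ 2)) ≤
    max 0 (∫ y, ⟪f y, e⟫_ℝ * (zR R0 y * ht ν c y ^ 2)) := le_max_right _ _
  have hbνI' : (∫ y, ⟪f y, e⟫_ℝ * (zR R0 y * ht ν' c' y ^ 2)) ≤
    max 0 (∫ y, ⟪f y, e⟫_ℝ * (zR R0 y * ht ν' c' y ^ 2)) := le_max_right _ _
  rw [bD_eq b ε R0 R n f e ν c, bD_eq b ε R0 R n f e ν' c']
  have hflat1 : Flat b ε R0 R κ1 f n e ν c := by
    refine ⟨hMi, ?_, ?_⟩
    · exact hfl1.trans (mul_le_mul_of_nonneg_right (min_le_left _ _) hMi.le)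
    · exact hfl2.trans (mul_le_mul_of_nonneg_right (min_le_left _ _) (sq_nonneg _))
  have hmm0 : 0 ≤ ma b ε R0 ((1 / 2) ^ n) f n 0 := ma_nn b ε R0 n f 0
  have hS0 := hSH R hR n u hu e he ν c hν hc (by rw [hf]; exact hflat1) _ rfl
  rw [hf, bD_eq b ε R0 R n f e ν c] at hS0
  rw [bD_eq b ε R0 R n f e ν c] at hfl1 hfl2
  obtain ⟨l0, l1, -, -, -, hS, -⟩ := hS0
  generalize ma b ε R0 ((1 / 2) ^ n) f n 0 = mm at *
  generalize hMidef : (∫ y, ⟪f y, e⟫_ℝ * zR (R0 / 3) y) = Mi at *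
  generalize hDdef : DD b ε R ((1 / 2) ^ n) f n 0 e = D at *
  generalize max 0 (∫ y, ⟪f y, e⟫_ℝ * (zR R0 y * ht ν c y ^ 2)) = bν at *
  generalize max 0 (∫ y, ⟪f y, e⟫_ℝ * (zR R0 y * ht ν' c' y ^ 2)) = bν' at *
  have hηδ := eta_small hδp hδ1 hMi hmm0 (by linarith : D ≤ bν + D) hfl1 hfl2
  have hηb : bν + D ≤ (bν + D) + Real.sqrt (mm * D) := by
    linarith [Real.sqrt_nonneg (mm * D)]
  generalize (bν + D) + Real.sqrt (mm * D) = η at *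
  have hη0 : 0 ≤ η := by linarith
  have hPol := JJ_poly hd1 n0 ν (c • ν) one_pos hu.smooth l0
  have hPc : Continuous (fun y => l0 (JJ n0 ν (c • ν) 1 u y)) := hPol.1.continuous
  have hS' : ∀ (ψ : Sp d → ℝ) (N : ℝ), CB J1 N ψ → Cyl ν (R0 / 2) ψ →
      |(∫ y, ⟪f y, e⟫_ℝ * (cu1 4 (ht ν c y) * ψ y)) -
        plInt ν c (fun y => l0 (JJ n0 ν (c • ν) 1 u y) * ψ y)| ≤ C1 * N * η := by
    intro ψ N hψ hcyl
    have h1 := hS ψ (fun _ => 0) N (TFn_of_CB hψ)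
      ⟨contDiff_const, fun j hj x => by
        rcases Nat.eq_zero_or_pos j with h | h
        · subst h
          rw [norm_iteratedFDeriv_zero, norm_zero]
          exact hψ.nonneg
        · rw [iteratedFDeriv_const_of_ne (by omega)]
          simpa using hψ.nonneg⟩ hcyl
      ⟨fun _ => rfl, fun y hy => absurd rfl hy⟩ (fun y => inner_zero_right _)
    have e1 : ∀ y : Sp d, dv (fun _ => (0 : Sp d)) y = 0 := by
      intro y
      simp [dv]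
    simp only [e1, mul_zero, sub_zero, inner_zero_right, add_zero] at h1
    exact h1
  generalize hPdef : (fun y => l0 (JJ n0 ν (c • ν) 1 u y)) = P at *
  have hPy : ∀ y, l0 (JJ n0 ν (c • ν) 1 u y) = P y := fun y => by rw [← hPdef]
  simp only [hPy] at hS'
  clear hS hSH hSHJ hSHB hPy
  have hR3 : (3 : ℝ) ≤ R := by linarith
  have hcu : CB 2 Kh (fun y => cu1 4 (ht ν c y)) := hcut d ν c hν
  have htL := tangL_norm hν
  -- test functions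
  have hψ0 : CB (J1 + 2) K0 (fun y => zR (R0 / 2 - 1) (tang ν y)) := by
    have := hz0.comp_right (tangL ν) htL
    simpa only [tangL_apply] using this
  have hψ0c : Cyl ν (R0 / 2) (fun y => zR (R0 / 2 - 1) (tang ν y)) := by
    refine ⟨fun y => by simp only [tang_tang hν], fun y hy => ?_⟩
    have := norm_lt_of_zR hy
    linarith
  obtain ⟨S, hSdef⟩ : ∃ S : ℝ, S = ‖tang ν ν'‖ ^ 2 + (c * ⟪ν, ν'⟫_ℝ - c') ^ 2 := ⟨_, rfl⟩
  have hS0 : 0 ≤ S := by rw [hSdef]; positivity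
  have hψ1 : CB (J1 + 2) (K1 * S) (fun y => zR (R0 / 2 - 1) (tang ν y) *
      (⟪ν', tang ν y⟫_ℝ + (c * ⟪ν, ν'⟫_ℝ - c')) ^ 2) := by
    have := (hq1 (tang ν ν') (c * ⟪ν, ν'⟫_ℝ - c')).comp_right (tangL ν) htL
    simp only [tangL_apply, ← inner_tang_left ν ν' _ hν, ← hSdef] at this
    exact this
  have hψ1c : Cyl ν (R0 / 2) (fun y => zR (R0 / 2 - 1) (tang ν y) *
      (⟪ν', tang ν y⟫_ℝ + (c * ⟪ν, ν'⟫_ℝ - c')) ^ 2) := by
    refine ⟨fun y => by simp only [tang_tang hν], fun y hy => ?_⟩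
    have := norm_lt_of_zR (left_ne_zero_of_mul hy)
    linarith
  have hsupp : ∀ (ψ : Sp d → ℝ), Cyl ν (R0 / 2) ψ → ∀ y, cu1 4 (ht ν c y) * ψ y ≠ 0 →
      ‖y‖ < R - 2 := by
    intro ψ hψ y hy
    have h1 := abs_lt_of_cu1 (left_ne_zero_of_mul hy)
    have h2 := hψ.supp y (right_ne_zero_of_mul hy)
    have h3 := norm_le_R0 hν hc hR0 (by linarith) h2
    linarith
  have hzsupp : ∀ (ρ : ℝ), ρ ≤ R0 → ∀ y : Sp d, zR ρ y ≠ 0 → ‖y‖ < R - 2 := by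
    intro ρ hρ y hy
    have := norm_lt_of_zR hy
    linarith
  -- use 1
  have hU1 : ∀ ψ : Sp d → ℝ, CB (J1 + 2) 1 ψ → Cyl ν (R0 / 2) ψ → (∀ y, 0 ≤ ψ y) →
      -((C1 + A1) * η) ≤ plInt ν c (fun y => P y * ψ y) := by
    intro ψ hψ hcyl hψn
    have h1 := hZu E f hfc hfs R hR3 n e he (fun y => cu1 4 (ht ν c y) * ψ y) B1 hB1p
      ((hcu.mul (hψ.mono (by omega) le_rfl)).mono le_rfl hB1)
      (fun y => mul_nonneg (cu1_nonneg _ _) (hψn y)) (hsupp ψ hcyl)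
    rw [← hA1, hDdef] at h1
    have h2 := (abs_le.mp (hS' ψ 1 (hψ.mono (by omega) le_rfl) hcyl)).2
    have h3 : A1 * D ≤ A1 * η := mul_le_mul_of_nonneg_left (by linarith) hA1p.le
    nlinarith
  -- use 2
  have hcR0 : c ^ 2 ≤ R0 ^ 2 := by
    rw [← sq_abs]
    exact pow_le_pow_left₀ (abs_nonneg _) (by linarith) 2
  have hI : ∀ {H : Sp d → ℝ}, Continuous H → Integrable (fun y => ⟪f y, e⟫_ℝ * H y) :=
    fun hH => int_mH hfc hfs e hH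
  have hquad : ∀ (ν1 : Sp d) (c1 : ℝ), (∫ y, ⟪f y, e⟫_ℝ * (zR R0 y * (⟪ν1, y⟫_ℝ + -c1) ^ 2)) =
      ∫ y, ⟪f y, e⟫_ℝ * (zR R0 y * ht ν1 c1 y ^ 2) := by
    intro ν1 c1
    congr 1
  have hU2 : Mi ≤ (∫ y, ⟪f y, e⟫_ℝ * (cu1 4 (ht ν c y) * zR (R0 / 2 - 1) (tang ν y))) + bν +
      A2 * D := by
    have hCB2 : CB 2 B2 (fun y => cu1 4 (ht ν c y) * zR (R0 / 2 - 1) (tang ν y) +
        zR R0 y * (⟪ν, y⟫_ℝ + -c) ^ 2 - zR (R0 / 3) y) := by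
      refine (((hcu.mul (hψ0.mono (by omega) le_rfl)).add (hq2 ν (-c))).sub hz3).mono le_rfl ?_
      refine le_trans ?_ hB2
      rw [hν, neg_sq]
      gcongr
    have h1 := hZu E f hfc hfs R hR3 n e he _ B2 hB2p hCB2 (H2_nonneg hν hR0) ?_
    · rw [← hA2, hDdef] at h1
      have hc1 : Continuous (fun y => cu1 4 (ht ν c y) * zR (R0 / 2 - 1) (tang ν y)) :=
        hcu.smooth.continuous.mul hψ0.smooth.continuous
      have hc2' := (hq2 ν (-c)).smooth.continuous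
      have hc3 := hz3.smooth.continuous
      have h2 : (∫ y, ⟪f y, e⟫_ℝ * (cu1 4 (ht ν c y) * zR (R0 / 2 - 1) (tang ν y) +
          zR R0 y * (⟪ν, y⟫_ℝ + -c) ^ 2 - zR (R0 / 3) y)) =
          (∫ y, ⟪f y, e⟫_ℝ * (cu1 4 (ht ν c y) * zR (R0 / 2 - 1) (tang ν y))) +
          (∫ y, ⟪f y, e⟫_ℝ * (zR R0 y * (⟪ν, y⟫_ℝ + -c) ^ 2)) -
          ∫ y, ⟪f y, e⟫_ℝ * zR (R0 / 3) y := by
        rw [← int3 (hI hc1) (hI hc2') (hI hc3)]
        congr 1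
        funext y
        ring
      rw [h2, hquad, hMidef] at h1
      linarith
    · intro y hy
      by_contra h
      have h3 : cu1 4 (ht ν c y) * zR (R0 / 2 - 1) (tang ν y) = 0 := by
        by_contra h4
        exact h (hsupp _ hψ0c y h4)
      have h4 : zR R0 y = 0 := by
        by_contra h5
        exact h (hzsupp R0 le_rfl y h5)
      have h5 : zR (R0 / 3) y = 0 := by
        by_contra h6
        exact h (hzsupp (R0 / 3) (by linarith) y h6)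
      rw [h3, h4, h5] at hy
      apply hy
      ring
  -- the lower bound for the integral
  have hp0 := num1 hC1 hK0 hA2p hMi hbν0 hD0 hU2
    (hS' _ K0 (hψ0.mono (by omega) le_rfl) hψ0c) hηb hηδ hδ6
  -- a point where P is large
  obtain ⟨y0, hy0, hy0T, hy0P⟩ : ∃ y0 : Sp d, ⟪ν, y0⟫_ℝ = c ∧ ‖tang ν y0‖ ≤ R0 / 2 ∧
      Mi / (4 * C5) ≤ |P y0| := by
    by_contra hcon
    push Not at hcon
    have hMC : 0 ≤ Mi / (4 * C5) := by positivity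
    have hpl : ∀ y : Sp d, ⟪ν, tang ν y + c • ν⟫_ℝ = c := by
      intro y
      rw [inner_add_right, inner_tang hν, inner_smul_right, real_inner_self_eq_norm_sq, hν]
      ring
    have htp : ∀ y : Sp d, tang ν (tang ν y + c • ν) = tang ν y := by
      intro y
      conv_lhs => unfold tang
      rw [show y - ⟪ν, y⟫_ℝ • ν = tang ν y from rfl, hpl]
      abel
    have h1 := hP ν hν (fun y => P (tang ν y + c • ν) * zR (R0 / 2 - 1) (tang ν y))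
      (Mi / (4 * C5)) ?_ ?_ ?_ c
    · have h2 : plInt ν c (fun y => P (tang ν y + c • ν) * zR (R0 / 2 - 1) (tang ν y)) =
          plInt ν c (fun y => P y * zR (R0 / 2 - 1) (tang ν y)) := by
        refine plInt_congr hν c fun y hy => ?_
        have h3 : tang ν y + c • ν = y := by
          unfold tang
          rw [hy]
          abel
        rw [h3]
      rw [h2] at h1
      have h4 := (le_abs_self _).trans h1
      have h5 : C5 * (Mi / (4 * C5)) = Mi / 4 := by field_simp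
      linarith
    · have hc1 : Continuous (fun y : Sp d => tang ν y) := by
        have := (tangL ν).continuous
        simpa only [← tangL_apply] using this
      exact (hPc.comp (hc1.add continuous_const)).mul hψ0.smooth.continuous
    · intro y
      by_cases hy : zR (R0 / 2 - 1) (tang ν y) = 0
      · rw [hy, mul_zero, abs_zero]
        exact hMC
      · have h2 := norm_lt_of_zR hy
        have h3 := (hcon _ (hpl y) (by rw [htp]; linarith)).le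
        rw [abs_mul, abs_of_nonneg (zR_nonneg _ _)]
        calc |P (tang ν y + c • ν)| * zR (R0 / 2 - 1) (tang ν y)
            ≤ (Mi / (4 * C5)) * 1 :=
              mul_le_mul h3 (zR_le_one _ _) (zR_nonneg _ _) hMC
          _ = Mi / (4 * C5) := mul_one _
    · intro y hy
      have := norm_lt_of_zR (right_ne_zero_of_mul hy)
      linarith
  -- nonconcentration
  have hNc := hN ν 0 c hν P hPol.1 hPol.2 ((C1 + A1) * η) (by positivity) ?_ ν'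
    (c * ⟪ν, ν'⟫_ℝ - c') y0 hy0 (by rw [sub_zero]; exact hy0T)
  · simp only [sub_zero, ← hSdef] at hNc
    -- use 3
    have hU3 : (∫ y, ⟪f y, e⟫_ℝ * (cu1 4 (ht ν c y) * (zR (R0 / 2 - 1) (tang ν y) *
        (⟪ν', tang ν y⟫_ℝ + (c * ⟪ν, ν'⟫_ℝ - c')) ^ 2))) ≤ 2 * bν' + 2 * bν + A3 * D := by
      have hSle : S ≤ 1 ^ 2 + (4 * R0) ^ 2 := by
        rw [hSdef]
        have h1 : ‖tang ν ν'‖ ^ 2 ≤ 1 ^ 2 := by
          have := norm_tang_le hν ν'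
          rw [hν'] at this
          exact pow_le_pow_left₀ (norm_nonneg _) this 2
        have h2 : |c * ⟪ν, ν'⟫_ℝ - c'| ≤ 4 * R0 := by
          have h3 : |⟪ν, ν'⟫_ℝ| ≤ 1 := by
            have h := abs_real_inner_le_norm ν ν'
            rw [hν, hν'] at h
            simpa using h
          calc |c * ⟪ν, ν'⟫_ℝ - c'| ≤ |c * ⟪ν, ν'⟫_ℝ| + |c'| := abs_sub _ _
            _ = |c| * |⟪ν, ν'⟫_ℝ| + |c'| := by rw [abs_mul]
            _ ≤ |c| * 1 + |c'| := by gcongr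
            _ ≤ 4 * R0 := by linarith
        have h3 : (c * ⟪ν, ν'⟫_ℝ - c') ^ 2 ≤ (4 * R0) ^ 2 := by
          rw [← sq_abs]
          exact pow_le_pow_left₀ (abs_nonneg _) h2 2
        linarith
      have hc'2 : c' ^ 2 ≤ (3 * R0) ^ 2 := by
        rw [← sq_abs]
        exact pow_le_pow_left₀ (abs_nonneg _) hc' 2
      have hCB3 : CB 2 B3 (fun y => 2 * (zR R0 y * (⟪ν', y⟫_ℝ + -c') ^ 2) +
          2 * (zR R0 y * (⟪ν, y⟫_ℝ + -c) ^ 2) - cu1 4 (ht ν c y) * (zR (R0 / 2 - 1) (tang ν y) *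
            (⟪ν', tang ν y⟫_ℝ + (c * ⟪ν, ν'⟫_ℝ - c')) ^ 2)) := by
        refine ((((hq2 ν' (-c')).mulc 2).add ((hq2 ν (-c)).mulc 2)).sub
          (hcu.mul (hψ1.mono (by omega) le_rfl))).mono le_rfl ?_
        refine le_trans ?_ hB3
        rw [hν, hν', neg_sq, neg_sq, abs_of_pos (by norm_num : (0 : ℝ) < 2)]
        gcongr
      have h1 := hZu E f hfc hfs R hR3 n e he _ B3 hB3p hCB3 (H3_nonneg hν hν' hR0 hc) ?_
      · rw [← hA3, hDdef] at h1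
        have hc1 : Continuous (fun y => cu1 4 (ht ν c y) * (zR (R0 / 2 - 1) (tang ν y) *
            (⟪ν', tang ν y⟫_ℝ + (c * ⟪ν, ν'⟫_ℝ - c')) ^ 2)) :=
          hcu.smooth.continuous.mul hψ1.smooth.continuous
        have hca := (hq2 ν (-c)).smooth.continuous
        have hcb := (hq2 ν' (-c')).smooth.continuous
        have h2 : (∫ y, ⟪f y, e⟫_ℝ * (2 * (zR R0 y * (⟪ν', y⟫_ℝ + -c') ^ 2) +
            2 * (zR R0 y * (⟪ν, y⟫_ℝ + -c) ^ 2) - cu1 4 (ht ν c y) *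
            (zR (R0 / 2 - 1) (tang ν y) *
            (⟪ν', tang ν y⟫_ℝ + (c * ⟪ν, ν'⟫_ℝ - c')) ^ 2))) =
            2 * (∫ y, ⟪f y, e⟫_ℝ * (zR R0 y * (⟪ν', y⟫_ℝ + -c') ^ 2)) +
            2 * (∫ y, ⟪f y, e⟫_ℝ * (zR R0 y * (⟪ν, y⟫_ℝ + -c) ^ 2)) -
            ∫ y, ⟪f y, e⟫_ℝ * (cu1 4 (ht ν c y) * (zR (R0 / 2 - 1) (tang ν y) *
            (⟪ν', tang ν y⟫_ℝ + (c * ⟪ν, ν'⟫_ℝ - c')) ^ 2)) := by
          rw [← integral_const_mul, ← integral_const_mul,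
            ← int3 ((hI hcb).const_mul 2) ((hI hca).const_mul 2) (hI hc1)]
          congr 1
          funext y
          ring
        rw [h2, hquad, hquad] at h1
        linarith
      · intro y hy
        by_contra h
        have h3 : cu1 4 (ht ν c y) * (zR (R0 / 2 - 1) (tang ν y) *
            (⟪ν', tang ν y⟫_ℝ + (c * ⟪ν, ν'⟫_ℝ - c')) ^ 2) = 0 := by
          by_contra h4
          exact h (hsupp _ hψ1c y h4)
        have h4 : zR R0 y = 0 := by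
          by_contra h5
          exact h (hzsupp R0 le_rfl y h5)
        rw [h3, h4] at hy
        apply hy
        ring
    have hfin := num2 hc2 hC5 hC1 hC2 hK1 hA1p hA3p hMi hbν0 hbν0' hD0 hS0 hy0P hNc
      (hS' _ (K1 * S) (hψ1.mono (by omega) le_rfl) hψ1c) hU3 hηδ hδ7
    obtain ⟨σ, hσ, hg⟩ := geo hν hν' (c' := c') (by linarith : |c| ≤ R0)
    refine ⟨σ, hσ, ?_⟩
    rw [← hSdef] at hg
    calc Mi * (‖ν - σ • ν'‖ ^ 2 + (c - σ * c') ^ 2)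
        ≤ Mi * ((2 + 2 * R0 ^ 2) * S) := mul_le_mul_of_nonneg_left hg hMi.le
      _ = (2 + 2 * R0 ^ 2) * (Mi * S) := by ring
      _ ≤ (2 + 2 * R0 ^ 2) * ((8 * C5 / c2) * (2 + A3) * ((bν + D) + (bν' + D))) := by
          gcongr
      _ = (2 + 2 * R0 ^ 2) * ((8 * C5 / c2) * (2 + A3)) * ((bν + D) + (bν' + D)) := by ring
  · intro ψ hψ hψc hψs hψn
    exact hU1 ψ (CB_of_TFn hψ) ⟨hψc, fun y hy => by
      have := hψs y hy
      rwa [sub_zero] at this⟩ hψn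

end TG
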