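import Pool.Agent.TG.Stmts2

/-!
# Module PL, part 1: functions with bounded derivatives, cut-off functions (by helper95)
-/

open MeasureTheory Metric Set TrI
open scoped InnerProductSpace ContDiff

namespace TG

namespace PL

section CBs

variable {X X' F F' : Type*} [NormedAddCommGroup X] [NormedSpace ℝ X] [NormedAddCommGroup X']
  [NormedSpace ℝ X'] [NormedAddCommGroup F] [NormedSpace ℝ F] [NormedAddCommGroup F']
  [NormedSpace ℝ F'] {J : ℕ} {N : ℝ}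

/-- all derivatives of order at most J are bounded by N -/
structure CB (J : ℕ) (N : ℝ) (g : X → F) : Prop where
  smooth : ContDiff ℝ J g
  bd : ∀ j ≤ J, ∀ x, ‖iteratedFDeriv ℝ j g x‖ ≤ N

lemma CB.nonneg {g : X → F} (h : CB J N g) : 0 ≤ N :=
  (norm_nonneg _).trans (h.bd 0 (Nat.zero_le _) 0)

lemma CB.mono {g : X → F} (h : CB J N g) {J' : ℕ} {N' : ℝ} (hJ : J' ≤ J) (hN : N ≤ N') :
    CB J' N' g :=
  ⟨h.smooth.of_le (by exact_mod_cast hJ), fun j hj x => (h.bd j (hj.trans hJ) x).trans hN⟩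

lemma CB.norm_le {g : X → F} (h : CB J N g) (x : X) : ‖g x‖ ≤ N := by
  have := h.bd 0 (Nat.zero_le _) x
  rwa [norm_iteratedFDeriv_zero] at this

lemma CB.add {f g : X → F} {N' : ℝ} (hf : CB J N f) (hg : CB J N' g) :
    CB J (N + N') (fun x => f x + g x) := by
  refine ⟨hf.smooth.add hg.smooth, fun j hj x => ?_⟩
  have e : (fun x => f x + g x) = f + g := rfl
  rw [e, iteratedFDeriv_add_apply (hf.smooth.contDiffAt.of_le (by exact_mod_cast hj))
    (hg.smooth.contDiffAt.of_le (by exact_mod_cast hj))]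
  exact (norm_add_le _ _).trans (add_le_add (hf.bd j hj x) (hg.bd j hj x))

lemma CB.neg {f : X → F} (hf : CB J N f) : CB J N (fun x => -f x) := by
  refine ⟨hf.smooth.neg, fun j hj x => ?_⟩
  have e : (fun x => -f x) = -f := rfl
  rw [e, iteratedFDeriv_neg_apply, norm_neg]
  exact hf.bd j hj x

lemma CB.sub {f g : X → F} {N' : ℝ} (hf : CB J N f) (hg : CB J N' g) :
    CB J (N + N') (fun x => f x - g x) := by
  have := hf.add hg.neg
  simpa only [sub_eq_add_neg] using this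

lemma CB.smul {f : X → F} (c : ℝ) (hf : CB J N f) : CB J (|c| * N) (fun x => c • f x) := by
  refine ⟨hf.smooth.const_smul c, fun j hj x => ?_⟩
  rw [iteratedFDeriv_const_smul_apply' (hf.smooth.contDiffAt.of_le (by exact_mod_cast hj)),
    norm_smul, Real.norm_eq_abs]
  exact mul_le_mul_of_nonneg_left (hf.bd j hj x) (abs_nonneg _)

lemma CB.mulc {f : X → ℝ} (c : ℝ) (hf : CB J N f) : CB J (|c| * N) (fun x => c * f x) := by
  simpa only [smul_eq_mul] using hf.smul c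

lemma CB.mul {f g : X → ℝ} {N' : ℝ} (hf : CB J N f) (hg : CB J N' g) :
    CB J (2 ^ J * (N * N')) (fun x => f x * g x) := by
  refine ⟨hf.smooth.mul hg.smooth, fun j hj x => ?_⟩
  have h1 := norm_iteratedFDeriv_mul_le hf.smooth hg.smooth x (n := j) (by exact_mod_cast hj)
  refine h1.trans ?_
  have hN := hf.nonneg
  have hN' := hg.nonneg
  calc ∑ i ∈ Finset.range (j + 1), (j.choose i : ℝ) * ‖iteratedFDeriv ℝ i f x‖ *
        ‖iteratedFDeriv ℝ (j - i) g x‖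
      ≤ ∑ i ∈ Finset.range (j + 1), (j.choose i : ℝ) * (N * N') := by
        refine Finset.sum_le_sum fun i hi => ?_
        have hi' := Finset.mem_range.mp hi
        rw [mul_assoc]
        refine mul_le_mul_of_nonneg_left ?_ (Nat.cast_nonneg _)
        exact mul_le_mul (hf.bd i (by omega) x) (hg.bd (j - i) (by omega) x) (norm_nonneg _) hN
    _ = 2 ^ j * (N * N') := by
        rw [← Finset.sum_mul]
        congr 1
        exact_mod_cast Nat.sum_range_choose j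
    _ ≤ 2 ^ J * (N * N') := by
        refine mul_le_mul_of_nonneg_right ?_ (by positivity)
        exact pow_le_pow_right₀ (by norm_num) hj

lemma CB.comp_right {g : X → F} (hg : CB J N g) (A : X' →L[ℝ] X) (hA : ‖A‖ ≤ 1) :
    CB J N (fun x => g (A x)) := by
  refine ⟨hg.smooth.comp A.contDiff, fun j hj x => ?_⟩
  have e : (fun x => g (A x)) = g ∘ A := rfl
  rw [e, A.iteratedFDeriv_comp_right hg.smooth x (by exact_mod_cast hj)]
  refine (ContinuousMultilinearMap.norm_compContinuousLinearMap_le _ _).trans ?_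
  rw [Finset.prod_const, Finset.card_univ, Fintype.card_fin]
  have h1 : ‖A‖ ^ j ≤ 1 := pow_le_one₀ (norm_nonneg _) hA
  have h2 := hg.bd j hj (A x)
  have h3 : 0 ≤ ‖A‖ ^ j := by positivity
  have h4 := norm_nonneg (iteratedFDeriv ℝ j g (A x))
  nlinarith

lemma CB.comp_left {g : X → F} (hg : CB J N g) (A : F →L[ℝ] F') :
    CB J (‖A‖ * N) (fun x => A (g x)) := by
  refine ⟨A.contDiff.comp hg.smooth, fun j hj x => ?_⟩
  have e : (fun x => A (g x)) = A ∘ g := rfl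
  rw [e]
  refine (A.norm_iteratedFDeriv_comp_left hg.smooth.contDiffAt (by exact_mod_cast hj)).trans ?_
  exact mul_le_mul_of_nonneg_left (hg.bd j hj x) (norm_nonneg _)

lemma CB.comp_subc {g : X → F} (hg : CB J N g) (a : X) : CB J N (fun x => g (x - a)) := by
  refine ⟨hg.smooth.comp (contDiff_id.sub contDiff_const), fun j hj x => ?_⟩
  rw [iteratedFDeriv_comp_sub]
  exact hg.bd j hj _

lemma CB.of_compact {g : X → F} (hg : ContDiff ℝ ∞ g) (hs : HasCompactSupport g) (J : ℕ) :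
    ∃ K : ℝ, 0 < K ∧ CB J K g := by
  have h1 : ∀ j : ℕ, ∃ C : ℝ, 0 ≤ C ∧ ∀ x, ‖iteratedFDeriv ℝ j g x‖ ≤ C := by
    intro j
    obtain ⟨C, hC⟩ := (hg.continuous_iteratedFDeriv (m := j)
      (by exact_mod_cast le_top)).bounded_above_of_compact_support (hs.iteratedFDeriv j)
    exact ⟨max C 0, le_max_right _ _, fun x => (hC x).trans (le_max_left _ _)⟩
  choose C hC0 hC using h1
  refine ⟨(∑ j ∈ Finset.range (J + 1), C j) + 1, ?_, hg.of_le (by exact_mod_cast le_top), ?_⟩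
  · have := Finset.sum_nonneg (s := Finset.range (J + 1)) (f := C) fun j _ => hC0 j
    linarith
  · intro j hj x
    have h2 : C j ≤ ∑ j ∈ Finset.range (J + 1), C j :=
      Finset.single_le_sum (f := C) (fun j _ => hC0 j) (Finset.mem_range.mpr (by omega))
    linarith [hC j x]

end CBs

variable {d : ℕ}

lemma CB_of_TFn {F : Type*} [NormedAddCommGroup F] [NormedSpace ℝ F] {J : ℕ} {N : ℝ}
    {g : Sp d → F} (h : TFn J N g) : CB J N g := ⟨h.smooth, h.bd⟩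

lemma TFn_of_CB {F : Type*} [NormedAddCommGroup F] [NormedSpace ℝ F] {J : ℕ} {N : ℝ}
    {g : Sp d → F} (h : CB J N g) : TFn J N g := ⟨h.smooth, h.bd⟩

/-! ### cut-off functions -/

lemma zR_nonneg (R : ℝ) (x : Sp d) : 0 ≤ zR R x := Real.smoothTransition.nonneg _

lemma zR_le_one (R : ℝ) (x : Sp d) : zR R x ≤ 1 := Real.smoothTransition.le_one _

lemma zR_one {R : ℝ} {x : Sp d} (h : ‖x‖ ≤ R) : zR R x = 1 :=
  Real.smoothTransition.one_of_one_le (by linarith)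

lemma zR_zero {R : ℝ} {x : Sp d} (h : R + 1 ≤ ‖x‖) : zR R x = 0 :=
  Real.smoothTransition.zero_of_nonpos (by linarith)

lemma norm_lt_of_zR {R : ℝ} {x : Sp d} (h : zR R x ≠ 0) : ‖x‖ < R + 1 := by
  by_contra h1
  exact h (zR_zero (not_lt.mp h1))

lemma zR_cd {R : ℝ} (hR : 0 < R) : ContDiff ℝ ∞ (zR R : Sp d → ℝ) := by
  rw [contDiff_iff_contDiffAt]
  intro x
  by_cases hx : x = 0
  · subst hx
    have h1 : (zR R : Sp d → ℝ) =ᶠ[nhds 0] fun _ => 1 := by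
      filter_upwards [Metric.ball_mem_nhds (0 : Sp d) hR] with y hy
      exact zR_one (by simpa using (mem_ball_zero_iff.mp hy).le)
    exact contDiffAt_const.congr_of_eventuallyEq h1
  · have h1 : ContDiffAt ℝ ∞ (fun y : Sp d => R + 1 - ‖y‖) x :=
      contDiffAt_const.sub (contDiffAt_norm ℝ hx)
    exact (Real.smoothTransition.contDiff (n := ⊤)).contDiffAt.comp x h1

lemma zR_cs (R : ℝ) : HasCompactSupport (zR R : Sp d → ℝ) := by
  refine HasCompactSupport.intro (isCompact_closedBall (0 : Sp d) (R + 1)) fun x hx => ?_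
  rw [mem_closedBall_zero_iff, not_le] at hx
  exact zR_zero hx.le

lemma cu1_nonneg (ρ z : ℝ) : 0 ≤ cu1 ρ z := Real.smoothTransition.nonneg _

lemma cu1_le_one (ρ z : ℝ) : cu1 ρ z ≤ 1 := Real.smoothTransition.le_one _

lemma cu1_one {ρ z : ℝ} (h : |z| ≤ ρ) : cu1 ρ z = 1 :=
  Real.smoothTransition.one_of_one_le (by linarith)

lemma cu1_zero {ρ z : ℝ} (h : ρ + 1 ≤ |z|) : cu1 ρ z = 0 :=
  Real.smoothTransition.zero_of_nonpos (by linarith)

lemma abs_lt_of_cu1 {ρ z : ℝ} (h : cu1 ρ z ≠ 0) : |z| < ρ + 1 := by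
  by_contra h1
  exact h (cu1_zero (not_lt.mp h1))

lemma cu1_cd {ρ : ℝ} (hρ : 0 < ρ) : ContDiff ℝ ∞ (cu1 ρ) := by
  rw [contDiff_iff_contDiffAt]
  intro x
  by_cases hx : x = 0
  · subst hx
    have h1 : cu1 ρ =ᶠ[nhds 0] fun _ => 1 := by
      filter_upwards [Metric.ball_mem_nhds (0 : ℝ) hρ] with y hy
      exact cu1_one (by simpa using (mem_ball_zero_iff.mp hy).le)
    exact contDiffAt_const.congr_of_eventuallyEq h1
  · have h1 : ContDiffAt ℝ ∞ (fun y : ℝ => ρ + 1 - |y|) x := by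
      have : ContDiffAt ℝ ∞ (fun y : ℝ => ‖y‖) x := contDiffAt_norm ℝ hx
      simpa only [Real.norm_eq_abs] using contDiffAt_const.sub this
    exact (Real.smoothTransition.contDiff (n := ⊤)).contDiffAt.comp x h1

lemma cu1_cs (ρ : ℝ) : HasCompactSupport (cu1 ρ) := by
  refine HasCompactSupport.intro (isCompact_closedBall (0 : ℝ) (ρ + 1)) fun x hx => ?_
  rw [mem_closedBall_zero_iff, not_le, Real.norm_eq_abs] at hx
  exact cu1_zero hx.le

/-- the cut-off in the height -/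
lemma cut_CB (J : ℕ) {ρ : ℝ} (hρ : 0 < ρ) : ∃ K : ℝ, 0 < K ∧ ∀ (d : ℕ) (ν : Sp d) (c : ℝ),
    ‖ν‖ = 1 → CB J K (fun y => cu1 ρ (ht ν c y)) := by
  obtain ⟨K, hK, h⟩ := CB.of_compact (cu1_cd hρ) (cu1_cs ρ) J
  refine ⟨K, hK, fun d ν c hν => ?_⟩
  have h1 := (h.comp_subc c).comp_right (innerSL ℝ ν) (by rw [innerSL_apply_norm, hν])
  exact h1

/-! ### tangential part -/

/-- tang as a linear map -/
noncomputable def tangL (ν : Sp d) : Sp d →L[ℝ] Sp d :=
  ContinuousLinearMap.id ℝ (Sp d) - (innerSL ℝ ν).smulRight ν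

lemma tangL_apply (ν y : Sp d) : tangL ν y = tang ν y := by
  simp [tangL, tang, innerSL_apply_apply]

lemma inner_tang {ν : Sp d} (hν : ‖ν‖ = 1) (y : Sp d) : ⟪ν, tang ν y⟫_ℝ = 0 := by
  unfold tang
  rw [inner_sub_right, inner_smul_right, real_inner_self_eq_norm_sq, hν]
  ring

lemma norm_tang_sq {ν : Sp d} (hν : ‖ν‖ = 1) (y : Sp d) :
    ‖y‖ ^ 2 = ‖tang ν y‖ ^ 2 + ⟪ν, y⟫_ℝ ^ 2 := by
  have h1 : y = tang ν y + ⟪ν, y⟫_ℝ • ν := by unfold tang; abel
  have h0 : ⟪tang ν y, ν⟫_ℝ = 0 := by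
    have h := inner_tang hν y
    rwa [real_inner_comm] at h
  have h2 : ⟪tang ν y, ⟪ν, y⟫_ℝ • ν⟫_ℝ = 0 := by
    rw [inner_smul_right, h0, mul_zero]
  have h3 := norm_add_sq_eq_norm_sq_add_norm_sq_real h2
  rw [← h1, norm_smul, hν, Real.norm_eq_abs] at h3
  have h4 : |⟪ν, y⟫_ℝ| * |⟪ν, y⟫_ℝ| = ⟪ν, y⟫_ℝ ^ 2 := by rw [abs_mul_abs_self]; ring
  nlinarith

lemma norm_tang_le {ν : Sp d} (hν : ‖ν‖ = 1) (y : Sp d) : ‖tang ν y‖ ≤ ‖y‖ := by
  have := norm_tang_sq hν y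
  exact abs_le_of_sq_le_sq' (by nlinarith [sq_nonneg ⟪ν, y⟫_ℝ]) (norm_nonneg _) |>.2

lemma tangL_norm {ν : Sp d} (hν : ‖ν‖ = 1) : ‖tangL ν‖ ≤ 1 := by
  refine ContinuousLinearMap.opNorm_le_bound _ (by norm_num) fun y => ?_
  rw [tangL_apply, one_mul]
  exact norm_tang_le hν y

lemma tang_tang {ν : Sp d} (hν : ‖ν‖ = 1) (y : Sp d) : tang ν (tang ν y) = tang ν y := by
  conv_lhs => unfold tang
  have := inner_tang hν y
  unfold tang at this
  rw [this, zero_smul, sub_zero]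
  rfl

lemma inner_tang_left (ν w y : Sp d) (hν : ‖ν‖ = 1) :
    ⟪w, tang ν y⟫_ℝ = ⟪tang ν w, tang ν y⟫_ℝ := by
  have h1 : w = tang ν w + ⟪ν, w⟫_ℝ • ν := by unfold tang; abel
  conv_lhs => rw [h1]
  rw [inner_add_left, inner_smul_left, inner_tang hν]
  simp

/-! ### quadratic functions with cut-off -/

lemma quad_CB (d J : ℕ) {ρ : ℝ} (hρ : 0 < ρ) : ∃ K : ℝ, 0 < K ∧ ∀ (w : Sp d) (o : ℝ),
    CB J (K * (‖w‖ ^ 2 + o ^ 2)) (fun x => zR ρ x * (⟪w, x⟫_ℝ + o) ^ 2) := by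
  obtain ⟨K0, hK0, h0⟩ := CB.of_compact (zR_cd (d := d) hρ) (zR_cs ρ) J
  obtain ⟨K1, hK1, h1⟩ := CB.of_compact (zR_cd (d := d) (R := ρ + 1) (by linarith)) (zR_cs (ρ + 1)) J
  have hX : ContDiff ℝ ∞ (fun x : Sp d => zR (ρ + 1) x • x) :=
    (zR_cd (by linarith)).smul contDiff_id
  have hXs : HasCompactSupport (fun x : Sp d => zR (ρ + 1) x • x) :=
    (zR_cs (d := d) (ρ + 1)).smul_right
  obtain ⟨K2, hK2, h2⟩ := CB.of_compact hX hXs J
  refine ⟨2 ^ J * (K0 * (2 ^ J * (2 * (K1 + K2) ^ 2))), by positivity, fun w o => ?_⟩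
  have h3 : CB J (‖innerSL ℝ w‖ * K2 + |o| * K1)
      (fun x : Sp d => (innerSL ℝ w) (zR (ρ + 1) x • x) + o * zR (ρ + 1) x) :=
    (h2.comp_left (innerSL ℝ w)).add (h1.mulc o)
  have h4 := h0.mul (h3.mul h3)
  have e : (fun x : Sp d => zR ρ x * (((innerSL ℝ w) (zR (ρ + 1) x • x) + o * zR (ρ + 1) x) *
      ((innerSL ℝ w) (zR (ρ + 1) x • x) + o * zR (ρ + 1) x))) =
      fun x => zR ρ x * (⟪w, x⟫_ℝ + o) ^ 2 := by
    funext x
    by_cases hx : zR ρ x = 0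
    · rw [hx, zero_mul, zero_mul]
    · have hx1 : zR (ρ + 1) x = 1 := zR_one (norm_lt_of_zR hx).le
      rw [hx1, one_smul, innerSL_apply_apply]
      ring
  rw [e] at h4
  refine h4.mono le_rfl ?_
  rw [innerSL_apply_norm]
  have hw := norm_nonneg w
  have ho := abs_nonneg o
  have h5 : (‖w‖ * K2 + |o| * K1) * (‖w‖ * K2 + |o| * K1) ≤
      2 * (K1 + K2) ^ 2 * (‖w‖ ^ 2 + o ^ 2) := by
    have h6 : ‖w‖ * K2 + |o| * K1 ≤ (K1 + K2) * (‖w‖ + |o|) := by nlinarith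
    have h7 : 0 ≤ ‖w‖ * K2 + |o| * K1 := by positivity
    have h8 : (‖w‖ + |o|) ^ 2 ≤ 2 * (‖w‖ ^ 2 + o ^ 2) := by
      have : |o| ^ 2 = o ^ 2 := sq_abs o
      nlinarith [sq_nonneg (‖w‖ - |o|)]
    have h9 : (‖w‖ * K2 + |o| * K1) * (‖w‖ * K2 + |o| * K1) ≤
        ((K1 + K2) * (‖w‖ + |o|)) * ((K1 + K2) * (‖w‖ + |o|)) :=
      mul_le_mul h6 h6 h7 (by positivity)
    have h10 : 0 ≤ (K1 + K2) ^ 2 := by positivity
    nlinarith
  calc 2 ^ J * (K0 * (2 ^ J * ((‖w‖ * K2 + |o| * K1) * (‖w‖ * K2 + |o| * K1))))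
      ≤ 2 ^ J * (K0 * (2 ^ J * (2 * (K1 + K2) ^ 2 * (‖w‖ ^ 2 + o ^ 2)))) := by
        gcongr
    _ = _ := by ring

end PL

end TG
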