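import Pool.Agent.TG.AvBasic

/-!
# Module PO: potential inequality (3.1)
-/

open MeasureTheory Metric Set TrI
open scoped InnerProductSpace ContDiff

namespace TG

noncomputable section

variable {d : ℕ}

/-! ## facts on v -/

/-- the facts on v which are used here -/
structure VF (C : ℝ) (μ : Measure (Sp d)) : Prop where
  C1 : 1 ≤ C
  pos : ∀ (t : ℝ) (x : Sp d), 0 < t → 0 < vv μ t x
  le : ∀ (t : ℝ) (x : Sp d), 0 < t → vv μ t x ≤ C
  harn : ∀ (t : ℝ) (x x' : Sp d), 0 < t → ‖x' - x‖ ≤ t → vv μ t x' ≤ C * vv μ t x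
  scale : ∀ (s t : ℝ) (x : Sp d), 0 < t → t / 8 ≤ s → s ≤ 8 * t → vv μ s x ≤ C * vv μ t x
  cont : ∀ t : ℝ, 0 < t → Continuous (vv μ t)
  second : ∀ (t : ℝ) (x h : Sp d), 0 < t → ‖h‖ ≤ t →
    |vv μ t (x + h) + vv μ t (x - h) - 2 * vv μ t x| ≤ C * (‖h‖ / t) ^ 2 * vv μ t x

/-- second differences -/
lemma second_diff {V : ℝ × Sp d → ℝ} (hV : ContDiffOn ℝ ∞ V {p | 0 < p.1}) {t K : ℝ} (ht : 0 < t)
    {x h : Sp d}
    (hK : ∀ z, ‖z - x‖ ≤ ‖h‖ → ‖iteratedFDeriv ℝ 2 V (t, z)‖ ≤ K) :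
    |V (t, x + h) + V (t, x - h) - 2 * V (t, x)| ≤ 2 * K * ‖h‖ ^ 2 := by
  have hU : IsOpen {p : ℝ × Sp d | 0 < p.1} := isOpen_lt continuous_const continuous_fst
  have hat : ∀ z : Sp d, ContDiffAt ℝ ∞ V (t, z) := fun z =>
    hV.contDiffAt (hU.mem_nhds ht)
  have hd1 : ∀ z : Sp d, HasFDerivAt V (fderiv ℝ V (t, z)) (t, z) := fun z =>
    ((hat z).differentiableAt (by simp)).hasFDerivAt
  have hd2 : ∀ z : Sp d, HasFDerivAt (fderiv ℝ V) (fderiv ℝ (fderiv ℝ V) (t, z)) (t, z) := by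
    intro z
    have h1 : ContDiffAt ℝ 1 (fderiv ℝ V) (t, z) := (hat z).fderiv_right (m := 1) (by
      have : (1 : WithTop ℕ∞) + 1 = ((2 : ℕ∞) : WithTop ℕ∞) := by norm_num
      rw [this]
      exact_mod_cast le_top)
    exact (h1.differentiableAt (by simp)).hasFDerivAt
  have hn2 : ∀ z : Sp d, ‖z - x‖ ≤ ‖h‖ → ‖fderiv ℝ (fderiv ℝ V) (t, z)‖ ≤ K := by
    intro z hz
    have h1 := hK z hz
    rw [← norm_iteratedFDeriv_fderiv, norm_iteratedFDeriv_one] at h1
    exact h1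
  have hK0 : 0 ≤ K := (norm_nonneg _).trans (hK x (by simp))
  set G : Sp d → (ℝ × Sp d →L[ℝ] ℝ) := fun z => fderiv ℝ V (t, z) with hG
  have hGl : ∀ a b : Sp d, ‖a - x‖ ≤ ‖h‖ → ‖b - x‖ ≤ ‖h‖ → ‖G a - G b‖ ≤ K * ‖a - b‖ := by
    intro a b ha hb
    refine Convex.norm_image_sub_le_of_norm_hasFDerivWithin_le (s := closedBall x ‖h‖)
      (f' := fun z => (fderiv ℝ (fderiv ℝ V) (t, z)).comp (ContinuousLinearMap.inr ℝ ℝ (Sp d)))
      ?_ ?_ (convex_closedBall _ _) ?_ ?_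
    · intro z _
      have h1 : HasFDerivAt (fun z : Sp d => ((t, z) : ℝ × Sp d))
          (ContinuousLinearMap.inr ℝ ℝ (Sp d)) z := hasFDerivAt_prodMk_right t z
      exact ((hd2 z).comp z h1).hasFDerivWithinAt
    · intro z hz
      rw [mem_closedBall, dist_eq_norm] at hz
      refine (ContinuousLinearMap.opNorm_comp_le _ _).trans ?_
      have h1 := ContinuousLinearMap.norm_inr_le_one ℝ ℝ (Sp d)
      calc _ ≤ K * 1 := mul_le_mul (hn2 z hz) h1 (norm_nonneg _) hK0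
        _ = K := mul_one K
    · rw [mem_closedBall, dist_eq_norm]; exact hb
    · rw [mem_closedBall, dist_eq_norm]; exact ha
  -- the function of one variable
  set φ : ℝ → ℝ := fun τ => V (t, x + τ • h) + V (t, x - τ • h) with hφ
  have hφ' : ∀ τ : ℝ, HasDerivAt φ (G (x + τ • h) (0, h) - G (x - τ • h) (0, h)) τ := by
    intro τ
    have h1 : HasDerivAt (fun τ : ℝ => ((t, x + τ • h) : ℝ × Sp d)) (0, h) τ := by
      refine (hasDerivAt_const τ t).prodMk ?_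
      have := ((hasDerivAt_id τ).smul_const h).const_add x
      simpa using this
    have h2 : HasDerivAt (fun τ : ℝ => ((t, x - τ • h) : ℝ × Sp d)) (0, -h) τ := by
      refine (hasDerivAt_const τ t).prodMk ?_
      have := ((hasDerivAt_id τ).smul_const h).const_sub x
      simpa using this
    have h3 := (hd1 (x + τ • h)).comp_hasDerivAt τ h1
    have h4 := (hd1 (x - τ • h)).comp_hasDerivAt τ h2
    have h5 := h3.add h4
    have h6 : (fderiv ℝ V (t, x - τ • h)) ((0 : ℝ), -h) = - (fderiv ℝ V (t, x - τ • h)) (0, h) := by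
      rw [← map_neg]; simp
    rw [h6, ← sub_eq_add_neg] at h5
    exact h5
  have hb : ∀ τ ∈ Icc (0 : ℝ) 1, ‖G (x + τ • h) (0, h) - G (x - τ • h) (0, h)‖ ≤
      2 * K * ‖h‖ ^ 2 := by
    intro τ hτ
    have hτh : ‖τ • h‖ ≤ ‖h‖ := by
      rw [norm_smul, Real.norm_eq_abs, abs_of_nonneg hτ.1]
      nlinarith [hτ.2, norm_nonneg h]
    have h1 := hGl (x + τ • h) (x - τ • h) (by simpa using hτh) (by simpa using hτh)
    have h2 : ‖(x + τ • h) - (x - τ • h)‖ ≤ 2 * ‖h‖ := by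
      have : (x + τ • h) - (x - τ • h) = τ • h + τ • h := by abel
      rw [this]
      refine (norm_add_le _ _).trans ?_
      linarith
    rw [← sub_apply]
    refine (ContinuousLinearMap.le_opNorm _ _).trans ?_
    have h3 : ‖((0 : ℝ), h)‖ = ‖h‖ := by
      rw [Prod.norm_def]; simp
    rw [h3]
    calc _ ≤ (K * (2 * ‖h‖)) * ‖h‖ := by
          refine mul_le_mul_of_nonneg_right (h1.trans ?_) (norm_nonneg _)
          exact mul_le_mul_of_nonneg_left h2 hK0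
      _ = _ := by ring
  have h7 := Convex.norm_image_sub_le_of_norm_hasDerivWithin_le (s := Icc (0 : ℝ) 1) (f := φ)
    (fun τ _ => (hφ' τ).hasDerivWithinAt) hb (convex_Icc 0 1)
    (left_mem_Icc.2 zero_le_one) (right_mem_Icc.2 zero_le_one)
  have h8 : φ 1 - φ 0 = V (t, x + h) + V (t, x - h) - 2 * V (t, x) := by
    simp only [hφ, one_smul, zero_smul, add_zero, sub_zero]
    ring
  rw [h8] at h7
  simpa using h7

lemma sqrt_le_of_mul {a b K : ℝ} (hK : 1 ≤ K) (h : a ≤ K * b) (hb : 0 ≤ b) :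
    Real.sqrt a ≤ K * Real.sqrt b := by
  have h1 : Real.sqrt a ≤ Real.sqrt (K ^ 2 * b) := by
    refine Real.sqrt_le_sqrt (h.trans ?_)
    have : K ≤ K ^ 2 := by nlinarith
    exact mul_le_mul_of_nonneg_right this hb
  rwa [Real.sqrt_mul (by positivity), Real.sqrt_sq (by linarith)] at h1

lemma vf_of_th (h : StmtTH) (hd : 2 ≤ d) {C' : ℝ} (hC' : 0 < C') :
    ∃ C : ℝ, ∀ μ : Measure (Sp d), Gro C' μ → VF C μ := by
  obtain ⟨C0, hC0, H⟩ := h d 2 hd C' hC'
  have h2d : (1 : ℝ) ≤ 2 ^ d := one_le_pow₀ (by norm_num)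
  have hA : C0 + 1 ≤ 2 * (C0 + 1) * 2 ^ d := by nlinarith
  have hB : (2 : ℝ) ^ d ≤ 2 * (C0 + 1) * 2 ^ d := by nlinarith
  refine ⟨2 * (C0 + 1) * 2 ^ d, fun μ hμ => ?_⟩
  obtain ⟨h1, h2, h3, h4, h5⟩ := H μ hμ
  have hpos : ∀ (t : ℝ) (x : Sp d), 0 < t → 0 < vv μ t x := fun t x ht =>
    Real.sqrt_pos.2 (h1 t x ht).1
  have harn : ∀ (t : ℝ) (x x' : Sp d), 0 < t → ‖x' - x‖ ≤ t → vv μ t x' ≤ 2 ^ d * vv μ t x := by
    intro t x x' ht hx
    refine sqrt_le_of_mul h2d ?_ (h1 t x ht).1.le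
    refine (h4 t x x' ht).trans ?_
    refine mul_le_mul_of_nonneg_right ?_ (h1 t x ht).1.le
    refine pow_le_pow_left₀ (by positivity) ?_ d
    have : ‖x - x'‖ / t ≤ 1 := by
      rw [div_le_one ht, norm_sub_rev]; exact hx
    linarith
  refine ⟨by linarith, hpos, ?_, ?_, ?_, ?_, ?_⟩
  · intro t x ht
    refine le_trans ?_ hA
    unfold vv
    rw [Real.sqrt_le_left (by linarith)]
    nlinarith [(h1 t x ht).2]
  · intro t x x' ht hx
    refine (harn t x x' ht hx).trans ?_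
    exact mul_le_mul_of_nonneg_right hB (hpos t x ht).le
  · intro s t x ht hs1 hs2
    have h6 : vv μ s x ≤ (C0 + 1) * vv μ t x := by
      refine sqrt_le_of_mul (by linarith) ((h5 s t x ht hs1 hs2).trans ?_) (h1 t x ht).1.le
      exact mul_le_mul_of_nonneg_right (by linarith) (h1 t x ht).1.le
    exact h6.trans (mul_le_mul_of_nonneg_right hA (hpos t x ht).le)
  · intro t ht
    have h6 : ContinuousOn (fun p : ℝ × Sp d => vv μ p.1 p.2) {p | 0 < p.1} := h2.continuousOn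
    exact h6.comp_continuous (f := fun x : Sp d => (t, x)) (by fun_prop) (fun _ => ht)
  · intro t x k ht hk
    have h6 := second_diff (x := x) (h := k) h2 ht (K := C0 * (2 ^ d * vv μ t x) / t ^ 2) (by
      intro z hz
      refine (h3 t z 2 ht le_rfl).trans ?_
      have := harn t x z ht (hz.trans hk)
      gcongr)
    refine h6.trans ?_
    have hv := (hpos t x ht).le
    calc 2 * (C0 * (2 ^ d * vv μ t x) / t ^ 2) * ‖k‖ ^ 2
        = (2 * C0 * 2 ^ d) * (‖k‖ / t) ^ 2 * vv μ t x := by ring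
      _ ≤ (2 * (C0 + 1) * 2 ^ d) * (‖k‖ / t) ^ 2 * vv μ t x := by gcongr; linarith

section VFfacts

variable {C : ℝ} {μ : Measure (Sp d)} {ψ : Sp d → ℝ}

lemma VF.LBv (hv : VF C μ) {t : ℝ} (ht : 0 < t) : LB (vv μ t) := LB.of_cont (hv.cont t ht)

lemma VF.C0 (hv : VF C μ) : 0 ≤ C := zero_le_one.trans hv.C1

/-- averages of functions which are small compared to v -/
lemma VF.avk_bound (hv : VF C μ) (hψ : GK ψ) {g : Sp d → ℝ} {t A σ : ℝ} (ht : 0 < t)
    (hσ : |σ| ≤ t) (hA : 0 ≤ A) (hg : ∀ z, |g z| ≤ A * vv μ t z) (x : Sp d) :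
    |avk ψ σ g x| ≤ A * C * vv μ t x := by
  refine hψ.norm_avk_le_of_bound (F := ℝ) fun z hz => ?_
  rw [Real.norm_eq_abs]
  refine (hg z).trans ?_
  rw [mul_assoc]
  exact mul_le_mul_of_nonneg_left (hv.harn t x z ht (hz.trans hσ)) hA

/-- averages of v at small scales -/
lemma VF.avk_sub_le (hv : VF C μ) (hψ : GK ψ) {t σ : ℝ} (ht : 0 < t) (hσ : |σ| ≤ t) (x : Sp d) :
    |avk ψ σ (vv μ t) x - vv μ t x| ≤ C * (σ / t) ^ 2 * vv μ t x := by
  have hL := hv.LBv ht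
  have hi1 := hψ.avk_integrable' hL σ x
  have hi2 : Integrable (fun y => ψ y • vv μ t (x - σ • y)) := by
    have := hi1.comp_neg
    refine this.congr (Filter.Eventually.of_forall fun y => ?_)
    simp only [hψ.even, smul_neg, sub_eq_add_neg]
  have e1 : avk ψ σ (vv μ t) x = ∫ y, ψ y • vv μ t (x - σ • y) := by
    rw [avkA_def, ← integral_neg_eq_self]
    congr 1
    ext y
    rw [hψ.even, smul_neg, sub_eq_add_neg]
  have e2 : avk ψ σ (vv μ t) x - vv μ t x =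
      1 / 2 * ∫ y, ψ y * (vv μ t (x + σ • y) + vv μ t (x - σ • y) - 2 * vv μ t x) := by
    have e3 : (fun y => ψ y * (vv μ t (x + σ • y) + vv μ t (x - σ • y) - 2 * vv μ t x)) =
        fun y => ψ y • vv μ t (x + σ • y) + ψ y • vv μ t (x - σ • y)
          - ψ y * (2 * vv μ t x) := by
      ext y
      simp only [smul_eq_mul]
      ring
    have hi3 : Integrable (fun y => ψ y * (2 * vv μ t x)) := hψ.integrable.mul_const _
    have i1 : ∫ y, (ψ y • vv μ t (x + σ • y) + ψ y • vv μ t (x - σ • y)) =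
        (∫ y, ψ y • vv μ t (x + σ • y)) + ∫ y, ψ y • vv μ t (x - σ • y) := integral_add hi1 hi2
    have i2 : ∫ y, (ψ y • vv μ t (x + σ • y) + ψ y • vv μ t (x - σ • y)
          - ψ y * (2 * vv μ t x)) =
        (∫ y, (ψ y • vv μ t (x + σ • y) + ψ y • vv μ t (x - σ • y)))
          - ∫ y, ψ y * (2 * vv μ t x) := integral_sub (hi1.add hi2) hi3
    rw [e3, i2, i1, ← e1, integral_mul_const, hψ.int, ← avkA_def]
    ring
  have h3 : |∫ y, ψ y * (vv μ t (x + σ • y) + vv μ t (x - σ • y) - 2 * vv μ t x)| ≤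
      ∫ y, ψ y * (C * (σ / t) ^ 2 * vv μ t x) := by
    rw [← Real.norm_eq_abs]
    refine norm_integral_le_of_norm_le (hψ.integrable.mul_const _) ?_
    refine Filter.Eventually.of_forall fun y => ?_
    rw [norm_mul, Real.norm_eq_abs, Real.norm_eq_abs, abs_of_nonneg (hψ.nonneg y)]
    by_cases hy : 1 ≤ ‖y‖
    · rw [hψ.supp y hy]; simp
    push Not at hy
    have hσy : ‖σ • y‖ ≤ |σ| := by
      rw [norm_smul, Real.norm_eq_abs]
      nlinarith [abs_nonneg σ, norm_nonneg y]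
    refine mul_le_mul_of_nonneg_left ?_ (hψ.nonneg y)
    refine (hv.second t x (σ • y) ht (hσy.trans hσ)).trans ?_
    have h4 : (‖σ • y‖ / t) ^ 2 ≤ (σ / t) ^ 2 := by
      rw [← sq_abs (σ / t), abs_div, abs_of_pos ht]
      gcongr
    have := hv.C0
    have := (hv.pos t x ht).le
    gcongr
  rw [integral_mul_const, hψ.int, one_mul] at h3
  rw [e2, abs_mul]
  have : (0 : ℝ) ≤ C * (σ / t) ^ 2 * vv μ t x := (abs_nonneg _).trans h3
  rw [abs_of_pos (by norm_num : (0 : ℝ) < 1 / 2)]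
  linarith

end VFfacts

/-! ## the function gk -/

section gkFacts

variable {C ε s0 : ℝ} {μ : Measure (Sp d)} {J : ℕ} {M c : ℝ} {b : Sp d → ℝ}

lemma eps_small {ε t : ℝ} (h0 : 0 < ε) (h1 : ε ≤ 1 / 4) (ht : 0 < t) (n : ℕ) :
    (ε * t / 2 ^ n / t) ^ 2 ≤ (1 / 4) ^ (n + 1) := by
  have e1 : ε * t / 2 ^ n / t = ε / 2 ^ n := by field_simp
  have e2 : (ε / 2 ^ n) ^ 2 = ε ^ 2 * (1 / 4) ^ n := by
    rw [div_pow, ← pow_mul, mul_comm n 2, pow_mul, div_eq_mul_inv, ← inv_pow]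
    norm_num
  rw [e1, e2, pow_succ, mul_comm]
  refine mul_le_mul_of_nonneg_left ?_ (by positivity)
  nlinarith

lemma eps_abs' {ε t : ℝ} (h0 : 0 < ε) (h1 : ε ≤ 1 / 4) (ht : 0 < t) (n : ℕ) :
    |ε * t / 2 ^ n| ≤ t := by
  rw [abs_of_pos (by positivity), div_le_iff₀ (by positivity)]
  have : (1 : ℝ) ≤ 2 ^ n := one_le_pow₀ (by norm_num)
  nlinarith

lemma eps_abs {ε t : ℝ} (h0 : 0 < ε) (h1 : ε ≤ 1 / 4) (ht : 0 < t) : |ε * t| ≤ t := by
  rw [abs_of_pos (mul_pos h0 ht)]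
  nlinarith

lemma gk_inner_bound (hv : VF C μ) (hb : BaseKer J M c b) (h0 : 0 < ε) (h1 : ε ≤ 1 / 4)
    (hs0 : 0 < s0) (i : ℕ) (z : Sp d) :
    |vv μ (lev s0 i) z - 1 / 3 * avk b (ε * lev s0 (i + 1)) (vv μ (lev s0 (i + 1))) z| ≤
      (1 + C ^ 2) * vv μ (lev s0 i) z := by
  have hi := levA_pos hs0 i
  have hi1 := levA_pos hs0 (i + 1)
  have h2 := hv.avk_bound hb.gk (g := vv μ (lev s0 (i + 1))) (A := 1) hi1
    (eps_abs h0 h1 hi1) zero_le_one (fun z => by
      rw [one_mul, abs_of_pos (hv.pos _ z hi1)]) z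
  have h3 := hv.scale (lev s0 (i + 1)) (lev s0 i) z hi (by rw [levA_succ]; linarith)
    (by rw [levA_succ]; linarith)
  have h4 := hv.pos _ z hi
  have h5 := hv.C0
  refine (abs_sub _ _).trans ?_
  rw [abs_of_pos h4, abs_mul, abs_of_pos (by norm_num : (0 : ℝ) < 1 / 3)]
  have h6 : |avk b (ε * lev s0 (i + 1)) (vv μ (lev s0 (i + 1))) z| ≤
      C * (C * vv μ (lev s0 i) z) := by
    refine h2.trans ?_
    rw [one_mul]
    exact mul_le_mul_of_nonneg_left h3 h5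
  have h7 : 0 ≤ |avk b (ε * lev s0 (i + 1)) (vv μ (lev s0 (i + 1))) z| := abs_nonneg _
  nlinarith

lemma gk_bound (hv : VF C μ) (hb : BaseKer J M c b) (h0 : 0 < ε) (h1 : ε ≤ 1 / 4)
    (hs0 : 0 < s0) (i : ℕ) (hi1 : 1 ≤ i) (y : Sp d) :
    |gk b ε μ s0 i y| ≤ ((1 + C ^ 2) * C + C) * vv μ (lev s0 i) y := by
  have hi := levA_pos hs0 i
  have h2 := hv.avk_bound hb.gk (A := 1 + C ^ 2) hi (eps_abs h0 h1 hi) (by positivity)
    (gk_inner_bound hv hb h0 h1 hs0 i) y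
  have h3 : lev s0 i = 2 * lev s0 (i - 1) := by
    rw [← levA_succ, Nat.sub_add_cancel hi1]
  have hi' := levA_pos hs0 (i - 1)
  have h4 := hv.scale (lev s0 (i - 1)) (lev s0 i) y hi (by linarith) (by linarith)
  have h5 := hv.pos _ y hi'
  unfold gk
  refine (abs_sub _ _).trans ?_
  rw [abs_of_pos (by positivity : 0 < 2 / 3 * vv μ (lev s0 (i - 1)) y)]
  linarith

/-- the comparison of gk with GG -/
lemma gk_GG (hv : VF C μ) (hb : BaseKer J M c b) (h0 : 0 < ε) (h1 : ε ≤ 1 / 4)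
    (hs0 : 0 < s0) (k : ℕ) (y : Sp d) :
    |avk (KN b k) (ε * lev s0 (k + 1)) (gk b ε μ s0 (k + 2)) y
      - GG (KN b k) ε μ (lev s0 (k + 2)) y| ≤
      (C ^ 2 + 2 * C ^ 4) * (1 / 4) ^ (k + 2) * vv μ (lev s0 (k + 2)) y := by
  have ht1 := levA_pos hs0 (k + 1)
  have ht2 := levA_pos hs0 (k + 2)
  have ht3 := levA_pos hs0 (k + 3)
  have l2 : lev s0 (k + 2) = 2 * lev s0 (k + 1) := levA_succ s0 (k + 1)
  have l3 : lev s0 (k + 3) = 2 * lev s0 (k + 2) := levA_succ s0 (k + 2)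
  have hβ := hb.gkN k
  have hB := hb.gk
  set s : ℝ := ε * lev s0 (k + 1) with hs
  set t : ℝ := lev s0 (k + 2) with ht
  set T : ℝ := lev s0 (k + 3) with hT
  have e2 : ε * t = 2 * s := by rw [l2, hs]; ring
  have e3 : ε * T = 4 * s := by rw [l3, l2, hs]; ring
  have hsp : 0 < s := mul_pos h0 ht1
  have hvt := hv.LBv ht2
  have hvT := hv.LBv ht3
  have hv1 := hv.LBv ht1
  have hC := hv.C0
  -- expansion of the average of gk
  have x1 : avk (KN b k) s (gk b ε μ s0 (k + 2)) y =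
      avk (KN b k) s (avk b (2 * s) (vv μ t)) y
      - 1 / 3 * avk (KN b k) s (avk b (2 * s) (avk b (4 * s) (vv μ T))) y
      - 2 / 3 * avk (KN b k) s (vv μ (lev s0 (k + 1))) y := by
    have y1 : gk b ε μ s0 (k + 2) = fun z =>
        avk b (2 * s) (fun x => vv μ t x - 1 / 3 * avk b (4 * s) (vv μ T) x) z
        - 2 / 3 * vv μ (lev s0 (k + 1)) z := by
      ext z
      unfold gk
      simp only [show k + 2 - 1 = k + 1 from rfl, show k + 2 + 1 = k + 3 from rfl]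
      rw [← ht, ← hT, e2, e3]
    have hl1 : LB (avk b (4 * s) (vv μ T)) := hB.LBavk hvT _
    have hl2 : LB (fun x => 1 / 3 * avk b (4 * s) (vv μ T) x) := hl1.const_mul _
    rw [y1, hβ.avk_sub (hB.LBavk (hvt.sub hl2) _) (hv1.const_mul _), avk_mul]
    congr 1
    have y2 : avk b (2 * s) (fun x => vv μ t x - 1 / 3 * avk b (4 * s) (vv μ T) x) =
        fun z => avk b (2 * s) (vv μ t) z
          - 1 / 3 * avk b (2 * s) (avk b (4 * s) (vv μ T)) z := by
      ext z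
      rw [hB.avk_sub hvt hl2, avk_mul]
    rw [y2, hβ.avk_sub (hB.LBavk hvt _) ((hB.LBavk hl1 _).const_mul _), avk_mul]
  have x2 : GG (KN b k) ε μ t y = avk (KN b k) (2 * s) (vv μ t) y
      - 1 / 3 * avk (KN b k) (4 * s) (vv μ T) y
      - 2 / 3 * avk (KN b k) s (vv μ (lev s0 (k + 1))) y := by
    unfold GG
    have z1 : wv (KN b k) ε μ t y = avk (KN b k) (2 * s) (vv μ t) y := by
      rw [← e2]; rfl
    have z2 : wv (KN b k) ε μ (t / 2) y = avk (KN b k) s (vv μ (lev s0 (k + 1))) y := by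
      have : t / 2 = lev s0 (k + 1) := by rw [l2]; ring
      rw [this, hs]; rfl
    have z3 : wv (KN b k) ε μ (2 * t) y = avk (KN b k) (4 * s) (vv μ T) y := by
      rw [← e3, l3]; rfl
    rw [z1, z2, z3]
    ring
  -- first bracket
  have b1 : |avk (KN b k) s (avk b (2 * s) (vv μ t)) y - avk (KN b k) (2 * s) (vv μ t) y| ≤
      C ^ 2 * (1 / 4) ^ (k + 2) * vv μ t y := by
    have w1 : avk (KN b k) s (avk b (2 * s) (vv μ t)) =
        avk (KN b k) (2 * s) (avk b (2 * s / 2 ^ (k + 1)) (vv μ t)) := by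
      rw [← hb.avk_KN_succ' k hvt, hb.avk_KN_succ k hvt, hb.avk_KN_comm k hvt]
      congr 2
      ring
    rw [w1, ← hβ.avk_sub (hB.LBavk hvt _) hvt]
    have w2 : ∀ z, |avk b (2 * s / 2 ^ (k + 1)) (vv μ t) z - vv μ t z| ≤
        C * (1 / 4) ^ (k + 2) * vv μ t z := by
      intro z
      rw [← e2]
      refine (hv.avk_sub_le hB ht2 (eps_abs' h0 h1 ht2 _) z).trans ?_
      refine mul_le_mul_of_nonneg_right ?_ (hv.pos _ _ ht2).le
      exact mul_le_mul_of_nonneg_left (eps_small h0 h1 ht2 (k + 1)) hC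
    refine (hv.avk_bound hβ ht2 (by rw [← e2]; exact eps_abs h0 h1 ht2) (by positivity) w2
      y).trans (le_of_eq ?_)
    ring
  -- second bracket
  have b2 : |avk (KN b k) s (avk b (2 * s) (avk b (4 * s) (vv μ T))) y
      - avk (KN b k) (4 * s) (vv μ T) y| ≤
      2 * C ^ 4 * (1 / 4) ^ (k + 2) * vv μ t y := by
    have hl1 : LB (avk b (4 * s) (vv μ T)) := hB.LBavk hvT _
    have hl2 : LB (avk b (4 * s / 2 ^ (k + 2)) (vv μ T)) := hB.LBavk hvT _
    have w1 : avk (KN b k) s (avk b (2 * s) (avk b (4 * s) (vv μ T))) =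
        avk (KN b k) (4 * s) (avk b (4 * s / 2 ^ (k + 1))
          (avk b (4 * s / 2 ^ (k + 2)) (vv μ T))) := by
      rw [← hb.avk_KN_succ' k hl2, ← hb.avk_KN_succ' (k + 1) hvT, hb.avk_KN_succ (k + 1) hvT,
        hb.avk_KN_comm k hl1]
      have q1 : avk b (2 * s) (avk (KN b k) s (avk b (4 * s) (vv μ T))) =
          avk (KN b (k + 1)) (2 * s) (avk b (4 * s) (vv μ T)) := by
        rw [hb.avk_KN_succ k hl1]
        congr 2
        ring
      rw [q1, hb.avk_KN_comm (k + 1) hvT]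
      congr 2
      ring
    rw [w1, ← hβ.avk_sub (hB.LBavk hl2 _) hvT]
    have w2 : ∀ z, |avk b (4 * s / 2 ^ (k + 2)) (vv μ T) z - vv μ T z| ≤
        C * (1 / 4) ^ (k + 2) * vv μ T z := by
      intro z
      rw [← e3]
      refine (hv.avk_sub_le hB ht3 (eps_abs' h0 h1 ht3 _) z).trans ?_
      refine mul_le_mul_of_nonneg_right ?_ (hv.pos _ _ ht3).le
      refine mul_le_mul_of_nonneg_left ((eps_small h0 h1 ht3 (k + 2)).trans ?_) hC
      exact pow_le_pow_of_le_one (by norm_num) (by norm_num) (by omega)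
    have w3 : ∀ z, |avk b (4 * s / 2 ^ (k + 1)) (vv μ T) z - vv μ T z| ≤
        C * (1 / 4) ^ (k + 2) * vv μ T z := by
      intro z
      rw [← e3]
      refine (hv.avk_sub_le hB ht3 (eps_abs' h0 h1 ht3 _) z).trans ?_
      refine mul_le_mul_of_nonneg_right ?_ (hv.pos _ _ ht3).le
      exact mul_le_mul_of_nonneg_left (eps_small h0 h1 ht3 (k + 1)) hC
    have w4 : ∀ z, |avk b (4 * s / 2 ^ (k + 1)) (avk b (4 * s / 2 ^ (k + 2)) (vv μ T)) z
        - vv μ T z| ≤ (2 * C ^ 2 * (1 / 4) ^ (k + 2)) * vv μ T z := by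
      intro z
      have q2 := hv.avk_bound hB (σ := 4 * s / 2 ^ (k + 1)) ht3
        (by rw [← e3]; exact eps_abs' h0 h1 ht3 _) (by positivity) w2 z
      rw [hB.avk_sub hl2 hvT] at q2
      have q3 := w3 z
      have q4 : C * (1 / 4) ^ (k + 2) * vv μ T z ≤ C * (1 / 4) ^ (k + 2) * C * vv μ T z := by
        refine mul_le_mul_of_nonneg_right ?_ (hv.pos _ _ ht3).le
        exact le_mul_of_one_le_right (by positivity) hv.C1
      have q5 : (2 * C ^ 2 * (1 / 4) ^ (k + 2)) * vv μ T z =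
          C * (1 / 4) ^ (k + 2) * C * vv μ T z + C * (1 / 4) ^ (k + 2) * C * vv μ T z := by ring
      rw [q5]
      rw [abs_le] at q2 q3 ⊢
      constructor <;> linarith [q2.1, q2.2, q3.1, q3.2]
    have w5 := hv.avk_bound hβ (σ := 4 * s) ht3 (by rw [← e3]; exact eps_abs h0 h1 ht3)
      (by positivity) w4 y
    refine w5.trans ?_
    have w6 := hv.scale T t y ht2 (by rw [l3]; linarith) (by rw [l3]; linarith)
    calc 2 * C ^ 2 * (1 / 4) ^ (k + 2) * C * vv μ T y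
        ≤ 2 * C ^ 2 * (1 / 4) ^ (k + 2) * C * (C * vv μ t y) := by gcongr
      _ = _ := by ring
  rw [x1, x2]
  have hpos := hv.pos t y ht2
  rw [abs_le] at b1 b2 ⊢
  constructor <;> linarith [b1.1, b1.2, b2.1, b2.2]

end gkFacts

/-! ## the sum -/

section Sum

variable {C ε s0 : ℝ} {μ : Measure (Sp d)} {J : ℕ} {M c : ℝ} {b : Sp d → ℝ}
  {E : Type} [NormedAddCommGroup E] [InnerProductSpace ℝ E] [FiniteDimensional ℝ E]
  {f : Sp d → E}

/-- the integral of the field of level i -/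
def Nf (b : Sp d → ℝ) (ε s0 : ℝ) (f : Sp d → E) (i : ℕ) : ℝ := ∫ y, ‖fl b ε s0 f i y‖

/-- the integral of the field of level i against v -/
def Pf (b : Sp d → ℝ) (ε s0 : ℝ) (μ : Measure (Sp d)) (f : Sp d → E) (i : ℕ) : ℝ :=
  ∫ y, ‖fl b ε s0 f i y‖ * vv μ (lev s0 i) y

lemma int_cc {g h : Sp d → ℝ} (hg : Continuous g) (hh : Continuous h)
    (hc : HasCompactSupport g) : Integrable (fun y => g y * h y) :=
  (hg.mul hh).integrable_of_hasCompactSupport hc.mul_right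

lemma Nf_step (hb : BaseKer J M c b) (hf : Continuous f) (hc : HasCompactSupport f) (i : ℕ) :
    Nf b ε s0 f (i + 1) ≤ Nf b ε s0 f i := by
  have hF := (flA_cont hb ε s0 hf i).norm
  have hFc := (flA_cs hb ε s0 hc i).norm
  have hF1 := (flA_cont hb ε s0 hf (i + 1)).norm
  have hF1c := (flA_cs hb ε s0 hc (i + 1)).norm
  unfold Nf
  rw [← hb.gk.avk_int (hF.integrable_of_hasCompactSupport hFc) (LB.of_cont hF)
    (ε * lev s0 (i + 1))]
  refine integral_mono (hF1.integrable_of_hasCompactSupport hF1c)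
    ((hb.gk.avk_cont hF _).integrable_of_hasCompactSupport (hb.gk.avk_cs hFc _)) ?_
  intro y
  exact hb.gk.norm_avk_le _ _ y

lemma Nf_le (hb : BaseKer J M c b) (hf : Continuous f) (hc : HasCompactSupport f) (i : ℕ) :
    Nf b ε s0 f i ≤ ∫ y, ‖f y‖ := by
  induction i with
  | zero => exact le_rfl
  | succ i ih => exact (Nf_step hb hf hc i).trans ih

lemma Nf_nonneg (i : ℕ) : 0 ≤ Nf b ε s0 f i := integral_nonneg fun _ => norm_nonneg _

lemma Pf_nonneg (hv : VF C μ) (hs0 : 0 < s0) (i : ℕ) : 0 ≤ Pf b ε s0 μ f i :=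
  integral_nonneg fun y => mul_nonneg (norm_nonneg _) (hv.pos _ y (levA_pos hs0 i)).le

lemma Pf_le (hv : VF C μ) (hb : BaseKer J M c b) (hs0 : 0 < s0) (hf : Continuous f)
    (hc : HasCompactSupport f) (i : ℕ) : Pf b ε s0 μ f i ≤ C * ∫ y, ‖f y‖ := by
  have hF := (flA_cont hb ε s0 hf i).norm
  have hFc := (flA_cs hb ε s0 hc i).norm
  have hl := levA_pos hs0 i
  have h1 : Pf b ε s0 μ f i ≤ C * Nf b ε s0 f i := by
    unfold Pf Nf
    rw [← integral_const_mul]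
    refine integral_mono (int_cc hF (hv.cont _ hl) hFc)
      ((hF.integrable_of_hasCompactSupport hFc).const_mul C) ?_
    intro y
    simp only
    rw [mul_comm]
    exact mul_le_mul_of_nonneg_right (hv.le _ y hl) (norm_nonneg _)
  exact h1.trans (mul_le_mul_of_nonneg_left (Nf_le hb hf hc i) hv.C0)

lemma gk_step (hv : VF C μ) (hb : BaseKer J M c b) (hs0 : 0 < s0) (hf : Continuous f)
    (hc : HasCompactSupport f) (k : ℕ) :
    ∫ y, ‖fl b ε s0 f k y‖ * gk b ε μ s0 (k + 1) y ≤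
      Pf b ε s0 μ f (k + 1) - 1 / 3 * Pf b ε s0 μ f (k + 2) - 2 / 3 * Pf b ε s0 μ f k
        + C * (Nf b ε s0 f k - Nf b ε s0 f (k + 1)) := by
  have hB := hb.gk
  have hF0 := (flA_cont hb ε s0 hf k).norm
  have hF0c := (flA_cs hb ε s0 hc k).norm
  have hF1 := (flA_cont hb ε s0 hf (k + 1)).norm
  have hF1c := (flA_cs hb ε s0 hc (k + 1)).norm
  have hF2 := (flA_cont hb ε s0 hf (k + 2)).norm
  have hF2c := (flA_cs hb ε s0 hc (k + 2)).norm
  have hl0 := levA_pos hs0 k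
  have hl1 := levA_pos hs0 (k + 1)
  have hl2 := levA_pos hs0 (k + 2)
  have hv0 := hv.cont _ hl0
  have hv1 := hv.cont _ hl1
  have hv2 := hv.cont _ hl2
  set F0 : Sp d → ℝ := fun y => ‖fl b ε s0 f k y‖ with hF0d
  set F1 : Sp d → ℝ := fun y => ‖fl b ε s0 f (k + 1) y‖ with hF1d
  set F2 : Sp d → ℝ := fun y => ‖fl b ε s0 f (k + 2) y‖ with hF2d
  set H : Sp d → ℝ := fun x => vv μ (lev s0 (k + 1)) x
    - 1 / 3 * avk b (ε * lev s0 (k + 2)) (vv μ (lev s0 (k + 2))) x with hH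
  have hAv : Continuous (avk b (ε * lev s0 (k + 2)) (vv μ (lev s0 (k + 2)))) :=
    hB.avk_cont hv2 _
  have hHc : Continuous H := hv1.sub (continuous_const.mul hAv)
  have hAH : Continuous (avk b (ε * lev s0 (k + 1)) H) := hB.avk_cont hHc _
  have hAF : Continuous (avk b (ε * lev s0 (k + 1)) F0) := hB.avk_cont hF0 _
  have hAFc : HasCompactSupport (avk b (ε * lev s0 (k + 1)) F0) := hB.avk_cs hF0c _
  have hAF1 : Continuous (avk b (ε * lev s0 (k + 2)) F1) := hB.avk_cont hF1 _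
  have hAF1c : HasCompactSupport (avk b (ε * lev s0 (k + 2)) F1) := hB.avk_cs hF1c _
  -- the integral
  have i1 : ∫ y, F0 y * gk b ε μ s0 (k + 1) y =
      (∫ y, F0 y * avk b (ε * lev s0 (k + 1)) H y) - 2 / 3 * Pf b ε s0 μ f k := by
    have e : (fun y => F0 y * gk b ε μ s0 (k + 1) y) = fun y =>
        F0 y * avk b (ε * lev s0 (k + 1)) H y - 2 / 3 * (F0 y * vv μ (lev s0 k) y) := by
      ext y
      unfold gk
      simp only [Nat.add_sub_cancel]
      ring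
    rw [e, integral_sub (int_cc hF0 hAH hF0c) ((int_cc hF0 hv0 hF0c).const_mul _),
      integral_const_mul]
    rfl
  have i2 : ∫ y, F0 y * avk b (ε * lev s0 (k + 1)) H y =
      ∫ y, avk b (ε * lev s0 (k + 1)) F0 y * H y := by
    have := hB.avk_adj (LB.of_cont hHc) (LB.of_cont hF0) hF0c (ε * lev s0 (k + 1))
    rw [← integral_congr_ae (Filter.Eventually.of_forall fun y =>
      mul_comm (avk b (ε * lev s0 (k + 1)) H y) (F0 y)), this]
    exact integral_congr_ae (Filter.Eventually.of_forall fun y => mul_comm _ _)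
  have hgap : ∀ y, 0 ≤ avk b (ε * lev s0 (k + 1)) F0 y - F1 y := fun y =>
    sub_nonneg.2 (hB.norm_avk_le _ _ y)
  have hHle : ∀ y, H y ≤ C := by
    intro y
    have h1 := hB.avk_nonneg (fun z => (hv.pos _ z hl2).le) (ε * lev s0 (k + 2)) y
    have h2 := hv.le _ y hl1
    simp only [hH]
    linarith
  have i3 : ∫ y, avk b (ε * lev s0 (k + 1)) F0 y * H y ≤
      (∫ y, F1 y * H y) + C * (Nf b ε s0 f k - Nf b ε s0 f (k + 1)) := by
    have e1 : C * (Nf b ε s0 f k - Nf b ε s0 f (k + 1)) =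
        ∫ y, C * (avk b (ε * lev s0 (k + 1)) F0 y - F1 y) := by
      rw [integral_const_mul, integral_sub (hAF.integrable_of_hasCompactSupport hAFc)
        (hF1.integrable_of_hasCompactSupport hF1c),
        hB.avk_int (hF0.integrable_of_hasCompactSupport hF0c) (LB.of_cont hF0)]
      rfl
    have hI1 : Integrable (fun y => C * (avk b (ε * lev s0 (k + 1)) F0 y - F1 y)) :=
      ((hAF.integrable_of_hasCompactSupport hAFc).sub
        (hF1.integrable_of_hasCompactSupport hF1c)).const_mul C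
    rw [e1, ← integral_add (int_cc hF1 hHc hF1c) hI1]
    refine integral_mono (int_cc hAF hHc hAFc) ((int_cc hF1 hHc hF1c).add hI1) ?_
    intro y
    simp only
    have := mul_le_mul_of_nonneg_left (hHle y) (hgap y)
    linarith
  have i4 : ∫ y, F1 y * H y = Pf b ε s0 μ f (k + 1)
      - 1 / 3 * ∫ y, F1 y * avk b (ε * lev s0 (k + 2)) (vv μ (lev s0 (k + 2))) y := by
    have e : (fun y => F1 y * H y) = fun y => F1 y * vv μ (lev s0 (k + 1)) y
        - 1 / 3 * (F1 y * avk b (ε * lev s0 (k + 2)) (vv μ (lev s0 (k + 2))) y) := by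
      ext y
      simp only [hH]
      ring
    rw [e, integral_sub (int_cc hF1 hv1 hF1c) ((int_cc hF1 hAv hF1c).const_mul _),
      integral_const_mul]
    rfl
  have i5 : Pf b ε s0 μ f (k + 2) ≤
      ∫ y, F1 y * avk b (ε * lev s0 (k + 2)) (vv μ (lev s0 (k + 2))) y := by
    have := hB.avk_adj (LB.of_cont hv2) (LB.of_cont hF1) hF1c (ε * lev s0 (k + 2))
    rw [← integral_congr_ae (Filter.Eventually.of_forall fun y =>
      mul_comm (avk b (ε * lev s0 (k + 2)) (vv μ (lev s0 (k + 2))) y) (F1 y)), this]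
    unfold Pf
    rw [← integral_congr_ae (Filter.Eventually.of_forall fun y =>
      mul_comm (avk b (ε * lev s0 (k + 2)) F1 y) (vv μ (lev s0 (k + 2)) y))]
    refine integral_mono (int_cc hF2 hv2 hF2c) (int_cc hAF1 hv2 hAF1c) ?_
    intro y
    exact mul_le_mul_of_nonneg_right (hB.norm_avk_le _ _ y) (hv.pos _ y hl2).le
  rw [i1, i2]
  linarith

lemma sum_tel (P N : ℕ → ℝ) (C : ℝ) (m : ℕ) :
    ∑ i ∈ Finset.Ico 2 (m + 2), (P i - 1 / 3 * P (i + 1) - 2 / 3 * P (i - 1)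
      + C * (N (i - 1) - N i)) =
    2 / 3 * (P (m + 1) - P 1) - 1 / 3 * (P (m + 2) - P 2) + C * (N 1 - N (m + 1)) := by
  induction m with
  | zero => simp
  | succ m ih =>
    rw [Finset.sum_Ico_succ_top (by omega), ih]
    simp only [show m + 2 - 1 = m + 1 from rfl]
    ring_nf

lemma sum_gk (hv : VF C μ) (hb : BaseKer J M c b) (hs0 : 0 < s0) (hf : Continuous f)
    (hc : HasCompactSupport f) (I : ℕ) :
    ∑ i ∈ Finset.Ico 2 I, ∫ y, ‖fl b ε s0 f (i - 1) y‖ * gk b ε μ s0 i y ≤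
      (2 * C) * ∫ y, ‖f y‖ := by
  have hfn : 0 ≤ ∫ y, ‖f y‖ := integral_nonneg fun _ => norm_nonneg _
  have hC := hv.C0
  rcases Nat.lt_or_ge I 2 with hI | hI
  · rw [Finset.Ico_eq_empty (by omega), Finset.sum_empty]
    positivity
  obtain ⟨m, rfl⟩ := Nat.exists_eq_add_of_le' hI
  have h1 : ∀ i ∈ Finset.Ico 2 (m + 2),
      ∫ y, ‖fl b ε s0 f (i - 1) y‖ * gk b ε μ s0 i y ≤
        Pf b ε s0 μ f i - 1 / 3 * Pf b ε s0 μ f (i + 1) - 2 / 3 * Pf b ε s0 μ f (i - 1)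
          + C * (Nf b ε s0 f (i - 1) - Nf b ε s0 f i) := by
    intro i hi
    obtain ⟨k, rfl⟩ := Nat.exists_eq_add_of_le' ((Finset.mem_Ico.1 hi).1.trans' one_le_two)
    exact gk_step hv hb hs0 hf hc k
  refine (Finset.sum_le_sum h1).trans ?_
  rw [sum_tel]
  have p1 := Pf_le (ε := ε) hv hb hs0 hf hc (m + 1)
  have p2 := Pf_le (ε := ε) hv hb hs0 hf hc 2
  have p3 : 0 ≤ Pf b ε s0 μ f 1 := Pf_nonneg hv hs0 1
  have p4 : 0 ≤ Pf b ε s0 μ f (m + 2) := Pf_nonneg hv hs0 (m + 2)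
  have p5 : C * Nf b ε s0 f 1 ≤ C * ∫ y, ‖f y‖ :=
    mul_le_mul_of_nonneg_left (Nf_le hb hf hc 1) hC
  have p6 : 0 ≤ C * Nf b ε s0 f (m + 1) := mul_nonneg hC (Nf_nonneg _)
  linarith

end Sum

theorem stmtPO (h : StmtTH) : StmtPO := by
  intro d hd M c C' ε hC' h0 h1 b hb
  obtain ⟨C, hC⟩ := vf_of_th h hd hC'
  refine ⟨(1 + C ^ 2) * |C| + |C| + (C ^ 2 + 2 * C ^ 4) + 2 * |C| + 1, by positivity, ?_⟩
  intro μ hμ s0 hs0
  have hv := hC μ hμ
  have hC0 := hv.C0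
  rw [abs_of_nonneg hC0]
  refine ⟨?_, ?_, ?_⟩
  · intro i y hi
    refine (gk_bound hv hb h0 h1 hs0 i hi y).trans ?_
    refine mul_le_mul_of_nonneg_right ?_ (hv.pos _ _ (levA_pos hs0 i)).le
    have : 0 ≤ C ^ 2 + 2 * C ^ 4 := by positivity
    linarith
  · intro i y hi
    obtain ⟨k, rfl⟩ := Nat.exists_eq_add_of_le' hi
    refine (gk_GG hv hb h0 h1 hs0 k y).trans ?_
    refine mul_le_mul_of_nonneg_right ?_ (hv.pos _ _ (levA_pos hs0 _)).le
    refine mul_le_mul_of_nonneg_right ?_ (by positivity)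
    have : 0 ≤ (1 + C ^ 2) * C := by positivity
    linarith
  · intro E _ _ _ f hf hc I
    refine (sum_gk hv hb hs0 hf hc I).trans ?_
    refine mul_le_mul_of_nonneg_right ?_ (integral_nonneg fun _ => norm_nonneg _)
    have : 0 ≤ (1 + C ^ 2) * C := by positivity
    have : 0 ≤ C ^ 2 + 2 * C ^ 4 := by positivity
    linarith

end

end TG
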