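import Pool.Agent.TG.PTb

/-!
# Reduction to cells (module PT), part c: one level at unit scale
-/

open MeasureTheory Metric Set TrI Filter
open scoped InnerProductSpace ContDiff

set_option linter.unusedSectionVars false

namespace TG

noncomputable section

namespace PTm

variable {d : ℕ}

/-- the partition function of the lattice point p -/
def ch (p : Fin d → ℤ) (y : Sp d) : ℝ := chi (y - lat p)

lemma ch_nonneg (p : Fin d → ℤ) (y : Sp d) : 0 ≤ ch p y := chi_nonneg _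

lemma ch_le_one (p : Fin d → ℤ) (y : Sp d) : ch p y ≤ 1 := chi_le_one _

lemma ch_cont (p : Fin d → ℤ) : Continuous (ch p) :=
  chi_contDiff.continuous.comp (by fun_prop)

lemma mulc {a c : Sp d → ℝ} (ha : Continuous a) (hc : Continuous c) :
    Continuous fun y => a y * c y := ha.mul hc

lemma ch_far {p : Fin d → ℤ} {y : Sp d} {j : Fin d} (h : 1 ≤ |y j - p j|) : ch p y = 0 :=
  chi_zero (j := j) h

lemma apply_le (y : Sp d) (j : Fin d) : |y j| ≤ ‖y‖ := by
  rw [← Real.norm_eq_abs]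
  exact PiLp.norm_apply_le y j

/-- neighbouring lattice points -/
def nb (p : Fin d → ℤ) : Finset (Fin d → ℤ) :=
  Fintype.piFinset fun j => Finset.Icc (p j - 2) (p j + 2)

lemma nb_card (p : Fin d → ℤ) : (nb p).card = 5 ^ d := by
  unfold nb
  rw [Fintype.card_piFinset]
  have : ∀ j : Fin d, (Finset.Icc (p j - 2) (p j + 2)).card = 5 := by
    intro j
    rw [Int.card_Icc]
    have : p j + 2 + 1 - (p j - 2) = 5 := by ring
    rw [this]
    rfl
  simp [this]

lemma mem_nb {p p' : Fin d → ℤ} : p' ∈ nb p ↔ ∀ j, |p j - p' j| ≤ 2 := by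
  unfold nb
  rw [Fintype.mem_piFinset]
  refine forall_congr' fun j => ?_
  rw [Finset.mem_Icc, abs_le]
  constructor
  · rintro ⟨h1, h2⟩
    constructor <;> linarith
  · rintro ⟨h1, h2⟩
    constructor <;> linarith

lemma nb_comm {p p' : Fin d → ℤ} : p' ∈ nb p ↔ p ∈ nb p' := by
  rw [mem_nb, mem_nb]
  refine forall_congr' fun j => ?_
  rw [abs_sub_comm]

open Classical in
/-- sums over pairs of neighbours -/
lemma pair_sum (P : Finset (Fin d → ℤ)) (D : (Fin d → ℤ) → ℝ) (hD : ∀ p, 0 ≤ D p) :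
    ∑ p ∈ P, ∑ p' ∈ P, (if p' ∈ nb p then D p + D p' else 0) ≤ 2 * 5 ^ d * ∑ p ∈ P, D p := by
  have h1 : ∀ p, ∑ p' ∈ P, (if p' ∈ nb p then D p else 0) ≤ 5 ^ d * D p := by
    intro p
    rw [← Finset.sum_filter, Finset.sum_const, nsmul_eq_mul]
    refine mul_le_mul_of_nonneg_right ?_ (hD p)
    have h2 : (P.filter (fun p' => p' ∈ nb p)).card ≤ (nb p).card :=
      Finset.card_le_card fun q hq => (Finset.mem_filter.mp hq).2
    rw [nb_card] at h2
    exact_mod_cast h2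
  have e : ∀ p p', (if p' ∈ nb p then D p + D p' else 0) =
      (if p' ∈ nb p then D p else 0) + (if p ∈ nb p' then D p' else 0) := by
    intro p p'
    by_cases h : p' ∈ nb p
    · rw [if_pos h, if_pos h, if_pos (nb_comm.mp h)]
    · rw [if_neg h, if_neg h, if_neg (fun h' => h (nb_comm.mpr h')), add_zero]
  simp only [e, Finset.sum_add_distrib]
  have h3 : ∑ p ∈ P, ∑ p' ∈ P, (if p ∈ nb p' then D p' else 0) =
      ∑ p ∈ P, ∑ p' ∈ P, (if p' ∈ nb p then D p else 0) := Finset.sum_comm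
  rw [h3]
  have h4 : ∑ p ∈ P, ∑ p' ∈ P, (if p' ∈ nb p then D p else 0) ≤ 5 ^ d * ∑ p ∈ P, D p := by
    rw [Finset.mul_sum]
    exact Finset.sum_le_sum fun p _ => h1 p
  linarith

lemma int_cs {G : Type*} [NormedAddCommGroup G] {g : Sp d → G} (hg : Continuous g)
    {ρ : ℝ} (h : ∀ y, ρ < ‖y‖ → g y = 0) : Integrable g :=
  hg.integrable_of_hasCompactSupport (HasCompactSupport.intro (isCompact_closedBall (0 : Sp d) ρ)
    fun x hx => h x (by rwa [mem_closedBall, dist_zero_right, not_le] at hx))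

lemma cs_of {G : Type*} [NormedAddCommGroup G] {g : Sp d → G}
    {ρ : ℝ} (h : ∀ y, ρ < ‖y‖ → g y = 0) : HasCompactSupport g :=
  HasCompactSupport.intro (isCompact_closedBall (0 : Sp d) ρ)
    fun x hx => h x (by rwa [mem_closedBall, dist_zero_right, not_le] at hx)

/-- the data of one level at unit scale -/
structure Lv (d : ℕ) (E : Type) [NormedAddCommGroup E] [InnerProductSpace ℝ E]
    (β : Sp d → ℝ) (B s R H K0 CD : ℝ) (g G : Sp d → ℝ) (f : Sp d → E) (e : (Fin d → ℤ) → E)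
    (D : (Fin d → ℤ) → ℝ) : Prop where
  hd : 1 ≤ d
  ker : Ker β
  nonneg : ∀ y, 0 ≤ β y
  even : ∀ y, β (-y) = β y
  int1 : ∫ y, β y = 1
  B_bd : TFn 2 B β
  s_pos : 0 < s
  s_le : s ≤ 1
  R_le : (d : ℝ) + 4 ≤ R
  g_cont : Continuous g
  g_bd : ∀ y, |g y| ≤ H
  G_cont : Continuous G
  G_bd : ∀ y, |avk β s g y - G y| ≤ K0
  f_cont : Continuous f
  f_cs : HasCompactSupport f
  e_norm : ∀ p, ‖e p‖ = 1
  D_nonneg : ∀ p, 0 ≤ D p
  CD_nonneg : 0 ≤ CD
  D_def : ∀ p, ∫ y in ball (lat p) R, (‖avk β s f y‖ - ⟪avk β s f y, e p⟫_ℝ) ≤ 4 * D p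
  DI : ∀ p p' (Y : Sp d → ℝ), ContDiff ℝ 2 Y → (∀ y, |Y y| ≤ 1) →
      (∀ y, ‖iteratedFDeriv ℝ 2 Y y‖ ≤ 1) → (∀ y, R - 1 ≤ ‖y - lat p‖ → Y y = 0) →
      (∀ y, R - 1 ≤ ‖y - lat p'‖ → Y y = 0) →
      |∫ y, ⟪f y, e p - e p'⟫_ℝ * Y y| ≤ CD * (D p + D p')

section Level

variable {E : Type} [NormedAddCommGroup E] [InnerProductSpace ℝ E] [FiniteDimensional ℝ E]
  {β : Sp d → ℝ} {B s R H K0 CD : ℝ} {g G : Sp d → ℝ} {f : Sp d → E} {e : (Fin d → ℤ) → E}
  {D : (Fin d → ℤ) → ℝ}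

/-- the commutator -/
def cc (β : Sp d → ℝ) (s : ℝ) (g : Sp d → ℝ) (p : Fin d → ℤ) (y : Sp d) : ℝ :=
  ch p y * avk β s g y - avk β s (fun z => ch p z * g z) y

lemma Lv.cc_cont (h : Lv d E β B s R H K0 CD g G f e D) (p : Fin d → ℤ) :
    Continuous (cc β s g p) :=
  ((ch_cont p).mul (avk_cont h.ker h.g_cont s)).sub
    (avk_cont h.ker (mulc (ch_cont p) h.g_cont) s)

lemma Lv.cc_far (h : Lv d E β B s R H K0 CD g G f e D) {p : Fin d → ℤ} {y : Sp d} {j : Fin d}
    (hj : 1 + s ≤ |y j - p j|) : cc β s g p y = 0 := by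
  have hs := h.s_pos
  unfold cc
  rw [ch_far (j := j) (by linarith), zero_mul, avk_zero_of h.ker hs.le, sub_self]
  intro z hz
  rw [ch_far (j := j), zero_mul]
  have h1 : |z j - y j| ≤ s := (apply_le (z - y) j).trans hz
  have h2 : |y j - p j| ≤ |z j - p j| + |z j - y j| := by
    have := abs_sub (z j - p j) (z j - y j)
    rwa [sub_sub_sub_cancel_left] at this
  linarith

lemma Lv.cc_supp (h : Lv d E β B s R H K0 CD g G f e D) {p : Fin d → ℤ} {y : Sp d}
    (hy : (d : ℝ) + s ≤ ‖y - lat p‖) : cc β s g p y = 0 := by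
  have hs := h.s_pos
  unfold cc
  have h1 : ch p y = 0 := chi_supp (by linarith) h.hd
  rw [h1, zero_mul, avk_zero_of h.ker hs.le, sub_self]
  intro z hz
  have h2 : ch p z = 0 := by
    refine chi_supp ?_ h.hd
    have h3 : ‖y - lat p‖ ≤ ‖z - lat p‖ + ‖z - y‖ := by
      have := norm_sub_le (z - lat p) (z - y)
      rwa [sub_sub_sub_cancel_left] at this
    linarith
  rw [h2, zero_mul]

lemma Lv.cc_TFn (h : Lv d E β B s R H K0 CD g G f e D) {N : ℝ} (hN : TFn 2 N (chi : Sp d → ℝ))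
    (p : Fin d → ℤ) :
    TFn 2 (4 * N * ((s⁻¹) ^ 2 * (H * B * (volume (closedBall (0 : Sp d) 1)).toReal)) +
      (s⁻¹) ^ 2 * (H * B * (volume (closedBall (0 : Sp d) 1)).toReal)) (cc β s g p) := by
  have h1 := avk_TFn h.g_cont h.g_bd h.B_bd h.ker.supp h.even h.s_pos h.s_le
  have h2 := avk_TFn (k := fun z => ch p z * g z) (mulc (ch_cont p) h.g_cont) (H := H) (fun z => by
    rw [abs_mul, abs_of_nonneg (ch_nonneg p z)]
    have := h.g_bd z
    have := ch_le_one p z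
    have := ch_nonneg p z
    nlinarith [abs_nonneg (g z)]) h.B_bd h.ker.supp h.even h.s_pos h.s_le
  exact TFn.sub (TFn.mul (TFn.comp_sub hN (lat p)) h1) h2

lemma Lv.cc_sum (h : Lv d E β B s R H K0 CD g G f e D) {L : ℕ} {y : Sp d} (hy : ‖y‖ + 1 ≤ L) :
    ∑ p ∈ box d L, cc β s g p y = 0 := by
  have hs := h.s_pos
  have hs1 := h.s_le
  unfold cc
  rw [Finset.sum_sub_distrib, ← Finset.sum_mul, ← avk_sum h.ker s _
    fun p _ => mulc (ch_cont p) h.g_cont]
  have h1 : ∑ p ∈ box d L, ch p y = 1 := chi_sum L fun j => (apply_le y j).trans (by linarith)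
  rw [h1, one_mul]
  have h2 : avk β s (fun z => ∑ p ∈ box d L, ch p z * g z) y = avk β s g y := by
    refine avk_congr h.ker hs.le fun z hz => ?_
    rw [← Finset.sum_mul]
    have h3 : ∑ p ∈ box d L, ch p z = 1 := chi_sum L fun j => (apply_le z j).trans (by
      have : ‖z‖ ≤ ‖y‖ + ‖z - y‖ := by
        have := norm_add_le y (z - y)
        rwa [add_sub_cancel] at this
      linarith)
    rw [h3, one_mul]
  rw [h2, sub_self]

lemma inner_bd (v w : E) (hw : ‖w‖ = 1) : |⟪v, w⟫_ℝ| ≤ ‖v‖ := by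
  have := abs_real_inner_le_norm v w
  rwa [hw, mul_one] at this

/-- the estimate of one level at unit scale -/
lemma Lv.main (h : Lv d E β B s R H K0 CD g G f e D) {N : ℝ}
    (hN : TFn 2 N (chi : Sp d → ℝ)) {ρ : ℝ} (hρ : ∀ y, ρ < ‖y‖ → f y = 0) {L : ℕ}
    (hL : ρ + 2 ≤ L) {N2 : ℝ} (hN2 : 0 < N2)
    (hN2' : 4 * N * (4 * N * ((s⁻¹) ^ 2 * (H * B * (volume (closedBall (0 : Sp d) 1)).toReal)) +
      (s⁻¹) ^ 2 * (H * B * (volume (closedBall (0 : Sp d) 1)).toReal)) ≤ N2) :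
    ∑ p ∈ box d L, ∫ y, ch p y * ⟪f y, e p⟫_ℝ * G y ≤
      (∫ y, ‖avk β s f y‖ * g y) + K0 * (∫ y, ‖f y‖) +
        (4 * H + N2 * CD * (2 * 5 ^ d)) * ∑ p ∈ box d L, D p := by
  classical
  have hs := h.s_pos
  have hs1 := h.s_le
  have hH0 : 0 ≤ H := (abs_nonneg _).trans (h.g_bd 0)
  set A : Sp d → ℝ := avk β s g with hA
  set Ff : Sp d → E := avk β s f with hFf
  have hAc : Continuous A := avk_cont h.ker h.g_cont s
  have hFc : Continuous Ff := avk_cont h.ker h.f_cont s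
  have hFs : ∀ y, ρ + 1 < ‖y‖ → Ff y = 0 := by
    intro y hy
    refine avk_zero_of h.ker hs.le fun z hz => hρ z ?_
    have : ‖y‖ ≤ ‖z‖ + ‖z - y‖ := by
      have := norm_sub_le z (z - y)
      rwa [sub_sub_cancel] at this
    linarith
  have hφc : ∀ v : E, Continuous fun y => ⟪f y, v⟫_ℝ := fun v => h.f_cont.inner continuous_const
  have hφs : ∀ (v : E) (y : Sp d), ρ < ‖y‖ → ⟪f y, v⟫_ℝ = 0 := fun v y hy => by
    rw [hρ y hy, inner_zero_left]
  -- integrability of functions with a factor from f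
  have hI : ∀ (v : E) (k : Sp d → ℝ), Continuous k → Integrable fun y => ⟪f y, v⟫_ℝ * k y := by
    intro v k hk
    refine int_cs (mulc (hφc v) hk) (ρ := ρ) fun y hy => ?_
    rw [hφs v y hy, zero_mul]
  -- (a)
  have ha : ∀ p, ∫ y, ch p y * ⟪f y, e p⟫_ℝ * G y ≤
      (∫ y, ⟪f y, e p⟫_ℝ * (ch p y * A y)) + ∫ y, ‖f y‖ * (ch p y * K0) := by
    intro p
    rw [← integral_add (hI _ _ (mulc (ch_cont p) hAc))]
    · refine integral_mono ?_ ?_ fun y => ?_
      · have := hI (e p) (fun y => ch p y * G y) (mulc (ch_cont p) h.G_cont)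
        refine this.congr (Eventually.of_forall fun y => ?_)
        show ⟪f y, e p⟫_ℝ * (ch p y * G y) = ch p y * ⟪f y, e p⟫_ℝ * G y
        ring
      · refine (hI _ _ (mulc (ch_cont p) hAc)).add ?_
        refine int_cs (mulc h.f_cont.norm (mulc (ch_cont p) continuous_const)) (ρ := ρ) fun y hy => ?_
        rw [hρ y hy, norm_zero, zero_mul]
      · show ch p y * ⟪f y, e p⟫_ℝ * G y ≤ ⟪f y, e p⟫_ℝ * (ch p y * A y) + ‖f y‖ * (ch p y * K0)
        have h1 : ⟪f y, e p⟫_ℝ * (G y - A y) ≤ ‖f y‖ * K0 := by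
          calc ⟪f y, e p⟫_ℝ * (G y - A y) ≤ |⟪f y, e p⟫_ℝ * (G y - A y)| := le_abs_self _
            _ = |⟪f y, e p⟫_ℝ| * |A y - G y| := by rw [abs_mul, abs_sub_comm]
            _ ≤ ‖f y‖ * K0 := mul_le_mul (inner_bd _ _ (h.e_norm p)) (h.G_bd y) (abs_nonneg _)
                (norm_nonneg _)
        have h2 := mul_le_mul_of_nonneg_left h1 (ch_nonneg p y)
        nlinarith
    · refine int_cs (mulc h.f_cont.norm (mulc (ch_cont p) continuous_const)) (ρ := ρ) fun y hy => ?_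
      rw [hρ y hy, norm_zero, zero_mul]
  have ha2 : ∑ p ∈ box d L, ∫ y, ‖f y‖ * (ch p y * K0) = K0 * ∫ y, ‖f y‖ := by
    rw [← integral_finsetSum _ fun p _ => ?_]
    · rw [← integral_const_mul]
      congr 1
      ext y
      rw [← Finset.mul_sum, ← Finset.sum_mul]
      by_cases hy : ρ < ‖y‖
      · rw [hρ y hy, norm_zero, zero_mul, mul_zero]
      · have h3 : ∑ p ∈ box d L, ch p y = 1 := chi_sum L fun j => (apply_le y j).trans (by
          push Not at hy; linarith)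
        rw [h3]
        ring
    · refine int_cs (mulc h.f_cont.norm (mulc (ch_cont p) continuous_const)) (ρ := ρ) fun y hy => ?_
      rw [hρ y hy, norm_zero, zero_mul]
  -- (b)
  have hb : ∀ p, ∫ y, ⟪f y, e p⟫_ℝ * (ch p y * A y) =
      (∫ y, ⟪f y, e p⟫_ℝ * avk β s (fun z => ch p z * g z) y) +
        ∫ y, ⟪f y, e p⟫_ℝ * cc β s g p y := by
    intro p
    rw [← integral_add (hI _ _ (avk_cont h.ker (mulc (ch_cont p) h.g_cont) s))
      (hI _ _ (h.cc_cont p))]
    congr 1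
    ext y
    unfold cc
    ring
  -- (c)
  have hJ : ∀ (k : Sp d → ℝ) (w : Sp d → ℝ), Continuous k → Continuous w →
      (∀ y, Ff y = 0 → w y = 0) → Integrable fun y => w y * k y := by
    intro k w hk hw h0
    refine int_cs (mulc hw hk) (ρ := ρ + 1) fun y hy => ?_
    rw [h0 y (hFs y hy), zero_mul]
  have hc : ∀ p, ∫ y, ⟪f y, e p⟫_ℝ * avk β s (fun z => ch p z * g z) y ≤
      (∫ y, ‖Ff y‖ * (ch p y * g y)) + 4 * H * D p := by
    intro p
    rw [← avk_adj h.ker h.even (hφc (e p)) (cs_of (hφs (e p))) (mulc (ch_cont p) h.g_cont)]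
    have e1 : ∀ y, avk β s (fun z => ⟪f z, e p⟫_ℝ) y = ⟪Ff y, e p⟫_ℝ := fun y =>
      (avk_inner h.ker h.f_cont s y (e p)).symm
    simp only [e1]
    have hic : Continuous fun y => ⟪Ff y, e p⟫_ℝ := hFc.inner continuous_const
    have hdc : Continuous fun y => ‖Ff y‖ - ⟪Ff y, e p⟫_ℝ := hFc.norm.sub hic
    have hd0 : ∀ y, 0 ≤ ‖Ff y‖ - ⟪Ff y, e p⟫_ℝ := fun y => by
      have := (abs_le.mp (inner_bd (Ff y) (e p) (h.e_norm p))).2
      linarith
    have i1 : Integrable fun y => ⟪Ff y, e p⟫_ℝ * (ch p y * g y) :=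
      hJ _ _ (mulc (ch_cont p) h.g_cont) hic fun y hy => by rw [hy, inner_zero_left]
    have i2 : Integrable fun y => ‖Ff y‖ * (ch p y * g y) :=
      hJ _ _ (mulc (ch_cont p) h.g_cont) hFc.norm fun y hy => by rw [hy, norm_zero]
    have i3 : Integrable fun y => (‖Ff y‖ - ⟪Ff y, e p⟫_ℝ) * (ch p y * H) :=
      hJ _ _ (mulc (ch_cont p) continuous_const) hdc fun y hy => by
        rw [hy, inner_zero_left, norm_zero, sub_zero]
    have h1 : ∫ y, ⟪Ff y, e p⟫_ℝ * (ch p y * g y) ≤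
        (∫ y, ‖Ff y‖ * (ch p y * g y)) + ∫ y, (‖Ff y‖ - ⟪Ff y, e p⟫_ℝ) * (ch p y * H) := by
      rw [← integral_add i2 i3]
      refine integral_mono i1 (i2.add i3) fun y => ?_
      show ⟪Ff y, e p⟫_ℝ * (ch p y * g y) ≤
        ‖Ff y‖ * (ch p y * g y) + (‖Ff y‖ - ⟪Ff y, e p⟫_ℝ) * (ch p y * H)
      have h2 : -g y ≤ H := by
        have := h.g_bd y
        linarith [neg_abs_le (g y)]
      have h3 := mul_nonneg (hd0 y) (mul_nonneg (ch_nonneg p y) (by linarith : 0 ≤ H + g y))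
      nlinarith
    have h4 : ∫ y, (‖Ff y‖ - ⟪Ff y, e p⟫_ℝ) * (ch p y * H) ≤
        H * ∫ y in ball (lat p) R, (‖Ff y‖ - ⟪Ff y, e p⟫_ℝ) := by
      rw [← integral_const_mul]
      have e2 : ∫ y, (‖Ff y‖ - ⟪Ff y, e p⟫_ℝ) * (ch p y * H) =
          ∫ y in ball (lat p) R, (‖Ff y‖ - ⟪Ff y, e p⟫_ℝ) * (ch p y * H) := by
        symm
        refine setIntegral_eq_integral_of_forall_compl_eq_zero fun y hy => ?_
        rw [mem_ball, dist_eq_norm, not_lt] at hy
        have h5 : ch p y = 0 := chi_supp (by linarith [h.R_le]) h.hd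
        rw [h5, zero_mul, mul_zero]
      rw [e2]
      refine setIntegral_mono_on i3.integrableOn ?_ measurableSet_ball fun y _ => ?_
      · have i4 : Integrable fun y => (‖Ff y‖ - ⟪Ff y, e p⟫_ℝ) :=
          int_cs hdc (ρ := ρ + 1) fun y hy => by
            rw [hFs y hy, inner_zero_left, norm_zero, sub_zero]
        exact (i4.const_mul H).integrableOn
      · have := ch_le_one p y
        have h6 := mul_nonneg (hd0 y) (mul_nonneg hH0 (by linarith : 0 ≤ 1 - ch p y))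
        nlinarith
    have h5 := mul_le_mul_of_nonneg_left (h.D_def p) hH0
    linarith
  have hc2 : ∑ p ∈ box d L, ∫ y, ‖Ff y‖ * (ch p y * g y) = ∫ y, ‖Ff y‖ * g y := by
    rw [← integral_finsetSum _ fun p _ => ?_]
    · congr 1
      ext y
      rw [← Finset.mul_sum, ← Finset.sum_mul]
      by_cases hy : ρ + 1 < ‖y‖
      · rw [hFs y hy, norm_zero, zero_mul, zero_mul]
      · have h3 : ∑ p ∈ box d L, ch p y = 1 := chi_sum L fun j => (apply_le y j).trans (by
          push Not at hy; linarith)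
        rw [h3, one_mul]
    · exact hJ _ _ (mulc (ch_cont p) h.g_cont) hFc.norm fun y hy => by rw [hy, norm_zero]
  -- (d)
  have hd1 : ∀ p, ∫ y, ⟪f y, e p⟫_ℝ * cc β s g p y =
      ∑ p' ∈ box d L, ∫ y, ⟪f y, e p⟫_ℝ * (ch p' y * cc β s g p y) := by
    intro p
    rw [← integral_finsetSum _ fun p' _ => hI _ _ (mulc (ch_cont p') (h.cc_cont p))]
    congr 1
    ext y
    rw [← Finset.mul_sum, ← Finset.sum_mul]
    by_cases hy : ρ < ‖y‖
    · rw [hφs _ y hy, zero_mul, zero_mul]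
    · have h3 : ∑ p ∈ box d L, ch p y = 1 := chi_sum L fun j => (apply_le y j).trans (by
        push Not at hy; linarith)
      rw [h3, one_mul]
  have hd2 : ∑ p ∈ box d L, ∑ p' ∈ box d L, ∫ y, ⟪f y, e p'⟫_ℝ * (ch p' y * cc β s g p y) = 0 := by
    rw [Finset.sum_comm]
    refine Finset.sum_eq_zero fun p' _ => ?_
    rw [← integral_finsetSum _ fun p _ => hI _ _ (mulc (ch_cont p') (h.cc_cont p))]
    have : ∀ y, ∑ p ∈ box d L, ⟪f y, e p'⟫_ℝ * (ch p' y * cc β s g p y) = 0 := by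
      intro y
      rw [← Finset.mul_sum, ← Finset.mul_sum]
      by_cases hy : ρ < ‖y‖
      · rw [hφs _ y hy, zero_mul]
      · rw [h.cc_sum (by push Not at hy; linarith), mul_zero, mul_zero]
    simp only [this, integral_zero]
  have hd3 : ∑ p ∈ box d L, ∫ y, ⟪f y, e p⟫_ℝ * cc β s g p y =
      ∑ p ∈ box d L, ∑ p' ∈ box d L, ∫ y, ⟪f y, e p - e p'⟫_ℝ * (ch p' y * cc β s g p y) := by
    simp only [hd1]
    rw [← sub_zero (∑ p ∈ box d L, ∑ p' ∈ box d L, ∫ y, ⟪f y, e p⟫_ℝ * (ch p' y * cc β s g p y)),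
      ← hd2, ← Finset.sum_sub_distrib]
    refine Finset.sum_congr rfl fun p _ => ?_
    rw [← Finset.sum_sub_distrib]
    refine Finset.sum_congr rfl fun p' _ => ?_
    rw [← integral_sub (hI _ _ (mulc (ch_cont p') (h.cc_cont p)))
      (hI _ _ (mulc (ch_cont p') (h.cc_cont p)))]
    congr 1
    ext y
    rw [inner_sub_right]
    ring
  -- (e)
  have he : ∀ p p', ∫ y, ⟪f y, e p - e p'⟫_ℝ * (ch p' y * cc β s g p y) ≤
      if p' ∈ nb p then N2 * CD * (D p + D p') else 0 := by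
    intro p p'
    split_ifs with hnb
    · have hT : TFn 2 N2 (fun y => ch p' y * cc β s g p y) :=
        TFn.mono' (TFn.mul (TFn.comp_sub hN (lat p')) (h.cc_TFn hN p)) hN2'
      have hT2 := TFn.const_mul hT N2⁻¹
      have h1 : |N2⁻¹| * N2 = 1 := by
        rw [abs_of_pos (by positivity), inv_mul_cancel₀ hN2.ne']
      rw [h1] at hT2
      have h2 := h.DI p p' (fun y => N2⁻¹ * (ch p' y * cc β s g p y)) hT2.smooth
        (fun y => TFn.abs_le hT2 y) (fun y => hT2.bd 2 le_rfl y)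
        (fun y hy => by
          rw [h.cc_supp (by linarith [h.R_le]), mul_zero, mul_zero])
        (fun y hy => by
          have h5 : ch p' y = 0 := chi_supp (by linarith [h.R_le]) h.hd
          rw [h5, zero_mul, mul_zero])
      have h3 : ∫ y, ⟪f y, e p - e p'⟫_ℝ * (N2⁻¹ * (ch p' y * cc β s g p y)) =
          N2⁻¹ * ∫ y, ⟪f y, e p - e p'⟫_ℝ * (ch p' y * cc β s g p y) := by
        rw [← integral_const_mul]
        congr 1
        ext y
        ring
      rw [h3] at h2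
      have h4 := (le_abs_self _).trans h2
      rw [inv_mul_le_iff₀ hN2] at h4
      linarith
    · refine le_of_eq ?_
      rw [mem_nb] at hnb
      push Not at hnb
      obtain ⟨j, hj⟩ := hnb
      have h1 : ∀ y : Sp d, ⟪f y, e p - e p'⟫_ℝ * (ch p' y * cc β s g p y) = 0 := by
        intro y
        have hj' : (3 : ℝ) ≤ |(p j : ℝ) - p' j| := by
          have : (3 : ℤ) ≤ |p j - p' j| := hj
          exact_mod_cast this
        by_cases h2 : 1 ≤ |y j - p' j|
        · rw [ch_far h2, zero_mul, mul_zero]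
        · push Not at h2
          rw [h.cc_far (j := j), mul_zero, mul_zero]
          have h3 : |(p j : ℝ) - p' j| ≤ |y j - p' j| + |y j - p j| := by
            have := abs_sub (y j - p' j) (y j - p j)
            rwa [sub_sub_sub_cancel_left] at this
          linarith
      simp only [h1, integral_zero]
  have he2 : ∑ p ∈ box d L, ∑ p' ∈ box d L,
      ∫ y, ⟪f y, e p - e p'⟫_ℝ * (ch p' y * cc β s g p y) ≤
      N2 * CD * (2 * 5 ^ d * ∑ p ∈ box d L, D p) := by
    have h1 : ∑ p ∈ box d L, ∑ p' ∈ box d L,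
        ∫ y, ⟪f y, e p - e p'⟫_ℝ * (ch p' y * cc β s g p y) ≤
        ∑ p ∈ box d L, ∑ p' ∈ box d L, N2 * CD * (if p' ∈ nb p then (D p + D p') else 0) := by
      refine Finset.sum_le_sum fun p _ => Finset.sum_le_sum fun p' _ => ?_
      refine (he p p').trans (le_of_eq ?_)
      split_ifs
      · rfl
      · rw [mul_zero]
    refine h1.trans ?_
    simp only [← Finset.mul_sum]
    exact mul_le_mul_of_nonneg_left (pair_sum _ D h.D_nonneg)
      (mul_nonneg hN2.le h.CD_nonneg)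
  -- conclusion
  have hfin : ∑ p ∈ box d L, ∫ y, ch p y * ⟪f y, e p⟫_ℝ * G y ≤
      ∑ p ∈ box d L, ((∫ y, ‖Ff y‖ * (ch p y * g y)) + 4 * H * D p +
        (∫ y, ⟪f y, e p⟫_ℝ * cc β s g p y) + ∫ y, ‖f y‖ * (ch p y * K0)) := by
    refine Finset.sum_le_sum fun p _ => ?_
    have h1 := ha p
    rw [hb p] at h1
    have h2 := hc p
    linarith
  rw [Finset.sum_add_distrib, Finset.sum_add_distrib, Finset.sum_add_distrib, hc2, ha2, hd3,
    ← Finset.mul_sum] at hfin
  have : (4 * H + N2 * CD * (2 * 5 ^ d)) * ∑ p ∈ box d L, D p =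
      4 * H * ∑ p ∈ box d L, D p + N2 * CD * (2 * 5 ^ d * ∑ p ∈ box d L, D p) := by ring
  rw [this]
  linarith

end Level

end PTm

end

end TG
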