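import Pool.Agent.TG.Stmts13

/-!
# Trace inequality, general operators: the local inequalities of type A do not see RN   (helper32)

No double quotes.
-/

open MeasureTheory Metric Set TrI
open scoped InnerProductSpace ContDiff ENNReal

namespace TG

noncomputable section

variable {d : ℕ}

/-- W2 with constants independent of RN -/
def StmtW2R : Prop :=
  ∀ (d J JA : ℕ), 2 ≤ d → ∀ (M c0 C' c R0 : ℝ) (X0 : Prm d), XOK J JA M c0 C' c R0 X0 →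
    ∃ c1 : ℝ, 0 < c1 ∧ ∀ (η Kc : ℝ), 0 < η → 1 ≤ Kc → ∃ (κ CK Rz : ℝ), 0 < κ ∧ 0 < CK ∧
    ∀ (RN : ℝ) (E : Type) [NormedAddCommGroup E] [InnerProductSpace ℝ E] [FiniteDimensional ℝ E]
      (W : Wld d E), WOK JA C' R0 Rz { X0 with RN := RN } W → ∀ Q : Cell d, 2 ≤ Q.1 → W.Near Q →
      Ash J JA R0 κ Kc W Q →
      c1 * (W.w Q * W.val Q) ≤ W.nt1 Q + η * W.sV R0 JA Q +
        CK * (W.w Q * W.v Q) * (W.sE R0 JA Q + W.sD R0 JA Q)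

/-- WA6 with constants independent of RN -/
def StmtWA6R : Prop :=
  ∀ (d J JA : ℕ), 2 ≤ d → ∀ (M c0 C' c R0 : ℝ) (X0 : Prm d), XOK J JA M c0 C' c R0 X0 →
    ∃ C : ℝ, 0 < C ∧ ∀ Kc : ℝ, 1 ≤ Kc → ∃ (κ CK Rz : ℝ), 0 < κ ∧ 0 < CK ∧
    ∀ (RN : ℝ) (E : Type) [NormedAddCommGroup E] [InnerProductSpace ℝ E] [FiniteDimensional ℝ E]
      (W : Wld d E), WOK JA C' R0 Rz { X0 with RN := RN } W → ∀ Q : Cell d,
      Ash J JA R0 κ Kc W Q →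
      W.w Q * W.v Q * bq R0 (W.m Q) ≤
        C * W.sV R0 JA Q + CK * (W.w Q * W.v Q) * (W.sE R0 JA Q + W.sD R0 JA Q)

/-- WA7 with constants independent of RN -/
def StmtWA7R : Prop :=
  ∀ (d J JA : ℕ), 2 ≤ d → ∀ (M c0 C' c R0 : ℝ) (X0 : Prm d), XOK J JA M c0 C' c R0 X0 →
    ∀ (C3 Ct R2 : ℝ), 0 < C3 → 1 ≤ Ct → 8 * Ct ≤ R0 → 0 < R2 →
    ∃ C : ℝ, 0 < C ∧ ∀ Kc : ℝ, 1 ≤ Kc → ∃ (κ CK Rz : ℝ), 0 < κ ∧ 0 < CK ∧
    ∀ (RN : ℝ) (E : Type) [NormedAddCommGroup E] [InnerProductSpace ℝ E] [FiniteDimensional ℝ E]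
      (W : Wld d E), WOK JA C' R0 Rz { X0 with RN := RN } W → ∀ P : Cell d, 2 ≤ P.1 →
      Ash J JA R0 κ Kc W P →
      ∀ (at1 DT : ℝ) (n : Sp d) (s : ℝ), 0 ≤ at1 → 0 ≤ DT → ‖n‖ = 1 → |s| ≤ R2 →
      at1 ≤ C3 * (∫ y, W.m P y * zR Ct y) + DT →
      W.w P * (at1 * Mo (W.mu P) n s 2 1 0) ≤ C * W.sV R0 JA P +
        C * (W.w P * W.v P) * max 0 (blc n s (W.m P) R0) +
        CK * (W.w P * W.v P) * (W.sE R0 JA P + W.sD R0 JA P + DT)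

namespace RNim

section

variable {E : Type} [NormedAddCommGroup E] [InnerProductSpace ℝ E]

/-- the same world with another radius of the Newton field -/
def re (W : Wld d E) (RN : ℝ) : Wld d E := { W with X := { W.X with RN := RN } }

lemma near_re (W : Wld d E) (RN : ℝ) (Q : Cell d) : (re W RN).Near Q ↔ W.Near Q := Iff.rfl

lemma gam_re {W : Wld d E} {RN : ℝ} {Q : Cell d} (h : W.kd Q ≠ 1) :
    (re W RN).gam Q = W.gam Q := by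
  unfold Wld.gam Gam
  by_cases h0 : W.kd Q = 0
  · have h0' : (re W RN).kd Q = 0 := h0
    rw [if_pos h0, if_pos h0']
    rfl
  · have h0' : ¬ (re W RN).kd Q = 0 := h0
    have h1' : ¬ (re W RN).kd Q = 1 := h
    rw [if_neg h0, if_neg h, if_neg h0', if_neg h1']
    rfl

lemma val_re {W : Wld d E} {RN : ℝ} {Q : Cell d} (h : W.kd Q ≠ 1) :
    (re W RN).val Q = W.val Q := by
  unfold Wld.val
  rw [gam_re h]
  rfl

lemma flx_re {X : Prm d} {RN : ℝ} {k : ℕ} (h : k ≠ 1) (χ χ' β : Sp d → ℝ) (μ : Measure (Sp d))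
    (m : Sp d → ℝ) (n : Sp d) :
    flx { X with RN := RN } k χ χ' β μ m n = flx X k χ χ' β μ m n := by
  unfold flx
  by_cases h0 : k = 0
  · rw [if_pos h0, if_pos h0]
  · rw [if_neg h0, if_neg h, if_neg h0, if_neg h]

lemma fct_re {W : Wld d E} {RN : ℝ} {Q Q' : Cell d} (h : W.kd Q ≠ 1) (h' : W.kd Q' ≠ 1) :
    Fct (re W RN).X (re W RN).s0 (re W RN).μ (re W RN).f (re W RN).e (re W RN).kd
      (re W RN).nv Q Q' = Fct W.X W.s0 W.μ W.f W.e W.kd W.nv Q Q' := by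
  unfold Fct
  have h1 : (re W RN).kd Q ≠ 1 := h
  have h2 : (re W RN).kd Q' ≠ 1 := h'
  simp only [re]
  rw [flx_re h, flx_re h']

lemma nt1_re {W : Wld d E} {RN : ℝ} {Q : Cell d} (h : W.kd Q ≠ 1)
    (h' : ∀ Q' ∈ adj Q, W.kd Q' ≠ 1) : (re W RN).nt1 Q = W.nt1 Q := by
  have hg := gam_re (RN := RN) h
  unfold Wld.gam at hg
  unfold Wld.nt1 net
  rw [hg, Finset.sum_congr rfl fun Q' hQ' => fct_re (RN := RN) h (h' Q' hQ')]
  rfl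

lemma sV_re {W : Wld d E} {RN R0 : ℝ} {JA : ℕ} {Q : Cell d}
    (h : ∀ Q' ∈ W.ns R0 JA Q, W.kd Q' ≠ 1) : (re W RN).sV R0 JA Q = W.sV R0 JA Q := by
  unfold Wld.sV
  exact Finset.sum_congr rfl fun Q' hQ' => by rw [val_re (h Q' hQ')]; rfl

lemma sE_re (W : Wld d E) (RN R0 : ℝ) (JA : ℕ) (Q : Cell d) :
    (re W RN).sE R0 JA Q = W.sE R0 JA Q := rfl

lemma wok_re {W : Wld d E} {RN C' R0 Rz : ℝ} {JA : ℕ} {X0 : Prm d}
    (h : WOK JA C' R0 Rz { X0 with RN := RN } W) : WOK JA C' R0 Rz X0 (re W X0.RN) where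
  X_eq := by
    have := h.X_eq
    simp only [re]
    rw [this]
  s0_pos := h.s0_pos
  gro := h.gro
  fc := h.fc
  fs := h.fs
  eu := h.eu
  nu := h.nu
  ab0 := h.ab0
  D0 := h.D0
  zp := h.zp
  dir := h.dir

lemma ash_re {W : Wld d E} {RN R0 κ Kc : ℝ} {J JA : ℕ} {Q : Cell d}
    (h : Ash J JA R0 κ Kc W Q) : Ash J JA R0 κ Kc (re W RN) Q :=
  ⟨h.1, ⟨h.2.1.sh, h.2.1.bl, h.2.1.loc, h.2.1.dl0, h.2.1.small, h.2.1.smalld⟩,
    fun Q' hQ' => ⟨(h.2.2 Q' hQ').1, ⟨(h.2.2 Q' hQ').2.1.sh, (h.2.2 Q' hQ').2.1.bl,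
      (h.2.2 Q' hQ').2.1.loc, (h.2.2 Q' hQ').2.1.dl0, (h.2.2 Q' hQ').2.1.small,
      (h.2.2 Q' hQ').2.1.smalld⟩, (h.2.2 Q' hQ').2.2⟩⟩

end

end RNim

open RNim in
theorem stmtWA6R (h : StmtWA6) : StmtWA6R := by
  intro d J JA hd M c0 C' c R0 X0 hX
  obtain ⟨C, hC, h⟩ := h d J JA hd M c0 C' c R0 X0 hX
  refine ⟨C, hC, fun Kc hKc => ?_⟩
  obtain ⟨κ, CK, Rz, hκ, hCK, h⟩ := h Kc hKc
  refine ⟨κ, CK, Rz, hκ, hCK, fun RN E _ _ _ W hW Q hA => ?_⟩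
  have := h E (re W X0.RN) (wok_re hW) Q (ash_re hA)
  rw [sV_re fun Q' hQ' => by rw [(hA.2.2 Q' hQ').1]; norm_num] at this
  exact this

open RNim in
theorem stmtWA7R (h : StmtWA7) : StmtWA7R := by
  intro d J JA hd M c0 C' c R0 X0 hX C3 Ct R2 h1 h2 h3 h4
  obtain ⟨C, hC, h⟩ := h d J JA hd M c0 C' c R0 X0 hX C3 Ct R2 h1 h2 h3 h4
  refine ⟨C, hC, fun Kc hKc => ?_⟩
  obtain ⟨κ, CK, Rz, hκ, hCK, h⟩ := h Kc hKc
  refine ⟨κ, CK, Rz, hκ, hCK, fun RN E _ _ _ W hW Q hQ2 hA at1 DT n s h5 h6 h7 h8 h9 => ?_⟩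
  have := h E (re W X0.RN) (wok_re hW) Q hQ2 (ash_re hA) at1 DT n s h5 h6 h7 h8 h9
  rw [sV_re fun Q' hQ' => by rw [(hA.2.2 Q' hQ').1]; norm_num] at this
  exact this

open RNim in
theorem stmtW2R (hNS : StmtNS) (h : StmtW2) : StmtW2R := by
  intro d J JA hd M c0 C' c R0 X0 hX
  obtain ⟨c1, hc1, h⟩ := h d J JA hd M c0 C' c R0 X0 hX
  refine ⟨c1, hc1, fun η Kc hη hKc => ?_⟩
  obtain ⟨κ, CK, Rz, hκ, hCK, h⟩ := h η Kc hη hKc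
  refine ⟨κ, CK, Rz, hκ, hCK, fun RN E _ _ _ W hW Q hQ2 hN hA => ?_⟩
  have hk : ∀ Q' ∈ W.ns R0 JA Q, W.kd Q' ≠ 1 := fun Q' hQ' => by
    rw [(hA.2.2 Q' hQ').1]; norm_num
  have hR0 : Real.sqrt d ≤ 3 * R0 := by
    have h1 : Real.sqrt d ≤ d := by
      rw [Real.sqrt_le_left (by positivity)]
      have : (1 : ℝ) ≤ d := by exact_mod_cast (by omega : 1 ≤ d)
      nlinarith
    have h2 := hX.R0_ge
    have h3 := hX.prm.A_ge
    have h4 : (0 : ℝ) ≤ d := by positivity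
    linarith
  have hadj : adj Q ⊆ W.ns R0 JA Q :=
    (hNS d (by omega) W.s0 (3 * R0) hW.s0_pos (by
      have := Real.sqrt_nonneg (d : ℝ); linarith) JA Q).2.2.2.2.2.2.2 hR0
  have hQQ : Q ∈ adj Q := by
    unfold adj
    simp
  have := h E (re W X0.RN) (wok_re hW) Q hQ2 hN (ash_re hA)
  rw [sV_re hk, val_re (hk Q (hadj hQQ)), nt1_re (hk Q (hadj hQQ))
    fun Q' hQ' => hk Q' (hadj hQ')] at this
  exact this

end

end TG
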