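import Pool.Agent.TG.TFU
import Pool.Agent.TG.PF
import Pool.Agent.TG.TQ

/-!
# Sheet lemma (module SA), part 1: test functions and plane integrals (helper65)

Composition of test functions with linear maps, the cut-offs cu1, functions constant along a
direction, integration by parts on planes.  Namespace TG.SAm.
-/

open MeasureTheory Metric Set TrI
open scoped InnerProductSpace ContDiff

namespace TG

namespace SAm

noncomputable section

open TU PF

variable {d : ℕ}

/-! ## tang -/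

/-- tang as a continuous linear map -/
def tangL (ν : Sp d) : Sp d →L[ℝ] Sp d :=
  ContinuousLinearMap.id ℝ (Sp d) - (innerSL ℝ ν).smulRight ν

lemma tangL_apply (ν y : Sp d) : tangL ν y = tang ν y := by
  simp [tangL, tang]

lemma tangL_norm {ν : Sp d} (hν : ‖ν‖ = 1) : ‖tangL ν‖ ≤ 1 := by
  refine ContinuousLinearMap.opNorm_le_bound _ zero_le_one fun y => ?_
  rw [tangL_apply, one_mul]
  exact norm_tang_le hν y

lemma tang_inner {ν : Sp d} (hν : ‖ν‖ = 1) (y : Sp d) : ⟪ν, tang ν y⟫_ℝ = 0 := by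
  unfold tang
  rw [inner_sub_right, inner_smul_right, real_inner_self_eq_norm_sq, hν]
  ring

lemma tang_of_inner {ν y : Sp d} (h : ⟪ν, y⟫_ℝ = 0) : tang ν y = y := by
  unfold tang
  rw [h, zero_smul, sub_zero]

lemma tang_tang {ν : Sp d} (hν : ‖ν‖ = 1) (y : Sp d) : tang ν (tang ν y) = tang ν y :=
  tang_of_inner (tang_inner hν y)

lemma tang_add (ν y z : Sp d) : tang ν (y + z) = tang ν y + tang ν z := by
  rw [← tangL_apply, map_add, tangL_apply, tangL_apply]

lemma tang_sub (ν y z : Sp d) : tang ν (y - z) = tang ν y - tang ν z := by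
  rw [← tangL_apply, map_sub, tangL_apply, tangL_apply]

lemma tang_smul (ν y : Sp d) (t : ℝ) : tang ν (t • y) = t • tang ν y := by
  rw [← tangL_apply, map_smul, tangL_apply]

lemma tang_self {ν : Sp d} (hν : ‖ν‖ = 1) : tang ν ν = 0 := by
  unfold tang
  rw [real_inner_self_eq_norm_sq, hν]
  simp

lemma tang_add_inner (ν y : Sp d) : tang ν y + ⟪ν, y⟫_ℝ • ν = y := by
  unfold tang
  abel

lemma inner_tang_of {ν w : Sp d} (hw : ⟪ν, w⟫_ℝ = 0) (y : Sp d) : ⟪w, tang ν y⟫_ℝ = ⟪w, y⟫_ℝ := by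
  unfold tang
  rw [inner_sub_right, inner_smul_right, real_inner_comm ν w, hw]
  ring

lemma norm_sq_tang {ν : Sp d} (hν : ‖ν‖ = 1) (y : Sp d) :
    ‖y‖ ^ 2 = ‖tang ν y‖ ^ 2 + ⟪ν, y⟫_ℝ ^ 2 := by
  unfold tang
  rw [norm_sub_sq_real, norm_smul, hν, inner_smul_right, real_inner_comm]
  simp
  ring

lemma norm_le_tang {ν : Sp d} (hν : ‖ν‖ = 1) (y : Sp d) : ‖y‖ ≤ ‖tang ν y‖ + |⟪ν, y⟫_ℝ| := by
  conv_lhs => rw [← tang_add_inner ν y]
  refine (norm_add_le _ _).trans ?_
  rw [norm_smul, hν, mul_one, Real.norm_eq_abs]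

/-! ## test functions -/

section T

variable {F : Type*} [NormedAddCommGroup F] [NormedSpace ℝ F]
  {G : Type*} [NormedAddCommGroup G] [NormedSpace ℝ G]

/-- composition with a linear contraction and a translation -/
lemma TFn_lin {J : ℕ} {N : ℝ} {g : G → F} (hs : ContDiff ℝ J g)
    (hb : ∀ j ≤ J, ∀ z, ‖iteratedFDeriv ℝ j g z‖ ≤ N) {A : Sp d →L[ℝ] G} (hA : ‖A‖ ≤ 1) (p : G) :
    TFn J N (fun y => g (A y + p)) where
  smooth := by
    have h1 : ContDiff ℝ J fun y : Sp d => A y + p := by fun_prop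
    exact hs.comp h1
  bd := by
    intro j hj y
    set g' : G → F := fun z => g (z + p) with hg'
    have hs' : ContDiff ℝ J g' := by
      have h1 : ContDiff ℝ J fun y : G => y + p := by fun_prop
      exact hs.comp h1
    have e1 : (fun y => g (A y + p)) = g' ∘ A := rfl
    rw [e1, A.iteratedFDeriv_comp_right hs' y (by exact_mod_cast hj)]
    refine (ContinuousMultilinearMap.norm_compContinuousLinearMap_le _ _).trans ?_
    have h2 : iteratedFDeriv ℝ j g' (A y) = iteratedFDeriv ℝ j g (A y + p) := by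
      rw [hg', iteratedFDeriv_comp_add_right]
    rw [h2]
    have h3 : ∏ _i : Fin j, ‖A‖ ≤ 1 := by
      rw [Finset.prod_const]
      exact pow_le_one₀ (norm_nonneg _) hA
    calc ‖iteratedFDeriv ℝ j g (A y + p)‖ * ∏ _i : Fin j, ‖A‖
        ≤ ‖iteratedFDeriv ℝ j g (A y + p)‖ * 1 :=
          mul_le_mul_of_nonneg_left h3 (norm_nonneg _)
      _ ≤ N := by rw [mul_one]; exact hb j hj _

lemma TFn_linS {J : ℕ} {N : ℝ} {g : Sp d → F} (h : TFn J N g) {A : Sp d →L[ℝ] Sp d}
    (hA : ‖A‖ ≤ 1) (p : Sp d) : TFn J N (fun y => g (A y + p)) :=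
  TFn_lin h.smooth h.bd hA p

/-- freezing the normal variable -/
lemma TFn_tang {J : ℕ} {N : ℝ} {g : Sp d → F} (h : TFn J N g) {ν : Sp d} (hν : ‖ν‖ = 1)
    (p : Sp d) : TFn J N (fun y => g (tang ν y + p)) := by
  have h1 := TFn_linS h (tangL_norm hν) p
  simpa only [tangL_apply] using h1

lemma TFn_tang0 {J : ℕ} {N : ℝ} {g : Sp d → F} (h : TFn J N g) {ν : Sp d} (hν : ‖ν‖ = 1) :
    TFn J N (fun y => g (tang ν y)) := by
  have h1 := TFn_tang h hν 0
  simpa only [add_zero] using h1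

omit [NormedSpace ℝ F] in
lemma Cyl_tang {g : Sp d → F} {ν : Sp d} (hν : ‖ν‖ = 1) {ρ : ℝ} (p : Sp d)
    (hg : ∀ y, ⟪ν, y⟫_ℝ = 0 → g (y + p) ≠ 0 → ‖y‖ ≤ ρ) : Cyl ν ρ (fun y => g (tang ν y + p)) where
  const := fun y => by rw [tang_tang hν]
  supp := fun y hy => hg (tang ν y) (tang_inner hν y) hy

omit [NormedSpace ℝ F] in
lemma Cyl_tang0 {g : Sp d → F} {ν : Sp d} (hν : ‖ν‖ = 1) {ρ : ℝ}
    (hg : ∀ y, g y ≠ 0 → ‖y‖ ≤ ρ) : Cyl ν ρ (fun y => g (tang ν y)) where
  const := fun y => by rw [tang_tang hν]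
  supp := fun y hy => hg (tang ν y) hy

/-- directional derivative -/
lemma TFn_fderiv {J : ℕ} {N : ℝ} {g : Sp d → F} (h : TFn (J + 1) N g) (w : Sp d) :
    TFn J (‖w‖ * N) (fun y => fderiv ℝ g y w) where
  smooth := by
    have h1 : ContDiff ℝ J (fderiv ℝ g) := h.smooth.fderiv_right (by norm_cast)
    exact h1.clm_apply contDiff_const
  bd := by
    intro j hj y
    have h1 : ContDiff ℝ J (fderiv ℝ g) := h.smooth.fderiv_right (by norm_cast)
    have e1 : (fun y => fderiv ℝ g y w) =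
        (ContinuousLinearMap.apply ℝ F w) ∘ (fderiv ℝ g) := rfl
    rw [e1, (ContinuousLinearMap.apply ℝ F w).iteratedFDeriv_comp_left
      h1.contDiffAt (by exact_mod_cast hj)]
    refine ((ContinuousLinearMap.apply ℝ F w).norm_compContinuousMultilinearMap_le _).trans ?_
    have h2 : ‖ContinuousLinearMap.apply ℝ F w‖ ≤ ‖w‖ := by
      refine ContinuousLinearMap.opNorm_le_bound _ (norm_nonneg _) fun A => ?_
      rw [ContinuousLinearMap.apply_apply, mul_comm]
      exact A.le_opNorm w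
    refine mul_le_mul h2 ?_ (norm_nonneg _) (norm_nonneg _)
    rw [norm_iteratedFDeriv_fderiv]
    exact h.bd (j + 1) (by omega) y

/-- scalar function times a constant vector -/
lemma TFn_vec {J : ℕ} {N : ℝ} {χ : Sp d → ℝ} (h : TFn J N χ) (w : F) :
    TFn J (‖w‖ * N) (fun y => χ y • w) where
  smooth := h.smooth.smul contDiff_const
  bd := by
    intro j hj y
    have e1 : (fun y => χ y • w) =
        ((ContinuousLinearMap.id ℝ ℝ).smulRight w) ∘ χ := by
      funext y
      simp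
    rw [e1, ((ContinuousLinearMap.id ℝ ℝ).smulRight w).iteratedFDeriv_comp_left
      h.smooth.contDiffAt (by exact_mod_cast hj)]
    refine (((ContinuousLinearMap.id ℝ ℝ).smulRight w).norm_compContinuousMultilinearMap_le
      _).trans ?_
    have h2 : ‖(ContinuousLinearMap.id ℝ ℝ).smulRight w‖ ≤ ‖w‖ := by
      refine ContinuousLinearMap.opNorm_le_bound _ (norm_nonneg _) fun t => ?_
      simp only [ContinuousLinearMap.smulRight_apply, ContinuousLinearMap.id_apply]
      rw [norm_smul, mul_comm]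
    exact mul_le_mul h2 (h.bd j hj y) (norm_nonneg _) (norm_nonneg _)

end T

lemma lin_smooth (w : Sp d) (o : ℝ) {n : WithTop ℕ∞} :
    ContDiff ℝ n (fun y : Sp d => ⟪w, y⟫_ℝ + o) :=
  (contDiff_const.inner ℝ contDiff_id).add contDiff_const

lemma lin_fderiv (w : Sp d) (o : ℝ) (y : Sp d) :
    HasFDerivAt (fun y : Sp d => ⟪w, y⟫_ℝ + o) (innerSL ℝ w) y :=
  ((innerSL ℝ w).hasFDerivAt (x := y)).add_const o

/-- derivatives of affine functions -/
lemma lin_bd (w : Sp d) (o : ℝ) (y : Sp d) :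
    ∀ j : ℕ, ‖iteratedFDeriv ℝ j (fun y : Sp d => ⟪w, y⟫_ℝ + o) y‖ ≤
      ‖w‖ * (1 + ‖y‖) + |o|
  | 0 => by
    rw [norm_iteratedFDeriv_zero, Real.norm_eq_abs]
    refine (abs_add_le _ _).trans (add_le_add ?_ le_rfl)
    refine (abs_real_inner_le_norm w y).trans ?_
    nlinarith [norm_nonneg w, norm_nonneg y]
  | 1 => by
    rw [norm_iteratedFDeriv_one, (lin_fderiv w o y).fderiv, innerSL_apply_norm]
    nlinarith [norm_nonneg w, norm_nonneg y, abs_nonneg o, mul_nonneg (norm_nonneg w) (norm_nonneg y)]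
  | j + 2 => by
    have h1 : fderiv ℝ (fun y : Sp d => ⟪w, y⟫_ℝ + o) = fun _ => innerSL ℝ w := by
      funext z
      exact (lin_fderiv w o z).fderiv
    rw [← norm_iteratedFDeriv_fderiv, h1, iteratedFDeriv_const_of_ne (Nat.succ_ne_zero j)]
    have := norm_nonneg w
    have := norm_nonneg y
    simp only [Pi.zero_apply, norm_zero]
    positivity

/-- affine function times a test function supported in a ball -/
lemma TFn_mul_lin {J : ℕ} {N ρ : ℝ} {φ : Sp d → ℝ} (h : TFn J N φ) (hρ : 0 ≤ ρ)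
    (hs : ∀ y, ρ < ‖y‖ → φ y = 0) (w : Sp d) (o : ℝ) :
    TFn J (2 ^ J * (N * (‖w‖ * (1 + ρ) + |o|))) (fun y => φ y * (⟪w, y⟫_ℝ + o)) := by
  refine TFn_mul_ball (x₀ := 0) (ρ := ρ) h (by simpa using hs) (lin_smooth w o) ?_ (by positivity)
  intro j _ y hy
  rw [sub_zero] at hy
  refine (lin_bd w o y j).trans ?_
  gcongr

/-! ## the smooth transition and cu1 -/

lemma sT_bd (J : ℕ) : ∃ N : ℝ, 0 < N ∧ ∀ j ≤ J, ∀ z : ℝ,
    ‖iteratedFDeriv ℝ j Real.smoothTransition z‖ ≤ N := by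
  have hs : ContDiff ℝ ∞ Real.smoothTransition := Real.smoothTransition.contDiff
  have h1 : ∀ j : ℕ, ∃ N : ℝ, 0 < N ∧ ∀ z : ℝ,
      ‖iteratedFDeriv ℝ j Real.smoothTransition z‖ ≤ N := by
    intro j
    rcases Nat.eq_zero_or_pos j with rfl | hj
    · refine ⟨1, one_pos, fun z => ?_⟩
      rw [norm_iteratedFDeriv_zero, Real.norm_eq_abs, abs_of_nonneg (Real.smoothTransition.nonneg _)]
      exact Real.smoothTransition.le_one _
    · have hc : Continuous (iteratedFDeriv ℝ j Real.smoothTransition) :=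
        hs.continuous_iteratedFDeriv (by exact_mod_cast le_top)
      obtain ⟨N, hN⟩ := (isCompact_Icc (a := (0 : ℝ)) (b := 1)).exists_bound_of_continuousOn
        hc.continuousOn
      refine ⟨max N 1, by positivity, fun z => ?_⟩
      rcases lt_or_ge z 0 with hz | hz
      · have h2 : Real.smoothTransition =ᶠ[nhds z] fun _ => 0 := by
          filter_upwards [Iio_mem_nhds hz] with t ht
          exact Real.smoothTransition.zero_of_nonpos ht.le
        rw [(h2.iteratedFDeriv ℝ j).eq_of_nhds, iteratedFDeriv_const_of_ne (by omega)]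
        simp
      · rcases le_or_gt z 1 with hz1 | hz1
        · exact (hN z ⟨hz, hz1⟩).trans (le_max_left _ _)
        · have h2 : Real.smoothTransition =ᶠ[nhds z] fun _ => 1 := by
            filter_upwards [Ioi_mem_nhds hz1] with t ht
            exact Real.smoothTransition.one_of_one_le (le_of_lt ht)
          rw [(h2.iteratedFDeriv ℝ j).eq_of_nhds, iteratedFDeriv_const_of_ne (by omega)]
          simp
  choose N hN0 hN using h1
  refine ⟨∑ j ∈ Finset.range (J + 1), N j, Finset.sum_pos (fun j _ => hN0 j) (by simp), ?_⟩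
  intro j hj z
  refine (hN j z).trans ?_
  exact Finset.single_le_sum (f := N) (fun i _ => (hN0 i).le) (Finset.mem_range.2 (by omega))

lemma cu1_eq {ρ : ℝ} (hρ : 0 ≤ ρ) (z : ℝ) :
    cu1 ρ z = Real.smoothTransition (ρ + 1 - z) * Real.smoothTransition (ρ + 1 + z) := by
  unfold cu1
  rcases le_total 0 z with h | h
  · rw [abs_of_nonneg h, Real.smoothTransition.one_of_one_le (show 1 ≤ ρ + 1 + z by linarith),
      mul_one]
  · rw [abs_of_nonpos h, Real.smoothTransition.one_of_one_le (show 1 ≤ ρ + 1 - z by linarith),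
      one_mul, sub_neg_eq_add]

lemma cu1_nonneg (ρ z : ℝ) : 0 ≤ cu1 ρ z := Real.smoothTransition.nonneg _

lemma cu1_le_one (ρ z : ℝ) : cu1 ρ z ≤ 1 := Real.smoothTransition.le_one _

lemma cu1_one {ρ z : ℝ} (h : |z| ≤ ρ) : cu1 ρ z = 1 :=
  Real.smoothTransition.one_of_one_le (by linarith)

lemma cu1_zero {ρ z : ℝ} (h : ρ + 1 ≤ |z|) : cu1 ρ z = 0 :=
  Real.smoothTransition.zero_of_nonpos (by linarith)

/-- cut-offs of the height -/
lemma cu1_TFn (d J : ℕ) : ∃ N : ℝ, 0 < N ∧ ∀ ρ : ℝ, 0 ≤ ρ → ∀ (ν : Sp d) (c : ℝ), ‖ν‖ = 1 →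
    TFn J N (fun y => cu1 ρ (ht ν c y)) := by
  obtain ⟨N, hN, hb⟩ := sT_bd J
  refine ⟨2 ^ J * (N * N), by positivity, ?_⟩
  intro ρ hρ ν c hν
  have hs : ContDiff ℝ J Real.smoothTransition := Real.smoothTransition.contDiff
  have h1 := TFn_lin (d := d) hs hb (A := -innerSL ℝ ν)
    (by rw [norm_neg, innerSL_apply_norm, hν]) (ρ + 1 + c)
  have h2 := TFn_lin (d := d) hs hb (A := innerSL ℝ ν)
    (by rw [innerSL_apply_norm, hν]) (ρ + 1 - c)
  have h3 := TFn_mul h1 h2
  have e : (fun y => cu1 ρ (ht ν c y)) = fun y : Sp d =>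
      Real.smoothTransition ((-innerSL ℝ ν) y + (ρ + 1 + c)) *
        Real.smoothTransition ((innerSL ℝ ν) y + (ρ + 1 - c)) := by
    funext y
    rw [cu1_eq hρ]
    unfold ht
    simp only [_root_.neg_apply, innerSL_apply_apply]
    congr 2 <;> ring
  rw [e]
  exact h3

end

end SAm

end TG
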