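import Pool.Agent.TG.SA1

/-!
# Sheet lemma (module SA), part 2: plane integrals (helper65)
-/

open MeasureTheory Metric Set TrI
open scoped InnerProductSpace ContDiff

namespace TG

namespace SAm

noncomputable section

open TU PF

variable {d : ℕ}

/-! ## linearity -/

lemma plInt_add {ν : Sp d} (hν : ‖ν‖ = 1) {F G : Sp d → ℝ} (hF : Continuous F)
    (hG : Continuous G) {ρ ρ' : ℝ} (hFs : ∀ y, F y ≠ 0 → ‖tang ν y‖ ≤ ρ)
    (hGs : ∀ y, G y ≠ 0 → ‖tang ν y‖ ≤ ρ') (c : ℝ) :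
    plInt ν c (fun y => F y + G y) = plInt ν c F + plInt ν c G :=
  integral_add (integrable_pl hν hF hFs c) (integrable_pl hν hG hGs c)

lemma plInt_sub {ν : Sp d} (hν : ‖ν‖ = 1) {F G : Sp d → ℝ} (hF : Continuous F)
    (hG : Continuous G) {ρ ρ' : ℝ} (hFs : ∀ y, F y ≠ 0 → ‖tang ν y‖ ≤ ρ)
    (hGs : ∀ y, G y ≠ 0 → ‖tang ν y‖ ≤ ρ') (c : ℝ) :
    plInt ν c (fun y => F y - G y) = plInt ν c F - plInt ν c G :=
  integral_sub (integrable_pl hν hF hFs c) (integrable_pl hν hG hGs c)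

lemma plInt_mul (ν : Sp d) (c a : ℝ) (F : Sp d → ℝ) :
    plInt ν c (fun y => a * F y) = a * plInt ν c F :=
  integral_const_mul _ _

lemma plInt_neg (ν : Sp d) (c : ℝ) (F : Sp d → ℝ) :
    plInt ν c (fun y => -F y) = -plInt ν c F :=
  integral_neg _

lemma inner_plane {ν : Sp d} (hν : ‖ν‖ = 1) (c : ℝ) (y : Pl ν) :
    ⟪ν, c • ν + (y : Sp d)⟫_ℝ = c := by
  rw [inner_add_right, inner_smul_right, real_inner_self_eq_norm_sq, hν, inner_pl]
  ring

lemma plInt_congr {ν : Sp d} (hν : ‖ν‖ = 1) {c : ℝ} {F G : Sp d → ℝ}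
    (h : ∀ y, ⟪ν, y⟫_ℝ = c → F y = G y) : plInt ν c F = plInt ν c G := by
  unfold plInt
  congr 1
  funext y
  exact h _ (inner_plane hν c y)

lemma plInt_cyl {ν : Sp d} (hν : ‖ν‖ = 1) {F : Sp d → ℝ} (h : ∀ y, F y = F (tang ν y))
    (c c' : ℝ) : plInt ν c F = plInt ν c' F := by
  unfold plInt
  congr 1
  funext y
  rw [h, tang_pl hν, h (c' • ν + (y : Sp d)), tang_pl hν]

lemma plInt_nonneg (ν : Sp d) (c : ℝ) {F : Sp d → ℝ} (h : ∀ y, 0 ≤ F y) : 0 ≤ plInt ν c F :=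
  integral_nonneg fun _ => h _

/-! ## bounds -/

lemma norm_plane {ν : Sp d} (hν : ‖ν‖ = 1) (c : ℝ) (y : Pl ν) :
    ‖c • ν + (y : Sp d)‖ ^ 2 = ‖y‖ ^ 2 + c ^ 2 := by
  rw [norm_sq_tang hν, tang_pl hν, inner_plane hν]
  rfl

lemma pl_bound (hd : 1 ≤ d) (ρ : ℝ) : ∃ C : ℝ, 0 < C ∧ ∀ (ν : Sp d), ‖ν‖ = 1 →
    ∀ (g : Pl ν → ℝ) (N : ℝ), (∀ y, |g y| ≤ N) → (∀ y, g y ≠ 0 → ‖y‖ ≤ ρ) →
      |∫ y, g y| ≤ C * N := by
  obtain ⟨n, rfl⟩ : ∃ n, d = n + 1 := ⟨d - 1, by omega⟩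
  refine ⟨(volume (closedBall (0 : Sp n) ρ)).toReal + 1, by positivity, ?_⟩
  intro ν hν g N hN hs
  have hN0 : 0 ≤ N := le_trans (abs_nonneg _) (hN 0)
  have hi : ∫ y, g y = ∫ y in closedBall (0 : Pl ν) ρ, g y := by
    symm
    refine setIntegral_eq_integral_of_forall_compl_eq_zero fun y hy => ?_
    by_contra h
    exact hy (by simpa using hs y h)
  rw [hi]
  have h1 := norm_setIntegral_le_of_norm_le_const (μ := volume) (s := closedBall (0 : Pl ν) ρ)
    (f := g) (C := N) measure_closedBall_lt_top (fun y _ => by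
      rw [Real.norm_eq_abs]
      exact hN y)
  rw [Real.norm_eq_abs] at h1
  refine h1.trans ?_
  rw [Measure.real, vol n ν hν ρ, mul_comm]
  exact mul_le_mul_of_nonneg_right (by linarith) hN0

lemma plInt_bound (hd : 1 ≤ d) (ρ : ℝ) : ∃ C : ℝ, 0 < C ∧ ∀ (ν : Sp d), ‖ν‖ = 1 →
    ∀ (F : Sp d → ℝ) (c N : ℝ), 0 ≤ N → (∀ y, ⟪ν, y⟫_ℝ = c → |F y| ≤ N) →
      (∀ y, ⟪ν, y⟫_ℝ = c → F y ≠ 0 → ‖tang ν y‖ ≤ ρ) → |plInt ν c F| ≤ C * N := by
  obtain ⟨C, hC, h⟩ := pl_bound hd ρ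
  refine ⟨C, hC, fun ν hν F c N hN hb hs => ?_⟩
  refine h ν hν _ N (fun y => hb _ (inner_plane hν c y)) fun y hy => ?_
  have := hs _ (inner_plane hν c y) hy
  rw [tang_pl hν] at this
  simpa using this

/-- the bump function on planes -/
def chp (ν : Sp d) (y : Sp d) : ℝ := zR 1 (tang ν y)

lemma chp_lower (hd : 1 ≤ d) : ∃ v : ℝ, 0 < v ∧ ∀ (ν : Sp d) (c : ℝ), ‖ν‖ = 1 →
    v ≤ plInt ν c (chp ν) := by
  obtain ⟨n, rfl⟩ : ∃ n, d = n + 1 := ⟨d - 1, by omega⟩
  refine ⟨(volume (closedBall (0 : Sp n) 1)).toReal, ?_, ?_⟩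
  · exact ENNReal.toReal_pos (measure_closedBall_pos _ _ one_pos).ne'
      measure_closedBall_lt_top.ne
  · intro ν c hν
    have h1 : (volume (closedBall (0 : Sp n) 1)).toReal =
        ∫ y in closedBall (0 : Pl ν) 1, (1 : ℝ) := by
      rw [setIntegral_const, Measure.real, vol n ν hν 1]
      simp
    rw [h1, ← integral_indicator measurableSet_closedBall]
    unfold plInt
    refine integral_mono_of_nonneg (Filter.Eventually.of_forall fun y => ?_) ?_
      (Filter.Eventually.of_forall fun y => ?_)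
    · exact indicator_nonneg (fun _ _ => zero_le_one) _
    · refine integrable_pl (F := chp ν) (ρ := 2) hν ?_ ?_ c
      · have h2 : Continuous (zR 1 : Sp (n + 1) → ℝ) := (zR_smooth one_pos).continuous
        have h3 : Continuous (tang ν : Sp (n + 1) → Sp (n + 1)) := by
          unfold tang
          fun_prop
        exact h2.comp h3
      · intro y hy
        by_contra h
        push Not at h
        exact hy (zR_zero (by linarith))
    · simp only [chp]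
      rw [tang_pl hν]
      by_cases hy : y ∈ closedBall (0 : Pl ν) 1
      · rw [indicator_of_mem hy, zR_one]
        simpa using hy
      · rw [indicator_of_notMem hy]
        exact zR_nonneg _ _

lemma tang_cont (ν : Sp d) : Continuous (tang ν : Sp d → Sp d) := by
  unfold tang
  fun_prop

lemma chp_TFn (J : ℕ) : ∃ N : ℝ, 0 < N ∧ ∀ ν : Sp d, ‖ν‖ = 1 → TFn J N (chp ν) := by
  obtain ⟨N, hN, h⟩ := TFn_of_cs (J := J) (ζ := (zR 1 : Sp d → ℝ))
    ((zR_smooth one_pos).of_le (by exact_mod_cast le_top)) (zR_cs 1)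
  exact ⟨N, hN, fun ν hν => TFn_tang0 h hν⟩

lemma chp_cyl {ν : Sp d} (hν : ‖ν‖ = 1) : Cyl ν 2 (chp ν) :=
  Cyl_tang0 hν fun y hy => by
    by_contra h
    push Not at h
    exact hy (zR_zero (by linarith))

/-! ## integration by parts -/

section Parts

variable {Y : Sp d → Sp d} {ν w : Sp d} {ρ : ℝ}

lemma cyl_fderiv_normal (hν : ‖ν‖ = 1) (hC : ∀ y, Y y = Y (tang ν y)) (hY : ContDiff ℝ 1 Y)
    (y : Sp d) : fderiv ℝ Y y ν = 0 := by
  have h1 : Y = Y ∘ (tangL ν) := by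
    funext z
    simp only [Function.comp_apply, tangL_apply]
    exact hC z
  have h2 : HasFDerivAt (Y ∘ (tangL ν)) ((fderiv ℝ Y (tangL ν y)).comp (tangL ν)) y :=
    ((hY.differentiable one_ne_zero) _).hasFDerivAt.comp y (tangL ν).hasFDerivAt
  rw [← h1] at h2
  rw [h2.fderiv, ContinuousLinearMap.comp_apply, tangL_apply, tangL_apply, tang_self hν, map_zero]

lemma fderiv_coord (hY : ContDiff ℝ 1 Y) (j : Fin d) (y t : Sp d) :
    fderiv ℝ (fun z => Y z j) y t = (fderiv ℝ Y y t) j := by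
  have h1 : HasFDerivAt (fun z => Y z j)
      ((EuclideanSpace.proj j : Sp d →L[ℝ] ℝ).comp (fderiv ℝ Y y)) y :=
    (EuclideanSpace.proj j : Sp d →L[ℝ] ℝ).hasFDerivAt.comp y
      ((hY.differentiable one_ne_zero) _).hasFDerivAt
  rw [h1.fderiv]
  rfl

lemma dv_tang (hν : ‖ν‖ = 1) (hC : ∀ y, Y y = Y (tang ν y)) (hY : ContDiff ℝ 1 Y) (y : Sp d) :
    dv Y y = ∑ j : Fin d,
      fderiv ℝ (fun z => Y z j) y (tang ν (EuclideanSpace.single j (1 : ℝ))) := by
  unfold dv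
  refine Finset.sum_congr rfl fun j _ => ?_
  rw [fderiv_coord hY]
  have h : fderiv ℝ Y y (EuclideanSpace.single j (1 : ℝ)) =
      fderiv ℝ Y y (tang ν (EuclideanSpace.single j (1 : ℝ))) := by
    conv_lhs => rw [← tang_add_inner ν (EuclideanSpace.single j (1 : ℝ))]
    rw [map_add, map_smul, cyl_fderiv_normal hν hC hY, smul_zero, add_zero]
  rw [h]

lemma fderiv_zero_of {G : Type*} [NormedAddCommGroup G] [NormedSpace ℝ G] {g : Sp d → G}
    (hs : ∀ y, g y ≠ 0 → ‖tang ν y‖ ≤ ρ) {y : Sp d} (hy : ρ < ‖tang ν y‖) :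
    fderiv ℝ g y = 0 := by
  have h1 : g =ᶠ[nhds y] fun _ => 0 := by
    have h2 : {z : Sp d | ρ < ‖tang ν z‖} ∈ nhds y :=
      (isOpen_lt continuous_const (tang_cont ν).norm).mem_nhds hy
    filter_upwards [h2] with z hz
    by_contra h
    exact absurd (hs z h) (not_le.2 hz)
  rw [h1.fderiv_eq]
  simp

/-- integration by parts against linear functions -/
lemma dv_plInt (hd : 1 ≤ d) (hν : ‖ν‖ = 1) (hw : ⟪ν, w⟫_ℝ = 0) (hY : ContDiff ℝ 1 Y)
    (hC : Cyl ν ρ Y) (c : ℝ) :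
    plInt ν c (fun y => ⟪w, y⟫_ℝ * dv Y y) = -plInt ν c (fun y => ⟪w, Y y⟫_ℝ) := by
  have hPF := ((stmtPF d hd).2 ν hν).2.2.2.2.2
  set e : Fin d → Sp d := fun j => EuclideanSpace.single j (1 : ℝ) with he
  have hYj : ∀ j : Fin d, ContDiff ℝ 1 (fun z => Y z j) := fun j =>
    (EuclideanSpace.proj j : Sp d →L[ℝ] ℝ).contDiff.comp hY
  have hYc : ∀ (j : Fin d) (t : Sp d), Continuous (fun y => fderiv ℝ (fun z => Y z j) y t) :=
    fun j t => ((hYj j).continuous_fderiv one_ne_zero).clm_apply continuous_const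
  have hYs : ∀ (j : Fin d) (y : Sp d), Y y j ≠ 0 → ‖tang ν y‖ ≤ ρ := fun j y hy =>
    hC.supp y fun h => hy (by rw [h]; rfl)
  have hYds : ∀ (j : Fin d) (t y : Sp d), fderiv ℝ (fun z => Y z j) y t ≠ 0 → ‖tang ν y‖ ≤ ρ := by
    intro j t y hy
    by_contra h
    push Not at h
    exact hy (by rw [fderiv_zero_of (hYs j) h]; rfl)
  have hwc : Continuous (fun y : Sp d => ⟪w, y⟫_ℝ) := by fun_prop
  -- each term
  have hterm : ∀ j : Fin d, plInt ν c (fun y => ⟪w, y⟫_ℝ *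
      fderiv ℝ (fun z => Y z j) y (tang ν (e j))) = -(w j * plInt ν c (fun y => Y y j)) := by
    intro j
    have h1 := hPF (fun y => ⟪w, y⟫_ℝ * Y y j) ((contDiff_const.inner ℝ contDiff_id).mul (hYj j))
      (fun y => by
        simp only
        rw [inner_tang_of hw, ← hC.const])
      ⟨ρ, fun y hy => hYs j y (right_ne_zero_of_mul hy)⟩ c (tang ν (e j)) (tang_inner hν _)
    have h2 : ∀ y, fderiv ℝ (fun y => ⟪w, y⟫_ℝ * Y y j) y (tang ν (e j)) =
        w j * Y y j + ⟪w, y⟫_ℝ * fderiv ℝ (fun z => Y z j) y (tang ν (e j)) := by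
      intro y
      have h3 : HasFDerivAt (fun y : Sp d => ⟪w, y⟫_ℝ) (innerSL ℝ w) y :=
        (innerSL ℝ w).hasFDerivAt
      have h4 : HasFDerivAt (fun y => ⟪w, y⟫_ℝ * Y y j) _ y :=
        h3.mul (((hYj j).differentiable one_ne_zero) y).hasFDerivAt
      rw [h4.fderiv]
      simp only [ContinuousLinearMap.add_apply, ContinuousLinearMap.smul_apply, smul_eq_mul,
        innerSL_apply_apply]
      rw [inner_tang_of hw]
      have h5 : ⟪w, e j⟫_ℝ = w j := by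
        rw [he]
        simp [EuclideanSpace.inner_single_right]
      rw [h5]
      ring
    simp only [h2] at h1
    rw [plInt_add hν (F := fun y => w j * Y y j)
      (G := fun y => ⟪w, y⟫_ℝ * fderiv ℝ (fun z => Y z j) y (tang ν (e j)))
      (continuous_const.mul (hYj j).continuous) (hwc.mul (hYc j _))
      (ρ := ρ) (ρ' := ρ) (fun y hy => hYs j y (right_ne_zero_of_mul hy))
      (fun y hy => hYds j _ y (right_ne_zero_of_mul hy)), plInt_mul] at h1
    linarith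
  have hsum : ∀ (S : Finset (Fin d)), plInt ν c (fun y => ∑ j ∈ S, ⟪w, y⟫_ℝ *
      fderiv ℝ (fun z => Y z j) y (tang ν (e j))) =
      ∑ j ∈ S, plInt ν c (fun y => ⟪w, y⟫_ℝ *
        fderiv ℝ (fun z => Y z j) y (tang ν (e j))) := by
    intro S
    unfold plInt
    rw [integral_finsetSum]
    intro j _
    exact integrable_pl (F := fun y => ⟪w, y⟫_ℝ * fderiv ℝ (fun z => Y z j) y (tang ν (e j)))
      hν (hwc.mul (hYc j _)) (ρ := ρ) (fun y hy => hYds j _ y (right_ne_zero_of_mul hy)) c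
  have hsum2 : ∀ (S : Finset (Fin d)), plInt ν c (fun y => ∑ j ∈ S, w j * Y y j) =
      ∑ j ∈ S, w j * plInt ν c (fun y => Y y j) := by
    intro S
    unfold plInt
    rw [integral_finsetSum]
    · refine Finset.sum_congr rfl fun j _ => ?_
      rw [integral_const_mul]
    · intro j _
      exact integrable_pl (F := fun y => w j * Y y j)
        hν (continuous_const.mul (hYj j).continuous) (ρ := ρ)
        (fun y hy => hYs j y (right_ne_zero_of_mul hy)) c
  have h6 : (fun y => ⟪w, y⟫_ℝ * dv Y y) = fun y => ∑ j ∈ Finset.univ, ⟪w, y⟫_ℝ *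
      fderiv ℝ (fun z => Y z j) y (tang ν (e j)) := by
    funext y
    rw [dv_tang hν hC.const hY, Finset.mul_sum]
  have h7 : (fun y => ⟪w, Y y⟫_ℝ) = fun y => ∑ j ∈ Finset.univ, w j * Y y j := by
    funext y
    simp [PiLp.inner_apply, mul_comm]
  rw [h6, h7, hsum, hsum2, ← Finset.sum_neg_distrib]
  exact Finset.sum_congr rfl fun j _ => hterm j

end Parts

end

end SAm

end TG
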