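import Pool.Agent.TG.SA2

/-!
# Sheet lemma (module SA), part 3: comparison of the integrals over two close planes (helper65)
-/

open MeasureTheory Metric Set TrI
open scoped InnerProductSpace ContDiff

namespace TG

namespace SAm

noncomputable section

open TU PF

variable {d : ℕ}

/-- Taylor inequality -/
lemma taylor2 {H : Sp d → ℝ} {N : ℝ} (hH : TFn 2 N H) (x v : Sp d) :
    |H (x + v) - H x - fderiv ℝ H x v| ≤ N * ‖v‖ ^ 2 := by
  have hN := TFn_nonneg hH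
  have hs : ContDiff ℝ 2 H := hH.smooth
  have hd : Differentiable ℝ H := hs.differentiable (by norm_num)
  have hD : ContDiff ℝ 1 (fderiv ℝ H) := hs.fderiv_right (by norm_num)
  have hDd : Differentiable ℝ (fderiv ℝ H) := hD.differentiable (by norm_num)
  have hbd : ∀ y, ‖fderiv ℝ (fderiv ℝ H) y‖ ≤ N := fun y => by
    have : ‖fderiv ℝ (fderiv ℝ H) y‖ = ‖iteratedFDeriv ℝ 2 H y‖ := by
      rw [show (2 : ℕ) = 1 + 1 from rfl, ← norm_iteratedFDeriv_fderiv,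
        norm_iteratedFDeriv_one]
    rw [this]
    exact hH.bd 2 le_rfl y
  have hlip : ∀ y, ‖fderiv ℝ H y - fderiv ℝ H x‖ ≤ N * ‖y - x‖ := fun y => by
    have := Convex.norm_image_sub_le_of_norm_fderiv_le (𝕜 := ℝ) (f := fderiv ℝ H) (s := univ)
      (C := N) (x := x) (y := y) (fun z _ => hDd z) (fun z _ => hbd z) convex_univ (mem_univ _)
      (mem_univ _)
    simpa using this
  have h3 := (convex_closedBall x ‖v‖).norm_image_sub_le_of_norm_fderiv_le' (𝕜 := ℝ) (f := H)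
    (φ := fderiv ℝ H x) (C := N * ‖v‖) (x := x) (y := x + v) (fun z _ => hd z)
    (fun z hz => (hlip z).trans (by
      rw [mem_closedBall, dist_eq_norm] at hz
      exact mul_le_mul_of_nonneg_left hz hN))
    (mem_closedBall_self (norm_nonneg v)) (by simp [mem_closedBall, dist_eq_norm])
  rw [Real.norm_eq_abs, add_sub_cancel_left] at h3
  rw [pow_two, ← mul_assoc]
  exact h3

/-- reflection mapping ν^⊥ to ν'^⊥ -/
def Qr (ν ν' : Sp d) : Sp d ≃ₗᵢ[ℝ] Sp d := (Submodule.span ℝ {ν + ν'})ᗮ.reflection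

lemma Qr_apply (ν ν' y : Sp d) :
    Qr ν ν' y = y - (2 * (⟪ν + ν', y⟫_ℝ / ‖ν + ν'‖ ^ 2)) • (ν + ν') := by
  unfold Qr
  rw [Submodule.reflection_orthogonal_apply, Submodule.reflection_singleton_apply, neg_sub,
    mul_smul, two_smul, two_smul]
  rfl

lemma Qr_self {ν ν' : Sp d} (hν : ‖ν‖ = 1) (hν' : ‖ν'‖ = 1) : Qr ν ν' ν = -ν' := by
  have h := Submodule.reflection_sub (v := ν) (w := -ν') (by rw [norm_neg, hν, hν'])
  rw [sub_neg_eq_add] at h
  exact h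

lemma Qr_symm (ν ν' y : Sp d) : (Qr ν ν').symm y = Qr ν ν' y := by
  unfold Qr
  rw [Submodule.reflection_symm]

lemma Qr_map {ν ν' : Sp d} (hν : ‖ν‖ = 1) (hν' : ‖ν'‖ = 1) :
    (Pl ν).map ((Qr ν ν').toLinearEquiv : Sp d →ₗ[ℝ] Sp d) = Pl ν' := by
  ext z
  rw [Submodule.mem_map_equiv, Submodule.mem_orthogonal_singleton_iff_inner_right,
    Submodule.mem_orthogonal_singleton_iff_inner_right]
  have h1 : (Qr ν ν').toLinearEquiv.symm z = (Qr ν ν').symm z := rfl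
  have h2 : ⟪ν, (Qr ν ν').symm z⟫_ℝ = -⟪ν', z⟫_ℝ := by
    rw [← (Qr ν ν').inner_map_map, (Qr ν ν').apply_symm_apply, Qr_self hν hν', inner_neg_left]
  rw [h1, h2, neg_eq_zero]

/-- the isometry of the planes -/
def Qpl {ν ν' : Sp d} (hν : ‖ν‖ = 1) (hν' : ‖ν'‖ = 1) : Pl ν ≃ₗᵢ[ℝ] Pl ν' where
  toLinearEquiv := (Qr ν ν').toLinearEquiv.ofSubmodules (Pl ν) (Pl ν') (Qr_map hν hν')
  norm_map' := fun y => (Qr ν ν').norm_map (y : Sp d)

lemma Qpl_coe {ν ν' : Sp d} (hν : ‖ν‖ = 1) (hν' : ‖ν'‖ = 1) (y : Pl ν) :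
    ((Qpl hν hν' y : Pl ν') : Sp d) = Qr ν ν' (y : Sp d) := rfl

lemma plInt_rot {ν ν' : Sp d} (hν : ‖ν‖ = 1) (hν' : ‖ν'‖ = 1) (c : ℝ) (G : Sp d → ℝ) :
    plInt ν' c G = ∫ y : Pl ν, G (c • ν' + Qr ν ν' (y : Sp d)) := by
  unfold plInt
  have h := (Qpl hν hν').measurePreserving.integral_comp
    (Qpl hν hν').toHomeomorph.measurableEmbedding
    (fun y : Pl ν' => G (c • ν' + (y : Sp d)))
  rw [← h]
  rfl

lemma one_le_q (s : ℝ) : 1 ≤ Real.sqrt (1 + s ^ 2) := by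
  rw [Real.one_le_sqrt]
  nlinarith [sq_nonneg s]

/-- displacement between the two parametrisations -/
lemma displacement {ν w : Sp d} {c o q : ℝ} (hν : ‖ν‖ = 1) (hw : ⟪ν, w⟫_ℝ = 0)
    (hq : q = Real.sqrt (1 + ‖w‖ ^ 2)) (y : Sp d) (hy : ⟪ν, y⟫_ℝ = 0) :
    ((c + o) / q) • ((1 / q) • (ν - w)) + Qr ν ((1 / q) • (ν - w)) y = c • ν + y +
      (((⟪w, y⟫_ℝ + o) • ν - c • w) +
        ((((c + o) * (1 / q ^ 2 - 1)) + ⟪w, y⟫_ℝ * (1 / q - 1)) • ν -
          (((c + o) * (1 / q ^ 2 - 1)) + o + ⟪w, y⟫_ℝ / (q * (q + 1))) • w)) := by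
  have hq1 : 1 ≤ q := by rw [hq]; exact one_le_q _
  have hq0 : 0 < q := by linarith
  have hq2 : q ^ 2 = 1 + ‖w‖ ^ 2 := by
    rw [hq, Real.sq_sqrt (by positivity)]
  have hn : ‖ν + (1 / q) • (ν - w)‖ ^ 2 = 2 * (q + 1) / q := by
    have e1 : ν + (1 / q) • (ν - w) = (1 + 1 / q) • ν - (1 / q) • w := by
      rw [smul_sub, add_smul, one_smul]
      abel
    rw [e1, norm_sub_sq_real, norm_smul, norm_smul, hν, inner_smul_left, inner_smul_right, hw]
    simp only [Real.norm_eq_abs, mul_one, mul_zero, sub_zero, mul_pow, sq_abs]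
    have : ‖w‖ ^ 2 = q ^ 2 - 1 := by linarith
    rw [this]
    field_simp
    ring
  have hi : ⟪ν + (1 / q) • (ν - w), y⟫_ℝ = -(⟪w, y⟫_ℝ / q) := by
    rw [inner_add_left, inner_smul_left, inner_sub_left, hy]
    simp
    ring
  rw [Qr_apply, hn, hi]
  set t := ⟪w, y⟫_ℝ with ht
  have hv : (2 * (-(t / q) / (2 * (q + 1) / q))) = -(t / (q + 1)) := by
    field_simp
  rw [hv]
  have e2 : ∀ (a b : ℝ), a • ((1 / q) • (ν - w)) + (y - b • (ν + (1 / q) • (ν - w))) =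
      (a / q - b * (1 + 1 / q)) • ν + y - (a / q - b / q) • w := by
    intro a b
    module
  rw [e2]
  have e3 : (c + o) / q / q - -(t / (q + 1)) * (1 + 1 / q) =
      c + (t + o) + ((c + o) * (1 / q ^ 2 - 1) + t * (1 / q - 1)) := by
    field_simp
    ring
  have e4 : (c + o) / q / q - -(t / (q + 1)) / q =
      c + ((c + o) * (1 / q ^ 2 - 1) + o + t / (q * (q + 1))) := by
    field_simp
    ring
  rw [e3, e4]
  module

lemma q_bounds {s q : ℝ} (hs : 0 ≤ s) (hs1 : s ≤ 1) (hq : q = Real.sqrt (1 + s ^ 2)) :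
    1 ≤ q ∧ q ≤ 2 ∧ |1 / q ^ 2 - 1| ≤ s ^ 2 ∧ |1 / q - 1| ≤ s ^ 2 := by
  have hq1 : 1 ≤ q := by rw [hq]; exact one_le_q _
  have hq0 : 0 < q := by linarith
  have hq2 : q ^ 2 = 1 + s ^ 2 := by
    rw [hq, Real.sq_sqrt (by positivity)]
  have h2 : 1 / q ^ 2 ≤ 1 := by
    rw [div_le_one (by positivity)]
    nlinarith
  have h3 : 1 - 1 / q ^ 2 ≤ s ^ 2 := by
    rw [sub_le_iff_le_add, ← sub_le_iff_le_add', le_div_iff₀ (by positivity), hq2]
    nlinarith [sq_nonneg (s ^ 2)]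
  have h4 : 1 / q ≤ 1 := by
    rw [div_le_one hq0]
    exact hq1
  have h5 : 1 / q ^ 2 ≤ 1 / q := by
    apply one_div_le_one_div_of_le hq0
    nlinarith
  refine ⟨hq1, by nlinarith, ?_, ?_⟩
  · rw [abs_sub_comm, abs_of_nonneg (by linarith)]
    exact h3
  · rw [abs_sub_comm, abs_of_nonneg (by linarith)]
    linarith

/-- comparison of the plane integrals over close planes, second order -/
theorem rot_cmp (hd : 1 ≤ d) (ρ : ℝ) (hρ : 1 ≤ ρ) : ∃ C : ℝ, 0 < C ∧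
    ∀ (ν w : Sp d) (c o q : ℝ), ‖ν‖ = 1 → ⟪ν, w⟫_ℝ = 0 → ‖w‖ ≤ 1 → |o| ≤ 1 → |c| ≤ ρ →
      q = Real.sqrt (1 + ‖w‖ ^ 2) →
      ∀ (G : Sp d → ℝ) (N : ℝ), TFn 2 N G → (∀ y, ρ < ‖y‖ → G y = 0) →
        |plInt ν c (fun y => G y + (⟪w, y⟫_ℝ + o) * fderiv ℝ G y ν) -
          plInt ((1 / q) • (ν - w)) ((c + o) / q) G| ≤ C * N * (‖w‖ ^ 2 + o ^ 2) := by
  obtain ⟨C, hC, hb⟩ := pl_bound hd ρ
  refine ⟨C * (1000 * ρ ^ 4), by positivity, ?_⟩
  intro ν w c o q hν hw hw1 ho1 hc hq G N hG hGs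
  obtain ⟨hq1, hq2, hqa, hqb⟩ := q_bounds (norm_nonneg w) hw1 hq
  have hq0 : 0 < q := by linarith
  have hN := TFn_nonneg hG
  set ν' : Sp d := (1 / q) • (ν - w) with hν'
  have hν'1 : ‖ν'‖ = 1 := by
    have h1 : ‖ν - w‖ ^ 2 = q ^ 2 := by
      rw [norm_sub_sq_real, hν, hw, hq, Real.sq_sqrt (by positivity)]
      ring
    have h2 : ‖ν - w‖ = q := by
      rw [← Real.sqrt_sq (norm_nonneg _), h1, Real.sqrt_sq hq0.le]
    rw [hν', norm_smul, h2, Real.norm_of_nonneg (by positivity)]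
    field_simp
  have hGc : Continuous G := hG.smooth.continuous
  have hG1 : ContDiff ℝ 1 G := hG.smooth.of_le (by norm_num)
  have hGd : Continuous (fderiv ℝ G) := hG1.continuous_fderiv one_ne_zero
  have hGcs : HasCompactSupport G :=
    HasCompactSupport.intro (isCompact_closedBall (0 : Sp d) ρ) fun y hy => hGs y (by
      rw [mem_closedBall, dist_zero_right, not_le] at hy
      exact hy)
  have hGd0 : ∀ y, ρ < ‖y‖ → fderiv ℝ G y = 0 := by
    intro y hy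
    have h1 : G =ᶠ[nhds y] fun _ => 0 := by
      filter_upwards [(isOpen_lt continuous_const continuous_norm).mem_nhds hy] with z hz
      exact hGs z hz
    rw [h1.fderiv_eq]
    simp
  have hGdN : ∀ y, ‖fderiv ℝ G y‖ ≤ N := fun y => by
    rw [← norm_iteratedFDeriv_one]
    exact hG.bd 1 (by norm_num) y
  set g : Pl ν → ℝ := fun y => G (((c + o) / q) • ν' + Qr ν ν' (y : Sp d)) -
    (G (c • ν + (y : Sp d)) + (⟪w, c • ν + (y : Sp d)⟫_ℝ + o) *
      fderiv ℝ G (c • ν + (y : Sp d)) ν) + c * fderiv ℝ G (c • ν + (y : Sp d)) w with hg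
  have hwy : ∀ y : Pl ν, ⟪w, c • ν + (y : Sp d)⟫_ℝ = ⟪w, (y : Sp d)⟫_ℝ := fun y => by
    rw [inner_add_right, inner_smul_right, real_inner_comm ν w, hw]
    ring
  have hgs : ∀ y, g y ≠ 0 → ‖y‖ ≤ ρ := by
    intro y hy
    by_contra h
    push Not at h
    apply hy
    have h1 : ρ < ‖c • ν + (y : Sp d)‖ := by
      have h2 := norm_plane hν c y
      nlinarith [norm_nonneg (c • ν + (y : Sp d)), sq_nonneg c, norm_nonneg y]
    have h3 : ρ < ‖((c + o) / q) • ν' + Qr ν ν' (y : Sp d)‖ := by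
      have h2 := norm_plane hν'1 ((c + o) / q) (Qpl hν hν'1 y)
      rw [Qpl_coe, (Qpl hν hν'1).norm_map] at h2
      nlinarith [norm_nonneg (((c + o) / q) • ν' + Qr ν ν' (y : Sp d)),
        sq_nonneg ((c + o) / q), norm_nonneg y]
    simp only [hg, hGs _ h1, hGs _ h3, hGd0 _ h1]
    simp
  have hgb : ∀ y, |g y| ≤ 1000 * ρ ^ 4 * N * (‖w‖ ^ 2 + o ^ 2) := by
    intro y
    by_cases hyρ : ‖y‖ ≤ ρ
    swap
    · have : g y = 0 := by
        by_contra h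
        exact hyρ (hgs y h)
      rw [this, abs_zero]
      positivity
    set t := ⟪w, (y : Sp d)⟫_ℝ with ht
    have htb : |t| ≤ ‖w‖ * ρ := (abs_real_inner_le_norm _ _).trans
      (mul_le_mul_of_nonneg_left hyρ (norm_nonneg _))
    set h1 : Sp d := (t + o) • ν - c • w with hh1
    set h2 : Sp d := (((c + o) * (1 / q ^ 2 - 1)) + t * (1 / q - 1)) • ν -
      (((c + o) * (1 / q ^ 2 - 1)) + o + t / (q * (q + 1))) • w with hh2
    have hdis : ((c + o) / q) • ν' + Qr ν ν' (y : Sp d) = c • ν + (y : Sp d) + (h1 + h2) :=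
      displacement hν hw hq (y : Sp d) (inner_pl ν y)
    have hco : |c + o| ≤ 2 * ρ := (abs_add_le _ _).trans (by linarith)
    have hS0 : 0 ≤ ‖w‖ ^ 2 + o ^ 2 := by positivity
    have hSw : ‖w‖ ^ 2 ≤ ‖w‖ ^ 2 + o ^ 2 := by nlinarith [sq_nonneg o]
    have hSo : |o| * ‖w‖ ≤ ‖w‖ ^ 2 + o ^ 2 := by
      nlinarith [sq_nonneg (|o| - ‖w‖), sq_abs o, abs_nonneg o, norm_nonneg w]
    set S := ‖w‖ ^ 2 + o ^ 2 with hS
    have hS2 : S ≤ 2 := by
      have e1 : ‖w‖ ^ 2 ≤ 1 := by nlinarith [norm_nonneg w]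
      have e2 : o ^ 2 ≤ 1 := by nlinarith [sq_abs o, abs_nonneg o]
      linarith
    have hw0 := norm_nonneg w
    have hρ0 : 0 ≤ ρ := by linarith
    have b1 : ‖h1‖ ≤ (2 * ρ) * ‖w‖ + |o| := by
      rw [hh1]
      refine (norm_sub_le _ _).trans ?_
      rw [norm_smul, norm_smul, hν, mul_one, Real.norm_eq_abs, Real.norm_eq_abs]
      have e1 : |t + o| ≤ ‖w‖ * ρ + |o| := (abs_add_le _ _).trans (by linarith)
      have e2 : |c| * ‖w‖ ≤ ρ * ‖w‖ := mul_le_mul_of_nonneg_right hc hw0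
      linarith
    have b1' : ‖h1‖ ^ 2 ≤ 8 * ρ ^ 2 * S := by
      have e1 : ‖h1‖ ^ 2 ≤ ((2 * ρ) * ‖w‖ + |o|) ^ 2 := pow_le_pow_left₀ (norm_nonneg _) b1 2
      have e2 : ((2 * ρ) * ‖w‖ + |o|) ^ 2 ≤ 2 * (((2 * ρ) * ‖w‖) ^ 2 + |o| ^ 2) := by
        nlinarith [sq_nonneg ((2 * ρ) * ‖w‖ - |o|)]
      have e3 : |o| ^ 2 = o ^ 2 := sq_abs o
      have e4 : o ^ 2 ≤ ρ ^ 2 * o ^ 2 := le_mul_of_one_le_left (sq_nonneg o) (one_le_pow₀ hρ)
      rw [e3] at e2
      nlinarith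
    have b2 : ‖h2‖ ≤ 12 * ρ * S := by
      rw [hh2]
      refine (norm_sub_le _ _).trans ?_
      rw [norm_smul, norm_smul, hν, mul_one, Real.norm_eq_abs, Real.norm_eq_abs]
      have e0 : |(c + o) * (1 / q ^ 2 - 1)| ≤ 2 * ρ * ‖w‖ ^ 2 := by
        rw [abs_mul]
        exact mul_le_mul hco hqa (abs_nonneg _) (by linarith)
      have e1 : |t * (1 / q - 1)| ≤ ρ * ‖w‖ ^ 2 := by
        rw [abs_mul]
        calc |t| * |1 / q - 1| ≤ (‖w‖ * ρ) * ‖w‖ ^ 2 :=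
              mul_le_mul htb hqb (abs_nonneg _) (by positivity)
          _ ≤ (1 * ρ) * ‖w‖ ^ 2 := by gcongr
          _ = _ := by ring
      have e2 : |t / (q * (q + 1))| ≤ ρ * ‖w‖ := by
        rw [abs_div, abs_of_pos (show 0 < q * (q + 1) by positivity),
          div_le_iff₀ (by positivity)]
        have : 1 ≤ q * (q + 1) := by nlinarith
        nlinarith [mul_nonneg hρ0 hw0]
      have e3 : |(c + o) * (1 / q ^ 2 - 1) + t * (1 / q - 1)| ≤ 3 * ρ * S := by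
        refine (abs_add_le _ _).trans ?_
        nlinarith
      have e4 : |(c + o) * (1 / q ^ 2 - 1) + o + t / (q * (q + 1))| * ‖w‖ ≤ 5 * ρ * S := by
        have f1 : |(c + o) * (1 / q ^ 2 - 1) + o + t / (q * (q + 1))| ≤
            2 * ρ * ‖w‖ ^ 2 + |o| + ρ * ‖w‖ := by
          refine (abs_add_le _ _).trans (add_le_add ((abs_add_le _ _).trans ?_) e2)
          linarith
        have f2 := mul_le_mul_of_nonneg_right f1 hw0
        have f3 : 2 * ρ * ‖w‖ ^ 2 * ‖w‖ ≤ 2 * ρ * S := by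
          have : ‖w‖ ^ 2 * ‖w‖ ≤ S * 1 := mul_le_mul hSw hw1 hw0 hS0
          nlinarith
        have f4 : |o| * ‖w‖ ≤ ρ * S := by nlinarith
        have f5 : ρ * ‖w‖ * ‖w‖ ≤ ρ * S := by nlinarith
        nlinarith
      linarith [mul_nonneg hρ0 hS0]
    have b2' : ‖h2‖ ^ 2 ≤ 288 * ρ ^ 2 * S := by
      have e1 : ‖h2‖ ^ 2 ≤ (12 * ρ * S) ^ 2 := pow_le_pow_left₀ (norm_nonneg _) b2 2
      have e2 : (12 * ρ * S) ^ 2 ≤ 288 * ρ ^ 2 * S := by
        have : S ^ 2 ≤ 2 * S := by nlinarith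
        nlinarith [sq_nonneg ρ]
      linarith
    have b3 : ‖h1 + h2‖ ^ 2 ≤ 592 * ρ ^ 2 * S := by
      have e1 : ‖h1 + h2‖ ^ 2 ≤ (‖h1‖ + ‖h2‖) ^ 2 :=
        pow_le_pow_left₀ (norm_nonneg _) (norm_add_le _ _) 2
      nlinarith [sq_nonneg (‖h1‖ - ‖h2‖)]
    have hgy : g y = (G (c • ν + (y : Sp d) + (h1 + h2)) - G (c • ν + (y : Sp d)) -
        fderiv ℝ G (c • ν + (y : Sp d)) (h1 + h2)) + fderiv ℝ G (c • ν + (y : Sp d)) h2 := by
      have e1 : fderiv ℝ G (c • ν + (y : Sp d)) h1 =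
          (t + o) * fderiv ℝ G (c • ν + (y : Sp d)) ν -
            c * fderiv ℝ G (c • ν + (y : Sp d)) w := by
        rw [hh1, map_sub, map_smul, map_smul, smul_eq_mul, smul_eq_mul]
      simp only [hg]
      rw [hdis, hwy, ← ht, map_add, e1]
      ring
    rw [hgy]
    refine (abs_add_le _ _).trans ?_
    have t1 := taylor2 hG (c • ν + (y : Sp d)) (h1 + h2)
    have t2 : |fderiv ℝ G (c • ν + (y : Sp d)) h2| ≤ N * ‖h2‖ := by
      rw [← Real.norm_eq_abs]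
      refine ((fderiv ℝ G (c • ν + (y : Sp d))).le_opNorm h2).trans ?_
      exact mul_le_mul_of_nonneg_right (hGdN _) (norm_nonneg _)
    have t3 : N * ‖h1 + h2‖ ^ 2 ≤ N * (592 * ρ ^ 2 * S) := mul_le_mul_of_nonneg_left b3 hN
    have t4 : N * ‖h2‖ ≤ N * (12 * ρ * S) := mul_le_mul_of_nonneg_left b2 hN
    have t5 : N * (592 * ρ ^ 2 * S) + N * (12 * ρ * S) ≤ 1000 * ρ ^ 4 * N * S := by
      have r1 : ρ ≤ ρ ^ 2 := by nlinarith
      have r2 : ρ ^ 2 ≤ ρ ^ 4 := by nlinarith [sq_nonneg ρ]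
      have : 592 * ρ ^ 2 + 12 * ρ ≤ 1000 * ρ ^ 4 := by nlinarith
      have h9 := mul_le_mul_of_nonneg_left this (mul_nonneg hN hS0)
      nlinarith
    linarith
  have hmain := hb ν hν g _ hgb hgs
  have hint1 : Integrable (fun y : Pl ν => G (((c + o) / q) • ν' + Qr ν ν' (y : Sp d))) := by
    refine Continuous.integrable_of_hasCompactSupport (hGc.comp (by fun_prop)) ?_
    refine HasCompactSupport.intro (isCompact_closedBall (0 : Pl ν) ρ) fun y hy => ?_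
    rw [mem_closedBall, dist_zero_right, not_le] at hy
    refine hGs _ ?_
    have h2 := norm_plane hν'1 ((c + o) / q) (Qpl hν hν'1 y)
    rw [Qpl_coe, (Qpl hν hν'1).norm_map] at h2
    nlinarith [norm_nonneg (((c + o) / q) • ν' + Qr ν ν' (y : Sp d)),
      sq_nonneg ((c + o) / q), norm_nonneg y]
  have htan : ∀ y : Sp d, ‖y‖ ≤ ρ → ‖tang ν y‖ ≤ ρ := fun y hy => (norm_tang_le hν y).trans hy
  have hGd1 : ∀ (v y : Sp d), fderiv ℝ G y v ≠ 0 → ‖y‖ ≤ ρ := by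
    intro v y hy
    by_contra h
    push Not at h
    exact hy (by rw [hGd0 y h]; rfl)
  have hint2 : Integrable (fun y : Pl ν => G (c • ν + (y : Sp d)) +
      (⟪w, c • ν + (y : Sp d)⟫_ℝ + o) * fderiv ℝ G (c • ν + (y : Sp d)) ν) := by
    refine integrable_pl (F := fun y => G y + (⟪w, y⟫_ℝ + o) * fderiv ℝ G y ν) hν
      (hGc.add (((continuous_const.inner continuous_id).add continuous_const).mul
        (hGd.clm_apply continuous_const))) (ρ := ρ) ?_ c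
    intro y hy
    by_contra h
    push Not at h
    have h1 : ρ < ‖y‖ := h.trans_le (norm_tang_le hν y)
    apply hy
    rw [hGs y h1, hGd0 y h1]
    simp
  have hint3 : Integrable (fun y : Pl ν => c * fderiv ℝ G (c • ν + (y : Sp d)) w) := by
    refine integrable_pl (F := fun y => c * fderiv ℝ G y w) hν
      (continuous_const.mul (hGd.clm_apply continuous_const)) (ρ := ρ) ?_ c
    intro y hy
    exact htan y (hGd1 w y (right_ne_zero_of_mul hy))
  have hPF : plInt ν c (fun y => fderiv ℝ G y w) = 0 :=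
    ((stmtPF d hd).2 ν hν).2.2.2.2.1 G hG1 hGcs c w hw
  have hsplit : ∫ y, g y = plInt ν' ((c + o) / q) G -
      plInt ν c (fun y => G y + (⟪w, y⟫_ℝ + o) * fderiv ℝ G y ν) := by
    have e1 : ∫ y, g y = (∫ y : Pl ν, (G (((c + o) / q) • ν' + Qr ν ν' (y : Sp d)) -
        (G (c • ν + (y : Sp d)) + (⟪w, c • ν + (y : Sp d)⟫_ℝ + o) *
          fderiv ℝ G (c • ν + (y : Sp d)) ν))) +
        ∫ y : Pl ν, c * fderiv ℝ G (c • ν + (y : Sp d)) w :=
      integral_add (hint1.sub hint2) hint3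
    have e2 : (∫ y : Pl ν, (G (((c + o) / q) • ν' + Qr ν ν' (y : Sp d)) -
        (G (c • ν + (y : Sp d)) + (⟪w, c • ν + (y : Sp d)⟫_ℝ + o) *
          fderiv ℝ G (c • ν + (y : Sp d)) ν))) =
        (∫ y : Pl ν, G (((c + o) / q) • ν' + Qr ν ν' (y : Sp d))) -
        ∫ y : Pl ν, (G (c • ν + (y : Sp d)) + (⟪w, c • ν + (y : Sp d)⟫_ℝ + o) *
          fderiv ℝ G (c • ν + (y : Sp d)) ν) := integral_sub hint1 hint2
    have e3 : ∫ y : Pl ν, c * fderiv ℝ G (c • ν + (y : Sp d)) w =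
        c * plInt ν c (fun y => fderiv ℝ G y w) := integral_const_mul _ _
    rw [e1, e2, e3, hPF, mul_zero, add_zero, ← plInt_rot hν hν'1]
    rfl
  rw [abs_sub_comm, ← hsplit]
  refine hmain.trans (le_of_eq ?_)
  ring

end

end SAm

end TG
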