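import Pool.Agent.TG.SA3

/-!
# Sheet lemma (module SA), part 4: the frame of the sheet, abstract density (helper65)
-/

open MeasureTheory Metric Set TrI
open scoped InnerProductSpace ContDiff

namespace TG

namespace SAm

noncomputable section

open TU PF

variable {d : ℕ}

/-- sheet data at unit scale, for an abstract density m -/
structure SFr (JB : ℕ) (C0 R0 : ℝ) (m : Sp d → ℝ) (ν : Sp d) (c a B η al : ℝ) (w : Sp d) :
    Prop where
  cont : Continuous m
  nu : ‖ν‖ = 1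
  cle : |c| ≤ R0 / 3
  a0 : 0 < a
  B0 : 0 ≤ B
  Ba : B ≤ a
  eta0 : 0 ≤ η
  eta : η ≤ C0 * Real.sqrt (a * B)
  Z : ∀ (H : Sp d → ℝ) (N : ℝ), TFn 2 N H → (∀ y, 0 ≤ H y) → (∀ y, R0 + 1 ≤ ‖y‖ → H y = 0) →
    -(C0 * N * B) ≤ ∫ y, m y * H y
  mass : ∫ y, m y * zR (R0 - 2) y ≤ C0 * a
  bb : ∫ y, m y * (zR R0 y * ht ν c y ^ 2) ≤ C0 * B
  wn : ⟪ν, w⟫_ℝ = 0
  al_le : |al| ≤ C0 * a
  SH : ∀ (ψ : Sp d → ℝ) (Y : Sp d → Sp d) (N : ℝ), TFn JB N ψ → TFn JB N Y →
    Cyl ν (R0 / 2) ψ → Cyl ν (R0 / 2) Y → (∀ y, ⟪ν, Y y⟫_ℝ = 0) →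
    |(∫ y, m y * (cu1 4 (ht ν c y) * (ψ y - ht ν c y * dv Y y))) -
      (al * plInt ν c ψ + plInt ν c (fun y => ⟪w, Y y⟫_ℝ))| ≤ C0 * N * η

lemma int_m {m H : Sp d → ℝ} (hm : Continuous m) (hH : Continuous H) {R : ℝ}
    (hs : ∀ y, R < ‖y‖ → H y = 0) : Integrable (fun y => m y * H y) := by
  refine (hm.mul hH).integrable_of_hasCompactSupport ?_
  refine HasCompactSupport.intro (isCompact_closedBall (0 : Sp d) R) fun y hy => ?_
  rw [mem_closedBall, dist_zero_right, not_le] at hy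
  show m y * H y = 0
  rw [hs y hy, mul_zero]

lemma zR_contDiff {R : ℝ} (hR : 0 < R) (J : ℕ) : ContDiff ℝ J (zR R : Sp d → ℝ) :=
  contDiff_infty.1 (zR_smooth hR) J

lemma zR_mono {R R' : ℝ} (h : R ≤ R') (y : Sp d) : zR R y ≤ zR R' y :=
  Real.smoothTransition.monotone (by linarith)

lemma ht_eq (ν : Sp d) (c : ℝ) : ht ν c = fun y => ⟪ν, y⟫_ℝ + (-c) := by
  funext y
  unfold ht
  ring

lemma ht_cont (ν : Sp d) (c : ℝ) : Continuous (ht ν c) := (ht_smooth ν c (n := 0)).continuous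

/-- first lemma: densities of second order at the plane -/
lemma L1 (R0 C0 : ℝ) (hR0 : 100 ≤ R0) (hC0 : 0 < C0) : ∃ C : ℝ, 0 < C ∧
    ∀ (JB : ℕ) (m : Sp d → ℝ) (ν : Sp d) (c a B η al : ℝ) (w : Sp d),
      SFr JB C0 R0 m ν c a B η al w →
      (∫ y, m y * (zR (R0 - 2) y * ht ν c y ^ 2) ≤ C * B) ∧
      (∀ N : ℝ, 0 ≤ N → TFn 2 (C * N) (fun y => N * (zR (R0 - 2) y * ht ν c y ^ 2))) ∧
      ∀ (G : Sp d → ℝ) (N : ℝ), TFn 2 N G → (∀ y, |G y| ≤ N * ht ν c y ^ 2) →
        (∀ y, R0 - 2 < ‖y‖ → G y = 0) → |∫ y, m y * G y| ≤ C * N * B := by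
  obtain ⟨N1, hN1, hz1⟩ := TFn_of_cs (J := 2) (ζ := (zR (R0 - 2) : Sp d → ℝ))
    (zR_contDiff (by linarith) 2) (zR_cs _)
  obtain ⟨N2, hN2, hz2⟩ := TFn_of_cs (J := 2) (ζ := (zR R0 : Sp d → ℝ))
    (zR_contDiff (by linarith) 2) (zR_cs _)
  set K1 := 4 ^ 2 * N1 * max 1 ((R0 - 1) + R0 / 3) ^ 2 with hK1
  set K2 := 4 ^ 2 * N2 * max 1 ((R0 + 1) + R0 / 3) ^ 2 with hK2
  have hK1' : 0 < K1 := by positivity
  have hK2' : 0 < K2 := by positivity
  refine ⟨C0 + C0 * (K1 + K2) + C0 * (K1 + 1) + K1, by positivity, ?_⟩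
  intro JB m ν c a B η al w h
  have hz : ∫ y, m y * (zR (R0 - 2) y * ht ν c y ^ 2) ≤ (C0 + C0 * (K1 + K2)) * B := by
    have t1 := TFn_ht_sq hz1 (ρ := R0 - 1) (fun y hy => zR_zero (by linarith)) h.nu h.cle
    have t2 := TFn_ht_sq hz2 (ρ := R0 + 1) (fun y hy => zR_zero (by linarith)) h.nu h.cle
    have t3 := TFn_sub t2 t1
    have h1 := h.Z _ _ t3 (fun y => by
      have := zR_mono (show R0 - 2 ≤ R0 by linarith) y
      have h2 := sq_nonneg (ht ν c y)
      nlinarith) (fun y hy => by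
      rw [zR_zero (by linarith), zR_zero (by linarith)]
      ring)
    have hc1 : Continuous (fun y => zR (R0 - 2) y * ht ν c y ^ 2) := t1.smooth.continuous
    have hc2 : Continuous (fun y => zR R0 y * ht ν c y ^ 2) := t2.smooth.continuous
    have i1 := int_m h.cont hc1 (R := R0 + 1) (fun y hy => by
      rw [zR_zero (by linarith), zero_mul])
    have i2 := int_m h.cont hc2 (R := R0 + 1) (fun y hy => by
      rw [zR_zero (by linarith), zero_mul])
    have e1 : ∫ y, m y * (zR R0 y * ht ν c y ^ 2 - zR (R0 - 2) y * ht ν c y ^ 2) =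
        (∫ y, m y * (zR R0 y * ht ν c y ^ 2)) - ∫ y, m y * (zR (R0 - 2) y * ht ν c y ^ 2) := by
      rw [← integral_sub i2 i1]
      congr 1
      funext y
      ring
    rw [e1] at h1
    have h2 := h.bb
    have h3 : C0 * (K2 + K1) * B = C0 * (K1 + K2) * B := by ring
    simp only [← hK1, ← hK2] at h1
    rw [h3] at h1
    linarith
  have hT : ∀ N : ℝ, 0 ≤ N → TFn 2 (K1 * N) (fun y => N * (zR (R0 - 2) y * ht ν c y ^ 2)) := by
    intro N hN
    have t1 := TFn_ht_sq hz1 (ρ := R0 - 1) (fun y hy => zR_zero (by linarith)) h.nu h.cle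
    refine TFn_mono (TFn_const_mul t1 N) le_rfl (le_of_eq ?_)
    rw [abs_of_nonneg hN, hK1]
    ring
  refine ⟨?_, fun N hN => TFn_mono (hT N hN) le_rfl ?_, ?_⟩
  · refine hz.trans ?_
    refine mul_le_mul_of_nonneg_right ?_ h.B0
    have : 0 < C0 * (K1 + 1) := by positivity
    linarith
  · refine mul_le_mul_of_nonneg_right ?_ hN
    have h1 : 0 < C0 * (K1 + 1) := by positivity
    have h2 : 0 < C0 * (K1 + K2) := by positivity
    linarith
  · intro G N hG hGb hGs
    have hN := TFn_nonneg hG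
    have hGc : Continuous G := hG.smooth.continuous
    have iG := int_m h.cont hGc hGs
    have iz := int_m h.cont (hT N hN).smooth.continuous (R := R0 + 1) (fun y hy => by
      rw [zR_zero (by linarith)]
      ring)
    have key : ∀ σ : ℝ, (σ = 1 ∨ σ = -1) → -(σ * ∫ y, m y * G y) ≤
        N * ((C0 + C0 * (K1 + K2)) * B) + C0 * (K1 * N + N) * B := by
      intro σ hσ
      have hσ1 : |σ| = 1 := by rcases hσ with rfl | rfl <;> simp
      have t1 := TFn_add (hT N hN) (TFn_const_mul hG σ)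
      rw [hσ1, one_mul] at t1
      have h1 := h.Z _ _ t1 (fun y => by
        rcases le_or_gt ‖y‖ (R0 - 2) with hy | hy
        · rw [zR_one hy, one_mul]
          have h2 := hGb y
          have h3 : |σ * G y| ≤ N * ht ν c y ^ 2 := by
            rw [abs_mul, hσ1, one_mul]
            exact h2
          linarith [(abs_le.1 h3).1]
        · rw [hGs y hy]
          have := zR_nonneg (R0 - 2) y
          rw [mul_zero, add_zero]
          positivity) (fun y hy => by
        rw [zR_zero (by linarith), hGs y (by linarith)]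
        ring)
      have e1 : ∫ y, m y * (N * (zR (R0 - 2) y * ht ν c y ^ 2) + σ * G y) =
          N * (∫ y, m y * (zR (R0 - 2) y * ht ν c y ^ 2)) + σ * ∫ y, m y * G y := by
        rw [← integral_const_mul, ← integral_const_mul, ← integral_add]
        · congr 1
          funext y
          ring
        · refine iz.congr (Filter.Eventually.of_forall fun y => ?_)
          ring
        · exact iG.const_mul σ
      rw [e1] at h1
      have h2 := mul_le_mul_of_nonneg_left hz hN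
      linarith
    have k1 := key 1 (Or.inl rfl)
    have k2 := key (-1) (Or.inr rfl)
    have hB := h.B0
    have hfin : N * ((C0 + C0 * (K1 + K2)) * B) + C0 * (K1 * N + N) * B ≤
        (C0 + C0 * (K1 + K2) + C0 * (K1 + 1) + K1) * N * B := by
      have : 0 ≤ K1 * N * B := by positivity
      nlinarith
    rw [abs_le]
    constructor <;> linarith

end

end SAm

end TG
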