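import Pool.Agent.TG.SA4

/-!
# Sheet lemma (module SA), part 5: first moments over the plane (helper65)
-/

open MeasureTheory Metric Set TrI
open scoped InnerProductSpace ContDiff

namespace TG

namespace SAm

noncomputable section

open TU PF

variable {d : ℕ}

/-- the first moment functional -/
def K1 (m : Sp d → ℝ) (ν : Sp d) (c : ℝ) (ζ : Sp d → ℝ) : ℝ :=
  ∫ y, m y * (cu1 4 (ht ν c y) * (ht ν c y * ζ y))

lemma cutK (d J : ℕ) (R0 : ℝ) (hR0 : 100 ≤ R0) : ∃ C : ℝ, 0 < C ∧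
    ∀ (ν : Sp d) (c : ℝ), ‖ν‖ = 1 → |c| ≤ R0 / 3 → ∀ (ζ : Sp d → ℝ) (N : ℝ), TFn J N ζ →
      Cyl ν (R0 / 2) ζ → TFn J (C * N) (fun y => cu1 4 (ht ν c y) * ζ y) ∧
        TFn J (C * N) (fun y => cu1 4 (ht ν c y) * (ht ν c y * ζ y)) ∧
        ∀ y, R0 - 2 < ‖y‖ → cu1 4 (ht ν c y) * ζ y = 0 := by
  obtain ⟨Nc, hNc, hcu⟩ := cu1_TFn d J
  refine ⟨2 ^ J * Nc + 2 ^ J * (2 ^ J * Nc * (1 + R0 + R0 / 3)), by positivity, ?_⟩
  intro ν c hν hc ζ N hζ hC
  have hN := TFn_nonneg hζ
  have t1 := TFn_mul (hcu 4 (by norm_num) ν c hν) hζ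
  have hs : ∀ y, R0 - 2 < ‖y‖ → cu1 4 (ht ν c y) * ζ y = 0 := by
    intro y hy
    by_contra h
    have h1 := left_ne_zero_of_mul h
    have h2 := hC.supp y (right_ne_zero_of_mul h)
    have h3 : |ht ν c y| < 5 := by
      by_contra h4
      push Not at h4
      exact h1 (cu1_zero (by linarith))
    have h4 := norm_le_tang hν y
    have h5 : |⟪ν, y⟫_ℝ| ≤ |ht ν c y| + |c| := by
      have : ⟪ν, y⟫_ℝ = ht ν c y + c := by unfold ht; ring
      rw [this]
      exact abs_add_le _ _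
    linarith
  have t2 := TFn_mul_lin t1 (ρ := R0) (by linarith) (fun y hy => hs y (by linarith)) ν (-c)
  refine ⟨TFn_mono t1 le_rfl ?_, ?_, hs⟩
  · have : 0 ≤ 2 ^ J * (2 ^ J * Nc * (1 + R0 + R0 / 3)) * N := by positivity
    nlinarith
  · have e : (fun y => cu1 4 (ht ν c y) * (ht ν c y * ζ y)) =
        fun y => cu1 4 (ht ν c y) * ζ y * (⟪ν, y⟫_ℝ + (-c)) := by
      funext y
      have : ⟪ν, y⟫_ℝ + (-c) = ht ν c y := by unfold ht; ring
      rw [this]
      ring
    rw [e]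
    refine TFn_mono t2 le_rfl ?_
    rw [hν, abs_neg]
    have h1 : 1 * (1 + R0) + |c| ≤ 1 + R0 + R0 / 3 := by linarith
    have h2 : 2 ^ J * (2 ^ J * (Nc * N) * (1 * (1 + R0) + |c|)) ≤
        2 ^ J * (2 ^ J * (Nc * N) * (1 + R0 + R0 / 3)) := by
      have := mul_le_mul_of_nonneg_left h1 (show (0 : ℝ) ≤ 2 ^ J * (2 ^ J * (Nc * N)) by positivity)
      linarith
    refine h2.trans ?_
    have : 0 ≤ 2 ^ J * Nc * N := by positivity
    linarith

lemma opt {X K a B : ℝ} (ha : 0 < a) (hB : 0 ≤ B) (hBa : B ≤ a) (hK : 0 ≤ K)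
    (h : ∀ δ : ℝ, 0 < δ → δ ≤ 1 → δ * X ≤ K * (δ ^ 2 * a + B)) :
    X ≤ 2 * K * Real.sqrt (a * B) := by
  rcases hB.eq_or_lt with hB0 | hB0
  · rw [← hB0, mul_zero, Real.sqrt_zero, mul_zero]
    by_contra hX
    push Not at hX
    have hKa : 0 ≤ K * a := by positivity
    set δ := min 1 (X / (2 * (K * a + 1))) with hδ
    have hδ0 : 0 < δ := lt_min one_pos (by positivity)
    have h1 := h δ hδ0 (min_le_left _ _)
    rw [← hB0, add_zero] at h1
    have h2 : δ ≤ X / (2 * (K * a + 1)) := min_le_right _ _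
    rw [le_div_iff₀ (by positivity)] at h2
    have h3 : X ≤ K * a * δ := by
      have : δ * X ≤ δ * (K * a * δ) := by nlinarith
      exact le_of_mul_le_mul_left this hδ0
    nlinarith
  · set s := Real.sqrt (a * B) with hs
    have hs0 : 0 < s := Real.sqrt_pos.2 (by positivity)
    have hs2 : s ^ 2 = a * B := Real.sq_sqrt (by positivity)
    have hsa : s ≤ a := by
      rw [hs, Real.sqrt_le_left ha.le]
      nlinarith
    have h1 := h (s / a) (by positivity) ((div_le_one ha).2 hsa)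
    have h2 : (s / a) ^ 2 * a = B := by
      rw [div_pow, hs2]
      field_simp
    rw [h2] at h1
    have h3 : s * X ≤ s * (2 * K * s) := by
      have h4 := mul_le_mul_of_nonneg_left h1 ha.le
      have h5 : a * (s / a * X) = s * X := by field_simp
      rw [h5] at h4
      nlinarith
    exact le_of_mul_le_mul_left h3 hs0

/-- first moments are at most of the order of the square root -/
lemma L2 (R0 C0 : ℝ) (hR0 : 100 ≤ R0) (hC0 : 0 < C0) : ∃ C : ℝ, 0 < C ∧
    ∀ (JB : ℕ) (m : Sp d → ℝ) (ν : Sp d) (c a B η al : ℝ) (w : Sp d),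
      SFr JB C0 R0 m ν c a B η al w →
      ∀ (ζ : Sp d → ℝ) (N : ℝ), TFn 2 N ζ → Cyl ν (R0 / 2) ζ →
        |K1 m ν c ζ| ≤ C * N * Real.sqrt (a * B) := by
  obtain ⟨C1, hC1, hL⟩ := L1 (d := d) R0 C0 hR0 hC0
  obtain ⟨C2, hC2, hk⟩ := cutK d 2 R0 hR0
  obtain ⟨N1, hN1, hz1⟩ := TFn_of_cs (J := 2) (ζ := (zR (R0 - 2) : Sp d → ℝ))
    (zR_contDiff (by linarith) 2) (zR_cs _)
  set K := C0 + C1 + C0 * (N1 + C1 + 2 * C2) with hK
  have hK0 : 0 < K := by positivity
  refine ⟨K, hK0, ?_⟩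
  intro JB m ν c a B η al w h ζ N hζ hC
  have hN := TFn_nonneg hζ
  obtain ⟨hb, hT, _⟩ := hL JB m ν c a B η al w h
  obtain ⟨-, hk2, hks⟩ := hk ν c h.nu h.cle ζ N hζ hC
  have hks' : ∀ y, R0 - 2 < ‖y‖ → cu1 4 (ht ν c y) * (ht ν c y * ζ y) = 0 := by
    intro y hy
    have : cu1 4 (ht ν c y) * (ht ν c y * ζ y) = ht ν c y * (cu1 4 (ht ν c y) * ζ y) := by ring
    rw [this, hks y hy, mul_zero]
  have iK := int_m h.cont hk2.smooth.continuous hks'
  have iz := int_m h.cont (hT N hN).smooth.continuous (R := R0 + 1) (fun y hy => by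
    rw [zR_zero (by linarith)]
    ring)
  have iz1 := int_m h.cont hz1.smooth.continuous (R := R0 + 1) (fun y hy =>
    zR_zero (by linarith))
  have key : ∀ σ : ℝ, (σ = 1 ∨ σ = -1) → -(2 * σ * K1 m ν c ζ) ≤
      2 * (K * N) * Real.sqrt (a * B) := by
    intro σ hσ
    have hσ1 : |σ| = 1 := by rcases hσ with rfl | rfl <;> simp
    refine opt h.a0 h.B0 h.Ba (by positivity) ?_
    intro δ hδ hδ1
    have t0 := TFn_const_mul hz1 (N * δ ^ 2)
    have t1 := TFn_add (TFn_add t0 (hT N hN)) (TFn_const_mul hk2 (2 * δ * σ))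
    have e0 : |N * δ ^ 2| * N1 + C1 * N + |2 * δ * σ| * (C2 * N) ≤ (N1 + C1 + 2 * C2) * N := by
      rw [abs_mul (2 * δ), hσ1, abs_of_nonneg (show 0 ≤ N * δ ^ 2 by positivity),
        abs_of_pos (show 0 < 2 * δ by positivity)]
      have f1 : δ ^ 2 ≤ 1 := by nlinarith
      have f2 : N * δ ^ 2 * N1 ≤ N * 1 * N1 := by gcongr
      have f3 : 2 * δ * 1 * (C2 * N) ≤ 2 * 1 * 1 * (C2 * N) := by gcongr
      linarith
    have h1 := h.Z _ _ (TFn_mono t1 le_rfl e0) (fun y => by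
      rcases le_or_gt ‖y‖ (R0 - 2) with hy | hy
      · rw [zR_one hy]
        have g1 := TFn_norm hζ y
        rw [Real.norm_eq_abs] at g1
        have g2 := cu1_nonneg 4 (ht ν c y)
        have g3 := cu1_le_one 4 (ht ν c y)
        set z := ht ν c y with hz
        have g4 : |2 * δ * σ * (cu1 4 z * (z * ζ y))| ≤ 2 * δ * (|z| * N) := by
          rw [abs_mul, abs_mul (2 * δ), hσ1, abs_of_pos (show 0 < 2 * δ by positivity), mul_one,
            abs_mul, abs_mul, abs_of_nonneg g2]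
          refine mul_le_mul_of_nonneg_left ?_ (by positivity)
          calc cu1 4 z * (|z| * |ζ y|) ≤ 1 * (|z| * N) := by gcongr
            _ = _ := one_mul _
        have g5 : 2 * δ * (|z| * N) ≤ N * (δ ^ 2 + z ^ 2) := by
          have : 2 * δ * |z| ≤ δ ^ 2 + z ^ 2 := by
            nlinarith [sq_nonneg (δ - |z|), sq_abs z]
          nlinarith
        have g6 := (abs_le.1 g4).1
        nlinarith
      · rw [hks' y hy]
        have := zR_nonneg (R0 - 2) y
        rw [mul_zero, add_zero]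
        positivity) (fun y hy => by
      rw [zR_zero (by linarith), hks' y (by linarith)]
      ring)
    have e1 : ∫ y, m y * (N * δ ^ 2 * zR (R0 - 2) y + N * (zR (R0 - 2) y * ht ν c y ^ 2) +
        2 * δ * σ * (cu1 4 (ht ν c y) * (ht ν c y * ζ y))) =
        N * δ ^ 2 * (∫ y, m y * zR (R0 - 2) y) +
        N * (∫ y, m y * (zR (R0 - 2) y * ht ν c y ^ 2)) + 2 * δ * σ * K1 m ν c ζ := by
      unfold K1
      rw [← integral_const_mul, ← integral_const_mul, ← integral_const_mul, ← integral_add,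
        ← integral_add]
      · congr 1
        funext y
        ring
      · refine Integrable.add (iz1.const_mul _) ?_
        refine iz.congr (Filter.Eventually.of_forall fun y => ?_)
        ring
      · exact iK.const_mul _
      · exact iz1.const_mul _
      · refine iz.congr (Filter.Eventually.of_forall fun y => ?_)
        ring
    rw [e1] at h1
    have h2 : N * δ ^ 2 * (∫ y, m y * zR (R0 - 2) y) ≤ N * δ ^ 2 * (C0 * a) :=
      mul_le_mul_of_nonneg_left h.mass (by positivity)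
    have h3 := mul_le_mul_of_nonneg_left hb hN
    have hB := h.B0
    have ha := h.a0
    have f4 : 0 ≤ C1 * N * (δ ^ 2 * a) := by positivity
    have f5 : 0 ≤ C0 * (N1 + C1 + 2 * C2) * N * (δ ^ 2 * a) := by positivity
    have f6 : 0 ≤ C0 * N * B := by positivity
    have f7 : K * N * (δ ^ 2 * a + B) = C0 * N * (δ ^ 2 * a) + C1 * N * (δ ^ 2 * a) +
        C0 * (N1 + C1 + 2 * C2) * N * (δ ^ 2 * a) + C0 * N * B + C1 * N * B +
        C0 * (N1 + C1 + 2 * C2) * N * B := by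
      rw [hK]
      ring
    rw [f7]
    nlinarith
  have k1 := key 1 (Or.inl rfl)
  have k2 := key (-1) (Or.inr rfl)
  rw [abs_le]
  constructor <;> linarith

end

end SAm

end TG
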