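import Pool.Agent.TG.SA5

/-!
# Sheet lemma (module SA), part 6: the tilt and offset of the sheet (helper65)
-/

open MeasureTheory Metric Set TrI
open scoped InnerProductSpace ContDiff

namespace TG

namespace SAm

noncomputable section

open TU PF

variable {d : ℕ}

lemma TFn_zero {F : Type*} [NormedAddCommGroup F] [NormedSpace ℝ F] (J : ℕ) {N : ℝ}
    (hN : 0 ≤ N) : TFn J N (fun _ : Sp d => (0 : F)) where
  smooth := contDiff_const
  bd := by
    intro j _ x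
    have : iteratedFDeriv ℝ j (fun _ : Sp d => (0 : F)) x = 0 := by
      rw [show (fun _ : Sp d => (0 : F)) = 0 from rfl]
      simp
    rw [this, norm_zero]
    exact hN

lemma Cyl_zero {F : Type*} [NormedAddCommGroup F] (ν : Sp d) (ρ : ℝ) :
    Cyl ν ρ (fun _ : Sp d => (0 : F)) where
  const := fun _ => rfl
  supp := fun _ h => absurd rfl h

lemma Cyl_mono {F : Type*} [NormedAddCommGroup F] {ν : Sp d} {ρ ρ' : ℝ} {ζ : Sp d → F}
    (h : Cyl ν ρ ζ) (hρ : ρ ≤ ρ') : Cyl ν ρ' ζ where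
  const := h.const
  supp := fun y hy => (h.supp y hy).trans hρ

lemma dv_smul {χ : Sp d → ℝ} (hχ : Differentiable ℝ χ) (w y : Sp d) :
    dv (fun y => χ y • w) y = fderiv ℝ χ y w := by
  unfold dv
  have h1 : HasFDerivAt (fun y => χ y • w) ((fderiv ℝ χ y).smulRight w) y :=
    (hχ y).hasFDerivAt.smul_const w
  rw [h1.fderiv]
  have h2 : w = ∑ j : Fin d, w j • (EuclideanSpace.single j (1 : ℝ) : Sp d) := by
    ext i
    simp [Pi.single_apply]
  conv_rhs => rw [h2, map_sum]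
  refine Finset.sum_congr rfl fun j _ => ?_
  rw [map_smul, ContinuousLinearMap.smulRight_apply]
  simp only [PiLp.smul_apply, smul_eq_mul]
  ring

lemma dv_zero (y : Sp d) : dv (fun _ : Sp d => (0 : Sp d)) y = 0 := by
  unfold dv
  refine Finset.sum_eq_zero fun j _ => ?_
  rw [fderiv_fun_const]
  rfl

lemma K1_neg {m : Sp d → ℝ} {ν : Sp d} {c : ℝ} (ζ : Sp d → ℝ) :
    ∫ y, m y * (cu1 4 (ht ν c y) * (0 - ht ν c y * ζ y)) = -K1 m ν c ζ := by
  unfold K1
  rw [← integral_neg]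
  congr 1
  funext y
  ring

/-- bound of the vector -/
lemma L3 (hd : 1 ≤ d) (JB : ℕ) (R0 C0 : ℝ) (hR0 : 100 ≤ R0) (hC0 : 0 < C0) :
    ∃ C : ℝ, 0 < C ∧
    ∀ (m : Sp d → ℝ) (ν : Sp d) (c a B η al : ℝ) (w : Sp d),
      SFr JB C0 R0 m ν c a B η al w → ‖w‖ ≤ C * Real.sqrt (a * B) := by
  obtain ⟨C2, hC2, hL⟩ := L2 (d := d) R0 C0 hR0 hC0
  obtain ⟨NJ, hNJ, hcJ⟩ := chp_TFn (d := d) JB
  obtain ⟨N3, hN3, hc3⟩ := chp_TFn (d := d) 3
  obtain ⟨v, hv, hlow⟩ := chp_lower hd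
  refine ⟨(C2 * N3 + C0 * NJ * C0) / v, by positivity, ?_⟩
  intro m ν c a B η al w h
  set s := Real.sqrt (a * B) with hs
  rcases (norm_nonneg w).eq_or_lt with hw | hw
  · rw [← hw]
    positivity
  have hcs : Differentiable ℝ (chp ν) := (hc3 ν h.nu).smooth.differentiable (by norm_num)
  have hcyl := chp_cyl h.nu
  have hYC : Cyl ν (R0 / 2) (fun y => chp ν y • w) := by
    refine ⟨fun y => by rw [← hcyl.const], fun y hy => ?_⟩
    exact (hcyl.supp y (fun h0 => hy (by rw [h0, zero_smul]))).trans (by linarith)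
  have h1 := h.SH (fun _ => 0) (fun y => chp ν y • w) (‖w‖ * NJ) (TFn_zero JB (by positivity))
    (TFn_vec (hcJ ν h.nu) w) (Cyl_zero ν _) hYC (fun y => by
      rw [inner_smul_right, h.wn, mul_zero])
  simp only [dv_smul hcs, inner_smul_right] at h1
  rw [K1_neg] at h1
  have e1 : plInt ν c (fun _ => (0 : ℝ)) = 0 := by
    unfold plInt
    simp
  have e2 : plInt ν c (fun y => chp ν y * ⟪w, w⟫_ℝ) = ‖w‖ ^ 2 * plInt ν c (chp ν) := by
    rw [← plInt_mul]
    congr 1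
    funext y
    rw [real_inner_self_eq_norm_sq]
    ring
  rw [e1, e2, mul_zero, zero_add] at h1
  have h2 := hL JB m ν c a B η al w h (fun y => fderiv ℝ (chp ν) y w) (‖w‖ * N3)
    (TFn_fderiv (hc3 ν h.nu) w) (by
      refine ⟨fun y => ?_, fun y hy => ?_⟩
      · have hAA : chp ν = chp ν ∘ (tangL ν) := by
          funext z
          simp only [Function.comp_apply, tangL_apply]
          exact hcyl.const z
        have hBB : HasFDerivAt (chp ν ∘ (tangL ν))
            ((fderiv ℝ (chp ν) (tangL ν y)).comp (tangL ν)) y :=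
          (hcs _).hasFDerivAt.comp y (tangL ν).hasFDerivAt
        rw [← hAA] at hBB
        rw [hBB.fderiv, ContinuousLinearMap.comp_apply, tangL_apply, tangL_apply,
          tang_of_inner h.wn]
      · by_contra h0
        push Not at h0
        exact hy (by
          rw [fderiv_zero_of (ρ := 2) (fun y hy => hcyl.supp y hy) (by linarith)]
          rfl))
  have h3 := hlow ν c h.nu
  have h4 := (abs_le.1 h1).1
  have h5 := (abs_le.1 h2).1
  have h6 := (abs_le.1 h2).2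
  have h7 : ‖w‖ ^ 2 * v ≤ ‖w‖ ^ 2 * plInt ν c (chp ν) :=
    mul_le_mul_of_nonneg_left h3 (by positivity)
  have h8 : C0 * (‖w‖ * NJ) * η ≤ C0 * (‖w‖ * NJ) * (C0 * s) :=
    mul_le_mul_of_nonneg_left h.eta (by positivity)
  rw [div_mul_eq_mul_div, le_div_iff₀ hv]
  have h9 : ‖w‖ * (‖w‖ * v) ≤ ‖w‖ * ((C2 * N3 + C0 * NJ * C0) * s) := by
    nlinarith
  exact le_of_mul_le_mul_left h9 hw

/-- first moments -/
lemma L4 (hDV : StmtDV) (hd : 2 ≤ d) (JB : ℕ) : ∃ J' : ℕ, ∀ (R0 C0 : ℝ), 100 ≤ R0 → 0 < C0 →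
    ∃ C : ℝ, 0 < C ∧
    ∀ (m : Sp d → ℝ) (ν : Sp d) (c a B η al : ℝ) (w : Sp d),
      SFr JB C0 R0 m ν c a B η al w → ∃ o : ℝ, |o| ≤ C * Real.sqrt (a * B) ∧
      ∀ (ζ : Sp d → ℝ) (N : ℝ), TFn J' N ζ → Cyl ν (R0 / 2) ζ →
        |K1 m ν c ζ - plInt ν c (fun y => (⟪w, y⟫_ℝ + o) * ζ y)| ≤ C * N * η := by
  have hd1 : 1 ≤ d := by omega
  obtain ⟨JD, hDV'⟩ := hDV d hd (JB + 1)
  set J' := max JD 2 with hJ'
  refine ⟨J', ?_⟩
  intro R0 C0 hR0 hC0
  obtain ⟨CD, hCD, hdv⟩ := hDV' (R0 / 2) (by linarith)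
  obtain ⟨C2, hC2, hL⟩ := L2 (d := d) R0 C0 hR0 hC0
  obtain ⟨C3, hC3, hL3⟩ := L3 hd1 JB R0 C0 hR0 hC0
  obtain ⟨NJ, hNJ, hcJ⟩ := chp_TFn (d := d) J'
  obtain ⟨v, hv, hlow⟩ := chp_lower hd1
  obtain ⟨CP, hCP, hpl⟩ := plInt_bound hd1 (R0 / 2)
  set CO := (C2 * NJ + CP * (C3 * NJ * R0)) / v with hCO
  set CN := 1 + CP / v * NJ with hCN
  have hCO0 : 0 < CO := by positivity
  have hCN0 : 0 < CN := by positivity
  refine ⟨CO + C0 * (CD * CN), by positivity, ?_⟩
  intro m ν c a B η al w h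
  have hν := h.nu
  have hcyl := Cyl_mono (chp_cyl hν) (show (2 : ℝ) ≤ R0 / 2 by linarith)
  set χ := chp ν with hχ
  have hχT := hcJ ν hν
  have hχc : Continuous χ := hχT.smooth.continuous
  set I0 := plInt ν c χ with hI0
  have hI : v ≤ I0 := hlow ν c hν
  have hI0' : 0 < I0 := lt_of_lt_of_le hv hI
  set s := Real.sqrt (a * B) with hs
  have hs0 : 0 ≤ s := Real.sqrt_nonneg _
  have hwc : Continuous (fun y : Sp d => ⟪w, y⟫_ℝ) := by fun_prop
  set o := (K1 m ν c χ - plInt ν c (fun y => ⟪w, y⟫_ℝ * χ y)) / I0 with ho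
  have hb1 : |K1 m ν c χ| ≤ C2 * NJ * s :=
    hL JB m ν c a B η al w h χ NJ (TFn_mono hχT (le_max_right _ _) le_rfl) hcyl
  have hb2 : |plInt ν c (fun y => ⟪w, y⟫_ℝ * χ y)| ≤ CP * (C3 * NJ * R0) * s := by
    have h1 := hpl ν hν (fun y => ⟪w, y⟫_ℝ * χ y) c (‖w‖ * (R0 / 2) * NJ) (by positivity)
      (fun y _ => by
        rw [abs_mul]
        by_cases hy : χ y = 0
        · rw [hy]
          simp only [abs_zero, mul_zero]
          positivity
        · have e1 : |⟪w, y⟫_ℝ| ≤ ‖w‖ * (R0 / 2) := by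
            rw [← inner_tang_of h.wn]
            exact (abs_real_inner_le_norm _ _).trans
              (mul_le_mul_of_nonneg_left (hcyl.supp y hy) (norm_nonneg _))
          have e2 := TFn_norm hχT y
          rw [Real.norm_eq_abs] at e2
          exact mul_le_mul e1 e2 (abs_nonneg _) (by positivity))
      (fun y _ hy => hcyl.supp y (right_ne_zero_of_mul hy))
    refine h1.trans ?_
    have h2 := hL3 m ν c a B η al w h
    have h3 : ‖w‖ * (R0 / 2) * NJ ≤ (C3 * s) * R0 * NJ := by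
      have : ‖w‖ * (R0 / 2) ≤ (C3 * s) * R0 :=
        mul_le_mul h2 (by linarith) (by linarith) (by positivity)
      exact mul_le_mul_of_nonneg_right this hNJ.le
    calc CP * (‖w‖ * (R0 / 2) * NJ) ≤ CP * ((C3 * s) * R0 * NJ) :=
          mul_le_mul_of_nonneg_left h3 hCP.le
      _ = _ := by ring
  have hob : |o| ≤ CO * s := by
    rw [ho, abs_div, abs_of_pos hI0', div_le_iff₀ hI0']
    have h1 : |K1 m ν c χ - plInt ν c (fun y => ⟪w, y⟫_ℝ * χ y)| ≤
        (C2 * NJ + CP * (C3 * NJ * R0)) * s := by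
      refine (abs_sub _ _).trans ?_
      linarith
    refine h1.trans ?_
    have h2 : CO * s * v ≤ CO * s * I0 := mul_le_mul_of_nonneg_left hI (by positivity)
    have h3 : CO * s * v = (C2 * NJ + CP * (C3 * NJ * R0)) * s := by
      rw [hCO]
      field_simp
    linarith
  refine ⟨o, hob.trans (mul_le_mul_of_nonneg_right (by
    have : 0 < C0 * (CD * CN) := by positivity
    linarith) hs0), ?_⟩
  intro ζ N hζ hζC
  have hN := TFn_nonneg hζ
  have hζc : Continuous ζ := hζ.smooth.continuous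
  set p := plInt ν c ζ with hp
  have hpb : |p| ≤ CP * N := hpl ν hν ζ c N hN (fun y _ => by
    have := TFn_norm hζ y
    rwa [Real.norm_eq_abs] at this) (fun y _ hy => hζC.supp y hy)
  set t := p / I0 with ht'
  have htb : |t| ≤ CP / v * N := by
    rw [ht', abs_div, abs_of_pos hI0', div_le_iff₀ hI0']
    refine hpb.trans ?_
    have h2 : CP / v * N * v ≤ CP / v * N * I0 := mul_le_mul_of_nonneg_left hI (by positivity)
    have h3 : CP / v * N * v = CP * N := by field_simp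
    linarith
  set ζ' : Sp d → ℝ := fun y => ζ y - t * χ y with hζ'
  have hζ'T : TFn J' (CN * N) ζ' := by
    refine TFn_mono (TFn_sub hζ (TFn_const_mul hχT t)) le_rfl ?_
    have := mul_le_mul_of_nonneg_right htb hNJ.le
    rw [hCN]
    nlinarith
  have hζ'C : Cyl ν (R0 / 2) ζ' := by
    refine ⟨fun y => ?_, fun y hy => ?_⟩
    · simp only [hζ']
      rw [← hζC.const, ← hcyl.const]
    · by_contra h0
      apply hy
      simp only [hζ']
      have e1 : ζ y = 0 := by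
        by_contra h1
        exact h0 (hζC.supp y h1)
      have e2 : χ y = 0 := by
        by_contra h1
        exact h0 (hcyl.supp y h1)
      rw [e1, e2]
      ring
  have hmean : plInt ν 0 ζ' = 0 := by
    rw [plInt_cyl hν hζ'C.const 0 c]
    have e1 : plInt ν c ζ' = plInt ν c ζ - plInt ν c (fun y => t * χ y) :=
      plInt_sub hν hζc (continuous_const.mul hχc) (ρ := R0 / 2) (ρ' := R0 / 2)
        (fun y hy => hζC.supp y hy) (fun y hy => hcyl.supp y (right_ne_zero_of_mul hy)) c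
    rw [e1, plInt_mul, ← hp, ← hI0, ht']
    field_simp
    ring
  obtain ⟨Y, hYT, hYC, hYn, hYd⟩ := hdv ν hν ζ' (CN * N)
    (TFn_mono hζ'T (le_max_left _ _) le_rfl) hζ'C hmean
  have hY1 : ContDiff ℝ 1 Y := hYT.smooth.of_le (by norm_cast; omega)
  have h1 := h.SH (fun _ => 0) Y (CD * (CN * N)) (TFn_zero JB (by positivity))
    (TFn_mono hYT (by omega) le_rfl) (Cyl_zero ν _) hYC hYn
  simp only [hYd] at h1
  rw [K1_neg] at h1
  have e1 : plInt ν c (fun _ => (0 : ℝ)) = 0 := by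
    unfold plInt
    simp
  have h2 := dv_plInt (w := w) hd1 hν h.wn hY1 hYC c
  simp only [hYd] at h2
  rw [e1, mul_zero, zero_add] at h1
  have e2 : K1 m ν c ζ' = K1 m ν c ζ - t * K1 m ν c χ := by
    unfold K1
    obtain ⟨Ck, _, hk⟩ := cutK d 2 R0 hR0
    obtain ⟨-, ka, kb⟩ := hk ν c hν h.cle ζ N (TFn_mono hζ (le_max_right _ _) le_rfl) hζC
    obtain ⟨-, ka', kb'⟩ := hk ν c hν h.cle χ NJ (TFn_mono hχT (le_max_right _ _) le_rfl) hcyl
    have i1 := int_m h.cont ka.smooth.continuous (R := R0 - 2) (fun y hy => by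
      have : cu1 4 (ht ν c y) * (ht ν c y * ζ y) = ht ν c y * (cu1 4 (ht ν c y) * ζ y) := by
        ring
      rw [this, kb y hy, mul_zero])
    have i2 := int_m h.cont ka'.smooth.continuous (R := R0 - 2) (fun y hy => by
      have : cu1 4 (ht ν c y) * (ht ν c y * χ y) = ht ν c y * (cu1 4 (ht ν c y) * χ y) := by
        ring
      rw [this, kb' y hy, mul_zero])
    rw [← integral_const_mul, ← integral_sub i1 (i2.const_mul t)]
    congr 1
    funext y
    simp only [hζ']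
    ring
  have hsζ : ∀ y, ⟪w, y⟫_ℝ * ζ y ≠ 0 → ‖tang ν y‖ ≤ R0 / 2 := fun y hy =>
    hζC.supp y (right_ne_zero_of_mul hy)
  have hsχ : ∀ y, ⟪w, y⟫_ℝ * χ y ≠ 0 → ‖tang ν y‖ ≤ R0 / 2 := fun y hy =>
    hcyl.supp y (right_ne_zero_of_mul hy)
  have e3 : plInt ν c (fun y => ⟪w, y⟫_ℝ * ζ' y) =
      plInt ν c (fun y => ⟪w, y⟫_ℝ * ζ y) - t * plInt ν c (fun y => ⟪w, y⟫_ℝ * χ y) := by
    have e0 : plInt ν c (fun y => ⟪w, y⟫_ℝ * ζ y - t * (⟪w, y⟫_ℝ * χ y)) =
        plInt ν c (fun y => ⟪w, y⟫_ℝ * ζ y) - plInt ν c (fun y => t * (⟪w, y⟫_ℝ * χ y)) :=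
      plInt_sub hν (hwc.mul hζc) (continuous_const.mul (hwc.mul hχc))
        hsζ (ρ' := R0 / 2) (fun y hy => hsχ y (right_ne_zero_of_mul hy)) c
    rw [← plInt_mul, ← e0]
    congr 1
    funext y
    simp only [hζ']
    ring
  have e4 : plInt ν c (fun y => (⟪w, y⟫_ℝ + o) * ζ y) =
      plInt ν c (fun y => ⟪w, y⟫_ℝ * ζ y) + o * p := by
    have e0 : plInt ν c (fun y => ⟪w, y⟫_ℝ * ζ y + o * ζ y) =
        plInt ν c (fun y => ⟪w, y⟫_ℝ * ζ y) + plInt ν c (fun y => o * ζ y) :=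
      plInt_add hν (hwc.mul hζc) (continuous_const.mul hζc)
        hsζ (ρ' := R0 / 2) (fun y hy => hζC.supp y (right_ne_zero_of_mul hy)) c
    rw [hp, ← plInt_mul, ← e0]
    congr 1
    funext y
    ring
  have e5 : o * p = t * K1 m ν c χ - t * plInt ν c (fun y => ⟪w, y⟫_ℝ * χ y) := by
    rw [ho, ht']
    field_simp
  have e6 : K1 m ν c ζ - plInt ν c (fun y => (⟪w, y⟫_ℝ + o) * ζ y) =
      K1 m ν c ζ' - plInt ν c (fun y => ⟪w, y⟫_ℝ * ζ' y) := by
    rw [e4, e5, e2, e3]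
    ring
  rw [e6, h2]
  have e7 : K1 m ν c ζ' - -plInt ν c (fun y => ⟪w, Y y⟫_ℝ) =
      -(-K1 m ν c ζ' - plInt ν c (fun y => ⟪w, Y y⟫_ℝ)) := by ring
  rw [e7, abs_neg]
  refine h1.trans ?_
  have : 0 ≤ CO * N * η := by
    have := h.eta0
    positivity
  nlinarith

end

end SAm

end TG
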