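import Pool.Agent.TG.SA6

/-!
# Sheet lemma (module SA), part 7: the abstract sheet theorem in the frame of the sheet (helper65)
-/

open MeasureTheory Metric Set TrI
open scoped InnerProductSpace ContDiff

namespace TG

namespace SAm

noncomputable section

open TU PF

variable {d : ℕ}

/-- lower bound for the density of the sheet -/
lemma L5 (hd : 1 ≤ d) (JB : ℕ) (R0 C0 : ℝ) (hR0 : 100 ≤ R0) (hC0 : 0 < C0) :
    ∃ (C κ : ℝ), 0 < C ∧ 0 < κ ∧
    ∀ (m : Sp d → ℝ) (ν : Sp d) (c a B η al : ℝ) (w : Sp d),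
      SFr JB C0 R0 m ν c a B η al w → ∀ m2 : ℝ, 0 < m2 → m2 = ∫ y, m y * zR (R0 / 3) y →
        m2 ≤ a → a * B ≤ κ * m2 ^ 2 → m2 ≤ C * al := by
  obtain ⟨NJ, hNJ, hzJ⟩ := TFn_of_cs (J := max JB 2) (ζ := (zR (R0 / 3 + 1) : Sp d → ℝ))
    (zR_contDiff (by linarith) _) (zR_cs _)
  obtain ⟨N2, hN2, hz2⟩ := TFn_of_cs (J := 2) (ζ := (zR R0 : Sp d → ℝ))
    (zR_contDiff (by linarith) 2) (zR_cs _)
  obtain ⟨N3, hN3, hz3⟩ := TFn_of_cs (J := 2) (ζ := (zR (R0 / 3) : Sp d → ℝ))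
    (zR_contDiff (by linarith) 2) (zR_cs _)
  obtain ⟨Ck, hCk, hk⟩ := cutK d 2 R0 hR0
  obtain ⟨CP, hCP, hpl⟩ := plInt_bound hd (R0 / 2)
  set K2 := 4 ^ 2 * N2 * max 1 ((R0 + 1) + R0 / 3) ^ 2 with hK2
  have hK2' : 0 < K2 := by positivity
  set C1 := C0 * NJ * C0 + C0 + C0 * (Ck * NJ + K2 + N3) with hC1
  have hC1' : 0 < C1 := by positivity
  refine ⟨2 * CP, min 1 ((1 / (4 * C1)) ^ 2), by positivity, by positivity, ?_⟩
  intro m ν c a B η al w h m2 hm2 hm2e hm2a hκ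
  have hν := h.nu
  have ha := h.a0
  have hB := h.B0
  -- small quantities
  have hs : Real.sqrt (a * B) ≤ 1 / (4 * C1) * m2 := by
    have h1 : a * B ≤ (1 / (4 * C1) * m2) ^ 2 := by
      refine hκ.trans ?_
      rw [mul_pow]
      exact mul_le_mul_of_nonneg_right (min_le_right _ _) (by positivity)
    exact (Real.sqrt_le_sqrt h1).trans (le_of_eq (Real.sqrt_sq (by positivity)))
  have hBs : B ≤ Real.sqrt (a * B) := Real.le_sqrt_of_sq_le (by nlinarith [h.Ba])
  set χ : Sp d → ℝ := zR (R0 / 3 + 1) with hχ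
  set ψ : Sp d → ℝ := fun y => χ (tang ν y) with hψ
  have hψT : TFn (max JB 2) NJ ψ := TFn_tang0 hzJ hν
  have hψC : Cyl ν (R0 / 2) ψ := Cyl_tang0 hν fun y hy => by
    by_contra h0
    push Not at h0
    exact hy (zR_zero (by linarith))
  have hψ0 : ∀ y, 0 ≤ ψ y := fun y => zR_nonneg _ _
  have h1 := h.SH ψ (fun _ => 0) NJ (TFn_mono hψT (le_max_left _ _) le_rfl)
    (TFn_zero JB hNJ.le) hψC (Cyl_zero ν _) (fun y => inner_zero_right _)
  simp only [dv_zero, inner_zero_right, mul_zero, sub_zero] at h1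
  have e1 : plInt ν c (fun _ => (0 : ℝ)) = 0 := by
    unfold plInt
    simp
  rw [e1, add_zero] at h1
  obtain ⟨k1, -, k3⟩ := hk ν c hν h.cle ψ NJ (TFn_mono hψT (le_max_right _ _) le_rfl) hψC
  have t2 := TFn_ht_sq hz2 (ρ := R0 + 1) (fun y hy => zR_zero (by linarith)) hν h.cle
  have t3 := TFn_sub (TFn_add k1 t2) hz3
  have h2 := h.Z _ _ t3 (fun y => by
    have g1 : 0 ≤ cu1 4 (ht ν c y) * ψ y := mul_nonneg (cu1_nonneg _ _) (hψ0 y)
    have g2 : 0 ≤ zR R0 y * ht ν c y ^ 2 := mul_nonneg (zR_nonneg _ _) (sq_nonneg _)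
    rcases le_or_gt (R0 / 3 + 1) ‖y‖ with hy | hy
    · rw [zR_zero hy]
      linarith
    · have g3 := zR_le_one (R0 / 3) y
      rcases le_or_gt |ht ν c y| 4 with hz | hz
      · have g4 : ψ y = 1 := zR_one ((norm_tang_le hν y).trans hy.le)
        rw [cu1_one hz, g4]
        linarith
      · have g5 : zR R0 y = 1 := zR_one (by linarith)
        have g6 : 16 ≤ ht ν c y ^ 2 := by
          rw [← sq_abs]
          nlinarith [abs_nonneg (ht ν c y)]
        rw [g5, one_mul]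
        linarith) (fun y hy => by
    rw [k3 y (by linarith), zR_zero (by linarith), zR_zero (by linarith)]
    ring)
  have i1 := int_m h.cont k1.smooth.continuous k3
  have i2 := int_m h.cont t2.smooth.continuous (R := R0 + 1) (fun y hy => by
    rw [zR_zero (by linarith), zero_mul])
  have i3 := int_m h.cont hz3.smooth.continuous (R := R0 + 1) (fun y hy =>
    zR_zero (by linarith))
  have e2 : ∫ y, m y * (cu1 4 (ht ν c y) * ψ y + zR R0 y * ht ν c y ^ 2 - zR (R0 / 3) y) =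
      (∫ y, m y * (cu1 4 (ht ν c y) * ψ y)) + (∫ y, m y * (zR R0 y * ht ν c y ^ 2)) -
        ∫ y, m y * zR (R0 / 3) y := by
    rw [← integral_add i1 i2, ← integral_sub]
    · congr 1
      funext y
      ring
    · exact i1.add i2
    · exact i3
  rw [e2, ← hm2e] at h2
  have h3 := h.bb
  have h4 := (abs_le.1 h1).2
  have h5 := h.eta
  set P := plInt ν c ψ with hP
  have hP0 : 0 ≤ P := plInt_nonneg ν c hψ0
  have hP1 : P ≤ CP * 1 := by
    have := hpl ν hν ψ c 1 zero_le_one (fun y _ => by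
      rw [abs_of_nonneg (hψ0 y)]
      exact zR_le_one _ _) (fun y _ hy => hψC.supp y hy)
    exact (le_abs_self _).trans this
  rw [mul_one] at hP1
  set s := Real.sqrt (a * B) with hsd
  have h6 : C0 * NJ * η ≤ C0 * NJ * (C0 * s) := mul_le_mul_of_nonneg_left h5 (by positivity)
  simp only [← hK2] at h2
  have h7 : m2 ≤ al * P + C1 * s := by
    have f1 : C0 * B ≤ C0 * s := mul_le_mul_of_nonneg_left hBs hC0.le
    have f2 : C0 * (Ck * NJ + K2 + N3) * B ≤ C0 * (Ck * NJ + K2 + N3) * s :=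
      mul_le_mul_of_nonneg_left hBs (by positivity)
    rw [hC1]
    nlinarith
  have h8 : C1 * s ≤ 1 / 4 * m2 := by
    have := mul_le_mul_of_nonneg_left hs hC1'.le
    have e : C1 * (1 / (4 * C1) * m2) = 1 / 4 * m2 := by field_simp
    linarith
  have h9 : 3 / 4 * m2 ≤ al * P := by linarith
  have hal : 0 < al := by
    by_contra h0
    push Not at h0
    have : al * P ≤ 0 := mul_nonpos_of_nonpos_of_nonneg h0 hP0
    linarith
  have h10 : al * P ≤ al * CP := mul_le_mul_of_nonneg_left hP1 hal.le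
  nlinarith

/-- the abstract sheet theorem -/
theorem frame (hDV : StmtDV) (hd : 2 ≤ d) (JB : ℕ) : ∃ J' : ℕ, ∀ (R0 C0 : ℝ), 100 ≤ R0 →
    0 < C0 → ∃ (C κ : ℝ), 0 < C ∧ 0 < κ ∧
    ∀ (m : Sp d → ℝ) (ν : Sp d) (c a B η al : ℝ) (w : Sp d),
      SFr JB C0 R0 m ν c a B η al w → ∀ m2 : ℝ, 0 < m2 → m2 = ∫ y, m y * zR (R0 / 3) y →
        m2 ≤ a → a * B ≤ κ * m2 ^ 2 → m2 ≤ C * al ∧ ∃ o : ℝ, ‖w‖ ^ 2 + o ^ 2 ≤ C * a * B ∧
      ∀ (G : Sp d → ℝ) (N : ℝ), TFn J' N G → (∀ y, G y ≠ 0 → ‖y‖ ≤ R0 - 2) →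
        (∀ y, G y ≠ 0 → ‖tang ν y‖ ≤ R0 / 2) →
        |(∫ y, m y * G y) - (al * plInt ν c G +
          plInt ν c (fun y => (⟪w, y⟫_ℝ + o) * fderiv ℝ G y ν))| ≤ C * N * (B + η) := by
  have hd1 : 1 ≤ d := by omega
  obtain ⟨J4, hL4'⟩ := L4 hDV hd JB
  refine ⟨max (max J4 JB) 2 + 1, ?_⟩
  intro R0 C0 hR0 hC0
  obtain ⟨C5, κ, hC5, hκ0, hL5⟩ := L5 hd1 JB R0 C0 hR0 hC0
  obtain ⟨C4, hC4, hL4⟩ := hL4' R0 C0 hR0 hC0
  obtain ⟨C3, hC3, hL3⟩ := L3 hd1 JB R0 C0 hR0 hC0
  obtain ⟨C1, hC1, hL1⟩ := L1 (d := d) R0 C0 hR0 hC0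
  obtain ⟨Ck, hCk, hk⟩ := cutK d 2 R0 hR0
  set CR := 1 + 2 * Ck with hCR
  have hCR0 : 0 < CR := by positivity
  refine ⟨C5 + (C3 ^ 2 + C4 ^ 2) + (C1 * CR + C0 + C4), κ, by positivity, hκ0, ?_⟩
  intro m ν c a B η al w h m2 hm2 hm2e hm2a hκ
  have hν := h.nu
  have ha := h.a0
  have hB := h.B0
  have hη := h.eta0
  have hal := hL5 m ν c a B η al w h m2 hm2 hm2e hm2a hκ
  have hal0 : 0 < al := by
    by_contra h0
    push Not at h0
    have : C5 * al ≤ 0 := mul_nonpos_of_nonneg_of_nonpos hC5.le h0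
    linarith
  have hs2 : Real.sqrt (a * B) ^ 2 = a * B := Real.sq_sqrt (by positivity)
  obtain ⟨o, ho, hform⟩ := hL4 m ν c a B η al w h
  have hw := hL3 m ν c a B η al w h
  refine ⟨?_, o, ?_, ?_⟩
  · refine hal.trans (mul_le_mul_of_nonneg_right ?_ hal0.le)
    have : 0 < (C3 ^ 2 + C4 ^ 2) + (C1 * CR + C0 + C4) := by positivity
    linarith
  · have g1 : ‖w‖ ^ 2 ≤ C3 ^ 2 * (a * B) := by
      have := pow_le_pow_left₀ (norm_nonneg w) hw 2
      rwa [mul_pow, hs2] at this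
    have g2 : o ^ 2 ≤ C4 ^ 2 * (a * B) := by
      have := pow_le_pow_left₀ (abs_nonneg o) ho 2
      rwa [mul_pow, hs2, sq_abs] at this
    have g3 : 0 ≤ (C5 + (C1 * CR + C0 + C4)) * (a * B) := by positivity
    nlinarith
  intro G N hG hGs hGt
  have hN := TFn_nonneg hG
  have hG2 : TFn 2 N G := TFn_mono hG (by omega) le_rfl
  have hG1 : ContDiff ℝ 1 G := hG2.smooth.of_le (by norm_num)
  have hGd : Differentiable ℝ G := hG1.differentiable one_ne_zero
  set JJ' := max (max J4 JB) 2 with hJJ'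
  -- the two coefficient functions
  have hg1T : TFn JJ' N (fun y => fderiv ℝ G y ν) := by
    have := TFn_fderiv (J := JJ') hG ν
    rwa [hν, one_mul] at this
  set g0 : Sp d → ℝ := fun y => G (tang ν y + c • ν) with hg0
  set g1 : Sp d → ℝ := fun y => fderiv ℝ G (tang ν y + c • ν) ν with hg1
  have hg0T : TFn JJ' N g0 := TFn_tang (TFn_mono hG (by omega) le_rfl) hν (c • ν)
  have hg1T' : TFn JJ' N g1 := TFn_tang hg1T hν (c • ν)
  have htp : ∀ y : Sp d, tang ν (tang ν y + c • ν) = tang ν y := fun y => by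
    rw [tang_add, tang_smul, tang_self hν, smul_zero, add_zero, tang_tang hν]
  have hg0C : Cyl ν (R0 / 2) g0 := by
    refine ⟨fun y => by simp only [hg0]; rw [tang_tang hν], fun y hy => ?_⟩
    have := hGt _ hy
    rwa [htp] at this
  have hg1C : Cyl ν (R0 / 2) g1 := by
    refine ⟨fun y => by simp only [hg1]; rw [tang_tang hν], fun y hy => ?_⟩
    by_contra h0
    push Not at h0
    apply hy
    simp only [hg1]
    rw [fderiv_zero_of (ρ := R0 / 2) hGt (by rw [htp]; exact h0)]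
    rfl
  obtain ⟨k1, -, k3⟩ := hk ν c hν h.cle g0 N (TFn_mono hg0T (le_max_right _ _) le_rfl) hg0C
  obtain ⟨-, k2', k3'⟩ := hk ν c hν h.cle g1 N (TFn_mono hg1T' (le_max_right _ _) le_rfl) hg1C
  have k3'' : ∀ y, R0 - 2 < ‖y‖ → cu1 4 (ht ν c y) * (ht ν c y * g1 y) = 0 := by
    intro y hy
    have : cu1 4 (ht ν c y) * (ht ν c y * g1 y) = ht ν c y * (cu1 4 (ht ν c y) * g1 y) := by ring
    rw [this, k3' y hy, mul_zero]
  have hGs' : ∀ y, R0 - 2 < ‖y‖ → G y = 0 := by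
    intro y hy
    by_contra h0
    exact absurd (hGs y h0) (not_le.2 hy)
  -- the remainder
  set Rm : Sp d → ℝ := fun y => G y - cu1 4 (ht ν c y) * g0 y -
    cu1 4 (ht ν c y) * (ht ν c y * g1 y) with hRm
  have hRmT : TFn 2 (CR * N) Rm := by
    refine TFn_mono (TFn_sub (TFn_sub hG2 k1) k2') le_rfl (le_of_eq ?_)
    rw [hCR]
    ring
  have hRmb : ∀ y, |Rm y| ≤ CR * N * ht ν c y ^ 2 := by
    intro y
    have hpt : tang ν y + c • ν + ht ν c y • ν = y := by
      have h1 : c • ν + ht ν c y • ν = ⟪ν, y⟫_ℝ • ν := by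
        rw [← add_smul]
        congr 1
        unfold ht
        ring
      rw [add_assoc, h1, tang_add_inner]
    set z := ht ν c y with hz
    have hCR1 : N * z ^ 2 ≤ CR * N * z ^ 2 := by
      have : 0 ≤ 2 * Ck * (N * z ^ 2) := by positivity
      rw [hCR]
      nlinarith
    refine le_trans ?_ hCR1
    rcases le_or_gt |z| 4 with hz4 | hz4
    · have h1 : Rm y = G (tang ν y + c • ν + z • ν) - G (tang ν y + c • ν) -
          fderiv ℝ G (tang ν y + c • ν) (z • ν) := by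
        simp only [hRm, hg0, hg1]
        rw [← hz, cu1_one hz4, hpt, map_smul, smul_eq_mul]
        ring
      rw [h1]
      have h2 := taylor2 hG2 (tang ν y + c • ν) (z • ν)
      rwa [norm_smul, hν, mul_one, Real.norm_eq_abs, sq_abs] at h2
    · have b0 := TFn_norm hG y
      have b1 := TFn_norm hg0T y
      have b2 := TFn_norm hg1T' y
      rw [Real.norm_eq_abs] at b0 b1 b2
      have c0 := cu1_nonneg 4 z
      have c1 := cu1_le_one 4 z
      have h1 : |Rm y| ≤ N + N + |z| * N := by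
        simp only [hRm]
        rw [← hz]
        refine (abs_sub _ _).trans (add_le_add ((abs_sub _ _).trans (add_le_add b0 ?_)) ?_)
        · rw [abs_mul, abs_of_nonneg c0]
          calc cu1 4 z * |g0 y| ≤ 1 * N := mul_le_mul c1 b1 (abs_nonneg _) zero_le_one
            _ = N := one_mul N
        · rw [abs_mul, abs_mul, abs_of_nonneg c0]
          calc cu1 4 z * (|z| * |g1 y|) ≤ 1 * (|z| * N) := by gcongr
            _ = _ := one_mul _
      refine h1.trans ?_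
      have h2 : 2 + |z| ≤ z ^ 2 := by
        rw [← sq_abs]
        nlinarith [abs_nonneg z]
      nlinarith
  obtain ⟨_, _, hL1c⟩ := hL1 JB m ν c a B η al w h
  have hRmI := hL1c Rm (CR * N) hRmT hRmb (fun y hy => by
    simp only [hRm]
    rw [hGs' y hy, k3 y hy, k3'' y hy]
    ring)
  -- the main terms
  have hM0 := h.SH g0 (fun _ => 0) N (TFn_mono hg0T (by omega) le_rfl)
    (TFn_zero JB hN) hg0C (Cyl_zero ν _) (fun y => inner_zero_right _)
  simp only [dv_zero, inner_zero_right, mul_zero, sub_zero] at hM0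
  have e1 : plInt ν c (fun _ => (0 : ℝ)) = 0 := by
    unfold plInt
    simp
  rw [e1, add_zero] at hM0
  have hM1 := hform g1 N (TFn_mono hg1T' (by omega) le_rfl) hg1C
  have hpl : ∀ y : Sp d, ⟪ν, y⟫_ℝ = c → tang ν y + c • ν = y := fun y hy => by
    rw [← hy]
    exact tang_add_inner ν y
  have e2 : plInt ν c g0 = plInt ν c G := plInt_congr hν fun y hy => by
    simp only [hg0]
    rw [hpl y hy]
  have e3 : plInt ν c (fun y => (⟪w, y⟫_ℝ + o) * g1 y) =
      plInt ν c (fun y => (⟪w, y⟫_ℝ + o) * fderiv ℝ G y ν) := plInt_congr hν fun y hy => by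
    simp only [hg1]
    rw [hpl y hy]
  rw [e2] at hM0
  rw [e3] at hM1
  have iG := int_m h.cont hG2.smooth.continuous hGs'
  have i0 := int_m h.cont k1.smooth.continuous k3
  have i1 := int_m h.cont k2'.smooth.continuous k3''
  have e4 : ∫ y, m y * Rm y = (∫ y, m y * G y) - (∫ y, m y * (cu1 4 (ht ν c y) * g0 y)) -
      K1 m ν c g1 := by
    unfold K1
    rw [← integral_sub iG i0, ← integral_sub]
    · congr 1
      funext y
      simp only [hRm]
      ring
    · exact iG.sub i0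
    · exact i1
  rw [e4] at hRmI
  have e5 : (∫ y, m y * G y) - (al * plInt ν c G +
      plInt ν c (fun y => (⟪w, y⟫_ℝ + o) * fderiv ℝ G y ν)) =
      ((∫ y, m y * G y) - (∫ y, m y * (cu1 4 (ht ν c y) * g0 y)) - K1 m ν c g1) +
      ((∫ y, m y * (cu1 4 (ht ν c y) * g0 y)) - al * plInt ν c G) +
      (K1 m ν c g1 - plInt ν c (fun y => (⟪w, y⟫_ℝ + o) * fderiv ℝ G y ν)) := by ring
  rw [e5]
  refine (abs_add_le _ _).trans ((add_le_add (abs_add_le _ _) le_rfl).trans ?_)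
  have f1 : 0 ≤ (C5 + (C3 ^ 2 + C4 ^ 2) + (C0 + C4)) * N * B := by positivity
  have f2 : 0 ≤ (C5 + (C3 ^ 2 + C4 ^ 2) + C1 * CR) * N * η := by positivity
  have f3 : C1 * (CR * N) * B + C0 * N * η + C4 * N * η ≤
      (C5 + (C3 ^ 2 + C4 ^ 2) + (C1 * CR + C0 + C4)) * N * (B + η) := by nlinarith
  linarith

end

end SAm

end TG
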