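import Pool.Agent.TG.SA7
import Pool.Agent.TG.PLb

/-!
# Sheet lemma (module SA), part 8: change of plane in the functionals b (helper65)
-/

open MeasureTheory Metric Set TrI
open scoped InnerProductSpace ContDiff

namespace TG

namespace SAm

noncomputable section

open TU PF

variable {d : ℕ}

/-- cut-off times the square of an affine function -/
lemma TFn_lin_sq {N ρ : ℝ} {φ : Sp d → ℝ} (h : TFn 2 N φ) (hρ : 0 ≤ ρ)
    (hs : ∀ y, ρ < ‖y‖ → φ y = 0) {w : Sp d} {W : ℝ} (hw : ‖w‖ ≤ W) :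
    TFn 2 (16 * N * (W * (1 + ρ)) ^ 2) (fun y => φ y * ⟪w, y⟫_ℝ ^ 2) := by
  have hN := TFn_nonneg h
  have hW : 0 ≤ W := (norm_nonneg _).trans hw
  have h1 := TFn_mul_lin h hρ hs w 0
  have h2 := TFn_mul_lin h1 hρ (fun y hy => by rw [hs y hy, zero_mul]) w 0
  have e : (fun y => φ y * ⟪w, y⟫_ℝ ^ 2) =
      fun y => φ y * (⟪w, y⟫_ℝ + 0) * (⟪w, y⟫_ℝ + 0) := by
    funext y
    ring
  rw [e]
  refine TFn_mono h2 le_rfl ?_
  rw [abs_zero, add_zero]
  have h3 : ‖w‖ * (1 + ρ) ≤ W * (1 + ρ) := mul_le_mul_of_nonneg_right hw (by linarith)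
  have h4 : 0 ≤ ‖w‖ * (1 + ρ) := by positivity
  have h5 : (‖w‖ * (1 + ρ)) ^ 2 ≤ (W * (1 + ρ)) ^ 2 := pow_le_pow_left₀ h4 h3 2
  nlinarith

/-- the functional b of a tilted plane, unit scale -/
lemma tilt (hZ : StmtZ) (hTW : StmtTW) (hd : 1 ≤ d) {M c0 ε : ℝ} (hε : 0 < ε) (hε1 : ε ≤ 1)
    {b : Sp d → ℝ} (hb : BaseKer 2 M c0 b) {R0 : ℝ} (hR0 : 100 + 8 * d ≤ R0) :
    ∃ C : ℝ, 0 < C ∧
    ∀ (E : Type) [NormedAddCommGroup E] [InnerProductSpace ℝ E] [FiniteDimensional ℝ E],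
    ∀ (R : ℝ), 4 * R0 + 10 ≤ R → ∀ f : Sp d → E, Continuous f → HasCompactSupport f →
    ∀ (n : ℕ) (x : Sp d) (e e' : E), ‖x‖ ≤ Real.sqrt d → ‖e‖ = 1 → ‖e'‖ = 1 →
    ∀ (ν ν' : Sp d) (c c' T : ℝ), ‖ν‖ = 1 → ‖ν'‖ = 1 → |c| ≤ 2 * R0 → |c'| ≤ 2 * R0 →
      ‖ν' - ν‖ ^ 2 + (c' - c) ^ 2 ≤ T →
      max 0 (bb R0 ((1 / 2) ^ n) f n 0 e ν' c') ≤ 2 * max 0 (bb R0 ((1 / 2) ^ n) f n 0 e ν c) +
        C * T * (ma b ε R0 ((1 / 2) ^ n) f (n + 1) x + DD b ε R ((1 / 2) ^ n) f n 0 e +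
            DD b ε R ((1 / 2) ^ n) f (n + 1) x e') + C * DD b ε R ((1 / 2) ^ n) f n 0 e := by
  have hd0 : (0 : ℝ) ≤ d := Nat.cast_nonneg d
  have hR00 : 100 ≤ R0 := by linarith
  obtain ⟨CT, hCT, htw⟩ := hTW d hd M c0 ε hε hε1 b hb R0 hR0
  obtain ⟨CZ, hCZ, hz⟩ := Z' hZ hd hε hε1 hb
  obtain ⟨N1, hN1, hz1⟩ := TFn_of_cs (J := 2) (ζ := (zR R0 : Sp d → ℝ))
    (zR_contDiff (by linarith) 2) (zR_cs _)
  set Kh := 4 ^ 2 * N1 * max 1 ((R0 + 1) + 2 * R0) ^ 2 with hKh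
  set K4 := 4 ^ 2 * N1 * max 1 ((R0 + 1) + 4 * R0) ^ 2 with hK4
  set Kp := 16 * N1 * (2 * (1 + (R0 + 1))) ^ 2 with hKp
  have hKh0 : 0 < Kh := by positivity
  have hK40 : 0 < K4 := by positivity
  have hKp0 : 0 < Kp := by positivity
  set NH := 2 * Kh + 4 * Kp + 4 * (4 * R0) ^ 2 * N1 + Kh with hNH
  have hNH0 : 0 < NH := by positivity
  refine ⟨8 * CT + 4 * CZ * (K4 + N1) + CZ * NH, by positivity, ?_⟩
  intro E _ _ _ R hR f hf hfc n x e e' hx he he' ν ν' c c' T hν hν' hc hc' hT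
  obtain ⟨-, -, -, htw4⟩ := htw E R hR f hf hfc n x e e' hx he he'
  have hD0 : 0 ≤ DD b ε R ((1 / 2) ^ n) f n 0 e := PL.DD_nn b ε R n f 0 he
  set D0 := DD b ε R ((1 / 2) ^ n) f n 0 e with hD0d
  set Q := ma b ε R0 ((1 / 2) ^ n) f (n + 1) x + D0 + DD b ε R ((1 / 2) ^ n) f (n + 1) x e'
    with hQ
  rw [PL.bb_eq, PL.bb_eq]
  set δ := ν' - ν with hδ
  have hδ2 : ‖δ‖ ≤ 2 := by
    refine (norm_sub_le _ _).trans ?_
    rw [hν, hν']
    norm_num
  have hcc : |c' - c| ≤ 4 * R0 := (abs_sub _ _).trans (by linarith)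
  have hT0 : 0 ≤ T := by
    refine le_trans ?_ hT
    positivity
  have hQ0 : 0 ≤ CT * Q := (le_max_left _ _).trans (htw4 ν 0 hν (by
    rw [abs_zero]
    positivity)).2
  set m : Sp d → ℝ := fun y => ⟪f y, e⟫_ℝ with hm
  -- (i) the quadratic form of δ
  have s0 : ∀ y : Sp d, R0 + 1 < ‖y‖ → zR R0 y = 0 := fun y hy => zR_zero hy.le
  have tp := TFn_lin_sq hz1 (ρ := R0 + 1) (by linarith) s0 hδ2
  have ip := int_m (R := R0 + 1) (m := m) (hf.inner continuous_const) tp.smooth.continuous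
    (fun y hy => by rw [s0 y hy, zero_mul])
  have b1 : ∫ y, m y * (zR R0 y * ⟪δ, y⟫_ℝ ^ 2) ≤ ‖δ‖ ^ 2 * (CT * Q) := by
    rcases (norm_nonneg δ).eq_or_lt with h0 | h0
    · have h1 : δ = 0 := norm_eq_zero.1 h0.symm
      rw [h1]
      simp
    · have h1 : ‖(1 / ‖δ‖) • δ‖ = 1 := by
        rw [norm_smul, Real.norm_of_nonneg (by positivity)]
        field_simp
      have h2 := (htw4 ((1 / ‖δ‖) • δ) 0 h1 (by rw [abs_zero]; positivity)).2
      rw [PL.bb_eq] at h2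
      have h3 := (le_max_right _ _).trans h2
      have h4 : ∫ y, m y * (zR R0 y * ⟪δ, y⟫_ℝ ^ 2) =
          ‖δ‖ ^ 2 * ∫ y, m y * (zR R0 y * ht ((1 / ‖δ‖) • δ) 0 y ^ 2) := by
        rw [← integral_const_mul]
        congr 1
        funext y
        unfold ht
        rw [inner_smul_left]
        simp only [conj_trivial, sub_zero]
        field_simp
      rw [h4]
      exact mul_le_mul_of_nonneg_left h3 (by positivity)
  -- (ii) the mass
  have t4 := TFn_ht_sq hz1 (ρ := R0 + 1) s0 hν (show |4 * R0| ≤ 4 * R0 by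
    rw [abs_of_nonneg (by positivity)])
  have i4 := int_m (R := R0 + 1) (m := m) (hf.inner continuous_const) t4.smooth.continuous
    (fun y hy => by rw [s0 y hy, zero_mul])
  have iz := int_m (R := R0 + 1) (m := m) (hf.inner continuous_const) hz1.smooth.continuous s0
  have b2 : ∫ y, m y * zR R0 y ≤ CT * Q + CZ * (K4 + N1) * D0 := by
    have h1 := hz E f hf hfc R (by linarith) n e he 0 _ _ (TFn_sub t4 hz1) (fun y => by
      rcases le_or_gt (R0 + 1) ‖y‖ with hy | hy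
      · rw [zR_zero hy]
        simp
      · have h2 : 1 ≤ ht ν (4 * R0) y ^ 2 := by
          have h3 : |⟪ν, y⟫_ℝ| ≤ R0 + 1 := by
            refine (abs_real_inner_le_norm ν y).trans ?_
            rw [hν, one_mul]
            exact hy.le
          have h4 : ht ν (4 * R0) y ≤ -1 := by
            unfold ht
            linarith [le_abs_self ⟪ν, y⟫_ℝ]
          nlinarith
        have h5 := zR_nonneg R0 y
        nlinarith) (fun y hy => by
      rw [sub_zero] at hy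
      rw [zR_zero (by linarith)]
      ring)
    have h2 : ∫ y, ⟪f y, e⟫_ℝ * (zR R0 y * ht ν (4 * R0) y ^ 2 - zR R0 y) =
        (∫ y, m y * (zR R0 y * ht ν (4 * R0) y ^ 2)) - ∫ y, m y * zR R0 y := by
      rw [← integral_sub i4 iz]
      congr 1
      funext y
      simp only [hm]
      ring
    rw [h2, ← hK4] at h1
    have h3 := (htw4 ν (4 * R0) hν (by rw [abs_of_nonneg (by positivity)])).2
    rw [PL.bb_eq] at h3
    have h4 := (le_max_right _ _).trans h3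
    linarith
  -- the main inequality
  have th := TFn_ht_sq hz1 (ρ := R0 + 1) s0 hν hc
  have th' := TFn_ht_sq hz1 (ρ := R0 + 1) s0 hν' hc'
  have ih := int_m (R := R0 + 1) (m := m) (hf.inner continuous_const) th.smooth.continuous
    (fun y hy => by rw [s0 y hy, zero_mul])
  have ih' := int_m (R := R0 + 1) (m := m) (hf.inner continuous_const) th'.smooth.continuous
    (fun y hy => by rw [s0 y hy, zero_mul])
  have tH := TFn_sub (TFn_add (TFn_add (TFn_const_mul th 2) (TFn_const_mul tp 4))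
    (TFn_const_mul hz1 (4 * (c' - c) ^ 2))) th'
  have tHn : |2| * (4 ^ 2 * N1 * max 1 (R0 + 1 + 2 * R0) ^ 2) +
      |4| * (16 * N1 * (2 * (1 + (R0 + 1))) ^ 2) + |4 * (c' - c) ^ 2| * N1 +
      4 ^ 2 * N1 * max 1 (R0 + 1 + 2 * R0) ^ 2 ≤ NH := by
    have h1 : |4 * (c' - c) ^ 2| ≤ 4 * (4 * R0) ^ 2 := by
      rw [abs_of_nonneg (by positivity)]
      have : (c' - c) ^ 2 ≤ (4 * R0) ^ 2 := by
        rw [← sq_abs (c' - c)]
        exact pow_le_pow_left₀ (abs_nonneg _) hcc 2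
      linarith
    have h2 := mul_le_mul_of_nonneg_right h1 hN1.le
    rw [← hKh, ← hKp, hNH, abs_of_pos (by norm_num : (0 : ℝ) < 2),
      abs_of_pos (by norm_num : (0 : ℝ) < 4)]
    linarith
  have h1 := hz E f hf hfc R (by linarith) n e he 0 _ _ (TFn_mono tH le_rfl tHn) (fun y => by
    have h2 := zR_nonneg R0 y
    have h3 : ht ν' c' y = ht ν c y + (⟪δ, y⟫_ℝ - (c' - c)) := by
      unfold ht
      rw [hδ, inner_sub_left]
      ring
    have h4 : ht ν' c' y ^ 2 ≤ 2 * ht ν c y ^ 2 + 4 * ⟪δ, y⟫_ℝ ^ 2 + 4 * (c' - c) ^ 2 := by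
      rw [h3]
      nlinarith [sq_nonneg (ht ν c y - (⟪δ, y⟫_ℝ - (c' - c))),
        sq_nonneg (⟪δ, y⟫_ℝ + (c' - c))]
    nlinarith) (fun y hy => by
    rw [sub_zero] at hy
    rw [zR_zero (by linarith)]
    ring)
  have h2 : ∫ y, ⟪f y, e⟫_ℝ * (2 * (zR R0 y * ht ν c y ^ 2) + 4 * (zR R0 y * ⟪δ, y⟫_ℝ ^ 2) +
      4 * (c' - c) ^ 2 * zR R0 y - zR R0 y * ht ν' c' y ^ 2) =
      2 * (∫ y, m y * (zR R0 y * ht ν c y ^ 2)) + 4 * (∫ y, m y * (zR R0 y * ⟪δ, y⟫_ℝ ^ 2)) +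
      4 * (c' - c) ^ 2 * (∫ y, m y * zR R0 y) - ∫ y, m y * (zR R0 y * ht ν' c' y ^ 2) := by
    rw [← integral_const_mul, ← integral_const_mul, ← integral_const_mul, ← integral_add,
      ← integral_add, ← integral_sub]
    · congr 1
      funext y
      simp only [hm]
      ring
    · exact ((ih.const_mul 2).add (ip.const_mul 4)).add (iz.const_mul _)
    · exact ih'
    · exact (ih.const_mul 2).add (ip.const_mul 4)
    · exact iz.const_mul _
    · exact ih.const_mul 2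
    · exact ip.const_mul 4
  rw [h2] at h1
  have h3 : 4 * (c' - c) ^ 2 * (∫ y, m y * zR R0 y) ≤
      4 * (c' - c) ^ 2 * (CT * Q + CZ * (K4 + N1) * D0) :=
    mul_le_mul_of_nonneg_left b2 (by positivity)
  have h4 : ∫ y, m y * (zR R0 y * ht ν c y ^ 2) ≤
    max 0 (∫ y, m y * (zR R0 y * ht ν c y ^ 2)) := le_max_right _ _
  have hA : 4 * (‖δ‖ ^ 2 * (CT * Q)) + 4 * (c' - c) ^ 2 * (CT * Q) ≤ 4 * T * (CT * Q) := by
    have := mul_le_mul_of_nonneg_right hT hQ0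
    nlinarith
  have hB : 4 * (c' - c) ^ 2 * (CZ * (K4 + N1) * D0) ≤ T * (4 * CZ * (K4 + N1)) * Q := by
    have g1 : (c' - c) ^ 2 ≤ T := le_trans (le_add_of_nonneg_left (by positivity)) hT
    have g2 : D0 ≤ Q := by
      have g3 : 0 ≤ ma b ε R0 ((1 / 2) ^ n) f (n + 1) x := TU.ma_nonneg b ε R0 (by positivity) f _ _
      have g4 : 0 ≤ DD b ε R ((1 / 2) ^ n) f (n + 1) x e' :=
        TU.DD_nonneg b ε R (by positivity) f _ _ he'
      rw [hQ]
      linarith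
    have g5 : 4 * (c' - c) ^ 2 * (CZ * (K4 + N1) * D0) ≤ 4 * T * (CZ * (K4 + N1) * D0) := by
      gcongr
    have g6 : 4 * T * (CZ * (K4 + N1) * D0) ≤ 4 * T * (CZ * (K4 + N1) * Q) := by
      gcongr
    linarith
  have hmx : 0 ≤ max 0 (∫ y, m y * (zR R0 y * ht ν c y ^ 2)) := le_max_left _ _
  have hQ00 : 0 ≤ Q := by
    by_contra h0
    push Not at h0
    have := mul_neg_of_pos_of_neg hCT h0
    linarith
  have hfin : ∫ y, m y * (zR R0 y * ht ν' c' y ^ 2) ≤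
      2 * max 0 (∫ y, m y * (zR R0 y * ht ν c y ^ 2)) +
        (8 * CT + 4 * CZ * (K4 + N1) + CZ * NH) * T * Q +
        (8 * CT + 4 * CZ * (K4 + N1) + CZ * NH) * D0 := by
    have z1 : 0 ≤ (8 * CT + 4 * CZ * (K4 + N1)) * D0 := by positivity
    have z2 : 0 ≤ (4 * CT + CZ * NH) * (T * Q) := by positivity
    nlinarith
  refine max_le ?_ hfin
  positivity

end

end SAm

end TG
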