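import Pool.Agent.TG.SD
import Pool.Agent.TG.TQ

/-!
# Trace inequality, general operators: the nonconstant part of the jump (module SH2)
-/

open MeasureTheory Metric Set TrI
open scoped InnerProductSpace ContDiff

namespace TG

noncomputable section

namespace SH2

/-! ## Markov inequality -/

/-- weights computing the derivative at 0 of real polynomials of degree at most m -/
lemma weights (m : ℕ) : ∃ w : ℕ → ℝ, ∀ k ≤ m,
    ∑ i ∈ Finset.range (m + 1), w i * ((i : ℝ) / (m + 1)) ^ k = if k = 1 then 1 else 0 := by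
  set v : ℕ → ℝ := fun i => (i : ℝ) / (m + 1) with hv
  have hm : (0 : ℝ) < (m : ℝ) + 1 := by positivity
  have hinj : Set.InjOn v (Finset.range (m + 1) : Finset ℕ) := by
    intro i _ j _ h
    have h1 : (i : ℝ) / (m + 1) = (j : ℝ) / (m + 1) := h
    rw [div_left_inj' hm.ne'] at h1
    exact_mod_cast h1
  refine ⟨fun i => (Lagrange.basis (Finset.range (m + 1)) v i).derivative.eval 0, fun k hk => ?_⟩
  have hdeg : (Polynomial.X ^ k : Polynomial ℝ).degree < (Finset.range (m + 1)).card := by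
    rw [Polynomial.degree_X_pow, Finset.card_range]
    exact_mod_cast Nat.lt_succ_of_le hk
  have h1 := Lagrange.eq_interpolate (f := (Polynomial.X ^ k : Polynomial ℝ)) hinj hdeg
  have h2 := congrArg (fun p : Polynomial ℝ => p.derivative.eval 0) h1
  simp only [Lagrange.interpolate_apply, Polynomial.derivative_sum, Polynomial.eval_finsetSum,
    Polynomial.derivative_C_mul, Polynomial.eval_mul, Polynomial.eval_C, Polynomial.eval_pow,
    Polynomial.eval_X, Polynomial.derivative_X_pow] at h2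
  have h3 : ∑ i ∈ Finset.range (m + 1),
      (Lagrange.basis (Finset.range (m + 1)) v i).derivative.eval 0 * ((i : ℝ) / (m + 1)) ^ k =
      (k : ℝ) * (0 : ℝ) ^ (k - 1) := by
    rw [h2]
    exact Finset.sum_congr rfl fun i _ => mul_comm _ _
  rw [h3]
  rcases Nat.lt_or_ge k 2 with h | h
  · interval_cases k <;> simp
  · have h4 : k - 1 ≠ 0 := by omega
    rw [zero_pow h4, mul_zero, if_neg (by omega)]

lemma markov1 (m : ℕ) (ρ : ℝ) (hρ : 0 < ρ) : ∃ C : ℝ, 0 < C ∧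
    ∀ (d : ℕ) (V : Type) [NormedAddCommGroup V] [NormedSpace ℝ V] (P : Sp d → V),
      PolL (m + 1) P → ∀ (q : Sp d) (A : ℝ), (∀ y ∈ closedBall q (ρ + ρ), ‖P y‖ ≤ A) →
        ∀ y ∈ closedBall q ρ, ‖fderiv ℝ P y‖ ≤ C * A := by
  obtain ⟨w, hw⟩ := weights m
  refine ⟨(∑ i ∈ Finset.range (m + 1), |w i| + 1) / ρ, by positivity, ?_⟩
  intro d V _ _ P hP q A hA y hy
  have hA0 : 0 ≤ A := (norm_nonneg _).trans (hA q (by simp; positivity))
  -- the identity
  have key : ∀ h : Sp d, ‖h‖ ≤ ρ →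
      ‖fderiv ℝ P y h‖ ≤ (∑ i ∈ Finset.range (m + 1), |w i| + 1) * A := by
    intro h hh
    rcases Nat.eq_zero_or_pos m with hm0 | hm0
    · -- constant
      subst hm0
      have h1 : ‖fderiv ℝ P y‖ = 0 := by
        rw [← norm_iteratedFDeriv_one, hP.2 y, norm_zero]
      rw [norm_eq_zero] at h1
      rw [h1]
      simp only [_root_.zero_apply, norm_zero]
      positivity
    have e1 : ∀ i ∈ Finset.range (m + 1), P (y + ((i : ℝ) / (m + 1)) • h) =
        ∑ k ∈ Finset.range (m + 1), ((i : ℝ) / (m + 1)) ^ k •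
          ((Nat.factorial k : ℝ)⁻¹ • iteratedFDeriv ℝ k P y (fun _ => h)) := by
      intro i _
      rw [← eq_taylor hP.1 hP.2 (y + ((i : ℝ) / (m + 1)) • h) y]
      refine Finset.sum_congr rfl fun k _ => ?_
      rw [add_sub_cancel_left]
      have h3 := ContinuousMultilinearMap.map_smul_univ
        (iteratedFDeriv ℝ k P y) (fun _ => (i : ℝ) / (m + 1)) (fun _ => h)
      rw [h3, Finset.prod_const, Finset.card_univ, Fintype.card_fin, smul_comm]
    have e2 : ∑ i ∈ Finset.range (m + 1), w i • P (y + ((i : ℝ) / (m + 1)) • h) =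
        fderiv ℝ P y h := by
      rw [Finset.sum_congr rfl fun i hi => by rw [e1 i hi, Finset.smul_sum], Finset.sum_comm]
      have e3 : ∀ k ∈ Finset.range (m + 1), ∑ i ∈ Finset.range (m + 1),
          w i • (((i : ℝ) / (m + 1)) ^ k •
            ((Nat.factorial k : ℝ)⁻¹ • iteratedFDeriv ℝ k P y (fun _ => h))) =
          (if k = 1 then (1 : ℝ) else 0) •
            ((Nat.factorial k : ℝ)⁻¹ • iteratedFDeriv ℝ k P y (fun _ => h)) := by
        intro k hk
        rw [← hw k (by have := Finset.mem_range.mp hk; omega), Finset.sum_smul]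
        exact Finset.sum_congr rfl fun i _ => by rw [smul_smul]
      rw [Finset.sum_congr rfl e3, Finset.sum_eq_single 1]
      · simp
      · intro k _ hk
        rw [if_neg hk, zero_smul]
      · intro h1
        exact absurd (Finset.mem_range.mpr (by omega)) h1
    rw [← e2]
    refine (norm_sum_le _ _).trans ?_
    have e4 : ∀ i ∈ Finset.range (m + 1), ‖w i • P (y + ((i : ℝ) / (m + 1)) • h)‖ ≤ |w i| * A := by
      intro i hi
      rw [norm_smul, Real.norm_eq_abs]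
      refine mul_le_mul_of_nonneg_left (hA _ ?_) (abs_nonneg _)
      rw [mem_closedBall, dist_eq_norm] at hy ⊢
      have h5 : ‖((i : ℝ) / (m + 1)) • h‖ ≤ ρ := by
        rw [norm_smul, Real.norm_eq_abs, abs_of_nonneg (by positivity)]
        have h6 : (i : ℝ) / (m + 1) ≤ 1 := by
          rw [div_le_one (by positivity)]
          have := Finset.mem_range.mp hi
          exact_mod_cast this.le
        calc (i : ℝ) / (m + 1) * ‖h‖ ≤ 1 * ρ :=
              mul_le_mul h6 hh (norm_nonneg _) zero_le_one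
          _ = ρ := one_mul _
      calc ‖y + ((i : ℝ) / (m + 1)) • h - q‖ = ‖(y - q) + ((i : ℝ) / (m + 1)) • h‖ := by
            congr 1; abel
        _ ≤ ‖y - q‖ + ‖((i : ℝ) / (m + 1)) • h‖ := norm_add_le _ _
        _ ≤ ρ + ρ := add_le_add hy h5
    refine (Finset.sum_le_sum e4).trans ?_
    rw [← Finset.sum_mul]
    nlinarith
  refine ContinuousLinearMap.opNorm_le_bound _ (by positivity) fun h => ?_
  rcases eq_or_ne h 0 with h0 | h0
  · subst h0
    simp
  have hn : 0 < ‖h‖ := norm_pos_iff.mpr h0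
  have h1 := key ((ρ / ‖h‖) • h) (by
    rw [norm_smul, Real.norm_eq_abs, abs_of_nonneg (by positivity), div_mul_cancel₀ _ hn.ne'])
  rw [map_smul, norm_smul, Real.norm_eq_abs, abs_of_nonneg (by positivity)] at h1
  have h2 : ‖fderiv ℝ P y h‖ = ‖h‖ / ρ * (ρ / ‖h‖ * ‖fderiv ℝ P y h‖) := by
    field_simp
  rw [h2]
  calc ‖h‖ / ρ * (ρ / ‖h‖ * ‖fderiv ℝ P y h‖) ≤
        ‖h‖ / ρ * ((∑ i ∈ Finset.range (m + 1), |w i| + 1) * A) :=
        mul_le_mul_of_nonneg_left h1 (by positivity)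
    _ = (∑ i ∈ Finset.range (m + 1), |w i| + 1) / ρ * A * ‖h‖ := by ring

lemma polFderiv {d : ℕ} {V : Type} [NormedAddCommGroup V] [NormedSpace ℝ V] {k : ℕ}
    {P : Sp d → V} (hP : PolL k P) : PolL k (fderiv ℝ P) := by
  refine ⟨hP.1.fderiv_right (by exact_mod_cast le_top), fun x => ?_⟩
  rw [← norm_eq_zero, norm_iteratedFDeriv_fderiv, hP.succ.2 x, norm_zero]

lemma markov (m j : ℕ) : ∀ (ρ : ℝ), 0 < ρ → ∃ C : ℝ, 0 < C ∧
    ∀ (d : ℕ) (V : Type) [NormedAddCommGroup V] [NormedSpace ℝ V] (P : Sp d → V),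
      PolL (m + 1) P → ∀ (q : Sp d) (A : ℝ), (∀ y ∈ closedBall q ρ, ‖P y‖ ≤ A) →
        ‖iteratedFDeriv ℝ j P q‖ ≤ C * A := by
  induction j with
  | zero =>
    intro ρ hρ
    refine ⟨1, one_pos, ?_⟩
    intro d V _ _ P _ q A hA
    rw [norm_iteratedFDeriv_zero, one_mul]
    exact hA q (by simp; positivity)
  | succ j ih =>
    intro ρ hρ
    obtain ⟨C1, hC1, h1⟩ := markov1 m (ρ / 2) (by positivity)
    obtain ⟨C2, hC2, h2⟩ := ih (ρ / 2) (by positivity)
    refine ⟨C2 * C1, by positivity, ?_⟩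
    intro d V _ _ P hP q A hA
    rw [← norm_iteratedFDeriv_fderiv, mul_assoc]
    refine h2 d (Sp d →L[ℝ] V) (fderiv ℝ P) (polFderiv hP) q (C1 * A) ?_
    intro y hy
    exact h1 d V P hP q A (by rw [add_halves]; exact hA) y hy

lemma markov_all (m : ℕ) : ∃ C : ℝ, 0 < C ∧
    ∀ (d : ℕ) (V : Type) [NormedAddCommGroup V] [NormedSpace ℝ V] (P : Sp d → V),
      PolL (m + 1) P → ∀ (q : Sp d) (A : ℝ), (∀ y ∈ closedBall q 1, ‖P y‖ ≤ A) →
        ∀ j ≤ m, ‖iteratedFDeriv ℝ j P q‖ ≤ C * A := by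
  choose C hC h using fun j => markov m j 1 one_pos
  refine ⟨∑ j ∈ Finset.range (m + 1), C j, Finset.sum_pos (fun j _ => hC j) (by simp), ?_⟩
  intro d V _ _ P hP q A hA j hj
  have hA0 : 0 ≤ A := (norm_nonneg _).trans (hA q (by simp))
  refine (h j d V P hP q A hA).trans (mul_le_mul_of_nonneg_right ?_ hA0)
  exact Finset.single_le_sum (f := C) (fun i _ => (hC i).le) (Finset.mem_range.mpr (by omega))

/-! ## Scaling -/

section Sc

variable {d : ℕ} {V E : Type} [NormedAddCommGroup V] [InnerProductSpace ℝ V]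
  [FiniteDimensional ℝ V] [NormedAddCommGroup E] [InnerProductSpace ℝ E] [FiniteDimensional ℝ E]

lemma itF_aff' {F : Type} [NormedAddCommGroup F] [NormedSpace ℝ F] (k : ℕ) (g : Sp d → F)
    (x : Sp d) {t : ℝ} (ht : t ≠ 0) (y : Sp d) :
    iteratedFDeriv ℝ k (fun y => g (x + t • y)) y = t ^ k • iteratedFDeriv ℝ k g (x + t • y) := by
  ext m
  rw [SC.itF_aff k g x ht y m]
  rfl

lemma polAff {F : Type} [NormedAddCommGroup F] [NormedSpace ℝ F] {k : ℕ} {g : Sp d → F}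
    (hg : PolL k g) (x : Sp d) {t : ℝ} (ht : t ≠ 0) : PolL k (fun y => g (x + t • y)) := by
  refine ⟨hg.1.comp (contDiff_const.add (contDiff_id.const_smul t)), fun y => ?_⟩
  rw [itF_aff' k g x ht, hg.2, smul_zero]

lemma polSub {F : Type} [NormedAddCommGroup F] [NormedSpace ℝ F] {k : ℕ} {g h : Sp d → F}
    (hg : PolL k g) (hh : PolL k h) : PolL k (fun y => g y - h y) := by
  refine ⟨hg.1.sub hh.1, fun y => ?_⟩
  have h1 := iteratedFDeriv_sub_apply (𝕜 := ℝ) (i := k) (f := g) (g := h) (x := y)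
    (hg.1.contDiffAt.of_le (by exact_mod_cast le_top))
    (hh.1.contDiffAt.of_le (by exact_mod_cast le_top))
  have h2 : (fun y => g y - h y) = g - h := rfl
  rw [h2, h1, hg.2, hh.2, sub_zero]

omit [FiniteDimensional ℝ V] [FiniteDimensional ℝ E] in
lemma fo_cont (L : (Sp d →L[ℝ] V) →L[ℝ] E) {u : Sp d → V} (hu : TF u) :
    Continuous (fo L u) :=
  L.continuous.comp (hu.smooth.continuous_fderiv (by simp))

omit [FiniteDimensional ℝ V] [FiniteDimensional ℝ E] in
lemma fo_cs (L : (Sp d →L[ℝ] V) →L[ℝ] E) {u : Sp d → V} (hu : TF u) :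
    HasCompactSupport (fo L u) :=
  (hu.supp.fderiv (𝕜 := ℝ)).comp_left (g := fun M => L M) (map_zero L)

lemma JJ_PolL (hd : 1 ≤ d) (m : ℕ) (ν q : Sp d) {r : ℝ} (hr : 0 < r) {u : Sp d → V}
    (hu : ContDiff ℝ ∞ u) : PolL (m + 1) (JJ m ν q r u) := by
  have h1 := stmtTQ d V m u hd hu (q + (6 * r) • ν) r hr
  have h2 := stmtTQ d V m u hd hu (q - (6 * r) • ν) r hr
  exact polSub ⟨h1.1, h1.2.1⟩ ⟨h2.1, h2.2.1⟩

omit [FiniteDimensional ℝ V] in
/-- averaged Taylor polynomials on balls away from the support vanish -/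
lemma ATP_zero (m : ℕ) (c : Sp d) {r : ℝ} (hr : 0 < r) {u : Sp d → V} {ρ : ℝ}
    (hu : ∀ y, ρ ≤ ‖y‖ → u y = 0) (hc : ρ + r < ‖c‖) (x : Sp d) : ATP m c r u x = 0 := by
  unfold ATP
  refine integral_eq_zero_of_ae (Filter.Eventually.of_forall fun z => ?_)
  beta_reduce
  rcases le_or_gt 1 ‖z‖ with hz | hz
  · rw [bk_zero hz, zero_smul]
    rfl
  have h1 : ρ < ‖c + r • z‖ := by
    have h2 : ‖c‖ ≤ ‖c + r • z‖ + ‖r • z‖ := by
      calc ‖c‖ = ‖(c + r • z) - r • z‖ := by rw [add_sub_cancel_right]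
        _ ≤ _ := norm_sub_le _ _
    have h3 : ‖r • z‖ ≤ r := by
      rw [norm_smul, Real.norm_eq_abs, abs_of_pos hr]
      nlinarith
    linarith
  have h2 : u =ᶠ[nhds (c + r • z)] fun _ => 0 := by
    have h3 : ∀ᶠ y in nhds (c + r • z), ρ < ‖y‖ :=
      continuous_norm.continuousAt.eventually (lt_mem_nhds h1)
    filter_upwards [h3] with y hy using hu y hy.le
  have h4 : ∀ k, iteratedFDeriv ℝ k u (c + r • z) = 0 := by
    intro k
    rw [(Filter.EventuallyEq.iteratedFDeriv ℝ h2 k).eq_of_nhds]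
    simp
  rw [Finset.sum_eq_zero fun k _ => by rw [h4 k]; simp, smul_zero]
  rfl

omit [InnerProductSpace ℝ E] [FiniteDimensional ℝ E] in
lemma tower_norm {x : ℕ → Sp d} {e : ℕ → E} (hT : Tower x e) (r : ℕ) :
    ‖x r‖ ≤ Real.sqrt d * (2 ^ r - 1) := by
  induction r with
  | zero => simp [hT.zero]
  | succ r ih =>
    calc ‖x (r + 1)‖ = ‖x r + (x (r + 1) - x r)‖ := by rw [add_sub_cancel]
      _ ≤ ‖x r‖ + ‖x (r + 1) - x r‖ := norm_add_le _ _
      _ ≤ Real.sqrt d * (2 ^ r - 1) + Real.sqrt d * 2 ^ r := add_le_add ih (hT.step r)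
      _ = Real.sqrt d * (2 ^ (r + 1) - 1) := by ring

end Sc

end SH2

open SH2 in
theorem stmtSH2 (hHU : StmtHU) : StmtSH2 := by
  intro d V E _ _ _ _ _ _ L n0 T hd hn hNS M c0 ε hε hε1 b hb R0 hR0
  have hd0 : (0 : ℝ) ≤ d := Nat.cast_nonneg d
  have hd1 : 1 ≤ d := by omega
  obtain ⟨C1, hC1, hU⟩ := hHU d V E L n0 T hd1 hn hNS M c0 ε hε hε1 b hb R0 (by linarith)
  obtain ⟨C2, hC2, hM⟩ := markov_all n0
  refine ⟨4 * (C2 * (2 * C1)), by positivity, ?_⟩
  intro R hR n u hu x e hT ν c B hν hc hB j hj1 hjn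
  have hsq : Real.sqrt d ≤ d := by
    rw [Real.sqrt_le_iff]
    refine ⟨hd0, ?_⟩
    have : (1 : ℝ) ≤ d := by exact_mod_cast hd1
    nlinarith
  -- frame estimate
  have frame : ∀ r : ℕ, 2 ≤ r → ∀ σ : ℝ, (σ = 1 ∨ σ = -1) → ∀ z : Sp d, ‖z‖ ≤ R0 →
      ‖ATP n0 (c • ν + (6 * (2 : ℝ) ^ r * σ) • ν) ((2 : ℝ) ^ r) u (x r + (2 : ℝ) ^ r • z) -
        ATP n0 (c • ν + (6 * (2 : ℝ) ^ (r + 1) * σ) • ν) ((2 : ℝ) ^ (r + 1)) u
          (x r + (2 : ℝ) ^ r • z)‖ ≤
      C1 * bD b ε R0 R ((1 / 2) ^ n) (fo L u) (n + r) (x r) (e r) ν c := by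
    intro r hr σ hσ z hz
    set t : ℝ := (2 : ℝ) ^ r with htt
    have htp : 0 < t := by positivity
    have ht4 : 4 ≤ t := by
      calc (4 : ℝ) = 2 ^ 2 := by norm_num
        _ ≤ 2 ^ r := pow_le_pow_right₀ (by norm_num) hr
    obtain ⟨-, hSC2, hSC3⟩ := stmtSC d hd 1 one_pos (x r) t htp
    obtain ⟨hut, hfo⟩ := hSC3 V E L u hu
    obtain ⟨-, hDD, -⟩ := hSC2 E M c0 b hb ε hε hε1 (fo L u) (fo_cont L hu) (fo_cs L hu)
      ((1 / 2 : ℝ) ^ n) (by positivity)
    set c' : ℝ := (c - ⟪ν, x r⟫_ℝ) / t with hc'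
    have hbb := stmtSD.2 d E (fo L u) hd1 (fo_cont L hu) (fo_cs L hu) (x r) t htp R0
      ((1 / 2 : ℝ) ^ n) (n + r) 0 (e r) ν c' (by positivity)
    have hs0 : (1 / 2 : ℝ) ^ (n + r) = (1 / 2) ^ n / t := by
      rw [pow_add, htt, one_div, inv_pow, inv_pow]
      rfl
    have hbD : bD b ε R0 R ((1 / 2) ^ (n + r)) (fo L (fun y => u (x r + t • y))) (n + r) 0
        (e r) ν c' = bD b ε R0 R ((1 / 2) ^ n) (fo L u) (n + r) (x r) (e r) ν c := by
      unfold bD
      rw [hs0, hfo, hDD, hbb, smul_zero, add_zero]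
      congr 3
      rw [hc']
      field_simp
      ring
    set q' : Sp d := (1 / t) • (c • ν - x r) with hq'
    have hxr := tower_norm hT r
    have hxr' : ‖x r‖ ≤ Real.sqrt d * t :=
      hxr.trans (mul_le_mul_of_nonneg_left (by linarith) (Real.sqrt_nonneg _))
    have hinner : |⟪ν, x r⟫_ℝ| ≤ ‖x r‖ := by
      have := abs_real_inner_le_norm ν (x r)
      rwa [hν, one_mul] at this
    have hq'n : ‖q'‖ ≤ (R0 + 3) / 4 + Real.sqrt d := by
      rw [hq', norm_smul, Real.norm_eq_abs, abs_of_pos (by positivity)]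
      have h1 : ‖c • ν - x r‖ ≤ (R0 + 3) + Real.sqrt d * t := by
        refine (norm_sub_le _ _).trans (add_le_add ?_ hxr')
        rw [norm_smul, hν, mul_one, Real.norm_eq_abs]
        exact hc
      calc 1 / t * ‖c • ν - x r‖ ≤ 1 / t * ((R0 + 3) + Real.sqrt d * t) :=
            mul_le_mul_of_nonneg_left h1 (by positivity)
        _ = (R0 + 3) / t + Real.sqrt d := by field_simp
        _ ≤ (R0 + 3) / 4 + Real.sqrt d := by
            gcongr
            linarith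
    have hc'b : |c'| ≤ 3 * R0 := by
      rw [hc', abs_div, abs_of_pos htp, div_le_iff₀ htp]
      have h1 : |c - ⟪ν, x r⟫_ℝ| ≤ (R0 + 3) + Real.sqrt d * t :=
        (abs_sub _ _).trans (add_le_add hc (hinner.trans hxr'))
      refine h1.trans ?_
      nlinarith [Real.sqrt_nonneg (d : ℝ)]
    have hσ1 : |σ| = 1 := by rcases hσ with rfl | rfl <;> simp
    have hin : ∀ a : ℝ, ht ν c' (q' + (a * σ) • ν) = a * σ := by
      intro a
      have hνν : ⟪ν, ν⟫_ℝ = 1 := by rw [real_inner_self_eq_norm_sq, hν, one_pow]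
      unfold TG.ht
      simp only [hq', hc', inner_add_right, real_inner_smul_right, inner_sub_right, hνν]
      field_simp
      ring
    have hdist : ∀ y z : Sp d, |ht ν c' y - ht ν c' z| ≤ ‖y - z‖ := by
      intro y z
      unfold TG.ht
      have := abs_real_inner_le_norm ν (y - z)
      rw [hν, one_mul, inner_sub_right] at this
      convert this using 2
      ring
    have hball : ∀ (a ρ : ℝ), 4 + ρ ≤ a → ∀ y ∈ closedBall (q' + (a * σ) • ν) ρ,
        4 ≤ σ * ht ν c' y := by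
      intro a ρ ha y hy
      have h1 := hdist y (q' + (a * σ) • ν)
      rw [hin a] at h1
      rw [mem_closedBall, dist_eq_norm] at hy
      have h2 := abs_le.mp (h1.trans hy)
      rcases hσ with rfl | rfl
      · linarith [h2.1]
      · linarith [h2.2]
    have hhull : ∀ y ∈ convexHull ℝ (closedBall (q' + (6 * σ) • ν) 1 ∪
        closedBall (q' + (12 * σ) • ν) 2), 4 ≤ |ht ν c' y| := by
      intro y hy
      have hconv : Convex ℝ {y : Sp d | 4 ≤ σ * ht ν c' y} := by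
        have h1 : {y : Sp d | 4 ≤ σ * ht ν c' y} = {y : Sp d | 4 + σ * c' ≤ ⟪σ • ν, y⟫_ℝ} := by
          ext y
          simp only [mem_ofPred_eq, TG.ht]
          rw [real_inner_smul_left]
          constructor <;> intro h <;> linarith
        rw [h1]
        exact convex_halfSpace_ge (innerSL ℝ (σ • ν)).isLinear _
      have h2 := convexHull_min (s := closedBall (q' + (6 * σ) • ν) 1 ∪
        closedBall (q' + (12 * σ) • ν) 2) (t := {y : Sp d | 4 ≤ σ * ht ν c' y})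
        (union_subset (fun y hy => hball 6 1 (by norm_num) y hy)
          (fun y hy => hball 12 2 (by norm_num) y hy)) hconv hy
      have h3 : 4 ≤ σ * ht ν c' y := h2
      calc (4 : ℝ) ≤ σ * ht ν c' y := h3
        _ ≤ |σ * ht ν c' y| := le_abs_self _
        _ = |ht ν c' y| := by rw [abs_mul, hσ1, one_mul]
    have hnorm : ∀ a : ℝ, 0 ≤ a → ‖q' + (a * σ) • ν‖ ≤ (R0 + 3) / 4 + Real.sqrt d + a := by
      intro a ha
      refine (norm_add_le _ _).trans (add_le_add hq'n ?_)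
      rw [norm_smul, hν, mul_one, Real.norm_eq_abs, abs_mul, hσ1, mul_one, abs_of_nonneg ha]
    have h6 := hnorm 6 (by norm_num)
    have h12 := hnorm 12 (by norm_num)
    have hfin := (hU R (by linarith) (n + r) (fun y => u (x r + t • y)) hut (e r) (hT.unit r)
      (q' + (6 * σ) • ν) (q' + (12 * σ) • ν) 1 2 (by norm_num) (by norm_num) (by norm_num)
      (by norm_num) (by linarith) (by linarith)).2 ν c' hν hc'b hhull z hz
    rw [hbD, stmtSD.1 d V u hu.smooth (x r) t htp, stmtSD.1 d V u hu.smooth (x r) t htp] at hfin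
    have e1 : ∀ a : ℝ, x r + t • (q' + (a * σ) • ν) = c • ν + (a * t * σ) • ν := by
      intro a
      rw [hq', smul_add, smul_smul, smul_smul, mul_one_div_cancel htp.ne', one_smul, ← add_assoc,
        add_sub_cancel]
      congr 2
      ring
    rw [e1, e1, mul_one] at hfin
    have e2 : (2 : ℝ) ^ (r + 1) = t * 2 := by rw [pow_succ]
    rw [e2]
    have e3 : 6 * (t * 2) * σ = 12 * t * σ := by ring
    rw [e3]
    exact hfin
  -- one step
  set J : ℕ → Sp d → V := fun r => JJ n0 ν (c • ν) ((2 : ℝ) ^ r) u with hJ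
  have hJP : ∀ r, PolL (n0 + 1) (J r) := fun r => JJ_PolL hd1 n0 ν (c • ν) (by positivity) hu.smooth
  have stepJ : ∀ r : ℕ, 2 ≤ r → ∀ z : Sp d, ‖z‖ ≤ R0 →
      ‖J (r + 1) (x r + (2 : ℝ) ^ r • z) - J r (x r + (2 : ℝ) ^ r • z)‖ ≤
      2 * C1 * bD b ε R0 R ((1 / 2) ^ n) (fo L u) (n + r) (x r) (e r) ν c := by
    intro r hr z hz
    have h1 := frame r hr 1 (Or.inl rfl) z hz
    have h2 := frame r hr (-1) (Or.inr rfl) z hz
    simp only [hJ, JJ]
    rw [mul_one, mul_one] at h1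
    rw [mul_neg_one, mul_neg_one, neg_smul, neg_smul, ← sub_eq_add_neg, ← sub_eq_add_neg] at h2
    set a1 := ATP n0 (c • ν + (6 * (2 : ℝ) ^ r) • ν) ((2 : ℝ) ^ r) u (x r + (2 : ℝ) ^ r • z)
    set a2 := ATP n0 (c • ν + (6 * (2 : ℝ) ^ (r + 1)) • ν) ((2 : ℝ) ^ (r + 1)) u
      (x r + (2 : ℝ) ^ r • z)
    set a3 := ATP n0 (c • ν - (6 * (2 : ℝ) ^ r) • ν) ((2 : ℝ) ^ r) u (x r + (2 : ℝ) ^ r • z)
    set a4 := ATP n0 (c • ν - (6 * (2 : ℝ) ^ (r + 1)) • ν) ((2 : ℝ) ^ (r + 1)) u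
      (x r + (2 : ℝ) ^ r • z)
    have h3 : a2 - a4 - (a1 - a3) = (a3 - a4) - (a1 - a2) := by abel
    rw [h3]
    refine (norm_sub_le _ _).trans ?_
    linarith
  have hstep : ∀ r : ℕ, 2 ≤ r →
      ((2 : ℝ) ^ r) ^ j * ‖iteratedFDeriv ℝ j (J r) (c • ν)‖ ≤
        1 / 2 * (((2 : ℝ) ^ (r + 1)) ^ j * ‖iteratedFDeriv ℝ j (J (r + 1)) (c • ν)‖) +
        C2 * (2 * C1) * bD b ε R0 R ((1 / 2) ^ n) (fo L u) (n + r) (x r) (e r) ν c := by
    intro r hr
    set t : ℝ := (2 : ℝ) ^ r with htt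
    have htp : 0 < t := by positivity
    have ht4 : 4 ≤ t := by
      calc (4 : ℝ) = 2 ^ 2 := by norm_num
        _ ≤ 2 ^ r := pow_le_pow_right₀ (by norm_num) hr
    set q' : Sp d := (1 / t) • (c • ν - x r) with hq'
    have hxr := tower_norm hT r
    have hxr' : ‖x r‖ ≤ Real.sqrt d * t :=
      hxr.trans (mul_le_mul_of_nonneg_left (by linarith) (Real.sqrt_nonneg _))
    have hq'n : ‖q'‖ ≤ (R0 + 3) / 4 + Real.sqrt d := by
      rw [hq', norm_smul, Real.norm_eq_abs, abs_of_pos (by positivity)]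
      have h1 : ‖c • ν - x r‖ ≤ (R0 + 3) + Real.sqrt d * t := by
        refine (norm_sub_le _ _).trans (add_le_add ?_ hxr')
        rw [norm_smul, hν, mul_one, Real.norm_eq_abs]
        exact hc
      calc 1 / t * ‖c • ν - x r‖ ≤ 1 / t * ((R0 + 3) + Real.sqrt d * t) :=
            mul_le_mul_of_nonneg_left h1 (by positivity)
        _ = (R0 + 3) / t + Real.sqrt d := by field_simp
        _ ≤ (R0 + 3) / 4 + Real.sqrt d := by
            gcongr
            linarith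
    have hpt : x r + t • q' = c • ν := by
      rw [hq', smul_smul, mul_one_div_cancel htp.ne', one_smul, add_sub_cancel]
    have hP : PolL (n0 + 1) (fun z => J (r + 1) (x r + t • z) - J r (x r + t • z)) :=
      polSub (polAff (hJP (r + 1)) (x r) htp.ne') (polAff (hJP r) (x r) htp.ne')
    have h1 := hM d V _ hP q'
      (2 * C1 * bD b ε R0 R ((1 / 2) ^ n) (fo L u) (n + r) (x r) (e r) ν c) (by
        intro y hy
        refine stepJ r hr y ?_
        rw [mem_closedBall, dist_eq_norm] at hy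
        have h2 : ‖y‖ ≤ ‖y - q'‖ + ‖q'‖ := by
          calc ‖y‖ = ‖(y - q') + q'‖ := by rw [sub_add_cancel]
            _ ≤ _ := norm_add_le _ _
        linarith) j hjn
    have h2 : iteratedFDeriv ℝ j (fun z => J (r + 1) (x r + t • z) - J r (x r + t • z)) q' =
        t ^ j • (iteratedFDeriv ℝ j (J (r + 1)) (c • ν) - iteratedFDeriv ℝ j (J r) (c • ν)) := by
      have h3 : (fun z => J (r + 1) (x r + t • z) - J r (x r + t • z)) =
        (fun z => J (r + 1) (x r + t • z)) - (fun z => J r (x r + t • z)) := rfl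
      rw [h3, iteratedFDeriv_sub_apply
        ((polAff (hJP (r + 1)) (x r) htp.ne').1.contDiffAt.of_le (by exact_mod_cast le_top))
        ((polAff (hJP r) (x r) htp.ne').1.contDiffAt.of_le (by exact_mod_cast le_top)),
        itF_aff' _ _ _ htp.ne', itF_aff' _ _ _ htp.ne', hpt, smul_sub]
    rw [h2, norm_smul, Real.norm_eq_abs, abs_of_pos (by positivity)] at h1
    have h3 : ‖iteratedFDeriv ℝ j (J r) (c • ν)‖ ≤ ‖iteratedFDeriv ℝ j (J (r + 1)) (c • ν)‖ +
        ‖iteratedFDeriv ℝ j (J (r + 1)) (c • ν) - iteratedFDeriv ℝ j (J r) (c • ν)‖ := by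
      have h4 := norm_sub_le (iteratedFDeriv ℝ j (J (r + 1)) (c • ν))
        (iteratedFDeriv ℝ j (J (r + 1)) (c • ν) - iteratedFDeriv ℝ j (J r) (c • ν))
      rwa [sub_sub_cancel] at h4
    have h5 : t ^ j ≤ 1 / 2 * ((2 : ℝ) ^ (r + 1)) ^ j := by
      rw [pow_succ, ← htt, mul_pow]
      have h6 : (2 : ℝ) ≤ 2 ^ j := by
        calc (2 : ℝ) = 2 ^ 1 := by norm_num
          _ ≤ 2 ^ j := pow_le_pow_right₀ (by norm_num) hj1
      have h7 : 0 < t ^ j := by positivity
      nlinarith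
    calc t ^ j * ‖iteratedFDeriv ℝ j (J r) (c • ν)‖ ≤
          t ^ j * (‖iteratedFDeriv ℝ j (J (r + 1)) (c • ν)‖ +
        ‖iteratedFDeriv ℝ j (J (r + 1)) (c • ν) - iteratedFDeriv ℝ j (J r) (c • ν)‖) :=
          mul_le_mul_of_nonneg_left h3 (by positivity)
      _ = t ^ j * ‖iteratedFDeriv ℝ j (J (r + 1)) (c • ν)‖ +
        t ^ j * ‖iteratedFDeriv ℝ j (J (r + 1)) (c • ν) -
          iteratedFDeriv ℝ j (J r) (c • ν)‖ := mul_add _ _ _
      _ ≤ 1 / 2 * ((2 : ℝ) ^ (r + 1)) ^ j * ‖iteratedFDeriv ℝ j (J (r + 1)) (c • ν)‖ +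
        C2 * (2 * C1 * bD b ε R0 R ((1 / 2) ^ n) (fo L u) (n + r) (x r) (e r) ν c) :=
          add_le_add (mul_le_mul_of_nonneg_right h5 (norm_nonneg _)) h1
      _ = _ := by ring
  -- induction
  have hind : ∀ I : ℕ, 2 ≤ I →
      ((2 : ℝ) ^ 2) ^ j * ‖iteratedFDeriv ℝ j (J 2) (c • ν)‖ ≤
        (1 / 2) ^ (I - 2) * (((2 : ℝ) ^ I) ^ j * ‖iteratedFDeriv ℝ j (J I) (c • ν)‖) +
        4 * (C2 * (2 * C1)) * ∑ r ∈ Finset.Ico 2 I, (1 / 2 : ℝ) ^ r *
          bD b ε R0 R ((1 / 2) ^ n) (fo L u) (n + r) (x r) (e r) ν c := by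
    intro I hI
    induction I, hI using Nat.le_induction with
    | base => simp
    | succ I hI ih =>
      have h1 := hstep I hI
      rw [Finset.sum_Ico_succ_top hI]
      have h2 : (1 / 2 : ℝ) ^ I = (1 / 4) * (1 / 2) ^ (I - 2) := by
        obtain ⟨k, rfl⟩ := Nat.exists_eq_add_of_le hI
        rw [add_tsub_cancel_left, pow_add]
        norm_num
      have h3 : I + 1 - 2 = (I - 2) + 1 := by omega
      have h4 : (0 : ℝ) < (1 / 2) ^ (I - 2) := by positivity
      have h5 := mul_le_mul_of_nonneg_left h1 h4.le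
      rw [h3, pow_succ, h2]
      refine ih.trans ?_
      have h6 : ∀ a b c d' s k : ℝ, k * a ≤ k * (1 / 2 * b + c * d') →
          k * a + 4 * c * s ≤ k * (1 / 2) * b + 4 * c * (s + 1 / 4 * k * d') := by
        intro a b c d' s k h
        nlinarith
      exact h6 _ _ _ _ _ _ h5
  -- large levels
  obtain ⟨ρ, hρ⟩ : ∃ ρ : ℝ, ∀ y, ρ ≤ ‖y‖ → u y = 0 := by
    obtain ⟨ρ, hρ⟩ := hu.supp.isCompact.isBounded.subset_ball (0 : Sp d)
    refine ⟨ρ, fun y hy => ?_⟩
    by_contra h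
    have := hρ (subset_tsupport _ (Function.mem_support.mpr h))
    rw [mem_ball_zero_iff] at this
    linarith
  obtain ⟨I, hI⟩ : ∃ I : ℕ, max ρ 0 + |c| < 2 ^ I := by
    obtain ⟨I, hI⟩ := pow_unbounded_of_one_lt (max ρ 0 + |c|) (one_lt_two (α := ℝ))
    exact ⟨I, hI⟩
  have hI2 : max ρ 0 + |c| < 2 ^ (I + 2) :=
    hI.trans_le (pow_le_pow_right₀ (by norm_num) (by omega))
  have hzero : J (I + 2) = fun _ => 0 := by
    funext y
    simp only [hJ, JJ]
    have htp : (0 : ℝ) < 2 ^ (I + 2) := by positivity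
    have hcn : |c| ≤ 2 ^ (I + 2) := by
      have := le_max_right ρ 0
      linarith
    have hcc : ∀ s : ℝ, |s| = 1 → ρ + 2 ^ (I + 2) < ‖(c + 6 * 2 ^ (I + 2) * s) • ν‖ := by
      intro s hs
      rw [norm_smul, hν, mul_one, Real.norm_eq_abs]
      have h1 : |6 * 2 ^ (I + 2) * s| ≤ |c + 6 * 2 ^ (I + 2) * s| + |c| := by
        calc |6 * 2 ^ (I + 2) * s| = |(c + 6 * 2 ^ (I + 2) * s) - c| := by
              rw [add_sub_cancel_left]
          _ ≤ _ := abs_sub _ _
      rw [abs_mul, hs, mul_one, abs_of_pos (by positivity)] at h1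
      have := le_max_left ρ 0
      linarith
    have h1 := hcc 1 (by simp)
    have h2 := hcc (-1) (by simp)
    rw [add_smul, mul_one] at h1
    rw [add_smul, mul_neg_one, neg_smul, ← sub_eq_add_neg] at h2
    rw [ATP_zero n0 _ htp hρ h1, ATP_zero n0 _ htp hρ h2, sub_zero]
  have hfin := hind (I + 2) (by omega)
  have hz : iteratedFDeriv ℝ j (J (I + 2)) (c • ν) = 0 := by
    rw [hzero]
    simp
  rw [hz, norm_zero, mul_zero, mul_zero, zero_add] at hfin
  have hfin2 := hfin.trans (mul_le_mul_of_nonneg_left (hB (I + 2))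
    (by positivity : (0 : ℝ) ≤ 4 * (C2 * (2 * C1))))
  have h4 : J 2 = JJ n0 ν (c • ν) 4 u := by
    simp only [hJ]
    norm_num
  rw [h4] at hfin2
  have h5 : (1 : ℝ) ≤ ((2 : ℝ) ^ 2) ^ j := one_le_pow₀ (by norm_num)
  calc ‖iteratedFDeriv ℝ j (JJ n0 ν (c • ν) 4 u) (c • ν)‖ ≤
        ((2 : ℝ) ^ 2) ^ j * ‖iteratedFDeriv ℝ j (JJ n0 ν (c • ν) 4 u) (c • ν)‖ :=
        le_mul_of_one_le_left (norm_nonneg _) h5
    _ ≤ _ := hfin2

end

end TG
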