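import Pool.Agent.TG.SAF0
import Pool.Agent.TG.SH2
import Pool.Agent.TG.TFU

/-!
# Trace inequality, general operators: module SAF, piece 2
-/

open MeasureTheory Metric Set TrI
open scoped InnerProductSpace ContDiff

namespace TG

noncomputable section

namespace SAF2

lemma taylor_diff {d : ℕ} {V : Type} [NormedAddCommGroup V] [NormedSpace ℝ V] {m : ℕ}
    {P : Sp d → V} (hP : PolL (m + 1) P) (q y : Sp d) {ρ A : ℝ} (hρ : 1 ≤ ρ)
    (hy : ‖y - q‖ ≤ ρ)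
    (hA : ∀ j, 1 ≤ j → j ≤ m → ‖iteratedFDeriv ℝ j P q‖ ≤ A) :
    ‖P y - P q‖ ≤ m * (ρ ^ m * A) := by
  have h0 := eq_taylor hP.1 hP.2 y q
  rw [Finset.sum_range_succ'] at h0
  simp only [Nat.factorial_zero, Nat.cast_one, inv_one, one_smul, iteratedFDeriv_zero_apply] at h0
  rw [← h0, add_sub_cancel_right]
  refine (norm_sum_le _ _).trans ?_
  have h1 : ∀ k ∈ Finset.range m, ‖((Nat.factorial (k + 1) : ℝ)⁻¹ •
      iteratedFDeriv ℝ (k + 1) P q (fun _ => y - q))‖ ≤ ρ ^ m * A := by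
    intro k hk
    rw [Finset.mem_range] at hk
    rw [norm_smul, norm_inv, Real.norm_natCast]
    have h2 : ((Nat.factorial (k + 1) : ℝ))⁻¹ ≤ 1 :=
      inv_le_one_of_one_le₀ (by exact_mod_cast Nat.factorial_pos (k + 1))
    have h3 : ‖iteratedFDeriv ℝ (k + 1) P q (fun _ => y - q)‖ ≤ ρ ^ m * A := by
      refine ((iteratedFDeriv ℝ (k + 1) P q).le_opNorm _).trans ?_
      rw [Finset.prod_const, Finset.card_univ, Fintype.card_fin, mul_comm]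
      refine mul_le_mul ?_ (hA (k + 1) (by omega) (by omega)) (norm_nonneg _) (by positivity)
      exact (pow_le_pow_left₀ (norm_nonneg _) hy _).trans (pow_le_pow_right₀ hρ (by omega))
    calc _ ≤ 1 * (ρ ^ m * A) := mul_le_mul h2 h3 (norm_nonneg _) zero_le_one
      _ = _ := one_mul _
  refine (Finset.sum_le_sum h1).trans ?_
  rw [Finset.sum_const, Finset.card_range, nsmul_eq_mul]

end SAF2

open SAF2 SH2 in
theorem stmtSAF2 (hSH2 : StmtSH2) (hJC : StmtJC) : StmtSAF2 := by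
  intro d V E _ _ _ _ _ _ L n0 T hd hn hNS M c0 ε hε hε1 b hb R0 hR0
  have hd0 : (0 : ℝ) ≤ d := Nat.cast_nonneg d
  have hd1 : 1 ≤ d := by omega
  obtain ⟨C1, hC1, h1⟩ := hSH2 d V E L n0 T hd hn hNS M c0 ε hε hε1 b hb R0 hR0
  obtain ⟨C2, hC2, h2⟩ := hJC d V E L n0 T hd1 hn hNS M c0 ε hε hε1 b hb R0 (by linarith)
  have hR0p : 0 < R0 := by linarith
  refine ⟨n0 * ((10 * R0) ^ n0 * C1) + 4 * C2, by positivity, ?_⟩
  intro R hR n u hu x e hT ν c B hν hc hB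
  have hsq : Real.sqrt d ≤ d := by
    rw [Real.sqrt_le_iff]
    refine ⟨hd0, ?_⟩
    have : (1 : ℝ) ≤ d := by exact_mod_cast hd1
    nlinarith
  have hbD0 : ∀ r, 0 ≤ bD b ε R0 R ((1 / 2) ^ n) (fo L u) (n + r) (x r) (e r) ν c := fun r =>
    add_nonneg (le_max_left _ _) (TU.DD_nonneg b ε R (by positivity) _ _ _ (hT.unit r))
  have hterm : ∀ r, 0 ≤ (1 / 2 : ℝ) ^ r *
      bD b ε R0 R ((1 / 2) ^ n) (fo L u) (n + r) (x r) (e r) ν c := fun r =>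
    mul_nonneg (by positivity) (hbD0 r)
  have hB0 : 0 ≤ B := by simpa using hB 0
  have hder := h1 R hR n u hu x e hT ν c B hν hc (fun I =>
    (Finset.sum_le_sum_of_subset_of_nonneg (fun r hr => by
      rw [Finset.mem_Ico] at hr
      exact Finset.mem_range.mpr hr.2) (fun r _ _ => hterm r)).trans (hB I))
  -- the term with r = 2
  have hb2 : bD b ε R0 R ((1 / 2) ^ n) (fo L u) (n + 2) (x 2) (e 2) ν c ≤ 4 * B := by
    have h3 := (Finset.single_le_sum (f := fun r => (1 / 2 : ℝ) ^ r *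
      bD b ε R0 R ((1 / 2) ^ n) (fo L u) (n + r) (x r) (e r) ν c)
      (fun r _ => hterm r) (Finset.mem_range.mpr (by norm_num : 2 < 3))).trans (hB 3)
    have h4 : (1 / 2 : ℝ) ^ 2 * bD b ε R0 R ((1 / 2) ^ n) (fo L u) (n + 2) (x 2) (e 2) ν c ≤ B :=
      h3
    linarith
  -- norms
  have hx2 : ‖x 2‖ ≤ 3 * Real.sqrt d := by
    have := tower_norm hT 2
    linarith
  have hinner : |⟪ν, x 2⟫_ℝ| ≤ ‖x 2‖ := by
    have := abs_real_inner_le_norm ν (x 2)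
    rwa [hν, one_mul] at this
  have hcn : ‖c • ν‖ ≤ R0 + 3 := by
    rw [norm_smul, hν, mul_one, Real.norm_eq_abs]
    exact hc
  -- frame of level 2
  have ht4 : (0 : ℝ) < 4 := by norm_num
  obtain ⟨-, hSC2, hSC3⟩ := stmtSC d hd 1 one_pos (x 2) 4 ht4
  obtain ⟨hut, hfo⟩ := hSC3 V E L u hu
  obtain ⟨-, hDD, -⟩ := hSC2 E M c0 b hb ε hε hε1 (fo L u) (fo_cont L hu) (fo_cs L hu)
    ((1 / 2 : ℝ) ^ n) (by positivity)
  set c' : ℝ := (c - ⟪ν, x 2⟫_ℝ) / 4 with hc'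
  have hbb := stmtSD.2 d E (fo L u) hd1 (fo_cont L hu) (fo_cs L hu) (x 2) 4 ht4 R0
    ((1 / 2 : ℝ) ^ n) (n + 2) 0 (e 2) ν c' (by positivity)
  have hs0 : (1 / 2 : ℝ) ^ (n + 2) = (1 / 2) ^ n / 4 := by
    rw [pow_add]
    ring
  have hbD : bD b ε R0 R ((1 / 2) ^ (n + 2)) (fo L (fun y => u (x 2 + (4 : ℝ) • y))) (n + 2) 0
      (e 2) ν c' = bD b ε R0 R ((1 / 2) ^ n) (fo L u) (n + 2) (x 2) (e 2) ν c := by
    unfold bD
    rw [hs0, hfo, hDD, hbb, smul_zero, add_zero]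
    congr 3
    rw [hc']
    ring
  set q : Sp d := (1 / 4 : ℝ) • (c • ν - x 2) with hq
  have hνν : ⟪ν, ν⟫_ℝ = 1 := by rw [real_inner_self_eq_norm_sq, hν, one_pow]
  have hνq : ⟪ν, q⟫_ℝ = c' := by
    rw [hq, hc', real_inner_smul_right, inner_sub_right, real_inner_smul_right, hνν]
    ring
  have hνq' : ⟪ν, c' • ν⟫_ℝ = c' := by
    rw [real_inner_smul_right, hνν, mul_one]
  have hqn : ‖q‖ ≤ R0 / 2 := by
    rw [hq, norm_smul, Real.norm_eq_abs, abs_of_pos (by norm_num)]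
    have := norm_sub_le (c • ν) (x 2)
    linarith
  have hqn' : ‖c' • ν‖ ≤ R0 / 2 := by
    rw [norm_smul, hν, mul_one, Real.norm_eq_abs, hc', abs_div, abs_of_pos ht4]
    have := abs_sub c ⟪ν, x 2⟫_ℝ
    rw [div_le_iff₀ ht4]
    linarith
  refine ⟨JJ n0 ν (c • ν) 4 u (c • ν), fun y hy => ?_⟩
  have h5 := (h2 R (by linarith) (n + 2) (fun y => u (x 2 + (4 : ℝ) • y)) hut (e 2) (hT.unit 2)
    ν q (c' • ν) hν (hνq.trans hνq'.symm) hqn hqn' y hy).2.1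
  rw [hνq, hbD] at h5
  have h6 : JJ n0 ν q 1 (fun y => u (x 2 + (4 : ℝ) • y)) y =
      JJ n0 ν (c • ν) 4 u (x 2 + (4 : ℝ) • y) := by
    unfold JJ
    rw [stmtSD.1 d V u hu.smooth (x 2) 4 ht4, stmtSD.1 d V u hu.smooth (x 2) 4 ht4, mul_one,
      mul_one]
    have e1 : x 2 + (4 : ℝ) • (q + (6 : ℝ) • ν) = c • ν + (6 * 4 : ℝ) • ν := by
      rw [hq]
      module
    have e2 : x 2 + (4 : ℝ) • (q - (6 : ℝ) • ν) = c • ν - (6 * 4 : ℝ) • ν := by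
      rw [hq]
      module
    rw [e1, e2]
  rw [h6] at h5
  have h7 := taylor_diff (JJ_PolL hd1 n0 ν (c • ν) ht4 hu.smooth) (c • ν) (x 2 + (4 : ℝ) • y)
    (ρ := 10 * R0) (A := C1 * B) (by linarith) (by
      have a1 := norm_sub_le (x 2 + (4 : ℝ) • y) (c • ν)
      have a2 := norm_add_le (x 2) ((4 : ℝ) • y)
      have a3 : ‖(4 : ℝ) • y‖ = 4 * ‖y‖ := by
        rw [norm_smul, Real.norm_eq_abs, abs_of_pos ht4]
      linarith) hder
  have h8 := norm_add_le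
    (JJ n0 ν (c' • ν) 1 (fun y => u (x 2 + (4 : ℝ) • y)) y - JJ n0 ν (c • ν) 4 u (x 2 + (4 : ℝ) • y))
    (JJ n0 ν (c • ν) 4 u (x 2 + (4 : ℝ) • y) - JJ n0 ν (c • ν) 4 u (c • ν))
  rw [sub_add_sub_cancel] at h8
  refine h8.trans ?_
  have h9 : C2 * bD b ε R0 R ((1 / 2) ^ n) (fo L u) (n + 2) (x 2) (e 2) ν c ≤ C2 * (4 * B) :=
    mul_le_mul_of_nonneg_left hb2 hC2.le
  calc _ ≤ C2 * (4 * B) + n0 * ((10 * R0) ^ n0 * (C1 * B)) := add_le_add (h5.trans h9) h7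
    _ = _ := by ring

end

end TG
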