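import Pool.Agent.TG.SAFi
import Pool.Agent.TG.SAF2
import Pool.Agent.TG.FS

/-!
# Module SAF: the sheet lemma from Flat at level 2 (helper95, with helper65, helper51, helper21)
-/

open MeasureTheory Metric Set TrI
open scoped InnerProductSpace ContDiff

namespace TG

namespace SAFm

noncomputable section

open TU

variable {d : ℕ}

lemma num_w {C1 al m2 W Lam B : ℝ} (hC1 : 0 < C1) (hal : 0 < al) (hm2 : 0 < m2)
    (h : m2 ≤ C1 * al) (hLam : 1 ≤ Lam) (hB : 0 ≤ B) (hW : W ≤ C1 * (Lam * m2) * B) :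
    al * (W / al ^ 2) ≤ C1 ^ 2 * Lam * B ∧ m2 * (W / al ^ 2) ≤ C1 ^ 3 * Lam * B := by
  have e1 : al * (W / al ^ 2) = W / al := by
    field_simp
  have h1 : W / al ≤ C1 ^ 2 * Lam * B := by
    rw [div_le_iff₀ hal]
    refine hW.trans ?_
    have : C1 * Lam * B * m2 ≤ C1 * Lam * B * (C1 * al) :=
      mul_le_mul_of_nonneg_left h (by positivity)
    linarith
  refine ⟨by rw [e1]; exact h1, ?_⟩
  rcases le_or_gt 0 W with hW0 | hW0
  · have h2 : 0 ≤ W / al ^ 2 := by positivity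
    calc m2 * (W / al ^ 2) ≤ C1 * al * (W / al ^ 2) := mul_le_mul_of_nonneg_right h h2
      _ = C1 * (al * (W / al ^ 2)) := by ring
      _ ≤ C1 * (C1 ^ 2 * Lam * B) := by
        rw [e1]
        exact mul_le_mul_of_nonneg_left h1 hC1.le
      _ = _ := by ring
  · have h2 : W / al ^ 2 < 0 := div_neg_of_neg_of_pos hW0 (by positivity)
    have h3 : m2 * (W / al ^ 2) < 0 := mul_neg_of_pos_of_neg hm2 h2
    have h4 : 0 ≤ C1 ^ 3 * Lam * B := by positivity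
    linarith

lemma num_small {w o R0 : ℝ} (hR0 : 200 ≤ R0) (_hw : 0 ≤ w)
    (h : w ^ 2 + o ^ 2 ≤ 1 / (100 * R0 ^ 2)) :
    w ≤ 1 ∧ |o| ≤ 1 ∧ 2 * w ≤ 1 / 24 ∧ 4 * |o| + 3 * R0 * w ≤ 1 := by
  have hR : 0 < R0 := by linarith
  have e1 : (1 / (10 * R0)) ^ 2 = 1 / (100 * R0 ^ 2) := by
    rw [div_pow, one_pow, mul_pow]
    norm_num
  have h1 : w ≤ 1 / (10 * R0) := by
    refine abs_le_of_sq_le_sq' ?_ (by positivity) |>.2
    rw [e1]
    linarith [sq_nonneg o]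
  have h2 : |o| ≤ 1 / (10 * R0) := by
    refine abs_le_of_sq_le_sq ?_ (by positivity)
    rw [e1]
    linarith [sq_nonneg w]
  have h3 : 1 / (10 * R0) ≤ 1 / 2000 := by
    refine one_div_le_one_div_of_le (by norm_num) (by linarith)
  have h4 : 3 * R0 * w ≤ 3 / 10 := by
    calc 3 * R0 * w ≤ 3 * R0 * (1 / (10 * R0)) := mul_le_mul_of_nonneg_left h1 (by positivity)
      _ = 3 / 10 := by field_simp
  refine ⟨by linarith, by linarith, by linarith, by linarith⟩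

lemma sqrt_lam {Lam m2 D : ℝ} (hLam : 1 ≤ Lam) :
    Real.sqrt (Lam * m2 * D) ≤ Lam * Real.sqrt (m2 * D) := by
  rw [mul_assoc, Real.sqrt_mul (by linarith)]
  refine mul_le_mul_of_nonneg_right ?_ (Real.sqrt_nonneg _)
  rw [Real.sqrt_le_left (by linarith)]
  nlinarith

/-- smallness of the coefficients -/
lemma num_Sw {C1 al m2 W Lam B κ R0 : ℝ} (hC1 : 0 < C1) (hal : 0 < al) (hm2 : 0 < m2)
    (h : m2 ≤ C1 * al) (hLam : 1 ≤ Lam) (hB : 0 ≤ B) (hW : W ≤ C1 * (Lam * m2) * B)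
    (hR0 : 0 < R0) (hκ : κ ≤ 1 / (C1 ^ 3 * (100 * R0 ^ 2))) (hBκ : Lam ^ 2 * B ≤ κ * m2) :
    W / al ^ 2 ≤ 1 / (100 * R0 ^ 2) := by
  have h1 := (num_w hC1 hal hm2 h hLam hB hW).2
  have h2 : C1 ^ 3 * Lam * B ≤ C1 ^ 3 * (κ * m2) := by
    have : Lam * B ≤ Lam ^ 2 * B := by
      have : Lam ≤ Lam ^ 2 := by nlinarith
      exact mul_le_mul_of_nonneg_right this hB
    have := mul_le_mul_of_nonneg_left (this.trans hBκ) (by positivity : 0 ≤ C1 ^ 3)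
    linarith
  have h3 : C1 ^ 3 * (κ * m2) ≤ m2 * (1 / (100 * R0 ^ 2)) := by
    have : C1 ^ 3 * m2 * κ ≤ C1 ^ 3 * m2 * (1 / (C1 ^ 3 * (100 * R0 ^ 2))) :=
      mul_le_mul_of_nonneg_left hκ (by positivity)
    refine le_trans (by linarith) (this.trans (le_of_eq ?_))
    field_simp
  exact le_of_mul_le_mul_left (h1.trans (h2.trans h3)) hm2

/-- the closeness of the planes -/
lemma num_close {R0 C K m2 Sw w o δ γ Lam B : ℝ} (hR0 : 200 ≤ R0) (hm2 : 0 < m2) (hw : 0 ≤ w)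
    (hSw : Sw = w ^ 2 + o ^ 2) (hδ0 : 0 ≤ δ) (hδ : δ ≤ 2 * w)
    (hγ : |γ| ≤ 4 * |o| + 3 * R0 * w) (h : m2 * Sw ≤ K * Lam * B) (hLam : 0 ≤ Lam) (hB : 0 ≤ B)
    (hC : (4 + 18 * R0 ^ 2) * K ≤ C) : m2 * (δ ^ 2 + γ ^ 2) ≤ C * Lam * B := by
  have h1 : δ ^ 2 ≤ 4 * w ^ 2 := by nlinarith
  have h2 : γ ^ 2 ≤ 18 * R0 ^ 2 * Sw := by
    have g1 : γ ^ 2 ≤ (4 * |o| + 3 * R0 * w) ^ 2 := by
      rw [← sq_abs]
      exact pow_le_pow_left₀ (abs_nonneg _) hγ 2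
    have g2 : (4 * |o| + 3 * R0 * w) ^ 2 ≤ 2 * ((4 * |o|) ^ 2 + (3 * R0 * w) ^ 2) := by
      nlinarith [sq_nonneg (4 * |o| - 3 * R0 * w)]
    have g3 : (4 * |o|) ^ 2 = 16 * o ^ 2 := by
      rw [mul_pow, sq_abs]
      norm_num
    have g4 : 32 * o ^ 2 ≤ 18 * R0 ^ 2 * o ^ 2 :=
      mul_le_mul_of_nonneg_right (by nlinarith) (sq_nonneg o)
    rw [hSw]
    nlinarith
  have h3 : δ ^ 2 + γ ^ 2 ≤ (4 + 18 * R0 ^ 2) * Sw := by
    have : 4 * w ^ 2 ≤ 4 * Sw := by rw [hSw]; nlinarith [sq_nonneg o]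
    linarith
  calc m2 * (δ ^ 2 + γ ^ 2) ≤ m2 * ((4 + 18 * R0 ^ 2) * Sw) :=
        mul_le_mul_of_nonneg_left h3 hm2.le
    _ = (4 + 18 * R0 ^ 2) * (m2 * Sw) := by ring
    _ ≤ (4 + 18 * R0 ^ 2) * (K * Lam * B) := mul_le_mul_of_nonneg_left h (by positivity)
    _ = (4 + 18 * R0 ^ 2) * K * (Lam * B) := by ring
    _ ≤ C * (Lam * B) := mul_le_mul_of_nonneg_right hC (by positivity)
    _ = _ := by ring

lemma num_X {C5 K m2 Sw Lam B X0 mm D0 D2 : ℝ} (hC5 : 0 < C5) (_hK : 0 < K) (hm2 : 0 < m2)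
    (hSw : 0 ≤ Sw) (hLam : 1 ≤ Lam) (hB : 0 ≤ B) (hBm : B ≤ m2) (h : m2 * Sw ≤ K * Lam * B)
    (hX0 : X0 ≤ B) (hmm : mm ≤ Lam * m2) (hD0 : D0 ≤ B) (hD2 : D2 ≤ 4 * B) :
    2 * X0 + C5 * Sw * (mm + D0 + D2) + C5 * D0 ≤ (2 + 6 * C5 * K + C5) * Lam ^ 2 * B := by
  have h1 : mm + D0 + D2 ≤ 6 * (Lam * m2) := by nlinarith
  have h2 : C5 * Sw * (mm + D0 + D2) ≤ 6 * C5 * K * Lam ^ 2 * B := by
    calc C5 * Sw * (mm + D0 + D2) ≤ C5 * Sw * (6 * (Lam * m2)) :=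
          mul_le_mul_of_nonneg_left h1 (by positivity)
      _ = 6 * C5 * Lam * (m2 * Sw) := by ring
      _ ≤ 6 * C5 * Lam * (K * Lam * B) := mul_le_mul_of_nonneg_left h (by positivity)
      _ = _ := by ring
  have h3 : B ≤ Lam ^ 2 * B := le_mul_of_one_le_left hB (one_le_pow₀ hLam)
  have h4 : C5 * D0 ≤ C5 * (Lam ^ 2 * B) := mul_le_mul_of_nonneg_left (by linarith) hC5.le
  nlinarith

lemma num_ep {C0 C1 C2 C3 C4 CX K η al Sw Lam B D m2 D0 D2 : ℝ} (hC0 : 0 < C0) (hC1 : 0 < C1)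
    (hC2 : 0 < C2) (hC3 : 0 < C3) (hC4 : 0 < C4) (hCX : 0 < CX) (hK : 0 < K)
    (hLam : 1 ≤ Lam) (hB : 0 ≤ B) (hη : η ≤ C0 * (B + Real.sqrt (Lam * m2 * D)))
    (hal : al * Sw ≤ K * Lam * B) (hD0 : D0 ≤ B) (hD2 : D2 ≤ 4 * B) :
    C3 * C4 * (C1 * (B + η) + al * Sw + C2 * (D0 + D2)) + 2 * (CX * Lam ^ 2 * B) ≤
      (C3 * C4 * (C1 * (1 + C0) + K + 5 * C2) + 2 * CX) * Lam ^ 2 *
        (B + Real.sqrt (m2 * D)) := by
  have h1 := sqrt_lam (m2 := m2) (D := D) hLam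
  have h0 := Real.sqrt_nonneg (m2 * D)
  have hL2 : Lam ≤ Lam ^ 2 := by nlinarith
  have hL3 : 1 ≤ Lam ^ 2 := one_le_pow₀ hLam
  set S := Real.sqrt (m2 * D) with hS
  set A := Lam ^ 2 * (B + S) with hA
  have a1 : B ≤ A := by
    rw [hA]
    nlinarith
  have a2 : Real.sqrt (Lam * m2 * D) ≤ Lam ^ 2 * S :=
    h1.trans (mul_le_mul_of_nonneg_right hL2 h0)
  have a3 : B + Real.sqrt (Lam * m2 * D) ≤ A := by
    rw [hA, mul_add]
    exact add_le_add (le_mul_of_one_le_left hB hL3) a2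
  have a4 : Lam * B ≤ A := by
    rw [hA]
    have := mul_le_mul_of_nonneg_right hL2 hB
    nlinarith
  have a5 : Lam ^ 2 * B ≤ A := by
    rw [hA]
    nlinarith
  have b1 : C1 * (B + η) ≤ C1 * (1 + C0) * A := by
    have := mul_le_mul_of_nonneg_left a3 hC0.le
    have h2 : B + η ≤ (1 + C0) * A := by linarith
    have := mul_le_mul_of_nonneg_left h2 hC1.le
    linarith
  have b2 : al * Sw ≤ K * A := by
    have := mul_le_mul_of_nonneg_left a4 hK.le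
    linarith
  have b3 : C2 * (D0 + D2) ≤ 5 * C2 * A := by
    have h2 : D0 + D2 ≤ 5 * A := by linarith
    have := mul_le_mul_of_nonneg_left h2 hC2.le
    linarith
  have b4 : C3 * C4 * (C1 * (B + η) + al * Sw + C2 * (D0 + D2)) ≤
      C3 * C4 * ((C1 * (1 + C0) + K + 5 * C2) * A) :=
    mul_le_mul_of_nonneg_left (by linarith) (by positivity)
  have b5 : 2 * (CX * Lam ^ 2 * B) ≤ 2 * CX * A := by
    have := mul_le_mul_of_nonneg_left a5 hCX.le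
    linarith
  have e1 : (C3 * C4 * (C1 * (1 + C0) + K + 5 * C2) + 2 * CX) * Lam ^ 2 * (B + S) =
      C3 * C4 * ((C1 * (1 + C0) + K + 5 * C2) * A) + 2 * CX * A := by
    rw [hA]
    ring
  rw [e1]
  linarith

/-- support of the test functions -/
lemma testF_supp {R0 : ℝ} (hR0 : 200 ≤ R0) {ν ν' : Sp d} (hν : ‖ν‖ = 1) (hν' : ‖ν'‖ = 1) {c' : ℝ}
    (hc' : |c'| ≤ R0 + 4) (hcl : ‖ν' - ν‖ ≤ 1 / 24) {ζ0 ζ1 : Sp d → ℝ}
    (h0 : Cyl ν' (3 / 2 * R0) ζ0) (h1 : Cyl ν' (3 / 2 * R0) ζ1) (y : Sp d)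
    (hy : cu1 1 (ht ν' c' y) * (ζ0 y + ht ν' c' y * ζ1 y) ≠ 0) :
    ‖y‖ ≤ 3 * R0 ∧ ‖tang ν y‖ ≤ 7 / 4 * R0 := by
  have h2 : ‖tang ν' y‖ ≤ 3 / 2 * R0 := by
    by_contra h
    refine right_ne_zero_of_mul hy ?_
    have e0 : ζ0 y = 0 := by
      by_contra h3
      exact h (h0.supp y h3)
    have e1 : ζ1 y = 0 := by
      by_contra h3
      exact h (h1.supp y h3)
    rw [e0, e1, mul_zero, add_zero]
  have h3 : |ht ν' c' y| ≤ 2 := by
    by_contra h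
    push Not at h
    exact left_ne_zero_of_mul hy (SAm.cu1_zero (by linarith))
  have h4 : |⟪ν', y⟫_ℝ| ≤ R0 + 6 := by
    have e1 : ⟪ν', y⟫_ℝ = ht ν' c' y + c' := by
      unfold ht
      ring
    rw [e1]
    exact (abs_add_le _ _).trans (by linarith)
  have h5 := SAm.norm_le_tang hν' y
  have h6 : ‖y‖ ≤ 3 * R0 := by linarith
  refine ⟨h6, ?_⟩
  have h7 := tang_close hν hν' y
  have h8 : 2 * ‖ν' - ν‖ * ‖y‖ ≤ 2 * (1 / 24) * (3 * R0) := by gcongr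
  linarith

lemma testF_plInt {ν : Sp d} (hν : ‖ν‖ = 1) (c : ℝ) (ζ0 ζ1 : Sp d → ℝ) :
    plInt ν c (fun y => cu1 1 (ht ν c y) * (ζ0 y + ht ν c y * ζ1 y)) = plInt ν c ζ0 := by
  refine SAm.plInt_congr hν fun y hy => ?_
  have : ht ν c y = 0 := by
    unfold ht
    rw [hy, sub_self]
  rw [this, SAm.cu1_one (by simp)]
  ring

lemma flat_mono {E : Type} [NormedAddCommGroup E] [InnerProductSpace ℝ E] {b : Sp d → ℝ}
    {ε R0 R κ κ' : ℝ} {f : Sp d → E} {n : ℕ} {e : E} {ν : Sp d} {c : ℝ} (hκ : κ ≤ κ')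
    (h : Flat b ε R0 R κ f n e ν c) : Flat b ε R0 R κ' f n e ν c :=
  ⟨h.1, h.2.1.trans (mul_le_mul_of_nonneg_right hκ h.1.le),
    h.2.2.trans (mul_le_mul_of_nonneg_right hκ (sq_nonneg _))⟩

end

end SAFm

open SAFm TU in
theorem stmtSAF (hNS : TrI.StmtNS) (hSHB : StmtSHB) (hSH2 : StmtSH2) (hJC : StmtJC)
    (hDV : StmtDV) (hZ : StmtZ) (hMA : StmtMA) (hTW : StmtTW) (hSC : StmtSC) (hSD : StmtSD) :
    StmtSAF := by
  intro d V E _ _ _ _ _ _ L hd hL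
  obtain ⟨n0, T, hn0, hNSP⟩ := hNS d V E L hL
  obtain ⟨JB, hmk'⟩ := mkSFr hSHB (stmtSAF2 hSH2 hJC) hJC hZ hMA hSC hSD d V E L n0 T hd hn0 hL
    hNSP
  obtain ⟨J', hfrm⟩ := SAm.frame (d := d) hDV hd JB
  refine ⟨max J' 2, ?_⟩
  intro M c0 ε hε hε1 b hb R0 hR0
  have hd0 : (0 : ℝ) ≤ d := by positivity
  have hR2 : 200 ≤ R0 := by linarith
  have hRp : 0 < R0 := by linarith
  obtain ⟨C0, κ1, hC0, hκ1, hmk⟩ := hmk' M c0 ε hε hε1 b hb R0 hR0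
  obtain ⟨C1, κ2, hC1, hκ2, hfr⟩ := hfrm R0 C0 (by linarith) hC0
  obtain ⟨C2, hC2, htr⟩ := transfer hTW hSC hd hε hε1 hb (R0 := R0) (by linarith)
  obtain ⟨C3, hC3, hrec⟩ := recenter hd hR0 J'
  obtain ⟨C4, hC4, htest⟩ := testF d (max J' 2)
  obtain ⟨C5, hC5, hblc⟩ := blc_new hZ hTW hSC hMA hd hε hε1 hb hR0
  obtain ⟨C6, hC6, hsh⟩ := SS.sheet_of_est hZ (by omega : 1 ≤ d) hε hε1 hb (R0 := R0)
    (by linarith)
  set CX : ℝ := 2 + 6 * C5 * C1 ^ 3 + C5 with hCX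
  have hCXp : 0 < CX := by positivity
  set CE : ℝ := C3 * C4 * (C1 * (1 + C0) + C1 ^ 2 + 5 * C2) + 2 * CX with hCE
  have hCEp : 0 < CE := by positivity
  set C : ℝ := (4 + 18 * R0 ^ 2) * C1 ^ 3 + C1 + C0 + CX + CE + C6 with hC
  have hCp1 : 0 < (4 + 18 * R0 ^ 2) * C1 ^ 3 := by positivity
  refine ⟨C, min (min κ1 κ2) (min 1 (1 / (C1 ^ 3 * (100 * R0 ^ 2)))), by positivity,
    by positivity, ?_⟩
  set κ : ℝ := min (min κ1 κ2) (min 1 (1 / (C1 ^ 3 * (100 * R0 ^ 2)))) with hκd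
  have hκ1' : κ ≤ κ1 := (min_le_left _ _).trans (min_le_left _ _)
  have hκ2' : κ ≤ κ2 := (min_le_left _ _).trans (min_le_right _ _)
  have hκ3 : κ ≤ 1 := (min_le_right _ _).trans (min_le_left _ _)
  have hκ4 : κ ≤ 1 / (C1 ^ 3 * (100 * R0 ^ 2)) := (min_le_right _ _).trans (min_le_right _ _)
  have hκ0 : 0 < κ := by positivity
  intro R hR n u hu x e hT ν c B D Lam m2 hν hc hFlat hm2 hLam hma hBκ hsum hDD
  have hm2p : 0 < m2 := by
    rw [hm2]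
    exact hFlat.1
  have hB0 : 0 ≤ B := by simpa using hsum 0
  have hBm : B ≤ m2 := by
    have h1 : B ≤ Lam ^ 2 * B := le_mul_of_one_le_left hB0 (one_le_pow₀ hLam)
    have h2 : κ * m2 ≤ 1 * m2 := mul_le_mul_of_nonneg_right hκ3 hm2p.le
    linarith
  have hma2 : m2 ≤ Lam * m2 := le_mul_of_one_le_left hm2p.le hLam
  have ha : 0 < Lam * m2 := by positivity
  obtain ⟨al, w0, η, hη, hSFr⟩ := hmk R hR n u hu x e hT ν c B D (Lam * m2) hν hc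
    (flat_mono hκ1' hFlat) ha (hBm.trans hma2) hma hsum (hDD 2 le_rfl)
  have haB : Lam * m2 * B ≤ κ2 * m2 ^ 2 := by
    have h1 : Lam * B ≤ Lam ^ 2 * B := by
      have : Lam ≤ Lam ^ 2 := by nlinarith
      exact mul_le_mul_of_nonneg_right this hB0
    have h2 := mul_le_mul_of_nonneg_left (h1.trans hBκ) hm2p.le
    have h3 : κ * m2 ^ 2 ≤ κ2 * m2 ^ 2 := mul_le_mul_of_nonneg_right hκ2' (sq_nonneg _)
    nlinarith
  obtain ⟨hal, o0, hwo, hform⟩ := hfr _ ν _ (Lam * m2) B η al w0 hSFr m2 hm2p hm2 hma2 haB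
  have halp : 0 < al := by
    by_contra h
    push Not at h
    have := mul_nonpos_of_nonneg_of_nonpos hC1.le h
    linarith
  obtain ⟨_, _, hx2⟩ := tower_le hT
  have hf := TU_fo_cont L hu
  have hfc := TU_fo_cs L hu
  have hs0 : (0 : ℝ) < (1 / 2) ^ n := by positivity
  have hterm := term_le (fun r => bD_nn b ε R0 R n (n + r) (fo L u) (x r) (hT.unit r) ν c) hsum
  have hbD0 := hterm 0
  have hbD2 := hterm 2
  rw [pow_zero, one_mul, add_zero, hT.zero] at hbD0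
  have e4 : (2 : ℝ) ^ 2 = 4 := by norm_num
  rw [e4] at hbD2
  have hD0 : DD b ε R ((1 / 2) ^ n) (fo L u) n 0 (e 0) ≤ B :=
    (DD_le_bD b ε R0 R n n (fo L u) 0 (e 0) ν c).trans hbD0
  have hD2 : DD b ε R ((1 / 2) ^ n) (fo L u) (n + 2) (x 2) (e 2) ≤ 4 * B :=
    (DD_le_bD b ε R0 R n (n + 2) (fo L u) (x 2) (e 2) ν c).trans hbD2
  have hX0 : ∫ y, ⟪fo L u y, e 0⟫_ℝ * (zR R0 y * ht ν c y ^ 2) ≤ B := by
    refine le_trans ?_ hbD0
    unfold bD bb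
    rw [lev_u]
    have h9 := DD_nonneg b ε R hs0 (fo L u) n 0 (hT.unit 0)
    simp only [one_pow, div_one, sub_zero, one_smul, one_mul]
    have h10 := le_max_right 0 (∫ y, ⟪fo L u y, e 0⟫_ℝ * (zR R0 y * ht ν c y ^ 2))
    linarith
  -- the new plane
  set w : Sp d := (1 / al) • w0 with hw
  set o : ℝ := o0 / al with ho
  have hSw : ‖w‖ ^ 2 + o ^ 2 = (‖w0‖ ^ 2 + o0 ^ 2) / al ^ 2 := by
    rw [hw, ho, norm_smul, Real.norm_of_nonneg (by positivity)]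
    field_simp
  have hSwb : ‖w‖ ^ 2 + o ^ 2 ≤ 1 / (100 * R0 ^ 2) := by
    rw [hSw]
    exact num_Sw hC1 halp hm2p hal hLam hB0 hwo hRp hκ4 hBκ
  obtain ⟨hal1, hal2⟩ := num_w hC1 halp hm2p hal hLam hB0 hwo
  rw [← hSw] at hal1 hal2
  obtain ⟨hw1, ho1, hw24, hcl⟩ := num_small hR2 (norm_nonneg w) hSwb
  have hνw : ⟪ν, w⟫_ℝ = 0 := by
    rw [hw, inner_smul_right, hSFr.wn, mul_zero]
  obtain ⟨q, hq⟩ : ∃ q, q = Real.sqrt (1 + ‖w‖ ^ 2) := ⟨_, rfl⟩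
  have hν' := nu_unit hν hνw hq
  have hνc := nu_close hν hw1 hq
  have hcc := c_close (o := o) hR0 hc hx2 hw1 hq
  have hc' : |(c + (4 * o - ⟪w, x 2⟫_ℝ)) / q| ≤ R0 + 4 := by
    have h1 := abs_add_le ((c + (4 * o - ⟪w, x 2⟫_ℝ)) / q - c) c
    rw [sub_add_cancel] at h1
    linarith
  have hb1 := hblc E R hR (fo L u) hf hfc n x e hT ν w c o q hν hνw hc hw1 ho1 hq hc'
  have hDD0 := DD_nonneg b ε R hs0 (fo L u) n 0 (hT.unit 0)
  have hDD2 := DD_nonneg b ε R hs0 (fo L u) (n + 2) (x 2) (hT.unit 2)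
  have hSw0 : 0 ≤ ‖w‖ ^ 2 + o ^ 2 := by positivity
  have hXb : blc ((1 / q) • (ν - w)) ((c + (4 * o - ⟪w, x 2⟫_ℝ)) / q)
      (fun y => ⟪fo L u y, e 0⟫_ℝ) R0 ≤ CX * Lam ^ 2 * B :=
    hb1.trans (num_X hC5 (by positivity) hm2p hSw0 hLam hB0 hBm hal2 hX0 hma hD0 hD2)
  have hX00 : 0 ≤ CX * Lam ^ 2 * B := by positivity
  -- the test estimate
  have hest := hrec (fun y => ⟪fo L u y, e 0⟫_ℝ) (fun y => ⟪rs (x 2) 4 (fo L u) y, e 2⟫_ℝ)
    (x 2) ν w c al o q (C1 * (B + η))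
    (C2 * (DD b ε R ((1 / 2) ^ n) (fo L u) n 0 (e 0) +
      DD b ε R ((1 / 2) ^ n) (fo L u) (n + 2) (x 2) (e 2))) hν hνw hc hx2 halp hw1 ho1 hq
    (mul_nonneg hC1.le (add_nonneg hB0 hSFr.eta0)) (by positivity)
    (fun ζ N hζ hs => by
      have h1 := htr E R hR (fo L u) hf hfc n x e hT ζ N hζ (fun y hy => by
        by_contra h
        have := hs y h
        linarith)
      refine h1.trans (le_of_eq (by ring)))
    (fun G N hG hs ht' => by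
      have h1 := hform G N hG hs ht'
      have e1 : al • w = w0 := by
        rw [hw, smul_smul, mul_one_div_cancel halp.ne', one_smul]
      have e2 : al * o = o0 := by
        rw [ho]
        field_simp
      rw [e1, e2]
      refine h1.trans (le_of_eq (by ring)))
  have hep0 : 0 ≤ C3 * C4 * (C1 * (B + η) + al * (‖w‖ ^ 2 + o ^ 2) +
      C2 * (DD b ε R ((1 / 2) ^ n) (fo L u) n 0 (e 0) +
        DD b ε R ((1 / 2) ^ n) (fo L u) (n + 2) (x 2) (e 2))) := by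
    have := hSFr.eta0
    positivity
  have hsheet := hsh E (fo L u) hf hfc R hR n (e 0) (hT.unit 0) (max J' 2) _ _ al _
    (CX * Lam ^ 2 * B) (le_max_right _ _) hν' hc' halp hep0 hX00 hXb (by
      intro ζ0 ζ1 N h0 h1 hC0' hC1'
      have hs := testF_supp hR2 hν hν' hc' (by linarith) hC0' hC1'
      have h2 := hest _ _ (htest _ _ hν' ζ0 ζ1 N h0 h1) (fun y hy => (hs y hy).1)
        (fun y hy => (hs y hy).2)
      rw [testF_plInt hν'] at h2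
      refine h2.trans (le_of_eq (by ring)))
  have hep := num_ep hC0 hC1 hC2 hC3 hC4 hCXp (by positivity : 0 < C1 ^ 2) hLam hB0 hη hal1 hD0
    hD2
  refine ⟨(1 / q) • (ν - w), (c + (4 * o - ⟪w, x 2⟫_ℝ)) / q, al, hν', ?_, ?_, ?_, ?_, ?_⟩
  · exact num_close hR2 hm2p (norm_nonneg w) rfl (norm_nonneg _) hνc hcc hal2 (by linarith) hB0
      (by linarith)
  · exact hal.trans (mul_le_mul_of_nonneg_right (by linarith) halp.le)
  · have h1 := (le_abs_self _).trans hSFr.al_le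
    have h2 : C0 * (Lam * m2) ≤ C * (Lam * m2) := mul_le_mul_of_nonneg_right (by linarith) ha.le
    linarith
  · refine max_le (by positivity) (hXb.trans ?_)
    exact mul_le_mul_of_nonneg_right (mul_le_mul_of_nonneg_right (by linarith) (by positivity)) hB0
  · refine FS_sheet_mono hsheet (hep.trans ?_) ?_
    · refine mul_le_mul_of_nonneg_right (mul_le_mul_of_nonneg_right ?_ (by positivity)) ?_
      · linarith
      · have := Real.sqrt_nonneg (m2 * D)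
        linarith
    · have h1 := hDD 0 (by norm_num)
      rw [add_zero, hT.zero] at h1
      exact mul_le_mul (by linarith) h1 hDD0 (by positivity)

end TG
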