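import Pool.Agent.TG.Stmts4

/-!
# Trace inequality, general operators: module SAF, statements of the pieces

No double quotes.  Unit scale.
-/

open MeasureTheory Metric Set TrI
open scoped InnerProductSpace ContDiff

namespace TG

noncomputable section

variable {d : ℕ}

/-- normal of the plane z = ⟨w,y⟩ + o over the plane with normal ν (w orthogonal to ν) -/
def nunew (ν w : Sp d) : Sp d := (1 / Real.sqrt (1 + ‖w‖ ^ 2)) • (ν - w)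

/-- its height: the plane is {⟨ν - w, y⟩ = c + o} -/
def cnew (w : Sp d) (c o : ℝ) : ℝ := (c + o) / Real.sqrt (1 + ‖w‖ ^ 2)

/-- SAF piece 1: the plane integral over a tilted plane, to first order -/
def StmtSAF1 : Prop :=
  ∀ (d : ℕ), 1 ≤ d → ∀ ρ : ℝ, ∃ C : ℝ, 0 < C ∧
    ∀ (ν w : Sp d) (c o : ℝ), ‖ν‖ = 1 → ⟪ν, w⟫_ℝ = 0 → ‖w‖ ≤ 1 → |o| ≤ 1 → |c| ≤ ρ →
    ∀ (F : Sp d → ℝ) (N : ℝ), TFn 2 N F → (∀ y, ρ ≤ ‖y‖ → F y = 0) →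
      |plInt (nunew ν w) (cnew w c o) F
        - plInt ν c (fun y => F y + (⟪w, y⟫_ℝ + o) * fderiv ℝ F y ν)| ≤
      C * N * (‖w‖ ^ 2 + o ^ 2)

/-- SAF piece 2: the jump at level 2 is constant up to B, in the frame of level 2 -/
def StmtSAF2 : Prop :=
  ∀ (d : ℕ) (V E : Type) [NormedAddCommGroup V] [InnerProductSpace ℝ V] [FiniteDimensional ℝ V]
    [NormedAddCommGroup E] [InnerProductSpace ℝ E] [FiniteDimensional ℝ E]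
    (L : (Sp d →L[ℝ] V) →L[ℝ] E) (n0 : ℕ)
    (T : (ContinuousMultilinearMap ℝ (fun _ : Fin n0 => Sp d) E) →L[ℝ]
      (ContinuousMultilinearMap ℝ (fun _ : Fin (n0 + 1) => Sp d) V)), 2 ≤ d → 1 ≤ n0 →
    NSProp L n0 T → ∀ (M c0 ε : ℝ), 0 < ε → ε ≤ 1 → ∀ (b : Sp d → ℝ), BaseKer 2 M c0 b →
    ∀ R0 : ℝ, 200 + 8 * d ≤ R0 → ∃ C : ℝ, 0 < C ∧
      ∀ (R : ℝ), 4 * R0 + 10 ≤ R → ∀ (n : ℕ) (u : Sp d → V), TF u →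
      ∀ (x : ℕ → Sp d) (e : ℕ → E), Tower x e →
      ∀ (ν : Sp d) (c B : ℝ), ‖ν‖ = 1 → |c| ≤ R0 + 3 →
        (∀ I : ℕ, ∑ r ∈ Finset.range I, (1 / 2 : ℝ) ^ r *
          bD b ε R0 R ((1 / 2) ^ n) (fo L u) (n + r) (x r) (e r) ν c ≤ B) →
        ∃ v0 : V, ∀ y : Sp d, ‖y‖ ≤ R0 →
          ‖JJ n0 ν (((c - ⟪ν, x 2⟫_ℝ) / 4) • ν) 1 (fun z => u (x 2 + (4 : ℝ) • z)) y - v0‖ ≤
            C * B

/-- SAF piece 3: from divergences to general functions -/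
def StmtSAF3 : Prop :=
  ∀ (d : ℕ), 2 ≤ d → ∀ J : ℕ, ∃ J' : ℕ, ∀ ρ : ℝ, 2 ≤ ρ → ∃ C : ℝ, 0 < C ∧
    ∀ (m : Sp d → ℝ), Continuous m → HasCompactSupport m →
    ∀ (ν w : Sp d) (c a η : ℝ), ‖ν‖ = 1 → |c| ≤ ρ → ⟪ν, w⟫_ℝ = 0 → 0 ≤ η →
      (∀ (ψ : Sp d → ℝ) (Y : Sp d → Sp d) (N : ℝ), TFn J N ψ → TFn J N Y → Cyl ν ρ ψ →
        Cyl ν ρ Y → (∀ y, ⟪ν, Y y⟫_ℝ = 0) →
        |(∫ y, m y * (cu1 4 (ht ν c y) * (ψ y - ht ν c y * dv Y y)))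
          - (a * plInt ν c ψ + plInt ν c (fun y => ⟪w, Y y⟫_ℝ))| ≤ N * η) →
      ∃ o : ℝ, ∀ (ζ0 ζ1 : Sp d → ℝ) (N : ℝ), TFn J' N ζ0 → TFn J' N ζ1 → Cyl ν ρ ζ0 →
        Cyl ν ρ ζ1 →
        |(∫ y, m y * (cu1 4 (ht ν c y) * (ζ0 y + ht ν c y * ζ1 y)))
          - plInt ν c (fun y => a * ζ0 y + (⟪w, y⟫_ℝ + o) * ζ1 y)| ≤ C * N * η

end

end TG
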