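import Pool.Agent.TG.SAFf
import Pool.Agent.TG.SA4
import Pool.Agent.TG.TQ

/-!
# Module SAF: the sheet data in the frame of level 2 (helper95)
-/

open MeasureTheory Metric Set TrI
open scoped InnerProductSpace ContDiff

namespace TG

namespace SAFm

noncomputable section

open TU

variable {d : ℕ}

/-! ## single terms of the sum -/

lemma bD_nn {E : Type} [NormedAddCommGroup E] [InnerProductSpace ℝ E] (b : Sp d → ℝ)
    (ε R0 R : ℝ) (n i : ℕ) (f : Sp d → E) (x : Sp d) {e : E} (he : ‖e‖ = 1) (ν : Sp d) (c : ℝ) :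
    0 ≤ bD b ε R0 R ((1 / 2) ^ n) f i x e ν c := by
  unfold bD
  exact add_nonneg (le_max_left _ _) (DD_nonneg b ε R (by positivity) f i x he)

lemma DD_le_bD {E : Type} [NormedAddCommGroup E] [InnerProductSpace ℝ E] (b : Sp d → ℝ)
    (ε R0 R : ℝ) (n i : ℕ) (f : Sp d → E) (x : Sp d) (e : E) (ν : Sp d) (c : ℝ) :
    DD b ε R ((1 / 2) ^ n) f i x e ≤ bD b ε R0 R ((1 / 2) ^ n) f i x e ν c := by
  unfold bD
  linarith [le_max_left 0 (bb R0 ((1 / 2) ^ n) f i x e ν c)]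

lemma term_le {β : ℕ → ℝ} (h0 : ∀ r, 0 ≤ β r) {B : ℝ}
    (h : ∀ I : ℕ, ∑ r ∈ Finset.range I, (1 / 2 : ℝ) ^ r * β r ≤ B) (r : ℕ) :
    β r ≤ 2 ^ r * B := by
  have h1 := h (r + 1)
  have h2 : (1 / 2 : ℝ) ^ r * β r ≤ ∑ r ∈ Finset.range (r + 1), (1 / 2 : ℝ) ^ r * β r :=
    Finset.single_le_sum (f := fun r => (1 / 2 : ℝ) ^ r * β r)
      (fun i _ => mul_nonneg (by positivity) (h0 i)) (Finset.mem_range.2 (by omega))
  have h3 := mul_le_mul_of_nonneg_left (h2.trans h1) (by positivity : (0 : ℝ) ≤ 2 ^ r)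
  have h4 : (2 : ℝ) ^ r * ((1 / 2) ^ r * β r) = β r := by
    rw [← mul_assoc, ← mul_pow]
    norm_num
  rwa [h4] at h3

section Fo

variable {V E : Type} [NormedAddCommGroup V] [InnerProductSpace ℝ V] [FiniteDimensional ℝ V]
  [NormedAddCommGroup E] [InnerProductSpace ℝ E] [FiniteDimensional ℝ E]

omit [FiniteDimensional ℝ V] [FiniteDimensional ℝ E] in
lemma TU_fo_cont (L : (Sp d →L[ℝ] V) →L[ℝ] E) {u : Sp d → V} (hu : TF u) :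
    Continuous (fo L u) := by
  unfold fo
  exact L.continuous.comp (hu.smooth.continuous_fderiv (by simp))

omit [FiniteDimensional ℝ V] [FiniteDimensional ℝ E] in
lemma TU_fo_cs (L : (Sp d →L[ℝ] V) →L[ℝ] E) {u : Sp d → V} (hu : TF u) :
    HasCompactSupport (fo L u) := by
  unfold fo
  exact (hu.supp.fderiv (𝕜 := ℝ)).comp_left (map_zero L)

end Fo

/-! ## the jump polynomial -/

section JJs

variable {V : Type} [NormedAddCommGroup V] [InnerProductSpace ℝ V] [FiniteDimensional ℝ V]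

lemma JJ_cont (hd : 1 ≤ d) (m : ℕ) (ν q : Sp d) {r : ℝ} (hr : 0 < r) {u : Sp d → V}
    (hu : ContDiff ℝ ∞ u) : Continuous (JJ m ν q r u) := by
  obtain ⟨h1, _, _⟩ := stmtTQ d V m u hd hu (q + (6 * r) • ν) r hr
  obtain ⟨h3, _, _⟩ := stmtTQ d V m u hd hu (q - (6 * r) • ν) r hr
  exact h1.continuous.sub h3.continuous

end JJs

/-- replacing the jump by its value -/
lemma jump_const (hd : 1 ≤ d) {R0 : ℝ} (hR0 : 100 ≤ R0) : ∃ P : ℝ, 0 < P ∧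
    ∀ (V : Type) [NormedAddCommGroup V] [InnerProductSpace ℝ V],
    ∀ (g : Sp d → V), Continuous g → ∀ (v0 : V) (β C : ℝ), 0 ≤ β → 0 ≤ C →
      (∀ y, ‖y‖ ≤ R0 → ‖g y - v0‖ ≤ β) →
    ∀ (l0 : V →L[ℝ] ℝ) (l1 : V →L[ℝ] Sp d), ‖l0‖ ≤ C → ‖l1‖ ≤ C →
    ∀ (ν : Sp d) (c : ℝ), ‖ν‖ = 1 → |c| ≤ R0 / 3 →
    ∀ (ψ : Sp d → ℝ) (Y : Sp d → Sp d) (N : ℝ), Continuous ψ → Continuous Y → (∀ y, |ψ y| ≤ N) →
      (∀ y, ‖Y y‖ ≤ N) → Cyl ν (R0 / 2) ψ → Cyl ν (R0 / 2) Y →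
      |plInt ν c (fun y => l0 (g y) * ψ y + ⟪l1 (g y), Y y⟫_ℝ) -
        (l0 v0 * plInt ν c ψ + plInt ν c (fun y => ⟪l1 v0, Y y⟫_ℝ))| ≤ P * (C * β * N) := by
  obtain ⟨P, hP, h⟩ := SAm.plInt_bound (d := d) hd (R0 / 2)
  refine ⟨2 * P, by positivity, ?_⟩
  intro V _ _ g hg v0 β C hβ hC hgv l0 l1 hl0 hl1 ν c hν hc ψ Y N hψ hY hψN hYN hψC hYC
  have hN : 0 ≤ N := (abs_nonneg _).trans (hψN 0)
  have s1 : ∀ y, l0 (g y) * ψ y + ⟪l1 (g y), Y y⟫_ℝ ≠ 0 → ‖tang ν y‖ ≤ R0 / 2 := by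
    intro y hy
    by_contra hh
    refine hy ?_
    have e1 : ψ y = 0 := by
      by_contra h2
      exact hh (hψC.supp y h2)
    have e2 : Y y = 0 := by
      by_contra h2
      exact hh (hYC.supp y h2)
    rw [e1, e2, mul_zero, inner_zero_right, add_zero]
  have s2 : ∀ y, l0 v0 * ψ y ≠ 0 → ‖tang ν y‖ ≤ R0 / 2 := fun y hy =>
    hψC.supp y (right_ne_zero_of_mul hy)
  have s3 : ∀ y, ⟪l1 v0, Y y⟫_ℝ ≠ 0 → ‖tang ν y‖ ≤ R0 / 2 := fun y hy =>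
    hYC.supp y (fun h2 => hy (by rw [h2, inner_zero_right]))
  have s4 : ∀ y, l0 v0 * ψ y + ⟪l1 v0, Y y⟫_ℝ ≠ 0 → ‖tang ν y‖ ≤ R0 / 2 := by
    intro y hy
    by_contra hh
    refine hy ?_
    have e1 : l0 v0 * ψ y = 0 := by
      by_contra h2
      exact hh (s2 y h2)
    have e2 : ⟪l1 v0, Y y⟫_ℝ = 0 := by
      by_contra h2
      exact hh (s3 y h2)
    rw [e1, e2, add_zero]
  have c1 : Continuous (fun y => l0 (g y) * ψ y + ⟪l1 (g y), Y y⟫_ℝ) := by fun_prop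
  have c2 : Continuous (fun y => l0 v0 * ψ y) := by fun_prop
  have c3 : Continuous (fun y => ⟪l1 v0, Y y⟫_ℝ) := by fun_prop
  have c4 : Continuous (fun y => l0 v0 * ψ y + ⟪l1 v0, Y y⟫_ℝ) := c2.add c3
  rw [← SAm.plInt_mul, ← SAm.plInt_add hν c2 c3 s2 s3, ← SAm.plInt_sub hν c1 c4 s1 s4]
  have hkey := h ν hν (fun y => l0 (g y) * ψ y + ⟪l1 (g y), Y y⟫_ℝ -
    (l0 v0 * ψ y + ⟪l1 v0, Y y⟫_ℝ)) c (2 * (C * β * N)) (by positivity) ?_ ?_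
  · refine hkey.trans (le_of_eq (by ring))
  · intro y hy
    by_cases hyR : ‖y‖ ≤ R0
    · have e1 : l0 (g y) * ψ y + ⟪l1 (g y), Y y⟫_ℝ - (l0 v0 * ψ y + ⟪l1 v0, Y y⟫_ℝ) =
          l0 (g y - v0) * ψ y + ⟪l1 (g y - v0), Y y⟫_ℝ := by
        rw [map_sub, map_sub, inner_sub_left]
        ring
      rw [e1]
      have k1 : |l0 (g y - v0)| ≤ C * β := by
        rw [← Real.norm_eq_abs]
        exact (l0.le_opNorm _).trans (mul_le_mul hl0 (hgv y hyR) (norm_nonneg _) hC)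
      have k2 : ‖l1 (g y - v0)‖ ≤ C * β :=
        (l1.le_opNorm _).trans (mul_le_mul hl1 (hgv y hyR) (norm_nonneg _) hC)
      have k3 : |l0 (g y - v0) * ψ y| ≤ C * β * N := by
        rw [abs_mul]
        exact mul_le_mul k1 (hψN y) (abs_nonneg _) (by positivity)
      have k4 : |⟪l1 (g y - v0), Y y⟫_ℝ| ≤ C * β * N :=
        (abs_real_inner_le_norm _ _).trans (mul_le_mul k2 (hYN y) (norm_nonneg _) (by positivity))
      refine (abs_add_le _ _).trans ?_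
      linarith
    · have h5 : ¬ ‖tang ν y‖ ≤ R0 / 2 := by
        intro h6
        have h7 := SAm.norm_le_tang hν y
        rw [hy] at h7
        exact hyR (by linarith)
      have e1 : l0 (g y) * ψ y + ⟪l1 (g y), Y y⟫_ℝ = 0 := by
        by_contra h6
        exact h5 (s1 y h6)
      have e2 : l0 v0 * ψ y + ⟪l1 v0, Y y⟫_ℝ = 0 := by
        by_contra h6
        exact h5 (s4 y h6)
      rw [e1, e2, sub_zero, abs_zero]
      positivity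
  · intro y _ hF
    by_contra h5
    have e1 : l0 (g y) * ψ y + ⟪l1 (g y), Y y⟫_ℝ = 0 := by
      by_contra h6
      exact h5 (s1 y h6)
    have e2 : l0 v0 * ψ y + ⟪l1 v0, Y y⟫_ℝ = 0 := by
      by_contra h6
      exact h5 (s4 y h6)
    exact hF (by rw [e1, e2, sub_zero])

lemma mul_le_eta {B a : ℝ} (hB : 0 ≤ B) (hBa : B ≤ a) : B ≤ Real.sqrt (a * B) := by
  refine Real.le_sqrt_of_sq_le ?_
  nlinarith

lemma sqrt_four {a B m D : ℝ} (hm : 0 ≤ m) (hma : m ≤ a) (hD0 : 0 ≤ D) (hD : D ≤ 4 * B) :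
    Real.sqrt (m * D) ≤ 2 * Real.sqrt (a * B) := by
  have h1 : m * D ≤ 4 * (a * B) := by nlinarith
  have h2 : Real.sqrt (4 * (a * B)) = 2 * Real.sqrt (a * B) := by
    rw [Real.sqrt_mul (by norm_num), show (4 : ℝ) = 2 ^ 2 by norm_num,
      Real.sqrt_sq (by norm_num)]
  rw [← h2]
  exact Real.sqrt_le_sqrt h1

lemma c2_le (hd : 2 ≤ d) {R0 : ℝ} (hR0 : 200 + 8 * d ≤ R0) {ν x2 : Sp d} {c : ℝ} (hν : ‖ν‖ = 1)
    (hc : |c| ≤ R0 + 3) (hx : ‖x2‖ ≤ 3 * Real.sqrt d) : |(c - ⟪ν, x2⟫_ℝ) / 4| ≤ R0 / 3 := by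
  have h1 := abs_real_inner_le_norm ν x2
  rw [hν, one_mul] at h1
  have h2 : Real.sqrt d ≤ ((d : ℝ) + 1) / 2 := by
    rw [Real.sqrt_le_left (by positivity)]
    nlinarith [sq_nonneg ((d : ℝ) - 1)]
  have h3 : |c - ⟪ν, x2⟫_ℝ| ≤ |c| + |⟪ν, x2⟫_ℝ| := abs_sub _ _
  rw [abs_div, abs_of_pos (by norm_num : (0 : ℝ) < 4)]
  have hd0 : (0 : ℝ) ≤ d := by positivity
  rw [div_le_iff₀ (by norm_num)]
  linarith

/-- the sheet data from the estimates, abstract form -/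
lemma assemble {JB : ℕ} {V : Type} [NormedAddCommGroup V] [InnerProductSpace ℝ V]
    {R0 CS C2 CJ CZ CM N1 P : ℝ} (hCS : 0 < CS) (hC2 : 0 < C2) (hCJ : 0 < CJ) (hCZ : 0 < CZ)
    (hCM : 0 < CM) (hN1 : 0 < N1) (hP : 0 < P) {m : Sp d → ℝ} {g : Sp d → V} {ν : Sp d}
    {c2 B D a bD2 D2 m2 : ℝ} {v0 : V} (hmc : Continuous m) (hν : ‖ν‖ = 1) (hc2 : |c2| ≤ R0 / 3)
    (ha : 0 < a) (hB0 : 0 ≤ B) (hBa : B ≤ a) (hma : m2 ≤ a) (hma0 : 0 ≤ m2) (hDD0 : 0 ≤ D2)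
    (hDD : D2 ≤ D) (hDD4 : D2 ≤ 4 * B) (hbD0 : 0 ≤ bD2) (hbD2 : bD2 ≤ 4 * B)
    (hzz : ∀ (H : Sp d → ℝ) (N : ℝ), TFn 2 N H → (∀ y, 0 ≤ H y) →
      (∀ y, R0 + 1 ≤ ‖y‖ → H y = 0) → -(CZ * N * D2) ≤ ∫ y, m y * H y)
    (hmm : |∫ y, m y * zR (R0 - 2) y| ≤ CM * N1 * (m2 + D2))
    (hbb : ∫ y, m y * (zR R0 y * ht ν c2 y ^ 2) ≤ bD2)
    (hv0' : ‖g 0 - v0‖ ≤ C2 * B) (hJ0 : ‖g 0‖ ≤ CJ * (m2 + D2))
    (l0 : V →L[ℝ] ℝ) (l1 : V →L[ℝ] Sp d) (hl0 : ‖l0‖ ≤ CS) (_hl1 : ‖l1‖ ≤ CS)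
    (hl1ν : ⟪ν, l1 v0⟫_ℝ = 0)
    (hmain : ∀ (ψ : Sp d → ℝ) (Y : Sp d → Sp d) (N : ℝ), TFn JB N ψ → TFn JB N Y →
      Cyl ν (R0 / 2) ψ → Cyl ν (R0 / 2) Y → (∀ y, ⟪ν, Y y⟫_ℝ = 0) →
      |(∫ y, m y * (cu1 4 (ht ν c2 y) * (ψ y - ht ν c2 y * dv Y y)))
        - plInt ν c2 (fun y => l0 (g y) * ψ y + ⟪l1 (g y), Y y⟫_ℝ)| ≤
        CS * N * (bD2 + Real.sqrt (m2 * D2)))
    (hj : ∀ (ψ : Sp d → ℝ) (Y : Sp d → Sp d) (N : ℝ), Continuous ψ → Continuous Y →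
      (∀ y, |ψ y| ≤ N) → (∀ y, ‖Y y‖ ≤ N) → Cyl ν (R0 / 2) ψ → Cyl ν (R0 / 2) Y →
      |plInt ν c2 (fun y => l0 (g y) * ψ y + ⟪l1 (g y), Y y⟫_ℝ) -
        (l0 v0 * plInt ν c2 ψ + plInt ν c2 (fun y => ⟪l1 v0, Y y⟫_ℝ))| ≤
          P * (CS * (C2 * B) * N)) :
    ∃ (al : ℝ) (w : Sp d) (η : ℝ),
      η ≤ (7 + 4 * CZ + 5 * (CM * N1) + CS * (C2 + 5 * CJ) + (CS + P * CS * C2)) *
        (B + Real.sqrt (a * D)) ∧
      SAm.SFr JB (7 + 4 * CZ + 5 * (CM * N1) + CS * (C2 + 5 * CJ) + (CS + P * CS * C2)) R0 m ν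
        c2 a B η al w := by
  have hB1 : B ≤ Real.sqrt (a * B) := mul_le_eta hB0 hBa
  have hs4 : Real.sqrt (m2 * D2) ≤ 2 * Real.sqrt (a * B) := sqrt_four hma0 hma hDD0 hDD4
  have hs5 : Real.sqrt (m2 * D2) ≤ Real.sqrt (a * D) :=
    Real.sqrt_le_sqrt (mul_le_mul hma hDD hDD0 ha.le)
  have hs0 := Real.sqrt_nonneg (m2 * D2)
  have hs1 := Real.sqrt_nonneg (a * D)
  have hs2 := Real.sqrt_nonneg (a * B)
  have p1 : 0 < 4 * CZ := by positivity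
  have p2 : 0 < 5 * (CM * N1) := by positivity
  have p3 : 0 < CS * (C2 + 5 * CJ) := by positivity
  have p4 : 0 < CS + P * CS * C2 := by positivity
  refine ⟨l0 v0, l1 v0, bD2 + Real.sqrt (m2 * D2) + B, ?_, hmc, hν, hc2, ha, hB0, hBa,
    by positivity, ?_, ?_, ?_, ?_, hl1ν, ?_, ?_⟩
  · have : 0 ≤ B + Real.sqrt (a * D) := by positivity
    nlinarith
  · nlinarith
  · intro H N hH hH0 hHs
    have k1 := hzz H N hH hH0 hHs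
    have hN := TFn_nonneg hH
    have k2 : CZ * N * D2 ≤ 4 * CZ * N * B := by
      have := mul_le_mul_of_nonneg_left hDD4 (by positivity : 0 ≤ CZ * N)
      linarith
    have k3 : 0 ≤ N * B := by positivity
    refine le_trans ?_ k1
    have k4 : 4 * CZ * (N * B) ≤
        (7 + 4 * CZ + 5 * (CM * N1) + CS * (C2 + 5 * CJ) + (CS + P * CS * C2)) * (N * B) :=
      mul_le_mul_of_nonneg_right (by linarith) k3
    linarith
  · have k1 := (le_abs_self _).trans hmm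
    have k2 : CM * N1 * (m2 + D2) ≤ CM * N1 * (5 * a) :=
      mul_le_mul_of_nonneg_left (by linarith) (by positivity)
    have k3 : 5 * (CM * N1) * a ≤
        (7 + 4 * CZ + 5 * (CM * N1) + CS * (C2 + 5 * CJ) + (CS + P * CS * C2)) * a :=
      mul_le_mul_of_nonneg_right (by linarith) ha.le
    linarith
  · have k3 : 4 * B ≤
        (7 + 4 * CZ + 5 * (CM * N1) + CS * (C2 + 5 * CJ) + (CS + P * CS * C2)) * B :=
      mul_le_mul_of_nonneg_right (by linarith) hB0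
    linarith
  · have k1 : ‖v0‖ ≤ (C2 + 5 * CJ) * a := by
      have k2 : ‖v0‖ ≤ ‖g 0 - v0‖ + ‖g 0‖ := by
        have := norm_sub_le (g 0) (g 0 - v0)
        rw [sub_sub_cancel] at this
        linarith
      have k3 : CJ * (m2 + D2) ≤ CJ * (5 * a) := mul_le_mul_of_nonneg_left (by linarith) hCJ.le
      have k4 : C2 * B ≤ C2 * a := mul_le_mul_of_nonneg_left hBa hC2.le
      linarith
    have k5 : |l0 v0| ≤ CS * ((C2 + 5 * CJ) * a) := by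
      rw [← Real.norm_eq_abs]
      exact (l0.le_opNorm _).trans (mul_le_mul hl0 k1 (norm_nonneg _) hCS.le)
    have k3 : CS * (C2 + 5 * CJ) * a ≤
        (7 + 4 * CZ + 5 * (CM * N1) + CS * (C2 + 5 * CJ) + (CS + P * CS * C2)) * a :=
      mul_le_mul_of_nonneg_right (by linarith) ha.le
    linarith
  · intro ψ Y N hψ hY hψC hYC hYν
    have hN := TFn_nonneg hψ
    have k1 := hmain ψ Y N hψ hY hψC hYC hYν
    have k2 := hj ψ Y N hψ.smooth.continuous hY.smooth.continuous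
      (fun y => by have := TFn_norm hψ y; rwa [Real.norm_eq_abs] at this) (TFn_norm hY) hψC hYC
    have k3 := abs_sub_le (∫ y, m y * (cu1 4 (ht ν c2 y) *
      (ψ y - ht ν c2 y * dv Y y)))
      (plInt ν c2 (fun y => l0 (g y) * ψ y + ⟪l1 (g y), Y y⟫_ℝ))
      (l0 v0 * plInt ν c2 ψ +
        plInt ν c2 (fun y => ⟪l1 v0, Y y⟫_ℝ))
    refine k3.trans ((add_le_add k1 k2).trans ?_)
    have k4 : CS * N * (bD2 + Real.sqrt (m2 * D2)) ≤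
        CS * N * (bD2 + Real.sqrt (m2 * D2) + B) :=
      mul_le_mul_of_nonneg_left (by linarith) (by positivity)
    have k5 : P * (CS * (C2 * B) * N) ≤
        P * CS * C2 * N * (bD2 + Real.sqrt (m2 * D2) + B) := by
      have := mul_le_mul_of_nonneg_left (show B ≤ bD2 + Real.sqrt (m2 * D2) + B by linarith)
        (by positivity : 0 ≤ P * CS * C2 * N)
      linarith
    have k6 : (CS + P * CS * C2) * (N * (bD2 + Real.sqrt (m2 * D2) + B)) ≤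
        (7 + 4 * CZ + 5 * (CM * N1) + CS * (C2 + 5 * CJ) + (CS + P * CS * C2)) *
          (N * (bD2 + Real.sqrt (m2 * D2) + B)) :=
      mul_le_mul_of_nonneg_right (by linarith) (by positivity)
    linarith

theorem mkSFr (hSHB : StmtSHB) (hS2 : StmtSAF2) (hJC : StmtJC) (hZ : StmtZ) (hMA : StmtMA)
    (hSC : StmtSC) (hSD : StmtSD) (d : ℕ) (V E : Type) [NormedAddCommGroup V]
    [InnerProductSpace ℝ V] [FiniteDimensional ℝ V] [NormedAddCommGroup E]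
    [InnerProductSpace ℝ E] [FiniteDimensional ℝ E] (L : (Sp d →L[ℝ] V) →L[ℝ] E) (n0 : ℕ)
    (T : (ContinuousMultilinearMap ℝ (fun _ : Fin n0 => Sp d) E) →L[ℝ]
      (ContinuousMultilinearMap ℝ (fun _ : Fin (n0 + 1) => Sp d) V)) (hd : 2 ≤ d)
    (hn0 : 1 ≤ n0) (hL : CEll L) (hNS : NSProp L n0 T) : ∃ JB : ℕ,
    ∀ (M c0 ε : ℝ), 0 < ε → ε ≤ 1 → ∀ (b : Sp d → ℝ), BaseKer 2 M c0 b →
    ∀ R0 : ℝ, 200 + 8 * d ≤ R0 → ∃ (C0 κ : ℝ), 0 < C0 ∧ 0 < κ ∧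
      ∀ (R : ℝ), 4 * R0 + 10 ≤ R → ∀ (n : ℕ) (u : Sp d → V), TF u →
      ∀ (x : ℕ → Sp d) (e : ℕ → E), Tower x e →
      ∀ (ν : Sp d) (c B D a : ℝ), ‖ν‖ = 1 → |c| ≤ R0 + 3 →
        Flat b ε R0 R κ (rs (x 2) 4 (fo L u)) (n + 2) (e 2) ν ((c - ⟪ν, x 2⟫_ℝ) / 4) →
        0 < a → B ≤ a → ma b ε R0 ((1 / 2) ^ n) (fo L u) (n + 2) (x 2) ≤ a →
        (∀ I : ℕ, ∑ r ∈ Finset.range I, (1 / 2 : ℝ) ^ r *
          bD b ε R0 R ((1 / 2) ^ n) (fo L u) (n + r) (x r) (e r) ν c ≤ B) →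
        DD b ε R ((1 / 2) ^ n) (fo L u) (n + 2) (x 2) (e 2) ≤ D →
        ∃ (al : ℝ) (w : Sp d) (η : ℝ), η ≤ C0 * (B + Real.sqrt (a * D)) ∧
          SAm.SFr JB C0 R0 (fun y => ⟪rs (x 2) 4 (fo L u) y, e 2⟫_ℝ) ν
            ((c - ⟪ν, x 2⟫_ℝ) / 4) a B η al w := by
  have hd1 : 1 ≤ d := by omega
  obtain ⟨JB, hSHB'⟩ := hSHB d V E L n0 T hd hn0 hL hNS
  refine ⟨JB, ?_⟩
  intro M c0 ε hε hε1 b hb R0 hR0
  have hd0 : (0 : ℝ) ≤ d := by positivity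
  have hR01 : 100 ≤ R0 := by linarith
  obtain ⟨CS, κ, hCS, hκ, hS⟩ := hSHB' M c0 ε hε hε1 b hb R0 hR01
  obtain ⟨C2, hC2, h2⟩ := hS2 d V E L n0 T hd hn0 hNS M c0 ε hε hε1 b hb R0 hR0
  obtain ⟨CJ, hCJ, hJ⟩ := hJC d V E L n0 T hd1 hn0 hNS M c0 ε hε hε1 b hb R0 hR01
  obtain ⟨CZ, hCZ, hz⟩ := Z' hZ hd1 hε hε1 hb
  obtain ⟨CM, hCM, hm⟩ := mass_unit hMA hd1 hε hε1 hb
  obtain ⟨P, hP, hjc⟩ := jump_const (d := d) hd1 hR01
  obtain ⟨N1, hN1, hz1⟩ := TFn_of_cs (J := 2) (ζ := (zR (R0 - 2) : Sp d → ℝ))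
    (SAm.zR_contDiff (by linarith) 2) (zR_cs _)
  refine ⟨7 + 4 * CZ + 5 * (CM * N1) + CS * (C2 + 5 * CJ) + (CS + P * CS * C2), κ, by positivity,
    hκ, ?_⟩
  intro R hR n u hu x e hT ν c B D a hν hc hFlat ha hBa hma hsum hDD
  obtain ⟨hx1, hx12, hx2⟩ := tower_le hT
  have hf := TU_fo_cont L hu
  have hfc := TU_fo_cs L hu
  have he2 := hT.unit 2
  have e4 : (2 : ℝ) ^ 2 = 4 := by norm_num
  obtain ⟨hTF2, hfo2⟩ := (hSC d hd 1 one_pos (x 2) 4 (by norm_num)).2.2 V E L u hu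
  have hc2 : |(c - ⟪ν, x 2⟫_ℝ) / 4| ≤ R0 / 3 := c2_le hd hR0 hν hc hx2
  -- functionals in the frame
  have hmaf := ma_fr hSC hd hε hε1 hb hf hfc n 2 (x 2) R0 (n + 2) 0
  have hDDf := DD_fr hSC hd hε hε1 hb hf hfc n 2 (x 2) R (n + 2) 0 (e 2)
  have hbDf := bD_fr hSC hSD hd hε hε1 hb hf hfc n 2 (x 2) R0 R (e 2) ν c
  rw [smul_zero, add_zero, e4] at hmaf hDDf
  rw [e4] at hbDf
  have hB0 : 0 ≤ B := by simpa using hsum 0
  have hterm := term_le (fun r => bD_nn b ε R0 R n (n + r) (fo L u) (x r) (hT.unit r) ν c) hsum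
  have hbD2 := hterm 2
  rw [e4] at hbD2
  have hDD4 : DD b ε R ((1 / 2) ^ n) (fo L u) (n + 2) (x 2) (e 2) ≤ 4 * B :=
    (DD_le_bD b ε R0 R n (n + 2) (fo L u) (x 2) (e 2) ν c).trans hbD2
  have hDD0 := DD_nonneg b ε R (by positivity : (0 : ℝ) < (1 / 2) ^ n) (fo L u) (n + 2) (x 2) he2
  have hma0 := ma_nonneg b ε R0 (by positivity : (0 : ℝ) < (1 / 2) ^ n) (fo L u) (n + 2) (x 2)
  have hbD0 := bD_nn b ε R0 R n (n + 2) (fo L u) (x 2) he2 ν c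
  obtain ⟨v0, hv0⟩ := h2 R hR n u hu x e hT ν c B hν hc hsum
  have hFlat2 : Flat b ε R0 R κ (fo L (fun y => u (x 2 + (4 : ℝ) • y))) (n + 2) (e 2) ν
      ((c - ⟪ν, x 2⟫_ℝ) / 4) := by
    rw [hfo2]
    exact hFlat
  obtain ⟨l0, l1, hl0, hl1, hl1ν, hmain, _⟩ := hS R (by linarith) (n + 2)
    (fun y => u (x 2 + (4 : ℝ) • y)) hTF2 (e 2) he2 ν _ hν hc2 hFlat2 _ rfl
  have hq : ‖((c - ⟪ν, x 2⟫_ℝ) / 4) • ν‖ ≤ R0 / 2 := by
    rw [norm_smul, hν, mul_one, Real.norm_eq_abs]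
    linarith
  have hJ0 := (hJ R (by linarith) (n + 2) (fun y => u (x 2 + (4 : ℝ) • y)) hTF2 (e 2) he2 ν
    (((c - ⟪ν, x 2⟫_ℝ) / 4) • ν) (((c - ⟪ν, x 2⟫_ℝ) / 4) • ν) hν rfl hq hq 0
    (by rw [norm_zero]; linarith)).1
  rw [hfo2] at hmain hJ0
  rw [hmaf, hDDf, hbDf] at hmain
  rw [hmaf, hDDf] at hJ0
  have hJc : Continuous (JJ n0 ν (((c - ⟪ν, x 2⟫_ℝ) / 4) • ν) 1
      (fun y => u (x 2 + (4 : ℝ) • y))) := JJ_cont hd1 n0 ν _ one_pos hTF2.smooth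
  have hv0' := hv0 0 (by rw [norm_zero]; linarith)
  have hj := hjc V _ hJc v0 (C2 * B) CS (by positivity) hCS.le hv0 l0 l1 hl0 hl1 ν _ hν hc2
  have hzz := hz E (rs (x 2) 4 (fo L u)) (rs_cont hf _ _) (rs_cs hfc _ (by norm_num)) R
    (by linarith) (n + 2) (e 2) he2 0
  have hmm := hm E R0 R (by linarith) (by linarith) (rs (x 2) 4 (fo L u)) (rs_cont hf _ _)
    (rs_cs hfc _ (by norm_num)) (n + 2) (e 2) he2 (zR (R0 - 2)) N1 hz1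
    (fun y hy => zR_zero (by linarith))
  have hbb : ∫ y, ⟪rs (x 2) 4 (fo L u) y, e 2⟫_ℝ *
      (zR R0 y * ht ν ((c - ⟪ν, x 2⟫_ℝ) / 4) y ^ 2) ≤
      bD b ε R0 R ((1 / 2) ^ n) (fo L u) (n + 2) (x 2) (e 2) ν c := by
    rw [← hbDf]
    unfold bD bb
    rw [lev_u]
    have h9 := DD_nonneg b ε R (by positivity : (0 : ℝ) < (1 / 2) ^ (n + 2))
      (rs (x 2) 4 (fo L u)) (n + 2) 0 he2
    simp only [one_pow, div_one, sub_zero, one_smul, one_mul]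
    have h10 := le_max_right 0 (∫ y, ⟪rs (x 2) 4 (fo L u) y, e 2⟫_ℝ *
      (zR R0 y * ht ν ((c - ⟪ν, x 2⟫_ℝ) / 4) y ^ 2))
    linarith
  rw [hDDf] at hzz
  rw [hmaf, hDDf] at hmm
  have hmc : Continuous (fun y => ⟪rs (x 2) 4 (fo L u) y, e 2⟫_ℝ) :=
    (rs_cont hf _ _).inner continuous_const
  have hzz' : ∀ (H : Sp d → ℝ) (N : ℝ), TFn 2 N H → (∀ y, 0 ≤ H y) →
      (∀ y, R0 + 1 ≤ ‖y‖ → H y = 0) →
        -(CZ * N * DD b ε R ((1 / 2) ^ n) (fo L u) (n + 2) (x 2) (e 2)) ≤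
          ∫ y, ⟪rs (x 2) 4 (fo L u) y, e 2⟫_ℝ * H y :=
    fun H N hH hH0 hHs => hzz H N hH hH0 (fun y hy => hHs y (by rw [sub_zero] at hy; linarith))
  exact assemble hCS hC2 hCJ hCZ hCM hN1 hP hmc hν hc2 ha hB0 hBa hma hma0 hDD0 hDD hDD4 hbD0
    hbD2 hzz' hmm hbb hv0' hJ0 l0 l1 hl0 hl1 (hl1ν v0) hmain hj

end

end SAFm

end TG
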