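import Pool.Agent.TG.SAFg
import Pool.Agent.TG.SA7

/-!
# Module SAF: recentring (helper95)
-/

open MeasureTheory Metric Set TrI
open scoped InnerProductSpace ContDiff

namespace TG

namespace SAFm

noncomputable section

open TU

variable {d : ℕ}

lemma plane_change {ν w x2 : Sp d} {c o q : ℝ} (hq : q ≠ 0) :
    ((c + (4 * o - ⟪w, x2⟫_ℝ)) / q - ⟪(1 / q) • (ν - w), x2⟫_ℝ) / 4 =
      ((c - ⟪ν, x2⟫_ℝ) / 4 + o) / q := by
  rw [real_inner_smul_left, inner_sub_left]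
  field_simp
  ring

lemma num_rec {X0 X1 A Bq Q PP K C N E Δ al S : ℝ} (hPP : 0 < PP) (hK : 0 ≤ K) (hC : 0 < C)
    (hN : 0 ≤ N) (hE : 0 ≤ E) (hΔ : 0 ≤ Δ) (hal : 0 < al) (hS : 0 ≤ S)
    (k1 : |X0 - PP * X1| ≤ N * Δ) (k2 : |X1 - (al * A + al * Bq)| ≤ K * N * E)
    (k3 : |A + Bq - Q| ≤ C * (K * N) * S) :
    |X0 - al * (PP * Q)| ≤ (1 + PP * K * (1 + C)) * N * (E + al * S + Δ) := by
  have h1 : X0 - al * (PP * Q) = (X0 - PP * X1) + PP * (X1 - (al * A + al * Bq)) +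
      PP * al * (A + Bq - Q) := by ring
  have h2 : |PP * (X1 - (al * A + al * Bq))| ≤ PP * (K * N * E) := by
    rw [abs_mul, abs_of_pos hPP]
    exact mul_le_mul_of_nonneg_left k2 hPP.le
  have h3 : |PP * al * (A + Bq - Q)| ≤ PP * al * (C * (K * N) * S) := by
    rw [abs_mul, abs_of_pos (mul_pos hPP hal)]
    exact mul_le_mul_of_nonneg_left k3 (by positivity)
  rw [h1]
  refine (abs_add_three _ _ _).trans ?_
  have g1 : 0 ≤ N * (E + al * S) := by positivity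
  have g2 : 0 ≤ PP * K * N * (al * S + Δ) := by positivity
  have g3 : 0 ≤ PP * K * C * N * (E + Δ) := by positivity
  nlinarith

/-- recentring: from the first order formula in the frame of level 2 to the tilted plane in the
base frame -/
theorem recenter (hd : 2 ≤ d) {R0 : ℝ} (hR0 : 200 + 8 * d ≤ R0) (J' : ℕ) : ∃ C : ℝ, 0 < C ∧
    ∀ (m0 m : Sp d → ℝ) (x2 ν w : Sp d) (c al o q E Δ : ℝ), ‖ν‖ = 1 → ⟪ν, w⟫_ℝ = 0 →
      |c| ≤ R0 + 3 → ‖x2‖ ≤ 3 * Real.sqrt d → 0 < al → ‖w‖ ≤ 1 → |o| ≤ 1 →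
      q = Real.sqrt (1 + ‖w‖ ^ 2) → 0 ≤ E → 0 ≤ Δ →
      (∀ (ζ : Sp d → ℝ) (N : ℝ), TFn 2 N ζ → (∀ y, ζ y ≠ 0 → ‖y‖ ≤ 3 * R0) →
        |(∫ y, m0 y * ζ y) - 4 ^ (d - 1) * ∫ y, m y * ζ (x2 + (4 : ℝ) • y)| ≤ N * Δ) →
      (∀ (G : Sp d → ℝ) (N : ℝ), TFn J' N G → (∀ y, G y ≠ 0 → ‖y‖ ≤ R0 - 2) →
        (∀ y, G y ≠ 0 → ‖tang ν y‖ ≤ R0 / 2) →
        |(∫ y, m y * G y) - (al * plInt ν ((c - ⟪ν, x2⟫_ℝ) / 4) G +
          plInt ν ((c - ⟪ν, x2⟫_ℝ) / 4)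
            (fun y => (⟪al • w, y⟫_ℝ + al * o) * fderiv ℝ G y ν))| ≤ N * E) →
      ∀ (F : Sp d → ℝ) (N : ℝ), TFn (max J' 2) N F → (∀ y, F y ≠ 0 → ‖y‖ ≤ 3 * R0) →
        (∀ y, F y ≠ 0 → ‖tang ν y‖ ≤ 7 / 4 * R0) →
        |(∫ y, m0 y * F y) - al * plInt ((1 / q) • (ν - w)) ((c + (4 * o - ⟪w, x2⟫_ℝ)) / q) F| ≤
          C * N * (E + al * (‖w‖ ^ 2 + o ^ 2) + Δ) := by
  have hd0 : (0 : ℝ) ≤ d := by positivity
  have hsd : Real.sqrt d ≤ ((d : ℝ) + 1) / 2 := by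
    rw [Real.sqrt_le_left (by positivity)]
    nlinarith [sq_nonneg ((d : ℝ) - 1)]
  obtain ⟨C, hC, hrot⟩ := SAm.rot_cmp (d := d) (by omega) R0 (by linarith)
  set K : ℝ := 4 ^ (max J' 2) with hK
  have hK1 : 1 ≤ K := one_le_pow₀ (by norm_num)
  have hP : (0 : ℝ) < 4 ^ (d - 1) := by positivity
  refine ⟨1 + 4 ^ (d - 1) * K * (1 + C), by positivity, ?_⟩
  intro m0 m x2 ν w c al o q E Δ hν hw hc hx2 hal hw1 ho1 hq hE hΔ htr hfr F N hF hFs hFt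
  have hN := TFn_nonneg hF
  set G : Sp d → ℝ := fun y => F (x2 + (4 : ℝ) • y) with hG
  have hGT : TFn (max J' 2) (K * N) G := by
    have := TFn_aff hF x2 (show (4 : ℝ) ≠ 0 by norm_num)
    refine TFn_mono this le_rfl (le_of_eq ?_)
    rw [hK]
    norm_num
  have hns : ∀ y : Sp d, 4 * ‖y‖ ≤ ‖x2 + (4 : ℝ) • y‖ + ‖x2‖ := by
    intro y
    have h1 := norm_sub_le (x2 + (4 : ℝ) • y) x2
    rw [add_sub_cancel_left, norm_smul] at h1
    norm_num at h1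
    exact h1
  have hGs : ∀ y, G y ≠ 0 → ‖y‖ ≤ R0 - 2 := by
    intro y hy
    have h1 := hFs _ hy
    have h2 := hns y
    linarith
  have hGt : ∀ y, G y ≠ 0 → ‖tang ν y‖ ≤ R0 / 2 := by
    intro y hy
    have h1 := hFt _ hy
    have e1 : tang ν (x2 + (4 : ℝ) • y) = tang ν x2 + (4 : ℝ) • tang ν y := by
      rw [SAm.tang_add, SAm.tang_smul]
    rw [e1] at h1
    have h2 := norm_sub_le (tang ν x2 + (4 : ℝ) • tang ν y) (tang ν x2)
    rw [add_sub_cancel_left, norm_smul] at h2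
    norm_num at h2
    have h3 : ‖tang ν x2‖ ≤ ‖x2‖ := SS.norm_tang_le hν x2
    linarith
  have hc2 : |(c - ⟪ν, x2⟫_ℝ) / 4| ≤ R0 / 3 := c2_le hd hR0 hν hc hx2
  set c2 : ℝ := (c - ⟪ν, x2⟫_ℝ) / 4 with hc2d
  have hq0 : q ≠ 0 := by
    have := SAm.one_le_q ‖w‖
    rw [← hq] at this
    positivity
  have k1 := htr F N (TFn_mono hF (le_max_right _ _) le_rfl) hFs
  have k2 := hfr G (K * N) (TFn_mono hGT (le_max_left _ _) le_rfl) hGs hGt
  have k3 := hrot ν w c2 o q hν hw hw1 ho1 (by linarith) hq G (K * N)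
    (TFn_mono hGT (le_max_right _ _) le_rfl) (fun y hy => by
      by_contra h
      linarith [hGs y h])
  -- splitting
  have hG1 : ContDiff ℝ 1 G := hGT.smooth.of_le (by
    have : 1 ≤ max J' 2 := by omega
    exact_mod_cast this)
  have hGd : Continuous (fun y => fderiv ℝ G y ν) :=
    (hG1.continuous_fderiv one_ne_zero).clm_apply continuous_const
  have hGdt : ∀ y, fderiv ℝ G y ν ≠ 0 → ‖tang ν y‖ ≤ R0 / 2 := by
    intro y hy
    by_contra h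
    push Not at h
    exact hy (by rw [SAm.fderiv_zero_of hGt h]; rfl)
  have e1 : plInt ν c2 (fun y => G y + (⟪w, y⟫_ℝ + o) * fderiv ℝ G y ν) =
      plInt ν c2 G + plInt ν c2 (fun y => (⟪w, y⟫_ℝ + o) * fderiv ℝ G y ν) :=
    SAm.plInt_add hν hG1.continuous (by fun_prop) hGt
      (fun y hy => hGdt y (right_ne_zero_of_mul hy)) c2
  have e2 : plInt ν c2 (fun y => (⟪al • w, y⟫_ℝ + al * o) * fderiv ℝ G y ν) =
      al * plInt ν c2 (fun y => (⟪w, y⟫_ℝ + o) * fderiv ℝ G y ν) := by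
    rw [← SAm.plInt_mul]
    congr 1
    funext y
    rw [real_inner_smul_left]
    ring
  have e3 : plInt ((1 / q) • (ν - w)) ((c + (4 * o - ⟪w, x2⟫_ℝ)) / q) F =
      4 ^ (d - 1) * plInt ((1 / q) • (ν - w)) ((c2 + o) / q) G := by
    have hν'1 : ‖(1 / q) • (ν - w)‖ = 1 := by
      have hq1 : 0 < q := by
        have := SAm.one_le_q ‖w‖
        rw [← hq] at this
        linarith
      have h1 : ‖ν - w‖ ^ 2 = q ^ 2 := by
        rw [norm_sub_sq_real, hν, hw, hq, Real.sq_sqrt (by positivity)]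
        ring
      have h2 : ‖ν - w‖ = q := by
        rw [← Real.sqrt_sq (norm_nonneg _), h1, Real.sqrt_sq hq1.le]
      rw [norm_smul, h2, Real.norm_of_nonneg (by positivity)]
      field_simp
    have := plInt_frame (by omega : 1 ≤ d) hν'1 ((c + (4 * o - ⟪w, x2⟫_ℝ)) / q) x2
      (by norm_num : (0 : ℝ) < 4) F
    rw [plane_change hq0] at this
    exact this
  rw [e2] at k2
  rw [e1] at k3
  rw [e3]
  exact num_rec hP (by linarith) hC hN hE hΔ hal (by positivity) k1 k2 k3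

end

end SAFm

end TG
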