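import Pool.Agent.TG.SAFh
import Pool.Agent.TG.TFc

/-!
# Module SAF: geometry of the new plane, its plane functional, the test functions (helper95)
-/

open MeasureTheory Metric Set TrI
open scoped InnerProductSpace ContDiff

namespace TG

namespace SAFm

noncomputable section

open TU

variable {d : ℕ}

lemma nu_unit {ν w : Sp d} {q : ℝ} (hν : ‖ν‖ = 1) (hw : ⟪ν, w⟫_ℝ = 0)
    (hq : q = Real.sqrt (1 + ‖w‖ ^ 2)) : ‖(1 / q) • (ν - w)‖ = 1 := by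
  have hq1 : 0 < q := by
    have := SAm.one_le_q ‖w‖
    rw [← hq] at this
    linarith
  have h1 : ‖ν - w‖ ^ 2 = q ^ 2 := by
    rw [norm_sub_sq_real, hν, hw, hq, Real.sq_sqrt (by positivity)]
    ring
  have h2 : ‖ν - w‖ = q := by
    rw [← Real.sqrt_sq (norm_nonneg _), h1, Real.sqrt_sq hq1.le]
  rw [norm_smul, h2, Real.norm_of_nonneg (by positivity)]
  field_simp

lemma nu_close {ν w : Sp d} {q : ℝ} (hν : ‖ν‖ = 1) (hw1 : ‖w‖ ≤ 1)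
    (hq : q = Real.sqrt (1 + ‖w‖ ^ 2)) : ‖(1 / q) • (ν - w) - ν‖ ≤ 2 * ‖w‖ := by
  obtain ⟨hq1, _, _, hqb⟩ := SAm.q_bounds (norm_nonneg w) hw1 hq
  have e1 : (1 / q) • (ν - w) - ν = (1 / q - 1) • ν - (1 / q) • w := by
    rw [smul_sub, sub_smul, one_smul]
    abel
  rw [e1]
  refine (norm_sub_le _ _).trans ?_
  rw [norm_smul, norm_smul, hν, mul_one, Real.norm_eq_abs, Real.norm_eq_abs,
    abs_of_nonneg (by positivity : (0 : ℝ) ≤ 1 / q)]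
  have h1 : 1 / q ≤ 1 := (div_le_one (by linarith)).2 hq1
  have h2 : 1 / q * ‖w‖ ≤ ‖w‖ := mul_le_of_le_one_left (norm_nonneg w) h1
  nlinarith [norm_nonneg w]

lemma ob_le {d : ℕ} {R0 : ℝ} (hR0 : 200 + 8 * d ≤ R0) {w x2 : Sp d} {o : ℝ}
    (hx2 : ‖x2‖ ≤ 3 * Real.sqrt d) :
    |4 * o - ⟪w, x2⟫_ℝ| ≤ 4 * |o| + R0 * ‖w‖ := by
  have hd0 : (0 : ℝ) ≤ d := by positivity
  have hsd : Real.sqrt d ≤ ((d : ℝ) + 1) / 2 := by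
    rw [Real.sqrt_le_left (by positivity)]
    nlinarith [sq_nonneg ((d : ℝ) - 1)]
  have h1 := abs_real_inner_le_norm w x2
  have h2 : ‖w‖ * ‖x2‖ ≤ ‖w‖ * R0 := mul_le_mul_of_nonneg_left (by linarith) (norm_nonneg w)
  refine (abs_sub _ _).trans ?_
  rw [abs_mul, abs_of_pos (by norm_num : (0 : ℝ) < 4)]
  linarith

lemma c_close {R0 : ℝ} (hR0 : 200 + 8 * d ≤ R0) {w x2 : Sp d} {c o q : ℝ}
    (hc : |c| ≤ R0 + 3) (hx2 : ‖x2‖ ≤ 3 * Real.sqrt d) (hw1 : ‖w‖ ≤ 1)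
    (hq : q = Real.sqrt (1 + ‖w‖ ^ 2)) :
    |(c + (4 * o - ⟪w, x2⟫_ℝ)) / q - c| ≤ 4 * |o| + 3 * R0 * ‖w‖ := by
  have hd0 : (0 : ℝ) ≤ d := by positivity
  obtain ⟨hq1, _, _, hqb⟩ := SAm.q_bounds (norm_nonneg w) hw1 hq
  have h1 := ob_le (o := o) hR0 (w := w) hx2
  have e1 : (c + (4 * o - ⟪w, x2⟫_ℝ)) / q - c = c * (1 / q - 1) + (4 * o - ⟪w, x2⟫_ℝ) / q := by
    have : q ≠ 0 := by positivity
    field_simp
    ring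
  rw [e1]
  refine (abs_add_le _ _).trans ?_
  have h2 : |c * (1 / q - 1)| ≤ (R0 + 3) * ‖w‖ := by
    rw [abs_mul]
    have : ‖w‖ ^ 2 ≤ ‖w‖ := by nlinarith [norm_nonneg w]
    exact mul_le_mul hc (hqb.trans this) (abs_nonneg _) (by linarith)
  have h3 : |(4 * o - ⟪w, x2⟫_ℝ) / q| ≤ |4 * o - ⟪w, x2⟫_ℝ| := by
    rw [abs_div, abs_of_pos (by linarith : 0 < q)]
    exact div_le_self (abs_nonneg _) hq1
  nlinarith [norm_nonneg w]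

lemma ht_new {ν w x2 : Sp d} {c o q : ℝ} (y : Sp d) :
    ht ((1 / q) • (ν - w)) ((c + (4 * o - ⟪w, x2⟫_ℝ)) / q) y =
      (ht ν c y - (⟪w, y⟫_ℝ + (4 * o - ⟪w, x2⟫_ℝ))) / q := by
  unfold ht
  rw [real_inner_smul_left, inner_sub_left]
  ring

/-- the tangential parts with respect to close normals -/
lemma tang_close {ν ν' : Sp d} (hν : ‖ν‖ = 1) (hν' : ‖ν'‖ = 1) (y : Sp d) :
    ‖tang ν y‖ ≤ ‖tang ν' y‖ + 2 * ‖ν' - ν‖ * ‖y‖ := by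
  have e1 : tang ν y = tang ν' y + (⟪ν' - ν, y⟫_ℝ • ν' + ⟪ν, y⟫_ℝ • (ν' - ν)) := by
    unfold tang
    rw [inner_sub_left, sub_smul, smul_sub]
    abel
  rw [e1]
  refine (norm_add_le _ _).trans ?_
  have h1 : ‖⟪ν' - ν, y⟫_ℝ • ν' + ⟪ν, y⟫_ℝ • (ν' - ν)‖ ≤ 2 * ‖ν' - ν‖ * ‖y‖ := by
    refine (norm_add_le _ _).trans ?_
    rw [norm_smul, norm_smul, hν', mul_one, Real.norm_eq_abs, Real.norm_eq_abs]
    have h2 := abs_real_inner_le_norm (ν' - ν) y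
    have h3 := abs_real_inner_le_norm ν y
    rw [hν, one_mul] at h3
    have h4 := mul_le_mul_of_nonneg_right h3 (norm_nonneg (ν' - ν))
    linarith
  linarith

/-- the test functions -/
lemma testF (d J : ℕ) : ∃ C : ℝ, 0 < C ∧ ∀ (ν : Sp d) (c : ℝ), ‖ν‖ = 1 →
    ∀ (ζ0 ζ1 : Sp d → ℝ) (N : ℝ), TFn J N ζ0 → TFn J N ζ1 →
      TFn J (C * N) (fun y => cu1 1 (ht ν c y) * (ζ0 y + ht ν c y * ζ1 y)) := by
  obtain ⟨N0, hN0, h0⟩ := SAm.cu1_TFn d J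
  obtain ⟨N1, hN1, h1⟩ := TC.CB.of_compactSupport (X := ℝ) (F := ℝ) (J := J)
    (g := fun z : ℝ => z * cu1 1 z) (by
      obtain ⟨N2, _, h2⟩ := TC.cu1_cb J
      exact contDiff_id.mul (h2 1 zero_le_one).smooth) (by
      refine HasCompactSupport.intro (isCompact_Icc (a := (-2 : ℝ)) (b := 2)) fun z hz => ?_
      have : 1 + 1 ≤ |z| := by
        by_contra h
        push Not at h
        exact hz ⟨by linarith [neg_abs_le z], by linarith [le_abs_self z]⟩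
      rw [TC.cu1_zero this, mul_zero])
  refine ⟨2 ^ J * N0 + 2 ^ J * N1, by positivity, ?_⟩
  intro ν c hν ζ0 ζ1 N hζ0 hζ1
  have t1 := TFn_mul (h0 1 zero_le_one ν c hν) hζ0
  have t2 := TFn_mul (h1.comp_ht hν.le c).tfn hζ1
  have t3 := TFn_add t1 t2
  have e1 : (fun y => cu1 1 (ht ν c y) * ζ0 y + ht ν c y * cu1 1 (ht ν c y) * ζ1 y) =
      fun y => cu1 1 (ht ν c y) * (ζ0 y + ht ν c y * ζ1 y) := by
    funext y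
    ring
  rw [e1] at t3
  refine TFn_mono t3 le_rfl (le_of_eq ?_)
  ring

lemma lin_sq (d : ℕ) {R0 : ℝ} (hR0 : 200 + 8 * d ≤ R0) : ∃ K : ℝ, 0 < K ∧
    ∀ (w x2 : Sp d) (o : ℝ), ‖x2‖ ≤ 3 * Real.sqrt d →
      TFn 2 (K * (‖w‖ ^ 2 + o ^ 2))
        (fun y => zR R0 y * (⟪w, y⟫_ℝ + (4 * o - ⟪w, x2⟫_ℝ)) ^ 2) := by
  have hd0 : (0 : ℝ) ≤ d := by positivity
  obtain ⟨N1, hN1, h1⟩ := TFn_of_cs (J := 2) (ζ := (zR R0 : Sp d → ℝ))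
    (SAm.zR_contDiff (by linarith) 2) (zR_cs _)
  have hRp : 0 < R0 := by linarith
  refine ⟨2 ^ 2 * 2 ^ 2 * N1 * (18 * R0 ^ 2), by positivity, ?_⟩
  intro w x2 o hx2
  have hob := ob_le (o := o) hR0 (w := w) hx2
  have hρ : 0 ≤ R0 + 1 := by linarith
  have t1 := SAm.TFn_mul_lin h1 hρ (fun y hy => zR_zero hy.le) w (4 * o - ⟪w, x2⟫_ℝ)
  have t2 := SAm.TFn_mul_lin t1 hρ (fun y hy => by rw [zR_zero hy.le, zero_mul]) w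
    (4 * o - ⟪w, x2⟫_ℝ)
  have e1 : (fun y => zR R0 y * (⟪w, y⟫_ℝ + (4 * o - ⟪w, x2⟫_ℝ)) *
      (⟪w, y⟫_ℝ + (4 * o - ⟪w, x2⟫_ℝ))) =
      fun y => zR R0 y * (⟪w, y⟫_ℝ + (4 * o - ⟪w, x2⟫_ℝ)) ^ 2 := by
    funext y
    ring
  rw [e1] at t2
  refine TFn_mono t2 le_rfl ?_
  set A := ‖w‖ * (1 + (R0 + 1)) + |4 * o - ⟪w, x2⟫_ℝ| with hA
  have hA0 : 0 ≤ A := by positivity
  have hA1 : A ≤ 3 * R0 * (‖w‖ + |o|) := by
    have g1 : 4 * |o| ≤ 3 * R0 * |o| := mul_le_mul_of_nonneg_right (by linarith) (abs_nonneg o)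
    have g2 : ‖w‖ * (1 + (R0 + 1)) + R0 * ‖w‖ ≤ 3 * R0 * ‖w‖ := by
      nlinarith [norm_nonneg w]
    linarith
  have hA2 : A ^ 2 ≤ 18 * R0 ^ 2 * (‖w‖ ^ 2 + o ^ 2) := by
    have g1 : A ^ 2 ≤ (3 * R0 * (‖w‖ + |o|)) ^ 2 := pow_le_pow_left₀ hA0 hA1 2
    have g2 : (‖w‖ + |o|) ^ 2 ≤ 2 * (‖w‖ ^ 2 + o ^ 2) := by
      nlinarith [sq_nonneg (‖w‖ - |o|), sq_abs o]
    calc A ^ 2 ≤ 9 * R0 ^ 2 * (‖w‖ + |o|) ^ 2 := by linarith [g1]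
      _ ≤ 9 * R0 ^ 2 * (2 * (‖w‖ ^ 2 + o ^ 2)) :=
        mul_le_mul_of_nonneg_left g2 (by positivity)
      _ = _ := by ring
  have e2 : (2 : ℝ) ^ 2 * (2 ^ 2 * (N1 * A) * A) = 2 ^ 2 * 2 ^ 2 * N1 * A ^ 2 := by ring
  rw [e2]
  calc (2 : ℝ) ^ 2 * 2 ^ 2 * N1 * A ^ 2 ≤
      2 ^ 2 * 2 ^ 2 * N1 * (18 * R0 ^ 2 * (‖w‖ ^ 2 + o ^ 2)) :=
        mul_le_mul_of_nonneg_left hA2 (by positivity)
    _ = _ := by ring

lemma int_split {m a b c : Sp d → ℝ} (ia : Integrable (fun y => m y * a y))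
    (ib : Integrable (fun y => m y * b y)) (ic : Integrable (fun y => m y * c y)) :
    ∫ y, m y * (2 * a y + 2 * b y - c y) =
      2 * (∫ y, m y * a y) + 2 * (∫ y, m y * b y) - ∫ y, m y * c y := by
  have i3 := ia.const_mul 2
  have i4 := ib.const_mul 2
  have i34 : Integrable (fun y => 2 * (m y * a y) + 2 * (m y * b y)) := i3.add i4
  rw [← integral_const_mul, ← integral_const_mul, ← integral_add i3 i4,
    ← integral_sub i34 ic]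
  congr 1
  funext y
  ring

lemma num_blc {CZ CM K1 K2 Sw mm D0 D2 X0 X1 X2 : ℝ} (hCZ : 0 < CZ) (hCM : 0 < CM)
    (hK1 : 0 < K1) (hK2 : 0 < K2) (hSw : 0 ≤ Sw) (hmm : 0 ≤ mm) (hD0 : 0 ≤ D0) (hD2 : 0 ≤ D2)
    (k1 : -(CZ * (3 * K1 + 4 * K2) * D0) ≤ 2 * X0 + 2 * X1 - X2)
    (k3 : X1 ≤ CM * (K2 * Sw) * (mm + D0 + D2)) :
    X2 ≤ 2 * X0 + (2 * (CM * K2) + CZ * (3 * K1 + 4 * K2)) * Sw * (mm + D0 + D2) +
      (2 * (CM * K2) + CZ * (3 * K1 + 4 * K2)) * D0 := by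
  have p1 : 0 ≤ CZ * (3 * K1 + 4 * K2) * Sw * (mm + D0 + D2) := by positivity
  have p2 : 0 ≤ 2 * (CM * K2) * D0 := by positivity
  nlinarith

/-- the plane functional of the new plane -/
theorem blc_new (hZ : StmtZ) (hTW : StmtTW) (hSC : StmtSC) (hMA : StmtMA) (hd : 2 ≤ d)
    {M c0 ε : ℝ} (hε : 0 < ε) (hε1 : ε ≤ 1) {b : Sp d → ℝ} (hb : BaseKer 2 M c0 b) {R0 : ℝ}
    (hR0 : 200 + 8 * d ≤ R0) : ∃ C : ℝ, 0 < C ∧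
    ∀ (E : Type) [NormedAddCommGroup E] [InnerProductSpace ℝ E] [FiniteDimensional ℝ E],
    ∀ (R : ℝ), 4 * R0 + 10 ≤ R → ∀ f : Sp d → E, Continuous f → HasCompactSupport f →
    ∀ (n : ℕ) (x : ℕ → Sp d) (e : ℕ → E), Tower x e →
    ∀ (ν w : Sp d) (c o q : ℝ), ‖ν‖ = 1 → ⟪ν, w⟫_ℝ = 0 → |c| ≤ R0 + 3 → ‖w‖ ≤ 1 → |o| ≤ 1 →
      q = Real.sqrt (1 + ‖w‖ ^ 2) → |(c + (4 * o - ⟪w, x 2⟫_ℝ)) / q| ≤ R0 + 4 →
      blc ((1 / q) • (ν - w)) ((c + (4 * o - ⟪w, x 2⟫_ℝ)) / q) (fun y => ⟪f y, e 0⟫_ℝ) R0 ≤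
        2 * (∫ y, ⟪f y, e 0⟫_ℝ * (zR R0 y * ht ν c y ^ 2)) +
        C * (‖w‖ ^ 2 + o ^ 2) * (ma b ε R0 ((1 / 2) ^ n) f (n + 2) (x 2) +
          DD b ε R ((1 / 2) ^ n) f n 0 (e 0) + DD b ε R ((1 / 2) ^ n) f (n + 2) (x 2) (e 2)) +
        C * DD b ε R ((1 / 2) ^ n) f n 0 (e 0) := by
  have hd0 : (0 : ℝ) ≤ d := by positivity
  obtain ⟨CZ, hCZ, hz⟩ := Z' hZ (by omega : 1 ≤ d) hε hε1 hb
  obtain ⟨CM, hCM, hm⟩ := mass_base hTW hSC hMA hd hε hε1 hb (R0 := R0) (by linarith)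
  obtain ⟨N1, hN1, h1⟩ := TFn_of_cs (J := 2) (ζ := (zR R0 : Sp d → ℝ))
    (SAm.zR_contDiff (by linarith) 2) (zR_cs _)
  obtain ⟨K2, hK2, h2⟩ := lin_sq d hR0
  set K1 : ℝ := 4 ^ 2 * N1 * max 1 (R0 + 1 + (R0 + 4)) ^ 2 with hK1
  have hK1p : 0 < K1 := by positivity
  refine ⟨2 * (CM * K2) + CZ * (3 * K1 + 4 * K2), by positivity, ?_⟩
  intro E _ _ _ R hR f hf hfc n x e hT ν w c o q hν hw hc hw1 ho1 hq hc'
  obtain ⟨_, _, hx2⟩ := tower_le hT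
  have hν' := nu_unit hν hw hq
  obtain ⟨hq1, _, _, _⟩ := SAm.q_bounds (norm_nonneg w) hw1 hq
  have t0 : TFn 2 K1 (fun y => zR R0 y * ht ν c y ^ 2) :=
    TFn_ht_sq h1 (ρ := R0 + 1) (fun y hy => zR_zero hy.le) hν (by linarith)
  have t1 : TFn 2 K1 (fun y => zR R0 y *
      ht ((1 / q) • (ν - w)) ((c + (4 * o - ⟪w, x 2⟫_ℝ)) / q) y ^ 2) :=
    TFn_ht_sq h1 (ρ := R0 + 1) (fun y hy => zR_zero hy.le) hν' hc'
  have t2 := h2 w (x 2) o hx2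
  set Sw := ‖w‖ ^ 2 + o ^ 2 with hSw
  have hSw0 : 0 ≤ Sw := by positivity
  have hSw2 : Sw ≤ 2 := by
    have g1 : ‖w‖ ^ 2 ≤ 1 := by nlinarith [norm_nonneg w]
    have g2 : o ^ 2 ≤ 1 := by nlinarith [sq_abs o, abs_nonneg o]
    linarith
  have t3 := TFn_sub (TFn_add (TFn_const_mul t0 2) (TFn_const_mul t2 2)) t1
  have t4 := TFn_mono t3 le_rfl (show |(2 : ℝ)| * K1 + |(2 : ℝ)| * (K2 * Sw) + K1 ≤
      3 * K1 + 4 * K2 by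
    rw [abs_of_pos (by norm_num : (0 : ℝ) < 2)]
    nlinarith)
  have k1 := hz E f hf hfc R (by linarith) n (e 0) (hT.unit 0) 0 _ _ t4 (fun y => by
    rw [ht_new]
    have g0 := zR_nonneg R0 y
    set z := ht ν c y
    set l := ⟪w, y⟫_ℝ + (4 * o - ⟪w, x 2⟫_ℝ)
    have g1 : ((z - l) / q) ^ 2 ≤ (z - l) ^ 2 := by
      rw [div_pow]
      exact div_le_self (sq_nonneg _) (one_le_pow₀ hq1)
    have g2 : 0 ≤ 2 * z ^ 2 + 2 * l ^ 2 - ((z - l) / q) ^ 2 := by nlinarith [sq_nonneg (z + l)]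
    have g3 := mul_nonneg g0 g2
    linarith) (fun y hy => by
    rw [sub_zero] at hy
    rw [zR_zero (by linarith)]
    ring)
  have k2 := hm E R hR f hf hfc n x e hT _ _ t2 (fun y hy => by
    rw [zR_zero (by linarith), zero_mul])
  have i0 := SS.integrable_m hf hfc (e 0) t0.smooth.continuous
  have i1 := SS.integrable_m hf hfc (e 0) t1.smooth.continuous
  have i2 := SS.integrable_m hf hfc (e 0) t2.smooth.continuous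
  have e1 := int_split i0 i2 i1
  rw [e1] at k1
  have hD0 := DD_nonneg b ε R (by positivity : (0 : ℝ) < (1 / 2) ^ n) f n 0 (hT.unit 0)
  have hD2 := DD_nonneg b ε R (by positivity : (0 : ℝ) < (1 / 2) ^ n) f (n + 2) (x 2) (hT.unit 2)
  have hm2 := ma_nonneg b ε R0 (by positivity : (0 : ℝ) < (1 / 2) ^ n) f (n + 2) (x 2)
  have e3 : blc ((1 / q) • (ν - w)) ((c + (4 * o - ⟪w, x 2⟫_ℝ)) / q)
      (fun y => ⟪f y, e 0⟫_ℝ) R0 = ∫ y, ⟪f y, e 0⟫_ℝ *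
        (zR R0 y * ht ((1 / q) • (ν - w)) ((c + (4 * o - ⟪w, x 2⟫_ℝ)) / q) y ^ 2) := rfl
  rw [e3]
  generalize DD b ε R ((1 / 2) ^ n) f n 0 (e 0) = D0 at *
  generalize DD b ε R ((1 / 2) ^ n) f (n + 2) (x 2) (e 2) = D2 at *
  generalize ma b ε R0 ((1 / 2) ^ n) f (n + 2) (x 2) = mm at *
  generalize (∫ y, ⟪f y, e 0⟫_ℝ * (zR R0 y * ht ν c y ^ 2)) = X0 at *
  generalize (∫ y, ⟪f y, e 0⟫_ℝ *
    (zR R0 y * (⟪w, y⟫_ℝ + (4 * o - ⟪w, x 2⟫_ℝ)) ^ 2)) = X1 at *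
  generalize (∫ y, ⟪f y, e 0⟫_ℝ *
        (zR R0 y * ht ((1 / q) • (ν - w)) ((c + (4 * o - ⟪w, x 2⟫_ℝ)) / q) y ^ 2)) = X2 at *
  exact num_blc hCZ hCM hK1p hK2 hSw0 hm2 hD0 hD2 k1 ((le_abs_self _).trans k2)

end

end SAFm

end TG
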