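import Pool.Agent.TG.SA8
import Pool.Agent.TG.SC
import Pool.Agent.TG.SD

/-!
# Sheet lemma (module SA): change of the common plane in the sums over all levels (helper70)
-/

open MeasureTheory Metric Set TrI
open scoped InnerProductSpace ContDiff

namespace TG

namespace SAm

noncomputable section

/-- position of the centres of a tower -/
lemma tower_norm {d : ℕ} {E : Type} [NormedAddCommGroup E] [InnerProductSpace ℝ E]
    {x : ℕ → Sp d} {e : ℕ → E} (hT : Tower x e) (r : ℕ) :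
    ‖x r‖ ≤ Real.sqrt d * (2 ^ r - 1) := by
  induction r with
  | zero => rw [hT.zero]; simp
  | succ r ih =>
    have h1 := hT.step r
    have h2 : ‖x (r + 1)‖ ≤ ‖x (r + 1) - x r‖ + ‖x r‖ := by
      have := norm_add_le (x (r + 1) - x r) (x r)
      rwa [sub_add_cancel] at this
    have h3 : Real.sqrt d * (2 ^ (r + 1) - 1) = Real.sqrt d * 2 ^ r + Real.sqrt d * (2 ^ r - 1) := by
      rw [pow_succ]
      ring
    rw [h3]
    linarith

lemma DD_nn' {d : ℕ} {E : Type} [NormedAddCommGroup E] [InnerProductSpace ℝ E] (b : Sp d → ℝ)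
    (ε R : ℝ) {s0 : ℝ} (hs : 0 < s0) (f : Sp d → E) (i : ℕ) (x : Sp d) {e : E} (he : ‖e‖ = 1) :
    0 ≤ DD b ε R s0 f i x e := by
  have hl : 0 < lev s0 i := by
    unfold lev
    positivity
  have h1 : ∀ v : E, 0 ≤ ‖v‖ - ⟪v, e⟫_ℝ := by
    intro v
    have := real_inner_le_norm v e
    rw [he, mul_one] at this
    linarith
  unfold DD
  refine mul_nonneg (by positivity) (add_nonneg (Finset.sum_nonneg fun l _ => ?_) ?_)
  · exact mul_nonneg (by positivity) (integral_nonneg fun y => h1 _)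
  · exact mul_nonneg (by positivity) (integral_nonneg fun y => norm_nonneg _)

lemma ma_nn' {d : ℕ} {E : Type} [NormedAddCommGroup E] [InnerProductSpace ℝ E] (b : Sp d → ℝ)
    (ε R : ℝ) {s0 : ℝ} (hs : 0 < s0) (f : Sp d → E) (i : ℕ) (x : Sp d) :
    0 ≤ ma b ε R s0 f i x := by
  have hl : 0 < lev s0 i := by
    unfold lev
    positivity
  unfold ma
  exact mul_nonneg (by positivity) (integral_nonneg fun y => norm_nonneg _)

/-- the weights -/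
lemma wq_nonneg (q : ℝ) (r : ℕ) : 0 ≤ wq q r := by
  unfold wq
  positivity

lemma wq_half_succ (r : ℕ) : wq (1 / 2) r ≤ 2 * wq (1 / 2) (r + 1) := by
  unfold wq
  have h1 : (2 : ℝ) * (2 : ℝ) ^ (-(1 / 2 * ((r + 1 : ℕ) : ℝ))) =
      (2 : ℝ) ^ (1 + -(1 / 2 * ((r + 1 : ℕ) : ℝ))) := by
    rw [Real.rpow_add (by norm_num), Real.rpow_one]
  rw [h1]
  refine Real.rpow_le_rpow_of_exponent_le (by norm_num) ?_
  push_cast
  linarith

/-- the geometric sum -/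
lemma geo_sum {γ : ℝ} (hγ : γ ≤ 1 / 16) (I : ℕ) :
    ∑ r ∈ Finset.range I, wq (1 / 2) r * (2 : ℝ) ^ (γ * ((r : ℝ) + 1)) ≤
      2 * (1 - (2 : ℝ) ^ (-(1 / 4 : ℝ)))⁻¹ := by
  set q : ℝ := (2 : ℝ) ^ (-(1 / 4 : ℝ)) with hq
  have hq0 : 0 < q := by positivity
  have hq1 : q < 1 := Real.rpow_lt_one_of_one_lt_of_neg (by norm_num) (by norm_num)
  have h1 : ∀ r ∈ Finset.range I, wq (1 / 2) r * (2 : ℝ) ^ (γ * ((r : ℝ) + 1)) ≤ 2 * q ^ r := by
    intro r _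
    unfold wq
    have hr : (0 : ℝ) ≤ r := Nat.cast_nonneg r
    rw [← Real.rpow_add (by norm_num), hq, ← Real.rpow_natCast, ← Real.rpow_mul (by norm_num)]
    have h2 : (2 : ℝ) * (2 : ℝ) ^ (-(1 / 4 : ℝ) * (r : ℝ)) =
        (2 : ℝ) ^ (1 + -(1 / 4 : ℝ) * (r : ℝ)) := by
      rw [Real.rpow_add (by norm_num), Real.rpow_one]
    rw [h2]
    refine Real.rpow_le_rpow_of_exponent_le (by norm_num) ?_
    nlinarith
  refine (Finset.sum_le_sum h1).trans ?_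
  rw [← Finset.mul_sum]
  refine mul_le_mul_of_nonneg_left ?_ (by norm_num)
  have h3 := (hasSum_geometric_of_lt_one hq0.le hq1)
  exact sum_le_hasSum _ (fun i _ => by positivity) h3

/-- one level -/
lemma tilt_level (hZ : StmtZ) (hTW : StmtTW) (hSC : StmtSC) (hSD : StmtSD) {d : ℕ} (hd : 2 ≤ d)
    {M c0 ε : ℝ} (hε : 0 < ε) (hε1 : ε ≤ 1) {b : Sp d → ℝ} (hb : BaseKer 2 M c0 b) {R0 : ℝ}
    (hR0 : 200 + 8 * d ≤ R0) : ∃ C : ℝ, 0 < C ∧
    ∀ (E : Type) [NormedAddCommGroup E] [InnerProductSpace ℝ E] [FiniteDimensional ℝ E],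
    ∀ (R : ℝ), 4 * R0 + 10 ≤ R → ∀ (n : ℕ) (f : Sp d → E), Continuous f → HasCompactSupport f →
    ∀ (x : ℕ → Sp d) (e : ℕ → E), Tower x e →
    ∀ (ν ν' : Sp d) (c c' T : ℝ), ‖ν‖ = 1 → ‖ν'‖ = 1 → |c| ≤ R0 + 3 → |c'| ≤ R0 + 4 →
      ‖ν' - ν‖ ^ 2 + (c' - c) ^ 2 ≤ T → ∀ r : ℕ,
      max 0 (bb R0 ((1 / 2) ^ n) f (n + r) (x r) (e r) ν' c') ≤
        2 * max 0 (bb R0 ((1 / 2) ^ n) f (n + r) (x r) (e r) ν c) +
        C * T * (ma b ε R0 ((1 / 2) ^ n) f (n + (r + 1)) (x (r + 1)) +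
            DD b ε R ((1 / 2) ^ n) f (n + r) (x r) (e r) +
            DD b ε R ((1 / 2) ^ n) f (n + (r + 1)) (x (r + 1)) (e (r + 1))) +
        C * DD b ε R ((1 / 2) ^ n) f (n + r) (x r) (e r) := by
  have hdr : (2 : ℝ) ≤ d := by exact_mod_cast hd
  obtain ⟨C, hC, ht⟩ := tilt hZ hTW (d := d) (by omega) hε hε1 hb (R0 := R0) (by linarith)
  refine ⟨C * (2 + 2 * d) + C, by positivity, ?_⟩
  intro E _ _ _ R hR n f hf hfc x e hT ν ν' c c' T hν hν' hc hc' hTT r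
  have hT0 : 0 ≤ T := le_trans (by positivity) hTT
  have h2r : (0 : ℝ) < 2 ^ r := by positivity
  have h2r1 : (1 : ℝ) ≤ 2 ^ r := one_le_pow₀ (by norm_num)
  have hs0 : (0 : ℝ) < (1 / 2) ^ n := by positivity
  obtain ⟨-, hSC2, -⟩ := hSC d hd 1 one_pos (x r) (2 ^ r) h2r
  obtain ⟨-, hDDs, hmas⟩ := hSC2 E M c0 b hb ε hε hε1 f hf hfc ((1 / 2) ^ n) hs0
  have hlev : ((1 / 2 : ℝ)) ^ (n + r) = (1 / 2) ^ n / 2 ^ r := by
    rw [pow_add, div_eq_mul_inv ((1 / 2 : ℝ) ^ n), ← inv_pow]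
    norm_num
  have hsd : Real.sqrt d ≤ d := by
    rw [Real.sqrt_le_left (by positivity)]
    nlinarith
  have hsd0 : 0 ≤ Real.sqrt d := Real.sqrt_nonneg _
  have hsd2 : Real.sqrt d ^ 2 = d := Real.sq_sqrt (by positivity)
  have hxr := tower_norm hT r
  have hxr' : ‖x r‖ / 2 ^ r ≤ Real.sqrt d := by
    rw [div_le_iff₀ h2r]
    nlinarith
  -- the rescaled field
  have hfr : Continuous (rs (x r) (2 ^ r) f) := by
    unfold rs
    exact (hf.comp (by fun_prop)).const_smul _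
  have hfrc : HasCompactSupport (rs (x r) (2 ^ r) f) := by
    obtain ⟨ρ, hρ⟩ := hfc.isCompact.isBounded.subset_closedBall 0
    refine HasCompactSupport.intro (isCompact_closedBall (0 : Sp d) ((|ρ| + ‖x r‖) / 2 ^ r))
      fun y hy => ?_
    rw [mem_closedBall, dist_zero_right, not_le, div_lt_iff₀ h2r] at hy
    unfold rs
    have h3 : f (x r + (2 : ℝ) ^ r • y) = 0 := by
      by_contra hne
      have h4 := hρ (subset_tsupport _ hne)
      rw [mem_closedBall, dist_zero_right] at h4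
      have h5 : ‖(2 : ℝ) ^ r • y‖ ≤ ‖x r + (2 : ℝ) ^ r • y‖ + ‖x r‖ := by
        have := norm_sub_le (x r + (2 : ℝ) ^ r • y) (x r)
        rwa [add_sub_cancel_left] at this
      rw [norm_smul, Real.norm_of_nonneg h2r.le] at h5
      have := le_abs_self ρ
      linarith
    rw [h3, smul_zero]
  -- the data in the frame r
  set x' : Sp d := ((2 : ℝ) ^ r)⁻¹ • (x (r + 1) - x r) with hx'
  have hx'n : ‖x'‖ ≤ Real.sqrt d := by
    rw [hx', norm_smul, Real.norm_of_nonneg (by positivity), inv_mul_le_iff₀ h2r]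
    have := hT.step r
    linarith
  set cr : ℝ := (c - ⟪ν, x r⟫_ℝ) / 2 ^ r with hcr
  set cr' : ℝ := (c' - ⟪ν', x r⟫_ℝ) / 2 ^ r with hcr'
  have hin : ∀ w : Sp d, |⟪w, x r⟫_ℝ / 2 ^ r| ≤ ‖w‖ * Real.sqrt d := by
    intro w
    rw [abs_div, abs_of_pos h2r, div_le_iff₀ h2r]
    refine (abs_real_inner_le_norm _ _).trans ?_
    have h3 : ‖x r‖ ≤ Real.sqrt d * 2 ^ r := by nlinarith
    calc ‖w‖ * ‖x r‖ ≤ ‖w‖ * (Real.sqrt d * 2 ^ r) := mul_le_mul_of_nonneg_left h3 (norm_nonneg _)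
      _ = ‖w‖ * Real.sqrt d * 2 ^ r := by ring
  have hdiv : ∀ z : ℝ, |z / 2 ^ r| ≤ |z| := by
    intro z
    rw [abs_div, abs_of_pos h2r]
    exact div_le_self (abs_nonneg _) h2r1
  have hcrb : |cr| ≤ 2 * R0 := by
    have h3 : cr = c / 2 ^ r - ⟪ν, x r⟫_ℝ / 2 ^ r := by rw [hcr, sub_div]
    have h4 := hin ν
    rw [hν, one_mul] at h4
    rw [h3]
    refine (abs_sub _ _).trans ?_
    have := hdiv c
    linarith
  have hcrb' : |cr'| ≤ 2 * R0 := by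
    have h3 : cr' = c' / 2 ^ r - ⟪ν', x r⟫_ℝ / 2 ^ r := by rw [hcr', sub_div]
    have h4 := hin ν'
    rw [hν', one_mul] at h4
    rw [h3]
    refine (abs_sub _ _).trans ?_
    have := hdiv c'
    linarith
  have hTr : ‖ν' - ν‖ ^ 2 + (cr' - cr) ^ 2 ≤ (2 + 2 * d) * T := by
    have h3 : cr' - cr = (c' - c) / 2 ^ r - ⟪ν' - ν, x r⟫_ℝ / 2 ^ r := by
      rw [hcr, hcr', inner_sub_left]
      ring
    have h4 : |cr' - cr| ≤ |c' - c| + ‖ν' - ν‖ * Real.sqrt d := by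
      rw [h3]
      exact (abs_sub _ _).trans (add_le_add (hdiv _) (hin _))
    have h5 : (cr' - cr) ^ 2 ≤ (|c' - c| + ‖ν' - ν‖ * Real.sqrt d) ^ 2 := by
      rw [← sq_abs (cr' - cr)]
      exact pow_le_pow_left₀ (abs_nonneg _) h4 2
    have h6 : (|c' - c| + ‖ν' - ν‖ * Real.sqrt d) ^ 2 ≤
        2 * (c' - c) ^ 2 + 2 * (‖ν' - ν‖ ^ 2 * d) := by
      have key : ∀ u v s : ℝ, (u + v * s) ^ 2 ≤ 2 * u ^ 2 + 2 * (v ^ 2 * s ^ 2) := fun u v s => by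
        nlinarith [sq_nonneg (u - v * s)]
      have h9 := key |c' - c| ‖ν' - ν‖ (Real.sqrt d)
      rwa [hsd2, sq_abs] at h9
    have h7 := sq_nonneg ‖ν' - ν‖
    have h8 := sq_nonneg (c' - c)
    nlinarith
  have hmain := ht E R hR (rs (x r) (2 ^ r) f) hfr hfrc (n + r) x' (e r) (e (r + 1)) hx'n
    (hT.unit r) (hT.unit (r + 1)) ν ν' cr cr' ((2 + 2 * d) * T) hν hν' hcrb hcrb' hTr
  -- rescaling
  have hx0 : x r + (2 : ℝ) ^ r • (0 : Sp d) = x r := by rw [smul_zero, add_zero]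
  have hx1 : x r + (2 : ℝ) ^ r • x' = x (r + 1) := by
    rw [hx', smul_smul, mul_inv_cancel₀ h2r.ne', one_smul]
    abel
  have hc1 : 2 ^ r * cr + ⟪ν, x r⟫_ℝ = c := by rw [hcr]; field_simp; ring
  have hc2 : 2 ^ r * cr' + ⟪ν', x r⟫_ℝ = c' := by rw [hcr']; field_simp; ring
  rw [hlev, hSD.2 d E f (by omega) hf hfc (x r) (2 ^ r) h2r R0 ((1 / 2) ^ n) (n + r) 0 (e r) ν' cr'
    hs0, hSD.2 d E f (by omega) hf hfc (x r) (2 ^ r) h2r R0 ((1 / 2) ^ n) (n + r) 0 (e r) ν cr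
    hs0, hDDs, hDDs, hmas, hx0, hx1, hc1, hc2, add_assoc n r 1] at hmain
  have hD0 : 0 ≤ DD b ε R ((1 / 2) ^ n) f (n + r) (x r) (e r) :=
    DD_nn' b ε R hs0 f _ _ (hT.unit r)
  have hD1 : 0 ≤ DD b ε R ((1 / 2) ^ n) f (n + (r + 1)) (x (r + 1)) (e (r + 1)) :=
    DD_nn' b ε R hs0 f _ _ (hT.unit (r + 1))
  have hm1 : 0 ≤ ma b ε R0 ((1 / 2) ^ n) f (n + (r + 1)) (x (r + 1)) := ma_nn' b ε R0 hs0 f _ _
  have hQ : 0 ≤ C * T * (ma b ε R0 ((1 / 2) ^ n) f (n + (r + 1)) (x (r + 1)) +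
      DD b ε R ((1 / 2) ^ n) f (n + r) (x r) (e r) +
      DD b ε R ((1 / 2) ^ n) f (n + (r + 1)) (x (r + 1)) (e (r + 1))) :=
    mul_nonneg (mul_nonneg hC.le hT0) (by linarith)
  have hQ2 : 0 ≤ C * (2 + 2 * d) * DD b ε R ((1 / 2) ^ n) f (n + r) (x r) (e r) := by positivity
  nlinarith

theorem sums (hZ : StmtZ) (hTW : StmtTW) (hSC : StmtSC) (hSD : StmtSD) {d : ℕ} (hd : 2 ≤ d)
    {M c0 ε : ℝ} (hε : 0 < ε) (hε1 : ε ≤ 1) {b : Sp d → ℝ} (hb : BaseKer 2 M c0 b)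
    {R0 γ K : ℝ} (hR0 : 200 + 8 * d ≤ R0) (hγ : 0 < γ) (hγ1 : γ ≤ 1 / (8 * d)) (hK : 1 ≤ K) :
    ∃ C : ℝ, 0 < C ∧
    ∀ (E : Type) [NormedAddCommGroup E] [InnerProductSpace ℝ E] [FiniteDimensional ℝ E],
    ∀ (R : ℝ), 4 * R0 + 10 ≤ R → ∀ (n : ℕ) (f : Sp d → E), Continuous f → HasCompactSupport f →
    ∀ (x : ℕ → Sp d) (e : ℕ → E), Tower x e → ∀ a : ℝ, 0 < a →
    (∀ r : ℕ, ma b ε R0 ((1 / 2) ^ n) f (n + r) (x r) ≤ K * (2 : ℝ) ^ (γ * r) * a) →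
    ∀ (ν ν' : Sp d) (c c' B T : ℝ), ‖ν‖ = 1 → ‖ν'‖ = 1 → |c| ≤ R0 + 3 → |c'| ≤ R0 + 4 →
      ‖ν' - ν‖ ^ 2 + (c' - c) ^ 2 ≤ T →
      (∀ I : ℕ, ∑ r ∈ Finset.range I, wq (1 / 2) r *
        bD b ε R0 R ((1 / 2) ^ n) f (n + r) (x r) (e r) ν c ≤ B) →
      ∀ I : ℕ, ∑ r ∈ Finset.range I, wq (1 / 2) r *
        bD b ε R0 R ((1 / 2) ^ n) f (n + r) (x r) (e r) ν' c' ≤ C * (B + T * (a + B)) := by
  have hdr : (2 : ℝ) ≤ d := by exact_mod_cast hd
  obtain ⟨C, hC, hlev⟩ := tilt_level hZ hTW hSC hSD hd hε hε1 hb hR0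
  set G : ℝ := (1 - (2 : ℝ) ^ (-(1 / 4 : ℝ)))⁻¹ with hG
  have hq1 : (2 : ℝ) ^ (-(1 / 4 : ℝ)) < 1 :=
    Real.rpow_lt_one_of_one_lt_of_neg (by norm_num) (by norm_num)
  have hG0 : 0 < G := inv_pos.2 (by linarith)
  have hγ2 : γ ≤ 1 / 16 := by
    refine hγ1.trans ?_
    rw [div_le_div_iff₀ (by positivity) (by norm_num)]
    linarith
  have hK0 : 0 < K := by linarith
  refine ⟨(3 + C) + C * (2 * K * G + 3), by positivity, ?_⟩
  intro E _ _ _ R hR n f hf hfc x e hT a ha hma ν ν' c c' B T hν hν' hc hc' hTT hB I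
  have hT0 : 0 ≤ T := le_trans (by positivity) hTT
  have hs0 : (0 : ℝ) < (1 / 2) ^ n := by positivity
  have hD : ∀ r, 0 ≤ DD b ε R ((1 / 2) ^ n) f (n + r) (x r) (e r) := fun r =>
    DD_nn' b ε R hs0 f _ _ (hT.unit r)
  have hbD : ∀ r, 0 ≤ bD b ε R0 R ((1 / 2) ^ n) f (n + r) (x r) (e r) ν c := fun r =>
    add_nonneg (le_max_left _ _) (hD r)
  have hDb : ∀ r, DD b ε R ((1 / 2) ^ n) f (n + r) (x r) (e r) ≤
      bD b ε R0 R ((1 / 2) ^ n) f (n + r) (x r) (e r) ν c := fun r =>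
    le_add_of_nonneg_left (le_max_left _ _)
  have hB0 : 0 ≤ B := by
    have := hB 0
    rwa [Finset.sum_range_zero] at this
  -- one level
  have h1 : ∀ r, wq (1 / 2) r * bD b ε R0 R ((1 / 2) ^ n) f (n + r) (x r) (e r) ν' c' ≤
      (3 + C) * (wq (1 / 2) r * bD b ε R0 R ((1 / 2) ^ n) f (n + r) (x r) (e r) ν c) +
      C * T * (K * a * (wq (1 / 2) r * (2 : ℝ) ^ (γ * ((r : ℝ) + 1))) +
        wq (1 / 2) r * bD b ε R0 R ((1 / 2) ^ n) f (n + r) (x r) (e r) ν c +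
        2 * (wq (1 / 2) (r + 1) *
          bD b ε R0 R ((1 / 2) ^ n) f (n + (r + 1)) (x (r + 1)) (e (r + 1)) ν c)) := by
    intro r
    have h2 := hlev E R hR n f hf hfc x e hT ν ν' c c' T hν hν' hc hc' hTT r
    have h3 := hma (r + 1)
    push_cast at h3
    set w := wq (1 / 2) r with hw
    set w' := wq (1 / 2) (r + 1) with hw'
    have hw0 : 0 ≤ w := wq_nonneg _ _
    have hww : w ≤ 2 * w' := wq_half_succ r
    set D0 := DD b ε R ((1 / 2) ^ n) f (n + r) (x r) (e r) with hD0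
    set D1 := DD b ε R ((1 / 2) ^ n) f (n + (r + 1)) (x (r + 1)) (e (r + 1)) with hD1
    set b0 := bD b ε R0 R ((1 / 2) ^ n) f (n + r) (x r) (e r) ν c with hb0
    set b1 := bD b ε R0 R ((1 / 2) ^ n) f (n + (r + 1)) (x (r + 1)) (e (r + 1)) ν c with hb1
    set ma1 := ma b ε R0 ((1 / 2) ^ n) f (n + (r + 1)) (x (r + 1)) with hma1
    have hb00 : 0 ≤ b0 := hbD r
    have hb10 : 0 ≤ b1 := hbD (r + 1)
    have hd0 : D0 ≤ b0 := hDb r
    have hd1 : D1 ≤ b1 := hDb (r + 1)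
    have hd00 : 0 ≤ D0 := hD r
    have hmx : max 0 (bb R0 ((1 / 2) ^ n) f (n + r) (x r) (e r) ν c) + D0 = b0 := rfl
    have hmx0 := le_max_left 0 (bb R0 ((1 / 2) ^ n) f (n + r) (x r) (e r) ν c)
    have h4 : bD b ε R0 R ((1 / 2) ^ n) f (n + r) (x r) (e r) ν' c' ≤
        (3 + C) * b0 + C * T * (K * (2 : ℝ) ^ (γ * ((r : ℝ) + 1)) * a + b0 + b1) := by
      have h5 : bD b ε R0 R ((1 / 2) ^ n) f (n + r) (x r) (e r) ν' c' =
        max 0 (bb R0 ((1 / 2) ^ n) f (n + r) (x r) (e r) ν' c') + D0 := rfl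
      rw [h5]
      have h6 : C * T * (ma1 + D0 + D1) ≤
          C * T * (K * (2 : ℝ) ^ (γ * ((r : ℝ) + 1)) * a + b0 + b1) :=
        mul_le_mul_of_nonneg_left (by linarith) (mul_nonneg hC.le hT0)
      have h7 : C * D0 ≤ C * b0 := mul_le_mul_of_nonneg_left hd0 hC.le
      linarith
    have h8 : w * b1 ≤ 2 * (w' * b1) := by
      have := mul_le_mul_of_nonneg_right hww hb10
      linarith
    have hCT : 0 ≤ C * T := mul_nonneg hC.le hT0
    calc w * bD b ε R0 R ((1 / 2) ^ n) f (n + r) (x r) (e r) ν' c'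
        ≤ w * ((3 + C) * b0 + C * T * (K * (2 : ℝ) ^ (γ * ((r : ℝ) + 1)) * a + b0 + b1)) :=
          mul_le_mul_of_nonneg_left h4 hw0
      _ = (3 + C) * (w * b0) + C * T * (K * a * (w * (2 : ℝ) ^ (γ * ((r : ℝ) + 1))) + w * b0
          + w * b1) := by ring
      _ ≤ _ := by
          have := mul_le_mul_of_nonneg_left h8 hCT
          linarith
  refine (Finset.sum_le_sum fun r _ => h1 r).trans ?_
  rw [Finset.sum_add_distrib, ← Finset.mul_sum, ← Finset.mul_sum, Finset.sum_add_distrib,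
    Finset.sum_add_distrib, ← Finset.mul_sum, ← Finset.mul_sum]
  have hs1 := hB I
  have hs2 := geo_sum hγ2 I
  have hs3 : ∑ r ∈ Finset.range I, wq (1 / 2) (r + 1) *
      bD b ε R0 R ((1 / 2) ^ n) f (n + (r + 1)) (x (r + 1)) (e (r + 1)) ν c ≤ B := by
    have h5 := hB (I + 1)
    rw [Finset.sum_range_succ'] at h5
    have h6 : 0 ≤ wq (1 / 2) 0 * bD b ε R0 R ((1 / 2) ^ n) f (n + 0) (x 0) (e 0) ν c :=
      mul_nonneg (wq_nonneg _ _) (hbD 0)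
    linarith
  have hCT : 0 ≤ C * T := mul_nonneg hC.le hT0
  have hKa : 0 ≤ K * a := by positivity
  have hs4 := mul_le_mul_of_nonneg_left hs2 hKa
  have hs5 := mul_le_mul_of_nonneg_left hs1 (show 0 ≤ 3 + C by positivity)
  have hs6 : C * T * (K * a * (∑ r ∈ Finset.range I, wq (1 / 2) r * (2 : ℝ) ^ (γ * ((r : ℝ) + 1))) +
      (∑ r ∈ Finset.range I, wq (1 / 2) r * bD b ε R0 R ((1 / 2) ^ n) f (n + r) (x r) (e r) ν c) +
      2 * ∑ r ∈ Finset.range I, wq (1 / 2) (r + 1) *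
        bD b ε R0 R ((1 / 2) ^ n) f (n + (r + 1)) (x (r + 1)) (e (r + 1)) ν c) ≤
      C * T * (K * a * (2 * G) + B + 2 * B) :=
    mul_le_mul_of_nonneg_left (by linarith) hCT
  refine (add_le_add hs5 hs6).trans ?_
  have h9 : 0 ≤ C * (2 * K * G + 3) * B := by positivity
  have h10 : 0 ≤ (3 + C) * (T * (a + B)) := by positivity
  have h11 : 0 ≤ C * T * (3 * a) := by positivity
  have h12 : 0 ≤ C * T * (2 * K * G * B) := by positivity
  nlinarith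

end

end SAm

end TG
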