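import Pool.Agent.TG.Stmts3

/-!
# Trace inequality, general operators: sheets at many levels (for the A/B interface, section 13)

No double quotes.  Unit scale.
-/

open MeasureTheory Metric Set TrI
open scoped InnerProductSpace ContDiff

namespace TG

noncomputable section

variable {d : ℕ}

/-- the inner mass of a field in its unit frame -/
def Mi {E : Type} [NormedAddCommGroup E] [InnerProductSpace ℝ E] (R0 : ℝ) (f : Sp d → E)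
    (e : E) : ℝ := ∫ y, ⟪f y, e⟫_ℝ * zR (R0 / 3) y

/-- MODULE SAF: the sheet lemma from Flat at level 2, constants independent of the growth -/
def StmtSAF : Prop :=
  ∀ (d : ℕ) (V E : Type) [NormedAddCommGroup V] [InnerProductSpace ℝ V] [FiniteDimensional ℝ V]
    [NormedAddCommGroup E] [InnerProductSpace ℝ E] [FiniteDimensional ℝ E]
    (L : (Sp d →L[ℝ] V) →L[ℝ] E), 2 ≤ d → CEll L → ∃ J : ℕ,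
    ∀ (M c0 ε : ℝ), 0 < ε → ε ≤ 1 → ∀ (b : Sp d → ℝ), BaseKer 2 M c0 b →
    ∀ R0 : ℝ, 200 + 8 * d ≤ R0 → ∃ (C κ : ℝ), 0 < C ∧ 0 < κ ∧
      ∀ (R : ℝ), 4 * R0 + 10 ≤ R → ∀ (n : ℕ) (u : Sp d → V), TF u →
      ∀ (x : ℕ → Sp d) (e : ℕ → E), Tower x e →
      ∀ (ν : Sp d) (c B D Lam m2 : ℝ), ‖ν‖ = 1 → |c| ≤ R0 + 3 →
        Flat b ε R0 R κ (rs (x 2) 4 (fo L u)) (n + 2) (e 2) ν ((c - ⟪ν, x 2⟫_ℝ) / 4) →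
        m2 = Mi R0 (rs (x 2) 4 (fo L u)) (e 2) →
        1 ≤ Lam → ma b ε R0 ((1 / 2) ^ n) (fo L u) (n + 2) (x 2) ≤ Lam * m2 →
        Lam ^ 2 * B ≤ κ * m2 →
        (∀ I : ℕ, ∑ r ∈ Finset.range I, (1 / 2 : ℝ) ^ r *
          bD b ε R0 R ((1 / 2) ^ n) (fo L u) (n + r) (x r) (e r) ν c ≤ B) →
        (∀ r ≤ 2, DD b ε R ((1 / 2) ^ n) (fo L u) (n + r) (x r) (e r) ≤ D) →
        ∃ (ν' : Sp d) (c' a' : ℝ), ‖ν'‖ = 1 ∧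
          m2 * (‖ν' - ν‖ ^ 2 + (c' - c) ^ 2) ≤ C * Lam * B ∧ m2 ≤ C * a' ∧ a' ≤ C * Lam * m2 ∧
          max 0 (blc ν' c' (fun y => ⟪fo L u y, e 0⟫_ℝ) R0) ≤ C * Lam ^ 2 * B ∧
          Sheet J R0 a' (C * Lam ^ 2 * (B + Real.sqrt (m2 * D))) (C * D)
            (fun y => ⟪fo L u y, e 0⟫_ℝ) ν' c'

/-- MODULE MP: persistence of the mass along a common plane -/
def StmtMP : Prop :=
  ∀ (d : ℕ) (V E : Type) [NormedAddCommGroup V] [InnerProductSpace ℝ V] [FiniteDimensional ℝ V]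
    [NormedAddCommGroup E] [InnerProductSpace ℝ E] [FiniteDimensional ℝ E]
    (L : (Sp d →L[ℝ] V) →L[ℝ] E), 2 ≤ d → CEll L →
    ∀ (M c0 ε : ℝ), 0 < ε → ε ≤ 1 → ∀ (b : Sp d → ℝ), BaseKer 2 M c0 b →
    ∀ (R0 γ K κ1 : ℝ), 200 + 8 * d ≤ R0 → 0 < γ → γ ≤ 1 / (16 * d) → 1 ≤ K → 0 < κ1 →
    ∃ (C κ : ℝ), 0 < C ∧ 0 < κ ∧
      ∀ (R : ℝ), 4 * R0 + 10 ≤ R → ∀ (n : ℕ) (u : Sp d → V), TF u →
      ∀ (x : ℕ → Sp d) (e : ℕ → E), Tower x e →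
      ∀ a : ℝ, 0 < a → a = ma b ε R0 ((1 / 2) ^ n) (fo L u) n 0 →
      (∀ r : ℕ, ma b ε R0 ((1 / 2) ^ n) (fo L u) (n + r) (x r) ≤ K * (2 : ℝ) ^ (γ * r) * a) →
      ∀ (ν : Sp d) (c B : ℝ), ‖ν‖ = 1 → |c| ≤ R0 + 3 →
        (∀ I : ℕ, ∑ r ∈ Finset.range I, wq (1 / 2) r *
          bD b ε R0 R ((1 / 2) ^ n) (fo L u) (n + r) (x r) (e r) ν c ≤ B) →
        ∀ r : ℕ, 2 ≤ r → (2 : ℝ) ^ ((3 / 5 : ℝ) * r) * B ≤ κ * a →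
          Flat b ε R0 R κ1 (rs (x r) (2 ^ r) (fo L u)) (n + r) (e r) ν
            ((c - ⟪ν, x r⟫_ℝ) / 2 ^ r) ∧
          a ≤ C * Mi R0 (rs (x r) (2 ^ r) (fo L u)) (e r)

/-- MODULE ML: sheets at many levels -/
def StmtML : Prop :=
  ∀ (d : ℕ) (V E : Type) [NormedAddCommGroup V] [InnerProductSpace ℝ V] [FiniteDimensional ℝ V]
    [NormedAddCommGroup E] [InnerProductSpace ℝ E] [FiniteDimensional ℝ E]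
    (L : (Sp d →L[ℝ] V) →L[ℝ] E), 2 ≤ d → CEll L → ∃ J : ℕ,
    ∀ (M c0 ε : ℝ), 0 < ε → ε ≤ 1 → ∀ (b : Sp d → ℝ), BaseKer 2 M c0 b →
    ∀ (R0 γ K : ℝ), 200 + 8 * d ≤ R0 → 0 < γ → γ ≤ 1 / (32 * d) → 1 ≤ K →
    ∃ (C κ : ℝ), 0 < C ∧ 0 < κ ∧ ∀ I : ℕ, ∃ C1 : ℝ, 0 < C1 ∧
      ∀ (R : ℝ), 2 ^ (I + 2) * R0 + 10 ≤ R → ∀ (n : ℕ) (u : Sp d → V), TF u →
      ∀ (x : ℕ → Sp d) (e : ℕ → E), Tower x e →
      ∀ a : ℝ, 0 < a → a = ma b ε R0 ((1 / 2) ^ n) (fo L u) n 0 →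
      (∀ r : ℕ, ma b ε R0 ((1 / 2) ^ n) (fo L u) (n + r) (x r) ≤ K * (2 : ℝ) ^ (γ * r) * a) →
      ∀ (νs : ℕ → Sp d) (cs : ℕ → ℝ) (B D : ℝ), (∀ r, ‖νs r‖ = 1) →
        (∀ r, |ht (νs r) (cs r) (x r)| ≤ 4 * R0 * 2 ^ r) →
        (2 : ℝ) ^ ((3 / 5 : ℝ) * I) * B ≤ κ * a →
        (∀ I : ℕ, ∑ r ∈ Finset.range I, wq (1 / 4) r *
          bD b ε R0 R ((1 / 2) ^ n) (fo L u) (n + r) (x r) (e r) (νs r) (cs r) ≤ B) →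
        (∀ I : ℕ, ∑ r ∈ Finset.range I, wq (1 / 4) r *
          DD b ε R ((1 / 2) ^ n) (fo L u) (n + r) (x r) (e r) ≤ D) →
        ∃ (ν : ℕ → Sp d) (c ab : ℕ → ℝ), (∀ l, ‖ν l‖ = 1) ∧ |c 0| ≤ R0 + 5 ∧
          ∀ l ≤ I, a ≤ C * ab l ∧ ab l ≤ C * (2 : ℝ) ^ ((1 / 8 : ℝ) * l) * a ∧
            a * ‖ν l - ν 0‖ ≤ C * (2 : ℝ) ^ ((3 / 4 : ℝ) * l) * (B + Real.sqrt (a * D)) + C1 * D ∧
            max 0 (blc (ν l) (c l)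
              (fun y => 2 ^ l * ⟪fo L u (x l + (2 : ℝ) ^ l • y), e 0⟫_ℝ) R0) ≤
              C * (2 : ℝ) ^ ((3 / 4 : ℝ) * l) * B + C1 * D ∧
            Sheet J R0 (ab l) (C * (2 : ℝ) ^ ((3 / 4 : ℝ) * l) * (B + Real.sqrt (a * D)))
              (C1 * D) (fun y => 2 ^ l * ⟪fo L u (x l + (2 : ℝ) ^ l • y), e 0⟫_ℝ) (ν l) (c l)

end

end TG
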