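import Pool.Agent.TG.SAFg
import Pool.Agent.TG.FS
import Pool.Agent.TG.Stmts4

/-!
# Module SS from module SAF (helper65)
-/

open MeasureTheory Metric Set TrI
open scoped InnerProductSpace ContDiff

namespace TG

namespace SS2

noncomputable section

open TU SAFm

variable {d : ℕ}

/-- the defect of level 0 in the direction of level 2 -/
lemma DD02 (hTW : StmtTW) (hSC : StmtSC) (hd : 2 ≤ d) {M c0 ε : ℝ} (hε : 0 < ε) (hε1 : ε ≤ 1)
    {b : Sp d → ℝ} (hb : BaseKer 2 M c0 b) {R0 : ℝ} (hR0 : 100 + 8 * d ≤ R0) :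
    ∃ C : ℝ, 0 < C ∧
    ∀ (E : Type) [NormedAddCommGroup E] [InnerProductSpace ℝ E] [FiniteDimensional ℝ E],
    ∀ (R : ℝ), 4 * R0 + 10 ≤ R → ∀ f : Sp d → E, Continuous f → HasCompactSupport f →
    ∀ (n : ℕ) (x : ℕ → Sp d) (e : ℕ → E), Tower x e →
      DD b ε R ((1 / 2) ^ n) f n 0 (e 2) ≤ C * DD b ε R ((1 / 2) ^ n) f (n + 2) (x 2) (e 2) := by
  obtain ⟨C, hC, h⟩ := hTW d (by omega) M c0 ε hε hε1 b hb R0 hR0
  refine ⟨C * C, by positivity, ?_⟩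
  intro E _ _ _ R hR f hf hfc n x e hT
  obtain ⟨hx1, hx2, hx3⟩ := tower_le hT
  have h1 := (h E R hR f hf hfc n (x 1) (e 2) (e 2) hx1 (hT.unit 2) (hT.unit 2)).1
  have h2 := (h E R hR (rs (x 1) (2 ^ 1) f) (rs_cont hf _ _) (rs_cs hfc _ (by norm_num)) (n + 1)
    ((1 / 2 : ℝ) • (x 2 - x 1)) (e 2) (e 2) (by
      rw [norm_smul]
      norm_num
      linarith) (hT.unit 2) (hT.unit 2)).1
  rw [DD_fr hSC hd hε hε1 hb hf hfc, DD_fr hSC hd hε hε1 hb hf hfc, smul_zero, add_zero,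
    pow_one, smul_smul] at h2
  norm_num at h2
  have e1 : n + 1 + 1 = n + 2 := rfl
  rw [e1] at h2
  norm_num at h1 ⊢
  calc _ ≤ _ := h1
    _ ≤ C * (C * DD b ε R ((1 / 2) ^ n) f (n + 2) (x 2) (e 2)) :=
        mul_le_mul_of_nonneg_left h2 hC.le
    _ = _ := by ring

/-- the mass of level 0 is bounded by the inner mass of level 2 -/
lemma mass_low (hTW : StmtTW) (hSC : StmtSC) (hMA : StmtMA) (hd : 2 ≤ d) {M c0 ε : ℝ}
    (hε : 0 < ε) (hε1 : ε ≤ 1) {b : Sp d → ℝ} (hb : BaseKer 2 M c0 b) {R0 : ℝ}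
    (hR0 : 200 + 8 * d ≤ R0) : ∃ C : ℝ, 0 < C ∧
    ∀ (E : Type) [NormedAddCommGroup E] [InnerProductSpace ℝ E] [FiniteDimensional ℝ E],
    ∀ (R : ℝ), 4 * R0 + 10 ≤ R → ∀ f : Sp d → E, Continuous f → HasCompactSupport f →
    ∀ (n : ℕ) (x : ℕ → Sp d) (e : ℕ → E), Tower x e →
      ma b ε R0 ((1 / 2) ^ n) f n 0 ≤ 4 ^ (d - 1) * Mi R0 (rs (x 2) 4 f) (e 2) +
        C * DD b ε R ((1 / 2) ^ n) f (n + 2) (x 2) (e 2) := by
  have hd0 : (0 : ℝ) ≤ d := Nat.cast_nonneg d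
  have hd1 : 1 ≤ d := by omega
  obtain ⟨C1, hC1, h1⟩ := DD02 hTW hSC hd hε hε1 hb (R0 := R0) (by linarith)
  obtain ⟨C2, hC2, h2⟩ := MA' hMA hd1 hε hε1 hb
  obtain ⟨N, hN, hz⟩ := TFn_of_cs (J := 2) (ζ := (zR (R0 / 3) : Sp d → ℝ))
    (contDiff_infty.1 (zR_smooth (by linarith)) 2) (zR_cs _)
  refine ⟨C2 * N * C1, by positivity, ?_⟩
  intro E _ _ _ R hR f hf hfc n x e hT
  obtain ⟨hx1, hx2, hx3⟩ := tower_le hT
  have hsd := sqrt_le_d (d := d) hd1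
  have hsd2 : Real.sqrt d ≤ (1 + d) / 2 := by
    have := Real.sqrt_nonneg (d : ℝ)
    nlinarith [Real.sq_sqrt hd0, sq_nonneg (Real.sqrt d - 1)]
  set H : Sp d → ℝ := fun y => zR (R0 / 3) (-(1 / 4 : ℝ) • x 2 + (1 / 4 : ℝ) • y) with hH
  have hHT : TFn 2 N H := by
    have := TFn_aff hz (-(1 / 4 : ℝ) • x 2) (t := 1 / 4) (by norm_num)
    have e1 : max 1 |(1 / 4 : ℝ)| = 1 := by
      rw [abs_of_pos (by norm_num)]
      norm_num
    rwa [e1, one_pow, one_mul] at this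
  have hnorm : ∀ y : Sp d, ‖-(1 / 4 : ℝ) • x 2 + (1 / 4 : ℝ) • y‖ ≤ (‖x 2‖ + ‖y‖) / 4 := by
    intro y
    refine (norm_add_le _ _).trans ?_
    rw [norm_smul, norm_smul]
    norm_num
    linarith
  have hnorm' : ∀ y : Sp d, (‖y‖ - ‖x 2‖) / 4 ≤ ‖-(1 / 4 : ℝ) • x 2 + (1 / 4 : ℝ) • y‖ := by
    intro y
    have h3 : -(1 / 4 : ℝ) • x 2 + (1 / 4 : ℝ) • y = (1 / 4 : ℝ) • (y - x 2) := by module
    rw [h3, norm_smul]
    norm_num
    linarith [norm_sub_norm_le y (x 2)]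
  have h3 := (h2 E f hf hfc R (by linarith) n (e 2) (hT.unit 2) 0 (ball 0 R0)
    measurableSet_ball).2 H N 1 one_pos hHT (fun y => zR_nonneg _ _) (fun y hy => by
      rw [sub_zero] at hy
      refine zR_zero ?_
      have := hnorm' y
      linarith) (fun y z hy hz => by
      have h4 : ‖z‖ ≤ R0 + 2 := by
        rw [mem_ball, dist_zero_right] at hy
        have := norm_add_le (z - y) y
        rw [sub_add_cancel] at this
        linarith
      have h5 := hnorm z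
      refine le_of_eq (zR_one ?_).symm
      linarith)
  rw [one_mul, ← ma_u] at h3
  have h4 : ∫ y, ⟪f y, e 2⟫_ℝ * H y = 4 ^ (d - 1) * Mi R0 (rs (x 2) 4 f) (e 2) := by
    rw [int_frame hd1 f (e 2) (x 2) (by norm_num : (0 : ℝ) < 4) H]
    congr 1
    unfold Mi
    congr 1
    funext y
    congr 1
    simp only [hH]
    congr 1
    rw [smul_add, smul_smul]
    module
  rw [h4] at h3
  have h5 := h1 E R hR f hf hfc n x e hT
  have h6 := mul_le_mul_of_nonneg_left h5 (show 0 ≤ C2 * N by positivity)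
  linarith

/-- the inner mass of level 2 is bounded by the mass -/
lemma mass_up (hSC : StmtSC) (hMA : StmtMA) (hd : 2 ≤ d) {M c0 ε : ℝ}
    (hε : 0 < ε) (hε1 : ε ≤ 1) {b : Sp d → ℝ} (hb : BaseKer 2 M c0 b) {R0 : ℝ}
    (hR0 : 200 + 8 * d ≤ R0) : ∃ C : ℝ, 0 < C ∧
    ∀ (E : Type) [NormedAddCommGroup E] [InnerProductSpace ℝ E] [FiniteDimensional ℝ E],
    ∀ (R : ℝ), 4 * R0 + 10 ≤ R → ∀ f : Sp d → E, Continuous f → HasCompactSupport f →
    ∀ (n : ℕ) (x : ℕ → Sp d) (e : ℕ → E), Tower x e →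
      Mi R0 (rs (x 2) 4 f) (e 2) ≤ C * (ma b ε R0 ((1 / 2) ^ n) f (n + 2) (x 2) +
        DD b ε R ((1 / 2) ^ n) f (n + 2) (x 2) (e 2)) := by
  have hd0 : (0 : ℝ) ≤ d := Nat.cast_nonneg d
  obtain ⟨C1, hC1, h1⟩ := mass_unit hMA (by omega : 1 ≤ d) hε hε1 hb
  obtain ⟨N, hN, hz⟩ := TFn_of_cs (J := 2) (ζ := (zR (R0 / 3) : Sp d → ℝ))
    (contDiff_infty.1 (zR_smooth (by linarith)) 2) (zR_cs _)
  refine ⟨C1 * N, by positivity, ?_⟩
  intro E _ _ _ R hR f hf hfc n x e hT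
  have k2 := h1 E R0 R (by linarith) (by linarith) (rs (x 2) 4 f) (rs_cont hf _ _)
    (rs_cs hfc _ (by norm_num)) (n + 2) (e 2) (hT.unit 2) _ N hz (fun y hy => zR_zero (by linarith))
  have e4 : (2 : ℝ) ^ 2 = 4 := by norm_num
  have hm := ma_fr hSC hd hε hε1 hb hf hfc n 2 (x 2) R0 (n + 2) 0
  have hD := DD_fr hSC hd hε hε1 hb hf hfc n 2 (x 2) R (n + 2) 0 (e 2)
  rw [smul_zero, add_zero, e4] at hm hD
  rw [hm, hD] at k2
  exact (le_abs_self _).trans k2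

lemma half_le_wq (r : ℕ) : ((1 / 2 : ℝ)) ^ r ≤ wq (1 / 2) r := by
  unfold wq
  have h1 : ((1 / 2 : ℝ)) ^ r = (2 : ℝ) ^ (-(r : ℝ)) := by
    rw [Real.rpow_neg (by norm_num), Real.rpow_natCast]
    rw [one_div, inv_pow]
  rw [h1]
  apply Real.rpow_le_rpow_of_exponent_le (by norm_num)
  have hr : (0 : ℝ) ≤ r := Nat.cast_nonneg r
  linarith

lemma wq_pos (q : ℝ) (r : ℕ) : 0 < wq q r := by
  unfold wq
  positivity

/-- a term of a sum, for the levels at most 2 -/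
lemma term2 {β : ℕ → ℝ} (h0 : ∀ r, 0 ≤ β r) {B : ℝ}
    (h : ∀ I : ℕ, ∑ r ∈ Finset.range I, wq (1 / 2) r * β r ≤ B) {r : ℕ} (hr : r ≤ 2) :
    β r ≤ 2 * B := by
  have h1 := h (r + 1)
  have h2 : wq (1 / 2) r * β r ≤ ∑ r ∈ Finset.range (r + 1), wq (1 / 2) r * β r :=
    Finset.single_le_sum (f := fun r => wq (1 / 2) r * β r)
      (fun i _ => mul_nonneg (wq_pos _ _).le (h0 i)) (Finset.mem_range.2 (by omega))
  have h3 : (1 / 2 : ℝ) ≤ wq (1 / 2) r := by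
    unfold wq
    have h4 : (1 / 2 : ℝ) = (2 : ℝ) ^ (-1 : ℝ) := by
      rw [Real.rpow_neg_one]
      norm_num
    rw [h4]
    apply Real.rpow_le_rpow_of_exponent_le (by norm_num)
    have hr' : (r : ℝ) ≤ 2 := by exact_mod_cast hr
    rw [Real.rpow_neg_one]
    linarith
  have h4 := mul_le_mul_of_nonneg_right h3 (h0 r)
  linarith

/-- the sums for a tilted plane -/
def SumsS : Prop := ∀ (d : ℕ), 2 ≤ d → ∀ (M c0 ε : ℝ), 0 < ε → ε ≤ 1 →
    ∀ (b : Sp d → ℝ), BaseKer 2 M c0 b → ∀ (R0 γ K : ℝ), 200 + 8 * d ≤ R0 → 0 < γ →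
    γ ≤ 1 / (8 * d) → 1 ≤ K → ∃ C : ℝ, 0 < C ∧
    ∀ (E : Type) [NormedAddCommGroup E] [InnerProductSpace ℝ E] [FiniteDimensional ℝ E],
    ∀ (R : ℝ), 4 * R0 + 10 ≤ R → ∀ (n : ℕ) (f : Sp d → E), Continuous f → HasCompactSupport f →
    ∀ (x : ℕ → Sp d) (e : ℕ → E), Tower x e → ∀ a : ℝ, 0 < a →
      (∀ r : ℕ, ma b ε R0 ((1 / 2) ^ n) f (n + r) (x r) ≤ K * (2 : ℝ) ^ (γ * r) * a) →
      ∀ (ν ν' : Sp d) (c c' B T : ℝ), ‖ν‖ = 1 → ‖ν'‖ = 1 → |c| ≤ R0 + 3 → |c'| ≤ R0 + 4 →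
        ‖ν' - ν‖ ^ 2 + (c' - c) ^ 2 ≤ T →
        (∀ I : ℕ, ∑ r ∈ Finset.range I, wq (1 / 2) r *
          bD b ε R0 R ((1 / 2) ^ n) f (n + r) (x r) (e r) ν c ≤ B) →
        ∀ I : ℕ, ∑ r ∈ Finset.range I, wq (1 / 2) r *
          bD b ε R0 R ((1 / 2) ^ n) f (n + r) (x r) (e r) ν' c' ≤ C * (B + T * (a + B))

end

end SS2

open TU SAFm SS2 in
/-- MODULE SS from module SAF -/
theorem stmtSS_of_SAF (hSAF : StmtSAF) (hMA : StmtMA) (hTW : StmtTW) (hSC : StmtSC)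
    (hSD : StmtSD) (hSu : SumsS) : StmtSS := by
  intro d V E _ _ _ _ _ _ L hd hL
  obtain ⟨J, HJ⟩ := hSAF d V E L hd hL
  refine ⟨J, ?_⟩
  intro M c0 ε hε hε1 b hb R0 γ K hR0 hγ hγ1 hK
  obtain ⟨CS, κS, hCS, hκS, H⟩ := HJ M c0 ε hε hε1 b hb R0 hR0
  obtain ⟨C1, hC1, h1⟩ := mass_low hTW hSC hMA hd hε hε1 hb hR0
  obtain ⟨C2, hC2, h2⟩ := mass_up hSC hMA hd hε hε1 hb hR0
  obtain ⟨C4, hC4, h4⟩ := hSu d hd M c0 ε hε hε1 b hb R0 γ K hR0 hγ hγ1 hK
  obtain ⟨P, hP⟩ : ∃ P : ℝ, P = 4 ^ (d - 1) := ⟨_, rfl⟩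
  have hP1 : 1 ≤ P := by
    rw [hP]
    exact one_le_pow₀ (by norm_num)
  have hP0 : 0 < P := by linarith
  obtain ⟨Lam, hLam⟩ : ∃ Lam : ℝ, Lam = 4 * K * P := ⟨_, rfl⟩
  have hLam1 : 1 ≤ Lam := by
    rw [hLam]
    nlinarith
  have hLam0 : 0 < Lam := by linarith
  have hd1 : (1 : ℝ) ≤ d := by exact_mod_cast (by omega : 1 ≤ d)
  obtain ⟨κ, hκ⟩ : ∃ κ : ℝ, κ = min (min 1 (1 / (4 * C1)))
    (min (κS / (4 * P * Lam ^ 2)) (1 / (2 * P * CS * Lam))) := ⟨_, rfl⟩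
  have hκ0 : 0 < κ := by
    rw [hκ]
    refine lt_min (lt_min one_pos (by positivity)) (lt_min (by positivity) (by positivity))
  have k1 : κ ≤ 1 := by
    rw [hκ]
    exact (min_le_left _ _).trans (min_le_left _ _)
  have k2 : C1 * (2 * κ) ≤ 1 / 2 := by
    have : κ ≤ 1 / (4 * C1) := by
      rw [hκ]
      exact (min_le_left _ _).trans (min_le_right _ _)
    rw [le_div_iff₀ (by positivity)] at this
    linarith
  have k3 : 4 * P * Lam ^ 2 * κ ≤ κS := by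
    have : κ ≤ κS / (4 * P * Lam ^ 2) := by
      rw [hκ]
      exact (min_le_right _ _).trans (min_le_left _ _)
    rw [le_div_iff₀ (by positivity)] at this
    linarith
  have k4 : 2 * P * CS * Lam * κ ≤ 1 := by
    have : κ ≤ 1 / (2 * P * CS * Lam) := by
      rw [hκ]
      exact (min_le_right _ _).trans (min_le_right _ _)
    rw [le_div_iff₀ (by positivity)] at this
    linarith
  obtain ⟨C3, hC3⟩ : ∃ C3 : ℝ, C3 = C2 * (4 * K + 2) := ⟨_, rfl⟩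
  have hC30 : 0 < C3 := by
    rw [hC3]
    positivity
  obtain ⟨C, hC⟩ : ∃ C : ℝ, C = 2 * P * CS * Lam + CS * Lam * C3 +
    C4 * (1 + 4 * P * CS * Lam) + CS * Lam ^ 2 * (2 + 2 * CS) + 2 * CS + 2 * P * CS := ⟨_, rfl⟩
  have q1 : 0 ≤ 2 * P * CS * Lam := by positivity
  have q2 : 0 ≤ CS * Lam * C3 := by positivity
  have q3 : 0 ≤ C4 * (1 + 4 * P * CS * Lam) := by positivity
  have q4 : 0 ≤ CS * Lam ^ 2 * (2 + 2 * CS) := by positivity
  have q5 : 0 ≤ 2 * P * CS := by positivity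
  refine ⟨C, κ, by rw [hC]; positivity, hκ0, ?_⟩
  intro R hR n u hu x e hT a ha haeq hgr ν c B D hν hc hB hsum hD
  have hf : Continuous (fo L u) := by
    unfold fo
    exact L.continuous.comp (hu.smooth.continuous_fderiv (by simp))
  have hfc : HasCompactSupport (fo L u) := by
    have h : HasCompactSupport (fderiv ℝ u) := hu.supp.fderiv ℝ
    exact h.comp_left (map_zero L)
  have hBnn : ∀ r, 0 ≤ bD b ε R0 R ((1 / 2) ^ n) (fo L u) (n + r) (x r) (e r) ν c :=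
    fun r => bD_nn b ε R0 R n (n + r) _ _ (hT.unit r) ν c
  have hDnn : ∀ r, 0 ≤ DD b ε R ((1 / 2) ^ n) (fo L u) (n + r) (x r) (e r) :=
    fun r => DD_nonneg b ε R (by positivity) _ _ _ (hT.unit r)
  have hB0 : 0 ≤ B := by simpa using hsum 0
  have hD0 : 0 ≤ D := by simpa using hD 0
  have hb2 := term2 hBnn hsum (le_refl 2)
  have hd2 := DD_le_bD b ε R0 R n (n + 2) (fo L u) (x 2) (e 2) ν c
  have hD2 := fun (r : ℕ) (hr : r ≤ 2) => term2 hDnn hD hr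
  have m1 := h1 E R hR (fo L u) hf hfc n x e hT
  have m2' := h2 E R hR (fo L u) hf hfc n x e hT
  rw [← haeq, ← hP] at m1
  have g2 := hgr 2
  have hma2 := ma_nonneg b ε R0 (by positivity : (0 : ℝ) < (1 / 2) ^ n) (fo L u) (n + 2) (x 2)
  have e4 : (2 : ℝ) ^ 2 = 4 := by norm_num
  have fb := bD_fr hSC hSD hd hε hε1 hb hf hfc n 2 (x 2) R0 R (e 2) ν c
  have fm := ma_fr hSC hd hε hε1 hb hf hfc n 2 (x 2) R0 (n + 2) 0
  rw [smul_zero, add_zero] at fm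
  rw [e4] at fb fm
  obtain ⟨m2, hm2⟩ : ∃ m2 : ℝ, m2 = Mi R0 (rs (x 2) 4 (fo L u)) (e 2) := ⟨_, rfl⟩
  have hgg : (2 : ℝ) ^ (γ * (2 : ℕ)) ≤ 2 := by
    have h5 : (2 : ℝ) ^ (γ * (2 : ℕ)) ≤ (2 : ℝ) ^ (1 : ℝ) := by
      apply Real.rpow_le_rpow_of_exponent_le (by norm_num)
      have h6 : 1 / (8 * (d : ℝ)) ≤ 1 / 8 :=
        one_div_le_one_div_of_le (by norm_num) (by linarith)
      push_cast
      linarith
    rwa [Real.rpow_one] at h5
  have g3 : ma b ε R0 ((1 / 2) ^ n) (fo L u) (n + 2) (x 2) ≤ 2 * K * a := by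
    refine g2.trans ?_
    have h6 : K * (2 : ℝ) ^ (γ * (2 : ℕ)) ≤ K * 2 := mul_le_mul_of_nonneg_left hgg (by linarith)
    have := mul_le_mul_of_nonneg_right h6 ha.le
    linarith
  rw [← hm2] at m1 m2'
  -- smallness
  have hC1D : C1 * DD b ε R ((1 / 2) ^ n) (fo L u) (n + 2) (x 2) (e 2) ≤ 1 / 2 * a := by
    have h6 : DD b ε R ((1 / 2) ^ n) (fo L u) (n + 2) (x 2) (e 2) ≤ 2 * κ * a := by linarith
    calc _ ≤ C1 * (2 * κ * a) := mul_le_mul_of_nonneg_left h6 hC1.le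
      _ = C1 * (2 * κ) * a := by ring
      _ ≤ 1 / 2 * a := mul_le_mul_of_nonneg_right k2 ha.le
  have ham : a ≤ 2 * P * m2 := by linarith
  have hm20 : 0 < m2 := by
    by_contra hh
    have : P * m2 ≤ 0 := mul_nonpos_of_nonneg_of_nonpos hP0.le (not_lt.1 hh)
    linarith
  have hBm : 2 * B ≤ 4 * P * κ * m2 := by
    have : κ * a ≤ κ * (2 * P * m2) := mul_le_mul_of_nonneg_left ham hκ0.le
    linarith
  have hLm : ma b ε R0 ((1 / 2) ^ n) (fo L u) (n + 2) (x 2) ≤ Lam * m2 := by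
    refine g3.trans ?_
    have : 2 * K * a ≤ 2 * K * (2 * P * m2) := mul_le_mul_of_nonneg_left ham (by linarith)
    rw [hLam]
    linarith
  have hL2 : Lam ≤ Lam ^ 2 := by nlinarith
  have hL3 : 4 * P * κ ≤ κS := by
    have h6 : 4 * P * κ * 1 ≤ 4 * P * κ * Lam ^ 2 :=
      mul_le_mul_of_nonneg_left (by nlinarith) (by positivity)
    linarith
  have hL4 : 4 * P * κ * Lam ≤ κS := by
    have h6 : 4 * P * κ * Lam ≤ 4 * P * κ * Lam ^ 2 :=
      mul_le_mul_of_nonneg_left hL2 (by positivity)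
    linarith
  have hFlat : Flat b ε R0 R κS (rs (x 2) 4 (fo L u)) (n + 2) (e 2) ν ((c - ⟪ν, x 2⟫_ℝ) / 4) := by
    unfold Flat
    rw [fb, fm]
    change 0 < Mi R0 (rs (x 2) 4 (fo L u)) (e 2) ∧ _ ≤ κS * Mi R0 (rs (x 2) 4 (fo L u)) (e 2) ∧
      _ ≤ κS * Mi R0 (rs (x 2) 4 (fo L u)) (e 2) ^ 2
    rw [← hm2]
    refine ⟨hm20, ?_, ?_⟩
    · have := mul_le_mul_of_nonneg_right hL3 hm20.le
      linarith
    · have h6 := mul_le_mul hLm (hb2.trans hBm) (hBnn 2) (by positivity)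
      have h7 := mul_le_mul_of_nonneg_right hL4 (sq_nonneg m2)
      refine h6.trans ?_
      calc Lam * m2 * (4 * P * κ * m2) = 4 * P * κ * Lam * m2 ^ 2 := by ring
        _ ≤ _ := h7
  have hLB : Lam ^ 2 * B ≤ κS * m2 := by
    have h6 := mul_le_mul_of_nonneg_left hBm (show 0 ≤ Lam ^ 2 by positivity)
    have h7 := mul_le_mul_of_nonneg_right k3 hm20.le
    have h8 : 0 ≤ Lam ^ 2 * B := by positivity
    calc Lam ^ 2 * B ≤ Lam ^ 2 * (2 * B) := by linarith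
      _ ≤ Lam ^ 2 * (4 * P * κ * m2) := h6
      _ = 4 * P * Lam ^ 2 * κ * m2 := by ring
      _ ≤ _ := h7
  have hsum2 : ∀ I : ℕ, ∑ r ∈ Finset.range I, (1 / 2 : ℝ) ^ r *
      bD b ε R0 R ((1 / 2) ^ n) (fo L u) (n + r) (x r) (e r) ν c ≤ B := fun I =>
    (Finset.sum_le_sum fun r _ => mul_le_mul_of_nonneg_right (half_le_wq r) (hBnn r)).trans
      (hsum I)
  obtain ⟨ν', c', a', hν', t1, t2, t3, t4, t5⟩ := H R hR n u hu x e hT ν c B (2 * D) Lam m2 hν hc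
    hFlat hm2 hLam1 hLm hLB hsum2 hD2
  have ha' : 0 < a' := t5.ab0
  have hmC : m2 ≤ C3 * a := by
    have h6 : DD b ε R ((1 / 2) ^ n) (fo L u) (n + 2) (x 2) (e 2) ≤ 2 * a := by
      have := mul_le_mul_of_nonneg_right k1 ha.le
      linarith
    have h7 : ma b ε R0 ((1 / 2) ^ n) (fo L u) (n + 2) (x 2) +
        DD b ε R ((1 / 2) ^ n) (fo L u) (n + 2) (x 2) (e 2) ≤ (4 * K + 2) * a := by
      have : 0 ≤ K * a := by positivity
      linarith
    refine m2'.trans ((mul_le_mul_of_nonneg_left h7 hC2.le).trans (le_of_eq ?_))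
    rw [hC3]
    ring
  have htn : 0 ≤ ‖ν' - ν‖ ^ 2 + (c' - c) ^ 2 := by positivity
  have u1 : a * (‖ν' - ν‖ ^ 2 + (c' - c) ^ 2) ≤ 2 * P * CS * Lam * B := by
    have h6 := mul_le_mul_of_nonneg_right ham htn
    have h7 := mul_le_mul_of_nonneg_left t1 (show 0 ≤ 2 * P by positivity)
    calc _ ≤ 2 * P * m2 * (‖ν' - ν‖ ^ 2 + (c' - c) ^ 2) := h6
      _ = 2 * P * (m2 * (‖ν' - ν‖ ^ 2 + (c' - c) ^ 2)) := by ring
      _ ≤ 2 * P * (CS * Lam * B) := h7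
      _ = _ := by ring
  have u2 : ‖ν' - ν‖ ^ 2 + (c' - c) ^ 2 ≤ 2 * P * CS * Lam * B / a := by
    rw [le_div_iff₀ ha]
    linarith
  have u3 : 2 * P * CS * Lam * B ≤ a := by
    have h6 := mul_le_mul_of_nonneg_left hB q1
    have h7 := mul_le_mul_of_nonneg_right k4 ha.le
    linarith
  have u4 : |c'| ≤ R0 + 4 := by
    have h6 : (c' - c) ^ 2 ≤ 1 := by
      have h7 : 2 * P * CS * Lam * B / a ≤ 1 := by
        rw [div_le_one ha]
        exact u3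
      have := sq_nonneg ‖ν' - ν‖
      linarith
    have h8 : |c' - c| ≤ 1 := by
      rw [← sq_abs] at h6
      nlinarith [abs_nonneg (c' - c)]
    calc |c'| = |c + (c' - c)| := by ring_nf
      _ ≤ |c| + |c' - c| := abs_add_le _ _
      _ ≤ R0 + 4 := by linarith
  refine ⟨ν', c', a', hν', ?_, ?_, ?_, ?_, ?_⟩
  · refine u1.trans (mul_le_mul_of_nonneg_right ?_ hB0)
    rw [hC]
    linarith
  · have h6 := mul_le_mul_of_nonneg_left t2 (show 0 ≤ 2 * P by positivity)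
    have h7 : 2 * P * CS ≤ C := by
      rw [hC]
      linarith
    have h8 := mul_le_mul_of_nonneg_right h7 ha'.le
    linarith
  · have h6 := mul_le_mul_of_nonneg_left hmC (show 0 ≤ CS * Lam by positivity)
    have h7 : CS * Lam * C3 ≤ C := by
      rw [hC]
      linarith
    have h8 := mul_le_mul_of_nonneg_right h7 ha.le
    linarith
  · intro I
    have h6 := h4 E R hR n (fo L u) hf hfc x e hT a ha hgr ν ν' c c' B _ hν hν' hc u4 u2 hsum I
    refine h6.trans ?_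
    have h7 : 2 * P * CS * Lam * B / a * (a + B) ≤ 4 * P * CS * Lam * B := by
      have h8 : B ≤ a := by
        have := mul_le_mul_of_nonneg_right k1 ha.le
        linarith
      calc 2 * P * CS * Lam * B / a * (a + B) ≤ 2 * P * CS * Lam * B / a * (a + a) :=
            mul_le_mul_of_nonneg_left (by linarith) (by positivity)
        _ = 4 * P * CS * Lam * B := by
            field_simp
            ring
    have h9 : C4 * (B + 2 * P * CS * Lam * B / a * (a + B)) ≤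
        C4 * (1 + 4 * P * CS * Lam) * B := by
      have := mul_le_mul_of_nonneg_left h7 hC4.le
      linarith
    refine h9.trans (mul_le_mul_of_nonneg_right ?_ hB0)
    rw [hC]
    linarith
  · have hs1 : Real.sqrt (m2 * (2 * D)) ≤ (1 + 2 * CS) * Real.sqrt (a' * D) := by
      have h6 : m2 * (2 * D) ≤ (1 + 2 * CS) ^ 2 * (a' * D) := by
        have h7 := mul_le_mul_of_nonneg_right t2 (show 0 ≤ 2 * D by positivity)
        have h8 : 0 ≤ a' * D := by positivity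
        nlinarith [mul_nonneg (show 0 ≤ 1 + 2 * CS + 4 * CS ^ 2 by positivity) h8]
      refine (Real.sqrt_le_sqrt h6).trans (le_of_eq ?_)
      rw [Real.sqrt_mul (by positivity), Real.sqrt_sq (by positivity)]
    have hs0 : 0 ≤ Real.sqrt (a' * D) := Real.sqrt_nonneg _
    refine FS_sheet_mono t5 ?_ ?_
    · have h6 : CS * Lam ^ 2 * (2 + 2 * CS) ≤ C := by
        rw [hC]
        linarith
      have h7 : 0 ≤ CS * Lam ^ 2 := by positivity
      calc CS * Lam ^ 2 * (B + Real.sqrt (m2 * (2 * D)))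
          ≤ CS * Lam ^ 2 * ((2 + 2 * CS) * (B + Real.sqrt (a' * D))) := by
            refine mul_le_mul_of_nonneg_left ?_ h7
            have : 0 ≤ (1 + 2 * CS) * B := by positivity
            linarith
        _ = CS * Lam ^ 2 * (2 + 2 * CS) * (B + Real.sqrt (a' * D)) := by ring
        _ ≤ C * (B + Real.sqrt (a' * D)) := mul_le_mul_of_nonneg_right h6 (by positivity)
    · have h6 : 2 * CS ≤ C := by
        rw [hC]
        linarith
      have := mul_le_mul_of_nonneg_right h6 hD0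
      linarith

end TG
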