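import Pool.Agent.TG.SAS
import Pool.Agent.TG.SS2

/-!
# Module SS: the sums for a tilted plane in the form of SS2 (helper70)
-/

namespace TG

theorem SS2.sumsS (hZ : StmtZ) (hTW : StmtTW) (hSC : StmtSC) (hSD : StmtSD) : SS2.SumsS := by
  intro d hd M c0 ε hε hε1 b hb R0 γ K hR0 hγ hγ1 hK
  exact SAm.sums hZ hTW hSC hSD hd hε hε1 hb hR0 hγ hγ1 hK

end TG
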