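import Pool.Agent.TG.SHT
import Pool.Agent.TG.TQ
import Pool.Agent.TR.VK
import Pool.Agent.TR.RKG

/-!
# Polynomials are controlled by tests supported in a small ball (MP_287c87_an; helper22)
-/

set_option linter.unusedSectionVars false

open MeasureTheory Metric Set TrI
open scoped InnerProductSpace ContDiff Nat

namespace TG
namespace SH

variable {d : ℕ}

theorem tfn_comp_sub {F : Type*} [NormedAddCommGroup F] [NormedSpace ℝ F] {J : ℕ} {N : ℝ}
    {g : Sp d → F} (h : TFn J N g) (a : Sp d) : TFn J N (fun x => g (x - a)) := by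
  refine ⟨h.smooth.comp (contDiff_id.sub contDiff_const), fun j hj x => ?_⟩
  rw [iteratedFDeriv_comp_sub]
  exact h.bd j hj _

theorem norm_le_of_inner {E : Type*} [NormedAddCommGroup E] [InnerProductSpace ℝ E] {a : E} {B : ℝ}
    (hB : 0 ≤ B) (h : ∀ w : E, ‖w‖ ≤ 1 → ⟪a, w⟫_ℝ ≤ B) : ‖a‖ ≤ B := by
  by_cases ha : a = 0
  · rw [ha, norm_zero]; exact hB
  · have hn : 0 < ‖a‖ := norm_pos_iff.2 ha
    have h1 := h (‖a‖⁻¹ • a) (by rw [norm_smul, norm_inv, norm_norm, inv_mul_cancel₀ hn.ne'])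
    rw [inner_smul_right, real_inner_self_eq_norm_sq, sq, ← mul_assoc, inv_mul_cancel₀ hn.ne',
      one_mul] at h1
    exact h1

/-- change of variables -/
theorem cov_s {s : ℝ} (hs : 0 < s) (c1 : Sp d) (G : Sp d → ℝ) :
    ∫ z, G (s⁻¹ • (z - c1)) = s ^ d * ∫ y, G y := by
  rw [integral_sub_right_eq_self (fun z => G (s⁻¹ • z)) c1, Measure.integral_comp_smul]
  rw [finrank_euclideanSpace, Fintype.card_fin, inv_pow, inv_inv, abs_of_pos (by positivity),
    smul_eq_mul]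

theorem poly_bd (d m J : ℕ) {ρ R : ℝ} (hρ : 0 < ρ) (hR : 0 ≤ R) : ∃ C : ℝ, 0 < C ∧
    ∀ (E : Type) [NormedAddCommGroup E] [InnerProductSpace ℝ E] [FiniteDimensional ℝ E]
      (q : Sp d → E), ContDiff ℝ ∞ q → (∀ x, iteratedFDeriv ℝ (m + 1) q x = 0) →
      ∀ (c1 : Sp d) (B : ℝ), ‖c1‖ ≤ R → 0 ≤ B →
      (∀ (Y : Sp d → E) (N : ℝ), TFn J N Y → (∀ y, Y y ≠ 0 → ‖y - c1‖ ≤ ρ) →
        |∫ y, ⟪q y, Y y⟫_ℝ| ≤ N * B) →
      ∀ x, ‖x‖ ≤ R → ‖q x‖ ≤ C * B := by
  obtain ⟨ψ, hψ⟩ := VK.main d m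
  -- kernels
  have hK : ∀ k : ℕ, ∃ N : ℝ, 0 < N ∧
      TFn J N (fun z : Sp d => iteratedFDeriv ℝ k ψ (ρ⁻¹ • z)) := by
    intro k
    refine tfn_of_cs ?_ ?_
    · have h1 : ContDiff ℝ J (iteratedFDeriv ℝ k ψ) :=
        (hψ.smooth.iteratedFDeriv_right (m := ∞) (by exact_mod_cast le_top)).of_le
          (by exact_mod_cast le_top)
      exact h1.comp (contDiff_const_smul _)
    · refine HasCompactSupport.intro (isCompact_closedBall (0 : Sp d) ρ) fun y hy => ?_
      rw [mem_closedBall_zero_iff, not_le] at hy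
      refine iteratedFDeriv_vanish hψ.smooth hψ.supp k _ ?_
      rw [norm_smul, norm_inv, Real.norm_eq_abs, abs_of_pos hρ, inv_mul_eq_div, le_div_iff₀ hρ]
      linarith
  choose Nk hNk hKt using hK
  refine ⟨∑ k ∈ Finset.range (m + 1), (k ! : ℝ)⁻¹ * ((ρ⁻¹) ^ k * (ρ ^ d)⁻¹ * (2 * R) ^ k * Nk k) + 1,
    ?_, ?_⟩
  · have : 0 ≤ ∑ k ∈ Finset.range (m + 1),
        (k ! : ℝ)⁻¹ * ((ρ⁻¹) ^ k * (ρ ^ d)⁻¹ * (2 * R) ^ k * Nk k) :=
      Finset.sum_nonneg fun k _ => by
        have := (hNk k).le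
        positivity
    linarith
  intro E _ _ _ q hq hqm c1 B hc1 hB htest x hx
  have hqc : Continuous q := hq.continuous
  -- the average reproduces q
  have hav : avk ψ ρ q = q := by
    funext z
    have h1 := avk_taylor hψ hq ρ z
    simp only [hqm, zero_apply, smul_zero, integral_zero] at h1
    exact sub_eq_zero.1 h1
  have hder : ∀ k : ℕ, ∀ v : Sp d, ‖v‖ ≤ 2 * R → ‖iteratedFDeriv ℝ k q c1 (fun _ => v)‖ ≤
      (ρ⁻¹) ^ k * (ρ ^ d)⁻¹ * (2 * R) ^ k * Nk k * B := by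
    intro k v hv
    have hk0 := (hNk k).le
    refine norm_le_of_inner (by positivity) fun w hw => ?_
    have h1 := stmtKD d E ψ hψ.smooth hψ.supp q hqc ρ hρ k c1
    rw [hav] at h1
    have hint : Integrable fun y => (iteratedFDeriv ℝ k ψ y).smulRight (q (c1 + ρ • y)) := by
      refine Continuous.integrable_of_hasCompactSupport ?_ ?_
      · have e1 : Continuous (iteratedFDeriv ℝ k ψ) :=
          hψ.smooth.continuous_iteratedFDeriv (by exact_mod_cast le_top)
        have e2 : Continuous fun y : Sp d => q (c1 + ρ • y) := by fun_prop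
        exact (ContinuousMultilinearMap.smulRightL ℝ (fun _ : Fin k => Sp d) E).continuous₂.comp
          (e1.prodMk e2)
      · refine HasCompactSupport.intro (isCompact_closedBall (0 : Sp d) 1) fun y hy => ?_
        rw [mem_closedBall_zero_iff, not_le] at hy
        rw [iteratedFDeriv_vanish hψ.smooth hψ.supp k y hy.le]
        ext
        simp
    have h2 : iteratedFDeriv ℝ k q c1 (fun _ => v) =
        (-1 / ρ) ^ k • ∫ y, (iteratedFDeriv ℝ k ψ y (fun _ => v)) • q (c1 + ρ • y) := by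
      rw [h1, smul_apply]
      congr 1
      exact ((ContinuousMultilinearMap.apply ℝ (fun _ : Fin k => Sp d) E
        (fun _ => v)).integral_comp_comm hint).symm
    have hint2 : Integrable fun y => (iteratedFDeriv ℝ k ψ y (fun _ => v)) • q (c1 + ρ • y) :=
      (ContinuousMultilinearMap.apply ℝ (fun _ : Fin k => Sp d) E
        (fun _ => v)).integrable_comp hint
    -- the test
    set A : ContinuousMultilinearMap ℝ (fun _ : Fin k => Sp d) ℝ →L[ℝ] E :=
      ((-1 / ρ) ^ k * (ρ ^ d)⁻¹) • (ContinuousMultilinearMap.apply ℝ (fun _ : Fin k => Sp d) ℝ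
        (fun _ => v)).smulRight w with hA
    have hAn : ‖A‖ ≤ (ρ⁻¹) ^ k * (ρ ^ d)⁻¹ * (2 * R) ^ k := by
      refine ContinuousLinearMap.opNorm_le_bound _ (by positivity) fun M => ?_
      have e1 : A M = ((-1 / ρ) ^ k * (ρ ^ d)⁻¹) • (M (fun _ => v) • w) := rfl
      rw [e1, norm_smul, norm_smul, norm_mul, norm_pow, norm_div, norm_neg, norm_one,
        Real.norm_eq_abs, abs_of_pos hρ, norm_inv, norm_pow, Real.norm_eq_abs, abs_of_pos hρ,
        one_div]
      have e2 : ‖M (fun _ => v)‖ ≤ ‖M‖ * (2 * R) ^ k := by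
        refine (M.le_opNorm _).trans ?_
        rw [Finset.prod_const, Finset.card_univ, Fintype.card_fin]
        gcongr
      calc (ρ⁻¹) ^ k * (ρ ^ d)⁻¹ * (‖M (fun _ => v)‖ * ‖w‖)
          ≤ (ρ⁻¹) ^ k * (ρ ^ d)⁻¹ * ((‖M‖ * (2 * R) ^ k) * 1) := by gcongr
        _ = _ := by ring
    set Y : Sp d → E := fun z => A (iteratedFDeriv ℝ k ψ (ρ⁻¹ • (z - c1))) with hY
    have hYt : TFn J ((ρ⁻¹) ^ k * (ρ ^ d)⁻¹ * (2 * R) ^ k * Nk k) Y := by
      refine tfn_le (tfn_clm A (tfn_comp_sub (hKt k) c1)) le_rfl ?_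
      gcongr
    have hYs : ∀ y, Y y ≠ 0 → ‖y - c1‖ ≤ ρ := by
      intro y hy
      by_contra h
      push Not at h
      apply hy
      simp only [hY]
      rw [iteratedFDeriv_vanish hψ.smooth hψ.supp k, map_zero]
      rw [norm_smul, norm_inv, Real.norm_eq_abs, abs_of_pos hρ, inv_mul_eq_div, le_div_iff₀ hρ]
      linarith
    have h3 := htest Y _ hYt hYs
    have h4 : ∫ y, ⟪q y, Y y⟫_ℝ = ⟪iteratedFDeriv ℝ k q c1 (fun _ => v), w⟫_ℝ := by
      rw [h2, inner_smul_left]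
      have e1 : ⟪∫ y, (iteratedFDeriv ℝ k ψ y (fun _ => v)) • q (c1 + ρ • y), w⟫_ℝ =
          ∫ y, ⟪(iteratedFDeriv ℝ k ψ y (fun _ => v)) • q (c1 + ρ • y), w⟫_ℝ := by
        rw [real_inner_comm]
        have := ((innerSL ℝ w).integral_comp_comm hint2)
        simp only [innerSL_apply_apply] at this
        rw [← this]
        refine integral_congr_ae (Filter.Eventually.of_forall fun y => ?_)
        exact real_inner_comm _ _
      rw [e1]
      set G : Sp d → ℝ := fun y =>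
        ⟪(iteratedFDeriv ℝ k ψ y (fun _ => v)) • q (c1 + ρ • y), w⟫_ℝ with hG
      have e2 : ∀ y, ⟪q y, Y y⟫_ℝ = ((-1 / ρ) ^ k * (ρ ^ d)⁻¹) * G (ρ⁻¹ • (y - c1)) := by
        intro y
        have e3 : c1 + ρ • (ρ⁻¹ • (y - c1)) = y := by
          rw [smul_smul, mul_inv_cancel₀ hρ.ne', one_smul]
          abel
        simp only [hY, hG, e3, inner_smul_left]
        have e4 : A (iteratedFDeriv ℝ k ψ (ρ⁻¹ • (y - c1))) = ((-1 / ρ) ^ k * (ρ ^ d)⁻¹) •
          (iteratedFDeriv ℝ k ψ (ρ⁻¹ • (y - c1)) (fun _ => v) • w) := rfl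
        rw [e4, inner_smul_right, inner_smul_right]
        simp
      rw [integral_congr_ae (Filter.Eventually.of_forall e2), integral_const_mul, cov_s hρ c1 G]
      simp only [conj_trivial]
      have : (ρ ^ d) ≠ 0 := by positivity
      field_simp
    rw [h4] at h3
    exact (le_abs_self _).trans h3
  -- Taylor
  rw [← eq_taylor hq hqm x c1]
  refine (norm_sum_le _ _).trans ?_
  have hxc : ‖x - c1‖ ≤ 2 * R := (norm_sub_le _ _).trans (by linarith)
  calc ∑ k ∈ Finset.range (m + 1), ‖(k ! : ℝ)⁻¹ • iteratedFDeriv ℝ k q c1 (fun _ => x - c1)‖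
      ≤ ∑ k ∈ Finset.range (m + 1),
        (k ! : ℝ)⁻¹ * ((ρ⁻¹) ^ k * (ρ ^ d)⁻¹ * (2 * R) ^ k * Nk k) * B := by
        refine Finset.sum_le_sum fun k _ => ?_
        rw [norm_smul, norm_inv, Real.norm_eq_abs, abs_of_nonneg (by positivity), mul_assoc]
        gcongr
        exact hder k _ hxc
    _ ≤ _ := by
        rw [← Finset.sum_mul, add_mul, one_mul]
        linarith

end SH
end TG
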