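import Pool.Agent.TG.SHA4
import Pool.Agent.TG.SHP

/-!
# Module SHA: the jump identity on one level (MP_287c87_an; helper22)

The field `Φh = cu1 (Φ + z Φ1) + O(z²)` is mapped by the adjoint operator to a field supported in
`4 ≤ |z| ≤ 5`, which is tested against `u` minus averaged Taylor polynomials on the two sides; the
polynomials are integrated by parts over the half spaces.
-/

set_option linter.unusedSectionVars false

open MeasureTheory Metric Set TrI
open scoped InnerProductSpace ContDiff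

namespace TG
namespace SH

/-- tests supported on one side of the plane, against u minus an averaged Taylor polynomial -/
theorem side (hTP : StmtTP) (hZ : StmtZ) (hMA : StmtMA) (hPE : StmtPE)
    (d : ℕ) (V E : Type) [NormedAddCommGroup V] [InnerProductSpace ℝ V] [FiniteDimensional ℝ V]
    [NormedAddCommGroup E] [InnerProductSpace ℝ E] [FiniteDimensional ℝ E]
    (L : (Sp d →L[ℝ] V) →L[ℝ] E) (m : ℕ)
    (T : (ContinuousMultilinearMap ℝ (fun _ : Fin m => Sp d) E) →L[ℝ]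
      (ContinuousMultilinearMap ℝ (fun _ : Fin (m + 1) => Sp d) V)) (hd : 1 ≤ d) (hm : 1 ≤ m)
    (hNS : NSProp L m T) {M c0 ε : ℝ} (hε : 0 < ε) (hε1 : ε ≤ 1) {b : Sp d → ℝ}
    (hb : BaseKer 2 M c0 b) {R0 : ℝ} (hR0 : 100 ≤ R0) : ∃ C : ℝ, 0 < C ∧
    ∀ (R : ℝ), R0 + 10 ≤ R → ∀ (n : ℕ) (u : Sp d → V), TF u → ∀ e : E, ‖e‖ = 1 →
      ∀ (ν : Sp d) (c : ℝ), ‖ν‖ = 1 → |c| ≤ R0 / 3 → ∀ (σ : ℝ), (σ = 1 ∨ σ = -1) →
      ∀ (c1 : Sp d), ‖c1‖ ≤ R0 / 3 + 6 → σ * ht ν c c1 = 6 →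
      ∀ (g : Sp d → V) (N : ℝ), TFn (2 + m + 1) N g →
        (∀ y, g y ≠ 0 → 4 ≤ σ * ht ν c y ∧ ‖y‖ ≤ 5 / 6 * R0 + 7) →
        |∫ y, ⟪u y - ATP m c1 1 u y, g y⟫_ℝ| ≤
          C * N * bD b ε R0 R ((1 / 2) ^ n) (fo L u) n 0 e ν c := by
  obtain ⟨C1, hC1, h1⟩ := hTP d V E L m T hd hm hNS 2 1 R0 one_pos (by linarith)
  obtain ⟨C2, hC2, h2⟩ := off_plane hZ hMA hPE hd hε hε1 hb (by linarith : 10 ≤ R0)
  refine ⟨C2 * C1, by positivity, ?_⟩
  intro R hR n u hu e he ν c hν hc σ hσ c1 hc1 hσ1 g N hg hgs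
  have hf : ContDiff ℝ ∞ (fo L u) := by
    have : ContDiff ℝ ∞ (fderiv ℝ u) := hu.smooth.fderiv_right (m := ∞) le_rfl
    exact L.contDiff.comp this
  have hfs : HasCompactSupport (fo L u) := (hu.supp.fderiv ℝ).comp_left (map_zero _)
  have hσa : |σ| = 1 := by rcases hσ with rfl | rfl <;> simp
  obtain ⟨Y, hY1, hY2, hY3⟩ := h1 c1 1 (by linarith) le_rfl (by linarith) g N hg (fun y hy => by
    by_contra h
    have := (hgs y h).2
    linarith)
  rw [hY3 u hu.smooth]
  -- the hull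
  set H : Set (Sp d) := {y | 4 ≤ σ * ht ν c y} ∩ closedBall 0 (5 / 6 * R0 + 7) with hH
  have hHc : Convex ℝ H := by
    refine Convex.inter ?_ (convex_closedBall _ _)
    intro x hx y hy a b' ha hb' hab
    have e1 : ht ν c (a • x + b' • y) = a * ht ν c x + b' * ht ν c y := by
      unfold ht
      rw [inner_add_right, inner_smul_right, inner_smul_right]
      have : b' = 1 - a := by linarith
      rw [this]
      ring
    show 4 ≤ σ * ht ν c (a • x + b' • y)
    have hx' : 4 ≤ σ * ht ν c x := hx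
    have hy' : 4 ≤ σ * ht ν c y := hy
    rw [e1]
    nlinarith
  have hHcl : IsClosed H :=
    (isClosed_le continuous_const (continuous_const.mul (ht_continuous ν c))).inter
      isClosed_closedBall
  have hsub : convexHull ℝ (tsupport g ∪ closedBall c1 1) ⊆ H := by
    refine convexHull_min (union_subset ?_ ?_) hHc
    · refine closure_minimal (fun y hy => ?_) hHcl
      obtain ⟨q1, q2⟩ := hgs y hy
      exact ⟨q1, by rwa [mem_closedBall_zero_iff]⟩
    · intro y hy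
      rw [mem_closedBall, dist_eq_norm] at hy
      have e1 : ht ν c y = ht ν c c1 + ⟪ν, y - c1⟫_ℝ := by
        unfold ht
        rw [inner_sub_right]
        ring
      have e2 : |⟪ν, y - c1⟫_ℝ| ≤ 1 := by
        have := abs_real_inner_le_norm ν (y - c1)
        rw [hν, one_mul] at this
        linarith
      have e3 : |σ * ⟪ν, y - c1⟫_ℝ| ≤ 1 := by rw [abs_mul, hσa, one_mul]; exact e2
      refine ⟨?_, ?_⟩
      · show 4 ≤ σ * ht ν c y
        rw [e1, mul_add, hσ1]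
        have := (abs_le.1 e3).1
        linarith
      · rw [mem_closedBall_zero_iff]
        calc ‖y‖ = ‖(y - c1) + c1‖ := by rw [sub_add_cancel]
          _ ≤ ‖y - c1‖ + ‖c1‖ := norm_add_le _ _
          _ ≤ _ := by linarith
  have h3 := h2 E R hR (fo L u) hf.continuous hfs n e he ν c hν (by linarith) Y (C1 * N) hY1
    (fun y hy => by
      obtain ⟨q1, q2⟩ := hsub (hY2 y hy)
      rw [mem_closedBall_zero_iff] at q2
      refine ⟨?_, by linarith⟩
      have q3 : σ * ht ν c y ≤ |ht ν c y| := by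
        have := le_abs_self (σ * ht ν c y)
        rwa [abs_mul, hσa, one_mul] at this
      exact le_trans q1 q3)
  calc _ ≤ C2 * (C1 * N) * bD b ε R0 R ((1 / 2) ^ n) (fo L u) n 0 e ν c := h3
    _ = _ := by ring

/-- the operator applied to an averaged Taylor polynomial -/
theorem poly_side (hTP : StmtTP) (hZ : StmtZ) (hMA : StmtMA) (hPE : StmtPE)
    (d : ℕ) (V E : Type) [NormedAddCommGroup V] [InnerProductSpace ℝ V] [FiniteDimensional ℝ V]
    [NormedAddCommGroup E] [InnerProductSpace ℝ E] [FiniteDimensional ℝ E]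
    (L : (Sp d →L[ℝ] V) →L[ℝ] E) (m : ℕ)
    (T : (ContinuousMultilinearMap ℝ (fun _ : Fin m => Sp d) E) →L[ℝ]
      (ContinuousMultilinearMap ℝ (fun _ : Fin (m + 1) => Sp d) V)) (hd : 1 ≤ d) (hm : 1 ≤ m)
    (hNS : NSProp L m T) {M c0 ε : ℝ} (hε : 0 < ε) (hε1 : ε ≤ 1) {b : Sp d → ℝ}
    (hb : BaseKer 2 M c0 b) {R0 : ℝ} (hR0 : 100 ≤ R0) : ∃ C : ℝ, 0 < C ∧
    ∀ (R : ℝ), R0 + 10 ≤ R → ∀ (n : ℕ) (u : Sp d → V), TF u → ∀ e : E, ‖e‖ = 1 →
      ∀ (ν : Sp d) (c : ℝ), ‖ν‖ = 1 → |c| ≤ R0 / 3 → ∀ (σ : ℝ), (σ = 1 ∨ σ = -1) →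
      ∀ (c1 : Sp d), ‖c1‖ ≤ R0 / 3 + 6 → σ * ht ν c c1 = 6 →
      ∀ x, ‖x‖ ≤ R0 → ‖fo L (ATP m c1 1 u) x‖ ≤
          C * bD b ε R0 R ((1 / 2) ^ n) (fo L u) n 0 e ν c := by
  obtain ⟨C1, hC1, h1⟩ := side hTP hZ hMA hPE d V E L m T hd hm hNS hε hε1 hb hR0
  obtain ⟨C2, hC2, h2⟩ := off_plane hZ hMA hPE hd hε hε1 hb (by linarith : 10 ≤ R0)
  obtain ⟨C3, hC3, h3⟩ := poly_bd d m (m + 4) (ρ := 1) (R := R0) one_pos (by linarith)
  set D : ℝ := ‖DL L‖ with hD
  have hD0 : 0 ≤ D := (DL L).opNorm_nonneg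
  refine ⟨C3 * (C1 * D + C2), by positivity, ?_⟩
  intro R hR n u hu e he ν c hν hc σ hσ c1 hc1 hσ1 x hx
  have hf : ContDiff ℝ ∞ (fo L u) := by
    have : ContDiff ℝ ∞ (fderiv ℝ u) := hu.smooth.fderiv_right (m := ∞) le_rfl
    exact L.contDiff.comp this
  have hfs : HasCompactSupport (fo L u) := (hu.supp.fderiv ℝ).comp_left (map_zero _)
  have hσa : |σ| = 1 := by rcases hσ with rfl | rfl <;> simp
  have hDD := DD_nonneg b ε R (fo L u) n he
  have hbD := bD_ge b ε R0 R (fo L u) n e ν c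
  have hB0 : 0 ≤ bD b ε R0 R ((1 / 2) ^ n) (fo L u) n 0 e ν c := hDD.trans hbD
  obtain ⟨hP1, hP2, -⟩ := stmtTQ d V m u hd hu.smooth c1 1 one_pos
  set P := ATP m c1 1 u with hP
  have hq1 : ContDiff ℝ ∞ (fo L P) := by
    have : ContDiff ℝ ∞ (fderiv ℝ P) := hP1.fderiv_right (m := ∞) le_rfl
    exact L.contDiff.comp this
  have hq2 : ∀ x, iteratedFDeriv ℝ (m + 1) (fo L P) x = 0 := by
    intro x
    have e1 : ContDiff ℝ ∞ (fderiv ℝ P) := hP1.fderiv_right (m := ∞) le_rfl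
    have e2 := L.norm_iteratedFDeriv_comp_left (e1.contDiffAt (x := x)) (n := m + 1)
      (by exact_mod_cast le_top)
    have e3 : iteratedFDeriv ℝ (m + 2) P x = 0 := by
      ext v
      rw [iteratedFDeriv_succ_apply_left]
      have e4 : iteratedFDeriv ℝ (m + 1) P = fun _ => 0 := funext hP2
      rw [e4]
      simp
    rw [norm_iteratedFDeriv_fderiv, e3, norm_zero, mul_zero] at e2
    exact norm_le_zero_iff.1 e2
  have h4 := h3 E (fo L P) hq1 hq2 c1 ((C1 * D + C2) *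
    bD b ε R0 R ((1 / 2) ^ n) (fo L u) n 0 e ν c) (by linarith) (by positivity) (fun Y N1 hY hYs => by
      have hN1 := tfn_nonneg hY
      have hYc : ContDiff ℝ 1 Y := hY.smooth.of_le (by norm_cast; omega)
      have hYcs : HasCompactSupport Y := by
        refine HasCompactSupport.intro (isCompact_closedBall c1 1) fun y hy => ?_
        rw [mem_closedBall, dist_eq_norm] at hy
        by_contra h
        exact hy (hYs y h)
      have hball : ∀ y, ‖y - c1‖ ≤ 1 → 5 ≤ σ * ht ν c y ∧ ‖y‖ ≤ R0 / 3 + 7 := by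
        intro y hy
        have e1 : ht ν c y = ht ν c c1 + ⟪ν, y - c1⟫_ℝ := by
          unfold ht
          rw [inner_sub_right]
          ring
        have e2 : |⟪ν, y - c1⟫_ℝ| ≤ 1 := by
          have := abs_real_inner_le_norm ν (y - c1)
          rw [hν, one_mul] at this
          linarith
        have e3 : |σ * ⟪ν, y - c1⟫_ℝ| ≤ 1 := by rw [abs_mul, hσa, one_mul]; exact e2
        refine ⟨?_, ?_⟩
        · rw [e1, mul_add, hσ1]
          have := (abs_le.1 e3).1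
          linarith
        · calc ‖y‖ = ‖(y - c1) + c1‖ := by rw [sub_add_cancel]
            _ ≤ ‖y - c1‖ + ‖c1‖ := norm_add_le _ _
            _ ≤ _ := by linarith
      have hYd : TFn (2 + m + 1) (D * N1) (dV L Y) := by
        have := tfn_clm (DL L) (tfn_fderiv (J := m + 3) hY)
        exact tfn_le this (by omega) le_rfl
      have hYds : ∀ y, dV L Y y ≠ 0 → 4 ≤ σ * ht ν c y ∧ ‖y‖ ≤ 5 / 6 * R0 + 7 := by
        intro y hy
        have e1 : fderiv ℝ Y y ≠ 0 := fun h => hy (by unfold dV; rw [h, map_zero])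
        have e2 : y ∈ tsupport Y := support_fderiv_subset ℝ e1
        have e3 : tsupport Y ⊆ closedBall c1 1 := by
          refine closure_minimal (fun z hz => ?_) isClosed_closedBall
          rw [mem_closedBall, dist_eq_norm]
          exact hYs z hz
        have e4 := e3 e2
        rw [mem_closedBall, dist_eq_norm] at e4
        obtain ⟨q1, q2⟩ := hball y e4
        exact ⟨by linarith, by linarith⟩
      have i1 := ibp_L L (hP1.of_le (by exact_mod_cast le_top)) hYc hYcs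
      have i2 := ibp_L L (hu.smooth.of_le (by exact_mod_cast le_top)) hYc hYcs
      have hdc : Continuous (dV L Y) := hYd.smooth.continuous
      have hdcs : HasCompactSupport (dV L Y) := (hYcs.fderiv ℝ).comp_left (map_zero _)
      have j1 : Integrable fun y => ⟪u y, dV L Y y⟫_ℝ :=
        (hu.smooth.continuous.inner hdc).integrable_of_hasCompactSupport (inner_cs_right hdcs)
      have j2 : Integrable fun y => ⟪P y, dV L Y y⟫_ℝ :=
        (hP1.continuous.inner hdc).integrable_of_hasCompactSupport (inner_cs_right hdcs)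
      have e1 : ∫ y, ⟪fo L P y, Y y⟫_ℝ = (∫ y, ⟪u y - P y, dV L Y y⟫_ℝ) +
          ∫ y, ⟪fo L u y, Y y⟫_ℝ := by
        have e2 : ∫ y, ⟪u y - P y, dV L Y y⟫_ℝ = (∫ y, ⟪u y, dV L Y y⟫_ℝ) -
            ∫ y, ⟪P y, dV L Y y⟫_ℝ := by
          rw [← integral_sub j1 j2]
          refine integral_congr_ae (Filter.Eventually.of_forall fun y => ?_)
          simp only [inner_sub_left]
        rw [i1, e2, i2]
        ring
      have k1 := h1 R hR n u hu e he ν c hν hc σ hσ c1 hc1 hσ1 (dV L Y) (D * N1) hYd hYds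
      have k2 := h2 E R hR (fo L u) hf.continuous hfs n e he ν c hν (by linarith) Y N1
        (tfn_le hY (by omega) le_rfl) (fun y hy => by
          obtain ⟨q1, q2⟩ := hball y (hYs y hy)
          have q3 : σ * ht ν c y ≤ |ht ν c y| := by
            have := le_abs_self (σ * ht ν c y)
            rwa [abs_mul, hσa, one_mul] at this
          exact ⟨by linarith, by linarith⟩)
      rw [e1]
      refine (abs_add_le _ _).trans ((add_le_add k1 k2).trans (le_of_eq ?_))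
      ring) x hx
  calc _ ≤ C3 * ((C1 * D + C2) * bD b ε R0 R ((1 / 2) ^ n) (fo L u) n 0 e ν c) := h4
    _ = _ := by ring

/-- the truncated one sided cut-offs -/
theorem thc_bd (σ : ℝ) (J : ℕ) : ∃ A : ℝ, 0 < A ∧
    ContDiff ℝ ∞ (fun t : ℝ => Real.smoothTransition (σ * t) * cu1 6 t) ∧
    ∀ j ≤ J, ∀ t, |iteratedDeriv j (fun t : ℝ => Real.smoothTransition (σ * t) * cu1 6 t) t| ≤ A := by
  have h1 : ContDiff ℝ ∞ (fun t : ℝ => Real.smoothTransition (σ * t) * cu1 6 t) :=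
    (th_contDiff σ).mul (cu1_contDiff le_rfl (by norm_num))
  obtain ⟨A, hA, h2⟩ := line_bd h1 (cu1_cs 6).mul_left J
  exact ⟨A, hA, h1, h2⟩

/-- one sided parts of the image field -/
theorem part_tfn {d : ℕ} {V : Type} [NormedAddCommGroup V] [InnerProductSpace ℝ V] {σ A : ℝ} {J : ℕ}
    (h1 : ContDiff ℝ ∞ (fun t : ℝ => Real.smoothTransition (σ * t) * cu1 6 t))
    (h2 : ∀ j ≤ J, ∀ t,
      |iteratedDeriv j (fun t : ℝ => Real.smoothTransition (σ * t) * cu1 6 t) t| ≤ A)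
    {ν : Sp d} (hν : ‖ν‖ = 1) {c N : ℝ} {g : Sp d → V} (hg : TFn J N g)
    (hgs : ∀ y, g y ≠ 0 → |ht ν c y| ≤ 5) :
    TFn J (2 ^ J * A * N) (fun y => Real.smoothTransition (σ * ht ν c y) • g y) := by
  have h3 := tfn_htmul (h1.of_le (nat_le_inf J)) h2 hν c hg
  have h4 : (fun y => (Real.smoothTransition (σ * ht ν c y) * cu1 6 (ht ν c y)) • g y) =
      fun y => Real.smoothTransition (σ * ht ν c y) • g y := by
    funext y
    by_cases h5 : g y = 0
    · rw [h5, smul_zero, smul_zero]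
    · rw [cu1_one (by linarith [hgs y h5]), mul_one]
  rw [h4] at h3
  exact h3

end SH

open SH in
theorem stmtSHA (hTP : StmtTP) (hZ : StmtZ) (hMA : StmtMA) (hPE : StmtPE) (hPF : StmtPF) :
    StmtSHA := by
  intro d V E _ _ _ _ _ _ L n0 T hd2 hn0 hC hNS
  refine ⟨n0 + 5, ?_⟩
  intro M c0 ε hε hε1 b hb R0 hR0
  have hd : 1 ≤ d := by omega
  obtain ⟨Cf, hCf, hfield⟩ := field L hC n0 T hNS
  obtain ⟨Cs, hCs, hside⟩ := side hTP hZ hMA hPE d V E L n0 T hd hn0 hNS hε hε1 hb hR0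
  obtain ⟨Cp, hCp, hpoly⟩ := poly_side hTP hZ hMA hPE d V E L n0 T hd hn0 hNS hε hε1 hb hR0
  obtain ⟨Cq, hCq, hquad⟩ := quad hZ hd hε hε1 hb (by linarith : 1 ≤ R0)
  obtain ⟨Ce, hCe, hperp⟩ := perp hPE hd hε hε1 hb
  obtain ⟨CF, hCF, hpl⟩ := (hPF d hd).1 (R0 / 2)
  obtain ⟨A1, hA1, a11, a12⟩ := thc_bd 1 (2 + n0 + 1)
  obtain ⟨A2, hA2, a21, a22⟩ := thc_bd (-1) (2 + n0 + 1)
  refine ⟨6 * CF * Cp * Cf + 6 * CF * Cp * Cf + Cs * (2 ^ (2 + n0 + 1) * A1 * Cf) +
    Cs * (2 ^ (2 + n0 + 1) * A2 * Cf) + Cq * Cf + Ce * Cf + Ce * Cf, by positivity, ?_⟩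
  intro R hR n u hu e he ν c hν hc ve hve Φ N hΦ hcyl
  obtain ⟨Φh, X, g, hF⟩ := hfield ν hν c (R0 / 2) Φ N hΦ hcyl.const hcyl.supp
  have hN := tfn_nonneg hΦ
  set N' : ℝ := Cf * N with hN'
  have hN'0 : 0 ≤ N' := by positivity
  have hf : ContDiff ℝ ∞ (fo L u) := by
    have : ContDiff ℝ ∞ (fderiv ℝ u) := hu.smooth.fderiv_right (m := ∞) le_rfl
    exact L.contDiff.comp this
  have hfs : HasCompactSupport (fo L u) := (hu.supp.fderiv ℝ).comp_left (map_zero _)
  have hfc : Continuous (fo L u) := hf.continuous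
  have huc : Continuous u := hu.smooth.continuous
  have hDD := DD_nonneg b ε R (fo L u) n he
  have hbD := bD_ge b ε R0 R (fo L u) n e ν c
  set B : ℝ := bD b ε R0 R ((1 / 2) ^ n) (fo L u) n 0 e ν c with hB
  have hB0 : 0 ≤ B := hDD.trans hbD
  have hΦh1 : ContDiff ℝ 1 Φh := hF.tf.smooth.of_le (by norm_cast)
  have hΦhs : HasCompactSupport Φh := cyl_cs hν hF.fs
  have hΦhc : Continuous Φh := hΦh1.continuous
  have hXc : Continuous X := hF.tx.smooth.continuous
  have hgc : Continuous g := hF.tg.smooth.continuous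
  have hgs : HasCompactSupport g := cyl_cs hν (fun y hy => (hF.gs y hy).1)
  have hcylR : ∀ y ∈ cyl ν c 5 (R0 / 2), ‖y‖ ≤ 5 / 6 * R0 + 5 := by
    intro y hy
    have := norm_le_tang hν c y
    linarith [hy.1, hy.2]
  -- (4), (5): the identity for the pairing
  set gp : Sp d → V := fun y => Real.smoothTransition (1 * ht ν c y) • g y with hgp
  set gm : Sp d → V := fun y => Real.smoothTransition (-1 * ht ν c y) • g y with hgm
  have hgsum : ∀ y, g y = gp y + gm y := by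
    intro y
    by_cases h5 : g y = 0
    · simp only [hgp, hgm, h5, smul_zero, add_zero]
    · have h6 := (hF.gs y h5).2
      simp only [hgp, hgm]
      rcases le_total 0 (ht ν c y) with h7 | h7
      · rw [abs_of_nonneg h7] at h6
        rw [Real.smoothTransition.one_of_one_le (by linarith : 1 ≤ 1 * ht ν c y),
          Real.smoothTransition.zero_of_nonpos (by linarith : -1 * ht ν c y ≤ 0), one_smul,
          zero_smul, add_zero]
      · rw [abs_of_nonpos h7] at h6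
        rw [Real.smoothTransition.one_of_one_le (by linarith : 1 ≤ -1 * ht ν c y),
          Real.smoothTransition.zero_of_nonpos (by linarith : 1 * ht ν c y ≤ 0), one_smul,
          zero_smul, zero_add]
  have hgt : TFn (2 + n0 + 1) N' g := tfn_le hF.tg (by omega) le_rfl
  have hg5 : ∀ y, g y ≠ 0 → |ht ν c y| ≤ 5 := fun y hy => (hF.gs y hy).1.1
  have hgpt : TFn (2 + n0 + 1) (2 ^ (2 + n0 + 1) * A1 * N') gp := part_tfn a11 a12 hν hgt hg5
  have hgmt : TFn (2 + n0 + 1) (2 ^ (2 + n0 + 1) * A2 * N') gm := part_tfn a21 a22 hν hgt hg5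
  have hgps : HasCompactSupport gp := hgs.smul_left
  have hgms : HasCompactSupport gm := hgs.smul_left
  have hgpn : ∀ y, gp y ≠ 0 → 4 ≤ 1 * ht ν c y ∧ ‖y‖ ≤ 5 / 6 * R0 + 7 := by
    intro y hy
    have h5 : g y ≠ 0 := fun h => hy (by simp only [hgp]; rw [h, smul_zero])
    obtain ⟨h6, h7⟩ := hF.gs y h5
    have h8 : 0 < ht ν c y := by
      by_contra h9
      push Not at h9
      apply hy
      simp only [hgp]
      rw [Real.smoothTransition.zero_of_nonpos (by linarith), zero_smul]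
    rw [abs_of_pos h8] at h7
    exact ⟨by linarith, by linarith [hcylR y h6]⟩
  have hgmn : ∀ y, gm y ≠ 0 → 4 ≤ -1 * ht ν c y ∧ ‖y‖ ≤ 5 / 6 * R0 + 7 := by
    intro y hy
    have h5 : g y ≠ 0 := fun h => hy (by simp only [hgm]; rw [h, smul_zero])
    obtain ⟨h6, h7⟩ := hF.gs y h5
    have h8 : ht ν c y < 0 := by
      by_contra h9
      push Not at h9
      apply hy
      simp only [hgm]
      rw [Real.smoothTransition.zero_of_nonpos (by linarith), zero_smul]
    rw [abs_of_neg h8] at h7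
    exact ⟨by linarith, by linarith [hcylR y h6]⟩
  -- the polynomials
  set cp : Sp d := c • ν + (6 * (1 : ℝ)) • ν with hcp
  set cm : Sp d := c • ν - (6 * (1 : ℝ)) • ν with hcm
  have hνν : ⟪ν, ν⟫_ℝ = 1 := by rw [real_inner_self_eq_norm_sq, hν, one_pow]
  have hcp1 : ‖cp‖ ≤ R0 / 3 + 6 := by
    refine (norm_add_le _ _).trans ?_
    rw [norm_smul, norm_smul, hν, Real.norm_eq_abs, Real.norm_eq_abs]
    have : |(6 * (1 : ℝ))| = 6 := by norm_num
    rw [this]
    linarith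
  have hcm1 : ‖cm‖ ≤ R0 / 3 + 6 := by
    refine (norm_sub_le _ _).trans ?_
    rw [norm_smul, norm_smul, hν, Real.norm_eq_abs, Real.norm_eq_abs]
    have : |(6 * (1 : ℝ))| = 6 := by norm_num
    rw [this]
    linarith
  have hcp2 : 1 * ht ν c cp = 6 := by
    simp only [hcp, ht, inner_add_right, inner_smul_right, hνν]
    ring
  have hcm2 : -1 * ht ν c cm = 6 := by
    simp only [hcm, ht, inner_sub_right, inner_smul_right, hνν]
    ring
  set Pp := ATP n0 cp 1 u with hPp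
  set Pm := ATP n0 cm 1 u with hPm
  have hPp1 : ContDiff ℝ ∞ Pp := (stmtTQ d V n0 u hd hu.smooth cp 1 one_pos).1
  have hPm1 : ContDiff ℝ ∞ Pm := (stmtTQ d V n0 u hd hu.smooth cm 1 one_pos).1
  have hsp := hside R hR n u hu e he ν c hν hc 1 (Or.inl rfl) cp hcp1 hcp2 gp _ hgpt hgpn
  have hsm := hside R hR n u hu e he ν c hν hc (-1) (Or.inr rfl) cm hcm1 hcm2 gm _ hgmt hgmn
  have hqp := hpoly R hR n u hu e he ν c hν hc 1 (Or.inl rfl) cp hcp1 hcp2
  have hqm := hpoly R hR n u hu e he ν c hν hc (-1) (Or.inr rfl) cm hcm1 hcm2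
  have hup := upper hPF hd L hν hF hPp1
  have hlo := lower_half hPF hd L hν hF hPm1
  -- bounds of the plane integrals
  have hplb : ∀ P : Sp d → V, ContDiff ℝ ∞ P → (∀ x, ‖x‖ ≤ R0 → ‖fo L P x‖ ≤ Cp * B) →
      ∀ s, ‖plInt ν s (fun y => ⟪fo L P y, Φh y⟫_ℝ)‖ ≤ CF * (Cp * B * N') := by
    intro P hP hPb s
    have hP1 : ContDiff ℝ 1 P := hP.of_le (by exact_mod_cast le_top)
    have hfoc : Continuous (fo L P) := L.continuous.comp (hP1.continuous_fderiv (by simp))
    rw [Real.norm_eq_abs]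
    refine hpl ν hν _ _ (hfoc.inner hΦhc) (fun y => ?_) (fun y hy => ?_) s
    · by_cases h5 : Φh y = 0
      · rw [h5, inner_zero_right, abs_zero]
        positivity
      · have h6 := hcylR y (hF.fs y h5)
        refine (abs_real_inner_le_norm _ _).trans ?_
        exact mul_le_mul (hPb y (by linarith)) (tfn_norm_le hF.tf y) (norm_nonneg _)
          (by positivity)
    · have h5 : Φh y ≠ 0 := fun h => hy (by rw [h, inner_zero_right])
      exact (hF.fs y h5).2
  have hJp : |∫ s in c..(c + 6), plInt ν s (fun y => ⟪fo L Pp y, Φh y⟫_ℝ)| ≤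
      CF * (Cp * B * N') * 6 := by
    have := intervalIntegral.norm_integral_le_of_norm_le_const (a := c) (b := c + 6)
      (f := fun s => plInt ν s (fun y => ⟪fo L Pp y, Φh y⟫_ℝ)) (C := CF * (Cp * B * N'))
      (fun s _ => hplb Pp hPp1 hqp s)
    rw [Real.norm_eq_abs, add_sub_cancel_left, abs_of_pos (by norm_num : (0 : ℝ) < 6)] at this
    exact this
  have hJm : |∫ s in (c - 6)..c, plInt ν s (fun y => ⟪fo L Pm y, Φh y⟫_ℝ)| ≤
      CF * (Cp * B * N') * 6 := by
    have := intervalIntegral.norm_integral_le_of_norm_le_const (a := c - 6) (b := c)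
      (f := fun s => plInt ν s (fun y => ⟪fo L Pm y, Φh y⟫_ℝ)) (C := CF * (Cp * B * N'))
      (fun s _ => hplb Pm hPm1 hqm s)
    have h6 : c - (c - 6) = (6 : ℝ) := by ring
    rw [Real.norm_eq_abs, h6, abs_of_pos (by norm_num : (0 : ℝ) < 6)] at this
    exact this
  -- the jump
  have hjump : plInt ν c (fun y => ⟪L (rk1 ν (JJ n0 ν (c • ν) 1 u y)), Φ y⟫_ℝ) =
      plInt ν c (fun y => ⟪L (rk1 ν (Pp y)), Φ y⟫_ℝ) -
        plInt ν c (fun y => ⟪L (rk1 ν (Pm y)), Φ y⟫_ℝ) := by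
    have e1 : ∀ P : Sp d → V, plInt ν c (fun y => ⟪L (rk1 ν (P y)), Φ y⟫_ℝ) =
        plInt ν c (fun y => ⟪L (rk1 ν (P y)), Φh y⟫_ℝ) := fun P =>
      pl_congr hν c c fun y hy => by rw [hF.on y (by rw [hy, sub_self])]
    rw [e1, e1, e1]
    have c1 := (pair_contDiff L ν (hPp1.of_le (by exact_mod_cast le_top)) hΦh1).continuous
    have c2 := (pair_contDiff L ν (hPm1.of_le (by exact_mod_cast le_top)) hΦh1).continuous
    rw [← pl_sub c1 (pair_supp L ν hΦhs) c2 (pair_supp L ν hΦhs)]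
    congr 1
    funext y
    rw [← inner_sub_left]
    congr 1
    have e2 : JJ n0 ν (c • ν) 1 u y = Pp y - Pm y := rfl
    rw [e2, ← AL_apply, map_sub]
    rfl
  -- the pairing with the field
  have hI : ∫ y, ⟪fo L u y, Φh y⟫_ℝ = -(∫ y, ⟪u y, gp y⟫_ℝ) - ∫ y, ⟪u y, gm y⟫_ℝ := by
    have e1 := ibp_L L (hu.smooth.of_le (by exact_mod_cast le_top)) hΦh1 hΦhs
    rw [e1]
    have j1 : Integrable fun y => ⟪u y, gp y⟫_ℝ :=
      (huc.inner hgpt.smooth.continuous).integrable_of_hasCompactSupport (inner_cs_right hgps)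
    have j2 : Integrable fun y => ⟪u y, gm y⟫_ℝ :=
      (huc.inner hgmt.smooth.continuous).integrable_of_hasCompactSupport (inner_cs_right hgms)
    have e2 : ∫ y, ⟪u y, dV L Φh y⟫_ℝ = (∫ y, ⟪u y, gp y⟫_ℝ) + ∫ y, ⟪u y, gm y⟫_ℝ := by
      rw [← integral_add j1 j2]
      refine integral_congr_ae (Filter.Eventually.of_forall fun y => ?_)
      simp only
      rw [hF.eq, hgsum y, inner_add_right]
    rw [e2]
    ring
  have hup2 : ∫ y, ⟪u y, gp y⟫_ℝ = (∫ y, ⟪u y - Pp y, gp y⟫_ℝ) + ∫ y, ⟪Pp y, gp y⟫_ℝ := by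
    rw [← integral_add]
    · refine integral_congr_ae (Filter.Eventually.of_forall fun y => ?_)
      simp only
      rw [← inner_add_left, sub_add_cancel]
    · exact ((huc.sub hPp1.continuous).inner
        hgpt.smooth.continuous).integrable_of_hasCompactSupport (inner_cs_right hgps)
    · exact (hPp1.continuous.inner
        hgpt.smooth.continuous).integrable_of_hasCompactSupport (inner_cs_right hgps)
  have hlo2 : ∫ y, ⟪u y, gm y⟫_ℝ = (∫ y, ⟪u y - Pm y, gm y⟫_ℝ) + ∫ y, ⟪Pm y, gm y⟫_ℝ := by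
    rw [← integral_add]
    · refine integral_congr_ae (Filter.Eventually.of_forall fun y => ?_)
      simp only
      rw [← inner_add_left, sub_add_cancel]
    · exact ((huc.sub hPm1.continuous).inner
        hgmt.smooth.continuous).integrable_of_hasCompactSupport (inner_cs_right hgms)
    · exact (hPm1.continuous.inner
        hgmt.smooth.continuous).integrable_of_hasCompactSupport (inner_cs_right hgms)
  -- the left side
  have hsplit := split hfc hfs e hΦhc
  have hdvc : Continuous fun y => dvE L Φ ve y := by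
    have e1 : (fun y => dvE L Φ ve y) = fun y => ⟪ve, dV L Φ y⟫_ℝ :=
      funext fun y => (inner_dV L Φ ve y).symm
    rw [e1]
    have e2 : Continuous (fderiv ℝ Φ) := hΦ.smooth.continuous_fderiv (by simp)
    exact continuous_const.inner ((DL L).continuous.comp e2)
  have hΦc : Continuous Φ := hΦ.smooth.continuous
  have hcuc : Continuous fun y => cu1 4 (ht ν c y) :=
    (cu1_contDiff (k := 0) (by simp) (by norm_num)).continuous.comp (ht_continuous ν c)
  have hmain : ∫ y, ⟪fo L u y, e⟫_ℝ * ⟪e, Φh y⟫_ℝ =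
      (∫ y, ⟪fo L u y, e⟫_ℝ * (cu1 4 (ht ν c y) * (⟪e, Φ y⟫_ℝ - ht ν c y * dvE L Φ ve y))) +
        ∫ y, ⟪fo L u y, e⟫_ℝ * ⟪e, X y⟫_ℝ := by
    rw [← integral_add]
    · refine integral_congr_ae (Filter.Eventually.of_forall fun y => ?_)
      simp only
      rw [hF.pair e ve hve, mul_add]
    · exact int_mul hfc hfs e (hcuc.mul ((continuous_const.inner hΦc).sub
        ((ht_continuous ν c).mul hdvc)))
    · exact int_mul hfc hfs e (continuous_const.inner hXc)
  have hwX : TFn 2 N' (fun y => ⟪e, X y⟫_ℝ) := by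
    have := tfn_clm (innerSL ℝ e) hF.tx
    rwa [innerSL_apply_norm, he, one_mul] at this
  have hq := hquad E R hR (fo L u) hfc hfs n e he ν c hν (by linarith) _ N' hwX (fun y => by
    refine (abs_real_inner_le_norm _ _).trans ?_
    rw [he, one_mul]
    exact hF.xq y) (fun y hy => by
    by_cases h5 : X y = 0
    · rw [h5, inner_zero_right]
    · have := hcylR y (hF.xs y h5)
      exfalso
      linarith)
  have hpe := hperp E R (by linarith) (fo L u) hfc hfs n e he Φh N' (ball 0 R0)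
    measurableSet_ball hF.tf (fun y hy => by
      by_contra h5
      have := hcylR y (hF.fs y h5)
      linarith) (fun y z hy hz => by
      have h6 := hcylR y (hF.fs y hy)
      rw [mem_ball_zero_iff]
      calc ‖z‖ = ‖(z - y) + y‖ := by rw [sub_add_cancel]
        _ ≤ ‖z - y‖ + ‖y‖ := norm_add_le _ _
        _ < R0 := by linarith)
  rw [← ma_unit] at hpe
  set S : ℝ := Real.sqrt (ma b ε R0 ((1 / 2) ^ n) (fo L u) n 0 *
    DD b ε R ((1 / 2) ^ n) (fo L u) n 0 e) with hS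
  have hS0 : 0 ≤ S := Real.sqrt_nonneg _
  set Dd : ℝ := DD b ε R ((1 / 2) ^ n) (fo L u) n 0 e with hDd
  have hCD : Ce * N' * (S + Dd) ≤ Ce * N' * (S + B) := by gcongr
  -- conclusion
  have hup' : (∫ y, ⟪Pp y, gp y⟫_ℝ) = -plInt ν c (fun y => ⟪L (rk1 ν (Pp y)), Φ y⟫_ℝ) -
        ∫ s in c..(c + 6), plInt ν s (fun y => ⟪fo L Pp y, Φh y⟫_ℝ) := hup
  have hlo' : (∫ y, ⟪Pm y, gm y⟫_ℝ) = plInt ν c (fun y => ⟪L (rk1 ν (Pm y)), Φ y⟫_ℝ) -
        ∫ s in (c - 6)..c, plInt ν s (fun y => ⟪fo L Pm y, Φh y⟫_ℝ) := hlo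
  rw [hjump]
  rw [abs_le] at hsp hsm hJp hJm hq hpe ⊢
  have hcons : (6 * CF * Cp * Cf + 6 * CF * Cp * Cf + Cs * (2 ^ (2 + n0 + 1) * A1 * Cf) +
      Cs * (2 ^ (2 + n0 + 1) * A2 * Cf) + Cq * Cf + Ce * Cf + Ce * Cf) * N * (B + S) =
      CF * (Cp * B * N') * 6 + CF * (Cp * B * N') * 6 + Cs * (2 ^ (2 + n0 + 1) * A1 * N') * B +
      Cs * (2 ^ (2 + n0 + 1) * A2 * N') * B + Cq * N' * B + Ce * N' * (S + B) +
      ((6 * CF * Cp * Cf + 6 * CF * Cp * Cf + Cs * (2 ^ (2 + n0 + 1) * A1 * Cf) +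
      Cs * (2 ^ (2 + n0 + 1) * A2 * Cf) + Cq * Cf + Ce * Cf) * N * S + Ce * Cf * N * B) := by
    rw [hN']
    ring
  have hex : 0 ≤ (6 * CF * Cp * Cf + 6 * CF * Cp * Cf + Cs * (2 ^ (2 + n0 + 1) * A1 * Cf) +
      Cs * (2 ^ (2 + n0 + 1) * A2 * Cf) + Cq * Cf + Ce * Cf) * N * S + Ce * Cf * N * B := by
    positivity
  rw [hcons]
  constructor
  · linarith [hsp.1, hsp.2, hsm.1, hsm.2, hJp.1, hJp.2, hJm.1, hJm.2, hq.1, hq.2, hpe.1, hpe.2]
  · linarith [hsp.1, hsp.2, hsm.1, hsm.2, hJp.1, hJp.2, hJm.1, hJm.2, hq.1, hq.2, hpe.1, hpe.2]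

end TG
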