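import Pool.Agent.TG.SHT

/-!
# Module SHA, part 1: the adjoint operator, explicit integration by parts (MP_287c87_an; helper22)
-/

set_option linter.unusedSectionVars false

open MeasureTheory Metric Set TrI
open scoped InnerProductSpace ContDiff

namespace TG
namespace SH

variable {d : ℕ} {V E : Type} [NormedAddCommGroup V] [InnerProductSpace ℝ V]
  [FiniteDimensional ℝ V] [NormedAddCommGroup E] [InnerProductSpace ℝ E] [FiniteDimensional ℝ E]

section Adjoint

/-- the symbol A(ξ) -/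
noncomputable def AL (L : (Sp d →L[ℝ] V) →L[ℝ] E) (ξ : Sp d) : V →L[ℝ] E :=
  L.comp (ContinuousLinearMap.smulRightL ℝ (Sp d) V (innerSL ℝ ξ))

theorem AL_apply (L : (Sp d →L[ℝ] V) →L[ℝ] E) (ξ : Sp d) (v : V) : AL L ξ v = L (rk1 ξ v) := rfl

theorem norm_rk1_le (ξ : Sp d) (v : V) : ‖rk1 ξ v‖ ≤ ‖ξ‖ * ‖v‖ := by
  unfold rk1
  rw [ContinuousLinearMap.norm_smulRight_apply, innerSL_apply_norm]

theorem norm_AL_le (L : (Sp d →L[ℝ] V) →L[ℝ] E) (ξ : Sp d) : ‖AL L ξ‖ ≤ ‖L‖ * ‖ξ‖ := by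
  refine ContinuousLinearMap.opNorm_le_bound _ (by positivity) fun v => ?_
  rw [AL_apply, mul_assoc]
  exact (L.le_opNorm _).trans (by gcongr; exact norm_rk1_le ξ v)

/-- the transposed symbol -/
noncomputable def AT (L : (Sp d →L[ℝ] V) →L[ℝ] E) (ξ : Sp d) : E →L[ℝ] V :=
  haveI : CompleteSpace V := FiniteDimensional.complete ℝ V
  haveI : CompleteSpace E := FiniteDimensional.complete ℝ E
  ContinuousLinearMap.adjoint (AL L ξ)

theorem inner_AT (L : (Sp d →L[ℝ] V) →L[ℝ] E) (ξ : Sp d) (v : V) (w : E) :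
    ⟪v, AT L ξ w⟫_ℝ = ⟪L (rk1 ξ v), w⟫_ℝ := by
  have : CompleteSpace V := FiniteDimensional.complete ℝ V
  have : CompleteSpace E := FiniteDimensional.complete ℝ E
  exact ContinuousLinearMap.adjoint_inner_right (AL L ξ) v w

theorem inner_AT' (L : (Sp d →L[ℝ] V) →L[ℝ] E) (ξ : Sp d) (v : V) (w : E) :
    ⟪AT L ξ w, v⟫_ℝ = ⟪w, L (rk1 ξ v)⟫_ℝ := by
  rw [real_inner_comm, inner_AT, real_inner_comm]

theorem norm_AT_le (L : (Sp d →L[ℝ] V) →L[ℝ] E) (ξ : Sp d) : ‖AT L ξ‖ ≤ ‖L‖ * ‖ξ‖ := by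
  have : CompleteSpace V := FiniteDimensional.complete ℝ V
  have : CompleteSpace E := FiniteDimensional.complete ℝ E
  have : ‖AT L ξ‖ = ‖AL L ξ‖ := LinearIsometryEquiv.norm_map ContinuousLinearMap.adjoint (AL L ξ)
  rw [this]
  exact norm_AL_le L ξ

/-- the adjoint operator, as a linear map on derivatives -/
noncomputable def DL (L : (Sp d →L[ℝ] V) →L[ℝ] E) : (Sp d →L[ℝ] E) →L[ℝ] V :=
  ∑ j : Fin d, (AT L (EuclideanSpace.single j (1 : ℝ))).comp
    (ContinuousLinearMap.apply ℝ E (EuclideanSpace.single j (1 : ℝ) : Sp d))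

theorem DL_apply (L : (Sp d →L[ℝ] V) →L[ℝ] E) (M : Sp d →L[ℝ] E) :
    DL L M = ∑ j : Fin d, AT L (EuclideanSpace.single j (1 : ℝ))
      (M (EuclideanSpace.single j (1 : ℝ))) := by
  unfold DL
  rw [sum_apply]
  rfl

/-- the adjoint operator -/
noncomputable def dV (L : (Sp d →L[ℝ] V) →L[ℝ] E) (Φ : Sp d → E) (y : Sp d) : V :=
  DL L (fderiv ℝ Φ y)

theorem inner_dV (L : (Sp d →L[ℝ] V) →L[ℝ] E) (Φ : Sp d → E) (v : V) (y : Sp d) :
    ⟪v, dV L Φ y⟫_ℝ = dvE L Φ v y := by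
  unfold dV dvE
  rw [DL_apply, inner_sum]
  exact Finset.sum_congr rfl fun j _ => inner_AT _ _ _ _

theorem rk1_add (ξ η : Sp d) (v : V) : rk1 (ξ + η) v = rk1 ξ v + rk1 η v := by
  ext y
  simp [rk1, add_smul]

theorem rk1_smul (a : ℝ) (ξ : Sp d) (v : V) : rk1 (a • ξ) v = a • rk1 ξ v := by
  ext y
  simp [rk1, mul_smul]

theorem expand_sp (x : Sp d) : x = ∑ j : Fin d, x j • (EuclideanSpace.single j (1 : ℝ) : Sp d) := by
  conv_lhs => rw [← (EuclideanSpace.basisFun (Fin d) ℝ).sum_repr x]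
  refine Finset.sum_congr rfl fun j _ => ?_
  simp

theorem expand_clm (M : Sp d →L[ℝ] V) :
    M = ∑ j : Fin d, rk1 (EuclideanSpace.single j (1 : ℝ)) (M (EuclideanSpace.single j (1 : ℝ))) := by
  ext y
  rw [sum_apply]
  conv_lhs => rw [expand_sp y, map_sum]
  refine Finset.sum_congr rfl fun j _ => ?_
  simp [rk1, EuclideanSpace.inner_single_left]

theorem fo_eq (L : (Sp d →L[ℝ] V) →L[ℝ] E) (u : Sp d → V) (y : Sp d) :
    fo L u y = ∑ j : Fin d, L (rk1 (EuclideanSpace.single j (1 : ℝ))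
      (fderiv ℝ u y (EuclideanSpace.single j (1 : ℝ)))) := by
  unfold fo
  conv_lhs => rw [expand_clm (fderiv ℝ u y), map_sum]

/-- the symbol as a sum -/
theorem L_rk1 (L : (Sp d →L[ℝ] V) →L[ℝ] E) (ξ : Sp d) (v : V) :
    L (rk1 ξ v) = ∑ j : Fin d, ξ j • L (rk1 (EuclideanSpace.single j (1 : ℝ)) v) := by
  have h : rk1 ξ v = ∑ j : Fin d, ξ j • rk1 (EuclideanSpace.single j (1 : ℝ)) v := by
    ext y
    rw [sum_apply]
    simp only [rk1, ContinuousLinearMap.smulRight_apply, innerSL_apply_apply,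
      smul_apply]
    have h1 : ⟪ξ, y⟫_ℝ = ∑ j : Fin d, ξ j * ⟪(EuclideanSpace.single j (1 : ℝ) : Sp d), y⟫_ℝ := by
      conv_lhs => rw [expand_sp ξ, sum_inner]
      refine Finset.sum_congr rfl fun j _ => ?_
      rw [inner_smul_left]
      simp
    rw [h1, Finset.sum_smul]
    refine Finset.sum_congr rfl fun j _ => ?_
    rw [mul_smul]
  rw [h, map_sum]
  simp

end Adjoint

section IBP

/-- integration by parts against the operator -/
theorem ibp_L (L : (Sp d →L[ℝ] V) →L[ℝ] E) {u : Sp d → V} (hu : ContDiff ℝ 1 u) {Φ : Sp d → E}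
    (hΦ : ContDiff ℝ 1 Φ) (hs : HasCompactSupport Φ) :
    ∫ y, ⟪fo L u y, Φ y⟫_ℝ = -∫ y, ⟪u y, dV L Φ y⟫_ℝ := by
  have huc : Continuous u := hu.continuous
  have hud : Continuous (fderiv ℝ u) := (hu.fderiv_right (m := 0) (by simp)).continuous
  have hΦc : Continuous Φ := hΦ.continuous
  have hΦd : Continuous (fderiv ℝ Φ) := (hΦ.fderiv_right (m := 0) (by simp)).continuous
  have h1 : ∀ j : Fin d, ∫ y, ⟪AT L (EuclideanSpace.single j (1 : ℝ)) (Φ y),
      fderiv ℝ u y (EuclideanSpace.single j (1 : ℝ))⟫_ℝ =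
      -∫ y, ⟪AT L (EuclideanSpace.single j (1 : ℝ))
        (fderiv ℝ Φ y (EuclideanSpace.single j (1 : ℝ))), u y⟫_ℝ := by
    intro j
    have h := TP.ibp_one (TP.ip V) (Psi := fun y => AT L (EuclideanSpace.single j (1 : ℝ)) (Φ y))
      ((AT L _).contDiff.comp hΦ) (hs.comp_left (map_zero _)) hu (EuclideanSpace.single j (1 : ℝ))
    simp only [TP.ip_apply] at h
    rw [h, ← integral_neg]
    refine integral_congr_ae (Filter.Eventually.of_forall fun y => ?_)
    have e : fderiv ℝ (fun y => AT L (EuclideanSpace.single j (1 : ℝ)) (Φ y)) y =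
        (AT L (EuclideanSpace.single j (1 : ℝ))).comp (fderiv ℝ Φ y) :=
      ((AT L (EuclideanSpace.single j (1 : ℝ))).hasFDerivAt.comp y
        (hΦ.differentiable (by simp) y).hasFDerivAt).fderiv
    simp only [e, ContinuousLinearMap.comp_apply, map_neg, inner_neg_left]
  have h2 : ∀ y, ⟪fo L u y, Φ y⟫_ℝ = ∑ j : Fin d, ⟪AT L (EuclideanSpace.single j (1 : ℝ)) (Φ y),
      fderiv ℝ u y (EuclideanSpace.single j (1 : ℝ))⟫_ℝ := by
    intro y
    rw [fo_eq, sum_inner]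
    refine Finset.sum_congr rfl fun j _ => ?_
    rw [inner_AT', real_inner_comm]
  have h3 : ∀ y, ⟪u y, dV L Φ y⟫_ℝ = ∑ j : Fin d, ⟪AT L (EuclideanSpace.single j (1 : ℝ))
        (fderiv ℝ Φ y (EuclideanSpace.single j (1 : ℝ))), u y⟫_ℝ := by
    intro y
    unfold dV
    rw [DL_apply, inner_sum]
    refine Finset.sum_congr rfl fun j _ => ?_
    rw [real_inner_comm]
  simp_rw [h2, h3]
  rw [integral_finsetSum, integral_finsetSum, ← Finset.sum_neg_distrib]
  · exact Finset.sum_congr rfl fun j _ => h1 j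
  · intro j _
    refine Continuous.integrable_of_hasCompactSupport (by fun_prop) ?_
    refine (hs.fderiv ℝ).mono' fun y hy => subset_closure ?_
    rw [Function.mem_support] at hy ⊢
    intro h0
    exact hy (by rw [h0, zero_apply, map_zero, inner_zero_left])
  · intro j _
    refine Continuous.integrable_of_hasCompactSupport (by fun_prop) ?_
    refine hs.mono' fun y hy => subset_closure ?_
    rw [Function.mem_support] at hy ⊢
    intro h0
    exact hy (by rw [h0, map_zero, inner_zero_left])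

/-- integration by parts of order `m` with a pointwise bound -/
theorem ibp_pt {F G : Type} [NormedAddCommGroup F] [NormedSpace ℝ F] [NormedAddCommGroup G]
    [NormedSpace ℝ G] (B : G →L[ℝ] F →L[ℝ] ℝ) (m : ℕ) :
    ∀ (al : Fin m → Sp d), (∀ i, ‖al i‖ ≤ 1) → ∀ (J : ℕ) (Lam : Sp d → G) (N : ℝ),
      ContDiff ℝ (J + m : ℕ) Lam → HasCompactSupport Lam →
      (∀ j ≤ J + m, ∀ p, ‖iteratedFDeriv ℝ j Lam p‖ ≤ N) →
      ∃ Psi : Sp d → G, ContDiff ℝ J Psi ∧
        (∀ j ≤ J, ∀ p, ‖iteratedFDeriv ℝ j Psi p‖ ≤ N) ∧ tsupport Psi ⊆ tsupport Lam ∧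
        (∀ p, ‖Psi p‖ ≤ ‖iteratedFDeriv ℝ m Lam p‖) ∧
        ∀ f : Sp d → F, ContDiff ℝ ∞ f →
          ∫ p, B (Lam p) (iteratedFDeriv ℝ m f p al) = ∫ p, B (Psi p) (f p) := by
  induction m with
  | zero =>
    intro al _ J Lam N hL hs hN
    exact ⟨Lam, hL, hN, Subset.rfl, fun p => by rw [norm_iteratedFDeriv_zero], fun f hf => rfl⟩
  | succ m ih =>
    intro al hal J Lam N hL hs hN
    let D : (Sp d →L[ℝ] G) →L[ℝ] G := ContinuousLinearMap.apply ℝ G (-(al 0))
    have hD : ∀ S, D S = S (-(al 0)) := fun S => rfl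
    have hD1 : ‖D‖ ≤ 1 := by
      refine ContinuousLinearMap.opNorm_le_bound _ zero_le_one fun S => ?_
      rw [hD, one_mul]
      calc ‖S (-(al 0))‖ ≤ ‖S‖ * ‖-(al 0)‖ := S.le_opNorm _
        _ ≤ ‖S‖ * 1 := by
            gcongr
            rw [norm_neg]; exact hal 0
        _ = ‖S‖ := mul_one _
    have hLd : ContDiff ℝ (J + m : ℕ) (fderiv ℝ Lam) := hL.fderiv_right (by norm_cast)
    have hL1 : ContDiff ℝ (J + m : ℕ) (fun p => D (fderiv ℝ Lam p)) := D.contDiff.comp hLd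
    have hsub : tsupport (fun p => D (fderiv ℝ Lam p)) ⊆ tsupport Lam :=
      (TP.post_supp D (fderiv ℝ Lam)).trans (tsupport_fderiv_subset ℝ)
    have hs1 : HasCompactSupport (fun p => D (fderiv ℝ Lam p)) :=
      hs.of_isClosed_subset (isClosed_tsupport _) hsub
    have hle : ∀ j ≤ J + m, ∀ p, ‖iteratedFDeriv ℝ j (fun p => D (fderiv ℝ Lam p)) p‖ ≤
        ‖iteratedFDeriv ℝ (j + 1) Lam p‖ := by
      intro j hj p
      have h1 := D.norm_iteratedFDeriv_comp_left (hLd.contDiffAt (x := p)) (n := j)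
        (by exact_mod_cast hj)
      calc ‖iteratedFDeriv ℝ j (fun p => D (fderiv ℝ Lam p)) p‖ ≤
          ‖D‖ * ‖iteratedFDeriv ℝ j (fderiv ℝ Lam) p‖ := h1
        _ ≤ 1 * ‖iteratedFDeriv ℝ j (fderiv ℝ Lam) p‖ := by gcongr
        _ = ‖iteratedFDeriv ℝ (j + 1) Lam p‖ := by rw [one_mul, norm_iteratedFDeriv_fderiv]
    have hN1 : ∀ j ≤ J + m, ∀ p, ‖iteratedFDeriv ℝ j (fun p => D (fderiv ℝ Lam p)) p‖ ≤ N :=
      fun j hj p => (hle j hj p).trans (hN (j + 1) (by omega) p)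
    obtain ⟨Psi, hP1, hP2, hP3, hP5, hP4⟩ := ih (Fin.tail al) (fun i => hal _) J _ N hL1 hs1 hN1
    refine ⟨Psi, hP1, hP2, hP3.trans hsub, fun p => (hP5 p).trans (hle m (by omega) p), ?_⟩
    intro f hf
    rw [← hP4 f hf]
    have hg : ContDiff ℝ 1 (iteratedFDeriv ℝ m f) :=
      hf.iteratedFDeriv_right (by norm_cast; exact le_top)
    have hg1 : ContDiff ℝ 1 (fun p => iteratedFDeriv ℝ m f p (Fin.tail al)) :=
      (ContinuousMultilinearMap.apply ℝ (fun _ : Fin m => Sp d) F (Fin.tail al)).contDiff.comp hg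
    have h1 := TP.ibp_one B (hL.of_le (by norm_cast; omega)) hs hg1 (al 0)
    have h2 : ∀ p, fderiv ℝ (fun p => iteratedFDeriv ℝ m f p (Fin.tail al)) p (al 0) =
        iteratedFDeriv ℝ (m + 1) f p al := by
      intro p
      rw [iteratedFDeriv_succ_apply_left, fderiv_continuousMultilinear_apply_const_apply]
      exact hg.differentiable (by simp) p
    simp_rw [h2] at h1
    exact h1

end IBP

section Cyl

/-- constant in the direction ν -/
def CN {F : Type*} (ν : Sp d) (K : Sp d → F) : Prop := ∀ (y : Sp d) (t : ℝ), K (y + t • ν) = K y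

theorem tang_add {ν : Sp d} (hν : ‖ν‖ = 1) (y : Sp d) (t : ℝ) : tang ν (y + t • ν) = tang ν y := by
  unfold tang
  rw [inner_add_right, inner_smul_right, real_inner_self_eq_norm_sq, hν]
  simp only [one_pow, mul_one, add_smul]
  abel

theorem CN.of_tang {F : Type*} {ν : Sp d} (hν : ‖ν‖ = 1) {K : Sp d → F}
    (h : ∀ y, K y = K (tang ν y)) : CN ν K := by
  intro y t
  rw [h (y + t • ν), tang_add hν, ← h]

theorem CN.fderiv {F : Type*} [NormedAddCommGroup F] [NormedSpace ℝ F] {ν : Sp d} {K : Sp d → F}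
    (h : CN ν K) : CN ν (fderiv ℝ K) := by
  intro y t
  have h1 : (fun x => K (x + t • ν)) = K := funext fun x => h x t
  have h2 := fderiv_comp_add_right (𝕜 := ℝ) (f := K) (x := y) (t • ν)
  rw [h1] at h2
  exact h2.symm

theorem CN.comp {F F' : Type*} {ν : Sp d} {K : Sp d → F} (h : CN ν K) (G : F → F') :
    CN ν (fun y => G (K y)) := fun y t => congrArg G (h y t)

theorem CN.fderiv_apply {F : Type*} [NormedAddCommGroup F] [NormedSpace ℝ F] {ν : Sp d}
    {K : Sp d → F} (hK : Differentiable ℝ K) (h : CN ν K) (y : Sp d) : _root_.fderiv ℝ K y ν = 0 := by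
  have h1 : HasDerivAt (fun t : ℝ => y + t • ν) ν 0 := by
    simpa using ((hasDerivAt_id (0 : ℝ)).smul_const ν).const_add y
  have h2 := (hK (y + (0 : ℝ) • ν)).hasFDerivAt.comp_hasDerivAt 0 h1
  have h3 : (K ∘ fun t : ℝ => y + t • ν) = fun _ => K y := funext fun t => h y t
  rw [h3] at h2
  have h4 := h2.unique (hasDerivAt_const (0 : ℝ) (K y))
  simpa using h4

/-- derivative of a product with a function of the height -/
theorem fderiv_ht_smul {F : Type*} [NormedAddCommGroup F] [NormedSpace ℝ F] {a : ℝ → ℝ}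
    (ha : Differentiable ℝ a) {K : Sp d → F} (hK : Differentiable ℝ K) (ν : Sp d) (c : ℝ)
    (y h : Sp d) :
    _root_.fderiv ℝ (fun y => a (ht ν c y) • K y) y h =
      a (ht ν c y) • _root_.fderiv ℝ K y h + (deriv a (ht ν c y) * ⟪ν, h⟫_ℝ) • K y := by
  have h1 : HasFDerivAt (ht ν c) (innerSL ℝ ν) y := (innerSL ℝ ν).hasFDerivAt.sub_const c
  have h2 : HasFDerivAt (fun y => a (ht ν c y)) (deriv a (ht ν c y) • (innerSL ℝ ν)) y :=
    (ha (ht ν c y)).hasDerivAt.comp_hasFDerivAt y h1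
  have h3 := h2.smul (hK y).hasFDerivAt
  have h4 : _root_.fderiv ℝ (fun y => a (ht ν c y) • K y) y = _ := h3.fderiv
  rw [h4]
  simp

/-- the adjoint operator of a product with a function of the height -/
theorem dV_ht_smul (L : (Sp d →L[ℝ] V) →L[ℝ] E) {a : ℝ → ℝ}
    (ha : Differentiable ℝ a) {K : Sp d → E} (hK : Differentiable ℝ K) (ν : Sp d) (c : ℝ)
    (y : Sp d) :
    dV L (fun y => a (ht ν c y) • K y) y =
      a (ht ν c y) • dV L K y + deriv a (ht ν c y) • AT L ν (K y) := by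
  refine ext_inner_left ℝ fun v => ?_
  rw [inner_add_right, inner_smul_right, inner_smul_right, inner_dV, inner_dV, inner_AT, L_rk1,
    sum_inner]
  unfold dvE
  rw [Finset.mul_sum, Finset.mul_sum, ← Finset.sum_add_distrib]
  refine Finset.sum_congr rfl fun j _ => ?_
  rw [fderiv_ht_smul ha hK, inner_add_right, inner_smul_right, inner_smul_right, inner_smul_left]
  have : ⟪ν, (EuclideanSpace.single j (1 : ℝ) : Sp d)⟫_ℝ = ν j := by
    rw [real_inner_comm]
    simp [EuclideanSpace.inner_single_left]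
  rw [this]
  simp only [conj_trivial]
  ring

end Cyl

end SH
end TG
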