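import Pool.Agent.TG.SHA1

/-!
# Module SHA, part 2: the corrected field (MP_287c87_an; helper22)
-/

set_option linter.unusedSectionVars false

open MeasureTheory Metric Set TrI
open scoped InnerProductSpace ContDiff Nat

namespace TG
namespace SH

theorem nat_le_inf (k : ℕ) : ((k : ℕ) : WithTop ℕ∞) ≤ ∞ := by exact_mod_cast le_top

section Line

theorem cu1_one {ρ t : ℝ} (h : |t| ≤ ρ) : cu1 ρ t = 1 :=
  Real.smoothTransition.one_of_one_le (by linarith)

theorem cu1_zero {ρ t : ℝ} (h : ρ + 1 ≤ |t|) : cu1 ρ t = 0 :=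
  Real.smoothTransition.zero_of_nonpos (by linarith)

theorem cu1_contDiff {k : WithTop ℕ∞} (hk : k ≤ ∞) {ρ : ℝ} (hρ : 0 < ρ) : ContDiff ℝ k (cu1 ρ) := by
  refine ContDiff.of_le ?_ hk
  rw [contDiff_iff_contDiffAt]
  intro x
  by_cases hx : x = 0
  · subst hx
    have h : (fun _ : ℝ => (1 : ℝ)) =ᶠ[nhds (0 : ℝ)] cu1 ρ := by
      filter_upwards [Metric.ball_mem_nhds (0 : ℝ) hρ] with y hy
      rw [mem_ball_zero_iff, Real.norm_eq_abs] at hy
      exact (cu1_one hy.le).symm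
    exact contDiffAt_const.congr_of_eventuallyEq h.symm
  · unfold cu1
    exact Real.smoothTransition.contDiff.contDiffAt.comp x
      (contDiffAt_const.sub (contDiffAt_abs hx))

theorem cu1_cs (ρ : ℝ) : HasCompactSupport (cu1 ρ) := by
  refine HasCompactSupport.intro (isCompact_closedBall (0 : ℝ) (ρ + 1)) fun y hy => ?_
  rw [mem_closedBall_zero_iff, not_le, Real.norm_eq_abs] at hy
  exact cu1_zero hy.le

/-- bounds of all derivatives of a smooth function with compact support -/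
theorem line_bd {a : ℝ → ℝ} (ha : ContDiff ℝ ∞ a) (hc : HasCompactSupport a) (J : ℕ) :
    ∃ A : ℝ, 0 < A ∧ ∀ j ≤ J, ∀ t, |iteratedDeriv j a t| ≤ A := by
  have h1 : ∀ j : ℕ, ∃ N : ℝ, ∀ x, ‖iteratedFDeriv ℝ j a x‖ ≤ N := fun j =>
    (hc.iteratedFDeriv (𝕜 := ℝ) j).exists_bound_of_continuous
        (ha.continuous_iteratedFDeriv (by exact_mod_cast le_top))
  choose N hN using h1
  refine ⟨∑ j ∈ Finset.range (J + 1), |N j| + 1, by positivity, fun j hj x => ?_⟩
  have h2 := Finset.single_le_sum (f := fun j => |N j|) (fun i _ => abs_nonneg (N i))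
    (Finset.mem_range.2 (Nat.lt_succ_of_le hj))
  have h3 := hN j x
  rw [norm_iteratedFDeriv_eq_norm_iteratedDeriv, Real.norm_eq_abs] at h3
  have h4 := le_abs_self (N j)
  linarith

/-- the function ρ -/
noncomputable def rho (m : ℕ) (t : ℝ) : ℝ := ((m + 2)! : ℝ)⁻¹ * t ^ (m + 2) * cu1 4 t

theorem rho_contDiff (m : ℕ) : ContDiff ℝ ∞ (rho m) := by
  unfold rho
  exact (contDiff_const.mul (contDiff_id.pow _)).mul (cu1_contDiff le_rfl (by norm_num))

theorem rho_cs (m : ℕ) : HasCompactSupport (rho m) := (cu1_cs 4).mul_left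

theorem rho_iter (m j : ℕ) {t : ℝ} (ht : |t| < 4) : iteratedDeriv j (rho m) t =
    ((m + 2)! : ℝ)⁻¹ * (((m + 2).descFactorial j : ℝ) * t ^ (m + 2 - j)) := by
  have h : rho m =ᶠ[nhds t] fun t => ((m + 2)! : ℝ)⁻¹ * t ^ (m + 2) := by
    filter_upwards [(isOpen_lt continuous_abs continuous_const).mem_nhds ht] with y hy
    unfold rho
    rw [cu1_one (le_of_lt hy), mul_one]
  rw [Filter.EventuallyEq.iteratedDeriv_eq j h, iteratedDeriv_const_mul_field]
  congr 1
  exact iteratedDeriv_pow (𝕜 := ℝ) (m + 2) j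

theorem rho_zero (m j : ℕ) {t : ℝ} (ht : 5 < |t|) : iteratedDeriv j (rho m) t = 0 := by
  have h : rho m =ᶠ[nhds t] fun _ => (0 : ℝ) := by
    filter_upwards [(isOpen_lt continuous_const continuous_abs).mem_nhds ht] with y hy
    unfold rho
    rw [cu1_zero (by have : (5 : ℝ) < |y| := hy
                     linarith), mul_zero]
  rw [Filter.EventuallyEq.iteratedDeriv_eq j h]
  simp

/-- low derivatives vanish quadratically -/
theorem rho_quad (m : ℕ) : ∃ A : ℝ, 0 < A ∧ ∀ j ≤ m, ∀ t, |iteratedDeriv j (rho m) t| ≤ A * t ^ 2 := by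
  obtain ⟨A, hA, hb⟩ := line_bd (rho_contDiff m) (rho_cs m) m
  refine ⟨A + 4 ^ m * (m + 2)! + 1, by positivity, fun j hj t => ?_⟩
  rcases lt_or_ge |t| 4 with h | h
  · rw [rho_iter m j h, abs_mul, abs_mul, abs_inv, Nat.abs_cast, Nat.abs_cast, abs_pow]
    have e1 : m + 2 - j = (m - j) + 2 := by omega
    rw [e1, pow_add, sq_abs]
    have h1 : ((m + 2)! : ℝ)⁻¹ ≤ 1 :=
      inv_le_one_of_one_le₀ (by exact_mod_cast Nat.one_le_iff_ne_zero.mpr (Nat.factorial_ne_zero _))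
    have h2 : |t| ^ (m - j) ≤ 4 ^ m := by
      calc |t| ^ (m - j) ≤ 4 ^ (m - j) := pow_le_pow_left₀ (abs_nonneg t) h.le _
        _ ≤ 4 ^ m := pow_le_pow_right₀ (by norm_num) (by omega)
    have h3 : ((m + 2).descFactorial j : ℝ) ≤ (m + 2)! := by
      have h5 := Nat.factorial_mul_descFactorial (show j ≤ m + 2 by omega)
      have h6 : 1 ≤ (m + 2 - j)! := Nat.one_le_iff_ne_zero.mpr (Nat.factorial_ne_zero _)
      exact_mod_cast (show (m + 2).descFactorial j ≤ (m + 2)! by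
        rw [← h5]
        exact Nat.le_mul_of_pos_left _ h6)
    calc ((m + 2)! : ℝ)⁻¹ * (((m + 2).descFactorial j : ℝ) * (|t| ^ (m - j) * t ^ 2))
        ≤ 1 * (((m + 2)! : ℝ) * (4 ^ m * t ^ 2)) := by gcongr
      _ ≤ _ := by nlinarith [sq_nonneg t]
  · have h1 : (1 : ℝ) ≤ t ^ 2 := by
      rw [← sq_abs]
      nlinarith
    have h2 : (0 : ℝ) ≤ 4 ^ m * (m + 2)! := by positivity
    calc _ ≤ A := hb j hj t
      _ ≤ (A + 4 ^ m * (m + 2)! + 1) * t ^ 2 := by nlinarith

/-- the remainder -/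
noncomputable def rr (m : ℕ) (t : ℝ) : ℝ := iteratedDeriv (m + 1) (rho m) t - t * cu1 4 t

theorem rr_contDiff (m : ℕ) : ContDiff ℝ ∞ (rr m) := by
  unfold rr
  refine ContDiff.sub ?_ (contDiff_id.mul (cu1_contDiff le_rfl (by norm_num)))
  rw [iteratedDeriv_eq_iterate]
  exact (rho_contDiff m).iterate_deriv (m + 1)

theorem rr_zero (m : ℕ) {t : ℝ} (h : |t| < 4 ∨ 5 < |t|) : rr m t = 0 := by
  unfold rr
  rcases h with h | h
  · rw [rho_iter m _ h, cu1_one h.le]
    have e1 : m + 2 - (m + 1) = 1 := by omega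
    have e2 : (m + 2).descFactorial (m + 1) = (m + 2)! := by
      have := Nat.factorial_mul_descFactorial (show m + 1 ≤ m + 2 by omega)
      rw [e1] at this
      simpa using this
    rw [e1, e2, pow_one, mul_one, ← mul_assoc, inv_mul_cancel₀ (by positivity), one_mul, sub_self]
  · rw [rho_zero m _ h, cu1_zero (by linarith), mul_zero, sub_zero]

end Line

section Supports

variable {d : ℕ}

theorem tang_continuous (ν : Sp d) : Continuous (tang ν) := by
  unfold tang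
  fun_prop

theorem norm_le_tang {ν : Sp d} (hν : ‖ν‖ = 1) (c : ℝ) (y : Sp d) :
    ‖y‖ ≤ ‖tang ν y‖ + |ht ν c y| + |c| := by
  have h1 : y = tang ν y + ⟪ν, y⟫_ℝ • ν := by
    unfold tang
    abel
  have h2 : |⟪ν, y⟫_ℝ| ≤ |ht ν c y| + |c| := by
    have : ⟪ν, y⟫_ℝ = ht ν c y + c := by unfold ht; ring
    rw [this]
    exact abs_add_le _ _
  calc ‖y‖ = ‖tang ν y + ⟪ν, y⟫_ℝ • ν‖ := by rw [← h1]
    _ ≤ ‖tang ν y‖ + ‖⟪ν, y⟫_ℝ • ν‖ := norm_add_le _ _
    _ = ‖tang ν y‖ + |⟪ν, y⟫_ℝ| := by rw [norm_smul, hν, mul_one, Real.norm_eq_abs]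
    _ ≤ _ := by linarith

/-- the cylinder -/
def cyl (ν : Sp d) (c A ρ : ℝ) : Set (Sp d) := {y | |ht ν c y| ≤ A ∧ ‖tang ν y‖ ≤ ρ}

theorem cyl_closed (ν : Sp d) (c A ρ : ℝ) : IsClosed (cyl ν c A ρ) :=
  (isClosed_le (ht_continuous ν c).abs continuous_const).inter
    (isClosed_le (tang_continuous ν).norm continuous_const)

theorem cyl_compact {ν : Sp d} (hν : ‖ν‖ = 1) (c A ρ : ℝ) : IsCompact (cyl ν c A ρ) := by
  refine (isCompact_closedBall (0 : Sp d) (ρ + A + |c|)).of_isClosed_subset (cyl_closed ν c A ρ)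
    fun y hy => ?_
  rw [mem_closedBall_zero_iff]
  have := norm_le_tang hν c y
  linarith [hy.1, hy.2]

theorem cyl_tsupport {F : Type*} [Zero F] {ν : Sp d} {c A ρ : ℝ} {K : Sp d → F}
    (h : ∀ y, K y ≠ 0 → y ∈ cyl ν c A ρ) : tsupport K ⊆ cyl ν c A ρ :=
  closure_minimal (fun y hy => h y hy) (cyl_closed ν c A ρ)

theorem cyl_cs {F : Type*} [Zero F] {ν : Sp d} (hν : ‖ν‖ = 1) {c A ρ : ℝ} {K : Sp d → F}
    (h : ∀ y, K y ≠ 0 → y ∈ cyl ν c A ρ) : HasCompactSupport K :=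
  (cyl_compact hν c A ρ).of_isClosed_subset (isClosed_tsupport _) (cyl_tsupport h)

theorem prod_supp {F : Type*} [NormedAddCommGroup F] [NormedSpace ℝ F] {ν : Sp d} {c A ρ : ℝ}
    {a : ℝ → ℝ} (ha : ∀ t, A < |t| → a t = 0) {K : Sp d → F} (hK : ∀ y, K y ≠ 0 → ‖tang ν y‖ ≤ ρ)
    (y : Sp d) (hy : a (ht ν c y) • K y ≠ 0) : y ∈ cyl ν c A ρ := by
  constructor
  · by_contra h
    push Not at h
    exact hy (by rw [ha _ h, zero_smul])
  · exact hK y (fun h => hy (by rw [h, smul_zero]))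

theorem deriv_supp {A : ℝ} {a : ℝ → ℝ} (ha : ∀ t, A < |t| → a t = 0) (t : ℝ) (h : A < |t|) :
    deriv a t = 0 := by
  have h1 : a =ᶠ[nhds t] fun _ => (0 : ℝ) := by
    filter_upwards [(isOpen_lt continuous_const continuous_abs).mem_nhds h] with y hy
    exact ha y hy
  rw [h1.deriv_eq]
  simp

theorem fderiv_tang_supp {F : Type*} [NormedAddCommGroup F] [NormedSpace ℝ F] {ν : Sp d} {ρ : ℝ}
    {K : Sp d → F} (hK : ∀ y, K y ≠ 0 → ‖tang ν y‖ ≤ ρ) (y : Sp d) (hy : fderiv ℝ K y ≠ 0) :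
    ‖tang ν y‖ ≤ ρ := by
  have h1 : y ∈ tsupport K := support_fderiv_subset ℝ hy
  have h2 : tsupport K ⊆ {y | ‖tang ν y‖ ≤ ρ} :=
    closure_minimal (fun y hy => hK y hy) (isClosed_le (tang_continuous ν).norm continuous_const)
  exact h2 h1

end Supports

section Iter

variable {d : ℕ} {V E : Type} [NormedAddCommGroup V] [InnerProductSpace ℝ V]
  [FiniteDimensional ℝ V] [NormedAddCommGroup E] [InnerProductSpace ℝ E] [FiniteDimensional ℝ E]

/-- iterated normal derivatives -/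
theorem iter_id {u : Sp d → V} (hu : ContDiff ℝ ∞ u) {ν : Sp d} (hν : ‖ν‖ = 1) (c : ℝ) {A ρ : ℝ}
    {K : Sp d → V} (hK : ContDiff ℝ 1 K) (hKc : CN ν K) (hKs : ∀ y, K y ≠ 0 → ‖tang ν y‖ ≤ ρ)
    (m : ℕ) : ∀ a : ℝ → ℝ, ContDiff ℝ ∞ a → (∀ t, A < |t| → a t = 0) →
      ∫ y, ⟪a (ht ν c y) • K y, iteratedFDeriv ℝ m u y (fun _ => ν)⟫_ℝ =
        (-1) ^ m * ∫ y, ⟪iteratedDeriv m a (ht ν c y) • K y, u y⟫_ℝ := by
  induction m with
  | zero =>
    intro a _ _
    simp
  | succ m ih =>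
    intro a ha hA
    have h1 := ih (deriv a) (by
      have := ha.iterate_deriv 1
      simpa using this) (deriv_supp hA)
    have hg : ContDiff ℝ 1 (fun y => iteratedFDeriv ℝ m u y (fun _ => ν)) :=
      (ContinuousMultilinearMap.apply ℝ (fun _ : Fin m => Sp d) V (fun _ => ν)).contDiff.comp
        (hu.iteratedFDeriv_right (by norm_cast; exact le_top))
    have hP : ContDiff ℝ 1 (fun y => a (ht ν c y) • K y) :=
      (comp_ht_contDiff (ha.of_le (by exact_mod_cast le_top)) ν c).smul hK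
    have h2 := TP.ibp_one (TP.ip V) hP (cyl_cs hν (prod_supp (c := c) hA hKs)) hg ν
    simp only [TP.ip_apply] at h2
    have h3 : ∀ y, fderiv ℝ (fun y => iteratedFDeriv ℝ m u y (fun _ => ν)) y ν =
        iteratedFDeriv ℝ (m + 1) u y (fun _ => ν) := by
      intro y
      rw [iteratedFDeriv_succ_apply_left, fderiv_continuousMultilinear_apply_const_apply]
      · rfl
      · exact (hu.differentiable_iteratedFDeriv (by exact_mod_cast ENat.natCast_lt_top m)) y
    have h4 : ∀ y, fderiv ℝ (fun y => a (ht ν c y) • K y) y (-ν) =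
        -(deriv a (ht ν c y) • K y) := by
      intro y
      rw [map_neg, fderiv_ht_smul (ha.differentiable (by simp)) (hK.differentiable (by simp)),
        hKc.fderiv_apply (hK.differentiable (by simp)), smul_zero, zero_add,
        real_inner_self_eq_norm_sq, hν]
      simp
    simp_rw [h3, h4] at h2
    rw [h2]
    simp only [inner_neg_left]
    rw [integral_neg, h1, iteratedDeriv_succ', pow_succ]
    ring

/-- the corrected field -/
theorem corr (L : (Sp d →L[ℝ] V) →L[ℝ] E) (m : ℕ)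
    (T : (ContinuousMultilinearMap ℝ (fun _ : Fin m => Sp d) E) →L[ℝ]
      (ContinuousMultilinearMap ℝ (fun _ : Fin (m + 1) => Sp d) V)) (hNS : NSProp L m T) :
    ∃ C : ℝ, 0 < C ∧ ∀ (ν : Sp d), ‖ν‖ = 1 → ∀ (c ρ : ℝ) (k : Sp d → V) (N : ℝ),
      TFn (2 + m) N k → CN ν k → (∀ y, k y ≠ 0 → ‖tang ν y‖ ≤ ρ) →
      ∃ X : Sp d → E, TFn 2 (C * N) X ∧ (∀ y, ‖X y‖ ≤ C * N * ht ν c y ^ 2) ∧
        (∀ y, X y ≠ 0 → y ∈ cyl ν c 5 ρ) ∧
        ∀ u : Sp d → V, ContDiff ℝ ∞ u →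
          ∫ y, ⟪iteratedDeriv (m + 1) (rho m) (ht ν c y) • k y, u y⟫_ℝ =
            ∫ y, ⟪X y, fo L u y⟫_ℝ := by
  have hVc : CompleteSpace V := FiniteDimensional.complete ℝ V
  have hEc : CompleteSpace E := FiniteDimensional.complete ℝ E
  obtain ⟨A1, hA1, hb1⟩ := line_bd (rho_contDiff m) (rho_cs m) (2 + m)
  obtain ⟨A2, hA2, hb2⟩ := rho_quad m
  set Q : ℝ := ∑ al : Fin m → Fin d, ‖TP.Sc T al‖ with hQ
  have hQ0 : 0 ≤ Q := Finset.sum_nonneg fun al _ => (TP.Sc T al).opNorm_nonneg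
  refine ⟨2 ^ (2 + m) * A1 * Q + 2 ^ m * A2 * Q + 1, by positivity, ?_⟩
  intro ν hν c ρ k N hk hkc hks
  have hN := tfn_nonneg hk
  -- the transposed components
  set P : (Fin m → Fin d) → (V →L[ℝ] E) := fun al =>
    ContinuousLinearMap.adjoint (TP.Dg (TP.Sc T al) ν) with hP
  have hPn : ∀ al, ‖P al‖ ≤ ‖TP.Sc T al‖ := by
    intro al
    have e1 : ‖P al‖ = ‖TP.Dg (TP.Sc T al) ν‖ :=
      LinearIsometryEquiv.norm_map ContinuousLinearMap.adjoint _
    rw [e1]
    refine ContinuousLinearMap.opNorm_le_bound _ (TP.Sc T al).opNorm_nonneg fun e => ?_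
    rw [TP.Dg_apply]
    refine ((TP.Sc T al e).le_opNorm _).trans ?_
    rw [Finset.prod_const, hν, one_pow, mul_one]
    exact (TP.Sc T al).le_opNorm e
  set Lam : (Fin m → Fin d) → Sp d → E := fun al y => rho m (ht ν c y) • P al (k y) with hLam
  have hLt : ∀ al, TFn (2 + m) (2 ^ (2 + m) * A1 * (‖TP.Sc T al‖ * N)) (Lam al) := by
    intro al
    have hr2 : ContDiff ℝ (2 + m : ℕ) (rho m) := (rho_contDiff m).of_le (nat_le_inf _)
    refine tfn_htmul hr2 hb1 hν c
      (tfn_le (tfn_clm (P al) hk) le_rfl ?_)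
    gcongr
    exact hPn al
  have hrs : ∀ t : ℝ, 5 < |t| → rho m t = 0 := fun t ht => rho_zero m 0 ht
  have hLs : ∀ al y, Lam al y ≠ 0 → y ∈ cyl ν c 5 ρ := fun al y hy =>
    prod_supp hrs (K := fun y => P al (k y)) (fun y hy => hks y (fun h => hy (by
      show P al (k y) = 0
      rw [h, map_zero]))) y hy
  have hLq : ∀ al p, ‖iteratedFDeriv ℝ m (Lam al) p‖ ≤
      2 ^ m * A2 * ‖TP.Sc T al‖ * N * ht ν c p ^ 2 := by
    intro al p
    have hPk : TFn (2 + m) (‖TP.Sc T al‖ * N) (fun y => P al (k y)) :=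
      tfn_le (tfn_clm (P al) hk) le_rfl (by gcongr; exact hPn al)
    have hPk' : TFn m (‖TP.Sc T al‖ * N) (fun y => P al (k y)) := tfn_le hPk (by omega) le_rfl
    have hr : ContDiff ℝ m (rho m) := (rho_contDiff m).of_le (by exact_mod_cast le_top)
    have h := TP.leib (ContinuousLinearMap.lsmul ℝ ℝ : ℝ →L[ℝ] E →L[ℝ] E)
      (comp_ht_contDiff hr ν c) hPk'.smooth p (N1 := A2 * ht ν c p ^ 2) (N2 := ‖TP.Sc T al‖ * N)
      (fun j hj => (comp_ht hr hν c p hj).trans (hb2 j hj _)) (fun j hj => hPk'.bd j hj p) m le_rfl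
    refine h.trans ?_
    have h2 : ‖(ContinuousLinearMap.lsmul ℝ ℝ : ℝ →L[ℝ] E →L[ℝ] E)‖ ≤ 1 :=
      ContinuousLinearMap.opNorm_lsmul_le
    calc 2 ^ m * ‖(ContinuousLinearMap.lsmul ℝ ℝ : ℝ →L[ℝ] E →L[ℝ] E)‖ * (A2 * ht ν c p ^ 2) *
          (‖TP.Sc T al‖ * N)
        ≤ 2 ^ m * 1 * (A2 * ht ν c p ^ 2) * (‖TP.Sc T al‖ * N) := by gcongr
      _ = _ := by ring
  choose Psi hP1 hP2 hP3 hP5 hP4 using fun al => ibp_pt (TP.ip E) m
    (fun i => (TP.ei (al i) : Sp d)) (fun i => by simp [TP.ei]) 2 (Lam al) _ (hLt al).smooth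
    (cyl_cs hν (hLs al)) (hLt al).bd
  have hPt : ∀ al, TFn 2 (2 ^ (2 + m) * A1 * (‖TP.Sc T al‖ * N)) (Psi al) := fun al =>
    ⟨hP1 al, hP2 al⟩
  have hsum : ContDiff ℝ 2 (fun p => ∑ al, Psi al p) := ContDiff.sum fun al _ => hP1 al
  have hsumt : TFn 2 (2 ^ (2 + m) * A1 * Q * N) (fun p => ∑ al, Psi al p) := by
    refine ⟨hsum, fun j hj p => ?_⟩
    have e1 := iteratedFDeriv_sum (𝕜 := ℝ) (u := (Finset.univ : Finset (Fin m → Fin d)))
      (f := Psi) (i := j) (fun al _ => (hP1 al).of_le (by exact_mod_cast hj))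
    rw [e1, Finset.sum_apply]
    refine (norm_sum_le _ _).trans ((Finset.sum_le_sum fun al _ => hP2 al j hj p).trans ?_)
    rw [← Finset.mul_sum, ← Finset.sum_mul, ← hQ]
    exact le_of_eq (by ring)
  refine ⟨fun p => (-1 : ℝ) ^ (m + 1) • ∑ al, Psi al p, ?_, ?_, ?_, ?_⟩
  · have := tfn_smul hsumt ((-1 : ℝ) ^ (m + 1))
    refine tfn_le this le_rfl ?_
    rw [abs_pow, abs_neg, abs_one, one_pow, one_mul]
    have : 0 ≤ 2 ^ m * A2 * Q := by positivity
    nlinarith
  · intro y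
    rw [norm_smul, norm_pow, norm_neg, norm_one, one_pow, one_mul]
    refine (norm_sum_le _ _).trans ((Finset.sum_le_sum fun al _ => (hP5 al y).trans (hLq al y)).trans ?_)
    have e1 : ∑ al : Fin m → Fin d, 2 ^ m * A2 * ‖TP.Sc T al‖ * N * ht ν c y ^ 2 =
        2 ^ m * A2 * Q * N * ht ν c y ^ 2 := by
      rw [hQ, Finset.mul_sum, Finset.sum_mul, Finset.sum_mul]
    rw [e1]
    have h1 : 0 ≤ N * ht ν c y ^ 2 := by positivity
    have h2 : 0 ≤ 2 ^ (2 + m) * A1 * Q + 1 := by positivity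
    nlinarith [mul_nonneg h1 h2]
  · intro y hy
    by_contra h
    apply hy
    have : ∀ al, Psi al y = 0 := fun al => by
      by_contra h2
      exact h (cyl_tsupport (hLs al) (hP3 al (subset_closure h2)))
    simp only [this, Finset.sum_const_zero, smul_zero]
  · intro u hu
    have hf : ContDiff ℝ ∞ (fo L u) := by
      have : ContDiff ℝ ∞ (fderiv ℝ u) := hu.fderiv_right (m := ∞) le_rfl
      exact L.contDiff.comp this
    have hfc : Continuous (fo L u) := hf.continuous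
    have h1 := iter_id hu hν c (hk.smooth.of_le (by norm_cast; omega)) hkc hks (m + 1) (rho m)
      (rho_contDiff m) hrs
    have h2 : ∀ y, ⟪rho m (ht ν c y) • k y, iteratedFDeriv ℝ (m + 1) u y (fun _ => ν)⟫_ℝ =
        ∑ al, TP.ip E (Lam al y) (iteratedFDeriv ℝ m (fo L u) y (fun i => TP.ei (al i))) := by
      intro y
      rw [hNS u hu, TP.sum_Sc T, sum_apply, inner_sum]
      refine Finset.sum_congr rfl fun al _ => ?_
      rw [TP.ip_apply]
      have e1 : Lam al y = P al (rho m (ht ν c y) • k y) := by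
        simp only [hLam]
        rw [map_smul]
      rw [e1, hP]
      simp only
      rw [ContinuousLinearMap.adjoint_inner_left]
      rfl
    have hci : ∀ al, Integrable (fun y => TP.ip E (Lam al y)
        (iteratedFDeriv ℝ m (fo L u) y (fun i => TP.ei (al i)))) := by
      intro al
      have e1 : Continuous (Lam al) := (hLt al).smooth.continuous
      have e2 : Continuous (iteratedFDeriv ℝ m (fo L u)) :=
        hf.continuous_iteratedFDeriv (by exact_mod_cast le_top)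
      have e3 : Continuous (fun y => TP.ip E (Lam al y)
        (iteratedFDeriv ℝ m (fo L u) y (fun i => (TP.ei (al i) : Sp d)))) := by fun_prop
      refine e3.integrable_of_hasCompactSupport ((cyl_cs hν (hLs al)).mono' fun y hy => ?_)
      rw [Function.mem_support] at hy
      refine subset_closure fun h0 => hy ?_
      rw [h0, map_zero, zero_apply]
    have hci' : ∀ al, Integrable (fun y => TP.ip E (Psi al y) (fo L u y)) := by
      intro al
      have e1 : Continuous (Psi al) := (hP1 al).continuous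
      have e2 : HasCompactSupport (Psi al) :=
        (cyl_cs hν (hLs al)).of_isClosed_subset (isClosed_tsupport _) (hP3 al)
      refine Continuous.integrable_of_hasCompactSupport (by fun_prop) (e2.mono' fun y hy => ?_)
      rw [Function.mem_support] at hy
      refine subset_closure fun h0 => hy ?_
      rw [h0, map_zero, zero_apply]
    simp_rw [h2] at h1
    rw [integral_finsetSum _ fun al _ => hci al] at h1
    have h3 : ∑ al, ∫ y, TP.ip E (Lam al y)
        (iteratedFDeriv ℝ m (fo L u) y (fun i => TP.ei (al i))) =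
        ∫ y, ⟪∑ al, Psi al y, fo L u y⟫_ℝ := by
      rw [Finset.sum_congr rfl fun al _ => hP4 al (fo L u) hf, ← integral_finsetSum _
        fun al _ => hci' al]
      refine integral_congr_ae (Filter.Eventually.of_forall fun y => ?_)
      simp only [TP.ip_apply, sum_inner]
    rw [h3] at h1
    have h4 : ∫ y, ⟪(-1 : ℝ) ^ (m + 1) • ∑ al, Psi al y, fo L u y⟫_ℝ =
        (-1 : ℝ) ^ (m + 1) * ∫ y, ⟪∑ al, Psi al y, fo L u y⟫_ℝ := by
      rw [← integral_const_mul]
      refine integral_congr_ae (Filter.Eventually.of_forall fun y => ?_)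
      simp only [inner_smul_left, conj_trivial]
    rw [h4, h1, ← mul_assoc, ← mul_pow]
    norm_num

end Iter

end SH
end TG
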