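import Pool.Agent.TG.SHA2

/-!
# Module SHA, part 3: the field and its image under the adjoint operator (MP_287c87_an; helper22)
-/

set_option linter.unusedSectionVars false

open MeasureTheory Metric Set TrI
open scoped InnerProductSpace ContDiff Nat

namespace TG
namespace SH

variable {d : ℕ} {V E : Type} [NormedAddCommGroup V] [InnerProductSpace ℝ V]
  [FiniteDimensional ℝ V] [NormedAddCommGroup E] [InnerProductSpace ℝ E] [FiniteDimensional ℝ E]

section Symbol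

/-- uniform injectivity of the symbol -/
theorem lower (L : (Sp d →L[ℝ] V) →L[ℝ] E) (hC : CEll L) : ∃ κ : ℝ, 0 < κ ∧
    ∀ ν : Sp d, ‖ν‖ = 1 → ∀ v : V, κ * ‖v‖ ≤ ‖L (rk1 ν v)‖ := by
  have hcont : Continuous fun p : Sp d × V => ‖L (rk1 p.1 p.2)‖ := by
    have h1 : Continuous fun p : Sp d × V => rk1 p.1 p.2 := by
      have h2 := (ContinuousLinearMap.smulRightL ℝ (Sp d) V).continuous₂.comp
        (((innerSL ℝ).continuous.comp continuous_fst).prodMk (continuous_snd (X := Sp d) (Y := V)))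
      exact h2
    exact (L.continuous.comp h1).norm
  have hK : IsCompact (sphere (0 : Sp d) 1 ×ˢ sphere (0 : V) 1) :=
    (isCompact_sphere _ _).prod (isCompact_sphere _ _)
  by_cases hne : (sphere (0 : Sp d) 1 ×ˢ sphere (0 : V) 1).Nonempty
  · obtain ⟨p, hp, hmin⟩ := hK.exists_isMinOn hne hcont.continuousOn
    have hp1 : ‖p.1‖ = 1 := by simpa using hp.1
    have hp2 : ‖p.2‖ = 1 := by simpa using hp.2
    have hpos : 0 < ‖L (rk1 p.1 p.2)‖ := by
      rw [norm_pos_iff]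
      intro h0
      have h1 := hC p.1 0 (Or.inl (fun h => by rw [h, norm_zero] at hp1; exact zero_ne_one hp1))
        p.2 0
      have e0 : rk1 (0 : Sp d) (0 : V) = 0 := by ext y; simp [rk1]
      have e1 : rk1 p.1 (0 : V) = 0 := by ext y; simp [rk1]
      have e2 : rk1 (0 : Sp d) p.2 = 0 := by ext y; simp [rk1]
      rw [h0, e0, e1, e2, map_zero] at h1
      have h2 := (h1 (by simp) (by simp)).1
      rw [h2, norm_zero] at hp2
      exact zero_ne_one hp2
    refine ⟨‖L (rk1 p.1 p.2)‖, hpos, fun ν hν v => ?_⟩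
    by_cases hv : v = 0
    · rw [hv, norm_zero, mul_zero]; exact norm_nonneg _
    · have hvn : 0 < ‖v‖ := norm_pos_iff.2 hv
      have h3 := hmin (show (ν, ‖v‖⁻¹ • v) ∈ sphere (0 : Sp d) 1 ×ˢ sphere (0 : V) 1 by
        refine ⟨by simpa using hν, ?_⟩
        rw [mem_sphere_zero_iff_norm, norm_smul, norm_inv, norm_norm, inv_mul_cancel₀ hvn.ne'])
      simp only [mem_ofPred_eq] at h3
      have e3 : rk1 ν (‖v‖⁻¹ • v) = ‖v‖⁻¹ • rk1 ν v := by
        ext y
        show ⟪ν, y⟫_ℝ • (‖v‖⁻¹ • v) = ‖v‖⁻¹ • (⟪ν, y⟫_ℝ • v)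
        exact smul_comm _ _ _
      rw [e3, map_smul, norm_smul, norm_inv, norm_norm, inv_mul_eq_div, le_div_iff₀ hvn] at h3
      exact h3
  · refine ⟨1, one_pos, fun ν hν v => ?_⟩
    by_cases hv : v = 0
    · rw [hv, norm_zero, mul_zero]; exact norm_nonneg _
    · exfalso
      have hvn : 0 < ‖v‖ := norm_pos_iff.2 hv
      refine hne ⟨(ν, ‖v‖⁻¹ • v), by simpa using hν, ?_⟩
      rw [mem_sphere_zero_iff_norm, norm_smul, norm_inv, norm_norm, inv_mul_cancel₀ hvn.ne']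

/-- a right inverse of the transposed symbol with values in the range of the symbol -/
theorem exists_S (L : (Sp d →L[ℝ] V) →L[ℝ] E) (hC : CEll L) : ∃ C : ℝ, 0 < C ∧
    ∀ ν : Sp d, ‖ν‖ = 1 → ∃ S : V →L[ℝ] E, ‖S‖ ≤ C ∧ (∀ v w, ⟪L (rk1 ν v), S w⟫_ℝ = ⟪v, w⟫_ℝ) ∧
      ∀ w, ∃ v, S w = L (rk1 ν v) := by
  obtain ⟨κ, hκ, hl⟩ := lower L hC
  refine ⟨‖L‖ * (κ ^ 2)⁻¹ + 1, by positivity, fun ν hν => ?_⟩
  set G : V →L[ℝ] V := (AT L ν).comp (AL L ν) with hG
  have hGv : ∀ v w : V, ⟪v, G w⟫_ℝ = ⟪L (rk1 ν v), L (rk1 ν w)⟫_ℝ := by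
    intro v w
    rw [hG, ContinuousLinearMap.comp_apply, inner_AT, AL_apply]
  have hGl : ∀ v : V, κ ^ 2 * ‖v‖ ≤ ‖G v‖ := by
    intro v
    by_cases hv : v = 0
    · rw [hv, norm_zero, mul_zero]; exact norm_nonneg _
    · have hvn : 0 < ‖v‖ := norm_pos_iff.2 hv
      have h1 : κ ^ 2 * ‖v‖ * ‖v‖ ≤ ‖v‖ * ‖G v‖ := by
        have h2 := real_inner_le_norm v (G v)
        rw [hGv, real_inner_self_eq_norm_sq] at h2
        have h3 := hl ν hν v
        nlinarith [mul_nonneg hκ.le (norm_nonneg v)]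
      nlinarith
  have hinj : Function.Injective (G : V →ₗ[ℝ] V) := by
    rw [← LinearMap.ker_eq_bot, LinearMap.ker_eq_bot']
    intro v hv
    have h1 := hGl v
    have h2 : G v = 0 := hv
    rw [h2, norm_zero] at h1
    have h3 : ‖v‖ ≤ 0 := by
      by_contra h4
      push Not at h4
      have : 0 < κ ^ 2 * ‖v‖ := by positivity
      linarith
    exact norm_le_zero_iff.1 h3
  let Ge : V ≃ₗ[ℝ] V := LinearEquiv.ofInjectiveEndo (G : V →ₗ[ℝ] V) hinj
  have hGe : ∀ w, G (Ge.symm w) = w := by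
    intro w
    have := Ge.apply_symm_apply w
    exact this
  let Gi : V →L[ℝ] V := LinearMap.toContinuousLinearMap (Ge.symm : V →ₗ[ℝ] V)
  have hGi : ∀ w, G (Gi w) = w := hGe
  have hGin : ∀ w, ‖Gi w‖ ≤ (κ ^ 2)⁻¹ * ‖w‖ := by
    intro w
    have h1 := hGl (Gi w)
    rw [hGi] at h1
    rw [inv_mul_eq_div, le_div_iff₀ (by positivity)]
    linarith
  refine ⟨(AL L ν).comp Gi, ?_, ?_, ?_⟩
  · refine ContinuousLinearMap.opNorm_le_bound _ (by positivity) fun w => ?_
    rw [ContinuousLinearMap.comp_apply]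
    have h1 := norm_AL_le L ν
    rw [hν, mul_one] at h1
    calc ‖AL L ν (Gi w)‖ ≤ ‖AL L ν‖ * ‖Gi w‖ := (AL L ν).le_opNorm _
      _ ≤ ‖L‖ * ((κ ^ 2)⁻¹ * ‖w‖) := by
          gcongr
          exact hGin w
      _ ≤ (‖L‖ * (κ ^ 2)⁻¹ + 1) * ‖w‖ := by nlinarith [norm_nonneg w]
  · intro v w
    rw [ContinuousLinearMap.comp_apply, AL_apply, ← hGv, hGi]
  · intro w
    exact ⟨Gi w, rfl⟩

end Symbol

section Weak

theorem zero_of_tests {D : Sp d → V} (hD : Continuous D)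
    (h : ∀ u : Sp d → V, TF u → ∫ y, ⟪u y, D y⟫_ℝ = 0) (y : Sp d) : D y = 0 := by
  refine ext_inner_left ℝ fun v => ?_
  rw [inner_zero_right]
  have hf : Continuous fun y => ⟪v, D y⟫_ℝ := continuous_const.inner hD
  have h1 := ae_eq_zero_of_integral_contDiff_smul_eq_zero (μ := (volume : Measure (Sp d)))
    hf.locallyIntegrable (fun g hg hgc => by
      have h2 := h (fun y => g y • v) ⟨hg.smul contDiff_const, hgc.smul_right⟩
      rw [← h2]
      refine integral_congr_ae (Filter.Eventually.of_forall fun y => ?_)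
      simp only [inner_smul_left, conj_trivial, smul_eq_mul])
  have h3 : (fun y => ⟪v, D y⟫_ℝ) = fun _ => 0 :=
    (hf.ae_eq_iff_eq volume continuous_const).1 h1
  exact congrFun h3 y

end Weak

section Field

/-- properties of the field -/
structure Fld (L : (Sp d →L[ℝ] V) →L[ℝ] E) (m : ℕ) (ν : Sp d) (c ρ N : ℝ) (Φ Φh X : Sp d → E)
    (g : Sp d → V) : Prop where
  tf : TFn 2 N Φh
  tx : TFn 2 N X
  xq : ∀ y, ‖X y‖ ≤ N * ht ν c y ^ 2
  xs : ∀ y, X y ≠ 0 → y ∈ cyl ν c 5 ρ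
  fs : ∀ y, Φh y ≠ 0 → y ∈ cyl ν c 5 ρ
  on : ∀ y, ht ν c y = 0 → Φh y = Φ y
  pair : ∀ (e : E) (ve : V), (∀ w : V, ⟪e - L (rk1 ν ve), L (rk1 ν w)⟫_ℝ = 0) → ∀ y,
    ⟪e, Φh y⟫_ℝ = cu1 4 (ht ν c y) * (⟪e, Φ y⟫_ℝ - ht ν c y * dvE L Φ ve y) + ⟪e, X y⟫_ℝ
  tg : TFn (m + 3) N g
  gs : ∀ y, g y ≠ 0 → y ∈ cyl ν c 5 ρ ∧ 4 ≤ |ht ν c y|
  eq : ∀ y, dV L Φh y = g y

theorem a1_bd (J : ℕ) : ∃ A : ℝ, 0 < A ∧ (∀ j ≤ J, ∀ t, |iteratedDeriv j (cu1 4) t| ≤ A) ∧
    (∀ j ≤ J, ∀ t, |iteratedDeriv j (fun t => t * cu1 4 t) t| ≤ A) ∧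
    (∀ j ≤ J, ∀ t, |iteratedDeriv j (deriv (cu1 4)) t| ≤ A) ∧
    (∀ j ≤ J, ∀ t, |iteratedDeriv j (fun t => t * deriv (cu1 4) t) t| ≤ A) ∧
    ∀ m, ∃ B : ℝ, 0 < B ∧ ∀ j ≤ J, ∀ t, |iteratedDeriv j (rr m) t| ≤ B := by
  have h0 : ContDiff ℝ ∞ (cu1 4) := cu1_contDiff le_rfl (by norm_num)
  have h0d : ContDiff ℝ ∞ (deriv (cu1 4)) := by
    have := h0.iterate_deriv 1
    simpa using this
  have hc0 := cu1_cs 4
  obtain ⟨A1, q1, p1⟩ := line_bd h0 hc0 J
  obtain ⟨A2, q2, p2⟩ := line_bd (contDiff_id.mul h0) hc0.mul_left J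
  obtain ⟨A3, q3, p3⟩ := line_bd h0d hc0.deriv J
  obtain ⟨A4, q4, p4⟩ := line_bd (contDiff_id.mul h0d) hc0.deriv.mul_left J
  refine ⟨A1 + A2 + A3 + A4, by positivity, fun j hj t => ?_, fun j hj t => ?_, fun j hj t => ?_,
    fun j hj t => ?_, fun m => ?_⟩
  · have := p1 j hj t
    linarith
  · have := p2 j hj t
    simp only [id] at this
    linarith
  · have := p3 j hj t
    linarith
  · have := p4 j hj t
    simp only [id] at this
    linarith
  · refine line_bd (rr_contDiff m) ?_ J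
    refine HasCompactSupport.intro (isCompact_closedBall (0 : ℝ) 5) fun t ht => ?_
    rw [mem_closedBall_zero_iff, not_le, Real.norm_eq_abs] at ht
    exact rr_zero m (Or.inr ht)

theorem dcu_zero {t : ℝ} (h : |t| < 4 ∨ 5 < |t|) : deriv (cu1 4) t = 0 := by
  rcases h with h | h
  · have h1 : cu1 4 =ᶠ[nhds t] fun _ => (1 : ℝ) := by
      filter_upwards [(isOpen_lt continuous_abs continuous_const).mem_nhds h] with y hy
      exact cu1_one (le_of_lt hy)
    rw [h1.deriv_eq]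
    simp
  · have h1 : cu1 4 =ᶠ[nhds t] fun _ => (0 : ℝ) := by
      filter_upwards [(isOpen_lt continuous_const continuous_abs).mem_nhds h] with y hy
      exact cu1_zero (by have : (5 : ℝ) < |y| := hy
                         linarith)
    rw [h1.deriv_eq]
    simp

theorem field (L : (Sp d →L[ℝ] V) →L[ℝ] E) (hC : CEll L) (m : ℕ)
    (T : (ContinuousMultilinearMap ℝ (fun _ : Fin m => Sp d) E) →L[ℝ]
      (ContinuousMultilinearMap ℝ (fun _ : Fin (m + 1) => Sp d) V)) (hNS : NSProp L m T) :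
    ∃ C : ℝ, 0 < C ∧ ∀ (ν : Sp d), ‖ν‖ = 1 → ∀ (c ρ : ℝ) (Φ : Sp d → E) (N : ℝ),
      TFn (m + 5) N Φ → (∀ y, Φ y = Φ (tang ν y)) → (∀ y, Φ y ≠ 0 → ‖tang ν y‖ ≤ ρ) →
      ∃ (Φh X : Sp d → E) (g : Sp d → V), Fld L m ν c ρ (C * N) Φ Φh X g := by
  obtain ⟨CS, hCS, hS⟩ := exists_S L hC
  obtain ⟨C1, hC1, hcorr⟩ := corr L m T hNS
  obtain ⟨A, hA, b1, b2, b3, b4, b5⟩ := a1_bd (m + 3)
  obtain ⟨B, hB, b6⟩ := b5 m
  set D : ℝ := ‖DL L‖ with hD
  have hD0 : 0 ≤ D := (DL L).opNorm_nonneg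
  have hL0 : 0 ≤ ‖L‖ := L.opNorm_nonneg
  refine ⟨2 ^ (m + 3) * A * (1 + CS * D) + C1 * (D * CS * D) +
    2 ^ (m + 3) * (A * ‖L‖ + A * D + B * (D * CS * D)) + 1, by positivity, ?_⟩
  intro ν hν c ρ Φ N hΦ hcy hsp
  have hN := tfn_nonneg hΦ
  obtain ⟨S, hSn, hS1, hS2⟩ := hS ν hν
  have h0 : ContDiff ℝ ∞ (cu1 4) := cu1_contDiff le_rfl (by norm_num)
  have h0d : ContDiff ℝ ∞ (deriv (cu1 4)) := by
    have := h0.iterate_deriv 1
    simpa using this
  have hΦC : CN ν Φ := CN.of_tang hν hcy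
  -- dV Φ
  set W : Sp d → V := fun y => DL L (fderiv ℝ Φ y) with hW
  have hWt : TFn (m + 4) (D * N) W := tfn_clm (DL L) (tfn_fderiv (J := m + 4) hΦ)
  have hWC : CN ν W := hΦC.fderiv.comp _
  have hWs : ∀ y, W y ≠ 0 → ‖tang ν y‖ ≤ ρ := fun y hy =>
    fderiv_tang_supp hsp y (fun h => hy (by simp only [hW]; rw [h, map_zero]))
  -- Φ1
  set Φ1 : Sp d → E := fun y => (-S) (W y) with hΦ1
  have hΦ1t : TFn (m + 4) (CS * (D * N)) Φ1 := by
    refine tfn_le (tfn_clm (-S) hWt) le_rfl ?_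
    rw [norm_neg]
    gcongr
  have hΦ1C : CN ν Φ1 := hWC.comp _
  have hΦ1s : ∀ y, Φ1 y ≠ 0 → ‖tang ν y‖ ≤ ρ := fun y hy =>
    hWs y (fun h => hy (by simp only [hΦ1]; rw [h, map_zero]))
  -- k
  set k : Sp d → V := fun y => DL L (fderiv ℝ Φ1 y) with hk
  have hkt : TFn (m + 3) (D * (CS * (D * N))) k := tfn_clm (DL L) (tfn_fderiv (J := m + 3) hΦ1t)
  have hkC : CN ν k := hΦ1C.fderiv.comp _
  have hks : ∀ y, k y ≠ 0 → ‖tang ν y‖ ≤ ρ := fun y hy =>
    fderiv_tang_supp hΦ1s y (fun h => hy (by simp only [hk]; rw [h, map_zero]))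
  obtain ⟨X, hXt, hXq, hXs, hXi⟩ := hcorr ν hν c ρ k (D * (CS * (D * N)))
    (tfn_le hkt (by omega) le_rfl) hkC hks
  -- supports of the functions of the height
  have s0 : ∀ t : ℝ, 5 < |t| → cu1 4 t = 0 := fun t ht => cu1_zero (by linarith)
  have s1 : ∀ t : ℝ, 5 < |t| → t * cu1 4 t = 0 := fun t ht => by rw [s0 t ht, mul_zero]
  have s3 : ∀ t : ℝ, 5 < |t| → deriv (cu1 4) t = 0 := fun t ht => dcu_zero (Or.inr ht)
  have s4 : ∀ t : ℝ, 5 < |t| → t * deriv (cu1 4) t = 0 := fun t ht => by rw [s3 t ht, mul_zero]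
  have s6 : ∀ t : ℝ, 5 < |t| → rr m t = 0 := fun t ht => rr_zero m (Or.inr ht)
  set a1 : ℝ → ℝ := fun t => t * cu1 4 t with ha1
  have ha1s : ContDiff ℝ ∞ a1 := contDiff_id.mul h0
  set a4 : ℝ → ℝ := fun t => t * deriv (cu1 4) t with ha4
  have ha4s : ContDiff ℝ ∞ a4 := contDiff_id.mul h0d
  set F0 : Sp d → E := fun y => cu1 4 (ht ν c y) • Φ y with hF0
  set F1 : Sp d → E := fun y => a1 (ht ν c y) • Φ1 y with hF1
  have hF0t : TFn (m + 3) (2 ^ (m + 3) * A * N) F0 :=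
    tfn_htmul (h0.of_le (nat_le_inf _)) b1 hν c (tfn_le hΦ (by omega) le_rfl)
  have hF1t : TFn (m + 3) (2 ^ (m + 3) * A * (CS * (D * N))) F1 :=
    tfn_htmul (ha1s.of_le (nat_le_inf _)) b2 hν c (tfn_le hΦ1t (by omega) le_rfl)
  have hF0s : ∀ y, F0 y ≠ 0 → y ∈ cyl ν c 5 ρ := fun y hy => prod_supp s0 hsp y hy
  have hF1s : ∀ y, F1 y ≠ 0 → y ∈ cyl ν c 5 ρ := fun y hy => prod_supp s1 hΦ1s y hy
  -- the image
  set g1 : Sp d → V := fun y => deriv (cu1 4) (ht ν c y) • AT L ν (Φ y) with hg1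
  set g2 : Sp d → V := fun y => a4 (ht ν c y) • ((-1 : ℝ) • W y) with hg2
  set g3 : Sp d → V := fun y => rr m (ht ν c y) • ((-1 : ℝ) • k y) with hg3
  have hATn : ‖AT L ν‖ ≤ ‖L‖ := by
    have := norm_AT_le L ν
    rwa [hν, mul_one] at this
  have hg1t : TFn (m + 3) (2 ^ (m + 3) * A * (‖L‖ * N)) g1 :=
    tfn_htmul (h0d.of_le (nat_le_inf _)) b3 hν c (tfn_le (tfn_clm (AT L ν) hΦ) (by omega)
      (by gcongr))
  have hg2t : TFn (m + 3) (2 ^ (m + 3) * A * (D * N)) g2 := by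
    refine tfn_htmul (ha4s.of_le (nat_le_inf _)) b4 hν c (tfn_le (tfn_smul hWt (-1)) (by omega) ?_)
    rw [abs_neg, abs_one, one_mul]
  have hg3t : TFn (m + 3) (2 ^ (m + 3) * B * (D * (CS * (D * N)))) g3 := by
    refine tfn_htmul ((rr_contDiff m).of_le (nat_le_inf _)) b6 hν c
      (tfn_le (tfn_smul hkt (-1)) le_rfl ?_)
    rw [abs_neg, abs_one, one_mul]
  set g : Sp d → V := fun y => g1 y + g2 y + g3 y with hg
  set Φh : Sp d → E := fun y => F0 y + F1 y + X y with hΦh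
  have hgs : ∀ y, g y ≠ 0 → y ∈ cyl ν c 5 ρ ∧ 4 ≤ |ht ν c y| := by
    intro y hy
    have h3 : |ht ν c y| < 4 ∨ 5 < |ht ν c y| → g y = 0 := by
      intro h
      simp only [hg, hg1, hg2, hg3, ha4]
      rw [dcu_zero h, rr_zero m h]
      simp
    have h4 : ‖tang ν y‖ ≤ ρ := by
      by_contra h5
      apply hy
      have e1 : Φ y = 0 := by
        by_contra h6
        exact h5 (hsp y h6)
      have e2 : W y = 0 := by
        by_contra h6
        exact h5 (hWs y h6)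
      have e3 : k y = 0 := by
        by_contra h6
        exact h5 (hks y h6)
      simp only [hg, hg1, hg2, hg3, e1, e2, e3]
      simp
    refine ⟨⟨?_, h4⟩, ?_⟩
    · by_contra h5
      push Not at h5
      exact hy (h3 (Or.inr h5))
    · by_contra h5
      push Not at h5
      exact hy (h3 (Or.inl h5))
  have hΦhs : ∀ y, Φh y ≠ 0 → y ∈ cyl ν c 5 ρ := by
    intro y hy
    by_contra h
    apply hy
    have e1 : F0 y = 0 := by
      by_contra h6
      exact h (hF0s y h6)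
    have e2 : F1 y = 0 := by
      by_contra h6
      exact h (hF1s y h6)
    have e3 : X y = 0 := by
      by_contra h6
      exact h (hXs y h6)
    simp only [hΦh, e1, e2, e3, add_zero]
  have hΦht : TFn 2 (2 ^ (m + 3) * A * N + 2 ^ (m + 3) * A * (CS * (D * N)) +
      C1 * (D * (CS * (D * N)))) Φh :=
    tfn_add (tfn_add (tfn_le hF0t (by omega) le_rfl) (tfn_le hF1t (by omega) le_rfl)) hXt
  have hgt : TFn (m + 3) (2 ^ (m + 3) * A * (‖L‖ * N) + 2 ^ (m + 3) * A * (D * N) +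
      2 ^ (m + 3) * B * (D * (CS * (D * N)))) g := tfn_add (tfn_add hg1t hg2t) hg3t
  -- the adjoint operator on the explicit part
  have hdiff0 : Differentiable ℝ Φ := hΦ.smooth.differentiable (by simp)
  have hdiff1 : Differentiable ℝ Φ1 := hΦ1t.smooth.differentiable (by simp)
  have hAS : ∀ w, AT L ν (S w) = w := by
    intro w
    refine ext_inner_left ℝ fun v => ?_
    rw [inner_AT, hS1]
  have hd0 : ∀ y, dV L F0 y = cu1 4 (ht ν c y) • W y + g1 y := fun y =>
    dV_ht_smul L (h0.differentiable (by simp)) hdiff0 ν c y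
  have hder1 : ∀ t, deriv a1 t = cu1 4 t + t * deriv (cu1 4) t := by
    intro t
    have e1 := ((hasDerivAt_id t).mul (h0.differentiable (by simp) t).hasDerivAt).deriv
    simp only [id, one_mul] at e1
    exact e1
  have hd1 : ∀ y, dV L F1 y = a1 (ht ν c y) • k y - (cu1 4 (ht ν c y) +
      ht ν c y * deriv (cu1 4) (ht ν c y)) • W y := by
    intro y
    have e1 := dV_ht_smul L (ha1s.differentiable (by simp)) hdiff1 ν c y
    rw [hder1] at e1
    have e2 : AT L ν (Φ1 y) = -W y := by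
      simp only [hΦ1]
      rw [neg_apply, map_neg, hAS]
    rw [e2, smul_neg, ← sub_eq_add_neg] at e1
    exact e1
  have hF01 : ContDiff ℝ 1 (fun y => F0 y + F1 y) :=
    (hF0t.smooth.of_le (by norm_cast; omega)).add (hF1t.smooth.of_le (by norm_cast; omega))
  have hd01 : ∀ y, dV L (fun y => F0 y + F1 y) y = dV L F0 y + dV L F1 y := by
    intro y
    unfold dV
    have e1 : fderiv ℝ (fun y => F0 y + F1 y) y = fderiv ℝ F0 y + fderiv ℝ F1 y :=
      fderiv_fun_add ((hF0t.smooth.differentiable (by simp)) y)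
        ((hF1t.smooth.differentiable (by simp)) y)
    rw [e1, map_add]
  have hsum : ∀ y, dV L (fun y => F0 y + F1 y) y = g y +
      iteratedDeriv (m + 1) (rho m) (ht ν c y) • k y := by
    intro y
    rw [hd01, hd0, hd1]
    simp only [hg, hg1, hg2, hg3, ha1, ha4, rr]
    module
  have hF01s : ∀ y, F0 y + F1 y ≠ 0 → y ∈ cyl ν c 5 ρ := by
    intro y hy
    by_contra h
    apply hy
    have e1 : F0 y = 0 := by
      by_contra h6
      exact h (hF0s y h6)
    have e2 : F1 y = 0 := by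
      by_contra h6
      exact h (hF1s y h6)
    rw [e1, e2, add_zero]
  -- the weak identity
  have hweak : ∀ u : Sp d → V, TF u → ∫ y, ⟪fo L u y, Φh y⟫_ℝ = -∫ y, ⟪u y, g y⟫_ℝ := by
    intro u hu
    have huc : Continuous u := hu.smooth.continuous
    have hf : ContDiff ℝ ∞ (fo L u) := by
      have : ContDiff ℝ ∞ (fderiv ℝ u) := hu.smooth.fderiv_right (m := ∞) le_rfl
      exact L.contDiff.comp this
    have hfc : Continuous (fo L u) := hf.continuous
    have e1 := ibp_L L (hu.smooth.of_le (by exact_mod_cast le_top)) hF01 (cyl_cs hν hF01s)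
    have e2 := hXi u hu.smooth
    have hF01c : Continuous fun y => F0 y + F1 y := hF01.continuous
    have hXc : Continuous X := hXt.smooth.continuous
    have hgc : Continuous g := hgt.smooth.continuous
    have hkc : Continuous k := hkt.smooth.continuous
    have hrc : Continuous fun y => iteratedDeriv (m + 1) (rho m) (ht ν c y) := by
      have : Continuous (iteratedDeriv (m + 1) (rho m)) :=
        (rho_contDiff m).continuous_iteratedDeriv _ (by exact_mod_cast le_top)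
      exact this.comp (ht_continuous ν c)
    have hucs := hu.supp
    have i1 : Integrable fun y => ⟪fo L u y, F0 y + F1 y⟫_ℝ :=
      Continuous.integrable_of_hasCompactSupport (hfc.inner hF01c)
        ((cyl_cs hν hF01s).mono' fun y hy => subset_closure fun h0 => hy (by
          show ⟪fo L u y, F0 y + F1 y⟫_ℝ = 0
          have h0' : F0 y + F1 y = 0 := h0
          rw [h0', inner_zero_right]))
    have i2 : Integrable fun y => ⟪fo L u y, X y⟫_ℝ :=
      Continuous.integrable_of_hasCompactSupport (hfc.inner hXc)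
        ((cyl_cs hν hXs).mono' fun y hy => subset_closure fun h0 => hy (by
          show ⟪fo L u y, X y⟫_ℝ = 0
          have h0' : X y = 0 := h0
          rw [h0', inner_zero_right]))
    have i3 : Integrable fun y => ⟪u y, g y⟫_ℝ :=
      Continuous.integrable_of_hasCompactSupport (huc.inner hgc)
        (hucs.mono' fun y hy => subset_closure fun h0 => hy (by
          show ⟪u y, g y⟫_ℝ = 0
          have h0' : u y = 0 := h0
          rw [h0', inner_zero_left]))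
    have i4 : Integrable fun y => ⟪u y, iteratedDeriv (m + 1) (rho m) (ht ν c y) • k y⟫_ℝ :=
      Continuous.integrable_of_hasCompactSupport (huc.inner (hrc.smul hkc))
        (hucs.mono' fun y hy => subset_closure fun h0 => hy (by
          show ⟪u y, iteratedDeriv (m + 1) (rho m) (ht ν c y) • k y⟫_ℝ = 0
          have h0' : u y = 0 := h0
          rw [h0', inner_zero_left]))
    have e3 : ∫ y, ⟪fo L u y, Φh y⟫_ℝ = (∫ y, ⟪fo L u y, F0 y + F1 y⟫_ℝ) +
        ∫ y, ⟪fo L u y, X y⟫_ℝ := by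
      rw [← integral_add i1 i2]
      refine integral_congr_ae (Filter.Eventually.of_forall fun y => ?_)
      simp only [hΦh, inner_add_right]
    have e4 : ∫ y, ⟪u y, dV L (fun y => F0 y + F1 y) y⟫_ℝ = (∫ y, ⟪u y, g y⟫_ℝ) +
        ∫ y, ⟪u y, iteratedDeriv (m + 1) (rho m) (ht ν c y) • k y⟫_ℝ := by
      rw [← integral_add i3 i4]
      refine integral_congr_ae (Filter.Eventually.of_forall fun y => ?_)
      simp only [hsum, inner_add_right]
    have e5 : ∫ y, ⟪fo L u y, X y⟫_ℝ =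
        ∫ y, ⟪u y, iteratedDeriv (m + 1) (rho m) (ht ν c y) • k y⟫_ℝ := by
      have e6 : ∫ y, ⟪fo L u y, X y⟫_ℝ = ∫ y, ⟪X y, fo L u y⟫_ℝ :=
        integral_congr_ae (Filter.Eventually.of_forall fun y => real_inner_comm _ _)
      rw [e6, ← e2]
      exact integral_congr_ae (Filter.Eventually.of_forall fun y => real_inner_comm _ _)
    rw [e3, e1, e4, e5]
    ring
  have hΦhc : ContDiff ℝ 1 Φh := hΦht.smooth.of_le (by norm_cast)
  have heq : ∀ y, dV L Φh y = g y := by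
    intro y
    have hdc : Continuous (dV L Φh) :=
      (DL L).continuous.comp (hΦhc.continuous_fderiv (by simp))
    have hgc : Continuous g := hgt.smooth.continuous
    have := zero_of_tests (D := fun y => dV L Φh y - g y) (hdc.sub hgc) (fun u hu => by
      have huc : Continuous u := hu.smooth.continuous
      have e1 := ibp_L L (hu.smooth.of_le (by exact_mod_cast le_top)) hΦhc (cyl_cs hν hΦhs)
      rw [hweak u hu] at e1
      have i3 : Integrable fun y => ⟪u y, g y⟫_ℝ :=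
        Continuous.integrable_of_hasCompactSupport (huc.inner hgc)
          (hu.supp.mono' fun y hy => subset_closure fun h0 => hy (by
            show ⟪u y, g y⟫_ℝ = 0
            have h0' : u y = 0 := h0
            rw [h0', inner_zero_left]))
      have i4 : Integrable fun y => ⟪u y, dV L Φh y⟫_ℝ :=
        Continuous.integrable_of_hasCompactSupport (huc.inner hdc)
          (hu.supp.mono' fun y hy => subset_closure fun h0 => hy (by
            show ⟪u y, dV L Φh y⟫_ℝ = 0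
            have h0' : u y = 0 := h0
            rw [h0', inner_zero_left]))
      have e2 : ∫ y, ⟪u y, dV L Φh y - g y⟫_ℝ = (∫ y, ⟪u y, dV L Φh y⟫_ℝ) -
          ∫ y, ⟪u y, g y⟫_ℝ := by
        rw [← integral_sub i4 i3]
        refine integral_congr_ae (Filter.Eventually.of_forall fun y => ?_)
        simp only [inner_sub_right]
      rw [e2]
      linarith) y
    exact sub_eq_zero.1 this
  have hp : (0 : ℝ) < 2 ^ (m + 3) := by positivity
  have hle1 : 2 ^ (m + 3) * A * N + 2 ^ (m + 3) * A * (CS * (D * N)) +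
      C1 * (D * (CS * (D * N))) ≤ (2 ^ (m + 3) * A * (1 + CS * D) + C1 * (D * CS * D) +
    2 ^ (m + 3) * (A * ‖L‖ + A * D + B * (D * CS * D)) + 1) * N := by
    have h1 : 0 ≤ (2 ^ (m + 3) * (A * ‖L‖ + A * D + B * (D * CS * D)) + 1) * N := by positivity
    linarith
  have hle2 : C1 * (D * (CS * (D * N))) ≤ (2 ^ (m + 3) * A * (1 + CS * D) + C1 * (D * CS * D) +
    2 ^ (m + 3) * (A * ‖L‖ + A * D + B * (D * CS * D)) + 1) * N := by
    have h1 : 0 ≤ (2 ^ (m + 3) * A * (1 + CS * D) +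
      2 ^ (m + 3) * (A * ‖L‖ + A * D + B * (D * CS * D)) + 1) * N := by positivity
    linarith
  have hle3 : 2 ^ (m + 3) * A * (‖L‖ * N) + 2 ^ (m + 3) * A * (D * N) +
      2 ^ (m + 3) * B * (D * (CS * (D * N))) ≤ (2 ^ (m + 3) * A * (1 + CS * D) +
      C1 * (D * CS * D) + 2 ^ (m + 3) * (A * ‖L‖ + A * D + B * (D * CS * D)) + 1) * N := by
    have h1 : 0 ≤ (2 ^ (m + 3) * A * (1 + CS * D) + C1 * (D * CS * D) + 1) * N := by positivity
    linarith
  refine ⟨Φh, X, g, tfn_le hΦht le_rfl hle1, tfn_le hXt le_rfl hle2, fun y => (hXq y).trans ?_,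
    hXs, hΦhs, ?_, ?_, tfn_le hgt le_rfl hle3, hgs, heq⟩
  · have := sq_nonneg (ht ν c y)
    exact mul_le_mul_of_nonneg_right hle2 this
  · intro y hy
    have hX0 : X y = 0 := by
      have := hXq y
      rw [hy] at this
      simpa using this
    simp only [hΦh, hF0, hF1, ha1, hy, hX0]
    rw [cu1_one (by simp)]
    simp
  · intro e ve hve y
    have h1 : ⟪e, Φ1 y⟫_ℝ = - dvE L Φ ve y := by
      obtain ⟨w, hw⟩ := hS2 (W y)
      have h2 := hve w
      rw [inner_sub_left, sub_eq_zero, ← hw, hS1] at h2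
      simp only [hΦ1]
      rw [neg_apply, inner_neg_right, h2, ← inner_dV]
      rfl
    simp only [hΦh, hF0, hF1, ha1, inner_add_right, inner_smul_right, h1]
    ring

end Field

end SH
end TG
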