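import Pool.Agent.TG.SHA3

/-!
# Module SHA, part 4: integration over half spaces (MP_287c87_an; helper22)
-/

set_option linter.unusedSectionVars false

open MeasureTheory Metric Set TrI
open scoped InnerProductSpace ContDiff

namespace TG
namespace SH

variable {d : ℕ} {V E : Type} [NormedAddCommGroup V] [InnerProductSpace ℝ V]
  [FiniteDimensional ℝ V] [NormedAddCommGroup E] [InnerProductSpace ℝ E] [FiniteDimensional ℝ E]

section Plane

theorem perp_inner {ν : Sp d} (y : (Submodule.span ℝ {ν})ᗮ) : ⟪ν, (y : Sp d)⟫_ℝ = 0 :=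
  (Submodule.mem_orthogonal_singleton_iff_inner_right).1 y.2

theorem ht_plane {ν : Sp d} (hν : ‖ν‖ = 1) (c s : ℝ) (y : (Submodule.span ℝ {ν})ᗮ) :
    ht ν c (s • ν + (y : Sp d)) = s - c := by
  unfold ht
  rw [inner_add_right, inner_smul_right, real_inner_self_eq_norm_sq, hν, perp_inner]
  ring

theorem pl_congr {F G : Sp d → ℝ} {ν : Sp d} (hν : ‖ν‖ = 1) (c s : ℝ)
    (h : ∀ y, ht ν c y = s - c → F y = G y) : plInt ν s F = plInt ν s G := by
  unfold plInt
  refine integral_congr_ae (Filter.Eventually.of_forall fun y => ?_)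
  exact h _ (ht_plane hν c s y)

theorem pl_int {F : Sp d → ℝ} (hF : Continuous F) (hc : HasCompactSupport F) (ν : Sp d) (s : ℝ) :
    Integrable (fun y : (Submodule.span ℝ {ν})ᗮ => F (s • ν + (y : Sp d))) := by
  have hi : Isometry (fun y : (Submodule.span ℝ {ν})ᗮ => s • ν + (y : Sp d)) := by
    intro y z
    rw [edist_add_left]
    rfl
  have he : Topology.IsClosedEmbedding
      (fun y : (Submodule.span ℝ {ν})ᗮ => s • ν + (y : Sp d)) := hi.isClosedEmbedding
  exact (hF.comp he.continuous).integrable_of_hasCompactSupport (hc.comp_isClosedEmbedding he)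

theorem pl_add {F G : Sp d → ℝ} (hF : Continuous F) (hFc : HasCompactSupport F)
    (hG : Continuous G) (hGc : HasCompactSupport G) (ν : Sp d) (s : ℝ) :
    plInt ν s (fun y => F y + G y) = plInt ν s F + plInt ν s G :=
  integral_add (pl_int hF hFc ν s) (pl_int hG hGc ν s)

theorem pl_sub {F G : Sp d → ℝ} (hF : Continuous F) (hFc : HasCompactSupport F)
    (hG : Continuous G) (hGc : HasCompactSupport G) (ν : Sp d) (s : ℝ) :
    plInt ν s (fun y => F y - G y) = plInt ν s F - plInt ν s G :=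
  integral_sub (pl_int hF hFc ν s) (pl_int hG hGc ν s)

theorem pl_sum {ι : Type*} (S : Finset ι) {F : ι → Sp d → ℝ} (hF : ∀ i, Continuous (F i))
    (hFc : ∀ i, HasCompactSupport (F i)) (ν : Sp d) (s : ℝ) :
    plInt ν s (fun y => ∑ i ∈ S, F i y) = ∑ i ∈ S, plInt ν s (F i) :=
  integral_finsetSum S fun i _ => pl_int (hF i) (hFc i) ν s

end Plane

section Half

/-- the pairing of a symbol with the field -/
theorem fderiv_pair (L : (Sp d →L[ℝ] V) →L[ℝ] E) (ξ : Sp d) {P : Sp d → V} {Φ : Sp d → E}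
    (hP : Differentiable ℝ P) (hΦ : Differentiable ℝ Φ) (y h : Sp d) :
    fderiv ℝ (fun y => ⟪L (rk1 ξ (P y)), Φ y⟫_ℝ) y h =
      ⟪L (rk1 ξ (fderiv ℝ P y h)), Φ y⟫_ℝ + ⟪L (rk1 ξ (P y)), fderiv ℝ Φ y h⟫_ℝ := by
  have h1 : HasFDerivAt (fun y => L (rk1 ξ (P y))) ((AL L ξ).comp (fderiv ℝ P y)) y :=
    (AL L ξ).hasFDerivAt.comp y (hP y).hasFDerivAt
  have h2 := h1.inner ℝ (hΦ y).hasFDerivAt
  rw [h2.fderiv]
  simp only [ContinuousLinearMap.comp_apply, ContinuousLinearMap.prod_apply, fderivInnerCLM_apply]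
  rw [add_comm]
  congr 1

theorem pair_supp (L : (Sp d →L[ℝ] V) →L[ℝ] E) (ξ : Sp d) {P : Sp d → V} {Φ : Sp d → E}
    (hΦ : HasCompactSupport Φ) : HasCompactSupport (fun y => ⟪L (rk1 ξ (P y)), Φ y⟫_ℝ) := by
  refine hΦ.mono' fun y hy => subset_closure fun h0 => hy ?_
  show ⟪L (rk1 ξ (P y)), Φ y⟫_ℝ = 0
  rw [h0, inner_zero_right]

theorem pair_contDiff (L : (Sp d →L[ℝ] V) →L[ℝ] E) (ξ : Sp d) {P : Sp d → V} {Φ : Sp d → E}
    (hP : ContDiff ℝ 1 P) (hΦ : ContDiff ℝ 1 Φ) :
    ContDiff ℝ 1 (fun y => ⟪L (rk1 ξ (P y)), Φ y⟫_ℝ) :=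
  ((AL L ξ).contDiff.comp hP).inner ℝ hΦ

/-- the derivative of the plane integrals -/
theorem half_deriv (hPF : StmtPF) (hd : 1 ≤ d) (L : (Sp d →L[ℝ] V) →L[ℝ] E) {ν : Sp d}
    (hν : ‖ν‖ = 1) {P : Sp d → V} (hP : ContDiff ℝ 1 P) {Φ : Sp d → E} (hΦ : ContDiff ℝ 1 Φ)
    (hs : HasCompactSupport Φ) (s : ℝ) :
    HasDerivAt (fun s => plInt ν s (fun y => ⟪L (rk1 ν (P y)), Φ y⟫_ℝ))
      (plInt ν s (fun y => ⟪fo L P y, Φ y⟫_ℝ + ⟪P y, dV L Φ y⟫_ℝ)) s := by
  obtain ⟨-, h2⟩ := hPF d hd
  obtain ⟨-, -, hder, -, htan, -⟩ := h2 ν hν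
  have hPd : Differentiable ℝ P := hP.differentiable (by simp)
  have hΦd : Differentiable ℝ Φ := hΦ.differentiable (by simp)
  have h3 := hder _ (pair_contDiff L ν hP hΦ) (pair_supp L ν hs) s
  set e : Fin d → Sp d := fun j => EuclideanSpace.single j (1 : ℝ) with he
  set F : Fin d → Sp d → ℝ := fun j y => ⟪L (rk1 (e j) (P y)), Φ y⟫_ℝ with hF
  set τ : Fin d → Sp d := fun j => e j - ν j • ν with hτ
  have hνe : ∀ j, ⟪ν, e j⟫_ℝ = ν j := by
    intro j
    rw [real_inner_comm]
    simp [he, EuclideanSpace.inner_single_left]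
  have hτν : ∀ j, ⟪ν, τ j⟫_ℝ = 0 := by
    intro j
    simp only [hτ]
    rw [inner_sub_right, inner_smul_right, real_inner_self_eq_norm_sq, hν, hνe]
    ring
  have hFc1 : ∀ j, ContDiff ℝ 1 (F j) := fun j => pair_contDiff L (e j) hP hΦ
  have hFs : ∀ j, HasCompactSupport (F j) := fun j => pair_supp L (e j) hs
  have hpt : ∀ y, ⟪fo L P y, Φ y⟫_ℝ + ⟪P y, dV L Φ y⟫_ℝ =
      fderiv ℝ (fun y => ⟪L (rk1 ν (P y)), Φ y⟫_ℝ) y ν + ∑ j, fderiv ℝ (F j) y (τ j) := by
    intro y
    rw [fo_eq, inner_dV, sum_inner]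
    unfold dvE
    rw [← Finset.sum_add_distrib]
    have e1 : fderiv ℝ (fun y => ⟪L (rk1 ν (P y)), Φ y⟫_ℝ) y ν =
        ∑ j, ν j * fderiv ℝ (F j) y ν := by
      rw [fderiv_pair L ν hPd hΦd, L_rk1, L_rk1, sum_inner, sum_inner, ← Finset.sum_add_distrib]
      refine Finset.sum_congr rfl fun j _ => ?_
      simp only [hF]
      rw [fderiv_pair L (e j) hPd hΦd, inner_smul_left, inner_smul_left]
      simp only [conj_trivial, he]
      ring
    rw [e1, ← Finset.sum_add_distrib]
    refine Finset.sum_congr rfl fun j _ => ?_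
    simp only [hτ]
    rw [map_sub, map_smul, smul_eq_mul, add_sub_cancel]
    simp only [hF]
    rw [fderiv_pair L (e j) hPd hΦd]
  have e2 : plInt ν s (fun y => ⟪fo L P y, Φ y⟫_ℝ + ⟪P y, dV L Φ y⟫_ℝ) =
      plInt ν s (fun y => fderiv ℝ (fun y => ⟪L (rk1 ν (P y)), Φ y⟫_ℝ) y ν) := by
    have e3 : (fun y => ⟪fo L P y, Φ y⟫_ℝ + ⟪P y, dV L Φ y⟫_ℝ) = fun y =>
      fderiv ℝ (fun y => ⟪L (rk1 ν (P y)), Φ y⟫_ℝ) y ν + ∑ j, fderiv ℝ (F j) y (τ j) :=
      funext hpt
    have c1 : Continuous fun y => fderiv ℝ (fun y => ⟪L (rk1 ν (P y)), Φ y⟫_ℝ) y ν :=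
      ((pair_contDiff L ν hP hΦ).continuous_fderiv (by simp)).clm_apply continuous_const
    have c2 : ∀ j, Continuous fun y => fderiv ℝ (F j) y (τ j) := fun j =>
      ((hFc1 j).continuous_fderiv (by simp)).clm_apply continuous_const
    have s1 : HasCompactSupport fun y => fderiv ℝ (fun y => ⟪L (rk1 ν (P y)), Φ y⟫_ℝ) y ν :=
      (pair_supp L ν hs).fderiv_apply (𝕜 := ℝ) ν
    have s2 : ∀ j, HasCompactSupport fun y => fderiv ℝ (F j) y (τ j) := fun j =>
      (hFs j).fderiv_apply (𝕜 := ℝ) (τ j)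
    have s3 : HasCompactSupport fun y => ∑ j, fderiv ℝ (F j) y (τ j) := by
      refine hs.mono' fun y hy => ?_
      by_contra h4
      apply hy
      show ∑ j, fderiv ℝ (F j) y (τ j) = 0
      refine Finset.sum_eq_zero fun j _ => ?_
      have h5 : fderiv ℝ (F j) y = 0 := by
        have h6 : y ∉ tsupport (F j) := fun h7 => h4 (by
          refine closure_mono (fun z hz => ?_) h7
          intro h8
          exact hz (by simp only [hF]; rw [h8, inner_zero_right]))
        have h9 := (support_fderiv_subset (𝕜 := ℝ) (f := F j))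
        by_contra h10
        exact h6 (h9 h10)
      rw [h5, zero_apply]
    rw [e3, pl_add c1 s1 (continuous_finsetSum _ fun j _ => c2 j) s3,
      pl_sum Finset.univ c2 s2]
    rw [Finset.sum_eq_zero fun j _ => htan (F j) (hFc1 j) (hFs j) s (τ j) (hτν j), add_zero]
  rw [e2]
  exact h3

theorem inner_cs_right {f : Sp d → V} {g : Sp d → V} (hg : HasCompactSupport g) :
    HasCompactSupport (fun y => ⟪f y, g y⟫_ℝ) := by
  refine hg.mono' fun y hy => subset_closure fun h0 => hy ?_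
  show ⟪f y, g y⟫_ℝ = 0
  rw [h0, inner_zero_right]

theorem th_contDiff (σ : ℝ) : ContDiff ℝ ∞ (fun t : ℝ => Real.smoothTransition (σ * t)) :=
  Real.smoothTransition.contDiff.comp (contDiff_const.mul contDiff_id)

/-- the upper half space -/
theorem upper (hPF : StmtPF) (hd : 1 ≤ d) (L : (Sp d →L[ℝ] V) →L[ℝ] E) {m : ℕ} {ν : Sp d}
    (hν : ‖ν‖ = 1) {c ρ N : ℝ} {Φ Φh X : Sp d → E} {g : Sp d → V}
    (hF : Fld L m ν c ρ N Φ Φh X g) {P : Sp d → V} (hP : ContDiff ℝ ∞ P) :
    (∫ y, ⟪P y, Real.smoothTransition (1 * ht ν c y) • g y⟫_ℝ) =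
      -plInt ν c (fun y => ⟪L (rk1 ν (P y)), Φ y⟫_ℝ) -
        ∫ s in c..(c + 6), plInt ν s (fun y => ⟪fo L P y, Φh y⟫_ℝ) := by
  obtain ⟨-, h2⟩ := hPF d hd
  obtain ⟨hfub, hcont, -, -, -, -⟩ := h2 ν hν
  have hP1 : ContDiff ℝ 1 P := hP.of_le (by exact_mod_cast le_top)
  have hPc : Continuous P := hP.continuous
  have hΦh1 : ContDiff ℝ 1 Φh := hF.tf.smooth.of_le (by norm_cast)
  have hΦhs : HasCompactSupport Φh := cyl_cs hν hF.fs
  have hΦhc : Continuous Φh := hΦh1.continuous
  have hgc : Continuous g := hF.tg.smooth.continuous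
  have hgs : HasCompactSupport g := cyl_cs hν (fun y hy => (hF.gs y hy).1)
  have hfoc : Continuous (fo L P) :=
    L.continuous.comp (hP1.continuous_fderiv (by simp))
  have hthc : Continuous fun y => Real.smoothTransition (1 * ht ν c y) :=
    (th_contDiff 1).continuous.comp (ht_continuous ν c)
  -- the derivative
  set pz : ℝ → ℝ := fun s => plInt ν s (fun y => ⟪L (rk1 ν (P y)), Φh y⟫_ℝ) with hpz
  have hdv : ∀ s, HasDerivAt pz (plInt ν s (fun y => ⟪fo L P y, Φh y⟫_ℝ) +
      plInt ν s (fun y => ⟪P y, g y⟫_ℝ)) s := by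
    intro s
    have h3 := half_deriv hPF hd L hν hP1 hΦh1 hΦhs s
    have e1 : (fun y => ⟪fo L P y, Φh y⟫_ℝ + ⟪P y, dV L Φh y⟫_ℝ) =
        fun y => ⟪fo L P y, Φh y⟫_ℝ + ⟪P y, g y⟫_ℝ := by
      funext y
      rw [hF.eq]
    rw [e1, pl_add (hfoc.inner hΦhc) (inner_cs_right (V := E) hΦhs) (hPc.inner hgc)
      (inner_cs_right hgs)] at h3
    exact h3
  have hc1 : Continuous fun s => plInt ν s (fun y => ⟪fo L P y, Φh y⟫_ℝ) :=
    hcont _ (hfoc.inner hΦhc) (inner_cs_right (V := E) hΦhs)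
  have hc2 : Continuous fun s => plInt ν s (fun y => ⟪P y, g y⟫_ℝ) :=
    hcont _ (hPc.inner hgc) (inner_cs_right hgs)
  have hftc := intervalIntegral.integral_eq_sub_of_hasDerivAt (a := c) (b := c + 6)
    (fun s _ => hdv s) ((hc1.add hc2).intervalIntegrable _ _)
  rw [intervalIntegral.integral_add (hc1.intervalIntegrable _ _) (hc2.intervalIntegrable _ _)] at hftc
  -- the boundary values
  have hb1 : pz (c + 6) = 0 := by
    have e1 : pz (c + 6) = plInt ν (c + 6) (fun _ => (0 : ℝ)) := by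
      refine pl_congr hν c (c + 6) fun y hy => ?_
      have h4 : Φh y = 0 := by
        by_contra h5
        have := (hF.fs y h5).1
        rw [hy, add_sub_cancel_left, abs_of_pos (by norm_num)] at this
        norm_num at this
      rw [h4, inner_zero_right]
    rw [e1]
    unfold plInt
    simp
  have hb2 : pz c = plInt ν c (fun y => ⟪L (rk1 ν (P y)), Φ y⟫_ℝ) := by
    refine pl_congr hν c c fun y hy => ?_
    rw [hF.on y (by rw [hy, sub_self])]
  -- the upper part of g
  have hgpos : ∀ y, 0 ≤ ht ν c y → Real.smoothTransition (1 * ht ν c y) • g y = g y := by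
    intro y hy
    by_cases h5 : g y = 0
    · rw [h5, smul_zero]
    · have h6 := (hF.gs y h5).2
      rw [abs_of_nonneg hy] at h6
      rw [Real.smoothTransition.one_of_one_le (by linarith), one_smul]
  have hgneg : ∀ y, ht ν c y ≤ 0 → Real.smoothTransition (1 * ht ν c y) • g y = 0 := by
    intro y hy
    rw [Real.smoothTransition.zero_of_nonpos (by linarith), zero_smul]
  have hgpc : Continuous fun y => Real.smoothTransition (1 * ht ν c y) • g y := hthc.smul hgc
  have hgps : HasCompactSupport fun y => Real.smoothTransition (1 * ht ν c y) • g y := hgs.smul_left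
  have h6 : (∫ y, ⟪P y, Real.smoothTransition (1 * ht ν c y) • g y⟫_ℝ) =
      ∫ s in c..(c + 6), plInt ν s (fun y => ⟪P y, g y⟫_ℝ) := by
    rw [hfub _ ((hPc.inner hgpc).integrable_of_hasCompactSupport (inner_cs_right hgps))]
    rw [← intervalIntegral.integral_eq_integral_of_support_subset (a := c) (b := c + 6)]
    · refine intervalIntegral.integral_congr fun s hs => ?_
      rw [uIcc_of_le (by linarith)] at hs
      refine pl_congr hν c s fun y hy => ?_
      rw [hgpos y (by rw [hy]; linarith [hs.1])]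
    · intro s hs
      by_contra h7
      apply hs
      have e1 : plInt ν s (fun y => ⟪P y, Real.smoothTransition (1 * ht ν c y) • g y⟫_ℝ) =
          plInt ν s (fun _ => (0 : ℝ)) := by
        refine pl_congr hν c s fun y hy => ?_
        rw [mem_Ioc, not_and_or, not_lt, not_le] at h7
        rcases h7 with h7 | h7
        · rw [hgneg y (by rw [hy]; linarith), inner_zero_right]
        · have h8 : g y = 0 := by
            by_contra h5
            have := (hF.gs y h5).1.1
            rw [hy, abs_of_pos (by linarith)] at this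
            linarith
          rw [h8, smul_zero, inner_zero_right]
      show plInt ν s (fun y => ⟪P y, Real.smoothTransition (1 * ht ν c y) • g y⟫_ℝ) = 0
      rw [e1]
      unfold plInt
      simp
  rw [h6]
  rw [hb1, hb2] at hftc
  linarith

/-- the lower half space -/
theorem lower_half (hPF : StmtPF) (hd : 1 ≤ d) (L : (Sp d →L[ℝ] V) →L[ℝ] E) {m : ℕ} {ν : Sp d}
    (hν : ‖ν‖ = 1) {c ρ N : ℝ} {Φ Φh X : Sp d → E} {g : Sp d → V}
    (hF : Fld L m ν c ρ N Φ Φh X g) {P : Sp d → V} (hP : ContDiff ℝ ∞ P) :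
    (∫ y, ⟪P y, Real.smoothTransition (-1 * ht ν c y) • g y⟫_ℝ) =
      plInt ν c (fun y => ⟪L (rk1 ν (P y)), Φ y⟫_ℝ) -
        ∫ s in (c - 6)..c, plInt ν s (fun y => ⟪fo L P y, Φh y⟫_ℝ) := by
  obtain ⟨-, h2⟩ := hPF d hd
  obtain ⟨hfub, hcont, -, -, -, -⟩ := h2 ν hν
  have hP1 : ContDiff ℝ 1 P := hP.of_le (by exact_mod_cast le_top)
  have hPc : Continuous P := hP.continuous
  have hΦh1 : ContDiff ℝ 1 Φh := hF.tf.smooth.of_le (by norm_cast)
  have hΦhs : HasCompactSupport Φh := cyl_cs hν hF.fs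
  have hΦhc : Continuous Φh := hΦh1.continuous
  have hgc : Continuous g := hF.tg.smooth.continuous
  have hgs : HasCompactSupport g := cyl_cs hν (fun y hy => (hF.gs y hy).1)
  have hfoc : Continuous (fo L P) :=
    L.continuous.comp (hP1.continuous_fderiv (by simp))
  have hthc : Continuous fun y => Real.smoothTransition (-1 * ht ν c y) :=
    (th_contDiff (-1)).continuous.comp (ht_continuous ν c)
  -- the derivative
  set pz : ℝ → ℝ := fun s => plInt ν s (fun y => ⟪L (rk1 ν (P y)), Φh y⟫_ℝ) with hpz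
  have hdv : ∀ s, HasDerivAt pz (plInt ν s (fun y => ⟪fo L P y, Φh y⟫_ℝ) +
      plInt ν s (fun y => ⟪P y, g y⟫_ℝ)) s := by
    intro s
    have h3 := half_deriv hPF hd L hν hP1 hΦh1 hΦhs s
    have e1 : (fun y => ⟪fo L P y, Φh y⟫_ℝ + ⟪P y, dV L Φh y⟫_ℝ) =
        fun y => ⟪fo L P y, Φh y⟫_ℝ + ⟪P y, g y⟫_ℝ := by
      funext y
      rw [hF.eq]
    rw [e1, pl_add (hfoc.inner hΦhc) (inner_cs_right (V := E) hΦhs) (hPc.inner hgc)
      (inner_cs_right hgs)] at h3
    exact h3
  have hc1 : Continuous fun s => plInt ν s (fun y => ⟪fo L P y, Φh y⟫_ℝ) :=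
    hcont _ (hfoc.inner hΦhc) (inner_cs_right (V := E) hΦhs)
  have hc2 : Continuous fun s => plInt ν s (fun y => ⟪P y, g y⟫_ℝ) :=
    hcont _ (hPc.inner hgc) (inner_cs_right hgs)
  have hftc := intervalIntegral.integral_eq_sub_of_hasDerivAt (a := c - 6) (b := c)
    (fun s _ => hdv s) ((hc1.add hc2).intervalIntegrable _ _)
  rw [intervalIntegral.integral_add (hc1.intervalIntegrable _ _) (hc2.intervalIntegrable _ _)] at hftc
  -- the boundary values
  have hb1 : pz (c - 6) = 0 := by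
    have e1 : pz (c - 6) = plInt ν (c - 6) (fun _ => (0 : ℝ)) := by
      refine pl_congr hν c (c - 6) fun y hy => ?_
      have h4 : Φh y = 0 := by
        by_contra h5
        have h6 := (hF.fs y h5).1
        have h7 : c - 6 - c = (-6 : ℝ) := by ring
        rw [hy, h7, abs_neg, abs_of_pos (by norm_num)] at h6
        norm_num at h6
      rw [h4, inner_zero_right]
    rw [e1]
    unfold plInt
    simp
  have hb2 : pz c = plInt ν c (fun y => ⟪L (rk1 ν (P y)), Φ y⟫_ℝ) := by
    refine pl_congr hν c c fun y hy => ?_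
    rw [hF.on y (by rw [hy, sub_self])]
  -- the lower part of g
  have hgpos : ∀ y, ht ν c y ≤ 0 → Real.smoothTransition (-1 * ht ν c y) • g y = g y := by
    intro y hy
    by_cases h5 : g y = 0
    · rw [h5, smul_zero]
    · have h6 := (hF.gs y h5).2
      rw [abs_of_nonpos hy] at h6
      rw [Real.smoothTransition.one_of_one_le (by linarith), one_smul]
  have hgneg : ∀ y, 0 ≤ ht ν c y → Real.smoothTransition (-1 * ht ν c y) • g y = 0 := by
    intro y hy
    rw [Real.smoothTransition.zero_of_nonpos (by linarith), zero_smul]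
  have hgpc : Continuous fun y => Real.smoothTransition (-1 * ht ν c y) • g y := hthc.smul hgc
  have hgps : HasCompactSupport fun y => Real.smoothTransition (-1 * ht ν c y) • g y := hgs.smul_left
  have h6 : (∫ y, ⟪P y, Real.smoothTransition (-1 * ht ν c y) • g y⟫_ℝ) =
      ∫ s in (c - 6)..c, plInt ν s (fun y => ⟪P y, g y⟫_ℝ) := by
    rw [hfub _ ((hPc.inner hgpc).integrable_of_hasCompactSupport (inner_cs_right hgps))]
    rw [← intervalIntegral.integral_eq_integral_of_support_subset (a := c - 6) (b := c)]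
    · refine intervalIntegral.integral_congr fun s hs => ?_
      rw [uIcc_of_le (by linarith)] at hs
      refine pl_congr hν c s fun y hy => ?_
      rw [hgpos y (by rw [hy]; linarith [hs.2])]
    · intro s hs
      by_contra h7
      apply hs
      have e1 : plInt ν s (fun y => ⟪P y, Real.smoothTransition (-1 * ht ν c y) • g y⟫_ℝ) =
          plInt ν s (fun _ => (0 : ℝ)) := by
        refine pl_congr hν c s fun y hy => ?_
        rw [mem_Ioc, not_and_or, not_lt, not_le] at h7
        rcases h7 with h7 | h7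
        · have h8 : g y = 0 := by
            by_contra h5
            have := (hF.gs y h5).1.1
            rw [hy, abs_of_nonpos (by linarith)] at this
            linarith
          rw [h8, smul_zero, inner_zero_right]
        · rw [hgneg y (by rw [hy]; linarith), inner_zero_right]
      show plInt ν s (fun y => ⟪P y, Real.smoothTransition (-1 * ht ν c y) • g y⟫_ℝ) = 0
      rw [e1]
      unfold plInt
      simp
  rw [h6]
  rw [hb1, hb2] at hftc
  linarith

end Half

end SH
end TG
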