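import Pool.Agent.TG.SHBa

/-!
# Module SHB: the sheet lemma on one level (helper74)
-/

open MeasureTheory Metric Set TrI
open scoped InnerProductSpace ContDiff

namespace TG

namespace SHB

open TC

noncomputable section

variable {d : ℕ}

section Op

variable {V E : Type} [NormedAddCommGroup V] [InnerProductSpace ℝ V] [FiniteDimensional ℝ V]
  [NormedAddCommGroup E] [InnerProductSpace ℝ E] [FiniteDimensional ℝ E]

/-- standard basis vectors -/
def bs (j : Fin d) : Sp d := EuclideanSpace.single j (1 : ℝ)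

lemma sum_bs (x : Sp d) : ∑ j, x j • bs j = x := by
  ext i
  simp [bs, Finset.sum_apply, Pi.single_apply]

lemma inner_bs (x : Sp d) (j : Fin d) : ⟪x, bs j⟫_ℝ = x j := by
  rw [bs, EuclideanSpace.inner_single_right]
  simp

lemma dvE_eq (L : (Sp d →L[ℝ] V) →L[ℝ] E) (Φ : Sp d → E) (v : V) (y : Sp d) :
    dvE L Φ v y = ∑ j : Fin d, ⟪AA L (bs j) v, fderiv ℝ Φ y (bs j)⟫_ℝ := rfl

/-- cylinder functions have no derivative in the direction ν -/
lemma fderiv_nu {F : Type*} [NormedAddCommGroup F] [NormedSpace ℝ F] {ν : Sp d} (hν : ‖ν‖ = 1)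
    {Φ : Sp d → F} (hΦ : Differentiable ℝ Φ) (hc : ∀ y, Φ y = Φ (tang ν y)) (y : Sp d) :
    fderiv ℝ Φ y ν = 0 := by
  have h1 : HasDerivAt (fun t : ℝ => Φ (y + t • ν)) (fderiv ℝ Φ y ν) 0 := by
    have h2 : HasDerivAt (fun t : ℝ => y + t • ν) ν 0 := by
      simpa using ((hasDerivAt_id (0 : ℝ)).smul_const ν).const_add y
    have h3 : HasFDerivAt Φ (fderiv ℝ Φ y) (y + (0 : ℝ) • ν) := by
      rw [zero_smul, add_zero]
      exact (hΦ y).hasFDerivAt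
    exact h3.comp_hasDerivAt (0 : ℝ) h2
  have h4 : (fun t : ℝ => Φ (y + t • ν)) = fun _ => Φ y := by
    funext t
    rw [hc (y + t • ν), hc y, tang_add, tang_smul', tang_self hν, smul_zero, add_zero]
  rw [h4] at h1
  exact h1.unique (hasDerivAt_const _ _)

/-- for cylinder functions only tangential derivatives enter -/
lemma dvE_cyl (L : (Sp d →L[ℝ] V) →L[ℝ] E) {ν : Sp d} (hν : ‖ν‖ = 1) {Φ : Sp d → E}
    (hΦ : Differentiable ℝ Φ) (hc : ∀ y, Φ y = Φ (tang ν y)) (e : E) (ve : V) (y : Sp d) :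
    dvE L Φ ve y = ∑ j : Fin d, ⟪Lam L ν e ve (tang ν (bs j)), fderiv ℝ Φ y (bs j)⟫_ℝ := by
  rw [dvE_eq]
  have h1 : ∀ j : Fin d, ⟪AA L (bs j) ve, fderiv ℝ Φ y (bs j)⟫_ℝ =
      ⟪Lam L ν e ve (tang ν (bs j)), fderiv ℝ Φ y (bs j)⟫_ℝ +
        ⟪AA L ν ve, fderiv ℝ Φ y (ν j • bs j)⟫_ℝ := by
    intro j
    rw [Lam_tang L e ve (tang_inner hν _)]
    have h2 : bs j = tang ν (bs j) + ν j • ν := by
      unfold tang
      rw [inner_bs]
      abel
    have h3 : AA L (bs j) ve = AA L (tang ν (bs j)) ve + ν j • AA L ν ve := by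
      conv_lhs => rw [h2]
      rw [map_add, map_smul]
      rfl
    rw [h3, inner_add_left, map_smul, inner_smul_left, inner_smul_right]
    simp
  rw [Finset.sum_congr rfl fun j _ => h1 j, Finset.sum_add_distrib]
  have h4 : ∑ j : Fin d, ⟪AA L ν ve, fderiv ℝ Φ y (ν j • bs j)⟫_ℝ = 0 := by
    rw [← inner_sum, ← map_sum, sum_bs, fderiv_nu hν hΦ hc, inner_zero_right]
  rw [h4, add_zero]

/-- the jump polynomial is a polynomial -/
lemma JJ_poly (hd : 1 ≤ d) (m : ℕ) (ν q : Sp d) {u : Sp d → V} (hu : TF u) :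
    ContDiff ℝ ∞ (JJ m ν q 1 u) ∧ ∀ x, iteratedFDeriv ℝ (m + 1) (JJ m ν q 1 u) x = 0 := by
  have h1 := stmtTQ d V m u hd hu.smooth (q + (6 * 1 : ℝ) • ν) 1 one_pos
  have h2 := stmtTQ d V m u hd hu.smooth (q - (6 * 1 : ℝ) • ν) 1 one_pos
  have e : JJ m ν q 1 u = ATP m (q + (6 * 1 : ℝ) • ν) 1 u - ATP m (q - (6 * 1 : ℝ) • ν) 1 u := rfl
  refine ⟨?_, fun x => ?_⟩
  · rw [e]
    exact h1.1.sub h2.1
  · rw [e, iteratedFDeriv_sub_apply]
    · rw [h1.2.1, h2.2.1, sub_zero]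
    · exact (h1.1.of_le (by exact_mod_cast le_top)).contDiffAt
    · exact (h2.1.of_le (by exact_mod_cast le_top)).contDiffAt

lemma clm_poly {F G : Type*} [NormedAddCommGroup F] [NormedSpace ℝ F] [NormedAddCommGroup G]
    [NormedSpace ℝ G] (A : F →L[ℝ] G) {m : ℕ} {p : Sp d → F} (hp : ContDiff ℝ ∞ p)
    (h0 : ∀ x, iteratedFDeriv ℝ (m + 1) p x = 0) :
    ContDiff ℝ ∞ (fun y => A (p y)) ∧ ∀ x, iteratedFDeriv ℝ (m + 1) (fun y => A (p y)) x = 0 := by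
  refine ⟨A.contDiff.comp hp, fun x => ?_⟩
  have := A.iteratedFDeriv_comp_left (f := p) (x := x) hp.contDiffAt (i := m + 1)
    (by exact_mod_cast le_top)
  have e : (fun y => A (p y)) = A ∘ p := rfl
  rw [e, this, h0]
  ext
  simp

end Op

/-- the plane functional dominates the defect and the moment -/
lemma bD_facts (b : Sp d → ℝ) (ε R0 R s0 : ℝ) {E : Type} [NormedAddCommGroup E]
    [InnerProductSpace ℝ E] (f : Sp d → E) (i : ℕ) (x : Sp d) (e : E) (ν : Sp d) (c : ℝ) :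
    DD b ε R s0 f i x e ≤ bD b ε R0 R s0 f i x e ν c ∧
      bb R0 s0 f i x e ν c + DD b ε R s0 f i x e ≤ bD b ε R0 R s0 f i x e ν c := by
  unfold bD
  constructor
  · linarith [le_max_left 0 (bb R0 s0 f i x e ν c)]
  · linarith [le_max_right 0 (bb R0 s0 f i x e ν c)]

/-- lower bound of the mass in the cylinder -/
theorem massLow (d : ℕ) (hd : 1 ≤ d) (M c0 ε : ℝ) (hε : 0 < ε) (hε1 : ε ≤ 1) (b : Sp d → ℝ)
    (hb : BaseKer 2 M c0 b) (R0 : ℝ) (hR0 : 100 ≤ R0) : ∃ C : ℝ, 0 < C ∧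
    ∀ (E : Type) [NormedAddCommGroup E] [InnerProductSpace ℝ E] [FiniteDimensional ℝ E],
    ∀ f : Sp d → E, Continuous f → HasCompactSupport f → ∀ (R : ℝ), R0 + 10 ≤ R →
    ∀ (n : ℕ) (e : E), ‖e‖ = 1 → ∀ (ν : Sp d) (c : ℝ), ‖ν‖ = 1 → |c| ≤ R0 / 3 →
      (∫ y, ⟪f y, e⟫_ℝ * zR (R0 / 3) y) ≤
        (∫ y, ⟪f y, e⟫_ℝ * (cu1 4 (ht ν c y) * zR (R0 / 2 - 1) (tang ν y))) +
          C * bD b ε R0 R ((1 / 2) ^ n) f n 0 e ν c := by
  obtain ⟨CZ, hCZ, hZ⟩ := stmtZs d hd M c0 ε hε hε1 b hb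
  obtain ⟨N1, hN1, h1⟩ := zR_cb d 2 (R := R0 / 3) (by linarith)
  obtain ⟨N2, hN2, h2⟩ := ht2z_cb d 2 (R := R0) (by linarith) (R0 / 3)
  obtain ⟨N3, hN3, h3⟩ := zR_cb d 2 (R := R0 / 2 - 1) (by linarith)
  obtain ⟨N4, hN4, h4⟩ := cu1_cb 2
  refine ⟨1 + CZ * (2 ^ 2 * N4 * N3 + N2 + N1), by positivity, ?_⟩
  intro E _ _ _ f hf hfs R hR n e he ν c hν hc
  set D := DD b ε R ((1 / 2) ^ n) f n 0 e with hD
  have hD0 : 0 ≤ D := DD_nonneg hd hε hε1 hb hf hfs (by linarith) n he 0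
  obtain ⟨hB1, hB2⟩ := bD_facts b ε R0 R ((1 / 2) ^ n) f n 0 e ν c
  set BD := bD b ε R0 R ((1 / 2) ^ n) f n 0 e ν c with hBD
  have hcu : CB 2 (2 ^ 2 * N4 * N3)
      (fun y : Sp d => cu1 4 (ht ν c y) * zR (R0 / 2 - 1) (tang ν y)) :=
    ((h4 4 (by norm_num)).comp_ht hν.le c).mul (h3.comp_tang hν)
  have hz2 := h2 ν c hν.le hc
  set H : Sp d → ℝ := fun y => cu1 4 (ht ν c y) * zR (R0 / 2 - 1) (tang ν y) +
    zR R0 y * ht ν c y ^ 2 - zR (R0 / 3) y with hH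
  have hHN : CB 2 (2 ^ 2 * N4 * N3 + N2 + N1) H := (hcu.add hz2).sub h1
  have hH0 : ∀ y, 0 ≤ H y := by
    intro y
    have e1 := cu1_nonneg 4 (ht ν c y)
    have e2 := zR_nonneg (R0 / 2 - 1) (tang ν y)
    have e3 := zR_nonneg R0 y
    simp only [hH]
    by_cases hy : ‖y‖ < R0 / 3 + 1
    · have e4 := zR_le_one (R0 / 3) y
      have e5 : zR R0 y = 1 := zR_one (by linarith)
      by_cases hz : |ht ν c y| ≤ 4
      · rw [cu1_one hz, zR_one (by have := norm_tang_le hν y; linarith), e5]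
        nlinarith [sq_nonneg (ht ν c y)]
      · push Not at hz
        have e6 : 1 ≤ ht ν c y ^ 2 := by
          rw [← sq_abs]; nlinarith
        rw [e5]
        nlinarith [mul_nonneg e1 e2]
    · push Not at hy
      rw [zR_zero hy, sub_zero]
      positivity
  have hHs : ∀ y, R - 2 ≤ ‖y - 0‖ → H y = 0 := by
    intro y hy
    rw [sub_zero] at hy
    have e1 : zR R0 y = 0 := zR_zero (by linarith)
    have e2 : zR (R0 / 3) y = 0 := zR_zero (by linarith)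
    have e3 : cu1 4 (ht ν c y) * zR (R0 / 2 - 1) (tang ν y) = 0 := by
      by_contra hcon
      have h5 : |ht ν c y| < 5 := by
        by_contra hcon'
        exact left_ne_zero_of_mul hcon (cu1_zero (by linarith [not_lt.1 hcon']))
      have h6 : ‖tang ν y‖ < R0 / 2 := by
        by_contra hcon'
        exact right_ne_zero_of_mul hcon (zR_zero (by linarith [not_lt.1 hcon']))
      have h7 := norm_le_tang hν y
      have h8 : |⟪ν, y⟫_ℝ| ≤ |ht ν c y| + |c| := by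
        have : ⟪ν, y⟫_ℝ = ht ν c y + c := by unfold ht; ring
        rw [this]
        exact abs_add_le _ _
      linarith
    simp only [hH]
    rw [e1, e2, e3]
    ring
  have i1 : Integrable (fun y => ⟪f y, e⟫_ℝ * zR (R0 / 3) y) := int_test hf hfs e h1.smooth.continuous
  have i2 : Integrable (fun y => ⟪f y, e⟫_ℝ * (zR R0 y * ht ν c y ^ 2)) :=
    int_test hf hfs e hz2.smooth.continuous
  have i3 : Integrable (fun y => ⟪f y, e⟫_ℝ * (cu1 4 (ht ν c y) * zR (R0 / 2 - 1) (tang ν y))) :=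
    int_test hf hfs e hcu.smooth.continuous
  have h9 := hZ E f hf hfs R (by linarith) n e he 0 H _ hHN hH0 hHs
  have h10 : ∫ y, ⟪f y, e⟫_ℝ * H y =
      (∫ y, ⟪f y, e⟫_ℝ * (cu1 4 (ht ν c y) * zR (R0 / 2 - 1) (tang ν y))) +
      (∫ y, ⟪f y, e⟫_ℝ * (zR R0 y * ht ν c y ^ 2)) - ∫ y, ⟪f y, e⟫_ℝ * zR (R0 / 3) y := by
    have e4 : ∀ y, ⟪f y, e⟫_ℝ * H y =
        ⟪f y, e⟫_ℝ * (cu1 4 (ht ν c y) * zR (R0 / 2 - 1) (tang ν y)) +
        ⟪f y, e⟫_ℝ * (zR R0 y * ht ν c y ^ 2) - ⟪f y, e⟫_ℝ * zR (R0 / 3) y := by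
      intro y
      simp only [hH]
      ring
    have j2 : Integrable (fun y =>
        ⟪f y, e⟫_ℝ * (cu1 4 (ht ν c y) * zR (R0 / 2 - 1) (tang ν y)) +
        ⟪f y, e⟫_ℝ * (zR R0 y * ht ν c y ^ 2)) := i3.add i2
    rw [integral_congr_ae (Filter.Eventually.of_forall e4), integral_sub j2 i1,
      integral_add i3 i2]
  rw [h10, ← bb_unit R0 f n e ν c] at h9
  have h11 : CZ * (2 ^ 2 * N4 * N3 + N2 + N1) * D ≤ CZ * (2 ^ 2 * N4 * N3 + N2 + N1) * BD := by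
    gcongr
  have h12 : (1 + CZ * (2 ^ 2 * N4 * N3 + N2 + N1)) * BD =
      BD + CZ * (2 ^ 2 * N4 * N3 + N2 + N1) * BD := by ring
  rw [h12]
  linarith

/-- the part of e orthogonal to the range of A(ν) is small -/
theorem small (hSHA : StmtSHA) (d : ℕ) (V E : Type) [NormedAddCommGroup V]
    [InnerProductSpace ℝ V] [FiniteDimensional ℝ V] [NormedAddCommGroup E] [InnerProductSpace ℝ E]
    [FiniteDimensional ℝ E] (L : (Sp d →L[ℝ] V) →L[ℝ] E) (n0 : ℕ)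
    (T : (ContinuousMultilinearMap ℝ (fun _ : Fin n0 => Sp d) E) →L[ℝ]
      (ContinuousMultilinearMap ℝ (fun _ : Fin (n0 + 1) => Sp d) V)) (hd : 2 ≤ d) (hn0 : 1 ≤ n0)
    (hL : CEll L) (hT : NSProp L n0 T) (M c0 ε : ℝ) (hε : 0 < ε) (hε1 : ε ≤ 1) (b : Sp d → ℝ)
    (hb : BaseKer 2 M c0 b) (R0 : ℝ) (hR0 : 100 ≤ R0) (Bv : ℝ) (hBv : 0 < Bv) (δ : ℝ)
    (hδ : 0 < δ) : ∃ κ : ℝ, 0 < κ ∧
    ∀ (R : ℝ), R0 + 10 ≤ R → ∀ (n : ℕ) (u : Sp d → V), TF u → ∀ e : E, ‖e‖ = 1 →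
      ∀ (ν : Sp d) (c : ℝ), ‖ν‖ = 1 → |c| ≤ R0 / 3 → Flat b ε R0 R κ (fo L u) n e ν c →
      ∀ ve : V, ‖ve‖ ≤ Bv → (∀ w : V, ⟪e - AA L ν ve, AA L ν w⟫_ℝ = 0) →
      ‖e - AA L ν ve‖ ≤ δ := by
  obtain ⟨J, hSH⟩ := hSHA d V E L n0 T hd hn0 hL hT
  obtain ⟨CA, hCA, hA⟩ := hSH M c0 ε hε hε1 b hb R0 hR0
  obtain ⟨CX, hCX, hX⟩ := mixed d (by omega) M c0 ε hε hε1 b hb R0 hR0
  obtain ⟨CL, hCL, hLow⟩ := massLow d (by omega) M c0 ε hε hε1 b hb R0 hR0
  obtain ⟨Nφ, hNφ, hφ⟩ := zR_cb d (J + 3) (R := R0 / 2 - 1) (by linarith)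
  -- constants
  set K1 : ℝ := 2 * (CA * Nφ) + 2 * (CX * (d * (‖L‖ * Bv) * Nφ)) with hK1
  have hK1n : 0 < K1 := by positivity
  set κ : ℝ := min (min 1 (1 / (2 * CL))) ((δ / (2 * K1)) ^ 2) with hκ
  have hκ0 : 0 < κ := by
    rw [hκ]
    exact lt_min (lt_min one_pos (by positivity)) (by positivity)
  have hκ1 : κ ≤ 1 := (min_le_left _ _).trans (min_le_left _ _)
  have hκ2 : κ ≤ 1 / (2 * CL) := (min_le_left _ _).trans (min_le_right _ _)
  have hκ3 : Real.sqrt κ ≤ δ / (2 * K1) := by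
    rw [show δ / (2 * K1) = Real.sqrt ((δ / (2 * K1)) ^ 2) from
      (Real.sqrt_sq (by positivity)).symm]
    exact Real.sqrt_le_sqrt (min_le_right _ _)
  refine ⟨κ, hκ0, ?_⟩
  intro R hR n u hu e he ν c hν hc hFlat ve hve hort
  obtain ⟨hMi0, hF1, hF2⟩ := hFlat
  set f := fo L u with hf
  have hfc : Continuous f := fo_cont L hu
  have hfs : HasCompactSupport f := fo_cs L hu
  set Mi := ∫ y, ⟪f y, e⟫_ℝ * zR (R0 / 3) y with hMi
  obtain ⟨hB1, hB2⟩ := bD_facts b ε R0 R ((1 / 2) ^ n) f n 0 e ν c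
  set BD := bD b ε R0 R ((1 / 2) ^ n) f n 0 e ν c with hBD
  set D := DD b ε R ((1 / 2) ^ n) f n 0 e with hD
  set mm := ma b ε R0 ((1 / 2) ^ n) f n 0 with hmm
  have hD0 : 0 ≤ D := DD_nonneg (by omega) hε hε1 hb hfc hfs (by linarith) n he 0
  have hm0 : 0 ≤ mm := ma_nonneg b ε R0 f n
  have hBD0 : 0 ≤ BD := hD0.trans hB1
  set e' := e - AA L ν ve with he'
  rcases eq_or_ne e' 0 with h0 | hne
  · rw [h0, norm_zero]; exact hδ.le
  have hnp : 0 < ‖e'‖ := norm_pos_iff.2 hne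
  -- the test function
  set φ : Sp d → ℝ := fun y => zR (R0 / 2 - 1) (tang ν y) with hφd
  have hφN : CB (J + 3) Nφ φ := hφ.comp_tang hν
  have hφdiff : Differentiable ℝ φ := hφN.smooth.differentiable (by
    have : ((J + 3 : ℕ) : ℕ∞ω) ≠ 0 := by exact_mod_cast (by omega : J + 3 ≠ 0)
    exact this)
  have hφC : Cyl ν (R0 / 2) φ := by
    refine ⟨fun y => ?_, fun y hy => ?_⟩
    · simp only [hφd]; rw [tang_tang hν]
    · by_contra hcon
      exact hy (zR_zero (by linarith [not_le.1 hcon]))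
  set Φ : Sp d → E := fun y => φ y • e' with hΦ
  have hΦN : TFn J (Nφ * ‖e'‖) Φ := ((hφN.le (by omega)).smul_vec e').tfn
  have hΦC : Cyl ν (R0 / 2) Φ := by
    refine ⟨fun y => ?_, fun y hy => hφC.supp y fun h => hy ?_⟩
    · simp only [hΦ]; rw [hφC.const y]
    · simp only [hΦ]; rw [h, zero_smul]
  have hort' : ∀ w : V, ⟪e - L (rk1 ν ve), L (rk1 ν w)⟫_ℝ = 0 := hort
  have hSA := hA R hR n u hu e he ν c hν hc ve hort' Φ _ hΦN hΦC
  -- identities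
  have hee : ⟪e, e'⟫_ℝ = ‖e'‖ ^ 2 := by
    have h1 : ⟪e' + AA L ν ve, e'⟫_ℝ = ⟪e, e'⟫_ℝ := by rw [he']; congr 1; abel
    rw [← h1, inner_add_left, real_inner_self_eq_norm_sq, real_inner_comm, hort, add_zero]
  set w : Sp d := ∑ j : Fin d, ⟪AA L (bs j) ve, e'⟫_ℝ • bs j with hw
  have hwn : ‖w‖ ≤ d * (‖L‖ * Bv) * ‖e'‖ := by
    rw [hw]
    refine (norm_sum_le _ _).trans ?_
    have h1 : ∀ j ∈ (Finset.univ : Finset (Fin d)), ‖⟪AA L (bs j) ve, e'⟫_ℝ • bs j‖ ≤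
        ‖L‖ * Bv * ‖e'‖ := by
      intro j _
      have hbj : ‖(bs j : Sp d)‖ = 1 := by simp [bs]
      rw [norm_smul, hbj, mul_one]
      refine (norm_inner_le_norm _ _).trans ?_
      refine mul_le_mul_of_nonneg_right ?_ (norm_nonneg _)
      have h2 := AA_le L (bs j) ve
      rw [hbj, one_mul] at h2
      refine h2.trans ?_
      gcongr
    refine (Finset.sum_le_sum h1).trans (le_of_eq ?_)
    rw [Finset.sum_const, Finset.card_univ, Fintype.card_fin, nsmul_eq_mul]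
    ring
  set g : Sp d → ℝ := fun y => fderiv ℝ φ y w with hg
  have hgN : CB 2 (‖w‖ * Nφ) g := (hφN.le (by omega : 2 + 1 ≤ J + 3)).fderiv_apply w
  have hgs : ∀ y, g y ≠ 0 → ‖tang ν y‖ ≤ R0 / 2 := by
    intro y hy
    by_contra hcon
    push Not at hcon
    apply hy
    have hop : ∀ᶠ z in nhds y, φ z = 0 := by
      have hcont : Continuous (fun z : Sp d => ‖tang ν z‖) := by
        have : (fun z : Sp d => ‖tang ν z‖) = fun z => ‖tangL ν z‖ := by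
          funext z; rw [tangL_apply]
        rw [this]
        exact (tangL ν).continuous.norm
      filter_upwards [(isOpen_lt continuous_const hcont).mem_nhds hcon] with z hz
      exact zR_zero (by
        have : R0 / 2 < ‖tang ν z‖ := hz
        linarith)
    have h1 : fderiv ℝ φ y = fderiv ℝ (fun _ : Sp d => (0 : ℝ)) y :=
      Filter.EventuallyEq.fderiv_eq hop
    simp only [hg]
    rw [h1]
    simp
  have hdv : ∀ y, dvE L Φ ve y = g y := by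
    intro y
    rw [dvE_eq]
    have h1 : ∀ j : Fin d, fderiv ℝ Φ y (bs j) = fderiv ℝ φ y (bs j) • e' := by
      intro j
      have h2 : HasFDerivAt Φ ((fderiv ℝ φ y).smulRight e') y :=
        (hφdiff y).hasFDerivAt.smul_const e'
      rw [h2.fderiv]
      rfl
    simp only [hg, hw]
    rw [map_sum]
    refine Finset.sum_congr rfl fun j _ => ?_
    rw [h1, inner_smul_right, map_smul, smul_eq_mul]
    ring
  have hpl : plInt ν c (fun y => ⟪L (rk1 ν (JJ n0 ν (c • ν) 1 u y)), Φ y⟫_ℝ) = 0 := by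
    unfold plInt
    have : ∀ y : (Submodule.span ℝ {ν})ᗮ,
        (fun y => ⟪L (rk1 ν (JJ n0 ν (c • ν) 1 u y)), Φ y⟫_ℝ) (c • ν + (y : Sp d)) = 0 := by
      intro y
      simp only [hΦ]
      rw [inner_smul_right, real_inner_comm]
      have := hort (JJ n0 ν (c • ν) 1 u (c • ν + (y : Sp d)))
      rw [AA_apply L ν (JJ n0 ν (c • ν) 1 u (c • ν + (y : Sp d)))] at this
      rw [this, mul_zero]
    simp_rw [this]
    simp
  have hint : (∫ y, ⟪f y, e⟫_ℝ * (cu1 4 (ht ν c y) * (⟪e, Φ y⟫_ℝ - ht ν c y * dvE L Φ ve y))) =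
      ‖e'‖ ^ 2 * (∫ y, ⟪f y, e⟫_ℝ * (cu1 4 (ht ν c y) * φ y)) -
        ∫ y, ⟪f y, e⟫_ℝ * (cu1 4 (ht ν c y) * ht ν c y * g y) := by
    obtain ⟨N4, hN4, h4⟩ := cu1_cb 2
    have hcuc : Continuous (fun y : Sp d => cu1 4 (ht ν c y)) :=
      ((h4 4 (by norm_num)).comp_ht hν.le c).smooth.continuous
    have hhtc : Continuous (fun y : Sp d => ht ν c y) := by unfold ht; fun_prop
    have i1 : Integrable (fun y => ⟪f y, e⟫_ℝ * (cu1 4 (ht ν c y) * φ y)) :=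
      int_test hfc hfs e (hcuc.mul hφdiff.continuous)
    have i2 : Integrable (fun y => ⟪f y, e⟫_ℝ * (cu1 4 (ht ν c y) * ht ν c y * g y)) :=
      int_test hfc hfs e ((hcuc.mul hhtc).mul hgN.smooth.continuous)
    have e1 : ∀ y, ⟪f y, e⟫_ℝ * (cu1 4 (ht ν c y) * (⟪e, Φ y⟫_ℝ - ht ν c y * dvE L Φ ve y)) =
        ‖e'‖ ^ 2 * (⟪f y, e⟫_ℝ * (cu1 4 (ht ν c y) * φ y)) -
          ⟪f y, e⟫_ℝ * (cu1 4 (ht ν c y) * ht ν c y * g y) := by
      intro y
      rw [hdv]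
      simp only [hΦ]
      rw [inner_smul_right, hee]
      ring
    rw [integral_congr_ae (Filter.Eventually.of_forall e1), integral_sub (i1.const_mul _) i2,
      integral_const_mul]
  rw [hpl, hint, sub_zero] at hSA
  have hXb := hX E f hfc hfs R hR n e he ν c hν hc g _ hgN hgs
  have hLo := hLow E f hfc hfs R hR n e he ν c hν hc
  rw [← hMi, ← hBD] at hLo
  rw [← hmm, ← hD, ← hBD] at hXb
  rw [← hBD, ← hmm, ← hD] at hSA
  set M' := ∫ y, ⟪f y, e⟫_ℝ * (cu1 4 (ht ν c y) * φ y) with hM'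
  set X := ∫ y, ⟪f y, e⟫_ℝ * (cu1 4 (ht ν c y) * ht ν c y * g y) with hXd
  -- M' ≥ Mi / 2
  have hM2 : Mi / 2 ≤ M' := by
    have h1 : CL * BD ≤ Mi / 2 := by
      calc CL * BD ≤ CL * (κ * Mi) := by gcongr
        _ ≤ CL * (1 / (2 * CL) * Mi) := by gcongr
        _ = Mi / 2 := by field_simp
    have h2 : Mi ≤ M' + CL * BD := hLo
    linarith
  -- the size of the errors
  have hsκ : 0 ≤ Real.sqrt κ := Real.sqrt_nonneg _
  have hκs : κ ≤ Real.sqrt κ := by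
    have h1 : κ * κ ≤ κ := by nlinarith
    exact Real.le_sqrt_of_sq_le (by nlinarith)
  have hη : BD + Real.sqrt (mm * D) ≤ 2 * (Real.sqrt κ * Mi) := by
    have h1 : Real.sqrt (mm * D) ≤ Real.sqrt κ * Mi := by
      have h2 : mm * D ≤ κ * Mi ^ 2 := le_trans (by gcongr) hF2
      calc Real.sqrt (mm * D) ≤ Real.sqrt (κ * Mi ^ 2) := Real.sqrt_le_sqrt h2
        _ = Real.sqrt κ * Mi := by rw [Real.sqrt_mul hκ0.le, Real.sqrt_sq hMi0.le]
    have h3 : BD ≤ Real.sqrt κ * Mi := hF1.trans (by gcongr)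
    linarith
  have hmx : Real.sqrt ((mm + D) * BD) ≤ 2 * (Real.sqrt κ * Mi) := by
    have h2 : (mm + D) * BD ≤ 4 * (κ * Mi ^ 2) := by
      have h3 : D * BD ≤ κ * Mi ^ 2 := by
        calc D * BD ≤ BD * BD := by gcongr
          _ ≤ (κ * Mi) * (κ * Mi) := by gcongr
          _ = κ * (κ * Mi ^ 2) := by ring
          _ ≤ 1 * (κ * Mi ^ 2) := by gcongr
          _ = _ := one_mul _
      have h4 : 0 ≤ κ * Mi ^ 2 := by positivity
      nlinarith
    calc Real.sqrt ((mm + D) * BD) ≤ Real.sqrt (4 * (κ * Mi ^ 2)) := Real.sqrt_le_sqrt h2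
      _ = 2 * (Real.sqrt κ * Mi) := by
        rw [Real.sqrt_mul (by norm_num), Real.sqrt_mul hκ0.le, Real.sqrt_sq hMi0.le,
          show (4 : ℝ) = 2 ^ 2 by norm_num, Real.sqrt_sq (by norm_num)]
  have hfin : ‖e'‖ ^ 2 * (Mi / 2) ≤ ‖e'‖ * (K1 * (Real.sqrt κ * Mi)) := by
    have h1 : ‖e'‖ ^ 2 * M' ≤ CA * (Nφ * ‖e'‖) * (BD + Real.sqrt (mm * D)) + |X| := by
      have h2 := le_abs_self (‖e'‖ ^ 2 * M' - X)
      have h3 := le_abs_self X
      linarith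
    have h2 : |X| ≤ CX * (d * (‖L‖ * Bv) * ‖e'‖ * Nφ) * (2 * (Real.sqrt κ * Mi)) := by
      refine hXb.trans ?_
      gcongr
    have h3 : CA * (Nφ * ‖e'‖) * (BD + Real.sqrt (mm * D)) ≤
        CA * (Nφ * ‖e'‖) * (2 * (Real.sqrt κ * Mi)) := by gcongr
    have h4 : ‖e'‖ ^ 2 * (Mi / 2) ≤ ‖e'‖ ^ 2 * M' := by gcongr
    calc ‖e'‖ ^ 2 * (Mi / 2) ≤ _ := h4
      _ ≤ _ := h1
      _ ≤ CA * (Nφ * ‖e'‖) * (2 * (Real.sqrt κ * Mi)) +
          CX * (d * (‖L‖ * Bv) * ‖e'‖ * Nφ) * (2 * (Real.sqrt κ * Mi)) := add_le_add h3 h2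
      _ = _ := by rw [hK1]; ring
  have hfin2 : ‖e'‖ ≤ 2 * K1 * Real.sqrt κ := by
    have h1 : (‖e'‖ * Mi / 2) * ‖e'‖ ≤ (K1 * (Real.sqrt κ * Mi)) * ‖e'‖ := by nlinarith
    have h2 := le_of_mul_le_mul_right h1 hnp
    have h3 : ‖e'‖ * Mi ≤ (2 * K1 * Real.sqrt κ) * Mi := by linarith
    exact le_of_mul_le_mul_right h3 hMi0
  calc ‖e'‖ ≤ 2 * K1 * Real.sqrt κ := hfin2
    _ ≤ 2 * K1 * (δ / (2 * K1)) := by gcongr
    _ = δ := by field_simp

lemma differentiable_of_TFn {F : Type*} [NormedAddCommGroup F] [NormedSpace ℝ F] {J : ℕ} {N : ℝ}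
    {g : Sp d → F} (h : TFn (J + 1) N g) : Differentiable ℝ g :=
  h.smooth.differentiable (by
    have : ((J + 1 : ℕ) : ℕ∞ω) ≠ 0 := by exact_mod_cast (by omega : J + 1 ≠ 0)
    exact this)

lemma fderiv_inner_zero {ν : Sp d} {Y : Sp d → Sp d} (hY : Differentiable ℝ Y)
    (h0 : ∀ y, ⟪ν, Y y⟫_ℝ = 0) (y w : Sp d) : ⟪ν, fderiv ℝ Y y w⟫_ℝ = 0 := by
  have h1 : HasFDerivAt (fun z => innerSL ℝ ν (Y z)) ((innerSL ℝ ν) ∘L (fderiv ℝ Y y)) y :=
    (innerSL ℝ ν).hasFDerivAt.comp y (hY y).hasFDerivAt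
  have h2 : (fun z => innerSL ℝ ν (Y z)) = fun _ => (0 : ℝ) := by
    funext z
    exact h0 z
  rw [h2] at h1
  have h3 := h1.unique (hasFDerivAt_const (0 : ℝ) y)
  have h4 := congrArg (fun A : Sp d →L[ℝ] ℝ => A w) h3
  exact h4

end

end SHB

open SHB TC in
theorem stmtSHB (hSHA : StmtSHA) : StmtSHB := by
  intro d V E _ _ _ _ _ _ L n0 T hd hn0 hL hT
  have : CompleteSpace E := FiniteDimensional.complete ℝ E
  obtain ⟨cA, hcA, hlow⟩ := lower L hL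
  obtain ⟨J, hSH⟩ := hSHA d V E L n0 T hd hn0 hL hT
  refine ⟨J + 1, ?_⟩
  intro M c0 ε hε hε1 b hb R0 hR0
  obtain ⟨CA, hCA, hA⟩ := hSH M c0 ε hε hε1 b hb R0 hR0
  set K : ℝ := ‖L‖ + 1 with hK
  have hK0 : 0 < K := by positivity
  set c1 : ℝ := cA / (4 * K) with hc1
  have hc1p : 0 < c1 := by positivity
  have hδ : 0 < min (1 / 2) c1 := lt_min (by norm_num) hc1p
  obtain ⟨κ, hκ, hsm⟩ := small hSHA d V E L n0 T hd hn0 hL hT M c0 ε hε hε1 b hb R0 hR0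
    (1 / cA) (by positivity) (min (1 / 2) c1) hδ
  obtain ⟨CP, hCP, hpoly⟩ := polyPlane d (by omega) n0 (J + 1) (R0 / 2) R0 (by linarith)
  set B : ℝ := ‖L‖ * (1 / cA) + 1 with hB
  have hBp : 0 < B := by positivity
  refine ⟨K / c1 + CA * (2 / c1) + (B + CP * CA) / cA, κ, by positivity, hκ, ?_⟩
  intro R hR n u hu e he ν c hν hc hFlat η hη
  obtain ⟨ve, hve, hort⟩ := exists_ve L hcA hlow hν he
  have hsmall := hsm R hR n u hu e he ν c hν hc hFlat ve hve hort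
  have hs1 : ‖e - AA L ν ve‖ ≤ 1 / 2 := hsmall.trans (min_le_left _ _)
  have hs2 : ‖e - AA L ν ve‖ ≤ cA / (4 * (‖L‖ + 1)) := hsmall.trans (min_le_right _ _)
  have hge := Lam_ge L hcA hlow hν he hs1 hs2
  set Λ := Lam L ν e ve with hΛ
  obtain ⟨P, hPn, hPΛ, hPo⟩ := exists_left Λ hc1p hge
  have hort' : ∀ w : V, ⟪e - L (rk1 ν ve), L (rk1 ν w)⟫_ℝ = 0 := hort
  have hSA := hA R hR n u hu e he ν c hν hc ve hort'
  set f := fo L u with hf
  have hfc : Continuous f := fo_cont L hu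
  have hfs : HasCompactSupport f := fo_cs L hu
  have hη0 : 0 ≤ η := by
    rw [hη]
    have h1 := (bD_facts b ε R0 R ((1 / 2) ^ n) f n 0 e ν c).1
    have h2 := DD_nonneg (by omega) hε hε1 hb hfc hfs (by linarith : (3 : ℝ) ≤ R) n he 0
    have h3 := Real.sqrt_nonneg (ma b ε R0 ((1 / 2) ^ n) f n 0 * DD b ε R ((1 / 2) ^ n) f n 0 e)
    linarith
  rw [← hη] at hSA
  set A : V →L[ℝ] Sp d := P ∘L AA L ν with hAdef
  have hAn : ‖A‖ ≤ K / c1 := by
    refine (ContinuousLinearMap.opNorm_comp_le _ _).trans ?_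
    have h1 := norm_AA_le L hν
    calc ‖P‖ * ‖AA L ν‖ ≤ (1 / c1) * K := by
          refine mul_le_mul hPn (h1.trans (by linarith)) (norm_nonneg _) (by positivity)
      _ = K / c1 := by ring
  have hKc : 0 < K / c1 := by positivity
  have hPe : P e = ν := by
    have := hPΛ ν
    rwa [hΛ, Lam_nu L hν] at this
  have hCC : K / c1 ≤ K / c1 + CA * (2 / c1) + (B + CP * CA) / cA := by
    have h1 : 0 ≤ CA * (2 / c1) := by positivity
    have h2 : 0 ≤ (B + CP * CA) / cA := by positivity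
    linarith
  refine ⟨(innerSL ℝ ν) ∘L A, (tangL ν) ∘L A, ?_, ?_, ?_, ?_, ?_⟩
  · refine (ContinuousLinearMap.opNorm_comp_le _ _).trans ?_
    rw [innerSL_apply_norm, hν, one_mul]
    exact hAn.trans hCC
  · refine (ContinuousLinearMap.opNorm_comp_le _ _).trans ?_
    have h1 := norm_tangL_le hν
    calc ‖tangL ν‖ * ‖A‖ ≤ 1 * (K / c1) := mul_le_mul h1 hAn (norm_nonneg _) (by norm_num)
      _ = K / c1 := one_mul _
      _ ≤ _ := hCC
  · intro v
    have : ((tangL ν) ∘L A) v = tang ν (A v) := tangL_apply ν (A v)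
    rw [this]
    exact tang_inner hν _
  · -- the jump identity
    intro ψ Y N hψ hY hψC hYC hYν
    set Q := ContinuousLinearMap.adjoint P with hQ
    have hQn : ‖Q‖ ≤ 1 / c1 := by
      rw [hQ, LinearIsometryEquiv.norm_map]
      exact hPn
    have hQi : ∀ (a : E) (w : Sp d), ⟪a, Q w⟫_ℝ = ⟪P a, w⟫_ℝ := fun a w => by
      rw [hQ, ContinuousLinearMap.adjoint_inner_right]
    set Φ : Sp d → E := fun y => Q (ψ y • ν + Y y) with hΦ
    have hψd := differentiable_of_TFn hψ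
    have hYd := differentiable_of_TFn hY
    have hψn : 0 ≤ N := hψ.cb.nonneg
    have hΦN : TFn J ((1 / c1) * (N * ‖ν‖ + N)) Φ :=
      (((((hψ.cb).le (Nat.le_succ J)).smul_vec ν).add ((hY.cb).le (Nat.le_succ J))).clm_le hQn).tfn
    have hΦC : Cyl ν (R0 / 2) Φ := by
      refine ⟨fun y => ?_, fun y hy => ?_⟩
      · simp only [hΦ]; rw [hψC.const y, hYC.const y]
      · by_cases h1 : ψ y = 0
        · refine hYC.supp y fun h2 => hy ?_
          simp only [hΦ]; rw [h1, h2]; simp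
        · exact hψC.supp y h1
    have hΦd : Differentiable ℝ Φ := Q.differentiable.comp ((hψd.smul_const ν).add hYd)
    have h1 := hSA Φ _ hΦN hΦC
    have e1 : ∀ y, ⟪e, Φ y⟫_ℝ = ψ y := by
      intro y
      simp only [hΦ]
      rw [hQi, hPe, inner_add_right, inner_smul_right, real_inner_self_eq_norm_sq, hν, hYν]
      ring
    have e2 : ∀ y, dvE L Φ ve y = dv Y y := by
      intro y
      rw [dvE_cyl L hν hΦd hΦC.const e ve y]
      unfold dv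
      refine Finset.sum_congr rfl fun j _ => ?_
      have h2 : fderiv ℝ Φ y (bs j) = Q (fderiv ℝ ψ y (bs j) • ν + fderiv ℝ Y y (bs j)) := by
        have h3 : HasFDerivAt (fun y => ψ y • ν + Y y)
            ((fderiv ℝ ψ y).smulRight ν + fderiv ℝ Y y) y :=
          ((hψd y).hasFDerivAt.smul_const ν).add (hYd y).hasFDerivAt
        have h4 := Q.hasFDerivAt.comp y h3
        have h5 : HasFDerivAt Φ (Q ∘L ((fderiv ℝ ψ y).smulRight ν + fderiv ℝ Y y)) y := h4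
        rw [h5.fderiv]
        rfl
      rw [h2, hQi, ← hΛ, hPΛ, inner_add_right, inner_smul_right]
      have h6 : ⟪tang ν (bs j), ν⟫_ℝ = 0 := by
        rw [real_inner_comm]; exact tang_inner hν _
      have h7 : ⟪tang ν (bs j), fderiv ℝ Y y (bs j)⟫_ℝ = ⟪bs j, fderiv ℝ Y y (bs j)⟫_ℝ := by
        unfold tang
        rw [inner_sub_left, inner_smul_left, fderiv_inner_zero hYd hYν]
        simp
      rw [h6, h7, mul_zero, zero_add, real_inner_comm, inner_bs]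
      rfl
    have e3 : ∀ y, ⟪L (rk1 ν (JJ n0 ν (c • ν) 1 u y)), Φ y⟫_ℝ =
        ((innerSL ℝ ν) ∘L A) (JJ n0 ν (c • ν) 1 u y) * ψ y +
          ⟪((tangL ν) ∘L A) (JJ n0 ν (c • ν) 1 u y), Y y⟫_ℝ := by
      intro y
      simp only [hΦ]
      rw [hQi, ← AA_apply]
      have h2 : P (AA L ν (JJ n0 ν (c • ν) 1 u y)) = A (JJ n0 ν (c • ν) 1 u y) := rfl
      rw [h2, inner_add_right, inner_smul_right]
      have h3 : ((innerSL ℝ ν) ∘L A) (JJ n0 ν (c • ν) 1 u y) =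
        ⟪ν, A (JJ n0 ν (c • ν) 1 u y)⟫_ℝ := rfl
      have h4 : ((tangL ν) ∘L A) (JJ n0 ν (c • ν) 1 u y) = tang ν (A (JJ n0 ν (c • ν) 1 u y)) :=
        tangL_apply _ _
      rw [h3, h4, real_inner_comm]
      have h5 : ⟪tang ν (A (JJ n0 ν (c • ν) 1 u y)), Y y⟫_ℝ =
          ⟪A (JJ n0 ν (c • ν) 1 u y), Y y⟫_ℝ := by
        unfold tang
        rw [inner_sub_left, inner_smul_left, hYν]
        simp
      rw [h5]
      ring
    simp_rw [e1, e2, e3] at h1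
    refine h1.trans ?_
    rw [hν, mul_one]
    have h8 : CA * (1 / c1 * (N + N)) * η = (CA * (2 / c1)) * N * η := by ring
    rw [h8]
    have h9 : CA * (2 / c1) ≤ K / c1 + CA * (2 / c1) + (B + CP * CA) / cA := by
      have h2 : 0 ≤ (B + CP * CA) / cA := by positivity
      linarith
    gcongr
  · -- the size of the jump
    intro x hxc hxR
    set AJ := AA L ν (JJ n0 ν (c • ν) 1 u x) with hAJ
    set h := AJ - Λ (P AJ) with hh
    have hho : ∀ z, ⟪Λ z, h⟫_ℝ = 0 := fun z => hPo AJ z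
    obtain ⟨hJc, hJ0⟩ := JJ_poly (by omega) n0 ν (c • ν) hu
    obtain ⟨hpc, hp0⟩ := clm_poly ((innerSL ℝ h) ∘L AA L ν) hJc hJ0
    have htest : ∀ (φ : Sp d → ℝ) (N : ℝ), TFn (J + 1) N φ → Cyl ν (R0 / 2) φ →
        |plInt ν c (fun y => ((innerSL ℝ h) ∘L AA L ν) (JJ n0 ν (c • ν) 1 u y) * φ y)| ≤
          (CA * ‖h‖ * η) * N := by
      intro φ N hφ hφC
      set Φ : Sp d → E := fun y => φ y • h with hΦ
      have hφd := differentiable_of_TFn hφ
      have hΦN : TFn J (N * ‖h‖) Φ := (((hφ.cb).le (Nat.le_succ J)).smul_vec h).tfn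
      have hΦC : Cyl ν (R0 / 2) Φ := by
        refine ⟨fun y => ?_, fun y hy => hφC.supp y fun h1 => hy ?_⟩
        · simp only [hΦ]; rw [hφC.const y]
        · simp only [hΦ]; rw [h1, zero_smul]
      have hΦd : Differentiable ℝ Φ := hφd.smul_const h
      have h1 := hSA Φ _ hΦN hΦC
      have e1 : ∀ y, ⟪e, Φ y⟫_ℝ = 0 := by
        intro y
        simp only [hΦ]
        have h2 := hho ν
        rw [hΛ, Lam_nu L hν] at h2
        rw [inner_smul_right, h2, mul_zero]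
      have e2 : ∀ y, dvE L Φ ve y = 0 := by
        intro y
        rw [dvE_cyl L hν hΦd hΦC.const e ve y]
        refine Finset.sum_eq_zero fun j _ => ?_
        have h2 : fderiv ℝ Φ y (bs j) = fderiv ℝ φ y (bs j) • h := by
          have h3 : HasFDerivAt Φ ((fderiv ℝ φ y).smulRight h) y :=
            (hφd y).hasFDerivAt.smul_const h
          rw [h3.fderiv]
          rfl
        rw [h2, inner_smul_right, ← hΛ, hho, mul_zero]
      have e3 : ∀ y, ⟪L (rk1 ν (JJ n0 ν (c • ν) 1 u y)), Φ y⟫_ℝ =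
          ((innerSL ℝ h) ∘L AA L ν) (JJ n0 ν (c • ν) 1 u y) * φ y := by
        intro y
        simp only [hΦ]
        rw [inner_smul_right, real_inner_comm, mul_comm]
        rfl
      simp_rw [e1, e2, e3] at h1
      simp only [mul_zero, sub_zero, integral_zero, zero_sub, abs_neg] at h1
      refine h1.trans (le_of_eq ?_)
      ring
    have h1 := hpoly ν hν c _ hpc hp0 _ htest x hxc hxR
    have h2 : ((innerSL ℝ h) ∘L AA L ν) (JJ n0 ν (c • ν) 1 u x) = ‖h‖ ^ 2 := by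
      have h3 : ((innerSL ℝ h) ∘L AA L ν) (JJ n0 ν (c • ν) 1 u x) = ⟪h, AJ⟫_ℝ := rfl
      have h4 : AJ = h + Λ (P AJ) := by rw [hh]; abel
      rw [h3]
      conv_lhs => rw [h4]
      rw [inner_add_right, real_inner_comm (Λ (P AJ)) h, hho, add_zero,
        real_inner_self_eq_norm_sq]
    rw [h2, abs_of_nonneg (by positivity)] at h1
    have h5 : ‖h‖ ≤ CP * CA * η := by
      rcases eq_or_lt_of_le (norm_nonneg h) with h0 | h0
      · rw [← h0]; positivity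
      · have : ‖h‖ * ‖h‖ ≤ (CP * CA * η) * ‖h‖ := by nlinarith
        exact le_of_mul_le_mul_right this h0
    have h6 : ‖Λ (P AJ)‖ ≤ B * ‖P AJ‖ :=
      Lam_le L hν e ve (hs1.trans (by norm_num)) hve _
    have h7 : ‖P AJ‖ ≤ |((innerSL ℝ ν) ∘L A) (JJ n0 ν (c • ν) 1 u x)| +
        ‖((tangL ν) ∘L A) (JJ n0 ν (c • ν) 1 u x)‖ := by
      have h8 := norm_le_tang hν (P AJ)
      have h9 : ((tangL ν) ∘L A) (JJ n0 ν (c • ν) 1 u x) = tang ν (P AJ) := tangL_apply _ _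
      have h10 : ((innerSL ℝ ν) ∘L A) (JJ n0 ν (c • ν) 1 u x) = ⟪ν, P AJ⟫_ℝ := rfl
      rw [h9, h10]
      linarith
    have h11 : ‖AJ‖ ≤ ‖h‖ + ‖Λ (P AJ)‖ := by
      calc ‖AJ‖ = ‖h + Λ (P AJ)‖ := by congr 1; rw [hh]; abel
        _ ≤ _ := norm_add_le _ _
    have h12 := hlow ν (JJ n0 ν (c • ν) 1 u x)
    rw [hν, one_mul, ← hAJ] at h12
    set a0 := |((innerSL ℝ ν) ∘L A) (JJ n0 ν (c • ν) 1 u x)| with ha0
    set a1 := ‖((tangL ν) ∘L A) (JJ n0 ν (c • ν) 1 u x)‖ with ha1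
    have ha00 : 0 ≤ a0 := abs_nonneg _
    have ha10 : 0 ≤ a1 := norm_nonneg _
    have h13 : cA * ‖JJ n0 ν (c • ν) 1 u x‖ ≤ (B + CP * CA) * (a0 + a1 + η) := by
      have h14 : B * ‖P AJ‖ ≤ B * (a0 + a1) := by gcongr
      have h15 : 0 ≤ B * η := by positivity
      have h16 : 0 ≤ CP * CA * (a0 + a1) := by positivity
      nlinarith
    have h17 : ‖JJ n0 ν (c • ν) 1 u x‖ ≤ (B + CP * CA) / cA * (a0 + a1 + η) := by
      rw [div_mul_eq_mul_div, le_div_iff₀ hcA]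
      linarith
    refine h17.trans ?_
    have h18 : (B + CP * CA) / cA ≤ K / c1 + CA * (2 / c1) + (B + CP * CA) / cA := by
      have h19 : 0 ≤ CA * (2 / c1) := by positivity
      linarith
    gcongr

end TG
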