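import Pool.Agent.TG.SHBp
import Pool.Agent.TG.PE

/-!
# Module SHB, part 2: algebra of the symbol, mixed terms (helper74)
-/

open MeasureTheory Metric Set TrI
open scoped InnerProductSpace ContDiff

namespace TG

namespace SHB

open TC

noncomputable section

variable {d : ℕ}

section Alg

variable {V E : Type} [NormedAddCommGroup V] [InnerProductSpace ℝ V] [FiniteDimensional ℝ V]
  [NormedAddCommGroup E] [InnerProductSpace ℝ E] [FiniteDimensional ℝ E]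

/-- the symbol as a bilinear map -/
def AA (L : (Sp d →L[ℝ] V) →L[ℝ] E) : Sp d →L[ℝ] V →L[ℝ] E :=
  (ContinuousLinearMap.compL ℝ V (Sp d →L[ℝ] V) E L) ∘L
    ((ContinuousLinearMap.smulRightL ℝ (Sp d) V) ∘L (innerSL ℝ : Sp d →L[ℝ] Sp d →L[ℝ] ℝ))

lemma AA_apply (L : (Sp d →L[ℝ] V) →L[ℝ] E) (ξ : Sp d) (v : V) : AA L ξ v = L (rk1 ξ v) := rfl

lemma norm_rk1 (ξ : Sp d) (v : V) : ‖rk1 ξ v‖ = ‖ξ‖ * ‖v‖ := by
  unfold rk1
  rw [ContinuousLinearMap.norm_smulRight_apply, innerSL_apply_norm]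

lemma AA_le (L : (Sp d →L[ℝ] V) →L[ℝ] E) (ξ : Sp d) (v : V) :
    ‖AA L ξ v‖ ≤ ‖L‖ * (‖ξ‖ * ‖v‖) := by
  rw [AA_apply, ← norm_rk1]
  exact L.le_opNorm _

lemma norm_AA_le (L : (Sp d →L[ℝ] V) →L[ℝ] E) {ξ : Sp d} (hξ : ‖ξ‖ = 1) :
    ‖AA L ξ‖ ≤ ‖L‖ :=
  ContinuousLinearMap.opNorm_le_bound _ (ContinuousLinearMap.opNorm_nonneg L) fun v => by
    have := AA_le L ξ v
    rwa [hξ, one_mul] at this

/-- lower bound of the symbol -/
lemma lower (L : (Sp d →L[ℝ] V) →L[ℝ] E) (hL : CEll L) :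
    ∃ c : ℝ, 0 < c ∧ ∀ (ξ : Sp d) (v : V), c * (‖ξ‖ * ‖v‖) ≤ ‖AA L ξ v‖ := by
  have hproper : ProperSpace V := FiniteDimensional.proper ℝ V
  set K : Set (Sp d × V) := sphere 0 1 ×ˢ sphere 0 1 with hK
  have hKc : IsCompact K := (isCompact_sphere _ _).prod (isCompact_sphere _ _)
  have hf : Continuous (fun p : Sp d × V => ‖AA L p.1 p.2‖) := by fun_prop
  have hz : ∀ (ξ : Sp d) (v : V), ξ ≠ 0 → AA L ξ v = 0 → v = 0 := by
    intro ξ v hξ h
    refine (hL ξ 0 (Or.inl hξ) v 0 ?_ ?_).1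
    · rw [← AA_apply, ← AA_apply, h]; simp
    · rw [← AA_apply, ← AA_apply]; simp
  have hom : ∀ c : ℝ, 0 < c → (∀ p ∈ K, c ≤ ‖AA L p.1 p.2‖) →
      ∀ (ξ : Sp d) (v : V), c * (‖ξ‖ * ‖v‖) ≤ ‖AA L ξ v‖ := by
    intro c hc h ξ v
    rcases eq_or_ne ξ 0 with rfl | hξ
    · simp
    rcases eq_or_ne v 0 with rfl | hv
    · simp
    have hξ' := norm_pos_iff.2 hξ
    have hv' := norm_pos_iff.2 hv
    have h1 := h (‖ξ‖⁻¹ • ξ, ‖v‖⁻¹ • v) ⟨by
      rw [mem_sphere_zero_iff_norm, norm_smul, norm_inv, norm_norm, inv_mul_cancel₀ hξ'.ne'], by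
      rw [mem_sphere_zero_iff_norm, norm_smul, norm_inv, norm_norm, inv_mul_cancel₀ hv'.ne']⟩
    simp only [map_smul, smul_apply, norm_smul, norm_inv, norm_norm] at h1
    rw [← div_eq_inv_mul, ← div_eq_inv_mul, le_div_iff₀ (by positivity), le_div_iff₀ (by positivity)] at h1
    calc _ = c * ‖v‖ * ‖ξ‖ := by ring
      _ ≤ _ := by nlinarith
  rcases K.eq_empty_or_nonempty with hKe | hKn
  · refine ⟨1, one_pos, hom 1 one_pos ?_⟩
    rw [hKe]
    simp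
  · obtain ⟨p, hp, hmin⟩ := hKc.exists_isMinOn hKn hf.continuousOn
    have hp1 : ‖p.1‖ = 1 := by simpa using hp.1
    have hp2 : ‖p.2‖ = 1 := by simpa using hp.2
    have hpos : 0 < ‖AA L p.1 p.2‖ := by
      refine norm_pos_iff.2 fun h => ?_
      have h1 := hz p.1 p.2 (by intro h0; rw [h0] at hp1; simp at hp1) h
      rw [h1] at hp2
      simp at hp2
    exact ⟨_, hpos, hom _ hpos fun q hq => hmin hq⟩

/-- the best vector ve -/
lemma exists_ve (L : (Sp d →L[ℝ] V) →L[ℝ] E) {c : ℝ} (hc : 0 < c)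
    (hL : ∀ (ξ : Sp d) (v : V), c * (‖ξ‖ * ‖v‖) ≤ ‖AA L ξ v‖) {ν : Sp d} (hν : ‖ν‖ = 1) {e : E}
    (he : ‖e‖ = 1) : ∃ ve : V, ‖ve‖ ≤ 1 / c ∧ ∀ w : V, ⟪e - AA L ν ve, AA L ν w⟫_ℝ = 0 := by
  set K : Submodule ℝ E := LinearMap.range (AA L ν : V →ₗ[ℝ] E) with hK
  obtain ⟨ve, hve⟩ : K.starProjection e ∈ K := Submodule.starProjection_apply_mem K e
  have hve' : AA L ν ve = K.starProjection e := hve
  refine ⟨ve, ?_, fun w => ?_⟩
  · have h1 := hL ν ve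
    rw [hν, one_mul, hve'] at h1
    have h2 : ‖K.starProjection e‖ ≤ 1 := by
      have := K.starProjection.le_of_opNorm_le (K.starProjection_norm_le) e
      rwa [he, one_mul] at this
    rw [le_div_iff₀ hc]
    linarith
  · rw [hve']
    exact Submodule.starProjection_inner_eq_zero e _ ⟨w, rfl⟩

/-- the map Λ -/
def Lam (L : (Sp d →L[ℝ] V) →L[ℝ] E) (ν : Sp d) (e : E) (ve : V) : Sp d →L[ℝ] E :=
  (AA L).flip ve + (innerSL ℝ ν).smulRight (e - AA L ν ve)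

lemma Lam_apply (L : (Sp d →L[ℝ] V) →L[ℝ] E) (ν : Sp d) (e : E) (ve : V) (x : Sp d) :
    Lam L ν e ve x = AA L x ve + ⟪ν, x⟫_ℝ • (e - AA L ν ve) := by
  simp [Lam]

lemma Lam_nu (L : (Sp d →L[ℝ] V) →L[ℝ] E) {ν : Sp d} (hν : ‖ν‖ = 1) (e : E) (ve : V) :
    Lam L ν e ve ν = e := by
  rw [Lam_apply, real_inner_self_eq_norm_sq, hν]
  simp

lemma Lam_tang (L : (Sp d →L[ℝ] V) →L[ℝ] E) {ν : Sp d} (e : E) (ve : V) {x : Sp d}
    (hx : ⟪ν, x⟫_ℝ = 0) : Lam L ν e ve x = AA L x ve := by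
  rw [Lam_apply, hx, zero_smul, add_zero]

lemma Lam_le (L : (Sp d →L[ℝ] V) →L[ℝ] E) {ν : Sp d} (hν : ‖ν‖ = 1) (e : E) (ve : V) {B : ℝ}
    (hB : ‖e - AA L ν ve‖ ≤ 1) (hv : ‖ve‖ ≤ B) (x : Sp d) :
    ‖Lam L ν e ve x‖ ≤ (‖L‖ * B + 1) * ‖x‖ := by
  rw [Lam_apply]
  refine (norm_add_le _ _).trans ?_
  have h1 := AA_le L x ve
  have h2 : ‖⟪ν, x⟫_ℝ • (e - AA L ν ve)‖ ≤ ‖x‖ * 1 := by
    rw [norm_smul]
    refine mul_le_mul ?_ hB (norm_nonneg _) (norm_nonneg _)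
    have := norm_inner_le_norm (𝕜 := ℝ) ν x
    rwa [hν, one_mul] at this
  have h3 : ‖L‖ * (‖x‖ * ‖ve‖) ≤ ‖L‖ * (‖x‖ * B) := by gcongr
  nlinarith

lemma Lam_ge (L : (Sp d →L[ℝ] V) →L[ℝ] E) {c : ℝ} (hc : 0 < c)
    (hL : ∀ (ξ : Sp d) (v : V), c * (‖ξ‖ * ‖v‖) ≤ ‖AA L ξ v‖) {ν : Sp d} (hν : ‖ν‖ = 1) {e : E}
    (he : ‖e‖ = 1) {ve : V} (h1 : ‖e - AA L ν ve‖ ≤ 1 / 2)
    (h2 : ‖e - AA L ν ve‖ ≤ c / (4 * (‖L‖ + 1))) (x : Sp d) :
    c / (4 * (‖L‖ + 1)) * ‖x‖ ≤ ‖Lam L ν e ve x‖ := by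
  set K := ‖L‖ + 1 with hK
  have hK0 : 0 < K := by positivity
  have h3 : 1 / 2 ≤ ‖AA L ν ve‖ := by
    have : ‖e‖ ≤ ‖e - AA L ν ve‖ + ‖AA L ν ve‖ := by
      calc ‖e‖ = ‖(e - AA L ν ve) + AA L ν ve‖ := by congr 1; abel
        _ ≤ _ := norm_add_le _ _
    linarith
  have h4 : 1 / (2 * K) ≤ ‖ve‖ := by
    have h5 := AA_le L ν ve
    rw [hν, one_mul] at h5
    have h6 : ‖L‖ * ‖ve‖ ≤ K * ‖ve‖ := by
      rw [hK]; nlinarith [norm_nonneg ve]
    rw [div_le_iff₀ (by positivity)]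
    nlinarith
  have h7 : c * (‖x‖ * (1 / (2 * K))) ≤ ‖AA L x ve‖ := by
    refine le_trans ?_ (hL x ve)
    gcongr
  have h8 : ‖⟪ν, x⟫_ℝ • (e - AA L ν ve)‖ ≤ ‖x‖ * (c / (4 * K)) := by
    rw [norm_smul]
    refine mul_le_mul ?_ h2 (norm_nonneg _) (norm_nonneg _)
    have := norm_inner_le_norm (𝕜 := ℝ) ν x
    rwa [hν, one_mul] at this
  rw [Lam_apply]
  have h9 : ‖AA L x ve‖ ≤ ‖AA L x ve + ⟪ν, x⟫_ℝ • (e - AA L ν ve)‖ +
      ‖⟪ν, x⟫_ℝ • (e - AA L ν ve)‖ := by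
    calc ‖AA L x ve‖ = ‖(AA L x ve + ⟪ν, x⟫_ℝ • (e - AA L ν ve)) -
        ⟪ν, x⟫_ℝ • (e - AA L ν ve)‖ := by congr 1; abel
      _ ≤ _ := norm_sub_le _ _
  have h10 : c * (‖x‖ * (1 / (2 * K))) = 2 * (c / (4 * K) * ‖x‖) := by field_simp; ring
  nlinarith

/-- left inverse with the orthogonality property -/
lemma exists_left (Λ : Sp d →L[ℝ] E) {c : ℝ} (hc : 0 < c) (h : ∀ x, c * ‖x‖ ≤ ‖Λ x‖) :
    ∃ P : E →L[ℝ] Sp d, ‖P‖ ≤ 1 / c ∧ (∀ x, P (Λ x) = x) ∧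
      ∀ y x, ⟪Λ x, y - Λ (P y)⟫_ℝ = 0 := by
  have hinj : Function.Injective (Λ : Sp d →ₗ[ℝ] E) := by
    rw [injective_iff_map_eq_zero]
    intro x hx
    have := h x
    have h0 : Λ x = 0 := hx
    rw [h0, norm_zero] at this
    have h2 : ‖x‖ ≤ 0 := by nlinarith [norm_nonneg x]
    exact norm_le_zero_iff.1 h2
  set K : Submodule ℝ E := LinearMap.range (Λ : Sp d →ₗ[ℝ] E) with hK
  set eq := LinearEquiv.ofInjective (Λ : Sp d →ₗ[ℝ] E) hinj with heq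
  have heq1 : ∀ x, ((eq x : K) : E) = Λ x := fun x => rfl
  set P0 : E →ₗ[ℝ] Sp d := (eq.symm : K →ₗ[ℝ] Sp d) ∘ₗ (K.orthogonalProjectionOnto : E →ₗ[ℝ] K)
    with hP0
  have hP : ∀ y, Λ (P0 y) = K.starProjection y := by
    intro y
    have : ((eq (P0 y) : K) : E) = K.starProjection y := by
      change ((eq (eq.symm (K.orthogonalProjectionOnto y)) : K) : E) = _
      rw [eq.apply_symm_apply]
      rfl
    rw [← this, heq1]
  have hPn : ∀ y, ‖P0 y‖ ≤ 1 / c * ‖y‖ := by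
    intro y
    have h1 := h (P0 y)
    rw [hP y] at h1
    have h2 : ‖K.starProjection y‖ ≤ ‖y‖ := by
      have := K.starProjection.le_of_opNorm_le (K.starProjection_norm_le) y
      rwa [one_mul] at this
    rw [div_mul_eq_mul_div, one_mul, le_div_iff₀ hc]
    linarith
  refine ⟨P0.mkContinuous (1 / c) hPn, P0.mkContinuous_norm_le (by positivity) hPn,
    fun x => ?_, fun y x => ?_⟩
  · rw [LinearMap.mkContinuous_apply]
    have h1 : Λ (P0 (Λ x)) = Λ x := by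
      rw [hP]
      exact Submodule.starProjection_eq_self_iff.2 ⟨x, rfl⟩
    exact hinj h1
  · rw [LinearMap.mkContinuous_apply, hP]
    rw [real_inner_comm]
    exact Submodule.starProjection_inner_eq_zero y _ ⟨x, rfl⟩

end Alg

/-! ## unit scale -/

section Unit

variable {E : Type} [NormedAddCommGroup E] [InnerProductSpace ℝ E]

lemma lev_one (n : ℕ) : lev ((1 / 2 : ℝ) ^ n) n = 1 := by
  unfold lev
  rw [← mul_pow]
  norm_num

lemma bb_unit (ρ : ℝ) (f : Sp d → E) (n : ℕ) (e : E) (ν : Sp d) (c : ℝ) :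
    bb ρ ((1 / 2) ^ n) f n 0 e ν c = ∫ y, ⟪f y, e⟫_ℝ * (zR ρ y * ht ν c y ^ 2) := by
  unfold bb
  rw [lev_one]
  simp

lemma ma_unit (b : Sp d → ℝ) (ε R0 : ℝ) (f : Sp d → E) (n : ℕ) :
    ma b ε R0 ((1 / 2) ^ n) f n 0 = ∫ y in ball (0 : Sp d) R0, ‖fl b ε ((1 / 2) ^ n) f (n - 1) y‖ := by
  unfold ma
  rw [lev_one]
  simp

lemma ma_nonneg (b : Sp d → ℝ) (ε R0 : ℝ) (f : Sp d → E) (n : ℕ) :
    0 ≤ ma b ε R0 ((1 / 2) ^ n) f n 0 := by
  rw [ma_unit]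
  exact setIntegral_nonneg measurableSet_ball fun y _ => norm_nonneg _

end Unit

/-- nonnegativity of the defect -/
lemma DD_nonneg {d : ℕ} (hd : 1 ≤ d) {M c ε : ℝ} (hε : 0 < ε) (hε1 : ε ≤ 1) {b : Sp d → ℝ}
    (hb : BaseKer 2 M c b) {E : Type} [NormedAddCommGroup E] [InnerProductSpace ℝ E]
    [FiniteDimensional ℝ E] {f : Sp d → E} (hf : Continuous f) (hfs : HasCompactSupport f)
    {R : ℝ} (hR : 3 ≤ R) (n : ℕ) {e : E} (he : ‖e‖ = 1) (x : Sp d) :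
    0 ≤ DD b ε R ((1 / 2) ^ n) f n x e := by
  obtain ⟨C, hC, h⟩ := stmtZ d hd M c ε hε hε1 b hb
  have := h E f hf hfs R hR n e he x (fun _ => 0) contDiff_const (fun _ => le_rfl)
    (fun _ => zero_le_one) (fun y => by
      rw [iteratedFDeriv_const_of_ne (by norm_num)]; simp) (fun _ _ => rfl)
  simp only [mul_zero, integral_zero] at this
  nlinarith

/-! ## mixed terms -/

/-- the mixed term -/
theorem mixed (d : ℕ) (hd : 1 ≤ d) (M c0 ε : ℝ) (hε : 0 < ε) (hε1 : ε ≤ 1) (b : Sp d → ℝ)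
    (hb : BaseKer 2 M c0 b) (R0 : ℝ) (hR0 : 100 ≤ R0) : ∃ C : ℝ, 0 < C ∧
    ∀ (E : Type) [NormedAddCommGroup E] [InnerProductSpace ℝ E] [FiniteDimensional ℝ E],
    ∀ f : Sp d → E, Continuous f → HasCompactSupport f → ∀ (R : ℝ), R0 + 10 ≤ R →
    ∀ (n : ℕ) (e : E), ‖e‖ = 1 → ∀ (ν : Sp d) (c : ℝ), ‖ν‖ = 1 → |c| ≤ R0 / 3 →
    ∀ (g : Sp d → ℝ) (N : ℝ), CB 2 N g → (∀ y, g y ≠ 0 → ‖tang ν y‖ ≤ R0 / 2) →
      |∫ y, ⟪f y, e⟫_ℝ * (cu1 4 (ht ν c y) * ht ν c y * g y)| ≤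
        C * N * Real.sqrt ((ma b ε R0 ((1 / 2) ^ n) f n 0 + DD b ε R ((1 / 2) ^ n) f n 0 e) *
          bD b ε R0 R ((1 / 2) ^ n) f n 0 e ν c) := by
  obtain ⟨CZ, hCZ, hZ⟩ := stmtZs d hd M c0 ε hε hε1 b hb
  obtain ⟨CM, hCM, hM⟩ := stmtMAs d hd M c0 ε hε hε1 b hb
  obtain ⟨N1, hN1, h1⟩ := zR_cb d 2 (R := R0 - 2) (by linarith)
  obtain ⟨N2, hN2, h2⟩ := ht2z_cb d 2 (R := R0) (by linarith) (R0 / 3)
  obtain ⟨N3, hN3, h3⟩ : ∃ N : ℝ, 0 < N ∧ CB 2 N (fun z : ℝ => cu1 4 z * z) := by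
    obtain ⟨N, _, hc⟩ := cu1_cb 2
    refine CB.of_compactSupport (((hc 4 (by norm_num)).smooth).mul contDiff_id) ?_
    refine HasCompactSupport.intro (isCompact_closedBall (0 : ℝ) 5) fun x hx => ?_
    rw [mem_closedBall, dist_zero_right, not_le, Real.norm_eq_abs] at hx
    rw [cu1_zero (by linarith), zero_mul]
  -- constants
  set C1 : ℝ := CM * N1 + CZ * (N1 + N2 + 8 * N3) with hC1
  have hC1p : 0 < C1 := by positivity
  set C2 : ℝ := 1 + CZ * (N1 + N2 + 8 * N3) with hC2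
  have hC2p : 0 < C2 := by positivity
  refine ⟨Real.sqrt (C1 * C2), Real.sqrt_pos.2 (by positivity), ?_⟩
  intro E _ _ _ f hf hfs R hR n e he ν c hν hc g N hN hg
  set X := ∫ y, ⟪f y, e⟫_ℝ * (cu1 4 (ht ν c y) * ht ν c y * g y) with hX
  set mm := ma b ε R0 ((1 / 2) ^ n) f n 0 with hmm
  set D := DD b ε R ((1 / 2) ^ n) f n 0 e with hD
  set BD := bD b ε R0 R ((1 / 2) ^ n) f n 0 e ν c with hBD
  have hD0 : 0 ≤ D := DD_nonneg hd hε hε1 hb hf hfs (by linarith) n he 0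
  have hm0 : 0 ≤ mm := ma_nonneg b ε R0 f n
  have hBD' : BD = max 0 (bb R0 ((1 / 2) ^ n) f n 0 e ν c) + D := rfl
  have hbb : bb R0 ((1 / 2) ^ n) f n 0 e ν c ≤ BD - D := by
    rw [hBD']; linarith [le_max_right 0 (bb R0 ((1 / 2) ^ n) f n 0 e ν c)]
  have hBD0 : D ≤ BD := by
    rw [hBD']; linarith [le_max_left 0 (bb R0 ((1 / 2) ^ n) f n 0 e ν c)]
  have hBDn : 0 ≤ BD := hD0.trans hBD0
  have hN0 := hN.nonneg
  rcases eq_or_lt_of_le hN0 with hNz | hNp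
  · have : ∀ y, g y = 0 := fun y => by
      have := hN.norm_le y
      rw [← hNz] at this
      exact norm_le_zero_iff.1 this
    have hX0 : X = 0 := by rw [hX]; simp [this]
    rw [hX0, ← hNz]
    simp
  -- the test functions
  have hcuht : CB 2 N3 (fun y : Sp d => cu1 4 (ht ν c y) * ht ν c y) :=
    h3.comp_ht (g := fun z : ℝ => cu1 4 z * z) hν.le c
  have hmix : CB 2 (2 ^ 2 * N3 * N) (fun y => cu1 4 (ht ν c y) * ht ν c y * g y) := hcuht.mul hN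
  have hz2 := h2 ν c hν.le hc
  have i1 : Integrable (fun y => ⟪f y, e⟫_ℝ * zR (R0 - 2) y) := int_test hf hfs e h1.smooth.continuous
  have i2 : Integrable (fun y => ⟪f y, e⟫_ℝ * (zR R0 y * ht ν c y ^ 2)) :=
    int_test hf hfs e hz2.smooth.continuous
  have i3 : Integrable (fun y => ⟪f y, e⟫_ℝ * (cu1 4 (ht ν c y) * ht ν c y * g y)) :=
    int_test hf hfs e hmix.smooth.continuous
  have hmass : (∫ y, ⟪f y, e⟫_ℝ * zR (R0 - 2) y) ≤ CM * N1 * (mm + D) := by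
    have := hM E f hf hfs R (by linarith) n e he 0 (ball 0 R0) measurableSet_ball (zR (R0 - 2)) N1
      h1 (fun y hy => zR_zero (by rw [sub_zero] at hy; linarith)) (fun y z hy hz => by
        have h4 : ‖y‖ < R0 - 2 + 1 := by
          by_contra hcon
          exact hy (zR_zero (not_lt.1 hcon))
        rw [mem_ball_zero_iff]
        calc ‖z‖ = ‖(z - y) + y‖ := by congr 1; abel
          _ ≤ ‖z - y‖ + ‖y‖ := norm_add_le _ _
          _ < R0 := by linarith)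
    rw [hmm, ma_unit]
    exact (le_abs_self _).trans this
  -- pointwise inequality
  have key : ∀ s : ℝ, 0 < s → ∀ σ : ℝ, (σ = 1 ∨ σ = -1) →
      -(CZ * (s ^ 2 * N1 + N2 + s * (8 * N3)) * D) ≤
        s ^ 2 * (∫ y, ⟪f y, e⟫_ℝ * zR (R0 - 2) y) +
          (∫ y, ⟪f y, e⟫_ℝ * (zR R0 y * ht ν c y ^ 2)) + σ * (2 * s / N) * X := by
    intro s hs σ hσ
    set H : Sp d → ℝ := fun y => s ^ 2 * zR (R0 - 2) y + zR R0 y * ht ν c y ^ 2 +
      σ * (2 * s / N) * (cu1 4 (ht ν c y) * ht ν c y * g y) with hH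
    have hσa : |σ * (2 * s / N)| = 2 * s / N := by
      rw [abs_mul, abs_of_pos (by positivity : 0 < 2 * s / N)]
      rcases hσ with h | h <;> rw [h] <;> simp
    have hHN : CB 2 (s ^ 2 * N1 + N2 + s * (8 * N3)) H := by
      have := ((h1.const_mul (s ^ 2)).add hz2).add (hmix.const_mul (σ * (2 * s / N)))
      refine CB.mono (N := |s ^ 2| * N1 + N2 + |σ * (2 * s / N)| * (2 ^ 2 * N3 * N)) this ?_
      rw [hσa, abs_of_nonneg (by positivity : (0 : ℝ) ≤ s ^ 2)]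
      have : 2 * s / N * (2 ^ 2 * N3 * N) = s * (8 * N3) := by field_simp; ring
      rw [this]
    have hH0 : ∀ y, 0 ≤ H y := by
      intro y
      have hz0 := zR_nonneg (R0 - 2) y
      have hz0' := zR_nonneg R0 y
      by_cases hgy : g y = 0 ∨ cu1 4 (ht ν c y) = 0
      · have : cu1 4 (ht ν c y) * ht ν c y * g y = 0 := by
          rcases hgy with h | h <;> rw [h] <;> ring
        simp only [hH]
        rw [this, mul_zero, add_zero]
        positivity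
      · push Not at hgy
        have h4 : |ht ν c y| < 5 := by
          by_contra hcon
          exact hgy.2 (cu1_zero (by linarith [not_lt.1 hcon]))
        have h5 := hg y hgy.1
        have h6 : ‖y‖ ≤ R0 - 2 := by
          have h7 := norm_le_tang hν y
          have h8 : |⟪ν, y⟫_ℝ| ≤ |ht ν c y| + |c| := by
            have : ⟪ν, y⟫_ℝ = ht ν c y + c := by unfold ht; ring
            rw [this]
            exact abs_add_le _ _
          linarith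
        have e1 : zR (R0 - 2) y = 1 := zR_one h6
        have e2 : zR R0 y = 1 := zR_one (by linarith)
        have h9 : |g y| ≤ N := hN.abs_le y
        have h10 : |cu1 4 (ht ν c y)| ≤ 1 := by
          rw [abs_of_nonneg (cu1_nonneg _ _)]; exact cu1_le_one _ _
        have h11 : |σ * (2 * s / N) * (cu1 4 (ht ν c y) * ht ν c y * g y)| ≤
            2 * s * |ht ν c y| := by
          rw [abs_mul, hσa, abs_mul, abs_mul]
          calc 2 * s / N * (|cu1 4 (ht ν c y)| * |ht ν c y| * |g y|)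
              ≤ 2 * s / N * (1 * |ht ν c y| * N) := by gcongr
            _ = 2 * s * |ht ν c y| := by field_simp
        have h12 := neg_abs_le (σ * (2 * s / N) * (cu1 4 (ht ν c y) * ht ν c y * g y))
        simp only [hH]
        rw [e1, e2]
        have h13 : ht ν c y ^ 2 = |ht ν c y| ^ 2 := (sq_abs _).symm
        rw [h13]
        nlinarith [sq_nonneg (s - |ht ν c y|)]
    have hHs : ∀ y, R - 2 ≤ ‖y - 0‖ → H y = 0 := by
      intro y hy
      rw [sub_zero] at hy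
      have e1 : zR (R0 - 2) y = 0 := zR_zero (by linarith)
      have e2 : zR R0 y = 0 := zR_zero (by linarith)
      have e3 : cu1 4 (ht ν c y) * ht ν c y * g y = 0 := by
        by_contra hcon
        have hgy : g y ≠ 0 := right_ne_zero_of_mul hcon
        have hcu : cu1 4 (ht ν c y) ≠ 0 := left_ne_zero_of_mul (left_ne_zero_of_mul hcon)
        have h4 : |ht ν c y| < 5 := by
          by_contra hcon
          exact hcu (cu1_zero (by linarith [not_lt.1 hcon]))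
        have h5 := hg y hgy
        have h7 := norm_le_tang hν y
        have h8 : |⟪ν, y⟫_ℝ| ≤ |ht ν c y| + |c| := by
          have : ⟪ν, y⟫_ℝ = ht ν c y + c := by unfold ht; ring
          rw [this]
          exact abs_add_le _ _
        linarith
      simp only [hH]
      rw [e1, e2, e3]
      ring
    have h14 := hZ E f hf hfs R (by linarith) n e he 0 H _ hHN hH0 hHs
    have h15 : ∫ y, ⟪f y, e⟫_ℝ * H y = s ^ 2 * (∫ y, ⟪f y, e⟫_ℝ * zR (R0 - 2) y) +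
          (∫ y, ⟪f y, e⟫_ℝ * (zR R0 y * ht ν c y ^ 2)) + σ * (2 * s / N) * X := by
      have e4 : ∀ y, ⟪f y, e⟫_ℝ * H y = s ^ 2 * (⟪f y, e⟫_ℝ * zR (R0 - 2) y) +
          ⟪f y, e⟫_ℝ * (zR R0 y * ht ν c y ^ 2) +
          σ * (2 * s / N) * (⟪f y, e⟫_ℝ * (cu1 4 (ht ν c y) * ht ν c y * g y)) := by
        intro y
        simp only [hH]
        ring
      have j1 : Integrable (fun y => s ^ 2 * (⟪f y, e⟫_ℝ * zR (R0 - 2) y)) := i1.const_mul _
      have j2 : Integrable (fun y => s ^ 2 * (⟪f y, e⟫_ℝ * zR (R0 - 2) y) +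
          ⟪f y, e⟫_ℝ * (zR R0 y * ht ν c y ^ 2)) := j1.add i2
      have j3 : Integrable (fun y => σ * (2 * s / N) *
          (⟪f y, e⟫_ℝ * (cu1 4 (ht ν c y) * ht ν c y * g y))) := i3.const_mul _
      rw [integral_congr_ae (Filter.Eventually.of_forall e4), integral_add j2 j3,
        integral_add j1 i2, integral_const_mul, integral_const_mul]
    rw [h15] at h14
    exact h14
  -- the optimisation
  have hopt : |X| ≤ 2 * Real.sqrt ((N / 2 * (C1 * (mm + D))) * (N / 2 * (C2 * BD))) := by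
    refine PE.opt (by positivity) (by positivity) fun s hs => ?_
    have hp := key s hs 1 (Or.inl rfl)
    have hq := key s hs (-1) (Or.inr rfl)
    rw [← bb_unit R0 f n e ν c] at hp hq
    have hs2 : s ≤ 1 + s ^ 2 := by nlinarith [sq_nonneg (s - 1)]
    have hub : s ^ 2 * (∫ y, ⟪f y, e⟫_ℝ * zR (R0 - 2) y) +
        bb R0 ((1 / 2) ^ n) f n 0 e ν c + CZ * (s ^ 2 * N1 + N2 + s * (8 * N3)) * D ≤
        s ^ 2 * (C1 * (mm + D)) + C2 * BD := by
      have h16 : s ^ 2 * (∫ y, ⟪f y, e⟫_ℝ * zR (R0 - 2) y) ≤ s ^ 2 * (CM * N1 * (mm + D)) :=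
        mul_le_mul_of_nonneg_left hmass (by positivity)
      have h17 : CZ * (s ^ 2 * N1 + N2 + s * (8 * N3)) * D ≤
          (1 + s ^ 2) * (CZ * (N1 + N2 + 8 * N3)) * D := by
        refine mul_le_mul_of_nonneg_right ?_ hD0
        have h18 : s ^ 2 * N1 + N2 + s * (8 * N3) ≤ (1 + s ^ 2) * (N1 + N2 + 8 * N3) := by
          have h18a : s * (8 * N3) ≤ (1 + s ^ 2) * (8 * N3) := by gcongr
          have h18b : 0 ≤ s ^ 2 * N2 := by positivity
          nlinarith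
        calc CZ * (s ^ 2 * N1 + N2 + s * (8 * N3)) ≤
            CZ * ((1 + s ^ 2) * (N1 + N2 + 8 * N3)) := by gcongr
          _ = _ := by ring
      have h19 : (1 + s ^ 2) * (CZ * (N1 + N2 + 8 * N3)) * D ≤
          s ^ 2 * (CZ * (N1 + N2 + 8 * N3) * (mm + D)) + CZ * (N1 + N2 + 8 * N3) * BD := by
        have h20 : CZ * (N1 + N2 + 8 * N3) * D ≤ CZ * (N1 + N2 + 8 * N3) * BD := by gcongr
        have h21 : s ^ 2 * (CZ * (N1 + N2 + 8 * N3) * D) ≤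
            s ^ 2 * (CZ * (N1 + N2 + 8 * N3) * (mm + D)) := by
          gcongr
          linarith
        nlinarith
      rw [hC1, hC2]
      nlinarith
    have hfin : 2 * s / N * |X| ≤ s ^ 2 * (C1 * (mm + D)) + C2 * BD := by
      rcases abs_cases X with ⟨h, _⟩ | ⟨h, _⟩ <;> rw [h] <;> linarith
    have h22 : |X| = (2 * s / N * |X|) * (N / (2 * s)) := by field_simp
    rw [h22]
    calc (2 * s / N * |X|) * (N / (2 * s)) ≤
        (s ^ 2 * (C1 * (mm + D)) + C2 * BD) * (N / (2 * s)) := by gcongr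
      _ = s * (N / 2 * (C1 * (mm + D))) + N / 2 * (C2 * BD) / s := by
        field_simp
  refine hopt.trans (le_of_eq ?_)
  have e5 : N / 2 * (C1 * (mm + D)) * (N / 2 * (C2 * BD)) =
      (N / 2) ^ 2 * ((C1 * C2) * ((mm + D) * BD)) := by ring
  rw [e5, Real.sqrt_mul (by positivity), Real.sqrt_sq (by positivity),
    Real.sqrt_mul (by positivity)]
  ring

end

end SHB

end TG
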