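import Pool.Agent.TG.TFc
import Pool.Agent.TG.TQ
import Pool.Agent.TR.VK

/-!
# Module SHB, part 1: polynomials on a plane are bounded by their tests (helper74)
-/

open MeasureTheory Metric Set TrI
open scoped InnerProductSpace ContDiff

namespace TG

namespace SHB

open TC

noncomputable section

variable {d : ℕ}

/-- the orthogonal complement of the line spanned by ν -/
abbrev Pl (ν : Sp d) : Submodule ℝ (Sp d) := (Submodule.span ℝ {ν})ᗮ

lemma inner_pl (ν : Sp d) (y : Pl ν) : ⟪ν, (y : Sp d)⟫_ℝ = 0 :=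
  Submodule.mem_orthogonal_singleton_iff_inner_right.1 y.2

lemma tang_pl {ν : Sp d} (hν : ‖ν‖ = 1) (c : ℝ) (y : Pl ν) : tang ν (c • ν + (y : Sp d)) = y := by
  unfold tang
  rw [inner_add_right, inner_smul_right, real_inner_self_eq_norm_sq, hν, inner_pl]
  simp

lemma proj_pl {ν : Sp d} (hν : ‖ν‖ = 1) (y : Sp d) :
    ((Pl ν).orthogonalProjectionOnto y : Sp d) = tang ν y := by
  have hm : tang ν y ∈ Pl ν :=
    Submodule.mem_orthogonal_singleton_iff_inner_right.2 (tang_inner hν y)
  have := Submodule.eq_starProjection_of_mem_of_inner_eq_zero (K := Pl ν) (u := y)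
    (v := tang ν y) hm (fun w hw => by
      have h1 : y - tang ν y = ⟪ν, y⟫_ℝ • ν := by unfold tang; abel
      rw [h1, inner_smul_left]
      have h2 : ⟪ν, w⟫_ℝ = 0 := Submodule.mem_orthogonal_singleton_iff_inner_right.1 hw
      rw [h2, mul_zero])
  exact this

/-- value of a polynomial at a point of the plane by a test -/
lemma test_point {n : ℕ} {m : ℕ} {ψ : Sp n → ℝ} (hψ : VKer m ψ) {ν : Sp (n + 1)}
    (e : Pl ν ≃ₗᵢ[ℝ] Sp n) (c : ℝ) {p : Sp (n + 1) → ℝ} (hp : ContDiff ℝ ∞ p)
    (hp0 : ∀ x, iteratedFDeriv ℝ (m + 1) p x = 0) (a : Pl ν) :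
    ∫ y : Pl ν, p (c • ν + (y : Sp (n + 1))) * ψ (e y - e a) = p (c • ν + (a : Sp (n + 1))) := by
  have h1 : ∫ y : Pl ν, p (c • ν + (y : Sp (n + 1))) * ψ (e y - e a) =
      ∫ w : Sp n, p (c • ν + ((e.symm w : Pl ν) : Sp (n + 1))) * ψ (w - e a) := by
    rw [← e.measurePreserving.integral_comp e.toHomeomorph.measurableEmbedding]
    simp
  rw [h1, ← integral_add_right_eq_self (fun w : Sp n =>
    p (c • ν + ((e.symm w : Pl ν) : Sp (n + 1))) * ψ (w - e a)) (e a)]
  have hcs : HasCompactSupport ψ := HasCompactSupport.intro (isCompact_closedBall (0 : Sp n) 1)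
    fun x hx => by
      rw [mem_closedBall, dist_zero_right, not_le] at hx
      exact hψ.supp x hx.le
  set S : Sp n →L[ℝ] Sp (n + 1) := (Pl ν).subtypeL ∘L (e.symm.toContinuousLinearEquiv : Sp n →L[ℝ] Pl ν)
    with hS
  have hSa : ∀ w, S w = ((e.symm w : Pl ν) : Sp (n + 1)) := fun w => rfl
  set x0 : Sp (n + 1) := c • ν + (a : Sp (n + 1)) with hx0
  have h2 : ∀ w : Sp n, p (c • ν + ((e.symm (w + e a) : Pl ν) : Sp (n + 1))) * ψ (w + e a - e a) =
      ∑ k ∈ Finset.range (m + 1), (Nat.factorial k : ℝ)⁻¹ *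
        (ψ w * ((iteratedFDeriv ℝ k p x0).compContinuousLinearMap (fun _ => S)) (fun _ => w)) := by
    intro w
    have h3 := eq_taylor hp hp0 (x0 + S w) x0
    have h4 : c • ν + ((e.symm (w + e a) : Pl ν) : Sp (n + 1)) = x0 + S w := by
      rw [map_add, LinearIsometryEquiv.symm_apply_apply, hSa, hx0]
      push_cast
      abel
    rw [h4, ← h3, add_sub_cancel_right, Finset.sum_mul]
    refine Finset.sum_congr rfl fun k _ => ?_
    rw [add_sub_cancel_left, smul_eq_mul, ContinuousMultilinearMap.compContinuousLinearMap_apply]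
    ring
  simp_rw [h2]
  have hint : ∀ k, Integrable (fun w : Sp n => (Nat.factorial k : ℝ)⁻¹ *
        (ψ w * ((iteratedFDeriv ℝ k p x0).compContinuousLinearMap (fun _ => S)) (fun _ => w))) := by
    intro k
    refine Integrable.const_mul ?_ _
    refine Continuous.integrable_of_hasCompactSupport ?_ hcs.mul_right
    refine hψ.smooth.continuous.mul ?_
    exact (ContinuousMultilinearMap.cont _).comp (continuous_pi fun _ => continuous_id)
  rw [integral_finsetSum _ (fun k _ => hint k), Finset.sum_range_succ', Finset.sum_eq_zero]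
  · rw [zero_add, integral_const_mul]
    simp only [Nat.factorial_zero, Nat.cast_one, inv_one, one_mul]
    have h5 : ∀ w : Sp n, ψ w * ((iteratedFDeriv ℝ 0 p x0).compContinuousLinearMap (fun _ => S))
        (fun _ => w) = ψ w * p x0 := fun w => by
      rw [ContinuousMultilinearMap.compContinuousLinearMap_apply, iteratedFDeriv_zero_apply]
    simp_rw [h5]
    rw [integral_mul_const, hψ.int, one_mul]
  · intro k hk
    rw [Finset.mem_range] at hk
    rw [integral_const_mul, hψ.mom (k + 1) (by omega) (by omega), mul_zero]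

/-- extrapolation of polynomials of one variable -/
lemma extrap (m : ℕ) (h : ℝ) (hh : 0 < h) : ∃ C : ℝ, 0 < C ∧ ∀ (a : ℕ → ℝ) (B : ℝ),
    (∀ i ≤ m, |∑ k ∈ Finset.range (m + 1), a k * (i * h) ^ k| ≤ B) →
    |∑ k ∈ Finset.range (m + 1), a k| ≤ C * B := by
  classical
  set s : Finset ℕ := Finset.range (m + 1) with hs
  set v : ℕ → ℝ := fun i => i * h with hv
  have hinj : Set.InjOn v s := by
    intro i _ j _ hij
    have : (i : ℝ) * h = j * h := hij
    have h2 := mul_right_cancel₀ hh.ne' this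
    exact_mod_cast h2
  refine ⟨∑ i ∈ s, |(Lagrange.basis s v i).eval 1| + 1, by positivity, fun a B hB => ?_⟩
  set Q : Polynomial ℝ := ∑ k ∈ s, Polynomial.C (a k) * Polynomial.X ^ k with hQ
  have hev : ∀ t : ℝ, Q.eval t = ∑ k ∈ s, a k * t ^ k := fun t => by
    rw [hQ, Polynomial.eval_finsetSum]
    simp
  have hdeg : Q.degree < s.card := by
    rw [hs, Finset.card_range]
    refine lt_of_le_of_lt (Polynomial.degree_sum_le _ _) ?_
    rw [Finset.sup_lt_iff (by exact WithBot.bot_lt_coe _)]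
    intro k hk
    rw [Finset.mem_range] at hk
    refine lt_of_le_of_lt (Polynomial.degree_C_mul_X_pow_le _ _) ?_
    exact_mod_cast hk
  have h1 := Lagrange.eq_interpolate hinj hdeg
  have h2 : Q.eval 1 = ∑ i ∈ s, Q.eval (v i) * (Lagrange.basis s v i).eval 1 := by
    conv_lhs => rw [h1]
    rw [Lagrange.interpolate_apply, Polynomial.eval_finsetSum]
    simp
  have h3 : ∑ k ∈ Finset.range (m + 1), a k = Q.eval 1 := by rw [hev]; simp [hs]
  have hB0 : 0 ≤ B := (abs_nonneg _).trans (hB 0 (Nat.zero_le _))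
  rw [h3, h2]
  calc |∑ i ∈ s, Q.eval (v i) * (Lagrange.basis s v i).eval 1|
      ≤ ∑ i ∈ s, |Q.eval (v i) * (Lagrange.basis s v i).eval 1| := Finset.abs_sum_le_sum_abs _ _
    _ ≤ ∑ i ∈ s, B * |(Lagrange.basis s v i).eval 1| := by
        refine Finset.sum_le_sum fun i hi => ?_
        rw [abs_mul]
        refine mul_le_mul_of_nonneg_right ?_ (abs_nonneg _)
        rw [hev]
        rw [hs, Finset.mem_range] at hi
        exact hB i (by omega)
    _ = (∑ i ∈ s, |(Lagrange.basis s v i).eval 1|) * B := by rw [← Finset.mul_sum, mul_comm]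
    _ ≤ (∑ i ∈ s, |(Lagrange.basis s v i).eval 1| + 1) * B := by nlinarith

theorem polyPlane (d : ℕ) (hd : 1 ≤ d) (m J : ℕ) (ρ K : ℝ) (hρ : 1 < ρ) : ∃ C : ℝ, 0 < C ∧
    ∀ ν : Sp d, ‖ν‖ = 1 → ∀ (c : ℝ) (p : Sp d → ℝ), ContDiff ℝ ∞ p →
      (∀ x, iteratedFDeriv ℝ (m + 1) p x = 0) → ∀ τ : ℝ,
      (∀ (φ : Sp d → ℝ) (N : ℝ), TFn J N φ → Cyl ν ρ φ →
        |plInt ν c (fun y => p y * φ y)| ≤ τ * N) →
      ∀ x, ⟪ν, x⟫_ℝ = c → ‖x‖ ≤ K → |p x| ≤ C * τ := by
  obtain ⟨n, rfl⟩ : ∃ n, d = n + 1 := ⟨d - 1, by omega⟩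
  obtain ⟨ψ, hψ⟩ := VK.main n m
  have hcs : HasCompactSupport ψ := HasCompactSupport.intro (isCompact_closedBall (0 : Sp n) 1)
    fun x hx => by
      rw [mem_closedBall, dist_zero_right, not_le] at hx
      exact hψ.supp x hx.le
  obtain ⟨N0, hN0, hN⟩ := CB.of_compactSupport (J := J)
    (hψ.smooth.of_le (by exact_mod_cast le_top)) hcs
  set K' : ℝ := max K 1 with hK'
  have hK1 : 1 ≤ K' := le_max_right _ _
  set h : ℝ := (ρ - 1) / ((m + 1) * K') with hh
  have hhpos : 0 < h := by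
    rw [hh]
    have : 0 < ρ - 1 := by linarith
    positivity
  obtain ⟨C, hC, hex⟩ := extrap m h hhpos
  refine ⟨C * N0, by positivity, ?_⟩
  intro ν hν c p hp hp0 τ hτ x hxc hxK
  have h0 : ν ≠ 0 := by intro h; simp [h] at hν
  have : Fact (Module.finrank ℝ (Sp (n + 1)) = n + 1) := ⟨by simp⟩
  set e := (OrthonormalBasis.fromOrthogonalSpanSingleton (𝕜 := ℝ) n h0).repr with he
  -- values at the points of the disc of radius ρ - 1
  have hval : ∀ a : Pl ν, ‖a‖ ≤ ρ - 1 → |p (c • ν + (a : Sp (n + 1)))| ≤ τ * N0 := by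
    intro a ha
    set A : Sp (n + 1) →L[ℝ] Sp n :=
      (e.toContinuousLinearEquiv : Pl ν →L[ℝ] Sp n) ∘L (Pl ν).orthogonalProjectionOnto with hA
    have hAa : ∀ y, A y = e ((Pl ν).orthogonalProjectionOnto y) := fun y => rfl
    have hA1 : ‖A‖ ≤ 1 := by
      refine ContinuousLinearMap.opNorm_le_bound _ zero_le_one fun y => ?_
      rw [hAa, e.norm_map, one_mul]
      have := (Pl ν).orthogonalProjectionOnto.le_of_opNorm_le
        ((Pl ν).orthogonalProjectionOnto_norm_le) y
      simpa using this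
    have hAt : ∀ y, ‖A y‖ = ‖tang ν y‖ := fun y => by
      rw [hAa, e.norm_map, ← proj_pl hν y]
      rfl
    set φ : Sp (n + 1) → ℝ := fun y => ψ (A y + -(e a)) with hφ
    have hφN : TFn J N0 φ := (hN.comp_aff A hA1 (-(e a))).tfn
    have hφC : Cyl ν ρ φ := by
      refine ⟨fun y => ?_, fun y hy => ?_⟩
      · have : A y = A (tang ν y) := by
          rw [hAa, hAa]
          congr 1
          refine Subtype.ext ?_
          rw [proj_pl hν, proj_pl hν, tang_tang hν]
        simp only [hφ]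
        rw [this]
      · have h1 : ‖A y + -(e a)‖ < 1 := by
          by_contra hcon
          exact hy (hψ.supp _ (not_lt.1 hcon))
        have h2 : ‖A y‖ ≤ ‖A y + -(e a)‖ + ‖e a‖ := by
          calc ‖A y‖ = ‖(A y + -(e a)) + e a‖ := by congr 1; abel
            _ ≤ _ := norm_add_le _ _
        rw [e.norm_map] at h2
        rw [← hAt]
        linarith
    have h3 := hτ φ N0 hφN hφC
    have h4 : plInt ν c (fun y => p y * φ y) = p (c • ν + (a : Sp (n + 1))) := by
      rw [← test_point hψ e c hp hp0 a]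
      unfold plInt
      refine integral_congr_ae (Filter.Eventually.of_forall fun y => ?_)
      simp only [hφ]
      have h5 : A (c • ν + (y : Sp (n + 1))) = e y := by
        rw [hAa]
        congr 1
        refine Subtype.ext ?_
        rw [proj_pl hν, tang_pl hν]
      rw [h5, sub_eq_add_neg]
    rwa [h4] at h3
  -- extrapolation
  have hx : x = c • ν + tang ν x := by
    unfold tang
    rw [hxc]
    abel
  set v := tang ν x with hv
  have hvK : ‖v‖ ≤ K' := (norm_tang_le hν x).trans (hxK.trans (le_max_left _ _))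
  set a : ℕ → ℝ := fun k => (Nat.factorial k : ℝ)⁻¹ * iteratedFDeriv ℝ k p (c • ν) (fun _ => v)
    with ha
  have hpt : ∀ t : ℝ, p (c • ν + t • v) = ∑ k ∈ Finset.range (m + 1), a k * t ^ k := by
    intro t
    rw [← eq_taylor hp hp0 (c • ν + t • v) (c • ν), add_sub_cancel_left]
    refine Finset.sum_congr rfl fun k _ => ?_
    have := (iteratedFDeriv ℝ k p (c • ν)).map_smul_univ (fun _ => t) (fun _ => v)
    rw [this, ha]
    simp only [Finset.prod_const, Finset.card_univ, Fintype.card_fin, smul_eq_mul]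
    ring
  have h6 := hex a (τ * N0) (fun i hi => by
    rw [← hpt]
    have hm : v ∈ Pl ν := Submodule.mem_orthogonal_singleton_iff_inner_right.2 (tang_inner hν x)
    have h7 := hval (((i : ℝ) * h) • ⟨v, hm⟩) (by
      rw [norm_smul, Real.norm_eq_abs, abs_of_nonneg (by positivity)]
      have h8 : ‖(⟨v, hm⟩ : Pl ν)‖ = ‖v‖ := rfl
      rw [h8]
      have h9 : (i : ℝ) ≤ m + 1 := by
        have : (i : ℝ) ≤ m := by exact_mod_cast hi
        linarith
      calc (i : ℝ) * h * ‖v‖ ≤ (m + 1) * h * K' := by gcongr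
        _ = ρ - 1 := by rw [hh]; field_simp)
    simpa using h7)
  have h10 : p x = ∑ k ∈ Finset.range (m + 1), a k := by
    have := hpt 1
    rw [one_smul] at this
    rw [hx, this]
    simp
  rw [h10]
  calc _ ≤ C * (τ * N0) := h6
    _ = _ := by ring

end

end SHB

end TG
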