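import Pool.Agent.TG.SMa

/-!
# MODULE SM: the mass around a point where the jump is not small
-/

open MeasureTheory Metric Set TrI Filter
open scoped InnerProductSpace ContDiff Topology

set_option linter.unusedSectionVars false

namespace TG

noncomputable section

namespace SMm

variable {d : ℕ}

lemma cu1_nonneg (ρ z : ℝ) : 0 ≤ cu1 ρ z := Real.smoothTransition.nonneg _

lemma cu1_le_one (ρ z : ℝ) : cu1 ρ z ≤ 1 := Real.smoothTransition.le_one _

lemma zR_nonneg (ρ : ℝ) (y : Sp d) : 0 ≤ zR ρ y := Real.smoothTransition.nonneg _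

lemma zR_le_one (ρ : ℝ) (y : Sp d) : zR ρ y ≤ 1 := Real.smoothTransition.le_one _

lemma nat_le_inf (J : ℕ) : (J : WithTop ℕ∞) ≤ ∞ := by
  exact_mod_cast le_top

lemma two_le_inf : ((2 : ℕ) : WithTop ℕ∞) ≤ ∞ := nat_le_inf 2

lemma abs_ht_le {ν : Sp d} (hν : ‖ν‖ = 1) (c : ℝ) (y : Sp d) : |ht ν c y| ≤ ‖y‖ + |c| := by
  unfold ht
  refine (abs_sub _ _).trans ?_
  have := abs_real_inner_le_norm ν y
  rw [hν, one_mul] at this
  linarith

/-- uniform constants -/
lemma consts (d J : ℕ) {R0 : ℝ} (hR0 : 100 ≤ R0) : ∃ K : ℝ, 1 ≤ K ∧ ∀ (ν : Sp d) (c : ℝ), ‖ν‖ = 1 →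
    |c| ≤ R0 / 3 →
    BF 2 K (fun y => zR R0 y * ht ν c y ^ 2) ∧
    BF 2 K (fun y => cu1 4 (ht ν c y) * ht ν c y) ∧
    BF 2 K (fun y => cu1 4 (ht ν c y)) ∧
    BF 2 K (zR (d := d) (R0 - 2)) ∧
    ∀ x : Sp d, BF 2 K (fun y => zR 1 (y - x)) ∧ BF J K (fun y => zR 1 (tang ν (y - x))) ∧
      BF 2 K (fun y => zR 1 (tang ν (y - x))) := by
  obtain ⟨N1, hN1, h1⟩ := sT_BF (G := Sp d) 2 (R := R0) (by linarith)
  obtain ⟨N2, hN2, h2⟩ := BF.of_compact (J := 2) (g := fun z : ℝ => sT (2 * R0) z * z ^ 2)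
    (((sT_smooth (G := ℝ) (by linarith)).of_le two_le_inf).mul (contDiff_id.pow 2))
    ((sT_cs (G := ℝ) (2 * R0)).mul_right)
  obtain ⟨N3, hN3, h3⟩ := BF.of_compact (J := 2) (g := fun z : ℝ => sT 4 z * z)
    (((sT_smooth (G := ℝ) (by norm_num)).of_le two_le_inf).mul contDiff_id)
    ((sT_cs (G := ℝ) 4).mul_right)
  obtain ⟨N4, hN4, h4⟩ := sT_BF (G := ℝ) 2 (R := 4) (by norm_num)
  obtain ⟨N5, hN5, h5⟩ := sT_BF (G := Sp d) 2 (R := R0 - 2) (by linarith)
  obtain ⟨N6, hN6, h6⟩ := sT_BF (G := Sp d) 2 (R := 1) (by norm_num)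
  obtain ⟨N7, hN7, h7⟩ := sT_BF (G := Sp d) J (R := 1) (by norm_num)
  set K : ℝ := 1 + 2 ^ 2 * (N1 * N2) + N3 + N4 + N5 + N6 + N7 with hK
  have hp : 0 < 2 ^ 2 * (N1 * N2) := by positivity
  refine ⟨K, by linarith, ?_⟩
  intro ν c hν hc
  have e1 : (fun y => zR R0 y * ht ν c y ^ 2) =
      fun y : Sp d => sT R0 y * (sT (2 * R0) (ht ν c y) * ht ν c y ^ 2) := by
    funext y
    rw [zR_eq]
    by_cases h : sT R0 y = 0
    · rw [h, zero_mul, zero_mul]
    · have h8 := sT_ne h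
      have h9 := abs_ht_le hν c y
      rw [sT_one (x := ht ν c y) (by rw [Real.norm_eq_abs]; linarith), one_mul]
  refine ⟨?_, ?_, ?_, ?_, ?_⟩
  · rw [e1]
    exact (h1.mul (h2.comp_ht hν c)).mono (by linarith)
  · exact (h3.comp_ht hν c).mono (by linarith)
  · exact (h4.comp_ht hν c).mono (by linarith)
  · exact h5.mono (by linarith)
  · intro x
    refine ⟨?_, ?_, ?_⟩
    · have := h6.comp_aff (ContinuousLinearMap.id ℝ (Sp d)) ContinuousLinearMap.norm_id_le (-x)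
      have e2 : (fun y : Sp d => zR 1 (y - x)) =
          fun y => sT 1 (ContinuousLinearMap.id ℝ (Sp d) y + -x) := by
        funext y; rw [zR_eq]; simp [sub_eq_add_neg]
      rw [e2]
      exact this.mono (by linarith)
    · have := h7.comp_aff (tg ν) (tg_norm hν) (-(tg ν x))
      have e2 : (fun y : Sp d => zR 1 (tang ν (y - x))) =
          fun y => sT 1 (tg ν y + -(tg ν x)) := by
        funext y; rw [zR_eq, ← tg_apply, map_sub, sub_eq_add_neg]
      rw [e2]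
      exact this.mono (by linarith)
    · have := h6.comp_aff (tg ν) (tg_norm hν) (-(tg ν x))
      have e2 : (fun y : Sp d => zR 1 (tang ν (y - x))) =
          fun y => sT 1 (tg ν y + -(tg ν x)) := by
        funext y; rw [zR_eq, ← tg_apply, map_sub, sub_eq_add_neg]
      rw [e2]
      exact this.mono (by linarith)

/-- the abstract situation -/
structure Env (m : Sp d → ℝ) (ν : Sp d) (c R0 R K CZ CM Dv av bv : ℝ) : Prop where
  hm : Continuous m
  hmc : HasCompactSupport m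
  hν : ‖ν‖ = 1
  hc : |c| ≤ R0 / 3
  hR0 : 100 ≤ R0
  hR : R0 + 10 ≤ R
  hK : 1 ≤ K
  hCZ : 0 < CZ
  hCM : 0 < CM
  hD : 0 ≤ Dv
  ha : 0 ≤ av
  hbb : bv = ∫ y, m y * (zR R0 y * ht ν c y ^ 2)
  z : ∀ (H : Sp d → ℝ) (N : ℝ), 0 < N → BF 2 N H → (∀ y, 0 ≤ H y) →
    (∀ y, R - 2 ≤ ‖y‖ → H y = 0) → -(CZ * N * Dv) ≤ ∫ y, m y * H y
  ma : ∀ (H : Sp d → ℝ) (N : ℝ), 0 < N → BF 2 N H →
    (∀ y, R0 - 1 ≤ ‖y‖ → H y = 0) → |∫ y, m y * H y| ≤ CM * N * (av + Dv)
  k1 : BF 2 K (fun y => zR R0 y * ht ν c y ^ 2)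
  k2 : BF 2 K (fun y => cu1 4 (ht ν c y) * ht ν c y)
  k3 : BF 2 K (fun y => cu1 4 (ht ν c y))
  k4 : BF 2 K (zR (d := d) (R0 - 2))

lemma Env.int {m : Sp d → ℝ} {ν : Sp d} {c R0 R K CZ CM Dv av bv : ℝ}
    (h : Env m ν c R0 R K CZ CM Dv av bv) {g : Sp d → ℝ} (hg : Continuous g) :
    Integrable (fun y => m y * g y) :=
  (h.hm.mul hg).integrable_of_hasCompactSupport h.hmc.mul_right

lemma BF.cont {J : ℕ} {N : ℝ} {g : Sp d → ℝ} (h : BF J N g) : Continuous g := h.smooth.continuous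

/-- the support of cu1 4 (ht) G -/
lemma supp_aux {ν : Sp d} (hν : ‖ν‖ = 1) {c R0 : ℝ} (hc : |c| ≤ R0 / 3) (hR0 : 100 ≤ R0) {y : Sp d}
    (h1 : cu1 4 (ht ν c y) ≠ 0) (h2 : ‖tang ν y‖ ≤ R0 / 2) : ‖y‖ ≤ R0 - 2 := by
  rw [cu1_eq] at h1
  have h3 := sT_ne h1
  rw [Real.norm_eq_abs] at h3
  have := norm_le_ht hν c y
  linarith

/-- the mean of the height -/
lemma Env.L1 {m : Sp d → ℝ} {ν : Sp d} {c R0 R K CZ CM Dv av bv : ℝ}
    (h : Env m ν c R0 R K CZ CM Dv av bv) {G : Sp d → ℝ} {N : ℝ} (hN : 0 < N) (hG : BF 2 N G)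
    (hGs : ∀ y, G y ≠ 0 → ‖tang ν y‖ ≤ R0 / 2) {δ : ℝ} (hδ : 0 < δ) (hδ1 : δ ≤ 1) :
    |∫ y, m y * (cu1 4 (ht ν c y) * (ht ν c y * G y))| ≤
      (CM * K + 1 + CZ * (K + K + 8 * K)) * N * (δ * (av + Dv) + (max 0 bv + Dv) / δ) := by
  have hK0 : 0 < K := by linarith [h.hK]
  -- the four functions
  have b1 : BF 2 (K * (N / δ)) (fun y => δ * N * zR (R0 - 2) y) :=
    (h.k4.const_mul (δ * N)).mono (by
      rw [abs_of_pos (by positivity)]
      have : δ * N ≤ N / δ := by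
        rw [le_div_iff₀ hδ]
        have h1 : δ * δ ≤ 1 := by nlinarith
        have h2 : N * (δ * δ) ≤ N * 1 := mul_le_mul_of_nonneg_left h1 hN.le
        linarith
      nlinarith)
  have b2 : BF 2 (K * (N / δ)) (fun y => N / δ * (zR R0 y * ht ν c y ^ 2)) :=
    (h.k1.const_mul (N / δ)).mono (by
      rw [abs_of_pos (by positivity)]; nlinarith)
  have b3 : BF 2 (8 * K * (N / δ)) (fun y => 2 * (cu1 4 (ht ν c y) * ht ν c y * G y)) :=
    ((h.k2.mul hG).const_mul 2).mono (by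
      rw [abs_of_pos (by norm_num)]
      have : N ≤ N / δ := by
        rw [le_div_iff₀ hδ]; nlinarith
      nlinarith)
  have b3' : BF 2 (8 * K * (N / δ)) (fun y => (-2) * (cu1 4 (ht ν c y) * ht ν c y * G y)) :=
    ((h.k2.mul hG).const_mul (-2)).mono (by
      rw [abs_of_neg (by norm_num)]
      have : N ≤ N / δ := by
        rw [le_div_iff₀ hδ]; nlinarith
      nlinarith)
  have hNδ : 0 < N / δ := by positivity
  have i1 := h.int b1.cont
  have i2 := h.int b2.cont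
  have i3 := h.int (h.k2.mul hG).cont
  have key : ∀ σ : ℝ, (σ = 2 ∨ σ = -2) → -(CZ * ((K + K + 8 * K) * (N / δ)) * Dv) ≤
      δ * N * (∫ y, m y * zR (R0 - 2) y) + N / δ * bv +
        σ * ∫ y, m y * (cu1 4 (ht ν c y) * ht ν c y * G y) := by
    intro σ hσ
    have b3σ : BF 2 (8 * K * (N / δ)) (fun y => σ * (cu1 4 (ht ν c y) * ht ν c y * G y)) := by
      rcases hσ with rfl | rfl
      · exact b3
      · exact b3'
    have bb := (b1.add b2).add b3σ
    have hz := h.z _ ((K + K + 8 * K) * (N / δ)) (by positivity) (bb.mono (by nlinarith)) ?_ ?_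
    · refine hz.trans (le_of_eq ?_)
      rw [h.hbb, ← integral_const_mul, ← integral_const_mul, ← integral_const_mul,
        ← integral_add, ← integral_add]
      · refine integral_congr_ae (Eventually.of_forall fun y => ?_)
        simp only []
        ring
      · exact (h.int h.k4.cont).const_mul _ |>.add ((h.int h.k1.cont).const_mul _)
      · exact i3.const_mul _
      · exact (h.int h.k4.cont).const_mul _
      · exact (h.int h.k1.cont).const_mul _
    · intro y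
      have z1 : 0 ≤ zR (R0 - 2) y := sT_nonneg _ _
      have z2 : 0 ≤ zR R0 y := sT_nonneg _ _
      by_cases h0 : cu1 4 (ht ν c y) * ht ν c y * G y = 0
      · have t1 : 0 ≤ δ * N * zR (R0 - 2) y := mul_nonneg (by positivity) z1
        have t2 : 0 ≤ N / δ * (zR R0 y * ht ν c y ^ 2) :=
          mul_nonneg hNδ.le (mul_nonneg z2 (sq_nonneg _))
        rw [h0]; linarith
      · have h1 : cu1 4 (ht ν c y) ≠ 0 := fun h' => h0 (by rw [h']; ring)
        have h2 : G y ≠ 0 := fun h' => h0 (by rw [h']; ring)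
        have h3 := supp_aux h.hν h.hc h.hR0 h1 (hGs y h2)
        have e1 : zR (R0 - 2) y = 1 := sT_one h3
        have e2 : zR R0 y = 1 := sT_one (by linarith)
        rw [e1, e2]
        have h4 : 0 ≤ cu1 4 (ht ν c y) := cu1_nonneg _ _
        have h5 : cu1 4 (ht ν c y) ≤ 1 := cu1_le_one _ _
        have h6 := hG.norm_le y
        rw [Real.norm_eq_abs] at h6
        have h7 : |cu1 4 (ht ν c y) * ht ν c y * G y| ≤ |ht ν c y| * N := by
          rw [abs_mul, abs_mul, abs_of_nonneg h4]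
          calc cu1 4 (ht ν c y) * |ht ν c y| * |G y| ≤ 1 * |ht ν c y| * N := by gcongr
            _ = _ := by ring
        have h8 : 2 * (|ht ν c y| * N) ≤ δ * N * 1 + N / δ * (1 * ht ν c y ^ 2) := by
          have h9 : 0 ≤ N / δ * (δ - |ht ν c y|) ^ 2 := by positivity
          have h10 : N / δ * (δ - |ht ν c y|) ^ 2 =
              δ * N * 1 + N / δ * (1 * ht ν c y ^ 2) - 2 * (|ht ν c y| * N) := by
            rw [← sq_abs (ht ν c y)]; field_simp; ring
          linarith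
        have h11 := abs_le.1 h7
        rcases hσ with rfl | rfl
        · linarith [h11.1]
        · linarith [h11.2]
    · intro y hy
      have e1 : zR (R0 - 2) y = 0 := sT_zero (by linarith [h.hR])
      have e2 : zR R0 y = 0 := sT_zero (by linarith [h.hR])
      have e3 : cu1 4 (ht ν c y) * ht ν c y * G y = 0 := by
        by_contra h0
        have h1 : cu1 4 (ht ν c y) ≠ 0 := fun h' => h0 (by rw [h']; ring)
        have h2 : G y ≠ 0 := fun h' => h0 (by rw [h']; ring)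
        have h3 := supp_aux h.hν h.hc h.hR0 h1 (hGs y h2)
        linarith [h.hR]
      rw [e1, e2, e3]; ring
  have k1 := key 2 (Or.inl rfl)
  have k2 := key (-2) (Or.inr rfl)
  have hma := h.ma (zR (R0 - 2)) K hK0 h.k4 (fun y hy => sT_zero (by linarith))
  have e : (fun y => m y * (cu1 4 (ht ν c y) * (ht ν c y * G y))) =
      fun y => m y * (cu1 4 (ht ν c y) * ht ν c y * G y) := by
    funext y; ring
  rw [e]
  set I := ∫ y, m y * (cu1 4 (ht ν c y) * ht ν c y * G y) with hI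
  set Z := ∫ y, m y * zR (R0 - 2) y with hZ
  have hav : 0 ≤ av + Dv := add_nonneg h.ha h.hD
  have h1 : δ * N * Z ≤ δ * N * (CM * K * (av + Dv)) :=
    mul_le_mul_of_nonneg_left ((le_abs_self Z).trans hma) (by positivity)
  have h2 : N / δ * bv ≤ N / δ * max 0 bv :=
    mul_le_mul_of_nonneg_left (le_max_right _ _) hNδ.le
  have h3 : |I| ≤ δ * N * (CM * K * (av + Dv)) + N / δ * max 0 bv +
      CZ * ((K + K + 8 * K) * (N / δ)) * Dv := by
    have h4 : 0 ≤ δ * N * (CM * K * (av + Dv)) + N / δ * max 0 bv +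
      CZ * ((K + K + 8 * K) * (N / δ)) * Dv := by
      have := le_max_left 0 bv
      have := h.hCM
      have := h.hCZ
      have := h.hD
      positivity
    rw [abs_le]
    constructor <;> linarith
  refine h3.trans ?_
  have := le_max_left 0 bv
  have hCM := h.hCM
  have hCZ := h.hCZ
  have hD := h.hD
  have q1 : 0 ≤ δ * (av + Dv) := by positivity
  have q2 : 0 ≤ (max 0 bv) / δ := by positivity
  have q3 : 0 ≤ Dv / δ := by positivity
  have e2 : (CM * K + 1 + CZ * (K + K + 8 * K)) * N * (δ * (av + Dv) + (max 0 bv + Dv) / δ) =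
      (CM * K + (1 + CZ * (K + K + 8 * K))) * N * (δ * (av + Dv)) +
      (1 + (CM * K + CZ * (K + K + 8 * K))) * N * (max 0 bv / δ) +
      (CZ * (K + K + 8 * K) + (1 + CM * K)) * N * (Dv / δ) := by
    rw [add_div]; ring
  rw [e2]
  have r1 : δ * N * (CM * K * (av + Dv)) = CM * K * N * (δ * (av + Dv)) := by ring
  have r2 : N / δ * max 0 bv = N * (max 0 bv / δ) := by ring
  have r3 : CZ * ((K + K + 8 * K) * (N / δ)) * Dv = CZ * (K + K + 8 * K) * N * (Dv / δ) := by ring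
  rw [r1, r2, r3]
  have s1 : 0 ≤ (1 + CZ * (K + K + 8 * K)) * N * (δ * (av + Dv)) := by positivity
  have s2 : 0 ≤ (CM * K + CZ * (K + K + 8 * K)) * N * (max 0 bv / δ) := by positivity
  have s3 : 0 ≤ (1 + CM * K) * N * (Dv / δ) := by positivity
  linarith

/-- almost positivity -/
lemma Env.L2 {m : Sp d → ℝ} {ν : Sp d} {c R0 R K CZ CM Dv av bv : ℝ}
    (h : Env m ν c R0 R K CZ CM Dv av bv) {G : Sp d → ℝ} {N : ℝ} (hN : 0 < N) (hG : BF 2 N G)
    (hG0 : ∀ y, 0 ≤ G y) (hGs : ∀ y, G y ≠ 0 → ‖tang ν y‖ ≤ R0 / 2) :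
    -(CZ * (4 * K * N) * Dv) ≤ ∫ y, m y * (cu1 4 (ht ν c y) * G y) := by
  have hK0 : 0 < K := by linarith [h.hK]
  refine h.z _ (4 * K * N) (by positivity) ((h.k3.mul hG).mono (by nlinarith)) ?_ ?_
  · intro y
    exact mul_nonneg (cu1_nonneg _ _) (hG0 y)
  · intro y hy
    by_contra h0
    have h1 : cu1 4 (ht ν c y) ≠ 0 := fun h' => h0 (by rw [h']; ring)
    have h2 : G y ≠ 0 := fun h' => h0 (by rw [h']; ring)
    have h3 := supp_aux h.hν h.hc h.hR0 h1 (hGs y h2)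
    linarith [h.hR]

/-- comparison of a cylinder and a ball -/
lemma Env.L3 {m : Sp d → ℝ} {ν : Sp d} {c R0 R K CZ CM Dv av bv : ℝ}
    (h : Env m ν c R0 R K CZ CM Dv av bv) {Lp : ℝ} (hLp : 0 < Lp)
    (hlip : ∀ a b : ℝ, a ≤ 2 → b ≤ 2 →
      |Real.smoothTransition a - Real.smoothTransition b| ≤ Lp * |a - b|)
    {x : Sp d} (hx : ⟪ν, x⟫_ℝ = c) (hxR : ‖x‖ ≤ R0 / 3)
    (k5 : BF 2 K (fun y => zR 1 (y - x))) (k6 : BF 2 K (fun y => zR 1 (tang ν (y - x)))) :
    ∫ y, m y * (cu1 4 (ht ν c y) * zR 1 (tang ν (y - x))) ≤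
      (∫ y, m y * zR 1 (y - x)) + (Lp + CZ * (K + Lp * K + 4 * K * K)) * (max 0 bv + Dv) := by
  have hK0 : 0 < K := by linarith [h.hK]
  have b1 : BF 2 (Lp * K) (fun y => Lp * (zR R0 y * ht ν c y ^ 2)) :=
    (h.k1.const_mul Lp).mono (by rw [abs_of_pos hLp])
  have b2 : BF 2 (4 * K * K) (fun y => (-1) * (cu1 4 (ht ν c y) * zR 1 (tang ν (y - x)))) :=
    ((h.k3.mul k6).const_mul (-1)).mono (by rw [abs_of_neg (by norm_num)]; nlinarith)
  have bb := (k5.add b1).add b2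
  have hz := h.z _ (K + Lp * K + 4 * K * K) (by positivity) bb ?_ ?_
  · have e : ∫ y, m y * (zR 1 (y - x) + Lp * (zR R0 y * ht ν c y ^ 2) +
        (-1) * (cu1 4 (ht ν c y) * zR 1 (tang ν (y - x)))) =
        (∫ y, m y * zR 1 (y - x)) + Lp * bv -
          ∫ y, m y * (cu1 4 (ht ν c y) * zR 1 (tang ν (y - x))) := by
      rw [h.hbb, ← integral_const_mul, ← integral_add, ← integral_sub]
      · refine integral_congr_ae (Eventually.of_forall fun y => ?_)
        simp only []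
        ring
      · exact (h.int k5.cont).add ((h.int h.k1.cont).const_mul _)
      · exact h.int (h.k3.mul k6).cont
      · exact h.int k5.cont
      · exact (h.int h.k1.cont).const_mul _
    rw [e] at hz
    have h1 : Lp * bv ≤ Lp * max 0 bv := mul_le_mul_of_nonneg_left (le_max_right _ _) hLp.le
    have h2 : 0 ≤ CZ * (K + Lp * K + 4 * K * K) * max 0 bv := by
      have := le_max_left 0 bv
      have := h.hCZ
      positivity
    have h3 : 0 ≤ Lp * Dv := mul_nonneg hLp.le h.hD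
    have e3 : (Lp + CZ * (K + Lp * K + 4 * K * K)) * (max 0 bv + Dv) =
      Lp * max 0 bv + CZ * (K + Lp * K + 4 * K * K) * max 0 bv + Lp * Dv +
        CZ * (K + Lp * K + 4 * K * K) * Dv := by ring
    rw [e3]
    linarith
  · intro y
    have z1 : 0 ≤ zR 1 (y - x) := sT_nonneg _ _
    have z2 : 0 ≤ zR R0 y := sT_nonneg _ _
    by_cases h0 : cu1 4 (ht ν c y) * zR 1 (tang ν (y - x)) = 0
    · have t1 : 0 ≤ Lp * (zR R0 y * ht ν c y ^ 2) :=
        mul_nonneg hLp.le (mul_nonneg z2 (sq_nonneg _))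
      rw [h0]; linarith
    · have h1 : cu1 4 (ht ν c y) ≠ 0 := fun h' => h0 (by rw [h']; ring)
      have h2 : zR 1 (tang ν (y - x)) ≠ 0 := fun h' => h0 (by rw [h']; ring)
      have h3 : ‖tang ν (y - x)‖ ≤ 1 + 1 := sT_ne h2
      have h4 : ‖tang ν y‖ ≤ R0 / 2 := by
        have h5 : tang ν y = tang ν (y - x) + tang ν x := by rw [tang_sub]; abel
        rw [h5]
        refine (norm_add_le _ _).trans ?_
        have := tang_le h.hν x
        linarith [h.hR0]
      have h5 := supp_aux h.hν h.hc h.hR0 h1 h4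
      have e2 : zR R0 y = 1 := sT_one (by linarith)
      rw [e2]
      have h6 : 0 ≤ cu1 4 (ht ν c y) := cu1_nonneg _ _
      have h7 : cu1 4 (ht ν c y) ≤ 1 := cu1_le_one _ _
      have h8 : 0 ≤ zR 1 (tang ν (y - x)) := sT_nonneg _ _
      have h9 : cu1 4 (ht ν c y) * zR 1 (tang ν (y - x)) ≤ zR 1 (tang ν (y - x)) := by nlinarith
      have h10 : zR 1 (tang ν (y - x)) ≤ zR 1 (y - x) + Lp * ht ν c y ^ 2 := by
        have hh : ⟪ν, y - x⟫_ℝ = ht ν c y := by
          unfold ht; rw [inner_sub_right, hx]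
        have hs := tang_sq h.hν (y - x)
        rw [hh] at hs
        by_cases hr : ‖y - x‖ ≤ 1
        · rw [show zR 1 (y - x) = 1 from sT_one hr]
          have : zR 1 (tang ν (y - x)) ≤ 1 := sT_le_one _ _
          have : 0 ≤ Lp * ht ν c y ^ 2 := by positivity
          linarith
        · push Not at hr
          have hl := hlip (1 + 1 - ‖tang ν (y - x)‖) (1 + 1 - ‖y - x‖)
            (by linarith [norm_nonneg (tang ν (y - x))]) (by linarith)
          have hle := tang_le h.hν (y - x)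
          have e4 : |1 + 1 - ‖tang ν (y - x)‖ - (1 + 1 - ‖y - x‖)| =
              ‖y - x‖ - ‖tang ν (y - x)‖ := by
            rw [show (1 : ℝ) + 1 - ‖tang ν (y - x)‖ - (1 + 1 - ‖y - x‖) =
              ‖y - x‖ - ‖tang ν (y - x)‖ by ring, abs_of_nonneg (by linarith)]
          rw [e4] at hl
          have h11 : ‖y - x‖ - ‖tang ν (y - x)‖ ≤ ht ν c y ^ 2 := by
            have : (‖y - x‖ - ‖tang ν (y - x)‖) * (‖y - x‖ + ‖tang ν (y - x)‖) = ht ν c y ^ 2 := by
              nlinarith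
            rw [← this]
            have h12 := norm_nonneg (tang ν (y - x))
            nlinarith
          have h13 := le_abs_self (Real.smoothTransition (1 + 1 - ‖tang ν (y - x)‖) -
            Real.smoothTransition (1 + 1 - ‖y - x‖))
          have h14 : Lp * (‖y - x‖ - ‖tang ν (y - x)‖) ≤ Lp * ht ν c y ^ 2 :=
            mul_le_mul_of_nonneg_left h11 hLp.le
          unfold zR
          linarith
      linarith
  · intro y hy
    have hy2 : R - 2 - R0 / 3 ≤ ‖y - x‖ := by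
      have := norm_sub_norm_le y x
      linarith
    have e1 : zR 1 (y - x) = 0 := sT_zero (by linarith [h.hR, h.hR0])
    have e2 : zR R0 y = 0 := sT_zero (by linarith [h.hR])
    have e3 : cu1 4 (ht ν c y) * zR 1 (tang ν (y - x)) = 0 := by
      by_contra h0
      have h1 : cu1 4 (ht ν c y) ≠ 0 := fun h' => h0 (by rw [h']; ring)
      have h2 : zR 1 (tang ν (y - x)) ≠ 0 := fun h' => h0 (by rw [h']; ring)
      have h3 : ‖tang ν (y - x)‖ ≤ 1 + 1 := sT_ne h2
      have h4 : ‖tang ν y‖ ≤ R0 / 2 := by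
        have h5 : tang ν y = tang ν (y - x) + tang ν x := by rw [tang_sub]; abel
        rw [h5]
        refine (norm_add_le _ _).trans ?_
        have := tang_le h.hν x
        linarith [h.hR0]
      have h5 := supp_aux h.hν h.hc h.hR0 h1 h4
      linarith [h.hR]
    rw [e1, e2, e3]; ring

lemma BF.tfn {F : Type*} [NormedAddCommGroup F] [NormedSpace ℝ F] {J : ℕ} {N : ℝ} {g : Sp d → F}
    (h : BF J N g) : TFn J N g := ⟨h.smooth, h.bd⟩

lemma bf_of {F : Type*} [NormedAddCommGroup F] [NormedSpace ℝ F] {J : ℕ} {N : ℝ} {g : Sp d → F}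
    (h : TFn J N g) : BF J N g := ⟨h.smooth, h.bd⟩

section op

variable {V : Type} [NormedAddCommGroup V] [InnerProductSpace ℝ V] [FiniteDimensional ℝ V]

lemma JJ_poly (hd : 1 ≤ d) (n0 : ℕ) {u : Sp d → V} (hu : TF u) (ν q : Sp d) {r : ℝ} (hr : 0 < r) :
    ContDiff ℝ ∞ (JJ n0 ν q r u) ∧ ∀ y, iteratedFDeriv ℝ (n0 + 1) (JJ n0 ν q r u) y = 0 := by
  obtain ⟨a1, a2, -⟩ := stmtTQ d V n0 u hd hu.smooth (q + (6 * r) • ν) r hr
  obtain ⟨b1, b2, -⟩ := stmtTQ d V n0 u hd hu.smooth (q - (6 * r) • ν) r hr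
  have e : JJ n0 ν q r u = fun y => ATP n0 (q + (6 * r) • ν) r u y - ATP n0 (q - (6 * r) • ν) r u y :=
    rfl
  refine ⟨by rw [e]; exact a1.sub b1, fun y => ?_⟩
  rw [e]
  have h1 := iteratedFDeriv_sub_apply (x := y) (i := n0 + 1) ((a1.of_le (nat_le_inf _)).contDiffAt)
    ((b1.of_le (nat_le_inf _)).contDiffAt)
  have h2 : iteratedFDeriv ℝ (n0 + 1) (fun y => ATP n0 (q + (6 * r) • ν) r u y -
      ATP n0 (q - (6 * r) • ν) r u y) y = _ := h1
  rw [h2, a2, b2, sub_zero]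

lemma comp_poly (l : V →L[ℝ] ℝ) {P : Sp d → V} {k : ℕ} (hP : ContDiff ℝ ∞ P)
    (h0 : ∀ y, iteratedFDeriv ℝ k P y = 0) : ContDiff ℝ ∞ (fun y => l (P y)) ∧
      ∀ y, iteratedFDeriv ℝ k (fun y => l (P y)) y = 0 := by
  refine ⟨l.contDiff.comp hP, fun y => ?_⟩
  have h1 := l.iteratedFDeriv_comp_left (i := k) (x := y) (f := P)
    ((hP.of_le (nat_le_inf k)).contDiffAt) le_rfl
  have h2 : (l ∘ P) = fun y => l (P y) := rfl
  rw [h2] at h1
  rw [h1, h0]
  ext v
  simp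

end op

lemma dv_smul {J : ℕ} {N : ℝ} {ψ : Sp d → ℝ} (hψ : BF (J + 1) N ψ) (w : Sp d) (y : Sp d) :
    dv (fun y => ψ y • w) y = fderiv ℝ ψ y w := by
  have hdiff : DifferentiableAt ℝ ψ y :=
    (hψ.smooth.differentiable (by norm_cast)).differentiableAt
  have h1 : ∀ v, fderiv ℝ (fun y => ψ y • w) y v = (fderiv ℝ ψ y v) • w := by
    intro v
    rw [fderiv_smul_const hdiff w]
    simp
  unfold dv
  simp only [h1]
  have h2 : w = ∑ j : Fin d, w j • EuclideanSpace.single j (1 : ℝ) := by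
    ext i
    simp [Finset.sum_apply, Pi.single_apply]
  conv_rhs => rw [h2, map_sum]
  refine Finset.sum_congr rfl fun j _ => ?_
  rw [map_smul]
  simp [mul_comm]

/-- the final algebra -/
lemma final_alg {a I s Cs cn A3 A6 A7 P0 P1 η : ℝ} (hcn : 0 < cn) (hCs : 0 < Cs)
    (hs : 0 < s) (hA7 : A7 = Cs * (A6 / cn + A3 + 2)) (hs7 : A7 * s ≤ 1 / 2) (ha : 0 < a)
    (h0 : cn * P0 ≤ I + A6 * (s * a)) (h1 : P1 ≤ A3 * (s * a)) (hη : η ≤ 2 * (s * a))
    (h : a ≤ Cs * (P0 + P1 + η)) : a ≤ 2 * (Cs / cn) * I := by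
  have h2 : P0 ≤ (I + A6 * (s * a)) / cn := by
    rw [le_div_iff₀ hcn]; linarith
  have h3 : a ≤ Cs * ((I + A6 * (s * a)) / cn + A3 * (s * a) + 2 * (s * a)) :=
    h.trans (mul_le_mul_of_nonneg_left (by linarith) hCs.le)
  have h4 : Cs * ((I + A6 * (s * a)) / cn + A3 * (s * a) + 2 * (s * a)) =
      (Cs / cn) * I + (A7 * s) * a := by
    rw [hA7]; field_simp; ring
  rw [h4] at h3
  have h5 : (A7 * s) * a ≤ 1 / 2 * a := mul_le_mul_of_nonneg_right hs7 ha.le
  linarith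

end SMm

open SMm

/-- MODULE SM -/
theorem stmtSM (hSHB : StmtSHB) (hNC : StmtNC) (hZ : StmtZ) (_hPF : StmtPF) : StmtSM := by
  intro d V E _ _ _ _ _ _ L n0 T hd hn0 hL hT M c0 ε hε hε1 b hb R0 hR0
  obtain ⟨J, hSJ⟩ := hSHB d V E L n0 T hd hn0 hL hT
  obtain ⟨Cs, κs, hCs, hκs, hS⟩ := hSJ M c0 ε hε hε1 b hb R0 hR0
  set J' : ℕ := J + 3 with hJ'
  obtain ⟨cn, Cn, hcn, hCn, hN⟩ := hNC d hd n0 J' 2 le_rfl
  obtain ⟨CZ, hCZ, hz⟩ := hZ d (by omega) M c0 ε hε hε1 b hb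
  obtain ⟨CM, hCM, hm⟩ := stmtMA hZ d (by omega) M c0 ε hε hε1 b hb
  obtain ⟨K, hK, hk⟩ := consts d J' hR0
  obtain ⟨Lp, hLp, hlip⟩ := st_lip
  have hK0 : 0 < K := by linarith
  -- constants
  set A1 : ℝ := CM * K + 1 + CZ * (K + K + 8 * K) with hA1
  set A2 : ℝ := 3 * A1 + 2 * Cs with hA2
  set A3 : ℝ := A2 * (K + Cn) / cn with hA3
  set A4 : ℝ := 4 * CZ * K + 2 * Cs with hA4
  set A5 : ℝ := Lp + CZ * (K + Lp * K + 4 * K * K) with hA5
  set A6 : ℝ := A5 + 2 * Cs * K + Cn * A4 with hA6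
  set A7 : ℝ := Cs * (A6 / cn + A3 + 2) with hA7
  have pA1 : 0 < A1 := by positivity
  have pA2 : 0 < A2 := by positivity
  have pA3 : 0 < A3 := by positivity
  have pA4 : 0 < A4 := by positivity
  have pA5 : 0 < A5 := by positivity
  have pA6 : 0 < A6 := by positivity
  have pA7 : 0 < A7 := by positivity
  set s : ℝ := min 1 (min (Real.sqrt κs) (1 / (2 * A7))) with hs
  have hs0 : 0 < s := lt_min one_pos (lt_min (Real.sqrt_pos.2 hκs) (by positivity))
  have hs1 : s ≤ 1 := min_le_left _ _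
  have hs2 : s ≤ Real.sqrt κs := (min_le_right _ _).trans (min_le_left _ _)
  have hs3 : s ≤ 1 / (2 * A7) := (min_le_right _ _).trans (min_le_right _ _)
  have hs7 : A7 * s ≤ 1 / 2 := by
    calc A7 * s ≤ A7 * (1 / (2 * A7)) := mul_le_mul_of_nonneg_left hs3 pA7.le
      _ = 1 / 2 := by field_simp
  have hsκ : s ^ 2 ≤ κs := by
    calc s ^ 2 ≤ Real.sqrt κs ^ 2 := pow_le_pow_left₀ hs0.le hs2 2
      _ = κs := Real.sq_sqrt hκs.le
  refine ⟨2 * (Cs / cn), s ^ 2, by positivity, by positivity, ?_⟩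
  intro R hR n u hu e he ν c hν hc hflat x a hx hxR ha haJ hbD hmabD
  -- abbreviations
  have hlev : lev ((1 / 2 : ℝ) ^ n) n = 1 := by
    unfold lev; rw [← mul_pow]; norm_num
  have hfc : Continuous (fo L u) := A0.fo_cont L hu
  have hfs : HasCompactSupport (fo L u) := A0.fo_cs L hu
  obtain ⟨Dv, hDv⟩ : ∃ v, v = DD b ε R ((1 / 2) ^ n) (fo L u) n 0 e := ⟨_, rfl⟩
  obtain ⟨av, hav⟩ : ∃ v, v = ma b ε R0 ((1 / 2) ^ n) (fo L u) n 0 := ⟨_, rfl⟩
  obtain ⟨bv, hbv⟩ : ∃ v, v = bb R0 ((1 / 2) ^ n) (fo L u) n 0 e ν c := ⟨_, rfl⟩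
  have hbDv : bD b ε R0 R ((1 / 2) ^ n) (fo L u) n 0 e ν c = max 0 bv + Dv := by
    rw [hDv, hbv]; rfl
  have hDv0 : 0 ≤ Dv := by
    have := MA.DD_ge b ε R (n := n) (fo L u) 0 he (Nat.zero_le (n + 1))
    rw [Finset.range_zero, Finset.sum_empty] at this
    rw [hDv]; exact this
  have hav' : av = ∫ y in ball (0 : Sp d) R0, ‖fl b ε ((1 / 2) ^ n) (fo L u) (n - 1) y‖ := by
    rw [hav]; unfold ma; rw [hlev]; simp
  have hav0 : 0 ≤ av := by
    rw [hav']; exact integral_nonneg fun _ => norm_nonneg _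
  have hbv' : bv = ∫ y, ⟪fo L u y, e⟫_ℝ * (zR R0 y * ht ν c y ^ 2) := by
    rw [hbv]; unfold bb; rw [hlev]; simp
  obtain ⟨k1, k2, k3, k4, k56⟩ := hk ν c hν hc
  obtain ⟨k5, k6, k7⟩ := k56 x
  have env : Env (fun y => ⟪fo L u y, e⟫_ℝ) ν c R0 R K CZ CM Dv av bv := by
    refine ⟨by fun_prop, ?_, hν, hc, hR0, hR, hK, hCZ, hCM, hDv0, hav0, hbv', ?_, ?_, k1, k2, k3, k4⟩
    · exact hfs.mono (fun y hy => by
        simp only [Function.mem_support] at hy ⊢
        intro h; apply hy; rw [h, inner_zero_left])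
    · intro H N hN hH hH0 hHs
      have h1 := hz E (fo L u) hfc hfs R (by linarith) n e he 0 (fun y => (1 / N) * H y)
        (contDiff_const.mul hH.smooth) (fun y => mul_nonneg (by positivity) (hH0 y))
        (fun y => by
          have := hH.norm_le y
          rw [Real.norm_eq_abs] at this
          have h2 := (le_abs_self (H y)).trans this
          rw [one_div, inv_mul_le_iff₀ hN, mul_one]; exact h2)
        (fun y => by
          have := (hH.const_mul (1 / N)).bd 2 le_rfl y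
          refine this.trans (le_of_eq ?_)
          rw [abs_of_pos (by positivity)]; field_simp)
        (fun y hy => by
          rw [sub_zero] at hy
          simp only [hHs y hy, mul_zero])
      have h2 : ∫ y, ⟪fo L u y, e⟫_ℝ * ((1 / N) * H y) =
          (1 / N) * ∫ y, ⟪fo L u y, e⟫_ℝ * H y := by
        rw [← integral_const_mul]
        refine integral_congr_ae (Eventually.of_forall fun y => ?_)
        simp only []
        ring
      rw [h2, ← hDv] at h1
      have h3 : N * (-CZ * Dv) ≤ N * ((1 / N) * ∫ y, ⟪fo L u y, e⟫_ℝ * H y) :=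
        mul_le_mul_of_nonneg_left h1 hN.le
      have h4 : N * ((1 / N) * ∫ y, ⟪fo L u y, e⟫_ℝ * H y) = ∫ y, ⟪fo L u y, e⟫_ℝ * H y := by
        field_simp
      rw [h4] at h3
      linarith
    · intro H N hN hH hHs
      have hm1 := (hm E (fo L u) hfc hfs R (by linarith) n e he 0 (ball 0 R0)
        measurableSet_ball).1 (fun y => (1 / N) * H y)
        (contDiff_const.mul hH.smooth)
        (fun y => by
          have := hH.norm_le y
          rw [Real.norm_eq_abs] at this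
          rw [abs_mul, abs_of_pos (by positivity : 0 < 1 / N), one_div, inv_mul_le_iff₀ hN, mul_one]
          exact this)
        (fun y => by
          have := (hH.const_mul (1 / N)).bd 2 le_rfl y
          refine this.trans (le_of_eq ?_)
          rw [abs_of_pos (by positivity)]; field_simp)
        (fun y hy => by
          rw [sub_zero] at hy
          simp only [hHs y (by linarith), mul_zero])
        (fun y z hy hzy => by
          have h1 : H y ≠ 0 := fun h => hy (by simp only [h, mul_zero])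
          have h2 : ‖y‖ < R0 - 1 := by
            by_contra h3
            exact h1 (hHs y (by linarith))
          rw [mem_ball_zero_iff]
          have := norm_le_norm_add_norm_sub' z y
          linarith)
      have h2 : ∫ y, ⟪fo L u y, e⟫_ℝ * ((1 / N) * H y) =
          (1 / N) * ∫ y, ⟪fo L u y, e⟫_ℝ * H y := by
        rw [← integral_const_mul]
        refine integral_congr_ae (Eventually.of_forall fun y => ?_)
        simp only []
        ring
      rw [h2, ← hDv, ← hav', abs_mul, abs_of_pos (by positivity : 0 < 1 / N)] at hm1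
      have h3 : N * ((1 / N) * |∫ y, ⟪fo L u y, e⟫_ℝ * H y|) ≤ N * (CM * (av + Dv)) :=
        mul_le_mul_of_nonneg_left hm1 hN.le
      have h4 : N * ((1 / N) * |∫ y, ⟪fo L u y, e⟫_ℝ * H y|) = |∫ y, ⟪fo L u y, e⟫_ℝ * H y| := by
        field_simp
      rw [h4] at h3
      linarith
  -- sizes
  rw [hbDv] at hbD
  rw [← hav, hbDv] at hmabD
  have hmx : 0 ≤ max 0 bv := le_max_left _ _
  have hsa : 0 < s * a := by positivity
  have hs2a : s ^ 2 * a ≤ s * a := by
    have : s ^ 2 ≤ s := by nlinarith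
    exact mul_le_mul_of_nonneg_right this ha.le
  have hbs : max 0 bv + Dv ≤ s * a := hbD.trans hs2a
  have hDs : Dv ≤ s * a := by linarith
  have hsaa : s * a ≤ a := by nlinarith
  obtain ⟨η, hη⟩ : ∃ η, η = (max 0 bv + Dv) + Real.sqrt (av * Dv) := ⟨_, rfl⟩
  have hηs : η ≤ 2 * (s * a) := by
    have h1 : Real.sqrt (av * Dv) ≤ s * a := by
      rw [Real.sqrt_le_left hsa.le]
      calc av * Dv ≤ av * (max 0 bv + Dv) := mul_le_mul_of_nonneg_left (by linarith) hav0
        _ ≤ s ^ 2 * a ^ 2 := hmabD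
        _ = (s * a) ^ 2 := by ring
    linarith
  have hη0 : 0 ≤ η := by
    rw [hη]; have := Real.sqrt_nonneg (av * Dv); linarith
  -- the sheet lemma
  have hflat' : Flat b ε R0 R κs (fo L u) n e ν c := by
    obtain ⟨f1, f2, f3⟩ := hflat
    refine ⟨f1, f2.trans (mul_le_mul_of_nonneg_right hsκ f1.le),
      f3.trans (mul_le_mul_of_nonneg_right hsκ (sq_nonneg _))⟩
  obtain ⟨l0, l1, hl0, hl1, hl1t, hT1, hT2⟩ := hS R hR n u hu e he ν c hν hc hflat' η
    (by rw [hη, hbDv, hav, hDv])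
  obtain ⟨Jsm, Jpoly⟩ := JJ_poly (by omega : 1 ≤ d) n0 hu ν (c • ν) (r := 1) one_pos
  -- cylinders
  have cylx : ∀ {ψ : Sp d → ℝ}, (∀ y, ψ y = ψ (tang ν y)) →
      (∀ y, ψ y ≠ 0 → ‖tang ν (y - x)‖ ≤ 2) → Cyl ν (R0 / 2) ψ := by
    intro ψ h1 h2
    refine ⟨h1, fun y hy => ?_⟩
    have h3 := h2 y hy
    have h5 : tang ν y = tang ν (y - x) + tang ν x := by rw [tang_sub]; abel
    rw [h5]
    refine (norm_add_le _ _).trans ?_
    have := tang_le hν x
    linarith
  have zc1 : ∀ y, zR 1 (tang ν (y - x)) = zR 1 (tang ν (tang ν y - x)) := by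
    intro y; rw [tang_sub, tang_sub, tang_tang hν]
  have zc2 : ∀ y, zR 1 (tang ν (y - x)) ≠ 0 → ‖tang ν (y - x)‖ ≤ 2 := by
    intro y hy
    have := sT_ne hy
    linarith
  -- tests of l1
  have T1 : ∀ (ψ : Sp d → ℝ) (N : ℝ), 0 < N → BF J' N ψ → (∀ y, ψ y = ψ (tang ν y)) →
      (∀ y, ψ y ≠ 0 → ‖tang ν (y - x)‖ ≤ 2) → ∀ w : Sp d, ‖w‖ = 1 → ⟪ν, w⟫_ℝ = 0 →
      |plInt ν c (fun y => ⟪l1 (JJ n0 ν (c • ν) 1 u y), w⟫_ℝ * ψ y)| ≤ A2 * N * (s * a) := by
    intro ψ N hN0 hψ h1 h2 w hw hνw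
    have cy := cylx h1 h2
    have cyY : Cyl ν (R0 / 2) (fun y => ψ y • w) := by
      refine ⟨fun y => by rw [← h1 y], fun y hy => cy.supp y fun h => hy (by simp only [h, zero_smul])⟩
    have cy0 : Cyl ν (R0 / 2) (fun _ : Sp d => (0 : ℝ)) := ⟨fun _ => rfl, fun y hy => absurd rfl hy⟩
    have hY := (hψ.smul_const w hw.le).le (J' := J) (by omega)
    have h0 : BF J N (fun _ : Sp d => (0 : ℝ)) := (BF.const (0 : ℝ)).mono (by rw [abs_zero]; exact hN0.le)
    have h3 := hT1 (fun _ => 0) (fun y => ψ y • w) N h0.tfn hY.tfn cy0 cyY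
      (fun y => by rw [inner_smul_right, hνw, mul_zero])
    have hdv : ∀ y, dv (fun y => ψ y • w) y = fderiv ℝ ψ y w := fun y =>
      dv_smul (J := 2) (hψ.le (by omega)) w y
    have hG : BF 2 N (fun y => fderiv ℝ ψ y w) := (hψ.le (J' := 3) (by omega)).fderiv_apply w hw.le
    have hGs : ∀ y, fderiv ℝ ψ y w ≠ 0 → ‖tang ν y‖ ≤ R0 / 2 := by
      intro y hy
      by_contra hlt
      push Not at hlt
      apply hy
      have hopen : ∀ᶠ z in 𝓝 y, ψ z = 0 := by
        have hc1 : Continuous fun z => ‖tang ν z‖ := by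
          have : (fun z => ‖tang ν z‖) = fun z => ‖tg ν z‖ := by funext z; rw [tg_apply]
          rw [this]; fun_prop
        filter_upwards [hc1.continuousAt.eventually (lt_mem_nhds hlt)] with z hz
        by_contra h
        have := cy.supp z h
        linarith
      have h4 : ψ =ᶠ[𝓝 y] fun _ => (0 : ℝ) := hopen
      rw [h4.fderiv_eq]
      simp
    set δ : ℝ := s * a / (av + a) with hδ
    have hava : 0 < av + a := by linarith
    have hδ0 : 0 < δ := by positivity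
    have hδ1 : δ ≤ 1 := by
      rw [hδ, div_le_one hava]; linarith
    have h5 := env.L1 hN0 hG hGs hδ0 hδ1
    have h6 : δ * (av + Dv) + (max 0 bv + Dv) / δ ≤ 3 * (s * a) := by
      have h7 : δ * (av + Dv) ≤ s * a := by
        calc δ * (av + Dv) ≤ δ * (av + a) := mul_le_mul_of_nonneg_left (by linarith) hδ0.le
          _ = s * a := by rw [hδ]; field_simp
      have h8 : (max 0 bv + Dv) / δ ≤ 2 * (s * a) := by
        rw [div_le_iff₀ hδ0]
        have h9 : 2 * (s * a) * δ = 2 * (s ^ 2 * a ^ 2) / (av + a) := by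
          rw [hδ]; field_simp
        rw [h9, le_div_iff₀ hava]
        have h10 : (max 0 bv + Dv) * a ≤ s ^ 2 * a * a := mul_le_mul_of_nonneg_right hbD ha.le
        nlinarith
      linarith
    have h7 : |∫ y, ⟪fo L u y, e⟫_ℝ * (cu1 4 (ht ν c y) * (ht ν c y * fderiv ℝ ψ y w))| ≤
        3 * A1 * N * (s * a) := by
      refine h5.trans ?_
      rw [← hA1]
      calc A1 * N * (δ * (av + Dv) + (max 0 bv + Dv) / δ) ≤ A1 * N * (3 * (s * a)) :=
            mul_le_mul_of_nonneg_left h6 (by positivity)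
        _ = _ := by ring
    have e1 : (∫ y, ⟪fo L u y, e⟫_ℝ * (cu1 4 (ht ν c y) *
        ((0 : ℝ) - ht ν c y * dv (fun y => ψ y • w) y))) =
        -∫ y, ⟪fo L u y, e⟫_ℝ * (cu1 4 (ht ν c y) * (ht ν c y * fderiv ℝ ψ y w)) := by
      rw [← integral_neg]
      refine integral_congr_ae (Eventually.of_forall fun y => ?_)
      simp only [hdv]
      ring
    have e2 : (fun y => l0 (JJ n0 ν (c • ν) 1 u y) * (0 : ℝ) +
        ⟪l1 (JJ n0 ν (c • ν) 1 u y), ψ y • w⟫_ℝ) =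
        fun y => ⟪l1 (JJ n0 ν (c • ν) 1 u y), w⟫_ℝ * ψ y := by
      funext y
      rw [inner_smul_right]; ring
    rw [e1, e2] at h3
    have h8 : Cs * N * η ≤ Cs * N * (2 * (s * a)) := mul_le_mul_of_nonneg_left hηs (by positivity)
    rw [abs_le] at h3 h7 ⊢
    have e4 : A2 * N * (s * a) = 3 * A1 * N * (s * a) + Cs * N * (2 * (s * a)) := by
      rw [hA2]; ring
    rw [e4]
    obtain ⟨h31, h32⟩ := h3
    obtain ⟨h71, h72⟩ := h7
    constructor <;> linarith
  -- the pointwise bound of l1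
  have P1 : ‖l1 (JJ n0 ν (c • ν) 1 u x)‖ ≤ A3 * (s * a) := by
    by_cases hz0 : l1 (JJ n0 ν (c • ν) 1 u x) = 0
    · rw [hz0, norm_zero]; positivity
    · set v1 := l1 (JJ n0 ν (c • ν) 1 u x) with hv1
      have hv0 : 0 < ‖v1‖ := norm_pos_iff.2 hz0
      set w : Sp d := (1 / ‖v1‖) • v1 with hw
      have hw1 : ‖w‖ = 1 := by
        rw [hw, norm_smul, Real.norm_of_nonneg (by positivity)]; field_simp
      have hνw : ⟪ν, w⟫_ℝ = 0 := by
        rw [hw, inner_smul_right, hv1, hl1t, mul_zero]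
      obtain ⟨Psm, Ppoly⟩ := comp_poly (((innerSL ℝ w).comp l1)) Jsm Jpoly
      have eP : (fun y => ((innerSL ℝ w).comp l1) (JJ n0 ν (c • ν) 1 u y)) =
          fun y => ⟪l1 (JJ n0 ν (c • ν) 1 u y), w⟫_ℝ := by
        funext y
        simp only [ContinuousLinearMap.comp_apply, innerSL_apply_apply]
        exact real_inner_comm _ _
      rw [eP] at Psm Ppoly
      have h1 := hN ν x c hν (fun y => ⟪l1 (JJ n0 ν (c • ν) 1 u y), w⟫_ℝ) Psm Ppoly (A2 * 1 * (s * a))
        (by positivity)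
        (fun ψ hψ hψ1 hψ2 hψ0 => by
          have := T1 ψ 1 one_pos (bf_of hψ) hψ1 hψ2 w hw1 hνw
          exact (abs_le.1 this).1)
        0 1 x hx (by rw [sub_self, show tang ν (0 : Sp d) = 0 by simp [tang], norm_zero]; norm_num)
      have e3 : (fun y => ⟪l1 (JJ n0 ν (c • ν) 1 u y), w⟫_ℝ * (zR (2 - 1) (tang ν (y - x)) *
          (⟪(0 : Sp d), tang ν (y - x)⟫_ℝ + 1) ^ 2)) =
          fun y => ⟪l1 (JJ n0 ν (c • ν) 1 u y), w⟫_ℝ * zR 1 (tang ν (y - x)) := by
        funext y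
        rw [inner_zero_left]; norm_num
      rw [e3] at h1
      have h2 := T1 (fun y => zR 1 (tang ν (y - x))) K hK0 k6 zc1 zc2 w hw1 hνw
      have h3 : ‖tang ν (0 : Sp d)‖ ^ 2 + (1 : ℝ) ^ 2 = 1 := by simp [tang]
      rw [h3] at h1
      have h4 : ⟪l1 (JJ n0 ν (c • ν) 1 u x), w⟫_ℝ = ‖v1‖ := by
        rw [← hv1, hw, inner_smul_right, real_inner_self_eq_norm_sq]; field_simp
      rw [h4, abs_of_pos hv0] at h1
      have h5 := (abs_le.1 h2).2
      rw [hA3]
      have e5 : A2 * (K + Cn) * (s * a) = A2 * K * (s * a) + Cn * (A2 * 1 * (s * a)) * 1 := by ring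
      have h6 : cn * ‖v1‖ ≤ A2 * (K + Cn) * (s * a) := by
        rw [e5]; linarith
      rw [div_mul_eq_mul_div, le_div_iff₀ hcn]
      linarith
  -- the tests of l0
  have T0 : ∀ (ψ : Sp d → ℝ) (N : ℝ), 0 < N → BF J' N ψ → (∀ y, ψ y = ψ (tang ν y)) →
      (∀ y, ψ y ≠ 0 → ‖tang ν (y - x)‖ ≤ 2) →
      |(∫ y, ⟪fo L u y, e⟫_ℝ * (cu1 4 (ht ν c y) * ψ y)) -
        plInt ν c (fun y => l0 (JJ n0 ν (c • ν) 1 u y) * ψ y)| ≤ Cs * N * (2 * (s * a)) := by
    intro ψ N hN0 hψ h1 h2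
    have cy := cylx h1 h2
    have cy0 : Cyl ν (R0 / 2) (fun _ : Sp d => (0 : Sp d)) := ⟨fun _ => rfl, fun y hy => absurd rfl hy⟩
    have h0 : BF J N (fun _ : Sp d => (0 : Sp d)) := by
      have := ((BF.const (J := J) (G := Sp d) (0 : ℝ)).mono
        (by rw [abs_zero]; exact hN0.le : |(0 : ℝ)| ≤ N)).smul_const (0 : Sp d) (by simp)
      simpa using this
    have h3 := hT1 ψ (fun _ => 0) N (hψ.le (by omega)).tfn h0.tfn cy cy0
      (fun y => inner_zero_right _)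
    have hdv : ∀ y, dv (fun _ : Sp d => (0 : Sp d)) y = 0 := by
      intro y; simp [dv]
    have e1 : (∫ y, ⟪fo L u y, e⟫_ℝ * (cu1 4 (ht ν c y) *
        (ψ y - ht ν c y * dv (fun _ : Sp d => (0 : Sp d)) y))) =
        ∫ y, ⟪fo L u y, e⟫_ℝ * (cu1 4 (ht ν c y) * ψ y) := by
      refine integral_congr_ae (Eventually.of_forall fun y => ?_)
      simp only [hdv]
      ring
    have e2 : (fun y => l0 (JJ n0 ν (c • ν) 1 u y) * ψ y +
        ⟪l1 (JJ n0 ν (c • ν) 1 u y), (0 : Sp d)⟫_ℝ) =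
        fun y => l0 (JJ n0 ν (c • ν) 1 u y) * ψ y := by
      funext y
      rw [inner_zero_right, add_zero]
    rw [e1, e2] at h3
    exact h3.trans (mul_le_mul_of_nonneg_left hηs (by positivity))
  -- the pointwise bound of l0
  have P0 : cn * |l0 (JJ n0 ν (c • ν) 1 u x)| ≤
      (∫ y, ⟪fo L u y, e⟫_ℝ * zR 1 (y - x)) + A6 * (s * a) := by
    obtain ⟨Psm, Ppoly⟩ := comp_poly l0 Jsm Jpoly
    have h1 := hN ν x c hν (fun y => l0 (JJ n0 ν (c • ν) 1 u y)) Psm Ppoly (A4 * (s * a))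
      (by positivity)
      (fun ψ hψ hψ1 hψ2 hψ0 => by
        have t1 := (abs_le.1 (T0 ψ 1 one_pos (bf_of hψ) hψ1 hψ2)).2
        have t2 := env.L2 one_pos ((bf_of hψ).le (by omega)) hψ0 (cylx hψ1 hψ2).supp
        have t3 : CZ * (4 * K * 1) * Dv ≤ CZ * (4 * K * 1) * (s * a) :=
          mul_le_mul_of_nonneg_left hDs (by positivity)
        rw [hA4]
        linarith)
      0 1 x hx (by rw [sub_self, show tang ν (0 : Sp d) = 0 by simp [tang], norm_zero]; norm_num)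
    have e3 : (fun y => l0 (JJ n0 ν (c • ν) 1 u y) * (zR (2 - 1) (tang ν (y - x)) *
        (⟪(0 : Sp d), tang ν (y - x)⟫_ℝ + 1) ^ 2)) =
        fun y => l0 (JJ n0 ν (c • ν) 1 u y) * zR 1 (tang ν (y - x)) := by
      funext y
      rw [inner_zero_left]; norm_num
    rw [e3] at h1
    have h3 : ‖tang ν (0 : Sp d)‖ ^ 2 + (1 : ℝ) ^ 2 = 1 := by simp [tang]
    rw [h3] at h1
    have t1 := (abs_le.1 (T0 (fun y => zR 1 (tang ν (y - x))) K hK0 k6 zc1 zc2)).1
    have t2 := env.L3 hLp hlip hx hxR k5 k7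
    rw [← hA5] at t2
    have t3 : A5 * (max 0 bv + Dv) ≤ A5 * (s * a) := mul_le_mul_of_nonneg_left hbs pA5.le
    rw [hA6]
    linarith
  -- conclusion
  have hx0 : ‖x‖ ≤ R0 := by linarith
  exact final_alg hcn hCs hs0 hA7 hs7 ha P0 P1 hηs (haJ.trans (hT2 x hx hx0))

end

end TG
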