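import Pool.Agent.TG.Stmts3
import Pool.Agent.TG.SS1

/-!
# Trace inequality, general operators: module SS (the sheet lemma as the structure Sheet)
-/

open MeasureTheory Metric Set TrI
open scoped InnerProductSpace ContDiff

namespace TG

noncomputable section

variable {d : ℕ}

namespace SS

/-- Taylor polynomial at the plane -/
def tp (ν : Sp d) (c : ℝ) (ζ : Sp d → ℝ) (y : Sp d) : ℝ :=
  ζ (pj ν c y) + ht ν c y * fderiv ℝ ζ (pj ν c y) ν

/-- the remainder -/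
def rem (ν : Sp d) (c : ℝ) (ζ : Sp d → ℝ) (y : Sp d) : ℝ :=
  ζ y - cu1 1 (ht ν c y) * tp ν c ζ y

lemma tp_bd {ν : Sp d} (hν : ‖ν‖ = 1) (c : ℝ) {N2 : ℝ} {ζ : Sp d → ℝ} (hζ : ContDiff ℝ 2 ζ)
    (hN2 : ∀ y, ‖iteratedFDeriv ℝ 2 ζ y‖ ≤ N2) (y : Sp d) :
    |ζ y - tp ν c ζ y| ≤ N2 * ht ν c y ^ 2 := by
  have h1 := taylor hζ hN2 (pj ν c y) y
  have h2 : y - pj ν c y = ht ν c y • ν := by
    conv_lhs => rw [pj_eq ν c y]
    have h3 : pj ν c (pj ν c y + ht ν c y • ν) = pj ν c y := by rw [← pj_eq]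
    rw [h3]
    abel
  rw [h2, map_smul, norm_smul, hν, mul_one, Real.norm_eq_abs, sq_abs, smul_eq_mul] at h1
  unfold tp
  rw [← sub_sub]
  exact h1

lemma tp_zero {ν : Sp d} {c ρ : ℝ} {ζ : Sp d → ℝ} (hs : ∀ y, ρ ≤ ‖y‖ → ζ y = 0) {y : Sp d}
    (hy : ρ < ‖pj ν c y‖) : tp ν c ζ y = 0 := by
  have h1 : fderiv ℝ ζ (pj ν c y) = 0 := by
    have := ev_zero (fun y hy => hs y hy.le) hy 1
    rw [← norm_eq_zero, norm_iteratedFDeriv_one, norm_eq_zero] at this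
    exact this
  unfold tp
  rw [hs _ hy.le, h1]
  simp

lemma rem_bd {ν : Sp d} (hν : ‖ν‖ = 1) {c N N2 ρ R0 : ℝ} {ζ : Sp d → ℝ} (hζ : ContDiff ℝ 2 ζ)
    (hρR : ρ ≤ R0) (hs : ∀ y, ρ ≤ ‖y‖ → ζ y = 0)
    (hN2 : ∀ y, ‖iteratedFDeriv ℝ 2 ζ y‖ ≤ N2)
    (h0 : ∀ y, |ζ (pj ν c y)| ≤ N) (h1 : ∀ y, |fderiv ℝ ζ (pj ν c y) ν| ≤ N) (y : Sp d) :
    |rem ν c ζ y| ≤
      N2 * (zR (ρ + 1) y * ht ν c y ^ 2) + 2 * N * (zR R0 y * ht ν c y ^ 2) := by
  have hN : 0 ≤ N := (abs_nonneg _).trans (h0 0)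
  have hN20 : 0 ≤ N2 := (norm_nonneg _).trans (hN2 0)
  have hT := tp_bd hν c hζ hN2 y
  have hz0 := TU.zR_nonneg (ρ + 1) y
  have hz0' := TU.zR_nonneg R0 y
  have hc0 := cu1_nonneg 1 (ht ν c y)
  have hc1 := cu1_le_one 1 (ht ν c y)
  rcases lt_or_ge ‖y‖ ρ with hy | hy
  · rw [TU.zR_one (by linarith : ‖y‖ ≤ ρ + 1), TU.zR_one (by linarith : ‖y‖ ≤ R0)]
    have h2 : rem ν c ζ y = (ζ y - tp ν c ζ y) + (1 - cu1 1 (ht ν c y)) * tp ν c ζ y := by
      unfold rem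
      ring
    have h3 : |(1 - cu1 1 (ht ν c y)) * tp ν c ζ y| ≤ 2 * N * ht ν c y ^ 2 := by
      rcases le_total |ht ν c y| 1 with hw | hw
      · rw [cu1_one hw]
        simp only [sub_self, zero_mul, abs_zero]
        positivity
      · have h4 : |tp ν c ζ y| ≤ 2 * N * ht ν c y ^ 2 := by
          have h5 : |tp ν c ζ y| ≤ N + |ht ν c y| * N := by
            unfold tp
            refine (abs_add_le _ _).trans (add_le_add (h0 y) ?_)
            rw [abs_mul]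
            exact mul_le_mul_of_nonneg_left (h1 y) (abs_nonneg _)
          have h6 : |ht ν c y| ≤ ht ν c y ^ 2 := by
            rw [← sq_abs]
            nlinarith
          have h7 : 1 ≤ ht ν c y ^ 2 := hw.trans h6
          nlinarith
        rw [abs_mul]
        have h8 : |1 - cu1 1 (ht ν c y)| ≤ 1 := by
          rw [abs_of_nonneg (by linarith)]
          linarith
        exact (mul_le_of_le_one_left (abs_nonneg _) h8).trans h4
    rw [h2]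
    refine (abs_add_le _ _).trans ?_
    simp only [one_mul]
    exact add_le_add hT h3
  · have hy0 := hs y hy
    have h2 : rem ν c ζ y = -(cu1 1 (ht ν c y) * tp ν c ζ y) := by
      unfold rem
      rw [hy0, zero_sub]
    rw [h2, abs_neg, abs_mul, abs_of_nonneg hc0]
    have h9 : 0 ≤ 2 * N * (zR R0 y * ht ν c y ^ 2) := by positivity
    by_cases hq : tp ν c ζ y = 0
    · rw [hq, abs_zero, mul_zero]
      positivity
    · have h3 : ‖pj ν c y‖ ≤ ρ := by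
        by_contra h
        exact hq (tp_zero hs (not_le.1 h))
      have h4 : ‖y‖ ≤ ρ + |ht ν c y| := (norm_le_pj hν c y).trans (by linarith)
      have h5 : cu1 1 (ht ν c y) ≤ zR (ρ + 1) y := by
        unfold cu1 zR
        exact Real.smoothTransition.monotone (by linarith)
      rw [hy0, zero_sub, abs_neg] at hT
      have h6 : cu1 1 (ht ν c y) * |tp ν c ζ y| ≤ zR (ρ + 1) y * (N2 * ht ν c y ^ 2) :=
        mul_le_mul h5 hT (abs_nonneg _) hz0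
      calc cu1 1 (ht ν c y) * |tp ν c ζ y| ≤ zR (ρ + 1) y * (N2 * ht ν c y ^ 2) := h6
        _ = N2 * (zR (ρ + 1) y * ht ν c y ^ 2) := by ring
        _ ≤ _ := by linarith

lemma rem_zero {ν : Sp d} (hν : ‖ν‖ = 1) {c ρ : ℝ} {ζ : Sp d → ℝ}
    (hs : ∀ y, ρ ≤ ‖y‖ → ζ y = 0) {y : Sp d} (hy : ρ + 2 ≤ ‖y‖) : rem ν c ζ y = 0 := by
  unfold rem
  rw [hs y (by linarith), zero_sub, neg_eq_zero]
  by_cases hq : tp ν c ζ y = 0
  · rw [hq, mul_zero]
  · have h3 : ‖pj ν c y‖ ≤ ρ := by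
      by_contra h
      exact hq (tp_zero hs (not_le.1 h))
    have h4 : ‖y‖ ≤ ρ + |ht ν c y| := (norm_le_pj hν c y).trans (by linarith)
    rw [cu1_zero (by linarith), zero_mul]

/-- constants for the cut-offs -/
lemma consts (d : ℕ) : ∃ C : ℝ, 0 < C ∧ ∀ (ν : Sp d) (c : ℝ), ‖ν‖ = 1 →
    TFn 2 C (fun y => cu1 1 (ht ν c y)) ∧ TFn 2 C (fun y => ht ν c y * cu1 1 (ht ν c y)) := by
  obtain ⟨C0, h0, h1⟩ := TFn_comp_ht (d := d) cu1_smooth cu1_cs
  obtain ⟨C1, h2, h3⟩ := TFn_comp_ht (d := d) (φ := fun z => z * cu1 1 z)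
    (contDiff_id.mul cu1_smooth) cu1_cs.mul_left
  exact ⟨C0 + C1, by positivity, fun ν c hν =>
    ⟨TU.TFn_mono (h1 ν c hν) le_rfl (by linarith), TU.TFn_mono (h3 ν c hν) le_rfl (by linarith)⟩⟩

lemma rem_TFn {C : ℝ} {ν : Sp d} (hν : ‖ν‖ = 1) {c N N2 ρ R0 : ℝ} {ζ : Sp d → ℝ}
    (hC1 : TFn 2 C (fun y => cu1 1 (ht ν c y)))
    (hC2 : TFn 2 C (fun y => ht ν c y * cu1 1 (ht ν c y)))
    (hζ : ContDiff ℝ 2 ζ) (hρ : 0 ≤ ρ)
    (hρR : ρ ≤ R0) (hs : ∀ y, ρ ≤ ‖y‖ → ζ y = 0)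
    (hN2 : ∀ y, ‖iteratedFDeriv ℝ 2 ζ y‖ ≤ N2)
    (h0 : TFn 2 N (fun y => ζ (pj ν c y))) (h1 : TFn 2 N (fun y => fderiv ℝ ζ (pj ν c y) ν)) :
    TFn 2 (((2 * R0 + 1) ^ 2 + 8 * C) * (N + N2)) (rem ν c ζ) := by
  have hN : 0 ≤ N := TU.TFn_nonneg h0
  have hC : 0 ≤ C := TU.TFn_nonneg hC1
  have hN20 : 0 ≤ N2 := (norm_nonneg _).trans (hN2 0)
  have h2 := TU.TFn_sub (TFn_of_d2 hζ hρ hρR hN2 hs hν)
    (TU.TFn_add (TU.TFn_mul hC1 h0) (TU.TFn_mul hC2 h1))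
  have h3 : rem ν c ζ = fun y => ζ y - (cu1 1 (ht ν c y) * ζ (pj ν c y) +
      ht ν c y * cu1 1 (ht ν c y) * fderiv ℝ ζ (pj ν c y) ν) := by
    funext y
    unfold rem tp
    ring
  rw [h3]
  refine TU.TFn_mono h2 le_rfl ?_
  have h4 : 0 ≤ (2 * R0 + 1) ^ 2 * N := by positivity
  have h5 : 0 ≤ C * N2 := by positivity
  nlinarith

section Main

variable {E : Type} [NormedAddCommGroup E] [InnerProductSpace ℝ E]

lemma integrable_m {f : Sp d → E} (hf : Continuous f) (hfc : HasCompactSupport f) (e : E)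
    {g : Sp d → ℝ} (hg : Continuous g) : Integrable (fun y => ⟪f y, e⟫_ℝ * g y) := by
  refine Continuous.integrable_of_hasCompactSupport ((hf.inner continuous_const).mul hg) ?_
  have h1 : HasCompactSupport (fun y => ⟪f y, e⟫_ℝ) :=
    hfc.comp_left (g := fun v : E => ⟪v, e⟫_ℝ) (by simp)
  exact h1.mul_right

end Main

/-- the integral of the remainder -/
theorem rem_int (hZ : StmtZ) (hd : 1 ≤ d) {M c0 ε : ℝ} (hε : 0 < ε) (hε1 : ε ≤ 1)
    {b : Sp d → ℝ} (hb : BaseKer 2 M c0 b) {R0 : ℝ} (hR0 : 1 ≤ R0) : ∃ C : ℝ, 0 < C ∧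
    ∀ (E : Type) [NormedAddCommGroup E] [InnerProductSpace ℝ E] [FiniteDimensional ℝ E],
    ∀ f : Sp d → E, Continuous f → HasCompactSupport f → ∀ (R : ℝ), 4 * R0 + 10 ≤ R →
    ∀ (n : ℕ) (e : E), ‖e‖ = 1 → ∀ (ν : Sp d) (c : ℝ), ‖ν‖ = 1 → |c| ≤ R0 + 4 →
    ∀ (ζ : Sp d → ℝ) (ρ N N2 : ℝ), ContDiff ℝ 2 ζ → 0 ≤ ρ → ρ ≤ R0 →
      (∀ y, ρ ≤ ‖y‖ → ζ y = 0) → (∀ y, ‖iteratedFDeriv ℝ 2 ζ y‖ ≤ N2) →
      TFn 2 N (fun y => ζ (pj ν c y)) → TFn 2 N (fun y => fderiv ℝ ζ (pj ν c y) ν) →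
      |∫ y, ⟪f y, e⟫_ℝ * rem ν c ζ y| ≤ N2 * blc ν c (fun y => ⟪f y, e⟫_ℝ) (ρ + 1) +
        2 * N * blc ν c (fun y => ⟪f y, e⟫_ℝ) R0 +
        C * ((N + N2) * DD b ε R ((1 / 2) ^ n) f n 0 e) := by
  obtain ⟨CZ, hCZ, hz⟩ := TU.Z' hZ hd hε hε1 hb
  obtain ⟨Cc, hCc, hcc⟩ := consts d
  obtain ⟨Cr, hCr, hzR⟩ := TFn_zR (d := d) (R0 + 2)
  set G : ℝ := 4 ^ 2 * Cr * max 1 (R0 + 3 + (R0 + 4)) ^ 2 with hG
  have hG0 : 0 < G := by positivity
  refine ⟨CZ * (3 * G + ((2 * R0 + 1) ^ 2 + 8 * Cc)), by positivity, ?_⟩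
  intro E _ _ _ f hf hfc R hR n e he ν c hν hc ζ ρ N N2 hζ hρ hρR hs hN2 h0 h1
  obtain ⟨hc1, hc2⟩ := hcc ν c hν
  have hN : 0 ≤ N := TU.TFn_nonneg h0
  have hN20 : 0 ≤ N2 := (norm_nonneg _).trans (hN2 0)
  have hr := rem_TFn hν hc1 hc2 hζ hρ hρR hs hN2 h0 h1
  have hpt := rem_bd (N := N) hν hζ hρR hs hN2 (fun y => by
    have := TU.TFn_norm h0 y
    rwa [Real.norm_eq_abs] at this) (fun y => by
    have := TU.TFn_norm h1 y
    rwa [Real.norm_eq_abs] at this)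
  have hg1 : TFn 2 G (fun y => zR (ρ + 1) y * ht ν c y ^ 2) :=
    TU.TFn_ht_sq (ρ := R0 + 3) (hzR (ρ + 1) (by linarith) (by linarith))
      (fun y hy => TU.zR_zero (by linarith)) hν hc
  have hg2 : TFn 2 G (fun y => zR R0 y * ht ν c y ^ 2) :=
    TU.TFn_ht_sq (ρ := R0 + 3) (hzR R0 hR0 (by linarith))
      (fun y hy => TU.zR_zero (by linarith)) hν hc
  have hDD := TU.DD_nonneg b ε R (by positivity : (0 : ℝ) < (1 / 2) ^ n) f n 0 he
  set K : ℝ := (2 * R0 + 1) ^ 2 + 8 * Cc with hK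
  set m : Sp d → ℝ := fun y => ⟪f y, e⟫_ℝ with hm
  set X : ℝ := DD b ε R ((1 / 2) ^ n) f n 0 e with hX
  have hgs := TU.TFn_add (TU.TFn_const_mul hg1 N2) (TU.TFn_const_mul hg2 (2 * N))
  rw [abs_of_nonneg hN20, abs_of_nonneg (by positivity : (0 : ℝ) ≤ 2 * N)] at hgs
  have hgint : ∀ g : Sp d → ℝ, Continuous g → Integrable (fun y => m y * g y) :=
    fun g hg => integrable_m hf hfc e hg
  have hi1 := hgint _ hg1.smooth.continuous
  have hi2 := hgint _ hg2.smooth.continuous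
  have hi3 := hgint _ hr.smooth.continuous
  have hnorm : N2 * G + 2 * N * G + K * (N + N2) ≤ (3 * G + K) * (N + N2) := by
    have : 0 ≤ G * N := by positivity
    have : 0 ≤ G * N2 := by positivity
    nlinarith
  have hbl1 : ∫ y, m y * (zR (ρ + 1) y * ht ν c y ^ 2) = blc ν c m (ρ + 1) := rfl
  have hbl2 : ∫ y, m y * (zR R0 y * ht ν c y ^ 2) = blc ν c m R0 := rfl
  have hsum : ∀ σ : ℝ, ∫ y, m y * (N2 * (zR (ρ + 1) y * ht ν c y ^ 2) +
      2 * N * (zR R0 y * ht ν c y ^ 2) + σ * rem ν c ζ y) =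
      N2 * blc ν c m (ρ + 1) + 2 * N * blc ν c m R0 + σ * ∫ y, m y * rem ν c ζ y := by
    intro σ
    have e1 : (fun y => m y * (N2 * (zR (ρ + 1) y * ht ν c y ^ 2) +
        2 * N * (zR R0 y * ht ν c y ^ 2) + σ * rem ν c ζ y)) =
        fun y => (N2 * (m y * (zR (ρ + 1) y * ht ν c y ^ 2)) +
          2 * N * (m y * (zR R0 y * ht ν c y ^ 2))) + σ * (m y * rem ν c ζ y) := by
      funext y
      ring
    have hi12 : Integrable (fun y => N2 * (m y * (zR (ρ + 1) y * ht ν c y ^ 2)) +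
        2 * N * (m y * (zR R0 y * ht ν c y ^ 2))) := (hi1.const_mul _).add (hi2.const_mul _)
    rw [e1, integral_add hi12 (hi3.const_mul _), integral_add (hi1.const_mul _) (hi2.const_mul _),
      integral_const_mul, integral_const_mul, integral_const_mul, hbl1, hbl2]
  have key : ∀ σ : ℝ, |σ| = 1 → -(CZ * (3 * G + K) * ((N + N2) * X)) ≤
      N2 * blc ν c m (ρ + 1) + 2 * N * blc ν c m R0 + σ * ∫ y, m y * rem ν c ζ y := by
    intro σ hσ
    have h2 := TU.TFn_mono (TU.TFn_add hgs (TU.TFn_const_mul hr σ)) le_rfl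
      (show N2 * G + 2 * N * G + |σ| * (K * (N + N2)) ≤ (3 * G + K) * (N + N2) by
        rw [hσ, one_mul]; exact hnorm)
    have h3 := hz E f hf hfc R (by linarith) n e he 0 _ _ h2 (fun y => by
      have h4 := hpt y
      have h5 : -|rem ν c ζ y| ≤ σ * rem ν c ζ y := by
        have := neg_abs_le (σ * rem ν c ζ y)
        rwa [abs_mul, hσ, one_mul] at this
      linarith) (fun y hy => by
      rw [sub_zero] at hy
      rw [TU.zR_zero (by linarith), TU.zR_zero (by linarith), rem_zero hν hs (by linarith)]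
      ring)
    rw [hsum σ] at h3
    refine le_trans (le_of_eq ?_) h3
    ring
  have k1 := key 1 (by norm_num)
  have k2 := key (-1) (by norm_num)
  rw [abs_le]
  constructor <;> linarith

/-- from the estimate for cylindrical test functions to the structure Sheet (used for SS and SAF) -/
theorem sheet_of_est (hZ : StmtZ) (hd : 1 ≤ d) {M c0 ε : ℝ} (hε : 0 < ε) (hε1 : ε ≤ 1)
    {b : Sp d → ℝ} (hb : BaseKer 2 M c0 b) {R0 : ℝ} (hR0 : 8 ≤ R0) : ∃ C : ℝ, 0 < C ∧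
    ∀ (E : Type) [NormedAddCommGroup E] [InnerProductSpace ℝ E] [FiniteDimensional ℝ E],
    ∀ f : Sp d → E, Continuous f → HasCompactSupport f → ∀ (R : ℝ), 4 * R0 + 10 ≤ R →
    ∀ (n : ℕ) (e : E), ‖e‖ = 1 → ∀ (J : ℕ) (ν : Sp d) (c a' ep X : ℝ), 2 ≤ J → ‖ν‖ = 1 →
      |c| ≤ R0 + 4 → 0 < a' → 0 ≤ ep → 0 ≤ X →
      blc ν c (fun y => ⟪f y, e⟫_ℝ) R0 ≤ X →
      (∀ (ζ0 ζ1 : Sp d → ℝ) (N : ℝ), TFn J N ζ0 → TFn J N ζ1 → Cyl ν (3 / 2 * R0) ζ0 →
        Cyl ν (3 / 2 * R0) ζ1 →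
        |(∫ y, ⟪f y, e⟫_ℝ * (cu1 1 (ht ν c y) * (ζ0 y + ht ν c y * ζ1 y))) -
          a' * plInt ν c ζ0| ≤ ep * N) →
      Sheet J R0 a' (ep + 2 * X) (C * DD b ε R ((1 / 2) ^ n) f n 0 e)
        (fun y => ⟪f y, e⟫_ℝ) ν c := by
  obtain ⟨C2, hC2, hr⟩ := rem_int hZ hd hε hε1 hb (R0 := R0) (by linarith)
  refine ⟨C2, hC2, ?_⟩
  intro E _ _ _ f hf hfc R hR n e he J ν' c' a' ep X hJ hν' hloc ha' hep hX hB1 h5
  refine ⟨hν', ha', by positivity, by linarith, ?_⟩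
  intro ζ ρ N N2 hζ hρ hρR hs hTB hN2
  have hN0 : 0 ≤ N := (abs_nonneg _).trans (hTB 0 (Nat.zero_le _) (fun _ => 0) (fun i => by simp)
    (fun i => by simp) (pj ν' c' 0) (inner_pj hν' c' 0)).1
  have hN20 : 0 ≤ N2 := (norm_nonneg _).trans (hN2 0)
  have hζ2 : ContDiff ℝ 2 ζ := hζ.of_le (by
    have : 2 ≤ J + 2 := by omega
    exact_mod_cast this)
  have hT0 : TFn J N (fun y => ζ (pj ν' c' y)) :=
    TFn_pj (hζ.of_le (by
      have : J ≤ J + 2 := by omega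
      exact_mod_cast this)) hν' hN0 (fun j hj h h1 h2 y hy => (hTB j hj h h1 h2 y hy).1)
  have hT1 : TFn J N (fun y => fderiv ℝ ζ (pj ν' c' y) ν') := by
    refine TFn_pj (g := fun y => fderiv ℝ ζ y ν') ?_ hν' hN0
      (fun j hj h h1 h2 y hy => (hTB j hj h h1 h2 y hy).2)
    have h6 : ContDiff ℝ J (fderiv ℝ ζ) := hζ.fderiv_right (by
      have : J + 1 ≤ J + 2 := by omega
      exact_mod_cast this)
    exact h6.clm_apply contDiff_const
  have htt : ∀ y, pj ν' c' y = pj ν' c' (tang ν' y) := fun y => by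
    unfold pj
    rw [tang_tang hν']
  have hC0 : Cyl ν' (3 / 2 * R0) (fun y => ζ (pj ν' c' y)) := by
    refine ⟨fun y => congrArg ζ (htt y), fun y hy => ?_⟩
    have h6 : ‖pj ν' c' y‖ < ρ := by
      by_contra hh
      exact hy (hs _ (not_lt.1 hh))
    linarith [norm_tang_pj hν' c' y]
  have hC1 : Cyl ν' (3 / 2 * R0) (fun y => fderiv ℝ ζ (pj ν' c' y) ν') := by
    refine ⟨fun y => congrArg (fun z => fderiv ℝ ζ z ν') (htt y), fun y hy => ?_⟩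
    have h6 : ‖pj ν' c' y‖ ≤ ρ := by
      by_contra hh
      have h7 := ev_zero (fun y hy => hs y hy.le) (not_le.1 hh) 1
      rw [← norm_eq_zero, norm_iteratedFDeriv_one, norm_eq_zero] at h7
      exact hy (by rw [h7]; simp)
    linarith [norm_tang_pj hν' c' y]
  have h6 := h5 _ _ N hT0 hT1 hC0 hC1
  have h7 : plInt ν' c' (fun y => ζ (pj ν' c' y)) = plInt ν' c' ζ := by
    unfold plInt
    congr 1
    funext y
    refine congrArg ζ (pj_of_mem ?_)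
    rw [inner_add_right, inner_smul_right, real_inner_self_eq_norm_sq, hν']
    have : ⟪ν', (y : Sp d)⟫_ℝ = 0 :=
      (Submodule.mem_orthogonal_singleton_iff_inner_right.1 y.2)
    rw [this]
    ring
  rw [h7] at h6
  have h8 := hr E f hf hfc R hR n e he ν' c' hν' hloc ζ ρ N N2 hζ2 hρ hρR hs
    hN2 (TU.TFn_mono hT0 hJ le_rfl) (TU.TFn_mono hT1 hJ le_rfl)
  have hrs : Continuous (rem ν' c' ζ) := by
    obtain ⟨Cc, hCc, hcc⟩ := consts d
    exact (rem_TFn hν' (hcc ν' c' hν').1 (hcc ν' c' hν').2 hζ2 hρ hρR hs hN2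
      (TU.TFn_mono hT0 hJ le_rfl) (TU.TFn_mono hT1 hJ le_rfl)).smooth.continuous
  have hi1 := integrable_m hf hfc e hrs
  have hi0 := integrable_m hf hfc e hζ2.continuous
  have h9 : (∫ y, ⟪f y, e⟫_ℝ * (cu1 1 (ht ν' c' y) *
      (ζ (pj ν' c' y) + ht ν' c' y * fderiv ℝ ζ (pj ν' c' y) ν'))) =
      (∫ y, ⟪f y, e⟫_ℝ * ζ y) - ∫ y, ⟪f y, e⟫_ℝ * rem ν' c' ζ y := by
    rw [← integral_sub hi0 hi1]
    congr 1
    funext y
    unfold rem tp
    ring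
  rw [h9] at h6
  have h10 : |(∫ y, ⟪f y, e⟫_ℝ * ζ y) - a' * plInt ν' c' ζ| ≤
      |(∫ y, ⟪f y, e⟫_ℝ * ζ y) - (∫ y, ⟪f y, e⟫_ℝ * rem ν' c' ζ y) -
        a' * plInt ν' c' ζ| + |∫ y, ⟪f y, e⟫_ℝ * rem ν' c' ζ y| := by
    refine le_trans (le_of_eq ?_) (abs_add_le _ _)
    congr 1
    ring
  have h11 : 2 * N * blc ν' c' (fun y => ⟪f y, e⟫_ℝ) R0 ≤ 2 * N * X :=
    mul_le_mul_of_nonneg_left hB1 (by positivity)
  nlinarith

end SS

theorem stmtSS (hSA : StmtSA) (hZ : StmtZ) : StmtSS := by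
  intro d V E _ _ _ _ _ _ L hd hL
  obtain ⟨J, hJ⟩ := hSA d V E L hd hL
  refine ⟨max J 2, ?_⟩
  intro M c0 ε hε hε1 b hb R0 γ K hR0 hγ hγ1 hK
  obtain ⟨C, κ, hC, hκ, h⟩ := hJ M c0 ε hε hε1 b hb R0 γ K hR0 hγ hγ1 hK
  have hdd : (2 : ℝ) ≤ d := by exact_mod_cast hd
  have hR01 : 200 ≤ R0 := by linarith
  obtain ⟨C2, hC2, hr⟩ := SS.sheet_of_est hZ (by omega : 1 ≤ d) hε hε1 hb (R0 := R0) (by linarith)
  refine ⟨3 * C + C2, min κ (1 / C), by positivity, by positivity, ?_⟩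
  intro R hR n u hu x e hT a ha haa hma ν c B D hν hc hB hbD hDD
  obtain ⟨ν', c', a', hν', h1, h2, h3, h4, h5⟩ := h R hR n u hu x e hT a ha haa hma ν c B D hν hc
    (hB.trans (mul_le_mul_of_nonneg_right (min_le_left _ _) ha.le)) hbD hDD
  have hB0 : 0 ≤ B := by simpa using hbD 0
  have hD0 : 0 ≤ D := by simpa using hDD 0
  have ha' : 0 < a' := by
    by_contra hh
    push Not at hh
    have := mul_nonpos_of_nonneg_of_nonpos hC.le hh
    linarith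
  have hle : C ≤ 3 * C + C2 := by linarith
  have hCB : C * B ≤ (3 * C + C2) * B := mul_le_mul_of_nonneg_right hle hB0
  refine ⟨ν', c', a', hν', h1.trans hCB, h2.trans (mul_le_mul_of_nonneg_right hle ha'.le),
    h3.trans (mul_le_mul_of_nonneg_right hle ha.le), fun I => (h4 I).trans hCB, ?_⟩
  have hloc : |c'| ≤ R0 + 4 := by
    have h6 : C * B ≤ a := by
      have h7 : B ≤ 1 / C * a := hB.trans (mul_le_mul_of_nonneg_right (min_le_right _ _) ha.le)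
      calc C * B ≤ C * (1 / C * a) := mul_le_mul_of_nonneg_left h7 hC.le
        _ = a := by field_simp
    have h8 : a * (c' - c) ^ 2 ≤ a * 1 := by
      have h9 : a * (c' - c) ^ 2 ≤ a * (‖ν' - ν‖ ^ 2 + (c' - c) ^ 2) :=
        mul_le_mul_of_nonneg_left (by linarith [sq_nonneg ‖ν' - ν‖]) ha.le
      linarith
    have h10 : (c' - c) ^ 2 ≤ 1 := le_of_mul_le_mul_left h8 ha
    have h11 : |c' - c| ≤ 1 := by
      rw [← sq_abs] at h10
      exact abs_le_one_iff_mul_self_le_one.2 (by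
        rw [← sq, ← sq_abs]
        exact h10)
    have h12 : |c'| ≤ |c' - c| + |c| := by
      have := abs_add_le (c' - c) c
      rwa [sub_add_cancel] at this
    linarith
  have hf : Continuous (fo L u) := by
    unfold fo
    exact L.continuous.comp (hu.smooth.continuous_fderiv (by simp))
  have hfc : HasCompactSupport (fo L u) := by
    unfold fo
    exact (hu.supp.fderiv (𝕜 := ℝ)).comp_left (map_zero L)
  have hlev : lev ((1 / 2 : ℝ) ^ n) n = 1 := by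
    unfold lev
    rw [← mul_pow]
    norm_num
  have hw0 : wq (1 / 2) 0 = 1 := by
    unfold wq
    simp
  have h7 := TU.DD_nonneg b ε R (by positivity : (0 : ℝ) < (1 / 2) ^ n) (fo L u) n 0 (hT.unit 0)
  have hD1 : DD b ε R ((1 / 2) ^ n) (fo L u) n 0 (e 0) ≤ D := by
    have := hDD 1
    rw [Finset.sum_range_one, hw0, one_mul, add_zero, hT.zero] at this
    exact this
  have hB1 : blc ν' c' (fun y => ⟪fo L u y, e 0⟫_ℝ) R0 ≤ C * B := by
    have h6 := h4 1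
    rw [Finset.sum_range_one, hw0, one_mul, add_zero, hT.zero] at h6
    have h8 : blc ν' c' (fun y => ⟪fo L u y, e 0⟫_ℝ) R0 =
        bb R0 ((1 / 2) ^ n) (fo L u) n 0 (e 0) ν' c' := by
      unfold blc bb
      rw [hlev]
      simp only [one_pow, div_one, sub_zero, one_smul, one_mul]
      rfl
    rw [h8]
    unfold bD at h6
    have h9 := le_max_right 0 (bb R0 ((1 / 2) ^ n) (fo L u) n 0 (e 0) ν' c')
    linarith
  have hsq := Real.sqrt_nonneg (a' * D)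
  have hS := hr E (fo L u) hf hfc R hR n (e 0) (hT.unit 0) (max J 2) ν' c' a'
    (C * (B + Real.sqrt (a' * D))) (C * B) (le_max_right _ _) hν' hloc ha' (by positivity)
    (by positivity) hB1 (fun ζ0 ζ1 N k0 k1 k2 k3 => by
      have h6 := h5 ζ0 ζ1 N (TU.TFn_mono k0 (le_max_left _ _) le_rfl)
        (TU.TFn_mono k1 (le_max_left _ _) le_rfl) k2 k3 1 le_rfl (by linarith)
      refine h6.trans (le_of_eq ?_)
      ring)
  refine ⟨hν', ha', by positivity, hS.loc, ?_⟩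
  intro ζ ρ N N2 hζ hρ hρR hs hTB hN2
  have hN0 : 0 ≤ N := (abs_nonneg _).trans (hTB 0 (Nat.zero_le _) (fun _ => 0) (fun i => by simp)
    (fun i => by simp) (SS.pj ν' c' 0) (SS.inner_pj hν' c' 0)).1
  have hN20 : 0 ≤ N2 := (norm_nonneg _).trans (hN2 0)
  have h8 := hS.est ζ ρ N N2 hζ hρ hρR hs hTB hN2
  have e1 : 0 ≤ C * N * Real.sqrt (a' * D) := by positivity
  have e2 : 0 ≤ C2 * N * B := by positivity
  have e3 : 0 ≤ C2 * N * Real.sqrt (a' * D) := by positivity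
  have e4 : 0 ≤ (N + N2) * (C * D) := by positivity
  have e5 : (N + N2) * (C2 * DD b ε R ((1 / 2) ^ n) (fo L u) n 0 (e 0)) ≤
      (N + N2) * (C2 * D) :=
    mul_le_mul_of_nonneg_left (mul_le_mul_of_nonneg_left hD1 hC2.le) (by positivity)
  nlinarith

end

end TG
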