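import Pool.Agent.TG.SS2
import Pool.Agent.TG.SAS

/-!
# Module SS: the sheet lemma as the structure Sheet, from module SAF (helper65)
-/

namespace TG

theorem sumsS (hZ : StmtZ) (hTW : StmtTW) (hSC : StmtSC) (hSD : StmtSD) : SS2.SumsS :=
  fun _ hd _ _ _ hε hε1 _ hb _ _ _ hR0 hγ hγ1 hK =>
    SAm.sums hZ hTW hSC hSD hd hε hε1 hb hR0 hγ hγ1 hK

theorem stmtSS_F (hSAF : StmtSAF) (hZ : StmtZ) (hMA : StmtMA) (hTW : StmtTW) (hSC : StmtSC)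
    (hSD : StmtSD) : StmtSS :=
  stmtSS_of_SAF hSAF hMA hTW hSC hSD (sumsS hZ hTW hSC hSD)

end TG
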