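import Pool.Agent.TG.STh9

/-!
# Module ST: the structure theorem (helper55)
-/

open MeasureTheory Metric Set TrI
open scoped InnerProductSpace ContDiff

namespace TG
namespace ST

noncomputable section

variable {d : ℕ}

section Approx

variable {Ω : Type} [MeasurableSpace Ω] {μ : Measure Ω} {w : Ω → ℝ} {h : Ω → Sp d} {ρ : ℝ}

/-- derivatives of averages of functions of finite smoothness -/
lemma GD.itD_go (hD : GD μ w h ρ) {g : Sp d → ℝ} (G : Cs d) (hG : G.f = go μ w h g) (j : ℕ) :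
    ContDiff ℝ j g → ∀ (m : Fin j → Sp d) (x : Sp d),
      (itD m G).f x = go μ w h (fun y => iteratedFDeriv ℝ j g y m) x := by
  induction j with
  | zero =>
    intro _ m x
    have h1 : itD m G = G := by simp [itD]
    rw [h1, hG]
    simp
  | succ n ih =>
    intro hg m x
    have hgn : ContDiff ℝ n g := hg.of_le (by norm_cast; omega)
    have h1 : itD m G = dd (m 0) (itD (fun i : Fin n => m i.succ) G) := by
      unfold itD
      rw [List.ofFn_succ, List.map_cons, List.prod_cons]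
      rfl
    have h2 : (itD (fun i : Fin n => m i.succ) G).f =
        go μ w h (fun y => iteratedFDeriv ℝ n g y (fun i : Fin n => m i.succ)) :=
      funext (ih hgn _)
    have hc1 : ContDiff ℝ 1 (iteratedFDeriv ℝ n g) := hg.iteratedFDeriv_right (by
      norm_cast
      omega)
    set ev := ContinuousMultilinearMap.apply ℝ (fun _ : Fin n => Sp d) ℝ (fun i : Fin n => m i.succ) with hev
    have hc2 : ContDiff ℝ 1 (fun y => iteratedFDeriv ℝ n g y (fun i : Fin n => m i.succ)) :=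
      ev.contDiff.comp hc1
    rw [h1, dd_apply, h2, (hD.fderiv hc2 x).fderiv]
    unfold go
    rw [ContinuousLinearMap.integral_apply (hD.integrable (hc2.continuous_fderiv (by simp)) x)]
    congr 1
    funext o
    change w o • (_root_.fderiv ℝ (fun y => iteratedFDeriv ℝ n g y (fun i : Fin n => m i.succ)) (x + h o)) (m 0) =
      w o • iteratedFDeriv ℝ (n + 1) g (x + h o) m
    rw [iteratedFDeriv_succ_apply_left]
    congr 1
    have hd : DifferentiableAt ℝ (iteratedFDeriv ℝ n g) (x + h o) := hc1.differentiable (by simp) _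
    have h3 : (fun y => iteratedFDeriv ℝ n g y (fun i : Fin n => m i.succ)) =
        fun y => ev (iteratedFDeriv ℝ n g y) := rfl
    rw [h3, fderiv_fun_comp (x + h o) ev.differentiableAt hd]
    simp
    rfl

/-- smooth approximation -/
lemma approx {J : ℕ} (hJ : 1 ≤ J) {N Rs : ℝ} {ζ : Sp d → ℝ} (hζ : TFn J N ζ)
    (hs : ∀ y, Rs ≤ ‖y‖ → ζ y = 0) {s : ℝ} (hs0 : 0 < s) (hs1 : s ≤ 1) :
    ∃ G : Cs d, (∀ j ≤ J, ∀ x, ‖iteratedFDeriv ℝ j G.f x‖ ≤ N) ∧ (∀ y, Rs + 1 ≤ ‖y‖ → G.f y = 0) ∧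
      ∀ x, |G.f x - ζ x| ≤ N * s := by
  let bp : ContDiffBump (0 : Sp d) := ⟨s / 2, s, by positivity, by linarith⟩
  set w : Sp d → ℝ := bp.normed volume with hw
  have hwc : ContDiff ℝ ∞ w := bp.contDiff_normed
  have hwcs : HasCompactSupport w := bp.hasCompactSupport_normed
  have hwi : ∫ y, w y = 1 := bp.integral_normed
  have hw0 : ∀ y, 0 ≤ w y := fun y => bp.nonneg_normed y
  have hws : ∀ y, w y ≠ 0 → ‖y‖ ≤ s := by
    intro y hy
    have h1 : y ∈ Function.support w := hy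
    rw [hw, bp.support_normed_eq, mem_ball, dist_zero_right] at h1
    exact h1.le
  have hD : GD (volume : Measure (Sp d)) w (fun t => -t) s :=
    ⟨hs0.le, hwc.continuous.integrable_of_hasCompactSupport hwcs, measurable_neg, fun y hy => by
      rw [norm_neg]; exact hws y hy⟩
  have hζc : Continuous ζ := hζ.smooth.continuous
  have hN0 : 0 ≤ N := (norm_nonneg _).trans (hζ.bd 0 (by omega) 0)
  have hcd : ContDiff ℝ ∞ (go volume w (fun t => -t) ζ) := by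
    have h1 := HasCompactSupport.contDiff_convolution_left (𝕜 := ℝ) (n := ⊤) (ContinuousLinearMap.lsmul ℝ ℝ)
      hwcs hwc (hζc.locallyIntegrable (μ := (volume : Measure (Sp d))))
    have h2 : (convolution w ζ (ContinuousLinearMap.lsmul ℝ ℝ) volume) = go volume w (fun t => -t) ζ := by
      funext x
      unfold convolution go
      congr 1
    rw [← h2]
    exact h1
  set G : Cs d := ⟨go volume w (fun t => -t) ζ, hcd⟩ with hG
  have habs : ∫ y, |w y| = 1 := by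
    rw [← hwi]
    congr 1
    funext y
    exact abs_of_nonneg (hw0 y)
  have hint : Integrable w := hwc.continuous.integrable_of_hasCompactSupport hwcs
  have hgo : ∀ (g : Sp d → ℝ) (x : Sp d) (K : ℝ), (∀ y, ‖y - x‖ ≤ s → |g y| ≤ K) →
      |go volume w (fun t => -t) g x| ≤ K := by
    intro g x K hK
    unfold go
    rw [← Real.norm_eq_abs]
    refine (norm_integral_le_integral_norm _).trans ?_
    have e1 : K = ∫ y, w y * K := by rw [integral_mul_const, hwi, one_mul]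
    rw [e1]
    apply integral_mono_of_nonneg (Filter.Eventually.of_forall (fun _ => norm_nonneg _))
      (hint.mul_const K)
    refine Filter.Eventually.of_forall (fun y => ?_)
    change ‖w y • g (x + -y)‖ ≤ w y * K
    rw [norm_smul, Real.norm_eq_abs, abs_of_nonneg (hw0 y), Real.norm_eq_abs]
    by_cases h0 : w y = 0
    · rw [h0]; simp
    · apply mul_le_mul_of_nonneg_left _ (hw0 y)
      apply hK
      rw [add_sub_cancel_left, norm_neg]
      exact hws y h0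
  refine ⟨G, ?_, ?_, ?_⟩
  · intro j hj x
    apply ContinuousMultilinearMap.opNorm_le_bound hN0
    intro m
    rw [← itD_apply, GD.itD_go hD G rfl j (hζ.smooth.of_le (by exact_mod_cast hj)) m x, Real.norm_eq_abs]
    apply hgo
    intro y _
    rw [← Real.norm_eq_abs]
    refine (ContinuousMultilinearMap.le_opNorm _ _).trans ?_
    exact mul_le_mul_of_nonneg_right (hζ.bd j hj y) (Finset.prod_nonneg (fun _ _ => norm_nonneg _))
  · intro y hy
    have h1 : |go volume w (fun t => -t) ζ y| ≤ 0 := by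
      apply hgo
      intro z hz
      rw [hs z, abs_zero]
      have h2 : ‖y‖ ≤ ‖z‖ + ‖z - y‖ := by
        calc ‖y‖ = ‖z - (z - y)‖ := by congr 1; abel
          _ ≤ _ := norm_sub_le _ _
      linarith
    exact abs_nonpos_iff.mp h1
  · intro x
    have h1 : G.f x - ζ x = go volume w (fun t => -t) (fun y => ζ y - ζ x) x := by
      change (∫ t, w t • ζ (x + -t)) - ζ x = ∫ t, w t • (ζ (x + -t) - ζ x)
      simp_rw [smul_sub]
      rw [integral_sub (hD.integrable hζc x)]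
      · simp only [smul_eq_mul]
        rw [integral_mul_const, hwi, one_mul]
      · simp only [smul_eq_mul]
        exact hint.mul_const _
    rw [h1]
    apply hgo
    intro y hy
    have h2 : ‖ζ y - ζ x‖ ≤ N * ‖y - x‖ := by
      apply Convex.norm_image_sub_le_of_norm_fderiv_le (s := univ) (𝕜 := ℝ)
        (fun z _ => hζ.smooth.differentiable (by
          have : (J : WithTop ℕ∞) ≠ 0 := by
            norm_cast
            omega
          exact this) z) _ convex_univ (mem_univ _) (mem_univ _)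
      intro z _
      rw [← norm_iteratedFDeriv_one]
      exact hζ.bd 1 hJ z
    rw [← Real.norm_eq_abs]
    refine h2.trans ?_
    exact mul_le_mul_of_nonneg_left hy hN0

end Approx

lemma plInt_go {ν : Sp d} (hν : ‖ν‖ = 1) (R0 : ℝ) {g : Sp d → ℝ}
    (hg : ∀ y, R0 ≤ ‖y‖ → g y = 0) (c : ℝ) :
    plInt ν c g = go (volume : Measure (Hn ν)) ((closedBall (0 : Hn ν) R0).indicator (fun _ => (1 : ℝ)))
      (fun y => (y : Sp d)) g (c • ν) := by
  change ∫ y : Hn ν, g (c • ν + (y : Sp d)) =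
    ∫ y : Hn ν, (closedBall (0 : Hn ν) R0).indicator (fun _ => (1 : ℝ)) y • g (c • ν + (y : Sp d))
  congr 1
  funext y
  by_cases hy : y ∈ closedBall (0 : Hn ν) R0
  · rw [indicator_of_mem hy, one_smul]
  · rw [indicator_of_notMem hy, zero_smul]
    rw [mem_closedBall, dist_zero_right, not_le] at hy
    exact hg _ (hy.le.trans (norm_ge hν _ y))

lemma plInt_cont {ν : Sp d} (hν : ‖ν‖ = 1) (R0 : ℝ) (hR0 : 0 ≤ R0) {g : Sp d → ℝ} (hgc : Continuous g)
    (hg : ∀ y, R0 ≤ ‖y‖ → g y = 0) : Continuous (fun y => plInt ν ⟪ν, y⟫_ℝ g) := by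
  simp_rw [plInt_go hν R0 hg]
  exact ((gdP ν R0 hR0).cont hgc).comp (by fun_prop)

lemma plInt_diff {ν : Sp d} (hν : ‖ν‖ = 1) (R0 : ℝ) {g g' : Sp d → ℝ} (hgc : Continuous g)
    (hgc' : Continuous g') (hg : ∀ y, R0 ≤ ‖y‖ → g y = 0) (hg' : ∀ y, R0 ≤ ‖y‖ → g' y = 0) {N : ℝ}
    (hN : ∀ y, |g y - g' y| ≤ N) (c : ℝ) :
    |plInt ν c g - plInt ν c g'| ≤ N * (volume (closedBall (0 : Hn ν) R0)).toReal := by
  have h1 : plInt ν c g - plInt ν c g' =
      ∫ z : Hn ν, (1 : ℝ) * (fun y => g y - g' y) (c • ν + (z : Sp d)) := by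
    have i1 := plane_int hν R0 (W := fun _ => (1 : ℝ)) continuous_const hgc hg c
    have i2 := plane_int hν R0 (W := fun _ => (1 : ℝ)) continuous_const hgc' hg' c
    simp only [one_mul] at i1 i2 ⊢
    exact (integral_sub i1 i2).symm
  rw [h1]
  have h2 := plane_bound hν R0 (W := fun _ => (1 : ℝ)) (M := 1) zero_le_one (fun _ _ => by simp)
    (g := fun y => g y - g' y) (fun y hy => by rw [hg y hy, hg' y hy, sub_zero]) hN c
  rw [one_mul] at h2
  exact h2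

section Fin

variable {V E : Type} [NormedAddCommGroup V] [InnerProductSpace ℝ V] [FiniteDimensional ℝ V]
  [NormedAddCommGroup E] [InnerProductSpace ℝ E] [FiniteDimensional ℝ E]

omit [FiniteDimensional ℝ V] [FiniteDimensional ℝ E] in
lemma Concl.mono {L : (Sp d →L[ℝ] V) →L[ℝ] E} {b : Sp d → ℝ} {ε K γ Rs ε' : ℝ} {J J' rm rm' : ℕ}
    {R1 R1' δ δ' : ℝ} {e : E} (h : Concl L b ε K γ Rs ε' J rm R1 δ e) (hJ : J ≤ J') (hrm : rm ≤ rm')
    (hR : R1 ≤ R1') (hδ : δ' ≤ δ) : Concl L b ε K γ Rs ε' J' rm' R1' δ' e := by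
  intro R' hR' n u hu a ha hgrow hDD
  obtain ⟨r, ν, κ, h0, h1, h2, h3, h4, h5, h6⟩ := h R' (hR.trans hR') n u hu a ha
    (fun ρ a1 a2 => hgrow ρ a1 (a2.trans hR)) (hDD.trans (mul_le_mul_of_nonneg_right hδ ha))
  exact ⟨r, ν, κ, h0.trans hrm, h1, h2, h3, fun i y hy => (h4 i y hy).trans (by linarith), h5,
    fun ζ N hN hζ => h6 ζ N (fun j hj => hN j (hj.trans hJ)) hζ⟩

/-- all directions, with tolerance function -/
theorem all_charts (hAL : StmtAL) (hMA : StmtMA) (hPE : StmtPE) (L : (Sp d →L[ℝ] V) →L[ℝ] E)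
    (hd : 2 ≤ d) (hL : CEll L) (M c ε : ℝ) (hε : 0 < ε) (hε1 : ε ≤ 1) (b : Sp d → ℝ)
    (hb : BaseKer 2 M c b) (γ K Rs : ℝ) (tol : ℕ → ℝ) (hγ0 : 0 < γ) (hγ : γ ≤ 1 / (8 * d))
    (hK : 0 < K) (hRs : 1 ≤ Rs) (htol : ∀ J, 0 < tol J) :
    ∃ (rm : ℕ) (R1 δ : ℝ), Rs + 3 ≤ R1 ∧ 0 < δ ∧
      ∀ e ∈ sphere (0 : E) 1, ∃ J, Concl L b ε K γ Rs (tol J) J rm R1 δ e := by
  apply IsCompact.induction_on (isCompact_sphere (0 : E) 1)
    (p := fun A => ∃ (rm : ℕ) (R1 δ : ℝ), Rs + 3 ≤ R1 ∧ 0 < δ ∧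
      ∀ e ∈ A, ∃ J, Concl L b ε K γ Rs (tol J) J rm R1 δ e)
  · exact ⟨0, Rs + 3, 1, le_rfl, one_pos, fun e he => absurd he (notMem_empty e)⟩
  · rintro s t hst ⟨rm, R1, δ, h1, h2, h3⟩
    exact ⟨rm, R1, δ, h1, h2, fun e he => h3 e (hst he)⟩
  · rintro s t ⟨rm, R1, δ, h1, h2, h3⟩ ⟨rm', R1', δ', h1', h2', h3'⟩
    refine ⟨max rm rm', max R1 R1', min δ δ', h1.trans (le_max_left _ _), lt_min h2 h2', ?_⟩
    rintro e (he | he)
    · obtain ⟨J, hJ⟩ := h3 e he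
      exact ⟨J, hJ.mono le_rfl (le_max_left _ _) (le_max_left _ _) (min_le_left _ _)⟩
    · obtain ⟨J, hJ⟩ := h3' e he
      exact ⟨J, hJ.mono le_rfl (le_max_right _ _) (le_max_right _ _) (min_le_right _ _)⟩
  · intro e0 he0
    rw [mem_sphere, dist_zero_right] at he0
    obtain ⟨J, rm, hJ⟩ := chart hAL hMA hPE L hd hL M c ε hε hε1 b hb γ K Rs hγ0 hγ hK hRs e0 he0
    obtain ⟨R1, δ, δ1, h1, h2, h3, h4⟩ := hJ (tol J) (htol J)
    refine ⟨closedBall e0 δ1 ∩ sphere (0 : E) 1, ?_, rm, R1, δ, h1, h2, ?_⟩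
    · exact Filter.inter_mem (mem_nhdsWithin_of_mem_nhds (closedBall_mem_nhds e0 h3)) self_mem_nhdsWithin
    · rintro e ⟨he1, he2⟩
      rw [mem_sphere, dist_zero_right] at he2
      rw [mem_closedBall, dist_eq_norm] at he1
      exact ⟨J, h4 e he2 he1⟩

omit [FiniteDimensional ℝ V] [FiniteDimensional ℝ E] in
/-- from smooth test functions to test functions of finite smoothness -/
theorem Concl.str {L : (Sp d →L[ℝ] V) →L[ℝ] E} {b : Sp d → ℝ} {ε K γ Rs ε' : ℝ} {J rm : ℕ}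
    {R1 δ : ℝ} {e : E} (hC : Concl L b ε K γ Rs ε' J rm R1 δ e) (hRs : 1 ≤ Rs)
    (n : ℕ) (u : Sp d → V) (hu : TF u) (a : ℝ) (ha : 0 ≤ a)
    (hgrow : ∀ ρ : ℝ, 1 ≤ ρ → ρ ≤ R1 →
      (∫ y in ball (0 : Sp d) ρ, ‖fl b ε ((1 / 2) ^ n) (fo L u) (n - 1) y‖) ≤
        K * ρ ^ ((d : ℝ) - 1 + γ) * a)
    (hDD : DD b ε R1 ((1 / 2) ^ n) (fo L u) n 0 e ≤ δ * a) :
    ∃ (r : ℕ) (ν : Fin r → Sp d) (κ : Fin r → Sp d → ℝ),
      r ≤ rm ∧ (∀ i, ‖ν i‖ = 1) ∧ (∀ i y, 0 ≤ κ i y) ∧ (∀ i, TFn 2 1 (κ i)) ∧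
      (∀ i y, κ i y ≠ 0 → ‖tang (ν i) y‖ ≤ R1 - Rs - 3) ∧
      (∀ i y, κ i y = κ i (tang (ν i) y)) ∧
      ∀ (ζ : Sp d → ℝ) (N : ℝ), TFn (J + 1) N ζ → (∀ y, Rs ≤ ‖y‖ → ζ y = 0) →
        |(∫ y, ⟪fo L u y, e⟫_ℝ * ζ y)
          - ∑ i, ∫ y, ⟪fo L u y, e⟫_ℝ * (κ i y * plInt (ν i) ⟪ν i, y⟫_ℝ ζ)| ≤ ε' * a * N := by
  obtain ⟨r, ν, κ, k0, k1, k2, k3, k4, k5, k6⟩ := hC R1 le_rfl n u hu a ha hgrow hDD
  refine ⟨r, ν, κ, k0, k1, k2, k3, k4, k5, ?_⟩
  intro ζ N hζ hζs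
  set f := fo L u with hf
  have hfc : Continuous f := fo_cont L hu
  have hfs : HasCompactSupport f := fo_cs L hu
  have hζc : Continuous ζ := hζ.smooth.continuous
  have hN0 : 0 ≤ N := (norm_nonneg _).trans (hζ.bd 0 (by omega) 0)
  have hκ1 : ∀ i y, |κ i y| ≤ 1 := fun i y => by
    have := (k3 i).bd 0 (by norm_num) y
    rwa [norm_iteratedFDeriv_zero, Real.norm_eq_abs] at this
  have hκc : ∀ i, Continuous (κ i) := fun i => (k3 i).smooth.continuous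
  have hmc : Continuous (fun y => ⟪f y, e⟫_ℝ) := hfc.inner continuous_const
  have hmcs : HasCompactSupport (fun y => ⟪f y, e⟫_ℝ) :=
    hfs.comp_left (g := fun v : E => ⟪v, e⟫_ℝ) (inner_zero_left _)
  set F1 : ℝ := ∫ y, |⟪f y, e⟫_ℝ| with hF1
  have hF10 : 0 ≤ F1 := integral_nonneg (fun _ => abs_nonneg _)
  set Vi : Fin r → ℝ := fun i => (volume (closedBall (0 : Hn (ν i)) (Rs + 1))).toReal with hVi
  have hVi0 : ∀ i, 0 ≤ Vi i := fun i => ENNReal.toReal_nonneg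
  have hm1 : Integrable (fun y => |⟪f y, e⟫_ℝ|) := hmc.abs.integrable_of_hasCompactSupport hmcs.abs
  -- integrals against bounded functions
  have hbd : ∀ (w : Sp d → ℝ) (K' : ℝ), Continuous w → (∀ y, |w y| ≤ K') →
      |∫ y, ⟪f y, e⟫_ℝ * w y| ≤ F1 * K' := by
    intro w K' hw hK'
    rw [← Real.norm_eq_abs]
    refine (norm_integral_le_integral_norm _).trans ?_
    rw [hF1, ← integral_mul_const]
    apply integral_mono_of_nonneg (Filter.Eventually.of_forall (fun _ => norm_nonneg _))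
      (hm1.mul_const K')
    refine Filter.Eventually.of_forall (fun y => ?_)
    change ‖⟪f y, e⟫_ℝ * w y‖ ≤ |⟪f y, e⟫_ℝ| * K'
    rw [norm_mul, Real.norm_eq_abs, Real.norm_eq_abs]
    exact mul_le_mul_of_nonneg_left (hK' y) (abs_nonneg _)
  have hint : ∀ {w : Sp d → ℝ}, Continuous w → Integrable (fun y => ⟪f y, e⟫_ℝ * w y) := by
    intro w hw
    exact (hmc.mul hw).integrable_of_hasCompactSupport hmcs.mul_right
  have hζs' : ∀ y, Rs + 1 ≤ ‖y‖ → ζ y = 0 := fun y hy => hζs y (by linarith)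
  have key : ∀ s : ℝ, 0 < s → s ≤ 1 →
      |(∫ y, ⟪f y, e⟫_ℝ * ζ y) - ∑ i, ∫ y, ⟪f y, e⟫_ℝ * (κ i y * plInt (ν i) ⟪ν i, y⟫_ℝ ζ)| ≤
        ε' * a * N + (F1 * N + ∑ i, F1 * (N * Vi i)) * s := by
    intro s hs0 hs1
    obtain ⟨G, hG1, hG2, hG3⟩ := approx (by omega) hζ hζs hs0 hs1
    have e1 := k6 G N (fun j hj => hG1 j (by omega)) hG2
    have e2 : |(∫ y, ⟪f y, e⟫_ℝ * ζ y) - ∫ y, ⟪f y, e⟫_ℝ * G.f y| ≤ F1 * (N * s) := by
      rw [← integral_sub (hint hζc) (hint G.cont)]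
      simp_rw [← mul_sub]
      apply hbd _ _ (hζc.sub G.cont)
      intro y
      change |ζ y - G.f y| ≤ N * s
      rw [abs_sub_comm]
      exact hG3 y
    have e3 : ∀ i, |(∫ y, ⟪f y, e⟫_ℝ * (κ i y * plInt (ν i) ⟪ν i, y⟫_ℝ ζ)) -
        ∫ y, ⟪f y, e⟫_ℝ * (κ i y * plInt (ν i) ⟪ν i, y⟫_ℝ G.f)| ≤ F1 * (N * s * Vi i) := by
      intro i
      have c1 := plInt_cont (k1 i) (Rs + 1) (by linarith) hζc hζs'
      have c2 := plInt_cont (k1 i) (Rs + 1) (by linarith) G.cont hG2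
      have m1 : Continuous (fun y => κ i y * plInt (ν i) ⟪ν i, y⟫_ℝ ζ) := (hκc i).mul c1
      have m2 : Continuous (fun y => κ i y * plInt (ν i) ⟪ν i, y⟫_ℝ G.f) := (hκc i).mul c2
      rw [← integral_sub (hint m1) (hint m2)]
      simp_rw [← mul_sub]
      apply hbd _ _ ((hκc i).mul (c1.sub c2))
      intro y
      change |κ i y * (plInt (ν i) ⟪ν i, y⟫_ℝ ζ - plInt (ν i) ⟪ν i, y⟫_ℝ G.f)| ≤ N * s * Vi i
      rw [abs_mul]
      have h4 := plInt_diff (k1 i) (Rs + 1) hζc G.cont hζs' hG2 (N := N * s)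
        (fun y => by rw [abs_sub_comm]; exact hG3 y) ⟪ν i, y⟫_ℝ
      calc |κ i y| * |plInt (ν i) ⟪ν i, y⟫_ℝ ζ - plInt (ν i) ⟪ν i, y⟫_ℝ G.f|
          ≤ 1 * (N * s * Vi i) := mul_le_mul (hκ1 i y) h4 (abs_nonneg _) zero_le_one
        _ = N * s * Vi i := one_mul _
    have e4 : |(∑ i, ∫ y, ⟪f y, e⟫_ℝ * (κ i y * plInt (ν i) ⟪ν i, y⟫_ℝ ζ)) -
        ∑ i, ∫ y, ⟪f y, e⟫_ℝ * (κ i y * plInt (ν i) ⟪ν i, y⟫_ℝ G.f)| ≤ ∑ i, F1 * (N * s * Vi i) := by
      rw [← Finset.sum_sub_distrib]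
      exact (Finset.abs_sum_le_sum_abs _ _).trans (Finset.sum_le_sum (fun i _ => e3 i))
    have e5 : (F1 * N + ∑ i, F1 * (N * Vi i)) * s = F1 * (N * s) + ∑ i, F1 * (N * s * Vi i) := by
      rw [add_mul, Finset.sum_mul]
      congr 1
      · ring
      · apply Finset.sum_congr rfl
        intro i _
        ring
    rw [e5]
    have tri : ∀ x y x' y' : ℝ, |x - y| ≤ |x' - y'| + (|x - x'| + |y - y'|) := by
      intro x y x' y'
      have h1 : x - y = (x' - y') + ((x - x') - (y - y')) := by ring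
      calc |x - y| = |(x' - y') + ((x - x') - (y - y'))| := by rw [← h1]
        _ ≤ |x' - y'| + |(x - x') - (y - y')| := abs_add_le _ _
        _ ≤ _ := by
          have := abs_sub (x - x') (y - y')
          linarith
    refine (tri _ _ _ _).trans (add_le_add e1 (add_le_add e2 e4))
  -- let s tend to zero
  set X := |(∫ y, ⟪f y, e⟫_ℝ * ζ y) - ∑ i, ∫ y, ⟪f y, e⟫_ℝ * (κ i y * plInt (ν i) ⟪ν i, y⟫_ℝ ζ)| with hX
  set W := F1 * N + ∑ i, F1 * (N * Vi i) with hW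
  have hW0 : 0 ≤ W := by
    apply add_nonneg (by positivity)
    apply Finset.sum_nonneg
    intro i _
    have := hVi0 i
    positivity
  apply le_of_forall_pos_le_add
  intro η hη
  have hs0 : 0 < min 1 (η / (W + 1)) := lt_min one_pos (by positivity)
  have h5 := key _ hs0 (min_le_left _ _)
  have h6 : W * min 1 (η / (W + 1)) ≤ η := by
    calc W * min 1 (η / (W + 1)) ≤ W * (η / (W + 1)) := mul_le_mul_of_nonneg_left (min_le_right _ _) hW0
      _ ≤ (W + 1) * (η / (W + 1)) := mul_le_mul_of_nonneg_right (by linarith) (by positivity)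
      _ = η := by field_simp
  linarith

end Fin

end

end ST

open TG.ST in
/-- the structure theorem with a tolerance function (used in ST2.lean) -/
theorem st_main (h : StmtAL) (h2 : StmtMA) (h3 : StmtPE) :
    ∀ (d : ℕ) (V E : Type) [NormedAddCommGroup V] [InnerProductSpace ℝ V] [FiniteDimensional ℝ V]
    [NormedAddCommGroup E] [InnerProductSpace ℝ E] [FiniteDimensional ℝ E]
    (L : (Sp d →L[ℝ] V) →L[ℝ] E), 2 ≤ d → CEll L →
    ∀ (M c ε : ℝ), 0 < ε → ε ≤ 1 → ∀ (b : Sp d → ℝ), BaseKer 2 M c b →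
    ∀ (γ K Rs : ℝ) (tol : ℕ → ℝ), 0 < γ → γ ≤ 1 / (8 * d) → 0 < K → 1 ≤ Rs → (∀ J, 0 < tol J) →
    ∃ (rm : ℕ) (R1 δ : ℝ), Rs + 3 ≤ R1 ∧ 0 < δ ∧
      ∀ (n : ℕ) (u : Sp d → V), TF u → ∀ (e : E), ‖e‖ = 1 → ∀ a : ℝ, 0 ≤ a →
        (∀ ρ : ℝ, 1 ≤ ρ → ρ ≤ R1 →
          (∫ y in ball (0 : Sp d) ρ, ‖fl b ε ((1 / 2) ^ n) (fo L u) (n - 1) y‖) ≤
            K * ρ ^ ((d : ℝ) - 1 + γ) * a) →
        DD b ε R1 ((1 / 2) ^ n) (fo L u) n 0 e ≤ δ * a →
        ∃ (J r : ℕ) (ν : Fin r → Sp d) (κ : Fin r → Sp d → ℝ),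
          r ≤ rm ∧ (∀ i, ‖ν i‖ = 1) ∧ (∀ i y, 0 ≤ κ i y) ∧ (∀ i, TFn 2 1 (κ i)) ∧
          (∀ i y, κ i y ≠ 0 → ‖tang (ν i) y‖ ≤ R1 - Rs - 3) ∧
          (∀ i y, κ i y = κ i (tang (ν i) y)) ∧
          ∀ (ζ : Sp d → ℝ) (N : ℝ), TFn J N ζ → (∀ y, Rs ≤ ‖y‖ → ζ y = 0) →
            |(∫ y, ⟪fo L u y, e⟫_ℝ * ζ y)
              - ∑ i, ∫ y, ⟪fo L u y, e⟫_ℝ * (κ i y * plInt (ν i) ⟪ν i, y⟫_ℝ ζ)| ≤
                tol J * a * N := by
  intro d V E _ _ _ _ _ _ L hd hL M c ε hε hε1 b hb γ K Rs tol hγ0 hγ hK hRs htol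
  obtain ⟨rm, R1, δ, hR1, hδ, hC⟩ := all_charts h h2 h3 L hd hL M c ε hε hε1 b hb γ K Rs
    (fun J => tol (J + 1)) hγ0 hγ hK hRs (fun J => htol (J + 1))
  refine ⟨rm, R1, δ, hR1, hδ, ?_⟩
  intro n u hu e he a ha hgrow hDD
  obtain ⟨J, hJ⟩ := hC e (by rw [mem_sphere, dist_zero_right]; exact he)
  obtain ⟨r, ν, κ, k⟩ := hJ.str hRs n u hu a ha hgrow hDD
  exact ⟨J + 1, r, ν, κ, k⟩

end TG
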