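import Pool.Agent.TG.Stmts2
import Pool.Agent.TG.ST

/-!
# Module ST2: the structure theorem with a tolerance function (helper55)
-/

open MeasureTheory Metric Set TrI
open scoped InnerProductSpace ContDiff

namespace TG

/-- MODULE ST2 -/
theorem stmtST2 (h : StmtAL) (h2 : StmtMA) (h3 : StmtPE) : StmtST2 := by
  intro d V E _ _ _ _ _ _ L hd hL M c ε hε hε1 b hb γ K Rs tol hγ0 hγ hK hRs htol
  obtain ⟨rm, R1, δ, hR1, hδ, hC⟩ := st_main h h2 h3 d V E L hd hL M c ε hε hε1 b hb γ K Rs tol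
    hγ0 hγ hK hRs htol
  refine ⟨rm, R1, δ, hR1, hδ, ?_⟩
  intro n u hu e he a ha hgrow hDD
  obtain ⟨J, r, ν, κ, k0, k1, k2, k3, k4, k5, k6⟩ := hC n u hu e he a ha hgrow hDD
  exact ⟨J, r, ν, κ, ⟨k0, k1, k2, k3, k4, k5, k6⟩⟩

end TG
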