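import Pool.Agent.TG.Stmts1

/-!
# Structure theorem: the algebra of averaging operators (module ST, helper55)
-/

open MeasureTheory Metric Set TrI
open scoped InnerProductSpace ContDiff

namespace TG
namespace ST

noncomputable section

variable {d : ℕ}

/-- smooth functions -/
structure Cs (d : ℕ) where
  /-- the function -/
  f : Sp d → ℝ
  cd : ContDiff ℝ ∞ f

lemma Cs.inj : Function.Injective (Cs.f : Cs d → (Sp d → ℝ)) := by
  rintro ⟨f, hf⟩ ⟨g, hg⟩ h
  cases h
  rfl

lemma Cs.ext {g g' : Cs d} (h : ∀ x, g.f x = g'.f x) : g = g' := Cs.inj (funext h)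

instance : Zero (Cs d) := ⟨⟨fun _ => 0, contDiff_const⟩⟩
instance : Add (Cs d) := ⟨fun g g' => ⟨fun x => g.f x + g'.f x, g.cd.add g'.cd⟩⟩
instance : Neg (Cs d) := ⟨fun g => ⟨fun x => -g.f x, g.cd.neg⟩⟩
instance : Sub (Cs d) := ⟨fun g g' => ⟨fun x => g.f x - g'.f x, g.cd.sub g'.cd⟩⟩
instance : SMul ℕ (Cs d) := ⟨fun c g => ⟨fun x => (c : ℝ) * g.f x, contDiff_const.mul g.cd⟩⟩
instance : SMul ℤ (Cs d) := ⟨fun c g => ⟨fun x => (c : ℝ) * g.f x, contDiff_const.mul g.cd⟩⟩
instance : SMul ℝ (Cs d) := ⟨fun c g => ⟨fun x => c * g.f x, contDiff_const.mul g.cd⟩⟩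

instance : AddCommGroup (Cs d) :=
  Function.Injective.addCommGroup Cs.f Cs.inj rfl (fun _ _ => rfl) (fun _ => rfl) (fun _ _ => rfl)
    (fun g n => by
      funext x
      change (n : ℝ) * g.f x = n • g.f x
      rw [nsmul_eq_mul])
    (fun g n => by
      funext x
      change (n : ℝ) * g.f x = n • g.f x
      rw [zsmul_eq_mul])

/-- evaluation as a homomorphism -/
def Cs.toFun (d : ℕ) : Cs d →+ (Sp d → ℝ) where
  toFun := Cs.f
  map_zero' := rfl
  map_add' _ _ := rfl

instance : Module ℝ (Cs d) :=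
  Function.Injective.module ℝ (Cs.toFun d) Cs.inj (fun _ _ => rfl)

lemma Cs.add_apply' (g g' : Cs d) (x : Sp d) : (g + g').f x = g.f x + g'.f x := rfl
lemma Cs.sub_apply' (g g' : Cs d) (x : Sp d) : (g - g').f x = g.f x - g'.f x := rfl

/-- make a smooth function -/
def mkC (g : Sp d → ℝ) (hg : ContDiff ℝ ∞ g) : Cs d := ⟨g, hg⟩

/-- operators on smooth functions -/
abbrev Op (d : ℕ) := Module.End ℝ (Cs d)

lemma Cs.diff (g : Cs d) : Differentiable ℝ g.f := g.cd.differentiable (by simp)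

lemma Cs.cont (g : Cs d) : Continuous g.f := g.cd.continuous

@[simp] lemma Cs.add_apply (g g' : Cs d) (x : Sp d) : (g + g').f x = g.f x + g'.f x := rfl
@[simp] lemma Cs.sub_apply (g g' : Cs d) (x : Sp d) : (g - g').f x = g.f x - g'.f x := rfl
@[simp] lemma Cs.neg_apply (g : Cs d) (x : Sp d) : (-g).f x = -g.f x := rfl
@[simp] lemma Cs.zero_apply (x : Sp d) : (0 : Cs d).f x = 0 := rfl
@[simp] lemma Cs.smul_apply (c : ℝ) (g : Cs d) (x : Sp d) : (c • g).f x = c * g.f x := rfl

/-- directional derivative -/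
def dd (h : Sp d) : Op d where
  toFun g := mkC (fun x => fderiv ℝ g.f x h)
    ((g.cd.fderiv_right (m := ∞) (by simp)).clm_apply contDiff_const)
  map_add' g g' := by
    apply Cs.ext
    intro x
    have h1 : fderiv ℝ (g.f + g'.f) x = fderiv ℝ g.f x + fderiv ℝ g'.f x :=
      fderiv_add (g.diff x) (g'.diff x)
    change fderiv ℝ (g.f + g'.f) x h = fderiv ℝ g.f x h + fderiv ℝ g'.f x h
    rw [h1]; rfl
  map_smul' c g := by
    apply Cs.ext
    intro x
    have h1 : fderiv ℝ (c • g.f) x = c • fderiv ℝ g.f x := fderiv_const_smul (g.diff x) c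
    change fderiv ℝ (c • g.f) x h = c • fderiv ℝ g.f x h
    rw [h1]; rfl

lemma dd_apply (h : Sp d) (g : Cs d) (x : Sp d) : (dd h g).f x = fderiv ℝ g.f x h := rfl

/-- iterated directional derivatives -/
def itD {j : ℕ} (m : Fin j → Sp d) : Op d := ((List.ofFn m).map dd).prod

lemma itD_apply {j : ℕ} (m : Fin j → Sp d) (g : Cs d) (x : Sp d) :
    (itD m g).f x = iteratedFDeriv ℝ j g.f x m := by
  induction j generalizing x with
  | zero => simp [itD]
  | succ n ih =>
    have h1 : itD m g = dd (m 0) (itD (fun i : Fin n => m i.succ) g) := by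
      unfold itD
      rw [List.ofFn_succ, List.map_cons, List.prod_cons]
      rfl
    have h2 : (itD (fun i : Fin n => m i.succ) g).f =
        fun y => iteratedFDeriv ℝ n g.f y (fun i : Fin n => m i.succ) := by
      funext y
      exact ih _ y
    rw [h1, dd_apply, h2, iteratedFDeriv_succ_apply_left]
    have hd : DifferentiableAt ℝ (iteratedFDeriv ℝ n g.f) x :=
      (g.cd.differentiable_iteratedFDeriv (by
        exact_mod_cast WithTop.coe_lt_coe.mpr (ENat.natCast_lt_top n))) x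
    have h3 : (fun y => iteratedFDeriv ℝ n g.f y (fun i : Fin n => m i.succ)) =
        fun y => (ContinuousMultilinearMap.apply ℝ (fun _ : Fin n => Sp d) ℝ
          (fun i : Fin n => m i.succ)) (iteratedFDeriv ℝ n g.f y) := rfl
    rw [h3, fderiv_fun_comp x (ContinuousLinearMap.differentiableAt _) hd]
    simp
    rfl

/-- operators which commute with derivatives and are local at scale ρ -/
structure AO (ρ C : ℝ) (A : Op d) : Prop where
  ρ0 : 0 ≤ ρ
  C0 : 0 ≤ C
  comm : ∀ h, Commute A (dd h)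
  bd : ∀ (g : Cs d) (x : Sp d) (N : ℝ), (∀ y, ‖y - x‖ ≤ ρ → |g.f y| ≤ N) → |(A g).f x| ≤ C * N

lemma AO.comm_itD {ρ C : ℝ} {A : Op d} (hA : AO ρ C A) {j : ℕ} (m : Fin j → Sp d) :
    Commute A (itD m) := by
  unfold itD
  apply Commute.list_prod_right
  intro B hB
  obtain ⟨h, _, rfl⟩ := List.mem_map.mp hB
  exact hA.comm h

lemma AO.itD_eq {ρ C : ℝ} {A : Op d} (hA : AO ρ C A) {j : ℕ} (m : Fin j → Sp d) (g : Cs d)
    (x : Sp d) : iteratedFDeriv ℝ j (A g).f x m = (A (itD m g)).f x := by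
  rw [← itD_apply]
  have h := hA.comm_itD m
  have h2 : (A * itD m) g = (itD m * A) g := by rw [h.eq]
  change ((itD m * A) g).f x = ((A * itD m) g).f x
  rw [h2]

lemma AO.one : AO 0 1 (1 : Op d) where
  ρ0 := le_rfl
  C0 := zero_le_one
  comm h := Commute.one_left _
  bd g x N h := by
    rw [one_mul]
    exact h x (by simp)

lemma AO.mono {ρ ρ' C C' : ℝ} {A : Op d} (hA : AO ρ C A) (h : ρ ≤ ρ') (h' : C ≤ C') :
    AO ρ' C' A where
  ρ0 := hA.ρ0.trans h
  C0 := hA.C0.trans h'
  comm := hA.comm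
  bd g x N hN := by
    have h1 := hA.bd g x N (fun y hy => hN y (hy.trans h))
    have h2 : 0 ≤ N := (abs_nonneg _).trans (hN x (by simpa using hA.ρ0.trans h))
    exact h1.trans (mul_le_mul_of_nonneg_right h' h2)

lemma AO.mul {ρ ρ' C C' : ℝ} {A B : Op d} (hA : AO ρ C A) (hB : AO ρ' C' B) :
    AO (ρ + ρ') (C * C') (A * B) where
  ρ0 := add_nonneg hA.ρ0 hB.ρ0
  C0 := mul_nonneg hA.C0 hB.C0
  comm h := (hA.comm h).mul_left (hB.comm h)
  bd g x N hN := by
    have h1 := hA.bd (B g) x (C' * N) (fun y hy => hB.bd g y N (fun z hz => hN z (by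
      calc ‖z - x‖ = ‖(y - x) + (z - y)‖ := by congr 1; abel
        _ ≤ ‖y - x‖ + ‖z - y‖ := norm_add_le _ _
        _ ≤ ρ + ρ' := add_le_add hy hz)))
    rw [mul_assoc]
    exact h1

lemma AO.add {ρ C C' : ℝ} {A B : Op d} (hA : AO ρ C A) (hB : AO ρ C' B) :
    AO ρ (C + C') (A + B) where
  ρ0 := hA.ρ0
  C0 := add_nonneg hA.C0 hB.C0
  comm h := (hA.comm h).add_left (hB.comm h)
  bd g x N hN := by
    have h1 := hA.bd g x N hN
    have h2 := hB.bd g x N hN
    rw [add_mul]
    exact (abs_add_le _ _).trans (add_le_add h1 h2)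

lemma AO.neg {ρ C : ℝ} {A : Op d} (hA : AO ρ C A) : AO ρ C (-A) where
  ρ0 := hA.ρ0
  C0 := hA.C0
  comm h := (hA.comm h).neg_left
  bd g x N hN := by
    have h1 := hA.bd g x N hN
    have h2 : |((-A) g).f x| = |(A g).f x| := by
      rw [LinearMap.neg_apply]
      exact abs_neg _
    rw [h2]; exact h1

lemma AO.sub {ρ C C' : ℝ} {A B : Op d} (hA : AO ρ C A) (hB : AO ρ C' B) :
    AO ρ (C + C') (A - B) := by
  rw [sub_eq_add_neg]
  exact hA.add hB.neg

/-- the support grows by ρ at most -/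
lemma AO.supp {ρ C R : ℝ} {A : Op d} (hA : AO ρ C A) {g : Cs d} (hg : ∀ y, R ≤ ‖y‖ → g.f y = 0)
    (x : Sp d) (hx : R + ρ ≤ ‖x‖) : (A g).f x = 0 := by
  have h1 := hA.bd g x 0 (fun y hy => by
    have h2 : R ≤ ‖y‖ := by
      have h3 : ‖x‖ ≤ ‖y‖ + ‖y - x‖ := by
        calc ‖x‖ = ‖y - (y - x)‖ := by congr 1; abel
          _ ≤ _ := norm_sub_le _ _
      linarith
    rw [hg y h2]; simp)
  rw [mul_zero] at h1
  exact abs_nonpos_iff.mp h1

/-! ### general averaging operators -/

section GO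

variable {Ω : Type} [MeasurableSpace Ω] (μ : Measure Ω) (w : Ω → ℝ) (h : Ω → Sp d)

/-- weighted average of translates -/
def go {F : Type} [NormedAddCommGroup F] [NormedSpace ℝ F] (g : Sp d → F) (x : Sp d) : F :=
  ∫ o, w o • g (x + h o) ∂μ

/-- the data of an averaging operator -/
structure GD (ρ : ℝ) : Prop where
  ρ0 : 0 ≤ ρ
  int : Integrable w μ
  meas : Measurable h
  bd : ∀ o, w o ≠ 0 → ‖h o‖ ≤ ρ

variable {μ w h} {ρ : ℝ}

lemma GD.bound (hD : GD μ w h ρ) {F : Type} [NormedAddCommGroup F] [NormedSpace ℝ F]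
    {g : Sp d → F} (hg : Continuous g) (x : Sp d) :
    ∃ M : ℝ, ∀ y ∈ ball x 1, ∀ o, ‖w o • g (y + h o)‖ ≤ |w o| * M := by
  obtain ⟨M, hM⟩ := (isCompact_closedBall x (ρ + 1)).exists_bound_of_continuousOn hg.continuousOn
  refine ⟨M, fun y hy o => ?_⟩
  rw [norm_smul, Real.norm_eq_abs]
  by_cases h0 : w o = 0
  · rw [h0]; simp
  · apply mul_le_mul_of_nonneg_left _ (abs_nonneg _)
    apply hM
    rw [mem_closedBall, dist_eq_norm]
    have h1 := hD.bd o h0
    have h2 : ‖y - x‖ < 1 := by rw [← dist_eq_norm]; exact hy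
    calc ‖y + h o - x‖ = ‖(y - x) + h o‖ := by congr 1; abel
      _ ≤ ‖y - x‖ + ‖h o‖ := norm_add_le _ _
      _ ≤ ρ + 1 := by linarith

lemma GD.aesm (hD : GD μ w h ρ) {F : Type} [NormedAddCommGroup F] [NormedSpace ℝ F]
    {g : Sp d → F} (hg : Continuous g) (x : Sp d) :
    AEStronglyMeasurable (fun o => w o • g (x + h o)) μ := by
  apply AEStronglyMeasurable.smul hD.int.1
  have h1 : StronglyMeasurable g := hg.stronglyMeasurable
  exact (h1.comp_measurable (measurable_const.add hD.meas)).aestronglyMeasurable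

lemma GD.integrable (hD : GD μ w h ρ) {F : Type} [NormedAddCommGroup F] [NormedSpace ℝ F]
    {g : Sp d → F} (hg : Continuous g) (x : Sp d) :
    Integrable (fun o => w o • g (x + h o)) μ := by
  obtain ⟨M, hM⟩ := hD.bound hg x
  exact (hD.int.abs.mul_const M).mono' (hD.aesm hg x)
    (Filter.Eventually.of_forall (hM x (mem_ball_self one_pos)))

lemma GD.cont (hD : GD μ w h ρ) {F : Type} [NormedAddCommGroup F] [NormedSpace ℝ F]
    {g : Sp d → F} (hg : Continuous g) : Continuous (go μ w h g) := by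
  rw [continuous_iff_continuousAt]
  intro x
  obtain ⟨M, hM⟩ := hD.bound hg x
  apply continuousAt_of_dominated (bound := fun o => |w o| * M)
  · exact Filter.Eventually.of_forall (fun y => hD.aesm hg y)
  · filter_upwards [ball_mem_nhds x one_pos] with y hy
    exact Filter.Eventually.of_forall (hM y hy)
  · exact hD.int.abs.mul_const M
  · refine Filter.Eventually.of_forall (fun o => ?_)
    exact (continuous_const.smul (hg.comp (continuous_id.add continuous_const))).continuousAt

lemma GD.fderiv (hD : GD μ w h ρ) {F : Type} [NormedAddCommGroup F] [NormedSpace ℝ F]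
    {g : Sp d → F} (hg : ContDiff ℝ 1 g) (x : Sp d) :
    HasFDerivAt (go μ w h g) (go μ w h (fderiv ℝ g) x) x := by
  have hg' : Continuous (_root_.fderiv ℝ g) := hg.continuous_fderiv (by simp)
  obtain ⟨M, hM⟩ := hD.bound hg' x
  apply hasFDerivAt_integral_of_dominated_of_fderiv_le (bound := fun o => |w o| * M)
    (F' := fun y o => w o • _root_.fderiv ℝ g (y + h o)) (ball_mem_nhds x one_pos)
  · exact Filter.Eventually.of_forall (fun y => hD.aesm hg.continuous y)
  · exact hD.integrable hg.continuous x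
  · exact hD.aesm hg' x
  · exact Filter.Eventually.of_forall (fun o y hy => hM y hy o)
  · exact hD.int.abs.mul_const M
  · refine Filter.Eventually.of_forall (fun o y _ => ?_)
    have h1 : HasFDerivAt g (_root_.fderiv ℝ g (y + h o)) (y + h o) :=
      (hg.differentiable (by simp) _).hasFDerivAt
    exact ((hasFDerivAt_comp_add_right (h o)).mpr h1).const_smul (w o)

lemma GD.contDiff_nat (hD : GD μ w h ρ) (n : ℕ) : ∀ {F : Type} [NormedAddCommGroup F]
    [NormedSpace ℝ F] {g : Sp d → F}, ContDiff ℝ ∞ g → ContDiff ℝ n (go μ w h g) := by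
  induction n with
  | zero =>
    intro F _ _ g hg
    exact contDiff_zero.mpr (hD.cont hg.continuous)
  | succ n ih =>
    intro F _ _ g hg
    have hf : ∀ x, HasFDerivAt (go μ w h g) (go μ w h (_root_.fderiv ℝ g) x) x :=
      fun x => hD.fderiv (hg.of_le (by simp)) x
    have h2 : ContDiff ℝ ∞ (_root_.fderiv ℝ g) := hg.fderiv_right (by simp)
    have h3 : _root_.fderiv ℝ (go μ w h g) = go μ w h (_root_.fderiv ℝ g) :=
      funext (fun x => (hf x).fderiv)
    have : ((n + 1 : ℕ) : WithTop ℕ∞) = (n : WithTop ℕ∞) + 1 := by push_cast; rfl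
    rw [this, contDiff_succ_iff_fderiv]
    refine ⟨fun x => (hf x).differentiableAt, ?_, ?_⟩
    · intro hc
      exact absurd hc (by simp)
    · rw [h3]
      exact ih h2

lemma GD.contDiff (hD : GD μ w h ρ) {F : Type} [NormedAddCommGroup F] [NormedSpace ℝ F]
    {g : Sp d → F} (hg : ContDiff ℝ ∞ g) : ContDiff ℝ ∞ (go μ w h g) :=
  contDiff_infty.mpr (fun n => hD.contDiff_nat n hg)

/-- the averaging operator -/
def goOp (hD : GD μ w h ρ) : Op d where
  toFun g := mkC (go μ w h g.f) (hD.contDiff g.cd)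
  map_add' g g' := by
    apply Cs.ext
    intro x
    change ∫ o, w o • (g.f (x + h o) + g'.f (x + h o)) ∂μ =
      (∫ o, w o • g.f (x + h o) ∂μ) + ∫ o, w o • g'.f (x + h o) ∂μ
    rw [← integral_add (hD.integrable g.cont x) (hD.integrable g'.cont x)]
    simp only [smul_add]
  map_smul' c g := by
    apply Cs.ext
    intro x
    change ∫ o, w o • (c • g.f (x + h o)) ∂μ = c • ∫ o, w o • g.f (x + h o) ∂μ
    rw [← integral_smul]
    congr 1
    funext o
    rw [smul_comm]

lemma goOp_apply (hD : GD μ w h ρ) (g : Cs d) (x : Sp d) :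
    (goOp hD g).f x = ∫ o, w o * g.f (x + h o) ∂μ := rfl

lemma goOp_AO (hD : GD μ w h ρ) : AO ρ (∫ o, |w o| ∂μ) (goOp hD) where
  ρ0 := hD.ρ0
  C0 := integral_nonneg (fun _ => abs_nonneg _)
  comm k := by
    apply LinearMap.ext
    intro g
    apply Cs.ext
    intro x
    change go μ w h (fun y => _root_.fderiv ℝ g.f y k) x = _root_.fderiv ℝ (go μ w h g.f) x k
    have h1 := (hD.fderiv (g.cd.of_le (by simp)) x).fderiv
    rw [h1]
    unfold go
    rw [ContinuousLinearMap.integral_apply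
      (hD.integrable (g.cd.continuous_fderiv (by simp)) x)]
    rfl
  bd g x N hN := by
    rw [goOp_apply, ← Real.norm_eq_abs]
    refine (norm_integral_le_integral_norm _).trans ?_
    rw [← integral_mul_const]
    apply integral_mono_of_nonneg (Filter.Eventually.of_forall (fun _ => norm_nonneg _))
      (hD.int.abs.mul_const N)
    refine Filter.Eventually.of_forall (fun o => ?_)
    change ‖w o * g.f (x + h o)‖ ≤ |w o| * N
    rw [norm_mul, Real.norm_eq_abs, Real.norm_eq_abs]
    by_cases h0 : w o = 0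
    · rw [h0]; simp
    · apply mul_le_mul_of_nonneg_left _ (abs_nonneg _)
      apply hN
      rw [add_sub_cancel_left]
      exact hD.bd o h0

end GO

end

end ST
end TG
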