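import Pool.Agent.TG.STh1

/-!
# Structure theorem: the averages E_S(T) and the identity E_S(T) - 1 = K q_S(D)
-/

open MeasureTheory Metric Set TrI
open scoped InnerProductSpace ContDiff

namespace TG
namespace ST

noncomputable section

variable {d : ℕ}

section Ker

variable {H : Type} [NormedAddCommGroup H] [InnerProductSpace ℝ H] [FiniteDimensional ℝ H]
  [MeasurableSpace H] [BorelSpace H]

/-- radial probability kernel with its potential -/
structure Rdl (φ B : H → ℝ) : Prop where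
  smooth : ContDiff ℝ ∞ φ
  smoothB : ContDiff ℝ ∞ B
  nonneg : ∀ y, 0 ≤ φ y
  supp : ∀ y, 1 ≤ ‖y‖ → φ y = 0
  suppB : ∀ y, 1 ≤ ‖y‖ → B y = 0
  int : ∫ y, φ y = 1
  grad : ∀ y h, fderiv ℝ B y h = -(φ y * ⟪y, h⟫_ℝ)
  even : ∀ y, φ (-y) = φ y

lemma glue_mono : Monotone expNegInvGlue := by
  intro x y hxy
  by_cases hx : x ≤ 0
  · rw [expNegInvGlue.zero_of_nonpos hx]
    exact expNegInvGlue.nonneg y
  · push Not at hx
    have hy : ¬ y ≤ 0 := not_le.mpr (hx.trans_le hxy)
    unfold expNegInvGlue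
    rw [if_neg (not_le.mpr hx), if_neg hy]
    apply Real.exp_le_exp.mpr
    have := inv_anti₀ hx hxy
    linarith

lemma glue_deriv_nonneg (s : ℝ) : 0 ≤ deriv expNegInvGlue s := glue_mono.deriv_nonneg

lemma glue_deriv_zero {s : ℝ} (hs : s ≤ 0) : deriv expNegInvGlue s = 0 := by
  apply IsLocalMin.deriv_eq_zero
  refine Filter.Eventually.of_forall (fun y => ?_)
  rw [expNegInvGlue.zero_of_nonpos hs]
  exact expNegInvGlue.nonneg y

omit [MeasurableSpace H] [BorelSpace H] in
lemma cs_of_supp {F : Type} [Zero F] {f : H → F} (h : ∀ y, 1 ≤ ‖y‖ → f y = 0) : HasCompactSupport f := by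
  apply HasCompactSupport.intro (isCompact_closedBall (0 : H) 1)
  intro y hy
  apply h
  rw [mem_closedBall, dist_zero_right, not_le] at hy
  exact hy.le

lemma exists_Rdl [Nontrivial H] : ∃ φ B : H → ℝ, Rdl φ B := by
  set B0 : H → ℝ := fun y => expNegInvGlue (1 - ‖y‖ ^ 2) with hB0
  set φ0 : H → ℝ := fun y => 2 * deriv expNegInvGlue (1 - ‖y‖ ^ 2) with hφ0
  have hg : ContDiff ℝ ∞ expNegInvGlue := expNegInvGlue.contDiff
  have hg' : ContDiff ℝ ∞ (deriv expNegInvGlue) := (contDiff_infty_iff_deriv.mp hg).2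
  have hn : ContDiff ℝ ∞ (fun y : H => 1 - ‖y‖ ^ 2) := contDiff_const.sub (contDiff_norm_sq ℝ)
  have s1 : ContDiff ℝ ∞ B0 := hg.comp hn
  have s2 : ContDiff ℝ ∞ φ0 := contDiff_const.mul (hg'.comp hn)
  have hgrad : ∀ y h, fderiv ℝ B0 y h = -(φ0 y * ⟪y, h⟫_ℝ) := by
    intro y h
    have h1 : HasFDerivAt (fun y : H => 1 - ‖y‖ ^ 2) (-(2 • innerSL ℝ y)) y := by
      have := (hasStrictFDerivAt_norm_sq y).hasFDerivAt
      exact (this.const_sub 1)
    have h2 : HasDerivAt expNegInvGlue (deriv expNegInvGlue (1 - ‖y‖ ^ 2)) (1 - ‖y‖ ^ 2) :=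
      (hg.differentiable (by simp) _).hasDerivAt
    have h3 := h2.comp_hasFDerivAt y h1
    have h4 : fderiv ℝ B0 y = deriv expNegInvGlue (1 - ‖y‖ ^ 2) • (-(2 • innerSL ℝ y)) := h3.fderiv
    rw [h4]
    simp only [smul_apply, neg_apply, smul_eq_mul, nsmul_eq_mul,
      innerSL_apply_apply, hφ0]
    push_cast
    ring
  have hneg : ∀ y : H, 1 ≤ ‖y‖ → 1 - ‖y‖ ^ 2 ≤ 0 := by
    intro y hy
    nlinarith
  have z1 : ∀ y, 1 ≤ ‖y‖ → B0 y = 0 := fun y hy => expNegInvGlue.zero_of_nonpos (hneg y hy)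
  have z2 : ∀ y, 1 ≤ ‖y‖ → φ0 y = 0 := fun y hy => by
    change 2 * deriv expNegInvGlue (1 - ‖y‖ ^ 2) = 0
    rw [glue_deriv_zero (hneg y hy), mul_zero]
  have n2 : ∀ y, 0 ≤ φ0 y := fun y => mul_nonneg zero_le_two (glue_deriv_nonneg _)
  have hex : ∃ y, φ0 y ≠ 0 := by
    by_contra hcon
    push Not at hcon
    have h1 : ∀ y, fderiv ℝ B0 y = 0 := by
      intro y
      ext h
      rw [hgrad, hcon y]
      simp
    have h2 := is_const_of_fderiv_eq_zero (s1.differentiable (by simp)) h1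
    obtain ⟨v, hv⟩ := exists_ne (0 : H)
    have hv' : 0 < ‖v‖ := norm_pos_iff.mpr hv
    have h3 : 1 ≤ ‖(‖v‖⁻¹) • v‖ := by
      rw [norm_smul, norm_inv, norm_norm, inv_mul_cancel₀ hv'.ne']
    have h4 := h2 0 ((‖v‖⁻¹) • v)
    rw [z1 _ h3] at h4
    have h5 : 0 < B0 0 := by
      change 0 < expNegInvGlue (1 - ‖(0 : H)‖ ^ 2)
      apply expNegInvGlue.pos_of_pos
      simp
    linarith
  obtain ⟨y0, hy0⟩ := hex
  have hc : 0 < ∫ y, φ0 y :=
    s2.continuous.integral_pos_of_hasCompactSupport_nonneg_nonzero (cs_of_supp z2) n2 hy0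
  set c := ∫ y, φ0 y with hcdef
  refine ⟨fun y => c⁻¹ * φ0 y, fun y => c⁻¹ * B0 y, ?_⟩
  refine ⟨contDiff_const.mul s2, contDiff_const.mul s1, fun y => ?_, fun y hy => ?_, fun y hy => ?_, ?_,
    fun y h => ?_, fun y => ?_⟩
  · exact mul_nonneg (inv_nonneg.mpr hc.le) (n2 y)
  · rw [z2 y hy, mul_zero]
  · rw [z1 y hy, mul_zero]
  · rw [integral_const_mul, inv_mul_cancel₀ hc.ne']
  · have : fderiv ℝ (fun y => c⁻¹ * B0 y) y = c⁻¹ • fderiv ℝ B0 y :=
      fderiv_const_mul (s1.differentiable (by simp) y) _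
    rw [this, smul_apply, hgrad, smul_eq_mul]
    ring
  · change c⁻¹ * (2 * deriv expNegInvGlue (1 - ‖-y‖ ^ 2)) = _
    rw [norm_neg]

variable {φ B : H → ℝ}

lemma gdE {ψ : H → ℝ} (hc : Continuous ψ) (hs : ∀ y, 1 ≤ ‖y‖ → ψ y = 0) (S : H →L[ℝ] Sp d) (T : ℝ) :
    GD volume ψ (fun y => T • S y) (|T| * ‖S‖) where
  ρ0 := mul_nonneg (abs_nonneg _) (norm_nonneg _)
  int := hc.integrable_of_hasCompactSupport (cs_of_supp hs)
  meas := (S.continuous.measurable).const_smul T
  bd y hy := by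
    have h1 : ‖y‖ < 1 := by
      by_contra hcon
      exact hy (hs y (not_lt.mp hcon))
    rw [norm_smul, Real.norm_eq_abs]
    apply mul_le_mul_of_nonneg_left _ (abs_nonneg _)
    calc ‖S y‖ ≤ ‖S‖ * ‖y‖ := S.le_opNorm y
      _ ≤ ‖S‖ * 1 := mul_le_mul_of_nonneg_left h1.le (norm_nonneg _)
      _ = ‖S‖ := mul_one _

/-- the average E_S(T) -/
def EE (hR : Rdl φ B) (S : H →L[ℝ] Sp d) (T : ℝ) : Op d := goOp (gdE hR.smooth.continuous hR.supp S T)

lemma EE_apply (hR : Rdl φ B) (S : H →L[ℝ] Sp d) (T : ℝ) (g : Cs d) (x : Sp d) :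
    (EE hR S T g).f x = ∫ y, φ y * g.f (x + T • S y) := rfl

lemma Rdl.int_abs (hR : Rdl φ B) : ∫ y, |φ y| = 1 := by
  rw [← hR.int]
  congr 1
  funext y
  exact abs_of_nonneg (hR.nonneg y)

lemma EE_AO (hR : Rdl φ B) (S : H →L[ℝ] Sp d) (T : ℝ) : AO (|T| * ‖S‖) 1 (EE hR S T) := by
  have := goOp_AO (gdE hR.smooth.continuous hR.supp S T)
  rw [hR.int_abs] at this
  exact this

lemma gdK (hR : Rdl φ B) (S : H →L[ℝ] Sp d) (T : ℝ) :
    GD (volume : Measure (ℝ × H)) (fun p => (Ioc 0 T).indicator (fun s => s) p.1 * B p.2)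
      (fun p => p.1 • S p.2) (|T| * ‖S‖) where
  ρ0 := mul_nonneg (abs_nonneg _) (norm_nonneg _)
  int := by
    apply Integrable.mul_prod
    · rw [integrable_indicator_iff measurableSet_Ioc]
      exact (continuous_id.integrableOn_Icc (a := 0) (b := T)).mono_set Ioc_subset_Icc_self
    · exact hR.smoothB.continuous.integrable_of_hasCompactSupport (cs_of_supp hR.suppB)
  meas := measurable_fst.smul (S.continuous.measurable.comp measurable_snd)
  bd p hp := by
    have h1 : ‖p.2‖ < 1 := by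
      by_contra hcon
      exact hp (by rw [hR.suppB p.2 (not_lt.mp hcon), mul_zero])
    have h2 : p.1 ∈ Ioc 0 T := by
      by_contra hcon
      exact hp (by rw [indicator_of_notMem hcon, zero_mul])
    rw [norm_smul, Real.norm_eq_abs]
    apply mul_le_mul _ _ (norm_nonneg _) (abs_nonneg _)
    · rw [abs_of_pos h2.1, abs_of_pos (h2.1.trans_le h2.2)]
      exact h2.2
    · calc ‖S p.2‖ ≤ ‖S‖ * ‖p.2‖ := S.le_opNorm _
        _ ≤ ‖S‖ * 1 := mul_le_mul_of_nonneg_left h1.le (norm_nonneg _)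
        _ = ‖S‖ := mul_one _

/-- the compact operator in the identity -/
def KK (hR : Rdl φ B) (S : H →L[ℝ] Sp d) (T : ℝ) : Op d := goOp (gdK hR S T)

lemma KK_apply (hR : Rdl φ B) (S : H →L[ℝ] Sp d) (T : ℝ) (hT : 0 ≤ T) (g : Cs d) (x : Sp d) :
    (KK hR S T g).f x = ∫ s in (0 : ℝ)..T, s * ∫ y, B y * g.f (x + s • S y) := by
  have h1 : (KK hR S T g).f x = ∫ p : ℝ × H, ((Ioc 0 T).indicator (fun s => s) p.1 * B p.2) *
      g.f (x + p.1 • S p.2) := rfl
  have h2 := (gdK hR S T).integrable g.cont x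
  rw [h1, Measure.volume_eq_prod, integral_prod]
  · rw [intervalIntegral.integral_of_le hT, ← integral_indicator measurableSet_Ioc]
    congr 1
    funext s
    by_cases hs : s ∈ Ioc 0 T
    · rw [indicator_of_mem hs, ← integral_const_mul]
      congr 1
      funext y
      simp only [indicator_of_mem hs]
      ring
    · rw [indicator_of_notMem hs]
      simp only [indicator_of_notMem hs, zero_mul, integral_zero]
  · exact h2

/-- derivative in the scale -/
lemma hasDeriv_scale {ψ : H → ℝ} (hc : Continuous ψ) (hs : ∀ y, 1 ≤ ‖y‖ → ψ y = 0)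
    (S : H →L[ℝ] Sp d) (g : Cs d) (x : Sp d) (s : ℝ) :
    HasDerivAt (fun s => ∫ y, ψ y * g.f (x + s • S y))
      (∫ y, ψ y * fderiv ℝ g.f (x + s • S y) (S y)) s := by
  have hf : Continuous (fderiv ℝ g.f) := g.cd.continuous_fderiv (by simp)
  obtain ⟨M, hM⟩ := (isCompact_closedBall x ((|s| + 1) * ‖S‖)).exists_bound_of_continuousOn
    hf.continuousOn
  have hint : Integrable ψ := hc.integrable_of_hasCompactSupport (cs_of_supp hs)
  have hline : ∀ t : ℝ, Continuous (fun y : H => x + t • S y) := fun t => by fun_prop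
  have key := hasDerivAt_integral_of_dominated_loc_of_deriv_le
    (μ := (volume : Measure H)) (F := fun s y => ψ y * g.f (x + s • S y))
    (F' := fun s y => ψ y * fderiv ℝ g.f (x + s • S y) (S y)) (x₀ := s)
    (bound := fun y => |ψ y| * (M * ‖S‖)) (ball_mem_nhds s one_pos) ?_ ?_ ?_ ?_ ?_ ?_
  · exact key.2
  · refine Filter.Eventually.of_forall (fun t => ?_)
    exact (hc.mul (g.cont.comp (hline t))).aestronglyMeasurable
  · apply Continuous.integrable_of_hasCompactSupport
    · exact hc.mul (g.cont.comp (hline s))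
    · exact (cs_of_supp hs).mul_right
  · apply Continuous.aestronglyMeasurable
    exact hc.mul ((hf.comp (hline s)).clm_apply S.continuous)
  · refine Filter.Eventually.of_forall (fun y t ht => ?_)
    rw [norm_mul, Real.norm_eq_abs]
    by_cases h0 : ψ y = 0
    · rw [h0]; simp
    · apply mul_le_mul_of_nonneg_left _ (abs_nonneg _)
      have h1 : ‖y‖ < 1 := by
        by_contra hcon
        exact h0 (hs y (not_lt.mp hcon))
      have h2 : ‖S y‖ ≤ ‖S‖ := by
        calc ‖S y‖ ≤ ‖S‖ * ‖y‖ := S.le_opNorm y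
          _ ≤ ‖S‖ * 1 := mul_le_mul_of_nonneg_left h1.le (norm_nonneg _)
          _ = ‖S‖ := mul_one _
      have h3 : |t| ≤ |s| + 1 := by
        rw [mem_ball, Real.dist_eq] at ht
        calc |t| = |s + (t - s)| := by congr 1; ring
          _ ≤ |s| + |t - s| := abs_add_le _ _
          _ ≤ |s| + 1 := by linarith
      have h4 : x + t • S y ∈ closedBall x ((|s| + 1) * ‖S‖) := by
        rw [mem_closedBall, dist_eq_norm, add_sub_cancel_left, norm_smul, Real.norm_eq_abs]
        exact mul_le_mul h3 h2 (norm_nonneg _) (by positivity)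
      have h5 := hM _ h4
      calc ‖fderiv ℝ g.f (x + t • S y) (S y)‖ ≤ ‖fderiv ℝ g.f (x + t • S y)‖ * ‖S y‖ :=
            ContinuousLinearMap.le_opNorm _ _
        _ ≤ M * ‖S‖ := mul_le_mul h5 h2 (norm_nonneg _) ((norm_nonneg _).trans h5)
  · exact hint.abs.mul_const _
  · refine Filter.Eventually.of_forall (fun y t _ => ?_)
    apply HasDerivAt.const_mul
    have h1 : HasFDerivAt g.f (fderiv ℝ g.f (x + t • S y)) (x + t • S y) := (g.diff _).hasFDerivAt
    have h2 : HasDerivAt (fun t : ℝ => x + t • S y) (S y) t := by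
      have := ((hasDerivAt_id t).smul_const (S y)).const_add x
      simpa using this
    exact h1.comp_hasDerivAt t h2

/-- the second order operator of a frame -/
def QQ (S : H →L[ℝ] Sp d) (hf : Fin d → H) : Op d := ∑ k, dd (S (hf k)) * dd (S (hf k))

omit [FiniteDimensional ℝ H] [MeasurableSpace H] [BorelSpace H] in
lemma QQ_apply (S : H →L[ℝ] Sp d) (hf : Fin d → H) (g : Cs d) (x : Sp d) :
    (QQ S hf g).f x = ∑ k, (dd (S (hf k)) (dd (S (hf k)) g)).f x := by
  unfold QQ
  rw [LinearMap.sum_apply]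
  have : ∀ s : Finset (Fin d), (∑ k ∈ s, (dd (S (hf k)) * dd (S (hf k))) g).f x =
      ∑ k ∈ s, (dd (S (hf k)) (dd (S (hf k)) g)).f x := by
    intro s
    induction s using Finset.induction_on with
    | empty => simp
    | insert a s ha ih =>
      rw [Finset.sum_insert ha, Finset.sum_insert ha, Cs.add_apply, ih]
      rfl
  exact this _

lemma ibp (hR : Rdl φ B) (S : H →L[ℝ] Sp d) (hf : Fin d → H)
    (hfr : ∀ y, ∑ k, ⟪y, hf k⟫_ℝ • hf k = y) (g : Cs d) (x : Sp d) (s : ℝ) :
    ∫ y, φ y * fderiv ℝ g.f (x + s • S y) (S y) =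
      s * ∫ y, B y * (QQ S hf g).f (x + s • S y) := by
  have hline : Continuous (fun y : H => x + s • S y) := by fun_prop
  -- the functions G_k
  have hG : ∀ k, ContDiff ℝ ∞ (fun y : H => (dd (S (hf k)) g).f (x + s • S y)) := by
    intro k
    exact (dd (S (hf k)) g).cd.comp (by fun_prop)
  have hGd : ∀ k y, fderiv ℝ (fun y : H => (dd (S (hf k)) g).f (x + s • S y)) y (hf k) =
      s * (dd (S (hf k)) (dd (S (hf k)) g)).f (x + s • S y) := by
    intro k y
    have h1 : HasFDerivAt (dd (S (hf k)) g).f (fderiv ℝ (dd (S (hf k)) g).f (x + s • S y)) (x + s • S y) :=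
      ((dd (S (hf k)) g).diff _).hasFDerivAt
    have h2 : HasFDerivAt (fun y : H => x + s • S y) (s • S) y := by
      have := (S.hasFDerivAt (x := y)).const_smul s
      exact this.const_add x
    have h3 := (h1.comp y h2).fderiv
    have h4 : (fun y : H => (dd (S (hf k)) g).f (x + s • S y)) =
      (dd (S (hf k)) g).f ∘ (fun y : H => x + s • S y) := rfl
    rw [h4, h3]
    simp only [ContinuousLinearMap.comp_apply, smul_apply, map_smul, smul_eq_mul]
    rfl
  have hBc : HasCompactSupport B := cs_of_supp hR.suppB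
  have hint : ∀ {f : H → ℝ}, Continuous f → Integrable (fun y => B y * f y) := by
    intro f hf'
    exact (hR.smoothB.continuous.mul hf').integrable_of_hasCompactSupport hBc.mul_right
  have hstep : ∀ k, ∫ y, φ y * (⟪y, hf k⟫_ℝ * fderiv ℝ g.f (x + s • S y) (S (hf k))) =
      s * ∫ y, B y * (dd (S (hf k)) (dd (S (hf k)) g)).f (x + s • S y) := by
    intro k
    have e1 : ∀ y, φ y * (⟪y, hf k⟫_ℝ * fderiv ℝ g.f (x + s • S y) (S (hf k))) =
        -(fderiv ℝ B y (hf k) * (dd (S (hf k)) g).f (x + s • S y)) := by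
      intro y
      rw [hR.grad, dd_apply]
      ring
    simp_rw [e1]
    rw [integral_neg]
    have hBd : Continuous (fun y => fderiv ℝ B y (hf k)) :=
      (hR.smoothB.continuous_fderiv (by simp)).clm_apply continuous_const
    have key := integral_mul_fderiv_eq_neg_fderiv_mul_of_integrable (μ := (volume : Measure H))
      (f := B) (g := fun y : H => (dd (S (hf k)) g).f (x + s • S y)) (v := hf k) ?_ ?_ ?_
      (fun y _ => hR.smoothB.differentiable (by simp) y) (fun y _ => (hG k).differentiable (by simp) y)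
    · rw [← key]
      simp_rw [hGd]
      rw [← integral_const_mul]
      congr 1
      funext y
      ring
    · apply Continuous.integrable_of_hasCompactSupport (hBd.mul (hG k).continuous)
      apply HasCompactSupport.mul_right
      have := hBc.fderiv_apply (𝕜 := ℝ) (v := hf k)
      exact this
    · simp_rw [hGd]
      have := hint (f := fun y => s * (dd (S (hf k)) (dd (S (hf k)) g)).f (x + s • S y))
        (continuous_const.mul ((dd (S (hf k)) (dd (S (hf k)) g)).cont.comp hline))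
      exact this
    · exact hint (hG k).continuous
  have e0 : ∀ y, φ y * fderiv ℝ g.f (x + s • S y) (S y) =
      ∑ k, φ y * (⟪y, hf k⟫_ℝ * fderiv ℝ g.f (x + s • S y) (S (hf k))) := by
    intro y
    rw [← Finset.mul_sum]
    congr 1
    have h1 : S y = ∑ k, ⟪y, hf k⟫_ℝ • S (hf k) := by
      conv_lhs => rw [← hfr y]
      rw [map_sum]
      simp only [map_smul]
    have h2 : ∀ D : Sp d →L[ℝ] ℝ, D (S y) = ∑ k, ⟪y, hf k⟫_ℝ * D (S (hf k)) := by
      intro D
      rw [h1, map_sum]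
      simp only [map_smul, smul_eq_mul]
    exact h2 _
  simp_rw [e0]
  rw [integral_finsetSum]
  · simp_rw [hstep, QQ_apply, Finset.mul_sum]
    rw [integral_finsetSum, Finset.mul_sum]
    intro k _
    exact hint ((dd (S (hf k)) (dd (S (hf k)) g)).cont.comp hline)
  · intro k _
    apply Continuous.integrable_of_hasCompactSupport
    · exact hR.smooth.continuous.mul ((continuous_id.inner continuous_const).mul
        ((dd (S (hf k)) g).cont.comp hline))
    · exact (cs_of_supp hR.supp).mul_right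

/-- THE IDENTITY -/
theorem EE_sub_one (hR : Rdl φ B) (S : H →L[ℝ] Sp d) (hf : Fin d → H)
    (hfr : ∀ y, ∑ k, ⟪y, hf k⟫_ℝ • hf k = y) (T : ℝ) (hT : 0 ≤ T) :
    EE hR S T - 1 = KK hR S T * QQ S hf := by
  apply LinearMap.ext
  intro g
  apply Cs.ext
  intro x
  change (EE hR S T g).f x - g.f x = (KK hR S T (QQ S hf g)).f x
  rw [KK_apply hR S T hT, EE_apply]
  have h1 : ∀ s : ℝ, HasDerivAt (fun s => ∫ y, φ y * g.f (x + s • S y))
      (s * ∫ y, B y * (QQ S hf g).f (x + s • S y)) s := by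
    intro s
    rw [← ibp hR S hf hfr g x s]
    exact hasDeriv_scale hR.smooth.continuous hR.supp S g x s
  have h2 : Continuous (fun s : ℝ => s * ∫ y, B y * (QQ S hf g).f (x + s • S y)) := by
    apply continuous_id.mul
    rw [continuous_iff_continuousAt]
    intro s
    exact (hasDeriv_scale hR.smoothB.continuous hR.suppB S (QQ S hf g) x s).continuousAt
  rw [intervalIntegral.integral_eq_sub_of_hasDerivAt (fun s _ => h1 s) (h2.intervalIntegrable _ _)]
  congr 1
  simp only [zero_smul, add_zero]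
  rw [integral_mul_const, hR.int, one_mul]

end Ker

end

end ST
end TG
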