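import Pool.Agent.TG.STh2

/-!
# Structure theorem: estimates for the averages
-/

open MeasureTheory Metric Set TrI
open scoped InnerProductSpace ContDiff

namespace TG
namespace ST

noncomputable section

variable {d : ℕ}

/-- the operator maps functions bounded by N and supported in the ball of radius R0 to functions
bounded by η N -/
def SmO (R0 η : ℝ) (A : Op d) : Prop :=
  ∀ (g : Cs d) (N : ℝ), (∀ y, R0 ≤ ‖y‖ → g.f y = 0) → (∀ y, |g.f y| ≤ N) →
    ∀ x, |(A g).f x| ≤ η * N

section Ker

variable {H : Type} [NormedAddCommGroup H] [InnerProductSpace ℝ H] [FiniteDimensional ℝ H]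
  [MeasurableSpace H] [BorelSpace H] {φ B : H → ℝ}

lemma EE_sm (hR : Rdl φ B) (S : H →L[ℝ] Sp d) {c : ℝ} (hc : 0 ≤ c) (hS : ∀ y, ‖y‖ ≤ c * ‖S y‖)
    (R0 : ℝ) (hR0 : 0 ≤ R0) : ∃ C : ℝ, 0 ≤ C ∧ ∀ T : ℝ, 0 < T →
      SmO R0 (C / T ^ (Module.finrank ℝ H)) (EE hR S T) := by
  obtain ⟨Φ, hΦ⟩ := hR.smooth.continuous.bounded_above_of_compact_support (cs_of_supp hR.supp)
  have hΦ0 : 0 ≤ Φ := (norm_nonneg _).trans (hΦ 0)
  set v : ℝ := (volume (ball (0 : H) 1)).toReal with hv
  have hv0 : 0 ≤ v := ENNReal.toReal_nonneg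
  set p := Module.finrank ℝ H with hp
  refine ⟨Φ * ((2 * c * R0) ^ p * v), by positivity, fun T hT g N hg hN x => ?_⟩
  have hN0 : 0 ≤ N := (abs_nonneg _).trans (hN 0)
  have hprod : 0 ≤ Φ * ((2 * c * R0) ^ p * v) / T ^ p * N := by positivity
  rw [EE_apply]
  by_cases hne : ∃ y0 : H, ‖x + T • S y0‖ < R0
  · obtain ⟨y0, hy0⟩ := hne
    set r : ℝ := 2 * c * R0 / T with hr
    have hr0 : 0 ≤ r := by positivity
    have hz : ∀ y, y ∉ closedBall y0 r → φ y * g.f (x + T • S y) = 0 := by
      intro y hy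
      rw [hg, mul_zero]
      by_contra hcon
      rw [not_le] at hcon
      apply hy
      rw [mem_closedBall, dist_eq_norm]
      have h1 : T • S (y - y0) = (x + T • S y) - (x + T • S y0) := by
        rw [map_sub, smul_sub]; abel
      have h2 : T * ‖S (y - y0)‖ ≤ 2 * R0 := by
        calc T * ‖S (y - y0)‖ = ‖T • S (y - y0)‖ := by
              rw [norm_smul, Real.norm_eq_abs, abs_of_pos hT]
          _ ≤ ‖x + T • S y‖ + ‖x + T • S y0‖ := by rw [h1]; exact norm_sub_le _ _
          _ ≤ 2 * R0 := by linarith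
      have h3 : ‖S (y - y0)‖ ≤ 2 * R0 / T := by
        rw [le_div_iff₀ hT]; linarith
      calc ‖y - y0‖ ≤ c * ‖S (y - y0)‖ := hS _
        _ ≤ c * (2 * R0 / T) := mul_le_mul_of_nonneg_left h3 hc
        _ = r := by rw [hr]; ring
    have h4 : ∫ y, φ y * g.f (x + T • S y) = ∫ y in closedBall y0 r, φ y * g.f (x + T • S y) :=
      (setIntegral_eq_integral_of_forall_compl_eq_zero hz).symm
    rw [h4, ← Real.norm_eq_abs]
    have hvol : volume (closedBall y0 r) < ⊤ := measure_closedBall_lt_top
    refine (norm_setIntegral_le_of_norm_le_const (C := Φ * N) hvol (fun y _ => ?_)).trans ?_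
    · rw [norm_mul]
      exact mul_le_mul (hΦ y) (hN _) (norm_nonneg _) hΦ0
    · have h5 : volume.real (closedBall y0 r) = r ^ p * v := by
        rw [measureReal_def, Measure.addHaar_closedBall _ _ hr0, ENNReal.toReal_mul,
          ENNReal.toReal_ofReal (pow_nonneg hr0 _)]
      rw [h5, hr, div_pow]
      apply le_of_eq
      ring
  · push Not at hne
    have h0 : ∀ y, φ y * g.f (x + T • S y) = 0 := fun y => by rw [hg _ (hne y), mul_zero]
    simp_rw [h0]
    rw [integral_zero, abs_zero]
    exact hprod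

lemma EE_slab (hR : Rdl φ B) (S : H →L[ℝ] Sp d) (ν' : Sp d) (w : H) (hw : ⟪S w, ν'⟫_ℝ = 1)
    (R0 : ℝ) (hR0 : 0 < R0) : ∃ C : ℝ, 0 ≤ C ∧ ∀ T : ℝ, 0 < T → ∀ (g : Cs d) (N : ℝ),
      (∀ x, R0 ≤ |⟪x, ν'⟫_ℝ| → g.f x = 0) → (∀ x, |g.f x| ≤ N) →
      ∀ x, |(EE hR S T g).f x| ≤ C / T * N := by
  set C0 : ℝ := ∫ y, |fderiv ℝ φ y w| with hC0
  have hC00 : 0 ≤ C0 := integral_nonneg (fun _ => abs_nonneg _)
  refine ⟨4 * R0 * C0, by positivity, fun T hT g N hg hN x => ?_⟩
  have hN0 : 0 ≤ N := (abs_nonneg _).trans (hN 0)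
  set X : ℝ → ℝ := fun s => 2 * R0 * Real.arctan (s / R0) with hX
  set X' : ℝ → ℝ := fun s => 2 / (1 + (s / R0) ^ 2) with hX'
  have hXd : ∀ s, HasDerivAt X (X' s) s := by
    intro s
    have h1 : HasDerivAt (fun s : ℝ => s / R0) (1 / R0) s := (hasDerivAt_id s).div_const R0
    have h2 := (h1.arctan).const_mul (2 * R0)
    have h3 : 2 * R0 * (1 / (1 + (s / R0) ^ 2) * (1 / R0)) = X' s := by
      change _ = 2 / (1 + (s / R0) ^ 2)
      field_simp
    rw [← h3]
    exact h2
  have hXb : ∀ s, |X s| ≤ 4 * R0 := by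
    intro s
    change |2 * R0 * Real.arctan (s / R0)| ≤ 4 * R0
    rw [abs_mul, abs_of_pos (by positivity : 0 < 2 * R0)]
    have h1 : |Real.arctan (s / R0)| ≤ 2 := by
      rw [abs_le]
      have := Real.arctan_lt_pi_div_two (s / R0)
      have := Real.neg_pi_div_two_lt_arctan (s / R0)
      have := Real.pi_le_four
      constructor <;> linarith
    calc 2 * R0 * |Real.arctan (s / R0)| ≤ 2 * R0 * 2 := mul_le_mul_of_nonneg_left h1 (by positivity)
      _ = 4 * R0 := by ring
  have hX'0 : ∀ s, 0 ≤ X' s := fun s => by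
    change 0 ≤ 2 / (1 + (s / R0) ^ 2)
    positivity
  have hX'1 : ∀ s, |s| < R0 → 1 ≤ X' s := by
    intro s hs
    change 1 ≤ 2 / (1 + (s / R0) ^ 2)
    rw [le_div_iff₀ (by positivity)]
    have h1 : |s / R0| ≤ 1 := by
      rw [abs_div, abs_of_pos hR0, div_le_one hR0]
      exact hs.le
    have h2 : (s / R0) ^ 2 ≤ 1 := by
      rw [← sq_abs]
      have := abs_nonneg (s / R0)
      nlinarith
    linarith
  set a : ℝ := ⟪x, ν'⟫_ℝ with ha
  -- the linear functional
  set l : H →L[ℝ] ℝ := (innerSL ℝ ν').comp S with hl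
  have hlapp : ∀ y, l y = ⟪S y, ν'⟫_ℝ := fun y => by
    rw [hl, ContinuousLinearMap.comp_apply, innerSL_apply_apply, real_inner_comm]
  set u : H → ℝ := fun y => X (a + T * l y) with hu
  have hud : ∀ y, HasFDerivAt u (X' (a + T * l y) • (T • l)) y := by
    intro y
    have h1 : HasFDerivAt (fun y => a + T * l y) (T • l) y := by
      have := (l.hasFDerivAt (x := y)).const_mul T
      exact this.const_add a
    exact (hXd _).comp_hasFDerivAt y h1
  have hudiff : Differentiable ℝ u := fun y => (hud y).differentiableAt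
  have hfu : ∀ y, fderiv ℝ u y w = T * X' (a + T * l y) := by
    intro y
    rw [(hud y).fderiv]
    simp only [smul_apply, smul_eq_mul]
    rw [hlapp w, hw]
    ring
  have hX'c : Continuous X' := by
    change Continuous (fun s : ℝ => 2 / (1 + (s / R0) ^ 2))
    apply Continuous.div continuous_const (by fun_prop)
    intro s
    positivity
  have hlc : Continuous (fun y : H => a + T * l y) := continuous_const.add (continuous_const.mul l.continuous)
  have hφc := hR.smooth.continuous
  have hφcs : HasCompactSupport φ := cs_of_supp hR.supp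
  have hgc : Continuous (fun y : H => g.f (x + T • S y)) := g.cont.comp (by fun_prop)
  have hint1 : Integrable (fun y => φ y * (N * X' (a + T * l y))) :=
    (hφc.mul (continuous_const.mul (hX'c.comp hlc))).integrable_of_hasCompactSupport hφcs.mul_right
  rw [EE_apply]
  have h1 : |∫ y, φ y * g.f (x + T • S y)| ≤ ∫ y, φ y * (N * X' (a + T * l y)) := by
    rw [← Real.norm_eq_abs]
    refine (norm_integral_le_integral_norm _).trans ?_
    apply integral_mono_of_nonneg (Filter.Eventually.of_forall (fun _ => norm_nonneg _)) hint1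
    refine Filter.Eventually.of_forall (fun y => ?_)
    change ‖φ y * g.f (x + T • S y)‖ ≤ φ y * (N * X' (a + T * l y))
    rw [norm_mul, Real.norm_eq_abs, Real.norm_eq_abs, abs_of_nonneg (hR.nonneg y)]
    apply mul_le_mul_of_nonneg_left _ (hR.nonneg y)
    have e1 : ⟪x + T • S y, ν'⟫_ℝ = a + T * l y := by
      rw [inner_add_left, real_inner_smul_left, hlapp]
    by_cases hcase : R0 ≤ |a + T * l y|
    · rw [hg _ (by rw [e1]; exact hcase), abs_zero]
      exact mul_nonneg hN0 (hX'0 _)
    · push Not at hcase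
      have h2 := hX'1 _ hcase
      calc |g.f (x + T • S y)| ≤ N * 1 := by rw [mul_one]; exact hN _
        _ ≤ N * X' (a + T * l y) := mul_le_mul_of_nonneg_left h2 hN0
  refine h1.trans ?_
  have hφd : Continuous (fun y => fderiv ℝ φ y w) :=
    (hR.smooth.continuous_fderiv (by simp)).clm_apply continuous_const
  have hφdcs : HasCompactSupport (fun y => fderiv ℝ φ y w) := by
    have := hφcs.fderiv_apply (𝕜 := ℝ) (v := w)
    exact this
  have huc : Continuous u := hudiff.continuous
  have key := integral_mul_fderiv_eq_neg_fderiv_mul_of_integrable (μ := (volume : Measure H))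
      (f := φ) (g := u) (v := w) ?_ ?_ ?_
      (fun y _ => hR.smooth.differentiable (by simp) y) (fun y _ => hudiff y)
  · have h2 : ∫ y, φ y * (N * X' (a + T * l y)) = N / T * ∫ y, φ y * fderiv ℝ u y w := by
      rw [← integral_const_mul]
      congr 1
      funext y
      rw [hfu]
      field_simp
    rw [h2, key]
    have h3 : |∫ y, fderiv ℝ φ y w * u y| ≤ 4 * R0 * C0 := by
      rw [← Real.norm_eq_abs]
      refine (norm_integral_le_integral_norm _).trans ?_
      rw [hC0, ← integral_const_mul]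
      apply integral_mono_of_nonneg (Filter.Eventually.of_forall (fun _ => norm_nonneg _))
      · exact ((hφd.abs).integrable_of_hasCompactSupport hφdcs.abs).const_mul _
      · refine Filter.Eventually.of_forall (fun y => ?_)
        change ‖fderiv ℝ φ y w * u y‖ ≤ 4 * R0 * |fderiv ℝ φ y w|
        rw [norm_mul, Real.norm_eq_abs, Real.norm_eq_abs, mul_comm]
        exact mul_le_mul_of_nonneg_right (hXb _) (abs_nonneg _)
    have h4 : -∫ y, fderiv ℝ φ y w * u y ≤ 4 * R0 * C0 := (neg_le_abs _).trans h3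
    calc N / T * -∫ y, fderiv ℝ φ y w * u y ≤ N / T * (4 * R0 * C0) :=
          mul_le_mul_of_nonneg_left h4 (by positivity)
      _ = 4 * R0 * C0 / T * N := by ring
  · exact (hφd.mul huc).integrable_of_hasCompactSupport hφdcs.mul_right
  · simp_rw [hfu]
    exact (hφc.mul (continuous_const.mul (hX'c.comp hlc))).integrable_of_hasCompactSupport hφcs.mul_right
  · exact (hφc.mul huc).integrable_of_hasCompactSupport hφcs.mul_right

end Ker

end

end ST
end TG
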