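import Pool.Agent.TG.STh3

/-!
# Structure theorem: averages in hyperplanes
-/

open MeasureTheory Metric Set TrI
open scoped InnerProductSpace ContDiff

namespace TG
namespace ST

noncomputable section

variable {d : ℕ}

/-- the hyperplane orthogonal to ν -/
abbrev Hn (ν : Sp d) : Submodule ℝ (Sp d) := (Submodule.span ℝ {ν})ᗮ

/-- its inclusion -/
def Sn (ν : Sp d) : Hn ν →L[ℝ] Sp d := (Hn ν).subtypeL

lemma Sn_apply (ν : Sp d) (y : Hn ν) : Sn ν y = (y : Sp d) := rfl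

lemma Hn_inner (ν : Sp d) (y : Hn ν) : ⟪(y : Sp d), ν⟫_ℝ = 0 :=
  Submodule.mem_orthogonal_singleton_iff_inner_left.mp y.2

lemma Hn_inner' (ν : Sp d) (y : Hn ν) : ⟪ν, (y : Sp d)⟫_ℝ = 0 := by
  rw [real_inner_comm]; exact Hn_inner ν y

lemma Hn_fin (ν : Sp d) (hν : ‖ν‖ = 1) : Module.finrank ℝ (Hn ν) = d - 1 := by
  have h1 := Submodule.finrank_add_finrank_orthogonal (Submodule.span ℝ {ν})
  have h0 : ν ≠ 0 := by
    intro h
    rw [h, norm_zero] at hν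
    exact zero_ne_one hν
  rw [finrank_span_singleton h0, finrank_euclideanSpace_fin] at h1
  have : Module.finrank ℝ (Hn ν) = Module.finrank ℝ ((Submodule.span ℝ {ν})ᗮ : Submodule ℝ (Sp d)) := rfl
  omega

lemma Hn_nontrivial (hd : 2 ≤ d) (ν : Sp d) (hν : ‖ν‖ = 1) : Nontrivial (Hn ν) := by
  apply Module.nontrivial_of_finrank_pos (R := ℝ)
  rw [Hn_fin ν hν]
  omega

/-- orthogonal projection to the hyperplane -/
def Pn (ν : Sp d) (hν : ‖ν‖ = 1) : Sp d →L[ℝ] Hn ν :=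
  (ContinuousLinearMap.id ℝ (Sp d) - (innerSL ℝ ν).smulRight ν).codRestrict (Hn ν) (by
    intro x
    rw [Submodule.mem_orthogonal_singleton_iff_inner_left]
    simp only [sub_apply, ContinuousLinearMap.id_apply, ContinuousLinearMap.smulRight_apply,
      innerSL_apply_apply]
    rw [inner_sub_left, real_inner_smul_left, real_inner_self_eq_norm_sq, hν, real_inner_comm]
    ring)

lemma Pn_coe (ν : Sp d) (hν : ‖ν‖ = 1) (x : Sp d) : ((Pn ν hν x : Hn ν) : Sp d) = x - ⟪ν, x⟫_ℝ • ν := rfl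

lemma Pn_tang (ν : Sp d) (hν : ‖ν‖ = 1) (x : Sp d) : ((Pn ν hν x : Hn ν) : Sp d) = tang ν x := rfl

lemma Pn_of_mem (ν : Sp d) (hν : ‖ν‖ = 1) (y : Hn ν) : Pn ν hν (y : Sp d) = y := by
  apply Subtype.ext
  rw [Pn_coe, Hn_inner', zero_smul, sub_zero]

lemma Pn_self (ν : Sp d) (hν : ‖ν‖ = 1) : Pn ν hν ν = 0 := by
  apply Subtype.ext
  rw [Pn_coe, real_inner_self_eq_norm_sq, hν]
  simp

lemma Pn_tang' (ν : Sp d) (hν : ‖ν‖ = 1) (x : Sp d) : Pn ν hν (tang ν x) = Pn ν hν x := by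
  rw [← Pn_tang ν hν x, Pn_of_mem]

/-- the frame of the hyperplane -/
def fr (ν : Sp d) (hν : ‖ν‖ = 1) (k : Fin d) : Hn ν := Pn ν hν (EuclideanSpace.single k (1 : ℝ))

lemma sum_single (x : Sp d) : ∑ k, x k • (EuclideanSpace.single k (1 : ℝ) : Sp d) = x := by
  ext j
  simp [Finset.sum_apply, Pi.single_apply]

lemma fr_frame (ν : Sp d) (hν : ‖ν‖ = 1) (y : Hn ν) : ∑ k, ⟪y, fr ν hν k⟫_ℝ • fr ν hν k = y := by
  have h1 : ∀ k, ⟪y, fr ν hν k⟫_ℝ = (y : Sp d) k := by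
    intro k
    rw [Submodule.coe_inner]
    unfold fr
    rw [Pn_coe, inner_sub_right, real_inner_smul_right, Hn_inner, mul_zero, sub_zero]
    simp [PiLp.inner_apply]
  simp_rw [h1]
  have h2 : ∑ k, (y : Sp d) k • fr ν hν k = Pn ν hν (∑ k, (y : Sp d) k • (EuclideanSpace.single k (1 : ℝ) : Sp d)) := by
    rw [map_sum]
    simp only [map_smul]
    rfl
  rw [h2, sum_single, Pn_of_mem]

lemma dd_dd (u : Sp d) (g : Cs d) (x : Sp d) :
    (dd u (dd u g)).f x = fderiv ℝ (fderiv ℝ g.f) x u u := by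
  have h1 := itD_apply (fun _ : Fin 2 => u) g x
  rw [iteratedFDeriv_two_apply] at h1
  rw [← h1]
  unfold itD
  simp [List.ofFn_succ]

lemma QQ_plane (ν : Sp d) (hν : ‖ν‖ = 1) (g : Cs d) :
    (QQ (Sn ν) (fr ν hν) g).f = opNu ν g.f := by
  funext x
  rw [QQ_apply]
  unfold opNu lap d2
  simp_rw [dd_dd, iteratedFDeriv_two_apply]
  set D := fderiv ℝ (fderiv ℝ g.f) x with hD
  have h1 : ∀ k, D (Sn ν (fr ν hν k)) (Sn ν (fr ν hν k)) =
      D (EuclideanSpace.single k (1 : ℝ)) (EuclideanSpace.single k (1 : ℝ))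
      - ν k * D (EuclideanSpace.single k (1 : ℝ)) ν - ν k * D ν (EuclideanSpace.single k (1 : ℝ))
      + ν k * ν k * D ν ν := by
    intro k
    have e1 : Sn ν (fr ν hν k) = EuclideanSpace.single k (1 : ℝ) - ν k • ν := by
      rw [Sn_apply]
      unfold fr
      rw [Pn_coe]
      simp [PiLp.inner_apply]
    rw [e1]
    simp only [map_sub, map_smul, sub_apply, smul_apply, smul_eq_mul]
    ring
  simp_rw [h1]
  rw [Finset.sum_add_distrib, Finset.sum_sub_distrib, Finset.sum_sub_distrib]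
  have h2 : ∑ k, ν k * D (EuclideanSpace.single k (1 : ℝ)) ν = D ν ν := by
    have : D ν ν = D (∑ k, ν k • (EuclideanSpace.single k (1 : ℝ) : Sp d)) ν := by rw [sum_single]
    rw [this, map_sum]
    simp only [map_smul, sum_apply, smul_apply, smul_eq_mul]
  have h3 : ∑ k, ν k * D ν (EuclideanSpace.single k (1 : ℝ)) = D ν ν := by
    have : D ν ν = D ν (∑ k, ν k • (EuclideanSpace.single k (1 : ℝ) : Sp d)) := by rw [sum_single]
    rw [this, map_sum]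
    simp only [map_smul, smul_eq_mul]
  have h4 : ∑ k, ν k * ν k * D ν ν = D ν ν := by
    rw [← Finset.sum_mul]
    have : ∑ k, ν k * ν k = 1 := by
      have h5 : ‖ν‖ ^ 2 = 1 := by rw [hν]; norm_num
      rw [EuclideanSpace.norm_sq_eq] at h5
      rw [← h5]
      apply Finset.sum_congr rfl
      intro k _
      rw [Real.norm_eq_abs, sq_abs]; ring
    rw [this, one_mul]
  rw [h2, h3, h4]
  ring

/-! ### the plane formula -/

section PF

variable {ν : Sp d} {φ B : Hn ν → ℝ}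

lemma norm_ge (hν : ‖ν‖ = 1) (c : ℝ) (z : Hn ν) : ‖z‖ ≤ ‖c • ν + (z : Sp d)‖ := by
  have h1 : Pn ν hν (c • ν + (z : Sp d)) = z := by
    rw [map_add, map_smul, Pn_self, smul_zero, zero_add, Pn_of_mem]
  have h2 : ‖c • ν + (z : Sp d)‖ ^ 2 = ‖c • ν‖ ^ 2 + ‖(z : Sp d)‖ ^ 2 := by
    rw [@norm_add_sq_real, real_inner_smul_left, Hn_inner']
    ring
  have h3 : ‖z‖ = ‖(z : Sp d)‖ := rfl
  rw [h3]
  apply le_of_sq_le_sq _ (norm_nonneg _)
  rw [h2]
  have := sq_nonneg ‖c • ν‖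
  linarith

lemma EE_plane (hν : ‖ν‖ = 1) (hR : Rdl φ B) (T : ℝ) (hT : 0 < T) (g : Cs d) (x : Sp d) :
    (EE hR (Sn ν) T g).f x = 1 / T ^ (Module.finrank ℝ (Hn ν)) *
      ∫ z : Hn ν, φ ((1 / T) • (z - Pn ν hν x)) * g.f (⟪ν, x⟫_ℝ • ν + (z : Sp d)) := by
  rw [EE_apply]
  set G : Hn ν → ℝ := fun z => φ ((1 / T) • (z - Pn ν hν x)) * g.f (⟪ν, x⟫_ℝ • ν + (z : Sp d)) with hG
  have h1 : ∀ y : Hn ν, φ y * g.f (x + T • Sn ν y) = (fun z => G (Pn ν hν x + z)) (T • y) := by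
    intro y
    change _ = φ ((1 / T) • (Pn ν hν x + T • y - Pn ν hν x)) *
      g.f (⟪ν, x⟫_ℝ • ν + ((Pn ν hν x + T • y : Hn ν) : Sp d))
    rw [add_sub_cancel_left, smul_smul, one_div, inv_mul_cancel₀ hT.ne', one_smul]
    congr 2
    rw [Submodule.coe_add, Pn_coe, Submodule.coe_smul, Sn_apply]
    abel
  simp_rw [h1]
  have h2 := Measure.integral_comp_smul (volume : Measure (Hn ν)) (fun z => G (Pn ν hν x + z)) T
  rw [integral_add_left_eq_self G] at h2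
  refine h2.trans ?_
  rw [abs_of_nonneg (by positivity), smul_eq_mul, one_div]

lemma plane_bound (hν : ‖ν‖ = 1) (R0 : ℝ) {W : Hn ν → ℝ} {M : ℝ} (hM : 0 ≤ M)
    (hW : ∀ z, ‖z‖ < R0 → |W z| ≤ M)
    {g : Sp d → ℝ} {N : ℝ} (hg : ∀ y, R0 ≤ ‖y‖ → g y = 0) (hN : ∀ y, |g y| ≤ N) (c : ℝ) :
    |∫ z : Hn ν, W z * g (c • ν + (z : Sp d))| ≤
      M * N * (volume (closedBall (0 : Hn ν) R0)).toReal := by
  have hz : ∀ z : Hn ν, z ∉ closedBall (0 : Hn ν) R0 → W z * g (c • ν + (z : Sp d)) = 0 := by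
    intro z hz
    rw [mem_closedBall, dist_zero_right, not_le] at hz
    rw [hg _ (hz.le.trans (norm_ge hν c z)), mul_zero]
  rw [← setIntegral_eq_integral_of_forall_compl_eq_zero hz, ← Real.norm_eq_abs]
  refine norm_setIntegral_le_of_norm_le_const (C := M * N) measure_closedBall_lt_top (fun z _ => ?_)
  rw [norm_mul, Real.norm_eq_abs, Real.norm_eq_abs]
  by_cases h1 : ‖z‖ < R0
  · exact mul_le_mul (hW z h1) (hN _) (abs_nonneg _) hM
  · rw [not_lt] at h1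
    rw [hg _ (h1.trans (norm_ge hν c z)), abs_zero, mul_zero]
    exact mul_nonneg hM ((abs_nonneg _).trans (hN 0))

lemma plane_int (hν : ‖ν‖ = 1) (R0 : ℝ) {W : Hn ν → ℝ} (hW : Continuous W)
    {g : Sp d → ℝ} (hgc : Continuous g) (hg : ∀ y, R0 ≤ ‖y‖ → g y = 0) (c : ℝ) :
    Integrable (fun z : Hn ν => W z * g (c • ν + (z : Sp d))) := by
  apply Continuous.integrable_of_hasCompactSupport
  · exact hW.mul (hgc.comp (by fun_prop))
  · apply HasCompactSupport.intro (isCompact_closedBall (0 : Hn ν) R0)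
    intro z hz
    rw [mem_closedBall, dist_zero_right, not_le] at hz
    rw [hg _ (hz.le.trans (norm_ge hν c z)), mul_zero]

lemma Rdl.lip (hR : Rdl φ B) : ∃ Λ : ℝ, 0 ≤ Λ ∧ ∀ a b, |φ a - φ b| ≤ Λ * ‖a - b‖ := by
  obtain ⟨C, hC⟩ := hR.smooth.lipschitzWith_of_hasCompactSupport (cs_of_supp hR.supp) (by simp)
  refine ⟨C, C.2, fun a b => ?_⟩
  have := hC.dist_le_mul a b
  rw [Real.dist_eq, dist_eq_norm] at this
  exact this

/-- Lipschitz bound along the hyperplane -/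
lemma EE_lip (hν : ‖ν‖ = 1) (hR : Rdl φ B) (R0 : ℝ) : ∃ C : ℝ, 0 ≤ C ∧ ∀ T : ℝ, 0 < T →
    ∀ (g : Cs d) (N : ℝ), (∀ y, R0 ≤ ‖y‖ → g.f y = 0) → (∀ y, |g.f y| ≤ N) →
    ∀ (x : Sp d) (h : Hn ν), |(EE hR (Sn ν) T g).f (x + h) - (EE hR (Sn ν) T g).f x| ≤
      C / T ^ (Module.finrank ℝ (Hn ν) + 1) * ‖h‖ * N := by
  obtain ⟨Λ, hΛ0, hΛ⟩ := hR.lip
  refine ⟨Λ * (volume (closedBall (0 : Hn ν) R0)).toReal,
    mul_nonneg hΛ0 ENNReal.toReal_nonneg, fun T hT g N hg hN x h => ?_⟩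
  set p := Module.finrank ℝ (Hn ν) with hp
  have e1 : ⟪ν, x + (h : Sp d)⟫_ℝ = ⟪ν, x⟫_ℝ := by rw [inner_add_right, Hn_inner', add_zero]
  have e2 : Pn ν hν (x + (h : Sp d)) = Pn ν hν x + h := by rw [map_add, Pn_of_mem]
  have hc1 : Continuous (fun z : Hn ν => φ ((1 / T) • (z - (Pn ν hν x + h)))) :=
    hR.smooth.continuous.comp (by fun_prop)
  have hc2 : Continuous (fun z : Hn ν => φ ((1 / T) • (z - Pn ν hν x))) :=
    hR.smooth.continuous.comp (by fun_prop)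
  rw [EE_plane hν hR T hT, EE_plane hν hR T hT, e1, e2, ← mul_sub,
    ← integral_sub (plane_int hν R0 hc1 g.cont hg _) (plane_int hν R0 hc2 g.cont hg _)]
  have h1 : ∀ z : Hn ν, φ ((1 / T) • (z - (Pn ν hν x + h))) * g.f (⟪ν, x⟫_ℝ • ν + (z : Sp d)) -
      φ ((1 / T) • (z - Pn ν hν x)) * g.f (⟪ν, x⟫_ℝ • ν + (z : Sp d)) =
      (φ ((1 / T) • (z - (Pn ν hν x + h))) - φ ((1 / T) • (z - Pn ν hν x))) *
        g.f (⟪ν, x⟫_ℝ • ν + (z : Sp d)) := fun z => by ring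
  simp_rw [h1]
  have h2 := plane_bound hν R0 (W := fun z => φ ((1 / T) • (z - (Pn ν hν x + h))) -
    φ ((1 / T) • (z - Pn ν hν x))) (M := Λ * (‖h‖ / T)) (by positivity) (fun z _ => by
      refine (hΛ _ _).trans ?_
      apply mul_le_mul_of_nonneg_left _ hΛ0
      rw [← smul_sub]
      have : z - (Pn ν hν x + h) - (z - Pn ν hν x) = -h := by abel
      rw [this, norm_smul, norm_neg, Real.norm_eq_abs, abs_of_pos (by positivity)]
      apply le_of_eq
      ring) hg hN ⟪ν, x⟫_ℝ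
  rw [abs_mul, abs_of_nonneg (by positivity : 0 ≤ 1 / T ^ p)]
  refine (mul_le_mul_of_nonneg_left h2 (by positivity)).trans (le_of_eq ?_)
  rw [pow_succ]
  field_simp

/-- E(T) E(T') - E(T') is small for T much smaller than T' -/
lemma EE_self (hν : ‖ν‖ = 1) (hR : Rdl φ B) (R0 : ℝ) : ∃ C : ℝ, 0 ≤ C ∧ ∀ T T' : ℝ, 0 < T → 0 < T' →
    SmO R0 (C * T / T' ^ (Module.finrank ℝ (Hn ν) + 1))
      (EE hR (Sn ν) T * EE hR (Sn ν) T' - EE hR (Sn ν) T') := by
  obtain ⟨C, hC0, hC⟩ := EE_lip hν hR R0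
  refine ⟨C, hC0, fun T T' hT hT' g N hg hN x => ?_⟩
  have hN0 : 0 ≤ N := (abs_nonneg _).trans (hN 0)
  set F := EE hR (Sn ν) T' g with hF
  have h0 : ((EE hR (Sn ν) T * EE hR (Sn ν) T' - EE hR (Sn ν) T') g).f x =
      (EE hR (Sn ν) T F).f x - F.f x := rfl
  have hφc := hR.smooth.continuous
  have hφcs : HasCompactSupport φ := cs_of_supp hR.supp
  have hi1 : Integrable (fun y : Hn ν => φ y * F.f (x + T • Sn ν y)) :=
    (hφc.mul (F.cont.comp (by fun_prop))).integrable_of_hasCompactSupport hφcs.mul_right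
  have hi0 : Integrable φ := hφc.integrable_of_hasCompactSupport hφcs
  have hi2 : Integrable (fun y : Hn ν => φ y * F.f x) := hi0.mul_const _
  have h1 : F.f x = ∫ y : Hn ν, φ y * F.f x := by rw [integral_mul_const, hR.int, one_mul]
  rw [h0, EE_apply]
  conv_lhs => rw [h1]
  rw [← integral_sub hi1 hi2, ← Real.norm_eq_abs]
  refine (norm_integral_le_integral_norm _).trans ?_
  have h2 : C * T / T' ^ (Module.finrank ℝ (Hn ν) + 1) * N =
      ∫ y : Hn ν, φ y * (C * T / T' ^ (Module.finrank ℝ (Hn ν) + 1) * N) := by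
    rw [integral_mul_const, hR.int, one_mul]
  rw [h2]
  apply integral_mono_of_nonneg (Filter.Eventually.of_forall (fun _ => norm_nonneg _))
    (hi0.mul_const _)
  refine Filter.Eventually.of_forall (fun y => ?_)
  change ‖φ y * F.f (x + T • Sn ν y) - φ y * F.f x‖ ≤
    φ y * (C * T / T' ^ (Module.finrank ℝ (Hn ν) + 1) * N)
  rw [← mul_sub, norm_mul, Real.norm_eq_abs, abs_of_nonneg (hR.nonneg y), Real.norm_eq_abs]
  by_cases hy : 1 ≤ ‖y‖
  · rw [hR.supp y hy]; simp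
  · push Not at hy
    apply mul_le_mul_of_nonneg_left _ (hR.nonneg y)
    have h3 := hC T' hT' g N hg hN x (T • y)
    have h4 : T • Sn ν y = ((T • y : Hn ν) : Sp d) := rfl
    rw [h4]
    refine h3.trans ?_
    have h5 : ‖T • y‖ ≤ T := by
      rw [norm_smul, Real.norm_eq_abs, abs_of_pos hT]
      nlinarith [norm_nonneg y]
    calc C / T' ^ (Module.finrank ℝ (Hn ν) + 1) * ‖T • y‖ * N
        ≤ C / T' ^ (Module.finrank ℝ (Hn ν) + 1) * T * N := by
          apply mul_le_mul_of_nonneg_right _ hN0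
          exact mul_le_mul_of_nonneg_left h5 (by positivity)
      _ = C * T / T' ^ (Module.finrank ℝ (Hn ν) + 1) * N := by ring

/-- E(T) of functions supported in a ball lives in a slab -/
lemma EE_slab_supp (hR : Rdl φ B) (hν : ‖ν‖ = 1) (R0 T : ℝ) (g : Cs d)
    (hg : ∀ y, R0 ≤ ‖y‖ → g.f y = 0) (x : Sp d) (hx : R0 ≤ |⟪x, ν⟫_ℝ|) :
    (EE hR (Sn ν) T g).f x = 0 := by
  rw [EE_apply]
  have h0 : ∀ y : Hn ν, φ y * g.f (x + T • Sn ν y) = 0 := by
    intro y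
    rw [hg, mul_zero]
    have h1 : ⟪x + T • Sn ν y, ν⟫_ℝ = ⟪x, ν⟫_ℝ := by
      rw [inner_add_left, real_inner_smul_left, Sn_apply, Hn_inner, mul_zero, add_zero]
    have h2 := abs_real_inner_le_norm (x + T • Sn ν y) ν
    rw [h1, hν, mul_one] at h2
    exact hx.trans h2
  simp_rw [h0, integral_zero]

end PF

end

end ST
end TG
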