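import Pool.Agent.TG.STh4

/-!
# Structure theorem: comparison of E(T) with plane integrals
-/

open MeasureTheory Metric Set TrI
open scoped InnerProductSpace ContDiff

namespace TG
namespace ST

noncomputable section

variable {d : ℕ}

lemma itD_le {j : ℕ} (m : Fin j → Sp d) (g : Cs d) (x : Sp d) :
    |(itD m g).f x| ≤ ‖iteratedFDeriv ℝ j g.f x‖ * ∏ i, ‖m i‖ := by
  rw [itD_apply, ← Real.norm_eq_abs]
  exact ContinuousMultilinearMap.le_opNorm _ _

lemma itD_one (h : Sp d) : itD (fun _ : Fin 1 => h) = dd h := by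
  unfold itD
  simp [List.ofFn_succ]

lemma itD_two (h h' : Sp d) : itD ![h, h'] = dd h * dd h' := by
  unfold itD
  simp [List.ofFn_succ]

lemma dd_le (h : Sp d) (g : Cs d) (x : Sp d) {N : ℝ} (hN : ‖iteratedFDeriv ℝ 1 g.f x‖ ≤ N) :
    |(dd h g).f x| ≤ N * ‖h‖ := by
  have h1 := itD_le (fun _ : Fin 1 => h) g x
  rw [itD_one] at h1
  simp only [Finset.univ_unique, Finset.prod_const, Finset.card_singleton, pow_one] at h1
  exact h1.trans (mul_le_mul_of_nonneg_right hN (norm_nonneg _))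

lemma dd_dd_le (h h' : Sp d) (g : Cs d) (x : Sp d) {N : ℝ} (hN : ‖iteratedFDeriv ℝ 2 g.f x‖ ≤ N) :
    |(dd h (dd h' g)).f x| ≤ N * ‖h‖ * ‖h'‖ := by
  have h1 := itD_le ![h, h'] g x
  rw [itD_two, Fin.prod_univ_two] at h1
  simp only [Matrix.cons_val_zero, Matrix.cons_val_one] at h1
  have h2 : 0 ≤ ‖h‖ * ‖h'‖ := by positivity
  calc |(dd h (dd h' g)).f x| ≤ ‖iteratedFDeriv ℝ 2 g.f x‖ * (‖h‖ * ‖h'‖) := h1
    _ ≤ N * (‖h‖ * ‖h'‖) := mul_le_mul_of_nonneg_right hN h2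
    _ = _ := by ring

/-- bound of the second derivative by directional derivatives -/
lemma iter2_le (g : Cs d) (x : Sp d) {N : ℝ} (hN : 0 ≤ N)
    (h : ∀ u v : Sp d, |(dd u (dd v g)).f x| ≤ N * ‖u‖ * ‖v‖) : ‖iteratedFDeriv ℝ 2 g.f x‖ ≤ N := by
  apply ContinuousMultilinearMap.opNorm_le_bound hN
  intro m
  have h1 : m = ![m 0, m 1] := by
    funext i
    fin_cases i <;> rfl
  rw [← itD_apply, h1, itD_two, Fin.prod_univ_two]
  simp only [Matrix.cons_val_zero, Matrix.cons_val_one, Real.norm_eq_abs]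
  calc |((dd (m 0) * dd (m 1)) g).f x| ≤ N * ‖m 0‖ * ‖m 1‖ := h _ _
    _ = _ := by ring

/-- multiplication operator -/
def mulC (a : Cs d) : Op d where
  toFun g := ⟨fun x => a.f x * g.f x, a.cd.mul g.cd⟩
  map_add' g g' := by
    apply Cs.ext
    intro x
    change a.f x * (g.f x + g'.f x) = a.f x * g.f x + a.f x * g'.f x
    ring
  map_smul' c g := by
    apply Cs.ext
    intro x
    change a.f x * (c * g.f x) = c * (a.f x * g.f x)
    ring

lemma mulC_apply (a g : Cs d) (x : Sp d) : (mulC a g).f x = a.f x * g.f x := rfl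

lemma dd_mulC (a g : Cs d) (h : Sp d) :
    dd h (mulC a g) = mulC (dd h a) g + mulC a (dd h g) := by
  apply Cs.ext
  intro x
  change fderiv ℝ (fun x => a.f x * g.f x) x h = fderiv ℝ a.f x h * g.f x + a.f x * fderiv ℝ g.f x h
  rw [fderiv_fun_mul (a.diff x) (g.diff x)]
  simp only [add_apply, smul_apply, smul_eq_mul]
  ring

lemma dd_add_dir (h h' : Sp d) : (dd (h + h') : Op d) = dd h + dd h' := by
  apply LinearMap.ext
  intro g
  apply Cs.ext
  intro x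
  change fderiv ℝ g.f x (h + h') = fderiv ℝ g.f x h + fderiv ℝ g.f x h'
  rw [map_add]

lemma dd_supp {R : ℝ} {g : Cs d} (hg : ∀ y, R ≤ ‖y‖ → g.f y = 0) (h : Sp d) (y : Sp d) (hy : R ≤ ‖y‖) :
    (dd h g).f y = 0 := by
  -- g vanishes on the complement of the open ball; by continuity of the derivative it suffices
  -- to look at points of the exterior; at boundary points use a limit
  by_contra hne
  have hcont := (dd h g).cont
  have h1 : ∀ z, R < ‖z‖ → (dd h g).f z = 0 := by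
    intro z hz
    have h2 : g.f =ᶠ[nhds z] fun _ => (0 : ℝ) := by
      have h3 : {y : Sp d | R < ‖y‖} ∈ nhds z := (isOpen_lt continuous_const continuous_norm).mem_nhds hz
      filter_upwards [h3] with y hy
      exact hg y (le_of_lt hy)
    rw [dd_apply, h2.fderiv_eq]
    simp
  rcases hy.lt_or_eq with h2 | h2
  · exact hne (h1 y h2)
  · -- boundary point: if R > 0 approach radially, otherwise y = 0 or everything vanishes
    by_cases hR : 0 < R
    · have h3 : Filter.Tendsto (fun t : ℝ => (1 + t) • y) (nhdsWithin 0 (Ioi 0)) (nhds y) := by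
        have : Filter.Tendsto (fun t : ℝ => (1 + t) • y) (nhds 0) (nhds ((1 + 0 : ℝ) • y)) :=
          (Continuous.tendsto (by fun_prop) 0)
        rw [add_zero, one_smul] at this
        exact this.mono_left nhdsWithin_le_nhds
      have h4 := (hcont.tendsto y).comp h3
      have h5 : Filter.Tendsto (fun _ : ℝ => (0 : ℝ)) (nhdsWithin 0 (Ioi 0)) (nhds ((dd h g).f y)) := by
        apply h4.congr'
        filter_upwards [self_mem_nhdsWithin] with t ht
        change (dd h g).f ((1 + t) • y) = 0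
        apply h1
        rw [norm_smul, Real.norm_eq_abs, ← h2, abs_of_pos (by
          have : (0 : ℝ) < t := ht
          linarith)]
        have : (0 : ℝ) < t := ht
        nlinarith
      exact hne (tendsto_nhds_unique h5 tendsto_const_nhds).symm.symm
    · have hz : ∀ z, g.f z = 0 := fun z => hg z ((not_lt.mp hR).trans (norm_nonneg z))
      apply hne
      rw [dd_apply]
      have : g.f = fun _ => (0 : ℝ) := funext hz
      rw [this]; simp

section PF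

variable {ν : Sp d} {φ B : Hn ν → ℝ}

lemma gdP (ν : Sp d) (R0 : ℝ) (hR0 : 0 ≤ R0) : GD (volume : Measure (Hn ν))
    ((closedBall (0 : Hn ν) R0).indicator (fun _ => (1 : ℝ))) (fun y => (y : Sp d)) R0 where
  ρ0 := hR0
  int := by
    rw [integrable_indicator_iff measurableSet_closedBall]
    exact integrableOn_const (ne_of_lt measure_closedBall_lt_top)
  meas := measurable_subtype_coe
  bd y hy := by
    by_contra hcon
    apply hy
    rw [indicator_of_notMem]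
    rw [mem_closedBall, dist_zero_right]
    exact hcon

/-- the plane integral as an operator -/
def PLo (ν : Sp d) (R0 : ℝ) (hR0 : 0 ≤ R0) : Op d where
  toFun g := ⟨fun x => (goOp (gdP ν R0 hR0) g).f (⟪ν, x⟫_ℝ • ν),
    (goOp (gdP ν R0 hR0) g).cd.comp ((contDiff_const.inner ℝ contDiff_id).smul contDiff_const)⟩
  map_add' g g' := by
    apply Cs.ext
    intro x
    change (goOp (gdP ν R0 hR0) (g + g')).f (⟪ν, x⟫_ℝ • ν) = _
    rw [map_add]
    rfl
  map_smul' c g := by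
    apply Cs.ext
    intro x
    change (goOp (gdP ν R0 hR0) (c • g)).f (⟪ν, x⟫_ℝ • ν) = _
    rw [map_smul]
    rfl

lemma PLo_apply (hν : ‖ν‖ = 1) (R0 : ℝ) (hR0 : 0 ≤ R0) {g : Cs d} (hg : ∀ y, R0 ≤ ‖y‖ → g.f y = 0)
    (x : Sp d) : (PLo ν R0 hR0 g).f x = plInt ν ⟪ν, x⟫_ℝ g.f := by
  change ∫ y : Hn ν, (closedBall (0 : Hn ν) R0).indicator (fun _ => (1 : ℝ)) y *
    g.f (⟪ν, x⟫_ℝ • ν + (y : Sp d)) = ∫ y : Hn ν, g.f (⟪ν, x⟫_ℝ • ν + (y : Sp d))
  congr 1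
  funext y
  by_cases hy : y ∈ closedBall (0 : Hn ν) R0
  · rw [indicator_of_mem hy, one_mul]
  · rw [indicator_of_notMem hy, zero_mul]
    rw [mem_closedBall, dist_zero_right, not_le] at hy
    exact (hg _ (hy.le.trans (norm_ge hν _ y))).symm

lemma PLo_dd (R0 : ℝ) (hR0 : 0 ≤ R0) (g : Cs d) (h : Sp d) :
    dd h (PLo ν R0 hR0 g) = PLo ν R0 hR0 (dd (⟪ν, h⟫_ℝ • ν) g) := by
  apply Cs.ext
  intro x
  have hD := gdP ν R0 hR0
  have h1 : goOp hD (dd (⟪ν, h⟫_ℝ • ν) g) = dd (⟪ν, h⟫_ℝ • ν) (goOp hD g) := by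
    have h2 := (goOp_AO hD).comm (⟪ν, h⟫_ℝ • ν)
    have h3 : (goOp hD * dd (⟪ν, h⟫_ℝ • ν)) g = (dd (⟪ν, h⟫_ℝ • ν) * goOp hD) g := by rw [h2.eq]
    exact h3
  change fderiv ℝ (fun x => (goOp hD g).f (⟪ν, x⟫_ℝ • ν)) x h =
    (goOp hD (dd (⟪ν, h⟫_ℝ • ν) g)).f (⟪ν, x⟫_ℝ • ν)
  rw [h1, dd_apply]
  have h2 : HasFDerivAt (fun x : Sp d => ⟪ν, x⟫_ℝ • ν) ((innerSL ℝ ν).smulRight ν) x :=
    ((innerSL ℝ ν).smulRight ν).hasFDerivAt
  have h3 : HasFDerivAt (goOp hD g).f (fderiv ℝ (goOp hD g).f (⟪ν, x⟫_ℝ • ν)) (⟪ν, x⟫_ℝ • ν) :=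
    ((goOp hD g).diff _).hasFDerivAt
  have h4 := (h3.comp x h2).fderiv
  have h5 : (fun x => (goOp hD g).f (⟪ν, x⟫_ℝ • ν)) = (goOp hD g).f ∘ (fun x : Sp d => ⟪ν, x⟫_ℝ • ν) := rfl
  rw [h5, h4]
  rfl

lemma plInt_tang (hν : ‖ν‖ = 1) {R0 : ℝ} {g : Cs d} (hg : ∀ y, R0 ≤ ‖y‖ → g.f y = 0)
    (k : Hn ν) (c : ℝ) : plInt ν c (dd (k : Sp d) g).f = 0 := by
  set G : Hn ν → ℝ := fun z => g.f (c • ν + (z : Sp d)) with hG
  have hGc : ContDiff ℝ ∞ G := g.cd.comp (contDiff_const.add (Sn ν).contDiff)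
  have hGd : ∀ z, fderiv ℝ G z k = (dd (k : Sp d) g).f (c • ν + (z : Sp d)) := by
    intro z
    have h1 : HasFDerivAt (fun z : Hn ν => c • ν + (z : Sp d)) (Sn ν) z :=
      ((Sn ν).hasFDerivAt (x := z)).const_add (c • ν)
    have h3 : HasFDerivAt g.f (fderiv ℝ g.f (c • ν + (z : Sp d))) (c • ν + (z : Sp d)) :=
      (g.diff _).hasFDerivAt
    have h4 := (h3.comp z h1).fderiv
    have h5 : G = g.f ∘ (fun z : Hn ν => c • ν + (z : Sp d)) := rfl
    rw [h5, h4]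
    rfl
  have hcs : ∀ {g' : Cs d}, (∀ y, R0 ≤ ‖y‖ → g'.f y = 0) →
      Integrable (fun z : Hn ν => (1 : ℝ) * g'.f (c • ν + (z : Sp d))) := fun hg' =>
    plane_int hν R0 continuous_const (Cs.cont _) hg' c
  have key := integral_mul_fderiv_eq_neg_fderiv_mul_of_integrable (μ := (volume : Measure (Hn ν)))
      (f := fun _ => (1 : ℝ)) (g := G) (v := k) ?_ ?_ ?_
      (fun y _ => differentiableAt_const _) (fun y _ => hGc.differentiable (by simp) y)
  · simp only [hGd, one_mul, fderiv_fun_const, Pi.zero_apply, zero_apply, zero_mul,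
      integral_zero, neg_zero] at key
    exact key
  · simp
  · simp_rw [hGd]
    exact hcs (fun y hy => dd_supp hg k y hy)
  · exact hcs hg

lemma PLo_dd' (hν : ‖ν‖ = 1) (R0 : ℝ) (hR0 : 0 ≤ R0) {g : Cs d} (hg : ∀ y, R0 ≤ ‖y‖ → g.f y = 0)
    (h : Sp d) : dd h (PLo ν R0 hR0 g) = PLo ν R0 hR0 (dd h g) := by
  rw [PLo_dd]
  have h1 : h = ((Pn ν hν h : Hn ν) : Sp d) + ⟪ν, h⟫_ℝ • ν := by rw [Pn_coe]; abel
  conv_rhs => rw [h1, dd_add_dir]
  rw [LinearMap.add_apply, map_add]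
  have h2 : PLo ν R0 hR0 (dd ((Pn ν hν h : Hn ν) : Sp d) g) = 0 := by
    apply Cs.ext
    intro x
    rw [PLo_apply hν R0 hR0 (fun y hy => dd_supp hg _ y hy), plInt_tang hν hg]
    rfl
  rw [h2, zero_add]

lemma PLo_bound (hν : ‖ν‖ = 1) (R0 : ℝ) (hR0 : 0 ≤ R0) {g : Cs d} (hg : ∀ y, R0 ≤ ‖y‖ → g.f y = 0)
    {N : ℝ} (hN : ∀ y, |g.f y| ≤ N) (x : Sp d) :
    |(PLo ν R0 hR0 g).f x| ≤ N * (volume (closedBall (0 : Hn ν) R0)).toReal := by
  rw [PLo_apply hν R0 hR0 hg]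
  have := plane_bound hν R0 (W := fun _ => 1) (M := 1) zero_le_one (fun z _ => by simp) hg hN ⟪ν, x⟫_ℝ
  simp only [one_mul] at this
  exact this

/-- the plane kernel -/
def kap (hR : Rdl φ B) (hν : ‖ν‖ = 1) (T : ℝ) : Cs d :=
  ⟨fun x => 1 / T ^ (Module.finrank ℝ (Hn ν)) * φ (((1 / T) • Pn ν hν) x),
    contDiff_const.mul (hR.smooth.comp ((1 / T) • Pn ν hν).contDiff)⟩

lemma kap_apply (hR : Rdl φ B) (hν : ‖ν‖ = 1) (T : ℝ) (x : Sp d) :
    (kap hR hν T).f x = 1 / T ^ (Module.finrank ℝ (Hn ν)) * φ ((1 / T) • Pn ν hν x) := rfl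

lemma kap_nonneg (hR : Rdl φ B) (hν : ‖ν‖ = 1) {T : ℝ} (hT : 0 < T) (x : Sp d) :
    0 ≤ (kap hR hν T).f x := by
  rw [kap_apply]
  exact mul_nonneg (by positivity) (hR.nonneg _)

lemma kap_supp (hR : Rdl φ B) (hν : ‖ν‖ = 1) {T : ℝ} (hT : 0 < T) (x : Sp d)
    (hx : (kap hR hν T).f x ≠ 0) : ‖tang ν x‖ ≤ T := by
  by_contra hcon
  rw [not_le] at hcon
  apply hx
  rw [kap_apply, hR.supp, mul_zero]
  rw [norm_smul, Real.norm_eq_abs, abs_of_pos (by positivity)]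
  have h1 : ‖Pn ν hν x‖ = ‖tang ν x‖ := rfl
  rw [h1, one_div, le_inv_mul_iff₀ hT, mul_one]
  exact hcon.le

lemma kap_tang (hR : Rdl φ B) (hν : ‖ν‖ = 1) (T : ℝ) (x : Sp d) :
    (kap hR hν T).f x = (kap hR hν T).f (tang ν x) := by
  rw [kap_apply, kap_apply, Pn_tang']

lemma kap_bounds (hR : Rdl φ B) (hν : ‖ν‖ = 1) : ∃ C : ℝ, 0 ≤ C ∧ ∀ T : ℝ, 1 ≤ T →
    (∀ x, |(kap hR hν T).f x| ≤ C / T ^ (Module.finrank ℝ (Hn ν))) ∧
    (∀ x, ‖iteratedFDeriv ℝ 1 (kap hR hν T).f x‖ ≤ C / T ^ (Module.finrank ℝ (Hn ν) + 1)) ∧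
    (∀ x, ‖iteratedFDeriv ℝ 2 (kap hR hν T).f x‖ ≤ C / T ^ (Module.finrank ℝ (Hn ν) + 1)) ∧
    (∀ j ≤ 2, ∀ x, ‖iteratedFDeriv ℝ j (kap hR hν T).f x‖ ≤ C / T ^ (Module.finrank ℝ (Hn ν))) := by
  set p := Module.finrank ℝ (Hn ν) with hp
  have hb : ∀ j : ℕ, ∃ M : ℝ, ∀ y, ‖iteratedFDeriv ℝ j φ y‖ ≤ M := by
    intro j
    apply (hR.smooth.continuous_iteratedFDeriv (m := j) (by
      exact_mod_cast le_top)).bounded_above_of_compact_support
    exact (cs_of_supp hR.supp).iteratedFDeriv j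
  choose M hM using hb
  have hM0 : ∀ j, 0 ≤ M j := fun j => (norm_nonneg _).trans (hM j 0)
  set P1 : ℝ := max 1 ‖Pn ν hν‖ with hP1
  have hP11 : 1 ≤ P1 := le_max_left _ _
  have hP12 : ‖Pn ν hν‖ ≤ P1 := le_max_right _ _
  have hgen : ∀ T : ℝ, 1 ≤ T → ∀ j x, ‖iteratedFDeriv ℝ j (kap hR hν T).f x‖ ≤
      M j * P1 ^ j / T ^ (p + j) := by
    intro T hT j x
    have hT0 : 0 < T := lt_of_lt_of_le one_pos hT
    set L : Sp d →L[ℝ] Hn ν := (1 / T) • Pn ν hν with hL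
    have hLn : ‖L‖ ≤ P1 / T := by
      apply L.opNorm_le_bound (by positivity)
      intro y
      have e1 : L y = (1 / T) • Pn ν hν y := rfl
      rw [e1, norm_smul, Real.norm_eq_abs, abs_of_pos (by positivity)]
      have e2 := (Pn ν hν).le_opNorm y
      have e3 : ‖Pn ν hν‖ * ‖y‖ ≤ P1 * ‖y‖ := mul_le_mul_of_nonneg_right hP12 (norm_nonneg _)
      calc 1 / T * ‖Pn ν hν y‖ ≤ 1 / T * (P1 * ‖y‖) :=
            mul_le_mul_of_nonneg_left (e2.trans e3) (by positivity)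
        _ = P1 / T * ‖y‖ := by ring
    have h1 : (kap hR hν T).f = fun x => (1 / T ^ p) • (φ ∘ L) x := rfl
    rw [h1, iteratedFDeriv_const_smul_apply' (((hR.smooth.comp L.contDiff).of_le (by
      exact_mod_cast le_top)).contDiffAt), norm_smul,
      L.iteratedFDeriv_comp_right hR.smooth x (by exact_mod_cast le_top)]
    have h2 := (iteratedFDeriv ℝ j φ (L x)).norm_compContinuousLinearMap_le (fun _ => L)
    rw [Finset.prod_const, Finset.card_univ, Fintype.card_fin] at h2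
    rw [Real.norm_eq_abs, abs_of_pos (by positivity)]
    calc 1 / T ^ p * ‖(iteratedFDeriv ℝ j φ (L x)).compContinuousLinearMap fun _ => L‖
        ≤ 1 / T ^ p * (M j * (P1 / T) ^ j) := by
          apply mul_le_mul_of_nonneg_left _ (by positivity)
          refine h2.trans ?_
          apply mul_le_mul (hM j _) _ (by positivity) (hM0 j)
          exact pow_le_pow_left₀ (norm_nonneg _) hLn j
      _ = M j * P1 ^ j / T ^ (p + j) := by
          rw [div_pow, pow_add]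
          field_simp
  refine ⟨M 0 + M 1 * P1 + M 2 * P1 ^ 2, by
    have := hM0 0; have := hM0 1; have := hM0 2; positivity, fun T hT => ?_⟩
  have hT0 : 0 < T := lt_of_lt_of_le one_pos hT
  have hm0 := hM0 0
  have hm1 : 0 ≤ M 1 * P1 := mul_nonneg (hM0 1) (by positivity)
  have hm2 : 0 ≤ M 2 * P1 ^ 2 := mul_nonneg (hM0 2) (by positivity)
  have e0 : ∀ x, ‖iteratedFDeriv ℝ 0 (kap hR hν T).f x‖ ≤ (M 0 + M 1 * P1 + M 2 * P1 ^ 2) / T ^ p := by
    intro x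
    have := hgen T hT 0 x
    rw [pow_zero, mul_one, add_zero] at this
    refine this.trans ?_
    gcongr
    linarith
  have e1 : ∀ x, ‖iteratedFDeriv ℝ 1 (kap hR hν T).f x‖ ≤ (M 0 + M 1 * P1 + M 2 * P1 ^ 2) / T ^ (p + 1) := by
    intro x
    have := hgen T hT 1 x
    rw [pow_one] at this
    refine this.trans ?_
    gcongr
    linarith
  have e2 : ∀ x, ‖iteratedFDeriv ℝ 2 (kap hR hν T).f x‖ ≤ (M 0 + M 1 * P1 + M 2 * P1 ^ 2) / T ^ (p + 1) := by
    intro x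
    have := hgen T hT 2 x
    refine this.trans ?_
    apply div_le_div₀ (by positivity) (by linarith) (by positivity)
    exact pow_le_pow_right₀ hT (by omega)
  have hle : (M 0 + M 1 * P1 + M 2 * P1 ^ 2) / T ^ (p + 1) ≤ (M 0 + M 1 * P1 + M 2 * P1 ^ 2) / T ^ p := by
    apply div_le_div_of_nonneg_left (by positivity) (by positivity)
    exact pow_le_pow_right₀ hT (by omega)
  refine ⟨fun x => ?_, e1, e2, fun j hj x => ?_⟩
  · have := e0 x
    rw [norm_iteratedFDeriv_zero, Real.norm_eq_abs] at this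
    exact this
  · interval_cases j
    · exact e0 x
    · exact (e1 x).trans hle
    · exact (e2 x).trans hle

/-- the difference of E(T) and the plane integral -/
def GG0 (hR : Rdl φ B) (hν : ‖ν‖ = 1) (R0 : ℝ) (hR0 : 0 ≤ R0) (T : ℝ) : Op d :=
  EE hR (Sn ν) T - mulC (kap hR hν T) * PLo ν R0 hR0

lemma GG0_bound (hR : Rdl φ B) (hν : ‖ν‖ = 1) (R0 : ℝ) (hR0 : 0 ≤ R0) : ∃ C : ℝ, 0 ≤ C ∧
    ∀ T : ℝ, 0 < T → SmO R0 (C / T ^ (Module.finrank ℝ (Hn ν) + 1)) (GG0 hR hν R0 hR0 T) := by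
  obtain ⟨Λ, hΛ0, hΛ⟩ := hR.lip
  refine ⟨Λ * R0 * (volume (closedBall (0 : Hn ν) R0)).toReal,
    mul_nonneg (mul_nonneg hΛ0 hR0) ENNReal.toReal_nonneg, fun T hT g N hg hN x => ?_⟩
  have h0 : (GG0 hR hν R0 hR0 T g).f x = (EE hR (Sn ν) T g).f x -
      (kap hR hν T).f x * (PLo ν R0 hR0 g).f x := rfl
  set p := Module.finrank ℝ (Hn ν) with hp
  rw [h0, EE_plane hν hR T hT, PLo_apply hν R0 hR0 hg, kap_apply]
  have hc1 : Continuous (fun z : Hn ν => φ ((1 / T) • (z - Pn ν hν x))) :=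
    hR.smooth.continuous.comp (by fun_prop)
  have h1 : 1 / T ^ p * φ ((1 / T) • Pn ν hν x) * plInt ν ⟪ν, x⟫_ℝ g.f =
      1 / T ^ p * ∫ z : Hn ν, φ ((1 / T) • Pn ν hν x) * g.f (⟪ν, x⟫_ℝ • ν + (z : Sp d)) := by
    rw [integral_const_mul]
    unfold plInt
    ring
  rw [h1, ← mul_sub, ← integral_sub (plane_int hν R0 hc1 g.cont hg _)
    (plane_int hν R0 continuous_const g.cont hg _)]
  have h2 : ∀ z : Hn ν, φ ((1 / T) • (z - Pn ν hν x)) * g.f (⟪ν, x⟫_ℝ • ν + (z : Sp d)) -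
      φ ((1 / T) • Pn ν hν x) * g.f (⟪ν, x⟫_ℝ • ν + (z : Sp d)) =
      (φ ((1 / T) • (z - Pn ν hν x)) - φ ((1 / T) • Pn ν hν x)) *
        g.f (⟪ν, x⟫_ℝ • ν + (z : Sp d)) := fun z => by ring
  simp_rw [h2]
  have h3 := plane_bound hν R0 (W := fun z => φ ((1 / T) • (z - Pn ν hν x)) -
    φ ((1 / T) • Pn ν hν x)) (M := Λ * (R0 / T)) (by positivity) (fun z hz => by
      rw [← hR.even ((1 / T) • Pn ν hν x)]
      refine (hΛ _ _).trans ?_
      apply mul_le_mul_of_nonneg_left _ hΛ0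
      have : (1 / T) • (z - Pn ν hν x) - -((1 / T) • Pn ν hν x) = (1 / T) • z := by
        rw [smul_sub]; abel
      rw [this, norm_smul, Real.norm_eq_abs, abs_of_pos (by positivity), div_mul_eq_mul_div, one_mul]
      gcongr) hg hN ⟪ν, x⟫_ℝ
  rw [abs_mul, abs_of_nonneg (by positivity : 0 ≤ 1 / T ^ p)]
  refine (mul_le_mul_of_nonneg_left h3 (by positivity)).trans (le_of_eq ?_)
  rw [pow_succ]
  field_simp

lemma GG0_supp (hR : Rdl φ B) (hν : ‖ν‖ = 1) (R0 : ℝ) (hR0 : 0 ≤ R0) {T : ℝ} (hT : 0 < T) {g : Cs d}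
    (hg : ∀ y, R0 ≤ ‖y‖ → g.f y = 0) (x : Sp d) (hx : R0 + T ≤ ‖x‖) :
    (GG0 hR hν R0 hR0 T g).f x = 0 := by
  have h0 : (GG0 hR hν R0 hR0 T g).f x = (EE hR (Sn ν) T g).f x -
      (kap hR hν T).f x * (PLo ν R0 hR0 g).f x := rfl
  have h1 : (EE hR (Sn ν) T g).f x = 0 := by
    apply (EE_AO hR (Sn ν) T).supp hg
    have h2 : ‖Sn ν‖ ≤ 1 := Submodule.norm_subtypeL_le _
    have h3 : |T| * ‖Sn ν‖ ≤ T := by
      rw [abs_of_pos hT]
      nlinarith
    linarith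
  have h2 : (kap hR hν T).f x * (PLo ν R0 hR0 g).f x = 0 := by
    by_cases hk : (kap hR hν T).f x = 0
    · rw [hk, zero_mul]
    · have h3 := kap_supp hR hν hT x hk
      have h4 : R0 ≤ |⟪ν, x⟫_ℝ| := by
        have h5 : x = tang ν x + ⟪ν, x⟫_ℝ • ν := by unfold tang; abel
        have h6 : ‖x‖ ≤ ‖tang ν x‖ + |⟪ν, x⟫_ℝ| := by
          calc ‖x‖ = ‖tang ν x + ⟪ν, x⟫_ℝ • ν‖ := by rw [← h5]
            _ ≤ ‖tang ν x‖ + ‖⟪ν, x⟫_ℝ • ν‖ := norm_add_le _ _
            _ = ‖tang ν x‖ + |⟪ν, x⟫_ℝ| := by rw [norm_smul, hν, mul_one, Real.norm_eq_abs]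
        linarith
      have h5 : (PLo ν R0 hR0 g).f x = 0 := by
        rw [PLo_apply hν R0 hR0 hg]
        unfold plInt
        have h6 : ∀ y : Hn ν, g.f (⟪ν, x⟫_ℝ • ν + (y : Sp d)) = 0 := by
          intro y
          apply hg
          have h7 := abs_real_inner_le_norm ν (⟪ν, x⟫_ℝ • ν + (y : Sp d))
          rw [inner_add_right, real_inner_smul_right, real_inner_self_eq_norm_sq, hν, Hn_inner'] at h7
          simp only [one_pow, mul_one, add_zero, one_mul] at h7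
          linarith
        simp_rw [h6, integral_zero]
      rw [h5, mul_zero]
  rw [h0, h1, h2, sub_zero]

/-- C² bounds for the difference -/
lemma GG0_C2 (hR : Rdl φ B) (hν : ‖ν‖ = 1) (R0 : ℝ) (hR0 : 0 ≤ R0) : ∃ C : ℝ, 0 ≤ C ∧
    ∀ T : ℝ, 1 ≤ T → ∀ (g : Cs d) (N : ℝ), (∀ y, R0 ≤ ‖y‖ → g.f y = 0) →
      (∀ j ≤ 2, ∀ y, ‖iteratedFDeriv ℝ j g.f y‖ ≤ N) →
      (∀ x, |(GG0 hR hν R0 hR0 T g).f x| ≤ C / T ^ (Module.finrank ℝ (Hn ν) + 1) * N) ∧
      ∀ x, ‖iteratedFDeriv ℝ 2 (GG0 hR hν R0 hR0 T g).f x‖ ≤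
        C / T ^ (Module.finrank ℝ (Hn ν) + 1) * N := by
  obtain ⟨C1, hC10, hC1⟩ := GG0_bound hR hν R0 hR0
  obtain ⟨C2, hC20, hC2⟩ := kap_bounds hR hν
  set V : ℝ := (volume (closedBall (0 : Hn ν) R0)).toReal with hV
  have hV0 : 0 ≤ V := ENNReal.toReal_nonneg
  refine ⟨C1 + 3 * (C2 * V), by positivity, fun T hT g N hg hN => ?_⟩
  have hT0 : 0 < T := lt_of_lt_of_le one_pos hT
  set p := Module.finrank ℝ (Hn ν) with hp
  have hN0 : 0 ≤ N := (norm_nonneg _).trans (hN 0 (by norm_num) 0)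
  have hgN : ∀ y, |g.f y| ≤ N := fun y => by
    have := hN 0 (by norm_num) y
    rwa [norm_iteratedFDeriv_zero, Real.norm_eq_abs] at this
  obtain ⟨_, hk1, hk2, _⟩ := hC2 T hT
  have hcs : 0 ≤ C2 * V := by positivity
  refine ⟨fun x => ?_, fun x => ?_⟩
  · refine (hC1 T hT0 g N hg hgN x).trans ?_
    gcongr
    linarith
  · apply iter2_le _ _ (by positivity)
    intro u v
    have hGf : GG0 hR hν R0 hR0 T g = EE hR (Sn ν) T g - mulC (kap hR hν T) (PLo ν R0 hR0 g) := rfl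
    have hEcomm : ∀ (w : Sp d) (g' : Cs d), dd w (EE hR (Sn ν) T g') = EE hR (Sn ν) T (dd w g') := by
      intro w g'
      have h2 := (EE_AO hR (Sn ν) T).comm w
      have h3 : (dd w * EE hR (Sn ν) T) g' = (EE hR (Sn ν) T * dd w) g' := by rw [h2.eq]
      exact h3
    have hstep : ∀ (w : Sp d) (g' : Cs d), (∀ y, R0 ≤ ‖y‖ → g'.f y = 0) →
        dd w (GG0 hR hν R0 hR0 T g') = GG0 hR hν R0 hR0 T (dd w g') -
          mulC (dd w (kap hR hν T)) (PLo ν R0 hR0 g') := by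
      intro w g' hg'
      have e1 : GG0 hR hν R0 hR0 T g' = EE hR (Sn ν) T g' - mulC (kap hR hν T) (PLo ν R0 hR0 g') := rfl
      have e2 : GG0 hR hν R0 hR0 T (dd w g') =
        EE hR (Sn ν) T (dd w g') - mulC (kap hR hν T) (PLo ν R0 hR0 (dd w g')) := rfl
      rw [e1, e2, map_sub, hEcomm, dd_mulC, PLo_dd' hν R0 hR0 hg']
      abel
    have hv := fun y hy => dd_supp hg v y hy
    rw [hstep v g hg, map_sub, hstep u _ hv, dd_mulC, PLo_dd' hν R0 hR0 hg]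
    rw [Cs.sub_apply', Cs.sub_apply', Cs.add_apply', mulC_apply, mulC_apply, mulC_apply]
    have b1 : |(GG0 hR hν R0 hR0 T (dd u (dd v g))).f x| ≤ C1 / T ^ (p + 1) * (N * ‖u‖ * ‖v‖) := by
      apply hC1 T hT0 _ _ (fun y hy => dd_supp hv u y hy)
      intro y
      exact dd_dd_le u v g y (hN 2 le_rfl y)
    have b2 : |(dd u (kap hR hν T)).f x * (PLo ν R0 hR0 (dd v g)).f x| ≤
        (C2 / T ^ (p + 1) * ‖u‖) * (N * ‖v‖ * V) := by
      rw [abs_mul]
      apply mul_le_mul (dd_le u _ x (hk1 x)) _ (abs_nonneg _) (by positivity)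
      apply PLo_bound hν R0 hR0 hv
      intro y
      exact dd_le v g y (hN 1 (by norm_num) y)
    have b3 : |(dd u (dd v (kap hR hν T))).f x * (PLo ν R0 hR0 g).f x| ≤
        (C2 / T ^ (p + 1) * ‖u‖ * ‖v‖) * (N * V) := by
      rw [abs_mul]
      apply mul_le_mul (dd_dd_le u v _ x (hk2 x)) _ (abs_nonneg _) (by positivity)
      exact PLo_bound hν R0 hR0 hg hgN x
    have b4 : |(dd v (kap hR hν T)).f x * (PLo ν R0 hR0 (dd u g)).f x| ≤
        (C2 / T ^ (p + 1) * ‖v‖) * (N * ‖u‖ * V) := by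
      rw [abs_mul]
      apply mul_le_mul (dd_le v _ x (hk1 x)) _ (abs_nonneg _) (by positivity)
      apply PLo_bound hν R0 hR0 (fun y hy => dd_supp hg u y hy)
      intro y
      exact dd_le u g y (hN 1 (by norm_num) y)
    have habs : ∀ a b c e : ℝ, |a - b - (c + e)| ≤ |a| + |b| + |c| + |e| := by
      intro a b c e
      rw [abs_le]
      constructor
      · have := neg_abs_le a; have := le_abs_self b; have := le_abs_self c; have := le_abs_self e
        linarith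
      · have := le_abs_self a; have := neg_abs_le b; have := neg_abs_le c; have := neg_abs_le e
        linarith
    refine (habs _ _ _ _).trans ?_
    refine (add_le_add (add_le_add (add_le_add b1 b2) b3) b4).trans (le_of_eq ?_)
    ring

end PF

end

end ST
end TG
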