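import Pool.Agent.TG.STh5

/-!
# Structure theorem: the calculus of states and errors
-/

open MeasureTheory Metric Set TrI
open scoped InnerProductSpace ContDiff

namespace TG
namespace ST

noncomputable section

variable {d : ℕ}

lemma SmO.neg {R0 η : ℝ} {A : Op d} (h : SmO R0 η A) : SmO R0 η (-A) := by
  intro g N hg hN x
  have h1 := h g N hg hN x
  have h2 : ((-A) g).f x = -((A g).f x) := rfl
  rw [h2, abs_neg]
  exact h1

lemma SmO.left {R0 η ρ : ℝ} {A E : Op d} (h : SmO R0 η A) (hE : AO ρ 1 E) : SmO R0 η (E * A) := by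
  intro g N hg hN x
  have h1 := hE.bd (A g) x (η * N) (fun y _ => h g N hg hN y)
  rw [one_mul] at h1
  exact h1

/-- sums of localised small operators, measured against the growth ρ^P -/
inductive Er (R0 P T : ℝ) : ℝ → Op d → Prop
  | zero : Er R0 P T 0 0
  | mk {ρ C η : ℝ} {A : Op d} : 1 ≤ ρ → T ≤ ρ → AO ρ C A → SmO R0 η A → 0 ≤ η →
      Er R0 P T (η * ρ ^ P) A
  | add {κ κ' : ℝ} {A A' : Op d} : Er R0 P T κ A → Er R0 P T κ' A' → Er R0 P T (κ + κ') (A + A')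
  | le {κ κ' : ℝ} {A : Op d} : Er R0 P T κ A → κ ≤ κ' → Er R0 P T κ' A

lemma Er.neg {R0 P T κ : ℝ} {A : Op d} (h : Er R0 P T κ A) : Er R0 P T κ (-A) := by
  induction h with
  | zero =>
    rw [neg_zero]
    exact Er.zero
  | mk h1 h2 h3 h4 h5 => exact Er.mk h1 h2 h3.neg h4.neg h5
  | add _ _ ih1 ih2 =>
    rw [neg_add]
    exact ih1.add ih2
  | le _ h ih => exact ih.le h

lemma Er.sub {R0 P T κ κ' : ℝ} {A A' : Op d} (h : Er R0 P T κ A) (h' : Er R0 P T κ' A') :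
    Er R0 P T (κ + κ') (A - A') := by
  rw [sub_eq_add_neg]
  exact h.add h'.neg

lemma Er.anti {R0 P T T' κ : ℝ} {A : Op d} (h : Er R0 P T κ A) (hT : T' ≤ T) : Er R0 P T' κ A := by
  induction h with
  | zero => exact Er.zero
  | mk h1 h2 h3 h4 h5 => exact Er.mk h1 (hT.trans h2) h3 h4 h5
  | add _ _ ih1 ih2 => exact ih1.add ih2
  | le _ h ih => exact ih.le h

lemma Er.left {R0 P T κ c : ℝ} {A E : Op d} (h : Er R0 P T κ A) (hP : 0 ≤ P) (hc : 0 ≤ c)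
    (hE : AO (c * T) 1 E) : Er R0 P T ((1 + c) ^ P * κ) (E * A) := by
  induction h with
  | zero =>
    rw [mul_zero, mul_zero]
    exact Er.zero
  | @mk ρ C η A h1 h2 h3 h4 h5 =>
    have h6 : AO ((1 + c) * ρ) (1 * C) (E * A) := by
      apply (hE.mul h3).mono _ le_rfl
      nlinarith
    have h7 : 1 ≤ (1 + c) * ρ := by nlinarith
    have h8 : T ≤ (1 + c) * ρ := by nlinarith
    have h9 := Er.mk (P := P) h7 h8 h6 (h4.left hE) h5
    apply h9.le (le_of_eq _)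
    rw [Real.mul_rpow (by positivity) (by linarith)]
    ring
  | add _ _ ih1 ih2 =>
    rw [mul_add, mul_add]
    exact ih1.add ih2
  | le _ h ih =>
    apply ih.le
    exact mul_le_mul_of_nonneg_left h (by positivity)

lemma Er.sum {R0 P T : ℝ} {ι : Type} [DecidableEq ι] (S : Finset ι) (κ : ι → ℝ) (A : ι → Op d)
    (h : ∀ i ∈ S, Er R0 P T (κ i) (A i)) : Er R0 P T (∑ i ∈ S, κ i) (∑ i ∈ S, A i) := by
  induction S using Finset.induction_on with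
  | empty => simpa using (Er.zero : Er R0 P T 0 (0 : Op d))
  | insert a S ha ih =>
    rw [Finset.sum_insert ha, Finset.sum_insert ha]
    exact (h a (Finset.mem_insert_self _ _)).add (ih (fun i hi => h i (Finset.mem_insert_of_mem hi)))

/-- evaluation of errors by functionals -/
lemma Er.psi {R0 P T κ : ℝ} {A : Op d} (h : Er R0 P T κ A) : ∃ ρm : ℝ, ∀ (ψ : Cs d →ₗ[ℝ] ℝ)
    (ζ : Cs d) (Q : ℝ), 0 ≤ Q → (∀ (ρ C η : ℝ) (A' : Op d), 1 ≤ ρ → ρ ≤ ρm → AO ρ C A' →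
      SmO R0 η A' → 0 ≤ η → |ψ (A' ζ)| ≤ Q * (η * ρ ^ P)) → |ψ (A ζ)| ≤ Q * κ := by
  induction h with
  | zero =>
    refine ⟨0, fun ψ ζ Q hQ _ => ?_⟩
    simp
  | @mk ρ C η A h1 h2 h3 h4 h5 =>
    exact ⟨ρ, fun ψ ζ Q hQ h => h ρ C η A h1 le_rfl h3 h4 h5⟩
  | @add κ κ' A A' _ _ ih1 ih2 =>
    obtain ⟨ρ1, h1⟩ := ih1
    obtain ⟨ρ2, h2⟩ := ih2
    refine ⟨max ρ1 ρ2, fun ψ ζ Q hQ h => ?_⟩
    have e1 := h1 ψ ζ Q hQ (fun ρ C η A' a b => h ρ C η A' a (b.trans (le_max_left _ _)))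
    have e2 := h2 ψ ζ Q hQ (fun ρ C η A' a b => h ρ C η A' a (b.trans (le_max_right _ _)))
    have e3 : ψ ((A + A') ζ) = ψ (A ζ) + ψ (A' ζ) := by rw [LinearMap.add_apply, map_add]
    rw [e3, mul_add]
    exact (abs_add_le _ _).trans (add_le_add e1 e2)
  | le _ h ih =>
    obtain ⟨ρ1, h1⟩ := ih
    exact ⟨ρ1, fun ψ ζ Q hQ hh => (h1 ψ ζ Q hQ hh).trans (mul_le_mul_of_nonneg_left h hQ)⟩

/-! ### factors -/

/-- the properties of the averages used in the calculus -/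
structure Fam (R0 c C : ℝ) {r q : ℕ} (E : Fin r → ℝ → Op d) (F : Fin q → ℝ → Op d) : Prop where
  c1 : 1 ≤ c
  C0 : 0 ≤ C
  aoE : ∀ i T, 1 ≤ T → AO (c * T) 1 (E i T)
  aoF : ∀ k T, 1 ≤ T → AO (c * T) 1 (F k T)
  smF : ∀ k T, 1 ≤ T → SmO R0 (C / T ^ d) (F k T)
  crE : ∀ i l, i ≠ l → ∀ T T', 1 ≤ T → 1 ≤ T' → SmO R0 (C / (T * T' ^ (d - 1))) (E i T * E l T')
  crF : ∀ k l T T', 1 ≤ T → 1 ≤ T' → SmO R0 (C / (T * T' ^ (d - 1))) (F k T * E l T')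
  self : ∀ i T T', 1 ≤ T → 1 ≤ T' → SmO R0 (C * T / T' ^ d) (E i T * E i T' - E i T')

section Calc

variable {R0 c C γ : ℝ} {r q : ℕ} {E : Fin r → ℝ → Op d} {F : Fin q → ℝ → Op d}

lemma pow1 (hγ : γ ≤ 1 / 16) {T : ℝ} (hT : 1 ≤ T) :
    T ^ ((d : ℝ) - 1 + γ) / T ^ d ≤ T ^ (-(1 / 2) : ℝ) := by
  have hT0 : 0 < T := by linarith
  rw [← Real.rpow_natCast T d, ← Real.rpow_sub hT0]
  apply Real.rpow_le_rpow_of_exponent_le hT
  linarith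

lemma pow2 (hd : 1 ≤ d) (hγ0 : 0 < γ) (hγ : γ ≤ 1 / 16) {T T' : ℝ} (hT : 1 ≤ T) (h : T' = T ∨ T' = T ^ 2) :
    T' ^ ((d : ℝ) - 1 + γ) / (T * T' ^ (d - 1)) ≤ T ^ (-(1 / 2) : ℝ) := by
  have hT0 : 0 < T := by linarith
  have hT'0 : 0 < T' := by rcases h with rfl | rfl <;> positivity
  have h1 : T' ^ (d - 1) = T' ^ ((d : ℝ) - 1) := by
    rw [← Real.rpow_natCast, Nat.cast_sub hd, Nat.cast_one]
  have h2 : T' ^ ((d : ℝ) - 1 + γ) / (T * T' ^ (d - 1)) = T' ^ γ / T := by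
    rw [h1, Real.rpow_add hT'0]
    have : T' ^ ((d : ℝ) - 1) ≠ 0 := (Real.rpow_pos_of_pos hT'0 _).ne'
    field_simp
  have h3 : T' ^ γ ≤ T ^ (2 * γ) := by
    rcases h with rfl | rfl
    · apply Real.rpow_le_rpow_of_exponent_le hT
      linarith
    · rw [← Real.rpow_natCast, ← Real.rpow_mul hT0.le]
      push_cast
      exact le_rfl
  rw [h2]
  calc T' ^ γ / T ≤ T ^ (2 * γ) / T := by gcongr
    _ = T ^ (2 * γ - 1) := by rw [Real.rpow_sub_one hT0.ne']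
    _ ≤ T ^ (-(1 / 2) : ℝ) := by
      apply Real.rpow_le_rpow_of_exponent_le hT
      linarith

lemma pow3 (hγ0 : 0 < γ) (hγ : γ ≤ 1 / 16) {T : ℝ} (hT : 1 ≤ T) :
    T * ((T ^ 2) ^ ((d : ℝ) - 1 + γ) / (T ^ 2) ^ d) ≤ T ^ (-(1 / 2) : ℝ) := by
  have hT0 : 0 < T := by linarith
  have h2 : (T ^ 2) ^ ((d : ℝ) - 1 + γ) / (T ^ 2) ^ d = T ^ (2 * (γ - 1)) := by
    rw [← Real.rpow_natCast (T ^ 2) d, ← Real.rpow_sub (by positivity), ← Real.rpow_natCast T 2,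
      ← Real.rpow_mul hT0.le]
    congr 1
    push_cast
    ring
  rw [h2]
  calc T * T ^ (2 * (γ - 1)) = T ^ (1 + 2 * (γ - 1)) := by
        rw [Real.rpow_add hT0, Real.rpow_one]
    _ ≤ T ^ (-(1 / 2) : ℝ) := by
      apply Real.rpow_le_rpow_of_exponent_le hT
      linarith

lemma P_nonneg (hd : 1 ≤ d) (hγ0 : 0 < γ) : 0 ≤ (d : ℝ) - 1 + γ := by
  have : (1 : ℝ) ≤ d := by exact_mod_cast hd
  linarith

lemma Fam.erF (hF : Fam R0 c C E F) (hd : 1 ≤ d) (hγ0 : 0 < γ) (hγ : γ ≤ 1 / 16) (k : Fin q) {T : ℝ}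
    (hT : 1 ≤ T) : Er R0 ((d : ℝ) - 1 + γ) T (C * (2 * c) ^ ((d : ℝ) - 1 + γ) * T ^ (-(1 / 2) : ℝ))
      (F k T) := by
  have hc := hF.c1
  have hC := hF.C0
  have h1 : 1 ≤ c * T := by nlinarith
  have h2 : T ≤ c * T := by nlinarith
  have h3 := Er.mk (P := (d : ℝ) - 1 + γ) h1 h2 (hF.aoF k T hT) (hF.smF k T hT) (by positivity)
  apply h3.le
  have h4 : (c * T) ^ ((d : ℝ) - 1 + γ) = c ^ ((d : ℝ) - 1 + γ) * T ^ ((d : ℝ) - 1 + γ) :=
    Real.mul_rpow (by linarith) (by linarith)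
  have h5 : c ^ ((d : ℝ) - 1 + γ) ≤ (2 * c) ^ ((d : ℝ) - 1 + γ) :=
    Real.rpow_le_rpow (by linarith) (by linarith) (P_nonneg hd hγ0)
  calc C / T ^ d * (c * T) ^ ((d : ℝ) - 1 + γ)
      = C * c ^ ((d : ℝ) - 1 + γ) * (T ^ ((d : ℝ) - 1 + γ) / T ^ d) := by rw [h4]; ring
    _ ≤ C * (2 * c) ^ ((d : ℝ) - 1 + γ) * T ^ (-(1 / 2) : ℝ) := by
      apply mul_le_mul _ (pow1 hγ hT) (by positivity) (by positivity)
      exact mul_le_mul_of_nonneg_left h5 hC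

lemma ao_two (hc : 1 ≤ c) {T T' : ℝ} (hT : 1 ≤ T) (h : T' = T ∨ T' = T ^ 2) :
    1 ≤ 2 * c * T' ∧ T ≤ 2 * c * T' ∧ c * T + c * T' ≤ 2 * c * T' ∧ 1 ≤ T' := by
  have h1 : T ≤ T' := by
    rcases h with rfl | rfl
    · exact le_rfl
    · nlinarith
  refine ⟨by nlinarith, by nlinarith, by nlinarith, by linarith⟩

lemma cross_le (hd : 1 ≤ d) (hγ0 : 0 < γ) (hγ : γ ≤ 1 / 16) (hc : 1 ≤ c) (hC : 0 ≤ C) {T T' : ℝ}
    (hT : 1 ≤ T) (h : T' = T ∨ T' = T ^ 2) :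
    C / (T * T' ^ (d - 1)) * (2 * c * T') ^ ((d : ℝ) - 1 + γ) ≤
      C * (2 * c) ^ ((d : ℝ) - 1 + γ) * T ^ (-(1 / 2) : ℝ) := by
  obtain ⟨_, _, _, hT'⟩ := ao_two hc hT h
  have h4 : (2 * c * T') ^ ((d : ℝ) - 1 + γ) = (2 * c) ^ ((d : ℝ) - 1 + γ) * T' ^ ((d : ℝ) - 1 + γ) :=
    Real.mul_rpow (by linarith) (by linarith)
  calc C / (T * T' ^ (d - 1)) * (2 * c * T') ^ ((d : ℝ) - 1 + γ)
      = C * (2 * c) ^ ((d : ℝ) - 1 + γ) * (T' ^ ((d : ℝ) - 1 + γ) / (T * T' ^ (d - 1))) := by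
        rw [h4]; ring
    _ ≤ C * (2 * c) ^ ((d : ℝ) - 1 + γ) * T ^ (-(1 / 2) : ℝ) :=
      mul_le_mul_of_nonneg_left (pow2 hd hγ0 hγ hT h) (by positivity)

lemma Fam.erCrE (hF : Fam R0 c C E F) (hd : 1 ≤ d) (hγ0 : 0 < γ) (hγ : γ ≤ 1 / 16) {i l : Fin r}
    (hil : i ≠ l) {T T' : ℝ} (hT : 1 ≤ T) (h : T' = T ∨ T' = T ^ 2) :
    Er R0 ((d : ℝ) - 1 + γ) T (C * (2 * c) ^ ((d : ℝ) - 1 + γ) * T ^ (-(1 / 2) : ℝ))
      (E i T * E l T') := by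
  have hc := hF.c1
  have hC := hF.C0
  obtain ⟨h1, h2, h3, hT'⟩ := ao_two hc hT h
  have h4 := Er.mk (P := (d : ℝ) - 1 + γ) h1 h2
    (((hF.aoE i T hT).mul (hF.aoE l T' hT')).mono h3 le_rfl) (hF.crE i l hil T T' hT hT') (by positivity)
  exact h4.le (cross_le hd hγ0 hγ hc hC hT h)

lemma Fam.erCrF (hF : Fam R0 c C E F) (hd : 1 ≤ d) (hγ0 : 0 < γ) (hγ : γ ≤ 1 / 16) (k : Fin q)
    (l : Fin r) {T T' : ℝ} (hT : 1 ≤ T) (h : T' = T ∨ T' = T ^ 2) :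
    Er R0 ((d : ℝ) - 1 + γ) T (C * (2 * c) ^ ((d : ℝ) - 1 + γ) * T ^ (-(1 / 2) : ℝ))
      (F k T * E l T') := by
  have hc := hF.c1
  have hC := hF.C0
  obtain ⟨h1, h2, h3, hT'⟩ := ao_two hc hT h
  have h4 := Er.mk (P := (d : ℝ) - 1 + γ) h1 h2
    (((hF.aoF k T hT).mul (hF.aoE l T' hT')).mono h3 le_rfl) (hF.crF k l T T' hT hT') (by positivity)
  exact h4.le (cross_le hd hγ0 hγ hc hC hT h)

lemma Fam.erSelf (hF : Fam R0 c C E F) (hγ0 : 0 < γ) (hγ : γ ≤ 1 / 16) (i : Fin r)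
    {T : ℝ} (hT : 1 ≤ T) :
    Er R0 ((d : ℝ) - 1 + γ) T (C * (2 * c) ^ ((d : ℝ) - 1 + γ) * T ^ (-(1 / 2) : ℝ))
      (E i T * E i (T ^ 2) - E i (T ^ 2)) := by
  have hc := hF.c1
  have hC := hF.C0
  obtain ⟨h1, h2, h3, hT'⟩ := ao_two hc hT (Or.inr rfl : T ^ 2 = T ∨ T ^ 2 = T ^ 2)
  have h30 : c * T ^ 2 ≤ 2 * c * T ^ 2 := by nlinarith
  have h5 : AO (2 * c * T ^ 2) (1 * 1 + 1) (E i T * E i (T ^ 2) - E i (T ^ 2)) :=
    (((hF.aoE i T hT).mul (hF.aoE i _ hT')).mono h3 le_rfl).sub ((hF.aoE i _ hT').mono h30 le_rfl)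
  have h4 := Er.mk (P := (d : ℝ) - 1 + γ) h1 h2 h5 (hF.self i T _ hT hT') (by positivity)
  apply h4.le
  have h6 : (2 * c * T ^ 2) ^ ((d : ℝ) - 1 + γ) =
      (2 * c) ^ ((d : ℝ) - 1 + γ) * (T ^ 2) ^ ((d : ℝ) - 1 + γ) :=
    Real.mul_rpow (by linarith) (by positivity)
  calc C * T / (T ^ 2) ^ d * (2 * c * T ^ 2) ^ ((d : ℝ) - 1 + γ)
      = C * (2 * c) ^ ((d : ℝ) - 1 + γ) * (T * ((T ^ 2) ^ ((d : ℝ) - 1 + γ) / (T ^ 2) ^ d)) := by
        rw [h6]; ring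
    _ ≤ C * (2 * c) ^ ((d : ℝ) - 1 + γ) * T ^ (-(1 / 2) : ℝ) :=
      mul_le_mul_of_nonneg_left (pow3 hγ0 hγ hT) (by positivity)

/-- one non-real factor -/
lemma Fam.stepF (hF : Fam R0 c C E F) (hd : 1 ≤ d) (hγ0 : 0 < γ) (hγ : γ ≤ 1 / 16) :
    ∃ a b : ℝ, 0 ≤ a ∧ 0 ≤ b ∧ ∀ (k : Fin q) (T : ℝ), 1 ≤ T → ∀ s : Fin r → Op d,
      (∀ l, s l = 0 ∨ s l = E l T ∨ s l = E l (T ^ 2)) → ∀ (κ : ℝ) (R : Op d),
      Er R0 ((d : ℝ) - 1 + γ) T κ R → ∃ R' : Op d,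
        Er R0 ((d : ℝ) - 1 + γ) T (a * κ + b * T ^ (-(1 / 2) : ℝ)) R' ∧
        (1 - F k T) * (1 - ∑ l, s l + R) = 1 - ∑ l, s l + R' := by
  have hc := hF.c1
  have hC := hF.C0
  set P := (d : ℝ) - 1 + γ with hP
  have hP0 : 0 ≤ P := P_nonneg hd hγ0
  set b0 : ℝ := C * (2 * c) ^ P with hb0
  have hb00 : 0 ≤ b0 := by positivity
  refine ⟨1 + (1 + c) ^ P, b0 + r * b0, by positivity, by positivity, ?_⟩
  intro k T hT s hs κ R hR
  have hθ : 0 ≤ T ^ (-(1 / 2) : ℝ) := Real.rpow_nonneg (by linarith) _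
  have h1 : ∀ l, Er R0 P T (b0 * T ^ (-(1 / 2) : ℝ)) (F k T * s l) := by
    intro l
    rcases hs l with h | h | h
    · rw [h, mul_zero]
      exact Er.zero.le (by positivity)
    · rw [h]; exact hF.erCrF hd hγ0 hγ k l hT (Or.inl rfl)
    · rw [h]; exact hF.erCrF hd hγ0 hγ k l hT (Or.inr rfl)
  have h2 := Er.sum Finset.univ _ _ (fun l _ => h1 l)
  have h3 := (hR.sub (hR.left hP0 (by linarith) (hF.aoF k T hT))).sub (hF.erF hd hγ0 hγ k hT)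
  refine ⟨R - F k T * R - F k T + ∑ l, F k T * s l, (h3.add h2).le (le_of_eq ?_), ?_⟩
  · rw [Finset.sum_const, Finset.card_univ, Fintype.card_fin, nsmul_eq_mul]
    ring
  · rw [← Finset.mul_sum]
    noncomm_ring

lemma Fam.listF (hF : Fam R0 c C E F) (hd : 1 ≤ d) (hγ0 : 0 < γ) (hγ : γ ≤ 1 / 16)
    (L : List (Fin q)) :
    ∃ a b : ℝ, 0 ≤ a ∧ 0 ≤ b ∧ ∀ (T : ℝ), 1 ≤ T → ∀ s : Fin r → Op d,
      (∀ l, s l = 0 ∨ s l = E l T ∨ s l = E l (T ^ 2)) → ∀ (κ : ℝ) (R : Op d),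
      Er R0 ((d : ℝ) - 1 + γ) T κ R → ∃ R' : Op d,
        Er R0 ((d : ℝ) - 1 + γ) T (a * κ + b * T ^ (-(1 / 2) : ℝ)) R' ∧
        (L.map (fun k => 1 - F k T)).prod * (1 - ∑ l, s l + R) = 1 - ∑ l, s l + R' := by
  induction L with
  | nil =>
    refine ⟨1, 0, zero_le_one, le_rfl, fun T hT s hs κ R hR => ⟨R, hR.le (by simp), by simp⟩⟩
  | cons k L ih =>
    obtain ⟨a, b, ha, hb, h⟩ := ih
    obtain ⟨a1, b1, ha1, hb1, h1⟩ := hF.stepF hd hγ0 hγ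
    refine ⟨a1 * a, a1 * b + b1, by positivity, by positivity, fun T hT s hs κ R hR => ?_⟩
    obtain ⟨R1, hR1, e1⟩ := h T hT s hs κ R hR
    obtain ⟨R2, hR2, e2⟩ := h1 k T hT s hs _ R1 hR1
    refine ⟨R2, hR2.le (le_of_eq (by ring)), ?_⟩
    rw [List.map_cons, List.prod_cons, mul_assoc, e1, e2]

/-- one real factor -/
lemma Fam.stepE (hF : Fam R0 c C E F) (hd : 1 ≤ d) (hγ0 : 0 < γ) (hγ : γ ≤ 1 / 16) :
    ∃ a b : ℝ, 0 ≤ a ∧ 0 ≤ b ∧ ∀ (i : Fin r) (T : ℝ), 1 ≤ T → ∀ s : Fin r → Op d,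
      (∀ l, s l = 0 ∨ s l = E l T ∨ s l = E l (T ^ 2)) → (s i = 0 ∨ s i = E i (T ^ 2)) →
      ∀ (κ : ℝ) (R : Op d),
      Er R0 ((d : ℝ) - 1 + γ) T κ R → ∃ R' : Op d,
        Er R0 ((d : ℝ) - 1 + γ) T (a * κ + b * T ^ (-(1 / 2) : ℝ)) R' ∧
        (1 - E i T) * (1 - ∑ l, s l + R) = 1 - ∑ l, Function.update s i (E i T) l + R' := by
  have hc := hF.c1
  have hC := hF.C0
  set P := (d : ℝ) - 1 + γ with hP
  have hP0 : 0 ≤ P := P_nonneg hd hγ0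
  set b0 : ℝ := C * (2 * c) ^ P with hb0
  have hb00 : 0 ≤ b0 := by positivity
  refine ⟨1 + (1 + c) ^ P, b0 + r * b0, by positivity, by positivity, ?_⟩
  intro i T hT s hs hi κ R hR
  have hθ : 0 ≤ T ^ (-(1 / 2) : ℝ) := Real.rpow_nonneg (by linarith) _
  have h1 : ∀ l ∈ Finset.univ.erase i, Er R0 P T (b0 * T ^ (-(1 / 2) : ℝ)) (E i T * s l) := by
    intro l hl
    have hil : i ≠ l := (Finset.ne_of_mem_erase hl).symm
    rcases hs l with h | h | h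
    · rw [h, mul_zero]
      exact Er.zero.le (by positivity)
    · rw [h]; exact hF.erCrE hd hγ0 hγ hil hT (Or.inl rfl)
    · rw [h]; exact hF.erCrE hd hγ0 hγ hil hT (Or.inr rfl)
  have h2 := Er.sum _ _ _ h1
  have h4 : Er R0 P T (b0 * T ^ (-(1 / 2) : ℝ)) (E i T * s i - s i) := by
    rcases hi with h | h
    · rw [h, mul_zero, sub_zero]
      exact Er.zero.le (by positivity)
    · rw [h]; exact hF.erSelf hγ0 hγ i hT
  have h3 := (hR.sub (hR.left hP0 (by linarith) (hF.aoE i T hT)))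
  refine ⟨R - E i T * R + (∑ l ∈ Finset.univ.erase i, E i T * s l) + (E i T * s i - s i),
    ((h3.add h2).add h4).le ?_, ?_⟩
  · rw [Finset.sum_const, nsmul_eq_mul]
    have h5 : ((Finset.univ.erase i).card : ℝ) ≤ r := by
      have := Finset.card_erase_le (s := (Finset.univ : Finset (Fin r))) (a := i)
      rw [Finset.card_univ, Fintype.card_fin] at this
      exact_mod_cast this
    have h6 : ((Finset.univ.erase i).card : ℝ) * (b0 * T ^ (-(1 / 2) : ℝ)) ≤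
        r * (b0 * T ^ (-(1 / 2) : ℝ)) := mul_le_mul_of_nonneg_right h5 (by positivity)
    linarith
  · have h5 : ∑ l, s l = s i + ∑ l ∈ Finset.univ.erase i, s l :=
      (Finset.add_sum_erase _ _ (Finset.mem_univ i)).symm
    have h6 : ∑ l, Function.update s i (E i T) l = E i T + ∑ l ∈ Finset.univ.erase i, s l := by
      rw [← Finset.add_sum_erase _ _ (Finset.mem_univ i), Function.update_self]
      congr 1
      apply Finset.sum_congr rfl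
      intro l hl
      rw [Function.update_of_ne (Finset.ne_of_mem_erase hl)]
    rw [h5, h6, ← Finset.mul_sum]
    noncomm_ring

lemma Fam.listE (hF : Fam R0 c C E F) (hd : 1 ≤ d) (hγ0 : 0 < γ) (hγ : γ ≤ 1 / 16)
    (L : List (Fin r)) (hL : L.Nodup) :
    ∃ a b : ℝ, 0 ≤ a ∧ 0 ≤ b ∧ ∀ (T : ℝ), 1 ≤ T → ∀ s : Fin r → Op d,
      (∀ l, s l = 0 ∨ s l = E l (T ^ 2)) → ∀ (κ : ℝ) (R : Op d),
      Er R0 ((d : ℝ) - 1 + γ) T κ R → ∃ R' : Op d,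
        Er R0 ((d : ℝ) - 1 + γ) T (a * κ + b * T ^ (-(1 / 2) : ℝ)) R' ∧
        (L.map (fun i => 1 - E i T)).prod * (1 - ∑ l, s l + R) =
          1 - ∑ l, (if l ∈ L then E l T else s l) + R' := by
  induction L with
  | nil =>
    refine ⟨1, 0, zero_le_one, le_rfl, fun T hT s hs κ R hR => ⟨R, hR.le (by simp), by simp⟩⟩
  | cons i L ih =>
    obtain ⟨hiL, hL'⟩ := List.nodup_cons.mp hL
    obtain ⟨a, b, ha, hb, h⟩ := ih hL'
    obtain ⟨a1, b1, ha1, hb1, h1⟩ := hF.stepE hd hγ0 hγ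
    refine ⟨a1 * a, a1 * b + b1, by positivity, by positivity, fun T hT s hs κ R hR => ?_⟩
    obtain ⟨R1, hR1, e1⟩ := h T hT s hs κ R hR
    obtain ⟨R2, hR2, e2⟩ := h1 i T hT (fun l => if l ∈ L then E l T else s l) (fun l => by
      beta_reduce
      by_cases hl : l ∈ L
      · rw [if_pos hl]; exact Or.inr (Or.inl rfl)
      · rw [if_neg hl]
        rcases hs l with h | h
        · exact Or.inl h
        · exact Or.inr (Or.inr h)) (by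
      beta_reduce
      rw [if_neg hiL]
      exact hs i) _ R1 hR1
    refine ⟨R2, hR2.le (le_of_eq (by ring)), ?_⟩
    rw [List.map_cons, List.prod_cons, mul_assoc, e1, e2]
    congr 2
    apply Finset.sum_congr rfl
    intro l _
    by_cases hl : l = i
    · subst hl
      rw [Function.update_self, if_pos List.mem_cons_self]
    · rw [Function.update_of_ne hl]
      by_cases hl2 : l ∈ L
      · rw [if_pos hl2, if_pos (List.mem_cons_of_mem _ hl2)]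
      · rw [if_neg hl2, if_neg (fun hc => by
          rcases List.mem_cons.mp hc with h | h
          · exact hl h
          · exact hl2 h)]

variable (E F) in
/-- one round -/
def XR (T : ℝ) : Op d :=
  ((List.finRange r).map (fun i => 1 - E i T)).prod * ((List.finRange q).map (fun k => 1 - F k T)).prod

variable (E F) in
/-- several rounds -/
def UU (τ : ℝ) : ℕ → ℕ → Op d
  | _, 0 => 1
  | k, m + 1 => XR E F (τ ^ (2 ^ k)) * UU τ (k + 1) m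

lemma Fam.round (hF : Fam R0 c C E F) (hd : 1 ≤ d) (hγ0 : 0 < γ) (hγ : γ ≤ 1 / 16) :
    ∃ a b : ℝ, 0 ≤ a ∧ 0 ≤ b ∧ ∀ (T : ℝ), 1 ≤ T → ∀ s : Fin r → Op d,
      (∀ l, s l = 0 ∨ s l = E l (T ^ 2)) → ∀ (κ : ℝ) (R : Op d),
      Er R0 ((d : ℝ) - 1 + γ) T κ R → ∃ R' : Op d,
        Er R0 ((d : ℝ) - 1 + γ) T (a * κ + b * T ^ (-(1 / 2) : ℝ)) R' ∧
        XR E F T * (1 - ∑ l, s l + R) = 1 - ∑ l, E l T + R' := by
  obtain ⟨a, b, ha, hb, h⟩ := hF.listF hd hγ0 hγ (List.finRange q)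
  obtain ⟨a1, b1, ha1, hb1, h1⟩ := hF.listE hd hγ0 hγ (List.finRange r) (List.nodup_finRange r)
  refine ⟨a1 * a, a1 * b + b1, by positivity, by positivity, fun T hT s hs κ R hR => ?_⟩
  obtain ⟨R1, hR1, e1⟩ := h T hT s (fun l => by
    rcases hs l with h | h
    · exact Or.inl h
    · exact Or.inr (Or.inr h)) κ R hR
  obtain ⟨R2, hR2, e2⟩ := h1 T hT s hs _ R1 hR1
  refine ⟨R2, hR2.le (le_of_eq (by ring)), ?_⟩
  unfold XR
  rw [mul_assoc, e1, e2]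
  congr 2
  apply Finset.sum_congr rfl
  intro l _
  rw [if_pos (List.mem_finRange l)]

theorem Fam.main (hF : Fam R0 c C E F) (hd : 1 ≤ d) (hγ0 : 0 < γ) (hγ : γ ≤ 1 / 16) (m : ℕ) :
    ∀ k : ℕ, ∃ a : ℝ, 0 ≤ a ∧ ∀ τ : ℝ, 1 ≤ τ → ∃ R : Op d,
      Er R0 ((d : ℝ) - 1 + γ) (τ ^ (2 ^ k)) (a * (τ ^ (2 ^ k)) ^ (-(1 / 2) : ℝ)) R ∧
      UU E F τ k (m + 1) = 1 - ∑ l, E l (τ ^ (2 ^ k)) + R := by
  obtain ⟨a1, b1, ha1, hb1, h1⟩ := hF.round hd hγ0 hγ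
  induction m with
  | zero =>
    intro k
    refine ⟨b1, hb1, fun τ hτ => ?_⟩
    have hT : 1 ≤ τ ^ (2 ^ k) := one_le_pow₀ hτ
    obtain ⟨R, hR, e⟩ := h1 (τ ^ (2 ^ k)) hT (fun _ => 0) (fun _ => Or.inl rfl) 0 0 Er.zero
    refine ⟨R, hR.le (by simp), ?_⟩
    have e2 : UU E F τ k (0 + 1) = XR E F (τ ^ (2 ^ k)) * 1 := rfl
    rw [e2, ← e]
    simp
  | succ m ih =>
    intro k
    obtain ⟨a, ha, h⟩ := ih (k + 1)
    refine ⟨a1 * a + b1, by positivity, fun τ hτ => ?_⟩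
    have hT : 1 ≤ τ ^ (2 ^ k) := one_le_pow₀ hτ
    have hT2 : τ ^ (2 ^ (k + 1)) = (τ ^ (2 ^ k)) ^ 2 := by rw [← pow_mul, pow_succ]
    have hle : τ ^ (2 ^ k) ≤ τ ^ (2 ^ (k + 1)) := by rw [hT2]; nlinarith
    obtain ⟨R, hR, e⟩ := h τ hτ
    have hθ : (τ ^ (2 ^ (k + 1))) ^ (-(1 / 2) : ℝ) ≤ (τ ^ (2 ^ k)) ^ (-(1 / 2) : ℝ) :=
      Real.rpow_le_rpow_of_nonpos (by positivity) hle (by norm_num)
    have hR' : Er R0 ((d : ℝ) - 1 + γ) (τ ^ (2 ^ k)) (a * (τ ^ (2 ^ k)) ^ (-(1 / 2) : ℝ)) R :=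
      (hR.anti hle).le (mul_le_mul_of_nonneg_left hθ ha)
    obtain ⟨R', hR1, e1⟩ := h1 (τ ^ (2 ^ k)) hT (fun l => E l ((τ ^ (2 ^ k)) ^ 2)) (fun _ => Or.inr rfl) _ R hR'
    refine ⟨R', hR1.le (le_of_eq (by ring)), ?_⟩
    have e2 : UU E F τ k (m + 1 + 1) = XR E F (τ ^ (2 ^ k)) * UU E F τ (k + 1) (m + 1) := rfl
    rw [e2, e, hT2, e1]

end Calc

/-! ### the factorisation -/

lemma AO.comm_QQ {H : Type} [NormedAddCommGroup H] [InnerProductSpace ℝ H] {ρ C : ℝ} {A : Op d}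
    (hA : AO ρ C A) (S : H →L[ℝ] Sp d) (hf : Fin d → H) : Commute A (QQ S hf) := by
  unfold QQ
  apply Commute.sum_right
  intro k _
  exact (hA.comm _).mul_right (hA.comm _)

/-- operators which commute with all averages -/
def DP (B : Op d) : Prop := ∀ (ρ C : ℝ) (A : Op d), AO ρ C A → Commute A B

lemma DP.one : DP (1 : Op d) := fun _ _ _ _ => Commute.one_right _

lemma DP.mul {B B' : Op d} (h : DP B) (h' : DP B') : DP (B * B') :=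
  fun ρ C A hA => (h ρ C A hA).mul_right (h' ρ C A hA)

lemma DP.pow {B : Op d} (h : DP B) (n : ℕ) : DP (B ^ n) :=
  fun ρ C A hA => (h ρ C A hA).pow_right n

lemma list_factor {ι : Type} (Q K : ι → Op d) (hQ : ∀ i, DP (Q i)) (hK : ∀ i, ∃ ρ C, AO ρ C (K i))
    (L : List ι) : DP (L.map Q).prod ∧ ∃ (ρ C : ℝ) (K' : Op d), AO ρ C K' ∧
      (L.map (fun i => Q i * K i)).prod = (L.map Q).prod * K' := by
  induction L with
  | nil => exact ⟨DP.one, 0, 1, 1, AO.one, by simp⟩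
  | cons i L ih =>
    obtain ⟨hD, ρ, C, K', hK', e⟩ := ih
    obtain ⟨ρ1, C1, hK1⟩ := hK i
    refine ⟨?_, ρ1 + ρ, C1 * C, K i * K', hK1.mul hK', ?_⟩
    · rw [List.map_cons, List.prod_cons]
      exact (hQ i).mul hD
    · rw [List.map_cons, List.prod_cons, List.map_cons, List.prod_cons, e]
      have h1 : K i * (L.map Q).prod = (L.map Q).prod * K i := (hD ρ1 C1 _ hK1).eq
      calc Q i * K i * ((L.map Q).prod * K') = Q i * (K i * (L.map Q).prod) * K' := by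
            simp only [mul_assoc]
        _ = Q i * ((L.map Q).prod * K i) * K' := by rw [h1]
        _ = Q i * (L.map Q).prod * (K i * K') := by simp only [mul_assoc]

theorem UU_factor {r q : ℕ} {E : Fin r → ℝ → Op d} {F : Fin q → ℝ → Op d} (QE : Fin r → Op d)
    (QF : Fin q → Op d) (hQE : ∀ i, DP (QE i)) (hQF : ∀ i, DP (QF i))
    (hE : ∀ i T, 1 ≤ T → ∃ (ρ C : ℝ) (K : Op d), AO ρ C K ∧ 1 - E i T = QE i * K)
    (hF : ∀ i T, 1 ≤ T → ∃ (ρ C : ℝ) (K : Op d), AO ρ C K ∧ 1 - F i T = QF i * K)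
    (τ : ℝ) (hτ : 1 ≤ τ) (m : ℕ) : ∀ k, ∃ (ρ C : ℝ) (K : Op d), AO ρ C K ∧
      UU E F τ k m = (((List.finRange r).map QE).prod * ((List.finRange q).map QF).prod) ^ m * K := by
  set Pt := ((List.finRange r).map QE).prod * ((List.finRange q).map QF).prod with hPt
  have hX : ∀ T, 1 ≤ T → DP Pt ∧ ∃ (ρ C : ℝ) (K : Op d), AO ρ C K ∧ XR E F T = Pt * K := by
    intro T hT
    choose ρ1 C1 K1 hK1 e1 using fun i => hE i T hT
    choose ρ2 C2 K2 hK2 e2 using fun i => hF i T hT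
    obtain ⟨hD1, r1, c1, k1, hk1, f1⟩ := list_factor QE K1 hQE (fun i => ⟨_, _, hK1 i⟩) (List.finRange r)
    obtain ⟨hD2, r2, c2, k2, hk2, f2⟩ := list_factor QF K2 hQF (fun i => ⟨_, _, hK2 i⟩) (List.finRange q)
    refine ⟨hD1.mul hD2, r1 + r2, c1 * c2, k1 * k2, hk1.mul hk2, ?_⟩
    unfold XR
    have g1 : (fun i => 1 - E i T) = fun i => QE i * K1 i := funext e1
    have g2 : (fun i => 1 - F i T) = fun i => QF i * K2 i := funext e2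
    rw [g1, g2, f1, f2, hPt]
    have h1 := (hD2 _ _ _ hk1).eq
    calc ((List.finRange r).map QE).prod * k1 * (((List.finRange q).map QF).prod * k2)
        = ((List.finRange r).map QE).prod * (k1 * ((List.finRange q).map QF).prod) * k2 := by
          simp only [mul_assoc]
      _ = ((List.finRange r).map QE).prod * (((List.finRange q).map QF).prod * k1) * k2 := by rw [h1]
      _ = _ := by simp only [mul_assoc]
  induction m with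
  | zero => exact fun k => ⟨0, 1, 1, AO.one, by simp [UU]⟩
  | succ m ih =>
    intro k
    obtain ⟨ρ, C, K, hK, e⟩ := ih (k + 1)
    obtain ⟨hD, ρ1, C1, K1, hK1, e1⟩ := hX (τ ^ (2 ^ k)) (one_le_pow₀ hτ)
    refine ⟨ρ1 + ρ, C1 * C, K1 * K, hK1.mul hK, ?_⟩
    have e2 : UU E F τ k (m + 1) = XR E F (τ ^ (2 ^ k)) * UU E F τ (k + 1) m := rfl
    have h1 := ((hD.pow m) _ _ _ hK1).eq
    rw [e2, e, e1]
    calc Pt * K1 * (Pt ^ m * K) = Pt * (K1 * Pt ^ m) * K := by simp only [mul_assoc]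
      _ = Pt * (Pt ^ m * K1) * K := by rw [h1]
      _ = Pt ^ (m + 1) * (K1 * K) := by rw [pow_succ']; simp only [mul_assoc]

end

end ST
end TG
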