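import Pool.Agent.TG.STh6

/-!
# Structure theorem: the factors of a chart
-/

open MeasureTheory Metric Set TrI
open scoped InnerProductSpace ContDiff

namespace TG
namespace ST

noncomputable section

variable {d : ℕ}

lemma SmO.mono {R0 η η' : ℝ} {A : Op d} (h : SmO R0 η A) (hη : η ≤ η') : SmO R0 η' A := by
  intro g N hg hN x
  have hN0 : 0 ≤ N := (abs_nonneg _).trans (hN 0)
  exact (h g N hg hN x).trans (mul_le_mul_of_nonneg_right hη hN0)

/-- an antilipschitz constant for bijective maps -/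
lemma exists_anti (S : Sp d →L[ℝ] Sp d) (hS : Function.Bijective S) :
    ∃ c : ℝ, 0 ≤ c ∧ ∀ y, ‖y‖ ≤ c * ‖S y‖ := by
  let e : Sp d ≃L[ℝ] Sp d := ContinuousLinearEquiv.ofBijective S
    (LinearMap.ker_eq_bot.mpr hS.1) (LinearMap.range_eq_top.mpr hS.2)
  refine ⟨‖(e.symm : Sp d →L[ℝ] Sp d)‖, norm_nonneg _, fun y => ?_⟩
  have h1 : e.symm (S y) = y := e.symm_apply_apply y
  calc ‖y‖ = ‖(e.symm : Sp d →L[ℝ] Sp d) (S y)‖ := by
        rw [ContinuousLinearEquiv.coe_coe, h1]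
    _ ≤ _ := ContinuousLinearMap.le_opNorm _ _

lemma Sn_norm (ν : Sp d) : ‖Sn ν‖ ≤ 1 := Submodule.norm_subtypeL_le _

section Cross

variable {H : Type} [NormedAddCommGroup H] [InnerProductSpace ℝ H] [FiniteDimensional ℝ H]
  [MeasurableSpace H] [BorelSpace H] {φ B : H → ℝ}

/-- crossing estimate -/
lemma cross {ν : Sp d} (hν : ‖ν‖ = 1) {φ' B' : Hn ν → ℝ} (hR' : Rdl φ' B') (hR : Rdl φ B)
    (S : H →L[ℝ] Sp d) (w : H) (hw : ⟪S w, ν⟫_ℝ = 1) (R0 : ℝ) (hR0 : 0 < R0) :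
    ∃ C : ℝ, 0 ≤ C ∧ ∀ T T' : ℝ, 1 ≤ T → 1 ≤ T' →
      SmO R0 (C / (T * T' ^ (d - 1))) (EE hR S T * EE hR' (Sn ν) T') := by
  obtain ⟨C1, hC10, hC1⟩ := EE_sm (d := d) hR' (Sn ν) (c := 1) zero_le_one
    (fun y => by rw [one_mul]; exact le_rfl) R0 hR0.le
  obtain ⟨C2, hC20, hC2⟩ := EE_slab hR S ν w hw R0 hR0
  refine ⟨C2 * C1, by positivity, fun T T' hT hT' g N hg hN x => ?_⟩
  have hT0 : 0 < T := by linarith
  have hT'0 : 0 < T' := by linarith
  have h1 := hC1 T' hT'0 g N hg hN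
  rw [Hn_fin ν hν] at h1
  have h2 := hC2 T hT0 (EE hR' (Sn ν) T' g) _
    (fun x hx => EE_slab_supp hR' hν R0 T' g hg x hx) h1 x
  refine h2.trans (le_of_eq ?_)
  field_simp

end Cross

/-- direction crossing two different hyperplanes -/
lemma exists_cross {ν ν' : Sp d} (hν : ‖ν‖ = 1) (hν' : ‖ν'‖ = 1) (h1 : ν ≠ ν') (h2 : ν ≠ -ν') :
    ∃ w : Hn ν, ⟪Sn ν w, ν'⟫_ℝ = 1 := by
  set p : Hn ν := Pn ν hν ν' with hp
  have h3 : ⟪(p : Sp d), ν'⟫_ℝ = ‖p‖ ^ 2 := by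
    have h4 : ν' = (p : Sp d) + ⟪ν, ν'⟫_ℝ • ν := by rw [hp, Pn_coe]; abel
    have h5 : ‖p‖ ^ 2 = ⟪(p : Sp d), (p : Sp d)⟫_ℝ := by
      rw [real_inner_self_eq_norm_sq]; rfl
    rw [h5]
    conv_lhs => rw [h4]
    rw [inner_add_right, real_inner_smul_right, Hn_inner, mul_zero, add_zero]
  have hp0 : ‖p‖ ≠ 0 := by
    intro h
    have h4 : (p : Sp d) = 0 := by
      have : p = 0 := norm_eq_zero.mp h
      rw [this]; rfl
    have h5 : ν' = ⟪ν, ν'⟫_ℝ • ν := by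
      rw [hp, Pn_coe, sub_eq_zero] at h4
      exact h4
    have h6 : |⟪ν, ν'⟫_ℝ| = 1 := by
      have := congrArg norm h5
      rw [norm_smul, hν, hν', mul_one, Real.norm_eq_abs] at this
      exact this.symm
    rcases abs_eq (zero_le_one) |>.mp h6 with h | h
    · rw [h, one_smul] at h5
      exact h1 h5.symm
    · rw [h, neg_smul, one_smul] at h5
      apply h2
      rw [h5, neg_neg]
  refine ⟨(1 / ‖p‖ ^ 2) • p, ?_⟩
  rw [map_smul, real_inner_smul_left, Sn_apply, h3]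
  field_simp

/-- the frame of the whole space -/
def fr1 (k : Fin d) : Sp d := EuclideanSpace.single k (1 : ℝ)

lemma fr1_frame (y : Sp d) : ∑ k, ⟪y, fr1 k⟫_ℝ • fr1 k = y := by
  have h1 : ∀ k, ⟪y, fr1 k⟫_ℝ = y k := by
    intro k
    unfold fr1
    simp [PiLp.inner_apply]
  simp_rw [h1]
  exact sum_single y

lemma QQ_full (S : Sp d →L[ℝ] Sp d) (g : Cs d) : (QQ S fr1 g).f = qD S g.f := by
  funext x
  rw [QQ_apply]
  unfold qD fr1
  simp_rw [dd_dd, iteratedFDeriv_two_apply]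

lemma KK_ao {H : Type} [NormedAddCommGroup H] [InnerProductSpace ℝ H] [FiniteDimensional ℝ H]
    [MeasurableSpace H] [BorelSpace H] {φ B : H → ℝ} (hR : Rdl φ B) (S : H →L[ℝ] Sp d)
    (hf : Fin d → H) (hfr : ∀ y, ∑ k, ⟪y, hf k⟫_ℝ • hf k = y) (T : ℝ) (hT : 1 ≤ T) :
    ∃ (ρ C : ℝ) (K : Op d), AO ρ C K ∧ 1 - EE hR S T = QQ S hf * K := by
  have h1 := goOp_AO (gdK hR S T)
  have h2 := EE_sub_one hR S hf hfr T (by linarith)
  refine ⟨_, _, -KK hR S T, AO.neg h1, ?_⟩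
  have h3 : KK hR S T * QQ S hf = QQ S hf * KK hR S T := (AO.comm_QQ h1 S hf).eq
  rw [mul_neg, ← h3, ← h2]
  abel

/-- the family of averages of a chart -/
theorem exists_fam (hd : 2 ≤ d) {r q : ℕ} (ν : Fin r → Sp d) (S : Fin q → (Sp d →L[ℝ] Sp d))
    (hν : ∀ i, ‖ν i‖ = 1) (hνd : ∀ i j, i ≠ j → ν i ≠ ν j ∧ ν i ≠ - ν j)
    (hS : ∀ k, Function.Bijective (S k)) (R0 : ℝ) (hR0 : 0 < R0)
    (φ B : ∀ i, Hn (ν i) → ℝ) (hφ : ∀ i, Rdl (φ i) (B i)) :
    ∃ (F : Fin q → ℝ → Op d) (c C : ℝ), Fam R0 c C (fun i => EE (hφ i) (Sn (ν i))) F ∧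
      ∀ k T, 1 ≤ T → ∃ (ρ C : ℝ) (K : Op d), AO ρ C K ∧ 1 - F k T = QQ (S k) fr1 * K := by
  have hnt : Nontrivial (Sp d) := by
    apply Module.nontrivial_of_finrank_pos (R := ℝ)
    rw [finrank_euclideanSpace_fin]
    omega
  obtain ⟨φ0, B0, hR⟩ := exists_Rdl (H := Sp d)
  -- constants
  choose cS hcS0 hcS using fun k => exists_anti (S k) (hS k)
  choose C1 hC10 hC1 using fun k => EE_sm hR (S k) (hcS0 k) (hcS k) R0 hR0.le
  have hcr : ∀ i l, ∃ C : ℝ, 0 ≤ C ∧ (i ≠ l → ∀ T T' : ℝ, 1 ≤ T → 1 ≤ T' →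
      SmO R0 (C / (T * T' ^ (d - 1))) (EE (hφ i) (Sn (ν i)) T * EE (hφ l) (Sn (ν l)) T')) := by
    intro i l
    by_cases hil : i = l
    · exact ⟨0, le_rfl, fun h => absurd hil h⟩
    · obtain ⟨w, hw⟩ := exists_cross (hν i) (hν l) (hνd i l hil).1 (hνd i l hil).2
      obtain ⟨C, h0, h⟩ := cross (hν l) (hφ l) (hφ i) (Sn (ν i)) w hw R0 hR0
      exact ⟨C, h0, fun _ => h⟩
  choose C2 hC20 hC2 using hcr
  have hcf : ∀ k l, ∃ C : ℝ, 0 ≤ C ∧ ∀ T T' : ℝ, 1 ≤ T → 1 ≤ T' →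
      SmO R0 (C / (T * T' ^ (d - 1))) (EE hR (S k) T * EE (hφ l) (Sn (ν l)) T') := by
    intro k l
    obtain ⟨w, hw⟩ := (hS k).2 (ν l)
    apply cross (hν l) (hφ l) hR (S k) w _ R0 hR0
    rw [hw, real_inner_self_eq_norm_sq, hν]
    norm_num
  choose C3 hC30 hC3 using hcf
  choose C4 hC40 hC4 using fun i => EE_self (hν i) (hφ i) R0
  set C : ℝ := (∑ k, C1 k) + (∑ i, ∑ l, C2 i l) + (∑ k, ∑ l, C3 k l) + ∑ i, C4 i with hC
  have s1 : 0 ≤ ∑ k, C1 k := Finset.sum_nonneg (fun k _ => hC10 k)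
  have s2 : 0 ≤ ∑ i, ∑ l, C2 i l := Finset.sum_nonneg (fun k _ => Finset.sum_nonneg (fun l _ => hC20 k l))
  have s3 : 0 ≤ ∑ k, ∑ l, C3 k l := Finset.sum_nonneg (fun k _ => Finset.sum_nonneg (fun l _ => hC30 k l))
  have s4 : 0 ≤ ∑ i, C4 i := Finset.sum_nonneg (fun k _ => hC40 k)
  have b1 : ∀ k, C1 k ≤ C := fun k => by
    have := Finset.single_le_sum (fun k _ => hC10 k) (Finset.mem_univ k)
    rw [hC]; linarith
  have b2 : ∀ i l, C2 i l ≤ C := fun i l => by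
    have h1 := Finset.single_le_sum (fun l _ => hC20 i l) (Finset.mem_univ l)
    have h2 := Finset.single_le_sum (f := fun i => ∑ l, C2 i l)
      (fun i _ => Finset.sum_nonneg (fun l _ => hC20 i l)) (Finset.mem_univ i)
    rw [hC]; linarith
  have b3 : ∀ i l, C3 i l ≤ C := fun i l => by
    have h1 := Finset.single_le_sum (fun l _ => hC30 i l) (Finset.mem_univ l)
    have h2 := Finset.single_le_sum (f := fun i => ∑ l, C3 i l)
      (fun i _ => Finset.sum_nonneg (fun l _ => hC30 i l)) (Finset.mem_univ i)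
    rw [hC]; linarith
  have b4 : ∀ k, C4 k ≤ C := fun k => by
    have := Finset.single_le_sum (fun k _ => hC40 k) (Finset.mem_univ k)
    rw [hC]; linarith
  set c : ℝ := 1 + ∑ k, ‖S k‖ with hc
  have hc1 : 1 ≤ c := by
    have : 0 ≤ ∑ k, ‖S k‖ := Finset.sum_nonneg (fun k _ => norm_nonneg _)
    linarith
  have hcS' : ∀ k, ‖S k‖ ≤ c := fun k => by
    have := Finset.single_le_sum (fun k _ => norm_nonneg (S k)) (Finset.mem_univ k)
    rw [hc]; linarith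
  refine ⟨fun k => EE hR (S k), c, C, ?_, ?_⟩
  · refine ⟨hc1, by positivity, ?_, ?_, ?_, ?_, ?_, ?_⟩
    · intro i T hT
      apply (EE_AO (hφ i) (Sn (ν i)) T).mono _ le_rfl
      rw [abs_of_pos (by linarith)]
      have := Sn_norm (ν i)
      nlinarith [norm_nonneg (Sn (ν i))]
    · intro k T hT
      apply (EE_AO hR (S k) T).mono _ le_rfl
      rw [abs_of_pos (by linarith), mul_comm]
      exact mul_le_mul_of_nonneg_right (hcS' k) (by linarith)
    · intro k T hT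
      have h1 := hC1 k T (by linarith)
      rw [finrank_euclideanSpace_fin] at h1
      apply h1.mono
      exact div_le_div_of_nonneg_right (b1 k) (by positivity)
    · intro i l hil T T' hT hT'
      apply (hC2 i l hil T T' hT hT').mono
      exact div_le_div_of_nonneg_right (b2 i l) (by positivity)
    · intro k l T T' hT hT'
      apply (hC3 k l T T' hT hT').mono
      exact div_le_div_of_nonneg_right (b3 k l) (by positivity)
    · intro i T T' hT hT'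
      have h1 := hC4 i T T' (by linarith) (by linarith)
      rw [Hn_fin (ν i) (hν i)] at h1
      have h2 : d - 1 + 1 = d := by omega
      rw [h2] at h1
      apply h1.mono
      apply div_le_div_of_nonneg_right _ (by positivity)
      exact mul_le_mul_of_nonneg_right (b4 i) (by linarith)
  · intro k T hT
    exact KK_ao hR (S k) fr1 fr1_frame T hT

/-! ### the composed operator -/

lemma foldr_nu {r : ℕ} (ν : Fin r → Sp d) (hν : ∀ i, ‖ν i‖ = 1) (L : List (Fin r)) (g : Cs d) :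
    L.foldr (fun i g => opNu (ν i) g) g.f =
      ((L.map (fun i => QQ (Sn (ν i)) (fr (ν i) (hν i)))).prod g).f := by
  induction L with
  | nil => rfl
  | cons i L ih =>
    rw [List.foldr_cons, ih, List.map_cons, List.prod_cons, ← QQ_plane (ν i) (hν i)]
    rfl

lemma foldr_S {q : ℕ} (S : Fin q → (Sp d →L[ℝ] Sp d)) (L : List (Fin q)) (g : Cs d) :
    L.foldr (fun i g => qD (S i) g) g.f = ((L.map (fun i => QQ (S i) fr1)).prod g).f := by
  induction L with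
  | nil => rfl
  | cons i L ih =>
    rw [List.foldr_cons, ih, List.map_cons, List.prod_cons, ← QQ_full (S i)]
    rfl

/-- the operator P as an element of the algebra -/
def Pt {r q : ℕ} (ν : Fin r → Sp d) (hν : ∀ i, ‖ν i‖ = 1) (S : Fin q → (Sp d →L[ℝ] Sp d)) : Op d :=
  ((List.finRange r).map (fun i => QQ (Sn (ν i)) (fr (ν i) (hν i)))).prod *
    ((List.finRange q).map (fun i => QQ (S i) fr1)).prod

lemma allOp_eq {r q : ℕ} (ν : Fin r → Sp d) (hν : ∀ i, ‖ν i‖ = 1) (S : Fin q → (Sp d →L[ℝ] Sp d))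
    (g : Cs d) : allOp ν S g.f = (Pt ν hν S g).f := by
  unfold allOp Pt
  rw [List.ofFn_eq_map, List.ofFn_eq_map, List.foldr_map, List.foldr_map, foldr_S, foldr_nu ν hν]
  rfl

lemma allOp_iter {r q : ℕ} (ν : Fin r → Sp d) (hν : ∀ i, ‖ν i‖ = 1) (S : Fin q → (Sp d →L[ℝ] Sp d))
    (m : ℕ) (g : Cs d) : (allOp ν S)^[m] g.f = (((Pt ν hν S) ^ m) g).f := by
  induction m generalizing g with
  | zero => rfl
  | succ m ih =>
    rw [Function.iterate_succ, Function.comp_apply, allOp_eq ν hν, ih, pow_succ]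
    rfl

end

end ST
end TG
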