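import Pool.Agent.TG.STh7

/-!
# Structure theorem: functionals and charts
-/

open MeasureTheory Metric Set TrI
open scoped InnerProductSpace ContDiff

namespace TG
namespace ST

noncomputable section

variable {d : ℕ}

/-! ### derivatives -/

lemma itD_supp {R : ℝ} {g : Cs d} (hg : ∀ y, R ≤ ‖y‖ → g.f y = 0) {j : ℕ} (m : Fin j → Sp d) :
    ∀ y, R ≤ ‖y‖ → (itD m g).f y = 0 := by
  induction j with
  | zero =>
    have h1 : itD m g = g := by simp [itD]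
    rw [h1]; exact hg
  | succ n ih =>
    have h1 : itD m g = dd (m 0) (itD (fun i : Fin n => m i.succ) g) := by
      unfold itD
      rw [List.ofFn_succ, List.map_cons, List.prod_cons]
      rfl
    rw [h1]
    exact dd_supp (ih _) _

lemma iter_supp {R : ℝ} {g : Cs d} (hg : ∀ y, R ≤ ‖y‖ → g.f y = 0) (j : ℕ) (y : Sp d)
    (hy : R ≤ ‖y‖) : iteratedFDeriv ℝ j g.f y = 0 := by
  ext m
  rw [← itD_apply, itD_supp hg m y hy]
  rfl

lemma AO.iter_le {ρ C N : ℝ} {A : Op d} (hA : AO ρ C A) {j : ℕ} {g : Cs d}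
    (hN : ∀ y, ‖iteratedFDeriv ℝ j g.f y‖ ≤ N) (x : Sp d) :
    ‖iteratedFDeriv ℝ j (A g).f x‖ ≤ C * N := by
  have hN0 : 0 ≤ N := (norm_nonneg _).trans (hN 0)
  apply ContinuousMultilinearMap.opNorm_le_bound (mul_nonneg hA.C0 hN0)
  intro m
  rw [hA.itD_eq m g x, Real.norm_eq_abs, mul_assoc]
  apply hA.bd
  intro y _
  exact (itD_le m g y).trans (mul_le_mul_of_nonneg_right (hN y) (Finset.prod_nonneg (fun _ _ => norm_nonneg _)))

lemma SmO.iter_le {R0 η ρ C N : ℝ} {A : Op d} (hs : SmO R0 η A) (hη : 0 ≤ η) (hA : AO ρ C A) {j : ℕ}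
    {g : Cs d} (hg : ∀ y, R0 ≤ ‖y‖ → g.f y = 0)
    (hN : ∀ y, ‖iteratedFDeriv ℝ j g.f y‖ ≤ N) (x : Sp d) :
    ‖iteratedFDeriv ℝ j (A g).f x‖ ≤ η * N := by
  have hN0 : 0 ≤ N := (norm_nonneg _).trans (hN 0)
  apply ContinuousMultilinearMap.opNorm_le_bound (mul_nonneg hη hN0)
  intro m
  rw [hA.itD_eq m g x, Real.norm_eq_abs, mul_assoc]
  apply hs _ _ (itD_supp hg m)
  intro y
  exact (itD_le m g y).trans (mul_le_mul_of_nonneg_right (hN y) (Finset.prod_nonneg (fun _ _ => norm_nonneg _)))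

lemma iter2_iter (G : Cs d) (m : ℕ) (x : Sp d) :
    ‖iteratedFDeriv ℝ 2 (iteratedFDeriv ℝ m G.f) x‖ ≤ ‖iteratedFDeriv ℝ (m + 2) G.f x‖ := by
  have hiter : ContDiff ℝ 2 (iteratedFDeriv ℝ m G.f) :=
    G.cd.iteratedFDeriv_right (by norm_cast; exact WithTop.coe_le_coe.mpr le_top)
  apply ContinuousMultilinearMap.opNorm_le_bound (norm_nonneg _)
  intro m'
  apply ContinuousMultilinearMap.opNorm_le_bound
    (mul_nonneg (norm_nonneg _) (Finset.prod_nonneg (fun _ _ => norm_nonneg _)))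
  intro w
  set ev := ContinuousMultilinearMap.apply ℝ (fun _ : Fin m => Sp d) ℝ w with hev
  have e1 : iteratedFDeriv ℝ 2 (ev ∘ iteratedFDeriv ℝ m G.f) x =
      ev.compContinuousMultilinearMap (iteratedFDeriv ℝ 2 (iteratedFDeriv ℝ m G.f) x) :=
    ev.iteratedFDeriv_comp_left hiter.contDiffAt (by norm_num)
  have e2 : (ev ∘ iteratedFDeriv ℝ m G.f) = (itD w G).f := by
    funext y
    rw [itD_apply]
    rfl
  have e3 : (iteratedFDeriv ℝ 2 (iteratedFDeriv ℝ m G.f) x m') w =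
      iteratedFDeriv ℝ 2 (itD w G).f x m' := by
    rw [← e2, e1]
    rfl
  rw [e3, ← itD_apply]
  have e4 : itD m' (itD w G) = itD (Fin.cons (m' 0) (Fin.cons (m' 1) w) : Fin (m + 2) → Sp d) G := by
    unfold itD
    simp [List.ofFn_succ]
  rw [e4, Real.norm_eq_abs]
  refine (itD_le _ _ _).trans (le_of_eq ?_)
  rw [Fin.prod_univ_succ, Fin.prod_univ_succ, Fin.prod_univ_two]
  simp only [Fin.cons_zero, Fin.cons_succ]
  ring

section Func

variable {E : Type} [NormedAddCommGroup E] [InnerProductSpace ℝ E]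

/-- the functional g ↦ ∫ ⟪f, e⟫ g -/
def psi (f : Sp d → E) (hf : Continuous f) (hc : HasCompactSupport f) (e : E) : Cs d →ₗ[ℝ] ℝ where
  toFun g := ∫ y, ⟪f y, e⟫_ℝ * g.f y
  map_add' g g' := by
    have hi : ∀ g : Cs d, Integrable (fun y => ⟪f y, e⟫_ℝ * g.f y) := fun g => by
      apply Continuous.integrable_of_hasCompactSupport
      · exact (hf.inner continuous_const).mul g.cont
      · apply HasCompactSupport.mul_right
        exact hc.comp_left (g := fun v : E => ⟪v, e⟫_ℝ) (inner_zero_left _)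
    rw [← integral_add (hi g) (hi g')]
    congr 1
    funext y
    rw [Cs.add_apply']
    ring
  map_smul' c g := by
    rw [RingHom.id_apply, smul_eq_mul, ← integral_const_mul]
    congr 1
    funext y
    have : (c • g).f y = c * g.f y := rfl
    rw [this]
    ring

lemma psi_apply (f : Sp d → E) (hf : Continuous f) (hc : HasCompactSupport f) (e : E) (g : Cs d) :
    psi f hf hc e g = ∫ y, ⟪f y, e⟫_ℝ * g.f y := rfl

end Func

/-- consequence of MA -/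
lemma F1 (hMA : StmtMA) (hd : 1 ≤ d) (M c ε : ℝ) (hε : 0 < ε) (hε1 : ε ≤ 1) (b : Sp d → ℝ)
    (hb : BaseKer 2 M c b) : ∃ CM : ℝ, 0 < CM ∧
    ∀ (E : Type) [NormedAddCommGroup E] [InnerProductSpace ℝ E] [FiniteDimensional ℝ E]
    (f : Sp d → E), Continuous f → HasCompactSupport f → ∀ (R' : ℝ), 5 ≤ R' → ∀ (n : ℕ) (e : E),
    ‖e‖ = 1 → ∀ (ρ m1 δ' : ℝ), ρ + 2 ≤ R' →
      (∫ y in ball (0 : Sp d) (ρ + 1), ‖fl b ε ((1 / 2) ^ n) f (n - 1) y‖) ≤ m1 →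
      DD b ε R' ((1 / 2) ^ n) f n 0 e ≤ δ' →
      ∀ (g : Sp d → ℝ) (N : ℝ), ContDiff ℝ 2 g → (∀ y, |g y| ≤ N) →
        (∀ y, ‖iteratedFDeriv ℝ 2 g y‖ ≤ N) → (∀ y, ρ ≤ ‖y‖ → g y = 0) →
        |∫ y, ⟪f y, e⟫_ℝ * g y| ≤ CM * (m1 + δ') * N := by
  obtain ⟨CM, hCM, h⟩ := hMA d hd M c ε hε hε1 b hb
  refine ⟨CM, hCM, ?_⟩
  intro E _ _ _ f hf hc R' hR' n e he ρ m1 δ' hρ hm1 hδ' g N hg hN hN2 hsupp
  have hN0 : 0 ≤ N := (abs_nonneg _).trans (hN 0)
  rcases hN0.eq_or_lt with h0 | hNpos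
  · have hz : ∀ y, g y = 0 := fun y => by
      have := hN y
      rw [← h0] at this
      exact abs_nonpos_iff.mp this
    simp_rw [hz, mul_zero, integral_zero, abs_zero]
    rw [← h0, mul_zero]
  · have hi : 0 < 1 / N := by positivity
    have h1 := (h E f hf hc R' hR' n e he 0 (ball (0 : Sp d) (ρ + 1)) measurableSet_ball).1
      (fun y => (1 / N) • g y) (hg.const_smul (1 / N)) (fun y => by
        rw [smul_eq_mul, abs_mul, abs_of_pos hi, one_div, inv_mul_le_iff₀ hNpos, mul_one]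
        exact hN y) (fun y => by
        rw [iteratedFDeriv_const_smul_apply' (hg.contDiffAt), norm_smul, Real.norm_eq_abs, abs_of_pos hi,
          one_div, inv_mul_le_iff₀ hNpos, mul_one]
        exact hN2 y) (fun y hy => by
        rw [sub_zero] at hy
        rw [hsupp y (by linarith), smul_zero]) (fun y z hy hz => by
        have h2 : ‖y‖ < ρ := by
          by_contra hcon
          apply hy
          rw [hsupp y (not_lt.mp hcon), smul_zero]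
        rw [mem_ball, dist_zero_right]
        calc ‖z‖ = ‖y + (z - y)‖ := by congr 1; abel
          _ ≤ ‖y‖ + ‖z - y‖ := norm_add_le _ _
          _ < ρ + 1 := by linarith)
    have h2 : ∫ y, ⟪f y, e⟫_ℝ * (1 / N) • g y = 1 / N * ∫ y, ⟪f y, e⟫_ℝ * g y := by
      rw [← integral_const_mul]
      congr 1
      funext y
      rw [smul_eq_mul]
      ring
    rw [h2, abs_mul, abs_of_pos hi, one_div, inv_mul_le_iff₀ hNpos] at h1
    refine h1.trans ?_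
    rw [mul_comm N]
    apply mul_le_mul_of_nonneg_right _ hN0
    exact mul_le_mul_of_nonneg_left (add_le_add hm1 hδ') hCM.le

/-- consequence of PE -/
lemma F2 (hPE : StmtPE) (hd : 1 ≤ d) (M c ε : ℝ) (hε : 0 < ε) (hε1 : ε ≤ 1) (b : Sp d → ℝ)
    (hb : BaseKer 2 M c b) : ∃ CM : ℝ, 0 < CM ∧
    ∀ (E : Type) [NormedAddCommGroup E] [InnerProductSpace ℝ E] [FiniteDimensional ℝ E]
    (f : Sp d → E), Continuous f → HasCompactSupport f → ∀ (R' : ℝ), 5 ≤ R' → ∀ (n : ℕ) (e : E),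
    ‖e‖ = 1 → ∀ (ρ m1 δ' : ℝ), ρ + 2 ≤ R' → 0 ≤ δ' →
      (∫ y in ball (0 : Sp d) (ρ + 1), ‖fl b ε ((1 / 2) ^ n) f (n - 1) y‖) ≤ m1 →
      DD b ε R' ((1 / 2) ^ n) f n 0 e ≤ δ' →
      ∀ (g : Sp d → E) (N : ℝ), ContDiff ℝ 2 g → (∀ y, ‖g y‖ ≤ N) →
        (∀ y, ‖iteratedFDeriv ℝ 2 g y‖ ≤ N) → (∀ y, ρ ≤ ‖y‖ → g y = 0) →
        |∫ y, ⟪f y - ⟪f y, e⟫_ℝ • e, g y⟫_ℝ| ≤ CM * (Real.sqrt (m1 * δ') + δ') * N := by
  obtain ⟨CM, hCM, h⟩ := hPE d hd M c ε hε hε1 b hb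
  refine ⟨CM, hCM, ?_⟩
  intro E _ _ _ f hf hc R' hR' n e he ρ m1 δ' hρ hδ0 hm1 hδ' g N hg hN hN2 hsupp
  have hN0 : 0 ≤ N := (norm_nonneg _).trans (hN 0)
  rcases hN0.eq_or_lt with h0 | hNpos
  · have hz : ∀ y, g y = 0 := fun y => by
      have := hN y
      rw [← h0] at this
      exact norm_le_zero_iff.mp this
    simp_rw [hz, inner_zero_right, integral_zero, abs_zero]
    rw [← h0, mul_zero]
  · have hi : 0 < 1 / N := by positivity
    have h1 := h E f hf hc R' (by linarith) n e he 0 (fun y => (1 / N) • g y) (ball (0 : Sp d) (ρ + 1))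
      measurableSet_ball (hg.const_smul (1 / N)) (fun y => by
        rw [norm_smul, Real.norm_eq_abs, abs_of_pos hi, one_div, inv_mul_le_iff₀ hNpos, mul_one]
        exact hN y) (fun y => by
        rw [iteratedFDeriv_const_smul_apply' (hg.contDiffAt), norm_smul, Real.norm_eq_abs, abs_of_pos hi,
          one_div, inv_mul_le_iff₀ hNpos, mul_one]
        exact hN2 y) (fun y hy => by
        rw [sub_zero] at hy
        rw [hsupp y (by linarith), smul_zero]) (fun y z hy hz => by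
        have h2 : ‖y‖ < ρ := by
          by_contra hcon
          apply hy
          rw [hsupp y (not_lt.mp hcon), smul_zero]
        rw [mem_ball, dist_zero_right]
        calc ‖z‖ = ‖y + (z - y)‖ := by congr 1; abel
          _ ≤ ‖y‖ + ‖z - y‖ := norm_add_le _ _
          _ < ρ + 1 := by linarith)
    have h2 : ∫ y, ⟪f y - ⟪f y, e⟫_ℝ • e, (1 / N) • g y⟫_ℝ =
        1 / N * ∫ y, ⟪f y - ⟪f y, e⟫_ℝ • e, g y⟫_ℝ := by
      rw [← integral_const_mul]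
      congr 1
      funext y
      rw [real_inner_smul_right]
    rw [h2, abs_mul, abs_of_pos hi, one_div, inv_mul_le_iff₀ hNpos] at h1
    refine h1.trans ?_
    rw [mul_comm N]
    apply mul_le_mul_of_nonneg_right _ hN0
    apply mul_le_mul_of_nonneg_left _ hCM.le
    apply add_le_add _ hδ'
    apply Real.sqrt_le_sqrt
    have hI : 0 ≤ ∫ y in ball (0 : Sp d) (ρ + 1), ‖fl b ε ((1 / 2) ^ n) f (n - 1) y‖ :=
      integral_nonneg (fun _ => norm_nonneg _)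
    calc (∫ y in ball (0 : Sp d) (ρ + 1), ‖fl b ε ((1 / 2) ^ n) f (n - 1) y‖) *
          DD b ε R' ((1 / 2) ^ n) f n 0 e
        ≤ (∫ y in ball (0 : Sp d) (ρ + 1), ‖fl b ε ((1 / 2) ^ n) f (n - 1) y‖) * δ' :=
          mul_le_mul_of_nonneg_left hδ' hI
      _ ≤ m1 * δ' := mul_le_mul_of_nonneg_right hm1 hδ0

/-- the form of the operator P tested against f -/
lemma F3 {E : Type} [NormedAddCommGroup E] [InnerProductSpace ℝ E] [FiniteDimensional ℝ E]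
    {m : ℕ} (TY : (ContinuousMultilinearMap ℝ (fun _ : Fin m => Sp d) ℝ) →L[ℝ] E) (e0 e : E)
    (f : Sp d → E) (hf : Continuous f) (hc : HasCompactSupport f)
    (G PG : Cs d) (hPG : ∀ x, PG.f x = ⟪e0, TY (iteratedFDeriv ℝ m G.f x)⟫_ℝ)
    (hz : ∫ x, ⟪f x, TY (iteratedFDeriv ℝ m G.f x)⟫_ℝ = 0) (ρ N m1 δ' δ1 CM CP : ℝ)
    (hG : ∀ y, ρ ≤ ‖y‖ → G.f y = 0) (hNm : ∀ y, ‖iteratedFDeriv ℝ m G.f y‖ ≤ N)
    (hNm2 : ∀ y, ‖iteratedFDeriv ℝ (m + 2) G.f y‖ ≤ N) (hδ1 : ‖e - e0‖ ≤ δ1)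
    (h1 : ∀ (g : Sp d → ℝ) (N : ℝ), ContDiff ℝ 2 g → (∀ y, |g y| ≤ N) →
        (∀ y, ‖iteratedFDeriv ℝ 2 g y‖ ≤ N) → (∀ y, ρ ≤ ‖y‖ → g y = 0) →
        |∫ y, ⟪f y, e⟫_ℝ * g y| ≤ CM * (m1 + δ') * N)
    (h2 : ∀ (g : Sp d → E) (N : ℝ), ContDiff ℝ 2 g → (∀ y, ‖g y‖ ≤ N) →
        (∀ y, ‖iteratedFDeriv ℝ 2 g y‖ ≤ N) → (∀ y, ρ ≤ ‖y‖ → g y = 0) →
        |∫ y, ⟪f y - ⟪f y, e⟫_ℝ • e, g y⟫_ℝ| ≤ CP * (Real.sqrt (m1 * δ') + δ') * N) :
    |psi f hf hc e PG| ≤ CP * (Real.sqrt (m1 * δ') + δ') * (‖TY‖ * N) +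
      CM * (m1 + δ') * (δ1 * (‖TY‖ * N)) := by
  set Y : Sp d → E := fun x => TY (iteratedFDeriv ℝ m G.f x) with hY
  have hN0 : 0 ≤ N := (norm_nonneg _).trans (hNm 0)
  have hδ10 : 0 ≤ δ1 := (norm_nonneg _).trans hδ1
  have hiter : ContDiff ℝ 2 (iteratedFDeriv ℝ m G.f) :=
    G.cd.iteratedFDeriv_right (by norm_cast; exact WithTop.coe_le_coe.mpr le_top)
  have hYc : ContDiff ℝ 2 Y := TY.contDiff.comp hiter
  have hYb : ∀ y, ‖Y y‖ ≤ ‖TY‖ * N := fun y =>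
    (TY.le_opNorm _).trans (mul_le_mul_of_nonneg_left (hNm y) (norm_nonneg _))
  have hYb2 : ∀ y, ‖iteratedFDeriv ℝ 2 Y y‖ ≤ ‖TY‖ * N := by
    intro y
    have e1 : iteratedFDeriv ℝ 2 Y y =
        TY.compContinuousMultilinearMap (iteratedFDeriv ℝ 2 (iteratedFDeriv ℝ m G.f) y) :=
      TY.iteratedFDeriv_comp_left hiter.contDiffAt (by norm_num)
    rw [e1]
    refine (ContinuousLinearMap.norm_compContinuousMultilinearMap_le _ _).trans ?_
    exact mul_le_mul_of_nonneg_left ((iter2_iter G m y).trans (hNm2 y)) (norm_nonneg _)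
  have hYs : ∀ y, ρ ≤ ‖y‖ → Y y = 0 := by
    intro y hy
    change TY (iteratedFDeriv ℝ m G.f y) = 0
    rw [iter_supp hG m y hy, map_zero]
  have g2 := h2 Y _ hYc hYb hYb2 hYs
  set z : Sp d → ℝ := fun y => ⟪e0 - e, Y y⟫_ℝ with hzdef
  have hzc : ContDiff ℝ 2 z := contDiff_const.inner ℝ hYc
  have hne : ‖e0 - e‖ ≤ δ1 := by rw [norm_sub_rev]; exact hδ1
  have hzb : ∀ y, |z y| ≤ δ1 * (‖TY‖ * N) := fun y =>
    (abs_real_inner_le_norm _ _).trans (mul_le_mul hne (hYb y) (norm_nonneg _) hδ10)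
  have hzb2 : ∀ y, ‖iteratedFDeriv ℝ 2 z y‖ ≤ δ1 * (‖TY‖ * N) := by
    intro y
    have e1 : iteratedFDeriv ℝ 2 z y =
        (innerSL ℝ (e0 - e)).compContinuousMultilinearMap (iteratedFDeriv ℝ 2 Y y) :=
      (innerSL ℝ (e0 - e)).iteratedFDeriv_comp_left hYc.contDiffAt (by norm_num)
    rw [e1]
    refine (ContinuousLinearMap.norm_compContinuousMultilinearMap_le _ _).trans ?_
    apply mul_le_mul _ (hYb2 y) (norm_nonneg _) hδ10
    rw [innerSL_apply_norm]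
    exact hne
  have hzs : ∀ y, ρ ≤ ‖y‖ → z y = 0 := fun y hy => by
    change ⟪e0 - e, Y y⟫_ℝ = 0
    rw [hYs y hy, inner_zero_right]
  have g1 := h1 z _ hzc hzb hzb2 hzs
  -- integrability
  have hcomp : ∀ {w : Sp d → E}, Continuous w → Integrable (fun y => ⟪f y, w y⟫_ℝ) := by
    intro w hw
    apply Continuous.integrable_of_hasCompactSupport (hf.inner hw)
    exact hc.mono (fun y hy => by
      rw [Function.mem_support] at hy ⊢
      intro h0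
      exact hy (by rw [h0, inner_zero_left]))
  have hcomp2 : ∀ {w : Sp d → ℝ}, Continuous w → Integrable (fun y => ⟪f y, e⟫_ℝ * w y) := by
    intro w hw
    apply Continuous.integrable_of_hasCompactSupport ((hf.inner continuous_const).mul hw)
    exact hc.mono (fun y hy => by
      rw [Function.mem_support] at hy ⊢
      intro h0
      apply hy
      change ⟪f y, e⟫_ℝ * w y = 0
      rw [h0, inner_zero_left, zero_mul])
  have hYcont := hYc.continuous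
  have k1 : ∫ y, ⟪f y - ⟪f y, e⟫_ℝ • e, Y y⟫_ℝ = -∫ y, ⟪f y, e⟫_ℝ * ⟪e, Y y⟫_ℝ := by
    have e1 : ∀ y, ⟪f y - ⟪f y, e⟫_ℝ • e, Y y⟫_ℝ = ⟪f y, Y y⟫_ℝ - ⟪f y, e⟫_ℝ * ⟪e, Y y⟫_ℝ := by
      intro y
      rw [inner_sub_left, real_inner_smul_left]
    simp_rw [e1]
    rw [integral_sub (hcomp hYcont) (hcomp2 (continuous_const.inner hYcont)), hz, zero_sub]
  have k2 : psi f hf hc e PG = (∫ y, ⟪f y, e⟫_ℝ * ⟪e, Y y⟫_ℝ) + ∫ y, ⟪f y, e⟫_ℝ * z y := by
    rw [psi_apply, ← integral_add (hcomp2 (continuous_const.inner hYcont)) (hcomp2 hzc.continuous)]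
    congr 1
    funext y
    rw [hPG y, hzdef]
    change ⟪f y, e⟫_ℝ * ⟪e0, Y y⟫_ℝ = ⟪f y, e⟫_ℝ * ⟪e, Y y⟫_ℝ + ⟪f y, e⟫_ℝ * ⟪e0 - e, Y y⟫_ℝ
    rw [inner_sub_left]
    ring
  rw [k2]
  refine (abs_add_le _ _).trans (add_le_add ?_ g1)
  rw [k1, abs_neg] at g2
  exact g2

end

end ST
end TG
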