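import Pool.Agent.TG.Stmts10

/-!
# Trace inequality, general operators: sections 6, 11, 12 at unit scale, for an abstract density

m is a continuous signed density (in the application m = <f, e_Q>, rescaled to the unit cell).
D is an upper bound for all defect terms.  No double quotes.
-/

open MeasureTheory Metric Set TrI
open scoped InnerProductSpace ContDiff

namespace TG

noncomputable section

variable {d : ℕ}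

/-! ## Abstract hypotheses -/

/-- Lemma Z (4.4) as a property of the signed density m, for test functions in the ball R -/
def ZP (R D : ℝ) (m : Sp d → ℝ) : Prop :=
  ∀ H : Sp d → ℝ, ContDiff ℝ 2 H → (∀ y, 0 ≤ H y) → (∀ y, H y ≤ 1) →
    (∀ y, ‖iteratedFDeriv ℝ 2 H y‖ ≤ 1) → (∀ y, R ≤ ‖y‖ → H y = 0) → -D ≤ ∫ y, m y * H y

/-- all tangential derivatives (up to order J) of ζ and of its normal derivative on the plane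
{⟨n,x⟩ = s} are bounded by N -/
def TB (J : ℕ) (n : Sp d) (s N : ℝ) (ζ : Sp d → ℝ) : Prop :=
  ∀ j ≤ J, ∀ h : Fin j → Sp d, (∀ i, ⟪n, h i⟫_ℝ = 0) → (∀ i, ‖h i‖ ≤ 1) → ∀ y, ⟪n, y⟫_ℝ = s →
    |iteratedFDeriv ℝ j ζ y h| ≤ N ∧ |iteratedFDeriv ℝ j (fun x => fderiv ℝ ζ x n) y h| ≤ N

/-- height over the plane -/
def hgt (n : Sp d) (s : ℝ) (y : Sp d) : ℝ := ⟪n, y⟫_ℝ - s

/-- off-sheet mass in the ball of radius R -/
def blc (n : Sp d) (s : ℝ) (m : Sp d → ℝ) (R : ℝ) : ℝ := ∫ y, m y * (zR R y * hgt n s y ^ 2)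

/-- sheet estimate (8.3): in the ball of radius R the density m is close to ab times the surface
measure of {⟨n,x⟩ = s}.  The defect D contains all constants (also those of the cut-offs zR) -/
structure Sheet (J : ℕ) (R ab ep D : ℝ) (m : Sp d → ℝ) (n : Sp d) (s : ℝ) : Prop where
  n1 : ‖n‖ = 1
  ab0 : 0 < ab
  ep0 : 0 ≤ ep
  loc : |s| ≤ 3 / 2 * R
  est : ∀ (ζ : Sp d → ℝ) (ρ N N2 : ℝ), ContDiff ℝ (J + 2 : ℕ) ζ → 0 ≤ ρ → ρ ≤ R →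
    (∀ y, ρ ≤ ‖y‖ → ζ y = 0) → TB J n s N ζ → (∀ y, ‖iteratedFDeriv ℝ 2 ζ y‖ ≤ N2) →
    |(∫ y, m y * ζ y) - ab * plInt n s ζ| ≤ ep * N + N2 * blc n s m (ρ + 1) + (N + N2) * D

/-! ## Section 11: the gain of a sheet cell -/

/-- MODULE TA1 (11.1), case A1: small gain on the sheet -/
def StmtTA1 : Prop :=
  ∀ (d J : ℕ), 2 ≤ d → ∀ (M C' ε p0 A c R0 : ℝ), 0 < C' → 0 < ε → ε ≤ 1 / 4 →
    FarK d (J + 10) M C' ε p0 A c → 4 * A + 4 * d + 20 ≤ R0 →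
    ∃ cA : ℝ, 0 < cA ∧ ∀ δ : ℝ, 0 < δ → ∃ (i0 C : ℝ), 0 < i0 ∧ 0 < C ∧
    ∀ β : Sp d → ℝ, Kit (J + 10) M β → ∀ μ : Measure (Sp d), Gro C' μ →
    ∀ (m : Sp d → ℝ) (n : Sp d) (s ab ep D : ℝ), Continuous m → 0 ≤ D → ZP R0 D m →
      Sheet J R0 ab ep D m n s →
      plInt n s (fun x => zR (2 * R0 - 1) x * XX β ε μ n 1 x) ≤ i0 * vv μ 1 0 →
      cA * (ab * plInt n s (fun x => chi x * XX β ε μ n 1 x)
          + vv μ 1 0 * ∫ y, m y * (chi y * hgt n s y ^ 2))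
        - C * ep * Real.sqrt (vv μ 1 0 * plInt n s (fun x => zR (d + 2) x * XX β ε μ n 1 x))
        - δ * vv μ 1 0 * blc n s m (d + 1) - C * vv μ 1 0 * D
        ≤ ∫ y, m y * (chi y * Hn β ε p0 A μ n 1 y)

/-- MODULE TA2 (11.1), general case -/
def StmtTA2 : Prop :=
  ∀ (d J : ℕ), 2 ≤ d → ∀ (M C' ε p0 A c R0 : ℝ), 0 < C' → 0 < ε → ε ≤ 1 / 4 →
    FarK d (J + 10) M C' ε p0 A c → 4 * A + 4 * d + 20 ≤ R0 →
    ∃ (cA C : ℝ), 0 < cA ∧ 0 < C ∧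
    ∀ β : Sp d → ℝ, Kit (J + 10) M β → ∀ μ : Measure (Sp d), Gro C' μ →
    ∀ (m : Sp d → ℝ) (n : Sp d) (s ab ep D : ℝ), Continuous m → 0 ≤ D → ZP R0 D m →
      Sheet J R0 ab ep D m n s →
      cA * ab * plInt n s (fun x => chi x * XX β ε μ n 1 x)
        - C * vv μ 1 0 * (ep + blc n s m (d + 1) + 2 * D)
        ≤ ∫ y, m y * (chi y * Hn β ε p0 A μ n 1 y)

/-- tangential divergence of χ Υ ∇_T W -/
def dvT (χ β : Sp d → ℝ) (ε p0 A : ℝ) (μ : Measure (Sp d)) (n : Sp d) (x : Sp d) : ℝ :=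
  ∑ j : Fin d, fderiv ℝ (fun y => χ y * Ups p0 A μ 1 y * (tang n (gradient (WW β ε μ 1) y)) j) x
    (EuclideanSpace.single j (1 : ℝ))

/-- MODULE TD1 (11.2), case A1 (hypothesis IN) -/
def StmtTD1 : Prop :=
  ∀ (d J : ℕ), 2 ≤ d → ∀ (M C' ε p0 A R0 δ : ℝ), 0 < C' → 0 < ε → ε ≤ 1 / 4 → 0 < p0 →
    p0 ≤ 1 → 1 ≤ A → 4 * A + 4 * d + 20 ≤ R0 → 0 < δ →
    ∃ (I : ℕ) (i0 C : ℝ), 8 * A ≤ 2 ^ I ∧ 2 ^ I ≤ 32 * A ∧ 0 < i0 ∧ 0 < C ∧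
    ∀ β : ℕ → Sp d → ℝ, (∀ i, Kit (J + 10) M (β i)) → ∀ μ : Measure (Sp d), Gro C' μ →
    ∀ (m : Sp d → ℝ) (n : Sp d) (s ab ep D : ℝ), Continuous m → 0 ≤ D → ZP R0 D m →
      Sheet J R0 ab ep D m n s →
      (∀ i ≤ I, plInt n s (fun x => zR (2 * R0 - 1) x * XX (β i) ε μ n (2 ^ i) x) ≤
        i0 * vv μ 1 0) →
      |∫ y, m y * dvT chi (β 0) ε p0 A μ n y| ≤
        C * ep * Real.sqrt (vv μ 1 0 *
          plInt n s (fun x => zR (d + 2) x * XX (β 0) ε μ n 1 x))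
        + δ * vv μ 1 0 * blc n s m (d + 1) + C * vv μ 1 0 * D

/-- MODULE TD2 (11.2), general case -/
def StmtTD2 : Prop :=
  ∀ (d J : ℕ), 2 ≤ d → ∀ (M C' ε p0 A R0 : ℝ), 0 < C' → 0 < ε → ε ≤ 1 / 4 → 0 < p0 →
    p0 ≤ 1 → 1 ≤ A → 4 * A + 4 * d + 20 ≤ R0 → ∃ C : ℝ, 0 < C ∧
    ∀ β : Sp d → ℝ, Kit (J + 10) M β → ∀ μ : Measure (Sp d), Gro C' μ →
    ∀ (m : Sp d → ℝ) (n : Sp d) (s ab ep D : ℝ), Continuous m → 0 ≤ D → ZP R0 D m →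
      Sheet J R0 ab ep D m n s →
      |∫ y, m y * dvT chi β ε p0 A μ n y| ≤ C * vv μ 1 0 * (ep + blc n s m (d + 1) + 2 * D)

/-- the flux density of a sheet field: tr Y - nᵀ Y n for Y = χ' Υ ∇χ ⊗ ∇W -/
def fxA (χ χ' β : Sp d → ℝ) (ε p0 A : ℝ) (μ : Measure (Sp d)) (n : Sp d) (x : Sp d) : ℝ :=
  χ' x * Ups p0 A μ 1 x *
    ⟪tang n (gradient χ x), tang n (gradient (WW β ε μ 1) x)⟫_ℝ

/-- MODULE TF (11.3): flux between two sheet cells; the planes differ by at most δ, in the frame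
of the first cell; p is the difference of the two centres -/
def StmtTF : Prop :=
  ∀ (d J : ℕ), 2 ≤ d → ∀ (M C' ε p0 A R0 : ℝ), 0 < C' → 0 < ε → ε ≤ 1 / 4 → 0 < p0 →
    p0 ≤ 1 → 1 ≤ A → 4 * A + 4 * d + 20 ≤ R0 → ∃ C C1 : ℝ, 0 < C ∧ 0 < C1 ∧
    ∀ β : Sp d → ℝ, Kit (J + 10) M β → ∀ μ : Measure (Sp d), Gro C' μ →
    ∀ (m m' : Sp d → ℝ) (n n' : Sp d) (s ab ep D δ : ℝ) (p : Sp d), Continuous m →
      Continuous m' → 0 ≤ D → ZP R0 D m → Sheet J R0 ab ep D m n s →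
      ‖n'‖ = 1 → ‖n - n'‖ ≤ δ → δ ≤ 1 →
      (∀ Y : Sp d → ℝ, ContDiff ℝ 2 Y → (∀ y, |Y y| ≤ 1) → (∀ y, ‖iteratedFDeriv ℝ 2 Y y‖ ≤ 1) →
        (∀ y, R0 ≤ ‖y‖ → Y y = 0) → |∫ y, (m y - m' y) * Y y| ≤ D) →
      |(∫ y, m y * fxA chi (fun x => chi (x - p)) β ε p0 A μ n y)
          - ∫ y, m' y * fxA chi (fun x => chi (x - p)) β ε p0 A μ n' y| ≤
        C * (ep + ab * δ) * Real.sqrt (vv μ 1 0 *
            plInt n s (fun x => zR (d + 2) x * XX β ε μ n 1 x))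
          + C * (ep * δ + ab * δ ^ 2) * vv μ 1 0
          + C * δ * vv μ 1 0 * blc n s m (d + 1) + C1 * vv μ 1 0 * D

/-- MODULE TC: comparison of the gains on two planes which differ by at most δ -/
def StmtTC : Prop :=
  ∀ (d : ℕ), 2 ≤ d → ∀ (M C' ε R : ℝ), 0 < C' → 0 < ε → ε ≤ 1 / 4 → 1 ≤ R →
    ∃ C : ℝ, 0 < C ∧ ∀ β : Sp d → ℝ, Kit 10 M β → ∀ μ : Measure (Sp d), Gro C' μ →
    ∀ (n n' : Sp d) (s s' δ : ℝ), ‖n‖ = 1 → ‖n'‖ = 1 → ‖n - n'‖ ≤ δ → |s - s'| ≤ δ →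
    ∀ φ : Sp d → ℝ, TFn 2 1 φ → (∀ y, 0 ≤ φ y) → (∀ y, R ≤ ‖y‖ → φ y = 0) →
      plInt n s (fun x => φ x * XX β ε μ n 1 x) ≤
        4 * plInt n' s' (fun x => φ x * XX β ε μ n' 1 x) + C * δ ^ 2 * vv μ 1 0

/-- MODULE HN: comparison of the gains in two directions, and of the gain functional X -/
def StmtHN : Prop :=
  ∀ (d J : ℕ), 2 ≤ d → 10 ≤ J → ∀ (M C' ε p0 A c : ℝ), 0 < C' → 0 < ε → ε ≤ 1 / 4 →
    FarK d J M C' ε p0 A c → ∃ C : ℝ, 0 < C ∧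
    ∀ β : Sp d → ℝ, Kit J M β → ∀ μ : Measure (Sp d), Gro C' μ →
    ∀ (n n' : Sp d), ‖n‖ = 1 → ‖n'‖ = 1 → ∀ y,
      Hn β ε p0 A μ n 1 y ≤ 2 * Hn β ε p0 A μ n' 1 y + C * ‖n - n'‖ ^ 2 * vv μ 1 y ∧
      XX β ε μ n 1 y ≤ 2 * XX β ε μ n' 1 y + C * ‖n - n'‖ ^ 2 * vv μ 1 y

/-! ## Cells which are not near, light and incoherent cells -/

/-- MODULE NF (6.3): cells which are not near -/
def StmtNF : Prop :=
  ∀ (d J : ℕ), 2 ≤ d → 6 ≤ J → ∀ (M C' ε p0 A c : ℝ), 0 < C' → 0 < ε → ε ≤ 1 / 4 →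
    FarK d J M C' ε p0 A c → ∃ (cN C : ℝ), 0 < cN ∧ 0 < C ∧
    ∀ β : Sp d → ℝ, Kit J M β → ∀ μ : Measure (Sp d), Gro C' μ →
    ∀ (m : Sp d → ℝ) (D : ℝ), Continuous m → 0 ≤ D → ZP (d + 2) D m →
      (∀ y, chi y ≠ 0 → qq A μ 1 y ≤ p0) →
      cN * vv μ 1 0 * (∫ y, m y * chi y) - C * vv μ 1 0 * D ≤ ∫ y, m y * (chi y * GG β ε μ 1 y)

/-- MODULE NL (6.3): cost of a test function -/
def StmtNL : Prop :=
  ∀ (d : ℕ), 2 ≤ d → ∀ (ρ : ℝ), 1 ≤ ρ → ∃ C : ℝ, 0 < C ∧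
    ∀ (m : Sp d → ℝ) (D : ℝ), Continuous m → 0 ≤ D → ZP (ρ + 2) D m →
    ∀ (Y : Sp d → ℝ) (N : ℝ), TFn 2 N Y → (∀ y, ρ ≤ ‖y‖ → Y y = 0) →
      |∫ y, m y * Y y| ≤ N * (∫ y, m y * zR ρ y) + C * N * D

/-! ## Section 12: the Newton field -/

/-- compact Newton potential of radius R with the kernel b -/
def NNp (b : Sp d → ℝ) (R : ℝ) (φ : Sp d → ℝ) (x : Sp d) : ℝ :=
  ∫ s in (0 : ℝ)..R, s * avk (Bp b) s φ x

/-- basis vectors -/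
def bv (i : Fin d) : Sp d := EuclideanSpace.single i (1 : ℝ)

/-- second partial derivatives -/
def pd2 (i j : Fin d) (g : Sp d → ℝ) (x : Sp d) : ℝ := iteratedFDeriv ℝ 2 g x ![bv i, bv j]

/-- the matrix field HH (6.1) -/
def HHm (β : Sp d → ℝ) (ε p0 A : ℝ) (μ : Measure (Sp d)) (i j : Fin d) (y : Sp d) : ℝ :=
  Ups p0 A μ 1 y * ((if i = j then GG β ε μ 1 y - lap (WW β ε μ 1) y else 0)
      + pd2 i j (WW β ε μ 1) y)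
    + (if i = j then (1 - Ups p0 A μ 1 y) * GG β ε μ 1 y
        - ⟪gradient (Ups p0 A μ 1) y, gradient (WW β ε μ 1) y⟫_ℝ else 0)
    + 1 / 2 * (fderiv ℝ (Ups p0 A μ 1) y (bv i) * fderiv ℝ (WW β ε μ 1) y (bv j)
        + fderiv ℝ (Ups p0 A μ 1) y (bv j) * fderiv ℝ (WW β ε μ 1) y (bv i))

/-- double divergence of a matrix field -/
def dd2 (F : Fin d → Fin d → Sp d → ℝ) (x : Sp d) : ℝ := ∑ i, ∑ j, pd2 i j (F i j) x

/-- the test function of the Newton field: <T, F> = ∫ m (nt F) for T = - D² NN m -/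
def nt (b : Sp d → ℝ) (R : ℝ) (F : Fin d → Fin d → Sp d → ℝ) (x : Sp d) : ℝ :=
  -NNp b R (dd2 F) x

/-- MODULE HH: H_n = nᵀ HH n, and the pointwise identity of (6.1) for a single cell: with
χ compactly supported, m G = <T,GG> + <S,D²W> for T = m n nᵀ and for T = - D² NN m -/
def StmtHH : Prop :=
  ∀ (d : ℕ), 2 ≤ d → ∀ (M C' ε p0 A : ℝ), 0 < C' → 0 < ε → ε ≤ 1 → 0 < p0 → p0 ≤ 1 → 1 ≤ A →
    ∀ β : Sp d → ℝ, Kit 10 M β → ∀ μ : Measure (Sp d), Gro C' μ →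
      (∀ n : Sp d, ‖n‖ = 1 → ∀ y, ∑ i, ∑ j, n i * n j * HHm β ε p0 A μ i j y =
        Hn β ε p0 A μ n 1 y) ∧
      (∀ n : Sp d, ‖n‖ = 1 → ∀ χ : Sp d → ℝ, ContDiff ℝ ∞ χ → ∀ y,
        χ y * GG β ε μ 1 y = χ y * Hn β ε p0 A μ n 1 y + dvT χ β ε p0 A μ n y
          - fxA χ (fun _ => 1) β ε p0 A μ n y) ∧
      (∀ b : Sp d → ℝ, ∀ Mb cb : ℝ, BaseKer 10 Mb cb b → ∀ R : ℝ, 0 < R →
        ∀ χ : Sp d → ℝ, ContDiff ℝ ∞ χ → HasCompactSupport χ → ∀ y,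
        χ y * GG β ε μ 1 y = nt b R (fun i j x => χ x * HHm β ε p0 A μ i j x) y
          + avk b R (fun x => χ x * GG β ε μ 1 x) y
          - (Ups p0 A μ 1 y * ⟪gradient χ y, gradient (WW β ε μ 1) y⟫_ℝ
            - avk b R (fun x => Ups p0 A μ 1 x *
                ⟪gradient χ x, gradient (WW β ε μ 1) x⟫_ℝ) y
            - nt b R (fun i j x => Ups p0 A μ 1 x * (1 / 2 *
                (fderiv ℝ χ x (bv i) * fderiv ℝ (WW β ε μ 1) x (bv j)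
                + fderiv ℝ χ x (bv j) * fderiv ℝ (WW β ε μ 1) x (bv i)))) y))

end

end TG
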