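import Pool.Agent.TG.Stmts11

/-!
# Trace inequality, general operators: sections 12 and 13 at unit scale, abstract density

No double quotes.
-/

open MeasureTheory Metric Set TrI
open scoped InnerProductSpace ContDiff

namespace TG

noncomputable section

variable {d : ℕ}

/-- conclusion of the structure theorem (module ST), with at most rm directions -/
structure Str (J rm : ℕ) (R1 Rs e' a : ℝ) (m : Sp d → ℝ) (r : ℕ) (ν : Fin r → Sp d)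
    (κ : Fin r → Sp d → ℝ) : Prop where
  rle : r ≤ rm
  n1 : ∀ i, ‖ν i‖ = 1
  k0 : ∀ i y, 0 ≤ κ i y
  kb : ∀ i, TFn 2 1 (κ i)
  ks : ∀ i y, κ i y ≠ 0 → ‖tang (ν i) y‖ ≤ R1 - Rs - 3
  kt : ∀ i y, κ i y = κ i (tang (ν i) y)
  est : ∀ (ζ : Sp d → ℝ) (N : ℝ), TFn J N ζ → (∀ y, Rs ≤ ‖y‖ → ζ y = 0) →
    |(∫ y, m y * ζ y) - ∑ i, ∫ y, m y * (κ i y * plInt (ν i) ⟪ν i, y⟫_ℝ ζ)| ≤ e' * a * N

/-- growth of the mass -/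
def MG (K γ R a D : ℝ) (m : Sp d → ℝ) : Prop :=
  ∀ ρ : ℝ, 1 ≤ ρ → ρ ≤ R → ∀ ζ : Sp d → ℝ, ContDiff ℝ 2 ζ → (∀ y, |ζ y| ≤ 1) →
    (∀ y, ‖iteratedFDeriv ℝ 2 ζ y‖ ≤ 1) → (∀ y, ρ ≤ ‖y‖ → ζ y = 0) →
    |∫ y, m y * ζ y| ≤ K * ρ ^ ((d : ℝ) - 1 + γ) * a + D

/-- the plane functional b(Q) of (4.6): the best plane meeting the ball of radius R + 1 -/
def bq (R : ℝ) (m : Sp d → ℝ) : ℝ :=
  max 0 (sInf {v : ℝ | ∃ (n : Sp d) (s : ℝ), ‖n‖ = 1 ∧ |s| ≤ R + 1 ∧ v = blc n s m R})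

/-- the sum over the structure pieces of the plane integrals -/
def pieces {r : ℕ} (m : Sp d → ℝ) (ν : Fin r → Sp d) (κ : Fin r → Sp d → ℝ)
    (F : Sp d → Sp d → ℝ) : ℝ :=
  ∑ i, ∫ y, m y * (κ i y * plInt (ν i) ⟪ν i, y⟫_ℝ (F (ν i)))

/-- the quadratic form of a matrix field -/
def qf (F : Fin d → Fin d → Sp d → ℝ) (n x : Sp d) : ℝ := ∑ i, ∑ j, n i * n j * F i j x

/-- MODULE B1 (12.1): the Newton field, tested with matrix fields whose derivatives of order k are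
bounded by N * B k and which vanish off the ball ρ -/
def StmtB1 : Prop :=
  ∀ (d : ℕ), 2 ≤ d → ∀ (Mb cb K γ ρ δ : ℝ) (B : ℕ → ℝ) (b : Sp d → ℝ),
    BaseKer 2 Mb cb b → 0 < K → 0 < γ → γ ≤ 1 / (8 * d) → 1 ≤ ρ → 0 < δ →
    ∃ R0 : ℝ, 1 ≤ R0 ∧ ∀ R : ℝ, R0 ≤ R →
    ∃ E : ℕ → ℝ, (∀ J, 0 < E J) ∧ ∀ (R1 : ℝ) (rm : ℕ), ∃ C : ℝ, 0 < C ∧
    ∀ (m : Sp d → ℝ) (a D : ℝ) (J r : ℕ) (ν : Fin r → Sp d) (κ : Fin r → Sp d → ℝ),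
      Continuous m → 0 ≤ a → 0 ≤ D → ZP R1 D m →
      Str J rm R1 (R + ρ + 3) (E J) a m r ν κ → MG K γ (R + ρ + 4) a D m →
      (∀ (F : Fin d → Fin d → Sp d → ℝ) (N : ℝ), 0 ≤ N → (∀ i j, ContDiff ℝ ∞ (F i j)) →
        (∀ i j k y, ‖iteratedFDeriv ℝ k (F i j) y‖ ≤ N * B k) →
        (∀ i j y, ρ ≤ ‖y‖ → F i j y = 0) → (∀ n : Sp d, ‖n‖ = 1 → ∀ y, 0 ≤ qf F n y) →
        pieces m ν κ (qf F) ≤ (∫ y, m y * nt b R F y) + δ * a * N + C * N * D ∧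
        -(C * N * D) ≤ pieces m ν κ (qf F)) ∧
      (∀ (Y : Fin d → Fin d → Sp d → ℝ) (φ : Sp d → ℝ) (N : ℝ), 0 ≤ N →
        (∀ i j, ContDiff ℝ ∞ (Y i j)) → (∀ i j k y, ‖iteratedFDeriv ℝ k (Y i j) y‖ ≤ N * B k) →
        (∀ i j y, ρ ≤ ‖y‖ → Y i j y = 0) → ContDiff ℝ ∞ φ →
        (∀ k y, ‖iteratedFDeriv ℝ k φ y‖ ≤ B k) → (∀ y, ρ ≤ ‖y‖ → φ y = 0) →
        (∀ n : Sp d, ‖n‖ = 1 → ∀ y, |qf Y n y| ≤ N * φ y) →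
        |∫ y, m y * nt b R Y y| ≤ N * (∫ y, m y * φ y) + δ * a * N + C * N * D) ∧
      (∀ (φ : Sp d → ℝ) (N : ℝ), 0 ≤ N → ContDiff ℝ ∞ φ →
        (∀ k y, ‖iteratedFDeriv ℝ k φ y‖ ≤ N * B k) → (∀ y, ρ ≤ ‖y‖ → φ y = 0) →
        |∫ y, m y * avk b R φ y| ≤ δ * a * N + C * N * D)

/-- MODULE B2 (12.2): the plane functional is controlled by the pieces -/
def StmtB2 : Prop :=
  ∀ (d J0 : ℕ), 2 ≤ d → 6 ≤ J0 → ∀ (M C' ε p0 A c R0 : ℝ),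
    0 < C' → 0 < ε → ε ≤ 1 / 4 → FarK d J0 M C' ε p0 A c → 4 * A + 4 * d + 20 ≤ R0 →
    ∃ CB : ℝ, 0 < CB ∧ ∀ (δ Rs : ℝ), 0 < δ → 2 * R0 ≤ Rs →
    ∃ E : ℕ → ℝ, (∀ J, 0 < E J) ∧ ∀ (R1 : ℝ) (rm : ℕ), ∃ C : ℝ, 0 < C ∧
    ∀ β : Sp d → ℝ, Kit J0 M β → ∀ μ : Measure (Sp d), Gro C' μ →
    ∀ (m : Sp d → ℝ) (a D : ℝ) (J r : ℕ) (ν : Fin r → Sp d) (κ : Fin r → Sp d → ℝ),
      Continuous m → 0 ≤ a → 0 ≤ D → ZP R1 D m → Str J rm R1 Rs (E J) a m r ν κ →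
      vv μ 1 0 * bq R0 m ≤
        CB * pieces m ν κ (fun n x => zR (2 * R0 - 1) x * Hn β ε p0 A μ n 1 x)
          + δ * a * vv μ 1 0 + C * vv μ 1 0 * D

/-- MODULE B3: the pieces see a nonnegative function at most as much as m does; this is used for
light and incoherent cells among the neighbours -/
def StmtB3 : Prop :=
  ∀ (d : ℕ), 2 ≤ d → ∀ (Rs δ : ℝ) (B : ℕ → ℝ), 1 ≤ Rs → 0 < δ →
    ∃ E : ℕ → ℝ, (∀ J, 0 < E J) ∧ ∀ (R1 : ℝ) (rm : ℕ), ∃ C : ℝ, 0 < C ∧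
    ∀ (m : Sp d → ℝ) (a D : ℝ) (J r : ℕ) (ν : Fin r → Sp d) (κ : Fin r → Sp d → ℝ),
      Continuous m → 0 ≤ a → 0 ≤ D → ZP R1 D m → Str J rm R1 Rs (E J) a m r ν κ →
    ∀ (χ : Sp d → ℝ) (F : Sp d → Sp d → ℝ) (N : ℝ), ContDiff ℝ ∞ χ → (∀ y, 0 ≤ χ y) →
      (∀ y, Rs ≤ ‖y‖ → χ y = 0) → (∀ j y, ‖iteratedFDeriv ℝ j χ y‖ ≤ B j) →
      (∀ n, TFn 2 N (F n)) → (∀ n y, 0 ≤ F n y) → (∀ n y, F n y ≤ N * χ y) →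
      -C * N * D ≤ pieces m ν κ F ∧
      pieces m ν κ F ≤ N * (∫ y, m y * χ y) + δ * a * N + C * N * D

/-- MODULE AB (13): comparison of the sheet field and the Newton field, tested with a matrix
function Y of size N; sheets at the scales 1, 2, ..., 2^I -/
def StmtAB : Prop :=
  ∀ (d J : ℕ), 2 ≤ d → ∀ (Mb cb K γ R0 : ℝ) (b : Sp d → ℝ), BaseKer (J + 10) Mb cb b →
    0 < K → 0 < γ → γ ≤ 1 / (8 * d) → 6 * d + 20 ≤ R0 → ∃ C : ℝ, 0 < C ∧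
    ∀ (I : ℕ) (R : ℝ), 2 ^ I ≤ R → ∃ C1 : ℝ, 0 < C1 ∧
    ∀ (m : Sp d → ℝ) (a D : ℝ) (x : ℕ → Sp d) (n : ℕ → Sp d) (s ab ep : ℕ → ℝ),
      Continuous m → 0 ≤ a → 0 ≤ D → ZP (2 ^ I * R0) D m → MG K γ (2 * R + d) a D m →
      (∀ l ≤ I, ‖x l‖ ≤ d * 2 ^ l ∧
        Sheet J R0 (ab l) (ep l) D (fun y => 2 ^ l * m (x l + (2 : ℝ) ^ l • y)) (n l) (s l)) →
    ∀ (Y : Fin d → Fin d → Sp d → ℝ) (N : ℝ), (∀ i j, TFn (J + 6) N (Y i j)) →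
      (∀ i j y, (d : ℝ) ≤ ‖y‖ → Y i j y = 0) →
      |∫ y, m y * ((∑ i, ∑ j, n 0 i * n 0 j * Y i j y) - nt b R Y y)| ≤
        C * N * ∑ l ∈ Finset.range (I + 1), (1 / 2 : ℝ) ^ l *
            (ab l * ‖n l - n 0‖ + ep l
              + blc (n l) (s l) (fun y => 2 ^ l * m (x l + (2 : ℝ) ^ l • y)) (4 * d + 8))
          + C * N * K * (2 : ℝ) ^ (-(I : ℝ) * (1 - γ)) * a + C1 * N * D

end

end TG
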