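import Pool.Agent.TG.Conc
import Pool.Agent.TG.Stmts4

/-!
# Trace inequality, general operators: structured cells carry structure and sheets  (helper98)

The unit scale theorems ST2, FS, GS, ML, AB in the frames of the cells of Conc.lean.
No double quotes.
-/

open MeasureTheory Metric Set TrI
open scoped InnerProductSpace ContDiff ENNReal

namespace TG

noncomputable section

variable {d : ℕ}

/-- position of the cell P in the frame of Q -/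
def tw (s0 : ℝ) (Q P : Cell d) : Sp d := (1 / lev s0 Q.1) • (xC s0 P - xC s0 Q)

/-- MODULE FR1: growth and coherence give the structure theorem in the frame -/
def StmtFR1 : Prop :=
  ∀ (d : ℕ) (V E : Type) [NormedAddCommGroup V] [InnerProductSpace ℝ V] [FiniteDimensional ℝ V]
    [NormedAddCommGroup E] [InnerProductSpace ℝ E] [FiniteDimensional ℝ E] [Nontrivial E]
    (L : (Sp d →L[ℝ] V) →L[ℝ] E), 2 ≤ d → CEll L →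
    ∀ (M c0 ε : ℝ), 0 < ε → ε ≤ 1 → ∀ (b : Sp d → ℝ), BaseKer 2 M c0 b →
    ∀ (γ K Rs : ℝ) (tol : ℕ → ℝ), 0 < γ → γ ≤ 1 / (8 * d) → 1 ≤ K → 1 ≤ Rs → (∀ J, 0 < tol J) →
    ∃ (rm : ℕ) (R1 δ : ℝ), Rs + 3 ≤ R1 ∧ 0 < δ ∧
      ∀ R : ℝ, 2 * R1 + 2 * d + 20 ≤ R → ∀ u : Sp d → V, TF u → ∀ s0 : ℝ, 0 < s0 →
      ∀ e : Cell d → E, Dirs b ε R s0 (fo L u) e → ∀ (Q : Cell d) (a : ℝ), 0 ≤ a →
        (∀ i : ℕ, mT b ε s0 (fo L u) (up i Q) ≤ K * (2 : ℝ) ^ (γ * i) * a) →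
        (∀ i : ℕ, dC b ε R s0 (fo L u) e (up i Q) ≤ δ * (2 : ℝ) ^ ((i : ℝ) / 8) * a) →
        ∃ (J r : ℕ) (ν : Fin r → Sp d) (κ : Fin r → Sp d → ℝ),
          Str J rm R1 Rs (tol J) a (mQ s0 (fo L u) (e Q) Q) r ν κ

/-- the budget b + D summed over the ancestors with weights 2^(-i/4) -/
def bsh {E : Type} [NormedAddCommGroup E] [InnerProductSpace ℝ E] (b : Sp d → ℝ)
    (ε R0 R s0 : ℝ) (f : Sp d → E) (e : Cell d → E) (ν : Cell d → Sp d) (c : Cell d → ℝ)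
    (Q : Cell d) : ℝ :=
  sh (fun P => bC R0 s0 f e ν c P + dC b ε R s0 f e P) Q

/-- the defects summed over the ancestors with weights 2^(-i/4) -/
def dsh {E : Type} [NormedAddCommGroup E] [InnerProductSpace ℝ E] (b : Sp d → ℝ)
    (ε R s0 : ℝ) (f : Sp d → E) (e : Cell d → E) (Q : Cell d) : ℝ :=
  sh (fun P => dC b ε R s0 f e P) Q

/-- MODULE FR2: cells of type A carry a sheet, radius 64 R0 -/
def StmtFR2 : Prop :=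
  ∀ (d : ℕ) (V E : Type) [NormedAddCommGroup V] [InnerProductSpace ℝ V] [FiniteDimensional ℝ V]
    [NormedAddCommGroup E] [InnerProductSpace ℝ E] [FiniteDimensional ℝ E] [Nontrivial E]
    (L : (Sp d →L[ℝ] V) →L[ℝ] E), 2 ≤ d → CEll L → ∃ J : ℕ,
    ∀ (M c0 ε : ℝ), 0 < ε → ε ≤ 1 → ∀ (b : Sp d → ℝ), BaseKer 2 M c0 b →
    ∀ (R0 γ K : ℝ), 400 + 8 * d ≤ R0 → 0 < γ → γ ≤ 1 / (16 * d) → 1 ≤ K →
    ∃ (C κ : ℝ), 0 < C ∧ 0 < κ ∧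
      ∀ R : ℝ, 300 * R0 ≤ R → ∀ u : Sp d → V, TF u → ∀ s0 : ℝ, 0 < s0 →
      ∀ e : Cell d → E, Dirs b ε R s0 (fo L u) e →
      ∀ (ν : Cell d → Sp d) (c : Cell d → ℝ), Plns R0 s0 (fo L u) e ν c →
      ∀ (Q : Cell d) (a : ℝ), 0 < a → a = mC b ε (64 * R0) s0 (fo L u) Q →
        (∀ i : ℕ, mT b ε s0 (fo L u) (up i Q) ≤ K * (2 : ℝ) ^ (γ * i) * a) →
        bsh b ε R0 R s0 (fo L u) e ν c Q ≤ κ * a →
        ∃ (n : Sp d) (s ab : ℝ), ‖n‖ = 1 ∧ |s| ≤ 64 * R0 + 4 ∧ a ≤ C * ab ∧ ab ≤ C * a ∧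
          max 0 (blc n s (mQ s0 (fo L u) (e Q) Q) (64 * R0)) ≤
            C * bsh b ε R0 R s0 (fo L u) e ν c Q ∧
          Sheet J (64 * R0) ab
            (C * (bsh b ε R0 R s0 (fo L u) e ν c Q +
              Real.sqrt (a * dsh b ε R s0 (fo L u) e Q)))
            (C * dsh b ε R s0 (fo L u) e Q) (mQ s0 (fo L u) (e Q) Q) n s

/-- MODULE FR3: the sheets of two cells of nearby levels are close -/
def StmtFR3 : Prop :=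
  ∀ (d J : ℕ), 2 ≤ d → ∀ (M c0 ε : ℝ), 0 < ε → ε ≤ 1 → ∀ (b : Sp d → ℝ), BaseKer 2 M c0 b →
  ∀ (R0 : ℝ) (i : ℕ), 400 + 8 * d ≤ R0 → ∃ (κ C : ℝ), 0 < κ ∧ 0 < C ∧
    ∀ (E : Type) [NormedAddCommGroup E] [InnerProductSpace ℝ E] [FiniteDimensional ℝ E]
      (R : ℝ), 150 * R0 * 2 ^ i ≤ R → ∀ f : Sp d → E, Continuous f → HasCompactSupport f →
    ∀ s0 : ℝ, 0 < s0 → ∀ e : Cell d → E, Dirs b ε R s0 f e →
    ∀ (Q Q' : Cell d), Q'.1 = Q.1 + i → ‖xC s0 Q' - xC s0 Q‖ ≤ 4 * R0 * lev s0 Q'.1 →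
    ∀ (n n' : Sp d) (s s' ab ab' ep ep' D D' Er : ℝ), 0 ≤ D → 0 ≤ D' →
      Sheet J (64 * R0) ab ep D (mQ s0 f (e Q) Q) n s →
      Sheet J (64 * R0) ab' ep' D' (mQ s0 f (e Q') Q') n' s' →
      |s| ≤ 2 * R0 →
      ep + ep' + max 0 (blc n s (mQ s0 f (e Q) Q) (64 * R0)) +
        max 0 (blc n' s' (mQ s0 f (e Q') Q') (64 * R0)) + D + D' +
        dC b ε R s0 f e Q + dC b ε R s0 f e (up (i + 1) Q) ≤ Er → Er ≤ κ * ab →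
      |ab - ab'| ≤ C * Er ∧ ∃ σ : ℝ, (σ = 1 ∨ σ = -1) ∧
        ab * (‖n - σ • n'‖ + |s - σ * (⟪n', tw s0 Q Q'⟫_ℝ + 2 ^ i * s')|) ≤ C * Er

/-- MODULE FR4: the A/B interface: for a cell of type A the sheet field and the Newton field give
almost the same when tested with a matrix function supported in the cell -/
def StmtFR4 : Prop :=
  ∀ (d : ℕ) (V E : Type) [NormedAddCommGroup V] [InnerProductSpace ℝ V] [FiniteDimensional ℝ V]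
    [NormedAddCommGroup E] [InnerProductSpace ℝ E] [FiniteDimensional ℝ E] [Nontrivial E]
    (L : (Sp d →L[ℝ] V) →L[ℝ] E), 2 ≤ d → CEll L → ∃ J0 : ℕ, ∀ J : ℕ, J0 ≤ J →
    ∀ (M c0 ε : ℝ), 0 < ε → ε ≤ 1 → ∀ (b : Sp d → ℝ), BaseKer (J + 10) M c0 b →
    ∀ (R0 γ K : ℝ), 400 + 8 * d ≤ R0 → 0 < γ → γ ≤ 1 / (32 * d) → 1 ≤ K →
    ∃ (C κ : ℝ), 0 < C ∧ 0 < κ ∧ ∀ (I : ℕ) (RN : ℝ), 2 ^ I ≤ RN → ∃ (Rm C1 : ℝ), 0 < C1 ∧
      ∀ R : ℝ, Rm ≤ R → ∀ u : Sp d → V, TF u → ∀ s0 : ℝ, 0 < s0 →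
      ∀ e : Cell d → E, Dirs b ε R s0 (fo L u) e →
      ∀ (ν : Cell d → Sp d) (c : Cell d → ℝ), Plns R0 s0 (fo L u) e ν c →
      ∀ (Q : Cell d) (a : ℝ), 0 < a → a = mC b ε (64 * R0) s0 (fo L u) Q →
        (∀ i : ℕ, mT b ε s0 (fo L u) (up i Q) ≤ K * (2 : ℝ) ^ (γ * i) * a) →
        (2 : ℝ) ^ ((3 / 5 : ℝ) * I) * bsh b ε R0 R s0 (fo L u) e ν c Q ≤ κ * a →
      ∀ (n : Sp d) (s ab ep D : ℝ), 0 ≤ D → a ≤ K * ab → ab ≤ K * a → |s| ≤ 64 * R0 + 4 →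
        Sheet J (64 * R0) ab ep D (mQ s0 (fo L u) (e Q) Q) n s →
      ∀ (Y : Fin d → Fin d → Sp d → ℝ) (N : ℝ), (∀ i j, TFn (J + 6) N (Y i j)) →
        (∀ i j y, (d : ℝ) ≤ ‖y‖ → Y i j y = 0) →
        |∫ y, mQ s0 (fo L u) (e Q) Q y * ((∑ i, ∑ j, n i * n j * Y i j y) - nt b RN Y y)| ≤
          C * N * (bsh b ε R0 R s0 (fo L u) e ν c Q +
              Real.sqrt (a * dsh b ε R s0 (fo L u) e Q) + ep +
              max 0 (blc n s (mQ s0 (fo L u) (e Q) Q) (64 * R0)) + D)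
            + C * N * (2 : ℝ) ^ (-(I : ℝ) * (1 - γ)) * a
            + C1 * N * dsh b ε R s0 (fo L u) e Q

end

end TG
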