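import Pool.Agent.TG.Stmts16

/-!
# Trace inequality, general operators: pieces of module LW (construction of the world)   (helper46)

The world: kind 0 on Strc and TyA, 1 on Strc minus TyA, 2 otherwise; sheets from LA (FR2), structure
and growth from LN (FR1, CT8), interface from LB (FR4), tops from LP (CT3, MA, CT5), finiteness LF.
Every statement StmtXX is proved as theorem stmtXX in Pool/Agent/TG/XX.lean (hypotheses: any other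
Stmt).  No double quotes.
-/

open MeasureTheory Metric Set TrI
open scoped InnerProductSpace ContDiff ENNReal

namespace TG

noncomputable section

variable {d : ℕ}

/-- MODULE LA: the sheet of a structured cell of type A (FR2 and FN.far_mass).
er = C (bsh + sqrt (a dsh)), dl = C dsh -/
def StmtLA : Prop :=
  ∀ (d : ℕ) (V E : Type) [NormedAddCommGroup V] [InnerProductSpace ℝ V] [FiniteDimensional ℝ V]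
    [NormedAddCommGroup E] [InnerProductSpace ℝ E] [FiniteDimensional ℝ E] [Nontrivial E]
    (L : (Sp d →L[ℝ] V) →L[ℝ] E), 2 ≤ d → CEll L → ∃ J0 : ℕ, ∀ J : ℕ, J0 ≤ J →
    ∀ (M c0 ε : ℝ), 0 < ε → ε ≤ 1 → ∀ (b : Sp d → ℝ), BaseKer 2 M c0 b →
    ∀ (R0 γ K : ℝ), 400 + 8 * d ≤ R0 → 0 < γ → γ ≤ 1 / (16 * d) → 1 ≤ K →
    ∃ (C κ1 Rm : ℝ), 1 ≤ C ∧ 0 < κ1 ∧ κ1 ≤ 1 ∧
      ∀ R : ℝ, Rm ≤ R → ∀ u : Sp d → V, TF u → ∀ s0 : ℝ, 0 < s0 →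
      ∀ e : Cell d → E, Dirs b ε R s0 (fo L u) e →
      ∀ (ν : Cell d → Sp d) (c : Cell d → ℝ), Plns R0 s0 (fo L u) e ν c →
      ∀ (a D bb' : Cell d → ℝ), a = mC b ε (64 * R0) s0 (fo L u) → D = dC b ε R s0 (fo L u) e →
        bb' = bC R0 s0 (fo L u) e ν c →
      ∀ (κ d0 : ℝ), 0 < κ → κ ≤ κ1 → ∀ Q ∈ Strc γ K d0 a (mT b ε s0 (fo L u)) D,
        Q ∈ TyA κ a D bb' →
        ∃ (n : Sp d) (s ab er dl : ℝ), ‖n‖ = 1 ∧ |s| ≤ 64 * R0 + 4 ∧ 0 < ab ∧ a Q ≤ C * ab ∧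
          ab ≤ C * a Q ∧ 0 ≤ er ∧ 0 ≤ dl ∧
          Sheet J (64 * R0) ab er dl (mQ s0 (fo L u) (e Q) Q) n s ∧
          blc n s (mQ s0 (fo L u) (e Q) Q) (64 * R0) ≤ er ∧
          er ≤ C * Real.sqrt κ * a Q ∧ dl ≤ C * κ * a Q ∧ dl ≤ C * sh D Q ∧
          er ≤ C * (sh bb' Q + κ * a Q) + C / κ * sh D Q ∧
          er ^ 2 / ab + dl ≤ C * (κ * sh bb' Q + sh D Q) ∧
          (32 * R0 + 4 < |s| → mC b ε (32 * R0) s0 (fo L u) Q ≤ C * Real.sqrt κ * a Q)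

/-- MODULE LB: the interface inequality with the right error (FR4, I depends on κ, finitely many
values of I for κ ≥ κm) -/
def StmtLB : Prop :=
  ∀ (d : ℕ) (V E : Type) [NormedAddCommGroup V] [InnerProductSpace ℝ V] [FiniteDimensional ℝ V]
    [NormedAddCommGroup E] [InnerProductSpace ℝ E] [FiniteDimensional ℝ E] [Nontrivial E]
    (L : (Sp d →L[ℝ] V) →L[ℝ] E), 2 ≤ d → CEll L → ∃ J0 : ℕ, ∀ J : ℕ, J0 ≤ J →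
    ∀ (M c0 ε : ℝ), 0 < ε → ε ≤ 1 → ∀ (b : Sp d → ℝ), BaseKer (J + 10) M c0 b →
    ∀ (R0 γ K : ℝ), 400 + 8 * d ≤ R0 → 0 < γ → γ ≤ 1 / (32 * d) → 1 ≤ K →
    ∃ (C κ1 : ℝ), 1 ≤ C ∧ 0 < κ1 ∧ κ1 ≤ 1 ∧ ∀ κm : ℝ, 0 < κm → ∃ RN0 : ℝ, 1 ≤ RN0 ∧
    ∀ RN : ℝ, RN0 ≤ RN → ∃ (Rm C1 : ℝ), 0 < C1 ∧
      ∀ R : ℝ, Rm ≤ R → ∀ u : Sp d → V, TF u → ∀ s0 : ℝ, 0 < s0 →
      ∀ e : Cell d → E, Dirs b ε R s0 (fo L u) e →
      ∀ (ν : Cell d → Sp d) (c : Cell d → ℝ), Plns R0 s0 (fo L u) e ν c →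
      ∀ (a D bb' : Cell d → ℝ), a = mC b ε (64 * R0) s0 (fo L u) → D = dC b ε R s0 (fo L u) e →
        bb' = bC R0 s0 (fo L u) e ν c →
      ∀ (κ d0 : ℝ), κm ≤ κ → κ ≤ κ1 → ∀ Q ∈ Strc γ K d0 a (mT b ε s0 (fo L u)) D,
        Q ∈ TyA κ a D bb' →
      ∀ (n : Sp d) (s ab er dl : ℝ), 0 ≤ er → 0 ≤ dl → a Q ≤ K * ab → ab ≤ K * a Q →
        |s| ≤ 64 * R0 + 4 → Sheet J (64 * R0) ab er dl (mQ s0 (fo L u) (e Q) Q) n s →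
        blc n s (mQ s0 (fo L u) (e Q) Q) (64 * R0) ≤ er →
        ∃ EI : ℝ, 0 ≤ EI ∧ EI ≤ C * (sh bb' Q + κ * a Q + er + dl) + C1 * sh D Q ∧
          ∀ (Y : Fin d → Fin d → Sp d → ℝ) (N : ℝ), (∀ i j, TFn (J + 6) N (Y i j)) →
            (∀ i j y, (d : ℝ) ≤ ‖y‖ → Y i j y = 0) →
            |∫ y, mQ s0 (fo L u) (e Q) Q y *
              ((∑ i, ∑ j, n i * n j * Y i j y) - nt b RN Y y)| ≤ N * EI

/-- MODULE LN: structure and growth of the mass in the frame of a structured cell (FR1, CT8) -/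
def StmtLN : Prop :=
  ∀ (d : ℕ) (V E : Type) [NormedAddCommGroup V] [InnerProductSpace ℝ V] [FiniteDimensional ℝ V]
    [NormedAddCommGroup E] [InnerProductSpace ℝ E] [FiniteDimensional ℝ E] [Nontrivial E]
    (L : (Sp d →L[ℝ] V) →L[ℝ] E), 2 ≤ d → CEll L →
    ∀ (M c0 ε : ℝ), 0 < ε → ε ≤ 1 → ∀ (b : Sp d → ℝ), BaseKer 2 M c0 b → ∃ C8 : ℝ, 1 ≤ C8 ∧
    ∀ (R0 γ K : ℝ), 400 + 8 * d ≤ R0 → 0 < γ → γ ≤ 1 / (8 * d) → 1 ≤ K →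
    ∀ (Rs RM : ℝ) (tol : ℕ → ℝ), 1 ≤ Rs → (∀ J, 0 < tol J) →
    ∃ (rm r0 : ℕ) (R1 d0 CD : ℝ), 0 < d0 ∧ d0 ≤ 1 ∧ 0 < CD ∧ ∃ Rm : ℝ,
      ∀ R : ℝ, Rm ≤ R → ∀ u : Sp d → V, TF u → ∀ s0 : ℝ, 0 < s0 →
      ∀ e : Cell d → E, Dirs b ε R s0 (fo L u) e →
      ∀ Q ∈ Strc γ K d0 (mC b ε (64 * R0) s0 (fo L u)) (mT b ε s0 (fo L u))
          (dC b ε R s0 (fo L u) e),
        (∃ (J r : ℕ) (ν : Fin r → Sp d) (κ : Fin r → Sp d → ℝ),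
          Str J rm R1 Rs (tol J) (mC b ε (64 * R0) s0 (fo L u) Q) (mQ s0 (fo L u) (e Q) Q) r ν κ) ∧
        MG (C8 * K) γ RM (mC b ε (64 * R0) s0 (fo L u) Q)
          (CD * dsm r0 (dC b ε R s0 (fo L u) e) Q) (mQ s0 (fo L u) (e Q) Q)

/-- MODULE LP: facts for the functional Y at tops (CT3, FN.mass_le, FN.plane_gen) -/
def StmtLP : Prop :=
  ∀ (d : ℕ), 2 ≤ d → ∃ Rt : ℝ, 1 ≤ Rt ∧
    ∀ (M c0 ε : ℝ), 0 < ε → ε ≤ 1 → ∀ (b : Sp d → ℝ), BaseKer 2 M c0 b →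
    ∀ R0 : ℝ, 400 + 8 * d ≤ R0 → ∃ (C3 R2 C Rm : ℝ), 0 < C3 ∧ 0 < R2 ∧ 0 < C ∧
    ∀ (E : Type) [NormedAddCommGroup E] [InnerProductSpace ℝ E] [FiniteDimensional ℝ E]
      (R : ℝ), Rm ≤ R → ∀ f : Sp d → E, Continuous f → HasCompactSupport f →
    ∀ s0 : ℝ, 0 < s0 → ∀ e : Cell d → E, Dirs b ε R s0 f e →
    ∀ (ν : Cell d → Sp d) (c : Cell d → ℝ), Plns R0 s0 f e ν c →
    ∀ γ : ℝ, γ ≤ 1 → ∀ P : Cell d,
      (∀ l : ℕ, mT b ε s0 f (up l P) ≤ (2 : ℝ) ^ (γ * l) * mT b ε s0 f P) →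
      0 ≤ mT b ε s0 f P ∧ 0 ≤ tG b ε s0 f P ∧
      mT b ε s0 f P ≤ C3 * (∫ y, mQ s0 f (e P) P y * zR Rt y) +
        C * (dC b ε R s0 f e P + tG b ε s0 f P) ∧
      ‖ν (up 9 P)‖ = 1 ∧
      |(c (up 9 P) - ⟪ν (up 9 P), xC s0 P⟫_ℝ) / lev s0 P.1| ≤ R2 ∧
      blc (ν (up 9 P)) ((c (up 9 P) - ⟪ν (up 9 P), xC s0 P⟫_ℝ) / lev s0 P.1)
        (mQ s0 f (e P) P) R0 ≤
        C * (bC R0 s0 f e ν c (up 9 P) + dC b ε R s0 f e P + dC b ε R s0 f e (up 9 P))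

/-- MODULE LF: finiteness of the sum of the values (CT4, CT6, CT7, CS2 lemmas): every value is at
most C nw |f|_1 v, and vanishes for cells far from the support -/
def StmtLF : Prop :=
  ∀ (d : ℕ), 2 ≤ d → ∀ (M c0 C' B ρ : ℝ), 0 < C' → 0 ≤ B → 1 ≤ ρ →
    ∀ (E : Type) [NormedAddCommGroup E] [InnerProductSpace ℝ E] [FiniteDimensional ℝ E]
      (W : Wld d E), PrmOK M c0 W.X → 0 < W.s0 → Gro C' W.μ → Continuous W.f →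
      HasCompactSupport W.f → (∀ Q, ‖W.e Q‖ = 1) → (∀ Q, ‖W.nv Q‖ = 1) → (∀ Q, 0 ≤ W.ab Q) →
      (∀ Q, W.ab Q ≤ B * mC W.X.b W.X.ε ρ W.s0 W.f Q) →
      (∀ Q, 0 ≤ W.val Q) ∧ cs univ (fun Q => W.w Q * W.val Q) < ⊤

end

end TG
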