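import Pool.Agent.TG.Stmts2

/-!
# Trace inequality, general operators: interface between section 8 and sections 11-13

No double quotes.  Unit scale.
-/

open MeasureTheory Metric Set TrI
open scoped InnerProductSpace ContDiff

namespace TG

noncomputable section

variable {d : ℕ}

/-- MODULE SS: the sheet lemma in the form of the structure Sheet (from SA, Z) -/
def StmtSS : Prop :=
  ∀ (d : ℕ) (V E : Type) [NormedAddCommGroup V] [InnerProductSpace ℝ V] [FiniteDimensional ℝ V]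
    [NormedAddCommGroup E] [InnerProductSpace ℝ E] [FiniteDimensional ℝ E]
    (L : (Sp d →L[ℝ] V) →L[ℝ] E), 2 ≤ d → CEll L → ∃ J : ℕ,
    ∀ (M c0 ε : ℝ), 0 < ε → ε ≤ 1 → ∀ (b : Sp d → ℝ), BaseKer 2 M c0 b →
    ∀ (R0 γ K : ℝ), 200 + 8 * d ≤ R0 → 0 < γ → γ ≤ 1 / (8 * d) → 1 ≤ K →
    ∃ (C κ : ℝ), 0 < C ∧ 0 < κ ∧
      ∀ (R : ℝ), 4 * R0 + 10 ≤ R → ∀ (n : ℕ) (u : Sp d → V), TF u →
      ∀ (x : ℕ → Sp d) (e : ℕ → E), Tower x e →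
      ∀ a : ℝ, 0 < a → a = ma b ε R0 ((1 / 2) ^ n) (fo L u) n 0 →
      (∀ r : ℕ, ma b ε R0 ((1 / 2) ^ n) (fo L u) (n + r) (x r) ≤ K * (2 : ℝ) ^ (γ * r) * a) →
      ∀ (ν : Sp d) (c B D : ℝ), ‖ν‖ = 1 → |c| ≤ R0 + 3 → B ≤ κ * a →
        (∀ I : ℕ, ∑ r ∈ Finset.range I, wq (1 / 2) r *
          bD b ε R0 R ((1 / 2) ^ n) (fo L u) (n + r) (x r) (e r) ν c ≤ B) →
        (∀ I : ℕ, ∑ r ∈ Finset.range I, wq (1 / 2) r *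
          DD b ε R ((1 / 2) ^ n) (fo L u) (n + r) (x r) (e r) ≤ D) →
        ∃ (ν' : Sp d) (c' a' : ℝ), ‖ν'‖ = 1 ∧
          a * (‖ν' - ν‖ ^ 2 + (c' - c) ^ 2) ≤ C * B ∧ a ≤ C * a' ∧ a' ≤ C * a ∧
          (∀ I : ℕ, ∑ r ∈ Finset.range I, wq (1 / 2) r *
            bD b ε R0 R ((1 / 2) ^ n) (fo L u) (n + r) (x r) (e r) ν' c' ≤ C * B) ∧
          Sheet J R0 a' (C * (B + Real.sqrt (a' * D))) (C * D)
            (fun y => ⟪fo L u y, e 0⟫_ℝ) ν' c'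

/-- MODULE FS: cells with small separately minimised plane functionals carry a sheet
(from CM and SS) -/
def StmtFS : Prop :=
  ∀ (d : ℕ) (V E : Type) [NormedAddCommGroup V] [InnerProductSpace ℝ V] [FiniteDimensional ℝ V]
    [NormedAddCommGroup E] [InnerProductSpace ℝ E] [FiniteDimensional ℝ E]
    (L : (Sp d →L[ℝ] V) →L[ℝ] E), 2 ≤ d → CEll L → ∃ J : ℕ,
    ∀ (M c0 ε : ℝ), 0 < ε → ε ≤ 1 → ∀ (b : Sp d → ℝ), BaseKer 2 M c0 b →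
    ∀ (R0 γ K : ℝ), 200 + 8 * d ≤ R0 → 0 < γ → γ ≤ 1 / (16 * d) → 1 ≤ K →
    ∃ (C κ : ℝ), 0 < C ∧ 0 < κ ∧
      ∀ (R : ℝ), 4 * R0 + 10 ≤ R → ∀ (n : ℕ) (u : Sp d → V), TF u →
      ∀ (x : ℕ → Sp d) (e : ℕ → E), Tower x e →
      ∀ a : ℝ, 0 < a → a = ma b ε R0 ((1 / 2) ^ n) (fo L u) n 0 →
      (∀ r : ℕ, ma b ε R0 ((1 / 2) ^ n) (fo L u) (n + r) (x r) ≤ K * (2 : ℝ) ^ (γ * r) * a) →
      ∀ (νs : ℕ → Sp d) (cs : ℕ → ℝ) (B D : ℝ), (∀ r, ‖νs r‖ = 1) →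
        (∀ r, |ht (νs r) (cs r) (x r)| ≤ 4 * R0 * 2 ^ r) → B ≤ κ * a →
        (∀ I : ℕ, ∑ r ∈ Finset.range I, wq (1 / 4) r *
          bD b ε R0 R ((1 / 2) ^ n) (fo L u) (n + r) (x r) (e r) (νs r) (cs r) ≤ B) →
        (∀ I : ℕ, ∑ r ∈ Finset.range I, wq (1 / 4) r *
          DD b ε R ((1 / 2) ^ n) (fo L u) (n + r) (x r) (e r) ≤ D) →
        ∃ (ν : Sp d) (c a' : ℝ), ‖ν‖ = 1 ∧ |c| ≤ R0 + 4 ∧ a ≤ C * a' ∧ a' ≤ C * a ∧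
          (∀ I : ℕ, ∑ r ∈ Finset.range I, wq (1 / 2) r *
            bD b ε R0 R ((1 / 2) ^ n) (fo L u) (n + r) (x r) (e r) ν c ≤ C * B) ∧
          Sheet J R0 a' (C * (B + Real.sqrt (a' * D))) (C * D)
            (fun y => ⟪fo L u y, e 0⟫_ℝ) ν c

/-- MODULE GS: two sheets which overlap are close (from GE) -/
def StmtGS : Prop :=
  ∀ (d J : ℕ), 2 ≤ d → ∀ (R : ℝ) (i : ℕ), 8 ≤ R → ∃ (c0 C : ℝ), 0 < c0 ∧ 0 < C ∧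
    ∀ (m m' : Sp d → ℝ) (n n' : Sp d) (s s' ab ab' ep ep' D Er : ℝ) (x p : Sp d),
      Continuous m → Continuous m' → 0 ≤ D →
      Sheet J R ab ep D m n s →
      Sheet J R ab' ep' D (fun y => 2 ^ i * m' (x + (2 : ℝ) ^ i • y)) n' s' →
      ZP (R + 1) D m → ZP (R + 1) D (fun y => 2 ^ i * m' (x + (2 : ℝ) ^ i • y)) →
      (∀ Y : Sp d → ℝ, ContDiff ℝ 2 Y → (∀ y, |Y y| ≤ 1) → (∀ y, ‖iteratedFDeriv ℝ 2 Y y‖ ≤ 1) →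
        (∀ y, R ≤ ‖y‖ → Y y = 0) → |∫ y, (m y - m' y) * Y y| ≤ D) →
      ‖p‖ ≤ R - 3 → |hgt n s p| ≤ 1 / 2 → ‖p - x‖ ≤ (R - 3) * 2 ^ i →
      ep + ep' + max 0 (blc n s m R) +
        max 0 (blc n' s' (fun y => 2 ^ i * m' (x + (2 : ℝ) ^ i • y)) R) + D ≤ Er →
      Er ≤ c0 * ab →
      |ab - ab'| ≤ C * Er ∧ ∃ σ : ℝ, (σ = 1 ∨ σ = -1) ∧
        ab * (‖n - σ • n'‖ + |s - σ * (⟪n', x⟫_ℝ + 2 ^ i * s')|) ≤ C * Er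

end

end TG
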