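import Pool.Agent.TG.Stmts12
import Pool.Agent.TG.TFc
import Pool.Agent.TG.PF

/-!
MODULE B3 (section 12): the pieces see a nonnegative function at most as much as m does.
helper48.  No double quotes.
-/

open MeasureTheory Metric Set TrI
open scoped InnerProductSpace ContDiff

namespace TG

noncomputable section

namespace B3m

open TC

variable {d : ℕ}

/-- functions of one real variable -/
lemma cb_real {P P1 P2 : ℝ → ℝ} {L : ℝ} (hP : ContDiff ℝ 2 P) (h1 : ∀ c, HasDerivAt P (P1 c) c)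
    (h2 : ∀ c, HasDerivAt P1 (P2 c) c) (b0 : ∀ c, |P c| ≤ L) (b1 : ∀ c, |P1 c| ≤ L)
    (b2 : ∀ c, |P2 c| ≤ L) : CB 2 L P := by
  refine ⟨hP, fun j hj x => ?_⟩
  rw [norm_iteratedFDeriv_eq_norm_iteratedDeriv, Real.norm_eq_abs]
  have e1 : deriv P = P1 := funext fun c => (h1 c).deriv
  have e2 : deriv P1 = P2 := funext fun c => (h2 c).deriv
  interval_cases j
  · simpa using b0 x
  · rw [iteratedDeriv_one, e1]
    exact b1 x
  · rw [iteratedDeriv_succ, iteratedDeriv_one, e1, e2]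
    exact b2 x

lemma tang_add {ν : Sp d} (y : Sp d) : y = ⟪ν, y⟫_ℝ • ν + tang ν y := by
  unfold tang
  abel

lemma norm_le_tang' {ν : Sp d} (hν : ‖ν‖ = 1) (y : Sp d) : ‖y‖ ≤ |⟪ν, y⟫_ℝ| + ‖tang ν y‖ := by
  conv_lhs => rw [tang_add (ν := ν) y]
  refine (norm_add_le _ _).trans ?_
  rw [norm_smul, hν, Real.norm_eq_abs, mul_one]

lemma abs_le_norm {ν : Sp d} (hν : ‖ν‖ = 1) (c : ℝ) (y : PF.Pl ν) :
    |c| ≤ ‖c • ν + (y : Sp d)‖ := by
  have h1 : ⟪ν, c • ν + (y : Sp d)⟫_ℝ = c := by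
    rw [inner_add_right, inner_smul_right, real_inner_self_eq_norm_sq, hν, PF.inner_pl]
    simp
  have h2 := abs_real_inner_le_norm ν (c • ν + (y : Sp d))
  rw [h1, hν, one_mul] at h2
  exact h2

/-- plane integrals of a function with support in a ball vanish for far planes -/
lemma pl_zero {ν : Sp d} (hν : ‖ν‖ = 1) {G : Sp d → ℝ} {ρ : ℝ} (hG : ∀ y, ρ ≤ ‖y‖ → G y = 0)
    {c : ℝ} (hc : ρ ≤ |c|) : plInt ν c G = 0 := by
  unfold plInt
  have : (fun y : (Submodule.span ℝ {ν})ᗮ => G (c • ν + (y : Sp d))) = fun _ => 0 := by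
    funext y
    exact hG _ (hc.trans (abs_le_norm hν c y))
  rw [this, integral_zero]

lemma cs_of {G : Sp d → ℝ} {ρ : ℝ} (hG : ∀ y, ρ ≤ ‖y‖ → G y = 0) : HasCompactSupport G := by
  refine HasCompactSupport.intro (isCompact_closedBall (0 : Sp d) ρ) fun y hy => hG y ?_
  rw [mem_closedBall, dist_zero_right, not_le] at hy
  exact hy.le

/-- the plane integral as a function of the point -/
lemma pl_cb (hd : 1 ≤ d) (ρ : ℝ) : ∃ C : ℝ, 0 < C ∧ ∀ ν : Sp d, ‖ν‖ = 1 → ∀ (G : Sp d → ℝ) (N : ℝ),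
    TFn 2 N G → (∀ y, ρ ≤ ‖y‖ → G y = 0) →
    CB 2 (C * N) (fun y : Sp d => plInt ν ⟪ν, y⟫_ℝ G) := by
  obtain ⟨hb, hν⟩ := stmtPF d hd
  obtain ⟨C, hC, hCb⟩ := hb ρ
  refine ⟨C, hC, fun ν h1 G N hG hs => ?_⟩
  obtain ⟨-, -, hder, hcd, -, -⟩ := hν ν h1
  have hcs := cs_of hs
  have hG1 : CB 1 N (fun y => fderiv ℝ G y ν) := by
    have := hG.cb.fderiv_apply (J := 1) ν
    rwa [h1, one_mul] at this
  have hG2 : CB 0 N (fun y => fderiv ℝ (fun y => fderiv ℝ G y ν) y ν) := by
    have := hG1.fderiv_apply (J := 0) ν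
    rwa [h1, one_mul] at this
  have hcs1 : HasCompactSupport (fun y => fderiv ℝ G y ν) := PF.cs_fd hcs ν
  have hcs2 : HasCompactSupport (fun y => fderiv ℝ (fun y => fderiv ℝ G y ν) y ν) :=
    PF.cs_fd hcs1 ν
  -- supports
  have hz : ∀ (g : Sp d → ℝ), (∀ y, ρ ≤ ‖y‖ → g y = 0) → ∀ y, g y ≠ 0 → ‖tang ν y‖ ≤ ρ := by
    intro g hg y hy
    by_contra hcon
    rw [not_le] at hcon
    exact hy (hg y (hcon.le.trans (PF.norm_tang_le h1 y)))
  have hs' : ∀ (g : Sp d → ℝ), ContDiff ℝ 1 g → (∀ y, ρ ≤ ‖y‖ → g y = 0) →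
      ∀ y, ρ ≤ ‖y‖ → fderiv ℝ g y ν = 0 := by
    intro g hg1 hg0 y hy
    have hU : ∀ y, ρ < ‖y‖ → fderiv ℝ g y = 0 := by
      intro y hy
      have : g =ᶠ[nhds y] fun _ => 0 := by
        filter_upwards [(isOpen_lt continuous_const continuous_norm).mem_nhds hy] with z hz
        exact hg0 z (le_of_lt hz)
      rw [this.fderiv_eq]
      simp
    have hcl : y ∈ closure {z : Sp d | ρ < ‖z‖} := by
      rcases hy.lt_or_eq with h | h
      · exact subset_closure h
      · rw [mem_closure_iff_seq_limit]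
        by_cases hy0 : y = 0
        · -- every neighbourhood of the origin contains points with norm > 0 = ρ
          refine ⟨fun n => ((1 : ℝ) / (n + 1)) • ν, fun n => ?_, ?_⟩
          · show ρ < ‖((1 : ℝ) / (n + 1)) • ν‖
            rw [norm_smul, h1, h, hy0, norm_zero, mul_one, Real.norm_eq_abs]
            positivity
          · rw [hy0]
            have := (tendsto_one_div_add_atTop_nhds_zero_nat (𝕜 := ℝ)).smul_const ν
            simpa using this
        · refine ⟨fun n => ((1 : ℝ) + 1 / (n + 1)) • y, fun n => ?_, ?_⟩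
          · show ρ < ‖((1 : ℝ) + 1 / (n + 1)) • y‖
            have hp : 0 < ‖y‖ := norm_pos_iff.2 hy0
            have h3 : (0 : ℝ) < 1 / ((n : ℝ) + 1) := by positivity
            rw [norm_smul, h, Real.norm_eq_abs, abs_of_pos (by positivity)]
            nlinarith
          · have h4 := (tendsto_one_div_add_atTop_nhds_zero_nat (𝕜 := ℝ)).const_add (1 : ℝ)
            rw [add_zero] at h4
            have := h4.smul_const y
            simpa using this
    have hc : Continuous (fun z => fderiv ℝ g z) := hg1.continuous_fderiv one_ne_zero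
    have hcl2 : fderiv ℝ g y = 0 := by
      have h5 : {z : Sp d | ρ < ‖z‖} ⊆ {z | fderiv ℝ g z = 0} := fun z hz => hU z hz
      have h6 : IsClosed {z : Sp d | fderiv ℝ g z = 0} := isClosed_eq hc continuous_const
      exact closure_minimal h5 h6 hcl
    rw [hcl2]
    rfl
  have hGs1 := hs' G (hG.smooth.of_le (by norm_num)) hs
  have hGs2 := hs' _ hG1.smooth hGs1
  have hP2 : ContDiff ℝ 2 (fun c => plInt ν c G) := by
    have := hcd 2 G hG.smooth hcs
    exact_mod_cast this
  have key : CB 2 (C * N) (fun c : ℝ => plInt ν c G) := by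
    refine cb_real (P1 := fun c => plInt ν c (fun y => fderiv ℝ G y ν))
      (P2 := fun c => plInt ν c (fun y => fderiv ℝ (fun y => fderiv ℝ G y ν) y ν)) hP2
      (fun c => hder G (hG.smooth.of_le (by norm_num)) hcs c)
      (fun c => hder _ hG1.smooth hcs1 c) ?_ ?_ ?_
    · exact hCb ν h1 G N hG.smooth.continuous (fun y => hG.cb.abs_le y) (hz G hs)
    · exact hCb ν h1 _ N hG1.smooth.continuous (fun y => hG1.abs_le y) (hz _ hGs1)
    · exact hCb ν h1 _ N hG2.smooth.continuous (fun y => hG2.abs_le y) (hz _ hGs2)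
  have := key.comp_clm (innerSL ℝ ν) (by rw [innerSL_apply_norm, h1])
  simpa using this

/-- ZP for functions of arbitrary size -/
lemma zp_app {m : Sp d → ℝ} {R1 D L : ℝ} (hZ : ZP R1 D m) {H : Sp d → ℝ} (hH : CB 2 L H)
    (h0 : ∀ y, 0 ≤ H y) (hs : ∀ y, R1 ≤ ‖y‖ → H y = 0) : -(L * D) ≤ ∫ y, m y * H y := by
  rcases hH.nonneg.eq_or_lt with hL | hL
  · have h1 : ∀ y, H y = 0 := fun y => by
      have := hH.norm_le y
      rw [← hL] at this
      exact norm_le_zero_iff.1 this
    have h2 : (fun y => m y * H y) = fun _ => 0 := by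
      funext y
      rw [h1, mul_zero]
    rw [h2, integral_zero, ← hL]
    simp
  · have hc := hH.const_mul (1 / L)
    have e1 : |1 / L| * L = 1 := by
      rw [abs_of_pos (by positivity)]
      field_simp
    rw [e1] at hc
    have h1 := hZ (fun y => 1 / L * H y) (by exact_mod_cast hc.smooth)
      (fun y => mul_nonneg (by positivity) (h0 y)) (fun y => (le_abs_self _).trans (hc.abs_le y))
      (fun y => hc.bd 2 le_rfl y) (fun y hy => by rw [hs y hy, mul_zero])
    have h2 : ∫ y, m y * (1 / L * H y) = 1 / L * ∫ y, m y * H y := by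
      rw [← integral_const_mul]
      congr 1
      funext y
      ring
    rw [h2] at h1
    have h3 : L * (1 / L * ∫ y, m y * H y) = ∫ y, m y * H y := by
      field_simp
    rw [← h3]
    have := mul_le_mul_of_nonneg_left h1 hL.le
    linarith

end B3m

open B3m TC in
theorem stmtB3 : StmtB3 := by
  intro d hd Rs δ B hRs hδ
  obtain ⟨Cp, hCp, hpl⟩ := pl_cb (d := d) (by omega) Rs
  let S : ℕ → ℝ := fun J => 1 + ∑ j ∈ Finset.range (J + 1), |B j|
  have hS : ∀ J, 1 ≤ S J := fun J => by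
    have : 0 ≤ ∑ j ∈ Finset.range (J + 1), |B j| := Finset.sum_nonneg fun j _ => abs_nonneg _
    show 1 ≤ 1 + ∑ j ∈ Finset.range (J + 1), |B j|
    linarith
  have hSB : ∀ J j, j ≤ J → B j ≤ S J := fun J j hj => by
    have h1 : |B j| ≤ ∑ j ∈ Finset.range (J + 1), |B j| :=
      Finset.single_le_sum (f := fun j => |B j|) (fun i _ => abs_nonneg _)
        (Finset.mem_range.2 (by omega))
    have h2 := le_abs_self (B j)
    show B j ≤ 1 + ∑ j ∈ Finset.range (J + 1), |B j|
    linarith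
  refine ⟨fun J => δ / S J, fun J => div_pos hδ (by linarith [hS J]), fun R1 rm => ?_⟩
  refine ⟨rm * (4 * Cp * (S 2 + 1)) + 1, by have := hS 2; positivity, ?_⟩
  intro m a D J r ν κ hm ha hD hZ hStr χ F N hχ hχ0 hχs hχB hF hF0 hFχ
  have hN : 0 ≤ N := (hF 0).cb.nonneg
  have hFs : ∀ n y, Rs ≤ ‖y‖ → F n y = 0 := fun n y hy => by
    have h1 := hFχ n y
    rw [hχs y hy, mul_zero] at h1
    exact le_antisymm h1 (hF0 n y)
  have hχT : ∀ J, TFn J (S J) χ := fun J =>
    ⟨hχ.of_le (by exact_mod_cast le_top), fun j hj x => (hχB j x).trans (hSB J j hj)⟩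
  -- a piece with a nonnegative function
  have piece : ∀ (i : Fin r) (G : Sp d → ℝ) (L : ℝ), TFn 2 L G → (∀ y, 0 ≤ G y) →
      (∀ y, Rs ≤ ‖y‖ → G y = 0) →
      -(4 * (Cp * L) * D) ≤ ∫ y, m y * (κ i y * plInt (ν i) ⟪ν i, y⟫_ℝ G) := by
    intro i G L hG hG0 hGs
    have h1 := (hStr.kb i).cb.mul (hpl (ν i) (hStr.n1 i) G L hG hGs)
    have h2 : (2 : ℝ) ^ 2 * 1 * (Cp * L) = 4 * (Cp * L) := by norm_num
    rw [h2] at h1
    refine zp_app hZ h1 (fun y => mul_nonneg (hStr.k0 i y) ?_) fun y hy => ?_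
    · exact integral_nonneg fun z => hG0 _
    · by_contra hcon
      have hk : κ i y ≠ 0 := fun h => hcon (by rw [h, zero_mul])
      have hp : plInt (ν i) ⟪ν i, y⟫_ℝ G ≠ 0 := fun h => hcon (by rw [h, mul_zero])
      have h3 := hStr.ks i y hk
      have h4 : |⟪ν i, y⟫_ℝ| < Rs := by
        by_contra h5
        exact hp (pl_zero (hStr.n1 i) hGs (not_lt.1 h5))
      have h5 := norm_le_tang' (hStr.n1 i) y
      linarith
  have hr : (r : ℝ) ≤ rm := by exact_mod_cast hStr.rle
  have hND : 0 ≤ N * D := mul_nonneg hN hD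
  -- integrability
  have hint : ∀ (i : Fin r) (G : Sp d → ℝ) (L : ℝ), TFn 2 L G → (∀ y, Rs ≤ ‖y‖ → G y = 0) →
      Integrable (fun y => m y * (κ i y * plInt (ν i) ⟪ν i, y⟫_ℝ G)) := by
    intro i G L hG hGs
    have h1 := (hStr.kb i).cb.mul (hpl (ν i) (hStr.n1 i) G L hG hGs)
    refine (hm.mul h1.smooth.continuous).integrable_of_hasCompactSupport ?_
    refine HasCompactSupport.mul_left ?_
    refine HasCompactSupport.intro (isCompact_closedBall (0 : Sp d) R1) fun y hy => ?_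
    rw [mem_closedBall, dist_zero_right, not_le] at hy
    by_contra hcon
    have hk : κ i y ≠ 0 := fun h => hcon (by rw [h, zero_mul])
    have hp : plInt (ν i) ⟪ν i, y⟫_ℝ G ≠ 0 := fun h => hcon (by rw [h, mul_zero])
    have h3 := hStr.ks i y hk
    have h4 : |⟪ν i, y⟫_ℝ| < Rs := by
      by_contra h5
      exact hp (pl_zero (hStr.n1 i) hGs (not_lt.1 h5))
    have h5 := norm_le_tang' (hStr.n1 i) y
    linarith
  constructor
  · -- the lower bound
    have h1 : ∑ _i : Fin r, -(4 * (Cp * N) * D) ≤ pieces m ν κ F :=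
      Finset.sum_le_sum fun i _ => piece i (F (ν i)) N (hF _) (hF0 _) (hFs _)
    rw [Finset.sum_const, Finset.card_univ, Fintype.card_fin, nsmul_eq_mul] at h1
    refine le_trans ?_ h1
    have h2 : (r : ℝ) * (4 * Cp * (N * D)) ≤ rm * (4 * Cp * (S 2 + 1)) * (N * D) := by
      have h3 : 4 * Cp * (N * D) ≤ 4 * Cp * (S 2 + 1) * (N * D) := by
        have h4 := hS 2
        have h5 : 0 ≤ 4 * Cp * (N * D) * S 2 := by positivity
        nlinarith
      calc (r : ℝ) * (4 * Cp * (N * D)) ≤ rm * (4 * Cp * (N * D)) := by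
            exact mul_le_mul_of_nonneg_right hr (by positivity)
        _ ≤ rm * (4 * Cp * (S 2 + 1) * (N * D)) :=
            mul_le_mul_of_nonneg_left h3 (by positivity)
        _ = _ := by ring
    nlinarith
  · -- the upper bound
    have hest := hStr.est χ (S J) (hχT J) hχs
    have hSJ : 0 < S J := by linarith [hS J]
    have e1 : δ / S J * a * S J = δ * a := by field_simp
    rw [e1] at hest
    have hG : ∀ i : Fin r, TFn 2 (N * S 2 + N) (fun y => N * χ y - F (ν i) y) := by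
      intro i
      have h1 := ((hχT 2).cb.const_mul N).sub (hF (ν i)).cb
      rw [abs_of_nonneg hN] at h1
      exact h1.tfn
    have hlow : ∀ i : Fin r, ∫ y, m y * (κ i y * plInt (ν i) ⟪ν i, y⟫_ℝ (F (ν i))) ≤
        N * (∫ y, m y * (κ i y * plInt (ν i) ⟪ν i, y⟫_ℝ χ)) + 4 * (Cp * (N * S 2 + N)) * D := by
      intro i
      have h1 := piece i _ _ (hG i) (fun y => sub_nonneg.2 (hFχ _ y)) (fun y hy => by
        rw [hχs y hy, hFs _ y hy, mul_zero, sub_zero])
      have hlin : ∀ y : Sp d, plInt (ν i) ⟪ν i, y⟫_ℝ (fun y => N * χ y - F (ν i) y) =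
          N * plInt (ν i) ⟪ν i, y⟫_ℝ χ - plInt (ν i) ⟪ν i, y⟫_ℝ (F (ν i)) := by
        intro y
        unfold plInt
        have hz : ∀ (g : Sp d → ℝ), (∀ y, Rs ≤ ‖y‖ → g y = 0) → ∀ y, g y ≠ 0 →
            ‖tang (ν i) y‖ ≤ Rs := by
          intro g hg y hy
          by_contra hcon
          rw [not_le] at hcon
          exact hy (hg y (hcon.le.trans (PF.norm_tang_le (hStr.n1 i) y)))
        rw [← integral_const_mul, ← integral_sub]
        · exact (PF.integrable_pl (hStr.n1 i) hχ.continuous (hz χ hχs) _).const_mul N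
        · exact PF.integrable_pl (hStr.n1 i) (hF (ν i)).smooth.continuous (hz _ (hFs _)) _
      have h2 : ∫ y, m y * (κ i y * plInt (ν i) ⟪ν i, y⟫_ℝ (fun y => N * χ y - F (ν i) y)) =
          N * (∫ y, m y * (κ i y * plInt (ν i) ⟪ν i, y⟫_ℝ χ)) -
            ∫ y, m y * (κ i y * plInt (ν i) ⟪ν i, y⟫_ℝ (F (ν i))) := by
        rw [← integral_const_mul, ← integral_sub]
        · congr 1
          funext y
          rw [hlin]
          ring
        · exact (hint i χ _ (hχT 2) hχs).const_mul N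
        · exact hint i _ _ (hF _) (hFs _)
      rw [h2] at h1
      linarith
    have h1 : pieces m ν κ F ≤ ∑ i : Fin r, (N * (∫ y, m y * (κ i y *
        plInt (ν i) ⟪ν i, y⟫_ℝ χ)) + 4 * (Cp * (N * S 2 + N)) * D) :=
      Finset.sum_le_sum fun i _ => hlow i
    rw [Finset.sum_add_distrib, ← Finset.mul_sum, Finset.sum_const, Finset.card_univ,
      Fintype.card_fin, nsmul_eq_mul] at h1
    have h2 : ∑ i, ∫ y, m y * (κ i y * plInt (ν i) ⟪ν i, y⟫_ℝ χ) ≤ (∫ y, m y * χ y) + δ * a := by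
      have := (abs_le.1 hest).1
      linarith
    have h3 := mul_le_mul_of_nonneg_left h2 hN
    have h4 : (r : ℝ) * (4 * (Cp * (N * S 2 + N)) * D) ≤
        rm * (4 * Cp * (S 2 + 1)) * (N * D) := by
      have h5 : 4 * (Cp * (N * S 2 + N)) * D = 4 * Cp * (S 2 + 1) * (N * D) := by ring
      rw [h5]
      have h6 : 0 ≤ 4 * Cp * (S 2 + 1) * (N * D) := by
        have := hS 2
        positivity
      calc (r : ℝ) * (4 * Cp * (S 2 + 1) * (N * D)) ≤ rm * (4 * Cp * (S 2 + 1) * (N * D)) :=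
            mul_le_mul_of_nonneg_right hr h6
        _ = _ := by ring
    nlinarith

end

end TG
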