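import Pool.Agent.TG.Stmts15
import Pool.Agent.TG.FR0
import Pool.Agent.TG.CT5
import Pool.Agent.TG.Tf
import Pool.Agent.TG.B3

/-!
# Trace inequality, general operators: auxiliary lemmas for module T1   (helper51)

No double quotes.
-/

open MeasureTheory Metric Set TrI
open scoped InnerProductSpace ContDiff

namespace TG

namespace T1m

noncomputable section

variable {d : ℕ} {E : Type} [NormedAddCommGroup E] [InnerProductSpace ℝ E]

/-- the defect of a smaller cell, two radii -/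
lemma DD_mono2 {b : Sp d → ℝ} {J : ℕ} {M c0 : ℝ} (hb : BaseKer J M c0 b) (ε : ℝ) {f : Sp d → E}
    (hf : Continuous f) (hfc : HasCompactSupport f) {s0 : ℝ} (hs : 0 < s0) (i m : ℕ) {R R' : ℝ}
    {x x' : Sp d} (hB : ball x (R * lev s0 i) ⊆ ball x' (R' * lev s0 (i + m)))
    {e : E} (he : ‖e‖ = 1) :
    DD b ε R s0 f i x e ≤ (2 ^ m) ^ d / 2 ^ m * 4 ^ m * DD b ε R' s0 f (i + m) x' e := by
  have hfl := TW.fl_ok hb ε s0 hf hfc
  have hI : ∀ l, ∫ y in ball x (R * lev s0 i), (‖fl b ε s0 f l y‖ - ⟪fl b ε s0 f l y, e⟫_ℝ) ≤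
      ∫ y in ball x' (R' * lev s0 (i + m)), (‖fl b ε s0 f l y‖ - ⟪fl b ε s0 f l y, e⟫_ℝ) := by
    intro l
    exact setIntegral_mono_set (CT5.dfn_int (hfl l).1 (hfl l).2 e).integrableOn
      (Filter.Eventually.of_forall fun y => CT5.dfn_nn he _ y)
      (Filter.Eventually.of_forall hB)
  have hJ : ∫ y in ball x (R * lev s0 i), ‖f y‖ ≤ ∫ y in ball x' (R' * lev s0 (i + m)), ‖f y‖ :=
    setIntegral_mono_set (hf.norm.integrable_of_hasCompactSupport hfc.norm).integrableOn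
      (Filter.Eventually.of_forall fun y => norm_nonneg _) (Filter.Eventually.of_forall hB)
  have hp := FR.lev_pos hs (i + m)
  have hnn : 0 ≤ (2 ^ m) ^ d / 2 ^ m * (lev s0 (i + m) / lev s0 (i + m) ^ d) := by positivity
  unfold DD
  rw [CT5.nw_ratio hs i m, mul_assoc ((2 ^ m) ^ d / 2 ^ m : ℝ) (4 ^ m) _, mul_assoc _ _
    (∑ l ∈ Finset.range (i + 1), _ + _)]
  have key : (∑ l ∈ Finset.range (i + 1), (1 / 4 : ℝ) ^ (i - l) *
      (∫ y in ball x (R * lev s0 i), (‖fl b ε s0 f l y‖ - ⟪fl b ε s0 f l y, e⟫_ℝ))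
      + (1 / 4 : ℝ) ^ i * ∫ y in ball x (R * lev s0 i), ‖f y‖) ≤
      4 ^ m * (∑ l ∈ Finset.range (i + m + 1), (1 / 4 : ℝ) ^ (i + m - l) *
      (∫ y in ball x' (R' * lev s0 (i + m)), (‖fl b ε s0 f l y‖ - ⟪fl b ε s0 f l y, e⟫_ℝ))
      + (1 / 4 : ℝ) ^ (i + m) * ∫ y in ball x' (R' * lev s0 (i + m)), ‖f y‖) := by
    rw [mul_add, Finset.mul_sum]
    refine add_le_add ?_ ?_
    · refine (Finset.sum_le_sum (fun l hl => ?_)).trans
        (Finset.sum_le_sum_of_subset_of_nonneg (Finset.range_mono (by omega : i + 1 ≤ i + m + 1))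
          fun l _ _ => ?_)
      · have hl' := Finset.mem_range.1 hl
        have e2 : (1 / 4 : ℝ) ^ (i + m - l) = (1 / 4) ^ m * (1 / 4) ^ (i - l) := by
          rw [← pow_add]
          congr 1
          omega
        have e3 : (4 : ℝ) ^ m * (1 / 4) ^ m = 1 := by
          rw [← mul_pow]
          norm_num
        rw [e2, ← mul_assoc, ← mul_assoc, e3, one_mul]
        exact mul_le_mul_of_nonneg_left (hI l) (by positivity)
      · exact mul_nonneg (by positivity) (mul_nonneg (by positivity)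
          (integral_nonneg fun y => CT5.dfn_nn he _ y))
    · have e3 : (4 : ℝ) ^ m * (1 / 4) ^ m = 1 := by
        rw [← mul_pow]
        norm_num
      calc (1 / 4 : ℝ) ^ i * ∫ y in ball x (R * lev s0 i), ‖f y‖
          ≤ (1 / 4 : ℝ) ^ i * ∫ y in ball x' (R' * lev s0 (i + m)), ‖f y‖ :=
            mul_le_mul_of_nonneg_left hJ (by positivity)
        _ = (4 ^ m * (1 / 4) ^ m) * ((1 / 4 : ℝ) ^ i *
            ∫ y in ball x' (R' * lev s0 (i + m)), ‖f y‖) := by rw [e3, one_mul]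
        _ = _ := by rw [pow_add]; ring
  calc (2 ^ m) ^ d / 2 ^ m * ((lev s0 (i + m) / lev s0 (i + m) ^ d) * _) ≤
      (2 ^ m) ^ d / 2 ^ m * ((lev s0 (i + m) / lev s0 (i + m) ^ d) * _) := by
        refine mul_le_mul_of_nonneg_left (mul_le_mul_of_nonneg_left key ?_) ?_ <;> positivity
    _ = _ := by ring

/-- a function with nonnegative plane integrals has almost nonnegative integral against m -/
lemma pos_of_planes (hd : 1 ≤ d) (Rs : ℝ) : ∃ C : ℝ, 0 < C ∧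
    ∀ (J rm r : ℕ) (R1 e' a D R2 : ℝ) (m : Sp d → ℝ) (ν : Fin r → Sp d) (κ : Fin r → Sp d → ℝ),
      Str J rm R1 Rs e' a m r ν κ → 0 ≤ D → ZP R2 D m → R1 - 3 ≤ R2 →
      ∀ (ζ : Sp d → ℝ) (N2 NJ : ℝ), TFn 2 N2 ζ → TFn J NJ ζ → (∀ y, Rs ≤ ‖y‖ → ζ y = 0) →
        (∀ (n : Sp d) (s : ℝ), ‖n‖ = 1 → 0 ≤ plInt n s ζ) →
        -(rm * (4 * (C * N2) * D)) - e' * a * NJ ≤ ∫ y, m y * ζ y := by
  obtain ⟨Cp, hCp, hpl⟩ := B3m.pl_cb (d := d) hd Rs
  refine ⟨Cp, hCp, ?_⟩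
  intro J rm r R1 e' a D R2 m ν κ hStr hD hZ hR2 ζ N2 NJ hζ2 hζJ hζs hpos
  have hN2 : 0 ≤ N2 := hζ2.cb.nonneg
  have piece : ∀ i : Fin r,
      -(4 * (Cp * N2) * D) ≤ ∫ y, m y * (κ i y * plInt (ν i) ⟪ν i, y⟫_ℝ ζ) := by
    intro i
    have h1 := (hStr.kb i).cb.mul (hpl (ν i) (hStr.n1 i) ζ N2 hζ2 hζs)
    have h2 : (2 : ℝ) ^ 2 * 1 * (Cp * N2) = 4 * (Cp * N2) := by norm_num
    rw [h2] at h1
    refine B3m.zp_app hZ h1 (fun y => mul_nonneg (hStr.k0 i y) (hpos _ _ (hStr.n1 i)))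
      fun y hy => ?_
    by_contra hcon
    have hk : κ i y ≠ 0 := fun h => hcon (by rw [h, zero_mul])
    have hp : plInt (ν i) ⟪ν i, y⟫_ℝ ζ ≠ 0 := fun h => hcon (by rw [h, mul_zero])
    have h3 := hStr.ks i y hk
    have h4 : |⟪ν i, y⟫_ℝ| < Rs := by
      by_contra h5
      exact hp (B3m.pl_zero (hStr.n1 i) hζs (not_lt.1 h5))
    have h5 := B3m.norm_le_tang' (hStr.n1 i) y
    linarith
  have h1 : ∑ _i : Fin r, -(4 * (Cp * N2) * D) ≤
      ∑ i, ∫ y, m y * (κ i y * plInt (ν i) ⟪ν i, y⟫_ℝ ζ) :=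
    Finset.sum_le_sum fun i _ => piece i
  rw [Finset.sum_const, Finset.card_univ, Fintype.card_fin, nsmul_eq_mul] at h1
  have h2 := (abs_le.1 (hStr.est ζ NJ hζJ hζs)).1
  have hr : (r : ℝ) ≤ rm := by exact_mod_cast hStr.rle
  have h3 : (r : ℝ) * (4 * (Cp * N2) * D) ≤ rm * (4 * (Cp * N2) * D) :=
    mul_le_mul_of_nonneg_right hr (by positivity)
  linarith

/-- lower bound for the mass -/
lemma low (hMA : StmtMA) (hd : 1 ≤ d) {M c0 ε : ℝ} (hε : 0 < ε) (hε1 : ε ≤ 1) {b : Sp d → ℝ}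
    (hb : BaseKer 2 M c0 b) : ∃ C : ℝ, 0 < C ∧
    ∀ (E : Type) [NormedAddCommGroup E] [InnerProductSpace ℝ E] [FiniteDimensional ℝ E],
    ∀ f : Sp d → E, Continuous f → HasCompactSupport f → ∀ (R Rt : ℝ), 1 ≤ Rt → Rt + 5 ≤ R →
    ∀ s0 : ℝ, 0 < s0 → ∀ (Q : Cell d) (e : E), ‖e‖ = 1 →
      mC b ε Rt s0 f Q ≤ (∫ y, mQ s0 f e Q y * zR (Rt + 2) y) +
        C * DD b ε R s0 f Q.1 (xC s0 Q) e := by
  obtain ⟨C, hC, mm⟩ := TU.MA' hMA hd hε hε1 hb
  obtain ⟨N, hN, hT⟩ := exists_TFn_zR d 2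
  refine ⟨C * N, by positivity, ?_⟩
  intro E _ _ _ f hf hfc R Rt hRt hR s0 hs Q e he
  have ht0 := FR.lev_pos hs Q.1
  have h1 := (mm E (rs (xC s0 Q) (lev s0 Q.1) f) (CT5.rs_cont hf _ _) (CT5.rs_cs hfc _ ht0) R
      (by linarith) Q.1 e he 0 (ball (0 : Sp d) Rt) measurableSet_ball).2
      (zR (Rt + 2)) N 1 one_pos (hT (Rt + 2) (by linarith)) (fun y => zR_nonneg _ y)
      (fun y hy => zR_eq_zero (by rw [sub_zero] at hy; linarith))
      (fun y z hy hz => by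
        have h2 : ‖y‖ < Rt := mem_ball_zero_iff.1 hy
        have h3 := norm_add_le (z - y) y
        rw [sub_add_cancel] at h3
        rw [zR_eq_one (by linarith)])
  rw [CT5.DD_fr b ε R hs f Q.1 (xC s0 Q) e, ← CT5.ma_u, CT5.ma_fr b ε Rt hs f, one_mul] at h1
  exact h1

/-- upper bound for the integral of a cut-off -/
lemma upp (hMA : StmtMA) (hd : 1 ≤ d) {M c0 ε : ℝ} (hε : 0 < ε) (hε1 : ε ≤ 1) {b : Sp d → ℝ}
    (hb : BaseKer 2 M c0 b) : ∃ C : ℝ, 0 < C ∧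
    ∀ (E : Type) [NormedAddCommGroup E] [InnerProductSpace ℝ E] [FiniteDimensional ℝ E],
    ∀ f : Sp d → E, Continuous f → HasCompactSupport f → ∀ (ρ : ℝ), 5 ≤ ρ →
    ∀ s0 : ℝ, 0 < s0 → ∀ (n : ℕ) (y : Sp d) (e : E), ‖e‖ = 1 →
      ∫ w, ⟪rs y (lev s0 n) f w, e⟫_ℝ * zR 2 w ≤
        C * (ma b ε ρ s0 f n y + DD b ε ρ s0 f n y e) := by
  obtain ⟨C, hC, mm⟩ := TU.MA' hMA hd hε hε1 hb
  obtain ⟨N, hN, hT⟩ := exists_TFn_zR d 2
  refine ⟨C * N, by positivity, ?_⟩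
  intro E _ _ _ f hf hfc ρ hρ s0 hs n y e he
  have ht0 := FR.lev_pos hs n
  have h1 := (mm E (rs y (lev s0 n) f) (CT5.rs_cont hf _ _) (CT5.rs_cs hfc _ ht0) ρ
      hρ n e he 0 (ball (0 : Sp d) ρ) measurableSet_ball).1
      (zR 2) N (hT 2 (by norm_num))
      (fun y hy => zR_eq_zero (by rw [sub_zero] at hy; linarith))
      (fun y z hy hz => by
        have h2 : ‖y‖ < 2 + 1 := by
          by_contra h3
          exact hy (zR_eq_zero (not_lt.1 h3))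
        have h3 := norm_add_le (z - y) y
        rw [sub_add_cancel] at h3
        exact mem_ball_zero_iff.2 (by linarith))
  rw [CT5.DD_fr b ε ρ hs f n y e, ← CT5.ma_u, CT5.ma_fr b ε ρ hs f] at h1
  exact (le_abs_self _).trans h1

/-- the change of variables for the small cut-off -/
lemma small_int (hd : 1 ≤ d) (f : Sp d → E) (e : E) (x y : Sp d) {s0 : ℝ} (hs : 0 < s0) (n i : ℕ) :
    ((2 : ℝ) ^ i) ^ (d - 1) * ∫ z, ⟪rs x (lev s0 (n + i)) f z, e⟫_ℝ *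
        zR 2 ((2 : ℝ) ^ i • (z - (1 / lev s0 (n + i)) • (y - x))) =
      ∫ w, ⟪rs y (lev s0 n) f w, e⟫_ℝ * zR 2 w := by
  have h0 := FR.lev_pos hs n
  have h1 := FR.lev_pos hs (n + i)
  have hl : lev s0 (n + i) = 2 ^ i * lev s0 n := FR.lev_add s0 n i
  have e1 := TU.frame_int f e y h0 (fun z => zR 2 ((1 / lev s0 n) • (z - y)))
  have e2 := TU.frame_int f e x h1 (fun z => zR 2 ((1 / lev s0 n) • (z - y)))
  have h2 : ∀ w : Sp d, (1 / lev s0 n) • (y + lev s0 n • w - y) = w := by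
    intro w
    rw [add_sub_cancel_left, smul_smul, one_div, inv_mul_cancel₀ h0.ne', one_smul]
  have h3 : ∀ w : Sp d, (1 / lev s0 n) • (x + lev s0 (n + i) • w - y) =
      (2 : ℝ) ^ i • (w - (1 / lev s0 (n + i)) • (y - x)) := by
    intro w
    have h4 : x + lev s0 (n + i) • w - y =
        lev s0 (n + i) • (w - (1 / lev s0 (n + i)) • (y - x)) := by
      rw [smul_sub, smul_smul, mul_one_div_cancel h1.ne', one_smul]
      abel
    rw [h4, smul_smul, hl]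
    congr 1
    field_simp
  simp only [h2] at e1
  simp only [h3] at e2
  rw [e1, e2, CT5.nw_ratio hs n i]
  have h5 : ((2 : ℝ) ^ i) ^ (d - 1) = (2 ^ i) ^ d / 2 ^ i := by
    rw [eq_div_iff (by positivity), ← pow_succ, Nat.sub_add_cancel hd]
  rw [h5]
  ring

end

end T1m

end TG
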