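import Pool.Agent.TG.T1a

/-!
# Trace inequality, general operators: the flat part of module T1   (helper51)

No double quotes.
-/

open MeasureTheory Metric Set TrI
open scoped InnerProductSpace ContDiff

namespace TG

namespace T1m

noncomputable section

variable {d : ℕ}

lemma mQ_int {E : Type} [NormedAddCommGroup E] [InnerProductSpace ℝ E] {f : Sp d → E}
    (hf : Continuous f) (hfc : HasCompactSupport f) {s0 : ℝ} (hs : 0 < s0) (Q : Cell d) (e : E)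
    {g : Sp d → ℝ} (hg : Continuous g) :
    Integrable fun y => ⟪rs (xC s0 Q) (lev s0 Q.1) f y, e⟫_ℝ * g y := by
  have h1 := CT5.rs_cont hf (xC s0 Q) (lev s0 Q.1)
  have h2 := CT5.rs_cs hfc (xC s0 Q) (FR.lev_pos hs Q.1)
  exact ((h1.inner continuous_const).mul hg).integrable_of_hasCompactSupport
    (h2.comp_left (g := fun v : E => ⟪v, e⟫_ℝ) (inner_zero_left _)).mul_right

lemma sqrt_le_self (hd : 1 ≤ d) : Real.sqrt d ≤ d := by
  have h1 : (1 : ℝ) ≤ d := by exact_mod_cast hd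
  rw [Real.sqrt_le_left (by linarith)]
  nlinarith

/-- the second moment over the plane of up 9 P in the frame of P -/
lemma flat (hSD : StmtSD) (hCT5 : StmtCT5) (hCT8 : StmtCT8) (hd : 1 ≤ d) {M c0 ε : ℝ}
    (hε : 0 < ε) (hε1 : ε ≤ 1) {b : Sp d → ℝ} (hb : BaseKer 2 M c0 b) {R0 : ℝ}
    (hR0 : 400 + 8 * d ≤ R0) : ∃ C : ℝ, 0 < C ∧
    ∀ (E : Type) [NormedAddCommGroup E] [InnerProductSpace ℝ E] [FiniteDimensional ℝ E],
    ∀ f : Sp d → E, Continuous f → HasCompactSupport f → ∀ (R : ℝ), 700 * R0 ≤ R →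
    ∀ s0 : ℝ, 0 < s0 → ∀ e : Cell d → E, Dirs b ε R s0 f e →
    ∀ (ν : Cell d → Sp d) (c : Cell d → ℝ), Plns R0 s0 f e ν c → ∀ P : Cell d,
      |FR.cfr s0 P (ν (up 9 P)) (c (up 9 P))| ≤ 64 * R0 →
      ∫ y, mQ s0 f (e P) P y * (zR (256 * R0) y *
        ht (ν (up 9 P)) (FR.cfr s0 P (ν (up 9 P)) (c (up 9 P))) y ^ 2) ≤
        C * (bC R0 s0 f e ν c (up 9 P) + dC b ε R s0 f e P + dC b ε R s0 f e (up 9 P)) := by
  have hd1 : (1 : ℝ) ≤ d := by exact_mod_cast hd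
  obtain ⟨C5, hC5, h5⟩ := hCT5 d hd M c0 ε hε hε1 b hb R0 9 (by linarith)
  obtain ⟨C8, hC8, h8⟩ := hCT8 d hd M c0 ε hε hε1 b hb
  obtain ⟨C9, hC9, h8⟩ := h8 0
  obtain ⟨Na, hNa, Ta⟩ := exists_TFn_ht2 d 2 (256 * R0) (64 * R0) (by linarith)
  obtain ⟨Nb, hNb, Tb⟩ := exists_TFn_ht2 d 2 R0 (R0 + 1) (by linarith)
  refine ⟨512 ^ d * 512 + C5 * (|(512 : ℝ) ^ 2| * (1 ^ 2 * Nb)) +
    (|(512 : ℝ) ^ 2| * (1 ^ 2 * Nb) + Na) * C8, by positivity, ?_⟩
  intro E _ _ _ f hf hfc R hR s0 hs e hDirs ν c hPl P hcP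
  obtain ⟨p1, p2, p3, p4, p5⟩ := h5 E R (by linarith) f hf hfc s0 hs e hDirs ν c hPl
  obtain ⟨q1, -⟩ := h8 E R (by linarith) (by norm_num; linarith) f hf hfc s0 hs e hDirs
  obtain ⟨-, hZ⟩ := q1 P
  set n := ν (up 9 P) with hn
  set cs := FR.cfr s0 P n (c (up 9 P)) with hcs
  set x9 := tw s0 P (up 9 P) with hx9
  have hn1 : ‖n‖ = 1 := hPl.unit _
  have hsq := sqrt_le_self hd
  have hx9n : ‖x9‖ ≤ 64 * R0 := by
    have h1 := FR.norm_tw_up hs 9 P
    rw [← hx9] at h1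
    norm_num at h1
    linarith
  have hnx : |⟪n, x9⟫_ℝ| ≤ 64 * R0 := by
    have := abs_real_inner_le_norm n x9
    rw [hn1, one_mul] at this
    linarith
  set c'' := (cs - ⟪n, x9⟫_ℝ) / 512 with hc''
  have hc''1 : |c''| ≤ R0 + 1 := by
    rw [hc'', abs_div, div_le_iff₀ (by norm_num)]
    have h1 := abs_sub cs ⟪n, x9⟫_ℝ
    norm_num
    linarith
  set g1 : Sp d → ℝ := fun y => zR (256 * R0) y * ht n cs y ^ 2 with hg1
  set g2 : Sp d → ℝ := fun y => zR R0 ((1 / 512 : ℝ) • (y - x9)) * ht n cs y ^ 2 with hg2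
  have T1 : TFn 2 Na g1 := Ta n cs hn1 hcP
  have T2 : TFn 2 (|(512 : ℝ) ^ 2| * (1 ^ 2 * Nb)) g2 := by
    have h1 := ((Tb n c'' hn1 hc''1).comp_aff (-((1 / 512 : ℝ) • x9)) (1 / 512) (T := 1) le_rfl
      (by norm_num [abs_of_pos])).const_mul (512 ^ 2)
    refine (congrArg (TFn 2 _) ?_).mp h1
    funext y
    have h2 : -((1 / 512 : ℝ) • x9) + (1 / 512 : ℝ) • y = (1 / 512 : ℝ) • (y - x9) := by
      rw [smul_sub]
      abel
    have h3 : ht n cs y = 512 * ht n c'' ((1 / 512 : ℝ) • (y - x9)) := by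
      unfold ht
      rw [inner_smul_right, inner_sub_right, hc'']
      ring
    rw [h2, hg2]
    simp only
    rw [h3]
    ring
  have hz2 : ∀ y, R - 3 ≤ ‖y‖ → g2 y = 0 := by
    intro y hy
    rw [hg2]
    simp only
    rw [zR_eq_zero, zero_mul]
    rw [norm_smul, Real.norm_of_nonneg (by norm_num)]
    have h1 := norm_sub_norm_le y x9
    linarith
  have hz1 : ∀ y, R - 3 ≤ ‖y‖ → g1 y = 0 := by
    intro y hy
    rw [hg1]
    simp only
    rw [zR_eq_zero (by linarith), zero_mul]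
  have h12 : ∀ y, 0 ≤ g2 y - g1 y := by
    intro y
    rw [hg1, hg2]
    simp only
    rw [← sub_mul]
    refine mul_nonneg (sub_nonneg.2 ?_) (sq_nonneg _)
    rcases le_or_gt (256 * R0 + 1) ‖y‖ with h | h
    · rw [zR_eq_zero h]
      exact zR_nonneg _ _
    · rw [zR_eq_one (ρ := R0) (y := (1 / 512 : ℝ) • (y - x9))]
      · exact zR_le_one _ _
      · rw [norm_smul, Real.norm_of_nonneg (by norm_num)]
        have h1 := norm_sub_le y x9
        linarith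
  -- the defect of P
  have k1 := B3m.zp_app hZ (T2.cb.sub T1.cb) h12 (fun y hy => by
    rw [hz1 y (by linarith), hz2 y (by linarith), sub_zero])
  have i1 : Integrable fun y => mQ s0 f (e P) P y * g1 y :=
    mQ_int hf hfc hs P (e P) T1.smooth.continuous
  have i2 : Integrable fun y => mQ s0 f (e P) P y * g2 y :=
    mQ_int hf hfc hs P (e P) T2.smooth.continuous
  have k2 : ∫ y, mQ s0 f (e P) P y * (g2 y - g1 y) =
      (∫ y, mQ s0 f (e P) P y * g2 y) - ∫ y, mQ s0 f (e P) P y * g1 y := by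
    rw [← integral_sub i2 i1]
    congr 1
    funext y
    ring
  rw [k2] at k1
  -- the change of direction
  have hlev : lev s0 (up 9 P).1 = 2 ^ 9 * lev s0 P.1 := by
    rw [FR.up_fst, FR.lev_add]
  have ht0 := FR.lev_pos hs P.1
  have k3 := p5 P (up 9 P) (FR.up_fst 9 P) g2 _ T2 hz2 (by
    have h1 := FR.xC_up' hs 9 P
    refine h1.trans ?_
    rw [hlev]
    have h2 : (2 : ℝ) ^ 9 * lev s0 P.1 - lev s0 P.1 = (2 ^ 9 - 1) * lev s0 P.1 := by ring
    rw [h2]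
    exact mul_le_mul_of_nonneg_right (by linarith) (mul_nonneg (by norm_num) ht0.le))
  have i3 : Integrable fun y => ⟪rs (xC s0 P) (lev s0 P.1) f y, e (up 9 P)⟫_ℝ * g2 y :=
    mQ_int hf hfc hs P (e (up 9 P)) T2.smooth.continuous
  have k4 : ∫ y, ⟪rs (xC s0 P) (lev s0 P.1) f y, e P - e (up 9 P)⟫_ℝ * g2 y =
      (∫ y, mQ s0 f (e P) P y * g2 y) -
        ∫ y, ⟪rs (xC s0 P) (lev s0 P.1) f y, e (up 9 P)⟫_ℝ * g2 y := by
    rw [← integral_sub i2 i3]
    congr 1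
    funext y
    unfold mQ
    rw [inner_sub_right]
    ring
  rw [k4] at k3
  -- the plane functional of up 9 P
  have k5 := FR.bb_frame hSD hd hf hfc hs R0 9 P (e (up 9 P)) n (c (up 9 P))
  have k6 : bb R0 ((1 / 2) ^ P.1) (rs (xC s0 P) (lev s0 P.1) f) (P.1 + 9) x9 (e (up 9 P)) n cs =
      512 / 512 ^ d / 512 ^ 2 *
        ∫ y, ⟪rs (xC s0 P) (lev s0 P.1) f y, e (up 9 P)⟫_ℝ * g2 y := by
    have e3 : (2 : ℝ) ^ 9 = 512 := by norm_num
    unfold bb
    rw [FR.lev_half, e3, ← integral_const_mul, ← integral_const_mul]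
    congr 1
    funext y
    rw [hg2]
    simp only
    ring
  rw [← hx9, ← hcs, k6] at k5
  have k7 : ∫ y, ⟪rs (xC s0 P) (lev s0 P.1) f y, e (up 9 P)⟫_ℝ * g2 y =
      512 ^ d * 512 * bb R0 s0 f (up 9 P).1 (xC s0 (up 9 P)) (e (up 9 P)) n (c (up 9 P)) := by
    rw [← k5]
    field_simp
  have k8 : bb R0 s0 f (up 9 P).1 (xC s0 (up 9 P)) (e (up 9 P)) n (c (up 9 P)) ≤
      bC R0 s0 f e ν c (up 9 P) := le_max_right _ _
  have k9 : (512 : ℝ) ^ d * 512 *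
      bb R0 s0 f (up 9 P).1 (xC s0 (up 9 P)) (e (up 9 P)) n (c (up 9 P)) ≤
      512 ^ d * 512 * bC R0 s0 f e ν c (up 9 P) :=
    mul_le_mul_of_nonneg_left k8 (by positivity)
  have hdP := (p1 P).1
  have hd9 := (p1 (up 9 P)).1
  have hb9 := (p1 (up 9 P)).2.1
  set NB : ℝ := |(512 : ℝ) ^ 2| * (1 ^ 2 * Nb) with hNB
  have hNB0 : 0 < NB := by positivity
  have k10 := (abs_le.1 k3).2
  set X := dC b ε R s0 f e P with hX
  set Y := dC b ε R s0 f e (up 9 P) with hY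
  set Z := bC R0 s0 f e ν c (up 9 P) with hZ'
  have e1 : (512 ^ d * 512 + C5 * NB + (NB + Na) * C8) * (Z + X + Y) =
      512 ^ d * 512 * Z + C5 * NB * (X + Y) + (NB + Na) * (C8 * X) +
      (512 ^ d * 512 * (X + Y) + C5 * NB * Z + (NB + Na) * C8 * (Z + Y)) := by ring
  have e2 : 0 ≤ 512 ^ d * 512 * (X + Y) + C5 * NB * Z + (NB + Na) * C8 * (Z + Y) := by
    positivity
  rw [e1]
  linarith

end

end T1m

end TG
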