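import Pool.Agent.TG.SA2

/-!
# Part (d) of module T1: geometry of two planes (helper75)

plInt n s (zR (Rt+2)) is bounded by the plane integral of a small bump centred at a point y0 of the
plane S = {ht n1 s1 = 0}, plus the plane integral of zR(256 R0) times the squared height over S.
-/

open MeasureTheory Metric Set TrI
open scoped InnerProductSpace ContDiff

namespace TG

namespace T1g

noncomputable section

open TU PF SAm

/-- the bump of scale 2^-i centred at y0 -/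
def bmp {d : ℕ} (i : ℕ) (y0 : Sp d) (y : Sp d) : ℝ := zR 2 ((2 : ℝ) ^ i • (y - y0))

variable {d : ℕ}

lemma bmp_nonneg (i : ℕ) (y0 y : Sp d) : 0 ≤ bmp i y0 y := zR_nonneg _ _

lemma bmp_le_one (i : ℕ) (y0 y : Sp d) : bmp i y0 y ≤ 1 := zR_le_one _ _

lemma bmp_one {i : ℕ} {y0 y : Sp d} (h : ‖y - y0‖ ≤ (1 / 2 : ℝ) ^ i) : bmp i y0 y = 1 := by
  unfold bmp
  refine zR_one ?_
  rw [norm_smul, Real.norm_of_nonneg (by positivity)]
  calc (2 : ℝ) ^ i * ‖y - y0‖ ≤ (2 : ℝ) ^ i * (1 / 2 : ℝ) ^ i :=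
        mul_le_mul_of_nonneg_left h (by positivity)
    _ ≤ 2 := by rw [← mul_pow]; norm_num

lemma bmp_zero {i : ℕ} {y0 y : Sp d} (h : 3 * (1 / 2 : ℝ) ^ i ≤ ‖y - y0‖) : bmp i y0 y = 0 := by
  unfold bmp
  refine zR_zero ?_
  rw [norm_smul, Real.norm_of_nonneg (by positivity)]
  calc (2 : ℝ) + 1 = (2 : ℝ) ^ i * (3 * (1 / 2 : ℝ) ^ i) := by
        rw [mul_left_comm, ← mul_pow]; norm_num
    _ ≤ (2 : ℝ) ^ i * ‖y - y0‖ := mul_le_mul_of_nonneg_left h (by positivity)

lemma bmp_cont (i : ℕ) (y0 : Sp d) : Continuous (bmp i y0 : Sp d → ℝ) := by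
  have h : Continuous (zR 2 : Sp d → ℝ) := (zR_smooth two_pos).continuous
  unfold bmp
  exact h.comp (by fun_prop)

/-- lower bound for plane integrals -/
lemma low (n : ℕ) (ν : Sp (n + 1)) (hν : ‖ν‖ = 1) (c : ℝ) {F : Sp (n + 1) → ℝ}
    (hF : Continuous F) {ρ : ℝ} (hs : ∀ y, F y ≠ 0 → ‖tang ν y‖ ≤ ρ) (h0 : ∀ y, 0 ≤ F y)
    (z0 : Pl ν) {r m : ℝ} (hr : 0 ≤ r)
    (hm : ∀ y ∈ closedBall z0 r, m ≤ F (c • ν + (y : Sp (n + 1)))) :
    m * (r ^ n * (volume (closedBall (0 : Sp n) 1)).toReal) ≤ plInt ν c F := by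
  have hint := integrable_pl hν hF hs c
  have hvol : (volume : Measure (Pl ν)).real (closedBall z0 r) =
      r ^ n * (volume (closedBall (0 : Sp n) 1)).toReal := by
    rw [Measure.real, Measure.addHaar_closedBall_center, vol n ν hν r,
      Measure.addHaar_closedBall' _ _ hr, ENNReal.toReal_mul, ENNReal.toReal_ofReal (by positivity)]
    simp
  unfold plInt
  calc m * (r ^ n * (volume (closedBall (0 : Sp n) 1)).toReal)
      = ∫ _y in closedBall z0 r, m := by
        rw [setIntegral_const, smul_eq_mul, hvol, mul_comm]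
    _ ≤ ∫ y in closedBall z0 r, F (c • ν + (y : Sp (n + 1))) :=
        setIntegral_mono_on (integrableOn_const measure_closedBall_lt_top.ne)
          hint.integrableOn measurableSet_closedBall fun y hy => hm y hy
    _ ≤ ∫ y : Pl ν, F (c • ν + (y : Sp (n + 1))) :=
        setIntegral_le_integral hint (Filter.Eventually.of_forall fun y => h0 _)

lemma ht_plane {ν : Sp d} (c : ℝ) (y : Pl ν) (n1 : Sp d) (s1 : ℝ) :
    ht n1 s1 (c • ν + (y : Sp d)) = (c * ⟪ν, n1⟫_ℝ - s1) + ⟪(y : Sp d), tang ν n1⟫_ℝ := by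
  unfold ht
  have h1 : ⟪(y : Sp d), tang ν n1⟫_ℝ = ⟪(y : Sp d), n1⟫_ℝ := by
    unfold tang
    rw [inner_sub_right, inner_smul_right]
    have : ⟪(y : Sp d), ν⟫_ℝ = 0 := by
      rw [real_inner_comm]
      exact Submodule.mem_orthogonal_singleton_iff_inner_right.1 y.2
    rw [this]; ring
  rw [h1, inner_add_right, inner_smul_right, real_inner_comm n1 ν, real_inner_comm n1 (y : Sp d)]
  ring

theorem geo0 (hd : 2 ≤ d) (Rt R0 : ℝ) (hRt : 1 ≤ Rt) (hR0 : 400 ≤ R0) (h8 : 8 * Rt ≤ R0) :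
    ∃ C2 : ℝ, 0 < C2 ∧ ∀ n0 : ℕ, ∃ C3 : ℝ, 0 < C3 ∧ ∀ (n1 : Sp d) (s1 : ℝ), ‖n1‖ = 1 →
      ∀ (n : Sp d) (s : ℝ), ‖n‖ = 1 → ∀ y0 : Sp d, ht n1 s1 y0 = 0 → ‖y0‖ ≤ 64 * R0 →
      ∀ i ≤ n0, plInt n s (zR (Rt + 2)) ≤
        C2 * (2 : ℝ) ^ (i * (d - 1)) * plInt n s (bmp i y0) +
        C3 * plInt n s (fun y => zR (256 * R0) y * ht n1 s1 y ^ 2) := by
  obtain ⟨n', rfl⟩ : ∃ n, d = n + 1 := ⟨d - 1, by omega⟩
  obtain ⟨C, hC, hbound⟩ := plInt_bound (d := n' + 1) (by omega) (Rt + 3)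
  set v1 : ℝ := (volume (closedBall (0 : Sp n') 1)).toReal with hv1
  have hv1pos : 0 < v1 := ENNReal.toReal_pos (measure_closedBall_pos _ _ one_pos).ne'
    measure_closedBall_lt_top.ne
  refine ⟨C * 2 ^ n' / v1, by positivity, fun n0 => ?_⟩
  set τ : ℝ := (1 / 2 : ℝ) ^ n0 / 4 with hτ
  have hτpos : 0 < τ := by positivity
  have hτ1 : τ ≤ 1 / 4 := by
    have : (1 / 2 : ℝ) ^ n0 ≤ 1 := pow_le_one₀ (by norm_num) (by norm_num)
    rw [hτ]; linarith
  set θ : ℝ := τ / (64 * R0) with hθ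
  have hR0pos : 0 < R0 := by linarith
  have hθpos : 0 < θ := by positivity
  refine ⟨C / (θ ^ 2 * v1), by positivity, ?_⟩
  intro n1 s1 hn1 ν s hν y0 hy0 hy0R i hi
  have hnorm0 : 0 ≤ plInt ν s (bmp i y0) := plInt_nonneg ν s fun y => bmp_nonneg _ _ _
  have hG0 : 0 ≤ plInt ν s (fun y => zR (256 * R0) y * ht n1 s1 y ^ 2) :=
    plInt_nonneg ν s fun y => mul_nonneg (zR_nonneg _ _) (sq_nonneg _)
  have hC2 : 0 ≤ C * 2 ^ n' / v1 := by positivity
  have hC3 : 0 ≤ C / (θ ^ 2 * v1) := by positivity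
  have hup : plInt ν s (zR (Rt + 2)) ≤ C := by
    have h := hbound ν hν (zR (Rt + 2)) s 1 zero_le_one
      (fun y _ => by
        rw [abs_of_nonneg (zR_nonneg _ _)]
        exact zR_le_one _ _)
      (fun y _ hne => by
        refine (norm_tang_le hν y).trans ?_
        by_contra hcon
        push Not at hcon
        exact hne (zR_zero (by linarith)))
    rw [mul_one] at h
    exact (le_abs_self _).trans h
  by_cases hs : Rt + 3 ≤ |s|
  · -- the plane does not meet the ball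
    have hz : plInt ν s (zR (Rt + 2)) = 0 := by
      have h1 : plInt ν s (zR (Rt + 2)) = plInt ν s (fun _ => (0 : ℝ)) := by
        refine plInt_congr hν fun y hy => zR_zero ?_
        have h2 := abs_real_inner_le_norm ν y
        rw [hν, one_mul, hy] at h2
        linarith
      rw [h1]
      unfold plInt
      exact integral_zero _ _
    rw [hz]
    positivity
  push Not at hs
  -- the height restricted to the plane
  set w : Sp (n' + 1) := tang ν n1 with hw
  set a : ℝ := s * ⟪ν, n1⟫_ℝ - s1 with ha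
  have hinner : ⟪ν, w⟫_ℝ = 0 := tang_inner hν n1
  have hnsq := norm_sq_tang hν n1
  rw [hn1] at hnsq
  by_cases hA : |a| + 64 * R0 * ‖w‖ ≤ τ
  · -- the plane passes near y0
    have hw1 : ‖w‖ ≤ 1 / 4 := by
      have h1 : ‖w‖ ≤ 64 * R0 * ‖w‖ := by
        have : (1 : ℝ) ≤ 64 * R0 := by linarith
        nlinarith [norm_nonneg w]
      have := abs_nonneg a
      linarith
    have hα : 1 / 2 ≤ |⟪ν, n1⟫_ℝ| := by
      by_contra hcon
      push Not at hcon
      have h1 : ⟪ν, n1⟫_ℝ ^ 2 < 1 / 4 := by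
        rw [← sq_abs]
        nlinarith [abs_nonneg ⟪ν, n1⟫_ℝ]
      have h2 : ‖w‖ ^ 2 ≤ 1 / 16 := by nlinarith [norm_nonneg w]
      have h3 : ‖tang ν n1‖ ^ 2 = ‖w‖ ^ 2 := rfl
      nlinarith
    have hkey : (⟪ν, y0⟫_ℝ - s) * ⟪ν, n1⟫_ℝ = -(a + ⟪tang ν y0, w⟫_ℝ) := by
      have e1 : ⟪ν, y0⟫_ℝ • ν + tang ν y0 = y0 := by
        exact (add_comm _ _).trans (tang_add_inner ν y0)
      have e2 := ht_plane ⟪ν, y0⟫_ℝ (⟨tang ν y0, by
          rw [Submodule.mem_orthogonal_singleton_iff_inner_right]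
          exact tang_inner hν y0⟩ : Pl ν) n1 s1
      have e4 : ht n1 s1 (⟪ν, y0⟫_ℝ • ν + tang ν y0) = (⟪ν, y0⟫_ℝ * ⟪ν, n1⟫_ℝ - s1) +
          ⟪tang ν y0, w⟫_ℝ := e2
      rw [e1, hy0] at e4
      rw [ha]
      linarith
    have hdist : |⟪ν, y0⟫_ℝ - s| ≤ 2 * τ := by
      have h1 : |⟪ν, y0⟫_ℝ - s| * |⟪ν, n1⟫_ℝ| ≤ τ := by
        rw [← abs_mul, hkey, abs_neg]
        refine (abs_add_le _ _).trans ?_
        have h2 : |⟪tang ν y0, w⟫_ℝ| ≤ 64 * R0 * ‖w‖ := by
          refine (abs_real_inner_le_norm _ _).trans ?_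
          exact mul_le_mul_of_nonneg_right ((norm_tang_le hν y0).trans hy0R) (norm_nonneg _)
        linarith
      nlinarith [abs_nonneg (⟪ν, y0⟫_ℝ - s)]
    have hpow : (1 / 2 : ℝ) ^ n0 ≤ (1 / 2 : ℝ) ^ i :=
      pow_le_pow_of_le_one (by norm_num) (by norm_num) hi
    have hdist' : |⟪ν, y0⟫_ℝ - s| ≤ (1 / 2 : ℝ) ^ i / 2 := by
      rw [hτ] at hdist
      linarith
    -- lower bound for the bump
    have hlow := low n' ν hν s (bmp_cont i y0) (ρ := ‖y0‖ + 3)
      (fun y hne => by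
        refine (norm_tang_le hν y).trans ?_
        by_contra hcon
        push Not at hcon
        refine hne (bmp_zero ?_)
        have h1 : ‖y‖ ≤ ‖y - y0‖ + ‖y0‖ := by
          have := norm_add_le (y - y0) y0
          rwa [sub_add_cancel] at this
        have h2 : (1 / 2 : ℝ) ^ i ≤ 1 := pow_le_one₀ (by norm_num) (by norm_num)
        linarith)
      (fun y => bmp_nonneg i y0 y)
      (⟨tang ν y0, by
          rw [Submodule.mem_orthogonal_singleton_iff_inner_right]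
          exact tang_inner hν y0⟩ : Pl ν) (r := (1 / 2 : ℝ) ^ i / 2) (m := 1) (by positivity)
      (fun y hy => by
        rw [bmp_one]
        have h1 : s • ν + (y : Sp (n' + 1)) - y0 = ((y : Sp (n' + 1)) - tang ν y0) -
            (⟪ν, y0⟫_ℝ - s) • ν := by
          have h2 := tang_add_inner ν y0
          rw [sub_smul]
          nth_rewrite 1 [← h2]
          abel
        rw [h1]
        refine (norm_sub_le _ _).trans ?_
        rw [norm_smul, hν, mul_one, Real.norm_eq_abs]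
        have h3 : ‖(y : Sp (n' + 1)) - tang ν y0‖ ≤ (1 / 2 : ℝ) ^ i / 2 := by
          have := mem_closedBall.mp hy
          rw [dist_eq_norm] at this
          exact this
        linarith)
    rw [one_mul] at hlow
    have h2i : (2 : ℝ) ^ (i * (n' + 1 - 1)) * ((1 / 2 : ℝ) ^ i / 2) ^ n' = 1 / 2 ^ n' := by
      rw [Nat.add_sub_cancel, div_pow, pow_mul, ← mul_div_assoc, ← mul_pow, ← mul_pow]
      norm_num
    calc plInt ν s (zR (Rt + 2)) ≤ C := hup
      _ = C * 2 ^ n' / v1 * (1 / 2 ^ n' * v1) := by field_simp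
      _ = C * 2 ^ n' / v1 * (2 : ℝ) ^ (i * (n' + 1 - 1)) *
          (((1 / 2 : ℝ) ^ i / 2) ^ n' * v1) := by
          rw [← h2i]; ring
      _ ≤ C * 2 ^ n' / v1 * (2 : ℝ) ^ (i * (n' + 1 - 1)) * plInt ν s (bmp i y0) :=
          mul_le_mul_of_nonneg_left hlow (by positivity)
      _ ≤ _ := le_add_of_nonneg_right (mul_nonneg hC3 hG0)
  · -- the height is large on the plane
    push Not at hA
    set σ : ℝ := if 0 ≤ a then 1 else -1 with hσ
    have hσa : σ * a = |a| := by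
      rw [hσ]
      split_ifs with h
      · rw [abs_of_nonneg h, one_mul]
      · rw [abs_of_neg (not_le.mp h)]; ring
    have hσ2 : σ * σ = 1 := by
      rw [hσ]
      split_ifs <;> norm_num
    have hσabs : |σ| = 1 := by
      rw [hσ]
      split_ifs <;> norm_num
    set z0 : Sp (n' + 1) := (σ * 2 * ‖w‖⁻¹) • w with hz0
    have hz0mem : z0 ∈ Pl ν := by
      rw [Submodule.mem_orthogonal_singleton_iff_inner_right, hz0, inner_smul_right, hinner,
        mul_zero]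
    have hz0n : ‖z0‖ ≤ 2 := by
      rw [hz0, norm_smul, Real.norm_eq_abs, abs_mul, abs_mul, hσabs, abs_inv, abs_norm]
      by_cases hw0 : ‖w‖ = 0
      · rw [hw0]; norm_num
      · rw [one_mul, mul_assoc, inv_mul_cancel₀ hw0]; norm_num
    have hz0w : σ * ⟪z0, w⟫_ℝ = 2 * ‖w‖ := by
      rw [hz0, real_inner_smul_left, real_inner_self_eq_norm_sq]
      by_cases hw0 : ‖w‖ = 0
      · rw [hw0]; norm_num
      · field_simp
        linear_combination hσ2
    have hcontG : Continuous (fun y : Sp (n' + 1) => zR (256 * R0) y * ht n1 s1 y ^ 2) := by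
      have h1 : Continuous (zR (256 * R0) : Sp (n' + 1) → ℝ) :=
        (zR_smooth (by positivity)).continuous
      have h2 : Continuous (fun y : Sp (n' + 1) => ht n1 s1 y) := by
        unfold ht
        fun_prop
      exact h1.mul (h2.pow 2)
    have hlow := low n' ν hν s hcontG (ρ := 256 * R0 + 1)
      (fun y hne => by
        refine (norm_tang_le hν y).trans ?_
        by_contra hcon
        push Not at hcon
        refine hne ?_
        rw [zR_zero hcon.le, zero_mul])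
      (fun y => mul_nonneg (zR_nonneg _ _) (sq_nonneg _))
      (⟨z0, hz0mem⟩ : Pl ν) (r := 1) (m := θ ^ 2) zero_le_one
      (fun y hy => by
        have hyz : ‖(y : Sp (n' + 1)) - z0‖ ≤ 1 := by
          have := mem_closedBall.mp hy
          rw [dist_eq_norm] at this
          exact this
        have hyn : ‖(y : Sp (n' + 1))‖ ≤ 3 := by
          have := norm_add_le ((y : Sp (n' + 1)) - z0) z0
          rw [sub_add_cancel] at this
          linarith
        rw [zR_one, one_mul, ht_plane]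
        · have h1 : σ * ⟪(y : Sp (n' + 1)), w⟫_ℝ ≥ ‖w‖ := by
            have e : ⟪(y : Sp (n' + 1)), w⟫_ℝ = ⟪z0, w⟫_ℝ + ⟪(y : Sp (n' + 1)) - z0, w⟫_ℝ := by
              rw [← inner_add_left]
              congr 1
              abel
            rw [e, mul_add, hz0w]
            have h2 : |σ * ⟪(y : Sp (n' + 1)) - z0, w⟫_ℝ| ≤ ‖w‖ := by
              rw [abs_mul, hσabs, one_mul]
              refine (abs_real_inner_le_norm _ _).trans ?_
              nlinarith [norm_nonneg w]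
            have := neg_abs_le (σ * ⟪(y : Sp (n' + 1)) - z0, w⟫_ℝ)
            linarith
          have h3 : θ ≤ σ * (a + ⟪(y : Sp (n' + 1)), w⟫_ℝ) := by
            rw [mul_add, hσa, hθ, div_le_iff₀ (by positivity)]
            have h4 : |a| ≤ |a| * (64 * R0) := by
              have : (1 : ℝ) ≤ 64 * R0 := by linarith
              nlinarith [abs_nonneg a]
            have h5 : ‖w‖ * (64 * R0) ≤ σ * ⟪(y : Sp (n' + 1)), w⟫_ℝ * (64 * R0) :=
              mul_le_mul_of_nonneg_right h1 (by positivity)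
            linarith
          calc θ ^ 2 ≤ (σ * (a + ⟪(y : Sp (n' + 1)), w⟫_ℝ)) ^ 2 :=
                pow_le_pow_left₀ hθpos.le h3 2
            _ = (a + ⟪(y : Sp (n' + 1)), w⟫_ℝ) ^ 2 := by
                rw [mul_pow, sq σ, hσ2, one_mul]
        · refine (norm_add_le _ _).trans ?_
          rw [norm_smul, hν, mul_one, Real.norm_eq_abs]
          linarith)
    rw [one_pow, one_mul] at hlow
    calc plInt ν s (zR (Rt + 2)) ≤ C := hup
      _ = C / (θ ^ 2 * v1) * (θ ^ 2 * v1) := by field_simp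
      _ ≤ C / (θ ^ 2 * v1) * plInt ν s (fun y => zR (256 * R0) y * ht n1 s1 y ^ 2) :=
          mul_le_mul_of_nonneg_left hlow hC3
      _ ≤ _ := le_add_of_nonneg_left (mul_nonneg (mul_nonneg hC2 (by positivity)) hnorm0)

/-- (d) GEOMETRY -/
theorem geo (d : ℕ) (hd : 2 ≤ d) (Rt R0 : ℝ) (hRt : 1 ≤ Rt) (h8 : 8 * Rt ≤ R0)
    (h400 : 400 ≤ R0) :
    ∃ C2 : ℝ, 0 < C2 ∧ ∀ n0 : ℕ, ∃ C3 : ℝ, 0 < C3 ∧ ∀ (n n' y0 : Sp d) (s : ℝ) (i : ℕ),
      ‖n‖ = 1 → ‖n'‖ = 1 → ‖y0‖ ≤ 64 * R0 → i ≤ n0 →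
      plInt n s (zR (Rt + 2)) ≤
        C2 * ((2 : ℝ) ^ i) ^ (d - 1) * plInt n s (fun y => zR 2 ((2 : ℝ) ^ i • (y - y0))) +
        C3 * plInt n s (fun y => zR (256 * R0) y * ht n' ⟪n', y0⟫_ℝ y ^ 2) := by
  obtain ⟨C2, hC2, h⟩ := geo0 hd Rt R0 hRt h400 h8
  refine ⟨C2, hC2, fun n0 => ?_⟩
  obtain ⟨C3, hC3, h3⟩ := h n0
  refine ⟨C3, hC3, fun n n' y0 s i hn hn' hy0 hi => ?_⟩
  have h4 := h3 n' ⟪n', y0⟫_ℝ hn' n s hn y0 (by unfold ht; ring) hy0 i hi
  rw [← pow_mul]
  exact h4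

end

end T1g

end TG
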