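import Pool.Agent.TG.Stmts15
import Pool.Agent.TG.CT1
import Pool.Agent.TG.CT5
import Pool.Agent.TG.TH

/-!
# Trace inequality, general operators: MODULE T2, light cells below a flat top
-/

open MeasureTheory Metric Set TrI
open scoped InnerProductSpace ContDiff ENNReal

namespace TG

namespace T2

noncomputable section

set_option linter.unusedSectionVars false

variable {d : ℕ}

/-! ## heights and feet -/

lemma ht_lip {ν : Sp d} (hν : ‖ν‖ = 1) (c : ℝ) (x y : Sp d) :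
    |ht ν c x| ≤ |ht ν c y| + ‖x - y‖ := by
  have h1 : ht ν c x = ht ν c y + ⟪ν, x - y⟫_ℝ := by
    unfold ht
    rw [inner_sub_right]
    ring
  rw [h1]
  refine (abs_add_le _ _).trans ?_
  have := abs_real_inner_le_norm ν (x - y)
  rw [hν, one_mul] at this
  linarith

/-- the foot of the perpendicular -/
lemma foot {ν : Sp d} (hν : ‖ν‖ = 1) (c : ℝ) (x : Sp d) :
    ht ν c (x - ht ν c x • ν) = 0 ∧ ‖(x - ht ν c x • ν) - x‖ = |ht ν c x| := by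
  constructor
  · unfold ht
    rw [inner_sub_right, inner_smul_right, real_inner_self_eq_norm_sq, hν]
    ring
  · rw [sub_sub_cancel_left, norm_neg, norm_smul, hν, mul_one, Real.norm_eq_abs]

section Flds

variable {E : Type} [NormedAddCommGroup E] [InnerProductSpace ℝ E] [FiniteDimensional ℝ E]

/-- what the uniform sheet says on cells whose centre is near the plane -/
lemma near_cell {b : Sp d → ℝ} (hb : AK b) {ε s0 R0 cu : ℝ} (hs : 0 < s0) (hR0 : 400 + 8 * d ≤ R0)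
    {f : Sp d → E} (hf : Continuous f) (hc : HasCompactSupport f) {ν : Sp d} (hν : ‖ν‖ = 1)
    {c : ℝ} {P : Cell d} {A : ℝ} {n0 : ℕ}
    (hT : ∀ y : Sp d, ht ν c y = 0 → ‖y - xC s0 P‖ ≤ 64 * R0 * lev s0 P.1 →
      ∀ i ≤ n0, i ≤ P.1 → cu * A ≤ lev s0 (P.1 - i) / lev s0 (P.1 - i) ^ d *
          ∫ z in ball y (16 * R0 * lev s0 (P.1 - i)), ‖fl b ε s0 f (P.1 - i - 1) z‖)
    {i : ℕ} (hi : i ≤ n0) (hiP : i ≤ P.1) {Q : Cell d} (hQ : Q ∈ dn i P)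
    (hlt : |ht ν c (xC s0 Q)| < 16 * R0 * lev s0 Q.1) :
    cu * A ≤ mC b ε (32 * R0) s0 f Q := by
  have hd0 : (0 : ℝ) ≤ d := Nat.cast_nonneg d
  have hR1 : 0 < R0 := by linarith
  have hlQ := lev_pos hs Q.1
  have hlP := lev_pos hs P.1
  have hQ1 := CT1.lvl_dn hQ
  have hle : lev s0 Q.1 ≤ lev s0 P.1 := by
    rw [hQ1]
    exact CT1.MAlev hs (by omega)
  have hx := CT1.cen_sub_dn hs hiP hQ
  obtain ⟨f1, f2⟩ := foot hν c (xC s0 Q)
  set y := xC s0 Q - ht ν c (xC s0 Q) • ν with hy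
  have hsd : Real.sqrt d ≤ R0 := by
    rw [Real.sqrt_le_left (by linarith)]
    nlinarith
  have h1 : ‖y - xC s0 P‖ ≤ 64 * R0 * lev s0 P.1 := by
    have h2 : y - xC s0 P = (y - xC s0 Q) + (xC s0 Q - xC s0 P) := by abel
    rw [h2]
    refine (norm_add_le _ _).trans ?_
    rw [f2]
    have h3 : Real.sqrt d * lev s0 P.1 ≤ R0 * lev s0 P.1 :=
      mul_le_mul_of_nonneg_right hsd hlP.le
    have h4 : 16 * R0 * lev s0 Q.1 ≤ 16 * R0 * lev s0 P.1 :=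
      mul_le_mul_of_nonneg_left hle (by linarith)
    nlinarith
  have h5 := hT y f1 h1 i hi hiP
  rw [← hQ1] at h5
  refine h5.trans ?_
  unfold mC ma
  refine mul_le_mul_of_nonneg_left ?_ (by positivity)
  refine setIntegral_mono_set ?_ ?_ ?_
  · exact ((fl_cont hb ε s0 hf _).norm.integrable_of_hasCompactSupport
      (fl_cs hb ε s0 hc _).norm).integrableOn
  · exact Filter.Eventually.of_forall fun y => norm_nonneg _
  · refine (ball_subset_ball' ?_).eventuallyLE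
    rw [dist_eq_norm, f2]
    nlinarith

/-- (III.2): the centres of the light cells are far from the plane -/
lemma far_cells {b : Sp d → ℝ} (hb : AK b) {ε s0 R0 cu : ℝ} (hs : 0 < s0)
    (hR0 : 400 + 8 * d ≤ R0)
    {f : Sp d → E} (hf : Continuous f) (hc : HasCompactSupport f) {ν : Sp d} (hν : ‖ν‖ = 1)
    {c : ℝ} {P : Cell d} {n0 : ℕ} (hP : 0 < mT b ε s0 f P)
    (hT : ∀ y : Sp d, ht ν c y = 0 → ‖y - xC s0 P‖ ≤ 64 * R0 * lev s0 P.1 →
      ∀ i ≤ n0, i ≤ P.1 → cu * mT b ε s0 f P ≤ lev s0 (P.1 - i) / lev s0 (P.1 - i) ^ d *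
          ∫ z in ball y (16 * R0 * lev s0 (P.1 - i)), ‖fl b ε s0 f (P.1 - i - 1) z‖)
    {γ θ' θ : ℝ} (hγ : 0 < γ) (hn0 : (1 + 32 * R0) ^ (d + 2) * (2 : ℝ) ^ (-(γ * n0)) < cu)
    (hθ : θ < cu) (hθ0 : 0 < θ) (hθ' : θ' ≤ θ)
    {i : ℕ} (hiP : i ≤ P.1) {Q : Cell d} (hQ : Q ∈ dn i P)
    (hTop : Top γ θ' (mC b ε (32 * R0) s0 f) (mT b ε s0 f) i Q) :
    (i ≤ n0 → 16 * R0 * lev s0 Q.1 ≤ |ht ν c (xC s0 Q)|) ∧
    (n0 < i → 16 * R0 * lev s0 (P.1 - n0) ≤ |ht ν c (xC s0 (up (i - n0) Q))|) := by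
  have hd0 : (0 : ℝ) ≤ d := Nat.cast_nonneg d
  have hup := (mem_dn hiP).1 hQ
  obtain ⟨t1, t2⟩ := hTop
  rw [hup] at t1 t2
  have hpow : ∀ i : ℕ, (2 : ℝ) ^ (-(γ * i)) ≤ 1 := by
    intro i
    apply Real.rpow_le_one_of_one_le_of_nonpos (by norm_num)
    have : 0 ≤ γ * i := by positivity
    linarith
  have hpos : ∀ i : ℕ, (0 : ℝ) < (2 : ℝ) ^ (-(γ * i)) := fun i => by positivity
  constructor
  · intro hi
    by_contra hcon
    push Not at hcon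
    have h1 := near_cell (cu := cu) (A := mT b ε s0 f P) hb hs hR0 hf hc hν hT hi hiP hQ hcon
    have h2 : θ' * ((2 : ℝ) ^ (-(γ * i)) * mT b ε s0 f P) ≤
        θ * ((2 : ℝ) ^ (-(γ * i)) * mT b ε s0 f P) :=
      mul_le_mul_of_nonneg_right hθ' (mul_nonneg (hpos i).le hP.le)
    have h3 : (2 : ℝ) ^ (-(γ * i)) * mT b ε s0 f P ≤ 1 * mT b ε s0 f P :=
      mul_le_mul_of_nonneg_right (hpow i) hP.le
    have h4 := mul_le_mul_of_nonneg_left h3 hθ0.le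
    have h5 : θ * (1 * mT b ε s0 f P) < cu * mT b ε s0 f P := by
      rw [one_mul]
      exact mul_lt_mul_of_pos_right hθ hP
    linarith
  · intro hi
    by_contra hcon
    push Not at hcon
    have hQ1 := CT1.lvl_dn hQ
    set Q' := up (i - n0) Q with hQ'
    have hQ'1 : Q'.1 = P.1 - n0 := by
      rw [hQ', up_fst, hQ1]
      omega
    have hQ'd : Q' ∈ dn n0 P := by
      rw [mem_dn (by omega), hQ', up_up, show i - n0 + n0 = i by omega]
      exact hup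
    rw [← hQ'1] at hcon
    have h1 := near_cell (cu := cu) (A := mT b ε s0 f P) hb hs hR0 hf hc hν hT le_rfl
      (by omega) hQ'd hcon
    have h2 := CT1.mC_le_mT hb (ε := ε) (R := 32 * R0) (by linarith) hs hf hc Q'
    have h3 := t1 (i - n0)
    have h4 : mT b ε s0 f Q' ≤ (2 : ℝ) ^ (-(γ * n0)) * mT b ε s0 f P := by
      have h5 : (2 : ℝ) ^ (-(γ * i)) = (2 : ℝ) ^ (-(γ * ((i - n0 : ℕ) : ℝ))) *
          (2 : ℝ) ^ (-(γ * n0)) := by
        rw [← Real.rpow_add (by norm_num)]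
        congr 1
        rw [Nat.cast_sub hi.le]
        ring
      rw [h5, mul_assoc] at h3
      exact le_of_mul_le_mul_left h3 (hpos _)
    have h6 : (0 : ℝ) ≤ (1 + 32 * R0) ^ (d + 2) := by
      have : 0 ≤ 1 + 32 * R0 := by linarith
      positivity
    have h7 := mul_le_mul_of_nonneg_left h4 h6
    have h8 := mul_lt_mul_of_pos_right hn0 hP
    have h9 : (1 + 32 * R0) ^ (d + 2) * ((2 : ℝ) ^ (-(γ * n0)) * mT b ε s0 f P) =
      (1 + 32 * R0) ^ (d + 2) * (2 : ℝ) ^ (-(γ * n0)) * mT b ε s0 f P := by ring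
    linarith

/-! ## cells near the level of the top -/

lemma TFn_zero : TFn 2 0 (fun _ : Sp d => (0 : ℝ)) where
  smooth := contDiff_const
  bd := by
    intro j _ x
    rw [show (fun _ : Sp d => (0 : ℝ)) = 0 from rfl]
    simp

lemma TFn_sum {ι : Type} (S : Finset ι) (g : ι → Sp d → ℝ) {N : ℝ}
    (h : ∀ i ∈ S, TFn 2 N (g i)) : TFn 2 (S.card * N) (fun y => ∑ i ∈ S, g i y) := by
  classical
  induction S using Finset.induction_on with
  | empty =>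
    simp only [Finset.card_empty, Nat.cast_zero, zero_mul, Finset.sum_empty]
    exact TFn_zero
  | insert a S ha ih =>
    have h1 := TU.TFn_add (h a (Finset.mem_insert_self a S))
      (ih fun i hi => h i (Finset.mem_insert_of_mem hi))
    have h2 : (fun y => ∑ i ∈ insert a S, g i y) = fun y => g a y + ∑ i ∈ S, g i y := by
      funext y
      rw [Finset.sum_insert ha]
    rw [h2, Finset.card_insert_of_notMem ha]
    have h3 : (((S.card + 1 : ℕ) : ℝ)) * N = N + S.card * N := by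
      push_cast
      ring
    rw [h3]
    exact h1

lemma cs_comp_aff {g : Sp d → ℝ} (hg : Continuous g) (a : Sp d) {r : ℝ} {F : Sp d → E}
    (hF : Continuous F) (hc : HasCompactSupport F) (e : E) :
    Integrable fun w => ⟪F w, e⟫_ℝ * g (a + r • w) := by
  refine Continuous.integrable_of_hasCompactSupport
    ((hF.inner continuous_const).mul (hg.comp (by fun_prop))) ?_
  exact (hc.comp_left (g := fun v : E => ⟪v, e⟫_ℝ) (inner_zero_left _)).mul_right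

lemma nearA (hd : 1 ≤ d) {b : Sp d → ℝ} {M c0 ε : ℝ} (hb : BaseKer 2 M c0 b) {CZ CM : ℝ}
    (hCM : 0 < CM)
    (hZ : ∀ f : Sp d → E, Continuous f → HasCompactSupport f → ∀ (R : ℝ), 3 ≤ R →
      ∀ (n : ℕ) (e : E), ‖e‖ = 1 → ∀ (x : Sp d) (H : Sp d → ℝ) (N : ℝ), TFn 2 N H →
      (∀ y, 0 ≤ H y) → (∀ y, R - 2 ≤ ‖y - x‖ → H y = 0) →
      -(CZ * N * DD b ε R ((1 / 2) ^ n) f n x e) ≤ ∫ y, ⟪f y, e⟫_ℝ * H y)
    (hMA : ∀ f : Sp d → E, Continuous f → HasCompactSupport f → ∀ (R : ℝ), 5 ≤ R →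
      ∀ (n : ℕ) (e : E), ‖e‖ = 1 → ∀ (x : Sp d) (S : Set (Sp d)), MeasurableSet S →
      ∀ (H : Sp d → ℝ) (N h0 : ℝ), 0 < h0 → TFn 2 N H → (∀ y, 0 ≤ H y) →
        (∀ y, R - 2 ≤ ‖y - x‖ → H y = 0) → (∀ y z, y ∈ S → ‖z - y‖ ≤ 2 → h0 ≤ H z) →
        h0 * (∫ y in S, ‖fl b ε ((1 / 2) ^ n) f (n - 1) y‖) ≤
          (∫ y, ⟪f y, e⟫_ℝ * H y) + CM * N * DD b ε R ((1 / 2) ^ n) f n x e)
    {R0 N2 N5 : ℝ} (hR0 : 400 + 8 * d ≤ R0)
    (hN2 : ∀ (ν : Sp d) (c : ℝ), ‖ν‖ = 1 → |c| ≤ R0 + 1 → TFn 2 N2 (CT5.gq R0 ν c))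
    (hN5 : TFn 2 N5 (zR (R0 + 5) : Sp d → ℝ))
    {R : ℝ} (hR : 3 * R0 + 20 ≤ R) {f : Sp d → E} (hf : Continuous f) (hfc : HasCompactSupport f)
    {s0 : ℝ} (hs : 0 < s0) {e : E} (he : ‖e‖ = 1) {ν : Sp d} (hν : ‖ν‖ = 1) {c : ℝ}
    (i : ℕ) {P : Cell d} (hi : i ≤ P.1)
    (hloc : |ht ν c (xC s0 (up 9 P))| ≤ (R0 + 1) * lev s0 (P.1 + 9))
    (S : Finset (Cell d)) (hS : S ⊆ dn i P)
    (hfar : ∀ Q ∈ S, 16 * R0 * lev s0 Q.1 ≤ |ht ν c (xC s0 Q)|) :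
    ∑ Q ∈ S, cw s0 Q * mC b ε (R0 + 3) s0 f Q ≤
      cw s0 (up 9 P) * (((2 ^ i) ^ d : ℕ) * (2 ^ (i + 9)) ^ 2 *
          bb R0 s0 f (P.1 + 9) (xC s0 (up 9 P)) e ν c +
        CZ * (|(((2 ^ i) ^ d : ℕ) : ℝ) * (2 ^ (i + 9)) ^ 2| * N2 +
          ((2 ^ i) ^ d : ℕ) * (max 1 |(2 : ℝ) ^ (i + 9)| ^ 2 * N5)) *
          DD b ε R s0 f (P.1 + 9) (xC s0 (up 9 P)) e) +
      ((2 ^ i) ^ d : ℕ) * (cw s0 P * (CM * N5 * ((2 ^ (i + 9)) ^ d / 2 ^ (i + 9) * 4 ^ (i + 9) *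
        DD b ε R s0 f (P.1 + 9) (xC s0 (up 9 P)) e))) := by
  classical
  have hd0 : (0 : ℝ) ≤ d := Nat.cast_nonneg d
  have hR1 : 0 < R0 := by linarith
  set m := i + 9 with hm
  set x9 := xC s0 (up 9 P) with hx9
  set T := lev s0 (P.1 + 9) with hT
  set t := lev s0 (P.1 - i) with ht1
  set Nc : ℝ := (((2 ^ i) ^ d : ℕ) : ℝ) with hNc
  set CA : ℝ := Nc * (2 ^ m) ^ 2 with hCA
  set DD9 := DD b ε R s0 f (P.1 + 9) x9 e with hDD9
  have hDD0 : 0 ≤ DD9 := TU.DD_nonneg b ε R hs f _ _ he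
  have hT0 : 0 < T := lev_pos hs _
  have ht0 : 0 < t := lev_pos hs _
  have hlv : P.1 - i + m = P.1 + 9 := by omega
  have hTt : T = 2 ^ m * t := by
    rw [hT, ← hlv, lev_add]
  have hQ1 : ∀ Q ∈ S, Q.1 = P.1 - i := fun Q hQ => CT1.lvl_dn (hS hQ)
  have hup : ∀ Q ∈ S, up m Q = up 9 P := by
    intro Q hQ
    have h1 := (mem_dn hi).1 (hS hQ)
    rw [← h1, up_up]
  have hxQ : ∀ Q ∈ S, ‖x9 - xC s0 Q‖ ≤ Real.sqrt d * T := by
    intro Q hQ
    have h1 := CT1.cen_sub_up hs m Q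
    rw [hup Q hQ, hQ1 Q hQ, hlv, norm_sub_rev] at h1
    exact h1
  have hsd : Real.sqrt d ≤ R0 / 8 := by
    rw [Real.sqrt_le_left (by linarith)]
    nlinarith
  have hsd0 := Real.sqrt_nonneg (d : ℝ)
  have h2m : (512 : ℝ) ≤ 2 ^ m := by
    rw [hm, pow_add]
    have : (1 : ℝ) ≤ 2 ^ i := one_le_pow₀ (by norm_num)
    norm_num
    linarith
  have hN5' := TU.TFn_nonneg hN5
  have hcard : (S.card : ℝ) ≤ Nc := by
    rw [hNc, ← card_dn i P]
    exact_mod_cast Finset.card_le_card hS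
  have hcwP := cw_nonneg hs P
  set K : ℝ := (2 ^ m) ^ d / 2 ^ m * 4 ^ m with hK
  have hK0 : 0 ≤ K := by positivity
  -- step 1: the masses
  have step1 : ∀ Q ∈ S, cw s0 Q * mC b ε (R0 + 3) s0 f Q ≤
      (∫ y, ⟪f y, e⟫_ℝ * zR (R0 + 5) ((1 / t) • (y - xC s0 Q))) +
        cw s0 P * (CM * N5 * (K * DD9)) := by
    intro Q hQ
    have hQ1' := hQ1 Q hQ
    have htQ : lev s0 Q.1 = t := by rw [hQ1']
    have hfc' := CT5.rs_cs hfc (xC s0 Q) (t := lev s0 Q.1) (by rw [htQ]; exact ht0)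
    have hf' := CT5.rs_cont hf (xC s0 Q) (lev s0 Q.1)
    have h1 := hMA (rs (xC s0 Q) (lev s0 Q.1) f) hf' hfc' R (by linarith) Q.1 e he 0
      (ball (0 : Sp d) (R0 + 3)) measurableSet_ball (zR (R0 + 5)) N5 1 one_pos hN5
      (TU.zR_nonneg (R0 + 5))
      (fun y hy => TU.zR_zero (by rw [sub_zero] at hy; linarith))
      (fun y z hy hz => by
        have h2 := norm_add_le (z - y) y
        rw [sub_add_cancel] at h2
        have h3 := mem_ball_zero_iff.1 hy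
        rw [TU.zR_one (by linarith)])
    rw [CT5.DD_fr b ε R hs f Q.1 (xC s0 Q) e, ← CT5.ma_u, CT5.ma_fr b ε (R0 + 3) hs f,
      one_mul] at h1
    have hB : ball (xC s0 Q) (R * lev s0 Q.1) ⊆ ball x9 (R * lev s0 (Q.1 + m)) := by
      refine ball_subset_ball' ?_
      rw [dist_comm, dist_eq_norm, hQ1', hlv, ← hT, ← ht1]
      have h2 := hxQ Q hQ
      have h3 : Real.sqrt d * T ≤ R0 / 8 * T := mul_le_mul_of_nonneg_right hsd hT0.le
      have h4 : t ≤ T / 2 := by rw [hTt]; nlinarith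
      have h5 : R * t ≤ R * (T / 2) := mul_le_mul_of_nonneg_left h4 (by linarith)
      nlinarith
    have h2 := CT5.DD_mono hb ε hf hfc hs Q.1 m hB he
    have h2' : DD b ε R s0 f Q.1 (xC s0 Q) e ≤ K * DD9 := by
      refine h2.trans (le_of_eq ?_)
      rw [hDD9, hQ1', hlv]
    have h3 : ∫ y, ⟪rs (xC s0 Q) (lev s0 Q.1) f y, e⟫_ℝ * zR (R0 + 5) y =
        nw s0 Q * ∫ y, ⟪f y, e⟫_ℝ * zR (R0 + 5) ((1 / t) • (y - xC s0 Q)) := by
      have h4 := TU.frame_int f e (xC s0 Q) (t := lev s0 Q.1) (by rw [htQ]; exact ht0)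
        (fun y => zR (R0 + 5) ((1 / t) • (y - xC s0 Q)))
      unfold nw
      rw [← h4]
      congr 1
      ext y
      have e1 : (1 / t) • (xC s0 Q + lev s0 Q.1 • y - xC s0 Q) = y := by
        rw [htQ, add_sub_cancel_left, smul_smul, one_div, inv_mul_cancel₀ ht0.ne', one_smul]
      simp only [e1]
    have hcw := cw_nonneg hs Q
    have h5 := mul_le_mul_of_nonneg_left h1 hcw
    rw [h3, mul_add, ← mul_assoc, CT1.cw_nw hd hs, one_mul] at h5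
    refine h5.trans (add_le_add le_rfl ?_)
    have h6 : cw s0 Q ≤ cw s0 P := by
      unfold cw
      refine pow_le_pow_left₀ (lev_pos hs _).le ?_ _
      rw [hQ1']
      exact CT1.MAlev hs (by omega)
    have h7 : CM * N5 * DD b ε R s0 f Q.1 (xC s0 Q) e ≤ CM * N5 * (K * DD9) :=
      mul_le_mul_of_nonneg_left h2' (by positivity)
    exact mul_le_mul h6 h7 (mul_nonneg (by positivity) (TU.DD_nonneg b ε R hs f _ _ he)) hcwP
  -- step 3: Lemma Z in the frame of the ninth ancestor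
  set γ9 := -(ht ν c x9 / T) with hγ9
  have hγ1 : |γ9| ≤ R0 + 1 := by
    rw [hγ9, abs_neg, abs_div, abs_of_pos hT0, div_le_iff₀ hT0]
    exact hloc
  set F9 := rs x9 T f with hF9
  have hFc : Continuous F9 := CT5.rs_cont hf x9 T
  have hFs : HasCompactSupport F9 := CT5.rs_cs hfc x9 hT0
  have hpt : ∀ (Q : Cell d) (w : Sp d), (1 / t) • (x9 + T • w - xC s0 Q) =
      (1 / t) • (x9 - xC s0 Q) + (2 : ℝ) ^ m • w := by
    intro Q w
    rw [add_sub_right_comm, smul_add, smul_smul, hTt]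
    congr 2
    field_simp
  have h1 := hN2 ν γ9 hν hγ1
  have h2 : TFn 2 (Nc * (max 1 |(2 : ℝ) ^ m| ^ 2 * N5))
      (fun w => ∑ Q ∈ S, zR (R0 + 5) ((1 / t) • (x9 - xC s0 Q) + (2 : ℝ) ^ m • w)) :=
    TU.TFn_mono (TFn_sum S (fun Q w => zR (R0 + 5) ((1 / t) • (x9 - xC s0 Q) + (2 : ℝ) ^ m • w))
      fun Q _ => TU.TFn_aff hN5 _ (by positivity)) le_rfl
      (mul_le_mul_of_nonneg_right hcard (by positivity))
  have h3 := TU.TFn_sub (TU.TFn_const_mul h1 CA) h2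
  have hCA0 : 0 ≤ CA := by positivity
  have hnn : ∀ w : Sp d, 0 ≤ CA * CT5.gq R0 ν γ9 w -
      ∑ Q ∈ S, zR (R0 + 5) ((1 / t) • (x9 - xC s0 Q) + (2 : ℝ) ^ m • w) := by
    intro w
    by_cases hex : ∃ Q ∈ S, ‖(1 / t) • (x9 - xC s0 Q) + (2 : ℝ) ^ m • w‖ < R0 + 5 + 1
    · obtain ⟨Q, hQ, hlt⟩ := hex
      set y : Sp d := x9 + T • w with hy
      rw [← hpt Q w, ← hy, norm_smul, one_div, norm_inv, Real.norm_of_nonneg ht0.le,
        inv_mul_lt_iff₀ ht0] at hlt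
      have h5 := ht_lip hν c (xC s0 Q) y
      rw [norm_sub_rev] at h5
      have h6 := hfar Q hQ
      rw [hQ1 Q hQ, ← ht1] at h6
      have h7 : t ≤ |ht ν c y| := by nlinarith
      have h8 : ht ν c y / T = ht ν γ9 w := by
        have h9 := CT5.ht_div ν x9 y c hT0
        rw [h9, hγ9, hy, add_sub_cancel_left, smul_smul, one_div, inv_mul_cancel₀ hT0.ne',
          one_smul]
      have h10 : ‖w‖ ≤ R0 := by
        have h11 : ‖T • w‖ ≤ (R0 + 5 + 1) * t + Real.sqrt d * T := by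
          have h12 : T • w = (y - xC s0 Q) - (x9 - xC s0 Q) := by
            rw [hy]
            abel
          rw [h12]
          refine (norm_sub_le _ _).trans (add_le_add ?_ (hxQ Q hQ))
          linarith
        rw [norm_smul, Real.norm_of_nonneg hT0.le] at h11
        have h13 : (R0 + 5 + 1) * t ≤ R0 / 2 * T := by
          rw [hTt]
          have : (R0 + 5 + 1) * t ≤ (R0 / 2 * 2 ^ m) * t := by
            apply mul_le_mul_of_nonneg_right _ ht0.le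
            nlinarith
          linarith
        have h14 : Real.sqrt d * T ≤ R0 / 8 * T := mul_le_mul_of_nonneg_right hsd hT0.le
        have h15 : T * ‖w‖ ≤ T * R0 := by nlinarith
        exact le_of_mul_le_mul_left h15 hT0
      have h16 : ∑ Q ∈ S, zR (R0 + 5) ((1 / t) • (x9 - xC s0 Q) + (2 : ℝ) ^ m • w) ≤ Nc := by
        refine (Finset.sum_le_sum fun Q _ => TU.zR_le_one _ _).trans ?_
        rw [Finset.sum_const, nsmul_eq_mul, mul_one]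
        exact hcard
      have h17 : Nc ≤ CA * CT5.gq R0 ν γ9 w := by
        unfold CT5.gq
        rw [TU.zR_one h10, one_mul, ← h8, hCA, mul_assoc]
        apply le_mul_of_one_le_right (by positivity)
        rw [← mul_pow]
        have h18 : (1 : ℝ) ≤ 2 ^ m * (|ht ν c y| / T) := by
          rw [mul_div_assoc', le_div_iff₀ hT0, one_mul, hTt]
          exact mul_le_mul_of_nonneg_left h7 (by positivity)
        have h19 : (2 ^ m * (ht ν c y / T)) ^ 2 = (2 ^ m * (|ht ν c y| / T)) ^ 2 := by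
          rw [mul_pow, mul_pow, div_pow, div_pow, sq_abs]
        rw [h19]
        exact one_le_pow₀ h18
      linarith
    · push Not at hex
      rw [Finset.sum_eq_zero fun Q hQ => TU.zR_zero (hex Q hQ), sub_zero]
      exact mul_nonneg hCA0 (CT5.gq_nonneg _ _ _ _)
  have hout : ∀ w : Sp d, R - 2 ≤ ‖w - 0‖ → CA * CT5.gq R0 ν γ9 w -
      ∑ Q ∈ S, zR (R0 + 5) ((1 / t) • (x9 - xC s0 Q) + (2 : ℝ) ^ m • w) = 0 := by
    intro w hw
    rw [sub_zero] at hw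
    rw [CT5.gq_zero ν γ9 (by linarith), mul_zero, zero_sub, neg_eq_zero]
    apply Finset.sum_eq_zero
    intro Q hQ
    apply TU.zR_zero
    have h4 := norm_sub_norm_le ((2 : ℝ) ^ m • w) (-((1 / t) • (x9 - xC s0 Q)))
    rw [norm_smul, norm_neg, sub_neg_eq_add, Real.norm_of_nonneg (by positivity),
      add_comm _ ((1 / t) • (x9 - xC s0 Q))] at h4
    have h5 : ‖(1 / t) • (x9 - xC s0 Q)‖ ≤ R0 / 8 * 2 ^ m := by
      rw [norm_smul, one_div, norm_inv, Real.norm_of_nonneg ht0.le, inv_mul_le_iff₀ ht0]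
      refine (hxQ Q hQ).trans ?_
      rw [hTt]
      have := mul_le_mul_of_nonneg_right hsd (by positivity : (0 : ℝ) ≤ 2 ^ m * t)
      linarith
    have h6 : R0 + 5 + 1 ≤ 2 ^ m * ‖w‖ - R0 / 8 * 2 ^ m := by
      have h7 : 2 ^ m * (2 * R0) ≤ 2 ^ m * ‖w‖ :=
        mul_le_mul_of_nonneg_left (by linarith) (by positivity)
      nlinarith
    linarith
  have key := hZ F9 hFc hFs R (by linarith) (P.1 + 9) e he 0 _ _ h3 hnn hout
  rw [CT5.DD_fr b ε R hs f (P.1 + 9) x9 e] at key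
  have i1 : Integrable fun w => ⟪F9 w, e⟫_ℝ * CT5.gq R0 ν γ9 w :=
    CT5.gq_int hR1 hFc hFs e ν γ9
  have hzc : Continuous (zR (R0 + 5) : Sp d → ℝ) := hN5.smooth.continuous
  have i2 : ∀ Q : Cell d, Integrable fun w => ⟪F9 w, e⟫_ℝ *
      zR (R0 + 5) ((1 / t) • (x9 - xC s0 Q) + (2 : ℝ) ^ m • w) :=
    fun Q => cs_comp_aff hzc _ hFc hFs e
  have e1 : ∫ w, ⟪F9 w, e⟫_ℝ * CT5.gq R0 ν γ9 w = bb R0 s0 f (P.1 + 9) x9 e ν c := by
    rw [CT5.bb_fr R0 hs f (P.1 + 9) x9 e ν c]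
    rfl
  have e2 : ∀ Q : Cell d, ∫ w, ⟪F9 w, e⟫_ℝ *
      zR (R0 + 5) ((1 / t) • (x9 - xC s0 Q) + (2 : ℝ) ^ m • w) =
      T / T ^ d * ∫ y, ⟪f y, e⟫_ℝ * zR (R0 + 5) ((1 / t) • (y - xC s0 Q)) := by
    intro Q
    rw [← TU.frame_int f e x9 hT0]
    simp only [hpt]
    rfl
  have e4 : ∫ w, ⟪F9 w, e⟫_ℝ * (CA * CT5.gq R0 ν γ9 w -
      ∑ Q ∈ S, zR (R0 + 5) ((1 / t) • (x9 - xC s0 Q) + (2 : ℝ) ^ m • w)) =
      CA * bb R0 s0 f (P.1 + 9) x9 e ν c -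
        T / T ^ d * ∑ Q ∈ S, ∫ y, ⟪f y, e⟫_ℝ * zR (R0 + 5) ((1 / t) • (y - xC s0 Q)) := by
    rw [← e1, Finset.mul_sum, ← Finset.sum_congr rfl fun Q _ => e2 Q,
      ← integral_finsetSum _ fun Q _ => i2 Q, ← integral_const_mul,
      ← integral_sub (i1.const_mul _) (integrable_finsetSum _ fun Q _ => i2 Q)]
    congr 1
    ext w
    rw [mul_sub, Finset.mul_sum]
    ring
  rw [e4] at key
  have hcw9 := cw_nonneg hs (up 9 P)
  have hcn : cw s0 (up 9 P) * (T / T ^ d) = 1 := CT1.cw_nw hd hs (up 9 P)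
  have step3 : ∑ Q ∈ S, ∫ y, ⟪f y, e⟫_ℝ * zR (R0 + 5) ((1 / t) • (y - xC s0 Q)) ≤
      cw s0 (up 9 P) * (CA * bb R0 s0 f (P.1 + 9) x9 e ν c +
        CZ * (|CA| * N2 + Nc * (max 1 |(2 : ℝ) ^ m| ^ 2 * N5)) * DD9) := by
    have h4 : T / T ^ d * ∑ Q ∈ S, ∫ y, ⟪f y, e⟫_ℝ * zR (R0 + 5) ((1 / t) • (y - xC s0 Q)) ≤
        CA * bb R0 s0 f (P.1 + 9) x9 e ν c +
        CZ * (|CA| * N2 + Nc * (max 1 |(2 : ℝ) ^ m| ^ 2 * N5)) * DD9 := by
      linarith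
    have h5 := mul_le_mul_of_nonneg_left h4 hcw9
    rw [← mul_assoc, hcn, one_mul] at h5
    exact h5
  refine (Finset.sum_le_sum step1).trans ?_
  rw [Finset.sum_add_distrib, Finset.sum_const, nsmul_eq_mul]
  refine add_le_add step3 ?_
  exact mul_le_mul_of_nonneg_right hcard (by positivity)

/-! ## cells far below the top -/

lemma overlap_S (ν : Measure (Sp d)) {s0 ρ : ℝ} (hs : 0 < s0) (hρ : 0 ≤ ρ) {i : ℕ} {P : Cell d}
    (S : Finset (Cell d)) (hS : S ⊆ dn i P) {g : Sp d → ℝ} {A : Set (Sp d)}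
    (hA : MeasurableSet A) (hg : IntegrableOn g A ν) (h0 : ∀ y, 0 ≤ g y)
    (hsub : ∀ Q ∈ S, ball (xC s0 Q) (ρ * lev s0 Q.1) ⊆ A) :
    ∑ Q ∈ S, ∫ y in ball (xC s0 Q) (ρ * lev s0 Q.1), g y ∂ν ≤
      (2 * ρ + 1) ^ d * ∫ y in A, g y ∂ν := by
  classical
  have hQ1 : ∀ Q ∈ S, Q.1 = P.1 - i := fun Q hQ => CT1.lvl_dn (hS hQ)
  have h1 : ∑ Q ∈ S, ∫ y in ball (xC s0 Q) (ρ * lev s0 Q.1), g y ∂ν =
      ∑ p ∈ S.image Prod.snd,
        ∫ y in ball (lev s0 (P.1 - i) • lat p) (ρ * lev s0 (P.1 - i)), g y ∂ν := by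
    rw [Finset.sum_image]
    · refine Finset.sum_congr rfl fun Q hQ => ?_
      unfold xC cen
      rw [hQ1 Q hQ]
    · intro Q hQ Q' hQ' he
      exact Prod.ext ((hQ1 Q hQ).trans (hQ1 Q' hQ').symm) he
  rw [h1]
  refine CT1.overlap ν (lev s0 (P.1 - i)) ρ (lev_pos hs _) hρ _ hA hg h0 ?_
  intro p hp
  obtain ⟨Q, hQ, rfl⟩ := Finset.mem_image.1 hp
  have h2 := hsub Q hQ
  unfold xC cen at h2
  rw [hQ1 Q hQ] at h2
  exact h2

lemma meas_U (s0 : ℝ) (S : Finset (Cell d)) (r : ℝ) :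
    MeasurableSet (⋃ Q ∈ S, ball (xC s0 Q) r) :=
  S.measurableSet_biUnion fun _ _ => measurableSet_ball

/-- one step of the transfer of a union of balls -/
lemma stepU {b : Sp d → ℝ} (hb : AK b) (hev : ∀ x, b (-x) = b x)
    (hρ : ∀ x, 1 / 2 ≤ ‖x‖ → b x = 0) {ε s0 : ℝ}
    (hε : 0 < ε) (hε1 : ε ≤ 1) (hs : 0 < s0) {f : Sp d → E} (hf : Continuous f)
    (hc : HasCompactSupport f) (S : Finset (Cell d)) (r : ℝ) (j : ℕ) :
    ∫ y in ⋃ Q ∈ S, ball (xC s0 Q) r, ‖fl b ε s0 f j y‖ ≤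
      (∫ y in ⋃ Q ∈ S, ball (xC s0 Q) (r + lev s0 j), ‖fl b ε s0 f (j + 1) y‖) +
        ∫ y in ⋃ Q ∈ S, ball (xC s0 Q) (r + lev s0 j), gm b ε s0 f j y := by
  have hl := lev_pos hs j
  have hl1 := lev_succ s0 j
  have hs' : 0 < ε * lev s0 (j + 1) := mul_pos hε (lev_pos hs _)
  have hn : Continuous (fun y => ‖fl b ε s0 f j y‖) := (fl_cont hb ε s0 hf j).norm
  have h1 := hb.setInt_le_avk hev hρ (LB.of_cont hn) (fl_cs hb ε s0 hc j).norm
    (fun _ => norm_nonneg _) hs' (E := ⋃ Q ∈ S, ball (xC s0 Q) r)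
    (E' := ⋃ Q ∈ S, ball (xC s0 Q) (r + lev s0 j))
    (meas_U s0 S r) (meas_U s0 S _) (fun y hy z hz => by
      rw [Set.mem_iUnion₂] at hy ⊢
      obtain ⟨Q, hQ, hy⟩ := hy
      refine ⟨Q, hQ, ?_⟩
      rw [mem_ball] at hy ⊢
      have h2 := dist_triangle z y (xC s0 Q)
      rw [← dist_eq_norm] at hz
      have h3 : 1 / 2 * (ε * lev s0 (j + 1)) ≤ lev s0 j := by
        rw [hl1]
        nlinarith
      linarith)
  have i1 : Integrable (fun y => ‖fl b ε s0 f (j + 1) y‖) :=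
    (fl_cont hb ε s0 hf (j + 1)).norm.integrable_of_hasCompactSupport (fl_cs hb ε s0 hc (j + 1)).norm
  have i2 : Integrable (gm b ε s0 f j) :=
    (CT1.gm_cont hb ε s0 hf j).integrable_of_hasCompactSupport (CT1.gm_cs hb ε s0 hc j)
  rw [← integral_add i1.integrableOn i2.integrableOn]
  refine h1.trans (le_of_eq ?_)
  congr 1
  funext y
  unfold gm
  ring

/-- transfer of the mass of a union of balls between two levels -/
lemma transferU {b : Sp d → ℝ} (hb : AK b) (hev : ∀ x, b (-x) = b x)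
    (hρ : ∀ x, 1 / 2 ≤ ‖x‖ → b x = 0) {ε s0 : ℝ}
    (hε : 0 < ε) (hε1 : ε ≤ 1) (hs : 0 < s0) {f : Sp d → E} (hf : Continuous f)
    (hc : HasCompactSupport f) (S : Finset (Cell d)) (r : ℝ) (l : ℕ) :
    ∀ (k : ℕ) (A : Set (Sp d)),
      (⋃ Q ∈ S, ball (xC s0 Q) (r + (lev s0 (l + k) - lev s0 l))) ⊆ A →
    ∫ y in ⋃ Q ∈ S, ball (xC s0 Q) r, ‖fl b ε s0 f l y‖ ≤
      (∫ y in ⋃ Q ∈ S, ball (xC s0 Q) (r + (lev s0 (l + k) - lev s0 l)),
        ‖fl b ε s0 f (l + k) y‖) +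
        ∑ j ∈ Finset.Ico l (l + k), ∫ y in A, gm b ε s0 f j y := by
  intro k
  induction k with
  | zero => intro A _; simp
  | succ k ih =>
    intro A hA
    have hl := lev_pos hs (l + k)
    have hl1 : lev s0 (l + (k + 1)) = 2 * lev s0 (l + k) := lev_succ s0 (l + k)
    have h1 := ih A (by
      refine Subset.trans (Set.iUnion₂_mono fun Q _ => ball_subset_ball ?_) hA
      rw [hl1]
      linarith)
    have h2 := stepU hb hev hρ hε hε1 hs hf hc S (r + (lev s0 (l + k) - lev s0 l)) (l + k)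
    have e1 : r + (lev s0 (l + k) - lev s0 l) + lev s0 (l + k) =
        r + (lev s0 (l + (k + 1)) - lev s0 l) := by rw [hl1]; ring
    rw [e1] at h2
    have h3 : ∫ y in ⋃ Q ∈ S, ball (xC s0 Q) (r + (lev s0 (l + (k + 1)) - lev s0 l)),
        gm b ε s0 f (l + k) y ≤ ∫ y in A, gm b ε s0 f (l + k) y := by
      refine setIntegral_mono_set ?_ ?_ ?_
      · exact ((CT1.gm_cont hb ε s0 hf _).integrable_of_hasCompactSupport
          (CT1.gm_cs hb ε s0 hc _)).integrableOn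
      · exact Filter.Eventually.of_forall fun y => CT1.gm_nonneg hb ε s0 f _ y
      · exact hA.eventuallyLE
    have e2 : l + (k + 1) = l + k + 1 := rfl
    have e3 : ∑ j ∈ Finset.Ico l (l + (k + 1)), ∫ y in A, gm b ε s0 f j y =
        (∑ j ∈ Finset.Ico l (l + k), ∫ y in A, gm b ε s0 f j y) +
          ∫ y in A, gm b ε s0 f (l + k) y := by
      rw [e2, Finset.sum_Ico_succ_top (by omega)]
    rw [e3]
    have e4 : ∫ y in ⋃ Q ∈ S, ball (xC s0 Q) (r + (lev s0 (l + (k + 1)) - lev s0 l)),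
        ‖fl b ε s0 f (l + (k + 1)) y‖ =
      ∫ y in ⋃ Q ∈ S, ball (xC s0 Q) (r + (lev s0 (l + (k + 1)) - lev s0 l)),
        ‖fl b ε s0 f (l + k + 1) y‖ := rfl
    rw [e4]
    linarith

lemma union_le {ι : Type} (S : Finset ι) (B : ι → Set (Sp d)) (hB : ∀ Q, MeasurableSet (B Q))
    {g : Sp d → ℝ} (hg : Integrable g) (h0 : ∀ y, 0 ≤ g y) :
    ∫ y in ⋃ Q ∈ S, B Q, g y ≤ ∑ Q ∈ S, ∫ y in B Q, g y := by
  classical
  induction S using Finset.induction_on with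
  | empty => simp
  | insert a S ha ih =>
    rw [Finset.sum_insert ha, Finset.set_biUnion_insert]
    have hm : MeasurableSet (⋃ Q ∈ S, B Q) := S.measurableSet_biUnion fun Q _ => hB Q
    have h1 : B a ∪ (⋃ Q ∈ S, B Q) = B a ∪ ((⋃ Q ∈ S, B Q) \ B a) := Set.union_sdiff_self.symm
    rw [h1, setIntegral_union disjoint_sdiff_right (hm.diff (hB a)) hg.integrableOn
      hg.integrableOn]
    have h2 : ∫ y in (⋃ Q ∈ S, B Q) \ B a, g y ≤ ∫ y in ⋃ Q ∈ S, B Q, g y :=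
      setIntegral_mono_set hg.integrableOn (Filter.Eventually.of_forall fun y => h0 y)
        Set.sdiff_subset.eventuallyLE
    linarith

lemma farB (hd : 1 ≤ d) {b : Sp d → ℝ} (hb : AK b) (hev : ∀ x, b (-x) = b x)
    (hρ : ∀ x, 1 / 2 ≤ ‖x‖ → b x = 0) {ε s0 R0 : ℝ}
    (hε : 0 < ε) (hε1 : ε ≤ 1) (hs : 0 < s0) (hR0 : 400 + 8 * d ≤ R0)
    {f : Sp d → E} (hf : Continuous f) (hc : HasCompactSupport f)
    {i n0 : ℕ} {P : Cell d} (hi : i ≤ P.1) (hn : n0 < i) (S : Finset (Cell d))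
    (hS : S ⊆ dn i P) [DecidableEq (Cell d)] :
    ∑ Q ∈ S, cw s0 Q * mC b ε (R0 + 3) s0 f Q ≤
      (2 * (R0 + 3) + 1) ^ d * ((∑ Q ∈ S.image (up (i - n0)), cw s0 Q * mC b ε (R0 + 3) s0 f Q) +
        gC b ε (128 * R0) s0 f i P) := by
  have hd0 : (0 : ℝ) ≤ d := Nat.cast_nonneg d
  have hR1 : 0 < R0 := by linarith
  have hsd : Real.sqrt d ≤ R0 / 8 := by
    rw [Real.sqrt_le_left (by linarith)]
    nlinarith
  have hsd0 := Real.sqrt_nonneg (d : ℝ)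
  have hQ1 : ∀ Q ∈ S, Q.1 = P.1 - i := fun Q hQ => CT1.lvl_dn (hS hQ)
  set t := lev s0 (P.1 - i) with ht1
  set t' := lev s0 (P.1 - n0) with ht'
  have ht0 : 0 < t := lev_pos hs _
  have ht0' : 0 < t' := lev_pos hs _
  have hlP := lev_pos hs P.1
  have htP : t' ≤ lev s0 P.1 := CT1.MAlev hs (by omega)
  have hsucc : t' = 2 * lev s0 (P.1 - n0 - 1) := by
    rw [ht', show P.1 - n0 = P.1 - n0 - 1 + 1 by omega, lev_succ]
    simp
  have htt : t ≤ t' / 2 := by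
    have h1 : t ≤ lev s0 (P.1 - n0 - 1) := CT1.MAlev hs (by omega)
    linarith
  obtain ⟨k, hk⟩ : ∃ k, P.1 - i - 1 + k = P.1 - n0 - 1 :=
    ⟨P.1 - n0 - 1 - (P.1 - i - 1), by omega⟩
  have hl0 := lev_pos hs (P.1 - i - 1)
  set g : Sp d → ℝ := fun y => ‖fl b ε s0 f (P.1 - i - 1) y‖ with hg
  have hgi : Integrable g := (fl_cont hb ε s0 hf _).norm.integrable_of_hasCompactSupport
    (fl_cs hb ε s0 hc _).norm
  have e1 : ∑ Q ∈ S, cw s0 Q * mC b ε (R0 + 3) s0 f Q =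
      ∑ Q ∈ S, ∫ y in ball (xC s0 Q) ((R0 + 3) * lev s0 Q.1), g y := by
    refine Finset.sum_congr rfl fun Q hQ => ?_
    rw [CT1.cw_mC hd hs, hQ1 Q hQ]
  have h1 := overlap_S (volume : Measure (Sp d)) (s0 := s0) (ρ := R0 + 3) hs (by linarith) S hS
    (g := g) (A := ⋃ Q ∈ S, ball (xC s0 Q) ((R0 + 3) * t)) (meas_U s0 S _) hgi.integrableOn
    (fun _ => norm_nonneg _) (by
      intro Q hQ
      rw [hQ1 Q hQ]
      exact Set.subset_biUnion_of_mem (u := fun Q => ball (xC s0 Q) ((R0 + 3) * t)) hQ)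
  have h2 := transferU hb hev hρ hε hε1 hs hf hc S ((R0 + 3) * t) (P.1 - i - 1) k
    (ball (xC s0 P) (128 * R0 * lev s0 P.1)) (by
      refine Set.iUnion₂_subset fun Q hQ => ball_subset_ball' ?_
      rw [hk, dist_eq_norm]
      have h3 := CT1.cen_sub_dn hs hi (hS hQ)
      have h4 := mul_le_mul_of_nonneg_right hsd hlP.le
      have h5 : (R0 + 3) * t ≤ (R0 + 3) * lev s0 P.1 :=
        mul_le_mul_of_nonneg_left (by linarith) (by linarith)
      nlinarith)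
  rw [hk] at h2
  have hgi' : Integrable fun y => ‖fl b ε s0 f (P.1 - n0 - 1) y‖ :=
    (fl_cont hb ε s0 hf _).norm.integrable_of_hasCompactSupport (fl_cs hb ε s0 hc _).norm
  have h3 : ∫ y in ⋃ Q ∈ S, ball (xC s0 Q)
      ((R0 + 3) * t + (lev s0 (P.1 - n0 - 1) - lev s0 (P.1 - i - 1))),
        ‖fl b ε s0 f (P.1 - n0 - 1) y‖ ≤
      ∑ Q ∈ S.image (up (i - n0)), cw s0 Q * mC b ε (R0 + 3) s0 f Q := by
    have h4 : (⋃ Q ∈ S, ball (xC s0 Q)
        ((R0 + 3) * t + (lev s0 (P.1 - n0 - 1) - lev s0 (P.1 - i - 1)))) ⊆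
        ⋃ Q ∈ S.image (up (i - n0)), ball (xC s0 Q) ((R0 + 3) * t') := by
      refine Set.iUnion₂_subset fun Q hQ => ?_
      refine Subset.trans ?_ (Set.subset_biUnion_of_mem
        (u := fun Q => ball (xC s0 Q) ((R0 + 3) * t'))
        (Finset.mem_image_of_mem (up (i - n0)) hQ))
      refine ball_subset_ball' ?_
      rw [dist_eq_norm]
      have h5 := CT1.cen_sub_up hs (i - n0) Q
      rw [hQ1 Q hQ, show P.1 - i + (i - n0) = P.1 - n0 by omega, ← ht'] at h5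
      have h6 := mul_le_mul_of_nonneg_right hsd ht0'.le
      have h7 : (R0 + 3) * t ≤ (R0 + 3) * (t' / 2) :=
        mul_le_mul_of_nonneg_left htt (by linarith)
      nlinarith
    refine (setIntegral_mono_set hgi'.integrableOn
      (Filter.Eventually.of_forall fun y => norm_nonneg _) h4.eventuallyLE).trans ?_
    refine (union_le _ _ (fun Q => measurableSet_ball) hgi' fun y => norm_nonneg _).trans
      (le_of_eq ?_)
    refine Finset.sum_congr rfl fun Q hQ => ?_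
    obtain ⟨Q0, hQ0, rfl⟩ := Finset.mem_image.1 hQ
    have h5 : (up (i - n0) Q0).1 = P.1 - n0 := by
      rw [up_fst, hQ1 Q0 hQ0]
      omega
    rw [CT1.cw_mC hd hs, h5]
  have h4 : ∑ j ∈ Finset.Ico (P.1 - i - 1) (P.1 - n0 - 1),
      ∫ y in ball (xC s0 P) (128 * R0 * lev s0 P.1), gm b ε s0 f j y ≤
      gC b ε (128 * R0) s0 f i P := by
    unfold gC
    refine Finset.sum_le_sum_of_subset_of_nonneg ?_ fun j _ _ =>
      integral_nonneg fun y => CT1.gm_nonneg hb ε s0 f j y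
    intro j hj
    have := Finset.mem_Ico.1 hj
    exact Finset.mem_Ico.2 (by omega)
  rw [e1]
  refine h1.trans (mul_le_mul_of_nonneg_left ?_ (by
    have : 0 ≤ 2 * (R0 + 3) + 1 := by linarith
    positivity))
  exact h2.trans (add_le_add h3 h4)

end Flds

/-! ## the measure -/

/-- the integrand of the second moment -/
def Gm (ν : Sp d) (s : ℝ) (η : Sp d) : ℝ :=
  (⟪η, ν⟫_ℝ - s) ^ 2 / (1 ^ 2 + ‖0 - η‖ ^ 2) ^ 2 * kk 1 (0 - η)

lemma kk1 (η : Sp d) : kk 1 (0 - η) = 1 / Real.sqrt (1 + ‖η‖ ^ 2) ^ d := by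
  unfold kk
  rw [zero_sub, norm_neg, one_pow]

lemma Gm_nonneg (ν : Sp d) (s : ℝ) (η : Sp d) : 0 ≤ Gm ν s η := by
  unfold Gm
  rw [kk1]
  positivity

lemma Gm_le {ν : Sp d} (hν : ‖ν‖ = 1) (s : ℝ) (η : Sp d) : Gm ν s η ≤ 2 * (1 + s ^ 2) := by
  unfold Gm
  rw [kk1, zero_sub, norm_neg, one_pow]
  have h1 : (1 : ℝ) ≤ Real.sqrt (1 + ‖η‖ ^ 2) := by
    rw [Real.one_le_sqrt]
    nlinarith [sq_nonneg ‖η‖]
  have h2 : 1 / Real.sqrt (1 + ‖η‖ ^ 2) ^ d ≤ 1 := by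
    rw [div_le_one (by positivity)]
    exact one_le_pow₀ h1
  have h3 : (⟪η, ν⟫_ℝ - s) ^ 2 ≤ 2 * (1 + s ^ 2) * (1 + ‖η‖ ^ 2) ^ 2 := by
    have h4 : |⟪η, ν⟫_ℝ| ≤ ‖η‖ := by
      have := abs_real_inner_le_norm η ν
      rwa [hν, mul_one] at this
    have h5 : ⟪η, ν⟫_ℝ ^ 2 ≤ ‖η‖ ^ 2 := by
      rw [← sq_abs ⟪η, ν⟫_ℝ]
      exact pow_le_pow_left₀ (abs_nonneg _) h4 2
    have h6 : (⟪η, ν⟫_ℝ - s) ^ 2 ≤ 2 * (⟪η, ν⟫_ℝ ^ 2 + s ^ 2) := by
      nlinarith [sq_nonneg (⟪η, ν⟫_ℝ + s)]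
    have h7 : ‖η‖ ^ 2 + s ^ 2 ≤ (1 + s ^ 2) * (1 + ‖η‖ ^ 2) := by
      nlinarith [mul_nonneg (sq_nonneg s) (sq_nonneg ‖η‖)]
    have h8 : (1 + ‖η‖ ^ 2) ≤ (1 + ‖η‖ ^ 2) ^ 2 := by
      nlinarith [sq_nonneg ‖η‖, sq_nonneg (‖η‖ ^ 2)]
    have h9 : (1 + s ^ 2) * (1 + ‖η‖ ^ 2) ≤ (1 + s ^ 2) * (1 + ‖η‖ ^ 2) ^ 2 :=
      mul_le_mul_of_nonneg_left h8 (by positivity)
    nlinarith
  have h4 : (⟪η, ν⟫_ℝ - s) ^ 2 / (1 + ‖η‖ ^ 2) ^ 2 ≤ 2 * (1 + s ^ 2) := by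
    rw [div_le_iff₀ (by positivity)]
    exact h3
  calc (⟪η, ν⟫_ℝ - s) ^ 2 / (1 + ‖η‖ ^ 2) ^ 2 * (1 / Real.sqrt (1 + ‖η‖ ^ 2) ^ d)
      ≤ (2 * (1 + s ^ 2)) * 1 := mul_le_mul h4 h2 (by positivity) (by positivity)
    _ = _ := mul_one _

lemma Gm_cont (ν : Sp d) (s : ℝ) : Continuous (Gm ν s) := by
  unfold Gm
  refine Continuous.mul (Continuous.div (by fun_prop) (by fun_prop) fun η => ?_) ?_
  · positivity
  · have h : (fun η : Sp d => kk 1 (0 - η)) = fun η => 1 / Real.sqrt (1 + ‖η‖ ^ 2) ^ d := by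
      funext η
      exact kk1 η
    rw [h]
    refine Continuous.div (by fun_prop) (by fun_prop) fun η => ?_
    positivity

lemma Gm_ge {ν : Sp d} {s R0 δ : ℝ} (hδ : 0 ≤ δ) {η : Sp d} (h1 : δ ≤ |⟪η, ν⟫_ℝ - s|)
    (h2 : ‖η‖ ≤ R0) :
    δ ^ 2 / (1 + R0 ^ 2) ^ 2 * (1 / Real.sqrt (1 + R0 ^ 2) ^ d) ≤ Gm ν s η := by
  unfold Gm
  rw [kk1, zero_sub, norm_neg, one_pow]
  have h3 : ‖η‖ ^ 2 ≤ R0 ^ 2 := pow_le_pow_left₀ (norm_nonneg _) h2 2
  have h4 : δ ^ 2 ≤ (⟪η, ν⟫_ℝ - s) ^ 2 := by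
    rw [← sq_abs (⟪η, ν⟫_ℝ - s)]
    exact pow_le_pow_left₀ hδ h1 2
  have h5 : Real.sqrt (1 + ‖η‖ ^ 2) ≤ Real.sqrt (1 + R0 ^ 2) := Real.sqrt_le_sqrt (by linarith)
  have h6 : 0 < Real.sqrt (1 + ‖η‖ ^ 2) := Real.sqrt_pos.2 (by positivity)
  gcongr

lemma measP (hd : 1 ≤ d) {C' : ℝ} {μ : Measure (Sp d)} (hμ : Gro C' μ) {s0 ρ R0 : ℝ} (hs : 0 < s0)
    (hρ : 1 ≤ ρ) (hρR : 8 * ρ ≤ R0) (hR0 : 400 + 8 * d ≤ R0) {ν : Sp d} (hν : ‖ν‖ = 1) (c : ℝ)
    {i n0 : ℕ} {P : Cell d} (hi : i ≤ P.1) (S : Finset (Cell d)) (hS : S ⊆ dn i P)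
    (hfar : ∀ Q ∈ S, ∀ y : Sp d, ‖y - xC s0 Q‖ ≤ ρ * lev s0 Q.1 →
      (1 / 2) ^ n0 * lev s0 P.1 ≤ |ht ν c y|) :
    ∑ Q ∈ S, cw s0 Q * oC μ ρ s0 Q ^ 2 ≤
      (2 * ρ + 1) ^ d * ((((1 / 2 : ℝ) ^ n0) ^ 2 / (1 + R0 ^ 2) ^ 2 *
        (1 / Real.sqrt (1 + R0 ^ 2) ^ d))⁻¹ *
      (cw s0 P * (omC μ s0 P * Mo (muQ s0 μ P) ν ((c - ⟪ν, xC s0 P⟫_ℝ) / lev s0 P.1) 2 1 0))) := by
  have hd0 : (0 : ℝ) ≤ d := Nat.cast_nonneg d
  have hR1 : 0 < R0 := by linarith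
  have hfin := hμ.fin
  have hsd : Real.sqrt d ≤ R0 / 8 := by
    rw [Real.sqrt_le_left (by linarith)]
    nlinarith
  have hlP := lev_pos hs P.1
  set sg := (c - ⟪ν, xC s0 P⟫_ℝ) / lev s0 P.1 with hsg
  set κ : ℝ := ((1 / 2 : ℝ) ^ n0) ^ 2 / (1 + R0 ^ 2) ^ 2 * (1 / Real.sqrt (1 + R0 ^ 2) ^ d) with hκ
  have hsq : 0 < Real.sqrt (1 + R0 ^ 2) := Real.sqrt_pos.2 (by positivity)
  have hκ0 : 0 < κ := by positivity
  set O : Set (Sp d) := ⋃ Q ∈ S, ball (xC s0 Q) (ρ * lev s0 (P.1 - i)) with hO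
  have hOm : MeasurableSet O := meas_U s0 S _
  -- the integrand in the frame
  set G : Sp d → ℝ := fun y => Gm ν sg ((1 / lev s0 P.1) • (y - xC s0 P)) with hG
  have hGi : Integrable G μ := by
    refine Integrable.of_bound ?_ (2 * (1 + sg ^ 2)) (Filter.Eventually.of_forall fun y => ?_)
    · exact ((Gm_cont ν sg).comp (by fun_prop)).aestronglyMeasurable
    · rw [Real.norm_of_nonneg (Gm_nonneg _ _ _)]
      exact Gm_le hν _ _
  have hGge : ∀ y ∈ O, κ ≤ G y := by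
    intro y hy
    rw [hO, Set.mem_iUnion₂] at hy
    obtain ⟨Q, hQ, hy⟩ := hy
    rw [mem_ball, dist_eq_norm] at hy
    have hQ1 := CT1.lvl_dn (hS hQ)
    have h1 := hfar Q hQ y (by rw [hQ1]; exact hy.le)
    refine Gm_ge (by positivity) ?_ ?_
    · have h2 : ⟪(1 / lev s0 P.1) • (y - xC s0 P), ν⟫_ℝ - sg = ht ν c y / lev s0 P.1 := by
        rw [hsg, inner_smul_left, real_inner_comm, inner_sub_right]
        unfold ht
        simp only [conj_trivial]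
        field_simp
        ring
      rw [h2, abs_div, abs_of_pos hlP, le_div_iff₀ hlP]
      exact h1
    · rw [norm_smul, one_div, norm_inv, Real.norm_of_nonneg hlP.le, inv_mul_le_iff₀ hlP]
      have h3 : y - xC s0 P = (y - xC s0 Q) + (xC s0 Q - xC s0 P) := by abel
      rw [h3]
      refine (norm_add_le _ _).trans ?_
      have h4 := CT1.cen_sub_dn hs hi (hS hQ)
      have h5 : lev s0 (P.1 - i) ≤ lev s0 P.1 := CT1.MAlev hs (by omega)
      have h6 := mul_le_mul_of_nonneg_right hsd hlP.le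
      have h7 : ρ * lev s0 (P.1 - i) ≤ R0 / 8 * lev s0 P.1 :=
        mul_le_mul (by linarith) h5 (lev_pos hs _).le (by linarith)
      nlinarith
  have e1 : ∑ Q ∈ S, cw s0 Q * oC μ ρ s0 Q ^ 2 =
      ∑ Q ∈ S, ∫ y in ball (xC s0 Q) (ρ * lev s0 Q.1), (1 : ℝ) ∂μ := by
    refine Finset.sum_congr rfl fun Q _ => ?_
    rw [CT1.cw_oC_sq hd hs]
    simp [Measure.real]
  have h1 := overlap_S μ hs (by linarith : 0 ≤ ρ) S hS (g := fun _ => (1 : ℝ)) hOm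
    (integrable_const (1 : ℝ)).integrableOn (fun _ => zero_le_one) (by
      intro Q hQ
      rw [CT1.lvl_dn (hS hQ)]
      exact Set.subset_biUnion_of_mem (u := fun Q => ball (xC s0 Q) (ρ * lev s0 (P.1 - i))) hQ)
  have h2 : ∫ _ in O, (1 : ℝ) ∂μ ≤ κ⁻¹ * ∫ y, G y ∂μ := by
    rw [← integral_indicator hOm, ← integral_const_mul]
    refine integral_mono ((integrable_const (1 : ℝ)).indicator hOm) (hGi.const_mul _) ?_
    intro y
    change O.indicator (fun _ => (1 : ℝ)) y ≤ κ⁻¹ * G y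
    by_cases hy : y ∈ O
    · rw [Set.indicator_of_mem hy]
      have := hGge y hy
      rw [inv_mul_eq_div, le_div_iff₀ hκ0, one_mul]
      exact this
    · rw [Set.indicator_of_notMem hy]
      exact mul_nonneg (by positivity) (Gm_nonneg _ _ _)
  have h3 : ∫ y, G y ∂μ = cw s0 P * (omC μ s0 P * Mo (muQ s0 μ P) ν sg 2 1 0) := by
    have h4 := SC.integral_rsm (xC s0 P) hlP μ (Gm ν sg)
    have h5 : vv (muQ s0 μ P) 1 0 = omC μ s0 P := by
      unfold muQ omC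
      rw [SC.vv_rsm (xC s0 P) hlP μ 1 0, smul_zero, add_zero, mul_one]
    have h6 : omC μ s0 P * Mo (muQ s0 μ P) ν sg 2 1 0 = ∫ η, Gm ν sg η ∂(muQ s0 μ P) := by
      unfold Mo
      rw [h5, mul_div_assoc', mul_comm, mul_div_assoc, div_self, mul_one]
      · rfl
      · have h7 := THm.th_pos hd μ hμ.ne hlP (xC s0 P)
        unfold omC vv
        exact (Real.sqrt_pos.2 h7).ne'
    rw [h6]
    unfold muQ
    rw [h4]
    have h7 := CT1.cw_nw hd hs P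
    unfold nw at h7
    rw [← mul_assoc, h7, one_mul]
  rw [e1]
  refine h1.trans (mul_le_mul_of_nonneg_left ?_ (by
    have : 0 ≤ 2 * ρ + 1 := by linarith
    positivity))
  rw [← h3]
  exact h2

lemma Mo_nonneg (μ : Measure (Sp d)) (ν : Sp d) (s : ℝ) : 0 ≤ Mo μ ν s 2 1 0 := by
  unfold Mo
  exact div_nonneg (integral_nonneg fun η => Gm_nonneg ν s η) (Real.sqrt_nonneg _)

end

end T2

open T2 in
open Classical in
/-- MODULE T2 -/
theorem stmtT2 (hT1 : StmtT1) (hCT3 : StmtCT3) (hMA : StmtMA) (hZ : StmtZ) : StmtT2 := by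
  intro d V E _ _ _ _ _ _ _ L hd hL
  have hd1 : 1 ≤ d := by omega
  obtain ⟨Rt, hRt, ct3⟩ := hCT3 d hd1
  refine ⟨Rt, hRt, ?_⟩
  intro M c0 ε hε hε1 b hb C' R0 γ ρ hC' hR0 hRtR hγ hγd hρ hρR
  have hd0 : (0 : ℝ) ≤ d := Nat.cast_nonneg d
  have hR1 : 0 < R0 := by linarith
  obtain ⟨CT, hCT, ct⟩ := ct3 M c0 ε hε hε1 b hb
  obtain ⟨CZ, hCZ, zz⟩ := TU.Z' hZ hd1 hε hε1 hb
  obtain ⟨CM, hCM, mm⟩ := TU.MA' hMA hd1 hε hε1 hb
  obtain ⟨cu, hcu, t1⟩ := hT1 d V E L hd hL M c0 ε hε hε1 b hb Rt R0 γ hRt hR0 hRtR hγ hγd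
  -- the number of levels
  obtain ⟨n0, hn0⟩ : ∃ n0 : ℕ, (1 + 32 * R0) ^ (d + 2) * (2 : ℝ) ^ (-(γ * n0)) < cu := by
    have h1 : (2 : ℝ) ^ (-γ) < 1 := Real.rpow_lt_one_of_one_lt_of_neg (by norm_num) (by linarith)
    have h2 : 0 < (1 + 32 * R0) ^ (d + 2) := by
      have : 0 < 1 + 32 * R0 := by linarith
      positivity
    obtain ⟨n, hn⟩ := exists_pow_lt_of_lt_one (div_pos hcu h2) h1
    refine ⟨n, ?_⟩
    have h3 : (2 : ℝ) ^ (-(γ * n)) = ((2 : ℝ) ^ (-γ)) ^ n := by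
      rw [← Real.rpow_natCast, ← Real.rpow_mul (by norm_num)]
      congr 1
      ring
    rw [h3, mul_comm]
    exact (lt_div_iff₀ h2).1 hn
  obtain ⟨κ1, δ1, Rm1, hκ1, hδ1, t1⟩ := t1 n0
  obtain ⟨N1, hN1, T1⟩ := TU.TFn_of_cs (J := 2) (ζ := (zR R0 : Sp d → ℝ))
    (contDiff_infty.1 (TU.zR_smooth (by linarith)) 2) (TU.zR_cs R0)
  obtain ⟨N5, hN5, T5⟩ := TU.TFn_of_cs (J := 2) (ζ := (zR (R0 + 5) : Sp d → ℝ))
    (contDiff_infty.1 (TU.zR_smooth (by linarith)) 2) (TU.zR_cs (R0 + 5))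
  set N2 : ℝ := 4 ^ 2 * N1 * max 1 ((R0 + 1) + (R0 + 1)) ^ 2 with hN2d
  have hN2 : 0 ≤ N2 := by positivity
  have T2 : ∀ (ν : Sp d) (c : ℝ), ‖ν‖ = 1 → |c| ≤ R0 + 1 → TFn 2 N2 (CT5.gq R0 ν c) := by
    intro ν c hν hc
    exact TU.TFn_ht_sq T1 (fun y hy => TU.zR_zero hy.le) hν hc
  -- the constants
  set A1 : ℕ → ℝ := fun i => (2 ^ 9) ^ (d - 1) * (((2 ^ i) ^ d : ℕ) * (2 ^ (i + 9)) ^ 2) with hA1
  set A2 : ℕ → ℝ := fun i => (2 ^ 9) ^ (d - 1) *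
    (CZ * (|(((2 ^ i) ^ d : ℕ) : ℝ) * (2 ^ (i + 9)) ^ 2| * N2 +
          ((2 ^ i) ^ d : ℕ) * (max 1 |(2 : ℝ) ^ (i + 9)| ^ 2 * N5))) +
    ((2 ^ i) ^ d : ℕ) * (CM * N5 * ((2 ^ (i + 9)) ^ d / 2 ^ (i + 9) * 4 ^ (i + 9))) with hA2
  have hA1n : ∀ i, 0 ≤ A1 i := fun i => by positivity
  have hA2n : ∀ i, 0 ≤ A2 i := fun i => by positivity
  set A : ℝ := ∑ i ∈ Finset.range (n0 + 1), (A1 i + A2 i) with hA
  have hAn : 0 ≤ A := Finset.sum_nonneg fun i _ => add_nonneg (hA1n i) (hA2n i)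
  set κm : ℝ := ((1 / 2 : ℝ) ^ n0) ^ 2 / (1 + R0 ^ 2) ^ 2 *
    (1 / Real.sqrt (1 + R0 ^ 2) ^ d) with hκm
  have hsq : 0 < Real.sqrt (1 + R0 ^ 2) := Real.sqrt_pos.2 (by positivity)
  have hκm0 : 0 < κm := by positivity
  have hρ0 : 0 < 2 * ρ + 1 := by linarith
  have hRR : 0 < 2 * (R0 + 3) + 1 := by linarith
  have hRR1 : (1 : ℝ) ≤ (2 * (R0 + 3) + 1) ^ d := one_le_pow₀ (by linarith)
  refine ⟨(2 * (R0 + 3) + 1) ^ d * (1 + A) + (2 * ρ + 1) ^ d * κm⁻¹, κ1, cu / 2,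
    min δ1 (1 / (2 * CT)), max Rm1 (3 * R0 + 20), by positivity, hκ1, by positivity,
    lt_min hδ1 (by positivity), ?_⟩
  intro R hR u hu μ hμ s0 hs e hDirs ν c hPl κ' θ' δ' hκ' hθ' hδ' P hP i S hi hS hTop
  have hf : Continuous (fo L u) := by
    unfold fo
    exact L.continuous.comp (hu.smooth.continuous_fderiv (by simp))
  have hfc : HasCompactSupport (fo L u) := by
    have h : HasCompactSupport (fderiv ℝ u) := hu.supp.fderiv ℝ
    exact h.comp_left (map_zero L)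
  set f := fo L u with hfd
  obtain ⟨hP0, hP1, hP2, hP3, hP4⟩ := hP
  have hRm1 : Rm1 ≤ R := (le_max_left _ _).trans hR
  have hRm2 : 3 * R0 + 20 ≤ R := (le_max_right _ _).trans hR
  have hγ1 : γ ≤ 1 := by
    refine hγd.trans ?_
    have : (2 : ℝ) ≤ d := by exact_mod_cast hd
    rw [div_le_one (by positivity)]
    linarith
  -- the mass near the centre
  have hm4 : mT b ε s0 f P ≤ 4 * mC b ε Rt s0 f P := by
    obtain ⟨g0, -, g1⟩ := ct E f hf hfc s0 hs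
    have h1 := g1 γ hγ1 P hP1
    have h2 : tG b ε s0 f P ≤ 1 / (2 * CT) * mT b ε s0 f P :=
      hP2.trans (mul_le_mul_of_nonneg_right (hδ'.trans (min_le_right _ _)) hP0.le)
    have h3 := mul_le_mul_of_nonneg_left h2 hCT.le
    have h4 : CT * (1 / (2 * CT) * mT b ε s0 f P) = mT b ε s0 f P / 2 := by
      field_simp
    rw [h4] at h3
    linarith
  have hD1 : ∀ l : ℕ, dC b ε R s0 f e (up l P) ≤
      δ1 * (2 : ℝ) ^ ((l : ℝ) / 8) * mT b ε s0 f P := by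
    intro l
    refine (hP3 l).trans ?_
    exact mul_le_mul_of_nonneg_right (mul_le_mul_of_nonneg_right
      (hδ'.trans (min_le_left _ _)) (by positivity)) hP0.le
  have hb1 : bC R0 s0 f e ν c (up 9 P) ≤ κ1 * mT b ε s0 f P :=
    hP4.trans (mul_le_mul_of_nonneg_right hκ' hP0.le)
  have hsheet := t1 R hRm1 u hu s0 hs e hDirs ν c hPl P hP0 hP1 hm4 hD1 hb1
  -- distances
  have hfar := fun Q (hQ : Q ∈ S) => far_cells hb.ak hs hR0 hf hfc (hPl.unit (up 9 P)) hP0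
    hsheet hγ hn0 (by linarith : cu / 2 < cu) (by linarith) hθ' hi (hS hQ) (hTop Q hQ)
  set ν9 := ν (up 9 P) with hν9
  set c9 := c (up 9 P) with hc9
  have hν1 : ‖ν9‖ = 1 := hPl.unit _
  have hcwP := cw_nonneg hs P
  have hb0 : 0 ≤ bC R0 s0 f e ν c (up 9 P) := le_max_left _ _
  have hd9 : 0 ≤ dC b ε R s0 f e (up 9 P) :=
    TU.DD_nonneg b ε R hs f _ _ (hDirs.unit _)
  have hgC := CT1.gC_nonneg hb.ak ε (128 * R0) s0 f i P
  have hlP := lev_pos hs P.1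
  have hsd : Real.sqrt d ≤ R0 / 8 := by
    rw [Real.sqrt_le_left (by linarith)]
    nlinarith
  set X : ℝ := cw s0 P * (bC R0 s0 f e ν c (up 9 P) + dC b ε R s0 f e (up 9 P)) with hX
  have hX0 : 0 ≤ X := mul_nonneg hcwP (add_nonneg hb0 hd9)
  have near : ∀ j ≤ n0, j ≤ P.1 → ∀ S' : Finset (Cell d), S' ⊆ dn j P →
      (∀ Q ∈ S', 16 * R0 * lev s0 Q.1 ≤ |ht ν9 c9 (xC s0 Q)|) →
      ∑ Q ∈ S', cw s0 Q * mC b ε (R0 + 3) s0 f Q ≤ A * X := by
    intro j hj hjP S' hS' hf'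
    have h1 := nearA hd1 hb hCM (zz E)
      (fun f hf hfc R hR n e he x S hS => (mm E f hf hfc R hR n e he x S hS).2)
      hR0 T2 T5 hRm2 hf hfc hs (hDirs.unit (up 9 P)) hν1 j hjP (hPl.loc (up 9 P)) S' hS' hf'
    have h2 : bb R0 s0 f (P.1 + 9) (xC s0 (up 9 P)) (e (up 9 P)) ν9 c9 ≤
        bC R0 s0 f e ν c (up 9 P) := le_max_right _ _
    have h3 : DD b ε R s0 f (P.1 + 9) (xC s0 (up 9 P)) (e (up 9 P)) =
        dC b ε R s0 f e (up 9 P) := rfl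
    have h4 : cw s0 (up 9 P) = (2 ^ 9) ^ (d - 1) * cw s0 P := by
      unfold cw
      rw [up_fst, lev_add, mul_pow]
    rw [h3, h4] at h1
    refine h1.trans ?_
    have h5 : A1 j + A2 j ≤ A :=
      Finset.single_le_sum (f := fun i => A1 i + A2 i)
        (fun i _ => add_nonneg (hA1n i) (hA2n i)) (Finset.mem_range.2 (by omega))
    have h6 := mul_le_mul_of_nonneg_left h2 (mul_nonneg (hA1n j) hcwP)
    calc (2 ^ 9) ^ (d - 1) * cw s0 P * (((2 ^ j) ^ d : ℕ) * (2 ^ (j + 9)) ^ 2 *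
          bb R0 s0 f (P.1 + 9) (xC s0 (up 9 P)) (e (up 9 P)) ν9 c9 +
        CZ * (|(((2 ^ j) ^ d : ℕ) : ℝ) * (2 ^ (j + 9)) ^ 2| * N2 +
          ((2 ^ j) ^ d : ℕ) * (max 1 |(2 : ℝ) ^ (j + 9)| ^ 2 * N5)) *
          dC b ε R s0 f e (up 9 P)) +
      ((2 ^ j) ^ d : ℕ) * (cw s0 P * (CM * N5 * ((2 ^ (j + 9)) ^ d / 2 ^ (j + 9) * 4 ^ (j + 9) *
        dC b ε R s0 f e (up 9 P)))) =
        A1 j * cw s0 P * bb R0 s0 f (P.1 + 9) (xC s0 (up 9 P)) (e (up 9 P)) ν9 c9 +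
          A2 j * (cw s0 P * dC b ε R s0 f e (up 9 P)) := by
          rw [hA1, hA2]
          ring
      _ ≤ A1 j * cw s0 P * bC R0 s0 f e ν c (up 9 P) +
          A2 j * (cw s0 P * dC b ε R s0 f e (up 9 P)) := add_le_add h6 le_rfl
      _ ≤ (A1 j + A2 j) * X := by
          rw [hX]
          have q1 := mul_nonneg (hA2n j) (mul_nonneg hcwP hb0)
          have q2 := mul_nonneg (hA1n j) (mul_nonneg hcwP hd9)
          nlinarith
      _ ≤ A * X := mul_le_mul_of_nonneg_right h5 hX0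
  constructor
  · -- (III.3)
    have hgoal : ∑ Q ∈ S, cw s0 Q * mC b ε (R0 + 3) s0 f Q ≤
        (2 * (R0 + 3) + 1) ^ d * (1 + A) * (X + gC b ε (128 * R0) s0 f i P) := by
      rcases le_or_gt i n0 with hin | hin
      · have h1 := near i hin hi S hS fun Q hQ => (hfar Q hQ).1 hin
        refine h1.trans ?_
        have h2 : A * X ≤ (1 + A) * (X + gC b ε (128 * R0) s0 f i P) := by nlinarith
        have h3 : 0 ≤ (1 + A) * (X + gC b ε (128 * R0) s0 f i P) :=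
          mul_nonneg (by linarith) (add_nonneg hX0 hgC)
        rw [mul_assoc]
        exact h2.trans (le_mul_of_one_le_left h3 hRR1)
      · have h1 := farB hd1 hb.ak hb.even hb.supp hε hε1 hs hR0 hf hfc hi hin S hS
        have h2 := near n0 le_rfl (by omega) (S.image (up (i - n0))) (by
          intro Q hQ
          obtain ⟨Q0, hQ0, rfl⟩ := Finset.mem_image.1 hQ
          rw [mem_dn (by omega), up_up, show i - n0 + n0 = i by omega]
          exact (mem_dn hi).1 (hS hQ0)) (by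
          intro Q hQ
          obtain ⟨Q0, hQ0, rfl⟩ := Finset.mem_image.1 hQ
          have h3 := (hfar Q0 hQ0).2 hin
          have h4 : (up (i - n0) Q0).1 = P.1 - n0 := by
            rw [up_fst, CT1.lvl_dn (hS hQ0)]
            omega
          rw [h4]
          exact h3)
        refine h1.trans ?_
        rw [mul_assoc]
        refine mul_le_mul_of_nonneg_left ?_ (by linarith)
        nlinarith
    refine hgoal.trans ?_
    refine mul_le_mul_of_nonneg_right ?_ (add_nonneg hX0 hgC)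
    have : 0 ≤ (2 * ρ + 1) ^ d * κm⁻¹ := by positivity
    linarith
  · -- (III.4)
    have hpt : ∀ Q ∈ S, ∀ y : Sp d, ‖y - xC s0 Q‖ ≤ ρ * lev s0 Q.1 →
        (1 / 2) ^ n0 * lev s0 P.1 ≤ |ht ν9 c9 y| := by
      intro Q hQ y hy
      have hQ1 := CT1.lvl_dn (hS hQ)
      have hlQ := lev_pos hs Q.1
      rcases le_or_gt i n0 with hin | hin
      · have h1 := (hfar Q hQ).1 hin
        have h2 := ht_lip hν1 c9 (xC s0 Q) y
        rw [norm_sub_rev] at h2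
        have h3 : lev s0 P.1 = 2 ^ i * lev s0 Q.1 := by
          rw [hQ1, ← lev_add, show P.1 - i + i = P.1 by omega]
        have h4 : ((1 : ℝ) / 2) ^ n0 * lev s0 P.1 ≤ lev s0 Q.1 := by
          rw [h3]
          have h5 : ((1 : ℝ) / 2) ^ n0 ≤ (1 / 2) ^ i :=
            pow_le_pow_of_le_one (by norm_num) (by norm_num) hin
          have h6 : ((1 : ℝ) / 2) ^ i * 2 ^ i = 1 := by
            rw [← mul_pow]
            norm_num
          calc ((1 : ℝ) / 2) ^ n0 * (2 ^ i * lev s0 Q.1) ≤ (1 / 2) ^ i * (2 ^ i * lev s0 Q.1) :=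
                mul_le_mul_of_nonneg_right h5 (by positivity)
            _ = ((1 / 2) ^ i * 2 ^ i) * lev s0 Q.1 := by ring
            _ = lev s0 Q.1 := by rw [h6, one_mul]
        have h7 : (16 * R0 - ρ) * lev s0 Q.1 ≤ |ht ν9 c9 y| := by linarith
        have h8 : lev s0 Q.1 ≤ (16 * R0 - ρ) * lev s0 Q.1 :=
          le_mul_of_one_le_left hlQ.le (by linarith)
        linarith
      · have h1 := (hfar Q hQ).2 hin
        have h2 := ht_lip hν1 c9 (xC s0 (up (i - n0) Q)) y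
        have h3 := CT1.cen_sub_up hs (i - n0) Q
        have h4 : Q.1 + (i - n0) = P.1 - n0 := by omega
        rw [h4] at h3
        set t' := lev s0 (P.1 - n0) with ht'
        have ht0' : 0 < t' := lev_pos hs _
        have h5 : ‖xC s0 (up (i - n0) Q) - y‖ ≤ Real.sqrt d * t' + ρ * lev s0 Q.1 := by
          have h6 : xC s0 (up (i - n0) Q) - y =
              -(xC s0 Q - xC s0 (up (i - n0) Q)) + -(y - xC s0 Q) := by abel
          rw [h6]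
          refine (norm_add_le _ _).trans ?_
          rw [norm_neg, norm_neg]
          exact add_le_add h3 hy
        have h7 : lev s0 Q.1 ≤ t' := by
          rw [hQ1]
          exact CT1.MAlev hs (by omega)
        have h8 : ((1 : ℝ) / 2) ^ n0 * lev s0 P.1 = t' := by
          have h9 : lev s0 P.1 = 2 ^ n0 * t' := by
            rw [ht', ← lev_add, show P.1 - n0 + n0 = P.1 by omega]
          rw [h9, ← mul_assoc, ← mul_pow]
          norm_num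
        rw [h8]
        have h10 := mul_le_mul_of_nonneg_right hsd ht0'.le
        have h11 : ρ * lev s0 Q.1 ≤ R0 / 8 * t' :=
          mul_le_mul (by linarith) h7 hlQ.le (by linarith)
        nlinarith
    have h1 := measP hd1 hμ hs hρ hρR hR0 hν1 c9 hi S hS hpt
    have h2 := mul_le_mul_of_nonneg_left h1 hP0.le
    have hMo := Mo_nonneg (muQ s0 μ P) ν9 ((c9 - ⟪ν9, xC s0 P⟫_ℝ) / lev s0 P.1)
    have hom : 0 ≤ omC μ s0 P := Real.sqrt_nonneg _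
    have hY : YC b ε s0 f μ ν c P = mT b ε s0 f P *
        Mo (muQ s0 μ P) ν9 ((c9 - ⟪ν9, xC s0 P⟫_ℝ) / lev s0 P.1) 2 1 0 := rfl
    have hZ0 : 0 ≤ cw s0 P * omC μ s0 P * YC b ε s0 f μ ν c P := by
      rw [hY]
      exact mul_nonneg (mul_nonneg hcwP hom) (mul_nonneg hP0.le hMo)
    refine h2.trans ?_
    calc mT b ε s0 f P * ((2 * ρ + 1) ^ d * (κm⁻¹ * (cw s0 P * (omC μ s0 P *
          Mo (muQ s0 μ P) ν9 ((c9 - ⟪ν9, xC s0 P⟫_ℝ) / lev s0 P.1) 2 1 0))))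
        = ((2 * ρ + 1) ^ d * κm⁻¹) * (cw s0 P * omC μ s0 P * YC b ε s0 f μ ν c P) := by
          rw [hY]
          ring
      _ ≤ _ := by
          refine mul_le_mul_of_nonneg_right ?_ hZ0
          have : 0 ≤ (2 * (R0 + 3) + 1) ^ d * (1 + A) := by positivity
          linarith

end TG
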