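import Pool.Agent.TG.TA1d
import Pool.Agent.TG.TA2
import Pool.Agent.TG.FG
import Pool.Agent.TG.MO

/-!
# MODULE TA1 (11.1), case A1: the pointwise part (helper53)
-/

open MeasureTheory Metric Set TrI
open scoped InnerProductSpace ContDiff

namespace TG

namespace TA1p

noncomputable section

variable {d : ℕ}

/-- Harnack inequality for v, lower bound -/
lemma vv_low (hTH : StmtTH) (hd : 2 ≤ d) {C' : ℝ} (hC' : 0 < C') {μ : Measure (Sp d)}
    (hμ : Gro C' μ) {y : Sp d} {r : ℝ} (hy : ‖y‖ ≤ r) :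
    vv μ 1 0 ≤ Real.sqrt ((1 + r) ^ d) * vv μ 1 y := by
  obtain ⟨C, _, hT⟩ := hTH d 0 hd C' hC'
  obtain ⟨h1, _, _, h4, _⟩ := hT μ hμ
  have h5 := h4 1 y 0 one_pos
  have hr : 0 ≤ r := (norm_nonneg y).trans hy
  unfold vv
  rw [← Real.sqrt_mul (by positivity)]
  refine Real.sqrt_le_sqrt (h5.trans ?_)
  refine mul_le_mul_of_nonneg_right ?_ (h1 1 y one_pos).1.le
  rw [sub_zero, div_one]
  exact pow_le_pow_left₀ (by positivity) (by linarith) d

lemma tang_perp {n : Sp d} (hn : ‖n‖ = 1) (y : Sp d) :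
    tang n y ∈ (Submodule.span ℝ {n})ᗮ := by
  rw [Submodule.mem_orthogonal_singleton_iff_inner_right]
  unfold tang
  rw [inner_sub_right, inner_smul_right, real_inner_self_eq_norm_sq, hn]
  ring

lemma yS_inner {n : Sp d} (hn : ‖n‖ = 1) (s : ℝ) (y : Sp d) : ⟪n, TA1m.yS n s y⟫_ℝ = s := by
  have h := Submodule.mem_orthogonal_singleton_iff_inner_right.1 (tang_perp hn y)
  unfold TA1m.yS
  rw [inner_add_right, h, inner_smul_right, real_inner_self_eq_norm_sq, hn]
  ring

lemma yS_norm {n : Sp d} (hn : ‖n‖ = 1) (s : ℝ) (y : Sp d) : ‖TA1m.yS n s y‖ ≤ |s| + ‖y‖ := by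
  unfold TA1m.yS
  refine (norm_add_le _ _).trans ?_
  rw [norm_smul, hn, mul_one, Real.norm_eq_abs]
  have h1 : ‖tang n y‖ ^ 2 = ‖y‖ ^ 2 - ⟪n, y⟫_ℝ ^ 2 := by
    unfold tang
    rw [norm_sub_sq_real, norm_smul, hn, inner_smul_right, real_inner_comm]
    simp
    ring
  have h2 : ‖tang n y‖ ≤ ‖y‖ := by
    nlinarith [norm_nonneg (tang n y), norm_nonneg y, sq_nonneg ⟪n, y⟫_ℝ]
  linarith

lemma eq_yS (n : Sp d) (s : ℝ) (y : Sp d) : TA1m.yS n s y + hgt n s y • n = y := by
  unfold TA1m.yS hgt tang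
  rw [sub_smul]
  abel

/-- a disc integral is at most a plane integral -/
lemma disc_le_pl {n : Sp d} (hn : ‖n‖ = 1) (s : ℝ) (y : Sp d) (ρ : ℝ) {F G : Sp d → ℝ}
    (hF : Continuous F) (hG : Continuous G) (hGc : HasCompactSupport G) (h0 : ∀ x, 0 ≤ G x)
    (hle : ∀ x, ⟪n, x⟫_ℝ = s → ‖x‖ ≤ |s| + ‖y‖ + ρ → F x ≤ G x) :
    discR n ρ F (TA1m.yS n s y) ≤ plInt n s G := by
  set τ : (Submodule.span ℝ {n})ᗮ := ⟨tang n y, tang_perp hn y⟩ with hτ
  have hiso : ∀ a : Sp d, Topology.IsClosedEmbedding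
      (fun y' : (Submodule.span ℝ {n})ᗮ => a + (y' : Sp d)) := fun a =>
    Isometry.isClosedEmbedding (Isometry.of_dist_eq fun a b => by
      rw [dist_add_left]
      rfl)
  have hGi : Integrable (fun y' : (Submodule.span ℝ {n})ᗮ => G (TA1m.yS n s y + (y' : Sp d))) :=
    (hG.comp (hiso _).continuous).integrable_of_hasCompactSupport
      (hGc.comp_isClosedEmbedding (hiso _))
  unfold discR plInt
  calc ∫ y' in closedBall (0 : (Submodule.span ℝ {n})ᗮ) ρ, F (TA1m.yS n s y + (y' : Sp d))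
      ≤ ∫ y' in closedBall (0 : (Submodule.span ℝ {n})ᗮ) ρ, G (TA1m.yS n s y + (y' : Sp d)) := by
        refine setIntegral_mono_on ((hF.comp (hiso _).continuous).continuousOn.integrableOn_compact
          (isCompact_closedBall _ _)) hGi.integrableOn measurableSet_closedBall fun y' hy' => ?_
        refine hle _ ?_ ?_
        · have h1 : ⟪n, (y' : Sp d)⟫_ℝ = 0 :=
            Submodule.mem_orthogonal_singleton_iff_inner_right.1 y'.2
          rw [inner_add_right, h1, yS_inner hn, add_zero]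
        · refine (norm_add_le _ _).trans (add_le_add (yS_norm hn s y) ?_)
          have h2 : ‖(y' : Sp d)‖ = ‖y'‖ := rfl
          rw [h2]
          simpa using hy'
    _ ≤ ∫ y' : (Submodule.span ℝ {n})ᗮ, G (TA1m.yS n s y + (y' : Sp d)) :=
        setIntegral_le_integral hGi (Filter.Eventually.of_forall fun y' => h0 _)
    _ = ∫ y' : (Submodule.span ℝ {n})ᗮ, G (s • n + ((τ + y' : (Submodule.span ℝ {n})ᗮ) : Sp d)) := by
        congr 1
        funext y'
        rw [Submodule.coe_add, hτ]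
        unfold TA1m.yS
        rw [add_assoc]
    _ = ∫ y' : (Submodule.span ℝ {n})ᗮ, G (s • n + (y' : Sp d)) :=
        integral_add_left_eq_self (fun z : (Submodule.span ℝ {n})ᗮ => G (s • n + (z : Sp d))) τ

/-- one-sided Taylor inequality in direction n -/
lemma taylor_low {F : Sp d → ℝ} (hF : ContDiff ℝ 2 F) (n a : Sp d) (h B : ℝ)
    (hB : ∀ r : ℝ, |r| ≤ |h| → -B ≤ d2 n F (a + r • n)) :
    F a + h * fderiv ℝ F a n - B * h ^ 2 / 2 ≤ F (a + h • n) := by
  have hF1 : ContDiff ℝ 1 (fderiv ℝ F) := hF.fderiv_right (m := 1) (by norm_num)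
  have hp : ∀ u : ℝ, HasDerivAt (fun u : ℝ => a + (u * h) • n) (h • n) u := by
    intro u
    have h1 : HasDerivAt (fun u : ℝ => u * h) h u := by
      simpa using (hasDerivAt_id u).mul_const h
    exact (h1.smul_const n).const_add a
  have h1 : ∀ u : ℝ, HasDerivAt (fun u : ℝ => F (a + (u * h) • n))
      (h * fderiv ℝ F (a + (u * h) • n) n) u := by
    intro u
    have h2 := ((hF.differentiable (by norm_num)) (a + (u * h) • n)).hasFDerivAt.comp_hasDerivAt u
      (hp u)
    rw [map_smul, smul_eq_mul] at h2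
    exact h2
  have h3 : ∀ u : ℝ, HasDerivAt (fun u : ℝ => fderiv ℝ F (a + (u * h) • n) n)
      (h * d2 n F (a + (u * h) • n)) u := by
    intro u
    have h2 := ((hF1.differentiable (by norm_num)) (a + (u * h) • n)).hasFDerivAt.comp_hasDerivAt u
      (hp u)
    have h4 := h2.clm_apply (hasDerivAt_const u n)
    have e : d2 n F (a + (u * h) • n) = fderiv ℝ (fderiv ℝ F) (a + (u * h) • n) n n := by
      unfold d2
      rw [iteratedFDeriv_two_apply]
    rw [e]
    simpa using h4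
  set φ : ℝ → ℝ := fun u => F (a + (u * h) • n) + B * h ^ 2 * (u ^ 2 / 2) with hφ
  set ψ : ℝ → ℝ := fun u => h * fderiv ℝ F (a + (u * h) • n) n + B * h ^ 2 * u with hψ
  have hφ' : ∀ u, HasDerivAt φ (ψ u) u := by
    intro u
    refine (h1 u).add ?_
    have h5 : HasDerivAt (fun u : ℝ => u ^ 2 / 2) u u := by
      have := (hasDerivAt_pow 2 u).div_const 2
      simpa using this
    exact h5.const_mul _
  have hψ' : ∀ u, HasDerivAt ψ (h * (h * d2 n F (a + (u * h) • n)) + B * h ^ 2) u := by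
    intro u
    refine ((h3 u).const_mul h).add ?_
    simpa using (hasDerivAt_id u).const_mul (B * h ^ 2)
  have hmono : MonotoneOn ψ (Icc 0 1) := by
    refine monotoneOn_of_deriv_nonneg (convex_Icc 0 1)
      (fun u _ => (hψ' u).continuousAt.continuousWithinAt)
      (fun u _ => (hψ' u).differentiableAt.differentiableWithinAt) ?_
    intro u hu
    rw [interior_Icc] at hu
    rw [(hψ' u).deriv]
    have h6 := hB (u * h) (by
      rw [abs_mul, abs_of_pos hu.1]
      exact mul_le_of_le_one_left (abs_nonneg h) hu.2.le)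
    nlinarith [sq_nonneg h]
  have hmain : ψ 0 * (1 - 0) ≤ φ 1 - φ 0 := by
    refine Convex.mul_sub_le_image_sub_of_le_deriv (convex_Icc 0 1)
      (fun u _ => (hφ' u).continuousAt.continuousWithinAt)
      (fun u _ => (hφ' u).differentiableAt.differentiableWithinAt) ?_ 0 (by simp) 1 (by simp)
      zero_le_one
    intro u hu
    rw [interior_Icc] at hu
    rw [(hφ' u).deriv]
    exact hmono (by simp) ⟨hu.1.le, hu.2.le⟩ hu.1.le
  simp only [hφ, hψ] at hmain
  simp only [one_mul, zero_mul, zero_smul, add_zero, mul_zero, sub_zero, mul_one] at hmain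
  linarith

lemma Mo_nonneg (μ : Measure (Sp d)) (n : Sp d) (c : ℝ) {i : ℕ} (hi : Even i) (t : ℝ) (y : Sp d)
    (ht : 0 ≤ t) : 0 ≤ Mo μ n c i t y := by
  unfold Mo
  refine div_nonneg (integral_nonneg fun η => ?_) (Real.sqrt_nonneg _)
  have := kk_nonneg ht (y - η)
  exact mul_nonneg (div_nonneg (hi.pow_nonneg _) (by positivity)) this

/-- lower bound of the zeroth moment near the measure -/
lemma Mo0_low (h : StmtTH) (hd : 2 ≤ d) {C' p0 A : ℝ} (hC' : 0 < C') (hp0 : 0 < p0)
    (hA : 1 ≤ A) : ∃ c : ℝ, 0 < c ∧ ∀ μ : Measure (Sp d), Gro C' μ →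
      ∀ (n : Sp d) (s : ℝ), ‖n‖ = 1 → ∀ y : Sp d, ‖y‖ ≤ d → p0 ≤ qq A μ 1 y →
      c * vv μ 1 0 ≤ tav (Mo μ n s 0) 1 y := by
  obtain ⟨C, hC, hT⟩ := MO.getTH h d 0 hd C' hC'
  set Q : ℝ := 4 + A ^ 2 with hQ
  have hQ0 : 0 < Q := by positivity
  set c1 : ℝ := 1 / Q ^ 2 * ((1 / 2) / Real.sqrt Q ^ d) with hc1
  have hc1p : 0 < c1 := by positivity
  set H : ℝ := Real.sqrt ((1 + (d : ℝ)) ^ d) with hH
  have hHp : 0 < H := Real.sqrt_pos.2 (by positivity)
  have hsC : 0 < Real.sqrt C := Real.sqrt_pos.2 hC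
  have hct := FGm.ct_pos
  refine ⟨FGm.ct * (c1 * p0 / Real.sqrt C / H), by positivity, ?_⟩
  intro μ hμ n s hn y hy hq
  have hTμ := hT μ hμ
  have := hμ.fin
  have hth := hTμ.pos 1 y one_pos
  have hv1 := hTμ.vpos one_pos y
  have hv0 := vv_low h hd hC' hμ hy
  have hq' : p0 * th μ 1 y ≤ ∫ η, cut (‖y - η‖ / (A * 1)) * kk 1 (y - η) ∂μ := by
    unfold qq at hq
    exact (le_div_iff₀ hth).1 hq
  have hpt : ∀ r ∈ Icc (1 / 2 : ℝ) 2, c1 * p0 / Real.sqrt C / H * vv μ 1 0 ≤ Mo μ n s 0 r y := by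
    intro r hr
    have hr0 : 0 < r := by linarith [hr.1]
    have hvr := hTμ.vpos hr0 y
    have hvt := MO.v_time hTμ hC (r := r) (s := 1) one_pos (by linarith [hr.1])
      (by linarith [hr.2]) y
    have hnum : c1 * (p0 * th μ 1 y) ≤
        ∫ η, (⟪η, n⟫_ℝ - s) ^ 0 / (r ^ 2 + ‖y - η‖ ^ 2) ^ 2 * kk r (y - η) ∂μ := by
      refine (mul_le_mul_of_nonneg_left hq' hc1p.le).trans ?_
      rw [← integral_const_mul]
      refine integral_mono_of_nonneg (Filter.Eventually.of_forall fun η => ?_) ?_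
        (Filter.Eventually.of_forall fun η => ?_)
      · exact mul_nonneg hc1p.le (mul_nonneg (FGm.cut_nonneg _) (kk_nonneg zero_le_one _))
      · have hi := MO.hK_int h hd hC' hμ n hn s 0 (by norm_num) hr.1 hr.2 y
        refine hi.congr (Filter.Eventually.of_forall fun η => ?_)
        unfold MO.K MO.ht
        ring
      · by_cases hη : ‖y - η‖ ≤ A
        · have e5 : r ^ 2 + ‖y - η‖ ^ 2 ≤ Q := by
            rw [hQ]
            have h1 : r ^ 2 ≤ 4 := by nlinarith [hr.2]
            have h2 : ‖y - η‖ ^ 2 ≤ A ^ 2 := by gcongr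
            linarith
          have e6 : 1 / Q ^ 2 ≤ (⟪η, n⟫_ℝ - s) ^ 0 / (r ^ 2 + ‖y - η‖ ^ 2) ^ 2 := by
            rw [pow_zero]
            have : 0 < r ^ 2 + ‖y - η‖ ^ 2 := by positivity
            gcongr
          have e7 : (1 / 2) / Real.sqrt Q ^ d ≤ kk r (y - η) := by
            unfold kk
            have : 0 < Real.sqrt (r ^ 2 + ‖y - η‖ ^ 2) := Real.sqrt_pos.2 (by positivity)
            have h1 := hr.1
            gcongr
          have e8 : cut (‖y - η‖ / (A * 1)) * kk 1 (y - η) ≤ 1 := by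
            have a1 : kk 1 (y - η) ≤ 1 := by
              have := GNaux.kk_le 1 one_pos (y - η)
              simpa using this
            exact mul_le_one₀ (FGm.cut_le _) (kk_nonneg zero_le_one _) a1
          calc c1 * (cut (‖y - η‖ / (A * 1)) * kk 1 (y - η)) ≤ c1 * 1 := by gcongr
            _ = 1 / Q ^ 2 * ((1 / 2) / Real.sqrt Q ^ d) := by rw [mul_one]
            _ ≤ _ := mul_le_mul e6 e7 (by positivity) (by positivity)
        · have : cut (‖y - η‖ / (A * 1)) = 0 := by
            refine FGm.cut_zero ?_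
            rw [mul_one, le_div_iff₀ (by linarith), one_mul]
            linarith
          beta_reduce
          rw [this, zero_mul, mul_zero]
          exact mul_nonneg (by positivity) (kk_nonneg hr0.le _)
    unfold Mo
    rw [le_div_iff₀ hvr]
    have hsq : vv μ 1 y * vv μ 1 y = th μ 1 y := Real.mul_self_sqrt hth.le
    have h1 : vv μ 1 0 / H ≤ vv μ 1 y := by
      rw [div_le_iff₀ hHp]
      linarith
    calc c1 * p0 / Real.sqrt C / H * vv μ 1 0 * vv μ r y
        ≤ c1 * p0 / Real.sqrt C / H * vv μ 1 0 * (Real.sqrt C * vv μ 1 y) := by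
          refine mul_le_mul_of_nonneg_left hvt ?_
          have := (hTμ.vpos one_pos (0 : Sp d)).le
          positivity
      _ = c1 * p0 * ((vv μ 1 0 / H) * vv μ 1 y) := by field_simp
      _ ≤ c1 * p0 * (vv μ 1 y * vv μ 1 y) := by gcongr
      _ = c1 * (p0 * th μ 1 y) := by rw [hsq]; ring
      _ ≤ _ := hnum
  have hI : IntervalIntegrable (fun r => tau 1 r * Mo μ n s 0 r y) volume (1 / 2) 2 := by
    have h1 := (MO.Fk_int hTμ hC n s 0 (MO.Bk_int μ n hn s 0 (by norm_num)) y)
    unfold MO.nu at h1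
    have h2 := h1.integral_prod_left
    rw [intervalIntegrable_iff_integrableOn_Ioc_of_le (by norm_num)]
    refine h2.congr (Filter.Eventually.of_forall fun r => ?_)
    exact (MO.Mo_eq n s 0 r y).symm
  unfold tav
  rw [mul_one]
  have e3 : FGm.ct * (c1 * p0 / Real.sqrt C / H) * vv μ 1 0 =
      ∫ r in (1 / 2 : ℝ)..2, tau 1 r * (c1 * p0 / Real.sqrt C / H * vv μ 1 0) := by
    rw [intervalIntegral.integral_mul_const]
    unfold FGm.ct
    ring
  rw [e3]
  refine intervalIntegral.integral_mono_on (by norm_num)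
    (((GNaux.tau_cont 1).mul continuous_const).intervalIntegrable _ _) hI ?_
  intro r hr
  exact mul_le_mul_of_nonneg_left (hpt r hr) (GNaux.tau_nonneg _ _)

/-- disc integrals are Lipschitz in the normal direction -/
lemma disc_lip {n : Sp d} (hd : 2 ≤ d) (hn : ‖n‖ = 1) {F : Sp d → ℝ} (hF : ContDiff ℝ 1 F)
    {ρ L : ℝ} (hρ : ρ ≤ 1) (hL : 0 ≤ L) (a : Sp d) (r : ℝ)
    (hb : ∀ x, ‖x - a‖ ≤ |r| + ρ → ‖fderiv ℝ F x‖ ≤ L) :
    discR n ρ F (a + r • n) ≤ discR n ρ F a + L * |r| * FGm.vb d := by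
  have hc : ∀ b : Sp d, Continuous (fun y' : (Submodule.span ℝ {n})ᗮ => F (b + (y' : Sp d))) :=
    fun b => hF.continuous.comp (by fun_prop)
  have hi : ∀ b : Sp d, IntegrableOn (fun y' : (Submodule.span ℝ {n})ᗮ => F (b + (y' : Sp d)))
      (closedBall 0 ρ) := fun b =>
    (hc b).continuousOn.integrableOn_compact (isCompact_closedBall _ _)
  have hconst : IntegrableOn (fun _ : (Submodule.span ℝ {n})ᗮ => L * |r|) (closedBall 0 ρ) :=
    integrableOn_const measure_closedBall_lt_top.ne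
  unfold discR
  calc ∫ y' in closedBall (0 : (Submodule.span ℝ {n})ᗮ) ρ, F (a + r • n + (y' : Sp d))
      ≤ ∫ y' in closedBall (0 : (Submodule.span ℝ {n})ᗮ) ρ, (F (a + (y' : Sp d)) + L * |r|) := by
        refine setIntegral_mono_on (hi _) ((hi a).add hconst) measurableSet_closedBall
          fun y' hy' => ?_
        have hy2 : ‖(y' : Sp d)‖ ≤ ρ := by
          have h2 : ‖(y' : Sp d)‖ = ‖y'‖ := rfl
          rw [h2]
          simpa using hy'
        have hseg : ∀ x ∈ segment ℝ (a + (y' : Sp d)) (a + r • n + (y' : Sp d)),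
            ‖x - a‖ ≤ |r| + ρ := by
          intro x hx
          obtain ⟨t, ht, rfl⟩ := (segment_eq_image' ℝ (a + (y' : Sp d)) (a + r • n + y')) ▸ hx
          have e1 : a + (y' : Sp d) + t • (a + r • n + (y' : Sp d) - (a + (y' : Sp d))) - a =
              (t * r) • n + (y' : Sp d) := by
            rw [show a + r • n + (y' : Sp d) - (a + (y' : Sp d)) = r • n by abel, smul_smul]
            abel
          rw [e1]
          refine (norm_add_le _ _).trans (add_le_add ?_ hy2)
          rw [norm_smul, hn, mul_one, Real.norm_eq_abs, abs_mul, abs_of_nonneg ht.1]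
          exact mul_le_of_le_one_left (abs_nonneg r) ht.2
        have h3 := (convex_segment (a + (y' : Sp d)) (a + r • n + (y' : Sp d))).norm_image_sub_le_of_norm_fderiv_le
          (𝕜 := ℝ) (f := F) (C := L) (fun x _ => (hF.differentiable (by norm_num)) x)
          (fun x hx => hb x (hseg x hx)) (left_mem_segment ℝ _ _) (right_mem_segment ℝ _ _)
        have e2 : a + r • n + (y' : Sp d) - (a + (y' : Sp d)) = r • n := by abel
        rw [e2, norm_smul, hn, mul_one, Real.norm_eq_abs, Real.norm_eq_abs] at h3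
        have h4 := le_abs_self (F (a + r • n + (y' : Sp d)) - F (a + (y' : Sp d)))
        linarith
    _ = (∫ y' in closedBall (0 : (Submodule.span ℝ {n})ᗮ) ρ, F (a + (y' : Sp d))) +
        (volume (closedBall (0 : (Submodule.span ℝ {n})ᗮ) ρ)).toReal * (L * |r|) := by
        rw [integral_add (hi a) hconst, setIntegral_const, smul_eq_mul]
        rfl
    _ ≤ (∫ y' in closedBall (0 : (Submodule.span ℝ {n})ᗮ) ρ, F (a + (y' : Sp d))) +
        L * |r| * FGm.vb d := by
        have h5 : (volume (closedBall (0 : (Submodule.span ℝ {n})ᗮ) ρ)).toReal ≤ FGm.vb d := by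
          rw [← FGm.vol_ball hd hn]
          exact ENNReal.toReal_mono measure_closedBall_lt_top.ne
            (measure_mono (closedBall_subset_closedBall hρ))
        have h6 := mul_le_mul_of_nonneg_right h5 (mul_nonneg hL (abs_nonneg r))
        linarith

lemma abs_le_of_sq {x K t : ℝ} (hK : 0 ≤ K) (ht : 0 ≤ t) (h : x ^ 2 ≤ K * t ^ 2) :
    |x| ≤ (K + 1) * t := by
  refine abs_le_of_sq_le_sq ?_ (by positivity)
  calc x ^ 2 ≤ K * t ^ 2 := h
    _ ≤ (K + 1) ^ 2 * t ^ 2 := by
        refine mul_le_mul_of_nonneg_right ?_ (sq_nonneg t)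
        nlinarith
    _ = ((K + 1) * t) ^ 2 := by ring

end

end TA1p

open TA1p TA1m in
/-- the pointwise inequality -/
theorem TA1m.stmtPtA (hTH : StmtTH) (hWA : StmtWA) (hWB : StmtWB) (hMO : StmtMO) : StmtPtA := by
  intro d J hd M C' ε p0 A c R0 hC' hε hε4 hFK hR0
  have hε1 : ε ≤ 1 := by linarith
  have hA := hFK.A_ge
  have hc := hFK.c_pos
  have hd0 : (0 : ℝ) ≤ d := Nat.cast_nonneg d
  obtain ⟨CW, hCW, hW⟩ := hWA d 2 hd M C' ε hC' hε hε1
  obtain ⟨CB, hCB, hB⟩ := hWB d 0 hd M C' ε hC' hε hε1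
  obtain ⟨CM, hCM, hM⟩ := hMO d 0 hd C' hC'
  obtain ⟨c2, hc2, hM0⟩ := Mo0_low hTH hd hC' hFK.p0_pos hA
  have hvb := FGm.vb_pos d
  set H : ℝ := Real.sqrt ((1 + 3 * R0) ^ d) with hH
  have hR0p : 24 ≤ R0 := by linarith
  have hHp : 0 < H := Real.sqrt_pos.2 (by positivity)
  set K2 : ℝ := CM * (2 + 2 * R0) ^ (2 * d + 4) / FGm.vb d with hK2
  have hK2p : 0 < K2 := by positivity
  set KB : ℝ := CB * H + 1 with hKB
  set K1 : ℝ := CM * CM * H * K2 + 1 with hK1
  set KL : ℝ := KB * (1 + 2 * R0) with hKL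
  set Kz : ℝ := KL + K2 + 4 * R0 * K1 with hKz
  have hKBp : 0 < KB := by positivity
  have hK1p : 0 < K1 := by positivity
  have hKLp : 0 < KL := by positivity
  have hKzp : 0 < Kz := by positivity
  set g : ℝ := (c2 / CB) ^ 2 with hg
  have hgp : 0 < g := by positivity
  set z0 : ℝ := min 1 (g / (2 * (H * (CW * H * FGm.vb d)))) with hz0
  have hz0p : 0 < z0 := lt_min one_pos (by positivity)
  have hz01 : z0 ≤ 1 := min_le_left _ _
  have hz02 : H * (CW * H * FGm.vb d * z0) ≤ g / 2 := by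
    have h1 : z0 ≤ g / (2 * (H * (CW * H * FGm.vb d))) := min_le_right _ _
    rw [le_div_iff₀ (by positivity)] at h1
    linarith
  set r0 : ℝ := min 1 (min (1 / (2 * H * Kz)) (min (c2 * z0 ^ 2 / (2 * KL)) (g / (2 * H)))) with hr0
  have hr0p : 0 < r0 := lt_min one_pos (lt_min (by positivity) (lt_min (by positivity)
    (by positivity)))
  have hr01 : r0 ≤ 1 := min_le_left _ _
  have hr02 : Kz * r0 ≤ 1 / (2 * H) := by
    have h1 : r0 ≤ 1 / (2 * H * Kz) := (min_le_right _ _).trans (min_le_left _ _)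
    rw [le_div_iff₀ (by positivity)] at h1
    rw [le_div_iff₀ (by positivity)]
    linarith
  have hr03 : KL * r0 ≤ c2 / 2 * z0 ^ 2 := by
    have h1 : r0 ≤ c2 * z0 ^ 2 / (2 * KL) := (min_le_right _ _).trans ((min_le_right _ _).trans
      (min_le_left _ _))
    rw [le_div_iff₀ (by positivity)] at h1
    linarith
  have hr04 : H * r0 ≤ g / 2 := by
    have h1 : r0 ≤ g / (2 * H) := (min_le_right _ _).trans ((min_le_right _ _).trans
      (min_le_right _ _))
    rw [le_div_iff₀ (by positivity)] at h1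
    linarith
  have hr0sq : r0 ^ 2 ≤ r0 := by
    rw [sq]
    exact mul_le_of_le_one_left hr0p.le hr01
  set κ : ℝ := min c (min (c * c2 / 2) (c / (8 * H * R0 ^ 2))) with hκ
  have hκp : 0 < κ := lt_min hc (lt_min (by positivity) (by positivity))
  have hκ2 : κ ≤ c * c2 / 2 := (min_le_right _ _).trans (min_le_left _ _)
  have hκ3 : κ * (4 * R0 ^ 2) ≤ c * (1 / (2 * H)) := by
    have h1 : κ ≤ c / (8 * H * R0 ^ 2) := (min_le_right _ _).trans (min_le_right _ _)
    calc κ * (4 * R0 ^ 2) ≤ c / (8 * H * R0 ^ 2) * (4 * R0 ^ 2) := by gcongr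
      _ = c * (1 / (2 * H)) := by
        field_simp
        norm_num
  refine ⟨κ, r0 ^ 2, hκp, min_le_left _ _, by positivity, ?_⟩
  intro β hβ μ hμ n s hn hs hpl y hy
  obtain ⟨_, _, _, _, hWn⟩ := hW β (PTm.kit_mono (by omega) hβ) μ hμ
  obtain ⟨hXs, hX0, _, hX13s, hX13n, hX13b⟩ := hWn n hn
  obtain ⟨_, _, hB3, hB4⟩ := hB β (PTm.kit_mono (by omega) hβ) μ hμ n hn
  obtain ⟨hM1, _, hMj2, hMj0, hMj1, hMv, hMh, _⟩ := hM μ hμ n hn s
  set v : ℝ := vv μ 1 0 with hv
  obtain ⟨CT, _, hTT⟩ := hTH d 0 hd C' hC'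
  have hv0 : 0 < v := Real.sqrt_pos.2 ((hTT μ hμ).1 1 0 one_pos).1
  have hup : ∀ x : Sp d, ‖x‖ ≤ 3 * R0 → vv μ 1 x ≤ H * v := fun x hx =>
    TA2Aux.vv_harnack hd hC' hμ hx
  have hlo : v ≤ H * vv μ 1 y := vv_low hTH hd hC' hμ (by linarith)
  have hvn : ∀ x : Sp d, 0 ≤ vv μ 1 x := fun x => Real.sqrt_nonneg _
  set h : ℝ := hgt n s y with hh
  have hhin : ⟪y, n⟫_ℝ - s = h := by
    rw [hh, hgt, real_inner_comm]
  have hyi : |⟪n, y⟫_ℝ| ≤ d := by
    refine (abs_real_inner_le_norm _ _).trans ?_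
    rw [hn, one_mul]
    exact hy
  have hhb : |h| ≤ 2 * R0 := by
    have h1 : |h| ≤ |⟪n, y⟫_ℝ| + |s| := by
      rw [hh, hgt]
      exact abs_sub _ _
    linarith
  have hh2 : h ^ 2 ≤ 4 * R0 ^ 2 := by
    rw [← sq_abs]
    calc |h| ^ 2 ≤ (2 * R0) ^ 2 := pow_le_pow_left₀ (abs_nonneg _) hhb 2
      _ = 4 * R0 ^ 2 := by ring
  set a : Sp d := yS n s y with ha
  have han : ‖a‖ ≤ 3 / 2 * R0 + d := (yS_norm hn s y).trans (by linarith)
  have hay : a + h • n = y := eq_yS n s y
  have hXX : ∀ x, XX β ε μ n 1 x = X13 β ε μ n 1 x + tav (X2 μ n) 1 x := fun x => by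
    unfold XX X13
    ring
  have hMo2n : ∀ x, 0 ≤ tav (Mo μ n s 2) 1 x := fun x =>
    tav_nonneg (fun t y ht => Mo_nonneg μ n s even_two t y ht) x
  have hMo0n : ∀ x, 0 ≤ tav (Mo μ n s 0) 1 x := fun x =>
    tav_nonneg (fun t y ht => Mo_nonneg μ n s (by norm_num) t y ht) x
  have hXXpl : ∀ x, ⟪n, x⟫_ℝ = s → XX β ε μ n 1 x = X13 β ε μ n 1 x + tav (Mo μ n s 2) 1 x := by
    intro x hx
    rw [hXX, hM1 x, real_inner_comm, hx]
    ring
  -- the plane integral
  have hGc : Continuous (fun x => zR (2 * R0 - 1) x * XX β ε μ n 1 x) :=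
    (FGm.zR_cont _).mul hXs.continuous
  have hGs : HasCompactSupport (fun x => zR (2 * R0 - 1) x * XX β ε μ n 1 x) :=
    (FGm.zR_compact _).mul_right
  have hGn : ∀ x, 0 ≤ zR (2 * R0 - 1) x * XX β ε μ n 1 x := fun x =>
    mul_nonneg (FGm.zR_nonneg _ _) (hX0 x)
  have hdisc : discR n (2 * ε) (X13 β ε μ n 1) a ≤ r0 ^ 2 * v := by
    refine (disc_le_pl hn s y (2 * ε) hX13s.continuous hGc hGs hGn fun x hx hxn => ?_).trans hpl
    rw [FGm.zR_one (by linarith), one_mul, hXXpl x hx]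
    have := hMo2n x
    linarith
  have hMo2 : tav (Mo μ n s 2) 1 y ≤ K2 * (r0 ^ 2 * v) := by
    set P : ℝ := CM * (2 + 2 * R0) ^ (2 * d + 4) with hP
    have hPp : 0 < P := by positivity
    have hcM : Continuous (fun _ : Sp d => tav (Mo μ n s 2) 1 y / P) := continuous_const
    have h1 := (disc_le_pl hn s y 1 hcM hGc hGs hGn (fun x hx hxn => by
      rw [FGm.zR_one (by linarith), one_mul, hXXpl x hx]
      have h2 := hX13n x
      have hxy : ‖x - y‖ ≤ 1 + 2 * R0 := by
        refine (norm_sub_le _ _).trans ?_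
        linarith
      have h3 := hMh x y
      have h4 : CM * (1 + ‖x - y‖) ^ (2 * d + 4) ≤ P := by
        rw [hP]
        have : 1 + ‖x - y‖ ≤ 2 + 2 * R0 := by linarith
        gcongr
      have h5 := mul_le_mul_of_nonneg_right h4 (hMo2n x)
      have h6 : tav (Mo μ n s 2) 1 y / P ≤ tav (Mo μ n s 2) 1 x := by
        rw [div_le_iff₀ hPp]
        linarith
      linarith)).trans hpl
    unfold discR at h1
    rw [setIntegral_const, smul_eq_mul, Measure.real, FGm.vol_ball hd hn] at h1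
    have h7 : tav (Mo μ n s 2) 1 y * FGm.vb d ≤ P * (r0 ^ 2 * v) := by
      have h8 := mul_le_mul_of_nonneg_left h1 hPp.le
      have h9 : P * (FGm.vb d * (tav (Mo μ n s 2) 1 y / P)) = tav (Mo μ n s 2) 1 y * FGm.vb d := by
        field_simp
      linarith
    calc tav (Mo μ n s 2) 1 y ≤ P * (r0 ^ 2 * v) / FGm.vb d := by
          rw [le_div_iff₀ hvb]
          exact h7
      _ = K2 * (r0 ^ 2 * v) := by
          rw [hK2]
          ring
  have hr0v : 0 ≤ r0 * v := by positivity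
  have hMo1 : |tav (Mo μ n s 1) 1 y| ≤ K1 * (r0 * v) := by
    refine abs_le_of_sq (by positivity) hr0v ?_
    have h1 := hMj1 0 le_rfl y
    rw [norm_iteratedFDeriv_zero, Real.norm_eq_abs, sq_abs] at h1
    have h2 : tav (Mo μ n s 0) 1 y ≤ CM * (H * v) :=
      (hMv y).trans (mul_le_mul_of_nonneg_left (hup y (by linarith)) hCM.le)
    calc tav (Mo μ n s 1) 1 y ^ 2 ≤ CM * tav (Mo μ n s 0) 1 y * tav (Mo μ n s 2) 1 y := h1
      _ ≤ CM * (CM * (H * v)) * (K2 * (r0 ^ 2 * v)) :=
          mul_le_mul (mul_le_mul_of_nonneg_left h2 hCM.le) hMo2 (hMo2n y) (by positivity)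
      _ = CM * CM * H * K2 * (r0 * v) ^ 2 := by ring
  have hva : vv μ 1 a ≤ H * v := hup a (by linarith)
  have hdn : 0 ≤ discR n (2 * ε) (X13 β ε μ n 1) a := by
    unfold discR
    exact integral_nonneg fun y' => hX13n _
  have hBb : CB * vv μ 1 a * discR n (2 * ε) (X13 β ε μ n 1) a ≤ CB * H * (r0 * v) ^ 2 := by
    calc CB * vv μ 1 a * discR n (2 * ε) (X13 β ε μ n 1) a ≤ CB * (H * v) * (r0 ^ 2 * v) :=
          mul_le_mul (mul_le_mul_of_nonneg_left hva hCB.le) hdisc hdn (by positivity)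
      _ = CB * H * (r0 * v) ^ 2 := by ring
  have h30 := hB3 0 le_rfl (fun _ => 0) (fun i => i.elim0) (fun i => i.elim0) a
  have hXa : |X13 β ε μ n 1 a| ≤ KB * (r0 * v) := by
    refine abs_le_of_sq (by positivity) hr0v (le_trans ?_ hBb)
    have := h30.1
    rwa [iteratedFDeriv_zero_apply] at this
  have hXa' : |fderiv ℝ (X13 β ε μ n 1) a n| ≤ KB * (r0 * v) := by
    refine abs_le_of_sq (by positivity) hr0v (le_trans ?_ hBb)
    have := h30.2
    rwa [iteratedFDeriv_zero_apply] at this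
  have hLLe : LL β ε μ n s y = X13 β ε μ n 1 a + h * fderiv ℝ (X13 β ε μ n 1) a n := rfl
  have hLL : |LL β ε μ n s y| ≤ KL * (r0 * v) := by
    rw [hLLe]
    refine (abs_add_le _ _).trans ?_
    rw [abs_mul, hKL]
    have h1 : |h| * |fderiv ℝ (X13 β ε μ n 1) a n| ≤ 2 * R0 * (KB * (r0 * v)) :=
      mul_le_mul hhb hXa' (abs_nonneg _) (by positivity)
    linarith
  have hze : ze β ε μ n s y = LL β ε μ n s y + (tav (Mo μ n s 2) 1 y
      - 2 * (h * tav (Mo μ n s 1) 1 y)) := rfl
  by_cases hq : qq A μ 1 y ≤ p0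
  · -- far case
    have hf := (hFK.far β hβ μ hμ n hn y hq).1
    have hzeb : ze β ε μ n s y ≤ Kz * (r0 * v) := by
      rw [hze, hKz]
      have h1 := le_abs_self (LL β ε μ n s y)
      have h2 : -(2 * (h * tav (Mo μ n s 1) 1 y)) ≤ 4 * R0 * K1 * (r0 * v) := by
        have h3 : |h * tav (Mo μ n s 1) 1 y| ≤ 2 * R0 * (K1 * (r0 * v)) := by
          rw [abs_mul]
          exact mul_le_mul hhb hMo1 (abs_nonneg _) (by positivity)
        have h4 := neg_abs_le (h * tav (Mo μ n s 1) 1 y)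
        linarith
      have h5 : K2 * (r0 ^ 2 * v) ≤ K2 * (r0 * v) := by gcongr
      linarith
    have h6 : c * ze β ε μ n s y ≤ c * (1 / (2 * H)) * v := by
      calc c * ze β ε μ n s y ≤ c * (Kz * (r0 * v)) := by gcongr
        _ = c * (Kz * r0) * v := by ring
        _ ≤ _ := by gcongr
    have h7 : κ * v * h ^ 2 ≤ c * (1 / (2 * H)) * v := by
      calc κ * v * h ^ 2 ≤ κ * v * (4 * R0 ^ 2) := by gcongr
        _ = κ * (4 * R0 ^ 2) * v := by ring
        _ ≤ _ := by gcongr
    have h8 : c * (1 / (2 * H)) * v + c * (1 / (2 * H)) * v ≤ c * vv μ 1 y := by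
      have : c * (1 / (2 * H)) * v + c * (1 / (2 * H)) * v = c * (v / H) := by
        field_simp
        norm_num
      rw [this]
      have h9 : v / H ≤ vv μ 1 y := by
        rw [div_le_iff₀ hHp]
        linarith
      gcongr
    linarith
  · -- near case
    push Not at hq
    have hgain := hFK.gain β hβ μ hμ n hn y
    have hlow := hM0 μ hμ n s hn y hy hq.le
    have hXXy : XX β ε μ n 1 y = X13 β ε μ n 1 y + (tav (Mo μ n s 2) 1 y
        - 2 * (h * tav (Mo μ n s 1) 1 y) + h ^ 2 * tav (Mo μ n s 0) 1 y) := by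
      rw [hXX, hM1 y, hhin]
      ring
    have hkey : c2 / 2 * (v * h ^ 2) ≤
        X13 β ε μ n 1 y - LL β ε μ n s y + h ^ 2 * tav (Mo μ n s 0) 1 y := by
      have hM0' : h ^ 2 * (c2 * v) ≤ h ^ 2 * tav (Mo μ n s 0) 1 y := by gcongr
      by_cases hz : z0 ≤ |h|
      · have h1 := hX13n y
        have h2 := le_abs_self (LL β ε μ n s y)
        have h3 : z0 ^ 2 ≤ h ^ 2 := by
          rw [← sq_abs h]
          gcongr
        have h4 : KL * (r0 * v) ≤ c2 / 2 * h ^ 2 * v := by
          calc KL * (r0 * v) = KL * r0 * v := by ring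
            _ ≤ c2 / 2 * z0 ^ 2 * v := by gcongr
            _ ≤ _ := by gcongr
        have h5 : h ^ 2 * (c2 * v) = c2 / 2 * (v * h ^ 2) + c2 / 2 * h ^ 2 * v := by ring
        linarith
      · push Not at hz
        -- Taylor
        have hTy := taylor_low (hX13s.of_le (by norm_num)) n a h (c2 * v) (fun r hr => by
          have hrz : |r| ≤ z0 := hr.trans hz.le
          have hxn : ‖a + r • n‖ ≤ 3 * R0 := by
            refine (norm_add_le _ _).trans ?_
            rw [norm_smul, hn, mul_one, Real.norm_eq_abs]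
            linarith
          have h1 := hB4 (a + r • n)
          have h2 : discR n (2 * ε) (X13 β ε μ n 1) (a + r • n) ≤
              r0 ^ 2 * v + CW * (H * v) * |r| * FGm.vb d := by
            have h3 := disc_lip hd hn (hX13s.of_le (by norm_num)) (ρ := 2 * ε)
              (L := CW * (H * v)) (by linarith) (by positivity) a r (fun x hx => by
                have h4 := hX13b 1 (by norm_num) x
                rw [norm_iteratedFDeriv_one] at h4
                refine h4.trans (mul_le_mul_of_nonneg_left (hup x ?_) hCW.le)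
                have h5 : ‖x‖ ≤ ‖x - a‖ + ‖a‖ := by
                  have := norm_add_le (x - a) a
                  rwa [sub_add_cancel] at this
                linarith)
            linarith
          have h6 : vv μ 1 (a + r • n) * discR n (2 * ε) (X13 β ε μ n 1) (a + r • n) ≤
              g * v ^ 2 := by
            have h7 : 0 ≤ discR n (2 * ε) (X13 β ε μ n 1) (a + r • n) := by
              unfold discR
              exact integral_nonneg fun y' => hX13n _
            calc vv μ 1 (a + r • n) * discR n (2 * ε) (X13 β ε μ n 1) (a + r • n)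
                ≤ (H * v) * (r0 ^ 2 * v + CW * (H * v) * |r| * FGm.vb d) :=
                  mul_le_mul (hup _ hxn) h2 h7 (by positivity)
              _ ≤ (H * v) * (r0 * v + CW * (H * v) * z0 * FGm.vb d) := by gcongr
              _ = (H * r0 + H * (CW * H * FGm.vb d * z0)) * v ^ 2 := by ring
              _ ≤ (g / 2 + g / 2) * v ^ 2 := by gcongr
              _ = g * v ^ 2 := by ring
          have h8 : Real.sqrt (vv μ 1 (a + r • n) *
              discR n (2 * ε) (X13 β ε μ n 1) (a + r • n)) ≤ c2 / CB * v := by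
            refine (Real.sqrt_le_sqrt h6).trans ?_
            rw [hg, ← mul_pow, Real.sqrt_sq (by positivity)]
          have h9 : CB * Real.sqrt (vv μ 1 (a + r • n) *
              discR n (2 * ε) (X13 β ε μ n 1) (a + r • n)) ≤ c2 * v := by
            calc _ ≤ CB * (c2 / CB * v) := by gcongr
              _ = c2 * v := by field_simp
          linarith)
        rw [hay] at hTy
        rw [hLLe]
        have h5 : h ^ 2 * (c2 * v) = c2 / 2 * (v * h ^ 2) + c2 * v * h ^ 2 / 2 := by ring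
        linarith
    have hfin : c * ze β ε μ n s y + c * (c2 / 2 * (v * h ^ 2)) ≤ Hn β ε p0 A μ n 1 y := by
      refine le_trans ?_ hgain
      rw [hXXy, hze]
      have := mul_le_mul_of_nonneg_left hkey hc.le
      linarith
    have h10 : κ * v * h ^ 2 ≤ c * (c2 / 2 * (v * h ^ 2)) := by
      calc κ * v * h ^ 2 = κ * (v * h ^ 2) := by ring
        _ ≤ c * c2 / 2 * (v * h ^ 2) := by gcongr
        _ = _ := by ring
    linarith

end TG
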