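import Pool.Agent.TG.TA1x
import Pool.Agent.TG.TA1p

/-!
# MODULE TA1 (11.1): gain of a sheet cell, case A1 (helper88)
-/

open MeasureTheory Metric Set TrI
open scoped InnerProductSpace ContDiff

namespace TG

namespace TA1m

noncomputable section

variable {d : ℕ}

lemma ze_eq (β : Sp d → ℝ) (ε : ℝ) (μ : Measure (Sp d)) (n : Sp d) (s : ℝ) :
    ze β ε μ n s = zz (X13 β ε μ n 1) (mM μ n s 1) (mM μ n s 2) n s := rfl

section Bounds

variable {J : ℕ} {K ε Rb : ℝ} {β : Sp d → ℝ} {μ : Measure (Sp d)} {n : Sp d} {s : ℝ}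

/-- the constant of the bounds of ze -/
def K7 (d : ℕ) (K R0 : ℝ) : ℝ :=
  (2 + 12 * (2 * R0)) * (K ^ 2 * (1 + 2 * R0) ^ (2 * d + 4) * Real.sqrt (K6 d K))

lemma K7_pos (d : ℕ) {K R0 : ℝ} (hK : 1 ≤ K) (hR0 : 0 ≤ R0) : 0 < K7 d K R0 := by
  have := Real.sqrt_pos.2 (K6_pos d hK)
  unfold K7
  positivity

lemma Fac.ze_bd {R0 : ℝ} (h : Fac J K ε (2 * R0) β μ n s) (hd : 2 ≤ d) (hε1 : ε ≤ 1 / 4)
    (hR0 : 4 * (d : ℝ) + 24 ≤ R0) (hs : |s| ≤ 3 / 2 * R0) {y : Sp d} (hy : ‖y‖ ≤ d) {j : ℕ}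
    (hj : j ≤ 2) : ‖iteratedFDeriv ℝ j (ze β ε μ n s) y‖ ≤
      K7 d K R0 * Real.sqrt (vv μ 1 0 * PP β ε μ n s (2 * R0 - 1)) := by
  have hK1 := h.K1
  have hK : 0 < K := by linarith
  have hd0 : (0 : ℝ) ≤ d := Nat.cast_nonneg d
  have hn := h.n1
  have hz1 : ‖yS n s y‖ ≤ 3 / 2 * R0 + d := (yS_norm hn s y).trans (add_le_add hs hy)
  have hz : ⟪n, yS n s y⟫_ℝ = s := yS_inner hn s y
  have hv0 := h.v0
  have hvb := FGm.vb_pos d
  have hQ := h.PPn (2 * R0 - 1)
  obtain ⟨a1, a2, a3, a4⟩ := h.plane hd hε1 (R := 2 * R0 - 1) hz (by linarith) (by linarith)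
  have hM2 := h.M2le hd (R := 2 * R0 - 1) hz (by linarith)
  set Q := PP β ε μ n s (2 * R0 - 1) with hQd
  set v := vv μ 1 0 with hvd
  set T0 := Real.sqrt (K6 d K) * Real.sqrt (v * Q) with hT0
  have hT0n : 0 ≤ T0 := by positivity
  have hvQ : 0 ≤ v * Q := mul_nonneg hv0 hQ
  have hW1 : (1 : ℝ) ≤ 1 + 2 * R0 := by linarith
  have hWp : (1 : ℝ) ≤ (1 + 2 * R0) ^ (2 * d + 4) := one_le_pow₀ hW1
  set W := (1 + 2 * R0) ^ (2 * d + 4) with hW
  have hW0 : 0 < W := by linarith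
  set T := K ^ 2 * W * T0 with hT
  have hK2 : 1 ≤ K ^ 2 := one_le_pow₀ hK1
  have hT0T : T0 ≤ T := by
    have : 1 ≤ K ^ 2 * W := one_le_mul_of_one_le_of_one_le hK2 hWp
    nlinarith
  have hdist : ‖yS n s y - y‖ ≤ 2 * R0 := by
    rw [norm_sub_rev, sub_yS, norm_smul, hn, mul_one, Real.norm_eq_abs]
    exact (hgt_abs hn s y).trans (by linarith)
  have hM2n := h.M2n (yS n s y)
  have hM2y : mM μ n s 2 y ≤ K * W * mM μ n s 2 (yS n s y) := by
    refine (h.M2h (yS n s y) y).trans ?_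
    refine mul_le_mul_of_nonneg_right (mul_le_mul_of_nonneg_left ?_ hK.le) hM2n
    exact pow_le_pow_left₀ (by positivity) (by linarith) _
  have hM2T : mM μ n s 2 (yS n s y) ≤ T0 := by
    have := a3 0 (Nat.zero_le _)
    rw [norm_iteratedFDeriv_zero, Real.norm_of_nonneg hM2n] at this
    exact this
  have hvy := h.vle y (by linarith)
  have hvn := h.vn y
  have hXJ : ContDiff ℝ 3 (X13 β ε μ n 1) := h.Xs.of_le (by exact_mod_cast (by omega : 3 ≤ J + 6))
  have key := D2_core (X := X13 β ε μ n 1) (M1 := mM μ n s 1) (M2 := mM μ n s 2) (n := n)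
    (s := s) (y := y) (T := T) (B := 2 * R0) hXJ
    (contDiff_infty.1 (h.Ms 1) 2) (contDiff_infty.1 (h.Ms 2) 2)
    (fun i hi => (comp_yS h.Xs hn a1 (by omega)).trans hT0T)
    (fun i hi => by
      refine (comp_yS (J := 2) (T := T0) (dN_smooth n (h.Xs.of_le
        (by exact_mod_cast (by omega : 2 + 1 ≤ J + 6)))) hn
        (fun k hk w hw0 hw1 => a2 k (by omega) w hw0 hw1) hi).trans hT0T)
    (fun i hi => by
      refine (h.M2d i (by omega) y).trans ?_
      calc K * mM μ n s 2 y ≤ K * (K * W * T0) :=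
            mul_le_mul_of_nonneg_left (hM2y.trans (mul_le_mul_of_nonneg_left hM2T
              (by positivity))) hK.le
        _ = T := by rw [hT]; ring)
    (fun i hi => by
      have e1 := h.M1d i (by omega) y
      have e2 : K * vv μ 1 y * mM μ n s 2 y ≤ W * (K6 d K * (v * Q)) := by
        calc K * vv μ 1 y * mM μ n s 2 y
            ≤ K * (K * v) * (K * W * (K * 2 ^ (2 * d + 4) / FGm.vb d * Q)) := by
              refine mul_le_mul (mul_le_mul_of_nonneg_left hvy hK.le) (hM2y.trans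
                (mul_le_mul_of_nonneg_left hM2 (by positivity))) (h.M2n y) (by positivity)
          _ = W * ((K ^ 4 * (2 ^ (2 * d + 4) / FGm.vb d)) * (v * Q)) := by ring
          _ ≤ W * (K6 d K * (v * Q)) := by
              refine mul_le_mul_of_nonneg_left (mul_le_mul_of_nonneg_right ?_ hvQ) hW0.le
              refine le_trans ?_ (K6_ge' d hK1)
              refine mul_le_mul_of_nonneg_right (pow_le_pow_right₀ hK1 (by norm_num))
                (by positivity)
      have e3 : W * (K6 d K * (v * Q)) ≤ (W * T0) ^ 2 := by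
        rw [hT0, mul_pow, mul_pow, Real.sq_sqrt (K6_pos d hK1).le, Real.sq_sqrt hvQ]
        refine mul_le_mul_of_nonneg_right ?_ (mul_nonneg (K6_pos d hK1).le hvQ)
        nlinarith
      have e4 : ‖iteratedFDeriv ℝ i (mM μ n s 1) y‖ ≤ W * T0 :=
        (pow_le_pow_iff_left₀ (norm_nonneg _) (by positivity) two_ne_zero).1
          (e1.trans (e2.trans e3))
      refine e4.trans ?_
      rw [hT, mul_assoc]
      have : 0 ≤ W * T0 := by positivity
      nlinarith)
    (fun i hi => by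
      refine (TU.ht_bd hn s y i).trans (max_le (by linarith) ?_)
      exact (hgt_abs hn s y).trans (by linarith)) hj
  rw [ze_eq]
  refine key.trans (le_of_eq ?_)
  unfold K7
  rw [hT, hT0]
  ring

end Bounds

lemma chi_far (hd : 2 ≤ d) {f : Sp d → ℝ} {y : Sp d} (hy : (d : ℝ) ≤ ‖y‖) :
    (fun x => chi x * f x) =ᶠ[nhds y] fun _ => 0 := by
  filter_upwards [TDc.chi_ev hd hy] with z hz
  rw [hz, zero_mul]

lemma chi_far' (hd : 2 ≤ d) {f : Sp d → ℝ} (n : Sp d) {y : Sp d} (hy : (d : ℝ) ≤ ‖y‖) :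
    (fun x => fderiv ℝ (fun z => chi z * f z) x n) =ᶠ[nhds y] fun _ => 0 := by
  filter_upwards [(chi_far hd (f := f) hy).eventually_nhds] with z hz
  have hz' : (fun x => chi x * f x) =ᶠ[nhds z] fun _ => 0 := hz
  rw [hz'.fderiv_eq]
  simp

lemma zR_one' {R : ℝ} {x : Sp d} (h : ‖x‖ ≤ R) : zR R x = 1 := FGm.zR_one h

end

end TA1m

open TA1m in
/-- TA1 from the pointwise inequality -/
theorem stmtTA1_of (hPt : StmtPtA) (hWA : StmtWA) (hUB : StmtUB) (hWB : StmtWB)
    (hMO : StmtMO) (hPF : StmtPF) : StmtTA1 := by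
  intro d J hd M C' ε p0 A c R0 hC' hε hε1 hFK hR0
  have hε2 : ε ≤ 1 := by linarith
  have hA := hFK.A_ge
  have hc := hFK.c_pos
  have hd0 : (0 : ℝ) ≤ d := Nat.cast_nonneg d
  have hR : 4 * (d : ℝ) + 24 ≤ R0 := by linarith
  have hR00 : 0 ≤ R0 := by linarith
  obtain ⟨κ, i1, hκ, hκc, hi1, hpt⟩ := hPt d J hd M C' ε p0 A c R0 hC' hε hε1 hFK hR0
  obtain ⟨K, hK1, hFac⟩ := exists_Fac hWA hWB hMO hd J M C' ε (2 * R0) hC' hε hε2
  obtain ⟨C2, hC2, h2⟩ := hUB d 2 hd M C' ε p0 A hC' hε hε2 hFK.p0_pos hFK.p0_le hA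
  obtain ⟨Nc, hNc, hchi⟩ := TA2Aux.chi_TFnJ (d := d) (by omega) (J + 2)
  obtain ⟨Cp, hCp, hup⟩ := plInt_up (d := d) hPF (by omega) (R := (d : ℝ) + 2)
  have hK : 0 < K := by linarith
  have hK7 := K7_pos d hK1 hR00
  refine ⟨κ, hκ, fun δ hδ => ?_⟩
  set i2 : ℝ := (δ / (c * (4 * (Nc * K7 d K R0)))) ^ 2 with hi2
  have hi2p : 0 < i2 := by positivity
  set i0 : ℝ := min i1 (min 1 i2) with hi0
  have hi0p : 0 < i0 := lt_min hi1 (lt_min one_pos hi2p)
  set K8 : ℝ := 2 ^ J * (Nc * (6 * Real.sqrt (K6 d K))) with hK8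
  have hK8n : 0 ≤ K8 := by positivity
  set K9 : ℝ := 2 ^ 2 * (Nc * (C2 * K + c * K7 d K R0 + κ * (2 ^ 2 * (2 * R0) ^ 2))) with hK9
  have hK9n : 0 ≤ K9 := by positivity
  set K10 : ℝ := K8 * Real.sqrt (Cp * K ^ 2) with hK10
  have hK10n : 0 ≤ K10 := by positivity
  refine ⟨i0, c * K8 + c * K10 + δ + K9 + 1, hi0p, by positivity, ?_⟩
  intro β hβ μ hμ m n s ab ep D hm hD hZ hS hsmall
  have hn := hS.n1
  have hs := hS.loc
  have F := hFac β hβ μ hμ n s hn
  set v : ℝ := vv μ 1 0 with hv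
  have hv0 : 0 ≤ v := F.v0
  have hQ : PP β ε μ n s (2 * R0 - 1) ≤ i0 * v := hsmall
  have hPt' := hpt β hβ μ hμ n s hn hs (hsmall.trans (mul_le_mul_of_nonneg_right
    (min_le_left _ _) hv0))
  obtain ⟨_, _, _, _, _, _, _, _, _, h2n, _, _⟩ := h2 β (PTm.kit_mono (by omega) hβ) μ hμ
  obtain ⟨hHs, hHb⟩ := h2n n hn
  have hdR : (d : ℝ) ≤ R0 := by linarith
  have hsv : Real.sqrt (v * PP β ε μ n s (2 * R0 - 1)) ≤ Real.sqrt i0 * v := by
    calc Real.sqrt (v * PP β ε μ n s (2 * R0 - 1)) ≤ Real.sqrt (i0 * v ^ 2) := by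
          refine Real.sqrt_le_sqrt ?_
          nlinarith
      _ = Real.sqrt i0 * v := by rw [Real.sqrt_mul hi0p.le, Real.sqrt_sq hv0]
  have hze : ∀ j ≤ 2, ∀ y : Sp d, ‖y‖ ≤ d → ‖iteratedFDeriv ℝ j (ze β ε μ n s) y‖ ≤
      K7 d K R0 * (Real.sqrt i0 * v) := fun j hj y hy =>
    (F.ze_bd hd hε1 hR hs hy hj).trans (mul_le_mul_of_nonneg_left hsv hK7.le)
  have hzes : ContDiff ℝ (J + 2 : ℕ) (ze β ε μ n s) := by
    rw [ze_eq]
    exact zz_smooth n s (F.Xs.of_le (by exact_mod_cast (by omega : J + 2 + 1 ≤ J + 6)))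
      (contDiff_infty.1 (F.Ms 1) (J + 2)) (contDiff_infty.1 (F.Ms 2) (J + 2))
  have hzes2 : ContDiff ℝ 2 (ze β ε μ n s) :=
    hzes.of_le (by exact_mod_cast (by omega : 2 ≤ J + 2))
  have hchis : ∀ y : Sp d, (d : ℝ) < ‖y - 0‖ → chi y = 0 := fun y hy => by
    rw [sub_zero] at hy
    exact PTm.chi_supp hy.le (by omega)
  have hchi2 : TFn 2 Nc (chi : Sp d → ℝ) := TU.TFn_mono hchi (by omega) le_rfl
  have hi01 : Real.sqrt i0 ≤ 1 := by
    refine Real.sqrt_le_iff.2 ⟨zero_le_one, ?_⟩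
    rw [one_pow]
    exact (min_le_right _ _).trans (min_le_left _ _)
  have hi02 : Real.sqrt i0 ≤ δ / (c * (4 * (Nc * K7 d K R0))) := by
    refine Real.sqrt_le_iff.2 ⟨by positivity, ?_⟩
    exact (min_le_right _ _).trans (min_le_right _ _)
  -- second derivatives of the test function
  have hN2 : TFn 2 (δ / c * v) (fun y => chi y * ze β ε μ n s y) := by
    refine TU.TFn_mono (TU.TFn_mul_ball (x₀ := 0) (ρ := d)
      (M := K7 d K R0 * (Real.sqrt i0 * v)) hchi2 hchis hzes2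
      (fun j hj y hy => hze j hj y (by rwa [sub_zero] at hy)) (by positivity)) le_rfl ?_
    calc 2 ^ 2 * (Nc * (K7 d K R0 * (Real.sqrt i0 * v)))
        = (4 * (Nc * K7 d K R0)) * Real.sqrt i0 * v := by ring
      _ ≤ (4 * (Nc * K7 d K R0)) * (δ / (c * (4 * (Nc * K7 d K R0)))) * v := by gcongr
      _ = δ / c * v := by field_simp
  -- the bound on the plane
  set P := PP β ε μ n s ((d : ℝ) + 2) with hP
  have hPn : 0 ≤ P := F.PPn _
  have hTB : TB J n s (K8 * Real.sqrt (v * P)) (fun y => chi y * ze β ε μ n s y) := by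
    refine TB_of_TDb fun y hy => ?_
    by_cases hyd : (d : ℝ) ≤ ‖y‖
    · exact ⟨TDb.of_ev (chi_far hd hyd) (by positivity),
        TDb.of_ev (chi_far' hd n hyd) (by positivity)⟩
    · push Not at hyd
      obtain ⟨a1, a2, a3, a4⟩ := F.plane hd hε1 (R := (d : ℝ) + 2) hy (by linarith) (by linarith)
      have hM2s : ContDiff ℝ (J + 1 : ℕ) (mM μ n s 2) := contDiff_infty.1 (F.Ms 2) (J + 1)
      have hM1s : ContDiff ℝ (J + 1 : ℕ) (mM μ n s 1) := contDiff_infty.1 (F.Ms 1) (J + 1)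
      have hchis1 : ContDiff ℝ (J + 1 : ℕ) (chi : Sp d → ℝ) :=
        hchi.smooth.of_le (by exact_mod_cast (by omega : J + 1 ≤ J + 2))
      obtain ⟨r1, r2⟩ := TB_core (J := J) (X := X13 β ε μ n 1) (M1 := mM μ n s 1)
        (M2 := mM μ n s 2) (φ := chi) hn (s := s)
        (F.Xs.of_le (by exact_mod_cast (by omega : J + 2 ≤ J + 6))) hM1s hM2s hchis1 hy
        (N := Real.sqrt (K6 d K) * Real.sqrt (v * P)) (B := Nc)
        (fun k hk w hw0 hw1 => a1 k (by omega) w hw0 hw1)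
        (fun k hk w hw0 hw1 => a2 k (by omega) w hw0 hw1)
        (TDb.of_full fun j hj => a3 j (by omega))
        (TDb.of_full fun j hj => dN_full hn hM2s (fun i hi => a3 i (by omega)) hj)
        (TDb.of_full fun j hj => a4 j (by omega))
        (TDb.of_full fun j hj => hchi.bd j (by omega) y)
        (TDb.of_full fun j hj => dN_full hn hchis1 (fun i hi => hchi.bd i (by omega) y) hj)
      have e : 2 ^ J * (Nc * (6 * (Real.sqrt (K6 d K) * Real.sqrt (v * P)))) =
          K8 * Real.sqrt (v * P) := by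
        rw [hK8]
        ring
      rw [e] at r1 r2
      exact ⟨r1, r2⟩
  -- bound of P
  have hPv : P ≤ Cp * (K * (K * v)) := by
    refine hup n s hn (XX β ε μ n 1) _ (by positivity) F.XXs.continuous (fun x hx => ?_)
    rw [abs_of_nonneg (F.XX0 x)]
    refine (F.XXb x).trans (mul_le_mul_of_nonneg_left (F.vle x ?_) hK.le)
    linarith
  have hNv : K8 * Real.sqrt (v * P) ≤ K10 * v := by
    have e1 : Real.sqrt (v * P) ≤ Real.sqrt (Cp * K ^ 2) * v := by
      calc Real.sqrt (v * P) ≤ Real.sqrt (Cp * K ^ 2 * v ^ 2) := by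
            refine Real.sqrt_le_sqrt ?_
            calc v * P ≤ v * (Cp * (K * (K * v))) := mul_le_mul_of_nonneg_left hPv hv0
              _ = _ := by ring
        _ = Real.sqrt (Cp * K ^ 2) * v := by
            rw [Real.sqrt_mul (by positivity), Real.sqrt_sq hv0]
    calc K8 * Real.sqrt (v * P) ≤ K8 * (Real.sqrt (Cp * K ^ 2) * v) :=
          mul_le_mul_of_nonneg_left e1 hK8n
      _ = K10 * v := by
          rw [hK10]
          ring
  -- the sheet estimate
  have hest := hS.est (fun y => chi y * ze β ε μ n s y) d (K8 * Real.sqrt (v * P)) (δ / c * v)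
    (hchi.smooth.mul hzes) hd0 hdR
    (fun y hy => by rw [PTm.chi_supp hy (by omega), zero_mul]) hTB (fun y => hN2.bd 2 le_rfl y)
  have hpl : plInt n s (fun y => chi y * ze β ε μ n s y) =
      plInt n s (fun y => chi y * XX β ε μ n 1 y) := by
    unfold plInt
    congr 1
    funext w
    have hw : ⟪n, s • n + (w : Sp d)⟫_ℝ = s := by
      rw [inner_add_right, mem_T, inner_smul_right, real_inner_self_eq_norm_sq, hn]
      ring
    have e1 : ze β ε μ n s (s • n + (w : Sp d)) = XX β ε μ n 1 (s • n + (w : Sp d)) := by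
      rw [ze_eq, zz_plane hw, F.XXp _ hw]
    show chi (s • n + (w : Sp d)) * ze β ε μ n s (s • n + (w : Sp d)) =
      chi (s • n + (w : Sp d)) * XX β ε μ n 1 (s • n + (w : Sp d))
    rw [e1]
  rw [hpl] at hest
  -- the positive function
  have hhs : ContDiff ℝ 2 (fun y => hgt n s y ^ 2) := (hgt_smooth n s).pow 2
  have hg : ContDiff ℝ 2 (fun y => Hn β ε p0 A μ n 1 y + ((-c) • ze β ε μ n s y +
      (-(κ * v)) • hgt n s y ^ 2)) :=
    (contDiff_infty.1 hHs 2).add ((hzes2.const_smul (-c)).add (hhs.const_smul (-(κ * v))))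
  have hF : TFn 2 (K9 * v) (fun y => chi y * (Hn β ε p0 A μ n 1 y +
      ((-c) • ze β ε μ n s y + (-(κ * v)) • hgt n s y ^ 2))) := by
    refine TU.TFn_mono (TU.TFn_mul_ball (x₀ := 0) (ρ := d)
      (M := C2 * (K * v) + (c * (K7 d K R0 * v) + κ * v * (2 ^ 2 * (2 * R0) ^ 2)))
      hchi2 hchis hg ?_ (by positivity)) le_rfl (le_of_eq ?_)
    · intro j hj y hy
      rw [sub_zero] at hy
      have hjj : (j : WithTop ℕ∞) ≤ (2 : ℕ) := by exact_mod_cast hj
      have e1 : ContDiffAt ℝ j (Hn β ε p0 A μ n 1) y := (contDiff_infty.1 hHs j).contDiffAt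
      have e2 : ContDiffAt ℝ j (ze β ε μ n s) y := (hzes2.of_le hjj).contDiffAt
      have e3 : ContDiffAt ℝ j (fun y => hgt n s y ^ 2) y := (hhs.of_le hjj).contDiffAt
      have e4 : ContDiffAt ℝ j (fun y => (-c) • ze β ε μ n s y) y := e2.const_smul (-c)
      have e5 : ContDiffAt ℝ j (fun y => (-(κ * v)) • hgt n s y ^ 2) y := e3.const_smul (-(κ * v))
      rw [fun_iteratedFDeriv_add_apply e1 (e4.add e5), fun_iteratedFDeriv_add_apply e4 e5,
        iteratedFDeriv_const_smul_apply' e2, iteratedFDeriv_const_smul_apply' e3]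
      refine (norm_add_le _ _).trans (add_le_add ?_ ((norm_add_le _ _).trans (add_le_add ?_ ?_)))
      · exact (hHb j hj y).trans (mul_le_mul_of_nonneg_left (F.vle y (by linarith)) hC2.le)
      · rw [norm_smul, Real.norm_eq_abs, abs_neg, abs_of_pos hc]
        refine mul_le_mul_of_nonneg_left ((hze j hj y hy).trans ?_) hc.le
        refine mul_le_mul_of_nonneg_left ?_ hK7.le
        nlinarith
      · rw [norm_smul, Real.norm_eq_abs, abs_neg, abs_of_nonneg (mul_nonneg hκ.le hv0)]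
        refine mul_le_mul_of_nonneg_left ?_ (mul_nonneg hκ.le hv0)
        refine (TU.ht_sq_bd hn s y j).trans ?_
        have q1 : (2 : ℝ) ^ j ≤ 2 ^ 2 := pow_le_pow_right₀ (by norm_num) hj
        have q2 : max 1 |ht n s y| ≤ 2 * R0 := max_le (by linarith)
          ((hgt_abs hn s y).trans (by linarith))
        have q3 : 0 ≤ max 1 |ht n s y| := le_max_of_le_left zero_le_one
        exact mul_le_mul q1 (pow_le_pow_left₀ q3 q2 2) (by positivity) (by positivity)
    · rw [hK9]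
      ring
  have hZF := GSAux.ZP' hZ hF (fun y => by
      by_cases hyd : ‖y‖ ≤ d
      · refine mul_nonneg (PTm.chi_nonneg y) ?_
        have := hPt' y hyd
        simp only [smul_eq_mul]
        linarith
      · push Not at hyd
        rw [PTm.chi_supp hyd.le (by omega), zero_mul])
    (fun y hy => by rw [PTm.chi_supp (hdR.trans hy) (by omega), zero_mul])
  -- integrability
  have hcs : HasCompactSupport (chi : Sp d → ℝ) := TDc.chi_cs (by omega)
  have hchic : Continuous (chi : Sp d → ℝ) := hchi.smooth.continuous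
  have hHc : Continuous (Hn β ε p0 A μ n 1) := hHs.continuous
  have hzc : Continuous (ze β ε μ n s) := hzes.continuous
  have hhc : Continuous (fun y => hgt n s y ^ 2) := hhs.continuous
  have i1' : Integrable (fun y => m y * (chi y * Hn β ε p0 A μ n 1 y)) :=
    (hm.mul (hchic.mul hHc)).integrable_of_hasCompactSupport (hcs.mul_right).mul_left
  have i2' : Integrable (fun y => m y * (chi y * ze β ε μ n s y)) :=
    (hm.mul (hchic.mul hzc)).integrable_of_hasCompactSupport (hcs.mul_right).mul_left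
  have i3' : Integrable (fun y => m y * (chi y * hgt n s y ^ 2)) :=
    (hm.mul (hchic.mul hhc)).integrable_of_hasCompactSupport (hcs.mul_right).mul_left
  have hsum : ∫ y, m y * (chi y * (Hn β ε p0 A μ n 1 y +
      ((-c) • ze β ε μ n s y + (-(κ * v)) • hgt n s y ^ 2))) =
      ((∫ y, m y * (chi y * Hn β ε p0 A μ n 1 y)) -
        c * ∫ y, m y * (chi y * ze β ε μ n s y)) -
        κ * v * ∫ y, m y * (chi y * hgt n s y ^ 2) := by
    have i12 : Integrable (fun y => m y * (chi y * Hn β ε p0 A μ n 1 y) -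
        c * (m y * (chi y * ze β ε μ n s y))) := i1'.sub (i2'.const_mul c)
    rw [← integral_const_mul, ← integral_const_mul, ← integral_sub i1' (i2'.const_mul c),
      ← integral_sub i12 (i3'.const_mul (κ * v))]
    congr 1
    ext y
    simp only [smul_eq_mul]
    ring
  rw [hsum] at hZF
  -- conclusion
  have hP0 : 0 ≤ plInt n s (fun y => chi y * XX β ε μ n 1 y) :=
    plInt_nonneg fun x => mul_nonneg (PTm.chi_nonneg x) (F.XX0 x)
  have h5 := mul_le_mul_of_nonneg_left (abs_le.1 hest).1 hc.le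
  have hab : κ * (ab * plInt n s (fun y => chi y * XX β ε μ n 1 y)) ≤
      c * (ab * plInt n s (fun y => chi y * XX β ε μ n 1 y)) :=
    mul_le_mul_of_nonneg_right hκc (mul_nonneg hS.ab0.le hP0)
  have hep := hS.ep0
  set S := Real.sqrt (v * P) with hSd
  have hS0 : 0 ≤ S := Real.sqrt_nonneg _
  have hcc : c * (δ / c * v * blc n s m (d + 1)) = δ * v * blc n s m (d + 1) := by
    field_simp
  have hcD : c * ((K8 * S + δ / c * v) * D) ≤ (c * K10 + δ) * v * D := by
    have e1 : c * ((K8 * S + δ / c * v) * D) = (c * (K8 * S) + δ * v) * D := by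
      field_simp
    rw [e1]
    refine mul_le_mul_of_nonneg_right ?_ hD
    have := mul_le_mul_of_nonneg_left hNv hc.le
    linarith
  have q1 : 0 ≤ v * D := mul_nonneg hv0 hD
  have q2 : 0 ≤ ep * S := mul_nonneg hep hS0
  have goalP : Real.sqrt (v * plInt n s (fun x => zR (d + 2) x * XX β ε μ n 1 x)) = S := rfl
  rw [goalP]
  have q3 : 0 ≤ (c * K10 + δ + K9 + 1) * (ep * S) := by positivity
  have q4 : 0 ≤ (c * K8 + 1) * (v * D) := by positivity
  nlinarith

/-- MODULE TA1 -/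
theorem stmtTA1 (hTH : StmtTH) (hWA : StmtWA) (hUB : StmtUB) (hWB : StmtWB) (hMO : StmtMO)
    (hPF : StmtPF) : StmtTA1 :=
  stmtTA1_of (TA1m.stmtPtA hTH hWA hWB hMO) hWA hUB hWB hMO hPF

end TG
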