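import Pool.Agent.TG.Stmts11

/-!
# MODULE TA1 (11.1), case A1: definitions and the statement of the pointwise part (helper88)
-/

open MeasureTheory Metric Set TrI
open scoped InnerProductSpace ContDiff

namespace TG

namespace TA1m

noncomputable section

variable {d : ℕ}

/-- orthogonal projection to the plane {⟨n,x⟩ = s} -/
def yS (n : Sp d) (s : ℝ) (y : Sp d) : Sp d := s • n + tang n y

/-- the Taylor polynomial of X13 in normal direction, at the plane -/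
def LL (β : Sp d → ℝ) (ε : ℝ) (μ : Measure (Sp d)) (n : Sp d) (s : ℝ) (y : Sp d) : ℝ :=
  X13 β ε μ n 1 (yS n s y) + hgt n s y * fderiv ℝ (X13 β ε μ n 1) (yS n s y) n

/-- the test function on the sheet (without the cut-off) -/
def ze (β : Sp d → ℝ) (ε : ℝ) (μ : Measure (Sp d)) (n : Sp d) (s : ℝ) (y : Sp d) : ℝ :=
  LL β ε μ n s y + (tav (Mo μ n s 2) 1 y - 2 * (hgt n s y * tav (Mo μ n s 1) 1 y))

/-- the pointwise inequality -/
def StmtPtA : Prop :=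
  ∀ (d J : ℕ), 2 ≤ d → ∀ (M C' ε p0 A c R0 : ℝ), 0 < C' → 0 < ε → ε ≤ 1 / 4 →
    FarK d (J + 10) M C' ε p0 A c → 4 * A + 4 * d + 20 ≤ R0 →
    ∃ κ i0 : ℝ, 0 < κ ∧ κ ≤ c ∧ 0 < i0 ∧
    ∀ β : Sp d → ℝ, Kit (J + 10) M β → ∀ μ : Measure (Sp d), Gro C' μ →
    ∀ (n : Sp d) (s : ℝ), ‖n‖ = 1 → |s| ≤ 3 / 2 * R0 →
      plInt n s (fun x => zR (2 * R0 - 1) x * XX β ε μ n 1 x) ≤ i0 * vv μ 1 0 →
      ∀ y : Sp d, ‖y‖ ≤ d →
        c * ze β ε μ n s y + κ * vv μ 1 0 * hgt n s y ^ 2 ≤ Hn β ε p0 A μ n 1 y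

end

end TA1m

end TG
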