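import Pool.Agent.TG.TA1d
import Pool.Agent.TG.TFU

/-!
# MODULE TA1: derivatives in directions tangential to a plane (helper88)
-/

open MeasureTheory Metric Set TrI
open scoped InnerProductSpace ContDiff

namespace TG

namespace TA1m

noncomputable section

variable {d : ℕ}

/-- tangential derivatives of order at most J at the point y are bounded by N -/
def TDb (J : ℕ) (n : Sp d) (N : ℝ) (f : Sp d → ℝ) (y : Sp d) : Prop :=
  ∀ j ≤ J, ∀ h : Fin j → Sp d, (∀ i, ⟪n, h i⟫_ℝ = 0) → (∀ i, ‖h i‖ ≤ 1) →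
    |iteratedFDeriv ℝ j f y h| ≤ N

/-- restriction to the plane through y -/
def rst (n : Sp d) (f : Sp d → ℝ) (y : Sp d) (w : (Submodule.span ℝ {n})ᗮ) : ℝ :=
  f (y + (w : Sp d))

lemma mem_T {n : Sp d} (w : (Submodule.span ℝ {n})ᗮ) : ⟪n, (w : Sp d)⟫_ℝ = 0 :=
  Submodule.mem_orthogonal_singleton_iff_inner_right.1 w.2

lemma rst_smooth {J : ℕ} {n : Sp d} {f : Sp d → ℝ} (hf : ContDiff ℝ J f) (y : Sp d) :
    ContDiff ℝ J (rst n f y) := by
  have h1 : ContDiff ℝ J (fun w : (Submodule.span ℝ {n})ᗮ => (w : Sp d)) :=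
    ((Submodule.span ℝ {n})ᗮ.subtypeL).contDiff
  exact hf.comp (contDiff_const.add h1)

lemma iter_rst {J : ℕ} {n : Sp d} {f : Sp d → ℝ} (hf : ContDiff ℝ J f) (y : Sp d) {j : ℕ}
    (hj : j ≤ J) (h : Fin j → (Submodule.span ℝ {n})ᗮ) :
    iteratedFDeriv ℝ j (rst n f y) 0 h = iteratedFDeriv ℝ j f y (fun i => (h i : Sp d)) := by
  have h1 : rst n f y = (fun x => f (y + x)) ∘ (Submodule.span ℝ {n})ᗮ.subtypeL := rfl
  have h2 : ContDiff ℝ J (fun x => f (y + x)) := hf.comp (contDiff_const.add contDiff_id)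
  rw [h1, ContinuousLinearMap.iteratedFDeriv_comp_right _ h2 _ (by exact_mod_cast hj)]
  have h3 : iteratedFDeriv ℝ j (fun x => f (y + x)) ((Submodule.span ℝ {n})ᗮ.subtypeL 0) =
      iteratedFDeriv ℝ j f y := by
    rw [iteratedFDeriv_comp_add_left, map_zero, add_zero]
  rw [h3]
  rfl

/-- bound of a multilinear map by its values on the unit ball -/
lemma mul_norm_le {V : Type*} [NormedAddCommGroup V] [NormedSpace ℝ V] {j : ℕ}
    (A : ContinuousMultilinearMap ℝ (fun _ : Fin j => V) ℝ) {N : ℝ} (hN : 0 ≤ N)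
    (h : ∀ v : Fin j → V, (∀ i, ‖v i‖ ≤ 1) → |A v| ≤ N) : ‖A‖ ≤ N := by
  refine A.opNorm_le_bound hN fun m => ?_
  by_cases hm : ∃ i, m i = 0
  · obtain ⟨i, hi⟩ := hm
    rw [A.map_coord_zero i hi, norm_zero]
    exact mul_nonneg hN (Finset.prod_nonneg fun i _ => norm_nonneg _)
  · push Not at hm
    have h1 : m = fun i => ‖m i‖ • ((‖m i‖)⁻¹ • m i) := by
      funext i
      rw [smul_smul, mul_inv_cancel₀ (norm_ne_zero_iff.2 (hm i)), one_smul]
    have h2 := h (fun i => (‖m i‖)⁻¹ • m i) (fun i => by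
      rw [norm_smul, norm_inv, norm_norm, inv_mul_cancel₀ (norm_ne_zero_iff.2 (hm i))])
    have h3 : A m = (∏ i, ‖m i‖) * A (fun i => (‖m i‖)⁻¹ • m i) := by
      conv_lhs => rw [h1]
      rw [A.map_smul_univ, smul_eq_mul]
    rw [h3, norm_mul, Real.norm_of_nonneg (Finset.prod_nonneg fun i _ => norm_nonneg _), mul_comm]
    exact mul_le_mul_of_nonneg_right h2 (Finset.prod_nonneg fun i _ => norm_nonneg _)

lemma TDb.norm_le {J : ℕ} {n : Sp d} {N : ℝ} {f : Sp d → ℝ} {y : Sp d} (h : TDb J n N f y)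
    (hf : ContDiff ℝ J f) (hN : 0 ≤ N) {j : ℕ} (hj : j ≤ J) :
    ‖iteratedFDeriv ℝ j (rst n f y) 0‖ ≤ N := by
  refine mul_norm_le _ hN fun v hv => ?_
  rw [iter_rst hf y hj]
  exact h j hj _ (fun i => mem_T _) hv

lemma TDb.of_norm {J : ℕ} {n : Sp d} {N : ℝ} {f : Sp d → ℝ} {y : Sp d}
    (hf : ContDiff ℝ J f) (h : ∀ j ≤ J, ‖iteratedFDeriv ℝ j (rst n f y) 0‖ ≤ N) :
    TDb J n N f y := by
  intro j hj v hv0 hv
  have h1 := iter_rst hf y hj (fun i => (⟨v i,
    Submodule.mem_orthogonal_singleton_iff_inner_right.2 (hv0 i)⟩ : (Submodule.span ℝ {n})ᗮ))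
  rw [← h1]
  refine ((iteratedFDeriv ℝ j (rst n f y) 0).le_opNorm _).trans ?_
  refine le_trans (mul_le_mul_of_nonneg_left ?_ (norm_nonneg _)) ((mul_one _).trans_le (h j hj))
  exact Finset.prod_le_one (fun i _ => norm_nonneg _) (fun i _ => hv i)

lemma TDb.nonneg {J : ℕ} {n : Sp d} {N : ℝ} {f : Sp d → ℝ} {y : Sp d} (h : TDb J n N f y) :
    0 ≤ N := (abs_nonneg _).trans (h 0 (Nat.zero_le _) (fun _ => 0) (by simp) (by simp))

lemma TDb.mono {J : ℕ} {n : Sp d} {N N' : ℝ} {f : Sp d → ℝ} {y : Sp d} (h : TDb J n N f y)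
    (hN : N ≤ N') : TDb J n N' f y := fun j hj v h0 h1 => (h j hj v h0 h1).trans hN

/-- a bound of all derivatives is a bound of the tangential derivatives -/
lemma TDb.of_full {J : ℕ} {n : Sp d} {N : ℝ} {f : Sp d → ℝ} {y : Sp d}
    (h : ∀ j ≤ J, ‖iteratedFDeriv ℝ j f y‖ ≤ N) : TDb J n N f y := by
  intro j hj v _ hv
  refine ((iteratedFDeriv ℝ j f y).le_opNorm _).trans ?_
  refine le_trans (mul_le_mul_of_nonneg_left ?_ (norm_nonneg _)) ((mul_one _).trans_le (h j hj))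
  exact Finset.prod_le_one (fun i _ => norm_nonneg _) (fun i _ => hv i)

lemma TDb.add {J : ℕ} {n : Sp d} {N N' : ℝ} {f g : Sp d → ℝ} {y : Sp d} (hf : ContDiff ℝ J f)
    (hg : ContDiff ℝ J g) (h : TDb J n N f y) (h' : TDb J n N' g y) :
    TDb J n (N + N') (fun x => f x + g x) y := by
  intro j hj v h0 h1
  have e : iteratedFDeriv ℝ j (fun x => f x + g x) y =
      iteratedFDeriv ℝ j f y + iteratedFDeriv ℝ j g y :=
    iteratedFDeriv_add_apply (hf.of_le (by exact_mod_cast hj)).contDiffAt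
      (hg.of_le (by exact_mod_cast hj)).contDiffAt
  rw [e, _root_.add_apply]
  exact (abs_add_le _ _).trans (add_le_add (h j hj v h0 h1) (h' j hj v h0 h1))

lemma TDb.const_mul {J : ℕ} {n : Sp d} {N : ℝ} {f : Sp d → ℝ} {y : Sp d} (hf : ContDiff ℝ J f)
    (h : TDb J n N f y) (c : ℝ) : TDb J n (|c| * N) (fun x => c * f x) y := by
  intro j hj v h0 h1
  have e : iteratedFDeriv ℝ j (fun x => c * f x) y = c • iteratedFDeriv ℝ j f y :=
    iteratedFDeriv_const_smul_apply' (a := c) (hf.of_le (by exact_mod_cast hj)).contDiffAt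
  rw [e, _root_.smul_apply, smul_eq_mul, abs_mul]
  exact mul_le_mul_of_nonneg_left (h j hj v h0 h1) (abs_nonneg _)

/-- Leibniz rule -/
lemma TDb.mul {J : ℕ} {n : Sp d} {N N' : ℝ} {f g : Sp d → ℝ} {y : Sp d} (hf : ContDiff ℝ J f)
    (hg : ContDiff ℝ J g) (h : TDb J n N f y) (h' : TDb J n N' g y) :
    TDb J n (2 ^ J * (N * N')) (fun x => f x * g x) y := by
  refine TDb.of_norm (hf.mul hg) fun j hj => ?_
  have h1 : rst n (fun x => f x * g x) y = fun w => rst n f y w * rst n g y w := rfl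
  rw [h1]
  have hN := h.nonneg
  have hN' := h'.nonneg
  refine (norm_iteratedFDeriv_mul_le (N := J) (rst_smooth hf y) (rst_smooth hg y) 0
    (by exact_mod_cast hj)).trans ?_
  calc ∑ i ∈ Finset.range (j + 1), (j.choose i : ℝ) * ‖iteratedFDeriv ℝ i (rst n f y) 0‖ *
        ‖iteratedFDeriv ℝ (j - i) (rst n g y) 0‖
      ≤ ∑ i ∈ Finset.range (j + 1), (j.choose i : ℝ) * (N * N') := by
        refine Finset.sum_le_sum fun i hi => ?_
        have hi' : i ≤ j := Nat.lt_succ_iff.mp (Finset.mem_range.mp hi)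
        rw [mul_assoc]
        refine mul_le_mul_of_nonneg_left ?_ (Nat.cast_nonneg _)
        exact mul_le_mul (h.norm_le hf hN (by omega)) (h'.norm_le hg hN' (by omega))
          (norm_nonneg _) hN
    _ = 2 ^ j * (N * N') := by
        rw [← Finset.sum_mul]
        congr 1
        exact_mod_cast Nat.sum_range_choose j
    _ ≤ 2 ^ J * (N * N') := by
        refine mul_le_mul_of_nonneg_right (pow_le_pow_right₀ (by norm_num) hj) (by positivity)

/-- tangential derivatives depend on the restriction to the plane only -/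
lemma TDb.congr {J : ℕ} {n : Sp d} {N : ℝ} {f g : Sp d → ℝ} {y : Sp d} (hf : ContDiff ℝ J f)
    (hg : ContDiff ℝ J g) (h : TDb J n N f y) (hfg : ∀ x, ⟪n, x⟫_ℝ = ⟪n, y⟫_ℝ → g x = f x) :
    TDb J n N g y := by
  have e : rst n g y = rst n f y := by
    funext w
    unfold rst
    refine hfg _ ?_
    rw [inner_add_right, mem_T, add_zero]
  refine TDb.of_norm hg fun j hj => ?_
  rw [e]
  exact h.norm_le hf h.nonneg hj

/-- functions vanishing near y -/
lemma TDb.of_ev {J : ℕ} {n : Sp d} {f : Sp d → ℝ} {y : Sp d}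
    (h : f =ᶠ[nhds y] fun _ => 0) {N : ℝ} (hN : 0 ≤ N) : TDb J n N f y := by
  refine TDb.of_full fun j hj => ?_
  have h1 := (h.iteratedFDeriv (𝕜 := ℝ) j).eq_of_nhds
  rw [h1, iteratedFDeriv_fun_zero]
  simpa using hN

/-- TB from pointwise bounds -/
lemma TB_of_TDb {J : ℕ} {n : Sp d} {s N : ℝ} {ζ : Sp d → ℝ}
    (h : ∀ y, ⟪n, y⟫_ℝ = s → TDb J n N ζ y ∧ TDb J n N (fun x => fderiv ℝ ζ x n) y) :
    TB J n s N ζ := fun j hj v h0 h1 y hy => ⟨(h y hy).1 j hj v h0 h1, (h y hy).2 j hj v h0 h1⟩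

end

end TA1m

end TG
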