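import Pool.Agent.TG.TA1t

/-!
# MODULE TA1: the test function on the plane (helper88)
-/

open MeasureTheory Metric Set TrI
open scoped InnerProductSpace ContDiff

namespace TG

namespace TA1m

noncomputable section

variable {d : ℕ}

/-- tangential projection as a linear map -/
def tgL (n : Sp d) : Sp d →L[ℝ] Sp d :=
  ContinuousLinearMap.id ℝ (Sp d) - (innerSL ℝ n).smulRight n

lemma tgL_apply (n y : Sp d) : tgL n y = tang n y := by
  simp [tgL, tang]

lemma hgt_smooth (n : Sp d) (s : ℝ) {J : WithTop ℕ∞} : ContDiff ℝ J (hgt n s) := by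
  unfold hgt
  exact (contDiff_const.inner ℝ contDiff_id).sub contDiff_const

lemma yS_eq (n : Sp d) (s : ℝ) : yS n s = fun y => s • n + tgL n y := by
  funext y
  rw [tgL_apply]
  rfl

lemma yS_smooth (n : Sp d) (s : ℝ) {J : WithTop ℕ∞} : ContDiff ℝ J (yS n s) := by
  rw [yS_eq]
  exact contDiff_const.add (tgL n).contDiff

lemma tang_inner {n : Sp d} (hn : ‖n‖ = 1) (y : Sp d) : ⟪n, tang n y⟫_ℝ = 0 := by
  unfold tang
  rw [inner_sub_right, inner_smul_right, real_inner_self_eq_norm_sq, hn]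
  ring

lemma tang_norm_le {n : Sp d} (hn : ‖n‖ = 1) (y : Sp d) : ‖tang n y‖ ≤ ‖y‖ := by
  have h1 : ‖tang n y‖ ^ 2 ≤ ‖y‖ ^ 2 := by
    unfold tang
    rw [norm_sub_sq_real, norm_smul, hn, mul_one, inner_smul_right, real_inner_comm y n,
      Real.norm_eq_abs, sq_abs]
    nlinarith [sq_nonneg ⟪n, y⟫_ℝ]
  exact (pow_le_pow_iff_left₀ (norm_nonneg _) (norm_nonneg _) two_ne_zero).1 h1

lemma yS_inner {n : Sp d} (hn : ‖n‖ = 1) (s : ℝ) (y : Sp d) : ⟪n, yS n s y⟫_ℝ = s := by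
  unfold yS
  rw [inner_add_right, tang_inner hn, inner_smul_right, real_inner_self_eq_norm_sq, hn]
  ring

lemma yS_of {n : Sp d} {s : ℝ} {y : Sp d} (hy : ⟪n, y⟫_ℝ = s) : yS n s y = y := by
  unfold yS tang
  rw [hy]
  abel

lemma hgt_of {n : Sp d} {s : ℝ} {y : Sp d} (hy : ⟪n, y⟫_ℝ = s) : hgt n s y = 0 := by
  unfold hgt
  rw [hy, sub_self]

lemma yS_norm {n : Sp d} (hn : ‖n‖ = 1) (s : ℝ) (y : Sp d) : ‖yS n s y‖ ≤ |s| + ‖y‖ := by
  unfold yS
  refine (norm_add_le _ _).trans (add_le_add ?_ (tang_norm_le hn y))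
  rw [norm_smul, hn, mul_one, Real.norm_eq_abs]

lemma hgt_abs {n : Sp d} (hn : ‖n‖ = 1) (s : ℝ) (y : Sp d) : |hgt n s y| ≤ ‖y‖ + |s| := by
  unfold hgt
  refine (abs_sub _ _).trans (add_le_add ?_ le_rfl)
  have := abs_real_inner_le_norm n y
  rwa [hn, one_mul] at this

lemma sub_yS (n : Sp d) (s : ℝ) (y : Sp d) : y - yS n s y = hgt n s y • n := by
  unfold yS tang hgt
  module

/-- derivative in direction n -/
def dN (n : Sp d) (f : Sp d → ℝ) (x : Sp d) : ℝ := fderiv ℝ f x n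

lemma dN_smooth {J : ℕ} (n : Sp d) {f : Sp d → ℝ} (hf : ContDiff ℝ (J + 1 : ℕ) f) :
    ContDiff ℝ J (dN n f) := by
  have h1 : ContDiff ℝ J (fderiv ℝ f) := hf.fderiv_right (by exact_mod_cast le_rfl)
  exact h1.clm_apply contDiff_const

/-- the abstract form of ze -/
def zz (X M1 M2 : Sp d → ℝ) (n : Sp d) (s : ℝ) (y : Sp d) : ℝ :=
  (X (yS n s y) + hgt n s y * dN n X (yS n s y)) + (M2 y - 2 * (hgt n s y * M1 y))

lemma zz_smooth {J : ℕ} {X M1 M2 : Sp d → ℝ} (n : Sp d) (s : ℝ)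
    (hX : ContDiff ℝ (J + 1 : ℕ) X) (hM1 : ContDiff ℝ J M1) (hM2 : ContDiff ℝ J M2) :
    ContDiff ℝ J (zz X M1 M2 n s) := by
  unfold zz
  have h1 : ContDiff ℝ J X := hX.of_le (by exact_mod_cast (Nat.le_succ J))
  exact ((h1.comp (yS_smooth n s)).add ((hgt_smooth n s).mul
    ((dN_smooth n hX).comp (yS_smooth n s)))).add
    (hM2.sub (contDiff_const.mul ((hgt_smooth n s).mul hM1)))

lemma zz_plane {X M1 M2 : Sp d → ℝ} {n : Sp d} {s : ℝ} {y : Sp d} (hy : ⟪n, y⟫_ℝ = s) :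
    zz X M1 M2 n s y = X y + M2 y := by
  unfold zz
  rw [yS_of hy, hgt_of hy]
  ring

/-- normal derivative on the plane -/
lemma dN_zz {X M1 M2 : Sp d → ℝ} {n : Sp d} (hn : ‖n‖ = 1) {s : ℝ} (hX : ContDiff ℝ 2 X)
    (hM1 : ContDiff ℝ 1 M1) (hM2 : ContDiff ℝ 1 M2) {y : Sp d} (hy : ⟪n, y⟫_ℝ = s) :
    dN n (zz X M1 M2 n s) y = dN n X y + dN n M2 y - 2 * M1 y := by
  have hS : HasFDerivAt (yS n s) (tgL n) y := by
    rw [yS_eq]
    exact ((tgL n).hasFDerivAt (x := y)).const_add _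
  have hh : HasFDerivAt (hgt n s) (innerSL ℝ n) y := by
    unfold hgt
    exact ((innerSL ℝ n).hasFDerivAt (x := y)).sub_const s
  have hX1 : HasFDerivAt X (fderiv ℝ X (yS n s y)) (yS n s y) :=
    (hX.differentiable (by norm_num) _).hasFDerivAt
  have hdX : ContDiff ℝ 1 (dN n X) := dN_smooth (J := 1) n (by exact_mod_cast hX)
  have hX2 : HasFDerivAt (dN n X) (fderiv ℝ (dN n X) (yS n s y)) (yS n s y) :=
    (hdX.differentiable (by norm_num) _).hasFDerivAt
  have h1 : HasFDerivAt M1 (fderiv ℝ M1 y) y := (hM1.differentiable (by norm_num) _).hasFDerivAt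
  have h2 : HasFDerivAt M2 (fderiv ℝ M2 y) y := (hM2.differentiable (by norm_num) _).hasFDerivAt
  have h3 := ((hX1.comp y hS).add (hh.mul (hX2.comp y hS))).add (h2.sub ((hh.mul h1).const_mul 2))
  have h4 : HasFDerivAt (zz X M1 M2 n s) _ y := h3
  have htn : tgL n n = 0 := by
    rw [tgL_apply]
    unfold tang
    rw [real_inner_self_eq_norm_sq, hn]
    simp
  have hnn : (innerSL ℝ n) n = (1 : ℝ) := by
    rw [innerSL_apply_apply, real_inner_self_eq_norm_sq, hn]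
    norm_num
  unfold dN at *
  rw [h4.fderiv]
  simp only [_root_.add_apply, _root_.sub_apply, _root_.smul_apply, smul_eq_mul,
    ContinuousLinearMap.comp_apply, htn, hnn, map_zero, hgt_of hy, yS_of hy, Function.comp_apply]
  ring

/-- bounds on the plane -/
lemma TB_core {J : ℕ} {X M1 M2 φ : Sp d → ℝ} {n : Sp d} (hn : ‖n‖ = 1) {s : ℝ}
    (hX : ContDiff ℝ (J + 2 : ℕ) X) (hM1 : ContDiff ℝ (J + 1 : ℕ) M1)
    (hM2 : ContDiff ℝ (J + 1 : ℕ) M2) (hφ : ContDiff ℝ (J + 1 : ℕ) φ) {y : Sp d}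
    (hy : ⟪n, y⟫_ℝ = s) {N B : ℝ} (b1 : TDb J n N X y) (b2 : TDb J n N (dN n X) y)
    (b3 : TDb J n N M2 y) (b4 : TDb J n N (dN n M2) y) (b5 : TDb J n N M1 y)
    (b6 : TDb J n B φ y) (b7 : TDb J n B (dN n φ) y) :
    TDb J n (2 ^ J * (B * (6 * N))) (fun x => φ x * zz X M1 M2 n s x) y ∧
    TDb J n (2 ^ J * (B * (6 * N))) (fun x => fderiv ℝ (fun z => φ z * zz X M1 M2 n s z) x n) y := by
  have hN := b1.nonneg
  have hB := b6.nonneg
  have hXJ : ContDiff ℝ J X := hX.of_le (by exact_mod_cast (by omega : J ≤ J + 2))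
  have hXJ1 : ContDiff ℝ (J + 1 : ℕ) X := hX.of_le (by exact_mod_cast (by omega : J + 1 ≤ J + 2))
  have hM1J : ContDiff ℝ J M1 := hM1.of_le (by exact_mod_cast (by omega : J ≤ J + 1))
  have hM2J : ContDiff ℝ J M2 := hM2.of_le (by exact_mod_cast (by omega : J ≤ J + 1))
  have hφJ : ContDiff ℝ J φ := hφ.of_le (by exact_mod_cast (by omega : J ≤ J + 1))
  have hz : ContDiff ℝ (J + 1 : ℕ) (zz X M1 M2 n s) := zz_smooth n s hX hM1 hM2
  have hzJ : ContDiff ℝ J (zz X M1 M2 n s) := hz.of_le (by exact_mod_cast (by omega : J ≤ J + 1))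
  have hsum : ContDiff ℝ J (fun x => X x + M2 x) := hXJ.add hM2J
  have bsum : TDb J n (2 * N) (fun x => X x + M2 x) y :=
    (b1.add hXJ hM2J b3).mono (by linarith)
  refine ⟨?_, ?_⟩
  · refine ((b6.mul hφJ hsum bsum).congr (hφJ.mul hsum) (hφJ.mul hzJ) (fun x hx => ?_)).mono ?_
    · rw [hy] at hx
      simp only [zz_plane hx]
    · gcongr
      linarith
  · have hdX : ContDiff ℝ J (dN n X) := dN_smooth n hXJ1
    have hdM : ContDiff ℝ J (dN n M2) := dN_smooth n hM2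
    have hdφ : ContDiff ℝ J (dN n φ) := dN_smooth n hφ
    have hq : ContDiff ℝ J (fun x => (dN n X x + dN n M2 x) + (-2) * M1 x) :=
      (hdX.add hdM).add (contDiff_const.mul hM1J)
    have bq : TDb J n (4 * N) (fun x => (dN n X x + dN n M2 x) + (-2) * M1 x) y := by
      refine ((b2.add hdX hdM b4).add (hdX.add hdM) (contDiff_const.mul hM1J)
        (b5.const_mul hM1J (-2))).mono (le_of_eq ?_)
      rw [abs_neg, abs_two]
      ring
    have h1 := b7.mul hdφ hsum bsum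
    have h2 := b6.mul hφJ hq bq
    have h3 := h1.add (hdφ.mul hsum) (hφJ.mul hq) h2
    refine (h3.congr ((hdφ.mul hsum).add (hφJ.mul hq)) (dN_smooth n (hφ.mul hz))
      (fun x hx => ?_)).mono (le_of_eq (by ring))
    rw [hy] at hx
    have e1 : HasFDerivAt φ (fderiv ℝ φ x) x :=
      (hφ.differentiable (by simp) _).hasFDerivAt
    have e2 : HasFDerivAt (zz X M1 M2 n s) (fderiv ℝ (zz X M1 M2 n s) x) x :=
      (hz.differentiable (by simp) _).hasFDerivAt
    have e3 := dN_zz hn (s := s) (hX.of_le (by exact_mod_cast (by omega : 2 ≤ J + 2)))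
      (hM1.of_le (by exact_mod_cast (by omega : 1 ≤ J + 1)))
      (hM2.of_le (by exact_mod_cast (by omega : 1 ≤ J + 1))) hx
    unfold dN at *
    have e4 : HasFDerivAt (fun z => φ z * zz X M1 M2 n s z) _ x := e1.mul e2
    rw [e4.fderiv]
    simp only [_root_.add_apply, _root_.smul_apply, smul_eq_mul]
    rw [e3, zz_plane hx]
    ring

end

end TA1m

end TG
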