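import Pool.Agent.TG.TA1u
import Pool.Agent.TG.FG
import Pool.Agent.TG.TDc

/-!
# MODULE TA1: discs in the plane and the plane integral (helper88)
-/

open MeasureTheory Metric Set TrI
open scoped InnerProductSpace ContDiff

namespace TG

namespace TA1m

noncomputable section

variable {d : ℕ}

/-- the integral over a disc is at most the plane integral -/
lemma disc_le {n : Sp d} (hn : ‖n‖ = 1) {s R ρ : ℝ} {F G : Sp d → ℝ} (hF : Continuous F)
    (hG : Continuous G) (h0 : ∀ x, 0 ≤ G x) {y : Sp d} (hy : ⟪n, y⟫_ℝ = s) (hR : ‖y‖ + ρ ≤ R)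
    (hFG : ∀ x, ⟪n, x⟫_ℝ = s → ‖x - y‖ ≤ ρ → F x ≤ G x) :
    discR n ρ F y ≤ plInt n s (fun x => zR R x * G x) := by
  have hw0 : ⟪n, y - s • n⟫_ℝ = 0 := by
    rw [inner_sub_right, inner_smul_right, real_inner_self_eq_norm_sq, hn, hy]
    ring
  set w0 : (Submodule.span ℝ {n})ᗮ :=
    ⟨y - s • n, Submodule.mem_orthogonal_singleton_iff_inner_right.2 hw0⟩ with hw0d
  have e0 : ∀ w : (Submodule.span ℝ {n})ᗮ, s • n + ((w0 + w : (Submodule.span ℝ {n})ᗮ) : Sp d) =
      y + (w : Sp d) := by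
    intro w
    rw [Submodule.coe_add, hw0d]
    show s • n + ((y - s • n) + (w : Sp d)) = _
    abel
  have e1 : plInt n s (fun x => zR R x * G x) =
      ∫ w : (Submodule.span ℝ {n})ᗮ, zR R (y + (w : Sp d)) * G (y + (w : Sp d)) := by
    unfold plInt
    rw [← integral_add_left_eq_self (μ := (volume : Measure (Submodule.span ℝ {n})ᗮ))
      (fun w : (Submodule.span ℝ {n})ᗮ => zR R (s • n + (w : Sp d)) * G (s • n + (w : Sp d))) w0]
    simp only [e0]
  have hiso : Topology.IsClosedEmbedding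
      (fun w : (Submodule.span ℝ {n})ᗮ => y + (w : Sp d)) :=
    Isometry.isClosedEmbedding (Isometry.of_dist_eq fun a b => by
      rw [dist_add_left]
      rfl)
  have hint : Integrable (fun w : (Submodule.span ℝ {n})ᗮ =>
      zR R (y + (w : Sp d)) * G (y + (w : Sp d))) := by
    refine Continuous.integrable_of_hasCompactSupport ?_ ?_
    · exact ((FGm.zR_cont R).mul hG).comp hiso.continuous
    · exact ((FGm.zR_compact (d := d) R).mul_right (f' := G)).comp_isClosedEmbedding hiso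
  have hnn : ∀ w : (Submodule.span ℝ {n})ᗮ, 0 ≤ zR R (y + (w : Sp d)) * G (y + (w : Sp d)) :=
    fun w => mul_nonneg (FGm.zR_nonneg _ _) (h0 _)
  rw [e1]
  refine le_trans ?_ (setIntegral_le_integral (s := closedBall (0 : (Submodule.span ℝ {n})ᗮ) ρ)
    hint (Filter.Eventually.of_forall hnn))
  unfold discR
  refine setIntegral_mono_on ?_ hint.integrableOn measurableSet_closedBall fun w hw => ?_
  · exact (hF.comp hiso.continuous).continuousOn.integrableOn_compact
      (isCompact_closedBall _ _)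
  · have hw' : ‖(w : Sp d)‖ ≤ ρ := by
      have : ‖w‖ ≤ ρ := by simpa using hw
      exact this
    have h1 : ‖y + (w : Sp d)‖ ≤ R := (norm_add_le _ _).trans (by linarith)
    rw [FGm.zR_one h1, one_mul]
    refine hFG _ ?_ ?_
    · rw [inner_add_right, mem_T, hy, add_zero]
    · rwa [add_sub_cancel_left]

/-- discs of a nonnegative function grow with the radius -/
lemma const_le {n : Sp d} (hd : 2 ≤ d) (hn : ‖n‖ = 1) {s R a : ℝ} {G : Sp d → ℝ}
    (hG : Continuous G) (h0 : ∀ x, 0 ≤ G x) {y : Sp d} (hy : ⟪n, y⟫_ℝ = s) (hR : ‖y‖ + 1 ≤ R)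
    (ha : ∀ x, ⟪n, x⟫_ℝ = s → ‖x - y‖ ≤ 1 → a ≤ G x) :
    a * FGm.vb d ≤ plInt n s (fun x => zR R x * G x) := by
  have h1 := disc_le hn (F := fun _ => a) continuous_const hG h0 hy hR ha
  have h2 : discR n 1 (fun _ : Sp d => a) y = a * FGm.vb d := by
    unfold discR
    rw [setIntegral_const, smul_eq_mul, Measure.real, FGm.vol_ball hd hn, mul_comm]
  rwa [h2] at h1

lemma plInt_nonneg {n : Sp d} {s : ℝ} {F : Sp d → ℝ} (h : ∀ x, 0 ≤ F x) : 0 ≤ plInt n s F :=
  integral_nonneg fun _ => h _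

/-- upper bound of plane integrals -/
lemma plInt_up (hPF : StmtPF) (hd : 1 ≤ d) {R : ℝ} : ∃ C : ℝ, 0 < C ∧ ∀ (n : Sp d) (s : ℝ),
    ‖n‖ = 1 → ∀ (G : Sp d → ℝ) (N : ℝ), 0 ≤ N → Continuous G → (∀ x, ‖x‖ ≤ R + 1 → |G x| ≤ N) →
      plInt n s (fun x => zR R x * G x) ≤ C * N := by
  obtain ⟨C, hC, h⟩ := (hPF d hd).1 (R + 1)
  refine ⟨C, hC, fun n s hn G N hN hG hb => ?_⟩
  refine (le_abs_self _).trans (h n hn (fun x => zR R x * G x) N ((FGm.zR_cont R).mul hG) ?_ ?_ s)
  · intro y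
    by_cases hy : ‖y‖ ≤ R + 1
    · rw [abs_mul, abs_of_nonneg (FGm.zR_nonneg _ _)]
      have h1 : zR R y ≤ 1 := Real.smoothTransition.le_one _
      have h2 := hb y hy
      have h3 := FGm.zR_nonneg R y
      nlinarith [abs_nonneg (G y)]
    · push Not at hy
      have : zR R y = 0 := Real.smoothTransition.zero_of_nonpos (by linarith)
      rw [this, zero_mul, abs_zero]
      exact hN
  · intro y hy
    have h1 : zR R y ≠ 0 := fun h0 => hy (by rw [h0, zero_mul])
    have h2 : ‖y‖ ≤ R + 1 := by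
      by_contra h3
      push Not at h3
      exact h1 (Real.smoothTransition.zero_of_nonpos (by linarith))
    exact (tang_norm_le hn y).trans h2

end

end TA1m

end TG
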