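import Pool.Agent.TG.TA1v
import Pool.Agent.TG.TA2

/-!
# MODULE TA1: bounds for the test function ze (helper88)
-/

open MeasureTheory Metric Set TrI
open scoped InnerProductSpace ContDiff

namespace TG

namespace TA1m

noncomputable section

variable {d : ℕ}

/-- all derivatives of f o yS at y are tangential derivatives of f at yS y -/
lemma comp_yS {J : ℕ} {f : Sp d → ℝ} (hf : ContDiff ℝ J f) {n : Sp d} (hn : ‖n‖ = 1) {s : ℝ}
    {y : Sp d} {T : ℝ} (h : TDb J n T f (yS n s y)) {j : ℕ} (hj : j ≤ J) :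
    ‖iteratedFDeriv ℝ j (fun z => f (yS n s z)) y‖ ≤ T := by
  refine mul_norm_le _ h.nonneg fun v hv => ?_
  have h1 : (fun z => f (yS n s z)) = (fun x => f (s • n + x)) ∘ (tgL n) := by
    rw [yS_eq]
    rfl
  have h2 : ContDiff ℝ J (fun x => f (s • n + x)) := hf.comp (contDiff_const.add contDiff_id)
  rw [h1, ContinuousLinearMap.iteratedFDeriv_comp_right _ h2 _ (by exact_mod_cast hj)]
  have h3 : iteratedFDeriv ℝ j (fun x => f (s • n + x)) (tgL n y) =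
      iteratedFDeriv ℝ j f (yS n s y) := by
    rw [iteratedFDeriv_comp_add_left, yS_eq]
  rw [h3]
  refine h j hj (fun i => tgL n (v i)) (fun i => ?_) (fun i => ?_)
  · rw [tgL_apply, tang_inner hn]
  · rw [tgL_apply]
    exact (tang_norm_le hn _).trans (hv i)

lemma D2_core {X M1 M2 : Sp d → ℝ} {n : Sp d} {s : ℝ}
    (hX : ContDiff ℝ 3 X) (hM1 : ContDiff ℝ 2 M1) (hM2 : ContDiff ℝ 2 M2) {y : Sp d} {T B : ℝ}
    (b1 : ∀ j ≤ 2, ‖iteratedFDeriv ℝ j (fun z => X (yS n s z)) y‖ ≤ T)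
    (b2 : ∀ j ≤ 2, ‖iteratedFDeriv ℝ j (fun z => dN n X (yS n s z)) y‖ ≤ T)
    (b3 : ∀ j ≤ 2, ‖iteratedFDeriv ℝ j M2 y‖ ≤ T)
    (b4 : ∀ j ≤ 2, ‖iteratedFDeriv ℝ j M1 y‖ ≤ T)
    (b5 : ∀ j ≤ 2, ‖iteratedFDeriv ℝ j (hgt n s) y‖ ≤ B) {j : ℕ} (hj : j ≤ 2) :
    ‖iteratedFDeriv ℝ j (zz X M1 M2 n s) y‖ ≤ (2 + 12 * B) * T := by
  have hT : 0 ≤ T := (norm_nonneg _).trans (b3 0 (by norm_num))
  have hB : 0 ≤ B := (norm_nonneg _).trans (b5 0 (by norm_num))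
  have hh : ContDiff ℝ 2 (hgt n s) := hgt_smooth n s
  have e1 : ContDiff ℝ 2 (fun z => X (yS n s z)) :=
    (hX.of_le (by norm_num)).comp (yS_smooth n s)
  have e2 : ContDiff ℝ 2 (fun z => dN n X (yS n s z)) :=
    (dN_smooth (J := 2) n (by exact_mod_cast hX)).comp (yS_smooth n s)
  have p1 : ∀ i ≤ 2, ‖iteratedFDeriv ℝ i (fun z => hgt n s z * dN n X (yS n s z)) y‖ ≤
      4 * (B * T) := fun i hi => by
    refine (TU.mul_core (J := 2) hh e2 b5 b2 hi).trans ?_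
    have : (2 : ℝ) ^ i ≤ 2 ^ 2 := pow_le_pow_right₀ (by norm_num) hi
    nlinarith [mul_nonneg hB hT]
  have p2 : ∀ i ≤ 2, ‖iteratedFDeriv ℝ i (fun z => hgt n s z * M1 z) y‖ ≤
      4 * (B * T) := fun i hi => by
    refine (TU.mul_core (J := 2) hh hM1 b5 b4 hi).trans ?_
    have : (2 : ℝ) ^ i ≤ 2 ^ 2 := pow_le_pow_right₀ (by norm_num) hi
    nlinarith [mul_nonneg hB hT]
  have s1 : ContDiff ℝ 2 (fun z => hgt n s z * dN n X (yS n s z)) := hh.mul e2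
  have s2 : ContDiff ℝ 2 (fun z => hgt n s z * M1 z) := hh.mul hM1
  have hjj : (j : WithTop ℕ∞) ≤ (2 : ℕ) := by exact_mod_cast hj
  have c1 : ContDiffAt ℝ j (fun z => X (yS n s z)) y := (e1.of_le hjj).contDiffAt
  have c2 : ContDiffAt ℝ j (fun z => hgt n s z * dN n X (yS n s z)) y :=
    (s1.of_le hjj).contDiffAt
  have c3 : ContDiffAt ℝ j M2 y := (hM2.of_le hjj).contDiffAt
  have c4 : ContDiffAt ℝ j (fun z => hgt n s z * M1 z) y := (s2.of_le hjj).contDiffAt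
  have c5 : ContDiffAt ℝ j (fun z => (-2 : ℝ) • (hgt n s z * M1 z)) y := c4.const_smul (-2 : ℝ)
  have h0 : zz X M1 M2 n s = fun z => (X (yS n s z) + hgt n s z * dN n X (yS n s z)) +
      (M2 z + (-2 : ℝ) • (hgt n s z * M1 z)) := by
    funext z
    unfold zz
    rw [smul_eq_mul]
    ring
  have h1 : iteratedFDeriv ℝ j (zz X M1 M2 n s) y =
      (iteratedFDeriv ℝ j (fun z => X (yS n s z)) y +
        iteratedFDeriv ℝ j (fun z => hgt n s z * dN n X (yS n s z)) y) +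
      (iteratedFDeriv ℝ j M2 y + (-2 : ℝ) • iteratedFDeriv ℝ j (fun z => hgt n s z * M1 z) y) := by
    rw [h0, fun_iteratedFDeriv_add_apply (c1.add c2) (c3.add c5),
      fun_iteratedFDeriv_add_apply c1 c2, fun_iteratedFDeriv_add_apply c3 c5,
      iteratedFDeriv_const_smul_apply' c4]
  rw [h1]
  have n1 := norm_add_le (iteratedFDeriv ℝ j (fun z => X (yS n s z)) y +
        iteratedFDeriv ℝ j (fun z => hgt n s z * dN n X (yS n s z)) y)
      (iteratedFDeriv ℝ j M2 y + (-2 : ℝ) • iteratedFDeriv ℝ j (fun z => hgt n s z * M1 z) y)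
  have n2 := norm_add_le (iteratedFDeriv ℝ j (fun z => X (yS n s z)) y)
    (iteratedFDeriv ℝ j (fun z => hgt n s z * dN n X (yS n s z)) y)
  have n3 := norm_add_le (iteratedFDeriv ℝ j M2 y)
    ((-2 : ℝ) • iteratedFDeriv ℝ j (fun z => hgt n s z * M1 z) y)
  have n4 : ‖(-2 : ℝ) • iteratedFDeriv ℝ j (fun z => hgt n s z * M1 z) y‖ =
      2 * ‖iteratedFDeriv ℝ j (fun z => hgt n s z * M1 z) y‖ := by
    rw [norm_smul, Real.norm_eq_abs, abs_neg, abs_two]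
  have q1 := b1 j hj
  have q2 := p1 j hj
  have q3 := b3 j hj
  have q4 := p2 j hj
  nlinarith

/-- tangential bounds from squares -/
lemma TDb_of_sq {J : ℕ} {n : Sp d} {K : ℝ} {f : Sp d → ℝ} {y : Sp d}
    (h : ∀ j ≤ J, ∀ v : Fin j → Sp d, (∀ i, ⟪n, v i⟫_ℝ = 0) → (∀ i, ‖v i‖ ≤ 1) →
      (iteratedFDeriv ℝ j f y v) ^ 2 ≤ K) : TDb J n (Real.sqrt K) f y :=
  fun j hj v h0 h1 => Real.abs_le_sqrt (h j hj v h0 h1)

/-- the normal derivative of a function with bounded derivatives -/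
lemma dN_full {J : ℕ} {n : Sp d} (hn : ‖n‖ = 1) {f : Sp d → ℝ} (hf : ContDiff ℝ (J + 1 : ℕ) f)
    {y : Sp d} {K : ℝ} (h : ∀ j ≤ J + 1, ‖iteratedFDeriv ℝ j f y‖ ≤ K) {j : ℕ} (hj : j ≤ J) :
    ‖iteratedFDeriv ℝ j (dN n f) y‖ ≤ K := by
  set Lv : (Sp d →L[ℝ] ℝ) →L[ℝ] ℝ := ContinuousLinearMap.apply ℝ ℝ n with hL
  have h4 : dN n f = Lv ∘ (fderiv ℝ f) := rfl
  have h5 : ContDiff ℝ j (fderiv ℝ f) :=
    hf.fderiv_right (by exact_mod_cast (by omega : j + 1 ≤ J + 1))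
  have h6 : ‖Lv‖ ≤ 1 := by
    refine ContinuousLinearMap.opNorm_le_bound _ zero_le_one fun A => ?_
    have := A.le_opNorm n
    rw [hn, mul_one] at this
    rw [one_mul]
    exact this
  rw [h4]
  refine (Lv.norm_iteratedFDeriv_comp_left (f := fderiv ℝ f) (x := y)
    h5.contDiffAt le_rfl).trans ?_
  rw [norm_iteratedFDeriv_fderiv]
  have h7 := h (j + 1) (by omega)
  nlinarith [norm_nonneg (iteratedFDeriv ℝ (j + 1) f y)]

end

end TA1m

end TG
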