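import Pool.Agent.TG.TA1w

/-!
# MODULE TA1: the facts used, with a single constant (helper88)
-/

open MeasureTheory Metric Set TrI
open scoped InnerProductSpace ContDiff

namespace TG

namespace TA1m

noncomputable section

variable {d : ℕ}

/-- averaged moments -/
def mM (μ : Measure (Sp d)) (n : Sp d) (s : ℝ) (i : ℕ) (y : Sp d) : ℝ := tav (Mo μ n s i) 1 y

/-- the facts from WA, WB, MO, TH with a single constant -/
structure Fac (J : ℕ) (K ε Rb : ℝ) (β : Sp d → ℝ) (μ : Measure (Sp d)) (n : Sp d) (s : ℝ) :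
    Prop where
  n1 : ‖n‖ = 1
  K1 : 1 ≤ K
  v0 : 0 ≤ vv μ 1 0
  vn : ∀ y : Sp d, 0 ≤ vv μ 1 y
  vle : ∀ y : Sp d, ‖y‖ ≤ Rb → vv μ 1 y ≤ K * vv μ 1 0
  Xs : ContDiff ℝ (J + 6 : ℕ) (X13 β ε μ n 1)
  XXs : ContDiff ℝ (J + 6 : ℕ) (XX β ε μ n 1)
  X0 : ∀ y, 0 ≤ X13 β ε μ n 1 y
  XX0 : ∀ y, 0 ≤ XX β ε μ n 1 y
  XXb : ∀ y, XX β ε μ n 1 y ≤ K * vv μ 1 y
  tX : ∀ j ≤ J + 6, ∀ (h : Fin j → Sp d), (∀ i, ⟪n, h i⟫_ℝ = 0) → (∀ i, ‖h i‖ ≤ 1) → ∀ y,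
    (iteratedFDeriv ℝ j (X13 β ε μ n 1) y h) ^ 2 ≤
      K * vv μ 1 y * discR n (2 * ε) (X13 β ε μ n 1) y ∧
    (iteratedFDeriv ℝ j (dN n (X13 β ε μ n 1)) y h) ^ 2 ≤
      K * vv μ 1 y * discR n (2 * ε) (X13 β ε μ n 1) y
  Ms : ∀ i, ContDiff ℝ ∞ (mM μ n s i)
  XXp : ∀ y, ⟪n, y⟫_ℝ = s → XX β ε μ n 1 y = X13 β ε μ n 1 y + mM μ n s 2 y
  M2d : ∀ j ≤ J + 2, ∀ y, ‖iteratedFDeriv ℝ j (mM μ n s 2) y‖ ≤ K * mM μ n s 2 y
  M1d : ∀ j ≤ J + 2, ∀ y, ‖iteratedFDeriv ℝ j (mM μ n s 1) y‖ ^ 2 ≤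
    K * vv μ 1 y * mM μ n s 2 y
  M2h : ∀ y y', mM μ n s 2 y' ≤ K * (1 + ‖y - y'‖) ^ (2 * d + 4) * mM μ n s 2 y

lemma exists_Fac (hWA : StmtWA) (hWB : StmtWB) (hMO : StmtMO) (hd : 2 ≤ d) (J : ℕ)
    (M C' ε Rb : ℝ) (hC' : 0 < C') (hε : 0 < ε) (hε1 : ε ≤ 1) : ∃ K : ℝ, 1 ≤ K ∧
    ∀ β : Sp d → ℝ, Kit (J + 10) M β → ∀ μ : Measure (Sp d), Gro C' μ → ∀ (n : Sp d) (s : ℝ),
      ‖n‖ = 1 → Fac J K ε Rb β μ n s := by
  obtain ⟨C1, hC1, h1⟩ := hWA d (J + 6) hd M C' ε hC' hε hε1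
  obtain ⟨C2, hC2, h2⟩ := hWB d (J + 6) hd M C' ε hC' hε hε1
  obtain ⟨C3, hC3, h3⟩ := hMO d (J + 2) hd C' hC'
  set H : ℝ := Real.sqrt ((1 + Rb) ^ d) with hH
  have hHn : 0 ≤ H := Real.sqrt_nonneg _
  set K : ℝ := 1 + C1 + C2 + C3 + C3 * C3 + H with hK
  have q1 : 0 ≤ C3 * C3 := by positivity
  have k0 : 1 ≤ K := by linarith
  have k1 : C1 ≤ K := by linarith
  have k2 : C2 ≤ K := by linarith
  have k3 : C3 ≤ K := by linarith
  have k4 : C3 * C3 ≤ K := by linarith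
  have k5 : H ≤ K := by linarith
  refine ⟨K, k0, ?_⟩
  intro β hβ μ hμ n s hn
  have hβ' : Kit (J + 6 + 4) M β := hβ
  obtain ⟨-, -, -, -, a⟩ := h1 β hβ' μ hμ
  obtain ⟨a1, a2, a3, a4, a5, a6⟩ := a n hn
  obtain ⟨-, -, b3, -⟩ := h2 β hβ' μ hμ n hn
  obtain ⟨m1, m2, m3, m4, m5, m6, m7, m8⟩ := h3 μ hμ n hn s
  have vn : ∀ y : Sp d, 0 ≤ vv μ 1 y := fun y => Real.sqrt_nonneg _
  have M2n : ∀ y, 0 ≤ mM μ n s 2 y := by
    intro y
    have := (norm_nonneg _).trans (m3 0 (Nat.zero_le _) y)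
    exact nonneg_of_mul_nonneg_right this hC3
  have M0n : ∀ y, 0 ≤ tav (Mo μ n s 0) 1 y := by
    intro y
    have := (norm_nonneg _).trans (m4 0 (Nat.zero_le _) y)
    exact nonneg_of_mul_nonneg_right this hC3
  refine ⟨hn, k0, vn 0, vn, ?_, a4, a1, a5, a2, ?_, ?_, m2, ?_, ?_, ?_, ?_⟩
  · intro y hy
    refine (TA2Aux.vv_harnack hd hC' hμ hy).trans ?_
    exact mul_le_mul_of_nonneg_right k5 (vn 0)
  · intro y
    have := a3 0 (Nat.zero_le _) y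
    rw [norm_iteratedFDeriv_zero, Real.norm_of_nonneg (a2 y)] at this
    exact this.trans (mul_le_mul_of_nonneg_right k1 (vn y))
  · intro j hj h hh0 hh1 y
    obtain ⟨c1, c2⟩ := b3 j hj h hh0 hh1 y
    have hdisc : 0 ≤ discR n (2 * ε) (X13 β ε μ n 1) y := by
      unfold discR
      exact integral_nonneg fun _ => a5 _
    have e : C2 * vv μ 1 y * discR n (2 * ε) (X13 β ε μ n 1) y ≤
        K * vv μ 1 y * discR n (2 * ε) (X13 β ε μ n 1) y :=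
      mul_le_mul_of_nonneg_right (mul_le_mul_of_nonneg_right k2 (vn y)) hdisc
    exact ⟨c1.trans e, c2.trans e⟩
  · intro y hy
    have e1 : XX β ε μ n 1 y = X13 β ε μ n 1 y + tav (X2 μ n) 1 y := by
      unfold XX X13
      ring
    have hy' : ⟪y, n⟫_ℝ = s := by
      rw [real_inner_comm]
      exact hy
    rw [e1, m1 y, hy']
    unfold mM
    ring
  · intro j hj y
    exact (m3 j hj y).trans (mul_le_mul_of_nonneg_right k3 (M2n y))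
  · intro j hj y
    refine (m5 j hj y).trans ?_
    have e1 : C3 * tav (Mo μ n s 0) 1 y ≤ C3 * (C3 * vv μ 1 y) :=
      mul_le_mul_of_nonneg_left (m6 y) hC3.le
    have e2 : C3 * (C3 * vv μ 1 y) ≤ K * vv μ 1 y := by
      rw [← mul_assoc]
      exact mul_le_mul_of_nonneg_right k4 (vn y)
    exact mul_le_mul_of_nonneg_right (e1.trans e2) (M2n y)
  · intro y y'
    refine (m7 y y').trans ?_
    refine mul_le_mul_of_nonneg_right (mul_le_mul_of_nonneg_right k3 (by positivity)) (M2n y)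

section Bounds

variable {J : ℕ} {K ε Rb : ℝ} {β : Sp d → ℝ} {μ : Measure (Sp d)} {n : Sp d} {s : ℝ}

/-- the plane integral with radius R -/
def PP (β : Sp d → ℝ) (ε : ℝ) (μ : Measure (Sp d)) (n : Sp d) (s R : ℝ) : ℝ :=
  plInt n s (fun x => zR R x * XX β ε μ n 1 x)

lemma Fac.M2n (h : Fac J K ε Rb β μ n s) (y : Sp d) : 0 ≤ mM μ n s 2 y := by
  have := (norm_nonneg _).trans (h.M2d 0 (Nat.zero_le _) y)
  exact nonneg_of_mul_nonneg_right this (by linarith [h.K1])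

lemma Fac.PPn (h : Fac J K ε Rb β μ n s) (R : ℝ) : 0 ≤ PP β ε μ n s R :=
  plInt_nonneg fun x => mul_nonneg (FGm.zR_nonneg _ _) (h.XX0 x)

lemma Fac.disc (h : Fac J K ε Rb β μ n s) (hε1 : ε ≤ 1 / 4) {R : ℝ} {y : Sp d}
    (hy : ⟪n, y⟫_ℝ = s) (hR : ‖y‖ + 1 ≤ R) :
    discR n (2 * ε) (X13 β ε μ n 1) y ≤ PP β ε μ n s R := by
  refine disc_le h.n1 h.Xs.continuous h.XXs.continuous h.XX0 hy (by linarith) fun x hx _ => ?_
  rw [h.XXp x hx]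
  linarith [h.M2n x]

lemma Fac.M2le (h : Fac J K ε Rb β μ n s) (hd : 2 ≤ d) {R : ℝ} {y : Sp d}
    (hy : ⟪n, y⟫_ℝ = s) (hR : ‖y‖ + 1 ≤ R) :
    mM μ n s 2 y ≤ K * 2 ^ (2 * d + 4) / FGm.vb d * PP β ε μ n s R := by
  have hK : 0 < K := by linarith [h.K1]
  have hv := FGm.vb_pos d
  have h1 := const_le (a := mM μ n s 2 y / (K * 2 ^ (2 * d + 4))) hd h.n1 h.XXs.continuous h.XX0
    hy hR (fun x hx hxy => by
      rw [div_le_iff₀ (by positivity)]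
      refine (h.M2h x y).trans ?_
      have e1 : (1 + ‖x - y‖) ^ (2 * d + 4) ≤ 2 ^ (2 * d + 4) :=
        pow_le_pow_left₀ (by positivity) (by linarith) _
      have e2 : mM μ n s 2 x ≤ XX β ε μ n 1 x := by
        rw [h.XXp x hx]
        linarith [h.X0 x]
      calc K * (1 + ‖x - y‖) ^ (2 * d + 4) * mM μ n s 2 x
          ≤ K * 2 ^ (2 * d + 4) * XX β ε μ n 1 x :=
            mul_le_mul (mul_le_mul_of_nonneg_left e1 hK.le) e2 (h.M2n x) (by positivity)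
        _ = _ := by ring)
  unfold PP
  calc mM μ n s 2 y = K * 2 ^ (2 * d + 4) / FGm.vb d *
        (mM μ n s 2 y / (K * 2 ^ (2 * d + 4)) * FGm.vb d) := by
        field_simp
    _ ≤ _ := mul_le_mul_of_nonneg_left h1 (by positivity)

/-- the constant of the bounds on the plane -/
def K6 (d : ℕ) (K : ℝ) : ℝ := K ^ 5 * (1 + 2 ^ (2 * d + 4) / FGm.vb d)

lemma K6_pos (d : ℕ) {K : ℝ} (hK : 1 ≤ K) : 0 < K6 d K := by
  have := FGm.vb_pos d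
  unfold K6
  positivity

lemma K6_ge (d : ℕ) {K : ℝ} (hK : 1 ≤ K) : K ^ 5 ≤ K6 d K := by
  have := FGm.vb_pos d
  unfold K6
  have h1 : 0 ≤ 2 ^ (2 * d + 4) / FGm.vb d := by positivity
  have h2 : 0 < K ^ 5 := by positivity
  nlinarith

lemma K6_ge' (d : ℕ) {K : ℝ} (hK : 1 ≤ K) : K ^ 5 * (2 ^ (2 * d + 4) / FGm.vb d) ≤ K6 d K := by
  have := FGm.vb_pos d
  unfold K6
  have h2 : 0 < K ^ 5 := by positivity
  nlinarith

/-- bounds of all pieces at a point of the plane -/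
lemma Fac.plane (h : Fac J K ε Rb β μ n s) (hd : 2 ≤ d) (hε1 : ε ≤ 1 / 4) {R : ℝ}
    {y : Sp d} (hy : ⟪n, y⟫_ℝ = s) (hR : ‖y‖ + 1 ≤ R) (hyb : ‖y‖ ≤ Rb) :
    TDb (J + 6) n (Real.sqrt (K6 d K) * Real.sqrt (vv μ 1 0 * PP β ε μ n s R))
      (X13 β ε μ n 1) y ∧
    TDb (J + 6) n (Real.sqrt (K6 d K) * Real.sqrt (vv μ 1 0 * PP β ε μ n s R))
      (dN n (X13 β ε μ n 1)) y ∧
    (∀ j ≤ J + 2, ‖iteratedFDeriv ℝ j (mM μ n s 2) y‖ ≤
      Real.sqrt (K6 d K) * Real.sqrt (vv μ 1 0 * PP β ε μ n s R)) ∧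
    (∀ j ≤ J + 2, ‖iteratedFDeriv ℝ j (mM μ n s 1) y‖ ≤
      Real.sqrt (K6 d K) * Real.sqrt (vv μ 1 0 * PP β ε μ n s R)) := by
  have hK1 := h.K1
  have hK : 0 < K := by linarith
  have hv := FGm.vb_pos d
  have hP := h.PPn R
  have hv0 := h.v0
  have hvy := h.vle y hyb
  have hvn := h.vn y
  have hdisc := h.disc hε1 hy hR
  have hdn : 0 ≤ discR n (2 * ε) (X13 β ε μ n 1) y := by
    unfold discR
    exact integral_nonneg fun _ => h.X0 _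
  have hM2 := h.M2le hd hy hR
  have hM2n := h.M2n y
  set P := PP β ε μ n s R with hPd
  set v := vv μ 1 0 with hvd
  have hvP : 0 ≤ v * P := mul_nonneg hv0 hP
  have k1 : K ^ 2 ≤ K ^ 5 := pow_le_pow_right₀ hK1 (by norm_num)
  have k2 : K ^ 3 ≤ K ^ 5 := pow_le_pow_right₀ hK1 (by norm_num)
  have g1 := K6_ge d hK1
  have g2 := K6_ge' d hK1
  have hq : 0 ≤ 2 ^ (2 * d + 4) / FGm.vb d := by positivity
  have hsq : Real.sqrt (K6 d K) * Real.sqrt (v * P) = Real.sqrt (K6 d K * (v * P)) :=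
    (Real.sqrt_mul (K6_pos d hK1).le _).symm
  have t1 : K * vv μ 1 y * discR n (2 * ε) (X13 β ε μ n 1) y ≤ K6 d K * (v * P) := by
    calc K * vv μ 1 y * discR n (2 * ε) (X13 β ε μ n 1) y ≤ K * (K * v) * P :=
          mul_le_mul (mul_le_mul_of_nonneg_left hvy hK.le) hdisc hdn (by positivity)
      _ = K ^ 2 * (v * P) := by ring
      _ ≤ K6 d K * (v * P) := mul_le_mul_of_nonneg_right (k1.trans g1) hvP
  -- the square of M2
  have t2 : (K * mM μ n s 2 y) ^ 2 ≤ K6 d K * (v * P) := by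
    have e1 : mM μ n s 2 y ≤ K * (K * v) := by
      have a1 : mM μ n s 2 y ≤ XX β ε μ n 1 y := by
        rw [h.XXp y hy]
        linarith [h.X0 y]
      exact a1.trans ((h.XXb y).trans (mul_le_mul_of_nonneg_left hvy hK.le))
    calc (K * mM μ n s 2 y) ^ 2 = K ^ 2 * (mM μ n s 2 y * mM μ n s 2 y) := by ring
      _ ≤ K ^ 2 * ((K * (K * v)) * (K * 2 ^ (2 * d + 4) / FGm.vb d * P)) := by
          refine mul_le_mul_of_nonneg_left (mul_le_mul e1 hM2 hM2n (by positivity)) (by positivity)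
      _ = K ^ 5 * (2 ^ (2 * d + 4) / FGm.vb d) * (v * P) := by ring
      _ ≤ _ := mul_le_mul_of_nonneg_right g2 hvP
  have t3 : K * vv μ 1 y * mM μ n s 2 y ≤ K6 d K * (v * P) := by
    calc K * vv μ 1 y * mM μ n s 2 y ≤ K * (K * v) * (K * 2 ^ (2 * d + 4) / FGm.vb d * P) :=
          mul_le_mul (mul_le_mul_of_nonneg_left hvy hK.le) hM2 hM2n (by positivity)
      _ = K ^ 3 * (2 ^ (2 * d + 4) / FGm.vb d) * (v * P) := by ring
      _ ≤ K6 d K * (v * P) := by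
          refine mul_le_mul_of_nonneg_right (le_trans ?_ g2) hvP
          exact mul_le_mul_of_nonneg_right k2 hq
  rw [hsq]
  refine ⟨?_, ?_, ?_, ?_⟩
  · exact TDb_of_sq fun j hj w h0 h1 => ((h.tX j hj w h0 h1 y).1).trans t1
  · exact TDb_of_sq fun j hj w h0 h1 => ((h.tX j hj w h0 h1 y).2).trans t1
  · intro j hj
    refine (h.M2d j hj y).trans ?_
    exact (le_abs_self _).trans (Real.abs_le_sqrt t2)
  · intro j hj
    refine (le_abs_self _).trans (Real.abs_le_sqrt ((h.M1d j hj y).trans t3))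

end Bounds

end

end TA1m

end TG
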