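import Pool.Agent.TG.TDc
set_option autoImplicit false

/-!
# Module TD1: divergence term of a sheet cell, small gain case
-/

open MeasureTheory Metric Set TrI Filter
open scoped InnerProductSpace ContDiff Topology

namespace TG

noncomputable section

namespace TDc

variable {d : ℕ}

lemma zR_nn (R : ℝ) (x : Sp d) : 0 ≤ zR R x := Real.smoothTransition.nonneg _

lemma zR_l1 (R : ℝ) (x : Sp d) : zR R x ≤ 1 := Real.smoothTransition.le_one _

lemma zR_one {R : ℝ} {x : Sp d} (h : ‖x‖ ≤ R) : zR R x = 1 :=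
  Real.smoothTransition.one_of_one_le (by linarith)

lemma zR_zero {R : ℝ} {x : Sp d} (h : R + 1 ≤ ‖x‖) : zR R x = 0 :=
  Real.smoothTransition.zero_of_nonpos (by linarith)

lemma zR_cont (R : ℝ) : Continuous (zR R : Sp d → ℝ) :=
  Real.smoothTransition.continuous.comp (by fun_prop)

lemma zR_cs (R : ℝ) : HasCompactSupport (zR R : Sp d → ℝ) :=
  HasCompactSupport.intro (isCompact_closedBall (0 : Sp d) (R + 1)) fun x hx => zR_zero (by
    rw [mem_closedBall, dist_zero_right, not_le] at hx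
    exact hx.le)

lemma zR_le {R R' : ℝ} (h : R + 1 ≤ R') (x : Sp d) : zR R x ≤ zR R' x := by
  rcases le_or_gt ‖x‖ R' with h1 | h1
  · rw [zR_one h1]
    exact zR_l1 _ _
  · rw [zR_zero (by linarith)]
    exact zR_nn _ _

lemma mem_perp {n w : Sp d} (h : ⟪n, w⟫_ℝ = 0) : w ∈ (Submodule.span ℝ {n})ᗮ := by
  rw [Submodule.mem_orthogonal_singleton_iff_inner_right]
  exact h

/-- disc integrals are bounded by plane integrals -/
lemma disc_le {n : Sp d} (hn : ‖n‖ = 1) {s ρ R : ℝ} {F X : Sp d → ℝ} (hF : Continuous F)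
    (hX : Continuous X) (hFX : ∀ x, F x ≤ X x) (hX0 : ∀ x, 0 ≤ X x) {y : Sp d}
    (hy : ⟪n, y⟫_ℝ = s) (hyR : ‖y‖ + ρ ≤ R) :
    discR n ρ F y ≤ plInt n s (fun x => zR R x * X x) := by
  have hw : y - s • n ∈ (Submodule.span ℝ {n})ᗮ := mem_perp (by
    rw [inner_sub_right, inner_smul_right, real_inner_self_eq_norm_sq, hn, hy]
    ring)
  set w : (Submodule.span ℝ {n})ᗮ := ⟨y - s • n, hw⟩ with hwdef
  set G : Sp d → ℝ := fun x => zR R x * X x with hG
  have hGc : Continuous G := (zR_cont R).mul hX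
  have hGs : HasCompactSupport G := (zR_cs R).mul_right
  have hG0 : ∀ x, 0 ≤ G x := fun x => mul_nonneg (zR_nn R x) (hX0 x)
  have hi : Integrable (fun y' : (Submodule.span ℝ {n})ᗮ => G (s • n + (y' : Sp d))) :=
    NN.pl_int hGc hGs
  have hi2 : Integrable (fun y' : (Submodule.span ℝ {n})ᗮ => G (y + (y' : Sp d))) := by
    have h1 := hi.comp_add_left w
    refine h1.congr (Eventually.of_forall fun y' => ?_)
    simp only [hwdef, Submodule.coe_add]
    congr 1
    abel
  have hint : plInt n s G = ∫ y' : (Submodule.span ℝ {n})ᗮ, G (y + (y' : Sp d)) := by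
    unfold plInt
    rw [← integral_add_left_eq_self (μ := volume)
      (fun y' : (Submodule.span ℝ {n})ᗮ => G (s • n + (y' : Sp d))) w]
    refine integral_congr_ae (Eventually.of_forall fun y' => ?_)
    simp only [hwdef, Submodule.coe_add]
    congr 1
    abel
  rw [hint]
  unfold discR
  have h2 : ∫ y' in closedBall (0 : (Submodule.span ℝ {n})ᗮ) ρ, F (y + (y' : Sp d)) ≤
      ∫ y' in closedBall (0 : (Submodule.span ℝ {n})ᗮ) ρ, G (y + (y' : Sp d)) := by
    refine setIntegral_mono_on ?_ hi2.integrableOn isClosed_closedBall.measurableSet ?_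
    · exact (hF.comp (by fun_prop)).continuousOn.integrableOn_compact (isCompact_closedBall _ _)
    · intro y' hy'
      rw [mem_closedBall, dist_zero_right] at hy'
      have h3 : ‖y + (y' : Sp d)‖ ≤ R := by
        have h4 := norm_add_le y (y' : Sp d)
        have h5 : ‖(y' : Sp d)‖ = ‖y'‖ := rfl
        linarith
      simp only [hG]
      rw [zR_one h3, one_mul]
      exact hFX _
  exact h2.trans (setIntegral_le_integral hi2 (Eventually.of_forall fun y' => hG0 _))

lemma tang_perp {n : Sp d} (hn : ‖n‖ = 1) (w : Sp d) : ⟪n, tang n w⟫_ℝ = 0 := by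
  unfold tang
  rw [inner_sub_right, inner_smul_right, real_inner_self_eq_norm_sq, hn]
  ring

lemma grad_smooth {f : Sp d → ℝ} (hf : ContDiff ℝ ∞ f) (n : Sp d) :
    ContDiff ℝ ∞ (fun x => tang n (gradient f x)) := by
  have h1 : ContDiff ℝ ∞ (gradient f) :=
    (InnerProductSpace.toDual ℝ (Sp d)).symm.contDiff.comp
      (hf.fderiv_right (m := ∞) (by norm_cast))
  unfold tang
  exact h1.sub ((contDiff_const.inner ℝ h1).smul contDiff_const)

/-- the function Υ vanishes near points where q < p0 / 2 -/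
lemma Ups_ev {p0 A : ℝ} (hp0 : 0 < p0) {μ : Measure (Sp d)} (hq : Continuous (qq A μ 1)) {y : Sp d}
    (hy : qq A μ 1 y < p0 / 2) : ∀ᶠ z in 𝓝 y, Ups p0 A μ 1 z = 0 := by
  filter_upwards [hq.continuousAt.eventually_lt_const hy] with z hz
  unfold Ups
  refine Real.smoothTransition.zero_of_nonpos ?_
  have h1 : 2 * qq A μ 1 z / p0 ≤ 1 := by
    rw [div_le_one hp0]
    linarith
  linarith

end TDc

open TDc

theorem stmtTD1 (hTH : StmtTH) (hWB : StmtWB) (hWA : StmtWA) (hIN : StmtIN) (hUB : StmtUB)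
    (hPF : StmtPF) : StmtTD1 := by
  intro d J hd M C' ε p0 A R0 δ hC' hε hε4 hp0 hp1 hA hR0 hδ
  obtain ⟨CU, hCU, hU⟩ := hUB d (J + 3) hd M C' ε p0 A hC' hε (by linarith) hp0 hp1 hA
  obtain ⟨CB, hCB, hB⟩ := hWB d (J + 2) hd M C' ε hC' hε (by linarith)
  obtain ⟨CA, hCA, hAw⟩ := hWA d 0 hd M C' ε hC' hε (by linarith)
  obtain ⟨L1, hL1, hl1⟩ := dvg_bd hd (J + 1) CU hCU.le
  obtain ⟨L2, hL2, hl2⟩ := dvg_bd hd 2 CU hCU.le
  obtain ⟨I, i0, hI1, hI2, hi0, hin⟩ := hIN d hd M C' ε p0 A R0 (δ / (4 * L2)) hC' hε hε4 hp0 hp1 hA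
    hR0 (by positivity)
  have hd2 : (2 : ℝ) ≤ d := by exact_mod_cast hd
  set C1 : ℝ := L1 * ((J + 3 : ℕ) * Real.sqrt (CB * (1 + d) ^ d)) with hC1
  have hC1n : 0 ≤ C1 := by positivity
  refine ⟨I, i0, C1 + C1 * Real.sqrt i0 + δ, hI1, hI2, hi0, by positivity, ?_⟩
  intro β hβ μ hμ m n s ab ep D hm hD _hZ hS hsm
  have hn := hS.n1
  have hβ0 := hβ 0
  set v := vv μ 1 0 with hv
  have hv0 : 0 ≤ v := Real.sqrt_nonneg _
  obtain ⟨hWs, -, -, -, -, hqs, -, hUs, hUb, -, -, -⟩ :=
    hU (β 0) (PTm.kit_mono (by omega) hβ0) μ hμ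
  set g : Sp d → Sp d := fun y => tang n (gradient (WW (β 0) ε μ 1) y) with hg
  have hgs : ContDiff ℝ ∞ g := grad_smooth hWs n
  set u : Sp d → ℝ := Ups p0 A μ 1 with hu
  have hgt : ∀ y, ⟪n, g y⟫_ℝ = 0 := fun y => tang_perp hn _
  -- the gain functional
  obtain ⟨-, -, -, -, hAn⟩ := hAw (β 0) (PTm.kit_mono (by omega) hβ0) μ hμ
  obtain ⟨hXs, hX0, -, hX13s, hX130, -⟩ := hAn n hn
  have hXc : Continuous (XX (β 0) ε μ n 1) := hXs.continuous
  have hX13c : Continuous (X13 (β 0) ε μ n 1) := hX13s.continuous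
  have hle : ∀ x, X13 (β 0) ε μ n 1 x ≤ XX (β 0) ε μ n 1 x := by
    intro x
    have h1 : 0 ≤ tav (X2 μ n) 1 x := by
      unfold tav
      refine intervalIntegral.integral_nonneg (by norm_num) fun r hr => ?_
      refine mul_nonneg (le_max_left _ _) ?_
      refine div_nonneg (integral_nonneg fun η => mul_nonneg (by positivity) ?_) (Real.sqrt_nonneg _)
      have : 0 ≤ r := by linarith [hr.1]
      unfold kk
      positivity
    unfold X13 XX
    linarith
  set P := plInt n s (fun x => zR (d + 2) x * XX (β 0) ε μ n 1 x) with hP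
  have hP0 : 0 ≤ P := integral_nonneg fun y => mul_nonneg (zR_nn _ _) (hX0 _)
  have hPi : P ≤ i0 * v := by
    refine le_trans ?_ (hsm 0 (Nat.zero_le _))
    simp only [pow_zero]
    unfold plInt at hP ⊢
    rw [hP]
    refine integral_mono (NN.pl_int ((zR_cont _).mul hXc) (zR_cs _).mul_right)
      (NN.pl_int ((zR_cont _).mul hXc) (zR_cs _).mul_right) fun y => ?_
    exact mul_le_mul_of_nonneg_right (zR_le (by linarith) _) (hX0 _)
  -- bounds on the plane
  set N : ℝ := C1 * Real.sqrt (v * P) with hNdef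
  have hN0 : 0 ≤ N := by positivity
  have hgb : ∀ i < J + 3, ∀ y, ‖y‖ ≤ d → ⟪n, y⟫_ℝ = s →
      ‖iteratedFDeriv ℝ i g y‖ ≤ Real.sqrt (CB * (1 + d) ^ d) * Real.sqrt (v * P) := by
    intro i hi y hy hys
    obtain ⟨hB1, -, -, -⟩ := hB (β 0) (PTm.kit_mono (by omega) hβ0) μ hμ n hn
    have h1 := hB1 i (by omega) y
    have h2 : discR n (2 * ε) (X13 (β 0) ε μ n 1) y ≤ P :=
      disc_le hn hX13c hXc hle hX0 hys (by linarith)
    have h3 : vv μ 1 y ≤ (1 + d) ^ d * v := vv_le hTH hd hC' hμ hy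
    rw [← Real.sqrt_mul (by positivity)]
    refine Real.le_sqrt_of_sq_le ?_
    have h4 : 0 ≤ discR n (2 * ε) (X13 (β 0) ε μ n 1) y :=
      setIntegral_nonneg isClosed_closedBall.measurableSet fun _ _ => hX130 _
    calc ‖iteratedFDeriv ℝ i g y‖ ^ 2 ≤
        CB * vv μ 1 y * discR n (2 * ε) (X13 (β 0) ε μ n 1) y := h1
      _ ≤ CB * ((1 + d) ^ d * v) * P := by
          refine mul_le_mul (mul_le_mul_of_nonneg_left h3 hCB.le) h2 h4 (by positivity)
      _ = CB * (1 + d) ^ d * (v * P) := by ring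
  have hTB : TB J n s N (dvg u g) := by
    refine dvg_TB hd hn hN0 hUs hgs fun k hk y hy hys => ?_
    have h1 := hl1 u g hUs hgs (fun j hj x => hUb j (by omega) x) k hk y
    refine h1.trans ?_
    have h2 : ∑ i ∈ Finset.range (J + 1 + 2), ‖iteratedFDeriv ℝ i g y‖ ≤
        ∑ _i ∈ Finset.range (J + 1 + 2), Real.sqrt (CB * (1 + d) ^ d) * Real.sqrt (v * P) :=
      Finset.sum_le_sum fun i hi => hgb i (by
        have := Finset.mem_range.1 hi
        omega) y hy hys
    rw [Finset.sum_const, Finset.card_range, nsmul_eq_mul] at h2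
    have h3 := mul_le_mul_of_nonneg_left h2 hL1.le
    refine h3.trans_eq ?_
    rw [hNdef, hC1]
    push_cast
    ring
  -- second derivatives
  have hN2 : ∀ y, ‖iteratedFDeriv ℝ 2 (dvg u g) y‖ ≤ δ * v := by
    intro y
    have hδv : 0 ≤ δ * v := by positivity
    rcases le_or_gt (d : ℝ) ‖y‖ with h1 | h1
    · rw [iter_zero (dvg_ev_far hd h1), norm_zero]
      exact hδv
    · rcases lt_or_ge (qq A μ 1 y) (p0 / 2) with h2 | h2
      · have h3 : dvg u g =ᶠ[𝓝 y] fun _ => 0 := by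
          refine dvg_ev ?_
          filter_upwards [Ups_ev hp0 hqs.continuous h2] with z hz
          show chi z * Ups p0 A μ 1 z = 0
          rw [hz, mul_zero]
        rw [iter_zero h3, norm_zero]
        exact hδv
      · obtain ⟨-, -, h3⟩ := hin β (fun i => PTm.kit_mono (by omega) (hβ i)) μ hμ n s hn hS.loc hsm
          y (by linarith) h2
        have h4 := hl2 u g hUs hgs (fun j hj x => hUb j (by omega) x) 2 le_rfl y
        refine h4.trans ?_
        have h5 : ∑ i ∈ Finset.range (2 + 2), ‖iteratedFDeriv ℝ i g y‖ ≤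
            ∑ _i ∈ Finset.range (2 + 2), δ / (4 * L2) * v :=
          Finset.sum_le_sum fun i hi => h3 i (by
            have := Finset.mem_range.1 hi
            omega)
        rw [Finset.sum_const, Finset.card_range, nsmul_eq_mul] at h5
        refine (mul_le_mul_of_nonneg_left h5 hL2.le).trans_eq ?_
        push_cast
        field_simp
  have hest := hS.est (dvg u g) d N (δ * v) (contDiff_infty.1 (dvg_smooth hUs hgs) (J + 2))
    (Nat.cast_nonneg d) (by linarith) (fun y hy => (dvg_ev_far hd hy).eq_of_nhds) hTB hN2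
  rw [dvg_pl hPF hd hn hUs hgs hgt, mul_zero, sub_zero] at hest
  rw [dvT_eq]
  refine hest.trans ?_
  have hNv : N ≤ C1 * Real.sqrt i0 * v := by
    have h1 : v * P ≤ i0 * v ^ 2 := by nlinarith
    have h2 : Real.sqrt (v * P) ≤ Real.sqrt i0 * v := by
      calc Real.sqrt (v * P) ≤ Real.sqrt (i0 * v ^ 2) := Real.sqrt_le_sqrt h1
        _ = Real.sqrt i0 * v := by rw [Real.sqrt_mul hi0.le, Real.sqrt_sq hv0]
    calc N = C1 * Real.sqrt (v * P) := hNdef
      _ ≤ C1 * (Real.sqrt i0 * v) := mul_le_mul_of_nonneg_left h2 hC1n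
      _ = C1 * Real.sqrt i0 * v := by ring
  have hs0 := Real.sqrt_nonneg (v * P)
  have hsi := Real.sqrt_nonneg i0
  have hep := hS.ep0
  have e1 : ep * N ≤ (C1 + C1 * Real.sqrt i0 + δ) * ep * Real.sqrt (v * P) := by
    rw [hNdef]
    have : 0 ≤ (C1 * Real.sqrt i0 + δ) * (ep * Real.sqrt (v * P)) := by positivity
    nlinarith
  have e2 : (N + δ * v) * D ≤ (C1 + C1 * Real.sqrt i0 + δ) * v * D := by
    refine mul_le_mul_of_nonneg_right ?_ hD
    have : 0 ≤ C1 * v := by positivity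
    nlinarith
  linarith

end

end TG
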