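import Pool.Agent.TG.TDc
set_option autoImplicit false

/-!
# Module TD2 (11.2), general case (helper15; common part by helper63, TDc.lean)
-/

open MeasureTheory Metric Set TrI Filter
open scoped InnerProductSpace ContDiff Topology

namespace TG

noncomputable section

namespace TD2m

variable {d : ℕ}

lemma kit_mono {J J' : ℕ} (h : J' ≤ J) {M : ℝ} {β : Sp d → ℝ} (hk : Kit J M β) : Kit J' M β where
  prof :=
    { smooth := hk.prof.smooth.of_le (by exact_mod_cast h)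
      nonneg := hk.prof.nonneg
      mono := hk.prof.mono
      supp := hk.prof.supp
      int := hk.prof.int
      der := fun j hj => hk.prof.der j (hj.trans h) }
  smooth1 := hk.smooth1.of_le (by exact_mod_cast h)
  smooth2 := hk.smooth2.of_le (by exact_mod_cast h)
  supp1 := hk.supp1
  supp2 := hk.supp2
  grad1 := hk.grad1
  grad2 := hk.grad2
  nonneg1 := hk.nonneg1
  nonneg2 := hk.nonneg2
  le1 := hk.le1
  le2 := hk.le2
  mono1 := hk.mono1
  mono2 := hk.mono2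
  der1 := fun j hj => hk.der1 j (hj.trans h)
  der2 := fun j hj => hk.der2 j (hj.trans h)

/-- tangential part as a continuous linear map -/
def tangL (n : Sp d) : Sp d →L[ℝ] Sp d :=
  ContinuousLinearMap.id ℝ (Sp d) - (innerSL ℝ n).smulRight n

lemma tangL_apply (n w : Sp d) : tangL n w = tang n w := by
  simp [tangL, tang]

lemma tang_norm {n : Sp d} (hn : ‖n‖ = 1) (w : Sp d) : ‖tang n w‖ ≤ ‖w‖ := by
  have h1 : ‖tang n w‖ ^ 2 = ‖w‖ ^ 2 - ⟪n, w⟫_ℝ ^ 2 := by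
    unfold tang
    rw [norm_sub_sq_real, inner_smul_right, norm_smul, hn, real_inner_comm n w,
      Real.norm_eq_abs, mul_one, sq_abs]
    ring
  nlinarith [norm_nonneg (tang n w), norm_nonneg w, sq_nonneg ⟪n, w⟫_ℝ]

lemma tangL_norm {n : Sp d} (hn : ‖n‖ = 1) : ‖tangL n‖ ≤ 1 :=
  ContinuousLinearMap.opNorm_le_bound _ zero_le_one fun w => by
    rw [tangL_apply, one_mul]
    exact tang_norm hn w

lemma inner_tang {n : Sp d} (hn : ‖n‖ = 1) (w : Sp d) : ⟪n, tang n w⟫_ℝ = 0 := by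
  unfold tang
  rw [inner_sub_right, inner_smul_right, real_inner_self_eq_norm_sq, hn]
  ring

/-- the Riesz map as a real linear map -/
def rz (d : ℕ) : (Sp d →L[ℝ] ℝ) →L[ℝ] Sp d :=
  LinearMap.mkContinuous
    { toFun := fun L => (InnerProductSpace.toDual ℝ (Sp d)).symm L
      map_add' := fun L L' => map_add _ L L'
      map_smul' := fun c L => by
        rw [LinearIsometryEquiv.map_smulₛₗ]
        simp } 1 (fun L => by
        rw [one_mul]
        exact le_of_eq ((InnerProductSpace.toDual ℝ (Sp d)).symm.norm_map L))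

lemma rz_norm (L : Sp d →L[ℝ] ℝ) : ‖rz d L‖ = ‖L‖ :=
  (InnerProductSpace.toDual ℝ (Sp d)).symm.norm_map L

/-- the field of tangential gradients as a composition -/
lemma tg_eq (n : Sp d) (W : Sp d → ℝ) : (fun y => tang n (gradient W y)) =
    ⇑((tangL n).comp (rz d)) ∘ (fderiv ℝ W) := by
  funext y
  simp only [Function.comp_apply, ContinuousLinearMap.comp_apply, tangL_apply]
  rfl

lemma tg_smooth (n : Sp d) {W : Sp d → ℝ} (hW : ContDiff ℝ ∞ W) :
    ContDiff ℝ ∞ (fun y => tang n (gradient W y)) := by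
  rw [tg_eq]
  exact ((tangL n).comp (rz d)).contDiff.comp (hW.fderiv_right (m := ∞) (by norm_cast))

lemma tg_bd {n : Sp d} (hn : ‖n‖ = 1) {W : Sp d → ℝ} (hW : ContDiff ℝ ∞ W) (i : ℕ) (y : Sp d) :
    ‖iteratedFDeriv ℝ i (fun y => tang n (gradient W y)) y‖ ≤ ‖iteratedFDeriv ℝ (i + 1) W y‖ := by
  rw [tg_eq]
  have h3 : ContDiff ℝ i (fderiv ℝ W) :=
    (hW.fderiv_right (m := ∞) (by norm_cast)).of_le (by exact_mod_cast le_top)
  have h4 := ((tangL n).comp (rz d)).norm_iteratedFDeriv_comp_left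
        (f := fderiv ℝ W) (x := y) (n := i) h3.contDiffAt le_rfl
  have h5 : ‖(tangL n).comp (rz d)‖ ≤ 1 := by
    refine ContinuousLinearMap.opNorm_le_bound _ zero_le_one fun L => ?_
    rw [one_mul, ContinuousLinearMap.comp_apply]
    refine ((tangL n).le_opNorm _).trans ?_
    refine (mul_le_of_le_one_left (norm_nonneg _) (tangL_norm hn)).trans ?_
    exact le_of_eq (rz_norm L)
  refine h4.trans ?_
  rw [norm_iteratedFDeriv_fderiv]
  exact mul_le_of_le_one_left (norm_nonneg _) h5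

/-- the general bound: N = C v(0) and blc(d+1) + 2 D -/
theorem core (hPF : StmtPF) (hTH : StmtTH) (hUB : StmtUB) :
  ∀ (d J : ℕ), 2 ≤ d → ∀ (M C' ε p0 A R0 : ℝ), 0 < C' → 0 < ε → ε ≤ 1 / 4 → 0 < p0 →
    p0 ≤ 1 → 1 ≤ A → 4 * A + 4 * d + 20 ≤ R0 → ∃ C : ℝ, 0 < C ∧
    ∀ β : Sp d → ℝ, Kit (J + 10) M β → ∀ μ : Measure (Sp d), Gro C' μ →
    ∀ (m : Sp d → ℝ) (n : Sp d) (s ab ep D : ℝ), Continuous m → 0 ≤ D → ZP R0 D m →
      Sheet J R0 ab ep D m n s → 0 ≤ blc n s m (d + 1) + D ∧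
      |∫ y, m y * dvT chi β ε p0 A μ n y| ≤
        C * vv μ 1 0 * (ep + blc n s m (d + 1) + 2 * D) := by
  intro d J hd M C' ε p0 A R0 hC' hε hε4 hp0 hp1 hA hR
  obtain ⟨CU, hCU, hU⟩ := hUB d (J + 4) hd M C' ε p0 A hC' hε (by linarith) hp0 hp1 hA
  obtain ⟨CL, hCL, hL⟩ := TDc.dvg_bd hd (J + 2) CU hCU.le
  have hd' : (2 : ℝ) ≤ d := by exact_mod_cast hd
  set H : ℝ := (1 + (d : ℝ)) ^ d with hH
  have hH0 : 0 < H := by positivity
  refine ⟨CL * (((J : ℝ) + 4) * (CU * H)), by positivity, ?_⟩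
  intro β hβ μ hμ m n s ab ep D hm hD _ hS
  obtain ⟨hWs, -, hWb, -, -, -, -, hUs, hUb, -⟩ := hU β (kit_mono (by omega) hβ) μ hμ
  have hn := hS.n1
  have hv0 : 0 ≤ vv μ 1 0 := Real.sqrt_nonneg _
  set g : Sp d → Sp d := fun y => tang n (gradient (WW β ε μ 1) y) with hg
  set u : Sp d → ℝ := Ups p0 A μ 1 with hu
  have hgs : ContDiff ℝ ∞ g := tg_smooth n hWs
  have hgb : ∀ i ≤ J + 3, ∀ y, ‖y‖ ≤ d → ‖iteratedFDeriv ℝ i g y‖ ≤ CU * H * vv μ 1 0 := by
    intro i hi y hy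
    calc ‖iteratedFDeriv ℝ i g y‖ ≤ ‖iteratedFDeriv ℝ (i + 1) (WW β ε μ 1) y‖ := tg_bd hn hWs i y
      _ ≤ CU * vv μ 1 y := hWb (i + 1) (by omega) y
      _ ≤ CU * (H * vv μ 1 0) :=
          mul_le_mul_of_nonneg_left (TDc.vv_le hTH hd hC' hμ hy) hCU.le
      _ = CU * H * vv μ 1 0 := by ring
  set N : ℝ := CL * (((J : ℝ) + 4) * (CU * H)) * vv μ 1 0 with hN
  have hN0 : 0 ≤ N := by positivity
  have hb : ∀ j ≤ J + 2, ∀ y, ‖y‖ ≤ d → ‖iteratedFDeriv ℝ j (TDc.dvg u g) y‖ ≤ N := by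
    intro j hj y hy
    refine (hL u g hUs hgs (fun k hk x => hUb k (by omega) x) j hj y).trans ?_
    have h1 : ∑ i ∈ Finset.range (J + 2 + 2), ‖iteratedFDeriv ℝ i g y‖ ≤
        ∑ i ∈ Finset.range (J + 2 + 2), CU * H * vv μ 1 0 :=
      Finset.sum_le_sum fun i hi => hgb i (by have := Finset.mem_range.1 hi; omega) y hy
    rw [Finset.sum_const, Finset.card_range, nsmul_eq_mul] at h1
    calc CL * ∑ i ∈ Finset.range (J + 2 + 2), ‖iteratedFDeriv ℝ i g y‖
        ≤ CL * (((J + 2 + 2 : ℕ) : ℝ) * (CU * H * vv μ 1 0)) :=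
          mul_le_mul_of_nonneg_left h1 hCL.le
      _ = N := by rw [hN]; push_cast; ring
  have hb' : ∀ j ≤ J + 2, ∀ y, ‖iteratedFDeriv ℝ j (TDc.dvg u g) y‖ ≤ N := by
    intro j hj y
    rcases le_or_gt (d : ℝ) ‖y‖ with h1 | h1
    · rw [TDc.iter_zero (TDc.dvg_ev_far hd h1), norm_zero]
      exact hN0
    · exact hb j hj y h1.le
  have hTB : TB J n s N (TDc.dvg u g) :=
    TDc.dvg_TB hd hn hN0 hUs hgs (fun j hj y hy _ => hb j (by omega) y hy)
  have hpl : plInt n s (TDc.dvg u g) = 0 :=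
    TDc.dvg_pl hPF hd hn hUs hgs (fun y => inner_tang hn _) s
  have hest := hS.est (TDc.dvg u g) d N N
    ((TDc.dvg_smooth hUs hgs).of_le (WithTop.coe_le_coe.2 le_top)) (by positivity) (by linarith)
    (fun y hy => (TDc.dvg_ev_far hd hy).eq_of_nhds) hTB (fun y => hb' 2 (by omega) y)
  have hpos : 0 ≤ blc n s m (d + 1) + D := by
    have h0 := hS.est (fun _ => 0) d 0 1 contDiff_const (by positivity) (by linarith)
      (fun _ _ => rfl) (by
        intro j _ h _ _ y _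
        have e1 : (fun x : Sp d => fderiv ℝ (fun _ : Sp d => (0 : ℝ)) x n) = fun _ => 0 := by
          funext x
          simp
        rw [e1]
        rw [iteratedFDeriv_fun_zero]
        simp) (by
        intro y
        rw [iteratedFDeriv_fun_zero]
        simp)
    simp only [mul_zero, integral_zero, zero_sub, zero_add, one_mul] at h0
    have h1 : 0 ≤ |(-(ab * plInt n s (fun _ : Sp d => (0 : ℝ))))| := abs_nonneg _
    exact h1.trans (by simpa using h0)
  refine ⟨hpos, ?_⟩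
  rw [TDc.dvT_eq]
  rw [hpl, mul_zero, sub_zero] at hest
  calc |∫ y, m y * TDc.dvg u g y| ≤ ep * N + N * blc n s m (d + 1) + (N + N) * D := hest
    _ = N * (ep + blc n s m (d + 1) + 2 * D) := by ring
    _ = CL * (((J : ℝ) + 4) * (CU * H)) * vv μ 1 0 * (ep + blc n s m (d + 1) + 2 * D) := by
        rw [hN]

end TD2m

/-- MODULE TD2 -/
theorem stmtTD2 (hPF : StmtPF) (hTH : StmtTH) (hUB : StmtUB) : StmtTD2 := by
  intro d J hd M C' ε p0 A R0 hC' hε hε4 hp0 hp1 hA hR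
  obtain ⟨C, hC, h⟩ := TD2m.core hPF hTH hUB d J hd M C' ε p0 A R0 hC' hε hε4 hp0 hp1 hA hR
  exact ⟨C, hC, fun β hβ μ hμ m n s ab ep D hm hD hZ hS =>
    (h β hβ μ hμ m n s ab ep D hm hD hZ hS).2⟩

end

end TG
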