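import Pool.Agent.TG.Stmts1
import Pool.Agent.TR.Basic1

/-!
# Module TP, part a: general lemmas (parametric integrals, integration by parts)
-/

set_option linter.unusedSectionVars false

open MeasureTheory Metric Set TrI
open scoped InnerProductSpace ContDiff

namespace TG
namespace TP

/-! ## Parametric integrals -/

section Param

variable {X Z Y : Type} [NormedAddCommGroup X] [NormedSpace ℝ X] [FiniteDimensional ℝ X]
  [NormedAddCommGroup Z] [NormedSpace ℝ Z] [FiniteDimensional ℝ Z] [MeasurableSpace Y]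

lemma int_equiv {A B' : Type} [NormedAddCommGroup A] [NormedSpace ℝ A] [NormedAddCommGroup B']
    [NormedSpace ℝ B'] (L : A ≃ₗᵢ[ℝ] B') (ν : Measure Y) (φ : Y → A) :
    L (∫ a, φ a ∂ν) = ∫ a, L (φ a) ∂ν :=
  (L.toContinuousLinearEquiv.integral_comp_comm φ).symm

lemma bdd_loc {F : Type} [NormedAddCommGroup F] {G : X × Z → F} (hG : Continuous G) (p0 : X)
    (B : ℝ) : ∃ M : ℝ, ∀ p ∈ closedBall p0 1, ∀ z, ‖z‖ ≤ B → ‖G (p, z)‖ ≤ M := by
  have hX : ProperSpace X := FiniteDimensional.proper ℝ X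
  have hZ : ProperSpace Z := FiniteDimensional.proper ℝ Z
  obtain ⟨M, hM⟩ := ((isCompact_closedBall p0 1).prod
    (isCompact_closedBall (0 : Z) B)).exists_bound_of_continuousOn hG.continuousOn
  exact ⟨M, fun p hp z hz => hM (p, z) ⟨hp, by simpa using hz⟩⟩

lemma meas_comp {F : Type} [NormedAddCommGroup F] {G : X × Z → F} (hG : Continuous G) (p : X)
    {ν : Measure Y} {θ : Y → Z} (hθ : AEStronglyMeasurable θ ν) :
    AEStronglyMeasurable (fun a => G (p, θ a)) ν :=
  (hG.comp (Continuous.prodMk_right p)).comp_aestronglyMeasurable hθ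

lemma int_comp {F : Type} [NormedAddCommGroup F] {G : X × Z → F} (hG : Continuous G) (p : X)
    {ν : Measure Y} [IsFiniteMeasure ν] {θ : Y → Z} (hθ : AEStronglyMeasurable θ ν) {B : ℝ}
    (hB : ∀ᵐ a ∂ν, ‖θ a‖ ≤ B) :
    Integrable (fun a => G (p, θ a)) ν := by
  obtain ⟨M, hM⟩ := bdd_loc hG p B
  refine Integrable.of_bound (meas_comp hG p hθ) M ?_
  filter_upwards [hB] with a ha
  exact hM p (mem_closedBall_self zero_le_one) _ ha

theorem param (ν : Measure Y) [IsFiniteMeasure ν] (θ : Y → Z) (hθ : AEStronglyMeasurable θ ν)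
    (B : ℝ) (hB : ∀ᵐ a ∂ν, ‖θ a‖ ≤ B) (m : ℕ) :
    ∀ (F : Type) [NormedAddCommGroup F] [NormedSpace ℝ F] (H : X × Z → F), ContDiff ℝ m H →
      ContDiff ℝ m (fun p => ∫ a, H (p, θ a) ∂ν) ∧ ∀ j ≤ m, ∀ p,
        iteratedFDeriv ℝ j (fun p => ∫ a, H (p, θ a) ∂ν) p =
          ∫ a, iteratedFDeriv ℝ j (fun q => H (q, θ a)) p ∂ν := by
  induction m with
  | zero =>
    intro F _ _ H hH
    have hc : Continuous H := hH.continuous
    constructor
    · rw [Nat.cast_zero, contDiff_zero]
      rw [continuous_iff_continuousAt]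
      intro p0
      obtain ⟨M, hM⟩ := bdd_loc hc p0 B
      refine continuousAt_of_dominated (F := fun p a => H (p, θ a)) (bound := fun _ => M) ?_ ?_
        (integrable_const _) ?_
      · exact Filter.Eventually.of_forall fun p => meas_comp hc p hθ
      · filter_upwards [closedBall_mem_nhds p0 zero_lt_one] with p hp
        filter_upwards [hB] with a ha
        exact hM p hp _ ha
      · exact Filter.Eventually.of_forall fun a =>
          (hc.comp (Continuous.prodMk_left (θ a))).continuousAt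
    · intro j hj p
      obtain rfl : j = 0 := by omega
      simp only [iteratedFDeriv_zero_eq_comp, Function.comp_apply]
      exact int_equiv (continuousMultilinearCurryFin0 ℝ X F).symm _ _
  | succ m ih =>
    intro F _ _ H hH
    have hc : Continuous H := hH.continuous
    set H1 : X × Z → (X →L[ℝ] F) := fun q => (fderiv ℝ H q).comp (ContinuousLinearMap.inl ℝ X Z)
      with hH1
    have hd : ∀ p z, HasFDerivAt (fun q => H (q, z)) (H1 (p, z)) p := by
      intro p z
      have h1 : HasFDerivAt H (fderiv ℝ H (p, z)) (p, z) :=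
        (hH.differentiable (by simp) (p, z)).hasFDerivAt
      exact h1.comp p (hasFDerivAt_prodMk_left p z)
    have hH1c : ContDiff ℝ m H1 := by
      have h1 : ContDiff ℝ m (fderiv ℝ H) := hH.fderiv_right (by simp)
      exact h1.clm_comp contDiff_const
    have hI : ∀ p, HasFDerivAt (fun p => ∫ a, H (p, θ a) ∂ν) (∫ a, H1 (p, θ a) ∂ν) p := by
      intro p0
      obtain ⟨M, hM⟩ := bdd_loc hH1c.continuous p0 B
      refine hasFDerivAt_integral_of_dominated_of_fderiv_le (F := fun p a => H (p, θ a))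
        (F' := fun p a => H1 (p, θ a)) (bound := fun _ => M)
        (closedBall_mem_nhds p0 zero_lt_one) ?_ ?_ ?_ ?_ (integrable_const _) ?_
      · exact Filter.Eventually.of_forall fun p => meas_comp hc p hθ
      · exact int_comp hc p0 hθ hB
      · exact meas_comp hH1c.continuous p0 hθ
      · filter_upwards [hB] with a ha
        intro p hp
        exact hM p hp _ ha
      · exact Filter.Eventually.of_forall fun a p _ => hd p (θ a)
    obtain ⟨ih1, ih2⟩ := ih (X →L[ℝ] F) H1 hH1c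
    constructor
    · push_cast
      exact contDiff_succ_iff_hasFDerivAt.mpr ⟨_, ih1, hI⟩
    · intro j hj p
      rcases j with _ | j
      · simp only [iteratedFDeriv_zero_eq_comp, Function.comp_apply]
        exact int_equiv (continuousMultilinearCurryFin0 ℝ X F).symm _ _
      · have h1 : (fderiv ℝ (fun p => ∫ a, H (p, θ a) ∂ν)) = fun p => ∫ a, H1 (p, θ a) ∂ν :=
          funext fun q => (hI q).fderiv
        have h2 : ∀ z, fderiv ℝ (fun q => H (q, z)) = fun q => H1 (q, z) :=
          fun z => funext fun q => (hd q z).fderiv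
        simp only [iteratedFDeriv_succ_eq_comp_right, Function.comp_apply, h1, h2]
        rw [ih2 j (by omega) p]
        exact int_equiv (A := ContinuousMultilinearMap ℝ (fun _ : Fin j => X) (X →L[ℝ] F))
          (B' := ContinuousMultilinearMap ℝ (fun _ : Fin (j + 1) => X) F)
          (continuousMultilinearCurryRightEquiv' ℝ j X F).symm ν
          (fun a => iteratedFDeriv ℝ j (fun q => H1 (q, θ a)) p)

end Param

/-! ## Integration by parts -/

section IBP

variable {d : ℕ}

lemma post_bound {A B : Type} [NormedAddCommGroup A] [NormedSpace ℝ A] [NormedAddCommGroup B]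
    [NormedSpace ℝ B] (D : A →L[ℝ] B) {k : ℕ} {Lam : Sp d → A} (hL : ContDiff ℝ k Lam) {N : ℝ}
    (hN : ∀ j ≤ k, ∀ p, ‖iteratedFDeriv ℝ j Lam p‖ ≤ N) :
    ∀ j ≤ k, ∀ p, ‖iteratedFDeriv ℝ j (fun p => D (Lam p)) p‖ ≤ (‖D‖ + 1) * N := by
  intro j hj p
  have h0 : 0 ≤ N := (norm_nonneg _).trans (hN 0 (Nat.zero_le _) p)
  have h1 := D.norm_iteratedFDeriv_comp_left (hL.contDiffAt (x := p)) (n := j)
    (by exact_mod_cast hj)
  calc ‖iteratedFDeriv ℝ j (fun p => D (Lam p)) p‖ ≤ ‖D‖ * ‖iteratedFDeriv ℝ j Lam p‖ := h1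
    _ ≤ ‖D‖ * N := mul_le_mul_of_nonneg_left (hN j hj p) (norm_nonneg _)
    _ ≤ (‖D‖ + 1) * N := by nlinarith

lemma post_supp {A B : Type} [NormedAddCommGroup A] [NormedSpace ℝ A] [NormedAddCommGroup B]
    [NormedSpace ℝ B] (D : A →L[ℝ] B) (Lam : Sp d → A) :
    tsupport (fun p => D (Lam p)) ⊆ tsupport Lam := by
  refine closure_mono fun p hp => ?_
  rw [Function.mem_support] at hp ⊢
  intro h
  exact hp (by rw [h, map_zero])

lemma cs_int {G : Sp d → ℝ} (hG : Continuous G) {A : Type} [Zero A] {Lam : Sp d → A}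
    (hs : HasCompactSupport Lam) (h : ∀ p, Lam p = 0 → G p = 0) : Integrable G := by
  refine hG.integrable_of_hasCompactSupport (hs.mono' ?_)
  intro p hp
  rw [Function.mem_support] at hp
  exact subset_closure (fun h0 => hp (h p h0))

theorem ibp_one {F G : Type} [NormedAddCommGroup F] [NormedSpace ℝ F] [NormedAddCommGroup G]
    [NormedSpace ℝ G] (B : G →L[ℝ] F →L[ℝ] ℝ)
    {Psi : Sp d → G} (hP : ContDiff ℝ 1 Psi)
    (hs : HasCompactSupport Psi) {f : Sp d → F} (hf : ContDiff ℝ 1 f) (w : Sp d) :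
    ∫ p, B (Psi p) (fderiv ℝ f p w) = ∫ p, B (fderiv ℝ Psi p (-w)) (f p) := by
  have hfc : Continuous f := hf.continuous
  have hfd : Continuous (fderiv ℝ f) := (hf.fderiv_right (m := 0) (by simp)).continuous
  have hPc : Continuous Psi := hP.continuous
  have hPd : Continuous (fderiv ℝ Psi) := (hP.fderiv_right (m := 0) (by simp)).continuous
  have hPs : HasCompactSupport (fderiv ℝ Psi) := hs.fderiv ℝ
  have h := integral_bilinear_fderiv_right_eq_neg_left_of_integrable (μ := volume)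
      (B := B) (f := Psi) (g := f) (v := w) ?_ ?_ ?_
      (fun x _ => hP.differentiable (by simp) x) (fun x _ => hf.differentiable (by simp) x)
  · rw [h, ← integral_neg]
    refine integral_congr_ae (Filter.Eventually.of_forall fun p => ?_)
    simp
  · refine cs_int (by fun_prop) hPs fun p hp => ?_
    rw [hp]; simp
  · refine cs_int (by fun_prop) hs fun p hp => ?_
    rw [hp]; simp
  · refine cs_int (by fun_prop) hs fun p hp => ?_
    rw [hp]; simp

theorem ibp {F G : Type} [NormedAddCommGroup F] [NormedSpace ℝ F] [NormedAddCommGroup G]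
    [NormedSpace ℝ G] (B : G →L[ℝ] F →L[ℝ] ℝ) (m : ℕ) :
    ∀ (al : Fin m → Sp d), (∀ i, ‖al i‖ ≤ 1) → ∀ (J : ℕ) (Lam : Sp d → G) (N : ℝ),
      ContDiff ℝ (J + m : ℕ) Lam → HasCompactSupport Lam →
      (∀ j ≤ J + m, ∀ p, ‖iteratedFDeriv ℝ j Lam p‖ ≤ N) →
      ∃ Psi : Sp d → G, ContDiff ℝ J Psi ∧
        (∀ j ≤ J, ∀ p, ‖iteratedFDeriv ℝ j Psi p‖ ≤ N) ∧ tsupport Psi ⊆ tsupport Lam ∧
        ∀ f : Sp d → F, ContDiff ℝ ∞ f →
          ∫ p, B (Lam p) (iteratedFDeriv ℝ m f p al) = ∫ p, B (Psi p) (f p) := by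
  induction m with
  | zero =>
    intro al _ J Lam N hL hs hN
    exact ⟨Lam, hL, hN, Subset.rfl, fun f hf => rfl⟩
  | succ m ih =>
    intro al hal J Lam N hL hs hN
    let D : (Sp d →L[ℝ] G) →L[ℝ] G := ContinuousLinearMap.apply ℝ G (-(al 0))
    have hD : ∀ S, D S = S (-(al 0)) := fun S => rfl
    have hD1 : ‖D‖ ≤ 1 := by
      refine ContinuousLinearMap.opNorm_le_bound _ zero_le_one fun S => ?_
      rw [hD, one_mul]
      calc ‖S (-(al 0))‖ ≤ ‖S‖ * ‖-(al 0)‖ := S.le_opNorm _
        _ ≤ ‖S‖ * 1 := by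
            gcongr
            rw [norm_neg]; exact hal 0
        _ = ‖S‖ := mul_one _
    have hLd : ContDiff ℝ (J + m : ℕ) (fderiv ℝ Lam) := hL.fderiv_right (by norm_cast)
    have hL1 : ContDiff ℝ (J + m : ℕ) (fun p => D (fderiv ℝ Lam p)) := D.contDiff.comp hLd
    have hsub : tsupport (fun p => D (fderiv ℝ Lam p)) ⊆ tsupport Lam :=
      (post_supp D (fderiv ℝ Lam)).trans (tsupport_fderiv_subset ℝ)
    have hs1 : HasCompactSupport (fun p => D (fderiv ℝ Lam p)) :=
      hs.of_isClosed_subset (isClosed_tsupport _) hsub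
    have hN1 : ∀ j ≤ J + m, ∀ p, ‖iteratedFDeriv ℝ j (fun p => D (fderiv ℝ Lam p)) p‖ ≤ N := by
      intro j hj p
      have h1 := D.norm_iteratedFDeriv_comp_left (hLd.contDiffAt (x := p)) (n := j)
        (by exact_mod_cast hj)
      calc ‖iteratedFDeriv ℝ j (fun p => D (fderiv ℝ Lam p)) p‖ ≤
          ‖D‖ * ‖iteratedFDeriv ℝ j (fderiv ℝ Lam) p‖ := h1
        _ ≤ 1 * ‖iteratedFDeriv ℝ j (fderiv ℝ Lam) p‖ := by gcongr
        _ = ‖iteratedFDeriv ℝ (j + 1) Lam p‖ := by rw [one_mul, norm_iteratedFDeriv_fderiv]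
        _ ≤ N := hN (j + 1) (by omega) p
    obtain ⟨Psi, hP1, hP2, hP3, hP4⟩ := ih (Fin.tail al) (fun i => hal _) J _ N hL1 hs1 hN1
    refine ⟨Psi, hP1, hP2, hP3.trans hsub, ?_⟩
    intro f hf
    rw [← hP4 f hf]
    have hg : ContDiff ℝ 1 (iteratedFDeriv ℝ m f) :=
      hf.iteratedFDeriv_right (by norm_cast; exact le_top)
    have hg1 : ContDiff ℝ 1 (fun p => iteratedFDeriv ℝ m f p (Fin.tail al)) :=
      (ContinuousMultilinearMap.apply ℝ (fun _ : Fin m => Sp d) F (Fin.tail al)).contDiff.comp hg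
    have h1 := ibp_one B (hL.of_le (by norm_cast; omega)) hs hg1 (al 0)
    have h2 : ∀ p, fderiv ℝ (fun p => iteratedFDeriv ℝ m f p (Fin.tail al)) p (al 0) =
        iteratedFDeriv ℝ (m + 1) f p al := by
      intro p
      rw [iteratedFDeriv_succ_apply_left, fderiv_continuousMultilinear_apply_const_apply]
      exact hg.differentiable (by simp) p
    simp_rw [h2] at h1
    exact h1

end IBP

end TP
end TG
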