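import Pool.Agent.TG.TPa

/-!
# Module TP, part b: the kernel and its derivatives
-/

set_option linter.unusedSectionVars false

open MeasureTheory Metric Set TrI
open scoped InnerProductSpace ContDiff Nat

namespace TG
namespace TP

section Bounds

variable {d : ℕ} {A1 A2 A3 : Type} [NormedAddCommGroup A1] [NormedSpace ℝ A1]
  [NormedAddCommGroup A2] [NormedSpace ℝ A2] [NormedAddCommGroup A3] [NormedSpace ℝ A3]

lemma leib (B : A1 →L[ℝ] A2 →L[ℝ] A3) {k : ℕ} {f1 : Sp d → A1} {f2 : Sp d → A2}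
    (h1 : ContDiff ℝ k f1) (h2 : ContDiff ℝ k f2) (p : Sp d) {N1 N2 : ℝ}
    (b1 : ∀ j ≤ k, ‖iteratedFDeriv ℝ j f1 p‖ ≤ N1) (b2 : ∀ j ≤ k, ‖iteratedFDeriv ℝ j f2 p‖ ≤ N2) :
    ∀ j ≤ k, ‖iteratedFDeriv ℝ j (fun q => B (f1 q) (f2 q)) p‖ ≤ 2 ^ k * ‖B‖ * N1 * N2 := by
  intro j hj
  have h01 : 0 ≤ N1 := (norm_nonneg _).trans (b1 0 (Nat.zero_le _))
  have h02 : 0 ≤ N2 := (norm_nonneg _).trans (b2 0 (Nat.zero_le _))
  have h := B.norm_iteratedFDeriv_le_of_bilinear h1 h2 p (n := j) (by exact_mod_cast hj)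
  have h3 : ∑ i ∈ Finset.range (j + 1), (j.choose i : ℝ) * ‖iteratedFDeriv ℝ i f1 p‖ *
      ‖iteratedFDeriv ℝ (j - i) f2 p‖ ≤ ∑ i ∈ Finset.range (j + 1), (j.choose i : ℝ) * N1 * N2 := by
    refine Finset.sum_le_sum fun i hi => ?_
    rw [Finset.mem_range] at hi
    have e1 := b1 i (by omega)
    have e2 := b2 (j - i) (by omega)
    gcongr
  have h4 : ∑ i ∈ Finset.range (j + 1), (j.choose i : ℝ) * N1 * N2 = 2 ^ j * N1 * N2 := by
    rw [← Finset.sum_mul, ← Finset.sum_mul]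
    congr 2
    have := Nat.sum_range_choose j
    exact_mod_cast this
  have h5 : (2 : ℝ) ^ j ≤ 2 ^ k := pow_le_pow_right₀ (by norm_num) hj
  calc _ ≤ _ := h
    _ ≤ ‖B‖ * (2 ^ j * N1 * N2) := by
        rw [← h4]
        gcongr
    _ ≤ ‖B‖ * (2 ^ k * N1 * N2) := by gcongr
    _ = _ := by ring

lemma affb {k : ℕ} {f : Sp d → A1} (hf : ContDiff ℝ k f) (a : ℝ) (b p : Sp d) {j : ℕ}
    (hj : j ≤ k) :
    ‖iteratedFDeriv ℝ j (fun q => f (a • q + b)) p‖ ≤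
      |a| ^ j * ‖iteratedFDeriv ℝ j f (a • p + b)‖ := by
  have hf2 : ContDiff ℝ k (fun q => f (q + b)) := hf.comp (contDiff_id.add contDiff_const)
  have h := (a • ContinuousLinearMap.id ℝ (Sp d)).iteratedFDeriv_comp_right hf2 p (i := j)
    (by exact_mod_cast hj)
  have h1 : (fun q => f (q + b)) ∘ (a • ContinuousLinearMap.id ℝ (Sp d)) =
      fun q => f (a • q + b) := rfl
  rw [h1] at h
  rw [h, iteratedFDeriv_comp_add_right]
  refine (ContinuousMultilinearMap.norm_compContinuousLinearMap_le _ _).trans ?_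
  rw [Finset.prod_const, Finset.card_univ, Fintype.card_fin, mul_comm]
  gcongr
  · rw [norm_smul, Real.norm_eq_abs]
    calc |a| * ‖ContinuousLinearMap.id ℝ (Sp d)‖ ≤ |a| * 1 := by
          gcongr
          exact ContinuousLinearMap.norm_id_le
      _ = |a| := mul_one _
  · rfl

lemma affb' {k : ℕ} {f : Sp d → A1} (hf : ContDiff ℝ k f) {a A0 N : ℝ} (b p : Sp d)
    (ha : |a| ≤ A0) (hA : 1 ≤ A0) (hN : ∀ j ≤ k, ‖iteratedFDeriv ℝ j f (a • p + b)‖ ≤ N) :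
    ∀ j ≤ k, ‖iteratedFDeriv ℝ j (fun q => f (a • q + b)) p‖ ≤ A0 ^ k * N := by
  intro j hj
  have h0 : 0 ≤ N := (norm_nonneg _).trans (hN 0 (Nat.zero_le _))
  calc _ ≤ _ := affb hf a b p hj
    _ ≤ A0 ^ j * N := by
        gcongr
        exact hN j hj
    _ ≤ A0 ^ k * N := by
        gcongr

end Bounds

section Kernel

variable {d : ℕ} {V P G : Type} [NormedAddCommGroup V] [NormedSpace ℝ V]
  [NormedAddCommGroup P] [NormedSpace ℝ P] [NormedAddCommGroup G] [NormedSpace ℝ G]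

/-- the parameter space: t, alpha, beta, kappa, xi, alpha', beta' -/
abbrev ZZ (d : ℕ) : Type := ℝ × ℝ × Sp d × ℝ × Sp d × ℝ × Sp d

/-- the kernel -/
noncomputable def HH (B : V →L[ℝ] P →L[ℝ] G) (S : Sp d → P)
    (g : Sp d → V) (q : Sp d × ZZ d) : G :=
  (q.2.1 * bk d (q.2.2.1 • q.1 + q.2.2.2.1)) •
    B (g (q.2.2.2.2.2.2.1 • q.1 + q.2.2.2.2.2.2.2)) (S (q.2.2.2.2.1 • q.1 + q.2.2.2.2.2.1))

lemma HH_contDiff {k : ℕ} (B : V →L[ℝ] P →L[ℝ] G) {S : Sp d → P} (hS : ContDiff ℝ ∞ S)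
    {g : Sp d → V} (hg : ContDiff ℝ k g) : ContDiff ℝ k (HH B S g) := by
  have hb : ContDiff ℝ k (bk d) := bk_contDiff.of_le (by exact_mod_cast le_top)
  have hP : ContDiff ℝ k S := hS.of_le (by exact_mod_cast le_top)
  have h1 : ContDiff ℝ k (fun q : Sp d × ZZ d => q.2.1 * bk d (q.2.2.1 • q.1 + q.2.2.2.1)) := by
    fun_prop
  have h2 : ContDiff ℝ k (fun q : Sp d × ZZ d =>
      B (g (q.2.2.2.2.2.2.1 • q.1 + q.2.2.2.2.2.2.2))) := by
    fun_prop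
  have h3 : ContDiff ℝ k (fun q : Sp d × ZZ d => S (q.2.2.2.2.1 • q.1 + q.2.2.2.2.2.1)) := by
    fun_prop
  exact h1.smul (h2.clm_apply h3)

lemma bk_bd (d k : ℕ) : ∃ M : ℝ, 0 < M ∧ ∀ j ≤ k, ∀ y, ‖iteratedFDeriv ℝ j (bk d) y‖ ≤ M := by
  have h1 : ∀ j : ℕ, ∃ M : ℝ, ∀ y, ‖iteratedFDeriv ℝ j (bk d) y‖ ≤ M := by
    intro j
    have hc : Continuous (iteratedFDeriv ℝ j (bk d)) :=
      bk_contDiff.continuous_iteratedFDeriv (by exact_mod_cast le_top)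
    have hs : HasCompactSupport (iteratedFDeriv ℝ j (bk d)) := by
      refine HasCompactSupport.iteratedFDeriv ?_ j
      exact (bmp d).hasCompactSupport_normed
    exact hs.exists_bound_of_continuous hc
  choose M hM using h1
  refine ⟨1 + ∑ j ∈ Finset.range (k + 1), |M j|, by positivity, ?_⟩
  intro j hj y
  have h2 : |M j| ≤ ∑ j ∈ Finset.range (k + 1), |M j| :=
    Finset.single_le_sum (f := fun j => |M j|) (fun _ _ => abs_nonneg _)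
      (Finset.mem_range.mpr (by omega))
  have h3 := hM j y
  have h4 := le_abs_self (M j)
  linarith

lemma PP_bd {S : Sp d → P} (hS : ContDiff ℝ ∞ S)
    (k : ℕ) (ρ : ℝ) : ∃ M : ℝ, 0 < M ∧ ∀ j ≤ k, ∀ y, ‖y‖ ≤ ρ →
      ‖iteratedFDeriv ℝ j S y‖ ≤ M := by
  have h1 : ∀ j : ℕ, ∃ M : ℝ, ∀ y ∈ closedBall (0 : Sp d) ρ, ‖iteratedFDeriv ℝ j S y‖ ≤ M := by
    intro j
    have hc : Continuous (iteratedFDeriv ℝ j S) :=
      hS.continuous_iteratedFDeriv (by exact_mod_cast le_top)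
    exact (isCompact_closedBall (0 : Sp d) ρ).exists_bound_of_continuousOn hc.continuousOn
  choose M hM using h1
  refine ⟨1 + ∑ j ∈ Finset.range (k + 1), |M j|, by positivity, ?_⟩
  intro j hj y hy
  have h2 : |M j| ≤ ∑ j ∈ Finset.range (k + 1), |M j| :=
    Finset.single_le_sum (f := fun j => |M j|) (fun _ _ => abs_nonneg _)
      (Finset.mem_range.mpr (by omega))
  have h3 := hM j y (by simpa using hy)
  have h4 := le_abs_self (M j)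
  linarith

/-- bound of the derivatives of the kernel -/
lemma HH_bd (B : V →L[ℝ] P →L[ℝ] G) {S : Sp d → P} (hS : ContDiff ℝ ∞ S)
    (k : ℕ) (A0 ρ tb : ℝ) (hA : 2 ≤ A0) (htb : 0 ≤ tb) : ∃ C : ℝ, 0 < C ∧
      ∀ (g : Sp d → V) (N : ℝ), TFn k N g → ∀ (th : ZZ d) (p : Sp d),
      |th.1| ≤ tb → |th.2.1| ≤ A0 → |th.2.2.2.1| ≤ 2 → |th.2.2.2.2.2.1| ≤ 2 →
      ‖th.2.2.2.1 • p + th.2.2.2.2.1‖ ≤ ρ →
      ∀ j ≤ k, ‖iteratedFDeriv ℝ j (fun q => HH B S g (q, th)) p‖ ≤ C * N := by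
  obtain ⟨Mb, hMb, hb⟩ := bk_bd d k
  obtain ⟨Mp, hMp, hp⟩ := PP_bd hS k ρ
  refine ⟨2 ^ k * ‖(ContinuousLinearMap.lsmul ℝ ℝ : ℝ →L[ℝ] G →L[ℝ] G)‖ *
    (tb * (A0 ^ k * Mb)) * (2 ^ k * ‖B‖ * 2 ^ k * (2 ^ k * Mp)) + 1, by positivity, ?_⟩
  intro g N hg th p h1 h2 h3 h4 h5 j hj
  have hN : 0 ≤ N := (norm_nonneg _).trans (hg.bd 0 (Nat.zero_le _) 0)
  have hbk : ContDiff ℝ k (bk d) := bk_contDiff.of_le (by exact_mod_cast le_top)
  have hPk : ContDiff ℝ k S := hS.of_le (by exact_mod_cast le_top)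
  have haff : ∀ (a : ℝ) (b : Sp d), ContDiff ℝ k (fun q : Sp d => a • q + b) := by
    intro a b; fun_prop
  -- the three factors
  have c1 : ContDiff ℝ k (fun q => bk d (th.2.1 • q + th.2.2.1)) := hbk.comp (haff _ _)
  have b1 : ∀ j ≤ k, ‖iteratedFDeriv ℝ j (fun q => bk d (th.2.1 • q + th.2.2.1)) p‖ ≤
      A0 ^ k * Mb := affb' hbk _ p h2 (by linarith) (fun j hj => hb j hj _)
  have c1' : ContDiff ℝ k (fun q => th.1 * bk d (th.2.1 • q + th.2.2.1)) := by fun_prop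
  have b1' : ∀ j ≤ k, ‖iteratedFDeriv ℝ j (fun q => th.1 * bk d (th.2.1 • q + th.2.2.1)) p‖ ≤
      tb * (A0 ^ k * Mb) := by
    intro j hj
    have e1 := iteratedFDeriv_const_smul_apply (𝕜 := ℝ) (a := th.1)
      ((c1.contDiffAt (x := p)).of_le (m := (j : ℕ)) (by exact_mod_cast hj))
    have e2 : (th.1 • fun q => bk d (th.2.1 • q + th.2.2.1)) =
        fun q => th.1 * bk d (th.2.1 • q + th.2.2.1) := rfl
    rw [e2] at e1
    rw [e1, norm_smul, Real.norm_eq_abs]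
    gcongr
    exact b1 j hj
  have c2 : ContDiff ℝ k (fun q => g (th.2.2.2.2.2.1 • q + th.2.2.2.2.2.2)) :=
    hg.smooth.comp (haff _ _)
  have b2 : ∀ j ≤ k, ‖iteratedFDeriv ℝ j (fun q => g (th.2.2.2.2.2.1 • q + th.2.2.2.2.2.2)) p‖ ≤
      2 ^ k * N := affb' hg.smooth _ p h4 (by norm_num) (fun j hj => hg.bd j hj _)
  have c3 : ContDiff ℝ k (fun q => S (th.2.2.2.1 • q + th.2.2.2.2.1)) := hPk.comp (haff _ _)
  have b3 : ∀ j ≤ k, ‖iteratedFDeriv ℝ j (fun q => S (th.2.2.2.1 • q + th.2.2.2.2.1)) p‖ ≤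
      2 ^ k * Mp := affb' hPk _ p h3 (by norm_num) (fun j hj => hp j hj _ h5)
  have b4 := leib B c2 c3 p b2 b3
  have c4 : ContDiff ℝ k (fun q => B (g (th.2.2.2.2.2.1 • q + th.2.2.2.2.2.2))
      (S (th.2.2.2.1 • q + th.2.2.2.2.1))) :=
    (B.contDiff.comp c2).clm_apply c3
  have b5 := leib (ContinuousLinearMap.lsmul ℝ ℝ : ℝ →L[ℝ] G →L[ℝ] G)
    c1' c4 p b1' b4 j hj
  calc ‖iteratedFDeriv ℝ j (fun q => HH B S g (q, th)) p‖ ≤ _ := b5
    _ = (2 ^ k * ‖(ContinuousLinearMap.lsmul ℝ ℝ : ℝ →L[ℝ] G →L[ℝ] G)‖ *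
      (tb * (A0 ^ k * Mb)) * (2 ^ k * ‖B‖ * 2 ^ k * (2 ^ k * Mp))) * N := by ring
    _ ≤ _ := by nlinarith

end Kernel

end TP
end TG
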