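import Pool.Agent.TG.TPb

/-!
# Module TP, part c: the smoothed kernel, its support and the integral identity
-/

set_option linter.unusedSectionVars false

open MeasureTheory Metric Set TrI
open scoped InnerProductSpace ContDiff Nat

namespace TG
namespace TP

section Fub

lemma swapc {A B : Type} [TopologicalSpace A] [MeasureSpace A] [OpensMeasurableSpace A]
    [SecondCountableTopology A] [T2Space A] [TopologicalSpace B] [MeasureSpace B]
    [OpensMeasurableSpace B] [SecondCountableTopology B] [T2Space B]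
    [SFinite (volume : Measure A)] [SFinite (volume : Measure B)]
    [IsFiniteMeasureOnCompacts (volume : Measure A)]
    [IsFiniteMeasureOnCompacts (volume : Measure B)]
    [IsFiniteMeasureOnCompacts ((volume : Measure A).prod (volume : Measure B))]
    {K1 : Set A} {K2 : Set B} (h1 : IsCompact K1) (h2 : IsCompact K2) {f : A → B → ℝ}
    (hf : Continuous (Function.uncurry f)) :
    ∫ a in K1, ∫ b in K2, f a b = ∫ b in K2, ∫ a in K1, f a b := by
  refine integral_integral_swap ?_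
  rw [Measure.prod_restrict]
  exact hf.continuousOn.integrableOn_compact (h1.prod h2)

variable {d : ℕ}

lemma cov {f : Sp d → ℝ} {a : ℝ} (ha : 0 < a) (b : Sp d) :
    ∫ p, a ^ d * f (a • p + b) = ∫ z, f z := by
  have h1 := Measure.integral_comp_smul (volume : Measure (Sp d)) (fun q => f (q + b)) a
  rw [integral_add_right_eq_self (fun q => f q) b, finrank_euclideanSpace, Fintype.card_fin] at h1
  rw [integral_const_mul, h1, smul_eq_mul, abs_of_pos (by positivity), ← mul_assoc,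
    mul_inv_cancel₀ (by positivity), one_mul]

end Fub

/-! ## parameters -/

section Par

variable {d : ℕ}

noncomputable def m1 (s : ℝ) : ℝ := max (1 - s) (1 / 2)
noncomputable def m2 (s : ℝ) : ℝ := max s (1 / 2)

lemma m1_pos (s : ℝ) : 0 < m1 s := lt_of_lt_of_le (by norm_num) (le_max_right _ _)
lemma m2_pos (s : ℝ) : 0 < m2 s := lt_of_lt_of_le (by norm_num) (le_max_right _ _)
lemma m1_eq {s : ℝ} (h : s ≤ 1 / 2) : m1 s = 1 - s := max_eq_left (by linarith)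
lemma m2_eq {s : ℝ} (h : 1 / 2 ≤ s) : m2 s = s := max_eq_left h
lemma m1_inv (s : ℝ) : (m1 s)⁻¹ ≤ 2 := by
  have h : (1 / 2 : ℝ) ≤ m1 s := le_max_right _ _
  calc (m1 s)⁻¹ ≤ (1 / 2 : ℝ)⁻¹ := inv_anti₀ (by norm_num) h
    _ = 2 := by norm_num
lemma m2_inv (s : ℝ) : (m2 s)⁻¹ ≤ 2 := by
  have h : (1 / 2 : ℝ) ≤ m2 s := le_max_right _ _
  calc (m2 s)⁻¹ ≤ (1 / 2 : ℝ)⁻¹ := inv_anti₀ (by norm_num) h
    _ = 2 := by norm_num

noncomputable def th1 (n : ℕ) (c : Sp d) (r : ℝ) (a : Sp d × ℝ) : ZZ d :=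
  ((n ! : ℝ)⁻¹ * (1 - a.2) ^ n * ((m1 a.2 * r)⁻¹) ^ d, (m1 a.2 * r)⁻¹,
   -((m1 a.2 * r)⁻¹ • (a.2 • a.1 + (1 - a.2) • c)), -(m1 a.2)⁻¹, (m1 a.2)⁻¹ • a.1, 0, a.1)

noncomputable def th2 (n : ℕ) (c : Sp d) (r : ℝ) (a : Sp d × ℝ) : ZZ d :=
  ((n ! : ℝ)⁻¹ * (1 - a.2) ^ n * ((m2 a.2)⁻¹) ^ d, 0, a.1, (m2 a.2)⁻¹,
   -((m2 a.2)⁻¹ • (c + r • a.1)), (m2 a.2)⁻¹, -(((1 - a.2) * (m2 a.2)⁻¹) • (c + r • a.1)))

lemma m1_cont : Continuous m1 := by unfold m1; fun_prop
lemma m2_cont : Continuous m2 := by unfold m2; fun_prop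

lemma th1_cont (n : ℕ) (c : Sp d) {r : ℝ} (hr : 0 < r) : Continuous (th1 n c r) := by
  have h1 : Continuous (fun a : Sp d × ℝ => (m1 a.2 * r)⁻¹) := by
    refine Continuous.inv₀ ((m1_cont.comp continuous_snd).mul continuous_const) fun a => ?_
    exact (mul_pos (m1_pos _) hr).ne'
  have h2 : Continuous (fun a : Sp d × ℝ => (m1 a.2)⁻¹) :=
    (m1_cont.comp continuous_snd).inv₀ fun a => (m1_pos _).ne'
  unfold th1
  fun_prop

lemma th2_cont (n : ℕ) (c : Sp d) (r : ℝ) : Continuous (th2 n c r) := by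
  have h2 : Continuous (fun a : Sp d × ℝ => (m2 a.2)⁻¹) :=
    (m2_cont.comp continuous_snd).inv₀ fun a => (m2_pos _).ne'
  unfold th2
  fun_prop

/-- the support set -/
def SS {V : Type} [Zero V] (g : Sp d → V) (c : Sp d) (r : ℝ) : Set (Sp d) :=
  (fun q : ℝ × Sp d × Sp d => (1 - q.1) • q.2.1 + q.1 • q.2.2) ''
    (Icc (0 : ℝ) 1 ×ˢ (closedBall c r ×ˢ tsupport g))

variable {V : Type} [NormedAddCommGroup V] [NormedSpace ℝ V]

lemma SS_compact {g : Sp d → V} (hg : HasCompactSupport g) (c : Sp d) (r : ℝ) :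
    IsCompact (SS g c r) := by
  refine IsCompact.image ?_ (by fun_prop)
  exact isCompact_Icc.prod ((isCompact_closedBall c r).prod hg)

lemma SS_hull (g : Sp d → V) (c : Sp d) (r : ℝ) :
    SS g c r ⊆ convexHull ℝ (tsupport g ∪ closedBall c r) := by
  rintro _ ⟨⟨s, y, x⟩, ⟨⟨h0, h1⟩, hy, hx⟩, rfl⟩
  have hy' : y ∈ convexHull ℝ (tsupport g ∪ closedBall c r) :=
    subset_convexHull ℝ _ (Or.inr hy)
  have hx' : x ∈ convexHull ℝ (tsupport g ∪ closedBall c r) :=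
    subset_convexHull ℝ _ (Or.inl hx)
  exact convex_convexHull ℝ _ hy' hx' (sub_nonneg.mpr h1) h0 (by ring)

lemma SS_ball {g : Sp d → V} {R : ℝ} (hgR : ∀ y, R ≤ ‖y‖ → g y = 0) {c : Sp d} {r : ℝ}
    (hc : ‖c‖ ≤ R) (hr : r ≤ R) : SS g c r ⊆ closedBall 0 (2 * R) := by
  have hR : 0 ≤ R := (norm_nonneg _).trans hc
  have hts : tsupport g ⊆ closedBall 0 R := by
    refine closure_minimal (fun y hy => ?_) isClosed_closedBall
    rw [Function.mem_support] at hy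
    rw [mem_closedBall, dist_zero_right]
    by_contra h
    push Not at h
    exact hy (hgR y h.le)
  rintro _ ⟨⟨s, y, x⟩, ⟨⟨h0, h1⟩, hy, hx⟩, rfl⟩
  have hx' := hts hx
  simp only [mem_closedBall, dist_zero_right] at hx' ⊢
  rw [mem_closedBall, dist_eq_norm] at hy
  have hy2 : ‖y‖ ≤ 2 * R := by
    calc ‖y‖ = ‖(y - c) + c‖ := by rw [sub_add_cancel]
      _ ≤ ‖y - c‖ + ‖c‖ := norm_add_le _ _
      _ ≤ 2 * R := by linarith
  calc ‖(1 - s) • y + s • x‖ ≤ ‖(1 - s) • y‖ + ‖s • x‖ := norm_add_le _ _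
    _ = (1 - s) * ‖y‖ + s * ‖x‖ := by
        rw [norm_smul, norm_smul, Real.norm_of_nonneg (sub_nonneg.mpr h1), Real.norm_of_nonneg h0]
    _ ≤ (1 - s) * (2 * R) + s * (2 * R) := by
        have : ‖x‖ ≤ 2 * R := by linarith
        have : 0 ≤ 1 - s := sub_nonneg.mpr h1
        simp only at h0
        gcongr
    _ = 2 * R := by ring

variable {P G : Type}
  [NormedAddCommGroup P] [NormedSpace ℝ P] [NormedAddCommGroup G] [NormedSpace ℝ G]

lemma HH_ne {B : V →L[ℝ] P →L[ℝ] G} {S : Sp d → P} {g : Sp d → V} {p : Sp d} {th : ZZ d}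
    (h : HH B S g (p, th) ≠ 0) : ‖th.2.1 • p + th.2.2.1‖ < 1 ∧
      th.2.2.2.2.2.1 • p + th.2.2.2.2.2.2 ∈ tsupport g := by
  unfold HH at h
  constructor
  · by_contra h1
    push Not at h1
    apply h
    simp only
    rw [bk_zero h1, mul_zero, zero_smul]
  · refine subset_closure fun h1 => h ?_
    simp only
    rw [h1, map_zero, zero_apply, smul_zero]

lemma supp1 {B : V →L[ℝ] P →L[ℝ] G} {S : Sp d → P} {g : Sp d → V} {p : Sp d} {n : ℕ} {c : Sp d}
    {r : ℝ} (hr : 0 < r) {x : Sp d} {s : ℝ} (hs : s ∈ Icc (0 : ℝ) (1 / 2))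
    (h : HH B S g (p, th1 n c r (x, s)) ≠ 0) : p ∈ SS g c r := by
  obtain ⟨h1, h2⟩ := HH_ne h
  simp only [th1] at h1 h2
  rw [zero_smul, zero_add] at h2
  rw [m1_eq hs.2] at h1
  have h0 : 0 < 1 - s := by linarith [hs.2]
  set z : Sp d := ((1 - s) * r)⁻¹ • p + -(((1 - s) * r)⁻¹ • (s • x + (1 - s) • c)) with hz
  refine ⟨(s, c + r • z, x), ⟨⟨hs.1, by linarith [hs.2]⟩, ?_, h2⟩, ?_⟩
  · rw [mem_closedBall, dist_eq_norm, add_sub_cancel_left, norm_smul, Real.norm_of_nonneg hr.le]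
    nlinarith [norm_nonneg z]
  · show (1 - s) • (c + r • z) + s • x = p
    have e : ((1 - s) * r) • z = p - (s • x + (1 - s) • c) := by
      rw [hz, smul_add, smul_neg, smul_smul, smul_smul, mul_inv_cancel₀ (by positivity), one_smul,
        one_smul]
      abel
    rw [smul_add, smul_smul, e]
    abel

lemma supp2 {B : V →L[ℝ] P →L[ℝ] G} {S : Sp d → P} {g : Sp d → V} {p : Sp d} {n : ℕ} {c : Sp d}
    {r : ℝ} (hr : 0 < r) {z : Sp d} {s : ℝ} (hs : s ∈ Icc (1 / 2 : ℝ) 1)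
    (h : HH B S g (p, th2 n c r (z, s)) ≠ 0) : p ∈ SS g c r := by
  obtain ⟨h1, h2⟩ := HH_ne h
  simp only [th2] at h1 h2
  rw [zero_smul, zero_add] at h1
  rw [m2_eq hs.1] at h2
  have h0 : 0 < s := by linarith [hs.1]
  refine ⟨(s, c + r • z, _), ⟨⟨h0.le, hs.2⟩, ?_, h2⟩, ?_⟩
  · rw [mem_closedBall, dist_eq_norm, add_sub_cancel_left, norm_smul, Real.norm_of_nonneg hr.le]
    nlinarith [norm_nonneg z]
  · show (1 - s) • (c + r • z) + s • (s⁻¹ • p + -(((1 - s) * s⁻¹) • (c + r • z))) = p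
    rw [smul_add s, smul_smul s, mul_inv_cancel₀ h0.ne', one_smul, smul_neg, smul_smul s]
    have : s * ((1 - s) * s⁻¹) = 1 - s := by field_simp
    rw [this]
    abel

/-! ## the change of variables -/

variable {E : Type} [NormedAddCommGroup E] [NormedSpace ℝ E]

/-- the integrand of the Taylor remainder -/
noncomputable def Gt (n : ℕ) (c : Sp d) (r : ℝ) (ev : G →L[ℝ] E →L[ℝ] ℝ) (B : V →L[ℝ] P →L[ℝ] G)
    (S : Sp d → P) (g : Sp d → V) (h : Sp d → E) (x z : Sp d) (s : ℝ) : ℝ :=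
  bk d z * ((n ! : ℝ)⁻¹ * (1 - s) ^ n) *
    ev (B (g x) (S (x - (c + r • z)))) (h ((1 - s) • (c + r • z) + s • x))

lemma id1 (n : ℕ) (c : Sp d) {r : ℝ} (hr : 0 < r) (ev : G →L[ℝ] E →L[ℝ] ℝ)
    (B : V →L[ℝ] P →L[ℝ] G) (S : Sp d → P) (g : Sp d → V) (h : Sp d → E) (x : Sp d) {s : ℝ}
    (hs : s ∈ Icc (0 : ℝ) (1 / 2)) :
    ∫ z, Gt n c r ev B S g h x z s = ∫ p, ev (HH B S g (p, th1 n c r (x, s))) (h p) := by
  have h0 : 0 < 1 - s := by linarith [hs.2]
  have ha : 0 < ((1 - s) * r)⁻¹ := by positivity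
  rw [← cov ha (-(((1 - s) * r)⁻¹ • (s • x + (1 - s) • c)))]
  refine integral_congr_ae (Filter.Eventually.of_forall fun p => ?_)
  simp only [HH, th1, m1_eq hs.2, Gt]
  set z : Sp d := ((1 - s) * r)⁻¹ • p + -(((1 - s) * r)⁻¹ • (s • x + (1 - s) • c)) with hz
  have e : ((1 - s) * r) • z = p - (s • x + (1 - s) • c) := by
    rw [hz, smul_add, smul_neg, smul_smul, smul_smul, mul_inv_cancel₀ (by positivity), one_smul,
      one_smul]
    abel
  have e1 : (1 - s) • (c + r • z) + s • x = p := by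
    rw [smul_add, smul_smul, e]
    abel
  have e2 : x - (c + r • z) = -(1 - s)⁻¹ • p + (1 - s)⁻¹ • x := by
    have e3 : c + r • z = (1 - s)⁻¹ • (p - s • x) := by
      rw [← e1, add_sub_cancel_right, smul_smul, inv_mul_cancel₀ h0.ne', one_smul]
    rw [e3, smul_sub, smul_smul, neg_smul]
    have e4 : x = (1 - s)⁻¹ • x - ((1 - s)⁻¹ * s) • x := by
      rw [← sub_smul]
      have : (1 - s)⁻¹ - (1 - s)⁻¹ * s = 1 := by field_simp
      rw [this, one_smul]
    nth_rewrite 1 [e4]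
    abel
  rw [e1, e2, zero_smul, zero_add, map_smul, smul_apply, smul_eq_mul]
  ring

lemma id2 (n : ℕ) (c : Sp d) {r : ℝ} (ev : G →L[ℝ] E →L[ℝ] ℝ)
    (B : V →L[ℝ] P →L[ℝ] G) (S : Sp d → P) (g : Sp d → V) (h : Sp d → E) (z : Sp d) {s : ℝ}
    (hs : s ∈ Icc (1 / 2 : ℝ) 1) :
    ∫ x, Gt n c r ev B S g h x z s = ∫ p, ev (HH B S g (p, th2 n c r (z, s))) (h p) := by
  have h0 : 0 < s := by linarith [hs.1]
  have ha : 0 < s⁻¹ := by positivity
  rw [← cov ha (-(((1 - s) * s⁻¹) • (c + r • z)))]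
  refine integral_congr_ae (Filter.Eventually.of_forall fun p => ?_)
  simp only [HH, th2, m2_eq hs.1, Gt]
  set x : Sp d := s⁻¹ • p + -(((1 - s) * s⁻¹) • (c + r • z)) with hx
  have e1 : (1 - s) • (c + r • z) + s • x = p := by
    rw [hx, smul_add s, smul_smul s, mul_inv_cancel₀ h0.ne', one_smul, smul_neg, smul_smul s]
    have : s * ((1 - s) * s⁻¹) = 1 - s := by field_simp
    rw [this]
    abel
  have e2 : x - (c + r • z) = s⁻¹ • p + -(s⁻¹ • (c + r • z)) := by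
    rw [hx]
    have e4 : s⁻¹ • (c + r • z) = ((1 - s) * s⁻¹) • (c + r • z) + (c + r • z) := by
      nth_rewrite 3 [← one_smul ℝ (c + r • z)]
      rw [← add_smul]
      congr 1
      field_simp
      ring
    rw [e4]
    abel
  rw [e1, e2, zero_smul, zero_add, map_smul, smul_apply, smul_eq_mul]
  ring

end Par

end TP
end TG
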