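import Pool.Agent.TG.TPc

/-!
# Module TP, part d: Fubini, the smoothed kernel
-/

set_option linter.unusedSectionVars false

open MeasureTheory Metric Set TrI
open scoped InnerProductSpace ContDiff Nat

namespace TG
namespace TP

variable {d : ℕ} {V P G E : Type} [NormedAddCommGroup V] [NormedSpace ℝ V]
  [NormedAddCommGroup P] [NormedSpace ℝ P] [NormedAddCommGroup G] [NormedSpace ℝ G]
  [CompleteSpace G] [NormedAddCommGroup E] [NormedSpace ℝ E]

/-- the smoothed kernel -/
noncomputable def Lm (B : V →L[ℝ] P →L[ℝ] G) (S : Sp d → P) (g : Sp d → V)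
    (th : Sp d × ℝ → ZZ d) (Ka : Set (Sp d)) (I : Set ℝ) (p : Sp d) : G :=
  ∫ a in Ka ×ˢ I, HH B S g (p, th a)

lemma HH_cont (B : V →L[ℝ] P →L[ℝ] G) {S : Sp d → P} (hS : Continuous S) {g : Sp d → V}
    (hg : Continuous g) : Continuous (HH B S g) := by
  have hb : Continuous (bk d) := bk_cont
  unfold HH
  have h2 : Continuous (fun q : Sp d × ZZ d =>
      B (g (q.2.2.2.2.2.2.1 • q.1 + q.2.2.2.2.2.2.2))) := by
    fun_prop
  have h3 : Continuous (fun q : Sp d × ZZ d => S (q.2.2.2.2.1 • q.1 + q.2.2.2.2.2.1)) := by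
    fun_prop
  have h4 := h2.clm_apply h3
  fun_prop

lemma chain (ev : G →L[ℝ] E →L[ℝ] ℝ) (B : V →L[ℝ] P →L[ℝ] G) {S : Sp d → P} (hS : Continuous S)
    {g : Sp d → V} (hg : Continuous g) {h : Sp d → E} (hh : Continuous h)
    {th : Sp d × ℝ → ZZ d} (hth : Continuous th) {Ka : Set (Sp d)} {I : Set ℝ}
    (hK : IsCompact Ka) (hI : IsCompact I) {R2 : ℝ}
    (hsupp : ∀ a1 ∈ Ka, ∀ s ∈ I, ∀ p, HH B S g (p, th (a1, s)) ≠ 0 → p ∈ closedBall 0 R2) :
    ∫ a1 in Ka, ∫ s in I, ∫ p, ev (HH B S g (p, th (a1, s))) (h p) =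
      ∫ p, ev (Lm B S g th Ka I p) (h p) := by
  have hHc := HH_cont B hS hg
  have hM : Continuous (Function.uncurry fun (a : Sp d × ℝ) (p : Sp d) =>
      ev (HH B S g (p, th a)) (h p)) := by
    have h1 : Continuous fun q : (Sp d × ℝ) × Sp d => ev (HH B S g (q.2, th q.1)) := by
      fun_prop
    have h2 : Continuous fun q : (Sp d × ℝ) × Sp d => h q.2 := by fun_prop
    exact h1.clm_apply h2
  have hKI : IsCompact (Ka ×ˢ I) := hK.prod hI
  -- step 1
  have s1 : ∫ a1 in Ka, ∫ s in I, ∫ p, ev (HH B S g (p, th (a1, s))) (h p) =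
      ∫ a1 in Ka, ∫ s in I, ∫ p in closedBall 0 R2, ev (HH B S g (p, th (a1, s))) (h p) := by
    refine setIntegral_congr_fun hK.measurableSet fun a1 ha1 => ?_
    refine setIntegral_congr_fun hI.measurableSet fun s hs => ?_
    refine (setIntegral_eq_integral_of_forall_compl_eq_zero fun p hp => ?_).symm
    by_contra h0
    apply hp
    refine hsupp a1 ha1 s hs p fun h1 => h0 ?_
    rw [h1, map_zero, zero_apply]
  -- step 2
  have hF : Continuous fun a : Sp d × ℝ =>
      ∫ p in closedBall 0 R2, ev (HH B S g (p, th a)) (h p) :=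
    continuous_parametric_integral_of_continuous hM (isCompact_closedBall _ _)
  have s2 : ∫ a1 in Ka, ∫ s in I, ∫ p in closedBall 0 R2, ev (HH B S g (p, th (a1, s))) (h p) =
      ∫ a in Ka ×ˢ I, ∫ p in closedBall 0 R2, ev (HH B S g (p, th a)) (h p) := by
    refine (setIntegral_prod (μ := (volume : Measure (Sp d))) (ν := (volume : Measure ℝ))
      (fun a => ∫ p in closedBall 0 R2, ev (HH B S g (p, th a)) (h p)) ?_).symm
    exact hF.continuousOn.integrableOn_compact hKI
  -- step 3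
  have s3 : ∫ a in Ka ×ˢ I, ∫ p in closedBall 0 R2, ev (HH B S g (p, th a)) (h p) =
      ∫ p in closedBall 0 R2, ∫ a in Ka ×ˢ I, ev (HH B S g (p, th a)) (h p) :=
    swapc hKI (isCompact_closedBall _ _) hM
  -- step 4
  have s4 : ∀ p, ∫ a in Ka ×ˢ I, ev (HH B S g (p, th a)) (h p) = ev (Lm B S g th Ka I p) (h p) := by
    intro p
    have h0 : Integrable (fun a => HH B S g (p, th a)) (volume.restrict (Ka ×ˢ I)) := by
      refine ContinuousOn.integrableOn_compact hKI (Continuous.continuousOn ?_)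
      fun_prop
    exact (ev.flip (h p)).integral_comp_comm h0
  -- step 5
  rw [s1, s2, s3]
  simp_rw [s4]
  refine setIntegral_eq_integral_of_forall_compl_eq_zero fun p hp => ?_
  have h0 : Lm B S g th Ka I p = 0 := by
    unfold Lm
    refine setIntegral_eq_zero_of_forall_eq_zero fun a ha => ?_
    by_contra h1
    exact hp (hsupp a.1 ha.1 a.2 ha.2 p h1)
  rw [h0, map_zero, zero_apply]

lemma Lm_zero (B : V →L[ℝ] P →L[ℝ] G) {S : Sp d → P}
    {g : Sp d → V} {th : Sp d × ℝ → ZZ d} {Ka : Set (Sp d)} {I : Set ℝ} {K : Set (Sp d)}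
    (hsupp : ∀ a1 ∈ Ka, ∀ s ∈ I, ∀ p, HH B S g (p, th (a1, s)) ≠ 0 → p ∈ K) {p : Sp d}
    (hp : p ∉ K) : Lm B S g th Ka I p = 0 := by
  unfold Lm
  refine setIntegral_eq_zero_of_forall_eq_zero fun a ha => ?_
  by_contra h1
  exact hp (hsupp a.1 ha.1 a.2 ha.2 p h1)

lemma Lm_props (B : V →L[ℝ] P →L[ℝ] G) {S : Sp d → P} (hS : ContDiff ℝ ∞ S) {k : ℕ}
    {g : Sp d → V} (hg : ContDiff ℝ k g)
    {th : Sp d × ℝ → ZZ d} (hth : Continuous th) {Ka : Set (Sp d)} {I : Set ℝ}
    (hK : IsCompact Ka) (hI : IsCompact I) {K : Set (Sp d)} (hKc : IsClosed K)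
    (hsupp : ∀ a1 ∈ Ka, ∀ s ∈ I, ∀ p, HH B S g (p, th (a1, s)) ≠ 0 → p ∈ K) {C : ℝ}
    (hC : ∀ p ∈ K, ∀ a1 ∈ Ka, ∀ s ∈ I, ∀ j ≤ k,
      ‖iteratedFDeriv ℝ j (fun q => HH B S g (q, th (a1, s))) p‖ ≤ C) (hC0 : 0 ≤ C) :
    ContDiff ℝ k (Lm B S g th Ka I) ∧
    ∀ j ≤ k, ∀ p, ‖iteratedFDeriv ℝ j (Lm B S g th Ka I) p‖ ≤
      C * (volume : Measure (Sp d × ℝ)).real (Ka ×ˢ I) := by
  have hKI : IsCompact (Ka ×ˢ I) := hK.prod hI
  have hfin : volume (Ka ×ˢ I) < ⊤ := hKI.measure_lt_top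
  have : IsFiniteMeasure ((volume : Measure (Sp d × ℝ)).restrict (Ka ×ˢ I)) :=
    ⟨by rw [Measure.restrict_apply_univ]; exact hfin⟩
  obtain ⟨M, hM⟩ := hKI.exists_bound_of_continuousOn hth.continuousOn
  obtain ⟨h1, h2⟩ := param ((volume : Measure (Sp d × ℝ)).restrict (Ka ×ˢ I)) th
    hth.aestronglyMeasurable M (by
      rw [ae_restrict_iff' hKI.measurableSet]
      exact Filter.Eventually.of_forall fun a ha => hM a ha) k G (HH B S g) (HH_contDiff B hS hg)
  refine ⟨h1, ?_⟩
  intro j hj p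
  by_cases hp : p ∈ K
  · have h3 := h2 j hj p
    change iteratedFDeriv ℝ j (Lm B S g th Ka I) p = _ at h3
    rw [h3]
    exact norm_setIntegral_le_of_norm_le_const hfin
      (fun a ha => hC p hp a.1 ha.1 a.2 ha.2 j hj)
  · have h3 : Lm B S g th Ka I =ᶠ[nhds p] fun _ => 0 := by
      filter_upwards [hKc.isOpen_compl.mem_nhds hp] with q hq
      exact Lm_zero B hsupp hq
    have h5 : iteratedFDeriv ℝ j (Lm B S g th Ka I) p = iteratedFDeriv ℝ j (fun _ => (0 : G)) p := by
      rw [← iteratedFDerivWithin_univ, ← iteratedFDerivWithin_univ]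
      refine Filter.EventuallyEq.iteratedFDerivWithin_eq ?_ h3.self_of_nhds j
      rwa [nhdsWithin_univ]
    rw [h5]
    have h4 : iteratedFDeriv ℝ j (fun _ : Sp d => (0 : G)) p = 0 := by
      have := iteratedFDeriv_fun_zero (𝕜 := ℝ) (n := j) (E := Sp d) (F := G)
      exact congrFun this p
    rw [h4, norm_zero]
    positivity

/-! ## the triple integral -/

lemma Gt_cont (n : ℕ) (c : Sp d) (r : ℝ) (ev : G →L[ℝ] E →L[ℝ] ℝ) (B : V →L[ℝ] P →L[ℝ] G)
    {S : Sp d → P} (hS : Continuous S) {g : Sp d → V} (hg : Continuous g) {h : Sp d → E}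
    (hh : Continuous h) :
    Continuous fun q : Sp d × Sp d × ℝ => Gt n c r ev B S g h q.1 q.2.1 q.2.2 := by
  have hb : Continuous (bk d) := bk_cont
  unfold Gt
  have h1 : Continuous fun q : Sp d × Sp d × ℝ =>
      ev (B (g q.1) (S (q.1 - (c + r • q.2.1)))) := by
    have h2 : Continuous fun q : Sp d × Sp d × ℝ => B (g q.1) := by fun_prop
    have h3 : Continuous fun q : Sp d × Sp d × ℝ => S (q.1 - (c + r • q.2.1)) := by fun_prop
    exact ev.continuous.comp (h2.clm_apply h3)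
  have h4 : Continuous fun q : Sp d × Sp d × ℝ =>
      h ((1 - q.2.2) • (c + r • q.2.1) + q.2.2 • q.1) := by fun_prop
  have h5 := h1.clm_apply h4
  fun_prop

lemma split_Icc {f : ℝ → ℝ} (hf : Continuous f) :
    ∫ s in Icc (0 : ℝ) 1, f s = (∫ s in Icc (0 : ℝ) (1 / 2), f s) + ∫ s in Icc (1 / 2 : ℝ) 1, f s := by
  simp only [integral_Icc_eq_integral_Ioc]
  rw [← intervalIntegral.integral_of_le (by norm_num), ← intervalIntegral.integral_of_le (by norm_num),
    ← intervalIntegral.integral_of_le (by norm_num)]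
  exact (intervalIntegral.integral_add_adjacent_intervals (hf.intervalIntegrable _ _)
    (hf.intervalIntegrable _ _)).symm

lemma triple (n : ℕ) {c : Sp d} {r R : ℝ} (hr : 0 < r) (hc : ‖c‖ ≤ R) (hrR : r ≤ R)
    (ev : G →L[ℝ] E →L[ℝ] ℝ) (B : V →L[ℝ] P →L[ℝ] G)
    {S : Sp d → P} (hS : Continuous S) {g : Sp d → V} (hg : Continuous g)
    (hgR : ∀ y, R ≤ ‖y‖ → g y = 0) {h : Sp d → E} (hh : Continuous h) :
    ∫ x in closedBall (0 : Sp d) R, ∫ z in closedBall (0 : Sp d) 1, ∫ s in Icc (0 : ℝ) 1,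
      Gt n c r ev B S g h x z s =
    (∫ p, ev (Lm B S g (th1 n c r) (closedBall 0 R) (Icc 0 (1 / 2)) p) (h p)) +
    ∫ p, ev (Lm B S g (th2 n c r) (closedBall 0 1) (Icc (1 / 2) 1) p) (h p) := by
  have hG := Gt_cont n c r ev B hS hg hh
  have hGz : ∀ x, Continuous fun q : Sp d × ℝ => Gt n c r ev B S g h x q.1 q.2 := fun x =>
    hG.comp (Continuous.prodMk_right x)
  have hGs : ∀ x z, Continuous fun s : ℝ => Gt n c r ev B S g h x z s := fun x z =>
    (hGz x).comp (Continuous.prodMk_right z)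
  -- inner integrals are continuous
  have hI : ∀ I : Set ℝ, IsCompact I → Continuous fun q : Sp d × Sp d =>
      ∫ s in I, Gt n c r ev B S g h q.1 q.2 s := by
    intro I hI
    refine continuous_parametric_integral_of_continuous (X := Sp d × Sp d)
      (f := fun q s => Gt n c r ev B S g h q.1 q.2 s) ?_ hI
    exact hG.comp (f := fun q : (Sp d × Sp d) × ℝ => (q.1.1, q.1.2, q.2)) (by fun_prop)
  have hIz : ∀ I : Set ℝ, IsCompact I → ∀ x, Continuous fun z : Sp d =>
      ∫ s in I, Gt n c r ev B S g h x z s := fun I hc x =>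
    (hI I hc).comp (Continuous.prodMk_right x)
  have hJ : ∀ I : Set ℝ, IsCompact I → Continuous fun x : Sp d =>
      ∫ z in closedBall (0 : Sp d) 1, ∫ s in I, Gt n c r ev B S g h x z s := by
    intro I hI'
    exact continuous_parametric_integral_of_continuous (X := Sp d)
      (f := fun x z => ∫ s in I, Gt n c r ev B S g h x z s) (hI I hI') (isCompact_closedBall _ _)
  -- split
  have e1 : ∫ x in closedBall (0 : Sp d) R, ∫ z in closedBall (0 : Sp d) 1, ∫ s in Icc (0 : ℝ) 1,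
      Gt n c r ev B S g h x z s =
      (∫ x in closedBall (0 : Sp d) R, ∫ z in closedBall (0 : Sp d) 1,
        ∫ s in Icc (0 : ℝ) (1 / 2), Gt n c r ev B S g h x z s) +
      ∫ x in closedBall (0 : Sp d) R, ∫ z in closedBall (0 : Sp d) 1,
        ∫ s in Icc (1 / 2 : ℝ) 1, Gt n c r ev B S g h x z s := by
    rw [← integral_add]
    · refine integral_congr_ae (Filter.Eventually.of_forall fun x => ?_)
      show _ = (∫ z in closedBall (0 : Sp d) 1, ∫ s in Icc (0 : ℝ) (1 / 2),
        Gt n c r ev B S g h x z s) + ∫ z in closedBall (0 : Sp d) 1, ∫ s in Icc (1 / 2 : ℝ) 1,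
        Gt n c r ev B S g h x z s
      rw [← integral_add]
      · refine integral_congr_ae (Filter.Eventually.of_forall fun z => ?_)
        exact split_Icc (hGs x z)
      · exact (hIz _ isCompact_Icc x).continuousOn.integrableOn_compact (isCompact_closedBall _ _)
      · exact (hIz _ isCompact_Icc x).continuousOn.integrableOn_compact (isCompact_closedBall _ _)
    · exact (hJ _ isCompact_Icc).continuousOn.integrableOn_compact (isCompact_closedBall _ _)
    · exact (hJ _ isCompact_Icc).continuousOn.integrableOn_compact (isCompact_closedBall _ _)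
  -- vanishing
  have v1 : ∀ x z s, z ∉ closedBall (0 : Sp d) 1 → Gt n c r ev B S g h x z s = 0 := by
    intro x z s hz
    rw [mem_closedBall, dist_zero_right, not_le] at hz
    unfold Gt
    rw [bk_zero hz.le, zero_mul, zero_mul]
  have v2 : ∀ x z s, x ∉ closedBall (0 : Sp d) R → Gt n c r ev B S g h x z s = 0 := by
    intro x z s hx
    rw [mem_closedBall, dist_zero_right, not_le] at hx
    unfold Gt
    rw [hgR x hx.le, map_zero, zero_apply, map_zero, zero_apply, mul_zero]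
  -- part 1
  have p1 : ∫ x in closedBall (0 : Sp d) R, ∫ z in closedBall (0 : Sp d) 1,
        ∫ s in Icc (0 : ℝ) (1 / 2), Gt n c r ev B S g h x z s =
      ∫ p, ev (Lm B S g (th1 n c r) (closedBall 0 R) (Icc 0 (1 / 2)) p) (h p) := by
    rw [← chain ev B hS hg hh (th1_cont n c hr) (isCompact_closedBall _ _) isCompact_Icc
      (R2 := 2 * R) (fun x hx s hs p hp => SS_ball hgR hc hrR (supp1 hr hs hp))]
    refine integral_congr_ae (Filter.Eventually.of_forall fun x => ?_)
    show ∫ z in closedBall (0 : Sp d) 1, ∫ s in Icc (0 : ℝ) (1 / 2), Gt n c r ev B S g h x z s = _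
    rw [swapc (isCompact_closedBall _ _) isCompact_Icc (hGz x)]
    refine setIntegral_congr_fun measurableSet_Icc fun s hs => ?_
    show ∫ z in closedBall (0 : Sp d) 1, Gt n c r ev B S g h x z s = _
    rw [setIntegral_eq_integral_of_forall_compl_eq_zero (fun z hz => v1 x z s hz)]
    exact id1 n c hr ev B S g h x hs
  -- part 2
  have p2 : ∫ x in closedBall (0 : Sp d) R, ∫ z in closedBall (0 : Sp d) 1,
        ∫ s in Icc (1 / 2 : ℝ) 1, Gt n c r ev B S g h x z s =
      ∫ p, ev (Lm B S g (th2 n c r) (closedBall 0 1) (Icc (1 / 2) 1) p) (h p) := by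
    rw [← chain ev B hS hg hh (th2_cont n c r) (isCompact_closedBall _ _) isCompact_Icc
      (R2 := 2 * R) (fun x hx s hs p hp => SS_ball hgR hc hrR (supp2 hr hs hp))]
    rw [swapc (isCompact_closedBall _ _) (isCompact_closedBall _ _) (hI _ isCompact_Icc)]
    refine integral_congr_ae (Filter.Eventually.of_forall fun z => ?_)
    show ∫ x in closedBall (0 : Sp d) R, ∫ s in Icc (1 / 2 : ℝ) 1, Gt n c r ev B S g h x z s = _
    have hxs : Continuous (Function.uncurry fun (x : Sp d) (s : ℝ) =>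
        Gt n c r ev B S g h x z s) :=
      hG.comp (f := fun q : Sp d × ℝ => (q.1, z, q.2)) (by fun_prop)
    rw [swapc (isCompact_closedBall _ _) isCompact_Icc hxs]
    refine setIntegral_congr_fun measurableSet_Icc fun s hs => ?_
    show ∫ x in closedBall (0 : Sp d) R, Gt n c r ev B S g h x z s = _
    rw [setIntegral_eq_integral_of_forall_compl_eq_zero (fun x hx => v2 x z s hx)]
    exact id2 n c ev B S g h z hs
  rw [e1, p1, p2]

end TP
end TG
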