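import Pool.Agent.TG.GI

/-!
# MODULE TT, part 1: interpolation in the slab (helper37)
-/

open MeasureTheory Metric Set Filter Topology TrI
open scoped InnerProductSpace ContDiff

set_option linter.unusedSectionVars false

namespace TG

noncomputable section

variable {d : ℕ} {G : Type*} [NormedAddCommGroup G] [NormedSpace ℝ G]

/-- the region 1/2 ≤ t ≤ 2, |x - y| ≤ ρ -/
def ttK (y : Sp d) (ρ : ℝ) : Set (ℝ × Sp d) := Icc (1 / 2 : ℝ) 2 ×ˢ closedBall y ρ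

lemma ttK_convex (y : Sp d) (ρ : ℝ) : Convex ℝ (ttK y ρ) :=
  (convex_Icc _ _).prod (convex_closedBall _ _)

lemma ttK_mono (y : Sp d) {ρ ρ' : ℝ} (h : ρ' ≤ ρ) : ttK y ρ' ⊆ ttK y ρ :=
  prod_mono_right (closedBall_subset_closedBall h)

lemma tt_lip {f : ℝ × Sp d → G} (hf : ContDiff ℝ ∞ f) (l : ℕ) (y : Sp d) {ρ A : ℝ}
    (h2 : ∀ p ∈ ttK y ρ, ‖iteratedFDeriv ℝ (l + 2) f p‖ ≤ A) {p q : ℝ × Sp d}
    (hp : p ∈ ttK y ρ) (hq : q ∈ ttK y ρ) :
    ‖fderiv ℝ (iteratedFDeriv ℝ l f) p - fderiv ℝ (iteratedFDeriv ℝ l f) q‖ ≤ A * ‖p - q‖ := by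
  have h3 : ∀ x, DifferentiableAt ℝ (iteratedFDeriv ℝ (l + 1) f) x := fun x =>
    (hf.differentiable_iteratedFDeriv (m := l + 1) (by exact_mod_cast WithTop.coe_lt_top _)) x
  have h4 := (ttK_convex y ρ).norm_image_sub_le_of_norm_fderiv_le (𝕜 := ℝ)
    (f := iteratedFDeriv ℝ (l + 1) f) (fun x _ => h3 x) (C := A)
    (fun x hx => by rw [norm_fderiv_iteratedFDeriv]; exact h2 x hx) hq hp
  rw [fderiv_iteratedFDeriv]
  simp only [Function.comp_apply]
  refine le_trans (le_of_eq ?_) h4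
  refine Eq.trans ?_ (LinearIsometryEquiv.norm_map (continuousMultilinearCurryLeftEquiv ℝ
    (fun _ : Fin (l + 1) => ℝ × Sp d) G) _)
  rw [LinearIsometryEquiv.map_sub]

/-- one step of interpolation -/
lemma tt_step {f : ℝ × Sp d → G} (hf : Differentiable ℝ f) (y : Sp d) {ρ ρ' s m A : ℝ}
    (hs : 0 < s) (hs1 : s ≤ 1 / 2) (hρ : ρ' + s ≤ ρ) (hA : 0 ≤ A)
    (h0 : ∀ p ∈ ttK y ρ, ‖f p‖ ≤ m)
    (h2 : ∀ p ∈ ttK y ρ, ∀ q ∈ ttK y ρ, ‖fderiv ℝ f p - fderiv ℝ f q‖ ≤ A * ‖p - q‖)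
    {p : ℝ × Sp d} (hp : p ∈ ttK y ρ') : ‖fderiv ℝ f p‖ ≤ 2 * m / s + A * s := by
  have hp' : p ∈ ttK y ρ := ttK_mono y (by linarith) hp
  have hm : 0 ≤ m := (norm_nonneg _).trans (h0 p hp')
  refine ContinuousLinearMap.opNorm_le_bound _ (by positivity) fun h => ?_
  by_cases hh : h = 0
  · simp [hh]
  have hn : 0 < ‖h‖ := norm_pos_iff.mpr hh
  -- a sign
  obtain ⟨σ, hσ, hσ1, hσ2⟩ : ∃ σ : ℝ, |σ| = 1 ∧ 1 / 2 ≤ p.1 + σ * (s / ‖h‖) * h.1 ∧
      p.1 + σ * (s / ‖h‖) * h.1 ≤ 2 := by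
    have h1 : |(s / ‖h‖) * h.1| ≤ 1 / 2 := by
      have h3 : |h.1| ≤ ‖h‖ := norm_fst_le h
      rw [abs_mul, abs_of_pos (by positivity : 0 < s / ‖h‖), div_mul_eq_mul_div,
        div_le_iff₀ hn]
      nlinarith [abs_nonneg h.1]
    have hp1 : 1 / 2 ≤ p.1 ∧ p.1 ≤ 2 := hp.1
    rw [abs_le] at h1
    by_cases ha : p.1 ≤ 1
    · by_cases hb : 0 ≤ (s / ‖h‖) * h.1
      · exact ⟨1, by simp, by nlinarith, by nlinarith⟩
      · exact ⟨-1, by simp, by nlinarith, by nlinarith⟩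
    · by_cases hb : 0 ≤ (s / ‖h‖) * h.1
      · exact ⟨-1, by simp, by nlinarith, by nlinarith⟩
      · exact ⟨1, by simp, by nlinarith, by nlinarith⟩
  set u : ℝ × Sp d := (σ * (s / ‖h‖)) • h with hu
  have hun : ‖u‖ = s := by
    rw [hu, norm_smul, norm_mul, Real.norm_eq_abs, hσ, one_mul, Real.norm_eq_abs,
      abs_of_pos (by positivity : 0 < s / ‖h‖)]
    field_simp
  have hq : p + u ∈ ttK y ρ := by
    refine ⟨⟨by simpa [hu] using hσ1, by simpa [hu] using hσ2⟩, ?_⟩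
    have h3 : ‖u.2‖ ≤ s := (norm_snd_le u).trans hun.le
    have h4 : dist p.2 y ≤ ρ' := hp.2
    rw [mem_closedBall]
    calc dist (p + u).2 y ≤ dist (p + u).2 p.2 + dist p.2 y := dist_triangle _ _ _
      _ = ‖u.2‖ + dist p.2 y := by simp [dist_eq_norm]
      _ ≤ ρ := by linarith
  have hT : Convex ℝ (ttK y ρ ∩ closedBall p s) := (ttK_convex y ρ).inter (convex_closedBall _ _)
  have h5 := hT.norm_image_sub_le_of_norm_fderiv_le' (𝕜 := ℝ) (f := f) (φ := fderiv ℝ f p)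
    (C := A * s) (fun x _ => hf x) (fun x hx => (h2 x hx.1 p hp').trans (by
      have h6 : ‖x - p‖ ≤ s := by
        have := hx.2
        rwa [mem_closedBall, dist_eq_norm] at this
      exact mul_le_mul_of_nonneg_left h6 hA)) (x := p) (y := p + u)
    ⟨hp', mem_closedBall_self hs.le⟩ ⟨hq, by
      rw [mem_closedBall, dist_eq_norm, add_sub_cancel_left]; exact hun.le⟩
  rw [add_sub_cancel_left, hun] at h5
  have h6 : ‖fderiv ℝ f p u‖ ≤ 2 * m + A * s * s := by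
    have e : fderiv ℝ f p u = (f (p + u) - f p) - (f (p + u) - f p - fderiv ℝ f p u) := by abel
    rw [e]
    refine (norm_sub_le _ _).trans ?_
    have h7 : ‖f (p + u) - f p‖ ≤ m + m := (norm_sub_le _ _).trans
      (add_le_add (h0 _ hq) (h0 _ hp'))
    linarith
  have h8 : ‖fderiv ℝ f p u‖ = s / ‖h‖ * ‖fderiv ℝ f p h‖ := by
    rw [hu, map_smul, norm_smul, norm_mul, Real.norm_eq_abs, hσ, one_mul, Real.norm_eq_abs,
      abs_of_pos (by positivity : 0 < s / ‖h‖)]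
  rw [h8] at h6
  have h9 : ‖fderiv ℝ f p h‖ = (s / ‖h‖ * ‖fderiv ℝ f p h‖) * (‖h‖ / s) := by
    field_simp
  rw [h9]
  calc (s / ‖h‖ * ‖fderiv ℝ f p h‖) * (‖h‖ / s) ≤ (2 * m + A * s * s) * (‖h‖ / s) :=
        mul_le_mul_of_nonneg_right h6 (by positivity)
    _ = _ := by field_simp

/-- interpolation: all derivatives are small -/
lemma tt_interp (j : ℕ) : ∀ A η : ℝ, 0 < A → 0 < η → ∃ i0 : ℝ, 0 < i0 ∧
    ∀ (f : ℝ × Sp d → G) (y : Sp d) (S : ℝ), ContDiff ℝ ∞ f → 0 ≤ S →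
      (∀ l ≤ j + 1, ∀ p ∈ ttK y 1, ‖iteratedFDeriv ℝ l f p‖ ≤ A * S) →
      (∀ p ∈ ttK y 1, ‖f p‖ ≤ i0 * S) →
      ∀ l ≤ j, ∀ p ∈ ttK y (1 / 2 + (1 / 2) ^ (j + 1)), ‖iteratedFDeriv ℝ l f p‖ ≤ η * S := by
  induction j with
  | zero =>
    intro A η hA hη
    refine ⟨η, hη, fun f y S hf hS h1 h2 l hl p hp => ?_⟩
    obtain rfl : l = 0 := by omega
    rw [norm_iteratedFDeriv_zero]
    refine h2 p ?_
    have : (1 / 2 + (1 / 2) ^ (0 + 1) : ℝ) = 1 := by norm_num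
    rwa [this] at hp
  | succ j ih =>
    intro A η hA hη
    set s : ℝ := min ((1 / 2) ^ (j + 2)) (η / (2 * A)) with hs
    have hs0 : 0 < s := lt_min (by positivity) (by positivity)
    have hs1 : s ≤ (1 / 2) ^ (j + 2) := min_le_left _ _
    have hs2 : A * s ≤ η / 2 := by
      have : s ≤ η / (2 * A) := min_le_right _ _
      calc A * s ≤ A * (η / (2 * A)) := mul_le_mul_of_nonneg_left this hA.le
        _ = η / 2 := by field_simp
    have hpow : ((1 / 2 : ℝ)) ^ (j + 2) ≤ 1 / 2 := by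
      calc ((1 / 2 : ℝ)) ^ (j + 2) ≤ (1 / 2) ^ 1 :=
            pow_le_pow_of_le_one (by norm_num) (by norm_num) (by omega)
        _ = 1 / 2 := by norm_num
    obtain ⟨i0, hi0, h0⟩ := ih A (min η (η * s / 4)) hA (lt_min hη (by positivity))
    refine ⟨i0, hi0, fun f y S hf hS h1 h2 l hl p hp => ?_⟩
    have h3 := h0 f y S hf hS (fun l hl => h1 l (by omega)) h2
    have hρ : (1 / 2 + (1 / 2) ^ (j + 1 + 1) : ℝ) + s ≤ 1 / 2 + (1 / 2) ^ (j + 1) := by
      have : ((1 / 2 : ℝ)) ^ (j + 1) = (1 / 2) ^ (j + 2) + (1 / 2) ^ (j + 2) := by ring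
      rw [this, show j + 1 + 1 = j + 2 by ring]
      linarith
    have hρ1 : (1 / 2 + (1 / 2) ^ (j + 1) : ℝ) ≤ 1 := by
      have : ((1 / 2 : ℝ)) ^ (j + 1) ≤ (1 / 2) ^ 1 :=
        pow_le_pow_of_le_one (by norm_num) (by norm_num) (by omega)
      linarith
    by_cases hlj : l ≤ j
    · refine (h3 l hlj p (ttK_mono y (by linarith) hp)).trans ?_
      exact mul_le_mul_of_nonneg_right (min_le_left _ _) hS
    · obtain rfl : l = j + 1 := by omega
      rw [← norm_fderiv_iteratedFDeriv]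
      have hAS : 0 ≤ A * S := by positivity
      have h4 := tt_step (f := iteratedFDeriv ℝ j f)
        (hf.differentiable_iteratedFDeriv (m := j) (by exact_mod_cast WithTop.coe_lt_top _)) y
        (ρ := 1 / 2 + (1 / 2) ^ (j + 1)) (ρ' := 1 / 2 + (1 / 2) ^ (j + 1 + 1)) (s := s)
        (m := η * s / 4 * S) (A := A * S) hs0 (hs1.trans hpow) hρ hAS
        (fun q hq => (h3 j le_rfl q hq).trans
          (mul_le_mul_of_nonneg_right (min_le_right _ _) hS))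
        (fun q hq q' hq' => tt_lip hf j y (ρ := 1) (fun x hx => h1 (j + 2) (by omega) x hx)
          (ttK_mono y hρ1 hq) (ttK_mono y hρ1 hq')) hp
      refine h4.trans ?_
      have e : 2 * (η * s / 4 * S) / s + A * S * s = (η / 2 + A * s) * S := by
        field_simp
        ring
      rw [e]
      exact mul_le_mul_of_nonneg_right (by linarith) hS

end

end TG
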