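import Pool.Agent.TG.TreeDefs2
import Pool.Agent.TG.TreeTS1

/-! types of cells -/

open Set TrI Filter
open scoped ENNReal Classical Topology

namespace TG

noncomputable section

variable {d : ℕ}

theorem sh_nonneg {F : Cell d → ℝ} (hF : ∀ Q, 0 ≤ F Q) (Q : Cell d) : 0 ≤ sh F Q :=
  tsum_nonneg (fun i => mul_nonneg (by positivity) (hF _))

theorem sh_shift {F : Cell d → ℝ} (hF : ∀ Q, 0 ≤ F Q) {B : ℝ} (hB : ∀ Q, F Q ≤ B) (s : ℕ)
    (Q : Cell d) :
    Summable (fun l : ℕ => (2 : ℝ) ^ (-((l : ℝ) / 4)) * F (up (l + s) Q)) ∧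
      ∑' l : ℕ, (2 : ℝ) ^ (-((l : ℝ) / 4)) * F (up (l + s) Q) ≤ (2 : ℝ) ^ ((s : ℝ) / 4) * sh F Q := by
  have hs := sh_summable hF hB Q
  have hs2 := (summable_nat_add_iff s).2 hs
  have e : (fun l : ℕ => (2 : ℝ) ^ (-((l : ℝ) / 4)) * F (up (l + s) Q)) =
      fun l : ℕ => (2 : ℝ) ^ ((s : ℝ) / 4) *
        ((2 : ℝ) ^ (-(((l + s : ℕ) : ℝ) / 4)) * F (up (l + s) Q)) := by
    funext l
    rw [← mul_assoc, ← Real.rpow_add (by norm_num)]
    congr 2
    push_cast; ring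
  rw [e]
  refine ⟨hs2.mul_left _, ?_⟩
  rw [tsum_mul_left]
  apply mul_le_mul_of_nonneg_left _ (by positivity)
  have h1 := hs.sum_add_tsum_nat_add s
  have h2 : 0 ≤ ∑ i ∈ Finset.range s, (2 : ℝ) ^ (-((i : ℝ) / 4)) * F (up i Q) :=
    Finset.sum_nonneg (fun i _ => mul_nonneg (by positivity) (hF _))
  unfold sh
  linarith

theorem ncard_window {κ0 x y R : ℝ} {n nI : ℕ} (hκ : 0 < κ0) (hx : 0 < x) (hR : 0 < R)
    (hnI : R ^ 2 < 2 ^ nI) (hy : 0 < y) (S : Set ℕ)
    (hS : ∀ j ∈ S, j < n ∧ x ≤ R * (κ0 * (1 / 2) ^ j * y) ∧ κ0 * (1 / 2) ^ j * y ≤ R * x) :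
    S.ncard ≤ nI := by
  rcases S.eq_empty_or_nonempty with hE | hne
  · rw [hE, Set.ncard_empty]; exact Nat.zero_le _
  set j0 := sInf S with hj0
  have hj0S : j0 ∈ S := Nat.sInf_mem hne
  have hsub : S ⊆ ((Finset.Ico j0 (j0 + nI) : Finset ℕ) : Set ℕ) := by
    intro j hj
    have h1 : j0 ≤ j := Nat.sInf_le hj
    rw [Finset.coe_Ico, mem_Ico]
    refine ⟨h1, ?_⟩
    by_contra hcon
    rw [not_lt] at hcon
    obtain ⟨-, h2, -⟩ := hS j hj
    obtain ⟨-, -, h3⟩ := hS j0 hj0S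
    have h4 : κ0 * (1 / 2) ^ j * y ≤ κ0 * (1 / 2) ^ (j0 + nI) * y := by
      have : ((1 : ℝ) / 2) ^ j ≤ (1 / 2) ^ (j0 + nI) :=
        pow_le_pow_of_le_one (by norm_num) (by norm_num) hcon
      gcongr
    have h5 : κ0 * (1 / 2) ^ (j0 + nI) * y = (κ0 * (1 / 2) ^ j0 * y) * (1 / 2) ^ nI := by ring
    have h6 : x ≤ R * ((R * x) * (1 / 2) ^ nI) := by
      calc x ≤ R * (κ0 * (1 / 2) ^ j * y) := h2
        _ ≤ R * ((κ0 * (1 / 2) ^ j0 * y) * (1 / 2) ^ nI) := by rw [← h5]; gcongr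
        _ ≤ _ := by gcongr
    have h7 : R * ((R * x) * (1 / 2) ^ nI) = x * (R ^ 2 * (1 / 2) ^ nI) := by ring
    have h8 : R ^ 2 * (1 / 2) ^ nI < 1 := by
      have : (2 : ℝ) ^ nI * (1 / 2) ^ nI = 1 := by
        rw [← mul_pow]; norm_num
      calc R ^ 2 * (1 / 2) ^ nI < 2 ^ nI * (1 / 2) ^ nI := by
            apply mul_lt_mul_of_pos_right hnI (by positivity)
        _ = 1 := this
    rw [h7] at h6
    nlinarith
  calc S.ncard ≤ ((Finset.Ico j0 (j0 + nI) : Finset ℕ) : Set ℕ).ncard :=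
        Set.ncard_le_ncard hsub (Finset.finite_toSet _)
    _ = nI := by
        rw [Set.ncard_coe_finset, Nat.card_Ico]; omega

theorem exists_top {γ : ℝ} (hγ : 0 < γ) {at' : Cell d → ℝ} (hat : ∀ Q, 0 ≤ at' Q)
    (hB : ∃ B, ∀ Q, at' Q ≤ B) (Q : Cell d) :
    ∃ i : ℕ, ∀ l : ℕ, (2 : ℝ) ^ (-(γ * l)) * at' (up l Q) ≤
      (2 : ℝ) ^ (-(γ * i)) * at' (up i Q) := by
  obtain ⟨B, hB⟩ := hB
  by_cases hz : ∀ l : ℕ, (2 : ℝ) ^ (-(γ * l)) * at' (up l Q) ≤
      (2 : ℝ) ^ (-(γ * (0 : ℕ))) * at' (up 0 Q)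
  · exact ⟨0, hz⟩
  push Not at hz
  obtain ⟨l0, hl0⟩ := hz
  set f : ℕ → ℝ := fun l => (2 : ℝ) ^ (-(γ * l)) * at' (up l Q) with hf
  have hpos : 0 < f l0 := lt_of_le_of_lt (by
    have := hat (up 0 Q); positivity) hl0
  have hlim : Tendsto f atTop (𝓝 0) := by
    have h1 : Tendsto (fun l : ℕ => ((2 : ℝ) ^ (-γ)) ^ l * B) atTop (𝓝 (0 * B)) := by
      apply Tendsto.mul_const
      apply tendsto_pow_atTop_nhds_zero_of_lt_one (by positivity)
      exact Real.rpow_lt_one_of_one_lt_of_neg (by norm_num) (by linarith)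
    rw [zero_mul] at h1
    apply squeeze_zero _ _ h1
    · intro l; have := hat (up l Q); simp only [hf]; positivity
    · intro l
      simp only [hf]
      have e : (2 : ℝ) ^ (-(γ * l)) = ((2 : ℝ) ^ (-γ)) ^ l := by
        rw [← Real.rpow_natCast, ← Real.rpow_mul (by norm_num)]
        congr 1; ring
      rw [e]
      exact mul_le_mul_of_nonneg_left (hB _) (by positivity)
  obtain ⟨N, hN⟩ := (hlim.eventually (gt_mem_nhds hpos)).exists_forall_of_atTop
  -- maximum over the finite range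
  obtain ⟨i, hi, him⟩ := Finset.exists_max_image (Finset.range (max N (l0 + 1))) f
    ⟨l0, Finset.mem_range.2 (by omega)⟩
  refine ⟨i, ?_⟩
  intro l
  by_cases hl : l < max N (l0 + 1)
  · exact him l (Finset.mem_range.2 hl)
  · have h1 : N ≤ l := by omega
    have h2 := hN l h1
    have h3 := him l0 (Finset.mem_range.2 (by omega))
    exact h2.le.trans h3

theorem stmtTY : StmtTY := by
  intro C1 J e
  by_cases hC1 : 1 ≤ C1
  swap
  · refine ⟨1, le_rfl, ?_⟩
    intro θ hθ hθ1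
    refine ⟨1, 0, one_pos, ?_⟩
    intro K hK d0 hd0 hd01
    refine ⟨d0, hd0, le_rfl, ?_⟩
    intro d γ hγ hγ8 nb a ah at' D b hR
    exact absurd hR.C1_one hC1
  have hC10 : 0 < C1 := by linarith
  set Cθ : ℝ := 2 * C1 ^ 2 * 2 ^ J with hCθ
  have hCθ1 : 1 ≤ Cθ := by
    have h1 : 1 ≤ C1 ^ 2 := one_le_pow₀ hC1
    have h2 : (1 : ℝ) ≤ 2 ^ J := one_le_pow₀ (by norm_num)
    rw [hCθ]; nlinarith
  refine ⟨Cθ, hCθ1, ?_⟩
  intro θ hθ hθ1
  set Ca : ℝ := 2 * C1 ^ 2 * 2 ^ J / θ with hCa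
  set Cs : ℝ := 3 * C1 ^ 2 * (2 : ℝ) ^ (((J + e : ℕ) : ℝ) / 4) + 1 with hCs
  have hCa0 : 0 < Ca := by positivity
  have hCs0 : 0 < Cs := by positivity
  set C : ℝ := Ca + Cs with hC
  have hCpos : 0 < C := by positivity
  obtain ⟨nI, hnI⟩ : ∃ nI : ℕ, (C * C) ^ 2 < 2 ^ nI := pow_unbounded_of_one_lt _ (by norm_num)
  refine ⟨C, nI, hCpos, ?_⟩
  intro K hK d0 hd0 hd01
  set d1 : ℝ := d0 * θ / (2 * C1 ^ 3 * (2 : ℝ) ^ (J + e)) with hd1
  have hp2 : (1 : ℝ) ≤ 2 ^ (J + e) := one_le_pow₀ (by norm_num)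
  have hC13 : 1 ≤ C1 ^ 3 := one_le_pow₀ hC1
  have hd1pos : 0 < d1 := by positivity
  have hden : 1 ≤ 2 * C1 ^ 3 * (2 : ℝ) ^ (J + e) := by nlinarith
  have hd1le : d1 ≤ d0 := by
    rw [hd1, div_le_iff₀ (by positivity)]
    have : d0 * θ ≤ d0 * 1 := by gcongr
    nlinarith
  refine ⟨d1, hd1pos, hd1le, ?_⟩
  intro d γ hγ hγ8 nb a ah at' D b hR
  obtain ⟨BD, hBD⟩ := hR.D_bd
  obtain ⟨Bb, hBb⟩ := hR.b_bd
  have hdd : d1 * (2 * C1 ^ 3 * (2 : ℝ) ^ (J + e)) = d0 * θ := by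
    rw [hd1]; field_simp
  -- part 1
  have part1 : ∀ Q, Q ∉ WL γ θ ah at' → 0 < ah Q ∧
      ∀ l : ℕ, θ * at' (up l Q) ≤ (2 : ℝ) ^ (γ * l) * ah Q := by
    intro Q hQ
    obtain ⟨i, hi⟩ := exists_top hγ hR.at_nonneg hR.at_bd Q
    have h1 : ¬ ah Q ≤ θ * ((2 : ℝ) ^ (-(γ * i)) * at' (up i Q)) := fun h => hQ ⟨i, hi, h⟩
    rw [not_le] at h1
    have h0 : 0 ≤ at' (up i Q) := hR.at_nonneg _
    refine ⟨lt_of_le_of_lt (by positivity) h1, ?_⟩
    intro l
    have h2 := hi l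
    have e2 : (2 : ℝ) ^ (γ * l) * (2 : ℝ) ^ (-(γ * l)) = 1 := by
      rw [← Real.rpow_add (by norm_num)]; simp
    calc θ * at' (up l Q) = θ * ((2 : ℝ) ^ (γ * l) * ((2 : ℝ) ^ (-(γ * l)) * at' (up l Q))) := by
          rw [← mul_assoc ((2 : ℝ) ^ (γ * l)), e2, one_mul]
      _ ≤ θ * ((2 : ℝ) ^ (γ * l) * ((2 : ℝ) ^ (-(γ * i)) * at' (up i Q))) := by gcongr
      _ = (2 : ℝ) ^ (γ * l) * (θ * ((2 : ℝ) ^ (-(γ * i)) * at' (up i Q))) := by ring
      _ ≤ _ := by gcongr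
  -- part 2
  have h2J : ∀ (s : ℕ), s ≤ J + e → (2 : ℝ) ^ ((s : ℝ) / 8) ≤ 2 ^ (J + e) := by
    intro s hs
    rw [← Real.rpow_natCast]
    apply Real.rpow_le_rpow_of_exponent_le (by norm_num)
    have : (s : ℝ) ≤ ((J + e : ℕ) : ℝ) := by exact_mod_cast hs
    have h0 : (0 : ℝ) ≤ ((J + e : ℕ) : ℝ) := Nat.cast_nonneg _
    have h1 : (0 : ℝ) ≤ (s : ℝ) := Nat.cast_nonneg _
    linarith
  have part2 : ∀ Q ∈ Solid γ θ d1 a ah at' D, ∀ Q' ∈ nb Q,
      Q' ∈ Strc γ K d0 a at' D ∧ a Q' ≤ C * a Q ∧ a Q ≤ C * a Q' ∧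
      sh b Q' + sh D Q' ≤ C * (sh b Q + sh D Q) ∧
      sh b Q + sh D Q ≤ C * (sh b Q' + sh D Q') := by
    intro Q hQ Q' hQ'
    obtain ⟨hW, hDc⟩ := hQ
    obtain ⟨hah, hgr⟩ := part1 Q hW
    obtain ⟨hl1, hl2⟩ := hR.lev Q Q' hQ'
    set i := Q'.1 - Q.1 with hi
    have hiJ : i ≤ J := by omega
    have haQ : a Q ≤ C1 / θ * ah Q := by
      have h1 := hgr 0
      rw [up_zero] at h1
      simp only [Nat.cast_zero, mul_zero, Real.rpow_zero, one_mul] at h1
      have h2 := hR.a_le Q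
      calc a Q ≤ C1 * at' Q := h2
        _ = C1 / θ * (θ * at' Q) := by field_simp
        _ ≤ _ := by gcongr
    have hDJ : C1 * D (up (J + e) Q) ≤ ah Q / 2 := by
      have h1 := hDc (J + e)
      have h2 := h2J (J + e) le_rfl
      have h3 := hR.a_nonneg Q
      calc C1 * D (up (J + e) Q)
          ≤ C1 * (d1 * (2 : ℝ) ^ (((J + e : ℕ) : ℝ) / 8) * a Q) := by gcongr
        _ ≤ C1 * (d1 * 2 ^ (J + e) * (C1 / θ * ah Q)) := by gcongr
        _ = (d1 * (2 * C1 ^ 3 * (2 : ℝ) ^ (J + e))) * (ah Q / (2 * C1 * θ)) := by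
            field_simp
        _ = d0 * (ah Q / (2 * C1)) := by rw [hdd]; field_simp
        _ ≤ 1 * (ah Q / (2 * 1)) := by gcongr
        _ = _ := by ring
    have hm := hR.m1 Q Q' hQ'
    have hahQ' : ah Q ≤ 2 * C1 * a Q' := by nlinarith
    have haQ'0 : 0 < a Q' := by
      have : 0 < 2 * C1 * a Q' := lt_of_lt_of_le hah hahQ'
      exact (pos_iff_pos_of_mul_pos this).1 (by positivity)
    have h2γ : (2 : ℝ) ^ (γ * i) ≤ 2 ^ J := by
      rw [← Real.rpow_natCast]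
      apply Real.rpow_le_rpow_of_exponent_le (by norm_num)
      have h1 : (i : ℝ) ≤ J := by exact_mod_cast hiJ
      have h0 : (0 : ℝ) ≤ i := Nat.cast_nonneg _
      nlinarith
    have hθ' : ∀ l : ℕ, at' (up l Q) ≤ (2 : ℝ) ^ (γ * l) * ah Q / θ := by
      intro l
      rw [le_div_iff₀ hθ]
      have := hgr l
      linarith
    refine ⟨⟨haQ'0, ?_, ?_⟩, ?_, ?_, ?_, ?_⟩
    · intro l
      have h1 := hR.at1 Q Q' hQ' l
      rw [← hi] at h1
      have h3 : (2 : ℝ) ^ (γ * ((i + l : ℕ) : ℝ)) = (2 : ℝ) ^ (γ * i) * (2 : ℝ) ^ (γ * l) := by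
        rw [← Real.rpow_add (by norm_num)]; congr 1; push_cast; ring
      have h4 := hθ' (i + l)
      rw [h3] at h4
      have hK' : 2 * C1 ^ 2 * 2 ^ J ≤ K * θ := by
        rw [hCa, div_le_iff₀ hθ] at hK; exact hK
      calc at' (up l Q') ≤ C1 * at' (up (i + l) Q) := h1
        _ ≤ C1 * ((2 : ℝ) ^ (γ * i) * (2 : ℝ) ^ (γ * l) * ah Q / θ) := by gcongr
        _ ≤ C1 * (2 ^ J * (2 : ℝ) ^ (γ * l) * (2 * C1 * a Q') / θ) := by gcongr
        _ = (2 * C1 ^ 2 * 2 ^ J) * ((2 : ℝ) ^ (γ * l) * a Q' / θ) := by ring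
        _ ≤ (K * θ) * ((2 : ℝ) ^ (γ * l) * a Q' / θ) := by gcongr
        _ = _ := by field_simp
    · intro l
      have h1 := hR.D1 Q Q' hQ' l
      rw [← hi] at h1
      have h2 := hDc (i + l + e)
      have h3 : (2 : ℝ) ^ (((i + l + e : ℕ) : ℝ) / 8) =
          (2 : ℝ) ^ (((i + e : ℕ) : ℝ) / 8) * (2 : ℝ) ^ ((l : ℝ) / 8) := by
        rw [← Real.rpow_add (by norm_num)]; congr 1; push_cast; ring
      rw [h3] at h2
      have h4 := h2J (i + e) (by omega)
      calc D (up l Q') ≤ C1 * D (up (i + l + e) Q) := h1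
        _ ≤ C1 * (d1 * ((2 : ℝ) ^ (((i + e : ℕ) : ℝ) / 8) * (2 : ℝ) ^ ((l : ℝ) / 8)) * a Q) := by
            gcongr
        _ ≤ C1 * (d1 * (2 ^ (J + e) * (2 : ℝ) ^ ((l : ℝ) / 8)) *
            (C1 / θ * (2 * C1 * a Q'))) := by
            have : a Q ≤ C1 / θ * (2 * C1 * a Q') := haQ.trans (by gcongr)
            have := hR.a_nonneg Q
            gcongr
        _ = (d1 * (2 * C1 ^ 3 * (2 : ℝ) ^ (J + e))) * ((2 : ℝ) ^ ((l : ℝ) / 8) * a Q' / θ) := by
            ring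
        _ = (d0 * θ) * ((2 : ℝ) ^ ((l : ℝ) / 8) * a Q' / θ) := by rw [hdd]
        _ = _ := by field_simp
    · -- a Q' ≤ C a Q
      have h1 := hR.at1 Q Q' hQ' 0
      rw [← hi, up_zero, add_zero] at h1
      have h2 := hθ' i
      have h3 := hR.ah_le Q
      calc a Q' ≤ C1 * at' Q' := hR.a_le Q'
        _ ≤ C1 * (C1 * ((2 : ℝ) ^ (γ * i) * ah Q / θ)) := by gcongr; exact h1.trans (by gcongr)
        _ ≤ C1 * (C1 * (2 ^ J * a Q / θ)) := by gcongr
        _ = (C1 ^ 2 * 2 ^ J / θ) * a Q := by ring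
        _ ≤ C * a Q := by
            have h5 := hR.a_nonneg Q
            have h6 : C1 ^ 2 * 2 ^ J / θ ≤ C := by
              rw [hC, hCa]
              have : 0 ≤ C1 ^ 2 * 2 ^ J / θ := by positivity
              have e9 : 2 * C1 ^ 2 * 2 ^ J / θ = 2 * (C1 ^ 2 * 2 ^ J / θ) := by ring
              rw [e9]; linarith
            gcongr
    · -- a Q ≤ C a Q'
      calc a Q ≤ C1 / θ * ah Q := haQ
        _ ≤ C1 / θ * (2 * C1 * a Q') := by gcongr
        _ = (2 * C1 ^ 2 / θ) * a Q' := by ring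
        _ ≤ C * a Q' := by
            have h6 : 2 * C1 ^ 2 / θ ≤ C := by
              rw [hC, hCa]
              have h7 : (1 : ℝ) ≤ 2 ^ J := one_le_pow₀ (by norm_num)
              have h8 : 2 * C1 ^ 2 / θ ≤ 2 * C1 ^ 2 * 2 ^ J / θ := by
                apply div_le_div_of_nonneg_right _ hθ.le
                nlinarith [sq_nonneg C1]
              linarith
            gcongr
    · -- sh Q' ≤ C sh Q
      obtain ⟨sb1, sb2⟩ := sh_shift hR.b_nonneg hBb (i + e) Q
      obtain ⟨sd1, sd2⟩ := sh_shift hR.D_nonneg hBD (i + e) Q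
      have hshb := sh_nonneg hR.b_nonneg Q
      have hshD := sh_nonneg hR.D_nonneg Q
      have hD' : sh D Q' ≤ C1 * ((2 : ℝ) ^ (((i + e : ℕ) : ℝ) / 4) * sh D Q) := by
        calc sh D Q' ≤ ∑' l : ℕ, C1 * ((2 : ℝ) ^ (-((l : ℝ) / 4)) * D (up (l + (i + e)) Q)) := by
              apply Summable.tsum_le_tsum _ (sh_summable hR.D_nonneg hBD Q') (sd1.mul_left C1)
              intro l
              have h1 := hR.D1 Q Q' hQ' l
              rw [← hi] at h1
              have e1 : i + l + e = l + (i + e) := by omega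
              rw [e1] at h1
              calc (2 : ℝ) ^ (-((l : ℝ) / 4)) * D (up l Q')
                  ≤ (2 : ℝ) ^ (-((l : ℝ) / 4)) * (C1 * D (up (l + (i + e)) Q)) := by gcongr
                _ = _ := by ring
          _ = C1 * ∑' l : ℕ, (2 : ℝ) ^ (-((l : ℝ) / 4)) * D (up (l + (i + e)) Q) := tsum_mul_left
          _ ≤ _ := by gcongr
      have hb' : sh b Q' ≤ C1 * ((2 : ℝ) ^ (((i + e : ℕ) : ℝ) / 4) * (sh b Q + sh D Q))
          + C1 * sh D Q' := by
        calc sh b Q' ≤ ∑' l : ℕ, (C1 * ((2 : ℝ) ^ (-((l : ℝ) / 4)) * b (up (l + (i + e)) Q)) +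
                C1 * ((2 : ℝ) ^ (-((l : ℝ) / 4)) * D (up (l + (i + e)) Q)) +
                C1 * ((2 : ℝ) ^ (-((l : ℝ) / 4)) * D (up l Q'))) := by
              apply Summable.tsum_le_tsum _ (sh_summable hR.b_nonneg hBb Q')
                (((sb1.mul_left C1).add (sd1.mul_left C1)).add
                  ((sh_summable hR.D_nonneg hBD Q').mul_left C1))
              intro l
              have h1 := hR.b1 Q Q' hQ' l
              rw [← hi] at h1
              have e1 : i + l + e = l + (i + e) := by omega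
              rw [e1] at h1
              calc (2 : ℝ) ^ (-((l : ℝ) / 4)) * b (up l Q')
                  ≤ (2 : ℝ) ^ (-((l : ℝ) / 4)) * (C1 * (b (up (l + (i + e)) Q) +
                    D (up (l + (i + e)) Q) + D (up l Q'))) := by gcongr
                _ = _ := by ring
          _ = C1 * (∑' l : ℕ, (2 : ℝ) ^ (-((l : ℝ) / 4)) * b (up (l + (i + e)) Q)) +
              C1 * (∑' l : ℕ, (2 : ℝ) ^ (-((l : ℝ) / 4)) * D (up (l + (i + e)) Q)) +
              C1 * sh D Q' := by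
              rw [Summable.tsum_add ((sb1.mul_left C1).add (sd1.mul_left C1))
                ((sh_summable hR.D_nonneg hBD Q').mul_left C1),
                Summable.tsum_add (sb1.mul_left C1) (sd1.mul_left C1), tsum_mul_left,
                tsum_mul_left, tsum_mul_left]
              rfl
          _ ≤ C1 * ((2 : ℝ) ^ (((i + e : ℕ) : ℝ) / 4) * sh b Q) +
              C1 * ((2 : ℝ) ^ (((i + e : ℕ) : ℝ) / 4) * sh D Q) + C1 * sh D Q' := by gcongr
          _ = _ := by ring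
      have h2e : (2 : ℝ) ^ (((i + e : ℕ) : ℝ) / 4) ≤ (2 : ℝ) ^ (((J + e : ℕ) : ℝ) / 4) := by
        apply Real.rpow_le_rpow_of_exponent_le (by norm_num)
        have : ((i + e : ℕ) : ℝ) ≤ ((J + e : ℕ) : ℝ) := by exact_mod_cast (by omega)
        linarith
      set T : ℝ := (2 : ℝ) ^ (((J + e : ℕ) : ℝ) / 4) with hT
      have hT0 : 0 < T := by positivity
      have hD'' : sh D Q' ≤ C1 * (T * sh D Q) := hD'.trans (by gcongr)
      have hb'' : sh b Q' ≤ C1 * (T * (sh b Q + sh D Q)) + C1 * (C1 * (T * sh D Q)) :=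
        hb'.trans (by gcongr)
      have hX : 0 ≤ T * sh D Q := by positivity
      have hY : 0 ≤ T * sh b Q := by positivity
      calc sh b Q' + sh D Q' ≤ C1 * (T * (sh b Q + sh D Q)) + C1 * (C1 * (T * sh D Q))
            + C1 * (T * sh D Q) := by linarith
        _ ≤ 3 * C1 ^ 2 * T * (sh b Q + sh D Q) := by
            have i1 : C1 * (T * sh D Q) ≤ C1 ^ 2 * (T * sh D Q) := by
              apply mul_le_mul_of_nonneg_right _ hX; nlinarith
            have i2 : C1 * (T * sh b Q) ≤ C1 ^ 2 * (T * sh b Q) := by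
              apply mul_le_mul_of_nonneg_right _ hY; nlinarith
            have i3 : 0 ≤ C1 ^ 2 * (T * sh b Q) := by positivity
            nlinarith
        _ ≤ C * (sh b Q + sh D Q) := by
            have : 3 * C1 ^ 2 * T ≤ C := by rw [hC, hCs]; linarith
            gcongr
    · -- sh Q ≤ C sh Q'
      obtain ⟨sb1, sb2⟩ := sh_shift hR.b_nonneg hBb e Q'
      obtain ⟨sd1, sd2⟩ := sh_shift hR.D_nonneg hBD e Q'
      have hshb := sh_nonneg hR.b_nonneg Q'
      have hshD := sh_nonneg hR.D_nonneg Q'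
      have hD' : sh D Q ≤ C1 * ((2 : ℝ) ^ ((e : ℝ) / 4) * sh D Q') := by
        calc sh D Q ≤ ∑' l : ℕ, C1 * ((2 : ℝ) ^ (-((l : ℝ) / 4)) * D (up (l + e) Q')) := by
              apply Summable.tsum_le_tsum _ (sh_summable hR.D_nonneg hBD Q) (sd1.mul_left C1)
              intro l
              have h1 := hR.D2 Q Q' hQ' l
              calc (2 : ℝ) ^ (-((l : ℝ) / 4)) * D (up l Q)
                  ≤ (2 : ℝ) ^ (-((l : ℝ) / 4)) * (C1 * D (up (l + e) Q')) := by gcongr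
                _ = _ := by ring
          _ = C1 * ∑' l : ℕ, (2 : ℝ) ^ (-((l : ℝ) / 4)) * D (up (l + e) Q') := tsum_mul_left
          _ ≤ _ := by gcongr
      have hb' : sh b Q ≤ C1 * ((2 : ℝ) ^ ((e : ℝ) / 4) * (sh b Q' + sh D Q'))
          + C1 * sh D Q := by
        calc sh b Q ≤ ∑' l : ℕ, (C1 * ((2 : ℝ) ^ (-((l : ℝ) / 4)) * b (up (l + e) Q')) +
                C1 * ((2 : ℝ) ^ (-((l : ℝ) / 4)) * D (up (l + e) Q')) +
                C1 * ((2 : ℝ) ^ (-((l : ℝ) / 4)) * D (up l Q))) := by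
              apply Summable.tsum_le_tsum _ (sh_summable hR.b_nonneg hBb Q)
                (((sb1.mul_left C1).add (sd1.mul_left C1)).add
                  ((sh_summable hR.D_nonneg hBD Q).mul_left C1))
              intro l
              have h1 := hR.b2 Q Q' hQ' l
              calc (2 : ℝ) ^ (-((l : ℝ) / 4)) * b (up l Q)
                  ≤ (2 : ℝ) ^ (-((l : ℝ) / 4)) * (C1 * (b (up (l + e) Q') +
                    D (up (l + e) Q') + D (up l Q))) := by gcongr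
                _ = _ := by ring
          _ = C1 * (∑' l : ℕ, (2 : ℝ) ^ (-((l : ℝ) / 4)) * b (up (l + e) Q')) +
              C1 * (∑' l : ℕ, (2 : ℝ) ^ (-((l : ℝ) / 4)) * D (up (l + e) Q')) +
              C1 * sh D Q := by
              rw [Summable.tsum_add ((sb1.mul_left C1).add (sd1.mul_left C1))
                ((sh_summable hR.D_nonneg hBD Q).mul_left C1),
                Summable.tsum_add (sb1.mul_left C1) (sd1.mul_left C1), tsum_mul_left,
                tsum_mul_left, tsum_mul_left]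
              rfl
          _ ≤ C1 * ((2 : ℝ) ^ ((e : ℝ) / 4) * sh b Q') +
              C1 * ((2 : ℝ) ^ ((e : ℝ) / 4) * sh D Q') + C1 * sh D Q := by gcongr
          _ = _ := by ring
      have h2e : (2 : ℝ) ^ ((e : ℝ) / 4) ≤ (2 : ℝ) ^ (((J + e : ℕ) : ℝ) / 4) := by
        apply Real.rpow_le_rpow_of_exponent_le (by norm_num)
        have : (e : ℝ) ≤ ((J + e : ℕ) : ℝ) := by exact_mod_cast (by omega)
        linarith
      set T : ℝ := (2 : ℝ) ^ (((J + e : ℕ) : ℝ) / 4) with hT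
      have hT0 : 0 < T := by positivity
      have hD'' : sh D Q ≤ C1 * (T * sh D Q') := hD'.trans (by gcongr)
      have hb'' : sh b Q ≤ C1 * (T * (sh b Q' + sh D Q')) + C1 * (C1 * (T * sh D Q')) :=
        hb'.trans (by gcongr)
      have hX : 0 ≤ T * sh D Q' := by positivity
      have hY : 0 ≤ T * sh b Q' := by positivity
      calc sh b Q + sh D Q ≤ C1 * (T * (sh b Q' + sh D Q')) + C1 * (C1 * (T * sh D Q'))
            + C1 * (T * sh D Q') := by linarith
        _ ≤ 3 * C1 ^ 2 * T * (sh b Q' + sh D Q') := by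
            have i1 : C1 * (T * sh D Q') ≤ C1 ^ 2 * (T * sh D Q') := by
              apply mul_le_mul_of_nonneg_right _ hX; nlinarith
            have i2 : C1 * (T * sh b Q') ≤ C1 ^ 2 * (T * sh b Q') := by
              apply mul_le_mul_of_nonneg_right _ hY; nlinarith
            have i3 : 0 ≤ C1 ^ 2 * (T * sh b Q') := by positivity
            nlinarith
        _ ≤ C * (sh b Q' + sh D Q') := by
            have : 3 * C1 ^ 2 * T ≤ C := by rw [hC, hCs]; linarith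
            gcongr
  refine ⟨part1, part2, ?_, ?_⟩
  · -- number of interface indices
    intro κ0 hκ0 n Q hQ
    have hself := part2 Q hQ Q (hR.self Q)
    have haQ : 0 < a Q := hself.1.1
    set s := sh b Q + sh D Q with hs
    have hs0 : 0 ≤ s := add_nonneg (sh_nonneg hR.b_nonneg Q) (sh_nonneg hR.D_nonneg Q)
    have hC1' : 1 ≤ C := by
      have := hself.2.1
      by_contra hcon
      rw [not_le] at hcon
      nlinarith
    -- every index of the set has threshold in the window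
    have hwin : ∀ j ∈ {j | j < n ∧ Q ∉ Intr (κ0 * (1 / 2) ^ j) a D b nb},
        j < n ∧ s ≤ (C * C) * (κ0 * (1 / 2) ^ j * a Q) ∧
          κ0 * (1 / 2) ^ j * a Q ≤ (C * C) * s := by
      intro j hj
      obtain ⟨hjn, hI⟩ := hj
      refine ⟨hjn, ?_⟩
      set κ := κ0 * (1 / 2) ^ j with hκdef
      have hκ : 0 < κ := by positivity
      simp only [Intr, mem_ofPred_eq, not_or, not_forall, not_not] at hI
      obtain ⟨⟨Q1, hQ1, hB1⟩, ⟨Q2, hQ2, hA2⟩⟩ := hI
      obtain ⟨-, p1, p2, p3, p4⟩ := part2 Q hQ Q1 hQ1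
      obtain ⟨-, q1, q2, q3, q4⟩ := part2 Q hQ Q2 hQ2
      simp only [TyA, mem_ofPred_eq, not_le] at hB1 hA2
      constructor
      · calc s ≤ C * (sh b Q2 + sh D Q2) := q4
          _ ≤ C * (κ * a Q2) := by gcongr
          _ ≤ C * (κ * (C * a Q)) := by gcongr
          _ = _ := by ring
      · calc κ * a Q ≤ κ * (C * a Q1) := by gcongr
          _ = C * (κ * a Q1) := by ring
          _ ≤ C * (sh b Q1 + sh D Q1) := by gcongr
          _ ≤ C * (C * s) := by gcongr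
          _ = _ := by ring
    rcases hs0.lt_or_eq with hs1 | hs1
    · exact ncard_window hκ0 hs1 (by positivity) hnI haQ _ hwin
    · have hE : {j | j < n ∧ Q ∉ Intr (κ0 * (1 / 2) ^ j) a D b nb} = ∅ := by
        rw [Set.eq_empty_iff_forall_notMem]
        intro j hj
        obtain ⟨-, -, h3⟩ := hwin j hj
        rw [← hs1, mul_zero] at h3
        have : 0 < κ0 * (1 / 2) ^ j * a Q := by positivity
        linarith
      rw [hE, Set.ncard_empty]
      exact Nat.zero_le _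
  · -- tops of class III are solid
    intro κ δ m TG Ct hCt hδ1 hδ2 hθC htail P hP
    obtain ⟨hat, hgrow, hTG, hDl, -⟩ := hP
    have h1 := htail P hgrow
    have hCt0 : 0 < Ct := by linarith
    have h2 : at' P ≤ 2 * Ct * ah P := by
      have h3 : Ct * TG P ≤ Ct * (δ * at' P) := by gcongr
      have h4 : Ct * (δ * at' P) ≤ 1 / 2 * at' P := by nlinarith
      nlinarith
    have hah : 0 < ah P := by
      by_contra hcon
      rw [not_lt] at hcon
      have : 2 * Ct * ah P ≤ 0 := mul_nonpos_of_nonneg_of_nonpos (by positivity) hcon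
      linarith
    constructor
    · rintro ⟨i, hi1, hi2⟩
      have h5 : (2 : ℝ) ^ (-(γ * i)) * at' (up i P) ≤ at' P := by
        have e2 : (2 : ℝ) ^ (-(γ * i)) * (2 : ℝ) ^ (γ * i) = 1 := by
          rw [← Real.rpow_add (by norm_num)]; simp
        calc (2 : ℝ) ^ (-(γ * i)) * at' (up i P)
            ≤ (2 : ℝ) ^ (-(γ * i)) * ((2 : ℝ) ^ (γ * i) * at' P) := by
              have := hgrow i; gcongr
          _ = at' P := by rw [← mul_assoc, e2, one_mul]
      have h6 : ah P ≤ θ * (2 * Ct * ah P) := by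
        calc ah P ≤ θ * ((2 : ℝ) ^ (-(γ * i)) * at' (up i P)) := hi2
          _ ≤ θ * (2 * Ct * ah P) := mul_le_mul_of_nonneg_left (h5.trans h2) hθ.le
      have h7 : θ * (2 * Ct * ah P) = (θ * (4 * Ct)) * (ah P / 2) := by ring
      rw [h7] at h6
      have h8 : (θ * (4 * Ct)) * (ah P / 2) ≤ 1 * (ah P / 2) := by gcongr
      linarith
    · intro l
      have h5 := hDl l
      have h6 := hR.ah_le P
      by_cases hδ : 0 ≤ δ
      · calc D (up l P) ≤ δ * (2 : ℝ) ^ ((l : ℝ) / 8) * at' P := h5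
          _ ≤ δ * (2 : ℝ) ^ ((l : ℝ) / 8) * (2 * Ct * a P) := by
              gcongr; exact h2.trans (by gcongr)
          _ = (2 * (Ct * δ)) * ((2 : ℝ) ^ ((l : ℝ) / 8) * a P) := by ring
          _ ≤ d1 * ((2 : ℝ) ^ ((l : ℝ) / 8) * a P) := by
              have := hR.a_nonneg P
              gcongr
              linarith
          _ = _ := by ring
      · exfalso
        rw [not_le] at hδ
        have h7 := hR.D_nonneg (up l P)
        have h8 : δ * (2 : ℝ) ^ ((l : ℝ) / 8) * at' P < 0 := by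
          apply mul_neg_of_neg_of_pos _ hat
          exact mul_neg_of_neg_of_pos hδ (by positivity)
        linarith

end

end TG
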