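import Pool.Agent.TG.UUc

/-!
# Module UU (10.2): two planes with small gains are close to each other
-/

open MeasureTheory Metric Set TrI Filter
open scoped InnerProductSpace ContDiff Topology

set_option linter.unusedSectionVars false

namespace TG

noncomputable section

namespace UUm

variable {d : ℕ}

lemma XX_nonneg {J : ℕ} {M : ℝ} {β : Sp d → ℝ} (hβ : Kit J M β) (ε : ℝ) (μ : Measure (Sp d))
    (n : Sp d) (y : Sp d) : 0 ≤ XX β ε μ n 1 y := by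
  have h1 : 0 ≤ tav (X1 β ε μ n) 1 y := tav_nonneg (fun t y _ => X1_nonneg hβ ε μ n t y) y
  have h2 : 0 ≤ tav (X2 μ n) 1 y := tav_nonneg (fun t y ht => X2_nonneg μ n ht y) y
  have h3 : 0 ≤ tav (X3 β ε μ n) 1 y := tav_nonneg (fun t y _ => X3_nonneg hβ ε μ n t y) y
  unfold XX; linarith

/-- Lipschitz bound from a gradient bound -/
lemma lip_of {H : Sp d → ℝ} (hH : ContDiff ℝ ∞ H) {R L : ℝ}
    (hb : ∀ y : Sp d, ‖y‖ ≤ R → ‖iteratedFDeriv ℝ 1 H y‖ ≤ L) (x y : Sp d) (hx : ‖x‖ ≤ R)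
    (hy : ‖y‖ ≤ R) : |H y - H x| ≤ L * ‖y - x‖ := by
  have h1 : ∀ z ∈ closedBall (0 : Sp d) R, DifferentiableAt ℝ H z := fun z _ =>
    (hH.differentiable (by simp)).differentiableAt
  have h2 : ∀ z ∈ closedBall (0 : Sp d) R, ‖fderiv ℝ H z‖ ≤ L := fun z hz => by
    rw [← norm_iteratedFDeriv_one]
    exact hb z (by simpa using hz)
  have h3 := (convex_closedBall (0 : Sp d) R).norm_image_sub_le_of_norm_fderiv_le h1 h2
    (show x ∈ closedBall (0 : Sp d) R by simpa using hx)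
    (show y ∈ closedBall (0 : Sp d) R by simpa using hy)
  rwa [Real.norm_eq_abs] at h3

end UUm

open UUm in
/-- MODULE UU -/
theorem stmtUU (h : StmtTH) (hUB : StmtUB) : StmtUU := by
  intro d J hd hJ M C' ε p0 A c R0 hC' hε hε1 hF hR0
  obtain ⟨k, rfl⟩ : ∃ k, d = k + 1 := ⟨d - 1, by omega⟩
  obtain ⟨C, hC, hTH⟩ := MO.getTH h (k + 1) 0 hd C' hC'
  obtain ⟨CB, hCB, hB⟩ := hUB (k + 1) 1 hd M C' ε p0 A hC' hε (by linarith) hF.p0_pos hF.p0_le hF.A_ge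
  obtain ⟨Cp, hCp, hpl⟩ := PF.bound k (R0 + 1)
  have hA := hF.A_ge
  have hc := hF.c_pos
  have hk : (1 : ℝ) ≤ k := by
    have : 1 ≤ k := by omega
    exact_mod_cast this
  have hR32 : 32 ≤ R0 := by push_cast at hR0; linarith
  have hsC := Real.sqrt_pos.2 hC
  have hV : 0 < Cv (k + 1) C R0 := by unfold Cv; positivity
  set LH : ℝ := CB * Cv (k + 1) C R0 with hLHe
  have hLH : 0 < LH := by positivity
  set K : ℝ := CP k C R0 c CB LH A with hK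
  refine ⟨Cp * (2 + 2 * (2 * R0 + 2) ^ 2) * |K| + 1, by positivity, ?_⟩
  intro β hβ μ hμ n n' s s' hn hn' hs hs'
  have hT := hTH μ hμ
  have hv0 := hT.vpos one_pos (0 : Sp (k + 1))
  obtain ⟨-, -, -, -, hq, -, -, -, -, hHn, hmu, -⟩ := hB β (kit_mono (by omega) hβ) μ hμ
  obtain ⟨hH, hHb⟩ := hHn n hn
  obtain ⟨hH', hHb'⟩ := hHn n' hn'
  have hH0 : ∀ y, 0 ≤ Hn β ε p0 A μ n 1 y := fun y =>
    (mul_nonneg hc.le (XX_nonneg hβ ε μ n y)).trans (hF.gain β hβ μ hμ n hn y)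
  have hH0' : ∀ y, 0 ≤ Hn β ε p0 A μ n' 1 y := fun y =>
    (mul_nonneg hc.le (XX_nonneg hβ ε μ n' y)).trans (hF.gain β hβ μ hμ n' hn' y)
  have hLip : ∀ x y : Sp (k + 1), ‖x‖ ≤ 2 * R0 → ‖y‖ ≤ 2 * R0 →
      |Hn β ε p0 A μ n 1 y - Hn β ε p0 A μ n 1 x| ≤ LH * vv μ 1 0 * ‖y - x‖ := by
    intro x y hx hy
    refine lip_of hH (R := 2 * R0) (fun z hz => ?_) x y hx hy
    refine (hHb 1 le_rfl z).trans ?_
    have e1 := (v_cmp (μ := μ) hC hT (R0 := R0) (by linarith) (r := 1) (by norm_num) (by norm_num) hz).1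
    rw [hLHe, mul_assoc]
    exact mul_le_mul_of_nonneg_left e1 hCB.le
  have hdich : ∀ x, c * vv μ 1 x ≤ Hn β ε p0 A μ n 1 x ∨
      vv μ 1 x ^ 2 ≤ CB * (μ (ball x A)).toReal := by
    intro x
    rcases le_or_gt (qq A μ 1 x) p0 with h1 | h1
    · exact Or.inl (hF.far β hβ μ hμ n hn x h1).1
    · exact Or.inr (hmu x (by linarith [hF.p0_pos]))
  obtain ⟨σ, hσ, hσ0⟩ : ∃ σ : ℝ, σ ^ 2 = 1 ∧ 0 ≤ σ * ⟪n, n'⟫_ℝ := by
    rcases le_total 0 ⟪n, n'⟫_ℝ with h1 | h1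
    · exact ⟨1, by norm_num, by linarith⟩
    · exact ⟨-1, by norm_num, by linarith⟩
  obtain ⟨g, hg⟩ : ∃ g : ℝ, g = σ * ⟪n, n'⟫_ℝ := ⟨_, rfl⟩
  have hg0 : 0 ≤ g := hg ▸ hσ0
  have hg1 : g ≤ 1 := by
    have e1 : g ^ 2 ≤ 1 := by
      have e2 := abs_real_inner_le_norm n n'
      rw [hn, hn', mul_one] at e2
      have e3 : ⟪n, n'⟫_ℝ ^ 2 ≤ 1 := by rw [← sq_abs]; nlinarith [abs_nonneg ⟪n, n'⟫_ℝ]
      rw [hg, mul_pow, hσ, one_mul]; exact e3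
    nlinarith
  have hcore := L_core h hd hC' hμ hC hT hR32 hc hA hCB hLH hβ hε hε1 hn hn' hs hs' hg0 hg1 hσ hg
    hH.continuous hH0 (hF.gain β hβ μ hμ n hn) hH'.continuous hH0' (hF.gain β hβ μ hμ n' hn') hLip hdich
  rw [← hK] at hcore
  set P1 := plInt n s (fun x => zR (2 * R0 - 1) x * Hn β ε p0 A μ n 1 x) with hP1
  set P2 := plInt n' s' (fun x => zR (2 * R0 - 1) x * Hn β ε p0 A μ n' 1 x) with hP2
  have hP1n : 0 ≤ P1 := pl_nonneg fun x => mul_nonneg (zR_nonneg _ _) (hH0 x)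
  have hP2n : 0 ≤ P2 := pl_nonneg fun x => mul_nonneg (zR_nonneg _ _) (hH0' x)
  set w : Sp (k + 1) := g • n - σ • n' with hw
  set l0 := mm n n' s s' g σ (s • n) with hl0
  -- the left side
  have hsn : ⟪n, s • n⟫_ℝ = s := by
    rw [inner_smul_right, real_inner_self_eq_norm_sq, hn]; ring
  have hxn : ‖s • n‖ ≤ R0 + 1 := by rw [norm_smul, hn, mul_one, Real.norm_eq_abs]; exact hs
  have hL1 : plInt n s (fun x => zR R0 x * (⟪n', x⟫_ℝ - s') ^ 2) =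
      plInt n s (fun x => zR R0 x * (l0 + ⟪x - s • n, w⟫_ℝ) ^ 2) := by
    refine pl_congr hn fun x hx => ?_
    have e1 := mm_diff n n' s s' g σ x (s • n)
    rw [← hw, ← hl0] at e1
    have e2 : l0 + ⟪x - s • n, w⟫_ℝ = mm n n' s s' g σ x := by rw [e1]; ring
    rw [e2]
    unfold mm MO.ht
    rw [real_inner_comm n x, hx, real_inner_comm n' x]
    have e3 : (g * (s - s) - σ * (⟪n', x⟫_ℝ - s')) ^ 2 = σ ^ 2 * (⟪n', x⟫_ℝ - s') ^ 2 := by ring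
    rw [e3, hσ, one_mul]
  have hL2 : |plInt n s (fun x => zR R0 x * (l0 + ⟪x - s • n, w⟫_ℝ) ^ 2)| ≤
      Cp * ((2 + 2 * (2 * R0 + 2) ^ 2) * (‖w‖ ^ 2 + l0 ^ 2)) := by
    refine hpl n hn _ _ ?_ ?_ ?_ s
    · exact (zR_cont R0).mul (by fun_prop)
    · intro y
      rw [abs_mul, abs_of_nonneg (zR_nonneg _ _), abs_of_nonneg (sq_nonneg _)]
      rcases le_or_gt (R0 + 1) ‖y‖ with hy | hy
      · rw [zR_zero hy, zero_mul]; positivity
      · have e1 : |⟪y - s • n, w⟫_ℝ| ≤ (2 * R0 + 2) * ‖w‖ := by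
          refine (abs_real_inner_le_norm _ _).trans ?_
          refine mul_le_mul_of_nonneg_right ?_ (norm_nonneg _)
          refine (norm_sub_le _ _).trans ?_
          linarith
        have e2 : ⟪y - s • n, w⟫_ℝ ^ 2 ≤ (2 * R0 + 2) ^ 2 * ‖w‖ ^ 2 := by
          rw [← sq_abs, ← mul_pow]
          exact pow_le_pow_left₀ (abs_nonneg _) e1 2
        have e3 : (l0 + ⟪y - s • n, w⟫_ℝ) ^ 2 ≤ 2 * l0 ^ 2 + 2 * ⟪y - s • n, w⟫_ℝ ^ 2 := by
          nlinarith [sq_nonneg (l0 - ⟪y - s • n, w⟫_ℝ)]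
        have e4 : zR R0 y * (l0 + ⟪y - s • n, w⟫_ℝ) ^ 2 ≤ 1 * (l0 + ⟪y - s • n, w⟫_ℝ) ^ 2 :=
          mul_le_mul_of_nonneg_right (zR_le_one _ _) (sq_nonneg _)
        have e5 : 0 ≤ (2 * R0 + 2) ^ 2 * l0 ^ 2 := by positivity
        have e6 : 0 ≤ ‖w‖ ^ 2 := by positivity
        nlinarith
    · intro y hy
      have e1 : ‖y‖ < R0 + 1 := by
        by_contra h1
        exact hy (by simp only [zR_zero (not_lt.1 h1), zero_mul])
      exact (PF.norm_tang_le hn y).trans e1.le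
  rw [hL1]
  have hKP : K * (P1 + P2) ≤ |K| * (P1 + P2) := mul_le_mul_of_nonneg_right (le_abs_self K) (by linarith)
  calc vv μ 1 0 * plInt n s (fun x => zR R0 x * (l0 + ⟪x - s • n, w⟫_ℝ) ^ 2) ≤
        vv μ 1 0 * (Cp * ((2 + 2 * (2 * R0 + 2) ^ 2) * (‖w‖ ^ 2 + l0 ^ 2))) :=
        mul_le_mul_of_nonneg_left ((le_abs_self _).trans hL2) hv0.le
    _ = Cp * (2 + 2 * (2 * R0 + 2) ^ 2) * (vv μ 1 0 * (‖w‖ ^ 2 + l0 ^ 2)) := by ring
    _ ≤ Cp * (2 + 2 * (2 * R0 + 2) ^ 2) * (|K| * (P1 + P2)) :=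
        mul_le_mul_of_nonneg_left (hcore.trans hKP) (by positivity)
    _ ≤ (Cp * (2 + 2 * (2 * R0 + 2) ^ 2) * |K| + 1) * (P1 + P2) := by nlinarith

end

end TG
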