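import Pool.Agent.TG.MO
import Pool.Agent.TG.WA
import Pool.Agent.TG.GP
import Pool.Agent.TG.PF
import Pool.Agent.TG.Stmts10

/-!
# Module UU, tools: second moments of the height, lower bounds of plane integrals
-/

open MeasureTheory Metric Set TrI Filter
open scoped InnerProductSpace ContDiff Topology

set_option linter.unusedSectionVars false

namespace TG

noncomputable section

namespace UUm

variable {d : ℕ}

/-- the weighted integral -/
def EE (μ : Measure (Sp d)) (F : Sp d → ℝ) (y : Sp d) : ℝ := ∫ η, F η * MO.K 1 (y - η) ∂μ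

lemma EE_nonneg (μ : Measure (Sp d)) {F : Sp d → ℝ} (hF : ∀ η, 0 ≤ F η) (y : Sp d) :
    0 ≤ EE μ F y :=
  integral_nonneg fun η => mul_nonneg (hF η) (MO.K_pos one_pos _).le

lemma EE_harnack {μ : Measure (Sp d)} {F : Sp d → ℝ} (hF : ∀ η, 0 ≤ F η) {y y' : Sp d}
    (hi : Integrable (fun η => F η * MO.K 1 (y - η)) μ)
    (hi' : Integrable (fun η => F η * MO.K 1 (y' - η)) μ) :
    EE μ F y' ≤ (1 + ‖y - y'‖) ^ (d + 4) * EE μ F y := by
  unfold EE
  rw [← integral_const_mul]
  refine integral_mono hi' (hi.const_mul _) fun η => ?_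
  have h := MO.K_harnack one_pos (y - η) (y' - η)
  rw [show y - η - (y' - η) = y - y' by abel, div_one] at h
  calc F η * MO.K 1 (y' - η) ≤ F η * ((1 + ‖y - y'‖) ^ (d + 4) * MO.K 1 (y - η)) :=
        mul_le_mul_of_nonneg_left h (hF η)
    _ = _ := by ring

/-- the integral of the tent -/
def T0 : ℝ := ∫ r in (1 / 2 : ℝ)..2, tau 1 r

lemma tau_pos {r : ℝ} (h1 : 1 / 2 < r) (h2 : r < 2) : 0 < tau 1 r := by
  unfold tau
  refine lt_max_of_lt_right (lt_min ?_ ?_)
  · nlinarith
  · nlinarith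

lemma T0_pos : 0 < T0 := by
  unfold T0
  refine intervalIntegral.intervalIntegral_pos_of_pos_on ?_ (fun r hr => tau_pos hr.1 hr.2)
    (by norm_num)
  exact MO.tau_cont.intervalIntegrable _ _

section main

variable (h : StmtTH) (hd : 2 ≤ d) {C' : ℝ} (hC' : 0 < C') {μ : Measure (Sp d)} (hμ : Gro C' μ)

include h hd hC' hμ

lemma int_h2 {n : Sp d} (hn : ‖n‖ = 1) (s : ℝ) (y : Sp d) :
    Integrable (fun η => MO.ht n s η ^ 2 * MO.K 1 (y - η)) μ :=
  MO.hK_int h hd hC' hμ n hn s 2 (by norm_num) (r := 1) (by norm_num) (by norm_num) y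

/-- the second moment at a fixed time bounds the weighted integral -/
lemma EE_le_Mo {J : ℕ} {C : ℝ} (hC : 0 < C) (hT : MO.THd J C μ) {n : Sp d} (hn : ‖n‖ = 1) (s : ℝ)
    {r : ℝ} (h1 : 1 / 2 ≤ r) (h2 : r ≤ 2) (y : Sp d) :
    EE μ (fun η => MO.ht n s η ^ 2) y ≤
      4 ^ (d + 5) * Real.sqrt C * vv μ 1 y * Mo μ n s 2 r y := by
  have hr0 : 0 < r := by linarith
  have hv := hT.vpos hr0 y
  have hv1 := hT.vpos one_pos y
  have e : Mo μ n s 2 r y = (∫ η, MO.ht n s η ^ 2 * MO.K r (y - η) ∂μ) / vv μ r y := by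
    unfold Mo MO.K MO.ht
    congr 1
    congr 1
    funext η
    ring
  have i1 := MO.hK_int h hd hC' hμ n hn s 2 (by norm_num) h1 h2 y
  have e1 : EE μ (fun η => MO.ht n s η ^ 2) y ≤
      4 ^ (d + 5) * ∫ η, MO.ht n s η ^ 2 * MO.K r (y - η) ∂μ := by
    unfold EE
    rw [← integral_const_mul]
    refine integral_mono (int_h2 h hd hC' hμ hn s y) (i1.const_mul _) fun η => ?_
    have h5 := MO.K_time (r := 1) (s := r) one_pos (by linarith) (by linarith) (y - η)
    calc MO.ht n s η ^ 2 * MO.K 1 (y - η) ≤ MO.ht n s η ^ 2 * (4 ^ (d + 5) * MO.K r (y - η)) :=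
          mul_le_mul_of_nonneg_left h5 (sq_nonneg _)
      _ = _ := by ring
  have e2 : (∫ η, MO.ht n s η ^ 2 * MO.K r (y - η) ∂μ) = Mo μ n s 2 r y * vv μ r y := by
    rw [e]; field_simp
  have e3 := MO.v_time hT hC (r := r) (s := 1) one_pos (by linarith) (by linarith) y
  have hM : 0 ≤ Mo μ n s 2 r y := by
    rw [e]
    exact div_nonneg (integral_nonneg fun η => mul_nonneg (sq_nonneg _) (MO.K_pos hr0 _).le) hv.le
  rw [e2] at e1
  refine e1.trans ?_
  calc (4 : ℝ) ^ (d + 5) * (Mo μ n s 2 r y * vv μ r y) ≤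
      4 ^ (d + 5) * (Mo μ n s 2 r y * (Real.sqrt C * vv μ 1 y)) := by gcongr
    _ = _ := by ring

/-- the averaged second moment bounds the weighted integral -/
lemma EE_le_tav {J : ℕ} {C : ℝ} (hC : 0 < C) (hT : MO.THd J C μ) {n : Sp d} (hn : ‖n‖ = 1) (s : ℝ)
    (y : Sp d) :
    T0 * EE μ (fun η => MO.ht n s η ^ 2) y ≤
      4 ^ (d + 5) * Real.sqrt C * vv μ 1 y * tav (Mo μ n s 2) 1 y := by
  have := hμ.fin
  have h1 := MO.Fk_int hT hC n s 2 (MO.Bk_int μ n hn s 2 (by norm_num)) y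
  unfold MO.nu at h1
  have h2 := h1.integral_prod_left
  have hI : Integrable (fun r => tau 1 r * Mo μ n s 2 r y)
      ((volume : Measure ℝ).restrict (Ioc (1 / 2) 2)) := by
    refine h2.congr (Eventually.of_forall fun r => ?_)
    exact (MO.Mo_eq n s 2 r y).symm
  unfold tav T0
  rw [mul_one, intervalIntegral.integral_of_le (by norm_num),
    intervalIntegral.integral_of_le (by norm_num), ← integral_mul_const, ← integral_const_mul]
  refine setIntegral_mono_on ?_ (hI.const_mul _) measurableSet_Ioc fun r hr => ?_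
  · have hc : Continuous fun r : ℝ => tau 1 r * EE μ (fun η => MO.ht n s η ^ 2) y :=
      MO.tau_cont.mul continuous_const
    exact (hc.integrableOn_Icc (a := 1 / 2) (b := 2)).mono_set Ioc_subset_Icc_self
  · have e1 := EE_le_Mo h hd hC' hμ hC hT hn s hr.1.le hr.2 y
    have e2 := MO.tau_nonneg r
    calc tau 1 r * EE μ (fun η => MO.ht n s η ^ 2) y ≤
          tau 1 r * (4 ^ (d + 5) * Real.sqrt C * vv μ 1 y * Mo μ n s 2 r y) :=
          mul_le_mul_of_nonneg_left e1 e2
      _ = _ := by ring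

/-- the gain on the plane bounds the weighted second moment -/
lemma EE_le_XX {J : ℕ} {C : ℝ} (hC : 0 < C) (hT : MO.THd J C μ) {J' : ℕ} {M : ℝ} {β : Sp d → ℝ}
    (hβ : Kit J' M β) (ε : ℝ) {n : Sp d} (hn : ‖n‖ = 1) {s : ℝ}
    {y : Sp d} (hy : ⟪y, n⟫_ℝ = s) :
    T0 * EE μ (fun η => MO.ht n s η ^ 2) y ≤
      4 ^ (d + 5) * Real.sqrt C * vv μ 1 y * XX β ε μ n 1 y := by
  refine (EE_le_tav h hd hC' hμ hC hT hn s y).trans ?_
  have h1 := MO.tavX2 h hd hC' hμ n hn s y
  rw [hy, sub_self] at h1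
  have h2 : tav (Mo μ n s 2) 1 y = tav (X2 μ n) 1 y := by rw [h1]; ring
  have h3 : 0 ≤ tav (X1 β ε μ n) 1 y := tav_nonneg (fun t y _ => X1_nonneg hβ ε μ n t y) y
  have h4 : 0 ≤ tav (X3 β ε μ n) 1 y := tav_nonneg (fun t y _ => X3_nonneg hβ ε μ n t y) y
  rw [h2]
  refine mul_le_mul_of_nonneg_left ?_ ?_
  · unfold XX; linarith
  · have := (hT.vpos one_pos y).le
    positivity

end main

/-! ## plane integrals -/

/-- the constant in the lower bound -/
def vb (n : ℕ) (r : ℝ) : ℝ := (volume (closedBall (0 : Sp n) r)).toReal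

lemma vb_pos (n : ℕ) {r : ℝ} (hr : 0 < r) : 0 < vb n r :=
  ENNReal.toReal_pos (measure_closedBall_pos _ _ hr).ne' measure_closedBall_lt_top.ne

/-- lower bound of plane integrals of nonnegative functions -/
lemma pl_lower (m : ℕ) {n : Sp (m + 1)} (hn : ‖n‖ = 1) {s : ℝ} {F : Sp (m + 1) → ℝ}
    (hc : Continuous F) (hcs : HasCompactSupport F) (h0 : ∀ y, 0 ≤ F y) {x : Sp (m + 1)}
    (hx : ⟪n, x⟫_ℝ = s) {r κ : ℝ}
    (hκ : ∀ y, ⟪n, y⟫_ℝ = s → ‖y - x‖ ≤ r → κ ≤ F y) : κ * vb m r ≤ plInt n s F := by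
  obtain ⟨ρ, hρ⟩ := PF.cs_tang hn hcs
  have hi := PF.integrable_pl hn hc hρ s
  have hxt : tang n x ∈ (Submodule.span ℝ {n})ᗮ := by
    rw [Submodule.mem_orthogonal_singleton_iff_inner_right]
    unfold tang
    rw [inner_sub_right, inner_smul_right, real_inner_self_eq_norm_sq, hn]
    simp
  set u : PF.Pl n := ⟨tang n x, hxt⟩ with hu
  have hxe : x = s • n + (u : Sp (m + 1)) := by
    rw [hu]
    simp only [tang, hx]
    abel
  have h1 : (∫ y in closedBall u r, F (s • n + (y : Sp (m + 1)))) ≤ plInt n s F := by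
    unfold plInt
    exact setIntegral_le_integral hi (Eventually.of_forall fun y => h0 _)
  refine le_trans ?_ h1
  have hfin : volume (closedBall u r) ≠ ⊤ := measure_closedBall_lt_top.ne
  have hvol : (volume (closedBall u r)).toReal = vb m r := by
    have h2 : volume (closedBall u r) = volume (closedBall (0 : PF.Pl n) r) := by
      have h3 : (fun y : PF.Pl n => y - u) ⁻¹' (closedBall (0 : PF.Pl n) r) = closedBall u r := by
        ext y
        simp [dist_eq_norm]
      rw [← h3]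
      exact (measurePreserving_sub_right volume u).measure_preimage
        (measurableSet_closedBall).nullMeasurableSet
    rw [h2, PF.vol m n hn r]
    rfl
  have h4 : (∫ _y in closedBall u r, κ) = κ * vb m r := by
    rw [setIntegral_const, smul_eq_mul, Measure.real, hvol, mul_comm]
  rw [← h4]
  refine setIntegral_mono_on (integrableOn_const hfin) hi.integrableOn measurableSet_closedBall
    fun y hy => ?_
  refine hκ _ ?_ ?_
  · rw [inner_add_right, inner_smul_right, real_inner_self_eq_norm_sq, hn, PF.inner_pl]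
    simp
  · rw [hxe, show s • n + (y : Sp (m + 1)) - (s • n + (u : Sp (m + 1))) = ((y - u : PF.Pl n) : Sp (m + 1)) by
      push_cast; abel]
    have : ‖y - u‖ ≤ r := by
      rw [← dist_eq_norm]; exact hy
    exact this

end UUm

end

end TG
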