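import Pool.Agent.TG.UUa

/-!
# Module UU: lower bound of the tangential gradient
-/

open MeasureTheory Metric Set TrI Filter
open scoped InnerProductSpace ContDiff Topology

set_option linter.unusedSectionVars false

namespace TG

noncomputable section

namespace UUm

variable {d : ℕ}

lemma kit_mono {J J' : ℕ} (hJ : J' ≤ J) {M : ℝ} {β : Sp d → ℝ} (h : Kit J M β) : Kit J' M β where
  prof := { smooth := h.prof.smooth.of_le (by exact_mod_cast hJ)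
            nonneg := h.prof.nonneg
            mono := h.prof.mono
            supp := h.prof.supp
            int := h.prof.int
            der := fun j hj => h.prof.der j (hj.trans hJ) }
  smooth1 := h.smooth1.of_le (by exact_mod_cast hJ)
  smooth2 := h.smooth2.of_le (by exact_mod_cast hJ)
  supp1 := h.supp1
  supp2 := h.supp2
  grad1 := h.grad1
  grad2 := h.grad2
  nonneg1 := h.nonneg1
  nonneg2 := h.nonneg2
  le1 := h.le1
  le2 := h.le2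
  mono1 := h.mono1
  mono2 := h.mono2
  der1 := fun j hj => h.der1 j (hj.trans hJ)
  der2 := fun j hj => h.der2 j (hj.trans hJ)

variable {μ : Measure (Sp d)}

lemma K1_val (t : ℝ) (X w : Sp d) :
    GPx.K1 t 0 X w 0 = -(d * t * (⟪X, w⟫_ℝ * GPx.ip (d + 2) (t ^ 2 + ‖X‖ ^ 2))) := by
  simp only [GPx.K1, GPx.lT, GPx.lP, GPx.lQ, zero_mul, add_zero, zero_add, mul_zero, zero_smul]
  ring

/-- the derivative of the potential -/
lemma deriv_th (hP : GPx.Pot μ) {t : ℝ} (ht : 0 < t) (y w : Sp d) :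
    2 * vv μ t y * fderiv ℝ (vv μ t) y w =
      -(d * t * ∫ η, ⟪y - η, w⟫_ℝ * GPx.ip (d + 2) (t ^ 2 + ‖y - η‖ ^ 2) ∂μ) := by
  have := hP.fin
  have h1 := (GPx.deriv_K0 (μ := μ) (x := y) (w2 := w) ht (GPx.zero_mem_lU (w1 := 0) ht)).2
  have h2 : HasDerivAt (fun s : ℝ => vv μ t (y + s • w)) (fderiv ℝ (vv μ t) y w) 0 := by
    have h3 : HasFDerivAt (vv μ t) (fderiv ℝ (vv μ t) y) (y + (0 : ℝ) • w) := by
      rw [zero_smul, add_zero]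
      exact ((hP.smoothx ht).differentiable (by simp)).differentiableAt.hasFDerivAt
    exact h3.comp_hasDerivAt (0 : ℝ) (GPx.hasDerivAt_line y w 0)
  have h3 := h2.mul h2
  have h4 : ((fun s : ℝ => vv μ t (y + s • w)) * fun s : ℝ => vv μ t (y + s • w)) =
      fun s => ∫ η, GPx.K0 t 0 (y - η) w s ∂μ := by
    funext s
    rw [← GPx.th_line, Pi.mul_apply, mul_zero, add_zero, ← hP.vsq ht, sq]
  rw [h4] at h3
  have h5 := h3.unique h1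
  simp only [zero_smul, add_zero] at h5
  have h6 : (∫ η, GPx.K1 t 0 (y - η) w 0 ∂μ) =
      -(d * t * ∫ η, ⟪y - η, w⟫_ℝ * GPx.ip (d + 2) (t ^ 2 + ‖y - η‖ ^ 2) ∂μ) := by
    rw [← integral_const_mul, ← integral_neg]
    refine integral_congr_ae (Eventually.of_forall fun η => ?_)
    exact K1_val t (y - η) w
  rw [← h6, ← h5]
  ring

lemma K_ip {t : ℝ} (X : Sp d) :
    MO.K t X = t * GPx.ip (d + 4) (t ^ 2 + ‖X‖ ^ 2) := by
  rw [MO.K_eq]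
  unfold GPx.ip MO.R
  rw [div_eq_mul_inv]

lemma ip4_le {t : ℝ} (h1 : 1 / 2 ≤ t) (h2 : t ≤ 2) (X : Sp d) :
    GPx.ip (d + 4) (t ^ 2 + ‖X‖ ^ 2) ≤ 2 * 4 ^ (d + 5) * MO.K 1 X := by
  have h3 := MO.K_time (r := t) (s := 1) (by linarith) (by linarith) (by linarith) X
  rw [K_ip] at h3
  have h4 := GPx.ip_nonneg (d + 4) (t ^ 2 + ‖X‖ ^ 2)
  nlinarith

lemma kk_ip (t : ℝ) (X : Sp d) : kk t X = t * GPx.ip d (t ^ 2 + ‖X‖ ^ 2) := by
  unfold kk GPx.ip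
  rw [div_eq_mul_inv]

lemma amgm {k : ℕ} {q θ m : ℝ} (hq : 0 < q) (hθ : 0 < θ) :
    |m| * GPx.ip (k + 2) q ≤ θ / 2 * GPx.ip k q + 1 / (2 * θ) * (m ^ 2 * GPx.ip (k + 4) q) := by
  have h1 := GPx.ip_add_two k hq
  have h2 := GPx.ip_add_two (k + 2) hq
  rw [show k + 2 + 2 = k + 4 from rfl] at h2
  have h3 := GPx.ip_nonneg (k + 4) q
  rw [← h1, ← h2]
  generalize GPx.ip (k + 4) q = u at *
  have h4 : 0 ≤ u * (θ * q - |m|) ^ 2 / (2 * θ) := by positivity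
  have h5 : u * (θ * q - |m|) ^ 2 / (2 * θ) =
      θ / 2 * (q * (q * u)) + 1 / (2 * θ) * (m ^ 2 * u) - |m| * (q * u) := by
    rw [← sq_abs m]; field_simp; ring
  linarith

/-- lower bound of the first moment -/
lemma mom_low (hP : GPx.Pot μ) {t : ℝ} (h1 : 1 / 2 ≤ t) (h2 : t ≤ 2) {x y w : Sp d}
    {a L v0 Cv cm A : ℝ} {m : Sp d → ℝ} (hmc : Continuous m)
    (hmi : Integrable (fun η => m η ^ 2 * MO.K 1 (y - η)) μ)
    (hw : ∀ η, ⟪y - η, w⟫_ℝ = L - m η) (ha : 0 < a) (hL : a ≤ |L|) (hyx : ‖y - x‖ ≤ 1)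
    (hA : 1 ≤ A) (hv0 : 0 < v0) (hCv : 0 < Cv) (hcm : 0 < cm) (hv : vv μ t y ≤ Cv * v0)
    (hnear : cm * v0 ^ 2 ≤ (μ (ball x A)).toReal) {c1 : ℝ} (hc1 : c1 = cm / (A + 3) ^ (d + 2))
    (hE : EE μ (fun η => m η ^ 2) y ≤
      c1 ^ 2 / (16 * Cv ^ 2 * 4 ^ (d + 5)) * (a ^ 2 * v0 ^ 2)) :
    a * (v0 ^ 2 * (c1 / 2)) ≤
      |∫ η, ⟪y - η, w⟫_ℝ * GPx.ip (d + 2) (t ^ 2 + ‖y - η‖ ^ 2) ∂μ| := by
  have := hP.fin
  have ht : 0 < t := by linarith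
  have hc1p : 0 < c1 := by rw [hc1]; positivity
  have i2 := hP.int_ip ht (d + 2) y
  have i0 := hP.int_ip ht d y
  set θ : ℝ := c1 / (4 * Cv ^ 2) * a with hθ
  have hθ0 : 0 < θ := by positivity
  -- the near part
  have n1 : a * (v0 ^ 2 * c1) ≤ a * ∫ η, GPx.ip (d + 2) (t ^ 2 + ‖y - η‖ ^ 2) ∂μ := by
    refine mul_le_mul_of_nonneg_left ?_ ha.le
    have e1 : (∫ η in ball x A, GPx.ip (d + 2) (t ^ 2 + ‖y - η‖ ^ 2) ∂μ) ≤
        ∫ η, GPx.ip (d + 2) (t ^ 2 + ‖y - η‖ ^ 2) ∂μ :=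
      setIntegral_le_integral i2 (Eventually.of_forall fun η => GPx.ip_nonneg _ _)
    refine le_trans ?_ e1
    have e2 : (∫ _η in ball x A, ((A + 3) ^ (d + 2))⁻¹ ∂μ) ≤
        ∫ η in ball x A, GPx.ip (d + 2) (t ^ 2 + ‖y - η‖ ^ 2) ∂μ := by
      refine setIntegral_mono_on (integrable_const _).integrableOn i2.integrableOn
        measurableSet_ball fun η hη => ?_
      have hη' : ‖η - x‖ < A := by rw [← dist_eq_norm]; exact hη
      have e3 : ‖y - η‖ ≤ A + 1 := by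
        have : y - η = (y - x) - (η - x) := by abel
        rw [this]
        refine (norm_sub_le _ _).trans ?_
        linarith
      have e4 : Real.sqrt (t ^ 2 + ‖y - η‖ ^ 2) ≤ A + 3 := by
        rw [Real.sqrt_le_left (by linarith)]
        nlinarith [norm_nonneg (y - η)]
      have e5 : 0 < Real.sqrt (t ^ 2 + ‖y - η‖ ^ 2) := Real.sqrt_pos.2 (by positivity)
      unfold GPx.ip
      gcongr
    refine le_trans ?_ e2
    rw [setIntegral_const, smul_eq_mul, Measure.real, hc1]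
    have e6 : 0 < (A + 3) ^ (d + 2) := by positivity
    calc v0 ^ 2 * (cm / (A + 3) ^ (d + 2)) = (cm * v0 ^ 2) * ((A + 3) ^ (d + 2))⁻¹ := by
          rw [div_eq_mul_inv]; ring
      _ ≤ _ := mul_le_mul_of_nonneg_right hnear (by positivity)
  -- the far part
  have hm4c : Continuous (fun η => m η ^ 2 * GPx.ip (d + 4) (t ^ 2 + ‖y - η‖ ^ 2)) :=
    (hmc.pow 2).mul (GPx.continuous_ipx ht _ y)
  have i4 : Integrable (fun η => m η ^ 2 * GPx.ip (d + 4) (t ^ 2 + ‖y - η‖ ^ 2)) μ := by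
    refine Integrable.mono' (hmi.const_mul (2 * 4 ^ (d + 5))) hm4c.aestronglyMeasurable
      (Eventually.of_forall fun η => ?_)
    rw [Real.norm_of_nonneg (mul_nonneg (sq_nonneg _) (GPx.ip_nonneg _ _))]
    have := ip4_le h1 h2 (y - η)
    nlinarith [sq_nonneg (m η)]
  have hm2c : Continuous (fun η => |m η| * GPx.ip (d + 2) (t ^ 2 + ‖y - η‖ ^ 2)) :=
    hmc.abs.mul (GPx.continuous_ipx ht _ y)
  have im : Integrable (fun η => |m η| * GPx.ip (d + 2) (t ^ 2 + ‖y - η‖ ^ 2)) μ := by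
    refine Integrable.mono' ((i0.const_mul (θ / 2)).add (i4.const_mul (1 / (2 * θ))))
      hm2c.aestronglyMeasurable (Eventually.of_forall fun η => ?_)
    rw [Real.norm_of_nonneg (mul_nonneg (abs_nonneg _) (GPx.ip_nonneg _ _))]
    exact amgm (by positivity) hθ0
  have f1 : (∫ η, |m η| * GPx.ip (d + 2) (t ^ 2 + ‖y - η‖ ^ 2) ∂μ) ≤
      θ / 2 * (∫ η, GPx.ip d (t ^ 2 + ‖y - η‖ ^ 2) ∂μ) +
        1 / (2 * θ) * ∫ η, m η ^ 2 * GPx.ip (d + 4) (t ^ 2 + ‖y - η‖ ^ 2) ∂μ := by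
    rw [← integral_const_mul, ← integral_const_mul, ← integral_add (i0.const_mul _) (i4.const_mul _)]
    refine integral_mono im ((i0.const_mul _).add (i4.const_mul _)) fun η => ?_
    exact amgm (by positivity) hθ0
  have f2 : (∫ η, GPx.ip d (t ^ 2 + ‖y - η‖ ^ 2) ∂μ) ≤ 2 * (Cv ^ 2 * v0 ^ 2) := by
    have e1 : th μ t y = t * ∫ η, GPx.ip d (t ^ 2 + ‖y - η‖ ^ 2) ∂μ := by
      unfold th
      rw [← integral_const_mul]
      refine integral_congr_ae (Eventually.of_forall fun η => ?_)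
      exact kk_ip t (y - η)
    have e2 := hP.vsq ht y
    have e3 := (hP.vpos ht y).le
    have e4 : vv μ t y ^ 2 ≤ (Cv * v0) ^ 2 := pow_le_pow_left₀ e3 hv 2
    rw [e2, e1] at e4
    have e5 : 0 ≤ ∫ η, GPx.ip d (t ^ 2 + ‖y - η‖ ^ 2) ∂μ := integral_nonneg fun η => GPx.ip_nonneg _ _
    nlinarith
  have f3 : (∫ η, m η ^ 2 * GPx.ip (d + 4) (t ^ 2 + ‖y - η‖ ^ 2) ∂μ) ≤
      2 * 4 ^ (d + 5) * (c1 ^ 2 / (16 * Cv ^ 2 * 4 ^ (d + 5)) * (a ^ 2 * v0 ^ 2)) := by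
    refine le_trans ?_ (mul_le_mul_of_nonneg_left hE (by positivity))
    unfold EE
    rw [← integral_const_mul]
    refine integral_mono i4 (hmi.const_mul _) fun η => ?_
    have := ip4_le h1 h2 (y - η)
    calc m η ^ 2 * GPx.ip (d + 4) (t ^ 2 + ‖y - η‖ ^ 2) ≤
          m η ^ 2 * (2 * 4 ^ (d + 5) * MO.K 1 (y - η)) := mul_le_mul_of_nonneg_left this (sq_nonneg _)
      _ = _ := by ring
  have f4 : (∫ η, |m η| * GPx.ip (d + 2) (t ^ 2 + ‖y - η‖ ^ 2) ∂μ) ≤ a * (v0 ^ 2 * (c1 / 2)) := by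
    have g1 : θ / 2 * (∫ η, GPx.ip d (t ^ 2 + ‖y - η‖ ^ 2) ∂μ) ≤ θ / 2 * (2 * (Cv ^ 2 * v0 ^ 2)) :=
      mul_le_mul_of_nonneg_left f2 (by positivity)
    have g2 : 1 / (2 * θ) * (∫ η, m η ^ 2 * GPx.ip (d + 4) (t ^ 2 + ‖y - η‖ ^ 2) ∂μ) ≤
        1 / (2 * θ) * (2 * 4 ^ (d + 5) * (c1 ^ 2 / (16 * Cv ^ 2 * 4 ^ (d + 5)) * (a ^ 2 * v0 ^ 2))) :=
      mul_le_mul_of_nonneg_left f3 (by positivity)
    have g3 : θ / 2 * (2 * (Cv ^ 2 * v0 ^ 2)) = a * (v0 ^ 2 * (c1 / 4)) := by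
      rw [hθ]; field_simp
    have g4 : 1 / (2 * θ) * (2 * 4 ^ (d + 5) * (c1 ^ 2 / (16 * Cv ^ 2 * 4 ^ (d + 5)) *
        (a ^ 2 * v0 ^ 2))) = a * (v0 ^ 2 * (c1 / 4)) := by
      rw [hθ]; field_simp; ring
    linarith
  -- assembly
  have s1 : (∫ η, ⟪y - η, w⟫_ℝ * GPx.ip (d + 2) (t ^ 2 + ‖y - η‖ ^ 2) ∂μ) =
      L * (∫ η, GPx.ip (d + 2) (t ^ 2 + ‖y - η‖ ^ 2) ∂μ) -
        ∫ η, m η * GPx.ip (d + 2) (t ^ 2 + ‖y - η‖ ^ 2) ∂μ := by
    have im' : Integrable (fun η => m η * GPx.ip (d + 2) (t ^ 2 + ‖y - η‖ ^ 2)) μ := by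
      refine Integrable.mono' im (hmc.mul (GPx.continuous_ipx ht _ y)).aestronglyMeasurable
        (Eventually.of_forall fun η => ?_)
      rw [norm_mul, Real.norm_eq_abs, Real.norm_of_nonneg (GPx.ip_nonneg _ _)]
    rw [← integral_const_mul, ← integral_sub (i2.const_mul _) im']
    refine integral_congr_ae (Eventually.of_forall fun η => ?_)
    simp only [hw]
    ring
  have s2 : |∫ η, m η * GPx.ip (d + 2) (t ^ 2 + ‖y - η‖ ^ 2) ∂μ| ≤ a * (v0 ^ 2 * (c1 / 2)) := by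
    refine le_trans ?_ f4
    rw [← Real.norm_eq_abs]
    refine (norm_integral_le_integral_norm _).trans (le_of_eq ?_)
    refine integral_congr_ae (Eventually.of_forall fun η => ?_)
    simp only [norm_mul, Real.norm_eq_abs, abs_of_nonneg (GPx.ip_nonneg _ _)]
  rw [s1]
  have s3 : 0 ≤ ∫ η, GPx.ip (d + 2) (t ^ 2 + ‖y - η‖ ^ 2) ∂μ :=
    integral_nonneg fun η => GPx.ip_nonneg _ _
  have s4 : a * (∫ η, GPx.ip (d + 2) (t ^ 2 + ‖y - η‖ ^ 2) ∂μ) ≤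
      |L * ∫ η, GPx.ip (d + 2) (t ^ 2 + ‖y - η‖ ^ 2) ∂μ| := by
    rw [abs_mul, abs_of_nonneg s3]
    exact mul_le_mul_of_nonneg_right hL s3
  have s5 := abs_sub_abs_le_abs_sub (L * ∫ η, GPx.ip (d + 2) (t ^ 2 + ‖y - η‖ ^ 2) ∂μ)
    (∫ η, m η * GPx.ip (d + 2) (t ^ 2 + ‖y - η‖ ^ 2) ∂μ)
  linarith

/-- lower bound of the tangential energy density -/
lemma tang_low (hd : 2 ≤ d) (hP : GPx.Pot μ) {t : ℝ} (h1 : 1 / 2 ≤ t) (h2 : t ≤ 2) {x y w n : Sp d}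
    (hnw : ⟪n, w⟫_ℝ = 0)
    {a L v0 Cv cm A : ℝ} (hwa : ‖w‖ ≤ a) {m : Sp d → ℝ} (hmc : Continuous m)
    (hmi : Integrable (fun η => m η ^ 2 * MO.K 1 (y - η)) μ)
    (hw : ∀ η, ⟪y - η, w⟫_ℝ = L - m η) (ha : 0 < a) (hL : a ≤ |L|) (hyx : ‖y - x‖ ≤ 1)
    (hA : 1 ≤ A) (hv0 : 0 < v0) (hCv : 0 < Cv) (hcm : 0 < cm) (hv : vv μ t y ≤ Cv * v0)
    (hnear : cm * v0 ^ 2 ≤ (μ (ball x A)).toReal) {c1 : ℝ} (hc1 : c1 = cm / (A + 3) ^ (d + 2))
    (hE : EE μ (fun η => m η ^ 2) y ≤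
      c1 ^ 2 / (16 * Cv ^ 2 * 4 ^ (d + 5)) * (a ^ 2 * v0 ^ 2)) :
    v0 * (c1 ^ 2 / (16 * Cv ^ 3)) ≤ ‖tang n (gradient (vv μ t) y)‖ ^ 2 / vv μ t y := by
  have ht : 0 < t := by linarith
  have hc1p : 0 < c1 := by rw [hc1]; positivity
  have k1 := mom_low hP h1 h2 hmc hmi hw ha hL hyx hA hv0 hCv hcm hv hnear hc1 hE
  have k2 := deriv_th hP ht y w
  have hvy := hP.vpos ht y
  have k3 : |2 * vv μ t y * fderiv ℝ (vv μ t) y w| =
      d * t * |∫ η, ⟪y - η, w⟫_ℝ * GPx.ip (d + 2) (t ^ 2 + ‖y - η‖ ^ 2) ∂μ| := by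
    rw [k2, abs_neg, abs_mul, abs_of_nonneg (by positivity : (0 : ℝ) ≤ d * t)]
  have k4 : |2 * vv μ t y * fderiv ℝ (vv μ t) y w| = 2 * vv μ t y * |fderiv ℝ (vv μ t) y w| := by
    rw [abs_mul, abs_of_nonneg (by positivity)]
  rw [k4] at k3
  have k5 : (1 : ℝ) ≤ d * t := by
    have : (2 : ℝ) ≤ d := by exact_mod_cast hd
    nlinarith
  have k6 : a * (v0 ^ 2 * (c1 / 2)) ≤ 2 * vv μ t y * |fderiv ℝ (vv μ t) y w| := by
    rw [k3]
    have := abs_nonneg (∫ η, ⟪y - η, w⟫_ℝ * GPx.ip (d + 2) (t ^ 2 + ‖y - η‖ ^ 2) ∂μ)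
    nlinarith
  have k7 : |fderiv ℝ (vv μ t) y w| ≤ ‖tang n (gradient (vv μ t) y)‖ * a := by
    have e1 : fderiv ℝ (vv μ t) y w = ⟪tang n (gradient (vv μ t) y), w⟫_ℝ := by
      unfold tang
      rw [inner_sub_left, inner_smul_left, hnw, mul_zero, sub_zero, GPx.grad_inner]
    rw [e1]
    exact (abs_real_inner_le_norm _ _).trans (mul_le_mul_of_nonneg_left hwa (norm_nonneg _))
  set g := ‖tang n (gradient (vv μ t) y)‖ with hg
  have hg0 : 0 ≤ g := norm_nonneg _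
  have k8 : v0 * (c1 / (4 * Cv)) ≤ g := by
    have e1 : a * (v0 ^ 2 * (c1 / 2)) ≤ 2 * (Cv * v0) * (g * a) := by
      refine k6.trans ?_
      gcongr
    have e2 : (a * v0) * (v0 * c1) ≤ (a * v0) * (4 * Cv * g) := by nlinarith
    have e3 := le_of_mul_le_mul_left e2 (by positivity)
    rw [mul_div_assoc', div_le_iff₀ (by positivity)]
    linarith
  rw [le_div_iff₀ hvy]
  calc v0 * (c1 ^ 2 / (16 * Cv ^ 3)) * vv μ t y ≤
        v0 * (c1 ^ 2 / (16 * Cv ^ 3)) * (Cv * v0) := mul_le_mul_of_nonneg_left hv (by positivity)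
    _ = (v0 * (c1 / (4 * Cv))) ^ 2 := by field_simp; ring
    _ ≤ g ^ 2 := pow_le_pow_left₀ (by positivity) k8 2

end UUm

end

end TG
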