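import Pool.Agent.TG.Stmts13
import Pool.Agent.TG.TDc
import Pool.Agent.TG.KitMono
set_option autoImplicit false

/-!
# Module W1: cells which are not near (helper76)

If the cell Q is not near then Ups vanishes near every point where chi does not vanish.
-/

open MeasureTheory Metric Set TrI Filter
open scoped InnerProductSpace ContDiff Topology

namespace TG

noncomputable section

namespace W1m

variable {d : ℕ}

lemma Ups_ev {A p0 : ℝ} {μ : Measure (Sp d)} (hp : 0 < p0) (hq : Continuous (qq A μ 1)) {y : Sp d}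
    (hy : qq A μ 1 y < p0 / 2) : Ups p0 A μ 1 =ᶠ[𝓝 y] fun _ => 0 := by
  have h1 : ∀ᶠ z in 𝓝 y, qq A μ 1 z < p0 / 2 := hq.continuousAt.eventually_lt_const hy
  filter_upwards [h1] with z hz
  unfold Ups
  refine Real.smoothTransition.zero_of_nonpos ?_
  have h2 : 2 * qq A μ 1 z / p0 ≤ 1 := by
    rw [div_le_one hp]
    linarith
  linarith

lemma chi_fd {y : Sp d} (h : chi y = 0) : fderiv ℝ (chi : Sp d → ℝ) y = 0 := by
  have h1 : IsLocalMin (chi : Sp d → ℝ) y :=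
    Eventually.of_forall fun z => by rw [h]; exact PTm.chi_nonneg z
  exact h1.fderiv_eq_zero

lemma grad0 {g : Sp d → ℝ} {y : Sp d} (h : fderiv ℝ g y = 0) : gradient g y = 0 := by
  unfold gradient
  rw [h, map_zero]

lemma tang0 (n : Sp d) : tang n 0 = 0 := by
  unfold tang
  simp

lemma avk0 (b : Sp d → ℝ) (R : ℝ) {g : Sp d → ℝ} (hg : ∀ y, g y = 0) (y : Sp d) :
    avk b R g y = 0 := by
  unfold avk
  simp [hg]

lemma nt0 (b : Sp d → ℝ) (R : ℝ) {F : Fin d → Fin d → Sp d → ℝ} (hF : ∀ i j y, F i j y = 0)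
    (y : Sp d) : nt b R F y = 0 := by
  have h1 : ∀ x, dd2 F x = 0 := by
    intro x
    unfold dd2
    refine Finset.sum_eq_zero fun i _ => Finset.sum_eq_zero fun j _ => ?_
    have h2 : F i j = fun _ => 0 := funext (hF i j)
    unfold pd2
    rw [h2, iteratedFDeriv_fun_zero]
    rfl
  unfold nt NNp
  simp [avk0 _ _ h1]

/-- the vanishing condition for the flux densities -/
lemma fxA0 {χ' β : Sp d → ℝ} {ε p0 A : ℝ} {μ : Measure (Sp d)}
    (h : ∀ y, χ' y * Ups p0 A μ 1 y = 0 ∨ fderiv ℝ (chi : Sp d → ℝ) y = 0) (n y : Sp d) :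
    fxA chi χ' β ε p0 A μ n y = 0 := by
  unfold fxA
  rcases h y with h1 | h1
  · rw [h1, zero_mul]
  · rw [grad0 h1, tang0, inner_zero_left, mul_zero]

lemma fxB0 {b : Sp d → ℝ} {RN : ℝ} {χ' β : Sp d → ℝ} {ε p0 A : ℝ} {μ : Measure (Sp d)}
    (h : ∀ y, χ' y * Ups p0 A μ 1 y = 0 ∨ fderiv ℝ (chi : Sp d → ℝ) y = 0) (y : Sp d) :
    fxB b RN chi χ' β ε p0 A μ y = 0 := by
  have h1 : ∀ y, χ' y * Ups p0 A μ 1 y * ⟪gradient chi y, gradient (WW β ε μ 1) y⟫_ℝ = 0 := by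
    intro y
    rcases h y with h1 | h1
    · rw [h1, zero_mul]
    · rw [grad0 h1, inner_zero_left, mul_zero]
  unfold fxB
  rw [h1 y, avk0 b RN h1 y, nt0 b RN _ y]
  · simp
  · intro i j x
    rcases h x with h1 | h1
    · rw [h1, zero_mul]
    · rw [h1]
      simp

lemma flx0 {X : Prm d} (k : ℕ) {χ' β : Sp d → ℝ} {μ : Measure (Sp d)}
    (h : ∀ y, χ' y * Ups X.p0 X.A μ 1 y = 0 ∨ fderiv ℝ (chi : Sp d → ℝ) y = 0)
    (m : Sp d → ℝ) (n : Sp d) : flx X k chi χ' β μ m n = 0 := by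
  unfold flx
  split_ifs
  · simp [fxA0 h]
  · simp [fxB0 h]
  · rfl

section Loc

variable {β : Sp d → ℝ} {ε p0 A : ℝ} {μ : Measure (Sp d)}

/-- away from the near part nothing of Ups is seen -/
def Nn (p0 A : ℝ) (μ : Measure (Sp d)) : Prop :=
  ∀ y : Sp d, chi y ≠ 0 → Ups p0 A μ 1 =ᶠ[𝓝 y] fun _ => 0

lemma Nn.u0 (h : Nn p0 A μ) {y : Sp d} (hy : chi y ≠ 0) : Ups p0 A μ 1 y = 0 := (h y hy).eq_of_nhds

lemma Nn.f0 (h : Nn p0 A μ) {y : Sp d} (hy : chi y ≠ 0) : fderiv ℝ (Ups p0 A μ 1) y = 0 := by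
  rw [(h y hy).fderiv_eq]
  simp

lemma Nn.cu (h : Nn p0 A μ) (y : Sp d) : chi y * Ups p0 A μ 1 y = 0 := by
  by_cases hy : chi y = 0
  · rw [hy, zero_mul]
  · rw [h.u0 hy, mul_zero]

lemma Nn.al (h : Nn p0 A μ) (χ' : Sp d → ℝ) (y : Sp d) :
    χ' y * Ups p0 A μ 1 y = 0 ∨ fderiv ℝ (chi : Sp d → ℝ) y = 0 := by
  by_cases hy : chi y = 0
  · exact Or.inr (chi_fd hy)
  · exact Or.inl (by rw [h.u0 hy, mul_zero])

lemma Nn.hn (h : Nn p0 A μ) (n y : Sp d) :
    chi y * Hn β ε p0 A μ n 1 y = chi y * GG β ε μ 1 y := by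
  by_cases hy : chi y = 0
  · rw [hy, zero_mul, zero_mul]
  · unfold Hn
    rw [h.u0 hy, grad0 (h.f0 hy), tang0, inner_zero_left]
    ring

lemma Nn.hh (h : Nn p0 A μ) (i j : Fin d) (y : Sp d) :
    chi y * HHm β ε p0 A μ i j y = if i = j then chi y * GG β ε μ 1 y else 0 := by
  by_cases hy : chi y = 0
  · rw [hy]
    simp
  · unfold HHm
    rw [h.u0 hy, grad0 (h.f0 hy), h.f0 hy, inner_zero_left]
    split_ifs <;> simp

lemma Nn.dv (h : Nn p0 A μ) (n y : Sp d) : dvT chi β ε p0 A μ n y = 0 := by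
  unfold dvT
  refine Finset.sum_eq_zero fun j _ => ?_
  have h1 : (fun y => chi y * Ups p0 A μ 1 y * (tang n (gradient (WW β ε μ 1) y)) j) =
      fun _ => (0 : ℝ) := by
    ext z
    rw [h.cu z, zero_mul]
  rw [h1]
  simp

end Loc

section Main

variable {E : Type} [NormedAddCommGroup E] [InnerProductSpace ℝ E]

lemma mQ_cont {f : Sp d → E} (hf : Continuous f) (s0 : ℝ) (e : E) (Q : Cell d) :
    Continuous (mQ s0 f e Q) := by
  unfold mQ rs
  fun_prop

/-- the main contribution of a cell which is not near -/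
lemma gam_eq (hNN : StmtNN) (hd : 2 ≤ d) {M c0 : ℝ} {X : Prm d} (hb : BaseKer 2 M c0 X.b)
    (hRN : 0 < X.RN) {s0 : ℝ} {μ : Measure (Sp d)} {f : Sp d → E} (hf : Continuous f)
    {e : Cell d → E} {kd : Cell d → ℕ} {nv : Cell d → Sp d} {Q : Cell d}
    (hN : Nn X.p0 X.A (muQ s0 μ Q)) (hG : ContDiff ℝ ∞ (GG (bQ X.b Q) X.ε (muQ s0 μ Q) 1)) :
    Gam X s0 μ f e kd nv Q =
      ∫ y, mQ s0 f (e Q) Q y * (chi y * GG (bQ X.b Q) X.ε (muQ s0 μ Q) 1 y) := by
  unfold Gam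
  split_ifs with h1 h2
  · simp only [hN.hn]
  · set φ : Sp d → ℝ := fun y => chi y * GG (bQ X.b Q) X.ε (muQ s0 μ Q) 1 y with hφ
    have hφs : ContDiff ℝ ∞ φ := TDc.chi_smooth.mul hG
    have hφc : HasCompactSupport φ := (TDc.chi_cs (by omega)).mul_right
    have h3 := (hNN d hd M c0 X.b hb X.RN hRN).2.1 φ hφs hφc
    have h4 : (fun (i j : Fin d) (x : Sp d) => chi x *
        HHm (bQ X.b Q) X.ε X.p0 X.A (muQ s0 μ Q) i j x) =
        fun (i j : Fin d) (x : Sp d) => if i = j then φ x else 0 := by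
      ext i j x
      exact hN.hh i j x
    rw [h4]
    simp only [h3]
    have hK : PTm.Ker X.b := PTm.base_ker hb
    have hm : Continuous (mQ s0 f (e Q) Q) := mQ_cont hf s0 _ Q
    have hac : Continuous (avk X.b X.RN φ) := PTm.avk_cont hK hφs.continuous _
    have has : HasCompactSupport (avk X.b X.RN φ) := by
      obtain ⟨ρ, hρ0, hρ⟩ := PTm.cs_bd hφc
      refine HasCompactSupport.intro (isCompact_closedBall (0 : Sp d) (ρ + X.RN)) fun x hx => ?_
      rw [mem_closedBall, dist_zero_right, not_le] at hx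
      refine PTm.avk_zero_of hK hRN.le fun z hz => hρ z ?_
      have h5 : ‖x‖ ≤ ‖z‖ + ‖z - x‖ := by
        have := norm_sub_norm_le x z
        rw [norm_sub_rev x z] at this
        linarith
      linarith
    have hi1 : Integrable fun y => mQ s0 f (e Q) Q y * avk X.b X.RN φ y :=
      (hm.mul hac).integrable_of_hasCompactSupport has.mul_left
    have hi2 : Integrable fun y => mQ s0 f (e Q) Q y * φ y :=
      (hm.mul hφs.continuous).integrable_of_hasCompactSupport hφc.mul_left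
    simp only [mul_sub]
    rw [integral_sub hi2 hi1]
    ring
  · rfl

/-- displacement and position in the frame agree for cells of the same level -/
lemma tw_eq {s0 : ℝ} (h0 : 0 < s0) {Q Q' : Cell d} (h : Q'.1 = Q.1) : tw s0 Q Q' = dsp Q Q' := by
  have h1 : 0 < lev s0 Q.1 := by unfold lev; positivity
  unfold tw xC cen dsp
  rw [h, ← smul_sub, smul_smul, one_div, inv_mul_cancel₀ h1.ne', one_smul]
  ext j
  simp [lat]

lemma dsp_neg (Q Q' : Cell d) : dsp Q' Q = -dsp Q Q' := by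
  ext j
  simp [dsp, lat]

/-- fluxes of a cell which is not near -/
lemma fct_eq (hFM : StmtFM) (hd : 2 ≤ d) {M C' : ℝ} (hC' : 0 < C') {X : Prm d}
    (hε : 0 < X.ε) (hε1 : X.ε ≤ 1) (hp : 0 < X.p0) (hA : 0 < X.A) {s0 : ℝ} (h0 : 0 < s0)
    {μ : Measure (Sp d)} (hμ : Gro C' μ) {f : Sp d → E}
    {e : Cell d → E} {kd : Cell d → ℕ} {nv : Cell d → Sp d} {Q Q' : Cell d} (hQ : Q'.1 = Q.1)
    (hK : Kit 2 M (bQ X.b Q))
    (hN : Nn X.p0 X.A (muQ s0 μ Q)) :
    Fct X s0 μ f e kd nv Q Q' = 0 ∧ Fct X s0 μ f e kd nv Q' Q = 0 := by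
  constructor
  · unfold Fct
    rw [flx0 _ (hN.al _), flx0 _ (hN.al _), sub_zero]
  · obtain ⟨-, -, -, h1⟩ := hFM d hd C' hC' s0 h0 0 Q Q' (by rw [hQ, add_zero]) _ rfl
    obtain ⟨-, -, -, -, h2⟩ := h1 μ hμ
    have h3 : ∀ y, Ups X.p0 X.A (muQ s0 μ Q') 1 y = Ups X.p0 X.A (muQ s0 μ Q) 1 (tw s0 Q Q' + y) := by
      intro y
      obtain ⟨-, -, -, h4⟩ := h2 M _ hK X.ε hε hε1 0 y
      obtain ⟨-, h5, -⟩ := h4 X.p0 X.A hp hA
      exact h5 rfl
    have h4 : ∀ y, (fun x => chi (x - dsp Q' Q)) y * Ups X.p0 X.A (muQ s0 μ Q') 1 y = 0 ∨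
        fderiv ℝ (chi : Sp d → ℝ) y = 0 := by
      intro y
      left
      rw [h3 y, dsp_neg, tw_eq h0 hQ]
      simp only [sub_neg_eq_add]
      rw [add_comm y]
      exact hN.cu _
    unfold Fct
    rw [flx0 _ h4, flx0 _ h4, sub_zero]

end Main

end W1m

open Classical in
theorem stmtW1 (hNN : StmtNN) (hUB : StmtUB) (hNF : StmtNF) (hFM : StmtFM) : StmtW1 := by
  intro d J JA hd M c0 C' c R0 X hX
  have hp0 := hX.prm.p0_pos
  have hp1 := hX.prm.p0_le
  have hε := hX.prm.ε_pos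
  have hε4 := hX.prm.ε_le
  have hA := hX.prm.A_ge
  obtain ⟨cN, C1, hcN, hC1, hN⟩ := hNF d (J + 10) hd (by omega) M C' X.ε X.p0 X.A c hX.C'_pos hε
    hε4 hX.far
  obtain ⟨N', hN', hT⟩ := PTm.chi_TFn (d := d) (by omega)
  obtain ⟨C2, -, hU⟩ := hUB d 0 hd M C' X.ε X.p0 X.A hX.C'_pos hε (by linarith) hp0 hp1 hA
  refine ⟨1 + cN * N' + C1 + 1 / cN + C1 / cN, d + 2, by positivity, ?_⟩
  intro E _ _ _ W hW Q hnear
  have hWX := hW.X_eq
  subst hWX
  have h0 := hW.s0_pos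
  -- frame facts
  obtain ⟨-, -, -, hF⟩ := hFM d hd C' hX.C'_pos W.s0 h0 0 Q Q (by rw [add_zero]) _ rfl
  obtain ⟨hgro, hv, -⟩ := hF W.μ hW.gro
  have hkit : Kit (J + 10) M (bQ W.X.b Q) := hX.ker.kit _
  obtain ⟨-, hGs, -, -, hq01, hqs, -⟩ := hU (bQ W.X.b Q) (hkit.mono_order (by omega))
    (muQ W.s0 W.μ Q) hgro
  have hnq : ∀ y : Sp d, chi y ≠ 0 → qq W.X.A (muQ W.s0 W.μ Q) 1 y < W.X.p0 / 2 := by
    intro y hy
    by_contra h1
    exact hnear ⟨y, hy, not_lt.mp h1⟩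
  have hNn : W1m.Nn W.X.p0 W.X.A (muQ W.s0 W.μ Q) := fun y hy =>
    W1m.Ups_ev hp0 hqs.continuous (hnq y hy)
  -- the three identities
  have hgam : W.gam Q = ∫ y, W.m Q y * (chi y * GG (W.be Q) W.X.ε (W.mu Q) 1 y) :=
    W1m.gam_eq hNN hd (hX.ker.mono_order (by omega)) (by linarith [hX.prm.RN_ge]) hW.fc hNn hGs
  have hfct : ∀ Q' ∈ adj Q, Fct W.X W.s0 W.μ W.f W.e W.kd W.nv Q Q' = 0 ∧
      Fct W.X W.s0 W.μ W.f W.e W.kd W.nv Q' Q = 0 := by
    intro Q' hQ'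
    have h1 : Q'.1 = Q.1 := by
      unfold adj at hQ'
      rw [Finset.mem_product] at hQ'
      exact Finset.mem_singleton.mp hQ'.1
    exact W1m.fct_eq hFM hd hX.C'_pos hε (by linarith) hp0 (by linarith) h0 hW.gro h1
      (hkit.mono_order (by omega)) hNn
  have hnt : W.nt1 Q = W.w Q * W.gam Q := by
    have h1 : Vct W.X W.s0 W.μ W.f W.e W.kd W.nv Q = 0 := by
      unfold Vct
      split_ifs
      · simp [hNn.dv]
      · rfl
    have h2 : ∑ Q' ∈ adj Q, Fct W.X W.s0 W.μ W.f W.e W.kd W.nv Q Q' = 0 :=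
      Finset.sum_eq_zero fun Q' hQ' => (hfct Q' hQ').1
    unfold Wld.nt1 net
    rw [h1, h2, add_zero, sub_zero]
    rfl
  -- the inequalities
  have hm : Continuous (W.m Q) := W1m.mQ_cont hW.fc _ _ _
  have hD := hW.D0 Q
  have hv0 : 0 ≤ W.v Q := by
    have h1 : W.v Q = vv (muQ W.s0 W.μ Q) 1 0 := hv.symm
    rw [h1]
    exact Real.sqrt_nonneg _
  have hw0 : 0 ≤ W.w Q := by
    have h1 : 0 < lev W.s0 Q.1 := by unfold lev; positivity
    unfold Wld.w cw
    positivity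
  have hval : W.val Q = max 0 (W.gam Q) := by
    unfold Wld.val
    rw [if_neg (fun h => hnear h.1), if_neg (fun h => hnear h.1)]
  have h5 := hN (bQ W.X.b Q) hkit (muQ W.s0 W.μ Q) hgro (W.m Q) (W.D Q) hm hD (hW.zp Q)
    (fun y hy => by linarith [hnq y hy])
  have h6 : vv (muQ W.s0 W.μ Q) 1 0 = W.v Q := hv
  rw [h6] at h5
  have h7 : (∫ y, W.m Q y * (chi y * GG (bQ W.X.b Q) W.X.ε (muQ W.s0 W.μ Q) 1 y)) = W.gam Q :=
    hgam.symm
  rw [h7] at h5
  have h8 : -(N' * W.D Q) ≤ ∫ y, W.m Q y * chi y := by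
    have h9 := hW.zp Q (fun y => N'⁻¹ * chi y) (contDiff_const.mul PTm.chi_contDiff)
      (fun y => mul_nonneg (by positivity) (PTm.chi_nonneg y)) ?_ ?_ ?_
    · have h10 : (∫ y, W.m Q y * (N'⁻¹ * chi y)) = N'⁻¹ * ∫ y, W.m Q y * chi y := by
        rw [← integral_const_mul]
        congr 1
        ext y
        ring
      rw [h10] at h9
      have h11 := mul_le_mul_of_nonneg_left h9 hN'.le
      rw [← mul_assoc, mul_inv_cancel₀ hN'.ne', one_mul] at h11
      linarith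
    · intro y
      have h10 := hT.bd 0 (by omega) y
      rw [norm_iteratedFDeriv_zero, Real.norm_of_nonneg (PTm.chi_nonneg y)] at h10
      rw [inv_mul_le_one₀ hN']
      exact h10
    · intro y
      have h10 := (PTm.TFn.const_mul hT N'⁻¹).bd 2 le_rfl y
      rwa [abs_of_pos (inv_pos.mpr hN'), inv_mul_cancel₀ hN'.ne'] at h10
    · intro y hy
      rw [PTm.chi_supp (by linarith) (by omega), mul_zero]
  set I := ∫ y, W.m Q y * chi y with hI
  set g := W.gam Q with hg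
  set v := W.v Q with hv'
  set D := W.D Q with hD'
  have h9 : -((cN * N' + C1) * v * D) ≤ g := by
    have : cN * v * (-(N' * D)) ≤ cN * v * I := mul_le_mul_of_nonneg_left h8 (by positivity)
    nlinarith
  have hvD : 0 ≤ v * D := mul_nonneg hv0 hD
  have hmx : g ≤ max 0 g := le_max_right _ _
  have hmx0 : 0 ≤ max 0 g := le_max_left _ _
  have hc1 : 0 ≤ 1 / cN := by positivity
  have hc2 : 0 ≤ C1 / cN := by positivity
  refine ⟨hgam, hnt, hfct, ?_, ?_⟩
  · rw [hval, hnt]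
    have h10 : max 0 g ≤ g + (1 + cN * N' + C1 + 1 / cN + C1 / cN) * (v * D) := by
      have h11 : (cN * N' + C1) * (v * D) ≤ (1 + cN * N' + C1 + 1 / cN + C1 / cN) * (v * D) :=
        mul_le_mul_of_nonneg_right (by linarith) hvD
      have h12 : 0 ≤ (cN * N' + C1) * (v * D) := by positivity
      refine max_le ?_ ?_
      · nlinarith
      · linarith
    have h11 := mul_le_mul_of_nonneg_left h10 hw0
    linarith
  · rw [hval]
    have h10 : cN * (v * I) ≤ max 0 g + C1 * (v * D) := by nlinarith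
    have h11 : v * I ≤ 1 / cN * max 0 g + C1 / cN * (v * D) := by
      have h12 : v * I = 1 / cN * (cN * (v * I)) := by field_simp
      rw [h12]
      have h13 := mul_le_mul_of_nonneg_left h10 hc1
      have h14 : 1 / cN * (max 0 g + C1 * (v * D)) = 1 / cN * max 0 g + C1 / cN * (v * D) := by
        ring
      linarith
    have h12 : 1 / cN * max 0 g ≤ (1 + cN * N' + C1 + 1 / cN + C1 / cN) * max 0 g :=
      mul_le_mul_of_nonneg_right (by nlinarith [mul_pos hcN hN']) hmx0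
    have h13 : C1 / cN * (v * D) ≤ (1 + cN * N' + C1 + 1 / cN + C1 / cN) * (v * D) :=
      mul_le_mul_of_nonneg_right (by nlinarith [mul_pos hcN hN']) hvD
    linarith

end

end TG
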