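import Pool.Agent.TG.W2e

/-!
# Module W2: near cells of type A, the main local inequality (helper60)
-/

open MeasureTheory Metric Set TrI
open scoped InnerProductSpace ContDiff ENNReal

namespace TG

noncomputable section

namespace W2m

variable {d : ℕ}

/-- the gain in the ball d + 2 is at most the gain in the ball R0 -/
lemma gX_mono (hWA : StmtWA) (hFM : StmtFM) (hd : 2 ≤ d) {J JA : ℕ} {M c0 C' c R0 Rz : ℝ}
    {X : Prm d} (hX : XOK J JA M c0 C' c R0 X) {E : Type} [NormedAddCommGroup E]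
    [InnerProductSpace ℝ E] {W : Wld d E} (hW : WOK JA C' R0 Rz X W)
    (Q : Cell d) : gX W Q ≤ plInt (W.nv Q) (W.sv Q)
      (fun x => zR R0 x * XX (W.be Q) W.X.ε (W.mu Q) (W.nv Q) 1 x) := by
  have hp := hX.prm
  have hR := hX.R0_ge
  have hA := hp.A_ge
  have hd0 : (0 : ℝ) ≤ d := Nat.cast_nonneg _
  obtain ⟨C, hC, h⟩ := hWA d 0 hd M C' X.ε hX.C'_pos hp.ε_pos (by linarith [hp.ε_le])
  have hXe := hW.X_eq
  subst hXe
  obtain ⟨hgro, -⟩ := frame hFM hd hX.C'_pos hW.s0_pos hW.gro Q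
  obtain ⟨-, -, -, -, h3⟩ := h (W.be Q) (PTm.kit_mono (by omega) (hX.ker.kit _)) (W.mu Q) hgro
  obtain ⟨h5, h4, -⟩ := h3 (W.nv Q) (hW.nu Q)
  have hc : Continuous (XX (W.be Q) W.X.ε (W.mu Q) (W.nv Q) 1) := h5.continuous
  have hi : ∀ r : ℝ, 0 < r → Integrable (fun y : PF.Pl (W.nv Q) =>
      (fun x => zR r x * XX (W.be Q) W.X.ε (W.mu Q) (W.nv Q) 1 x)
        (W.sv Q • W.nv Q + (y : Sp d))) := by
    intro r hr
    have hcs : HasCompactSupport
        (fun x => zR r x * XX (W.be Q) W.X.ε (W.mu Q) (W.nv Q) 1 x) := (TU.zR_cs r).mul_right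
    obtain ⟨ρ, hρ⟩ := PF.cs_tang (hW.nu Q) hcs
    exact PF.integrable_pl (hW.nu Q) ((TU.zR_smooth hr).continuous.mul hc) hρ _
  unfold gX plInt
  exact integral_mono (hi _ (by positivity)) (hi _ (by linarith)) fun y =>
    mul_le_mul_of_nonneg_right (zR_le (by linarith) _) (h4 _)

end W2m

open W2m in
/-- MODULE W2 -/
theorem stmtW2 (hTA1 : StmtTA1) (hTA2 : StmtTA2) (hTD1 : StmtTD1) (hTD2 : StmtTD2)
    (hTF : StmtTF) (hFG : StmtFG) (hP1 : StmtP1) (hP3 : StmtP3) (hP4 : StmtP4) (hW1 : StmtW1)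
    (hNS : StmtNS) (hFM : StmtFM) (hUB : StmtUB) (hWA : StmtWA) : StmtW2 := by
  intro d J JA hd M c0 C' c R0 X hX
  have hp := hX.prm
  have hd' : (2 : ℝ) ≤ d := by exact_mod_cast hd
  have hR := hX.R0_ge
  have hAg := hp.A_ge
  obtain ⟨cA, hcA, hA1⟩ := caseA1 hTA1 hTD1 hTF hUB hP1 hW1 hNS hFM hd hX
  obtain ⟨cB, hcB, hA2⟩ := caseA2 hTA2 hTD2 hTF hUB hP1 hW1 hNS hFM hWA hd hX
  obtain ⟨C4, i4, hC4, hi4, hP4'⟩ := hP4 d J JA hd M c0 C' c R0 X hX
  obtain ⟨C3, hC3, hP3'⟩ := hP3 d J JA hd M c0 C' c R0 X hX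
  obtain ⟨iF, hiF, hFG'⟩ := hFG d hd M C' X.ε X.p0 X.A (32 * R0 + 4) hX.C'_pos hp.ε_pos hp.ε_le
    hp.p0_pos hp.p0_le hp.A_ge (by linarith)
  obtain ⟨Kb, hKb, hbn⟩ := bnds hd hX
  refine ⟨min cA cB, lt_min hcA hcB, fun η Kc hη hKc => ?_⟩
  set θ : ℝ := η / (2 * C4) with hθ
  have hθ0 : 0 < θ := by positivity
  obtain ⟨I, i1', κ1, K1, Rz1, hIJ, hi1', hκ1, hK1, hA1'⟩ := hA1 θ Kc hθ0 hKc
  obtain ⟨κ0, K4, K5, Rz2, hκ0, hK4, hK5, hA2'⟩ := hA2 Kc hKc
  obtain ⟨κ4, CK4, Rz4, hκ4, hCK4, hP4''⟩ := hP4' Kc hKc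
  set i1 : ℝ := min (min i1' i4) iF with hi1
  have hi10 : 0 < i1 := lt_min (lt_min hi1' hi4) hiF
  obtain ⟨κ3, CK3, Rz3, hκ3, hCK3, hP3''⟩ := hP3' i1 Kc hi10 hKc
  -- the constant κ
  set cm : ℝ := min cA cB with hcm
  have hcm0 : 0 < cm := lt_min hcA hcB
  set κ5 : ℝ := η / ((K4 + cm) * (C3 / i1)) with hκ5
  have hκ50 : 0 < κ5 := by positivity
  set κ : ℝ := min (min (min κ1 κ0) (min κ4 κ3)) κ5 with hκ
  have hκpos : 0 < κ := lt_min (lt_min (lt_min hκ1 hκ0) (lt_min hκ4 hκ3)) hκ50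
  have hk1 : κ ≤ κ1 := (min_le_left _ _).trans ((min_le_left _ _).trans (min_le_left _ _))
  have hk0 : κ ≤ κ0 := (min_le_left _ _).trans ((min_le_left _ _).trans (min_le_right _ _))
  have hk4 : κ ≤ κ4 := (min_le_left _ _).trans ((min_le_right _ _).trans (min_le_left _ _))
  have hk3 : κ ≤ κ3 := (min_le_left _ _).trans ((min_le_right _ _).trans (min_le_right _ _))
  have hk5 : κ ≤ κ5 := min_le_right _ _
  refine ⟨κ, (2 * θ * CK4 + θ * Kb + K1 + cA * Kb) + ((K4 + cm) * κ * CK3 + K5 + cm * Kb),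
    max (max (64 * R0 + 1) (max Rz1 Rz2)) (max Rz3 Rz4), hκpos, by positivity, ?_⟩
  intro E _ _ _ W hW Q _ hN hA
  have hWa := WOK_mono hW ((le_max_left (64 * R0 + 1) (max Rz1 Rz2)).trans (le_max_left _ _))
  have hWz1 := WOK_mono hW (((le_max_left Rz1 Rz2).trans (le_max_right (64 * R0 + 1) _)).trans
    (le_max_left _ _))
  have hWz2 := WOK_mono hW (((le_max_right Rz1 Rz2).trans (le_max_right (64 * R0 + 1) _)).trans
    (le_max_left _ _))
  have hWz3 := WOK_mono hW ((le_max_left Rz3 Rz4).trans (le_max_right _ _))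
  have hWz4 := WOK_mono hW ((le_max_right Rz3 Rz4).trans (le_max_right _ _))
  have hsv := hA.1
  have hSh := hA.2.1
  have hsub := adj_ns hNS hd (R0 := R0) (by linarith) JA W hW.s0_pos Q
  have hQns : Q ∈ W.ns R0 JA Q := hsub (self_adj Q)
  have hkd : W.kd Q = 0 := (hA.2.2 Q hQns).1
  obtain ⟨hb1, hb2, hb3, hb4⟩ := hbn E W _ κ le_rfl hWa Q hSh hsv
  have hv0 : 0 ≤ W.v Q := v_nonneg W Q
  have hw := w_pos hW Q
  have hwv : 0 ≤ W.w Q * W.v Q := mul_nonneg hw.le hv0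
  have hab := hSh.sh.ab0
  have her := hSh.sh.ep0
  have hD0 := hW.D0 Q
  have hdl0 := hSh.dl0
  have hsm := hSh.small
  have hSV := sV_nonneg hX hWa Q
  have hsg := sg_nonneg hX hWa Q
  set SV := W.sV R0 JA Q with hSVd
  set SE := W.sE R0 JA Q with hSEd
  set SD := W.sD R0 JA Q with hSDd
  have hSD : W.D Q ≤ SD := sD_ge hW hQns
  have hSE : W.er Q ^ 2 / W.ab Q + W.dl Q ≤ SE := sE_ge hA hQns hN hQns
  have hSE0 : 0 ≤ SE := by
    have : 0 ≤ W.er Q ^ 2 / W.ab Q + W.dl Q := by positivity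
    linarith
  have hSD0 : 0 ≤ SD := hD0.trans hSD
  set mz := ∫ y, W.m Q y * (chi y * hgt (W.nv Q) (W.sv Q) y ^ 2) with hmz
  have hblmz : W.bl Q = W.v Q * mz := rfl
  have hval : W.val Q = W.sg Q + max 0 (W.bl Q) := by
    unfold Wld.val
    rw [if_pos ⟨hN, hkd⟩]
  rw [hval, nt1_eq hkd]
  have hcmA : cm ≤ cA := min_le_left _ _
  have hcmB : cm ≤ cB := min_le_right _ _
  -- a common form of the error
  have hwvD : W.w Q * W.v Q * W.D Q ≤ W.w Q * W.v Q * (SE + SD) :=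
    mul_le_mul_of_nonneg_left (by linarith) hwv
  have hwvSD : W.w Q * W.v Q * SD ≤ W.w Q * W.v Q * (SE + SD) :=
    mul_le_mul_of_nonneg_left (by linarith) hwv
  have hT0 : 0 ≤ W.w Q * W.v Q * (SE + SD) := mul_nonneg hwv (by linarith)
  by_cases hcase : |W.sv Q| ≤ 3 / 2 * R0 ∧ ∀ i ≤ I, plInt (W.nv Q) (W.sv Q)
        (fun x => zR (2 * R0 - 1) x * XX (W.bi Q i) W.X.ε (W.mu Q) (W.nv Q) (2 ^ i) x) ≤
          i1 * W.v Q
  · -- case A1
    obtain ⟨hs, hgain⟩ := hcase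
    have h1 := hA1' E W hWz1 Q hN (Ash_mono hA hk1) hs (fun i hi => (hgain i hi).trans
      (mul_le_mul_of_nonneg_right ((min_le_left _ _).trans (min_le_left _ _)) hv0))
    obtain ⟨h2, h3⟩ := hP4'' E W hWz4 Q (Ash_mono hA hk4)
    have h3' := h3 (by
      have h4 := hgain 0 (Nat.zero_le _)
      rw [pow_zero, show W.bi Q 0 = W.be Q from rfl] at h4
      exact h4.trans (mul_le_mul_of_nonneg_right ((min_le_left _ _).trans (min_le_right _ _)) hv0))
    have h5 := gX_mono hWA hFM hd hX hW Q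
    have h6 : W.w Q * (W.ab Q * gX W Q) ≤ C4 * SV + CK4 * (W.w Q * W.v Q) * (SE + SD) := by
      refine le_trans ?_ h3'
      gcongr
    have h7 : W.w Q * (W.v Q * |blc (W.nv Q) (W.sv Q) (W.m Q) (d + 1)|) ≤
        C4 * SV + CK4 * (W.w Q * W.v Q) * (SE + SD) + Kb * (W.w Q * W.v Q * (SE + SD)) := by
      have e1 : W.w Q * (W.v Q * |blc (W.nv Q) (W.sv Q) (W.m Q) (d + 1)|) ≤
          W.w Q * (W.v Q * (max 0 (blc (W.nv Q) (W.sv Q) (W.m Q) (R0 + 4)) + Kb * W.D Q)) := by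
        gcongr
      have e2 : Kb * (W.w Q * W.v Q * W.D Q) ≤ Kb * (W.w Q * W.v Q * (SE + SD)) :=
        mul_le_mul_of_nonneg_left hwvD hKb.le
      linarith
    have h8 : cm * (W.sg Q + max 0 (W.bl Q)) ≤ cA * (W.sg Q + W.bl Q) +
        cA * (Kb * (W.v Q * W.D Q)) := by
      have e1 : max 0 (W.bl Q) ≤ W.bl Q + Kb * (W.v Q * W.D Q) := by
        have e2 : -(Kb * W.D Q) * W.v Q ≤ mz * W.v Q := mul_le_mul_of_nonneg_right hb3 hv0
        have e3 : 0 ≤ Kb * (W.v Q * W.D Q) := by positivity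
        refine max_le ?_ ?_
        · rw [hblmz]; linarith
        · linarith
      have e4 : 0 ≤ W.sg Q + max 0 (W.bl Q) := add_nonneg hsg (le_max_left _ _)
      calc cm * (W.sg Q + max 0 (W.bl Q)) ≤ cA * (W.sg Q + max 0 (W.bl Q)) :=
            mul_le_mul_of_nonneg_right hcmA e4
        _ ≤ cA * (W.sg Q + (W.bl Q + Kb * (W.v Q * W.D Q))) :=
            mul_le_mul_of_nonneg_left (by linarith) hcA.le
        _ = _ := by ring
    have h9 : W.w Q * (cm * (W.sg Q + max 0 (W.bl Q))) ≤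
        W.w Q * (nt0 W Q + θ * (W.ab Q * gX W Q) +
        θ * (W.v Q * |blc (W.nv Q) (W.sv Q) (W.m Q) (d + 1)|) +
        K1 * (W.v Q * (SE + SD)) + cA * (Kb * (W.v Q * W.D Q))) :=
      mul_le_mul_of_nonneg_left (by linarith) hw.le
    have t1 := mul_le_mul_of_nonneg_left h6 hθ0.le
    have t2 := mul_le_mul_of_nonneg_left h7 hθ0.le
    have t3 : cA * Kb * (W.w Q * W.v Q * W.D Q) ≤ cA * Kb * (W.w Q * W.v Q * (SE + SD)) :=
      mul_le_mul_of_nonneg_left hwvD (by positivity)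
    have t4 : θ * (C4 * SV) + θ * (C4 * SV) = η * SV := by rw [hθ]; field_simp; ring
    have t5 : 0 ≤ ((K4 + cm) * κ * CK3 + K5 + cm * Kb) * (W.w Q * W.v Q * (SE + SD)) := by
      positivity
    have t6 : ((2 * θ * CK4 + θ * Kb + K1 + cA * Kb) + ((K4 + cm) * κ * CK3 + K5 + cm * Kb)) *
        (W.w Q * W.v Q) * (SE + SD) = 2 * (θ * (CK4 * (W.w Q * W.v Q) * (SE + SD))) +
        θ * (Kb * (W.w Q * W.v Q * (SE + SD))) + K1 * (W.w Q * W.v Q * (SE + SD)) +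
        cA * Kb * (W.w Q * W.v Q * (SE + SD)) +
        ((K4 + cm) * κ * CK3 + K5 + cm * Kb) * (W.w Q * W.v Q * (SE + SD)) := by ring
    rw [t6]
    linarith
  · -- case A2: a large gain at some scale
    have hbig : W.w Q * W.v Q * W.ab Q ≤ C3 / i1 * SV + CK3 * (W.w Q * W.v Q) * SD := by
      by_cases hs : |W.sv Q| ≤ 3 / 2 * R0
      · have h1 : ∃ i ≤ I, i1 * W.v Q < plInt (W.nv Q) (W.sv Q)
            (fun x => zR (2 * R0 - 1) x * XX (W.bi Q i) W.X.ε (W.mu Q) (W.nv Q) (2 ^ i) x) := by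
          by_contra h2
          push Not at h2
          exact hcase ⟨hs, h2⟩
        obtain ⟨i, hi, h2⟩ := h1
        refine hP3'' E W hWz3 Q (Ash_mono hA hk3) i (2 * R0 - 1) (hi.trans hIJ) (by linarith) ?_
          h2.le
        have h3 : (1 : ℝ) ≤ 2 ^ i := one_le_pow₀ (by norm_num)
        nlinarith
      · have hXe := hW.X_eq
        push Not at hs
        obtain ⟨y, hy1, hy2⟩ := hN
        obtain ⟨hgro, hv⟩ := frame hFM hd hX.C'_pos hW.s0_pos hW.gro Q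
        have hvQ : W.v Q = vv (W.mu Q) 1 0 := hv.symm
        have h1 := hFG' (W.bi Q 7) (by
          unfold Wld.bi
          rw [hXe]
          exact PTm.kit_mono (by omega) (hX.ker.kit _)) (W.mu Q) hgro (W.nv Q) (W.sv Q) (hW.nu Q)
          (by linarith) hsv ⟨y, by
            by_contra h2
            push Not at h2
            exact hy1 (PTm.chi_supp h2.le (by omega)), by rw [← hXe]; exact hy2⟩
        refine hP3'' E W hWz3 Q (Ash_mono hA hk3) 7 (32 * R0 + 4 + 1) hX.JA_7 (by linarith) ?_ ?_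
        · norm_num
          linarith
        · rw [← hvQ, ← hXe] at h1
          exact (mul_le_mul_of_nonneg_right (min_le_right _ _) hv0).trans h1
    have h1 := hA2' κ hκpos hk0 E W hWz2 Q hA
    have h2 : cm * (W.sg Q + max 0 (W.bl Q)) ≤ cB * W.sg Q + cm * κ * (W.v Q * W.ab Q) +
        cm * Kb * (W.v Q * W.D Q) := by
      have e1 : max 0 (W.bl Q) ≤ W.v Q * (κ * W.ab Q + Kb * W.D Q) := by
        refine max_le (by positivity) ?_
        rw [hblmz]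
        exact mul_le_mul_of_nonneg_left (by linarith) hv0
      calc cm * (W.sg Q + max 0 (W.bl Q)) = cm * W.sg Q + cm * max 0 (W.bl Q) := by ring
        _ ≤ cB * W.sg Q + cm * (W.v Q * (κ * W.ab Q + Kb * W.D Q)) :=
            add_le_add (mul_le_mul_of_nonneg_right hcmB hsg)
              (mul_le_mul_of_nonneg_left e1 hcm0.le)
        _ = _ := by ring
    have h3 : W.w Q * (cm * (W.sg Q + max 0 (W.bl Q))) ≤
        W.w Q * (nt0 W Q + W.v Q * (κ * K4 * W.ab Q) + W.v Q * (K5 * SD) +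
          cm * κ * (W.v Q * W.ab Q) + cm * Kb * (W.v Q * W.D Q)) :=
      mul_le_mul_of_nonneg_left (by linarith) hw.le
    have h4 : (K4 + cm) * κ * (W.w Q * W.v Q * W.ab Q) ≤
        (K4 + cm) * κ * (C3 / i1 * SV + CK3 * (W.w Q * W.v Q) * SD) :=
      mul_le_mul_of_nonneg_left hbig (by positivity)
    have h5 : (K4 + cm) * κ * (C3 / i1 * SV) ≤ η * SV := by
      have e1 : (K4 + cm) * κ * (C3 / i1) ≤ η := by
        calc (K4 + cm) * κ * (C3 / i1) ≤ (K4 + cm) * κ5 * (C3 / i1) := by gcongr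
          _ = η := by rw [hκ5]; field_simp
      calc (K4 + cm) * κ * (C3 / i1 * SV) = (K4 + cm) * κ * (C3 / i1) * SV := by ring
        _ ≤ _ := mul_le_mul_of_nonneg_right e1 hSV
    have h6 : (K4 + cm) * κ * (CK3 * (W.w Q * W.v Q * SD)) ≤
        (K4 + cm) * κ * (CK3 * (W.w Q * W.v Q * (SE + SD))) := by gcongr
    have h7 : K5 * (W.w Q * W.v Q * SD) ≤ K5 * (W.w Q * W.v Q * (SE + SD)) :=
      mul_le_mul_of_nonneg_left hwvSD hK5.le
    have h8 : cm * Kb * (W.w Q * W.v Q * W.D Q) ≤ cm * Kb * (W.w Q * W.v Q * (SE + SD)) :=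
      mul_le_mul_of_nonneg_left hwvD (by positivity)
    have t5 : 0 ≤ (2 * θ * CK4 + θ * Kb + K1 + cA * Kb) * (W.w Q * W.v Q * (SE + SD)) := by
      positivity
    have t6 : ((2 * θ * CK4 + θ * Kb + K1 + cA * Kb) + ((K4 + cm) * κ * CK3 + K5 + cm * Kb)) *
        (W.w Q * W.v Q) * (SE + SD) =
        (2 * θ * CK4 + θ * Kb + K1 + cA * Kb) * (W.w Q * W.v Q * (SE + SD)) +
        (K4 + cm) * κ * (CK3 * (W.w Q * W.v Q * (SE + SD))) + K5 * (W.w Q * W.v Q * (SE + SD)) +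
        cm * Kb * (W.w Q * W.v Q * (SE + SD)) := by ring
    rw [t6]
    linarith

end

end TG
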