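import Pool.Agent.TG.Stmts13
import Pool.Agent.TG.WT
import Pool.Agent.TG.TA2
import Pool.Agent.TG.PF
import Pool.Agent.TG.Adj

/-!
# Module W2, tools (helper60)
-/

open MeasureTheory Metric Set TrI
open scoped InnerProductSpace ContDiff ENNReal

set_option linter.unusedSectionVars false

namespace TG

noncomputable section

namespace W2m

variable {d : ℕ}

/-! ## Test functions -/

/-- first derivatives from the function and second derivatives -/
lemma TFn_of_zero_two {g : Sp d → ℝ} (hg : ContDiff ℝ 2 g) (h0 : ∀ y, |g y| ≤ 1)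
    (h2 : ∀ y, ‖iteratedFDeriv ℝ 2 g y‖ ≤ 1) : TFn 2 3 g := by
  refine ⟨hg, fun j hj y => ?_⟩
  interval_cases j
  · rw [norm_iteratedFDeriv_zero, Real.norm_eq_abs]
    exact (h0 y).trans (by norm_num)
  · rw [norm_iteratedFDeriv_one]
    refine ContinuousLinearMap.opNorm_le_bound _ (by norm_num) fun h => ?_
    by_cases hh : h = 0
    · simp [hh]
    have hn : 0 < ‖h‖ := norm_pos_iff.mpr hh
    set u : Sp d := (1 / ‖h‖) • h with hu
    have hun : ‖u‖ = 1 := by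
      rw [hu, norm_smul, Real.norm_eq_abs, abs_of_pos (by positivity)]
      field_simp
    have h5 := (convex_closedBall y 1).norm_image_sub_le_of_norm_fderiv_le' (𝕜 := ℝ) (f := g)
      (φ := fderiv ℝ g y) (C := 1) (fun z _ => (hg.differentiable (by norm_num)) z)
      (fun z hz => by
        have h6 := fderiv_lip hg h2 y z
        rw [mem_closedBall, dist_eq_norm] at hz
        linarith) (x := y) (y := y + u)
      (mem_closedBall_self zero_le_one) (by
        rw [mem_closedBall, dist_eq_norm, add_sub_cancel_left, hun])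
    rw [add_sub_cancel_left, hun] at h5
    have h6 : ‖fderiv ℝ g y u‖ ≤ 3 := by
      have e : fderiv ℝ g y u = (g (y + u) - g y) - (g (y + u) - g y - fderiv ℝ g y u) := by ring
      rw [e]
      refine (norm_sub_le _ _).trans ?_
      have h7 : ‖g (y + u) - g y‖ ≤ 1 + 1 := (norm_sub_le _ _).trans
        (add_le_add (by rw [Real.norm_eq_abs]; exact h0 _) (by rw [Real.norm_eq_abs]; exact h0 _))
      linarith
    have h8 : fderiv ℝ g y u = 1 / ‖h‖ * fderiv ℝ g y h := by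
      rw [hu, map_smul, smul_eq_mul]
    rw [h8, norm_mul, Real.norm_of_nonneg (by positivity : (0 : ℝ) ≤ 1 / ‖h‖), one_div,
      inv_mul_le_iff₀ hn] at h6
    linarith
  · exact (h2 y).trans (by norm_num)

/-! ## Lemma Z with heights -/

lemma ZP_mono {R R' D D' : ℝ} {m : Sp d → ℝ} (h : ZP R D m) (hR : R' ≤ R) (hD : D ≤ D') :
    ZP R' D' m := fun H h1 h2 h3 h4 h5 => by
  have := h H h1 h2 h3 h4 (fun y hy => h5 y (hR.trans hy))
  linarith

/-- test functions of the form φ z², φ ≥ 0 -/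
lemma zp_hgt {φ : Sp d → ℝ} (hφ : ContDiff ℝ 2 φ) (hcs : HasCompactSupport φ)
    (h0 : ∀ y, 0 ≤ φ y) {r : ℝ} (hr : ∀ y, r ≤ ‖y‖ → φ y = 0) (S : ℝ) :
    ∃ K : ℝ, 0 < K ∧ ∀ (m : Sp d → ℝ) (n : Sp d) (s D : ℝ), ‖n‖ = 1 → |s| ≤ S → ZP r D m →
      -(K * D) ≤ ∫ y, m y * (φ y * hgt n s y ^ 2) := by
  obtain ⟨N, hN, hφ'⟩ := TU.TFn_of_cs (J := 2) hφ hcs
  refine ⟨4 ^ 2 * N * max 1 (r + S) ^ 2, by positivity, ?_⟩
  intro m n s D hn hs hZ
  have h2 := TU.TFn_ht_sq hφ' (fun y hy => hr y hy.le) hn hs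
  exact GSAux.ZP' hZ h2 (fun y => mul_nonneg (h0 y) (sq_nonneg _)) (fun y hy => by
    rw [hr y hy, zero_mul])

lemma zR_le {r r' : ℝ} (h : r ≤ r') (y : Sp d) : zR r y ≤ zR r' y :=
  Real.smoothTransition.monotone (by linarith)

lemma int_hgt {m φ : Sp d → ℝ} (hm : Continuous m) (hφ : Continuous φ) (hcs : HasCompactSupport φ)
    (n : Sp d) (s : ℝ) : Integrable (fun y => m y * (φ y * hgt n s y ^ 2)) := by
  have hc : Continuous (fun y => m y * (φ y * hgt n s y ^ 2)) := by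
    unfold hgt
    fun_prop
  exact hc.integrable_of_hasCompactSupport (hcs.mul_right.mul_left)

/-- monotonicity of the off-sheet mass -/
lemma blc_le {r r' : ℝ} (h0 : 0 < r) (h : r ≤ r') (S : ℝ) : ∃ K : ℝ, 0 < K ∧
    ∀ (m : Sp d → ℝ) (n : Sp d) (s D : ℝ), Continuous m → ‖n‖ = 1 → |s| ≤ S → ZP (r' + 1) D m →
      blc n s m r ≤ blc n s m r' + K * D := by
  have hc := (TU.zR_smooth (d := d) (h0.trans_le h))
  have hc' := (TU.zR_smooth (d := d) h0)
  obtain ⟨K, hK, hk⟩ := zp_hgt (φ := fun y : Sp d => zR r' y - zR r y) (r := r' + 1)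
    (contDiff_infty.1 (hc.sub hc') 2) ((TU.zR_cs r').sub (TU.zR_cs r))
    (fun y => by have := zR_le h y; linarith)
    (fun y hy => by rw [TU.zR_zero hy, TU.zR_zero (by linarith), sub_zero]) S
  refine ⟨K, hK, fun m n s D hm hn hs hZ => ?_⟩
  have h1 := hk m n s D hn hs hZ
  have h2 : ∫ y, m y * ((zR r' y - zR r y) * hgt n s y ^ 2) =
      blc n s m r' - blc n s m r := by
    unfold blc
    rw [← integral_sub (int_hgt hm hc.continuous (TU.zR_cs _) n s)
      (int_hgt hm hc'.continuous (TU.zR_cs _) n s)]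
    congr 1
    ext y
    ring
  linarith

/-- the off-sheet mass is almost nonnegative -/
lemma blc_ge {r : ℝ} (h0 : 0 < r) (S : ℝ) : ∃ K : ℝ, 0 < K ∧
    ∀ (m : Sp d → ℝ) (n : Sp d) (s D : ℝ), ‖n‖ = 1 → |s| ≤ S → ZP (r + 1) D m →
      -(K * D) ≤ blc n s m r :=
  zp_hgt (contDiff_infty.1 (TU.zR_smooth (d := d) h0) 2) (TU.zR_cs r) (TU.zR_nonneg r)
    (fun _ hy => TU.zR_zero hy) S

lemma chi_cs (hd : 1 ≤ d) : HasCompactSupport (chi : Sp d → ℝ) :=
  HasCompactSupport.intro (isCompact_closedBall (0 : Sp d) d) fun x hx => PTm.chi_supp (by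
      rw [mem_closedBall, dist_zero_right, not_le] at hx
      exact hx.le) hd

/-- the local off-sheet mass is almost nonnegative -/
lemma chi_ge (hd : 1 ≤ d) (S : ℝ) : ∃ K : ℝ, 0 < K ∧
    ∀ (m : Sp d → ℝ) (n : Sp d) (s D : ℝ), ‖n‖ = 1 → |s| ≤ S → ZP d D m →
      -(K * D) ≤ ∫ y, m y * (chi y * hgt n s y ^ 2) :=
  zp_hgt PTm.chi_contDiff (chi_cs hd) PTm.chi_nonneg (fun _ hy => PTm.chi_supp hy hd) S

/-- the local off-sheet mass is at most the off-sheet mass -/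
lemma chi_le (hd : 1 ≤ d) {r : ℝ} (hr : (d : ℝ) ≤ r) (S : ℝ) : ∃ K : ℝ, 0 < K ∧
    ∀ (m : Sp d → ℝ) (n : Sp d) (s D : ℝ), Continuous m → ‖n‖ = 1 → |s| ≤ S → ZP (r + 1) D m →
      ∫ y, m y * (chi y * hgt n s y ^ 2) ≤ blc n s m r + K * D := by
  have hr0 : 0 < r := by
    have : (1 : ℝ) ≤ d := by exact_mod_cast hd
    linarith
  have hc := (TU.zR_smooth (d := d) hr0)
  obtain ⟨K, hK, hk⟩ := zp_hgt (φ := fun y : Sp d => zR r y - chi y) (r := r + 1)
    ((contDiff_infty.1 hc 2).sub PTm.chi_contDiff) ((TU.zR_cs r).sub (chi_cs hd))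
    (fun y => by
      rcases le_total (d : ℝ) ‖y‖ with h1 | h1
      · rw [PTm.chi_supp h1 hd, sub_zero]
        exact TU.zR_nonneg r y
      · rw [TU.zR_one (h1.trans hr)]
        linarith [PTm.chi_le_one y])
    (fun y hy => by rw [TU.zR_zero hy, PTm.chi_supp (by linarith) hd, sub_zero]) S
  refine ⟨K, hK, fun m n s D hm hn hs hZ => ?_⟩
  have h1 := hk m n s D hn hs hZ
  have h2 : ∫ y, m y * ((zR r y - chi y) * hgt n s y ^ 2) =
      blc n s m r - ∫ y, m y * (chi y * hgt n s y ^ 2) := by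
    unfold blc
    rw [← integral_sub (int_hgt hm hc.continuous (TU.zR_cs _) n s)
      (int_hgt hm PTm.chi_contDiff.continuous (chi_cs hd) n s)]
    congr 1
    ext y
    ring
  linarith

/-! ## Monotonicity of the hypotheses -/

section Wd

variable {E : Type} [NormedAddCommGroup E] [InnerProductSpace ℝ E]

lemma WOK_mono {JA : ℕ} {C' R0 Rz Rz' : ℝ} {X : Prm d} {W : Wld d E} (h : WOK JA C' R0 Rz X W)
    (hR : Rz' ≤ Rz) : WOK JA C' R0 Rz' X W where
  X_eq := h.X_eq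
  s0_pos := h.s0_pos
  gro := h.gro
  fc := h.fc
  fs := h.fs
  eu := h.eu
  nu := h.nu
  ab0 := h.ab0
  D0 := h.D0
  zp := fun Q => ZP_mono (h.zp Q) hR le_rfl
  dir := fun Q Q' hQ ζ N h1 h2 => h.dir Q Q' hQ ζ N h1 fun y hy => h2 y (hR.trans hy)

lemma WSh_mono {J : ℕ} {R0 κ κ' : ℝ} {W : Wld d E} {Q : Cell d} (h : WSh J R0 κ W Q)
    (hκ : κ ≤ κ') : WSh J R0 κ' W Q where
  sh := h.sh
  bl := h.bl
  loc := h.loc
  dl0 := h.dl0
  small := h.small.trans (mul_le_mul_of_nonneg_right hκ h.sh.ab0.le)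
  smalld := h.smalld.trans (mul_le_mul_of_nonneg_right hκ h.sh.ab0.le)

lemma Ash_mono {J JA : ℕ} {R0 κ κ' Kc : ℝ} {W : Wld d E} {Q : Cell d}
    (h : Ash J JA R0 κ Kc W Q) (hκ : κ ≤ κ') : Ash J JA R0 κ' Kc W Q :=
  ⟨h.1, WSh_mono h.2.1 hκ, fun Q' hQ' => ⟨(h.2.2 Q' hQ').1, WSh_mono (h.2.2 Q' hQ').2.1 hκ,
    (h.2.2 Q' hQ').2.2⟩⟩

end Wd

/-! ## The flux density as a function of the normal -/

lemma inner_tang {n : Sp d} (hn : ‖n‖ = 1) (a b : Sp d) :
    ⟪tang n a, tang n b⟫_ℝ = ⟪a, b⟫_ℝ - ⟪n, a⟫_ℝ * ⟪n, b⟫_ℝ := by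
  unfold tang
  have hnn : ⟪n, n⟫_ℝ = 1 := by rw [real_inner_self_eq_norm_sq, hn, one_pow]
  rw [inner_sub_left, inner_sub_right, inner_sub_right, inner_smul_left, inner_smul_right,
    inner_smul_left, inner_smul_right, hnn, real_inner_comm n a]
  simp only [conj_trivial]
  ring

/-- for any two unit vectors the flux density of the second is a combination of flux densities of
vectors at distance at most one from the first -/
lemma fxA_comb {n n' : Sp d} (hn : ‖n‖ = 1) (hn' : ‖n'‖ = 1) :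
    ∃ (n1 n2 : Sp d) (c0 c1 c2 : ℝ), ‖n1‖ = 1 ∧ ‖n2‖ = 1 ∧ ‖n - n1‖ ≤ 1 ∧ ‖n - n2‖ ≤ 1 ∧
      |c0| ≤ 2 ∧ |c1| ≤ 2 ∧ |c2| ≤ 2 ∧ c0 + c1 + c2 = 1 ∧
      ∀ (χ χ' β : Sp d → ℝ) (ε p0 A : ℝ) (μ : Measure (Sp d)) (y : Sp d),
        fxA χ χ' β ε p0 A μ n' y = c0 * fxA χ χ' β ε p0 A μ n y + c1 * fxA χ χ' β ε p0 A μ n1 y +
          c2 * fxA χ χ' β ε p0 A μ n2 y := by
  have hnn : ⟪n, n⟫_ℝ = 1 := by rw [real_inner_self_eq_norm_sq, hn, one_pow]
  have hnn' : ⟪n', n'⟫_ℝ = 1 := by rw [real_inner_self_eq_norm_sq, hn', one_pow]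
  set a : ℝ := ⟪n, n'⟫_ℝ with ha
  set u : Sp d := n' - a • n with hu
  have hnu : ⟪n, u⟫_ℝ = 0 := by
    rw [hu, inner_sub_right, inner_smul_right, hnn, ← ha]; ring
  have hn'e : n' = a • n + u := by rw [hu]; abel
  have huu : ‖u‖ ^ 2 = 1 - a ^ 2 := by
    rw [← real_inner_self_eq_norm_sq, hu, inner_sub_left, inner_sub_right, inner_sub_right,
      inner_smul_left, inner_smul_left, inner_smul_right, inner_smul_right, hnn, hnn',
      real_inner_comm n n', ← ha]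
    simp only [conj_trivial]
    ring
  by_cases hu0 : u = 0
  · have ha2 : a ^ 2 = 1 := by
      rw [hu0, norm_zero] at huu
      linarith
    refine ⟨n, n, 1, 0, 0, hn, hn, by simp, by simp, by norm_num, by norm_num, by norm_num,
      by norm_num, fun χ χ' β ε p0 A μ y => ?_⟩
    have h1 : n' = a • n := by rw [hn'e, hu0, add_zero]
    simp only [one_mul, zero_mul, add_zero]
    unfold fxA
    rw [inner_tang hn', inner_tang hn, h1, inner_smul_left, inner_smul_left]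
    simp only [conj_trivial]
    linear_combination (-(χ' y * Ups p0 A μ 1 y * (⟪n, gradient χ y⟫_ℝ *
      ⟪n, gradient (WW β ε μ 1) y⟫_ℝ))) * ha2
  · have hun : 0 < ‖u‖ := norm_pos_iff.2 hu0
    obtain ⟨t, b, htn, hnt, hbt, hb⟩ : ∃ (t : Sp d) (b : ℝ), ‖t‖ = 1 ∧ ⟪n, t⟫_ℝ = 0 ∧
        u = b • t ∧ b = ‖u‖ := by
      refine ⟨(1 / ‖u‖) • u, ‖u‖, ?_, ?_, ?_, rfl⟩
      · rw [norm_smul, Real.norm_eq_abs, abs_of_pos (by positivity)]
        field_simp
      · rw [inner_smul_right, hnu, mul_zero]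
      · rw [smul_smul]
        have : ‖u‖ * (1 / ‖u‖) = 1 := by field_simp
        rw [this, one_smul]
    rw [← hb] at huu
    have hn'2 : n' = a • n + b • t := by rw [hn'e, ← hbt]
    have hab : a ^ 2 + b ^ 2 = 1 := by linarith
    have htt : ⟪t, t⟫_ℝ = 1 := by rw [real_inner_self_eq_norm_sq, htn, one_pow]
    have hunit : ∀ σ : ℝ, σ ^ 2 = 1 → ‖(4 / 5 : ℝ) • n + (σ * (3 / 5)) • t‖ = 1 := by
      intro σ hσ
      have h1 : ‖(4 / 5 : ℝ) • n + (σ * (3 / 5)) • t‖ ^ 2 = 1 := by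
        rw [← real_inner_self_eq_norm_sq, inner_add_left, inner_add_right, inner_add_right,
          inner_smul_left, inner_smul_left, inner_smul_left, inner_smul_left, inner_smul_right,
          inner_smul_right, inner_smul_right, inner_smul_right, hnn, htt, real_inner_comm n t, hnt]
        simp only [conj_trivial]
        linear_combination (9 / 25) * hσ
      have h2 := norm_nonneg ((4 / 5 : ℝ) • n + (σ * (3 / 5)) • t)
      nlinarith
    have hdist : ∀ σ : ℝ, σ ^ 2 = 1 → ‖n - ((4 / 5 : ℝ) • n + (σ * (3 / 5)) • t)‖ ≤ 1 := by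
      intro σ hσ
      have h1 : n - ((4 / 5 : ℝ) • n + (σ * (3 / 5)) • t) =
          (1 / 5 : ℝ) • n - (σ * (3 / 5)) • t := by module
      rw [h1]
      refine (norm_sub_le _ _).trans ?_
      rw [norm_smul, norm_smul, hn, htn, Real.norm_eq_abs, Real.norm_eq_abs, abs_mul]
      have h2 : |σ| = 1 := by
        rw [← abs_one]
        exact (sq_eq_sq_iff_abs_eq_abs _ _).1 (by rw [hσ]; norm_num)
      rw [h2]
      norm_num
    have ha1 : a ^ 2 ≤ 1 := by nlinarith [sq_nonneg b]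
    have hb1 : b ^ 2 ≤ 1 := by nlinarith [sq_nonneg a]
    have hab1 : |a * b| ≤ 1 / 2 := by
      rw [abs_le]
      constructor <;> nlinarith [sq_nonneg (a + b), sq_nonneg (a - b)]
    obtain ⟨hab2, hab3⟩ := abs_le.1 hab1
    refine ⟨(4 / 5 : ℝ) • n + ((1 : ℝ) * (3 / 5)) • t, (4 / 5 : ℝ) • n + ((-1 : ℝ) * (3 / 5)) • t,
      a ^ 2 - 16 / 9 * b ^ 2, 25 / 18 * b ^ 2 + 25 / 24 * (a * b),
      25 / 18 * b ^ 2 - 25 / 24 * (a * b), hunit 1 (by norm_num), hunit (-1) (by norm_num),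
      hdist 1 (by norm_num), hdist (-1) (by norm_num), ?_, ?_, ?_, ?_, ?_⟩
    · rw [abs_le]; constructor <;> nlinarith [sq_nonneg a, sq_nonneg b]
    · rw [abs_le]; constructor <;> nlinarith [sq_nonneg a, sq_nonneg b]
    · rw [abs_le]; constructor <;> nlinarith [sq_nonneg a, sq_nonneg b]
    · linear_combination hab
    · intro χ χ' β ε p0 A μ y
      unfold fxA
      rw [inner_tang hn', inner_tang hn, inner_tang (hunit 1 (by norm_num)),
        inner_tang (hunit (-1) (by norm_num)), hn'2]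
      simp only [inner_add_left, inner_smul_left, conj_trivial]
      linear_combination (-(χ' y * Ups p0 A μ 1 y * ⟪gradient χ y, gradient (WW β ε μ 1) y⟫_ℝ)) * hab

end W2m

end

end TG
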