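import Pool.Agent.TG.W2a
import Pool.Agent.TG.TF
import Pool.Agent.TG.WA

/-!
# Module W2, tools, part 2: the flux between sheets, numerical lemmas (helper60)
-/

open MeasureTheory Metric Set TrI
open scoped InnerProductSpace ContDiff ENNReal

set_option linter.unusedSectionVars false

namespace TG

noncomputable section

namespace W2m

variable {d : ℕ}

lemma fxA_int (hd : 2 ≤ d) {m : Sp d → ℝ} (hm : Continuous m) {n : Sp d} (hn : ‖n‖ = 1)
    {p0 A : ℝ} {μ : Measure (Sp d)} {β : Sp d → ℝ} {ε : ℝ}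
    (hW : ContDiff ℝ ∞ (WW β ε μ 1)) (hU : ContDiff ℝ ∞ (Ups p0 A μ 1)) (p : Sp d) :
    Integrable (fun y => m y * fxA chi (fun x => chi (x - p)) β ε p0 A μ n y) := by
  have h1 : (fun y => m y * fxA chi (fun x => chi (x - p)) β ε p0 A μ n y) =
      fun y => m y * ((∑ j, TFx.Tt p β ε p0 A μ (bv j) (bv j) y) - TFx.Tt p β ε p0 A μ n n y) := by
    funext y
    rw [TFx.fxA_eq hn]
  rw [h1]
  have hc : Continuous fun y => m y *
      ((∑ j, TFx.Tt p β ε p0 A μ (bv j) (bv j) y) - TFx.Tt p β ε p0 A μ n n y) :=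
    hm.mul ((continuous_finsetSum _ fun j _ => (TFx.Tt_smooth hW hU p _ _).continuous).sub
      (TFx.Tt_smooth hW hU p _ _).continuous)
  refine hc.integrable_of_hasCompactSupport ?_
  refine HasCompactSupport.intro (isCompact_closedBall (0 : Sp d) d) fun y hy => ?_
  rw [mem_closedBall, dist_zero_right, not_le] at hy
  rw [TFx.Tt_zero hd p β ε p0 A μ n n hy.le, Finset.sum_eq_zero fun j _ =>
    TFx.Tt_zero hd p β ε p0 A μ (bv j) (bv j) hy.le]
  ring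

/-- the flux between two sheet cells, arbitrary tilt -/
lemma flux (hTF : StmtTF) (hUB : StmtUB) {J : ℕ} (hd : 2 ≤ d) {M C' ε p0 A R0 : ℝ}
    (hC' : 0 < C') (hε : 0 < ε) (hε1 : ε ≤ 1 / 4) (hp0 : 0 < p0) (hp1 : p0 ≤ 1) (hA : 1 ≤ A)
    (hR0 : 4 * A + 4 * d + 20 ≤ R0) : ∃ C C1 : ℝ, 0 < C ∧ 0 < C1 ∧
    ∀ β : Sp d → ℝ, Kit (J + 10) M β → ∀ μ : Measure (Sp d), Gro C' μ →
    ∀ (m m' : Sp d → ℝ) (n n' : Sp d) (s ab ep D δ : ℝ) (p : Sp d), Continuous m →
      Continuous m' → 0 ≤ D → ZP R0 D m → Sheet J R0 ab ep D m n s →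
      ‖n'‖ = 1 → 0 ≤ δ → δ ≤ 1 → (‖n - n'‖ ≤ δ ∨ δ = 1) →
      (∀ Y : Sp d → ℝ, TFn 2 3 Y → (∀ y, R0 ≤ ‖y‖ → Y y = 0) → |∫ y, (m y - m' y) * Y y| ≤ D) →
      |(∫ y, m y * fxA chi (fun x => chi (x - p)) β ε p0 A μ n y)
          - ∫ y, m' y * fxA chi (fun x => chi (x - p)) β ε p0 A μ n' y| ≤
        C * (ep + ab * δ) * Real.sqrt (vv μ 1 0 *
            plInt n s (fun x => zR (d + 2) x * XX β ε μ n 1 x))
          + C * (ep * δ + ab * δ ^ 2) * vv μ 1 0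
          + C * δ * vv μ 1 0 * |blc n s m (d + 1)| + C1 * vv μ 1 0 * D := by
  obtain ⟨C, C1, hC, hC1, hT⟩ := hTF d J hd M C' ε p0 A R0 hC' hε hε1 hp0 hp1 hA hR0
  obtain ⟨CU, hCU, hU⟩ := hUB d 0 hd M C' ε p0 A hC' hε (by linarith) hp0 hp1 hA
  refine ⟨6 * C, 6 * C1, by positivity, by positivity, ?_⟩
  intro β hβ μ hμ m m' n n' s ab ep D δ p hm hm' hD hZ hS hn' hδ0 hδ1 hcase hdir
  obtain ⟨hWs, -, -, -, -, -, -, hUs, -⟩ := hU β (PTm.kit_mono (by omega) hβ) μ hμ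
  have hn := hS.n1
  have hep := hS.ep0
  have hab := hS.ab0
  have hv : 0 ≤ vv μ 1 0 := Real.sqrt_nonneg _
  have hdir' : ∀ Y : Sp d → ℝ, ContDiff ℝ 2 Y → (∀ y, |Y y| ≤ 1) →
      (∀ y, ‖iteratedFDeriv ℝ 2 Y y‖ ≤ 1) → (∀ y, R0 ≤ ‖y‖ → Y y = 0) →
      |∫ y, (m y - m' y) * Y y| ≤ D := fun Y h1 h2 h3 h4 =>
    hdir Y (TFn_of_zero_two h1 h2 h3) h4
  set S := Real.sqrt (vv μ 1 0 * plInt n s (fun x => zR (d + 2) x * XX β ε μ n 1 x)) with hS'
  have hS0 : 0 ≤ S := Real.sqrt_nonneg _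
  -- the bound of TF with |blc|
  have base : ∀ (k : Sp d) (δ : ℝ), ‖k‖ = 1 → ‖n - k‖ ≤ δ → δ ≤ 1 →
      |(∫ y, m y * fxA chi (fun x => chi (x - p)) β ε p0 A μ n y)
          - ∫ y, m' y * fxA chi (fun x => chi (x - p)) β ε p0 A μ k y| ≤
        C * (ep + ab * δ) * S + C * (ep * δ + ab * δ ^ 2) * vv μ 1 0
          + C * δ * vv μ 1 0 * |blc n s m (d + 1)| + C1 * vv μ 1 0 * D := by
    intro k δ hk h1 h2
    have h0 : 0 ≤ δ := (norm_nonneg _).trans h1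
    refine (hT β hβ μ hμ m m' n k s ab ep D δ p hm hm' hD hZ hS hk h1 h2 hdir').trans ?_
    have h3 : C * δ * vv μ 1 0 * blc n s m (d + 1) ≤ C * δ * vv μ 1 0 * |blc n s m (d + 1)| :=
      mul_le_mul_of_nonneg_left (le_abs_self _) (by positivity)
    linarith
  rcases hcase with h1 | h1
  · refine (base n' δ hn' h1 hδ1).trans ?_
    have h3 : 0 ≤ C * (ep + ab * δ) * S + C * (ep * δ + ab * δ ^ 2) * vv μ 1 0
          + C * δ * vv μ 1 0 * |blc n s m (d + 1)| + C1 * vv μ 1 0 * D := by positivity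
    linarith
  · subst h1
    obtain ⟨n1, n2, c0, c1, c2, hn1, hn2, hd1, hd2, hc0, hc1, hc2, hsum, hcomb⟩ :=
      fxA_comb hn hn'
    have e0 := base n 1 hn (by simp) le_rfl
    have e1 := base n1 1 hn1 hd1 le_rfl
    have e2 := base n2 1 hn2 hd2 le_rfl
    set B := C * (ep + ab * 1) * S + C * (ep * 1 + ab * 1 ^ 2) * vv μ 1 0
          + C * 1 * vv μ 1 0 * |blc n s m (d + 1)| + C1 * vv μ 1 0 * D with hB
    have hB0 : 0 ≤ B := (abs_nonneg _).trans e0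
    set Φ := ∫ y, m y * fxA chi (fun x => chi (x - p)) β ε p0 A μ n y with hΦ
    have i0 := fxA_int hd hm' hn hWs hUs (ε := ε) p
    have i1 := fxA_int hd hm' hn1 hWs hUs (ε := ε) p
    have i2 := fxA_int hd hm' hn2 hWs hUs (ε := ε) p
    have hI : ∫ y, m' y * fxA chi (fun x => chi (x - p)) β ε p0 A μ n' y =
        c0 * (∫ y, m' y * fxA chi (fun x => chi (x - p)) β ε p0 A μ n y) +
        c1 * (∫ y, m' y * fxA chi (fun x => chi (x - p)) β ε p0 A μ n1 y) +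
        c2 * (∫ y, m' y * fxA chi (fun x => chi (x - p)) β ε p0 A μ n2 y) := by
      have i01 : Integrable (fun y => c0 * (m' y * fxA chi (fun x => chi (x - p)) β ε p0 A μ n y) +
          c1 * (m' y * fxA chi (fun x => chi (x - p)) β ε p0 A μ n1 y)) :=
        (i0.const_mul _).add (i1.const_mul _)
      rw [← integral_const_mul, ← integral_const_mul, ← integral_const_mul,
        ← integral_add (i0.const_mul _) (i1.const_mul _),
        ← integral_add i01 (i2.const_mul _)]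
      congr 1
      funext y
      rw [hcomb]
      ring
    have hk : ∀ (x y : ℝ), |x| ≤ 2 → |y| ≤ B → |x * y| ≤ 2 * B := fun x y hx hy => by
      rw [abs_mul]
      exact mul_le_mul hx hy (abs_nonneg _) (by norm_num)
    have e3 : Φ - ∫ y, m' y * fxA chi (fun x => chi (x - p)) β ε p0 A μ n' y =
        c0 * (Φ - ∫ y, m' y * fxA chi (fun x => chi (x - p)) β ε p0 A μ n y) +
        c1 * (Φ - ∫ y, m' y * fxA chi (fun x => chi (x - p)) β ε p0 A μ n1 y) +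
        c2 * (Φ - ∫ y, m' y * fxA chi (fun x => chi (x - p)) β ε p0 A μ n2 y) := by
      rw [hI]
      linear_combination (-Φ) * hsum
    rw [e3]
    refine (abs_add_three _ _ _).trans ?_
    have f0 := hk c0 _ hc0 e0
    have f1 := hk c1 _ hc1 e1
    have f2 := hk c2 _ hc2 e2
    have : 6 * C * (ep + ab * 1) * S + 6 * C * (ep * 1 + ab * 1 ^ 2) * vv μ 1 0
          + 6 * C * 1 * vv μ 1 0 * |blc n s m (d + 1)| + 6 * C1 * vv μ 1 0 * D = 6 * B := by
      rw [hB]; ring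
    linarith

/-! ## Numbers -/

/-- Young -/
lemma young {C e X v ab θ : ℝ} (_hC : 0 ≤ C) (_he : 0 ≤ e) (hX : 0 ≤ X) (hv : 0 ≤ v) (hab : 0 < ab)
    (hθ : 0 < θ) : C * e * Real.sqrt (v * X) ≤ θ * (ab * X) + C ^ 2 / θ * (v * (e ^ 2 / ab)) := by
  have h1 : Real.sqrt (v * X) = Real.sqrt v * Real.sqrt X := Real.sqrt_mul hv X
  have hx := Real.sq_sqrt hX
  have hw := Real.sq_sqrt hv
  rw [h1]
  have h2 : C * e * (Real.sqrt v * Real.sqrt X) ≤
      θ * (ab * Real.sqrt X ^ 2) + C ^ 2 / θ * (Real.sqrt v ^ 2 * (e ^ 2 / ab)) := by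
    have h3 : C ^ 2 / θ * (Real.sqrt v ^ 2 * (e ^ 2 / ab)) =
        (C * e * Real.sqrt v) ^ 2 / (θ * ab) := by field_simp
    rw [h3, ← sub_nonneg]
    have h4 : θ * (ab * Real.sqrt X ^ 2) + (C * e * Real.sqrt v) ^ 2 / (θ * ab) -
        C * e * (Real.sqrt v * Real.sqrt X) =
        ((θ * ab * Real.sqrt X - C * e * Real.sqrt v) ^ 2 +
          θ * ab * Real.sqrt X * (C * e * Real.sqrt v)) / (θ * ab) := by
      field_simp
      ring
    rw [h4]
    positivity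
  rwa [hx, hw] at h2

/-- the square of the tilt -/
lemma tilt_sq {ab ab' er er' dl dl' D D' κ Kc K1 δ : ℝ} (hab : 0 < ab) (hab' : 0 < ab')
    (hdl : 0 ≤ dl) (hdl' : 0 ≤ dl') (hD : 0 ≤ D) (hD' : 0 ≤ D') (hκ1 : κ ≤ 1) (hKc : 1 ≤ Kc) (hK1 : 0 < K1) (sdl : dl ≤ κ * ab)
    (sdl' : dl' ≤ κ * ab') (hK : ab' ≤ Kc * ab) (hδ0 : 0 ≤ δ) (hδ1 : δ ≤ 1)
    (ht : ab * δ ≤ K1 * (er + er' + dl + dl' + D + D')) :
    ab * δ ^ 2 ≤ (1 + 6 * K1 ^ 2 * Kc) * (er ^ 2 / ab + er' ^ 2 / ab' + dl + dl' + D + D') := by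
  have q1 : 0 ≤ er ^ 2 / ab := by positivity
  have q2 : 0 ≤ er' ^ 2 / ab' := by positivity
  set T := er ^ 2 / ab + er' ^ 2 / ab' + dl + dl' + D + D' with hT
  have hT0 : 0 ≤ T := by positivity
  have hKK : 0 ≤ 6 * K1 ^ 2 * Kc := by positivity
  have hδ2 : δ ^ 2 ≤ 1 := by nlinarith
  rcases le_total ab (D + D') with h1 | h1
  · have h2 : ab * δ ^ 2 ≤ ab * 1 := mul_le_mul_of_nonneg_left hδ2 hab.le
    have h3 : D + D' ≤ T := by rw [hT]; linarith
    nlinarith [mul_nonneg hKK hT0]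
  · have h2 : (ab * δ) ^ 2 ≤ (K1 * (er + er' + dl + dl' + D + D')) ^ 2 :=
      pow_le_pow_left₀ (by positivity) ht 2
    have h3 : (er + er' + dl + dl' + D + D') ^ 2 ≤
        6 * (er ^ 2 + er' ^ 2 + dl ^ 2 + dl' ^ 2 + D ^ 2 + D' ^ 2) := by
      nlinarith [sq_nonneg (er - er'), sq_nonneg (er - dl), sq_nonneg (er - dl'),
        sq_nonneg (er - D), sq_nonneg (er - D'), sq_nonneg (er' - dl), sq_nonneg (er' - dl'),
        sq_nonneg (er' - D), sq_nonneg (er' - D'), sq_nonneg (dl - dl'), sq_nonneg (dl - D),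
        sq_nonneg (dl - D'), sq_nonneg (dl' - D), sq_nonneg (dl' - D'), sq_nonneg (D - D')]
    have g1 : er ^ 2 ≤ ab * (Kc * (er ^ 2 / ab)) := by
      have : ab * (Kc * (er ^ 2 / ab)) = Kc * er ^ 2 := by field_simp
      rw [this]
      nlinarith [sq_nonneg er]
    have g2 : er' ^ 2 ≤ ab * (Kc * (er' ^ 2 / ab')) := by
      have e : er' ^ 2 = ab' * (er' ^ 2 / ab') := by field_simp
      calc er' ^ 2 = ab' * (er' ^ 2 / ab') := e
        _ ≤ (Kc * ab) * (er' ^ 2 / ab') := mul_le_mul_of_nonneg_right hK q2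
        _ = _ := by ring
    have g3 : dl ^ 2 ≤ ab * (Kc * dl) := by
      have h5 : dl ≤ ab := by nlinarith
      have h6 : dl * dl ≤ ab * dl := mul_le_mul_of_nonneg_right h5 hdl
      have h7 : ab * dl ≤ ab * (Kc * dl) := mul_le_mul_of_nonneg_left (by nlinarith) hab.le
      nlinarith
    have g4 : dl' ^ 2 ≤ ab * (Kc * dl') := by
      have h5 : dl' ≤ Kc * ab := by nlinarith
      have h6 : dl' * dl' ≤ (Kc * ab) * dl' := mul_le_mul_of_nonneg_right h5 hdl'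
      nlinarith
    have g5 : D ^ 2 ≤ ab * (Kc * D) := by
      have h5 : D ≤ ab := by linarith
      have h6 : D * D ≤ ab * D := mul_le_mul_of_nonneg_right h5 hD
      have h7 : ab * D ≤ ab * (Kc * D) := mul_le_mul_of_nonneg_left (by nlinarith) hab.le
      nlinarith
    have g6 : D' ^ 2 ≤ ab * (Kc * D') := by
      have h5 : D' ≤ ab := by linarith
      have h6 : D' * D' ≤ ab * D' := mul_le_mul_of_nonneg_right h5 hD'
      have h7 : ab * D' ≤ ab * (Kc * D') := mul_le_mul_of_nonneg_left (by nlinarith) hab.le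
      nlinarith
    have h4 : (ab * δ) ^ 2 ≤ ab * (6 * K1 ^ 2 * Kc * T) := by
      calc (ab * δ) ^ 2 ≤ (K1 * (er + er' + dl + dl' + D + D')) ^ 2 := h2
        _ = K1 ^ 2 * (er + er' + dl + dl' + D + D') ^ 2 := by ring
        _ ≤ K1 ^ 2 * (6 * (er ^ 2 + er' ^ 2 + dl ^ 2 + dl' ^ 2 + D ^ 2 + D' ^ 2)) :=
            mul_le_mul_of_nonneg_left h3 (by positivity)
        _ ≤ K1 ^ 2 * (6 * (ab * (Kc * (er ^ 2 / ab)) + ab * (Kc * (er' ^ 2 / ab')) +
              ab * (Kc * dl) + ab * (Kc * dl') + ab * (Kc * D) + ab * (Kc * D'))) :=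
            mul_le_mul_of_nonneg_left (by linarith) (by positivity)
        _ = _ := by rw [hT]; ring
    have h5 : ab * (ab * δ ^ 2) ≤ ab * (6 * K1 ^ 2 * Kc * T) := by
      calc ab * (ab * δ ^ 2) = (ab * δ) ^ 2 := by ring
        _ ≤ _ := h4
    have h6 := le_of_mul_le_mul_left h5 hab
    linarith

/-- the tilt is small or the density is controlled by the defects -/
lemma tilt_small {ab ab' er er' dl dl' D D' κ Kc K1 θ δ b K : ℝ} (hab : 0 < ab)
    (hD : 0 ≤ D) (hD' : 0 ≤ D')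
    (hκ : 0 ≤ κ) (hK1 : 0 < K1) (hθ : 0 < θ)
    (hκθ : K1 * (κ * (2 + 2 * Kc)) ≤ θ / 2) (ser : er ≤ κ * ab) (ser' : er' ≤ κ * ab')
    (sdl : dl ≤ κ * ab) (sdl' : dl' ≤ κ * ab') (hK : ab' ≤ Kc * ab) (hδ1 : δ ≤ 1)
    (ht : ab * δ ≤ K1 * (er + er' + dl + dl' + D + D')) (hb : 0 ≤ b) (hKK : 0 ≤ K)
    (hb1 : b ≤ er + K * D) :
    δ * b ≤ θ * b + (K + 2 * K1 * κ / θ) * (D + D') := by
  have hq : 0 ≤ (K + 2 * K1 * κ / θ) * (D + D') := by positivity
  rcases le_total δ θ with h1 | h1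
  · have := mul_le_mul_of_nonneg_right h1 hb
    linarith
  · have h2 : θ * ab ≤ ab * δ := by nlinarith
    have h3 : er + er' + dl + dl' ≤ κ * (2 + 2 * Kc) * ab := by
      have : κ * ab' ≤ κ * (Kc * ab) := mul_le_mul_of_nonneg_left hK hκ
      nlinarith
    have h4 : θ * ab ≤ θ / 2 * ab + K1 * (D + D') := by
      calc θ * ab ≤ K1 * (er + er' + dl + dl' + D + D') := h2.trans ht
        _ ≤ K1 * (κ * (2 + 2 * Kc) * ab + D + D') :=
            mul_le_mul_of_nonneg_left (by linarith) hK1.le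
        _ = K1 * (κ * (2 + 2 * Kc)) * ab + K1 * (D + D') := by ring
        _ ≤ θ / 2 * ab + K1 * (D + D') := by
            have := mul_le_mul_of_nonneg_right hκθ hab.le
            linarith
    have h5 : ab ≤ 2 * K1 / θ * (D + D') := by
      rw [div_mul_eq_mul_div, le_div_iff₀ hθ]
      linarith
    have h6 : b ≤ (K + 2 * K1 * κ / θ) * (D + D') := by
      calc b ≤ κ * ab + K * D := by linarith
        _ ≤ κ * (2 * K1 / θ * (D + D')) + K * (D + D') := by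
            have e1 := mul_le_mul_of_nonneg_left h5 hκ
            have e2 : K * D ≤ K * (D + D') := mul_le_mul_of_nonneg_left (by linarith) hKK
            linarith
        _ = _ := by ring
    have h7 : δ * b ≤ 1 * b := mul_le_mul_of_nonneg_right hδ1 hb
    have h8 : 0 ≤ θ * b := by positivity
    linarith

/-- crude bound of the tilt -/
lemma tilt_crude {ab ab' er er' dl dl' D D' κ Kc K1 δ : ℝ}
    (hκ : 0 ≤ κ) (hK1 : 0 < K1) (ser : er ≤ κ * ab) (ser' : er' ≤ κ * ab')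
    (sdl : dl ≤ κ * ab) (sdl' : dl' ≤ κ * ab') (hK : ab' ≤ Kc * ab)
    (ht : ab * δ ≤ K1 * (er + er' + dl + dl' + D + D')) :
    ab * δ ≤ K1 * (κ * (2 + 2 * Kc)) * ab + K1 * (D + D') := by
  have h3 : er + er' + dl + dl' ≤ κ * (2 + 2 * Kc) * ab := by
    have : κ * ab' ≤ κ * (Kc * ab) := mul_le_mul_of_nonneg_left hK hκ
    nlinarith
  calc ab * δ ≤ K1 * (er + er' + dl + dl' + D + D') := ht
    _ ≤ K1 * (κ * (2 + 2 * Kc) * ab + D + D') := mul_le_mul_of_nonneg_left (by linarith) hK1.le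
    _ = _ := by ring

end W2m

end

end TG
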