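import Pool.Agent.TG.W2b

/-!
# Module W2, tools, part 3: frames, fluxes of a cell of type A (helper60)
-/

open MeasureTheory Metric Set TrI
open scoped InnerProductSpace ContDiff ENNReal

set_option linter.unusedSectionVars false

namespace TG

noncomputable section

namespace W2m

variable {d : ℕ}

/-! ## Adjacent cells -/

lemma mem_adj {Q Q' : Cell d} : Q' ∈ adj Q ↔ Q'.1 = Q.1 ∧
    ∀ j, Q.2 j - 1 ≤ Q'.2 j ∧ Q'.2 j ≤ Q.2 j + 1 := by
  unfold adj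
  rw [Finset.mem_product, Finset.mem_singleton, Fintype.mem_piFinset]
  simp only [Finset.mem_Icc]

lemma self_adj (Q : Cell d) : Q ∈ adj Q := mem_adj.2 ⟨rfl, fun j => ⟨by omega, by omega⟩⟩

lemma adj_symm {Q Q' : Cell d} (h : Q' ∈ adj Q) : Q ∈ adj Q' := by
  rw [mem_adj] at h ⊢
  exact ⟨h.1.symm, fun j => ⟨by linarith [(h.2 j).2], by linarith [(h.2 j).1]⟩⟩

lemma adj_card (Q : Cell d) : (adj Q).card = 3 ^ d := by
  unfold adj
  rw [Finset.card_product, Finset.card_singleton, one_mul, Fintype.card_piFinset]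
  have h : ∀ j : Fin d, (Finset.Icc (Q.2 j - 1) (Q.2 j + 1)).card = 3 := fun j => by
    rw [Int.card_Icc]
    omega
  simp only [h]
  simp

section Wd

variable {E : Type} [NormedAddCommGroup E] [InnerProductSpace ℝ E]

lemma mQ_cont (s0 : ℝ) {f : Sp d → E} (hf : Continuous f) (e : E) (Q : Cell d) :
    Continuous (mQ s0 f e Q) := by
  unfold mQ rs
  fun_prop

/-- the gain on the plane in the ball d + 2 -/
def gX (W : Wld d E) (Q : Cell d) : ℝ :=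
  plInt (W.nv Q) (W.sv Q)
    (fun x => zR (d + 2) x * XX (W.be Q) W.X.ε (W.mu Q) (W.nv Q) 1 x)

/-- the flux -/
def Fl (W : Wld d E) (Q Q' : Cell d) : ℝ := Fct W.X W.s0 W.μ W.f W.e W.kd W.nv Q Q'

/-- the tilt and error bracket -/
def Er (W : Wld d E) (Q Q' : Cell d) : ℝ :=
  W.er Q + W.er Q' + W.dl Q + W.dl Q' + W.D Q + W.D Q'

end Wd

/-- frames -/
lemma frame (hFM : StmtFM) (hd : 2 ≤ d) {C' : ℝ} (hC' : 0 < C') {s0 : ℝ} (hs0 : 0 < s0)
    {μ : Measure (Sp d)} (hμ : Gro C' μ) (Q : Cell d) :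
    Gro C' (muQ s0 μ Q) ∧ vv (muQ s0 μ Q) 1 0 = omC μ s0 Q := by
  obtain ⟨-, -, -, h⟩ := hFM d hd C' hC' s0 hs0 0 Q Q (by simp) (tw s0 Q Q) rfl
  exact ⟨(h μ hμ).1, (h μ hμ).2.1⟩

lemma fluxes (hTF : StmtTF) (hUB : StmtUB) (hP1 : StmtP1) (hW1 : StmtW1) (hNS : StmtNS)
    (hFM : StmtFM) {J JA : ℕ} (hd : 2 ≤ d) {M c0 C' c R0 : ℝ} {X : Prm d}
    (hX : XOK J JA M c0 C' c R0 X) {Rr : ℝ} (hRr : 4 * X.A + 4 * d + 20 ≤ Rr)
    (hRr' : Rr ≤ 64 * R0) :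
    ∃ C C1 : ℝ, 0 < C ∧ 0 < C1 ∧ ∀ Kc : ℝ, 1 ≤ Kc → ∃ (κ K1 Rz : ℝ), 0 < κ ∧ 0 < K1 ∧
    ∀ (E : Type) [NormedAddCommGroup E] [InnerProductSpace ℝ E] [FiniteDimensional ℝ E]
      (W : Wld d E), WOK JA C' R0 Rz X W → ∀ Q : Cell d,
      Ash J JA R0 κ Kc W Q → |W.sv Q| ≤ 3 / 2 * Rr → ∀ Q' ∈ adj Q, ∃ δ : ℝ, 0 ≤ δ ∧ δ ≤ 1 ∧
      W.ab Q * δ ≤ K1 * Er W Q Q' ∧
      |Fl W Q Q'| ≤ C * (W.er Q + W.ab Q * δ) * Real.sqrt (W.v Q * gX W Q)
        + C * (W.er Q * δ + W.ab Q * δ ^ 2) * W.v Q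
        + C * δ * W.v Q * |blc (W.nv Q) (W.sv Q) (W.m Q) (d + 1)|
        + C1 * W.v Q * (W.dl Q + 3 * W.D Q) := by
  have hp := hX.prm
  obtain ⟨C, C1, hC, hC1, hfl⟩ := flux hTF hUB (J := J) hd (M := M) hX.C'_pos hp.ε_pos hp.ε_le
    hp.p0_pos hp.p0_le hp.A_ge hRr
  obtain ⟨_, _, hP⟩ := hP1 d J JA hd M c0 C' c R0 X hX
  obtain ⟨_, Rz2, _, hW1'⟩ := hW1 d J JA hd M c0 C' c R0 X hX
  refine ⟨C, C1, hC, hC1, fun Kc hKc => ?_⟩
  obtain ⟨κ, K1, Rz1, hκ, hK1, hP'⟩ := hP Kc hKc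
  refine ⟨κ, K1, max (64 * R0) (max Rz1 Rz2), hκ, hK1, ?_⟩
  intro E _ _ _ W hW Q hA hs Q' hQ'
  have hXe := hW.X_eq
  subst hXe
  have hd1 : 1 ≤ d := by omega
  have hR0 := hX.R0_ge
  have hAg := hp.A_ge
  have hd' : (2 : ℝ) ≤ d := by exact_mod_cast hd
  have hsq : Real.sqrt d ≤ 3 * R0 := by
    have h1 : Real.sqrt d ≤ d := by
      rw [Real.sqrt_le_left (by positivity)]
      nlinarith
    linarith
  have hsub : adj Q ⊆ W.ns R0 JA Q := (hNS d hd1 W.s0 (3 * R0) hW.s0_pos (by linarith) JA Q).2.2.2.2.2.2.2 hsq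
  have hlev : Q'.1 = Q.1 := (mem_adj.1 hQ').1
  obtain ⟨hsv, hSh, hAll⟩ := hA
  obtain ⟨hkd', hSh', hab'⟩ := hAll Q' (hsub hQ')
  obtain ⟨hkd, -, -⟩ := hAll Q (hsub (self_adj Q))
  have hWa := WOK_mono hW ((le_max_left Rz1 Rz2).trans (le_max_right _ _))
  have hWb := WOK_mono hW ((le_max_right Rz1 Rz2).trans (le_max_right _ _))
  have hWc := WOK_mono hW (le_max_left (64 * R0) (max Rz1 Rz2))
  obtain ⟨-, -, -, σ, hσ, ht⟩ := hP' E W hWa Q hsv hSh Q' (hsub hQ') hSh' hab' 0 (by simpa using hlev)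
  obtain ⟨hgro, hv⟩ := frame hFM hd hX.C'_pos hW.s0_pos hW.gro Q
  have hvQ : W.v Q = vv (W.mu Q) 1 0 := hv.symm
  have hv0 : 0 ≤ W.v Q := by rw [hvQ]; exact Real.sqrt_nonneg _
  have hab := hSh.sh.ab0
  have her := hSh.sh.ep0
  have hD0 := hW.D0 Q
  have hdl0 := hSh.dl0
  by_cases hN : W.Near Q'
  · refine ⟨min 1 ‖W.nv Q - σ • W.nv Q'‖, le_min zero_le_one (norm_nonneg _), min_le_left _ _, ?_, ?_⟩
    · exact (mul_le_mul_of_nonneg_left (min_le_right _ _) hab.le).trans ht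
    · have hn' : ‖σ • W.nv Q'‖ = 1 := by
        rw [norm_smul, hW.nu Q', mul_one]
        rcases hσ with rfl | rfl <;> simp
      have hmain := hfl (W.be Q) (PTm.kit_mono (by omega) (hX.ker.kit _)) (W.mu Q) hgro (W.m Q)
        (mQ W.s0 W.f (W.e Q') Q) (W.nv Q) (σ • W.nv Q') (W.sv Q) (W.ab Q) (W.er Q)
        (W.dl Q + 3 * W.D Q) (min 1 ‖W.nv Q - σ • W.nv Q'‖) (dsp Q Q')
        (mQ_cont _ hW.fc _ _) (mQ_cont _ hW.fc _ _) (by positivity)
        (ZP_mono (hWc.zp Q) hRr' (by linarith))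
        (WT.sheet_mono hSh.sh le_rfl hRr' hs le_rfl (by linarith)) hn'
        (le_min zero_le_one (norm_nonneg _)) (min_le_left _ _) (by
          rcases le_total 1 ‖W.nv Q - σ • W.nv Q'‖ with h1 | h1
          · exact Or.inr (min_eq_left h1)
          · exact Or.inl (by rw [min_eq_right h1])) (fun Y hY hY0 => by
          have h1 := hWc.dir Q Q' (hsub hQ') Y 3 hY (fun y hy => hY0 y (hRr'.trans hy))
          have h2 : ∫ y, (W.m Q y - mQ W.s0 W.f (W.e Q') Q y) * Y y =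
              -∫ y, (mQ W.s0 W.f (W.e Q') Q y - mQ W.s0 W.f (W.e Q) Q y) * Y y := by
            rw [← integral_neg]
            congr 1
            funext y
            unfold Wld.m
            ring
          rw [h2, abs_neg]
          exact h1.trans (by linarith))
      rw [← hvQ] at hmain
      have hF : Fl W Q Q' = (∫ y, W.m Q y * fxA chi (fun x => chi (x - dsp Q Q')) (W.be Q) W.X.ε
          W.X.p0 W.X.A (W.mu Q) (W.nv Q) y) - ∫ y, mQ W.s0 W.f (W.e Q') Q y *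
          fxA chi (fun x => chi (x - dsp Q Q')) (W.be Q) W.X.ε W.X.p0 W.X.A (W.mu Q)
            (σ • W.nv Q') y := by
        unfold Fl Fct flx
        rw [if_pos hkd, if_pos hkd']
        simp only [WT.fxA_sign _ _ _ _ _ _ _ _ _ hσ]
        rfl
      rw [hF]
      exact hmain
  · obtain ⟨-, -, h3, -, -⟩ := hW1' E W hWb Q' hN
    have h4 := (h3 Q (adj_symm hQ')).2
    refine ⟨0, le_rfl, zero_le_one, ?_, ?_⟩
    · rw [mul_zero]
      have h5 := hSh'.sh.ep0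
      have h6 := hSh'.dl0
      have h7 := hW.D0 Q'
      unfold Er
      positivity
    · have h5 : Fl W Q Q' = 0 := h4
      rw [h5, abs_zero]
      positivity

end W2m

end

end TG
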