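import Pool.Agent.TG.W2d

/-!
# Module W2, tools, part 5: the cases A1 and A2 (helper60)
-/

open MeasureTheory Metric Set TrI
open scoped InnerProductSpace ContDiff ENNReal

set_option linter.unusedSectionVars false

namespace TG

noncomputable section

namespace W2m

variable {d : ℕ}

/-- bounds of the off-sheet masses -/
lemma bnds (hd : 2 ≤ d) {J JA : ℕ} {M c0 C' c R0 : ℝ} {X : Prm d}
    (hX : XOK J JA M c0 C' c R0 X) : ∃ Kb : ℝ, 0 < Kb ∧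
    ∀ (E : Type) [NormedAddCommGroup E] [InnerProductSpace ℝ E] [FiniteDimensional ℝ E]
      (W : Wld d E) (Rz κ : ℝ), 64 * R0 + 1 ≤ Rz → WOK JA C' R0 Rz X W → ∀ Q : Cell d,
      WSh J R0 κ W Q → |W.sv Q| ≤ 32 * R0 + 4 →
      |blc (W.nv Q) (W.sv Q) (W.m Q) (d + 1)| ≤ W.er Q + Kb * W.D Q ∧
      |blc (W.nv Q) (W.sv Q) (W.m Q) (d + 1)| ≤
        max 0 (blc (W.nv Q) (W.sv Q) (W.m Q) (R0 + 4)) + Kb * W.D Q ∧
      -(Kb * W.D Q) ≤ ∫ y, W.m Q y * (chi y * hgt (W.nv Q) (W.sv Q) y ^ 2) ∧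
      ∫ y, W.m Q y * (chi y * hgt (W.nv Q) (W.sv Q) y ^ 2) ≤ W.er Q + Kb * W.D Q := by
  have hd1 : 1 ≤ d := by omega
  have hd' : (2 : ℝ) ≤ d := by exact_mod_cast hd
  have hR := hX.R0_ge
  have hA := hX.prm.A_ge
  obtain ⟨K1, hK1, h1⟩ := blc_le (d := d) (r := d + 1) (r' := 64 * R0) (by positivity)
    (by linarith) (32 * R0 + 4)
  obtain ⟨K2, hK2, h2⟩ := blc_le (d := d) (r := d + 1) (r' := R0 + 4) (by positivity)
    (by linarith) (32 * R0 + 4)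
  obtain ⟨K3, hK3, h3⟩ := blc_ge (d := d) (r := d + 1) (by positivity) (32 * R0 + 4)
  obtain ⟨K4, hK4, h4⟩ := chi_ge (d := d) hd1 (32 * R0 + 4)
  obtain ⟨K5, hK5, h5⟩ := chi_le (d := d) hd1 (r := 64 * R0) (by linarith) (32 * R0 + 4)
  refine ⟨K1 + K2 + K3 + K4 + K5, by positivity, ?_⟩
  intro E _ _ _ W Rz κ hRz hW Q hS hs
  have hm : Continuous (W.m Q) := mQ_cont _ hW.fc _ _
  have hn := hW.nu Q
  have hD := hW.D0 Q
  have hZ := fun r (hr : r ≤ 64 * R0 + 1) => ZP_mono (hW.zp Q) (hr.trans hRz) le_rfl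
  have e1 := h1 (W.m Q) (W.nv Q) (W.sv Q) (W.D Q) hm hn hs (hZ _ le_rfl)
  have e2 := h2 (W.m Q) (W.nv Q) (W.sv Q) (W.D Q) hm hn hs (hZ _ (by linarith))
  have e3 := h3 (W.m Q) (W.nv Q) (W.sv Q) (W.D Q) hn hs (hZ _ (by linarith))
  have e4 := h4 (W.m Q) (W.nv Q) (W.sv Q) (W.D Q) hn hs (hZ _ (by linarith))
  have e5 := h5 (W.m Q) (W.nv Q) (W.sv Q) (W.D Q) hm hn hs (hZ _ le_rfl)
  have e6 := hS.bl
  have e7 := hS.sh.ep0
  have p1 := mul_nonneg hK1.le hD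
  have p2 := mul_nonneg hK2.le hD
  have p3 := mul_nonneg hK3.le hD
  have p4 := mul_nonneg hK4.le hD
  have p5 := mul_nonneg hK5.le hD
  have hs1 : (K1 + K2 + K3 + K4 + K5) * W.D Q =
    K1 * W.D Q + K2 * W.D Q + K3 * W.D Q + K4 * W.D Q + K5 * W.D Q := by ring
  rw [hs1]
  refine ⟨?_, ?_, ?_, ?_⟩
  · rw [abs_le]; constructor <;> linarith
  · have e8 := le_max_left 0 (blc (W.nv Q) (W.sv Q) (W.m Q) (R0 + 4))
    have e9 := le_max_right 0 (blc (W.nv Q) (W.sv Q) (W.m Q) (R0 + 4))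
    rw [abs_le]; constructor <;> linarith
  · linarith
  · linarith

/-- the gain on the plane is at most the value of the potential -/
lemma gX_le (hWA : StmtWA) (hFM : StmtFM) (hd : 2 ≤ d) {J JA : ℕ} {M c0 C' c R0 : ℝ} {X : Prm d}
    (hX : XOK J JA M c0 C' c R0 X) : ∃ S : ℝ, 0 ≤ S ∧
    ∀ (E : Type) [NormedAddCommGroup E] [InnerProductSpace ℝ E] [FiniteDimensional ℝ E]
      (W : Wld d E) (Rz : ℝ), WOK JA C' R0 Rz X W → ∀ Q : Cell d,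
      gX W Q ≤ S ^ 2 * W.v Q := by
  have hp := hX.prm
  obtain ⟨C, hC, h⟩ := hWA d 0 hd M C' X.ε hX.C'_pos hp.ε_pos (by linarith [hp.ε_le])
  obtain ⟨C2, hC2, h2⟩ := TFx.pl_le (d := d) (by omega) ((d : ℝ) + 3)
  set H : ℝ := Real.sqrt ((1 + ((d : ℝ) + 3)) ^ d) with hH
  have hH0 : 0 ≤ H := Real.sqrt_nonneg _
  refine ⟨Real.sqrt (C2 * (C * H)), Real.sqrt_nonneg _, ?_⟩
  intro E _ _ _ W Rz hW Q
  have hXe := hW.X_eq
  subst hXe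
  obtain ⟨hgro, hv⟩ := frame hFM hd hX.C'_pos hW.s0_pos hW.gro Q
  have hvQ : W.v Q = vv (W.mu Q) 1 0 := hv.symm
  obtain ⟨-, -, -, -, h3⟩ := h (W.be Q) (PTm.kit_mono (by omega) (hX.ker.kit _)) (W.mu Q) hgro
  obtain ⟨-, h4, h5, -⟩ := h3 (W.nv Q) (hW.nu Q)
  rw [Real.sq_sqrt (by positivity), hvQ]
  have hv0 : 0 ≤ vv (W.mu Q) 1 0 := Real.sqrt_nonneg _
  refine (le_abs_self _).trans ?_
  rw [mul_assoc]
  refine h2 (W.nv Q) (hW.nu Q) (W.sv Q) _ _ (by positivity) (fun y hy => ?_) (fun y _ hy => ?_)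
  · rw [TU.zR_zero (by linarith), zero_mul]
  · have h6 := h5 0 le_rfl y
    rw [norm_iteratedFDeriv_zero, Real.norm_eq_abs] at h6
    rw [abs_mul, abs_of_nonneg (TU.zR_nonneg _ _)]
    have h7 := TA2Aux.vv_harnack hd hX.C'_pos hgro hy
    calc zR (↑d + 2) y * |XX (W.be Q) W.X.ε (W.mu Q) (W.nv Q) 1 y| ≤
          1 * |XX (W.be Q) W.X.ε (W.mu Q) (W.nv Q) 1 y| :=
          mul_le_mul_of_nonneg_right (TU.zR_le_one _ _) (abs_nonneg _)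
      _ ≤ C * vv (W.mu Q) 1 y := by rw [one_mul]; exact h6
      _ ≤ C * (H * vv (W.mu Q) 1 0) := mul_le_mul_of_nonneg_left h7 hC.le
      _ = C * H * vv (W.mu Q) 1 0 := by ring

/-- case A1 -/
lemma caseA1 (hTA1 : StmtTA1) (hTD1 : StmtTD1) (hTF : StmtTF) (hUB : StmtUB) (hP1 : StmtP1)
    (hW1 : StmtW1) (hNS : StmtNS) (hFM : StmtFM) (hd : 2 ≤ d) {J JA : ℕ} {M c0 C' c R0 : ℝ}
    {X : Prm d} (hX : XOK J JA M c0 C' c R0 X) :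
    ∃ cA : ℝ, 0 < cA ∧ ∀ (θ Kc : ℝ), 0 < θ → 1 ≤ Kc → ∃ (I : ℕ) (i1 κ K Rz : ℝ), I ≤ JA ∧
      0 < i1 ∧ 0 < κ ∧ 0 < K ∧
    ∀ (E : Type) [NormedAddCommGroup E] [InnerProductSpace ℝ E] [FiniteDimensional ℝ E]
      (W : Wld d E), WOK JA C' R0 Rz X W → ∀ Q : Cell d, W.Near Q → Ash J JA R0 κ Kc W Q →
      |W.sv Q| ≤ 3 / 2 * R0 →
      (∀ i ≤ I, plInt (W.nv Q) (W.sv Q)
        (fun x => zR (2 * R0 - 1) x * XX (W.bi Q i) W.X.ε (W.mu Q) (W.nv Q) (2 ^ i) x) ≤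
          i1 * W.v Q) →
      cA * (W.sg Q + W.bl Q) ≤ nt0 W Q + θ * (W.ab Q * gX W Q) +
        θ * (W.v Q * |blc (W.nv Q) (W.sv Q) (W.m Q) (d + 1)|) +
        K * (W.v Q * (W.sE R0 JA Q + W.sD R0 JA Q)) := by
  have hp := hX.prm
  have hd' : (2 : ℝ) ≤ d := by exact_mod_cast hd
  have hR := hX.R0_ge
  have hAg := hp.A_ge
  have hRr : 4 * X.A + 4 * d + 20 ≤ R0 := by linarith
  obtain ⟨cA, hcA, hTA⟩ := hTA1 d J hd M C' X.ε X.p0 X.A c R0 hX.C'_pos hp.ε_pos hp.ε_le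
    hX.far hRr
  refine ⟨cA, hcA, fun θ Kc hθ hKc => ?_⟩
  set N3 : ℝ := 3 ^ d with hN3
  have hN30 : 0 < N3 := by positivity
  set θ2 : ℝ := θ / (2 * (N3 + 1)) with hθ2
  have hθ20 : 0 < θ2 := by positivity
  obtain ⟨ia, Ca, hia, hCa, hTA'⟩ := hTA (θ / 4) (by positivity)
  obtain ⟨I, ie, Cd, hI8, hI32, hie, hCd, hTD'⟩ := hTD1 d J hd M C' X.ε X.p0 X.A R0 (θ / 4)
    hX.C'_pos hp.ε_pos hp.ε_le hp.p0_pos hp.p0_le hp.A_ge hRr (by positivity)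
  obtain ⟨C, C1, hC, hC1, hfl⟩ := fluxes hTF hUB hP1 hW1 hNS hFM hd hX hRr (by linarith)
  obtain ⟨κ1, K1, Rz1, hκ1, hK1, hfl'⟩ := hfl Kc hKc
  obtain ⟨Kb, hKb, hb⟩ := bnds hd hX
  set κ2 : ℝ := θ2 / C / 2 / (K1 * (2 + 2 * Kc)) with hκ2
  have hκ20 : 0 < κ2 := by positivity
  set Kf : ℝ := 2 * C ^ 2 / θ2 * (1 + (1 + 6 * K1 ^ 2 * Kc)) + C * (1 + 2 * (1 + 6 * K1 ^ 2 * Kc)) +
          C * (Kb + 2 * K1 / (θ2 / C)) + 3 * C1 with hKf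
  have hKf0 : 0 < Kf := by positivity
  have hIJ : I ≤ JA := by
    have h1 : (2 : ℝ) ^ I ≤ 2 ^ JA := hI32.trans hX.JA_ge
    exact (pow_le_pow_iff_right₀ (by norm_num)).1 h1
  refine ⟨I, min ia ie, min (min κ1 1) κ2, (Ca + Cd) ^ 2 / θ2 + (Ca + Cd) + N3 * (2 * Kf),
    max (64 * R0 + 1) Rz1, hIJ, lt_min hia hie, lt_min (lt_min hκ1 one_pos) hκ20, by positivity, ?_⟩
  intro E _ _ _ W hW Q hN hA hs hgain
  have hXe := hW.X_eq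
  subst hXe
  set κ := min (min κ1 1) κ2 with hκ
  have hκ0 : 0 < κ := lt_min (lt_min hκ1 one_pos) hκ20
  have hκle1 : κ ≤ κ1 := (min_le_left _ _).trans (min_le_left _ _)
  have hκle2 : κ ≤ 1 := (min_le_left _ _).trans (min_le_right _ _)
  have hκle3 : κ ≤ κ2 := min_le_right _ _
  have hκθ : K1 * (κ * (2 + 2 * Kc)) ≤ θ2 / C / 2 := by
    calc K1 * (κ * (2 + 2 * Kc)) ≤ K1 * (κ2 * (2 + 2 * Kc)) := by gcongr
      _ = θ2 / C / 2 := by rw [hκ2]; field_simp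
  have hWa := WOK_mono hW (le_max_left (64 * R0 + 1) Rz1)
  have hWb := WOK_mono hW (le_max_right (64 * R0 + 1) Rz1)
  have hflQ := hfl' E W hWb Q (Ash_mono hA hκle1) hs
  obtain ⟨hsv, hSh, hAll⟩ := hA
  have hsub := adj_ns hNS hd (R0 := R0) (by linarith) JA W hW.s0_pos Q
  have hQns : Q ∈ W.ns R0 JA Q := hsub (self_adj Q)
  obtain ⟨hb1, -, -, -⟩ := hb E W _ κ le_rfl hWa Q hSh hsv
  obtain ⟨hgro, hv⟩ := frame hFM hd hX.C'_pos hW.s0_pos hW.gro Q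
  have hvQ : W.v Q = vv (W.mu Q) 1 0 := hv.symm
  have hv0 : 0 ≤ W.v Q := v_nonneg W Q
  have hab := hSh.sh.ab0
  have her := hSh.sh.ep0
  have hD0 := hW.D0 Q
  have hdl0 := hSh.dl0
  have hX0 := gX_nonneg hX hWa Q
  set b := |blc (W.nv Q) (W.sv Q) (W.m Q) (d + 1)| with hbd
  have hb0 : 0 ≤ b := abs_nonneg _
  have hm : Continuous (W.m Q) := mQ_cont _ hW.fc _ _
  have hZ : ZP R0 (W.dl Q + W.D Q) (W.m Q) := ZP_mono (hWa.zp Q) (by linarith) (by linarith)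
  have hSt := WT.sheet_mono hSh.sh (le_refl J) (by linarith : R0 ≤ 64 * R0) hs le_rfl
    (by linarith : W.dl Q ≤ W.dl Q + W.D Q)
  -- the sums
  set SE := W.sE R0 JA Q with hSE
  set SD := W.sD R0 JA Q with hSD
  have hEg : ∀ Q' ∈ W.ns R0 JA Q, W.er Q' ^ 2 / W.ab Q' + W.dl Q' ≤ SE := fun Q' hQ' =>
    sE_ge ⟨hsv, hSh, hAll⟩ hQns hN hQ'
  have hDg : ∀ Q' ∈ W.ns R0 JA Q, W.D Q' ≤ SD := fun Q' hQ' => sD_ge hW hQ'
  have hq0 : 0 ≤ W.er Q ^ 2 / W.ab Q := by positivity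
  -- the gain
  have hg0 := hgain 0 (Nat.zero_le _)
  have hTAQ := hTA' (W.be Q) (hX.ker.kit _) (W.mu Q) hgro (W.m Q) (W.nv Q) (W.sv Q) (W.ab Q)
    (W.er Q) (W.dl Q + W.D Q) hm (by positivity) hZ hSt (by
      rw [← hvQ]
      have h1 : plInt (W.nv Q) (W.sv Q) (fun x => zR (2 * R0 - 1) x *
          XX (W.be Q) W.X.ε (W.mu Q) (W.nv Q) 1 x) ≤ min ia ie * W.v Q := by
        have h2 := hg0
        rw [pow_zero, show W.bi Q 0 = W.be Q from rfl] at h2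
        exact h2
      exact h1.trans (mul_le_mul_of_nonneg_right (min_le_left _ _) hv0))
  have hTDQ := hTD' (fun i => W.bi Q i) (fun i => hX.ker.kit _) (W.mu Q) hgro (W.m Q) (W.nv Q)
    (W.sv Q) (W.ab Q) (W.er Q) (W.dl Q + W.D Q) hm (by positivity) hZ hSt (fun i hi => by
      rw [← hvQ]
      exact (hgain i hi).trans (mul_le_mul_of_nonneg_right (min_le_right _ _) hv0))
  rw [← hvQ] at hTAQ hTDQ
  -- the fluxes
  have hF : ∀ Q' ∈ adj Q, |Fl W Q Q'| ≤ θ2 * (W.ab Q * gX W Q) + θ2 * (W.v Q * b) +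
      2 * Kf * (W.v Q * (SE + SD)) := by
    intro Q' hQ'
    obtain ⟨δ, hδ0, hδ1, ht, hFl⟩ := hflQ Q' hQ'
    obtain ⟨-, hSh', hab'⟩ := hAll Q' (hsub hQ')
    refine hFl.trans ((fl_small (Kb := Kb) hC hC1 hK1 hKc hκ0.le hκle2 hθ20 hKb.le hab
      hSh'.sh.ab0 her hdl0 hSh'.dl0 hD0 (hW.D0 Q') hv0 hX0 hb0 hδ0 hδ1 hSh.small hSh'.small
      hSh.smalld hSh'.smalld hab' hκθ ht hb1).trans ?_)
    rw [← hKf]
    have h1 := hEg Q hQns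
    have h2 := hEg Q' (hsub hQ')
    have h3 := hDg Q hQns
    have h4 := hDg Q' (hsub hQ')
    have h5 : W.er Q ^ 2 / W.ab Q + W.er Q' ^ 2 / W.ab Q' + W.dl Q + W.dl Q' + W.D Q + W.D Q' ≤
        2 * (SE + SD) := by linarith
    have h6 : Kf * (W.v Q * (W.er Q ^ 2 / W.ab Q + W.er Q' ^ 2 / W.ab Q' + W.dl Q + W.dl Q' +
        W.D Q + W.D Q')) ≤ Kf * (W.v Q * (2 * (SE + SD))) := by gcongr
    linarith
  have hSum : ∑ Q' ∈ adj Q, Fl W Q Q' ≤ N3 * (θ2 * (W.ab Q * gX W Q) + θ2 * (W.v Q * b) +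
      2 * Kf * (W.v Q * (SE + SD))) := by
    have h1 := Finset.sum_le_card_nsmul (adj Q) (fun Q' => Fl W Q Q') _
      (fun Q' hQ' => (le_abs_self _).trans (hF Q' hQ'))
    rw [adj_card, nsmul_eq_mul] at h1
    push_cast at h1
    exact h1
  -- Young for the gain and the divergence
  have hy := young (C := Ca + Cd) (by positivity) her hX0 hv0 hab hθ20
  have hTA2 : cA * (W.sg Q + W.bl Q) - Ca * W.er Q * Real.sqrt (W.v Q * gX W Q) -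
      θ / 4 * W.v Q * blc (W.nv Q) (W.sv Q) (W.m Q) (d + 1) - Ca * W.v Q * (W.dl Q + W.D Q) ≤
      ∫ y, W.m Q y * (chi y * Hn (W.be Q) W.X.ε W.X.p0 W.X.A (W.mu Q) (W.nv Q) 1 y) := hTAQ
  have hTD2 : |∫ y, W.m Q y * dvT chi (W.be Q) W.X.ε W.X.p0 W.X.A (W.mu Q) (W.nv Q) y| ≤
      Cd * W.er Q * Real.sqrt (W.v Q * gX W Q) +
      θ / 4 * W.v Q * blc (W.nv Q) (W.sv Q) (W.m Q) (d + 1) + Cd * W.v Q * (W.dl Q + W.D Q) := hTDQ
  have hTD3 := neg_le_of_abs_le hTD2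
  have hbl : θ / 4 * W.v Q * blc (W.nv Q) (W.sv Q) (W.m Q) (d + 1) ≤ θ / 4 * (W.v Q * b) := by
    rw [mul_assoc]
    exact mul_le_mul_of_nonneg_left (mul_le_mul_of_nonneg_left (le_abs_self _) hv0) (by positivity)
  have hDs : (Ca + Cd) * W.v Q * (W.dl Q + W.D Q) ≤ (Ca + Cd) * (W.v Q * (SE + SD)) := by
    have h1 := hEg Q hQns
    have h2 := hDg Q hQns
    have h3 : W.dl Q + W.D Q ≤ SE + SD := by linarith
    calc (Ca + Cd) * W.v Q * (W.dl Q + W.D Q) ≤ (Ca + Cd) * W.v Q * (SE + SD) := by gcongr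
      _ = _ := by ring
  have hEs : (Ca + Cd) ^ 2 / θ2 * (W.v Q * (W.er Q ^ 2 / W.ab Q)) ≤
      (Ca + Cd) ^ 2 / θ2 * (W.v Q * (SE + SD)) := by
    have h1 := hEg Q hQns
    have h2 := hDg Q hQns
    have h3 : W.er Q ^ 2 / W.ab Q ≤ SE + SD := by linarith
    gcongr
  have hth1 : θ2 * (W.ab Q * gX W Q) + N3 * (θ2 * (W.ab Q * gX W Q)) ≤
      θ * (W.ab Q * gX W Q) := by
    have h1 : θ2 * (W.ab Q * gX W Q) + N3 * (θ2 * (W.ab Q * gX W Q)) =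
        θ / 2 * (W.ab Q * gX W Q) := by
      rw [hθ2]; field_simp; ring
    rw [h1]
    have : 0 ≤ θ * (W.ab Q * gX W Q) := by positivity
    linarith
  have hth2 : N3 * (θ2 * (W.v Q * b)) ≤ θ / 2 * (W.v Q * b) := by
    have h1 : N3 * θ2 ≤ θ / 2 := by
      rw [hθ2, ← mul_div_assoc, div_le_iff₀ (by positivity)]
      nlinarith
    calc N3 * (θ2 * (W.v Q * b)) = N3 * θ2 * (W.v Q * b) := by ring
      _ ≤ _ := mul_le_mul_of_nonneg_right h1 (by positivity)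
  have hexp : ((Ca + Cd) ^ 2 / θ2 + (Ca + Cd) + N3 * (2 * Kf)) * (W.v Q * (SE + SD)) =
      (Ca + Cd) ^ 2 / θ2 * (W.v Q * (SE + SD)) + (Ca + Cd) * (W.v Q * (SE + SD)) +
        N3 * (2 * Kf * (W.v Q * (SE + SD))) := by ring
  rw [hexp]
  unfold nt0
  have hy2 : (Ca + Cd) * W.er Q * Real.sqrt (W.v Q * gX W Q) =
      Ca * W.er Q * Real.sqrt (W.v Q * gX W Q) + Cd * W.er Q * Real.sqrt (W.v Q * gX W Q) := by ring
  have hD2 : (Ca + Cd) * W.v Q * (W.dl Q + W.D Q) =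
      Ca * W.v Q * (W.dl Q + W.D Q) + Cd * W.v Q * (W.dl Q + W.D Q) := by ring
  rw [hy2] at hy
  rw [hD2] at hDs
  linarith

/-- case A2 -/
lemma caseA2 (hTA2 : StmtTA2) (hTD2 : StmtTD2) (hTF : StmtTF) (hUB : StmtUB) (hP1 : StmtP1)
    (hW1 : StmtW1) (hNS : StmtNS) (hFM : StmtFM) (hWA : StmtWA) (hd : 2 ≤ d) {J JA : ℕ}
    {M c0 C' c R0 : ℝ} {X : Prm d} (hX : XOK J JA M c0 C' c R0 X) :
    ∃ cB : ℝ, 0 < cB ∧ ∀ Kc : ℝ, 1 ≤ Kc → ∃ (κ0 K4 K5 Rz : ℝ), 0 < κ0 ∧ 0 < K4 ∧ 0 < K5 ∧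
    ∀ κ : ℝ, 0 < κ → κ ≤ κ0 →
    ∀ (E : Type) [NormedAddCommGroup E] [InnerProductSpace ℝ E] [FiniteDimensional ℝ E]
      (W : Wld d E), WOK JA C' R0 Rz X W → ∀ Q : Cell d, Ash J JA R0 κ Kc W Q →
      cB * W.sg Q ≤ nt0 W Q + W.v Q * (κ * K4 * W.ab Q) + W.v Q * (K5 * W.sD R0 JA Q) := by
  have hp := hX.prm
  have hd' : (2 : ℝ) ≤ d := by exact_mod_cast hd
  have hR := hX.R0_ge
  have hAg := hp.A_ge
  have hRr : 4 * X.A + 4 * d + 20 ≤ 64 * R0 := by linarith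
  obtain ⟨cA, Ca, hcA, hCa, hTA⟩ := hTA2 d J hd M C' X.ε X.p0 X.A c (64 * R0) hX.C'_pos hp.ε_pos
    hp.ε_le hX.far hRr
  refine ⟨cA, hcA, fun Kc hKc => ?_⟩
  set N3 : ℝ := 3 ^ d with hN3
  have hN30 : 0 < N3 := by positivity
  obtain ⟨Cd, hCd, hTD⟩ := hTD2 d J hd M C' X.ε X.p0 X.A (64 * R0)
    hX.C'_pos hp.ε_pos hp.ε_le hp.p0_pos hp.p0_le hp.A_ge hRr
  obtain ⟨C, C1, hC, hC1, hfl⟩ := fluxes hTF hUB hP1 hW1 hNS hFM hd hX hRr le_rfl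
  obtain ⟨κ1, K1, Rz1, hκ1, hK1, hfl'⟩ := hfl Kc hKc
  obtain ⟨Kb, hKb, hb⟩ := bnds hd hX
  obtain ⟨S, hS, hgX⟩ := gX_le hWA hFM hd hX
  set K4' : ℝ := C * (S + 1) * (1 + K1 * (2 + 2 * Kc)) + C + C1 with hK4'
  set K5' : ℝ := C * (S + 1) * K1 + C * Kb + 3 * C1 with hK5'
  have hK40 : 0 < K4' := by positivity
  have hK50 : 0 < K5' := by positivity
  refine ⟨κ1, 4 * (Ca + Cd) + N3 * K4', (Ca + Cd) * (Kb + 2) + N3 * (2 * K5'),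
    max (64 * R0 + 1) Rz1, hκ1, by positivity, by positivity, ?_⟩
  intro κ hκ0 hκ1' E _ _ _ W hW Q hA
  have hXe := hW.X_eq
  subst hXe
  have hWa := WOK_mono hW (le_max_left (64 * R0 + 1) Rz1)
  have hWb := WOK_mono hW (le_max_right (64 * R0 + 1) Rz1)
  have hs : |W.sv Q| ≤ 3 / 2 * (64 * R0) := hA.1.trans (by linarith)
  have hflQ := hfl' E W hWb Q (Ash_mono hA hκ1') hs
  obtain ⟨hsv, hSh, hAll⟩ := hA
  have hsub := adj_ns hNS hd (R0 := R0) (by linarith) JA W hW.s0_pos Q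
  have hQns : Q ∈ W.ns R0 JA Q := hsub (self_adj Q)
  obtain ⟨hb1, -, -, -⟩ := hb E W _ κ le_rfl hWa Q hSh hsv
  obtain ⟨hgro, hv⟩ := frame hFM hd hX.C'_pos hW.s0_pos hW.gro Q
  have hvQ : W.v Q = vv (W.mu Q) 1 0 := hv.symm
  have hv0 : 0 ≤ W.v Q := v_nonneg W Q
  have hab := hSh.sh.ab0
  have her := hSh.sh.ep0
  have hD0 := hW.D0 Q
  have hdl0 := hSh.dl0
  have hsm := hSh.small
  have hsmd := hSh.smalld
  set b := |blc (W.nv Q) (W.sv Q) (W.m Q) (d + 1)| with hbd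
  have hb0 : 0 ≤ b := abs_nonneg _
  have hm : Continuous (W.m Q) := mQ_cont _ hW.fc _ _
  have hZ : ZP (64 * R0) (W.dl Q + W.D Q) (W.m Q) := ZP_mono (hWa.zp Q) (by linarith) (by linarith)
  have hSt := WT.sheet_mono hSh.sh (le_refl J) (le_refl (64 * R0)) hs le_rfl
    (by linarith : W.dl Q ≤ W.dl Q + W.D Q)
  set SD := W.sD R0 JA Q with hSD
  have hDg : ∀ Q' ∈ W.ns R0 JA Q, W.D Q' ≤ SD := fun Q' hQ' => sD_ge hW hQ'
  have hTAQ := hTA (W.be Q) (hX.ker.kit _) (W.mu Q) hgro (W.m Q) (W.nv Q) (W.sv Q) (W.ab Q)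
    (W.er Q) (W.dl Q + W.D Q) hm (by positivity) hZ hSt
  have hTDQ := hTD (W.be Q) (hX.ker.kit _) (W.mu Q) hgro (W.m Q) (W.nv Q) (W.sv Q) (W.ab Q)
    (W.er Q) (W.dl Q + W.D Q) hm (by positivity) hZ hSt
  rw [← hvQ] at hTAQ hTDQ
  -- the errors
  have hE : W.er Q + blc (W.nv Q) (W.sv Q) (W.m Q) (d + 1) + 2 * (W.dl Q + W.D Q) ≤
      4 * (κ * W.ab Q) + (Kb + 2) * SD := by
    have h1 : blc (W.nv Q) (W.sv Q) (W.m Q) (d + 1) ≤ b := le_abs_self _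
    have h2 := hDg Q hQns
    have h3 : Kb * W.D Q ≤ Kb * SD := mul_le_mul_of_nonneg_left h2 hKb.le
    linarith
  have hF : ∀ Q' ∈ adj Q, Fl W Q Q' ≤ W.v Q * (κ * K4' * W.ab Q) + W.v Q * (K5' * (2 * SD)) := by
    intro Q' hQ'
    obtain ⟨δ, hδ0, hδ1, ht, hFl⟩ := hflQ Q' hQ'
    obtain ⟨-, hSh', hab'⟩ := hAll Q' (hsub hQ')
    refine (le_abs_self _).trans (hFl.trans ((fl_crude (S := S) (Kb := Kb) hC hC1 hK1 hκ0.le hKb.le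
      hab hS her (hW.D0 Q') hv0 (hgX E W _ hW Q) hb0 hδ0 hδ1 hsm hSh'.small
      hsmd hSh'.smalld hab' ht hb1).trans ?_))
    rw [← hK4', ← hK5']
    have h3 := hDg Q hQns
    have h4 := hDg Q' (hsub hQ')
    have h5 : W.v Q * (K5' * (W.D Q + W.D Q')) ≤ W.v Q * (K5' * (2 * SD)) := by
      gcongr
      linarith
    linarith
  have hSum : ∑ Q' ∈ adj Q, Fl W Q Q' ≤
      N3 * (W.v Q * (κ * K4' * W.ab Q) + W.v Q * (K5' * (2 * SD))) := by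
    have h1 := Finset.sum_le_card_nsmul (adj Q) (fun Q' => Fl W Q Q') _ hF
    rw [adj_card, nsmul_eq_mul] at h1
    push_cast at h1
    exact h1
  have hTA3 : cA * W.sg Q - Ca * W.v Q * (4 * (κ * W.ab Q) + (Kb + 2) * SD) ≤
      ∫ y, W.m Q y * (chi y * Hn (W.be Q) W.X.ε W.X.p0 W.X.A (W.mu Q) (W.nv Q) 1 y) := by
    refine le_trans ?_ hTAQ
    have h1 : cA * W.sg Q = cA * W.ab Q * plInt (W.nv Q) (W.sv Q) (fun x => chi x *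
        XX (W.be Q) W.X.ε (W.mu Q) (W.nv Q) 1 x) := by
      unfold Wld.sg
      ring
    rw [h1]
    have h2 := mul_le_mul_of_nonneg_left hE (by positivity : 0 ≤ Ca * W.v Q)
    linarith
  have hTD3 : -(Cd * W.v Q * (4 * (κ * W.ab Q) + (Kb + 2) * SD)) ≤
      ∫ y, W.m Q y * dvT chi (W.be Q) W.X.ε W.X.p0 W.X.A (W.mu Q) (W.nv Q) y := by
    refine le_trans (neg_le_neg ?_) (neg_le_of_abs_le hTDQ)
    exact mul_le_mul_of_nonneg_left hE (by positivity)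
  unfold nt0
  have e1 : W.v Q * (κ * (4 * (Ca + Cd) + N3 * K4') * W.ab Q) =
      Ca * W.v Q * (4 * (κ * W.ab Q)) + Cd * W.v Q * (4 * (κ * W.ab Q)) +
        N3 * (W.v Q * (κ * K4' * W.ab Q)) := by ring
  have e2 : W.v Q * (((Ca + Cd) * (Kb + 2) + N3 * (2 * K5')) * SD) =
      Ca * W.v Q * ((Kb + 2) * SD) + Cd * W.v Q * ((Kb + 2) * SD) +
        N3 * (W.v Q * (K5' * (2 * SD))) := by ring
  rw [e1, e2]
  linarith

end W2m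

end

end TG
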