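import Pool.Agent.TG.WTc

/-!
# Module W3: near cells of type B whose near neighbours are of type B   (helper64)
-/

open MeasureTheory Metric Set TrI
open scoped InnerProductSpace ContDiff

namespace TG

noncomputable section

open Classical in
theorem stmtW3 : StmtW3 := by
  intro d J JA hd M c0 C' c R0 X0 hX K γ δ hK hγ0 hγ hδ
  obtain ⟨RN0, hRN0, h1⟩ := WTc.gam_low hd hX hK hγ0 hγ hδ
  refine ⟨RN0, hRN0, fun RN hRN => ?_⟩
  obtain ⟨tol, htol, h2⟩ := h1 RN hRN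
  have hRN1 : 1 ≤ RN := hRN0.trans hRN
  have hd0 : (0 : ℝ) ≤ d := Nat.cast_nonneg d
  obtain ⟨C2, hC2, h3⟩ := WTc.fct_nn hd hX hRN1
  obtain ⟨Rz0, h4⟩ := WTc.fct_far hd hX hRN1
  refine ⟨RN + d + 3, RN + d + 4, tol, htol, by linarith, fun R1 rm => ?_⟩
  obtain ⟨C1, hC1, h5⟩ := h2 R1 rm
  refine ⟨C1 + 3 ^ d * C2, max R1 (max (d + 1 + RN) Rz0), by positivity, ?_⟩
  intro E _ _ _ W hW Q hnear hk hN hadj
  have hv0 := WTc.v_nonneg W Q
  have hw0 := WTc.w_nonneg hW.s0_pos Q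
  have hD := hW.D0 Q
  have ha := hN.a0
  have g1 := h5 E W _ hW (le_max_left _ _) Q hk hN
  have g2 : ∀ Q' ∈ adj Q, |Fct W.X W.s0 W.μ W.f W.e W.kd W.nv Q Q'| ≤ C2 * W.v Q * W.D Q := by
    intro Q' hQ'
    by_cases hn : W.Near Q'
    · exact h3 E W _ hW ((le_max_left _ _).trans (le_max_right _ _)) Q hk Q' hQ' (hadj Q' hQ' hn)
    · rw [h4 E W _ hW ((le_max_right _ _).trans (le_max_right _ _)) Q Q' hQ' hn, abs_zero]
      positivity
  have g3 : |∑ Q' ∈ adj Q, Fct W.X W.s0 W.μ W.f W.e W.kd W.nv Q Q'| ≤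
      3 ^ d * (C2 * W.v Q * W.D Q) := by
    refine (Finset.abs_sum_le_sum_abs _ _).trans ((Finset.sum_le_sum g2).trans ?_)
    rw [Finset.sum_const, nsmul_eq_mul, CS2.adj_card]
  have hval : W.val Q = max 0 (W.gam Q) := by
    unfold Wld.val
    rw [if_neg (fun h => by rw [hk] at h; omega), if_neg (fun h => h.2 hk)]
  have hV : Vct W.X W.s0 W.μ W.f W.e W.kd W.nv Q = 0 := by
    unfold Vct
    rw [if_neg (by rw [hk]; norm_num)]
  have hnt : W.nt1 Q = W.w Q * (W.gam Q -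
      ∑ Q' ∈ adj Q, Fct W.X W.s0 W.μ W.f W.e W.kd W.nv Q Q') := by
    unfold Wld.nt1 net
    rw [hV, add_zero]
    rfl
  rw [hval, hnt]
  set g := W.gam Q with hg
  set S := ∑ Q' ∈ adj Q, Fct W.X W.s0 W.μ W.f W.e W.kd W.nv Q Q' with hS
  have h6 := (abs_le.1 g3).2
  have h7 : 0 ≤ δ * W.v Q * W.a Q := by positivity
  have h8 : 0 ≤ C1 * W.v Q * W.D Q := by positivity
  have h9 : max 0 g ≤ g - S + δ * W.v Q * W.a Q + (C1 + 3 ^ d * C2) * W.v Q * W.D Q := by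
    refine max_le ?_ ?_ <;> linarith
  have h10 := mul_le_mul_of_nonneg_left h9 hw0
  linarith

end

end TG
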