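import Pool.Agent.TG.W4c

/-!
# Module W4: near cells at the interface   (helper38)
-/

open MeasureTheory Metric Set TrI
open scoped InnerProductSpace ContDiff

namespace TG

noncomputable section

namespace W4m

variable {d : ℕ}

lemma self_adj (Q : Cell d) : Q ∈ adj Q := by
  unfold adj
  rw [Finset.mem_product, Finset.mem_singleton, Fintype.mem_piFinset]
  refine ⟨rfl, fun j => ?_⟩
  rw [Finset.mem_Icc]
  constructor <;> omega

/-- the sum of the fluxes -/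
lemma sum_bd {Q : Cell d} {F E0 a D : Cell d → ℝ} {v Ca δ1 Cb : ℝ} (hv : 0 ≤ v) (hCa : 0 ≤ Ca)
    (hδ : 0 ≤ δ1) (hCb : 0 ≤ Cb) (hE : ∀ P ∈ adj Q, 0 ≤ E0 P) (ha : ∀ P ∈ adj Q, 0 ≤ a P)
    (hD : ∀ P ∈ adj Q, 0 ≤ D P)
    (h : ∀ P ∈ adj Q, |F P| ≤ v * (Ca * (E0 Q + E0 P) + δ1 * (a Q + a P) + Cb * (D Q + D P))) :
    |∑ P ∈ adj Q, F P| + v * (Ca * E0 Q + δ1 * a Q + Cb * D Q) ≤
      v * (Ca * (3 ^ d + 2) * ∑ P ∈ adj Q, E0 P + δ1 * (3 ^ d + 2) * ∑ P ∈ adj Q, a P +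
        Cb * (3 ^ d + 2) * ∑ P ∈ adj Q, D P) := by
  have h1 : |∑ P ∈ adj Q, F P| ≤
      ∑ P ∈ adj Q, v * (Ca * (E0 Q + E0 P) + δ1 * (a Q + a P) + Cb * (D Q + D P)) :=
    (Finset.abs_sum_le_sum_abs _ _).trans (Finset.sum_le_sum h)
  have e1 : ∑ P ∈ adj Q, v * (Ca * (E0 Q + E0 P) + δ1 * (a Q + a P) + Cb * (D Q + D P)) =
      v * (Ca * (3 ^ d * E0 Q + ∑ P ∈ adj Q, E0 P) + δ1 * (3 ^ d * a Q + ∑ P ∈ adj Q, a P) +
        Cb * (3 ^ d * D Q + ∑ P ∈ adj Q, D P)) := by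
    rw [← Finset.mul_sum, Finset.sum_add_distrib, Finset.sum_add_distrib, ← Finset.mul_sum,
      ← Finset.mul_sum, ← Finset.mul_sum, Finset.sum_add_distrib, Finset.sum_add_distrib,
      Finset.sum_add_distrib, Finset.sum_const, Finset.sum_const, Finset.sum_const,
      nsmul_eq_mul, nsmul_eq_mul, nsmul_eq_mul, CS2.adj_card]
  rw [e1] at h1
  have hE1 : E0 Q ≤ ∑ P ∈ adj Q, E0 P := Finset.single_le_sum hE (self_adj Q)
  have ha1 : a Q ≤ ∑ P ∈ adj Q, a P := Finset.single_le_sum ha (self_adj Q)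
  have hD1 : D Q ≤ ∑ P ∈ adj Q, D P := Finset.single_le_sum hD (self_adj Q)
  have h3 : (0 : ℝ) ≤ 3 ^ d + 1 := by positivity
  have k1 := mul_le_mul_of_nonneg_left (mul_le_mul_of_nonneg_left hE1 h3) hCa
  have k2 := mul_le_mul_of_nonneg_left (mul_le_mul_of_nonneg_left ha1 h3) hδ
  have k3 := mul_le_mul_of_nonneg_left (mul_le_mul_of_nonneg_left hD1 h3) hCb
  have k4 : Ca * ((3 ^ d + 1) * E0 Q) + δ1 * ((3 ^ d + 1) * a Q) + Cb * ((3 ^ d + 1) * D Q) ≤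
      Ca * ((3 ^ d + 1) * ∑ P ∈ adj Q, E0 P) + δ1 * ((3 ^ d + 1) * ∑ P ∈ adj Q, a P) +
        Cb * ((3 ^ d + 1) * ∑ P ∈ adj Q, D P) := by linarith
  have k5 := mul_le_mul_of_nonneg_left k4 hv
  have e2 : v * (Ca * (3 ^ d + 2) * ∑ P ∈ adj Q, E0 P + δ1 * (3 ^ d + 2) * ∑ P ∈ adj Q, a P +
        Cb * (3 ^ d + 2) * ∑ P ∈ adj Q, D P) =
      v * (Ca * ((3 ^ d + 1) * ∑ P ∈ adj Q, E0 P) + δ1 * ((3 ^ d + 1) * ∑ P ∈ adj Q, a P) +
        Cb * ((3 ^ d + 1) * ∑ P ∈ adj Q, D P)) +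
      v * (Ca * ∑ P ∈ adj Q, E0 P + δ1 * ∑ P ∈ adj Q, a P + Cb * ∑ P ∈ adj Q, D P) := by ring
  rw [e2]
  have e3 : v * (Ca * (3 ^ d * E0 Q + ∑ P ∈ adj Q, E0 P) +
        δ1 * (3 ^ d * a Q + ∑ P ∈ adj Q, a P) +
        Cb * (3 ^ d * D Q + ∑ P ∈ adj Q, D P)) + v * (Ca * E0 Q + δ1 * a Q + Cb * D Q) =
      v * (Ca * ((3 ^ d + 1) * E0 Q) + δ1 * ((3 ^ d + 1) * a Q) + Cb * ((3 ^ d + 1) * D Q)) +
      v * (Ca * ∑ P ∈ adj Q, E0 P + δ1 * ∑ P ∈ adj Q, a P + Cb * ∑ P ∈ adj Q, D P) := by ring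
  linarith

end W4m

theorem stmtW4 (hTA2 : StmtTA2) (hTD2 : StmtTD2) (hTF : StmtTF) (hWA : StmtWA)
    (hP1 : StmtP1) : StmtW4 := by
  intro d J JA hd M c0 C' c R0 X0 hX
  obtain ⟨cA, Cm, hcA, hCm, hcell⟩ := W4m.cell0 hTA2 hTD2 hd hX
  obtain ⟨CI, hCI, hpair⟩ := W4m.pair01 hd hX
  refine ⟨min cA 1, lt_min hcA one_pos, fun Kc hKc => ?_⟩
  obtain ⟨κ, C0, RzP, hκ, hC0, h00⟩ := W4m.pair00 hTF hWA hP1 hd hX Kc hKc
  have hd0 : (0 : ℝ) ≤ d := Nat.cast_nonneg d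
  have hN : (0 : ℝ) < 3 ^ d + 2 := by positivity
  refine ⟨κ, (Cm + C0 + CI) * (3 ^ d + 2), hκ, by positivity, fun K γ δ hK hγ0 hγ hδ => ?_⟩
  have hδ1 : 0 < δ / (3 ^ d + 2) := by positivity
  have hδe : δ / (3 ^ d + 2) * (3 ^ d + 2) = δ := div_mul_cancel₀ _ hN.ne'
  set δ1 : ℝ := δ / (3 ^ d + 2) with hδ1d
  obtain ⟨RN1, hRN1, hp1⟩ := hpair K γ δ1 hK hγ0 hγ hδ1
  obtain ⟨RN2, hRN2, hg1⟩ := WTc.gam_low hd hX hK hγ0 hγ hδ1
  refine ⟨max RN1 RN2, hRN1.trans (le_max_left _ _), fun RN hRN => ?_⟩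
  have hRN1' : 1 ≤ RN := (hRN1.trans (le_max_left _ _)).trans hRN
  obtain ⟨C2, hC2, hp2⟩ := hp1 RN ((le_max_left _ _).trans hRN)
  obtain ⟨tol, htol, hg2⟩ := hg1 RN ((le_max_right _ _).trans hRN)
  obtain ⟨Cn, hCn, hnn⟩ := WTc.fct_nn hd hX hRN1'
  obtain ⟨RzF, hfar⟩ := WTc.fct_far hd hX hRN1'
  refine ⟨RN + d + 3, RN + d + 4, tol, htol, by linarith, fun R1 rm => ?_⟩
  obtain ⟨Cg, hCg, hg3⟩ := hg2 R1 rm
  refine ⟨(Cm + C0 + C2 + Cn + Cg) * (3 ^ d + 2),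
    max (max RzP (64 * R0 + 1)) (max (max R1 (d + 1 + RN)) RzF), by positivity, ?_⟩
  intro E _ _ _ W hW Q hnear hsv hkd hnw EI hEI
  have r1 : RzP ≤ max (max RzP (64 * R0 + 1)) (max (max R1 (d + 1 + RN)) RzF) :=
    (le_max_left _ _).trans (le_max_left _ _)
  have r2 : 64 * R0 + 1 ≤ max (max RzP (64 * R0 + 1)) (max (max R1 (d + 1 + RN)) RzF) :=
    (le_max_right _ _).trans (le_max_left _ _)
  have r3 : R1 ≤ max (max RzP (64 * R0 + 1)) (max (max R1 (d + 1 + RN)) RzF) :=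
    ((le_max_left _ _).trans (le_max_left _ _)).trans (le_max_right _ _)
  have r4 : d + 1 + RN ≤ max (max RzP (64 * R0 + 1)) (max (max R1 (d + 1 + RN)) RzF) :=
    ((le_max_right _ _).trans (le_max_left _ _)).trans (le_max_right _ _)
  have r5 : RzF ≤ max (max RzP (64 * R0 + 1)) (max (max R1 (d + 1 + RN)) RzF) :=
    (le_max_right _ _).trans (le_max_right _ _)
  have hv0 := WTc.v_nonneg W Q
  have hw0 := WTc.w_nonneg hW.s0_pos Q
  have hQQ := W4m.self_adj Q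
  set Ca : ℝ := Cm + C0 + CI with hCa
  set Cb : ℝ := Cm + C0 + C2 + Cn + Cg with hCb
  have hCa0 : 0 < Ca := by positivity
  have hCb0 : 0 < Cb := by positivity
  set E0 : Cell d → ℝ := fun P => if W.kd P = 0 then W.er P + W.dl P + EI P else 0 with hE0
  have hE0z : ∀ P, W.kd P = 0 → E0 P = W.er P + W.dl P + EI P := fun P h => if_pos h
  have hE0n : ∀ P, W.kd P = 1 → E0 P = 0 := fun P h => if_neg (by rw [h]; norm_num)
  have hDn : ∀ P ∈ adj Q, 0 ≤ W.D P := fun P _ => hW.D0 P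
  have han : ∀ P ∈ adj Q, 0 ≤ W.a P := by
    intro P hP
    rcases hkd P hP with h | h
    · exact (hEI P hP h).2.2.2.1
    · exact (hnw P hP h).a0
  have hpos : ∀ P ∈ adj Q, W.kd P = 0 → 0 ≤ W.er P ∧ 0 ≤ W.dl P ∧ 0 ≤ EI P :=
    fun P hP h => ⟨(hEI P hP h).2.1.sh.ep0, (hEI P hP h).2.1.dl0, (hEI P hP h).1⟩
  have hE0nn : ∀ P ∈ adj Q, 0 ≤ E0 P := by
    intro P hP
    rcases hkd P hP with h | h
    · obtain ⟨p1, p2, p3⟩ := hpos P hP h
      rw [hE0z P h]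
      positivity
    · rw [hE0n P h]
  have hflux : ∀ P ∈ adj Q, |Fct W.X W.s0 W.μ W.f W.e W.kd W.nv Q P| ≤
      W.v Q * (Ca * (E0 Q + E0 P) + δ1 * (W.a Q + W.a P) + Cb * (W.D Q + W.D P)) := by
    intro P hP
    have q1 := hE0nn Q hQQ
    have q2 := hE0nn P hP
    have q3 := han Q hQQ
    have q4 := han P hP
    have q5 := hDn Q hQQ
    have q6 := hDn P hP
    by_cases hnP : W.Near P
    · rcases hkd Q hQQ with hk | hk <;> rcases hkd P hP with hk' | hk'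
      · -- sheet, sheet
        obtain ⟨p1, p2, p3⟩ := hpos Q hQQ hk
        obtain ⟨p1', p2', p3'⟩ := hpos P hP hk'
        have h1 := h00 E W RN _ hW r1 Q hk (hsv hk) (hEI Q hQQ hk).2.1 P hP hk'
          (hEI P hP hk').2.1 ((hEI P hP hk').2.2.2.2.2 hk)
        refine h1.trans (mul_le_mul_of_nonneg_left ?_ hv0)
        rw [hE0z Q hk, hE0z P hk', hCa, hCb]
        have e1 : (Cm + C0 + CI) * (W.er Q + W.dl Q + EI Q + (W.er P + W.dl P + EI P)) +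
            δ1 * (W.a Q + W.a P) + (Cm + C0 + C2 + Cn + Cg) * (W.D Q + W.D P) =
            C0 * (W.er Q + W.dl Q + W.D Q + (W.er P + W.dl P + W.D P)) +
            ((Cm + CI) * (W.er Q + W.dl Q + EI Q + (W.er P + W.dl P + EI P)) +
            C0 * (EI Q + EI P) + δ1 * (W.a Q + W.a P) +
            (Cm + C2 + Cn + Cg) * (W.D Q + W.D P)) := by ring
        rw [e1]
        have : 0 ≤ (Cm + CI) * (W.er Q + W.dl Q + EI Q + (W.er P + W.dl P + EI P)) +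
            C0 * (EI Q + EI P) + δ1 * (W.a Q + W.a P) +
            (Cm + C2 + Cn + Cg) * (W.D Q + W.D P) := by positivity
        linarith
      · -- sheet, Newton
        obtain ⟨p1, p2, p3⟩ := hpos Q hQQ hk
        obtain ⟨h1, -, h2, h3, h4, -⟩ := hEI Q hQQ hk
        have h5 := (hp2 E W _ hW r4 Q P hP (EI Q) h1).1 hk hk' h2 h3 h4
        refine h5.trans (mul_le_mul_of_nonneg_left ?_ hv0)
        rw [hE0z Q hk, hE0n P hk', hCa, hCb]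
        have e1 : (Cm + C0 + CI) * (W.er Q + W.dl Q + EI Q + 0) +
            δ1 * (W.a Q + W.a P) + (Cm + C0 + C2 + Cn + Cg) * (W.D Q + W.D P) =
            CI * EI Q + δ1 * W.a Q + C2 * W.D Q +
            ((Cm + C0 + CI) * (W.er Q + W.dl Q) + (Cm + C0) * EI Q + δ1 * W.a P +
            (Cm + C0 + Cn + Cg) * (W.D Q + W.D P) + C2 * W.D P) := by ring
        rw [e1]
        have : 0 ≤ (Cm + C0 + CI) * (W.er Q + W.dl Q) + (Cm + C0) * EI Q + δ1 * W.a P +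
            (Cm + C0 + Cn + Cg) * (W.D Q + W.D P) + C2 * W.D P := by positivity
        linarith
      · -- Newton, sheet
        obtain ⟨p1, p2, p3⟩ := hpos P hP hk'
        obtain ⟨h1, -, h2, h3, h4, -⟩ := hEI P hP hk'
        have h5 := (hp2 E W _ hW r4 Q P hP (EI P) h1).2 hk hk' h2 h3 h4
        refine h5.trans (mul_le_mul_of_nonneg_left ?_ hv0)
        rw [hE0n Q hk, hE0z P hk', hCa, hCb]
        have e1 : (Cm + C0 + CI) * (0 + (W.er P + W.dl P + EI P)) +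
            δ1 * (W.a Q + W.a P) + (Cm + C0 + C2 + Cn + Cg) * (W.D Q + W.D P) =
            CI * EI P + δ1 * W.a P + C2 * (W.D P + W.D Q) +
            ((Cm + C0 + CI) * (W.er P + W.dl P) + (Cm + C0) * EI P + δ1 * W.a Q +
            (Cm + C0 + Cn + Cg) * (W.D Q + W.D P)) := by ring
        rw [e1]
        have : 0 ≤ (Cm + C0 + CI) * (W.er P + W.dl P) + (Cm + C0) * EI P + δ1 * W.a Q +
            (Cm + C0 + Cn + Cg) * (W.D Q + W.D P) := by positivity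
        linarith
      · -- Newton, Newton
        have h1 := hnn E W _ hW r4 Q hk P hP hk'
        refine h1.trans ?_
        rw [hCb]
        have e1 : W.v Q * (Ca * (E0 Q + E0 P) + δ1 * (W.a Q + W.a P) +
            (Cm + C0 + C2 + Cn + Cg) * (W.D Q + W.D P)) = Cn * W.v Q * W.D Q +
            W.v Q * (Ca * (E0 Q + E0 P) + δ1 * (W.a Q + W.a P) +
            (Cm + C0 + C2 + Cg) * (W.D Q + W.D P) + Cn * W.D P) := by ring
        rw [e1]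
        have : 0 ≤ W.v Q * (Ca * (E0 Q + E0 P) + δ1 * (W.a Q + W.a P) +
            (Cm + C0 + C2 + Cg) * (W.D Q + W.D P) + Cn * W.D P) := by positivity
        linarith
    · rw [hfar E W _ hW r5 Q P hP hnP, abs_zero]
      positivity
  have hsum := W4m.sum_bd hv0 hCa0.le hδ1.le hCb0.le hE0nn han hDn hflux
  -- the cell itself
  have hself : min cA 1 * W.val Q ≤ W.gam Q + Vct W.X W.s0 W.μ W.f W.e W.kd W.nv Q +
      W.v Q * (Ca * E0 Q + δ1 * W.a Q + Cb * W.D Q) := by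
    have q3 := han Q hQQ
    have q5 := hDn Q hQQ
    rcases hkd Q hQQ with hk | hk
    · obtain ⟨p1, p2, p3⟩ := hpos Q hQQ hk
      have h1 := hcell E W RN _ κ hW r2 Q hnear hk (hEI Q hQQ hk).2.1 (min cA 1)
        (le_min hcA.le zero_le_one) (min_le_left _ _) (min_le_right _ _)
      refine h1.trans (add_le_add le_rfl (mul_le_mul_of_nonneg_left ?_ hv0))
      rw [hE0z Q hk, hCa, hCb]
      have e1 : (Cm + C0 + CI) * (W.er Q + W.dl Q + EI Q) + δ1 * W.a Q +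
          (Cm + C0 + C2 + Cn + Cg) * W.D Q = Cm * (W.er Q + W.dl Q + W.D Q) +
          ((C0 + CI) * (W.er Q + W.dl Q + EI Q) + Cm * EI Q + δ1 * W.a Q +
          (C0 + C2 + Cn + Cg) * W.D Q) := by ring
      rw [e1]
      have : 0 ≤ (C0 + CI) * (W.er Q + W.dl Q + EI Q) + Cm * EI Q + δ1 * W.a Q +
          (C0 + C2 + Cn + Cg) * W.D Q := by positivity
      linarith
    · have h1 := hg3 E W _ hW r3 Q hk (hnw Q hQQ hk)
      have hval : W.val Q = max 0 (W.gam Q) := by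
        unfold Wld.val
        rw [if_neg (fun h => by rw [hk] at h; omega), if_neg (fun h => h.2 hk)]
      have hV : Vct W.X W.s0 W.μ W.f W.e W.kd W.nv Q = 0 := by
        unfold Vct
        rw [if_neg (by rw [hk]; norm_num)]
      rw [hval, hV, hE0n Q hk, hCb, add_zero]
      have h2 : min cA 1 * max 0 (W.gam Q) ≤ 1 * max 0 (W.gam Q) :=
        mul_le_mul_of_nonneg_right (min_le_right _ _) (le_max_left _ _)
      have e1 : W.v Q * (Ca * 0 + δ1 * W.a Q + (Cm + C0 + C2 + Cn + Cg) * W.D Q) =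
          (δ1 * W.v Q * W.a Q + Cg * W.v Q * W.D Q) +
          W.v Q * ((Cm + C0 + C2 + Cn) * W.D Q) := by ring
      rw [e1]
      have h3 : 0 ≤ W.v Q * ((Cm + C0 + C2 + Cn) * W.D Q) := by positivity
      have h4 : 0 ≤ δ1 * W.v Q * W.a Q + Cg * W.v Q * W.D Q := by positivity
      have h5 : max 0 (W.gam Q) ≤ W.gam Q + ((δ1 * W.v Q * W.a Q + Cg * W.v Q * W.D Q) +
          W.v Q * ((Cm + C0 + C2 + Cn) * W.D Q)) := by
        refine max_le ?_ ?_ <;> linarith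
      linarith
  have hnt : W.nt1 Q = W.w Q * (W.gam Q + Vct W.X W.s0 W.μ W.f W.e W.kd W.nv Q -
      ∑ Q' ∈ adj Q, Fct W.X W.s0 W.μ W.f W.e W.kd W.nv Q Q') := rfl
  rw [hnt, Finset.sum_filter]
  have h6 := (abs_le.1 (le_refl |∑ P ∈ adj Q, Fct W.X W.s0 W.μ W.f W.e W.kd W.nv Q P|)).2
  have h7 : min cA 1 * W.val Q ≤ W.gam Q + Vct W.X W.s0 W.μ W.f W.e W.kd W.nv Q -
      ∑ Q' ∈ adj Q, Fct W.X W.s0 W.μ W.f W.e W.kd W.nv Q Q' +
      W.v Q * (Ca * (3 ^ d + 2) * ∑ P ∈ adj Q, E0 P + δ1 * (3 ^ d + 2) * ∑ P ∈ adj Q, W.a P +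
        Cb * (3 ^ d + 2) * ∑ P ∈ adj Q, W.D P) := by linarith
  have h8 := mul_le_mul_of_nonneg_left h7 hw0
  rw [hδe] at h8
  have e5 : W.w Q * (W.gam Q + Vct W.X W.s0 W.μ W.f W.e W.kd W.nv Q -
      ∑ Q' ∈ adj Q, Fct W.X W.s0 W.μ W.f W.e W.kd W.nv Q Q' +
      W.v Q * (Ca * (3 ^ d + 2) * ∑ P ∈ adj Q, E0 P + δ * ∑ P ∈ adj Q, W.a P +
        Cb * (3 ^ d + 2) * ∑ P ∈ adj Q, W.D P)) =
      W.w Q * (W.gam Q + Vct W.X W.s0 W.μ W.f W.e W.kd W.nv Q -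
      ∑ Q' ∈ adj Q, Fct W.X W.s0 W.μ W.f W.e W.kd W.nv Q Q') +
      Ca * (3 ^ d + 2) * (W.w Q * W.v Q) * (∑ P ∈ adj Q, E0 P) +
      δ * (W.w Q * W.v Q) * (∑ P ∈ adj Q, W.a P) +
      Cb * (3 ^ d + 2) * (W.w Q * W.v Q) * ∑ P ∈ adj Q, W.D P := by ring
  rw [e5] at h8
  have e6 : W.w Q * (min cA 1 * W.val Q) = min cA 1 * (W.w Q * W.val Q) := by ring
  rw [e6] at h8
  exact h8

end

end TG
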