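import Pool.Agent.TG.W5a

/-!
# MODULE W5, second part: the Newton functional in frames, the mass of a sheet   (helper41)
-/

open MeasureTheory Metric Set TrI Filter
open scoped InnerProductSpace ContDiff Topology

set_option linter.unusedSectionVars false

namespace TG

noncomputable section

namespace W5m

open CS2

variable {d : ℕ}

/-! ### quadratic forms -/

lemma comp_le {n : Sp d} (hn : ‖n‖ = 1) (j : Fin d) : |n j| ≤ 1 := by
  have h := PiLp.norm_apply_le n j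
  rwa [hn, Real.norm_eq_abs] at h

lemma qf_le {F : Fin d → Fin d → Sp d → ℝ} {n y : Sp d} (hn : ‖n‖ = 1) {B : Fin d → Fin d → ℝ}
    (h : ∀ i j, |F i j y| ≤ B i j) : |qf F n y| ≤ ∑ i, ∑ j, B i j := by
  unfold qf
  refine (Finset.abs_sum_le_sum_abs _ _).trans (Finset.sum_le_sum fun i _ => ?_)
  refine (Finset.abs_sum_le_sum_abs _ _).trans (Finset.sum_le_sum fun j _ => ?_)
  rw [abs_mul, abs_mul]
  have h1 := comp_le hn i
  have h2 := comp_le hn j
  have h3 : |n i| * |n j| ≤ 1 := by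
    calc |n i| * |n j| ≤ 1 * 1 := mul_le_mul h1 h2 (abs_nonneg _) zero_le_one
      _ = 1 := one_mul 1
  calc |n i| * |n j| * |F i j y| ≤ 1 * |F i j y| := mul_le_mul_of_nonneg_right h3 (abs_nonneg _)
    _ = |F i j y| := one_mul _
    _ ≤ B i j := h i j

/-! ### frames -/

lemma pair_frame {s0 : ℝ} (h : 0 < s0) {E : Type} [NormedAddCommGroup E] [InnerProductSpace ℝ E]
    [FiniteDimensional ℝ E]
    (f : Sp d → E) (e : E) (Q P : Cell d) (hP : P.1 = Q.1) (ζ : Sp d → ℝ) :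
    ∫ y, mQ s0 f e Q y * ζ y = ∫ y, mQ s0 f e P y * ζ (tw s0 Q P + y) := by
  rw [← integral_add_left_eq_self (fun y => mQ s0 f e Q y * ζ y) (tw s0 Q P)]
  refine integral_congr_ae (Eventually.of_forall fun y => ?_)
  have h1 := FR.mQ_frame h f e Q P 0 (by simpa using hP) y
  simp only [pow_zero, one_mul, one_smul] at h1
  simp only [h1]

/-- second clause of B1 -/
def Cl2 (b : Sp d → ℝ) (R ρ δ C : ℝ) (B : ℕ → ℝ) (m : Sp d → ℝ) (a D : ℝ) : Prop :=
  ∀ (Y : Fin d → Fin d → Sp d → ℝ) (φ : Sp d → ℝ) (N : ℝ), 0 ≤ N →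
    (∀ i j, ContDiff ℝ ∞ (Y i j)) → (∀ i j k y, ‖iteratedFDeriv ℝ k (Y i j) y‖ ≤ N * B k) →
    (∀ i j y, ρ ≤ ‖y‖ → Y i j y = 0) → ContDiff ℝ ∞ φ →
    (∀ k y, ‖iteratedFDeriv ℝ k φ y‖ ≤ B k) → (∀ y, ρ ≤ ‖y‖ → φ y = 0) →
    (∀ n : Sp d, ‖n‖ = 1 → ∀ y, |qf Y n y| ≤ N * φ y) →
    |∫ y, m y * nt b R Y y| ≤ N * (∫ y, m y * φ y) + δ * a * N + C * N * D

/-- third clause of B1 -/
def Cl3 (b : Sp d → ℝ) (R ρ δ C : ℝ) (B : ℕ → ℝ) (m : Sp d → ℝ) (a D : ℝ) : Prop :=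
  ∀ (φ : Sp d → ℝ) (N : ℝ), 0 ≤ N → ContDiff ℝ ∞ φ →
    (∀ k y, ‖iteratedFDeriv ℝ k φ y‖ ≤ N * B k) → (∀ y, ρ ≤ ‖y‖ → φ y = 0) →
    |∫ y, m y * avk b R φ y| ≤ δ * a * N + C * N * D

lemma far_shift {x y : Sp d} (hx : ‖x‖ ≤ d) {r : ℝ} (hy : d + r ≤ ‖y‖) : r ≤ ‖x + y‖ := by
  have h1 : ‖y‖ ≤ ‖x + y‖ + ‖x‖ := by
    have := norm_sub_le (x + y) x
    rwa [add_sub_cancel_left] at this
  linarith

lemma nt_bound {b : Sp d → ℝ} {R δ C a D : ℝ} {B : ℕ → ℝ} {m : Sp d → ℝ}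
    (h : Cl2 b R (2 * d + 1) δ C B m a D) {x : Sp d} (hx : ‖x‖ ≤ d) (hd : 1 ≤ d)
    (hz : ∀ k (y : Sp d), ‖iteratedFDeriv ℝ k (zR (d : ℝ) : Sp d → ℝ) y‖ ≤ B k)
    {Y : Fin d → Fin d → Sp d → ℝ} {N : ℝ} (hN : 0 ≤ N) (hY : ∀ i j, ContDiff ℝ ∞ (Y i j))
    (hYb : ∀ i j k y, ‖iteratedFDeriv ℝ k (Y i j) y‖ ≤ N * B k)
    (hY0 : ∀ i j (y : Sp d), (d : ℝ) ≤ ‖y‖ → Y i j y = 0)
    (hq : ∀ n : Sp d, ‖n‖ = 1 → ∀ y, |qf Y n y| ≤ N) :
    |∫ y, m y * nt b R Y (x + y)| ≤ N * (∫ y, m y * zR (d : ℝ) (x + y)) + δ * a * N + C * N * D := by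
  have hd0 : (1 : ℝ) ≤ d := by exact_mod_cast hd
  have hzs : ContDiff ℝ ∞ (zR (d : ℝ) : Sp d → ℝ) := TU.zR_smooth (by linarith)
  have h1 := h (fun i j z => Y i j (x + z)) (fun z => zR (d : ℝ) (x + z)) N hN
    (fun i j => (hY i j).comp (contDiff_const.add contDiff_id))
    (fun i j k y => by
      rw [iteratedFDeriv_comp_add_left]
      exact hYb i j k _)
    (fun i j y hy => hY0 i j _ (far_shift hx (by linarith)))
    (hzs.comp (contDiff_const.add contDiff_id))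
    (fun k y => by
      rw [iteratedFDeriv_comp_add_left]
      exact hz k _)
    (fun y hy => zR_eq_zero (far_shift hx (by linarith)))
    (fun n hn y => by
      have e1 : qf (fun i j z => Y i j (x + z)) n y = qf Y n (x + y) := rfl
      rw [e1]
      by_cases hy : ‖x + y‖ ≤ d
      · rw [zR_eq_one hy, mul_one]
        exact hq n hn _
      · have e2 : qf Y n (x + y) = 0 := by
          unfold qf
          refine Finset.sum_eq_zero fun i _ => Finset.sum_eq_zero fun j _ => ?_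
          rw [hY0 i j _ (not_le.1 hy).le, mul_zero]
        rw [e2, abs_zero]
        exact mul_nonneg hN (zR_nonneg _ _))
  simp only [CS1m.nt_shift] at h1
  exact h1

lemma av_bound {b : Sp d → ℝ} {R δ C a D : ℝ} {B : ℕ → ℝ} {m : Sp d → ℝ}
    (h : Cl3 b R (2 * d + 1) δ C B m a D) {x : Sp d} (hx : ‖x‖ ≤ d)
    {φ : Sp d → ℝ} {N : ℝ} (hN : 0 ≤ N) (hφ : ContDiff ℝ ∞ φ)
    (hb : ∀ k y, ‖iteratedFDeriv ℝ k φ y‖ ≤ N * B k)
    (h0 : ∀ y : Sp d, (d : ℝ) ≤ ‖y‖ → φ y = 0) :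
    |∫ y, m y * avk b R φ (x + y)| ≤ δ * a * N + C * N * D := by
  have h1 := h (fun z => φ (x + z)) N hN (hφ.comp (contDiff_const.add contDiff_id))
    (fun k y => by
      rw [iteratedFDeriv_comp_add_left]
      exact hb k _)
    (fun y hy => h0 _ (far_shift hx (by linarith)))
  simp only [CS1m.avk_shift] at h1
  exact h1

/-! ### the mass of a sheet -/

lemma zp_scale {R D K : ℝ} {m ζ : Sp d → ℝ} (hZ : ZP R D m) (hK : 0 < K) (h : TFn 2 K ζ)
    (h0 : ∀ y, 0 ≤ ζ y) (hs : ∀ y, R ≤ ‖y‖ → ζ y = 0) : -(K * D) ≤ ∫ y, m y * ζ y := by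
  have h1 := TU.TFn_const_mul h (1 / K)
  have e1 : |1 / K| * K = 1 := by
    rw [abs_of_pos (by positivity)]
    field_simp
  rw [e1] at h1
  have h2 := hZ (fun y => 1 / K * ζ y) h1.smooth (fun y => mul_nonneg (by positivity) (h0 y))
    (fun y => (le_abs_self _).trans (PTm.TFn.abs_le h1 y)) (fun y => h1.bd 2 le_rfl y)
    (fun y hy => by rw [hs y hy, mul_zero])
  have e2 : ∫ y, m y * (1 / K * ζ y) = 1 / K * ∫ y, m y * ζ y := by
    rw [← integral_const_mul]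
    refine integral_congr_ae (Eventually.of_forall fun y => ?_)
    simp only
    ring
  rw [e2] at h2
  have h3 := mul_le_mul_of_nonneg_left h2 hK.le
  rw [← mul_assoc, mul_one_div_cancel hK.ne', one_mul] at h3
  linarith

lemma int_m {m ζ : Sp d → ℝ} (hm : Continuous m) (hζ : Continuous ζ) {ρ : ℝ}
    (h0 : ∀ y, ρ ≤ ‖y‖ → ζ y = 0) : Integrable (fun y => m y * ζ y) := by
  refine (hm.mul hζ).integrable_of_hasCompactSupport ?_
  refine HasCompactSupport.intro (isCompact_closedBall (0 : Sp d) ρ) fun y hy => ?_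
  rw [mem_closedBall, dist_zero_right, not_le] at hy
  rw [Pi.mul_apply, h0 y hy.le, mul_zero]

/-- blc is monotone in the radius up to the defect -/
lemma blc_mono (R R' S : ℝ) (hR : 1 ≤ R) (hRR : R ≤ R') :
    ∃ C : ℝ, 0 < C ∧ ∀ (m : Sp d → ℝ) (D : ℝ), Continuous m → ZP (R' + 1) D m →
      ∀ (n : Sp d) (s : ℝ), ‖n‖ = 1 → |s| ≤ S → blc n s m R ≤ blc n s m R' + C * D := by
  obtain ⟨C1, hC1, h1⟩ := exists_TFn_ht2 d 2 R' S (hR.trans hRR)
  obtain ⟨C2, hC2, h2⟩ := exists_TFn_ht2 d 2 R S hR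
  refine ⟨C1 + C2, by positivity, fun m D hm hZ n s hn hs => ?_⟩
  have e1 : ∀ y, ht n s y = hgt n s y := fun y => rfl
  have t1 := h1 n s hn hs
  have t2 := h2 n s hn hs
  simp only [e1] at t1 t2
  have h3 := zp_scale hZ (K := C1 + C2) (by positivity) (t1.sub t2)
    (fun y => by
      have h4 : zR R y ≤ zR R' y := Real.smoothTransition.monotone (by linarith)
      nlinarith [sq_nonneg (hgt n s y)])
    (fun y hy => by
      rw [zR_eq_zero hy, zR_eq_zero (ρ := R) (by linarith)]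
      ring)
  have i1 : Integrable (fun y => m y * (zR R' y * hgt n s y ^ 2)) :=
    int_m hm t1.smooth.continuous (ρ := R' + 1) (fun y hy => by rw [zR_eq_zero hy, zero_mul])
  have i2 : Integrable (fun y => m y * (zR R y * hgt n s y ^ 2)) :=
    int_m hm t2.smooth.continuous (ρ := R + 1) (fun y hy => by rw [zR_eq_zero hy, zero_mul])
  have e2 : ∫ y, m y * (zR R' y * hgt n s y ^ 2 - zR R y * hgt n s y ^ 2) =
      blc n s m R' - blc n s m R := by
    unfold blc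
    rw [← integral_sub i1 i2]
    refine integral_congr_ae (Eventually.of_forall fun y => ?_)
    simp only
    ring
  rw [e2] at h3
  linarith

/-- the density of a sheet is bounded by the local mass -/
lemma ab_le (hd : 2 ≤ d) (J : ℕ) {R0 : ℝ} (hR0 : (d : ℝ) + 10 ≤ R0) :
    ∃ κ C : ℝ, 0 < κ ∧ 0 < C ∧ ∀ (m : Sp d → ℝ) (n : Sp d) (s ab er dl D al : ℝ),
      Continuous m → 0 ≤ D → 0 ≤ al → ZP (64 * R0 + 1) D m →
      Sheet J (64 * R0) ab er dl m n s → blc n s m (64 * R0) ≤ er → |s| ≤ d →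
      er ≤ κ * ab → dl ≤ κ * ab →
      (∀ (ζ : Sp d → ℝ) (N : ℝ), TFn 2 N ζ → (∀ y, (d : ℝ) + 3 ≤ ‖y‖ → ζ y = 0) →
        |∫ y, m y * ζ y| ≤ N * al) → ab ≤ C * (al + D) := by
  have hd0 : (0 : ℝ) ≤ d := Nat.cast_nonneg d
  obtain ⟨N, hN, hz⟩ := exists_TFn_zR d (J + 2)
  have hz1 := hz ((d : ℝ) + 1) (by linarith)
  have hz2 : TFn 2 N (zR ((d : ℝ) + 1) : Sp d → ℝ) := TU.TFn_mono hz1 (by omega) le_rfl
  obtain ⟨CZ, hCZ, hb⟩ := blc_mono (d := d) ((d : ℝ) + 3) (64 * R0) d (by linarith) (by linarith)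
  obtain ⟨c, hc, hv⟩ := TFx.disc_vol (d := d) (by omega)
  refine ⟨c / (8 * N), 2 * N * (1 + CZ) / c, by positivity, by positivity, ?_⟩
  intro m n s ab er dl D al hm hD hal hZ hS hbl hs her hdl hA
  have hab := hS.ab0
  have h1 := hS.est (zR ((d : ℝ) + 1)) ((d : ℝ) + 2) N N hz1.smooth (by linarith) (by linarith)
    (fun y hy => zR_eq_zero (by linarith))
    (TFx.TB_of hS.n1 s hz1 (TU.zR_smooth (by linarith))) (fun y => hz1.bd 2 (by omega) y)
  have h2 := hb m D hm hZ n s hS.n1 hs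
  have h3 : c ≤ plInt n s (zR ((d : ℝ) + 1)) := by
    have h4 := TFx.disc_le hS.n1 (s := s) (ρ := 1) (R := (d : ℝ) + 1) (by linarith)
      (Y := fun _ => 1) continuous_const (fun _ => zero_le_one) (y := s • n)
      (by rw [inner_smul_right, real_inner_self_eq_norm_sq, hS.n1]; ring)
      (by rw [norm_smul, hS.n1, mul_one, Real.norm_eq_abs]; linarith)
      (fun _ => 1) continuous_const (fun _ _ => le_rfl)
    rw [setIntegral_const, hv n hS.n1, smul_eq_mul, mul_one] at h4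
    simpa using h4
  have h5 := hA _ N hz2 (fun y hy => zR_eq_zero (by linarith))
  have h6 : (d : ℝ) + 2 + 1 = d + 3 := by ring
  rw [h6] at h1
  have h7 := (abs_le.1 h1).1
  have h8 := (abs_le.1 h5).2
  have h9 : ab * c ≤ ab * plInt n s (zR ((d : ℝ) + 1)) := mul_le_mul_of_nonneg_left h3 hab.le
  have h10 : N * blc n s m (d + 3) ≤ N * (c / (8 * N) * ab + CZ * D) :=
    mul_le_mul_of_nonneg_left (by linarith) hN.le
  have h11 : er * N ≤ c / (8 * N) * ab * N := mul_le_mul_of_nonneg_right her hN.le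
  have h12 : (N + N) * dl ≤ (N + N) * (c / (8 * N) * ab) :=
    mul_le_mul_of_nonneg_left hdl (by linarith)
  have h13 : c / (8 * N) * ab * N = c * ab / 8 := by field_simp
  have h14 : N * (c / (8 * N) * ab + CZ * D) = c * ab / 8 + N * CZ * D := by
    field_simp
  have h15 : (N + N) * (c / (8 * N) * ab) = c * ab / 4 := by
    field_simp
    ring
  have h16 : ab * c / 2 ≤ N * al + N * CZ * D := by
    rw [h13] at h11
    rw [h14] at h10
    rw [h15] at h12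
    linarith
  have h17 : N * al + N * CZ * D ≤ N * (1 + CZ) * (al + D) := by
    have : 0 ≤ N * CZ * al := by positivity
    have : 0 ≤ N * D := by positivity
    nlinarith
  have h18 : 2 * N * (1 + CZ) / c * (al + D) = 2 * (N * (1 + CZ) * (al + D)) / c := by ring
  rw [h18, le_div_iff₀ hc]
  linarith

/-- the gain on the plane of a cell -/
lemma gain_le (hWA : StmtWA) (hd : 2 ≤ d) {M C' ε : ℝ} (hC' : 0 < C') (hε0 : 0 < ε)
    (hε : ε ≤ 1) : ∃ C : ℝ, 0 < C ∧ ∀ β : Sp d → ℝ, Kit 4 M β → ∀ μ : Measure (Sp d), Gro C' μ →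
      ∀ (n : Sp d) (s : ℝ), ‖n‖ = 1 →
        plInt n s (fun x => chi x * XX β ε μ n 1 x) ≤ C * vv μ 1 0 ∧
        ((d : ℝ) < |s| → plInt n s (fun x => chi x * XX β ε μ n 1 x) = 0) := by
  obtain ⟨CW, hCW, h⟩ := hWA d 0 hd M C' ε hC' hε0 hε
  obtain ⟨Cp, hCp, hp⟩ := TFx.pl_le (d := d) (by omega) d
  refine ⟨Cp * (CW * (1 + d) ^ d), by positivity, fun β hβ μ hμ n s hn => ?_⟩
  obtain ⟨-, -, -, -, h5⟩ := h β hβ μ hμ
  obtain ⟨-, -, h6, -⟩ := h5 n hn
  have hv0 : 0 ≤ vv μ 1 0 := Real.sqrt_nonneg _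
  have hsup : ∀ y : Sp d, (d : ℝ) < ‖y‖ → chi y * XX β ε μ n 1 y = 0 := fun y hy => by
    rw [PTm.chi_supp hy.le (by omega), zero_mul]
  refine ⟨?_, fun hs => ?_⟩
  · have h7 := hp n hn s (fun x => chi x * XX β ε μ n 1 x) (CW * (1 + d) ^ d * vv μ 1 0)
      (by positivity) hsup (fun y _ hy => by
        have h8 := h6 0 le_rfl y
        rw [norm_iteratedFDeriv_zero, Real.norm_eq_abs] at h8
        have h9 := vv_grow hd hC' hμ y
        have h10 : (1 + ‖y‖) ^ d ≤ (1 + (d : ℝ)) ^ d := by gcongr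
        have h11 : vv μ 1 y ≤ (1 + (d : ℝ)) ^ d * vv μ 1 0 :=
          h9.trans (mul_le_mul_of_nonneg_right h10 hv0)
        rw [abs_mul, abs_of_nonneg (PTm.chi_nonneg y)]
        calc chi y * |XX β ε μ n 1 y| ≤ 1 * |XX β ε μ n 1 y| :=
              mul_le_mul_of_nonneg_right (PTm.chi_le_one y) (abs_nonneg _)
          _ = |XX β ε μ n 1 y| := one_mul _
          _ ≤ CW * vv μ 1 y := h8
          _ ≤ CW * ((1 + (d : ℝ)) ^ d * vv μ 1 0) := mul_le_mul_of_nonneg_left h11 hCW.le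
          _ = _ := by ring)
    calc _ ≤ |plInt n s (fun x => chi x * XX β ε μ n 1 x)| := le_abs_self _
      _ ≤ Cp * (CW * (1 + d) ^ d * vv μ 1 0) := h7
      _ = _ := by ring
  · have h7 := hp n hn s (fun x => chi x * XX β ε μ n 1 x) 0 le_rfl hsup (fun y h8 hy => by
      exfalso
      have h9 : |s| ≤ ‖y‖ := by
        rw [← h8]
        have := abs_real_inner_le_norm n y
        rwa [hn, one_mul] at this
      linarith)
    rw [mul_zero] at h7
    exact abs_nonpos_iff.1 h7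

/-- the off-sheet mass of a cell -/
lemma hgt_tfn (hd : 2 ≤ d) (S : ℝ) : ∃ K : ℝ, 0 < K ∧ ∀ (n : Sp d) (s : ℝ), ‖n‖ = 1 → |s| ≤ S →
    TFn 2 K (fun y => chi y * hgt n s y ^ 2) := by
  have hd0 : (2 : ℝ) ≤ d := by exact_mod_cast hd
  obtain ⟨K1, hK1, h1⟩ := exists_TFn_ht2 d 2 d S (by linarith)
  obtain ⟨K2, hK2, h2⟩ := TFx.chi_TFn (d := d) (by omega) 2
  refine ⟨2 ^ 2 * (K2 * K1), by positivity, fun n s hn hs => ?_⟩
  have h3 := TU.TFn_mul h2 (h1 n s hn hs)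
  have e1 : (fun y => chi y * hgt n s y ^ 2) = fun y => chi y * (zR (d : ℝ) y * ht n s y ^ 2) := by
    funext y
    have e2 : ht n s y = hgt n s y := rfl
    rw [e2]
    by_cases hy : ‖y‖ ≤ d
    · rw [zR_eq_one hy, one_mul]
    · rw [PTm.chi_supp (not_le.1 hy).le (by omega), zero_mul, zero_mul]
  rw [e1]
  exact h3

end W5m

end

end TG
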