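import Pool.Agent.TG.WTb
import Pool.Agent.TG.W5b
import Pool.Agent.TG.KitMono

/-!
# MODULE W4, first part: sheet cells in their frames   (helper38)
-/

open MeasureTheory Metric Set TrI Filter
open scoped InnerProductSpace ContDiff Topology

set_option linter.unusedSectionVars false

namespace TG

noncomputable section

namespace W4m

variable {d : ℕ}

/-! ## Test functions from bounds of order 0 and 2 -/

lemma tfn_02 {H : Sp d → ℝ} (hH : ContDiff ℝ 2 H) (h0 : ∀ y, |H y| ≤ 1)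
    (h2 : ∀ y, ‖iteratedFDeriv ℝ 2 H y‖ ≤ 1) : TFn 2 4 H := by
  have hd : Differentiable ℝ H := hH.differentiable (by norm_num)
  have hD : ContDiff ℝ 1 (fderiv ℝ H) := hH.fderiv_right (by norm_num)
  have hDd : Differentiable ℝ (fderiv ℝ H) := hD.differentiable (by norm_num)
  have hbd : ∀ y, ‖fderiv ℝ (fderiv ℝ H) y‖ ≤ 1 := fun y => by
    have : ‖fderiv ℝ (fderiv ℝ H) y‖ = ‖iteratedFDeriv ℝ 2 H y‖ := by
      rw [show (2 : ℕ) = 1 + 1 from rfl, ← norm_iteratedFDeriv_fderiv,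
        norm_iteratedFDeriv_one]
    rw [this]
    exact h2 y
  have key : ∀ x v : Sp d, |H (x + v) - H x - fderiv ℝ H x v| ≤ ‖v‖ * ‖v‖ := by
    intro x v
    have hlip : ∀ y, ‖fderiv ℝ H y - fderiv ℝ H x‖ ≤ ‖y - x‖ := fun y => by
      have := Convex.norm_image_sub_le_of_norm_fderiv_le (𝕜 := ℝ) (f := fderiv ℝ H) (s := univ)
        (C := 1) (x := x) (y := y) (fun z _ => hDd z) (fun z _ => hbd z) convex_univ (mem_univ _)
        (mem_univ _)
      simpa using this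
    have h3 := (convex_closedBall x ‖v‖).norm_image_sub_le_of_norm_fderiv_le' (𝕜 := ℝ) (f := H)
      (φ := fderiv ℝ H x) (C := ‖v‖) (x := x) (y := x + v) (fun z _ => hd z)
      (fun z hz => (hlip z).trans (by rwa [mem_closedBall, dist_eq_norm] at hz))
      (mem_closedBall_self (norm_nonneg v)) (by simp [mem_closedBall, dist_eq_norm])
    rw [Real.norm_eq_abs, add_sub_cancel_left] at h3
    exact h3
  refine ⟨hH, fun j hj x => ?_⟩
  interval_cases j
  · rw [norm_iteratedFDeriv_zero, Real.norm_eq_abs]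
    linarith [h0 x]
  · rw [norm_iteratedFDeriv_one]
    refine ContinuousLinearMap.opNorm_le_of_unit_norm (by norm_num) fun v hv => ?_
    have h3 := key x v
    rw [hv] at h3
    have h4 := h0 (x + v)
    have h5 := h0 x
    rw [Real.norm_eq_abs]
    rw [abs_le] at *
    constructor <;> linarith [h3.1, h3.2, h4.1, h4.2, h5.1, h5.2]
  · linarith [h2 x]

lemma zp_mono {R R' D D' : ℝ} {m : Sp d → ℝ} (h : ZP R D m) (hR : R' ≤ R) (hD : D ≤ D') :
    ZP R' D' m := fun H h1 h2 h3 h4 h5 =>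
  (neg_le_neg hD).trans (h H h1 h2 h3 h4 fun y hy => h5 y (hR.trans hy))

/-! ## Sheet cells -/

/-- a sheet cell in its frame -/
structure ShF (J : ℕ) (R ab er dl D : ℝ) (m : Sp d → ℝ) (n : Sp d) (s : ℝ) : Prop where
  sh : Sheet J R ab er dl m n s
  bl : blc n s m R ≤ er
  loc : |s| ≤ R + 4
  dl0 : 0 ≤ dl
  D0 : 0 ≤ D
  mc : Continuous m
  zp : ZP (R + 1) D m

/-- the sheet and the near positivity with a common defect -/
lemma ShF.common {J : ℕ} {R ab er dl D : ℝ} {m : Sp d → ℝ} {n : Sp d} {s : ℝ}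
    (h : ShF J R ab er dl D m n s) {D' : ℝ} (hD : dl + D ≤ D') :
    ZP R D' m ∧ Sheet J R ab er D' m n s := by
  have h1 := h.dl0
  have h2 := h.D0
  exact ⟨zp_mono h.zp (by linarith) (by linarith),
    WT.sheet_mono h.sh le_rfl le_rfl h.sh.loc le_rfl (by linarith)⟩

/-- the off-sheet mass in small balls -/
lemma blc_le {R : ℝ} (hR : (d : ℝ) + 1 ≤ R) : ∃ K : ℝ, 0 < K ∧
    ∀ (J : ℕ) (ab er dl D : ℝ) (m : Sp d → ℝ) (n : Sp d) (s : ℝ), ShF J R ab er dl D m n s →
      blc n s m (d + 1) ≤ er + K * D := by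
  have hd0 : (0 : ℝ) ≤ d := Nat.cast_nonneg d
  obtain ⟨K, hK, h⟩ := W5m.blc_mono (d := d) ((d : ℝ) + 1) R (R + 4) (by linarith) hR
  refine ⟨K, hK, fun J ab er dl D m n s hS => ?_⟩
  have h1 := h m D hS.mc hS.zp n s hS.sh.n1 hS.loc
  linarith [hS.bl]

/-- crude bound of a test function supported in the cell -/
lemma crude (hd : 2 ≤ d) (J : ℕ) {R : ℝ} (hR : (d : ℝ) + 1 ≤ R) : ∃ C : ℝ, 0 < C ∧
    ∀ (ab er dl D : ℝ) (m : Sp d → ℝ) (n : Sp d) (s : ℝ), ShF J R ab er dl D m n s →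
    ∀ (ζ : Sp d → ℝ) (N : ℝ), TFn (J + 2) N ζ → (∀ y, (d : ℝ) ≤ ‖y‖ → ζ y = 0) →
      |∫ y, m y * ζ y| ≤ N * (C * (ab + er + dl + D)) := by
  have hd0 : (0 : ℝ) ≤ d := Nat.cast_nonneg d
  obtain ⟨K, hK, h⟩ := blc_le (d := d) hR
  obtain ⟨Cp, hCp, hp⟩ := TFx.pl_le (d := d) (by omega) d
  refine ⟨Cp + K + 2, by positivity, fun ab er dl D m n s hS ζ N hζ h0 => ?_⟩
  have hN := TU.TFn_nonneg hζ
  have h1 := h J ab er dl D m n s hS
  have h2 := hS.sh.est ζ d N N (by exact_mod_cast hζ.smooth) hd0 (by linarith) h0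
    (GSAux.TB_of_TFn hζ hS.sh.n1 s) (fun y => hζ.bd 2 (by omega) y)
  have h3 := hp n hS.sh.n1 s ζ N hN (fun y hy => h0 y hy.le) (fun y _ _ => by
    have := TU.TFn_norm hζ y
    rwa [Real.norm_eq_abs] at this)
  have hab := hS.sh.ab0
  have her := hS.sh.ep0
  have hdl := hS.dl0
  have hD := hS.D0
  have h4 : |ab * plInt n s ζ| ≤ ab * (Cp * N) := by
    rw [abs_mul, abs_of_pos hab]
    exact mul_le_mul_of_nonneg_left h3 hab.le
  have h5 : |∫ y, m y * ζ y| ≤ |(∫ y, m y * ζ y) - ab * plInt n s ζ| + |ab * plInt n s ζ| := by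
    have := abs_add_le ((∫ y, m y * ζ y) - ab * plInt n s ζ) (ab * plInt n s ζ)
    rwa [sub_add_cancel] at this
  have h6 : N * blc n s m (d + 1) ≤ N * (er + K * D) := mul_le_mul_of_nonneg_left h1 hN
  have e1 : N * ((Cp + K + 2) * (ab + er + dl + D)) =
      ab * (Cp * N) + (er * N + N * (er + K * D) + (N + N) * dl) +
      N * ((K + 2) * ab + (Cp + K) * er + (Cp + K) * dl + (Cp + 2) * D) := by ring
  have h7 : 0 ≤ N * ((K + 2) * ab + (Cp + K) * er + (Cp + K) * dl + (Cp + 2) * D) := by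
    positivity
  rw [e1]
  linarith

/-- main contribution and divergence contribution of a sheet cell -/
lemma main0 (hTA2 : StmtTA2) (hTD2 : StmtTD2) (hd : 2 ≤ d) (J : ℕ) {M C' ε p0 A c R : ℝ}
    (hC' : 0 < C') (hε0 : 0 < ε) (hε : ε ≤ 1 / 4) (hF : FarK d (J + 10) M C' ε p0 A c)
    (hR : 4 * A + 4 * d + 20 ≤ R) : ∃ cA C : ℝ, 0 < cA ∧ 0 < C ∧
    ∀ β : Sp d → ℝ, Kit (J + 10) M β → ∀ μ : Measure (Sp d), Gro C' μ →
    ∀ (ab er dl D : ℝ) (m : Sp d → ℝ) (n : Sp d) (s : ℝ), ShF J R ab er dl D m n s →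
      cA * (ab * plInt n s (fun x => chi x * XX β ε μ n 1 x)) ≤
        (∫ y, m y * (chi y * Hn β ε p0 A μ n 1 y)) + C * vv μ 1 0 * (er + dl + D) ∧
      |∫ y, m y * dvT chi β ε p0 A μ n y| ≤ C * vv μ 1 0 * (er + dl + D) := by
  have hA := hF.A_ge
  have hd0 : (0 : ℝ) ≤ d := Nat.cast_nonneg d
  obtain ⟨cA, C1, hcA, hC1, h1⟩ := hTA2 d J hd M C' ε p0 A c R hC' hε0 hε hF hR
  obtain ⟨C2, hC2, h2⟩ := hTD2 d J hd M C' ε p0 A R hC' hε0 hε hF.p0_pos hF.p0_le hA hR
  obtain ⟨K, hK, hb⟩ := blc_le (d := d) (R := R) (by linarith)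
  refine ⟨cA, (C1 + C2) * (K + 2), hcA, by positivity,
    fun β hβ μ hμ ab er dl D m n s hS => ?_⟩
  have hv : 0 ≤ vv μ 1 0 := Real.sqrt_nonneg _
  have her := hS.sh.ep0
  have hdl := hS.dl0
  have hD := hS.D0
  obtain ⟨hz, hs⟩ := hS.common (D' := dl + D) le_rfl
  have h3 := h1 β hβ μ hμ m n s ab er (dl + D) hS.mc (by linarith) hz hs
  have h4 := h2 β hβ μ hμ m n s ab er (dl + D) hS.mc (by linarith) hz hs
  have h5 := hb J ab er dl D m n s hS
  have h6 : er + blc n s m (d + 1) + 2 * (dl + D) ≤ (K + 2) * (er + dl + D) := by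
    nlinarith [mul_nonneg hK.le her, mul_nonneg hK.le hdl]
  have h7 : vv μ 1 0 * (er + blc n s m (d + 1) + 2 * (dl + D)) ≤
      vv μ 1 0 * ((K + 2) * (er + dl + D)) := mul_le_mul_of_nonneg_left h6 hv
  have h8 : 0 ≤ vv μ 1 0 * ((K + 2) * (er + dl + D)) := by positivity
  constructor
  · have h9 := mul_le_mul_of_nonneg_left h7 hC1.le
    have h10 := mul_nonneg hC2.le h8
    have e1 : (C1 + C2) * (K + 2) * vv μ 1 0 * (er + dl + D) =
      C1 * (vv μ 1 0 * ((K + 2) * (er + dl + D))) +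
        C2 * (vv μ 1 0 * ((K + 2) * (er + dl + D))) := by ring
    rw [e1, ← mul_assoc]
    have e2 : C1 * vv μ 1 0 * (er + blc n s m (d + 1) + 2 * (dl + D)) =
      C1 * (vv μ 1 0 * (er + blc n s m (d + 1) + 2 * (dl + D))) := by ring
    linarith
  · refine h4.trans ?_
    have h9 := mul_le_mul_of_nonneg_left h7 hC2.le
    have h10 := mul_nonneg hC1.le h8
    have e1 : (C1 + C2) * (K + 2) * vv μ 1 0 * (er + dl + D) =
      C1 * (vv μ 1 0 * ((K + 2) * (er + dl + D))) +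
        C2 * (vv μ 1 0 * ((K + 2) * (er + dl + D))) := by ring
    rw [e1]
    have e2 : C2 * vv μ 1 0 * (er + blc n s m (d + 1) + 2 * (dl + D)) =
      C2 * (vv μ 1 0 * (er + blc n s m (d + 1) + 2 * (dl + D))) := by ring
    linarith

/-- the off-sheet mass of the cell -/
lemma bl_le (hd : 2 ≤ d) {R : ℝ} (hR : (d : ℝ) + 1 ≤ R) : ∃ K : ℝ, 0 < K ∧
    ∀ (J : ℕ) (ab er dl D : ℝ) (m : Sp d → ℝ) (n : Sp d) (s : ℝ), ShF J R ab er dl D m n s →
      max 0 (∫ y, m y * (chi y * hgt n s y ^ 2)) ≤ er + K * D := by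
  have hd0 : (0 : ℝ) ≤ d := Nat.cast_nonneg d
  obtain ⟨K1, hK1, h1⟩ := W5m.hgt_tfn hd (R + 4)
  obtain ⟨K2, hK2, h2⟩ := exists_TFn_ht2 d 2 R (R + 4) (by linarith)
  refine ⟨K2 + K1, by positivity, fun J ab er dl D m n s hS => ?_⟩
  have t1 := h1 n s hS.sh.n1 hS.loc
  have t2 := h2 n s hS.sh.n1 hS.loc
  have e1 : ∀ y, ht n s y = hgt n s y := fun y => rfl
  simp only [e1] at t2
  have h3 := W5m.zp_scale hS.zp (K := K2 + K1) (by positivity) (t2.sub t1)
    (fun y => by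
      have h4 : chi y ≤ zR R y := by
        by_cases hy : ‖y‖ ≤ R
        · rw [zR_eq_one hy]
          exact PTm.chi_le_one y
        · rw [PTm.chi_supp (by linarith [not_le.1 hy]) (by omega)]
          exact zR_nonneg _ _
      nlinarith [sq_nonneg (hgt n s y)])
    (fun y hy => by
      rw [zR_eq_zero hy, PTm.chi_supp (by linarith) (by omega)]
      ring)
  have i1 : Integrable (fun y => m y * (zR R y * hgt n s y ^ 2)) :=
    W5m.int_m hS.mc t2.smooth.continuous (ρ := R + 1) (fun y hy => by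
      rw [zR_eq_zero hy, zero_mul])
  have i2 : Integrable (fun y => m y * (chi y * hgt n s y ^ 2)) :=
    W5m.int_m hS.mc t1.smooth.continuous (ρ := d) (fun y hy => by
      rw [PTm.chi_supp hy (by omega), zero_mul])
  have e2 : ∫ y, m y * (zR R y * hgt n s y ^ 2 - chi y * hgt n s y ^ 2) =
      blc n s m R - ∫ y, m y * (chi y * hgt n s y ^ 2) := by
    unfold blc
    rw [← integral_sub i1 i2]
    refine integral_congr_ae (Eventually.of_forall fun y => ?_)
    simp only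
    ring
  rw [e2] at h3
  have her := hS.sh.ep0
  have hD := hS.D0
  refine max_le (by positivity) ?_
  linarith [hS.bl]

/-- the gain in a slightly larger ball -/
lemma gain2 (hWA : StmtWA) (hd : 2 ≤ d) {M C' ε : ℝ} (hC' : 0 < C') (hε0 : 0 < ε)
    (hε : ε ≤ 1) : ∃ C : ℝ, 0 < C ∧ ∀ β : Sp d → ℝ, Kit 4 M β → ∀ μ : Measure (Sp d), Gro C' μ →
      ∀ (n : Sp d) (s : ℝ), ‖n‖ = 1 →
        plInt n s (fun x => zR (d + 2) x * XX β ε μ n 1 x) ≤ C * vv μ 1 0 := by
  obtain ⟨CW, hCW, h⟩ := hWA d 0 hd M C' ε hC' hε0 hε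
  obtain ⟨Cp, hCp, hp⟩ := TFx.pl_le (d := d) (by omega) (d + 3)
  refine ⟨Cp * (CW * (1 + (d + 3)) ^ d), by positivity, fun β hβ μ hμ n s hn => ?_⟩
  obtain ⟨-, -, -, -, h5⟩ := h β hβ μ hμ
  obtain ⟨-, -, h6, -⟩ := h5 n hn
  have hv0 : 0 ≤ vv μ 1 0 := Real.sqrt_nonneg _
  have h7 := hp n hn s (fun x => zR (d + 2) x * XX β ε μ n 1 x)
    (CW * (1 + (d + 3)) ^ d * vv μ 1 0) (by positivity)
    (fun y hy => by rw [zR_eq_zero (by linarith), zero_mul])
    (fun y _ hy => by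
      have h8 := h6 0 le_rfl y
      rw [norm_iteratedFDeriv_zero, Real.norm_eq_abs] at h8
      have h9 := CS2.vv_grow hd hC' hμ y
      have h10 : (1 + ‖y‖) ^ d ≤ (1 + ((d : ℝ) + 3)) ^ d := by gcongr
      have h11 : vv μ 1 y ≤ (1 + ((d : ℝ) + 3)) ^ d * vv μ 1 0 :=
        h9.trans (mul_le_mul_of_nonneg_right h10 hv0)
      rw [abs_mul, abs_of_nonneg (zR_nonneg _ y)]
      calc zR (d + 2) y * |XX β ε μ n 1 y| ≤ 1 * |XX β ε μ n 1 y| :=
            mul_le_mul_of_nonneg_right (TU.zR_le_one _ y) (abs_nonneg _)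
        _ = |XX β ε μ n 1 y| := one_mul _
        _ ≤ CW * vv μ 1 y := h8
        _ ≤ CW * ((1 + ((d : ℝ) + 3)) ^ d * vv μ 1 0) := mul_le_mul_of_nonneg_left h11 hCW.le
        _ = _ := by ring)
  calc _ ≤ |plInt n s (fun x => zR (d + 2) x * XX β ε μ n 1 x)| := le_abs_self _
    _ ≤ _ := h7
    _ = _ := by ring

/-- flux between two sheet cells; T bounds the tilt -/
lemma flux00 (hTF : StmtTF) (hWA : StmtWA) (hd : 2 ≤ d) (J : ℕ) {M C' ε p0 A R : ℝ}
    (hC' : 0 < C') (hε0 : 0 < ε) (hε : ε ≤ 1 / 4) (hp0 : 0 < p0) (hp01 : p0 ≤ 1) (hA : 1 ≤ A)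
    (hR : 4 * A + 4 * d + 20 ≤ R) : ∃ C : ℝ, 0 < C ∧
    ∀ β : Sp d → ℝ, Kit (J + 10) M β → ∀ μ : Measure (Sp d), Gro C' μ →
    ∀ (ab er dl D T : ℝ) (m m' : Sp d → ℝ) (n n' : Sp d) (s : ℝ) (p : Sp d),
      ShF J R ab er dl D m n s → Continuous m' → ‖n'‖ = 1 → 0 ≤ T → ab * ‖n - n'‖ ≤ T →
      (∀ (ζ : Sp d → ℝ) (N : ℝ), TFn 2 N ζ → (∀ y, R ≤ ‖y‖ → ζ y = 0) →
        |∫ y, (m' y - m y) * ζ y| ≤ N * D) →
      |(∫ y, m y * fxA chi (fun x => chi (x - p)) β ε p0 A μ n y)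
          - ∫ y, m' y * fxA chi (fun x => chi (x - p)) β ε p0 A μ n' y| ≤
        C * vv μ 1 0 * (er + dl + D + T) := by
  have hε1 : ε ≤ 1 := by linarith
  have hA0 : 0 < A := by linarith
  have hd0 : (2 : ℝ) ≤ d := by exact_mod_cast hd
  obtain ⟨C, C1, hC, hC1, h⟩ := hTF d J hd M C' ε p0 A R hC' hε0 hε hp0 hp01 hA hR
  obtain ⟨CX, hCX, hX⟩ := gain2 hWA hd (M := M) hC' hε0 hε1
  obtain ⟨K, hK, hb⟩ := blc_le (d := d) (R := R) (by linarith)
  obtain ⟨Cc, hCc, hc⟩ := crude hd J (R := R) (by linarith)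
  obtain ⟨B, hB, hfam⟩ := WTb.fam hd hC' (ε := ε) (p0 := p0) (A := A) hε0 hε1 hA0 M
  set S : ℝ := (1 + d * d) * (B1m.SB B (J + 2)) with hS
  have hS0 : 0 ≤ S := mul_nonneg (by positivity) (B1m.SB_nonneg B _)
  have hsq : 0 ≤ Real.sqrt CX := Real.sqrt_nonneg _
  refine ⟨C * Real.sqrt CX + C + C * (1 + K) + 4 * C1 + 2 * S * Cc + S + 1, by positivity, ?_⟩
  intro β hβ μ hμ ab er dl D T m m' n n' s p hSh hm' hn' hT hT2 hdir
  have hv : 0 ≤ vv μ 1 0 := Real.sqrt_nonneg _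
  set v := vv μ 1 0 with hvd
  have hab := hSh.sh.ab0
  have her := hSh.sh.ep0
  have hdl := hSh.dl0
  have hD := hSh.D0
  have hn := hSh.sh.n1
  have hβ4 : Kit 4 M β := hβ.mono_order (by omega)
  by_cases hδ : ‖n - n'‖ ≤ 1
  · -- small tilt
    obtain ⟨hz, hs⟩ := hSh.common (D' := dl + 4 * D) (by linarith)
    have h1 := h β hβ μ hμ m m' n n' s ab er (dl + 4 * D) ‖n - n'‖ p hSh.mc hm' (by positivity)
      hz hs hn' le_rfl hδ (fun Y hY hY1 hY2 hY0 => by
        have h2 := hdir Y 4 (tfn_02 hY hY1 hY2) hY0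
        have e1 : ∫ y, (m y - m' y) * Y y = -∫ y, (m' y - m y) * Y y := by
          rw [← integral_neg]
          congr 1
          funext y
          ring
        rw [e1, abs_neg]
        linarith)
    have h2 := hX β hβ4 μ hμ n s hn
    have h3 : Real.sqrt (v * plInt n s (fun x => zR (d + 2) x * XX β ε μ n 1 x)) ≤
        Real.sqrt CX * v := by
      calc Real.sqrt (v * plInt n s (fun x => zR (d + 2) x * XX β ε μ n 1 x))
          ≤ Real.sqrt (CX * v ^ 2) := by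
            refine Real.sqrt_le_sqrt ?_
            nlinarith
        _ = Real.sqrt CX * v := by rw [Real.sqrt_mul hCX.le, Real.sqrt_sq hv]
    have h4 := hb J ab er dl D m n s hSh
    have hδ0 := norm_nonneg (n - n')
    set δ := ‖n - n'‖ with hδd
    have h5 : 0 ≤ er + ab * δ := by positivity
    have h6 : C * (er + ab * δ) * Real.sqrt (v * plInt n s (fun x => zR (d + 2) x *
        XX β ε μ n 1 x)) ≤ C * (er + T) * (Real.sqrt CX * v) := by
      refine mul_le_mul ?_ h3 (Real.sqrt_nonneg _) (by positivity)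
      exact mul_le_mul_of_nonneg_left (by linarith) hC.le
    have h7 : er * δ + ab * δ ^ 2 ≤ er + T := by
      have h8 : er * δ ≤ er := by nlinarith
      have h9 : ab * δ ^ 2 ≤ ab * δ := by nlinarith [mul_nonneg hab.le hδ0]
      linarith
    have h8 : C * (er * δ + ab * δ ^ 2) * v ≤ C * (er + T) * v :=
      mul_le_mul_of_nonneg_right (mul_le_mul_of_nonneg_left h7 hC.le) hv
    have h9 : C * δ * v * blc n s m (d + 1) ≤ C * v * (er + K * D) := by
      have h10 : 0 ≤ C * δ * v := by positivity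
      have h11 : C * δ * v * blc n s m (d + 1) ≤ C * δ * v * (er + K * D) :=
        mul_le_mul_of_nonneg_left h4 h10
      have h12 : C * δ * v * (er + K * D) ≤ C * 1 * v * (er + K * D) := by
        gcongr
      linarith
    refine h1.trans ?_
    have e2 : C1 * v * (dl + 4 * D) = v * (C1 * dl + 4 * C1 * D) := by ring
    have e3 : C * (er + T) * (Real.sqrt CX * v) = v * (C * Real.sqrt CX * er +
      C * Real.sqrt CX * T) := by ring
    have e4 : C * (er + T) * v = v * (C * er + C * T) := by ring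
    have e5 : C * v * (er + K * D) = v * (C * er + C * K * D) := by ring
    have e6 : (C * Real.sqrt CX + C + C * (1 + K) + 4 * C1 + 2 * S * Cc + S + 1) * v *
        (er + dl + D + T) = v * (C * Real.sqrt CX * er + C * Real.sqrt CX * T) +
        v * (C * er + C * T) + v * (C * er + C * K * D) + v * (C1 * dl + 4 * C1 * D) +
        v * (C * Real.sqrt CX * (dl + D) + C * (dl + D) + C * (dl + D + T) +
          C * K * (er + dl + T) + C1 * (4 * er + 3 * dl + 4 * T) +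
          (2 * S * Cc + S + 1) * (er + dl + D + T)) := by ring
    have h13 : 0 ≤ v * (C * Real.sqrt CX * (dl + D) + C * (dl + D) + C * (dl + D + T) +
          C * K * (er + dl + T) + C1 * (4 * er + 3 * dl + 4 * T) +
          (2 * S * Cc + S + 1) * (er + dl + D + T)) := by positivity
    rw [e6]
    linarith
  · -- large tilt
    have hab2 : ab ≤ T := by
      have : ab * 1 ≤ ab * ‖n - n'‖ := mul_le_mul_of_nonneg_left (not_le.1 hδ).le hab.le
      linarith
    obtain ⟨-, -, f3, f4, -⟩ := hfam β hβ4 μ hμ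
    have g1 := WTb.fxA_tfn hv (f3 p) (f4 p) (J + 2) hn
    have g2 := WTb.fxA_tfn hv (f3 p) (f4 p) (J + 2) hn'
    have g3 := hc ab er dl D m n s hSh _ _ g1 (WTb.fxA_vs hd p β ε p0 A μ hn)
    have g4 := hc ab er dl D m n s hSh _ _ g2 (WTb.fxA_vs hd p β ε p0 A μ hn')
    have g5 := hdir _ _ (TU.TFn_mono g2 (by omega) le_rfl)
      (fun y hy => WTb.fxA_vs hd p β ε p0 A μ hn' y (by linarith))
    have e0 : (1 + (d : ℝ) * d) * (v * B1m.SB B (J + 2)) = v * S := by rw [hS]; ring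
    rw [e0] at g3 g4 g5
    have i1 : Integrable (fun y => m y * fxA chi (fun x => chi (x - p)) β ε p0 A μ n' y) :=
      W5m.int_m hSh.mc g2.smooth.continuous (WTb.fxA_vs hd p β ε p0 A μ hn')
    have i2 : Integrable (fun y => m' y * fxA chi (fun x => chi (x - p)) β ε p0 A μ n' y) :=
      W5m.int_m hm' g2.smooth.continuous (WTb.fxA_vs hd p β ε p0 A μ hn')
    have e1 : ∫ y, m' y * fxA chi (fun x => chi (x - p)) β ε p0 A μ n' y =
        (∫ y, (m' y - m y) * fxA chi (fun x => chi (x - p)) β ε p0 A μ n' y) +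
          ∫ y, m y * fxA chi (fun x => chi (x - p)) β ε p0 A μ n' y := by
      have h1 : ∫ y, (m' y - m y) * fxA chi (fun x => chi (x - p)) β ε p0 A μ n' y =
          (∫ y, m' y * fxA chi (fun x => chi (x - p)) β ε p0 A μ n' y) -
            ∫ y, m y * fxA chi (fun x => chi (x - p)) β ε p0 A μ n' y := by
        rw [← integral_sub i2 i1]
        congr 1
        funext y
        ring
      rw [h1]
      ring
    rw [e1]
    have h2 : v * S * (Cc * (ab + er + dl + D)) ≤ v * S * (Cc * (er + dl + D + T)) := by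
      refine mul_le_mul_of_nonneg_left ?_ (by positivity)
      exact mul_le_mul_of_nonneg_left (by linarith) hCc.le
    rw [abs_le] at g3 g4 g5 ⊢
    have e6 : (C * Real.sqrt CX + C + C * (1 + K) + 4 * C1 + 2 * S * Cc + S + 1) * v *
        (er + dl + D + T) = 2 * (v * S * (Cc * (er + dl + D + T))) + v * S * D +
        v * ((C * Real.sqrt CX + C + C * (1 + K) + 4 * C1 + 1) * (er + dl + D + T) +
          S * (er + dl + T)) := by ring
    have h13 : 0 ≤ v * ((C * Real.sqrt CX + C + C * (1 + K) + 4 * C1 + 1) * (er + dl + D + T) +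
          S * (er + dl + T)) := by positivity
    rw [e6]
    constructor <;> linarith [g3.1, g3.2, g4.1, g4.2, g5.1, g5.2]

end W4m

end

end TG
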