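import Pool.Agent.TG.W4a

/-!
# MODULE W4, second part: fluxes between a sheet cell and a Newton cell   (helper38)
-/

open MeasureTheory Metric Set TrI Filter
open scoped InnerProductSpace ContDiff Topology

set_option linter.unusedSectionVars false

namespace TG

noncomputable section

namespace W4m

variable {d : ℕ}

lemma sm_shift {B : ℕ → ℝ} {v ρ ρ' : ℝ} {g : Sp d → ℝ} (h : WTb.Sm B v ρ g) (x : Sp d)
    (h0 : ∀ y, ρ' ≤ ‖y‖ → g (x + y) = 0) : WTb.Sm B v ρ' (fun y => g (x + y)) :=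
  ⟨h.sm.comp (contDiff_const.add contDiff_id), fun k y => by
    rw [iteratedFDeriv_comp_add_left]
    exact h.bd k _, h0⟩

lemma tfn_mono_ord {J J' : ℕ} {N : ℝ} {g : Sp d → ℝ} (h : TFn J N g) (hJ : J' ≤ J) : TFn J' N g :=
  TU.TFn_mono h hJ le_rfl

/-- the difference of the two fluxes, tested with the density of the sheet cell; x is the position
of the sheet cell in the frame of the flux -/
lemma AB_diff (hd : 2 ≤ d) (J : ℕ) {Mb cb : ℝ} {b : Sp d → ℝ} (hb : BaseKer 2 Mb cb b)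
    {RN : ℝ} (hRN : 0 < RN) {B : ℕ → ℝ} {v : ℝ} (hv : 0 ≤ v) {p x : Sp d} (hx : x = 0 ∨ x = p)
    {β : Sp d → ℝ} {ε p0 A : ℝ} {μ : Measure (Sp d)}
    (h1 : ∀ a c, WTb.Sm B v d (WTb.mY p β ε p0 A μ a c)) (h2 : WTb.Sm B v d (WTb.tY p β ε p0 A μ))
    {n : Sp d} (hn : ‖n‖ = 1) {mP : Sp d → ℝ} (hm : Continuous mP) {EI Ea : ℝ}
    (hIf : ∀ (Y : Fin d → Fin d → Sp d → ℝ) (N : ℝ), (∀ i j, TFn (J + 6) N (Y i j)) →
      (∀ i j y, (d : ℝ) ≤ ‖y‖ → Y i j y = 0) →
      |∫ y, mP y * ((∑ i, ∑ j, n i * n j * Y i j y) - nt b RN Y y)| ≤ N * EI)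
    (hav : ∀ g : Sp d → ℝ, WTb.Sm B v d g → |∫ y, mP y * avk b RN g y| ≤ v * B1m.SB B 2 * Ea) :
    |∫ y, mP y * (fxA chi (fun z => chi (z - p)) β ε p0 A μ n (x + y) -
        fxB b RN chi (fun z => chi (z - p)) β ε p0 A μ (x + y))| ≤
      v * (B1m.SB B (J + 6) * EI + B1m.SB B 2 * Ea) := by
  have hY0 : ∀ (i j : Fin d) (y : Sp d), (d : ℝ) ≤ ‖y‖ →
      WTb.mY p β ε p0 A μ i j (x + y) = 0 := by
    intro i j y hy
    rcases hx with rfl | rfl
    · rw [zero_add]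
      exact WTb.mY_vs hd p β μ i j y hy
    · unfold WTb.mY
      rw [add_sub_cancel_left, PTm.chi_supp hy (by omega)]
      simp
  have ht0 : ∀ (y : Sp d), (d : ℝ) ≤ ‖y‖ → WTb.tY p β ε p0 A μ (x + y) = 0 := by
    intro y hy
    rcases hx with rfl | rfl
    · rw [zero_add]
      exact WTb.tY_vs hd p β μ y hy
    · unfold WTb.tY
      rw [add_sub_cancel_left, PTm.chi_supp hy (by omega)]
      simp
  have s1 : ∀ i j, WTb.Sm B v d (fun y => WTb.mY p β ε p0 A μ i j (x + y)) := fun i j =>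
    sm_shift (h1 i j) x (hY0 i j)
  have s2 : WTb.Sm B v d (fun y => WTb.tY p β ε p0 A μ (x + y)) := sm_shift h2 x ht0
  have k1 := hIf (fun i j y => WTb.mY p β ε p0 A μ i j (x + y)) (v * B1m.SB B (J + 6))
    (fun i j => (s1 i j).tfn hv (J + 6)) hY0
  have k2 := hav _ s2
  -- the identity
  have e1 : ∀ y, fxA chi (fun z => chi (z - p)) β ε p0 A μ n (x + y) -
        fxB b RN chi (fun z => chi (z - p)) β ε p0 A μ (x + y) =
      avk b RN (fun y => WTb.tY p β ε p0 A μ (x + y)) y -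
        ((∑ i, ∑ j, n i * n j * WTb.mY p β ε p0 A μ i j (x + y)) -
          nt b RN (fun i j y => WTb.mY p β ε p0 A μ i j (x + y)) y) := by
    intro y
    rw [WTb.fxA_sub_fxB b RN p β ε p0 A μ hn, CS1m.avk_shift, CS1m.nt_shift]
  simp only [e1]
  obtain ⟨t1, t2⟩ := WTb.avk_tfn hb hRN.le hv s2
  obtain ⟨t3, t4⟩ := WTb.nt_tfn hd hb hRN 2 hv s1
  have i1 : Integrable (fun y => mP y * avk b RN (fun y => WTb.tY p β ε p0 A μ (x + y)) y) :=
    W5m.int_m hm t1.smooth.continuous (ρ := d + RN + 1) (fun y hy => t2 y (by linarith))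
  have c1 : Continuous (fun y => ∑ i, ∑ j, n i * n j * WTb.mY p β ε p0 A μ i j (x + y)) :=
    continuous_finsetSum _ fun i _ => continuous_finsetSum _ fun j _ =>
      continuous_const.mul (s1 i j).sm.continuous
  have i2 : Integrable (fun y => mP y *
      ((∑ i, ∑ j, n i * n j * WTb.mY p β ε p0 A μ i j (x + y)) -
          nt b RN (fun i j y => WTb.mY p β ε p0 A μ i j (x + y)) y)) := by
    refine W5m.int_m hm (c1.sub t3.smooth.continuous) (ρ := d + 1 + RN) (fun y hy => ?_)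
    rw [t4 y (by linarith), sub_zero]
    refine Finset.sum_eq_zero fun i _ => Finset.sum_eq_zero fun j _ => ?_
    rw [hY0 i j y (by linarith), mul_zero]
  have e2 : ∫ y, mP y * (avk b RN (fun y => WTb.tY p β ε p0 A μ (x + y)) y -
        ((∑ i, ∑ j, n i * n j * WTb.mY p β ε p0 A μ i j (x + y)) -
          nt b RN (fun i j y => WTb.mY p β ε p0 A μ i j (x + y)) y)) =
      (∫ y, mP y * avk b RN (fun y => WTb.tY p β ε p0 A μ (x + y)) y) -
        ∫ y, mP y * ((∑ i, ∑ j, n i * n j * WTb.mY p β ε p0 A μ i j (x + y)) -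
          nt b RN (fun i j y => WTb.mY p β ε p0 A μ i j (x + y)) y) := by
    rw [← integral_sub i1 i2]
    congr 1
    funext y
    ring
  rw [e2]
  have k3 := abs_sub (∫ y, mP y * avk b RN (fun y => WTb.tY p β ε p0 A μ (x + y)) y)
    (∫ y, mP y * ((∑ i, ∑ j, n i * n j * WTb.mY p β ε p0 A μ i j (x + y)) -
          nt b RN (fun i j y => WTb.mY p β ε p0 A μ i j (x + y)) y))
  refine k3.trans ?_
  have e3 : v * (B1m.SB B (J + 6) * EI + B1m.SB B 2 * Ea) =
    v * B1m.SB B 2 * Ea + v * B1m.SB B (J + 6) * EI := by ring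
  rw [e3]
  exact add_le_add k2 k1

/-- splitting of a difference of two fluxes -/
lemma split {ζ ξ m m' : Sp d → ℝ} (i1 : Integrable (fun y => m y * ζ y))
    (i2 : Integrable (fun y => m y * ξ y)) (i3 : Integrable (fun y => m' y * ξ y)) :
    (∫ y, m y * ζ y) - ∫ y, m' y * ξ y =
      (∫ y, m y * (ζ y - ξ y)) - ∫ y, (m' y - m y) * ξ y := by
  have e1 : ∫ y, m y * (ζ y - ξ y) = (∫ y, m y * ζ y) - ∫ y, m y * ξ y := by
    rw [← integral_sub i1 i2]
    congr 1
    funext y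
    ring
  have e2 : ∫ y, (m' y - m y) * ξ y = (∫ y, m' y * ξ y) - ∫ y, m y * ξ y := by
    rw [← integral_sub i3 i2]
    congr 1
    funext y
    ring
  rw [e1, e2]
  ring

end W4m

end

end TG
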