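import Pool.Agent.TG.WTb
import Pool.Agent.TG.W1
import Pool.Agent.TG.NS
import Pool.Agent.TG.FM
import Pool.Agent.TG.HH
import Pool.Agent.TG.UU
import Pool.Agent.TG.B1
import Pool.Agent.TG.NF

/-!
# Tools for the modules W3, W4, W5, WB6: Newton cells   (helper64)

(1) monotonicity of Str, MG, WNw and WOK; (2) frame facts; (3) lower bound of the main contribution
of a Newton cell; (4) fluxes between two Newton cells; (5) fluxes towards cells which are not near.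
-/

open MeasureTheory Metric Set TrI Filter
open scoped InnerProductSpace ContDiff Topology

set_option linter.unusedSectionVars false

namespace TG

noncomputable section

namespace WTc

variable {d : ℕ}

/-! ## Monotonicity -/

lemma ZP_mono {R R' D D' : ℝ} {m : Sp d → ℝ} (h : ZP R D m) (hR : R' ≤ R) (hD : D ≤ D') :
    ZP R' D' m := fun H h1 h2 h3 h4 h5 =>
  (neg_le_neg hD).trans (h H h1 h2 h3 h4 fun y hy => h5 y (hR.trans hy))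

lemma MG_mono {K γ R R' a D : ℝ} {m : Sp d → ℝ} (h : MG K γ R a D m) (hR : R' ≤ R) :
    MG K γ R' a D m := fun ρ h1 h2 => h ρ h1 (h2.trans hR)

lemma Str_mono {J rm : ℕ} {R1 Rs Rs' e' e'' a : ℝ} {m : Sp d → ℝ} {r : ℕ} {ν : Fin r → Sp d}
    {κ : Fin r → Sp d → ℝ} (h : Str J rm R1 Rs e' a m r ν κ) (ha : 0 ≤ a) (hR : Rs' ≤ Rs)
    (he : e' ≤ e'') : Str J rm R1 Rs' e'' a m r ν κ where
  rle := h.rle
  n1 := h.n1
  k0 := h.k0
  kb := h.kb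
  ks := fun i y hy => (h.ks i y hy).trans (by linarith)
  kt := h.kt
  est := by
    intro ζ N hζ h0
    have hN : 0 ≤ N := (norm_nonneg _).trans (hζ.bd 0 (Nat.zero_le _) 0)
    refine (h.est ζ N hζ fun y hy => h0 y (hR.trans hy)).trans ?_
    exact mul_le_mul_of_nonneg_right (mul_le_mul_of_nonneg_right he ha) hN

section W

variable {E : Type} [NormedAddCommGroup E] [InnerProductSpace ℝ E]

lemma WNw_mono {K γ R1 Rs Rs' RM RM' : ℝ} {rm : ℕ} {tol tol' : ℕ → ℝ} {W : Wld d E} {Q : Cell d}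
    (h : WNw K γ R1 Rs RM rm tol W Q) (hR : Rs' ≤ Rs) (hM : RM' ≤ RM)
    (ht : ∀ J, tol J ≤ tol' J) : WNw K γ R1 Rs' RM' rm tol' W Q := by
  obtain ⟨h0, ⟨J, r, ν, κ, h1⟩, h2⟩ := h
  exact ⟨h0, ⟨J, r, ν, κ, Str_mono h1 h0 hR (ht J)⟩, MG_mono h2 hM⟩

lemma WOK_mono {JA : ℕ} {C' R0 Rz Rz' : ℝ} {X : Prm d} {W : Wld d E}
    (h : WOK JA C' R0 Rz X W) (hR : Rz' ≤ Rz) : WOK JA C' R0 Rz' X W where
  X_eq := h.X_eq
  s0_pos := h.s0_pos
  gro := h.gro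
  fc := h.fc
  fs := h.fs
  eu := h.eu
  nu := h.nu
  ab0 := h.ab0
  D0 := h.D0
  zp := fun Q => ZP_mono (h.zp Q) hR le_rfl
  dir := fun Q Q' hQ' ζ N hζ h0 => h.dir Q Q' hQ' ζ N hζ fun y hy => h0 y (hR.trans hy)

/-- change of the radius of the Newton field -/
lemma XOK_RN {J JA : ℕ} {M c0 C' c R0 : ℝ} {X : Prm d} (h : XOK J JA M c0 C' c R0 X) {RN : ℝ}
    (hR : 1 ≤ RN) : XOK J JA M c0 C' c R0 { X with RN := RN } where
  J_ge := h.J_ge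
  C'_pos := h.C'_pos
  prm := { ker := h.prm.ker, RN_ge := hR, ε_pos := h.prm.ε_pos, ε_le := h.prm.ε_le,
           p0_pos := h.prm.p0_pos, p0_le := h.prm.p0_le, A_ge := h.prm.A_ge }
  ker := h.ker
  far := h.far
  R0_ge := h.R0_ge
  JA_ge := h.JA_ge
  JA_7 := h.JA_7

/-! ## Frame facts -/

lemma adj_lev {Q Q' : Cell d} (h : Q' ∈ adj Q) : Q'.1 = Q.1 := by
  unfold adj at h
  rw [Finset.mem_product] at h
  exact Finset.mem_singleton.mp h.1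

lemma adj_symm {Q Q' : Cell d} (h : Q' ∈ adj Q) : Q ∈ adj Q' := by
  unfold adj at h ⊢
  rw [Finset.mem_product, Finset.mem_singleton, Fintype.mem_piFinset] at h ⊢
  refine ⟨h.1.symm, fun j => ?_⟩
  have h1 := h.2 j
  rw [Finset.mem_Icc] at h1 ⊢
  constructor <;> omega

lemma mem_ns (hd : 2 ≤ d) {JA : ℕ} {C' R0 Rz : ℝ} {X : Prm d} {W : Wld d E}
    (hW : WOK JA C' R0 Rz X W) (hR0 : (d : ℝ) ≤ R0) {Q Q' : Cell d} (h : Q' ∈ adj Q) :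
    Q' ∈ W.ns R0 JA Q := by
  have hd1 : (1 : ℝ) ≤ d := by exact_mod_cast (by omega : 1 ≤ d)
  have h1 := stmtNS d (by omega) W.s0 (3 * R0) hW.s0_pos (by linarith) JA Q
  obtain ⟨-, -, -, -, -, -, -, h2⟩ := h1
  refine h2 ?_ h
  have h3 : Real.sqrt d ≤ d := by
    rw [Real.sqrt_le_left (by linarith)]
    nlinarith
  linarith

lemma gro_mu (hd : 2 ≤ d) {C' : ℝ} (hC' : 0 < C') {JA : ℕ} {R0 Rz : ℝ} {X : Prm d} {W : Wld d E}
    (hW : WOK JA C' R0 Rz X W) (Q : Cell d) : Gro C' (W.mu Q) :=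
  WT.gro_muQ stmtSC hd hC' hW.gro hW.s0_pos Q

lemma v_eq (hd : 2 ≤ d) {C' : ℝ} (hC' : 0 < C') {JA : ℕ} {R0 Rz : ℝ} {X : Prm d} {W : Wld d E}
    (hW : WOK JA C' R0 Rz X W) (Q : Cell d) : W.v Q = vv (W.mu Q) 1 0 := by
  have h := WT.vv_frame stmtSC hd hC' hW.gro hW.s0_pos Q one_pos 0
  rw [mul_one, smul_zero, add_zero] at h
  exact h.symm

lemma v_nonneg (W : Wld d E) (Q : Cell d) : 0 ≤ W.v Q := Real.sqrt_nonneg _

lemma w_nonneg {W : Wld d E} (h : 0 < W.s0) (Q : Cell d) : 0 ≤ W.w Q := by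
  have h1 : 0 < lev W.s0 Q.1 := by unfold lev; positivity
  unfold Wld.w cw
  positivity

lemma m_cont {JA : ℕ} {C' R0 Rz : ℝ} {X : Prm d} {W : Wld d E} (hW : WOK JA C' R0 Rz X W)
    (Q : Cell d) : Continuous (W.m Q) := W1m.mQ_cont hW.fc _ _ _

/-! ## Lower bound of the main contribution of a Newton cell -/

/-- the gain in every direction is nonnegative -/
lemma Hn_nonneg {J : ℕ} {M C' ε p0 A c : ℝ} (hF : FarK d J M C' ε p0 A c) {β : Sp d → ℝ}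
    (hβ : Kit J M β) {μ : Measure (Sp d)} (hμ : Gro C' μ) {n : Sp d} (hn : ‖n‖ = 1) (y : Sp d) :
    0 ≤ Hn β ε p0 A μ n 1 y :=
  (mul_nonneg hF.c_pos.le (UUm.XX_nonneg hβ ε μ n y)).trans (hF.gain β hβ μ hμ n hn y)

/-- the main contribution of a Newton cell -/
theorem gam_low (hd : 2 ≤ d) {J JA : ℕ} {M c0 C' c R0 : ℝ} {X0 : Prm d}
    (hX : XOK J JA M c0 C' c R0 X0) {K γ δ : ℝ} (hK : 0 < K) (hγ0 : 0 < γ)
    (hγ : γ ≤ 1 / (8 * d)) (hδ : 0 < δ) :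
    ∃ RN0 : ℝ, 1 ≤ RN0 ∧ ∀ RN : ℝ, RN0 ≤ RN → ∃ tol : ℕ → ℝ, (∀ J, 0 < tol J) ∧
    ∀ (R1 : ℝ) (rm : ℕ), ∃ C : ℝ, 0 < C ∧
    ∀ (E : Type) [NormedAddCommGroup E] [InnerProductSpace ℝ E] (W : Wld d E) (Rz : ℝ),
      WOK JA C' R0 Rz { X0 with RN := RN } W → R1 ≤ Rz → ∀ Q : Cell d, W.kd Q = 1 →
      WNw K γ R1 (RN + d + 3) (RN + d + 4) rm tol W Q →
      -(δ * W.v Q * W.a Q + C * W.v Q * W.D Q) ≤ W.gam Q := by
  have hd1 : (1 : ℝ) ≤ d := by exact_mod_cast (by omega : 1 ≤ d)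
  have hε := hX.prm.ε_pos
  have hε4 := hX.prm.ε_le
  have hp0 := hX.prm.p0_pos
  have hA := hX.prm.A_ge
  obtain ⟨B, hB0, hfam⟩ := WTb.fam (p0 := X0.p0) hd hX.C'_pos hε (by linarith : X0.ε ≤ 1)
    (by linarith : 0 < X0.A) M
  obtain ⟨RN0, hRN0, h1⟩ := stmtB1 (stmtNN stmtPF) stmtPF d hd M c0 K γ d (δ / 2) B X0.b
    (hX.ker.mono_order (by omega)) hK hγ0 hγ hd1 (by positivity)
  refine ⟨RN0, hRN0, fun RN hRN => ?_⟩
  obtain ⟨tol, htol, h2⟩ := h1 RN hRN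
  refine ⟨tol, htol, fun R1 rm => ?_⟩
  obtain ⟨C, hC, h3⟩ := h2 R1 rm
  refine ⟨3 * C, by positivity, ?_⟩
  intro E _ _ W Rz hW hRz Q hk hN
  obtain ⟨ha, ⟨J', r, ν, κ, hS⟩, hMG⟩ := hN
  have hv := v_eq hd hX.C'_pos hW Q
  have hv0 := v_nonneg W Q
  have hgro := gro_mu hd hX.C'_pos hW Q
  have hXe := hW.X_eq
  have hkit : Kit (J + 10) M (bQ X0.b Q) := hX.ker.kit _
  obtain ⟨f1, f2, -, -, -⟩ := hfam (bQ X0.b Q) (hkit.mono_order (by omega)) (W.mu Q) hgro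
  obtain ⟨g1, -, g3⟩ := h3 (W.m Q) (W.a Q) (W.D Q) J' r ν κ (m_cont hW Q) ha (hW.D0 Q)
    (ZP_mono (hW.zp Q) hRz le_rfl) hS hMG
  have hHH := (stmtHH (stmtUB stmtTH) (stmtNN stmtPF) d hd M C' X0.ε X0.p0 X0.A hX.C'_pos hε
    (by linarith) hp0 hX.prm.p0_le hA (bQ X0.b Q) (hkit.mono_order (by omega)) (W.mu Q) hgro).1
  obtain ⟨a1, a2⟩ := g1 (fun i j x => chi x * HHm (bQ X0.b Q) X0.ε X0.p0 X0.A (W.mu Q) i j x)
    (vv (W.mu Q) 1 0) (Real.sqrt_nonneg _) (fun i j => (f1 i j).sm) (fun i j => (f1 i j).bd)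
    (fun i j => (f1 i j).vs) (fun n hn y => by
      have e : qf (fun i j x => chi x * HHm (bQ X0.b Q) X0.ε X0.p0 X0.A (W.mu Q) i j x) n y =
          chi y * Hn (bQ X0.b Q) X0.ε X0.p0 X0.A (W.mu Q) n 1 y := by
        unfold qf
        rw [← hHH n hn y, Finset.mul_sum]
        refine Finset.sum_congr rfl fun i _ => ?_
        rw [Finset.mul_sum]
        exact Finset.sum_congr rfl fun j _ => by ring
      rw [e]
      exact mul_nonneg (PTm.chi_nonneg y) (Hn_nonneg hX.far hkit hgro hn y))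
  have a3 := g3 (fun x => chi x * GG (bQ X0.b Q) X0.ε (W.mu Q) 1 x) (vv (W.mu Q) 1 0)
    (Real.sqrt_nonneg _) f2.sm f2.bd f2.vs
  rw [← hv] at a1 a2 a3
  have e : W.gam Q =
      (∫ y, W.m Q y * nt X0.b RN (fun i j x => chi x *
        HHm (bQ X0.b Q) X0.ε X0.p0 X0.A (W.mu Q) i j x) y) +
      ∫ y, W.m Q y * avk X0.b RN (fun x => chi x * GG (bQ X0.b Q) X0.ε (W.mu Q) 1 x) y := by
    unfold Wld.gam Gam
    rw [if_neg (by rw [hk]; norm_num), if_pos hk, hXe]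
    rfl
  rw [e]
  have a4 := (abs_le.1 a3).1
  nlinarith

/-! ## Fluxes -/

/-- the flux between two Newton cells -/
theorem fct_nn (hd : 2 ≤ d) {J JA : ℕ} {M c0 C' c R0 : ℝ} {X0 : Prm d}
    (hX : XOK J JA M c0 C' c R0 X0) {RN : ℝ} (hRN : 1 ≤ RN) : ∃ C : ℝ, 0 < C ∧
    ∀ (E : Type) [NormedAddCommGroup E] [InnerProductSpace ℝ E] (W : Wld d E) (Rz : ℝ),
      WOK JA C' R0 Rz { X0 with RN := RN } W → d + 1 + RN ≤ Rz → ∀ Q : Cell d, W.kd Q = 1 →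
      ∀ Q' ∈ adj Q, W.kd Q' = 1 →
      |Fct W.X W.s0 W.μ W.f W.e W.kd W.nv Q Q'| ≤ C * W.v Q * W.D Q := by
  have hε := hX.prm.ε_pos
  have hε4 := hX.prm.ε_le
  have hA := hX.prm.A_ge
  obtain ⟨B, hB0, hfam⟩ := WTb.fam (p0 := X0.p0) hd hX.C'_pos hε (by linarith : X0.ε ≤ 1)
    (by linarith : 0 < X0.A) M
  refine ⟨2 * B1m.SB B 2 + RN ^ 2 * (d * (d * B1m.SB B 4)) + 1, ?_, ?_⟩
  · have := B1m.SB_nonneg B 2
    have := B1m.SB_nonneg B 4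
    positivity
  intro E _ _ W Rz hW hRz Q hk Q' hQ' hk'
  have hv := v_eq hd hX.C'_pos hW Q
  have hv0 := v_nonneg W Q
  have hgro := gro_mu hd hX.C'_pos hW Q
  have hXe := hW.X_eq
  have hkit : Kit (J + 10) M (bQ X0.b Q) := hX.ker.kit _
  obtain ⟨-, -, f3, f4, -⟩ := hfam (bQ X0.b Q) (hkit.mono_order (by omega)) (W.mu Q) hgro
  obtain ⟨b1, b2⟩ := WTb.fxB_tfn hd (hX.ker.mono_order (by omega)) (by linarith : 0 < RN)
    (Real.sqrt_nonneg _) (f3 (dsp Q Q')) (f4 (dsp Q Q'))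
  have hns := mem_ns hd hW (by linarith [hX.R0_ge]) hQ'
  have h1 := hW.dir Q Q' hns _ _ b1 (fun y hy => b2 y (hRz.trans hy))
  have e : Fct W.X W.s0 W.μ W.f W.e W.kd W.nv Q Q' =
      -∫ y, (mQ W.s0 W.f (W.e Q') Q y - mQ W.s0 W.f (W.e Q) Q y) *
        fxB X0.b RN chi (fun x => chi (x - dsp Q Q')) (bQ X0.b Q) X0.ε X0.p0 X0.A (W.mu Q) y := by
    unfold Fct flx
    rw [if_neg (by rw [hk]; norm_num), if_pos hk, if_neg (by rw [hk']; norm_num), if_pos hk', hXe]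
    have hc : Continuous (fxB X0.b RN chi (fun x => chi (x - dsp Q Q')) (bQ X0.b Q) X0.ε X0.p0 X0.A
        (W.mu Q)) := b1.smooth.continuous
    have hs : HasCompactSupport (fxB X0.b RN chi (fun x => chi (x - dsp Q Q')) (bQ X0.b Q) X0.ε
        X0.p0 X0.A (W.mu Q)) := by
      refine HasCompactSupport.intro (isCompact_closedBall (0 : Sp d) (d + 1 + RN)) fun x hx => ?_
      rw [mem_closedBall, dist_zero_right, not_le] at hx
      exact b2 x hx.le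
    have i1 : ∀ e' : E, Integrable fun y => mQ W.s0 W.f e' Q y *
        fxB X0.b RN chi (fun x => chi (x - dsp Q Q')) (bQ X0.b Q) X0.ε X0.p0 X0.A (W.mu Q) y :=
      fun e' => ((W1m.mQ_cont hW.fc _ _ _).mul hc).integrable_of_hasCompactSupport hs.mul_left
    simp only [sub_mul]
    rw [integral_sub (i1 _) (i1 _)]
    change (∫ y, _ * fxB X0.b RN chi (fun x => chi (x - dsp Q Q')) (bQ X0.b Q) X0.ε X0.p0 X0.A
      (W.mu Q) y) - (∫ y, _ * fxB X0.b RN chi (fun x => chi (x - dsp Q Q')) (bQ X0.b Q) X0.ε X0.p0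
      X0.A (W.mu Q) y) = _
    ring
  rw [e, abs_neg]
  refine h1.trans ?_
  change vv (W.mu Q) 1 0 * _ * _ ≤ _
  rw [← hv]
  have hD := hW.D0 Q
  have : 0 ≤ W.v Q * W.D Q := mul_nonneg hv0 hD
  nlinarith

/-- the flux towards a cell which is not near vanishes -/
theorem fct_far (hd : 2 ≤ d) {J JA : ℕ} {M c0 C' c R0 : ℝ} {X0 : Prm d}
    (hX : XOK J JA M c0 C' c R0 X0) {RN : ℝ} (hRN : 1 ≤ RN) : ∃ Rz0 : ℝ,
    ∀ (E : Type) [NormedAddCommGroup E] [InnerProductSpace ℝ E] [FiniteDimensional ℝ E]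
      (W : Wld d E) (Rz : ℝ),
      WOK JA C' R0 Rz { X0 with RN := RN } W → Rz0 ≤ Rz → ∀ Q : Cell d,
      ∀ Q' ∈ adj Q, ¬ W.Near Q' →
      Fct W.X W.s0 W.μ W.f W.e W.kd W.nv Q Q' = 0 := by
  obtain ⟨C, Rz0, -, h⟩ := stmtW1 (stmtNN stmtPF) (stmtUB stmtTH) (stmtNF stmtTH (stmtUB stmtTH))
    (stmtFM stmtSC (stmtSE stmtSC)) d J JA hd M c0 C' c R0 _ (XOK_RN hX hRN)
  refine ⟨Rz0, fun E _ _ _ W Rz hW hRz Q Q' hQ' hn => ?_⟩
  obtain ⟨-, -, h1, -⟩ := h E W (WOK_mono hW hRz) Q' hn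
  exact (h1 Q (adj_symm hQ')).2

end W

end WTc

end

end TG
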