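import Pool.Agent.TG.W4b
import Pool.Agent.TG.WTc

/-!
# MODULE W4, third part: cells of a world   (helper38)
-/

open MeasureTheory Metric Set TrI Filter
open scoped InnerProductSpace ContDiff Topology

set_option linter.unusedSectionVars false

namespace TG

noncomputable section

namespace W4m

variable {d : ℕ}

section W

variable {E : Type} [NormedAddCommGroup E] [InnerProductSpace ℝ E]

lemma shf {J JA : ℕ} {C' R0 Rz κ : ℝ} {X : Prm d} {W : Wld d E} (hW : WOK JA C' R0 Rz X W)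
    (hRz : 64 * R0 + 1 ≤ Rz) {P : Cell d} (h : WSh J R0 κ W P) :
    ShF J (64 * R0) (W.ab P) (W.er P) (W.dl P) (W.D P) (W.m P) (W.nv P) (W.sv P) where
  sh := h.sh
  bl := h.bl
  loc := h.loc
  dl0 := h.dl0
  D0 := hW.D0 P
  mc := WTc.m_cont hW P
  zp := zp_mono (hW.zp P) hRz le_rfl

/-- the world with other parameters -/
lemma wok_X {JA : ℕ} {C' R0 Rz : ℝ} {X X' : Prm d} {W : Wld d E} (hW : WOK JA C' R0 Rz X W) :
    WOK JA C' R0 Rz X' { W with X := X' } where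
  X_eq := rfl
  s0_pos := hW.s0_pos
  gro := hW.gro
  fc := hW.fc
  fs := hW.fs
  eu := hW.eu
  nu := hW.nu
  ab0 := hW.ab0
  D0 := hW.D0
  zp := hW.zp
  dir := hW.dir

lemma wsh_X {J : ℕ} {R0 κ : ℝ} {X' : Prm d} {W : Wld d E} {P : Cell d} (h : WSh J R0 κ W P) :
    WSh J R0 κ { W with X := X' } P where
  sh := h.sh
  bl := h.bl
  loc := h.loc
  dl0 := h.dl0
  small := h.small
  smalld := h.smalld

end W

open Classical in
/-- main part of a sheet cell -/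
lemma cell0 (hTA2 : StmtTA2) (hTD2 : StmtTD2) (hd : 2 ≤ d) {J JA : ℕ} {M c0 C' c R0 : ℝ}
    {X0 : Prm d} (hX : XOK J JA M c0 C' c R0 X0) : ∃ cA C : ℝ, 0 < cA ∧ 0 < C ∧
    ∀ (E : Type) [NormedAddCommGroup E] [InnerProductSpace ℝ E] (W : Wld d E) (RN Rz κ : ℝ),
      WOK JA C' R0 Rz { X0 with RN := RN } W → 64 * R0 + 1 ≤ Rz → ∀ Q : Cell d, W.Near Q →
      W.kd Q = 0 → WSh J R0 κ W Q → ∀ c1 : ℝ, 0 ≤ c1 → c1 ≤ cA → c1 ≤ 1 →
      c1 * W.val Q ≤ W.gam Q + Vct W.X W.s0 W.μ W.f W.e W.kd W.nv Q +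
        W.v Q * (C * (W.er Q + W.dl Q + W.D Q)) := by
  have hd0 : (0 : ℝ) ≤ d := Nat.cast_nonneg d
  have hA := hX.prm.A_ge
  have hR0 := hX.R0_ge
  obtain ⟨cA, C1, hcA, hC1, h1⟩ := main0 hTA2 hTD2 hd J hX.C'_pos hX.prm.ε_pos hX.prm.ε_le
    hX.far (R := 64 * R0) (by linarith)
  obtain ⟨K, hK, h2⟩ := bl_le hd (R := 64 * R0) (by linarith)
  refine ⟨cA, 2 * C1 + 1 + K, hcA, by positivity, ?_⟩
  intro E _ _ W RN Rz κ hW hRz Q hN hk hS c1 hc0 hcA1 hc1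
  have hv := WTc.v_eq hd hX.C'_pos hW Q
  have hv0 := WTc.v_nonneg W Q
  have hgro := WTc.gro_mu hd hX.C'_pos hW Q
  have hXe := hW.X_eq
  have hkit : Kit (J + 10) M (bQ X0.b Q) := hX.ker.kit _
  have hSh := shf hW hRz hS
  obtain ⟨h3, h4⟩ := h1 (bQ X0.b Q) hkit (W.mu Q) hgro _ _ _ _ _ _ _ hSh
  have h5 := h2 J _ _ _ _ _ _ _ hSh
  rw [← hv] at h3 h4
  have her := hSh.sh.ep0
  have hdl := hSh.dl0
  have hD := hSh.D0
  have e1 : W.sg Q = W.ab Q * plInt (W.nv Q) (W.sv Q)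
      (fun x => chi x * XX (bQ X0.b Q) X0.ε (W.mu Q) (W.nv Q) 1 x) := by
    unfold Wld.sg Wld.be
    rw [hXe]
  have e2 : W.gam Q = ∫ y, W.m Q y *
      (chi y * Hn (bQ X0.b Q) X0.ε X0.p0 X0.A (W.mu Q) (W.nv Q) 1 y) := by
    unfold Wld.gam Gam
    rw [if_pos hk, hXe]
    rfl
  have e3 : Vct W.X W.s0 W.μ W.f W.e W.kd W.nv Q = ∫ y, W.m Q y *
      dvT chi (bQ X0.b Q) X0.ε X0.p0 X0.A (W.mu Q) (W.nv Q) y := by
    unfold Vct
    rw [if_pos hk, hXe]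
    rfl
  have e4 : W.val Q = W.sg Q + max 0 (W.bl Q) := by
    unfold Wld.val
    rw [if_pos ⟨hN, hk⟩]
  have hsg : 0 ≤ W.sg Q := by
    rw [e1]
    exact mul_nonneg (hW.ab0 Q) (integral_nonneg fun x => mul_nonneg (PTm.chi_nonneg _)
      (UUm.XX_nonneg hkit _ _ _ _))
  have h6 : max 0 (W.bl Q) ≤ W.v Q * (W.er Q + K * W.D Q) := by
    refine max_le (mul_nonneg hv0 (by positivity)) ?_
    unfold Wld.bl
    refine mul_le_mul_of_nonneg_left ?_ hv0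
    exact (le_max_right _ _).trans h5
  rw [← e1, ← e2] at h3
  rw [← e3] at h4
  have h7 := (abs_le.1 h4).1
  have h8 : c1 * W.sg Q ≤ cA * W.sg Q := mul_le_mul_of_nonneg_right hcA1 hsg
  have h9 : c1 * max 0 (W.bl Q) ≤ 1 * max 0 (W.bl Q) :=
    mul_le_mul_of_nonneg_right hc1 (le_max_left _ _)
  rw [e4, mul_add]
  have e5 : W.v Q * ((2 * C1 + 1 + K) * (W.er Q + W.dl Q + W.D Q)) =
      C1 * W.v Q * (W.er Q + W.dl Q + W.D Q) + C1 * W.v Q * (W.er Q + W.dl Q + W.D Q) +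
      W.v Q * (W.er Q + K * W.D Q) + W.v Q * (K * W.er Q + (1 + K) * W.dl Q + W.D Q) := by ring
  have h10 : 0 ≤ W.v Q * (K * W.er Q + (1 + K) * W.dl Q + W.D Q) := by positivity
  rw [e5]
  linarith

/-- flux between two sheet cells -/
lemma pair00 (hTF : StmtTF) (hWA : StmtWA) (hP1 : StmtP1) (hd : 2 ≤ d) {J JA : ℕ}
    {M c0 C' c R0 : ℝ} {X0 : Prm d} (hX : XOK J JA M c0 C' c R0 X0) (Kc : ℝ) (hKc : 1 ≤ Kc) :
    ∃ κ C Rz0 : ℝ, 0 < κ ∧ 0 < C ∧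
    ∀ (E : Type) [NormedAddCommGroup E] [InnerProductSpace ℝ E] [FiniteDimensional ℝ E]
      (W : Wld d E) (RN Rz : ℝ),
      WOK JA C' R0 Rz { X0 with RN := RN } W → Rz0 ≤ Rz → ∀ Q : Cell d, W.kd Q = 0 →
      |W.sv Q| ≤ 32 * R0 + 4 → WSh J R0 κ W Q → ∀ Q' ∈ adj Q, W.kd Q' = 0 → WSh J R0 κ W Q' →
      W.ab Q' ≤ Kc * W.ab Q → |Fct W.X W.s0 W.μ W.f W.e W.kd W.nv Q Q'| ≤
        W.v Q * (C * ((W.er Q + W.dl Q + W.D Q) + (W.er Q' + W.dl Q' + W.D Q'))) := by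
  have hd0 : (0 : ℝ) ≤ d := Nat.cast_nonneg d
  have hA := hX.prm.A_ge
  have hR0 := hX.R0_ge
  obtain ⟨Cf, hCf, h1⟩ := flux00 hTF hWA hd J (M := M) hX.C'_pos hX.prm.ε_pos hX.prm.ε_le
    hX.prm.p0_pos hX.prm.p0_le hA (R := 64 * R0) (by linarith)
  obtain ⟨CP, -, h2⟩ := hP1 d J JA hd M c0 C' c R0 X0 hX
  obtain ⟨κ, CK, Rz1, hκ, hCK, h3⟩ := h2 Kc hKc
  refine ⟨κ, Cf * (1 + CK), max Rz1 (64 * R0 + 1), hκ, by positivity, ?_⟩
  intro E _ _ _ W RN Rz hW hRz Q hk hs hQ Q' hadj hk' hQ' hab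
  have hRz1 : Rz1 ≤ Rz := (le_max_left _ _).trans hRz
  have hRz2 : 64 * R0 + 1 ≤ Rz := (le_max_right _ _).trans hRz
  have hv := WTc.v_eq hd hX.C'_pos hW Q
  have hv0 := WTc.v_nonneg W Q
  have hgro := WTc.gro_mu hd hX.C'_pos hW Q
  have hXe := hW.X_eq
  have hkit : Kit (J + 10) M (bQ X0.b Q) := hX.ker.kit _
  have hSh := shf hW hRz2 hQ
  have hSh' := shf hW hRz2 hQ'
  have her := hSh.sh.ep0
  have hdl := hSh.dl0
  have hD := hSh.D0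
  have her' := hSh'.sh.ep0
  have hdl' := hSh'.dl0
  have hD' := hSh'.D0
  have hns := WTc.mem_ns hd hW (by linarith) hadj
  obtain ⟨-, -, -, σ, hσ, htilt⟩ := h3 E { W with X := X0 } (wok_X (WTc.WOK_mono hW hRz1)) Q hs
    (wsh_X hQ) Q' hns (wsh_X hQ') hab 0 (by rw [add_zero]; exact WTc.adj_lev hadj)
  change W.ab Q * ‖W.nv Q - σ • W.nv Q'‖ ≤
    CK * (W.er Q + W.er Q' + W.dl Q + W.dl Q' + W.D Q + W.D Q') at htilt
  have hn' : ‖σ • W.nv Q'‖ = 1 := by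
    rw [norm_smul, hSh'.sh.n1]
    rcases hσ with rfl | rfl <;> simp
  have hT : 0 ≤ CK * (W.er Q + W.er Q' + W.dl Q + W.dl Q' + W.D Q + W.D Q') := by positivity
  have h4 := h1 (bQ X0.b Q) hkit (W.mu Q) hgro _ _ _ _ _ _
    (mQ W.s0 W.f (W.e Q') Q) _ (σ • W.nv Q') _ (dsp Q Q') hSh (W1m.mQ_cont hW.fc _ _ _) hn' hT
    htilt (fun ζ N hζ h0 => hW.dir Q Q' hns ζ N hζ fun y hy => h0 y (by linarith))
  have e1 : Fct W.X W.s0 W.μ W.f W.e W.kd W.nv Q Q' =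
      (∫ y, W.m Q y * fxA chi (fun x => chi (x - dsp Q Q')) (bQ X0.b Q) X0.ε X0.p0 X0.A (W.mu Q)
        (W.nv Q) y) - ∫ y, mQ W.s0 W.f (W.e Q') Q y *
        fxA chi (fun x => chi (x - dsp Q Q')) (bQ X0.b Q) X0.ε X0.p0 X0.A (W.mu Q)
          (σ • W.nv Q') y := by
    simp only [WT.fxA_sign _ _ _ _ _ _ _ _ _ hσ]
    unfold Fct flx
    rw [if_pos hk, if_pos hk', hXe]
    rfl
  rw [e1]
  refine h4.trans ?_
  rw [← hv]
  have e2 : W.v Q * (Cf * (1 + CK) * ((W.er Q + W.dl Q + W.D Q) + (W.er Q' + W.dl Q' + W.D Q'))) =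
      Cf * W.v Q * (W.er Q + W.dl Q + W.D Q +
        CK * (W.er Q + W.er Q' + W.dl Q + W.dl Q' + W.D Q + W.D Q')) +
      W.v Q * (Cf * (W.er Q' + W.dl Q' + W.D Q')) := by ring
  have h5 : 0 ≤ W.v Q * (Cf * (W.er Q' + W.dl Q' + W.D Q')) := by positivity
  rw [e2]
  linarith

lemma split2 {ζ ξ m m' : Sp d → ℝ} (i1 : Integrable (fun y => m' y * ζ y))
    (i2 : Integrable (fun y => m' y * ξ y)) (i3 : Integrable (fun y => m y * ξ y)) :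
    (∫ y, m y * ξ y) - ∫ y, m' y * ζ y =
      -(∫ y, m' y * (ζ y - ξ y)) - ∫ y, (m' y - m y) * ξ y := by
  have e1 : ∫ y, m' y * (ζ y - ξ y) = (∫ y, m' y * ζ y) - ∫ y, m' y * ξ y := by
    rw [← integral_sub i1 i2]
    congr 1
    funext y
    ring
  have e2 : ∫ y, (m' y - m y) * ξ y = (∫ y, m' y * ξ y) - ∫ y, m y * ξ y := by
    rw [← integral_sub i2 i3]
    congr 1
    funext y
    ring
  rw [e1, e2]
  ring

/-- flux between a sheet cell and a Newton cell; the error terms belong to the sheet cell -/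
lemma pair01 (hd : 2 ≤ d) {J JA : ℕ} {M c0 C' c R0 : ℝ} {X0 : Prm d}
    (hX : XOK J JA M c0 C' c R0 X0) : ∃ C1 : ℝ, 0 < C1 ∧
    ∀ (K γ δ : ℝ), 0 < K → 0 < γ → γ ≤ 1 / (8 * d) → 0 < δ → ∃ RN0 : ℝ, 1 ≤ RN0 ∧
    ∀ RN : ℝ, RN0 ≤ RN → ∃ C2 : ℝ, 0 < C2 ∧
    ∀ (E : Type) [NormedAddCommGroup E] [InnerProductSpace ℝ E] [FiniteDimensional ℝ E]
      (W : Wld d E) (Rz : ℝ),
      WOK JA C' R0 Rz { X0 with RN := RN } W → d + 1 + RN ≤ Rz → ∀ Q : Cell d, ∀ Q' ∈ adj Q,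
      ∀ EI : ℝ, 0 ≤ EI →
      (W.kd Q = 0 → W.kd Q' = 1 → WIf J W Q EI → 0 ≤ W.a Q →
        MG K γ (RN + d + 4) (W.a Q) (W.D Q) (W.m Q) →
        |Fct W.X W.s0 W.μ W.f W.e W.kd W.nv Q Q'| ≤
          W.v Q * (C1 * EI + δ * W.a Q + C2 * W.D Q)) ∧
      (W.kd Q = 1 → W.kd Q' = 0 → WIf J W Q' EI → 0 ≤ W.a Q' →
        MG K γ (RN + d + 4) (W.a Q') (W.D Q') (W.m Q') →
        |Fct W.X W.s0 W.μ W.f W.e W.kd W.nv Q Q'| ≤
          W.v Q * (C1 * EI + δ * W.a Q' + C2 * (W.D Q' + W.D Q))) := by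
  have hε := hX.prm.ε_pos
  have hε4 := hX.prm.ε_le
  have hA := hX.prm.A_ge
  have hd0 : (0 : ℝ) ≤ d := Nat.cast_nonneg d
  obtain ⟨B, hB0, hfam⟩ := WTb.fam (p0 := X0.p0) hd hX.C'_pos hε (by linarith : X0.ε ≤ 1)
    (by linarith : 0 < X0.A) M
  have hS2 := B1m.SB_nonneg B 2
  have hS4 := B1m.SB_nonneg B 4
  have hSJ := B1m.SB_nonneg B (J + 6)
  have hker : BaseKer 2 M c0 X0.b := hX.ker.mono_order (by omega)
  refine ⟨B1m.SB B (J + 6) + 1, by positivity, fun K γ δ hK hγ0 hγ hδ => ?_⟩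
  obtain ⟨RN0, hRN0, h1⟩ := WTb.avk_mg hd hker hK hγ0 hγ
    (δ := δ / (B1m.SB B 2 + 1)) (by positivity)
  refine ⟨RN0, hRN0, fun RN hRN => ?_⟩
  have hRN1 : 0 < RN := by linarith
  obtain ⟨Cv, hCv, h2⟩ := h1 RN hRN
  refine ⟨B1m.SB B 2 * Cv + (2 * B1m.SB B 2 + RN ^ 2 * (d * (d * B1m.SB B 4))) + 1,
    by positivity, ?_⟩
  intro E _ _ _ W Rz hW hRz Q Q' hadj EI hEI
  have hv := WTc.v_eq hd hX.C'_pos hW Q
  have hv0 := WTc.v_nonneg W Q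
  have hgro := WTc.gro_mu hd hX.C'_pos hW Q
  have hXe := hW.X_eq
  have hkit : Kit (J + 10) M (bQ X0.b Q) := hX.ker.kit _
  have hns := WTc.mem_ns hd hW (by linarith [hX.R0_ge]) hadj
  have hlev := WTc.adj_lev hadj
  have hvv : 0 ≤ vv (W.mu Q) 1 0 := Real.sqrt_nonneg _
  obtain ⟨-, -, f3, f4, -⟩ := hfam (bQ X0.b Q) (hkit.mono_order (by omega)) (W.mu Q) hgro
  obtain ⟨b1, b2⟩ := WTb.fxB_tfn hd hker hRN1 hvv (f3 (dsp Q Q')) (f4 (dsp Q Q'))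
  have hdir := hW.dir Q Q' hns _ _ b1 (fun y hy => b2 y (hRz.trans hy))
  have hD := hW.D0 Q
  have hm1 : Continuous (mQ W.s0 W.f (W.e Q') Q) := W1m.mQ_cont hW.fc _ _ _
  have iB : ∀ {m : Sp d → ℝ}, Continuous m → Integrable (fun y => m y *
      fxB X0.b RN chi (fun x => chi (x - dsp Q Q')) (bQ X0.b Q) X0.ε X0.p0 X0.A (W.mu Q) y) :=
    fun hm => W5m.int_m hm b1.smooth.continuous b2
  have iA : ∀ {m : Sp d → ℝ} (n : Sp d), ‖n‖ = 1 → Continuous m → Integrable (fun y => m y *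
      fxA chi (fun x => chi (x - dsp Q Q')) (bQ X0.b Q) X0.ε X0.p0 X0.A (W.mu Q) n y) :=
    fun n hn hm => W5m.int_m hm
      (WTb.fxA_tfn hvv (f3 (dsp Q Q')) (f4 (dsp Q Q')) 2 hn).smooth.continuous
      (WTb.fxA_vs hd (dsp Q Q') (bQ X0.b Q) X0.ε X0.p0 X0.A (W.mu Q) hn)
  have key : ∀ a D : ℝ, 0 ≤ a → B1m.SB B 2 * (δ / (B1m.SB B 2 + 1) * a + Cv * D) ≤
      δ * a + B1m.SB B 2 * Cv * D := by
    intro a D ha
    have e1 : B1m.SB B 2 * (δ / (B1m.SB B 2 + 1) * a + Cv * D) =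
      δ * a * (B1m.SB B 2 / (B1m.SB B 2 + 1)) + B1m.SB B 2 * Cv * D := by ring
    have h3 : B1m.SB B 2 / (B1m.SB B 2 + 1) ≤ 1 := by
      rw [div_le_one (by positivity)]
      linarith
    have h4 : δ * a * (B1m.SB B 2 / (B1m.SB B 2 + 1)) ≤ δ * a * 1 :=
      mul_le_mul_of_nonneg_left h3 (by positivity)
    rw [e1]
    linarith
  constructor
  · intro hk hk' hIf ha hMG
    have hg : ∀ g : Sp d → ℝ, WTb.Sm B (vv (W.mu Q) 1 0) d g →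
        |∫ y, W.m Q y * avk X0.b RN g y| ≤
          vv (W.mu Q) 1 0 * B1m.SB B 2 * (δ / (B1m.SB B 2 + 1) * W.a Q + Cv * W.D Q) :=
      fun g hg => h2 (W.m Q) (W.a Q) (W.D Q) ha hD hMG B _ g hvv hg
    have h3 := AB_diff hd J hker hRN1 hvv (x := 0) (Or.inl rfl) (f3 (dsp Q Q')) (f4 (dsp Q Q'))
      (hW.nu Q) (WTc.m_cont hW Q) (EI := EI)
      (Ea := δ / (B1m.SB B 2 + 1) * W.a Q + Cv * W.D Q)
      (fun Y N hY h0 => by
        have := hIf Y N hY h0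
        rwa [hXe] at this) hg
    simp only [zero_add] at h3
    have e1 : Fct W.X W.s0 W.μ W.f W.e W.kd W.nv Q Q' =
      (∫ y, W.m Q y * fxA chi (fun x => chi (x - dsp Q Q')) (bQ X0.b Q) X0.ε X0.p0 X0.A (W.mu Q)
        (W.nv Q) y) - ∫ y, mQ W.s0 W.f (W.e Q') Q y *
        fxB X0.b RN chi (fun x => chi (x - dsp Q Q')) (bQ X0.b Q) X0.ε X0.p0 X0.A (W.mu Q) y := by
      unfold Fct flx
      rw [if_pos hk, if_neg (by rw [hk']; norm_num), if_pos hk', hXe]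
      rfl
    rw [e1, split (iA _ (hW.nu Q) (WTc.m_cont hW Q)) (iB (WTc.m_cont hW Q)) (iB hm1)]
    refine (abs_sub _ _).trans ((add_le_add h3 hdir).trans ?_)
    rw [← hv]
    have h4 := mul_le_mul_of_nonneg_left (key (W.a Q) (W.D Q) ha) hv0
    have e2 : W.v Q * ((B1m.SB B (J + 6) + 1) * EI + δ * W.a Q +
        (B1m.SB B 2 * Cv + (2 * B1m.SB B 2 + RN ^ 2 * (d * (d * B1m.SB B 4))) + 1) * W.D Q) =
      W.v Q * B1m.SB B (J + 6) * EI + W.v Q * (δ * W.a Q + B1m.SB B 2 * Cv * W.D Q) +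
      W.v Q * (2 * B1m.SB B 2 + RN ^ 2 * (d * (d * B1m.SB B 4))) * W.D Q +
      W.v Q * (EI + W.D Q) := by ring
    have h5 : 0 ≤ W.v Q * (EI + W.D Q) := by positivity
    rw [e2]
    linarith
  · intro hk hk' hIf ha hMG
    have hg : ∀ g : Sp d → ℝ, WTb.Sm B (vv (W.mu Q) 1 0) d g →
        |∫ y, W.m Q' y * avk X0.b RN g y| ≤
          vv (W.mu Q) 1 0 * B1m.SB B 2 * (δ / (B1m.SB B 2 + 1) * W.a Q' + Cv * W.D Q') :=
      fun g hg => h2 (W.m Q') (W.a Q') (W.D Q') ha (hW.D0 Q') hMG B _ g hvv hg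
    have hx : dsp Q Q' = tw W.s0 Q Q' := WT.dsp_eq hW.s0_pos Q Q' hlev
    have h3 := AB_diff hd J hker hRN1 hvv (x := dsp Q Q') (Or.inr rfl) (f3 (dsp Q Q'))
      (f4 (dsp Q Q')) (hW.nu Q') (WTc.m_cont hW Q') (EI := EI)
      (Ea := δ / (B1m.SB B 2 + 1) * W.a Q' + Cv * W.D Q')
      (fun Y N hY h0 => by
        have := hIf Y N hY h0
        rwa [hXe] at this) hg
    have e3 := W5m.pair_frame hW.s0_pos W.f (W.e Q') Q Q' hlev
      (fun y => fxA chi (fun x => chi (x - dsp Q Q')) (bQ X0.b Q) X0.ε X0.p0 X0.A (W.mu Q)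
        (W.nv Q') y -
        fxB X0.b RN chi (fun x => chi (x - dsp Q Q')) (bQ X0.b Q) X0.ε X0.p0 X0.A (W.mu Q) y)
    rw [← hx] at e3
    have e1 : Fct W.X W.s0 W.μ W.f W.e W.kd W.nv Q Q' =
      (∫ y, W.m Q y *
        fxB X0.b RN chi (fun x => chi (x - dsp Q Q')) (bQ X0.b Q) X0.ε X0.p0 X0.A (W.mu Q) y) -
      ∫ y, mQ W.s0 W.f (W.e Q') Q y *
        fxA chi (fun x => chi (x - dsp Q Q')) (bQ X0.b Q) X0.ε X0.p0 X0.A (W.mu Q)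
        (W.nv Q') y := by
      unfold Fct flx
      rw [if_neg (by rw [hk]; norm_num), if_pos hk, if_pos hk', hXe]
      rfl
    rw [e1, split2 (iA _ (hW.nu Q') hm1) (iB hm1) (iB (WTc.m_cont hW Q)), e3]
    refine (abs_sub _ _).trans ?_
    rw [abs_neg]
    refine (add_le_add h3 hdir).trans ?_
    rw [← hv]
    have hD' := hW.D0 Q'
    have h4 := mul_le_mul_of_nonneg_left (key (W.a Q') (W.D Q') ha) hv0
    have e2 : W.v Q * ((B1m.SB B (J + 6) + 1) * EI + δ * W.a Q' +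
        (B1m.SB B 2 * Cv + (2 * B1m.SB B 2 + RN ^ 2 * (d * (d * B1m.SB B 4))) + 1) *
          (W.D Q' + W.D Q)) =
      W.v Q * B1m.SB B (J + 6) * EI + W.v Q * (δ * W.a Q' + B1m.SB B 2 * Cv * W.D Q') +
      W.v Q * (2 * B1m.SB B 2 + RN ^ 2 * (d * (d * B1m.SB B 4))) * W.D Q +
      W.v Q * (EI + W.D Q' + W.D Q + B1m.SB B 2 * Cv * W.D Q +
        (2 * B1m.SB B 2 + RN ^ 2 * (d * (d * B1m.SB B 4))) * W.D Q') := by ring
    have h5 : 0 ≤ W.v Q * (EI + W.D Q' + W.D Q + B1m.SB B 2 * Cv * W.D Q +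
        (2 * B1m.SB B 2 + RN ^ 2 * (d * (d * B1m.SB B 4))) * W.D Q') := by positivity
    rw [e2]
    linarith

end W4m

end

end TG
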