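import Pool.Agent.TG.W5b

/-!
# MODULE W5: near cells, crude bound by the local mass   (helper41)
-/

open MeasureTheory Metric Set TrI Filter
open scoped InnerProductSpace ContDiff Topology

set_option linter.unusedSectionVars false

namespace TG

noncomputable section

namespace W5m

open CS2

variable {d : ℕ}

lemma le_sum2 {B : Fin d → Fin d → ℝ} (h : ∀ i j, 0 ≤ B i j) (a c : Fin d) :
    B a c ≤ ∑ i, ∑ j, B i j := by
  have h1 : B a c ≤ ∑ j, B a j :=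
    Finset.single_le_sum (f := fun j => B a j) (fun j _ => h a j) (Finset.mem_univ c)
  exact h1.trans (Finset.single_le_sum (f := fun i => ∑ j, B i j)
    (fun i _ => Finset.sum_nonneg fun j _ => h i j) (Finset.mem_univ a))

lemma zp_mono {R R' D : ℝ} {m : Sp d → ℝ} (h : ZP R' D m) (hR : R ≤ R') : ZP R D m :=
  fun H h1 h2 h3 h4 h5 => h H h1 h2 h3 h4 fun y hy => h5 y (hR.trans hy)

lemma sqrt_le_self (hd : 1 ≤ d) : Real.sqrt d ≤ d := by
  have h : (1 : ℝ) ≤ d := by exact_mod_cast hd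
  rw [Real.sqrt_le_left (by linarith)]
  nlinarith

lemma adj_level {Q P : Cell d} (h : P ∈ adj Q) : P.1 = Q.1 := by
  unfold adj at h
  rw [Finset.mem_product, Finset.mem_singleton] at h
  exact h.1

lemma self_adj (Q : Cell d) : Q ∈ adj Q := by
  unfold adj
  rw [Finset.mem_product, Finset.mem_singleton, Fintype.mem_piFinset]
  refine ⟨rfl, fun j => ?_⟩
  rw [Finset.mem_Icc]
  omega

lemma mQ_cs {E : Type} [NormedAddCommGroup E] [InnerProductSpace ℝ E] [FiniteDimensional ℝ E]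
    {f : Sp d → E} (hc : HasCompactSupport f) {s0 : ℝ} (hs : 0 < s0) (e : E) (Q : Cell d) :
    HasCompactSupport (mQ s0 f e Q) :=
  (FR.rs_cs hc (xC s0 Q) (CS2.lev_pos hs Q.1)).comp_left (g := fun v => ⟪v, e⟫_ℝ) (by simp)

lemma int_split {m g1 g2 g3 : Sp d → ℝ} (hm : Continuous m) (hc : HasCompactSupport m)
    (c1 : Continuous g1) (c2 : Continuous g2) (c3 : Continuous g3) :
    ∫ y, m y * (g1 y - g2 y - g3 y) =
      (∫ y, m y * g1 y) - (∫ y, m y * g2 y) - ∫ y, m y * g3 y := by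
  have i1 : Integrable (fun y => m y * g1 y) :=
    (hm.mul c1).integrable_of_hasCompactSupport hc.mul_right
  have i2 : Integrable (fun y => m y * g2 y) :=
    (hm.mul c2).integrable_of_hasCompactSupport hc.mul_right
  have i3 : Integrable (fun y => m y * g3 y) :=
    (hm.mul c3).integrable_of_hasCompactSupport hc.mul_right
  have i4 : Integrable (fun y => m y * g1 y - m y * g2 y) := i1.sub i2
  rw [← integral_sub i1 i2, ← integral_sub i4 i3]
  refine integral_congr_ae (Eventually.of_forall fun y => ?_)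
  simp only
  ring

/-! ### arithmetic -/

lemma ar_nt {v K0 Bz al DQ cn δ aP CB DP Kc Sa SD I J : ℝ} (hv : 0 ≤ v) (hK0 : 1 ≤ K0)
    (hB : 0 ≤ Bz) (hal : 0 ≤ al) (hDQ0 : 0 ≤ DQ) (hDQ : DQ ≤ SD) (hDP : DP ≤ SD)
    (hcn : 0 < cn) (hδ : 0 < δ) (ha : aP ≤ Sa) (hCB : 0 ≤ CB) (hKc : K0 * Bz ≤ Kc)
    (hJ : J ≤ Bz * (al + DQ))
    (h : I ≤ v * K0 * J + δ / (cn * K0) * aP * (v * K0) + CB * (v * K0) * DP) :
    I ≤ v * (Kc * al + δ / cn * Sa + (Kc + CB * K0) * SD) := by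
  have hK : 0 < K0 := by linarith
  have h1 : v * K0 * J ≤ v * K0 * (Bz * (al + DQ)) :=
    mul_le_mul_of_nonneg_left hJ (by positivity)
  have e1 : δ / (cn * K0) * aP * (v * K0) = v * (δ / cn * aP) := by
    field_simp
  rw [e1] at h
  have h2 : δ / cn * aP ≤ δ / cn * Sa := mul_le_mul_of_nonneg_left ha (by positivity)
  have h3 : CB * K0 * DP ≤ CB * K0 * SD := mul_le_mul_of_nonneg_left hDP (by positivity)
  have h4 : K0 * Bz * al ≤ Kc * al := mul_le_mul_of_nonneg_right hKc hal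
  have h5 : K0 * Bz * DQ ≤ Kc * SD :=
    mul_le_mul hKc hDQ hDQ0 (le_trans (by positivity) hKc)
  have h6 : K0 * Bz * al + K0 * Bz * DQ + δ / cn * aP + CB * K0 * DP ≤
      Kc * al + δ / cn * Sa + (Kc + CB * K0) * SD := by
    rw [add_mul Kc]
    linarith
  calc I ≤ v * (K0 * Bz * al + K0 * Bz * DQ + δ / cn * aP + CB * K0 * DP) := by
        have e2 : v * (K0 * Bz * al + K0 * Bz * DQ + δ / cn * aP + CB * K0 * DP) =
          v * K0 * (Bz * (al + DQ)) + v * (δ / cn * aP) + CB * (v * K0) * DP := by ring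
        rw [e2]
        linarith
    _ ≤ _ := mul_le_mul_of_nonneg_left h6 hv

lemma ar_av {v K0 al cn δ aP CB DP Kc Sa SD I : ℝ} (hv : 0 ≤ v) (hK0 : 1 ≤ K0)
    (hal : 0 ≤ al) (hDP : DP ≤ SD) (hDP0 : 0 ≤ DP)
    (hcn : 0 < cn) (hδ : 0 < δ) (ha : aP ≤ Sa) (ha0 : 0 ≤ aP) (hCB : 0 ≤ CB) (hKc : 0 ≤ Kc)
    (h : I ≤ δ / (cn * K0) * aP * v + CB * v * DP) :
    I ≤ v * (Kc * al + δ / cn * Sa + (Kc + CB * K0) * SD) := by
  have hK : 0 < K0 := by linarith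
  have hSD : 0 ≤ SD := hDP0.trans hDP
  have e1 : δ / (cn * K0) ≤ δ / cn :=
    div_le_div_of_nonneg_left hδ.le hcn (by nlinarith)
  have h2 : δ / (cn * K0) * aP ≤ δ / cn * Sa := mul_le_mul e1 ha ha0 (by positivity)
  have h3 : CB * DP ≤ CB * K0 * SD := by
    refine mul_le_mul ?_ hDP hDP0 (by positivity)
    nlinarith
  have h4 : 0 ≤ Kc * al := by positivity
  have h5 : 0 ≤ Kc * SD := by positivity
  have h6 : δ / (cn * K0) * aP + CB * DP ≤ Kc * al + δ / cn * Sa + (Kc + CB * K0) * SD := by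
    rw [add_mul Kc]
    linarith
  calc I ≤ v * (δ / (cn * K0) * aP + CB * DP) := by
        have e2 : v * (δ / (cn * K0) * aP + CB * DP) =
          δ / (cn * K0) * aP * v + CB * v * DP := by ring
        rw [e2]
        exact h
    _ ≤ _ := mul_le_mul_of_nonneg_left h6 hv

lemma ar_pr {v K' al DQ r Kc K1 SD I : ℝ} (hv : 0 ≤ v) (hK' : 0 ≤ K') (hK : K' ≤ Kc)
    (hK1 : K' ≤ K1) (hal : 0 ≤ al) (hDQ0 : 0 ≤ DQ) (hDQ : DQ ≤ SD) (hr : 0 ≤ r)
    (h : I ≤ v * K' * (al + DQ)) : I ≤ v * (Kc * al + r + K1 * SD) := by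
  have h1 : K' * al ≤ Kc * al := mul_le_mul_of_nonneg_right hK hal
  have h2 : K' * DQ ≤ K1 * SD := mul_le_mul hK1 hDQ hDQ0 (hK'.trans hK1)
  refine h.trans ?_
  rw [mul_assoc]
  exact mul_le_mul_of_nonneg_left (by linarith) hv

lemma ar3 {T A1 A2 A3 : ℝ} (b1 : |A1| ≤ T) (b2 : |A2| ≤ T) (b3 : |A3| ≤ T) :
    |A1 - A2 - A3| ≤ 3 * T := by
  rw [abs_le] at b1 b2 b3 ⊢
  constructor <;> linarith [b1.1, b1.2, b2.1, b2.2, b3.1, b3.2]

end W5m

open CS2 W5m in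
/-- MODULE W5 -/
theorem stmtW5 (hWA : StmtWA) (hB1 : StmtB1) (hNS : StmtNS) : StmtW5 := by
  intro d J JA hd M c0 C' c R0 X0 hX
  have hC' := hX.C'_pos
  have hε0 := hX.prm.ε_pos
  have hε : X0.ε ≤ 1 := by linarith [hX.prm.ε_le]
  have hA1 := hX.prm.A_ge
  have hA : 0 < X0.A := by linarith
  have hR0 := hX.R0_ge
  have hd1 : 1 ≤ d := by omega
  have hd0 : (2 : ℝ) ≤ d := by exact_mod_cast hd
  have hR0d : (d : ℝ) + 10 ≤ R0 := by linarith
  have hbase : BaseKer 2 M c0 X0.b := PTm.base_mono (by omega) hX.prm.ker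
  -- test functions
  obtain ⟨KH, hKH, tH⟩ := tfn_at hd hC' (bdH (M := M) (p0 := X0.p0) hd hC' hε0 hε hA 2)
    (fun i y hy => evH hd _ hy)
  obtain ⟨KG, hKG, tG⟩ := tfn_at hd hC' (bdG (M := M) hd hC' hε0 hε hA 2)
    (fun i y hy => evH hd _ hy)
  obtain ⟨KV, hKV, tV⟩ := tfn_at hd hC' (bdV (M := M) (p0 := X0.p0) hd hC' hε0 hε hA 2)
    (fun i y hy => evV hd _ _ _ _ _ _ hy)
  obtain ⟨KA, hKA, tA⟩ := tfn_at hd hC' (bdA (M := M) (p0 := X0.p0) hd hC' hε0 hε hA 2)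
    (fun i y hy => evA hd _ _ _ _ _ _ _ hy)
  obtain ⟨KS, hKS, tS⟩ := tfn_at hd hC' (bdS (M := M) (p0 := X0.p0) hd hC' hε0 hε hA 2)
    (fun i y hy => evS hd (fun y => chi (y - i.2) * Ups X0.p0 X0.A i.1.μ 1 y) _ hy)
  -- all orders
  obtain ⟨BG, hBG, oG⟩ := ord_at hd hC' (fun N => bdG (M := M) hd hC' hε0 hε hA N)
    (fun i y hy => evH hd _ hy)
  obtain ⟨BS, hBS, oS⟩ := ord_at hd hC'
    (fun N => bdS (M := M) (p0 := X0.p0) hd hC' hε0 hε hA N)
    (fun i y hy => evS hd (fun y => chi (y - i.2) * Ups X0.p0 X0.A i.1.μ 1 y) _ hy)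
  have oHe := fun a c : Fin d => ord_at hd hC'
    (fun N => bdHH (M := M) (p0 := X0.p0) hd hC' hε0 hε hA N a c)
    (fun i y hy => evH hd _ hy)
  choose BH hBH oH using oHe
  have oYe := fun a c : Fin d => ord_at hd hC'
    (fun N => bdY (M := M) (p0 := X0.p0) hd hC' hε0 hε hA N a c)
    (fun i y hy => evY hd (fun y => chi (y - i.2) * Ups X0.p0 X0.A i.1.μ 1 y) _ a c hy)
  choose BY hBY oY using oYe
  have oze : ∀ k : ℕ, ∃ C : ℝ, 0 < C ∧ TFn k C (zR (d : ℝ) : Sp d → ℝ) := fun k => by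
    obtain ⟨C, hC, h⟩ := exists_TFn_zR d k
    exact ⟨C, hC, h d (by linarith)⟩
  choose Bz hBz oz using oze
  obtain ⟨SH, hSH⟩ : ∃ S : ℕ → ℝ, ∀ k, S k = ∑ a, ∑ c, BH a c k := ⟨_, fun _ => rfl⟩
  obtain ⟨SY, hSY⟩ : ∃ S : ℕ → ℝ, ∀ k, S k = ∑ a, ∑ c, BY a c k := ⟨_, fun _ => rfl⟩
  have hSH0 : ∀ k, 0 ≤ SH k := fun k => by
    rw [hSH]
    exact Finset.sum_nonneg fun a _ => Finset.sum_nonneg fun c _ => hBH a c k
  have hSY0 : ∀ k, 0 ≤ SY k := fun k => by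
    rw [hSY]
    exact Finset.sum_nonneg fun a _ => Finset.sum_nonneg fun c _ => hBY a c k
  obtain ⟨K0, hK0⟩ : ∃ x : ℝ, x = SH 0 + SY 0 + 1 := ⟨_, rfl⟩
  have hK01 : 1 ≤ K0 := by linarith only [hSH0 0, hSY0 0, hK0]
  have hK0p : 0 < K0 := by linarith only [hK01]
  obtain ⟨Bt, hBt⟩ : ∃ S : ℕ → ℝ, ∀ k, S k = SH k + SY k + BG k + BS k + Bz k :=
    ⟨_, fun _ => rfl⟩
  have bt1 : ∀ k, SH k ≤ Bt k := fun k => by
    linarith only [hSY0 k, hBG k, hBS k, hBz k, hBt k]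
  have bt2 : ∀ k, SY k ≤ Bt k := fun k => by
    linarith only [hSH0 k, hBG k, hBS k, hBz k, hBt k]
  have bt3 : ∀ k, BG k ≤ Bt k := fun k => by
    linarith only [hSH0 k, hSY0 k, hBS k, hBz k, hBt k]
  have bt4 : ∀ k, BS k ≤ Bt k := fun k => by
    linarith only [hSH0 k, hSY0 k, hBG k, hBz k, hBt k]
  have bt5 : ∀ k, Bz k ≤ Bt k := fun k => by
    linarith only [hSH0 k, hSY0 k, hBG k, hBS k, hBt k]
  have bt0 : ∀ k, 0 ≤ Bt k := fun k => (hSH0 k).trans (bt1 k)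
  have hzb : ∀ k (y : Sp d), ‖iteratedFDeriv ℝ k (zR (d : ℝ) : Sp d → ℝ) y‖ ≤ Bt k :=
    fun k y => ((oz k).bd k le_rfl y).trans (bt5 k)
  obtain ⟨K7, hK7, t7⟩ := hgt_tfn hd (64 * R0 + 4)
  obtain ⟨κ, Ca, hκ, hCa, hab⟩ := ab_le hd J hR0d
  obtain ⟨Cg, hCg, hgain⟩ := gain_le hWA hd (M := M) hC' hε0 hε
  have hz2 := hBz 2
  have hCC : 0 ≤ Cg * Ca := mul_nonneg hCg.le hCa.le
  have hKB : 0 ≤ K0 * Bz 2 := mul_nonneg hK0p.le hz2.le
  obtain ⟨Kc, hKc⟩ : ∃ x : ℝ, x = KH + KG + KV + KA + KS + K0 * Bz 2 + K7 + Cg * Ca := ⟨_, rfl⟩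
  have hKc0 : 0 < Kc := by linarith only [hKc, hKH, hKG, hKV, hKA, hKS, hKB, hK7, hCC]
  have kH : KH ≤ Kc := by linarith only [hKc, hKH, hKG, hKV, hKA, hKS, hKB, hK7, hCC]
  have kG : KG ≤ Kc := by linarith only [hKc, hKH, hKG, hKV, hKA, hKS, hKB, hK7, hCC]
  have kV : KV ≤ Kc := by linarith only [hKc, hKH, hKG, hKV, hKA, hKS, hKB, hK7, hCC]
  have kA : KA ≤ Kc := by linarith only [hKc, hKH, hKG, hKV, hKA, hKS, hKB, hK7, hCC]
  have kS : KS ≤ Kc := by linarith only [hKc, hKH, hKG, hKV, hKA, hKS, hKB, hK7, hCC]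
  have kB : K0 * Bz 2 ≤ Kc := by linarith only [hKc, hKH, hKG, hKV, hKA, hKS, hKB, hK7, hCC]
  have k7 : K7 ≤ Kc := by linarith only [hKc, hKH, hKG, hKV, hKA, hKS, hKB, hK7, hCC]
  have kC : Cg * Ca ≤ Kc := by linarith only [hKc, hKH, hKG, hKV, hKA, hKS, hKB, hK7, hCC]
  obtain ⟨cn, hcn⟩ : ∃ x : ℝ, x = 5 + 6 * 3 ^ d := ⟨_, rfl⟩
  have hcn0 : 0 < cn := by
    rw [hcn]
    positivity
  refine ⟨κ, cn * Kc, hκ, by positivity, ?_⟩
  intro K γ δ hK hγ hγ' hδ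
  obtain ⟨RN0, hRN0, hB⟩ := hB1 d hd M c0 K γ (2 * d + 1) (δ / (cn * K0)) Bt X0.b hbase hK hγ
    hγ' (by linarith) (by positivity)
  refine ⟨RN0, hRN0, fun RN hRN => ?_⟩
  obtain ⟨tol, htol, hB⟩ := hB RN hRN
  refine ⟨RN + (2 * d + 1) + 3, RN + (2 * d + 1) + 4, tol, htol, by linarith, fun R1 rm => ?_⟩
  obtain ⟨CB, hCB, hB⟩ := hB R1 rm
  have hCK : 0 ≤ CB * K0 := mul_nonneg hCB.le hK0p.le
  obtain ⟨K1, hK1⟩ : ∃ x : ℝ, x = Kc + CB * K0 := ⟨_, rfl⟩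
  have hK1c : Kc ≤ K1 := by linarith only [hK1, hCK]
  have hK10 : 0 < K1 := lt_of_lt_of_le hKc0 hK1c
  refine ⟨cn * K1, max R1 (64 * R0 + 10), by positivity, ?_⟩
  intro E _ _ _ W hW Q hN hsh hnw al hal hAl
  have hXe := hW.X_eq
  have hs := hW.s0_pos
  have ebb : W.X.b = X0.b := by rw [hXe]
  have eRN : W.X.RN = RN := by rw [hXe]
  have eε : W.X.ε = X0.ε := by rw [hXe]
  have ep0 : W.X.p0 = X0.p0 := by rw [hXe]
  have eA : W.X.A = X0.A := by rw [hXe]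
  have hRNp : 0 < RN := by linarith
  have ht := CS2.lev_pos hs Q.1
  have hSC := (stmtSC d hd C' hC' (xC W.s0 Q) (lev W.s0 Q.1) ht).1 W.μ hW.gro
  have hμQ : Gro C' (muQ W.s0 W.μ Q) := hSC.1
  have hvv : vv (muQ W.s0 W.μ Q) 1 0 = W.v Q := by
    have h1 := hSC.2.2.1 1 0 one_pos
    unfold muQ Wld.v omC
    rw [h1, mul_one, smul_zero, add_zero]
  have hβ : Kit 4 M (bQ X0.b Q) := PTm.kit_mono (by omega) (hX.prm.ker.kit (Q.1 - 2))
  have hv0 : 0 ≤ W.v Q := Real.sqrt_nonneg _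
  have hw0 : 0 ≤ W.w Q := by
    unfold Wld.w cw
    positivity
  let ix : ∀ n : Sp d, ‖n‖ = 1 → Sp d → Ix d M C' := fun n hn p =>
    (⟨bQ X0.b Q, muQ W.s0 W.μ Q, n, hβ, hμQ, hn⟩, p)
  -- sums
  obtain ⟨Sa, hSa⟩ : ∃ x : ℝ, x = ∑ P ∈ (adj Q).filter (fun P => W.kd P = 1), W.a P := ⟨_, rfl⟩
  obtain ⟨SD, hSD⟩ : ∃ x : ℝ, x = ∑ P ∈ adj Q, W.D P := ⟨_, rfl⟩
  rw [← hSa, ← hSD]
  have hSa0 : 0 ≤ Sa := by
    rw [hSa]
    refine Finset.sum_nonneg fun P hP => ?_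
    rw [Finset.mem_filter] at hP
    exact (hnw P hP.1 hP.2).a0
  have hSD0 : 0 ≤ SD := by
    rw [hSD]
    exact Finset.sum_nonneg fun P _ => hW.D0 P
  have hDle : ∀ P ∈ adj Q, W.D P ≤ SD := fun P hP => by
    rw [hSD]
    exact Finset.single_le_sum (f := fun P => W.D P) (fun P _ => hW.D0 P) hP
  have hale : ∀ P ∈ adj Q, W.kd P = 1 → W.a P ≤ Sa := fun P hP hk => by
    rw [hSa]
    exact Finset.single_le_sum (f := fun P => W.a P) (fun P hP => by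
      rw [Finset.mem_filter] at hP
      exact (hnw P hP.1 hP.2).a0) (Finset.mem_filter.2 ⟨hP, hk⟩)
  have hQQ := self_adj Q
  have hDQ := hDle Q hQQ
  have hDQ0 := hW.D0 Q
  have hrr : 0 ≤ δ / cn * Sa := mul_nonneg (div_nonneg hδ.le hcn0.le) hSa0
  obtain ⟨T, hT⟩ : ∃ x : ℝ, x = W.v Q * (Kc * al + δ / cn * Sa + K1 * SD) := ⟨_, rfl⟩
  have hT0 : 0 ≤ T := by
    rw [hT]
    exact mul_nonneg hv0 (add_nonneg (add_nonneg (mul_nonneg hKc0.le hal) hrr)
      (mul_nonneg hK10.le hSD0))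
  have hT3 : T ≤ 3 * T := by linarith only [hT0]
  -- neighbours
  obtain ⟨-, -, -, -, -, hns6, -, hns8⟩ := hNS d hd1 W.s0 (3 * R0) hs (by linarith) JA Q
  have hnsub : ∀ P ∈ adj Q, P ∈ W.ns R0 JA Q := fun P hP =>
    hns8 ((sqrt_le_self hd1).trans (by linarith)) hP
  have htw : ∀ P ∈ adj Q, ‖tw W.s0 Q P‖ ≤ d := fun P hP => (hns6 P hP).trans (sqrt_le_self hd1)
  have hmc : ∀ (e : E) (P : Cell d), Continuous (mQ W.s0 W.f e P) := fun e P =>
    FR.mQ_cont hW.fc W.s0 e P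
  -- pairings with test functions
  have pr : ∀ P ∈ adj Q, ∀ (ζ : Sp d → ℝ) (N : ℝ), TFn 2 N ζ →
      (∀ y, (d : ℝ) + 1 ≤ ‖y‖ → ζ y = 0) →
      |∫ y, mQ W.s0 W.f (W.e P) Q y * ζ y| ≤ N * (al + W.D Q) := by
    intro P hP ζ N hζ h0
    have h1 := hAl ζ N hζ (fun y hy => h0 y (by linarith))
    have h2 := hW.dir Q P (hnsub P hP) ζ N hζ (fun y hy => h0 y (by
      have := le_max_right R1 (64 * R0 + 10)
      linarith))
    have i1 : Integrable (fun y => mQ W.s0 W.f (W.e P) Q y * ζ y) :=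
      int_m (hmc _ _) hζ.smooth.continuous h0
    have i2 : Integrable (fun y => mQ W.s0 W.f (W.e Q) Q y * ζ y) :=
      int_m (hmc _ _) hζ.smooth.continuous h0
    have e1 : ∫ y, (mQ W.s0 W.f (W.e P) Q y - mQ W.s0 W.f (W.e Q) Q y) * ζ y =
        (∫ y, mQ W.s0 W.f (W.e P) Q y * ζ y) - ∫ y, mQ W.s0 W.f (W.e Q) Q y * ζ y := by
      rw [← integral_sub i1 i2]
      refine integral_congr_ae (Eventually.of_forall fun y => ?_)
      simp only
      ring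
    rw [e1] at h2
    have e2 : ∫ y, W.m Q y * ζ y = ∫ y, mQ W.s0 W.f (W.e Q) Q y * ζ y := rfl
    rw [e2] at h1
    rw [abs_le] at h1 h2 ⊢
    constructor <;> linarith [h1.1, h1.2, h2.1, h2.2]
  have prT : ∀ P ∈ adj Q, ∀ (ζ : Sp d → ℝ) (K' : ℝ), 0 ≤ K' → K' ≤ Kc →
      TFn 2 (W.v Q * K') ζ → (∀ y, (d : ℝ) ≤ ‖y‖ → ζ y = 0) →
      |∫ y, mQ W.s0 W.f (W.e P) Q y * ζ y| ≤ T := by
    intro P hP ζ K' hK'0 hK' hζ h0
    have h1 := pr P hP ζ _ hζ fun y hy => h0 y (by linarith only [hy])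
    rw [hT]
    exact ar_pr hv0 hK'0 hK' (hK'.trans hK1c) hal hDQ0 hDQ hrr h1
  -- Newton pieces
  have nwt : ∀ P ∈ adj Q, W.kd P = 1 →
      (∀ Y : Fin d → Fin d → Sp d → ℝ, (∀ i j, ContDiff ℝ ∞ (Y i j)) →
        (∀ i j k y, ‖iteratedFDeriv ℝ k (Y i j) y‖ ≤ W.v Q * Bt k) →
        (∀ i j (y : Sp d), (d : ℝ) ≤ ‖y‖ → Y i j y = 0) →
        (∀ n : Sp d, ‖n‖ = 1 → ∀ y, |qf Y n y| ≤ W.v Q * K0) →
        |∫ y, mQ W.s0 W.f (W.e P) Q y * nt X0.b RN Y y| ≤ T) ∧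
      (∀ φ : Sp d → ℝ, ContDiff ℝ ∞ φ → (∀ k y, ‖iteratedFDeriv ℝ k φ y‖ ≤ W.v Q * Bt k) →
        (∀ y : Sp d, (d : ℝ) ≤ ‖y‖ → φ y = 0) →
        |∫ y, mQ W.s0 W.f (W.e P) Q y * avk X0.b RN φ y| ≤ T) := by
    intro P hP hk
    obtain ⟨ha0, ⟨Jp, r, ν, κ', hstr⟩, hmg⟩ := hnw P hP hk
    obtain ⟨-, h2, h3⟩ := hB (W.m P) (W.a P) (W.D P) Jp r ν κ' (hmc _ _) ha0 (hW.D0 P)
      (zp_mono (hW.zp P) (le_max_left _ _)) hstr hmg
    have h2' : Cl2 X0.b RN (2 * d + 1) (δ / (cn * K0)) CB Bt (W.m P) (W.a P) (W.D P) := h2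
    have h3' : Cl3 X0.b RN (2 * d + 1) (δ / (cn * K0)) CB Bt (W.m P) (W.a P) (W.D P) := h3
    have hPl := adj_level hP
    have hDP := hDle P hP
    have hDP0 := hW.D0 P
    have haP := hale P hP hk
    constructor
    · intro Y hY hYb hY0 hq
      have hN0 : 0 ≤ W.v Q * K0 := mul_nonneg hv0 hK0p.le
      have h4 := nt_bound h2' (htw P hP) hd1 hzb hN0 hY (fun i j k y => by
        refine (hYb i j k y).trans (mul_le_mul_of_nonneg_right ?_ (bt0 k))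
        exact le_mul_of_one_le_right hv0 hK01) hY0 hq
      have h5 := pr P hP (zR (d : ℝ)) (Bz 2) (oz 2) (fun y hy => zR_eq_zero hy)
      rw [pair_frame hs W.f (W.e P) Q P hPl] at h5 ⊢
      rw [hT, hK1]
      exact ar_nt hv0 hK01 hz2.le hal hDQ0 hDQ hDP hcn0 hδ haP hCB.le kB
        ((le_abs_self _).trans h5) h4
    · intro φ hφ hb h0
      have h4 := av_bound h3' (htw P hP) hv0 hφ hb h0
      rw [pair_frame hs W.f (W.e P) Q P hPl, hT, hK1]
      exact ar_av hv0 hK01 hal hDP hDP0 hcn0 hδ haP ha0 hCB.le hKc0.le h4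
  -- the flux
  have hflx : ∀ P ∈ adj Q, ∀ p : Sp d,
      |flx W.X (W.kd P) chi (fun x => chi (x - p)) (bQ W.X.b Q) (muQ W.s0 W.μ Q)
        (mQ W.s0 W.f (W.e P) Q) (W.nv P)| ≤ 3 * T := by
    intro P hP p
    unfold flx
    rw [ebb, eRN, eε, ep0, eA]
    split_ifs with h0 h1
    · have h2 := tA (ix (W.nv P) (hW.nu P) p)
      have e1 : vv (ix (W.nv P) (hW.nu P) p).1.μ 1 0 = W.v Q := hvv
      rw [e1] at h2
      have h3 := prT P hP _ KA hKA kA h2 (fun y hy =>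
        (evA hd _ _ _ _ _ _ _ hy).eq_of_nhds)
      exact h3.trans hT3
    · have e1 : vv (ix (W.nv P) (hW.nu P) p).1.μ 1 0 = W.v Q := hvv
      have h2 := tS (ix (W.nv P) (hW.nu P) p)
      rw [e1] at h2
      have h3 := prT P hP _ KS hKS kS h2 (fun y hy =>
        (evS hd (fun y => chi (y - p) * Ups X0.p0 X0.A (muQ W.s0 W.μ Q) 1 y) _ hy).eq_of_nhds)
      have sS : ContDiff ℝ ∞ (fun y => chi (y - p) * Ups X0.p0 X0.A (muQ W.s0 W.μ Q) 1 y *
          ⟪gradient (fun x : Sp d => chi x) y,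
            gradient (WW (bQ X0.b Q) X0.ε (muQ W.s0 W.μ Q) 1) y⟫_ℝ) :=
        contDiffOn_univ.1 ((bdS (M := M) (p0 := X0.p0) hd hC' hε0 hε hA 0).smooth
          (ix (W.nv P) (hW.nu P) p))
      have sY : ∀ a c : Fin d, ContDiff ℝ ∞ (fun x => chi (x - p) *
          Ups X0.p0 X0.A (muQ W.s0 W.μ Q) 1 x * (1 / 2 *
          (fderiv ℝ chi x (bv a) * fderiv ℝ (WW (bQ X0.b Q) X0.ε (muQ W.s0 W.μ Q) 1) x (bv c)
          + fderiv ℝ chi x (bv c) *
            fderiv ℝ (WW (bQ X0.b Q) X0.ε (muQ W.s0 W.μ Q) 1) x (bv a)))) := fun a c =>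
        contDiffOn_univ.1 ((bdY (M := M) (p0 := X0.p0) hd hC' hε0 hε hA 0 a c).smooth
          (ix (W.nv P) (hW.nu P) p))
      obtain ⟨n1, n2⟩ := nwt P hP h1
      have h4 := n2 _ sS (fun k y => by
        have h5 := oS (ix (W.nv P) (hW.nu P) p) k y
        rw [e1] at h5
        exact h5.trans (mul_le_mul_of_nonneg_left (bt4 k) hv0)) (fun y hy =>
        (evS hd (fun y => chi (y - p) * Ups X0.p0 X0.A (muQ W.s0 W.μ Q) 1 y) _ hy).eq_of_nhds)
      have hYB : ∀ a c k y, ‖iteratedFDeriv ℝ k (fun x => chi (x - p) *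
          Ups X0.p0 X0.A (muQ W.s0 W.μ Q) 1 x * (1 / 2 *
          (fderiv ℝ chi x (bv a) * fderiv ℝ (WW (bQ X0.b Q) X0.ε (muQ W.s0 W.μ Q) 1) x (bv c)
          + fderiv ℝ chi x (bv c) *
            fderiv ℝ (WW (bQ X0.b Q) X0.ε (muQ W.s0 W.μ Q) 1) x (bv a)))) y‖ ≤
          W.v Q * BY a c k := fun a c k y => by
        have h5 := oY a c (ix (W.nv P) (hW.nu P) p) k y
        rw [e1] at h5
        exact h5
      have h5 := n1 _ sY (fun a c k y => (hYB a c k y).trans (mul_le_mul_of_nonneg_left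
          (((le_sum2 (B := fun a c => BY a c k) (fun a c => hBY a c k) a c).trans
            (hSY k).ge).trans (bt2 k)) hv0))
        (fun a c y hy => (evY hd (fun y => chi (y - p) *
          Ups X0.p0 X0.A (muQ W.s0 W.μ Q) 1 y) _ a c hy).eq_of_nhds)
        (fun n hn y => by
          refine (qf_le hn (B := fun a c => W.v Q * BY a c 0) (fun a c => ?_)).trans ?_
          · have h6 := hYB a c 0 y
            rw [norm_iteratedFDeriv_zero, Real.norm_eq_abs] at h6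
            exact h6
          · have e2 : ∑ a, ∑ c, W.v Q * BY a c 0 = W.v Q * SY 0 := by
              simp only [hSY, Finset.mul_sum]
            rw [e2]
            exact mul_le_mul_of_nonneg_left (by linarith only [hSH0 0, hK0]) hv0)
      have e3 := int_split (m := mQ W.s0 W.f (W.e P) Q) (hmc _ _) (mQ_cs hW.fs hs _ _)
        sS.continuous (PTm.avk_cont (PTm.base_ker hbase) sS.continuous RN)
        (CS1m.nt_smooth hbase hRNp.le sY).continuous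
      unfold fxB
      have h7 := ar3 h3 h4 h5
      rw [← e3] at h7
      exact h7
    · rw [abs_zero]
      exact hT0.trans hT3
  have hT2 : T ≤ 2 * T := by linarith only [hT0]
  -- the divergence
  have hVct : |Vct W.X W.s0 W.μ W.f W.e W.kd W.nv Q| ≤ T := by
    unfold Vct
    rw [ebb, eε, ep0, eA]
    split_ifs with h0
    · have h2 := tV (ix (W.nv Q) (hW.nu Q) 0)
      have e1 : vv (ix (W.nv Q) (hW.nu Q) 0).1.μ 1 0 = W.v Q := hvv
      rw [e1] at h2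
      exact prT Q hQQ _ KV hKV kV h2 (fun y hy => (evV hd _ _ _ _ _ _ hy).eq_of_nhds)
    · rw [abs_zero]
      exact hT0
  -- the main contribution
  have hGam : |Gam W.X W.s0 W.μ W.f W.e W.kd W.nv Q| ≤ 2 * T := by
    unfold Gam
    rw [ebb, eRN, eε, ep0, eA]
    have e1 : vv (ix (W.nv Q) (hW.nu Q) 0).1.μ 1 0 = W.v Q := hvv
    split_ifs with h0 h1
    · have h2 := tH (ix (W.nv Q) (hW.nu Q) 0)
      rw [e1] at h2
      exact (prT Q hQQ _ KH hKH kH h2 (fun y hy => (evH hd _ hy).eq_of_nhds)).trans hT2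
    · obtain ⟨n1, n2⟩ := nwt Q hQQ h1
      have sH : ∀ a c : Fin d, ContDiff ℝ ∞ (fun x => chi x *
          HHm (bQ X0.b Q) X0.ε X0.p0 X0.A (muQ W.s0 W.μ Q) a c x) := fun a c =>
        contDiffOn_univ.1 ((bdHH (M := M) (p0 := X0.p0) hd hC' hε0 hε hA 0 a c).smooth
          (ix (W.nv Q) (hW.nu Q) 0))
      have sG : ContDiff ℝ ∞ (fun x => chi x * GG (bQ X0.b Q) X0.ε (muQ W.s0 W.μ Q) 1 x) :=
        contDiffOn_univ.1 ((bdG (M := M) hd hC' hε0 hε hA 0).smooth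
          (ix (W.nv Q) (hW.nu Q) 0))
      have hHB : ∀ a c k y, ‖iteratedFDeriv ℝ k (fun x => chi x *
          HHm (bQ X0.b Q) X0.ε X0.p0 X0.A (muQ W.s0 W.μ Q) a c x) y‖ ≤ W.v Q * BH a c k :=
        fun a c k y => by
          have h5 := oH a c (ix (W.nv Q) (hW.nu Q) 0) k y
          rw [e1] at h5
          exact h5
      have h4 := n1 _ sH (fun a c k y => (hHB a c k y).trans (mul_le_mul_of_nonneg_left
          (((le_sum2 (B := fun a c => BH a c k) (fun a c => hBH a c k) a c).trans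
            (hSH k).ge).trans (bt1 k)) hv0))
        (fun a c y hy => (evH hd _ hy).eq_of_nhds)
        (fun n hn y => by
          refine (qf_le hn (B := fun a c => W.v Q * BH a c 0) (fun a c => ?_)).trans ?_
          · have h6 := hHB a c 0 y
            rw [norm_iteratedFDeriv_zero, Real.norm_eq_abs] at h6
            exact h6
          · have e2 : ∑ a, ∑ c, W.v Q * BH a c 0 = W.v Q * SH 0 := by
              simp only [hSH, Finset.mul_sum]
            rw [e2]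
            exact mul_le_mul_of_nonneg_left (by linarith only [hSY0 0, hK0]) hv0)
      have h5 := n2 _ sG (fun k y => by
        have h5 := oG (ix (W.nv Q) (hW.nu Q) 0) k y
        rw [e1] at h5
        exact h5.trans (mul_le_mul_of_nonneg_left (bt3 k) hv0)) (fun y hy =>
        (evH hd _ hy).eq_of_nhds)
      exact (abs_add_le _ _).trans (by linarith only [h4, h5])
    · have h2 := tG (ix (W.nv Q) (hW.nu Q) 0)
      rw [e1] at h2
      exact (prT Q hQQ _ KG hKG kG h2 (fun y hy => (evH hd _ hy).eq_of_nhds)).trans hT2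
  -- the value
  have hval : W.val Q ≤ 2 * T := by
    unfold Wld.val
    split_ifs with h0 h1
    · have hS := hsh h0.2
      obtain ⟨hg1, hg2⟩ := hgain (bQ X0.b Q) hβ (muQ W.s0 W.μ Q) hμQ (W.nv Q) (W.sv Q) (hW.nu Q)
      rw [hvv] at hg1
      have hsg : W.sg Q ≤ T := by
        unfold Wld.sg Wld.be Wld.mu
        rw [ebb, eε]
        by_cases hd' : (d : ℝ) < |W.sv Q|
        · rw [hg2 hd', mul_zero]
          exact hT0
        · have h2 := hab (W.m Q) (W.nv Q) (W.sv Q) (W.ab Q) (W.er Q) (W.dl Q) (W.D Q) al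
            (hmc _ _) hDQ0 hal (zp_mono (hW.zp Q) (by
              have := le_max_right R1 (64 * R0 + 10)
              linarith only [this])) hS.sh hS.bl (not_lt.1 hd') hS.small hS.smalld hAl
          rw [hT]
          refine ar_pr hv0 hCC kC (kC.trans hK1c) hal hDQ0 hDQ hrr ?_
          refine (mul_le_mul_of_nonneg_left hg1 hS.sh.ab0.le).trans ?_
          refine (mul_le_mul_of_nonneg_right h2 (mul_nonneg hCg.le hv0)).trans (le_of_eq ?_)
          ring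
      have hbl : max 0 (W.bl Q) ≤ T := by
        refine max_le hT0 ?_
        have h2 := hAl _ K7 (t7 (W.nv Q) (W.sv Q) (hW.nu Q) hS.loc) (fun y hy => by
          rw [PTm.chi_supp (by linarith only [hy]) hd1, zero_mul])
        rw [hT]
        refine ar_pr (DQ := 0) hv0 hK7.le k7 (k7.trans hK1c) hal le_rfl hSD0 hrr ?_
        unfold Wld.bl
        rw [add_zero, mul_assoc]
        exact mul_le_mul_of_nonneg_left ((le_abs_self _).trans h2) hv0
      linarith only [hsg, hbl]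
    · exact hT0.trans hT2
    · exact max_le (hT0.trans hT2) ((le_abs_self _).trans hGam)
  -- the fluxes
  have hF : ∀ P ∈ adj Q, |Fct W.X W.s0 W.μ W.f W.e W.kd W.nv Q P| ≤ 6 * T := by
    intro P hP
    unfold Fct
    have h1 := hflx Q hQQ (dsp Q P)
    have h2 := hflx P hP (dsp Q P)
    exact (abs_sub _ _).trans (by linarith only [h1, h2])
  have hsum : |∑ P ∈ adj Q, Fct W.X W.s0 W.μ W.f W.e W.kd W.nv Q P| ≤ 3 ^ d * (6 * T) := by
    refine (Finset.abs_sum_le_sum_abs _ _).trans ((Finset.sum_le_sum hF).trans (le_of_eq ?_))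
    rw [Finset.sum_const, nsmul_eq_mul, CS2.adj_card]
  have hfin : W.val Q ≤ (Gam W.X W.s0 W.μ W.f W.e W.kd W.nv Q +
      Vct W.X W.s0 W.μ W.f W.e W.kd W.nv Q -
      ∑ P ∈ adj Q, Fct W.X W.s0 W.μ W.f W.e W.kd W.nv Q P) + cn * T := by
    rw [hcn]
    have h1 := neg_le_of_abs_le hGam
    have h2 := neg_le_of_abs_le hVct
    have h3 := le_of_abs_le hsum
    linarith only [h1, h2, h3, hval]
  have hTe : cn * T = W.v Q * (cn * Kc * al + δ * Sa + cn * K1 * SD) := by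
    rw [hT]
    field_simp
  have h9 := mul_le_mul_of_nonneg_left hfin hw0
  rw [hTe] at h9
  refine h9.trans (le_of_eq ?_)
  have e9 : W.nt1 Q = W.w Q * (Gam W.X W.s0 W.μ W.f W.e W.kd W.nv Q +
      Vct W.X W.s0 W.μ W.f W.e W.kd W.nv Q -
      ∑ P ∈ adj Q, Fct W.X W.s0 W.μ W.f W.e W.kd W.nv Q P) := rfl
  rw [e9]
  ring

end

end TG
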