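import Pool.Agent.TG.Stmts13
import Pool.Agent.TG.CS1
import Pool.Agent.TG.CS2
import Pool.Agent.TG.WT
import Pool.Agent.TG.TF
import Pool.Agent.TG.Tf

/-!
# MODULE W5, first part: the test functions and their bounds   (helper41)
-/

open MeasureTheory Metric Set TrI Filter
open scoped InnerProductSpace ContDiff Topology

set_option linter.unusedSectionVars false

namespace TG

noncomputable section

namespace W5m

open CS2

variable {d : ℕ}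

section fam

variable {M C' : ℝ}

/-- bounds by v(0), for families which vanish off the ball d -/
lemma bd_at (hd : 2 ≤ d) (hC' : 0 < C') {N : ℕ} {f : Ix d M C' → Sp d → ℝ}
    (h : BdN N univ wI f) (h0 : ∀ i y, (d : ℝ) ≤ ‖y‖ → f i =ᶠ[𝓝 y] fun _ => 0) :
    ∃ C : ℝ, 0 ≤ C ∧ ∀ i, ∀ j ≤ N, ∀ y, ‖iteratedFDeriv ℝ j (f i) y‖ ≤ vv i.1.μ 1 0 * C := by
  obtain ⟨C, hC, h1⟩ := h.bd
  refine ⟨C * (1 + d) ^ d, by positivity, fun i j hj y => ?_⟩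
  have hv0 : 0 ≤ vv i.1.μ 1 0 := Real.sqrt_nonneg _
  by_cases hy : (d : ℝ) ≤ ‖y‖
  · rw [TDc.iter_zero (h0 i y hy) j, norm_zero]
    positivity
  · push Not at hy
    have h2 := h1 i y (mem_univ _) j hj
    have h3 := vv_grow hd hC' i.1.hμ y
    have h4 : (1 + ‖y‖) ^ d ≤ (1 + (d : ℝ)) ^ d := by gcongr
    calc _ ≤ C * vv i.1.μ 1 y := h2
      _ ≤ C * ((1 + (d : ℝ)) ^ d * vv i.1.μ 1 0) := by
          refine mul_le_mul_of_nonneg_left (h3.trans ?_) hC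
          exact mul_le_mul_of_nonneg_right h4 hv0
      _ = _ := by ring

/-- test functions of order N -/
lemma tfn_at (hd : 2 ≤ d) (hC' : 0 < C') {N : ℕ} {f : Ix d M C' → Sp d → ℝ}
    (h : BdN N univ wI f) (h0 : ∀ i y, (d : ℝ) ≤ ‖y‖ → f i =ᶠ[𝓝 y] fun _ => 0) :
    ∃ C : ℝ, 0 ≤ C ∧ ∀ i, TFn N (vv i.1.μ 1 0 * C) (f i) := by
  obtain ⟨C, hC, h1⟩ := bd_at hd hC' h h0
  exact ⟨C, hC, fun i => ⟨(contDiffOn_univ.1 (h.smooth i)).of_le (by exact_mod_cast le_top),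
    fun j hj y => h1 i j hj y⟩⟩

/-- bounds of all orders -/
lemma ord_at (hd : 2 ≤ d) (hC' : 0 < C') {f : Ix d M C' → Sp d → ℝ}
    (h : ∀ N, BdN N univ wI f) (h0 : ∀ i y, (d : ℝ) ≤ ‖y‖ → f i =ᶠ[𝓝 y] fun _ => 0) :
    ∃ B : ℕ → ℝ, (∀ k, 0 ≤ B k) ∧ ∀ i k y, ‖iteratedFDeriv ℝ k (f i) y‖ ≤
      vv i.1.μ 1 0 * B k := by
  have h1 : ∀ k : ℕ, ∃ C : ℝ, 0 ≤ C ∧ ∀ i, ∀ j ≤ k, ∀ y, ‖iteratedFDeriv ℝ j (f i) y‖ ≤
      vv i.1.μ 1 0 * C := fun k => bd_at hd hC' (h k) h0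
  choose B hB h2 using h1
  exact ⟨B, hB, fun i k y => h2 k i k le_rfl y⟩

variable (hd : 2 ≤ d) (hC' : 0 < C') {ε p0 A : ℝ} (hε0 : 0 < ε) (hε : ε ≤ 1) (hA : 0 < A)

include hd hC' hε0 hε hA

/-! ### sheets -/

lemma bdH (N : ℕ) : BdN N univ wI
    (fun (i : Ix d M C') y => chi y * Hn i.1.β ε p0 A i.1.μ i.1.n 1 y) :=
  mul1 (chi_bd N (by omega)) (H_bd hd hC' hε0 hε hA N)

lemma bdG (N : ℕ) : BdN N univ wI
    (fun (i : Ix d M C') y => chi y * GG i.1.β ε i.1.μ 1 y) :=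
  mul1 (chi_bd N (by omega)) (G_bd hd hC' hε0 hε hA N)

lemma bdV (N : ℕ) : BdN N univ wI
    (fun (i : Ix d M C') => dvT chi i.1.β ε p0 A i.1.μ i.1.n) := by
  have hw : ∀ (i : Ix d M C') (y : Sp d), 0 ≤ wI i y := fun i y => Real.sqrt_nonneg _
  have bW := W_bd (M := M) hd hC' hε0 hε hA (N + 1 + 1)
  have bU := U_bd (M := M) (p0 := p0) hd hC' hε0 hε hA (N + 1)
  have bn : BdN (N + 1) univ wI
      (fun (i : Ix d M C') y => fderiv ℝ (WW i.1.β ε i.1.μ 1) y i.1.n) :=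
    UB.clm1 bW (e := fun i => i.1.n) (fun i => i.1.hn.le)
  have hnj : ∀ (i : Ix d M C') (j : Fin d), ‖i.1.n j‖ ≤ 1 := fun i j => by
    have h1 := EuclideanSpace.norm_sq_eq i.1.n
    have h2 : ‖i.1.n j‖ ^ 2 ≤ ‖i.1.n‖ ^ 2 := by
      rw [h1]
      exact Finset.single_le_sum (f := fun j => ‖i.1.n j‖ ^ 2) (fun _ _ => sq_nonneg _)
        (Finset.mem_univ j)
    rw [i.1.hn] at h2
    exact abs_le_of_sq_le_sq' (a := ‖i.1.n j‖) (b := 1) (by simpa using h2) zero_le_one |>.2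
  have bT : ∀ j : Fin d, BdN (N + 1) univ wI (fun (i : Ix d M C') y =>
      (tang i.1.n (gradient (WW i.1.β ε i.1.μ 1) y)) j) := by
    intro j
    refine ((d1_bd bW j).sub isOpen_univ (bn.const_mul isOpen_univ (fun i => i.1.n j) (B := 1)
      (fun i => hnj i j))).congr isOpen_univ (fun i y _ => ?_)
    unfold tang
    have e1 : (gradient (WW i.1.β ε i.1.μ 1) y) j = fderiv ℝ (WW i.1.β ε i.1.μ 1) y (bv j) := by
      rw [← UB.inner_gradient']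
      unfold bv
      rw [EuclideanSpace.inner_single_right]
      simp
    have e2 : ⟪i.1.n, gradient (WW i.1.β ε i.1.μ 1) y⟫_ℝ =
        fderiv ℝ (WW i.1.β ε i.1.μ 1) y i.1.n := by
      rw [real_inner_comm, UB.inner_gradient']
    rw [e2, PiLp.sub_apply, PiLp.smul_apply, e1, smul_eq_mul, mul_comm]
  refine (BdN.sum isOpen_univ (Finset.univ : Finset (Fin d)) (fun i y _ => hw i y)
    (fun j _ => d1_bd (mul1 (mul1 (chi_bd (N + 1) (by omega)) bU) (bT j)) j)).congr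
      isOpen_univ (fun i y _ => ?_)
  rfl

lemma bdA (N : ℕ) : BdN N univ wI
    (fun (i : Ix d M C') => fxA chi (fun x => chi (x - i.2)) i.1.β ε p0 A i.1.μ i.1.n) := by
  have hw : ∀ (i : Ix d M C') (y : Sp d), 0 ≤ wI i y := fun i y => Real.sqrt_nonneg _
  have bW := W_bd (M := M) hd hC' hε0 hε hA (N + 1)
  have bU := U_bd (M := M) (p0 := p0) hd hC' hε0 hε hA N
  have bn : BdN N univ wI (fun (i : Ix d M C') y => fderiv ℝ (WW i.1.β ε i.1.μ 1) y i.1.n) :=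
    UB.clm1 bW (e := fun i => i.1.n) (fun i => i.1.hn.le)
  have bc := chi_bd (ι := Ix d M C') (d := d) (N + 1) (by omega)
  have bcn : BdN N univ (fun (_ : Ix d M C') _ => (1 : ℝ)) (fun (i : Ix d M C') y =>
      fderiv ℝ (fun y : Sp d => chi y) y i.1.n) :=
    UB.clm1 bc (e := fun i => i.1.n) (fun i => i.1.hn.le)
  have h1 := mul1 (mul1 (chi'_bd N (by omega) (fun i : Ix d M C' => i.2)) bU)
    ((grad_bd bc bW hw).sub isOpen_univ (mul1 bcn bn))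
  refine h1.congr isOpen_univ (fun i y _ => ?_)
  unfold fxA
  rw [UB.inner_tangs i.1.hn, CS2.inner_grad]
  simp only [UB.inner_gradient']
  rfl

/-! ### the Newton field -/

lemma bdS (N : ℕ) : BdN N univ wI (fun (i : Ix d M C') y =>
    chi (y - i.2) * Ups p0 A i.1.μ 1 y *
    ⟪gradient (fun x : Sp d => chi x) y, gradient (WW i.1.β ε i.1.μ 1) y⟫_ℝ) := by
  have hw : ∀ (i : Ix d M C') (y : Sp d), 0 ≤ wI i y := fun i y => Real.sqrt_nonneg _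
  have bW := W_bd (M := M) hd hC' hε0 hε hA (N + 1)
  have bU := U_bd (M := M) (p0 := p0) hd hC' hε0 hε hA N
  have bc := chi_bd (ι := Ix d M C') (d := d) (N + 1) (by omega)
  exact mul1 (mul1 (chi'_bd N (by omega) (fun i : Ix d M C' => i.2)) bU) (grad_bd bc bW hw)

lemma bdHH (N : ℕ) (a c : Fin d) : BdN N univ wI
    (fun (i : Ix d M C') x => chi x * HHm i.1.β ε p0 A i.1.μ a c x) :=
  mul1 (chi_bd N (by omega)) (HH_bd hd hC' hε0 hε hA N a c)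

lemma bdY (N : ℕ) (a c : Fin d) : BdN N univ wI
    (fun (i : Ix d M C') x => chi (x - i.2) * Ups p0 A i.1.μ 1 x * (1 / 2 *
        (fderiv ℝ chi x (bv a) * fderiv ℝ (WW i.1.β ε i.1.μ 1) x (bv c)
        + fderiv ℝ chi x (bv c) * fderiv ℝ (WW i.1.β ε i.1.μ 1) x (bv a)))) := by
  have bW := W_bd (M := M) hd hC' hε0 hε hA (N + 1)
  have bU := U_bd (M := M) (p0 := p0) hd hC' hε0 hε hA N
  have bc := chi_bd (ι := Ix d M C') (d := d) (N + 1) (by omega)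
  exact mul1 (mul1 (chi'_bd N (by omega) (fun i : Ix d M C' => i.2)) bU)
      (((mul1 (d1_bd bc a) (d1_bd bW c)).add isOpen_univ
        (mul1 (d1_bd bc c) (d1_bd bW a))).const_mul isOpen_univ (fun _ => (1 / 2 : ℝ)) (B := 1)
        (fun i => by norm_num))

end fam

/-! ### the supports -/

section sup

lemma evH (hd : 2 ≤ d) (g : Sp d → ℝ) {y : Sp d} (hy : (d : ℝ) ≤ ‖y‖) :
    (fun x => chi x * g x) =ᶠ[𝓝 y] fun _ => 0 := by
  filter_upwards [TDc.chi_ev hd hy] with z hz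
  rw [hz, zero_mul]

lemma evV (hd : 2 ≤ d) (β : Sp d → ℝ) (ε p0 A : ℝ) (μ : Measure (Sp d)) (n : Sp d) {y : Sp d}
    (hy : (d : ℝ) ≤ ‖y‖) : dvT chi β ε p0 A μ n =ᶠ[𝓝 y] fun _ => 0 := by
  rw [TDc.dvT_eq]
  exact TDc.dvg_ev_far hd hy

lemma grad_ev2 (hd : 2 ≤ d) {y : Sp d} (hy : (d : ℝ) ≤ ‖y‖) :
    ∀ᶠ z in 𝓝 y, gradient (chi : Sp d → ℝ) z = 0 := by
  filter_upwards [chi_fd_ev hd hy] with z hz
  unfold gradient
  rw [hz]
  simp

lemma evA (hd : 2 ≤ d) (χ' β : Sp d → ℝ) (ε p0 A : ℝ) (μ : Measure (Sp d)) (n : Sp d) {y : Sp d}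
    (hy : (d : ℝ) ≤ ‖y‖) : fxA chi χ' β ε p0 A μ n =ᶠ[𝓝 y] fun _ => 0 := by
  filter_upwards [grad_ev2 hd hy] with z hz
  unfold fxA
  rw [hz]
  unfold tang
  simp

lemma evS (hd : 2 ≤ d) (g : Sp d → ℝ) (G : Sp d → Sp d) {y : Sp d} (hy : (d : ℝ) ≤ ‖y‖) :
    (fun x => g x * ⟪gradient (fun z : Sp d => chi z) x, G x⟫_ℝ) =ᶠ[𝓝 y] fun _ => 0 := by
  filter_upwards [grad_ev2 hd hy] with z hz
  have hz' : gradient (fun x : Sp d => chi x) z = 0 := hz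
  simp only [hz']
  simp

lemma evY (hd : 2 ≤ d) (g : Sp d → ℝ) (W : Sp d → ℝ) (a c : Fin d) {y : Sp d}
    (hy : (d : ℝ) ≤ ‖y‖) :
    (fun x => g x * (1 / 2 * (fderiv ℝ (chi : Sp d → ℝ) x (bv a) * fderiv ℝ W x (bv c)
        + fderiv ℝ (chi : Sp d → ℝ) x (bv c) * fderiv ℝ W x (bv a)))) =ᶠ[𝓝 y] fun _ => 0 := by
  filter_upwards [chi_fd_ev hd hy] with z hz
  rw [hz]
  simp

end sup

end W5m

end

end TG
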