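import Pool.Agent.TG.Stmts13
import Pool.Agent.TG.TFc

/-!
# Trace inequality: the plane functional, type A (WA6)   (helper74)

The infimum over the planes is at most the value at the plane of the sheet, moved (parallel) so
that it meets the ball R0 + 1.
-/

set_option autoImplicit false

open MeasureTheory Metric Set TrI
open scoped InnerProductSpace ContDiff

namespace TG

noncomputable section

namespace WA6A

variable {d : ℕ}

/-- Lemma Z for functions of size N -/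
lemma zp_app {m : Sp d → ℝ} {R D N : ℝ} (hZ : ZP R D m) {H : Sp d → ℝ} (hH : TC.CB 2 N H)
    (h0 : ∀ y, 0 ≤ H y) (hs : ∀ y, R ≤ ‖y‖ → H y = 0) (hN : 0 < N) :
    -(N * D) ≤ ∫ y, m y * H y := by
  have h1 := hZ (fun y => N⁻¹ * H y) (contDiff_const.mul hH.smooth)
    (fun y => mul_nonneg (by positivity) (h0 y)) (fun y => ?_) (fun y => ?_)
    (fun y hy => by rw [hs y hy, mul_zero])
  · have e1 : (∫ y, m y * (N⁻¹ * H y)) = N⁻¹ * ∫ y, m y * H y := by
      rw [← integral_const_mul]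
      congr 1; ext y; ring
    rw [e1] at h1
    have h2 := mul_le_mul_of_nonneg_left h1 hN.le
    rw [← mul_assoc N N⁻¹, mul_inv_cancel₀ hN.ne', one_mul] at h2
    linarith
  · have := hH.norm_le y
    rw [Real.norm_eq_abs] at this
    have h3 := le_abs_self (H y)
    rw [inv_mul_le_iff₀ hN]; linarith
  · have h3 := (hH.const_mul N⁻¹).bd 2 le_rfl y
    rw [abs_of_pos (by positivity), inv_mul_cancel₀ hN.ne'] at h3
    exact h3

/-- moving the plane parallel to itself so that it meets the ball of radius R + 1 -/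
def clp (R s : ℝ) : ℝ := max (-(R + 1)) (min s (R + 1))

lemma clp_abs {R : ℝ} (hR : 0 < R) (s : ℝ) : |clp R s| ≤ R + 1 := by
  unfold clp
  rw [abs_le]
  constructor
  · exact le_max_left _ _
  · exact max_le (by linarith) (min_le_right _ _)

lemma clp_dist {R : ℝ} (s a : ℝ) (ha : |a| ≤ R + 1) : (a - clp R s) ^ 2 ≤ (a - s) ^ 2 := by
  obtain ⟨h1, h2⟩ := abs_le.1 ha
  unfold clp
  rcases le_total s (R + 1) with h3 | h3
  · rw [min_eq_left h3]
    rcases le_total s (-(R + 1)) with h4 | h4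
    · rw [max_eq_left h4]
      nlinarith
    · rw [max_eq_right h4]
  · rw [min_eq_right h3, max_eq_right (by linarith)]
    nlinarith

lemma main_fn (d : ℕ) {R0 : ℝ} (hR : 0 < R0) (K : ℝ) : ∃ N : ℝ, 0 < N ∧
    ∀ (n : Sp d) (s : ℝ), ‖n‖ = 1 → |s| ≤ K →
      TC.CB 2 N (fun y => zR (R0 + 4) y * hgt n s y ^ 2 - zR R0 y * hgt n (clp R0 s) y ^ 2) ∧
      (∀ y, 0 ≤ zR (R0 + 4) y * hgt n s y ^ 2 - zR R0 y * hgt n (clp R0 s) y ^ 2) ∧
      (∀ y, R0 + 5 ≤ ‖y‖ →
        zR (R0 + 4) y * hgt n s y ^ 2 - zR R0 y * hgt n (clp R0 s) y ^ 2 = 0) := by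
  obtain ⟨N1, hN1, h1⟩ := TC.ht2z_cb d 2 (R := R0 + 4) (by linarith) K
  obtain ⟨N2, hN2, h2⟩ := TC.ht2z_cb d 2 hR (R0 + 1)
  refine ⟨N1 + N2, by positivity, fun n s hn hs => ⟨?_, ?_, ?_⟩⟩
  · exact (h1 n s hn.le hs).sub (h2 n (clp R0 s) hn.le (clp_abs hR s))
  · intro y
    rw [sub_nonneg]
    by_cases hy : R0 + 1 ≤ ‖y‖
    · rw [TC.zR_zero hy, zero_mul]
      exact mul_nonneg (TC.zR_nonneg _ _) (sq_nonneg _)
    · push_neg at hy
      rw [TC.zR_one (R := R0 + 4) (x := y) (by linarith), one_mul]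
      have h3 : |⟪n, y⟫_ℝ| ≤ R0 + 1 := by
        have := abs_real_inner_le_norm n y
        rw [hn, one_mul] at this
        linarith
      have h4 := clp_dist (R := R0) s ⟪n, y⟫_ℝ h3
      calc zR R0 y * hgt n (clp R0 s) y ^ 2 ≤ 1 * hgt n (clp R0 s) y ^ 2 :=
            mul_le_mul_of_nonneg_right (TC.zR_le_one _ _) (sq_nonneg _)
        _ ≤ hgt n s y ^ 2 := by rw [one_mul]; exact h4
  · intro y hy
    rw [TC.zR_zero (R := R0 + 4) (x := y) (by linarith),
      TC.zR_zero (R := R0) (x := y) (by linarith)]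
    ring

lemma int_blc {m : Sp d → ℝ} (hm : Continuous m) (n : Sp d) (s : ℝ) {R : ℝ} (hR : 0 < R) :
    Integrable (fun y => m y * (zR R y * hgt n s y ^ 2)) := by
  have hz : Continuous (zR R : Sp d → ℝ) :=
    (TC.zR_contDiff hR (n := 0) (by simp)).continuous
  have hh : Continuous (hgt n s) := by unfold hgt; fun_prop
  refine Continuous.integrable_of_hasCompactSupport (hm.mul (hz.mul (hh.pow 2))) ?_
  exact ((TC.zR_cs R).mul_right (f' := fun y => hgt n s y ^ 2)).mul_left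

/-- the plane functional is at most the off-sheet mass of every plane -/
lemma bq_le (d : ℕ) {R0 : ℝ} (hR : 0 < R0) (K : ℝ) : ∃ N : ℝ, 0 < N ∧
    ∀ (m : Sp d → ℝ) (D Rz : ℝ), Continuous m → 0 ≤ D → R0 + 5 ≤ Rz → ZP Rz D m →
    ∀ (n : Sp d) (s : ℝ), ‖n‖ = 1 → |s| ≤ K →
      bq R0 m ≤ max 0 (blc n s m (R0 + 4)) + N * D := by
  obtain ⟨N, hN, h⟩ := main_fn d hR K
  refine ⟨N, hN, fun m D Rz hm hD hRz hZ n s hn hs => ?_⟩
  obtain ⟨h1, h2, h3⟩ := h n s hn hs
  have h4 := zp_app hZ h1 h2 (fun y hy => h3 y (by linarith)) hN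
  have e1 : (∫ y, m y * (zR (R0 + 4) y * hgt n s y ^ 2 - zR R0 y * hgt n (clp R0 s) y ^ 2)) =
      blc n s m (R0 + 4) - blc n (clp R0 s) m R0 := by
    unfold blc
    rw [← integral_sub (int_blc hm n s (by linarith)) (int_blc hm n _ hR)]
    congr 1; ext y; ring
  rw [e1] at h4
  have hND : 0 ≤ N * D := mul_nonneg hN.le hD
  have h5 : blc n (clp R0 s) m R0 ≤ max 0 (blc n s m (R0 + 4)) + N * D := by
    have := le_max_right 0 (blc n s m (R0 + 4))
    linarith
  have h6 : 0 ≤ max 0 (blc n s m (R0 + 4)) + N * D := by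
    have := le_max_left 0 (blc n s m (R0 + 4))
    linarith
  unfold bq
  refine max_le h6 ?_
  by_cases hb : BddBelow {v : ℝ | ∃ (n : Sp d) (s : ℝ), ‖n‖ = 1 ∧ |s| ≤ R0 + 1 ∧
      v = blc n s m R0}
  · exact (csInf_le hb ⟨n, clp R0 s, hn, clp_abs hR s, rfl⟩).trans h5
  · rw [Real.sInf_of_not_bddBelow hb]
    exact h6

end WA6A

open WA6A in
theorem stmtWA6 (hP4 : StmtP4) : StmtWA6 := by
  intro d J JA hd M c0 C' c R0 X hX
  have hR0 : 0 < R0 := by
    have h1 := hX.R0_ge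
    have h2 := hX.far.A_ge
    have h3 : (0 : ℝ) ≤ (d : ℝ) := Nat.cast_nonneg d
    linarith
  obtain ⟨C, i0, hC, hi0, h4⟩ := hP4 d J JA hd M c0 C' c R0 X hX
  refine ⟨C, hC, fun Kc hKc => ?_⟩
  obtain ⟨κ, CK, Rz, hκ, hCK, h5⟩ := h4 Kc hKc
  obtain ⟨N, hN, h6⟩ := bq_le d hR0 (32 * R0 + 4)
  refine ⟨κ, CK + N, max Rz (R0 + 5), hκ, by positivity, ?_⟩
  intro E _ _ _ W hW Q hA
  have hW' : WOK JA C' R0 Rz X W := by
    refine { hW with zp := ?_, dir := ?_ }
    · intro Q H g1 g2 g3 g4 g5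
      exact hW.zp Q H g1 g2 g3 g4 (fun y hy => g5 y ((le_max_left _ _).trans hy))
    · intro Q Q' hQ' ζ N' g1 g2
      exact hW.dir Q Q' hQ' ζ N' g1 (fun y hy => g2 y ((le_max_left _ _).trans hy))
  obtain ⟨h7, -⟩ := h5 E W hW' Q hA
  have hm : Continuous (W.m Q) := by
    unfold Wld.m mQ rs
    exact (continuous_const.smul (hW.fc.comp (by fun_prop))).inner continuous_const
  have h8 := h6 (W.m Q) (W.D Q) (max Rz (R0 + 5)) hm (hW.D0 Q) (le_max_right _ _) (hW.zp Q)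
    (W.nv Q) (W.sv Q) (hW.nu Q) hA.1
  have hw : 0 ≤ W.w Q * W.v Q := by
    unfold Wld.w Wld.v cw omC lev
    exact mul_nonneg (pow_nonneg (mul_nonneg hW.s0_pos.le (by positivity)) _) (Real.sqrt_nonneg _)
  have hQ : Q ∈ W.ns R0 JA Q := by
    unfold Wld.ns nst
    simp only [Finset.mem_filter, Finset.mem_biUnion, Finset.mem_range, Finset.mem_product,
      Finset.mem_singleton, Fintype.mem_piFinset, Finset.mem_Icc]
    have hc : 0 ≤ ⌈3 * R0⌉ := Int.ceil_nonneg (by positivity)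
    refine ⟨⟨0, by omega, by simp, fun j => ?_⟩, ?_⟩
    · constructor <;> simp <;> omega
    · rw [sub_self, norm_zero]
      unfold lev
      have := hW.s0_pos
      positivity
  have hD : W.D Q ≤ W.sD R0 JA Q := by
    unfold Wld.sD
    exact Finset.single_le_sum (f := fun Q' => W.D Q') (fun Q' _ => hW.D0 Q') hQ
  have hE : 0 ≤ W.sE R0 JA Q := by
    unfold Wld.sE
    split_ifs
    · refine Finset.sum_nonneg fun Q' hQ' => ?_
      have h9 := (hA.2.2 Q' hQ').2.1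
      exact add_nonneg (div_nonneg (sq_nonneg _) (hW.ab0 Q')) h9.dl0
    · exact le_rfl
  have hD0 : 0 ≤ W.sD R0 JA Q := (hW.D0 Q).trans hD
  calc W.w Q * W.v Q * bq R0 (W.m Q)
      ≤ W.w Q * W.v Q * (max 0 (blc (W.nv Q) (W.sv Q) (W.m Q) (R0 + 4)) + N * W.D Q) :=
        mul_le_mul_of_nonneg_left h8 hw
    _ = W.w Q * W.v Q * max 0 (blc (W.nv Q) (W.sv Q) (W.m Q) (R0 + 4)) +
          N * (W.w Q * W.v Q) * W.D Q := by ring
    _ ≤ (C * W.sV R0 JA Q + CK * (W.w Q * W.v Q) * (W.sE R0 JA Q + W.sD R0 JA Q)) +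
          N * (W.w Q * W.v Q) * (W.sE R0 JA Q + W.sD R0 JA Q) := by
        refine add_le_add h7 (mul_le_mul_of_nonneg_left (by linarith) (mul_nonneg hN.le hw))
    _ = _ := by ring

end

end TG
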