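import Pool.Agent.TG.WA7a
import Pool.Agent.TG.WT

/-!
# MODULE WA7: the functional Y, type A   (helper15)
-/

open MeasureTheory Metric Set TrI Filter
open scoped InnerProductSpace ContDiff Topology

set_option linter.unusedSectionVars false

namespace TG

namespace WA7m

noncomputable section

variable {d : ℕ}

/-- a pointwise lower bound of the gain gives a lower bound of the plane integral -/
lemma gain_low (h : StmtTH) (hWA : StmtWA) (hd : 2 ≤ d) {M C' ε R0 c : ℝ} (hC' : 0 < C')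
    (hε : 0 < ε) (hε1 : ε ≤ 1) (hR0 : 63 ≤ R0) (hc : 0 < c) : ∃ i2 : ℝ, 0 < i2 ∧
    ∀ β : Sp d → ℝ, Kit 10 M β → ∀ μ : Measure (Sp d), Gro C' μ → ∀ (n : Sp d) (s : ℝ), ‖n‖ = 1 →
      |s| ≤ R0 / 2 → c * vv μ 1 (s • n) ≤ XX β ε μ n 1 (s • n) →
      i2 * vv μ 1 0 < plInt n s (fun x => zR (2 * R0 - 1) x * XX β ε μ n 1 x) := by
  obtain ⟨k, rfl⟩ : ∃ k, d = k + 1 := ⟨d - 1, by omega⟩
  obtain ⟨C, hC, hTH⟩ := MO.getTH h (k + 1) 0 hd C' hC'
  obtain ⟨C1, hC1, hW⟩ := hWA (k + 1) 1 hd M C' ε hC' hε hε1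
  have hCv : 0 < UUm.Cv (k + 1) C R0 := by
    have := Real.sqrt_pos.2 hC
    unfold UUm.Cv; positivity
  set H := UUm.Cv (k + 1) C R0 with hH
  set L : ℝ := C1 * H with hL
  have hL0 : 0 < L := by positivity
  set r1 : ℝ := min 1 (c / (2 * H * L)) with hr1
  have hr10 : 0 < r1 := lt_min one_pos (by positivity)
  have hr11 : r1 ≤ 1 := min_le_left _ _
  have hr12 : r1 ≤ c / (2 * H * L) := min_le_right _ _
  have hvb := UUm.vb_pos k hr10
  refine ⟨c / (2 * H) * UUm.vb k r1 / 2, by positivity, ?_⟩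
  intro β hβ μ hμ n s hn hs hX
  have hT := hTH μ hμ
  have hv := hT.vpos one_pos (0 : Sp (k + 1))
  obtain ⟨-, -, -, -, hXX⟩ := hW β (UUm.kit_mono (by omega) hβ) μ hμ
  obtain ⟨hXs, hX0, hXb, -⟩ := hXX n hn
  have hsn : ‖s • n‖ = |s| := by rw [norm_smul, hn, mul_one, Real.norm_eq_abs]
  have hLip : ∀ x y : Sp (k + 1), ‖x‖ ≤ 2 * R0 → ‖y‖ ≤ 2 * R0 →
      |XX β ε μ n 1 y - XX β ε μ n 1 x| ≤ L * vv μ 1 0 * ‖y - x‖ := by
    intro x y hx hy
    have h1 : ∀ z ∈ closedBall (0 : Sp (k + 1)) (2 * R0), DifferentiableAt ℝ (XX β ε μ n 1) z :=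
      fun z _ => (hXs.differentiable (by norm_num)).differentiableAt
    have h2 : ∀ z ∈ closedBall (0 : Sp (k + 1)) (2 * R0),
        ‖fderiv ℝ (XX β ε μ n 1) z‖ ≤ L * vv μ 1 0 := fun z hz => by
      rw [← norm_iteratedFDeriv_one]
      refine (hXb 1 le_rfl z).trans ?_
      have e1 := (UUm.v_cmp (μ := μ) hC hT (R0 := R0) (by linarith) (r := 1) (by norm_num)
        (by norm_num) (y := z) (by simpa using hz)).1
      rw [hL, mul_assoc]
      exact mul_le_mul_of_nonneg_left e1 hC1.le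
    have h3 := (convex_closedBall (0 : Sp (k + 1)) (2 * R0)).norm_image_sub_le_of_norm_fderiv_le
      h1 h2 (show x ∈ closedBall (0 : Sp (k + 1)) (2 * R0) by simpa using hx)
      (show y ∈ closedBall (0 : Sp (k + 1)) (2 * R0) by simpa using hy)
    rwa [Real.norm_eq_abs] at h3
  have hv1 := (UUm.v_cmp (μ := μ) hC hT (R0 := R0) (by linarith) (r := 1) (by norm_num)
        (by norm_num) (y := s • n) (by rw [hsn]; linarith)).2
  rw [← hH] at hv1
  have hx0 : ⟪n, s • n⟫_ℝ = s := by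
    rw [inner_smul_right, real_inner_self_eq_norm_sq, hn]; ring
  have hlow := UUm.pl_lower k hn (s := s) (F := fun x => zR (2 * R0 - 1) x * XX β ε μ n 1 x)
    ((UUm.zR_cont _).mul hXs.continuous) ((UUm.zR_cs _).mul_right)
    (fun x => mul_nonneg (UUm.zR_nonneg _ _) (hX0 x))
    (x := s • n) hx0 (r := r1) (κ := c / (2 * H) * vv μ 1 0) (fun z hz hzx => by
      have hzn : ‖z‖ ≤ R0 / 2 + 1 := by
        have h2 := norm_add_le (z - s • n) (s • n)
        rw [sub_add_cancel, hsn] at h2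
        linarith
      rw [UUm.zR_one (by linarith), one_mul]
      have h1 := hLip (s • n) z (by rw [hsn]; linarith) (by linarith)
      have h2 := (abs_le.1 h1).1
      have h3 : L * vv μ 1 0 * ‖z - s • n‖ ≤ L * vv μ 1 0 * (c / (2 * H * L)) :=
        mul_le_mul_of_nonneg_left (hzx.trans hr12) (by positivity)
      have h4 : L * vv μ 1 0 * (c / (2 * H * L)) = c / (2 * H) * vv μ 1 0 := by
        field_simp
      have h5 : c / H * vv μ 1 0 ≤ c * vv μ 1 (s • n) := by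
        rw [div_mul_eq_mul_div, div_le_iff₀ hCv]
        nlinarith
      have h6 : c / H * vv μ 1 0 = c / (2 * H) * vv μ 1 0 + c / (2 * H) * vv μ 1 0 := by
        field_simp; ring
      linarith)
  have : 0 < c / (2 * H) * vv μ 1 0 * UUm.vb k r1 := by positivity
  nlinarith

section cells

variable {E : Type} [NormedAddCommGroup E] [InnerProductSpace ℝ E]

lemma WSh_mono {J : ℕ} {R0 κ κ' : ℝ} {W : Wld d E} {Q : Cell d} (h : WSh J R0 κ W Q)
    (hκ : κ ≤ κ') : WSh J R0 κ' W Q where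
  sh := h.sh
  bl := h.bl
  loc := h.loc
  dl0 := h.dl0
  small := h.small.trans (mul_le_mul_of_nonneg_right hκ h.sh.ab0.le)
  smalld := h.smalld.trans (mul_le_mul_of_nonneg_right hκ h.sh.ab0.le)

lemma Ash_mono {J JA : ℕ} {R0 κ κ' Kc : ℝ} {W : Wld d E} {Q : Cell d} (h : Ash J JA R0 κ Kc W Q)
    (hκ : κ ≤ κ') : Ash J JA R0 κ' Kc W Q :=
  ⟨h.1, WSh_mono h.2.1 hκ, fun Q' hQ' =>
    ⟨(h.2.2 Q' hQ').1, WSh_mono (h.2.2 Q' hQ').2.1 hκ, (h.2.2 Q' hQ').2.2⟩⟩

lemma ZP_mono {R R' D : ℝ} {m : Sp d → ℝ} (h : ZP R D m) (hR : R' ≤ R) : ZP R' D m :=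
  fun H h1 h2 h3 h4 h5 => h H h1 h2 h3 h4 (fun y hy => h5 y (hR.trans hy))

lemma WOK_mono {JA : ℕ} {C' R0 Rz Rz' : ℝ} {X : Prm d} {W : Wld d E} (h : WOK JA C' R0 Rz X W)
    (hR : Rz' ≤ Rz) : WOK JA C' R0 Rz' X W where
  X_eq := h.X_eq
  s0_pos := h.s0_pos
  gro := h.gro
  fc := h.fc
  fs := h.fs
  eu := h.eu
  nu := h.nu
  ab0 := h.ab0
  D0 := h.D0
  zp := fun Q => ZP_mono (h.zp Q) hR
  dir := fun Q Q' hQ' ζ N h1 h2 => h.dir Q Q' hQ' ζ N h1 (fun y hy => h2 y (hR.trans hy))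

lemma cw_nonneg {s0 : ℝ} (h : 0 < s0) (Q : Cell d) : 0 ≤ cw s0 Q := by
  unfold cw lev; positivity

lemma v_eq (hSC : StmtSC) (hd : 2 ≤ d) {C' : ℝ} (hC' : 0 < C') {W : Wld d E}
    (hs0 : 0 < W.s0) (hμ : Gro C' W.μ) (Q : Cell d) : W.v Q = vv (W.mu Q) 1 0 := by
  unfold Wld.v Wld.mu omC
  rw [WT.vv_frame hSC hd hC' hμ hs0 Q one_pos, smul_zero, add_zero, mul_one]

/-- a sheet which meets the ball meets a near cell, or the posterior is far there -/
lemma near_ex (hSE : StmtSE) (hNS : StmtNS) (hd : 2 ≤ d) {J JA : ℕ} {M c0 C' c R0 Rz : ℝ}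
    {X : Prm d} (hX : XOK J JA M c0 C' c R0 X) {W : Wld d E} (hW : WOK JA C' R0 Rz X W)
    (P : Cell d) (hs : |W.sv P| ≤ R0 / 2) :
    (∃ Q' ∈ W.ns R0 JA P, W.Near Q') ∨
      qq X.A (W.mu P) 1 (W.sv P • W.nv P) ≤ X.p0 := by
  have hs0 := hW.s0_pos
  have hA := hX.prm.A_ge
  have hp0 := hX.prm.p0_pos
  have hd' : (2 : ℝ) ≤ d := by exact_mod_cast hd
  have hR0 : 400 + 8 * (d : ℝ) ≤ R0 := by linarith [hX.R0_ge]
  obtain ⟨-, -, h3, -, h5, -⟩ := hNS d (by omega) W.s0 (3 * R0) hs0 (by linarith) JA P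
  have hsn : ‖W.sv P • W.nv P‖ = |W.sv P| := by
    rw [norm_smul, hW.nu, mul_one, Real.norm_eq_abs]
  have h6 := h3 0 (Nat.zero_le _) (W.sv P • W.nv P) (by rw [hsn, pow_zero, mul_one]; linarith)
  obtain ⟨Q', hQ', hne⟩ := Finset.exists_ne_zero_of_sum_ne_zero (by rw [h6]; exact one_ne_zero)
  rw [Finset.mem_filter, add_zero] at hQ'
  rw [pow_zero, one_smul] at hne
  by_cases hN : W.Near Q'
  · exact Or.inl ⟨Q', hQ'.1, hN⟩
  · right
    unfold Wld.Near at hN
    push Not at hN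
    have h7 := hN _ hne
    have h8 := (WT.SE_shift hSE hd hX.C'_pos hW.gro hs0 (β := KN X.b 0) (M := M)
      (UUm.kit_mono (by omega) (hX.ker.kit 0)) hX.prm.ε_pos (by linarith [hX.prm.ε_le]) hp0
      (A := X.A) (by linarith) P Q' hQ'.2 (W.sv P • W.nv P - tw W.s0 P Q')).1
    rw [h5 Q' hQ'.2, add_sub_cancel] at h8
    rw [hW.X_eq, h5 Q' hQ'.2] at h7
    unfold Wld.mu at h7 ⊢
    rw [h8] at h7
    linarith

/-- the values are nonnegative -/
lemma val_nonneg (hWA : StmtWA) (hSC : StmtSC) (hd : 2 ≤ d) {J JA : ℕ} {M c0 C' c R0 Rz : ℝ}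
    {X : Prm d} (hX : XOK J JA M c0 C' c R0 X) {W : Wld d E} (hW : WOK JA C' R0 Rz X W)
    (Q : Cell d) : 0 ≤ W.val Q := by
  unfold Wld.val
  split_ifs with h1 h2
  · refine add_nonneg ?_ (le_max_left _ _)
    unfold Wld.sg
    refine mul_nonneg (hW.ab0 Q) ?_
    obtain ⟨C1, hC1, hB⟩ := hWA d 0 hd M C' X.ε hX.C'_pos hX.prm.ε_pos (by linarith [hX.prm.ε_le])
    have hX0 := ((hB (W.be Q) (by
      unfold Wld.be bQ
      rw [hW.X_eq]
      exact UUm.kit_mono (by omega) (hX.ker.kit _)) (W.mu Q)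
      (WT.gro_muQ hSC hd hX.C'_pos hW.gro hW.s0_pos Q)).2.2.2.2 (W.nv Q) (hW.nu Q)).2.1
    unfold plInt
    refine integral_nonneg fun y => mul_nonneg (PTm.chi_nonneg _) ?_
    rw [hW.X_eq]
    exact hX0 _
  · exact le_rfl
  · exact le_max_left _ _

/-- increase of the constants -/
lemma wrap {x a b c C CK sV B T : ℝ} (h : x ≤ a * sV + b * B + c * T) (ha : a ≤ C) (hb : b ≤ C)
    (hc : c ≤ CK) (hV : 0 ≤ sV) (hB : 0 ≤ B) (hT : 0 ≤ T) : x ≤ C * sV + C * B + CK * T := by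
  have h1 := mul_le_mul_of_nonneg_right ha hV
  have h2 := mul_le_mul_of_nonneg_right hb hB
  have h3 := mul_le_mul_of_nonneg_right hc hT
  linarith

end cells

end

end WA7m

open WA7m in
/-- MODULE WA7 -/
theorem stmtWA7 (hTH : StmtTH) (hWA : StmtWA) (hPF : StmtPF) (hSC : StmtSC) (hSE : StmtSE)
    (hNS : StmtNS) (hP3 : StmtP3) (hP4 : StmtP4) : StmtWA7 := by
  intro d J JA hd M c0 C' c R0 X hX C3 Ct R2 hC3 hCt hCtR hR2
  have hd' : (2 : ℝ) ≤ d := by exact_mod_cast hd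
  have hA := hX.prm.A_ge
  have hR0 : 400 + 8 * (d : ℝ) ≤ R0 := by linarith [hX.R0_ge]
  have hC' := hX.C'_pos
  have hε := hX.prm.ε_pos
  have hε1 := hX.prm.ε_le
  have hcp := hX.far.c_pos
  obtain ⟨C3p, hC3p, hP3'⟩ := hP3 d J JA hd M c0 C' c R0 X hX
  obtain ⟨C4, i4, hC4, hi4, hP4'⟩ := hP4 d J JA hd M c0 C' c R0 X hX
  obtain ⟨K5, hK5, hMo⟩ := Mo_plane hTH hWA hd (M := M) (R0 := R0) hC' hε (by linarith)
    (by linarith)
  obtain ⟨i2, hi2, hgain⟩ := gain_low hTH hWA hd (M := M) (R0 := R0) hC' hε (by linarith)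
    (by linarith) hcp
  obtain ⟨K2, hK2, hfar⟩ := mass_far d (r := Ct) (R' := R0 + 4) (by linarith) (32 * R0 + 4)
    (by linarith)
  obtain ⟨K3, hK3, hsh⟩ := mass_sheet hPF d J (by omega) (r := Ct) (R := 64 * R0)
    (S := 32 * R0 + 4) (by linarith) (by linarith)
  obtain ⟨K6, hK6, hgg⟩ := sheet_gg d J (by omega) (R0 := R0) (R := 64 * R0) (S := R2)
    (by linarith) (by linarith)
  obtain ⟨K7, hK7, hbl⟩ := blc_le d (r := R0 + 2) (r' := R0 + 4) (by linarith) (by linarith)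
    (32 * R0 + 4)
  set K1 : ℝ := 2 * (1 + R2 ^ 2) with hK1
  set i0 : ℝ := min i4 i2 with hi0
  have hi00 : 0 < i0 := lt_min hi4 hi2
  set CG : ℝ := 2 + 2 * (R0 / 2) ^ 2 with hCG
  have hK10 : 0 < K1 := by positivity
  have hCG0 : 0 < CG := by positivity
  set a1 : ℝ := K1 * C3 * C4 with ha1
  set a2 : ℝ := K1 * (C3 * K3) * (C3p / i0) with ha2
  set a3 : ℝ := C3 * K3 * (2 * K5 * C4 + 4 * (CG * K6 * C4)) with ha3
  set b3 : ℝ := C3 * K3 * (4 * (CG * K6)) with hb3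
  have ha10 : 0 ≤ a1 := by positivity
  have ha20 : 0 ≤ a2 := by positivity
  have ha30 : 0 ≤ a3 := by positivity
  have hb30 : 0 ≤ b3 := by positivity
  refine ⟨a1 + a2 + a3 + b3 + 1, by positivity, fun Kc hKc => ?_⟩
  obtain ⟨κ3, CK3, Rz3, hκ3, hCK3, hP3''⟩ := hP3' i0 Kc hi00 hKc
  obtain ⟨κ4, CK4, Rz4, hκ4, hCK4, hP4''⟩ := hP4' Kc hKc
  set c1 : ℝ := K1 * C3 * CK4 + K1 * (C3 * K2 + 1) with hc1
  set c2 : ℝ := K1 * (C3 * K3) * CK3 + K1 * (C3 * K3 + 1) with hc2
  set c3 : ℝ := C3 * K3 * (2 * K5 * CK4 + 4 * (CG * K6 * (CK4 + K7 + 1))) +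
    K1 * (C3 * K3 + 1) with hc3
  have hc10 : 0 ≤ c1 := by positivity
  have hc20 : 0 ≤ c2 := by positivity
  have hc30 : 0 ≤ c3 := by positivity
  clear_value a1 a2 a3 b3 c1 c2 c3 K1 CG
  refine ⟨min 1 (min κ3 κ4), c1 + c2 + c3 + 1, max (max Rz3 Rz4) (64 * R0 + 1),
    lt_min one_pos (lt_min hκ3 hκ4), by positivity, ?_⟩
  intro E _ _ _ W hW P hP hAsh at1 DT n s hat hDT hn hs hatI
  have hs0 := hW.s0_pos
  have hW3 : WOK JA C' R0 Rz3 X W := WOK_mono hW ((le_max_left _ _).trans (le_max_left _ _))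
  have hW4 : WOK JA C' R0 Rz4 X W := WOK_mono hW ((le_max_right _ _).trans (le_max_left _ _))
  have hRz : 64 * R0 + 1 ≤ max (max Rz3 Rz4) (64 * R0 + 1) := le_max_right _ _
  set κ := min 1 (min κ3 κ4) with hκ
  have hκ1 : κ ≤ 1 := min_le_left _ _
  have hA3 := Ash_mono hAsh ((min_le_right _ _).trans (min_le_left _ _) : κ ≤ κ3)
  have hA4 := Ash_mono hAsh ((min_le_right _ _).trans (min_le_right _ _) : κ ≤ κ4)
  obtain ⟨hsv, hWS, hnb⟩ := hAsh
  have hμ : Gro C' (W.mu P) := WT.gro_muQ hSC hd hC' hW.gro hs0 P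
  have hve := v_eq hSC hd hC' hs0 hW.gro P
  have hv : 0 < W.v P := by
    rw [hve]
    obtain ⟨C, hC, hT⟩ := MO.getTH hTH d 0 hd C' hC'
    exact (hT _ hμ).vpos one_pos 0
  have hw : 0 ≤ W.w P := cw_nonneg hs0 P
  have hmc : Continuous (W.m P) := FR.mQ_cont hW.fc W.s0 (W.e P) P
  have hD := hW.D0 P
  have hZ := hW.zp P
  have hkit : Kit 10 M (W.be P) := by
    unfold Wld.be bQ
    rw [hW.X_eq]
    exact UUm.kit_mono (by omega) (hX.ker.kit _)
  -- the cell itself is in its neighbourhood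
  have hPns : P ∈ W.ns R0 JA P := by
    unfold Wld.ns
    rw [(hNS d (by omega) W.s0 (3 * R0) hs0 (by linarith) JA P).1 P]
    refine ⟨0, Nat.zero_le _, rfl, ?_⟩
    rw [sub_self, norm_zero]
    have := FR.lev_pos hs0 P.1
    have : 0 < 3 * R0 := by linarith
    positivity
  have hsD : W.D P ≤ W.sD R0 JA P := by
    unfold Wld.sD
    exact Finset.single_le_sum (f := fun Q' => W.D Q') (fun Q' _ => hW.D0 Q') hPns
  have hsD0 : 0 ≤ W.sD R0 JA P := hD.trans hsD
  have hEn : ∀ Q' ∈ W.ns R0 JA P, 0 ≤ W.er Q' ^ 2 / W.ab Q' + W.dl Q' := fun Q' hQ' => by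
    have h1 := (hnb Q' hQ').2.1
    have := h1.sh.ab0
    have := h1.dl0
    positivity
  have hsE0 : 0 ≤ W.sE R0 JA P := by
    unfold Wld.sE
    split_ifs
    · exact Finset.sum_nonneg hEn
    · exact le_rfl
  have hsV0 : 0 ≤ W.sV R0 JA P := by
    unfold Wld.sV
    exact Finset.sum_nonneg fun Q' _ => mul_nonneg (cw_nonneg hs0 Q')
      (val_nonneg hWA hSC hd hX hW Q')
  have hwv : 0 ≤ W.w P * W.v P := mul_nonneg hw hv.le
  -- the moment
  obtain ⟨Mh, hMh⟩ : ∃ Mh : ℝ, Mh = Mo (W.mu P) n s 2 1 0 := ⟨_, rfl⟩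
  have hM0 : 0 ≤ Mh := by
    rw [hMh, Mo2_eq, ← hve]
    exact div_nonneg (UUm.EE_nonneg _ (fun η => sq_nonneg _) _) hv.le
  have hM1 : Mh ≤ K1 * W.v P := by
    rw [hMh]
    refine (Mo_le hTH hd hC' hμ hn s).trans ?_
    rw [← hve]
    refine mul_le_mul_of_nonneg_right ?_ hv.le
    have : s ^ 2 ≤ R2 ^ 2 := by rw [← sq_abs]; exact pow_le_pow_left₀ (abs_nonneg _) hs 2
    rw [hK1]; linarith
  rw [← hMh]
  have h4 := hP4'' E W hW4 P hA4
  obtain ⟨h41, h42⟩ := h4
  set B4 := max 0 (blc (W.nv P) (W.sv P) (W.m P) (R0 + 4)) with hB4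
  have hB40 : 0 ≤ B4 := le_max_left _ _
  have hB4l : blc (W.nv P) (W.sv P) (W.m P) (R0 + 4) ≤ B4 := le_max_right _ _
  set B1 := max 0 (blc n s (W.m P) R0) with hB1
  have hB10 : 0 ≤ B1 := le_max_left _ _
  have e1 : W.w P * W.v P * max 0 (blc n s (W.m P) R0) = (W.w P * W.v P) * B1 := rfl
  set T := W.sE R0 JA P + W.sD R0 JA P + DT with hT
  have hT0 : 0 ≤ T := add_nonneg (add_nonneg hsE0 hsD0) hDT
  have eC : (a1 + a2 + a3 + b3 + 1) * (W.w P * W.v P) * B1 =
      (a1 + a2 + a3 + b3 + 1) * ((W.w P * W.v P) * B1) := by ring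
  have eK : (c1 + c2 + c3 + 1) * (W.w P * W.v P) * T =
      (c1 + c2 + c3 + 1) * ((W.w P * W.v P) * T) := by ring
  rw [eC, eK]
  have hBw : 0 ≤ (W.w P * W.v P) * B1 := mul_nonneg hwv hB10
  have hTw : 0 ≤ (W.w P * W.v P) * T := mul_nonneg hwv hT0
  set wv := W.w P * W.v P with hwvd
  set sV := W.sV R0 JA P with hsV
  set sE := W.sE R0 JA P with hsE
  set sD := W.sD R0 JA P with hsDd
  clear_value T B1 B4 wv sV sE sD κ
  have hwvM : W.w P * Mh ≤ K1 * wv := by
    have := mul_le_mul_of_nonneg_left hM1 hw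
    rw [hwvd]; linarith
  rcases lt_or_ge (R0 / 2) |W.sv P| with hfs | hfs
  · -- the plane is far
    have hI := hfar (W.m P) (W.nv P) (W.sv P) _ (W.D P) hmc (hW.nu P) hsv (by linarith)
      (by linarith) hZ
    have hat' : at1 ≤ C3 * B4 + (C3 * K2 * sD + DT) := by
      refine hatI.trans ?_
      have h1 : (∫ y, W.m P y * zR Ct y) ≤ B4 + K2 * sD := by
        have := mul_le_mul_of_nonneg_left hsD hK2.le
        linarith
      have := mul_le_mul_of_nonneg_left h1 hC3.le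
      linarith
    have hr0 : 0 ≤ C3 * B4 + (C3 * K2 * sD + DT) := by positivity
    have h1 : W.w P * (at1 * Mh) ≤ (C3 * B4 + (C3 * K2 * sD + DT)) * (K1 * wv) := by
      have e : W.w P * (at1 * Mh) = at1 * (W.w P * Mh) := by ring
      rw [e]
      exact mul_le_mul hat' hwvM (mul_nonneg hw hM0) hr0
    have h2 : (C3 * B4 + (C3 * K2 * sD + DT)) * (K1 * wv) ≤
        a1 * sV + 0 * (wv * B1) + c1 * (wv * T) := by
      have f1 : K1 * C3 * (wv * B4) ≤ K1 * C3 * (C4 * sV + CK4 * wv * (sE + sD)) :=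
        mul_le_mul_of_nonneg_left h41 (by positivity)
      have f2 : 0 ≤ K1 * C3 * CK4 * (wv * DT) := by positivity
      have f3 : 0 ≤ K1 * (C3 * K2) * (wv * (sE + DT)) := by positivity
      have f4 : 0 ≤ K1 * (wv * (sE + sD)) := by positivity
      have e : a1 * sV + 0 * (wv * B1) + c1 * (wv * T) -
          (C3 * B4 + (C3 * K2 * sD + DT)) * (K1 * wv) =
          (K1 * C3 * (C4 * sV + CK4 * wv * (sE + sD)) - K1 * C3 * (wv * B4)) +
          K1 * C3 * CK4 * (wv * DT) + K1 * (C3 * K2) * (wv * (sE + DT)) +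
          K1 * (wv * (sE + sD)) := by
        rw [ha1, hc1, hT]; ring
      linarith
    exact wrap (h1.trans h2) (by linarith) (by linarith) (by linarith) hsV0 hBw hTw
  · -- the plane meets the ball
    have hI := hsh (W.m P) (W.nv P) (W.sv P) _ (W.D P) (W.ab P) (W.er P) (W.dl P) κ hmc hsv hRz
      hD hZ hWS.dl0 hκ1 hWS.sh hWS.bl hWS.small hWS.smalld
    have hab := hWS.sh.ab0
    have hat' : at1 ≤ C3 * K3 * W.ab P + (C3 * K3 * sD + DT) := by
      refine hatI.trans ?_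
      have h1 : (∫ y, W.m P y * zR Ct y) ≤ K3 * W.ab P + K3 * sD := by
        have := mul_le_mul_of_nonneg_left hsD hK3.le
        linarith
      have := mul_le_mul_of_nonneg_left h1 hC3.le
      linarith
    have h1 : W.w P * (at1 * Mh) ≤ C3 * K3 * (W.w P * (W.ab P * Mh)) +
        (C3 * K3 * sD + DT) * (K1 * wv) := by
      have e : W.w P * (at1 * Mh) = at1 * (W.w P * Mh) := by ring
      rw [e]
      have hwM := mul_nonneg hw hM0
      have g1 := mul_le_mul_of_nonneg_right hat' hwM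
      have g2 : (C3 * K3 * sD + DT) * (W.w P * Mh) ≤ (C3 * K3 * sD + DT) * (K1 * wv) :=
        mul_le_mul_of_nonneg_left hwvM (by positivity)
      have e2 : (C3 * K3 * W.ab P + (C3 * K3 * sD + DT)) * (W.w P * Mh) =
          C3 * K3 * (W.w P * (W.ab P * Mh)) + (C3 * K3 * sD + DT) * (W.w P * Mh) := by ring
      linarith
    have hrem : (C3 * K3 * sD + DT) * (K1 * wv) ≤ K1 * (C3 * K3 + 1) * (wv * T) := by
      have f1 : 0 ≤ K1 * (C3 * K3) * (wv * (sE + DT)) := by positivity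
      have f2 : 0 ≤ K1 * (wv * (sE + sD)) := by positivity
      have e : K1 * (C3 * K3 + 1) * (wv * T) - (C3 * K3 * sD + DT) * (K1 * wv) =
          K1 * (C3 * K3) * (wv * (sE + DT)) + K1 * (wv * (sE + sD)) := by rw [hT]; ring
      linarith
    rcases le_or_gt (plInt (W.nv P) (W.sv P)
        (fun x => zR (2 * R0 - 1) x * XX (W.be P) W.X.ε (W.mu P) (W.nv P) 1 x))
        (i0 * W.v P) with hg | hg
    · -- small gain
      have hnear : ∃ Q' ∈ W.ns R0 JA P, W.Near Q' := by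
        rcases near_ex hSE hNS hd hX hW P hfs with h5 | h5
        · exact h5
        · exfalso
          have h6 := hX.far.farX (W.be P) (by
            unfold Wld.be bQ
            rw [hW.X_eq]
            exact hX.ker.kit _) (W.mu P) hμ (W.nv P) (hW.nu P) _ h5
          have h7 := hgain (W.be P) hkit (W.mu P) hμ (W.nv P) (W.sv P) (hW.nu P) hfs h6
          rw [← hve] at h7
          rw [hW.X_eq] at hg
          have h8 : i0 * W.v P ≤ i2 * W.v P :=
            mul_le_mul_of_nonneg_right (min_le_right _ _) hv.le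
          linarith
      have hsEP : W.er P ^ 2 / W.ab P + W.dl P ≤ sE := by
        rw [hsE]
        unfold Wld.sE
        rw [if_pos hnear]
        exact Finset.single_le_sum (f := fun Q' => W.er Q' ^ 2 / W.ab Q' + W.dl Q') hEn hPns
      have h5 := h42 (hg.trans (mul_le_mul_of_nonneg_right (min_le_left _ _) hv.le))
      have h6 := hMo (W.be P) hkit (W.mu P) hμ (W.nv P) (W.sv P) (hW.nu P) hfs
      rw [hW.X_eq] at h5
      set PI := plInt (W.nv P) (W.sv P)
        (fun x => zR R0 x * XX (W.be P) X.ε (W.mu P) (W.nv P) 1 x) with hPI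
      clear_value PI
      obtain ⟨σ, hσ, hdist⟩ := dist_le hn (hW.nu P) (s := s) hfs
      have h7 := Mo_two hTH hd hC' hμ (n := n) (hW.nu P) s (W.sv P) hσ
      rw [← hMh, ← hve] at h7
      set Dl := ‖n - σ • W.nv P‖ ^ 2 + (s - σ * W.sv P) ^ 2 with hDl
      have h8 := hgg (W.m P) n (W.nv P) s (W.sv P) (W.ab P) (W.er P) (W.dl P) hn hs hfs hWS.dl0
        hWS.sh
      have h9 := hbl (W.m P) (W.nv P) (W.sv P) _ (W.D P) hmc (hW.nu P) hsv (by linarith) hZ
      have h10 : max 0 (blc (W.nv P) (W.sv P) (W.m P) (R0 + 2)) ≤ B4 + K7 * sD := by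
        refine max_le (by positivity) ?_
        have := mul_le_mul_of_nonneg_left hsD hK7.le
        linarith
      rw [← hB1] at h8
      set g := gg n s (W.nv P) (W.sv P) with hgd
      -- ab Mh
      have h11 : W.ab P * Dl ≤ CG * K6 * (B1 + sE + B4 + K7 * sD) := by
        have j1 : W.ab P * Dl ≤ CG * (W.ab P * g) := by
          have := mul_le_mul_of_nonneg_left hdist hab.le
          rw [hCG]; linarith
        have j2 : W.ab P * g ≤ K6 * (B1 + sE + B4 + K7 * sD) := by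
          refine h8.trans (mul_le_mul_of_nonneg_left ?_ hK6.le)
          linarith
        have := mul_le_mul_of_nonneg_left j2 hCG0.le
        linarith
      have h12 : W.ab P * Mh ≤ 2 * K5 * (W.ab P * PI) + 4 * (W.ab P * Dl) * W.v P := by
        have j1 := mul_le_mul_of_nonneg_left h7 hab.le
        have j2 : Mo (W.mu P) (W.nv P) (W.sv P) 2 1 0 ≤ K5 * PI := h6
        have j3 := mul_le_mul_of_nonneg_left j2 (by positivity : 0 ≤ 2 * W.ab P)
        linarith
      have h13 : W.w P * (W.ab P * Mh) ≤ 2 * K5 * (W.w P * (W.ab P * PI)) +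
          4 * (CG * K6 * (wv * (B1 + sE + B4 + K7 * sD))) := by
        have j1 := mul_le_mul_of_nonneg_left h12 hw
        have j2 := mul_le_mul_of_nonneg_left h11 hwv
        have e : W.w P * (2 * K5 * (W.ab P * PI) + 4 * (W.ab P * Dl) * W.v P) =
            2 * K5 * (W.w P * (W.ab P * PI)) + 4 * (wv * (W.ab P * Dl)) := by rw [hwvd]; ring
        rw [e] at j1
        linarith
      have h14 : C3 * K3 * (W.w P * (W.ab P * Mh)) ≤ a3 * sV + b3 * (wv * B1) +
          (c3 - K1 * (C3 * K3 + 1)) * (wv * T) := by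
        have j0 : 0 ≤ C3 * K3 := by positivity
        have j1 := mul_le_mul_of_nonneg_left h13 j0
        have j2 : C3 * K3 * (2 * K5) * (W.w P * (W.ab P * PI)) ≤
            C3 * K3 * (2 * K5) * (C4 * sV + CK4 * wv * (sE + sD)) :=
          mul_le_mul_of_nonneg_left h5 (by positivity)
        have j3 : C3 * K3 * (4 * (CG * K6)) * (wv * B4) ≤
            C3 * K3 * (4 * (CG * K6)) * (C4 * sV + CK4 * wv * (sE + sD)) :=
          mul_le_mul_of_nonneg_left h41 (by positivity)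
        have p1 : 0 ≤ C3 * K3 * (2 * K5) * CK4 * (wv * DT) := by positivity
        have p2 : 0 ≤ C3 * K3 * (4 * (CG * K6)) * CK4 * (wv * DT) := by positivity
        have p3 : 0 ≤ C3 * K3 * (4 * (CG * K6)) * K7 * (wv * (sE + DT)) := by positivity
        have p4 : 0 ≤ C3 * K3 * (4 * (CG * K6)) * (wv * (sD + DT)) := by positivity
        have e : a3 * sV + b3 * (wv * B1) + (c3 - K1 * (C3 * K3 + 1)) * (wv * T) -
            C3 * K3 * (2 * K5 * (W.w P * (W.ab P * PI)) +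
              4 * (CG * K6 * (wv * (B1 + sE + B4 + K7 * sD)))) =
            (C3 * K3 * (2 * K5) * (C4 * sV + CK4 * wv * (sE + sD)) -
              C3 * K3 * (2 * K5) * (W.w P * (W.ab P * PI))) +
            (C3 * K3 * (4 * (CG * K6)) * (C4 * sV + CK4 * wv * (sE + sD)) -
              C3 * K3 * (4 * (CG * K6)) * (wv * B4)) +
            C3 * K3 * (2 * K5) * CK4 * (wv * DT) + C3 * K3 * (4 * (CG * K6)) * CK4 * (wv * DT) +
            C3 * K3 * (4 * (CG * K6)) * K7 * (wv * (sE + DT)) +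
            C3 * K3 * (4 * (CG * K6)) * (wv * (sD + DT)) := by
          rw [ha3, hb3, hc3, hT]; ring
        linarith
      have h15 : W.w P * (at1 * Mh) ≤ a3 * sV + b3 * (wv * B1) + c3 * (wv * T) := by
        have e : c3 * (wv * T) = (c3 - K1 * (C3 * K3 + 1)) * (wv * T) +
            K1 * (C3 * K3 + 1) * (wv * T) := by ring
        linarith
      exact wrap h15 (by linarith) (by linarith) (by linarith) hsV0 hBw hTw
    · -- large gain
      have h5 := hP3'' E W hW3 P hA3 0 (2 * R0 - 1) (Nat.zero_le _) (by linarith)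
        (by rw [pow_zero]; linarith) (by
          rw [pow_zero]
          exact hg.le)
      rw [← hsV, ← hsDd, ← hwvd] at h5
      have h6 : W.w P * (W.ab P * Mh) ≤ K1 * (W.w P * W.v P * W.ab P) := by
        have := mul_le_mul_of_nonneg_left hwvM hab.le
        rw [hwvd] at this
        linarith
      rw [← hwvd] at h6
      have h7 : C3 * K3 * (W.w P * (W.ab P * Mh)) ≤ a2 * sV +
          K1 * (C3 * K3) * CK3 * (wv * T) := by
        have j0 : 0 ≤ C3 * K3 := by positivity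
        have j1 := mul_le_mul_of_nonneg_left h6 j0
        have j2 : K1 * (C3 * K3) * (wv * W.ab P) ≤
            K1 * (C3 * K3) * (C3p / i0 * sV + CK3 * wv * sD) :=
          mul_le_mul_of_nonneg_left h5 (by positivity)
        have p1 : 0 ≤ K1 * (C3 * K3) * CK3 * (wv * (sE + DT)) := by positivity
        have e : a2 * sV + K1 * (C3 * K3) * CK3 * (wv * T) =
            K1 * (C3 * K3) * (C3p / i0 * sV + CK3 * wv * sD) +
            K1 * (C3 * K3) * CK3 * (wv * (sE + DT)) := by rw [ha2, hT]; ring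
        linarith
      have h15 : W.w P * (at1 * Mh) ≤ a2 * sV + 0 * (wv * B1) + c2 * (wv * T) := by
        have e : c2 * (wv * T) = K1 * (C3 * K3) * CK3 * (wv * T) +
            K1 * (C3 * K3 + 1) * (wv * T) := by rw [hc2]; ring
        linarith
      exact wrap h15 (by linarith) (by linarith) (by linarith) hsV0 hBw hTw

end TG
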