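import Pool.Agent.TG.UUc
import Pool.Agent.TG.TA1t
import Pool.Agent.TG.GS
import Pool.Agent.TG.TFc
import Pool.Agent.TG.Stmts13

/-!
# Tools for WA7 and B4: moments of the height over two planes, distance of two planes   (helper15)
-/

open MeasureTheory Metric Set TrI Filter
open scoped InnerProductSpace ContDiff Topology

set_option linter.unusedSectionVars false

namespace TG

namespace WA7m

noncomputable section

variable {d : ℕ}

/-! ## Moments -/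

lemma Mo2_eq (μ : Measure (Sp d)) (n : Sp d) (s : ℝ) :
    Mo μ n s 2 1 0 = UUm.EE μ (fun η => MO.ht n s η ^ 2) 0 / vv μ 1 0 := by
  unfold Mo UUm.EE MO.K MO.ht
  congr 1
  congr 1
  funext η
  ring

lemma K_mul_le (η : Sp d) : (1 + ‖η‖ ^ 2) * MO.K 1 (0 - η) ≤ kk 1 (0 - η) := by
  have h0 : 0 ≤ kk 1 (0 - η) := by unfold kk; positivity
  have h1 : 1 ≤ 1 + ‖η‖ ^ 2 := by nlinarith [sq_nonneg ‖η‖]
  have h2 : (1 : ℝ) ^ 2 + ‖(0 : Sp d) - η‖ ^ 2 = 1 + ‖η‖ ^ 2 := by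
    rw [zero_sub, norm_neg]; ring
  unfold MO.K
  rw [h2, ← mul_div_assoc, div_le_iff₀ (by positivity)]
  nlinarith [mul_nonneg h0 (by nlinarith : (0 : ℝ) ≤ (1 + ‖η‖ ^ 2) * ‖η‖ ^ 2)]

section main

variable (h : StmtTH) (hd : 2 ≤ d) {C' : ℝ} (hC' : 0 < C') {μ : Measure (Sp d)} (hμ : Gro C' μ)

include h hd hC' hμ

lemma EE_upper {F : Sp d → ℝ} (hF0 : ∀ η, 0 ≤ F η) {n : Sp d} (hn : ‖n‖ = 1) {s a b : ℝ}
    (_ha : 0 ≤ a) (hb : 0 ≤ b) (hF : ∀ η, F η ≤ a * MO.ht n s η ^ 2 + b * (1 + ‖η‖ ^ 2)) :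
    UUm.EE μ F 0 ≤ a * UUm.EE μ (fun η => MO.ht n s η ^ 2) 0 + b * vv μ 1 0 ^ 2 := by
  have i1 := UUm.int_h2 h hd hC' hμ hn s 0
  have i2 := MO.kk_int h hd hC' hμ (r := 1) one_pos (0 : Sp d)
  have e1 : vv μ 1 0 ^ 2 = ∫ η, kk 1 (0 - η) ∂μ := by
    unfold vv
    rw [Real.sq_sqrt]
    · rfl
    · unfold th
      exact integral_nonneg fun η => by simp only [kk, Pi.zero_apply]; positivity
  rw [e1]
  unfold UUm.EE
  rw [← integral_const_mul, ← integral_const_mul, ← integral_add (i1.const_mul _) (i2.const_mul _)]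
  refine integral_mono_of_nonneg (Eventually.of_forall fun η =>
    mul_nonneg (hF0 η) (MO.K_pos one_pos _).le) ((i1.const_mul _).add (i2.const_mul _))
    (Eventually.of_forall fun η => ?_)
  have hK := (MO.K_pos one_pos (0 - η)).le
  have h1 := mul_le_mul_of_nonneg_right (hF η) hK
  have h2 := mul_le_mul_of_nonneg_left (K_mul_le η) hb
  nlinarith

/-- the second moment is bounded by the potential -/
lemma Mo_le {n : Sp d} (hn : ‖n‖ = 1) (s : ℝ) :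
    Mo μ n s 2 1 0 ≤ 2 * (1 + s ^ 2) * vv μ 1 0 := by
  obtain ⟨C, hC, hTH⟩ := MO.getTH h d 0 hd C' hC'
  have hv := (hTH μ hμ).vpos one_pos (0 : Sp d)
  have h1 := EE_upper h hd hC' hμ (F := fun η => MO.ht n s η ^ 2) (fun η => sq_nonneg _) hn
    (s := s) (a := 0) (b := 2 * (1 + s ^ 2)) le_rfl (by positivity) (fun η => by
      unfold MO.ht
      have e1 := abs_real_inner_le_norm η n
      rw [hn, mul_one] at e1
      have e2 : ⟪η, n⟫_ℝ ^ 2 ≤ ‖η‖ ^ 2 := by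
        rw [← sq_abs]; exact pow_le_pow_left₀ (abs_nonneg _) e1 2
      nlinarith [sq_nonneg (⟪η, n⟫_ℝ + s), mul_nonneg (sq_nonneg s) (sq_nonneg ‖η‖)])
  rw [Mo2_eq, div_le_iff₀ hv]
  nlinarith

/-- second moments over two planes -/
lemma Mo_two {n n' : Sp d} (hn' : ‖n'‖ = 1) (s s' : ℝ) {σ : ℝ} (hσ : σ = 1 ∨ σ = -1) :
    Mo μ n s 2 1 0 ≤ 2 * Mo μ n' s' 2 1 0 +
      4 * (‖n - σ • n'‖ ^ 2 + (s - σ * s') ^ 2) * vv μ 1 0 := by
  obtain ⟨C, hC, hTH⟩ := MO.getTH h d 0 hd C' hC'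
  have hv := (hTH μ hμ).vpos one_pos (0 : Sp d)
  have hσ2 : σ ^ 2 = 1 := by rcases hσ with rfl | rfl <;> norm_num
  have h1 := EE_upper h hd hC' hμ (F := fun η => MO.ht n s η ^ 2) (fun η => sq_nonneg _) hn'
    (s := s') (a := 2) (b := 4 * (‖n - σ • n'‖ ^ 2 + (s - σ * s') ^ 2)) (by norm_num)
    (by positivity) (fun η => by
      have e0 : MO.ht n s η = σ * MO.ht n' s' η + (⟪η, n - σ • n'⟫_ℝ - (s - σ * s')) := by
        unfold MO.ht
        rw [inner_sub_right, inner_smul_right]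
        ring
      have e1 := abs_real_inner_le_norm η (n - σ • n')
      have e2 : ⟪η, n - σ • n'⟫_ℝ ^ 2 ≤ (‖η‖ * ‖n - σ • n'‖) ^ 2 := by
        rw [← sq_abs]; exact pow_le_pow_left₀ (abs_nonneg _) e1 2
      rw [e0]
      have e3 : (σ * MO.ht n' s' η) ^ 2 = MO.ht n' s' η ^ 2 := by rw [mul_pow, hσ2, one_mul]
      have e4 : (σ * MO.ht n' s' η + (⟪η, n - σ • n'⟫_ℝ - (s - σ * s'))) ^ 2 ≤
          2 * (σ * MO.ht n' s' η) ^ 2 + 2 * (⟪η, n - σ • n'⟫_ℝ - (s - σ * s')) ^ 2 := by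
        nlinarith [sq_nonneg (σ * MO.ht n' s' η - (⟪η, n - σ • n'⟫_ℝ - (s - σ * s')))]
      have e5 : (⟪η, n - σ • n'⟫_ℝ - (s - σ * s')) ^ 2 ≤
          2 * ⟪η, n - σ • n'⟫_ℝ ^ 2 + 2 * (s - σ * s') ^ 2 := by
        nlinarith [sq_nonneg (⟪η, n - σ • n'⟫_ℝ + (s - σ * s'))]
      rw [e3] at e4
      have e6 : 0 ≤ ‖n - σ • n'‖ ^ 2 := sq_nonneg _
      have e7 : 0 ≤ (s - σ * s') ^ 2 * ‖η‖ ^ 2 := by positivity
      nlinarith)
  have h2 : UUm.EE μ (fun η => MO.ht n' s' η ^ 2) 0 = Mo μ n' s' 2 1 0 * vv μ 1 0 := by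
    rw [Mo2_eq]; field_simp
  rw [h2] at h1
  rw [Mo2_eq μ n s, div_le_iff₀ hv]
  nlinarith

end main

/-- on its plane, the second moment is bounded by the gain -/
lemma Mo_plane (h : StmtTH) (hWA : StmtWA) (hd : 2 ≤ d) {M C' ε R0 : ℝ} (hC' : 0 < C')
    (hε : 0 < ε) (hε1 : ε ≤ 1) (hR0 : 63 ≤ R0) : ∃ C : ℝ, 0 < C ∧ ∀ β : Sp d → ℝ, Kit 10 M β →
    ∀ μ : Measure (Sp d), Gro C' μ → ∀ (n : Sp d) (s : ℝ), ‖n‖ = 1 → |s| ≤ R0 / 2 →
      Mo μ n s 2 1 0 ≤ C * plInt n s (fun x => zR R0 x * XX β ε μ n 1 x) := by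
  obtain ⟨k, rfl⟩ : ∃ k, d = k + 1 := ⟨d - 1, by omega⟩
  obtain ⟨C, hC, hTH⟩ := MO.getTH h (k + 1) 0 hd C' hC'
  obtain ⟨C1, hC1, hW⟩ := hWA (k + 1) 0 hd M C' ε hC' hε hε1
  refine ⟨UUm.Ca k C ((R0 + 1) / 2) 1, ?_, ?_⟩
  · have hT0 := UUm.T0_pos
    have hsC := Real.sqrt_pos.2 hC
    have hCv : 0 < UUm.Cv (k + 1) C ((R0 + 1) / 2) := by unfold UUm.Cv; positivity
    have hvb := UUm.vb_pos k one_pos
    unfold UUm.Ca
    positivity
  intro β hβ μ hμ n s hn hs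
  have hT := hTH μ hμ
  have hv := hT.vpos one_pos (0 : Sp (k + 1))
  obtain ⟨-, -, -, -, hX⟩ := hW β (UUm.kit_mono (by omega) hβ) μ hμ
  obtain ⟨hXs, hX0, -⟩ := hX n hn
  have h1 := UUm.L_E h hd hC' hμ hC hT (R0 := (R0 + 1) / 2) (c := 1) (by linarith) one_pos hβ
    (ε := ε) hn (s := s) (by linarith) (H := XX β ε μ n 1) hXs.continuous
    hX0 (fun y => by rw [one_mul]) (y := 0)
    (by rw [norm_zero]; linarith)
  rw [show 2 * ((R0 + 1) / 2) - 1 = R0 by ring] at h1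
  rw [Mo2_eq, div_le_iff₀ hv]
  nlinarith

/-! ## Two planes -/

/-- squared distance of the plane (n, s) from the plane (n', s'), tangential part and height -/
def gg (n : Sp d) (s : ℝ) (n' : Sp d) (s' : ℝ) : ℝ := ‖tang n' n‖ ^ 2 + (s' * ⟪n', n⟫_ℝ - s) ^ 2

lemma gg_nonneg (n : Sp d) (s : ℝ) (n' : Sp d) (s' : ℝ) : 0 ≤ gg n s n' s' := by
  unfold gg; positivity

lemma inner_bd {n n' : Sp d} (hn : ‖n‖ = 1) (hn' : ‖n'‖ = 1) : |⟪n', n⟫_ℝ| ≤ 1 := by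
  have := abs_real_inner_le_norm n' n
  rwa [hn, hn', mul_one] at this

lemma tang_sq {n n' : Sp d} (hn : ‖n‖ = 1) (hn' : ‖n'‖ = 1) :
    ‖tang n' n‖ ^ 2 = 1 - ⟪n', n⟫_ℝ ^ 2 := by
  unfold tang
  rw [norm_sub_sq_real, hn, inner_smul_right, norm_smul, hn', mul_one, Real.norm_eq_abs, sq_abs,
    real_inner_comm n' n]
  ring

lemma gg_le {n n' : Sp d} (hn : ‖n‖ = 1) (hn' : ‖n'‖ = 1) {s s' S S' : ℝ} (hs : |s| ≤ S)
    (hs' : |s'| ≤ S') : gg n s n' s' ≤ 1 + (S + S') ^ 2 := by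
  unfold gg
  have h1 : ‖tang n' n‖ ^ 2 ≤ 1 := by rw [tang_sq hn hn']; nlinarith [sq_nonneg ⟪n', n⟫_ℝ]
  have h2 : |s' * ⟪n', n⟫_ℝ - s| ≤ S + S' := by
    refine (abs_sub _ _).trans ?_
    rw [abs_mul]
    have := inner_bd hn hn'
    nlinarith [abs_nonneg s', abs_nonneg ⟪n', n⟫_ℝ]
  have h3 : (s' * ⟪n', n⟫_ℝ - s) ^ 2 ≤ (S + S') ^ 2 := by
    rw [← sq_abs]; exact pow_le_pow_left₀ (abs_nonneg _) h2 2
  linarith

/-- the distance of the planes, up to a sign -/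
lemma dist_le {n n' : Sp d} (hn : ‖n‖ = 1) (hn' : ‖n'‖ = 1) {s s' S' : ℝ} (hs' : |s'| ≤ S') :
    ∃ σ : ℝ, (σ = 1 ∨ σ = -1) ∧
      ‖n - σ • n'‖ ^ 2 + (s - σ * s') ^ 2 ≤ (2 + 2 * S' ^ 2) * gg n s n' s' := by
  have hS' : 0 ≤ S' := (abs_nonneg _).trans hs'
  obtain ⟨σ, hσ, hσ0⟩ : ∃ σ : ℝ, (σ = 1 ∨ σ = -1) ∧ 0 ≤ σ * ⟪n', n⟫_ℝ := by
    rcases le_total 0 ⟪n', n⟫_ℝ with h1 | h1
    · exact ⟨1, Or.inl rfl, by linarith⟩
    · exact ⟨-1, Or.inr rfl, by linarith⟩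
  have hσ2 : σ ^ 2 = 1 := by rcases hσ with rfl | rfl <;> norm_num
  have hσa : |σ| = 1 := by rcases hσ with rfl | rfl <;> simp
  refine ⟨σ, hσ, ?_⟩
  obtain ⟨g, hg⟩ : ∃ g : ℝ, g = σ * ⟪n', n⟫_ℝ := ⟨_, rfl⟩
  rw [← hg] at hσ0
  have hg1 : g ≤ 1 := by
    refine (le_abs_self g).trans ?_
    rw [hg, abs_mul, hσa, one_mul]
    exact inner_bd hn hn'
  have hgi : ⟪n', n⟫_ℝ = σ * g := by rw [hg, ← mul_assoc, ← sq, hσ2, one_mul]
  have h1 : ‖n - σ • n'‖ ^ 2 = 2 - 2 * g := by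
    rw [norm_sub_sq_real, hn, inner_smul_right, norm_smul, hn', mul_one, Real.norm_eq_abs, hσa,
      real_inner_comm n' n, hg]
    ring
  have h2 : ‖tang n' n‖ ^ 2 = 1 - g ^ 2 := by
    rw [tang_sq hn hn', hgi, mul_pow, hσ2, one_mul]
  have h3 : (s - σ * s') ^ 2 ≤ 2 * (s' * ⟪n', n⟫_ℝ - s) ^ 2 + 2 * (S' ^ 2 * (1 - g ^ 2)) := by
    have e1 : s - σ * s' = -(s' * ⟪n', n⟫_ℝ - s) + σ * s' * (g - 1) := by rw [hgi]; ring
    have e2 : (σ * s' * (g - 1)) ^ 2 ≤ S' ^ 2 * (1 - g ^ 2) := by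
      have e3 : s' ^ 2 ≤ S' ^ 2 := by
        rw [← sq_abs]; exact pow_le_pow_left₀ (abs_nonneg _) hs' 2
      have e4 : (σ * s' * (g - 1)) ^ 2 = s' ^ 2 * (1 - g) ^ 2 := by
        rw [mul_pow, mul_pow, hσ2]; ring
      rw [e4]
      exact mul_le_mul e3 (by nlinarith) (sq_nonneg _) (sq_nonneg _)
    rw [e1]
    nlinarith [sq_nonneg ((s' * ⟪n', n⟫_ℝ - s) + σ * s' * (g - 1))]
  unfold gg
  rw [h1, h2]
  have h4 : 0 ≤ S' ^ 2 * (s' * ⟪n', n⟫_ℝ - s) ^ 2 := by positivity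
  nlinarith

/-- the height over the second plane, on the first plane -/
lemma hgt_plane {n n' : Sp d} (s : ℝ) {s' : ℝ} {y : Sp d} (hy : ⟪n', y⟫_ℝ = s') :
    hgt n s y = (s' * ⟪n', n⟫_ℝ - s) + ⟪tang n' n, y⟫_ℝ := by
  unfold hgt tang
  rw [inner_sub_left, inner_smul_left, hy]
  simp only [conj_trivial]
  ring

/-- lower bound of the height over the second plane -/
lemma plane_low {R0 : ℝ} (hR0 : 12 ≤ R0) (hd : 1 ≤ d) : ∃ c : ℝ, 0 < c ∧
    ∀ (n n' : Sp d) (s s' : ℝ), ‖n'‖ = 1 → |s'| ≤ R0 / 2 →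
      c * gg n s n' s' ≤ plInt n' s' (fun y => zR R0 y * hgt n s y ^ 2) := by
  obtain ⟨k, rfl⟩ : ∃ k, d = k + 1 := ⟨d - 1, by omega⟩
  refine ⟨UUm.vb k 2, UUm.vb_pos k (by norm_num), fun n n' s s' hn' hs' => ?_⟩
  set w := tang n' n with hw
  set h0 := s' * ⟪n', n⟫_ℝ - s with hh0
  have hwn : ⟪n', w⟫_ℝ = 0 := by
    rw [hw]; unfold tang
    rw [inner_sub_right, inner_smul_right, real_inner_self_eq_norm_sq, hn']; ring
  obtain ⟨σ, hσ, hσ0⟩ : ∃ σ : ℝ, |σ| = 1 ∧ σ * h0 = |h0| := by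
    rcases le_total 0 h0 with h1 | h1
    · exact ⟨1, abs_one, by rw [abs_of_nonneg h1, one_mul]⟩
    · exact ⟨-1, by simp, by rw [abs_of_nonpos h1]; ring⟩
  have hσ2 : σ ^ 2 = 1 := by rw [← sq_abs, hσ, one_pow]
  set u : Sp (k + 1) := (‖w‖⁻¹) • w with hu
  have hun : ‖u‖ ≤ 1 := by
    rw [hu, norm_smul, norm_inv, norm_norm]
    exact inv_mul_le_one
  have hwu : ⟪w, u⟫_ℝ = ‖w‖ := by
    rw [hu, inner_smul_right, real_inner_self_eq_norm_sq]
    rcases eq_or_ne ‖w‖ 0 with h1 | h1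
    · rw [h1]; simp
    · field_simp
  have hx : ⟪n', s' • n' + (4 * σ) • u⟫_ℝ = s' := by
    rw [inner_add_right, inner_smul_right, inner_smul_right, hu, inner_smul_right, hwn,
      real_inner_self_eq_norm_sq, hn']
    ring
  have hcont : Continuous (fun y : Sp (k + 1) => zR R0 y * hgt n s y ^ 2) := by
    refine (UUm.zR_cont R0).mul ?_
    unfold hgt
    fun_prop
  have := UUm.pl_lower k hn' (s := s') (F := fun y => zR R0 y * hgt n s y ^ 2) hcont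
    ((UUm.zR_cs _).mul_right) (fun y => mul_nonneg (UUm.zR_nonneg _ _) (sq_nonneg _))
    (x := s' • n' + (4 * σ) • u) hx (r := 2) (κ := gg n s n' s') (fun y hy hyx => by
      have e1 : ‖s' • n' + (4 * σ) • u‖ ≤ R0 / 2 + 4 := by
        refine (norm_add_le _ _).trans ?_
        rw [norm_smul, norm_smul, hn', mul_one, Real.norm_eq_abs, Real.norm_eq_abs, abs_mul, hσ,
          mul_one, abs_of_pos (by norm_num : (0 : ℝ) < 4)]
        linarith
      have e2 : ‖y‖ ≤ R0 := by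
        have h1 := norm_add_le (y - (s' • n' + (4 * σ) • u)) (s' • n' + (4 * σ) • u)
        rw [sub_add_cancel] at h1
        linarith
      rw [UUm.zR_one e2, one_mul, hgt_plane s hy, ← hw, ← hh0]
      have e3 : ⟪w, y⟫_ℝ = ⟪w, y - (s' • n' + (4 * σ) • u)⟫_ℝ + 4 * σ * ‖w‖ := by
        rw [inner_sub_right, inner_add_right, inner_smul_right, inner_smul_right, hwu,
          real_inner_comm n' w, hwn]
        ring
      have e4 : |⟪w, y - (s' • n' + (4 * σ) • u)⟫_ℝ| ≤ 2 * ‖w‖ := by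
        refine (abs_real_inner_le_norm _ _).trans ?_
        nlinarith [norm_nonneg w]
      set q := ⟪w, y - (s' • n' + (4 * σ) • u)⟫_ℝ with hq
      have e5 : |h0| + 2 * ‖w‖ ≤ σ * (h0 + ⟪w, y⟫_ℝ) := by
        have e6 : σ * (h0 + ⟪w, y⟫_ℝ) = |h0| + σ * q + 4 * σ ^ 2 * ‖w‖ := by
          rw [e3, mul_add, hσ0]; ring
        have e7 : -(2 * ‖w‖) ≤ σ * q := by
          have e8 : |σ * q| ≤ 2 * ‖w‖ := by rw [abs_mul, hσ, one_mul]; exact e4
          linarith [neg_abs_le (σ * q)]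
        rw [e6, hσ2]
        linarith
      have e9 : (|h0| + 2 * ‖w‖) ^ 2 ≤ (h0 + ⟪w, y⟫_ℝ) ^ 2 := by
        have := pow_le_pow_left₀ (by positivity) e5 2
        rwa [mul_pow, hσ2, one_mul] at this
      refine le_trans ?_ e9
      unfold gg
      rw [← hw, ← hh0]
      nlinarith [sq_abs h0, abs_nonneg h0, norm_nonneg w, mul_nonneg (abs_nonneg h0) (norm_nonneg w),
        sq_nonneg ‖w‖])
  rw [mul_comm]
  exact this

/-! ## Test functions -/

lemma fderiv_hgt (n : Sp d) (s : ℝ) : fderiv ℝ (hgt n s) = fun _ => innerSL ℝ n := by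
  funext z
  have h2 : HasFDerivAt (hgt n s) (innerSL ℝ n) z := by
    unfold hgt
    exact ((innerSL ℝ n).hasFDerivAt (x := z)).sub_const s
  exact h2.fderiv

lemma hgt_smooth (n : Sp d) (s : ℝ) {k : WithTop ℕ∞} : ContDiff ℝ k (hgt n s) :=
  TU.ht_smooth n s

/-- tangential derivatives of the height -/
lemma TDb_hgt {J : ℕ} {n n' : Sp d} {s s' ρ : ℝ} {y : Sp d}
    (hy : ⟪n', y⟫_ℝ = s') (hyρ : ‖y‖ ≤ ρ) :
    TA1m.TDb J n' ((ρ + 1) * Real.sqrt (gg n s n' s')) (hgt n s) y := by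
  have hρ : 0 ≤ ρ := (norm_nonneg _).trans hyρ
  have hg := gg_nonneg n s n' s'
  set G := Real.sqrt (gg n s n' s') with hG
  have hG0 : 0 ≤ G := Real.sqrt_nonneg _
  have hw : ‖tang n' n‖ ≤ G := by
    rw [hG]
    refine Real.le_sqrt_of_sq_le ?_
    unfold gg
    linarith [sq_nonneg (s' * ⟪n', n⟫_ℝ - s)]
  have hh : |s' * ⟪n', n⟫_ℝ - s| ≤ G := by
    rw [hG]
    refine Real.le_sqrt_of_sq_le ?_
    unfold gg
    rw [sq_abs]
    linarith [sq_nonneg ‖tang n' n‖]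
  intro j _ h h0 h1
  rcases j with _ | _ | j
  · rw [iteratedFDeriv_zero_apply, hgt_plane s hy]
    refine (abs_add_le _ _).trans ?_
    have e1 := abs_real_inner_le_norm (tang n' n) y
    nlinarith [norm_nonneg y, norm_nonneg (tang n' n)]
  · have e0 : iteratedFDeriv ℝ (0 + 1) (hgt n s) y h = fderiv ℝ (hgt n s) y (h 0) :=
      iteratedFDeriv_one_apply h
    rw [e0, fderiv_hgt]
    have e1 : (innerSL ℝ n) (h 0) = ⟪tang n' n, h 0⟫_ℝ := by
      unfold tang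
      rw [inner_sub_left, inner_smul_left, h0 0, mul_zero, sub_zero]
      rfl
    rw [e1]
    refine (abs_real_inner_le_norm _ _).trans ?_
    have := h1 0
    nlinarith [norm_nonneg (h 0), norm_nonneg (tang n' n)]
  · have e1 : iteratedFDeriv ℝ (j + 2) (hgt n s) y = 0 := by
      rw [← norm_eq_zero, show j + 2 = (j + 1) + 1 from rfl, ← norm_iteratedFDeriv_fderiv,
        fderiv_hgt, iteratedFDeriv_const_of_ne (Nat.succ_ne_zero j)]
      simp
    have e2 : iteratedFDeriv ℝ (j + 1 + 1) (hgt n s) y h = 0 := by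
      have e3 : iteratedFDeriv ℝ (j + 1 + 1) (hgt n s) y = 0 := e1
      rw [e3]; rfl
    rw [e2, abs_zero]
    positivity

/-- tangential bounds of the cut-off times the squared height -/
lemma TB_h2 (d J : ℕ) {R0 : ℝ} (hR0 : 0 < R0) (G : ℝ) : ∃ CN : ℝ, 0 < CN ∧
    ∀ (n n' : Sp d) (s s' : ℝ), ‖n‖ = 1 → ‖n'‖ = 1 → gg n s n' s' ≤ G →
      TB J n' s' (CN * Real.sqrt (gg n s n' s')) (fun y => zR R0 y * hgt n s y ^ 2) := by
  obtain ⟨N0, hN0, hφ⟩ := TC.zR_cb d (J + 1) hR0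
  set a : ℝ := R0 + 3 with ha
  have ha0 : 0 < a := by linarith
  refine ⟨2 ^ J * (N0 * (2 * a)) + 2 ^ J * (N0 * (2 ^ J * (a ^ 2 * Real.sqrt |G|))) + 1, by positivity, ?_⟩
  intro n n' s s' hn hn' hG
  set g := gg n s n' s' with hg
  have hg0 : 0 ≤ g := gg_nonneg n s n' s'
  set q := Real.sqrt g with hq
  have hq0 : 0 ≤ q := Real.sqrt_nonneg _
  have hqG : q ≤ Real.sqrt |G| := Real.sqrt_le_sqrt (hG.trans (le_abs_self G))
  have hγ : |⟪n, n'⟫_ℝ| ≤ 1 := inner_bd hn' hn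
  set A : ℝ := 2 ^ J * (N0 * (2 * a)) with hA
  set B : ℝ := 2 ^ J * (N0 * (2 ^ J * (a ^ 2 * Real.sqrt |G|))) with hB
  have hA0 : 0 ≤ A := by positivity
  have hB0 : 0 ≤ B := by positivity
  have sφ : ContDiff ℝ ((J + 1 : ℕ) : WithTop ℕ∞) (zR R0 : Sp d → ℝ) := hφ.smooth
  have sℓ : ∀ k : WithTop ℕ∞, ContDiff ℝ k (hgt n s) := fun k => hgt_smooth n s
  have hder : (fun x => fderiv ℝ (fun y => zR R0 y * hgt n s y ^ 2) x n') =
      fun x => zR R0 x * ((2 * ⟪n, n'⟫_ℝ) * hgt n s x) +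
        (fderiv ℝ (zR R0) x n') * (hgt n s x * hgt n s x) := by
    funext x
    have e1 : HasFDerivAt (zR R0 : Sp d → ℝ) (fderiv ℝ (zR R0) x) x :=
      (sφ.differentiable (by norm_num)).differentiableAt.hasFDerivAt
    have e2 : HasFDerivAt (hgt n s) (innerSL ℝ n) x := by
      have := ((sℓ 1).differentiable (by norm_num)).differentiableAt.hasFDerivAt (x := x)
      rwa [fderiv_hgt] at this
    have e3 : HasFDerivAt (fun y => zR R0 y * hgt n s y ^ 2)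
        (zR R0 x • (2 • hgt n s x ^ (2 - 1)) • (innerSL ℝ) n + hgt n s x ^ 2 •
          fderiv ℝ (zR R0) x) x := e1.mul (e2.pow 2)
    rw [e3.fderiv]
    simp only [_root_.add_apply, _root_.smul_apply, smul_eq_mul, innerSL_apply_apply]
    ring
  refine TA1m.TB_of_TDb fun y hy => ?_
  rw [hder]
  by_cases hyR : ‖y‖ ≤ R0 + 2
  · have hℓ : TA1m.TDb J n' (a * q) (hgt n s) y := by
      have := TDb_hgt (J := J) (n := n) (s := s) hy hyR
      rwa [show R0 + 2 + 1 = a by rw [ha]; ring] at this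
    have hφ1 : TA1m.TDb J n' N0 (zR R0) y :=
      TA1m.TDb.of_full fun j hj => hφ.bd j (by omega) y
    have hφ2 : TA1m.TDb J n' N0 (fun x => fderiv ℝ (zR R0) x n') y :=
      TA1m.TDb.of_full fun j hj => by
        have := (hφ.fderiv_apply n').bd j hj y
        rwa [hn', one_mul] at this
    have sJ : ContDiff ℝ (J : WithTop ℕ∞) (zR R0 : Sp d → ℝ) :=
      sφ.of_le (by exact_mod_cast Nat.le_succ J)
    have hℓ2 := hℓ.mul (sℓ J) (sℓ J) hℓ
    have haa : 2 ^ J * (a * q * (a * q)) ≤ 2 ^ J * (a ^ 2 * Real.sqrt |G|) * q := by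
      have : a * q * (a * q) ≤ a ^ 2 * Real.sqrt |G| * q := by
        have e1 : q * q ≤ Real.sqrt |G| * q := mul_le_mul_of_nonneg_right hqG hq0
        nlinarith [sq_nonneg a]
      nlinarith [pow_pos (by norm_num : (0 : ℝ) < 2) J]
    have sℓ2 : ContDiff ℝ (J : WithTop ℕ∞) (fun x => hgt n s x * hgt n s x) := (sℓ J).mul (sℓ J)
    have hℓ2' := hℓ2.mono haa
    have sφ2 : ContDiff ℝ (J : WithTop ℕ∞) (fun x => fderiv ℝ (zR R0) x n') :=
      (hφ.fderiv_apply n').smooth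
    constructor
    · have h1 := hφ1.mul sJ sℓ2 hℓ2'
      have h2 : (fun y => zR R0 y * hgt n s y ^ 2) = fun x => zR R0 x * (hgt n s x * hgt n s x) := by
        funext x; ring
      rw [h2]
      refine h1.mono ?_
      have : 2 ^ J * (N0 * (2 ^ J * (a ^ 2 * Real.sqrt |G|) * q)) = B * q := by rw [hB]; ring
      rw [this]
      nlinarith
    · have h1 := hφ1.mul sJ (contDiff_const.mul (sℓ J)) (hℓ.const_mul (sℓ J) (2 * ⟪n, n'⟫_ℝ))
      have h2 := hφ2.mul sφ2 sℓ2 hℓ2'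
      have h3 := TA1m.TDb.add (sJ.mul (contDiff_const.mul (sℓ J))) (sφ2.mul sℓ2) h1 h2
      refine h3.mono ?_
      have e1 : 2 ^ J * (N0 * (2 ^ J * (a ^ 2 * Real.sqrt |G|) * q)) = B * q := by rw [hB]; ring
      have e2 : 2 ^ J * (N0 * (|2 * ⟪n, n'⟫_ℝ| * (a * q))) ≤ A * q := by
        have e3 : |2 * ⟪n, n'⟫_ℝ| ≤ 2 := by
          rw [abs_mul, abs_of_pos (by norm_num : (0 : ℝ) < 2)]; linarith
        have e4 : |2 * ⟪n, n'⟫_ℝ| * (a * q) ≤ 2 * (a * q) :=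
          mul_le_mul_of_nonneg_right e3 (by positivity)
        calc 2 ^ J * (N0 * (|2 * ⟪n, n'⟫_ℝ| * (a * q))) ≤ 2 ^ J * (N0 * (2 * (a * q))) := by gcongr
          _ = A * q := by rw [hA]; ring
      rw [e1]
      nlinarith
  · have hC : 0 ≤ (A + B + 1) * q := by positivity
    have hev : ∀ᶠ z in 𝓝 y, zR R0 z = 0 := by
      have : ∀ᶠ z in 𝓝 y, R0 + 1 < ‖z‖ :=
        continuous_norm.continuousAt.eventually_const_lt (by linarith)
      filter_upwards [this] with z hz using TC.zR_zero hz.le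
    constructor
    · refine TA1m.TDb.of_ev ?_ hC
      filter_upwards [hev] with z hz
      rw [hz, zero_mul]
    · refine TA1m.TDb.of_ev ?_ hC
      filter_upwards [hev.eventually_nhds] with z hz
      have h1 : (zR R0 : Sp d → ℝ) =ᶠ[𝓝 z] fun _ => 0 := hz
      rw [h1.fderiv_eq, hz.self_of_nhds]
      simp

/-! ## Positivity -/

/-- integrability of the off-sheet integrand -/
lemma int_blc {m : Sp d → ℝ} (hm : Continuous m) (n : Sp d) (s : ℝ) {r : ℝ} (hr : 0 < r) :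
    Integrable (fun y => m y * (zR r y * hgt n s y ^ 2)) := by
  have hc : Continuous (fun y => m y * (zR r y * hgt n s y ^ 2)) := by
    have := (TU.zR_smooth (d := d) hr).continuous
    unfold hgt
    fun_prop
  refine hc.integrable_of_hasCompactSupport ?_
  exact ((TU.zR_cs r).mul_right).mul_left

lemma int_zR {m : Sp d → ℝ} (hm : Continuous m) {r : ℝ} (hr : 0 < r) :
    Integrable (fun y => m y * zR r y) := by
  have hc : Continuous (fun y => m y * zR r y) :=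
    hm.mul (TU.zR_smooth (d := d) hr).continuous
  exact hc.integrable_of_hasCompactSupport (TU.zR_cs r).mul_left

/-- the off-sheet mass is monotone in the radius up to the defect -/
lemma blc_le (d : ℕ) {r r' : ℝ} (hr : 0 < r) (hrr : r ≤ r') (S : ℝ) : ∃ K : ℝ, 0 < K ∧
    ∀ (m : Sp d → ℝ) (n : Sp d) (s Rz D : ℝ), Continuous m → ‖n‖ = 1 → |s| ≤ S →
      r' + 1 ≤ Rz → ZP Rz D m → blc n s m r ≤ blc n s m r' + K * D := by
  obtain ⟨N1, hN1, h1⟩ := TC.ht2z_cb d 2 hr S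
  obtain ⟨N2, hN2, h2⟩ := TC.ht2z_cb d 2 (hr.trans_le hrr) S
  refine ⟨N2 + N1, by positivity, fun m n s Rz D hm hn hs hR hZ => ?_⟩
  have h3 := (h2 n s hn.le hs).sub (h1 n s hn.le hs)
  have h4 := GSAux.ZP' hZ h3.tfn (fun y => by
    have e1 : zR r y ≤ zR r' y := Real.smoothTransition.monotone (by linarith)
    have e2 : (0 : ℝ) ≤ ht n s y ^ 2 := sq_nonneg _
    nlinarith) (fun y hy => by
    rw [TU.zR_zero (by linarith : r' + 1 ≤ ‖y‖), TU.zR_zero (by linarith : r + 1 ≤ ‖y‖)]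
    ring)
  have h5 : ∫ y, m y * (zR r' y * ht n s y ^ 2 - zR r y * ht n s y ^ 2) =
      blc n s m r' - blc n s m r := by
    unfold blc
    rw [← integral_sub (int_blc hm n s (hr.trans_le hrr)) (int_blc hm n s hr)]
    congr 1
    ext y
    simp only [ht, hgt]
    ring
  rw [h5] at h4
  linarith

/-- if the plane is far then the mass is off-sheet -/
lemma mass_far (d : ℕ) {r R' : ℝ} (hr : 0 < r) (S : ℝ) (hR' : r + 1 ≤ R') :
    ∃ K : ℝ, 0 < K ∧ ∀ (m : Sp d → ℝ) (n : Sp d) (s Rz D : ℝ), Continuous m → ‖n‖ = 1 → |s| ≤ S →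
      r + 2 ≤ |s| → R' + 1 ≤ Rz → ZP Rz D m → ∫ y, m y * zR r y ≤ blc n s m R' + K * D := by
  obtain ⟨N1, hN1, h1⟩ := TC.zR_cb d 2 hr
  obtain ⟨N2, hN2, h2⟩ := TC.ht2z_cb d 2 (R := R') (by linarith) S
  refine ⟨N2 + N1, by positivity, fun m n s Rz D hm hn hs hsr hR hZ => ?_⟩
  have h3 := (h2 n s hn.le hs).sub h1
  have h4 := GSAux.ZP' hZ h3.tfn (fun y => by
    by_cases hy : r + 1 ≤ ‖y‖
    · rw [TU.zR_zero hy]
      have := TU.zR_nonneg R' y
      have e2 : (0 : ℝ) ≤ ht n s y ^ 2 := sq_nonneg _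
      nlinarith
    · rw [not_le] at hy
      rw [TU.zR_one (by linarith : ‖y‖ ≤ R')]
      have e1 := TU.zR_le_one r y
      have e3 : 1 ≤ |ht n s y| := by
        unfold ht
        have e4 := abs_real_inner_le_norm n y
        rw [hn, one_mul] at e4
        have e5 := abs_sub_abs_le_abs_sub s ⟪n, y⟫_ℝ
        rw [abs_sub_comm] at e5
        linarith
      have e6 : 1 ≤ ht n s y ^ 2 := by
        rw [← sq_abs]; nlinarith
      linarith) (fun y hy => by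
    rw [TU.zR_zero (by linarith : R' + 1 ≤ ‖y‖), TU.zR_zero (by linarith : r + 1 ≤ ‖y‖)]
    ring)
  have h5 : ∫ y, m y * (zR R' y * ht n s y ^ 2 - zR r y) =
      blc n s m R' - ∫ y, m y * zR r y := by
    unfold blc
    rw [← integral_sub (int_blc hm n s (by linarith)) (int_zR hm hr)]
    congr 1
    ext y
    simp only [ht, hgt]
    ring
  rw [h5] at h4
  linarith

/-! ## The sheet -/

/-- the mass in the ball r is bounded by the density of the sheet -/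
lemma mass_sheet (hPF : StmtPF) (d J : ℕ) (hd : 1 ≤ d) {r R S : ℝ} (hr : 0 < r) (hrR : r + 2 ≤ R) :
    ∃ K : ℝ, 0 < K ∧ ∀ (m : Sp d → ℝ) (n : Sp d) (s Rz D ab er dl κ : ℝ), Continuous m →
      |s| ≤ S → R + 1 ≤ Rz → 0 ≤ D → ZP Rz D m → 0 ≤ dl → κ ≤ 1 →
      Sheet J R ab er dl m n s → blc n s m R ≤ er → er ≤ κ * ab → dl ≤ κ * ab →
      ∫ y, m y * zR r y ≤ K * ab + K * D := by
  obtain ⟨N1, hN1, h1⟩ := TC.zR_cb d (J + 2) hr
  obtain ⟨CP, hCP, hP⟩ := (hPF d hd).1 (r + 1)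
  obtain ⟨K1, hK1, hb⟩ := blc_le d (r := r + 2) (r' := R) (by linarith) hrR S
  refine ⟨CP + 4 * N1 + N1 * K1, by positivity, ?_⟩
  intro m n s Rz D ab er dl κ hm hs hR hD hZ hdl hκ hS hbl her hdle
  have h2 := hS.est (zR r) (r + 1) N1 N1 (by exact_mod_cast h1.smooth) (by linarith)
    (by linarith) (fun y hy => TU.zR_zero hy) (GSAux.TB_of_TFn h1.tfn hS.n1 s)
    (fun y => h1.bd 2 (by omega) y)
  rw [show r + 1 + 1 = r + 2 by ring] at h2
  have h3 := hb m n s Rz D hm hS.n1 hs hR hZ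
  have h4 := hP n hS.n1 (zR r) 1 (TU.zR_smooth hr).continuous (fun y => by
    rw [abs_of_nonneg (TU.zR_nonneg _ _)]; exact TU.zR_le_one _ _) (fun y hy => by
      have e1 : ‖y‖ < r + 1 := by
        by_contra h1
        exact hy (TU.zR_zero (not_lt.1 h1))
      exact (PF.norm_tang_le hS.n1 y).trans e1.le) s
  have h5 := (abs_le.1 h2).2
  have h6 := le_trans (le_abs_self _) h4
  have hab := hS.ab0
  have h7 : ab * plInt n s (zR r) ≤ CP * ab := by nlinarith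
  have h8 : κ * ab ≤ ab := by nlinarith
  have h9 : N1 * blc n s m (r + 2) ≤ N1 * (ab + K1 * D) := by
    refine mul_le_mul_of_nonneg_left ?_ hN1.le
    linarith
  have h10 : er * N1 ≤ ab * N1 := mul_le_mul_of_nonneg_right (by linarith) hN1.le
  have h11 : (N1 + N1) * dl ≤ (N1 + N1) * ab := mul_le_mul_of_nonneg_left (by linarith) (by linarith)
  have h12 : 0 ≤ (CP + 4 * N1) * D := by positivity
  have h13 : 0 ≤ N1 * K1 * ab := by positivity
  nlinarith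

/-- the sheet is close to every plane with small off-sheet mass -/
lemma sheet_gg (d J : ℕ) (hd : 1 ≤ d) {R0 R S : ℝ} (hR0 : 12 ≤ R0) (hR : R0 + 2 ≤ R) :
    ∃ K : ℝ, 0 < K ∧ ∀ (m : Sp d → ℝ) (n n' : Sp d) (s s' ab er dl : ℝ),
      ‖n‖ = 1 → |s| ≤ S → |s'| ≤ R0 / 2 → 0 ≤ dl → Sheet J R ab er dl m n' s' →
      ab * gg n s n' s' ≤ K * (max 0 (blc n s m R0) + er ^ 2 / ab +
        max 0 (blc n' s' m (R0 + 2)) + dl) := by
  obtain ⟨c, hc, hlow⟩ := plane_low (d := d) hR0 hd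
  obtain ⟨CN, hCN, hTB⟩ := TB_h2 d J (R0 := R0) (by linarith) (1 + (S + R0 / 2) ^ 2)
  obtain ⟨N2, hN2, h2⟩ := TC.ht2z_cb d (J + 2) (R := R0) (by linarith) S
  set G : ℝ := 1 + (S + R0 / 2) ^ 2 with hG
  have hG1 : 1 ≤ G := by rw [hG]; nlinarith [sq_nonneg (S + R0 / 2)]
  refine ⟨2 / c * (1 + CN ^ 2 / (2 * c) + N2 + (CN * Real.sqrt G + N2)), by positivity, ?_⟩
  intro m n n' s s' ab er dl hn hs hs' hdl hS
  have hn' := hS.n1
  have hab := hS.ab0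
  have her := hS.ep0
  have hg := gg_nonneg n s n' s'
  have hgG := gg_le hn hn' hs hs'
  rw [← hG] at hgG
  have h3 := hlow n n' s s' hn' hs'
  have h4 := hS.est (fun y => zR R0 y * hgt n s y ^ 2) (R0 + 1)
    (CN * Real.sqrt (gg n s n' s')) N2 (by exact_mod_cast (h2 n s hn.le hs).smooth) (by linarith)
    (by linarith) (fun y hy => by simp only [TU.zR_zero hy, zero_mul]) (hTB n n' s s' hn hn' hgG)
    (fun y => (h2 n s hn.le hs).bd 2 (by omega) y)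
  rw [show R0 + 1 + 1 = R0 + 2 by ring] at h4
  have h5 := (abs_le.1 h4).1
  have e0 : (∫ y, m y * (zR R0 y * hgt n s y ^ 2)) = blc n s m R0 := rfl
  rw [e0] at h5
  set g := gg n s n' s' with hgd
  set q := Real.sqrt g with hq
  have hq0 : 0 ≤ q := Real.sqrt_nonneg _
  have hqq : q ^ 2 = g := Real.sq_sqrt hg
  have hqG : q ≤ Real.sqrt G := Real.sqrt_le_sqrt hgG
  have h6 : ab * (c * g) ≤ ab * plInt n' s' (fun y => zR R0 y * hgt n s y ^ 2) :=
    mul_le_mul_of_nonneg_left h3 hab.le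
  have h7 : N2 * blc n' s' m (R0 + 2) ≤ N2 * max 0 (blc n' s' m (R0 + 2)) :=
    mul_le_mul_of_nonneg_left (le_max_right _ _) hN2.le
  have h8 : (CN * q + N2) * dl ≤ (CN * Real.sqrt G + N2) * dl := by
    refine mul_le_mul_of_nonneg_right ?_ hdl
    nlinarith
  have h9 : er * (CN * q) ≤ c / 2 * (ab * g) + CN ^ 2 / (2 * c) * (er ^ 2 / ab) := by
    have e1 : c / 2 * (ab * g) + CN ^ 2 / (2 * c) * (er ^ 2 / ab) - er * (CN * q) =
        c * ab / 2 * (q - CN * er / (c * ab)) ^ 2 := by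
      rw [← hqq]; field_simp; ring
    have e2 : 0 ≤ c * ab / 2 * (q - CN * er / (c * ab)) ^ 2 := by positivity
    linarith
  have h10 : blc n s m R0 ≤ max 0 (blc n s m R0) := le_max_right _ _
  set B1 := max 0 (blc n s m R0) with hB1
  set B2 := max 0 (blc n' s' m (R0 + 2)) with hB2
  have hB1n : 0 ≤ B1 := le_max_left _ _
  have hB2n : 0 ≤ B2 := le_max_left _ _
  set E := er ^ 2 / ab with hE
  have hEn : 0 ≤ E := by positivity
  have hsG : 0 ≤ Real.sqrt G := Real.sqrt_nonneg _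
  have h11 : c / 2 * (ab * g) ≤ B1 + CN ^ 2 / (2 * c) * E + N2 * B2 +
      (CN * Real.sqrt G + N2) * dl := by linarith
  have hT : c / 2 * (ab * g) ≤ (1 + CN ^ 2 / (2 * c) + N2 + (CN * Real.sqrt G + N2)) *
      (B1 + E + B2 + dl) := by
    have t1 : 0 ≤ CN ^ 2 / (2 * c) := by positivity
    have t2 : 0 ≤ CN * Real.sqrt G := by positivity
    have p1 : 0 ≤ (CN ^ 2 / (2 * c) + N2 + (CN * Real.sqrt G + N2)) * B1 := by positivity
    have p2 : 0 ≤ (1 + N2 + (CN * Real.sqrt G + N2)) * E := by positivity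
    have p3 : 0 ≤ (1 + CN ^ 2 / (2 * c) + (CN * Real.sqrt G + N2)) * B2 := by positivity
    have p4 : 0 ≤ (1 + CN ^ 2 / (2 * c) + N2) * dl := by positivity
    nlinarith
  have hF : ab * g = 2 / c * (c / 2 * (ab * g)) := by field_simp
  rw [hF, mul_assoc]
  exact mul_le_mul_of_nonneg_left hT (by positivity)

end

end WA7m

end TG
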