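import Pool.Agent.TG.WBE

/-!
# The sharp derivative bounds, parts (iii) and (iv) (MP_287c87_an, module WB)

`X13` is the average of `β(z) (a + b ⟪n,z⟫ + c ⟪n,z⟫²)`, so a derivative in a direction orthogonal
to `n` only changes the kernel.
-/

open MeasureTheory Metric Set TrI Filter Topology
open scoped InnerProductSpace ContDiff

namespace TG

noncomputable section

namespace WBT

namespace CD

variable {d : ℕ}

/-- polynomials of degree two in `⟪n,z⟫` times a kernel -/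
def qp (a b c : ℝ → Sp d → ℝ) (n : Sp d) (K : Sp d → ℝ) (r : ℝ) (z x : Sp d) : ℝ :=
  (a r x + b r x * ⟪n, z⟫_ℝ + c r x * ⟪n, z⟫_ℝ ^ 2) * K z

/-- multiplication with a power of `-1/(ε r)` -/
def sc (ε : ℝ) (k : ℕ) (a : ℝ → Sp d → ℝ) (r : ℝ) (x : Sp d) : ℝ :=
  (-(1 / (ε * r))) ^ k * a r x

lemma SF.sc {ε : ℝ} (hε : 0 < ε) (k : ℕ) {a : ℝ → Sp d → ℝ} (ha : SF a) : SF (sc ε k a) :=
  ((SF.inv_r hε).pow k).mul ha

lemma sc_zero (ε : ℝ) (a : ℝ → Sp d → ℝ) : sc ε 0 a = a := by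
  funext r x
  simp [sc]

lemma sc_sc (ε : ℝ) (k l : ℕ) (a : ℝ → Sp d → ℝ) : sc ε k (sc ε l a) = sc ε (k + l) a := by
  funext r x
  simp only [sc]
  rw [pow_add]
  ring

lemma cd_inner (n : Sp d) (m : ℕ) :
    ContDiffOn ℝ m (fun p : ℝ × Sp d × Sp d => ⟪n, p.2.1⟫_ℝ) (Om d) :=
  (((innerSL ℝ n).contDiff).comp (contDiff_fst.comp contDiff_snd)).contDiffOn

lemma Reg.qp {a b c : ℝ → Sp d → ℝ} (ha : SF a) (hb : SF b) (hc : SF c) (n : Sp d) {m : ℕ}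
    {K : Sp d → ℝ} (hK : KC m K) : Reg m (qp a b c n K) := by
  refine ⟨?_, fun r z x hz => by rw [CD.qp, hK.supp z hz, mul_zero]⟩
  have hi := cd_inner n m
  exact (((ha.lift m).add ((hb.lift m).mul hi)).add ((hc.lift m).mul (hi.pow 2))).mul hK.lift

/-- the derivative of the average in a direction `e` -/
lemma fd_qp {a b c : ℝ → Sp d → ℝ} (ha : SF a) (hb : SF b) (hc : SF c) (n : Sp d) {m : ℕ}
    {K : Sp d → ℝ} (hK : KC (m + 1) K) {ε : ℝ} (hε : 0 < ε) (y e : Sp d) :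
    fderiv ℝ (II ε (qp a b c n K)) y e =
      II ε (qp (sc ε 1 a) (sc ε 1 b) (sc ε 1 c) n (fun z => fderiv ℝ K z e)) y +
      ⟪n, e⟫_ℝ * II ε (qp (sc ε 1 b) (sc ε 1 fun r x => 2 * c r x) (fun _ _ => 0) n K) y := by
  have hR := Reg.qp ha hb hc n hK
  have h2c : SF fun r x => 2 * c r x := (SF.const 2).mul hc
  have hR1 := Reg.qp (SF.sc hε 1 ha) (SF.sc hε 1 hb) (SF.sc hε 1 hc) n (hK.dir e)
  have hR2 := Reg.qp (SF.sc hε 1 hb) (SF.sc hε 1 h2c) (SF.const 0) n hK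
  rw [II_fderiv hR hε, II_apply (hR.zd hε)]
  have h1 := II_smul (Ψ := qp (sc ε 1 b) (sc ε 1 fun r x => 2 * c r x) (fun _ _ => 0) n K)
    ⟪n, e⟫_ℝ ε y
  rw [smul_eq_mul] at h1
  rw [← h1, ← II_add hR1 (hR2.csmul _)]
  refine II_congr ε (fun r z x hr => ?_) y
  have h2 : HasFDerivAt (fun z' : Sp d => ⟪n, z'⟫_ℝ) (innerSL ℝ n) z := (innerSL ℝ n).hasFDerivAt
  have h3 : HasFDerivAt (fun z' : Sp d => a r x + b r x * ⟪n, z'⟫_ℝ + c r x * ⟪n, z'⟫_ℝ ^ 2)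
      (b r x • innerSL ℝ n + c r x • ((2 : ℕ) • ⟪n, z⟫_ℝ ^ (2 - 1)) • innerSL ℝ n) z :=
    ((h2.const_mul (b r x)).const_add (a r x)).add ((h2.pow 2).const_mul (c r x))
  have h4 : dZ (CD.qp a b c n K) r z x =
      (a r x + b r x * ⟪n, z⟫_ℝ + c r x * ⟪n, z⟫_ℝ ^ 2) • fderiv ℝ K z +
      K z • (b r x • innerSL ℝ n + c r x • ((2 : ℕ) • ⟪n, z⟫_ℝ ^ (2 - 1)) • innerSL ℝ n) := by
    unfold dZ
    exact (h3.mul (hK.diff z).hasFDerivAt).fderiv
  rw [zd, h4]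
  simp only [CD.qp, sc, smul_apply, add_apply, innerSL_apply_apply, smul_eq_mul, pow_one,
    nsmul_eq_mul]
  push_cast
  ring

/-- a formula for iterated derivatives -/
lemma iter_last {f : Sp d → ℝ} {j : ℕ} (hf : ContDiff ℝ (j + 1 : ℕ) f) (y : Sp d)
    (h : Fin (j + 1) → Sp d) : iteratedFDeriv ℝ (j + 1) f y h =
      iteratedFDeriv ℝ j (fun x => fderiv ℝ f x (h (Fin.last j))) y (Fin.init h) := by
  have h1 : ContDiff ℝ j (fderiv ℝ f) := hf.fderiv_right (by push_cast; exact le_rfl)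
  rw [iteratedFDeriv_succ_apply_right]
  have h2 := (ContinuousLinearMap.apply ℝ ℝ (h (Fin.last j))).iteratedFDeriv_comp_left
    (h1.contDiffAt (x := y)) (i := j) le_rfl
  have h3 : (⇑(ContinuousLinearMap.apply ℝ ℝ (h (Fin.last j))) ∘ fderiv ℝ f) =
      fun x => fderiv ℝ f x (h (Fin.last j)) := rfl
  rw [h3] at h2
  rw [h2]
  rfl

/-- tangential derivatives of the averages -/
lemma iter_qp (n : Sp d) {ε : ℝ} (hε : 0 < ε) (y : Sp d) (j : ℕ) :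
    ∀ {a b c : ℝ → Sp d → ℝ}, SF a → SF b → SF c → ∀ {m : ℕ} {K : Sp d → ℝ}, KC (m + j) K →
      ∀ h : Fin j → Sp d, (∀ i, ⟪n, h i⟫_ℝ = 0) →
      iteratedFDeriv ℝ j (II ε (qp a b c n K)) y h =
        II ε (qp (sc ε j a) (sc ε j b) (sc ε j c) n (fun z => iteratedFDeriv ℝ j K z h)) y := by
  induction j with
  | zero =>
    intro a b c _ _ _ m K _ h _
    simp only [iteratedFDeriv_zero_apply, sc_zero]
  | succ j ih =>
    intro a b c ha hb hc m K hK h hh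
    have hK' : KC (m + j + 1) K := hK
    have hK1 : KC (m + j) (fun z => fderiv ℝ K z (h (Fin.last j))) := hK'.dir _
    have hR := Reg.qp ha hb hc n hK'
    have hcd : ContDiff ℝ (j + 1 : ℕ) (II ε (qp a b c n K)) :=
      (II_contDiff hR hε).of_le (by exact_mod_cast (by omega : j + 1 ≤ m + j + 1))
    have hKd : ContDiff ℝ (j + 1 : ℕ) K :=
      hK'.smooth.of_le (by exact_mod_cast (by omega : j + 1 ≤ m + j + 1))
    rw [iter_last hcd]
    have h1 : (fun x => fderiv ℝ (II ε (qp a b c n K)) x (h (Fin.last j))) =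
        II ε (qp (sc ε 1 a) (sc ε 1 b) (sc ε 1 c) n
          (fun z => fderiv ℝ K z (h (Fin.last j)))) := by
      funext x
      rw [fd_qp ha hb hc n hK' hε, hh, zero_mul, add_zero]
    rw [h1, ih (SF.sc hε 1 ha) (SF.sc hε 1 hb) (SF.sc hε 1 hc) hK1 (Fin.init h) fun i => hh _]
    simp only [sc_sc]
    congr 2
    funext z
    exact (iter_last hKd z h).symm

/-! ### The coefficients -/

def aT (V : ℝ → Sp d → ℝ) (n : Sp d) (r : ℝ) (x : Sp d) : ℝ :=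
  (TT V n r x + pT V r x ^ 2) / V r x

def bT (V : ℝ → Sp d → ℝ) (n : Sp d) (ε r : ℝ) (x : Sp d) : ℝ :=
  2 * ε * (pT V r x * pX V n r x) / V r x

def cT (V : ℝ → Sp d → ℝ) (n : Sp d) (ε r : ℝ) (x : Sp d) : ℝ :=
  ε ^ 2 * pX V n r x ^ 2 / V r x

lemma SF.aT {C : ℝ} {V : ℝ → Sp d → ℝ} (hV : VOK C V) {n : Sp d} (hn : ‖n‖ = 1) : SF (aT V n) :=
  ((hV.sf.TT hn).add (hV.sf.pT.pow 2)).div hV.sf fun r x hr => (hV.pos r x hr).ne'

lemma SF.bT {C : ℝ} {V : ℝ → Sp d → ℝ} (hV : VOK C V) (n : Sp d) (ε : ℝ) : SF (bT V n ε) :=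
  (((SF.const 2).mul (SF.const ε)).mul (hV.sf.pT.mul (hV.sf.pX n))).div hV.sf
    fun r x hr => (hV.pos r x hr).ne'

lemma SF.cT {C : ℝ} {V : ℝ → Sp d → ℝ} (hV : VOK C V) (n : Sp d) (ε : ℝ) : SF (cT V n ε) :=
  (((SF.const ε).pow 2).mul ((hV.sf.pX n).pow 2)).div hV.sf fun r x hr => (hV.pos r x hr).ne'

lemma HH_eq {V : ℝ → Sp d → ℝ} (n : Sp d) (ε : ℝ) (r : ℝ) (z x : Sp d) :
    HH V n ε r z x = aT V n r x + bT V n ε r x * ⟪n, z⟫_ℝ + cT V n ε r x * ⟪n, z⟫_ℝ ^ 2 := by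
  unfold HH QH aT bT cT
  ring

lemma grad_le {C : ℝ} {V : ℝ → Sp d → ℝ} (hV : VOK C V) {r : ℝ} (h1 : 1 / 2 ≤ r) (h2 : r ≤ 2)
    (x : Sp d) : ‖gradient (V r) x‖ ≤ C * V r x := by
  set g := gradient (V r) x with hg
  by_cases h0 : g = 0
  · rw [h0, norm_zero]
    exact (abs_nonneg _).trans (hV.dx r x 0 h1 h2 (by simp))
  · have h3 := hV.dx r x (‖g‖⁻¹ • g) h1 h2 (by
      rw [norm_smul, norm_inv, norm_norm, inv_mul_cancel₀ (norm_ne_zero_iff.2 h0)])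
    have h4 : pX V (‖g‖⁻¹ • g) r x = ‖g‖ := by
      unfold pX
      rw [← inner_grad, ← hg, real_inner_smul_right, real_inner_self_eq_norm_sq]
      have : ‖g‖ ≠ 0 := norm_ne_zero_iff.2 h0
      field_simp
    rw [h4] at h3
    exact (le_abs_self _).trans h3

lemma QH_le {C : ℝ} {V : ℝ → Sp d → ℝ} (hV : VOK C V) (hC : 0 ≤ C) {n : Sp d} (hn : ‖n‖ = 1)
    {ε : ℝ} (hε : 0 < ε) (hε1 : ε ≤ 1) {r : ℝ} (h1 : 1 / 2 ≤ r) (h2 : r ≤ 2) {z : Sp d}
    (hz : ‖z‖ ≤ 1) (x : Sp d) : QH V n ε r z x ≤ (3 * C * V r x) ^ 2 := by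
  have hg := grad_le hV h1 h2 x
  have ht := hV.dt r x h1 h2
  have hx := hV.dx r x n h1 h2 hn.le
  have hv := hV.pos r x (by linarith)
  have hCV : 0 ≤ C * V r x := mul_nonneg hC hv.le
  have hT : TT V n r x ≤ (C * V r x) ^ 2 := by
    unfold TT
    rw [norm_tang_sq hn]
    have := pow_le_pow_left₀ (norm_nonneg _) hg 2
    nlinarith [sq_nonneg ⟪n, gradient (V r) x⟫_ℝ]
  have hi : |⟪n, z⟫_ℝ| ≤ 1 := by
    have := abs_real_inner_le_norm n z
    rw [hn, one_mul] at this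
    exact this.trans hz
  have h3 : |pT V r x + ε * ⟪n, z⟫_ℝ * pX V n r x| ≤ 2 * (C * V r x) := by
    refine (abs_add_le _ _).trans ?_
    rw [abs_mul, abs_mul, abs_of_pos hε]
    have h4 : ε * |⟪n, z⟫_ℝ| ≤ 1 := by
      have := abs_nonneg ⟪n, z⟫_ℝ
      nlinarith
    have h5 : ε * |⟪n, z⟫_ℝ| * |pX V n r x| ≤ 1 * (C * V r x) :=
      mul_le_mul h4 hx (abs_nonneg _) zero_le_one
    linarith
  have h4 : (pT V r x + ε * ⟪n, z⟫_ℝ * pX V n r x) ^ 2 ≤ (2 * (C * V r x)) ^ 2 := by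
    rw [← sq_abs]
    exact pow_le_pow_left₀ (abs_nonneg _) h3 2
  unfold QH
  nlinarith [sq_nonneg (C * V r x)]

/-- pointwise bound for the energy density -/
lemma HH_abs {C : ℝ} {V : ℝ → Sp d → ℝ} (hV : VOK C V) (hC : 0 ≤ C) {n : Sp d} (hn : ‖n‖ = 1)
    {ε : ℝ} (hε : 0 < ε) (hε1 : ε ≤ 1) {r : ℝ} (h1 : 1 / 2 ≤ r) (h2 : r ≤ 2) {z : Sp d}
    (hz : ‖z‖ ≤ 1) (x : Sp d) :
    |aT V n r x + bT V n ε r x * ⟪n, z⟫_ℝ + cT V n ε r x * ⟪n, z⟫_ℝ ^ 2| ≤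
      3 * C * Real.sqrt (QH V n ε r z x) := by
  have hv := hV.pos r x (by linarith)
  have hq := QH_nonneg V n ε r z x
  have hs : Real.sqrt (QH V n ε r z x) ≤ 3 * C * V r x := by
    refine (Real.sqrt_le_sqrt (QH_le hV hC hn hε hε1 h1 h2 hz x)).trans ?_
    rw [Real.sqrt_sq (by positivity)]
  rw [← HH_eq, abs_of_nonneg (HH_nonneg hV n ε (by linarith) z x)]
  unfold HH
  rw [div_le_iff₀ hv]
  have h3 := Real.mul_self_sqrt hq
  have h4 := Real.sqrt_nonneg (QH V n ε r z x)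
  nlinarith

/-- pointwise bound for the mixed density -/
lemma U_abs {C : ℝ} {V : ℝ → Sp d → ℝ} (hV : VOK C V) (hC : 0 ≤ C) {n : Sp d} (hn : ‖n‖ = 1)
    {ε : ℝ} (hε : 0 < ε) (hε1 : ε ≤ 1) {r : ℝ} (h1 : 1 / 2 ≤ r) (h2 : r ≤ 2) (z x : Sp d) :
    |bT V n ε r x + 2 * cT V n ε r x * ⟪n, z⟫_ℝ| ≤ 3 * C * Real.sqrt (QH V n ε r z x) := by
  have hv := hV.pos r x (by linarith)
  have hx := hV.dx r x n h1 h2 hn.le
  have e1 : bT V n ε r x + 2 * cT V n ε r x * ⟪n, z⟫_ℝ =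
      2 * ε * (pX V n r x / V r x) * (pT V r x + ε * ⟪n, z⟫_ℝ * pX V n r x) := by
    unfold bT cT
    ring
  have h3 : |pX V n r x / V r x| ≤ C := by
    rw [abs_div, abs_of_pos hv, div_le_iff₀ hv]
    exact hx
  have h4 : |pT V r x + ε * ⟪n, z⟫_ℝ * pX V n r x| ≤ Real.sqrt (QH V n ε r z x) := by
    rw [← Real.sqrt_sq_eq_abs]
    refine Real.sqrt_le_sqrt ?_
    unfold QH TT
    have := sq_nonneg ‖tang n (gradient (V r) x)‖
    linarith
  rw [e1, abs_mul, abs_mul, abs_of_pos (by positivity : 0 < 2 * ε)]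
  have h5 : 2 * ε * |pX V n r x / V r x| ≤ 3 * C := by
    have := abs_nonneg (pX V n r x / V r x)
    nlinarith
  exact mul_le_mul h5 h4 (abs_nonneg _) (by positivity)

lemma pow_abs {ε : ℝ} (hε : 0 < ε) (hε1 : ε ≤ 1) {r : ℝ} (h1 : 1 / 2 ≤ r) {k L : ℕ}
    (hk : k ≤ L) : |(-(1 / (ε * r))) ^ k| ≤ (2 / ε) ^ L := by
  have hr : 0 < r := by linarith
  rw [abs_pow, abs_neg, abs_of_pos (by positivity)]
  have h2 : 1 / (ε * r) ≤ 2 / ε := by
    rw [div_le_div_iff₀ (by positivity) hε]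
    nlinarith
  have h3 : 1 ≤ 2 / ε := by
    rw [le_div_iff₀ hε]
    linarith
  exact (pow_le_pow_left₀ (by positivity) h2 k).trans (pow_le_pow_right₀ h3 hk)

/-- the bound for averages with the energy density -/
lemma bdT {C : ℝ} {V : ℝ → Sp d → ℝ} (hV : VOK C V) (hC : 0 ≤ C) {n : Sp d} (hn : ‖n‖ = 1)
    {ε : ℝ} (hε : 0 < ε) (hε1 : ε ≤ 1) {β : Sp d → ℝ} (hβ : KC 0 β) (hβ0 : ∀ z, 0 ≤ β z)
    {K : Sp d → ℝ} {m : ℕ} (hK : KC m K) {κ : ℝ} (hκ : 0 ≤ κ)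
    (hKb : ∀ z, |K z| ≤ κ * Real.sqrt (disc n β z)) {k L : ℕ} (hk : k ≤ L) (y : Sp d) :
    (II ε (qp (sc ε k (aT V n)) (sc ε k (bT V n ε)) (sc ε k (cT V n ε)) n K) y) ^ 2 ≤
      ((2 / ε) ^ L * (3 * C) * κ) ^ 2 * ((C * vQ d * (2 / ε) ^ d) * V 1 y
        * discR n (2 * ε) (XT V β n ε) y) := by
  have hR := Reg.qp (SF.sc hε k (SF.aT hV hn)) (SF.sc hε k (SF.bT hV n ε))
    (SF.sc hε k (SF.cT hV n ε)) n hK
  have h := e1 hV hn hε hε1 hβ hβ0 hR (P := (2 / ε) ^ L * (3 * C) * κ) (by positivity) y ?_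
  · rwa [Real.norm_eq_abs, sq_abs] at h
  · intro r z h1 h2 hz
    set x := y + (ε * r) • z with hx
    have e1 : qp (sc ε k (aT V n)) (sc ε k (bT V n ε)) (sc ε k (cT V n ε)) n K r z x =
        (-(1 / (ε * r))) ^ k * (aT V n r x + bT V n ε r x * ⟪n, z⟫_ℝ +
          cT V n ε r x * ⟪n, z⟫_ℝ ^ 2) * K z := by
      simp only [qp, sc]
      ring
    rw [e1, Real.norm_eq_abs, abs_mul, abs_mul, Real.sqrt_mul (disc_nonneg n hβ0 z)]
    have h3 := pow_abs hε hε1 h1 hk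
    have h4 := HH_abs hV hC hn hε hε1 h1 h2 hz x
    have h5 := hKb z
    calc _ ≤ (2 / ε) ^ L * (3 * C * Real.sqrt (QH V n ε r z x)) *
          (κ * Real.sqrt (disc n β z)) := by gcongr
      _ = _ := by ring

/-- the bound for averages with the mixed density -/
lemma bdU {C : ℝ} {V : ℝ → Sp d → ℝ} (hV : VOK C V) (hC : 0 ≤ C) {n : Sp d} (hn : ‖n‖ = 1)
    {ε : ℝ} (hε : 0 < ε) (hε1 : ε ≤ 1) {β : Sp d → ℝ} (hβ : KC 0 β) (hβ0 : ∀ z, 0 ≤ β z)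
    {K : Sp d → ℝ} {m : ℕ} (hK : KC m K) {κ : ℝ} (hκ : 0 ≤ κ)
    (hKb : ∀ z, |K z| ≤ κ * Real.sqrt (disc n β z)) {k L : ℕ} (hk : k ≤ L) (y : Sp d) :
    (II ε (qp (sc ε k (bT V n ε)) (sc ε k fun r x => 2 * cT V n ε r x) (fun _ _ => 0) n K) y) ^ 2
      ≤ ((2 / ε) ^ L * (3 * C) * κ) ^ 2 * ((C * vQ d * (2 / ε) ^ d) * V 1 y
        * discR n (2 * ε) (XT V β n ε) y) := by
  have h2c : SF fun r x => 2 * cT V n ε r x := (SF.const 2).mul (SF.cT hV n ε)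
  have hR := Reg.qp (SF.sc hε k (SF.bT hV n ε)) (SF.sc hε k h2c) (SF.const 0) n hK
  have h := e1 hV hn hε hε1 hβ hβ0 hR (P := (2 / ε) ^ L * (3 * C) * κ) (by positivity) y ?_
  · rwa [Real.norm_eq_abs, sq_abs] at h
  · intro r z h1 h2 hz
    set x := y + (ε * r) • z with hx
    have e1 : qp (sc ε k (bT V n ε)) (sc ε k fun r x => 2 * cT V n ε r x) (fun _ _ => 0) n K r z x
        = (-(1 / (ε * r))) ^ k * (bT V n ε r x + 2 * cT V n ε r x * ⟪n, z⟫_ℝ) * K z := by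
      simp only [qp, sc]
      ring
    rw [e1, Real.norm_eq_abs, abs_mul, abs_mul, Real.sqrt_mul (disc_nonneg n hβ0 z)]
    have h3 := pow_abs hε hε1 h1 hk
    have h4 := U_abs hV hC hn hε hε1 h1 h2 z x
    have h5 := hKb z
    calc _ ≤ (2 / ε) ^ L * (3 * C * Real.sqrt (QH V n ε r z x)) *
          (κ * Real.sqrt (disc n β z)) := by gcongr
      _ = _ := by ring

/-- kernels given by derivatives -/
lemma KC.iter {m j : ℕ} : ∀ {K : Sp d → ℝ}, KC (m + j) K → ∀ h : Fin j → Sp d,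
    KC m (fun z => iteratedFDeriv ℝ j K z h) := by
  induction j with
  | zero =>
    intro K hK h
    have hK' : KC m K := hK
    simpa only [iteratedFDeriv_zero_apply] using hK'
  | succ j ih =>
    intro K hK h
    have hK' : KC (m + j + 1) K := hK
    have hKd : ContDiff ℝ (j + 1 : ℕ) K :=
      hK'.smooth.of_le (by exact_mod_cast (by omega : j + 1 ≤ m + j + 1))
    have h1 : (fun z => iteratedFDeriv ℝ (j + 1) K z h) = fun z =>
        iteratedFDeriv ℝ j (fun x => fderiv ℝ K x (h (Fin.last j))) z (Fin.init h) := by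
      funext z
      exact iter_last hKd z h
    rw [h1]
    exact ih (hK'.dir _) _

lemma sc_z (ε : ℝ) (k : ℕ) : sc ε k (fun (_ : ℝ) (_ : Sp d) => (0 : ℝ)) = fun _ _ => 0 := by
  funext r x
  simp [sc]

lemma sc_two (ε : ℝ) (k : ℕ) (c : ℝ → Sp d → ℝ) :
    (fun r x => 2 * sc ε k c r x) = sc ε k fun r x => 2 * c r x := by
  funext r x
  simp only [sc]
  ring

lemma II_nonneg {ε : ℝ} {Ψ : ℝ → Sp d → Sp d → ℝ} (h : ∀ r z x, 0 < r → 0 ≤ Ψ r z x) (y : Sp d) :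
    0 ≤ II ε Ψ y := by
  unfold II
  refine setIntegral_nonneg measurableSet_Q2 fun p hp => ?_
  rw [smul_eq_mul]
  exact mul_nonneg (tau_nonneg _) (h _ _ _ (pos_of_Icc hp.1))

lemma abs_le_of_sq {X P D S : ℝ} (hP : 0 ≤ P) (hD : 0 ≤ D)
    (h : X ^ 2 ≤ P ^ 2 * (D * S)) : |X| ≤ P * Real.sqrt D * Real.sqrt S := by
  have h1 : |X| = Real.sqrt (X ^ 2) := (Real.sqrt_sq_eq_abs X).symm
  rw [h1]
  refine (Real.sqrt_le_sqrt h).trans (le_of_eq ?_)
  rw [Real.sqrt_mul (sq_nonneg P), Real.sqrt_sq hP, Real.sqrt_mul hD]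
  ring

end CD

end WBT

open WBT WBT.CD in
/-- parts (iii) and (iv) of the sharp derivative bounds -/
theorem wb_cd (h : StmtTH) : ∀ (d J : ℕ), 2 ≤ d → ∀ (M C' ε : ℝ), 0 < C' → 0 < ε → ε ≤ 1 →
    ∃ C : ℝ, 0 < C ∧
    ∀ β : Sp d → ℝ, Kit (J + 4) M β → ∀ μ : Measure (Sp d), Gro C' μ →
      ∀ n : Sp d, ‖n‖ = 1 →
        (∀ j ≤ J, ∀ (h : Fin j → Sp d), (∀ i, ⟪n, h i⟫_ℝ = 0) → (∀ i, ‖h i‖ ≤ 1) → ∀ y,
          (iteratedFDeriv ℝ j (X13 β ε μ n 1) y h) ^ 2 ≤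
            C * vv μ 1 y * discR n (2 * ε) (X13 β ε μ n 1) y ∧
          (iteratedFDeriv ℝ j (fun x => fderiv ℝ (X13 β ε μ n 1) x n) y h) ^ 2 ≤
            C * vv μ 1 y * discR n (2 * ε) (X13 β ε μ n 1) y) ∧
        (∀ y, -C * Real.sqrt (vv μ 1 y * discR n (2 * ε) (X13 β ε μ n 1) y) ≤
          d2 n (X13 β ε μ n 1) y) := by
  intro d J hd M C' ε hC' hε hε1
  obtain ⟨C0, hC0, hvok⟩ := vok h hd hC'
  have hC : 0 ≤ C0 := by linarith
  obtain ⟨κ, hκ⟩ : ∃ κ, κ = Real.sqrt |M| := ⟨_, rfl⟩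
  have hκ0 : 0 ≤ κ := by rw [hκ]; exact Real.sqrt_nonneg _
  obtain ⟨D, hD⟩ : ∃ D, D = C0 * vQ d * (2 / ε) ^ d := ⟨_, rfl⟩
  have hD0 : 0 ≤ D := by
    have := vQ_nonneg (d := d)
    rw [hD]
    positivity
  obtain ⟨P, hP⟩ : ∃ P, P = (2 / ε) ^ (J + 2) * (3 * C0) * κ := ⟨_, rfl⟩
  have hP0 : 0 ≤ P := by
    rw [hP]
    positivity
  have hPD : 0 ≤ P * Real.sqrt D := by positivity
  refine ⟨1 + 4 * P ^ 2 * D + 3 * (P * Real.sqrt D), by positivity, fun β hβ μ hμ n hn => ?_⟩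
  have hV := hvok μ hμ
  have hβ0 := hβ.prof.nonneg
  have hK : KC (J + 4) β := ⟨hβ.prof.smooth, fun z hz => hβ.prof.supp z hz.le⟩
  have hK0 : KC 0 β := hK.mono (by omega)
  have hXT : X13 β ε μ n 1 = XT (vv μ) β n ε := X13_eq hV hK0 hn
  have ha := SF.aT hV hn
  have hb := SF.bT hV n ε
  have hc := SF.cT hV n ε
  have h2c : SF fun r x => 2 * cT (vv μ) n ε r x := (SF.const 2).mul hc
  have hXI : XT (vv μ) β n ε = II ε (qp (aT (vv μ) n) (bT (vv μ) n ε) (cT (vv μ) n ε) n β) := by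
    rw [XT_eq_II hV hK0 hn]
    funext y
    refine II_congr ε (fun r z x _ => ?_) y
    rw [HH_eq]
    unfold qp
    ring
  -- the kernel bounds
  have kb : ∀ j ≤ J + 4, ∀ h : Fin j → Sp d, (∀ i, ‖h i‖ ≤ 1) → ∀ z,
      |iteratedFDeriv ℝ j β z h| ≤ κ * Real.sqrt (disc n β z) := by
    intro j hj h hh z
    have h1 := hβ.prof.der j hj n hn z
    have h2 : |iteratedFDeriv ℝ j β z h| ≤ ‖iteratedFDeriv ℝ j β z‖ := by
      rw [← Real.norm_eq_abs]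
      refine (ContinuousMultilinearMap.le_opNorm _ _).trans ?_
      exact mul_le_of_le_one_right (norm_nonneg _)
        (Finset.prod_le_one (fun i _ => norm_nonneg _) fun i _ => hh i)
    refine h2.trans ?_
    rw [hκ, ← Real.sqrt_mul (abs_nonneg M)]
    refine Real.le_sqrt_of_sq_le (h1.trans ?_)
    exact mul_le_mul_of_nonneg_right (le_abs_self M) (disc_nonneg n hβ0 z)
  have kb0 : ∀ z, |β z| ≤ κ * Real.sqrt (disc n β z) := by
    intro z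
    have := kb 0 (by omega) (fun i => i.elim0) (fun i => i.elim0) z
    simpa only [iteratedFDeriv_zero_apply] using this
  have kbn : ∀ j ≤ J + 3, ∀ h : Fin j → Sp d, (∀ i, ‖h i‖ ≤ 1) → ∀ z,
      |iteratedFDeriv ℝ j (fun z => fderiv ℝ β z n) z h| ≤ κ * Real.sqrt (disc n β z) := by
    intro j hj h hh z
    have h1 := kb (j + 1) (by omega) (Fin.snoc h n : Fin (j + 1) → Sp d) (fun i => by
      refine Fin.lastCases ?_ (fun i => ?_) i
      · rw [Fin.snoc_last]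
        exact hn.le
      · rw [Fin.snoc_castSucc]
        exact hh i) z
    have hKd : ContDiff ℝ (j + 1 : ℕ) β :=
      hK.smooth.of_le (by exact_mod_cast (by omega : j + 1 ≤ J + 4))
    rw [iter_last hKd] at h1
    simpa only [Fin.snoc_last, Fin.init_snoc] using h1
  have kbn0 : ∀ z, |fderiv ℝ β z n| ≤ κ * Real.sqrt (disc n β z) := by
    intro z
    have := kbn 0 (by omega) (fun i => i.elim0) (fun i => i.elim0) z
    simpa only [iteratedFDeriv_zero_apply] using this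
  have kbnn : ∀ z, |fderiv ℝ (fun z => fderiv ℝ β z n) z n| ≤ κ * Real.sqrt (disc n β z) := by
    intro z
    have := kbn 1 (by omega) (fun _ => n) (fun _ => hn.le) z
    simpa only [iteratedFDeriv_one_apply] using this
  -- the derivative in direction n
  have hK3 : KC (J + 3 + 1) β := hK
  have hβn : KC (J + 3) (fun z => fderiv ℝ β z n) := hK3.dir n
  have hdn : (fun x => fderiv ℝ (XT (vv μ) β n ε) x n) =
      II ε (qp (sc ε 1 (aT (vv μ) n)) (sc ε 1 (bT (vv μ) n ε)) (sc ε 1 (cT (vv μ) n ε)) n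
        (fun z => fderiv ℝ β z n)) +
      II ε (qp (sc ε 1 (bT (vv μ) n ε)) (sc ε 1 fun r x => 2 * cT (vv μ) n ε r x)
        (fun _ _ => 0) n β) := by
    funext x
    rw [hXI, fd_qp ha hb hc n hK3 hε, real_inner_self_eq_norm_sq, hn, one_pow, one_mul]
    rfl
  have hR1 := Reg.qp (SF.sc hε 1 ha) (SF.sc hε 1 hb) (SF.sc hε 1 hc) n hβn
  have hR2 := Reg.qp (SF.sc hε 1 hb) (SF.sc hε 1 h2c) (SF.const 0) n hK3
  have hc1 := II_contDiff hR1 hε
  have hc2 := II_contDiff hR2 hε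
  rw [hXT]
  have hS0 : ∀ y, 0 ≤ vv μ 1 y * discR n (2 * ε) (XT (vv μ) β n ε) y := by
    intro y
    refine mul_nonneg (hV.pos 1 y one_pos).le (integral_nonneg fun u => ?_)
    refine intervalIntegral.integral_nonneg (by norm_num) fun r hr => ?_
    exact mul_nonneg (tau_nonneg r) (gg_nonneg hV n ε hβ0 (by have := hr.1; linarith) _)
  refine ⟨fun j hj h hh hh1 y => ⟨?_, ?_⟩, fun y => ?_⟩
  · have hKj : KC (0 + j) β := hK.mono (by omega)
    have h1 := bdT hV hC hn hε hε1 hK0 hβ0 (KC.iter hKj h) hκ0 (kb j (by omega) h hh1)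
      (k := j) (L := J + 2) (by omega) y
    rw [← hP, ← hD] at h1
    have h2 := iter_qp n hε y j ha hb hc hKj h hh
    rw [← hXI] at h2
    rw [h2]
    have h3 := hS0 y
    have h4 : 0 ≤ P ^ 2 * D := by positivity
    nlinarith
  · rw [hdn]
    have e0 : iteratedFDeriv ℝ j
        (II ε (qp (sc ε 1 (aT (vv μ) n)) (sc ε 1 (bT (vv μ) n ε)) (sc ε 1 (cT (vv μ) n ε)) n
          (fun z => fderiv ℝ β z n)) +
        II ε (qp (sc ε 1 (bT (vv μ) n ε)) (sc ε 1 fun r x => 2 * cT (vv μ) n ε r x)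
          (fun _ _ => 0) n β)) y h = _ :=
      congrArg (fun L => L h) (iteratedFDeriv_add_apply
        ((hc1.of_le (by exact_mod_cast (by omega : j ≤ J + 3))).contDiffAt (x := y))
        ((hc2.of_le (by exact_mod_cast (by omega : j ≤ J + 3 + 1))).contDiffAt (x := y)))
    rw [e0]
    have hKn : KC (0 + j) (fun z => fderiv ℝ β z n) := hβn.mono (by omega)
    have hKj : KC (0 + j) β := hK.mono (by omega)
    have i1 := iter_qp n hε y j (SF.sc hε 1 ha) (SF.sc hε 1 hb) (SF.sc hε 1 hc) hKn h hh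
    have i2 := iter_qp n hε y j (SF.sc hε 1 hb) (SF.sc hε 1 h2c) (SF.const 0) hKj h hh
    simp only [sc_sc, sc_z] at i1 i2
    have b1 := bdT hV hC hn hε hε1 hK0 hβ0 (KC.iter hKn h) hκ0 (kbn j (by omega) h hh1)
      (k := j + 1) (L := J + 2) (by omega) y
    have b2 := bdU hV hC hn hε hε1 hK0 hβ0 (KC.iter hKj h) hκ0 (kb j (by omega) h hh1)
      (k := j + 1) (L := J + 2) (by omega) y
    rw [← hP, ← hD, ← i1] at b1
    rw [← hP, ← hD, ← i2] at b2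
    have h3 := hS0 y
    have h4 : 0 ≤ P ^ 2 * D := by positivity
    rw [add_apply]
    obtain ⟨x1, hx1⟩ : ∃ x1, x1 = iteratedFDeriv ℝ j (II ε (qp (sc ε 1 (aT (vv μ) n))
      (sc ε 1 (bT (vv μ) n ε)) (sc ε 1 (cT (vv μ) n ε)) n (fun z => fderiv ℝ β z n))) y h :=
      ⟨_, rfl⟩
    obtain ⟨x2, hx2⟩ : ∃ x2, x2 = iteratedFDeriv ℝ j (II ε (qp (sc ε 1 (bT (vv μ) n ε))
      (sc ε 1 fun r x => 2 * cT (vv μ) n ε r x) (fun _ _ => 0) n β)) y h := ⟨_, rfl⟩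
    rw [← hx1] at b1 ⊢
    rw [← hx2] at b2 ⊢
    nlinarith [sq_nonneg (x1 - x2)]
  · have hXc : ContDiff ℝ (1 + 1 : ℕ) (XT (vv μ) β n ε) := by
      rw [hXI]
      exact (II_contDiff (Reg.qp ha hb hc n hK3) hε).of_le
        (by exact_mod_cast (by omega : 1 + 1 ≤ J + 3 + 1))
    have e1 : d2 n (XT (vv μ) β n ε) y =
        fderiv ℝ (fun x => fderiv ℝ (XT (vv μ) β n ε) x n) y n := by
      unfold d2
      rw [iter_last hXc, iteratedFDeriv_one_apply]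
      rfl
    have hβn' : KC (J + 2 + 1) (fun z => fderiv ℝ β z n) := hβn
    have d1 : DifferentiableAt ℝ (II ε (qp (sc ε 1 (aT (vv μ) n)) (sc ε 1 (bT (vv μ) n ε))
        (sc ε 1 (cT (vv μ) n ε)) n (fun z => fderiv ℝ β z n))) y :=
      (hc1.differentiable (by simp)).differentiableAt
    have d2' : DifferentiableAt ℝ (II ε (qp (sc ε 1 (bT (vv μ) n ε))
        (sc ε 1 fun r x => 2 * cT (vv μ) n ε r x) (fun _ _ => 0) n β)) y :=
      (hc2.differentiable (by simp)).differentiableAt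
    have f1 := fd_qp (SF.sc hε 1 ha) (SF.sc hε 1 hb) (SF.sc hε 1 hc) n hβn' hε y n
    have f2 := fd_qp (SF.sc hε 1 hb) (SF.sc hε 1 h2c) (SF.const 0) n hK3 hε y n
    have hnn : ⟪n, n⟫_ℝ = 1 := by rw [real_inner_self_eq_norm_sq, hn, one_pow]
    simp only [sc_sc, sc_z, sc_two, mul_zero, hnn, one_mul, Nat.reduceAdd] at f1 f2
    rw [e1, hdn, fderiv_add d1 d2', add_apply, f1, f2]
    have b1 := bdT hV hC hn hε hε1 hK0 hβ0 (hβn'.dir n) hκ0 kbnn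
      (k := 2) (L := J + 2) (by omega) y
    have b2 := bdU hV hC hn hε hε1 hK0 hβ0 hβn hκ0 kbn0
      (k := 2) (L := J + 2) (by omega) y
    have b3 : 0 ≤ II ε (qp (sc ε 2 fun r x => 2 * cT (vv μ) n ε r x) (fun _ _ => 0)
        (fun _ _ => 0) n β) y := by
      refine II_nonneg (fun r z x hr => ?_) y
      have hv := hV.pos r x hr
      have hz := hβ0 z
      unfold CD.qp CD.sc CD.cT
      rw [zero_mul, zero_mul, add_zero, add_zero]
      have : 0 ≤ (-(1 / (ε * r))) ^ 2 := sq_nonneg _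
      positivity
    rw [← hP, ← hD, mul_assoc D] at b1 b2
    have c1 := abs_le_of_sq hP0 hD0 b1
    have c2 := abs_le_of_sq hP0 hD0 b2
    have c1' := neg_le_of_abs_le c1
    have c2' := neg_le_of_abs_le c2
    have h5 := Real.sqrt_nonneg (vv μ 1 y * discR n (2 * ε) (XT (vv μ) β n ε) y)
    have h6 : 0 ≤ P ^ 2 * D := by positivity
    nlinarith [mul_nonneg h6 h5]

end

end TG
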