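import Pool.Agent.TG.WBb2

/-!
# The normal derivative of W (module WB, part (b))
-/

open MeasureTheory Metric Set TrI Filter Topology
open scoped InnerProductSpace ContDiff

namespace TG

noncomputable section

namespace WBT

variable {d : ℕ}

/-! ### Bounds for disc averages -/

/-- the volume of the unit ball of dimension d - 1 -/
def vb (d : ℕ) : ℝ := Real.sqrt Real.pi ^ (d - 1) / Real.Gamma (((d - 1 : ℕ) : ℝ) / 2 + 1)

lemma vb_nonneg : 0 ≤ vb d := by
  unfold vb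
  have : 0 < Real.Gamma (((d - 1 : ℕ) : ℝ) / 2 + 1) := Real.Gamma_pos_of_pos (by positivity)
  positivity

lemma finrank_Pn {n : Sp d} (hn : ‖n‖ = 1) : Module.finrank ℝ (Pn n) = d - 1 := by
  have h1 := Submodule.finrank_add_finrank_orthogonal (Submodule.span ℝ {n})
  have h2 : n ≠ 0 := by
    intro h
    rw [h, norm_zero] at hn
    exact zero_ne_one hn
  rw [finrank_span_singleton h2, finrank_euclideanSpace_fin] at h1
  show Module.finrank ℝ ((Submodule.span ℝ {n})ᗮ : Submodule ℝ (Sp d)) = d - 1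
  omega

lemma vol_Pn (hd : 2 ≤ d) {n : Sp d} (hn : ‖n‖ = 1) :
    volume.real (closedBall (0 : Pn n) 1) = vb d := by
  have h1 := finrank_Pn hn
  have : Nontrivial (Pn n) := Module.nontrivial_of_finrank_pos (R := ℝ) (by rw [h1]; omega)
  have h2 := InnerProductSpace.volume_closedBall (0 : Pn n) 1
  rw [h1, ENNReal.ofReal_one, one_pow, one_mul] at h2
  rw [measureReal_def, h2, ENNReal.toReal_ofReal]
  · rfl
  · exact vb_nonneg

lemma disc_le (hd : 2 ≤ d) {J : ℕ} {M : ℝ} {β : Sp d → ℝ} (h : Kit J M β) {n : Sp d}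
    (hn : ‖n‖ = 1) (z : Sp d) : disc n β z ≤ max M 1 * vb d ^ 2 := by
  have hvb := vb_nonneg (d := d)
  have h0 : ∀ z, β z ≤ β 0 := fun z => h.prof.mono 0 z (by rw [norm_zero]; exact norm_nonneg z)
  have hb0 := h.prof.nonneg 0
  have h1 : ∀ z, disc n β z ≤ β 0 * vb d := by
    intro z
    unfold disc
    have hi : IntegrableOn (fun u : Pn n => β (z - (u : Sp d))) (closedBall (0 : Pn n) 1) := by
      have : Continuous fun u : Pn n => β (z - (u : Sp d)) :=
        h.prof.smooth.continuous.comp (by fun_prop)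
      exact this.continuousOn.integrableOn_compact (isCompact_closedBall _ _)
    have hc : IntegrableOn (fun _ : Pn n => β 0) (closedBall (0 : Pn n) 1) :=
      continuous_const.continuousOn.integrableOn_compact (isCompact_closedBall _ _)
    refine (setIntegral_mono_on hi hc measurableSet_closedBall fun u _ => h0 _).trans ?_
    rw [setIntegral_const, vol_Pn hd hn, smul_eq_mul, mul_comm]
  have h2 : β 0 ≤ max M 1 * vb d := by
    rcases hb0.eq_or_lt with h3 | h3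
    · rw [← h3]
      positivity
    · have h4 := h.prof.der 0 (Nat.zero_le _) n hn 0
      rw [norm_iteratedFDeriv_zero, Real.norm_eq_abs, sq_abs] at h4
      have h5 : β 0 ^ 2 ≤ max M 1 * (β 0 * vb d) := by
        refine h4.trans ?_
        exact mul_le_mul (le_max_left _ _) (h1 0) (disc_nonneg n h.prof.nonneg 0) (by positivity)
      nlinarith
  calc disc n β z ≤ β 0 * vb d := h1 z
    _ ≤ (max M 1 * vb d) * vb d := mul_le_mul_of_nonneg_right h2 hvb
    _ = _ := by ring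

/-! ### Odd and even kernels -/

lemma Rf_n {n : Sp d} (hn : ‖n‖ = 1) : Rf n n = -n := by
  rw [Rf_apply hn, real_inner_self_eq_norm_sq, hn]
  module

lemma Rf_orth {n h : Sp d} (hn : ‖n‖ = 1) (hh : ⟪n, h⟫_ℝ = 0) : Rf n h = h := by
  rw [Rf_apply hn, hh]
  simp

lemma fderiv_Rf {K : Sp d → ℝ} {m : ℕ} (hK : KC (m + 1) K) (n z v : Sp d) :
    fderiv ℝ (fun z => K (Rf n z)) z v = fderiv ℝ K (Rf n z) (Rf n v) := by
  have h1 : HasFDerivAt (fun z => K (Rf n z)) ((fderiv ℝ K (Rf n z)).comp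
      ((Rf n).toContinuousLinearEquiv : Sp d →L[ℝ] Sp d)) z :=
    (hK.diff (Rf n z)).hasFDerivAt.comp z (Rf n).toContinuousLinearEquiv.hasFDerivAt
  rw [h1.fderiv]
  rfl

/-- oddness -/
def Odd' (n : Sp d) (K : Sp d → ℝ) : Prop := ∀ z, K (Rf n z) = -K z

/-- evenness -/
def Even' (n : Sp d) (K : Sp d → ℝ) : Prop := ∀ z, K (Rf n z) = K z

lemma Odd'.dir {n h : Sp d} (hn : ‖n‖ = 1) (hh : ⟪n, h⟫_ℝ = 0) {K : Sp d → ℝ} {m : ℕ}
    (hK : KC (m + 1) K) (ho : Odd' n K) : Odd' n (fun z => fderiv ℝ K z h) := by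
  intro z
  have h1 := fderiv_Rf hK n z h
  have h2 : (fun z => K (Rf n z)) = fun z => -K z := funext ho
  rw [h2, fderiv_fun_neg, Rf_orth hn hh] at h1
  show fderiv ℝ K (Rf n z) h = -fderiv ℝ K z h
  rw [← h1]
  rfl

lemma Even'.dir_n {n : Sp d} (hn : ‖n‖ = 1) {K : Sp d → ℝ} {m : ℕ}
    (hK : KC (m + 1) K) (he : Even' n K) : Odd' n (fun z => fderiv ℝ K z n) := by
  intro z
  have h1 := fderiv_Rf hK n z n
  have h2 : (fun z => K (Rf n z)) = fun z => K z := funext he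
  rw [h2, Rf_n hn, map_neg] at h1
  show fderiv ℝ K (Rf n z) n = -fderiv ℝ K z n
  have h3 : fderiv ℝ (fun z => K z) z n = fderiv ℝ K z n := rfl
  rw [h3] at h1
  rw [h1, neg_neg]

lemma even_radial {n : Sp d} {K : Sp d → ℝ} (h : ∀ x y, ‖x‖ ≤ ‖y‖ → K y ≤ K x) : Even' n K :=
  fun z => le_antisymm (h _ _ (by rw [(Rf n).norm_map])) (h _ _ (by rw [(Rf n).norm_map]))

/-- the Laplacian of the second potential -/
lemma lap_Bpp {J : ℕ} {M : ℝ} {β : Sp d → ℝ} (h : Kit J M β) (z : Sp d) :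
    ∑ j : Fin d, fderiv ℝ (fun z => fderiv ℝ (Bp (Bp β)) z
      (EuclideanSpace.single j (1 : ℝ))) z (EuclideanSpace.single j (1 : ℝ))
      = ‖z‖ ^ 2 * β z - d * Bp β z := by
  have g2 : ∀ (e z : Sp d), fderiv ℝ (Bp (Bp β)) z e = -(⟪e, z⟫_ℝ * Bp β z) := by
    intro e z
    have h1 := (h.grad2 z).hasFDerivAt.fderiv
    rw [h1, InnerProductSpace.toDual_apply_apply, real_inner_smul_left, real_inner_comm]
    ring
  have g1 : ∀ (e z : Sp d), fderiv ℝ (Bp β) z e = -(⟪e, z⟫_ℝ * β z) := by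
    intro e z
    have h1 := (h.grad1 z).hasFDerivAt.fderiv
    rw [h1, InnerProductSpace.toDual_apply_apply, real_inner_smul_left, real_inner_comm]
    ring
  have e1 : ∀ e : Sp d, ‖e‖ = 1 → fderiv ℝ (fun z => fderiv ℝ (Bp (Bp β)) z e) z e
      = ⟪e, z⟫_ℝ ^ 2 * β z - Bp β z := by
    intro e he
    have e2 : (fun z => fderiv ℝ (Bp (Bp β)) z e) = fun z => -(⟪e, z⟫_ℝ * Bp β z) :=
      funext fun z => g2 e z
    have e3 : HasFDerivAt (fun z : Sp d => ⟪e, z⟫_ℝ) (innerSL ℝ e) z := (innerSL ℝ e).hasFDerivAt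
    have e4 := (e3.mul (h.grad1 z).hasFDerivAt.differentiableAt.hasFDerivAt).neg
    rw [e2]
    have e5 : HasFDerivAt (fun z : Sp d => -(⟪e, z⟫_ℝ * Bp β z))
      (-(⟪e, z⟫_ℝ • fderiv ℝ (Bp β) z + Bp β z • innerSL ℝ e)) z := e4
    rw [e5.fderiv]
    simp only [neg_apply, add_apply, smul_apply, smul_eq_mul, innerSL_apply_apply, g1,
      real_inner_self_eq_norm_sq, he]
    ring
  have e6 : ∀ j : Fin d, fderiv ℝ (fun z => fderiv ℝ (Bp (Bp β)) z
      (EuclideanSpace.single j (1 : ℝ))) z (EuclideanSpace.single j (1 : ℝ))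
      = z j ^ 2 * β z - Bp β z := by
    intro j
    rw [e1 _ (by simp), EuclideanSpace.inner_single_left]
    simp
  rw [Finset.sum_congr rfl fun j _ => e6 j, Finset.sum_sub_distrib, ← Finset.sum_mul,
    EuclideanSpace.norm_sq_eq]
  simp

lemma K2_even {J : ℕ} {M : ℝ} {β : Sp d → ℝ} (h : Kit J M β) (n : Sp d) (ε : ℝ) :
    Even' n (K2 β ε) := by
  intro z
  have h1 : β (Rf n z) = β z := even_radial h.prof.mono z
  have h2 : Bp β (Rf n z) = Bp β z := even_radial h.mono1 z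
  unfold K2
  rw [lap_Bpp h, lap_Bpp h, (Rf n).norm_map, h1, h2]

/-! ### Averages with odd kernels -/

/-- the right hand side -/
def FF (C : ℝ) (μ : Measure (Sp d)) (n : Sp d) (y : Sp d) : ℝ :=
  (C * vQ d * volume.real (closedBall (0 : Sp d) 2)) * vv μ 1 y * tav (X2 μ n) 1 y

lemma II_reflect {G : Type*} [NormedAddCommGroup G] [NormedSpace ℝ G]
    (Ψ : ℝ → Sp d → Sp d → G) (n : Sp d) (ε : ℝ) (y : Sp d) : II ε Ψ y
      = ∫ p in Q2 d, tau 1 p.1 • Ψ p.1 (Rf n p.2) (y + (ε * p.1) • Rf n p.2) := by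
  have h1 : MeasurePreserving (fun p : ℝ × Sp d => (p.1, Rf n p.2))
      ((volume : Measure ℝ).prod volume) ((volume : Measure ℝ).prod volume) :=
    (MeasurePreserving.id _).prod (Rf n).measurePreserving
  have h2 : MeasurableEmbedding (fun p : ℝ × Sp d => (p.1, Rf n p.2)) :=
    ((Homeomorph.refl ℝ).prodCongr (Rf n).toHomeomorph).measurableEmbedding
  have h3 := h1.setIntegral_preimage_emb h2
    (fun p => tau 1 p.1 • Ψ p.1 p.2 (y + (ε * p.1) • p.2)) (Q2 d)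
  have h4 : (fun p : ℝ × Sp d => (p.1, Rf n p.2)) ⁻¹' Q2 d = Q2 d := by
    ext p
    unfold Q2
    simp only [mem_preimage, mem_prod, mem_closedBall_zero_iff, (Rf n).norm_map]
  rw [h4] at h3
  unfold II
  rw [Measure.volume_eq_prod, ← h3]

lemma cont_X2 (h : StmtTH) (hd : 2 ≤ d) {C' : ℝ} (hC' : 0 < C') {μ : Measure (Sp d)}
    (hμ : Gro C' μ) {n : Sp d} (hn : ‖n‖ = 1) (y : Sp d) :
    ContinuousOn (fun r => X2 μ n r y) (Icc (1 / 2 : ℝ) 2) := by
  have h1 := ((X2_bd (ι := Unit) h hd hC' (μ := fun _ => μ) (fun _ => hμ) 0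
    (n := fun _ => n) (fun _ => hn)).smooth ()).continuousOn
  have h2 : ContinuousOn (fun r : ℝ => ((r, y) : ℝ × Sp d)) (Icc (1 / 2 : ℝ) 2) := by fun_prop
  exact ContinuousOn.comp (g := fun p : ℝ × Sp d => X2 μ n p.1 p.2) (f := fun r => (r, y)) h1 h2
    fun r hr => mem_SL_of hr.1 hr.2 y

lemma B_bd0 (hTH : StmtTH) (hd : 2 ≤ d) {C' : ℝ} (hC' : 0 < C') {C : ℝ} {μ : Measure (Sp d)}
    (hμ : Gro C' μ) (hV : VOK C (vv μ)) {n : Sp d} (hn : ‖n‖ = 1) {ε : ℝ}
    {F : ℝ → Sp d → ℝ} {Cd : ℝ} (hCd : 0 ≤ Cd) (hF : SF F)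
    (hdiff : ∀ (r : ℝ) (y z : Sp d), 1 / 2 ≤ r → r ≤ 2 → ‖z‖ ≤ 1 →
      |F r (y + (ε * r) • z) - F r (y + (ε * r) • Rf n z)|
        ≤ Cd * Real.sqrt (vv μ r y * X2 μ n r y))
    {K : Sp d → ℝ} (hK : KC 0 K) {P : ℝ} (hP : 0 ≤ P) (hKb : ∀ z, |K z| ≤ P) (ho : Odd' n K)
    {ρ : ℝ → ℝ} (hρ : SF (fun r (_ : Sp d) => ρ r)) {R0 : ℝ} (hR0 : 0 ≤ R0)
    (hρb : ∀ r, 1 / 2 ≤ r → r ≤ 2 → |ρ r| ≤ R0) (y : Sp d) :
    |II ε (pr (fun r x => ρ r * F r x) K) y| ≤ R0 * P * Cd * Real.sqrt (FF C μ n y) := by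
  have hReg := Reg.pr (hρ.mul hF) hK
  -- twice the average
  have hint1 := hReg.integrableOn ε y
  have hcV : ContinuousOn (fun p : ℝ × Sp d => tau 1 p.1 * vv μ p.1 y) (Q2 d) :=
    (continuous_tau.comp continuous_fst).continuousOn.mul
      (hV.sf.comp_cont (by fun_prop) (by fun_prop) fun q hq => pos_of_Icc hq.1)
  have hcX : ContinuousOn (fun p : ℝ × Sp d => tau 1 p.1 * X2 μ n p.1 y) (Q2 d) :=
    (continuous_tau.comp continuous_fst).continuousOn.mul
      ((cont_X2 hTH hd hC' hμ hn y).comp continuousOn_fst fun q hq => hq.1)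
  have iV := hcV.integrableOn_compact (μ := volume) isCompact_Q2
  have iX := hcX.integrableOn_compact (μ := volume) isCompact_Q2
  set A := ∫ p in Q2 d, tau 1 p.1 * vv μ p.1 y with hA
  set B := ∫ p in Q2 d, tau 1 p.1 * X2 μ n p.1 y with hB
  have hA1 : A ≤ C * vv μ 1 y * vQ d := by
    rw [hA, vQ, ← integral_const_mul]
    refine setIntegral_mono_on iV ?_ measurableSet_Q2 fun p hp => ?_
    · exact (continuous_const.continuousOn).integrableOn_compact isCompact_Q2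
    · have hp0 := pos_of_Icc hp.1
      have h4 := hV.comp p.1 y y hp.1.1 hp.1.2 (by simp)
      have h5 := hV.pos p.1 y hp0
      have h6 := tau_le p.1
      have h7 := WBT.tau_nonneg p.1
      rw [mul_one]
      nlinarith
  have hA0 : 0 ≤ A := setIntegral_nonneg measurableSet_Q2 fun p hp =>
    mul_nonneg (WBT.tau_nonneg _) (hV.pos _ _ (pos_of_Icc hp.1)).le
  have hB0 : 0 ≤ B := setIntegral_nonneg measurableSet_Q2 fun p hp =>
    mul_nonneg (WBT.tau_nonneg _) (X2_nonneg μ n (pos_of_Icc hp.1).le y)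
  have hB1 : B = volume.real (closedBall (0 : Sp d) 2) * tav (X2 μ n) 1 y := by
    rw [hB]
    unfold Q2
    have iX' : IntegrableOn (fun p : ℝ × Sp d => tau 1 p.1 * X2 μ n p.1 y)
      (Icc (1 / 2 : ℝ) 2 ×ˢ closedBall 0 2) ((volume : Measure ℝ).prod volume) := iX
    rw [Measure.volume_eq_prod, setIntegral_prod _ iX']
    unfold tav
    rw [mul_one, intervalIntegral.integral_of_le (by norm_num), ← integral_const_mul,
      integral_Icc_eq_integral_Ioc]
    refine integral_congr_ae (Eventually.of_forall fun r => ?_)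
    simp only
    rw [setIntegral_const, smul_eq_mul]
  have key : ∀ l : ℝ, 0 < l → 2 * |II ε (pr (fun r x => ρ r * F r x) K) y|
      ≤ l * ((R0 * P * Cd) * A) + (R0 * P * Cd) * B / l := by
    intro l hl
    have e1 : II ε (pr (fun r x => ρ r * F r x) K) y
        = ∫ p in Q2 d, -(tau 1 p.1 • pr (fun r x => ρ r * F r x) K p.1 p.2
          (y + (ε * p.1) • Rf n p.2)) := by
      rw [II_reflect _ n]
      refine integral_congr_ae (Eventually.of_forall fun p => ?_)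
      simp only
      unfold pr
      rw [ho p.2, smul_neg, smul_neg]
    have hint2 : IntegrableOn (fun p : ℝ × Sp d => tau 1 p.1 • pr (fun r x => ρ r * F r x) K p.1 p.2
          (y + (ε * p.1) • Rf n p.2)) (Q2 d) := by
      have h1 : ContinuousOn (fun p : ℝ × Sp d => (ρ p.1 * F p.1 (y + (ε * p.1) • Rf n p.2))
          * K p.2) (Q2 d) := by
        have hR : Continuous (Rf n) := (Rf n).continuous
        have h2 : ContinuousOn (fun p : ℝ × Sp d => ρ p.1 * F p.1 (y + (ε * p.1) • Rf n p.2))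
            (Q2 d) :=
          (hρ.mul hF).comp_cont (b := fun p : ℝ × Sp d => y + (ε * p.1) • Rf n p.2)
            (by fun_prop) (by fun_prop) fun q hq => pos_of_Icc hq.1
        exact h2.mul (hK.smooth.continuous.comp continuous_snd).continuousOn
      exact ((continuous_tau.comp continuous_fst).continuousOn.mul h1).integrableOn_compact
        isCompact_Q2
    have e2 : 2 * II ε (pr (fun r x => ρ r * F r x) K) y
        = ∫ p in Q2 d, tau 1 p.1 * (ρ p.1 * K p.2 * (F p.1 (y + (ε * p.1) • p.2)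
          - F p.1 (y + (ε * p.1) • Rf n p.2))) := by
      rw [two_mul]
      nth_rewrite 1 [II]
      have hint2' : IntegrableOn (fun p : ℝ × Sp d => -(tau 1 p.1 • pr (fun r x => ρ r * F r x) K
          p.1 p.2 (y + (ε * p.1) • Rf n p.2))) (Q2 d) := hint2.neg
      rw [e1, ← integral_add hint1 hint2']
      refine integral_congr_ae (Eventually.of_forall fun p => ?_)
      simp only
      unfold pr
      simp only [smul_eq_mul]
      ring
    have e3 : 2 * |II ε (pr (fun r x => ρ r * F r x) K) y|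
        = |2 * II ε (pr (fun r x => ρ r * F r x) K) y| := by
      rw [abs_mul, abs_two]
    rw [e3, e2]
    have hint3 : IntegrableOn (fun p : ℝ × Sp d => tau 1 p.1 * (ρ p.1 * K p.2
        * (F p.1 (y + (ε * p.1) • p.2) - F p.1 (y + (ε * p.1) • Rf n p.2)))) (Q2 d) := by
      refine (hint1.sub hint2).congr (Eventually.of_forall fun p => ?_)
      simp only [Pi.sub_apply]
      unfold pr
      simp only [smul_eq_mul]
      ring
    have h2 : |∫ p in Q2 d, tau 1 p.1 * (ρ p.1 * K p.2 * (F p.1 (y + (ε * p.1) • p.2)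
          - F p.1 (y + (ε * p.1) • Rf n p.2)))|
        ≤ ∫ p in Q2 d, ((R0 * P * Cd * l / 2) * (tau 1 p.1 * vv μ p.1 y)
          + (R0 * P * Cd / l / 2) * (tau 1 p.1 * X2 μ n p.1 y)) := by
      refine (abs_integral_le_integral_abs).trans ?_
      refine setIntegral_mono_on hint3.abs ((iV.const_mul _).add (iX.const_mul _))
        measurableSet_Q2 fun p hp => ?_
      have hp0 := pos_of_Icc hp.1
      have ht := WBT.tau_nonneg p.1
      have hv := hV.pos p.1 y hp0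
      have hx := X2_nonneg μ n hp0.le y
      by_cases hz : ‖p.2‖ ≤ 1
      · have h3 := hdiff p.1 y p.2 hp.1.1 hp.1.2 hz
        have h4 : Real.sqrt (vv μ p.1 y * X2 μ n p.1 y) ≤ (l * vv μ p.1 y + X2 μ n p.1 y / l) / 2 := by
          rw [Real.sqrt_le_left (by positivity)]
          have : (l * vv μ p.1 y - X2 μ n p.1 y / l) ^ 2
              = (l * vv μ p.1 y + X2 μ n p.1 y / l) ^ 2 - 4 * (vv μ p.1 y * X2 μ n p.1 y) := by
            field_simp
            ring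
          nlinarith [sq_nonneg (l * vv μ p.1 y - X2 μ n p.1 y / l)]
        rw [abs_mul, abs_of_nonneg ht, abs_mul, abs_mul]
        calc tau 1 p.1 * (|ρ p.1| * |K p.2| * |F p.1 (y + (ε * p.1) • p.2)
              - F p.1 (y + (ε * p.1) • Rf n p.2)|)
            ≤ tau 1 p.1 * (R0 * P * (Cd * ((l * vv μ p.1 y + X2 μ n p.1 y / l) / 2))) := by
              refine mul_le_mul_of_nonneg_left ?_ ht
              refine mul_le_mul (mul_le_mul (hρb _ hp.1.1 hp.1.2) (hKb _) (abs_nonneg _) hR0)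
                (h3.trans (mul_le_mul_of_nonneg_left h4 hCd)) (abs_nonneg _) (by positivity)
          _ = _ := by ring
      · rw [hK.supp p.2 (not_le.1 hz), mul_zero, zero_mul, mul_zero, abs_zero]
        positivity
    rw [integral_add (iV.const_mul _) (iX.const_mul _), integral_const_mul, integral_const_mul,
      ← hA, ← hB] at h2
    have hz1 : 0 ≤ R0 * P * Cd * l * A := by positivity
    have hz2 : 0 ≤ R0 * P * Cd / l * B := by positivity
    have e4 : l * ((R0 * P * Cd) * A) + (R0 * P * Cd) * B / l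
        = R0 * P * Cd * l * A + R0 * P * Cd / l * B := by ring
    rw [e4]
    refine h2.trans ?_
    have e5 : R0 * P * Cd * l / 2 * A + R0 * P * Cd / l / 2 * B
        = (R0 * P * Cd * l * A + R0 * P * Cd / l * B) / 2 := by ring
    rw [e5]
    linarith
  have hc : 0 ≤ R0 * P * Cd := by positivity
  have h1 := sq_le_of_forall (abs_nonneg _) (mul_nonneg hc hA0) (mul_nonneg hc hB0) key
  have h2 : A * B ≤ FF C μ n y := by
    rw [hB1]
    have h3 : 0 ≤ volume.real (closedBall (0 : Sp d) 2) * tav (X2 μ n) 1 y := by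
      rw [← hB1]
      exact hB0
    calc A * (volume.real (closedBall (0 : Sp d) 2) * tav (X2 μ n) 1 y)
        ≤ (C * vv μ 1 y * vQ d) * (volume.real (closedBall (0 : Sp d) 2) * tav (X2 μ n) 1 y) :=
          mul_le_mul_of_nonneg_right hA1 h3
      _ = _ := by
          unfold FF
          ring
  rw [← Real.sqrt_sq hc, ← Real.sqrt_mul (sq_nonneg _)]
  refine Real.le_sqrt_of_sq_le (h1.trans ?_)
  calc R0 * P * Cd * A * (R0 * P * Cd * B) = (R0 * P * Cd) ^ 2 * (A * B) := by ring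
    _ ≤ _ := mul_le_mul_of_nonneg_left h2 (sq_nonneg _)

lemma B_bd (hTH : StmtTH) (hd : 2 ≤ d) {C' : ℝ} (hC' : 0 < C') {C : ℝ} {μ : Measure (Sp d)}
    (hμ : Gro C' μ) (hV : VOK C (vv μ)) {n : Sp d} (hn : ‖n‖ = 1) {ε : ℝ}
    (hε : 0 < ε) {J : ℕ} {M : ℝ} {β : Sp d → ℝ} (hβ : Kit J M β)
    {F : ℝ → Sp d → ℝ} {Cd : ℝ} (hCd : 0 ≤ Cd) (hF : SF F)
    (hdiff : ∀ (r : ℝ) (y z : Sp d), 1 / 2 ≤ r → r ≤ 2 → ‖z‖ ≤ 1 →
      |F r (y + (ε * r) • z) - F r (y + (ε * r) • Rf n z)|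
        ≤ Cd * Real.sqrt (vv μ r y * X2 μ n r y)) :
    ∀ (j : ℕ) (K : Sp d → ℝ) (P R0 : ℝ) (ρ : ℝ → ℝ), 0 ≤ P → 0 ≤ R0 →
    KB j P (disc n β) K → Odd' n K → SF (fun r (_ : Sp d) => ρ r) →
    (∀ r, 1 / 2 ≤ r → r ≤ 2 → |ρ r| ≤ R0) → ∀ (w : Fin j → Sp d), (∀ i, ⟪n, w i⟫_ℝ = 0) →
    (∀ i, ‖w i‖ ≤ 1) → ∀ y,
    |iteratedFDeriv ℝ j (II ε (pr (fun r x => ρ r * F r x) K)) y w|
      ≤ (2 / ε) ^ j * (R0 * (P * Real.sqrt (max M 1 * vb d ^ 2)) * Cd
        * Real.sqrt (FF C μ n y)) := by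
  intro j
  induction j with
  | zero =>
    intro K P R0 ρ hP hR0 hK ho hρ hρb w _ _ y
    rw [iteratedFDeriv_zero_apply, pow_zero, one_mul]
    refine B_bd0 hTH hd hC' hμ hV hn hCd hF hdiff hK.kc (by positivity) (fun z => ?_) ho hρ hR0
      hρb y
    refine (hK.norm_le z).trans ?_
    exact mul_le_mul_of_nonneg_left (Real.sqrt_le_sqrt (disc_le hd hβ hn z)) hP
  | succ j ih =>
    intro K P R0 ρ hP hR0 hK ho hρ hρb w hw1 hw2 y
    have hRg := Reg.pr (hρ.mul hF) hK.kc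
    rw [iter_last (II_contDiff hRg hε)]
    set e := w (Fin.last j) with he
    have hρ' : SF (fun r (_ : Sp d) => -(1 / (ε * r)) * ρ r) := (SF.inv_r hε).mul hρ
    have hb' : ∀ r, 1 / 2 ≤ r → r ≤ 2 → |(-(1 / (ε * r)) * ρ r)| ≤ (2 / ε) * R0 := by
      intro r hr hr2
      rw [abs_mul, abs_neg, abs_of_pos (by positivity)]
      refine mul_le_mul ?_ (hρb r hr hr2) (abs_nonneg _) (by positivity)
      rw [div_le_div_iff₀ (by positivity) hε]
      nlinarith
    have e1 : (fun x => fderiv ℝ (II ε (pr (fun r x => ρ r * F r x) K)) x e)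
        = II ε (pr (fun r x => (-(1 / (ε * r)) * ρ r) * F r x) (fun z => fderiv ℝ K z e)) := by
      funext x
      rw [II_pr_fderiv (hρ.mul hF) hK.kc hε, II_apply (Reg.pr ((SF.inv_r hε).mul (hρ.mul hF))
        hK.kc.fderiv)]
      refine II_congr ε (fun r z x' hr => ?_) x
      show (-(1 / (ε * r)) * (ρ r * F r x')) * fderiv ℝ K z e
        = ((-(1 / (ε * r)) * ρ r) * F r x') * fderiv ℝ K z e
      ring
    rw [e1]
    have h1 := ih (fun z => fderiv ℝ K z e) P ((2 / ε) * R0) _ hP (by positivity)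
      (hK.dir (hw2 _)) (Odd'.dir hn (hw1 _) hK.kc ho) hρ' hb' (Fin.init w)
      (fun i => hw1 _) (fun i => hw2 _) y
    refine h1.trans (le_of_eq ?_)
    rw [pow_succ]
    ring

end WBT

open WBT in
theorem wb_b (hTH : StmtTH) (_ : StmtWA) : ∀ (d J : ℕ), 2 ≤ d → ∀ (M C' ε : ℝ), 0 < C' → 0 < ε →
    ε ≤ 1 → ∃ C : ℝ, 0 < C ∧ ∀ β : Sp d → ℝ, Kit (J + 4) M β → ∀ μ : Measure (Sp d), Gro C' μ →
      ∀ n : Sp d, ‖n‖ = 1 →
        ∀ j ≤ J, ∀ (h : Fin j → Sp d), (∀ i, ⟪n, h i⟫_ℝ = 0) → (∀ i, ‖h i‖ ≤ 1) → ∀ y,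
          (iteratedFDeriv ℝ j (fun x => ⟪gradient (WW β ε μ 1) x, n⟫_ℝ) y h) ^ 2 ≤
          C * vv μ 1 y * tav (X2 μ n) 1 y := by
  intro d J hd M C' ε hC' hε hε1
  obtain ⟨C0, hC0, hv⟩ := vok hTH hd hC'
  obtain ⟨Cd, hCd, hdf⟩ := V_diff hTH hd hC'
  set P0 := Real.sqrt (max M 1) with hP0
  have hP00 : 0 ≤ P0 := Real.sqrt_nonneg _
  set P2 := P0 + |(-(ε ^ 2))| * (d * P0) with hP2
  have hP20 : 0 ≤ P2 := by positivity
  set kb := Real.sqrt (max M 1 * vb d ^ 2) with hkb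
  have hkb0 : 0 ≤ kb := Real.sqrt_nonneg _
  set c1 := (2 / ε) ^ J * ((2 / ε) * (P2 * kb) * Cd) + (2 / ε) ^ J * (2 * (P0 * kb) * Cd) with hc1
  have hc10 : 0 ≤ c1 := by positivity
  have hvQ := vQ_nonneg (d := d)
  have hvol : 0 ≤ volume.real (closedBall (0 : Sp d) 2) := measureReal_nonneg
  refine ⟨c1 ^ 2 * (C0 * vQ d * volume.real (closedBall (0 : Sp d) 2)) + 1, by positivity, ?_⟩
  intro β hβ μ hμ n hn j hj w hw1 hw2 y
  have hV := hv μ hμ
  have hsf := hV.sf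
  obtain ⟨k0, k1, _⟩ := Kit.kb hβ hn
  have kk2 := K2_kc hβ hn ε
  have hn1 : ‖n‖ ≤ 1 := hn.le
  have o2 : Odd' n (fun z => fderiv ℝ (K2 β ε) z n) :=
    Even'.dir_n hn (m := J + 1) kk2.kc (K2_even hβ n ε)
  have o1 : Odd' n (fun z => fderiv ℝ (Bp β) z n) :=
    Even'.dir_n hn (m := J + 3) k1.kc (even_radial hβ.mono1)
  have d2' : KB (J + 1) P2 (disc n β) (fun z => fderiv ℝ (K2 β ε) z n) := kk2.dir hn1
  have d1' : KB (J + 3) P0 (disc n β) (fun z => fderiv ℝ (Bp β) z n) := k1.dir hn1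
  have s1 : SF (fun (r : ℝ) (_ : Sp d) => -(2 * ε ^ 2 * r)) :=
    ((SF.const (2 * ε ^ 2)).mul SF.r).neg
  have sa : SF (fun (r : ℝ) (_ : Sp d) => -(1 / (ε * r))) := SF.inv_r hε
  have sb : SF (fun (_ : ℝ) (_ : Sp d) => 2 * ε) := SF.const (2 * ε)
  set T1 := II ε (pr (fun r x => (-(1 / (ε * r))) * vv μ r x) (fun z => fderiv ℝ (K2 β ε) z n))
    with hT1
  set T2 := II ε (pr (fun r x => (2 * ε) * pT (vv μ) r x) (fun z => fderiv ℝ (Bp β) z n))
    with hT2
  have e0 : (fun x => ⟪gradient (WW β ε μ 1) x, n⟫_ℝ) = fun x => T1 x + T2 x := by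
    funext x
    rw [WBT.inner_grad]
    have e1 : WW β ε μ 1 = fun y => II ε (pr (vv μ) (K2 β ε)) y
      + II ε (pr (fun r x => -(2 * ε ^ 2 * r) * pT (vv μ) r x) (Bp β)) y :=
      funext fun y => WW_eq0 hV hβ hn hε y
    have q1 := II_hasFDerivAt' (m := J + 1) (Reg.pr hsf kk2.kc) hε x
    have q2 := II_hasFDerivAt' (m := J + 3) (Reg.pr (s1.mul hsf.pT) k1.kc) hε x
    rw [e1, (q1.fun_add q2).fderiv]
    show (II ε (zd ε (pr (vv μ) (K2 β ε))) x) n
      + (II ε (zd ε (pr (fun r x => -(2 * ε ^ 2 * r) * pT (vv μ) r x) (Bp β))) x) n = _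
    rw [II_apply ((Reg.pr hsf (m := J + 1 + 1) kk2.kc).zd hε),
      II_apply ((Reg.pr (s1.mul hsf.pT) (m := J + 3 + 1) k1.kc).zd hε),
      zd_pr (m := J + 1) kk2.kc, zd_pr (m := J + 3) k1.kc]
    congr 1
    refine II_congr ε (fun r z x' hr => ?_) x
    show (-(1 / (ε * r)) * (-(2 * ε ^ 2 * r) * pT (vv μ) r x')) * fderiv ℝ (Bp β) z n
        = ((2 * ε) * pT (vv μ) r x') * fderiv ℝ (Bp β) z n
    field_simp
  have c1' : ContDiff ℝ j T1 := II_contDiff (Reg.pr (sa.mul hsf) (d2'.kc.mono (by omega))) hε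
  have c2' : ContDiff ℝ j T2 := II_contDiff (Reg.pr (sb.mul hsf.pT) (d1'.kc.mono (by omega))) hε
  have e2 : iteratedFDeriv ℝ j (fun x => T1 x + T2 x) y
      = iteratedFDeriv ℝ j T1 y + iteratedFDeriv ℝ j T2 y :=
    iteratedFDeriv_add_apply c1'.contDiffAt c2'.contDiffAt
  rw [e0, e2]
  have b1 := B_bd hTH hd hC' hμ hV hn hε hβ hCd hsf
    (fun r y z h1 h2 h3 => (hdf μ hμ n hn ε hε hε1 r y z h1 h2 h3).1) j
    (fun z => fderiv ℝ (K2 β ε) z n) P2 (2 / ε) _ hP20 (by positivity) (d2'.mono (by omega)) o2 sa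
    (fun r h1 h2 => by
      have hr0 : 0 < r := by linarith
      rw [abs_neg, abs_of_pos (by positivity), div_le_div_iff₀ (by positivity) hε]
      nlinarith) w hw1 hw2 y
  have b2 := B_bd hTH hd hC' hμ hV hn hε hβ hCd hsf.pT
    (fun r y z h1 h2 h3 => (hdf μ hμ n hn ε hε hε1 r y z h1 h2 h3).2) j
    (fun z => fderiv ℝ (Bp β) z n) P0 2 _ hP00 zero_le_two (d1'.mono (by omega)) o1 sb
    (fun r _ _ => by
      rw [abs_of_pos (by positivity)]
      linarith) w hw1 hw2 y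
  have hT : 0 ≤ tav (X2 μ n) 1 y := by
    refine intervalIntegral.integral_nonneg (by norm_num) fun r hr => ?_
    have h0 : (0 : ℝ) ≤ r := by
      have := hr.1
      linarith
    exact mul_nonneg (le_max_left _ _) (X2_nonneg μ n h0 y)
  have hv1 : 0 ≤ vv μ 1 y := Real.sqrt_nonneg _
  have hF0 : 0 ≤ FF C0 μ n y := by
    unfold FF
    positivity
  have hs := Real.sqrt_nonneg (FF C0 μ n y)
  have h1 : 1 ≤ 2 / ε := by
    rw [le_div_iff₀ hε]
    linarith
  have h3 : (2 / ε) ^ j ≤ (2 / ε) ^ J := pow_le_pow_right₀ h1 hj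
  have main : |(iteratedFDeriv ℝ j T1 y + iteratedFDeriv ℝ j T2 y) w|
      ≤ c1 * Real.sqrt (FF C0 μ n y) := by
    have e3 : (iteratedFDeriv ℝ j T1 y + iteratedFDeriv ℝ j T2 y) w
        = iteratedFDeriv ℝ j T1 y w + iteratedFDeriv ℝ j T2 y w := rfl
    rw [e3]
    refine (abs_add_le _ _).trans ((add_le_add b1 b2).trans ?_)
    rw [← hkb]
    calc (2 / ε) ^ j * ((2 / ε) * (P2 * kb) * Cd * Real.sqrt (FF C0 μ n y))
          + (2 / ε) ^ j * (2 * (P0 * kb) * Cd * Real.sqrt (FF C0 μ n y))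
        ≤ (2 / ε) ^ J * ((2 / ε) * (P2 * kb) * Cd * Real.sqrt (FF C0 μ n y))
          + (2 / ε) ^ J * (2 * (P0 * kb) * Cd * Real.sqrt (FF C0 μ n y)) := by gcongr
      _ = _ := by
          rw [hc1]
          ring
  rw [← sq_abs]
  calc |(iteratedFDeriv ℝ j T1 y + iteratedFDeriv ℝ j T2 y) w| ^ 2
      ≤ (c1 * Real.sqrt (FF C0 μ n y)) ^ 2 := pow_le_pow_left₀ (abs_nonneg _) main 2
    _ = c1 ^ 2 * (C0 * vQ d * volume.real (closedBall (0 : Sp d) 2)) * vv μ 1 y
        * tav (X2 μ n) 1 y := by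
        rw [mul_pow, Real.sq_sqrt hF0]
        unfold FF
        ring
    _ ≤ _ := by
        refine mul_le_mul_of_nonneg_right (mul_le_mul_of_nonneg_right (by linarith) hv1) hT

end

end TG
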