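import Pool.Agent.TG.WBA
import Pool.Agent.TG.WBb
import Pool.Agent.TG.WBC

/-!
# Module WB: the sharp derivative bounds
-/

open MeasureTheory Metric Set TrI
open scoped InnerProductSpace ContDiff

namespace TG

theorem stmtWB (h : StmtTH) (h1 : StmtWA) : StmtWB := by
  intro d J hd M C' ε hC' hε hε1
  obtain ⟨Ca, hCa, ha⟩ := WBT.wb_a h d J hd M C' ε hC' hε hε1
  obtain ⟨Cb, hCb, hb⟩ := wb_b h h1 d J hd M C' ε hC' hε hε1
  obtain ⟨Cc, hCc, hc⟩ := wb_cd h d J hd M C' ε hC' hε hε1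
  obtain ⟨C1, _, hw⟩ := h1 d J hd M C' ε hC' hε hε1
  refine ⟨Ca + Cb + Cc, by positivity, fun β hβ μ hμ n hn => ?_⟩
  have hv : ∀ y, 0 ≤ vv μ 1 y := fun y => Real.sqrt_nonneg _
  have hX : ∀ y, 0 ≤ X13 β ε μ n 1 y := ((hw β hβ μ hμ).2.2.2.2 n hn).2.2.2.2.1
  have hD : ∀ y, 0 ≤ discR n (2 * ε) (X13 β ε μ n 1) y := fun y =>
    integral_nonneg fun _ => hX _
  have hT : ∀ y, 0 ≤ tav (X2 μ n) 1 y := by
    intro y
    refine intervalIntegral.integral_nonneg (by norm_num) fun r hr => ?_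
    have h0 : (0 : ℝ) ≤ r := by
      have := hr.1
      linarith
    exact mul_nonneg (le_max_left _ _) (X2_nonneg μ n h0 y)
  have m1 : ∀ (K : ℝ) (y : Sp d), K ≤ Ca + Cb + Cc →
      K * vv μ 1 y * discR n (2 * ε) (X13 β ε μ n 1) y
        ≤ (Ca + Cb + Cc) * vv μ 1 y * discR n (2 * ε) (X13 β ε μ n 1) y := fun K y hK =>
    mul_le_mul_of_nonneg_right (mul_le_mul_of_nonneg_right hK (hv y)) (hD y)
  refine ⟨fun j hj y => (ha β hβ μ hμ n hn j hj y).trans (m1 _ _ (by linarith)),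
    fun j hj w hw1 hw2 y => (hb β hβ μ hμ n hn j hj w hw1 hw2 y).trans ?_,
    fun j hj w hw1 hw2 y => ⟨((hc β hβ μ hμ n hn).1 j hj w hw1 hw2 y).1.trans
      (m1 _ _ (by linarith)), ((hc β hβ μ hμ n hn).1 j hj w hw1 hw2 y).2.trans
      (m1 _ _ (by linarith))⟩, fun y => ?_⟩
  · exact mul_le_mul_of_nonneg_right (mul_le_mul_of_nonneg_right (by linarith) (hv y)) (hT y)
  · refine le_trans ?_ ((hc β hβ μ hμ n hn).2 y)
    have h2 := Real.sqrt_nonneg (vv μ 1 y * discR n (2 * ε) (X13 β ε μ n 1) y)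
    nlinarith

end TG
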