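import Pool.Agent.TG.Stmts13
import Pool.Agent.TG.B1
import Pool.Agent.TG.B2
import Pool.Agent.TG.CS1
import Pool.Agent.TG.CS2

/-!
# Module WB6: the plane functional and the functional Y, type B   (helper85)
-/

open MeasureTheory Metric Set TrI Filter
open scoped InnerProductSpace ContDiff Topology

set_option autoImplicit false

namespace TG

noncomputable section

namespace WB6m

open SMm B1m

variable {d : ℕ}

/-! ## bounds of all orders -/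

lemma all_of_bd (hd : 2 ≤ d) {M C' : ℝ} (hC' : 0 < C') {f : CS2.Ix d M C' → Sp d → ℝ}
    (h : ∀ N, BdN N univ CS2.wI f) {ρ : ℝ} (hρ : 0 ≤ ρ) :
    ∃ B : ℕ → ℝ, (∀ k, 0 ≤ B k) ∧ ∀ i : CS2.Ix d M C', (∀ y, ρ < ‖y‖ → f i y = 0) →
      ∀ k y, ‖iteratedFDeriv ℝ k (f i) y‖ ≤ vv i.1.μ 1 0 * B k := by
  choose C hC hb using fun N => (h N).bd
  refine ⟨fun k => C k * (1 + ρ) ^ d, fun k => mul_nonneg (hC k) (by positivity), ?_⟩
  intro i hi k y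
  have hv0 : 0 ≤ vv i.1.μ 1 0 := Real.sqrt_nonneg _
  rcases le_or_gt ‖y‖ ρ with hy | hy
  · have h1 := hb k i y (mem_univ _) k le_rfl
    have h2 := CS2.vv_grow hd hC' i.1.hμ y
    have h3 : (1 + ‖y‖) ^ d ≤ (1 + ρ) ^ d := by gcongr
    calc ‖iteratedFDeriv ℝ k (f i) y‖ ≤ C k * vv i.1.μ 1 y := h1
      _ ≤ C k * ((1 + ρ) ^ d * vv i.1.μ 1 0) := by
          refine mul_le_mul_of_nonneg_left (h2.trans ?_) (hC k)
          exact mul_le_mul_of_nonneg_right h3 hv0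
      _ = _ := by ring
  · rw [it_vs hi k y hy, norm_zero]
    exact mul_nonneg hv0 (mul_nonneg (hC k) (by positivity))

lemma zR_bd {ι : Type*} (N : ℕ) {R : ℝ} (hR : 0 < R) :
    BdN N univ (fun (_ : ι) _ => (1 : ℝ)) (fun (_ : ι) (y : Sp d) => zR R y) := by
  obtain ⟨C, hC, h⟩ := sT_BF (G := Sp d) N hR
  refine ⟨fun _ => (sT_smooth hR).contDiffOn, C, hC.le, fun _ x _ j hj => ?_⟩
  rw [mul_one]
  exact h.bd j hj x

lemma zR_bd' {ι : Type*} (N : ℕ) {R : ℝ} (hR : 0 < R) :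
    BdN N univ (fun (_ : ι) _ => (1 : ℝ)) (fun (_ : ι) (y : Sp d) => 1 - zR R y) :=
  (BdN.const (N := N) (U := (univ : Set (Sp d)))
    (w := fun (_ : ι) _ => (1 : ℝ)) (fun _ => (1 : ℝ)) (B := 1) zero_le_one
    (fun i p hp => by simp)).sub isOpen_univ (zR_bd N hR)

lemma chi_vs (hd : 2 ≤ d) {p : Sp d} {r : ℝ} (hp : ‖p‖ ≤ r) {y : Sp d} (hy : r + d ≤ ‖y‖) :
    chi (y - p) = 0 := by
  refine PTm.chi_supp ?_ (by omega)
  have := norm_sub_norm_le y p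
  linarith

lemma bd_fam (hd : 2 ≤ d) (M : ℝ) {C' R0 : ℝ} (hC' : 0 < C') (hR0 : 1 ≤ R0)
    {g : CS2.Ix d M C' → Sp d → ℝ} (hg : ∀ N, BdN N univ CS2.wI g) :
    ∃ B : ℕ → ℝ, (∀ k, 0 ≤ B k) ∧ ∀ i : CS2.Ix d M C', ‖i.2‖ ≤ 3 * R0 → ∀ k y,
      ‖iteratedFDeriv ℝ k (fun x => chi (x - i.2) * g i x) y‖ ≤ vv i.1.μ 1 0 * B k := by
  have hρ : (0 : ℝ) ≤ 3 * R0 + d := by
    have : (0 : ℝ) ≤ d := Nat.cast_nonneg d
    linarith
  have c1 : ∀ N : ℕ, BdN N univ (fun (_ : CS2.Ix d M C') _ => (1 : ℝ))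
      (fun (i : CS2.Ix d M C') (y : Sp d) => chi (y - i.2)) := fun N =>
    CS2.chi'_bd N (by omega) (fun i : CS2.Ix d M C' => i.2)
  have b1 : ∀ N : ℕ, BdN N univ CS2.wI (fun (i : CS2.Ix d M C') (x : Sp d) =>
      chi (x - i.2) * g i x) := fun N => CS2.mul1 (c1 N) (hg N)
  obtain ⟨B, hB0, hB⟩ := all_of_bd hd hC' b1 hρ
  refine ⟨B, hB0, fun i hi k y => ?_⟩
  have h1 : ∀ y : Sp d, 3 * R0 + d < ‖y‖ → chi (y - i.2) * g i y = 0 := by
    intro y hy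
    rw [chi_vs hd hi hy.le, zero_mul]
  exact hB i h1 k y

section fam

variable (hd : 2 ≤ d) (M : ℝ) {C' ε p0 A R0 : ℝ} (hC' : 0 < C') (hε0 : 0 < ε) (hε : ε ≤ 1)
  (hA : 0 < A) (hR0 : 1 ≤ R0)

include hd hC' hε0 hε hA hR0

lemma bd_HH : ∃ B : ℕ → ℝ, (∀ k, 0 ≤ B k) ∧ ∀ i : CS2.Ix d M C', ‖i.2‖ ≤ 3 * R0 →
    ∀ a c k y, ‖iteratedFDeriv ℝ k (fun x => chi (x - i.2) * HHm i.1.β ε p0 A i.1.μ a c x) y‖ ≤
      vv i.1.μ 1 0 * B k := by
  have h := fun a c : Fin d => bd_fam (R0 := R0) hd M hC' hR0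
    (g := fun (i : CS2.Ix d M C') (x : Sp d) => HHm i.1.β ε p0 A i.1.μ a c x)
    (fun N => CS2.HH_bd hd hC' hε0 hε hA N a c)
  choose B h0 hB using h
  refine ⟨fun k => ∑ a, ∑ c, B a c k, fun k =>
    Finset.sum_nonneg fun a _ => Finset.sum_nonneg fun c _ => h0 a c k, ?_⟩
  intro i hi a c k y
  refine (hB a c i hi k y).trans (mul_le_mul_of_nonneg_left ?_ (Real.sqrt_nonneg _))
  exact (Finset.single_le_sum (f := fun c => B a c k) (fun c _ => h0 a c k)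
      (Finset.mem_univ c)).trans (Finset.single_le_sum (f := fun a => ∑ c, B a c k)
      (fun a _ => Finset.sum_nonneg fun c _ => h0 a c k) (Finset.mem_univ a))

lemma bd_HHz : ∃ B : ℕ → ℝ, (∀ k, 0 ≤ B k) ∧ ∀ i : CS2.Ix d M C', ‖i.2‖ ≤ 3 * R0 →
    ∀ a c k y, ‖iteratedFDeriv ℝ k (fun x => chi (x - i.2) *
      ((1 - zR (2 * R0 - 1) x) * HHm i.1.β ε p0 A i.1.μ a c x)) y‖ ≤ vv i.1.μ 1 0 * B k := by
  have c1 : ∀ N : ℕ, BdN N univ (fun (_ : CS2.Ix d M C') _ => (1 : ℝ))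
      (fun (_ : CS2.Ix d M C') (y : Sp d) => 1 - zR (2 * R0 - 1) y) := fun N =>
    zR_bd' N (by linarith)
  have c2 : ∀ (a c : Fin d) (N : ℕ), BdN N univ CS2.wI (fun (i : CS2.Ix d M C') (x : Sp d) =>
      (1 - zR (2 * R0 - 1) x) * HHm i.1.β ε p0 A i.1.μ a c x) := fun a c N =>
    CS2.mul1 (c1 N) (CS2.HH_bd hd hC' hε0 hε hA N a c)
  have h := fun a c : Fin d => bd_fam (R0 := R0) hd M hC' hR0
    (g := fun (i : CS2.Ix d M C') (x : Sp d) =>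
      (1 - zR (2 * R0 - 1) x) * HHm i.1.β ε p0 A i.1.μ a c x)
    (fun N => c2 a c N)
  choose B h0 hB using h
  refine ⟨fun k => ∑ a, ∑ c, B a c k, fun k =>
    Finset.sum_nonneg fun a _ => Finset.sum_nonneg fun c _ => h0 a c k, ?_⟩
  intro i hi a c k y
  refine (hB a c i hi k y).trans (mul_le_mul_of_nonneg_left ?_ (Real.sqrt_nonneg _))
  exact (Finset.single_le_sum (f := fun c => B a c k) (fun c _ => h0 a c k)
      (Finset.mem_univ c)).trans (Finset.single_le_sum (f := fun a => ∑ c, B a c k)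
      (fun a _ => Finset.sum_nonneg fun c _ => h0 a c k) (Finset.mem_univ a))

lemma bd_GG : ∃ B : ℕ → ℝ, (∀ k, 0 ≤ B k) ∧ ∀ i : CS2.Ix d M C', ‖i.2‖ ≤ 3 * R0 →
    ∀ k y, ‖iteratedFDeriv ℝ k (fun x => chi (x - i.2) * GG i.1.β ε i.1.μ 1 x) y‖ ≤
      vv i.1.μ 1 0 * B k :=
  bd_fam (R0 := R0) hd M hC' hR0
    (g := fun (i : CS2.Ix d M C') (x : Sp d) => GG i.1.β ε i.1.μ 1 x)
    (fun N => CS2.G_bd hd hC' hε0 hε hA N)

end fam

lemma HH_smooth (hd : 2 ≤ d) {M C' ε p0 A : ℝ} (hC' : 0 < C') (hε0 : 0 < ε) (hε : ε ≤ 1)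
    (hA : 0 < A) {β : Sp d → ℝ} (hβ : Kit 4 M β) {μ : Measure (Sp d)} (hμ : Gro C' μ)
    (a c : Fin d) : ContDiff ℝ ∞ (HHm β ε p0 A μ a c) := by
  obtain ⟨n0, hn0⟩ := B2m.exists_unit (d := d) (by omega)
  have h := (CS2.HH_bd (M := M) (p0 := p0) hd hC' hε0 hε hA 0 a c).smooth
    (⟨⟨β, μ, n0, hβ, hμ, hn0⟩, 0⟩ : CS2.Ix d M C')
  exact contDiffOn_univ.1 h

lemma GG_smooth (hd : 2 ≤ d) {M C' ε : ℝ} (hC' : 0 < C') (hε0 : 0 < ε) (hε : ε ≤ 1)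
    {β : Sp d → ℝ} (hβ : Kit 4 M β) {μ : Measure (Sp d)} (hμ : Gro C' μ) :
    ContDiff ℝ ∞ (GG β ε μ 1) := by
  obtain ⟨n0, hn0⟩ := B2m.exists_unit (d := d) (by omega)
  have h := (CS2.G_bd (M := M) hd hC' hε0 hε (A := 1) one_pos 0).smooth
    (⟨⟨β, μ, n0, hβ, hμ, hn0⟩, 0⟩ : CS2.Ix d M C')
  exact contDiffOn_univ.1 h

/-! ## monotonicity of the hypotheses -/

lemma ZP_mono {R R' D : ℝ} {m : Sp d → ℝ} (h : ZP R D m) (hR : R' ≤ R) : ZP R' D m :=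
  fun H h1 h2 h3 h4 h5 => h H h1 h2 h3 h4 fun y hy => h5 y (hR.trans hy)

lemma MG_mono {K γ R R' a D : ℝ} {m : Sp d → ℝ} (h : MG K γ R a D m) (hR : R' ≤ R) :
    MG K γ R' a D m := fun ρ h1 h2 => h ρ h1 (h2.trans hR)

lemma Str_mono {J rm : ℕ} {R1 Rs Rs' e e' a : ℝ} {m : Sp d → ℝ} {r : ℕ} {ν : Fin r → Sp d}
    {κ : Fin r → Sp d → ℝ} (h : Str J rm R1 Rs e a m r ν κ) (hR : Rs' ≤ Rs) (he : e ≤ e')
    (ha : 0 ≤ a) : Str J rm R1 Rs' e' a m r ν κ where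
  rle := h.rle
  n1 := h.n1
  k0 := h.k0
  kb := h.kb
  ks := fun i y hy => (h.ks i y hy).trans (by linarith)
  kt := h.kt
  est := fun ζ N hζ hs => (h.est ζ N hζ fun y hy => hs y (hR.trans hy)).trans (by
    have hN : 0 ≤ N := PTm.TFn.nonneg hζ
    gcongr)

/-! ## sums of pieces -/

lemma Ad_zero {ρ : ℝ} : Ad ρ 0 (fun _ : Sp d => (0 : ℝ)) where
  sm := contDiff_const
  bf := by
    have := BF.const (G := Sp d) (J := 2) 0
    simpa using this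
  vs := fun _ _ => rfl

lemma Ad_sum {ι : Type*} {ρ : ℝ} {N : ι → ℝ} {g : ι → Sp d → ℝ} (S : Finset ι)
    (h : ∀ i ∈ S, Ad ρ (N i) (g i)) : Ad ρ (∑ i ∈ S, N i) (fun x => ∑ i ∈ S, g i x) := by
  classical
  induction S using Finset.induction_on with
  | empty =>
    simp only [Finset.sum_empty]
    exact Ad_zero
  | insert i I hi ih =>
    have h1 := (h i (Finset.mem_insert_self i I)).add
      (ih fun j hj => h j (Finset.mem_insert_of_mem hj))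
    rw [Finset.sum_insert hi]
    simpa only [Finset.sum_insert hi] using h1

lemma Lm_sum (hPF : StmtPF) (hd : 1 ≤ d) {ρ R1 Rs : ℝ} {ν : Sp d} {κ : Sp d → ℝ}
    (hρ : ρ ≤ Rs + 2) (hP : Pc R1 Rs ν κ) {m : Sp d → ℝ} (hm : Continuous m) {ι : Type*}
    (S : Finset ι) {N : ι → ℝ} {g : ι → Sp d → ℝ} (h : ∀ i ∈ S, Ad ρ (N i) (g i)) :
    Lm m ν κ (fun x => ∑ i ∈ S, g i x) = ∑ i ∈ S, Lm m ν κ (g i) := by
  classical
  induction S using Finset.induction_on with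
  | empty =>
    simp only [Finset.sum_empty]
    have := Lm_cmul (m := m) (ν := ν) (κ := κ) (g := fun _ => (0 : ℝ)) 0
    simpa using this
  | insert i I hi ih =>
    simp only [Finset.sum_insert hi]
    rw [Lm_add hPF hd hρ hP hm (h i (Finset.mem_insert_self i I))
      (Ad_sum I fun j hj => h j (Finset.mem_insert_of_mem hj)),
      ih fun j hj => h j (Finset.mem_insert_of_mem hj)]

lemma pieces_split (hPF : StmtPF) (hd : 1 ≤ d) {ρ R1 Rs e a : ℝ} {J rm r : ℕ}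
    {ν : Fin r → Sp d} {κ : Fin r → Sp d → ℝ} {m : Sp d → ℝ} (hρ : ρ ≤ Rs + 2)
    (hS : Str J rm R1 Rs e a m r ν κ) (hm : Continuous m) {ι : Type*} (S : Finset ι) {N : ℝ}
    {F : Sp d → Sp d → ℝ} {G H : ι → Sp d → Sp d → ℝ}
    (hG : ∀ q ∈ S, ∀ n : Sp d, ‖n‖ = 1 → Ad ρ N (G q n))
    (hH : ∀ q ∈ S, ∀ n : Sp d, ‖n‖ = 1 → Ad ρ N (H q n))
    (hF : ∀ n : Sp d, ‖n‖ = 1 → ∀ x, F n x = ∑ q ∈ S, (G q n x - H q n x)) :
    pieces m ν κ F = ∑ q ∈ S, (pieces m ν κ (G q) - pieces m ν κ (H q)) := by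
  have hP : ∀ i, Pc R1 Rs (ν i) (κ i) := fun i => ⟨hS.n1 i, hS.k0 i, hS.kb i, hS.ks i⟩
  have e1 : ∀ F : Sp d → Sp d → ℝ, pieces m ν κ F = ∑ i, Lm m (ν i) (κ i) (F (ν i)) :=
    fun F => rfl
  have e2 : ∀ i, Lm m (ν i) (κ i) (F (ν i)) =
      ∑ q ∈ S, (Lm m (ν i) (κ i) (G q (ν i)) - Lm m (ν i) (κ i) (H q (ν i))) := by
    intro i
    have e3 : F (ν i) = fun x => ∑ q ∈ S, (G q (ν i) x + (-1) * H q (ν i) x) := by
      funext x
      rw [hF (ν i) (hS.n1 i) x]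
      refine Finset.sum_congr rfl fun q _ => ?_
      ring
    rw [e3, Lm_sum hPF hd hρ (hP i) hm S (N := fun _ => N + |(-1 : ℝ)| * N)
      (fun q hq => (hG q hq (ν i) (hS.n1 i)).add ((hH q hq (ν i) (hS.n1 i)).cmul (-1)))]
    refine Finset.sum_congr rfl fun q hq => ?_
    rw [Lm_add hPF hd hρ (hP i) hm (hG q hq (ν i) (hS.n1 i))
      ((hH q hq (ν i) (hS.n1 i)).cmul (-1)), Lm_cmul]
    ring
  rw [e1]
  simp only [e1, e2]
  rw [Finset.sum_comm]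
  refine Finset.sum_congr rfl fun q _ => ?_
  rw [Finset.sum_sub_distrib]

/-! ## elementary bounds -/

lemma vv_comp (hTH : StmtTH) (hd : 2 ≤ d) {C' : ℝ} (hC' : 0 < C') {μ : Measure (Sp d)}
    (hμ : Gro C' μ) {ρ : ℝ} (y y' : Sp d) (hy : ‖y - y'‖ ≤ ρ) :
    vv μ 1 y' ≤ (1 + ρ) ^ d * vv μ 1 y := by
  obtain ⟨C, hC, h1⟩ := hTH d 0 hd C' hC'
  have hρ : 0 ≤ ρ := (norm_nonneg _).trans hy
  have h2 := (h1 μ hμ).2.2.2.1 1 y y' one_pos
  have h5 : 0 ≤ th μ 1 y := ((h1 μ hμ).1 1 y one_pos).1.le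
  have h4 : (1 + ‖y - y'‖ / 1) ^ d ≤ (1 + ρ) ^ d :=
    pow_le_pow_left₀ (by positivity) (by rw [div_one]; linarith) d
  have h6 : th μ 1 y' ≤ ((1 + ρ) ^ d) ^ 2 * th μ 1 y := by
    refine h2.trans (mul_le_mul_of_nonneg_right (h4.trans ?_) h5)
    have : (1 : ℝ) ≤ (1 + ρ) ^ d := one_le_pow₀ (by linarith)
    nlinarith
  unfold vv
  calc Real.sqrt (th μ 1 y') ≤ Real.sqrt (((1 + ρ) ^ d) ^ 2 * th μ 1 y) := Real.sqrt_le_sqrt h6
    _ = _ := by rw [Real.sqrt_mul (by positivity), Real.sqrt_sq (by positivity)]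

lemma Mo_bd (hd : 2 ≤ d) {C' : ℝ} {μ : Measure (Sp d)} (hμ : Gro C' μ) {n : Sp d}
    (hn : ‖n‖ = 1) {s R2 : ℝ} (hs : |s| ≤ R2) :
    0 ≤ Mo μ n s 2 1 0 ∧ Mo μ n s 2 1 0 ≤ 2 * (1 + R2 ^ 2) * vv μ 1 0 := by
  have hfin : IsFiniteMeasure μ := hμ.fin
  have hk : ∀ η : Sp d, 0 ≤ kk 1 (0 - η) := fun η => THm.kk_nonneg one_pos _
  have hR2 : s ^ 2 ≤ R2 ^ 2 := by
    rw [← sq_abs s]
    exact pow_le_pow_left₀ (abs_nonneg _) hs 2
  have h0 : ∀ η : Sp d, 0 ≤ (⟪η, n⟫_ℝ - s) ^ 2 / (1 ^ 2 + ‖(0 : Sp d) - η‖ ^ 2) ^ 2 *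
      kk 1 (0 - η) := fun η => mul_nonneg (by positivity) (hk η)
  have h1 : ∀ η : Sp d, (⟪η, n⟫_ℝ - s) ^ 2 / (1 ^ 2 + ‖(0 : Sp d) - η‖ ^ 2) ^ 2 *
      kk 1 (0 - η) ≤ 2 * (1 + R2 ^ 2) * kk 1 (0 - η) := by
    intro η
    refine mul_le_mul_of_nonneg_right ?_ (hk η)
    rw [zero_sub, norm_neg, one_pow, div_le_iff₀ (by positivity)]
    have h2 : |⟪η, n⟫_ℝ| ≤ ‖η‖ := by
      have := abs_real_inner_le_norm η n
      rwa [hn, mul_one] at this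
    have h3 : ⟪η, n⟫_ℝ ^ 2 ≤ ‖η‖ ^ 2 := by
      rw [← sq_abs ⟪η, n⟫_ℝ]
      exact pow_le_pow_left₀ (abs_nonneg _) h2 2
    have h4 : (⟪η, n⟫_ℝ - s) ^ 2 ≤ 2 * (‖η‖ ^ 2 + R2 ^ 2) := by
      nlinarith [sq_nonneg (⟪η, n⟫_ℝ + s)]
    have h5 : 1 ≤ 1 + ‖η‖ ^ 2 := by nlinarith [sq_nonneg ‖η‖]
    have h6 : 0 ≤ R2 ^ 2 := sq_nonneg _
    have h7 : ‖η‖ ^ 2 + R2 ^ 2 ≤ (1 + R2 ^ 2) * (1 + ‖η‖ ^ 2) := by nlinarith [sq_nonneg ‖η‖]
    have h8 : (1 + R2 ^ 2) * (1 + ‖η‖ ^ 2) ≤ (1 + R2 ^ 2) * (1 + ‖η‖ ^ 2) ^ 2 :=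
      mul_le_mul_of_nonneg_left (by nlinarith) (by linarith)
    linarith
  have hth : 0 ≤ th μ 1 0 := integral_nonneg hk
  have hvv : vv μ 1 0 ^ 2 = th μ 1 0 := Real.sq_sqrt hth
  have hv0 : 0 ≤ vv μ 1 0 := Real.sqrt_nonneg _
  unfold Mo
  refine ⟨div_nonneg (integral_nonneg h0) hv0, ?_⟩
  have h2 : ∫ η, (⟪η, n⟫_ℝ - s) ^ 2 / (1 ^ 2 + ‖(0 : Sp d) - η‖ ^ 2) ^ 2 * kk 1 (0 - η) ∂μ ≤
      2 * (1 + R2 ^ 2) * vv μ 1 0 ^ 2 := by
    rw [hvv]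
    unfold th
    rw [← integral_const_mul]
    exact integral_mono_of_nonneg (Eventually.of_forall h0)
      ((THm.kk_int (by omega) μ one_pos 0).const_mul _) (Eventually.of_forall h1)
  rcases hv0.eq_or_lt with hv | hv
  · rw [← hv, div_zero, mul_zero]
  · rw [div_le_iff₀ hv]
    linarith

/-! ## frames -/

section Fr

variable {E : Type} [NormedAddCommGroup E] [InnerProductSpace ℝ E]

lemma mQ_cont (s0 : ℝ) {f : Sp d → E} (hf : Continuous f) (e : E) (Q : Cell d) :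
    Continuous (mQ s0 f e Q) := by
  unfold mQ rs
  fun_prop

lemma frame_nt (hFM : StmtFM) (hd : 2 ≤ d) {C' : ℝ} (hC' : 0 < C') {s0 : ℝ} (hs : 0 < s0)
    {μ : Measure (Sp d)} (hμ : Gro C' μ) {f : Sp d → E} (hf : Continuous f)
    (hfc : HasCompactSupport f) {M ε p0 A : ℝ} {β : Sp d → ℝ} (hβ : Kit 2 M β) (hε0 : 0 < ε)
    (hε : ε ≤ 1) (hp0 : 0 < p0) (hA : 0 < A) (b : Sp d → ℝ) (R : ℝ) {Q Q' : Cell d}
    (hQ : Q'.1 = Q.1) (e : E)
    (hc : Continuous (nt b R (fun a c z => chi (z - tw s0 Q Q') *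
      HHm β ε p0 A (muQ s0 μ Q) a c z))) :
    ∫ y, mQ s0 f e Q y * nt b R (fun a c z => chi (z - tw s0 Q Q') *
      HHm β ε p0 A (muQ s0 μ Q) a c z) y =
    ∫ y, mQ s0 f e Q' y * nt b R (fun a c z => chi z * HHm β ε p0 A (muQ s0 μ Q') a c z) y := by
  obtain ⟨-, h2, -, h4⟩ := hFM d hd C' hC' s0 hs 0 Q Q' (by rw [hQ, add_zero]) _ rfl
  obtain ⟨-, -, -, -, h5⟩ := h4 μ hμ
  have h6 := h2 E f e _ hf hfc hc
  rw [h6]
  simp only [zero_mul, pow_zero, one_mul, one_smul]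
  refine integral_congr_ae (Eventually.of_forall fun y => ?_)
  simp only
  rw [← CS1m.nt_shift]
  congr 3
  funext a c z
  have h7 := (((h5 M β hβ ε hε0 hε 0 z).2.2.2) p0 A hp0 hA).2.2.2 rfl a c
  rw [h7, add_sub_cancel_left]

lemma frame_chi (hFM : StmtFM) (hd : 2 ≤ d) {s0 : ℝ} (hs : 0 < s0) {f : Sp d → E}
    (hf : Continuous f) (hfc : HasCompactSupport f) {Q Q' : Cell d} (hQ : Q'.1 = Q.1) (e : E) :
    ∫ y, mQ s0 f e Q y * chi (y - tw s0 Q Q') = ∫ y, mQ s0 f e Q' y * chi y := by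
  obtain ⟨-, h2, -, -⟩ := hFM d hd 1 one_pos s0 hs 0 Q Q' (by rw [hQ, add_zero]) _ rfl
  have h6 := h2 E f e (fun y => chi (y - tw s0 Q Q')) hf hfc
    (TDc.chi_smooth.continuous.comp (continuous_id.sub continuous_const))
  rw [h6]
  simp only [zero_mul, pow_zero, one_mul, one_smul, add_sub_cancel_left]

lemma int_sub' {m m' ζ : Sp d → ℝ} (hm : Continuous m) (hm' : Continuous m')
    (hζ : Continuous ζ) (hc : HasCompactSupport ζ) :
    ∫ y, (m' y - m y) * ζ y = (∫ y, m' y * ζ y) - ∫ y, m y * ζ y := by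
  have i1 : Integrable (fun y => m' y * ζ y) :=
    (hm'.mul hζ).integrable_of_hasCompactSupport hc.mul_left
  have i2 : Integrable (fun y => m y * ζ y) :=
    (hm.mul hζ).integrable_of_hasCompactSupport hc.mul_left
  rw [← integral_sub i1 i2]
  refine integral_congr_ae (Eventually.of_forall fun y => ?_)
  simp only
  ring

end Fr

/-! ## the neighbours of the same level -/

lemma card_nst (r : ℝ) : ∃ N : ℕ, ∀ (s0 : ℝ) (JA : ℕ) (Q : Cell d),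
    ((nst s0 r JA Q).filter (fun Q' => Q'.1 = Q.1)).card ≤ N := by
  classical
  refine ⟨(2 * (⌈r⌉ + 1) + 1).toNat ^ d, fun s0 JA Q => ?_⟩
  have h1 : (nst s0 r JA Q).filter (fun Q' => Q'.1 = Q.1) ⊆
      ({Q.1} : Finset ℕ) ×ˢ Fintype.piFinset fun j =>
        Finset.Icc (Q.2 j - (⌈r⌉ + 1)) (Q.2 j + (⌈r⌉ + 1)) := by
    intro Q' hQ'
    rw [Finset.mem_filter] at hQ'
    obtain ⟨h1, h2⟩ := hQ'
    unfold nst at h1
    rw [Finset.mem_filter, Finset.mem_biUnion] at h1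
    obtain ⟨⟨i, -, h3⟩, -⟩ := h1
    rw [Finset.mem_product, Finset.mem_singleton] at h3
    obtain ⟨h4, h5⟩ := h3
    have hi : i = 0 := by omega
    subst hi
    rw [Finset.mem_product, Finset.mem_singleton]
    refine ⟨h2, ?_⟩
    simpa using h5
  refine (Finset.card_le_card h1).trans (le_of_eq ?_)
  rw [Finset.card_product, Finset.card_singleton, one_mul, Fintype.card_piFinset]
  have h2 : ∀ j : Fin d, (Finset.Icc (Q.2 j - (⌈r⌉ + 1)) (Q.2 j + (⌈r⌉ + 1))).card =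
      (2 * (⌈r⌉ + 1) + 1).toNat := by
    intro j
    rw [Int.card_Icc]
    congr 1
    ring
  simp only [h2, Finset.prod_const, Finset.card_univ, Fintype.card_fin]

/-- upper bound of the mass in a ball by the masses in the cells -/
lemma mass_split (hd : 2 ≤ d) {R' R0 Rz D Kc Kz Nn : ℝ} (hKc : 0 < Kc) (hKz : 0 < Kz)
    (hc : BF 2 Kc (chi : Sp d → ℝ)) (hz : BF 2 Kz (zR R' : Sp d → ℝ)) {m : Sp d → ℝ}
    (hm : Continuous m) (hZ : ZP Rz D m) (h1 : R' + 1 ≤ Rz) (h2 : 3 * R0 + d ≤ Rz)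
    {ι : Type*} (S : Finset ι) {x : ι → Sp d} (hx : ∀ q ∈ S, ‖x q‖ ≤ 3 * R0)
    (hS : (S.card : ℝ) ≤ Nn)
    (hsum : ∀ y : Sp d, ‖y‖ ≤ R' + 1 → ∑ q ∈ S, chi (y - x q) = 1) :
    ∫ y, m y * zR R' y ≤ (∑ q ∈ S, ∫ y, m y * chi (y - x q)) + (Nn * Kc + Kz) * D := by
  have hcx : ∀ q, BF 2 Kc (fun y : Sp d => chi (y - x q)) := by
    intro q
    have h3 := hc.comp_aff (ContinuousLinearMap.id ℝ (Sp d)) ContinuousLinearMap.norm_id_le
      (-(x q))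
    simpa [sub_eq_add_neg] using h3
  have hi1 : ∀ q, Integrable (fun y => m y * chi (y - x q)) := by
    intro q
    refine (hm.mul (hcx q).smooth.continuous).integrable_of_hasCompactSupport ?_
    refine HasCompactSupport.mul_left ?_
    exact (TDc.chi_cs (by omega)).comp_homeomorph (Homeomorph.subRight (x q))
  have hi2 : Integrable (fun y => m y * zR R' y) :=
    (hm.mul hz.smooth.continuous).integrable_of_hasCompactSupport (sT_cs R').mul_left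
  have hi3 : Integrable (fun y => ∑ q ∈ S, m y * chi (y - x q)) :=
    integrable_finsetSum _ fun q _ => hi1 q
  set G : Sp d → ℝ := fun y => (∑ q ∈ S, chi (y - x q)) + (-1) * zR R' y with hG
  have hGb : BF 2 (Nn * Kc + Kz) G := by
    have h3 := (BF_sum S hcx).add (hz.const_mul (-1))
    refine h3.mono ?_
    rw [Finset.sum_const, nsmul_eq_mul, abs_neg, abs_one, one_mul]
    have := mul_le_mul_of_nonneg_right hS hKc.le
    linarith
  have hG0 : ∀ y, 0 ≤ G y := by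
    intro y
    simp only [hG]
    rcases le_or_gt ‖y‖ (R' + 1) with hy | hy
    · rw [hsum y hy]
      have := sT_le_one R' y
      rw [zR_eq]
      linarith
    · have h3 : zR R' y = 0 := sT_zero hy.le
      rw [h3, mul_zero, add_zero]
      exact Finset.sum_nonneg fun q _ => PTm.chi_nonneg _
  have hGs : ∀ y, Rz ≤ ‖y‖ → G y = 0 := by
    intro y hy
    have h3 : zR R' y = 0 := sT_zero (by linarith)
    simp only [hG, h3, mul_zero, add_zero]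
    exact Finset.sum_eq_zero fun q hq => chi_vs hd (hx q hq) (by linarith)
  have hNn : 0 ≤ Nn := (Nat.cast_nonneg _).trans hS
  have h4 := B2m.zp_use hZ (K := Nn * Kc + Kz) (by positivity) hGb hG0 hGs
  have h5 : ∫ y, m y * G y = (∑ q ∈ S, ∫ y, m y * chi (y - x q)) - ∫ y, m y * zR R' y := by
    rw [← integral_finsetSum _ fun q _ => hi1 q, ← integral_sub hi3 hi2]
    refine integral_congr_ae (Eventually.of_forall fun y => ?_)
    simp only [hG]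
    rw [← Finset.mul_sum]
    ring
  rw [h5] at h4
  linarith

/-- the plane functional is controlled by the mass -/
lemma bq_le (hd : 2 ≤ d) {R0 : ℝ} (hR0 : 1 ≤ R0) : ∃ K : ℝ, 0 < K ∧
    ∀ (Rz D : ℝ) (m : Sp d → ℝ), Continuous m → 0 ≤ D → R0 + 1 ≤ Rz → ZP Rz D m →
      bq R0 m ≤ max 0 ((R0 + 1) ^ 2 * ∫ y, m y * zR R0 y) + K * D := by
  obtain ⟨K, hK1, hK⟩ := SH.zq_tfn (d := d) (R := R0) (by linarith) 2
  obtain ⟨Kz, hKz, hz⟩ := sT_BF (G := Sp d) 2 (R := R0) (by linarith)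
  have hK0 : 0 < K := by linarith
  refine ⟨(R0 + 1) ^ 2 * Kz + K, by positivity, ?_⟩
  intro Rz D m hm hD hRz hZ
  obtain ⟨n0, hn0⟩ := B2m.exists_unit (d := d) (by omega)
  have hb : ∀ (n : Sp d) (s : ℝ), ‖n‖ = 1 → |s| ≤ R0 + 1 →
      BF 2 K (fun y => zR R0 y * hgt n s y ^ 2) := fun n s hn hs => by
    have h1 := hK n s hn (by linarith)
    exact ⟨h1.smooth, h1.bd⟩
  have hzr : ∀ (n : Sp d) (s : ℝ) (y : Sp d), R0 + 1 ≤ ‖y‖ → zR R0 y * hgt n s y ^ 2 = 0 :=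
    fun n s y hy => by
      have : zR R0 y = 0 := sT_zero hy
      rw [this, zero_mul]
  have hlow : ∀ (n : Sp d) (s : ℝ), ‖n‖ = 1 → |s| ≤ R0 + 1 → -(K * D) ≤ blc n s m R0 :=
    fun n s hn hs => B2m.zp_use hZ hK0 (hb n s hn hs)
      (fun y => mul_nonneg (sT_nonneg _ _) (sq_nonneg _)) (fun y hy => hzr n s y (by linarith))
  have hbd : BddBelow {v : ℝ | ∃ (n : Sp d) (s : ℝ), ‖n‖ = 1 ∧ |s| ≤ R0 + 1 ∧
      v = blc n s m R0} := ⟨-(K * D), by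
    rintro v ⟨n, s, hn, hs, rfl⟩
    exact hlow n s hn hs⟩
  have h0 : |(0 : ℝ)| ≤ R0 + 1 := by rw [abs_zero]; linarith
  have h1 : sInf {v : ℝ | ∃ (n : Sp d) (s : ℝ), ‖n‖ = 1 ∧ |s| ≤ R0 + 1 ∧
      v = blc n s m R0} ≤ blc n0 0 m R0 := csInf_le hbd ⟨n0, 0, hn0, h0, rfl⟩
  -- comparison with the mass
  set G : Sp d → ℝ := fun y => (R0 + 1) ^ 2 * zR R0 y + (-1) * (zR R0 y * hgt n0 0 y ^ 2) with hG
  have hGb : BF 2 ((R0 + 1) ^ 2 * Kz + K) G := by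
    have h2 := (hz.const_mul ((R0 + 1) ^ 2)).add ((hb n0 0 hn0 h0).const_mul (-1))
    refine h2.mono (le_of_eq ?_)
    rw [abs_neg, abs_one, one_mul, abs_of_nonneg (by positivity)]
  have hG0 : ∀ y, 0 ≤ G y := by
    intro y
    have e : G y = zR R0 y * ((R0 + 1) ^ 2 - hgt n0 0 y ^ 2) := by
      simp only [hG]; ring
    rw [e]
    rcases le_or_gt ‖y‖ (R0 + 1) with hy | hy
    · refine mul_nonneg (sT_nonneg _ _) ?_
      have h3 : |hgt n0 0 y| ≤ R0 + 1 := by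
        unfold hgt
        rw [sub_zero]
        have := abs_real_inner_le_norm n0 y
        rw [hn0, one_mul] at this
        linarith
      have h4 : hgt n0 0 y ^ 2 ≤ (R0 + 1) ^ 2 := by
        rw [← sq_abs (hgt n0 0 y)]
        exact pow_le_pow_left₀ (abs_nonneg _) h3 2
      linarith
    · have : zR R0 y = 0 := sT_zero hy.le
      rw [this, zero_mul]
  have hGs : ∀ y, Rz ≤ ‖y‖ → G y = 0 := by
    intro y hy
    have : zR R0 y = 0 := sT_zero (by linarith)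
    simp only [hG, this, zero_mul, mul_zero, add_zero]
  have h4 := B2m.zp_use hZ (K := (R0 + 1) ^ 2 * Kz + K) (by positivity) hGb hG0 hGs
  have hcs : HasCompactSupport (zR R0 : Sp d → ℝ) := sT_cs R0
  have hzc : Continuous (zR R0 : Sp d → ℝ) := hz.smooth.continuous
  have hhc : Continuous (hgt n0 0 : Sp d → ℝ) := by
    unfold hgt
    fun_prop
  have i1 : Integrable (fun y => m y * zR R0 y) :=
    (hm.mul hzc).integrable_of_hasCompactSupport hcs.mul_left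
  have i2 : Integrable (fun y => m y * (zR R0 y * hgt n0 0 y ^ 2)) :=
    (hm.mul (hzc.mul (hhc.pow 2))).integrable_of_hasCompactSupport hcs.mul_right.mul_left
  have h5 : ∫ y, m y * G y = (R0 + 1) ^ 2 * (∫ y, m y * zR R0 y) - blc n0 0 m R0 := by
    unfold blc
    rw [← integral_const_mul, ← integral_sub (i1.const_mul _) i2]
    refine integral_congr_ae (Eventually.of_forall fun y => ?_)
    simp only [hG]
    ring
  rw [h5] at h4
  unfold bq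
  have h6 : 0 ≤ ((R0 + 1) ^ 2 * Kz + K) * D := by positivity
  refine max_le ?_ ?_
  · have := le_max_left 0 ((R0 + 1) ^ 2 * ∫ y, m y * zR R0 y)
    linarith
  · have := le_max_right 0 ((R0 + 1) ^ 2 * ∫ y, m y * zR R0 y)
    linarith

/-! ## the pieces and the Newton field -/

lemma qf_HH (hHH : StmtHH) (hd : 2 ≤ d) {M C' ε p0 A : ℝ} (hC' : 0 < C') (hε0 : 0 < ε)
    (hε : ε ≤ 1) (hp0 : 0 < p0) (hp1 : p0 ≤ 1) (hA : 1 ≤ A) {β : Sp d → ℝ} (hβ : Kit 10 M β)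
    {μ : Measure (Sp d)} (hμ : Gro C' μ) (u : Sp d → ℝ) {n : Sp d} (hn : ‖n‖ = 1) :
    qf (fun a c z => u z * HHm β ε p0 A μ a c z) n = fun z => u z * Hn β ε p0 A μ n 1 z := by
  funext z
  rw [← (hHH d hd M C' ε p0 A hC' hε0 hε hp0 hp1 hA β hβ μ hμ).1 n hn z, Finset.mul_sum]
  unfold qf
  refine Finset.sum_congr rfl fun i _ => ?_
  rw [Finset.mul_sum]
  refine Finset.sum_congr rfl fun j _ => ?_
  ring

lemma pieces_congr {r : ℕ} {m : Sp d → ℝ} {ν : Fin r → Sp d} {κ : Fin r → Sp d → ℝ}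
    (hν : ∀ i, ‖ν i‖ = 1) {F G : Sp d → Sp d → ℝ} (h : ∀ n : Sp d, ‖n‖ = 1 → F n = G n) :
    pieces m ν κ F = pieces m ν κ G := by
  unfold pieces
  refine Finset.sum_congr rfl fun i _ => ?_
  rw [h (ν i) (hν i)]

lemma pieces_newton (hPF : StmtPF) (hHH : StmtHH) (hd : 2 ≤ d) {M C' ε p0 A R0 ρ : ℝ}
    (hC' : 0 < C') (hε0 : 0 < ε) (hε : ε ≤ 1) (hp0 : 0 < p0) (hp1 : p0 ≤ 1) (hA : 1 ≤ A)
    (hR0 : 1 ≤ R0) (hρ : ρ = 3 * R0 + d) {β : Sp d → ℝ} (hβ : Kit 10 M β) {μ : Measure (Sp d)}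
    (hμ : Gro C' μ) (gain : ∀ n : Sp d, ‖n‖ = 1 → ∀ y, 0 ≤ Hn β ε p0 A μ n 1 y)
    (hsm : ∀ a c, ContDiff ℝ ∞ (HHm β ε p0 A μ a c))
    {ι : Type*} (S : Finset ι) {x : ι → Sp d} (hx : ∀ q ∈ S, ‖x q‖ ≤ 3 * R0)
    (hsum : ∀ y : Sp d, ‖y‖ ≤ 2 * R0 → ∑ q ∈ S, chi (y - x q) = 1) {B : ℕ → ℝ}
    (hb1 : ∀ q ∈ S, ∀ a c k y, ‖iteratedFDeriv ℝ k
      (fun z => chi (z - x q) * HHm β ε p0 A μ a c z) y‖ ≤ vv μ 1 0 * B k)
    (hb2 : ∀ q ∈ S, ∀ a c k y, ‖iteratedFDeriv ℝ k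
      (fun z => chi (z - x q) * ((1 - zR (2 * R0 - 1) z) * HHm β ε p0 A μ a c z)) y‖ ≤
      vv μ 1 0 * B k)
    {J rm r : ℕ} {R1 Rs e a D C δ RN : ℝ} {b : Sp d → ℝ} {ν : Fin r → Sp d}
    {κ : Fin r → Sp d → ℝ} {m : Sp d → ℝ}
    (hRs : ρ ≤ Rs + 2) (hS : Str J rm R1 Rs e a m r ν κ) (hm : Continuous m)
    (hcl : ∀ (F : Fin d → Fin d → Sp d → ℝ) (N : ℝ), 0 ≤ N → (∀ i j, ContDiff ℝ ∞ (F i j)) →
        (∀ i j k y, ‖iteratedFDeriv ℝ k (F i j) y‖ ≤ N * B k) →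
        (∀ i j y, ρ ≤ ‖y‖ → F i j y = 0) → (∀ n : Sp d, ‖n‖ = 1 → ∀ y, 0 ≤ qf F n y) →
        pieces m ν κ (qf F) ≤ (∫ y, m y * nt b RN F y) + δ * a * N + C * N * D ∧
        -(C * N * D) ≤ pieces m ν κ (qf F)) :
    pieces m ν κ (fun n z => zR (2 * R0 - 1) z * Hn β ε p0 A μ n 1 z) ≤
      ∑ q ∈ S, ((∫ y, m y * nt b RN (fun a c z => chi (z - x q) * HHm β ε p0 A μ a c z) y) +
        δ * a * vv μ 1 0 + 2 * (C * vv μ 1 0 * D)) := by
  have hv0 : 0 ≤ vv μ 1 0 := Real.sqrt_nonneg _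
  have hd0 : (0 : ℝ) ≤ d := Nat.cast_nonneg d
  have hzs : ContDiff ℝ ∞ (fun z : Sp d => 1 - zR (2 * R0 - 1) z) :=
    contDiff_const.sub (sT_smooth (by linarith))
  set F1 : ι → Fin d → Fin d → Sp d → ℝ := fun q a c z => chi (z - x q) * HHm β ε p0 A μ a c z
    with hF1
  set F2 : ι → Fin d → Fin d → Sp d → ℝ := fun q a c z =>
    chi (z - x q) * ((1 - zR (2 * R0 - 1) z) * HHm β ε p0 A μ a c z) with hF2
  have hcs : ∀ q, ContDiff ℝ ∞ (fun z : Sp d => chi (z - x q)) := fun q =>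
    TDc.chi_smooth.comp (contDiff_id.sub contDiff_const)
  have hs1 : ∀ q i j, ContDiff ℝ ∞ (F1 q i j) := fun q i j => (hcs q).mul (hsm i j)
  have hs2 : ∀ q i j, ContDiff ℝ ∞ (F2 q i j) := fun q i j =>
    (hcs q).mul (hzs.mul (hsm i j))
  have hz1 : ∀ q ∈ S, ∀ i j y, ρ ≤ ‖y‖ → F1 q i j y = 0 := fun q hq i j y hy => by
    simp only [hF1]
    rw [chi_vs hd (hx q hq) (by linarith), zero_mul]
  have hz2 : ∀ q ∈ S, ∀ i j y, ρ ≤ ‖y‖ → F2 q i j y = 0 := fun q hq i j y hy => by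
    simp only [hF2]
    rw [chi_vs hd (hx q hq) (by linarith), zero_mul]
  have q1 : ∀ q (n : Sp d), ‖n‖ = 1 → qf (F1 q) n =
      fun z => chi (z - x q) * Hn β ε p0 A μ n 1 z := fun q n hn =>
    qf_HH hHH hd hC' hε0 hε hp0 hp1 hA hβ hμ (fun z => chi (z - x q)) hn
  have q2 : ∀ q (n : Sp d), ‖n‖ = 1 → qf (F2 q) n =
      fun z => chi (z - x q) * (1 - zR (2 * R0 - 1) z) * Hn β ε p0 A μ n 1 z := by
    intro q n hn
    rw [← qf_HH hHH hd hC' hε0 hε hp0 hp1 hA hβ hμ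
      (fun z => chi (z - x q) * (1 - zR (2 * R0 - 1) z)) hn]
    simp only [hF2]
    congr 1
    funext i j z
    ring
  have p1 : ∀ q (n : Sp d), ‖n‖ = 1 → ∀ y, 0 ≤ qf (F1 q) n y := fun q n hn y => by
    rw [q1 q n hn]
    exact mul_nonneg (PTm.chi_nonneg _) (gain n hn y)
  have p2 : ∀ q (n : Sp d), ‖n‖ = 1 → ∀ y, 0 ≤ qf (F2 q) n y := fun q n hn y => by
    rw [q2 q n hn]
    refine mul_nonneg (mul_nonneg (PTm.chi_nonneg _) ?_) (gain n hn y)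
    have := sT_le_one (2 * R0 - 1) y
    rw [zR_eq]
    linarith
  have a1 : ∀ q ∈ S, ∀ n : Sp d, ‖n‖ = 1 →
      Ad ρ (d * (d * (vv μ 1 0 * SB B 2))) (qf (F1 q) n) := fun q hq n hn =>
    qf_Ad (hs1 q) (fun i j => BF_of hv0 (hs1 q i j) (hb1 q hq i j) 2) (hz1 q hq) hn
  have a2 : ∀ q ∈ S, ∀ n : Sp d, ‖n‖ = 1 →
      Ad ρ (d * (d * (vv μ 1 0 * SB B 2))) (qf (F2 q) n) := fun q hq n hn =>
    qf_Ad (hs2 q) (fun i j => BF_of hv0 (hs2 q i j) (hb2 q hq i j) 2) (hz2 q hq) hn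
  have hsp := pieces_split hPF (by omega) hRs hS hm S (N := d * (d * (vv μ 1 0 * SB B 2)))
    (F := fun n z => zR (2 * R0 - 1) z * Hn β ε p0 A μ n 1 z)
    (G := fun q => qf (F1 q)) (H := fun q => qf (F2 q)) a1 a2 (by
      intro n hn z
      simp only [q1 _ n hn, q2 _ n hn]
      have e1 : ∀ q, chi (z - x q) * Hn β ε p0 A μ n 1 z -
          chi (z - x q) * (1 - zR (2 * R0 - 1) z) * Hn β ε p0 A μ n 1 z =
          chi (z - x q) * (zR (2 * R0 - 1) z * Hn β ε p0 A μ n 1 z) := fun q => by ring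
      simp only [e1]
      rw [← Finset.sum_mul]
      rcases le_or_gt ‖z‖ (2 * R0) with hz | hz
      · rw [hsum z hz, one_mul]
      · have h3 : zR (2 * R0 - 1) z = 0 := sT_zero (by linarith)
        rw [h3, zero_mul, mul_zero])
  rw [hsp]
  refine Finset.sum_le_sum fun q hq => ?_
  have c1 := (hcl (F1 q) (vv μ 1 0) hv0 (hs1 q) (hb1 q hq) (hz1 q hq) (p1 q)).1
  have c2 := (hcl (F2 q) (vv μ 1 0) hv0 (hs2 q) (hb2 q hq) (hz2 q hq) (p2 q)).2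
  linarith

/-! ## one Newton cell -/

section Cell1

variable {E : Type} [NormedAddCommGroup E] [InnerProductSpace ℝ E]

lemma gam_one {W : Wld d E} {Q : Cell d} (h : W.kd Q = 1) : W.gam Q =
    (∫ y, mQ W.s0 W.f (W.e Q) Q y *
      nt W.X.b W.X.RN (fun i j x => chi x * HHm (bQ W.X.b Q) W.X.ε W.X.p0 W.X.A
        (muQ W.s0 W.μ Q) i j x) y)
    + ∫ y, mQ W.s0 W.f (W.e Q) Q y *
      avk W.X.b W.X.RN (fun x => chi x * GG (bQ W.X.b Q) W.X.ε (muQ W.s0 W.μ Q) 1 x) y := by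
  unfold Wld.gam Gam
  rw [if_neg (by omega), if_pos h]

lemma val_one {W : Wld d E} {Q : Cell d} (h : W.kd Q = 1) : W.val Q = max 0 (W.gam Q) := by
  unfold Wld.val
  rw [if_neg (by rintro ⟨-, h2⟩; omega), if_neg (by rintro ⟨-, h2⟩; exact h2 h)]

lemma cell_newton (hNN : StmtNN) (hFM : StmtFM) (hd : 2 ≤ d) {M c0 C' R0 Rz T : ℝ} {W : Wld d E}
    (hC' : 0 < C') (hs : 0 < W.s0) (hμ : Gro C' W.μ) (hf : Continuous W.f)
    (hfc : HasCompactSupport W.f) (hb : BaseKer 2 M c0 W.X.b) (hRN : 0 < W.X.RN)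
    (hε0 : 0 < W.X.ε) (hε : W.X.ε ≤ 1) (hp0 : 0 < W.X.p0) (hA : 0 < W.X.A)
    {Q Q' : Cell d} (hQ : Q'.1 = Q.1) (hx : ‖tw W.s0 Q Q'‖ ≤ 3 * R0)
    (hβ : Kit 2 M (W.be Q))
    (hdir : ∀ (ζ : Sp d → ℝ) (N : ℝ), TFn 2 N ζ → (∀ y, Rz ≤ ‖y‖ → ζ y = 0) →
      |∫ y, (mQ W.s0 W.f (W.e Q') Q y - mQ W.s0 W.f (W.e Q) Q y) * ζ y| ≤ N * W.D Q)
    (hRz : 3 * R0 + d + 1 + W.X.RN / 2 ≤ Rz)
    (hsm : ∀ a c, ContDiff ℝ ∞ (HHm (W.be Q) W.X.ε W.X.p0 W.X.A (W.mu Q) a c)) {B : ℕ → ℝ}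
    (hb1 : ∀ a c k y, ‖iteratedFDeriv ℝ k (fun z => chi (z - tw W.s0 Q Q') *
      HHm (W.be Q) W.X.ε W.X.p0 W.X.A (W.mu Q) a c z) y‖ ≤ vv (W.mu Q) 1 0 * B k)
    (hkd : W.kd Q' = 1)
    (hav : |∫ y, W.m Q' y * avk W.X.b W.X.RN
      (fun x => chi x * GG (W.be Q') W.X.ε (W.mu Q') 1 x) y| ≤ T) :
    (∫ y, W.m Q y * nt W.X.b W.X.RN (fun a c z => chi (z - tw W.s0 Q Q') *
      HHm (W.be Q) W.X.ε W.X.p0 W.X.A (W.mu Q) a c z) y) ≤
      W.val Q' + T + W.X.RN ^ 2 * (d * (d * (vv (W.mu Q) 1 0 * SB B 4))) * W.D Q := by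
  have hv0 : 0 ≤ vv (W.mu Q) 1 0 := Real.sqrt_nonneg _
  set F : Fin d → Fin d → Sp d → ℝ := fun a c z => chi (z - tw W.s0 Q Q') *
      HHm (W.be Q) W.X.ε W.X.p0 W.X.A (W.mu Q) a c z with hF
  have hFs : ∀ i j, ContDiff ℝ ∞ (F i j) := fun i j =>
    (TDc.chi_smooth.comp (contDiff_id.sub contDiff_const)).mul (hsm i j)
  have hFz : ∀ i j y, 3 * R0 + d ≤ ‖y‖ → F i j y = 0 := fun i j y hy => by
    simp only [hF]
    rw [chi_vs hd hx hy, zero_mul]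
  obtain ⟨h1, h2⟩ := nt_BF (J := 2) hNN hd hb hRN hFs
    (fun i j => BF_of hv0 (hFs i j) (hb1 i j) 4) hFz
  have h3 := hdir (nt W.X.b W.X.RN F) _ ⟨h1.smooth, h1.bd⟩ (fun y hy => h2 y (by linarith))
  have hntc : HasCompactSupport (nt W.X.b W.X.RN F) :=
    cs_of (ρ := 3 * R0 + d + 1 + W.X.RN / 2) fun y hy => h2 y hy.le
  rw [int_sub' (mQ_cont W.s0 hf (W.e Q) Q) (mQ_cont W.s0 hf (W.e Q') Q)
    h1.smooth.continuous hntc] at h3
  have h4 := frame_nt hFM hd hC' hs hμ hf hfc (p0 := W.X.p0) hβ hε0 hε hp0 hA W.X.b W.X.RN hQ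
    (W.e Q') h1.smooth.continuous
  have hbe : bQ W.X.b Q' = W.be Q := by
    unfold Wld.be bQ
    rw [hQ]
  have h5 := gam_one hkd
  rw [hbe] at h5
  have h6 : W.gam Q' ≤ W.val Q' := by
    rw [val_one hkd]
    exact le_max_right _ _
  have hav' : |∫ y, mQ W.s0 W.f (W.e Q') Q' y * avk W.X.b W.X.RN
      (fun x => chi x * GG (W.be Q) W.X.ε (muQ W.s0 W.μ Q') 1 x) y| ≤ T := by
    have e : W.be Q' = W.be Q := hbe
    rw [← e]
    exact hav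
  have h7 := (abs_le.1 h3).1
  have h8 := (abs_le.1 hav').1
  have h9 : (∫ y, W.m Q y * nt W.X.b W.X.RN F y) =
    ∫ y, mQ W.s0 W.f (W.e Q) Q y * nt W.X.b W.X.RN F y := rfl
  have h10 : (∫ y, mQ W.s0 W.f (W.e Q') Q y * nt W.X.b W.X.RN F y) =
    ∫ y, mQ W.s0 W.f (W.e Q') Q' y * nt W.X.b W.X.RN (fun a c z => chi z *
      HHm (W.be Q) W.X.ε W.X.p0 W.X.A (muQ W.s0 W.μ Q') a c z) y := h4
  rw [h9]
  linarith

/-- values are nonnegative -/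
lemma val_nonneg {J : ℕ} {M c0 : ℝ} {W : Wld d E} (hb : BaseKer J M c0 W.X.b)
    (hab : ∀ Q, 0 ≤ W.ab Q) (Q : Cell d) : 0 ≤ W.val Q := by
  unfold Wld.val
  split_ifs
  · refine add_nonneg (mul_nonneg (hab Q) ?_) (le_max_left _ _)
    unfold plInt
    refine integral_nonneg fun y => mul_nonneg (PTm.chi_nonneg _) ?_
    exact B2m.gain_nonneg (hb.kit (Q.1 - 2)) _ _ _ _
  · exact le_rfl
  · exact le_max_left _ _

end Cell1

lemma val_far {E : Type} [NormedAddCommGroup E] [InnerProductSpace ℝ E] {W : Wld d E}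
    {Q : Cell d} (h : ¬ W.Near Q) : W.val Q = max 0 (W.gam Q) := by
  unfold Wld.val
  rw [if_neg (by rintro ⟨h2, -⟩; exact h h2), if_neg (by rintro ⟨h2, -⟩; exact h h2)]

/-- cells which are not near, with a constant independent of RN -/
lemma far_cell {JA : ℕ} {C' R0 : ℝ} {X0 : Prm d} {C5 Rz5 C6 Rz6 Rz RN : ℝ}
    (hW5 : ∀ (E : Type) [NormedAddCommGroup E] [InnerProductSpace ℝ E] [FiniteDimensional ℝ E]
      (W : Wld d E), WOK JA C' R0 Rz5 X0 W → ∀ Q : Cell d, ¬ W.Near Q →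
      W.gam Q = (∫ y, W.m Q y * (chi y * GG (W.be Q) W.X.ε (W.mu Q) 1 y)) ∧
      W.nt1 Q = W.w Q * W.gam Q ∧
      (∀ Q' ∈ adj Q, Fct W.X W.s0 W.μ W.f W.e W.kd W.nv Q Q' = 0 ∧
        Fct W.X W.s0 W.μ W.f W.e W.kd W.nv Q' Q = 0) ∧
      W.w Q * W.val Q ≤ W.nt1 Q + C5 * (W.w Q * W.v Q) * W.D Q ∧
      W.v Q * (∫ y, W.m Q y * chi y) ≤ C5 * W.val Q + C5 * W.v Q * W.D Q)
    (hW6 : ∀ (E : Type) [NormedAddCommGroup E] [InnerProductSpace ℝ E] [FiniteDimensional ℝ E]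
      (W : Wld d E), WOK JA C' R0 Rz6 { X0 with RN := RN } W → ∀ Q : Cell d, ¬ W.Near Q →
      W.gam Q = (∫ y, W.m Q y * (chi y * GG (W.be Q) W.X.ε (W.mu Q) 1 y)) ∧
      W.nt1 Q = W.w Q * W.gam Q ∧
      (∀ Q' ∈ adj Q, Fct W.X W.s0 W.μ W.f W.e W.kd W.nv Q Q' = 0 ∧
        Fct W.X W.s0 W.μ W.f W.e W.kd W.nv Q' Q = 0) ∧
      W.w Q * W.val Q ≤ W.nt1 Q + C6 * (W.w Q * W.v Q) * W.D Q ∧
      W.v Q * (∫ y, W.m Q y * chi y) ≤ C6 * W.val Q + C6 * W.v Q * W.D Q)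
    {E : Type} [NormedAddCommGroup E] [InnerProductSpace ℝ E] [FiniteDimensional ℝ E]
    {W : Wld d E} (hW : WOK JA C' R0 Rz { X0 with RN := RN } W) (hz5 : Rz5 ≤ Rz)
    (hz6 : Rz6 ≤ Rz) {Q : Cell d} (hfar : ¬ W.Near Q) :
    W.v Q * (∫ y, W.m Q y * chi y) ≤ C5 * W.val Q + C5 * W.v Q * W.D Q := by
  have hXW := hW.X_eq
  set W0 : Wld d E := { W with X := X0 } with hW0
  have hW0' : WOK JA C' R0 Rz5 X0 W0 :=
    { X_eq := rfl
      s0_pos := hW.s0_pos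
      gro := hW.gro
      fc := hW.fc
      fs := hW.fs
      eu := hW.eu
      nu := hW.nu
      ab0 := hW.ab0
      D0 := hW.D0
      zp := fun Q => ZP_mono (hW.zp Q) hz5
      dir := fun Q Q' h ζ N h1 h2 => hW.dir Q Q' h ζ N h1 fun y hy => h2 y (hz5.trans hy) }
  have hW1' : WOK JA C' R0 Rz6 { X0 with RN := RN } W :=
    { X_eq := hW.X_eq
      s0_pos := hW.s0_pos
      gro := hW.gro
      fc := hW.fc
      fs := hW.fs
      eu := hW.eu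
      nu := hW.nu
      ab0 := hW.ab0
      D0 := hW.D0
      zp := fun Q => ZP_mono (hW.zp Q) hz6
      dir := fun Q Q' h ζ N h1 h2 => hW.dir Q Q' h ζ N h1 fun y hy => h2 y (hz6.trans hy) }
  have hfar0 : ¬ W0.Near Q := by
    rintro ⟨y, h1, h2⟩
    refine hfar ⟨y, h1, ?_⟩
    rw [hXW]
    exact h2
  obtain ⟨g1, -, -, -, g5⟩ := hW5 E W0 hW0' Q hfar0
  obtain ⟨g1', -, -, -, -⟩ := hW6 E W hW1' Q hfar
  have hbe : W0.be Q = W.be Q := by
    unfold Wld.be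
    rw [hXW]
  have hε : W0.X.ε = W.X.ε := by rw [hXW]
  have hg : W0.gam Q = W.gam Q := by
    rw [g1, g1', hbe, hε]
    rfl
  have hv : W0.val Q = W.val Q := by rw [val_far hfar0, val_far hfar, hg]
  rw [hv] at g5
  exact g5

end WB6m

open WB6m SMm B1m in
/-- MODULE WB6 -/
theorem stmtWB6 (hB1 : StmtB1) (hB2 : StmtB2) (hB4 : StmtB4) (hW1 : StmtW1) (hNS : StmtNS)
    (hFM : StmtFM) (hHH : StmtHH) (hNN : StmtNN) (hPF : StmtPF) (hTH : StmtTH) : StmtWB6 := by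
  intro d J JA hd M c0 C' c R0 X0 hX C3 Ct R2 hC3 hCt hCtR hR2
  have hd1 : 1 ≤ d := by omega
  have hd0 : (0 : ℝ) ≤ d := Nat.cast_nonneg d
  have hC' := hX.C'_pos
  have hε0 := hX.prm.ε_pos
  have hε4 := hX.prm.ε_le
  have hε1 : X0.ε ≤ 1 := by linarith
  have hp0 := hX.prm.p0_pos
  have hp1 := hX.prm.p0_le
  have hA1 := hX.prm.A_ge
  have hA0 : 0 < X0.A := by linarith
  have hRge := hX.R0_ge
  have hR400 : 400 ≤ R0 := by linarith
  have hR3 : 2 * R0 ≤ 3 * R0 - d := by linarith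
  have hRA : 4 * X0.A + 4 * d + 20 ≤ R0 := by linarith
  obtain ⟨Kq, hKq, hbq⟩ := bq_le (d := d) hd (R0 := R0) (by linarith)
  obtain ⟨Nn', hNn'⟩ := card_nst (d := d) (3 * R0)
  set Nn : ℝ := (Nn' : ℝ) with hNn
  have hNn0 : 0 ≤ Nn := Nat.cast_nonneg _
  obtain ⟨CB2, hCB2, hB2'⟩ := hB2 d (J + 10) hd (by omega) M C' X0.ε X0.p0 X0.A c R0 hC' hε0
    hε4 hX.far hRA
  obtain ⟨CB4, hCB4, hB4'⟩ := hB4 d (J + 10) hd (by omega) M C' X0.ε X0.p0 X0.A c R0 Ct R2 hC' hε0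
    hε4 hX.far hRA hCt hCtR hR2
  obtain ⟨C5, Rz5, hC5, hW5⟩ := hW1 d J JA hd M c0 C' c R0 X0 hX
  obtain ⟨Kc, hKc, hchiT⟩ := PTm.chi_TFn (d := d) hd1
  have hchi : BF 2 Kc (chi : Sp d → ℝ) := ⟨hchiT.smooth, hchiT.bd⟩
  obtain ⟨Kz, hKz, hzB⟩ := sT_BF (G := Sp d) 2 (R := R0) (by linarith)
  obtain ⟨Kt, hKt, htB⟩ := sT_BF (G := Sp d) 2 (R := Ct) (by linarith)
  set Cv : ℝ := (1 + 3 * R0) ^ d with hCv
  have hCv1 : 1 ≤ Cv := one_le_pow₀ (by linarith)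
  have hCv0 : 0 < Cv := by linarith
  set CM : ℝ := 2 * (1 + R2 ^ 2) with hCM
  have hCM0 : 0 < CM := by positivity
  set Cm : ℝ := Cv * C5 with hCm
  have hCm0 : 0 < Cm := by positivity
  set CC : ℝ := CB2 + C3 * CB4 + (R0 + 1) ^ 2 * Cm + CM * C3 * Cm with hCC
  have hCC0 : 0 < CC := by positivity
  refine ⟨CC, hCC0, fun K γ δ hK hγ0 hγ hδ => ?_⟩
  obtain ⟨Ba, ha0, hBa⟩ := bd_HH (R0 := R0) (p0 := X0.p0) hd M hC' hε0 hε1 hA0 (by linarith)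
  obtain ⟨Bb, hb0, hBb⟩ := bd_HHz (R0 := R0) (p0 := X0.p0) hd M hC' hε0 hε1 hA0 (by linarith)
  obtain ⟨Bc, hc0, hBc⟩ := bd_GG (R0 := R0) hd M hC' hε0 hε1 hA0 (by linarith)
  set B : ℕ → ℝ := fun k => Ba k + Bb k + Bc k with hB
  set ρ : ℝ := 3 * R0 + d with hρ
  have hρ1 : 1 ≤ ρ := by rw [hρ]; linarith
  set δ1 : ℝ := δ / (2 * (CB2 + C3 * CB4 + 1) * (Nn + Cv)) with hδ1
  have hδ10 : 0 < δ1 := by positivity
  have hbk : BaseKer (J + 10) M c0 X0.b := hX.ker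
  have hbk2 : BaseKer 2 M c0 X0.b := PTm.base_mono (by omega) hbk
  obtain ⟨RN0, hRN01, hB1'⟩ := hB1 d hd M c0 K γ ρ δ1 B X0.b hbk2 hK hγ0 hγ hρ1 hδ10
  refine ⟨RN0, hRN01, fun RN hRN => ?_⟩
  have hRN1 : 1 ≤ RN := hRN01.trans hRN
  have hRN0 : 0 < RN := by linarith
  obtain ⟨E1, hE1, hB1''⟩ := hB1' RN hRN
  set Rs : ℝ := max (RN + ρ + 3) (2 * R0) with hRs
  obtain ⟨E2, hE2, hB2''⟩ := hB2' (δ / 2) Rs (by positivity) (le_max_right _ _)
  obtain ⟨E4, hE4, hB4''⟩ := hB4' (δ / (2 * C3)) Rs (by positivity) (le_max_right _ _)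
  refine ⟨Rs, RN + ρ + 4, fun J => min (E1 J) (min (E2 J) (E4 J)),
    fun J => lt_min (hE1 J) (lt_min (hE2 J) (hE4 J)),
    le_max_of_le_left (by linarith), fun R1 rm => ?_⟩
  obtain ⟨C1b, hC1b, hB1f⟩ := hB1'' R1 rm
  obtain ⟨C2b, hC2b, hB2f⟩ := hB2'' R1 rm
  obtain ⟨C4b, hC4b, hB4f⟩ := hB4'' R1 rm
  have hX' : XOK J JA M c0 C' c R0 { X0 with RN := RN } :=
    { J_ge := hX.J_ge
      C'_pos := hX.C'_pos
      prm := ⟨hX.prm.ker, hRN1, hX.prm.ε_pos, hX.prm.ε_le, hX.prm.p0_pos, hX.prm.p0_le,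
        hX.prm.A_ge⟩
      ker := hX.ker
      far := hX.far
      R0_ge := hX.R0_ge
      JA_ge := hX.JA_ge
      JA_7 := hX.JA_7 }
  obtain ⟨C6, Rz6, hC6, hW6⟩ := hW1 d J JA hd M c0 C' c R0 { X0 with RN := RN } hX'
  have hSB : 0 ≤ SB B 4 := SB_nonneg B 4
  set K7 : ℝ := RN ^ 2 * (d * (d * SB B 4)) with hK7
  have hK70 : 0 ≤ K7 := by positivity
  set K8 : ℝ := Nn * (2 * C1b + K7) + C1b * Cv with hK8
  have hK80 : 0 ≤ K8 := by positivity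
  set K10 : ℝ := Cv ^ 2 * C5 + 2 * (Nn * Kc) + Kz + Kt with hK10
  have hK100 : 0 < K10 := by positivity
  set C1 : ℝ := CB2 * K8 + C2b + C3 * CB4 * K8 + C3 * C4b + CM + (R0 + 1) ^ 2 * K10 + Kq +
    CM * C3 * K10 with hC1
  have hC10 : 0 < C1 := by positivity
  refine ⟨C1, max (max R1 (ρ + 1 + RN / 2)) (max Rz5 Rz6), hC10, ?_⟩
  intro E _ _ _ W hW Q hnb mass hmass hms
  set Rz : ℝ := max (max R1 (ρ + 1 + RN / 2)) (max Rz5 Rz6) with hRz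
  have hz1 : R1 ≤ Rz := (le_max_left _ _).trans (le_max_left _ _)
  have hz2 : ρ + 1 + RN / 2 ≤ Rz := (le_max_right _ _).trans (le_max_left _ _)
  have hz5 : Rz5 ≤ Rz := (le_max_left _ _).trans (le_max_right _ _)
  have hz6 : Rz6 ≤ Rz := (le_max_right _ _).trans (le_max_right _ _)
  have hXW := hW.X_eq
  have hs := hW.s0_pos
  have hXb : W.X.b = X0.b := by rw [hXW]
  have hXε : W.X.ε = X0.ε := by rw [hXW]
  have hXp : W.X.p0 = X0.p0 := by rw [hXW]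
  have hXA : W.X.A = X0.A := by rw [hXW]
  have hXR : W.X.RN = RN := by rw [hXW]
  -- the neighbours
  obtain ⟨n1, n2, n3, -, -, -, -, -⟩ := hNS d hd1 W.s0 (3 * R0) hs (by linarith) JA Q
  set S : Finset (Cell d) := (W.ns R0 JA Q).filter (fun Q' => Q'.1 = Q.1) with hS
  have hSn : ∀ Q' ∈ S, Q' ∈ W.ns R0 JA Q := fun Q' h => (Finset.mem_filter.1 h).1
  have hSl : ∀ Q' ∈ S, Q'.1 = Q.1 := fun Q' h => (Finset.mem_filter.1 h).2
  have hScard' : S.card ≤ Nn' := hNn' W.s0 JA Q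
  have hScard : (S.card : ℝ) ≤ Nn := Nat.cast_le.2 hScard'
  have hSw : ∀ Q' ∈ S, W.w Q' = W.w Q := fun Q' h => by
    have := (n2 0 (Nat.zero_le _) Q' (by rw [hSl Q' h, add_zero])).1
    rw [zero_mul, pow_zero, one_mul] at this
    exact this
  have hSx : ∀ Q' ∈ S, ‖tw W.s0 Q Q'‖ ≤ 3 * R0 := fun Q' h => by
    have := ((n2 0 (Nat.zero_le _) Q' (by rw [hSl Q' h, add_zero])).2.2).1 (hSn Q' h)
    rwa [pow_zero, mul_one] at this
  have hQn : Q ∈ W.ns R0 JA Q := by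
    refine (n1 Q).2 ⟨0, Nat.zero_le _, by rw [add_zero], ?_⟩
    rw [sub_self, norm_zero]
    have : 0 < lev W.s0 Q.1 := CS2.lev_pos hs _
    have : 0 ≤ R0 := by linarith
    positivity
  have hQS : Q ∈ S := Finset.mem_filter.2 ⟨hQn, rfl⟩
  have hsum : ∀ y : Sp d, ‖y‖ ≤ 2 * R0 → ∑ Q' ∈ S, chi (y - tw W.s0 Q Q') = 1 := by
    intro y hy
    have := n3 0 (Nat.zero_le _) y (by rw [pow_zero, mul_one]; linarith)
    simp only [add_zero, pow_zero, one_smul] at this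
    exact this
  -- frames
  have hfr : ∀ Q' ∈ S, Gro C' (W.mu Q) ∧ vv (W.mu Q) 1 0 = W.v Q ∧
      W.v Q' = vv (W.mu Q) 1 (tw W.s0 Q Q') := fun Q' h => by
    obtain ⟨-, -, -, h4⟩ := hFM d hd C' hC' W.s0 hs 0 Q Q' (by rw [hSl Q' h, add_zero]) _ rfl
    obtain ⟨g1, g2, g3, -, -⟩ := h4 W.μ hW.gro
    rw [pow_zero] at g3
    exact ⟨g1, g2, g3⟩
  have hmu : ∀ Q' : Cell d, Gro C' (W.mu Q') ∧ vv (W.mu Q') 1 0 = W.v Q' := fun Q' => by
    obtain ⟨-, -, -, h4⟩ := hFM d hd C' hC' W.s0 hs 0 Q' Q' (by rw [add_zero]) _ rfl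
    obtain ⟨g1, g2, -, -, -⟩ := h4 W.μ hW.gro
    exact ⟨g1, g2⟩
  obtain ⟨hμ, hvQ⟩ := hmu Q
  have hv0 : ∀ Q' : Cell d, 0 ≤ W.v Q' := fun Q' => Real.sqrt_nonneg _
  have hvQ0 := hv0 Q
  have hv1 : ∀ Q' ∈ S, W.v Q' ≤ Cv * W.v Q := fun Q' h => by
    rw [(hfr Q' h).2.2, ← hvQ]
    refine vv_comp hTH hd hC' hμ _ _ ?_
    rw [zero_sub, norm_neg]
    exact hSx Q' h
  have hv2 : ∀ Q' ∈ S, W.v Q ≤ Cv * W.v Q' := fun Q' h => by
    rw [(hfr Q' h).2.2, ← hvQ]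
    refine vv_comp hTH hd hC' hμ _ _ ?_
    rw [sub_zero]
    exact hSx Q' h
  have hw0 : 0 ≤ W.w Q := by
    unfold Wld.w cw
    have : 0 < lev W.s0 Q.1 := CS2.lev_pos hs _
    positivity
  have hval : ∀ Q', 0 ≤ W.val Q' := val_nonneg (J := J + 10) (M := M) (c0 := c0)
    (by rw [hXb]; exact hbk) hW.ab0
  have hbe : ∀ Q' : Cell d, W.be Q' = KN X0.b (Q'.1 - 2) := fun Q' => by
    unfold Wld.be bQ
    rw [hXb]
  have hkit : ∀ Q' : Cell d, Kit (J + 10) M (W.be Q') := fun Q' => by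
    rw [hbe]
    exact hbk.kit _
  have hkit10 : Kit 10 M (W.be Q) := PTm.kit_mono (by omega) (hkit Q)
  have hkit4 : ∀ Q', Kit 4 M (W.be Q') := fun Q' => PTm.kit_mono (by omega) (hkit Q')
  have hkit2 : Kit 2 M (W.be Q) := PTm.kit_mono (by omega) (hkit Q)
  have hwv : 0 ≤ W.w Q * W.v Q := mul_nonneg hw0 hvQ0
  have hD0 := hW.D0
  -- sums
  have hsV0 : ∀ Q' ∈ W.ns R0 JA Q, 0 ≤ W.w Q' * W.val Q' := fun Q' _ => by
    refine mul_nonneg ?_ (hval Q')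
    unfold Wld.w cw
    have : 0 < lev W.s0 Q'.1 := CS2.lev_pos hs _
    positivity
  have hsV : ∑ Q' ∈ S, W.w Q' * W.val Q' ≤ W.sV R0 JA Q :=
    Finset.sum_le_sum_of_subset_of_nonneg (Finset.filter_subset _ _) fun Q' h _ => hsV0 Q' h
  have hsV' : W.w Q * ∑ Q' ∈ S, W.val Q' ≤ W.sV R0 JA Q := by
    refine le_trans (le_of_eq ?_) hsV
    rw [Finset.mul_sum]
    exact Finset.sum_congr rfl fun Q' h => by rw [hSw Q' h]
  have hsVn : 0 ≤ W.sV R0 JA Q := Finset.sum_nonneg hsV0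
  have hsD : ∑ Q' ∈ S, W.D Q' ≤ W.sD R0 JA Q :=
    Finset.sum_le_sum_of_subset_of_nonneg (Finset.filter_subset _ _) fun Q' _ _ => hD0 Q'
  have hsDn : 0 ≤ W.sD R0 JA Q := Finset.sum_nonneg fun Q' _ => hD0 Q'
  have hDQ : W.D Q ≤ W.sD R0 JA Q :=
    Finset.single_le_sum (f := fun Q' => W.D Q') (fun Q' _ => hD0 Q') hQn
  have hmc : ∀ Q' : Cell d, Continuous (W.m Q') := fun Q' => mQ_cont W.s0 hW.fc (W.e Q') Q'
  by_cases hnear : ∃ Q' ∈ W.ns R0 JA Q, Q'.1 = Q.1 ∧ W.Near Q'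
  · -- a near cell: the masses may be used
    have hms' := hms hnear
    obtain ⟨hkQ, hnQ⟩ := hnb Q hQn rfl
    have hkd : ∀ Q' ∈ S, W.kd Q' = 1 := fun Q' h => (hnb Q' (hSn Q' h) (hSl Q' h)).1
    have hnw : ∀ Q' ∈ S, WNw K γ R1 Rs (RN + ρ + 4) rm
        (fun J => min (E1 J) (min (E2 J) (E4 J))) W Q' :=
      fun Q' h => (hnb Q' (hSn Q' h) (hSl Q' h)).2
    have haQ : W.a Q ≤ mass := (Finset.single_le_sum (f := fun Q' => W.a Q')
      (fun Q' h => (hnw Q' h).a0) hQS).trans hms'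
    obtain ⟨J', r, ν, κ, hStr⟩ := hnQ.str
    have haQ0 := hnQ.a0
    have hStr1 : Str J' rm R1 (RN + ρ + 3) (E1 J') (W.a Q) (W.m Q) r ν κ :=
      Str_mono hStr (le_max_left _ _) (min_le_left _ _) haQ0
    have hStr2 : Str J' rm R1 Rs (E2 J') (W.a Q) (W.m Q) r ν κ :=
      Str_mono hStr le_rfl ((min_le_right _ _).trans (min_le_left _ _)) haQ0
    have hStr4 : Str J' rm R1 Rs (E4 J') (W.a Q) (W.m Q) r ν κ :=
      Str_mono hStr le_rfl ((min_le_right _ _).trans (min_le_right _ _)) haQ0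
    have hZQ : ZP R1 (W.D Q) (W.m Q) := ZP_mono (hW.zp Q) hz1
    obtain ⟨hcl1, -, -⟩ := hB1f (W.m Q) (W.a Q) (W.D Q) J' r ν κ (hmc Q) haQ0 (hD0 Q) hZQ hStr1
      hnQ.mg
    obtain ⟨n0, hn0⟩ := B2m.exists_unit (d := d) hd1
    have hgain : ∀ n : Sp d, ‖n‖ = 1 → ∀ y,
        0 ≤ Hn (W.be Q) X0.ε X0.p0 X0.A (W.mu Q) n 1 y := fun n hn y =>
      (mul_nonneg hX.far.c_pos.le (B2m.gain_nonneg (hkit Q) _ _ _ _)).trans
        (hX.far.gain (W.be Q) (hkit Q) (W.mu Q) hμ n hn y)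
    have hsm : ∀ a c, ContDiff ℝ ∞ (HHm (W.be Q) X0.ε X0.p0 X0.A (W.mu Q) a c) := fun a c =>
      HH_smooth hd hC' hε0 hε1 hA0 (hkit4 Q) hμ a c
    have hBn : ∀ k, Ba k ≤ B k ∧ Bb k ≤ B k ∧ Bc k ≤ B k := fun k => by
      have := ha0 k
      have := hb0 k
      have := hc0 k
      refine ⟨?_, ?_, ?_⟩ <;> simp only [hB] <;> linarith
    have hb1 : ∀ Q' ∈ S, ∀ a c k y, ‖iteratedFDeriv ℝ k (fun z => chi (z - tw W.s0 Q Q') *
        HHm (W.be Q) X0.ε X0.p0 X0.A (W.mu Q) a c z) y‖ ≤ vv (W.mu Q) 1 0 * B k := by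
      intro Q' h a c k y
      exact (hBa ⟨⟨W.be Q, W.mu Q, n0, hkit4 Q, hμ, hn0⟩, tw W.s0 Q Q'⟩ (hSx Q' h) a c k y).trans
        (mul_le_mul_of_nonneg_left (hBn k).1 (Real.sqrt_nonneg _))
    have hb2 : ∀ Q' ∈ S, ∀ a c k y, ‖iteratedFDeriv ℝ k (fun z => chi (z - tw W.s0 Q Q') *
        ((1 - zR (2 * R0 - 1) z) * HHm (W.be Q) X0.ε X0.p0 X0.A (W.mu Q) a c z)) y‖ ≤
        vv (W.mu Q) 1 0 * B k := by
      intro Q' h a c k y
      exact (hBb ⟨⟨W.be Q, W.mu Q, n0, hkit4 Q, hμ, hn0⟩, tw W.s0 Q Q'⟩ (hSx Q' h) a c k y).trans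
        (mul_le_mul_of_nonneg_left (hBn k).2.1 (Real.sqrt_nonneg _))
    have hP1 := pieces_newton hPF hHH hd hC' hε0 hε1 hp0 hp1 hA1 (R0 := R0) (by linarith)
      (ρ := ρ) hρ hkit10 hμ hgain hsm S hSx hsum hb1 hb2 (Rs := RN + ρ + 3) (by linarith) hStr1
      (hmc Q) hcl1
    have hP2 : ∀ Q' ∈ S, (∫ y, W.m Q y * nt X0.b RN (fun a c z => chi (z - tw W.s0 Q Q') *
        HHm (W.be Q) X0.ε X0.p0 X0.A (W.mu Q) a c z) y) ≤ W.val Q' +
          (δ1 * W.a Q' * W.v Q' + C1b * W.v Q' * W.D Q') + K7 * W.v Q * W.D Q := by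
      intro Q' h
      obtain ⟨J2, r2, ν2, κ2, hStr'⟩ := (hnw Q' h).str
      have ha0' := (hnw Q' h).a0
      have hStr1' : Str J2 rm R1 (RN + ρ + 3) (E1 J2) (W.a Q') (W.m Q') r2 ν2 κ2 :=
        Str_mono hStr' (le_max_left _ _) (min_le_left _ _) ha0'
      obtain ⟨-, -, hcl3⟩ := hB1f (W.m Q') (W.a Q') (W.D Q') J2 r2 ν2 κ2 (hmc Q') ha0' (hD0 Q')
        (ZP_mono (hW.zp Q') hz1) hStr1' (hnw Q' h).mg
      obtain ⟨hμ', hvQ'⟩ := hmu Q'
      have hGs : ContDiff ℝ ∞ (fun x => chi x * GG (W.be Q') X0.ε (W.mu Q') 1 x) :=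
        TDc.chi_smooth.mul (GG_smooth hd hC' hε0 hε1 (hkit4 Q') hμ')
      have hav := hcl3 (fun x => chi x * GG (W.be Q') X0.ε (W.mu Q') 1 x) (vv (W.mu Q') 1 0)
        (Real.sqrt_nonneg _) hGs (fun k y => by
          have h1 := hBc ⟨⟨W.be Q', W.mu Q', n0, hkit4 Q', hμ', hn0⟩, 0⟩ (by
            rw [norm_zero]; linarith) k y
          simp only [sub_zero] at h1
          exact h1.trans (mul_le_mul_of_nonneg_left (hBn k).2.2 (Real.sqrt_nonneg _)))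
        (fun y hy => by rw [PTm.chi_supp (by linarith) hd1, zero_mul])
      rw [hvQ'] at hav
      have h1 := cell_newton hNN hFM hd (M := M) (c0 := c0) (R0 := R0) (Rz := Rz)
        (T := δ1 * W.a Q' * W.v Q' + C1b * W.v Q' * W.D Q') (W := W) hC' hs hW.gro hW.fc hW.fs
        (by rw [hXb]; exact hbk2) (by rw [hXR]; exact hRN0) (by rw [hXε]; exact hε0)
        (by rw [hXε]; exact hε1) (by rw [hXp]; exact hp0) (by rw [hXA]; exact hA0) (hSl Q' h)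
        (hSx Q' h) hkit2 (hW.dir Q Q' (hSn Q' h)) (by rw [hXR]; linarith)
        (by rw [hXε, hXp, hXA]; exact hsm) (B := B) (by rw [hXε, hXp, hXA]; exact hb1 Q' h)
        (hkd Q' h) (by rw [hXb, hXR, hXε]; exact hav)
      rw [hXb, hXR, hXε, hXp, hXA, hvQ] at h1
      refine h1.trans (le_of_eq ?_)
      rw [hK7]
      ring
    set P : ℝ := pieces (W.m Q) ν κ
      (fun n z => zR (2 * R0 - 1) z * Hn (W.be Q) X0.ε X0.p0 X0.A (W.mu Q) n 1 z) with hPdef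
    have hP3 : P ≤ ∑ Q' ∈ S, (W.val Q' + δ1 * Cv * W.v Q * W.a Q' + C1b * Cv * W.v Q * W.D Q' +
        (K7 * W.v Q * W.D Q + δ1 * W.a Q * W.v Q + 2 * (C1b * W.v Q * W.D Q))) := by
      refine hP1.trans (Finset.sum_le_sum fun Q' h => ?_)
      rw [hvQ]
      have h1 := hP2 Q' h
      have h2 : δ1 * W.a Q' * W.v Q' ≤ δ1 * Cv * W.v Q * W.a Q' := by
        have h3 := mul_le_mul_of_nonneg_left (hv1 Q' h) (mul_nonneg hδ10.le (hnw Q' h).a0)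
        linarith
      have h4 : C1b * W.v Q' * W.D Q' ≤ C1b * Cv * W.v Q * W.D Q' := by
        have h3 := mul_le_mul_of_nonneg_left (hv1 Q' h) (mul_nonneg hC1b.le (hD0 Q'))
        linarith
      linarith
    have hP4 : P ≤ (∑ Q' ∈ S, W.val Q') + δ1 * Cv * W.v Q * mass +
        C1b * Cv * W.v Q * W.sD R0 JA Q +
        Nn * (K7 * W.v Q * W.sD R0 JA Q + δ1 * mass * W.v Q +
          2 * (C1b * W.v Q * W.sD R0 JA Q)) := by
      refine hP3.trans ?_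
      rw [Finset.sum_add_distrib, Finset.sum_add_distrib, Finset.sum_add_distrib,
        ← Finset.mul_sum, ← Finset.mul_sum, Finset.sum_const, nsmul_eq_mul]
      have h1 : δ1 * Cv * W.v Q * ∑ Q' ∈ S, W.a Q' ≤ δ1 * Cv * W.v Q * mass :=
        mul_le_mul_of_nonneg_left hms' (by positivity)
      have h2 : C1b * Cv * W.v Q * ∑ Q' ∈ S, W.D Q' ≤ C1b * Cv * W.v Q * W.sD R0 JA Q :=
        mul_le_mul_of_nonneg_left hsD (by positivity)
      have h3 : K7 * W.v Q * W.D Q + δ1 * W.a Q * W.v Q + 2 * (C1b * W.v Q * W.D Q) ≤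
          K7 * W.v Q * W.sD R0 JA Q + δ1 * mass * W.v Q + 2 * (C1b * W.v Q * W.sD R0 JA Q) := by
        gcongr
      have h4 : 0 ≤ K7 * W.v Q * W.D Q + δ1 * W.a Q * W.v Q + 2 * (C1b * W.v Q * W.D Q) := by
        have := hD0 Q
        positivity
      have h5 := mul_le_mul hScard h3 h4 hNn0
      linarith
    have hP : W.w Q * P ≤ W.sV R0 JA Q + δ1 * (Nn + Cv) * (W.w Q * W.v Q * mass) +
        K8 * (W.w Q * W.v Q * W.sD R0 JA Q) := by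
      have h1 := mul_le_mul_of_nonneg_left hP4 hw0
      rw [hK8]
      linarith
    have hδx : 0 ≤ δ1 * (Nn + Cv) := by positivity
    have hδa : (CB2 + C3 * CB4 + 1) * (δ1 * (Nn + Cv)) = δ / 2 := by
      rw [hδ1]
      field_simp
    have hC34 : 0 < C3 * CB4 := by positivity
    have hδb : CB2 * (δ1 * (Nn + Cv)) ≤ δ / 2 := by
      rw [← hδa]
      exact mul_le_mul_of_nonneg_right (by linarith) hδx
    have hδc : C3 * CB4 * (δ1 * (Nn + Cv)) ≤ δ / 2 := by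
      rw [← hδa]
      exact mul_le_mul_of_nonneg_right (by linarith) hδx
    have hwm : 0 ≤ W.w Q * W.v Q * mass := mul_nonneg hwv hmass
    have hwD : 0 ≤ W.w Q * W.v Q * W.sD R0 JA Q := mul_nonneg hwv hsDn
    have hwa : W.w Q * W.v Q * W.a Q ≤ W.w Q * W.v Q * mass := mul_le_mul_of_nonneg_left haQ hwv
    have hwDQ : W.w Q * W.v Q * W.D Q ≤ W.w Q * W.v Q * W.sD R0 JA Q :=
      mul_le_mul_of_nonneg_left hDQ hwv
    refine ⟨?_, ?_⟩
    · have h1 := hB2f (W.be Q) (hkit Q) (W.mu Q) hμ (W.m Q) (W.a Q) (W.D Q) J' r ν κ (hmc Q)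
        haQ0 (hD0 Q) hZQ hStr2
      rw [← hPdef, hvQ] at h1
      have h2 := mul_le_mul_of_nonneg_left h1 hw0
      have h3 := mul_le_mul_of_nonneg_left hP hCB2.le
      have h4 := mul_le_mul_of_nonneg_right hδb hwm
      have h5 := mul_le_mul_of_nonneg_left hwDQ hC2b.le
      have h8 := mul_le_mul_of_nonneg_left hwa (by positivity : 0 ≤ δ / 2)
      have h6 : CB2 * W.sV R0 JA Q ≤ CC * W.sV R0 JA Q :=
        mul_le_mul_of_nonneg_right (by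
          rw [hCC]
          have : 0 ≤ (R0 + 1) ^ 2 * Cm := by positivity
          have : 0 ≤ CM * C3 * Cm := by positivity
          linarith) hsVn
      have h7 : (CB2 * K8 + C2b) * (W.w Q * W.v Q * W.sD R0 JA Q) ≤
          C1 * (W.w Q * W.v Q * W.sD R0 JA Q) :=
        mul_le_mul_of_nonneg_right (by
          rw [hC1]
          have : 0 ≤ C3 * CB4 * K8 + C3 * C4b + CM + (R0 + 1) ^ 2 * K10 + Kq +
            CM * C3 * K10 := by positivity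
          linarith) hwD
      linarith
    · intro at1 DT n s hat hDT hn hsR hle
      obtain ⟨hM0, hM1⟩ := Mo_bd hd hμ hn hsR
      rw [hvQ, ← hCM] at hM1
      have h1 := hB4f (W.be Q) (hkit Q) (W.mu Q) hμ (W.m Q) (W.a Q) (W.D Q) J' r ν κ (hmc Q)
        haQ0 (hD0 Q) hZQ hStr4 n s hn hsR
      rw [← hPdef, hvQ] at h1
      have hbl : (∫ y, W.m Q y * (zR R0 y * hgt n s y ^ 2)) ≤ max 0 (blc n s (W.m Q) R0) :=
        le_max_right _ _
      have hbl' := mul_le_mul_of_nonneg_left hbl (mul_nonneg hCB4.le hvQ0)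
      have h2 : W.w Q * (at1 * Mo (W.mu Q) n s 2 1 0) ≤
          C3 * (W.w Q * ((∫ y, W.m Q y * zR Ct y) * Mo (W.mu Q) n s 2 1 0)) +
            W.w Q * DT * (CM * W.v Q) := by
        have g1 := mul_le_mul_of_nonneg_right hle hM0
        have g2 := mul_le_mul_of_nonneg_left hM1 hDT
        have g3 := mul_le_mul_of_nonneg_left g1 hw0
        have g4 := mul_le_mul_of_nonneg_left g2 hw0
        linarith
      have h3 := mul_le_mul_of_nonneg_left (h1.trans (add_le_add_left (add_le_add_left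
        (add_le_add_right hbl' _) _) _)) (mul_nonneg hC3.le hw0)
      have h4 := mul_le_mul_of_nonneg_left hP hC34.le
      have h5 := mul_le_mul_of_nonneg_right hδc hwm
      have hδd : C3 * (δ / (2 * C3)) = δ / 2 := by field_simp
      have h6 : C3 * W.w Q * (δ / (2 * C3) * W.a Q * W.v Q) ≤ δ / 2 * (W.w Q * W.v Q * mass) := by
        have : C3 * W.w Q * (δ / (2 * C3) * W.a Q * W.v Q) =
          C3 * (δ / (2 * C3)) * (W.w Q * W.v Q * W.a Q) := by ring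
        rw [this, hδd]
        exact mul_le_mul_of_nonneg_left hwa (by positivity)
      have h7 := mul_le_mul_of_nonneg_left hwDQ (mul_nonneg hC3.le hC4b.le)
      have h8 : C3 * CB4 * W.sV R0 JA Q ≤ CC * W.sV R0 JA Q :=
        mul_le_mul_of_nonneg_right (by
          rw [hCC]
          have : 0 ≤ (R0 + 1) ^ 2 * Cm := by positivity
          have : 0 ≤ CM * C3 * Cm := by positivity
          linarith) hsVn
      have h9 : C3 * CB4 * (W.w Q * W.v Q * max 0 (blc n s (W.m Q) R0)) ≤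
          CC * (W.w Q * W.v Q * max 0 (blc n s (W.m Q) R0)) :=
        mul_le_mul_of_nonneg_right (by
          rw [hCC]
          have : 0 ≤ (R0 + 1) ^ 2 * Cm := by positivity
          have : 0 ≤ CM * C3 * Cm := by positivity
          linarith) (mul_nonneg hwv (le_max_left _ _))
      have h10 : (C3 * CB4 * K8 + C3 * C4b) * (W.w Q * W.v Q * W.sD R0 JA Q) ≤
          C1 * (W.w Q * W.v Q * W.sD R0 JA Q) :=
        mul_le_mul_of_nonneg_right (by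
          rw [hC1]
          have : 0 ≤ CB2 * K8 + C2b + CM + (R0 + 1) ^ 2 * K10 + Kq +
            CM * C3 * K10 := by positivity
          linarith) hwD
      have h11 : CM * (W.w Q * W.v Q * DT) ≤ C1 * (W.w Q * W.v Q * DT) :=
        mul_le_mul_of_nonneg_right (by
          rw [hC1]
          have : 0 ≤ CB2 * K8 + C2b + C3 * CB4 * K8 + C3 * C4b + (R0 + 1) ^ 2 * K10 + Kq +
            CM * C3 * K10 := by positivity
          linarith) (mul_nonneg hwv hDT)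
      linarith
  · -- no near cell
    have hfar : ∀ Q' ∈ S, ¬ W.Near Q' := fun Q' h hN => hnear ⟨Q', hSn Q' h, hSl Q' h, hN⟩
    have hcell : ∀ Q' ∈ S, W.v Q' * (∫ y, W.m Q' y * chi y) ≤
        C5 * W.val Q' + C5 * W.v Q' * W.D Q' := by
      intro Q' h
      exact far_cell hW5 hW6 hW hz5 hz6 (hfar Q' h)
    have hzρ : 3 * R0 + d ≤ Rz := by linarith
    have hzR : ∀ R' : ℝ, R' ≤ R0 → R' + 1 ≤ Rz := fun R' h => by linarith
    have hcx : ∀ Q' ∈ S, W.v Q * (∫ y, W.m Q y * chi (y - tw W.s0 Q Q')) ≤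
        Cm * W.val Q' + Cv ^ 2 * C5 * W.v Q * W.D Q' + Kc * W.v Q * W.D Q := by
      intro Q' h
      have h1 : TFn 2 Kc (fun y : Sp d => chi (y - tw W.s0 Q Q')) := PTm.TFn.comp_sub hchiT _
      have h2 := hW.dir Q Q' (hSn Q' h) _ _ h1 (fun y hy => chi_vs hd (hSx Q' h) (by linarith))
      have h3 : HasCompactSupport (fun y : Sp d => chi (y - tw W.s0 Q Q')) :=
        cs_of (ρ := 3 * R0 + d) fun y hy => chi_vs hd (hSx Q' h) hy.le
      rw [int_sub' (mQ_cont W.s0 hW.fc (W.e Q) Q) (mQ_cont W.s0 hW.fc (W.e Q') Q)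
        h1.smooth.continuous h3, frame_chi hFM hd hs hW.fc hW.fs (hSl Q' h) (W.e Q')] at h2
      have h4 := (abs_le.1 h2).1
      set I : ℝ := ∫ y, mQ W.s0 W.f (W.e Q') Q' y * chi y with hI
      have h5 : (∫ y, W.m Q y * chi (y - tw W.s0 Q Q')) ≤ I + Kc * W.D Q := by
        have e : (∫ y, W.m Q y * chi (y - tw W.s0 Q Q')) =
          ∫ y, mQ W.s0 W.f (W.e Q) Q y * chi (y - tw W.s0 Q Q') := rfl
        rw [e]
        linarith
      have h6 := mul_le_mul_of_nonneg_left h5 hvQ0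
      have h7 : W.v Q' * I ≤ C5 * W.val Q' + C5 * W.v Q' * W.D Q' := hcell Q' h
      have h8 : 0 ≤ Cm * W.val Q' := mul_nonneg hCm0.le (hval Q')
      have h9 : 0 ≤ Cv ^ 2 * C5 * W.v Q * W.D Q' := by
        have := hD0 Q'
        positivity
      have h10 : W.v Q * I ≤ Cm * W.val Q' + Cv ^ 2 * C5 * W.v Q * W.D Q' := by
        rcases le_total 0 I with hI0 | hI0
        · have g1 := mul_le_mul_of_nonneg_right (hv2 Q' h) hI0
          have g2 := mul_le_mul_of_nonneg_left h7 hCv0.le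
          have g3 := mul_le_mul_of_nonneg_left (hv1 Q' h)
            (mul_nonneg (mul_nonneg hCv0.le hC5.le) (hD0 Q'))
          rw [hCm]
          linarith
        · have := mul_nonpos_of_nonneg_of_nonpos hvQ0 hI0
          linarith
      linarith
    have hwD : 0 ≤ W.w Q * W.v Q * W.sD R0 JA Q := mul_nonneg hwv hsDn
    have hwDQ : W.w Q * W.v Q * W.D Q ≤ W.w Q * W.v Q * W.sD R0 JA Q :=
      mul_le_mul_of_nonneg_left hDQ hwv
    have hgen : ∀ R' K' : ℝ, R' ≤ R0 → 0 < K' → K' ≤ Kz + Kt → BF 2 K' (zR R' : Sp d → ℝ) →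
        W.w Q * (W.v Q * ∫ y, W.m Q y * zR R' y) ≤
          Cm * W.sV R0 JA Q + K10 * (W.w Q * W.v Q * W.sD R0 JA Q) := by
      intro R' K' hR' hK'0 hK' hzb
      have h1 := mass_split hd (R' := R') (R0 := R0) hKc hK'0 hchi hzb (hmc Q) (hW.zp Q)
        (hzR R' hR') hzρ S hSx hScard (fun y hy => hsum y (by linarith))
      have h2 := mul_le_mul_of_nonneg_left h1 hvQ0
      have h3 : W.v Q * ∑ Q' ∈ S, ∫ y, W.m Q y * chi (y - tw W.s0 Q Q') ≤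
          ∑ Q' ∈ S, (Cm * W.val Q' + Cv ^ 2 * C5 * W.v Q * W.D Q' + Kc * W.v Q * W.D Q) := by
        rw [Finset.mul_sum]
        exact Finset.sum_le_sum hcx
      rw [Finset.sum_add_distrib, Finset.sum_add_distrib, ← Finset.mul_sum, ← Finset.mul_sum,
        Finset.sum_const, nsmul_eq_mul] at h3
      have h4 : Cv ^ 2 * C5 * W.v Q * ∑ Q' ∈ S, W.D Q' ≤
          Cv ^ 2 * C5 * W.v Q * W.sD R0 JA Q :=
        mul_le_mul_of_nonneg_left hsD (by positivity)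
      have h5 : (S.card : ℝ) * (Kc * W.v Q * W.D Q) ≤ Nn * (Kc * W.v Q * W.D Q) :=
        mul_le_mul_of_nonneg_right hScard (by
          have := hD0 Q
          positivity)
      have h6 : W.v Q * (∫ y, W.m Q y * zR R' y) ≤ Cm * (∑ Q' ∈ S, W.val Q') +
          Cv ^ 2 * C5 * W.v Q * W.sD R0 JA Q + Nn * (Kc * W.v Q * W.D Q) +
          (Nn * Kc + K') * (W.v Q * W.D Q) := by linarith
      have h7 := mul_le_mul_of_nonneg_left h6 hw0
      have h8 := mul_le_mul_of_nonneg_left hsV' hCm0.le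
      have h9 := mul_le_mul_of_nonneg_left hwDQ (by positivity : 0 ≤ 2 * (Nn * Kc) + K')
      have h10 := mul_le_mul_of_nonneg_right hK' hwD
      rw [hK10]
      linarith
    have hC1m : CM * C3 * K10 ≤ C1 := by
      rw [hC1]
      have : 0 ≤ CB2 * K8 + C2b + C3 * CB4 * K8 + C3 * C4b + CM + (R0 + 1) ^ 2 * K10 + Kq := by
        positivity
      linarith
    have hC1q : (R0 + 1) ^ 2 * K10 + Kq ≤ C1 := by
      rw [hC1]
      have : 0 ≤ CB2 * K8 + C2b + C3 * CB4 * K8 + C3 * C4b + CM + CM * C3 * K10 := by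
        positivity
      linarith
    have hC1t : CM ≤ C1 := by
      rw [hC1]
      have : 0 ≤ CB2 * K8 + C2b + C3 * CB4 * K8 + C3 * C4b + (R0 + 1) ^ 2 * K10 + Kq +
        CM * C3 * K10 := by positivity
      linarith
    have hCCm : CM * C3 * Cm ≤ CC := by
      rw [hCC]
      have : 0 ≤ CB2 + C3 * CB4 + (R0 + 1) ^ 2 * Cm := by positivity
      linarith
    have hCCq : (R0 + 1) ^ 2 * Cm ≤ CC := by
      rw [hCC]
      have : 0 ≤ CB2 + C3 * CB4 + CM * C3 * Cm := by positivity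
      linarith
    have hδm : 0 ≤ δ * (W.w Q * W.v Q) * mass := by positivity
    refine ⟨?_, ?_⟩
    · have h1 := hbq Rz (W.D Q) (W.m Q) (hmc Q) (hD0 Q) (hzR R0 le_rfl) (hW.zp Q)
      have h2 := hgen R0 Kz le_rfl hKz (by linarith) hzB
      have h3 := mul_le_mul_of_nonneg_left h1 hwv
      have h4 : W.w Q * W.v Q * max 0 ((R0 + 1) ^ 2 * ∫ y, W.m Q y * zR R0 y) ≤
          (R0 + 1) ^ 2 * (Cm * W.sV R0 JA Q + K10 * (W.w Q * W.v Q * W.sD R0 JA Q)) := by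
        rw [mul_max_of_nonneg _ _ hwv, mul_zero]
        refine max_le (by positivity) ?_
        have := mul_le_mul_of_nonneg_left h2 (by positivity : 0 ≤ (R0 + 1) ^ 2)
        linarith
      have h5 := mul_le_mul_of_nonneg_right hC1q hwD
      have h6 := mul_le_mul_of_nonneg_right hCCq hsVn
      have h7 := mul_le_mul_of_nonneg_left hwDQ hKq.le
      linarith
    · intro at1 DT n s hat hDT hn hsR hle
      obtain ⟨hM0, hM1⟩ := Mo_bd hd hμ hn hsR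
      rw [hvQ, ← hCM] at hM1
      have h2 := hgen Ct Kt (by linarith) hKt (by linarith) htB
      have h3 : W.w Q * (at1 * Mo (W.mu Q) n s 2 1 0) ≤
          W.w Q * (CM * W.v Q * (C3 * (∫ y, W.m Q y * zR Ct y) + DT)) := by
        refine mul_le_mul_of_nonneg_left ?_ hw0
        have g1 := mul_le_mul_of_nonneg_left hM1 hat
        have g2 := mul_le_mul_of_nonneg_left hle (mul_nonneg hCM0.le hvQ0)
        linarith
      have h4 := mul_le_mul_of_nonneg_left h2 (mul_nonneg hCM0.le hC3.le)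
      have h5 := mul_le_mul_of_nonneg_right hC1m hwD
      have h6 := mul_le_mul_of_nonneg_right hCCm hsVn
      have h7 := mul_le_mul_of_nonneg_right hC1t (mul_nonneg hwv hDT)
      have h8 : 0 ≤ CC * (W.w Q * W.v Q) * max 0 (blc n s (W.m Q) R0) :=
        mul_nonneg (mul_nonneg hCC0.le hwv) (le_max_left _ _)
      linarith

end

end TG
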