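import Pool.Agent.TG.WBK

/-!
# The tangential gradient of W (module WB, part (a))
-/

open MeasureTheory Metric Set TrI Filter Topology
open scoped InnerProductSpace ContDiff

namespace TG

noncomputable section

namespace WBT

variable {d : ℕ}

lemma EE_nonneg {C : ℝ} {V : ℝ → Sp d → ℝ} (hV : VOK C V) (hC : 0 ≤ C) (n : Sp d) {ε : ℝ}
    (hε : 0 < ε) {β : Sp d → ℝ} (hβ0 : ∀ z, 0 ≤ β z) (y : Sp d) : 0 ≤ EE C V β n ε y := by
  unfold EE
  have h1 := (hV.pos 1 y one_pos).le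
  have h2 : 0 ≤ discR n (2 * ε) (XT V β n ε) y := by
    refine integral_nonneg fun u => ?_
    unfold XT
    refine intervalIntegral.integral_nonneg (by norm_num) fun r hr => ?_
    exact mul_nonneg (tau_nonneg r) (gg_nonneg hV n ε hβ0 (by
      have := hr.1
      linarith) _)
  have h3 := vQ_nonneg (d := d)
  positivity

/-- tangential kernels -/
lemma S_bd {C : ℝ} {V : ℝ → Sp d → ℝ} (hV : VOK C V) {n : Sp d} (hn : ‖n‖ = 1) {ε : ℝ}
    (hε : 0 < ε) (hε1 : ε ≤ 1) {β : Sp d → ℝ} (hβ : KC 0 β) (hβ0 : ∀ z, 0 ≤ β z) {e : Sp d}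
    (he : ‖e‖ ≤ 1) (hne : ⟪n, e⟫_ℝ = 0) : ∀ (j : ℕ) (G : Type) [NormedAddCommGroup G]
    [NormedSpace ℝ G] [CompleteSpace G] (K : Sp d → G) (P R0 : ℝ) (ρ : ℝ → ℝ), 0 ≤ P → 0 ≤ R0 →
    KB j P (disc n β) K → SF (fun r (_ : Sp d) => ρ r) →
    (∀ r, 1 / 2 ≤ r → r ≤ 2 → |ρ r| ≤ R0) → ∀ y,
    ‖iteratedFDeriv ℝ j (II ε (pr (fun r x => ρ r * pX V e r x) K)) y‖
      ≤ (2 / ε) ^ j * (P * R0) * Real.sqrt (EE C V β n ε y) := by
  intro j
  induction j with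
  | zero =>
    intro G _ _ _ K P R0 ρ hP hR0 hK hρ hρb y
    rw [norm_iteratedFDeriv_zero, pow_zero, one_mul]
    refine e1' hV hn hε hε1 hβ hβ0 (Reg.pr (hρ.mul (hV.sf.pX e)) hK.kc) (by positivity) y ?_
    intro r z hr hr2 _
    unfold pr
    rw [norm_smul, Real.norm_eq_abs, abs_mul, Real.sqrt_mul (disc_nonneg n hβ0 z)]
    have h1 := pX_le_QH V he hne ε r z (y + (ε * r) • z)
    have h2 := hK.norm_le z
    have h3 := hρb r hr hr2
    have h4 : |ρ r| * |pX V e r (y + (ε * r) • z)|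
        ≤ R0 * Real.sqrt (QH V n ε r z (y + (ε * r) • z)) :=
      mul_le_mul h3 h1 (abs_nonneg _) hR0
    calc |ρ r| * |pX V e r (y + (ε * r) • z)| * ‖K z‖
        ≤ (R0 * Real.sqrt (QH V n ε r z (y + (ε * r) • z))) * (P * Real.sqrt (disc n β z)) :=
          mul_le_mul h4 h2 (norm_nonneg _) (by positivity)
      _ = _ := by ring
  | succ j ih =>
    intro G _ _ _ K P R0 ρ hP hR0 hK hρ hρb y
    rw [← norm_iteratedFDeriv_fderiv, II_pr_fderiv (hρ.mul (hV.sf.pX e)) hK.kc hε]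
    have hρ' : SF (fun r (_ : Sp d) => -(1 / (ε * r)) * ρ r) := (SF.inv_r hε).mul hρ
    have hb' : ∀ r, 1 / 2 ≤ r → r ≤ 2 → |(-(1 / (ε * r)) * ρ r)| ≤ (2 / ε) * R0 := by
      intro r hr hr2
      rw [abs_mul, abs_neg, abs_of_pos (by positivity)]
      refine mul_le_mul ?_ (hρb r hr hr2) (abs_nonneg _) (by positivity)
      rw [div_le_div_iff₀ (by positivity) hε]
      nlinarith
    have h1 := ih (Sp d →L[ℝ] G) (fderiv ℝ K) P ((2 / ε) * R0) _ hP (by positivity) hK.fderiv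
      hρ' hb' y
    have h2 : (fun (r : ℝ) (x : Sp d) => -(1 / (ε * r)) * (ρ r * pX V e r x))
        = fun r x => (-(1 / (ε * r)) * ρ r) * pX V e r x := by
      funext r x
      ring
    rw [h2]
    refine h1.trans (le_of_eq ?_)
    rw [pow_succ]
    ring

lemma fderiv_tens {G : Type*} [NormedAddCommGroup G] [NormedSpace ℝ G] {m : ℕ} {K : Sp d → G}
    (hK : KC (m + 1) K) (n e : Sp d) :
    (fun z => fderiv ℝ (tens n K) z e) = tens n (fun z => fderiv ℝ K z e) := by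
  funext z
  have h1 : HasFDerivAt (tens n K)
      (((ContinuousLinearMap.smulRightL ℝ (Sp d) G) (innerSL ℝ n)).comp (fderiv ℝ K z)) z :=
    ((ContinuousLinearMap.smulRightL ℝ (Sp d) G) (innerSL ℝ n)).hasFDerivAt.comp z
      (hK.diff z).hasFDerivAt
  rw [h1.fderiv]
  rfl

lemma fderiv_dir {G : Type*} [NormedAddCommGroup G] [NormedSpace ℝ G] {m : ℕ} {K : Sp d → G}
    (hK : KC (m + 2) K) (e : Sp d) :
    fderiv ℝ (fun z => fderiv ℝ K z e) = fun z => fderiv ℝ (fderiv ℝ K) z e := by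
  funext z
  have h2 : DifferentiableAt ℝ (fderiv ℝ K) z := (hK.fderiv (m := m + 1)).diff z
  have h3 : HasFDerivAt (fun x' => fderiv ℝ K x' e)
      ((ContinuousLinearMap.apply ℝ G e).comp (fderiv ℝ (fderiv ℝ K) z)) z :=
    (ContinuousLinearMap.apply ℝ G e).hasFDerivAt.comp z h2.hasFDerivAt
  rw [h3.fderiv]
  ext v
  show fderiv ℝ (fderiv ℝ K) z v e = fderiv ℝ (fderiv ℝ K) z e v
  exact (hK.smooth.contDiffAt.isSymmSndFDerivAt (by
    rw [minSmoothness_of_isRCLikeNormedField]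
    push_cast
    exact le_add_self)) v e

/-- ray kernels -/
lemma Q_bd {C : ℝ} {V : ℝ → Sp d → ℝ} (hV : VOK C V) {n : Sp d} (hn : ‖n‖ = 1)
    {ε : ℝ} (hε : 0 < ε) (hε1 : ε ≤ 1) {β : Sp d → ℝ} (hβ : KC 0 β) (hβ0 : ∀ z, 0 ≤ β z)
    {e : Sp d} (he : ‖e‖ ≤ 1) (hne : ⟪n, e⟫_ℝ = 0) : ∀ (j : ℕ) (G : Type) [NormedAddCommGroup G]
    [NormedSpace ℝ G] [CompleteSpace G] (L : Sp d → G) (P R0 : ℝ) (ρ : ℝ → ℝ), 0 ≤ P → 0 ≤ R0 →
    KB (j + 1) P (disc n β) L → SF (fun r (_ : Sp d) => ρ r) →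
    (∀ r, 1 / 2 ≤ r → r ≤ 2 → |ρ r| ≤ R0) → ∀ y,
    ‖iteratedFDeriv ℝ j (II ε (dp (fun r x => ρ r * pT V r x) (fun r x => ρ r * pX V n r x) n ε
      (fun z => fderiv ℝ L z e))) y‖
      ≤ (4 / ε) ^ j * (P * R0) * Real.sqrt (EE C V β n ε y) := by
  intro j
  induction j with
  | zero =>
    intro G _ _ _ L P R0 ρ hP hR0 hL hρ hρb y
    rw [norm_iteratedFDeriv_zero, pow_zero, one_mul]
    refine e1' hV hn hε hε1 hβ hβ0 (Reg.dp (hρ.mul hV.sf.pT) (hρ.mul (hV.sf.pX n))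
      (hL.dir he).kc n ε) (by positivity) y ?_
    intro r z hr hr2 _
    have e1 : dp (fun r x => ρ r * pT V r x) (fun r x => ρ r * pX V n r x) n ε
        (fun z => fderiv ℝ L z e) r z (y + (ε * r) • z)
        = (ρ r * (pT V r (y + (ε * r) • z) + ε * ⟪n, z⟫_ℝ * pX V n r (y + (ε * r) • z)))
          • fderiv ℝ L z e := by
      unfold dp
      congr 1
      ring
    rw [e1, norm_smul, Real.norm_eq_abs, abs_mul, Real.sqrt_mul (disc_nonneg n hβ0 z)]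
    have h1 := ray_le_QH V n ε r z (y + (ε * r) • z)
    have h2 := (hL.dir he).norm_le z
    have h3 := hρb r hr hr2
    have h4 := mul_le_mul h3 h1 (abs_nonneg _) hR0
    calc _ ≤ (R0 * Real.sqrt (QH V n ε r z (y + (ε * r) • z))) * (P * Real.sqrt (disc n β z)) :=
          mul_le_mul h4 h2 (norm_nonneg _) (by positivity)
      _ = _ := by ring
  | succ j ih =>
    intro G _ _ _ L P R0 ρ hP hR0 hL hρ hρb y
    have hE := Real.sqrt_nonneg (EE C V β n ε y)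
    have hA := hρ.mul hV.sf.pT
    have hB := hρ.mul (hV.sf.pX n)
    have hL' : KB (j + 1) P (disc n β) (fderiv ℝ L) := hL.fderiv
    have hLe : KB (j + 1) P (disc n β) (fun z => fderiv ℝ L z e) := hL.dir he
    have hρ' : SF (fun r (_ : Sp d) => -(1 / (ε * r)) * ρ r) := (SF.inv_r hε).mul hρ
    have hb' : ∀ r, 1 / 2 ≤ r → r ≤ 2 → |(-(1 / (ε * r)) * ρ r)| ≤ (2 / ε) * R0 := by
      intro r hr hr2
      rw [abs_mul, abs_neg, abs_of_pos (by positivity)]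
      refine mul_le_mul ?_ (hρb r hr hr2) (abs_nonneg _) (by positivity)
      rw [div_le_div_iff₀ (by positivity) hε]
      nlinarith
    have hρ2 : SF (fun r (_ : Sp d) => -(1 / r) * ρ r) := by
      refine (SF.mul (SF.neg ((SF.const 1).div SF.r fun r _ hr => hr.ne')) hρ)
    have hb2 : ∀ r, 1 / 2 ≤ r → r ≤ 2 → |(-(1 / r) * ρ r)| ≤ 2 * R0 := by
      intro r hr hr2
      rw [abs_mul, abs_neg, abs_of_pos (by positivity)]
      refine mul_le_mul ?_ (hρb r hr hr2) (abs_nonneg _) (by positivity)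
      rw [div_le_iff₀ (by positivity)]
      linarith
    -- the two terms
    set T1 := II ε (dp (fun r x => (-(1 / (ε * r)) * ρ r) * pT V r x)
      (fun r x => (-(1 / (ε * r)) * ρ r) * pX V n r x) n ε
      (fun z => fderiv ℝ (fderiv ℝ L) z e)) with hT1
    set T2 := II ε (pr (fun r x => (-(1 / r) * ρ r) * pX V e r x)
      (fun z => fderiv ℝ (tens n L) z n)) with hT2
    have e0 : fderiv ℝ (II ε (dp (fun r x => ρ r * pT V r x) (fun r x => ρ r * pX V n r x) n ε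
      (fun z => fderiv ℝ L z e))) = fun y => T1 y + T2 y := by
      rw [II_fderiv (Reg.dp hA hB hLe.kc n ε) hε]
      funext y
      have s1 : II ε (zd ε (dp (fun r x => ρ r * pT V r x) (fun r x => ρ r * pX V n r x) n ε
          (fun z => fderiv ℝ L z e))) y
          = II ε (fun r z x => dp (fun r x => (-(1 / (ε * r)) * ρ r) * pT V r x)
              (fun r x => (-(1 / (ε * r)) * ρ r) * pX V n r x) n ε
              (fun z => fderiv ℝ (fderiv ℝ L) z e) r z x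
            + pr (fun r x => (-(1 / r) * ρ r) * pX V n r x)
              (fun z => fderiv ℝ (tens n L) z e) r z x) y := by
        refine II_congr ε (fun r z x hr => ?_) y
        rw [zd_dp hLe.kc n hε hr, fderiv_dir (m := j) hL.kc e, fderiv_tens (m := j + 1) hL.kc n e]
        congr 1
        · unfold dp
          congr 1
          ring
        · unfold pr
          congr 1
          ring
      rw [s1, II_add (Reg.dp (hρ'.mul hV.sf.pT) (hρ'.mul (hV.sf.pX n)) (hL'.dir he).kc n ε)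
        (Reg.pr (hρ2.mul (hV.sf.pX n)) ((hL.tens hn.le).dir he).kc)]
      congr 1
      exact II_swap hV.sf hρ2 (fun _ _ _ => rfl) ((hL.tens hn.le).kc.mono (by omega : j + 1 ≤ j + 1 + 1))
        hε e n y
    have hn1 : ‖n‖ ≤ 1 := hn.le
    have c1 : ContDiff ℝ j T1 := II_contDiff (Reg.dp (hρ'.mul hV.sf.pT) (hρ'.mul (hV.sf.pX n))
      (hL'.dir he).kc n ε) hε
    have c2 : ContDiff ℝ j T2 := II_contDiff (Reg.pr (hρ2.mul (hV.sf.pX e))
      (((hL.tens hn1).dir hn1).kc.mono (by omega))) hε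
    rw [← norm_iteratedFDeriv_fderiv, e0]
    have e2 : iteratedFDeriv ℝ j (fun y => T1 y + T2 y) y
        = iteratedFDeriv ℝ j T1 y + iteratedFDeriv ℝ j T2 y :=
      iteratedFDeriv_add_apply c1.contDiffAt c2.contDiffAt
    rw [e2]
    have b1 := ih (Sp d →L[ℝ] G) (fderiv ℝ L) P ((2 / ε) * R0) _ hP (by positivity) hL' hρ' hb' y
    have b2 := S_bd hV hn hε hε1 hβ hβ0 he hne j (Sp d →L[ℝ] G)
      (fun z => fderiv ℝ (tens n L) z n) P (2 * R0) _ hP (by positivity)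
      (((hL.tens hn1).dir hn1).mono (by omega)) hρ2 hb2 y
    refine (norm_add_le _ _).trans ((add_le_add b1 b2).trans ?_)
    have h2 : (2 / ε) ^ j ≤ (4 / ε) ^ j :=
      pow_le_pow_left₀ (by positivity) (by
        rw [div_le_div_iff₀ hε hε]
        nlinarith) j
    have h3 : 2 ≤ 2 / ε := by
      rw [le_div_iff₀ hε]
      linarith
    have h4 : 0 ≤ (4 / ε) ^ j := by positivity
    have h5 : 2 * (2 / ε) ^ j ≤ (2 / ε) * (4 / ε) ^ j := by
      nlinarith [mul_le_mul_of_nonneg_left h2 (zero_le_two (α := ℝ)),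
        mul_le_mul_of_nonneg_right h3 h4]
    have h6 : (4 / ε) ^ (j + 1) = (2 / ε) * (4 / ε) ^ j + (2 / ε) * (4 / ε) ^ j := by
      rw [pow_succ]
      ring
    have h7 : 0 ≤ P * R0 * Real.sqrt (EE C V β n ε y) := by positivity
    calc (4 / ε) ^ j * (P * (2 / ε * R0)) * Real.sqrt (EE C V β n ε y)
          + (2 / ε) ^ j * (P * (2 * R0)) * Real.sqrt (EE C V β n ε y)
        = ((2 / ε) * (4 / ε) ^ j + 2 * (2 / ε) ^ j) * (P * R0 * Real.sqrt (EE C V β n ε y)) := by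
          ring
      _ ≤ (4 / ε) ^ (j + 1) * (P * R0 * Real.sqrt (EE C V β n ε y)) := by
          refine mul_le_mul_of_nonneg_right ?_ h7
          rw [h6]
          linarith
      _ = _ := by ring

/-- vector valued functions orthogonal to n -/
lemma norm_iter_le {n : Sp d} {j : ℕ} {F : Sp d → Sp d} (hF : ContDiff ℝ j F)
    (hn : ∀ x, ⟪n, F x⟫_ℝ = 0) {B : ℝ} (hB : 0 ≤ B) {y : Sp d}
    (h : ∀ e : Sp d, ‖e‖ = 1 → ⟪n, e⟫_ℝ = 0 →
      ‖iteratedFDeriv ℝ j (fun x => ⟪e, F x⟫_ℝ) y‖ ≤ B) : ‖iteratedFDeriv ℝ j F y‖ ≤ B := by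
  have key : ∀ (e : Sp d) (m : Fin j → Sp d), ⟪e, iteratedFDeriv ℝ j F y m⟫_ℝ
      = iteratedFDeriv ℝ j (fun x => ⟪e, F x⟫_ℝ) y m := by
    intro e m
    have h2 := (innerSL ℝ e).iteratedFDeriv_comp_left (f := F) (x := y) (n := j)
      hF.contDiffAt (i := j) le_rfl
    have h3 : (⇑(innerSL ℝ e) ∘ F) = fun x => ⟪e, F x⟫_ℝ := rfl
    rw [h3] at h2
    rw [h2]
    rfl
  refine ContinuousMultilinearMap.opNorm_le_bound hB fun m => ?_
  set w := iteratedFDeriv ℝ j F y m with hw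
  have hprod : 0 ≤ ∏ i, ‖m i‖ := Finset.prod_nonneg fun i _ => norm_nonneg _
  rcases eq_or_ne w 0 with h0 | h0
  · rw [h0, norm_zero]
    exact mul_nonneg hB hprod
  · have hw0 : 0 < ‖w‖ := norm_pos_iff.2 h0
    set e := ‖w‖⁻¹ • w with he
    have h1 : ‖e‖ = 1 := by
      rw [he, norm_smul, norm_inv, norm_norm, inv_mul_cancel₀ hw0.ne']
    have h2 : ⟪n, w⟫_ℝ = 0 := by
      rw [hw, key n m]
      have h3 : (fun x => ⟪n, F x⟫_ℝ) = fun _ => (0 : ℝ) := funext hn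
      rw [h3, iteratedFDeriv_fun_zero]
      rfl
    have h3 : ⟪n, e⟫_ℝ = 0 := by rw [he, real_inner_smul_right, h2, mul_zero]
    have h4 : ‖w‖ = ⟪e, w⟫_ℝ := by
      rw [he, real_inner_smul_left, real_inner_self_eq_norm_sq]
      field_simp
    have h5 := h e h1 h3
    have h6 := (iteratedFDeriv ℝ j (fun x => ⟪e, F x⟫_ℝ) y).le_opNorm m
    rw [← key e m, ← hw, ← h4, norm_norm] at h6
    exact h6.trans (mul_le_mul_of_nonneg_right h5 hprod)

/-! ### The formula for W -/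

lemma II_pr_dir {G : Type*} [NormedAddCommGroup G] [NormedSpace ℝ G] [CompleteSpace G]
    {F : ℝ → Sp d → ℝ} {K : Sp d → G} {m : ℕ} (hF : SF F) (hK : KC (m + 1) K) (ε : ℝ)
    (y e : Sp d) : fderiv ℝ (II ε (pr F K)) y e = II ε (pr (pX F e) K) y := by
  rw [(II_hasFDerivAt (Reg.pr hF hK) ε y).fderiv, II_apply (Reg.pr hF hK).dX]
  exact II_congr ε (fun r z x hr => dX_pr hF hr z x e) y

lemma pXX {F : ℝ → Sp d → ℝ} (h : SF F) (a b : Sp d) {r : ℝ} (hr : 0 < r) (x : Sp d) :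
    pX (pX F a) b r x = fderiv ℝ (fderiv ℝ (F r)) x b a := by
  have h1 := h.contDiff hr
  have h2 : DifferentiableAt ℝ (fderiv ℝ (F r)) x :=
    ((h1.fderiv_right (m := 1) (by norm_cast)).differentiable (by simp)).differentiableAt
  have : HasFDerivAt (fun x' => fderiv ℝ (F r) x' a)
      ((ContinuousLinearMap.apply ℝ ℝ a).comp (fderiv ℝ (fderiv ℝ (F r)) x)) x :=
    (ContinuousLinearMap.apply ℝ ℝ a).hasFDerivAt.comp x h2.hasFDerivAt
  unfold pX
  rw [this.fderiv]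
  rfl

lemma lap_pX {F : ℝ → Sp d → ℝ} (h : SF F) {r : ℝ} (hr : 0 < r) (x : Sp d) :
    lap (F r) x = ∑ j : Fin d, pX (pX F (EuclideanSpace.single j (1 : ℝ)))
      (EuclideanSpace.single j (1 : ℝ)) r x := by
  unfold lap
  refine Finset.sum_congr rfl fun j _ => ?_
  rw [iteratedFDeriv_two_apply, pXX h _ _ hr]

lemma Reg.sum {G : Type*} [NormedAddCommGroup G] [NormedSpace ℝ G] {ι : Type*} {m : ℕ}
    {Ψ : ι → ℝ → Sp d → Sp d → G} {s : Finset ι} (h : ∀ i ∈ s, Reg m (Ψ i)) :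
    Reg m (fun r z x => ∑ i ∈ s, Ψ i r z x) :=
  ⟨ContDiffOn.sum fun i hi => (h i hi).smooth,
    fun r z x hz => Finset.sum_eq_zero fun i hi => (h i hi).supp r z x hz⟩

lemma II_sum {G : Type*} [NormedAddCommGroup G] [NormedSpace ℝ G] {ι : Type*} {m : ℕ}
    {Ψ : ι → ℝ → Sp d → Sp d → G} {s : Finset ι} (h : ∀ i ∈ s, Reg m (Ψ i)) (ε : ℝ) (y : Sp d) :
    II ε (fun r z x => ∑ i ∈ s, Ψ i r z x) y = ∑ i ∈ s, II ε (Ψ i) y := by
  unfold II
  rw [← integral_finsetSum s fun i hi => (h i hi).integrableOn ε y]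
  simp only [Finset.smul_sum]

/-- the kernel K1 -/
def K1 (β : Sp d → ℝ) (ε : ℝ) (n : Sp d) (z : Sp d) : ℝ :=
  β z + ((2 * ε ^ 2) • fderiv ℝ (fun z => fderiv ℝ (Bp (Bp β)) z n) z n
    + (-(ε ^ 2)) • ∑ j : Fin d, fderiv ℝ (fun z => fderiv ℝ (Bp (Bp β)) z
      (EuclideanSpace.single j (1 : ℝ))) z (EuclideanSpace.single j (1 : ℝ)))

lemma K1_kb {J : ℕ} {M : ℝ} {β : Sp d → ℝ} (h : Kit (J + 4) M β) {n : Sp d} (hn : ‖n‖ = 1)
    {ε : ℝ} (hε : 0 < ε) (hε1 : ε ≤ 1) :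
    KB (J + 2) (((d : ℝ) + 3) * Real.sqrt (max M 1)) (disc n β) (K1 β ε n) := by
  obtain ⟨k0, _, k2⟩ := Kit.kb h hn
  have hs : ∀ j : Fin d, ‖(EuclideanSpace.single j (1 : ℝ) : Sp d)‖ ≤ 1 := by simp
  have h1 : KB (J + 2) (Real.sqrt (max M 1)) (disc n β)
      (fun z => fderiv ℝ (fun z => fderiv ℝ (Bp (Bp β)) z n) z n) :=
    KB.dir (m := J + 2) (KB.dir (m := J + 3) k2 hn.le) hn.le
  have h2 : KB (J + 2) ((Finset.univ : Finset (Fin d)).card * Real.sqrt (max M 1)) (disc n β)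
      (fun z => ∑ j : Fin d, fderiv ℝ (fun z => fderiv ℝ (Bp (Bp β)) z
      (EuclideanSpace.single j (1 : ℝ))) z (EuclideanSpace.single j (1 : ℝ))) :=
    KB.sum fun j _ => KB.dir (m := J + 2) (KB.dir (m := J + 3) k2 (hs j)) (hs j)
  have h3 := (k0.mono (by omega : J + 2 ≤ J + 4)).add ((h1.csmul (2 * ε ^ 2)).add
    (h2.csmul (-(ε ^ 2))))
  have hs0 := Real.sqrt_nonneg (max M 1)
  have hε2 : ε ^ 2 ≤ 1 := by nlinarith
  refine ⟨h3.kc, fun i hi z => (h3.bd i hi z).trans ?_⟩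
  refine mul_le_mul_of_nonneg_right ?_ (Real.sqrt_nonneg _)
  rw [Finset.card_univ, Fintype.card_fin, abs_neg, abs_of_nonneg (by positivity),
    abs_of_nonneg (by positivity)]
  have hd0 : (0 : ℝ) ≤ d := Nat.cast_nonneg d
  have h4 : 2 * ε ^ 2 * Real.sqrt (max M 1) ≤ 2 * Real.sqrt (max M 1) := by nlinarith
  have h5 : ε ^ 2 * (d * Real.sqrt (max M 1)) ≤ 1 * (d * Real.sqrt (max M 1)) :=
    mul_le_mul_of_nonneg_right hε2 (by positivity)
  linarith

lemma pX_rmul {F : ℝ → Sp d → ℝ} (h : SF F) (ρ : ℝ → ℝ) (e : Sp d) {r : ℝ} (hr : 0 < r)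
    (x : Sp d) : pX (fun r x => ρ r * F r x) e r x = ρ r * pX F e r x := by
  have h3 : HasFDerivAt (fun x' => ρ r * F r x') (ρ r • fderiv ℝ (F r) x) x :=
    ((h.contDiff hr).differentiable (by simp)).differentiableAt.hasFDerivAt.const_mul _
  show fderiv ℝ (fun x' => ρ r * F r x') x e = _
  rw [h3.fderiv]
  rfl

lemma ibp1 {F : ℝ → Sp d → ℝ} (h : SF F) {ρ : ℝ → ℝ} (hρ : SF (fun r (_ : Sp d) => ρ r))
    {K : Sp d → ℝ} {m : ℕ} (hK : KC (m + 1) K) {ε : ℝ} (hε : 0 < ε) (a y : Sp d) :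
    II ε (pr (fun r x => ρ r * pX F a r x) K) y
      = II ε (pr (fun r x => -(1 / (ε * r)) * (ρ r * F r x)) (fun z => fderiv ℝ K z a)) y := by
  rw [← II_ibp (hρ.mul h) hK hε a y]
  refine II_congr ε (fun r z x hr => ?_) y
  unfold pr
  rw [pX_rmul h ρ a hr]

lemma ibp2 {F : ℝ → Sp d → ℝ} (h : SF F) {ρ : ℝ → ℝ} (hρ : SF (fun r (_ : Sp d) => ρ r))
    {K : Sp d → ℝ} {m : ℕ} (hK : KC (m + 2) K) {ε : ℝ} (hε : 0 < ε) (a y : Sp d) :
    II ε (pr (fun r x => ρ r * pX (pX F a) a r x) K) y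
      = II ε (pr (fun r x => (ρ r / (ε * r) ^ 2) * F r x)
        (fun z => fderiv ℝ (fun z => fderiv ℝ K z a) z a)) y := by
  have hρ' : SF (fun r (_ : Sp d) => -(1 / (ε * r)) * ρ r) := (SF.inv_r hε).mul hρ
  rw [ibp1 (h.pX a) hρ (m := m + 1) hK hε a y]
  have e1 : II ε (pr (fun r x => -(1 / (ε * r)) * (ρ r * pX F a r x)) (fun z => fderiv ℝ K z a)) y
      = II ε (pr (fun r x => (-(1 / (ε * r)) * ρ r) * pX F a r x) (fun z => fderiv ℝ K z a)) y := by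
    refine II_congr ε (fun r z x hr => ?_) y
    unfold pr
    simp only [mul_assoc]
  rw [e1, ibp1 h hρ' (m := m) (hK.dir (m := m + 1) a) hε a y]
  refine II_congr ε (fun r z x hr => ?_) y
  unfold pr
  congr 1
  field_simp

/-- the kernel K2 -/
def K2 (β : Sp d → ℝ) (ε : ℝ) (z : Sp d) : ℝ :=
  β z + (-(ε ^ 2)) • ∑ j : Fin d, fderiv ℝ (fun z => fderiv ℝ (Bp (Bp β)) z
      (EuclideanSpace.single j (1 : ℝ))) z (EuclideanSpace.single j (1 : ℝ))

lemma K2_kc {J : ℕ} {M : ℝ} {β : Sp d → ℝ} (h : Kit (J + 4) M β) {n : Sp d} (hn : ‖n‖ = 1)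
    (ε : ℝ) : KB (J + 2) (Real.sqrt (max M 1) + |(-(ε ^ 2))| * (d * Real.sqrt (max M 1)))
      (disc n β) (K2 β ε) := by
  obtain ⟨k0, _, k2⟩ := Kit.kb h hn
  have hs : ∀ j : Fin d, ‖(EuclideanSpace.single j (1 : ℝ) : Sp d)‖ ≤ 1 := by simp
  have h2 : KB (J + 2) ((Finset.univ : Finset (Fin d)).card * Real.sqrt (max M 1)) (disc n β)
      (fun z => ∑ j : Fin d, fderiv ℝ (fun z => fderiv ℝ (Bp (Bp β)) z
      (EuclideanSpace.single j (1 : ℝ))) z (EuclideanSpace.single j (1 : ℝ))) :=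
    KB.sum fun j _ => KB.dir (m := J + 2) (KB.dir (m := J + 3) k2 (hs j)) (hs j)
  rw [Finset.card_univ, Fintype.card_fin] at h2
  exact (k0.mono (by omega : J + 2 ≤ J + 4)).add (h2.csmul (-(ε ^ 2)))

lemma WW_eq0 {C : ℝ} {μ : Measure (Sp d)} (hV : VOK C (vv μ)) {J : ℕ} {M : ℝ} {β : Sp d → ℝ}
    (h : Kit (J + 4) M β) {n : Sp d} (hn : ‖n‖ = 1) {ε : ℝ} (hε : 0 < ε)
    (y : Sp d) : WW β ε μ 1 y = II ε (pr (vv μ) (K2 β ε)) y
      + II ε (pr (fun r x => -(2 * ε ^ 2 * r) * pT (vv μ) r x) (Bp β)) y := by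
  obtain ⟨k0, k1, k2⟩ := Kit.kb h hn
  have hsf := hV.sf
  have hr0 : SF (fun (r : ℝ) (_ : Sp d) => r) := SF.r
  have s1 : SF (fun (r : ℝ) (_ : Sp d) => -(2 * ε ^ 2 * r)) := ((SF.const (2 * ε ^ 2)).mul hr0).neg
  have s2 : SF (fun (r : ℝ) (_ : Sp d) => -(ε ^ 4 * r ^ 2)) :=
    ((SF.const (ε ^ 4)).mul (hr0.pow 2)).neg
  have c0 : KC 0 β := k0.kc.mono (Nat.zero_le _)
  have c1 : KC 0 (Bp β) := k1.kc.mono (Nat.zero_le _)
  have c2 : KC 0 (Bp (Bp β)) := k2.kc.mono (Nat.zero_le _)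
  have r0 := Reg.pr hsf c0
  have r1 := Reg.pr (s1.mul hsf.pT) c1
  have r2 : ∀ j ∈ (Finset.univ : Finset (Fin d)), Reg 0 (pr (fun r x => -(ε ^ 4 * r ^ 2)
      * pX (pX (vv μ) (EuclideanSpace.single j (1 : ℝ))) (EuclideanSpace.single j (1 : ℝ)) r x)
      (Bp (Bp β))) :=
    fun j _ => Reg.pr (s2.mul ((hsf.pX _).pX _)) c2
  -- W as an average
  have e1 : WW β ε μ 1 y = II ε (fun r z x => pr (vv μ) β r z x
      + (pr (fun r x => -(2 * ε ^ 2 * r) * pT (vv μ) r x) (Bp β) r z x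
        + ∑ j : Fin d, pr (fun r x => -(ε ^ 4 * r ^ 2)
      * pX (pX (vv μ) (EuclideanSpace.single j (1 : ℝ))) (EuclideanSpace.single j (1 : ℝ)) r x)
      (Bp (Bp β)) r z x)) y := by
    rw [II_iter (r0.add (r1.add (Reg.sum r2)))]
    unfold WW
    rw [mul_one]
    refine intervalIntegral.integral_congr fun r hr => ?_
    rw [uIcc_of_le (by norm_num)] at hr
    have hrp := pos_of_Icc hr
    simp only [smul_eq_mul]
    congr 1
    unfold wt
    refine integral_congr_ae (Eventually.of_forall fun z => ?_)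
    simp only
    rw [lap_pX hsf hrp]
    unfold pr
    simp only [smul_eq_mul]
    rw [← Finset.sum_mul, ← Finset.mul_sum]
    show _ * _ - 2 * ε ^ 2 * r * (_ * pT (vv μ) r _) - _ = _
    ring
  -- the third term
  have e3 : ∀ j : Fin d, II ε (pr (fun r x => -(ε ^ 4 * r ^ 2)
      * pX (pX (vv μ) (EuclideanSpace.single j (1 : ℝ))) (EuclideanSpace.single j (1 : ℝ)) r x)
      (Bp (Bp β))) y = II ε (pr (fun r x => -(ε ^ 2) * vv μ r x)
        (fun z => fderiv ℝ (fun z => fderiv ℝ (Bp (Bp β)) z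
          (EuclideanSpace.single j (1 : ℝ))) z (EuclideanSpace.single j (1 : ℝ)))) y := by
    intro j
    rw [ibp2 hsf s2 (m := J + 2) k2.kc hε _ y]
    refine II_congr ε (fun r z x hr => ?_) y
    unfold pr
    congr 1
    field_simp
  have q2 : ∀ j ∈ (Finset.univ : Finset (Fin d)), Reg (J + 2) (pr (fun r x => -(ε ^ 2) * vv μ r x)
        (fun z => fderiv ℝ (fun z => fderiv ℝ (Bp (Bp β)) z
          (EuclideanSpace.single j (1 : ℝ))) z (EuclideanSpace.single j (1 : ℝ)))) :=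
    fun j _ => Reg.pr ((SF.const (d := d) (-(ε ^ 2))).mul hsf)
      (KC.dir (m := J + 2) (KC.dir (m := J + 3) k2.kc _) _)
  have e4 : II ε (pr (vv μ) (K2 β ε)) y = II ε (fun r z x => pr (vv μ) β r z x
      + ∑ j : Fin d, pr (fun r x => -(ε ^ 2) * vv μ r x)
        (fun z => fderiv ℝ (fun z => fderiv ℝ (Bp (Bp β)) z
          (EuclideanSpace.single j (1 : ℝ))) z (EuclideanSpace.single j (1 : ℝ))) r z x) y := by
    refine II_congr ε (fun r z x hr => ?_) y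
    unfold pr K2
    simp only [smul_eq_mul]
    rw [← Finset.mul_sum]
    ring
  rw [e1, II_add r0 (r1.add (Reg.sum r2)), II_add r1 (Reg.sum r2), II_sum r2,
    Finset.sum_congr rfl fun j _ => e3 j, e4, II_add r0 (Reg.sum q2), II_sum q2]
  ring

lemma WW_eq {C : ℝ} {μ : Measure (Sp d)} (hV : VOK C (vv μ)) {J : ℕ} {M : ℝ} {β : Sp d → ℝ}
    (h : Kit (J + 4) M β) {n : Sp d} (hn : ‖n‖ = 1) {ε : ℝ} (hε : 0 < ε)
    (y : Sp d) : WW β ε μ 1 y = II ε (pr (vv μ) (K1 β ε n)) y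
      + II ε (dp (fun r x => (-(2 * ε ^ 2 * r)) * pT (vv μ) r x)
        (fun r x => (-(2 * ε ^ 2 * r)) * pX (vv μ) n r x) n ε (Bp β)) y := by
  obtain ⟨k0, k1, k2⟩ := Kit.kb h hn
  have hsf := hV.sf
  have g2 : ∀ z, fderiv ℝ (Bp (Bp β)) z n = -(⟪n, z⟫_ℝ * Bp β z) := by
    intro z
    have h1 := (h.grad2 z).hasFDerivAt.fderiv
    rw [h1, InnerProductSpace.toDual_apply_apply, real_inner_smul_left, real_inner_comm]
    ring
  have hr0 : SF (fun (r : ℝ) (_ : Sp d) => r) := SF.r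
  have s1 : SF (fun (r : ℝ) (_ : Sp d) => -(2 * ε ^ 2 * r)) := ((SF.const (2 * ε ^ 2)).mul hr0).neg
  have s3 : SF (fun (r : ℝ) (_ : Sp d) => -(2 * ε ^ 3 * r)) := ((SF.const (2 * ε ^ 3)).mul hr0).neg
  have c1 : KC 0 (Bp β) := k1.kc.mono (Nat.zero_le _)
  have kk2 := (K2_kc h hn ε).kc
  -- the second term
  have e2 : II ε (pr (fun r x => -(2 * ε ^ 2 * r) * pT (vv μ) r x) (Bp β)) y
      = II ε (dp (fun r x => (-(2 * ε ^ 2 * r)) * pT (vv μ) r x)
        (fun r x => (-(2 * ε ^ 2 * r)) * pX (vv μ) n r x) n ε (Bp β)) y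
        + II ε (pr (fun r x => (2 * ε ^ 2) * vv μ r x)
          (fun z => fderiv ℝ (fun z => fderiv ℝ (Bp (Bp β)) z n) z n)) y := by
    have t1 : II ε (pr (fun r x => (2 * ε ^ 2) * vv μ r x)
          (fun z => fderiv ℝ (fun z => fderiv ℝ (Bp (Bp β)) z n) z n)) y
        = II ε (pr (fun r x => -(2 * ε ^ 3 * r) * pX (vv μ) n r x)
          (fun z => fderiv ℝ (Bp (Bp β)) z n)) y := by
      rw [ibp1 hsf s3 (m := J + 2) (KC.dir (m := J + 3) k2.kc n) hε n y]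
      refine II_congr ε (fun r z x hr => ?_) y
      unfold pr
      congr 1
      field_simp
    rw [t1, ← II_add (Reg.dp (s1.mul hsf.pT) (s1.mul (hsf.pX n)) c1 n ε)
      (Reg.pr (s3.mul (hsf.pX n)) (KC.dir (m := J + 3) k2.kc n))]
    refine II_congr ε (fun r z x hr => ?_) y
    unfold pr dp
    simp only [smul_eq_mul, g2]
    ring
  have q1 := Reg.pr ((SF.const (d := d) (2 * ε ^ 2)).mul hsf)
    (KC.dir (m := J + 2) (KC.dir (m := J + 3) k2.kc n) n)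
  have e4 : II ε (pr (vv μ) (K1 β ε n)) y = II ε (fun r z x => pr (vv μ) (K2 β ε) r z x
      + pr (fun r x => (2 * ε ^ 2) * vv μ r x)
          (fun z => fderiv ℝ (fun z => fderiv ℝ (Bp (Bp β)) z n) z n) r z x) y := by
    refine II_congr ε (fun r z x hr => ?_) y
    unfold pr K1 K2
    simp only [smul_eq_mul]
    ring
  rw [WW_eq0 hV h hn hε, e2, e4, II_add (Reg.pr hsf kk2) q1]
  ring

/-- the derivative of W in directions orthogonal to n -/
lemma WW_dir {C : ℝ} {μ : Measure (Sp d)} (hV : VOK C (vv μ)) {J : ℕ} {M : ℝ} {β : Sp d → ℝ}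
    (h : Kit (J + 4) M β) {n : Sp d} (hn : ‖n‖ = 1) {ε : ℝ} (hε : 0 < ε) (hε1 : ε ≤ 1) {e : Sp d}
    (hne : ⟪n, e⟫_ℝ = 0) (y : Sp d) : fderiv ℝ (WW β ε μ 1) y e
      = II ε (pr (fun r x => (1 : ℝ) * pX (vv μ) e r x) (K1 β ε n)) y
      + II ε (dp (fun r x => (2 * ε) * pT (vv μ) r x)
        (fun r x => (2 * ε) * pX (vv μ) n r x) n ε (fun z => fderiv ℝ (Bp β) z e)) y := by
  obtain ⟨_, k1, _⟩ := Kit.kb h hn
  have kk := (K1_kb h hn hε hε1).kc
  have hsf := hV.sf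
  have s1 : SF (fun (r : ℝ) (_ : Sp d) => -(2 * ε ^ 2 * r)) :=
    ((SF.const (2 * ε ^ 2)).mul SF.r).neg
  have rr := Reg.dp (s1.mul hsf.pT) (s1.mul (hsf.pX n)) (KC.mono k1.kc (by omega : J + 3 + 1 ≤ J + 4))
    n ε
  have e0 : WW β ε μ 1 = fun y => II ε (pr (vv μ) (K1 β ε n)) y
      + II ε (dp (fun r x => (-(2 * ε ^ 2 * r)) * pT (vv μ) r x)
        (fun r x => (-(2 * ε ^ 2 * r)) * pX (vv μ) n r x) n ε (Bp β)) y :=
    funext fun y => WW_eq hV h hn hε y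
  have d1 := II_hasFDerivAt (m := J + 1) (Reg.pr hsf kk) ε y
  have d2 := II_hasFDerivAt' rr hε y
  rw [e0, (d1.fun_add d2).fderiv]
  show (II ε (dX (pr (vv μ) (K1 β ε n))) y) e + (II ε (zd ε _) y) e = _
  rw [II_apply (Reg.pr hsf (m := J + 1 + 1) kk).dX, II_apply (rr.zd hε)]
  congr 1
  · refine II_congr ε (fun r z x hr => ?_) y
    rw [dX_pr hsf hr]
    unfold pr
    simp only [one_mul]
  · refine II_congr ε (fun r z x hr => ?_) y
    rw [zd_dp (KC.mono k1.kc (by omega : J + 3 + 1 ≤ J + 4)) n hε hr]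
    unfold dp pr tens
    simp only [add_apply, smul_apply, ContinuousLinearMap.smulRight_apply, innerSL_apply_apply,
      hne, smul_eq_mul]
    field_simp
    ring

lemma WW_contDiff {C : ℝ} {μ : Measure (Sp d)} (hV : VOK C (vv μ)) {J : ℕ} {M : ℝ}
    {β : Sp d → ℝ} (h : Kit (J + 4) M β) {n : Sp d} (hn : ‖n‖ = 1) {ε : ℝ} (hε : 0 < ε)
    (hε1 : ε ≤ 1) : ContDiff ℝ (J + 2 : ℕ) (WW β ε μ 1) := by
  obtain ⟨_, k1, _⟩ := Kit.kb h hn
  have kk := (K1_kb h hn hε hε1).kc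
  have hsf := hV.sf
  have s1 : SF (fun (r : ℝ) (_ : Sp d) => -(2 * ε ^ 2 * r)) :=
    ((SF.const (2 * ε ^ 2)).mul SF.r).neg
  have rr := Reg.dp (s1.mul hsf.pT) (s1.mul (hsf.pX n)) (KC.mono k1.kc (by omega : J + 2 ≤ J + 4))
    n ε
  have e0 : WW β ε μ 1 = fun y => II ε (pr (vv μ) (K1 β ε n)) y
      + II ε (dp (fun r x => (-(2 * ε ^ 2 * r)) * pT (vv μ) r x)
        (fun r x => (-(2 * ε ^ 2 * r)) * pX (vv μ) n r x) n ε (Bp β)) y :=
    funext fun y => WW_eq hV h hn hε y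
  rw [e0]
  exact (II_contDiff (Reg.pr hsf kk) hε).add (II_contDiff rr hε)

theorem wb_a (h : StmtTH) : ∀ (d J : ℕ), 2 ≤ d → ∀ (M C' ε : ℝ), 0 < C' → 0 < ε → ε ≤ 1 →
    ∃ C : ℝ, 0 < C ∧ ∀ β : Sp d → ℝ, Kit (J + 4) M β → ∀ μ : Measure (Sp d), Gro C' μ →
      ∀ n : Sp d, ‖n‖ = 1 →
        ∀ j ≤ J, ∀ y, ‖iteratedFDeriv ℝ j (fun x => tang n (gradient (WW β ε μ 1) x)) y‖ ^ 2 ≤
          C * vv μ 1 y * discR n (2 * ε) (X13 β ε μ n 1) y := by
  intro d J hd M C' ε hC' hε hε1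
  obtain ⟨C0, hC0, hv⟩ := vok h hd hC'
  set P0 := Real.sqrt (max M 1) with hP0
  have hP00 : 0 ≤ P0 := Real.sqrt_nonneg _
  set c1 := (4 / ε) ^ J * ((((d : ℝ) + 3) * P0) * 1 + P0 * 2) with hc1
  have hc10 : 0 ≤ c1 := by positivity
  have hvQ := vQ_nonneg (d := d)
  refine ⟨c1 ^ 2 * (C0 * vQ d * (2 / ε) ^ d) + 1, by positivity, ?_⟩
  intro β hβ μ hμ n hn j hj y
  have hV := hv μ hμ
  obtain ⟨k0, k1, _⟩ := Kit.kb hβ hn
  have kc0 : KC 0 β := k0.kc.mono (Nat.zero_le _)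
  have hβ0 := hβ.prof.nonneg
  have kk := K1_kb hβ hn hε hε1
  have hE := EE_nonneg hV (by linarith) n hε hβ0 y
  set E := EE C0 (vv μ) β n ε y with hEd
  have hcd := WW_contDiff hV hβ hn hε hε1
  have main : ‖iteratedFDeriv ℝ j (fun x => tang n (gradient (WW β ε μ 1) x)) y‖
      ≤ c1 * Real.sqrt E := by
    refine norm_iter_le (n := n) ?_ (fun x => inner_n_tang hn _) (by positivity) ?_
    · have g1 : ContDiff ℝ j (fun x => gradient (WW β ε μ 1) x) := by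
        have : ContDiff ℝ j (fderiv ℝ (WW β ε μ 1)) :=
          hcd.fderiv_right (by exact_mod_cast (by omega : j + 1 ≤ J + 2))
        exact ((InnerProductSpace.toDual ℝ (Sp d)).symm.contDiff).comp this
      unfold tang
      exact g1.sub ((contDiff_const.inner ℝ g1).smul contDiff_const)
    · intro e he hne
      have e0 : (fun x => ⟪e, tang n (gradient (WW β ε μ 1) x)⟫_ℝ)
          = fun x => II ε (pr (fun r x => (1 : ℝ) * pX (vv μ) e r x) (K1 β ε n)) x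
      + II ε (dp (fun r x => (2 * ε) * pT (vv μ) r x)
        (fun r x => (2 * ε) * pX (vv μ) n r x) n ε (fun z => fderiv ℝ (Bp β) z e)) x := by
        funext x
        rw [real_inner_comm, inner_tang hne, inner_grad, WW_dir hV hβ hn hε hε1 hne x]
      have a1 : SF (fun (_ : ℝ) (_ : Sp d) => (1 : ℝ)) := SF.const 1
      have a2 : SF (fun (_ : ℝ) (_ : Sp d) => 2 * ε) := SF.const (2 * ε)
      have q1 : ContDiff ℝ j (II ε (pr (fun r x => (1 : ℝ) * pX (vv μ) e r x) (K1 β ε n))) :=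
        II_contDiff (Reg.pr (a1.mul (hV.sf.pX e)) (kk.kc.mono (by omega))) hε
      have q2 : ContDiff ℝ j (II ε (dp (fun r x => (2 * ε) * pT (vv μ) r x)
        (fun r x => (2 * ε) * pX (vv μ) n r x) n ε (fun z => fderiv ℝ (Bp β) z e))) :=
        II_contDiff (Reg.dp (a2.mul hV.sf.pT) (a2.mul (hV.sf.pX n))
          (KC.mono (KC.dir (m := J + 3) k1.kc e) (by omega)) n ε) hε
      have e2 : iteratedFDeriv ℝ j (fun x =>
          II ε (pr (fun r x => (1 : ℝ) * pX (vv μ) e r x) (K1 β ε n)) x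
      + II ε (dp (fun r x => (2 * ε) * pT (vv μ) r x)
        (fun r x => (2 * ε) * pX (vv μ) n r x) n ε (fun z => fderiv ℝ (Bp β) z e)) x) y
        = iteratedFDeriv ℝ j (II ε (pr (fun r x => (1 : ℝ) * pX (vv μ) e r x) (K1 β ε n))) y
          + iteratedFDeriv ℝ j (II ε (dp (fun r x => (2 * ε) * pT (vv μ) r x)
        (fun r x => (2 * ε) * pX (vv μ) n r x) n ε (fun z => fderiv ℝ (Bp β) z e))) y :=
        iteratedFDeriv_add_apply q1.contDiffAt q2.contDiffAt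
      rw [e0, e2]
      have b1 := S_bd hV hn hε hε1 kc0 hβ0 he.le hne j ℝ (K1 β ε n)
        (((d : ℝ) + 3) * P0) 1 (fun _ => 1) (by positivity) zero_le_one
        (kk.mono (by omega)) a1 (by simp) y
      have b2 := Q_bd hV hn hε hε1 kc0 hβ0 he.le hne j ℝ (Bp β) P0 2 (fun _ => 2 * ε)
        hP00 zero_le_two (k1.mono (by omega)) a2 (fun r _ _ => by
          rw [abs_of_pos (by positivity)]
          linarith) y
      refine (norm_add_le _ _).trans ((add_le_add b1 b2).trans ?_)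
      have h1 : 1 ≤ 4 / ε := by
        rw [le_div_iff₀ hε]
        linarith
      have h2 : (2 / ε) ^ j ≤ (4 / ε) ^ J := by
        refine (pow_le_pow_left₀ (by positivity) ?_ j).trans (pow_le_pow_right₀ h1 hj)
        rw [div_le_div_iff₀ hε hε]
        nlinarith
      have h3 : (4 / ε) ^ j ≤ (4 / ε) ^ J := pow_le_pow_right₀ h1 hj
      have hs := Real.sqrt_nonneg E
      rw [hc1]
      calc (2 / ε) ^ j * (((d : ℝ) + 3) * P0 * 1) * Real.sqrt E
            + (4 / ε) ^ j * (P0 * 2) * Real.sqrt E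
          ≤ (4 / ε) ^ J * (((d : ℝ) + 3) * P0 * 1) * Real.sqrt E
            + (4 / ε) ^ J * (P0 * 2) * Real.sqrt E := by gcongr
        _ = _ := by ring
  have h4 : ‖iteratedFDeriv ℝ j (fun x => tang n (gradient (WW β ε μ 1) x)) y‖ ^ 2
      ≤ c1 ^ 2 * E := by
    calc _ ≤ (c1 * Real.sqrt E) ^ 2 := pow_le_pow_left₀ (norm_nonneg _) main 2
      _ = c1 ^ 2 * E := by rw [mul_pow, Real.sq_sqrt hE]
  have h5 : 0 ≤ vv μ 1 y * discR n (2 * ε) (XT (vv μ) β n ε) y := by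
    refine mul_nonneg (hV.pos 1 y one_pos).le (integral_nonneg fun u => ?_)
    unfold XT
    refine intervalIntegral.integral_nonneg (by norm_num) fun r hr => ?_
    exact mul_nonneg (tau_nonneg r) (gg_nonneg hV n ε hβ0 (by
      have := hr.1
      linarith) _)
  rw [X13_eq hV kc0 hn]
  refine h4.trans ?_
  rw [hEd]
  unfold EE
  nlinarith

end WBT

end

end TG
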