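import Pool.Agent.TG.Stmts1

/-!
# Averages over scales and profiles: tools (MP_287c87_an, module WB)

`II ε Ψ y = ∫ tau 1 r • ∫ Ψ r z (y + ε r z) dz dr`.  Rules: differentiation in `y`, integration by
parts, the Cauchy-Schwarz inequality with disc averages.
-/

open MeasureTheory Metric Set TrI Filter Topology
open scoped InnerProductSpace ContDiff

namespace TG

noncomputable section

namespace WBT

variable {d : ℕ} {G : Type*} [NormedAddCommGroup G] [NormedSpace ℝ G]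

/-- the domain of the integrands -/
def Om (d : ℕ) : Set (ℝ × Sp d × Sp d) := {p | 0 < p.1}

lemma isOpen_Om : IsOpen (Om d) := isOpen_lt continuous_const continuous_fst

/-- integrands of class `C^m` -/
structure Reg (m : ℕ) (Ψ : ℝ → Sp d → Sp d → G) : Prop where
  smooth : ContDiffOn ℝ m (fun p : ℝ × Sp d × Sp d => Ψ p.1 p.2.1 p.2.2) (Om d)
  supp : ∀ r z x, 1 < ‖z‖ → Ψ r z x = 0

/-- the derivative in `z` -/
def dZ (Ψ : ℝ → Sp d → Sp d → G) (r : ℝ) (z x : Sp d) : Sp d →L[ℝ] G :=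
  fderiv ℝ (fun z' => Ψ r z' x) z

/-- the derivative in `x` -/
def dX (Ψ : ℝ → Sp d → Sp d → G) (r : ℝ) (z x : Sp d) : Sp d →L[ℝ] G :=
  fderiv ℝ (fun x' => Ψ r z x') x

/-- inclusion of the variable `z` -/
def iz (d : ℕ) : Sp d →L[ℝ] ℝ × Sp d × Sp d :=
  (ContinuousLinearMap.inr ℝ ℝ (Sp d × Sp d)).comp (ContinuousLinearMap.inl ℝ (Sp d) (Sp d))

/-- inclusion of the variable `x` -/
def ix (d : ℕ) : Sp d →L[ℝ] ℝ × Sp d × Sp d :=
  (ContinuousLinearMap.inr ℝ ℝ (Sp d × Sp d)).comp (ContinuousLinearMap.inr ℝ (Sp d) (Sp d))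

lemma Reg.mono {m n : ℕ} {Ψ : ℝ → Sp d → Sp d → G} (h : Reg n Ψ) (hmn : m ≤ n) : Reg m Ψ :=
  ⟨h.smooth.of_le (by exact_mod_cast hmn), h.supp⟩

lemma Reg.diff {m : ℕ} {Ψ : ℝ → Sp d → Sp d → G} (h : Reg (m + 1) Ψ) {p : ℝ × Sp d × Sp d}
    (hp : 0 < p.1) :
    DifferentiableAt ℝ (fun p : ℝ × Sp d × Sp d => Ψ p.1 p.2.1 p.2.2) p :=
  (h.smooth.differentiableOn (by simp)).differentiableAt (isOpen_Om.mem_nhds hp)

lemma Reg.hasZ {m : ℕ} {Ψ : ℝ → Sp d → Sp d → G} (h : Reg (m + 1) Ψ) {r : ℝ} (hr : 0 < r)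
    (z x : Sp d) : HasFDerivAt (fun z' => Ψ r z' x)
      ((fderiv ℝ (fun p : ℝ × Sp d × Sp d => Ψ p.1 p.2.1 p.2.2) (r, z, x)).comp (iz d)) z := by
  have h1 := (h.diff (p := (r, z, x)) hr).hasFDerivAt
  have h2 : HasFDerivAt (fun z' : Sp d => ((r, z', x) : ℝ × Sp d × Sp d)) (iz d) z :=
    (hasFDerivAt_prodMk_right r (z, x)).comp z (hasFDerivAt_prodMk_left z x)
  exact h1.comp z h2

lemma Reg.hasX {m : ℕ} {Ψ : ℝ → Sp d → Sp d → G} (h : Reg (m + 1) Ψ) {r : ℝ} (hr : 0 < r)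
    (z x : Sp d) : HasFDerivAt (fun x' => Ψ r z x')
      ((fderiv ℝ (fun p : ℝ × Sp d × Sp d => Ψ p.1 p.2.1 p.2.2) (r, z, x)).comp (ix d)) x := by
  have h1 := (h.diff (p := (r, z, x)) hr).hasFDerivAt
  have h2 : HasFDerivAt (fun x' : Sp d => ((r, z, x') : ℝ × Sp d × Sp d)) (ix d) x :=
    (hasFDerivAt_prodMk_right r (z, x)).comp x (hasFDerivAt_prodMk_right z x)
  exact h1.comp x h2

lemma Reg.dZ_eq {m : ℕ} {Ψ : ℝ → Sp d → Sp d → G} (h : Reg (m + 1) Ψ) {r : ℝ} (hr : 0 < r)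
    (z x : Sp d) : dZ Ψ r z x =
      (fderiv ℝ (fun p : ℝ × Sp d × Sp d => Ψ p.1 p.2.1 p.2.2) (r, z, x)).comp (iz d) :=
  (h.hasZ hr z x).fderiv

lemma Reg.dX_eq {m : ℕ} {Ψ : ℝ → Sp d → Sp d → G} (h : Reg (m + 1) Ψ) {r : ℝ} (hr : 0 < r)
    (z x : Sp d) : dX Ψ r z x =
      (fderiv ℝ (fun p : ℝ × Sp d × Sp d => Ψ p.1 p.2.1 p.2.2) (r, z, x)).comp (ix d) :=
  (h.hasX hr z x).fderiv

lemma Reg.dZ {m : ℕ} {Ψ : ℝ → Sp d → Sp d → G} (h : Reg (m + 1) Ψ) : Reg m (dZ Ψ) := by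
  constructor
  · have h1 : ContDiffOn ℝ m (fun p : ℝ × Sp d × Sp d =>
        (fderiv ℝ (fun p : ℝ × Sp d × Sp d => Ψ p.1 p.2.1 p.2.2) p).comp (iz d)) (Om d) :=
      (h.smooth.fderiv_of_isOpen isOpen_Om (by push_cast; exact le_rfl)).clm_comp contDiffOn_const
    exact h1.congr fun p hp => h.dZ_eq hp p.2.1 p.2.2
  · intro r z x hz
    have h1 : (fun z' => Ψ r z' x) =ᶠ[𝓝 z] fun _ => 0 := by
      filter_upwards [(isOpen_lt continuous_const continuous_norm).mem_nhds hz] with z' hz'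
      exact h.supp r z' x hz'
    unfold WBT.dZ
    rw [h1.fderiv_eq]
    simp

lemma Reg.dX {m : ℕ} {Ψ : ℝ → Sp d → Sp d → G} (h : Reg (m + 1) Ψ) : Reg m (dX Ψ) := by
  constructor
  · have h1 : ContDiffOn ℝ m (fun p : ℝ × Sp d × Sp d =>
        (fderiv ℝ (fun p : ℝ × Sp d × Sp d => Ψ p.1 p.2.1 p.2.2) p).comp (ix d)) (Om d) :=
      (h.smooth.fderiv_of_isOpen isOpen_Om (by push_cast; exact le_rfl)).clm_comp contDiffOn_const
    exact h1.congr fun p hp => h.dX_eq hp p.2.1 p.2.2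
  · intro r z x hz
    unfold WBT.dX
    have : (fun x' => Ψ r z x') = fun _ => 0 := by
      ext x'
      exact h.supp r z x' hz
    rw [this]
    simp

/-! ### The averages -/

/-- the domain of integration -/
def Q2 (d : ℕ) : Set (ℝ × Sp d) := Icc (1 / 2 : ℝ) 2 ×ˢ closedBall 0 2

lemma isCompact_Q2 : IsCompact (Q2 d) := isCompact_Icc.prod (isCompact_closedBall _ _)

lemma measurableSet_Q2 : MeasurableSet (Q2 d) := isCompact_Q2.measurableSet

/-- the average -/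
def II (ε : ℝ) (Ψ : ℝ → Sp d → Sp d → G) (y : Sp d) : G :=
  ∫ p in Q2 d, tau 1 p.1 • Ψ p.1 p.2 (y + (ε * p.1) • p.2)

lemma continuous_tau : Continuous (tau 1) := by
  unfold tau
  fun_prop

lemma tau_nonneg (r : ℝ) : 0 ≤ tau 1 r := le_max_left _ _

lemma tau_le (r : ℝ) : tau 1 r ≤ 1 := by
  unfold tau
  refine max_le zero_le_one ?_
  rcases le_total r 1 with h | h
  · exact (min_le_left _ _).trans (by linarith)
  · exact (min_le_right _ _).trans (by linarith)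

lemma Reg.contOn {Ψ : ℝ → Sp d → Sp d → G} {m : ℕ} (h : Reg m Ψ) (ε : ℝ) :
    ContinuousOn (fun q : Sp d × (ℝ × Sp d) =>
      tau 1 q.2.1 • Ψ q.2.1 q.2.2 (q.1 + (ε * q.2.1) • q.2.2)) {q | 0 < q.2.1} := by
  refine (continuous_tau.comp (continuous_fst.comp continuous_snd)).continuousOn.smul ?_
  have h1 : Continuous fun q : Sp d × (ℝ × Sp d) =>
      ((q.2.1, q.2.2, q.1 + (ε * q.2.1) • q.2.2) : ℝ × Sp d × Sp d) := by fun_prop
  exact h.smooth.continuousOn.comp h1.continuousOn fun q hq => hq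

lemma Reg.contOn' {Ψ : ℝ → Sp d → Sp d → G} {m : ℕ} (h : Reg m Ψ) (ε : ℝ) (y : Sp d) :
    ContinuousOn (fun q : ℝ × Sp d =>
      tau 1 q.1 • Ψ q.1 q.2 (y + (ε * q.1) • q.2)) (Q2 d) := by
  have h1 : Continuous fun q : ℝ × Sp d => ((y, q) : Sp d × (ℝ × Sp d)) := by fun_prop
  refine (h.contOn ε).comp h1.continuousOn fun q hq => ?_
  have : (1 / 2 : ℝ) ≤ q.1 := hq.1.1
  show 0 < q.1
  linarith

lemma Reg.integrableOn {Ψ : ℝ → Sp d → Sp d → G} {m : ℕ} (h : Reg m Ψ) (ε : ℝ) (y : Sp d) :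
    IntegrableOn (fun q : ℝ × Sp d => tau 1 q.1 • Ψ q.1 q.2 (y + (ε * q.1) • q.2)) (Q2 d) :=
  (h.contOn' ε y).integrableOn_compact isCompact_Q2

lemma II_iter {Ψ : ℝ → Sp d → Sp d → G} {m : ℕ} (h : Reg m Ψ) (ε : ℝ) (y : Sp d) :
    II ε Ψ y = ∫ r in (1 / 2 : ℝ)..2, tau 1 r • ∫ z, Ψ r z (y + (ε * r) • z) := by
  unfold II Q2
  rw [Measure.volume_eq_prod, setIntegral_prod _ (by
    have := h.integrableOn ε y
    rwa [Q2, Measure.volume_eq_prod] at this),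
    intervalIntegral.integral_of_le (by norm_num), integral_Icc_eq_integral_Ioc]
  refine setIntegral_congr_fun measurableSet_Ioc fun r _ => ?_
  simp only
  rw [integral_smul]
  congr 1
  refine setIntegral_eq_integral_of_forall_compl_eq_zero fun z hz => ?_
  refine h.supp r z _ ?_
  rw [mem_closedBall_zero_iff, not_le] at hz
  linarith

/-- differentiation under the integral sign -/
lemma II_hasFDerivAt {Ψ : ℝ → Sp d → Sp d → G} {m : ℕ} (h : Reg (m + 1) Ψ) (ε : ℝ) (y : Sp d) :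
    HasFDerivAt (II ε Ψ) (II ε (dX Ψ) y) y := by
  have hK : IsCompact (closedBall y 1 ×ˢ Q2 d) := (isCompact_closedBall _ _).prod isCompact_Q2
  have hc := h.dX.contOn ε
  obtain ⟨B, hB⟩ := hK.exists_bound_of_continuousOn (hc.mono fun q hq => by
    have : (1 / 2 : ℝ) ≤ q.2.1 := hq.2.1.1
    show 0 < q.2.1
    linarith)
  have hfin : IsFiniteMeasure ((volume : Measure (ℝ × Sp d)).restrict (Q2 d)) :=
    ⟨by rw [Measure.restrict_apply_univ]; exact isCompact_Q2.measure_lt_top⟩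
  refine hasFDerivAt_integral_of_dominated_of_fderiv_le (𝕜 := ℝ)
    (μ := (volume : Measure (ℝ × Sp d)).restrict (Q2 d))
    (F := fun (y : Sp d) (q : ℝ × Sp d) => tau 1 q.1 • Ψ q.1 q.2 (y + (ε * q.1) • q.2))
    (F' := fun (y : Sp d) (q : ℝ × Sp d) => tau 1 q.1 • WBT.dX Ψ q.1 q.2 (y + (ε * q.1) • q.2))
    (bound := fun _ => B) (s := ball y 1) (ball_mem_nhds y one_pos) ?_ (h.integrableOn ε y) ?_ ?_
    (integrable_const B) ?_
  · exact Eventually.of_forall fun y' =>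
      (h.contOn' ε y').aestronglyMeasurable measurableSet_Q2
  · exact (h.dX.contOn' ε y).aestronglyMeasurable measurableSet_Q2
  · refine (ae_restrict_iff' measurableSet_Q2).2 (Eventually.of_forall fun p hp y' hy' => ?_)
    exact hB (y', p) ⟨ball_subset_closedBall hy', hp⟩
  · refine (ae_restrict_iff' measurableSet_Q2).2 (Eventually.of_forall fun p hp y' hy' => ?_)
    have hp0 : 0 < p.1 := by
      have : (1 / 2 : ℝ) ≤ p.1 := hp.1.1
      linarith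
    have h1 : HasFDerivAt (fun y' : Sp d => y' + (ε * p.1) • p.2) (ContinuousLinearMap.id ℝ _) y' :=
      (hasFDerivAt_id y').add_const _
    have h2 := ((h.hasX hp0 p.2 (y' + (ε * p.1) • p.2)).comp y' h1).const_smul (tau 1 p.1)
    rw [h.dX_eq hp0]
    exact h2

/-! ### Integration by parts -/

lemma Reg.cont_z {Ψ : ℝ → Sp d → Sp d → G} {m : ℕ} (h : Reg m Ψ) (s : ℝ) {r : ℝ} (hr : 0 < r)
    (y : Sp d) : Continuous fun z => Ψ r z (y + s • z) := by
  have h1 : Continuous fun z : Sp d => ((r, z, y + s • z) : ℝ × Sp d × Sp d) := by fun_prop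
  exact h.smooth.continuousOn.comp_continuous h1 fun z => hr

lemma Reg.cs_z {Ψ : ℝ → Sp d → Sp d → G} {m : ℕ} (h : Reg m Ψ) (s r : ℝ) (y : Sp d) :
    HasCompactSupport fun z => Ψ r z (y + s • z) := by
  refine HasCompactSupport.intro (isCompact_closedBall 0 1) fun z hz => ?_
  rw [mem_closedBall_zero_iff, not_le] at hz
  exact h.supp r z _ hz

lemma Reg.int_z {Ψ : ℝ → Sp d → Sp d → G} {m : ℕ} (h : Reg m Ψ) (s : ℝ) {r : ℝ} (hr : 0 < r)
    (y : Sp d) : Integrable fun z => Ψ r z (y + s • z) :=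
  (h.cont_z s hr y).integrable_of_hasCompactSupport (h.cs_z s r y)

lemma integral_fderiv_zero {g : Sp d → G} {g' : Sp d → (Sp d →L[ℝ] G)}
    (hg : ∀ z, HasFDerivAt g (g' z) z) (hi : Integrable g) (hi' : Integrable g') (v : Sp d) :
    ∫ z, g' z v = 0 := by
  have h1 : ∀ z, fderiv ℝ g z = g' z := fun z => (hg z).fderiv
  have h2 := integral_smul_fderiv_eq_neg_fderiv_smul_of_integrable (μ := (volume : Measure (Sp d)))
    (f := fun _ : Sp d => (1 : ℝ)) (g := g) (v := v) (by simp) (by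
      simp only [one_smul, h1]
      exact (ContinuousLinearMap.apply ℝ G v).integrable_comp hi') (by simpa using hi)
    (fun z _ => differentiableAt_const _) (fun z _ => (hg z).differentiableAt)
  simpa [h1] using h2

lemma ibp_z [CompleteSpace G] {Ψ : ℝ → Sp d → Sp d → G} {m : ℕ} (h : Reg (m + 1) Ψ) (s : ℝ)
    {r : ℝ} (hr : 0 < r) (y : Sp d) :
    s • ∫ z, dX Ψ r z (y + s • z) = - ∫ z, dZ Ψ r z (y + s • z) := by
  have hX := h.dX.int_z s hr y
  have hZ := h.dZ.int_z s hr y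
  have hg : ∀ z, HasFDerivAt (fun z => Ψ r z (y + s • z))
      (dZ Ψ r z (y + s • z) + s • dX Ψ r z (y + s • z)) z := by
    intro z
    have h1 := (h.diff (p := (r, z, y + s • z)) hr).hasFDerivAt
    have h2 : HasFDerivAt (fun z' : Sp d => ((r, z', y + s • z') : ℝ × Sp d × Sp d))
        (iz d + s • ix d) z := by
      have h3 : HasFDerivAt (fun z' : Sp d => y + s • z') (s • ContinuousLinearMap.id ℝ (Sp d)) z :=
        ((hasFDerivAt_id z).const_smul s).const_add y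
      have h4 := (hasFDerivAt_const r z).prodMk ((hasFDerivAt_id (𝕜 := ℝ) z).prodMk h3)
      refine h4.congr_fderiv ?_
      ext v <;> simp [iz, ix]
    have h3 := h1.comp z h2
    rw [h.dZ_eq hr, h.dX_eq hr]
    refine h3.congr_fderiv ?_
    ext v
    simp
  have hi : Integrable fun z => dZ Ψ r z (y + s • z) + s • dX Ψ r z (y + s • z) :=
    hZ.add (hX.smul s)
  have h0 : ∫ z, (dZ Ψ r z (y + s • z) + s • dX Ψ r z (y + s • z)) = 0 := by
    ext v
    rw [ContinuousLinearMap.integral_apply hi]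
    exact integral_fderiv_zero hg (h.int_z s hr y) hi v
  have e : ∫ z, (dZ Ψ r z (y + s • z) + s • dX Ψ r z (y + s • z))
      = (∫ z, dZ Ψ r z (y + s • z)) + ∫ z, s • dX Ψ r z (y + s • z) :=
    integral_add hZ (hX.smul s)
  rw [e, integral_smul] at h0
  rw [eq_neg_iff_add_eq_zero, add_comm]
  exact h0

/-- the integrand of the derivative -/
def zd (ε : ℝ) (Ψ : ℝ → Sp d → Sp d → G) (r : ℝ) (z x : Sp d) : Sp d →L[ℝ] G :=
  (-(1 / (ε * r))) • dZ Ψ r z x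

lemma Reg.zd {Ψ : ℝ → Sp d → Sp d → G} {m : ℕ} (h : Reg (m + 1) Ψ) {ε : ℝ} (hε : 0 < ε) :
    Reg m (zd ε Ψ) := by
  refine ⟨?_, fun r z x hz => ?_⟩
  · have h1 : ContDiffOn ℝ m (fun p : ℝ × Sp d × Sp d => -(1 / (ε * p.1))) (Om d) := by
      refine (ContDiffOn.div contDiffOn_const (contDiffOn_const.mul contDiffOn_fst) ?_).neg
      intro p hp
      have : 0 < p.1 := hp
      positivity
    exact h1.smul h.dZ.smooth
  · unfold WBT.zd
    rw [h.dZ.supp r z x hz, smul_zero]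

lemma II_dX [CompleteSpace G] {Ψ : ℝ → Sp d → Sp d → G} {m : ℕ} (h : Reg (m + 1) Ψ) {ε : ℝ}
    (hε : 0 < ε) (y : Sp d) : II ε (dX Ψ) y = II ε (zd ε Ψ) y := by
  rw [II_iter h.dX, II_iter (h.zd hε), intervalIntegral.integral_of_le (by norm_num),
    intervalIntegral.integral_of_le (by norm_num)]
  refine setIntegral_congr_fun measurableSet_Ioc fun r hr => ?_
  have hr0 : (0 : ℝ) < r := by
    have : (1 / 2 : ℝ) < r := hr.1
    linarith
  have hs : 0 < ε * r := by positivity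
  have h1 := ibp_z h (ε * r) hr0 y
  have h2 : ∫ z, zd ε Ψ r z (y + (ε * r) • z)
      = (-(1 / (ε * r))) • ∫ z, dZ Ψ r z (y + (ε * r) • z) := by
    unfold zd
    rw [integral_smul]
  show tau 1 r • ∫ z, dX Ψ r z (y + (ε * r) • z) = tau 1 r • ∫ z, zd ε Ψ r z (y + (ε * r) • z)
  have h3 : (-(1 / (ε * r))) • ∫ z, dZ Ψ r z (y + (ε * r) • z)
      = ∫ z, dX Ψ r z (y + (ε * r) • z) := by
    rw [neg_eq_iff_eq_neg.1 h1.symm, smul_neg, neg_smul, neg_neg, smul_smul,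
      one_div_mul_cancel hs.ne', one_smul]
  rw [h2, h3]

lemma II_hasFDerivAt' [CompleteSpace G] {Ψ : ℝ → Sp d → Sp d → G} {m : ℕ} (h : Reg (m + 1) Ψ)
    {ε : ℝ} (hε : 0 < ε) (y : Sp d) : HasFDerivAt (II ε Ψ) (II ε (zd ε Ψ) y) y := by
  rw [← II_dX h hε]
  exact II_hasFDerivAt h ε y

lemma II_fderiv [CompleteSpace G] {Ψ : ℝ → Sp d → Sp d → G} {m : ℕ} (h : Reg (m + 1) Ψ)
    {ε : ℝ} (hε : 0 < ε) : fderiv ℝ (II ε Ψ) = II ε (zd ε Ψ) :=
  funext fun y => (II_hasFDerivAt' h hε y).fderiv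

lemma II_continuous {Ψ : ℝ → Sp d → Sp d → G} {m : ℕ} (h : Reg m Ψ) (ε : ℝ) :
    Continuous (II ε Ψ) := by
  rw [continuous_iff_continuousAt]
  intro y
  have hK : IsCompact (closedBall y 1 ×ˢ Q2 d) := (isCompact_closedBall _ _).prod isCompact_Q2
  have hc := h.contOn ε
  obtain ⟨B, hB⟩ := hK.exists_bound_of_continuousOn (hc.mono fun q hq => by
    have : (1 / 2 : ℝ) ≤ q.2.1 := hq.2.1.1
    show 0 < q.2.1
    linarith)
  have hfin : IsFiniteMeasure ((volume : Measure (ℝ × Sp d)).restrict (Q2 d)) :=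
    ⟨by rw [Measure.restrict_apply_univ]; exact isCompact_Q2.measure_lt_top⟩
  refine continuousAt_of_dominated (bound := fun _ => B) ?_ ?_ (integrable_const B) ?_
  · exact Eventually.of_forall fun y' =>
      (h.contOn' ε y').aestronglyMeasurable measurableSet_Q2
  · filter_upwards [closedBall_mem_nhds y one_pos] with y' hy'
    exact (ae_restrict_iff' measurableSet_Q2).2 (Eventually.of_forall fun p hp =>
      hB (y', p) ⟨hy', hp⟩)
  · refine (ae_restrict_iff' measurableSet_Q2).2 (Eventually.of_forall fun p hp => ?_)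
    have hp0 : 0 < p.1 := by
      have : (1 / 2 : ℝ) ≤ p.1 := hp.1.1
      linarith
    have h2 : ContinuousAt (fun q : Sp d × (ℝ × Sp d) =>
        tau 1 q.2.1 • Ψ q.2.1 q.2.2 (q.1 + (ε * q.2.1) • q.2.2)) (y, p) :=
      hc.continuousAt ((isOpen_lt continuous_const
        (continuous_fst.comp continuous_snd)).mem_nhds hp0)
    exact h2.comp (f := fun y' : Sp d => ((y', p) : Sp d × (ℝ × Sp d))) (by fun_prop)

lemma II_contDiff {m : ℕ} : ∀ {G : Type} [NormedAddCommGroup G] [NormedSpace ℝ G]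
    [CompleteSpace G] {Ψ : ℝ → Sp d → Sp d → G}, Reg m Ψ → ∀ {ε : ℝ}, 0 < ε →
    ContDiff ℝ m (II ε Ψ) := by
  induction m with
  | zero =>
    intro G _ _ _ Ψ h ε hε
    rw [Nat.cast_zero, contDiff_zero]
    exact II_continuous h ε
  | succ m ih =>
    intro G _ _ _ Ψ h ε hε
    rw [Nat.cast_succ, contDiff_succ_iff_fderiv]
    refine ⟨fun y => (II_hasFDerivAt' h hε y).differentiableAt, by simp, ?_⟩
    rw [II_fderiv h hε]
    exact ih (h.zd hε) hε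

/-! ### Linearity -/

lemma II_congr {Ψ Ψ' : ℝ → Sp d → Sp d → G} (ε : ℝ) (h : ∀ r z x, 0 < r → Ψ r z x = Ψ' r z x)
    (y : Sp d) : II ε Ψ y = II ε Ψ' y := by
  unfold II
  refine setIntegral_congr_fun measurableSet_Q2 fun p hp => ?_
  have hp0 : 0 < p.1 := by
    have : (1 / 2 : ℝ) ≤ p.1 := hp.1.1
    linarith
  rw [h _ _ _ hp0]

lemma II_add {Ψ Ψ' : ℝ → Sp d → Sp d → G} {m m' : ℕ} (h : Reg m Ψ) (h' : Reg m' Ψ') (ε : ℝ)
    (y : Sp d) : II ε (fun r z x => Ψ r z x + Ψ' r z x) y = II ε Ψ y + II ε Ψ' y := by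
  unfold II
  rw [← integral_add (h.integrableOn ε y) (h'.integrableOn ε y)]
  exact integral_congr_ae (Eventually.of_forall fun p => smul_add _ _ _)

lemma II_smul {Ψ : ℝ → Sp d → Sp d → G} (c : ℝ) (ε : ℝ) (y : Sp d) :
    II ε (fun r z x => c • Ψ r z x) y = c • II ε Ψ y := by
  unfold II
  rw [← integral_smul]
  exact integral_congr_ae (Eventually.of_forall fun p => smul_comm _ _ _)

lemma II_clm {G' : Type*} [NormedAddCommGroup G'] [NormedSpace ℝ G'] [CompleteSpace G]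
    [CompleteSpace G'] (L : G →L[ℝ] G') {Ψ : ℝ → Sp d → Sp d → G} {m : ℕ} (h : Reg m Ψ) (ε : ℝ)
    (y : Sp d) : II ε (fun r z x => L (Ψ r z x)) y = L (II ε Ψ y) := by
  unfold II
  rw [← L.integral_comp_comm (h.integrableOn ε y)]
  simp only [map_smul]

lemma II_apply [CompleteSpace G] {Φ : ℝ → Sp d → Sp d → (Sp d →L[ℝ] G)} {m : ℕ} (h : Reg m Φ)
    (ε : ℝ) (y e : Sp d) : (II ε Φ y) e = II ε (fun r z x => Φ r z x e) y :=
  (II_clm (ContinuousLinearMap.apply ℝ G e) h ε y).symm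

lemma Reg.add {Ψ Ψ' : ℝ → Sp d → Sp d → G} {m : ℕ} (h : Reg m Ψ) (h' : Reg m Ψ') :
    Reg m (fun r z x => Ψ r z x + Ψ' r z x) :=
  ⟨h.smooth.add h'.smooth, fun r z x hz => by rw [h.supp r z x hz, h'.supp r z x hz, add_zero]⟩

lemma Reg.csmul {Ψ : ℝ → Sp d → Sp d → G} {m : ℕ} (h : Reg m Ψ) (c : ℝ) :
    Reg m (fun r z x => c • Ψ r z x) :=
  ⟨h.smooth.const_smul c, fun r z x hz => by rw [h.supp r z x hz, smul_zero]⟩

lemma Reg.clm {G' : Type*} [NormedAddCommGroup G'] [NormedSpace ℝ G'] (L : G →L[ℝ] G')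
    {Ψ : ℝ → Sp d → Sp d → G} {m : ℕ} (h : Reg m Ψ) : Reg m (fun r z x => L (Ψ r z x)) :=
  ⟨L.contDiff.comp_contDiffOn h.smooth, fun r z x hz => by rw [h.supp r z x hz, map_zero]⟩

lemma Reg.congr {Ψ Ψ' : ℝ → Sp d → Sp d → G} {m : ℕ} (h : Reg m Ψ)
    (he : ∀ r z x, 0 < r → Ψ' r z x = Ψ r z x) (hs : ∀ r z x, 1 < ‖z‖ → Ψ' r z x = 0) :
    Reg m Ψ' :=
  ⟨h.smooth.congr fun p hp => he p.1 p.2.1 p.2.2 hp, hs⟩

/-! ### Smooth functions of `(r, x)` -/

/-- the domain -/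
def Oh (d : ℕ) : Set (ℝ × Sp d) := {p | 0 < p.1}

lemma isOpen_Oh : IsOpen (Oh d) := isOpen_lt continuous_const continuous_fst

/-- smooth functions of `r > 0` and `x` -/
def SF (F : ℝ → Sp d → ℝ) : Prop := ContDiffOn ℝ ∞ (fun p : ℝ × Sp d => F p.1 p.2) (Oh d)

lemma SF.add {F F' : ℝ → Sp d → ℝ} (h : SF F) (h' : SF F') : SF fun r x => F r x + F' r x :=
  ContDiffOn.add h h'

lemma SF.mul {F F' : ℝ → Sp d → ℝ} (h : SF F) (h' : SF F') : SF fun r x => F r x * F' r x :=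
  ContDiffOn.mul h h'

lemma SF.neg {F : ℝ → Sp d → ℝ} (h : SF F) : SF fun r x => - F r x := ContDiffOn.neg h

lemma SF.div {F F' : ℝ → Sp d → ℝ} (h : SF F) (h' : SF F') (h0 : ∀ r x, 0 < r → F' r x ≠ 0) :
    SF fun r x => F r x / F' r x :=
  ContDiffOn.div h h' fun p hp => h0 p.1 p.2 hp

lemma SF.pow {F : ℝ → Sp d → ℝ} (h : SF F) (k : ℕ) : SF fun r x => F r x ^ k :=
  ContDiffOn.pow h k

lemma SF.const (c : ℝ) : SF fun (_ : ℝ) (_ : Sp d) => c := contDiffOn_const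

lemma SF.r : SF fun (r : ℝ) (_ : Sp d) => r := contDiffOn_fst

lemma SF.inv_r {ε : ℝ} (hε : 0 < ε) : SF fun (r : ℝ) (_ : Sp d) => -(1 / (ε * r)) :=
  ((SF.const 1).div ((SF.const ε).mul SF.r) fun r _ hr => by positivity).neg

lemma SF.congr {F F' : ℝ → Sp d → ℝ} (h : SF F) (he : ∀ r x, 0 < r → F' r x = F r x) : SF F' :=
  ContDiffOn.congr h fun p hp => he p.1 p.2 hp

lemma SF.contDiff {F : ℝ → Sp d → ℝ} (h : SF F) {r : ℝ} (hr : 0 < r) : ContDiff ℝ ∞ (F r) := by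
  have h1 : ContDiff ℝ ∞ fun x : Sp d => ((r, x) : ℝ × Sp d) := contDiff_const.prodMk contDiff_id
  have h2 : ContDiffOn ℝ ∞ (fun p : ℝ × Sp d => F p.1 p.2) (Oh d) := h
  exact h2.comp_contDiff h1 fun x => hr

lemma SF.diffAt {F : ℝ → Sp d → ℝ} (h : SF F) {p : ℝ × Sp d} (hp : 0 < p.1) :
    DifferentiableAt ℝ (fun p : ℝ × Sp d => F p.1 p.2) p :=
  (ContDiffOn.differentiableOn h (by simp)).differentiableAt (isOpen_Oh.mem_nhds hp)

/-- the directional derivative in `x` -/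
def pX (F : ℝ → Sp d → ℝ) (e : Sp d) (r : ℝ) (x : Sp d) : ℝ := fderiv ℝ (F r) x e

/-- the derivative in `r` -/
def pT (F : ℝ → Sp d → ℝ) (r : ℝ) (x : Sp d) : ℝ := deriv (fun s => F s x) r

lemma SF.hasX {F : ℝ → Sp d → ℝ} (h : SF F) {r : ℝ} (hr : 0 < r) (x : Sp d) :
    HasFDerivAt (F r) ((fderiv ℝ (fun p : ℝ × Sp d => F p.1 p.2) (r, x)).comp
      (ContinuousLinearMap.inr ℝ ℝ (Sp d))) x :=
  (h.diffAt (p := (r, x)) hr).hasFDerivAt.comp x (hasFDerivAt_prodMk_right r x)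

lemma SF.pX_eq {F : ℝ → Sp d → ℝ} (h : SF F) (e : Sp d) {r : ℝ} (hr : 0 < r) (x : Sp d) :
    pX F e r x = fderiv ℝ (fun p : ℝ × Sp d => F p.1 p.2) (r, x) (0, e) := by
  unfold pX
  rw [(h.hasX hr x).fderiv]
  simp

lemma SF.pT_eq {F : ℝ → Sp d → ℝ} (h : SF F) {r : ℝ} (hr : 0 < r) (x : Sp d) :
    pT F r x = fderiv ℝ (fun p : ℝ × Sp d => F p.1 p.2) (r, x) (1, 0) := by
  have h0 : HasFDerivAt (fun s : ℝ => ((s, x) : ℝ × Sp d)) (ContinuousLinearMap.inl ℝ ℝ (Sp d)) r :=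
    hasFDerivAt_prodMk_left r x
  have h2 := (h.diffAt (p := (r, x)) hr).hasFDerivAt
  have h1 : HasFDerivAt (fun s => F s x) ((fderiv ℝ (fun p : ℝ × Sp d => F p.1 p.2) (r, x)).comp
      (ContinuousLinearMap.inl ℝ ℝ (Sp d))) r :=
    HasFDerivAt.comp (g := fun p : ℝ × Sp d => F p.1 p.2) r h2 h0
  unfold pT
  rw [h1.hasDerivAt.deriv]
  simp

lemma SF.fder {F : ℝ → Sp d → ℝ} (h : SF F) (w : ℝ × Sp d) :
    ContDiffOn ℝ ∞ (fun p => fderiv ℝ (fun p : ℝ × Sp d => F p.1 p.2) p w) (Oh d) :=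
  (ContDiffOn.fderiv_of_isOpen h isOpen_Oh (by simp)).clm_apply contDiffOn_const

lemma SF.pX {F : ℝ → Sp d → ℝ} (h : SF F) (e : Sp d) : SF (pX F e) :=
  (h.fder (0, e)).congr fun p hp => h.pX_eq e hp p.2

lemma SF.pT {F : ℝ → Sp d → ℝ} (h : SF F) : SF (pT F) :=
  (h.fder (1, 0)).congr fun p hp => h.pT_eq hp p.2

lemma pX_comm {F : ℝ → Sp d → ℝ} (h : SF F) (e n : Sp d) {r : ℝ} (hr : 0 < r) (x : Sp d) :
    pX (pX F e) n r x = pX (pX F n) e r x := by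
  have h1 := h.contDiff hr
  have h2 : DifferentiableAt ℝ (fderiv ℝ (F r)) x :=
    ((h1.fderiv_right (m := 1) (by norm_cast)).differentiable (by simp)).differentiableAt
  have h3 : ∀ a b : Sp d, pX (pX F a) b r x = fderiv ℝ (fderiv ℝ (F r)) x b a := by
    intro a b
    have : HasFDerivAt (fun x' => fderiv ℝ (F r) x' a)
        ((ContinuousLinearMap.apply ℝ ℝ a).comp (fderiv ℝ (fderiv ℝ (F r)) x)) x :=
      (ContinuousLinearMap.apply ℝ ℝ a).hasFDerivAt.comp x h2.hasFDerivAt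
    unfold pX
    rw [this.fderiv]
    rfl
  rw [h3, h3]
  exact (h1.contDiffAt.isSymmSndFDerivAt (by
    rw [minSmoothness_of_isRCLikeNormedField]
    exact WithTop.coe_le_coe.2 le_top)) n e

end WBT

end

end TG
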