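import Pool.Agent.TG.WBTools

/-!
# Averages over scales and profiles: products and integration by parts (module WB)
-/

open MeasureTheory Metric Set TrI Filter Topology
open scoped InnerProductSpace ContDiff

namespace TG

noncomputable section

namespace WBT

variable {d : ℕ} {G : Type*} [NormedAddCommGroup G] [NormedSpace ℝ G]

/-- kernels -/
structure KC (m : ℕ) (K : Sp d → G) : Prop where
  smooth : ContDiff ℝ m K
  supp : ∀ z, 1 < ‖z‖ → K z = 0

lemma KC.mono {m n : ℕ} {K : Sp d → G} (h : KC n K) (hmn : m ≤ n) : KC m K :=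
  ⟨h.smooth.of_le (by exact_mod_cast hmn), h.supp⟩

lemma KC.diff {m : ℕ} {K : Sp d → G} (h : KC (m + 1) K) (z : Sp d) : DifferentiableAt ℝ K z :=
  (h.smooth.differentiable (by simp)).differentiableAt

lemma fderiv_supp {K : Sp d → G} (h : ∀ z, 1 < ‖z‖ → K z = 0) (z : Sp d) (hz : 1 < ‖z‖) :
    fderiv ℝ K z = 0 := by
  have h1 : K =ᶠ[𝓝 z] fun _ => 0 := by
    filter_upwards [(isOpen_lt continuous_const continuous_norm).mem_nhds hz] with z' hz'
    exact h z' hz'
  rw [h1.fderiv_eq]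
  simp

lemma KC.fderiv {m : ℕ} {K : Sp d → G} (h : KC (m + 1) K) : KC m (fderiv ℝ K) :=
  ⟨h.smooth.fderiv_right (by push_cast; exact le_rfl), fderiv_supp h.supp⟩

lemma KC.clm {G' : Type*} [NormedAddCommGroup G'] [NormedSpace ℝ G'] (L : G →L[ℝ] G') {m : ℕ}
    {K : Sp d → G} (h : KC m K) : KC m (fun z => L (K z)) :=
  ⟨L.contDiff.comp h.smooth, fun z hz => by rw [h.supp z hz, map_zero]⟩

lemma KC.dir {m : ℕ} {K : Sp d → G} (h : KC (m + 1) K) (e : Sp d) :
    KC m (fun z => _root_.fderiv ℝ K z e) :=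
  h.fderiv.clm (ContinuousLinearMap.apply ℝ G e)

lemma KC.smul {m : ℕ} {K : Sp d → G} (h : KC m K) {f : Sp d → ℝ} (hf : ContDiff ℝ m f) :
    KC m (fun z => f z • K z) :=
  ⟨hf.smul h.smooth, fun z hz => by rw [h.supp z hz, smul_zero]⟩

lemma KC.add {m : ℕ} {K K' : Sp d → G} (h : KC m K) (h' : KC m K') :
    KC m (fun z => K z + K' z) :=
  ⟨h.smooth.add h'.smooth, fun z hz => by rw [h.supp z hz, h'.supp z hz, add_zero]⟩

lemma KC.csmul {m : ℕ} {K : Sp d → G} (h : KC m K) (c : ℝ) : KC m (fun z => c • K z) :=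
  ⟨h.smooth.const_smul c, fun z hz => by rw [h.supp z hz, smul_zero]⟩

/-- products -/
def pr (F : ℝ → Sp d → ℝ) (K : Sp d → G) (r : ℝ) (z x : Sp d) : G := F r x • K z

lemma SF.lift {F : ℝ → Sp d → ℝ} (h : SF F) (m : ℕ) :
    ContDiffOn ℝ m (fun p : ℝ × Sp d × Sp d => F p.1 p.2.2) (Om d) := by
  have h1 : ContDiffOn ℝ ∞ (fun p : ℝ × Sp d => F p.1 p.2) (Oh d) := h
  have h2 : ContDiff ℝ m fun p : ℝ × Sp d × Sp d => ((p.1, p.2.2) : ℝ × Sp d) := by fun_prop
  exact (h1.of_le (by exact_mod_cast le_top)).comp h2.contDiffOn fun p hp => hp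

lemma KC.lift {m : ℕ} {K : Sp d → G} (h : KC m K) :
    ContDiffOn ℝ m (fun p : ℝ × Sp d × Sp d => K p.2.1) (Om d) := by
  have h2 : ContDiff ℝ m fun p : ℝ × Sp d × Sp d => p.2.1 := by fun_prop
  exact (h.smooth.comp h2).contDiffOn

lemma Reg.pr {F : ℝ → Sp d → ℝ} {K : Sp d → G} {m : ℕ} (hF : SF F) (hK : KC m K) :
    Reg m (pr F K) :=
  ⟨(hF.lift m).smul hK.lift, fun r z x hz => by rw [WBT.pr, hK.supp z hz, smul_zero]⟩

lemma zd_pr {F : ℝ → Sp d → ℝ} {K : Sp d → G} {m : ℕ} (hK : KC (m + 1) K) (ε : ℝ) :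
    zd ε (pr F K) = pr (fun r x => -(1 / (ε * r)) * F r x) (_root_.fderiv ℝ K) := by
  funext r z x
  have h1 : dZ (WBT.pr F K) r z x = F r x • _root_.fderiv ℝ K z := by
    unfold dZ
    exact ((hK.diff z).hasFDerivAt.const_smul (F r x)).fderiv
  rw [zd, h1, pr, smul_smul]

/-- fderiv of the average of a product -/
lemma II_pr_fderiv [CompleteSpace G] {F : ℝ → Sp d → ℝ} {K : Sp d → G} {m : ℕ} (hF : SF F)
    (hK : KC (m + 1) K) {ε : ℝ} (hε : 0 < ε) : fderiv ℝ (II ε (pr F K))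
      = II ε (pr (fun r x => -(1 / (ε * r)) * F r x) (_root_.fderiv ℝ K)) := by
  rw [II_fderiv (Reg.pr hF hK) hε, zd_pr hK]

lemma dX_pr {F : ℝ → Sp d → ℝ} {K : Sp d → G} (hF : SF F) {r : ℝ} (hr : 0 < r) (z x e : Sp d) :
    dX (pr F K) r z x e = pX F e r x • K z := by
  have h1 : HasFDerivAt (fun x' => F r x' • K z) ((_root_.fderiv ℝ (F r) x).smulRight (K z)) x :=
    ((hF.contDiff hr).differentiable (by simp)).differentiableAt.hasFDerivAt.smul_const (K z)
  unfold dX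
  have h2 : (fun x' => WBT.pr F K r z x') = fun x' => F r x' • K z := rfl
  rw [h2, h1.fderiv]
  rfl

/-- integration by parts -/
lemma II_ibp [CompleteSpace G] {F : ℝ → Sp d → ℝ} {K : Sp d → G} {m : ℕ} (hF : SF F)
    (hK : KC (m + 1) K) {ε : ℝ} (hε : 0 < ε) (e y : Sp d) :
    II ε (pr (pX F e) K) y
      = II ε (pr (fun r x => -(1 / (ε * r)) * F r x) (fun z => _root_.fderiv ℝ K z e)) y := by
  have hR := Reg.pr hF hK
  have h1 : (II ε (dX (pr F K)) y) e = (II ε (zd ε (pr F K)) y) e := by rw [II_dX hR hε]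
  rw [II_apply hR.dX, II_apply (hR.zd hε), zd_pr hK] at h1
  have h2 : II ε (pr (pX F e) K) y = II ε (fun r z x => (dX (pr F K) r z x) e) y :=
    II_congr ε (fun r z x hr => (dX_pr hF hr z x e).symm) y
  rw [h2]
  exact h1

/-- exchange of two directions -/
lemma II_swap [CompleteSpace G] {F : ℝ → Sp d → ℝ} {ρ : ℝ → Sp d → ℝ} {K : Sp d → G} {m : ℕ}
    (hF : SF F) (hρ : SF ρ) (hρx : ∀ r x x', ρ r x = ρ r x') (hK : KC (m + 1) K) {ε : ℝ}
    (hε : 0 < ε) (e n y : Sp d) :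
    II ε (pr (fun r x => ρ r x * pX F n r x) (fun z => _root_.fderiv ℝ K z e)) y
      = II ε (pr (fun r x => ρ r x * pX F e r x) (fun z => _root_.fderiv ℝ K z n)) y := by
  set W : ℝ → Sp d → ℝ := fun r x => -(ε * r) * ρ r x with hW
  have hWs : SF W := (((SF.const ε).mul SF.r).neg).mul hρ
  have key : ∀ a b : Sp d, II ε (pr (fun r x => ρ r x * pX F b r x)
      (fun z => _root_.fderiv ℝ K z a)) y
      = II ε (pr (fun r x => W r x * pX (pX F b) a r x) K) y := by
    intro a b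
    have h1 := II_ibp (hWs.mul (hF.pX b)) hK hε a y
    have e1 : II ε (pr (pX (fun r x => W r x * pX F b r x) a) K) y
        = II ε (pr (fun r x => W r x * pX (pX F b) a r x) K) y := by
      refine II_congr ε (fun r z x hr => ?_) y
      unfold pr
      congr 1
      have h2 : (fun x' => W r x' * pX F b r x') = fun x' => W r x * pX F b r x' := by
        funext x'
        rw [hW]
        simp only
        rw [hρx r x' x]
      have h3 : HasFDerivAt (fun x' => W r x * pX F b r x')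
          (W r x • _root_.fderiv ℝ (pX F b r) x) x :=
        (((hF.pX b).contDiff hr).differentiable (by simp)).differentiableAt.hasFDerivAt.const_mul _
      show _root_.fderiv ℝ (fun x' => W r x' * pX F b r x') x a = _
      rw [h2, h3.fderiv]
      rfl
    rw [← e1, h1]
    refine II_congr ε (fun r z x hr => ?_) y
    unfold pr
    congr 1
    rw [hW]
    field_simp
  rw [key e n, key n e]
  refine II_congr ε (fun r z x hr => ?_) y
  show (W r x * pX (pX F n) e r x) • K z = (W r x * pX (pX F e) n r x) • K z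
  rw [pX_comm hF n e hr]

/-! ### Averages with the ray derivative -/

/-- `(A + ε z_n B) K` -/
def dp (A B : ℝ → Sp d → ℝ) (n : Sp d) (ε : ℝ) (K : Sp d → G) (r : ℝ) (z x : Sp d) : G :=
  (A r x + ε * ⟪n, z⟫_ℝ * B r x) • K z

/-- `K ⊗ n` -/
def tens (n : Sp d) (K : Sp d → G) (z : Sp d) : Sp d →L[ℝ] G :=
  (innerSL ℝ n).smulRight (K z)

lemma Reg.dp {A B : ℝ → Sp d → ℝ} {K : Sp d → G} {m : ℕ} (hA : SF A) (hB : SF B)
    (hK : KC m K) (n : Sp d) (ε : ℝ) : Reg m (dp A B n ε K) := by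
  refine ⟨?_, fun r z x hz => by rw [WBT.dp, hK.supp z hz, smul_zero]⟩
  have h1 : ContDiffOn ℝ m (fun p : ℝ × Sp d × Sp d => ε * ⟪n, p.2.1⟫_ℝ) (Om d) := by
    have : ContDiff ℝ m fun p : ℝ × Sp d × Sp d => ε * ⟪n, p.2.1⟫_ℝ :=
      contDiff_const.mul (((innerSL ℝ n).contDiff).comp (contDiff_fst.comp contDiff_snd))
    exact this.contDiffOn
  exact ((hA.lift m).add (h1.mul (hB.lift m))).smul hK.lift

lemma KC.tens {m : ℕ} {K : Sp d → G} (h : KC m K) (n : Sp d) : KC m (tens n K) :=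
  h.clm ((ContinuousLinearMap.smulRightL ℝ (Sp d) G) (innerSL ℝ n))

lemma zd_dp {A B : ℝ → Sp d → ℝ} {K : Sp d → G} {m : ℕ} (hK : KC (m + 1) K) (n : Sp d)
    {ε : ℝ} (hε : 0 < ε) {r : ℝ} (hr : 0 < r) (z x : Sp d) :
    zd ε (dp A B n ε K) r z x = dp (fun r x => -(1 / (ε * r)) * A r x)
      (fun r x => -(1 / (ε * r)) * B r x) n ε (_root_.fderiv ℝ K) r z x
      + pr (fun r x => -(1 / r) * B r x) (tens n K) r z x := by
  have h1 : HasFDerivAt (fun z' : Sp d => A r x + ε * ⟪n, z'⟫_ℝ * B r x)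
      ((ε * B r x) • innerSL ℝ n) z := by
    have h2 : HasFDerivAt (fun z' : Sp d => ⟪n, z'⟫_ℝ) (innerSL ℝ n) z :=
      (innerSL ℝ n).hasFDerivAt
    have h3 := ((h2.const_mul ε).mul_const (B r x)).const_add (A r x)
    refine h3.congr_fderiv ?_
    ext v
    simp
    ring
  have h4 : dZ (WBT.dp A B n ε K) r z x = (A r x + ε * ⟪n, z⟫_ℝ * B r x) • _root_.fderiv ℝ K z
      + ((ε * B r x) • innerSL ℝ n).smulRight (K z) := by
    unfold dZ
    exact (h1.smul (hK.diff z).hasFDerivAt).fderiv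
  rw [zd, h4]
  unfold dp pr tens
  ext v
  simp only [smul_apply, add_apply,
    ContinuousLinearMap.smulRight_apply, innerSL_apply_apply, smul_add, smul_smul, smul_eq_mul]
  congr 2
  · ring
  · field_simp

end WBT

end

end TG
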