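import Pool.Agent.TG.WBA
import Pool.Agent.TG.WA

/-!
# Differences of the potential at reflected points (module WB, part (b))
-/

open MeasureTheory Metric Set TrI Filter Topology
open scoped InnerProductSpace ContDiff

namespace TG

noncomputable section

namespace WBT

variable {d : ℕ}

/-! ### kernel differences -/

lemma inv_pow_diff {s s' m : ℝ} (hm : 0 < m) (hs : m ≤ s) (hs' : m ≤ s') (k : ℕ) :
    |1 / s ^ k - 1 / s' ^ k| ≤ k * |s ^ 2 - s' ^ 2| / m ^ (k + 2) := by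
  have hs0 : 0 < s := hm.trans_le hs
  have hs0' : 0 < s' := hm.trans_le hs'
  rcases Nat.eq_zero_or_pos k with h0 | h0
  · subst h0
    simp
  obtain ⟨l, rfl⟩ : ∃ l, k = l + 1 := ⟨k - 1, by omega⟩
  have h1 := abs_pow_sub_pow_le (1 / s) (1 / s') (l + 1)
  rw [one_div_pow, one_div_pow] at h1
  have h2 : max |1 / s| |1 / s'| ≤ 1 / m := by
    rw [abs_of_pos (by positivity), abs_of_pos (by positivity)]
    exact max_le (one_div_le_one_div_of_le hm hs) (one_div_le_one_div_of_le hm hs')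
  have h3 : max |1 / s| |1 / s'| ^ (l + 1 - 1) ≤ (1 / m) ^ l := by
    rw [Nat.add_sub_cancel]
    exact pow_le_pow_left₀ (le_max_of_le_left (abs_nonneg _)) h2 l
  have h4 : |1 / s - 1 / s'| ≤ |s ^ 2 - s' ^ 2| / m ^ 3 := by
    have e1 : 1 / s - 1 / s' = -(s ^ 2 - s' ^ 2) / (s * s' * (s + s')) := by
      field_simp
      ring
    rw [e1, abs_div, abs_neg, abs_of_pos (a := s * s' * (s + s')) (by positivity)]
    refine div_le_div_of_nonneg_left (abs_nonneg _) (by positivity) ?_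
    have h5 : m * m ≤ s * s' := mul_le_mul hs hs' hm.le hs0.le
    have h6 : m ≤ s + s' := by linarith
    calc m ^ 3 = m * m * m := by ring
      _ ≤ s * s' * (s + s') := mul_le_mul h5 h6 hm.le (by positivity)
  calc |1 / s ^ (l + 1) - 1 / s' ^ (l + 1)|
      ≤ |1 / s - 1 / s'| * ((l + 1 : ℕ) : ℝ) * max |1 / s| |1 / s'| ^ (l + 1 - 1) := h1
    _ ≤ (|s ^ 2 - s' ^ 2| / m ^ 3) * ((l + 1 : ℕ) : ℝ) * (1 / m) ^ l := by
        gcongr
    _ = _ := by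
        rw [one_div_pow]
        field_simp
        ring

/-- the time derivative of the kernel -/
def kt (t : ℝ) (a : Sp d) : ℝ :=
  1 / Real.sqrt (t ^ 2 + ‖a‖ ^ 2) ^ d - d * t ^ 2 * (1 / Real.sqrt (t ^ 2 + ‖a‖ ^ 2) ^ (d + 2))

lemma hasDerivAt_kk {t : ℝ} (ht : 0 < t) (a : Sp d) :
    HasDerivAt (fun t => kk t a) (kt t a) t := by
  have hp : 0 < t ^ 2 + ‖a‖ ^ 2 := by positivity
  have hs : 0 < Real.sqrt (t ^ 2 + ‖a‖ ^ 2) := Real.sqrt_pos.2 hp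
  have h1 : HasDerivAt (fun t : ℝ => t ^ 2 + ‖a‖ ^ 2) (2 * t) t := by
    simpa using ((hasDerivAt_id t).pow 2).add_const (‖a‖ ^ 2)
  have h2 := h1.sqrt hp.ne'
  have h3 := (hasDerivAt_id t).div (h2.pow d) (pow_ne_zero d hs.ne')
  refine h3.congr_deriv ?_
  unfold kt
  rcases Nat.eq_zero_or_pos d with h0 | h0
  · subst h0
    simp
  obtain ⟨l, rfl⟩ : ∃ l, d = l + 1 := ⟨d - 1, by omega⟩
  simp only [id, Pi.pow_apply, Nat.add_sub_cancel]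
  field_simp
  ring

/-- the constant -/
def cK (d : ℕ) : ℝ := 64 * 16 ^ (d + 2) * (d * (1 + 16384 * (d + 2)))

lemma cK_nonneg : 0 ≤ cK d := by
  unfold cK
  positivity

/-- the dominating function -/
def ZZ (n : Sp d) (r : ℝ) (w : Sp d) : ℝ := |⟪w, n⟫_ℝ| / (r ^ 2 + ‖w‖ ^ 2) * kk r w

lemma ZZ_nonneg (n : Sp d) {r : ℝ} (hr : 0 < r) (w : Sp d) : 0 ≤ ZZ n r w := by
  unfold ZZ
  have := kk_nonneg hr.le w
  positivity

lemma ker_bd {n : Sp d} {r t : ℝ} (hr : 1 / 2 ≤ r) (hr2 : r ≤ 2) (ht : 1 / 4 ≤ t) (ht2 : t ≤ 4)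
    {w a a' : Sp d} (ha : ‖a - w‖ ≤ 2) (ha' : ‖a' - w‖ ≤ 2)
    (haa : |‖a‖ ^ 2 - ‖a'‖ ^ 2| ≤ 8 * |⟪w, n⟫_ℝ|) :
    |kk t a - kk t a'| ≤ cK d * ZZ n r w ∧ |kt t a - kt t a'| ≤ cK d * ZZ n r w := by
  have hr0 : 0 < r := by linarith
  have ht0 : 0 < t := by linarith
  set R := Real.sqrt (r ^ 2 + ‖w‖ ^ 2) with hR
  have hRp : 0 < r ^ 2 + ‖w‖ ^ 2 := by positivity
  have hR0 : 0 < R := Real.sqrt_pos.2 hRp
  have hR2 : R ^ 2 = r ^ 2 + ‖w‖ ^ 2 := Real.sq_sqrt hRp.le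
  have hRr : 1 / 2 ≤ R := Real.le_sqrt_of_sq_le (by nlinarith [sq_nonneg ‖w‖])
  set H := |⟪w, n⟫_ℝ| with hH
  have hH0 : 0 ≤ H := abs_nonneg _
  have low : ∀ b : Sp d, ‖b - w‖ ≤ 2 → R / 16 ≤ Real.sqrt (t ^ 2 + ‖b‖ ^ 2) := by
    intro b hb
    refine Real.le_sqrt_of_sq_le ?_
    rw [div_pow, hR2]
    have h1 : ‖w‖ ≤ ‖b‖ + 2 := by
      have := norm_sub_norm_le w b
      rw [norm_sub_rev] at this
      linarith
    have h2 : ‖w‖ ^ 2 ≤ (‖b‖ + 2) ^ 2 := pow_le_pow_left₀ (norm_nonneg _) h1 2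
    nlinarith [sq_nonneg (‖b‖ - 2), sq_nonneg ‖b‖]
  have l1 := low a ha
  have l2 := low a' ha'
  have hm : 0 < R / 16 := by positivity
  have sq1 : ∀ b : Sp d, Real.sqrt (t ^ 2 + ‖b‖ ^ 2) ^ 2 = t ^ 2 + ‖b‖ ^ 2 := fun b =>
    Real.sq_sqrt (by positivity)
  have hq : |Real.sqrt (t ^ 2 + ‖a‖ ^ 2) ^ 2 - Real.sqrt (t ^ 2 + ‖a'‖ ^ 2) ^ 2| ≤ 8 * H := by
    rw [sq1, sq1]
    simpa using haa
  have d1 := inv_pow_diff hm l1 l2 d
  have d2 := inv_pow_diff hm l1 l2 (d + 2)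
  set p := 1 / Real.sqrt (t ^ 2 + ‖a‖ ^ 2) ^ d - 1 / Real.sqrt (t ^ 2 + ‖a'‖ ^ 2) ^ d with hp
  set q := 1 / Real.sqrt (t ^ 2 + ‖a‖ ^ 2) ^ (d + 2) - 1 / Real.sqrt (t ^ 2 + ‖a'‖ ^ 2) ^ (d + 2)
    with hqd
  have hd0 : (0 : ℝ) ≤ d := Nat.cast_nonneg d
  -- the common factor
  set Y := H / R ^ (d + 2) with hY
  have hY0 : 0 ≤ Y := by positivity
  have b1 : |p| ≤ d * 8 * 16 ^ (d + 2) * Y := by
    refine d1.trans ?_
    rw [div_pow, hY]
    calc (d : ℝ) * |Real.sqrt (t ^ 2 + ‖a‖ ^ 2) ^ 2 - Real.sqrt (t ^ 2 + ‖a'‖ ^ 2) ^ 2|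
          / (R ^ (d + 2) / 16 ^ (d + 2))
        ≤ d * (8 * H) / (R ^ (d + 2) / 16 ^ (d + 2)) := by gcongr
      _ = _ := by
          field_simp
  have b2 : |q| ≤ (d + 2) * 8 * 1024 * 16 ^ (d + 2) * Y := by
    refine d2.trans ?_
    have e1 : (R / 16) ^ (d + 2 + 2) = (R / 16) ^ (d + 2) * (R / 16) ^ 2 := by rw [pow_add]
    have e2 : (1 : ℝ) / 1024 ≤ (R / 16) ^ 2 := by
      nlinarith
    rw [e1, hY]
    push_cast
    calc ((d : ℝ) + 2) * |Real.sqrt (t ^ 2 + ‖a‖ ^ 2) ^ 2 - Real.sqrt (t ^ 2 + ‖a'‖ ^ 2) ^ 2|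
          / ((R / 16) ^ (d + 2) * (R / 16) ^ 2)
        ≤ (d + 2) * (8 * H) / ((R / 16) ^ (d + 2) * (1 / 1024)) := by gcongr
      _ = _ := by
          rw [div_pow]
          field_simp
  -- the dominating function
  have eZ : Y ≤ 2 * ZZ n r w := by
    unfold ZZ kk
    rw [← hR, ← hR2, ← hH]
    have e3 : H / R ^ 2 * (r / R ^ d) = r * Y := by
      rw [hY, pow_add]
      field_simp
    rw [e3]
    nlinarith
  have hZ0 : 0 ≤ ZZ n r w := ZZ_nonneg n hr0 w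
  have hc : (0 : ℝ) ≤ 16 ^ (d + 2) := by positivity
  have ek : ∀ b : Sp d, kk t b = t * (1 / Real.sqrt (t ^ 2 + ‖b‖ ^ 2) ^ d) := by
    intro b
    unfold kk
    ring
  constructor
  · have e4 : kk t a - kk t a' = t * p := by
      rw [ek, ek, hp]
      ring
    rw [e4, abs_mul, abs_of_pos ht0]
    calc t * |p| ≤ 4 * (d * 8 * 16 ^ (d + 2) * Y) := by gcongr
      _ ≤ 4 * (d * 8 * 16 ^ (d + 2) * (2 * ZZ n r w)) := by gcongr
      _ = 64 * 16 ^ (d + 2) * (d * 1) * ZZ n r w := by ring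
      _ ≤ cK d * ZZ n r w := by
          unfold cK
          have : (1 : ℝ) ≤ 1 + 16384 * (d + 2) := by nlinarith
          gcongr
  · have e4 : kt t a - kt t a' = p - d * t ^ 2 * q := by
      unfold kt
      rw [hp, hqd]
      ring
    rw [e4]
    have ht16 : t ^ 2 ≤ 16 := by nlinarith
    calc |p - d * t ^ 2 * q| ≤ |p| + |d * t ^ 2 * q| := abs_sub _ _
      _ = |p| + d * t ^ 2 * |q| := by
          rw [abs_mul (d * t ^ 2) q, abs_of_nonneg (a := d * t ^ 2) (by positivity)]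
      _ ≤ d * 8 * 16 ^ (d + 2) * Y + d * 16 * ((d + 2) * 8 * 1024 * 16 ^ (d + 2) * Y) := by
          gcongr
      _ = 8 * 16 ^ (d + 2) * (d * (1 + 16384 * (d + 2))) * Y := by ring
      _ ≤ 8 * 16 ^ (d + 2) * (d * (1 + 16384 * (d + 2))) * (2 * ZZ n r w) := by gcongr
      _ ≤ cK d * ZZ n r w := by
          unfold cK
          have h9 : 0 ≤ 16 ^ (d + 2) * (d * (1 + 16384 * ((d : ℝ) + 2))) * ZZ n r w := by
            positivity
          nlinarith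

/-- the time difference of the kernel differences -/
lemma ker_time {n : Sp d} {r t : ℝ} (hr : 1 / 2 ≤ r) (hr2 : r ≤ 2) (ht : 1 / 4 ≤ t) (ht2 : t ≤ 4)
    {w a a' : Sp d} (ha : ‖a - w‖ ≤ 2) (ha' : ‖a' - w‖ ≤ 2)
    (haa : |‖a‖ ^ 2 - ‖a'‖ ^ 2| ≤ 8 * |⟪w, n⟫_ℝ|) :
    |(kk t a - kk t a') - (kk r a - kk r a')| ≤ cK d * ZZ n r w * |t - r| := by
  have h1 := Convex.norm_image_sub_le_of_norm_hasDerivWithin_le
    (f := fun t => kk t a - kk t a') (f' := fun t => kt t a - kt t a')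
    (s := Icc (1 / 4 : ℝ) 4) (x := r) (y := t) (C := cK d * ZZ n r w)
    (fun s hs => ((hasDerivAt_kk (by have := hs.1; linarith) a).sub
      (hasDerivAt_kk (by have := hs.1; linarith) a')).hasDerivWithinAt)
    (fun s hs => (ker_bd hr hr2 hs.1 hs.2 ha ha' haa).2) (convex_Icc _ _)
    ⟨by linarith, by linarith⟩ ⟨ht, ht2⟩
  simpa using h1

/-! ### the potential -/

/-- the reflection -/
def Rf (n : Sp d) : Sp d ≃ₗᵢ[ℝ] Sp d := ((Submodule.span ℝ {n})ᗮ).reflection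

lemma Rf_apply {n : Sp d} (hn : ‖n‖ = 1) (z : Sp d) : Rf n z = z - (2 * ⟪n, z⟫_ℝ) • n := by
  unfold Rf
  rw [Submodule.reflection_orthogonal_apply, Submodule.reflection_singleton_apply, hn]
  simp only [two_smul, RCLike.ofReal_one, one_pow, div_one]
  module

lemma norm_diff {n : Sp d} (hn : ‖n‖ = 1) (w z : Sp d) (s : ℝ) :
    ‖w + s • z‖ ^ 2 - ‖w + s • Rf n z‖ ^ 2 = 4 * s * ⟪n, z⟫_ℝ * ⟪w, n⟫_ℝ := by
  rw [norm_add_sq_real, norm_add_sq_real, norm_smul, norm_smul, (Rf n).norm_map,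
    real_inner_smul_right, real_inner_smul_right, Rf_apply hn, inner_sub_right,
    real_inner_smul_right]
  ring

/-- X2 numerator integrand -/
def qq (n : Sp d) (r : ℝ) (w : Sp d) : ℝ := ⟪w, n⟫_ℝ ^ 2 / (r ^ 2 + ‖w‖ ^ 2) ^ 2 * kk r w

lemma qq_cont (n : Sp d) {r : ℝ} (hr : 0 < r) : Continuous (qq n r) := by
  unfold qq
  refine (Continuous.div (by fun_prop) (by fun_prop) fun w => ?_).mul (kk_cont hr)
  positivity

lemma ZZ_cont (n : Sp d) {r : ℝ} (hr : 0 < r) : Continuous (ZZ n r) := by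
  unfold ZZ
  refine (Continuous.div (by fun_prop) (by fun_prop) fun w => ?_).mul (kk_cont hr)
  positivity

/-- 2 Z ≤ l k + q / l -/
lemma ZZ_le {n : Sp d} {r l : ℝ} (hr : 0 < r) (hl : 0 < l) (w : Sp d) :
    2 * ZZ n r w ≤ l * kk r w + qq n r w / l := by
  unfold ZZ qq
  have hk := kk_nonneg hr.le w
  set u := |⟪w, n⟫_ℝ| / (r ^ 2 + ‖w‖ ^ 2) with hu
  have e1 : ⟪w, n⟫_ℝ ^ 2 / (r ^ 2 + ‖w‖ ^ 2) ^ 2 = u ^ 2 := by
    rw [hu, div_pow, sq_abs]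
  rw [e1]
  have h1 : 2 * u ≤ l + u ^ 2 / l := by
    have : 0 ≤ (u - l) ^ 2 / l := by positivity
    have e2 : (u - l) ^ 2 / l = u ^ 2 / l - 2 * u + l := by
      field_simp
      ring
    linarith
  have h2 := mul_le_mul_of_nonneg_right h1 hk
  have e3 : (l + u ^ 2 / l) * kk r w = l * kk r w + u ^ 2 * kk r w / l := by
    field_simp
  rw [e3] at h2
  linarith

lemma qq_nonneg (n : Sp d) {r : ℝ} (hr : 0 < r) (w : Sp d) : 0 ≤ qq n r w := by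
  unfold qq
  have := kk_nonneg hr.le w
  positivity

lemma qq_le {n : Sp d} (hn : ‖n‖ = 1) {r : ℝ} (hr : 1 / 2 ≤ r) (w : Sp d) :
    qq n r w ≤ 4 * kk r w := by
  unfold qq
  have hr0 : 0 < r := by linarith
  have hk := kk_nonneg hr0.le w
  refine mul_le_mul_of_nonneg_right ?_ hk
  rw [div_le_iff₀ (by positivity)]
  have h1 : ⟪w, n⟫_ℝ ^ 2 ≤ ‖w‖ ^ 2 := by
    have := abs_real_inner_le_norm w n
    rw [hn, mul_one] at this
    rw [← sq_abs]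
    exact pow_le_pow_left₀ (abs_nonneg _) this 2
  have h2 : (1 : ℝ) / 4 ≤ r ^ 2 := by nlinarith
  have h3 : 0 ≤ ‖w‖ ^ 2 := sq_nonneg _
  have h4 : 0 ≤ (r ^ 2 - 1 / 4) * ‖w‖ ^ 2 := mul_nonneg (by linarith) h3
  nlinarith [sq_nonneg (r ^ 2), sq_nonneg (‖w‖ ^ 2)]

end WBT

end

end TG
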