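import Pool.Agent.TG.WBb1

/-!
# Differences of the potential at reflected points, continued (module WB, part (b))
-/

open MeasureTheory Metric Set TrI Filter Topology
open scoped InnerProductSpace ContDiff

namespace TG

noncomputable section

namespace WBT

variable {d : ℕ}

lemma SF.hasT {F : ℝ → Sp d → ℝ} (h : SF F) {r : ℝ} (hr : 0 < r) (x : Sp d) :
    HasDerivAt (fun s => F s x) (WBT.pT F r x) r := by
  have h0 : HasFDerivAt (fun s : ℝ => ((s, x) : ℝ × Sp d)) (ContinuousLinearMap.inl ℝ ℝ (Sp d)) r :=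
    hasFDerivAt_prodMk_left r x
  have h2 := (h.diffAt (p := (r, x)) hr).hasFDerivAt
  have h1 : HasFDerivAt (fun s => F s x) ((fderiv ℝ (fun p : ℝ × Sp d => F p.1 p.2) (r, x)).comp
      (ContinuousLinearMap.inl ℝ ℝ (Sp d))) r :=
    HasFDerivAt.comp (g := fun p : ℝ × Sp d => F p.1 p.2) r h2 h0
  exact h1.differentiableAt.hasDerivAt

lemma int_kk {C' : ℝ} {μ : Measure (Sp d)} (hμ : Gro C' μ) {t : ℝ} (ht : 1 / 4 < t) (ht2 : t < 4)
    (x : Sp d) : Integrable (fun η => kk t (x - η)) μ := by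
  have := hμ.fin
  exact kk_int (p := (t, x)) ⟨ht, ht2⟩

lemma int_qq {C' : ℝ} {μ : Measure (Sp d)} (hμ : Gro C' μ) {n : Sp d} (hn : ‖n‖ = 1) {r : ℝ}
    (hr : 1 / 2 ≤ r) (hr2 : r ≤ 2) (y : Sp d) : Integrable (fun η => qq n r (y - η)) μ := by
  have hr0 : 0 < r := by linarith
  refine ((int_kk hμ (by linarith) (by linarith : r < 4) y).const_mul 4).mono'
    ((qq_cont n hr0).comp (by fun_prop : Continuous fun η : Sp d => y - η)).aestronglyMeasurable
    (Eventually.of_forall fun η => ?_)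
  rw [Real.norm_eq_abs, abs_of_nonneg (qq_nonneg n hr0 _)]
  exact qq_le hn hr _

lemma int_ZZ {C' : ℝ} {μ : Measure (Sp d)} (hμ : Gro C' μ) {n : Sp d} (hn : ‖n‖ = 1) {r : ℝ}
    (hr : 1 / 2 ≤ r) (hr2 : r ≤ 2) (y : Sp d) : Integrable (fun η => ZZ n r (y - η)) μ := by
  have hr0 : 0 < r := by linarith
  have h1 := int_kk hμ (by linarith) (by linarith : r < 4) y
  have h2 := int_qq hμ hn hr hr2 y
  refine (h1.add h2).mono'
    ((ZZ_cont n hr0).comp (by fun_prop : Continuous fun η : Sp d => y - η)).aestronglyMeasurable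
    (Eventually.of_forall fun η => ?_)
  rw [Real.norm_eq_abs, abs_of_nonneg (ZZ_nonneg n hr0 _)]
  have h3 := ZZ_le (n := n) hr0 one_pos (y - η)
  have h4 := ZZ_nonneg n hr0 (y - η)
  simp only [one_mul, div_one] at h3
  show ZZ n r (y - η) ≤ kk r (y - η) + qq n r (y - η)
  linarith

/-- the integral of the dominating function -/
def XX0 (μ : Measure (Sp d)) (n : Sp d) (r : ℝ) (y : Sp d) : ℝ := ∫ η, ZZ n r (y - η) ∂μ

lemma XX0_nonneg (μ : Measure (Sp d)) (n : Sp d) {r : ℝ} (hr : 0 < r) (y : Sp d) :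
    0 ≤ XX0 μ n r y := integral_nonneg fun _ => ZZ_nonneg n hr _

lemma XX0_sq {C C' : ℝ} {μ : Measure (Sp d)} (hV : VOK C (vv μ)) (hμ : Gro C' μ) {n : Sp d}
    (hn : ‖n‖ = 1) {r : ℝ} (hr : 1 / 2 ≤ r) (hr2 : r ≤ 2) (y : Sp d) :
    XX0 μ n r y ^ 2 ≤ vv μ r y ^ 3 * X2 μ n r y := by
  have hr0 : 0 < r := by linarith
  have i1 := int_kk hμ (by linarith) (by linarith : r < 4) y
  have i2 := int_qq hμ hn hr hr2 y
  have hv := hV.pos r y hr0
  have hth : (∫ η, kk r (y - η) ∂μ) = vv μ r y ^ 2 := by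
    unfold vv
    rw [Real.sq_sqrt]
    · rfl
    · exact integral_nonneg fun _ => kk_nonneg hr0.le _
  have hq : (∫ η, qq n r (y - η) ∂μ) = vv μ r y * X2 μ n r y := by
    unfold X2
    rw [mul_div_cancel₀ _ hv.ne']
    refine integral_congr_ae (Eventually.of_forall fun η => ?_)
    simp only
    unfold qq
    have e1 : ⟪y - η, n⟫_ℝ ^ 2 = ⟪η - y, n⟫_ℝ ^ 2 := by
      rw [← neg_sub η y, inner_neg_left, neg_sq]
    rw [e1]
  have h1 := sq_le_of_forall (X := XX0 μ n r y) (A := vv μ r y ^ 2)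
    (B := vv μ r y * X2 μ n r y) (XX0_nonneg μ n hr0 y) (sq_nonneg _)
    (mul_nonneg hv.le (X2_nonneg μ n hr0.le y)) (fun l hl => by
      rw [← hth, ← hq]
      unfold XX0
      rw [← integral_const_mul, ← integral_const_mul, ← integral_div, ← integral_add
        (i1.const_mul l) (i2.div_const l)]
      exact integral_mono ((int_ZZ hμ hn hr hr2 y).const_mul 2)
        ((i1.const_mul l).add (i2.div_const l)) fun η => ZZ_le hr0 hl _)
  calc _ ≤ _ := h1
    _ = _ := by ring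

/-- the geometry of reflected points -/
lemma refl_geo {n : Sp d} (hn : ‖n‖ = 1) {ε r : ℝ} (hε : 0 < ε) (hε1 : ε ≤ 1) (hr : 1 / 2 ≤ r)
    (hr2 : r ≤ 2) {z : Sp d} (hz : ‖z‖ ≤ 1) (y η : Sp d) :
    ‖(y + (ε * r) • z - η) - (y - η)‖ ≤ 2 ∧ ‖(y + (ε * r) • Rf n z - η) - (y - η)‖ ≤ 2 ∧
    |‖y + (ε * r) • z - η‖ ^ 2 - ‖y + (ε * r) • Rf n z - η‖ ^ 2| ≤ 8 * |⟪y - η, n⟫_ℝ| := by
  have hs : 0 < ε * r := by positivity
  have hs2 : ε * r ≤ 2 := by nlinarith
  have e1 : (y + (ε * r) • z - η) - (y - η) = (ε * r) • z := by abel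
  have e2 : (y + (ε * r) • Rf n z - η) - (y - η) = (ε * r) • Rf n z := by abel
  rw [e1, e2, norm_smul, norm_smul, (Rf n).norm_map, Real.norm_eq_abs, abs_of_pos hs]
  have h1 : ε * r * ‖z‖ ≤ 2 := by nlinarith [norm_nonneg z]
  refine ⟨h1, h1, ?_⟩
  have e3 : y + (ε * r) • z - η = (y - η) + (ε * r) • z := by abel
  have e4 : y + (ε * r) • Rf n z - η = (y - η) + (ε * r) • Rf n z := by abel
  rw [e3, e4, norm_diff hn, abs_mul]
  refine mul_le_mul_of_nonneg_right ?_ (abs_nonneg _)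
  rw [abs_mul, abs_of_pos (by positivity)]
  have h2 : |⟪n, z⟫_ℝ| ≤ 1 := by
    have := abs_real_inner_le_norm n z
    rw [hn, one_mul] at this
    linarith
  have h3 := abs_nonneg ⟪n, z⟫_ℝ
  nlinarith

lemma th_diff {C' : ℝ} {μ : Measure (Sp d)} (hμ : Gro C' μ) {n : Sp d} (hn : ‖n‖ = 1) {ε r : ℝ}
    (hε : 0 < ε) (hε1 : ε ≤ 1) (hr : 1 / 2 ≤ r) (hr2 : r ≤ 2) {z : Sp d} (hz : ‖z‖ ≤ 1)
    (y : Sp d) : |th μ r (y + (ε * r) • z) - th μ r (y + (ε * r) • Rf n z)|
      ≤ cK d * XX0 μ n r y := by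
  unfold th XX0
  rw [← integral_sub (int_kk hμ (by linarith) (by linarith) _)
    (int_kk hμ (by linarith) (by linarith) _), ← integral_const_mul]
  refine (abs_integral_le_integral_abs).trans ?_
  refine integral_mono ((int_kk hμ (by linarith) (by linarith) _).sub
    (int_kk hμ (by linarith) (by linarith) _)).abs ((int_ZZ hμ hn hr hr2 y).const_mul _)
    fun η => ?_
  obtain ⟨g1, g2, g3⟩ := refl_geo hn hε hε1 hr hr2 hz y η
  exact (ker_bd hr hr2 (by linarith) (by linarith) g1 g2 g3).1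

lemma th_time {C' : ℝ} {μ : Measure (Sp d)} (hμ : Gro C' μ) {n : Sp d} (hn : ‖n‖ = 1) {ε r t : ℝ}
    (hε : 0 < ε) (hε1 : ε ≤ 1) (hr : 1 / 2 ≤ r) (hr2 : r ≤ 2) (ht : 1 / 4 < t) (ht2 : t < 4)
    {z : Sp d} (hz : ‖z‖ ≤ 1) (y : Sp d) :
    |(th μ t (y + (ε * r) • z) - th μ t (y + (ε * r) • Rf n z))
      - (th μ r (y + (ε * r) • z) - th μ r (y + (ε * r) • Rf n z))|
      ≤ cK d * XX0 μ n r y * |t - r| := by
  unfold th XX0
  have a1 := int_kk hμ ht ht2 (y + (ε * r) • z)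
  have a2 := int_kk hμ ht ht2 (y + (ε * r) • Rf n z)
  have a3 := int_kk hμ (by linarith : 1 / 4 < r) (by linarith) (y + (ε * r) • z)
  have a4 := int_kk hμ (by linarith : 1 / 4 < r) (by linarith) (y + (ε * r) • Rf n z)
  have e1 : ((∫ η, kk t (y + (ε * r) • z - η) ∂μ) - ∫ η, kk t (y + (ε * r) • Rf n z - η) ∂μ)
      - ((∫ η, kk r (y + (ε * r) • z - η) ∂μ) - ∫ η, kk r (y + (ε * r) • Rf n z - η) ∂μ)
      = ∫ η, ((kk t (y + (ε * r) • z - η) - kk t (y + (ε * r) • Rf n z - η))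
        - (kk r (y + (ε * r) • z - η) - kk r (y + (ε * r) • Rf n z - η))) ∂μ := by
    have b1 : Integrable (fun η => kk t (y + (ε * r) • z - η) - kk t (y + (ε * r) • Rf n z - η)) μ :=
      a1.sub a2
    have b2 : Integrable (fun η => kk r (y + (ε * r) • z - η) - kk r (y + (ε * r) • Rf n z - η)) μ :=
      a3.sub a4
    rw [integral_sub b1 b2, integral_sub a1 a2, integral_sub a3 a4]
  rw [e1, ← integral_const_mul, ← integral_mul_const]
  refine (abs_integral_le_integral_abs).trans ?_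
  refine integral_mono ((a1.sub a2).sub (a3.sub a4)).abs
    (((int_ZZ hμ hn hr hr2 y).const_mul _).mul_const _) fun η => ?_
  obtain ⟨g1, g2, g3⟩ := refl_geo hn hε hε1 hr hr2 hz y η
  exact ker_time hr hr2 ht.le ht2.le g1 g2 g3

lemma V_diff (h : StmtTH) (hd : 2 ≤ d) {C' : ℝ} (hC' : 0 < C') : ∃ Cd : ℝ, 0 ≤ Cd ∧
    ∀ μ : Measure (Sp d), Gro C' μ → ∀ n : Sp d, ‖n‖ = 1 → ∀ ε : ℝ, 0 < ε → ε ≤ 1 →
    ∀ (r : ℝ) (y z : Sp d), 1 / 2 ≤ r → r ≤ 2 → ‖z‖ ≤ 1 →
    |vv μ r (y + (ε * r) • z) - vv μ r (y + (ε * r) • Rf n z)|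
      ≤ Cd * Real.sqrt (vv μ r y * X2 μ n r y) ∧
    |pT (vv μ) r (y + (ε * r) • z) - pT (vv μ) r (y + (ε * r) • Rf n z)|
      ≤ Cd * Real.sqrt (vv μ r y * X2 μ n r y) := by
  obtain ⟨C, hC, hv⟩ := vok h hd hC'
  set H : ℝ := 2 ^ d with hH
  have hH0 : 0 < H := by positivity
  have hK0 := cK_nonneg (d := d)
  refine ⟨H * cK d * (1 + C * H ^ 2), by positivity, ?_⟩
  intro μ hμ n hn ε hε hε1 r y z hr hr2 hz
  have hV := hv μ hμ
  have hr0 : 0 < r := by linarith
  set x := y + (ε * r) • z with hx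
  set x' := y + (ε * r) • Rf n z with hx'
  have hz' : ‖Rf n z‖ ≤ 1 := by rw [(Rf n).norm_map]; exact hz
  have v0 := hV.pos r y hr0
  have a0 := hV.pos r x hr0
  have a0' := hV.pos r x' hr0
  -- Harnack
  have g1 : vv μ r y ≤ H * vv μ r x := by
    have h1 := vv_harnack h hd hC' hμ hr0 x hε hε1 (z := -z) (by rwa [norm_neg])
    have e1 : x + (ε * r) • -z = y := by
      rw [hx, smul_neg]
      abel
    rwa [e1] at h1
  have g2 : vv μ r x' ≤ H * vv μ r y := vv_harnack h hd hC' hμ hr0 y hε hε1 hz'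
  -- squares
  have sq : ∀ (t : ℝ) (u : Sp d), 0 < t → th μ t u = vv μ t u ^ 2 := by
    intro t u ht
    unfold vv
    rw [Real.sq_sqrt]
    exact integral_nonneg fun _ => kk_nonneg ht.le _
  set X := XX0 μ n r y with hX
  have hX0 : 0 ≤ X := XX0_nonneg μ n hr0 y
  have q1 : |vv μ r x ^ 2 - vv μ r x' ^ 2| ≤ cK d * X := by
    rw [← sq r x hr0, ← sq r x' hr0]
    exact th_diff hμ hn hε hε1 hr hr2 hz y
  have q2 : |2 * vv μ r x * pT (vv μ) r x - 2 * vv μ r x' * pT (vv μ) r x'| ≤ cK d * X := by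
    have d1 : HasDerivAt (fun t => vv μ t x ^ 2 - vv μ t x' ^ 2)
        (2 * vv μ r x * pT (vv μ) r x - 2 * vv μ r x' * pT (vv μ) r x') r := by
      have d3 := ((hV.sf.hasT hr0 x).fun_pow 2).fun_sub ((hV.sf.hasT hr0 x').fun_pow 2)
      refine d3.congr_deriv ?_
      norm_num
    have h2 := d1.le_of_lip' (C := cK d * X) (by positivity) (by
      have hnh : Ioo (1 / 4 : ℝ) 4 ∈ 𝓝 r := Ioo_mem_nhds (by linarith) (by linarith)
      filter_upwards [hnh] with t ht
      have ht0 : 0 < t := by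
        have := ht.1
        linarith
      rw [← sq t x ht0, ← sq t x' ht0, ← sq r x hr0, ← sq r x' hr0]
      exact th_time hμ hn hε hε1 hr hr2 ht.1 ht.2 hz y)
    exact h2
  have p' := hV.dt r x' hr hr2
  set v := vv μ r y with hvd
  set a := vv μ r x with had
  set a' := vv μ r x' with had'
  set p := pT (vv μ) r x with hpd
  set pp := pT (vv μ) r x' with hppd
  -- X / v
  have hXv : X / v ≤ Real.sqrt (v * X2 μ n r y) := by
    refine Real.le_sqrt_of_sq_le ?_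
    rw [div_pow, div_le_iff₀ (by positivity)]
    have := XX0_sq hV hμ hn hr hr2 y
    nlinarith
  have r1 : |a - a'| ≤ H * cK d * (X / v) := by
    have e1 : |a ^ 2 - a' ^ 2| = |a - a'| * (a + a') := by
      have e2 : a ^ 2 - a' ^ 2 = (a - a') * (a + a') := by ring
      rw [e2, abs_mul, abs_of_pos (a := a + a') (by positivity)]
    rw [e1] at q1
    have h3 : |a - a'| * a ≤ cK d * X := by nlinarith [abs_nonneg (a - a')]
    have h4 : |a - a'| * v ≤ H * (cK d * X) := by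
      calc |a - a'| * v ≤ |a - a'| * (H * a) := mul_le_mul_of_nonneg_left g1 (abs_nonneg _)
        _ = H * (|a - a'| * a) := by ring
        _ ≤ _ := mul_le_mul_of_nonneg_left h3 hH0.le
    rw [mul_div_assoc', le_div_iff₀ v0]
    linarith
  have r2 : |p - pp| ≤ H * cK d * (1 + C * H ^ 2) * (X / v) := by
    have e1 : a * (p - pp) = (2 * a * p - 2 * a' * pp) / 2 - (a - a') * pp := by ring
    have h5 : |pp| ≤ C * H * v := by
      calc |pp| ≤ C * a' := p'
        _ ≤ C * (H * v) := mul_le_mul_of_nonneg_left g2 (by linarith)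
        _ = _ := by ring
    have h6 : a * |p - pp| ≤ cK d * X + |a - a'| * |pp| := by
      calc a * |p - pp| = |a * (p - pp)| := by rw [abs_mul, abs_of_pos a0]
        _ = |(2 * a * p - 2 * a' * pp) / 2 - (a - a') * pp| := by rw [e1]
        _ ≤ |(2 * a * p - 2 * a' * pp) / 2| + |(a - a') * pp| := abs_sub _ _
        _ ≤ cK d * X + |a - a'| * |pp| := by
            rw [abs_mul (a - a'), abs_div, abs_of_pos (zero_lt_two (α := ℝ))]
            have : 0 ≤ cK d * X := by positivity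
            linarith
    have h7 : |a - a'| * |pp| ≤ (H * cK d * (X / v)) * (C * H * v) :=
      mul_le_mul r1 h5 (abs_nonneg _) (by positivity)
    have h8 : (H * cK d * (X / v)) * (C * H * v) = C * H ^ 2 * cK d * X := by
      field_simp
    have h9 : v * |p - pp| ≤ H * (cK d * X + C * H ^ 2 * cK d * X) := by
      calc v * |p - pp| ≤ (H * a) * |p - pp| := mul_le_mul_of_nonneg_right g1 (abs_nonneg _)
        _ = H * (a * |p - pp|) := by ring
        _ ≤ H * (cK d * X + C * H ^ 2 * cK d * X) := by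
            refine mul_le_mul_of_nonneg_left ?_ hH0.le
            linarith
    rw [mul_div_assoc', le_div_iff₀ v0]
    nlinarith
  have hc : 0 ≤ H * cK d * (1 + C * H ^ 2) := by positivity
  refine ⟨?_, r2.trans (mul_le_mul_of_nonneg_left hXv hc)⟩
  refine r1.trans ?_
  refine (mul_le_mul_of_nonneg_left hXv (by positivity)).trans ?_
  refine mul_le_mul_of_nonneg_right ?_ (Real.sqrt_nonneg _)
  have : 0 ≤ H * cK d * (C * H ^ 2) := by positivity
  nlinarith

end WBT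

end

end TG
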