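import Pool.Agent.TG.Stmts13

/-!
# Trace inequality, general operators: monotonicity of the standing hypotheses   (helper32)

No double quotes.
-/

open MeasureTheory Metric Set TrI
open scoped InnerProductSpace ContDiff ENNReal

namespace TG

noncomputable section

variable {d : ℕ}

namespace MonoW

lemma tfn_nonneg {J : ℕ} {N : ℝ} {ζ : Sp d → ℝ} (h : TFn J N ζ) : 0 ≤ N := by
  have := h.2 0 (Nat.zero_le _) 0
  exact (norm_nonneg _).trans this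

lemma zp_mono {R R' D D' : ℝ} {m : Sp d → ℝ} (h : ZP R D m) (hR : R' ≤ R) (hD : D ≤ D') :
    ZP R' D' m := fun H h1 h2 h3 h4 h5 =>
  (neg_le_neg hD).trans (h H h1 h2 h3 h4 fun y hy => h5 y (hR.trans hy))

lemma str_mono {J rm r : ℕ} {R1 Rs Rs' e' e'' a : ℝ} {m : Sp d → ℝ} {ν : Fin r → Sp d}
    {κ : Fin r → Sp d → ℝ} (h : Str J rm R1 Rs e' a m r ν κ) (ha : 0 ≤ a) (hR : Rs' ≤ Rs)
    (he : e' ≤ e'') : Str J rm R1 Rs' e'' a m r ν κ where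
  rle := h.rle
  n1 := h.n1
  k0 := h.k0
  kb := h.kb
  ks := fun i y hy => (h.ks i y hy).trans (by linarith)
  kt := h.kt
  est := fun ζ N h1 h2 => (h.est ζ N h1 fun y hy => h2 y (hR.trans hy)).trans
    (mul_le_mul_of_nonneg_right (mul_le_mul_of_nonneg_right he ha) (tfn_nonneg h1))

lemma mg_mono {K K' γ R R' a D D' : ℝ} {m : Sp d → ℝ} (h : MG K γ R a D m) (ha : 0 ≤ a)
    (hK : K ≤ K') (hR : R' ≤ R) (hD : D ≤ D') : MG K' γ R' a D' m := by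
  intro ρ h1 h2 ζ h3 h4 h5 h6
  refine (h ρ h1 (h2.trans hR) ζ h3 h4 h5 h6).trans (add_le_add ?_ hD)
  exact mul_le_mul_of_nonneg_right (mul_le_mul_of_nonneg_right hK
    (Real.rpow_nonneg (by linarith) _)) ha

section

variable {E : Type} [NormedAddCommGroup E] [InnerProductSpace ℝ E]

lemma wok_mono {JA : ℕ} {C' R0 Rz Rz' : ℝ} {X : Prm d} {W : Wld d E}
    (h : WOK JA C' R0 Rz X W) (hR : Rz' ≤ Rz) : WOK JA C' R0 Rz' X W where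
  X_eq := h.X_eq
  s0_pos := h.s0_pos
  gro := h.gro
  fc := h.fc
  fs := h.fs
  eu := h.eu
  nu := h.nu
  ab0 := h.ab0
  D0 := h.D0
  zp := fun Q => zp_mono (h.zp Q) hR le_rfl
  dir := fun Q Q' hQ' ζ N h1 h2 => h.dir Q Q' hQ' ζ N h1 fun y hy => h2 y (hR.trans hy)

lemma wsh_mono {J : ℕ} {R0 κ κ' : ℝ} {W : Wld d E} {Q : Cell d} (h : WSh J R0 κ W Q)
    (hκ : κ ≤ κ') : WSh J R0 κ' W Q where
  sh := h.sh
  bl := h.bl
  loc := h.loc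
  dl0 := h.dl0
  small := h.small.trans (mul_le_mul_of_nonneg_right hκ h.sh.ab0.le)
  smalld := h.smalld.trans (mul_le_mul_of_nonneg_right hκ h.sh.ab0.le)

lemma wnw_mono {K K' γ R1 Rs Rs' RM RM' : ℝ} {rm : ℕ} {tol tol' : ℕ → ℝ} {W : Wld d E}
    {Q : Cell d} (h : WNw K γ R1 Rs RM rm tol W Q) (hK : K ≤ K') (hs : Rs' ≤ Rs)
    (hM : RM' ≤ RM) (ht : ∀ J, tol J ≤ tol' J) : WNw K' γ R1 Rs' RM' rm tol' W Q where
  a0 := h.a0
  str := by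
    obtain ⟨J, r, ν, κ, h1⟩ := h.str
    exact ⟨J, r, ν, κ, str_mono h1 h.a0 hs (ht J)⟩
  mg := mg_mono h.mg h.a0 hK hM le_rfl

lemma ash_mono {J JA : ℕ} {R0 κ κ' Kc : ℝ} {W : Wld d E} {Q : Cell d}
    (h : Ash J JA R0 κ Kc W Q) (hκ : κ ≤ κ') : Ash J JA R0 κ' Kc W Q :=
  ⟨h.1, wsh_mono h.2.1 hκ, fun Q' hQ' =>
    ⟨(h.2.2 Q' hQ').1, wsh_mono (h.2.2 Q' hQ').2.1 hκ, (h.2.2 Q' hQ').2.2⟩⟩

end

end MonoW

end

end TG
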