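import Pool.Agent.TG.WDa
import Pool.Agent.TG.Stmts17
import Pool.Agent.TG.MonoW

/-!
# MODULE WD: the world exists  (helper98)
-/

open MeasureTheory Metric Set TrI
open scoped InnerProductSpace ContDiff ENNReal

namespace TG

noncomputable section

open FR FR4 FN WDm in
theorem stmtWD (hLN : StmtLN) (hFR2 : StmtFR2) (hFR4 : StmtFR4) (hMA : StmtMA) (hSC : StmtSC)
    (h2 : StmtCT2) (h4 : StmtCT4) (h5 : StmtCT5) (h8 : StmtCT8) (h9 : StmtCT9) (hNS : StmtNS) :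
    StmtWD := by
  intro d V E _ _ _ _ _ _ _ L hd hL
  obtain ⟨J, hJ, gc⟩ := cell_sheet hFR2 hFR4 hMA hSC h2 h4 h5 V E L hd hL
  refine ⟨J, hJ, ?_⟩
  intro M c0 b hb C' ε p0 A hC' hε hε4 JA γ R0 hγ hγ1 hR0 K Cr hK hCr
  have hd1 : 1 ≤ d := by omega
  have hdR : (2 : ℝ) ≤ d := by exact_mod_cast hd
  have hε1 : ε ≤ 1 := by linarith
  have hb2 : BaseKer 2 M c0 b := hb.mono_order (by omega)
  have hR0' : 400 + 8 * (d : ℝ) ≤ R0 := by linarith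
  have hγ8 : γ ≤ 1 / (8 * d) := hγ1.trans (one_div_le_one_div_of_le (by positivity)
    (by linarith))
  obtain ⟨C8, hC8, gN⟩ := hLN d V E L hd hL M c0 ε hε hε1 b hb2
  obtain ⟨C2, hC2, gc⟩ := gc M c0 b hb ε hε hε4 γ R0 hγ hγ1 hR0 K Cr hK hCr
  obtain ⟨CZ, hCZ, gZ⟩ := zp_dir h8 h9 hNS hd1 hε hε1 hb2 (R0 := R0) (by linarith) JA
  have hC2C : C2 ≤ C2 ^ 2 * Cr := by nlinarith
  refine ⟨C2 ^ 2 * Cr, C8 * K, by nlinarith, by nlinarith, ?_⟩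
  intro κW hκW
  obtain ⟨CK, κ0, hCK, hκ0, gc⟩ := gc κW hκW
  refine ⟨CK, κ0, hCK, hκ0, ?_⟩
  intro κm hκm
  obtain ⟨RN1, hRN1, gc⟩ := gc κm hκm
  refine ⟨RN1, hRN1, ?_⟩
  intro RN hRN Rs RM tol hRs htol
  obtain ⟨Rm1, Cs, hCs, gc⟩ := gc RN hRN
  obtain ⟨rm, r0, R1, d0, CD, hd0, hd01, hCD, Rm2, gN⟩ :=
    gN R0 γ K hR0' hγ hγ8 hK Rs RM tol hRs htol
  refine ⟨R1, rm, ?_⟩
  intro Rz
  obtain ⟨Rm3, gZ⟩ := gZ Rz
  refine ⟨max Rm1 (max Rm2 (max Rm3 (2 * d + 12))), d0, CD + CZ, Cs, max r0 (max (JA + 2) 10),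
    hd0, hd01, by linarith, hCs, (le_max_right _ _).trans (le_max_right _ _), ?_⟩
  intro R hR u hu μ hμ s0 h e he ν c hν κ hκ1 hκ2
  have hR1 : Rm1 ≤ R := (le_max_left _ _).trans hR
  have hR2 : Rm2 ≤ R := (le_max_left _ _).trans ((le_max_right _ _).trans hR)
  have hR3 : Rm3 ≤ R := (le_max_left _ _).trans ((le_max_right _ _).trans
    ((le_max_right _ _).trans hR))
  have hf := foc L hu
  have hc := fos L hu
  have hD0 : ∀ Q, 0 ≤ dC b ε R s0 (fo L u) e Q := dC_nonneg b ε R h _ he.unit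
  set r1 := max r0 (max (JA + 2) 10) with hr1
  have hr0 : r0 ≤ r1 := le_max_left _ _
  have hrJ : JA + 2 ≤ r1 := (le_max_left _ _).trans (le_max_right _ _)
  set a := mC b ε (64 * R0) s0 (fo L u) with ha
  set St := Strc γ K d0 a (mT b ε s0 (fo L u)) (dC b ε R s0 (fo L u) e) with hSt
  set TA := TyA κ a (dC b ε R s0 (fo L u) e) (bC R0 s0 (fo L u) e ν c) with hTA
  set ah := mC b ε (32 * R0) s0 (fo L u) with hah
  set bf := sh (bC R0 s0 (fo L u) e ν c) with hbf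
  set df := sh (dC b ε R s0 (fo L u) e) with hdf
  have ha0 : ∀ Q, 0 ≤ a Q := by
    intro Q
    simp only [ha, mC, ma]
    have := lev_pos h Q.1
    exact mul_nonneg (by positivity) (integral_nonneg fun y => norm_nonneg _)
  -- the data of the cells
  have hex : ∀ Q : Cell d, ∃ (n : Sp d) (s ab er dl EI : ℝ), ‖n‖ = 1 ∧ 0 ≤ ab ∧ 0 ≤ EI ∧
      (Q ∈ St → Q ∈ TA →
      Sheet J (64 * R0) ab er dl (mQ s0 (fo L u) (e Q) Q) n s ∧
      blc n s (mQ s0 (fo L u) (e Q) Q) (64 * R0) ≤ er ∧ |s| ≤ 64 * R0 + 4 ∧ 0 ≤ dl ∧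
      er ≤ κW * ab ∧ dl ≤ κW * ab ∧ a Q ≤ C2 * ab ∧ ab ≤ C2 * a Q ∧
      (a Q ≤ Cr * ah Q → |s| ≤ 32 * R0 + 4) ∧
      (∀ (Y : Fin d → Fin d → Sp d → ℝ) (N : ℝ), (∀ i j, TFn (J + 6) N (Y i j)) →
        (∀ i j y, (d : ℝ) ≤ ‖y‖ → Y i j y = 0) →
        |∫ y, mQ s0 (fo L u) (e Q) Q y * ((∑ i, ∑ j, n i * n j * Y i j y) - nt b RN Y y)| ≤
          N * EI) ∧
      er + dl + EI ≤ CK * (bf Q + κ * a Q) + Cs * df Q ∧
      er ^ 2 / ab + dl ≤ CK * (κ * bf Q + df Q)) := by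
    intro Q
    by_cases hQ : Q ∈ St ∧ Q ∈ TA
    · obtain ⟨n, s, ab, er, dl, EI, g1, g2, g3, g4, g5, g6, g7, g8, g9, g10, g11, g12, g13,
        g14⟩ := gc R hR1 u hu s0 h e he ν c hν κ hκ1 hκ2 Q (a Q) hQ.1.1 rfl hQ.1.2.1 hQ.2
      exact ⟨n, s, ab, er, dl, EI, g1, g2.ab0.le, g11, fun _ _ =>
        ⟨g2, g3, g4, g5, g6, g7, g8, g9, g10, g12, g13, g14⟩⟩
    · refine ⟨EuclideanSpace.single (⟨0, hd1⟩ : Fin d) (1 : ℝ), 0, 0, 0, 0, 0, by simp, le_rfl,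
        le_rfl, fun h1 h2 => absurd ⟨h1, h2⟩ hQ⟩
  choose nv sv ab er dl EI hn hab hEI hX using hex
  classical
  set W : Wld d E :=
    { X := ⟨b, RN, ε, p0, A⟩, s0 := s0, μ := μ, f := fo L u, e := e,
      kd := fun Q => if Q ∈ St then (if Q ∈ TA then 0 else 1) else 2,
      nv := nv, sv := sv, ab := ab, er := er, dl := dl,
      D := fun Q => (CD + CZ) * dsm r1 (dC b ε R s0 (fo L u) e) Q, a := a } with hW
  have hWm : ∀ Q, W.m Q = mQ s0 (fo L u) (e Q) Q := fun Q => rfl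
  have hdm : ∀ Q, 0 ≤ dsm r1 (dC b ε R s0 (fo L u) e) Q := fun Q => dsm_nonneg hD0 Q
  refine ⟨W, EI, rfl, rfl, rfl, rfl, rfl, rfl, fun Q => rfl, ?_⟩
  constructor
  case ok =>
    refine ⟨rfl, h, hμ, hf, hc, he.unit, hn, hab,
      fun Q => mul_nonneg (by linarith) (hdm Q), ?_, ?_⟩
    · intro Q
      have h1 := (gZ E R hR3 (fo L u) hf hc s0 h e he Q).1
      refine MonoW.zp_mono h1 le_rfl ?_
      exact mul_le_mul (by linarith) (dsm_mono hrJ hD0 Q) (dsm_nonneg hD0 Q) (by linarith)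
    · intro Q Q' hQ' ζ N hζ hζs
      have h1 := (gZ E R hR3 (fo L u) hf hc s0 h e he Q).2 Q' hQ' ζ N hζ hζs
      refine h1.trans (mul_le_mul_of_nonneg_left ?_ (MonoW.tfn_nonneg hζ))
      exact mul_le_mul (by linarith) (dsm_mono hrJ hD0 Q) (dsm_nonneg hD0 Q) (by linarith)
  case kd0 =>
    intro Q
    show (if Q ∈ St then (if Q ∈ TA then 0 else 1) else 2) = 0 ↔ _
    by_cases h1 : Q ∈ St <;> by_cases h2 : Q ∈ TA <;> simp [h1, h2]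
  case kd1 =>
    intro Q
    show (if Q ∈ St then (if Q ∈ TA then 0 else 1) else 2) = 1 ↔ _
    by_cases h1 : Q ∈ St <;> by_cases h2 : Q ∈ TA <;> simp [h1, h2]
  case a_pos => exact fun Q hQ => hQ.1
  case a0 => exact ha0
  case str =>
    intro Q hQ
    obtain ⟨g1, g2⟩ := gN R hR2 u hu s0 h e he Q hQ
    refine ⟨ha0 Q, g1, MonoW.mg_mono g2 (ha0 Q) le_rfl le_rfl ?_⟩
    exact mul_le_mul (by linarith) (dsm_mono hr0 hD0 Q) (dsm_nonneg hD0 Q) (by linarith)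
  case she =>
    intro Q hQ hQ'
    obtain ⟨g2, g3, g4, g5, g6, g7, g8, g9, g10, g12, g13, g14⟩ := hX Q hQ hQ'
    exact ⟨g2, g3, g4, g5, g6, g7⟩
  case EI0 => exact hEI
  case ifc =>
    intro Q hQ hQ'
    obtain ⟨g2, g3, g4, g5, g6, g7, g8, g9, g10, g12, g13, g14⟩ := hX Q hQ hQ'
    exact g12
  case ab_le =>
    intro Q hQ hQ'
    obtain ⟨g2, g3, g4, g5, g6, g7, g8, g9, g10, g12, g13, g14⟩ := hX Q hQ hQ'
    exact g9.trans (mul_le_mul_of_nonneg_right hC2C (ha0 Q))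
  case ab_cmp =>
    intro Q hQ hQ' Q1 hQ1 hQ1' hle
    obtain ⟨g2, g3, g4, g5, g6, g7, g8, g9, g10, g12, g13, g14⟩ := hX Q hQ hQ'
    obtain ⟨k2, k3, k4, k5, k6, k7, k8, k9, k10, k12, k13, k14⟩ := hX Q1 hQ1 hQ1'
    have h1 : ab Q1 ≤ C2 * (Cr * (C2 * ab Q)) := k9.trans (mul_le_mul_of_nonneg_left
      (hle.trans (mul_le_mul_of_nonneg_left g8 (by linarith))) (by linarith))
    refine h1.trans (le_of_eq ?_)
    show _ = C2 ^ 2 * Cr * ab Q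
    ring
  case sv_le =>
    intro Q hQ hQ' hle
    obtain ⟨g2, g3, g4, g5, g6, g7, g8, g9, g10, g12, g13, g14⟩ := hX Q hQ hQ'
    exact g10 hle
  case E1_le =>
    intro Q hQ hQ'
    obtain ⟨g2, g3, g4, g5, g6, g7, g8, g9, g10, g12, g13, g14⟩ := hX Q hQ hQ'
    exact g13
  case E2_le =>
    intro Q hQ hQ'
    obtain ⟨g2, g3, g4, g5, g6, g7, g8, g9, g10, g12, g13, g14⟩ := hX Q hQ hQ'
    exact g14

end

end TG
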