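import Pool.Agent.TG.FN2
import Pool.Agent.TG.FR4
import Pool.Agent.TG.Stmts18

/-!
# The construction of the world: numbers and one cell  (helper98)
-/

open MeasureTheory Metric Set TrI
open scoped InnerProductSpace ContDiff ENNReal

namespace TG

namespace WDm

open FR FR4 FN

noncomputable section

variable {d : ℕ}

/-! ## Numbers -/

/-- choice of the number of scales -/
lemma scales {κ4 κm : ℝ} (h4 : 0 < κ4) (hm : 0 < κm) : ∃ Im : ℕ, ∀ κ : ℝ, κm ≤ κ → κ ≤ κ4 →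
    ∀ γ : ℝ, γ ≤ 2 / 5 → ∃ I ≤ Im, (2 : ℝ) ^ ((3 / 5 : ℝ) * I) * κ ≤ κ4 ∧
      (2 : ℝ) ^ (-(I : ℝ) * (1 - γ)) ≤ 2 / κ4 * κ := by
  obtain ⟨Im, hIm⟩ := pow_unbounded_of_one_lt (κ4 / κm)
    (Real.one_lt_rpow (by norm_num) (by norm_num) : (1 : ℝ) < (2 : ℝ) ^ (3 / 5 : ℝ))
  have hp : ∀ n : ℕ, (2 : ℝ) ^ ((3 / 5 : ℝ) * (n : ℝ)) = ((2 : ℝ) ^ (3 / 5 : ℝ)) ^ n := by
    intro n
    rw [Real.rpow_mul (by norm_num), Real.rpow_natCast]
  have h1 : (1 : ℝ) ≤ (2 : ℝ) ^ (3 / 5 : ℝ) := Real.one_le_rpow (by norm_num) (by norm_num)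
  refine ⟨Im, ?_⟩
  intro κ hκm hκ4 γ hγ
  have hκ : 0 < κ := hm.trans_le hκm
  have hex : ∃ I : ℕ, κ4 < (2 : ℝ) ^ ((3 / 5 : ℝ) * ((I + 1 : ℕ) : ℝ)) * κ := by
    refine ⟨Im, ?_⟩
    rw [hp, pow_succ]
    rw [div_lt_iff₀ hm] at hIm
    have h2 : ((2 : ℝ) ^ (3 / 5 : ℝ)) ^ Im * κm ≤ ((2 : ℝ) ^ (3 / 5 : ℝ)) ^ Im * κ :=
      mul_le_mul_of_nonneg_left hκm (by positivity)
    have h3 : 0 < ((2 : ℝ) ^ (3 / 5 : ℝ)) ^ Im * κ := by positivity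
    nlinarith
  classical
  refine ⟨Nat.find hex, ?_, ?_, ?_⟩
  · refine Nat.find_min' hex ?_
    rw [hp, pow_succ]
    rw [div_lt_iff₀ hm] at hIm
    have h2 : ((2 : ℝ) ^ (3 / 5 : ℝ)) ^ Im * κm ≤ ((2 : ℝ) ^ (3 / 5 : ℝ)) ^ Im * κ :=
      mul_le_mul_of_nonneg_left hκm (by positivity)
    have h3 : 0 < ((2 : ℝ) ^ (3 / 5 : ℝ)) ^ Im * κ := by positivity
    nlinarith
  · rcases Nat.eq_zero_or_pos (Nat.find hex) with h0 | h0
    · rw [h0]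
      simpa using hκ4
    · have h2 := Nat.find_min hex (Nat.sub_lt h0 one_pos)
      rw [show Nat.find hex - 1 + 1 = Nat.find hex by omega] at h2
      exact not_lt.1 h2
  · have h2 := Nat.find_spec hex
    set I := Nat.find hex
    have h3 : (2 : ℝ) ^ (-(I : ℝ) * (1 - γ)) ≤ (2 : ℝ) ^ (-((3 / 5 : ℝ) * (I : ℝ))) := by
      apply Real.rpow_le_rpow_of_exponent_le (by norm_num)
      have : (0 : ℝ) ≤ I := Nat.cast_nonneg I
      nlinarith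
    refine h3.trans ?_
    have h4' : (2 : ℝ) ^ ((3 / 5 : ℝ) * ((I + 1 : ℕ) : ℝ)) =
        (2 : ℝ) ^ ((3 / 5 : ℝ) * (I : ℝ)) * (2 : ℝ) ^ (3 / 5 : ℝ) := by
      rw [← Real.rpow_add (by norm_num)]
      congr 1
      push_cast
      ring
    rw [h4'] at h2
    have h5 : (2 : ℝ) ^ (3 / 5 : ℝ) ≤ 2 := by
      calc (2 : ℝ) ^ (3 / 5 : ℝ) ≤ (2 : ℝ) ^ (1 : ℝ) :=
            Real.rpow_le_rpow_of_exponent_le (by norm_num) (by norm_num)
        _ = 2 := Real.rpow_one 2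
    rw [Real.rpow_neg (by norm_num)]
    have h6 : 0 < (2 : ℝ) ^ ((3 / 5 : ℝ) * (I : ℝ)) := by positivity
    rw [inv_le_iff_one_le_mul₀ h6]
    have h7 : κ4 ≤ (2 : ℝ) ^ ((3 / 5 : ℝ) * (I : ℝ)) * (2 * κ) := by
      refine h2.le.trans ?_
      rw [mul_assoc]
      exact mul_le_mul_of_nonneg_left (mul_le_mul_of_nonneg_right h5 hκ.le) h6.le
    rw [div_mul_eq_mul_div, div_mul_eq_mul_div, le_div_iff₀ h4]
    linarith

/-- the geometric mean -/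
lemma sqrt_le_add {a x κ : ℝ} (ha : 0 ≤ a) (hx : 0 ≤ x) (hκ : 0 < κ) :
    Real.sqrt (a * x) ≤ κ * a + x / κ := by
  rw [Real.sqrt_le_left (by positivity)]
  have h1 : κ * a * (x / κ) = a * x := by field_simp
  nlinarith [mul_nonneg ha hx, sq_nonneg (κ * a), sq_nonneg (x / κ)]

/-- the smallness of the errors and the bound E2 -/
lemma num1 {Cf κ κ0 κW a ab B S D : ℝ} (hCf : 0 < Cf) (hκ : 0 < κ) (hκκ : κ ≤ κ0) (hκ1 : κ0 ≤ 1)
    (hκW : 2 * Cf ^ 2 * Real.sqrt κ0 ≤ κW) (ha : 0 < a) (hab : 0 < ab) (h1 : a ≤ Cf * ab)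
    (hS : 0 ≤ S) (hD : 0 ≤ D) (hB : B = S + D) (hBa : B ≤ κ * a) :
    Cf * (B + Real.sqrt (a * D)) ≤ κW * ab ∧ Cf * D ≤ κW * ab ∧
    (Cf * (B + Real.sqrt (a * D))) ^ 2 / ab + Cf * D ≤ (4 * Cf ^ 3 + Cf) * (κ * S + D) := by
  have hB0 : 0 ≤ B := by linarith
  have hDκ : D ≤ κ * a := by linarith
  have hκ0 : 0 < κ0 := by linarith
  have hs0 : 0 ≤ Real.sqrt κ0 := Real.sqrt_nonneg _
  have hκs : κ ≤ Real.sqrt κ0 := hκκ.trans (by
    rw [Real.le_sqrt' hκ0]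
    nlinarith)
  have hsq : Real.sqrt (a * D) ≤ Real.sqrt κ0 * a := by
    rw [Real.sqrt_le_left (by positivity), mul_pow, Real.sq_sqrt hκ0.le]
    nlinarith [mul_pos ha ha, mul_le_mul_of_nonneg_left hDκ ha.le]
  have hs := Real.sqrt_nonneg (a * D)
  have hBs : B ≤ Real.sqrt κ0 * a := hBa.trans (mul_le_mul_of_nonneg_right hκs ha.le)
  have hCf2 : 2 * Cf ^ 2 * Real.sqrt κ0 * ab ≤ κW * ab := mul_le_mul_of_nonneg_right hκW hab.le
  have hk : Real.sqrt κ0 * a ≤ Real.sqrt κ0 * (Cf * ab) := mul_le_mul_of_nonneg_left h1 hs0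
  refine ⟨?_, ?_, ?_⟩
  · refine le_trans ?_ hCf2
    have h2 : B + Real.sqrt (a * D) ≤ 2 * (Real.sqrt κ0 * (Cf * ab)) := by linarith
    have h3 := mul_le_mul_of_nonneg_left h2 hCf.le
    linarith [h3, show Cf * (2 * (Real.sqrt κ0 * (Cf * ab))) = 2 * Cf ^ 2 * Real.sqrt κ0 * ab by ring]
  · refine le_trans ?_ hCf2
    have h2 : D ≤ Real.sqrt κ0 * (Cf * ab) := by linarith
    have h3 := mul_le_mul_of_nonneg_left h2 hCf.le
    have h4 : 0 ≤ Cf ^ 2 * Real.sqrt κ0 * ab := by positivity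
    linarith [h3, show Cf * (Real.sqrt κ0 * (Cf * ab)) = Cf ^ 2 * Real.sqrt κ0 * ab by ring]
  · have h2 : (B + Real.sqrt (a * D)) ^ 2 ≤ 2 * (B ^ 2 + a * D) := by
      have h3 : Real.sqrt (a * D) ^ 2 = a * D := Real.sq_sqrt (by positivity)
      nlinarith [sq_nonneg (B - Real.sqrt (a * D))]
    have h3 : B ^ 2 + a * D ≤ a * (κ * B + D) := by nlinarith
    have h4 : (Cf * (B + Real.sqrt (a * D))) ^ 2 / ab ≤ 2 * Cf ^ 3 * (κ * B + D) := by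
      rw [div_le_iff₀ hab, mul_pow]
      have h5 : Cf ^ 2 * (B + Real.sqrt (a * D)) ^ 2 ≤ Cf ^ 2 * (2 * (a * (κ * B + D))) :=
        mul_le_mul_of_nonneg_left (by linarith) (by positivity)
      have h6 : 0 ≤ 2 * Cf ^ 2 * (κ * B + D) := by positivity
      have h7 := mul_le_mul_of_nonneg_left h1 h6
      linarith [h7, show 2 * Cf ^ 2 * (κ * B + D) * (Cf * ab) = 2 * Cf ^ 3 * (κ * B + D) * ab by ring,
        show Cf ^ 2 * (2 * (a * (κ * B + D))) = 2 * Cf ^ 2 * (κ * B + D) * a by ring]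
    have h5 : κ * B + D ≤ 2 * (κ * S + D) := by
      have h6 : κ * D ≤ D := by nlinarith
      have h7 : 0 ≤ κ * S := by positivity
      rw [hB]
      linarith
    have h6 : 0 ≤ κ * S := by positivity
    have h7 := mul_le_mul_of_nonneg_left h5 (by positivity : 0 ≤ 2 * Cf ^ 3)
    nlinarith [mul_nonneg hCf.le h6]

/-- the bound of the total error -/
lemma num2 {Cf C4 κ4 κ κm C1 Cm a B S D er dl bl q : ℝ} (hCf : 0 < Cf) (hC4 : 0 < C4)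
    (hκ4 : 0 < κ4) (hκm : 0 < κm) (hκκ : κm ≤ κ) (hCm : C1 ≤ Cm) (ha : 0 < a)
    (hS : 0 ≤ S) (hD : 0 ≤ D) (hB : B = S + D) (her : er = Cf * (B + Real.sqrt (a * D)))
    (hdl : dl = Cf * D) (hbl : bl ≤ Cf * B) (hq : q ≤ 2 / κ4 * κ) :
    er + dl + (C4 * (B + Real.sqrt (a * D) + er + bl + dl) + C4 * q * a + C1 * D) ≤
      (Cf + C4 * (1 + 2 * Cf) + 2 * C4 / κ4) * (S + κ * a) +
      ((Cf + C4 * (1 + Cf)) * (1 + 1 / κm) + Cf + 2 * C4 * Cf + Cm) * D := by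
  have hκ : 0 < κ := by linarith
  have h1 := sqrt_le_add ha.le hD hκ
  have h2 : D / κ ≤ 1 / κm * D := by
    rw [div_eq_inv_mul, one_div]
    exact mul_le_mul_of_nonneg_right (inv_anti₀ hκm hκκ) hD
  have h3 : Real.sqrt (a * D) ≤ κ * a + 1 / κm * D := h1.trans (by linarith)
  set x := Real.sqrt (a * D) with hx
  have h4 : er ≤ Cf * (S + κ * a + (1 + 1 / κm) * D) := by
    rw [her, hB]
    refine mul_le_mul_of_nonneg_left ?_ hCf.le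
    linarith
  have h5 : C4 * (B + x + er + bl + dl) ≤ C4 * ((S + κ * a + (1 + 1 / κm) * D) +
      Cf * (S + κ * a + (1 + 1 / κm) * D) + Cf * (S + D) + Cf * D) := by
    refine mul_le_mul_of_nonneg_left ?_ hC4.le
    rw [hB] at hbl ⊢
    linarith
  have h6 : C4 * q * a ≤ 2 * C4 / κ4 * (κ * a) := by
    have := mul_le_mul_of_nonneg_right (mul_le_mul_of_nonneg_left hq hC4.le) ha.le
    refine this.trans (le_of_eq ?_)
    ring
  have h7 : C1 * D ≤ Cm * D := mul_le_mul_of_nonneg_right hCm hD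
  have h8 : 0 ≤ C4 * Cf * (κ * a) := by positivity
  have h9 : 0 ≤ 2 * C4 / κ4 * S := by positivity
  rw [hdl] at *
  nlinarith

/-! ## One cell -/

theorem cell_sheet (hFR2 : StmtFR2) (hFR4 : StmtFR4) (hMA : StmtMA) (hSC : StmtSC)
    (h2 : StmtCT2) (h4 : StmtCT4) (h5 : StmtCT5) {d : ℕ} (V E : Type) [NormedAddCommGroup V]
    [InnerProductSpace ℝ V] [FiniteDimensional ℝ V]
    [NormedAddCommGroup E] [InnerProductSpace ℝ E] [FiniteDimensional ℝ E] [Nontrivial E]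
    (L : (Sp d →L[ℝ] V) →L[ℝ] E) (hd : 2 ≤ d) (hL : CEll L) : ∃ J : ℕ, 4 ≤ J ∧
    ∀ (M c0 : ℝ) (b : Sp d → ℝ), BaseKer (J + 14) M c0 b →
    ∀ ε : ℝ, 0 < ε → ε ≤ 1 / 4 →
    ∀ (γ R0 : ℝ), 0 < γ → γ ≤ 1 / (32 * d) → 8 * d + 400 ≤ R0 →
    ∀ (K Cr : ℝ), 1 ≤ K → 1 ≤ Cr →
    ∃ C2 : ℝ, 1 ≤ C2 ∧ ∀ κW : ℝ, 0 < κW →
    ∃ (CK κ0 : ℝ), 0 < CK ∧ 0 < κ0 ∧ ∀ κm : ℝ, 0 < κm →
    ∃ RN1 : ℝ, 1 ≤ RN1 ∧ ∀ RN : ℝ, RN1 ≤ RN → ∃ (Rm Cs : ℝ), 0 < Cs ∧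
    ∀ R : ℝ, Rm ≤ R → ∀ u : Sp d → V, TF u →
    ∀ s0 : ℝ, 0 < s0 → ∀ e : Cell d → E, Dirs b ε R s0 (fo L u) e →
    ∀ (ν : Cell d → Sp d) (c : Cell d → ℝ), Plns R0 s0 (fo L u) e ν c →
    ∀ κ : ℝ, κm ≤ κ → κ ≤ κ0 → ∀ (Q : Cell d) (a : ℝ), 0 < a →
      a = mC b ε (64 * R0) s0 (fo L u) Q →
      (∀ i : ℕ, mT b ε s0 (fo L u) (up i Q) ≤ K * (2 : ℝ) ^ (γ * i) * a) →
      sh (bC R0 s0 (fo L u) e ν c) Q + sh (dC b ε R s0 (fo L u) e) Q ≤ κ * a →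
    ∃ (n : Sp d) (s ab er dl EI : ℝ), ‖n‖ = 1 ∧
      Sheet J (64 * R0) ab er dl (mQ s0 (fo L u) (e Q) Q) n s ∧
      blc n s (mQ s0 (fo L u) (e Q) Q) (64 * R0) ≤ er ∧ |s| ≤ 64 * R0 + 4 ∧ 0 ≤ dl ∧
      er ≤ κW * ab ∧ dl ≤ κW * ab ∧ a ≤ C2 * ab ∧ ab ≤ C2 * a ∧
      (a ≤ Cr * mC b ε (32 * R0) s0 (fo L u) Q → |s| ≤ 32 * R0 + 4) ∧ 0 ≤ EI ∧
      (∀ (Y : Fin d → Fin d → Sp d → ℝ) (N : ℝ), (∀ i j, TFn (J + 6) N (Y i j)) →
        (∀ i j y, (d : ℝ) ≤ ‖y‖ → Y i j y = 0) →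
        |∫ y, mQ s0 (fo L u) (e Q) Q y * ((∑ i, ∑ j, n i * n j * Y i j y) - nt b RN Y y)| ≤
          N * EI) ∧
      er + dl + EI ≤ CK * (sh (bC R0 s0 (fo L u) e ν c) Q + κ * a) +
        Cs * sh (dC b ε R s0 (fo L u) e) Q ∧
      er ^ 2 / ab + dl ≤ CK * (κ * sh (bC R0 s0 (fo L u) e ν c) Q +
        sh (dC b ε R s0 (fo L u) e) Q) := by
  obtain ⟨J2, g2⟩ := hFR2 d V E L hd hL
  obtain ⟨J4, g4⟩ := hFR4 d V E L hd hL
  refine ⟨max 4 (max J2 J4), le_max_left _ _, ?_⟩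
  set J := max 4 (max J2 J4) with hJ
  have hJ2 : J2 ≤ J := (le_max_left _ _).trans (le_max_right _ _)
  have hJ4 : J4 ≤ J := (le_max_right _ _).trans (le_max_right _ _)
  intro M c0 b hb ε hε hε4 γ R0 hγ hγ1 hR0 K Cr hK hCr
  have hd1 : 1 ≤ d := by omega
  have hdR : (2 : ℝ) ≤ d := by exact_mod_cast hd
  have hε1 : ε ≤ 1 := by linarith
  have hb2 : BaseKer 2 M c0 b := hb.mono_order (by omega)
  have hb10 : BaseKer (J + 10) M c0 b := hb.mono_order (by omega)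
  have hR0' : 400 + 8 * (d : ℝ) ≤ R0 := by linarith
  have hR00 : 1 ≤ R0 := by linarith
  have hγ16 : γ ≤ 1 / (16 * d) := hγ1.trans (one_div_le_one_div_of_le (by positivity)
    (by linarith))
  have hγ25 : γ ≤ 2 / 5 := hγ1.trans (by
    rw [div_le_iff₀ (by positivity)]
    linarith)
  obtain ⟨Cf, κf, hCf, hκf, g2⟩ := g2 M c0 ε hε hε1 b hb2 R0 γ K hR0' hγ hγ16 hK
  obtain ⟨CF, hCF, gF⟩ := far_mass hMA hSC hd hε hε1 hb2 hR00
  set C2 : ℝ := max 1 Cf with hC2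
  set K4 : ℝ := max K C2 with hK4
  have hK41 : 1 ≤ K4 := hK.trans (le_max_left _ _)
  obtain ⟨C4, κ4, hC4, hκ4, g4⟩ := g4 J hJ4 M c0 ε hε hε1 b hb10 R0 γ K4 hR0' hγ hγ1 hK41
  refine ⟨C2, le_max_left _ _, ?_⟩
  intro κW hκW
  set κ0 : ℝ := min (min 1 κf) (min κ4 (min ((κW / (2 * Cf ^ 2)) ^ 2)
    (1 / (2 * (Cr * (Cf + CF)))))) with hκ0
  have hκ0p : 0 < κ0 := by
    refine lt_min (lt_min one_pos hκf) (lt_min hκ4 (lt_min (by positivity) (by positivity)))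
  have hκ01 : κ0 ≤ 1 := (min_le_left _ _).trans (min_le_left _ _)
  have hκ0f : κ0 ≤ κf := (min_le_left _ _).trans (min_le_right _ _)
  have hκ04 : κ0 ≤ κ4 := (min_le_right _ _).trans (min_le_left _ _)
  have hκ0W : κ0 ≤ (κW / (2 * Cf ^ 2)) ^ 2 :=
    (min_le_right _ _).trans ((min_le_right _ _).trans (min_le_left _ _))
  have hκ0r : κ0 ≤ 1 / (2 * (Cr * (Cf + CF))) :=
    (min_le_right _ _).trans ((min_le_right _ _).trans (min_le_right _ _))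
  have hsW : 2 * Cf ^ 2 * Real.sqrt κ0 ≤ κW := by
    have h3 : Real.sqrt κ0 ≤ κW / (2 * Cf ^ 2) := by
      rw [Real.sqrt_le_left (by positivity)]
      exact hκ0W
    have h4 := mul_le_mul_of_nonneg_left h3 (by positivity : 0 ≤ 2 * Cf ^ 2)
    refine h4.trans (le_of_eq ?_)
    field_simp
  refine ⟨(Cf + C4 * (1 + 2 * Cf) + 2 * C4 / κ4) + (4 * Cf ^ 3 + Cf), κ0, by positivity, hκ0p, ?_⟩
  intro κm hκm
  obtain ⟨Im, gI⟩ := scales hκ4 hκm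
  refine ⟨2 ^ Im, one_le_pow₀ (by norm_num), ?_⟩
  intro RN hRN
  have hex : ∀ I : ℕ, ∃ (Rm C1 : ℝ), 0 < C1 ∧ (I ≤ Im → 
      ∀ R : ℝ, Rm ≤ R → ∀ u : Sp d → V, TF u → ∀ s0 : ℝ, 0 < s0 →
      ∀ e : Cell d → E, Dirs b ε R s0 (fo L u) e →
      ∀ (ν : Cell d → Sp d) (c : Cell d → ℝ), Plns R0 s0 (fo L u) e ν c →
      ∀ (Q : Cell d) (a : ℝ), 0 < a → a = mC b ε (64 * R0) s0 (fo L u) Q →
        (∀ i : ℕ, mT b ε s0 (fo L u) (up i Q) ≤ K4 * (2 : ℝ) ^ (γ * i) * a) →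
        (2 : ℝ) ^ ((3 / 5 : ℝ) * I) * bsh b ε R0 R s0 (fo L u) e ν c Q ≤ κ4 * a →
      ∀ (n : Sp d) (s ab ep D : ℝ), 0 ≤ D → a ≤ K4 * ab → ab ≤ K4 * a → |s| ≤ 64 * R0 + 4 →
        Sheet J (64 * R0) ab ep D (mQ s0 (fo L u) (e Q) Q) n s →
      ∀ (Y : Fin d → Fin d → Sp d → ℝ) (N : ℝ), (∀ i j, TFn (J + 6) N (Y i j)) →
        (∀ i j y, (d : ℝ) ≤ ‖y‖ → Y i j y = 0) →
        |∫ y, mQ s0 (fo L u) (e Q) Q y * ((∑ i, ∑ j, n i * n j * Y i j y) - nt b RN Y y)| ≤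
          C4 * N * (bsh b ε R0 R s0 (fo L u) e ν c Q +
              Real.sqrt (a * dsh b ε R s0 (fo L u) e Q) + ep +
              max 0 (blc n s (mQ s0 (fo L u) (e Q) Q) (64 * R0)) + D)
            + C4 * N * (2 : ℝ) ^ (-(I : ℝ) * (1 - γ)) * a
            + C1 * N * dsh b ε R s0 (fo L u) e Q) := by
    intro I
    by_cases hI : I ≤ Im
    · obtain ⟨Rm, C1, hC1, g⟩ := g4 I RN ((pow_le_pow_right₀ (by norm_num) hI).trans hRN)
      exact ⟨Rm, C1, hC1, fun _ => g⟩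
    · exact ⟨0, 1, one_pos, fun h => absurd h hI⟩
  choose Rm C1 hC1 g4' using hex
  set Cm : ℝ := ∑ I ∈ Finset.range (Im + 1), C1 I with hCm
  set RM : ℝ := ∑ I ∈ Finset.range (Im + 1), |Rm I| with hRM
  have hCm' : ∀ I ≤ Im, C1 I ≤ Cm := fun I hI =>
    Finset.single_le_sum (f := C1) (fun i _ => (hC1 i).le) (Finset.mem_range.2 (by omega))
  have hRM' : ∀ I ≤ Im, Rm I ≤ RM := fun I hI => (le_abs_self _).trans
    (Finset.single_le_sum (f := fun I => |Rm I|) (fun i _ => abs_nonneg _)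
      (Finset.mem_range.2 (by omega)))
  have hCm0 : 0 ≤ Cm := Finset.sum_nonneg fun i _ => (hC1 i).le
  refine ⟨max RM (300 * R0), (Cf + C4 * (1 + Cf)) * (1 + 1 / κm) + Cf + 2 * C4 * Cf + Cm,
    by positivity, ?_⟩
  intro R hR u hu s0 h e he ν c hν κ hκ1 hκ2 Q a ha haQ hgr hty
  have hR1 : RM ≤ R := (le_max_left _ _).trans hR
  have hR2 : 300 * R0 ≤ R := (le_max_right _ _).trans hR
  have hκ : 0 < κ := hκm.trans_le hκ1
  have hf := foc L hu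
  have hc := fos L hu
  -- the budgets
  obtain ⟨C02, hC02, g02⟩ := h2 d hd1 M c0 ε R hε hε1 (by linarith) b hb2
  obtain ⟨hD0, ⟨B1, hB1⟩, -⟩ := g02 E (fo L u) hf hc s0 h e he
  obtain ⟨C5, hC5, g5⟩ := h5 d hd1 M c0 ε hε hε1 b hb2 R0 0 (by linarith)
  obtain ⟨g51, -, -, -, -⟩ := g5 E R (by linarith) (fo L u) hf hc s0 h e he ν c hν
  have hb0 : ∀ Q, 0 ≤ bC R0 s0 (fo L u) e ν c Q := fun Q => (g51 Q).2.1
  obtain ⟨B2, hB2⟩ := bC_bdd h4 hd1 hε hε1 hb2 (R0 := R0) (by linarith) hf hc h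
    (F := bC R0 s0 (fo L u) e ν c) hC5.le hB1 (fun Q => (g51 Q).2.2)
  set S := sh (bC R0 s0 (fo L u) e ν c) Q with hS
  set D := sh (dC b ε R s0 (fo L u) e) Q with hD
  have hS0 : 0 ≤ S := sh_nonneg hb0 Q
  have hDD0 : 0 ≤ D := sh_nonneg hD0 Q
  have hBe : bsh b ε R0 R s0 (fo L u) e ν c Q = S + D := by
    have h3 : bsh b ε R0 R s0 (fo L u) e ν c Q =
      ∑' i : ℕ, ((2 : ℝ) ^ (-((i : ℝ) / 4)) * bC R0 s0 (fo L u) e ν c (up i Q) +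
        (2 : ℝ) ^ (-((i : ℝ) / 4)) * dC b ε R s0 (fo L u) e (up i Q)) := by
      unfold bsh sh
      congr 1
      funext i
      ring
    rw [h3, (sh_summable hb0 hB2 Q).tsum_add (sh_summable hD0 hB1 Q)]
    rfl
  have hDe : dsh b ε R s0 (fo L u) e Q = D := rfl
  have hDQ : dC b ε R s0 (fo L u) e Q ≤ D := by
    have h3 := le_sh hD0 hB1 Q 0
    rw [up_zero] at h3
    simpa using h3
  have hBκ : bsh b ε R0 R s0 (fo L u) e ν c Q ≤ κ * a := by rw [hBe]; exact hty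
  obtain ⟨n, s, ab, hn, hs, hab1, hab2, hbl, hSh⟩ := g2 R hR2 u hu s0 h e he ν c hν Q a ha haQ
    hgr (hBκ.trans (mul_le_mul_of_nonneg_right (hκ2.trans hκ0f) ha.le))
  have hab0 := hSh.ab0
  rw [hBe, hDe] at hSh
  rw [hBe] at hbl hBκ
  have hSh' := sheet_mono hSh hJ2 le_rfl
  obtain ⟨n1, n2, n3⟩ := num1 hCf hκ hκ2 hκ01 hsW ha hab0 hab1 hS0 hDD0 rfl hBκ
  obtain ⟨I, hI, hI1, hI2⟩ := gI κ hκ1 (hκ2.trans hκ04) γ hγ25
  set er := Cf * (S + D + Real.sqrt (a * D)) with her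
  set dl := Cf * D with hdl
  set bl := max 0 (blc n s (mQ s0 (fo L u) (e Q) Q) (64 * R0)) with hbl'
  have hbl0 : 0 ≤ bl := le_max_left _ _
  have hsq := Real.sqrt_nonneg (a * D)
  have her0 : 0 ≤ er := by positivity
  have hble : blc n s (mQ s0 (fo L u) (e Q) Q) (64 * R0) ≤ er := by
    refine (le_max_right _ _).trans (hbl.trans ?_)
    exact mul_le_mul_of_nonneg_left (by linarith) hCf.le
  have hgr4 : ∀ i : ℕ, mT b ε s0 (fo L u) (up i Q) ≤ K4 * (2 : ℝ) ^ (γ * i) * a := fun i =>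
    (hgr i).trans (mul_le_mul_of_nonneg_right (mul_le_mul_of_nonneg_right (le_max_left _ _)
      (by positivity)) ha.le)
  have hC2K : C2 ≤ K4 := le_max_right _ _
  have hfC : Cf ≤ C2 := le_max_right _ _
  refine ⟨n, s, ab, er, dl, C4 * (S + D + Real.sqrt (a * D) + er + bl + dl) +
    C4 * (2 : ℝ) ^ (-(I : ℝ) * (1 - γ)) * a + C1 I * D, hn, hSh', hble, hs, by positivity,
    n1, n2, hab1.trans (mul_le_mul_of_nonneg_right hfC hab0.le),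
    hab2.trans (mul_le_mul_of_nonneg_right hfC ha.le), ?_, ?_, ?_, ?_, ?_⟩
  · intro hah
    by_contra hcon
    have h3 := gF E R (by linarith) (fo L u) hf hc s0 h e he.unit Q n s hn (not_le.1 hcon) hs
    have h4 : mC b ε (32 * R0) s0 (fo L u) Q ≤ (Cf + CF) * (κ * a) := by
      have h5 := (le_max_right 0 _).trans hbl
      have h6 := mul_le_mul_of_nonneg_left hBκ hCf.le
      have h7 : D ≤ κ * a := by linarith
      have h8 := mul_le_mul_of_nonneg_left (hDQ.trans h7) hCF.le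
      linarith
    have h5 := hah.trans (mul_le_mul_of_nonneg_left h4 (by linarith : 0 ≤ Cr))
    have h6 : Cr * ((Cf + CF) * (κ * a)) ≤ 1 / 2 * a := by
      have h7 := mul_le_mul_of_nonneg_left (hκ2.trans hκ0r)
        (by positivity : 0 ≤ Cr * (Cf + CF))
      have h8 : Cr * (Cf + CF) * (1 / (2 * (Cr * (Cf + CF)))) = 1 / 2 := by
        have : Cr * (Cf + CF) ≠ 0 := by positivity
        field_simp
      rw [h8] at h7
      have h9 := mul_le_mul_of_nonneg_right h7 ha.le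
      linarith [h9, show Cr * ((Cf + CF) * (κ * a)) = Cr * (Cf + CF) * κ * a by ring]
    linarith
  · have := hC1 I
    positivity
  · intro Y N hY hYs
    have h3 := g4' I hI R ((hRM' I hI).trans hR1) u hu s0 h e he ν c hν Q a ha haQ hgr4
      (by
        rw [hBe]
        have h5 := mul_le_mul_of_nonneg_left hBκ
          (by positivity : 0 ≤ (2 : ℝ) ^ ((3 / 5 : ℝ) * (I : ℝ)))
        have h6 := mul_le_mul_of_nonneg_right hI1 ha.le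
        linarith) n s ab er dl (by positivity)
      (hab1.trans (mul_le_mul_of_nonneg_right (hfC.trans hC2K) hab0.le))
      (hab2.trans (mul_le_mul_of_nonneg_right (hfC.trans hC2K) ha.le)) hs hSh' Y N hY hYs
    rw [hBe, hDe] at h3
    refine h3.trans (le_of_eq ?_)
    ring
  · have h3 := num2 (C1 := C1 I) (Cm := Cm) (bl := bl) hCf hC4 hκ4 hκm hκ1 (hCm' I hI) ha hS0
      hDD0 rfl her hdl hbl hI2
    have h4 : 0 ≤ (4 * Cf ^ 3 + Cf) * (S + κ * a) := by positivity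
    linarith
  · have h4 : 0 ≤ (Cf + C4 * (1 + 2 * Cf) + 2 * C4 / κ4) * (κ * S + D) := by positivity
    linarith

end

end WDm

end TG
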