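import Pool.Agent.TG.Stmts18
import Pool.Agent.TG.CS2
import Pool.Agent.TG.CT1
import Pool.Agent.TG.CT4
import Pool.Agent.TG.CT6
import Pool.Agent.TG.SA2
import Pool.Agent.TG.WA

/-!
# MODULE WF: the sum of the values of the cells is finite   (helper7)
-/

open MeasureTheory Metric Set TrI Filter
open scoped InnerProductSpace ContDiff Topology ENNReal

set_option linter.unusedSectionVars false

namespace TG

noncomputable section

namespace WFm

variable {d : ℕ} {E : Type} [NormedAddCommGroup E] [InnerProductSpace ℝ E]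
  [FiniteDimensional ℝ E]

/-! ## localisation of the masses -/

lemma lev_succ' (s0 : ℝ) (i : ℕ) : lev s0 (i + 1) = 2 * lev s0 i := by
  unfold lev
  rw [pow_succ]
  ring

lemma fl_far {M c0 : ℝ} {b : Sp d → ℝ} (hb : BaseKer 2 M c0 b) {ε s0 : ℝ} (hε0 : 0 < ε)
    (hε : ε ≤ 1) (hs : 0 < s0) {f : Sp d → E} {B : ℝ} (hB : ∀ y, B ≤ ‖y‖ → f y = 0) (i : ℕ) :
    ∀ y, B + 2 * lev s0 i ≤ ‖y‖ → fl b ε s0 f i y = 0 := by
  induction i with
  | zero =>
    intro y hy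
    refine hB y ?_
    have := CS2.lev_pos hs 0
    linarith
  | succ i ih =>
    intro y hy
    have hl := CS2.lev_pos hs (i + 1)
    have hl' := CS2.lev_pos hs i
    have h2 := lev_succ' s0 i
    have hz : ∀ z : Sp d, ‖z - y‖ ≤ lev s0 (i + 1) → fl b ε s0 f i z = 0 := by
      intro z hz
      refine ih z ?_
      have h3 : ‖y‖ ≤ ‖z‖ + ‖z - y‖ := by
        have := norm_sub_norm_le y z
        rw [norm_sub_rev] at this
        linarith
      linarith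
    show avk b (ε * lev s0 (i + 1)) (fl b ε s0 f i) y = 0
    unfold avk
    have h1 : (fun z => b z • fl b ε s0 f i (y + (ε * lev s0 (i + 1)) • z)) = fun _ => 0 := by
      funext z
      by_cases h : 1 / 2 ≤ ‖z‖
      · rw [hb.supp z h, zero_smul]
      · push Not at h
        rw [hz, smul_zero]
        rw [add_sub_cancel_left, norm_smul, Real.norm_eq_abs, abs_of_pos (by positivity)]
        nlinarith [norm_nonneg z, mul_pos hε0 hl]
    rw [h1, integral_zero]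

lemma mC_far {M c0 : ℝ} {b : Sp d → ℝ} (hb : BaseKer 2 M c0 b) {ε s0 : ℝ} (hε0 : 0 < ε)
    (hε : ε ≤ 1) (hs : 0 < s0) {f : Sp d → E} {B : ℝ} (hB : ∀ y, B ≤ ‖y‖ → f y = 0) {R : ℝ}
    (Q : Cell d) (hQ : B + (R + 2) * lev s0 Q.1 ≤ ‖xC s0 Q‖) : mC b ε R s0 f Q = 0 := by
  have hl := CS2.lev_pos hs Q.1
  have hle : lev s0 (Q.1 - 1) ≤ lev s0 Q.1 := by
    unfold lev
    refine mul_le_mul_of_nonneg_left ?_ hs.le
    exact pow_le_pow_right₀ (by norm_num) (by omega)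
  unfold mC ma
  have h1 : ∫ y in ball (xC s0 Q) (R * lev s0 Q.1), ‖fl b ε s0 f (Q.1 - 1) y‖ = 0 := by
    rw [setIntegral_congr_fun (g := fun _ => (0 : ℝ)) measurableSet_ball]
    · simp
    · intro y hy
      rw [mem_ball, dist_eq_norm] at hy
      have h3 : ‖xC s0 Q‖ ≤ ‖y‖ + ‖y - xC s0 Q‖ := by
        have := norm_sub_norm_le (xC s0 Q) y
        rw [norm_sub_rev] at this
        linarith
      show ‖fl b ε s0 f (Q.1 - 1) y‖ = 0
      rw [fl_far hb hε0 hε hs hB (Q.1 - 1) y (by linarith), norm_zero]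
  rw [h1, mul_zero]

/-! ## the main contribution -/

open CS2 in
/-- the main contribution of a cell: bound and localisation -/
lemma gam_bd (hd : 2 ≤ d) {M c0 C' : ℝ} (hC' : 0 < C') {X : Prm d} (hX : PrmOK M c0 X) :
    ∃ K : ℝ, 0 ≤ K ∧ ∀ (E : Type) [NormedAddCommGroup E] [InnerProductSpace ℝ E]
      [FiniteDimensional ℝ E] (f : Sp d → E), Continuous f → HasCompactSupport f →
      ∀ μ : Measure (Sp d), Gro C' μ → ∀ s0 : ℝ, 0 < s0 → ∀ (e : Cell d → E) (kd : Cell d → ℕ)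
      (nv : Cell d → Sp d) (Q : Cell d), ‖e Q‖ = 1 → ‖nv Q‖ = 1 →
      |Gam X s0 μ f e kd nv Q| ≤ K * (nw s0 Q * (∫ y, ‖f y‖)) * omC μ s0 Q ∧
      ∀ B : ℝ, (∀ y, B ≤ ‖y‖ → f y = 0) → B + (d + X.RN) * lev s0 Q.1 < ‖xC s0 Q‖ →
        Gam X s0 μ f e kd nv Q = 0 := by
  have hε0 := hX.ε_pos
  have hε : X.ε ≤ 1 := by linarith [hX.ε_le]
  have hA : 0 < X.A := by linarith [hX.A_ge]
  have hR : 0 ≤ X.RN := by linarith [hX.RN_ge]
  have hb : BaseKer 2 M c0 X.b := PTm.base_mono (by omega) hX.ker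
  have G1 := (good1 (M := M) (p0 := X.p0) hd hC' hε0 hε hA).mono (ρ' := d + X.RN) (by linarith)
  have G2 := good2 (M := M) (p0 := X.p0) hd hC' hε0 hε hA hb hR
  have G4 := (good4 (M := M) hd hC' hε0 hε hA).mono (ρ' := d + X.RN) (by linarith)
  have G3 := good_av hb hR (good4 (M := M) hd hC' hε0 hε hA)
  obtain ⟨K1, hK1, G1⟩ := G1
  obtain ⟨K2, hK2, G2⟩ := G2
  obtain ⟨K3, hK3, G3⟩ := G3
  obtain ⟨K4, hK4, G4⟩ := G4
  set K : ℝ := K1 + K2 + K3 + K4 with hK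
  have hK0 : 0 ≤ K := by positivity
  refine ⟨2 * K, by positivity, ?_⟩
  intro E _ _ _ f hf hc μ hμ s0 hs e kd nv Q he hn
  have ht := lev_pos hs Q.1
  have hSC := (stmtSC d hd C' hC' (xC s0 Q) (lev s0 Q.1) ht).1 μ hμ
  have hμQ : Gro C' (muQ s0 μ Q) := hSC.1
  have hvv : vv (muQ s0 μ Q) 1 0 = omC μ s0 Q := by
    have h1 := hSC.2.2.1 1 0 one_pos
    unfold muQ omC
    rw [h1, mul_one, smul_zero, add_zero]
  have hβ : Kit 4 M (bQ X.b Q) := PTm.kit_mono (by omega) (hX.ker.kit (Q.1 - 2))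
  have hv0 : 0 ≤ omC μ s0 Q := Real.sqrt_nonneg _
  have hI0 : 0 ≤ ∫ y, ‖f y‖ := integral_nonneg fun _ => norm_nonneg _
  have hnw : 0 ≤ nw s0 Q := by unfold nw; positivity
  let ix : Ix d M C' := (⟨bQ X.b Q, muQ s0 μ Q, nv Q, hβ, hμQ, hn⟩, 0)
  set T : ℝ := nw s0 Q * (∫ y, ‖f y‖) * (K * omC μ s0 Q) with hT
  have hT0 : 0 ≤ T := by positivity
  set Z : Prop := ∃ B : ℝ, (∀ y, B ≤ ‖y‖ → f y = 0) ∧
    B + (d + X.RN) * lev s0 Q.1 < ‖xC s0 Q‖ with hZ
  have pr : ∀ (ζ : Sp d → ℝ) (K' : ℝ), K' ≤ K →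
      ((∀ y, |ζ y| ≤ K' * vv (muQ s0 μ Q) 1 0) ∧ ∀ y, d + X.RN ≤ ‖y‖ → ζ y = 0) →
      Pz T Z 1 (∫ y, mQ s0 f (e Q) Q y * ζ y) := by
    intro ζ K' hK' hζ
    refine ⟨?_, ?_⟩
    · rw [one_mul]
      refine pair_le hs hf hc he Q fun y => (hζ.1 y).trans ?_
      rw [hvv]
      exact mul_le_mul_of_nonneg_right hK' hv0
    · rintro ⟨B, hB, hx⟩
      exact pair_zero hs (e Q) Q hB hx hζ.2
  have k1 : K1 ≤ K := by rw [hK]; linarith
  have k2 : K2 ≤ K := by rw [hK]; linarith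
  have k3 : K3 ≤ K := by rw [hK]; linarith
  have k4 : K4 ≤ K := by rw [hK]; linarith
  have pG : Pz T Z (1 + 1) (Gam X s0 μ f e kd nv Q) := by
    unfold Gam
    split_ifs with h0 h1
    · exact (pr _ K1 k1 (G1 ix)).mono hT0 (by norm_num)
    · exact (pr _ K2 k2 (G2 ix)).add (pr _ K3 k3 (G3 ix))
    · exact (pr _ K4 k4 (G4 ix)).mono hT0 (by norm_num)
  refine ⟨?_, fun B hB hx => pG.2 ⟨B, hB, hx⟩⟩
  refine pG.1.trans (le_of_eq ?_)
  rw [hT]
  ring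

/-! ## the sheet gain -/

lemma sg_bd (hd : 2 ≤ d) {M c0 C' : ℝ} (hC' : 0 < C') {X : Prm d} (hX : PrmOK M c0 X) :
    ∃ K : ℝ, 0 ≤ K ∧ ∀ μ : Measure (Sp d), Gro C' μ → ∀ s0 : ℝ, 0 < s0 →
      ∀ (Q : Cell d) (n : Sp d) (s : ℝ), ‖n‖ = 1 →
      0 ≤ plInt n s (fun x => chi x * XX (bQ X.b Q) X.ε (muQ s0 μ Q) n 1 x) ∧
      plInt n s (fun x => chi x * XX (bQ X.b Q) X.ε (muQ s0 μ Q) n 1 x) ≤ K * omC μ s0 Q := by
  have hε0 := hX.ε_pos
  have hε : X.ε ≤ 1 := by linarith [hX.ε_le]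
  obtain ⟨C1, hC1, h1⟩ := stmtWA stmtTH d 0 hd M C' X.ε hC' hε0 hε
  obtain ⟨C2, hC2, h2⟩ := SAm.plInt_bound (d := d) (by omega) (d : ℝ)
  refine ⟨C2 * (C1 * (1 + d) ^ d), by positivity, ?_⟩
  intro μ hμ s0 hs Q n s hn
  have ht := CS2.lev_pos hs Q.1
  have hSC := (stmtSC d hd C' hC' (xC s0 Q) (lev s0 Q.1) ht).1 μ hμ
  have hμQ : Gro C' (muQ s0 μ Q) := hSC.1
  have hvv : vv (muQ s0 μ Q) 1 0 = omC μ s0 Q := by
    have h1 := hSC.2.2.1 1 0 one_pos
    unfold muQ omC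
    rw [h1, mul_one, smul_zero, add_zero]
  have hv0 : 0 ≤ omC μ s0 Q := Real.sqrt_nonneg _
  have hβ : Kit (0 + 4) M (bQ X.b Q) := PTm.kit_mono (by omega) (hX.ker.kit (Q.1 - 2))
  obtain ⟨-, -, -, -, h3⟩ := h1 (bQ X.b Q) hβ (muQ s0 μ Q) hμQ
  obtain ⟨-, h4, h5, -⟩ := h3 n hn
  refine ⟨SAm.plInt_nonneg n s fun y => mul_nonneg (PTm.chi_nonneg _) (h4 y), ?_⟩
  have h6 := h2 n hn (fun x => chi x * XX (bQ X.b Q) X.ε (muQ s0 μ Q) n 1 x) s
    (C1 * (1 + d) ^ d * omC μ s0 Q) (by positivity) (fun y _ => ?_) (fun y _ hy => ?_)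
  · refine (le_abs_self _).trans (h6.trans (le_of_eq (by ring)))
  · by_cases hy : (d : ℝ) ≤ ‖y‖
    · rw [PTm.chi_supp hy (by omega), zero_mul, abs_zero]
      positivity
    · push Not at hy
      rw [abs_mul, abs_of_nonneg (PTm.chi_nonneg y), abs_of_nonneg (h4 y)]
      have h7 : XX (bQ X.b Q) X.ε (muQ s0 μ Q) n 1 y ≤ C1 * vv (muQ s0 μ Q) 1 y := by
        have := h5 0 le_rfl y
        rw [norm_iteratedFDeriv_zero, Real.norm_eq_abs, abs_of_nonneg (h4 y)] at this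
        exact this
      have h8 := CS2.vv_grow hd hC' hμQ y
      have h9 : (1 + ‖y‖) ^ d ≤ (1 + (d : ℝ)) ^ d :=
        pow_le_pow_left₀ (by positivity) (by linarith) d
      have h10 : vv (muQ s0 μ Q) 1 y ≤ (1 + (d : ℝ)) ^ d * omC μ s0 Q := by
        rw [← hvv]
        refine h8.trans (mul_le_mul_of_nonneg_right h9 (Real.sqrt_nonneg _))
      have h11 : chi y * XX (bQ X.b Q) X.ε (muQ s0 μ Q) n 1 y ≤
          1 * XX (bQ X.b Q) X.ε (muQ s0 μ Q) n 1 y :=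
        mul_le_mul_of_nonneg_right (PTm.chi_le_one y) (h4 y)
      calc chi y * XX (bQ X.b Q) X.ε (muQ s0 μ Q) n 1 y
          ≤ 1 * XX (bQ X.b Q) X.ε (muQ s0 μ Q) n 1 y := h11
        _ ≤ C1 * vv (muQ s0 μ Q) 1 y := by rw [one_mul]; exact h7
        _ ≤ C1 * ((1 + (d : ℝ)) ^ d * omC μ s0 Q) := mul_le_mul_of_nonneg_left h10 hC1.le
        _ = _ := by ring
  · have hy' : ‖y‖ < d := by
      by_contra hcon
      push Not at hcon
      exact hy (by rw [PTm.chi_supp hcon (by omega), zero_mul])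
    exact (PF.norm_tang_le hn y).trans hy'.le

end WFm

open WFm in
theorem stmtWF : StmtWF := by
  intro d hd M c0 C' R B hC' hR X hX E _ _ _ W hWX hs hμ hf hc he hn hab hkd
  obtain ⟨K1, hK1, g1⟩ := gam_bd (M := M) (c0 := c0) hd hC' hX
  obtain ⟨K2, hK2, g2⟩ := sg_bd (M := M) (c0 := c0) hd hC' hX
  obtain ⟨B0, hB0, hfB⟩ : ∃ B0 : ℝ, 0 ≤ B0 ∧ ∀ y, B0 ≤ ‖y‖ → W.f y = 0 := by
    obtain ⟨r, hr⟩ := hc.isCompact.isBounded.exists_norm_le
    refine ⟨max r 0 + 1, by positivity, fun y hy => ?_⟩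
    by_contra hne
    have h1 := hr y (subset_tsupport _ hne)
    linarith [le_max_left r 0]
  have hb : BaseKer 2 M c0 X.b := PTm.base_mono (by omega) hX.ker
  have hε0 := hX.ε_pos
  have hε : X.ε ≤ 1 := by linarith [hX.ε_le]
  have hRN : 0 ≤ X.RN := by linarith [hX.RN_ge]
  set I : ℝ := ∫ y, ‖W.f y‖ with hI
  have hI0 : 0 ≤ I := integral_nonneg fun _ => norm_nonneg _
  have hv0 : ∀ Q : Cell d, 0 ≤ omC W.μ W.s0 Q := fun Q => Real.sqrt_nonneg _
  have hnw : ∀ Q : Cell d, 0 ≤ nw W.s0 Q := fun Q => by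
    have := CS2.lev_pos hs Q.1
    unfold nw
    positivity
  -- the gain
  have hsg0 : ∀ Q, 0 ≤ W.sg Q := by
    intro Q
    unfold Wld.sg Wld.be Wld.mu
    rw [hWX]
    exact mul_nonneg (hab Q) (g2 W.μ hμ W.s0 hs Q (W.nv Q) (W.sv Q) (hn Q)).1
  have hsg : ∀ Q, W.kd Q = 0 → W.sg Q ≤
      (B * ((1 + R) ^ (d + 2) * (nw W.s0 Q * I))) * (K2 * omC W.μ W.s0 Q) := by
    intro Q h0
    obtain ⟨h1, h2, h3⟩ := hkd Q h0
    have hB : 0 ≤ B := (abs_nonneg _).trans h3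
    have h4 := CT1.mC_le_mT hb.ak (ε := X.ε) (R := R) (by linarith) hs hf hc Q
    have h5 := CT4.mT_le_nw hb.ak X.ε hs hf hc Q
    have h6 : W.ab Q ≤ B * ((1 + R) ^ (d + 2) * (nw W.s0 Q * I)) := by
      refine h2.trans (mul_le_mul_of_nonneg_left (h4.trans ?_) hB)
      exact mul_le_mul_of_nonneg_left h5 (by positivity)
    have h7 := (g2 W.μ hμ W.s0 hs Q (W.nv Q) (W.sv Q) (hn Q))
    unfold Wld.sg Wld.be Wld.mu
    rw [hWX]
    exact mul_le_mul h6 h7.2 h7.1 ((hab Q).trans h6)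
  have hbl : ∀ Q, W.kd Q = 0 → max 0 (W.bl Q) ≤
      omC W.μ W.s0 Q * (nw W.s0 Q * I * (d + B) ^ 2) := by
    intro Q h0
    obtain ⟨-, -, h3⟩ := hkd Q h0
    have hB : 0 ≤ B := (abs_nonneg _).trans h3
    have h4 : |∫ y, mQ W.s0 W.f (W.e Q) Q y * (chi y * hgt (W.nv Q) (W.sv Q) y ^ 2)| ≤
        nw W.s0 Q * I * (d + B) ^ 2 := by
      refine CS2.pair_le hs hf hc (he Q) Q fun y => ?_
      by_cases hy : (d : ℝ) ≤ ‖y‖
      · rw [PTm.chi_supp hy (by omega), zero_mul, abs_zero]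
        positivity
      · push Not at hy
        have h5 : |hgt (W.nv Q) (W.sv Q) y| ≤ d + B := by
          unfold hgt
          refine (abs_sub _ _).trans ?_
          have h6 : |⟪W.nv Q, y⟫_ℝ| ≤ ‖y‖ := by
            refine (abs_real_inner_le_norm _ _).trans ?_
            rw [hn, one_mul]
          linarith
        rw [abs_mul, abs_of_nonneg (PTm.chi_nonneg y), abs_pow]
        have h7 := PTm.chi_le_one y
        have h8 : |hgt (W.nv Q) (W.sv Q) y| ^ 2 ≤ (d + B) ^ 2 :=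
          pow_le_pow_left₀ (abs_nonneg _) h5 2
        have h9 : 0 ≤ |hgt (W.nv Q) (W.sv Q) y| ^ 2 := by positivity
        nlinarith [PTm.chi_nonneg y]
    refine max_le (mul_nonneg (hv0 Q) (by have := hnw Q; positivity)) ?_
    unfold Wld.bl Wld.v Wld.m
    exact mul_le_mul_of_nonneg_left ((le_abs_self _).trans h4) (hv0 Q)
  have hgam : ∀ Q, max 0 (W.gam Q) ≤ K1 * (nw W.s0 Q * I) * omC W.μ W.s0 Q := by
    intro Q
    have h1 := (g1 E W.f hf hc W.μ hμ W.s0 hs W.e W.kd W.nv Q (he Q) (hn Q)).1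
    refine max_le ?_ ?_
    · exact (abs_nonneg _).trans h1
    · unfold Wld.gam
      rw [hWX]
      exact (le_abs_self _).trans h1
  have hval0 : ∀ Q, 0 ≤ W.val Q := by
    intro Q
    unfold Wld.val
    split_ifs
    · exact add_nonneg (hsg0 Q) (le_max_left _ _)
    · exact le_rfl
    · exact le_max_left _ _
  set B1 : ℝ := |B| * (1 + R) ^ (d + 2) * I * K2 + I * (d + |B|) ^ 2 + K1 * I with hB1
  have hB10 : 0 ≤ B1 := by positivity
  have hval : ∀ Q, W.val Q ≤ B1 * nw W.s0 Q * omC W.μ W.s0 Q := by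
    intro Q
    have p1 := hnw Q
    have p2 := hv0 Q
    have q1 : 0 ≤ |B| * (1 + R) ^ (d + 2) * I * K2 * (nw W.s0 Q * omC W.μ W.s0 Q) := by positivity
    have q2 : 0 ≤ I * (d + |B|) ^ 2 * (nw W.s0 Q * omC W.μ W.s0 Q) := by positivity
    have q3 : 0 ≤ K1 * I * (nw W.s0 Q * omC W.μ W.s0 Q) := by positivity
    have hexp : B1 * nw W.s0 Q * omC W.μ W.s0 Q =
        |B| * (1 + R) ^ (d + 2) * I * K2 * (nw W.s0 Q * omC W.μ W.s0 Q) +
          I * (d + |B|) ^ 2 * (nw W.s0 Q * omC W.μ W.s0 Q) +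
            K1 * I * (nw W.s0 Q * omC W.μ W.s0 Q) := by
      rw [hB1]
      ring
    rw [hexp]
    unfold Wld.val
    split_ifs with h1 h2
    · have hB : 0 ≤ B := (abs_nonneg _).trans (hkd Q h1.2).2.2
      have e1 := hsg Q h1.2
      have e2 := hbl Q h1.2
      have e3 : |B| = B := abs_of_nonneg hB
      have e4 : (B * ((1 + R) ^ (d + 2) * (nw W.s0 Q * I))) * (K2 * omC W.μ W.s0 Q) =
          |B| * (1 + R) ^ (d + 2) * I * K2 * (nw W.s0 Q * omC W.μ W.s0 Q) := by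
        rw [e3]
        ring
      have e5 : omC W.μ W.s0 Q * (nw W.s0 Q * I * (d + B) ^ 2) =
          I * (d + |B|) ^ 2 * (nw W.s0 Q * omC W.μ W.s0 Q) := by
        rw [e3]
        ring
      rw [e4] at e1
      rw [e5] at e2
      linarith
    · linarith
    · have e1 := hgam Q
      have e2 : K1 * (nw W.s0 Q * I) * omC W.μ W.s0 Q =
          K1 * I * (nw W.s0 Q * omC W.μ W.s0 Q) := by ring
      rw [e2] at e1
      linarith
  have hloc : ∀ Q, W.val Q ≠ 0 → ‖xC W.s0 Q‖ ≤ (B0 + (R + 2) + (d + X.RN)) * (1 + lev W.s0 Q.1) := by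
    intro Q hQ
    have hl := CS2.lev_pos hs Q.1
    have hd0 : (0 : ℝ) ≤ d := Nat.cast_nonneg d
    have e1 : 0 ≤ B0 * lev W.s0 Q.1 := by positivity
    have e2 : 0 ≤ (d + X.RN) * lev W.s0 Q.1 := by positivity
    have e3 : 0 ≤ (R + 2) * lev W.s0 Q.1 := by positivity
    by_contra hcon
    push Not at hcon
    have hgz : W.gam Q = 0 := by
      unfold Wld.gam
      rw [hWX]
      refine (g1 E W.f hf hc W.μ hμ W.s0 hs W.e W.kd W.nv Q (he Q) (hn Q)).2 B0 hfB ?_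
      linarith
    refine hQ ?_
    unfold Wld.val
    split_ifs with h1 h2
    · exfalso
      have h2 := (hkd Q h1.2).1
      rw [mC_far hb hε0 hε hs hfB Q (by linarith)] at h2
      exact lt_irrefl _ h2
    · rfl
    · rw [hgz, max_self]
  have h6 := (stmtCT6 d hd C' 1 hC' le_rfl W.μ hμ W.s0 hs
    (fun Q => W.val Q / omC W.μ W.s0 Q) B1 (B0 + (R + 2) + (d + X.RN)) hB10 (by positivity)
    (fun Q => div_nonneg (hval0 Q) (hv0 Q)) (fun Q => ?_) (fun Q hQ => ?_)).2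
  · refine lt_of_le_of_lt (le_of_eq ?_) h6
    unfold cs
    refine tsum_congr fun Q => ?_
    congr 1
    funext Q'
    show ENNReal.ofReal (cw W.s0 Q' * W.val Q') =
      ENNReal.ofReal (cw W.s0 Q' * (W.val Q' / omC W.μ W.s0 Q') * omC W.μ W.s0 Q')
    rcases (hv0 Q').eq_or_lt with h0 | h0
    · have h1 : W.val Q' = 0 := le_antisymm (by
        have := hval Q'
        rw [← h0, mul_zero] at this
        exact this) (hval0 Q')
      rw [h1]
      simp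
    · rw [mul_assoc, div_mul_cancel₀ _ h0.ne']
  · rcases (hv0 Q).eq_or_lt with h0 | h0
    · show W.val Q / omC W.μ W.s0 Q ≤ _
      rw [← h0, div_zero]
      exact mul_nonneg hB10 (hnw Q)
    · show W.val Q / omC W.μ W.s0 Q ≤ _
      rw [div_le_iff₀ h0]
      exact hval Q
  · refine hloc Q fun h0 => hQ ?_
    show W.val Q / omC W.μ W.s0 Q = 0
    rw [h0, zero_div]

end

end TG
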