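import Pool.Agent.TG.StmtsFin
import Pool.Agent.TG.FN2

/-!
# Trace inequality, general operators: module WH, the weights   (helper69)
-/

open MeasureTheory Metric Set TrI
open scoped InnerProductSpace ContDiff ENNReal

namespace TG

namespace WHm

noncomputable section

variable {d : ℕ}

lemma lev_pos {s0 : ℝ} (hs : 0 < s0) (i : ℕ) : 0 < lev s0 i := by
  unfold lev
  positivity

lemma lev_add (s0 : ℝ) (k i : ℕ) : lev s0 (k + i) = 2 ^ i * lev s0 k := by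
  unfold lev
  rw [pow_add]
  ring

lemma nst_sub_box (s0 r : ℝ) (J : ℕ) (Q : Cell d) : nst s0 r J Q ⊆ box J (⌈r⌉ + 1).toNat Q := by
  classical
  intro Q' hQ'
  unfold nst at hQ'
  rw [Finset.mem_filter, Finset.mem_biUnion] at hQ'
  obtain ⟨⟨i, hi, hm⟩, -⟩ := hQ'
  unfold box
  rw [Finset.mem_biUnion]
  refine ⟨i, hi, ?_⟩
  rw [Finset.mem_product, Fintype.mem_piFinset] at hm ⊢
  refine ⟨hm.1, fun j => ?_⟩
  have h1 := Finset.mem_Icc.1 (hm.2 j)
  have h2 := Int.self_le_toNat (⌈r⌉ + 1)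
  exact Finset.mem_Icc.2 ⟨by omega, by omega⟩

lemma card_box_le (J ρ : ℕ) (Q : Cell d) : (box J ρ Q).card ≤ (J + 1) * (2 * ρ + 1) ^ d := by
  classical
  unfold box
  refine Finset.card_biUnion_le_card_mul _ _ _ (fun i _ => ?_) |>.trans (by rw [Finset.card_range])
  rw [Finset.card_product, Finset.card_singleton, one_mul, Fintype.card_piFinset]
  simp only [Int.card_Icc]
  have : ∀ j : Fin d, (Q.2 j / 2 ^ i + (ρ : ℤ) + 1 - (Q.2 j / 2 ^ i - (ρ : ℤ))).toNat = 2 * ρ + 1 := by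
    intro j
    omega
  simp only [this, Finset.prod_const, Finset.card_univ, Fintype.card_fin]
  exact le_rfl

end

end WHm

open WHm FN in
theorem stmtWH (h7 : StmtCT7) (hNS : StmtNS) : StmtWH := by
  intro d hd C' p0 A R0 ρ JA hC' hp hp1 hA hR0 hρ
  have hd1 : 1 ≤ d := by omega
  have hdR : (1 : ℝ) ≤ d := by exact_mod_cast hd1
  have hR0p : 0 ≤ R0 := by linarith
  have hsd : Real.sqrt d ≤ d := by
    rw [Real.sqrt_le_left (by linarith)]
    nlinarith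
  have hρ1 : 1 ≤ ρ := by linarith
  obtain ⟨Ca, hCa, ga⟩ := h7 d hd C' p0 A 0 hC' hp hp1 hA le_rfl 0
  obtain ⟨Cb, hCb, gb⟩ := near_om h7 hNS hd hC' hp hp1 hA (R0 := R0 + d / 3) (by positivity) (JA + 9)
  have e3 : 3 * (R0 + d / 3) = 3 * R0 + d := by ring
  rw [e3] at gb
  set Cρ : ℝ := Real.sqrt (Ca * ρ ^ (d + 1)) with hCρ
  have hCρ0 : 0 ≤ Cρ := Real.sqrt_nonneg _
  set Cw : ℝ := 2 ^ ((JA + 9) * (d - 1)) with hCw
  have hCw0 : 0 < Cw := by positivity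
  refine ⟨1 + Ca + Cb + Cρ + Cw, (JA + 9 + 1) * (2 * (⌈3 * R0 + d⌉ + 1).toNat + 1) ^ d,
    (⌈3 * R0 + d⌉ + 1).toNat, by linarith, ?_⟩
  intro μ hμ s0 h
  haveI := hμ.fin
  obtain ⟨b1, b2, b3, b4⟩ := gb μ hμ s0 h ρ hρ
  have a1 := (ga μ hμ s0 h).1
  have a2 := (ga μ hμ s0 h).2.1
  have hv0 : ∀ Q : Cell d, 0 ≤ omC μ s0 Q := fun Q => (a1 Q).1.le
  have ho0 : ∀ Q : Cell d, 0 ≤ oC μ ρ s0 Q := oC_nonneg μ ρ s0
  have hmem : ∀ (r : ℝ), 0 ≤ r → ∀ (J : ℕ) (Q Q' : Cell d), Q' ∈ nst s0 r J Q ↔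
      ∃ i ≤ J, Q'.1 = Q.1 + i ∧ ‖xC s0 Q' - xC s0 Q‖ ≤ r * lev s0 Q'.1 := by
    intro r hr J Q Q'
    exact (hNS d hd1 s0 r h hr J Q).1 Q'
  have h3R : 0 ≤ 3 * R0 := by linarith
  have h3Rd : 0 ≤ 3 * R0 + d := by linarith
  have hbox : ∀ Q : Cell d, nst s0 (3 * R0 + d) (JA + 9) Q ⊆
      box (JA + 9) (⌈3 * R0 + d⌉ + 1).toNat Q := fun Q => nst_sub_box _ _ _ _
  refine ⟨?_, hbox, ?_⟩
  · refine
      { s0_pos := h
        v0 := hv0
        v1 := fun Q => (a1 Q).2.1.trans (by linarith)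
        oml0 := ho0
        ov := ?_
        vN := fun Q hQ => (b1 Q hQ).trans (mul_le_mul_of_nonneg_right (by linarith) (ho0 Q))
        vA := fun Q hQ Q' hQ' =>
          (b2 Q hQ Q' hQ').2.trans (mul_le_mul_of_nonneg_right (by linarith) (ho0 Q'))
        vnb := fun Q Q' hQ' =>
          (b4 Q Q' hQ').2.trans (mul_le_mul_of_nonneg_right (by linarith) (hv0 Q'))
        adj_ns := fun Q => (hNS d hd1 s0 (3 * R0) h h3R JA Q).2.2.2.2.2.2.2 (by linarith)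
        self := ?_
        ns_nb := ?_
        ns9 := ?_
        lvl := ?_
        cw2 := ?_
        card := ?_ }
    · intro Q
      have h1 := a2 Q ρ hρ1
      have h2 : oC μ ρ s0 Q ≤ Cρ * omC μ s0 Q := by
        have h3 : 0 ≤ Ca * ρ ^ (d + 1) := by positivity
        have h4 : (Cρ * omC μ s0 Q) ^ 2 = Ca * ρ ^ (d + 1) * omC μ s0 Q ^ 2 := by
          rw [mul_pow, hCρ, Real.sq_sqrt h3]
        rw [← h4] at h1
        exact (sq_le_sq₀ (ho0 Q) (mul_nonneg hCρ0 (hv0 Q))).1 h1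
      exact h2.trans (mul_le_mul_of_nonneg_right (by linarith) (hv0 Q))
    · intro Q
      rw [hmem _ h3R]
      refine ⟨0, Nat.zero_le _, rfl, ?_⟩
      rw [sub_self, norm_zero]
      exact mul_nonneg h3R (WHm.lev_pos h _).le
    · intro Q Q' hQ'
      rw [hmem _ h3R] at hQ'
      rw [hmem _ h3Rd]
      obtain ⟨i, hi, hl, hx⟩ := hQ'
      exact ⟨i, by omega, hl, hx.trans
        (mul_le_mul_of_nonneg_right (by linarith) (WHm.lev_pos h _).le)⟩
    · intro Q Q' hQ'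
      rw [hmem _ h3R] at hQ'
      rw [hmem _ h3Rd]
      obtain ⟨i, hi, hl, hx⟩ := hQ'
      have hl2 : Q'.1 = Q.1 + 9 + i := hl
      refine ⟨9 + i, by omega, by omega, ?_⟩
      have h1 := FR.xC_up h 9 Q
      have h2 : lev s0 (Q.1 + 9) ≤ lev s0 Q'.1 := by
        rw [hl2, WHm.lev_add s0 (Q.1 + 9) i]
        exact le_mul_of_one_le_left (WHm.lev_pos h _).le (one_le_pow₀ (by norm_num))
      have h3 : ‖xC s0 Q' - xC s0 Q‖ ≤ ‖xC s0 Q' - xC s0 (up 9 Q)‖ + ‖xC s0 (up 9 Q) - xC s0 Q‖ := by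
        have : xC s0 Q' - xC s0 Q = (xC s0 Q' - xC s0 (up 9 Q)) + (xC s0 (up 9 Q) - xC s0 Q) := by
          abel
        rw [this]
        exact norm_add_le _ _
      have h4 : Real.sqrt d * lev s0 (Q.1 + 9) ≤ d * lev s0 Q'.1 :=
        mul_le_mul hsd h2 (WHm.lev_pos h _).le (by linarith)
      rw [add_mul]
      linarith
    · intro Q Q' hQ'
      rw [hmem _ h3Rd] at hQ'
      obtain ⟨i, hi, hl, hx⟩ := hQ'
      omega
    · intro Q Q' hQ'
      rw [hmem _ h3Rd] at hQ'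
      obtain ⟨i, hi, hl, hx⟩ := hQ'
      have h1 := ((hNS d hd1 s0 (3 * R0 + d) h h3Rd (JA + 9) Q).2.1 i hi Q' hl).1
      rw [h1]
      have h0 : 0 ≤ cw s0 Q := by
        unfold cw
        have := WHm.lev_pos h Q.1
        positivity
      refine mul_le_mul_of_nonneg_right ?_ h0
      have h2 : (2 : ℝ) ^ (i * (d - 1)) ≤ Cw :=
        pow_le_pow_right₀ (by norm_num) (Nat.mul_le_mul_right _ hi)
      linarith
    · intro Q
      exact (Finset.card_le_card (hbox Q)).trans (card_box_le _ _ Q)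
  · intro Q Q' hQ'
    rw [hmem _ h3Rd] at hQ'
    obtain ⟨i, hi, hl, hx⟩ := hQ'
    exact ⟨by omega, by omega, hx.trans
      (mul_le_mul_of_nonneg_right (by linarith) (WHm.lev_pos h _).le)⟩

end TG
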