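import Pool.Agent.TG.Stmts13
import Pool.Agent.TG.WT
import Pool.Agent.TG.CS1
import Pool.Agent.TG.CS2
import Pool.Agent.TG.B1

/-!
# Tools for the modules W3, W4, W5, WB6: the Newton field and the fluxes   (helper38)

(1) the flux matrix mY and its trace tY, fxA = tY - qf mY n, fxB = tY - avk tY - nt mY;
(2) bounds of all orders, with constants B k times vv μ 1 0; (3) averages of radius RN under the
growth MG; (4) lower bound of the main contribution of a Newton cell; (5) sheet cells.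
-/

open MeasureTheory Metric Set TrI Filter
open scoped InnerProductSpace ContDiff Topology

set_option linter.unusedSectionVars false

namespace TG

noncomputable section

namespace WTb

variable {d : ℕ}

/-! ## The flux matrix -/

/-- trace of the flux matrix; p is the position of the neighbour -/
def tY (p : Sp d) (β : Sp d → ℝ) (ε p0 A : ℝ) (μ : Measure (Sp d)) (x : Sp d) : ℝ :=
  chi (x - p) * Ups p0 A μ 1 x * ⟪gradient (chi : Sp d → ℝ) x, gradient (WW β ε μ 1) x⟫_ℝ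

/-- the flux matrix -/
def mY (p : Sp d) (β : Sp d → ℝ) (ε p0 A : ℝ) (μ : Measure (Sp d)) (i j : Fin d) (x : Sp d) : ℝ :=
  chi (x - p) * Ups p0 A μ 1 x * (1 / 2 *
    (fderiv ℝ (chi : Sp d → ℝ) x (bv i) * fderiv ℝ (WW β ε μ 1) x (bv j)
      + fderiv ℝ (chi : Sp d → ℝ) x (bv j) * fderiv ℝ (WW β ε μ 1) x (bv i)))

lemma fxB_eq (b : Sp d → ℝ) (RN : ℝ) (p : Sp d) (β : Sp d → ℝ) (ε p0 A : ℝ)
    (μ : Measure (Sp d)) (y : Sp d) :
    fxB b RN chi (fun x => chi (x - p)) β ε p0 A μ y =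
      tY p β ε p0 A μ y - avk b RN (tY p β ε p0 A μ) y - nt b RN (mY p β ε p0 A μ) y := rfl

lemma lin_exp (T : Sp d →L[ℝ] ℝ) (n : Sp d) : T n = ∑ i, n i * T (bv i) := by
  have h : n = ∑ i, n i • (bv i : Sp d) := by
    unfold bv
    ext j
    simp [Pi.single_apply]
  conv_lhs => rw [h]
  rw [map_sum]
  simp only [map_smul, smul_eq_mul]

lemma qf_prod (c : ℝ) (n : Sp d) (a b : Fin d → ℝ) :
    ∑ i, ∑ j, n i * n j * (c * (1 / 2 * (a i * b j + a j * b i))) =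
      c * ((∑ i, n i * a i) * ∑ j, n j * b j) := by
  have h1 : (∑ i, n i * a i) * (∑ j, n j * b j) = ∑ i, ∑ j, n i * a i * (n j * b j) :=
    Finset.sum_mul_sum _ _ _ _
  have h2 : (∑ i, n i * a i) * (∑ j, n j * b j) = ∑ i, ∑ j, n j * a j * (n i * b i) := by
    rw [h1, Finset.sum_comm]
  have h3 : (∑ i, n i * a i) * (∑ j, n j * b j) =
      1 / 2 * (∑ i, ∑ j, n i * a i * (n j * b j)) +
        1 / 2 * ∑ i, ∑ j, n j * a j * (n i * b i) := by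
    rw [← h1, ← h2]
    ring
  rw [h3, Finset.mul_sum, Finset.mul_sum, ← Finset.sum_add_distrib, Finset.mul_sum]
  refine Finset.sum_congr rfl fun i _ => ?_
  rw [Finset.mul_sum, Finset.mul_sum, ← Finset.sum_add_distrib, Finset.mul_sum]
  exact Finset.sum_congr rfl fun j _ => by ring

/-- fxA is the trace minus the quadratic form -/
lemma fxA_eq (p : Sp d) (β : Sp d → ℝ) (ε p0 A : ℝ) (μ : Measure (Sp d)) {n : Sp d}
    (hn : ‖n‖ = 1) (y : Sp d) :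
    fxA chi (fun x => chi (x - p)) β ε p0 A μ n y =
      tY p β ε p0 A μ y - qf (mY p β ε p0 A μ) n y := by
  have h1 : qf (mY p β ε p0 A μ) n y = chi (y - p) * Ups p0 A μ 1 y *
      (fderiv ℝ (chi : Sp d → ℝ) y n * fderiv ℝ (WW β ε μ 1) y n) := by
    unfold qf mY
    rw [qf_prod, ← lin_exp, ← lin_exp]
  rw [h1]
  unfold fxA tY tang
  rw [← CS1m.inner_grad (WW β ε μ 1) y n, ← CS1m.inner_grad (chi : Sp d → ℝ) y n]
  have h2 : ⟪gradient (chi : Sp d → ℝ) y - ⟪n, gradient (chi : Sp d → ℝ) y⟫_ℝ • n,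
      gradient (WW β ε μ 1) y - ⟪n, gradient (WW β ε μ 1) y⟫_ℝ • n⟫_ℝ =
      ⟪gradient (chi : Sp d → ℝ) y, gradient (WW β ε μ 1) y⟫_ℝ -
        ⟪n, gradient (chi : Sp d → ℝ) y⟫_ℝ * ⟪n, gradient (WW β ε μ 1) y⟫_ℝ := by
    simp only [inner_sub_left, inner_sub_right, inner_smul_left, inner_smul_right,
      real_inner_self_eq_norm_sq, hn, conj_trivial]
    rw [real_inner_comm n (gradient (chi : Sp d → ℝ) y)]
    ring
  rw [h2]
  ring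

/-- the difference of the sheet flux and the Newton flux -/
lemma fxA_sub_fxB (b : Sp d → ℝ) (RN : ℝ) (p : Sp d) (β : Sp d → ℝ) (ε p0 A : ℝ)
    (μ : Measure (Sp d)) {n : Sp d} (hn : ‖n‖ = 1) (y : Sp d) :
    fxA chi (fun x => chi (x - p)) β ε p0 A μ n y -
        fxB b RN chi (fun x => chi (x - p)) β ε p0 A μ y =
      avk b RN (tY p β ε p0 A μ) y -
        ((∑ i, ∑ j, n i * n j * mY p β ε p0 A μ i j y) - nt b RN (mY p β ε p0 A μ) y) := by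
  rw [fxA_eq p β ε p0 A μ hn, fxB_eq]
  unfold qf
  ring

/-! ## Bounds of all orders -/

/-- smooth functions supported in the ball of radius ρ with bounds of all orders -/
structure Sm (B : ℕ → ℝ) (v ρ : ℝ) (g : Sp d → ℝ) : Prop where
  sm : ContDiff ℝ ∞ g
  bd : ∀ k y, ‖iteratedFDeriv ℝ k g y‖ ≤ v * B k
  vs : ∀ y, ρ ≤ ‖y‖ → g y = 0

lemma Sm.mono {B B' : ℕ → ℝ} {v ρ : ℝ} {g : Sp d → ℝ} (h : Sm B v ρ g) (hv : 0 ≤ v)
    (hB : ∀ k, B k ≤ B' k) : Sm B' v ρ g :=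
  ⟨h.sm, fun k y => (h.bd k y).trans (mul_le_mul_of_nonneg_left (hB k) hv), h.vs⟩

lemma Sm.mono_v {B : ℕ → ℝ} {v v' ρ : ℝ} {g : Sp d → ℝ} (h : Sm B v ρ g) (hv : v ≤ v')
    (hB : ∀ k, 0 ≤ B k) : Sm B v' ρ g :=
  ⟨h.sm, fun k y => (h.bd k y).trans (mul_le_mul_of_nonneg_right hv (hB k)), h.vs⟩

lemma Sm.tfn {B : ℕ → ℝ} {v ρ : ℝ} {g : Sp d → ℝ} (h : Sm B v ρ g) (hv : 0 ≤ v) (n : ℕ) :
    TFn n (v * B1m.SB B n) g := by
  have h1 := B1m.BF_of hv h.sm h.bd n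
  exact ⟨h1.smooth, h1.bd⟩

lemma Sm.ad {B : ℕ → ℝ} {v ρ : ℝ} {g : Sp d → ℝ} (h : Sm B v ρ g) (hv : 0 ≤ v) :
    B1m.Ad ρ (v * B1m.SB B 2) g :=
  ⟨h.sm, B1m.BF_of hv h.sm h.bd 2, fun y hy => h.vs y hy.le⟩

lemma all_bd (hd : 2 ≤ d) {M C' : ℝ} (hC' : 0 < C') {f : CS2.Ix d M C' → Sp d → ℝ}
    (h : ∀ N, BdN N univ CS2.wI f) {ρ : ℝ} (hρ : 0 ≤ ρ) (h0 : ∀ i y, ρ ≤ ‖y‖ → f i y = 0) :
    ∃ B : ℕ → ℝ, (∀ k, 0 ≤ B k) ∧ ∀ i, Sm B (vv i.1.μ 1 0) ρ (f i) := by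
  choose c hc0 hc using fun N => (h N).bd
  refine ⟨fun k => c k * (1 + ρ) ^ d, fun k => mul_nonneg (hc0 k) (by positivity),
    fun i => ⟨contDiffOn_univ.1 ((h 0).smooth i), fun k y => ?_, h0 i⟩⟩
  have hv0 : 0 ≤ vv i.1.μ 1 0 := Real.sqrt_nonneg _
  by_cases hy : ρ < ‖y‖
  · rw [B1m.it_vs (fun z hz => h0 i z hz.le) k y hy, norm_zero]
    exact mul_nonneg hv0 (mul_nonneg (hc0 k) (by positivity))
  · have h1 := hc k i y (mem_univ _) k le_rfl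
    have h2 := CS2.vv_grow hd hC' i.1.hμ y
    have h3 : (1 + ‖y‖) ^ d ≤ (1 + ρ) ^ d := by
      gcongr
      exact not_lt.1 hy
    calc ‖iteratedFDeriv ℝ k (f i) y‖ ≤ c k * vv i.1.μ 1 y := h1
      _ ≤ c k * ((1 + ρ) ^ d * vv i.1.μ 1 0) := by
          refine mul_le_mul_of_nonneg_left (h2.trans ?_) (hc0 k)
          exact mul_le_mul_of_nonneg_right h3 hv0
      _ = _ := by ring

section fam

variable {M C' : ℝ}

variable (hd : 2 ≤ d) (hC' : 0 < C') {ε p0 A : ℝ} (hε0 : 0 < ε) (hε : ε ≤ 1) (hA : 0 < A)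

include hd hC' hε0 hε hA

lemma mY_bd (N : ℕ) (a c : Fin d) :
    BdN N univ CS2.wI (fun i : CS2.Ix d M C' => mY i.2 i.1.β ε p0 A i.1.μ a c) := by
  have bU := CS2.U_bd (M := M) (p0 := p0) hd hC' hε0 hε hA N
  have bW := CS2.W_bd (M := M) hd hC' hε0 hε hA (N + 1)
  have bc := CS2.chi_bd (ι := CS2.Ix d M C') (d := d) (N + 1) (by omega)
  exact CS2.mul1 (CS2.mul1 (CS2.chi'_bd N (by omega) (fun i : CS2.Ix d M C' => i.2)) bU)
    (((CS2.mul1 (CS2.d1_bd bc a) (CS2.d1_bd bW c)).add isOpen_univ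
      (CS2.mul1 (CS2.d1_bd bc c) (CS2.d1_bd bW a))).const_mul isOpen_univ
        (fun _ => (1 / 2 : ℝ)) (B := 1) (fun i => by norm_num))

lemma tY_bd (N : ℕ) :
    BdN N univ CS2.wI (fun i : CS2.Ix d M C' => tY i.2 i.1.β ε p0 A i.1.μ) := by
  have hw : ∀ (i : CS2.Ix d M C') (y : Sp d), 0 ≤ CS2.wI i y := fun i y => Real.sqrt_nonneg _
  have bU := CS2.U_bd (M := M) (p0 := p0) hd hC' hε0 hε hA N
  have bW := CS2.W_bd (M := M) hd hC' hε0 hε hA (N + 1)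
  have bc := CS2.chi_bd (ι := CS2.Ix d M C') (d := d) (N + 1) (by omega)
  exact CS2.mul1 (CS2.mul1 (CS2.chi'_bd N (by omega) (fun i : CS2.Ix d M C' => i.2)) bU)
    (CS2.grad_bd bc bW hw)

omit hC' hε0 hε hA in
lemma mY_vs (p : Sp d) (β : Sp d → ℝ) (μ : Measure (Sp d)) (a c : Fin d) (y : Sp d)
    (hy : (d : ℝ) ≤ ‖y‖) : mY p β ε p0 A μ a c y = 0 := by
  unfold mY
  rw [CS2.chi_fd hd hy]
  simp

omit hC' hε0 hε hA in
lemma tY_vs (p : Sp d) (β : Sp d → ℝ) (μ : Measure (Sp d)) (y : Sp d)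
    (hy : (d : ℝ) ≤ ‖y‖) : tY p β ε p0 A μ y = 0 := by
  unfold tY
  rw [CS2.chi_grad hd hy]
  simp

/-- all bounds with one sequence -/
theorem fam (M : ℝ) : ∃ B : ℕ → ℝ, (∀ k, 0 ≤ B k) ∧ ∀ (β : Sp d → ℝ), Kit 4 M β →
    ∀ μ : Measure (Sp d), Gro C' μ →
      (∀ a c, Sm B (vv μ 1 0) d (fun x => chi x * HHm β ε p0 A μ a c x)) ∧
      Sm B (vv μ 1 0) d (fun x => chi x * GG β ε μ 1 x) ∧
      (∀ p a c, Sm B (vv μ 1 0) d (mY p β ε p0 A μ a c)) ∧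
      (∀ p, Sm B (vv μ 1 0) d (tY p β ε p0 A μ)) ∧
      (∀ n : Sp d, ‖n‖ = 1 → Sm B (vv μ 1 0) d (fun x => chi x * Hn β ε p0 A μ n 1 x)) := by
  have hρ : (0 : ℝ) ≤ d := Nat.cast_nonneg d
  have hchi : ∀ {g : Sp d → ℝ} (y : Sp d), (d : ℝ) ≤ ‖y‖ → chi y * g y = 0 := fun y hy => by
    rw [PTm.chi_supp hy (by omega), zero_mul]
  have k1 := fun a c => all_bd (M := M) hd hC'
    (f := fun (i : CS2.Ix d M C') x => chi x * HHm i.1.β ε p0 A i.1.μ a c x)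
    (fun N => CS2.mul1 (CS2.chi_bd N (by omega)) (CS2.HH_bd hd hC' hε0 hε hA N a c)) hρ
    (fun i y hy => hchi y hy)
  choose B1 hB1 k1 using k1
  obtain ⟨B2, hB2, k2⟩ := all_bd (M := M) hd hC'
    (f := fun (i : CS2.Ix d M C') x => chi x * GG i.1.β ε i.1.μ 1 x)
    (fun N => CS2.mul1 (CS2.chi_bd N (by omega)) (CS2.G_bd hd hC' hε0 hε hA N)) hρ
    (fun i y hy => hchi y hy)
  have k3 := fun a c => all_bd (M := M) hd hC'
    (f := fun (i : CS2.Ix d M C') => mY i.2 i.1.β ε p0 A i.1.μ a c)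
    (fun N => mY_bd hd hC' hε0 hε hA N a c) hρ
    (fun i y hy => mY_vs hd _ _ _ a c y hy)
  choose B3 hB3 k3 using k3
  obtain ⟨B4, hB4, k4⟩ := all_bd (M := M) hd hC'
    (f := fun (i : CS2.Ix d M C') => tY i.2 i.1.β ε p0 A i.1.μ)
    (fun N => tY_bd hd hC' hε0 hε hA N) hρ
    (fun i y hy => tY_vs hd _ _ _ y hy)
  obtain ⟨B5, hB5, k5⟩ := all_bd (M := M) hd hC'
    (f := fun (i : CS2.Ix d M C') x => chi x * Hn i.1.β ε p0 A i.1.μ i.1.n 1 x)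
    (fun N => CS2.mul1 (CS2.chi_bd N (by omega)) (CS2.H_bd hd hC' hε0 hε hA N)) hρ
    (fun i y hy => hchi y hy)
  have s1 : ∀ k, 0 ≤ ∑ a, ∑ c, B1 a c k := fun k =>
    Finset.sum_nonneg fun a _ => Finset.sum_nonneg fun c _ => hB1 a c k
  have s3 : ∀ k, 0 ≤ ∑ a, ∑ c, B3 a c k := fun k =>
    Finset.sum_nonneg fun a _ => Finset.sum_nonneg fun c _ => hB3 a c k
  have l1 : ∀ a c k, B1 a c k ≤ ∑ a, ∑ c, B1 a c k := fun a c k =>
    (Finset.single_le_sum (f := fun c => B1 a c k) (fun c _ => hB1 a c k)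
      (Finset.mem_univ c)).trans
    (Finset.single_le_sum (f := fun a => ∑ c, B1 a c k)
      (fun a _ => Finset.sum_nonneg fun c _ => hB1 a c k) (Finset.mem_univ a))
  have l3 : ∀ a c k, B3 a c k ≤ ∑ a, ∑ c, B3 a c k := fun a c k =>
    (Finset.single_le_sum (f := fun c => B3 a c k) (fun c _ => hB3 a c k)
      (Finset.mem_univ c)).trans
    (Finset.single_le_sum (f := fun a => ∑ c, B3 a c k)
      (fun a _ => Finset.sum_nonneg fun c _ => hB3 a c k) (Finset.mem_univ a))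
  refine ⟨fun k => (∑ a, ∑ c, B1 a c k) + B2 k + (∑ a, ∑ c, B3 a c k) + B4 k + B5 k,
    fun k => by linarith [s1 k, hB2 k, s3 k, hB4 k, hB5 k], fun β hβ μ hμ => ?_⟩
  have hv : 0 ≤ vv μ 1 0 := Real.sqrt_nonneg _
  have hn0 : ‖(bv ⟨0, by omega⟩ : Sp d)‖ = 1 := by simp [bv]
  refine ⟨fun a c => ?_, ?_, fun p a c => ?_, fun p => ?_, fun n hn => ?_⟩
  · refine (k1 a c (⟨β, μ, bv ⟨0, by omega⟩, hβ, hμ, hn0⟩, 0)).mono hv fun k => ?_
    linarith [l1 a c k, hB2 k, s3 k, hB4 k, hB5 k]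
  · refine (k2 (⟨β, μ, bv ⟨0, by omega⟩, hβ, hμ, hn0⟩, 0)).mono hv fun k => ?_
    linarith [s1 k, s3 k, hB4 k, hB5 k]
  · refine (k3 a c (⟨β, μ, bv ⟨0, by omega⟩, hβ, hμ, hn0⟩, p)).mono hv fun k => ?_
    linarith [s1 k, hB2 k, l3 a c k, hB4 k, hB5 k]
  · refine (k4 (⟨β, μ, bv ⟨0, by omega⟩, hβ, hμ, hn0⟩, p)).mono hv fun k => ?_
    linarith [s1 k, hB2 k, s3 k, hB5 k]
  · refine (k5 (⟨β, μ, n, hβ, hμ, hn⟩, 0)).mono hv fun k => ?_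
    linarith [s1 k, hB2 k, s3 k, hB4 k]

end fam

/-- fxA as a test function -/
lemma fxA_tfn {B : ℕ → ℝ} {v : ℝ} (hv : 0 ≤ v) {p : Sp d} {β : Sp d → ℝ} {ε p0 A : ℝ}
    {μ : Measure (Sp d)} (h1 : ∀ a c, Sm B v d (mY p β ε p0 A μ a c))
    (h2 : Sm B v d (tY p β ε p0 A μ)) (n : ℕ) {e : Sp d} (he : ‖e‖ = 1) :
    TFn n ((1 + d * d) * (v * B1m.SB B n)) (fxA chi (fun x => chi (x - p)) β ε p0 A μ e) := by
  have e1 : fxA chi (fun x => chi (x - p)) β ε p0 A μ e =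
      fun y => tY p β ε p0 A μ y - qf (mY p β ε p0 A μ) e y :=
    funext fun y => fxA_eq p β ε p0 A μ he y
  have h3 : SMm.BF n (∑ i : Fin d, ∑ j : Fin d, |e i * e j| * (v * B1m.SB B n))
      (qf (mY p β ε p0 A μ) e) :=
    B1m.BF_sum Finset.univ fun i : Fin d => B1m.BF_sum Finset.univ fun j : Fin d =>
      (B1m.BF_of hv (h1 i j).sm (h1 i j).bd n).const_mul (e i * e j)
  have h4 : ∑ i : Fin d, ∑ j : Fin d, |e i * e j| * (v * B1m.SB B n) ≤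
      d * (d * (v * B1m.SB B n)) := by
    rw [← B1m.sum2_const]
    refine Finset.sum_le_sum fun i _ => Finset.sum_le_sum fun j _ => ?_
    have h5 : |e i * e j| ≤ 1 := by
      rw [abs_mul]
      have := B1m.comp_le he i
      have := B1m.comp_le he j
      have := abs_nonneg (e i)
      have := abs_nonneg (e j)
      nlinarith
    have h6 : 0 ≤ v * B1m.SB B n := mul_nonneg hv (B1m.SB_nonneg B n)
    nlinarith
  have h7 := h3.mono h4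
  rw [e1]
  have h8 := TU.TFn_sub (h2.tfn hv n) (⟨h7.smooth, h7.bd⟩ : TFn n _ (qf (mY p β ε p0 A μ) e))
  refine TU.TFn_mono h8 le_rfl (le_of_eq ?_)
  ring

lemma fxA_vs (hd : 2 ≤ d) (p : Sp d) (β : Sp d → ℝ) (ε p0 A : ℝ) (μ : Measure (Sp d)) {n : Sp d}
    (hn : ‖n‖ = 1) (y : Sp d) (hy : (d : ℝ) ≤ ‖y‖) :
    fxA chi (fun x => chi (x - p)) β ε p0 A μ n y = 0 := by
  rw [fxA_eq p β ε p0 A μ hn, tY_vs hd p β μ y hy]
  unfold qf
  simp [mY_vs hd p β μ _ _ y hy]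

/-! ## Newton potentials and averages as test functions -/

/-- the Newton field of a matrix function -/
lemma nt_tfn (hd : 2 ≤ d) {Mb cb : ℝ} {b : Sp d → ℝ} (hb : BaseKer 2 Mb cb b) {R : ℝ}
    (hR : 0 < R) (J : ℕ) {B : ℕ → ℝ} {v ρ : ℝ} (hv : 0 ≤ v) {F : Fin d → Fin d → Sp d → ℝ}
    (hF : ∀ i j, Sm B v ρ (F i j)) :
    TFn J (R ^ 2 * (d * (d * (v * B1m.SB B (J + 2))))) (nt b R F) ∧
      ∀ y, ρ + 1 + R / 2 ≤ ‖y‖ → nt b R F y = 0 := by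
  have h := B1m.nt_BF (stmtNN stmtPF) hd hb hR (J := J) (fun i j => (hF i j).sm)
    (fun i j => B1m.BF_of hv (hF i j).sm (hF i j).bd (J + 2)) (fun i j y hy => (hF i j).vs y hy)
  exact ⟨⟨h.1.smooth, h.1.bd⟩, h.2⟩

/-- averages -/
lemma avk_tfn {Mb cb : ℝ} {b : Sp d → ℝ} (hb : BaseKer 2 Mb cb b) {R : ℝ}
    (hR : 0 ≤ R) {B : ℕ → ℝ} {v ρ : ℝ} (hv : 0 ≤ v) {g : Sp d → ℝ} (hg : Sm B v ρ g) :
    TFn 2 (v * B1m.SB B 2) (avk b R g) ∧ ∀ y, ρ + R < ‖y‖ → avk b R g y = 0 := by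
  have h := (hg.ad hv).avk hb hR
  exact ⟨⟨h.bf.smooth, h.bf.bd⟩, h.vs⟩

/-- fxB as a test function -/
lemma fxB_tfn (hd : 2 ≤ d) {Mb cb : ℝ} {b : Sp d → ℝ} (hb : BaseKer 2 Mb cb b) {R : ℝ}
    (hR : 0 < R) {B : ℕ → ℝ} {v : ℝ} (hv : 0 ≤ v) {p : Sp d} {β : Sp d → ℝ} {ε p0 A : ℝ}
    {μ : Measure (Sp d)} (h1 : ∀ a c, Sm B v d (mY p β ε p0 A μ a c))
    (h2 : Sm B v d (tY p β ε p0 A μ)) :
    TFn 2 (v * (2 * B1m.SB B 2 + R ^ 2 * (d * (d * B1m.SB B 4))))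
        (fxB b R chi (fun x => chi (x - p)) β ε p0 A μ) ∧
      ∀ y, d + 1 + R ≤ ‖y‖ → fxB b R chi (fun x => chi (x - p)) β ε p0 A μ y = 0 := by
  obtain ⟨h3, h4⟩ := avk_tfn hb hR.le hv h2
  obtain ⟨h5, h6⟩ := nt_tfn hd hb hR 2 hv h1
  have h7 := TU.TFn_sub (TU.TFn_sub (h2.tfn hv 2) h3) h5
  refine ⟨TU.TFn_mono h7 le_rfl (le_of_eq ?_), fun y hy => ?_⟩
  · ring
  · rw [fxB_eq, h2.vs y (by linarith), h4 y (by linarith), h6 y (by linarith)]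
    ring

/-! ## Averages of radius RN under the growth of the mass -/

/-- averages of large radius are small on densities with growth -/
theorem avk_mg (hd : 2 ≤ d) {Mb cb : ℝ} {b : Sp d → ℝ} (hb : BaseKer 2 Mb cb b)
    {K γ δ : ℝ} (hK : 0 < K) (hγ0 : 0 < γ) (hγ : γ ≤ 1 / (8 * d)) (hδ : 0 < δ) :
    ∃ RN0 : ℝ, 1 ≤ RN0 ∧ ∀ RN : ℝ, RN0 ≤ RN → ∃ C : ℝ, 0 < C ∧
      ∀ (m : Sp d → ℝ) (a D : ℝ), 0 ≤ a → 0 ≤ D → MG K γ (RN + d + 4) a D m →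
      ∀ (B : ℕ → ℝ) (v : ℝ) (g : Sp d → ℝ), 0 ≤ v → Sm B v d g →
        |∫ y, m y * avk b RN g y| ≤ v * B1m.SB B 2 * (δ * a + C * D) := by
  have hd1 : (1 : ℝ) ≤ d := by exact_mod_cast (by omega : 1 ≤ d)
  have hb0 : 0 ≤ b 0 := hb.nonneg 0
  set V : ℝ := volume.real (closedBall (0 : Sp d) ((d : ℝ) + 1)) with hV
  have hV0 : 0 ≤ V := measureReal_nonneg
  obtain ⟨R0, hR0, h⟩ := B1m.small_R (d := d) (c := b 0 * V * K) hd hγ0 hγ (by positivity) hd1 hδ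
  refine ⟨R0, hR0, fun RN hRN => ⟨b 0 * V * (RN ^ d)⁻¹ + 1, ?_, ?_⟩⟩
  · have : 0 < RN := by linarith
    positivity
  · intro m a D ha hD hG B v g hv hg
    have hRN0 : 0 < RN := by linarith
    have h1 := B1m.avk_small hb hd1 hRN0 hG
      (⟨hg.sm, (hg.ad hv).bf, fun y hy => hg.vs y (by linarith)⟩ :
        B1m.Ad ((d : ℝ) + 1) (v * B1m.SB B 2) g)
    have h2 := h RN hRN
    have hS : 0 ≤ v * B1m.SB B 2 := mul_nonneg hv (B1m.SB_nonneg B 2)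
    refine h1.trans ?_
    rw [← hV]
    have h3 : b 0 * V * (RN ^ d)⁻¹ * (v * B1m.SB B 2) *
        (K * (RN + d + 4) ^ ((d : ℝ) - 1 + γ) * a + D) =
        v * B1m.SB B 2 * ((b 0 * V * K * ((RN ^ d)⁻¹ * (RN + d + 4) ^ ((d : ℝ) - 1 + γ))) * a +
          b 0 * V * (RN ^ d)⁻¹ * D) := by ring
    rw [h3]
    refine mul_le_mul_of_nonneg_left ?_ hS
    have h4 := mul_le_mul_of_nonneg_right h2 ha
    nlinarith

end WTb

end

end TG
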