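import Pool.Agent.TG.AB
import Pool.Agent.TG.ABk
import Pool.Agent.TG.ABm
import Pool.Agent.TG.ABp
import Pool.Agent.TG.ABq
import Pool.Agent.TG.ABr
import Pool.Agent.TG.ABs
import Pool.Agent.TG.AL
import Pool.Agent.TG.AL0
import Pool.Agent.TG.AL1
import Pool.Agent.TG.AL2
import Pool.Agent.TG.AL3
import Pool.Agent.TG.AL4
import Pool.Agent.TG.Adj
import Pool.Agent.TG.AvBasic
import Pool.Agent.TG.B0
import Pool.Agent.TG.B1
import Pool.Agent.TG.B2
import Pool.Agent.TG.B3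
import Pool.Agent.TG.B4
import Pool.Agent.TG.BK
import Pool.Agent.TG.Bd
import Pool.Agent.TG.BdAv
import Pool.Agent.TG.CF
import Pool.Agent.TG.CG
import Pool.Agent.TG.CM
import Pool.Agent.TG.CM1
import Pool.Agent.TG.CM2
import Pool.Agent.TG.CM3
import Pool.Agent.TG.CM4
import Pool.Agent.TG.CM5
import Pool.Agent.TG.CO
import Pool.Agent.TG.CS
import Pool.Agent.TG.CS1
import Pool.Agent.TG.CS2
import Pool.Agent.TG.CT1
import Pool.Agent.TG.CT2
import Pool.Agent.TG.CT3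
import Pool.Agent.TG.CT4
import Pool.Agent.TG.CT5
import Pool.Agent.TG.CT6
import Pool.Agent.TG.CT7
import Pool.Agent.TG.CT8
import Pool.Agent.TG.CT9
import Pool.Agent.TG.Conc
import Pool.Agent.TG.DI
import Pool.Agent.TG.DP
import Pool.Agent.TG.DV
import Pool.Agent.TG.Defs
import Pool.Agent.TG.FA
import Pool.Agent.TG.FA1
import Pool.Agent.TG.FA2
import Pool.Agent.TG.FA3
import Pool.Agent.TG.FF
import Pool.Agent.TG.FG
import Pool.Agent.TG.FH
import Pool.Agent.TG.FHa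
import Pool.Agent.TG.FHb
import Pool.Agent.TG.FM
import Pool.Agent.TG.FN
import Pool.Agent.TG.FN2
import Pool.Agent.TG.FR0
import Pool.Agent.TG.FR1
import Pool.Agent.TG.FR2
import Pool.Agent.TG.FR3
import Pool.Agent.TG.FR4
import Pool.Agent.TG.FRL
import Pool.Agent.TG.FRS
import Pool.Agent.TG.FS
import Pool.Agent.TG.FinA
import Pool.Agent.TG.FinB
import Pool.Agent.TG.FinC
import Pool.Agent.TG.Final
import Pool.Agent.TG.GE
import Pool.Agent.TG.GI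
import Pool.Agent.TG.GI1
import Pool.Agent.TG.GI2
import Pool.Agent.TG.GI3
import Pool.Agent.TG.GN
import Pool.Agent.TG.GP
import Pool.Agent.TG.GS
import Pool.Agent.TG.HH
import Pool.Agent.TG.HN
import Pool.Agent.TG.HU
import Pool.Agent.TG.IN
import Pool.Agent.TG.IN1
import Pool.Agent.TG.IN2
import Pool.Agent.TG.IN3
import Pool.Agent.TG.Ker
import Pool.Agent.TG.KitMono
import Pool.Agent.TG.LA
import Pool.Agent.TG.LB
import Pool.Agent.TG.LN
import Pool.Agent.TG.LP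
import Pool.Agent.TG.LS
import Pool.Agent.TG.LW
import Pool.Agent.TG.LWa
import Pool.Agent.TG.LWb
import Pool.Agent.TG.LWc
import Pool.Agent.TG.MA
import Pool.Agent.TG.ML
import Pool.Agent.TG.MLa
import Pool.Agent.TG.MLb
import Pool.Agent.TG.MLc
import Pool.Agent.TG.MO
import Pool.Agent.TG.MO1
import Pool.Agent.TG.MO2
import Pool.Agent.TG.MP
import Pool.Agent.TG.MPa
import Pool.Agent.TG.MPb
import Pool.Agent.TG.MainA
import Pool.Agent.TG.Mass
import Pool.Agent.TG.MonoW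
import Pool.Agent.TG.NC
import Pool.Agent.TG.NF
import Pool.Agent.TG.NL
import Pool.Agent.TG.NN
import Pool.Agent.TG.NS
import Pool.Agent.TG.P1
import Pool.Agent.TG.P1a
import Pool.Agent.TG.P1b
import Pool.Agent.TG.P3
import Pool.Agent.TG.P4
import Pool.Agent.TG.PE
import Pool.Agent.TG.PF
import Pool.Agent.TG.PI
import Pool.Agent.TG.PK
import Pool.Agent.TG.PL
import Pool.Agent.TG.PLa
import Pool.Agent.TG.PLb
import Pool.Agent.TG.PO
import Pool.Agent.TG.PT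
import Pool.Agent.TG.PTa
import Pool.Agent.TG.PTb
import Pool.Agent.TG.PTc
import Pool.Agent.TG.Par
import Pool.Agent.TG.RB
import Pool.Agent.TG.RNi
import Pool.Agent.TG.SA1
import Pool.Agent.TG.SA2
import Pool.Agent.TG.SA3
import Pool.Agent.TG.SA4
import Pool.Agent.TG.SA5
import Pool.Agent.TG.SA6
import Pool.Agent.TG.SA7
import Pool.Agent.TG.SA8
import Pool.Agent.TG.SAF
import Pool.Agent.TG.SAF0
import Pool.Agent.TG.SAF2
import Pool.Agent.TG.SAFf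
import Pool.Agent.TG.SAFg
import Pool.Agent.TG.SAFh
import Pool.Agent.TG.SAFi
import Pool.Agent.TG.SAS
import Pool.Agent.TG.SAS2
import Pool.Agent.TG.SC
import Pool.Agent.TG.SD
import Pool.Agent.TG.SE
import Pool.Agent.TG.SH2
import Pool.Agent.TG.SHA
import Pool.Agent.TG.SHA1
import Pool.Agent.TG.SHA2
import Pool.Agent.TG.SHA3
import Pool.Agent.TG.SHA4
import Pool.Agent.TG.SHB
import Pool.Agent.TG.SHBa
import Pool.Agent.TG.SHBp
import Pool.Agent.TG.SHP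
import Pool.Agent.TG.SHT
import Pool.Agent.TG.SM
import Pool.Agent.TG.SMa
import Pool.Agent.TG.SS
import Pool.Agent.TG.SS1
import Pool.Agent.TG.SS2
import Pool.Agent.TG.SS3
import Pool.Agent.TG.ST
import Pool.Agent.TG.ST2
import Pool.Agent.TG.STh1
import Pool.Agent.TG.STh2
import Pool.Agent.TG.STh3
import Pool.Agent.TG.STh4
import Pool.Agent.TG.STh5
import Pool.Agent.TG.STh6
import Pool.Agent.TG.STh7
import Pool.Agent.TG.STh8
import Pool.Agent.TG.STh9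
import Pool.Agent.TG.Stmts1
import Pool.Agent.TG.Stmts10
import Pool.Agent.TG.Stmts11
import Pool.Agent.TG.Stmts12
import Pool.Agent.TG.Stmts13
import Pool.Agent.TG.Stmts14
import Pool.Agent.TG.Stmts15
import Pool.Agent.TG.Stmts16
import Pool.Agent.TG.Stmts17
import Pool.Agent.TG.Stmts18
import Pool.Agent.TG.Stmts2
import Pool.Agent.TG.Stmts3
import Pool.Agent.TG.Stmts4
import Pool.Agent.TG.StmtsFH
import Pool.Agent.TG.StmtsFin
import Pool.Agent.TG.T1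
import Pool.Agent.TG.T1a
import Pool.Agent.TG.T1b
import Pool.Agent.TG.T1g
import Pool.Agent.TG.T2
import Pool.Agent.TG.TA1
import Pool.Agent.TG.TA1d
import Pool.Agent.TG.TA1p
import Pool.Agent.TG.TA1t
import Pool.Agent.TG.TA1u
import Pool.Agent.TG.TA1v
import Pool.Agent.TG.TA1w
import Pool.Agent.TG.TA1x
import Pool.Agent.TG.TA2
import Pool.Agent.TG.TC
import Pool.Agent.TG.TD1
import Pool.Agent.TG.TD2
import Pool.Agent.TG.TDc
import Pool.Agent.TG.TF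
import Pool.Agent.TG.TFU
import Pool.Agent.TG.TFc
import Pool.Agent.TG.TH
import Pool.Agent.TG.TP
import Pool.Agent.TG.TPa
import Pool.Agent.TG.TPb
import Pool.Agent.TG.TPc
import Pool.Agent.TG.TPd
import Pool.Agent.TG.TQ
import Pool.Agent.TG.TT
import Pool.Agent.TG.TT1
import Pool.Agent.TG.TW
import Pool.Agent.TG.Tf
import Pool.Agent.TG.Tree0
import Pool.Agent.TG.TreeAS
import Pool.Agent.TG.TreeDefs
import Pool.Agent.TG.TreeDefs2
import Pool.Agent.TG.TreeLT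
import Pool.Agent.TG.TreeMJ
import Pool.Agent.TG.TreePQ
import Pool.Agent.TG.TreePQ0
import Pool.Agent.TG.TreeRH
import Pool.Agent.TG.TreeTS1
import Pool.Agent.TG.TreeTS2
import Pool.Agent.TG.TreeTY
import Pool.Agent.TG.UB
import Pool.Agent.TG.UU
import Pool.Agent.TG.UUa
import Pool.Agent.TG.UUb
import Pool.Agent.TG.UUc
import Pool.Agent.TG.W1
import Pool.Agent.TG.W2
import Pool.Agent.TG.W2a
import Pool.Agent.TG.W2b
import Pool.Agent.TG.W2c
import Pool.Agent.TG.W2d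
import Pool.Agent.TG.W2e
import Pool.Agent.TG.W3
import Pool.Agent.TG.W4
import Pool.Agent.TG.W4a
import Pool.Agent.TG.W4b
import Pool.Agent.TG.W4c
import Pool.Agent.TG.W5
import Pool.Agent.TG.W5a
import Pool.Agent.TG.W5b
import Pool.Agent.TG.WA
import Pool.Agent.TG.WA6
import Pool.Agent.TG.WA7
import Pool.Agent.TG.WA7a
import Pool.Agent.TG.WB
import Pool.Agent.TG.WB6
import Pool.Agent.TG.WBA
import Pool.Agent.TG.WBC
import Pool.Agent.TG.WBE
import Pool.Agent.TG.WBK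
import Pool.Agent.TG.WBTools
import Pool.Agent.TG.WBTools2
import Pool.Agent.TG.WBb
import Pool.Agent.TG.WBb1
import Pool.Agent.TG.WBb2
import Pool.Agent.TG.WD
import Pool.Agent.TG.WDa
import Pool.Agent.TG.WF
import Pool.Agent.TG.WHm
import Pool.Agent.TG.WT
import Pool.Agent.TG.WTb
import Pool.Agent.TG.WTc
import Pool.Agent.TG.ZZ
import Pool.Agent.TR.NS

/-!
# Trace inequality, general operators (MP_287c87_an): all modules together

Generated by helper97.  Every proved statement StmtXX is available as theorem TG.All.XX without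
hypotheses.
-/

open MeasureTheory Metric Set TrI

namespace TG

namespace All

theorem AL : TG.StmtAL := TG.stmtAL 

theorem AL2 : TG.StmtAL2 := TG.stmtAL2 

theorem AS : TG.StmtAS := TG.stmtAS 

theorem AS2 : TG.StmtAS2 := TG.stmtAS2 

theorem B3 : TG.StmtB3 := TG.stmtB3 

theorem BK : TG.StmtBK := TG.stmtBK 

theorem CA : TG.StmtCA := TG.stmtCA 

theorem CF : TG.StmtCF := TG.stmtCF 

theorem CG : TG.StmtCG := TG.stmtCG 

theorem CS2 : TG.StmtCS2 := TG.stmtCS2 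

theorem CT1 : TG.StmtCT1 := TG.stmtCT1 

theorem CT3 : TG.StmtCT3 := TG.stmtCT3 

theorem CT4 : TG.StmtCT4 := TG.stmtCT4 

theorem CT6 : TG.StmtCT6 := TG.stmtCT6 

theorem CT7 : TG.StmtCT7 := TG.stmtCT7 

theorem DI : TG.StmtDI := TG.stmtDI 

theorem DP : TG.StmtDP := TG.stmtDP 

theorem FF : TG.StmtFF := TG.stmtFF TG.All.CT4 TG.All.CT6 TG.All.CT7

theorem Fin : TG.StmtFin := TG.fin 

theorem GE : TG.StmtGE := TG.stmtGE 

theorem LS : TG.StmtLS := TG.stmtLS 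

theorem LT : TG.StmtLT := TG.stmtLT 

theorem MAs : TG.TC.StmtMAs := TG.TC.stmtMAs 

theorem MJ : TG.StmtMJ := TG.stmtMJ 

theorem NC : TG.StmtNC := TG.stmtNC 

theorem NL : TG.StmtNL := TG.stmtNL 

theorem NS : TG.StmtNS := TG.stmtNS 

theorem PE : TG.StmtPE := TG.stmtPE 

theorem PF : TG.StmtPF := TG.stmtPF 

theorem PK : TG.StmtPK := TG.stmtPK 

theorem PQ : TG.StmtPQ := TG.stmtPQ 

theorem RH : TG.StmtRH := TG.stmtRH 

theorem SC : TG.StmtSC := TG.stmtSC 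

theorem SD : TG.StmtSD := TG.stmtSD 

theorem SE : TG.StmtSE := TG.stmtSE TG.All.SC

theorem TH : TG.StmtTH := TG.stmtTH 

theorem TP : TG.StmtTP := TG.stmtTP 

theorem TQ : TG.StmtTQ := TG.stmtTQ 

theorem TS1 : TG.StmtTS1 := TG.stmtTS1 

theorem TS2 : TG.StmtTS2 := TG.stmtTS2 

theorem TS3 : TG.StmtTS3 := TG.stmtTS3 

theorem TT : TG.StmtTT := TG.stmtTT TG.All.TH

theorem TY : TG.StmtTY := TG.stmtTY 

theorem UB : TG.StmtUB := TG.stmtUB TG.All.TH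

theorem UU : TG.StmtUU := TG.stmtUU TG.All.TH TG.All.UB

theorem W3 : TG.StmtW3 := TG.stmtW3 

theorem WA : TG.StmtWA := TG.stmtWA TG.All.TH

theorem WB : TG.StmtWB := TG.stmtWB TG.All.TH TG.All.WA

theorem WF : TG.StmtWF := TG.stmtWF 

theorem WH : TG.StmtWH := TG.stmtWH TG.All.CT7 TG.All.NS

theorem Z : TG.StmtZ := TG.stmtZ 

theorem Zs : TG.TC.StmtZs := TG.TC.stmtZs 

theorem TrNS : TrI.StmtNS := TrI.stmtNS 

theorem AB : TG.StmtAB := TG.stmtAB TG.All.PF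

theorem B2 : TG.StmtB2 := TG.stmtB2 TG.All.UU TG.All.UB TG.All.TH TG.All.PF

theorem B4 : TG.StmtB4 := TG.stmtB4 TG.All.UB TG.All.TH TG.All.PF

theorem CT2 : TG.StmtCT2 := TG.stmtCT2 TG.All.PK

theorem CT9 : TG.StmtCT9 := TG.stmtCT9 TG.All.DI

theorem DV : TG.StmtDV := TG.stmtDV TG.All.TP

theorem FG : TG.StmtFG := TG.stmtFG TG.All.TH

theorem FM : TG.StmtFM := TG.stmtFM TG.All.SC TG.All.SE

theorem GI : TG.StmtGI := TG.stmtGI TG.All.TH

theorem GP : TG.StmtGP := TG.stmtGP TG.All.TH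

theorem GS : TG.StmtGS := TG.stmtGS TG.All.GE TG.All.PF

theorem MA : TG.StmtMA := TG.stmtMA TG.All.Z

theorem MO : TG.StmtMO := TG.stmtMO TG.All.TH

theorem NF : TG.StmtNF := TG.stmtNF TG.All.TH TG.All.UB

theorem NN : TG.StmtNN := TG.stmtNN TG.All.PF

theorem PO : TG.StmtPO := TG.stmtPO TG.All.TH

theorem PT : TG.StmtPT := TG.stmtPT TG.All.PO TG.All.DI TG.All.SC TG.All.TH

theorem PtA : TG.TA1m.StmtPtA := TG.TA1m.stmtPtA TG.All.TH TG.All.WA TG.All.WB TG.All.MO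

theorem SHA : TG.StmtSHA := TG.stmtSHA TG.All.TP TG.All.Z TG.All.MA TG.All.PE TG.All.PF

theorem SHB : TG.StmtSHB := TG.stmtSHB TG.All.SHA

theorem SM : TG.StmtSM := TG.stmtSM TG.All.SHB TG.All.NC TG.All.Z TG.All.PF

theorem ST2 : TG.StmtST2 := TG.stmtST2 TG.All.AL TG.All.MA TG.All.PE

theorem TA1 : TG.StmtTA1 := TG.stmtTA1_of TG.All.PtA TG.All.WA TG.All.UB TG.All.WB TG.All.MO TG.All.PF

theorem TA2 : TG.StmtTA2 := TG.stmtTA2 TG.All.WA TG.All.UB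

theorem TC : TG.StmtTC := TG.stmtTC TG.All.TH TG.All.WA TG.All.PF

theorem TD2 : TG.StmtTD2 := TG.stmtTD2 TG.All.PF TG.All.TH TG.All.UB

theorem TF : TG.StmtTF := TG.stmtTF TG.All.TH TG.All.WA TG.All.WB TG.All.MO TG.All.UB

theorem TW : TG.StmtTW := TG.stmtTW TG.All.Z TG.All.MA TG.All.DI TG.All.SC

theorem W1 : TG.StmtW1 := TG.stmtW1 TG.All.NN TG.All.UB TG.All.NF TG.All.FM

theorem B1 : TG.StmtB1 := TG.stmtB1 TG.All.NN TG.All.PF

theorem CT5 : TG.StmtCT5 := TG.stmtCT5 TG.All.Z TG.All.MA TG.All.DI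

theorem CT8 : TG.StmtCT8 := TG.stmtCT8 TG.All.Z TG.All.MA

theorem FR1 : TG.StmtFR1 := TG.stmtFR1 TG.All.ST2 TG.All.CT8 TG.All.SC

theorem FR3 : TG.StmtFR3 := TG.stmtFR3 TG.All.GS TG.All.CT8 TG.All.CT9

theorem GN : TG.StmtGN := TG.stmtGN TG.All.TH TG.All.GI TG.All.GP

theorem HH : TG.StmtHH := TG.stmtHH TG.All.UB TG.All.NN

theorem HN : TG.StmtHN := TG.stmtHN TG.All.HH TG.All.TH TG.All.WA TG.All.UB

theorem HU : TG.StmtHU := TG.stmtHU TG.All.TP TG.All.MA TG.All.PE TG.All.Z TG.All.TQ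

theorem IN : TG.StmtIN := TG.stmtIN TG.All.TH TG.All.MO TG.All.UB TG.All.TT

theorem JC : TG.StmtJC := TG.stmtJC TG.All.HU

theorem LN : TG.StmtLN := TG.stmtLN TG.All.FR1 TG.All.CT8

theorem LP : TG.StmtLP := TG.stmtLP TG.All.CT3 TG.All.MA TG.All.SC TG.All.CT8 TG.All.CT5

theorem MP : TG.StmtMP := TG.stmtMP TG.All.TrNS TG.All.SHB TG.All.SM TG.All.JC TG.All.NC TG.All.Z TG.All.MA TG.All.TW TG.All.SC TG.All.SD

theorem P1 : TG.StmtP1 := TG.stmtP1 TG.All.GS TG.All.TC TG.All.NS TG.All.FM TG.All.WA TG.All.PF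

theorem P3 : TG.StmtP3 := TG.stmtP3 TG.All.P1 TG.All.W1 TG.All.NS TG.All.WA

theorem P4 : TG.StmtP4 := TG.stmtP4 TG.All.P1 TG.All.W1 TG.All.NS TG.All.FM TG.All.WA TG.All.TH

theorem PL : TG.StmtPL := TG.stmtPL TG.All.SHB TG.All.NC TG.All.Z TG.All.PF

theorem RB : TG.StmtRB := TG.stmtRB TG.All.CT2 TG.All.CT4 TG.All.CT5

theorem SH2 : TG.StmtSH2 := TG.stmtSH2 TG.All.HU

theorem T1 : TG.StmtT1 := TG.stmtT1 TG.All.FR1 TG.All.MA TG.All.CT5 TG.All.CT8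

theorem T2 : TG.StmtT2 := TG.stmtT2 TG.All.T1 TG.All.CT3 TG.All.MA TG.All.Z

theorem TD1 : TG.StmtTD1 := TG.stmtTD1 TG.All.TH TG.All.WB TG.All.WA TG.All.IN TG.All.UB TG.All.PF

theorem W2 : TG.StmtW2 := TG.stmtW2 TG.All.TA1 TG.All.TA2 TG.All.TD1 TG.All.TD2 TG.All.TF TG.All.FG TG.All.P1 TG.All.P3 TG.All.P4 TG.All.W1 TG.All.NS TG.All.FM TG.All.UB TG.All.WA

theorem W2R : TG.StmtW2R := TG.stmtW2R TG.All.NS TG.All.W2

theorem W4 : TG.StmtW4 := TG.stmtW4 TG.All.TA2 TG.All.TD2 TG.All.TF TG.All.WA TG.All.P1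

theorem W5 : TG.StmtW5 := TG.stmtW5 TG.All.WA TG.All.B1 TG.All.NS

theorem WA6 : TG.StmtWA6 := TG.stmtWA6 TG.All.P4

theorem WA6R : TG.StmtWA6R := TG.stmtWA6R TG.All.WA6

theorem WA7 : TG.StmtWA7 := TG.stmtWA7 TG.All.TH TG.All.WA TG.All.PF TG.All.SC TG.All.SE TG.All.NS TG.All.P3 TG.All.P4

theorem WA7R : TG.StmtWA7R := TG.stmtWA7R TG.All.WA7

theorem WB6 : TG.StmtWB6 := TG.stmtWB6 TG.All.B1 TG.All.B2 TG.All.B4 TG.All.W1 TG.All.NS TG.All.FM TG.All.HH TG.All.NN TG.All.PF TG.All.TH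

theorem CM : TG.StmtCM := TG.stmtCM TG.All.TrNS TG.All.SHB TG.All.PL TG.All.SM TG.All.JC TG.All.Z TG.All.MA TG.All.TW TG.All.SC TG.All.SD

theorem CO : TG.StmtCO := TG.stmtCO TG.All.TrNS TG.All.HU TG.All.TQ TG.All.SC TG.All.SD

theorem CS1 : TG.StmtCS1 := TG.stmtCS1 TG.All.HH TG.All.UB

theorem FA : TG.StmtFA := TG.stmtFA TG.All.TH TG.All.GN TG.All.WA TG.All.TT

theorem FH : TG.StmtFH := TG.stmtFH TG.All.CT1 TG.All.CT2 TG.All.CT3 TG.All.CT4 TG.All.CT5 TG.All.CT7 TG.All.RB TG.All.WH TG.All.LS TG.All.FF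

theorem SAF : TG.StmtSAF := TG.stmtSAF TG.All.TrNS TG.All.SHB TG.All.SH2 TG.All.JC TG.All.DV TG.All.Z TG.All.MA TG.All.TW TG.All.SC TG.All.SD

theorem SAF2 : TG.StmtSAF2 := TG.stmtSAF2 TG.All.SH2 TG.All.JC

theorem SS : TG.StmtSS := TG.stmtSS_F TG.All.SAF TG.All.Z TG.All.MA TG.All.TW TG.All.SC TG.All.SD

theorem CS : TG.StmtCS := TG.stmtCS TG.All.CS1 TG.All.CS2 TG.All.CT2 TG.All.CT6 TG.All.PT

theorem FS : TG.StmtFS := TG.stmtFS TG.All.CM TG.All.SS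

theorem ML : TG.StmtML := TG.stmtML TG.All.CM TG.All.MP TG.All.SAF TG.All.GS TG.All.Z TG.All.MA TG.All.DI TG.All.SC

theorem FR2 : TG.StmtFR2 := TG.FR2.main TG.All.FS TG.All.CT2 TG.All.CT4 TG.All.CT5 TG.All.CT8 TG.All.SC TG.All.SD

theorem FR4 : TG.StmtFR4 := TG.stmtFR4 TG.All.ML TG.All.AB TG.All.GS TG.All.CT2 TG.All.CT4 TG.All.CT5 TG.All.CT8 TG.All.SC TG.All.SD

theorem LA : TG.StmtLA := TG.stmtLA TG.All.FR2 TG.All.MA TG.All.SC TG.All.CT2 TG.All.CT4 TG.All.CT5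

theorem LB : TG.StmtLB := TG.stmtLB TG.All.FR4

theorem WD : TG.StmtWD := TG.stmtWD TG.All.LN TG.All.FR2 TG.All.FR4 TG.All.MA TG.All.SC TG.All.CT2 TG.All.CT4 TG.All.CT5 TG.All.CT8 TG.All.CT9 TG.All.NS

theorem LW : TG.StmtLW := TG.stmtLW TG.All.WD TG.All.WF TG.All.LP TG.All.NS TG.All.CT8 TG.All.CT3 TG.All.W1 TG.All.W2 TG.All.W3 TG.All.W4 TG.All.W5 TG.All.WA6 TG.All.WA7 TG.All.WB6

theorem Main : TG.StmtMain := TG.stmtMain TG.All.BK TG.All.FA TG.All.CG TG.All.CS TG.All.FH TG.All.LW TG.All.T2 TG.All.FF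

end All

end TG
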