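import Pool.Agent.TG.Conc
import Pool.Agent.TG.PK
import Pool.Agent.TG.Adj
import Pool.Agent.TG.Tree0
set_option autoImplicit false
set_option linter.unusedSectionVars false

/-!
# Module CT3: tail lemma (4'.4) and the sum of the tail gaps
-/

open MeasureTheory Metric Set TrI Filter
open scoped InnerProductSpace ContDiff ENNReal

namespace TG

noncomputable section

namespace CT3

variable {d : ℕ} {E : Type} [NormedAddCommGroup E] [InnerProductSpace ℝ E] [FiniteDimensional ℝ E]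
  {b : Sp d → ℝ}

/-! ## The gaps -/

lemma gm_cont (hb : AK b) (ε s0 : ℝ) {f : Sp d → E} (hf : Continuous f) (j : ℕ) :
    Continuous (gm b ε s0 f j) :=
  (hb.avk_cont (fl_cont hb ε s0 hf j).norm _).sub (fl_cont hb ε s0 hf (j + 1)).norm

lemma gm_cs (hb : AK b) (ε s0 : ℝ) {f : Sp d → E} (hc : HasCompactSupport f) (j : ℕ) :
    HasCompactSupport (gm b ε s0 f j) :=
  (hb.avk_cs (fl_cs hb ε s0 hc j).norm _).sub (fl_cs hb ε s0 hc (j + 1)).norm

lemma gm_nonneg (hb : AK b) (ε s0 : ℝ) (f : Sp d → E) (j : ℕ) (y : Sp d) :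
    0 ≤ gm b ε s0 f j y :=
  sub_nonneg.mpr (hb.norm_avk_le (fl b ε s0 f j) (ε * lev s0 (j + 1)) y)

lemma gm_integrable (hb : AK b) (ε s0 : ℝ) {f : Sp d → E} (hf : Continuous f)
    (hc : HasCompactSupport f) (j : ℕ) : Integrable (gm b ε s0 f j) :=
  (gm_cont hb ε s0 hf j).integrable_of_hasCompactSupport (gm_cs hb ε s0 hc j)

lemma fl_nint (hb : AK b) (ε s0 : ℝ) {f : Sp d → E} (hf : Continuous f)
    (hc : HasCompactSupport f) (j : ℕ) : Integrable (fun y => ‖fl b ε s0 f j y‖) :=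
  (fl_cont hb ε s0 hf j).norm.integrable_of_hasCompactSupport (fl_cs hb ε s0 hc j).norm

lemma gm_int (hb : AK b) (ε s0 : ℝ) {f : Sp d → E} (hf : Continuous f)
    (hc : HasCompactSupport f) (j : ℕ) :
    ∫ y, gm b ε s0 f j y = (∫ y, ‖fl b ε s0 f j y‖) - ∫ y, ‖fl b ε s0 f (j + 1) y‖ := by
  have hn := (fl_cont hb ε s0 hf j).norm
  have hs := (fl_cs hb ε s0 hc j).norm
  rw [← hb.avk_int hn hs (ε * lev s0 (j + 1)), ← integral_sub]
  · rfl
  · exact (hb.avk_cont hn _).integrable_of_hasCompactSupport (hb.avk_cs hs _)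
  · exact fl_nint hb ε s0 hf hc (j + 1)

lemma gm_sum (hb : AK b) (ε s0 : ℝ) {f : Sp d → E} (hf : Continuous f)
    (hc : HasCompactSupport f) (n : ℕ) :
    ∑ j ∈ Finset.range n, ∫ y, gm b ε s0 f j y ≤ ∫ y, ‖f y‖ := by
  simp_rw [gm_int hb ε s0 hf hc]
  rw [Finset.sum_range_sub' (fun j => ∫ y, ‖fl b ε s0 f j y‖)]
  have h1 : 0 ≤ ∫ y, ‖fl b ε s0 f n y‖ := integral_nonneg fun _ => norm_nonneg _
  have h2 : ∫ y, ‖fl b ε s0 f 0 y‖ = ∫ y, ‖f y‖ := rfl
  linarith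

lemma set_mono {g : Sp d → ℝ} (hg : Integrable g) (h0 : ∀ y, 0 ≤ g y) (x : Sp d) {r r' : ℝ}
    (h : r ≤ r') : ∫ y in ball x r, g y ≤ ∫ y in ball x r', g y :=
  setIntegral_mono_set hg.integrableOn (Eventually.of_forall h0)
    (ball_subset_ball h).eventuallyLE

/-- mass transfer with the gaps -/
lemma transfer (hb : AK b) (hev : ∀ x, b (-x) = b x) (hρ : ∀ x, 1 / 2 ≤ ‖x‖ → b x = 0)
    {ε s0 : ℝ} (hε : 0 < ε) (hε1 : ε ≤ 1) (hs0 : 0 < s0) {f : Sp d → E} (hf : Continuous f)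
    (hc : HasCompactSupport f) (x : Sp d) (R' : ℝ) (k : ℕ) :
    ∀ (l : ℕ) (r : ℝ), r + (lev s0 (l + k) - lev s0 l) ≤ R' →
      ∫ y in ball x r, ‖fl b ε s0 f l y‖ ≤ (∫ y in ball x R', ‖fl b ε s0 f (l + k) y‖) +
        ∑ j ∈ Finset.Ico l (l + k), ∫ y in ball x R', gm b ε s0 f j y := by
  induction k with
  | zero =>
    intro l r h
    rw [Nat.add_zero, Finset.Ico_self, Finset.sum_empty, add_zero]
    rw [Nat.add_zero, sub_self, add_zero] at h
    exact set_mono (fl_nint hb ε s0 hf hc l) (fun _ => norm_nonneg _) x h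
  | succ k ih =>
    intro l r h
    have hl := lev_pos hs0 l
    have hl1 := lev_succ s0 l
    have hlk : lev s0 (l + 1) ≤ lev s0 (l + (k + 1)) := by
      unfold lev
      gcongr
      · norm_num
      · omega
    have hs : 0 < ε * lev s0 (l + 1) := mul_pos hε (lev_pos hs0 _)
    have hn := (fl_cont hb ε s0 hf l).norm
    have s1 := hb.setInt_le_avk hev hρ (LB.of_cont hn) (fl_cs hb ε s0 hc l).norm
      (fun _ => norm_nonneg _) hs (E := ball x r) (E' := ball x (r + lev s0 l))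
      measurableSet_ball measurableSet_ball (fun y hy z hz => by
        rw [mem_ball, dist_eq_norm] at hy ⊢
        have h2 : ‖z - x‖ ≤ ‖z - y‖ + ‖y - x‖ := by
          rw [show z - x = (z - y) + (y - x) by abel]
          exact norm_add_le _ _
        rw [hl1] at hz
        nlinarith)
    have s2 : ∫ y in ball x (r + lev s0 l), avk b (ε * lev s0 (l + 1))
        (fun z => ‖fl b ε s0 f l z‖) y =
        (∫ y in ball x (r + lev s0 l), ‖fl b ε s0 f (l + 1) y‖) +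
          ∫ y in ball x (r + lev s0 l), gm b ε s0 f l y := by
      rw [← integral_add (fl_nint hb ε s0 hf hc (l + 1)).integrableOn
        (gm_integrable hb ε s0 hf hc l).integrableOn]
      refine integral_congr_ae (Eventually.of_forall fun y => ?_)
      simp only [gm]
      ring
    have s3 := ih (l + 1) (r + lev s0 l) (by
      rw [show l + 1 + k = l + (k + 1) by ring, hl1]
      linarith)
    have s4 : ∫ y in ball x (r + lev s0 l), gm b ε s0 f l y ≤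
        ∫ y in ball x R', gm b ε s0 f l y :=
      set_mono (gm_integrable hb ε s0 hf hc l) (gm_nonneg hb ε s0 f l) x (by linarith)
    rw [show l + 1 + k = l + (k + 1) by ring] at s3
    rw [Finset.sum_eq_sum_Ico_succ_bot (by omega : l < l + (k + 1))]
    linarith

/-! ## Geometry of cells -/

lemma xC_up {s0 : ℝ} (hs0 : 0 < s0) (i : ℕ) (P : Cell d) :
    ‖xC s0 (up i P) - xC s0 P‖ ≤ Real.sqrt d * lev s0 (P.1 + i) := by
  have hl := lev_pos hs0 (P.1 + i)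
  have hc : ∀ j, |(xC s0 (up i P) - xC s0 P) j| ≤ lev s0 (P.1 + i) := by
    intro j
    have e1 : (xC s0 (up i P) - xC s0 P) j =
        -(lev s0 P.1 * ((P.2 j % 2 ^ i : ℤ) : ℝ)) := by
      have e2 : (xC s0 (up i P) - xC s0 P) j =
          lev s0 (P.1 + i) * ((P.2 j / 2 ^ i : ℤ) : ℝ) - lev s0 P.1 * (P.2 j : ℝ) := by
        simp [xC, cen, up, lat]
      rw [e2, lev_add]
      have e3 : (P.2 j : ℝ) = 2 ^ i * ((P.2 j / 2 ^ i : ℤ) : ℝ) + ((P.2 j % 2 ^ i : ℤ) : ℝ) := by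
        have := Int.mul_ediv_add_emod (P.2 j) (2 ^ i)
        exact_mod_cast this.symm
      rw [e3]
      have e4 : (2 ^ i * (P.2 j / 2 ^ i) + P.2 j % 2 ^ i) = P.2 j :=
        Int.mul_ediv_add_emod (P.2 j) (2 ^ i)
      ring
    have h0 : (0 : ℝ) ≤ ((P.2 j % 2 ^ i : ℤ) : ℝ) := by
      exact_mod_cast Int.emod_nonneg _ (by positivity)
    have h1 : ((P.2 j % 2 ^ i : ℤ) : ℝ) ≤ 2 ^ i := by
      exact_mod_cast (Int.emod_lt_of_pos _ (by positivity)).le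
    have hl0 := lev_pos hs0 P.1
    rw [e1, abs_neg, abs_of_nonneg (by positivity), lev_add]
    nlinarith
  rw [EuclideanSpace.norm_eq]
  refine Real.sqrt_le_iff.mpr ⟨by positivity, ?_⟩
  calc ∑ j, ‖(xC s0 (up i P) - xC s0 P) j‖ ^ 2 ≤ ∑ _j : Fin d, lev s0 (P.1 + i) ^ 2 := by
        refine Finset.sum_le_sum fun j _ => ?_
        rw [Real.norm_eq_abs]
        exact pow_le_pow_left₀ (abs_nonneg _) (hc j) 2
    _ = (Real.sqrt d * lev s0 (P.1 + i)) ^ 2 := by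
        rw [Finset.sum_const, Finset.card_univ, Fintype.card_fin, nsmul_eq_mul, mul_pow,
          Real.sq_sqrt (Nat.cast_nonneg _)]

lemma nw_pos {s0 : ℝ} (hs0 : 0 < s0) (P : Cell d) : 0 < nw s0 P := by
  unfold nw
  have := lev_pos hs0 P.1
  positivity

lemma cw_nw (hd : 1 ≤ d) {s0 : ℝ} (hs0 : 0 < s0) (P : Cell d) : cw s0 P * nw s0 P = 1 := by
  unfold nw cw
  have hl := lev_pos hs0 P.1
  obtain ⟨k, rfl⟩ : ∃ k, d = k + 1 := ⟨d - 1, by omega⟩
  rw [Nat.add_sub_cancel, pow_succ]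
  field_simp

lemma nw_up {s0 : ℝ} (hs0 : 0 < s0) (i : ℕ) (P : Cell d) :
    nw s0 P * 2 ^ i = nw s0 (up i P) * (2 ^ i) ^ d := by
  unfold nw up
  have hl := lev_pos hs0 P.1
  simp only
  rw [lev_add, mul_pow]
  field_simp

/-- the mass in a ball is bounded by the tailed mass -/
lemma ball_le_mT (hb : AK b) {ε s0 : ℝ} (hs0 : 0 < s0) {f : Sp d → E} (hf : Continuous f)
    (hc : HasCompactSupport f) (Q : Cell d) (x : Sp d) {r ρ : ℝ} (hρ : 0 ≤ ρ)
    (h : r + ‖x - xC s0 Q‖ ≤ ρ * lev s0 Q.1) :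
    nw s0 Q * ∫ y in ball x r, ‖fl b ε s0 f (Q.1 - 1) y‖ ≤
      (1 + ρ) ^ (d + 2) * mT b ε s0 f Q := by
  have hl := lev_pos hs0 Q.1
  have hc0 := fl_cont hb ε s0 hf (Q.1 - 1)
  have hcs := (fl_cs hb ε s0 hc (Q.1 - 1)).norm
  have hden : ∀ y : Sp d, 0 < (1 + ‖y - xC s0 Q‖ / lev s0 Q.1) ^ (d + 2) := by
    intro y
    positivity
  have hcont : Continuous (fun y => ‖fl b ε s0 f (Q.1 - 1) y‖ /
      (1 + ‖y - xC s0 Q‖ / lev s0 Q.1) ^ (d + 2)) := by
    refine hc0.norm.div (by fun_prop) fun y => (hden y).ne'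
  have hint : Integrable (fun y => ‖fl b ε s0 f (Q.1 - 1) y‖ /
      (1 + ‖y - xC s0 Q‖ / lev s0 Q.1) ^ (d + 2)) := by
    refine hcont.integrable_of_hasCompactSupport (hcs.mono' ?_)
    intro y hy
    rw [Function.mem_support] at hy
    refine subset_closure ?_
    rw [Function.mem_support]
    intro h0
    apply hy
    rw [h0, zero_div]
  have h1 : ∫ y in ball x r, ‖fl b ε s0 f (Q.1 - 1) y‖ ≤
      (1 + ρ) ^ (d + 2) * ∫ y, ‖fl b ε s0 f (Q.1 - 1) y‖ /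
        (1 + ‖y - xC s0 Q‖ / lev s0 Q.1) ^ (d + 2) := by
    rw [← integral_indicator measurableSet_ball, ← integral_const_mul]
    refine integral_mono ((fl_nint hb ε s0 hf hc (Q.1 - 1)).indicator measurableSet_ball)
      (hint.const_mul _) fun y => ?_
    change (ball x r).indicator (fun y => ‖fl b ε s0 f (Q.1 - 1) y‖) y ≤ _
    by_cases hy : y ∈ ball x r
    · rw [Set.indicator_of_mem hy]
      rw [mem_ball, dist_eq_norm] at hy
      have h2 : ‖y - xC s0 Q‖ ≤ ‖y - x‖ + ‖x - xC s0 Q‖ := by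
        rw [show y - xC s0 Q = (y - x) + (x - xC s0 Q) by abel]
        exact norm_add_le _ _
      have h3 : ‖y - xC s0 Q‖ / lev s0 Q.1 ≤ ρ := by
        rw [div_le_iff₀ hl]
        linarith
      have h4 : (1 + ‖y - xC s0 Q‖ / lev s0 Q.1) ^ (d + 2) ≤ (1 + ρ) ^ (d + 2) := by
        gcongr
      rw [mul_div_assoc', le_div_iff₀ (hden y), mul_comm]
      exact mul_le_mul_of_nonneg_right h4 (norm_nonneg _)
    · rw [Set.indicator_of_notMem hy]
      have := hden y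
      positivity
  have h5 := mul_le_mul_of_nonneg_left h1 (nw_pos hs0 Q).le
  refine h5.trans (le_of_eq ?_)
  unfold mT
  ring


/-! ## The tail lemma -/

/-- the summands of the tail gaps -/
def Bt (b : Sp d → ℝ) (ε s0 : ℝ) (f : Sp d → E) (P : Cell d) (l : ℕ) : ℝ :=
  (1 / 2 : ℝ) ^ ((l + 1) * (d + 2)) *
    ∑ j ∈ Finset.Ico (P.1 - 1) (P.1 + l), ∫ y in ball (xC s0 P) (2 ^ (l + 2) * lev s0 P.1),
      gm b ε s0 f j y

lemma tG_eq (b : Sp d → ℝ) (ε s0 : ℝ) (f : Sp d → E) (P : Cell d) :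
    tG b ε s0 f P = nw s0 P * ∑' l, Bt b ε s0 f P l := rfl

lemma Bt_nonneg (hb : AK b) (ε s0 : ℝ) (f : Sp d → E) (P : Cell d) (l : ℕ) :
    0 ≤ Bt b ε s0 f P l :=
  mul_nonneg (by positivity)
    (Finset.sum_nonneg fun j _ => integral_nonneg fun y => gm_nonneg hb ε s0 f j y)

lemma Bt_le (hb : AK b) (ε s0 : ℝ) {f : Sp d → E} (hf : Continuous f)
    (hc : HasCompactSupport f) (P : Cell d) (l : ℕ) :
    Bt b ε s0 f P l ≤ (1 / 2 : ℝ) ^ l * ∫ y, ‖f y‖ := by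
  unfold Bt
  have h0 : 0 ≤ ∫ y, ‖f y‖ := integral_nonneg fun _ => norm_nonneg _
  have h1 : ∑ j ∈ Finset.Ico (P.1 - 1) (P.1 + l),
      ∫ y in ball (xC s0 P) (2 ^ (l + 2) * lev s0 P.1), gm b ε s0 f j y ≤ ∫ y, ‖f y‖ := by
    refine le_trans ?_ (gm_sum hb ε s0 hf hc (P.1 + l))
    calc ∑ j ∈ Finset.Ico (P.1 - 1) (P.1 + l),
          ∫ y in ball (xC s0 P) (2 ^ (l + 2) * lev s0 P.1), gm b ε s0 f j y ≤
        ∑ j ∈ Finset.Ico (P.1 - 1) (P.1 + l), ∫ y, gm b ε s0 f j y := by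
          refine Finset.sum_le_sum fun j _ => ?_
          exact setIntegral_le_integral (gm_integrable hb ε s0 hf hc j)
            (Eventually.of_forall fun y => gm_nonneg hb ε s0 f j y)
      _ ≤ ∑ j ∈ Finset.range (P.1 + l), ∫ y, gm b ε s0 f j y := by
          refine Finset.sum_le_sum_of_subset_of_nonneg ?_ fun j _ _ =>
            integral_nonneg fun y => gm_nonneg hb ε s0 f j y
          intro j hj
          rw [Finset.mem_Ico] at hj
          rw [Finset.mem_range]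
          exact hj.2
  have h2 : (1 / 2 : ℝ) ^ ((l + 1) * (d + 2)) ≤ (1 / 2 : ℝ) ^ l := by
    refine pow_le_pow_of_le_one (by norm_num) (by norm_num) ?_
    nlinarith
  calc _ ≤ (1 / 2 : ℝ) ^ ((l + 1) * (d + 2)) * ∫ y, ‖f y‖ := by gcongr
    _ ≤ _ := by gcongr

lemma Bt_summable (hb : AK b) (ε s0 : ℝ) {f : Sp d → E} (hf : Continuous f)
    (hc : HasCompactSupport f) (P : Cell d) : Summable (Bt b ε s0 f P) :=
  Summable.of_nonneg_of_le (Bt_nonneg hb ε s0 f P) (Bt_le hb ε s0 hf hc P)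
    (summable_geometric_two.mul_right _)

lemma tG_nonneg (hb : AK b) (ε : ℝ) {s0 : ℝ} (hs0 : 0 < s0) (f : Sp d → E) (P : Cell d) :
    0 ≤ tG b ε s0 f P := by
  rw [tG_eq]
  exact mul_nonneg (nw_pos hs0 P).le (tsum_nonneg (Bt_nonneg hb ε s0 f P))

lemma mT_nonneg (b : Sp d → ℝ) (ε : ℝ) {s0 : ℝ} (hs0 : 0 < s0) (f : Sp d → E) (Q : Cell d) :
    0 ≤ mT b ε s0 f Q := by
  have hl := lev_pos hs0 Q.1
  refine mul_nonneg (nw_pos hs0 Q).le (integral_nonneg fun y => ?_)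
  positivity

lemma tail (hb : AK b) (hev : ∀ x, b (-x) = b x) (hρ : ∀ x, 1 / 2 ≤ ‖x‖ → b x = 0)
    {ε s0 : ℝ} (hε : 0 < ε) (hε1 : ε ≤ 1) (hs0 : 0 < s0) {f : Sp d → E} (hf : Continuous f)
    (hc : HasCompactSupport f) {l0 : ℕ}
    (hl0 : (3 + Real.sqrt d) ^ (d + 2) * 2 ^ d * ((1 / 4) ^ l0 * (4 / 3)) ≤ 1 / 2)
    {γ : ℝ} (hγ : γ ≤ 1) (P : Cell d)
    (hP : ∀ l : ℕ, mT b ε s0 f (up l P) ≤ (2 : ℝ) ^ (γ * l) * mT b ε s0 f P) :
    mT b ε s0 f P ≤ 2 * mC b ε (2 ^ l0) s0 f P + 2 * 2 ^ (d + 2) * tG b ε s0 f P := by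
  have hl := lev_pos hs0 P.1
  have hmT := mT_nonneg b ε hs0 f P
  have hnw := nw_pos hs0 P
  obtain ⟨g, hg⟩ : ∃ g : Sp d → ℝ, g = fun y => ‖fl b ε s0 f (P.1 - 1) y‖ := ⟨_, rfl⟩
  have hgi : Integrable g := by rw [hg]; exact fl_nint hb ε s0 hf hc _
  have hg0 : ∀ y, 0 ≤ g y := by rw [hg]; exact fun y => norm_nonneg _
  have hgs : HasCompactSupport g := by rw [hg]; exact (fl_cs hb ε s0 hc _).norm
  -- a ball containing the support
  obtain ⟨L, hL⟩ : ∃ L : ℕ, ∀ y, g y ≠ 0 → ‖y - xC s0 P‖ < 2 ^ L * lev s0 P.1 := by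
    obtain ⟨R, hR⟩ := hgs.isCompact.isBounded.subset_closedBall (xC s0 P)
    obtain ⟨L, hL⟩ := pow_unbounded_of_one_lt (R / lev s0 P.1) (one_lt_two : (1 : ℝ) < 2)
    refine ⟨L, fun y hy => ?_⟩
    have h1 := hR (subset_tsupport _ hy)
    rw [mem_closedBall, dist_eq_norm] at h1
    rw [div_lt_iff₀ hl] at hL
    linarith
  -- pointwise bound
  have hpt : ∀ y, g y / (1 + ‖y - xC s0 P‖ / lev s0 P.1) ^ (d + 2) ≤
      (ball (xC s0 P) (2 ^ l0 * lev s0 P.1)).indicator g y +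
      ∑ l ∈ Finset.Ico l0 L, (1 / 2 : ℝ) ^ (l * (d + 2)) *
        (ball (xC s0 P) (2 ^ (l + 1) * lev s0 P.1)).indicator g y := by
    intro y
    have hterm : ∀ l, 0 ≤ (1 / 2 : ℝ) ^ (l * (d + 2)) *
        (ball (xC s0 P) (2 ^ (l + 1) * lev s0 P.1)).indicator g y := fun l =>
      mul_nonneg (by positivity) (Set.indicator_nonneg (fun z _ => hg0 z) y)
    have hsum := Finset.sum_nonneg (s := Finset.Ico l0 L) fun l _ => hterm l
    have hq : 0 ≤ ‖y - xC s0 P‖ / lev s0 P.1 := by positivity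
    by_cases h1 : y ∈ ball (xC s0 P) (2 ^ l0 * lev s0 P.1)
    · rw [Set.indicator_of_mem h1]
      have h2 : g y / (1 + ‖y - xC s0 P‖ / lev s0 P.1) ^ (d + 2) ≤ g y :=
        div_le_self (hg0 y) (one_le_pow₀ (by linarith))
      linarith
    rw [Set.indicator_of_notMem h1, zero_add]
    by_cases h2 : g y = 0
    · rw [h2, zero_div]
      exact hsum
    have h3 := hL y h2
    rw [mem_ball, dist_eq_norm, not_lt] at h1
    -- the shell
    have hex : ∃ l : ℕ, ‖y - xC s0 P‖ < 2 ^ (l + 1) * lev s0 P.1 := by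
      refine ⟨L, h3.trans_le ?_⟩
      gcongr
      · norm_num
      · omega
    classical
    obtain ⟨l, hl1, hl2⟩ : ∃ l : ℕ, 2 ^ l * lev s0 P.1 ≤ ‖y - xC s0 P‖ ∧
        ‖y - xC s0 P‖ < 2 ^ (l + 1) * lev s0 P.1 := by
      by_cases h4 : Nat.find hex = 0
      · have h5 := Nat.find_spec hex
        refine ⟨Nat.find hex, ?_, h5⟩
        rw [h4, pow_zero]
        refine le_trans ?_ h1
        gcongr
        exact one_le_pow₀ (by norm_num)
      · refine ⟨Nat.find hex, ?_, Nat.find_spec hex⟩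
        have h5 := Nat.find_min hex (m := Nat.find hex - 1) (by omega)
        rw [not_lt, show Nat.find hex - 1 + 1 = Nat.find hex by omega] at h5
        exact h5
    have hl3 : l0 ≤ l := by
      by_contra h4
      have h5 : (2 : ℝ) ^ (l + 1) * lev s0 P.1 ≤ 2 ^ l0 * lev s0 P.1 := by
        gcongr
        · norm_num
        · omega
      linarith
    have hl4 : l < L := by
      by_contra h4
      have h5 : (2 : ℝ) ^ L * lev s0 P.1 ≤ 2 ^ l * lev s0 P.1 := by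
        gcongr
        · norm_num
        · omega
      linarith
    refine le_trans ?_ (Finset.single_le_sum (fun l _ => hterm l)
      (Finset.mem_Ico.mpr ⟨hl3, hl4⟩))
    rw [Set.indicator_of_mem (by rw [mem_ball, dist_eq_norm]; exact hl2)]
    have h6 : (2 : ℝ) ^ l ≤ ‖y - xC s0 P‖ / lev s0 P.1 := by
      rw [le_div_iff₀ hl]
      exact hl1
    have h7 : ((2 : ℝ) ^ l) ^ (d + 2) ≤ (1 + ‖y - xC s0 P‖ / lev s0 P.1) ^ (d + 2) := by
      gcongr
      linarith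
    have h8 : (1 / 2 : ℝ) ^ (l * (d + 2)) * g y = g y / ((2 : ℝ) ^ l) ^ (d + 2) := by
      rw [← pow_mul, one_div, inv_pow, div_eq_mul_inv, mul_comm]
    rw [h8]
    exact div_le_div_of_nonneg_left (hg0 y) (by positivity) h7
  -- integrate
  have hint1 : ∫ y, g y / (1 + ‖y - xC s0 P‖ / lev s0 P.1) ^ (d + 2) ≤
      (∫ y in ball (xC s0 P) (2 ^ l0 * lev s0 P.1), g y) +
      ∑ l ∈ Finset.Ico l0 L, (1 / 2 : ℝ) ^ (l * (d + 2)) *
        ∫ y in ball (xC s0 P) (2 ^ (l + 1) * lev s0 P.1), g y := by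
    have i1 : Integrable ((ball (xC s0 P) (2 ^ l0 * lev s0 P.1)).indicator g) :=
      hgi.indicator measurableSet_ball
    have i2 : ∀ l ∈ Finset.Ico l0 L, Integrable (fun y => (1 / 2 : ℝ) ^ (l * (d + 2)) *
        (ball (xC s0 P) (2 ^ (l + 1) * lev s0 P.1)).indicator g y) := fun l _ =>
      (hgi.indicator measurableSet_ball).const_mul _
    have e1 : (∫ y in ball (xC s0 P) (2 ^ l0 * lev s0 P.1), g y) +
      ∑ l ∈ Finset.Ico l0 L, (1 / 2 : ℝ) ^ (l * (d + 2)) *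
        ∫ y in ball (xC s0 P) (2 ^ (l + 1) * lev s0 P.1), g y =
      ∫ y, ((ball (xC s0 P) (2 ^ l0 * lev s0 P.1)).indicator g y +
      ∑ l ∈ Finset.Ico l0 L, (1 / 2 : ℝ) ^ (l * (d + 2)) *
        (ball (xC s0 P) (2 ^ (l + 1) * lev s0 P.1)).indicator g y) := by
      rw [integral_add i1 (integrable_finsetSum _ i2), integral_finsetSum _ i2,
        integral_indicator measurableSet_ball]
      congr 1
      refine Finset.sum_congr rfl fun l _ => ?_
      rw [integral_const_mul, integral_indicator measurableSet_ball]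
    rw [e1]
    refine integral_mono_of_nonneg (Eventually.of_forall fun y => ?_)
      (i1.add (integrable_finsetSum _ i2)) (Eventually.of_forall hpt)
    exact div_nonneg (hg0 y) (by positivity)
  -- the shells
  have hshell : ∀ l : ℕ, nw s0 P * ((1 / 2 : ℝ) ^ (l * (d + 2)) *
      ∫ y in ball (xC s0 P) (2 ^ (l + 1) * lev s0 P.1), g y) ≤
      (3 + Real.sqrt d) ^ (d + 2) * 2 ^ d * (1 / 4) ^ l * mT b ε s0 f P +
        2 ^ (d + 2) * (nw s0 P * Bt b ε s0 f P l) := by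
    intro l
    obtain ⟨k, hk⟩ : ∃ k, P.1 - 1 + k = P.1 + l := ⟨P.1 + l - (P.1 - 1), by omega⟩
    have hll : lev s0 (P.1 + l) = 2 ^ l * lev s0 P.1 := lev_add s0 P.1 l
    have hlm := lev_pos hs0 (P.1 - 1)
    have t1 := transfer hb hev hρ hε hε1 hs0 hf hc (xC s0 P) (2 ^ (l + 2) * lev s0 P.1) k
      (P.1 - 1) (2 ^ (l + 1) * lev s0 P.1) (by
        rw [hk, hll]
        have e1 : (2 : ℝ) ^ (l + 2) = 4 * 2 ^ l := by ring
        have e2 : (2 : ℝ) ^ (l + 1) = 2 * 2 ^ l := by ring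
        have e3 : (0 : ℝ) < 2 ^ l := by positivity
        rw [e1, e2]
        nlinarith)
    rw [hk] at t1
    have t2 := ball_le_mT hb (ε := ε) hs0 hf hc (up (l + 1) P) (xC s0 P)
      (r := 2 ^ (l + 2) * lev s0 P.1) (ρ := 2 + Real.sqrt d) (by positivity) (by
        have h1 := xC_up hs0 (l + 1) P
        rw [norm_sub_rev] at h1
        have e1 : lev s0 (up (l + 1) P).1 = 2 ^ (l + 1) * lev s0 P.1 := lev_add s0 P.1 (l + 1)
        have e2 : lev s0 (P.1 + (l + 1)) = 2 ^ (l + 1) * lev s0 P.1 := lev_add s0 P.1 (l + 1)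
        rw [e2] at h1
        rw [e1]
        have e3 : (2 : ℝ) ^ (l + 2) = 2 * 2 ^ (l + 1) := by ring
        rw [e3]
        linarith)
    have e0 : (up (l + 1) P).1 - 1 = P.1 + l := rfl
    rw [e0, show (1 : ℝ) + (2 + Real.sqrt d) = 3 + Real.sqrt d by ring] at t2
    have t3 := hP (l + 1)
    have t4 : (2 : ℝ) ^ (γ * ((l + 1 : ℕ) : ℝ)) ≤ 2 ^ (l + 1) := by
      rw [← Real.rpow_natCast 2 (l + 1)]
      refine Real.rpow_le_rpow_of_exponent_le (by norm_num) ?_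
      have : (0 : ℝ) ≤ ((l + 1 : ℕ) : ℝ) := Nat.cast_nonneg _
      nlinarith
    have t5 : mT b ε s0 f (up (l + 1) P) ≤ 2 ^ (l + 1) * mT b ε s0 f P :=
      t3.trans (mul_le_mul_of_nonneg_right t4 hmT)
    have t6 := nw_up hs0 (l + 1) P
    obtain ⟨X, hX⟩ : ∃ X : ℝ, X = ∫ y in ball (xC s0 P) (2 ^ (l + 2) * lev s0 P.1),
      ‖fl b ε s0 f (P.1 + l) y‖ := ⟨_, rfl⟩
    rw [← hX] at t1 t2
    have hX0 : 0 ≤ X := by rw [hX]; exact integral_nonneg fun _ => norm_nonneg _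
    have hS0 : (0 : ℝ) ≤ (3 + Real.sqrt d) ^ (d + 2) := by positivity
    -- nw P X is bounded
    have t7 : nw s0 P * X ≤ ((2 : ℝ) ^ (l + 1)) ^ d * ((3 + Real.sqrt d) ^ (d + 2) *
        mT b ε s0 f P) := by
      have h1 : nw s0 P * 2 ^ (l + 1) * X =
          ((2 : ℝ) ^ (l + 1)) ^ d * (nw s0 (up (l + 1) P) * X) := by rw [t6]; ring
      have h2 : nw s0 (up (l + 1) P) * X ≤
          (3 + Real.sqrt d) ^ (d + 2) * (2 ^ (l + 1) * mT b ε s0 f P) :=
        t2.trans (mul_le_mul_of_nonneg_left t5 hS0)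
      have h3 : (0 : ℝ) < 2 ^ (l + 1) := by positivity
      have h4 : nw s0 P * 2 ^ (l + 1) * X ≤ ((2 : ℝ) ^ (l + 1)) ^ d *
          ((3 + Real.sqrt d) ^ (d + 2) * (2 ^ (l + 1) * mT b ε s0 f P)) := by
        rw [h1]
        exact mul_le_mul_of_nonneg_left h2 (by positivity)
      have h5 : (nw s0 P * X) * 2 ^ (l + 1) ≤ (((2 : ℝ) ^ (l + 1)) ^ d *
          ((3 + Real.sqrt d) ^ (d + 2) * mT b ε s0 f P)) * 2 ^ (l + 1) := by
        calc (nw s0 P * X) * 2 ^ (l + 1) = nw s0 P * 2 ^ (l + 1) * X := by ring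
          _ ≤ _ := h4
          _ = _ := by ring
      exact le_of_mul_le_mul_right h5 h3
    have e5 : (1 / 2 : ℝ) ^ (l * (d + 2)) * ((2 : ℝ) ^ (l + 1)) ^ d = 2 ^ d * (1 / 4) ^ l := by
      have a1 : (1 / 2 : ℝ) ^ (l * (d + 2)) = (1 / 2) ^ (l * d) * (1 / 4) ^ l := by
        rw [mul_add, pow_add, mul_comm l 2, pow_mul (1 / 2 : ℝ) 2 l]
        norm_num
      have a2 : ((2 : ℝ) ^ (l + 1)) ^ d = 2 ^ (l * d) * 2 ^ d := by
        rw [← pow_mul, add_mul, one_mul, pow_add]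
      have a3 : (1 / 2 : ℝ) ^ (l * d) * 2 ^ (l * d) = 1 := by
        rw [← mul_pow]
        norm_num
      rw [a1, a2]
      calc (1 / 2 : ℝ) ^ (l * d) * (1 / 4) ^ l * (2 ^ (l * d) * 2 ^ d) =
          ((1 / 2 : ℝ) ^ (l * d) * 2 ^ (l * d)) * (2 ^ d * (1 / 4) ^ l) := by ring
        _ = _ := by rw [a3, one_mul]
    have e6 : (1 / 2 : ℝ) ^ (l * (d + 2)) = 2 ^ (d + 2) * (1 / 2 : ℝ) ^ ((l + 1) * (d + 2)) := by
      rw [add_mul, one_mul, pow_add]
      have a3 : (2 : ℝ) ^ (d + 2) * (1 / 2) ^ (d + 2) = 1 := by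
        rw [← mul_pow]
        norm_num
      calc (1 / 2 : ℝ) ^ (l * (d + 2)) = ((2 : ℝ) ^ (d + 2) * (1 / 2) ^ (d + 2)) *
          (1 / 2 : ℝ) ^ (l * (d + 2)) := by rw [a3, one_mul]
        _ = _ := by ring
    obtain ⟨G, hG⟩ : ∃ G : ℝ, G = ∑ j ∈ Finset.Ico (P.1 - 1) (P.1 + l),
      ∫ y in ball (xC s0 P) (2 ^ (l + 2) * lev s0 P.1), gm b ε s0 f j y := ⟨_, rfl⟩
    have hB : Bt b ε s0 f P l = (1 / 2 : ℝ) ^ ((l + 1) * (d + 2)) * G := by rw [hG]; rfl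
    rw [← hG] at t1
    have hgX : ∫ y in ball (xC s0 P) (2 ^ (l + 1) * lev s0 P.1), g y ≤ X + G := by
      rw [hg]
      exact t1
    calc nw s0 P * ((1 / 2 : ℝ) ^ (l * (d + 2)) *
          ∫ y in ball (xC s0 P) (2 ^ (l + 1) * lev s0 P.1), g y) ≤
        nw s0 P * ((1 / 2 : ℝ) ^ (l * (d + 2)) * (X + G)) := by gcongr
      _ = (1 / 2 : ℝ) ^ (l * (d + 2)) * (nw s0 P * X) +
          nw s0 P * ((1 / 2 : ℝ) ^ (l * (d + 2)) * G) := by ring
      _ ≤ (1 / 2 : ℝ) ^ (l * (d + 2)) * (((2 : ℝ) ^ (l + 1)) ^ d *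
          ((3 + Real.sqrt d) ^ (d + 2) * mT b ε s0 f P)) +
          nw s0 P * ((1 / 2 : ℝ) ^ (l * (d + 2)) * G) := by gcongr
      _ = ((1 / 2 : ℝ) ^ (l * (d + 2)) * ((2 : ℝ) ^ (l + 1)) ^ d) *
          ((3 + Real.sqrt d) ^ (d + 2) * mT b ε s0 f P) +
          nw s0 P * ((2 ^ (d + 2) * (1 / 2 : ℝ) ^ ((l + 1) * (d + 2))) * G) := by
            rw [← e6]; ring
      _ = _ := by rw [e5, hB]; ring
  -- sum up
  have hfin : mT b ε s0 f P ≤ nw s0 P * (∫ y in ball (xC s0 P) (2 ^ l0 * lev s0 P.1), g y) +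
      ∑ l ∈ Finset.Ico l0 L, ((3 + Real.sqrt d) ^ (d + 2) * 2 ^ d * (1 / 4) ^ l * mT b ε s0 f P +
        2 ^ (d + 2) * (nw s0 P * Bt b ε s0 f P l)) := by
    have h1 : mT b ε s0 f P =
        nw s0 P * ∫ y, g y / (1 + ‖y - xC s0 P‖ / lev s0 P.1) ^ (d + 2) := by
      rw [hg]; rfl
    have h2 := mul_le_mul_of_nonneg_left hint1 hnw.le
    rw [← h1, mul_add, Finset.mul_sum] at h2
    exact h2.trans (add_le_add le_rfl (Finset.sum_le_sum fun l _ => hshell l))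
  have hmC : nw s0 P * (∫ y in ball (xC s0 P) (2 ^ l0 * lev s0 P.1), g y) =
      mC b ε (2 ^ l0) s0 f P := by
    rw [hg]; rfl
  rw [hmC, Finset.sum_add_distrib, ← Finset.sum_mul, ← Finset.mul_sum, ← Finset.mul_sum,
    ← Finset.mul_sum] at hfin
  have hgeo : ∑ l ∈ Finset.Ico l0 L, (1 / 4 : ℝ) ^ l ≤ (1 / 4) ^ l0 * (4 / 3) := by
    have := geom_sum_Ico_le_of_lt_one (m := l0) (n := L) (show (0 : ℝ) ≤ 1 / 4 by norm_num)
      (by norm_num)
    refine this.trans (le_of_eq ?_)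
    rw [div_eq_mul_inv]
    norm_num
  have hpart : ∑ l ∈ Finset.Ico l0 L, Bt b ε s0 f P l ≤ ∑' l, Bt b ε s0 f P l :=
    (Bt_summable hb ε s0 hf hc P).sum_le_tsum _ fun l _ => Bt_nonneg hb ε s0 f P l
  have h3 : (3 + Real.sqrt d) ^ (d + 2) * 2 ^ d * (∑ l ∈ Finset.Ico l0 L, (1 / 4 : ℝ) ^ l) *
      mT b ε s0 f P ≤ 1 / 2 * mT b ε s0 f P := by
    refine mul_le_mul_of_nonneg_right (le_trans ?_ hl0) hmT
    exact mul_le_mul_of_nonneg_left hgeo (by positivity)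
  have h4 : 2 ^ (d + 2) * (nw s0 P * ∑ l ∈ Finset.Ico l0 L, Bt b ε s0 f P l) ≤
      2 ^ (d + 2) * tG b ε s0 f P := by
    rw [tG_eq]
    gcongr
  linarith

/-! ## The sum of the tail gaps -/

lemma tsum_pred (F : ℕ → ℝ≥0∞) : ∑' k, F (k - 1) ≤ 2 * ∑' k, F k := by
  rw [tsum_eq_zero_add' ENNReal.summable, two_mul]
  refine add_le_add ?_ (le_of_eq ?_)
  · exact ENNReal.le_tsum 0
  · rfl

lemma count (a : ℕ → ℝ≥0∞) (l : ℕ) :
    ∑' k, ∑ j ∈ Finset.Ico (k - 1) (k + l), a j ≤ ((l + 1 : ℕ) : ℝ≥0∞) * (2 * ∑' j, a j) := by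
  have h1 : ∀ k, ∑ j ∈ Finset.Ico (k - 1) (k + l), a j ≤
      ∑ i ∈ Finset.range (l + 1), a (k - 1 + i) := by
    intro k
    rw [Finset.sum_Ico_eq_sum_range]
    refine Finset.sum_le_sum_of_subset (Finset.range_mono ?_)
    omega
  calc ∑' k, ∑ j ∈ Finset.Ico (k - 1) (k + l), a j
      ≤ ∑' k, ∑ i ∈ Finset.range (l + 1), a (k - 1 + i) := ENNReal.tsum_le_tsum h1
    _ = ∑ i ∈ Finset.range (l + 1), ∑' k, a (k - 1 + i) :=
        Summable.tsum_finsetSum fun _ _ => ENNReal.summable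
    _ ≤ ∑ _i ∈ Finset.range (l + 1), 2 * ∑' j, a j := by
        refine Finset.sum_le_sum fun i _ => ?_
        refine (tsum_pred fun k => a (k + i)).trans (mul_le_mul' le_rfl ?_)
        exact ENNReal.tsum_comp_le_tsum_of_injective (add_left_injective i) a
    _ = _ := by rw [Finset.sum_const, Finset.card_range, nsmul_eq_mul]

lemma tsum_gm (hb : AK b) (ε s0 : ℝ) {f : Sp d → E} (hf : Continuous f)
    (hc : HasCompactSupport f) :
    ∑' j, ENNReal.ofReal (∫ y, gm b ε s0 f j y) ≤ ENNReal.ofReal (∫ y, ‖f y‖) := by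
  refine ENNReal.tsum_le_of_sum_range_le fun n => ?_
  rw [← ENNReal.ofReal_sum_of_nonneg fun j _ => integral_nonneg fun y => gm_nonneg hb ε s0 f j y]
  exact ENNReal.ofReal_le_ofReal (gm_sum hb ε s0 hf hc n)

lemma level_le (hb : AK b) (ε : ℝ) {s0 : ℝ} (hs0 : 0 < s0) {f : Sp d → E} (hf : Continuous f)
    (hc : HasCompactSupport f) (l : ℕ) :
    ∑' P : Cell d, ENNReal.ofReal (Bt b ε s0 f P l) ≤
      ENNReal.ofReal (2 * 8 ^ d * (1 / 2) ^ (l + 1)) * ENNReal.ofReal (∫ y, ‖f y‖) := by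
  have e1 : ∀ P : Cell d, ENNReal.ofReal (Bt b ε s0 f P l) =
      ENNReal.ofReal ((1 / 2 : ℝ) ^ ((l + 1) * (d + 2))) *
        ∑ j ∈ Finset.Ico (P.1 - 1) (P.1 + l), ENNReal.ofReal
          (∫ y in ball (lev s0 P.1 • lat P.2) (2 ^ (l + 2) * lev s0 P.1), gm b ε s0 f j y) := by
    intro P
    unfold Bt
    rw [ENNReal.ofReal_mul (by positivity), ENNReal.ofReal_sum_of_nonneg fun j _ =>
      integral_nonneg fun y => gm_nonneg hb ε s0 f j y]
    rfl
  simp_rw [e1]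
  rw [ENNReal.tsum_mul_left]
  have e2 : ∑' P : Cell d, ∑ j ∈ Finset.Ico (P.1 - 1) (P.1 + l), ENNReal.ofReal
          (∫ y in ball (lev s0 P.1 • lat P.2) (2 ^ (l + 2) * lev s0 P.1), gm b ε s0 f j y) =
      ∑' (k : ℕ) (p : Fin d → ℤ), ∑ j ∈ Finset.Ico (k - 1) (k + l), ENNReal.ofReal
          (∫ y in ball (lev s0 k • lat p) (2 ^ (l + 2) * lev s0 k), gm b ε s0 f j y) :=
    ENNReal.tsum_prod (f := fun (k : ℕ) (p : Fin d → ℤ) =>
      ∑ j ∈ Finset.Ico (k - 1) (k + l), ENNReal.ofReal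
          (∫ y in ball (lev s0 k • lat p) (2 ^ (l + 2) * lev s0 k), gm b ε s0 f j y))
  rw [e2]
  have h1 : ∀ k j : ℕ, ∑' p : Fin d → ℤ, ENNReal.ofReal
          (∫ y in ball (lev s0 k • lat p) (2 ^ (l + 2) * lev s0 k), gm b ε s0 f j y) ≤
      ENNReal.ofReal ((2 * 2 ^ (l + 2) + 1) ^ d) * ENNReal.ofReal (∫ y, gm b ε s0 f j y) := by
    intro k j
    rw [ENNReal.tsum_eq_iSup_sum]
    refine iSup_le fun S => ?_
    rw [← ENNReal.ofReal_sum_of_nonneg fun p _ =>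
      integral_nonneg fun y => gm_nonneg hb ε s0 f j y, ← ENNReal.ofReal_mul (by positivity)]
    exact ENNReal.ofReal_le_ofReal (PK.overlap (lev s0 k) (2 ^ (l + 2)) (lev_pos hs0 k)
      (by positivity) S (gm_integrable hb ε s0 hf hc j) (gm_nonneg hb ε s0 f j))
  have h2 : ∑' (k : ℕ) (p : Fin d → ℤ), ∑ j ∈ Finset.Ico (k - 1) (k + l), ENNReal.ofReal
          (∫ y in ball (lev s0 k • lat p) (2 ^ (l + 2) * lev s0 k), gm b ε s0 f j y) ≤
      ENNReal.ofReal ((2 * 2 ^ (l + 2) + 1) ^ d) * (((l + 1 : ℕ) : ℝ≥0∞) *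
        (2 * ENNReal.ofReal (∫ y, ‖f y‖))) := by
    calc _ ≤ ∑' k : ℕ, ∑ j ∈ Finset.Ico (k - 1) (k + l),
          ENNReal.ofReal ((2 * 2 ^ (l + 2) + 1) ^ d) *
            ENNReal.ofReal (∫ y, gm b ε s0 f j y) := by
          refine ENNReal.tsum_le_tsum fun k => ?_
          rw [Summable.tsum_finsetSum fun _ _ => ENNReal.summable]
          exact Finset.sum_le_sum fun j _ => h1 k j
      _ = ENNReal.ofReal ((2 * 2 ^ (l + 2) + 1) ^ d) *
          ∑' k : ℕ, ∑ j ∈ Finset.Ico (k - 1) (k + l),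
            ENNReal.ofReal (∫ y, gm b ε s0 f j y) := by
          rw [← ENNReal.tsum_mul_left]
          congr 1
          funext k
          rw [Finset.mul_sum]
      _ ≤ _ := by
          gcongr
          refine (count _ l).trans ?_
          gcongr
          exact tsum_gm hb ε s0 hf hc
  calc _ ≤ ENNReal.ofReal ((1 / 2 : ℝ) ^ ((l + 1) * (d + 2))) *
        (ENNReal.ofReal ((2 * 2 ^ (l + 2) + 1) ^ d) * (((l + 1 : ℕ) : ℝ≥0∞) *
        (2 * ENNReal.ofReal (∫ y, ‖f y‖)))) := by gcongr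
    _ = ENNReal.ofReal ((1 / 2 : ℝ) ^ ((l + 1) * (d + 2)) * ((2 * 2 ^ (l + 2) + 1) ^ d *
        (((l + 1 : ℕ) : ℝ) * 2))) * ENNReal.ofReal (∫ y, ‖f y‖) := by
        rw [ENNReal.ofReal_mul (by positivity), ENNReal.ofReal_mul (by positivity),
          ENNReal.ofReal_mul (by positivity), ENNReal.ofReal_natCast, ENNReal.ofReal_ofNat]
        ring
    _ ≤ _ := by
        refine mul_le_mul' (ENNReal.ofReal_le_ofReal ?_) le_rfl
        have a0 : (2 * 2 ^ (l + 2) + 1 : ℝ) ≤ 2 ^ (l + 1) * 8 := by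
          have e1 : (2 : ℝ) ^ (l + 2) = 2 * 2 ^ (l + 1) := by ring
          have e2 : (1 : ℝ) ≤ 2 ^ (l + 1) := one_le_pow₀ (by norm_num)
          rw [e1]
          linarith
        have a1 : ((2 * 2 ^ (l + 2) + 1 : ℝ)) ^ d ≤ (2 ^ (l + 1)) ^ d * 8 ^ d := by
          rw [← mul_pow]
          gcongr
        have a2 : (((l + 1 : ℕ) : ℝ)) ≤ 2 ^ (l + 1) := by
          exact_mod_cast (Nat.lt_two_pow_self (n := l + 1)).le
        have a3 : (1 / 2 : ℝ) ^ ((l + 1) * (d + 2)) =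
            (1 / 2) ^ ((l + 1) * d) * ((1 / 2) ^ (l + 1) * (1 / 2) ^ (l + 1)) := by
          rw [mul_add, pow_add, mul_comm (l + 1) 2, pow_mul (1 / 2 : ℝ) 2 (l + 1), ← mul_pow]
          norm_num
        have a4 : (1 / 2 : ℝ) ^ ((l + 1) * d) * (2 ^ (l + 1)) ^ d = 1 := by
          rw [← pow_mul, ← mul_pow]
          norm_num
        have a5 : (1 / 2 : ℝ) ^ (l + 1) * 2 ^ (l + 1) = 1 := by
          rw [← mul_pow]
          norm_num
        calc (1 / 2 : ℝ) ^ ((l + 1) * (d + 2)) * ((2 * 2 ^ (l + 2) + 1) ^ d *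
              (((l + 1 : ℕ) : ℝ) * 2)) ≤
            (1 / 2 : ℝ) ^ ((l + 1) * (d + 2)) * (((2 ^ (l + 1)) ^ d * 8 ^ d) *
              (2 ^ (l + 1) * 2)) := by gcongr
          _ = ((1 / 2 : ℝ) ^ ((l + 1) * d) * (2 ^ (l + 1)) ^ d) *
              ((1 / 2 : ℝ) ^ (l + 1) * 2 ^ (l + 1)) * (2 * 8 ^ d * (1 / 2) ^ (l + 1)) := by
              rw [a3]; ring
          _ = _ := by rw [a4, a5, one_mul, one_mul]

lemma sum_le (hd : 1 ≤ d) (hb : AK b) (ε : ℝ) {s0 : ℝ} (hs0 : 0 < s0) {f : Sp d → E}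
    (hf : Continuous f) (hc : HasCompactSupport f) :
    cs univ (fun P => cw s0 P * tG b ε s0 f P) ≤
      ENNReal.ofReal (2 * 8 ^ d * ∫ y, ‖f y‖) := by
  rw [cs_univ]
  have e1 : ∀ P : Cell d, ENNReal.ofReal (cw s0 P * tG b ε s0 f P) =
      ∑' l, ENNReal.ofReal (Bt b ε s0 f P l) := by
    intro P
    rw [tG_eq, ← mul_assoc, cw_nw hd hs0, one_mul]
    exact ENNReal.ofReal_tsum_of_nonneg (Bt_nonneg hb ε s0 f P) (Bt_summable hb ε s0 hf hc P)
  simp_rw [e1]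
  rw [ENNReal.tsum_comm]
  refine (ENNReal.tsum_le_tsum fun l => level_le hb ε hs0 hf hc l).trans ?_
  rw [ENNReal.tsum_mul_right, ENNReal.ofReal_mul (by positivity)]
  gcongr
  have hsum : Summable (fun l : ℕ => (2 * 8 ^ d * (1 / 2) ^ (l + 1) : ℝ)) := by
    have : (fun l : ℕ => (2 * 8 ^ d * (1 / 2) ^ (l + 1) : ℝ)) =
        fun l : ℕ => (8 ^ d : ℝ) * (1 / 2) ^ l := by
      funext l
      rw [pow_succ]
      ring
    rw [this]
    exact summable_geometric_two.mul_left _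
  rw [← ENNReal.ofReal_tsum_of_nonneg (fun l => by positivity) hsum]
  refine ENNReal.ofReal_le_ofReal (le_of_eq ?_)
  have : (fun l : ℕ => (2 * 8 ^ d * (1 / 2) ^ (l + 1) : ℝ)) =
      fun l : ℕ => (8 ^ d : ℝ) * (1 / 2) ^ l := by
    funext l
    rw [pow_succ]
    ring
  rw [this, tsum_mul_left, tsum_geometric_two]
  ring

end CT3

theorem stmtCT3 : StmtCT3 := by
  intro d hd
  obtain ⟨l0, hl0⟩ : ∃ l0 : ℕ,
      (3 + Real.sqrt d) ^ (d + 2) * 2 ^ d * ((1 / 4) ^ l0 * (4 / 3)) ≤ 1 / 2 := by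
    have hS : 0 < (3 + Real.sqrt d) ^ (d + 2) * 2 ^ d * (4 / 3) := by positivity
    obtain ⟨l0, hl0⟩ := exists_pow_lt_of_lt_one
      (show 0 < 1 / 2 / ((3 + Real.sqrt d) ^ (d + 2) * 2 ^ d * (4 / 3)) by positivity)
      (show (1 / 4 : ℝ) < 1 by norm_num)
    refine ⟨l0, ?_⟩
    rw [lt_div_iff₀ hS] at hl0
    linarith
  refine ⟨2 ^ l0, one_le_pow₀ (by norm_num), ?_⟩
  intro M c0 ε hε hε1 b hb
  have hak := hb.ak
  refine ⟨2 * 8 ^ d + 2 * 2 ^ (d + 2), by positivity, ?_⟩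
  intro E _ _ _ f hf hc s0 hs0
  have h0 : 0 ≤ ∫ y, ‖f y‖ := integral_nonneg fun _ => norm_nonneg _
  have hN : (0 : ℝ) < 2 * 2 ^ (d + 2) := by positivity
  have h8 : (0 : ℝ) < 2 * 8 ^ d := by positivity
  refine ⟨fun P => CT3.tG_nonneg hak ε hs0 f P, ?_, ?_⟩
  · refine (CT3.sum_le hd hak ε hs0 hf hc).trans (ENNReal.ofReal_le_ofReal ?_)
    nlinarith
  · intro γ hγ P hP
    have h1 := CT3.tail hak hb.even hb.supp hε hε1 hs0 hf hc hl0 hγ P hP
    have h2 := CT3.tG_nonneg hak ε hs0 f P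
    nlinarith

end

end TG
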