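import Pool.Agent.TG.GI3

/-!
# Trace inequality, general operators: module GI
-/

open MeasureTheory Metric Set TrI
open scoped InnerProductSpace ContDiff

namespace TG

noncomputable section

variable {d : ℕ}

/-- the compact set of integration -/
def giS (d : ℕ) : Set (ℝ × Sp d) := Icc (1 / 2 : ℝ) 2 ×ˢ closedBall (0 : Sp d) 1

lemma giS_compact : IsCompact (giS d) := isCompact_Icc.prod (isCompact_closedBall 0 1)

lemma gi_conv {c : ℝ → ℝ} (hc : Continuous c) {κ : Sp d → ℝ} (hκ : GiK κ)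
    {H : ℝ × Sp d → ℝ} (hH : Continuous H) :
    ∫ r in (1 / 2 : ℝ)..2, c r * ∫ z, κ z * H (r, z) =
      ∫ x in giS d, (c x.1 * κ x.2) * H x := by
  have hi : IntegrableOn (fun x : ℝ × Sp d => (c x.1 * κ x.2) * H x) (giS d) := by
    have := hκ.1
    exact (by fun_prop : Continuous fun x : ℝ × Sp d =>
      (c x.1 * κ x.2) * H x).continuousOn.integrableOn_compact giS_compact
  unfold giS at hi ⊢
  rw [Measure.volume_eq_prod] at hi ⊢
  rw [setIntegral_prod _ hi, intervalIntegral.integral_of_le (by norm_num),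
    ← integral_Icc_eq_integral_Ioc]
  congr 1
  funext r
  have : ∫ z, κ z * H (r, z) = ∫ z in closedBall (0 : Sp d) 1, κ z * H (r, z) := by
    rw [setIntegral_eq_integral_of_forall_compl_eq_zero]
    intro z hz
    rw [mem_closedBall, dist_zero_right, not_le] at hz
    rw [hκ.2 z hz.le, zero_mul]
  rw [this, ← integral_const_mul]
  congr 1
  funext z
  ring

lemma gi_conv' {c : ℝ → ℝ} (hc : Continuous c) {κ : Sp d → ℝ} (hκ : GiK κ)
    {H : ℝ × Sp d → ℝ} (hH : Continuous H) :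
    ∫ z, κ z * ∫ r in (1 / 2 : ℝ)..2, c r * H (r, z) =
      ∫ r in (1 / 2 : ℝ)..2, c r * ∫ z, κ z * H (r, z) := by
  have hi : Integrable (fun x : Sp d × ℝ => (κ x.1 * c x.2) * H (x.2, x.1))
      ((volume.restrict (closedBall (0 : Sp d) 1)).prod
        (volume.restrict (Icc (1 / 2 : ℝ) 2))) := by
    rw [Measure.prod_restrict]
    have := hκ.1
    exact (by fun_prop : Continuous fun x : Sp d × ℝ =>
      (κ x.1 * c x.2) * H (x.2, x.1)).continuousOn.integrableOn_compact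
      ((isCompact_closedBall 0 1).prod isCompact_Icc)
  have h0 : ∀ g : Sp d → ℝ, ∫ z, κ z * g z = ∫ z in closedBall (0 : Sp d) 1, κ z * g z := by
    intro g
    rw [setIntegral_eq_integral_of_forall_compl_eq_zero]
    intro z hz
    rw [mem_closedBall, dist_zero_right, not_le] at hz
    rw [hκ.2 z hz.le, zero_mul]
  have h1 : ∀ g : ℝ → ℝ, ∫ r in (1 / 2 : ℝ)..2, g r = ∫ r in Icc (1 / 2 : ℝ) 2, g r := by
    intro g
    rw [intervalIntegral.integral_of_le (by norm_num), ← integral_Icc_eq_integral_Ioc]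
  simp only [h1]
  rw [h0]
  have e1 : ∀ z : Sp d, κ z * ∫ r in Icc (1 / 2 : ℝ) 2, c r * H (r, z) =
      ∫ r in Icc (1 / 2 : ℝ) 2, (κ z * c r) * H (r, z) := by
    intro z
    rw [← integral_const_mul]
    congr 1
    funext r
    ring
  have e2 : ∀ r : ℝ, c r * ∫ z, κ z * H (r, z) =
      ∫ z in closedBall (0 : Sp d) 1, (κ z * c r) * H (r, z) := by
    intro r
    rw [h0, ← integral_const_mul]
    congr 1
    funext z
    ring
  simp only [e1, e2]
  exact integral_integral_swap hi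

lemma giA_cont {ε : ℝ} {κ : Sp d → ℝ} (hκ : GiK κ) {F : ℝ × Sp d → ℝ} (hF : Continuous F)
    (y : Sp d) : Continuous fun r => giA ε κ F r y := by
  have h0 : ∀ r, giA ε κ F r y =
      ∫ z in closedBall (0 : Sp d) 1, κ z * F (r, y + (ε * r) • z) := by
    intro r
    unfold giA
    rw [setIntegral_eq_integral_of_forall_compl_eq_zero]
    intro z hz
    rw [mem_closedBall, dist_zero_right, not_le] at hz
    rw [hκ.2 z hz.le, zero_mul]
  simp only [h0]
  apply continuous_parametric_integral_of_continuous _ (isCompact_closedBall _ _)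
  have := hκ.1
  show Continuous fun q : ℝ × Sp d => κ q.2 * F (q.1, y + (ε * q.1) • q.2)
  fun_prop

lemma gi_curve {F : ℝ × Sp d → ℝ} (hF : ContDiff ℝ ∞ F) (ε : ℝ) (y z : Sp d) (r : ℝ) :
    HasDerivAt (fun r => F (r, y + (ε * r) • z))
      (giD (1, ε • z) F (r, y + (ε * r) • z)) r := by
  have h1 : HasDerivAt (fun r : ℝ => (r, y + (ε * r) • z)) ((1 : ℝ), ε • z) r := by
    apply (hasDerivAt_id r).prodMk
    have := (((hasDerivAt_id r).const_mul ε).smul_const z).const_add y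
    simpa using this
  have h2 : HasFDerivAt F (fderiv ℝ F (r, y + (ε * r) • z)) (r, y + (ε * r) • z) :=
    ((hF.differentiable (by simp)) _).hasFDerivAt
  exact h2.comp_hasDerivAt r h1

/-- the smooth part: identity for G -/
lemma gi_GG {β : Sp d → ℝ} (hβ : GiK β) {f : ℝ × Sp d → ℝ} (hf : ContDiff ℝ ∞ f) (ε : ℝ)
    (y : Sp d) :
    giA ε β f 1 y - 2 / 3 * giA ε β f (1 / 2) y - 1 / 3 * giA ε β f 2 y =
      -∫ r in (1 / 2 : ℝ)..2, tau 1 r *
        ∫ z, β z * iteratedFDeriv ℝ 2 f (r, y + (ε * r) • z) (fun _ => ((1 : ℝ), ε • z)) := by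
  have hc : ∀ r : ℝ, Continuous fun z : Sp d => f (r, y + (ε * r) • z) := fun r =>
    (gi_ray_smooth hf r (ε * r) y).continuous
  have hc2 : Continuous (iteratedFDeriv ℝ 2 f) :=
    hf.continuous_iteratedFDeriv (WithTop.coe_le_coe.2 le_top)
  have hH : Continuous fun q : ℝ × Sp d =>
      iteratedFDeriv ℝ 2 f (q.1, y + (ε * q.1) • q.2) (fun _ => ((1 : ℝ), ε • q.2)) := by
    simp only [gi_exp1 hf]
    have a1 := (giT_smooth (giT_smooth hf)).continuous
    have a2 : ∀ j : Fin d, Continuous (giD (0, giE j) (giT f)) := fun j =>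
      (giD_smooth _ (giT_smooth hf)).continuous
    have a3 : ∀ i j : Fin d, Continuous (giD (0, giE i) (giD (0, giE j) f)) := fun i j =>
      (giD_smooth _ (giD_smooth _ hf)).continuous
    fun_prop
  have key : ∀ z : Sp d, f (1, y + (ε * 1) • z) - 2 / 3 * f (1 / 2, y + (ε * (1 / 2)) • z) -
      1 / 3 * f (2, y + (ε * 2) • z) = -∫ r in (1 / 2 : ℝ)..2, tau 1 r *
        iteratedFDeriv ℝ 2 f (r, y + (ε * r) • z) (fun _ => ((1 : ℝ), ε • z)) := by
    intro z
    apply tent_ibp (φ := fun r => f (r, y + (ε * r) • z))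
      (φ1 := fun r => giD (1, ε • z) f (r, y + (ε * r) • z))
      (φ2 := fun r => iteratedFDeriv ℝ 2 f (r, y + (ε * r) • z) (fun _ => ((1 : ℝ), ε • z)))
    · exact fun r => gi_curve hf ε y z r
    · intro r
      rw [giD_it2 _ hf]
      exact gi_curve (giD_smooth _ hf) ε y z r
    · exact hH.comp (continuous_id.prodMk continuous_const : Continuous fun r : ℝ => (r, z))
  rw [← gi_conv' tau_cont hβ (H := fun q => iteratedFDeriv ℝ 2 f (q.1, y + (ε * q.1) • q.2)
    (fun _ => ((1 : ℝ), ε • q.2))) hH, ← integral_neg]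
  have e : ∀ z : Sp d, -(β z * ∫ r in (1 / 2 : ℝ)..2, tau 1 r *
        iteratedFDeriv ℝ 2 f (r, y + (ε * r) • z) (fun _ => ((1 : ℝ), ε • z))) =
      β z * f (1, y + (ε * 1) • z) - 2 / 3 * (β z * f (1 / 2, y + (ε * (1 / 2)) • z)) -
      1 / 3 * (β z * f (2, y + (ε * 2) • z)) := by
    intro z
    have := key z
    linear_combination (-β z) * this
  rw [integral_congr_ae (Filter.Eventually.of_forall e)]
  have j1 := hβ.int (hc 1)
  have j2 := (hβ.int (hc (1 / 2))).const_mul (2 / 3)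
  have j3 := (hβ.int (hc 2)).const_mul (1 / 3)
  have j12 : Integrable fun z => β z * f (1, y + (ε * 1) • z) -
      2 / 3 * (β z * f (1 / 2, y + (ε * (1 / 2)) • z)) := j1.sub j2
  rw [integral_sub j12 j3, integral_sub j1 j2, integral_const_mul, integral_const_mul]
  rfl

/-- one term of W -/
lemma gi_term (ε : ℝ) {c : ℝ → ℝ} (hc : Continuous c) {κ : Sp d → ℝ} (hκ : GiK κ)
    {F : ℝ × Sp d → ℝ} (hF : ContDiff ℝ ∞ F) :
    ∃ D : Sp d → Sp d → ℝ, GiGood (fun y => ∫ r in (1 / 2 : ℝ)..2, c r * giA ε κ F r y) D ∧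
      (∀ y, ∑ j : Fin d, D (giE j) y = ∫ r in (1 / 2 : ℝ)..2, c r * giA ε κ (giL F) r y) ∧
      ∀ n y, D n y = ∫ r in (1 / 2 : ℝ)..2, c r * giA ε κ (giN n F) r y := by
  have hκ1 := hκ.1
  have hK : Continuous fun x : ℝ × Sp d => c x.1 * κ x.2 := by fun_prop
  have hΨ : Continuous fun x : ℝ × Sp d => (x.1, (ε * x.1) • x.2) := by fun_prop
  have conv : ∀ {F : ℝ × Sp d → ℝ}, ContDiff ℝ ∞ F → ∀ y,
      ∫ r in (1 / 2 : ℝ)..2, c r * giA ε κ F r y =
      ∫ x in giS d, (c x.1 * κ x.2) * F ((x.1, (ε * x.1) • x.2) + (0, y)) := by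
    intro F hF y
    have hH : Continuous fun x : ℝ × Sp d => F (x.1, y + (ε * x.1) • x.2) := by
      have := hF.continuous
      fun_prop
    have := gi_conv hc hκ hH
    unfold giA
    rw [this]
    congr 1
    funext x
    rw [Prod.mk_add_mk, add_zero, add_comm y]
  refine ⟨fun h y => ∫ x in giS d, (c x.1 * κ x.2) *
      giD (0, h) (giD (0, h) F) ((x.1, (ε * x.1) • x.2) + (0, y)), ?_, ?_, ?_⟩
  · have := giI_good giS_compact hK hΨ hF
    have e : (fun y => ∫ r in (1 / 2 : ℝ)..2, c r * giA ε κ F r y) = fun y =>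
        ∫ x in giS d, (c x.1 * κ x.2) * F ((x.1, (ε * x.1) • x.2) + (0, y)) := by
      funext y
      exact conv hF y
    rw [e]
    exact this
  · intro y
    rw [conv (giL_smooth hF) y, ← integral_finsetSum]
    · congr 1
      funext x
      unfold giL
      rw [Finset.mul_sum]
    · intro j _
      have := (giD_smooth (0, giE j) (giD_smooth (0, giE j) hF)).continuous
      exact (by fun_prop : Continuous fun x : ℝ × Sp d => (c x.1 * κ x.2) *
        giD (0, giE j) (giD (0, giE j) F) ((x.1, (ε * x.1) • x.2) +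
        (0, y))).continuousOn.integrableOn_compact giS_compact
  · intro n y
    rw [conv (giN_smooth n hF) y]
    rfl

lemma gi_lin {P a b c a' b' c' Q : ℝ → ℝ} (hP : IntervalIntegrable P volume (1 / 2) 2)
    (ha : IntervalIntegrable a volume (1 / 2) 2) (hb : IntervalIntegrable b volume (1 / 2) 2)
    (hc : IntervalIntegrable c volume (1 / 2) 2) (ha' : IntervalIntegrable a' volume (1 / 2) 2)
    (hb' : IntervalIntegrable b' volume (1 / 2) 2) (hc' : IntervalIntegrable c' volume (1 / 2) 2)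
    (h : ∀ r, Q r = -P r - (a r + b r + c r) + (a' r + b' r + c' r)) :
    (-∫ r in (1 / 2 : ℝ)..2, P r) - ((∫ r in (1 / 2 : ℝ)..2, a r) +
      (∫ r in (1 / 2 : ℝ)..2, b r) + ∫ r in (1 / 2 : ℝ)..2, c r) +
      ((∫ r in (1 / 2 : ℝ)..2, a' r) +
      (∫ r in (1 / 2 : ℝ)..2, b' r) + ∫ r in (1 / 2 : ℝ)..2, c' r) =
      ∫ r in (1 / 2 : ℝ)..2, Q r := by
  have e1 := intervalIntegral.integral_add (hP.neg.sub ((ha.add hb).add hc))
    ((ha'.add hb').add hc')
  have e2 := intervalIntegral.integral_sub hP.neg ((ha.add hb).add hc)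
  have e3 := intervalIntegral.integral_add (ha.add hb) hc
  have e4 := intervalIntegral.integral_add ha hb
  have e5 := intervalIntegral.integral_add (ha'.add hb') hc'
  have e6 := intervalIntegral.integral_add ha' hb'
  have e7 : ∫ r in (1 / 2 : ℝ)..2, -P r = -∫ r in (1 / 2 : ℝ)..2, P r :=
    intervalIntegral.integral_neg
  simp only [Pi.add_apply, Pi.sub_apply, Pi.neg_apply] at e1 e2 e3 e4 e5 e6
  simp only [h]
  linarith

/-- the identity for a globally smooth function -/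
lemma gi_smooth {β B B2 : Sp d → ℝ} (hβ : GiK β) (hB : GiK B) (hB2 : GiK B2)
    (hg : ∀ x, HasGradientAt B (-(β x) • x) x) (hg' : ∀ x, HasGradientAt B2 (-(B x) • x) x)
    {f : ℝ × Sp d → ℝ} (hf : ContDiff ℝ ∞ f) {n : Sp d} (hn : ‖n‖ = 1) (ε : ℝ) (y : Sp d)
    (W : Sp d → ℝ) (hW : ∀ y, W y = ∫ r in (1 / 2 : ℝ)..2, tau 1 r *
      (giA ε β f r y - 2 * ε ^ 2 * r * giA ε B (giT f) r y -
        ε ^ 4 * r ^ 2 * giA ε B2 (giL f) r y)) :
    giA ε β f 1 y - 2 / 3 * giA ε β f (1 / 2) y - 1 / 3 * giA ε β f 2 y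
      - lap W y + d2 n W y =
    ∫ r in (1 / 2 : ℝ)..2, tau 1 r * -(∫ z, β z * (iteratedFDeriv ℝ 2 f (r, y + (ε * r) • z)
        (fun _ => ((1 : ℝ), (ε * ⟪z, n⟫_ℝ) • n)) +
        (1 + (ε * ⟪z, n⟫_ℝ) ^ 2) *
          (giL f (r, y + (ε * r) • z) - giN n f (r, y + (ε * r) • z)))) := by
  have hT := giT_smooth hf
  have hL := giL_smooth hf
  have tc := tau_cont
  have cc1 : Continuous (tau 1) := tc
  have cc2 : Continuous fun r => -(2 * ε ^ 2 * r * tau 1 r) := by fun_prop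
  have cc3 : Continuous fun r => -(ε ^ 4 * r ^ 2 * tau 1 r) := by fun_prop
  obtain ⟨D1, g1, l1, m1⟩ := gi_term ε cc1 hβ hf
  obtain ⟨D2, g2, l2, m2⟩ := gi_term ε cc2 hB hT
  obtain ⟨D3, g3, l3, m3⟩ := gi_term ε cc3 hB2 hL
  have cA : ∀ {κ : Sp d → ℝ} {F : ℝ × Sp d → ℝ}, GiK κ → ContDiff ℝ ∞ F → ∀ y,
      Continuous fun r => giA ε κ F r y := fun hκ hF y => giA_cont hκ hF.continuous y
  have hWe : W = fun y => (∫ r in (1 / 2 : ℝ)..2, tau 1 r * giA ε β f r y) +
      (∫ r in (1 / 2 : ℝ)..2, -(2 * ε ^ 2 * r * tau 1 r) * giA ε B (giT f) r y) +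
      ∫ r in (1 / 2 : ℝ)..2, -(ε ^ 4 * r ^ 2 * tau 1 r) * giA ε B2 (giL f) r y := by
    funext y
    have i1 : IntervalIntegrable (fun r => tau 1 r * giA ε β f r y) volume (1 / 2) 2 :=
      (cc1.mul (cA hβ hf y)).intervalIntegrable _ _
    have i2 : IntervalIntegrable (fun r => -(2 * ε ^ 2 * r * tau 1 r) * giA ε B (giT f) r y)
        volume (1 / 2) 2 := (cc2.mul (cA hB hT y)).intervalIntegrable _ _
    have i3 : IntervalIntegrable (fun r => -(ε ^ 4 * r ^ 2 * tau 1 r) * giA ε B2 (giL f) r y)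
        volume (1 / 2) 2 := (cc3.mul (cA hB2 hL y)).intervalIntegrable _ _
    have i12 : IntervalIntegrable (fun r => tau 1 r * giA ε β f r y +
        -(2 * ε ^ 2 * r * tau 1 r) * giA ε B (giT f) r y) volume (1 / 2) 2 := i1.add i2
    rw [hW y, ← intervalIntegral.integral_add i1 i2, ← intervalIntegral.integral_add i12 i3]
    congr 1
    funext r
    ring
  have good := (g1.add g2).add g3
  rw [← hWe] at good
  have hlap : lap W y = (∫ r in (1 / 2 : ℝ)..2, tau 1 r * giA ε β (giL f) r y) +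
      (∫ r in (1 / 2 : ℝ)..2, -(2 * ε ^ 2 * r * tau 1 r) * giA ε B (giL (giT f)) r y) +
      ∫ r in (1 / 2 : ℝ)..2, -(ε ^ 4 * r ^ 2 * tau 1 r) * giA ε B2 (giL (giL f)) r y := by
    rw [good.lap_eq, ← l1, ← l2, ← l3, Finset.sum_add_distrib, Finset.sum_add_distrib]
  have hd2 : d2 n W y = (∫ r in (1 / 2 : ℝ)..2, tau 1 r * giA ε β (giN n f) r y) +
      (∫ r in (1 / 2 : ℝ)..2, -(2 * ε ^ 2 * r * tau 1 r) * giA ε B (giN n (giT f)) r y) +
      ∫ r in (1 / 2 : ℝ)..2, -(ε ^ 4 * r ^ 2 * tau 1 r) * giA ε B2 (giN n (giL f)) r y := by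
    rw [good.d2_eq, ← m1, ← m2, ← m3]
  rw [gi_GG hβ hf, hlap, hd2]
  simp only [gi_W hβ hB hB2 hg hg' hf, gi_G hβ hB hB2 hg hg' hf hn]
  have q1 := cA hβ (giT_smooth hT) y
  have q2 := cA hB (giL_smooth hT) y
  have q3 := cA hB (giL_smooth hf) y
  have q4 := cA hB2 (giL_smooth hL) y
  have q5 := cA hβ (giL_smooth hf) y
  have q6 := cA hβ (giN_smooth n hf) y
  have q7 := cA hB (giN_smooth n hT) y
  have q8 := cA hB2 (giN_smooth n hL) y
  have r1 : IntervalIntegrable (fun r => tau 1 r * (giA ε β (giT (giT f)) r y +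
      2 * ε ^ 2 * r * giA ε B (giL (giT f)) r y +
      ε ^ 2 * giA ε B (giL f) r y + ε ^ 4 * r ^ 2 * giA ε B2 (giL (giL f)) r y))
      volume (1 / 2) 2 := (by fun_prop : Continuous _).intervalIntegrable _ _
  have r2 : IntervalIntegrable (fun r => tau 1 r * giA ε β (giL f) r y) volume (1 / 2) 2 :=
    (by fun_prop : Continuous _).intervalIntegrable _ _
  have r3 : IntervalIntegrable (fun r => -(2 * ε ^ 2 * r * tau 1 r) * giA ε B (giL (giT f)) r y)
      volume (1 / 2) 2 := (by fun_prop : Continuous _).intervalIntegrable _ _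
  have r4 : IntervalIntegrable (fun r => -(ε ^ 4 * r ^ 2 * tau 1 r) * giA ε B2 (giL (giL f)) r y)
      volume (1 / 2) 2 := (by fun_prop : Continuous _).intervalIntegrable _ _
  have r5 : IntervalIntegrable (fun r => tau 1 r * giA ε β (giN n f) r y) volume (1 / 2) 2 :=
    (by fun_prop : Continuous _).intervalIntegrable _ _
  have r6 : IntervalIntegrable (fun r => -(2 * ε ^ 2 * r * tau 1 r) * giA ε B (giN n (giT f)) r y)
      volume (1 / 2) 2 := (by fun_prop : Continuous _).intervalIntegrable _ _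
  have r7 : IntervalIntegrable (fun r => -(ε ^ 4 * r ^ 2 * tau 1 r) * giA ε B2 (giN n (giL f)) r y)
      volume (1 / 2) 2 := (by fun_prop : Continuous _).intervalIntegrable _ _
  refine gi_lin r1 r2 r3 r4 r5 r6 r7 ?_
  intro r
  ring

/-- cutoff in time -/
def giRho (t : ℝ) : ℝ := Real.smoothTransition (8 * t - 1)

lemma giRho_one {t : ℝ} (h : 1 / 4 ≤ t) : giRho t = 1 :=
  Real.smoothTransition.one_of_one_le (by linarith)

lemma giRho_zero {t : ℝ} (h : t ≤ 1 / 8) : giRho t = 0 :=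
  Real.smoothTransition.zero_of_nonpos (by linarith)

lemma gi_ext {v : ℝ × Sp d → ℝ} (hv : ContDiffOn ℝ ∞ v {p | 0 < p.1}) :
    ContDiff ℝ ∞ (fun p => giRho p.1 * v p) := by
  rw [contDiff_iff_contDiffAt]
  intro p
  have hr : ContDiff ℝ ∞ (fun p : ℝ × Sp d => giRho p.1) := by
    unfold giRho
    exact Real.smoothTransition.contDiff.comp ((contDiff_const.mul contDiff_fst).sub contDiff_const)
  by_cases hp : 0 < p.1
  · exact hr.contDiffAt.mul (hv.contDiffAt
      ((isOpen_lt continuous_const continuous_fst).mem_nhds hp))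
  · have : (fun p : ℝ × Sp d => giRho p.1 * v p) =ᶠ[nhds p] fun _ => 0 := by
      have ho : {q : ℝ × Sp d | q.1 < 1 / 8} ∈ nhds p :=
        (isOpen_lt continuous_fst continuous_const).mem_nhds
          (show p.1 < 1 / 8 by push Not at hp; linarith)
      filter_upwards [ho] with q hq
      rw [giRho_zero (le_of_lt hq), zero_mul]
    exact contDiffAt_const.congr_of_eventuallyEq this

theorem stmtGI (hTH : StmtTH) : StmtGI := by
  intro d J hd hJ M ε hε hε1 β hK C' μ hC' hμ n hn y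
  obtain ⟨_, _, hC⟩ := hTH d 0 hd C' hC'
  obtain ⟨_, hv, _⟩ := hC μ hμ
  have hf := gi_ext hv
  set f : ℝ × Sp d → ℝ := fun p => giRho p.1 * vv μ p.1 p.2 with hfdef
  have hβ : GiK β := ⟨hK.prof.smooth.continuous, hK.prof.supp⟩
  have hB : GiK (Bp β) := ⟨hK.smooth1.continuous, hK.supp1⟩
  have hB2 : GiK (Bp (Bp β)) := ⟨hK.smooth2.continuous, hK.supp2⟩
  have v1 : ∀ t : ℝ, 1 / 4 ≤ t → ∀ x, vv μ t x = f (t, x) := by
    intro t ht x
    simp only [hfdef, giRho_one ht, one_mul]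
  have v1' : ∀ t : ℝ, 1 / 4 ≤ t → vv μ t = fun x => f (t, x) := by
    intro t ht
    funext x
    exact v1 t ht x
  have v2 : ∀ t : ℝ, 1 / 4 < t → ∀ x, dtv μ t x = giT f (t, x) := by
    intro t ht x
    unfold dtv
    have : (fun s => vv μ s x) =ᶠ[nhds t] fun s => f (s, x) := by
      filter_upwards [lt_mem_nhds ht] with s hs
      exact v1 s hs.le x
    rw [this.deriv_eq]
    have h1 : HasDerivAt (fun s : ℝ => (s, x)) ((1 : ℝ), (0 : Sp d)) t :=
      (hasDerivAt_id t).prodMk (hasDerivAt_const t x)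
    have h2 : HasFDerivAt f (fderiv ℝ f (t, x)) (t, x) :=
      ((hf.differentiable (by simp)) _).hasFDerivAt
    exact (h2.comp_hasDerivAt t h1).deriv
  have v3 : ∀ t : ℝ, 1 / 4 ≤ t → ∀ x, lap (vv μ t) x = giL f (t, x) := by
    intro t ht x
    rw [v1' t ht, lap_slice t hf]
  have v4 : ∀ t : ℝ, 1 / 4 ≤ t → ∀ x, d2 n (vv μ t) x = giN n f (t, x) := by
    intro t ht x
    rw [v1' t ht, d2_slice n t hf]
  have v5 : ∀ t : ℝ, 1 / 4 < t → ∀ x,
      iteratedFDeriv ℝ 2 (fun p : ℝ × Sp d => vv μ p.1 p.2) (t, x) =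
        iteratedFDeriv ℝ 2 f (t, x) := by
    intro t ht x
    have : (fun p : ℝ × Sp d => vv μ p.1 p.2) =ᶠ[nhds (t, x)] f := by
      have ho : {q : ℝ × Sp d | 1 / 4 < q.1} ∈ nhds (t, x) :=
        (isOpen_lt continuous_const continuous_fst).mem_nhds ht
      filter_upwards [ho] with q hq
      exact v1 q.1 (le_of_lt hq) q.2
    exact (Filter.EventuallyEq.iteratedFDeriv ℝ this 2).eq_of_nhds
  have w1 : ∀ t : ℝ, 1 / 4 ≤ t → ∀ y, wv β ε μ t y = giA ε β f t y := by
    intro t ht y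
    unfold wv giA
    simp only [v1 t ht]
  have w2 : ∀ t : ℝ, 1 / 4 < t → ∀ y, wt β ε μ t y = giA ε β f t y -
      2 * ε ^ 2 * t * giA ε (Bp β) (giT f) t y -
        ε ^ 4 * t ^ 2 * giA ε (Bp (Bp β)) (giL f) t y := by
    intro t ht y
    unfold wt giA
    simp only [v1 t ht.le, v2 t ht, v3 t ht.le]
    have k1 := hβ.int (gi_ray_smooth hf t (ε * t) y).continuous
    have k2 := (hB.int (gi_ray_smooth (giT_smooth hf) t (ε * t) y).continuous).const_mul
      (2 * ε ^ 2 * t)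
    have k3 := (hB2.int (gi_ray_smooth (giL_smooth hf) t (ε * t) y).continuous).const_mul
      (ε ^ 4 * t ^ 2)
    have k12 : Integrable fun z => β z * f (t, y + (ε * t) • z) -
        2 * ε ^ 2 * t * (Bp β z * giT f (t, y + (ε * t) • z)) := k1.sub k2
    rw [integral_sub k12 k3, integral_sub k1 k2, integral_const_mul, integral_const_mul]
  have hW : ∀ y, WW β ε μ 1 y = ∫ r in (1 / 2 : ℝ)..2, tau 1 r *
      (giA ε β f r y - 2 * ε ^ 2 * r * giA ε (Bp β) (giT f) r y -
        ε ^ 4 * r ^ 2 * giA ε (Bp (Bp β)) (giL f) r y) := by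
    intro y
    unfold WW
    rw [show (2 : ℝ) * 1 = 2 by norm_num]
    apply intervalIntegral.integral_congr
    intro r hr
    rw [uIcc_of_le (by norm_num)] at hr
    show tau 1 r * wt β ε μ r y = _
    rw [w2 r (by linarith [hr.1])]
  have hmain := gi_smooth hβ hB hB2 hK.grad1 hK.grad2 hf hn ε y (WW β ε μ 1) hW
  have hGG : GG β ε μ 1 y = giA ε β f 1 y - 2 / 3 * giA ε β f (1 / 2) y -
      1 / 3 * giA ε β f 2 y := by
    unfold GG
    rw [show (2 : ℝ) * 1 = 2 by norm_num, w1 1 (by norm_num), w1 (1 / 2) (by norm_num),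
      w1 2 (by norm_num)]
  unfold gn
  rw [hGG, hmain]
  apply intervalIntegral.integral_congr
  intro r hr
  rw [uIcc_of_le (by norm_num)] at hr
  have hr' : (1 : ℝ) / 4 < r := by linarith [hr.1]
  show _ = tau 1 r * gr β ε μ n r y
  unfold gr
  simp only [v5 r hr', v3 r hr'.le, v4 r hr'.le]

end

end TG
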