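import Pool.Agent.TG.FN
import Pool.Agent.TG.Stmts17

/-!
# Module LP: facts for the functional Y at tops  (helper96)

Tail lemma CT3 and FN.mass_le for the mass; FN.plane_gen (l = 9, radius R0) and FN.bb_blc for the
plane of the ninth ancestor in the frame of the cell.
-/

open MeasureTheory Metric Set TrI
open scoped InnerProductSpace ContDiff ENNReal

namespace TG

namespace LP

open FR FR4 FN

noncomputable section

variable {d : ℕ}

lemma mT_nn {E : Type} [NormedAddCommGroup E] [InnerProductSpace ℝ E] (b : Sp d → ℝ) (ε : ℝ)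
    {s0 : ℝ} (h : 0 < s0) (f : Sp d → E) (Q : Cell d) : 0 ≤ mT b ε s0 f Q := by
  have hl := lev_pos h Q.1
  unfold mT nw
  refine mul_nonneg (by positivity) (integral_nonneg fun y => ?_)
  positivity

/-- the plane of the l-th ancestor in the frame of a cell -/
lemma cfr_up {R0 s0 : ℝ} (h : 0 < s0) {E : Type} [NormedAddCommGroup E] [InnerProductSpace ℝ E]
    {f : Sp d → E} {e : Cell d → E} {ν : Cell d → Sp d} {c : Cell d → ℝ}
    (hν : Plns R0 s0 f e ν c) (l : ℕ) (S : Cell d) :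
    |cfr s0 S (ν (up l S)) (c (up l S))| ≤ 2 ^ l * (R0 + 1) + 2 ^ l * Real.sqrt d := by
  set P := up l S with hP
  have hP1 : P.1 = S.1 + l := rfl
  have hlP := lev_pos h P.1
  have hw : ‖tw s0 S P‖ ≤ Real.sqrt d * 2 ^ l := norm_tw_up h l S
  have hcP : |cfr s0 P (ν P) (c P)| ≤ R0 + 1 := by
    have h1 := ht_frame_tw h P P (ν P) (c P)
    rw [tw_self, ht_zero] at h1
    rw [← abs_neg, h1, abs_div, abs_of_pos hlP, div_le_iff₀ hlP]
    exact hν.loc P
  have h1 := ht_frame2 h S P l hP1 (ν P) (c P) 0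
  rw [smul_zero, add_zero, ht_zero] at h1
  have h2 := ht_two (hν.unit P) (cfr s0 S (ν P) (c P)) 0 (tw s0 S P)
  rw [ht_zero, abs_neg, h1, zero_sub, norm_neg] at h2
  refine h2.trans ?_
  rw [mul_neg, abs_neg, abs_mul, abs_of_pos (by positivity : (0 : ℝ) < 2 ^ l)]
  have h3 := mul_le_mul_of_nonneg_left hcP (by positivity : (0 : ℝ) ≤ 2 ^ l)
  linarith

end

end LP

open FR FR4 FN

theorem stmtLP (hCT3 : StmtCT3) (hMA : StmtMA) (hSC : StmtSC) (hCT8 : StmtCT8)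
    (hCT5 : StmtCT5) : StmtLP := by
  intro d hd
  have hd1 : 1 ≤ d := by omega
  obtain ⟨Rt, hRt, h3⟩ := hCT3 d hd1
  refine ⟨Rt + 2, by linarith, ?_⟩
  intro M c0 ε hε hε1 b hb R0 hR0
  have hdR : (1 : ℝ) ≤ d := by exact_mod_cast hd1
  have hsd : Real.sqrt d ≤ d := by
    rw [Real.sqrt_le_left (by linarith)]
    nlinarith
  have hsd0 := Real.sqrt_nonneg (d : ℝ)
  have hR00 : 0 < R0 := by linarith
  obtain ⟨C1, hC1, h3⟩ := h3 M c0 ε hε hε1 b hb
  obtain ⟨C2, hC2, h4⟩ := FN.mass_le hMA hSC hd hε hε1 hb (by linarith : 0 < Rt)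
  obtain ⟨C4, hC4, h5⟩ := FN.plane_gen hCT8 hCT5 hd hε hε1 hb hR0 9
    (ρ := R0) (by linarith) (by norm_num; linarith)
  refine ⟨2, 2 ^ 9 * (R0 + 1) + 2 ^ 9 * Real.sqrt d, C1 + 2 * C2 + C4,
    max (300 * R0) (Rt + 5), by norm_num, by positivity, by positivity, ?_⟩
  intro E _ _ _ R hR f hf hc s0 h e he ν c hν γ hγ P hP
  have hRa : 300 * R0 ≤ R := (le_max_left _ _).trans hR
  have hRb : Rt + 5 ≤ R := (le_max_right _ _).trans hR
  obtain ⟨h31, -, h33⟩ := h3 E f hf hc s0 h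
  have hT := LP.mT_nn b ε h f P
  have hG := h31 P
  have hA := h33 γ hγ P hP
  have hB := h4 E R hRb f hf hc s0 h e he.unit P
  have hC := h5 E R hRa (by linarith) f hf hc s0 h e he ν c hν P
  obtain ⟨hD, -⟩ := hCT5 d hd1 M c0 ε hε hε1 b hb R0 9 (by linarith) |>.choose_spec.2 E R
    (by linarith) f hf hc s0 h e he ν c hν
  obtain ⟨hD1, hD2, -⟩ := hD P
  obtain ⟨hD3, hD4, -⟩ := hD (up 9 P)
  refine ⟨hT, hG, ?_, hν.unit _, LP.cfr_up h hν 9 P, ?_⟩
  · have e1 : 0 ≤ C1 * dC b ε R s0 f e P := mul_nonneg hC1.le hD1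
    have e2 : 0 ≤ C4 * dC b ε R s0 f e P := mul_nonneg hC4.le hD1
    have e3 : 0 ≤ C2 * tG b ε s0 f P := mul_nonneg hC2.le hG
    have e4 : 0 ≤ C4 * tG b ε s0 f P := mul_nonneg hC4.le hG
    nlinarith [hA, hB]
  · have e5 := bb_blc h R0 f (e P) P (ν (up 9 P)) (c (up 9 P))
    have e6 : blc (ν (up 9 P)) ((c (up 9 P) - ⟪ν (up 9 P), xC s0 P⟫_ℝ) / lev s0 P.1)
        (mQ s0 f (e P) P) R0 = bb R0 s0 f P.1 (xC s0 P) (e P) (ν (up 9 P)) (c (up 9 P)) := by
      rw [e5]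
      rfl
    rw [e6]
    refine (le_max_right _ _).trans (hC.trans ?_)
    refine mul_le_mul_of_nonneg_right (by linarith) ?_
    linarith

end TG
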