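import Pool.Agent.TG.PTc

/-!
# Reduction to cells: module PT
-/

open MeasureTheory Metric Set TrI Filter
open scoped InnerProductSpace ContDiff

set_option linter.unusedSectionVars false

namespace TG

noncomputable section

namespace PTm

variable {d : ℕ}

lemma lev_half_self (i : ℕ) : lev ((1 / 2 : ℝ) ^ i) i = 1 := by
  unfold lev
  rw [← mul_pow]
  norm_num

lemma lev_half_pred {i : ℕ} (hi : 1 ≤ i) : lev ((1 / 2 : ℝ) ^ i) (i - 1) = 1 / 2 := by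
  have h1 := lev_half_self i
  obtain ⟨k, rfl⟩ : ∃ k, i = k + 1 := ⟨i - 1, by omega⟩
  rw [lev_succ] at h1
  rw [Nat.add_sub_cancel]
  linarith

lemma lev_half_le {l i : ℕ} (h : l ≤ i) : lev ((1 / 2 : ℝ) ^ i) l ≤ 1 := by
  have h1 : (2 : ℝ) ^ l ≤ 2 ^ i := pow_le_pow_right₀ (by norm_num) h
  have h2 : (1 / 2 : ℝ) ^ i * 2 ^ i = 1 := by
    rw [← mul_pow]
    norm_num
  have h3 : (0 : ℝ) ≤ (1 / 2) ^ i := by positivity
  unfold lev
  calc (1 / 2 : ℝ) ^ i * 2 ^ l ≤ (1 / 2) ^ i * 2 ^ i := mul_le_mul_of_nonneg_left h1 h3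
    _ = 1 := h2

section Pot

variable {C' : ℝ} {μ : Measure (Sp d)}

lemma vv_nonneg (μ : Measure (Sp d)) (t : ℝ) (x : Sp d) : 0 ≤ vv μ t x := Real.sqrt_nonneg _

lemma vv_cont (h : ContDiffOn ℝ ∞ (fun p : ℝ × Sp d => vv μ p.1 p.2) {p | 0 < p.1}) {t : ℝ}
    (ht : 0 < t) : Continuous (vv μ t) := by
  have h1 := h.continuousOn
  have h2 : Continuous fun x : Sp d => ((t, x) : ℝ × Sp d) := by fun_prop
  exact h1.comp_continuous h2 fun x => ht

lemma wv_eq (β : Sp d → ℝ) (ε : ℝ) (μ : Measure (Sp d)) (t : ℝ) :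
    wv β ε μ t = avk β (ε * t) (vv μ t) := rfl

lemma GG_cont (h : ContDiffOn ℝ ∞ (fun p : ℝ × Sp d => vv μ p.1 p.2) {p | 0 < p.1})
    {β : Sp d → ℝ} (hβ : Ker β) (ε : ℝ) {t : ℝ} (ht : 0 < t) : Continuous (GG β ε μ t) := by
  unfold GG
  have h1 : ∀ r : ℝ, 0 < r → Continuous (wv β ε μ r) := fun r hr => by
    rw [wv_eq]
    exact avk_cont hβ (vv_cont h hr) _
  exact ((h1 t ht).sub (continuous_const.mul (h1 (t / 2) (by positivity)))).sub
    (continuous_const.mul (h1 (2 * t) (by positivity)))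

lemma gk_cont (h : ContDiffOn ℝ ∞ (fun p : ℝ × Sp d => vv μ p.1 p.2) {p | 0 < p.1})
    {b : Sp d → ℝ} (hb : Ker b) (ε : ℝ) {s0 : ℝ} (hs : 0 < s0) (i : ℕ) :
    Continuous (gk b ε μ s0 i) := by
  unfold gk
  have h1 : ∀ k, Continuous (vv μ (lev s0 k)) := fun k => vv_cont h (lev_pos hs k)
  have h2 : Continuous fun x => vv μ (lev s0 i) x
      - 1 / 3 * avk b (ε * lev s0 (i + 1)) (vv μ (lev s0 (i + 1))) x :=
    (h1 i).sub (continuous_const.mul (avk_cont hb (h1 (i + 1)) _))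
  exact (avk_cont hb h2 _).sub (continuous_const.mul (h1 (i - 1)))

lemma avk_scale {F : Type*} [NormedAddCommGroup F] [NormedSpace ℝ F] (b : Sp d → ℝ) (k : Sp d → F)
    {t : ℝ} (ht : 0 < t) (s : ℝ) (y : Sp d) :
    avk b (s / t) (fun x => k (t • x)) y = avk b s k (t • y) := by
  unfold avk
  congr 1
  ext z
  beta_reduce
  rw [smul_add, smul_smul, mul_div_cancel₀ _ ht.ne']

lemma lev_div (s0 t : ℝ) (i : ℕ) : lev (s0 / t) i = lev s0 i / t := by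
  unfold lev; ring

lemma gk_scale {b : Sp d → ℝ} {ε t s0 : ℝ} (ht : 0 < t) (hs : 0 < s0) {μ' : Measure (Sp d)}
    (hv : ∀ r y, 0 < r → vv μ' r y = vv μ (t * r) (t • y)) (i : ℕ) (y : Sp d) :
    gk b ε μ' (s0 / t) i y = gk b ε μ s0 i (t • y) := by
  have hst : 0 < s0 / t := by positivity
  have h1 : ∀ (k : ℕ) (x : Sp d), vv μ' (lev (s0 / t) k) x = vv μ (lev s0 k) (t • x) := by
    intro k x
    rw [hv _ _ (lev_pos hst k), lev_div, mul_div_cancel₀ _ ht.ne']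
  have h2 : ∀ k : ℕ, ε * lev (s0 / t) k = ε * lev s0 k / t := fun k => by rw [lev_div]; ring
  unfold gk
  have h3 : (fun x => vv μ' (lev (s0 / t) i) x
      - 1 / 3 * avk b (ε * lev (s0 / t) (i + 1)) (vv μ' (lev (s0 / t) (i + 1))) x) =
      fun x => (fun w => vv μ (lev s0 i) w
        - 1 / 3 * avk b (ε * lev s0 (i + 1)) (vv μ (lev s0 (i + 1))) w) (t • x) := by
    funext x
    beta_reduce
    rw [h1, h2]
    have h4 : vv μ' (lev (s0 / t) (i + 1)) = fun x => vv μ (lev s0 (i + 1)) (t • x) := by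
      funext x
      exact h1 _ _
    have h6 : avk b (ε * lev s0 (i + 1) / t) (fun x => vv μ (lev s0 (i + 1)) (t • x)) x =
        avk b (ε * lev s0 (i + 1)) (vv μ (lev s0 (i + 1))) (t • x) :=
      avk_scale b (vv μ (lev s0 (i + 1))) ht _ x
    rw [h4, h6]
  have h5 : avk b (ε * lev (s0 / t) i) (fun x => vv μ' (lev (s0 / t) i) x
      - 1 / 3 * avk b (ε * lev (s0 / t) (i + 1)) (vv μ' (lev (s0 / t) (i + 1))) x) y =
      avk b (ε * lev s0 i) (fun w => vv μ (lev s0 i) w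
        - 1 / 3 * avk b (ε * lev s0 (i + 1)) (vv μ (lev s0 (i + 1))) w) (t • y) := by
    rw [h3, h2]
    exact avk_scale b (fun w => vv μ (lev s0 i) w
        - 1 / 3 * avk b (ε * lev s0 (i + 1)) (vv μ (lev s0 (i + 1))) w) ht (ε * lev s0 i) y
  rw [h5, h1]

end Pot

section Defect

variable {E : Type} [NormedAddCommGroup E] [InnerProductSpace ℝ E] [FiniteDimensional ℝ E]

lemma def_nonneg (v e : E) (he : ‖e‖ = 1) : 0 ≤ ‖v‖ - ⟪v, e⟫_ℝ := by
  have := (abs_le.mp (inner_bd v e he)).2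
  linarith

lemma DD_nonneg (b : Sp d → ℝ) (ε R : ℝ) {s0 : ℝ} (hs : 0 < s0) (f : Sp d → E) (i : ℕ) (x : Sp d)
    {e : E} (he : ‖e‖ = 1) : 0 ≤ DD b ε R s0 f i x e := by
  unfold DD
  have h0 := lev_pos hs i
  refine mul_nonneg (by positivity) (add_nonneg (Finset.sum_nonneg fun l _ => ?_) ?_)
  · exact mul_nonneg (by positivity) (integral_nonneg fun y => def_nonneg _ _ he)
  · exact mul_nonneg (by positivity) (integral_nonneg fun y => norm_nonneg _)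

lemma DD_ge (b : Sp d → ℝ) (ε R : ℝ) (f : Sp d → E) {i : ℕ} (hi : 1 ≤ i) (x : Sp d)
    {e : E} (he : ‖e‖ = 1) :
    ∫ y in ball x R, (‖fl b ε ((1 / 2) ^ i) f (i - 1) y‖ - ⟪fl b ε ((1 / 2) ^ i) f (i - 1) y, e⟫_ℝ) ≤
      4 * DD b ε R ((1 / 2) ^ i) f i x e := by
  unfold DD
  rw [lev_half_self, one_pow, div_one, one_mul, mul_one]
  have h1 := Finset.single_le_sum (s := Finset.range (i + 1))
    (f := fun l => (1 / 4 : ℝ) ^ (i - l) *
        (∫ y in ball x R, (‖fl b ε ((1 / 2) ^ i) f l y‖ - ⟪fl b ε ((1 / 2) ^ i) f l y, e⟫_ℝ)))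
    (fun l _ => mul_nonneg (by positivity) (integral_nonneg fun y => def_nonneg _ _ he))
    (Finset.mem_range.mpr (show i - 1 < i + 1 by omega))
  have h2 : i - (i - 1) = 1 := by omega
  simp only [h2, pow_one] at h1
  have h3 : 0 ≤ (1 / 4 : ℝ) ^ i * ∫ y in ball x R, ‖f y‖ :=
    mul_nonneg (by positivity) (integral_nonneg fun y => norm_nonneg _)
  linarith

lemma DD_far {b : Sp d → ℝ} (hb : Ker b) {ε R : ℝ} (hε : 0 ≤ ε) (hε1 : ε ≤ 1 / 4) {f : Sp d → E}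
    {ρ : ℝ} (hρ : ∀ y, ρ < ‖y‖ → f y = 0) (i : ℕ) {x : Sp d} (hx : ρ + 1 + R ≤ ‖x‖) (e : E) :
    DD b ε R ((1 / 2) ^ i) f i x e = 0 := by
  unfold DD
  rw [lev_half_self, mul_one]
  have hy : ∀ y ∈ ball x R, ρ + 1 < ‖y‖ := by
    intro y hy
    rw [mem_ball, dist_eq_norm] at hy
    have : ‖x‖ ≤ ‖y‖ + ‖y - x‖ := by
      have := norm_sub_le y (y - x)
      rwa [sub_sub_cancel] at this
    linarith
  have h1 : ∀ l ∈ Finset.range (i + 1), (1 / 4 : ℝ) ^ (i - l) *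
      (∫ y in ball x R, (‖fl b ε ((1 / 2) ^ i) f l y‖ - ⟪fl b ε ((1 / 2) ^ i) f l y, e⟫_ℝ)) = 0 := by
    intro l hl
    have hl' : l ≤ i := Nat.lt_succ_iff.mp (Finset.mem_range.mp hl)
    have h2 := lev_half_le hl'
    rw [setIntegral_eq_zero_of_forall_eq_zero, mul_zero]
    intro y hyb
    have h3 : fl b ε ((1 / 2) ^ i) f l y = 0 := by
      refine fl_supp hb hε (by positivity) hρ l y (lt_of_le_of_lt ?_ (hy y hyb))
      nlinarith
    rw [h3, norm_zero, inner_zero_left, sub_zero]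
  rw [Finset.sum_eq_zero h1, setIntegral_eq_zero_of_forall_eq_zero, mul_zero, add_zero, mul_zero]
  intro y hyb
  rw [hρ y (by linarith [hy y hyb]), norm_zero]

end Defect

lemma not_mem_box {L : ℕ} {p : Fin d → ℤ} (h : p ∉ box d L) : ∃ j, (L : ℝ) + 1 ≤ |(p j : ℝ)| := by
  unfold box at h
  rw [Fintype.mem_piFinset] at h
  push Not at h
  obtain ⟨j, hj⟩ := h
  refine ⟨j, ?_⟩
  rw [Finset.mem_Icc] at hj
  have h1 : (L : ℤ) + 1 ≤ |p j| := by
    rcases abs_cases (p j) with h | h <;> omega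
  exact_mod_cast h1

/-- the estimate of one level at unit scale, with the constants of the hypotheses -/
lemma unit_level (hd : 2 ≤ d) {M c ε R : ℝ} (hε : 0 < ε) (hε4 : ε ≤ 1 / 4)
    (hR : (d : ℝ) + 4 ≤ R) {b : Sp d → ℝ} (hb : BaseKer 4 M c b) {CP CD Cv B N N2 : ℝ}
    (hCP : 0 < CP) (hCD : 0 < CD) (hB : ∀ (J : ℕ) (β : Sp d → ℝ), 2 ≤ J → Kit J M β → TFn 2 B β)
    (hN : TFn 2 N (chi : Sp d → ℝ)) (hN2 : 0 < N2)
    (hN2' : 4 * N * (4 * N * (((ε / 2)⁻¹) ^ 2 * (CP * Cv * B *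
      (volume (closedBall (0 : Sp d) 1)).toReal)) +
      ((ε / 2)⁻¹) ^ 2 * (CP * Cv * B * (volume (closedBall (0 : Sp d) 1)).toReal)) ≤ N2)
    {E : Type} [NormedAddCommGroup E] [InnerProductSpace ℝ E] [FiniteDimensional ℝ E]
    {μ : Measure (Sp d)}
    (hsm : ContDiffOn ℝ ∞ (fun p : ℝ × Sp d => vv μ p.1 p.2) {p | 0 < p.1})
    (hv : ∀ y, vv μ 1 y ≤ Cv) {i : ℕ} (hi : 2 ≤ i)
    (hP1 : ∀ y, |gk b ε μ ((1 / 2) ^ i) i y| ≤ CP * vv μ (lev ((1 / 2) ^ i) i) y)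
    (hP2 : ∀ y, |avk (KN b (i - 2)) (ε * lev ((1 / 2) ^ i) (i - 1)) (gk b ε μ ((1 / 2) ^ i) i) y
        - GG (KN b (i - 2)) ε μ (lev ((1 / 2) ^ i) i) y| ≤
          CP * (1 / 4) ^ i * vv μ (lev ((1 / 2) ^ i) i) y)
    {f : Sp d → E} (hf : Continuous f) (hf' : HasCompactSupport f)
    (hDI : ∀ (e e' : E), ‖e‖ = 1 → ‖e'‖ = 1 → ∀ (x x' : Sp d) (Y : Sp d → ℝ), ContDiff ℝ 2 Y →
      (∀ y, |Y y| ≤ 1) → (∀ y, ‖iteratedFDeriv ℝ 2 Y y‖ ≤ 1) →
      (∀ y, R - 1 ≤ ‖y - x‖ → Y y = 0) → (∀ y, R - 1 ≤ ‖y - x'‖ → Y y = 0) →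
      |∫ y, ⟪f y, e - e'⟫_ℝ * Y y| ≤
        CD * (DD b ε R ((1 / 2) ^ i) f i x e + DD b ε R ((1 / 2) ^ i) f i x' e'))
    {e : (Fin d → ℤ) → E} (he : ∀ p, ‖e p‖ = 1) :
    ∑' p : Fin d → ℤ, ∫ y, ch p y * ⟪f y, e p⟫_ℝ * GG (KN b (i - 2)) ε μ 1 y ≤
      (∫ y, ‖fl b ε ((1 / 2) ^ i) f (i - 1) y‖ * gk b ε μ ((1 / 2) ^ i) i y) +
        CP * (1 / 4) ^ i * Cv * (∫ y, ‖f y‖) +
        (4 * (CP * Cv) + N2 * CD * (2 * 5 ^ d)) *
          ∑' p : Fin d → ℤ, DD b ε R ((1 / 2) ^ i) f i (lat p) (e p) := by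
  have hs0 : (0 : ℝ) < (1 / 2) ^ i := by positivity
  have hbk := base_ker hb
  have hβ := hb.kit (i - 2)
  have hfl : fl b ε ((1 / 2) ^ i) f (i - 1) = avk (KN b (i - 2)) (ε / 2) f := by
    have h1 := fl_eq hbk (fun n => kit_ker (hb.kit n)) hf ε ((1 / 2) ^ i) (i - 2)
    have h2 : i - 2 + 1 = i - 1 := by omega
    rw [h2, lev_half_pred (by omega), mul_one_div] at h1
    exact h1
  rw [lev_half_pred (by omega : 1 ≤ i), lev_half_self, mul_one_div] at hP2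
  rw [lev_half_self] at hP1
  have hlv : Lv d E (KN b (i - 2)) B (ε / 2) R (CP * Cv) (CP * (1 / 4) ^ i * Cv) CD
      (gk b ε μ ((1 / 2) ^ i) i) (GG (KN b (i - 2)) ε μ 1) f e
      (fun p => DD b ε R ((1 / 2) ^ i) f i (lat p) (e p)) :=
    { hd := by omega
      ker := kit_ker hβ
      nonneg := hβ.prof.nonneg
      even := kit_even hβ
      int1 := hβ.prof.int
      B_bd := hB 4 _ (by norm_num) hβ
      s_pos := by positivity
      s_le := by linarith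
      R_le := hR
      g_cont := gk_cont hsm hbk ε hs0 i
      g_bd := fun y => (hP1 y).trans (mul_le_mul_of_nonneg_left (hv y) hCP.le)
      G_cont := GG_cont hsm (kit_ker hβ) ε one_pos
      G_bd := fun y => (hP2 y).trans (mul_le_mul_of_nonneg_left (hv y) (by positivity))
      f_cont := hf
      f_cs := hf'
      e_norm := he
      D_nonneg := fun p => DD_nonneg b ε R hs0 f i (lat p) (he p)
      CD_nonneg := hCD.le
      D_def := fun p => by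
        rw [← hfl]
        exact DD_ge b ε R f (by omega) (lat p) (he p)
      DI := fun p p' Y => hDI (e p) (e p') (he p) (he p') (lat p) (lat p') Y }
  obtain ⟨ρ, hρ0, hρ⟩ := cs_bd hf'
  obtain ⟨L, hL⟩ := exists_nat_ge (ρ + 2 + R)
  have hR0 : 0 ≤ R := by
    have : (0 : ℝ) ≤ d := Nat.cast_nonneg d
    linarith
  have hmain := hlv.main hN hρ (L := L) (by linarith) hN2 hN2'
  have e1 : ∑' p : Fin d → ℤ, ∫ y, ch p y * ⟪f y, e p⟫_ℝ * GG (KN b (i - 2)) ε μ 1 y =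
      ∑ p ∈ box d L, ∫ y, ch p y * ⟪f y, e p⟫_ℝ * GG (KN b (i - 2)) ε μ 1 y := by
    refine tsum_eq_sum fun p hp => ?_
    obtain ⟨j, hj⟩ := not_mem_box hp
    have h1 : ∀ y, ch p y * ⟪f y, e p⟫_ℝ * GG (KN b (i - 2)) ε μ 1 y = 0 := by
      intro y
      by_cases hy : ρ < ‖y‖
      · rw [hρ y hy, inner_zero_left, mul_zero, zero_mul]
      · push Not at hy
        rw [ch_far (j := j), zero_mul, zero_mul]
        have h2 : |(p j : ℝ)| ≤ |y j - p j| + |y j| := by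
          have := abs_sub (y j - p j) (y j)
          rwa [sub_sub_cancel_left, abs_neg] at this
        have h3 := apply_le y j
        linarith
    simp only [h1, integral_zero]
  have e2 : ∑' p : Fin d → ℤ, DD b ε R ((1 / 2) ^ i) f i (lat p) (e p) =
      ∑ p ∈ box d L, DD b ε R ((1 / 2) ^ i) f i (lat p) (e p) := by
    refine tsum_eq_sum fun p hp => ?_
    obtain ⟨j, hj⟩ := not_mem_box hp
    refine DD_far hbk hε.le hε4 hρ i ?_ _
    have h1 : |(p j : ℝ)| ≤ ‖lat p‖ := apply_le (lat p) j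
    linarith
  rw [e1, e2, hfl]
  exact hmain

lemma geo_le (I : ℕ) : ∑ i ∈ Finset.Ico 2 I, (1 / 4 : ℝ) ^ i ≤ 2 := by
  have h1 : ∑ i ∈ Finset.Ico 2 I, (1 / 4 : ℝ) ^ i ≤ ∑ i ∈ Finset.range I, (1 / 4 : ℝ) ^ i := by
    refine Finset.sum_le_sum_of_subset_of_nonneg ?_ fun i _ _ => by positivity
    intro i hi
    rw [Finset.mem_Ico] at hi
    exact Finset.mem_range.mpr hi.2
  refine h1.trans ?_
  have h2 := geom_sum_eq (by norm_num : (1 / 4 : ℝ) ≠ 1) I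
  rw [h2]
  have : (0 : ℝ) ≤ (1 / 4) ^ I := by positivity
  rw [div_le_iff_of_neg (by norm_num)]
  linarith

end PTm

open PTm

theorem stmtPT (h : StmtPO) (h1 : StmtDI) (h2 : StmtSC) (h3 : StmtTH) : StmtPT := by
  intro d hd M c C' ε R hC' hε hε4 hR b hb
  have hb2 : BaseKer 2 M c b := base_mono (by norm_num) hb
  obtain ⟨CP, hCP, hPO⟩ := h d hd M c C' ε hC' hε hε4 b hb
  obtain ⟨CD, hCD, hDI⟩ := h1 d (by omega) M c ε hε (by linarith) b hb2
  have hSC := h2 d hd C' hC'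
  obtain ⟨CT, hCT, hTH⟩ := h3 d 0 hd C' hC'
  obtain ⟨B, hB0, hB⟩ := kit_TFn (d := d) (by omega) M
  obtain ⟨N, hN0, hN⟩ := chi_TFn (d := d) (by omega)
  set Cv : ℝ := Real.sqrt CT with hCv
  have hCv0 : 0 ≤ Cv := Real.sqrt_nonneg _
  set V : ℝ := (volume (closedBall (0 : Sp d) 1)).toReal with hV
  have hV0 : 0 ≤ V := ENNReal.toReal_nonneg
  set N2 : ℝ := 4 * N * (4 * N * (((ε / 2)⁻¹) ^ 2 * (CP * Cv * B * V)) +
      ((ε / 2)⁻¹) ^ 2 * (CP * Cv * B * V)) + 1 with hN2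
  have hN20 : 0 < N2 := by positivity
  set CL : ℝ := 4 * (CP * Cv) + N2 * CD * (2 * 5 ^ d) with hCL
  have hCL0 : 0 ≤ CL := by positivity
  refine ⟨CP + 2 * (CP * Cv) + CL, by positivity, ?_⟩
  intro E _ _ _ μ hμ f hf hf' s0 hs0 e he I
  have hR3 : (3 : ℝ) ≤ R := by
    have : (0 : ℝ) ≤ d := Nat.cast_nonneg d
    linarith
  -- one level
  have hlevel : ∀ i, 2 ≤ i → ∑' p : Fin d → ℤ,
      ∫ y, chiQ (cen s0 i p) (lev s0 i) y * ⟪f y, e i p⟫_ℝ * GG (KN b (i - 2)) ε μ (lev s0 i) y ≤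
      (∫ y, ‖fl b ε s0 f (i - 1) y‖ * gk b ε μ s0 i y) + CP * (1 / 4) ^ i * Cv * (∫ y, ‖f y‖) +
        CL * ∑' p : Fin d → ℤ, lev s0 i ^ (d - 1) * DD b ε R s0 f i (cen s0 i p) (e i p) := by
    intro i hi
    set t : ℝ := lev s0 i with ht
    have ht0 : 0 < t := lev_pos hs0 i
    have hst : s0 / t = (1 / 2) ^ i := by
      rw [ht]
      unfold lev
      rw [div_mul_cancel_left₀ hs0.ne', one_div, inv_pow]
    obtain ⟨⟨hg', -, hvv, -, hGG⟩, hfield⟩ : (Gro C' (rsm 0 t μ) ∧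
      (∀ r y, 0 < r → th (rsm 0 t μ) r y = th μ (t * r) (0 + t • y)) ∧
      (∀ r y, 0 < r → vv (rsm 0 t μ) r y = vv μ (t * r) (0 + t • y)) ∧ _ ∧ _) ∧ _ :=
      ⟨(hSC 0 t ht0).1 μ hμ, (hSC 0 t ht0).2.1⟩
    obtain ⟨hfl, hDD, -⟩ := hfield E M c b hb2 ε hε (by linarith) f hf hf' s0 hs0
    set μ' : Measure (Sp d) := rsm 0 t μ with hμ'
    set f' : Sp d → E := rs 0 t f with hf0
    have hf'e : ∀ y, f' y = t • f (t • y) := fun y => by
      rw [hf0]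
      unfold rs
      rw [zero_add]
    have hfc : Continuous f' := by
      have : f' = fun y => t • f (t • y) := funext hf'e
      rw [this]
      fun_prop
    have hfcs : HasCompactSupport f' := by
      obtain ⟨ρ, hρ0, hρ⟩ := cs_bd hf'
      refine cs_of (ρ := ρ / t) fun y hy => ?_
      rw [hf'e, hρ, smul_zero]
      rw [norm_smul, Real.norm_of_nonneg ht0.le]
      rwa [div_lt_iff₀ ht0, mul_comm] at hy
    obtain ⟨hth, hsm, -⟩ := hTH μ' hg'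
    have hv : ∀ y, vv μ' 1 y ≤ Cv := fun y => Real.sqrt_le_sqrt (hth 1 y one_pos).2
    obtain ⟨hP1, hP2, -⟩ := hPO μ' hg' ((1 / 2) ^ i) (by positivity)
    have hU := unit_level hd hε hε4 hR hb hCP hCD hB hN hN20 (by rw [hN2]; linarith) hsm hv hi
      (fun y => hP1 i y (by omega)) (fun y => hP2 i y hi) hfc hfcs
      (fun e e' h1 h2 x x' Y a1 a2 a3 a4 a5 => hDI E f' hfc hfcs R hR3 i e e' h1 h2 x x' Y a1 a2 a3
        a4 a5) (he i)
    -- rescaling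
    have hvv' : ∀ r y, 0 < r → vv μ' r y = vv μ (t * r) (t • y) := fun r y hr => by
      rw [hvv r y hr, zero_add]
    have hgk : ∀ y, gk b ε μ' ((1 / 2) ^ i) i y = gk b ε μ s0 i (t • y) := fun y => by
      rw [← hst]
      exact gk_scale ht0 hs0 hvv' i y
    have hGG' : ∀ y, GG (KN b (i - 2)) ε μ' 1 y = GG (KN b (i - 2)) ε μ t (t • y) := fun y => by
      have := (hGG 4 M (KN b (i - 2)) (hb.kit _) (by norm_num) ε hε (by linarith) 1 y one_pos).1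
      rw [this, mul_one, zero_add]
    have hfl' : ∀ y, fl b ε ((1 / 2) ^ i) f' (i - 1) y = t • fl b ε s0 f (i - 1) (t • y) := fun y => by
      rw [← hst, hfl (i - 1) y, zero_add]
    have hDD' : ∀ p, DD b ε R ((1 / 2) ^ i) f' i (lat p) (e i p) =
        DD b ε R s0 f i (cen s0 i p) (e i p) := fun p => by
      rw [← hst, hDD R i (lat p) (e i p), zero_add]
      rfl
    have hint : ∀ Φ : Sp d → ℝ, ∫ y, t * Φ (t • y) = t * ((t ^ d)⁻¹ * ∫ y, Φ y) := by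
      intro Φ
      rw [integral_const_mul, Measure.integral_comp_smul volume Φ t, finrank_euclideanSpace_fin,
        abs_of_pos (by positivity), smul_eq_mul]
    have e1 : ∀ p, ∫ y, ch p y * ⟪f' y, e i p⟫_ℝ * GG (KN b (i - 2)) ε μ' 1 y =
        t * (t ^ d)⁻¹ * ∫ y, chiQ (cen s0 i p) t y * ⟪f y, e i p⟫_ℝ * GG (KN b (i - 2)) ε μ t y := by
      intro p
      rw [mul_assoc, ← hint]
      congr 1
      ext y
      have hc : chiQ (cen s0 i p) t (t • y) = ch p y := by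
        unfold chiQ cen ch
        rw [← ht, ← smul_sub, smul_smul, one_div, inv_mul_cancel₀ ht0.ne', one_smul]
      rw [hc, hf'e, hGG', real_inner_smul_left]
      ring
    have e2 : ∫ y, ‖fl b ε ((1 / 2) ^ i) f' (i - 1) y‖ * gk b ε μ' ((1 / 2) ^ i) i y =
        t * (t ^ d)⁻¹ * ∫ y, ‖fl b ε s0 f (i - 1) y‖ * gk b ε μ s0 i y := by
      rw [mul_assoc, ← hint]
      congr 1
      ext y
      rw [hfl', hgk, norm_smul, Real.norm_of_nonneg ht0.le]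
      ring
    have e3 : ∫ y, ‖f' y‖ = t * (t ^ d)⁻¹ * ∫ y, ‖f y‖ := by
      rw [mul_assoc, ← hint]
      congr 1
      ext y
      rw [hf'e, norm_smul, Real.norm_of_nonneg ht0.le]
    simp only [e1, e2, e3, hDD'] at hU
    rw [tsum_mul_left] at hU
    have htd : t ^ d = t ^ (d - 1) * t := by
      rw [← pow_succ]
      congr 1
      omega
    have hq : t ^ (d - 1) * (t * (t ^ d)⁻¹) = 1 := by
      rw [htd]
      field_simp
    have hmul := mul_le_mul_of_nonneg_left hU (by positivity : (0 : ℝ) ≤ t ^ (d - 1))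
    rw [tsum_mul_left]
    have e4 : ∀ X : ℝ, t ^ (d - 1) * (t * (t ^ d)⁻¹ * X) = X := fun X => by
      rw [← mul_assoc, hq, one_mul]
    rw [e4] at hmul
    refine hmul.trans (le_of_eq ?_)
    rw [mul_add, mul_add, e4]
    have e5 : t ^ (d - 1) * (CP * (1 / 4) ^ i * Cv * (t * (t ^ d)⁻¹ * ∫ y, ‖f y‖)) =
        CP * (1 / 4) ^ i * Cv * ∫ y, ‖f y‖ := by
      rw [← e4 (CP * (1 / 4) ^ i * Cv * ∫ y, ‖f y‖)]
      ring
    rw [e5]
    ring
  -- summation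
  have hsum := Finset.sum_le_sum fun i (hi : i ∈ Finset.Ico 2 I) =>
    hlevel i (Finset.mem_Ico.mp hi).1
  refine hsum.trans ?_
  rw [Finset.sum_add_distrib, Finset.sum_add_distrib, ← Finset.mul_sum]
  have hP3 := (hPO μ hμ s0 hs0).2.2 E f hf hf' I
  have hf0 : 0 ≤ ∫ y, ‖f y‖ := integral_nonneg fun y => norm_nonneg _
  have hg1 : ∑ i ∈ Finset.Ico 2 I, CP * (1 / 4) ^ i * Cv * (∫ y, ‖f y‖) ≤
      2 * (CP * Cv) * ∫ y, ‖f y‖ := by
    have e1 : ∑ i ∈ Finset.Ico 2 I, CP * (1 / 4) ^ i * Cv * (∫ y, ‖f y‖) =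
        (CP * Cv * ∫ y, ‖f y‖) * ∑ i ∈ Finset.Ico 2 I, (1 / 4 : ℝ) ^ i := by
      rw [Finset.mul_sum]
      refine Finset.sum_congr rfl fun i _ => ?_
      ring
    rw [e1]
    have h5 := mul_le_mul_of_nonneg_left (geo_le I) (by positivity : 0 ≤ CP * Cv * ∫ y, ‖f y‖)
    linarith
  have hD0 : 0 ≤ ∑ i ∈ Finset.Ico 2 I, ∑' p : Fin d → ℤ,
      lev s0 i ^ (d - 1) * DD b ε R s0 f i (cen s0 i p) (e i p) :=
    Finset.sum_nonneg fun i _ => tsum_nonneg fun p => mul_nonneg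
      (pow_nonneg (lev_pos hs0 i).le _) (DD_nonneg b ε R hs0 f i _ (he i p))
  set S : ℝ := ∑ i ∈ Finset.Ico 2 I, ∑' p : Fin d → ℤ,
      lev s0 i ^ (d - 1) * DD b ε R s0 f i (cen s0 i p) (e i p) with hS
  have h6 : 0 ≤ CL * ∫ y, ‖f y‖ := by positivity
  have h7 : 0 ≤ (CP + 2 * (CP * Cv)) * S := by positivity
  linarith

end

end TG
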