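import Pool.Agent.TG.T1b
import Pool.Agent.TG.T1g

/-!
# Trace inequality, general operators: MODULE T1, the uniform sheet   (helper51)

No double quotes.
-/

open MeasureTheory Metric Set TrI
open scoped InnerProductSpace ContDiff

namespace TG

namespace T1m

noncomputable section

variable {d : ℕ}

/-- the small cut-off -/
def ph (i : ℕ) (y0 y : Sp d) : ℝ := zR 2 ((2 : ℝ) ^ i • (y - y0))

/-- the second moment -/
def qd (R0 : ℝ) (n' y0 y : Sp d) : ℝ := zR (256 * R0) y * ht n' ⟪n', y0⟫_ℝ y ^ 2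

/-- the test function -/
def tf (Rt R0 A B : ℝ) (i : ℕ) (n' y0 y : Sp d) : ℝ :=
  A * ph i y0 y + B * qd R0 n' y0 y - zR (Rt + 2) y

lemma tf_TFn (d J n0 : ℕ) {Rt R0 : ℝ} (hRt : 1 ≤ Rt) (hR0 : 400 ≤ R0) (A B : ℝ) :
    ∃ N : ℝ, 0 < N ∧ ∀ (n' y0 : Sp d) (i : ℕ), ‖n'‖ = 1 → ‖y0‖ ≤ 64 * R0 → i ≤ n0 →
      TFn J N (tf Rt R0 (A * ((2 : ℝ) ^ i) ^ (d - 1)) B i n' y0) := by
  obtain ⟨N, hN, hT⟩ := exists_TFn_zR d J
  obtain ⟨N', hN', hT'⟩ := exists_TFn_ht2 d J (256 * R0) (64 * R0) (by linarith)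
  refine ⟨|A| * ((2 : ℝ) ^ n0) ^ (d - 1) * (((2 : ℝ) ^ n0) ^ J * N) + |B| * N' + N,
    by positivity, ?_⟩
  intro n' y0 i hn hy hi
  have h2 : (2 : ℝ) ^ i ≤ 2 ^ n0 := pow_le_pow_right₀ (by norm_num) hi
  have h1 : TFn J ((((2 : ℝ) ^ n0) ^ J) * N) (ph i y0 : Sp d → ℝ) := by
    have h3 := (hT 2 (by norm_num)).comp_aff (-((2 : ℝ) ^ i • y0)) ((2 : ℝ) ^ i)
      (T := (2 : ℝ) ^ n0) (one_le_pow₀ (by norm_num)) (by
        rw [abs_of_pos (by positivity)]
        exact h2)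
    refine (congrArg (TFn J _) ?_).mp h3
    funext y
    unfold ph
    rw [smul_sub]
    congr 1
    abel
  have hc : |⟪n', y0⟫_ℝ| ≤ 64 * R0 := by
    have := abs_real_inner_le_norm n' y0
    rw [hn, one_mul] at this
    linarith
  have h4 := ((h1.const_mul (A * ((2 : ℝ) ^ i) ^ (d - 1))).add
    ((hT' n' ⟪n', y0⟫_ℝ hn hc).const_mul B)).sub (hT (Rt + 2) (by linarith))
  refine TFn.mono h4 ?_
  have h5 : |A * ((2 : ℝ) ^ i) ^ (d - 1)| ≤ |A| * ((2 : ℝ) ^ n0) ^ (d - 1) := by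
    rw [abs_mul, abs_of_pos (by positivity : (0 : ℝ) < (2 ^ i) ^ (d - 1))]
    exact mul_le_mul_of_nonneg_left (pow_le_pow_left₀ (by positivity) h2 _) (abs_nonneg _)
  have h6 : 0 ≤ ((2 : ℝ) ^ n0) ^ J * N := by positivity
  have := mul_le_mul_of_nonneg_right h5 h6
  linarith

lemma ph_zero {R0 : ℝ} (hR0 : 400 ≤ R0) {y0 : Sp d} (hy0 : ‖y0‖ ≤ 64 * R0) (i : ℕ) {y : Sp d}
    (hy : 300 * R0 ≤ ‖y‖) : ph i y0 y = 0 := by
  unfold ph
  refine zR_eq_zero ?_
  rw [norm_smul, Real.norm_of_nonneg (by positivity)]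
  have h1 := norm_sub_norm_le y y0
  have h2 : (1 : ℝ) ≤ 2 ^ i := one_le_pow₀ (by norm_num)
  nlinarith

lemma qd_zero {R0 : ℝ} (hR0 : 400 ≤ R0) (n' y0 : Sp d) {y : Sp d}
    (hy : 300 * R0 ≤ ‖y‖) : qd R0 n' y0 y = 0 := by
  unfold qd
  rw [zR_eq_zero (by linarith), zero_mul]

lemma ph_cont (i : ℕ) (y0 : Sp d) : Continuous (ph i y0 : Sp d → ℝ) := by
  have h : Continuous (zR 2 : Sp d → ℝ) := (TU.zR_smooth two_pos).continuous
  unfold ph
  exact h.comp (by fun_prop)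

lemma qd_cont {R0 : ℝ} (hR0 : 400 ≤ R0) (n' y0 : Sp d) : Continuous (qd R0 n' y0 : Sp d → ℝ) := by
  have h : Continuous (zR (256 * R0) : Sp d → ℝ) := (TU.zR_smooth (by linarith)).continuous
  unfold qd ht
  exact h.mul (by fun_prop)

/-- plane integrals of the test function -/
lemma tf_pl {Rt R0 : ℝ} (hRt : 1 ≤ Rt) (h8 : 8 * Rt ≤ R0) (h400 : 400 ≤ R0) (A B : ℝ) (i : ℕ)
    {n n' y0 : Sp d} (s : ℝ) (hn : ‖n‖ = 1) (hy : ‖y0‖ ≤ 64 * R0) :
    plInt n s (tf Rt R0 A B i n' y0) = A * plInt n s (ph i y0) + B * plInt n s (qd R0 n' y0) -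
      plInt n s (zR (Rt + 2)) := by
  have hz : ∀ (g : Sp d → ℝ), (∀ y, 300 * R0 ≤ ‖y‖ → g y = 0) → ∀ y, g y ≠ 0 →
      ‖tang n y‖ ≤ 300 * R0 := by
    intro g hg y hy
    by_contra hcon
    rw [not_le] at hcon
    exact hy (hg y (hcon.le.trans (PF.norm_tang_le hn y)))
  have i1 := PF.integrable_pl hn (ph_cont i y0) (hz _ fun y => ph_zero h400 hy i) s
  have i2 := PF.integrable_pl hn (qd_cont h400 n' y0) (hz _ fun y => qd_zero h400 n' y0) s
  have i3 := PF.integrable_pl (F := (zR (Rt + 2) : Sp d → ℝ)) hn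
    (TU.zR_smooth (by linarith)).continuous
    (hz _ fun y hy => zR_eq_zero (by linarith)) s
  have i4 : Integrable (fun y : PF.Pl n => A * ph i y0 (s • n + (y : Sp d)) +
      B * qd R0 n' y0 (s • n + (y : Sp d))) := (i1.const_mul A).add (i2.const_mul B)
  have e1 : plInt n s (tf Rt R0 A B i n' y0) =
      (∫ y : PF.Pl n, (A * ph i y0 (s • n + (y : Sp d)) + B * qd R0 n' y0 (s • n + (y : Sp d)))) -
        ∫ y : PF.Pl n, zR (Rt + 2) (s • n + (y : Sp d)) := integral_sub i4 i3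
  have e2 : (∫ y : PF.Pl n, (A * ph i y0 (s • n + (y : Sp d)) +
      B * qd R0 n' y0 (s • n + (y : Sp d)))) =
      (∫ y : PF.Pl n, A * ph i y0 (s • n + (y : Sp d))) +
        ∫ y : PF.Pl n, B * qd R0 n' y0 (s • n + (y : Sp d)) :=
    integral_add (i1.const_mul A) (i2.const_mul B)
  rw [e1, e2, integral_const_mul, integral_const_mul]
  rfl

end

end T1m

open T1m in
/-- MODULE T1 -/
theorem stmtT1 (hFR1 : StmtFR1) (hMA : StmtMA) (hCT5 : StmtCT5) (hCT8 : StmtCT8) : StmtT1 := by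
  intro d V E _ _ _ _ _ _ _ L hd hL M c0 ε hε hε1 b hb Rt R0 γ hRt hR0 h8 hγ hγ1
  have hd1 : 1 ≤ d := by omega
  have hdR : (2 : ℝ) ≤ d := by exact_mod_cast hd
  have h400 : 400 ≤ R0 := by linarith
  obtain ⟨C2, hC2, hgeo⟩ := T1g.geo d hd Rt R0 hRt h8 h400
  obtain ⟨CL, hCL, hlow⟩ := low hMA hd1 hε hε1 hb
  obtain ⟨CU, hCU, hupp⟩ := upp hMA hd1 hε hε1 hb
  obtain ⟨CF, hCF, hflat⟩ := flat stmtSD hCT5 hCT8 hd1 hε hε1 hb hR0
  obtain ⟨CP, hCP, hpos⟩ := pos_of_planes hd1 (300 * R0)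
  obtain ⟨C8, hC8, h8'⟩ := hCT8 d hd1 M c0 ε hε hε1 b hb
  obtain ⟨C9, -, h8'⟩ := h8' 0
  refine ⟨1 / (16 * (C2 * CU)), by positivity, fun n0 => ?_⟩
  obtain ⟨C3, hC3, hgeo⟩ := hgeo n0
  choose N hN hNT using fun J => tf_TFn d J n0 hRt h400 C2 C3
  obtain ⟨rm, R1, δ1, hR1, hδ1, hFR⟩ := hFR1 d V E L hd hL M c0 ε hε hε1 b hb γ 1 (300 * R0)
    (fun J => 1 / (32 * N J)) hγ hγ1 le_rfl (by linarith) (fun J => by
      have := hN J
      positivity)
  set K1 : ℝ := rm * (4 * (CP * N 2) * C8) with hK1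
  set G : ℝ := ((2 : ℝ) ^ n0) ^ d * 4 ^ n0 with hG
  set KK : ℝ := K1 + CL + 5 * (C3 * CF) + C2 * CU * G + 1 with hKK
  have hN2 := hN 2
  have hK1p : 0 ≤ K1 := by positivity
  have hKKp : 0 < KK := by positivity
  refine ⟨1 / (16 * (C3 * CF + 1)), min δ1 (1 / (16 * KK)), max (2 * R1 + 2 * d + 20) (700 * R0),
    by positivity, lt_min hδ1 (by positivity), ?_⟩
  intro R hR u hu s0 hs e hDirs ν c hPl P haP hgr hamC hdC hbC y hy hyx i hi hiP
  have hR2 : 2 * R1 + 2 * d + 20 ≤ R := (le_max_left _ _).trans hR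
  have hR3 : 700 * R0 ≤ R := (le_max_right _ _).trans hR
  have hf : Continuous (fo L u) := TC.fo_cont L hu
  have hfc : HasCompactSupport (fo L u) := TC.fo_cs L hu
  set f := fo L u with hfdef
  set a := mT b ε s0 f P with ha
  set κ : ℝ := 1 / (16 * (C3 * CF + 1)) with hκ
  set δ : ℝ := min δ1 (1 / (16 * KK)) with hδ
  have hδ0 : 0 < δ := lt_min hδ1 (by positivity)
  have hdCn : ∀ Q, 0 ≤ dC b ε R s0 f e Q := fun Q =>
    TU.DD_nonneg b ε R hs f Q.1 (xC s0 Q) (hDirs.unit Q)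
  have hdP : dC b ε R s0 f e P ≤ δ * a := by
    have h1 := hdC 0
    rw [FR.up_zero] at h1
    simpa using h1
  have hd9 : dC b ε R s0 f e (up 9 P) ≤ 4 * (δ * a) := by
    refine (hdC 9).trans ?_
    have h1 : (2 : ℝ) ^ (((9 : ℕ) : ℝ) / 8) ≤ (2 : ℝ) ^ (2 : ℝ) :=
      Real.rpow_le_rpow_of_exponent_le (by norm_num) (by norm_num)
    have h2 : (2 : ℝ) ^ (2 : ℝ) = 4 := by norm_num
    rw [h2] at h1
    have h3 : 0 ≤ δ * a := by positivity
    calc δ * (2 : ℝ) ^ (((9 : ℕ) : ℝ) / 8) * a = (2 : ℝ) ^ (((9 : ℕ) : ℝ) / 8) * (δ * a) := by ring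
      _ ≤ _ := mul_le_mul_of_nonneg_right h1 h3
  -- the point in the frame of P
  have ht0 := FR.lev_pos hs P.1
  set n' := ν (up 9 P) with hn'
  set y0 : Sp d := (1 / lev s0 P.1) • (y - xC s0 P) with hy0
  have hn'1 : ‖n'‖ = 1 := hPl.unit _
  have hy0n : ‖y0‖ ≤ 64 * R0 := by
    rw [hy0, norm_smul, Real.norm_of_nonneg (by positivity), one_div_mul_eq_div, div_le_iff₀ ht0]
    exact hyx
  have hcfr : FR.cfr s0 P n' (c (up 9 P)) = ⟪n', y0⟫_ℝ := by
    unfold ht at hy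
    unfold FR.cfr
    rw [hy0, inner_smul_right, inner_sub_right, one_div_mul_eq_div]
    congr 1
    linarith
  have hcabs : |⟪n', y0⟫_ℝ| ≤ 64 * R0 := by
    have := abs_real_inner_le_norm n' y0
    rw [hn'1, one_mul] at this
    linarith
  set A : ℝ := C2 * ((2 : ℝ) ^ i) ^ (d - 1) with hA
  -- (A)
  obtain ⟨q1, -⟩ := h8' E R (by linarith) (by norm_num; linarith) f hf hfc s0 hs e hDirs
  obtain ⟨-, hZ⟩ := q1 P
  obtain ⟨J, r, νs, κs, hStr⟩ := hFR R hR2 u hu s0 hs e hDirs P a haP.le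
    (fun l => by rw [one_mul]; exact hgr l)
    (fun l => (hdC l).trans (mul_le_mul_of_nonneg_right (mul_le_mul_of_nonneg_right
      (min_le_left _ _) (by positivity)) haP.le))
  have hTF := fun J => hNT J n' y0 i hn'1 hy0n hi
  have hA1 := hpos J rm r R1 (1 / (32 * N J)) a (C8 * dC b ε R s0 f e P) (R - 2)
    (mQ s0 f (e P) P) νs κs hStr (mul_nonneg hC8.le (hdCn P)) hZ (by linarith)
    (tf Rt R0 A C3 i n' y0) (N 2) (N J) (hTF 2) (hTF J)
    (fun y hy => by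
      unfold tf
      rw [ph_zero h400 hy0n i hy, qd_zero h400 n' y0 hy, zR_eq_zero (by linarith)]
      ring)
    (fun n s hn => by
      rw [tf_pl hRt h8 h400 A C3 i s hn hy0n]
      have := hgeo n n' y0 s i hn hn'1 hy0n hi
      have e1 : plInt n s (ph i y0) = plInt n s (fun y => zR 2 ((2 : ℝ) ^ i • (y - y0))) := rfl
      have e2 : plInt n s (qd R0 n' y0) =
        plInt n s (fun y => zR (256 * R0) y * ht n' ⟪n', y0⟫_ℝ y ^ 2) := rfl
      rw [e1, e2]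
      linarith)
  have hNJ := hN J
  have e1 : 1 / (32 * N J) * a * N J = a / 32 := by
    field_simp
  rw [e1] at hA1
  -- (B)
  have i1 : Integrable fun y => mQ s0 f (e P) P y * ph i y0 y :=
    mQ_int hf hfc hs P (e P) (ph_cont i y0)
  have i2 : Integrable fun y => mQ s0 f (e P) P y * qd R0 n' y0 y :=
    mQ_int hf hfc hs P (e P) (qd_cont h400 n' y0)
  have i3 : Integrable fun y => mQ s0 f (e P) P y * zR (Rt + 2) y :=
    mQ_int hf hfc hs P (e P) (TU.zR_smooth (by linarith)).continuous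
  have hB : ∫ y, mQ s0 f (e P) P y * tf Rt R0 A C3 i n' y0 y =
      A * (∫ y, mQ s0 f (e P) P y * ph i y0 y) + C3 * (∫ y, mQ s0 f (e P) P y * qd R0 n' y0 y) -
        ∫ y, mQ s0 f (e P) P y * zR (Rt + 2) y := by
    have i4 : Integrable fun y => A * (mQ s0 f (e P) P y * ph i y0 y) +
        C3 * (mQ s0 f (e P) P y * qd R0 n' y0 y) := (i1.const_mul A).add (i2.const_mul C3)
    rw [← integral_const_mul, ← integral_const_mul, ← integral_add (i1.const_mul A)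
      (i2.const_mul C3), ← integral_sub i4 i3]
    congr 1
    funext y
    unfold tf
    ring
  -- (C)
  have hC := hlow E f hf hfc R Rt hRt (by linarith) s0 hs P (e P) (hDirs.unit P)
  have hC' : DD b ε R s0 f P.1 (xC s0 P) (e P) = dC b ε R s0 f e P := rfl
  rw [hC'] at hC
  -- (D)
  have hD := hflat E f hf hfc R hR3 s0 hs e hDirs ν c hPl P (by rw [← hn', hcfr]; exact hcabs)
  rw [← hn', hcfr] at hD
  have hD' : ∫ y, mQ s0 f (e P) P y * qd R0 n' y0 y =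
    ∫ y, mQ s0 f (e P) P y * (zR (256 * R0) y * ht n' ⟪n', y0⟫_ℝ y ^ 2) := rfl
  rw [← hD'] at hD
  -- (E)
  set k := P.1 - i with hk
  have hki : k + i = P.1 := Nat.sub_add_cancel hiP
  have hE1 := small_int hd1 f (e P) (xC s0 P) y hs k i
  rw [hki] at hE1
  have hE1' : ∫ z, ⟪rs (xC s0 P) (lev s0 P.1) f z, e P⟫_ℝ *
      zR 2 ((2 : ℝ) ^ i • (z - (1 / lev s0 P.1) • (y - xC s0 P))) =
      ∫ z, mQ s0 f (e P) P z * ph i y0 z := rfl
  rw [hE1'] at hE1
  have hE2 := hupp E f hf hfc (16 * R0) (by linarith) s0 hs k y (e P) (hDirs.unit P)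
  rw [← hE1] at hE2
  have hlk := FR.lev_pos hs k
  have hlev : lev s0 (k + i) = 2 ^ i * lev s0 k := FR.lev_add s0 k i
  have h2i : (1 : ℝ) ≤ 2 ^ i := one_le_pow₀ (by norm_num)
  have hE3 := DD_mono2 hb ε hf hfc hs k i (R := 16 * R0) (R' := R) (x := y) (x' := xC s0 P)
    (by
      refine ball_subset_ball' ?_
      rw [dist_eq_norm, hki]
      have h1 : lev s0 k ≤ lev s0 P.1 := by
        rw [← hki, hlev]
        nlinarith
      have h2 : 16 * R0 * lev s0 k ≤ 16 * R0 * lev s0 P.1 :=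
        mul_le_mul_of_nonneg_left h1 (by linarith)
      have h3 : 80 * R0 * lev s0 P.1 ≤ R * lev s0 P.1 :=
        mul_le_mul_of_nonneg_right (by linarith) ht0.le
      linarith) (hDirs.unit P)
  rw [hki, hC'] at hE3
  have hG1 : ((2 : ℝ) ^ i) ^ d / 2 ^ i * 4 ^ i ≤ G := by
    have h1 : ((2 : ℝ) ^ i) ^ d / 2 ^ i ≤ (2 ^ n0) ^ d := by
      rw [div_le_iff₀ (by positivity)]
      have h2 : ((2 : ℝ) ^ i) ^ d ≤ (2 ^ n0) ^ d :=
        pow_le_pow_left₀ (by positivity) (pow_le_pow_right₀ (by norm_num) hi) _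
      have h3 : (0 : ℝ) ≤ (2 ^ n0) ^ d := by positivity
      nlinarith
    have h4 : (4 : ℝ) ^ i ≤ 4 ^ n0 := pow_le_pow_right₀ (by norm_num) hi
    exact mul_le_mul h1 h4 (by positivity) (by positivity)
  have hE4 : DD b ε (16 * R0) s0 f k y (e P) ≤ G * (δ * a) :=
    hE3.trans (mul_le_mul hG1 hdP (hdCn P) (by positivity))
  -- conclusion
  have hfin : 1 / (16 * (C2 * CU)) * a ≤ ma b ε (16 * R0) s0 f k y := by
    rw [one_div_mul_eq_div, div_le_iff₀ (by positivity)]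
    set m0 := ma b ε (16 * R0) s0 f k y with hm0
    set Ip := ∫ y, mQ s0 f (e P) P y * ph i y0 y with hIp
    set Iq := ∫ y, mQ s0 f (e P) P y * qd R0 n' y0 y with hIq
    set Iz := ∫ y, mQ s0 f (e P) P y * zR (Rt + 2) y with hIz
    set X := dC b ε R s0 f e P with hX
    have hX0 : 0 ≤ X := hdCn P
    -- upper bound for A Ip
    have u1 : A * Ip ≤ C2 * CU * m0 + C2 * CU * G * (δ * a) := by
      have h1 := mul_le_mul_of_nonneg_left hE2 hC2.le
      have h2 : C2 * (CU * (m0 + DD b ε (16 * R0) s0 f k y (e P))) ≤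
          C2 * (CU * (m0 + G * (δ * a))) :=
        mul_le_mul_of_nonneg_left (mul_le_mul_of_nonneg_left (by linarith) hCU.le) hC2.le
      have h3 : A * Ip = C2 * (((2 : ℝ) ^ i) ^ (d - 1) * Ip) := by rw [hA]; ring
      rw [h3]
      refine h1.trans (h2.trans (le_of_eq (by ring)))
    have u2 : C3 * Iq ≤ C3 * CF * (κ * a) + 5 * (C3 * CF) * (δ * a) := by
      have h1 : Iq ≤ CF * (κ * a + δ * a + 4 * (δ * a)) :=
        hD.trans (mul_le_mul_of_nonneg_left (by linarith) hCF.le)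
      refine (mul_le_mul_of_nonneg_left h1 hC3.le).trans (le_of_eq (by ring))
    have u3 : a / 4 ≤ Iz + CL * (δ * a) := by
      have h1 := mul_le_mul_of_nonneg_left hdP hCL.le
      linarith
    have u4 : -(K1 * (δ * a)) - a / 32 ≤ A * Ip + C3 * Iq - Iz := by
      rw [← hB]
      refine le_trans ?_ hA1
      have h1 : (rm : ℝ) * (4 * (CP * N 2) * (C8 * X)) = K1 * X := by rw [hK1]; ring
      have h2 := mul_le_mul_of_nonneg_left hdP hK1p
      rw [h1]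
      linarith
    have u5 : KK * (δ * a) ≤ a / 16 := by
      have h1 : δ ≤ 1 / (16 * KK) := min_le_right _ _
      have h2 : KK * δ ≤ 1 / 16 := by
        have h3 := mul_le_mul_of_nonneg_left h1 hKKp.le
        refine h3.trans (le_of_eq ?_)
        field_simp
      calc KK * (δ * a) = KK * δ * a := by ring
        _ ≤ 1 / 16 * a := mul_le_mul_of_nonneg_right h2 haP.le
        _ = a / 16 := by ring
    have u6 : C3 * CF * (κ * a) ≤ a / 16 := by
      have h1 : C3 * CF * κ ≤ 1 / 16 := by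
        rw [hκ, mul_one_div, div_le_div_iff₀ (by positivity) (by norm_num)]
        linarith
      calc C3 * CF * (κ * a) = C3 * CF * κ * a := by ring
        _ ≤ 1 / 16 * a := mul_le_mul_of_nonneg_right h1 haP.le
        _ = a / 16 := by ring
    have u7 : KK * (δ * a) = K1 * (δ * a) + CL * (δ * a) + 5 * (C3 * CF) * (δ * a) +
        C2 * CU * G * (δ * a) + δ * a := by rw [hKK]; ring
    have u8 : 0 ≤ δ * a := by positivity
    have u9 : a / 16 ≤ C2 * CU * m0 := by linarith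
    linarith
  exact hfin

end TG
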