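import Pool.Agent.TG.StmtsFH
import Pool.Agent.TG.FR4

/-!
# Module FH, first part: the fields T, oml, omp, v, TG of FinH  (helper98)
-/

open MeasureTheory Metric Set TrI
open scoped InnerProductSpace ContDiff ENNReal

namespace TG

namespace FHam

noncomputable section

variable {d : ℕ}

theorem partA (h1 : StmtCT1) (h2 : StmtCT2) (h3 : StmtCT3) (h7 : StmtCT7) (hd : 2 ≤ d) :
    ∃ Rt : ℝ, 1 ≤ Rt ∧ ∀ (M c0 ε : ℝ), 0 < ε → ε ≤ 1 → ∀ (b : Sp d → ℝ), BaseKer 2 M c0 b →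
    ∀ (C' R0 ρ : ℝ), 0 < C' → 400 + 8 * d ≤ R0 → 8 * Rt ≤ R0 → 3 * d ≤ ρ →
    ∃ C0 : ℝ, 1 ≤ C0 ∧ ∀ R : ℝ, 200 * R0 ≤ R → ∃ Λ : ℝ, 1 ≤ Λ ∧
    ∀ (E : Type) [NormedAddCommGroup E] [InnerProductSpace ℝ E] [FiniteDimensional ℝ E]
      [Nontrivial E] (f : Sp d → E), Continuous f → HasCompactSupport f →
    ∀ μ : Measure (Sp d), Gro C' μ → ∀ s0 : ℝ, 0 < s0 →
    ∀ e : Cell d → E, Dirs b ε R s0 f e → ∀ Cb : ℝ, C0 ≤ Cb →
      TreeH Cb s0 (Λ * ∫ y, ‖f y‖) (mC b ε (64 * R0) s0 f) (mT b ε s0 f) (dC b ε R s0 f e)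
        (oC μ ρ s0) (oC μ (ρ + Real.sqrt d) s0) (gC b ε (128 * R0) s0 f) ∧
      (∀ Q, oC μ ρ s0 Q ≤ Cb) ∧
      (∀ Q, oC μ ρ s0 Q ≤ oC μ (ρ + Real.sqrt d) s0 Q) ∧
      (∀ Q, omC μ s0 Q ≤ Cb) ∧
      (∀ Q, oC μ (ρ + Real.sqrt d) s0 Q ≤ Cb * omC μ s0 Q) ∧
      (∀ Q, oC μ (ρ + Real.sqrt d) s0 Q ≤ Cb * oC μ ρ s0 (up 9 Q)) ∧
      (∀ Q, 0 ≤ tG b ε s0 f Q) ∧
      cs univ (fun P => cw s0 P * tG b ε s0 f P) ≤ ENNReal.ofReal (Cb * (Λ * ∫ y, ‖f y‖)) ∧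
      ∀ γ : ℝ, γ ≤ 1 → ∀ P,
        (∀ l : ℕ, mT b ε s0 f (up l P) ≤ (2 : ℝ) ^ (γ * l) * mT b ε s0 f P) →
        mT b ε s0 f P ≤ Cb * (mC b ε (32 * R0) s0 f P + tG b ε s0 f P) := by
  have hd1 : 1 ≤ d := by omega
  have hdR : (2 : ℝ) ≤ d := by exact_mod_cast hd
  obtain ⟨Rt, hRt, g3⟩ := h3 d hd1
  refine ⟨Rt, hRt, ?_⟩
  intro M c0 ε hε hε1 b hb C' R0 ρ hC' hR0 hRt0 hρ
  obtain ⟨C3, hC3, g3⟩ := g3 M c0 ε hε hε1 b hb
  obtain ⟨C1, hC1, g1⟩ := h1 d hd1 M c0 ε C' (64 * R0) ρ hε hε1 hC' (by linarith) hρ b hb 9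
    (by norm_num)
  obtain ⟨C7, hC7, g7⟩ := h7 d hd C' 1 1 0 hC' one_pos le_rfl le_rfl le_rfl 0
  set S := Real.sqrt (C7 * (ρ + Real.sqrt d) ^ (d + 1)) with hS
  have hS0 : 0 ≤ S := Real.sqrt_nonneg _
  have hsd := Real.sqrt_nonneg (d : ℝ)
  refine ⟨C1 + C3 + C7 + S + 2, by linarith, ?_⟩
  intro R hR
  obtain ⟨C2, hC2, g2⟩ := h2 d hd1 M c0 ε R hε hε1 (by linarith) b hb
  refine ⟨max 1 C2, le_max_left _ _, ?_⟩
  intro E _ _ _ _ f hf hc μ hμ s0 h e he Cb hCb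
  obtain ⟨a1, a2, a3, a4, a5, a6, a7⟩ := g1 E f hf hc μ hμ s0 h
  obtain ⟨b1, -, b3⟩ := g2 E f hf hc s0 h e he
  obtain ⟨c1, c2, c3⟩ := g3 E f hf hc s0 h
  obtain ⟨e1, e2, -, -⟩ := g7 μ hμ s0 h
  have hI : 0 ≤ ∫ y, ‖f y‖ := integral_nonneg fun y => norm_nonneg _
  have hΛ : 1 ≤ max 1 C2 := le_max_left _ _
  have hIΛ : ∫ y, ‖f y‖ ≤ max 1 C2 * ∫ y, ‖f y‖ := le_mul_of_one_le_left hI hΛ
  have hI2 : C2 * ∫ y, ‖f y‖ ≤ max 1 C2 * ∫ y, ‖f y‖ :=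
    mul_le_mul_of_nonneg_right (le_max_right _ _) hI
  have hb1 : C1 ≤ Cb := by linarith
  have hb3 : C3 ≤ Cb := by linarith
  have hb7 : C7 ≤ Cb := by linarith
  have hbS : S ≤ Cb := by linarith
  have hb0 : 1 ≤ Cb := by linarith
  have h128 : 2 * (64 * R0) = 128 * R0 := by ring
  rw [h128] at a2 a4 a7
  have hcw : ∀ Q : Cell d, 0 ≤ cw s0 Q := fun Q => (cw_pos h Q).le
  have hmC : ∀ Q, 0 ≤ mC b ε (32 * R0) s0 f Q := fun Q => by
    simp only [mC, ma]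
    have := FR.lev_pos h Q.1
    exact mul_nonneg (by positivity) (integral_nonneg fun y => norm_nonneg _)
  refine ⟨?_, fun Q => (a3 Q).2.1.trans ((a3 Q).2.2.1.trans hb1), fun Q => (a3 Q).2.1,
    fun Q => (e1 Q).2.1.trans hb7, ?_, ?_, c1, ?_, ?_⟩
  · constructor
    case C0_one => exact hb0
    case s0_pos => exact h
    case tot_nonneg => positivity
    case a_nonneg => exact fun Q => (a1 Q).1
    case at_nonneg => exact fun Q => (a1 Q).2.1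
    case D_nonneg => exact b1
    case oml_nonneg => exact fun Q => (a3 Q).1
    case omp_nonneg => exact fun Q => (a3 Q).1.trans (a3 Q).2.1
    case G_nonneg => exact a2
    case omp_le => exact fun Q => (a3 Q).2.2.1.trans hb1
    case a_le => exact fun Q => (a1 Q).2.2.trans (mul_le_mul_of_nonneg_right hb1 (a1 Q).2.1)
    case T1 =>
      intro i P hi
      refine (a4 i P hi).trans (mul_le_mul_of_nonneg_right hb1 ?_)
      exact add_nonneg (mul_nonneg (hcw P) (a1 P).2.1) (a2 i P)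
    case T2 =>
      intro i P hi
      refine (a5 i P hi).trans (mul_le_mul_of_nonneg_right hb1 ?_)
      exact mul_nonneg (hcw P) (sq_nonneg _)
    case T3 =>
      intro i P hi
      exact (a6 i P hi).trans (mul_le_mul_of_nonneg_right hb1 (hcw P))
    case G_sum =>
      intro i
      refine (a7 i).trans (ENNReal.ofReal_le_ofReal ?_)
      have hi : (0 : ℝ) ≤ (i : ℝ) + 1 := by positivity
      exact mul_le_mul (mul_le_mul_of_nonneg_right hb1 hi) hIΛ hI (by positivity)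
    case D_sum =>
      refine b3.trans (ENNReal.ofReal_le_ofReal (hI2.trans ?_))
      exact le_mul_of_one_le_left (by positivity) hb0
  · intro Q
    have h5 := e2 Q (ρ + Real.sqrt d) (by linarith)
    have h6 : oC μ (ρ + Real.sqrt d) s0 Q ≤ S * omC μ s0 Q := by
      refine Real.le_sqrt_of_sq_le h5 |>.trans ?_
      rw [Real.sqrt_mul' _ (sq_nonneg _), Real.sqrt_sq (e1 Q).1.le]
    exact h6.trans (mul_le_mul_of_nonneg_right hbS (e1 Q).1.le)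
  · intro Q
    exact (a3 Q).2.2.2.trans (mul_le_mul_of_nonneg_right hb1 (a3 _).1)
  · refine c2.trans (ENNReal.ofReal_le_ofReal ?_)
    exact mul_le_mul hb3 hIΛ hI (by linarith)
  · intro γ hγ P hP
    have h5 := c3 γ hγ P hP
    have h6 := FR4.mC_mono hb ε hf hc h (by linarith : Rt ≤ 32 * R0) P
    have h7 := hmC P
    have h8 := c1 P
    nlinarith [mul_nonneg (by linarith : 0 ≤ Cb - 2) h7, mul_nonneg (by linarith : 0 ≤ Cb - C3) h8]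

end

end FHam

end TG
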