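import Pool.Agent.TG.SAF0
import Pool.Agent.TG.TFU
import Pool.Agent.TG.GE
import Pool.Agent.TG.SA3
import Pool.Agent.TG.SS

/-!
# Module SAF: frames (base frame and frame of level 2) (helper95)
-/

open MeasureTheory Metric Set TrI
open scoped InnerProductSpace ContDiff

namespace TG

namespace SAFm

noncomputable section

open TU

variable {d : ℕ}

/-- plane integrals in a frame -/
lemma plInt_frame (hd : 1 ≤ d) {ν : Sp d} (hν : ‖ν‖ = 1) (c : ℝ) (x : Sp d) {t : ℝ} (ht : 0 < t)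
    (F : Sp d → ℝ) :
    plInt ν c F = t ^ (d - 1) * plInt ν ((c - ⟪ν, x⟫_ℝ) / t) (fun y => F (x + t • y)) := by
  obtain ⟨n, rfl⟩ : ∃ n, d = n + 1 := ⟨d - 1, by omega⟩
  obtain ⟨i, _, _, hi⟩ := GE.param ν hν
  have h1 := hi (c • ν) F
  have e1 : ⟪ν, c • ν⟫_ℝ = c := by
    rw [inner_smul_right, real_inner_self_eq_norm_sq, hν]
    ring
  rw [e1] at h1
  have h2 := hi ((1 / t) • (c • ν - x)) (fun y => F (x + t • y))
  have e2 : ⟪ν, (1 / t) • (c • ν - x)⟫_ℝ = (c - ⟪ν, x⟫_ℝ) / t := by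
    rw [inner_smul_right, inner_sub_right, e1]
    ring
  rw [e2] at h2
  have e3 : (fun v => F (x + t • ((1 / t) • (c • ν - x) + i v))) =
      fun v => (fun v => F (c • ν + i v)) (t • v) := by
    funext v
    simp only
    congr 1
    rw [smul_add, smul_smul, mul_one_div_cancel ht.ne', one_smul, map_smul]
    abel
  rw [h1, h2, e3, Measure.integral_comp_smul_of_nonneg volume (fun v => F (c • ν + i v)) t
    (hR := ht.le), finrank_euclideanSpace_fin, smul_eq_mul, ← mul_assoc]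
  have : t ^ (n + 1 - 1) * (t ^ n)⁻¹ = 1 := by
    rw [Nat.add_sub_cancel]
    exact mul_inv_cancel₀ (by positivity)
  rw [this, one_mul]

section E

variable {E : Type} [NormedAddCommGroup E] [InnerProductSpace ℝ E]

lemma int_frame (hd : 1 ≤ d) (f : Sp d → E) (e : E) (x : Sp d) {t : ℝ} (ht : 0 < t)
    (ζ : Sp d → ℝ) :
    ∫ y, ⟪f y, e⟫_ℝ * ζ y = t ^ (d - 1) * ∫ y, ⟪rs x t f y, e⟫_ℝ * ζ (x + t • y) := by
  rw [frame_int f e x ht ζ]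
  have h1 : t ^ (d - 1) * (t / t ^ d) = 1 := by
    obtain ⟨n, rfl⟩ : ∃ n, d = n + 1 := ⟨d - 1, by omega⟩
    rw [Nat.add_sub_cancel, pow_succ]
    field_simp
  rw [← mul_assoc, h1, one_mul]

lemma rs_cont {f : Sp d → E} (hf : Continuous f) (x : Sp d) (t : ℝ) : Continuous (rs x t f) := by
  unfold rs
  fun_prop

lemma rs_cs {f : Sp d → E} (hf : HasCompactSupport f) (x : Sp d) {t : ℝ} (ht : t ≠ 0) :
    HasCompactSupport (rs x t f) := by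
  unfold rs
  have h1 : HasCompactSupport (fun y : Sp d => f (x + t • y)) := by
    have := hf.comp_homeomorph ((Homeomorph.smulOfNeZero t ht).trans (Homeomorph.addLeft x))
    refine (congrArg HasCompactSupport ?_).mp this
    funext y
    rfl
  exact h1.smul_left (f := fun _ => t)

end E

lemma tower_le {E : Type} [NormedAddCommGroup E] {x : ℕ → Sp d} {e : ℕ → E} (h : Tower x e) :
    ‖x 1‖ ≤ Real.sqrt d ∧ ‖x 2 - x 1‖ ≤ 2 * Real.sqrt d ∧ ‖x 2‖ ≤ 3 * Real.sqrt d := by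
  have h1 := h.step 0
  have h2 := h.step 1
  rw [h.zero, sub_zero, pow_zero, mul_one] at h1
  rw [pow_one] at h2
  refine ⟨h1, by linarith, ?_⟩
  have h3 := norm_add_le (x 2 - x 1) (x 1)
  rw [sub_add_cancel] at h3
  norm_num at h1 h2 h3 ⊢
  linarith

/-! ## scaling of the functionals -/

lemma half_pow (n r : ℕ) : ((1 : ℝ) / 2) ^ n / 2 ^ r = (1 / 2) ^ (n + r) := by
  rw [pow_add, one_div_pow (2 : ℝ) r]
  ring

section Sca

variable {E : Type} [NormedAddCommGroup E] [InnerProductSpace ℝ E] [FiniteDimensional ℝ E]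

lemma DD_fr (hSC : StmtSC) (hd : 2 ≤ d) {M c0 ε : ℝ} (hε : 0 < ε) (hε1 : ε ≤ 1) {b : Sp d → ℝ}
    (hb : BaseKer 2 M c0 b) {f : Sp d → E} (hf : Continuous f) (hfc : HasCompactSupport f)
    (n r : ℕ) (x : Sp d) (R : ℝ) (i : ℕ) (y : Sp d) (e : E) :
    DD b ε R ((1 / 2) ^ (n + r)) (rs x (2 ^ r) f) i y e =
      DD b ε R ((1 / 2) ^ n) f i (x + (2 : ℝ) ^ r • y) e := by
  have h := ((hSC d hd 1 one_pos x (2 ^ r) (by positivity)).2.1 E M c0 b hb ε hε hε1 f hf hfc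
    ((1 / 2) ^ n) (by positivity)).2.1 R i y e
  rwa [half_pow] at h

lemma ma_fr (hSC : StmtSC) (hd : 2 ≤ d) {M c0 ε : ℝ} (hε : 0 < ε) (hε1 : ε ≤ 1) {b : Sp d → ℝ}
    (hb : BaseKer 2 M c0 b) {f : Sp d → E} (hf : Continuous f) (hfc : HasCompactSupport f)
    (n r : ℕ) (x : Sp d) (R : ℝ) (i : ℕ) (y : Sp d) :
    ma b ε R ((1 / 2) ^ (n + r)) (rs x (2 ^ r) f) i y =
      ma b ε R ((1 / 2) ^ n) f i (x + (2 : ℝ) ^ r • y) := by
  have h := ((hSC d hd 1 one_pos x (2 ^ r) (by positivity)).2.1 E M c0 b hb ε hε hε1 f hf hfc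
    ((1 / 2) ^ n) (by positivity)).2.2 R i y
  rwa [half_pow] at h

lemma bb_fr (hSD : StmtSD) (hd : 2 ≤ d) {f : Sp d → E} (hf : Continuous f)
    (hfc : HasCompactSupport f) (n r : ℕ) (x : Sp d) (ρ : ℝ) (i : ℕ) (e : E) (ν : Sp d)
    (c : ℝ) :
    bb ρ ((1 / 2) ^ (n + r)) (rs x (2 ^ r) f) i 0 e ν ((c - ⟪ν, x⟫_ℝ) / 2 ^ r) =
      bb ρ ((1 / 2) ^ n) f i x e ν c := by
  have h := hSD.2 d E f (by omega) hf hfc x (2 ^ r) (by positivity) ρ ((1 / 2) ^ n) i 0 e ν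
    ((c - ⟪ν, x⟫_ℝ) / 2 ^ r) (by positivity)
  rw [half_pow] at h
  rw [h, smul_zero, add_zero]
  congr 1
  have : (2 : ℝ) ^ r ≠ 0 := by positivity
  field_simp
  ring

lemma bD_fr (hSC : StmtSC) (hSD : StmtSD) (hd : 2 ≤ d) {M c0 ε : ℝ} (hε : 0 < ε) (hε1 : ε ≤ 1)
    {b : Sp d → ℝ} (hb : BaseKer 2 M c0 b) {f : Sp d → E} (hf : Continuous f)
    (hfc : HasCompactSupport f) (n r : ℕ) (x : Sp d) (R0 R : ℝ) (e : E) (ν : Sp d) (c : ℝ) :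
    bD b ε R0 R ((1 / 2) ^ (n + r)) (rs x (2 ^ r) f) (n + r) 0 e ν ((c - ⟪ν, x⟫_ℝ) / 2 ^ r) =
      bD b ε R0 R ((1 / 2) ^ n) f (n + r) x e ν c := by
  unfold bD
  rw [bb_fr hSD hd hf hfc, DD_fr hSC hd hε hε1 hb hf hfc, smul_zero, add_zero]

end Sca

/-! ## direction change and mass in the base frame -/

/-- change of direction between the levels 0 and 2 -/
lemma dirch (hTW : StmtTW) (hSC : StmtSC) (hd : 2 ≤ d) {M c0 ε : ℝ} (hε : 0 < ε) (hε1 : ε ≤ 1)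
    {b : Sp d → ℝ} (hb : BaseKer 2 M c0 b) {R0 : ℝ} (hR0 : 100 + 8 * d ≤ R0) :
    ∃ C : ℝ, 0 < C ∧
    ∀ (E : Type) [NormedAddCommGroup E] [InnerProductSpace ℝ E] [FiniteDimensional ℝ E],
    ∀ (R : ℝ), 4 * R0 + 10 ≤ R → ∀ f : Sp d → E, Continuous f → HasCompactSupport f →
    ∀ (n : ℕ) (x : ℕ → Sp d) (e : ℕ → E), Tower x e →
      ∀ (ζ : Sp d → ℝ) (N : ℝ), TFn 2 N ζ → (∀ y, R - 1 ≤ ‖y‖ → ζ y = 0) →
        |∫ y, ⟪f y, e 0 - e 2⟫_ℝ * ζ y| ≤ C * N *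
          (DD b ε R ((1 / 2) ^ n) f n 0 (e 0) + DD b ε R ((1 / 2) ^ n) f (n + 2) (x 2) (e 2)) := by
  obtain ⟨C, hC, h⟩ := hTW d (by omega) M c0 ε hε hε1 b hb R0 hR0
  refine ⟨C * (1 + C), by positivity, ?_⟩
  intro E _ _ _ R hR f hf hfc n x e hT ζ N hζ hs
  obtain ⟨hx1, hx2, hx3⟩ := tower_le hT
  have h1 := (h E R hR f hf hfc n (x 1) (e 0) (e 2) hx1 (hT.unit 0) (hT.unit 2)).2.1 ζ N hζ hs
  have h2 := (h E R hR (rs (x 1) (2 ^ 1) f) (rs_cont hf _ _) (rs_cs hfc _ (by norm_num)) (n + 1)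
    ((1 / 2 : ℝ) • (x 2 - x 1)) (e 2) (e 2) (by
      rw [norm_smul]
      norm_num
      linarith) (hT.unit 2) (hT.unit 2)).1
  rw [DD_fr hSC hd hε hε1 hb hf hfc, DD_fr hSC hd hε hε1 hb hf hfc, smul_zero, add_zero,
    pow_one, smul_smul] at h2
  norm_num at h2
  have hN := TFn_nonneg hζ
  have hD0 := DD_nonneg b ε R (by positivity : (0 : ℝ) < (1 / 2) ^ n) f n 0 (hT.unit 0)
  have hD2 := DD_nonneg b ε R (by positivity : (0 : ℝ) < (1 / 2) ^ n) f (n + 2) (x 2) (hT.unit 2)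
  have e1 : n + 1 + 1 = n + 2 := rfl
  rw [e1] at h2
  norm_num at hD0 hD2 h1 ⊢
  refine h1.trans ?_
  have h3 : 0 ≤ C * N := by positivity
  have h4 : 0 ≤ C * N * C := by positivity
  nlinarith

lemma sqrt_le_d (hd : 1 ≤ d) : Real.sqrt d ≤ d := by
  have hd1 : (1 : ℝ) ≤ d := by exact_mod_cast hd
  rw [Real.sqrt_le_left (by positivity)]
  nlinarith

section Unit

variable {E : Type} [NormedAddCommGroup E] [InnerProductSpace ℝ E]

lemma lev_u (n : ℕ) : lev ((1 / 2 : ℝ) ^ n) n = 1 := by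
  unfold lev
  rw [← mul_pow]
  norm_num

lemma ma_u (b : Sp d → ℝ) (ε R : ℝ) (n : ℕ) (f : Sp d → E) :
    ma b ε R ((1 / 2) ^ n) f n 0 = ∫ y in ball (0 : Sp d) R, ‖fl b ε ((1 / 2) ^ n) f (n - 1) y‖ := by
  unfold ma
  rw [lev_u]
  simp

end Unit

/-- the mass in a unit frame -/
lemma mass_unit (hMA : StmtMA) (hd : 1 ≤ d) {M c0 ε : ℝ} (hε : 0 < ε) (hε1 : ε ≤ 1)
    {b : Sp d → ℝ} (hb : BaseKer 2 M c0 b) :
    ∃ C : ℝ, 0 < C ∧
    ∀ (E : Type) [NormedAddCommGroup E] [InnerProductSpace ℝ E] [FiniteDimensional ℝ E],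
    ∀ (R0 R : ℝ), 10 ≤ R0 → R0 + 10 ≤ R → ∀ f : Sp d → E, Continuous f → HasCompactSupport f →
    ∀ (n : ℕ) (e : E), ‖e‖ = 1 →
      ∀ (ζ : Sp d → ℝ) (N : ℝ), TFn 2 N ζ → (∀ y, R0 - 1 ≤ ‖y‖ → ζ y = 0) →
        |∫ y, ⟪f y, e⟫_ℝ * ζ y| ≤ C * N *
          (ma b ε R0 ((1 / 2) ^ n) f n 0 + DD b ε R ((1 / 2) ^ n) f n 0 e) := by
  obtain ⟨C, hC, h⟩ := MA' hMA hd hε hε1 hb
  refine ⟨C, hC, ?_⟩
  intro E _ _ _ R0 R hR0 hR f hf hfc n e he ζ N hζ hs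
  have h1 := (h E f hf hfc R (by linarith) n e he 0 (ball 0 R0) measurableSet_ball).1 ζ N hζ
    (fun y hy => hs y (by rw [sub_zero] at hy; linarith)) (fun y z hy hz => by
      have h2 : ‖y‖ < R0 - 1 := by
        by_contra hh
        exact hy (hs y (not_lt.1 hh))
      rw [mem_ball, dist_zero_right]
      have h3 := norm_add_le (z - y) y
      rw [sub_add_cancel] at h3
      linarith)
  rw [ma_u]
  exact h1

/-- transfer of integrals to the frame of level 2 -/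
lemma transfer (hTW : StmtTW) (hSC : StmtSC) (hd : 2 ≤ d) {M c0 ε : ℝ} (hε : 0 < ε) (hε1 : ε ≤ 1)
    {b : Sp d → ℝ} (hb : BaseKer 2 M c0 b) {R0 : ℝ} (hR0 : 100 + 8 * d ≤ R0) :
    ∃ C : ℝ, 0 < C ∧
    ∀ (E : Type) [NormedAddCommGroup E] [InnerProductSpace ℝ E] [FiniteDimensional ℝ E],
    ∀ (R : ℝ), 4 * R0 + 10 ≤ R → ∀ f : Sp d → E, Continuous f → HasCompactSupport f →
    ∀ (n : ℕ) (x : ℕ → Sp d) (e : ℕ → E), Tower x e →
      ∀ (ζ : Sp d → ℝ) (N : ℝ), TFn 2 N ζ → (∀ y, R - 1 ≤ ‖y‖ → ζ y = 0) →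
        |(∫ y, ⟪f y, e 0⟫_ℝ * ζ y) -
          4 ^ (d - 1) * ∫ y, ⟪rs (x 2) 4 f y, e 2⟫_ℝ * ζ (x 2 + (4 : ℝ) • y)| ≤ C * N *
          (DD b ε R ((1 / 2) ^ n) f n 0 (e 0) + DD b ε R ((1 / 2) ^ n) f (n + 2) (x 2) (e 2)) := by
  obtain ⟨C, hC, h⟩ := dirch hTW hSC hd hε hε1 hb hR0
  refine ⟨C, hC, ?_⟩
  intro E _ _ _ R hR f hf hfc n x e hT ζ N hζ hs
  have h1 := h E R hR f hf hfc n x e hT ζ N hζ hs
  rw [← int_frame (by omega) f (e 2) (x 2) (by norm_num : (0 : ℝ) < 4) ζ]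
  have i1 := SS.integrable_m hf hfc (e 0) hζ.smooth.continuous
  have i2 := SS.integrable_m hf hfc (e 2) hζ.smooth.continuous
  have e1 : ∫ y, ⟪f y, e 0 - e 2⟫_ℝ * ζ y =
      (∫ y, ⟪f y, e 0⟫_ℝ * ζ y) - ∫ y, ⟪f y, e 2⟫_ℝ * ζ y := by
    rw [← integral_sub i1 i2]
    congr 1
    funext y
    rw [inner_sub_right]
    ring
  rw [← e1]
  exact h1

/-- the mass in the base frame is bounded by the mass of level 2 -/
lemma mass_base (hTW : StmtTW) (hSC : StmtSC) (hMA : StmtMA) (hd : 2 ≤ d) {M c0 ε : ℝ}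
    (hε : 0 < ε) (hε1 : ε ≤ 1)
    {b : Sp d → ℝ} (hb : BaseKer 2 M c0 b) {R0 : ℝ} (hR0 : 100 + 8 * d ≤ R0) :
    ∃ C : ℝ, 0 < C ∧
    ∀ (E : Type) [NormedAddCommGroup E] [InnerProductSpace ℝ E] [FiniteDimensional ℝ E],
    ∀ (R : ℝ), 4 * R0 + 10 ≤ R → ∀ f : Sp d → E, Continuous f → HasCompactSupport f →
    ∀ (n : ℕ) (x : ℕ → Sp d) (e : ℕ → E), Tower x e →
      ∀ (ζ : Sp d → ℝ) (N : ℝ), TFn 2 N ζ → (∀ y, 2 * R0 ≤ ‖y‖ → ζ y = 0) →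
        |∫ y, ⟪f y, e 0⟫_ℝ * ζ y| ≤ C * N *
          (ma b ε R0 ((1 / 2) ^ n) f (n + 2) (x 2) + DD b ε R ((1 / 2) ^ n) f n 0 (e 0) +
            DD b ε R ((1 / 2) ^ n) f (n + 2) (x 2) (e 2)) := by
  obtain ⟨C, hC, h⟩ := transfer hTW hSC hd hε hε1 hb hR0
  obtain ⟨C1, hC1, h1⟩ := mass_unit hMA (by omega : 1 ≤ d) hε hε1 hb
  refine ⟨C + 4 ^ (d - 1) * (C1 * 16), by positivity, ?_⟩
  intro E _ _ _ R hR f hf hfc n x e hT ζ N hζ hs
  have hd0 : (0 : ℝ) ≤ d := by positivity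
  have k1 := h E R hR f hf hfc n x e hT ζ N hζ (fun y hy => hs y (by linarith))
  have k2 := h1 E R0 R (by linarith) (by linarith) (rs (x 2) 4 f) (rs_cont hf _ _)
    (rs_cs hfc _ (by norm_num)) (n + 2) (e 2) (hT.unit 2) (fun y => ζ (x 2 + (4 : ℝ) • y))
    (max 1 |(4 : ℝ)| ^ 2 * N) (TFn_aff hζ (x 2) (by norm_num)) (fun y hy => hs _ (by
      obtain ⟨_, _, hx⟩ := tower_le hT
      have h3 := norm_sub_norm_le ((4 : ℝ) • y) (-(x 2))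
      rw [norm_neg, sub_neg_eq_add, add_comm, norm_smul] at h3
      norm_num at h3
      have := sqrt_le_d (d := d) (by omega)
      linarith))
  have e4 : (2 : ℝ) ^ 2 = 4 := by norm_num
  have hm := ma_fr hSC hd hε hε1 hb hf hfc n 2 (x 2) R0 (n + 2) 0
  have hD := DD_fr hSC hd hε hε1 hb hf hfc n 2 (x 2) R (n + 2) 0 (e 2)
  rw [smul_zero, add_zero, e4] at hm hD
  rw [hm, hD] at k2
  have hN := TFn_nonneg hζ
  have hD0 := DD_nonneg b ε R (by positivity : (0 : ℝ) < (1 / 2) ^ n) f n 0 (hT.unit 0)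
  have hD2 := DD_nonneg b ε R (by positivity : (0 : ℝ) < (1 / 2) ^ n) f (n + 2) (x 2) (hT.unit 2)
  have hm2 := ma_nonneg b ε R0 (by positivity : (0 : ℝ) < (1 / 2) ^ n) f (n + 2) (x 2)
  generalize DD b ε R ((1 / 2) ^ n) f n 0 (e 0) = D0 at *
  generalize DD b ε R ((1 / 2) ^ n) f (n + 2) (x 2) (e 2) = D2 at *
  generalize ma b ε R0 ((1 / 2) ^ n) f (n + 2) (x 2) = mm at *
  generalize (∫ y, ⟪rs (x 2) 4 f y, e 2⟫_ℝ * ζ (x 2 + (4 : ℝ) • y)) = X at *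
  generalize (∫ y, ⟪f y, e 0⟫_ℝ * ζ y) = Y at *
  have e5 : max 1 |(4 : ℝ)| ^ 2 = 16 := by norm_num
  rw [e5] at k2
  have hP : (0 : ℝ) < 4 ^ (d - 1) := by positivity
  generalize ((4 : ℝ) ^ (d - 1)) = P at *
  have k3 : |Y| ≤ |Y - P * X| + P * |X| := by
    have := abs_add_le (Y - P * X) (P * X)
    rwa [sub_add_cancel, abs_mul, abs_of_pos hP] at this
  have k4 := mul_le_mul_of_nonneg_left k2 hP.le
  have k5 : 0 ≤ C * N * mm := by positivity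
  have k6 : 0 ≤ P * (C1 * 16) * N * D0 := by positivity
  calc |Y| ≤ |Y - P * X| + P * |X| := k3
    _ ≤ C * N * (D0 + D2) + P * (C1 * (16 * N) * (mm + D2)) := add_le_add k1 k4
    _ ≤ _ := by nlinarith

end

end SAFm

end TG
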