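import Pool.Agent.TG.STh8

/-!
# Structure theorem: one chart, smooth test functions
-/

open MeasureTheory Metric Set TrI
open scoped InnerProductSpace ContDiff

namespace TG
namespace ST

noncomputable section

variable {d : ℕ}

section Concl

variable {V E : Type} [NormedAddCommGroup V] [InnerProductSpace ℝ V] [FiniteDimensional ℝ V]
  [NormedAddCommGroup E] [InnerProductSpace ℝ E] [FiniteDimensional ℝ E]

/-- the conclusion for one direction e, smooth test functions -/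
def Concl (L : (Sp d →L[ℝ] V) →L[ℝ] E) (b : Sp d → ℝ) (ε K γ Rs ε' : ℝ) (J rm : ℕ) (R1 δ : ℝ)
    (e : E) : Prop :=
  ∀ R' : ℝ, R1 ≤ R' → ∀ (n : ℕ) (u : Sp d → V), TF u → ∀ a : ℝ, 0 ≤ a →
    (∀ ρ : ℝ, 1 ≤ ρ → ρ ≤ R1 →
      (∫ y in ball (0 : Sp d) ρ, ‖fl b ε ((1 / 2) ^ n) (fo L u) (n - 1) y‖) ≤
        K * ρ ^ ((d : ℝ) - 1 + γ) * a) →
    DD b ε R' ((1 / 2) ^ n) (fo L u) n 0 e ≤ δ * a →
    ∃ (r : ℕ) (ν : Fin r → Sp d) (κ : Fin r → Sp d → ℝ),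
      r ≤ rm ∧ (∀ i, ‖ν i‖ = 1) ∧ (∀ i y, 0 ≤ κ i y) ∧ (∀ i, TFn 2 1 (κ i)) ∧
      (∀ i y, κ i y ≠ 0 → ‖tang (ν i) y‖ ≤ R1 - Rs - 3) ∧
      (∀ i y, κ i y = κ i (tang (ν i) y)) ∧
      ∀ (ζ : Cs d) (N : ℝ), (∀ j ≤ J, ∀ x, ‖iteratedFDeriv ℝ j ζ.f x‖ ≤ N) →
        (∀ y, Rs + 1 ≤ ‖y‖ → ζ.f y = 0) →
        |(∫ y, ⟪fo L u y, e⟫_ℝ * ζ.f y)
          - ∑ i, ∫ y, ⟪fo L u y, e⟫_ℝ * (κ i y * plInt (ν i) ⟪ν i, y⟫_ℝ ζ.f)| ≤ ε' * a * N

omit [FiniteDimensional ℝ V] [FiniteDimensional ℝ E] in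
lemma fo_cont (L : (Sp d →L[ℝ] V) →L[ℝ] E) {u : Sp d → V} (hu : TF u) : Continuous (fo L u) :=
  L.continuous.comp (hu.smooth.continuous_fderiv (by simp))

omit [FiniteDimensional ℝ V] [FiniteDimensional ℝ E] in
lemma fo_cs (L : (Sp d →L[ℝ] V) →L[ℝ] E) {u : Sp d → V} (hu : TF u) : HasCompactSupport (fo L u) :=
  (hu.supp.fderiv (𝕜 := ℝ)).comp_left (g := fun D => L D) (map_zero L)

/-- choice of the small parameters -/
lemma choose_small {A s : ℝ} (_hA : 0 ≤ A) (hs : 0 < s) : ∃ τ : ℝ, 1 ≤ τ ∧ A * τ ^ (-(1 / 2) : ℝ) ≤ s := by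
  have h1 : Filter.Tendsto (fun τ : ℝ => A * τ ^ (-(1 / 2) : ℝ)) Filter.atTop (nhds (A * 0)) :=
    (tendsto_rpow_neg_atTop (by norm_num : (0 : ℝ) < 1 / 2)).const_mul A
  rw [mul_zero] at h1
  have h2 := h1.eventually (gt_mem_nhds hs)
  obtain ⟨τ, h3, h4⟩ := (h2.and (Filter.eventually_ge_atTop (1 : ℝ))).exists
  exact ⟨τ, h4, h3.le⟩

lemma choose_delta {m2 A B s : ℝ} (hm2 : 0 ≤ m2) (_hA : 0 ≤ A) (hB : 0 ≤ B) (hs : 0 < s) :
    ∃ δ δ1 : ℝ, 0 < δ ∧ δ ≤ 1 ∧ 0 < δ1 ∧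
      A * (Real.sqrt (m2 * δ) + δ) + B * (m2 + δ) * δ1 ≤ s := by
  have h1 : Filter.Tendsto (fun δ : ℝ => A * (Real.sqrt (m2 * δ) + δ)) (nhdsWithin 0 (Ioi 0))
      (nhds (A * (Real.sqrt (m2 * 0) + 0))) := by
    apply Filter.Tendsto.mono_left _ nhdsWithin_le_nhds
    exact Continuous.tendsto (by fun_prop) 0
  rw [mul_zero, Real.sqrt_zero, add_zero, mul_zero] at h1
  have h2 := h1.eventually (gt_mem_nhds (half_pos hs))
  have h3 : ∀ᶠ δ : ℝ in nhdsWithin 0 (Ioi 0), δ ∈ Ioc (0 : ℝ) 1 := Ioc_mem_nhdsGT one_pos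
  obtain ⟨δ, h4, h5⟩ := (h2.and h3).exists
  have h6 : 0 < B * (m2 + 1) + 1 := by positivity
  refine ⟨δ, s / 2 / (B * (m2 + 1) + 1), h5.1, h5.2, by positivity, ?_⟩
  have h7 : B * (m2 + δ) * (s / 2 / (B * (m2 + 1) + 1)) ≤ s / 2 := by
    have h8 : B * (m2 + δ) ≤ B * (m2 + 1) + 1 := by
      have : B * (m2 + δ) ≤ B * (m2 + 1) := mul_le_mul_of_nonneg_left (by linarith [h5.2]) hB
      linarith
    calc B * (m2 + δ) * (s / 2 / (B * (m2 + 1) + 1))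
        ≤ (B * (m2 + 1) + 1) * (s / 2 / (B * (m2 + 1) + 1)) :=
          mul_le_mul_of_nonneg_right h8 (by positivity)
      _ = s / 2 := by field_simp
  linarith

set_option maxHeartbeats 1000000 in
theorem chart (hAL : StmtAL) (hMA : StmtMA) (hPE : StmtPE) (L : (Sp d →L[ℝ] V) →L[ℝ] E)
    (hd : 2 ≤ d) (hL : CEll L) (M c ε : ℝ) (hε : 0 < ε) (hε1 : ε ≤ 1) (b : Sp d → ℝ)
    (hb : BaseKer 2 M c b) (γ K Rs : ℝ) (hγ0 : 0 < γ) (hγ : γ ≤ 1 / (8 * d)) (hK : 0 < K)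
    (hRs : 1 ≤ Rs) (e0 : E) (he0 : ‖e0‖ = 1) :
    ∃ J rm : ℕ, ∀ ε' : ℝ, 0 < ε' → ∃ (R1 δ δ1 : ℝ), Rs + 3 ≤ R1 ∧ 0 < δ ∧ 0 < δ1 ∧
      ∀ e : E, ‖e‖ = 1 → ‖e - e0‖ ≤ δ1 → Concl L b ε K γ Rs ε' J rm R1 δ e := by
  have hd1 : 1 ≤ d := by omega
  have hγ16 : γ ≤ 1 / 16 := by
    refine hγ.trans ?_
    have : (2 : ℝ) ≤ d := by exact_mod_cast hd
    apply one_div_le_one_div_of_le (by norm_num)
    linarith
  set P : ℝ := (d : ℝ) - 1 + γ with hP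
  have hP0 : 0 ≤ P := P_nonneg hd1 hγ0
  obtain ⟨CM, hCM, hF1⟩ := F1 hMA hd1 M c ε hε hε1 b hb
  obtain ⟨CP, hCP, hF2⟩ := F2 hPE hd1 M c ε hε hε1 b hb
  have he00 : e0 ≠ 0 := by
    intro h
    rw [h, norm_zero] at he0
    exact zero_ne_one he0
  obtain ⟨r, q, Mx, m, ν, S, TY, hq, hMx, hν, hνd, hS, hTY1, hTY2⟩ := hAL d V E L hd hL e0 he00
  set R0 : ℝ := Rs + 1 with hR0def
  have hR0 : 0 < R0 := by linarith
  have hex : ∀ i, ∃ φ B : Hn (ν i) → ℝ, Rdl φ B := fun i => by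
    have := Hn_nontrivial hd (ν i) (hν i)
    exact exists_Rdl
  choose φ B hφ using hex
  obtain ⟨F, c0, C0, hFam, hFK⟩ := exists_fam hd ν S hν hνd hS R0 hR0 φ B hφ
  obtain ⟨a0, ha0, hmain⟩ := hFam.main hd1 hγ0 hγ16 (Mx - 1) 0
  choose C5 hC50 hC5 using fun i => kap_bounds (hφ i) (hν i)
  choose C6 hC60 hC6 using fun i => GG0_C2 (hφ i) (hν i) R0 hR0.le
  set Q1 : ℝ := CM * (K * 2 ^ P + 1) with hQ1
  have hQ10 : 0 ≤ Q1 := by positivity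
  set Q2 : ℝ := Q1 * (1 + R0) ^ P with hQ2
  have hQ20 : 0 ≤ Q2 := by positivity
  have hS6 : 0 ≤ ∑ i, C6 i := Finset.sum_nonneg (fun i _ => hC60 i)
  have hS5 : 0 ≤ ∑ i, C5 i := Finset.sum_nonneg (fun i _ => hC50 i)
  set A0 : ℝ := Q2 * a0 + Q2 * ∑ i, C6 i + ∑ i, C5 i with hA0
  have hA00 : 0 ≤ A0 := by positivity
  refine ⟨m + 2, r, fun ε' hε' => ?_⟩
  obtain ⟨τ, hτ1, hτ⟩ := choose_small hA00 (lt_min (by positivity : 0 < ε' / 4) one_pos)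
  have hτ0 : 0 < τ := by linarith
  have hθ0 : 0 ≤ τ ^ (-(1 / 2) : ℝ) := Real.rpow_nonneg hτ0.le _
  obtain ⟨R, hR, hU⟩ := hmain τ hτ1
  rw [pow_zero, pow_one] at hR hU
  have hMx1 : Mx - 1 + 1 = Mx := by omega
  rw [hMx1] at hU
  obtain ⟨ρm, hρm⟩ := hR.psi
  obtain ⟨ρK, CK, KK', hKK, hUK⟩ := UU_factor (fun i => QQ (Sn (ν i)) (fr (ν i) (hν i)))
    (fun i => QQ (S i) fr1) (fun i ρ C A hA => hA.comm_QQ _ _) (fun i ρ C A hA => hA.comm_QQ _ _)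
    (fun i T hT => KK_ao (hφ i) (Sn (ν i)) (fr (ν i) (hν i)) (fr_frame (ν i) (hν i)) T hT)
    hFK τ hτ1 Mx 0
  have hρK0 : 0 ≤ ρK := hKK.ρ0
  have hCK0 : 0 ≤ CK := hKK.C0
  set m2 : ℝ := K * (R0 + ρK + 1) ^ P with hm2
  have hm20 : 0 ≤ m2 := by positivity
  set N0 : ℝ := ‖TY‖ * CK with hN0
  have hN00 : 0 ≤ N0 := by positivity
  obtain ⟨δ, δ1, hδ0, hδle, hδ10, hδδ⟩ := choose_delta hm20 (A := N0 * CP) (B := N0 * CM)
    (by positivity) (by positivity) (by positivity : 0 < ε' / 4)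
  set R1 : ℝ := Rs + 5 + R0 + τ + |ρm| + ρK with hR1
  have hρmabs : 0 ≤ |ρm| := abs_nonneg _
  have hρmle : ρm ≤ |ρm| := le_abs_self _
  refine ⟨R1, δ, δ1, by linarith, hδ0, hδ10, ?_⟩
  intro e he hee R' hR' n u hu a ha hgrow hDD
  set f := fo L u with hfdef
  have hf : Continuous f := fo_cont L hu
  have hc : HasCompactSupport f := fo_cs L hu
  -- the basic bound
  have hF1a : ∀ ρ' : ℝ, 1 ≤ ρ' → ρ' + 2 ≤ R1 → ∀ (g : Sp d → ℝ) (N : ℝ), ContDiff ℝ 2 g →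
      (∀ y, |g y| ≤ N) → (∀ y, ‖iteratedFDeriv ℝ 2 g y‖ ≤ N) → (∀ y, ρ' ≤ ‖y‖ → g y = 0) →
      |∫ y, ⟪f y, e⟫_ℝ * g y| ≤ Q1 * ρ' ^ P * a * N := by
    intro ρ' h1 h2 g N hg hN hN2 hs
    have hN0' : 0 ≤ N := (abs_nonneg _).trans (hN 0)
    refine (hF1 E f hf hc R' (by linarith) n e he ρ' (K * (ρ' + 1) ^ P * a) (δ * a) (by linarith)
      (hgrow (ρ' + 1) (by linarith) (by linarith)) hDD g N hg hN hN2 hs).trans ?_
    apply mul_le_mul_of_nonneg_right _ hN0'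
    have h3 : (ρ' + 1) ^ P ≤ 2 ^ P * ρ' ^ P := by
      rw [← Real.mul_rpow (by norm_num) (by linarith)]
      exact Real.rpow_le_rpow (by linarith) (by linarith) hP0
    have h4 : 1 ≤ ρ' ^ P := Real.one_le_rpow h1 hP0
    have h5 : K * (ρ' + 1) ^ P * a + δ * a ≤ (K * 2 ^ P + 1) * ρ' ^ P * a := by
      have h6 : K * (ρ' + 1) ^ P ≤ K * (2 ^ P * ρ' ^ P) := mul_le_mul_of_nonneg_left h3 hK.le
      have h7 : K * (ρ' + 1) ^ P + δ ≤ (K * 2 ^ P + 1) * ρ' ^ P := by nlinarith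
      calc K * (ρ' + 1) ^ P * a + δ * a = (K * (ρ' + 1) ^ P + δ) * a := by ring
        _ ≤ _ := mul_le_mul_of_nonneg_right h7 ha
    calc CM * (K * (ρ' + 1) ^ P * a + δ * a) ≤ CM * ((K * 2 ^ P + 1) * ρ' ^ P * a) :=
          mul_le_mul_of_nonneg_left h5 hCM.le
      _ = Q1 * ρ' ^ P * a := by rw [hQ1]; ring
  refine ⟨r, ν, fun i => (kap (hφ i) (hν i) τ).f, le_rfl, hν, fun i y => kap_nonneg (hφ i) (hν i) hτ0 y,
    fun i => ?_, fun i y hy => ?_, fun i y => kap_tang (hφ i) (hν i) τ y, ?_⟩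
  · refine ⟨(kap (hφ i) (hν i) τ).cd.of_le (by norm_cast), fun j hj x => ?_⟩
    refine ((hC5 i τ hτ1).2.2.2 j hj x).trans ?_
    rw [Hn_fin (ν i) (hν i)]
    have h1 : τ ≤ τ ^ (d - 1) := by
      calc τ = τ ^ 1 := (pow_one τ).symm
        _ ≤ τ ^ (d - 1) := pow_le_pow_right₀ hτ1 (by omega)
    have h2 : C5 i / τ ^ (d - 1) ≤ C5 i / τ := div_le_div_of_nonneg_left (hC50 i) hτ0 h1
    have h3 : C5 i / τ ≤ C5 i * τ ^ (-(1 / 2) : ℝ) := by
      rw [div_eq_mul_inv, ← Real.rpow_neg_one]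
      apply mul_le_mul_of_nonneg_left _ (hC50 i)
      exact Real.rpow_le_rpow_of_exponent_le hτ1 (by norm_num)
    have h4 : C5 i ≤ A0 := by
      have := Finset.single_le_sum (fun i _ => hC50 i) (Finset.mem_univ i)
      have h5 : 0 ≤ Q2 * a0 + Q2 * ∑ i, C6 i := by positivity
      rw [hA0]; linarith
    calc C5 i / τ ^ (d - 1) ≤ C5 i * τ ^ (-(1 / 2) : ℝ) := h2.trans h3
      _ ≤ A0 * τ ^ (-(1 / 2) : ℝ) := mul_le_mul_of_nonneg_right h4 hθ0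
      _ ≤ 1 := hτ.trans (min_le_right _ _)
  · have := kap_supp (hφ i) (hν i) hτ0 y hy
    rw [hR1]
    linarith
  · intro ζ N hN hζ
    have hN0' : 0 ≤ N := (norm_nonneg _).trans (hN 0 (by omega) 0)
    have hζN : ∀ y, |ζ.f y| ≤ N := fun y => by
      have := hN 0 (by omega) y
      rwa [norm_iteratedFDeriv_zero, Real.norm_eq_abs] at this
    -- (1)
    have b1 : |psi f hf hc e (UU (fun i => EE (hφ i) (Sn (ν i))) F τ 0 Mx ζ)| ≤ ε' / 4 * a * N := by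
      rw [hUK]
      have hG : ∀ y, R0 + ρK ≤ ‖y‖ → (KK' ζ).f y = 0 := fun y hy => hKK.supp hζ y hy
      have hPG : ∀ x, (((Pt ν hν S) ^ Mx) (KK' ζ)).f x = ⟪e0, TY (iteratedFDeriv ℝ m (KK' ζ).f x)⟫_ℝ := by
        intro x
        rw [hTY1 (KK' ζ).f (KK' ζ).cd x, allOp_iter ν hν]
      have hz : ∫ x, ⟪f x, TY (iteratedFDeriv ℝ m (KK' ζ).f x)⟫_ℝ = 0 := by
        apply hTY2 u (KK' ζ).f hu.smooth (KK' ζ).cd
        apply HasCompactSupport.intro (isCompact_closedBall (0 : Sp d) (R0 + ρK))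
        intro y hy
        apply hG
        rw [mem_closedBall, dist_zero_right, not_le] at hy
        exact hy.le
      have h3 := F3 TY e0 e f hf hc (KK' ζ) (((Pt ν hν S) ^ Mx) (KK' ζ)) hPG hz (R0 + ρK) (CK * N)
        (m2 * a) (δ * a) δ1 CM CP hG (fun y => hKK.iter_le (hN m (by omega)) y)
        (fun y => hKK.iter_le (hN (m + 2) le_rfl) y) hee
        (hF1 E f hf hc R' (by linarith) n e he (R0 + ρK) (m2 * a) (δ * a) (by linarith)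
          (hgrow (R0 + ρK + 1) (by linarith) (by linarith)) hDD)
        (hF2 E f hf hc R' (by linarith) n e he (R0 + ρK) (m2 * a) (δ * a) (by linarith) (by positivity)
          (hgrow (R0 + ρK + 1) (by linarith) (by linarith)) hDD)
      refine h3.trans ?_
      have h4 : Real.sqrt (m2 * a * (δ * a)) = Real.sqrt (m2 * δ) * a := by
        have : m2 * a * (δ * a) = m2 * δ * a ^ 2 := by ring
        rw [this, Real.sqrt_mul (by positivity), Real.sqrt_sq ha]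
      rw [h4]
      calc CP * (Real.sqrt (m2 * δ) * a + δ * a) * (‖TY‖ * (CK * N)) +
            CM * (m2 * a + δ * a) * (δ1 * (‖TY‖ * (CK * N)))
          = (N0 * CP * (Real.sqrt (m2 * δ) + δ) + N0 * CM * (m2 + δ) * δ1) * (a * N) := by
            rw [hN0]; ring
        _ ≤ ε' / 4 * (a * N) := mul_le_mul_of_nonneg_right hδδ (by positivity)
        _ = ε' / 4 * a * N := by ring
    -- bound for localised small operators
    have hloc : ∀ (ρ C η : ℝ) (A' : Op d), 1 ≤ ρ → R0 + ρ + 2 ≤ R1 → AO ρ C A' → SmO R0 η A' → 0 ≤ η →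
        |psi f hf hc e (A' ζ)| ≤ Q2 * N * a * (η * ρ ^ P) := by
      intro ρ C η A' h1 h2 h3 h4 h5
      rw [psi_apply]
      refine (hF1a (R0 + ρ) (by linarith) (by linarith) (A' ζ).f (η * N)
        ((A' ζ).cd.of_le (by norm_cast)) (h4 ζ N hζ hζN)
        (h4.iter_le h5 h3 hζ (hN 2 (by omega))) (fun y hy => h3.supp hζ y hy)).trans ?_
      have h6 : (R0 + ρ) ^ P ≤ (1 + R0) ^ P * ρ ^ P := by
        rw [← Real.mul_rpow (by linarith) (by linarith)]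
        apply Real.rpow_le_rpow (by linarith) _ hP0
        nlinarith
      calc Q1 * (R0 + ρ) ^ P * a * (η * N) ≤ Q1 * ((1 + R0) ^ P * ρ ^ P) * a * (η * N) := by
            apply mul_le_mul_of_nonneg_right _ (by positivity)
            apply mul_le_mul_of_nonneg_right _ ha
            exact mul_le_mul_of_nonneg_left h6 hQ10
        _ = Q2 * N * a * (η * ρ ^ P) := by rw [hQ2]; ring
    -- (2)
    have b2 : |psi f hf hc e (R ζ)| ≤ Q2 * N * a * (a0 * τ ^ (-(1 / 2) : ℝ)) := by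
      apply hρm (psi f hf hc e) ζ (Q2 * N * a) (by positivity)
      intro ρ C η A' h1 h2 h3 h4 h5
      exact hloc ρ C η A' h1 (by linarith) h3 h4 h5
    -- (3)
    have b3 : ∀ i, |psi f hf hc e (GG0 (hφ i) (hν i) R0 hR0.le τ ζ)| ≤
        Q2 * C6 i * τ ^ (-(1 / 2) : ℝ) * (a * N) := by
      intro i
      obtain ⟨g1, g2⟩ := hC6 i τ hτ1 ζ N hζ (fun j hj => hN j (by omega))
      rw [psi_apply]
      refine (hF1a (R0 + τ) (by linarith) (by linarith) _ _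
        ((GG0 (hφ i) (hν i) R0 hR0.le τ ζ).cd.of_le (by norm_cast))
        g1 g2 (GG0_supp (hφ i) (hν i) R0 hR0.le hτ0 hζ)).trans ?_
      rw [Hn_fin (ν i) (hν i)]
      have h0 : d - 1 + 1 = d := by omega
      rw [h0]
      have h6 : (R0 + τ) ^ P ≤ (1 + R0) ^ P * τ ^ P := by
        rw [← Real.mul_rpow (by linarith) (by linarith)]
        apply Real.rpow_le_rpow (by linarith) _ hP0
        nlinarith
      have h7 : τ ^ P / τ ^ d ≤ τ ^ (-(1 / 2) : ℝ) := pow1 hγ16 hτ1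
      have h8 : Q1 * (R0 + τ) ^ P ≤ Q2 * τ ^ P := by
        calc Q1 * (R0 + τ) ^ P ≤ Q1 * ((1 + R0) ^ P * τ ^ P) := mul_le_mul_of_nonneg_left h6 hQ10
          _ = Q2 * τ ^ P := by rw [hQ2]; ring
      have h9 : 0 ≤ C6 i := hC60 i
      calc Q1 * (R0 + τ) ^ P * a * (C6 i / τ ^ d * N)
          ≤ Q2 * τ ^ P * a * (C6 i / τ ^ d * N) := by
            apply mul_le_mul_of_nonneg_right _ (by positivity)
            exact mul_le_mul_of_nonneg_right h8 ha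
        _ = Q2 * C6 i * (τ ^ P / τ ^ d) * (a * N) := by ring
        _ ≤ Q2 * C6 i * τ ^ (-(1 / 2) : ℝ) * (a * N) := by
            apply mul_le_mul_of_nonneg_right _ (by positivity)
            exact mul_le_mul_of_nonneg_left h7 (by positivity)
    -- the identity
    have hid : (∫ y, ⟪f y, e⟫_ℝ * ζ.f y)
          - ∑ i, ∫ y, ⟪f y, e⟫_ℝ * ((kap (hφ i) (hν i) τ).f y * plInt (ν i) ⟪ν i, y⟫_ℝ ζ.f) =
        psi f hf hc e (UU (fun i => EE (hφ i) (Sn (ν i))) F τ 0 Mx ζ) - psi f hf hc e (R ζ) +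
          ∑ i, psi f hf hc e (GG0 (hφ i) (hν i) R0 hR0.le τ ζ) := by
      have h1 : ∀ i, psi f hf hc e (GG0 (hφ i) (hν i) R0 hR0.le τ ζ) =
          psi f hf hc e (EE (hφ i) (Sn (ν i)) τ ζ) -
          ∫ y, ⟪f y, e⟫_ℝ * ((kap (hφ i) (hν i) τ).f y * plInt (ν i) ⟪ν i, y⟫_ℝ ζ.f) := by
        intro i
        have e1 : GG0 (hφ i) (hν i) R0 hR0.le τ ζ = EE (hφ i) (Sn (ν i)) τ ζ -
          mulC (kap (hφ i) (hν i) τ) (PLo (ν i) R0 hR0.le ζ) := rfl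
        rw [e1, map_sub, psi_apply f hf hc e (mulC _ _)]
        congr 2
        funext y
        rw [mulC_apply, PLo_apply (hν i) R0 hR0.le hζ]
      have h2 : ∀ s : Finset (Fin r), (∑ i ∈ s, EE (hφ i) (Sn (ν i)) τ) ζ =
          ∑ i ∈ s, EE (hφ i) (Sn (ν i)) τ ζ := fun s => LinearMap.sum_apply s _ ζ
      have h3 : UU (fun i => EE (hφ i) (Sn (ν i))) F τ 0 Mx ζ =
          ζ - ∑ i, EE (hφ i) (Sn (ν i)) τ ζ + R ζ := by
        rw [hU, LinearMap.add_apply, LinearMap.sub_apply, h2, Module.End.one_apply]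
      simp_rw [h1]
      rw [h3, map_add, map_sub, map_sum, Finset.sum_sub_distrib, psi_apply f hf hc e ζ]
      ring
    rw [hid]
    have hsum : |∑ i, psi f hf hc e (GG0 (hφ i) (hν i) R0 hR0.le τ ζ)| ≤
        Q2 * (∑ i, C6 i) * τ ^ (-(1 / 2) : ℝ) * (a * N) := by
      refine (Finset.abs_sum_le_sum_abs _ _).trans ?_
      refine (Finset.sum_le_sum (fun i _ => b3 i)).trans (le_of_eq ?_)
      rw [Finset.mul_sum, Finset.sum_mul, Finset.sum_mul]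
    have haN : 0 ≤ a * N := by positivity
    have hlast : A0 * τ ^ (-(1 / 2) : ℝ) * (a * N) ≤ ε' / 4 * (a * N) :=
      mul_le_mul_of_nonneg_right (hτ.trans (min_le_left _ _)) haN
    have hsplit : A0 * τ ^ (-(1 / 2) : ℝ) * (a * N) = Q2 * N * a * (a0 * τ ^ (-(1 / 2) : ℝ)) +
        Q2 * (∑ i, C6 i) * τ ^ (-(1 / 2) : ℝ) * (a * N) + (∑ i, C5 i) * τ ^ (-(1 / 2) : ℝ) * (a * N) := by
      rw [hA0]; ring
    have h5 : 0 ≤ (∑ i, C5 i) * τ ^ (-(1 / 2) : ℝ) * (a * N) := by positivity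
    have htri : ∀ x y z : ℝ, |x - y + z| ≤ |x| + |y| + |z| := by
      intro x y z
      refine (abs_add_le _ _).trans ?_
      have := abs_sub x y
      linarith
    refine (htri _ _ _).trans ?_
    have hfin : ε' / 4 * a * N + ε' / 4 * (a * N) ≤ ε' * a * N := by
      have : 0 ≤ ε' * (a * N) := by positivity
      nlinarith
    linarith

end Concl

end

end ST
end TG
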