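import Pool.Agent.TG.TreePQ0
set_option autoImplicit false
set_option linter.unusedSectionVars false

/-!
# From the local inequalities LocW to (P), (Q1), (Q2) of StmtMJ   (helper47)
-/

open MeasureTheory Metric Set TrI
open scoped InnerProductSpace ContDiff ENNReal

namespace TG

noncomputable section

variable {d : ℕ}

namespace PQ

lemma sh_nonneg {F : Cell d → ℝ} (h : ∀ Q, 0 ≤ F Q) (Q : Cell d) : 0 ≤ sh F Q :=
  tsum_nonneg fun _ => mul_nonneg (by positivity) (h _)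

lemma cw_pos {s0 : ℝ} (h : 0 < s0) (Q : Cell d) : 0 < cw s0 Q := by
  unfold cw lev; positivity

section
variable {Cu Cr CK κ δ Cs η c1 γ s0 : ℝ} {Nb r0 : ℕ} {ns nb : Cell d → Finset (Cell d)}
  {Nr St Sol : Set (Cell d)} {N val v oml a al ah D b at' TG Y E1 E2 : Cell d → ℝ}

lemma dsm_nonneg (B : RbH Cr nb St Sol a ah D b) (Q : Cell d) : 0 ≤ dsm r0 D Q :=
  Finset.sum_nonneg fun _ _ => B.Dn _

lemma v2_nonneg (h : ∀ Q, 0 ≤ val Q) (Q : Cell d) : 0 ≤ val2 val Q := by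
  unfold val2; split_ifs
  · exact h Q
  · exact le_rfl

lemma cost_nonneg (W : WtH s0 Cu Nb ns nb Nr v oml) (B : RbH Cr nb St Sol a ah D b)
    (al0 : ∀ Q, 0 ≤ al Q) (Q : Cell d) : 0 ≤ costF Sol al D oml Q := by
  unfold costF
  exact indicator_nonneg (fun Q _ => mul_nonneg (add_nonneg (al0 _) (B.Dn _)) (W.oml0 _)) Q

lemma sB_nonneg (W : WtH s0 Cu Nb ns nb Nr v oml) (B : RbH Cr nb St Sol a ah D b)
    (Q : Cell d) : 0 ≤ sBF St b oml Q := by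
  unfold sBF
  exact indicator_nonneg (fun Q _ => mul_nonneg (sh_nonneg B.bn _) (W.oml0 _)) Q

lemma iF_nonneg (W : WtH s0 Cu Nb ns nb Nr v oml) (B : RbH Cr nb St Sol a ah D b)
    (INT : Set (Cell d)) (Q : Cell d) : 0 ≤ iFF Sol INT D b oml Q := by
  unfold iFF
  exact indicator_nonneg (fun Q _ => mul_nonneg (add_nonneg (sh_nonneg B.bn _)
    (sh_nonneg B.Dn _)) (W.oml0 _)) Q

lemma ind_nonneg (W : WtH s0 Cu Nb ns nb Nr v oml) (B : RbH Cr nb St Sol a ah D b)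
    (Q : Cell d) : 0 ≤ St.indicator (fun Q => sh D Q * oml Q) Q :=
  indicator_nonneg (fun Q _ => mul_nonneg (sh_nonneg B.Dn _) (W.oml0 _)) Q

lemma pay_nonneg (W : WtH s0 Cu Nb ns nb Nr v oml) (B : RbH Cr nb St Sol a ah D b)
    (TG0 : ∀ Q, 0 ≤ TG Q) (Q : Cell d) : 0 ≤ payF r0 St D oml TG Q := by
  unfold payF
  exact add_nonneg (add_nonneg (dsm_nonneg B Q) (ind_nonneg W B Q)) (TG0 Q)

lemma pay_dsm (W : WtH s0 Cu Nb ns nb Nr v oml) (B : RbH Cr nb St Sol a ah D b)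
    (TG0 : ∀ Q, 0 ≤ TG Q) (Q : Cell d) : dsm r0 D Q ≤ payF r0 St D oml TG Q := by
  unfold payF
  linarith [ind_nonneg W B Q, TG0 Q]

lemma pay_sh (B : RbH Cr nb St Sol a ah D b)
    (TG0 : ∀ Q, 0 ≤ TG Q) {Q : Cell d} (hQ : Q ∈ St) :
    sh D Q * oml Q ≤ payF r0 St D oml TG Q := by
  unfold payF
  rw [indicator_of_mem hQ]
  linarith [dsm_nonneg (r0 := r0) B Q, TG0 Q]

lemma rhs_eq {Cv Cc Cb Ci Cp : ℝ} {INT : Set (Cell d)} (Q : Cell d) :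
    rhsF Cv Cc Cb Ci Cp r0 nb St Sol INT val al D b oml TG Q =
      Cv * (∑ Q' ∈ nb Q, val2 val Q') + Cc * (∑ Q' ∈ nb Q, costF Sol al D oml Q') +
      Cb * (∑ Q' ∈ nb Q, sBF St b oml Q') + Ci * (∑ Q' ∈ nb Q, iFF Sol INT D b oml Q') +
      Cp * (∑ Q' ∈ nb Q, payF r0 St D oml TG Q') := by
  unfold rhsF
  simp only [Finset.sum_add_distrib, Finset.mul_sum]

/-- sheet errors are charged to a near cell -/
lemma lemE (hCu : 1 ≤ Cu) (hCr : 1 ≤ Cr) (hCK : 0 < CK) (hκ : 0 < κ) (hκ1 : κ ≤ 1)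
    (W : WtH s0 Cu Nb ns nb Nr v oml) (B : RbH Cr nb St Sol a ah D b) (TG0 : ∀ Q, 0 ≤ TG Q)
    (hE : ∀ Q ∈ St, Q ∈ TyA κ a D b → E2 Q ≤ CK * (κ * sh b Q + sh D Q)) {Q Q0 : Cell d}
    (hQ : Q ∈ Sol) (hns : ns Q0 ⊆ nb Q) (hA : ∀ Q' ∈ nb Q, Q' ∈ TyA κ a D b) :
    v Q0 * sEs ns Nr E2 Q0 ≤ Nb * CK * Cr ^ 2 * Cu ^ 2 * (κ * (∑ Q' ∈ nb Q, sBF St b oml Q') +
      2 * ∑ Q' ∈ nb Q, payF r0 St D oml TG Q') := by
  have hSB : 0 ≤ ∑ Q' ∈ nb Q, sBF St b oml Q' := Finset.sum_nonneg fun Q' _ => sB_nonneg W B Q'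
  have hSP : 0 ≤ ∑ Q' ∈ nb Q, payF r0 St D oml TG Q' :=
    Finset.sum_nonneg fun Q' _ => pay_nonneg W B TG0 Q'
  unfold sEs
  split_ifs with h
  · obtain ⟨Qs, hQs, hN⟩ := h
    have hQsn : Qs ∈ nb Q := hns hQs
    obtain ⟨s1, s2, s3, s4, s5, s6, s7⟩ := B.sol Q hQ Qs hQsn
    have hb0 := sh_nonneg B.bn Qs
    have hD0 := sh_nonneg B.Dn Qs
    have key : ∀ Q' ∈ ns Q0, E2 Q' ≤ CK * Cr ^ 2 * (κ * sh b Qs + 2 * sh D Qs) := by
      intro Q' hQ'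
      obtain ⟨t1, t2, t3, t4, t5, t6, t7⟩ := B.sol Q hQ Q' (hns hQ')
      have h1 := hE Q' t1 (hA Q' (hns hQ'))
      have hb1 := sh_nonneg B.bn Q'
      have hD1 := sh_nonneg B.Dn Q'
      have h2 : sh b Q' ≤ Cr ^ 2 * (sh b Qs + sh D Qs) := by
        calc sh b Q' ≤ sh b Q' + sh D Q' := by linarith
          _ ≤ Cr * (sh b Q + sh D Q) := t4
          _ ≤ Cr * (Cr * (sh b Qs + sh D Qs)) := mul_le_mul_of_nonneg_left s5 (by linarith)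
          _ = _ := by ring
      have h3 : sh D Q' ≤ Cr ^ 2 * sh D Qs := by
        calc sh D Q' ≤ Cr * sh D Q := t6
          _ ≤ Cr * (Cr * sh D Qs) := mul_le_mul_of_nonneg_left s7 (by linarith)
          _ = _ := by ring
      refine h1.trans ?_
      have h4 : κ * sh b Q' + sh D Q' ≤ Cr ^ 2 * (κ * sh b Qs + 2 * sh D Qs) := by
        have h5 : κ * sh b Q' ≤ κ * (Cr ^ 2 * (sh b Qs + sh D Qs)) :=
          mul_le_mul_of_nonneg_left h2 hκ.le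
        have h6 : κ * (Cr ^ 2 * sh D Qs) ≤ 1 * (Cr ^ 2 * sh D Qs) :=
          mul_le_mul_of_nonneg_right hκ1 (by positivity)
        linarith
      calc CK * (κ * sh b Q' + sh D Q') ≤ CK * (Cr ^ 2 * (κ * sh b Qs + 2 * sh D Qs)) :=
            mul_le_mul_of_nonneg_left h4 hCK.le
        _ = _ := by ring
    have hX : 0 ≤ CK * Cr ^ 2 * (κ * sh b Qs + 2 * sh D Qs) := by positivity
    have hsum : ∑ Q' ∈ ns Q0, E2 Q' ≤ Nb * (CK * Cr ^ 2 * (κ * sh b Qs + 2 * sh D Qs)) := by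
      calc ∑ Q' ∈ ns Q0, E2 Q' ≤ ∑ _Q' ∈ ns Q0, CK * Cr ^ 2 * (κ * sh b Qs + 2 * sh D Qs) :=
            Finset.sum_le_sum key
        _ = (ns Q0).card * (CK * Cr ^ 2 * (κ * sh b Qs + 2 * sh D Qs)) := by
            rw [Finset.sum_const, nsmul_eq_mul]
        _ ≤ _ := by
            refine mul_le_mul_of_nonneg_right ?_ hX
            exact_mod_cast (Finset.card_le_card hns).trans (W.card Q)
    have hv : v Q0 ≤ Cu ^ 2 * oml Qs := by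
      have h1 := W.vnb Q0 Qs (W.ns_nb Q0 hQs)
      have h2 := W.vN Qs hN
      calc v Q0 ≤ Cu * v Qs := h1
        _ ≤ Cu * (Cu * oml Qs) := mul_le_mul_of_nonneg_left h2 (by linarith)
        _ = _ := by ring
    have ho := W.oml0 Qs
    have e1 : sh b Qs * oml Qs ≤ ∑ Q' ∈ nb Q, sBF St b oml Q' := by
      have : sBF St b oml Qs = sh b Qs * oml Qs := by unfold sBF; rw [indicator_of_mem s1]
      rw [← this]
      exact Finset.single_le_sum (f := sBF St b oml) (fun i _ => sB_nonneg W B i) hQsn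
    have e2 : sh D Qs * oml Qs ≤ ∑ Q' ∈ nb Q, payF r0 St D oml TG Q' :=
      (pay_sh (r0 := r0) B TG0 s1).trans
        (Finset.single_le_sum (f := payF r0 St D oml TG) (fun i _ => pay_nonneg W B TG0 i) hQsn)
    calc v Q0 * ∑ Q' ∈ ns Q0, E2 Q'
        ≤ v Q0 * (Nb * (CK * Cr ^ 2 * (κ * sh b Qs + 2 * sh D Qs))) :=
          mul_le_mul_of_nonneg_left hsum (W.v0 _)
      _ ≤ (Cu ^ 2 * oml Qs) * (Nb * (CK * Cr ^ 2 * (κ * sh b Qs + 2 * sh D Qs))) :=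
          mul_le_mul_of_nonneg_right hv (by positivity)
      _ = Nb * CK * Cr ^ 2 * Cu ^ 2 * (κ * (sh b Qs * oml Qs) + 2 * (sh D Qs * oml Qs)) := by ring
      _ ≤ _ := by
          refine mul_le_mul_of_nonneg_left ?_ (by positivity)
          have := mul_le_mul_of_nonneg_left e1 hκ.le
          linarith
  · rw [mul_zero]; positivity

/-- masses of type B are charged to a near cell -/
lemma lemM (hCu : 1 ≤ Cu) (hCr : 1 ≤ Cr) (hκ : 0 < κ)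
    (W : WtH s0 Cu Nb ns nb Nr v oml) (B : RbH Cr nb St Sol a ah D b) (TG0 : ∀ Q, 0 ≤ TG Q)
    {Q Q0 : Cell d} (hQ : Q ∈ Sol) (hns : ns Q0 ⊆ nb Q) (hA : ∀ Q' ∈ nb Q, Q' ∉ TyA κ a D b) :
    v Q0 * sMs ns Nr a Q0 ≤ 1 / κ * (Nb * Cr ^ 2 * Cu ^ 2) *
      ((∑ Q' ∈ nb Q, sBF St b oml Q') + ∑ Q' ∈ nb Q, payF r0 St D oml TG Q') := by
  have hSB : 0 ≤ ∑ Q' ∈ nb Q, sBF St b oml Q' := Finset.sum_nonneg fun Q' _ => sB_nonneg W B Q'
  have hSP : 0 ≤ ∑ Q' ∈ nb Q, payF r0 St D oml TG Q' :=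
    Finset.sum_nonneg fun Q' _ => pay_nonneg W B TG0 Q'
  unfold sMs
  split_ifs with h
  · obtain ⟨Qs, hQs, -, hN⟩ := h
    have hQsn : Qs ∈ nb Q := hns hQs
    obtain ⟨s1, s2, s3, s4, s5, s6, s7⟩ := B.sol Q hQ Qs hQsn
    have hb0 := sh_nonneg B.bn Qs
    have hD0 := sh_nonneg B.Dn Qs
    have ha : a Qs ≤ 1 / κ * (sh b Qs + sh D Qs) := by
      have h1 := hA Qs hQsn
      simp only [TyA, mem_ofPred_eq, not_le] at h1
      rw [one_div, ← div_eq_inv_mul, le_div_iff₀ hκ]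
      linarith
    have key : ∀ Q' ∈ ns Q0, a Q' ≤ Cr ^ 2 * (1 / κ * (sh b Qs + sh D Qs)) := by
      intro Q' hQ'
      obtain ⟨t1, t2, t3, t4, t5, t6, t7⟩ := B.sol Q hQ Q' (hns hQ')
      calc a Q' ≤ Cr * a Q := t2
        _ ≤ Cr * (Cr * a Qs) := mul_le_mul_of_nonneg_left s3 (by linarith)
        _ = Cr ^ 2 * a Qs := by ring
        _ ≤ _ := mul_le_mul_of_nonneg_left ha (by positivity)
    have hX : 0 ≤ Cr ^ 2 * (1 / κ * (sh b Qs + sh D Qs)) := by positivity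
    have hsum : ∑ Q' ∈ (ns Q0).filter (fun Q' => Q'.1 = Q0.1), a Q' ≤
        Nb * (Cr ^ 2 * (1 / κ * (sh b Qs + sh D Qs))) := by
      calc ∑ Q' ∈ (ns Q0).filter (fun Q' => Q'.1 = Q0.1), a Q'
          ≤ ∑ _Q' ∈ (ns Q0).filter (fun Q' => Q'.1 = Q0.1),
              Cr ^ 2 * (1 / κ * (sh b Qs + sh D Qs)) :=
            Finset.sum_le_sum fun Q' hQ' => key Q' (Finset.mem_filter.1 hQ').1
        _ = ((ns Q0).filter (fun Q' => Q'.1 = Q0.1)).card *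
              (Cr ^ 2 * (1 / κ * (sh b Qs + sh D Qs))) := by
            rw [Finset.sum_const, nsmul_eq_mul]
        _ ≤ _ := by
            refine mul_le_mul_of_nonneg_right ?_ hX
            exact_mod_cast (Finset.card_filter_le _ _).trans
              ((Finset.card_le_card hns).trans (W.card Q))
    have hv : v Q0 ≤ Cu ^ 2 * oml Qs := by
      have h1 := W.vnb Q0 Qs (W.ns_nb Q0 hQs)
      have h2 := W.vN Qs hN
      calc v Q0 ≤ Cu * v Qs := h1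
        _ ≤ Cu * (Cu * oml Qs) := mul_le_mul_of_nonneg_left h2 (by linarith)
        _ = _ := by ring
    have ho := W.oml0 Qs
    have e1 : sh b Qs * oml Qs ≤ ∑ Q' ∈ nb Q, sBF St b oml Q' := by
      have : sBF St b oml Qs = sh b Qs * oml Qs := by unfold sBF; rw [indicator_of_mem s1]
      rw [← this]
      exact Finset.single_le_sum (f := sBF St b oml) (fun i _ => sB_nonneg W B i) hQsn
    have e2 : sh D Qs * oml Qs ≤ ∑ Q' ∈ nb Q, payF r0 St D oml TG Q' :=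
      (pay_sh (r0 := r0) B TG0 s1).trans
        (Finset.single_le_sum (f := payF r0 St D oml TG) (fun i _ => pay_nonneg W B TG0 i) hQsn)
    calc v Q0 * ∑ Q' ∈ (ns Q0).filter (fun Q' => Q'.1 = Q0.1), a Q'
        ≤ v Q0 * (Nb * (Cr ^ 2 * (1 / κ * (sh b Qs + sh D Qs)))) :=
          mul_le_mul_of_nonneg_left hsum (W.v0 _)
      _ ≤ (Cu ^ 2 * oml Qs) * (Nb * (Cr ^ 2 * (1 / κ * (sh b Qs + sh D Qs)))) :=
          mul_le_mul_of_nonneg_right hv (by positivity)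
      _ = 1 / κ * (Nb * Cr ^ 2 * Cu ^ 2) * (sh b Qs * oml Qs + sh D Qs * oml Qs) := by ring
      _ ≤ _ := by
          refine mul_le_mul_of_nonneg_left ?_ (by positivity)
          linarith
  · rw [mul_zero]; positivity

/-- the short defect sums -/
lemma lemD (W : WtH s0 Cu Nb ns nb Nr v oml) (B : RbH Cr nb St Sol a ah D b)
    (hCu : 1 ≤ Cu) (TG0 : ∀ Q, 0 ≤ TG Q) {Q Q0 : Cell d} {S : Finset (Cell d)}
    (hns : S ⊆ nb Q) :
    v Q0 * ∑ Q' ∈ S, dsm r0 D Q' ≤ Cu * ∑ Q' ∈ nb Q, payF r0 St D oml TG Q' := by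
  have h1 : ∑ Q' ∈ S, dsm r0 D Q' ≤ ∑ Q' ∈ nb Q, payF r0 St D oml TG Q' :=
    (Finset.sum_le_sum fun Q' _ => pay_dsm W B TG0 Q').trans
      (Finset.sum_le_sum_of_subset_of_nonneg hns fun i _ _ => pay_nonneg W B TG0 i)
  exact mul_le_mul (W.v1 Q0) h1 (Finset.sum_nonneg fun Q' _ => dsm_nonneg B Q') (by linarith)

/-- the values -/
lemma lemV (W : WtH s0 Cu Nb ns nb Nr v oml) (hv : ∀ Q, 0 ≤ val Q) (hCu : 1 ≤ Cu)
    {Q Q0 : Cell d} (h2 : 2 ≤ Q0.1) (hns : ns Q0 ⊆ nb Q) :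
    ∑ Q' ∈ ns Q0, cw s0 Q' * val Q' ≤ cw s0 Q0 * (Cu * ∑ Q' ∈ nb Q, val2 val Q') := by
  have h1 : ∑ Q' ∈ ns Q0, cw s0 Q' * val Q' ≤ ∑ Q' ∈ ns Q0, (Cu * cw s0 Q0) * val2 val Q' := by
    refine Finset.sum_le_sum fun Q' hQ' => ?_
    have h3 := W.lvl Q0 Q' (W.ns_nb Q0 hQ')
    have h4 : val2 val Q' = val Q' := by unfold val2; rw [if_pos (by omega)]
    rw [h4]
    exact mul_le_mul_of_nonneg_right (W.cw2 Q0 Q' (W.ns_nb Q0 hQ')) (hv Q')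
  have hc := cw_pos W.s0_pos Q0
  calc ∑ Q' ∈ ns Q0, cw s0 Q' * val Q' ≤ ∑ Q' ∈ ns Q0, (Cu * cw s0 Q0) * val2 val Q' := h1
    _ = (Cu * cw s0 Q0) * ∑ Q' ∈ ns Q0, val2 val Q' := by rw [Finset.mul_sum]
    _ ≤ (Cu * cw s0 Q0) * ∑ Q' ∈ nb Q, val2 val Q' :=
        mul_le_mul_of_nonneg_left (Finset.sum_le_sum_of_subset_of_nonneg hns
          fun i _ _ => v2_nonneg hv i) (by positivity)
    _ = _ := by ring

/-- division by the weight -/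
lemma divw {w x y : ℝ} (hw : 0 < w) (h : w * x ≤ w * y) : x ≤ y := le_of_mul_le_mul_left h hw

/-- the sums over nb are nonnegative -/
lemma sums_nonneg (W : WtH s0 Cu Nb ns nb Nr v oml) (B : RbH Cr nb St Sol a ah D b)
    (al0 : ∀ Q, 0 ≤ al Q) (TG0 : ∀ Q, 0 ≤ TG Q) (hv : ∀ Q, 0 ≤ val Q) (INT : Set (Cell d))
    (Q : Cell d) :
    0 ≤ (∑ Q' ∈ nb Q, val2 val Q') ∧ 0 ≤ (∑ Q' ∈ nb Q, costF Sol al D oml Q') ∧
    0 ≤ (∑ Q' ∈ nb Q, sBF St b oml Q') ∧ 0 ≤ (∑ Q' ∈ nb Q, iFF Sol INT D b oml Q') ∧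
    0 ≤ (∑ Q' ∈ nb Q, payF r0 St D oml TG Q') :=
  ⟨Finset.sum_nonneg fun i _ => v2_nonneg hv i, Finset.sum_nonneg fun i _ => cost_nonneg W B al0 i,
   Finset.sum_nonneg fun i _ => sB_nonneg W B i, Finset.sum_nonneg fun i _ => iF_nonneg W B INT i,
   Finset.sum_nonneg fun i _ => pay_nonneg W B TG0 i⟩

lemma allA (hCr : 1 ≤ Cr) (B : RbH Cr nb St Sol a ah D b) {Q Q0 : Cell d}
    (hQ : Q ∈ Sol) (hns : ns Q0 ⊆ nb Q) (h0 : Q0 ∈ nb Q) (hh : a Q0 ≤ Cr * ah Q0)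
    (hA : ∀ Q' ∈ nb Q, Q' ∈ TyA κ a D b) : AllA (Cr ^ 2) ns St (TyA κ a D b) a ah Q0 := by
  refine ⟨fun Q' hQ' => ?_, ?_⟩
  · obtain ⟨t1, t2, -⟩ := B.sol Q hQ Q' (hns hQ')
    obtain ⟨-, -, s3, -⟩ := B.sol Q hQ Q0 h0
    refine ⟨t1, hA Q' (hns hQ'), ?_⟩
    calc a Q' ≤ Cr * a Q := t2
      _ ≤ Cr * (Cr * a Q0) := mul_le_mul_of_nonneg_left s3 (by linarith)
      _ = _ := by ring
  · have h1 := B.an Q0
    have h2 : 0 ≤ ah Q0 := by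
      by_contra hneg
      rw [not_le] at hneg
      nlinarith
    calc a Q0 ≤ Cr * ah Q0 := hh
      _ ≤ Cr ^ 2 * ah Q0 := mul_le_mul_of_nonneg_right (by nlinarith) h2

lemma allB (B : RbH Cr nb St Sol a ah D b) {Q Q0 : Cell d}
    (hQ : Q ∈ Sol) (hns : ns Q0 ⊆ nb Q)
    (hA : ∀ Q' ∈ nb Q, Q' ∉ TyA κ a D b) : AllB ns St (TyA κ a D b) Q0 := fun Q' hQ' =>
  ⟨(B.sol Q hQ Q' (hns hQ')).1, hA Q' (hns hQ')⟩

end

end PQ

end

end TG
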