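import Pool.Agent.TG.WBE

/-!
# Kernels controlled by disc averages (module WB)
-/

open MeasureTheory Metric Set TrI Filter Topology
open scoped InnerProductSpace ContDiff

namespace TG

noncomputable section

namespace WBT

variable {d : ℕ} {G : Type*} [NormedAddCommGroup G] [NormedSpace ℝ G]

/-- kernels whose derivatives are controlled by the weight κ -/
structure KB (m : ℕ) (P : ℝ) (κ : Sp d → ℝ) (K : Sp d → G) : Prop where
  kc : KC m K
  bd : ∀ i ≤ m, ∀ z, ‖iteratedFDeriv ℝ i K z‖ ≤ P * Real.sqrt (κ z)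

lemma KB.mono {m m' : ℕ} {P : ℝ} {κ : Sp d → ℝ} {K : Sp d → G} (h : KB m P κ K) (hm : m' ≤ m) :
    KB m' P κ K :=
  ⟨h.kc.mono hm, fun i hi z => h.bd i (hi.trans hm) z⟩

lemma KB.norm_le {m : ℕ} {P : ℝ} {κ : Sp d → ℝ} {K : Sp d → G} (h : KB m P κ K) (z : Sp d) :
    ‖K z‖ ≤ P * Real.sqrt (κ z) := by
  have := h.bd 0 (Nat.zero_le _) z
  rwa [norm_iteratedFDeriv_zero] at this

lemma KB.fderiv {m : ℕ} {P : ℝ} {κ : Sp d → ℝ} {K : Sp d → G} (h : KB (m + 1) P κ K) :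
    KB m P κ (fderiv ℝ K) :=
  ⟨h.kc.fderiv, fun i hi z => by
    rw [norm_iteratedFDeriv_fderiv]
    exact h.bd (i + 1) (by omega) z⟩

lemma KB.clm {G' : Type*} [NormedAddCommGroup G'] [NormedSpace ℝ G'] {m : ℕ} {P : ℝ}
    {κ : Sp d → ℝ} {K : Sp d → G} (h : KB m P κ K) (L : G →L[ℝ] G') (hL : ‖L‖ ≤ 1) :
    KB m P κ (fun z => L (K z)) := by
  refine ⟨h.kc.clm L, fun i hi z => ?_⟩
  have h1 : ‖iteratedFDeriv ℝ i (fun z => L (K z)) z‖ ≤ ‖L‖ * ‖iteratedFDeriv ℝ i K z‖ :=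
    L.norm_iteratedFDeriv_comp_left (f := K) (x := z) (N := m) h.kc.smooth.contDiffAt
      (by exact_mod_cast hi)
  have h2 := h.bd i hi z
  have h3 := mul_le_mul_of_nonneg_right hL (norm_nonneg (iteratedFDeriv ℝ i K z))
  calc _ ≤ ‖L‖ * ‖iteratedFDeriv ℝ i K z‖ := h1
    _ ≤ _ := by linarith

lemma KB.dir {m : ℕ} {P : ℝ} {κ : Sp d → ℝ} {K : Sp d → G} (h : KB (m + 1) P κ K) {e : Sp d}
    (he : ‖e‖ ≤ 1) : KB m P κ (fun z => _root_.fderiv ℝ K z e) :=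
  h.fderiv.clm (ContinuousLinearMap.apply ℝ G e) (by
    refine ContinuousLinearMap.opNorm_le_bound _ zero_le_one fun φ => ?_
    rw [ContinuousLinearMap.apply_apply, one_mul]
    exact (φ.le_opNorm e).trans (by nlinarith [norm_nonneg φ]))

lemma KB.add {m : ℕ} {P P' : ℝ} {κ : Sp d → ℝ} {K K' : Sp d → G} (h : KB m P κ K)
    (h' : KB m P' κ K') : KB m (P + P') κ (fun z => K z + K' z) := by
  refine ⟨h.kc.add h'.kc, fun i hi z => ?_⟩
  have hi' : ((i : ℕ) : WithTop ℕ∞) ≤ (m : WithTop ℕ∞) := by exact_mod_cast hi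
  have h1 : iteratedFDeriv ℝ i (fun z => K z + K' z) z
      = iteratedFDeriv ℝ i K z + iteratedFDeriv ℝ i K' z :=
    iteratedFDeriv_add_apply (h.kc.smooth.contDiffAt.of_le hi')
      (h'.kc.smooth.contDiffAt.of_le hi')
  rw [h1, add_mul]
  exact (norm_add_le _ _).trans (add_le_add (h.bd i hi z) (h'.bd i hi z))

lemma KB.csmul {m : ℕ} {P : ℝ} {κ : Sp d → ℝ} {K : Sp d → G} (h : KB m P κ K) (c : ℝ) :
    KB m (|c| * P) κ (fun z => c • K z) := by
  refine ⟨h.kc.csmul c, fun i hi z => ?_⟩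
  have hi' : ((i : ℕ) : WithTop ℕ∞) ≤ (m : WithTop ℕ∞) := by exact_mod_cast hi
  have h1 : iteratedFDeriv ℝ i (fun z => c • K z) z = c • iteratedFDeriv ℝ i K z :=
    iteratedFDeriv_const_smul_apply (h.kc.smooth.contDiffAt.of_le hi')
  rw [h1, norm_smul, Real.norm_eq_abs, mul_assoc]
  exact mul_le_mul_of_nonneg_left (h.bd i hi z) (abs_nonneg c)

lemma KB.sum {ι : Type*} {m : ℕ} {P : ℝ} {κ : Sp d → ℝ} {K : ι → Sp d → G} {s : Finset ι}
    (h : ∀ i ∈ s, KB m P κ (K i)) : KB m (s.card * P) κ (fun z => ∑ i ∈ s, K i z) := by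
  classical
  induction s using Finset.induction_on with
  | empty =>
    simp only [Finset.sum_empty, Finset.card_empty, Nat.cast_zero, zero_mul]
    refine ⟨⟨contDiff_const, fun z _ => rfl⟩, fun i hi z => ?_⟩
    rw [iteratedFDeriv_fun_zero]
    simp
  | insert a s ha ih =>
    have h1 := (h a (Finset.mem_insert_self a s)).add
      (ih fun i hi => h i (Finset.mem_insert_of_mem hi))
    have h2 : (P + s.card * P) = ((insert a s).card : ℝ) * P := by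
      rw [Finset.card_insert_of_notMem ha]
      push_cast
      ring
    rw [h2] at h1
    simp only [Finset.sum_insert ha]
    exact h1

lemma KB.tens {m : ℕ} {P : ℝ} {κ : Sp d → ℝ} {K : Sp d → G} (h : KB m P κ K) {n : Sp d}
    (hn : ‖n‖ ≤ 1) : KB m P κ (tens n K) :=
  h.clm ((ContinuousLinearMap.smulRightL ℝ (Sp d) G) (innerSL ℝ n)) (by
    refine ContinuousLinearMap.opNorm_le_bound _ zero_le_one fun v => ?_
    show ‖(innerSL ℝ n).smulRight v‖ ≤ 1 * ‖v‖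
    rw [ContinuousLinearMap.norm_smulRight_apply, innerSL_apply_norm]
    exact mul_le_mul_of_nonneg_right hn (norm_nonneg v))

/-- the kernels of a kit -/
lemma Kit.kb {J : ℕ} {M : ℝ} {β : Sp d → ℝ} (h : Kit J M β) {n : Sp d} (hn : ‖n‖ = 1) :
    KB J (Real.sqrt (max M 1)) (disc n β) β ∧ KB J (Real.sqrt (max M 1)) (disc n β) (Bp β) ∧
      KB J (Real.sqrt (max M 1)) (disc n β) (Bp (Bp β)) := by
  have hd : ∀ z, 0 ≤ disc n β z := disc_nonneg n h.prof.nonneg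
  have key : ∀ (x : ℝ) (z : Sp d), 0 ≤ x → x ^ 2 ≤ M * disc n β z →
      x ≤ Real.sqrt (max M 1) * Real.sqrt (disc n β z) := by
    intro x z hx h1
    rw [← Real.sqrt_mul (by positivity)]
    refine Real.le_sqrt_of_sq_le (h1.trans ?_)
    exact mul_le_mul_of_nonneg_right (le_max_left _ _) (hd z)
  exact ⟨⟨⟨h.prof.smooth, fun z hz => h.prof.supp z hz.le⟩,
      fun i hi z => key _ z (norm_nonneg _) (h.prof.der i hi n hn z)⟩,
    ⟨⟨h.smooth1, fun z hz => h.supp1 z hz.le⟩,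
      fun i hi z => key _ z (norm_nonneg _) (h.der1 i hi n hn z)⟩,
    ⟨⟨h.smooth2, fun z hz => h.supp2 z hz.le⟩,
      fun i hi z => key _ z (norm_nonneg _) (h.der2 i hi n hn z)⟩⟩

/-- the right hand side of the sharp bounds -/
def EE (C : ℝ) (V : ℝ → Sp d → ℝ) (β : Sp d → ℝ) (n : Sp d) (ε : ℝ) (y : Sp d) : ℝ :=
  (C * vQ d * (2 / ε) ^ d) * V 1 y * discR n (2 * ε) (XT V β n ε) y

/-- e1 without squares -/
lemma e1' {C : ℝ} {V : ℝ → Sp d → ℝ} (hV : VOK C V) {n : Sp d} (hn : ‖n‖ = 1) {ε : ℝ}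
    (hε : 0 < ε) (hε1 : ε ≤ 1) {β : Sp d → ℝ} (hβ : KC 0 β) (hβ0 : ∀ z, 0 ≤ β z)
    {Ψ : ℝ → Sp d → Sp d → G} {m : ℕ} (hΨ : Reg m Ψ) {P : ℝ} (hP : 0 ≤ P) (y : Sp d)
    (hb : ∀ r z, 1 / 2 ≤ r → r ≤ 2 → ‖z‖ ≤ 1 → ‖Ψ r z (y + (ε * r) • z)‖
      ≤ P * Real.sqrt (disc n β z * QH V n ε r z (y + (ε * r) • z))) :
    ‖II ε Ψ y‖ ≤ P * Real.sqrt (EE C V β n ε y) := by
  have h1 := e1 hV hn hε hε1 hβ hβ0 hΨ hP y hb
  rw [← Real.sqrt_sq hP, ← Real.sqrt_mul (sq_nonneg P)]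
  exact Real.le_sqrt_of_sq_le h1

/-- the derivative in an orthogonal direction is controlled by the quadratic form -/
lemma pX_le_QH (V : ℝ → Sp d → ℝ) {n e : Sp d} (he : ‖e‖ ≤ 1) (hne : ⟪n, e⟫_ℝ = 0)
    (ε r : ℝ) (z x : Sp d) : |pX V e r x| ≤ Real.sqrt (QH V n ε r z x) := by
  have h1 : pX V e r x = ⟪tang n (gradient (V r) x), e⟫_ℝ := by
    rw [inner_tang hne, inner_grad]
    rfl
  have h2 : |pX V e r x| ≤ ‖tang n (gradient (V r) x)‖ := by
    rw [h1]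
    have h3 := abs_real_inner_le_norm (tang n (gradient (V r) x)) e
    nlinarith [norm_nonneg (tang n (gradient (V r) x))]
  refine Real.le_sqrt_of_sq_le ?_
  have h4 : |pX V e r x| ^ 2 ≤ TT V n r x := by
    unfold TT
    exact pow_le_pow_left₀ (abs_nonneg _) h2 2
  unfold QH
  have h5 := sq_nonneg (pT V r x + ε * ⟪n, z⟫_ℝ * pX V n r x)
  linarith

/-- the ray derivative is controlled by the quadratic form -/
lemma ray_le_QH (V : ℝ → Sp d → ℝ) (n : Sp d) (ε r : ℝ) (z x : Sp d) :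
    |pT V r x + ε * ⟪n, z⟫_ℝ * pX V n r x| ≤ Real.sqrt (QH V n ε r z x) := by
  refine Real.le_sqrt_of_sq_le ?_
  rw [sq_abs]
  unfold QH TT
  have h5 := sq_nonneg ‖tang n (gradient (V r) x)‖
  linarith

/-- directional form of the iterated derivative -/
lemma iter_last {j : ℕ} {f : Sp d → ℝ} (hf : ContDiff ℝ (j + 1 : ℕ) f) (y : Sp d)
    (h : Fin (j + 1) → Sp d) : iteratedFDeriv ℝ (j + 1) f y h
      = iteratedFDeriv ℝ j (fun x => fderiv ℝ f x (h (Fin.last j))) y (Fin.init h) := by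
  rw [iteratedFDeriv_succ_apply_right]
  have h1 : ContDiff ℝ j (fun x => fderiv ℝ f x) := hf.fderiv_right (by push_cast; exact le_rfl)
  have h2 := (ContinuousLinearMap.apply ℝ ℝ (h (Fin.last j))).iteratedFDeriv_comp_left
    (f := fun x => fderiv ℝ f x) (x := y) (n := j) h1.contDiffAt (i := j) le_rfl
  have h3 : (⇑(ContinuousLinearMap.apply ℝ ℝ (h (Fin.last j))) ∘ fun x => fderiv ℝ f x)
      = fun x => fderiv ℝ f x (h (Fin.last j)) := rfl
  rw [h3] at h2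
  rw [h2]
  rfl

end WBT

end

end TG
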